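import Pool.Agent.LibPI34.A5_Alt

/-! PI34, block A5, file Al2: weights and invariants of the exterior powers. -/

set_option autoImplicit false

namespace Pool.PI34.A5

open Finset Matrix

/-- the steps of the filtration -/
def filtG {K H N ι : Type} [Field K] [AddCommGroup H] [Module K H]
    [AddCommGroup N] [Module K N] (w : ι → ℕ) (f : ι → H →ₗ[K] N) (n : ℕ) : Submodule K H where
  carrier := {ω | ∀ i, w i < n → f i ω = 0}
  zero_mem' := fun i _ => map_zero _
  add_mem' := fun {x y} hx hy i hi => by rw [map_add, hx i hi, hy i hi, add_zero]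
  smul_mem' := fun r x hx i hi => by rw [map_smul, hx i hi, smul_zero]

theorem filtG_step {K H N ι : Type} [Field K] [AddCommGroup H] [Module K H]
    [FiniteDimensional K H] [AddCommGroup N] [Module K N] [FiniteDimensional K N]
    (w : ι → ℕ) (hw : Function.Injective w) (f : ι → H →ₗ[K] N) (P : ι → Submodule K N)
    (h1 : ∀ i ω, (∀ j, w j < w i → f j ω = 0) → f i ω ∈ P i) (i : ι) :
    Module.finrank K (filtG w f (w i)) ≤ Module.finrank K (filtG w f (w i + 1)) +
      Module.finrank K (P i) := by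
  have h3 := LinearMap.finrank_range_add_finrank_ker ((f i).domRestrict (filtG w f (w i)))
  have h4 : Module.finrank K (LinearMap.range ((f i).domRestrict (filtG w f (w i)))) ≤
      Module.finrank K (P i) := by
    refine Submodule.finrank_mono ?_
    rintro _ ⟨ω, rfl⟩
    exact h1 i ω.1 ω.2
  have h5 : Module.finrank K (LinearMap.ker ((f i).domRestrict (filtG w f (w i)))) ≤
      Module.finrank K (filtG w f (w i + 1)) := by
    have h6 : (LinearMap.ker ((f i).domRestrict (filtG w f (w i)))).map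
        (filtG w f (w i)).subtype ≤ filtG w f (w i + 1) := by
      rintro _ ⟨x, hx, rfl⟩ j hj
      rcases Nat.lt_succ_iff_lt_or_eq.1 hj with h | h
      · exact x.2 j h
      · rw [hw h]
        exact LinearMap.mem_ker.1 hx
    have h7 := Submodule.finrank_mono h6
    rwa [Submodule.finrank_map_subtype_eq] at h7
  omega

/-- abstract filtration bound.  PROOF.  For `n : ℕ` let `H_n = {ω | ∀ i, w i < n → f i ω = 0}`; `H_0 = ⊤`, `H_n = ⊥` for large `n`;
`finrank H_n ≤ finrank H_(n+1) + ∑_(w i = n) finrank (P i)` (at most one `i`). -/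
theorem filt_bound {K H N ι : Type} [Field K] [AddCommGroup H] [Module K H]
    [FiniteDimensional K H] [AddCommGroup N] [Module K N] [FiniteDimensional K N] [Fintype ι]
    (w : ι → ℕ) (hw : Function.Injective w) (f : ι → H →ₗ[K] N) (P : ι → Submodule K N)
    (h1 : ∀ i ω, (∀ j, w j < w i → f j ω = 0) → f i ω ∈ P i)
    (h2 : ∀ ω, (∀ i, f i ω = 0) → ω = 0) :
    Module.finrank K H ≤ ∑ i, Module.finrank K (P i) := by
  classical
  have key : ∀ n, Module.finrank K H ≤ Module.finrank K (filtG w f n) +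
      ∑ i ∈ univ.filter (fun i => w i < n), Module.finrank K (P i) := by
    intro n
    induction n with
    | zero =>
      have e : filtG w f 0 = ⊤ := by
        rw [eq_top_iff]
        intro ω _ i hi
        exact absurd hi (Nat.not_lt_zero _)
      rw [e, finrank_top]
      exact Nat.le_add_right _ _
    | succ n ih =>
      by_cases hn : ∃ i, w i = n
      · obtain ⟨i, rfl⟩ := hn
        have e : univ.filter (fun j => w j < w i + 1) =
            insert i (univ.filter (fun j => w j < w i)) := by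
          ext j
          simp only [mem_filter, mem_univ, true_and, mem_insert]
          constructor
          · intro h
            rcases Nat.lt_succ_iff_lt_or_eq.1 h with h | h
            · exact Or.inr h
            · exact Or.inl (hw h)
          · rintro (rfl | h)
            · omega
            · omega
        rw [e, sum_insert (by simp)]
        have h3 := filtG_step w hw f P h1 i
        omega
      · have e : univ.filter (fun j => w j < n + 1) = univ.filter (fun j => w j < n) := by
          ext j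
          simp only [mem_filter, mem_univ, true_and]
          constructor
          · intro h
            rcases Nat.lt_succ_iff_lt_or_eq.1 h with h | h
            · exact h
            · exact absurd ⟨j, h⟩ hn
          · intro h
            omega
        have e2 : filtG w f (n + 1) = filtG w f n := by
          ext ω
          constructor
          · intro h j hj
            exact h j (by omega)
          · intro h j hj
            rcases Nat.lt_succ_iff_lt_or_eq.1 hj with h' | h'
            · exact h j h'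
            · exact absurd ⟨j, h'⟩ hn
        rw [e, e2]
        exact ih
  obtain ⟨n, hn⟩ : ∃ n, ∀ i, w i < n := by
    refine ⟨(∑ i, w i) + 1, fun i => ?_⟩
    have := single_le_sum (f := w) (fun i _ => Nat.zero_le _) (mem_univ i)
    omega
  have h3 := key n
  have e : filtG w f n = ⊥ := by
    rw [eq_bot_iff]
    intro ω hω
    exact (Submodule.mem_bot K).2 (h2 ω fun i => hω i (hn i))
  have e2 : univ.filter (fun i => w i < n) = univ := by
    ext j
    simp [hn j]
  rw [e, e2, finrank_bot, zero_add] at h3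
  exact h3

variable {m : ℕ} {c : Fin m → ℕ} {K : Type} [Field K]

/-- the basis tuple of a subset `S` of cardinality `a` -/
noncomputable def eS (K : Type) [Field K] {a : ℕ} (S : Finset (Fin m)) (hS : S.card = a) :
    Fin a → Fin m → K := fun q => Pi.single (S.orderEmbOfFin hS q) 1

/-- every injective tuple is a permutation of an increasing one -/
theorem exists_perm {a : ℕ} (r : Fin a → Fin m) (hr : Function.Injective r) :
    ∃ (hS : (univ.image r).card = a) (σ : Equiv.Perm (Fin a)),
      ∀ q, r q = (univ.image r).orderEmbOfFin hS (σ q) := by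
  classical
  have hS : (univ.image r).card = a := by
    rw [card_image_of_injective _ hr, card_univ, Fintype.card_fin]
  refine ⟨hS, ?_⟩
  let E : Fin a ≃ (univ.image r : Finset (Fin m)) := Equiv.ofBijective
    (fun q => ⟨r q, mem_image_of_mem r (mem_univ q)⟩)
    ⟨fun x y h => hr (congrArg Subtype.val h), fun y => by
      obtain ⟨x, _, hx⟩ := mem_image.1 y.2
      exact ⟨x, Subtype.ext hx⟩⟩
  refine ⟨E.trans ((univ.image r).orderIsoOfFin hS).symm.toEquiv, fun q => ?_⟩
  rw [← coe_orderIsoOfFin_apply]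
  have e : (univ.image r).orderIsoOfFin hS
      ((E.trans ((univ.image r).orderIsoOfFin hS).symm.toEquiv) q) = E q :=
    ((univ.image r).orderIsoOfFin hS).apply_symm_apply (E q)
  rw [e]
  rfl

theorem zero_of_eS {N : Type} [AddCommGroup N] [Module K N] {a : ℕ}
    (ω : (Fin m → K) [⋀^Fin a]→ₗ[K] N) (r : Fin a → Fin m) (hr : Function.Injective r)
    (h : ∀ hS : (univ.image r).card = a, ω (eS K (univ.image r) hS) = 0) :
    ω (fun q => Pi.single (r q) 1) = 0 := by
  obtain ⟨hS, σ, hσ⟩ := exists_perm r hr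
  have e : (fun q => (Pi.single (r q) 1 : Fin m → K)) =
      fun q => eS K (univ.image r) hS (σ q) := by
    funext q
    rw [hσ q]
    rfl
  rw [e]
  have := ω.map_perm (eS K (univ.image r) hS) σ
  rw [h hS, smul_zero] at this
  exact this

/-- an alternating form is determined by the values on the `eS S` (`Module.Basis.ext_alternating`; every injective tuple is a
permutation of an increasing one) -/
theorem alt_ext {N : Type} [AddCommGroup N] [Module K N] {a : ℕ}
    (ω : (Fin m → K) [⋀^Fin a]→ₗ[K] N) (h : ∀ (S : Finset (Fin m)) (hS : S.card = a), ω (eS K S hS) = 0) : ω = 0 := by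
  refine Module.Basis.ext_alternating (Pi.basisFun K (Fin m)) fun v hv => ?_
  simp only [Pi.basisFun_apply, AlternatingMap.zero_apply]
  exact zero_of_eS ω v hv fun hS => h _ hS

/-- expansion of `ω(e_S g)` -/
theorem alt_expand {N : Type} [AddCommGroup N] [Module K N] {a : ℕ}
    (ω : (Fin m → K) [⋀^Fin a]→ₗ[K] N) (s : Fin a → Fin m) (g : Matrix (Fin m) (Fin m) K) :
    ω (fun q => (Pi.single (s q) 1 : Fin m → K) ᵥ* g) =
      ∑ r : Fin a → Fin m, (∏ q, g (s q) (r q)) • ω (fun q => Pi.single (r q) 1) := by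
  classical
  have e : (fun q => (Pi.single (s q) 1 : Fin m → K) ᵥ* g) =
      fun q => ∑ j, g (s q) j • (Pi.single j 1 : Fin m → K) := by
    funext q
    ext l
    rw [Matrix.single_one_vecMul, Finset.sum_apply]
    simp [Pi.single_apply]
  rw [e]
  have h := ω.toMultilinearMap.map_sum (fun q j => g (s q) j • (Pi.single j 1 : Fin m → K))
  refine h.trans (sum_congr rfl fun r _ => ?_)
  exact ω.toMultilinearMap.map_smul_univ (fun q => g (s q) (r q)) _

theorem image_eS {a : ℕ} (S : Finset (Fin m)) (hS : S.card = a) (F : Fin m → ℕ) :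
    ∑ i ∈ S, F i = ∑ q : Fin a, F (S.orderEmbOfFin hS q) := by
  rw [← sum_coe_sort S F]
  exact (Fintype.sum_equiv (S.orderIsoOfFin hS).toEquiv _ _ fun q => rfl).symm

theorem prod_eS {a : ℕ} (S : Finset (Fin m)) (hS : S.card = a) (F : Fin m → K) :
    ∏ i ∈ S, F i = ∏ q : Fin a, F (S.orderEmbOfFin hS q) := by
  rw [← prod_coe_sort S F]
  exact (Fintype.prod_equiv (S.orderIsoOfFin hS).toEquiv _ _ fun q => rfl).symm

theorem tw_ind (t : Fin m → K) (S : Finset (Fin m)) : tw t (ind S) = ∏ i ∈ S, t i := by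
  classical
  unfold tw ind
  rw [← prod_subset (subset_univ S) (f := fun i => t i ^ (if i ∈ S then 1 else 0))]
  · refine prod_congr rfl fun i hi => ?_
    rw [if_pos hi, pow_one]
  · intro i _ hi
    rw [if_neg hi, pow_zero]

theorem tw_ind_mul (t : Fin m → K) (κ : Fin m → ℕ) (S : Finset (Fin m)) (h : ∀ i, ind S i ≤ κ i) :
    tw t κ = (∏ i ∈ S, t i) * tw t (fun i => κ i - ind S i) := by
  rw [← tw_ind]
  unfold tw
  rw [← prod_mul_distrib]
  refine prod_congr rfl fun i _ => ?_
  rw [← pow_add, Nat.add_sub_cancel' (h i)]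

theorem lead_lo (M : PRep c K) (a : ℕ) (κ : Fin m → ℕ)
    (ω : (Fin m → K) [⋀^Fin a]→ₗ[K] M.V) (hω : ω ∈ (altI M a).hs κ) (S : Finset (Fin m))
    (hS : S.card = a)
    (h0 : ∀ (S' : Finset (Fin m)) (hS' : S'.card = a),
      ∑ i ∈ S', 2 ^ (i : ℕ) < ∑ i ∈ S, 2 ^ (i : ℕ) →
      ω (eS K S' hS') = 0) (g : Blk c K) (hg : IsLo g) :
    M.ρ g (ω (eS K S hS)) = ω (eS K S hS) := by
  classical
  have h1 : altAct M (incl c K) a g ω = ω := hω.2 g hg
  have h2 : M.ρ g (ω fun q => eS K S hS q ᵥ* g.1) = ω (eS K S hS) :=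
    congrArg (fun η : (Fin m → K) [⋀^Fin a]→ₗ[K] M.V => η (eS K S hS)) h1
  have h3 : (ω fun q => eS K S hS q ᵥ* g.1) = ω (eS K S hS) := by
    have h4 := alt_expand ω (fun q => S.orderEmbOfFin hS q) g.1
    rw [sum_eq_single (fun q => S.orderEmbOfFin hS q)] at h4
    · rw [prod_eq_one (fun q _ => hg.1 (S.orderEmbOfFin hS q)), one_smul] at h4
      exact h4
    · intro r _ hr
      by_cases h5 : ∃ q, S.orderEmbOfFin hS q < r q
      · obtain ⟨q, hq⟩ := h5
        rw [prod_eq_zero (mem_univ q) (hg.2 _ _ hq), zero_smul]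
      · have h5' : ∀ q, r q ≤ S.orderEmbOfFin hS q := fun q => not_lt.1 fun h => h5 ⟨q, h⟩
        by_cases h6 : Function.Injective r
        · rw [zero_of_eS ω r h6, smul_zero]
          intro hS'
          refine h0 _ hS' ?_
          rw [sum_image h6.injOn, image_eS S hS]
          refine sum_lt_sum (fun q _ => Nat.pow_le_pow_right (by norm_num) (h5' q)) ?_
          obtain ⟨q, hq⟩ := Function.ne_iff.1 hr
          exact ⟨q, mem_univ q, Nat.pow_lt_pow_right (by norm_num)
            (Fin.lt_def.1 (lt_of_le_of_ne (h5' q) hq))⟩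
        · have h7 : ω (fun q => (Pi.single (r q) 1 : Fin m → K)) = 0 := by
            refine ω.map_eq_zero_of_not_injective _ fun h7 => h6 fun x y hxy => h7 ?_
            simp only [hxy]
          rw [h7, smul_zero]
    · intro h
      exact absurd (mem_univ _) h
  rw [h3] at h2
  exact h2

theorem lead_wt (M : PRep c K) (a : ℕ) (κ : Fin m → ℕ)
    (ω : (Fin m → K) [⋀^Fin a]→ₗ[K] M.V) (hω : ω ∈ (altI M a).hs κ) (S : Finset (Fin m))
    (hS : S.card = a) (t : Fin m → K) :
    (∏ i ∈ S, t i) • M.ρ (dg c t) (ω (eS K S hS)) = tw t κ • ω (eS K S hS) := by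
  have h1 : altAct M (incl c K) a (dg c t) ω = tw t κ • ω := hω.1 t
  have h2 : M.ρ (dg c t) (ω fun q => eS K S hS q ᵥ* (dg c t).1) = tw t κ • ω (eS K S hS) :=
    congrArg (fun η : (Fin m → K) [⋀^Fin a]→ₗ[K] M.V => η (eS K S hS)) h1
  have h3 : (fun q => eS K S hS q ᵥ* (dg c t).1) =
      fun q => t (S.orderEmbOfFin hS q) • eS K S hS q := by
    funext q
    ext l
    change ((Pi.single (S.orderEmbOfFin hS q) 1 : Fin m → K) ᵥ* Matrix.diagonal t) l =
      t (S.orderEmbOfFin hS q) * (Pi.single (S.orderEmbOfFin hS q) 1 : Fin m → K) l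
    rw [Matrix.vecMul_diagonal]
    by_cases h : l = S.orderEmbOfFin hS q
    · rw [h, mul_comm]
    · rw [Pi.single_eq_of_ne h, zero_mul, mul_zero]
  have h4 : (ω fun q => t (S.orderEmbOfFin hS q) • eS K S hS q) =
      (∏ q, t (S.orderEmbOfFin hS q)) • ω (eS K S hS) :=
    ω.toMultilinearMap.map_smul_univ (fun q => t (S.orderEmbOfFin hS q)) _
  rw [h3, h4, ← prod_eS, map_smul] at h2
  exact h2

/-- PROOF.  `ω` is `IsLo`-invariant and `ω (e_S') = 0` for all `S'` with `∑_(i ∈ S') 2^i < ∑_(i ∈ S) 2^i`.  For `g ∈ Lo`: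
`ω(e_S) = (g ω)(e_S) = ρ(g) ω(e_S g)`, `e_i g = e_i + ∑_(j<i) g_ij e_j`; expand by multilinearity: all the terms except `ω(e_S)` are
`± ω(e_S')` with smaller `∑ 2^i` or zero (repeated arguments), so `ω(e_S) = ρ(g) ω(e_S)`.
Weight: `t^(1_S) ρ(t) ω(e_S) = (t ω)(e_S) = t^κ ω(e_S)`.  If `ω(e_S) ≠ 0` then `1_S ≤ κ` (put `t i = 0`, the others `1`) and `ω(e_S) ∈ wt (κ - 1_S)`
(`mem_wt_of_units`). -/
theorem alt_lead [Infinite K] (M : PRep c K) (a : ℕ) (κ : Fin m → ℕ)
    (ω : (Fin m → K) [⋀^Fin a]→ₗ[K] M.V) (hω : ω ∈ (altI M a).hs κ) (S : Finset (Fin m))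
    (hS : S.card = a)
    (h0 : ∀ (S' : Finset (Fin m)) (hS' : S'.card = a),
      ∑ i ∈ S', 2 ^ (i : ℕ) < ∑ i ∈ S, 2 ^ (i : ℕ) →
      ω (eS K S' hS') = 0) :
    ω (eS K S hS) ∈ (if ∀ i, ind S i ≤ κ i then M.hs (fun i => κ i - ind S i) else ⊥) := by
  classical
  by_cases hz : ω (eS K S hS) = 0
  · rw [hz]
    exact Submodule.zero_mem _
  have hle : ∀ i, ind S i ≤ κ i := by
    intro i
    by_cases hi : i ∈ S
    · have e : ind S i = 1 := if_pos hi
      rw [e]
      by_contra hκ
      have hκ0 : κ i = 0 := by omega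
      have h1 := lead_wt M a κ ω hω S hS (Function.update 1 i 0)
      rw [prod_eq_zero hi (Function.update_self i 0 1), zero_smul] at h1
      have h2 : tw (Function.update (1 : Fin m → K) i 0) κ = 1 := by
        unfold tw
        refine prod_eq_one fun j _ => ?_
        by_cases hj : j = i
        · rw [hj, hκ0, pow_zero]
        · rw [Function.update_of_ne hj, Pi.one_apply, one_pow]
      rw [h2, one_smul] at h1
      exact hz h1.symm
    · have e : ind S i = 0 := if_neg hi
      rw [e]
      exact Nat.zero_le _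
  rw [if_pos hle]
  refine ⟨mem_wt_of_units M _ _ fun t ht => ?_, fun g hg => lead_lo M a κ ω hω S hS h0 g hg⟩
  have h1 := lead_wt M a κ ω hω S hS t
  rw [tw_ind_mul t κ S hle, mul_smul] at h1
  exact smul_right_injective _ (prod_ne_zero_iff.2 fun i _ => ht i) h1

theorem w_inj (a : ℕ) : Function.Injective
    (fun S : {S : Finset (Fin m) // S.card = a} => ∑ i ∈ S.1, 2 ^ (i : ℕ)) := by
  intro S T h
  have h1 : ∀ U : Finset (Fin m), ∑ i ∈ U, 2 ^ (i : ℕ) = ∑ k ∈ U.map Fin.valEmbedding, 2 ^ k := by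
    intro U
    rw [sum_map]
    rfl
  have h2 : ∑ i ∈ S.1, 2 ^ (i : ℕ) = ∑ i ∈ T.1, 2 ^ (i : ℕ) := h
  rw [h1, h1] at h2
  exact Subtype.ext (map_injective _ (geomSum_injective le_rfl h2))

/-- evaluation on `e_S` -/
noncomputable def evS (M : PRep c K) (a : ℕ) (κ : Fin m → ℕ)
    (S : {S : Finset (Fin m) // S.card = a}) : (altI M a).hs κ →ₗ[K] M.V where
  toFun ω := (show (Fin m → K) [⋀^Fin a]→ₗ[K] M.V from ω.1) (eS K S.1 S.2)
  map_add' _ _ := rfl
  map_smul' _ _ := rfl

/-- from `filt_bound` (`ι` = the subsets of cardinality `a`, `w S = ∑ 2^i`), `alt_lead`, `alt_ext` -/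
theorem alt_hs_le [Infinite K] (M : PRep c K) (a : ℕ) (κ : Fin m → ℕ) :
    Module.finrank K ((altI M a).hs κ) ≤ ∑ S ∈ powersetCard a (univ : Finset (Fin m)),
      if ∀ i, ind S i ≤ κ i then Module.finrank K (M.hs (fun i => κ i - ind S i)) else 0 := by
  classical
  have h := filt_bound (K := K) (H := (altI M a).hs κ) (N := M.V)
    (fun S : {S : Finset (Fin m) // S.card = a} => ∑ i ∈ S.1, 2 ^ (i : ℕ)) (w_inj a)
    (evS M a κ)
    (fun S => if ∀ i, ind S.1 i ≤ κ i then M.hs (fun i => κ i - ind S.1 i) else ⊥)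
    (fun S ω hω => alt_lead M a κ ω.1 ω.2 S.1 S.2 fun S' hS' hlt => hω ⟨S', hS'⟩ hlt)
    (fun ω hω => Subtype.ext (alt_ext (K := K) ω.1 fun S hS => hω ⟨S, hS⟩))
  refine h.trans (le_of_eq ?_)
  rw [sum_subtype (powersetCard a (univ : Finset (Fin m))) (p := fun S => S.card = a)
    (fun S => by simp [mem_powersetCard])]
  refine sum_congr rfl fun S _ => ?_
  by_cases hc : ∀ i, ind S.1 i ≤ κ i
  · rw [if_pos hc, if_pos hc]
  · rw [if_neg hc, if_neg hc]
    exact finrank_bot K M.V

end Pool.PI34.A5
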