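import Pool.Agent.LibPI34.A5_Al2

/-! PI34, block A5, file Al3: weights of the exterior powers. -/

set_option autoImplicit false

namespace Pool.PI34.A5

open Finset Matrix

variable {m : ℕ} {c : Fin m → ℕ} {K : Type} [Field K]

private theorem prod_emb (S : Finset (Fin m)) {a : ℕ} (hS : S.card = a) (t : Fin m → K) :
    ∏ q, t (S.orderEmbOfFin hS q) = tw t (ind S) := by
  have h1 : ∏ q, t (S.orderEmbOfFin hS q) = ∏ i ∈ S, t i := by
    have h2 : S = Finset.univ.map (S.orderEmbOfFin hS).toEmbedding := by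
      ext i
      rw [Finset.mem_map]
      constructor
      · intro hi
        have : i ∈ Set.range (S.orderEmbOfFin hS) := by
          rw [Finset.range_orderEmbOfFin]
          exact hi
        obtain ⟨q, hq⟩ := this
        exact ⟨q, Finset.mem_univ q, hq⟩
      · rintro ⟨q, _, rfl⟩
        exact Finset.orderEmbOfFin_mem S hS q
    calc ∏ q, t (S.orderEmbOfFin hS q)
        = ∏ i ∈ Finset.univ.map (S.orderEmbOfFin hS).toEmbedding, t i := by
          rw [Finset.prod_map]
          rfl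
      _ = ∏ i ∈ S, t i := by rw [← h2]
  rw [h1]
  unfold tw ind
  rw [← Finset.prod_subset (Finset.subset_univ S)]
  · refine Finset.prod_congr rfl fun i hi => ?_
    rw [if_pos hi, pow_one]
  · intro i _ hi
    rw [if_neg hi, pow_zero]

private theorem tw_add (t : Fin m → K) (κ μ : Fin m → ℕ) :
    tw t (fun i => κ i + μ i) = tw t κ * tw t μ := by
  unfold tw
  rw [← Finset.prod_mul_distrib]
  exact Finset.prod_congr rfl fun i _ => pow_add _ _ _

private theorem vecMul_dg (t : Fin m → K) (v : Fin m → K) (i : Fin m) :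
    (v ᵥ* incl c K (dg c t)) i = v i * t i :=
  Matrix.vecMul_diagonal v t i

private theorem eS_dg (t : Fin m → K) {a : ℕ} (S : Finset (Fin m)) (hS : S.card = a) (q : Fin a) :
    eS K S hS q ᵥ* incl c K (dg c t) = t (S.orderEmbOfFin hS q) • eS K S hS q := by
  funext i
  rw [vecMul_dg, Pi.smul_apply, smul_eq_mul, mul_comm]
  unfold eS
  by_cases h : i = S.orderEmbOfFin hS q
  · rw [h]
  · rw [Pi.single_eq_of_ne h, mul_zero, mul_zero]

/-- weights of the exterior powers.  PROOF. `ω ≠ 0` of weight `κ`; `ω (e_S) ≠ 0` for some `S` (`alt_ext`); `t^(1_S) ρ(t) ω(e_S) = t^κ ω(e_S)`; write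
`ω(e_S) = ∑ P μ`, some `P μ ω(e_S) ≠ 0`, and `t^(1_S + μ) P μ ω(e_S) = t^κ P μ ω(e_S)`, so `κ = μ + 1_S` (`tw_indep`). -/
theorem alt_wt [Infinite K] (M : PRep c K) (a : ℕ) (κ : Fin m → ℕ) (h : (altI M a).wt κ ≠ ⊥) :
    ∃ S : Finset (Fin m), S.card = a ∧ ∃ μ, M.wt μ ≠ ⊥ ∧ κ = fun i => μ i + ind S i := by
  obtain ⟨ω, hω', hne⟩ : ∃ ω : (Fin m → K) [⋀^Fin a]→ₗ[K] M.V,
      (∀ t : Fin m → K, altAct M (incl c K) a (dg c t) ω = tw t κ • ω) ∧ ω ≠ 0 := by
    obtain ⟨ω, hω, hne⟩ := (Submodule.ne_bot_iff _).1 h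
    exact ⟨ω, hω, hne⟩
  obtain ⟨S, hS, hw⟩ : ∃ (S : Finset (Fin m)) (hS : S.card = a), ω (eS K S hS) ≠ 0 := by
    by_contra hcon
    push Not at hcon
    exact hne (alt_ext ω hcon)
  obtain ⟨w, hwd⟩ : ∃ w, w = ω (eS K S hS) := ⟨_, rfl⟩
  rw [← hwd] at hw
  have hrel : ∀ t : Fin m → K, tw t (ind S) • M.ρ (dg c t) w = tw t κ • w := by
    intro t
    have h1 := congrArg (fun η : (Fin m → K) [⋀^Fin a]→ₗ[K] M.V => η (eS K S hS)) (hω' t)
    have h2 : (fun q => eS K S hS q ᵥ* incl c K (dg c t)) =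
        fun q => t (S.orderEmbOfFin hS q) • eS K S hS q := funext fun q => eS_dg t S hS q
    have h3 : ω (fun q => t (S.orderEmbOfFin hS q) • eS K S hS q) =
        (∏ q, t (S.orderEmbOfFin hS q)) • ω (eS K S hS) :=
      ω.toMultilinearMap.map_smul_univ _ _
    have h4 : altAct M (incl c K) a (dg c t) ω (eS K S hS) = tw t κ • ω (eS K S hS) := h1
    rw [altAct_apply, h2, h3, prod_emb, map_smul, ← hwd] at h4
    exact h4
  obtain ⟨μ, hμ, hx⟩ : ∃ μ ∈ M.W, M.P μ w ≠ 0 := by
    by_contra hcon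
    push Not at hcon
    refine hw ?_
    rw [← sum_P M w]
    exact Finset.sum_eq_zero hcon
  refine ⟨S, hS, μ, ?_, ?_⟩
  · intro hb
    have := P_mem M μ w
    rw [hb] at this
    exact hx ((Submodule.mem_bot K).1 this)
  · by_contra hne2
    have hP : ∀ t : Fin m → K, M.P μ (M.ρ (dg c t) w) = tw t μ • M.P μ w := by
      intro t
      rw [rho_dg, LinearMap.sum_apply, map_sum, Finset.sum_eq_single μ]
      · rw [LinearMap.smul_apply, map_smul, P_self M μ _ (P_mem M μ w)]
      · intro ν _ hν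
        rw [LinearMap.smul_apply, map_smul, P_ne M μ ν (Ne.symm hν) _ (P_mem M ν w), smul_zero]
      · intro hn
        exact absurd hμ hn
    obtain ⟨κ', hκ'⟩ : ∃ κ' : Fin m → ℕ, κ' = fun i => μ i + ind S i := ⟨_, rfl⟩
    rw [← hκ'] at hne2
    have hne3 : κ' ≠ κ := fun e => hne2 e.symm
    have hfin := tw_indep (K := K) ({κ', κ} : Finset (Fin m → ℕ))
      (fun ν => if ν = κ' then M.P μ w else -(M.P μ w)) (by
        intro t
        rw [Finset.sum_pair hne3, if_pos rfl, if_neg hne3.symm, hκ', tw_add]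
        have h5 := congrArg (M.P μ) (hrel t)
        rw [map_smul, map_smul, hP] at h5
        rw [smul_neg, ← h5, smul_smul, mul_comm (tw t μ), add_neg_cancel]) κ' (by simp)
    rw [if_pos rfl] at hfin
    exact hx hfin

/-- `ω(v) = det (v_q (s_r)) • y`, `s` the increasing enumeration of `S` (`Matrix.detRowAlternating` composed with the projection) -/
theorem alt_wt_ne [Infinite K] (M : PRep c K) (S : Finset (Fin m)) (μ : Fin m → ℕ)
    (h : M.wt μ ≠ ⊥) : (altI M S.card).wt (fun i => μ i + ind S i) ≠ ⊥ := by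
  obtain ⟨y, hy, hy0⟩ := (Submodule.ne_bot_iff _).1 h
  obtain ⟨s, hs⟩ : ∃ s : Fin S.card → Fin m, s = S.orderEmbOfFin rfl := ⟨_, rfl⟩
  obtain ⟨ω, hω⟩ : ∃ ω : (Fin m → K) [⋀^Fin S.card]→ₗ[K] M.V, ω =
      (LinearMap.toSpanSingleton K M.V y).compAlternatingMap
        ((Matrix.detRowAlternating (n := Fin S.card) (R := K)).compLinearMap
          (LinearMap.funLeft K K s)) := ⟨_, rfl⟩
  have hval : ∀ v : Fin S.card → Fin m → K,
      ω v = (Matrix.of fun q r => v q (s r)).det • y := by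
    intro v
    rw [hω]
    rfl
  refine (Submodule.ne_bot_iff _).2 ⟨ω, ?_, ?_⟩
  · intro t
    change altAct M (incl c K) S.card (dg c t) ω = tw t (fun i => μ i + ind S i) • ω
    ext v
    have h1 : altAct M (incl c K) S.card (dg c t) ω v =
        M.ρ (dg c t) (ω fun q => v q ᵥ* incl c K (dg c t)) := rfl
    have h2 : (Matrix.of fun q r => (v q ᵥ* incl c K (dg c t)) (s r)) =
        Matrix.of fun q r => t (s r) * (Matrix.of fun q r => v q (s r)) q r := by
      ext q r
      rw [Matrix.of_apply, Matrix.of_apply, Matrix.of_apply, vecMul_dg, mul_comm]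
    rw [h1, hval, h2, Matrix.det_mul_row, AlternatingMap.smul_apply, hval, map_smul, hy t,
      smul_smul, smul_smul, tw_add, hs, prod_emb S rfl t]
    congr 1
    ring
  · intro h0
    have h1 : ω (eS K S rfl) = y := by
      rw [hval]
      have h2 : (Matrix.of fun q r => eS K S rfl q (s r)) = (1 : Matrix (Fin S.card) (Fin S.card) K) := by
        ext q r
        rw [Matrix.of_apply, Matrix.one_apply, hs]
        unfold eS
        by_cases hqr : q = r
        · rw [hqr, if_pos rfl, Pi.single_eq_same]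
        · rw [if_neg hqr, Pi.single_eq_of_ne]
          intro e
          exact hqr ((S.orderEmbOfFin rfl).injective e).symm
      rw [h2, Matrix.det_one, one_smul]
    rw [h0] at h1
    exact hy0 h1.symm

end Pool.PI34.A5
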