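import Pool.Agent.LibPI34.A5_Nab

/-! PI34, block A5, file Alt: alternating forms on row vectors with values in a representation. -/

set_option autoImplicit false

namespace Pool.PI34.A5

open Finset Matrix

section lin

variable {K : Type} [Field K] {U N : Type} [AddCommGroup U] [Module K U] [FiniteDimensional K U]
  [AddCommGroup N] [Module K N] [FiniteDimensional K N]

/-- `exteriorPower.alternatingMapLinearEquiv` -/
instance alt_fd (a : ℕ) : FiniteDimensional K (U [⋀^Fin a]→ₗ[K] N) :=
  Module.Finite.equiv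
    (exteriorPower.alternatingMapLinearEquiv (R := K) (n := a) (M := U) (N := N)).symm

/-- `exteriorPower.alternatingMapLinearEquiv`, `exteriorPower.finrank_eq`, `Module.finrank_linearMap` -/
theorem finrank_alt (a : ℕ) : Module.finrank K (U [⋀^Fin a]→ₗ[K] N) =
    (Module.finrank K U).choose a * Module.finrank K N := by
  rw [(exteriorPower.alternatingMapLinearEquiv (R := K) (n := a) (M := U) (N := N)).finrank_eq,
    Module.finrank_linearMap, exteriorPower.finrank_eq]

end lin

variable {m : ℕ} {c : Fin m → ℕ} {K : Type} [Field K]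

/-- `(g ω)(v) = ρ(g) ω(v τ(g))` -/
noncomputable def altAct (M : PRep c K) {J : Type} [Fintype J] [DecidableEq J]
    (τ : Blk c K →* Matrix J J K) (a : ℕ) (g : Blk c K) :
    ((J → K) [⋀^Fin a]→ₗ[K] M.V) →ₗ[K] ((J → K) [⋀^Fin a]→ₗ[K] M.V) where
  toFun ω := (M.ρ g).compAlternatingMap (ω.compLinearMap (Matrix.vecMulLinear (τ g)))
  map_add' ω η := by ext v; simp
  map_smul' r ω := by ext v; simp

theorem altAct_apply (M : PRep c K) {J : Type} [Fintype J] [DecidableEq J]
    (τ : Blk c K →* Matrix J J K) (a : ℕ) (g : Blk c K) (ω : (J → K) [⋀^Fin a]→ₗ[K] M.V)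
    (v : Fin a → J → K) : altAct M τ a g ω v = M.ρ g (ω fun q => v q ᵥ* τ g) := rfl

private theorem alt_expand {N : Type} [AddCommGroup N] [Module K N] {J : Type} [Fintype J]
    [DecidableEq J] {a : ℕ} (ω : (J → K) [⋀^Fin a]→ₗ[K] N) (u : Fin a → J → K) :
    ω u = ∑ r : Fin a → J, (∏ q, u q (r q)) • ω fun q => Pi.single (r q) 1 := by
  have e : u = fun q => ∑ j : J, u q j • (Pi.single j (1 : K) : J → K) := by
    funext q
    exact pi_eq_sum_univ' (u q)
  have h1 : ω u = ω.toMultilinearMap fun q => ∑ j : J, u q j • (Pi.single j (1 : K) : J → K) := by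
    rw [← e]
    rfl
  rw [h1, MultilinearMap.map_sum]
  refine Finset.sum_congr rfl fun r _ => ?_
  rw [MultilinearMap.map_smul_univ]
  rfl

/-- PROOF.  The functionals `ω ↦ ψ (ω v)` span the dual (`dual_span_of_sep`), so it is enough that `g ↦ ψ(ρ(g) ω(v τ(g)))` is polynomial; expand
`v_q τ(g) = ∑_j (v_q τ(g))_j e_j` by multilinearity. -/
theorem altAct_poly (M : PRep c K) {J : Type} [Fintype J] [DecidableEq J]
    (τ : Blk c K →* Matrix J J K) (hτ : ∀ i j, (fun Z => τ Z i j) ∈ PolyFn (crd c K)) (a : ℕ)
    (ω : (J → K) [⋀^Fin a]→ₗ[K] M.V) (φ : Module.Dual K ((J → K) [⋀^Fin a]→ₗ[K] M.V)) :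
    (fun g => φ (altAct M τ a g ω)) ∈ PolyFn (crd c K) := by
  have hspan := dual_span_of_sep (K := K) (V := (J → K) [⋀^Fin a]→ₗ[K] M.V)
    (ι := (Fin a → J → K) × Module.Dual K M.V)
    (fun p => { toFun := fun η => p.2 (η p.1)
                map_add' := fun η θ => by simp
                map_smul' := fun r η => by simp }) (by
      intro η hη
      ext v
      refine (Module.forall_dual_apply_eq_zero_iff K (η v)).1 fun ψ => ?_
      exact hη (v, ψ))
  have hφ : φ ∈ Submodule.span K (Set.range fun p : (Fin a → J → K) × Module.Dual K M.V =>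
      ({ toFun := fun η => p.2 (η p.1)
         map_add' := fun η θ => by simp
         map_smul' := fun r η => by simp } : Module.Dual K ((J → K) [⋀^Fin a]→ₗ[K] M.V))) := by
    rw [hspan]
    exact Submodule.mem_top
  refine Submodule.span_induction (p := fun φ _ =>
    (fun g => φ (altAct M τ a g ω)) ∈ PolyFn (crd c K)) ?_ ?_ ?_ ?_ hφ
  · rintro _ ⟨⟨v, ψ⟩, rfl⟩
    have e : (fun g : Blk c K => ψ (altAct M τ a g ω v)) =
        ∑ r : Fin a → J, (∏ q, fun g => ∑ i, v q i * τ g i (r q)) *
          fun g => ψ (M.ρ g (ω fun q => Pi.single (r q) 1)) := by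
      funext g
      rw [altAct_apply, alt_expand ω, map_sum, map_sum, Finset.sum_apply]
      refine Finset.sum_congr rfl fun r _ => ?_
      rw [map_smul, map_smul, smul_eq_mul, Pi.mul_apply, Finset.prod_apply]
      rfl
    change (fun g : Blk c K => ψ (altAct M τ a g ω v)) ∈ PolyFn (crd c K)
    rw [e]
    refine Subalgebra.sum_mem _ fun r _ => Subalgebra.mul_mem _ ?_ (M.poly _ ψ)
    refine Subalgebra.prod_mem _ fun q _ => ?_
    have e2 : (fun g : Blk c K => ∑ i, v q i * τ g i (r q)) =
        ∑ i, (fun _ => v q i) * fun g => τ g i (r q) := by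
      funext g
      rw [Finset.sum_apply]
      rfl
    rw [e2]
    exact Subalgebra.sum_mem _ fun i _ => Subalgebra.mul_mem _ (const_mem _ _) (hτ i (r q))
  · exact Subalgebra.zero_mem _
  · intro φ ψ _ _ h1 h2
    exact Subalgebra.add_mem _ h1 h2
  · intro r φ _ h
    exact Subalgebra.smul_mem _ h r

/-- alternating forms as a representation -/
noncomputable def altR (M : PRep c K) {J : Type} [Fintype J] [DecidableEq J]
    (τ : Blk c K →* Matrix J J K) (hτ : ∀ i j, (fun Z => τ Z i j) ∈ PolyFn (crd c K)) (a : ℕ) :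
    PRep c K where
  V := (J → K) [⋀^Fin a]→ₗ[K] M.V
  ρ := { toFun := altAct M τ a
         map_one' := by ext ω v; simp [altAct_apply]
         map_mul' := fun g h => by
          ext ω v
          simp [altAct_apply, Matrix.vecMul_vecMul] }
  poly ω φ := altAct_poly M τ hτ a ω φ

variable (c K) in
/-- the inclusion of the block matrices -/
def incl : Blk c K →* Matrix (Fin m) (Fin m) K := (Blk c K).subtype

theorem incl_poly (i j : Fin m) : (fun Z => incl c K Z i j) ∈ PolyFn (crd c K) :=
  coord_mem (crd c K) (i, j)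

/-- exterior powers for the natural representation -/
noncomputable abbrev altI (M : PRep c K) (a : ℕ) : PRep c K := altR M (incl c K) incl_poly a

end Pool.PI34.A5
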