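import Pool.Agent.LibPI34.A5_T4b

/-! PI34, block A5, file Br: branching. -/

set_option autoImplicit false

namespace Pool.PI34.A5

open Finset Matrix

variable {m : ℕ} {K : Type} [Field K] [Infinite K]

/-- the restriction of `nab λ` to `Blk (c ∘ castSucc)` -/
noncomputable def nabR (c : Fin (m + 1) → ℕ) (K : Type) [Field K] [Infinite K]
    (lam : Fin (m + 1) → ℕ) : PRep (fun i => c i.castSucc) K :=
  (nab c K lam).res (emb c K) (emb_poly c K)

/-- the matrix `[1, 0; r, 1]` (the entries of `r` outside of the color class of `last` are ignored) -/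
def lrow (c : Fin (m + 1) → ℕ) (r : Fin m → K) : Blk c K :=
  bpr c (Matrix.of fun i j => Fin.lastCases (motive := fun _ => K)
    (Fin.lastCases (motive := fun _ => K) 1 (fun j' => r j') j)
    (fun i' => (1 : Matrix _ _ K) i'.castSucc j) i)

omit [Infinite K] in
theorem Br_ll (c : Fin (m + 1) → ℕ) (r : Fin m → K) :
    (lrow c r).1 (Fin.last m) (Fin.last m) = 1 := by
  simp [lrow, bpr]

omit [Infinite K] in
theorem Br_lc (c : Fin (m + 1) → ℕ) (r : Fin m → K) (j : Fin m) :
    (lrow c r).1 (Fin.last m) j.castSucc = if c (Fin.last m) = c j.castSucc then r j else 0 := by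
  simp [lrow, bpr]

omit [Infinite K] in
theorem Br_cl (c : Fin (m + 1) → ℕ) (r : Fin m → K) (i : Fin m) :
    (lrow c r).1 i.castSucc (Fin.last m) = 0 := by
  have h : (1 : Matrix (Fin (m + 1)) (Fin (m + 1)) K) i.castSucc (Fin.last m) = 0 :=
    Matrix.one_apply_ne (Fin.castSucc_lt_last i).ne
  simp [lrow, bpr, h]

omit [Infinite K] in
theorem Br_cc (c : Fin (m + 1) → ℕ) (r : Fin m → K) (i j : Fin m) :
    (lrow c r).1 i.castSucc j.castSucc = (1 : Matrix (Fin m) (Fin m) K) i j := by
  have h : (1 : Matrix (Fin (m + 1)) (Fin (m + 1)) K) i.castSucc j.castSucc =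
      (1 : Matrix (Fin m) (Fin m) K) i j := by
    simp [Matrix.one_apply, Fin.castSucc_inj]
  simp only [lrow, bpr, Matrix.of_apply, Fin.lastCases_castSucc, h]
  by_cases hij : i = j
  · subst hij
    simp
  · rw [Matrix.one_apply_ne hij]
    simp

omit [Infinite K] in
theorem Br_tw (t : Fin m → K) (lam : Fin (m + 1) → ℕ) :
    tw (Fin.snoc (α := fun _ => K) t 1) lam = tw t (fun i => lam i.castSucc) := by
  unfold tw
  rw [Fin.prod_univ_castSucc]
  simp

omit [Infinite K] in
theorem Br_emb_dg (c : Fin (m + 1) → ℕ) (t : Fin m → K) :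
    emb c K (dg _ t) = dg c (Fin.snoc (α := fun _ => K) t 1) := by
  apply Subtype.ext
  show embM (Matrix.diagonal t) = Matrix.diagonal (Fin.snoc (α := fun _ => K) t 1)
  ext i j
  induction i using Fin.lastCases with
  | last =>
    induction j using Fin.lastCases with
    | last => simp
    | cast j => rw [embM_lc, Matrix.diagonal_apply_ne _ (Fin.castSucc_lt_last j).ne']
  | cast i =>
    induction j using Fin.lastCases with
    | last => rw [embM_cl, Matrix.diagonal_apply_ne _ (Fin.castSucc_lt_last i).ne]
    | cast j =>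
      rw [embM_cc]
      by_cases hij : i = j
      · subst hij
        simp
      · rw [Matrix.diagonal_apply_ne _ hij, Matrix.diagonal_apply_ne]
        intro h
        exact hij (Fin.castSucc_injective _ h)

/-- a lower unitriangular matrix is `lrow r * emb g'` -/
theorem Br_split (c : Fin (m + 1) → ℕ) (g : Blk c K) (hg : IsLo g) :
    ∃ (r : Fin m → K) (g' : Blk (fun i => c i.castSucc) K), IsLo g' ∧
      g = lrow c r * emb c K g' := by
  let G : Matrix (Fin m) (Fin m) K := Matrix.of fun i j => g.1 i.castSucc j.castSucc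
  have hG : ∀ i j, G i j = g.1 i.castSucc j.castSucc := fun _ _ => rfl
  have hGb : ∀ i j : Fin m, c i.castSucc ≠ c j.castSucc → G i j = 0 := fun i j h => g.2 _ _ h
  let g' : Blk (fun i => c i.castSucc) K := ⟨G, hGb⟩
  have hg' : IsLo g' := ⟨fun i => hg.1 i.castSucc, fun i j hij =>
    hg.2 i.castSucc j.castSucc (Fin.castSucc_lt_castSucc_iff.2 hij)⟩
  have hdet : G.det = 1 := by
    rw [Matrix.det_of_isLowerTriangular G (fun i j hij => hg'.2 i j (by simpa using hij))]
    exact Finset.prod_eq_one fun i _ => hg'.1 i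
  let R : Fin m → K := fun j => g.1 (Fin.last m) j.castSucc
  let R' : Fin m → K := Matrix.vecMul R G⁻¹
  have hR : Matrix.vecMul R' G = R := by
    show Matrix.vecMul (Matrix.vecMul R G⁻¹) G = R
    rw [Matrix.vecMul_vecMul, Matrix.nonsing_inv_mul G (by rw [hdet]; exact isUnit_one),
      Matrix.vecMul_one]
  refine ⟨R', g', hg', ?_⟩
  apply Subtype.ext
  show g.1 = (lrow c R').1 * embM G
  ext i j
  rw [Matrix.mul_apply, Fin.sum_univ_castSucc]
  induction i using Fin.lastCases with
  | last =>
    induction j using Fin.lastCases with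
    | last =>
      simp only [embM_cl, mul_zero, Finset.sum_const_zero, embM_ll, Br_ll, mul_one, zero_add]
      exact hg.1 _
    | cast j =>
      simp only [embM_cc, embM_lc, mul_zero, add_zero, Br_lc]
      by_cases hj : c (Fin.last m) = c j.castSucc
      · have h1 := congrFun hR j
        have h2 : (Matrix.vecMul R' G) j = ∑ k, R' k * G k j := rfl
        rw [h2] at h1
        rw [show g.1 (Fin.last m) j.castSucc = R j from rfl, ← h1]
        apply Finset.sum_congr rfl
        intro k _
        by_cases hk : c (Fin.last m) = c k.castSucc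
        · rw [if_pos hk]
        · rw [if_neg hk, zero_mul, hGb k j (fun h => hk (hj.trans h.symm)), mul_zero]
      · rw [g.2 _ _ hj]
        symm
        apply Finset.sum_eq_zero
        intro k _
        by_cases hk : c (Fin.last m) = c k.castSucc
        · rw [hGb k j (fun h => hj (hk.trans h)), mul_zero]
        · rw [if_neg hk, zero_mul]
  | cast i =>
    induction j using Fin.lastCases with
    | last =>
      simp only [embM_cl, mul_zero, Finset.sum_const_zero, embM_ll, Br_cl, mul_one, add_zero]
      exact hg.2 _ _ (Fin.castSucc_lt_last i)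
    | cast j =>
      simp only [embM_cc, embM_lc, mul_zero, add_zero, Br_cc]
      rw [← Matrix.mul_apply, Matrix.one_mul]
      rfl

/-- PROOF.  A lower unitriangular `g` is `lrow r' * emb g'`, `r' = r g'⁻¹`; and `F (Z * emb g') = F Z`.  So by `blk_dense` `F` is determined by
`r ↦ F (lrow r)`. -/
theorem br_det (c : Fin (m + 1) → ℕ) (lam : Fin (m + 1) → ℕ) (ν : Fin m → ℕ)
    (F : nabS c K lam) (hF : F ∈ (nabR c K lam).hs ν)
    (h : ∀ r : Fin m → K, F.1 (lrow c r) = 0) : F = 0 := by
  have hinv : ∀ (g' : Blk (fun i => c i.castSucc) K), IsLo g' → ∀ Z, F.1 (Z * emb c K g') = F.1 Z := by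
    intro g' hg' Z
    have h1 := hF.2 g' hg'
    exact congrFun (congrArg Subtype.val h1) Z
  apply Subtype.ext
  funext Z
  show F.1 Z = 0
  apply blk_dense c F.1 F.2.1
  intro u g t hu hg
  obtain ⟨r, g', hg', rfl⟩ := Br_split c g hg
  rw [mul_assoc, F.2.2.1 _ _ hu, F.2.2.2, hinv g' hg', h, mul_zero]

omit [Infinite K] in
/-- `lrow r * emb (dg t) = emb (dg t) * lrow (r t)` -/
theorem Br_lrow_dg (c : Fin (m + 1) → ℕ) (r t : Fin m → K) :
    lrow c r * emb c K (dg _ t) = emb c K (dg _ t) * lrow c (fun i => r i * t i) := by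
  apply Subtype.ext
  show (lrow c r).1 * embM (Matrix.diagonal t) =
    embM (Matrix.diagonal t) * (lrow c (fun i => r i * t i)).1
  ext i j
  rw [Matrix.mul_apply, Matrix.mul_apply, Fin.sum_univ_castSucc, Fin.sum_univ_castSucc]
  induction i using Fin.lastCases with
  | last =>
    induction j using Fin.lastCases with
    | last => simp [Br_ll, Br_cl]
    | cast j =>
      simp only [embM_cc, embM_lc, embM_ll, Br_lc, mul_zero, add_zero, zero_mul,
        Finset.sum_const_zero, zero_add, one_mul]
      rw [Finset.sum_eq_single j]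
      · rw [Matrix.diagonal_apply_eq]
        split_ifs <;> simp
      · intro k _ hk
        rw [Matrix.diagonal_apply_ne _ hk, mul_zero]
      · intro hj
        exact absurd (Finset.mem_univ j) hj
  | cast i =>
    induction j using Fin.lastCases with
    | last => simp [Br_cl]
    | cast j =>
      simp only [embM_cc, embM_lc, embM_cl, Br_cc, mul_zero, add_zero, zero_mul]
      rw [← Matrix.mul_apply, ← Matrix.mul_apply, Matrix.one_mul, Matrix.mul_one]

/-- `lrow r * emb (dg t) = emb (dg t) * lrow (r t)` -/
theorem lrow_dg (c : Fin (m + 1) → ℕ) (r t : Fin m → K) :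
    lrow c r * emb c K (dg _ t) = emb c K (dg _ t) * lrow c (fun i => r i * t i) :=
  Br_lrow_dg c r t

theorem Br_key (c : Fin (m + 1) → ℕ) (lam : Fin (m + 1) → ℕ) (ν : Fin m → ℕ)
    (F : nabS c K lam) (hF : F ∈ (nabR c K lam).hs ν) (r t : Fin m → K) :
    tw t (fun i => lam i.castSucc) * F.1 (lrow c (fun i => r i * t i)) =
      tw t ν * F.1 (lrow c r) := by
  have h1 : F.1 (lrow c r * emb c K (dg _ t)) = tw t ν * F.1 (lrow c r) :=
    congrFun (congrArg Subtype.val (hF.1 t)) (lrow c r)
  rw [lrow_dg, Br_emb_dg, F.2.2.2, Br_tw] at h1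
  exact h1

theorem Br_poly (c : Fin (m + 1) → ℕ) (lam : Fin (m + 1) → ℕ) (F : nabS c K lam) :
    (fun r : Fin m → K => F.1 (lrow c r)) ∈ PolyFn (fun y : Fin m → K => y) := by
  apply comp_mem (crd c K) (fun y : Fin m → K => y) (fun r => lrow c r) _ F.1 F.2.1
  rintro ⟨i, j⟩
  show (fun r : Fin m → K => (lrow c r).1 i j) ∈ _
  induction i using Fin.lastCases with
  | last =>
    induction j using Fin.lastCases with
    | last =>
      simp only [Br_ll]
      exact const_mem _ 1
    | cast j =>
      simp only [Br_lc]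
      by_cases hj : c (Fin.last m) = c j.castSucc
      · simp only [if_pos hj]
        exact coord_mem (fun y : Fin m → K => y) j
      · simp only [if_neg hj]
        exact const_mem _ 0
  | cast i =>
    induction j using Fin.lastCases with
    | last =>
      simp only [Br_cl]
      exact const_mem _ 0
    | cast j =>
      simp only [Br_cc]
      exact const_mem _ _

omit [Infinite K] in
theorem Br_tw_poly (κ : Fin m → ℕ) :
    (fun t : Fin m → K => tw t κ) ∈ PolyFn (fun y : Fin m → K => y) := by
  have h : (fun t : Fin m → K => tw t κ) = ∏ i, (fun t : Fin m → K => t i) ^ κ i := by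
    funext t
    rw [Finset.prod_apply]
    rfl
  rw [h]
  exact Subalgebra.prod_mem _ fun i _ =>
    Subalgebra.pow_mem _ (coord_mem (fun y : Fin m → K => y) i) _

/-- PROOF.  `φ(r) = F (lrow r)` is a polynomial function with `t^(λ') φ(r t) = t^ν φ(r)` (`lrow_dg`; `emb (dg t) = dg (t, 1)`, `λ' = λ ∘ castSucc`).
With `r = 1`: `t^(λ') φ(t) = t^ν φ(1)` (`φ` a polynomial): if `φ(1) ≠ 0` then `λ' i ≤ ν i` for all `i`
(put `t i = 0`, the others `1`), and `φ(t) = t^(ν - λ') φ(1)` for all `t`
(cancel `t^(λ')`, density); if `φ(1) = 0` then `φ(t) = 0` for all `t` with nonzero entries, hence `φ = 0`.  So `φ` is determined by `φ(1)`. -/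
theorem br_one (c : Fin (m + 1) → ℕ) (lam : Fin (m + 1) → ℕ) (ν : Fin m → ℕ)
    (F : nabS c K lam) (hF : F ∈ (nabR c K lam).hs ν)
    (h : F.1 (lrow c (fun _ => 1)) = 0) : F = 0 := by
  apply br_det c lam ν F hF
  intro r
  refine poly_mul_zero (fun r : Fin m → K => F.1 (lrow c r))
    (fun t : Fin m → K => tw t fun i => lam i.castSucc) (Br_poly c lam F) (Br_tw_poly _) ?_ ?_ r
  · intro t
    have h1 := Br_key c lam ν F hF (fun _ => 1) t
    simp only [one_mul] at h1
    rw [mul_comm, h1, h, mul_zero]
  · refine ⟨fun _ => 1, ?_⟩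
    simp [tw]

/-- from `br_one` -/
theorem br_le (c : Fin (m + 1) → ℕ) (lam : Fin (m + 1) → ℕ) (ν : Fin m → ℕ) :
    Module.finrank K ((nabR c K lam).hs ν) ≤ 1 := by
  let L : (nabR c K lam).hs ν →ₗ[K] K :=
    { toFun := fun F => (F.1 : nabS c K lam).1 (lrow c (fun _ => 1))
      map_add' := fun _ _ => rfl
      map_smul' := fun _ _ => rfl }
  have hL : Function.Injective L := by
    rw [← LinearMap.ker_eq_bot, LinearMap.ker_eq_bot']
    intro F hF0
    apply Subtype.ext
    exact br_one c lam ν F.1 F.2 hF0
  have h1 := LinearMap.finrank_le_finrank_of_injective hL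
  rwa [Module.finrank_self] at h1

omit [Infinite K] in
theorem Br_tw_update (κ : Fin m → ℕ) (i : Fin m) (s : K) :
    tw (Function.update (fun _ => (1 : K)) i s) κ = s ^ κ i := by
  unfold tw
  rw [Finset.prod_eq_single i]
  · rw [Function.update_self]
  · intro j _ hj
    rw [Function.update_of_ne hj, one_pow]
  · intro hi
    exact absurd (Finset.mem_univ i) hi

omit [Infinite K] in
theorem Br_evalP (i : Fin m) (s : K) (q : MvPolynomial (Fin m) K) :
    Polynomial.eval s (MvPolynomial.aeval
      (fun j : Fin m => if j = i then (Polynomial.X : Polynomial K) else 1) q) =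
    MvPolynomial.eval (Function.update (fun _ => (1 : K)) i s) q := by
  induction q using MvPolynomial.induction_on with
  | C a => simp
  | add p q hp hq => simp only [map_add, Polynomial.eval_add, hp, hq]
  | mul_X p j hp =>
    simp only [map_mul, Polynomial.eval_mul, hp, MvPolynomial.aeval_X, MvPolynomial.eval_X]
    congr 1
    simp only [Function.update_apply]
    split_ifs <;> simp

/-- PROOF.  See `br_one`: `t^(λ') φ(t) = t^ν φ(1)`, `φ(1) ≠ 0`.  Put `t i = 0`, the others `1`: if `λ' i > 0` then `ν i > 0`...; more precisely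
`t i = s`, the others `1`: `s^(λ' i) p(s) = s^(ν i) φ(1)` with a polynomial `p`, so `λ' i ≤ ν i`.
If `c i.castSucc ≠ c last` then `lrow r` does not depend on `r i`, so `p(s) = φ(1)` and `λ' i = ν i`. -/
theorem br_low (c : Fin (m + 1) → ℕ) (lam : Fin (m + 1) → ℕ) (ν : Fin m → ℕ)
    (F : nabS c K lam) (hF : F ∈ (nabR c K lam).hs ν) (h0 : F.1 (lrow c (fun _ => 1)) ≠ 0)
    (i : Fin m) : lam i.castSucc ≤ ν i ∧ (c i.castSucc ≠ c (Fin.last m) → ν i = lam i.castSucc) := by
  have hkey : ∀ s : K, s ^ lam i.castSucc *
      F.1 (lrow c (Function.update (fun _ => (1 : K)) i s)) =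
      s ^ ν i * F.1 (lrow c (fun _ => 1)) := by
    intro s
    have h1 := Br_key c lam ν F hF (fun _ => 1) (Function.update (fun _ => (1 : K)) i s)
    rw [Br_tw_update, Br_tw_update] at h1
    simp only [one_mul] at h1
    exact h1
  constructor
  · by_contra hlt
    push Not at hlt
    obtain ⟨q, hq⟩ := (mem_PolyFn _ _).1 (Br_poly c lam F)
    let P : Polynomial K := MvPolynomial.aeval
      (fun j : Fin m => if j = i then (Polynomial.X : Polynomial K) else 1) q
    have hP : ∀ s : K, P.eval s =
        F.1 (lrow c (Function.update (fun _ => (1 : K)) i s)) := by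
      intro s
      rw [hq]
      exact Br_evalP i s q
    have hpoly : Polynomial.X ^ lam i.castSucc * P =
        Polynomial.X ^ ν i * Polynomial.C (F.1 (lrow c (fun _ => 1))) := by
      apply Polynomial.funext
      intro s
      simp only [Polynomial.eval_mul, Polynomial.eval_pow, Polynomial.eval_X, Polynomial.eval_C]
      rw [hP]
      exact hkey s
    have h2 := congrArg (fun p => Polynomial.coeff p (ν i)) hpoly
    simp only [Polynomial.coeff_X_pow_mul', if_neg (not_le.2 hlt), le_refl, if_true, Nat.sub_self,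
      Polynomial.coeff_C_zero] at h2
    exact h0 h2.symm
  · intro hc
    have hconst : ∀ s : K, lrow c (Function.update (fun _ => (1 : K)) i s) =
        lrow c (fun _ => 1) := by
      intro s
      apply Subtype.ext
      ext a b
      induction a using Fin.lastCases with
      | last =>
        induction b using Fin.lastCases with
        | last => rw [Br_ll, Br_ll]
        | cast b =>
          rw [Br_lc, Br_lc]
          by_cases hb : b = i
          · subst hb
            rw [if_neg hc.symm, if_neg hc.symm]
          · rw [Function.update_of_ne hb]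
      | cast a =>
        induction b using Fin.lastCases with
        | last => rw [Br_cl, Br_cl]
        | cast b => rw [Br_cc, Br_cc]
    have hpoly : Polynomial.X ^ lam i.castSucc * Polynomial.C (F.1 (lrow c (fun _ => 1))) =
        Polynomial.X ^ ν i * Polynomial.C (F.1 (lrow c (fun _ => 1))) := by
      apply Polynomial.funext
      intro s
      simp only [Polynomial.eval_mul, Polynomial.eval_pow, Polynomial.eval_X, Polynomial.eval_C]
      have h1 := hkey s
      rw [hconst] at h1
      exact h1
    have h2 := congrArg (fun p => Polynomial.coeff p (ν i)) hpoly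
    simp only [Polynomial.coeff_mul_C, Polynomial.coeff_X_pow, if_true, one_mul] at h2
    by_contra hne
    rw [if_neg hne, zero_mul] at h2
    exact h0 h2.symm

end Pool.PI34.A5
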