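import Pool.Agent.LibPI34.A5_Br

/-! PI34, block A5, file Br1: branching, the upper bounds. -/

set_option autoImplicit false

namespace Pool.PI34.A5

open Finset Matrix

variable {m : ℕ} {K : Type} [Field K] [Infinite K]

section entries

variable {K : Type} [Field K] {m : ℕ}

theorem Br1_dg_mul {n : ℕ} (c : Fin n → ℕ) (t : Fin n → K) (M : Blk c K) (a b : Fin n) :
    (dg c t * M).1 a b = t a * M.1 a b := by
  change (Matrix.diagonal t * M.1) a b = _
  rw [Matrix.diagonal_mul]

theorem Br1_el_mul {n : ℕ} (c : Fin n → ℕ) (i j : Fin n) (h : c i = c j) (x : K) (M : Blk c K)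
    (a b : Fin n) : (el c i j h x * M).1 a b = M.1 a b + if a = i then x * M.1 j b else 0 := by
  change ((1 + Matrix.single i j x) * M.1) a b = _
  rw [Matrix.add_mul, Matrix.add_apply, Matrix.one_mul]
  congr 1
  by_cases ha : a = i
  · subst ha
    rw [if_pos rfl, Matrix.single_mul_apply_same]
  · rw [if_neg ha, Matrix.single_mul_apply_of_ne _ _ _ _ _ ha]

theorem Br1_mul_el {n : ℕ} (c : Fin n → ℕ) (i j : Fin n) (h : c i = c j) (x : K) (M : Blk c K)
    (a b : Fin n) : (M * el c i j h x).1 a b = M.1 a b + if b = j then M.1 a i * x else 0 := by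
  change (M.1 * (1 + Matrix.single i j x)) a b = _
  rw [Matrix.mul_add, Matrix.add_apply, Matrix.mul_one]
  congr 1
  by_cases hb : b = j
  · subst hb
    rw [if_pos rfl, Matrix.mul_single_apply_same]
  · rw [if_neg hb, Matrix.mul_single_apply_of_ne _ _ _ _ _ hb]

theorem Br1_emb_el (c : Fin (m + 1) → ℕ) (i j : Fin m) (h : c i.castSucc = c j.castSucc) (x : K) :
    emb c K (el (fun a => c a.castSucc) i j h x) = el c i.castSucc j.castSucc h x := by
  refine Subtype.ext (Matrix.ext fun a b => ?_)
  change embM ((1 : Matrix (Fin m) (Fin m) K) + Matrix.single i j x) a b =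
    ((1 : Matrix (Fin (m + 1)) (Fin (m + 1)) K) + Matrix.single i.castSucc j.castSucc x) a b
  rw [Matrix.add_apply]
  induction a using Fin.lastCases with
  | last =>
    rw [Matrix.single_apply_of_row_ne (by exact (Fin.castSucc_lt_last i).ne)]
    induction b using Fin.lastCases with
    | last => simp
    | cast b => simp [Matrix.one_apply, (Fin.castSucc_lt_last b).ne']
  | cast a =>
    induction b using Fin.lastCases with
    | last =>
      rw [Matrix.single_apply_of_col_ne (hj := (Fin.castSucc_lt_last j).ne)]
      simp [Matrix.one_apply, (Fin.castSucc_lt_last a).ne]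
    | cast b =>
      rw [embM_cc, Matrix.add_apply]
      simp [Matrix.one_apply, Matrix.single_apply, Fin.castSucc_inj]

theorem Br1_emb_dg (c : Fin (m + 1) → ℕ) (t : Fin m → K) :
    emb c K (dg (fun a => c a.castSucc) t) = dg c (Fin.snoc (α := fun _ => K) t 1) := by
  refine Subtype.ext (Matrix.ext fun a b => ?_)
  change embM (Matrix.diagonal t) a b = Matrix.diagonal (Fin.snoc (α := fun _ => K) t 1) a b
  induction a using Fin.lastCases with
  | last =>
    induction b using Fin.lastCases with
    | last => simp
    | cast b => simp [Matrix.diagonal_apply, (Fin.castSucc_lt_last b).ne']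
  | cast a =>
    induction b using Fin.lastCases with
    | last => simp [Matrix.diagonal_apply, (Fin.castSucc_lt_last a).ne]
    | cast b => simp [Matrix.diagonal_apply, Fin.castSucc_inj]

theorem Br1_lrow_ll (c : Fin (m + 1) → ℕ) (r : Fin m → K) :
    (lrow c r).1 (Fin.last m) (Fin.last m) = 1 := by
  simp [lrow, bpr]

theorem Br1_lrow_lc (c : Fin (m + 1) → ℕ) (r : Fin m → K) (b : Fin m) :
    (lrow c r).1 (Fin.last m) b.castSucc = if c (Fin.last m) = c b.castSucc then r b else 0 := by
  simp [lrow, bpr]

theorem Br1_lrow_cc (c : Fin (m + 1) → ℕ) (r : Fin m → K) (a : Fin m) (b : Fin (m + 1)) :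
    (lrow c r).1 a.castSucc b = if a.castSucc = b then 1 else 0 := by
  by_cases h : a.castSucc = b
  · subst h
    simp [lrow, bpr]
  · rw [if_neg h]
    simp [lrow, bpr, Matrix.one_apply, h]

theorem Br1_tw_upd {n : ℕ} (i : Fin n) (x : K) (κ : Fin n → ℕ) :
    tw (Function.update (1 : Fin n → K) i x) κ = x ^ κ i := by
  unfold tw
  rw [Finset.prod_eq_single i]
  · rw [Function.update_self]
  · intro b _ hb
    rw [Function.update_of_ne hb, Pi.one_apply, one_pow]
  · intro h
    exact absurd (Finset.mem_univ i) h

theorem Br1_tw_upd2 {n : ℕ} (i j : Fin n) (hij : i ≠ j) (x y : K) (κ : Fin n → ℕ) :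
    tw (Function.update (Function.update (1 : Fin n → K) i x) j y) κ = y ^ κ j * x ^ κ i := by
  have h1 : Function.update (Function.update (1 : Fin n → K) i x) j y =
      fun a => Function.update (1 : Fin n → K) i x a * Function.update (1 : Fin n → K) j y a := by
    funext a
    by_cases ha : a = j
    · subst ha
      rw [Function.update_self, Function.update_self, Function.update_of_ne hij.symm,
        Pi.one_apply, one_mul]
    · rw [Function.update_of_ne ha, Function.update_of_ne ha, Pi.one_apply, mul_one]
  have h2 : tw (Function.update (Function.update (1 : Fin n → K) i x) j y) κ =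
      tw (Function.update (1 : Fin n → K) i x) κ * tw (Function.update (1 : Fin n → K) j y) κ := by
    rw [h1]
    unfold tw
    rw [← Finset.prod_mul_distrib]
    exact Finset.prod_congr rfl fun a _ => mul_pow _ _ _
  rw [h2, Br1_tw_upd, Br1_tw_upd, mul_comm]

theorem Br1_eval (p : MvPolynomial (Fin 1) K) (d : K) :
    (MvPolynomial.aeval (fun _ => (Polynomial.X : Polynomial K)) p).eval d =
      MvPolynomial.eval (fun _ => d) p := by
  induction p using MvPolynomial.induction_on with
  | C a => simp
  | add p q hp hq => simp [hp, hq]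
  | mul_X p i hp => simp [hp]

theorem Br1_poly {n : ℕ} (c : Fin n → ℕ) (G : Blk c K → K) (hG : G ∈ PolyFn (crd c K))
    (Zf : K → Blk c K) (hZ : ∀ ab, (fun d : Fin 1 → K => crd c K (Zf (d 0)) ab) ∈
      PolyFn (fun x : Fin 1 → K => x)) : ∃ p : Polynomial K, ∀ d, p.eval d = G (Zf d) := by
  have h1 := comp_mem (crd c K) (fun x : Fin 1 → K => x) (fun d => Zf (d 0)) hZ G hG
  obtain ⟨p, hp⟩ := (mem_PolyFn _ _).1 h1
  refine ⟨MvPolynomial.aeval (fun _ => (Polynomial.X : Polynomial K)) p, fun d => ?_⟩
  rw [Br1_eval]
  exact (hp (fun _ => d)).symm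

end entries

theorem Br1_final (p : Polynomial K) (a b : ℕ) (x : K) (hx : x ≠ 0)
    (h : ∀ d : K, d ≠ 0 → p.eval d = d ^ a * (d⁻¹ ^ b * x)) : b ≤ a := by
  by_contra hab
  have h1 := laurent_zero p (Polynomial.C x) (b - a) (by omega) (fun d hd => by
    rw [h d hd, Polynomial.eval_C, ← mul_assoc, ← pow_add, Nat.sub_add_cancel (by omega),
      ← mul_assoc, ← mul_pow, mul_inv_cancel₀ hd, one_pow, one_mul])
  exact hx (Polynomial.C_eq_zero.1 h1)

theorem Br1_lo (c : Fin (m + 1) → ℕ) (lam : Fin (m + 1) → ℕ) (ν : Fin m → ℕ)
    (F : nabS c K lam) (hF : F ∈ (nabR c K lam).hs ν) (g : Blk (fun a => c a.castSucc) K)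
    (hg : IsLo g) (Z : Blk c K) : F.1 (Z * emb c K g) = F.1 Z :=
  congrFun (congrArg Subtype.val (hF.2 g hg)) Z

theorem Br1_wt (c : Fin (m + 1) → ℕ) (lam : Fin (m + 1) → ℕ) (ν : Fin m → ℕ)
    (F : nabS c K lam) (hF : F ∈ (nabR c K lam).hs ν) (t : Fin m → K) (Z : Blk c K) :
    F.1 (Z * emb c K (dg _ t)) = tw t ν * F.1 Z :=
  congrFun (congrArg Subtype.val (hF.1 t)) Z

/-- the weight relation -/
theorem Br1_rel (c : Fin (m + 1) → ℕ) (lam : Fin (m + 1) → ℕ) (ν : Fin m → ℕ)
    (F : nabS c K lam) (hF : F ∈ (nabR c K lam).hs ν) (i : Fin m) (x : K) :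
    x ^ lam i.castSucc * F.1 (lrow c (Function.update (1 : Fin m → K) i x)) =
      x ^ ν i * F.1 (lrow c (fun _ => 1)) := by
  have h1 := Br1_wt c lam ν F hF (Function.update 1 i x) (lrow c (fun _ => 1))
  rw [lrow_dg, Br1_emb_dg, F.2.2.2, Br1_tw_upd] at h1
  have h2 : (Fin.snoc (α := fun _ => K) (Function.update (1 : Fin m → K) i x) 1 :
      Fin (m + 1) → K) = Function.update (1 : Fin (m + 1) → K) i.castSucc x := by
    funext a
    induction a using Fin.lastCases with
    | last =>
      rw [Fin.snoc_last, Function.update_of_ne (Fin.castSucc_lt_last i).ne', Pi.one_apply]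
    | cast a =>
      rw [Fin.snoc_castSucc]
      by_cases ha : a = i
      · subst ha
        rw [Function.update_self, Function.update_self]
      · rw [Function.update_of_ne ha, Function.update_of_ne (fun h => ha
          (Fin.castSucc_injective _ h)), Pi.one_apply, Pi.one_apply]
  rw [h2, Br1_tw_upd] at h1
  have h3 : (fun a => (fun _ => (1 : K)) a * Function.update (1 : Fin m → K) i x a) =
      Function.update (1 : Fin m → K) i x := by
    funext a
    rw [one_mul]
  rw [h3] at h1
  exact h1

/-- PROOF.  `i < j < last` of the color of `last`.  Let `Z_d = [1, 0; r, 1] * ...` be the identity with the block `[[0,1],[-1,d]]` at `(i, j)` and the last row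
`r j' = 1` for `j' ≠ i` in the class, `r i = 0`, last entry `1`.  Then for `d ≠ 0`
`Z_d = el i j (1/d) * dg (.., 1/d at i, d at j, ..) * lrow (r') * emb (el j i (-1/d))` with `r' i = 1/d`, `r' j' = 1` for the others.  So
`F(Z_d) = d^(λ j - λ i) φ(r')`, and `φ(r') = d^(-(ν i - λ i)) φ(1)` by `t^(λ') φ(r t) = t^ν φ(r)`, so `F(Z_d) = d^(λ j) d^(-ν i) φ(1)`; the left side is
polynomial in `d` and `φ(1) ≠ 0`, so `ν i ≤ λ j` (`laurent_zero` with `a` constant and `e = ν i - λ j`). -/
theorem br_up1 (c : Fin (m + 1) → ℕ) (lam : Fin (m + 1) → ℕ) (ν : Fin m → ℕ)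
    (F : nabS c K lam) (hF : F ∈ (nabR c K lam).hs ν) (h0 : F.1 (lrow c (fun _ => 1)) ≠ 0)
    (i j : Fin m) (hij : i < j) (hi : c i.castSucc = c (Fin.last m))
    (hj : c j.castSucc = c (Fin.last m)) : ν i ≤ lam j.castSucc := by
  have hne : i.castSucc ≠ j.castSucc := fun h => hij.ne (Fin.castSucc_injective _ h)
  have hcij : c i.castSucc = c j.castSucc := hi.trans hj.symm
  let Zf : K → Blk c K := fun d => bpr c (Matrix.of fun a b =>
    if a = i.castSucc then (if b = j.castSucc then 1 else 0)
    else if a = j.castSucc then (if b = i.castSucc then -1 else if b = j.castSucc then d else 0)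
    else if a = Fin.last m then (if b = i.castSucc then 0 else 1)
    else if a = b then 1 else 0)
  have hpoly : ∀ ab, (fun d : Fin 1 → K => crd c K (Zf (d 0)) ab) ∈
      PolyFn (fun x : Fin 1 → K => x) := by
    rintro ⟨a, b⟩
    change (fun d : Fin 1 → K => if c a = c b then
      (if a = i.castSucc then (if b = j.castSucc then 1 else 0)
      else if a = j.castSucc then (if b = i.castSucc then -1
        else if b = j.castSucc then d 0 else 0)
      else if a = Fin.last m then (if b = i.castSucc then 0 else 1)
      else if a = b then 1 else 0) else 0) ∈ _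
    split_ifs
    all_goals first
      | exact const_mem _ _
      | exact coord_mem (fun x : Fin 1 → K => x) 0
  obtain ⟨p, hp⟩ := Br1_poly c F.1 F.2.1 Zf hpoly
  have hZ : ∀ d : K, d ≠ 0 → Zf d = el c i.castSucc j.castSucc hcij d⁻¹ *
      (dg c (Function.update (Function.update (1 : Fin (m + 1) → K) i.castSucc d⁻¹) j.castSucc d) *
      (lrow c (Function.update (1 : Fin m → K) i d⁻¹) *
        emb c K (el (fun a => c a.castSucc) j i hcij.symm (-d⁻¹)))) := by
    intro d hd
    refine Subtype.ext (Matrix.ext fun a b => ?_)
    rw [Br1_el_mul, Br1_dg_mul, Br1_dg_mul, Br1_emb_el, Br1_mul_el, Br1_mul_el]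
    change (if c a = c b then (if a = i.castSucc then (if b = j.castSucc then 1 else 0)
      else if a = j.castSucc then (if b = i.castSucc then -1 else if b = j.castSucc then d else 0)
      else if a = Fin.last m then (if b = i.castSucc then 0 else 1)
      else if a = b then 1 else 0) else 0) = _
    have hil : Fin.last m ≠ i.castSucc := (Fin.castSucc_lt_last i).ne'
    have hjl : Fin.last m ≠ j.castSucc := (Fin.castSucc_lt_last j).ne'
    induction a using Fin.lastCases with
    | last =>
      rw [if_neg hil, if_neg hjl, if_pos rfl, if_neg hil, Function.update_of_ne hjl,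
        Function.update_of_ne hil, Pi.one_apply, one_mul, add_zero]
      induction b using Fin.lastCases with
      | last => rw [if_pos rfl, if_neg hil, if_neg hil, Br1_lrow_ll, add_zero]
      | cast b =>
        rw [Br1_lrow_lc, Br1_lrow_lc, if_pos hj.symm, Function.update_of_ne hij.ne']
        by_cases hb : b = i
        · subst hb
          simp only [if_pos hi.symm, if_true, Function.update_self, Pi.one_apply, if_pos rfl]
          ring
        · have hb' : b.castSucc ≠ i.castSucc := fun h => hb (Fin.castSucc_injective _ h)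
          rw [if_neg hb', if_neg hb', Function.update_of_ne hb, Pi.one_apply, add_zero]
    | cast a =>
      rw [Br1_lrow_cc, Br1_lrow_cc, Br1_lrow_cc, Br1_lrow_cc, if_neg (Fin.castSucc_lt_last a).ne]
      by_cases ha : a = i
      · subst ha
        rw [if_pos rfl, if_pos rfl, Function.update_of_ne hne, Function.update_self,
          Function.update_self, if_neg hne, if_pos rfl]
        by_cases hb1 : b = a.castSucc
        · subst hb1
          simp only [if_true, if_neg hne, if_neg hne.symm]
          have hdd : d * d⁻¹ = 1 := mul_inv_cancel₀ hd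
          linear_combination d⁻¹ * hdd
        · by_cases hb2 : b = j.castSucc
          · subst hb2
            simp only [if_pos hcij, if_true, if_neg hne, if_neg hb1]
            have hdd : d * d⁻¹ = 1 := mul_inv_cancel₀ hd
            linear_combination -hdd
          · rw [if_neg hb2, if_neg (Ne.symm hb1), if_neg hb1, if_neg (Ne.symm hb2), if_neg hb1,
              ite_self]
            ring
      · have ha' : a.castSucc ≠ i.castSucc := fun h => ha (Fin.castSucc_injective _ h)
        rw [if_neg ha', if_neg ha', add_zero]
        by_cases ha2 : a = j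
        · subst ha2
          rw [if_pos rfl, Function.update_self, if_pos rfl]
          by_cases hb1 : b = i.castSucc
          · subst hb1
            rw [if_pos hcij.symm, if_pos rfl, if_neg hne.symm, if_pos rfl]
            field_simp
            ring
          · by_cases hb2 : b = a.castSucc
            · subst hb2
              rw [if_pos rfl, if_neg hb1, if_pos rfl, if_pos rfl, if_neg hb1]
              ring
            · rw [if_neg hb1, if_neg hb2, if_neg (Ne.symm hb2), if_neg hb1, ite_self]
              ring
        · have ha3 : a.castSucc ≠ j.castSucc := fun h => ha2 (Fin.castSucc_injective _ h)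
          rw [if_neg ha3, Function.update_of_ne ha3, Function.update_of_ne ha', Pi.one_apply,
            one_mul, if_neg ha3, zero_mul, ite_self, add_zero]
          by_cases hb : a.castSucc = b
          · rw [if_pos hb, if_pos (by rw [hb])]
          · rw [if_neg hb, ite_self]
  refine Br1_final p (lam j.castSucc) (ν i) _ h0 fun d hd => ?_
  have hup : IsUp (el c i.castSucc j.castSucc hcij d⁻¹) := by
    constructor
    · intro a
      change (1 + Matrix.single i.castSucc j.castSucc d⁻¹ : Matrix _ _ K) a a = 1
      rw [Matrix.add_apply, Matrix.one_apply_eq, Matrix.single_apply_of_ne, add_zero]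
      rintro ⟨h1, h2⟩
      exact hne (h1.trans h2.symm)
    · intro a b hba
      change (1 + Matrix.single i.castSucc j.castSucc d⁻¹ : Matrix _ _ K) a b = 0
      rw [Matrix.add_apply, Matrix.one_apply_ne hba.ne', Matrix.single_apply_of_ne, add_zero]
      rintro ⟨h1, h2⟩
      rw [← h1, ← h2] at hba
      exact absurd hba (not_lt.2 (Fin.castSucc_le_castSucc_iff.2 hij.le))
  have hlo : IsLo (el (fun a : Fin m => c a.castSucc) j i hcij.symm (-d⁻¹)) := by
    constructor
    · intro a
      change (1 + Matrix.single j i (-d⁻¹) : Matrix _ _ K) a a = 1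
      rw [Matrix.add_apply, Matrix.one_apply_eq, Matrix.single_apply_of_ne, add_zero]
      rintro ⟨h1, h2⟩
      exact hij.ne (h2.trans h1.symm)
    · intro a b hab
      change (1 + Matrix.single j i (-d⁻¹) : Matrix _ _ K) a b = 0
      rw [Matrix.add_apply, Matrix.one_apply_ne hab.ne, Matrix.single_apply_of_ne, add_zero]
      rintro ⟨h1, h2⟩
      rw [← h1, ← h2] at hab
      exact absurd hab (not_lt.2 hij.le)
  rw [hp d, hZ d hd, F.2.2.1 _ _ hup, F.2.2.2, Br1_lo c lam ν F hF _ hlo,
    Br1_tw_upd2 _ _ hne, mul_assoc, Br1_rel c lam ν F hF i d⁻¹]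

/-- PROOF.  `j = last`.  `Z_d` := the identity matrix with the row `i` replaced by `(-1` at the `j' ≠ i`, `j' < last` in the class, `0` at `i`, `-1` at
`last)` and the row `last` replaced by `(d` at the `j' ≠ i` in the class, `1` at `i`, `d` at `last)`.  For `d ≠ 0`:
`Z_d = el i last (-1/d) * dg (.., 1/d at i, d at last) * lrow r'`, `r' i = 1/d`, `r' j' = 1` for the others.  So
`F(Z_d) = d^(λ last - λ i) φ(r') = d^(λ last - ν i) φ(1)`, hence `ν i ≤ λ last`. -/
theorem br_up2 (c : Fin (m + 1) → ℕ) (lam : Fin (m + 1) → ℕ) (ν : Fin m → ℕ)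
    (F : nabS c K lam) (hF : F ∈ (nabR c K lam).hs ν) (h0 : F.1 (lrow c (fun _ => 1)) ≠ 0)
    (i : Fin m) (hi : c i.castSucc = c (Fin.last m)) : ν i ≤ lam (Fin.last m) := by
  have hil : i.castSucc ≠ Fin.last m := (Fin.castSucc_lt_last i).ne
  let Zf : K → Blk c K := fun d => bpr c (Matrix.of fun a b =>
    if a = i.castSucc then (if b = i.castSucc then 0 else -1)
    else if a = Fin.last m then (if b = i.castSucc then 1 else d)
    else if a = b then 1 else 0)
  have hpoly : ∀ ab, (fun d : Fin 1 → K => crd c K (Zf (d 0)) ab) ∈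
      PolyFn (fun x : Fin 1 → K => x) := by
    rintro ⟨a, b⟩
    change (fun d : Fin 1 → K => if c a = c b then
      (if a = i.castSucc then (if b = i.castSucc then 0 else -1)
      else if a = Fin.last m then (if b = i.castSucc then 1 else d 0)
      else if a = b then 1 else 0) else 0) ∈ _
    split_ifs
    all_goals first
      | exact const_mem _ _
      | exact coord_mem (fun x : Fin 1 → K => x) 0
  obtain ⟨p, hp⟩ := Br1_poly c F.1 F.2.1 Zf hpoly
  have hZ : ∀ d : K, d ≠ 0 → Zf d = el c i.castSucc (Fin.last m) hi (-d⁻¹) *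
      (dg c (Function.update (Function.update (1 : Fin (m + 1) → K) i.castSucc d⁻¹)
        (Fin.last m) d) * lrow c (Function.update (1 : Fin m → K) i d⁻¹)) := by
    intro d hd
    refine Subtype.ext (Matrix.ext fun a b => ?_)
    rw [Br1_el_mul, Br1_dg_mul, Br1_dg_mul]
    change (if c a = c b then (if a = i.castSucc then (if b = i.castSucc then 0 else -1)
      else if a = Fin.last m then (if b = i.castSucc then 1 else d)
      else if a = b then 1 else 0) else 0) = _
    induction a using Fin.lastCases with
    | last =>
      rw [if_neg hil.symm, if_pos rfl, if_neg hil.symm, add_zero, Function.update_self]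
      induction b using Fin.lastCases with
      | last => rw [if_pos rfl, if_neg hil.symm, Br1_lrow_ll, mul_one]
      | cast b =>
        rw [Br1_lrow_lc]
        by_cases hb : b = i
        · subst hb
          rw [if_pos hi.symm, if_pos rfl, if_pos hi.symm, Function.update_self,
            mul_inv_cancel₀ hd]
        · have hb' : b.castSucc ≠ i.castSucc := fun h => hb (Fin.castSucc_injective _ h)
          rw [if_neg hb', Function.update_of_ne hb, Pi.one_apply]
          split_ifs <;> simp
    | cast a =>
      rw [Br1_lrow_cc, if_neg (Fin.castSucc_lt_last a).ne,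
        Function.update_of_ne (Fin.castSucc_lt_last a).ne]
      by_cases ha : a = i
      · subst ha
        rw [if_pos rfl, if_pos rfl, Function.update_self, Function.update_self]
        induction b using Fin.lastCases with
        | last =>
          rw [if_pos hi, if_neg hil.symm, if_neg hil, Br1_lrow_ll]
          field_simp
          ring
        | cast b =>
          rw [Br1_lrow_lc]
          by_cases hb : b = a
          · subst hb
            rw [if_pos rfl, if_pos rfl, if_pos rfl, if_pos hi.symm, Function.update_self]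
            field_simp
            ring
          · have hb' : b.castSucc ≠ a.castSucc := fun h => hb (Fin.castSucc_injective _ h)
            rw [if_neg hb', if_neg (Ne.symm hb'), Function.update_of_ne hb, Pi.one_apply, hi]
            split_ifs
            · field_simp
              ring
            · ring
      · have ha' : a.castSucc ≠ i.castSucc := fun h => ha (Fin.castSucc_injective _ h)
        rw [if_neg ha', if_neg ha', add_zero, Function.update_of_ne ha', Pi.one_apply, one_mul]
        by_cases hb : a.castSucc = b
        · rw [if_pos hb, if_pos (by rw [hb])]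
        · rw [if_neg hb, ite_self]
  refine Br1_final p (lam (Fin.last m)) (ν i) _ h0 fun d hd => ?_
  have hup : IsUp (el c i.castSucc (Fin.last m) hi (-d⁻¹)) := by
    constructor
    · intro a
      change (1 + Matrix.single i.castSucc (Fin.last m) (-d⁻¹) : Matrix _ _ K) a a = 1
      rw [Matrix.add_apply, Matrix.one_apply_eq, Matrix.single_apply_of_ne, add_zero]
      rintro ⟨h1, h2⟩
      exact hil (h1.trans h2.symm)
    · intro a b hba
      change (1 + Matrix.single i.castSucc (Fin.last m) (-d⁻¹) : Matrix _ _ K) a b = 0
      rw [Matrix.add_apply, Matrix.one_apply_ne hba.ne', Matrix.single_apply_of_ne, add_zero]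
      rintro ⟨h1, h2⟩
      rw [← h1, ← h2] at hba
      exact absurd hba (not_lt.2 (Fin.le_last _))
  rw [hp d, hZ d hd, F.2.2.1 _ _ hup, F.2.2.2, Br1_tw_upd2 _ _ hil, mul_assoc,
    Br1_rel c lam ν F hF i d⁻¹]

end Pool.PI34.A5
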