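import Pool.Agent.LibPI34.A5_Br1

/-! PI34, block A5, file Br2: dimension of `nab λ`, and T4. -/

set_option autoImplicit false

namespace Pool.PI34.A5

open Finset Matrix

variable {K : Type} [Field K] [Infinite K]

/-- from `br_one`, `br_low`, `br_up1` (`j` = successor of `i`, if it is not `last`), `br_up2`; `c` is monotone, so `i.succ` has the color of `last` -/
theorem br_zero {m : ℕ} (c : Fin (m + 1) → ℕ) (hc : Monotone c) (lam : Fin (m + 1) → ℕ)
    (ν : Fin m → ℕ) (h : ν ∉ il c lam) : (nabR c K lam).hs ν = ⊥ := by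
  by_contra hne
  obtain ⟨F, hF, hF0⟩ := (Submodule.ne_bot_iff _).1 hne
  have h0 : (show nabS c K lam from F).1 (lrow c (fun _ => 1)) ≠ 0 := fun h1 =>
    hF0 (br_one c lam ν F hF h1)
  apply h
  refine Fintype.mem_piFinset.2 fun i => ?_
  have hl := br_low c lam ν F hF h0 i
  by_cases hi : c i.castSucc = c (Fin.last m)
  · rw [if_pos hi, Finset.mem_Icc]
    refine ⟨hl.1, ?_⟩
    by_cases hs : i.succ = Fin.last m
    · rw [hs]
      exact br_up2 c lam ν F hF h0 i hi
    · obtain ⟨j, hj⟩ := Fin.exists_castSucc_eq.2 hs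
      rw [← hj]
      have hij : i < j := by
        have h1 : (j.castSucc : ℕ) = (i.succ : ℕ) := by rw [hj]
        rw [Fin.val_castSucc, Fin.val_succ] at h1
        exact Fin.lt_def.2 (by omega)
      refine br_up1 c lam ν F hF h0 i j hij hi (le_antisymm (hc (Fin.le_last _)) ?_)
      rw [← hi]
      exact hc (Fin.castSucc_le_castSucc_iff.2 hij.le)
  · rw [if_neg hi, Finset.mem_singleton]
    exact hl.2 hi

/-- PROOF.  Induction on `m`.  `m = 0`: `Blk` is a point, `Dt = 1`.  Step: by induction and `T4_of` for `c ∘ castSucc`,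
`finrank (nabS λ) = finrank (nabR λ).V ≤ chi (nabR λ) = ∑_(ν ∈ il c λ) finrank (hs ν) Dt ν ≤ ∑_(ν ∈ il c λ) Dt ν = Dt c λ`
(`br_zero`, `chi_eq_sum`, `br_le`, `Dt_pos` with `il_dom`, `Dt_branch`). -/
theorem nab_le {m : ℕ} (c : Fin m → ℕ) (hc : Monotone c) (lam : Fin m → ℕ) (h : Dom c lam) :
    (Module.finrank K (nabS c K lam) : ℤ) ≤ Dt c lam := by
  induction m with
  | zero =>
    have h1 : Dt c lam = 1 := Matrix.det_fin_zero
    rw [h1]
    have hsub : Subsingleton (Blk c K) :=
      ⟨fun Z W => Subtype.ext (Matrix.ext fun i => i.elim0)⟩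
    have h2 : Module.finrank K (Blk c K → K) = 1 := by
      letI : Fintype (Blk c K) := Fintype.ofSubsingleton 1
      rw [Module.finrank_fintype_fun_eq_card]
      exact Fintype.card_ofSubsingleton (1 : Blk c K)
    have hfd : FiniteDimensional K (Blk c K → K) := by
      letI : Fintype (Blk c K) := Fintype.ofSubsingleton 1
      infer_instance
    have h3 := Submodule.finrank_le (nabS c K lam)
    rw [h2] at h3
    exact_mod_cast h3
  | succ m ih =>
    have hc' : Monotone (fun i : Fin m => c i.castSucc) := fun i j hij =>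
      hc (Fin.castSucc_le_castSucc_iff.2 hij)
    have h1 : (Module.finrank K (nabR c K lam).V : ℤ) ≤ chi (nabR c K lam) :=
      T4_of hc' (fun l hl => ih _ hc' l hl) (nabR c K lam)
    have h2 : chi (nabR c K lam) ≤ Dt c lam := by
      rw [chi_eq_sum (nabR c K lam) (il c lam) (fun κ hκ => br_zero c hc lam κ hκ),
        Dt_branch c lam hc h]
      refine Finset.sum_le_sum fun ν hν => ?_
      have h3 : (Module.finrank K ((nabR c K lam).hs ν) : ℤ) ≤ 1 := by
        exact_mod_cast br_le c lam ν
      have h4 : 0 < Dt (fun i : Fin m => c i.castSucc) ν :=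
        Dt_pos _ ν hc' (il_dom c lam hc h ν hν)
      calc _ ≤ 1 * Dt (fun i : Fin m => c i.castSucc) ν := mul_le_mul_of_nonneg_right h3 h4.le
        _ = _ := one_mul _
    exact h1.trans h2

theorem T4 {m : ℕ} (c : Fin m → ℕ) (hc : Monotone c) (M : PRep c K) :
    (Module.finrank K M.V : ℤ) ≤ chi M :=
  T4_of hc (fun lam h => nab_le c hc lam h) M

end Pool.PI34.A5
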