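import Pool.Agent.LibPI34.A5_Alt

/-! PI34, block A5, file Mix: alternating forms on a direct sum. -/

set_option autoImplicit false

namespace Pool.PI34.A5

open Finset Matrix

section mix

variable {K : Type} [Field K] {J1 J2 N : Type} [Fintype J1] [Fintype J2] [DecidableEq J1]
  [DecidableEq J2] [AddCommGroup N] [Module K N]

/-- `b` vectors of the first and `a - b` vectors of the second space -/
def mixv {a b : ℕ} (v : Fin b → J1 → K) (w : Fin (a - b) → J2 → K) : Fin a → (J1 ⊕ J2 → K) :=
  fun i => if h : (i : ℕ) < b then Sum.elim (v ⟨i, h⟩) 0 else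
    Sum.elim 0 (w ⟨i - b, by omega⟩)

theorem mixv_update_left {a b : ℕ} (hb : b ≤ a) (v : Fin b → J1 → K) (w : Fin (a - b) → J2 → K)
    (i : Fin b) (x : J1 → K) : mixv (Function.update v i x) w =
      Function.update (mixv v w) ⟨i, lt_of_lt_of_le i.2 hb⟩ (Sum.elim x 0) := by
  funext j
  by_cases hj : j = ⟨i, lt_of_lt_of_le i.2 hb⟩
  · subst hj
    rw [Function.update_self]
    unfold mixv
    rw [dif_pos i.2]
    simp
  · rw [Function.update_of_ne hj]
    unfold mixv
    by_cases h : (j : ℕ) < b
    · rw [dif_pos h, dif_pos h, Function.update_of_ne]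
      intro h2
      apply hj
      ext
      exact congrArg (fun z : Fin b => (z : ℕ)) h2
    · rw [dif_neg h, dif_neg h]

theorem mixv_update_right {a b : ℕ} (hb : b ≤ a) (v : Fin b → J1 → K) (w : Fin (a - b) → J2 → K)
    (i : Fin (a - b)) (x : J2 → K) : mixv v (Function.update w i x) =
      Function.update (mixv v w) ⟨b + i, by have := i.2; omega⟩ (Sum.elim (0 : J1 → K) x) := by
  funext j
  by_cases hj : j = ⟨b + i, by have := i.2; omega⟩
  · subst hj
    rw [Function.update_self]
    unfold mixv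
    rw [dif_neg (by simp)]
    have e : (⟨b + (i : ℕ) - b, by have := i.2; omega⟩ : Fin (a - b)) = i := by
      ext
      simp
    rw [e, Function.update_self]
  · rw [Function.update_of_ne hj]
    unfold mixv
    by_cases h : (j : ℕ) < b
    · rw [dif_pos h, dif_pos h]
    · rw [dif_neg h, dif_neg h, Function.update_of_ne]
      intro h2
      apply hj
      have h3 := congrArg (fun z : Fin (a - b) => (z : ℕ)) h2
      simp only at h3
      ext
      simp only
      omega

theorem mixv_left {a b : ℕ} (hb : b ≤ a) (v : Fin b → J1 → K) (w : Fin (a - b) → J2 → K)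
    (i : Fin b) : mixv v w ⟨i, lt_of_lt_of_le i.2 hb⟩ = Sum.elim (v i) 0 := by
  unfold mixv
  rw [dif_pos i.2]

theorem mixv_right {a b : ℕ} (hb : b ≤ a) (v : Fin b → J1 → K) (w : Fin (a - b) → J2 → K)
    (i : Fin (a - b)) : mixv v w ⟨b + i, by have := i.2; omega⟩ = Sum.elim (0 : J1 → K) (w i) := by
  unfold mixv
  rw [dif_neg (by simp)]
  have e : (⟨b + (i : ℕ) - b, by have := i.2; omega⟩ : Fin (a - b)) = i := by
    ext
    simp
  rw [e]

theorem elim_add_left (x y : J1 → K) :
    (Sum.elim (x + y) 0 : J1 ⊕ J2 → K) = Sum.elim x 0 + Sum.elim y 0 := by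
  funext j
  cases j <;> simp

theorem elim_add_right (x y : J2 → K) :
    (Sum.elim (0 : J1 → K) (x + y) : J1 ⊕ J2 → K) = Sum.elim (0 : J1 → K) x + Sum.elim (0 : J1 → K) y := by
  funext j
  cases j <;> simp

theorem elim_smul_left (r : K) (x : J1 → K) :
    (Sum.elim (r • x) 0 : J1 ⊕ J2 → K) = r • Sum.elim x 0 := by
  funext j
  cases j <;> simp

theorem elim_smul_right (r : K) (x : J2 → K) :
    (Sum.elim (0 : J1 → K) (r • x) : J1 ⊕ J2 → K) = r • Sum.elim (0 : J1 → K) x := by
  funext j
  cases j <;> simp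

/-- the form in the second variables -/
def innerAlt {a b : ℕ} (hb : b ≤ a) (ω : (J1 ⊕ J2 → K) [⋀^Fin a]→ₗ[K] N) (v : Fin b → J1 → K) :
    (J2 → K) [⋀^Fin (a - b)]→ₗ[K] N where
  toFun w := ω (mixv v w)
  map_update_add' := by
    intro inst w i x y
    have hi : inst = instDecidableEqFin _ := Subsingleton.elim _ _
    subst hi
    rw [mixv_update_right hb, mixv_update_right hb, mixv_update_right hb, elim_add_right,
      ω.map_update_add]
  map_update_smul' := by
    intro inst w i r x
    have hi : inst = instDecidableEqFin _ := Subsingleton.elim _ _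
    subst hi
    rw [mixv_update_right hb, mixv_update_right hb, elim_smul_right, ω.map_update_smul]
  map_eq_zero_of_eq' := by
    intro w i j hij hne
    refine ω.map_eq_zero_of_eq (mixv v w) (i := ⟨b + i, by have := i.2; omega⟩)
      (j := ⟨b + j, by have := j.2; omega⟩) ?_ ?_
    · rw [mixv_right hb, mixv_right hb, hij]
    · intro h
      apply hne
      have h2 := congrArg (fun z : Fin a => (z : ℕ)) h
      simp only at h2
      ext
      omega

/-- the form in both variables -/
def outerAlt {a b : ℕ} (hb : b ≤ a) (ω : (J1 ⊕ J2 → K) [⋀^Fin a]→ₗ[K] N) :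
    (J1 → K) [⋀^Fin b]→ₗ[K] ((J2 → K) [⋀^Fin (a - b)]→ₗ[K] N) where
  toFun v := innerAlt hb ω v
  map_update_add' := by
    intro inst v i x y
    have hi : inst = instDecidableEqFin _ := Subsingleton.elim _ _
    subst hi
    ext w
    change ω (mixv _ w) = ω (mixv _ w) + ω (mixv _ w)
    rw [mixv_update_left hb, mixv_update_left hb, mixv_update_left hb, elim_add_left,
      ω.map_update_add]
  map_update_smul' := by
    intro inst v i r x
    have hi : inst = instDecidableEqFin _ := Subsingleton.elim _ _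
    subst hi
    ext w
    change ω (mixv _ w) = r • ω (mixv _ w)
    rw [mixv_update_left hb, mixv_update_left hb, elim_smul_left, ω.map_update_smul]
  map_eq_zero_of_eq' := by
    intro v i j hij hne
    ext w
    change ω (mixv v w) = 0
    refine ω.map_eq_zero_of_eq (mixv v w) (i := ⟨i, lt_of_lt_of_le i.2 hb⟩)
      (j := ⟨j, lt_of_lt_of_le j.2 hb⟩) ?_ ?_
    · rw [mixv_left hb, mixv_left hb, hij]
    · intro h
      apply hne
      have h2 := congrArg (fun z : Fin a => (z : ℕ)) h
      ext
      exact h2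

/-- PROOF.  `w ↦ ω (mixv v w)` is alternating and multilinear, and so is `v ↦ (w ↦ ω (mixv v w))`
(`mixv (update v i x) w = update (mixv v w) i' (Sum.elim x 0)`, and `Sum.elim (x+y) 0 = Sum.elim x 0 + Sum.elim y 0`). -/
theorem exists_phi (a b : ℕ) (hb : b ≤ a) :
    ∃ Φ : ((J1 ⊕ J2 → K) [⋀^Fin a]→ₗ[K] N) →ₗ[K]
      ((J1 → K) [⋀^Fin b]→ₗ[K] ((J2 → K) [⋀^Fin (a - b)]→ₗ[K] N)),
      ∀ ω v w, Φ ω v w = ω (mixv v w) :=
  ⟨{ toFun := fun ω => outerAlt hb ω
     map_add' := fun _ _ => by
      ext v w
      rfl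
     map_smul' := fun _ _ => by
      ext v w
      rfl }, fun _ _ _ => rfl⟩

/-- PROOF.  By `Module.Basis.ext_alternating` for the basis `e_(inl j), e_(inr j)` it is enough to see `ω(e_(f 0), …, e_(f (a-1))) = 0` for
injective `f : Fin a → J1 ⊕ J2`; after a permutation of `Fin a` the first `b` values are in `J1` and the others in `J2`. -/
theorem mix_sep {a : ℕ} (ω : (J1 ⊕ J2 → K) [⋀^Fin a]→ₗ[K] N)
    (h : ∀ b ≤ a, ∀ (v : Fin b → J1 → K) (w : Fin (a - b) → J2 → K), ω (mixv v w) = 0) :
    ω = 0 := by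
  refine Module.Basis.ext_alternating (Pi.basisFun K (J1 ⊕ J2)) fun f _ => ?_
  rw [AlternatingMap.zero_apply]
  obtain ⟨b, hbd⟩ : ∃ b, b = Fintype.card {i : Fin a // (f i).isLeft = true} := ⟨_, rfl⟩
  have hb : b ≤ a := by
    rw [hbd]
    exact (Fintype.card_subtype_le _).trans (by simp)
  have hcard : Fintype.card {i : Fin a // (i : ℕ) < b} =
      Fintype.card {i : Fin a // (f i).isLeft = true} := by
    rw [← hbd, Fintype.card_subtype]
    have h1 : (Finset.univ.filter fun i : Fin a => (i : ℕ) < b) =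
        (Finset.univ : Finset (Fin b)).map (Fin.castLEEmb hb) := by
      ext i
      simp only [mem_filter, mem_univ, true_and, mem_map]
      constructor
      · intro hi
        exact ⟨⟨i, hi⟩, rfl⟩
      · rintro ⟨j, hj⟩
        rw [← hj]
        exact j.2
    rw [h1, Finset.card_map, Finset.card_univ, Fintype.card_fin]
  let e := Fintype.equivOfCardEq hcard
  let σ : Equiv.Perm (Fin a) := e.extendSubtype
  have hs1 : ∀ i : Fin a, (i : ℕ) < b → (f (σ i)).isLeft = true := fun i hi =>
    Equiv.extendSubtype_mem e i hi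
  have hs2 : ∀ i : Fin a, ¬ (i : ℕ) < b → ¬ (f (σ i)).isLeft = true := fun i hi =>
    Equiv.extendSubtype_not_mem e i hi
  have hperm := ω.map_perm (fun i => Pi.basisFun K (J1 ⊕ J2) (f i)) σ
  have hmix : (fun i => Pi.basisFun K (J1 ⊕ J2) (f i)) ∘ σ =
      mixv (b := b) (fun i j => Pi.basisFun K (J1 ⊕ J2) (f (σ ⟨i, lt_of_lt_of_le i.2 hb⟩)) (Sum.inl j))
        (fun i j => Pi.basisFun K (J1 ⊕ J2) (f (σ ⟨b + i, by have := i.2; omega⟩)) (Sum.inr j)) := by
    funext i
    unfold mixv
    by_cases hi : (i : ℕ) < b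
    · rw [dif_pos hi]
      funext j
      obtain ⟨j0, hj0⟩ : ∃ j0, f (σ i) = Sum.inl j0 := by
        have h2 := hs1 i hi
        cases h3 : f (σ i) with
        | inl y => exact ⟨y, rfl⟩
        | inr y => rw [h3] at h2; simp at h2
      cases j with
      | inl j => simp
      | inr j => simp [hj0]
    · rw [dif_neg hi]
      funext j
      obtain ⟨j0, hj0⟩ : ∃ j0, f (σ i) = Sum.inr j0 := by
        have h2 := hs2 i hi
        cases h3 : f (σ i) with
        | inl y => rw [h3] at h2; simp at h2
        | inr y => exact ⟨y, rfl⟩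
      have e2 : (⟨b + ((i : ℕ) - b), by have := i.2; omega⟩ : Fin a) = i := by
        ext
        simp only
        omega
      cases j with
      | inl j => simp [hj0]
      | inr j =>
        simp only [Function.comp_apply, Sum.elim_inr]
        rw [e2]
  rw [hmix, h b hb] at hperm
  exact (smul_eq_zero_iff_eq _).1 hperm.symm

end mix

end Pool.PI34.A5
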