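import Pool.Agent.LibPI34.A5_FP
import Pool.Agent.LibPI34.A5_Dbl

/-! PI34, block A5, file C0: `F` as an element of `nab λ_0`. -/

set_option autoImplicit false

namespace Pool.PI34.A5

open Finset Matrix

variable {K : Type} [Field K] [Infinite K] {N : ℕ}

/-- the weight `(0^N, k^N)` -/
def lam0 (N k : ℕ) : Fin (N + N) → ℕ := fun i => if (i : ℕ) < N then 0 else k

/-- the last `N` rows -/
def lastRows (Z : Matrix (Fin (N + N)) (Fin (N + N)) K) : Matrix (Fin N) (Fin N ⊕ Fin N) K :=
  Matrix.of fun a b => Z (Fin.natAdd N a) (finSumFinEquiv b)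

omit [Infinite K] in
private theorem lastRows_mul (X Z : Matrix (Fin (N + N)) (Fin (N + N)) K)
    (h : ∀ a l : Fin N, X (Fin.natAdd N a) (Fin.castAdd N l) = 0) :
    lastRows (X * Z) = (Matrix.of fun a b : Fin N => X (Fin.natAdd N a) (Fin.natAdd N b)) *
      lastRows Z := by
  ext a b
  rw [Matrix.mul_apply]
  change (X * Z) (Fin.natAdd N a) (finSumFinEquiv b) = _
  rw [Matrix.mul_apply, Fin.sum_univ_add]
  rw [Finset.sum_eq_zero (fun l _ => by rw [h a l, zero_mul]), zero_add]
  rfl

omit [Infinite K] in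
private theorem tw_lam0 (t : Fin (N + N) → K) (k : ℕ) :
    tw t (lam0 N k) = (∏ a : Fin N, t (Fin.natAdd N a)) ^ k := by
  unfold tw lam0
  rw [Fin.prod_univ_add, ← Finset.prod_pow]
  have h1 : ∀ i : Fin N, t (Fin.castAdd N i) ^ (if ((Fin.castAdd N i : Fin (N + N)) : ℕ) < N
      then 0 else k) = 1 := by
    intro i
    rw [if_pos (by simp), pow_zero]
  have h2 : ∀ i : Fin N, t (Fin.natAdd N i) ^ (if ((Fin.natAdd N i : Fin (N + N)) : ℕ) < N
      then 0 else k) = t (Fin.natAdd N i) ^ k := by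
    intro i
    rw [if_neg (by simp)]
  rw [Finset.prod_congr rfl fun i _ => h1 i, Finset.prod_congr rfl fun i _ => h2 i,
    Finset.prod_const_one, one_mul]

/-- PROOF.  `lastRows (u Z) = u22 * lastRows Z` with `u22` the lower right block, upper unitriangular, determinant `1`;
`lastRows (dg t Z) = diag (t (natAdd a)) * lastRows Z`, `∏ t (natAdd a) ^ k = t^(λ_0)` (`Fin.prod_univ_add`). -/
theorem Fnab (k : ℕ) (F : Matrix (Fin N) (Fin N ⊕ Fin N) K → K) (hF : F ∈ PolyFn (mcr K))
    (h1 : ∀ (g : Matrix (Fin N) (Fin N) K) Z, F (g * Z) = g.det ^ k * F Z) :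
    (fun Z : Blk (c0 (N + N)) K => F (lastRows Z.1)) ∈ nabS (c0 (N + N)) K (lam0 N k) := by
  refine ⟨?_, ?_, ?_⟩
  · refine comp_mem (mcr K) (crd (c0 (N + N)) K) (fun Z => lastRows Z.1) ?_ F hF
    rintro ⟨a, b⟩
    exact coord_mem (crd (c0 (N + N)) K) (Fin.natAdd N a, finSumFinEquiv b)
  · intro u Z hu
    change F (lastRows (u.1 * Z.1)) = F (lastRows Z.1)
    rw [lastRows_mul u.1 Z.1 (fun a l => hu.2 _ _ (by
      rw [Fin.lt_def, Fin.val_castAdd, Fin.val_natAdd]
      have := l.2
      omega)), h1]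
    have hd : (Matrix.of fun a b : Fin N => u.1 (Fin.natAdd N a) (Fin.natAdd N b)).det = 1 := by
      rw [Matrix.det_of_upperTriangular]
      · exact Finset.prod_eq_one fun i _ => hu.1 _
      · intro a b hab
        exact hu.2 _ _ (by
          rw [Fin.lt_def, Fin.val_natAdd, Fin.val_natAdd]
          have : (b : ℕ) < a := hab
          omega)
    rw [hd, one_pow, one_mul]
  · intro t Z
    change F (lastRows ((dg (c0 (N + N)) t).1 * Z.1)) = _
    have hdg : ∀ a b, (dg (c0 (N + N)) t).1 a b = Matrix.diagonal t a b := fun a b => rfl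
    rw [lastRows_mul _ Z.1 (fun a l => by
      rw [hdg, Matrix.diagonal_apply_ne]
      intro h
      have := congrArg Fin.val h
      rw [Fin.val_castAdd, Fin.val_natAdd] at this
      have := l.2
      omega), h1, tw_lam0]
    congr 2
    have e : (Matrix.of fun a b : Fin N =>
        (dg (c0 (N + N)) t).1 (Fin.natAdd N a) (Fin.natAdd N b)) =
        Matrix.diagonal fun a => t (Fin.natAdd N a) := by
      ext a b
      rw [Matrix.of_apply, hdg]
      by_cases hab : a = b
      · subst hab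
        rw [Matrix.diagonal_apply_eq, Matrix.diagonal_apply_eq]
      · rw [Matrix.diagonal_apply_ne _ hab, Matrix.diagonal_apply_ne]
        intro h
        apply hab
        apply Fin.ext
        have := congrArg Fin.val h
        rw [Fin.val_natAdd, Fin.val_natAdd] at this
        omega
    rw [e, Matrix.det_diagonal]

omit [Infinite K] in
private theorem lastRows_dbl (c : Fin N → ℕ) (g : Blk c K)
    (Z : Matrix (Fin (N + N)) (Fin (N + N)) K) :
    lastRows (Z * dblN c K g) =
      Matrix.fromCols ((lastRows Z).toCols₁ * g.1) ((lastRows Z).toCols₂ * g.1) := by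
  ext a b
  change (Z * dblN c K g) (Fin.natAdd N a) (finSumFinEquiv b) = _
  rw [Matrix.mul_apply, ← Equiv.sum_comp finSumFinEquiv, Fintype.sum_sum_type]
  have hd : ∀ x y, dblN c K g (finSumFinEquiv x) (finSumFinEquiv y) =
      Matrix.fromBlocks g.1 0 0 g.1 x y := by
    intro x y
    change (Matrix.fromBlocks g.1 0 0 g.1) (finSumFinEquiv.symm (finSumFinEquiv x))
      (finSumFinEquiv.symm (finSumFinEquiv y)) = _
    rw [Equiv.symm_apply_apply, Equiv.symm_apply_apply]
  rcases b with b | b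
  · rw [Matrix.fromCols_apply_inl, Matrix.mul_apply]
    have z : ∀ x : Fin N, Z (Fin.natAdd N a) (finSumFinEquiv (Sum.inr x)) *
        dblN c K g (finSumFinEquiv (Sum.inr x)) (finSumFinEquiv (Sum.inl b)) = 0 := by
      intro x
      rw [hd, Matrix.fromBlocks_apply₂₁, Matrix.zero_apply, mul_zero]
    rw [Finset.sum_eq_zero (fun x (_ : x ∈ Finset.univ) => z x), add_zero]
    refine Finset.sum_congr rfl fun x _ => ?_
    rw [hd, Matrix.fromBlocks_apply₁₁]
    rfl
  · rw [Matrix.fromCols_apply_inr, Matrix.mul_apply]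
    have z : ∀ x : Fin N, Z (Fin.natAdd N a) (finSumFinEquiv (Sum.inl x)) *
        dblN c K g (finSumFinEquiv (Sum.inl x)) (finSumFinEquiv (Sum.inr b)) = 0 := by
      intro x
      rw [hd, Matrix.fromBlocks_apply₁₂, Matrix.zero_apply, mul_zero]
    rw [Finset.sum_eq_zero (fun x (_ : x ∈ Finset.univ) => z x), zero_add]
    refine Finset.sum_congr rfl fun x _ => ?_
    rw [hd, Matrix.fromBlocks_apply₂₂]
    rfl

/-- PROOF.  `lastRows (Z * dbl g) = [P g | Q g]` for `lastRows Z = [P | Q]`; the determinant of an `IsLo` matrix is `1`, of `dg t` it is `∏ t`. -/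
theorem Fnab_hs (c : Fin N → ℕ) (k : ℕ) (F : Matrix (Fin N) (Fin N ⊕ Fin N) K → K)
    (hF : F ∈ PolyFn (mcr K))
    (h1 : ∀ (g : Matrix (Fin N) (Fin N) K) Z, F (g * Z) = g.det ^ k * F Z)
    (h2 : ∀ (g : Blk c K) (P Q : Matrix (Fin N) (Fin N) K),
      F (Matrix.fromCols (P * g.1) (Q * g.1)) = g.1.det ^ k * F (Matrix.fromCols P Q)) :
    (⟨_, Fnab k F hF h1⟩ : nabS (c0 (N + N)) K (lam0 N k)) ∈
      (rs c (nab (c0 (N + N)) K (lam0 N k))).hs (fun _ => k) := by
  have key : ∀ (g : Blk c K) (Z : Matrix (Fin (N + N)) (Fin (N + N)) K),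
      F (lastRows (Z * dblN c K g)) = g.1.det ^ k * F (lastRows Z) := by
    intro g Z
    rw [lastRows_dbl, h2, Matrix.fromCols_toCols]
  refine ⟨?_, ?_⟩
  · intro t
    apply Subtype.ext
    funext Z
    change F (lastRows (Z.1 * dblN c K (dg c t))) = tw t (fun _ => k) * F (lastRows Z.1)
    rw [key]
    congr 1
    change (Matrix.diagonal t).det ^ k = _
    rw [Matrix.det_diagonal, ← Finset.prod_pow]
    rfl
  · intro g hg
    apply Subtype.ext
    funext Z
    change F (lastRows (Z.1 * dblN c K g)) = F (lastRows Z.1)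
    rw [key]
    have hd : g.1.det = 1 := by
      rw [Matrix.det_of_lowerTriangular]
      · exact Finset.prod_eq_one fun i _ => hg.1 i
      · intro a b hab
        exact hg.2 _ _ (by simpa using hab)
    rw [hd, one_pow, one_mul]

end Pool.PI34.A5
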