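import Pool.Agent.LibPI34.A5_Y
import Pool.Agent.LibPI34.A5_C0

/-! PI34, block A5, file C1: the representation `Y_k` (iterated exterior power), evaluation. -/

set_option autoImplicit false

namespace Pool.PI34.A5

open Finset Matrix

variable {K : Type} [Field K] [Infinite K] {N : ℕ}

/-- iterated exterior powers -/
noncomputable def Yk (N : ℕ) (K : Type) [Field K] : ℕ → PRep (c0 (N + N)) K
  | 0 => triv (c0 (N + N)) K
  | k + 1 => altI (Yk N K k) N

/-- evaluation at `k` tuples of `N` row vectors -/
noncomputable def evk (N : ℕ) (K : Type) [Field K] :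
    (k : ℕ) → (Fin k → Fin N → Fin (N + N) → K) → ((Yk N K k).V →ₗ[K] K)
  | 0, _ => (LinearMap.id : K →ₗ[K] K)
  | k + 1, R => evk N K k (fun r => R r.succ) ∘ₗ
      ({ toFun := fun ω => ω (R 0), map_add' := fun _ _ => rfl, map_smul' := fun _ _ => rfl } :
        ((Fin (N + N) → K) [⋀^Fin N]→ₗ[K] (Yk N K k).V) →ₗ[K] (Yk N K k).V)

theorem evk_succ (k : ℕ) (R : Fin (k + 1) → Fin N → Fin (N + N) → K)
    (ω : (Fin (N + N) → K) [⋀^Fin N]→ₗ[K] (Yk N K k).V) :
    evk N K (k + 1) R ω = evk N K k (fun r => R r.succ) (ω (R 0)) := rfl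

/-- alternating in each of the tuples -/
def IsMA {k N : ℕ} {J : Type} (ω : (Fin k → Fin N → J → K) → K) : Prop :=
  ∀ (r : Fin k) (R : Fin k → Fin N → J → K), ∃ μ : (J → K) [⋀^Fin N]→ₗ[K] K,
    ∀ v : Fin N → J → K, ω (Function.update R r v) = μ v

/-- induction on `k` -/
theorem evk_MA (k : ℕ) (y : (Yk N K k).V) : IsMA (fun R => evk N K k R y) := by
  induction k with
  | zero => exact fun r => r.elim0
  | succ k ih =>
    intro r R
    refine Fin.cases ?_ (fun r' => ?_) r
    · refine ⟨(evk N K k (fun r => R r.succ)).compAlternatingMap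
        (show (Fin (N + N) → K) [⋀^Fin N]→ₗ[K] (Yk N K k).V from y), fun v => ?_⟩
      have h1 : (fun s : Fin k => Function.update R 0 v s.succ) = fun s => R s.succ := by
        funext s
        rw [Function.update_of_ne (Fin.succ_ne_zero s)]
      change evk N K k (fun s => Function.update R 0 v s.succ)
        ((show (Fin (N + N) → K) [⋀^Fin N]→ₗ[K] (Yk N K k).V from y)
          (Function.update R 0 v 0)) = _
      rw [h1, Function.update_self]
      rfl
    · obtain ⟨μ, hμ⟩ := ih
        ((show (Fin (N + N) → K) [⋀^Fin N]→ₗ[K] (Yk N K k).V from y) (R 0)) r'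
        (fun s => R s.succ)
      refine ⟨μ, fun v => ?_⟩
      rw [← hμ v]
      have h1 : (fun s : Fin k => Function.update R r'.succ v s.succ) =
          Function.update (fun s : Fin k => R s.succ) r' v := by
        funext s
        by_cases hs : s = r'
        · subst hs
          rw [Function.update_self, Function.update_self]
        · rw [Function.update_of_ne hs,
            Function.update_of_ne (fun e => hs (Fin.succ_injective _ e))]
      change evk N K k (fun s => Function.update R r'.succ v s.succ)
        ((show (Fin (N + N) → K) [⋀^Fin N]→ₗ[K] (Yk N K k).V from y)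
          (Function.update R r'.succ v 0)) = _
      rw [h1, Function.update_of_ne (Fin.succ_ne_zero r').symm]

/-- induction on `k` -/
theorem evk_rho (k : ℕ) (g : Blk (c0 (N + N)) K) (y : (Yk N K k).V)
    (R : Fin k → Fin N → Fin (N + N) → K) :
    evk N K k R ((Yk N K k).ρ g y) = evk N K k (fun r a => R r a ᵥ* g.1) y := by
  induction k with
  | zero => rfl
  | succ k ih =>
    change evk N K k (fun r => R r.succ) ((Yk N K k).ρ g
      ((show (Fin (N + N) → K) [⋀^Fin N]→ₗ[K] (Yk N K k).V from y)
        (fun q => R 0 q ᵥ* g.1))) = _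
    rw [ih]
    rfl

/-- elements of `Yk` are determined by their evaluations -/
theorem evk_sep (k : ℕ) (y : (Yk N K k).V) (h : ∀ R, evk N K k R y = 0) : y = 0 := by
  induction k with
  | zero => exact h (fun r => r.elim0)
  | succ k ih =>
    refine AlternatingMap.ext (f := (show (Fin (N + N) → K) [⋀^Fin N]→ₗ[K] (Yk N K k).V from y))
      (f' := 0) fun v => ?_
    refine ih _ fun R => ?_
    have h2 := h (Fin.cons v R)
    change evk N K k (fun r : Fin k => (Fin.cons v R : Fin (k + 1) → Fin N → Fin (N + N) → K) r.succ)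
      ((show (Fin (N + N) → K) [⋀^Fin N]→ₗ[K] (Yk N K k).V from y)
        ((Fin.cons v R : Fin (k + 1) → Fin N → Fin (N + N) → K) 0)) = 0 at h2
    simpa using h2

theorem Yk_good (k : ℕ) : Good (Yk N K k) := by
  induction k with
  | zero => exact good_triv _
  | succ k ih => exact good_altI monotone_const (Yk N K k) N ih

theorem Yk_rs_good (c : Fin N → ℕ) (hc : Monotone c) (k : ℕ) : Good (rs c (Yk N K k)) := by
  induction k with
  | zero => exact good_triv c
  | succ k ih => exact good_rs_alt hc (Yk N K k) N ih

end Pool.PI34.A5
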