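import Pool.Agent.LibPI34.A5_C1

/-! PI34, block A5, file C1b: the top weight functional of `Y_k`. -/

set_option autoImplicit false

namespace Pool.PI34.A5

open Finset Matrix

variable {K : Type} [Field K] [Infinite K] {N : ℕ}

/-- the last `N` indices -/
def lastT (N : ℕ) : Finset (Fin (N + N)) := univ.map (Fin.natAddEmb N)

theorem mem_lastT (i : Fin (N + N)) : i ∈ lastT N ↔ N ≤ (i : ℕ) := by
  unfold lastT
  rw [mem_map]
  constructor
  · rintro ⟨a, _, rfl⟩
    exact Nat.le_add_right _ _
  · intro h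
    refine ⟨⟨(i : ℕ) - N, by omega⟩, mem_univ _, Fin.ext ?_⟩
    change N + ((i : ℕ) - N) = i
    omega

theorem card_lastT : (lastT N).card = N := by
  unfold lastT
  rw [card_map, card_univ, Fintype.card_fin]

theorem lam0_succ (k : ℕ) : lam0 N (k + 1) = fun i => lam0 N k i + ind (lastT N) i := by
  funext i
  unfold lam0 ind
  by_cases h : (i : ℕ) < N
  · rw [if_pos h, if_pos h, if_neg]
    rw [mem_lastT]
    omega
  · rw [if_neg h, if_neg h, if_pos]
    rw [mem_lastT]
    omega

/-- PROOF.  Induction with `alt_wt`, `ht_add_ind`, `upper_sum` (`T = {i | N ≤ i}`, `#T = N`, `lam0 N (k+1) = lam0 N k + 1_T`). -/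
theorem Yk_top (k : ℕ) : IsTop (Yk N K k) (lam0 N k) := by
  induction k with
  | zero =>
    intro κ hκ
    have h := triv_wt (K := K) (c0 (N + N)) κ hκ
    rw [h]
    unfold ht
    simp
  | succ k ih =>
    intro κ hκ
    obtain ⟨S, hS, μ, hμ, rfl⟩ := alt_wt (Yk N K k) N κ hκ
    have h1 := ih μ hμ
    rw [ht_add_ind, lam0_succ, ht_add_ind]
    refine add_le_add h1 ?_
    by_cases h : S = lastT N
    · rw [h]
    · refine (upper_sum S (lastT N) (fun i j hij hi => ?_) (hS.trans card_lastT.symm) h).le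
      rw [mem_lastT] at hi ⊢
      exact hi.trans hij

/-- the evaluation at the last `N` basis vectors -/
noncomputable def pik (N : ℕ) (K : Type) [Field K] (k : ℕ) : Module.Dual K (Yk N K k).V :=
  evk N K k (fun _ a => Pi.single (Fin.natAdd N a) 1)

theorem evk_smul (s : Fin N → K) (k : ℕ) (y : (Yk N K k).V)
    (R : Fin k → Fin N → Fin (N + N) → K) :
    evk N K k (fun r a => s a • R r a) y = (∏ a, s a) ^ k * evk N K k R y := by
  induction k with
  | zero =>
    rw [pow_zero, one_mul]
    rfl
  | succ k ih =>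
    have h1 : (show (Fin (N + N) → K) [⋀^Fin N]→ₗ[K] (Yk N K k).V from y) (fun a => s a • R 0 a) =
        (∏ a, s a) • (show (Fin (N + N) → K) [⋀^Fin N]→ₗ[K] (Yk N K k).V from y) (R 0) :=
      (show (Fin (N + N) → K) [⋀^Fin N]→ₗ[K] (Yk N K k).V from y).toMultilinearMap.map_smul_univ
        s (R 0)
    have h2 := evk_succ k (fun r a => s a • R r a) y
    have h3 := evk_succ k R y
    rw [h2, h3]
    refine (congrArg _ h1).trans ?_
    rw [map_smul, ih, pow_succ, smul_eq_mul]
    ring

/-- PROOF.  `evk_rho`; `e_(N+a) * diag t = t_(N+a) e_(N+a)`, multilinearity (`evk_MA`; or by induction on `k`). -/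
theorem pik_mem (k : ℕ) : pik N K k ∈ (Yk N K k).wd (lam0 N k) := by
  intro t v
  unfold pik
  rw [evk_rho]
  have e : (fun (_ : Fin k) (a : Fin N) =>
      (Pi.single (Fin.natAdd N a) 1 : Fin (N + N) → K) ᵥ* (dg (c0 (N + N)) t).1) =
      fun _ a => t (Fin.natAdd N a) • (Pi.single (Fin.natAdd N a) 1 : Fin (N + N) → K) := by
    funext _ a
    ext l
    change ((Pi.single (Fin.natAdd N a) 1 : Fin (N + N) → K) ᵥ* Matrix.diagonal t) l =
      t (Fin.natAdd N a) * (Pi.single (Fin.natAdd N a) 1 : Fin (N + N) → K) l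
    rw [Matrix.vecMul_diagonal]
    by_cases h : l = Fin.natAdd N a
    · rw [h, mul_comm]
    · rw [Pi.single_eq_of_ne h, zero_mul, mul_zero]
  rw [e, evk_smul (fun a => t (Fin.natAdd N a))]
  congr 1
  unfold tw lam0
  rw [Fin.prod_univ_add]
  simp only [Fin.val_castAdd, Fin.is_lt, if_true, pow_zero, prod_const_one, one_mul,
    Fin.val_natAdd]
  rw [← prod_pow]
  refine prod_congr rfl fun a _ => ?_
  rw [if_neg (by omega)]

/-- PROOF.  Induction on `k`: `ω v = det (v_q (N + r))_(q,r) • y`. -/
theorem pik_ne (k : ℕ) : pik N K k ≠ 0 := by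
  have key : ∃ y, pik N K k y ≠ 0 := by
    induction k with
    | zero => exact ⟨(1 : K), one_ne_zero⟩
    | succ k ih =>
      obtain ⟨y, hy⟩ := ih
      let D : (Fin (N + N) → K) [⋀^Fin N]→ₗ[K] K :=
        (Matrix.detRowAlternating (n := Fin N) (R := K)).compLinearMap
          (LinearMap.funLeft K K (Fin.natAdd N))
      let ω : (Fin (N + N) → K) [⋀^Fin N]→ₗ[K] (Yk N K k).V :=
        (LinearMap.toSpanSingleton K (Yk N K k).V y).compAlternatingMap D
      have hD : D (fun a => Pi.single (Fin.natAdd N a) 1) = 1 := by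
        change Matrix.det (fun a b => (Pi.single (Fin.natAdd N a) 1 : Fin (N + N) → K)
          (Fin.natAdd N b)) = 1
        have e : (fun a b => (Pi.single (Fin.natAdd N a) 1 : Fin (N + N) → K)
          (Fin.natAdd N b)) = (1 : Matrix (Fin N) (Fin N) K) := by
          funext a b
          rw [Matrix.one_apply, Pi.single_apply]
          by_cases h : a = b
          · rw [if_pos h, h, if_pos rfl]
          · rw [if_neg h, if_neg]
            intro h'
            exact h (Fin.natAdd_injective N N h').symm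
        rw [e, Matrix.det_one]
      have hω : ω (fun a => Pi.single (Fin.natAdd N a) 1) = y := by
        change D (fun a => Pi.single (Fin.natAdd N a) 1) • y = y
        rw [hD, one_smul]
      refine ⟨ω, ?_⟩
      have h := evk_succ k (fun _ a => (Pi.single (Fin.natAdd N a) 1 : Fin (N + N) → K)) ω
      unfold pik at hy ⊢
      rw [h]
      intro h'
      exact hy ((congrArg _ hω).symm.trans h')
  obtain ⟨y, hy⟩ := key
  intro h
  rw [h] at hy
  exact hy rfl

/-- matrix coefficients of `pik`: evaluation at the last rows of `Z` -/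
theorem pik_rho (k : ℕ) (y : (Yk N K k).V) (Z : Blk (c0 (N + N)) K) :
    pik N K k ((Yk N K k).ρ Z y) = evk N K k (fun _ a => Z.1 (Fin.natAdd N a)) y := by
  unfold pik
  rw [evk_rho]
  congr 2
  funext _ a
  rw [Matrix.single_one_vecMul]
  rfl

end Pool.PI34.A5
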