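import Pool.Agent.LibPI34.A5_T6

/-! PI34, block A5, file T6b: quotients of good representations by good subrepresentations; lifting. -/

set_option autoImplicit false

namespace Pool.PI34.A5

open Finset Matrix

variable {m : ℕ} {c : Fin m → ℕ} {K : Type} [Field K] [Infinite K]

omit [Infinite K] in
/-- factorization through a surjective map -/
theorem T6b_factor {A B C : Type} [AddCommGroup A] [Module K A] [AddCommGroup B] [Module K B]
    [AddCommGroup C] [Module K C] (p : A →ₗ[K] B) (hp : Function.Surjective p) (f : A →ₗ[K] C)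
    (h : LinearMap.ker p ≤ LinearMap.ker f) : ∃ t : B →ₗ[K] C, ∀ a, t (p a) = f a := by
  obtain ⟨s, hs⟩ := p.exists_rightInverse_of_surjective (LinearMap.range_eq_top.2 hp)
  refine ⟨f ∘ₗ s, fun a => ?_⟩
  have h1 : p (s (p a)) = p a := by
    have h2 := congrArg (fun g : B →ₗ[K] B => g (p a)) hs
    exact h2
  have h3 : s (p a) - a ∈ LinearMap.ker p := by
    rw [LinearMap.mem_ker, map_sub, h1, sub_self]
  have h4 := h h3
  rw [LinearMap.mem_ker, map_sub, sub_eq_zero] at h4
  exact h4

theorem T6b_aux (hc : Monotone c) (n : ℕ) : ∀ (X Y Z : PRep c K) (i : X.V →ₗ[K] Y.V)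
    (p : Y.V →ₗ[K] Z.V), Module.finrank K Y.V < n → Ext X Y Z i p → Good X → Good Y →
    Good Z := by
  induction n with
  | zero => intro X Y Z i p hn; exact absurd hn (Nat.not_lt_zero _)
  | succ n ih =>
    intro X Y Z i p hn h hX hY
    rcases Nat.eq_zero_or_pos (Module.finrank K Y.V) with h0 | hpos
    · refine good_zero Z ?_
      have h1 : Module.finrank K (LinearMap.range p) ≤ Module.finrank K Y.V :=
        LinearMap.finrank_range_le p
      rw [LinearMap.range_eq_top.2 h.surj, finrank_top] at h1
      omega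
    · obtain ⟨lam, htop, hw⟩ := exists_top Y hpos
      have hXtop := isTop_sub X Y i h.ei h.inj lam htop
      have hker : LinearMap.ker p ≤ LinearMap.ker (thetaX X Y i lam htop) := by
        intro y hy
        rw [← h.ex] at hy
        obtain ⟨x, rfl⟩ := hy
        rw [LinearMap.mem_ker]
        exact thetaX_i X Y i h.ei lam htop x
      obtain ⟨tZ, htZ⟩ := T6b_factor p h.surj (thetaX X Y i lam htop) hker
      have hsum := ker_thetaX hc X Y i h.ei h.inj lam htop hX hY
      have tZeqv : Eqv Z ((nab c K lam).hom (wdX X Y i lam)) tZ := by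
        intro g z
        obtain ⟨y, rfl⟩ := h.surj z
        rw [← h.ep g y, htZ, htZ]
        exact thetaX_eqv X Y i lam htop g y
      have tZsurj : Function.Surjective tZ := by
        intro w
        obtain ⟨y, hy⟩ := thetaX_surj hc X Y i lam htop hY w
        exact ⟨p y, by rw [htZ, hy]⟩
      have hsub : ∀ g, ∀ v ∈ LinearMap.ker tZ, Z.ρ g v ∈ LinearMap.ker tZ := by
        intro g v hv
        rw [LinearMap.mem_ker] at hv ⊢
        rw [tZeqv g v, hv, map_zero]
      have hi1 : ∀ x ∈ LinearMap.ker (theta X lam hXtop), i x ∈ LinearMap.ker (theta Y lam htop) :=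
        fun x hx => (ker_theta_i X Y i h.ei h.inj lam htop x).2 hx
      have hp1 : ∀ y ∈ LinearMap.ker (theta Y lam htop), p y ∈ LinearMap.ker tZ := by
        intro y hy
        have h1 : y ∈ LinearMap.ker (thetaX X Y i lam htop) := by
          rw [hsum]
          exact Submodule.mem_sup_left hy
        rw [LinearMap.mem_ker] at h1 ⊢
        rw [htZ, h1]
      have hext1 : Ext (kth X lam hXtop) (kth Y lam htop) (Z.sub (LinearMap.ker tZ) hsub)
          (i.restrict hi1) (p.restrict hp1) := by
        refine ⟨?_, ?_, ?_, ?_, ?_⟩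
        · intro g v
          exact Subtype.ext (h.ei g v.1)
        · intro g v
          exact Subtype.ext (h.ep g v.1)
        · intro v w hvw
          exact Subtype.ext (h.inj (congrArg Subtype.val hvw))
        · intro z
          obtain ⟨y, hy⟩ := h.surj z.1
          have h1 : y ∈ LinearMap.ker (thetaX X Y i lam htop) := by
            rw [LinearMap.mem_ker, ← htZ, hy]
            exact z.2
          rw [hsum] at h1
          obtain ⟨y1, hy1, y2, ⟨x, rfl⟩, h2⟩ := Submodule.mem_sup.1 h1
          refine ⟨⟨y1, hy1⟩, Subtype.ext ?_⟩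
          have h3 : p (i x) = 0 := by
            have h4 : i x ∈ LinearMap.ker p := by
              rw [← h.ex]
              exact ⟨x, rfl⟩
            exact h4
          have h5 : p y = p y1 := by rw [← h2, map_add, h3, add_zero]
          exact h5.symm.trans hy
        · ext y
          constructor
          · rintro ⟨x, rfl⟩
            have h4 : i x.1 ∈ LinearMap.ker p := by
              rw [← h.ex]
              exact ⟨x.1, rfl⟩
            exact Subtype.ext h4
          · intro hy
            have h1 : p y.1 = 0 := congrArg Subtype.val hy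
            have h2 : y.1 ∈ LinearMap.ker p := h1
            rw [← h.ex] at h2
            obtain ⟨x, hx⟩ := h2
            have h3 : i x ∈ LinearMap.ker (theta Y lam htop) := by
              rw [hx]
              exact y.2
            exact ⟨⟨x, (ker_theta_i X Y i h.ei h.inj lam htop x).1 h3⟩, Subtype.ext hx⟩
      have hlt := finrank_kth_lt Y lam htop hw
      have hZ1 : Good (Z.sub (LinearMap.ker tZ) hsub) :=
        ih _ _ _ _ _ (by omega) hext1 (good_kth hc X lam hXtop hX) (good_kth hc Y lam htop hY)
      have hext2 : Ext (Z.sub (LinearMap.ker tZ) hsub) Z ((nab c K lam).hom (wdX X Y i lam))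
          (LinearMap.ker tZ).subtype tZ := by
        refine ⟨fun g v => rfl, tZeqv, Subtype.val_injective, tZsurj, ?_⟩
        exact Submodule.range_subtype _
      exact good_ext hc _ _ _ _ _ hext2 hZ1
        (good_hom (nab c K lam) (wdX X Y i lam) (good_nab hc Y lam htop hY hw))

/-- PROOF.  Strong induction on `finrank Y.V`.  If it is `0`, then `finrank Z.V = 0`, `good_zero`.  Otherwise let `λ` be a top weight with `Y.wt λ ≠ ⊥`
(`exists_top`).  `X1 = kth X`, `Y1 = kth Y` are good (`good_kth`), `finrank Y1 < finrank Y`.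
`thetaX` factors through `p` (`thetaX_i`, `h.ex`, `h.surj`): `tZ : Z.V → Hom(wdX, nab λ)`, equivariant and onto.
`Z1 := Z.sub (ker tZ)`; `p` maps `Y1` onto `Z1`: for `z = p y ∈ ker tZ` we have `y ∈ ker thetaX = ker theta_Y ⊔ range i` (`ker_thetaX`), so `z = p y1`.
`Ext X1 Y1 Z1` (restrictions of `i` and `p`; exactness: `y1 ∈ Y1`, `p y1 = 0` ⇒ `y1 = i x`, `x ∈ X1` by `ker_theta_i`).  By induction `Z1` is good.
`Ext Z1 Z (Hom(wdX, nab λ))`, `nab λ` is good (`good_nab`), so `Hom(wdX, nab λ)` is good (`good_hom`), and `Z` is good (`good_ext`). -/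
theorem T6 (hc : Monotone c) (X Y Z : PRep c K) (i : X.V →ₗ[K] Y.V) (p : Y.V →ₗ[K] Z.V)
    (h : Ext X Y Z i p) (hX : Good X) (hY : Good Y) : Good Z :=
  T6b_aux hc _ X Y Z i p (Nat.lt_succ_self _) h hX hY

/-- lifting: PROOF.  `Z` is good (`T6`), so `chi Y = finrank Y = finrank X + finrank Z = chi X + chi Z`; `chi_ext_eq`. -/
theorem lift_hs (hc : Monotone c) (X Y Z : PRep c K) (i : X.V →ₗ[K] Y.V) (p : Y.V →ₗ[K] Z.V)
    (h : Ext X Y Z i p) (hX : Good X) (hY : Good Y) (κ : Fin m → ℕ) (z : Z.V)
    (hz : z ∈ Z.hs κ) : ∃ y ∈ Y.hs κ, p y = z := by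
  have hZ := T6 hc X Y Z i p h hX hY
  refine chi_ext_eq hc X Y Z i p h ?_ κ z hz
  have h1 := LinearMap.finrank_range_add_finrank_ker p
  rw [LinearMap.range_eq_top.2 h.surj, finrank_top, ← h.ex,
    LinearMap.finrank_range_of_inj h.inj] at h1
  have h2 : (Module.finrank K X.V : ℤ) = chi X := hX
  have h3 : (Module.finrank K Y.V : ℤ) = chi Y := hY
  have h4 : (Module.finrank K Z.V : ℤ) = chi Z := hZ
  rw [← h2, ← h3, ← h4]
  omega

end Pool.PI34.A5
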