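import Pool.Agent.LibPI34.A5_Y2
import Pool.Agent.LibPI34.A5_T6b

/-! PI34, block A5, file GL: good for `Mat_2m` implies good for `Blk c` (along `g ↦ g ⊕ g`). -/

set_option autoImplicit false

namespace Pool.PI34.A5

open Finset Matrix

variable {m : ℕ} {K : Type} [Field K] [Infinite K]

/-- `Dom` for a top weight: if `M.wt λ ≠ ⊥`, `IsTop M λ` then `λ` is dominant (`top_lo`: `wt λ = hs λ`, `hs_nondom`) -/
theorem top_dom {c : Fin m → ℕ} (M : PRep c K) (lam : Fin m → ℕ) (h : IsTop M lam)
    (hw : M.wt lam ≠ ⊥) : Dom c lam := by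
  by_contra hd
  apply hw
  rw [eq_bot_iff]
  intro v hv
  have h1 : v ∈ M.hs lam := ⟨hv, fun g hg => top_lo M lam h g hg v hv⟩
  rw [hs_nondom M lam hd] at h1
  exact h1

/-- restriction preserves exact sequences -/
theorem ext_rs (c : Fin m → ℕ) (X Y Z : PRep (c0 (m + m)) K) (i : X.V →ₗ[K] Y.V)
    (p : Y.V →ₗ[K] Z.V) (h : Ext X Y Z i p) : Ext (rs c X) (rs c Y) (rs c Z) i p :=
  ⟨fun g v => h.ei (dbl c K g) v, fun g v => h.ep (dbl c K g) v, h.inj, h.surj, h.ex⟩

/-- the weights of the kernel of `theta` -/
theorem kth_wt {c : Fin m → ℕ} (M : PRep c K) (lam : Fin m → ℕ) (h : IsTop M lam)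
    (κ : Fin m → ℕ) (hκ : (kth M lam h).wt κ ≠ ⊥) : M.wt κ ≠ ⊥ ∧ κ ≠ lam := by
  refine ⟨wt_sub (kth M lam h) M (LinearMap.ker (theta M lam h)).subtype
    (fun g v => rfl) (Submodule.injective_subtype _) κ hκ, ?_⟩
  rintro rfl
  apply hκ
  rw [eq_bot_iff]
  intro v hv
  have h1 : (show ↥(LinearMap.ker (theta M κ h)) from v).1 ∈ M.wt κ :=
    fun t => congrArg Subtype.val (hv t)
  have h2 := ker_theta_wt M κ h _ (show ↥(LinearMap.ker (theta M κ h)) from v).2 h1
  exact (Submodule.mem_bot K).2 (Subtype.ext h2)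

theorem rs_hom (c : Fin m → ℕ) (N : PRep (c0 (m + m)) K) (V : Type) [AddCommGroup V] [Module K V]
    [FiniteDimensional K V] : rs c (N.hom V) = (rs c N).hom V := by
  unfold rs PRep.hom PRep.res
  rfl

/-- PROOF.  `P(n)`: the statement for all good `M` all whose weights have height `< n`.  Induction on `n`.
First: if `λ` is dominant with `ht λ < n` then `rs c (nab λ)` is good: take `Y` from `exists_Y`; `IsTop Y λ`; `kth Y` is good (`good_kth`) with weights of height
`< ht λ` (a weight of `kth Y` is a weight of `Y` (`wt_sub`) and it is not `λ` (`ker_theta_wt`)), so `rs c (kth Y)` is good by `P(ht λ)`; `rs c Y` is good; by `T6` for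
`ext_rs (ext_theta ..)` `rs c (nab.hom (wd λ)) = (rs c nab).hom (wd λ)` is good and `good_of_hom` (`finrank (wd λ) = finrank (wt λ) > 0`).
Then for `M` good with weights of height `< n`: induction on `finrank M.V`; if `0` use `good_zero`; otherwise a top weight `λ` (`exists_top`), `top_dom`,
`rs c (kth M)` good by induction (`finrank_kth_lt`), `rs c (nab.hom ..)` good (`good_hom`), `good_ext` for `ext_rs (ext_theta ..)`. -/
theorem good_rs (c : Fin m → ℕ) (hc : Monotone c) (M : PRep (c0 (m + m)) K) (hM : Good M) :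
    Good (rs c M) := by
  have hc0 : Monotone (c0 (m + m)) := monotone_const
  have P : ∀ n : ℕ, ∀ M : PRep (c0 (m + m)) K, Good M → (∀ κ, M.wt κ ≠ ⊥ → ht κ < n) →
      Good (rs c M) := by
    intro n
    induction n using Nat.strong_induction_on with
    | _ n ihn =>
      have first : ∀ lam : Fin (m + m) → ℕ, Dom (c0 (m + m)) lam → ht lam < n →
          Good (rs c (nab (c0 (m + m)) K lam)) := by
        intro lam hl hn
        obtain ⟨Y, hY1, hY2, hY3, hY4⟩ := exists_Y (K := K) c hc lam hl
        have hT : IsTop Y lam := by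
          intro κ hκ
          by_cases e : κ = lam
          · rw [e]
          · exact (hY4 κ hκ e).le
        have g1 : Good (kth Y lam hT) := good_kth hc0 Y lam hT hY1
        have g2 : Good (rs c (kth Y lam hT)) := by
          refine ihn (ht lam) hn _ g1 fun κ hκ => ?_
          obtain ⟨a, b⟩ := kth_wt Y lam hT κ hκ
          exact hY4 κ a b
        have g3 : Good (rs c ((nab (c0 (m + m)) K lam).hom (Y.wd lam))) :=
          T6 hc _ _ _ _ _ (ext_rs c _ _ _ _ _ (ext_theta hc0 Y lam hT hY1)) g2 hY2
        have hV : 0 < Module.finrank K (Y.wd lam) := by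
          rw [finrank_wd]
          exact Submodule.one_le_finrank_iff.2 hY3
        rw [rs_hom] at g3
        exact good_of_hom (rs c (nab (c0 (m + m)) K lam)) (Y.wd lam) hV g3
      have second : ∀ k : ℕ, ∀ M : PRep (c0 (m + m)) K, Module.finrank K M.V = k → Good M →
          (∀ κ, M.wt κ ≠ ⊥ → ht κ < n) → Good (rs c M) := by
        intro k
        induction k using Nat.strong_induction_on with
        | _ k ihk =>
          intro M hk hM hw
          rcases Nat.eq_zero_or_pos k with h0 | h0
          · exact good_zero (rs c M) (hk.trans h0)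
          · obtain ⟨lam, hT, hl⟩ := exists_top M (hk ▸ h0)
            have hd := top_dom M lam hT hl
            have g1 : Good (kth M lam hT) := good_kth hc0 M lam hT hM
            have g2 : Good (rs c (kth M lam hT)) :=
              ihk _ (hk ▸ finrank_kth_lt M lam hT hl) _ rfl g1
                fun κ hκ => hw κ (kth_wt M lam hT κ hκ).1
            have g3 : Good (rs c ((nab (c0 (m + m)) K lam).hom (M.wd lam))) := by
              rw [rs_hom]
              exact good_hom (rs c (nab (c0 (m + m)) K lam)) (M.wd lam) (first lam hd (hw lam hl))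
            exact good_ext hc _ _ _ _ _ (ext_rs c _ _ _ _ _ (ext_theta hc0 M lam hT hM)) g2 g3
      intro M hM hw
      exact second _ M rfl hM hw
  refine P (M.W.sup ht + 1) M hM fun κ hκ => ?_
  have hκW : κ ∈ M.W := by
    by_contra h
    exact hκ (wt_bot M κ h)
  exact Nat.lt_succ_of_le (Finset.le_sup hκW)

end Pool.PI34.A5
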