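import Pool.Agent.LibPI34.A5_Den

/-! PI34, block A5, file De2: density of `Up T Lo`. -/

set_option autoImplicit false

namespace Pool.PI34.A5

open Finset Matrix

variable {K : Type} [Field K]

/-- `Z ⊕ 1` -/
def embM {m : ℕ} {K : Type} [Field K] (Z : Matrix (Fin m) (Fin m) K) :
    Matrix (Fin (m + 1)) (Fin (m + 1)) K :=
  Matrix.of fun i j => Fin.lastCases (motive := fun _ => K)
      (Fin.lastCases (motive := fun _ => K) 1 (fun _ => 0) j)
      (fun i' => Fin.lastCases (motive := fun _ => K) 0 (fun j' => Z i' j') j) i

section embM

variable {m : ℕ} (Z W : Matrix (Fin m) (Fin m) K)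

@[simp] theorem embM_ll : embM Z (Fin.last m) (Fin.last m) = 1 := by simp [embM]

@[simp] theorem embM_lc (j : Fin m) : embM Z (Fin.last m) j.castSucc = 0 := by simp [embM]

@[simp] theorem embM_cl (i : Fin m) : embM Z i.castSucc (Fin.last m) = 0 := by simp [embM]

@[simp] theorem embM_cc (i j : Fin m) : embM Z i.castSucc j.castSucc = Z i j := by simp [embM]

theorem embM_one : embM (1 : Matrix (Fin m) (Fin m) K) = 1 := by
  ext i j
  induction i using Fin.lastCases with
  | last =>
    induction j using Fin.lastCases with
    | last => simp
    | cast j => simp [Matrix.one_apply, (Fin.castSucc_lt_last j).ne']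
  | cast i =>
    induction j using Fin.lastCases with
    | last => simp [Matrix.one_apply, (Fin.castSucc_lt_last i).ne]
    | cast j => simp [Matrix.one_apply, Fin.castSucc_inj]

theorem embM_mul : embM (Z * W) = embM Z * embM W := by
  ext i j
  rw [Matrix.mul_apply, Fin.sum_univ_castSucc]
  induction i using Fin.lastCases with
  | last =>
    induction j using Fin.lastCases with
    | last => simp
    | cast j => simp
  | cast i =>
    induction j using Fin.lastCases with
    | last => simp
    | cast j => simp [Matrix.mul_apply]

end embM

/-- the embedding `Z ↦ Z ⊕ 1` -/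
def emb {m : ℕ} (c : Fin (m + 1) → ℕ) (K : Type) [Field K] :
    Blk (fun i => c i.castSucc) K →* Blk c K where
  toFun Z := ⟨embM Z.1, by
    intro i j h
    induction i using Fin.lastCases with
    | last =>
      induction j using Fin.lastCases with
      | last => exact absurd rfl h
      | cast j => simp
    | cast i =>
      induction j using Fin.lastCases with
      | last => simp
      | cast j => simpa using Z.2 i j h⟩
  map_one' := Subtype.ext embM_one
  map_mul' Z W := Subtype.ext (embM_mul Z.1 W.1)

theorem emb_poly {m : ℕ} (c : Fin (m + 1) → ℕ) (K : Type) [Field K] (ij) :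
    (fun Z => crd c K (emb c K Z) ij) ∈ PolyFn (crd (fun i => c i.castSucc) K) := by
  obtain ⟨i, j⟩ := ij
  have key : ∀ Z, crd c K (emb c K Z) (i, j) = embM Z.1 i j := fun Z => rfl
  simp only [key]
  induction i using Fin.lastCases with
  | last =>
    induction j using Fin.lastCases with
    | last => simpa using const_mem (crd (fun i => c i.castSucc) K) (1 : K)
    | cast j => simpa using const_mem (crd (fun i => c i.castSucc) K) (0 : K)
  | cast i =>
    induction j using Fin.lastCases with
    | last => simpa using const_mem (crd (fun i => c i.castSucc) K) (0 : K)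
    | cast j =>
      simp only [embM_cc]
      exact coord_mem (crd (fun i => c i.castSucc) K) (i, j)

section aux

variable {m : ℕ}

/-- `[1, b; 0, 1]` -/
def upM (b : Fin m → K) : Matrix (Fin (m + 1)) (Fin (m + 1)) K :=
  Matrix.of fun i j => Fin.lastCases (motive := fun _ => K)
      (Fin.lastCases (motive := fun _ => K) 1 (fun _ => 0) j)
      (fun i' => Fin.lastCases (motive := fun _ => K) (b i') (fun j' => if i' = j' then 1 else 0) j) i

@[simp] theorem upM_ll (b : Fin m → K) : upM b (Fin.last m) (Fin.last m) = 1 := by simp [upM]

@[simp] theorem upM_lc (b : Fin m → K) (j : Fin m) : upM b (Fin.last m) j.castSucc = 0 := by simp [upM]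

@[simp] theorem upM_cl (b : Fin m → K) (i : Fin m) : upM b i.castSucc (Fin.last m) = b i := by simp [upM]

@[simp] theorem upM_cc (b : Fin m → K) (i j : Fin m) :
    upM b i.castSucc j.castSucc = if i = j then 1 else 0 := by simp [upM]

/-- `[1, 0; r, 1]` -/
def loM (r : Fin m → K) : Matrix (Fin (m + 1)) (Fin (m + 1)) K :=
  Matrix.of fun i j => Fin.lastCases (motive := fun _ => K)
      (Fin.lastCases (motive := fun _ => K) 1 (fun j' => r j') j)
      (fun i' => Fin.lastCases (motive := fun _ => K) 0 (fun j' => if i' = j' then 1 else 0) j) i

@[simp] theorem loM_ll (b : Fin m → K) : loM b (Fin.last m) (Fin.last m) = 1 := by simp [loM]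

@[simp] theorem loM_lc (b : Fin m → K) (j : Fin m) : loM b (Fin.last m) j.castSucc = b j := by simp [loM]

@[simp] theorem loM_cl (b : Fin m → K) (i : Fin m) : loM b i.castSucc (Fin.last m) = 0 := by simp [loM]

@[simp] theorem loM_cc (b : Fin m → K) (i j : Fin m) :
    loM b i.castSucc j.castSucc = if i = j then 1 else 0 := by simp [loM]

theorem upM_mul_c (b : Fin m → K) (X : Matrix (Fin (m + 1)) (Fin (m + 1)) K) (i : Fin m) (j) :
    (upM b * X) i.castSucc j = X i.castSucc j + b i * X (Fin.last m) j := by
  rw [Matrix.mul_apply, Fin.sum_univ_castSucc]
  simp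

theorem upM_mul_l (b : Fin m → K) (X : Matrix (Fin (m + 1)) (Fin (m + 1)) K) (j) :
    (upM b * X) (Fin.last m) j = X (Fin.last m) j := by
  rw [Matrix.mul_apply, Fin.sum_univ_castSucc]
  simp

theorem mul_loM_c (r : Fin m → K) (X : Matrix (Fin (m + 1)) (Fin (m + 1)) K) (i) (j : Fin m) :
    (X * loM r) i j.castSucc = X i j.castSucc + X i (Fin.last m) * r j := by
  rw [Matrix.mul_apply, Fin.sum_univ_castSucc]
  simp

theorem mul_loM_l (r : Fin m → K) (X : Matrix (Fin (m + 1)) (Fin (m + 1)) K) (i) :
    (X * loM r) i (Fin.last m) = X i (Fin.last m) := by
  rw [Matrix.mul_apply, Fin.sum_univ_castSucc]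
  simp

theorem IsUp.mul {c : Fin m → ℕ} {u v : Blk c K} (hu : IsUp u) (hv : IsUp v) : IsUp (u * v) := by
  constructor
  · intro i
    show (u.1 * v.1) i i = 1
    rw [Matrix.mul_apply, Finset.sum_eq_single i, hu.1, hv.1, one_mul]
    · intro j _ hj
      rcases lt_or_gt_of_ne hj with h | h
      · rw [hu.2 i j h, zero_mul]
      · rw [hv.2 j i h, mul_zero]
    · intro h; exact absurd (mem_univ _) h
  · intro i j hij
    show (u.1 * v.1) i j = 0
    rw [Matrix.mul_apply]
    refine Finset.sum_eq_zero fun l _ => ?_
    rcases lt_or_ge l i with h | h
    · rw [hu.2 i l h, zero_mul]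
    · rw [hv.2 l j (lt_of_lt_of_le hij h), mul_zero]

theorem IsLo.mul {c : Fin m → ℕ} {u v : Blk c K} (hu : IsLo u) (hv : IsLo v) : IsLo (u * v) := by
  constructor
  · intro i
    show (u.1 * v.1) i i = 1
    rw [Matrix.mul_apply, Finset.sum_eq_single i, hu.1, hv.1, one_mul]
    · intro j _ hj
      rcases lt_or_gt_of_ne hj with h | h
      · rw [hv.2 j i h, mul_zero]
      · rw [hu.2 i j h, zero_mul]
    · intro h; exact absurd (mem_univ _) h
  · intro i j hij
    show (u.1 * v.1) i j = 0
    rw [Matrix.mul_apply]
    refine Finset.sum_eq_zero fun l _ => ?_
    rcases lt_or_ge i l with h | h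
    · rw [hu.2 i l h, zero_mul]
    · rw [hv.2 l j (lt_of_le_of_lt h hij), mul_zero]

theorem IsUp.emb {c : Fin (m + 1) → ℕ} {u : Blk (fun i => c i.castSucc) K} (hu : IsUp u) :
    IsUp (emb c K u) := by
  constructor
  · intro i
    show embM u.1 i i = 1
    induction i using Fin.lastCases with
    | last => simp
    | cast i => rw [embM_cc]; exact hu.1 i
  · intro i j hij
    show embM u.1 i j = 0
    induction i using Fin.lastCases with
    | last =>
      induction j using Fin.lastCases with
      | last => exact absurd hij (lt_irrefl _)
      | cast j => simp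
    | cast i =>
      induction j using Fin.lastCases with
      | last => simp
      | cast j => rw [embM_cc]; exact hu.2 i j (Fin.castSucc_lt_castSucc_iff.1 hij)

theorem IsLo.emb {c : Fin (m + 1) → ℕ} {u : Blk (fun i => c i.castSucc) K} (hu : IsLo u) :
    IsLo (emb c K u) := by
  constructor
  · intro i
    show embM u.1 i i = 1
    induction i using Fin.lastCases with
    | last => simp
    | cast i => rw [embM_cc]; exact hu.1 i
  · intro i j hij
    show embM u.1 i j = 0
    induction i using Fin.lastCases with
    | last =>
      induction j using Fin.lastCases with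
      | last => exact absurd hij (lt_irrefl _)
      | cast j => simp
    | cast i =>
      induction j using Fin.lastCases with
      | last => simp
      | cast j => rw [embM_cc]; exact hu.2 i j (Fin.castSucc_lt_castSucc_iff.1 hij)

end aux

/-- PROOF.  Induction on `m`.  `m = 0`: `Blk` has one element `1 = 1 * dg t * 1`.  Step: let `Z : Blk c K` with `z = Z last last ≠ 0`,
`b`, `r` the last column and the last row (supported on the color class of `last`) and `D` the upper left part.  Then
`Z = [1, b/z; 0, 1] * [D - b r / z, 0; 0, z] * [1, 0; r/z, 1]`, and `D - b r / z` lies in `Blk (c ∘ castSucc)`.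
For fixed `b, r, z` the function `D' ↦ F ([1, b/z; 0, 1] * (emb D' * dg (1,..,1,z)) * [1, 0; r/z, 1])` is polynomial in `D'` and vanishes at
`D' = u' * dg t' * g'` (because `[1, b/z; 0, 1] * emb u'` is `IsUp`, `emb (dg t') * dg (1,..,1,z)` is diagonal, and
`emb g' * [1, 0; r/z, 1]` is `IsLo`; `emb` commutes with `dg (1,..,1,z)`), hence it is zero by induction, so `F Z = 0`.
Thus `F Z * Z last last = 0` for all `Z`, and `blk_mul_zero` gives `F = 0`. -/
theorem blk_dense [Infinite K] {m : ℕ} (c : Fin m → ℕ) (F : Blk c K → K)
    (hF : F ∈ PolyFn (crd c K))
    (h : ∀ (u g : Blk c K) (t : Fin m → K), IsUp u → IsLo g → F (u * dg c t * g) = 0)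
    (Z : Blk c K) : F Z = 0 := by
  induction m with
  | zero =>
    have e : Z = 1 * dg c (fun _ => 0) * 1 := Subtype.ext (by ext i; exact i.elim0)
    rw [e]
    exact h 1 1 _ ⟨fun i => i.elim0, fun i => i.elim0⟩ ⟨fun i => i.elim0, fun i => i.elim0⟩
  | succ m ih =>
    refine blk_mul_zero F (fun Z => Z.1 (Fin.last m) (Fin.last m)) hF
      (coord_mem (crd c K) (Fin.last m, Fin.last m)) ?_ ⟨1, by simp⟩ Z
    intro Z
    by_cases hz : Z.1 (Fin.last m) (Fin.last m) = 0
    · rw [hz, mul_zero]
    set z := Z.1 (Fin.last m) (Fin.last m) with hzdef
    -- the three factors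
    let U : Blk c K := ⟨upM fun i => Z.1 i.castSucc (Fin.last m) / z, by
      intro i j hij
      induction i using Fin.lastCases with
      | last =>
        induction j using Fin.lastCases with
        | last => exact absurd rfl hij
        | cast j => simp
      | cast i =>
        induction j using Fin.lastCases with
        | last => rw [upM_cl, Z.2 _ _ hij, zero_div]
        | cast j =>
          rw [upM_cc, if_neg]
          rintro rfl
          exact hij rfl⟩
    let G : Blk c K := ⟨loM fun j => Z.1 (Fin.last m) j.castSucc / z, by
      intro i j hij
      induction i using Fin.lastCases with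
      | last =>
        induction j using Fin.lastCases with
        | last => exact absurd rfl hij
        | cast j => rw [loM_lc, Z.2 _ _ hij, zero_div]
      | cast i =>
        induction j using Fin.lastCases with
        | last => simp
        | cast j =>
          rw [loM_cc, if_neg]
          rintro rfl
          exact hij rfl⟩
    let D : Blk (fun i => c i.castSucc) K := ⟨Matrix.of fun i j => Z.1 i.castSucc j.castSucc -
        Z.1 i.castSucc (Fin.last m) * Z.1 (Fin.last m) j.castSucc / z, by
      intro i j hij
      rw [Matrix.of_apply, Z.2 _ _ hij]
      by_cases h1 : c i.castSucc = c (Fin.last m)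
      · rw [Z.2 (Fin.last m) j.castSucc (fun h2 => hij (h1.trans h2))]
        simp
      · rw [Z.2 i.castSucc (Fin.last m) h1]
        simp⟩
    let tz : Fin (m + 1) → K := Fin.snoc (fun _ => 1) z
    have hU : IsUp U := by
      constructor
      · intro i
        show upM _ i i = 1
        induction i using Fin.lastCases with
        | last => simp
        | cast i => simp
      · intro i j hij
        show upM _ i j = 0
        induction i using Fin.lastCases with
        | last =>
          induction j using Fin.lastCases with
          | last => exact absurd hij (lt_irrefl _)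
          | cast j => simp
        | cast i =>
          induction j using Fin.lastCases with
          | last => exact absurd hij (not_lt.2 (Fin.le_last _))
          | cast j =>
            rw [upM_cc, if_neg]
            rintro rfl
            exact lt_irrefl _ hij
    have hG : IsLo G := by
      constructor
      · intro i
        show loM _ i i = 1
        induction i using Fin.lastCases with
        | last => simp
        | cast i => simp
      · intro i j hij
        show loM _ i j = 0
        induction i using Fin.lastCases with
        | last => exact absurd hij (not_lt.2 (Fin.le_last _))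
        | cast i =>
          induction j using Fin.lastCases with
          | last => simp
          | cast j =>
            rw [loM_cc, if_neg]
            rintro rfl
            exact lt_irrefl _ hij
    have hZ : Z = U * (emb c K D * dg c tz) * G := by
      apply Subtype.ext
      show Z.1 = upM _ * (embM D.1 * Matrix.diagonal tz) * loM _
      ext i j
      induction i using Fin.lastCases with
      | last =>
        induction j using Fin.lastCases with
        | last =>
          rw [mul_loM_l, upM_mul_l, Matrix.mul_diagonal]
          simp [tz, hzdef]
        | cast j =>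
          rw [mul_loM_c, upM_mul_l, upM_mul_l, Matrix.mul_diagonal, Matrix.mul_diagonal]
          simp only [embM_lc, embM_ll, tz, Fin.snoc_last, Fin.snoc_castSucc]
          field_simp
          ring
      | cast i =>
        induction j using Fin.lastCases with
        | last =>
          rw [mul_loM_l, upM_mul_c, Matrix.mul_diagonal, Matrix.mul_diagonal]
          simp only [embM_cl, embM_ll, tz, Fin.snoc_last]
          field_simp
          ring
        | cast j =>
          rw [mul_loM_c, upM_mul_c, upM_mul_c, Matrix.mul_diagonal, Matrix.mul_diagonal,
            Matrix.mul_diagonal, Matrix.mul_diagonal]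
          simp only [embM_cl, embM_cc, embM_lc, embM_ll, tz, Fin.snoc_last, Fin.snoc_castSucc, D,
            Matrix.of_apply]
          field_simp
          ring
    have hpoly : ∀ ij, (fun X : Blk (fun i => c i.castSucc) K =>
        crd c K (U * (emb c K X * dg c tz) * G) ij) ∈ PolyFn (crd (fun i => c i.castSucc) K) := by
      intro ij
      have h1 : ∀ ij, (fun X : Blk (fun i => c i.castSucc) K =>
          crd c K (emb c K X * dg c tz) ij) ∈ PolyFn (crd (fun i => c i.castSucc) K) := fun ij =>
        comp_mem (crd c K) _ (fun X => emb c K X) (emb_poly c K) _ (mul_right_poly (dg c tz) ij)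
      have h2 : ∀ ij, (fun X : Blk (fun i => c i.castSucc) K =>
          crd c K (U * (emb c K X * dg c tz)) ij) ∈ PolyFn (crd (fun i => c i.castSucc) K) := fun ij =>
        comp_mem (crd c K) _ (fun X => emb c K X * dg c tz) h1 _ (mul_left_poly U ij)
      exact comp_mem (crd c K) _ (fun X => U * (emb c K X * dg c tz)) h2 _ (mul_right_poly G ij)
    have hH := ih (fun i => c i.castSucc) (fun X => F (U * (emb c K X * dg c tz) * G))
      (comp_mem (crd c K) _ _ hpoly F hF) ?_ D
    · rw [hZ]
      have h3 : F (U * (emb c K D * dg c tz) * G) = 0 := hH
      rw [h3, zero_mul]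
    · intro u g t hu hg
      have e : U * (emb c K (u * dg (fun i => c i.castSucc) t * g) * dg c tz) * G =
          (U * emb c K u) * dg c (Fin.snoc t z) * (emb c K g * G) := by
        have e1 : emb c K g * dg c tz = dg c tz * emb c K g := by
          apply Subtype.ext
          show embM g.1 * Matrix.diagonal tz = Matrix.diagonal tz * embM g.1
          ext i j
          rw [Matrix.mul_diagonal, Matrix.diagonal_mul]
          induction i using Fin.lastCases with
          | last =>
            induction j using Fin.lastCases with
            | last => simp
            | cast j => simp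
          | cast i =>
            induction j using Fin.lastCases with
            | last => simp
            | cast j => simp [tz]
        have e2 : emb c K (dg (fun i => c i.castSucc) t) * dg c tz = dg c (Fin.snoc t z) := by
          apply Subtype.ext
          show embM (Matrix.diagonal t) * Matrix.diagonal tz = Matrix.diagonal (Fin.snoc t z)
          ext i j
          rw [Matrix.mul_diagonal]
          induction i using Fin.lastCases with
          | last =>
            induction j using Fin.lastCases with
            | last => simp [tz]
            | cast j => simp [Matrix.diagonal_apply, (Fin.castSucc_lt_last j).ne']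
          | cast i =>
            induction j using Fin.lastCases with
            | last => simp [Matrix.diagonal_apply, (Fin.castSucc_lt_last i).ne]
            | cast j => simp [tz, Matrix.diagonal_apply, Fin.castSucc_inj]
        rw [map_mul, map_mul, mul_assoc (emb c K u * _), e1, ← e2]
        simp only [mul_assoc]
      show F (U * (emb c K (u * dg (fun i => c i.castSucc) t * g) * dg c tz) * G) = 0
      rw [e]
      exact h _ _ _ (hU.mul hu.emb) (hg.emb.mul hG)

end Pool.PI34.A5
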