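import Pool.Agent.LibPI34.A5_Lau
import Pool.Agent.LibPI34.A5_De2

/-! PI34, block A5, file Sem: Lo-invariant vectors of constant weight are semi-invariant. -/

set_option autoImplicit false

namespace Pool.PI34.A5

open Finset Matrix

variable {m : ℕ} {c : Fin m → ℕ} {K : Type} [Field K]

/-- the matrices which fix `v` -/
def fixM (M : PRep c K) (v : M.V) : Submonoid (Matrix (Fin m) (Fin m) K) where
  carrier := {Z | ∃ h : Z ∈ Blk c K, M.ρ ⟨Z, h⟩ v = v}
  one_mem' := ⟨(Blk c K).one_mem, by
    change M.ρ 1 v = v
    rw [map_one]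
    rfl⟩
  mul_mem' := by
    rintro Z W ⟨h1, h2⟩ ⟨k1, k2⟩
    refine ⟨(Blk c K).mul_mem h1 k1, ?_⟩
    change M.ρ (⟨Z, h1⟩ * ⟨W, k1⟩) v = v
    rw [map_mul]
    change M.ρ ⟨Z, h1⟩ (M.ρ ⟨W, k1⟩ v) = v
    rw [k2, h2]

theorem col_mem (S : Submonoid (Matrix (Fin m) (Fin m) K)) (q : Fin m) (w : Fin m → K)
    (s : Finset (Fin m)) (hs : ∀ i ∈ s, i < q)
    (h : ∀ i ∈ s, 1 + Matrix.single i q (w i) ∈ S) :
    1 + ∑ i ∈ s, Matrix.single i q (w i) ∈ S := by
  induction s using Finset.induction_on with
  | empty => simp
  | insert a s ha ih =>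
    have h1 := ih (fun i hi => hs i (Finset.mem_insert_of_mem hi))
      (fun i hi => h i (Finset.mem_insert_of_mem hi))
    have h2 := h a (Finset.mem_insert_self a s)
    have h3 := S.mul_mem h2 h1
    have e : (1 + Matrix.single a q (w a)) * (1 + ∑ i ∈ s, Matrix.single i q (w i)) =
        1 + ∑ i ∈ insert a s, Matrix.single i q (w i) := by
      have z : Matrix.single a q (w a) * ∑ i ∈ s, Matrix.single i q (w i) = 0 := by
        rw [Finset.mul_sum]
        refine Finset.sum_eq_zero fun i hi => ?_
        exact Matrix.single_mul_single_of_ne _ _ _ _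
          (hs i (Finset.mem_insert_of_mem hi)).ne' _
      rw [Finset.sum_insert ha, mul_add, mul_one, add_mul, one_mul, z]
      abel
    rwa [e] at h3

/-- PROOF.  For `q ≤ m` let `u_q` be the matrix with the columns `< q` of `u` and the columns `≥ q` of the identity.  `u_0 = 1`, `u_m = u`,
`u_(q+1) = E_q * u_q` with `E_q` = identity with the column `q` replaced by the column `q` of `u`
`= ∏_(i < q, c i = c q) el i q (u i q)` (in any order).  So `u` is a product of elementary matrices `el i j x`, `i < j`. -/
theorem up_fix (M : PRep c K) (v : M.V)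
    (h : ∀ (i j : Fin m) (_ : i < j) (hc : c i = c j) (x : K), M.ρ (el c i j hc x) v = v)
    (u : Blk c K) (hu : IsUp u) : M.ρ u v = v := by
  set S := fixM M v with hS
  have key : ∀ q : ℕ, q ≤ m → (Matrix.of fun i j : Fin m =>
      if (j : ℕ) < q then u.1 i j else (1 : Matrix (Fin m) (Fin m) K) i j) ∈ S := by
    intro q
    induction q with
    | zero =>
      intro _
      have e : (Matrix.of fun i j : Fin m =>
          if (j : ℕ) < 0 then u.1 i j else (1 : Matrix (Fin m) (Fin m) K) i j) = 1 := by
        ext i j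
        simp
      rw [e]
      exact S.one_mem
    | succ q ih =>
      intro hq
      have h1 := ih (by omega)
      set Q : Fin m := ⟨q, by omega⟩ with hQ
      have h2 : 1 + ∑ i ∈ Finset.univ.filter (fun i => i < Q ∧ c i = c Q),
          Matrix.single i Q (u.1 i Q) ∈ S := by
        refine col_mem S Q (fun i => u.1 i Q) _ (fun i hi => (Finset.mem_filter.1 hi).2.1)
          fun i hi => ?_
        obtain ⟨h3, h4⟩ := (Finset.mem_filter.1 hi).2
        exact ⟨(el c i Q h4 (u.1 i Q)).2, h i Q h3 h4 _⟩
      have h3 := S.mul_mem h2 h1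
      have e : (1 + ∑ i ∈ Finset.univ.filter (fun i => i < Q ∧ c i = c Q),
          Matrix.single i Q (u.1 i Q)) * (Matrix.of fun i j : Fin m =>
          if (j : ℕ) < q then u.1 i j else (1 : Matrix (Fin m) (Fin m) K) i j) =
          Matrix.of fun i j : Fin m =>
          if (j : ℕ) < q + 1 then u.1 i j else (1 : Matrix (Fin m) (Fin m) K) i j := by
        ext i j
        rw [add_mul, one_mul, Matrix.add_apply, Finset.sum_mul, Matrix.sum_apply]
        have e1 : ∀ a ∈ Finset.univ.filter (fun i => i < Q ∧ c i = c Q),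
            (Matrix.single a Q (u.1 a Q) * (Matrix.of fun i j : Fin m =>
              if (j : ℕ) < q then u.1 i j else (1 : Matrix (Fin m) (Fin m) K) i j)) i j =
            if j = Q then (if a = i then u.1 a Q else 0) else 0 := by
          intro a _
          rw [Matrix.mul_apply, Finset.sum_eq_single Q]
          · rw [Matrix.of_apply, Matrix.single_apply]
            by_cases hj : j = Q
            · subst hj
              simp [hQ]
            · rw [if_neg hj]
              have : (if (j : ℕ) < q then u.1 Q j else (1 : Matrix (Fin m) (Fin m) K) Q j) = 0 := by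
                split_ifs with h5
                · exact hu.2 Q j (Fin.lt_def.2 h5)
                · exact Matrix.one_apply_ne fun e => hj e.symm
              rw [this, mul_zero]
          · intro b _ hb
            rw [Matrix.single_apply, if_neg (fun e => hb e.2.symm), zero_mul]
          · intro hb
            exact absurd (Finset.mem_univ _) hb
        rw [Finset.sum_congr rfl e1, Matrix.of_apply, Matrix.of_apply]
        by_cases hj : j = Q
        · subst hj
          simp only [if_true]
          rw [Finset.sum_ite_eq' (Finset.univ.filter (fun i => i < Q ∧ c i = c Q)) i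
            (fun a => u.1 a Q)]
          have hq1 : ¬ ((Q : Fin m) : ℕ) < q := by simp [hQ]
          have hq2 : ((Q : Fin m) : ℕ) < q + 1 := by simp [hQ]
          rw [if_neg hq1, if_pos hq2]
          by_cases hi : i = Q
          · subst hi
            rw [if_neg (by simp), Matrix.one_apply_eq, hu.1, add_zero]
          · rw [Matrix.one_apply_ne hi, zero_add]
            split_ifs with h5
            · rfl
            · rcases lt_or_gt_of_ne hi with h6 | h6
              · by_cases h7 : c i = c Q
                · exact absurd (Finset.mem_filter.2 ⟨Finset.mem_univ _, h6, h7⟩) h5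
                · exact (u.2 i Q h7).symm
              · exact (hu.2 i Q h6).symm
        · simp only [if_neg hj, Finset.sum_const_zero, add_zero]
          have hne : (j : ℕ) ≠ q := fun e => hj (Fin.ext e)
          by_cases h5 : (j : ℕ) < q
          · rw [if_pos h5, if_pos (by omega)]
          · rw [if_neg h5, if_neg (by omega)]
      rwa [e] at h3
  have h1 := key m le_rfl
  have e : (Matrix.of fun i j : Fin m =>
      if (j : ℕ) < m then u.1 i j else (1 : Matrix (Fin m) (Fin m) K) i j) = u.1 := by
    ext i j
    simp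
  rw [e] at h1
  exact h1.2

theorem det_mem_poly : (fun Z : Blk c K => Z.1.det) ∈ PolyFn (crd c K) := by
  have e : (fun Z : Blk c K => Z.1.det) = ∑ σ : Equiv.Perm (Fin m),
      (fun _ : Blk c K => ((Equiv.Perm.sign σ : ℤ) : K)) *
        ∏ i : Fin m, fun Z : Blk c K => crd c K Z (σ i, i) := by
    funext Z
    rw [Matrix.det_apply, Finset.sum_apply]
    refine Finset.sum_congr rfl fun σ _ => ?_
    rw [Pi.mul_apply, Finset.prod_apply, Units.smul_def, zsmul_eq_mul]
    rfl
  rw [e]
  refine Subalgebra.sum_mem _ fun σ _ => Subalgebra.mul_mem _ (const_mem _ _) ?_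
  exact Subalgebra.prod_mem _ fun i _ => coord_mem (crd c K) (σ i, i)

theorem det_up (u : Blk c K) (hu : IsUp u) : u.1.det = 1 := by
  rw [Matrix.det_of_isUpperTriangular (fun i j h => hu.2 i j h)]
  exact Finset.prod_eq_one fun i _ => hu.1 i

theorem det_lo (g : Blk c K) (hg : IsLo g) : g.1.det = 1 := by
  rw [Matrix.det_of_isLowerTriangular g.1 (fun i j h => hg.2 i j h)]
  exact Finset.prod_eq_one fun i _ => hg.1 i

/-- PROOF.  `hs_el` and `up_fix`: `ρ(u) v = v` for `u ∈ Up`.  So `φ(ρ(Z) v) = det(Z)^k φ(v)` for `Z = u t g`; `blk_dense`. -/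
theorem semi_const [Infinite K] (M : PRep c K) (k : ℕ) (v : M.V) (hv : v ∈ M.hs (fun _ => k))
    (g : Blk c K) : M.ρ g v = g.1.det ^ k • v := by
  have hup : ∀ u : Blk c K, IsUp u → M.ρ u v = v := fun u hu =>
    up_fix M v (fun i j hij hc x => hs_el M (fun _ => k) v hv i j hij hc rfl x) u hu
  rw [← sub_eq_zero, ← Module.forall_dual_apply_eq_zero_iff K]
  intro φ
  have hF : (fun Z : Blk c K => φ (M.ρ Z v) - φ v * Z.1.det ^ k) ∈ PolyFn (crd c K) := by
    have h1 := M.poly v φ
    have h2 := (PolyFn (crd c K)).mul_mem (const_mem (crd c K) (φ v))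
      ((PolyFn (crd c K)).pow_mem (det_mem_poly (c := c) (K := K)) k)
    exact (PolyFn (crd c K)).sub_mem h1 h2
  have h0 := blk_dense c _ hF (fun u g t hu hg => by
    have e1 : M.ρ (u * dg c t * g) v = tw t (fun _ => k) • v := by
      rw [map_mul, map_mul]
      change M.ρ u (M.ρ (dg c t) (M.ρ g v)) = _
      rw [hv.2 g hg, hv.1 t, map_smul, hup u hu]
    have e2 : (u * dg c t * g).1.det = ∏ i, t i := by
      change (u.1 * Matrix.diagonal t * g.1).det = _
      rw [Matrix.det_mul, Matrix.det_mul, det_up u hu, det_lo g hg, Matrix.det_diagonal, one_mul,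
        mul_one]
    rw [e1, e2, map_smul, smul_eq_mul, tw, Finset.prod_pow, mul_comm, sub_self]) g
  rw [map_sub, map_smul, smul_eq_mul, mul_comm]
  exact h0

end Pool.PI34.A5
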