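import Pool.Agent.LibPI34.A5_C1b
import Pool.Agent.LibPI34.A5_GL
import Pool.Agent.LibPI34.A5_Sem

/-! PI34, block A5, file C2: the lift. -/

set_option autoImplicit false

namespace Pool.PI34.A5

open Finset Matrix

variable {K : Type} [Field K] [Infinite K] {N : ℕ}

omit [Infinite K] in
theorem exists_ev {W : Type} [AddCommGroup W] [Module K W] (w : W) (hw : w ≠ 0) :
    ∃ ev : Module.Dual K W, ev w = 1 := by
  by_contra hcon
  push Not at hcon
  apply hw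
  rw [← Module.forall_dual_apply_eq_zero_iff K]
  intro φ
  by_contra hφ
  apply hcon ((φ w)⁻¹ • φ)
  rw [LinearMap.smul_apply, smul_eq_mul, inv_mul_cancel₀ hφ]

/-- PROOF.  `Y = Yk N K k`, `λ = lam0 N k`, `h : IsTop Y λ`.  `Fb := ⟨_, Fnab ..⟩ ∈ hs (k, …, k)` of `rs c nab` (`Fnab_hs`).  Let `ev` be a functional on `Y.wd λ` with
`ev (pik) = 1` and `T : Y.wd λ →ₗ nabS`, `T φ = ev φ • Fb`; `T ∈ (rs c (nab.hom (Y.wd λ))).hs (k, …, k)`.
`ext_rs (ext_theta ..)` with `X = rs c (kth Y)` good (`good_kth`, `good_rs`), `rs c Y` good (`Yk_rs_good`): `lift_hs` gives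
`y ∈ (rs c Y).hs (k, …, k)` with `theta Y λ h y = T`.  `ω R := evk N K k R y`.
`evk_MA`; `semi_const` and `evk_rho` give the semi-invariance (`(dbl c K g).1 = dblN c K g`);
`theta y (pik) = Fb`: for all `Z : Blk (c0 (N+N)) K`: `evk (last rows of Z) y = F (lastRows Z.1)` (`pik_rho`); every `Z : Matrix (Fin N) (Fin N ⊕ Fin N) K` is
`lastRows` of some square matrix. -/
theorem exists_omega (c : Fin N → ℕ) (hc : Monotone c) (k : ℕ)
    (F : Matrix (Fin N) (Fin N ⊕ Fin N) K → K) (hF : F ∈ PolyFn (mcr K))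
    (h1 : ∀ (g : Matrix (Fin N) (Fin N) K) Z, F (g * Z) = g.det ^ k * F Z)
    (h2 : ∀ (g : Blk c K) (P Q : Matrix (Fin N) (Fin N) K),
      F (Matrix.fromCols (P * g.1) (Q * g.1)) = g.1.det ^ k * F (Matrix.fromCols P Q)) :
    ∃ ω : (Fin k → Fin N → Fin (N + N) → K) → K, IsMA ω ∧
      (∀ (g : Blk c K) R, ω (fun r a => R r a ᵥ* dblN c K g) = g.1.det ^ k * ω R) ∧
      ∀ Z : Matrix (Fin N) (Fin N ⊕ Fin N) K, F Z = ω (fun _ a b => Z a (finSumFinEquiv.symm b)) := by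
  have hc0 : Monotone (c0 (N + N)) := fun _ _ _ => le_rfl
  have hY : Good (Yk N K k) := Yk_good k
  have h : IsTop (Yk N K k) (lam0 N k) := Yk_top k
  obtain ⟨Fb, hFb⟩ : ∃ Fb : nabS (c0 (N + N)) K (lam0 N k), Fb = ⟨_, Fnab k F hF h1⟩ := ⟨_, rfl⟩
  have hFhs : Fb ∈ (rs c (nab (c0 (N + N)) K (lam0 N k))).hs (fun _ => k) := by
    rw [hFb]
    exact Fnab_hs c k F hF h1 h2
  obtain ⟨pk, hpk⟩ : ∃ pk : (Yk N K k).wd (lam0 N k), pk.1 = pik N K k := ⟨⟨_, pik_mem k⟩, rfl⟩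
  have hpk0 : pk ≠ 0 := by
    intro h0
    apply pik_ne (K := K) (N := N) k
    rw [← hpk, h0]
    rfl
  obtain ⟨ev, hev⟩ : ∃ ev : Module.Dual K ((Yk N K k).wd (lam0 N k)), ev pk = 1 :=
    exists_ev pk hpk0
  obtain ⟨T, hT⟩ : ∃ T : (Yk N K k).wd (lam0 N k) →ₗ[K] nabS (c0 (N + N)) K (lam0 N k),
      ∀ φ, T φ = ev φ • Fb := ⟨ev.smulRight Fb, fun φ => rfl⟩
  have hTact : ∀ (g : Blk (c0 (N + N)) K) (a : K),
      ((nab (c0 (N + N)) K (lam0 N k)).ρ g Fb : nabS (c0 (N + N)) K (lam0 N k)) = a • Fb →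
      (((nab (c0 (N + N)) K (lam0 N k)).hom ((Yk N K k).wd (lam0 N k))).ρ g T :
        (Yk N K k).wd (lam0 N k) →ₗ[K] nabS (c0 (N + N)) K (lam0 N k)) = a • T := by
    intro g a hg
    refine LinearMap.ext fun φ => ?_
    change (nab (c0 (N + N)) K (lam0 N k)).ρ g (T φ) = a • T φ
    rw [hT]
    have e1 : (nab (c0 (N + N)) K (lam0 N k)).ρ g (ev φ • Fb) =
        ev φ • (nab (c0 (N + N)) K (lam0 N k)).ρ g Fb := map_smul _ _ _
    rw [e1, smul_comm a]
    exact congrArg (fun x : nabS (c0 (N + N)) K (lam0 N k) => ev φ • x) hg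
  have hThs : T ∈ (rs c ((nab (c0 (N + N)) K (lam0 N k)).hom
      ((Yk N K k).wd (lam0 N k)))).hs (fun _ => k) := by
    refine ⟨fun t => ?_, fun g hg => ?_⟩
    · exact hTact (dbl c K (dg c t)) _ (hFhs.1 t)
    · have e1 := hTact (dbl c K g) 1 (by rw [one_smul]; exact hFhs.2 g hg)
      rw [one_smul] at e1
      exact e1
  have hext := ext_rs c _ _ _ _ _ (ext_theta hc0 (Yk N K k) (lam0 N k) h hY)
  obtain ⟨y, hy, hyT⟩ : ∃ y : (Yk N K k).V, y ∈ (rs c (Yk N K k)).hs (fun _ => k) ∧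
      theta (Yk N K k) (lam0 N k) h y = T := lift_hs hc _ _ _ _ _ hext
    (good_rs c hc _ (good_kth hc0 (Yk N K k) (lam0 N k) h hY)) (Yk_rs_good c hc k) (fun _ => k) T
    hThs
  refine ⟨fun R => evk N K k R y, evk_MA k y, fun g R => ?_, fun Z => ?_⟩
  · have e1 := semi_const (rs c (Yk N K k)) k y hy g
    have e2 := evk_rho k (dbl c K g) y R
    have e3 : (Yk N K k).ρ (dbl c K g) y = g.1.det ^ k • y := e1
    rw [e3, map_smul, smul_eq_mul] at e2
    exact e2.symm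
  · obtain ⟨Z', hZ'⟩ : ∃ Z' : Blk (c0 (N + N)) K, ∀ a b,
        Z'.1 (Fin.natAdd N a) b = Z a (finSumFinEquiv.symm b) := by
      refine ⟨⟨Matrix.of fun i j => Fin.addCases (motive := fun _ => K) (fun _ => 0)
        (fun a => Z a (finSumFinEquiv.symm j)) i, fun i j hij => absurd rfl hij⟩, fun a b => ?_⟩
      change Fin.addCases (motive := fun _ => K) (fun _ => 0)
        (fun a => Z a (finSumFinEquiv.symm b)) (Fin.natAdd N a) = _
      rw [Fin.addCases_right]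
    have e1 : (fun (_ : Fin k) a b => Z a (finSumFinEquiv.symm b)) =
        fun (_ : Fin k) a => Z'.1 (Fin.natAdd N a) := by
      funext _ a b
      exact (hZ' a b).symm
    have e2 : lastRows Z'.1 = Z := by
      ext a b
      change Z'.1 (Fin.natAdd N a) (finSumFinEquiv b) = Z a b
      rw [hZ', Equiv.symm_apply_apply]
    change F Z = evk N K k (fun (_ : Fin k) a b => Z a (finSumFinEquiv.symm b)) y
    rw [e1, ← pik_rho k y Z', ← hpk, ← theta_apply (Yk N K k) (lam0 N k) h y pk Z']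
    have e3 : theta0 (Yk N K k) (lam0 N k) h y = T := hyT
    rw [e3, hT, hev, one_smul, hFb]
    change F Z = F (lastRows Z'.1)
    rw [e2]

end Pool.PI34.A5
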