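import Pool.Agent.LibPI34.A5_CDa

/-! PI34, block A5, file CDb: invariance. -/

set_option autoImplicit false

namespace Pool.PI34.A5

open Finset Matrix Pool.PI34.BA

variable {K : Type} [Field K] [Infinite K] {X : Type} [Fintype X] [DecidableEq X]

/-- scaling the row and the column `none` -/
theorem evF_scale {k n : ℕ}
    (f : MvPolynomial (Option (X × Fin n) × Option (X × Fin n)) K) (hf : f ∈ FF X k n K)
    (z z' : K) (hz : z' * z = 1) (C B : Matrix (Option (X × Fin n)) (Option (X × Fin n)) K)
    (hC : ∀ a b, C a b = (if a = none then z' else 1) * (if b = none then z else 1) * B a b) :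
    evF K f C = evF K f B := by
  unfold evF
  rw [MvPolynomial.aeval_def, MvPolynomial.eval₂_eq, MvPolynomial.aeval_def,
    MvPolynomial.eval₂_eq]
  refine Finset.sum_congr rfl fun ξ hξ => ?_
  have h1 := hf.1 ξ (MvPolynomial.mem_support_iff.1 hξ)
  congr 1
  have e1 : ∀ (D : Matrix (Option (X × Fin n)) (Option (X × Fin n)) K),
      (∏ i ∈ ξ.support, D i.1 i.2 ^ ξ i) = ∏ i, D i.1 i.2 ^ ξ i := by
    intro D
    refine Finset.prod_subset (Finset.subset_univ _) fun i _ hi => ?_
    rw [Finsupp.notMem_support_iff.1 hi, pow_zero]
  rw [e1, e1]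
  have e2 : ∀ i : Option (X × Fin n) × Option (X × Fin n), C i.1 i.2 ^ ξ i =
      (if i.1 = none then z' else 1) ^ ξ i * (if i.2 = none then z else 1) ^ ξ i *
        B i.1 i.2 ^ ξ i := by
    intro i
    rw [hC, mul_pow, mul_pow]
  rw [Finset.prod_congr rfl fun i _ => e2 i, Finset.prod_mul_distrib, Finset.prod_mul_distrib]
  have e3 : (∏ i : Option (X × Fin n) × Option (X × Fin n),
      (if i.1 = none then z' else 1) ^ ξ i) = z' := by
    rw [Fintype.prod_prod_type, Fintype.prod_option]
    have : (∏ x : X × Fin n, ∏ y : Option (X × Fin n),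
        (if ((some x, y) : Option (X × Fin n) × Option (X × Fin n)).1 = none then z' else 1) ^
          ξ (some x, y)) = 1 := by
      refine Finset.prod_eq_one fun x _ => Finset.prod_eq_one fun y _ => ?_
      simp
    rw [this, mul_one]
    simp only [if_true]
    rw [Finset.prod_pow_eq_pow_sum, h1.2.1, pow_one]
  have e4 : (∏ i : Option (X × Fin n) × Option (X × Fin n),
      (if i.2 = none then z else 1) ^ ξ i) = z := by
    rw [Fintype.prod_prod_type, Finset.prod_comm, Fintype.prod_option]
    have : (∏ x : X × Fin n, ∏ y : Option (X × Fin n),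
        (if ((y, some x) : Option (X × Fin n) × Option (X × Fin n)).2 = none then z else 1) ^
          ξ (y, some x)) = 1 := by
      refine Finset.prod_eq_one fun x _ => Finset.prod_eq_one fun y _ => ?_
      simp
    rw [this, mul_one]
    simp only [if_true]
    rw [Finset.prod_pow_eq_pow_sum, h1.2.2, pow_one]
  rw [e3, e4, hz, one_mul]

/-- PROOF.  A block matrix `g` (with inverse `g'`) is, in the index set `Option (X × Fin n)`, `z ⊕ h` with `z ≠ 0`, `h` block.  The invariance under `1 ⊕ h` is in the
definition of `FF`; under `z ⊕ 1`: the row `none` is multiplied with `z⁻¹` and the column `none` with `z`, and all the monomials of `f` have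
degree one in the row `none` and in the column `none` (`GoodMon`). -/
theorem fre_inv {k n N : ℕ} (e : Option (X × Fin n) ≃ Fin N)
    (f : MvPolynomial (Option (X × Fin n) × Option (X × Fin n)) K) (hf : f ∈ FF X k n K)
    (g g' : Blk (fun i => colN n (e.symm i)) K) (hg : g * g' = 1) (B : Matrix (Fin N) (Fin N) K) :
    fre e f (g'.1 * B * g.1) = fre e f B := by
  have hg1 : g.1 * g'.1 = 1 := congrArg Subtype.val hg
  have hg2 : g'.1 * g.1 = 1 := mul_eq_one_comm.1 hg1
  set G : Matrix (Option (X × Fin n)) (Option (X × Fin n)) K := g.1.submatrix e e with hG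
  set G' : Matrix (Option (X × Fin n)) (Option (X × Fin n)) K := g'.1.submatrix e e with hG'
  have h12 : G * G' = 1 := by
    rw [hG, hG', Matrix.submatrix_mul_equiv, hg1, Matrix.submatrix_one_equiv]
  have h21 : G' * G = 1 := by
    rw [hG, hG', Matrix.submatrix_mul_equiv, hg2, Matrix.submatrix_one_equiv]
  have hb : ∀ (γ : Blk (fun i => colN n (e.symm i)) K) (a b : Option (X × Fin n)),
      a.map Prod.fst ≠ b.map Prod.fst → γ.1 (e a) (e b) = 0 := by
    intro γ a b hab
    refine γ.2 (e a) (e b) ?_
    simp only [Equiv.symm_apply_apply]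
    exact fun h => hab ((colN_iff n a b).1 h)
  have hbG : ∀ a b : Option (X × Fin n), a.map Prod.fst ≠ b.map Prod.fst → G a b = 0 :=
    fun a b h => hb g a b h
  have hbG' : ∀ a b : Option (X × Fin n), a.map Prod.fst ≠ b.map Prod.fst → G' a b = 0 :=
    fun a b h => hb g' a b h
  let h : Matrix (X × Fin n) (X × Fin n) K := G.submatrix some some
  let h' : Matrix (X × Fin n) (X × Fin n) K := G'.submatrix some some
  let z := G none none
  let z' := G' none none
  have hzz : z' * z = 1 := by
    have := congrFun (congrFun h21 none) none
    rw [Matrix.mul_apply, Fintype.sum_option, Matrix.one_apply_eq] at this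
    rw [Finset.sum_eq_zero (fun x _ => by rw [hbG' none (some x) (by simp), zero_mul]),
      add_zero] at this
    exact this
  have hh : h * h' = 1 := by
    ext a b
    have := congrFun (congrFun h12 (some a)) (some b)
    rw [Matrix.mul_apply, Fintype.sum_option, hbG (some a) none (by simp), zero_mul,
      zero_add] at this
    rw [Matrix.mul_apply]
    refine this.trans ?_
    rw [Matrix.one_apply, Matrix.one_apply]
    simp
  have hh' : h' * h = 1 := mul_eq_one_comm.1 hh
  let C : Matrix (Option (X × Fin n)) (Option (X × Fin n)) K := Matrix.of fun a b =>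
    (if a = none then z' else 1) * (if b = none then z else 1) * (B.submatrix e e) a b
  have key : (g'.1 * B * g.1).submatrix e e = optDiag h' * C * optDiag h := by
    have e1 : (g'.1 * B * g.1).submatrix e e = G' * B.submatrix e e * G := by
      rw [hG, hG', Matrix.submatrix_mul_equiv, Matrix.submatrix_mul_equiv]
    rw [e1]
    have e2 : G' = optDiag h' * Matrix.diagonal (fun a => if a = none then z' else 1) := by
      ext a b
      rw [Matrix.mul_diagonal]
      rcases a with _ | a <;> rcases b with _ | b
      · simp [optDiag, z']
      · simp only [optDiag, Matrix.of_apply, zero_mul]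
        exact hbG' _ _ (by simp)
      · simp only [optDiag, Matrix.of_apply, zero_mul]
        exact hbG' _ _ (by simp)
      · simp [optDiag, h']
    have e3 : G = Matrix.diagonal (fun a => if a = none then z else 1) * optDiag h := by
      ext a b
      rw [Matrix.diagonal_mul]
      rcases a with _ | a <;> rcases b with _ | b
      · simp [optDiag, z]
      · simp only [optDiag, Matrix.of_apply, mul_zero]
        exact hbG _ _ (by simp)
      · simp only [optDiag, Matrix.of_apply, mul_zero]
        exact hbG _ _ (by simp)
      · simp [optDiag, h]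
    have e4 : C = Matrix.diagonal (fun a => if a = none then z' else 1) * B.submatrix e e *
        Matrix.diagonal (fun a => if a = none then z else 1) := by
      ext a b
      rw [Matrix.mul_diagonal, Matrix.diagonal_mul]
      simp only [C, Matrix.of_apply]
      ring
    rw [e4]
    nth_rewrite 1 [e2]
    nth_rewrite 1 [e3]
    simp only [Matrix.mul_assoc]
  unfold fre
  rw [key, hf.2.1 C h' h hh' hh ?_]
  · exact evF_scale f hf z z' hzz C (B.submatrix e e) fun a b => rfl
  · intro a b hab
    refine hbG (some a) (some b) ?_
    simpa using hab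

end Pool.PI34.A5
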