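import Pool.Agent.LibPI34.A5_CD0
import Pool.Agent.LibPI34.A5_CDb

/-! PI34, block A5, file CD: the invariant multilinear lift. -/

set_option autoImplicit false

namespace Pool.PI34.A5

open Finset Matrix Pool.PI34.BA

variable {K : Type} [Field K] [Infinite K] {X : Type} [Fintype X] [DecidableEq X]

section transport

variable {A A' : Type} [Fintype A] [DecidableEq A] [Fintype A'] [DecidableEq A'] {k : ℕ}

/-- the transport of the coefficients along `e` -/
def ThTr (e : A ≃ A') (Th : (Fin k × A' → Option A') → K) : (Fin k × A → Option A) → K :=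
  fun ψ => Th fun x => (ψ (x.1, e.symm x.2)).map e

/-- the transport of the patterns along `e` -/
def psiEq (e : A ≃ A') : (Fin k × A → Option A) ≃ (Fin k × A' → Option A') where
  toFun ψ := fun x => (ψ (x.1, e.symm x.2)).map e
  invFun χ := fun y => (χ (y.1, e y.2)).map e.symm
  left_inv ψ := by
    funext y
    simp only [Equiv.symm_apply_apply, Option.map_map]
    have h : (e.symm ∘ e : A → A) = id := by
      funext a
      simp
    rw [h, Option.map_id]
    rfl
  right_inv χ := by
    funext y
    simp only [Equiv.apply_symm_apply, Option.map_map]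
    have h : (e ∘ e.symm : A' → A') = id := by
      funext a
      simp
    rw [h, Option.map_id]
    rfl

omit [Infinite K] [Fintype A] [DecidableEq A] [Fintype A'] [DecidableEq A'] in
theorem ThTr_eq (e : A ≃ A') (Th : (Fin k × A' → Option A') → K) (ψ : Fin k × A → Option A) :
    ThTr e Th ψ = Th (psiEq e ψ) := rfl

omit [Infinite K] in
theorem fT_ThTr (e : A ≃ A') (Th : (Fin k × A' → Option A') → K) (B : Fin k → Matrix A A K) :
    fT (ThTr e Th) B = fT Th (fun r => (B r).submatrix e.symm e.symm) := by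
  unfold fT
  rw [← Equiv.sum_comp (psiEq e)]
  refine Finset.sum_congr rfl fun ψ _ => ?_
  rw [ThTr_eq]
  congr 1
  rw [← Equiv.prod_comp (Equiv.prodCongr (Equiv.refl (Fin k)) e)]
  refine Finset.prod_congr rfl fun x _ => ?_
  have h : psiEq e ψ (Equiv.prodCongr (Equiv.refl (Fin k)) e x) = (ψ x).map e := by
    simp [psiEq]
  rw [h]
  cases ψ x with
  | none => rfl
  | some b => simp

omit [Infinite K] [Fintype A] [Fintype A'] in
theorem AltC_ThTr (e : A ≃ A') (Th : (Fin k × A' → Option A') → K) (h : AltC Th) :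
    AltC (ThTr e Th) := by
  intro ψ r a a' hne h1 h2
  have e1 : psiEq e (ψ ∘ Equiv.swap (r, a) (r, a')) =
      psiEq e ψ ∘ Equiv.swap (r, e a) (r, e a') := by
    funext x
    simp only [psiEq, Equiv.coe_fn_mk, Function.comp_apply]
    congr 1
    have h3 : (Equiv.swap (r, a) (r, a')) (x.1, e.symm x.2) =
        (((Equiv.swap (r, e a) (r, e a')) x).1, e.symm ((Equiv.swap (r, e a) (r, e a')) x).2) := by
      rw [Equiv.swap_apply_def, Equiv.swap_apply_def]
      have i1 : ((x.1, e.symm x.2) = (r, a)) ↔ x = (r, e a) := by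
        rw [Prod.ext_iff, Prod.ext_iff]
        simp only [Equiv.symm_apply_eq]
      have i2 : ((x.1, e.symm x.2) = (r, a')) ↔ x = (r, e a') := by
        rw [Prod.ext_iff, Prod.ext_iff]
        simp only [Equiv.symm_apply_eq]
      simp only [i1, i2]
      split_ifs <;> simp
    rw [h3]
  have g1 : psiEq e ψ (r, e a) = (ψ (r, a)).map e := by simp [psiEq]
  have g2 : psiEq e ψ (r, e a') = (ψ (r, a')).map e := by simp [psiEq]
  have key := h (psiEq e ψ) r (e a) (e a') (fun h4 => hne (e.injective h4))
    (by rw [g1]; simpa using h1) (by rw [g2]; simpa using h2)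
  refine ⟨?_, fun h4 => ?_⟩
  · rw [ThTr_eq, ThTr_eq, e1]
    exact key.1
  · rw [ThTr_eq]
    exact key.2 (by rw [g1, g2, h4])

end transport

/-- PROOF.  `CD_fin` for `fre e f` with `e` from `exists_sorted (colN n)`; transport `Th' ψ = Th (fun x => (ψ (x.1, e.symm x.2)).map e)` along `e`. -/
theorem CD {k n : ℕ} (f : MvPolynomial (Option (X × Fin n) × Option (X × Fin n)) K)
    (hf : f ∈ FF X k n K) :
    ∃ Th : (Fin k × Option (X × Fin n) → Option (Option (X × Fin n))) → K, AltC Th ∧
      LI (fun a : Option (X × Fin n) => a.map Prod.fst) Th ∧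
      ∀ B : Matrix (Option (X × Fin n)) (Option (X × Fin n)) K, evF K f B = fT Th (fun _ => B) := by
  obtain ⟨e, he⟩ := exists_sorted (colN (X := X) n)
  obtain ⟨Th, h1, h2, h3⟩ := CD_fin (fun i => colN n (e.symm i)) he k (n + 1) (fre e f)
    (fre_poly e f) (fre_RD e f hf) (fre_hom e f hf) (fun g g' hg B => fre_inv e f hf g g' hg B)
  refine ⟨ThTr e Th, AltC_ThTr e Th h1, ?_, ?_⟩
  · intro g hg B
    rw [fT_ThTr, fT_ThTr]
    have h4 := h2 (g.submatrix e.symm e.symm) (fun a b hab => by
      rw [Matrix.submatrix_apply]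
      exact hg _ _ fun h5 => hab ((colN_iff n _ _).2 h5)) (fun r => (B r).submatrix e.symm e.symm)
    simp only [Matrix.submatrix_mul_equiv] at h4
    exact h4
  · intro B
    rw [fT_ThTr, ← h3]
    unfold fre
    congr 1
    ext a b
    simp

end Pool.PI34.A5
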