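import Pool.Agent.LibPI34.A5_Th
import Pool.Agent.LibPI34.A5_C2

/-! PI34, block A5, file CD0: the invariant multilinear lift of the elements of `F_k(K)`. -/

set_option autoImplicit false

namespace Pool.PI34.A5

open Finset Matrix

variable {K : Type} [Field K] [Infinite K]

/-- the index set `Fin N` -/
theorem CD_fin {N : ℕ} (c : Fin N → ℕ) (hc : Monotone c) (k d : ℕ)
    (f : Matrix (Fin N) (Fin N) K → K) (hf : f ∈ PolyFn (mcr K)) (hr : RD k f)
    (hd : ∀ (s : K) (B : Matrix (Fin N) (Fin N) K), f (s • B) = s ^ d * f B)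
    (hi : ∀ g g' : Blk c K, g * g' = 1 → ∀ B : Matrix (Fin N) (Fin N) K,
      f (g'.1 * B * g.1) = f B) :
    ∃ Th : (Fin k × Fin N → Option (Fin N)) → K, AltC Th ∧ LI c Th ∧
      ∀ B : Matrix (Fin N) (Fin N) K, f B = fT Th (fun _ => B) := by
  obtain ⟨F, hF, hFf⟩ := exists_F k d f hf hr hd
  have h1 := F_mul k d f F hF hd hFf
  have h2 := F_conj c k d f F hF hd hFf hi
  obtain ⟨ω, hω, hs, hFω⟩ := exists_omega c hc k F hF h1 h2
  refine ⟨ThOf ω, AltC_ThOf ω hω, LI_ThOf c ω hω hs, fun B => ?_⟩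
  rw [fT_ThOf ω hω, ← F_one k d f F hFf B, hFω]
  congr 1

end Pool.PI34.A5
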