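import Pool.Agent.LibPI34.BA_D0

/-! PI34, block BA, file E0: the space `F_k(K)`. -/

set_option autoImplicit false

namespace Pool.PI34.BA

open Equiv Finset Matrix
open scoped TensorProduct

variable {X : Type} [Fintype X] [DecidableEq X]

/-- evaluation of `f` at a matrix over a `K`-algebra `R` -/
noncomputable def evF {n : ℕ} {K : Type} [Field K] (R : Type) [CommRing R] [Algebra K R]
    (f : MvPolynomial (Option (X × Fin n) × Option (X × Fin n)) K)
    (B : Matrix (Option (X × Fin n)) (Option (X × Fin n)) R) : R :=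
  MvPolynomial.aeval (fun ab => B ab.1 ab.2) f

/-- `F_k(K)`: the polynomial functions of a matrix `B` with index set `Option (X × Fin n)` which are homogeneous of
degree `n + 1`, of degree one in the row `none` and in the column `none`, invariant under conjugation with
`∏_s GL_n(K)` and of degree at most `k` along rank one updates. -/
noncomputable def FF (X : Type) [Fintype X] [DecidableEq X] (k n : ℕ) (K : Type) [Field K] :
    Submodule K (MvPolynomial (Option (X × Fin n) × Option (X × Fin n)) K) where
  carrier := {f | (∀ ξ, f.coeff ξ ≠ 0 → GoodMon ξ) ∧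
    (∀ (B : Matrix (Option (X × Fin n)) (Option (X × Fin n)) K)
      (h h' : Matrix (X × Fin n) (X × Fin n) K), h * h' = 1 → h' * h = 1 →
      (∀ a b, a.1 ≠ b.1 → h' a b = 0) →
      evF K f (optDiag h * B * optDiag h') = evF K f B) ∧
    (∀ (B : Matrix (Option (X × Fin n)) (Option (X × Fin n)) K)
      (u v : Option (X × Fin n) → K) (j : ℕ), k < j →
      (evF (Polynomial K) f (B.map Polynomial.C +
        vecMulVec (fun a => Polynomial.X * Polynomial.C (u a))
          (fun a => Polynomial.C (v a)))).coeff j = 0)}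
  zero_mem' := by
    refine ⟨fun ξ h => absurd rfl h, fun B h h' _ _ _ => ?_, fun B u v j _ => ?_⟩ <;> simp [evF]
  add_mem' := by
    rintro f g ⟨hf1, hf2, hf3⟩ ⟨hg1, hg2, hg3⟩
    refine ⟨fun ξ h => ?_, fun B h h' h1 h2 h3 => ?_, fun B u v j hj => ?_⟩
    · by_cases hf : f.coeff ξ = 0
      · by_cases hg : g.coeff ξ = 0
        · exact absurd (by rw [MvPolynomial.coeff_add, hf, hg, add_zero]) h
        · exact hg1 ξ hg
      · exact hf1 ξ hf
    · have e1 := hf2 B h h' h1 h2 h3
      have e2 := hg2 B h h' h1 h2 h3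
      simp only [evF, map_add] at e1 e2 ⊢
      rw [e1, e2]
    · have e1 := hf3 B u v j hj
      have e2 := hg3 B u v j hj
      simp only [evF, map_add, Polynomial.coeff_add] at e1 e2 ⊢
      rw [e1, e2, add_zero]
  smul_mem' := by
    rintro c f ⟨hf1, hf2, hf3⟩
    refine ⟨fun ξ h => ?_, fun B h h' h1 h2 h3 => ?_, fun B u v j hj => ?_⟩
    · refine hf1 ξ fun h0 => h ?_
      rw [MvPolynomial.coeff_smul, h0, smul_zero]
    · have e1 := hf2 B h h' h1 h2 h3
      simp only [evF, map_smul] at e1 ⊢
      rw [e1]
    · have e1 := hf3 B u v j hj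
      simp only [evF, map_smul, Polynomial.coeff_smul] at e1 ⊢
      rw [e1, smul_zero]

end Pool.PI34.BA
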