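import Pool.Agent.LibPI34.A5_Exp
import Pool.Agent.LibPI34.BA_E0

/-! PI34, block A5, file CDa: reindexing the elements of `F_k(K)`. -/

set_option autoImplicit false

namespace Pool.PI34.A5

open Finset Matrix Pool.PI34.BA

variable {K : Type} [Field K] [Infinite K]

/-- sorting: `Tuple.sort` -/
theorem exists_sorted {A : Type} [Fintype A] (col : A → ℕ) :
    ∃ e : A ≃ Fin (Fintype.card A), Monotone (fun i => col (e.symm i)) := by
  let e0 := Fintype.equivFin A
  let g : Fin (Fintype.card A) → ℕ := fun i => col (e0.symm i)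
  refine ⟨e0.trans (Tuple.sort g).symm, ?_⟩
  have h := Tuple.monotone_sort g
  intro i j hij
  exact h hij

variable {X : Type} [Fintype X] [DecidableEq X]

/-- the colour number -/
noncomputable def colN (n : ℕ) (a : Option (X × Fin n)) : ℕ :=
  a.elim 0 (fun x => (Fintype.equivFin X x.1 : ℕ) + 1)

theorem colN_iff (n : ℕ) (a b : Option (X × Fin n)) :
    colN n a = colN n b ↔ a.map Prod.fst = b.map Prod.fst := by
  rcases a with _ | a <;> rcases b with _ | b
  · simp
  · simp [colN]
  · simp [colN]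
  · simp only [colN, Option.elim_some, Option.map_some, Option.some.injEq, Nat.add_right_cancel_iff]
    rw [Fin.val_inj, EmbeddingLike.apply_eq_iff_eq]

/-- reindexing of `f` -/
noncomputable def fre {n : ℕ} {N : ℕ} (e : Option (X × Fin n) ≃ Fin N)
    (f : MvPolynomial (Option (X × Fin n) × Option (X × Fin n)) K)
    (B : Matrix (Fin N) (Fin N) K) : K := evF K f (B.submatrix e e)

theorem fre_poly {n N : ℕ} (e : Option (X × Fin n) ≃ Fin N)
    (f : MvPolynomial (Option (X × Fin n) × Option (X × Fin n)) K) :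
    fre e f ∈ PolyFn (mcr K) := by
  refine (mem_PolyFn _ _).2 ⟨MvPolynomial.rename (fun ab => (e ab.1, e ab.2)) f, fun B => ?_⟩
  rw [MvPolynomial.eval_rename, fre, evF, MvPolynomial.aeval_eq_eval]
  rfl

theorem fre_hom {k n N : ℕ} (e : Option (X × Fin n) ≃ Fin N)
    (f : MvPolynomial (Option (X × Fin n) × Option (X × Fin n)) K) (hf : f ∈ FF X k n K) (s : K)
    (B : Matrix (Fin N) (Fin N) K) : fre e f (s • B) = s ^ (n + 1) * fre e f B := by
  unfold fre evF
  rw [MvPolynomial.aeval_def, MvPolynomial.eval₂_eq, MvPolynomial.aeval_def,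
    MvPolynomial.eval₂_eq, Finset.mul_sum]
  refine Finset.sum_congr rfl fun ξ hξ => ?_
  have h1 := (hf.1 ξ (MvPolynomial.mem_support_iff.1 hξ)).1
  have h2 : ∏ i ∈ ξ.support, ((s • B).submatrix e e) i.1 i.2 ^ ξ i =
      s ^ (n + 1) * ∏ i ∈ ξ.support, (B.submatrix e e) i.1 i.2 ^ ξ i := by
    rw [← h1, Finsupp.sum, ← Finset.prod_pow_eq_pow_sum, ← Finset.prod_mul_distrib]
    refine Finset.prod_congr rfl fun i _ => ?_
    rw [← mul_pow]
    rfl
  rw [h2]
  ring

/-- PROOF.  `p = evF (Polynomial K) f (B.map C + vecMulVec (X * C u) (C v))` truncated: its coefficients of degree `> k` vanish, so `natDegree ≤ k`; evaluate at `s`. -/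
theorem fre_RD {k n N : ℕ} (e : Option (X × Fin n) ≃ Fin N)
    (f : MvPolynomial (Option (X × Fin n) × Option (X × Fin n)) K) (hf : f ∈ FF X k n K) :
    RD k (fre e f) := by
  intro Z u v
  let P : Polynomial K := evF (Polynomial K) f ((Z.submatrix e e).map Polynomial.C +
    vecMulVec (fun a => Polynomial.X * Polynomial.C (u (e a))) (fun a => Polynomial.C (v (e a))))
  refine ⟨P, ?_, fun s => ?_⟩
  · refine Polynomial.natDegree_le_iff_coeff_eq_zero.2 fun j hj => ?_
    exact hf.2.2 (Z.submatrix e e) (fun a => u (e a)) (fun a => v (e a)) j hj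
  · have h1 : P.eval s = (Polynomial.aeval s) P := by rw [Polynomial.coe_aeval_eq_eval]
    rw [h1]
    unfold fre evF
    change _ = (Polynomial.aeval s) (MvPolynomial.aeval _ f)
    rw [← AlgHom.comp_apply, MvPolynomial.comp_aeval]
    congr 2
    funext ab
    simp [Matrix.vecMulVec_apply]
    ring

end Pool.PI34.A5
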