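import Mathlib

/-! PI34, block A5, file Num: the numbers `Dt c λ`. -/

set_option autoImplicit false

namespace Pool.PI34.A5

open Finset Matrix

variable {m : ℕ}

/-- number of the indices of the same color before `i` -/
def pos (c : Fin m → ℕ) (i : Fin m) : ℕ := (univ.filter fun j : Fin m => j < i ∧ c j = c i).card

/-- the matrix of binomial coefficients -/
def Dtm (c : Fin m → ℕ) (lam : Fin m → ℕ) : Matrix (Fin m) (Fin m) ℤ :=
  Matrix.of fun i j => if c i = c j then (((lam i + pos c i).choose (pos c j) : ℕ) : ℤ) else 0

/-- the dimension polynomial -/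
def Dt (c : Fin m → ℕ) (lam : Fin m → ℕ) : ℤ := (Dtm c lam).det

end Pool.PI34.A5
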