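import Pool.Agent.LibPI34.A5_Wt
import Pool.Agent.LibPI34.A5_Num

/-! PI34, block A5, file Chi: the character sum and good representations. -/

set_option autoImplicit false

namespace Pool.PI34.A5

open Finset Matrix

variable {m : ℕ} {c : Fin m → ℕ} {K : Type} [Field K]

/-- `∑_κ dim (hs κ) * Dt κ` -/
noncomputable def chi (M : PRep c K) : ℤ :=
  ∑ᶠ κ : Fin m → ℕ, (Module.finrank K (M.hs κ) : ℤ) * Dt c κ

/-- good representations -/
def Good (M : PRep c K) : Prop := (Module.finrank K M.V : ℤ) = chi M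

theorem chi_eq_sum (M : PRep c K) (W : Finset (Fin m → ℕ)) (h : ∀ κ, κ ∉ W → M.hs κ = ⊥) :
    chi M = ∑ κ ∈ W, (Module.finrank K (M.hs κ) : ℤ) * Dt c κ := by
  unfold chi
  refine finsum_eq_sum_of_support_subset _ fun κ hκ => ?_
  by_contra hn
  refine hκ ?_
  have h1 := h κ hn
  change (Module.finrank K (M.hs κ) : ℤ) * Dt c κ = 0
  rw [h1, finrank_bot, Nat.cast_zero, zero_mul]

theorem hs_W [Infinite K] (M : PRep c K) (κ : Fin m → ℕ) (h : κ ∉ M.W) : M.hs κ = ⊥ := by
  rw [eq_bot_iff]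
  intro v hv
  have h1 : v ∈ M.wt κ := hv.1
  rwa [wt_bot M κ h] at h1

/-- equivariant maps preserve `hs κ` -/
theorem hs_map (M N : PRep c K) (f : M.V →ₗ[K] N.V) (hf : Eqv M N f) (κ : Fin m → ℕ) (v : M.V)
    (hv : v ∈ M.hs κ) : f v ∈ N.hs κ := by
  refine ⟨fun t => ?_, fun g hg => ?_⟩
  · rw [← hf, hv.1 t, map_smul]
  · rw [← hf, hv.2 g hg]

/-- and injective ones reflect it -/
theorem hs_comap (M N : PRep c K) (f : M.V →ₗ[K] N.V) (hf : Eqv M N f)
    (hi : Function.Injective f) (κ : Fin m → ℕ) (v : M.V) (hv : f v ∈ N.hs κ) : v ∈ M.hs κ := by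
  refine ⟨fun t => hi ?_, fun g hg => hi ?_⟩
  · rw [hf, hv.1 t, map_smul]
  · rw [hf, hv.2 g hg]

/-- an equivariant injective map induces an injection on `hs κ` -/
theorem hs_inj (M N : PRep c K) (f : M.V →ₗ[K] N.V) (hf : Eqv M N f) (hi : Function.Injective f)
    (κ : Fin m → ℕ) : Module.finrank K (M.hs κ) ≤ Module.finrank K (N.hs κ) :=
  LinearMap.finrank_le_finrank_of_injective
    (f := f.restrict (p := M.hs κ) (q := N.hs κ) fun v hv => hs_map M N f hf κ v hv)
    fun v w hvw => Subtype.ext (hi (congrArg Subtype.val hvw))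

/-- the map on `hs κ` -/
def hsR (Y Z : PRep c K) (p : Y.V →ₗ[K] Z.V) (hp : Eqv Y Z p) (κ : Fin m → ℕ) :
    Y.hs κ →ₗ[K] Z.hs κ :=
  p.restrict fun v hv => hs_map Y Z p hp κ v hv

theorem hsR_ker (X Y Z : PRep c K) (i : X.V →ₗ[K] Y.V) (p : Y.V →ₗ[K] Z.V) (h : Ext X Y Z i p)
    (κ : Fin m → ℕ) : Module.finrank K (LinearMap.ker (hsR Y Z p h.ep κ)) =
      Module.finrank K (X.hs κ) := by
  let j : X.hs κ →ₗ[K] Y.hs κ := hsR X Y i h.ei κ
  have hj : Function.Injective j := fun v w hvw =>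
    Subtype.ext (h.inj (congrArg Subtype.val hvw))
  have hr : LinearMap.range j = LinearMap.ker (hsR Y Z p h.ep κ) := by
    ext y
    constructor
    · rintro ⟨x, rfl⟩
      apply Subtype.ext
      have h1 : i x.1 ∈ LinearMap.ker p := h.ex ▸ LinearMap.mem_range_self i x.1
      exact h1
    · intro hy
      have h1 : y.1 ∈ LinearMap.ker p := congrArg Subtype.val hy
      rw [← h.ex] at h1
      obtain ⟨x, hx⟩ := h1
      have h2 : i x ∈ Y.hs κ := by rw [hx]; exact y.2
      exact ⟨⟨x, hs_comap X Y i h.ei h.inj κ x h2⟩, Subtype.ext hx⟩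
  rw [← hr, LinearMap.finrank_range_of_inj hj]

/-- left exactness -/
theorem hs_ext (X Y Z : PRep c K) (i : X.V →ₗ[K] Y.V) (p : Y.V →ₗ[K] Z.V) (h : Ext X Y Z i p)
    (κ : Fin m → ℕ) :
    Module.finrank K (Y.hs κ) ≤ Module.finrank K (X.hs κ) + Module.finrank K (Z.hs κ) := by
  have h1 := LinearMap.finrank_range_add_finrank_ker (hsR Y Z p h.ep κ)
  have h2 := hsR_ker X Y Z i p h κ
  have h3 := Submodule.finrank_le (LinearMap.range (hsR Y Z p h.ep κ))
  omega

/-- left exactness with equality: then `Y.hs κ → Z.hs κ` is onto -/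
theorem hs_ext_eq (X Y Z : PRep c K) (i : X.V →ₗ[K] Y.V) (p : Y.V →ₗ[K] Z.V) (h : Ext X Y Z i p)
    (κ : Fin m → ℕ)
    (he : Module.finrank K (Y.hs κ) = Module.finrank K (X.hs κ) + Module.finrank K (Z.hs κ))
    (z : Z.V) (hz : z ∈ Z.hs κ) : ∃ y ∈ Y.hs κ, p y = z := by
  have h1 := LinearMap.finrank_range_add_finrank_ker (hsR Y Z p h.ep κ)
  have h2 := hsR_ker X Y Z i p h κ
  have h3 : Module.finrank K (LinearMap.range (hsR Y Z p h.ep κ)) = Module.finrank K (Z.hs κ) := by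
    omega
  have h4 : LinearMap.range (hsR Y Z p h.ep κ) = ⊤ := Submodule.eq_top_of_finrank_eq h3
  have h5 : (⟨z, hz⟩ : Z.hs κ) ∈ LinearMap.range (hsR Y Z p h.ep κ) := by
    rw [h4]
    exact Submodule.mem_top
  obtain ⟨y, hy⟩ := h5
  exact ⟨y.1, y.2, congrArg Subtype.val hy⟩

/-- bijective equivariant maps preserve `Good` -/
theorem good_equiv (M N : PRep c K) (f : M.V ≃ₗ[K] N.V) (hf : Eqv M N f.toLinearMap)
    (h : Good M) : Good N := by
  have hf' : Eqv N M f.symm.toLinearMap := by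
    intro g v
    apply f.injective
    have h1 := hf g (f.symm v)
    change f (M.ρ g (f.symm v)) = N.ρ g (f (f.symm v)) at h1
    rw [LinearEquiv.apply_symm_apply] at h1
    change f (f.symm (N.ρ g v)) = f (M.ρ g (f.symm v))
    rw [LinearEquiv.apply_symm_apply, h1]
  have e : ∀ κ, Module.finrank K (M.hs κ) = Module.finrank K (N.hs κ) := fun κ =>
    le_antisymm (hs_inj M N f.toLinearMap hf f.injective κ)
      (hs_inj N M f.symm.toLinearMap hf' f.symm.injective κ)
  unfold Good chi at h ⊢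
  rw [← f.finrank_eq, h]
  exact finsum_congr fun κ => by rw [e κ]

/-- zero representations are good -/
theorem good_zero (M : PRep c K) (h : Module.finrank K M.V = 0) : Good M := by
  unfold Good
  rw [chi_eq_sum M ∅ (fun κ _ => ?_), h, Finset.sum_empty, Nat.cast_zero]
  have h1 : Module.finrank K (M.hs κ) = 0 := by
    have := Submodule.finrank_le (M.hs κ)
    omega
  exact Submodule.finrank_eq_zero.1 h1

end Pool.PI34.A5
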