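import Mathlib

/-! PI34, block A5, file DDef: interface between the lift (C) and the block (D). -/

set_option autoImplicit false

namespace Pool.PI34.A5

open Finset Matrix

variable {A S R : Type} [Fintype A] [DecidableEq A] [CommRing R] {k : ℕ}

/-- `∑_ψ Θ(ψ) ∏_{(r,a)} (B_r)_{a,ψ(r,a)}` (factor `1` if `ψ(r,a) = none`) -/
def fT (Th : (Fin k × A → Option A) → R) (B : Fin k → Matrix A A R) : R :=
  ∑ ψ : Fin k × A → Option A, Th ψ * ∏ x : Fin k × A, (ψ x).elim 1 (fun b => B x.1 x.2 b)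

/-- alternation in the rows of `B_r` -/
def AltC (Th : (Fin k × A → Option A) → R) : Prop :=
  ∀ (ψ : Fin k × A → Option A) (r : Fin k) (a a' : A), a ≠ a' → ψ (r, a) ≠ none →
    ψ (r, a') ≠ none → Th (ψ ∘ Equiv.swap (r, a) (r, a')) = - Th ψ ∧
      (ψ (r, a) = ψ (r, a') → Th ψ = 0)

/-- invariance: `f~(B g) = f~(g B)` for all block matrices `g` -/
def LI (c : A → S) (Th : (Fin k × A → Option A) → R) : Prop :=
  ∀ g : Matrix A A R, (∀ a b, c a ≠ c b → g a b = 0) → ∀ B : Fin k → Matrix A A R,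
    fT Th (fun r => B r * g) = fT Th (fun r => g * B r)

end Pool.PI34.A5
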