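import Mathlib

/-! PI34, block A5, file Def: polynomial functions, block matrices, polynomial representations. -/

set_option autoImplicit false

namespace Pool.PI34.A5

open Finset Matrix

section poly

variable {T T' ι ι' K : Type} [Field K]

/-- the algebra of the polynomial functions in the coordinates `x` -/
noncomputable def PolyFn (x : T → ι → K) : Subalgebra K (T → K) :=
  (MvPolynomial.aeval (fun i t => x t i) : MvPolynomial ι K →ₐ[K] (T → K)).range

theorem aeval_fun_apply (x : T → ι → K) (p : MvPolynomial ι K) (t : T) :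
    (MvPolynomial.aeval (fun i t => x t i) p : T → K) t = MvPolynomial.eval (x t) p := by
  induction p using MvPolynomial.induction_on with
  | C a => simp
  | add p q hp hq => simp [hp, hq]
  | mul_X p i hp => simp [hp]

theorem mem_PolyFn (x : T → ι → K) (F : T → K) :
    F ∈ PolyFn x ↔ ∃ p : MvPolynomial ι K, ∀ t, F t = MvPolynomial.eval (x t) p := by
  constructor
  · rintro ⟨p, hp⟩
    exact ⟨p, fun t => by rw [← hp]; exact aeval_fun_apply x p t⟩
  · rintro ⟨p, hp⟩
    exact ⟨p, funext fun t => by rw [hp]; exact aeval_fun_apply x p t⟩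

theorem coord_mem (x : T → ι → K) (i : ι) : (fun t => x t i) ∈ PolyFn x :=
  (mem_PolyFn x _).2 ⟨MvPolynomial.X i, fun t => by simp⟩

theorem const_mem (x : T → ι → K) (a : K) : (fun _ => a) ∈ PolyFn x :=
  (mem_PolyFn x _).2 ⟨MvPolynomial.C a, fun t => by simp⟩

theorem comp_mem (x : T → ι → K) (x' : T' → ι' → K) (φ : T' → T)
    (h : ∀ i, (fun t => x (φ t) i) ∈ PolyFn x') (F : T → K) (hF : F ∈ PolyFn x) :
    (fun t => F (φ t)) ∈ PolyFn x' := by
  obtain ⟨p, hp⟩ := (mem_PolyFn x F).1 hF
  have : (fun t => F (φ t)) = fun t => MvPolynomial.eval (x (φ t)) p := funext fun t => hp _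
  rw [this]
  clear hp this
  induction p using MvPolynomial.induction_on with
  | C a => simpa using const_mem x' a
  | add p q hp hq =>
    have e : (fun t => MvPolynomial.eval (x (φ t)) (p + q)) =
        (fun t => MvPolynomial.eval (x (φ t)) p) + fun t => MvPolynomial.eval (x (φ t)) q := by
      funext t
      simp
    rw [e]
    exact (PolyFn x').add_mem hp hq
  | mul_X p i hp =>
    have e : (fun t => MvPolynomial.eval (x (φ t)) (p * MvPolynomial.X i)) =
        (fun t => MvPolynomial.eval (x (φ t)) p) * fun t => x (φ t) i := by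
      funext t
      simp
    rw [e]
    exact (PolyFn x').mul_mem hp (h i)

/-- the entries of a matrix as coordinates -/
def mcr {I J : Type} (K : Type) [Field K] : Matrix I J K → I × J → K := fun Z ij => Z ij.1 ij.2

end poly

/-- the monoid of the block matrices -/
def Blk {m : ℕ} (c : Fin m → ℕ) (K : Type) [Field K] : Submonoid (Matrix (Fin m) (Fin m) K) where
  carrier := {Z | ∀ i j, c i ≠ c j → Z i j = 0}
  one_mem' := fun i j h => Matrix.one_apply_ne fun e => h (by rw [e])
  mul_mem' := fun {Z W} hZ hW i j h => by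
    rw [Matrix.mul_apply]
    refine Finset.sum_eq_zero fun l _ => ?_
    by_cases h1 : c i = c l
    · rw [hW l j fun h2 => h (h1.trans h2), mul_zero]
    · rw [hZ i l h1, zero_mul]

section blk

variable {m : ℕ} (c : Fin m → ℕ) (K : Type) [Field K]

/-- the coordinates on `Blk c K` -/
def crd : Blk c K → Fin m × Fin m → K := fun Z ij => Z.1 ij.1 ij.2

variable {K}

/-- diagonal matrices -/
def dg (t : Fin m → K) : Blk c K :=
  ⟨Matrix.diagonal t, fun _ _ h => Matrix.diagonal_apply_ne _ fun e => h (by rw [e])⟩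

/-- elementary matrices `1 + x E_ij` -/
def el (i j : Fin m) (h : c i = c j) (x : K) : Blk c K :=
  ⟨1 + Matrix.single i j x, fun a b hab => by
    rw [Matrix.add_apply, Matrix.one_apply_ne (fun e => hab (by rw [e])), zero_add]
    refine Matrix.single_apply_of_ne _ _ _ _ _ ?_
    rintro ⟨rfl, rfl⟩
    exact hab h⟩

/-- the block part of a matrix -/
def bpr (Z : Matrix (Fin m) (Fin m) K) : Blk c K :=
  ⟨Matrix.of fun i j => if c i = c j then Z i j else 0, fun i j h => by simp [h]⟩

variable {c}

/-- upper unitriangular block matrices -/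
def IsUp (u : Blk c K) : Prop := (∀ i, u.1 i i = 1) ∧ ∀ i j, j < i → u.1 i j = 0

/-- lower unitriangular block matrices -/
def IsLo (g : Blk c K) : Prop := (∀ i, g.1 i i = 1) ∧ ∀ i j, i < j → g.1 i j = 0

/-- `t^κ` -/
def tw (t : Fin m → K) (κ : Fin m → ℕ) : K := ∏ i, t i ^ κ i

/-- the height of a weight -/
def ht (κ : Fin m → ℕ) : ℕ := ∑ i : Fin m, (i : ℕ) * κ i

variable (c) in
/-- dominant weights: nondecreasing inside of the color classes -/
def Dom (κ : Fin m → ℕ) : Prop := ∀ i j, i < j → c i = c j → κ i ≤ κ j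

/-- indicator weight of a set -/
def ind (S : Finset (Fin m)) : Fin m → ℕ := fun i => if i ∈ S then 1 else 0

end blk

/-- finite dimensional polynomial representations of the monoid `Blk c K` -/
structure PRep {m : ℕ} (c : Fin m → ℕ) (K : Type) [Field K] where
  V : Type
  [acg : AddCommGroup V]
  [mod : Module K V]
  [fd : FiniteDimensional K V]
  ρ : Blk c K →* Module.End K V
  poly : ∀ (v : V) (φ : Module.Dual K V), (fun Z => φ (ρ Z v)) ∈ PolyFn (crd c K)

attribute [instance] PRep.acg PRep.mod PRep.fd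

section rep

variable {m : ℕ} {c : Fin m → ℕ} {K : Type} [Field K]

/-- equivariant maps -/
def Eqv (M N : PRep c K) (f : M.V →ₗ[K] N.V) : Prop := ∀ g v, f (M.ρ g v) = N.ρ g (f v)

/-- short exact sequences `0 → X → Y → Z → 0` -/
structure Ext (X Y Z : PRep c K) (i : X.V →ₗ[K] Y.V) (p : Y.V →ₗ[K] Z.V) : Prop where
  ei : Eqv X Y i
  ep : Eqv Y Z p
  inj : Function.Injective i
  surj : Function.Surjective p
  ex : LinearMap.range i = LinearMap.ker p

/-- weight spaces -/
def PRep.wt (M : PRep c K) (κ : Fin m → ℕ) : Submodule K M.V where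
  carrier := {v | ∀ t : Fin m → K, M.ρ (dg c t) v = tw t κ • v}
  zero_mem' := fun t => by simp
  add_mem' := fun {v w} hv hw t => by rw [map_add, hv t, hw t, smul_add]
  smul_mem' := fun a v hv t => by rw [map_smul, hv t, smul_comm]

/-- the vectors of weight `κ` which are invariant under the lower unitriangular matrices -/
def PRep.hs (M : PRep c K) (κ : Fin m → ℕ) : Submodule K M.V where
  carrier := {v | v ∈ M.wt κ ∧ ∀ g : Blk c K, IsLo g → M.ρ g v = v}
  zero_mem' := ⟨Submodule.zero_mem _, fun g _ => by simp⟩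
  add_mem' := fun {v w} hv hw =>
    ⟨Submodule.add_mem _ hv.1 hw.1, fun g hg => by rw [map_add, hv.2 g hg, hw.2 g hg]⟩
  smul_mem' := fun a v hv =>
    ⟨Submodule.smul_mem _ a hv.1, fun g hg => by rw [map_smul, hv.2 g hg]⟩

/-- weight functionals -/
def PRep.wd (M : PRep c K) (κ : Fin m → ℕ) : Submodule K (Module.Dual K M.V) where
  carrier := {φ | ∀ (t : Fin m → K) (v : M.V), φ (M.ρ (dg c t) v) = tw t κ * φ v}
  zero_mem' := fun t v => by simp
  add_mem' := fun {v w} hv hw t x => by
    rw [LinearMap.add_apply, LinearMap.add_apply, hv t x, hw t x, mul_add]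
  smul_mem' := fun a v hv t x => by
    rw [LinearMap.smul_apply, LinearMap.smul_apply, hv t x, smul_eq_mul, smul_eq_mul, mul_left_comm]

/-- `λ` is of maximal height among the weights of `M` -/
def IsTop (M : PRep c K) (lam : Fin m → ℕ) : Prop := ∀ κ, M.wt κ ≠ ⊥ → ht κ ≤ ht lam

/-- restriction along a polynomial homomorphism -/
def PRep.res {m' : ℕ} {c' : Fin m' → ℕ} (M : PRep c K) (θ : Blk c' K →* Blk c K)
    (hθ : ∀ ij, (fun Z => crd c K (θ Z) ij) ∈ PolyFn (crd c' K)) : PRep c' K where
  V := M.V
  ρ := M.ρ.comp θ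
  poly v φ := comp_mem _ _ _ hθ _ (M.poly v φ)

/-- subrepresentations -/
def PRep.sub (M : PRep c K) (U : Submodule K M.V) (hU : ∀ g, ∀ v ∈ U, M.ρ g v ∈ U) :
    PRep c K where
  V := U
  ρ := { toFun := fun g => (M.ρ g).restrict (hU g)
         map_one' := by ext v; simp
         map_mul' := fun g h => by ext v; simp }
  poly v φ := by
    obtain ⟨ψ, hψ⟩ := LinearMap.exists_extend φ
    have h := M.poly v.1 ψ
    have e : (fun Z => ψ (M.ρ Z v.1)) = fun Z => φ ((M.ρ Z).restrict (hU Z) v) := by
      funext Z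
      rw [← hψ]
      rfl
    rw [e] at h
    exact h

/-- `Hom(V, M)` -/
def PRep.hom (M : PRep c K) (V : Type) [AddCommGroup V] [Module K V] [FiniteDimensional K V] :
    PRep c K where
  V := V →ₗ[K] M.V
  ρ := { toFun := fun g => LinearMap.compRight K (M.ρ g)
         map_one' := by ext T v; simp
         map_mul' := fun g h => by ext T v; simp }
  poly T φ := by
    let b := Module.finBasis K V
    have key : ∀ S : V →ₗ[K] M.V, φ S = ∑ i, φ (b.constr K (Pi.single i (S (b i)))) := by
      intro S
      rw [← map_sum, ← map_sum, Finset.univ_sum_single (fun i => S (b i))]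
      congr 1
      exact b.ext fun i => by simp
    have e : (fun Z => φ (LinearMap.compRight K (M.ρ Z) T)) = ∑ i, fun Z =>
        (φ ∘ₗ (b.constr K : (_ → M.V) ≃ₗ[K] _).toLinearMap ∘ₗ LinearMap.single K (fun _ => M.V) i)
          (M.ρ Z (T (b i))) := by
      funext Z
      rw [key, Finset.sum_apply]
      rfl
    change (fun Z => φ (LinearMap.compRight K (M.ρ Z) T)) ∈ _
    rw [e]
    exact Subalgebra.sum_mem _ fun i _ => M.poly _ _

end rep

end Pool.PI34.A5
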