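import Pool.Agent.LibPI34.A5_Def

/-! PI34, block A5, file Den: density lemmas. -/

set_option autoImplicit false

namespace Pool.PI34.A5

open Finset Matrix

section

variable {T T' ι ι' K : Type} [Field K]

/-- no zero divisors: PROOF. `MvPolynomial.funext` (`K` infinite) and `MvPolynomial ι K` is a domain. -/
theorem poly_mul_zero [Infinite K] (F G : (ι → K) → K) (hF : F ∈ PolyFn (fun x : ι → K => x))
    (hG : G ∈ PolyFn (fun x : ι → K => x)) (h : ∀ x, F x * G x = 0) (hG0 : ∃ x, G x ≠ 0) (x : ι → K) :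
    F x = 0 := by
  obtain ⟨p, hp⟩ := (mem_PolyFn _ F).1 hF
  obtain ⟨q, hq⟩ := (mem_PolyFn _ G).1 hG
  have hpq : p * q = 0 := by
    apply MvPolynomial.funext
    intro y
    rw [map_mul, map_zero, ← hp y, ← hq y]
    exact h y
  rcases mul_eq_zero.1 hpq with h1 | h1
  · rw [hp x, h1, map_zero]
  · obtain ⟨y, hy⟩ := hG0
    rw [hq y, h1, map_zero] at hy
    exact absurd rfl hy

/-- no zero divisors, for a set `T` which is the polynomial image of an affine space. -/
theorem poly_mul_zero' [Infinite K] (x : T → ι → K) (φ : (ι' → K) → T) (hφ : Function.Surjective φ)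
    (hx : ∀ i, (fun y => x (φ y) i) ∈ PolyFn (fun y : ι' → K => y)) (F G : T → K)
    (hF : F ∈ PolyFn x) (hG : G ∈ PolyFn x) (h : ∀ t, F t * G t = 0) (hG0 : ∃ t, G t ≠ 0) (t : T) :
    F t = 0 := by
  obtain ⟨y, rfl⟩ := hφ t
  obtain ⟨t0, ht0⟩ := hG0
  obtain ⟨y0, rfl⟩ := hφ t0
  exact poly_mul_zero (fun y => F (φ y)) (fun y => G (φ y)) (comp_mem x _ φ hx F hF)
    (comp_mem x _ φ hx G hG) (fun y => h (φ y)) ⟨y0, ht0⟩ y

/-- matrices -/
theorem mat_mul_zero [Infinite K] {I J : Type} (F G : Matrix I J K → K) (hF : F ∈ PolyFn (mcr K))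
    (hG : G ∈ PolyFn (mcr K)) (h : ∀ Z, F Z * G Z = 0) (hG0 : ∃ Z, G Z ≠ 0) (Z : Matrix I J K) :
    F Z = 0 := by
  refine poly_mul_zero' (mcr K) (fun y : I × J → K => Matrix.of fun i j => y (i, j)) ?_ ?_ F G hF hG
    h hG0 Z
  · intro Z
    exact ⟨fun ij => Z ij.1 ij.2, rfl⟩
  · intro ij
    exact coord_mem (fun y : I × J → K => y) ij

end

variable {m : ℕ} {c : Fin m → ℕ} {K : Type} [Field K]

/-- block matrices (use `bpr`) -/
theorem blk_mul_zero [Infinite K] (F G : Blk c K → K) (hF : F ∈ PolyFn (crd c K))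
    (hG : G ∈ PolyFn (crd c K)) (h : ∀ Z, F Z * G Z = 0) (hG0 : ∃ Z, G Z ≠ 0) (Z : Blk c K) :
    F Z = 0 := by
  refine poly_mul_zero' (crd c K)
    (fun y : Fin m × Fin m → K => bpr c (Matrix.of fun i j => y (i, j))) ?_ ?_ F G hF hG h hG0 Z
  · intro Z
    refine ⟨fun ij => Z.1 ij.1 ij.2, ?_⟩
    apply Subtype.ext
    funext i j
    change (if c i = c j then Z.1 i j else 0) = Z.1 i j
    split_ifs with hij
    · rfl
    · exact (Z.2 i j hij).symm
  · intro ij
    by_cases hij : c ij.1 = c ij.2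
    · have e : (fun y : Fin m × Fin m → K =>
          crd c K (bpr c (Matrix.of fun i j => y (i, j))) ij) = fun y => y ij := by
        funext y
        change (if c ij.1 = c ij.2 then y (ij.1, ij.2) else 0) = y ij
        rw [if_pos hij]
      rw [e]
      exact coord_mem (fun y : Fin m × Fin m → K => y) ij
    · have e : (fun y : Fin m × Fin m → K =>
          crd c K (bpr c (Matrix.of fun i j => y (i, j))) ij) = fun _ => 0 := by
        funext y
        change (if c ij.1 = c ij.2 then y (ij.1, ij.2) else 0) = 0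
        rw [if_neg hij]
      rw [e]
      exact const_mem (fun y : Fin m × Fin m → K => y) 0

/-- the multiplication of block matrices is polynomial -/
theorem mul_left_poly (W : Blk c K) (ij : Fin m × Fin m) :
    (fun Z => crd c K (W * Z) ij) ∈ PolyFn (crd c K) := by
  have e : (fun Z => crd c K (W * Z) ij) =
      ∑ l, (fun _ : Blk c K => W.1 ij.1 l) * fun Z => crd c K Z (l, ij.2) := by
    funext Z
    rw [Finset.sum_apply]
    change (W.1 * Z.1) ij.1 ij.2 = _
    rw [Matrix.mul_apply]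
    rfl
  rw [e]
  exact Subalgebra.sum_mem _ fun l _ =>
    (PolyFn (crd c K)).mul_mem (const_mem (crd c K) _) (coord_mem (crd c K) _)

theorem mul_right_poly (W : Blk c K) (ij : Fin m × Fin m) :
    (fun Z => crd c K (Z * W) ij) ∈ PolyFn (crd c K) := by
  have e : (fun Z => crd c K (Z * W) ij) =
      ∑ l, (fun Z : Blk c K => crd c K Z (ij.1, l)) * fun _ => W.1 l ij.2 := by
    funext Z
    rw [Finset.sum_apply]
    change (Z.1 * W.1) ij.1 ij.2 = _
    rw [Matrix.mul_apply]
    rfl
  rw [e]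
  exact Subalgebra.sum_mem _ fun l _ =>
    (PolyFn (crd c K)).mul_mem (coord_mem (crd c K) _) (const_mem (crd c K) _)

end Pool.PI34.A5
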