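import Pool.Agent.LibPI34.A5_Den

/-! PI34, block A5, file Exp: rank one degree and the pivot lemma. -/

set_option autoImplicit false

namespace Pool.PI34.A5

open Finset Matrix

variable {K : Type} [Field K]

/-- coordinates on `T × K` -/
def xt {T ι : Type} (x : T → ι → K) : T × K → Option ι → K := fun p o => o.elim p.2 (x p.1)

theorem poly_expand_aux {T ι : Type} (x : T → ι → K) (F : T × K → K) (hF : F ∈ PolyFn (xt x)) :
    ∃ q : Polynomial (T → K), (∀ j, q.coeff j ∈ PolyFn x) ∧
      ∀ t s, F (t, s) = (q.map (Pi.evalRingHom (fun _ : T => K) t)).eval s := by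
  obtain ⟨p, hp⟩ := (mem_PolyFn _ F).1 hF
  have key : ∃ q : Polynomial (T → K), (∀ j, q.coeff j ∈ PolyFn x) ∧
      ∀ t s, MvPolynomial.eval (xt x (t, s)) p =
        (q.map (Pi.evalRingHom (fun _ : T => K) t)).eval s := by
    clear hp
    induction p using MvPolynomial.induction_on with
    | C a =>
      refine ⟨Polynomial.C (fun _ => a), fun j => ?_, fun t s => ?_⟩
      · rw [Polynomial.coeff_C]
        split_ifs
        · exact const_mem x a
        · exact (PolyFn x).zero_mem
      · rw [MvPolynomial.eval_C, Polynomial.map_C, Polynomial.eval_C]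
        rfl
    | add p q hp hq =>
      obtain ⟨p', hp1, hp2⟩ := hp
      obtain ⟨q', hq1, hq2⟩ := hq
      refine ⟨p' + q', fun j => ?_, fun t s => ?_⟩
      · rw [Polynomial.coeff_add]
        exact (PolyFn x).add_mem (hp1 j) (hq1 j)
      · rw [map_add, hp2, hq2, Polynomial.map_add, Polynomial.eval_add]
    | mul_X p i hp =>
      obtain ⟨p', hp1, hp2⟩ := hp
      cases i with
      | none =>
        refine ⟨p' * Polynomial.X, fun j => ?_, fun t s => ?_⟩
        · cases j with
          | zero =>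
            rw [Polynomial.coeff_mul_X_zero]
            exact (PolyFn x).zero_mem
          | succ j =>
            rw [Polynomial.coeff_mul_X]
            exact hp1 j
        · rw [map_mul, hp2, MvPolynomial.eval_X, Polynomial.map_mul, Polynomial.map_X,
            Polynomial.eval_mul, Polynomial.eval_X]
          rfl
      | some i =>
        refine ⟨p' * Polynomial.C (fun t => x t i), fun j => ?_, fun t s => ?_⟩
        · rw [Polynomial.coeff_mul_C]
          exact (PolyFn x).mul_mem (hp1 j) (coord_mem x i)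
        · rw [map_mul, hp2, MvPolynomial.eval_X, Polynomial.map_mul, Polynomial.map_C,
            Polynomial.eval_mul, Polynomial.eval_C]
          rfl
  obtain ⟨q, hq, h⟩ := key
  exact ⟨q, hq, fun t s => by rw [hp, h]⟩

/-- PROOF.  Induction on the polynomial. -/
theorem poly_expand {T ι : Type} (x : T → ι → K) (F : T × K → K) (hF : F ∈ PolyFn (xt x)) :
    ∃ (D : ℕ) (cf : ℕ → T → K), (∀ j, cf j ∈ PolyFn x) ∧
      ∀ t s, F (t, s) = ∑ j ∈ range D, cf j t * s ^ j := by
  obtain ⟨q, hq, h⟩ := poly_expand_aux x F hF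
  refine ⟨q.natDegree + 1, q.coeff, hq, fun t s => ?_⟩
  rw [h, Polynomial.eval_eq_sum_range' (lt_of_le_of_lt Polynomial.natDegree_map_le
    (Nat.lt_succ_self _))]
  refine Finset.sum_congr rfl fun j _ => ?_
  rw [Polynomial.coeff_map]
  rfl

/-- degree at most `k` along the rank one updates -/
def RD {I J : Type} (k : ℕ) (g : Matrix I J K → K) : Prop :=
  ∀ (Z : Matrix I J K) (u : I → K) (v : J → K), ∃ p : Polynomial K, p.natDegree ≤ k ∧
    ∀ s : K, g (Z + s • Matrix.vecMulVec u v) = p.eval s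

variable [Infinite K] {I J : Type} [Fintype I] [DecidableEq I] [Fintype J] [DecidableEq J]

/-- rank one expansion with coefficients depending polynomially on a parameter: for polynomial maps `Z u v` of `t : T`,
`g (Z t + s u(t) v(t)ᵀ) = ∑_(j ≤ k) s^j cf_j(t)`.  PROOF.  `poly_expand`; the coefficients of `s^j`, `j > k`, vanish at every `t` by `RD`. -/
theorem rd_expand {T ι : Type} (x : T → ι → K) (k : ℕ) (g : Matrix I J K → K)
    (hg : g ∈ PolyFn (mcr K)) (hr : RD k g) (Z : T → Matrix I J K) (u : T → I → K)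
    (v : T → J → K) (hZ : ∀ i j, (fun t => Z t i j) ∈ PolyFn x)
    (hu : ∀ i, (fun t => u t i) ∈ PolyFn x) (hv : ∀ j, (fun t => v t j) ∈ PolyFn x) :
    ∃ cf : ℕ → T → K, (∀ j, cf j ∈ PolyFn x) ∧
      ∀ t s, g (Z t + s • Matrix.vecMulVec (u t) (v t)) = ∑ j ∈ range (k + 1), cf j t * s ^ j := by
  have hfst : ∀ G : T → K, G ∈ PolyFn x → (fun p : T × K => G p.1) ∈ PolyFn (xt x) := by
    intro G hG
    exact comp_mem x (xt x) Prod.fst (fun i => coord_mem (xt x) (some i)) G hG
  have hsnd : (fun p : T × K => p.2) ∈ PolyFn (xt x) := coord_mem (xt x) none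
  have hF : (fun p : T × K => g (Z p.1 + p.2 • Matrix.vecMulVec (u p.1) (v p.1))) ∈
      PolyFn (xt x) := by
    refine comp_mem (mcr K) (xt x)
      (fun p : T × K => Z p.1 + p.2 • Matrix.vecMulVec (u p.1) (v p.1)) ?_ g hg
    rintro ⟨i, j⟩
    have e : (fun p : T × K => mcr K (Z p.1 + p.2 • Matrix.vecMulVec (u p.1) (v p.1)) (i, j)) =
        (fun p : T × K => Z p.1 i j) + (fun p : T × K => p.2) *
          ((fun p : T × K => u p.1 i) * fun p : T × K => v p.1 j) := by
      funext p
      rfl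
    rw [e]
    exact (PolyFn (xt x)).add_mem (hfst _ (hZ i j)) ((PolyFn (xt x)).mul_mem hsnd
      ((PolyFn (xt x)).mul_mem (hfst _ (hu i)) (hfst _ (hv j))))
  obtain ⟨D, cf, hcf, h⟩ := poly_expand x _ hF
  refine ⟨fun j => if j < D then cf j else 0, fun j => ?_, fun t s => ?_⟩
  · dsimp only
    split_ifs
    · exact hcf j
    · exact (PolyFn x).zero_mem
  · obtain ⟨p, hp, hps⟩ := hr (Z t) (u t) (v t)
    have hpe : p = ∑ j ∈ range D, Polynomial.C (cf j t) * Polynomial.X ^ j := by
      apply Polynomial.funext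
      intro s
      rw [← hps, h t s, Polynomial.eval_finsetSum]
      refine Finset.sum_congr rfl fun j _ => ?_
      rw [Polynomial.eval_mul, Polynomial.eval_C, Polynomial.eval_pow, Polynomial.eval_X]
    rw [hps s, Polynomial.eval_eq_sum_range' (Nat.lt_succ_of_le hp)]
    refine Finset.sum_congr rfl fun j _ => ?_
    congr 1
    conv_lhs => rw [hpe]
    rw [Polynomial.finsetSum_coeff]
    simp only [Polynomial.coeff_C_mul, Polynomial.coeff_X_pow, mul_ite, mul_one, mul_zero,
      Finset.sum_ite_eq, Finset.mem_range]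
    split_ifs <;> rfl

/-- existence part of the pivot lemma.  PROOF.  `rd_expand` with `T = Matrix I J K`, `u = -(w - e_q)` (`w` = column `j0` of `Z`), `v` = row `q` of `Z`:
`g' Z = ∑_(j ≤ k) cf_j(Z) (Z q j0)^(k-j)`. -/
theorem pivot_exists (k : ℕ) (g : Matrix I J K → K) (hg : g ∈ PolyFn (mcr K)) (hr : RD k g) (q : I)
    (j0 : J) : ∃ g' : Matrix I J K → K, g' ∈ PolyFn (mcr K) ∧ ∀ Z, Z q j0 ≠ 0 →
      g' Z = (Z q j0) ^ k * g (Z - (Z q j0)⁻¹ •
        Matrix.vecMulVec (fun a => Z a j0 - (1 : Matrix I I K) a q) (fun b => Z q b)) := by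
  obtain ⟨cf, hcf, h⟩ := rd_expand (T := Matrix I J K) (mcr K) k g hg hr (fun t => t)
    (fun t a => -(t a j0 - (1 : Matrix I I K) a q)) (fun t b => t q b)
    (fun i j => coord_mem (mcr K) (i, j))
    (fun i => (PolyFn (mcr K)).neg_mem ((PolyFn (mcr K)).sub_mem (coord_mem (mcr K) (i, j0))
      (const_mem (mcr K) _)))
    (fun j => coord_mem (mcr K) (q, j))
  refine ⟨∑ j ∈ range (k + 1), cf j * (fun t : Matrix I J K => t q j0) ^ (k - j), ?_, ?_⟩
  · exact Subalgebra.sum_mem _ fun j _ => (PolyFn (mcr K)).mul_mem (hcf j)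
      ((PolyFn (mcr K)).pow_mem (coord_mem (mcr K) (q, j0)) _)
  · intro Z hZ
    have e1 : Z - (Z q j0)⁻¹ •
        Matrix.vecMulVec (fun a => Z a j0 - (1 : Matrix I I K) a q) (fun b => Z q b) =
        Z + (Z q j0)⁻¹ •
        Matrix.vecMulVec (fun a => -(Z a j0 - (1 : Matrix I I K) a q)) (fun b => Z q b) := by
      ext a b
      simp only [Matrix.sub_apply, Matrix.add_apply, Matrix.smul_apply, Matrix.vecMulVec_apply,
        smul_eq_mul]
      ring
    rw [e1, h Z (Z q j0)⁻¹, Finset.mul_sum, Finset.sum_apply]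
    refine Finset.sum_congr rfl fun j hj => ?_
    have hjk : j ≤ k := Nat.lt_succ_iff.1 (Finset.mem_range.1 hj)
    change cf j Z * (Z q j0) ^ (k - j) = (Z q j0) ^ k * (cf j Z * (Z q j0)⁻¹ ^ j)
    have e2 : (Z q j0) ^ k = (Z q j0) ^ (k - j) * (Z q j0) ^ j := by
      rw [← pow_add]
      congr 1
      omega
    have e3 : (Z q j0) ^ j * (Z q j0)⁻¹ ^ j = 1 := by
      rw [← mul_pow, mul_inv_cancel₀ hZ, one_pow]
    rw [e2]
    calc cf j Z * (Z q j0) ^ (k - j) = cf j Z * (Z q j0) ^ (k - j) * 1 := (mul_one _).symm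
      _ = cf j Z * (Z q j0) ^ (k - j) * ((Z q j0) ^ j * (Z q j0)⁻¹ ^ j) := by rw [e3]
      _ = _ := by ring

end Pool.PI34.A5
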