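import Pool.Agent.LibPI34.A5_Piv

/-! PI34, block A5, file FA: `det(P)^k f(P⁻¹ Q)` is a polynomial. -/

set_option autoImplicit false

namespace Pool.PI34.A5

open Finset Matrix

variable {K : Type} [Field K] [Infinite K] {I : Type} [Fintype I] [DecidableEq I]

/-- the columns in `S` from `P`, the others from the identity -/
def colrep (P : Matrix I I K) (S : Finset I) : Matrix I I K :=
  Matrix.of fun a b => if b ∈ S then P a b else (1 : Matrix I I K) a b

section fa

variable {K : Type} [Field K] {I : Type} [Fintype I] [DecidableEq I]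

theorem FA_det_poly {T ι : Type} (x : T → ι → K) (Z : T → Matrix I I K)
    (h : ∀ i j, (fun t => Z t i j) ∈ PolyFn x) : (fun t => (Z t).det) ∈ PolyFn x := by
  have e : (fun t => (Z t).det) = ∑ σ : Equiv.Perm I, (fun _ => ((Equiv.Perm.sign σ : ℤ) : K)) *
      ∏ i, fun t => Z t (σ i) i := by
    funext t
    rw [Matrix.det_apply', Finset.sum_apply]
    refine Finset.sum_congr rfl fun σ _ => ?_
    rw [Pi.mul_apply, Finset.prod_apply]
  rw [e]
  exact Subalgebra.sum_mem _ fun σ _ => Subalgebra.mul_mem _ (const_mem x _)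
    (Subalgebra.prod_mem _ fun i _ => h _ _)

theorem FA_mul_poly {T ι J L : Type} (x : T → ι → K) (A : T → Matrix J I K)
    (B : T → Matrix I L K) (hA : ∀ i j, (fun t => A t i j) ∈ PolyFn x)
    (hB : ∀ i j, (fun t => B t i j) ∈ PolyFn x) (i : J) (j : L) :
    (fun t => (A t * B t) i j) ∈ PolyFn x := by
  have e : (fun t => (A t * B t) i j) = ∑ l, (fun t => A t i l) * fun t => B t l j := by
    funext t
    rw [Matrix.mul_apply, Finset.sum_apply]
    rfl
  rw [e]
  exact Subalgebra.sum_mem _ fun l _ => Subalgebra.mul_mem _ (hA _ _) (hB _ _)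

theorem FA_adj_poly {T ι : Type} (x : T → ι → K) (Z : T → Matrix I I K)
    (h : ∀ i j, (fun t => Z t i j) ∈ PolyFn x) (i j : I) :
    (fun t => (Z t).adjugate i j) ∈ PolyFn x := by
  have e : (fun t => (Z t).adjugate i j) =
      fun t => ((Z t).updateRow j (Pi.single i 1)).det := by
    funext t
    rw [Matrix.adjugate_apply]
  rw [e]
  refine FA_det_poly x _ fun a b => ?_
  by_cases ha : a = j
  · subst ha
    have e2 : (fun t => ((Z t).updateRow a (Pi.single i 1)) a b) =
        fun _ => (Pi.single i (1 : K) : I → K) b := by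
      funext t
      rw [Matrix.updateRow_self]
    rw [e2]
    exact const_mem x _
  · have e2 : (fun t => ((Z t).updateRow j (Pi.single i 1)) a b) = fun t => Z t a b := by
      funext t
      rw [Matrix.updateRow_ne ha]
    rw [e2]
    exact h a b

theorem FA_pow_mem {T ι : Type} (x : T → ι → K) (F : T → K) (hF : F ∈ PolyFn x) (n : ℕ) :
    (fun t => F t ^ n) ∈ PolyFn x := by
  have e : (fun t => F t ^ n) = F ^ n := by
    funext t
    rw [Pi.pow_apply]
  rw [e]
  exact Subalgebra.pow_mem _ hF n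

end fa

theorem FA_single (P : Matrix I I K) (q : I) {L : Type} (Z : Matrix I L K) (a : I) (b : L) :
    (colrep P {q} * Z) a b = Z a b + (P a q - (1 : Matrix I I K) a q) * Z q b := by
  have e : colrep P {q} = 1 + Matrix.vecMulVec (fun a => P a q - (1 : Matrix I I K) a q)
      (Pi.single q 1) := by
    ext a b
    rw [Matrix.add_apply, Matrix.vecMulVec_apply, colrep, Matrix.of_apply]
    by_cases hb : b = q
    · subst hb
      rw [if_pos (Finset.mem_singleton_self _), Pi.single_eq_same]
      ring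
    · rw [if_neg (by simpa using hb), Pi.single_eq_of_ne hb]
      ring
  rw [e, Matrix.add_mul, Matrix.add_apply, Matrix.one_mul]
  congr 1
  rw [Matrix.mul_apply]
  simp only [Matrix.vecMulVec_apply]
  rw [Finset.sum_eq_single q]
  · rw [Pi.single_eq_same, mul_one]
  · intro c _ hc
    rw [Pi.single_eq_of_ne hc, mul_zero, zero_mul]
  · intro h
    exact absurd (Finset.mem_univ q) h

/-- `E * (Z - h⁻¹ w z_qᵀ) = Z` -/
theorem FA_cancel (P : Matrix I I K) (q : I) (h : P q q ≠ 0) {L : Type} (Z : Matrix I L K) :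
    colrep P {q} * (Z - (P q q)⁻¹ •
      Matrix.vecMulVec (fun a => P a q - (1 : Matrix I I K) a q) (fun b => Z q b)) = Z := by
  ext a b
  rw [FA_single]
  simp only [Matrix.sub_apply, Matrix.smul_apply, Matrix.vecMulVec_apply, smul_eq_mul,
    Matrix.one_apply_eq]
  have hh : P q q * (P q q)⁻¹ = 1 := mul_inv_cancel₀ h
  linear_combination (-(P a q - (1 : Matrix I I K) a q) * Z q b) * hh

/-- `E_q(P) * colrep (E_q(P)⁻¹ P) T = colrep P (insert q T)` where `E_q(P) = colrep P {q}`, `q ∉ T`;
`E_q⁻¹ Z = Z - (P q q)⁻¹ (P e_q - e_q) z_qᵀ`. -/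
theorem colrep_step (P : Matrix I I K) (q : I) (T : Finset I) (hq : q ∉ T) (h : P q q ≠ 0) :
    colrep P {q} * colrep (P - (P q q)⁻¹ •
      Matrix.vecMulVec (fun a => P a q - (1 : Matrix I I K) a q) (fun b => P q b)) T =
    colrep P (insert q T) := by
  ext a b
  rw [FA_single]
  have h1 := congrFun (congrFun (FA_cancel P q h P) a) b
  rw [FA_single] at h1
  by_cases hb : b ∈ T
  · simp only [colrep, Matrix.of_apply, if_pos hb, if_pos (Finset.mem_insert_of_mem hb)]
    exact h1
  · by_cases hbq : b = q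
    · subst hbq
      simp only [colrep, Matrix.of_apply, if_neg hb, if_pos (Finset.mem_insert_self b T),
        Matrix.one_apply_eq]
      ring
    · simp only [colrep, Matrix.of_apply, if_neg hb, if_neg (show b ∉ insert q T by
        rw [Finset.mem_insert]; push Not; exact ⟨hbq, hb⟩)]
      rw [Matrix.one_apply_ne (Ne.symm hbq), mul_zero, add_zero]

theorem det_colrep_single (P : Matrix I I K) (q : I) : (colrep P {q}).det = P q q := by
  have e : colrep P {q} = (1 : Matrix I I K).updateCol q (fun a => P a q) := by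
    ext a b
    rw [colrep, Matrix.of_apply]
    by_cases hb : b = q
    · subst hb
      rw [if_pos (Finset.mem_singleton_self _), Matrix.updateCol_self]
    · rw [if_neg (by simpa using hb), Matrix.updateCol_ne hb]
  rw [e, ← Matrix.cramer_apply, Matrix.cramer_one]
  rfl

/-- PROOF.  `Finset.induction_on S`.  `S = ∅`: `F [P|Q] = f Q`.  Step `insert q S`: `F' = ` pivot of `F` (`pivot_exists`, `pivot_RD`) at the row `q`
and the column `inl q`.  For `P` with all `det (colrep P T) ≠ 0`, `T ⊆ insert q S`: `P q q = det (colrep P {q}) ≠ 0`, so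
`F' [P|Q] = (P q q)^k F [E⁻¹ P | E⁻¹ Q]`, `E = colrep P {q}`, and `E * colrep (E⁻¹ P) T = colrep P (insert q T)` (`colrep_step`), so the
hypothesis of the induction holds for `E⁻¹ P` and `(P q q)^k det(colrep (E⁻¹P) S)^k f((colrep (E⁻¹ P) S)⁻¹ E⁻¹ Q) = det(colrep P (insert q S))^k f(..)`. -/
theorem exists_FS (k : ℕ) (f : Matrix I I K → K) (hf : f ∈ PolyFn (mcr K)) (hr : RD k f)
    (S : Finset I) : ∃ F : Matrix I (I ⊕ I) K → K, F ∈ PolyFn (mcr K) ∧ RD k F ∧
      ∀ P Q : Matrix I I K, (∀ T ⊆ S, (colrep P T).det ≠ 0) →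
        F (Matrix.fromCols P Q) = (colrep P S).det ^ k * f ((colrep P S)⁻¹ * Q) := by
  induction S using Finset.induction_on with
  | empty =>
    refine ⟨fun Z => f Z.toCols₂, ?_, ?_, ?_⟩
    · exact comp_mem (mcr K) (mcr K) (fun Z : Matrix I (I ⊕ I) K => Z.toCols₂)
        (fun ij => coord_mem (mcr K) (ij.1, Sum.inr ij.2)) f hf
    · intro Z u v
      obtain ⟨p, hp, hp2⟩ := hr Z.toCols₂ u (fun j => v (Sum.inr j))
      refine ⟨p, hp, fun s => ?_⟩
      rw [← hp2 s]
      rfl
    · intro P Q _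
      have e : colrep P ∅ = 1 := by
        ext a b
        simp [colrep]
      rw [e]
      simp
  | insert q S hq ih =>
    obtain ⟨F, hF, hRD, hF2⟩ := ih
    obtain ⟨g', hg', hg2⟩ := pivot_exists k F hF hRD q (Sum.inl q)
    refine ⟨g', hg', pivot_RD k F g' hRD hg' q (Sum.inl q) hg2, ?_⟩
    intro P Q hPQ
    have hqq : P q q ≠ 0 := by
      rw [← det_colrep_single P q]
      exact hPQ {q} (Finset.singleton_subset_iff.2 (Finset.mem_insert_self q S))
    have hE : (colrep P {q}).det ≠ 0 := by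
      rw [det_colrep_single]
      exact hqq
    have h1 := hg2 (Matrix.fromCols P Q) hqq
    have h2 : Matrix.fromCols P Q - ((Matrix.fromCols P Q) q (Sum.inl q))⁻¹ •
        Matrix.vecMulVec (fun a => (Matrix.fromCols P Q) a (Sum.inl q) - (1 : Matrix I I K) a q)
          (fun b => (Matrix.fromCols P Q) q b) =
        Matrix.fromCols (P - (P q q)⁻¹ • Matrix.vecMulVec
          (fun a => P a q - (1 : Matrix I I K) a q) (fun b => P q b))
          (Q - (P q q)⁻¹ • Matrix.vecMulVec
          (fun a => P a q - (1 : Matrix I I K) a q) (fun b => Q q b)) := by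
      ext a b
      rcases b with b | b <;> rfl
    rw [h2] at h1
    have hT : ∀ T ⊆ S, (colrep (P - (P q q)⁻¹ • Matrix.vecMulVec
          (fun a => P a q - (1 : Matrix I I K) a q) (fun b => P q b)) T).det ≠ 0 := by
      intro T hT h0
      have h3 := congrArg Matrix.det (colrep_step P q T (fun h => hq (hT h)) hqq)
      rw [Matrix.det_mul, h0, mul_zero] at h3
      exact hPQ (insert q T) (Finset.insert_subset_insert q hT) h3.symm
    have h4 := hF2 _ (Q - (P q q)⁻¹ • Matrix.vecMulVec
          (fun a => P a q - (1 : Matrix I I K) a q) (fun b => Q q b)) hT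
    rw [h4] at h1
    rw [h1, ← colrep_step P q S hq hqq, Matrix.det_mul, det_colrep_single, mul_pow, mul_assoc]
    congr 2
    rw [Matrix.mul_inv_rev, Matrix.mul_assoc]
    nth_rewrite 3 [← FA_cancel P q hqq Q]
    rw [Matrix.nonsing_inv_mul_cancel_left _ _ (isUnit_iff_ne_zero.2 hE)]

theorem FA_adj_smul (d : ℕ) (f : Matrix I I K → K)
    (hd : ∀ (s : K) (B : Matrix I I K), f (s • B) = s ^ d * f B) (P Q : Matrix I I K)
    (hP : P.det ≠ 0) : f (P.adjugate * Q) = P.det ^ d * f (P⁻¹ * Q) := by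
  rw [← hd, ← Matrix.smul_mul, Matrix.inv_def, smul_smul, Ring.mul_inverse_cancel _
    (isUnit_iff_ne_zero.2 hP), one_smul]

/-- PROOF.  `exists_FS` with `S = univ`, `colrep P univ = P`; `f(adj(P) Q) = f(det(P) P⁻¹ Q) = det(P)^d f(P⁻¹ Q)`, so the identity holds when all the
`det (colrep P T) ≠ 0`; `mat_mul_zero` on `Matrix I (I ⊕ I) K` with `G [P|Q] = ∏_T det (colrep P T)` (nonzero at `P = 1`). -/
theorem exists_F (k d : ℕ) (f : Matrix I I K → K) (hf : f ∈ PolyFn (mcr K)) (hr : RD k f)
    (hd : ∀ (s : K) (B : Matrix I I K), f (s • B) = s ^ d * f B) :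
    ∃ F : Matrix I (I ⊕ I) K → K, F ∈ PolyFn (mcr K) ∧
      ∀ P Q : Matrix I I K, P.det ^ d * F (Matrix.fromCols P Q) =
        P.det ^ k * f (P.adjugate * Q) := by
  obtain ⟨F, hF, _, hF2⟩ := exists_FS k f hf hr univ
  refine ⟨F, hF, fun P Q => ?_⟩
  have hc1 : ∀ i j, (fun Z : Matrix I (I ⊕ I) K => Z.toCols₁ i j) ∈ PolyFn (mcr K) := fun i j =>
    coord_mem (mcr K) (i, Sum.inl j)
  have hc2 : ∀ i j, (fun Z : Matrix I (I ⊕ I) K => Z.toCols₂ i j) ∈ PolyFn (mcr K) := fun i j =>
    coord_mem (mcr K) (i, Sum.inr j)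
  have hdet := FA_det_poly (mcr K) (fun Z : Matrix I (I ⊕ I) K => Z.toCols₁) hc1
  have hadj : (fun Z : Matrix I (I ⊕ I) K => f (Z.toCols₁.adjugate * Z.toCols₂)) ∈
      PolyFn (mcr K) :=
    comp_mem (mcr K) (mcr K) (fun Z : Matrix I (I ⊕ I) K => Z.toCols₁.adjugate * Z.toCols₂)
      (fun ij => FA_mul_poly (mcr K) (fun Z : Matrix I (I ⊕ I) K => Z.toCols₁.adjugate)
        (fun Z => Z.toCols₂) (FA_adj_poly (mcr K) _ hc1) hc2 ij.1 ij.2) f hf
  have hH : (fun Z : Matrix I (I ⊕ I) K => Z.toCols₁.det ^ d * F Z -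
      Z.toCols₁.det ^ k * f (Z.toCols₁.adjugate * Z.toCols₂)) ∈ PolyFn (mcr K) :=
    Subalgebra.sub_mem _ (Subalgebra.mul_mem _ (FA_pow_mem _ _ hdet d) hF)
      (Subalgebra.mul_mem _ (FA_pow_mem _ _ hdet k) hadj)
  have hG : (fun Z : Matrix I (I ⊕ I) K => ∏ T : Finset I, (colrep Z.toCols₁ T).det) ∈
      PolyFn (mcr K) := by
    have e : (fun Z : Matrix I (I ⊕ I) K => ∏ T : Finset I, (colrep Z.toCols₁ T).det) =
        ∏ T : Finset I, fun Z : Matrix I (I ⊕ I) K => (colrep Z.toCols₁ T).det := by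
      funext Z
      rw [Finset.prod_apply]
    rw [e]
    refine Subalgebra.prod_mem _ fun T _ => FA_det_poly (mcr K) _ fun i j => ?_
    by_cases hj : j ∈ T
    · have e2 : (fun Z : Matrix I (I ⊕ I) K => colrep Z.toCols₁ T i j) =
          fun Z => Z.toCols₁ i j := by
        funext Z
        simp [colrep, hj]
      rw [e2]
      exact hc1 i j
    · have e2 : (fun Z : Matrix I (I ⊕ I) K => colrep Z.toCols₁ T i j) =
          fun _ => (1 : Matrix I I K) i j := by
        funext Z
        simp [colrep, hj]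
      rw [e2]
      exact const_mem _ _
  have h0 := mat_mul_zero _ _ hH hG (fun Z => by
    by_cases hall : ∀ T : Finset I, (colrep Z.toCols₁ T).det ≠ 0
    · have hu : colrep Z.toCols₁ univ = Z.toCols₁ := by
        ext a b
        simp [colrep]
      have h1 := hF2 Z.toCols₁ Z.toCols₂ (fun T _ => hall T)
      have hP := hall univ
      rw [hu] at h1 hP
      rw [Matrix.fromCols_toCols] at h1
      have h2 : Z.toCols₁.det ^ d * F Z -
          Z.toCols₁.det ^ k * f (Z.toCols₁.adjugate * Z.toCols₂) = 0 := by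
        rw [h1, FA_adj_smul d f hd _ _ hP]
        ring
      change (Z.toCols₁.det ^ d * F Z -
          Z.toCols₁.det ^ k * f (Z.toCols₁.adjugate * Z.toCols₂)) * _ = 0
      rw [h2, zero_mul]
    · push Not at hall
      obtain ⟨T, hT⟩ := hall
      change _ * ∏ T : Finset I, (colrep Z.toCols₁ T).det = 0
      rw [Finset.prod_eq_zero (Finset.mem_univ T) hT, mul_zero])
    ⟨Matrix.fromCols 1 0, by
      change ∏ T : Finset I, (colrep (Matrix.fromCols (1 : Matrix I I K)
        (0 : Matrix I I K)).toCols₁ T).det ≠ 0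
      rw [Matrix.toCols₁_fromCols]
      refine Finset.prod_ne_zero_iff.2 fun T _ => ?_
      have e : colrep (1 : Matrix I I K) T = 1 := by
        ext a b
        simp [colrep]
      rw [e, Matrix.det_one]
      exact one_ne_zero⟩ (Matrix.fromCols P Q)
  have h1 : P.det ^ d * F (Matrix.fromCols P Q) - P.det ^ k * f (P.adjugate * Q) = 0 := h0
  exact sub_eq_zero.1 h1

end Pool.PI34.A5
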