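import Pool.Agent.LibPI34.A5_FA

/-! PI34, block A5, file FP: properties of the polynomial `F [P|Q] = det(P)^k f(P⁻¹ Q)`. -/

set_option autoImplicit false

namespace Pool.PI34.A5

open Finset Matrix

variable {K : Type} [Field K] [Infinite K] {I : Type} [Fintype I] [DecidableEq I]

/-- the coordinates of a product are polynomial, determinants are polynomial (used everywhere below) -/
theorem det_poly {T ι : Type} (x : T → ι → K) (Z : T → Matrix I I K)
    (h : ∀ i j, (fun t => Z t i j) ∈ PolyFn x) : (fun t => (Z t).det) ∈ PolyFn x :=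
  FA_det_poly x Z h

theorem F_one (k d : ℕ) (f : Matrix I I K → K) (F : Matrix I (I ⊕ I) K → K)
    (h : ∀ P Q : Matrix I I K, P.det ^ d * F (Matrix.fromCols P Q) =
      P.det ^ k * f (P.adjugate * Q)) (B : Matrix I I K) : F (Matrix.fromCols 1 B) = f B := by
  have h1 := h 1 B
  simpa using h1

theorem FP_c1 (i : I) (j : I) :
    (fun Z : Matrix I (I ⊕ I) K => Z.toCols₁ i j) ∈ PolyFn (mcr K) :=
  coord_mem (mcr K) (i, Sum.inl j)

theorem FP_c2 (i : I) (j : I) :
    (fun Z : Matrix I (I ⊕ I) K => Z.toCols₂ i j) ∈ PolyFn (mcr K) :=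
  coord_mem (mcr K) (i, Sum.inr j)

theorem FP_c (i : I) (j : I ⊕ I) :
    (fun Z : Matrix I (I ⊕ I) K => Z i j) ∈ PolyFn (mcr K) :=
  coord_mem (mcr K) (i, j)

/-- density: an identity which holds after multiplication with `det(P)^d` -/
theorem FP_dense (d : ℕ) (H : Matrix I (I ⊕ I) K → K) (hH : H ∈ PolyFn (mcr K))
    (h : ∀ Z : Matrix I (I ⊕ I) K, H Z * Z.toCols₁.det ^ d = 0) (Z : Matrix I (I ⊕ I) K) :
    H Z = 0 :=
  mat_mul_zero H (fun Z => Z.toCols₁.det ^ d) hH
    (FA_pow_mem _ _ (FA_det_poly (mcr K) _ FP_c1) d) h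
    ⟨Matrix.fromCols 1 0, by
      change (Matrix.fromCols (1 : Matrix I I K) (0 : Matrix I I K)).toCols₁.det ^ d ≠ 0
      rw [Matrix.toCols₁_fromCols, Matrix.det_one, one_pow]
      exact one_ne_zero⟩ Z

/-- PROOF.  For `det g ≠ 0`: `det(gP)^d F(g [P|Q]) = det(gP)^k f(adj(P) adj(g) g Q) = det(gP)^k det(g)^d f(adj(P) Q) = det(gP)^d det(g)^k F [P|Q]`;
cancel `det(gP)^d` (`mat_mul_zero` in `[P|Q]`).  Then for all `g`: `mat_mul_zero` in `g` with `G g = det g`. -/
theorem F_mul (k d : ℕ) (f : Matrix I I K → K) (F : Matrix I (I ⊕ I) K → K)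
    (hF : F ∈ PolyFn (mcr K)) (hd : ∀ (s : K) (B : Matrix I I K), f (s • B) = s ^ d * f B)
    (h : ∀ P Q : Matrix I I K, P.det ^ d * F (Matrix.fromCols P Q) =
      P.det ^ k * f (P.adjugate * Q)) (g : Matrix I I K) (Z : Matrix I (I ⊕ I) K) :
    F (g * Z) = g.det ^ k * F Z := by
  have key : ∀ g : Matrix I I K, g.det ≠ 0 → ∀ Z : Matrix I (I ⊕ I) K,
      F (g * Z) - g.det ^ k * F Z = 0 := by
    intro g hg
    refine FP_dense d (fun Z => F (g * Z) - g.det ^ k * F Z) ?_ ?_
    · refine Subalgebra.sub_mem _ ?_ (Subalgebra.mul_mem _ (const_mem _ _) hF)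
      exact comp_mem (mcr K) (mcr K) (fun Z : Matrix I (I ⊕ I) K => g * Z)
        (fun ij => FA_mul_poly (mcr K) (fun _ => g) (fun Z => Z) (fun i j => const_mem _ _)
          FP_c ij.1 ij.2) F hF
    · intro Z
      have h1 := h (g * Z.toCols₁) (g * Z.toCols₂)
      have h2 := h Z.toCols₁ Z.toCols₂
      rw [Matrix.fromCols_toCols] at h2
      have h3 : Matrix.fromCols (g * Z.toCols₁) (g * Z.toCols₂) = g * Z := by
        rw [← Matrix.mul_fromCols, Matrix.fromCols_toCols]
      have h4 : (g * Z.toCols₁).adjugate * (g * Z.toCols₂) =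
          g.det • (Z.toCols₁.adjugate * Z.toCols₂) := by
        rw [Matrix.adjugate_mul_distrib, Matrix.mul_assoc, ← Matrix.mul_assoc g.adjugate,
          Matrix.adjugate_mul, Matrix.smul_mul, Matrix.one_mul, Matrix.mul_smul]
      rw [h3, h4, hd, Matrix.det_mul, mul_pow, mul_pow] at h1
      have h5 : g.det ^ d ≠ 0 := pow_ne_zero _ hg
      have h6 : g.det ^ d * ((F (g * Z) - g.det ^ k * F Z) * Z.toCols₁.det ^ d) = 0 := by
        linear_combination h1 - g.det ^ d * g.det ^ k * h2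
      exact (mul_eq_zero.1 h6).resolve_left h5
  have h1 := mat_mul_zero (fun g : Matrix I I K => F (g * Z) - g.det ^ k * F Z)
    (fun g => g.det) ?_ ?_ ?_ ⟨1, by rw [Matrix.det_one]; exact one_ne_zero⟩ g
  · exact sub_eq_zero.1 h1
  · refine Subalgebra.sub_mem _ ?_ (Subalgebra.mul_mem _
      (FA_pow_mem _ _ (FA_det_poly (mcr K) (fun g => g) fun i j => coord_mem (mcr K) (i, j)) k)
      (const_mem _ _))
    exact comp_mem (mcr K) (mcr K) (fun g : Matrix I I K => g * Z)
      (fun ij => FA_mul_poly (mcr K) (fun g => g) (fun _ => Z)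
        (fun i j => coord_mem (mcr K) (i, j)) (fun i j => const_mem _ _) ij.1 ij.2) F hF
  · exact FA_det_poly (mcr K) (fun g => g) fun i j => coord_mem (mcr K) (i, j)
  · intro g
    by_cases hg : g.det = 0
    · change _ * g.det = 0
      rw [hg, mul_zero]
    · change (F (g * Z) - g.det ^ k * F Z) * _ = 0
      rw [key g hg Z, zero_mul]

/-- the inverse of an invertible block matrix is a block matrix -/
theorem FP_inv {N : ℕ} (c : Fin N → ℕ) (g : Blk c K) (hg : g.1.det ≠ 0) :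
    ∃ g' : Blk c K, g * g' = 1 ∧ g'.1 = g.1⁻¹ := by
  have hu : IsUnit g.1.det := isUnit_iff_ne_zero.2 hg
  have hcomm : ∀ s : ℕ, g.1 * Matrix.diagonal (fun i => if c i = s then (1 : K) else 0) =
      Matrix.diagonal (fun i => if c i = s then (1 : K) else 0) * g.1 := by
    intro s
    ext i j
    rw [Matrix.mul_diagonal, Matrix.diagonal_mul]
    by_cases hij : c i = c j
    · rw [hij, mul_comm]
    · rw [g.2 i j hij, zero_mul, mul_zero]
  have hcomm2 : ∀ s : ℕ, g.1⁻¹ * Matrix.diagonal (fun i => if c i = s then (1 : K) else 0) =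
      Matrix.diagonal (fun i => if c i = s then (1 : K) else 0) * g.1⁻¹ := by
    intro s
    have h1 : g.1⁻¹ * (Matrix.diagonal (fun i => if c i = s then (1 : K) else 0) * g.1) * g.1⁻¹ =
        g.1⁻¹ * (g.1 * Matrix.diagonal (fun i => if c i = s then (1 : K) else 0)) * g.1⁻¹ := by
      rw [hcomm]
    rw [Matrix.nonsing_inv_mul_cancel_left _ _ hu, Matrix.mul_assoc,
      Matrix.mul_nonsing_inv_cancel_right _ _ hu] at h1
    exact h1
  refine ⟨⟨g.1⁻¹, fun i j hij => ?_⟩, Subtype.ext (Matrix.mul_nonsing_inv _ hu), rfl⟩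
  have h2 := congrFun (congrFun (hcomm2 (c i)) i) j
  rw [Matrix.mul_diagonal, Matrix.diagonal_mul, if_pos rfl, if_neg (Ne.symm hij), mul_zero,
    one_mul] at h2
  exact h2.symm

/-- PROOF.  Same: for invertible block `g`: `adj(Pg) Q g = adj(g) adj(P) Q g = det(g) g⁻¹ (adj(P) Q) g`, so
`det(Pg)^d F [Pg|Qg] = det(Pg)^k det(g)^d f(adj(P) Q) = det(Pg)^d det(g)^k F [P|Q]`.  Cancel; then for all block `g` by `blk_mul_zero`. -/
theorem F_conj {N : ℕ} (c : Fin N → ℕ) (k d : ℕ) (f : Matrix (Fin N) (Fin N) K → K)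
    (F : Matrix (Fin N) (Fin N ⊕ Fin N) K → K) (hF : F ∈ PolyFn (mcr K))
    (hd : ∀ (s : K) (B : Matrix (Fin N) (Fin N) K), f (s • B) = s ^ d * f B)
    (h : ∀ P Q : Matrix (Fin N) (Fin N) K, P.det ^ d * F (Matrix.fromCols P Q) =
      P.det ^ k * f (P.adjugate * Q))
    (hi : ∀ g g' : Blk c K, g * g' = 1 → ∀ B : Matrix (Fin N) (Fin N) K,
      f (g'.1 * B * g.1) = f B) (g : Blk c K) (P Q : Matrix (Fin N) (Fin N) K) :
    F (Matrix.fromCols (P * g.1) (Q * g.1)) = g.1.det ^ k * F (Matrix.fromCols P Q) := by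
  have key : ∀ g : Blk c K, g.1.det ≠ 0 → ∀ Z : Matrix (Fin N) (Fin N ⊕ Fin N) K,
      F (Matrix.fromCols (Z.toCols₁ * g.1) (Z.toCols₂ * g.1)) - g.1.det ^ k * F Z = 0 := by
    intro g hg
    obtain ⟨g', hgg, hg'⟩ := FP_inv c g hg
    refine FP_dense d (fun Z => F (Matrix.fromCols (Z.toCols₁ * g.1) (Z.toCols₂ * g.1)) -
      g.1.det ^ k * F Z) ?_ ?_
    · refine Subalgebra.sub_mem _ ?_ (Subalgebra.mul_mem _ (const_mem _ _) hF)
      refine comp_mem (mcr K) (mcr K) (fun Z : Matrix (Fin N) (Fin N ⊕ Fin N) K =>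
        Matrix.fromCols (Z.toCols₁ * g.1) (Z.toCols₂ * g.1)) ?_ F hF
      rintro ⟨i, j | j⟩
      · exact FA_mul_poly (mcr K) (fun Z : Matrix (Fin N) (Fin N ⊕ Fin N) K => Z.toCols₁)
          (fun _ => g.1) FP_c1 (fun i j => const_mem _ _) i j
      · exact FA_mul_poly (mcr K) (fun Z : Matrix (Fin N) (Fin N ⊕ Fin N) K => Z.toCols₂)
          (fun _ => g.1) FP_c2 (fun i j => const_mem _ _) i j
    · intro Z
      have h1 := h (Z.toCols₁ * g.1) (Z.toCols₂ * g.1)
      have h2 := h Z.toCols₁ Z.toCols₂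
      rw [Matrix.fromCols_toCols] at h2
      have h3 : g.1.adjugate = g.1.det • g'.1 := by
        rw [hg', Matrix.inv_def, smul_smul, Ring.mul_inverse_cancel _
          (isUnit_iff_ne_zero.2 hg), one_smul]
      have h4 : (Z.toCols₁ * g.1).adjugate * (Z.toCols₂ * g.1) =
          g.1.det • (g'.1 * (Z.toCols₁.adjugate * Z.toCols₂) * g.1) := by
        rw [Matrix.adjugate_mul_distrib, h3]
        simp only [Matrix.smul_mul, Matrix.mul_assoc]
      rw [h4, hd, hi g g' hgg, Matrix.det_mul, mul_pow, mul_pow] at h1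
      have h5 : g.1.det ^ d ≠ 0 := pow_ne_zero _ hg
      have h6 : g.1.det ^ d * ((F (Matrix.fromCols (Z.toCols₁ * g.1) (Z.toCols₂ * g.1)) -
          g.1.det ^ k * F Z) * Z.toCols₁.det ^ d) = 0 := by
        linear_combination h1 - g.1.det ^ d * g.1.det ^ k * h2
      exact (mul_eq_zero.1 h6).resolve_left h5
  have h1 := blk_mul_zero (fun g : Blk c K => F (Matrix.fromCols (P * g.1) (Q * g.1)) -
      g.1.det ^ k * F (Matrix.fromCols P Q))
    (fun g => g.1.det) ?_ ?_ ?_ ⟨1, by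
      change (1 : Matrix (Fin N) (Fin N) K).det ≠ 0
      rw [Matrix.det_one]
      exact one_ne_zero⟩ g
  · exact sub_eq_zero.1 h1
  · refine Subalgebra.sub_mem _ ?_ (Subalgebra.mul_mem _
      (FA_pow_mem _ _ (FA_det_poly (crd c K) (fun g => g.1) fun i j =>
        coord_mem (crd c K) (i, j)) k) (const_mem _ _))
    refine comp_mem (mcr K) (crd c K) (fun g : Blk c K =>
        Matrix.fromCols (P * g.1) (Q * g.1)) ?_ F hF
    rintro ⟨i, j | j⟩
    · exact FA_mul_poly (crd c K) (fun _ => P) (fun g => g.1) (fun i j => const_mem _ _)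
        (fun i j => coord_mem (crd c K) (i, j)) i j
    · exact FA_mul_poly (crd c K) (fun _ => Q) (fun g => g.1) (fun i j => const_mem _ _)
        (fun i j => coord_mem (crd c K) (i, j)) i j
  · exact FA_det_poly (crd c K) (fun g => g.1) fun i j => coord_mem (crd c K) (i, j)
  · intro g
    by_cases hg : g.1.det = 0
    · change _ * g.1.det = 0
      rw [hg, mul_zero]
    · have h2 := key g hg (Matrix.fromCols P Q)
      rw [Matrix.toCols₁_fromCols, Matrix.toCols₂_fromCols] at h2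
      change (F (Matrix.fromCols (P * g.1) (Q * g.1)) -
        g.1.det ^ k * F (Matrix.fromCols P Q)) * _ = 0
      rw [h2, zero_mul]

end Pool.PI34.A5
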