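import Pool.Agent.LibPI34.BA_F6b

/-! PI34, block BA, file F7: from the generation statement (GEN) to the rank bound. -/

set_option autoImplicit false

namespace Pool.PI34.BA

open Equiv Finset Matrix

/-- the coefficient of the monomial `η` (in the entries of the generic matrices) of the determinant, as a polynomial in
`B` over `K` -/
noncomputable def thetaK (X : Type) [Fintype X] [DecidableEq X] (k n : ℕ) (K : Type) [Field K]
    (η : Option X × Fin k × Fin k →₀ ℕ) :
    MvPolynomial (Option (X × Fin n) × Option (X × Fin n)) K :=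
  ∑ ξ ∈ (theta X k n).support,
    MvPolynomial.monomial ξ (((thetaXi X k n ξ).coeff η : ℤ) : K)

/-- (GEN) the generation statement (helper28): `F_k(K)` is contained in the span of the coefficients of
`det (1 + [B_ab (x_{l(b)})_{ij}])`. -/
def GEN (X : Type) [Fintype X] [DecidableEq X] (k n : ℕ) : Prop :=
  ∀ (K : Type) [Field K] [Infinite K],
    FF X k n K ≤ Submodule.span K (Set.range (thetaK X k n K))

/-- linear algebra: let `v : Ξ → H → ℤ` be a family (`Ξ`, `H` finite); the `K`-span of the columns has dimension at most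
the rank of the `ℤ`-span of the rows.  (a basis `b` of the span of the rows: `v_ξ = Σ_i a_{ξ i} b_i`, so all the columns
are in the span of the vectors `(a_{ξ i})_ξ`.) -/
theorem finrank_columns_le {Ξ H : Type} [Fintype Ξ] [Fintype H] (v : Ξ → H → ℤ) (K : Type)
    [Field K] :
    Module.finrank K (Submodule.span K (Set.range fun (η : H) (ξ : Ξ) => ((v ξ η : ℤ) : K))) ≤
      Module.finrank ℤ (Submodule.span ℤ (Set.range v)) := by
  classical
  set L := Submodule.span ℤ (Set.range v) with hL
  let b := Module.finBasis ℤ L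
  have hv : ∀ ξ, v ξ ∈ L := fun ξ => Submodule.subset_span ⟨ξ, rfl⟩
  let a : Ξ → Fin (Module.finrank ℤ L) → ℤ := fun ξ i => b.repr ⟨v ξ, hv ξ⟩ i
  have h1 : ∀ ξ η, v ξ η = ∑ i, a ξ i * (b i : H → ℤ) η := by
    intro ξ η
    have h2 := b.sum_repr ⟨v ξ, hv ξ⟩
    have h3 := congrArg (fun y : L => (y : H → ℤ) η) h2
    simp only [AddSubmonoidClass.coe_finsetSum, Finset.sum_apply, Submodule.coe_smul,
      Pi.smul_apply, smul_eq_mul] at h3
    exact h3.symm
  have h2 : Submodule.span K (Set.range fun (η : H) (ξ : Ξ) => ((v ξ η : ℤ) : K)) ≤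
      Submodule.span K (Set.range fun (i : Fin (Module.finrank ℤ L)) (ξ : Ξ) =>
        ((a ξ i : ℤ) : K)) := by
    rw [Submodule.span_le]
    rintro _ ⟨η, rfl⟩
    have h3 : (fun ξ => ((v ξ η : ℤ) : K)) =
        ∑ i, (((b i : H → ℤ) η : ℤ) : K) • fun ξ => ((a ξ i : ℤ) : K) := by
      funext ξ
      rw [Finset.sum_apply, h1 ξ η]
      push_cast
      refine Finset.sum_congr rfl fun i _ => ?_
      rw [Pi.smul_apply, smul_eq_mul, mul_comm]
    show (fun ξ => ((v ξ η : ℤ) : K)) ∈ _
    rw [h3]
    exact Submodule.sum_mem _ fun i _ => Submodule.smul_mem _ _ (Submodule.subset_span ⟨i, rfl⟩)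
  refine le_trans (Submodule.finrank_mono h2) ?_
  refine le_trans (finrank_range_le_card _) ?_
  rw [Fintype.card_fin]

theorem finite_goodMon (X : Type) [Fintype X] (n : ℕ) : {ξ : Mon X n | GoodMon ξ}.Finite := by
  classical
  refine Set.Finite.subset (Finset.finsuppAntidiag
    (univ : Finset (Option (X × Fin n) × Option (X × Fin n))) (n + 1)).finite_toSet ?_
  intro ξ hξ
  rw [Finset.mem_coe, Finset.mem_finsuppAntidiag]
  refine ⟨?_, Finset.subset_univ _⟩
  have h1 := hξ.1
  rw [Finsupp.sum_fintype _ _ (fun _ => rfl)] at h1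
  exact h1

/-- PROOF.  `FF → K^{good}`, `f ↦ (coeff ξ f)_{ξ good}` is injective; by (GEN) its image is in the span of the columns of the
integer matrix `((Θ_ξ)_η)_{ξ good, η}`; `finrank_columns_le`; the rows are the `Θ_ξ = κ(P_ξ)` (`kap_Pxi`), so their span
is the image of the span of the `P_ξ` under `κ`. -/
theorem rankBound_of_GEN {X : Type} [Fintype X] [DecidableEq X] {k n : ℕ} {ι : Type} [Fintype ι]
    [DecidableEq ι] (p q : Fin k ↪ ι) (z : ι) (hF : Frame p q z) (h : GEN X k n) :
    RankBound X k n p q z := by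
  classical
  intro K _ _
  haveI hfin : Fintype {ξ : Mon X n // GoodMon ξ} := (finite_goodMon X n).fintype
  set Ξ := {ξ : Mon X n // GoodMon ξ} with hΞ
  set Hf : Finset (Option X × Fin k × Fin k →₀ ℕ) :=
    (univ : Finset Ξ).biUnion fun ξ => (thetaXi X k n ξ.1).support with hHf
  set v : Ξ → Hf → ℤ := fun ξ η => (thetaXi X k n ξ.1).coeff η.1 with hv
  -- restriction to the good coefficients
  let R : MvPolynomial (Option (X × Fin n) × Option (X × Fin n)) K →ₗ[K] (Ξ → K) :=
    LinearMap.pi fun ξ => MvPolynomial.lcoeff K ξ.1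
  have hR : ∀ f ξ, R f ξ = f.coeff ξ.1 := fun f ξ => rfl
  have hth : ∀ η (ξ : Ξ), R (thetaK X k n K η) ξ = (((thetaXi X k n ξ.1).coeff η : ℤ) : K) := by
    intro η ξ
    rw [hR]
    unfold thetaK
    rw [MvPolynomial.coeff_sum]
    simp only [MvPolynomial.coeff_monomial]
    rw [Finset.sum_ite_eq' (theta X k n).support ξ.1]
    split_ifs with h1
    · rfl
    · have h2 : thetaXi X k n ξ.1 = 0 := by
        rw [MvPolynomial.notMem_support_iff] at h1
        exact h1
      rw [h2, MvPolynomial.coeff_zero, Int.cast_zero]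
  have h1 : Module.finrank K (FF X k n K) ≤
      Module.finrank K (Submodule.span K
        (Set.range fun (η : Hf) (ξ : Ξ) => ((v ξ η : ℤ) : K))) := by
    have h2 : (FF X k n K).map R ≤ Submodule.span K
        (Set.range fun (η : Hf) (ξ : Ξ) => ((v ξ η : ℤ) : K)) := by
      refine le_trans (Submodule.map_mono (h K)) ?_
      rw [Submodule.map_span, Submodule.span_le]
      rintro _ ⟨_, ⟨η, rfl⟩, rfl⟩
      by_cases hη : η ∈ Hf
      · refine Submodule.subset_span ⟨⟨η, hη⟩, ?_⟩
        funext ξ
        rw [hth]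
      · have h3 : R (thetaK X k n K η) = 0 := by
          funext ξ
          rw [hth]
          have h4 : (thetaXi X k n ξ.1).coeff η = 0 := by
            rw [← MvPolynomial.notMem_support_iff]
            intro h5
            apply hη
            rw [hHf, Finset.mem_biUnion]
            exact ⟨ξ, mem_univ _, h5⟩
          rw [h4, Int.cast_zero]
          rfl
        rw [h3]
        exact Submodule.zero_mem _
    have hinj : Function.Injective (R.domRestrict (FF X k n K)) := by
      rw [injective_iff_map_eq_zero]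
      rintro ⟨f, hf⟩ h0
      have h3 : ∀ ξ : Ξ, f.coeff ξ.1 = 0 := fun ξ => congrFun h0 ξ
      apply Subtype.ext
      show f = 0
      ext ξ
      rw [MvPolynomial.coeff_zero]
      by_contra hne
      exact hne (h3 ⟨ξ, hf.1 ξ hne⟩)
    have h4 : Module.finrank K (FF X k n K) = Module.finrank K ((FF X k n K).map R) := by
      have h5 := LinearMap.finrank_range_of_inj hinj
      rw [← h5, LinearMap.range_domRestrict]
    rw [h4]
    exact Submodule.finrank_mono h2
  refine le_trans h1 (le_trans (finrank_columns_le v K) ?_)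
  -- the rows
  let Lam : Module.End (CG X k) ((ι → Fin k) → CG X k) →ₗ[ℤ] (Hf → ℤ) :=
    LinearMap.pi fun η => (MvPolynomial.lcoeff ℤ η.1 : CO X k →ₗ[ℤ] ℤ) ∘ₗ
      (kap X p q z).toIntLinearMap
  have hLam : ∀ (ξ : Ξ), Lam (Pxi (matStr k (CG X k) ι) p q z (gen X k) n ξ.1) = v ξ := by
    intro ξ
    funext η
    show (kap X p q z (Pxi (matStr k (CG X k) ι) p q z (gen X k) n ξ.1)).coeff η.1 = v ξ η
    rw [kap_Pxi p q z hF n ξ.1 ξ.2]
  have h6 : Submodule.span ℤ (Set.range v) ≤ (Submodule.span ℤ (Set.range fun ξ =>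
      Pxi (matStr k (CG X k) ι) p q z (gen X k) n ξ)).map Lam := by
    rw [Submodule.span_le]
    rintro _ ⟨ξ, rfl⟩
    exact ⟨_, Submodule.subset_span ⟨ξ.1, rfl⟩, hLam ξ⟩
  haveI hfg : Module.Finite ℤ (Submodule.span ℤ (Set.range fun ξ =>
      Pxi (matStr k (CG X k) ι) p q z (gen X k) n ξ)) :=
    Module.Finite.iff_fg.2 (Submodule.fg_span (Finsupp.finite_range _))
  exact le_trans (Submodule.finrank_mono h6) (Submodule.finrank_map_le _ _)

end Pool.PI34.BA
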