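import Pool.Agent.LibPI34.GD_5
import Pool.Agent.LibPI34.BA_F7

/-! PI34, block A5 (GEN), part D, file 6: (CD) implies (GEN). -/

set_option autoImplicit false

namespace Pool.PI34.GD

open Equiv Finset Matrix Pool.PI34.BA

variable {X : Type} [Fintype X] [DecidableEq X] {k n : ℕ}

/-- the colour of an index -/
def col {X : Type} {n : ℕ} (a : Option (X × Fin n)) : Option X := a.map Prod.fst

/-- the statement (CD) delivered by helper28 -/
def CD (X : Type) [Fintype X] [DecidableEq X] (k n : ℕ) (K : Type) [Field K] : Prop :=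
  ∀ f ∈ FF X k n K, ∃ Th : (Fin k × Option (X × Fin n) → Option (Option (X × Fin n))) → K,
    AltC Th ∧ LI col Th ∧ ∀ B, evF K f B = fT Th (fun _ => B)

theorem evF_monomial {K : Type} [Field K] (ξ : Mon X n) (a : K)
    (B : Matrix (Option (X × Fin n)) (Option (X × Fin n)) K) :
    evF K (MvPolynomial.monomial ξ a) B = a * evMon B ξ := by
  rw [evF, MvPolynomial.aeval_monomial]
  rfl

/-- the value of `thetaK` at `B` is the coefficient of the generic determinant
(the index sets `Fin k × A` and `A × Fin k` are exchanged) -/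
theorem evF_thetaK (K : Type) [Field K] (η : Option X × Fin k × Fin k →₀ ℕ)
    (B : Matrix (Option (X × Fin n)) (Option (X × Fin n)) K) :
    evF K (thetaK X k n K η) B =
      ((1 + MX col (genX (Option X) k K) (fun _ => B.map MvPolynomial.C)).det).coeff η := by
  have h1 : evF K (thetaK X k n K η) B =
      ∑ ξ ∈ (theta X k n).support, (((thetaXi X k n ξ).coeff η : ℤ) : K) * evMon B ξ := by
    rw [thetaK, evF, map_sum]
    exact Finset.sum_congr rfl fun ξ _ => evF_monomial ξ _ B
  have h2 : (1 + MX col (genX (Option X) k K) (fun _ => B.map MvPolynomial.C)).det =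
      (1 + bigN (fun s => Matrix.of fun i j =>
        (MvPolynomial.map (Int.castRingHom K) : CO X k →+* _) (MvPolynomial.X (s, i, j)))
        (B.map (MvPolynomial.C : K →+* MvPolynomial (Option X × Fin k × Fin k) K))).det := by
    rw [← Matrix.det_submatrix_equiv_self (Equiv.prodComm (Fin k) (Option (X × Fin n)))]
    congr 1
    ext1 ⟨r, a⟩ ⟨t, b⟩
    simp only [Matrix.submatrix_apply, Matrix.add_apply, Equiv.prodComm_apply, Prod.swap_prod_mk,
      MX, bigN, genX, Matrix.of_apply, MvPolynomial.map_X]
    congr 1
    simp only [Matrix.one_apply, Prod.mk.injEq]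
    exact if_congr (and_comm) rfl rfl
  rw [h1, h2, eval_theta, MvPolynomial.coeff_sum]
  refine Finset.sum_congr rfl fun ξ _ => ?_
  rw [F6b_evMon_map, mul_comm (MvPolynomial.map _ _), MvPolynomial.coeff_C_mul, MvPolynomial.coeff_map,
    mul_comm]
  rfl

/-- the column content of a monomial -/
def wt (ξ : Mon X n) (s : Option X) : ℕ :=
  ∑ ab : Option (X × Fin n) × Option (X × Fin n), if col ab.2 = s then ξ ab else 0

theorem wt_none (ξ : Mon X n) : wt ξ none = ∑ a, ξ (a, none) := by
  rw [wt, Fintype.sum_prod_type]
  refine Finset.sum_congr rfl fun a _ => ?_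
  rw [Fintype.sum_option]
  simp [col]

theorem sum_wt (ξ : Mon X n) : ∑ s, wt ξ s = ξ.sum fun _ e => e := by
  simp only [wt]
  rw [Finset.sum_comm, Finsupp.sum_fintype _ _ (fun _ => rfl)]
  refine Finset.sum_congr rfl fun ab _ => ?_
  rw [Finset.sum_ite_eq]
  simp

theorem wt_good (ξ : Mon X n) (h : GoodMon ξ) :
    wt ξ none = 1 ∧ ∑ s, wt ξ (some s) = n := by
  have h1 : wt ξ none = 1 := by rw [wt_none]; exact h.2.2
  refine ⟨h1, ?_⟩
  have h2 := sum_wt ξ
  rw [h.1, Fintype.sum_option, h1] at h2
  omega

theorem evMon_scale {K : Type} [Field K] (ξ : Mon X n)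
    (B : Matrix (Option (X × Fin n)) (Option (X × Fin n)) K) (z : Option X → K) :
    evMon (B * Matrix.diagonal fun b => z (col b)) ξ = (∏ s, z s ^ wt ξ s) * evMon B ξ := by
  unfold evMon
  rw [Finsupp.prod_fintype _ _ (fun v => pow_zero _), Finsupp.prod_fintype _ _ (fun v => pow_zero _)]
  have h1 : ∏ s, z s ^ wt ξ s =
      ∏ ab : Option (X × Fin n) × Option (X × Fin n), z (col ab.2) ^ ξ ab := by
    simp only [wt, ← Finset.prod_pow_eq_pow_sum]
    rw [Finset.prod_comm]
    refine Finset.prod_congr rfl fun ab _ => ?_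
    rw [Finset.prod_eq_single (col ab.2)]
    · rw [if_pos rfl]
    · intro s _ hs
      rw [if_neg (Ne.symm hs), pow_zero]
    · intro h
      exact absurd (Finset.mem_univ _) h
  rw [h1, ← Finset.prod_mul_distrib]
  refine Finset.prod_congr rfl fun ab _ => ?_
  rw [Matrix.mul_diagonal, mul_pow, mul_comm]

/-- contents which occur in `f`: `f(B diag(z_c))` has only monomials `z^d` with `d none = 1`, `Σ_s d (some s) = n`
(`GoodMon`), so the other homogeneous parts of `Th` vanish on the diagonal `(B, …, B)` -/
theorem fT_eq_sum_good {K : Type} [Field K] [Infinite K]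
    (f : MvPolynomial (Option (X × Fin n) × Option (X × Fin n)) K) (hf : f ∈ FF X k n K)
    (Th : (Fin k × Option (X × Fin n) → Option (Option (X × Fin n))) → K)
    (h : ∀ B, evF K f B = fT Th (fun _ => B)) (d : Option X → ℕ)
    (hd : ¬ (d none = 1 ∧ ∑ s, d (some s) = n))
    (B : Matrix (Option (X × Fin n)) (Option (X × Fin n)) K) :
    fT (hom col d Th) (fun _ => B) = 0 := by
  classical
  let P : MvPolynomial (Option X) K :=
    ∑ ψ : Fin k × Option (X × Fin n) → Option (Option (X × Fin n)),
      MvPolynomial.monomial (Finsupp.equivFunOnFinite.symm (ct col ψ)) (Th ψ * mm ψ (fun _ => B))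
  let Q : MvPolynomial (Option X) K :=
    ∑ ξ ∈ f.support,
      MvPolynomial.monomial (Finsupp.equivFunOnFinite.symm (wt ξ)) (f.coeff ξ * evMon B ξ)
  have hmon : ∀ (w : Option X → ℕ) (a : K) (z : Option X → K),
      MvPolynomial.eval z (MvPolynomial.monomial (Finsupp.equivFunOnFinite.symm w) a) =
        (∏ s, z s ^ w s) * a := by
    intro w a z
    rw [MvPolynomial.eval_monomial, Finsupp.prod_fintype _ _ (fun _ => pow_zero _), mul_comm]
    rfl
  have hPQ : P = Q := by
    apply MvPolynomial.funext
    intro z
    have h1 : MvPolynomial.eval z P =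
        fT Th (fun _ => B * Matrix.diagonal fun b => z (col b)) := by
      rw [fT_scale col Th (fun _ => B) z, map_sum]
      exact Finset.sum_congr rfl fun ψ _ => hmon _ _ _
    have h2 : MvPolynomial.eval z Q = evF K f (B * Matrix.diagonal fun b => z (col b)) := by
      have h3 : evF K f (B * Matrix.diagonal fun b => z (col b)) =
          ∑ ξ ∈ f.support, f.coeff ξ * evMon (B * Matrix.diagonal fun b => z (col b)) ξ := by
        conv_lhs => rw [f.as_sum]
        rw [evF, map_sum]
        exact Finset.sum_congr rfl fun ξ _ => evF_monomial ξ _ _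
      rw [h3, map_sum]
      refine Finset.sum_congr rfl fun ξ _ => ?_
      rw [hmon, evMon_scale]
      ring
    rw [h1, h2, h]
  have hP : P.coeff (Finsupp.equivFunOnFinite.symm d) = fT (hom col d Th) (fun _ => B) := by
    rw [MvPolynomial.coeff_sum, fT]
    refine Finset.sum_congr rfl fun ψ _ => ?_
    rw [MvPolynomial.coeff_monomial, hom]
    by_cases hψ : ct col ψ = d
    · rw [if_pos hψ, if_pos (by rw [hψ])]
    · rw [if_neg hψ, if_neg (fun h' => hψ (Finsupp.equivFunOnFinite.symm.injective h')), zero_mul]
  rw [← hP, hPQ, MvPolynomial.coeff_sum]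
  refine Finset.sum_eq_zero fun ξ hξ => ?_
  rw [MvPolynomial.coeff_monomial, if_neg]
  intro h'
  have h3 : wt ξ = d := Finsupp.equivFunOnFinite.symm.injective h'
  apply hd
  rw [← h3]
  exact wt_good ξ (hf.1 ξ (MvPolynomial.mem_support_iff.1 hξ))

/-- a good content is the colour content of a set of indices -/
theorem exists_D (d : Option X → ℕ) (h1 : d none = 1) (h2 : ∑ s, d (some s) = n) :
    ∃ D : Finset (Option (X × Fin n)), ∀ s, (D.filter fun b => col b = s).card = d s := by
  classical
  refine ⟨univ.filter fun b => ∀ y : X × Fin n, b = some y → (y.2 : ℕ) < d (some y.1), ?_⟩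
  intro s
  rcases s with _ | s
  · rw [h1, Finset.card_eq_one]
    refine ⟨none, ?_⟩
    ext b
    simp only [Finset.mem_filter, Finset.mem_univ, true_and, Finset.mem_singleton]
    constructor
    · rintro ⟨_, hb⟩
      rcases b with _ | b
      · rfl
      · simp [col] at hb
    · rintro rfl
      refine ⟨fun y hy => absurd hy (by simp), rfl⟩
  · have hle : d (some s) ≤ n := by
      rw [← h2]
      exact Finset.single_le_sum (f := fun s => d (some s)) (fun _ _ => Nat.zero_le _) (Finset.mem_univ s)
    have h3 : (univ.filter fun b : Option (X × Fin n) =>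
        ∀ y : X × Fin n, b = some y → (y.2 : ℕ) < d (some y.1)).filter (fun b => col b = some s) =
        (univ.filter fun j : Fin n => (j : ℕ) < d (some s)).image fun j => some (s, j) := by
      ext b
      simp only [Finset.mem_filter, Finset.mem_univ, true_and, Finset.mem_image]
      constructor
      · rintro ⟨hb, hc⟩
        rcases b with _ | ⟨x, j⟩
        · simp [col] at hc
        · have hx : x = s := by simpa [col] using hc
          subst hx
          exact ⟨j, hb _ rfl, rfl⟩
      · rintro ⟨j, hj, rfl⟩
        refine ⟨?_, rfl⟩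
        intro y hy
        have := Option.some.inj hy
        rw [← this]
        exact hj
    rw [h3, Finset.card_image_of_injective]
    · rw [Fin.card_filter_val_lt]
      exact min_eq_right hle
    · intro i j hij
      have := Option.some.inj hij
      exact (Prod.ext_iff.1 this).2

/-- ASSEMBLY.  `f(B) = Σ_d fT (hom d Th) (B, …, B)` over the finitely many contents which occur, only good `d` matter,
`hom_span`, `evF_thetaK`, and `MvPolynomial.funext`. -/
theorem mem_span_of_CD {K : Type} [Field K] [Infinite K] (h : CD X k n K) :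
    FF X k n K ≤ Submodule.span K (Set.range (thetaK X k n K)) := by
  classical
  intro f hf
  obtain ⟨Th, hA, hL, hTh⟩ := h f hf
  -- every content
  have hco : ∀ d : Option X → ℕ, ∃ g ∈ Submodule.span K (Set.range (thetaK X k n K)),
      ∀ B, evF K g B = fT (hom col d Th) (fun _ => B) := by
    intro d
    by_cases hd : d none = 1 ∧ ∑ s, d (some s) = n
    · obtain ⟨D, hD⟩ := exists_D d hd.1 hd.2
      obtain ⟨co, hco⟩ := hom_span col (hom col d Th) (hom_LI col d Th hL) (hom_AltC col d Th hA) d
        (fun ψ hψ => by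
          by_contra hc
          exact hψ (if_neg hc)) D hD
      refine ⟨co.sum fun m y => y • thetaK X k n K m, ?_, ?_⟩
      · exact Submodule.sum_mem _ fun m _ => Submodule.smul_mem _ _ (Submodule.subset_span ⟨m, rfl⟩)
      · intro B
        rw [hco B, evF, Finsupp.sum, map_sum, Finsupp.sum]
        refine Finset.sum_congr rfl fun m _ => ?_
        rw [map_smul, smul_eq_mul, ← evF_thetaK]
        rfl
    · refine ⟨0, Submodule.zero_mem _, fun B => ?_⟩
      rw [fT_eq_sum_good f hf Th hTh d hd B, evF, map_zero]
  choose g hg hgB using hco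
  have hf' : f = ∑ d ∈ univ.image (fun ψ : Fin k × Option (X × Fin n) →
      Option (Option (X × Fin n)) => ct col ψ), g d := by
    apply MvPolynomial.funext
    intro z
    have h1 : ∀ F : MvPolynomial (Option (X × Fin n) × Option (X × Fin n)) K,
        MvPolynomial.eval z F = evF K F (Matrix.of fun a b => z (a, b)) := by
      intro F
      rw [evF, MvPolynomial.aeval_eq_eval]
      rfl
    rw [map_sum]
    simp only [h1, hgB]
    rw [hTh]
    simp only [fT]
    rw [Finset.sum_comm]
    refine Finset.sum_congr rfl fun ψ _ => ?_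
    rw [← Finset.sum_mul]
    congr 1
    simp only [hom]
    rw [Finset.sum_ite_eq, if_pos (Finset.mem_image_of_mem _ (Finset.mem_univ ψ))]
  rw [hf']
  exact Submodule.sum_mem _ fun d _ => hg d

theorem GEN_of_CD (h : ∀ (K : Type) [Field K] [Infinite K], CD X k n K) : GEN X k n :=
  fun K _ _ => mem_span_of_CD (h K)

end Pool.PI34.GD
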