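import Pool.Agent.LibPI34.A5_CD
import Pool.Agent.LibPI34.GD_6

/-! PI34, block A5, file Fin: the generation statement (GEN). -/

set_option autoImplicit false

namespace Pool.PI34.A5

open Finset Matrix

/-- (CD) of `GD_6` -/
theorem CD_GD (X : Type) [Fintype X] [DecidableEq X] (k n : ℕ) (K : Type) [Field K] [Infinite K] :
    Pool.PI34.GD.CD X k n K := by
  intro f hf
  obtain ⟨Th, h1, h2, h3⟩ := CD f hf
  refine ⟨Th, ⟨fun ψ r a a' h4 h5 h6 => (h1 ψ r a a' h4 h5 h6).1, fun ψ r a a' h4 h5 h6 => ?_⟩,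
    h2, h3⟩
  have h7 : ψ (r, a') ≠ none := fun h => h5 (h6.trans h)
  exact (h1 ψ r a a' h4 h5 h7).2 h6

/-- (GEN) -/
theorem GEN_all (X : Type) [Fintype X] [DecidableEq X] (k n : ℕ) : Pool.PI34.BA.GEN X k n :=
  Pool.PI34.GD.GEN_of_CD fun K _ _ => CD_GD X k n K

end Pool.PI34.A5
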