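import Pool.Agent.LibPI34.A5_Br2

/-! PI34, block A5, file G1: good representations, structure at the top weight. -/

set_option autoImplicit false

namespace Pool.PI34.A5

open Finset Matrix

variable {m : ℕ} {c : Fin m → ℕ} {K : Type} [Field K] [Infinite K]

omit [Infinite K] in
theorem finrank_ext (X Y Z : PRep c K) (i : X.V →ₗ[K] Y.V) (p : Y.V →ₗ[K] Z.V)
    (h : Ext X Y Z i p) :
    Module.finrank K Y.V = Module.finrank K X.V + Module.finrank K Z.V := by
  have h1 := LinearMap.finrank_range_add_finrank_ker p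
  rw [LinearMap.range_eq_top.2 h.surj, finrank_top, ← h.ex,
    LinearMap.finrank_range_of_inj h.inj] at h1
  omega

/-- PROOF.  `finrank Y = finrank X + finrank Z = chi X + chi Z ≥ chi Y` (`chi_ext`), and `T4`. -/
theorem good_ext (hc : Monotone c) (X Y Z : PRep c K) (i : X.V →ₗ[K] Y.V) (p : Y.V →ₗ[K] Z.V)
    (h : Ext X Y Z i p) (hX : Good X) (hZ : Good Z) : Good Y := by
  have h1 := finrank_ext X Y Z i p h
  have h2 := chi_ext hc X Y Z i p h
  have h3 := T4 c hc Y
  unfold Good at *
  rw [h1] at h3 ⊢
  push_cast at h3 ⊢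
  rw [hX, hZ] at h3 ⊢
  exact le_antisymm h3 h2

/-- PROOF.  `finrank_hom`, `hom_hs`, `chi_eq_sum` with `W = M.W`. -/
theorem chi_hom (M : PRep c K) (V : Type) [AddCommGroup V] [Module K V]
    [FiniteDimensional K V] : chi (M.hom V) = (Module.finrank K V : ℤ) * chi M := by
  have h1 : ∀ κ, κ ∉ M.W → (M.hom V).hs κ = ⊥ := by
    intro κ hκ
    rw [← Submodule.finrank_eq_zero (R := K), hom_hs, hs_W M κ hκ, finrank_bot, mul_zero]
  rw [chi_eq_sum (M.hom V) M.W h1, chi_eq_sum M M.W (fun κ hκ => hs_W M κ hκ), Finset.mul_sum]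
  refine Finset.sum_congr rfl fun κ _ => ?_
  rw [hom_hs]
  push_cast
  ring

theorem good_hom (M : PRep c K) (V : Type) [AddCommGroup V] [Module K V]
    [FiniteDimensional K V] (h : Good M) : Good (M.hom V) := by
  unfold Good at *
  rw [chi_hom, finrank_hom, ← h]
  push_cast
  ring

theorem good_of_hom (M : PRep c K) (V : Type) [AddCommGroup V] [Module K V]
    [FiniteDimensional K V] (hV : 0 < Module.finrank K V) (h : Good (M.hom V)) : Good M := by
  unfold Good at *
  rw [chi_hom, finrank_hom] at h
  push_cast at h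
  have h1 : (0 : ℤ) < (Module.finrank K V : ℤ) := by exact_mod_cast hV
  exact mul_left_cancel₀ h1.ne' h

theorem kth_V (M : PRep c K) (lam : Fin m → ℕ) (h : IsTop M lam) :
    Module.finrank K (kth M lam h).V = Module.finrank K (LinearMap.ker (theta M lam h)) := rfl

/-- the chain of inequalities -/
theorem chain_eq (hc : Monotone c) (M : PRep c K) (lam : Fin m → ℕ) (h : IsTop M lam)
    (hM : Good M) : Good (kth M lam h) ∧
    Module.finrank K (LinearMap.range (theta M lam h)) =
      Module.finrank K (M.wd lam) * Module.finrank K (nabS c K lam) ∧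
    (Module.finrank K (M.wd lam) : ℤ) * (Module.finrank K (nabS c K lam) : ℤ) =
      (Module.finrank K (M.wd lam) : ℤ) * Dt c lam := by
  have h1 := LinearMap.finrank_range_add_finrank_ker (theta M lam h)
  have h2 : Module.finrank K (LinearMap.range (theta M lam h)) ≤
      Module.finrank K (M.wd lam) * Module.finrank K (nabS c K lam) := by
    have h3 := finrank_hom (nab c K lam) (M.wd lam)
    rw [show Module.finrank K (nab c K lam).V = Module.finrank K (nabS c K lam) from rfl] at h3
    rw [← h3]
    exact Submodule.finrank_le _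
  have h4 : (Module.finrank K (M.wd lam) : ℤ) * (Module.finrank K (nabS c K lam) : ℤ) ≤
      (Module.finrank K (M.wd lam) : ℤ) * Dt c lam := by
    by_cases hd : Dom c lam
    · exact mul_le_mul_of_nonneg_left (nab_le c hc lam hd) (by positivity)
    · have h5 : M.wt lam = ⊥ := by
        rw [eq_bot_iff, ← hs_nondom M lam hd]
        intro v hv
        exact ⟨hv, fun g hg => top_lo M lam h g hg v hv⟩
      have h6 : Module.finrank K (M.wd lam) = 0 := by
        rw [finrank_wd, h5, finrank_bot]
      rw [h6]
      simp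
  have h7 := T4 c hc (kth M lam h)
  have h8 := chi_kth hc M lam h
  have h9 := kth_V M lam h
  unfold Good at hM
  rw [← h1] at hM
  push_cast at hM
  rw [h9] at h7
  have h2' : (Module.finrank K (LinearMap.range (theta M lam h)) : ℤ) ≤
      (Module.finrank K (M.wd lam) : ℤ) * (Module.finrank K (nabS c K lam) : ℤ) := by
    exact_mod_cast h2
  refine ⟨?_, ?_, ?_⟩
  · unfold Good
    rw [h9]
    linarith
  · have h10 : (Module.finrank K (LinearMap.range (theta M lam h)) : ℤ) =
      (Module.finrank K (M.wd lam) : ℤ) * (Module.finrank K (nabS c K lam) : ℤ) := by linarith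
    exact_mod_cast h10
  · linarith

/-- PROOF.  `finrank M = finrank ker + finrank range ≤ finrank (kth) + finrank (wd λ) finrank (nabS λ) ≤ chi (kth) + finrank (wd λ) Dt λ ≤ chi M = finrank M`
(`T4`, `nab_le`, `chi_kth`; if `λ` is not dominant then `wd λ = 0` because `wt λ = hs λ = ⊥`, `finrank_wd`).
So all are equalities. -/
theorem good_kth (hc : Monotone c) (M : PRep c K) (lam : Fin m → ℕ) (h : IsTop M lam)
    (hM : Good M) : Good (kth M lam h) := (chain_eq hc M lam h hM).1

/-- same chain of inequalities: `finrank (range theta) = finrank (wd λ) * finrank (nabS λ) = finrank` of the target -/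
theorem theta_surj (hc : Monotone c) (M : PRep c K) (lam : Fin m → ℕ) (h : IsTop M lam)
    (hM : Good M) : Function.Surjective (theta M lam h) := by
  rw [← LinearMap.range_eq_top]
  apply Submodule.eq_top_of_finrank_eq
  rw [(chain_eq hc M lam h hM).2.1, finrank_hom]
  rfl

/-- same chain: if `wt λ ≠ ⊥` then `finrank (nabS λ) = Dt λ`; and `chi (nab λ) = finrank (hs λ) Dt λ ≤ Dt λ = finrank ≤ chi` (`nab_hs_le`, `nab_hs_ne`, `T4`). -/
theorem good_nab (hc : Monotone c) (M : PRep c K) (lam : Fin m → ℕ) (h : IsTop M lam)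
    (hM : Good M) (hw : M.wt lam ≠ ⊥) : Good (nab c K lam) := by
  have h1 := (chain_eq hc M lam h hM).2.2
  have h2 : (Module.finrank K (M.wd lam) : ℤ) ≠ 0 := by
    intro h3
    have h4 : Module.finrank K (M.wd lam) = 0 := by exact_mod_cast h3
    rw [finrank_wd, Submodule.finrank_eq_zero] at h4
    exact hw h4
  have h3 : (Module.finrank K (nabS c K lam) : ℤ) = Dt c lam := mul_left_cancel₀ h2 h1
  have h4 : chi (nab c K lam) =
      (Module.finrank K ((nab c K lam).hs lam) : ℤ) * Dt c lam := by
    rw [chi_eq_sum (nab c K lam) {lam} (fun κ hκ => nab_hs_ne c lam κ (by simpa using hκ)),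
      Finset.sum_singleton]
  have h5 := T4 c hc (nab c K lam)
  have h6 := nab_hs_le (K := K) c lam lam
  have h7 : (Module.finrank K (nab c K lam).V : ℤ) = Dt c lam := h3
  unfold Good
  refine le_antisymm h5 ?_
  rw [h4, h7]
  have h8 : (0 : ℤ) ≤ Dt c lam := by rw [← h3]; positivity
  have h9 : (Module.finrank K ((nab c K lam).hs lam) : ℤ) ≤ 1 := by exact_mod_cast h6
  calc (Module.finrank K ((nab c K lam).hs lam) : ℤ) * Dt c lam ≤ 1 * Dt c lam :=
        mul_le_mul_of_nonneg_right h9 h8
    _ = Dt c lam := one_mul _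

/-- the exact sequence of `theta` -/
theorem ext_theta (hc : Monotone c) (M : PRep c K) (lam : Fin m → ℕ) (h : IsTop M lam)
    (hM : Good M) : Ext (kth M lam h) M ((nab c K lam).hom (M.wd lam))
      (LinearMap.ker (theta M lam h)).subtype (theta M lam h) where
  ei := fun _ _ => rfl
  ep := theta_eqv M lam h
  inj := Subtype.val_injective
  surj := theta_surj hc M lam h hM
  ex := Submodule.range_subtype _

theorem finrank_kth_lt (M : PRep c K) (lam : Fin m → ℕ) (h : IsTop M lam)
    (hw : M.wt lam ≠ ⊥) : Module.finrank K (kth M lam h).V < Module.finrank K M.V := by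
  rw [kth_V]
  apply Submodule.finrank_lt
  intro htop
  apply hw
  rw [eq_bot_iff]
  intro v hv
  rw [Submodule.mem_bot]
  exact ker_theta_wt M lam h v (by rw [htop]; trivial) hv

end Pool.PI34.A5
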