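import Pool.Agent.LibPI34.A5_Den

/-! PI34, block A5, file Lau: the matrices `[[0,1],[-1,d]]`, non dominant weights. -/

set_option autoImplicit false

namespace Pool.PI34.A5

open Finset Matrix

variable {m : ℕ} {c : Fin m → ℕ} {K : Type} [Field K]

private theorem eq_of_ne_zero [Infinite K] (p q : Polynomial K)
    (h : ∀ d : K, d ≠ 0 → p.eval d = q.eval d) : p = q := by
  have e : Polynomial.X * p = Polynomial.X * q := by
    refine Polynomial.funext fun d => ?_
    rw [Polynomial.eval_mul, Polynomial.eval_mul, Polynomial.eval_X]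
    by_cases hd : d = 0
    · rw [hd, zero_mul, zero_mul]
    · rw [h d hd]
  exact mul_left_cancel₀ Polynomial.X_ne_zero e

private theorem reverse_eq [Infinite K] (p a : Polynomial K) (e : ℕ)
    (h : ∀ d : K, d ≠ 0 → d ^ e * p.eval d = a.eval d⁻¹) :
    p * Polynomial.X ^ (e + a.natDegree) = a.reverse := by
  refine eq_of_ne_zero _ _ fun d hd => ?_
  haveI : Invertible (d⁻¹) := invertibleOfNonzero (inv_ne_zero hd)
  have h1 := Polynomial.eval₂_reverse_mul_pow (RingHom.id K) (d⁻¹) a
  rw [invOf_eq_inv, inv_inv] at h1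
  change a.reverse.eval d * _ = a.eval d⁻¹ at h1
  rw [← h d hd] at h1
  have h2 : a.reverse.eval d = d ^ e * p.eval d * d ^ a.natDegree := by
    rw [← h1, mul_assoc, ← mul_pow, inv_mul_cancel₀ hd, one_pow, mul_one]
  rw [h2, Polynomial.eval_mul, Polynomial.eval_pow, Polynomial.eval_X, pow_add]
  ring

/-- PROOF.  Multiply by `d ^ natDegree a`: as polynomials `X^(e + natDegree a) * p = a.reverse`-like polynomial
`∑_q a_q X^(natDegree a - q)` of degree `≤ natDegree a`, (they agree at all `d ≠ 0`, infinitely many points). So the coefficients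
vanish. -/
theorem laurent_zero [Infinite K] (p a : Polynomial K) (e : ℕ) (he : 0 < e)
    (h : ∀ d : K, d ≠ 0 → d ^ e * p.eval d = a.eval d⁻¹) : a = 0 := by
  have h1 := reverse_eq p a e h
  by_cases hp : p = 0
  · rw [hp, zero_mul] at h1
    exact Polynomial.reverse_eq_zero.1 h1.symm
  · exfalso
    have h2 := congrArg Polynomial.natDegree h1
    rw [Polynomial.natDegree_mul_X_pow _ hp] at h2
    have h3 := a.reverse_natDegree_le
    omega

/-- same with `e = 0`: `a` is constant -/
theorem laurent_const [Infinite K] (p a : Polynomial K)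
    (h : ∀ d : K, d ≠ 0 → p.eval d = a.eval d⁻¹) (x : K) : a.eval x = a.eval 0 := by
  have h1 := reverse_eq p a 0 fun d hd => by rw [pow_zero, one_mul]; exact h d hd
  rw [Nat.zero_add] at h1
  have hp0 : p.natDegree = 0 := by
    by_cases hp : p = 0
    · rw [hp]
      simp
    · have h2 := congrArg Polynomial.natDegree h1
      rw [Polynomial.natDegree_mul_X_pow _ hp] at h2
      have h3 := a.reverse_natDegree_le
      omega
  have h4 : a = Polynomial.C (p.coeff 0) := by
    refine eq_of_ne_zero _ _ fun d hd => ?_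
    have h5 := h d⁻¹ (inv_ne_zero hd)
    rw [inv_inv] at h5
    rw [← h5, Polynomial.eq_C_of_natDegree_eq_zero hp0]
    simp
  rw [h4]
  simp

/-- the identity matrix with the block `[[0,1],[-1,d]]` at `i, j` -/
def zd (i j : Fin m) (h : c i = c j) (d : K) : Blk c K :=
  ⟨Matrix.of fun a b => if a = i then (if b = j then 1 else 0)
    else if a = j then (if b = i then -1 else if b = j then d else 0) else (1 : Matrix _ _ K) a b, by
    intro a b hab
    rw [Matrix.of_apply]
    split_ifs with h1 h2 h3 h4 h5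
    · exact absurd (by rw [h1, h2, h]) hab
    · rfl
    · exact absurd (by rw [h3, h4, h]) hab
    · exact absurd (by rw [h3, h5]) hab
    · rfl
    · exact Matrix.one_apply_ne fun e => hab (by rw [e])⟩

theorem zd_poly (i j : Fin m) (h : c i = c j) (ab) :
    (fun d : Fin 1 → K => crd c K (zd (c := c) i j h (d 0)) ab) ∈
      PolyFn (fun x : Fin 1 → K => x) := by
  obtain ⟨a, b⟩ := ab
  change (fun d : Fin 1 → K => if a = i then (if b = j then (1 : K) else 0)
    else if a = j then (if b = i then -1 else if b = j then d 0 else 0) else (1 : Matrix _ _ K) a b) ∈ _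
  split_ifs
  · exact const_mem _ 1
  · exact const_mem _ 0
  · exact const_mem _ (-1)
  · exact coord_mem (fun x : Fin 1 → K => x) 0
  · exact const_mem _ 0
  · exact const_mem _ _

private theorem el_mul_apply (i j : Fin m) (x : K) (Z : Matrix (Fin m) (Fin m) K) (a b : Fin m) :
    ((1 + Matrix.single i j x) * Z) a b = Z a b + if a = i then x * Z j b else 0 := by
  rw [Matrix.add_mul, Matrix.one_mul, Matrix.add_apply]
  congr 1
  split_ifs with h
  · rw [h, Matrix.single_mul_apply_same]
  · rw [Matrix.single_mul_apply_of_ne _ _ _ _ _ h]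

private theorem mul_el_apply (i j : Fin m) (x : K) (Z : Matrix (Fin m) (Fin m) K) (a b : Fin m) :
    (Z * (1 + Matrix.single i j x)) a b = Z a b + if b = j then Z a i * x else 0 := by
  rw [Matrix.mul_add, Matrix.mul_one, Matrix.add_apply]
  congr 1
  split_ifs with h
  · rw [h, Matrix.mul_single_apply_same]
  · rw [Matrix.mul_single_apply_of_ne _ _ _ _ _ h]

/-- `[[0,1],[-1,d]] = [[1,1/d],[0,1]] * diag(1/d, d) * [[1,0],[-1/d,1]]` -/
theorem zd_eq (i j : Fin m) (hij : i ≠ j) (h : c i = c j) (d : K) (hd : d ≠ 0) :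
    zd (c := c) i j h d = el c i j h d⁻¹ *
      dg c (Function.update (Function.update 1 i d⁻¹) j d) * el c j i h.symm (-d⁻¹) := by
  refine Subtype.ext (Matrix.ext fun a b => ?_)
  obtain ⟨t, ht⟩ : ∃ t : Fin m → K, t = Function.update (Function.update (1 : Fin m → K) i d⁻¹) j d := ⟨_, rfl⟩
  have hti : t i = d⁻¹ := by
    rw [ht, Function.update_of_ne hij, Function.update_self]
  have htj : t j = d := by
    rw [ht, Function.update_self]
  have hto : ∀ l, l ≠ i → l ≠ j → t l = 1 := fun l h1 h2 => by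
    rw [ht, Function.update_of_ne h2, Function.update_of_ne h1, Pi.one_apply]
  rw [← ht]
  change (if a = i then (if b = j then (1 : K) else 0)
    else if a = j then (if b = i then -1 else if b = j then d else 0) else (1 : Matrix _ _ K) a b) =
    ((1 + Matrix.single i j d⁻¹) * Matrix.diagonal t * (1 + Matrix.single j i (-d⁻¹))) a b
  rw [mul_el_apply, el_mul_apply, el_mul_apply, Matrix.diagonal_apply, Matrix.diagonal_apply,
    Matrix.diagonal_apply, Matrix.diagonal_apply_eq, htj]
  by_cases ha : a = i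
  · subst ha
    rw [if_pos rfl, if_pos rfl, if_pos rfl, if_neg hij, zero_add, inv_mul_cancel₀ hd, one_mul]
    by_cases hb : b = a
    · subst hb
      rw [if_neg hij, if_pos rfl, if_pos rfl, if_neg hij.symm, hti]
      ring
    · rw [if_neg hb, if_neg (Ne.symm hb), zero_add, add_zero]
      by_cases hb' : b = j
      · subst hb'
        rw [if_pos rfl, if_pos rfl, inv_mul_cancel₀ hd]
      · rw [if_neg hb', if_neg (Ne.symm hb'), mul_zero]
  · rw [if_neg ha, if_neg ha, if_neg ha, add_zero]
    by_cases ha' : a = j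
    · subst ha'
      rw [if_pos rfl, if_pos rfl]
      by_cases hb : b = i
      · subst hb
        rw [if_pos rfl, if_pos rfl, if_neg ha, zero_add, add_zero, htj, mul_neg, mul_inv_cancel₀ hd]
      · rw [if_neg hb, if_neg hb, add_zero]
        by_cases hb' : b = a
        · subst hb'
          rw [if_pos rfl, if_pos rfl, htj]
        · rw [if_neg hb', if_neg (Ne.symm hb')]
    · rw [if_neg ha', if_neg ha', add_zero, zero_mul, ite_self, add_zero]
      by_cases hb : a = b
      · subst hb
        rw [if_pos rfl, Matrix.one_apply_eq, hto a ha ha']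
      · rw [if_neg hb, Matrix.one_apply_ne hb]

private theorem poly1 (F : (Fin 1 → K) → K) (hF : F ∈ PolyFn (fun x : Fin 1 → K => x)) :
    ∃ q : Polynomial K, ∀ s : K, F (fun _ => s) = q.eval s := by
  obtain ⟨p, hp⟩ := (mem_PolyFn _ F).1 hF
  refine ⟨MvPolynomial.aeval (fun _ => Polynomial.X) p, fun s => ?_⟩
  rw [hp]
  clear hp
  induction p using MvPolynomial.induction_on with
  | C a => simp
  | add p q hp hq => rw [map_add, map_add, Polynomial.eval_add, hp, hq]
  | mul_X p i hp => rw [map_mul, map_mul, Polynomial.eval_mul, hp]; simp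

private theorem el_poly (M : PRep c K) (i j : Fin m) (h : c i = c j) (v : M.V)
    (φ : Module.Dual K M.V) :
    ∃ q : Polynomial K, ∀ x, φ (M.ρ (el c i j h x) v) = q.eval x := by
  refine poly1 (fun d => φ (M.ρ (el c i j h (d 0)) v))
    (comp_mem (crd c K) (fun x : Fin 1 → K => x) (fun d => el c i j h (d 0)) ?_ _ (M.poly v φ))
  rintro ⟨a, b⟩
  change (fun d : Fin 1 → K => (1 : Matrix _ _ K) a b + Matrix.single i j (d 0) a b) ∈ _
  refine Subalgebra.add_mem _ (const_mem _ _) ?_
  by_cases hab : i = a ∧ j = b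
  · obtain ⟨rfl, rfl⟩ := hab
    have e : (fun d : Fin 1 → K => Matrix.single i j (d 0) i j) = fun d : Fin 1 → K => d 0 :=
      funext fun d => Matrix.single_apply_same _ _ _
    rw [e]
    exact coord_mem (fun x : Fin 1 → K => x) 0
  · have e : (fun d : Fin 1 → K => Matrix.single i j (d 0) a b) = fun _ : Fin 1 → K => (0 : K) :=
      funext fun d => Matrix.single_apply_of_ne _ _ _ _ _ hab
    rw [e]
    exact const_mem _ 0

private theorem zd_poly' (M : PRep c K) (i j : Fin m) (h : c i = c j) (v : M.V)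
    (φ : Module.Dual K M.V) :
    ∃ q : Polynomial K, ∀ x, φ (M.ρ (zd i j h x) v) = q.eval x :=
  poly1 (fun d => φ (M.ρ (zd i j h (d 0)) v))
    (comp_mem (crd c K) (fun x : Fin 1 → K => x) (fun d => zd i j h (d 0)) (fun ab => zd_poly i j h ab) _
      (M.poly v φ))

private theorem el_zero (i j : Fin m) (h : c i = c j) : el c i j h (0 : K) = 1 := by
  refine Subtype.ext ?_
  change (1 + Matrix.single i j (0 : K)) = (1 : Matrix _ _ K)
  rw [Matrix.single_zero, add_zero]

private theorem key (M : PRep c K) (κ : Fin m → ℕ) (v : M.V) (hv : v ∈ M.hs κ) (i j : Fin m)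
    (hij : i < j) (h : c i = c j) (d : K) (hd : d ≠ 0) (φ : Module.Dual K M.V) :
    d ^ κ i * φ (M.ρ (zd i j h d) v) = d ^ κ j * φ (M.ρ (el c i j h d⁻¹) v) := by
  have hlo : IsLo (el c j i h.symm (-d⁻¹)) := by
    refine ⟨fun a => ?_, fun a b hab => ?_⟩
    · change (1 + Matrix.single j i (-d⁻¹)) a a = 1
      rw [Matrix.add_apply, Matrix.one_apply_eq, Matrix.single_apply_of_ne, add_zero]
      rintro ⟨rfl, h1⟩
      exact hij.ne h1
    · change (1 + Matrix.single j i (-d⁻¹)) a b = 0
      rw [Matrix.add_apply, Matrix.one_apply_ne hab.ne, Matrix.single_apply_of_ne, add_zero]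
      rintro ⟨rfl, rfl⟩
      exact lt_asymm hij hab
  have htw : tw (Function.update (Function.update (1 : Fin m → K) i d⁻¹) j d) κ =
      (d⁻¹) ^ κ i * d ^ κ j := by
    unfold tw
    rw [← Finset.mul_prod_erase univ _ (Finset.mem_univ i),
      ← Finset.mul_prod_erase (univ.erase i) _ (Finset.mem_erase.2 ⟨hij.ne', Finset.mem_univ j⟩)]
    rw [Finset.prod_eq_one, mul_one, Function.update_of_ne hij.ne, Function.update_self,
      Function.update_self]
    intro l hl
    rw [Finset.mem_erase, Finset.mem_erase] at hl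
    rw [Function.update_of_ne hl.1, Function.update_of_ne hl.2.1, Pi.one_apply, one_pow]
  rw [zd_eq i j hij.ne h d hd, map_mul, map_mul, Module.End.mul_apply, Module.End.mul_apply,
    hv.2 _ hlo, hv.1, map_smul, map_smul, smul_eq_mul, htw, inv_pow]
  have h1 : d ^ κ i ≠ 0 := pow_ne_zero _ hd
  field_simp

/-- PROOF.  `v ∈ hs κ`, `i < j`, `c i = c j`, `κ i > κ j`.  For a functional `φ` there are polynomials `p`, `a` with
`φ(ρ(zd d) v) = p(d)`, `φ(ρ(el i j x) v) = a(x)`; `zd_eq` and `v ∈ hs κ`: `p(d) = d^(κ j) d^(-κ i) a(1/d)` for `d ≠ 0`;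
`laurent_zero` gives `a = 0`, so `φ v = a(0) = 0`. -/
theorem hs_nondom [Infinite K] (M : PRep c K) (κ : Fin m → ℕ) (h : ¬ Dom c κ) : M.hs κ = ⊥ := by
  unfold Dom at h
  push Not at h
  obtain ⟨i, j, hij, hc, hκ⟩ := h
  rw [Submodule.eq_bot_iff]
  intro v hv
  rw [← Module.forall_dual_apply_eq_zero_iff K]
  intro φ
  obtain ⟨a, ha⟩ := el_poly M i j hc v φ
  obtain ⟨p, hp⟩ := zd_poly' M i j hc v φ
  have h0 : a = 0 := by
    refine laurent_zero p a (κ i - κ j) (by omega) fun d hd => ?_
    have h1 := key M κ v hv i j hij hc d hd φ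
    rw [hp, ha] at h1
    have h2 : d ^ κ i = d ^ κ j * d ^ (κ i - κ j) := by
      rw [← pow_add]
      congr 1
      omega
    rw [h2, mul_assoc] at h1
    exact mul_left_cancel₀ (pow_ne_zero _ hd) h1
  have h3 := ha 0
  rw [el_zero, map_one, h0, Polynomial.eval_zero] at h3
  exact h3

/-- PROOF.  Same with `κ i = κ j` and `laurent_const`: `φ(ρ(el i j x) v) = a(x) = a(0) = φ(v)`. -/
theorem hs_el [Infinite K] (M : PRep c K) (κ : Fin m → ℕ) (v : M.V) (hv : v ∈ M.hs κ) (i j : Fin m)
    (hij : i < j) (h : c i = c j) (hκ : κ i = κ j) (x : K) : M.ρ (el c i j h x) v = v := by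
  rw [← sub_eq_zero, ← Module.forall_dual_apply_eq_zero_iff K]
  intro φ
  obtain ⟨a, ha⟩ := el_poly M i j h v φ
  obtain ⟨p, hp⟩ := zd_poly' M i j h v φ
  have h0 : a.eval x = a.eval 0 := by
    refine laurent_const p a (fun d hd => ?_) x
    have h1 := key M κ v hv i j hij h d hd φ
    rw [hp, ha, hκ] at h1
    exact mul_left_cancel₀ (pow_ne_zero _ hd) h1
  rw [← ha, ← ha, el_zero, map_one] at h0
  rw [map_sub, h0]
  simp

end Pool.PI34.A5
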