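import Pool.Agent.LibPI34.A5_Def
import Pool.Agent.LibPI34.A5_Num

/-! PI34, block A5, file N1: Pieri identity for `Dt`. -/

set_option autoImplicit false

namespace Pool.PI34.A5

open Finset Matrix

variable {m : ℕ}

private lemma pos_lt (c : Fin m → ℕ) {j k : Fin m} (h : j < k) (hc : c j = c k) :
    pos c j < pos c k := by
  unfold pos
  refine card_lt_card ?_
  rw [ssubset_iff_of_subset]
  · exact ⟨j, by simp [h, hc], by simp⟩
  · intro x hx
    rw [mem_filter] at hx ⊢
    exact ⟨mem_univ _, hx.2.1.trans h, hx.2.2.trans hc⟩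

private lemma pos_inj (c : Fin m → ℕ) {j k : Fin m} (hc : c j = c k) (h : pos c j = pos c k) :
    j = k := by
  rcases lt_trichotomy j k with h1 | h1 | h1
  · exact absurd h (pos_lt c h1 hc).ne
  · exact h1
  · exact absurd h (pos_lt c h1 hc.symm).ne'

private lemma lt_of_pos (c : Fin m → ℕ) {j k : Fin m} (hc : c j = c k) (h : pos c j < pos c k) :
    j < k := by
  by_contra h1
  rcases (not_lt.1 h1).lt_or_eq with h2 | h2
  · exact absurd (pos_lt c h2 hc.symm) (by omega)
  · subst h2; omega

private lemma exists_pred (c : Fin m → ℕ) {k : Fin m} (h : 0 < pos c k) :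
    ∃ j, c j = c k ∧ pos c j + 1 = pos c k := by
  unfold pos at h
  obtain ⟨j, hj, hmax⟩ := exists_max_image _ (fun x : Fin m => x) (card_pos.1 h)
  rw [mem_filter] at hj
  refine ⟨j, hj.2.2, ?_⟩
  unfold pos
  have e : (univ.filter fun x : Fin m => x < k ∧ c x = c k) =
      insert j (univ.filter fun x : Fin m => x < j ∧ c x = c j) := by
    ext x
    rw [mem_insert, mem_filter, mem_filter]
    constructor
    · rintro ⟨_, h1, h2⟩
      have h3 := hmax x (by rw [mem_filter]; exact ⟨mem_univ _, h1, h2⟩)
      rcases h3.lt_or_eq with h4 | h4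
      · exact Or.inr ⟨mem_univ _, h4, h2.trans hj.2.2.symm⟩
      · exact Or.inl h4
    · rintro (rfl | ⟨_, h1, h2⟩)
      · exact ⟨mem_univ _, hj.2.1, hj.2.2⟩
      · exact ⟨mem_univ _, h1.trans hj.2.1, h2.trans hj.2.2⟩
  rw [e, card_insert_of_notMem (by simp)]

/-- the shift matrix -/
private def shm (c : Fin m → ℕ) : Matrix (Fin m) (Fin m) ℤ :=
  Matrix.of fun j k => if c j = c k ∧ pos c j + 1 = pos c k then 1 else 0

private lemma row_shift (c lam : Fin m → ℕ) (i k : Fin m) :
    (Dtm c lam * (1 + shm c)) i k = Dtm c (fun i => lam i + 1) i k := by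
  rw [Matrix.mul_add, Matrix.mul_one, Matrix.add_apply, Matrix.mul_apply]
  by_cases hc : c i = c k
  · by_cases hk : pos c k = 0
    · rw [sum_eq_zero]
      · simp [Dtm, hc, hk]
      · intro j _
        simp [shm, hk]
    · obtain ⟨j, hj1, hj2⟩ := exists_pred c (Nat.pos_of_ne_zero hk)
      rw [sum_eq_single j]
      · obtain ⟨q, hq⟩ : ∃ q, pos c k = q + 1 := ⟨pos c j, hj2.symm⟩
        have hq' : pos c j = q := by omega
        have hij : c i = c j := hc.trans hj1.symm
        simp only [Dtm, shm, Matrix.of_apply, if_pos hc, hj1, hj2, and_self, if_true,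
          mul_one]
        rw [hq, hq', show lam i + 1 + pos c i = (lam i + pos c i) + 1 by ring,
          Nat.choose_succ_succ]
        push_cast
        ring
      · intro b _ hb
        by_cases h : c b = c k ∧ pos c b + 1 = pos c k
        · exact absurd (pos_inj c (h.1.trans hj1.symm) (by omega)) hb
        · simp [shm, h]
      · simp
  · rw [sum_eq_zero]
    · simp [Dtm, hc]
    · intro j _
      by_cases h : c i = c j
      · have h2 : ¬ (c j = c k ∧ pos c j + 1 = pos c k) := fun h3 => hc (h.trans h3.1)
        simp [shm, h2]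
      · simp [Dtm, h]

private lemma det_shift (c : Fin m → ℕ) :
    ((1 : Matrix (Fin m) (Fin m) (Polynomial ℤ)) +
      (Polynomial.X : Polynomial ℤ) • ((1 + shm c).map Polynomial.C)).det =
        (1 + Polynomial.X) ^ m := by
  rw [Matrix.det_of_isUpperTriangular]
  · rw [prod_congr rfl (g := fun _ => (1 + Polynomial.X : Polynomial ℤ))]
    · simp
    · intro i _
      simp [shm]
  · intro i j h
    have h' : j < i := h
    have h2 : ¬ (c i = c j ∧ pos c i + 1 = pos c j) := fun h3 =>
      absurd (lt_of_pos c h3.1 (by omega)) (not_lt.2 h'.le)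
    simp [shm, h2, Matrix.one_apply_ne h'.ne']

/-- PROOF.  `Dt c (λ + 1_S)`: row `i ∈ S` is `R_i (1 + Z)` where `R_i` is the row of `Dtm c λ` and
`Z j j' = 1` if `c j = c j'` and `pos c j' = pos c j + 1`, else `0` (Pascal: `C(x+1, q+1) = C(x, q+1) + C(x, q)`, `C(x+1,0) = C(x,0)`;
for `q = pos c j' ≥ 1` there is exactly one `j` of the same color with `pos c j = q - 1`).
Hence `∑_S X^|S| Dt c (λ+1_S) = det (Dtm c λ * (1 + X (1 + Z)))` in `ℤ[X]` (multilinearity of the determinant in the rows:
row `i` = `R_i + X R_i (1 + Z)`) `= Dt c λ * (1 + X)^m` since `1 + X(1 + Z)` is upper triangular with diagonal `1 + X`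
(`pos c j' = pos c j + 1` and same color imply `j < j'`).  Compare the coefficients of `X^a`.
(Alternatively: induct, or use `Matrix.detRowAlternating.map_add_univ`-type expansion.) -/
theorem Dt_pieri (c lam : Fin m → ℕ) (a : ℕ) :
    ∑ S ∈ powersetCard a (univ : Finset (Fin m)), Dt c (fun i => lam i + ind S i) =
      (m.choose a : ℤ) * Dt c lam := by
  have key : ∑ S : Finset (Fin m), (Polynomial.X : Polynomial ℤ) ^ S.card *
      Polynomial.C (Dt c (fun i => lam i + ind S i)) =
        Polynomial.C (Dt c lam) * (1 + Polynomial.X) ^ m := by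
    have e1 : ((Dtm c lam).map Polynomial.C * ((1 : Matrix (Fin m) (Fin m) (Polynomial ℤ)) +
      (Polynomial.X : Polynomial ℤ) • ((1 + shm c).map Polynomial.C))).det =
        Polynomial.C (Dt c lam) * (1 + Polynomial.X) ^ m := by
      rw [Matrix.det_mul, det_shift, Dt, RingHom.map_det]
      rfl
    have e2 : ((Dtm c lam).map Polynomial.C * ((1 : Matrix (Fin m) (Fin m) (Polynomial ℤ)) +
      (Polynomial.X : Polynomial ℤ) • ((1 + shm c).map Polynomial.C))) =
        (Polynomial.X : Polynomial ℤ) • ((Dtm c (fun i => lam i + 1)).map Polynomial.C) +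
          (Dtm c lam).map Polynomial.C := by
      rw [Matrix.mul_add, Matrix.mul_one, add_comm, Matrix.mul_smul, ← Matrix.map_mul]
      congr 1
      ext1 i
      intro k
      rw [Matrix.smul_apply, Matrix.map_apply, row_shift, Matrix.smul_apply, Matrix.map_apply]
    rw [← e1, e2]
    have e3 := MultilinearMap.map_add_univ
      (Matrix.detRowAlternating (R := Polynomial ℤ) (n := Fin m)).toMultilinearMap
      (fun i => (Polynomial.X : Polynomial ℤ) •
          ((Dtm c (fun i => lam i + 1)).map Polynomial.C) i) ((Dtm c lam).map Polynomial.C)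
    refine Eq.trans ?_ e3.symm
    refine sum_congr rfl fun S _ => ?_
    have e4 : (S.piecewise (fun i => (Polynomial.X : Polynomial ℤ) •
          ((Dtm c (fun i => lam i + 1)).map Polynomial.C) i) ((Dtm c lam).map Polynomial.C)) =
        fun i => (if i ∈ S then (Polynomial.X : Polynomial ℤ) else 1) •
          ((Dtm c (fun i => lam i + ind S i)).map Polynomial.C) i := by
      funext i
      by_cases h : i ∈ S
      · rw [piecewise_eq_of_mem _ _ _ h, if_pos h]
        congr 1
        funext k
        simp [Dtm, ind, h]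
      · rw [piecewise_eq_of_notMem _ _ _ h, if_neg h, one_smul]
        funext k
        simp [Dtm, ind, h]
    rw [e4, MultilinearMap.map_smul_univ, prod_ite_mem, univ_inter, prod_const, Dt,
      RingHom.map_det]
    rfl
  have h := congrArg (fun p => Polynomial.coeff p a) key
  simp only [Polynomial.finsetSum_coeff, Polynomial.coeff_C_mul, Polynomial.coeff_one_add_X_pow]
    at h
  rw [mul_comm, ← h, powersetCard_eq_filter, sum_filter, powerset_univ]
  refine sum_congr rfl fun S _ => ?_
  rw [Polynomial.coeff_mul_C, Polynomial.coeff_X_pow]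
  by_cases h : S.card = a
  · rw [if_pos h, if_pos h.symm, one_mul]
  · rw [if_neg h, if_neg (fun h' => h h'.symm), zero_mul]

end Pool.PI34.A5
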