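import Pool.Agent.LibPI34.A5_Def
import Pool.Agent.LibPI34.A5_Num

/-! PI34, block A5, file N2: vanishing of `Dt` for the non dominant `μ + 1_S`. -/

set_option autoImplicit false

namespace Pool.PI34.A5

open Finset Matrix

variable {m : ℕ}

/-- PROOF.  There are `i < j` with `c i = c j`, `μ i + 1_S i > μ j + 1_S j`; as `μ i ≤ μ j` we get `μ i = μ j`, `i ∈ S`, `j ∉ S`.
Choose such a pair with `j - i` minimal.  Then no index `l` of the same color lies between `i` and `j` (for `l` in between,
minimality gives `(μ+1_S) i ≤ (μ+1_S) l ≤ (μ+1_S) j`), so `pos c j = pos c i + 1` and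
the rows `i`, `j` of `Dtm` are equal: `μ i + 1 + pos c i = μ j + 0 + pos c j`.  `Matrix.det_zero_of_row_eq`. -/
theorem Dt_nondom (c mu : Fin m → ℕ) (S : Finset (Fin m)) (h : Dom c mu)
    (hn : ¬ Dom c (fun i => mu i + ind S i)) : Dt c (fun i => mu i + ind S i) = 0 := by
  classical
  have hex : ∃ d : ℕ, ∃ i j : Fin m, i < j ∧ c i = c j ∧ mu j + ind S j < mu i + ind S i ∧
      (j : ℕ) - (i : ℕ) = d := by
    unfold Dom at hn
    push Not at hn
    obtain ⟨i, j, hij, hc, hlt⟩ := hn
    exact ⟨_, i, j, hij, hc, hlt, rfl⟩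
  obtain ⟨i, j, hij, hc, hlt, hd⟩ := Nat.find_spec hex
  have hmin : ∀ a b : Fin m, a < b → c a = c b → (b : ℕ) - (a : ℕ) < (j : ℕ) - (i : ℕ) →
      mu a + ind S a ≤ mu b + ind S b := by
    intro a b hab hcab hd'
    by_contra hcon
    rw [hd] at hd'
    exact Nat.find_min hex hd' ⟨a, b, hab, hcab, not_le.1 hcon, rfl⟩
  have hij' : (i : ℕ) < j := hij
  have hbet : ∀ l : Fin m, c l = c i → i < l → l < j → False := by
    intro l hl h1 h2
    have h1' : (i : ℕ) < l := h1
    have h2' : (l : ℕ) < j := h2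
    have e1 := hmin i l h1 hl.symm (by omega)
    have e2 := hmin l j h2 (hl.trans hc) (by omega)
    omega
  have hpos : pos c j = pos c i + 1 := by
    have e : (univ.filter fun l : Fin m => l < j ∧ c l = c j) =
        insert i (univ.filter fun l : Fin m => l < i ∧ c l = c i) := by
      ext l
      simp only [mem_filter, mem_univ, true_and, mem_insert]
      constructor
      · rintro ⟨h1, h2⟩
        rcases lt_trichotomy l i with h3 | h3 | h3
        · exact Or.inr ⟨h3, h2.trans hc.symm⟩
        · exact Or.inl h3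
        · exact (hbet l (h2.trans hc.symm) h3 h1).elim
      · rintro (h1 | ⟨h1, h2⟩)
        · rw [h1]
          exact ⟨hij, hc⟩
        · exact ⟨h1.trans hij, h2.trans hc⟩
    unfold pos
    rw [e, card_insert_of_notMem]
    simp
  have hmu := h i j hij hc
  have hrow : mu i + ind S i + pos c i = mu j + ind S j + pos c j := by
    rw [hpos]
    unfold ind at hlt ⊢
    split_ifs at hlt ⊢ <;> omega
  refine Matrix.det_zero_of_row_eq (ne_of_lt hij) ?_
  funext l
  simp only [Dtm, Matrix.of_apply]
  rw [hrow, hc]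

end Pool.PI34.A5
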