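import Pool.Agent.LibPI34.A5_Def
import Pool.Agent.LibPI34.A5_Num

/-! PI34, block A5, file N3: branching rule for `Dt`. -/

set_option autoImplicit false

namespace Pool.PI34.A5

open Finset Matrix

variable {m : ℕ}

/-- the weights which interlace `λ` in the last color class and agree with `λ` in the others -/
def il (c : Fin (m + 1) → ℕ) (lam : Fin (m + 1) → ℕ) : Finset (Fin m → ℕ) :=
  Fintype.piFinset fun i => if c i.castSucc = c (Fin.last m) then Icc (lam i.castSucc) (lam i.succ)
    else {lam i.castSucc}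

/-- hockey stick -/
theorem hockey (a b q j : ℕ) (h : a ≤ b) :
    ∑ x ∈ Icc a b, (((x + q).choose j : ℕ) : ℤ) =
      (((b + q + 1).choose (j + 1) : ℕ) : ℤ) - (((a + q).choose (j + 1) : ℕ) : ℤ) := by
  induction b, h using Nat.le_induction with
  | base =>
    rw [Icc_self, Finset.sum_singleton, Nat.choose_succ_succ]
    push_cast
    ring
  | succ b hab ih =>
    rw [Finset.sum_Icc_succ_top (by omega), ih, Nat.choose_succ_succ (b + 1 + q) j]
    have h1 : b + 1 + q = b + q + 1 := by ring
    rw [h1]
    push_cast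
    ring

theorem N3_pos_cast (c : Fin (m + 1) → ℕ) (i : Fin m) :
    pos (fun i => c i.castSucc) i = pos c i.castSucc := by
  unfold pos
  rw [← Finset.card_map Fin.castSuccEmb]
  congr 1
  ext j
  simp only [Finset.mem_map, Finset.mem_filter, Finset.mem_univ, true_and]
  constructor
  · rintro ⟨j', ⟨h1, h2⟩, rfl⟩
    exact ⟨h1, h2⟩
  · rintro ⟨h1, h2⟩
    have h3 : (j : ℕ) < m := lt_trans (show (j : ℕ) < i from h1) i.2
    exact ⟨⟨j, h3⟩, ⟨h1, h2⟩, rfl⟩

theorem N3_pos_last (c : Fin (m + 1) → ℕ) (i0 : Fin (m + 1))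
    (h0 : ∀ i, c i = c (Fin.last m) ↔ i0 ≤ i) (i : Fin (m + 1)) (hi : i0 ≤ i) :
    pos c i = (i : ℕ) - i0 := by
  unfold pos
  have h1 : (univ.filter fun j : Fin (m + 1) => j < i ∧ c j = c i) = Ico i0 i := by
    ext j
    simp only [Finset.mem_filter, Finset.mem_univ, true_and, Finset.mem_Ico]
    rw [(h0 i).2 hi, h0 j]
    exact and_comm
  rw [h1, Fin.card_Ico]

theorem N3_first (c : Fin (m + 1) → ℕ) (hc : Monotone c) :
    ∃ i0 : Fin (m + 1), ∀ i, c i = c (Fin.last m) ↔ i0 ≤ i := by
  classical
  have hne : (univ.filter fun i : Fin (m + 1) => c i = c (Fin.last m)).Nonempty :=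
    ⟨Fin.last m, by simp⟩
  refine ⟨Finset.min' _ hne, fun i => ⟨fun h => Finset.min'_le _ _ (by simpa using h),
    fun h => ?_⟩⟩
  have h1 := Finset.min'_mem _ hne
  rw [Finset.mem_filter] at h1
  exact le_antisymm (hc (Fin.le_last i)) (h1.2 ▸ hc h)

/-- PROOF.  Let `i0` be the first index with the color of the last index; as `c` is monotone, the color class
of `Fin.last m` is `{i | i0 ≤ i}` and `pos c i = i - i0` there.
The column `i0` of `Dtm c λ` has entries `1` for `i ≥ i0` and `0` for `i < i0`.  Replace the rows `R_i`, `i > i0`, by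
`R_i - R_(i-1)` (`Matrix.det_eq_of_forall_row_eq_smul_add_pred` or `Matrix.det_eq_of_forall_row_eq_smul_add_const`, or
multiplication with the unitriangular matrix `1 - ∑_(i > i0) E_(i,i-1)`); the determinant does not change, the column `i0` is now `e_i0`.
Expand along it (`Matrix.det_succ_column _ i0`): `Dt c λ = det M'`, `M' = (..).submatrix i0.succAbove i0.succAbove`, where for `i, j : Fin m`:
if `i < i0` : row `i` of `M'` is the row `i` of `Dtm (c ∘ castSucc) (λ ∘ castSucc)`;
if `i ≥ i0` (then `i0.succAbove i = i.succ`): `M' i j = 0` for `j < i0` and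
`M' i j = C(λ_(i+1) + pos i + 1, pos j + 1) - C(λ_i + pos i, pos j + 1)` for `j ≥ i0`
`= ∑_(ν ∈ Icc λ_i λ_(i+1)) C(ν + pos i, pos j)` by `hockey`.
On the other hand by multilinearity of the determinant in the rows
`∑_(ν ∈ il c λ) Dt (c ∘ castSucc) ν = det (row i = ∑_(ν_i) (row of ν_i))` (`MultilinearMap.map_sum_finset` for
`Matrix.detRowAlternating`).  Note that `pos (c ∘ castSucc) i = pos c i.castSucc`. -/
theorem Dt_branch (c lam : Fin (m + 1) → ℕ) (hc : Monotone c) (h : Dom c lam) :
    Dt c lam = ∑ ν ∈ il c lam, Dt (fun i => c i.castSucc) ν := by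
  classical
  obtain ⟨i0, h0⟩ := N3_first c hc
  let A := Dtm c lam
  have hA : ∀ i j, A i j = if c i = c j then (((lam i + pos c i).choose (pos c j) : ℕ) : ℤ)
    else 0 := fun i j => rfl
  let e : Fin m → ℤ := fun i => if i0 ≤ i.castSucc then 1 else 0
  let B : Matrix (Fin (m + 1)) (Fin (m + 1)) ℤ := Matrix.of fun i j =>
    Fin.cases (A 0 j) (fun i' => A i'.succ j - e i' * A i'.castSucc j) i
  have hB0 : ∀ j, B 0 j = A 0 j := fun j => rfl
  have hBs : ∀ (i : Fin m) j, B i.succ j = A i.succ j - e i * A i.castSucc j := fun i j => rfl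
  have hAB : A.det = B.det := Matrix.det_eq_of_forall_row_eq_smul_add_pred e
    (fun j => (hB0 j).symm) (fun i j => by rw [hBs]; ring)
  have hBlow : ∀ i j, i ≤ i0 → B i j = A i j := by
    intro i j hi
    induction i using Fin.cases with
    | zero => rfl
    | succ i =>
      rw [hBs]
      have h1 : e i = 0 := if_neg (by
        intro h2
        have h3 : i.castSucc < i.succ := Fin.castSucc_lt_succ
        exact absurd (lt_of_lt_of_le h3 hi) (not_lt.2 h2))
      rw [h1, zero_mul, sub_zero]
  have hBhi : ∀ (i : Fin m) j, i0 ≤ i.castSucc → B i.succ j = A i.succ j - A i.castSucc j := by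
    intro i j hi
    rw [hBs]
    have h1 : e i = 1 := if_pos hi
    rw [h1, one_mul]
  have hpos0 : pos c i0 = 0 := by
    rw [N3_pos_last c i0 h0 i0 le_rfl, Nat.sub_self]
  have hcol : ∀ i, B i i0 = if i = i0 then 1 else 0 := by
    intro i
    rcases lt_trichotomy i i0 with hlt | heq | hgt
    · rw [hBlow i i0 hlt.le, if_neg hlt.ne, hA, if_neg]
      intro h1
      have h2 : c i = c (Fin.last m) := h1.trans ((h0 i0).2 le_rfl)
      exact absurd ((h0 i).1 h2) (not_le.2 hlt)
    · subst heq
      rw [hBlow i i le_rfl, if_pos rfl, hA, if_pos rfl, hpos0, Nat.choose_zero_right]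
      rfl
    · rw [if_neg hgt.ne']
      induction i using Fin.cases with
      | zero => exact absurd hgt (Fin.not_lt_zero _)
      | succ i =>
        have h1 : i0 ≤ i.castSucc := by
          rw [Fin.le_castSucc_iff]
          exact hgt
        rw [hBhi i i0 h1, hA, hA, hpos0, Nat.choose_zero_right, Nat.choose_zero_right,
          if_pos (((h0 _).2 hgt.le).trans ((h0 i0).2 le_rfl).symm),
          if_pos (((h0 _).2 h1).trans ((h0 i0).2 le_rfl).symm), sub_self]
  have hdet : B.det = (B.submatrix i0.succAbove i0.succAbove).det := by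
    rw [Matrix.det_succ_column B i0, Finset.sum_eq_single i0]
    · rw [hcol, if_pos rfl, mul_one, ← two_mul, pow_mul]
      simp
    · intro i _ hi
      rw [hcol, if_neg hi]
      simp
    · intro hn
      exact absurd (Finset.mem_univ _) hn
  let c' : Fin m → ℕ := fun i => c i.castSucc
  let g : (i : Fin m) → ℕ → Fin m → ℤ := fun i x j =>
    if c' i = c' j then (((x + pos c' i).choose (pos c' j) : ℕ) : ℤ) else 0
  let S : Fin m → Finset ℕ := fun i => if c i.castSucc = c (Fin.last m)
    then Icc (lam i.castSucc) (lam i.succ) else {lam i.castSucc}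
  have hR : ∑ ν ∈ il c lam, Dt c' ν =
      (Matrix.of fun i j => ∑ x ∈ S i, g i x j : Matrix (Fin m) (Fin m) ℤ).det := by
    have h1 := (Matrix.detRowAlternating (n := Fin m) (R := ℤ)).toMultilinearMap.map_sum_finset
      g S
    have h2 : (Matrix.detRowAlternating (n := Fin m) (R := ℤ)).toMultilinearMap
        (fun i => ∑ x ∈ S i, g i x) =
        (Matrix.of fun i j => ∑ x ∈ S i, g i x j : Matrix (Fin m) (Fin m) ℤ).det := by
      change Matrix.det _ = Matrix.det _
      congr 1
      funext i j
      rw [Finset.sum_apply]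
      rfl
    rw [← h2, h1]
    rfl
  change A.det = _
  rw [hAB, hdet, hR]
  congr 1
  refine Matrix.ext fun i j => ?_
  rw [Matrix.submatrix_apply, Matrix.of_apply]
  have hpc : ∀ i, pos c' i = pos c i.castSucc := fun i => N3_pos_cast c i
  rcases lt_or_ge i.castSucc i0 with hi | hi
  · have hci : ¬ c i.castSucc = c (Fin.last m) := fun h1 => absurd ((h0 _).1 h1) (not_le.2 hi)
    rw [Fin.succAbove_of_castSucc_lt _ _ hi, hBlow _ _ hi.le, hA]
    have hS : S i = {lam i.castSucc} := if_neg hci
    rw [hS, Finset.sum_singleton]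
    change _ = if c' i = c' j then (((lam i.castSucc + pos c' i).choose (pos c' j) : ℕ) : ℤ) else 0
    rcases lt_or_ge j.castSucc i0 with hj | hj
    · rw [Fin.succAbove_of_castSucc_lt _ _ hj, hpc, hpc]
    · rw [Fin.succAbove_of_le_castSucc _ _ hj, if_neg, if_neg]
      · intro h1
        exact hci (h1.trans ((h0 _).2 hj))
      · intro h1
        exact hci (h1.trans ((h0 _).2 (hj.trans (Fin.castSucc_lt_succ).le)))
  · have hci : c i.castSucc = c (Fin.last m) := (h0 _).2 hi
    have hi' : i0 ≤ i.succ := hi.trans (Fin.castSucc_lt_succ).le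
    have hcs : c i.succ = c (Fin.last m) := (h0 _).2 hi'
    rw [Fin.succAbove_of_le_castSucc _ _ hi, hBhi _ _ hi, hA, hA]
    have hS : S i = Icc (lam i.castSucc) (lam i.succ) := if_pos hci
    rw [hS]
    rcases lt_or_ge j.castSucc i0 with hj | hj
    · have hcj : ¬ c j.castSucc = c (Fin.last m) := fun h1 => absurd ((h0 _).1 h1) (not_le.2 hj)
      rw [Fin.succAbove_of_castSucc_lt _ _ hj, if_neg (fun h1 => hcj (h1.symm.trans hcs)),
        if_neg (fun h1 => hcj (h1.symm.trans hci)), sub_self]
      symm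
      refine Finset.sum_eq_zero fun x _ => ?_
      exact if_neg (fun h1 => hcj (h1.symm.trans hci))
    · have hj' : i0 ≤ j.succ := hj.trans (Fin.castSucc_lt_succ).le
      have hcj : c j.castSucc = c (Fin.last m) := (h0 _).2 hj
      have hcj' : c j.succ = c (Fin.last m) := (h0 _).2 hj'
      have hlam : lam i.castSucc ≤ lam i.succ := h _ _ (Fin.castSucc_lt_succ) (hci.trans hcs.symm)
      have hp1 : pos c i.succ = pos c i.castSucc + 1 := by
        rw [N3_pos_last c i0 h0 _ hi, N3_pos_last c i0 h0 _ hi', Fin.val_succ, Fin.val_castSucc]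
        have h1 : (i0 : ℕ) ≤ (i.castSucc : ℕ) := hi
        rw [Fin.val_castSucc] at h1
        omega
      have hp2 : pos c j.succ = pos c j.castSucc + 1 := by
        rw [N3_pos_last c i0 h0 _ hj, N3_pos_last c i0 h0 _ hj', Fin.val_succ, Fin.val_castSucc]
        have h1 : (i0 : ℕ) ≤ (j.castSucc : ℕ) := hj
        rw [Fin.val_castSucc] at h1
        omega
      rw [Fin.succAbove_of_le_castSucc _ _ hj, if_pos (hcs.trans hcj'.symm),
        if_pos (hci.trans hcj'.symm), hp1, hp2]
      have h1 : ∀ x, g i x j = (((x + pos c i.castSucc).choose (pos c j.castSucc) : ℕ) : ℤ) :=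
        fun x => by
          change (if c' i = c' j then _ else _) = _
          rw [if_pos (hci.trans hcj.symm), hpc, hpc]
      simp only [h1]
      rw [hockey _ _ _ _ hlam]
      rfl

end Pool.PI34.A5
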