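import Pool.Agent.LibPI34.A5_N3

/-! PI34, block A5, file N4: positivity of `Dt`. -/

set_option autoImplicit false

namespace Pool.PI34.A5

open Finset Matrix

/-- the interlacing weights of a dominant weight are dominant -/
theorem il_dom {m : ℕ} (c lam : Fin (m + 1) → ℕ) (hc : Monotone c) (h : Dom c lam) (ν : Fin m → ℕ)
    (hν : ν ∈ il c lam) : Dom (fun i => c i.castSucc) ν := by
  intro i j hij hcij
  have hcij' : c i.castSucc = c j.castSucc := hcij
  rw [il, Fintype.mem_piFinset] at hν
  have hi := hν i
  have hj := hν j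
  by_cases hl : c i.castSucc = c (Fin.last m)
  · rw [if_pos hl, Finset.mem_Icc] at hi
    rw [if_pos (hcij'.symm.trans hl), Finset.mem_Icc] at hj
    have h1 : i.succ ≤ j.castSucc := by
      rw [Fin.le_def, Fin.val_succ, Fin.val_castSucc]
      exact hij
    have h2 : c i.succ = c j.castSucc := by
      refine le_antisymm (hc h1) ?_
      rw [← hcij']
      exact hc Fin.castSucc_lt_succ.le
    have h3 : lam i.succ ≤ lam j.castSucc := by
      rcases h1.eq_or_lt with h4 | h4
      · rw [h4]
      · exact h _ _ h4 h2
    exact hi.2.trans (h3.trans hj.1)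
  · rw [if_neg hl, Finset.mem_singleton] at hi
    rw [if_neg (fun e => hl (hcij'.trans e)), Finset.mem_singleton] at hj
    rw [hi, hj]
    exact h _ _ (Fin.castSucc_lt_castSucc_iff.2 hij) hcij'

/-- PROOF.  Induction on `m` with `Dt_branch`; all the terms are positive (`il_dom`), and `fun i => lam i.castSucc` lies in `il c lam`
(for `c i.castSucc = c (last m)` we have `c i.succ = c i.castSucc` by monotonicity and `λ i.castSucc ≤ λ i.succ` by `h`).
`m = 0`: the determinant of the empty matrix is `1`. -/
theorem Dt_pos {m : ℕ} (c lam : Fin m → ℕ) (hc : Monotone c) (h : Dom c lam) : 0 < Dt c lam := by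
  induction m with
  | zero =>
    rw [Dt, Matrix.det_isEmpty]
    exact one_pos
  | succ m ih =>
    rw [Dt_branch c lam hc h]
    refine Finset.sum_pos (fun ν hν => ih (fun i => c i.castSucc) ν ?_ (il_dom c lam hc h ν hν)) ?_
    · intro i j hij
      exact hc (Fin.castSucc_le_castSucc_iff.2 hij)
    · refine ⟨fun i => lam i.castSucc, ?_⟩
      rw [il, Fintype.mem_piFinset]
      intro i
      by_cases hl : c i.castSucc = c (Fin.last m)
      · rw [if_pos hl, Finset.mem_Icc]
        refine ⟨le_rfl, h _ _ Fin.castSucc_lt_succ ?_⟩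
        refine le_antisymm (hc Fin.castSucc_lt_succ.le) ?_
        rw [hl]
        exact hc (Fin.le_last _)
      · rw [if_neg hl, Finset.mem_singleton]

end Pool.PI34.A5
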