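import Pool.Agent.LibPI34.A5_Exp

/-! PI34, block A5, file Piv: rank one degree of the pivot. -/

set_option autoImplicit false

namespace Pool.PI34.A5

open Finset Matrix

variable {K : Type} [Field K] [Infinite K] {I J : Type} [Fintype I] [DecidableEq I] [Fintype J]
  [DecidableEq J]

/-- the identity of rational functions behind `pivot_RD`, entrywise -/
private theorem pivot_id' {K : Type} [Field K] (Zij s u v a z v0 uq wq h : K) (hw : wq ≠ 0)
    (hh : h ≠ 0) (e : h = wq + s * (uq * v0)) :
    Zij + s * (u * v) - h⁻¹ * ((a + s * (u * v0)) * (z + s * (uq * v))) =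
      Zij - wq⁻¹ * (a * z) +
        (s * h⁻¹) * ((u - wq⁻¹ * uq * a) * (wq * v - v0 * z)) := by
  field_simp
  rw [e]
  ring

private theorem pivot_id {K : Type} [Field K] (Zij s u v a z v0 uq wq : K) (hw : wq ≠ 0)
    (hh : wq + s * (uq * v0) ≠ 0) :
    Zij + s * (u * v) - (wq + s * (uq * v0))⁻¹ * ((a + s * (u * v0)) * (z + s * (uq * v))) =
      Zij - wq⁻¹ * (a * z) +
        (s * (wq + s * (uq * v0))⁻¹) * ((u - wq⁻¹ * uq * a) * (wq * v - v0 * z)) :=
  pivot_id' Zij s u v a z v0 uq wq _ hw hh rfl

/-- PROOF.  Fix `u, v`.  By `rd_expand`-style expansion (`poly_expand`) `g'(Z + s u vᵀ) = ∑_(j < D) c_j(Z) s^j`, `c_j` polynomial in `Z`; we must show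
`c_j = 0` for `j > k`; by `mat_mul_zero` (with `G Z = Z q j0`) it is enough to do this for `w_q := Z q j0 ≠ 0`.  Let `h = w_q + s u_q v_(j0)`,
`E_w` = identity with column `q` replaced by `w` (column `j0` of `Z`), `B_0 = E_w⁻¹ Z`, `u' = E_w⁻¹ u`, `v' = w_q v - v_(j0) z_q` (`z_q` = row `q` of `Z`).
For `h ≠ 0`: `E_(w + s v_(j0) u)⁻¹ (Z + s u vᵀ) = B_0 + (s/h) u' v'ᵀ`, i.e. in explicit form with `w' = w + s v_(j0) u`, `z' = z_q + s u_q v`:
`(Z + s u vᵀ) - h⁻¹ (w' - e_q) z'ᵀ = B_0 + (s/h) u' v'ᵀ`, `B_0 = Z - w_q⁻¹ (w - e_q) z_qᵀ`, `u' = u - w_q⁻¹ u_q (w - e_q)` (an identity of rational functions, check entrywise).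
So `g'(Z + s u vᵀ) = h^k g(B_0 + (s/h) u' v'ᵀ) = ∑_(j ≤ k) d_j s^j h^(k-j)` with constants `d_j` (`RD k g`), for all `s` with `h ≠ 0`, hence for all `s`: degree `≤ k`. -/
theorem pivot_RD (k : ℕ) (g g' : Matrix I J K → K) (hr : RD k g)
    (hg' : g' ∈ PolyFn (mcr K)) (q : I) (j0 : J) (h : ∀ Z, Z q j0 ≠ 0 →
      g' Z = (Z q j0) ^ k * g (Z - (Z q j0)⁻¹ •
        Matrix.vecMulVec (fun a => Z a j0 - (1 : Matrix I I K) a q) (fun b => Z q b))) :
    RD k g' := by
  classical
  intro Z u v
  -- the expansion
  have hF : (fun p : Matrix I J K × K => g' (p.1 + p.2 • Matrix.vecMulVec u v)) ∈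
      PolyFn (xt (mcr (I := I) (J := J) K)) := by
    refine comp_mem (mcr K) (xt (mcr (I := I) (J := J) K))
      (fun p : Matrix I J K × K => p.1 + p.2 • Matrix.vecMulVec u v) ?_ g' hg'
    intro ij
    have e : (fun t : Matrix I J K × K => mcr K (t.1 + t.2 • Matrix.vecMulVec u v) ij) =
        (fun t : Matrix I J K × K => xt (mcr (I := I) (J := J) K) t (some ij)) +
          (fun t : Matrix I J K × K => xt (mcr (I := I) (J := J) K) t none) *
            (fun _ => u ij.1 * v ij.2) := by
      funext t
      simp [mcr, xt, Matrix.vecMulVec_apply]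
    rw [e]
    exact Subalgebra.add_mem _ (coord_mem _ _)
      (Subalgebra.mul_mem _ (coord_mem _ _) (const_mem _ _))
  obtain ⟨D, cf, hcf, hexp⟩ := poly_expand (mcr (I := I) (J := J) K) _ hF
  simp only at hexp
  -- the coefficients of high index vanish when the pivot entry is nonzero
  have key : ∀ Z : Matrix I J K, Z q j0 ≠ 0 → ∀ j, k < j → j < D → cf j Z = 0 := by
    intro Z hZ j hkj hjD
    set wq : K := Z q j0 with hwq
    set B0 : Matrix I J K := Z - (Z q j0)⁻¹ •
        Matrix.vecMulVec (fun a => Z a j0 - (1 : Matrix I I K) a q) (fun b => Z q b) with hB0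
    set u' : I → K := fun a => u a - wq⁻¹ * u q * (Z a j0 - (1 : Matrix I I K) a q) with hu'
    set v' : J → K := fun b => wq * v b - v j0 * Z q b with hv'
    obtain ⟨pe, hpe, hpe2⟩ := hr B0 u' v'
    have hval : ∀ s : K, wq + s * (u q * v j0) ≠ 0 →
        g' (Z + s • Matrix.vecMulVec u v) =
          (wq + s * (u q * v j0)) ^ k * pe.eval (s * (wq + s * (u q * v j0))⁻¹) := by
      intro s hs
      have h1 : (Z + s • Matrix.vecMulVec u v) q j0 = wq + s * (u q * v j0) := by
        simp [Matrix.vecMulVec_apply, hwq]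
      have h2 := h (Z + s • Matrix.vecMulVec u v) (by rw [h1]; exact hs)
      rw [h2, h1, ← hpe2]
      congr 2
      ext a b
      have h3 := pivot_id (Z a b) s (u a) (v b) (Z a j0 - (1 : Matrix I I K) a q) (Z q b) (v j0)
        (u q) wq hZ hs
      simp only [Matrix.sub_apply, Matrix.add_apply, Matrix.smul_apply, Matrix.vecMulVec_apply,
        smul_eq_mul, hB0, hu', hv']
      rw [← h3]
      ring
    -- the polynomial `P`
    let L : Polynomial K := Polynomial.C wq + Polynomial.X * Polynomial.C (u q * v j0)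
    have hL0 : L ≠ 0 := by
      intro h0
      have := congrArg (Polynomial.eval 0) h0
      simp [L] at this
      exact hZ this
    have hLe : ∀ s, L.eval s = wq + s * (u q * v j0) := fun s => by simp [L]
    have hLd : L.natDegree ≤ 1 := by
      refine (Polynomial.natDegree_add_le _ _).trans ?_
      rw [Polynomial.natDegree_C]
      refine max_le (by omega) ?_
      refine (Polynomial.natDegree_mul_C_le _ _).trans ?_
      exact Polynomial.natDegree_X_le
    let P : Polynomial K := ∑ i ∈ range (k + 1),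
      Polynomial.C (pe.coeff i) * Polynomial.X ^ i * L ^ (k - i)
    let R : Polynomial K := ∑ i ∈ range D, Polynomial.C (cf i Z) * Polynomial.X ^ i
    have hPd : P.natDegree ≤ k := by
      refine Polynomial.natDegree_sum_le_of_forall_le _ _ fun i hi => ?_
      have hi' : i ≤ k := by have := Finset.mem_range.1 hi; omega
      refine (Polynomial.natDegree_mul_le).trans ?_
      have h1 : (Polynomial.C (pe.coeff i) * Polynomial.X ^ i : Polynomial K).natDegree ≤ i :=
        Polynomial.natDegree_C_mul_X_pow_le _ _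
      have h2 : (L ^ (k - i)).natDegree ≤ (k - i) * 1 :=
        (Polynomial.natDegree_pow_le).trans (Nat.mul_le_mul_left _ hLd)
      omega
    have hPR : (P - R) * L = 0 := by
      refine Polynomial.funext fun s => ?_
      rw [Polynomial.eval_mul, Polynomial.eval_sub, Polynomial.eval_zero]
      by_cases hs : wq + s * (u q * v j0) = 0
      · rw [hLe, hs, mul_zero]
      · have h1 : R.eval s = g' (Z + s • Matrix.vecMulVec u v) := by
          rw [hexp Z s]
          simp [R, Polynomial.eval_finsetSum]
        have h3 : P.eval s = g' (Z + s • Matrix.vecMulVec u v) := by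
          rw [hval s hs, Polynomial.eval_eq_sum_range' (p := pe) (n := k + 1) (by omega), Finset.mul_sum]
          simp only [P, Polynomial.eval_finsetSum, Polynomial.eval_mul, Polynomial.eval_C,
            Polynomial.eval_pow, Polynomial.eval_X, hLe]
          refine Finset.sum_congr rfl fun i hi => ?_
          have hi' : i ≤ k := by have := Finset.mem_range.1 hi; omega
          have h4 : (wq + s * (u q * v j0)) ^ k =
              (wq + s * (u q * v j0)) ^ (k - i) * (wq + s * (u q * v j0)) ^ i := by
            rw [← pow_add]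
            congr 1
            omega
          have h5 : (wq + s * (u q * v j0)) ^ i * ((wq + s * (u q * v j0))⁻¹) ^ i = 1 := by
            rw [← mul_pow, mul_inv_cancel₀ hs, one_pow]
          rw [h4, mul_pow]
          calc pe.coeff i * s ^ i * (wq + s * (u q * v j0)) ^ (k - i)
              = (wq + s * (u q * v j0)) ^ (k - i) * (pe.coeff i * s ^ i) *
                ((wq + s * (u q * v j0)) ^ i * ((wq + s * (u q * v j0))⁻¹) ^ i) := by
                rw [h5]; ring
            _ = _ := by ring
        rw [h1, h3, sub_self, zero_mul]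
    have hPR' : P = R := by
      rcases mul_eq_zero.1 hPR with h0 | h0
      · exact sub_eq_zero.1 h0
      · exact absurd h0 hL0
    have hc : R.coeff j = cf j Z := by
      simp only [R, Polynomial.finsetSum_coeff, Polynomial.coeff_C_mul, Polynomial.coeff_X_pow]
      rw [Finset.sum_eq_single j]
      · simp
      · intro b _ hb
        rw [if_neg (fun e => hb e.symm), mul_zero]
      · intro hj
        exact absurd (Finset.mem_range.2 hjD) hj
    rw [← hc, ← hPR']
    exact Polynomial.coeff_eq_zero_of_natDegree_lt (lt_of_le_of_lt hPd hkj)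
  have key2 : ∀ j, k < j → j < D → ∀ Z, cf j Z = 0 := by
    intro j hkj hjD
    refine mat_mul_zero (cf j) (fun Z => Z q j0) (hcf j) (coord_mem (mcr K) (q, j0)) ?_ ?_
    · intro Z
      by_cases hZ : Z q j0 = 0
      · simp [hZ]
      · rw [key Z hZ j hkj hjD, zero_mul]
    · exact ⟨fun _ _ => 1, one_ne_zero⟩
  refine ⟨∑ i ∈ range D, Polynomial.C (cf i Z) * Polynomial.X ^ i, ?_, ?_⟩
  · refine Polynomial.natDegree_sum_le_of_forall_le _ _ fun i hi => ?_
    by_cases hi2 : k < i
    · rw [key2 i hi2 (Finset.mem_range.1 hi) Z]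
      simp
    · exact (Polynomial.natDegree_C_mul_X_pow_le _ _).trans (by omega)
  · intro s
    rw [hexp Z s]
    simp [Polynomial.eval_finsetSum]

end Pool.PI34.A5
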