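import Pool.Agent.LibPI34.A5_Chi
import Pool.Agent.LibPI34.A5_Lau
import Pool.Agent.LibPI34.A5_N4

/-! PI34, block A5, file T4: comparison of character sums. -/

set_option autoImplicit false

namespace Pool.PI34.A5

open Finset Matrix

variable {m : ℕ} {c : Fin m → ℕ} {K : Type} [Field K] [Infinite K]

/-- comparison of character sums.  PROOF: `hs_nondom`, `Dt_pos`, `chi_eq_sum` with `W = M.W ∪ N.W`. -/
theorem chi_mono (hc : Monotone c) (M N : PRep c K)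
    (h : ∀ κ, Module.finrank K (M.hs κ) ≤ Module.finrank K (N.hs κ)) : chi M ≤ chi N := by
  classical
  rw [chi_eq_sum M (M.W ∪ N.W) (fun κ hκ => hs_W M κ fun h1 =>
      hκ (Finset.mem_union_left _ h1)),
    chi_eq_sum N (M.W ∪ N.W) (fun κ hκ => hs_W N κ fun h1 =>
      hκ (Finset.mem_union_right _ h1))]
  refine Finset.sum_le_sum fun κ _ => ?_
  by_cases hd : Dom c κ
  · exact mul_le_mul_of_nonneg_right (by exact_mod_cast h κ) (Dt_pos c κ hc hd).le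
  · rw [hs_nondom M κ hd, hs_nondom N κ hd, finrank_bot, finrank_bot]

/-- the termwise difference in `chi_ext` is nonnegative -/
theorem T4_term (hc : Monotone c) (X Y Z : PRep c K) (i : X.V →ₗ[K] Y.V) (p : Y.V →ₗ[K] Z.V)
    (h : Ext X Y Z i p) (κ : Fin m → ℕ) : (Module.finrank K (Y.hs κ) : ℤ) * Dt c κ ≤
      (Module.finrank K (X.hs κ) : ℤ) * Dt c κ + (Module.finrank K (Z.hs κ) : ℤ) * Dt c κ := by
  by_cases hd : Dom c κ
  · rw [← add_mul]
    exact mul_le_mul_of_nonneg_right (by exact_mod_cast hs_ext X Y Z i p h κ)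
      (Dt_pos c κ hc hd).le
  · rw [hs_nondom X κ hd, hs_nondom Y κ hd, hs_nondom Z κ hd, finrank_bot, finrank_bot,
      finrank_bot]
    simp

theorem T4_sums (X Y Z : PRep c K) : ∃ W : Finset (Fin m → ℕ), Z.W ⊆ W ∧
    chi X = ∑ κ ∈ W, (Module.finrank K (X.hs κ) : ℤ) * Dt c κ ∧
    chi Y = ∑ κ ∈ W, (Module.finrank K (Y.hs κ) : ℤ) * Dt c κ ∧
    chi Z = ∑ κ ∈ W, (Module.finrank K (Z.hs κ) : ℤ) * Dt c κ := by
  classical
  refine ⟨X.W ∪ Y.W ∪ Z.W, Finset.subset_union_right, chi_eq_sum X _ fun κ hκ => ?_,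
    chi_eq_sum Y _ fun κ hκ => ?_, chi_eq_sum Z _ fun κ hκ => ?_⟩
  · exact hs_W X κ fun h1 => hκ (Finset.mem_union_left _ (Finset.mem_union_left _ h1))
  · exact hs_W Y κ fun h1 => hκ (Finset.mem_union_left _ (Finset.mem_union_right _ h1))
  · exact hs_W Z κ fun h1 => hκ (Finset.mem_union_right _ h1)

/-- PROOF.  `hs_ext`, `hs_nondom`, `Dt_pos`. -/
theorem chi_ext (hc : Monotone c) (X Y Z : PRep c K) (i : X.V →ₗ[K] Y.V) (p : Y.V →ₗ[K] Z.V)
    (h : Ext X Y Z i p) : chi Y ≤ chi X + chi Z := by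
  obtain ⟨W, _, hX, hY, hZ⟩ := T4_sums X Y Z
  rw [hX, hY, hZ, ← Finset.sum_add_distrib]
  exact Finset.sum_le_sum fun κ _ => T4_term hc X Y Z i p h κ

/-- equality in `chi_ext` gives the surjectivity on all `hs κ` (`hs_ext_eq`) -/
theorem chi_ext_eq (hc : Monotone c) (X Y Z : PRep c K) (i : X.V →ₗ[K] Y.V) (p : Y.V →ₗ[K] Z.V)
    (h : Ext X Y Z i p) (he : chi Y = chi X + chi Z) (κ : Fin m → ℕ) (z : Z.V) (hz : z ∈ Z.hs κ) :
    ∃ y ∈ Y.hs κ, p y = z := by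
  by_cases hz0 : Z.hs κ = ⊥
  · rw [hz0, Submodule.mem_bot] at hz
    exact ⟨0, Submodule.zero_mem _, by rw [map_zero, hz]⟩
  have hd : Dom c κ := by
    by_contra hd
    exact hz0 (hs_nondom Z κ hd)
  obtain ⟨W, hW, hX, hY, hZ⟩ := T4_sums X Y Z
  have hκ : κ ∈ W := by
    by_contra hκ
    exact hz0 (hs_W Z κ fun h1 => hκ (hW h1))
  rw [hX, hY, hZ, ← Finset.sum_add_distrib] at he
  have h1 := (Finset.sum_eq_sum_iff_of_le fun κ _ => T4_term hc X Y Z i p h κ).1 he κ hκ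
  rw [← add_mul] at h1
  have h2 := mul_right_cancel₀ (Dt_pos c κ hc hd).ne' h1
  exact hs_ext_eq X Y Z i p h κ (by exact_mod_cast h2) z hz

end Pool.PI34.A5
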