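import Pool.Agent.LibPI34.A5_The
import Pool.Agent.LibPI34.A5_T4

/-! PI34, block A5, file T4b: the upper bound `finrank M ≤ chi M`. -/

set_option autoImplicit false

namespace Pool.PI34.A5

open Finset Matrix

variable {m : ℕ} {c : Fin m → ℕ} {K : Type} [Field K] [Infinite K]

/-- the inclusion of `kth` -/
private theorem kth_incl (M : PRep c K) (lam : Fin m → ℕ) (h : IsTop M lam) :
    Eqv (kth M lam h) M (LinearMap.ker (theta M lam h)).subtype := fun _ _ => rfl

private theorem kth_hs_le (M : PRep c K) (lam : Fin m → ℕ) (h : IsTop M lam) (κ : Fin m → ℕ) :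
    Module.finrank K ((kth M lam h).hs κ) ≤ Module.finrank K (M.hs κ) :=
  hs_inj (kth M lam h) M _ (kth_incl M lam h) (Submodule.injective_subtype _) κ

private theorem kth_hs_top (M : PRep c K) (lam : Fin m → ℕ) (h : IsTop M lam) :
    Module.finrank K ((kth M lam h).hs lam) = 0 := by
  have hb : (kth M lam h).hs lam = ⊥ := by
    rw [Submodule.eq_bot_iff]
    intro v hv
    have h1 : (LinearMap.ker (theta M lam h)).subtype v ∈ M.wt lam := fun t => by
      have := hv.1 t
      exact congrArg (fun w : (LinearMap.ker (theta M lam h)) => (w : M.V)) this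
    exact Subtype.ext (ker_theta_wt M lam h _ (Subtype.property _) h1)
  rw [hb]
  exact finrank_bot K _

private theorem hs_top_eq (M : PRep c K) (lam : Fin m → ℕ) (h : IsTop M lam) :
    M.hs lam = M.wt lam :=
  le_antisymm (fun _ hv => hv.1) fun v hv => ⟨hv, fun g hg => top_lo M lam h g hg v hv⟩

private theorem hs_top_finrank (M : PRep c K) (lam : Fin m → ℕ) (h : IsTop M lam) :
    Module.finrank K (M.hs lam) = Module.finrank K (M.wd lam) := by
  rw [hs_top_eq M lam h, finrank_wd]

/-- the kernel of `theta` loses exactly the top weight.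
PROOF.  `(kth).hs κ` embeds into `M.hs κ` (inclusion, `hs_inj`), `(kth).hs λ = ⊥` (`ker_theta_wt`), `M.hs λ = M.wt λ` (`top_lo`).
So termwise (`hs κ = ⊥` for non dominant `κ`, `Dt κ > 0` for the dominant ones) `chi (kth) + finrank (wt λ) Dt λ ≤ chi M`
(if `λ` is not dominant then `wt λ = hs λ = ⊥`). -/
theorem chi_kth (hc : Monotone c) (M : PRep c K) (lam : Fin m → ℕ) (h : IsTop M lam) :
    chi (kth M lam h) + (Module.finrank K (M.wd lam) : ℤ) * Dt c lam ≤ chi M := by
  classical
  set N := kth M lam h with hN
  have hMW : ∀ κ, κ ∉ insert lam (M.W ∪ N.W) → M.hs κ = ⊥ := fun κ hκ =>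
    hs_W M κ fun h' => hκ (Finset.mem_insert_of_mem (Finset.mem_union_left _ h'))
  have hNW : ∀ κ, κ ∉ insert lam (M.W ∪ N.W) → N.hs κ = ⊥ := fun κ hκ =>
    hs_W N κ fun h' => hκ (Finset.mem_insert_of_mem (Finset.mem_union_right _ h'))
  rw [chi_eq_sum M _ hMW, chi_eq_sum N _ hNW]
  have hterm : ∀ κ ∈ insert lam (M.W ∪ N.W),
      0 ≤ ((Module.finrank K (M.hs κ) : ℤ) - Module.finrank K (N.hs κ)) * Dt c κ := by
    intro κ _
    by_cases hd : Dom c κ
    · refine mul_nonneg ?_ (Dt_pos c κ hc hd).le
      have := kth_hs_le M lam h κ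
      rw [← hN] at this
      omega
    · rw [hs_nondom M κ hd, hs_nondom N κ hd, finrank_bot, finrank_bot]
      simp
  have hs := Finset.single_le_sum hterm (Finset.mem_insert_self lam (M.W ∪ N.W))
  have h0 : Module.finrank K (N.hs lam) = 0 := kth_hs_top M lam h
  rw [h0, hs_top_finrank M lam h] at hs
  simp only [sub_mul, Finset.sum_sub_distrib, Nat.cast_zero, sub_zero] at hs
  linarith

/-- PROOF.  Strong induction on `finrank M.V`.  If it is `0` use `good_zero`.  Otherwise let `λ` be a top weight (`exists_top`).
`finrank M = finrank (ker theta) + finrank (range theta) ≤ finrank (kth) + finrank (wd λ) * finrank (nabS λ)` (`finrank_hom`);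
`finrank (kth) < finrank M` because `wt λ ≠ ⊥` meets the kernel trivially; so `finrank (kth) ≤ chi (kth)`, and
`finrank (nabS λ) ≤ Dt λ`: `λ` is dominant, as otherwise `wt λ = hs λ = ⊥` (`top_lo`, `hs_nondom`).  Conclude with `chi_kth`. -/
theorem T4_of (hc : Monotone c)
    (hn : ∀ lam, Dom c lam → (Module.finrank K (nabS c K lam) : ℤ) ≤ Dt c lam) (M : PRep c K) :
    (Module.finrank K M.V : ℤ) ≤ chi M := by
  suffices H : ∀ (n : ℕ) (M : PRep c K), Module.finrank K M.V = n →
      (Module.finrank K M.V : ℤ) ≤ chi M from H _ M rfl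
  intro n
  induction n using Nat.strong_induction_on with
  | _ n ih =>
    intro M hM
    rcases Nat.eq_zero_or_pos n with hz | hz
    · exact le_of_eq (good_zero M (hM.trans hz))
    obtain ⟨lam, htop, hne⟩ := exists_top M (by omega)
    have hdom : Dom c lam := by
      by_contra hd
      exact hne ((hs_top_eq M lam htop).symm.trans (hs_nondom M lam hd))
    have hrn : Module.finrank K (LinearMap.range (theta M lam htop)) +
        Module.finrank K (LinearMap.ker (theta M lam htop)) = Module.finrank K M.V :=
      LinearMap.finrank_range_add_finrank_ker (theta M lam htop)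
    have hker : Module.finrank K (kth M lam htop).V =
        Module.finrank K (LinearMap.ker (theta M lam htop)) := rfl
    have hle : Module.finrank K (LinearMap.range (theta M lam htop)) ≤
        Module.finrank K (M.wd lam) * Module.finrank K (nabS c K lam) := by
      have h1 := Submodule.finrank_le (LinearMap.range (theta M lam htop))
      rw [finrank_hom (nab c K lam) (M.wd lam)] at h1
      exact h1
    have hlt : Module.finrank K (LinearMap.ker (theta M lam htop)) < Module.finrank K M.V := by
      refine Submodule.finrank_lt (fun htp => hne ?_)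
      rw [Submodule.eq_bot_iff]
      intro v hv
      exact ker_theta_wt M lam htop v (by rw [htp]; exact Submodule.mem_top) hv
    have hk := ih _ (by rw [← hM]; exact hker ▸ hlt) (kth M lam htop) rfl
    have hc1 := chi_kth hc M lam htop
    have hn1 := hn lam hdom
    have hmul : (Module.finrank K (M.wd lam) : ℤ) * (Module.finrank K (nabS c K lam) : ℤ) ≤
        (Module.finrank K (M.wd lam) : ℤ) * Dt c lam :=
      mul_le_mul_of_nonneg_left hn1 (Int.natCast_nonneg _)
    have hle' : (Module.finrank K (LinearMap.range (theta M lam htop)) : ℤ) ≤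
        (Module.finrank K (M.wd lam) : ℤ) * (Module.finrank K (nabS c K lam) : ℤ) := by
      exact_mod_cast hle
    rw [hker] at hk
    have hrn' : (Module.finrank K (LinearMap.range (theta M lam htop)) : ℤ) +
        (Module.finrank K (LinearMap.ker (theta M lam htop)) : ℤ) = (Module.finrank K M.V : ℤ) := by
      exact_mod_cast hrn
    linarith

end Pool.PI34.A5
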