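import Pool.Agent.LibPI34.A5_Al2
import Pool.Agent.LibPI34.A5_Br2
import Pool.Agent.LibPI34.A5_N1
import Pool.Agent.LibPI34.A5_N2

/-! PI34, block A5, file T5: exterior powers of good representations are good. -/

set_option autoImplicit false

namespace Pool.PI34.A5

open Finset Matrix

variable {m : ℕ} {c : Fin m → ℕ} {K : Type} [Field K] [Infinite K]

/-- PROOF.  `chi (altI M a) = ∑_(κ dominant) finrank (hs κ) Dt κ ≤ ∑_(κ dominant) ∑_S [1_S ≤ κ] finrank (M.hs (κ - 1_S)) Dt κ` (`alt_hs_le`, `hs_nondom`, `Dt_pos`)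
`= ∑_(μ ∈ M.W) finrank (M.hs μ) ∑_(S, μ + 1_S dominant) Dt (μ + 1_S)` (`κ = μ + 1_S`)
`= ∑_μ finrank (M.hs μ) ∑_S Dt (μ + 1_S)` (`hs_nondom` for non dominant `μ`, `Dt_nondom` for dominant `μ`) `= C(m,a) chi M` (`Dt_pieri`). -/
theorem chi_alt_le (hc : Monotone c) (M : PRep c K) (a : ℕ) :
    chi (altI M a) ≤ (m.choose a : ℤ) * chi M := by
  classical
  set SS := powersetCard a (univ : Finset (Fin m)) with hSS
  set W : Finset (Fin m → ℕ) := (altI M a).W ∪
    (M.W ×ˢ SS).image (fun x => fun i => x.1 i + ind x.2 i) with hW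
  have hbot : ∀ (N : PRep c K) (κ : Fin m → ℕ), N.hs κ = ⊥ →
      (Module.finrank K (N.hs κ) : ℤ) = 0 := by
    intro N κ h
    rw [h, finrank_bot]
    rfl
  have e1 : chi (altI M a) = ∑ κ ∈ W, (Module.finrank K ((altI M a).hs κ) : ℤ) * Dt c κ :=
    chi_eq_sum _ W fun κ hκ => hs_W _ κ fun h => hκ (by
      rw [hW]
      exact Finset.mem_union_left _ h)
  have e2 : chi M = ∑ μ ∈ M.W, (Module.finrank K (M.hs μ) : ℤ) * Dt c μ :=
    chi_eq_sum _ _ fun κ hκ => hs_W _ κ hκ
  -- the terms of the non dominant weights vanish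
  have e3 : chi (altI M a) = ∑ κ ∈ W.filter (fun κ => Dom c κ),
      (Module.finrank K ((altI M a).hs κ) : ℤ) * Dt c κ := by
    rw [e1]
    symm
    apply Finset.sum_subset (Finset.filter_subset _ _)
    intro κ hκ hn
    have hd : ¬ Dom c κ := fun h => hn (Finset.mem_filter.2 ⟨hκ, h⟩)
    rw [hbot _ _ (hs_nondom _ κ hd), zero_mul]
  have e4 : chi (altI M a) ≤ ∑ κ ∈ W.filter (fun κ => Dom c κ), ∑ S ∈ SS,
      (if ∀ i, ind S i ≤ κ i then (Module.finrank K (M.hs (fun i => κ i - ind S i)) : ℤ) else 0) *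
        Dt c κ := by
    rw [e3]
    refine Finset.sum_le_sum fun κ hκ => ?_
    rw [← Finset.sum_mul]
    refine mul_le_mul_of_nonneg_right ?_ (Dt_pos c κ hc (Finset.mem_filter.1 hκ).2).le
    have := alt_hs_le M a κ
    have h2 : ((Module.finrank K ((altI M a).hs κ) : ℕ) : ℤ) ≤
        ((∑ S ∈ powersetCard a (univ : Finset (Fin m)),
          if ∀ i, ind S i ≤ κ i then Module.finrank K (M.hs (fun i => κ i - ind S i)) else 0 : ℕ) : ℤ) := by
      exact_mod_cast this
    refine h2.trans (le_of_eq ?_)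
    push_cast
    exact Finset.sum_congr rfl fun S _ => by split_ifs <;> simp
  refine e4.trans (le_of_eq ?_)
  rw [Finset.sum_comm]
  have e5 : ∀ S ∈ SS, ∑ κ ∈ W.filter (fun κ => Dom c κ),
      (if ∀ i, ind S i ≤ κ i then (Module.finrank K (M.hs (fun i => κ i - ind S i)) : ℤ) else 0) *
        Dt c κ = ∑ μ ∈ M.W, (Module.finrank K (M.hs μ) : ℤ) * Dt c (fun i => μ i + ind S i) := by
    intro S hS
    symm
    refine Finset.sum_bij_ne_zero (fun μ _ _ => fun i => μ i + ind S i) ?_ ?_ ?_ ?_
    · intro μ hμ hne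
      rw [Finset.mem_filter]
      constructor
      · rw [hW]
        apply Finset.mem_union_right
        rw [Finset.mem_image]
        exact ⟨(μ, S), Finset.mem_product.2 ⟨hμ, hS⟩, rfl⟩
      · by_contra hn
        apply hne
        by_cases hd : Dom c μ
        · rw [Dt_nondom c μ S hd hn, mul_zero]
        · rw [hbot _ _ (hs_nondom _ μ hd), zero_mul]
    · intro μ _ _ μ' _ _ h
      funext i
      have := congrFun h i
      simpa using this
    · intro κ hκ hne
      have hle : ∀ i, ind S i ≤ κ i := by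
        by_contra hn
        apply hne
        rw [if_neg hn, zero_mul]
      have hk : (fun i => (κ i - ind S i) + ind S i) = κ := by
        funext i
        exact Nat.sub_add_cancel (hle i)
      rw [if_pos hle] at hne
      have hne1 : (Module.finrank K (M.hs (fun i => κ i - ind S i)) : ℤ) ≠ 0 := left_ne_zero_of_mul hne
      refine ⟨fun i => κ i - ind S i, ?_, ?_, hk⟩
      · by_contra hn
        exact hne1 (hbot _ _ (hs_W _ _ hn))
      · show (Module.finrank K (M.hs fun i => κ i - ind S i) : ℤ) *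
          Dt c (fun i => (κ i - ind S i) + ind S i) ≠ 0
        rw [hk]
        exact hne
    · intro μ _ _
      have h1 : ∀ i, ind S i ≤ μ i + ind S i := fun i => Nat.le_add_left _ _
      have h2 : (fun i => μ i + ind S i - ind S i) = μ := by
        funext i
        exact Nat.add_sub_cancel _ _
      simp only [h1, implies_true, if_true]
      rw [h2]
  rw [Finset.sum_congr rfl e5, Finset.sum_comm, e2, Finset.mul_sum]
  refine Finset.sum_congr rfl fun μ _ => ?_
  rw [← Finset.mul_sum, hSS, Dt_pieri c μ a]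
  ring

/-- `finrank (altI M a) = C(m,a) finrank M = C(m,a) chi M ≥ chi (altI M a)` and `T4`. -/
theorem good_altI (hc : Monotone c) (M : PRep c K) (a : ℕ) (hM : Good M) : Good (altI M a) := by
  have h1 : Module.finrank K (altI M a).V = m.choose a * Module.finrank K M.V := by
    show Module.finrank K ((Fin m → K) [⋀^Fin a]→ₗ[K] M.V) = _
    rw [finrank_alt, Module.finrank_fin_fun]
  have h2 := T4 c hc (altI M a)
  have h3 := chi_alt_le hc M a
  unfold Good at hM ⊢
  rw [← hM] at h3
  have h4 : (Module.finrank K (altI M a).V : ℤ) = (m.choose a : ℤ) * (Module.finrank K M.V : ℤ) := by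
    rw [h1]
    push_cast
    ring
  exact le_antisymm h2 (by rw [h4]; exact h3)

end Pool.PI34.A5
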