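import Pool.Agent.LibPI34.A5_G1

/-! PI34, block A5, file T6: quotients of good representations by good subrepresentations. -/

set_option autoImplicit false

namespace Pool.PI34.A5

open Finset Matrix

variable {m : ℕ} {c : Fin m → ℕ} {K : Type} [Field K] [Infinite K]

/-- the weight functionals of `Y` which vanish on `X` -/
def wdX (X Y : PRep c K) (i : X.V →ₗ[K] Y.V) (lam : Fin m → ℕ) :
    Submodule K (Module.Dual K Y.V) where
  carrier := {φ | φ ∈ Y.wd lam ∧ ∀ x, φ (i x) = 0}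
  zero_mem' := ⟨Submodule.zero_mem _, fun x => rfl⟩
  add_mem' := fun {a b} ha hb => ⟨Submodule.add_mem _ ha.1 hb.1, fun x => by
    rw [LinearMap.add_apply, ha.2 x, hb.2 x, add_zero]⟩
  smul_mem' := fun r a ha => ⟨Submodule.smul_mem _ r ha.1, fun x => by
    rw [LinearMap.smul_apply, ha.2 x, smul_zero]⟩

theorem wdX_le (X Y : PRep c K) (i : X.V →ₗ[K] Y.V) (lam : Fin m → ℕ) :
    wdX X Y i lam ≤ Y.wd lam := fun _ h => h.1

/-- restriction of weight functionals -/
theorem comp_mem_wd (X Y : PRep c K) (i : X.V →ₗ[K] Y.V) (hi : Eqv X Y i) (lam : Fin m → ℕ)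
    (ψ : Module.Dual K Y.V) (hψ : ψ ∈ Y.wd lam) : ψ ∘ₗ i ∈ X.wd lam := by
  intro t v
  rw [LinearMap.comp_apply, LinearMap.comp_apply, hi (dg c t) v]
  exact hψ t (i v)

/-- weight functionals of `X` extend to weight functionals of `Y`: extend `φ` to a functional `ψ` of `Y.V` (`LinearMap.exists_extend` along
the injective `i`) and take `ψ ∘ Y.P λ` (`P_eqv`, `wd_P`) -/
theorem wd_extend (X Y : PRep c K) (i : X.V →ₗ[K] Y.V) (hi : Eqv X Y i)
    (hinj : Function.Injective i) (lam : Fin m → ℕ) (φ : Module.Dual K X.V) (hφ : φ ∈ X.wd lam) :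
    ∃ ψ ∈ Y.wd lam, ∀ x, ψ (i x) = φ x := by
  obtain ⟨g, hg⟩ := LinearMap.exists_leftInverse_of_injective i (LinearMap.ker_eq_bot.2 hinj)
  have hg' : ∀ x, g (i x) = x := fun x => LinearMap.congr_fun hg x
  refine ⟨(φ ∘ₗ g) ∘ₗ Y.P lam, ?_, ?_⟩
  · rw [wd_P]
    intro v
    rw [LinearMap.comp_apply, LinearMap.comp_apply, P_self Y lam _ (P_mem Y lam v)]
    rfl
  · intro x
    rw [LinearMap.comp_apply, ← P_eqv X Y i hi lam x, LinearMap.comp_apply, hg']
    exact (wd_P X lam φ).1 hφ x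

/-- `finrank (wdX) + finrank (X.wd λ) = finrank (Y.wd λ)` (rank-nullity for the restriction map, onto by `wd_extend`) -/
theorem finrank_wdX (X Y : PRep c K) (i : X.V →ₗ[K] Y.V) (hi : Eqv X Y i)
    (hinj : Function.Injective i) (lam : Fin m → ℕ) :
    Module.finrank K (wdX X Y i lam) + Module.finrank K (X.wd lam) =
      Module.finrank K (Y.wd lam) := by
  have hmem : ∀ ψ ∈ Y.wd lam, ψ ∘ₗ i ∈ X.wd lam := fun ψ hψ => comp_mem_wd X Y i hi lam ψ hψ
  let R : Y.wd lam →ₗ[K] X.wd lam :=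
    { toFun := fun ψ => ⟨ψ.1 ∘ₗ i, hmem ψ.1 ψ.2⟩
      map_add' := fun a b => rfl
      map_smul' := fun r a => rfl }
  have hR : ∀ (ψ : Y.wd lam) (x : X.V), (R ψ).1 x = ψ.1 (i x) := fun ψ x => rfl
  have hsurj : LinearMap.range R = ⊤ := by
    rw [LinearMap.range_eq_top]
    intro φ
    obtain ⟨ψ, hψ, h⟩ := wd_extend X Y i hi hinj lam φ.1 φ.2
    exact ⟨⟨ψ, hψ⟩, Subtype.ext (LinearMap.ext fun x => h x)⟩
  have hker : LinearMap.ker R = (wdX X Y i lam).comap (Y.wd lam).subtype := by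
    ext ψ
    rw [LinearMap.mem_ker, Submodule.mem_comap]
    constructor
    · intro h
      exact ⟨ψ.2, fun x => by
        have := congrArg (fun φ : X.wd lam => φ.1 x) h
        exact this⟩
    · intro h
      exact Subtype.ext (LinearMap.ext fun x => h.2 x)
  have h1 := LinearMap.finrank_range_add_finrank_ker (K := K) (V := Y.wd lam) (V₂ := X.wd lam) R
  rw [hsurj, finrank_top, hker,
    (Submodule.comapSubtypeEquivOfLe (wdX_le X Y i lam)).finrank_eq] at h1
  rw [add_comm]
  exact h1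

/-- `theta` restricted to the functionals which vanish on `X` -/
noncomputable def thetaX0 (X Y : PRep c K) (i : X.V →ₗ[K] Y.V) (lam : Fin m → ℕ)
    (h : IsTop Y lam) : Y.V →ₗ[K] (wdX X Y i lam →ₗ[K] nabS c K lam) where
  toFun y := (theta0 Y lam h y) ∘ₗ (Submodule.inclusion (wdX_le X Y i lam))
  map_add' y z := by rw [map_add, LinearMap.add_comp]
  map_smul' a y := by rw [map_smul, LinearMap.smul_comp]; rfl

/-- `theta` restricted to the functionals which vanish on `X` -/
noncomputable def thetaX (X Y : PRep c K) (i : X.V →ₗ[K] Y.V) (lam : Fin m → ℕ)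
    (h : IsTop Y lam) : Y.V →ₗ[K] ((nab c K lam).hom (wdX X Y i lam)).V := thetaX0 X Y i lam h

theorem thetaX_apply (X Y : PRep c K) (i : X.V →ₗ[K] Y.V) (lam : Fin m → ℕ)
    (h : IsTop Y lam) (y : Y.V) (φ : wdX X Y i lam) (Z : Blk c K) :
    (thetaX0 X Y i lam h y φ).1 Z = φ.1 (Y.ρ Z y) := rfl

theorem thetaX_eqv (X Y : PRep c K) (i : X.V →ₗ[K] Y.V) (lam : Fin m → ℕ)
    (h : IsTop Y lam) : Eqv Y ((nab c K lam).hom (wdX X Y i lam)) (thetaX X Y i lam h) := by
  intro g y
  refine LinearMap.ext fun φ => Subtype.ext (funext fun Z => ?_)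
  change φ.1 (Y.ρ Z (Y.ρ g y)) = φ.1 (Y.ρ (Z * g) y)
  rw [map_mul]
  rfl

/-- `theta` is onto (`theta_surj`) and linear maps on `wdX` extend to `Y.wd λ` (`LinearMap.exists_extend`) -/
theorem thetaX_surj (hc : Monotone c) (X Y : PRep c K) (i : X.V →ₗ[K] Y.V) (lam : Fin m → ℕ)
    (h : IsTop Y lam) (hY : Good Y) : Function.Surjective (thetaX X Y i lam h) := by
  intro T'
  obtain ⟨T, hT⟩ : ∃ T : wdX X Y i lam →ₗ[K] nabS c K lam, T' = T := ⟨T', rfl⟩
  obtain ⟨g, hg⟩ := LinearMap.exists_leftInverse_of_injective (K := K)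
    (V := wdX X Y i lam) (V' := Y.wd lam) (Submodule.inclusion (wdX_le X Y i lam))
    (Submodule.ker_inclusion _ _ _)
  obtain ⟨y, hy⟩ := theta_surj hc Y lam h hY (T ∘ₗ g)
  refine ⟨y, ?_⟩
  rw [hT]
  change (theta Y lam h y) ∘ₗ (Submodule.inclusion (wdX_le X Y i lam)) = T
  rw [hy]
  refine LinearMap.ext fun φ => ?_
  have h1 : g (Submodule.inclusion (wdX_le X Y i lam) φ) = φ := LinearMap.congr_fun hg φ
  change T (g (Submodule.inclusion (wdX_le X Y i lam) φ)) = T φ
  rw [h1]

/-- `thetaX` vanishes on the image of `i` -/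
theorem thetaX_i (X Y : PRep c K) (i : X.V →ₗ[K] Y.V) (hi : Eqv X Y i) (lam : Fin m → ℕ)
    (h : IsTop Y lam) (x : X.V) : thetaX X Y i lam h (i x) = 0 := by
  refine LinearMap.ext fun φ => Subtype.ext (funext fun Z => ?_)
  change φ.1 (Y.ρ Z (i x)) = 0
  rw [← hi Z x]
  exact φ.2.2 _

theorem isTop_sub (X Y : PRep c K) (i : X.V →ₗ[K] Y.V) (hi : Eqv X Y i)
    (hinj : Function.Injective i) (lam : Fin m → ℕ) (h : IsTop Y lam) : IsTop X lam := by
  intro κ hκ
  exact h κ (wt_sub X Y i hi hinj κ hκ)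

/-- `i x ∈ ker theta_Y ↔ x ∈ ker theta_X` (`ker_theta`, `wd_extend`) -/
theorem ker_theta_i (X Y : PRep c K) (i : X.V →ₗ[K] Y.V) (hi : Eqv X Y i)
    (hinj : Function.Injective i) (lam : Fin m → ℕ) (h : IsTop Y lam) (x : X.V) :
    i x ∈ LinearMap.ker (theta Y lam h) ↔
      x ∈ LinearMap.ker (theta X lam (isTop_sub X Y i hi hinj lam h)) := by
  rw [ker_theta, ker_theta]
  constructor
  · intro h1 φ hφ Z
    obtain ⟨ψ, hψ, h2⟩ := wd_extend X Y i hi hinj lam φ hφ
    rw [← h2, hi Z x]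
    exact h1 ψ hψ Z
  · intro h1 ψ hψ Z
    rw [← hi Z x]
    exact h1 (ψ ∘ₗ i) (comp_mem_wd X Y i hi lam ψ hψ) Z

/-- the key dimension count: `ker thetaX = ker theta_Y + i(X)`.
PROOF.  `⊇` is clear.  `finrank Y - finrank (ker thetaX) = finrank (wdX) n`, `n = finrank (nabS λ)` (`thetaX_surj`).
`finrank (ker theta_Y ⊔ range i) = finrank (ker theta_Y) + finrank X - finrank (ker theta_X)` (`ker_theta_i`)
`= finrank Y - finrank (Y.wd λ) n + finrank (X.wd λ) n` (`theta_surj` for `X` and `Y`), and `finrank_wdX`. -/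
theorem ker_thetaX (hc : Monotone c) (X Y : PRep c K) (i : X.V →ₗ[K] Y.V) (hi : Eqv X Y i)
    (hinj : Function.Injective i) (lam : Fin m → ℕ) (h : IsTop Y lam) (hX : Good X) (hY : Good Y) :
    LinearMap.ker (thetaX X Y i lam h) = LinearMap.ker (theta Y lam h) ⊔ LinearMap.range i := by
  have hXt := isTop_sub X Y i hi hinj lam h
  symm
  apply Submodule.eq_of_le_of_finrank_eq
  · apply sup_le
    · intro y hy
      rw [LinearMap.mem_ker] at hy ⊢
      change (theta Y lam h y) ∘ₗ (Submodule.inclusion (wdX_le X Y i lam)) = 0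
      rw [hy]
      rfl
    · rintro _ ⟨x, rfl⟩
      rw [LinearMap.mem_ker]
      exact thetaX_i X Y i hi lam h x
  · have e1 := LinearMap.finrank_range_add_finrank_ker (thetaX X Y i lam h)
    rw [LinearMap.range_eq_top.2 (thetaX_surj hc X Y i lam h hY), finrank_top, finrank_hom] at e1
    have e2 := LinearMap.finrank_range_add_finrank_ker (theta Y lam h)
    rw [LinearMap.range_eq_top.2 (theta_surj hc Y lam h hY), finrank_top, finrank_hom] at e2
    have e3 := LinearMap.finrank_range_add_finrank_ker (theta X lam hXt)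
    rw [LinearMap.range_eq_top.2 (theta_surj hc X lam hXt hX), finrank_top, finrank_hom] at e3
    have e4 := Submodule.finrank_sup_add_finrank_inf_eq (LinearMap.ker (theta Y lam h))
      (LinearMap.range i)
    have e5 := LinearMap.finrank_range_of_inj hinj
    have e6 : LinearMap.ker (theta Y lam h) ⊓ LinearMap.range i =
        (LinearMap.ker (theta X lam hXt)).map i := by
      ext y
      rw [Submodule.mem_inf, Submodule.mem_map]
      constructor
      · rintro ⟨h1, x, rfl⟩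
        exact ⟨x, (ker_theta_i X Y i hi hinj lam h x).1 h1, rfl⟩
      · rintro ⟨x, hx, rfl⟩
        exact ⟨(ker_theta_i X Y i hi hinj lam h x).2 hx, x, rfl⟩
    have e7 := (Submodule.equivMapOfInjective i hinj (LinearMap.ker (theta X lam hXt))).finrank_eq
    rw [← e6] at e7
    have e8 := finrank_wdX X Y i hi hinj lam
    have e9 : Module.finrank K (wdX X Y i lam) * Module.finrank K (nab c K lam).V +
        Module.finrank K (X.wd lam) * Module.finrank K (nab c K lam).V =
        Module.finrank K (Y.wd lam) * Module.finrank K (nab c K lam).V := by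
      rw [← add_mul, e8]
    omega

end Pool.PI34.A5
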