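import Pool.Agent.LibPI34.A5_C1
import Pool.Agent.LibPI34.A5_DDef

/-! PI34, block A5, file Th: the coefficients `Θ` of the lift. -/

set_option autoImplicit false

namespace Pool.PI34.A5

open Finset Matrix

variable {K : Type} [Field K] [Infinite K] {N k : ℕ}

/-- the row vectors `(e_a | B_r(a, ·))` -/
def rowsB (B : Fin k → Matrix (Fin N) (Fin N) K) : Fin k → Fin N → Fin (N + N) → K :=
  fun r a b => Sum.elim (fun a' => (1 : Matrix (Fin N) (Fin N) K) a a') (fun b' => B r a b')
    (finSumFinEquiv.symm b)

/-- `Θ(ψ)`: the value at the rows `e_(inl a)` if `ψ(r,a) = none` and `e_(inr b)` if `ψ(r,a) = some b` -/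
noncomputable def ThOf (ω : (Fin k → Fin N → Fin (N + N) → K) → K) (ψ : Fin k × Fin N → Option (Fin N)) : K :=
  ω (fun r a => Pi.single (finSumFinEquiv ((ψ (r, a)).elim (Sum.inl a) Sum.inr)) 1)

omit [Infinite K] in
theorem Th_upd {J : Type} (R : Fin k × Fin N → J → K) (r : Fin k) (a : Fin N) (x : J → K) :
    (fun (r' : Fin k) (a' : Fin N) => Function.update R (r, a) x (r', a')) =
      Function.update (fun r' a' => R (r', a')) r
        (Function.update (fun a' => R (r, a')) a x) := by
  funext r' a'
  by_cases h : r' = r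
  · subst h
    rw [Function.update_self]
    by_cases h2 : a' = a
    · subst h2
      rw [Function.update_self, Function.update_self]
    · rw [Function.update_of_ne h2, Function.update_of_ne (fun e => h2 (congrArg Prod.snd e))]
  · rw [Function.update_of_ne h, Function.update_of_ne (fun e => h (congrArg Prod.fst e))]

/-- `ω` as a multilinear map in all the rows -/
noncomputable def Th_mul {J : Type} (ω : (Fin k → Fin N → J → K) → K) (hω : IsMA ω) :
    MultilinearMap K (fun _ : Fin k × Fin N => J → K) K where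
  toFun R := ω (fun r a => R (r, a))
  map_update_add' := by
    intro inst R i x y
    have hi : inst = instDecidableEqProd := Subsingleton.elim _ _
    subst hi
    obtain ⟨r, a⟩ := i
    obtain ⟨μ, hμ⟩ := hω r (fun r' a' => R (r', a'))
    rw [Th_upd, Th_upd, Th_upd, hμ, hμ, hμ]
    exact μ.map_update_add _ _ _ _
  map_update_smul' := by
    intro inst R i t x
    have hi : inst = instDecidableEqProd := Subsingleton.elim _ _
    subst hi
    obtain ⟨r, a⟩ := i
    obtain ⟨μ, hμ⟩ := hω r (fun r' a' => R (r', a'))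
    rw [Th_upd, Th_upd, hμ, hμ]
    exact μ.map_update_smul _ _ _ _

omit [Infinite K] in
theorem Th_rows (B : Fin k → Matrix (Fin N) (Fin N) K) (r : Fin k) (a : Fin N) :
    rowsB B r a = ∑ o : Option (Fin N), (o.elim 1 (fun b => B r a b)) •
      (Pi.single (finSumFinEquiv (o.elim (Sum.inl a) Sum.inr)) 1 : Fin (N + N) → K) := by
  funext b
  obtain ⟨b, rfl⟩ := finSumFinEquiv.surjective b
  rw [Fintype.sum_option, Pi.add_apply, Finset.sum_apply]
  unfold rowsB
  rw [Equiv.symm_apply_apply]
  rcases b with b | b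
  · have h1 : ∀ b' : Fin N, ((some b' : Option (Fin N)).elim 1 (fun b => B r a b) •
        (Pi.single (finSumFinEquiv ((some b' : Option (Fin N)).elim (Sum.inl a) Sum.inr)) 1 :
          Fin (N + N) → K)) (finSumFinEquiv (Sum.inl b)) = 0 := by
      intro b'
      rw [Pi.smul_apply, Pi.single_eq_of_ne, smul_zero]
      intro e
      have := finSumFinEquiv.injective e
      simp at this
    rw [Finset.sum_eq_zero fun b' _ => h1 b', add_zero]
    simp only [Option.elim_none, Sum.elim_inl, one_smul]
    by_cases h : a = b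
    · subst h
      rw [Matrix.one_apply_eq, Pi.single_eq_same]
    · rw [Matrix.one_apply_ne h, Pi.single_eq_of_ne]
      intro e
      have := finSumFinEquiv.injective e
      exact h (Sum.inl_injective this).symm
  · have h1 : ∀ b' : Fin N, ((some b' : Option (Fin N)).elim 1 (fun b => B r a b) •
        (Pi.single (finSumFinEquiv ((some b' : Option (Fin N)).elim (Sum.inl a) Sum.inr)) 1 :
          Fin (N + N) → K)) (finSumFinEquiv (Sum.inr b)) = if b' = b then B r a b' else 0 := by
      intro b'
      rw [Pi.smul_apply]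
      simp only [Option.elim_some, smul_eq_mul]
      by_cases h : b' = b
      · subst h
        rw [if_pos rfl, Pi.single_eq_same, mul_one]
      · rw [if_neg h, Pi.single_eq_of_ne, mul_zero]
        intro e
        exact h (Sum.inr_injective (finSumFinEquiv.injective e)).symm
    rw [Finset.sum_congr rfl fun b' _ => h1 b', Finset.sum_ite_eq' univ b, if_pos (mem_univ b)]
    have h2 : ((none : Option (Fin N)).elim 1 (fun b => B r a b) •
        (Pi.single (finSumFinEquiv ((none : Option (Fin N)).elim (Sum.inl a) Sum.inr)) 1 :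
          Fin (N + N) → K)) (finSumFinEquiv (Sum.inr b)) = 0 := by
      rw [Pi.smul_apply, Pi.single_eq_of_ne, smul_zero]
      intro e
      have := finSumFinEquiv.injective e
      simp at this
    rw [h2, zero_add]
    rfl

/-- PROOF.  The row `(r, a)` of `rowsB B` is `e_(inl a) + ∑_b B_r(a, b) e_(inr b)`; expand in all the rows `(r, a)` (multilinearity in each row;
e.g. turn `ω` into a `MultilinearMap K (fun _ : Fin k × Fin N => Fin (N+N) → K) K` and use `MultilinearMap.map_sum`). -/
theorem fT_ThOf (ω : (Fin k → Fin N → Fin (N + N) → K) → K) (hω : IsMA ω)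
    (B : Fin k → Matrix (Fin N) (Fin N) K) : fT (ThOf ω) B = ω (rowsB B) := by
  have h1 : ω (rowsB B) = Th_mul ω hω (fun x => ∑ o : Option (Fin N),
      (o.elim 1 (fun b => B x.1 x.2 b)) •
      (Pi.single (finSumFinEquiv (o.elim (Sum.inl x.2) Sum.inr)) 1 : Fin (N + N) → K)) := by
    change ω (rowsB B) = ω _
    congr 1
    funext r a
    exact Th_rows B r a
  rw [h1, MultilinearMap.map_sum]
  unfold fT
  refine Finset.sum_congr rfl fun ψ _ => ?_
  rw [MultilinearMap.map_smul_univ, smul_eq_mul, mul_comm]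
  rfl

/-- PROOF.  If `ψ(r,a)`, `ψ(r,a')` are both not `none` then the swap of `ψ` swaps the two row vectors of the block `r`. -/
theorem AltC_ThOf (ω : (Fin k → Fin N → Fin (N + N) → K) → K) (hω : IsMA ω) : AltC (ThOf ω) := by
  intro ψ r a a' haa h1 h2
  set R : Fin k → Fin N → Fin (N + N) → K :=
    fun r a => Pi.single (finSumFinEquiv ((ψ (r, a)).elim (Sum.inl a) Sum.inr)) 1 with hR
  obtain ⟨μ, hμ⟩ := hω r R
  have h3 : ThOf ω ψ = μ (R r) := by
    rw [← hμ, Function.update_eq_self]
    rfl
  obtain ⟨b, hb⟩ := Option.ne_none_iff_exists'.1 h1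
  obtain ⟨b', hb'⟩ := Option.ne_none_iff_exists'.1 h2
  refine ⟨?_, fun he => ?_⟩
  · rw [h3, ← μ.map_swap (R r) haa, ← hμ]
    unfold ThOf
    congr 1
    funext s c
    by_cases hs : s = r
    · subst hs
      rw [Function.update_self]
      by_cases hc : c = a
      · subst hc
        simp only [Function.comp, Equiv.swap_apply_left, hR, hb']
        rfl
      · by_cases hc' : c = a'
        · subst hc'
          simp only [Function.comp, Equiv.swap_apply_right, hR, hb]
          rfl
        · simp only [Function.comp]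
          rw [Equiv.swap_apply_of_ne_of_ne (fun e => hc (congrArg Prod.snd e))
            (fun e => hc' (congrArg Prod.snd e)), Equiv.swap_apply_of_ne_of_ne hc hc']
    · rw [Function.update_of_ne hs]
      simp only [Function.comp]
      rw [Equiv.swap_apply_of_ne_of_ne (fun e => hs (congrArg Prod.fst e))
        (fun e => hs (congrArg Prod.fst e))]
  · rw [h3]
    refine μ.map_eq_zero_of_eq _ ?_ haa
    simp only [hR, he, hb']
    rfl

omit [Infinite K] in
theorem Th_alt {J : Type} (μ : (J → K) [⋀^Fin N]→ₗ[K] K) (g : Matrix (Fin N) (Fin N) K)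
    (v : Fin N → J → K) : μ (fun a => ∑ b, g a b • v b) = g.det * μ v := by
  let φ : (Fin N → K) →ₗ[K] (J → K) := Fintype.linearCombination K v
  have hφ : ∀ x : Fin N → K, φ x = ∑ b, x b • v b := fun x => rfl
  have h1 := AlternatingMap.eq_smul_basis_det (Pi.basisFun K (Fin N)) (μ.compLinearMap φ)
  have h2 := congrArg (fun f : (Fin N → K) [⋀^Fin N]→ₗ[K] K => f g) h1
  simp only [AlternatingMap.compLinearMap_apply, AlternatingMap.smul_apply, smul_eq_mul] at h2
  have h3 : (fun i => φ ((Pi.basisFun K (Fin N)) i)) = v := by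
    funext i
    rw [hφ, Pi.basisFun_apply]
    rw [Finset.sum_eq_single i]
    · rw [Pi.single_eq_same, one_smul]
    · intro b _ hb
      rw [Pi.single_eq_of_ne hb, zero_smul]
    · intro h
      exact absurd (mem_univ i) h
  have h4 : (Pi.basisFun K (Fin N)).det g = g.det := Pi.basisFun_det_apply g
  rw [h4] at h2
  have h5 : (fun i => φ (g i)) = fun a => ∑ b, g a b • v b := rfl
  have h6 : (⇑φ ∘ ⇑(Pi.basisFun K (Fin N))) = v := h3
  first
    | rw [h5, h3, mul_comm] at h2
      exact h2
    | rw [h5, h6, mul_comm] at h2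
      exact h2

/-- row operations: PROOF.  Block by block (`IsMA`): an alternating map of `N` vectors evaluated at `∑_b g_ab v_b` is `det g` times its value
(`AlternatingMap.map_basis_...`/ `MultilinearMap` expansion; e.g. `AlternatingMap.map_vecMul`-type lemma; prove it by `Matrix.det_apply`). -/
theorem omega_row (ω : (Fin k → Fin N → Fin (N + N) → K) → K) (hω : IsMA ω)
    (g : Matrix (Fin N) (Fin N) K) (R : Fin k → Fin N → Fin (N + N) → K) :
    ω (fun r a => ∑ b, g a b • R r b) = g.det ^ k * ω R := by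
  classical
  have key : ∀ S : Finset (Fin k),
      ω (fun r => if r ∈ S then (fun a => ∑ b, g a b • R r b) else R r) =
        g.det ^ S.card * ω R := by
    intro S
    induction S using Finset.induction_on with
    | empty => simp
    | insert r S hr ih =>
      set f : Fin k → Fin N → Fin (N + N) → K :=
        fun r => if r ∈ S then (fun a => ∑ b, g a b • R r b) else R r with hf
      obtain ⟨μ, hμ⟩ := hω r f
      have h1 : (fun r' => if r' ∈ insert r S then (fun a => ∑ b, g a b • R r' b) else R r') =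
          Function.update f r (fun a => ∑ b, g a b • R r b) := by
        funext r'
        by_cases h : r' = r
        · subst h
          rw [Function.update_self, if_pos (Finset.mem_insert_self _ _)]
        · rw [Function.update_of_ne h, hf]
          simp only [Finset.mem_insert, h, false_or]
      have h2 : f r = R r := by
        rw [hf]
        simp only [if_neg hr]
      have h3 : ω f = μ (R r) := by
        rw [← h2, ← hμ, Function.update_eq_self]
      rw [h1, hμ, Th_alt, ← h3, ih, Finset.card_insert_of_notMem hr, pow_succ]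
      ring
  have h := key univ
  simp only [Finset.mem_univ, if_true, Finset.card_univ, Fintype.card_fin] at h
  exact h

section polyfn

variable {T : Type} (x : T → Fin N × Fin N → K)

omit [Infinite K] in
theorem Th_fT_poly (Th : (Fin k × Fin N → Option (Fin N)) → K)
    (Bf : T → Fin k → Matrix (Fin N) (Fin N) K)
    (h : ∀ r a b, (fun g => Bf g r a b) ∈ PolyFn x) : (fun g => fT Th (Bf g)) ∈ PolyFn x := by
  have e : (fun g => fT Th (Bf g)) = ∑ ψ : Fin k × Fin N → Option (Fin N),
      (fun _ => Th ψ) * ∏ y : Fin k × Fin N, fun g => (ψ y).elim 1 (fun b => Bf g y.1 y.2 b) := by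
    funext g
    rw [Finset.sum_apply]
    refine Finset.sum_congr rfl fun ψ _ => ?_
    rw [Pi.mul_apply, Finset.prod_apply]
  rw [e]
  refine Subalgebra.sum_mem _ fun ψ _ => Subalgebra.mul_mem _ (const_mem x _)
    (Subalgebra.prod_mem _ fun y _ => ?_)
  cases hy : ψ y with
  | none => exact const_mem x 1
  | some b => exact h y.1 y.2 b

omit [Infinite K] in
theorem Th_mul_poly (A B : T → Matrix (Fin N) (Fin N) K)
    (hA : ∀ a b, (fun g => A g a b) ∈ PolyFn x) (hB : ∀ a b, (fun g => B g a b) ∈ PolyFn x)
    (a b : Fin N) : (fun g => (A g * B g) a b) ∈ PolyFn x := by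
  have e : (fun g => (A g * B g) a b) = ∑ j, (fun g => A g a j) * fun g => B g j b := by
    funext g
    rw [Finset.sum_apply, Matrix.mul_apply]
    rfl
  rw [e]
  exact Subalgebra.sum_mem _ fun j _ => Subalgebra.mul_mem _ (hA a j) (hB j b)

omit [Infinite K] in
theorem Th_det_poly (A : T → Matrix (Fin N) (Fin N) K)
    (hA : ∀ a b, (fun g => A g a b) ∈ PolyFn x) : (fun g => (A g).det) ∈ PolyFn x := by
  have e : (fun g => (A g).det) = ∑ σ : Equiv.Perm (Fin N),
      (fun _ => ((Equiv.Perm.sign σ : ℤ) : K)) * ∏ i, fun g => A g (σ i) i := by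
    funext g
    rw [Finset.sum_apply, Matrix.det_apply']
    refine Finset.sum_congr rfl fun σ _ => ?_
    rw [Pi.mul_apply, Finset.prod_apply]
  rw [e]
  exact Subalgebra.sum_mem _ fun σ _ => Subalgebra.mul_mem _ (const_mem x _)
    (Subalgebra.prod_mem _ fun i _ => hA _ _)

end polyfn

omit [Infinite K] in
theorem Th_rowsB_mul (c : Fin N → ℕ) (g : Blk c K) (B : Fin k → Matrix (Fin N) (Fin N) K)
    (r : Fin k) (a : Fin N) :
    rowsB (fun r => g.1 * B r) r a ᵥ* dblN c K g =
      ∑ b, g.1 a b • rowsB (fun r => B r * g.1) r b := by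
  have hd : dblN c K g = (Matrix.fromBlocks g.1 0 0 g.1).submatrix finSumFinEquiv.symm
    finSumFinEquiv.symm := rfl
  funext j
  obtain ⟨j, rfl⟩ := finSumFinEquiv.surjective j
  rw [Matrix.vecMul, dotProduct, ← Equiv.sum_comp (finSumFinEquiv (m := N) (n := N)),
    Fintype.sum_sum_type, Finset.sum_apply]
  unfold rowsB
  simp only [hd, Matrix.submatrix_apply, Equiv.symm_apply_apply, Sum.elim_inl, Sum.elim_inr,
    Pi.smul_apply, smul_eq_mul]
  rcases j with j | j
  · simp only [Matrix.fromBlocks_apply₁₁, Matrix.fromBlocks_apply₂₁, Sum.elim_inl,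
      Matrix.zero_apply, mul_zero, Finset.sum_const_zero, add_zero]
    have h1 : ∑ i, (1 : Matrix (Fin N) (Fin N) K) a i * g.1 i j =
        ((1 : Matrix (Fin N) (Fin N) K) * (g.1 : Matrix (Fin N) (Fin N) K)) a j := rfl
    have h2 : ∑ i, g.1 a i * (1 : Matrix (Fin N) (Fin N) K) i j =
        ((g.1 : Matrix (Fin N) (Fin N) K) * (1 : Matrix (Fin N) (Fin N) K)) a j := rfl
    rw [h1, h2, one_mul, mul_one]
  · simp only [Matrix.fromBlocks_apply₁₂, Matrix.fromBlocks_apply₂₂, Sum.elim_inr,
      Matrix.zero_apply, mul_zero, Finset.sum_const_zero, zero_add]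
    have h1 : ∑ i, (g.1 * B r) a i * g.1 i j = (g.1 * B r * g.1) a j := rfl
    have h2 : ∑ i, g.1 a i * (B r * g.1) i j = (g.1 * (B r * g.1)) a j := rfl
    rw [h1, h2, mul_assoc]

/-- PROOF.  For block `g`: `[1 | g B_r] (g ⊕ g) = [g | g B_r g] = g [1 | B_r g]`; so `det(g)^k f~(gB) = det(g)^k f~(Bg)` (semi-invariance and
`omega_row`), i.e. `det(g)^k (f~(gB) - f~(Bg)) = 0` for all block `g`, hence `f~(gB) = f~(Bg)` for all block `g` (`blk_mul_zero` with `G g = det(g)^k`; the functions
are polynomial in `g` because they are given by `fT`). -/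
theorem LI_ThOf (c : Fin N → ℕ) (ω : (Fin k → Fin N → Fin (N + N) → K) → K) (hω : IsMA ω)
    (h2 : ∀ (g : Blk c K) R, ω (fun r a => R r a ᵥ* dblN c K g) = g.1.det ^ k * ω R) :
    LI c (ThOf ω) := by
  intro g hg B
  have hc : ∀ a b, (fun Z : Blk c K => Z.1 a b) ∈ PolyFn (crd c K) :=
    fun a b => coord_mem (crd c K) (a, b)
  have hk : ∀ (A : Matrix (Fin N) (Fin N) K) (a b),
      (fun _ : Blk c K => A a b) ∈ PolyFn (crd c K) := fun A a b => const_mem (crd c K) _
  have hF1 : (fun Z : Blk c K => fT (ThOf ω) (fun r => B r * Z.1)) ∈ PolyFn (crd c K) :=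
    Th_fT_poly (crd c K) (ThOf ω) (fun Z r => B r * Z.1) fun r a b =>
      Th_mul_poly (crd c K) (fun _ => B r) (fun Z => Z.1) (hk (B r)) hc a b
  have hF2 : (fun Z : Blk c K => fT (ThOf ω) (fun r => Z.1 * B r)) ∈ PolyFn (crd c K) :=
    Th_fT_poly (crd c K) (ThOf ω) (fun Z r => Z.1 * B r) fun r a b =>
      Th_mul_poly (crd c K) (fun Z => Z.1) (fun _ => B r) hc (hk (B r)) a b
  have hG : (fun Z : Blk c K => Z.1.det ^ k) ∈ PolyFn (crd c K) :=
    Subalgebra.pow_mem _ (Th_det_poly (crd c K) (fun Z => Z.1) hc) k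
  have key := blk_mul_zero (fun Z : Blk c K => fT (ThOf ω) (fun r => B r * Z.1) -
    fT (ThOf ω) (fun r => Z.1 * B r)) (fun Z : Blk c K => Z.1.det ^ k)
    (Subalgebra.sub_mem _ hF1 hF2) hG (by
      intro Z
      have h1 := h2 Z (rowsB (fun r => Z.1 * B r))
      have h3 : (fun r a => rowsB (fun r => Z.1 * B r) r a ᵥ* dblN c K Z) =
          fun r a => ∑ b, Z.1 a b • rowsB (fun r => B r * Z.1) r b := by
        funext r a
        exact Th_rowsB_mul c Z B r a
      rw [h3, omega_row ω hω] at h1
      rw [fT_ThOf ω hω, fT_ThOf ω hω]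
      linear_combination h1) ⟨1, by
        change (1 : Matrix (Fin N) (Fin N) K).det ^ k ≠ 0
        rw [Matrix.det_one, one_pow]
        exact one_ne_zero⟩ ⟨g, hg⟩
  exact sub_eq_zero.1 key

end Pool.PI34.A5
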