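import Pool.Agent.LibPI34.A5_Wt3
import Pool.Agent.LibPI34.A5_Nab

/-! PI34, block A5, file The: the map `theta : M → Hom(wd λ, nab λ)` for a top weight `λ`. -/

set_option autoImplicit false

namespace Pool.PI34.A5

open Finset Matrix

variable {m : ℕ} {c : Fin m → ℕ} {K : Type} [Field K] [Infinite K]

/-- matrix coefficients of a weight functional -/
noncomputable def coefS (M : PRep c K) (lam : Fin m → ℕ) (h : IsTop M lam) (v : M.V)
    (φ : M.wd lam) : nabS c K lam :=
  ⟨fun Z => φ.1 (M.ρ Z v), M.poly v φ.1, fun u Z hu => by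
    change φ.1 (M.ρ (u * Z) v) = φ.1 (M.ρ Z v)
    rw [map_mul]
    exact top_up M lam h u hu φ.1 φ.2 _, fun t Z => by
    change φ.1 (M.ρ (dg c t * Z) v) = tw t lam * φ.1 (M.ρ Z v)
    rw [map_mul]
    exact φ.2 t _⟩

/-- `theta0 v φ Z = φ (ρ(Z) v)` -/
noncomputable def theta0 (M : PRep c K) (lam : Fin m → ℕ) (h : IsTop M lam) :
    M.V →ₗ[K] (M.wd lam →ₗ[K] nabS c K lam) :=
  LinearMap.mk₂ K (fun v φ => coefS M lam h v φ)
    (fun v w φ => Subtype.ext (funext fun Z => by
      change φ.1 (M.ρ Z (v + w)) = φ.1 (M.ρ Z v) + φ.1 (M.ρ Z w)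
      simp))
    (fun a v φ => Subtype.ext (funext fun Z => by
      change φ.1 (M.ρ Z (a • v)) = a • φ.1 (M.ρ Z v)
      simp))
    (fun v φ ψ => Subtype.ext (funext fun Z => rfl))
    (fun a v φ => Subtype.ext (funext fun Z => rfl))

/-- `theta v φ Z = φ (ρ(Z) v)` -/
noncomputable def theta (M : PRep c K) (lam : Fin m → ℕ) (h : IsTop M lam) :
    M.V →ₗ[K] ((nab c K lam).hom (M.wd lam)).V := theta0 M lam h

theorem theta_apply (M : PRep c K) (lam : Fin m → ℕ) (h : IsTop M lam) (v : M.V) (φ : M.wd lam)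
    (Z : Blk c K) : (theta0 M lam h v φ).1 Z = φ.1 (M.ρ Z v) := rfl

theorem theta_eqv (M : PRep c K) (lam : Fin m → ℕ) (h : IsTop M lam) :
    Eqv M ((nab c K lam).hom (M.wd lam)) (theta M lam h) := by
  intro g v
  apply LinearMap.ext
  intro φ
  apply Subtype.ext
  funext Z
  change φ.1 (M.ρ Z (M.ρ g v)) = φ.1 (M.ρ (Z * g) v)
  rw [map_mul]
  rfl

theorem ker_theta (M : PRep c K) (lam : Fin m → ℕ) (h : IsTop M lam) (v : M.V) :
    v ∈ LinearMap.ker (theta M lam h) ↔ ∀ φ ∈ M.wd lam, ∀ Z, φ (M.ρ Z v) = 0 := by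
  constructor
  · intro hv φ hφ Z
    have h1 : theta0 M lam h v = 0 := hv
    have h2 := theta_apply M lam h v ⟨φ, hφ⟩ Z
    rw [h1] at h2
    exact h2.symm
  · intro hv
    change theta0 M lam h v = 0
    apply LinearMap.ext
    intro φ
    apply Subtype.ext
    funext Z
    exact hv φ.1 φ.2 Z

/-- use `wd_sep` with `Z = 1` -/
theorem ker_theta_wt (M : PRep c K) (lam : Fin m → ℕ) (h : IsTop M lam) (v : M.V)
    (hv : v ∈ LinearMap.ker (theta M lam h)) (hw : v ∈ M.wt lam) : v = 0 := by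
  refine wd_sep M lam v hw fun φ hφ => ?_
  have h1 := (ker_theta M lam h v).1 hv φ hφ 1
  rwa [map_one] at h1

/-- the kernel of `theta` as a representation -/
noncomputable def kth (M : PRep c K) (lam : Fin m → ℕ) (h : IsTop M lam) : PRep c K :=
  M.sub (LinearMap.ker (theta M lam h)) (fun g v hv => by
    rw [LinearMap.mem_ker] at hv ⊢
    rw [theta_eqv M lam h g v, hv, map_zero])

/-- the dimension of `hom` -/
theorem finrank_hom (M : PRep c K) (V : Type) [AddCommGroup V] [Module K V]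
    [FiniteDimensional K V] :
    Module.finrank K (M.hom V).V = Module.finrank K V * Module.finrank K M.V :=
  Module.finrank_linearMap K K V M.V

/-- PROOF.  `T ∈ (M.hom V).hs κ ↔ ∀ v, T v ∈ M.hs κ`; so `(M.hom V).hs κ ≃ (V →ₗ M.hs κ)`. -/
theorem hom_hs (M : PRep c K) (V : Type) [AddCommGroup V] [Module K V]
    [FiniteDimensional K V] (κ : Fin m → ℕ) :
    Module.finrank K ((M.hom V).hs κ) = Module.finrank K V * Module.finrank K (M.hs κ) := by
  have key : ∀ T : V →ₗ[K] M.V, T ∈ ((M.hom V).hs κ : Submodule K (V →ₗ[K] M.V)) ↔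
      ∀ v, T v ∈ M.hs κ := by
    intro T
    constructor
    · intro hT v
      refine ⟨fun t => ?_, fun g hg => ?_⟩
      · exact LinearMap.congr_fun (hT.1 t) v
      · exact LinearMap.congr_fun (hT.2 g hg) v
    · intro hT
      refine ⟨fun t => ?_, fun g hg => ?_⟩
      · exact LinearMap.ext fun v => (hT v).1 t
      · exact LinearMap.ext fun v => (hT v).2 g hg
  let e : ((M.hom V).hs κ : Submodule K (V →ₗ[K] M.V)) ≃ₗ[K] (V →ₗ[K] M.hs κ) :=
    { toFun := fun T => LinearMap.codRestrict (M.hs κ) T.1 ((key T.1).1 T.2)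
      map_add' := fun _ _ => rfl
      map_smul' := fun _ _ => rfl
      invFun := fun S => ⟨(M.hs κ).subtype ∘ₗ S, (key _).2 fun v => (S v).2⟩
      left_inv := fun _ => rfl
      right_inv := fun _ => rfl }
  rw [← Module.finrank_linearMap K K V (M.hs κ)]
  exact e.finrank_eq

end Pool.PI34.A5
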