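import Pool.Agent.LibPI34.A5_Den

/-! PI34, block A5, file Wt: weights. -/

set_option autoImplicit false

namespace Pool.PI34.A5

open Finset Matrix

variable {m : ℕ} {c : Fin m → ℕ} {K : Type} [Field K]

private lemma eval_mono (t : Fin m → K) (κ : Fin m → ℕ) (a : K) :
    MvPolynomial.eval t (MvPolynomial.monomial (Finsupp.equivFunOnFinite.symm κ) a) =
      a * tw t κ := by
  rw [MvPolynomial.eval_monomial, Finsupp.prod_fintype _ _ (fun i => pow_zero _)]
  rfl

private lemma tw_poly (κ : Fin m → ℕ) :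
    (fun t => tw t κ) ∈ PolyFn (fun x : Fin m → K => x) :=
  (mem_PolyFn _ _).2 ⟨MvPolynomial.monomial (Finsupp.equivFunOnFinite.symm κ) 1, fun t => by
    rw [eval_mono, one_mul]⟩

/-- the functions `t ↦ t^κ` are linearly independent (also with vector coefficients).
PROOF.  Apply a functional `φ` to reduce to scalar coefficients; `∑ φ(v κ) X^κ` is a polynomial which vanishes everywhere (`MvPolynomial.funext`). -/
theorem tw_indep [Infinite K] {V : Type} [AddCommGroup V] [Module K V]
    (W : Finset (Fin m → ℕ)) (v : (Fin m → ℕ) → V)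
    (h : ∀ t : Fin m → K, ∑ κ ∈ W, tw t κ • v κ = 0) (κ : Fin m → ℕ) (hκ : κ ∈ W) : v κ = 0 := by
  rw [← Module.forall_dual_apply_eq_zero_iff K]
  intro φ
  have hp : (∑ μ ∈ W, MvPolynomial.monomial (Finsupp.equivFunOnFinite.symm μ) (φ (v μ)) :
      MvPolynomial (Fin m) K) = 0 := by
    refine MvPolynomial.funext fun t => ?_
    rw [map_sum, map_zero]
    have h1 := congrArg φ (h t)
    rw [map_sum, map_zero] at h1
    rw [← h1]
    refine sum_congr rfl fun μ _ => ?_
    rw [eval_mono, map_smul, smul_eq_mul, mul_comm]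
  have h2 := congrArg (MvPolynomial.coeff (Finsupp.equivFunOnFinite.symm κ)) hp
  rw [MvPolynomial.coeff_sum, MvPolynomial.coeff_zero, sum_eq_single κ] at h2
  · rwa [MvPolynomial.coeff_monomial, if_pos rfl] at h2
  · intro μ _ hμ
    rw [MvPolynomial.coeff_monomial, if_neg]
    exact fun e => hμ (Finsupp.equivFunOnFinite.symm.injective e)
  · exact fun h3 => absurd hκ h3

/-- PROOF.  Choose a basis `b` of `M.V`; the matrix coefficients `t ↦ b.repr (M.ρ (dg c t) (b j)) i` are polynomial functions of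
`t` (`M.poly` and `comp_mem`), i.e. given by polynomials `p i j : MvPolynomial (Fin m) K`.  `W` = union of the supports (transported to
functions), `P κ` = the endomorphism with matrix `coeff κ (p i j)`. -/
theorem exists_wt (M : PRep c K) : ∃ (W : Finset (Fin m → ℕ)) (P : (Fin m → ℕ) → Module.End K M.V),
    (∀ κ, κ ∉ W → P κ = 0) ∧ ∀ t : Fin m → K, M.ρ (dg c t) = ∑ κ ∈ W, tw t κ • P κ := by
  classical
  let b := Module.finBasis K M.V
  have h1 : ∀ i j, ∃ p : MvPolynomial (Fin m) K, ∀ t : Fin m → K,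
      b.repr (M.ρ (dg c t) (b j)) i = MvPolynomial.eval t p := by
    intro i j
    have h2 := comp_mem (crd c K) (fun x : Fin m → K => x) (dg c) (fun ij => ?_) _
      (M.poly (b j) (b.coord i))
    · exact (mem_PolyFn _ _).1 h2
    · by_cases hij : ij.1 = ij.2
      · have e : (fun t : Fin m → K => crd c K (dg c t) ij) = fun t => t ij.1 := by
          funext t
          show Matrix.diagonal t ij.1 ij.2 = t ij.1
          rw [← hij, Matrix.diagonal_apply_eq]
        rw [e]
        exact coord_mem _ ij.1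
      · have e : (fun t : Fin m → K => crd c K (dg c t) ij) = fun _ => 0 := by
          funext t
          show Matrix.diagonal t ij.1 ij.2 = 0
          rw [Matrix.diagonal_apply_ne _ hij]
        rw [e]
        exact const_mem _ 0
  choose p hp using h1
  refine ⟨univ.biUnion fun i => univ.biUnion fun j =>
      (p i j).support.image (fun s : Fin m →₀ ℕ => ⇑s),
    fun κ => Matrix.toLin b b (Matrix.of fun i j => (p i j).coeff (Finsupp.equivFunOnFinite.symm κ)),
    ?_, ?_⟩
  · intro κ hκ
    have e : (Matrix.of fun i j => (p i j).coeff (Finsupp.equivFunOnFinite.symm κ)) = 0 := by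
      ext i j
      rw [Matrix.of_apply, Matrix.zero_apply]
      by_contra h2
      refine hκ (mem_biUnion.2 ⟨i, mem_univ _, mem_biUnion.2 ⟨j, mem_univ _, mem_image.2
        ⟨Finsupp.equivFunOnFinite.symm κ, MvPolynomial.mem_support_iff.2 h2, ?_⟩⟩⟩)
      exact Finsupp.equivFunOnFinite.apply_symm_apply κ
    show Matrix.toLin b b _ = 0
    rw [e, map_zero]
  · intro t
    refine b.ext fun j => b.ext_elem fun i => ?_
    rw [hp, LinearMap.sum_apply, map_sum, Finsupp.finsetSum_apply]
    have h3 : ∀ κ : Fin m → ℕ, (b.repr ((tw t κ • Matrix.toLin b b (Matrix.of fun i j =>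
        (p i j).coeff (Finsupp.equivFunOnFinite.symm κ))) (b j))) i =
          tw t κ * (p i j).coeff (Finsupp.equivFunOnFinite.symm κ) := by
      intro κ
      rw [LinearMap.smul_apply, map_smul, Finsupp.smul_apply, smul_eq_mul, Matrix.toLin_self]
      congr 1
      simp [Finsupp.single_apply]
    rw [sum_congr rfl fun κ _ => h3 κ]
    rw [MvPolynomial.eval_eq']
    have h4 : ∑ d ∈ (p i j).support, MvPolynomial.coeff d (p i j) * ∏ i, t i ^ d i =
        ∑ κ ∈ (p i j).support.image (fun s : Fin m →₀ ℕ => ⇑s),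
          tw t κ * (p i j).coeff (Finsupp.equivFunOnFinite.symm κ) := by
      rw [sum_image fun a _ b _ h => DFunLike.coe_injective h]
      refine sum_congr rfl fun d _ => ?_
      rw [mul_comm]
      congr 1
      congr 1
      exact (Finsupp.equivFunOnFinite.symm_apply_apply d).symm
    rw [h4]
    refine sum_subset ?_ ?_
    · intro κ hκ
      exact mem_biUnion.2 ⟨i, mem_univ _, mem_biUnion.2 ⟨j, mem_univ _, hκ⟩⟩
    · intro κ _ hκ
      have h5 : (p i j).coeff (Finsupp.equivFunOnFinite.symm κ) = 0 := by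
        by_contra h2
        exact hκ (mem_image.2 ⟨Finsupp.equivFunOnFinite.symm κ, MvPolynomial.mem_support_iff.2 h2,
          Finsupp.equivFunOnFinite.apply_symm_apply κ⟩)
      rw [h5, mul_zero]

/-- a finite set containing all the weights -/
noncomputable def PRep.W (M : PRep c K) : Finset (Fin m → ℕ) := (exists_wt M).choose

/-- the weight projections -/
noncomputable def PRep.P (M : PRep c K) : (Fin m → ℕ) → Module.End K M.V :=
  (exists_wt M).choose_spec.choose

theorem P_not_mem (M : PRep c K) (κ : Fin m → ℕ) (h : κ ∉ M.W) : M.P κ = 0 :=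
  (exists_wt M).choose_spec.choose_spec.1 κ h

theorem rho_dg (M : PRep c K) (t : Fin m → K) : M.ρ (dg c t) = ∑ κ ∈ M.W, tw t κ • M.P κ :=
  (exists_wt M).choose_spec.choose_spec.2 t

private lemma dg_mul (s t : Fin m → K) : dg c (fun i => s i * t i) = dg c s * dg c t := by
  apply Subtype.ext
  show Matrix.diagonal _ = Matrix.diagonal s * Matrix.diagonal t
  rw [Matrix.diagonal_mul_diagonal]

private lemma dg_one : dg c (fun _ => (1 : K)) = 1 := by
  apply Subtype.ext
  exact Matrix.diagonal_one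

private lemma tw_mul (s t : Fin m → K) (κ : Fin m → ℕ) :
    tw (fun i => s i * t i) κ = tw s κ * tw t κ := by
  simp only [tw, mul_pow, prod_mul_distrib]

/-- PROOF.  `ρ(t s) = ρ(t) ρ(s)` gives `∑ t^κ s^κ P κ = ∑ t^μ s^κ P μ ∘ P κ`; compare the coefficients of `s^κ` (`tw_indep` with coefficients
in `End`): `t^κ P κ = ∑_μ t^μ P μ ∘ P κ = ρ(t) ∘ P κ`. -/
theorem P_mem (M : PRep c K) [Infinite K] (κ : Fin m → ℕ) (v : M.V) : M.P κ v ∈ M.wt κ := by
  intro t
  by_cases hκ : κ ∈ M.W
  · have h := tw_indep (K := K) M.W (fun κ => (M.ρ (dg c t) * M.P κ - tw t κ • M.P κ : Module.End K M.V)) (fun s => ?_) κ hκ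
    · have h2 := congrArg (fun T : Module.End K M.V => T v) h
      simp only [LinearMap.sub_apply, LinearMap.zero_apply, Module.End.mul_apply,
        LinearMap.smul_apply] at h2
      exact sub_eq_zero.1 h2
    · have h1 : M.ρ (dg c (fun i => t i * s i)) = M.ρ (dg c t) * M.ρ (dg c s) := by
        rw [dg_mul, map_mul]
      rw [rho_dg, rho_dg M s, mul_sum] at h1
      rw [sum_congr rfl fun κ _ => smul_sub _ _ _, sum_sub_distrib, sub_eq_zero]
      have h3 : ∀ κ ∈ M.W, tw s κ • (M.ρ (dg c t) * M.P κ) =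
          M.ρ (dg c t) * (tw s κ • M.P κ) := fun κ _ =>
            (mul_smul_comm (tw s κ) (M.ρ (dg c t)) (M.P κ)).symm
      rw [sum_congr rfl h3, ← h1]
      refine sum_congr rfl fun κ _ => ?_
      rw [tw_mul, smul_smul, mul_comm]
  · rw [P_not_mem M κ hκ, LinearMap.zero_apply, map_zero, smul_zero]

private lemma P_apply [DecidableEq (Fin m → ℕ)] (M : PRep c K) [Infinite K] (μ : Fin m → ℕ)
    (v : M.V) (h : v ∈ M.wt μ) (κ : Fin m → ℕ) : M.P κ v = if κ = μ then v else 0 := by
  have h1 : ∀ t : Fin m → K, ∑ κ ∈ insert μ (insert κ M.W),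
      tw t κ • (M.P κ v - if κ = μ then v else 0) = 0 := by
    intro t
    rw [sum_congr rfl fun κ _ => smul_sub _ _ _, sum_sub_distrib, sub_eq_zero]
    have h2 : ∑ ν ∈ insert μ (insert κ M.W), tw t ν • M.P ν v = M.ρ (dg c t) v := by
      rw [rho_dg, LinearMap.sum_apply]
      symm
      refine sum_subset (fun x hx => mem_insert_of_mem (mem_insert_of_mem hx)) fun ν _ hν => ?_
      rw [P_not_mem M ν hν, smul_zero, LinearMap.zero_apply]
    rw [h2, h t, sum_eq_single μ]
    · rw [if_pos rfl]
    · intro ν _ hν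
      rw [if_neg hν, smul_zero]
    · exact fun h3 => absurd (mem_insert_self _ _) h3
  exact sub_eq_zero.1 (tw_indep _ _ h1 κ (mem_insert_of_mem (mem_insert_self _ _)))

theorem P_self (M : PRep c K) [Infinite K] (κ : Fin m → ℕ) (v : M.V) (h : v ∈ M.wt κ) :
    M.P κ v = v := by
  classical
  rw [P_apply M κ v h κ, if_pos rfl]

theorem P_ne (M : PRep c K) [Infinite K] (κ μ : Fin m → ℕ) (hκ : κ ≠ μ) (v : M.V)
    (h : v ∈ M.wt μ) : M.P κ v = 0 := by
  classical
  rw [P_apply M μ v h κ, if_neg hκ]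

theorem sum_P (M : PRep c K) (v : M.V) : ∑ κ ∈ M.W, M.P κ v = v := by
  have h := rho_dg M (fun _ => (1 : K))
  rw [dg_one, map_one] at h
  have h1 := congrArg (fun T : Module.End K M.V => T v) h
  simp only [Module.End.one_apply, LinearMap.sum_apply, LinearMap.smul_apply] at h1
  conv_rhs => rw [h1]
  refine sum_congr rfl fun κ _ => ?_
  simp [tw]

theorem wt_bot (M : PRep c K) [Infinite K] (κ : Fin m → ℕ) (h : κ ∉ M.W) : M.wt κ = ⊥ := by
  rw [Submodule.eq_bot_iff]
  intro v hv
  rw [← P_self M κ v hv, P_not_mem M κ h, LinearMap.zero_apply]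

/-- equivariant maps commute with the weight projections -/
theorem P_eqv (M N : PRep c K) [Infinite K] (f : M.V →ₗ[K] N.V) (hf : Eqv M N f) (κ : Fin m → ℕ)
    (v : M.V) : f (M.P κ v) = N.P κ (f v) := by
  have h1 : ∀ μ, f (M.P μ v) ∈ N.wt μ := by
    intro μ t
    rw [← hf, P_mem M μ v t, map_smul]
  conv_rhs => rw [← sum_P M v, map_sum, map_sum]
  by_cases hκ : κ ∈ M.W
  · rw [sum_eq_single κ]
    · exact (P_self N κ _ (h1 κ)).symm
    · intro μ _ hμ
      exact P_ne N κ μ hμ.symm _ (h1 μ)
    · exact fun h => absurd hκ h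
  · rw [P_not_mem M κ hκ, LinearMap.zero_apply, map_zero]
    symm
    refine sum_eq_zero fun μ hμ => ?_
    exact P_ne N κ μ (fun e => hκ (e ▸ hμ)) _ (h1 μ)

/-- it is enough to check weights on invertible diagonal matrices (density, `t ↦ φ (ρ(t) v - t^κ v)` times `∏ t_i`) -/
theorem mem_wt_of_units (M : PRep c K) [Infinite K] (κ : Fin m → ℕ) (v : M.V)
    (h : ∀ t : Fin m → K, (∀ i, t i ≠ 0) → M.ρ (dg c t) v = tw t κ • v) : v ∈ M.wt κ := by
  intro t
  rw [← sub_eq_zero, ← Module.forall_dual_apply_eq_zero_iff K]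
  intro φ
  refine poly_mul_zero (fun t : Fin m → K => φ (M.ρ (dg c t) v - tw t κ • v))
    (fun t => ∏ i, t i) ?_ ?_ ?_ ⟨fun _ => 1, by simp⟩ t
  · have e : (fun t : Fin m → K => φ (M.ρ (dg c t) v - tw t κ • v)) =
        (∑ μ ∈ M.W, φ (M.P μ v) • fun t => tw t μ) - φ v • fun t => tw t κ := by
      funext s
      rw [Pi.sub_apply, Finset.sum_apply, map_sub, rho_dg, LinearMap.sum_apply, map_sum, map_smul,
        smul_eq_mul, Pi.smul_apply, smul_eq_mul, mul_comm (φ v)]
      congr 1
      refine sum_congr rfl fun μ _ => ?_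
      rw [LinearMap.smul_apply, map_smul, Pi.smul_apply, smul_eq_mul, smul_eq_mul, mul_comm]
    rw [e]
    exact Subalgebra.sub_mem _
      (Subalgebra.sum_mem _ fun μ _ => Subalgebra.smul_mem _ (tw_poly μ) _)
      (Subalgebra.smul_mem _ (tw_poly κ) _)
  · have e : (fun t : Fin m → K => ∏ i, t i) = ∏ i, fun t : Fin m → K => t i := by
      funext s
      rw [Finset.prod_apply]
    rw [e]
    exact Subalgebra.prod_mem _ fun i _ => coord_mem _ i
  · intro s
    by_cases hs : ∀ i, s i ≠ 0
    · rw [h s hs, sub_self, map_zero, zero_mul]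
    · push Not at hs
      obtain ⟨i, hi⟩ := hs
      rw [prod_eq_zero (mem_univ i) hi, mul_zero]

end Pool.PI34.A5
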