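import Pool.Agent.LibPI34.A5_Wt

/-! PI34, block A5, file Wt2: weight functionals. -/

set_option autoImplicit false

namespace Pool.PI34.A5

open Finset Matrix

variable {m : ℕ} {c : Fin m → ℕ} {K : Type} [Field K]

theorem Wt2_PP (M : PRep c K) [Infinite K] (κ : Fin m → ℕ) (v : M.V) :
    M.P κ (M.P κ v) = M.P κ v := P_self M κ _ (P_mem M κ v)

theorem Wt2_Prho (M : PRep c K) [Infinite K] (κ : Fin m → ℕ) (t : Fin m → K) (v : M.V) :
    M.P κ (M.ρ (dg c t) v) = tw t κ • M.P κ v := by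
  rw [rho_dg, LinearMap.sum_apply, map_sum]
  by_cases hκ : κ ∈ M.W
  · rw [Finset.sum_eq_single κ]
    · rw [LinearMap.smul_apply, map_smul, Wt2_PP]
    · intro μ _ hμ
      rw [LinearMap.smul_apply, map_smul, P_ne M κ μ (Ne.symm hμ) _ (P_mem M μ v), smul_zero]
    · intro h
      exact absurd hκ h
  · rw [P_not_mem M κ hκ]
    simp

/-- weight functionals vanish on the other weight spaces: `φ ∘ P κ = φ` for `φ ∈ wd κ` -/
theorem wd_P (M : PRep c K) [Infinite K] (κ : Fin m → ℕ) (φ : Module.Dual K M.V) :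
    φ ∈ M.wd κ ↔ ∀ v, φ (M.P κ v) = φ v := by
  constructor
  · intro hφ v
    have h : ∀ t : Fin m → K, ∑ μ ∈ insert κ M.W,
        tw t μ • (φ (M.P μ v) - if μ = κ then φ v else 0) = 0 := by
      intro t
      have h1 := hφ t v
      rw [rho_dg, LinearMap.sum_apply, map_sum] at h1
      simp only [smul_sub, Finset.sum_sub_distrib]
      have h2 : ∑ μ ∈ insert κ M.W, tw t μ • (if μ = κ then φ v else 0) = tw t κ * φ v := by
        rw [Finset.sum_eq_single κ]
        · rw [if_pos rfl, smul_eq_mul]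
        · intro μ _ hμ
          rw [if_neg hμ, smul_zero]
        · intro h
          exact absurd (Finset.mem_insert_self _ _) h
      have h3 : ∑ μ ∈ insert κ M.W, tw t μ • φ (M.P μ v) =
          ∑ μ ∈ M.W, φ ((tw t μ • M.P μ) v) := by
        have h4 : ∀ μ, tw t μ • φ (M.P μ v) = φ ((tw t μ • M.P μ) v) := fun μ => by
          rw [LinearMap.smul_apply, map_smul]
        simp only [h4]
        by_cases hκ : κ ∈ M.W
        · rw [Finset.insert_eq_of_mem hκ]
        · rw [Finset.sum_insert hκ, P_not_mem M κ hκ]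
          simp
      rw [h2, h3, h1, sub_self]
    have h5 := tw_indep (insert κ M.W) _ h κ (Finset.mem_insert_self _ _)
    rw [if_pos rfl] at h5
    exact sub_eq_zero.1 h5
  · intro h t v
    rw [← h (M.ρ (dg c t) v), Wt2_Prho, map_smul, h, smul_eq_mul]

/-- PROOF.  Restriction `wd κ → Dual (wt κ)` is bijective (`wd_P`). -/
theorem finrank_wd (M : PRep c K) [Infinite K] (κ : Fin m → ℕ) :
    Module.finrank K (M.wd κ) = Module.finrank K (M.wt κ) := by
  let R : M.wd κ →ₗ[K] Module.Dual K (M.wt κ) :=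
    { toFun := fun φ => (φ : Module.Dual K M.V).comp (M.wt κ).subtype
      map_add' := fun φ ψ => rfl
      map_smul' := fun a φ => rfl }
  have hR : ∀ (φ : M.wd κ) (v : M.wt κ), R φ v = (φ : Module.Dual K M.V) (v : M.V) :=
    fun _ _ => rfl
  have hinj : Function.Injective R := by
    intro φ ψ h
    apply Subtype.ext
    refine LinearMap.ext fun v => ?_
    rw [← (wd_P M κ φ).1 φ.2 v, ← (wd_P M κ ψ).1 ψ.2 v]
    exact congrArg (fun g : Module.Dual K (M.wt κ) => g ⟨M.P κ v, P_mem M κ v⟩) h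
  have hsurj : Function.Surjective R := by
    intro ψ
    let φ : Module.Dual K M.V := ψ.comp ((M.P κ).codRestrict (M.wt κ) (P_mem M κ))
    have hφ : ∀ v, φ v = ψ ⟨M.P κ v, P_mem M κ v⟩ := fun v => rfl
    have hmem : φ ∈ M.wd κ := (wd_P M κ φ).2 fun v => by
      rw [hφ, hφ]
      congr 1
      exact Subtype.ext (Wt2_PP M κ v)
    refine ⟨⟨φ, hmem⟩, LinearMap.ext fun v => ?_⟩
    rw [hR]
    change φ (v : M.V) = ψ v
    rw [hφ]
    congr 1
    exact Subtype.ext (P_self M κ _ v.2)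
  rw [(LinearEquiv.ofBijective R ⟨hinj, hsurj⟩).finrank_eq, Subspace.dual_finrank_eq]

theorem wd_sep (M : PRep c K) [Infinite K] (κ : Fin m → ℕ) (v : M.V) (hv : v ∈ M.wt κ)
    (h : ∀ φ ∈ M.wd κ, φ v = 0) : v = 0 := by
  rw [← Module.forall_dual_apply_eq_zero_iff K v]
  intro φ
  have h1 := h (φ.comp (M.P κ)) ((wd_P M κ _).2 fun w => by
    rw [LinearMap.comp_apply, LinearMap.comp_apply, Wt2_PP])
  rw [LinearMap.comp_apply, P_self M κ v hv] at h1
  exact h1

/-- there is a top weight -/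
theorem exists_top (M : PRep c K) [Infinite K] (h : 0 < Module.finrank K M.V) :
    ∃ lam, IsTop M lam ∧ M.wt lam ≠ ⊥ := by
  classical
  have hne : (M.W.filter fun κ => M.wt κ ≠ ⊥).Nonempty := by
    have : Nontrivial M.V := Module.nontrivial_of_finrank_pos h
    obtain ⟨v, hv⟩ := exists_ne (0 : M.V)
    by_contra hcon
    rw [Finset.not_nonempty_iff_eq_empty, Finset.filter_eq_empty_iff] at hcon
    apply hv
    rw [← sum_P M v]
    refine Finset.sum_eq_zero fun κ hκ => ?_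
    have h1 : M.wt κ = ⊥ := by
      by_contra h2
      exact hcon hκ h2
    have h2 := P_mem M κ v
    rw [h1, Submodule.mem_bot] at h2
    exact h2
  obtain ⟨lam, hlam, hmax⟩ := Finset.exists_max_image _ ht hne
  rw [Finset.mem_filter] at hlam
  refine ⟨lam, fun κ hκ => hmax κ ?_, hlam.2⟩
  rw [Finset.mem_filter]
  refine ⟨?_, hκ⟩
  by_contra hW
  exact hκ (wt_bot M κ hW)

/-- weights of subrepresentations and images -/
theorem wt_sub (M N : PRep c K) (f : M.V →ₗ[K] N.V) (hf : Eqv M N f) (hi : Function.Injective f)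
    (κ : Fin m → ℕ) (h : M.wt κ ≠ ⊥) : N.wt κ ≠ ⊥ := by
  obtain ⟨v, hv, hv0⟩ := (Submodule.ne_bot_iff _).1 h
  rw [Submodule.ne_bot_iff]
  refine ⟨f v, fun t => ?_, fun h0 => hv0 (hi (by rw [h0, map_zero]))⟩
  rw [← hf, hv t, map_smul]

theorem wt_quot (M N : PRep c K) [Infinite K] (f : M.V →ₗ[K] N.V) (hf : Eqv M N f)
    (hs : Function.Surjective f) (κ : Fin m → ℕ) (h : N.wt κ ≠ ⊥) : M.wt κ ≠ ⊥ := by
  obtain ⟨w, hw, hw0⟩ := (Submodule.ne_bot_iff _).1 h
  obtain ⟨v, rfl⟩ := hs w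
  rw [Submodule.ne_bot_iff]
  refine ⟨M.P κ v, P_mem M κ v, fun h0 => hw0 ?_⟩
  rw [← P_self N κ _ hw, ← P_eqv M N f hf, h0, map_zero]

end Pool.PI34.A5
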