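import Pool.Agent.LibPI34.A5_Wt2

/-! PI34, block A5, file Wt3: top weights. -/

set_option autoImplicit false

namespace Pool.PI34.A5

open Finset Matrix

variable {m : ℕ} {c : Fin m → ℕ} {K : Type} [Field K]

/-- the one parameter diagonal matrices -/
private def ts (m : ℕ) (s : K) : Fin m → K := fun i => s ^ (i : ℕ)

private theorem tw_ts (s : K) (κ : Fin m → ℕ) : tw (ts m s) κ = s ^ ht κ := by
  unfold tw ts ht
  rw [← Finset.prod_pow_eq_pow_sum]
  exact Finset.prod_congr rfl fun i _ => (pow_mul _ _ _).symm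

/-- polynomial functions of one variable -/
private theorem poly1 (F : K → K) (hF : F ∈ PolyFn (fun (s : K) (_ : Unit) => s)) :
    ∃ q : Polynomial K, ∀ s, F s = q.eval s := by
  obtain ⟨p, hp⟩ := (mem_PolyFn _ F).1 hF
  refine ⟨MvPolynomial.aeval (fun _ => Polynomial.X) p, fun s => ?_⟩
  rw [hp s]
  induction p using MvPolynomial.induction_on with
  | C a => simp
  | add p q hp hq =>
    have h1 : ∀ r : MvPolynomial Unit K, MvPolynomial.eval (fun _ => s) r =
        Polynomial.eval s (MvPolynomial.aeval (fun _ => Polynomial.X) r) := by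
      intro r
      induction r using MvPolynomial.induction_on with
      | C a => simp
      | add p q hp hq => rw [map_add, map_add, Polynomial.eval_add, hp, hq]
      | mul_X p i hp => rw [map_mul, map_mul, Polynomial.eval_mul, hp]; simp
    exact h1 _
  | mul_X p i hp =>
    have h1 : ∀ r : MvPolynomial Unit K, MvPolynomial.eval (fun _ => s) r =
        Polynomial.eval s (MvPolynomial.aeval (fun _ => Polynomial.X) r) := by
      intro r
      induction r using MvPolynomial.induction_on with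
      | C a => simp
      | add p q hp hq => rw [map_add, map_add, Polynomial.eval_add, hp, hq]
      | mul_X p i hp => rw [map_mul, map_mul, Polynomial.eval_mul, hp]; simp
    exact h1 _

private theorem mono_mem (a : K) (n : ℕ) :
    (fun s : K => s ^ n * a) ∈ PolyFn (fun (s : K) (_ : Unit) => s) :=
  (mem_PolyFn _ _).2 ⟨MvPolynomial.X () ^ n * MvPolynomial.C a, fun s => by simp⟩

private theorem poly_const [Infinite K] (W : Finset (Fin m → ℕ)) (a : (Fin m → ℕ) → K)
    (q : Polynomial K) (lam : Fin m → ℕ) (h : ∀ κ ∈ W, a κ ≠ 0 → ht κ ≤ ht lam)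
    (h2 : ∀ s : K, ∑ κ ∈ W, s ^ ht κ * a κ = s ^ ht lam * q.eval s) : q.eval 1 = q.eval 0 := by
  have e : ∑ κ ∈ W, Polynomial.C (a κ) * Polynomial.X ^ ht κ = q * Polynomial.X ^ ht lam := by
    refine Polynomial.funext fun s => ?_
    rw [Polynomial.eval_finsetSum, Polynomial.eval_mul, Polynomial.eval_pow, Polynomial.eval_X,
      mul_comm, ← h2 s]
    refine Finset.sum_congr rfl fun κ _ => ?_
    rw [Polynomial.eval_mul, Polynomial.eval_C, Polynomial.eval_pow, Polynomial.eval_X, mul_comm]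
  have hd : (q * Polynomial.X ^ ht lam).natDegree ≤ ht lam := by
    rw [← e]
    refine Polynomial.natDegree_sum_le_of_forall_le W _ fun κ hκ => ?_
    by_cases h0 : a κ = 0
    · rw [h0]
      simp
    · exact (Polynomial.natDegree_C_mul_X_pow_le _ _).trans (h κ hκ h0)
  by_cases hq : q = 0
  · rw [hq]
    simp
  rw [Polynomial.natDegree_mul_X_pow _ hq] at hd
  have hq0 : q.natDegree = 0 := by omega
  rw [Polynomial.eq_C_of_natDegree_eq_zero hq0]
  simp

/-- the conjugates of a lower unitriangular matrix -/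
private def gs (g : Blk c K) (s : K) : Blk c K :=
  ⟨Matrix.of fun i j => if j ≤ i then s ^ ((i : ℕ) - (j : ℕ)) * g.1 i j else 0, fun i j h => by
    rw [Matrix.of_apply]
    split_ifs
    · rw [g.2 i j h, mul_zero]
    · rfl⟩

/-- the conjugates of an upper unitriangular matrix -/
private def us (g : Blk c K) (s : K) : Blk c K :=
  ⟨Matrix.of fun i j => if i ≤ j then s ^ ((j : ℕ) - (i : ℕ)) * g.1 i j else 0, fun i j h => by
    rw [Matrix.of_apply]
    split_ifs
    · rw [g.2 i j h, mul_zero]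
    · rfl⟩

private theorem gs_zero (g : Blk c K) (hg : IsLo g) : gs g 0 = 1 := by
  refine Subtype.ext (Matrix.ext fun i j => ?_)
  change (if j ≤ i then (0 : K) ^ ((i : ℕ) - (j : ℕ)) * g.1 i j else 0) = (1 : Matrix _ _ K) i j
  rcases lt_trichotomy i j with h | h | h
  · rw [if_neg (not_le.2 h), Matrix.one_apply_ne h.ne]
  · subst h
    rw [if_pos le_rfl, Nat.sub_self, pow_zero, one_mul, hg.1, Matrix.one_apply_eq]
  · have h1 : (i : ℕ) - (j : ℕ) ≠ 0 := by
      have : (j : ℕ) < (i : ℕ) := h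
      omega
    rw [if_pos h.le, zero_pow h1, zero_mul, Matrix.one_apply_ne h.ne']

private theorem gs_one (g : Blk c K) (hg : IsLo g) : gs g 1 = g := by
  refine Subtype.ext (Matrix.ext fun i j => ?_)
  change (if j ≤ i then (1 : K) ^ ((i : ℕ) - (j : ℕ)) * g.1 i j else 0) = g.1 i j
  by_cases h : j ≤ i
  · rw [if_pos h, one_pow, one_mul]
  · rw [if_neg h, hg.2 i j (not_le.1 h)]

private theorem us_zero (g : Blk c K) (hg : IsUp g) : us g 0 = 1 := by
  refine Subtype.ext (Matrix.ext fun i j => ?_)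
  change (if i ≤ j then (0 : K) ^ ((j : ℕ) - (i : ℕ)) * g.1 i j else 0) = (1 : Matrix _ _ K) i j
  rcases lt_trichotomy i j with h | h | h
  · have h1 : (j : ℕ) - (i : ℕ) ≠ 0 := by
      have : (i : ℕ) < (j : ℕ) := h
      omega
    rw [if_pos h.le, zero_pow h1, zero_mul, Matrix.one_apply_ne h.ne]
  · subst h
    rw [if_pos le_rfl, Nat.sub_self, pow_zero, one_mul, hg.1, Matrix.one_apply_eq]
  · rw [if_neg (not_le.2 h), Matrix.one_apply_ne h.ne']

private theorem us_one (g : Blk c K) (hg : IsUp g) : us g 1 = g := by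
  refine Subtype.ext (Matrix.ext fun i j => ?_)
  change (if i ≤ j then (1 : K) ^ ((j : ℕ) - (i : ℕ)) * g.1 i j else 0) = g.1 i j
  by_cases h : i ≤ j
  · rw [if_pos h, one_pow, one_mul]
  · rw [if_neg h, hg.2 i j (not_le.1 h)]

private theorem dg_mul_gs (g : Blk c K) (hg : IsLo g) (s : K) :
    dg c (ts m s) * g = gs g s * dg c (ts m s) := by
  refine Subtype.ext (Matrix.ext fun i j => ?_)
  change (Matrix.diagonal (ts m s) * g.1) i j = ((gs g s).1 * Matrix.diagonal (ts m s)) i j
  rw [Matrix.diagonal_mul, Matrix.mul_diagonal]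
  change s ^ (i : ℕ) * g.1 i j =
    (if j ≤ i then s ^ ((i : ℕ) - (j : ℕ)) * g.1 i j else 0) * s ^ (j : ℕ)
  by_cases h : j ≤ i
  · have h1 : (i : ℕ) = ((i : ℕ) - (j : ℕ)) + (j : ℕ) := by
      have : (j : ℕ) ≤ (i : ℕ) := h
      omega
    rw [if_pos h]
    conv_lhs => rw [h1, pow_add]
    ring
  · rw [if_neg h, hg.2 i j (not_le.1 h), mul_zero, zero_mul]

private theorem mul_dg_us (g : Blk c K) (hg : IsUp g) (s : K) :
    g * dg c (ts m s) = dg c (ts m s) * us g s := by
  refine Subtype.ext (Matrix.ext fun i j => ?_)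
  change (g.1 * Matrix.diagonal (ts m s)) i j = (Matrix.diagonal (ts m s) * (us g s).1) i j
  rw [Matrix.diagonal_mul, Matrix.mul_diagonal]
  change g.1 i j * s ^ (j : ℕ) =
    s ^ (i : ℕ) * (if i ≤ j then s ^ ((j : ℕ) - (i : ℕ)) * g.1 i j else 0)
  by_cases h : i ≤ j
  · have h1 : (j : ℕ) = ((j : ℕ) - (i : ℕ)) + (i : ℕ) := by
      have : (i : ℕ) ≤ (j : ℕ) := h
      omega
    rw [if_pos h]
    conv_lhs => rw [h1, pow_add]
    ring
  · rw [if_neg h, hg.2 i j (not_le.1 h), mul_zero, zero_mul]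

private theorem gs_poly (M : PRep c K) (g : Blk c K) (v : M.V) (φ : Module.Dual K M.V) :
    ∃ q : Polynomial K, ∀ s, φ (M.ρ (gs g s) v) = q.eval s := by
  refine poly1 _ (comp_mem (crd c K) (fun (s : K) (_ : Unit) => s) (gs g) ?_ _ (M.poly v φ))
  rintro ⟨i, j⟩
  by_cases h : j ≤ i
  · have e : (fun s : K => crd c K (gs g s) (i, j)) = fun s : K => s ^ ((i : ℕ) - (j : ℕ)) * g.1 i j :=
      funext fun s => if_pos h
    rw [e]
    exact mono_mem _ _
  · have e : (fun s : K => crd c K (gs g s) (i, j)) = fun _ : K => (0 : K) :=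
      funext fun s => if_neg h
    rw [e]
    exact const_mem _ 0

private theorem us_poly (M : PRep c K) (g : Blk c K) (v : M.V) (φ : Module.Dual K M.V) :
    ∃ q : Polynomial K, ∀ s, φ (M.ρ (us g s) v) = q.eval s := by
  refine poly1 _ (comp_mem (crd c K) (fun (s : K) (_ : Unit) => s) (us g) ?_ _ (M.poly v φ))
  rintro ⟨i, j⟩
  by_cases h : i ≤ j
  · have e : (fun s : K => crd c K (us g s) (i, j)) = fun s : K => s ^ ((j : ℕ) - (i : ℕ)) * g.1 i j :=
      funext fun s => if_pos h
    rw [e]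
    exact mono_mem _ _
  · have e : (fun s : K => crd c K (us g s) (i, j)) = fun _ : K => (0 : K) :=
      funext fun s => if_neg h
    rw [e]
    exact const_mem _ 0

private theorem ht_le (M : PRep c K) [Infinite K] (lam : Fin m → ℕ) (h : IsTop M lam)
    (κ : Fin m → ℕ) (v : M.V) (hv : M.P κ v ≠ 0) : ht κ ≤ ht lam := by
  refine h κ fun h0 => hv ?_
  have := P_mem M κ v
  rw [h0, Submodule.mem_bot] at this
  exact this

private theorem rho_ts (M : PRep c K) (s : K) (v : M.V) :
    M.ρ (dg c (ts m s)) v = ∑ κ ∈ M.W, s ^ ht κ • M.P κ v := by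
  rw [rho_dg, LinearMap.sum_apply]
  refine Finset.sum_congr rfl fun κ _ => ?_
  rw [LinearMap.smul_apply, tw_ts]

/-- PROOF.  For `s : K` let `t_s = dg (s^i)`.  For `g ∈ Lo` put `g_s = (s^(i-j) g_ij)` (`i ≥ j`; an `IsLo` element, `g_0 = 1`, `g_1 = g`); then
`t_s * g = g_s * t_s` for all `s`.  Apply `ρ` to `v ∈ wt λ` and a functional `φ`: `∑_κ s^(ht κ) φ(P κ ρ(g) v) = s^(ht λ) φ(ρ(g_s) v)`.
`φ(ρ(g_s) v) = p(s)` is a polynomial in `s`.  All `κ` with `P κ ≠ 0` on `M` have `ht κ ≤ ht λ`, so the left side is a polynomial in `s`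
of degree `≤ ht λ`; hence `p` is constant, `φ(ρ(g) v) = p(1) = p(0) = φ(v)`.  (Note `tw (fun i => s^i) κ = s^(ht κ)`.) -/
theorem top_lo (M : PRep c K) [Infinite K] (lam : Fin m → ℕ) (h : IsTop M lam) (g : Blk c K)
    (hg : IsLo g) (v : M.V) (hv : v ∈ M.wt lam) : M.ρ g v = v := by
  rw [← sub_eq_zero, ← Module.forall_dual_apply_eq_zero_iff K]
  intro φ
  obtain ⟨q, hq⟩ := gs_poly M g v φ
  have key := poly_const M.W (fun κ => φ (M.P κ (M.ρ g v))) q lam
    (fun κ _ h0 => ht_le M lam h κ (M.ρ g v) fun h1 => h0 (by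
      change φ (M.P κ (M.ρ g v)) = 0
      rw [h1, map_zero]))
    (fun s => by
      have h1 : M.ρ (dg c (ts m s)) (M.ρ g v) = s ^ ht lam • M.ρ (gs g s) v := by
        rw [← Module.End.mul_apply, ← map_mul, dg_mul_gs g hg s, map_mul, Module.End.mul_apply,
          hv (ts m s), tw_ts, map_smul]
      have h2 := congrArg φ h1
      rw [rho_ts, map_sum, map_smul, hq s, smul_eq_mul] at h2
      rw [← h2]
      refine Finset.sum_congr rfl fun κ _ => ?_
      rw [map_smul, smul_eq_mul])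
  rw [← hq 1, ← hq 0, gs_one g hg, gs_zero g hg, map_one] at key
  rw [map_sub, key]
  simp

/-- PROOF.  Same with `u * t_s = t_s * u_s`, `u_s = (s^(j-i) u_ij)` (`j ≥ i`): for `φ ∈ wd λ`
`∑_κ s^(ht κ) φ(ρ(u) P κ v) = φ(ρ(t_s) ρ(u_s) v) = s^(ht λ) φ(ρ(u_s) v)`. -/
theorem top_up (M : PRep c K) [Infinite K] (lam : Fin m → ℕ) (h : IsTop M lam) (u : Blk c K)
    (hu : IsUp u) (φ : Module.Dual K M.V) (hφ : φ ∈ M.wd lam) (v : M.V) : φ (M.ρ u v) = φ v := by
  obtain ⟨q, hq⟩ := us_poly M u v φ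
  have key := poly_const M.W (fun κ => φ (M.ρ u (M.P κ v))) q lam
    (fun κ _ h0 => ht_le M lam h κ v fun h1 => h0 (by
      change φ (M.ρ u (M.P κ v)) = 0
      rw [h1, map_zero, map_zero]))
    (fun s => by
      have h1 : φ (M.ρ u (M.ρ (dg c (ts m s)) v)) = s ^ ht lam * φ (M.ρ (us u s) v) := by
        rw [← Module.End.mul_apply (M.ρ u), ← map_mul, mul_dg_us u hu s, map_mul,
          Module.End.mul_apply, hφ (ts m s), tw_ts]
      rw [rho_ts, map_sum, map_sum, hq s] at h1
      rw [← h1]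
      refine Finset.sum_congr rfl fun κ _ => ?_
      rw [map_smul, map_smul, smul_eq_mul])
  rw [← hq 1, ← hq 0, us_one u hu, us_zero u hu, map_one] at key
  rw [key]
  simp

end Pool.PI34.A5
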