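import Pool.Agent.LibPI34.A5_Dbl
import Pool.Agent.LibPI34.A5_Al3

/-! PI34, block A5, file Y: the representations `Y_λ`. -/

set_option autoImplicit false

namespace Pool.PI34.A5

open Finset Matrix

variable {m : ℕ} {K : Type} [Field K] [Infinite K]

/-- the trivial representation -/
noncomputable def triv (c : Fin m → ℕ) (K : Type) [Field K] : PRep c K where
  V := K
  ρ := 1
  poly v φ := by simpa using const_mem (crd c K) (φ v)

theorem Y_pos_lt (c : Fin m → ℕ) (i j : Fin m) (h : i < j) (hc : c i = c j) :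
    pos c i < pos c j := by
  unfold pos
  refine Finset.card_lt_card ?_
  rw [Finset.ssubset_iff_of_subset]
  · exact ⟨i, by simp [h, hc], by simp⟩
  · intro l hl
    simp only [Finset.mem_filter, Finset.mem_univ, true_and] at hl ⊢
    exact ⟨hl.1.trans h, hl.2.trans hc⟩

/-- lower unitriangular determinant -/
theorem Dt_zero (c : Fin m → ℕ) : Dt c (fun _ => 0) = 1 := by
  unfold Dt
  rw [Matrix.det_of_lowerTriangular]
  · refine Finset.prod_eq_one fun i _ => ?_
    simp [Dtm]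
  · intro i j hij
    have hlt : i < j := hij
    simp only [Dtm, Matrix.of_apply, zero_add]
    split_ifs with hc
    · rw [Nat.choose_eq_zero_of_lt (Y_pos_lt c i j hlt hc)]
      rfl
    · rfl

omit [Infinite K] in
theorem Y_triv_wt (c : Fin m → ℕ) (κ : Fin m → ℕ) (h : κ ≠ fun _ => 0) :
    (triv c K).wt κ = ⊥ := by
  rw [Submodule.eq_bot_iff]
  intro v hv
  obtain ⟨i, hi⟩ : ∃ i, κ i ≠ 0 := by
    by_contra hcon
    push Not at hcon
    exact h (funext hcon)
  have h1 := hv (fun j => if j = i then 0 else 1)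
  have h2 : tw (fun j => if j = i then (0 : K) else 1) κ = 0 := by
    unfold tw
    refine Finset.prod_eq_zero (Finset.mem_univ i) ?_
    dsimp only
    rw [if_pos rfl, zero_pow hi]
  rw [h2, zero_smul] at h1
  exact h1

omit [Infinite K] in
theorem Y_triv_hs (c : Fin m → ℕ) : (triv c K).hs (fun _ => 0) = ⊤ := by
  rw [Submodule.eq_top_iff']
  intro v
  refine ⟨fun t => ?_, fun g _ => rfl⟩
  have h2 : tw t (fun _ => 0) = 1 := by simp [tw]
  rw [h2, one_smul]
  rfl

/-- `hs 0 = ⊤`, `hs κ = ⊥` for `κ ≠ 0` -/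
theorem good_triv (c : Fin m → ℕ) : Good (triv c K) := by
  unfold Good
  rw [chi_eq_sum (triv c K) {fun _ => 0} (fun κ hκ => by
    rw [Finset.mem_singleton] at hκ
    rw [Submodule.eq_bot_iff]
    intro v hv
    have h1 : v ∈ (triv c K).wt κ := hv.1
    rw [Y_triv_wt c κ hκ, Submodule.mem_bot] at h1
    exact h1), Finset.sum_singleton, Dt_zero, Y_triv_hs, finrank_top, mul_one]

/-- weights of `triv`: only `0` -/
theorem triv_wt (c : Fin m → ℕ) (κ : Fin m → ℕ) (h : (triv c K).wt κ ≠ ⊥) : κ = fun _ => 0 := by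
  by_contra hne
  exact h (Y_triv_wt c κ hne)

theorem triv_wt_ne (c : Fin m → ℕ) : (triv c K).wt (fun _ => 0) ≠ ⊥ := by
  rw [Submodule.ne_bot_iff]
  have h : ∀ v : (triv c K).V, v ∈ (triv c K).wt (fun _ => 0) := fun v => by
    have h1 : v ∈ (triv c K).hs (fun _ => 0) := by
      rw [Y_triv_hs]
      exact Submodule.mem_top
    exact h1.1
  exact ⟨(1 : K), h _, (one_ne_zero : (1 : K) ≠ 0)⟩

theorem ht_add_ind (μ : Fin m → ℕ) (S : Finset (Fin m)) :
    ht (fun i => μ i + ind S i) = ht μ + ∑ i ∈ S, (i : ℕ) := by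
  unfold ht ind
  simp only [mul_add, Finset.sum_add_distrib, mul_ite, mul_one, mul_zero, Finset.sum_ite_mem,
    Finset.univ_inter]

/-- among the subsets of the same cardinality the upper set `T` has the largest sum, strictly -/
theorem upper_sum (S T : Finset (Fin m)) (hT : ∀ i j, i ≤ j → i ∈ T → j ∈ T)
    (hc : S.card = T.card) (hne : S ≠ T) : ∑ i ∈ S, (i : ℕ) < ∑ i ∈ T, (i : ℕ) := by
  have h1 : (S \ T).card = (T \ S).card := by
    have := Finset.card_sdiff_add_card_inter S T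
    have := Finset.card_sdiff_add_card_inter T S
    rw [Finset.inter_comm T S] at this
    omega
  have hpos : (T \ S).Nonempty := by
    rw [← Finset.card_pos, ← h1, Finset.card_pos]
    by_contra hcon
    rw [Finset.not_nonempty_iff_eq_empty, Finset.sdiff_eq_empty_iff_subset] at hcon
    exact hne (Finset.eq_of_subset_of_card_le hcon hc.ge)
  have hS : ∑ i ∈ S, (i : ℕ) = ∑ i ∈ S ∩ T, (i : ℕ) + ∑ i ∈ S \ T, (i : ℕ) :=
    (Finset.sum_inter_add_sum_sdiff S T _).symm
  have hTT : ∑ i ∈ T, (i : ℕ) = ∑ i ∈ S ∩ T, (i : ℕ) + ∑ i ∈ T \ S, (i : ℕ) := by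
    rw [Finset.inter_comm]
    exact (Finset.sum_inter_add_sum_sdiff T S _).symm
  rw [hS, hTT]
  refine Nat.add_lt_add_left ?_ _
  let t0 := (T \ S).min' hpos
  have ht0 : t0 ∈ T \ S := Finset.min'_mem _ _
  rw [Finset.mem_sdiff] at ht0
  have h2 : ∀ i ∈ S \ T, (i : ℕ) ≤ (t0 : ℕ) - 1 := by
    intro i hi
    rw [Finset.mem_sdiff] at hi
    have h3 : i < t0 := by
      by_contra h4
      exact hi.2 (hT t0 i (not_lt.1 h4) ht0.1)
    have h4 : (i : ℕ) < t0 := h3
    omega
  have h3 : ∀ i ∈ T \ S, (t0 : ℕ) ≤ (i : ℕ) := fun i hi => Finset.min'_le _ _ hi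
  have h4 : ∑ i ∈ S \ T, (i : ℕ) ≤ (S \ T).card * ((t0 : ℕ) - 1) := by
    have := Finset.sum_le_card_nsmul (S \ T) (fun i => (i : ℕ)) ((t0 : ℕ) - 1) h2
    simpa using this
  have h5 : (T \ S).card * (t0 : ℕ) ≤ ∑ i ∈ T \ S, (i : ℕ) := by
    have := Finset.card_nsmul_le_sum (T \ S) (fun i => (i : ℕ)) (t0 : ℕ) h3
    simpa using this
  have h6 : 0 < (t0 : ℕ) := by
    obtain ⟨i, hi⟩ : (S \ T).Nonempty := by
      rw [← Finset.card_pos, h1, Finset.card_pos]
      exact hpos
    rw [Finset.mem_sdiff] at hi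
    have h7 : i < t0 := by
      by_contra h8
      exact hi.2 (hT t0 i (not_lt.1 h8) ht0.1)
    exact lt_of_le_of_lt (Nat.zero_le _) (show (i : ℕ) < t0 from h7)
  have h7 : (S \ T).card * ((t0 : ℕ) - 1) < (T \ S).card * (t0 : ℕ) := by
    rw [h1]
    exact Nat.mul_lt_mul_of_pos_left (by omega) (Finset.card_pos.2 hpos)
  omega

end Pool.PI34.A5
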