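import Pool.Agent.LibPI34.A5_Y

/-! PI34, block A5, file Y2: the representations `Y_λ`. -/

set_option autoImplicit false

namespace Pool.PI34.A5

open Finset Matrix

variable {m : ℕ} {K : Type} [Field K] [Infinite K]

/-- PROOF.  Induction on `∑ λ`.  `λ = 0`: `triv`.  Otherwise `T = {i | 0 < λ i}` is an upper set, `λ' = λ - 1_T` is dominant, take
`Y = altI Y' #T`.  `good_altI`, `good_rs_alt`, `alt_wt_ne`; a weight of `Y` is `κ = μ + 1_S`, `#S = #T`, `μ` a weight of `Y'`:
`ht κ = ht μ + ∑_S i ≤ ht λ' + ∑_T i = ht λ`, with equality only if `μ = λ'`, `S = T`. -/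
theorem exists_Y (c : Fin m → ℕ) (hc : Monotone c) (lam : Fin (m + m) → ℕ)
    (hl : Dom (c0 (m + m)) lam) :
    ∃ Y : PRep (c0 (m + m)) K, Good Y ∧ Good (rs c Y) ∧ Y.wt lam ≠ ⊥ ∧
      ∀ κ, Y.wt κ ≠ ⊥ → κ ≠ lam → ht κ < ht lam := by
  classical
  obtain ⟨N, hN⟩ : ∃ N, ∑ i, lam i = N := ⟨_, rfl⟩
  induction N using Nat.strong_induction_on generalizing lam with
  | _ N ih =>
  by_cases h0 : lam = fun _ => 0
  · subst h0
    refine ⟨triv (c0 (m + m)) K, good_triv _, good_triv c, triv_wt_ne _, fun κ hκ hne => ?_⟩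
    exact absurd (triv_wt _ κ hκ) hne
  · let T : Finset (Fin (m + m)) := univ.filter fun i => 0 < lam i
    have hmem : ∀ i, i ∈ T ↔ 0 < lam i := fun i => by simp [T]
    have hup : ∀ i j, i ≤ j → i ∈ T → j ∈ T := by
      intro i j hij hi
      rw [hmem] at hi ⊢
      rcases eq_or_lt_of_le hij with h | h
      · rwa [← h]
      · exact lt_of_lt_of_le hi (hl i j h rfl)
    let lam' : Fin (m + m) → ℕ := fun i => lam i - ind T i
    have hlam : (fun i => lam' i + ind T i) = lam := by
      funext i
      simp only [lam', ind]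
      split_ifs with h
      · have := (hmem i).1 h
        omega
      · omega
    have hl' : Dom (c0 (m + m)) lam' := by
      intro i j hij _
      have h1 := hl i j hij rfl
      simp only [lam', ind]
      by_cases hi : i ∈ T
      · rw [if_pos hi, if_pos (hup i j hij.le hi)]
        omega
      · have h2 : lam i = 0 := by
          by_contra h3
          exact hi ((hmem i).2 (Nat.pos_of_ne_zero h3))
        rw [if_neg hi, h2]
        omega
    have hsum : ∑ i, lam' i < N := by
      rw [← hN]
      refine Finset.sum_lt_sum (fun i _ => Nat.sub_le _ _) ?_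
      obtain ⟨i, hi⟩ : ∃ i, lam i ≠ 0 := by
        by_contra hcon
        push Not at hcon
        exact h0 (funext hcon)
      refine ⟨i, Finset.mem_univ _, ?_⟩
      have hi' : i ∈ T := (hmem i).2 (Nat.pos_of_ne_zero hi)
      simp only [lam', ind]
      rw [if_pos hi']
      omega
    obtain ⟨Y', hY1, hY2, hY3, hY4⟩ := ih _ hsum lam' hl' rfl
    refine ⟨altI Y' T.card, good_altI (fun _ _ _ => le_rfl) Y' T.card hY1,
      good_rs_alt hc Y' T.card hY2, ?_, ?_⟩
    · have h1 := alt_wt_ne Y' T lam' hY3
      rwa [hlam] at h1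
    · intro κ hκ hne
      obtain ⟨S, hS, μ, hμ, rfl⟩ := alt_wt Y' T.card κ hκ
      rw [← hlam, ht_add_ind, ht_add_ind]
      by_cases hST : S = T
      · subst hST
        have h1 : μ ≠ lam' := by
          rintro rfl
          exact hne hlam
        exact Nat.add_lt_add_right (hY4 μ hμ h1) _
      · have h1 := upper_sum S T hup hS hST
        have h2 : ht μ ≤ ht lam' := by
          by_cases h3 : μ = lam'
          · rw [h3]
          · exact (hY4 μ hμ h3).le
        omega

end Pool.PI34.A5
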