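import Pool.Agent.LibPI34.BA_Defs

/-! PI34, block BA, file A1: elementary properties of `anti`. -/

set_option autoImplicit false

namespace Pool.PI34.BA

open Equiv Finset

variable {ι : Type*} [Fintype ι] [DecidableEq ι] {E : Type*} [Ring E]

theorem mem_permsOn {T : Finset ι} {σ : Perm ι} : σ ∈ permsOn T ↔ ∀ x, x ∉ T → σ x = x := by
  simp [permsOn]

omit [Fintype ι] [DecidableEq ι] in
theorem inv_fix {T : Finset ι} {σ : Perm ι} (h : ∀ x, x ∉ T → σ x = x) :
    ∀ x, x ∉ T → σ⁻¹ x = x := by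
  intro x hx
  rw [Perm.inv_eq_iff_eq]
  exact (h x hx).symm

/-- `τ A_T = sgn(τ) A_T` for `τ` supported in `T` (substitute `σ = τ⁻¹ σ'`). -/
theorem mul_anti (s : Perm ι →* E) (T : Finset ι) (τ : Perm ι) (hτ : ∀ x, x ∉ T → τ x = x) :
    s τ * anti s T = ((Perm.sign τ : ℤˣ) : ℤ) • anti s T := by
  unfold anti
  rw [Finset.mul_sum, Finset.smul_sum]
  refine Finset.sum_bij' (fun σ _ => τ * σ) (fun σ _ => τ⁻¹ * σ) ?_ ?_ ?_ ?_ ?_
  · intro σ hσ
    rw [mem_permsOn] at hσ ⊢
    intro x hx
    rw [Perm.mul_apply, hσ x hx, hτ x hx]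
  · intro σ hσ
    rw [mem_permsOn] at hσ ⊢
    intro x hx
    rw [Perm.mul_apply, hσ x hx, inv_fix hτ x hx]
  · intro σ _
    simp
  · intro σ _
    simp
  · intro σ _
    rw [map_mul s, Perm.sign_mul, Units.val_mul, smul_smul, ← mul_assoc, mul_smul_comm,
      Int.units_coe_mul_self, one_mul]

/-- `A_T τ = sgn(τ) A_T` for `τ` supported in `T`. -/
theorem anti_mul (s : Perm ι →* E) (T : Finset ι) (τ : Perm ι) (hτ : ∀ x, x ∉ T → τ x = x) :
    anti s T * s τ = ((Perm.sign τ : ℤˣ) : ℤ) • anti s T := by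
  unfold anti
  rw [Finset.sum_mul, Finset.smul_sum]
  refine Finset.sum_bij' (fun σ _ => σ * τ) (fun σ _ => σ * τ⁻¹) ?_ ?_ ?_ ?_ ?_
  · intro σ hσ
    rw [mem_permsOn] at hσ ⊢
    intro x hx
    rw [Perm.mul_apply, hτ x hx, hσ x hx]
  · intro σ hσ
    rw [mem_permsOn] at hσ ⊢
    intro x hx
    rw [Perm.mul_apply, inv_fix hτ x hx, hσ x hx]
  · intro σ _
    simp
  · intro σ _
    simp
  · intro σ _
    rw [map_mul s, Perm.sign_mul, Units.val_mul, smul_smul, smul_mul_assoc,
      mul_comm ((Perm.sign σ : ℤˣ) : ℤ), ← mul_assoc, Int.units_coe_mul_self, one_mul]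

/-- conjugation: `σ A_T = A_{σ T} σ`. -/
theorem conj_anti (s : Perm ι →* E) (T : Finset ι) (σ : Perm ι) :
    s σ * anti s T = anti s (T.map σ.toEmbedding) * s σ := by
  unfold anti
  rw [Finset.mul_sum, Finset.sum_mul]
  refine Finset.sum_bij' (fun π _ => σ * π * σ⁻¹) (fun π _ => σ⁻¹ * π * σ) ?_ ?_ ?_ ?_ ?_
  · intro π hπ
    rw [mem_permsOn] at hπ ⊢
    intro x hx
    have h1 : σ⁻¹ x ∉ T := by
      intro h
      apply hx
      rw [Finset.mem_map]
      exact ⟨σ⁻¹ x, h, by simp⟩
    rw [Perm.mul_apply, Perm.mul_apply, hπ _ h1]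
    simp
  · intro π hπ
    rw [mem_permsOn] at hπ ⊢
    intro x hx
    have h1 : σ x ∉ T.map σ.toEmbedding := by
      intro h
      rw [Finset.mem_map] at h
      obtain ⟨y, hy, hxy⟩ := h
      have : y = x := σ.injective (by simpa using hxy)
      exact hx (this ▸ hy)
    rw [Perm.mul_apply, Perm.mul_apply, hπ _ h1]
    simp
  · intro π _
    simp [mul_assoc]
  · intro π _
    simp [mul_assoc]
  · intro π _
    have h1 : Perm.sign (σ * π * σ⁻¹) = Perm.sign π := by
      rw [Perm.sign_mul, Perm.sign_mul, Perm.sign_inv, mul_comm (Perm.sign σ), mul_assoc,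
        Int.units_mul_self, mul_one]
    rw [h1, smul_mul_assoc, mul_smul_comm, ← map_mul, ← map_mul]
    congr 2
    simp [mul_assoc]

/-- if `σ` maps `T` onto itself then it commutes with `A_T` (from `conj_anti`). -/
theorem anti_commute_perm (s : Perm ι →* E) (T : Finset ι) (σ : Perm ι)
    (hσ : ∀ x, x ∈ T → σ x ∈ T) : s σ * anti s T = anti s T * s σ := by
  rw [conj_anti]
  have h : T.map σ.toEmbedding = T := by
    apply Finset.eq_of_subset_of_card_le
    · intro y hy
      rw [Finset.mem_map] at hy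
      obtain ⟨x, hx, hxy⟩ := hy
      have : σ x = y := by simpa using hxy
      exact this ▸ hσ x hx
    · rw [Finset.card_map]
  rw [h]

/-- `A_P A_Q = A_Q A_P` for disjoint `P`, `Q`. -/
theorem anti_comm (s : Perm ι →* E) (P Q : Finset ι) (h : Disjoint P Q) :
    anti s P * anti s Q = anti s Q * anti s P := by
  have key : ∀ σ ∈ permsOn P, s σ * anti s Q = anti s Q * s σ := by
    intro σ hσ
    rw [mem_permsOn] at hσ
    apply anti_commute_perm
    intro x hx
    have hxP : x ∉ P := fun hP => (Finset.disjoint_left.mp h) hP hx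
    rw [hσ x hxP]
    exact hx
  unfold anti at key ⊢
  rw [Finset.sum_mul, Finset.mul_sum (permsOn P)]
  refine Finset.sum_congr rfl fun σ hσ => ?_
  rw [smul_mul_assoc, mul_smul_comm, key σ hσ]

/-- coset expansion: `A_{P ∪ {z}} = A_P - Σ_{j ∈ P} (z j) A_P`.
(a permutation `σ` of `insert z P` with `σ z = j` is `(z j) π`, `π` supported in `P`.) -/
theorem anti_insert (s : Perm ι →* E) (P : Finset ι) (z : ι) (hz : z ∉ P) :
    anti s (insert z P) = anti s P - ∑ j ∈ P, s (swap z j) * anti s P := by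
  have hfib : anti s (insert z P) = ∑ j ∈ insert z P,
      ∑ σ ∈ (permsOn (insert z P)).filter (fun σ => σ z = j),
        ((Perm.sign σ : ℤˣ) : ℤ) • s σ := by
    unfold anti
    rw [Finset.sum_fiberwise_of_maps_to]
    intro σ hσ
    rw [mem_permsOn] at hσ
    by_contra hn
    have h1 : σ (σ z) = σ z := hσ _ hn
    have h2 : σ z = z := σ.injective h1
    exact hn (h2.symm ▸ Finset.mem_insert_self z P)
  have hsw : ∀ j ∈ insert z P, ∑ σ ∈ (permsOn (insert z P)).filter (fun σ => σ z = j),
        ((Perm.sign σ : ℤˣ) : ℤ) • s σ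
      = ((Perm.sign (swap z j) : ℤˣ) : ℤ) • (s (swap z j) * anti s P) := by
    intro j hj
    unfold anti
    rw [Finset.mul_sum, Finset.smul_sum]
    refine Finset.sum_bij' (fun σ _ => swap z j * σ) (fun σ _ => swap z j * σ) ?_ ?_ ?_ ?_ ?_
    · intro σ hσ
      rw [Finset.mem_filter, mem_permsOn] at hσ
      rw [mem_permsOn]
      intro x hx
      rw [Perm.mul_apply]
      by_cases hxz : x = z
      · rw [hxz, hσ.2, swap_apply_right]
      · have hx' : x ∉ insert z P := by
          rw [Finset.mem_insert, not_or]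
          exact ⟨hxz, hx⟩
        rw [hσ.1 x hx']
        apply swap_apply_of_ne_of_ne hxz
        intro hxj
        exact hx' (hxj ▸ hj)
    · intro σ hσ
      rw [mem_permsOn] at hσ
      rw [Finset.mem_filter, mem_permsOn]
      constructor
      · intro x hx
        have hx2 : x ≠ z ∧ x ∉ P := by
          rw [Finset.mem_insert, not_or] at hx
          exact hx
        rw [Perm.mul_apply, hσ x hx2.2]
        apply swap_apply_of_ne_of_ne hx2.1
        intro hxj
        exact hx (hxj ▸ hj)
      · rw [Perm.mul_apply, hσ z hz, swap_apply_left]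
    · intro σ _
      rw [← mul_assoc, swap_mul_self, one_mul]
    · intro σ _
      rw [← mul_assoc, swap_mul_self, one_mul]
    · intro σ _
      rw [Perm.sign_mul, Units.val_mul, mul_smul_comm, ← map_mul, ← mul_assoc, swap_mul_self,
        one_mul, smul_smul, ← mul_assoc, Int.units_coe_mul_self, one_mul]
  rw [hfib, Finset.sum_congr rfl hsw, Finset.sum_insert hz, swap_self]
  have h1 : ((Perm.sign (Equiv.refl ι) : ℤˣ) : ℤ) • (s (Equiv.refl ι) * anti s P) = anti s P := by
    have h2 : (Equiv.refl ι : Perm ι) = 1 := rfl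
    rw [h2, Perm.sign_one, map_one]
    simp
  rw [h1, sub_eq_add_neg, ← Finset.sum_neg_distrib]
  congr 1
  refine Finset.sum_congr rfl fun j hj => ?_
  have hzj : z ≠ j := fun h => hz (h ▸ hj)
  rw [Perm.sign_swap hzj]
  simp

/-- `A_T = 0` as soon as `T` has more than `k` elements (induction from `anti_insert`). -/
theorem anti_eq_zero (s : Perm ι →* E) (k : ℕ) (hA : Anti s k) (T : Finset ι)
    (hT : k + 1 ≤ T.card) : anti s T = 0 := by
  induction T using Finset.induction_on with
  | empty => simp at hT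
  | insert z P hz ih =>
    rcases Nat.eq_or_lt_of_le hT with h | h
    · exact hA _ h.symm
    · have h1 : k + 1 ≤ P.card := by
        rw [Finset.card_insert_of_notMem hz] at h
        omega
      rw [anti_insert s P z hz, ih h1]
      simp

/-- `A_P = Σ_{j ∈ P} (z j) A_P` if all the antisymmetrizers of rank `k + 1` vanish. -/
theorem anti_eq_sum (s : Perm ι →* E) (k : ℕ) (hA : Anti s k) (P : Finset ι) (hP : P.card = k)
    (z : ι) (hz : z ∉ P) : anti s P = ∑ j ∈ P, s (swap z j) * anti s P := by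
  have h : anti s (insert z P) = 0 := by
    apply hA
    rw [Finset.card_insert_of_notMem hz, hP]
  rw [anti_insert s P z hz] at h
  exact sub_eq_zero.mp h

end Pool.PI34.BA
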