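import Pool.Agent.LibPI34.BA_A1

/-! PI34, block BA, file A2: the block swap fixes `ω = A_P A_Q` (over `ℤ`, no division).

PROOF.  Let `G_R` (for `R ⊆ Q`) be the permutations supported in `P ∪ R`, `ω = A_P A_Q` and
`t(σ) = sgn(σ) s(σ) ω`.  `t(σ π) = t(σ)` for `π` supported in `P ∪ Q` with `π P = P`, `π Q = Q`
(such a `π` is the product of a permutation of `P` and one of `Q`; `mul_anti`, `anti_comm`).
Hence for `σ` supported in `P ∪ Q`, `t(σ)` depends only on `U = σ(Q)`; call it `t_U`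
(`U ⊆ P ∪ Q`, `|U| = k`).
RELATION for `∅ ≠ R ⊆ Q`:  `∑_{U ⊇ Q ∖ R} t_U = 0`.   Indeed `0 = A_{P ∪ R}` (`anti_eq_zero`) is the sum
over the cosets `τ (Sym P × Sym R)` of `G_R` of `sgn(τ) s(τ) A_P A_R`; multiply on the right by `C` with
`A_Q = A_R C` (`anti_factor`), where `C` commutes with `A_P`; the cosets correspond to the sets
`U = τ(Q) = τ(R) ∪ (Q ∖ R)`.
Finally `∑_{R ⊆ Q} (-1)^{|R|} ∑_{U ⊇ Q ∖ R} t_U`: only `R = ∅` survives on one side (value `t_Q = ω`), and
exchanging the sums only `U = P` survives (value `(-1)^k t_P`).  So `ω = (-1)^k t_P = s(g) ω` for the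
product `g` of the `k` disjoint transpositions `(p i, q i)`.
-/

set_option autoImplicit false

namespace Pool.PI34.BA

open Equiv Finset

variable {ι : Type*} [Fintype ι] [DecidableEq ι] {E : Type*} [Ring E]

/-- the signed homomorphism -/
def A2_u (s : Perm ι →* E) : Perm ι →* E where
  toFun σ := ((Perm.sign σ : ℤˣ) : ℤ) • s σ
  map_one' := by simp
  map_mul' σ τ := by
    rw [Perm.sign_mul, Units.val_mul, map_mul, smul_mul_smul_comm]

theorem A2_anti (s : Perm ι →* E) (T : Finset ι) : anti s T = ∑ σ ∈ permsOn T, A2_u s σ := rfl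

theorem A2_mem (T : Finset ι) (σ : Perm ι) : σ ∈ permsOn T ↔ ∀ x, x ∉ T → σ x = x := by
  simp [permsOn]

theorem A2_mul_mem {T : Finset ι} {σ τ : Perm ι} (h1 : σ ∈ permsOn T) (h2 : τ ∈ permsOn T) :
    σ * τ ∈ permsOn T := by
  rw [A2_mem] at *
  intro x hx
  rw [Perm.mul_apply, h2 x hx, h1 x hx]

theorem A2_inv_mem {T : Finset ι} {σ : Perm ι} (h1 : σ ∈ permsOn T) : σ⁻¹ ∈ permsOn T := by
  rw [A2_mem] at *
  intro x hx
  rw [Perm.inv_eq_iff_eq]
  exact (h1 x hx).symm

theorem A2_mono {T T' : Finset ι} (h : T ⊆ T') {σ : Perm ι} (h1 : σ ∈ permsOn T) :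
    σ ∈ permsOn T' := by
  rw [A2_mem] at *
  exact fun x hx => h1 x fun h2 => hx (h h2)

theorem A2_maps {T : Finset ι} {σ : Perm ι} (h1 : σ ∈ permsOn T) (x : ι) : σ x ∈ T ↔ x ∈ T := by
  rw [A2_mem] at h1
  constructor
  · intro h
    by_contra h2
    rw [h1 x h2] at h
    exact h2 h
  · intro h
    by_contra h2
    have h3 := σ.injective (h1 _ h2)
    rw [h3] at h2
    exact h2 h

theorem A2_map_mul (Q : Finset ι) (σ τ : Perm ι) :
    Q.map (σ * τ).toEmbedding = (Q.map τ.toEmbedding).map σ.toEmbedding := by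
  rw [Finset.map_map]
  rfl

theorem A2_map_one (Q : Finset ι) : Q.map (1 : Perm ι).toEmbedding = Q := by
  ext x
  rw [Finset.mem_map_equiv]
  rfl

theorem A2_map_eq {A B : Finset ι} (σ : Perm ι) (h : ∀ x ∈ A, σ x ∈ B) (hc : B.card ≤ A.card) :
    A.map σ.toEmbedding = B := by
  refine Finset.eq_of_subset_of_card_le ?_ (by rw [Finset.card_map]; exact hc)
  intro y hy
  rw [Finset.mem_map] at hy
  obtain ⟨x, hx, rfl⟩ := hy
  exact h x hx

/-- a transversal, by induction -/
theorem A2_transversal (u : Perm ι →* E) (R : Finset ι) (n : ℕ) : ∀ X : Finset (Perm ι),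
    X.card ≤ n → (∀ π ∈ permsOn R, ∀ σ ∈ X, π * σ ∈ X) →
    ∃ W : Finset (Perm ι), W ⊆ X ∧ ∑ σ ∈ X, u σ = (∑ π ∈ permsOn R, u π) * ∑ σ ∈ W, u σ := by
  induction n with
  | zero =>
    intro X hX _
    have h1 : X = ∅ := Finset.card_eq_zero.1 (by omega)
    exact ⟨∅, by simp, by simp [h1]⟩
  | succ n ih =>
    intro X hX hc
    by_cases hne : X = ∅
    · exact ⟨∅, by simp, by simp [hne]⟩
    · obtain ⟨τ, hτ⟩ := Finset.nonempty_iff_ne_empty.2 hne
      set Y : Finset (Perm ι) := (permsOn R).image fun π => π * τ with hY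
      have hτY : τ ∈ Y := by
        rw [hY, Finset.mem_image]
        exact ⟨1, by rw [A2_mem]; simp, by simp⟩
      have hYX : Y ⊆ X := by
        intro x hx
        rw [hY, Finset.mem_image] at hx
        obtain ⟨π, hπ, rfl⟩ := hx
        exact hc π hπ τ hτ
      have hcard : (X \ Y).card ≤ n := by
        have h1 : (X \ Y).card < X.card := by
          refine Finset.card_lt_card ?_
          rw [Finset.ssubset_iff_of_subset Finset.sdiff_subset]
          exact ⟨τ, hτ, fun h => (Finset.mem_sdiff.1 h).2 hτY⟩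
        omega
      obtain ⟨W, hW1, hW2⟩ := ih (X \ Y) hcard (by
        intro π hπ σ hσ
        rw [Finset.mem_sdiff] at hσ ⊢
        refine ⟨hc π hπ σ hσ.1, fun h => hσ.2 ?_⟩
        rw [hY, Finset.mem_image] at h ⊢
        obtain ⟨π', hπ', h1⟩ := h
        refine ⟨π⁻¹ * π', A2_mul_mem (A2_inv_mem hπ) hπ', ?_⟩
        rw [mul_assoc, h1, inv_mul_cancel_left])
      have hτW : τ ∉ W := fun h => (Finset.mem_sdiff.1 (hW1 h)).2 hτY
      refine ⟨insert τ W, ?_, ?_⟩
      · intro x hx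
        rw [Finset.mem_insert] at hx
        rcases hx with rfl | hx
        · exact hτ
        · exact (Finset.mem_sdiff.1 (hW1 hx)).1
      · rw [Finset.sum_insert hτW, mul_add, ← hW2, ← Finset.sum_sdiff hYX, add_comm]
        congr 1
        rw [hY, Finset.sum_image (fun a _ b _ h => mul_right_cancel h), Finset.sum_mul]
        exact Finset.sum_congr rfl fun π _ => map_mul u π τ

/-- for `R ⊆ Q` there is `C`, a signed sum of permutations supported in `Q`, with `A_Q = A_R C`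
(right transversal of `Sym R` in `Sym Q`). -/
theorem anti_factor (s : Perm ι →* E) (R Q : Finset ι) (h : R ⊆ Q) :
    ∃ W : Finset (Perm ι), (∀ σ ∈ W, ∀ x, x ∉ Q → σ x = x) ∧
      anti s Q = anti s R * ∑ σ ∈ W, ((Perm.sign σ : ℤˣ) : ℤ) • s σ := by
  obtain ⟨W, hW1, hW2⟩ := A2_transversal (A2_u s) R _ (permsOn Q) le_rfl
    (fun π hπ σ hσ => A2_mul_mem (A2_mono h hπ) hσ)
  exact ⟨W, fun σ hσ => (A2_mem Q σ).1 (hW1 hσ), hW2⟩

/-- the product of the transpositions `(p i, q i)` -/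
theorem exists_blockSwap {k : ℕ} (p q : Fin k ↪ ι) (hpq : ∀ i j, p i ≠ q j) :
    ∃ g : Perm ι, (∀ i, g (p i) = q i) ∧ (∀ i, g (q i) = p i) ∧
      (∀ x, (∀ i, x ≠ p i) → (∀ i, x ≠ q i) → g x = x) ∧ Perm.sign g = (-1) ^ k := by
  induction k with
  | zero => exact ⟨1, fun i => i.elim0, fun i => i.elim0, fun x _ _ => rfl, by simp⟩
  | succ k ih =>
    obtain ⟨g, h1, h2, h3, h4⟩ := ih ((Fin.succEmb k).trans p)
      ((Fin.succEmb k).trans q) (fun i j => hpq i.succ j.succ)
    have h1' : ∀ i : Fin k, g (p i.succ) = q i.succ := h1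
    have h2' : ∀ i : Fin k, g (q i.succ) = p i.succ := h2
    have h3' : ∀ x, (∀ i : Fin k, x ≠ p i.succ) → (∀ i : Fin k, x ≠ q i.succ) → g x = x := h3
    have e1 : ∀ i : Fin k, p i.succ ≠ p 0 := fun i h => Fin.succ_ne_zero i (p.injective h)
    have e2 : ∀ i : Fin k, q i.succ ≠ q 0 := fun i h => Fin.succ_ne_zero i (q.injective h)
    have g1 : g (p 0) = p 0 := h3' _ (fun i => (e1 i).symm) (fun i => hpq 0 i.succ)
    have g2 : g (q 0) = q 0 := h3' _ (fun i => (hpq i.succ 0).symm) (fun i => (e2 i).symm)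
    refine ⟨swap (p 0) (q 0) * g, ?_, ?_, ?_, ?_⟩
    · intro i
      refine Fin.cases ?_ (fun i => ?_) i
      · rw [Perm.mul_apply, g1, swap_apply_left]
      · rw [Perm.mul_apply, h1', swap_apply_of_ne_of_ne (hpq 0 i.succ).symm (e2 i)]
    · intro i
      refine Fin.cases ?_ (fun i => ?_) i
      · rw [Perm.mul_apply, g2, swap_apply_right]
      · rw [Perm.mul_apply, h2', swap_apply_of_ne_of_ne (e1 i) (hpq i.succ 0)]
    · intro x hx1 hx2
      rw [Perm.mul_apply, h3' x (fun i => hx1 i.succ) (fun i => hx2 i.succ),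
        swap_apply_of_ne_of_ne (hx1 0) (hx2 0)]
    · rw [Perm.sign_mul, Perm.sign_swap (hpq 0 0), h4, pow_succ']

/-- the product of the antisymmetrizers of two disjoint sets -/
theorem A2_stab (s : Perm ι →* E) (P Q R : Finset ι) (hRQ : R ⊆ Q) (hPQ : Disjoint P Q) :
    anti s P * anti s R =
      ∑ π ∈ (permsOn (P ∪ R)).filter (fun π => Q.map π.toEmbedding = Q), A2_u s π := by
  have hd : ∀ x, x ∈ P → x ∉ Q := fun x hx => Finset.disjoint_left.1 hPQ hx
  rw [A2_anti, A2_anti, Finset.sum_mul_sum, ← Finset.sum_product']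
  refine Finset.sum_bij (fun x _ => x.1 * x.2) ?_ ?_ ?_ ?_
  · rintro ⟨α, β⟩ hx
    rw [Finset.mem_product] at hx
    have hα : α ∈ permsOn P := hx.1
    have hβ : β ∈ permsOn R := hx.2
    rw [Finset.mem_filter]
    refine ⟨A2_mul_mem (A2_mono Finset.subset_union_left hα)
      (A2_mono Finset.subset_union_right hβ), ?_⟩
    ext y
    have hβQ := A2_mono hRQ hβ
    rw [A2_map_mul, Finset.mem_map_equiv, Finset.mem_map_equiv]
    have h1 : α.symm y ∈ Q ↔ y ∈ Q := by
      have hα' := (A2_mem P α⁻¹).1 (A2_inv_mem hα)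
      by_cases hy : y ∈ P
      · have h2 : α⁻¹ y ∈ P := (A2_maps (A2_inv_mem hα) y).2 hy
        exact ⟨fun h => absurd h (hd _ h2), fun h => absurd h (hd _ hy)⟩
      · have h2 : α⁻¹ y = y := hα' y hy
        have h3 : α.symm y = y := h2
        rw [h3]
    have h2 : β.symm (α.symm y) ∈ Q ↔ α.symm y ∈ Q := A2_maps (A2_inv_mem hβQ) (α.symm y)
    rw [h2, h1]
  · rintro ⟨α, β⟩ hx ⟨α', β'⟩ hx' hh
    rw [Finset.mem_product] at hx hx'
    have hα := (A2_mem P α).1 hx.1
    have hβ := (A2_mem R β).1 hx.2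
    have hα' := (A2_mem P α').1 hx'.1
    have hβ' := (A2_mem R β').1 hx'.2
    have hh' : α * β = α' * β' := hh
    have h1 : α = α' := by
      ext x
      by_cases hxP : x ∈ P
      · have hxR : x ∉ R := fun h => hd x hxP (hRQ h)
        have h2 := congrArg (fun π : Perm ι => π x) hh'
        simp only [Perm.mul_apply, hβ x hxR, hβ' x hxR] at h2
        exact h2
      · rw [hα x hxP, hα' x hxP]
    subst h1
    rw [mul_left_cancel hh']
  · intro π hπ
    rw [Finset.mem_filter] at hπ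
    obtain ⟨hπ1, hπ2⟩ := hπ
    have hQ : ∀ x, π x ∈ Q ↔ x ∈ Q := by
      intro x
      have h1 : π x ∈ Q.map π.toEmbedding ↔ x ∈ Q := by
        rw [Finset.mem_map_equiv, Equiv.symm_apply_apply]
      rwa [hπ2] at h1
    have hP : ∀ x, π x ∈ P ↔ x ∈ P := by
      intro x
      have h1 := A2_maps hπ1 x
      rw [Finset.mem_union, Finset.mem_union] at h1
      constructor
      · intro h
        rcases h1.1 (Or.inl h) with h2 | h2
        · exact h2
        · exact absurd ((hQ x).2 (hRQ h2)) (hd _ h)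
      · intro h
        rcases h1.2 (Or.inl h) with h2 | h2
        · exact h2
        · exact absurd ((hQ x).1 (hRQ h2)) (hd _ h)
    set α : Perm ι := Perm.ofSubtype (π.subtypePerm hP) with hαd
    have hα1 : ∀ x, x ∈ P → α x = π x := fun x hx => by
      rw [hαd, Perm.ofSubtype_apply_of_mem _ hx]
      rfl
    have hα2 : ∀ x, x ∉ P → α x = x := fun x hx => by
      rw [hαd, Perm.ofSubtype_apply_of_not_mem _ hx]
    refine ⟨(α, α⁻¹ * π), ?_, ?_⟩
    · rw [Finset.mem_product]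
      refine ⟨(A2_mem P α).2 hα2, (A2_mem R _).2 fun x hx => ?_⟩
      rw [Perm.mul_apply, Perm.inv_eq_iff_eq]
      by_cases hxP : x ∈ P
      · exact (hα1 x hxP).symm
      · rw [hα2 x hxP]
        exact (A2_mem _ π).1 hπ1 x (by simp [hxP, hx])
    · exact mul_inv_cancel_left α π
  · rintro ⟨α, β⟩ _
    exact (map_mul (A2_u s) α β).symm

theorem A2_fiber (u : Perm ι →* E) (T Q : Finset ι) (τ : Perm ι) (hτ : τ ∈ permsOn T) :
    ∑ σ ∈ (permsOn T).filter (fun σ => Q.map σ.toEmbedding = Q.map τ.toEmbedding), u σ =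
      u τ * ∑ π ∈ (permsOn T).filter (fun π => Q.map π.toEmbedding = Q), u π := by
  rw [Finset.mul_sum]
  refine Finset.sum_bij' (fun σ _ => τ⁻¹ * σ) (fun π _ => τ * π) ?_ ?_ ?_ ?_ ?_
  · intro σ hσ
    rw [Finset.mem_filter] at hσ ⊢
    refine ⟨A2_mul_mem (A2_inv_mem hτ) hσ.1, ?_⟩
    rw [A2_map_mul, hσ.2, ← A2_map_mul, inv_mul_cancel, A2_map_one]
  · intro π hπ
    rw [Finset.mem_filter] at hπ ⊢
    refine ⟨A2_mul_mem hτ hπ.1, ?_⟩
    rw [A2_map_mul, hπ.2]
  · intro σ _
    exact mul_inv_cancel_left τ σ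
  · intro π _
    exact inv_mul_cancel_left τ π
  · intro σ _
    rw [← map_mul, mul_inv_cancel_left]

theorem A2_fix (s : Perm ι →* E) (P Q : Finset ι) (hPQ : Disjoint P Q) (π : Perm ι)
    (h1 : π ∈ permsOn (P ∪ Q)) (h2 : Q.map π.toEmbedding = Q) :
    A2_u s π * (anti s P * anti s Q) = anti s P * anti s Q := by
  rw [A2_stab s P Q Q (Finset.Subset.refl _) hPQ, ← A2_fiber (A2_u s) (P ∪ Q) Q π h1, h2]

open Classical in
/-- the value at a subset -/
noncomputable def A2_t (u : Perm ι →* E) (T Q : Finset ι) (w : E) (U : Finset ι) : E :=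
  if h : ∃ τ ∈ permsOn T, Q.map τ.toEmbedding = U then u h.choose * w else 0

theorem A2_t_eq (s : Perm ι →* E) (P Q : Finset ι) (hPQ : Disjoint P Q) (τ : Perm ι)
    (hτ : τ ∈ permsOn (P ∪ Q)) :
    A2_t (A2_u s) (P ∪ Q) Q (anti s P * anti s Q) (Q.map τ.toEmbedding) =
      A2_u s τ * (anti s P * anti s Q) := by
  have h : ∃ τ' ∈ permsOn (P ∪ Q), Q.map τ'.toEmbedding = Q.map τ.toEmbedding := ⟨τ, hτ, rfl⟩
  rw [A2_t, dif_pos h]
  obtain ⟨h1, h2⟩ := h.choose_spec
  set τ' := h.choose with hτ'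
  have h3 : A2_u s (τ⁻¹ * τ') * (anti s P * anti s Q) = anti s P * anti s Q := by
    refine A2_fix s P Q hPQ _ (A2_mul_mem (A2_inv_mem hτ) h1) ?_
    rw [A2_map_mul, h2, ← A2_map_mul, inv_mul_cancel, A2_map_one]
  have h4 : τ' = τ * (τ⁻¹ * τ') := (mul_inv_cancel_left τ τ').symm
  rw [h4, map_mul, mul_assoc, h3]

/-- the images of `Q` -/
def A2_im (T Q : Finset ι) : Finset (Finset ι) :=
  (permsOn T).image fun σ => Q.map σ.toEmbedding

theorem A2_rel (s : Perm ι →* E) (P Q R : Finset ι) (hRQ : R ⊆ Q) (hPQ : Disjoint P Q) (C : E)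
    (hC : anti s Q = anti s R * C) :
    anti s (P ∪ R) * C =
      ∑ U ∈ A2_im (P ∪ R) Q, A2_t (A2_u s) (P ∪ Q) Q (anti s P * anti s Q) U := by
  have h1 : anti s (P ∪ R) = ∑ U ∈ A2_im (P ∪ R) Q,
      ∑ σ ∈ (permsOn (P ∪ R)).filter (fun σ => Q.map σ.toEmbedding = U), A2_u s σ := by
    rw [A2_anti]
    exact (Finset.sum_fiberwise_of_maps_to (fun σ hσ => Finset.mem_image_of_mem _ hσ) _).symm
  rw [h1, Finset.sum_mul]
  refine Finset.sum_congr rfl fun U hU => ?_
  rw [A2_im, Finset.mem_image] at hU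
  obtain ⟨τ, hτ, rfl⟩ := hU
  rw [A2_fiber (A2_u s) (P ∪ R) Q τ hτ, ← A2_stab s P Q R hRQ hPQ,
    A2_t_eq s P Q hPQ τ (A2_mono (Finset.union_subset_union_right hRQ) hτ), hC]
  simp only [mul_assoc]

theorem A2_exists_perm (T A B : Finset ι) (hA : A ⊆ T) (hB : B ⊆ T) (hc : A.card = B.card) :
    ∃ σ ∈ permsOn T, A.map σ.toEmbedding = B := by
  classical
  let e1 : {x // x ∈ A} ≃ {x // x ∈ B} := Finset.equivOfCardEq hc
  let eA : {x : {x // x ∈ T} // x.1 ∈ A} ≃ {x // x ∈ A} :=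
    Equiv.subtypeSubtypeEquivSubtype (fun {x} hx => hA hx)
  let eB : {x : {x // x ∈ T} // x.1 ∈ B} ≃ {x // x ∈ B} :=
    Equiv.subtypeSubtypeEquivSubtype (fun {x} hx => hB hx)
  let e : {x : {x // x ∈ T} // x.1 ∈ A} ≃ {x : {x // x ∈ T} // x.1 ∈ B} :=
    eA.trans (e1.trans eB.symm)
  refine ⟨Perm.ofSubtype e.extendSubtype, ?_, ?_⟩
  · rw [A2_mem]
    intro x hx
    exact Perm.ofSubtype_apply_of_not_mem _ hx
  · refine Finset.eq_of_subset_of_card_le ?_ ?_
    · intro y hy
      rw [Finset.mem_map] at hy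
      obtain ⟨x, hx, rfl⟩ := hy
      have h1 : (Perm.ofSubtype e.extendSubtype) x = e.extendSubtype ⟨x, hA hx⟩ :=
        Perm.ofSubtype_apply_of_mem _ (hA hx)
      have h2 := e.extendSubtype_mem ⟨x, hA hx⟩ hx
      change (Perm.ofSubtype e.extendSubtype) x ∈ B
      rw [h1]
      exact h2
    · rw [Finset.card_map, hc]

theorem A2_im_eq (P Q R : Finset ι) (hRQ : R ⊆ Q) (hPQ : Disjoint P Q) :
    A2_im (P ∪ R) Q = (A2_im (P ∪ Q) Q).filter fun U => Q \ R ⊆ U := by
  ext U
  rw [Finset.mem_filter, A2_im, A2_im, Finset.mem_image, Finset.mem_image]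
  constructor
  · rintro ⟨σ, hσ, rfl⟩
    refine ⟨⟨σ, A2_mono (Finset.union_subset_union_right hRQ) hσ, rfl⟩, ?_⟩
    intro x hx
    rw [Finset.mem_sdiff] at hx
    have hxP : x ∉ P := fun h => Finset.disjoint_left.1 hPQ h hx.1
    have h1 : σ x = x := (A2_mem _ σ).1 hσ x (by simp [hxP, hx.2])
    rw [Finset.mem_map]
    exact ⟨x, hx.1, h1⟩
  · rintro ⟨⟨σ, hσ, rfl⟩, hsub⟩
    set U := Q.map σ.toEmbedding with hU
    have hUT : U ⊆ P ∪ Q := by
      intro y hy
      rw [hU, Finset.mem_map] at hy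
      obtain ⟨x, hx, rfl⟩ := hy
      exact (A2_maps hσ x).2 (Finset.mem_union_right _ hx)
    have hUc : U.card = Q.card := by rw [hU, Finset.card_map]
    have h1 : U \ (Q \ R) ⊆ P ∪ R := by
      intro y hy
      rw [Finset.mem_sdiff, Finset.mem_sdiff] at hy
      have h2 := hUT hy.1
      rw [Finset.mem_union] at h2 ⊢
      rcases h2 with h2 | h2
      · exact Or.inl h2
      · right
        by_contra h3
        exact hy.2 ⟨h2, h3⟩
    have h2 : R.card = (U \ (Q \ R)).card := by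
      rw [Finset.card_sdiff_of_subset hsub, Finset.card_sdiff_of_subset hRQ, hUc]
      have := Finset.card_le_card hRQ
      omega
    obtain ⟨τ, hτ, h3⟩ := A2_exists_perm (P ∪ R) R (U \ (Q \ R)) Finset.subset_union_right h1 h2
    refine ⟨τ, hτ, ?_⟩
    have h4 : Q = R ∪ (Q \ R) := by rw [Finset.union_sdiff_of_subset hRQ]
    have h5 : (Q \ R).map τ.toEmbedding = Q \ R := by
      have h6 : ∀ x ∈ Q \ R, τ x = x := by
        intro x hx
        rw [Finset.mem_sdiff] at hx
        have hxP : x ∉ P := fun h => Finset.disjoint_left.1 hPQ h hx.1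
        exact (A2_mem _ τ).1 hτ x (by simp [hxP, hx.2])
      refine Finset.eq_of_subset_of_card_le ?_ (by rw [Finset.card_map])
      intro y hy
      rw [Finset.mem_map] at hy
      obtain ⟨x, hx, rfl⟩ := hy
      change τ x ∈ Q \ R
      rw [h6 x hx]
      exact hx
    have h7 : Q.map τ.toEmbedding = (R ∪ (Q \ R)).map τ.toEmbedding := by rw [← h4]
    rw [h7, Finset.map_union, h3, h5, Finset.sdiff_union_of_subset hsub]

/-- the block swap fixes `ω` -/
theorem blockSwap_om (s : Perm ι →* E) (k : ℕ) (hA : Anti s k) (p q : Fin k ↪ ι)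
    (hpq : ∀ i j, p i ≠ q j) (g : Perm ι) (hgp : ∀ i, g (p i) = q i) (hgq : ∀ i, g (q i) = p i)
    (hg : ∀ x, (∀ i, x ≠ p i) → (∀ i, x ≠ q i) → g x = x) (hsg : Perm.sign g = (-1) ^ k) :
    s g * (anti s (univ.map p) * anti s (univ.map q)) =
      anti s (univ.map p) * anti s (univ.map q) := by
  classical
  set P : Finset ι := univ.map p with hP
  set Q : Finset ι := univ.map q with hQ
  have hPQ : Disjoint P Q := by
    rw [Finset.disjoint_left]
    intro x hx hy
    rw [hP, Finset.mem_map] at hx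
    rw [hQ, Finset.mem_map] at hy
    obtain ⟨i, _, rfl⟩ := hx
    obtain ⟨j, _, hj⟩ := hy
    exact hpq i j hj.symm
  have cP : P.card = k := by rw [hP, Finset.card_map, Finset.card_univ, Fintype.card_fin]
  have cQ : Q.card = k := by rw [hQ, Finset.card_map, Finset.card_univ, Fintype.card_fin]
  have hgm : g ∈ permsOn (P ∪ Q) := by
    rw [A2_mem]
    intro x hx
    rw [Finset.mem_union, not_or] at hx
    refine hg x (fun i h => hx.1 ?_) (fun i h => hx.2 ?_)
    · rw [h, hP]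
      exact Finset.mem_map_of_mem p (Finset.mem_univ i)
    · rw [h, hQ]
      exact Finset.mem_map_of_mem q (Finset.mem_univ i)
  have hgQ : Q.map g.toEmbedding = P := by
    refine A2_map_eq g ?_ (cP.trans cQ.symm).le
    intro x hx
    rw [hQ, Finset.mem_map] at hx
    obtain ⟨i, _, rfl⟩ := hx
    rw [hgq i, hP]
    exact Finset.mem_map_of_mem p (Finset.mem_univ i)
  set w : E := anti s P * anti s Q with hw
  set t : Finset ι → E := A2_t (A2_u s) (P ∪ Q) Q w with ht
  -- the relations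
  have hrel : ∀ S ∈ Q.powerset, ∑ U ∈ (A2_im (P ∪ Q) Q).filter (fun U => S ⊆ U), t U =
      if S = Q then w else 0 := by
    intro S hS
    rw [Finset.mem_powerset] at hS
    have hRQ : Q \ S ⊆ Q := Finset.sdiff_subset
    have h1 : Q \ (Q \ S) = S := by
      rw [Finset.sdiff_sdiff_eq_self hS]
    have h2 := A2_im_eq P Q (Q \ S) hRQ hPQ
    rw [h1] at h2
    rw [← h2]
    by_cases hSQ : S = Q
    · rw [if_pos hSQ, hSQ, Finset.sdiff_self, Finset.union_empty]
      have h3 : A2_im P Q = {Q} := by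
        ext U
        rw [A2_im, Finset.mem_image, Finset.mem_singleton]
        constructor
        · rintro ⟨σ, hσ, rfl⟩
          refine A2_map_eq σ ?_ le_rfl
          intro x hx
          have hxP : x ∉ P := fun h => Finset.disjoint_left.1 hPQ h hx
          rw [(A2_mem _ σ).1 hσ x hxP]
          exact hx
        · rintro rfl
          exact ⟨1, by rw [A2_mem]; simp, A2_map_one _⟩
      rw [h3, Finset.sum_singleton]
      have h4 := A2_t_eq s P Q hPQ 1 (by rw [A2_mem]; simp)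
      rw [A2_map_one, map_one, one_mul] at h4
      exact h4
    · rw [if_neg hSQ]
      obtain ⟨W, _, hW2⟩ := anti_factor s (Q \ S) Q hRQ
      have h3 := A2_rel s P Q (Q \ S) hRQ hPQ _ hW2
      have h4 : anti s (P ∪ (Q \ S)) = 0 := by
        refine anti_eq_zero s k hA _ ?_
        have h5 : Disjoint P (Q \ S) := hPQ.mono_right hRQ
        rw [Finset.card_union_of_disjoint h5, cP]
        have h6 : (Q \ S).Nonempty := by
          rw [Finset.sdiff_nonempty]
          exact fun h => hSQ (Finset.Subset.antisymm hS h)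
        have := h6.card_pos
        omega
      rw [h4, zero_mul] at h3
      exact h3.symm
  have e1 : ∑ S ∈ Q.powerset, ((-1 : ℤ) ^ S.card) •
      ∑ U ∈ (A2_im (P ∪ Q) Q).filter (fun U => S ⊆ U), t U = ((-1 : ℤ) ^ k) • w := by
    rw [Finset.sum_congr rfl fun S hS => by rw [hrel S hS]]
    rw [Finset.sum_eq_single Q]
    · rw [if_pos rfl, cQ]
    · intro S _ hS
      rw [if_neg hS, smul_zero]
    · intro h
      exact absurd (Finset.mem_powerset_self Q) h
  have e2 : ∑ S ∈ Q.powerset, ((-1 : ℤ) ^ S.card) •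
      ∑ U ∈ (A2_im (P ∪ Q) Q).filter (fun U => S ⊆ U), t U = t P := by
    have h1 : ∑ S ∈ Q.powerset, ((-1 : ℤ) ^ S.card) •
        ∑ U ∈ (A2_im (P ∪ Q) Q).filter (fun U => S ⊆ U), t U =
        ∑ U ∈ A2_im (P ∪ Q) Q, (∑ S ∈ (Q ∩ U).powerset, (-1 : ℤ) ^ S.card) • t U := by
      simp_rw [Finset.smul_sum, Finset.sum_filter, Finset.sum_smul]
      rw [Finset.sum_comm]
      refine Finset.sum_congr rfl fun U _ => ?_
      rw [← Finset.sum_filter]
      refine Finset.sum_congr ?_ fun _ _ => rfl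
      ext S
      rw [Finset.mem_filter, Finset.mem_powerset, Finset.mem_powerset, Finset.subset_inter_iff]
    rw [h1, Finset.sum_eq_single P]
    · rw [Finset.sum_powerset_neg_one_pow_card, if_pos, one_smul]
      rw [← Finset.disjoint_iff_inter_eq_empty]
      exact hPQ.symm
    · intro U hU hUP
      rw [Finset.sum_powerset_neg_one_pow_card, if_neg, zero_smul]
      intro h2
      apply hUP
      rw [A2_im, Finset.mem_image] at hU
      obtain ⟨σ, hσ, rfl⟩ := hU
      refine A2_map_eq σ ?_ (cP.trans cQ.symm).le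
      intro x hx
      have hy' : σ x ∈ Q.map σ.toEmbedding := Finset.mem_map_of_mem σ.toEmbedding hx
      have h3 : σ x ∈ P ∪ Q := (A2_maps hσ x).2 (Finset.mem_union_right _ hx)
      rw [Finset.mem_union] at h3
      rcases h3 with h3 | h3
      · exact h3
      · have h4 : σ x ∈ Q ∩ Q.map σ.toEmbedding := Finset.mem_inter.2 ⟨h3, hy'⟩
        rw [h2] at h4
        exact absurd h4 (Finset.notMem_empty _)
    · intro h
      exfalso
      apply h
      rw [A2_im, Finset.mem_image]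
      exact ⟨g, hgm, hgQ⟩
  have e3 : t P = A2_u s g * w := by
    have h1 := A2_t_eq s P Q hPQ g hgm
    rw [hgQ] at h1
    exact h1
  have e4 : A2_u s g = ((-1 : ℤ) ^ k) • s g := by
    change ((Perm.sign g : ℤˣ) : ℤ) • s g = _
    rw [hsg]
    simp
  have e5 : ((-1 : ℤ) ^ k) • w = ((-1 : ℤ) ^ k) • (s g * w) := by
    rw [← e1, e2, e3, e4, smul_mul_assoc]
  have e6 : ∀ x : E, ((-1 : ℤ) ^ k) • (((-1 : ℤ) ^ k) • x) = x := by
    intro x
    rw [smul_smul, ← mul_pow]
    simp
  have e7 := congrArg (fun x => ((-1 : ℤ) ^ k) • x) e5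
  simp only [e6] at e7
  exact e7.symm

end Pool.PI34.BA
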