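import Pool.Agent.LibPI34.BA_A1

/-! PI34, block BA, file B1: the products `D e w` of letters on disjoint strands. -/

set_option autoImplicit false

namespace Pool.PI34.BA

open Equiv Finset

variable {ι Φ E : Type*} [Fintype ι] [DecidableEq ι] [Ring Φ] [Ring E] (S : Str ι Φ E)

theorem D_zero' (e : Fin 0 → ι) (w : Fin 0 → Φ) : S.D e w = 1 := by
  unfold Str.D
  simp

theorem D_succ' {k : ℕ} (e : Fin (k + 1) → ι) (w : Fin (k + 1) → Φ) :
    S.D e w = S.ρ (e 0) (w 0) * S.D (fun i => e i.succ) (fun i => w i.succ) := by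
  unfold Str.D
  rw [List.ofFn_succ, List.prod_cons]

theorem D_one {k : ℕ} (e : Fin k → ι) : S.D e 1 = 1 := by
  induction k with
  | zero => exact D_zero' S e 1
  | succ k ih =>
    rw [D_succ']
    have h := ih (fun i => e i.succ)
    have h2 : (fun i : Fin k => (1 : Fin (k + 1) → Φ) i.succ) = 1 := rfl
    rw [h2, h, mul_one, Pi.one_apply, map_one]

/-- a letter on a strand outside the range of `e` commutes with `D e w` -/
theorem rho_comm_D {k : ℕ} (e : Fin k → ι) (z : ι) (hz : ∀ i, e i ≠ z) (a : Φ) (w : Fin k → Φ) :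
    S.ρ z a * S.D e w = S.D e w * S.ρ z a := by
  induction k with
  | zero => rw [D_zero', mul_one, one_mul]
  | succ k ih =>
    rw [D_succ', ← mul_assoc, S.comm z (e 0) (Ne.symm (hz 0)), mul_assoc,
      ih (fun i => e i.succ) (fun i => hz i.succ), mul_assoc]

/-- `D e (w w') = D e w * D e w'` for injective `e` (induction on `k`, `List.ofFn_succ`). -/
theorem D_mul {k : ℕ} (e : Fin k → ι) (he : Function.Injective e) (w w' : Fin k → Φ) :
    S.D e (w * w') = S.D e w * S.D e w' := by
  induction k with
  | zero => rw [D_zero', D_zero', D_zero', mul_one]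
  | succ k ih =>
    rw [D_succ' S e (w * w'), D_succ' S e w, D_succ' S e w']
    have h1 : (fun i : Fin k => (w * w') i.succ) =
        (fun i : Fin k => w i.succ) * (fun i : Fin k => w' i.succ) := rfl
    have hinj : Function.Injective fun i : Fin k => e i.succ :=
      fun i j hij => Fin.succ_injective k (he hij)
    have hne : ∀ i : Fin k, e i.succ ≠ e 0 := fun i h => Fin.succ_ne_zero i (he h)
    have h2 := rho_comm_D S (fun i : Fin k => e i.succ) (e 0) hne (w' 0) (fun i => w i.succ)
    rw [h1, ih _ hinj, Pi.mul_apply, map_mul]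
    calc S.ρ (e 0) (w 0) * S.ρ (e 0) (w' 0) *
          (S.D (fun i => e i.succ) (fun i => w i.succ) *
            S.D (fun i => e i.succ) (fun i => w' i.succ))
        = S.ρ (e 0) (w 0) * (S.ρ (e 0) (w' 0) * S.D (fun i => e i.succ) (fun i => w i.succ)) *
            S.D (fun i => e i.succ) (fun i => w' i.succ) := by
          simp only [mul_assoc]
      _ = _ := by
          rw [h2]
          simp only [mul_assoc]

theorem D_comm_D {k l : ℕ} (e : Fin k → ι) (f : Fin l → ι) (h : ∀ i j, e i ≠ f j)
    (w : Fin k → Φ) (w' : Fin l → Φ) : S.D e w * S.D f w' = S.D f w' * S.D e w := by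
  induction k with
  | zero => rw [D_zero', mul_one, one_mul]
  | succ k ih =>
    rw [D_succ' S e w, mul_assoc, ih (fun i => e i.succ) (fun i j => h i.succ j), ← mul_assoc,
      rho_comm_D S f (e 0) (fun j => Ne.symm (h 0 j)), mul_assoc]

/-- `s σ * D e w = D (σ ∘ e) w * s σ` -/
theorem s_mul_D {k : ℕ} (e : Fin k → ι) (σ : Perm ι) (w : Fin k → Φ) :
    S.s σ * S.D e w = S.D (σ ∘ e) w * S.s σ := by
  induction k with
  | zero => rw [D_zero', D_zero', mul_one, one_mul]
  | succ k ih =>
    have h := ih (fun i => e i.succ) (fun i => w i.succ)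
    rw [D_succ' S e w, D_succ' S (σ ∘ e) w, ← mul_assoc, S.conj, mul_assoc, h, ← mul_assoc]
    rfl

/-- reindexing (the factors commute pairwise): `List.Perm.prod_eq'` or induction. -/
theorem D_reindex {k : ℕ} (e : Fin k → ι) (he : Function.Injective e) (π : Perm (Fin k))
    (w : Fin k → Φ) : S.D (e ∘ π) (w ∘ π) = S.D e w := by
  unfold Str.D
  apply List.Perm.prod_eq'
  · exact Equiv.Perm.ofFn_comp_perm π (fun i => S.ρ (e i) (w i))
  · rw [List.pairwise_ofFn]
    intro i j hij
    have hne : e (π i) ≠ e (π j) := fun h => hij.ne (π.injective (he h))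
    exact S.comm _ _ hne _ _

theorem mem_permsOn' {T : Finset ι} {σ : Perm ι} :
    σ ∈ permsOn T ↔ ∀ x, x ∉ T → σ x = x := by
  unfold permsOn
  rw [Finset.mem_filter]
  exact ⟨fun h => h.2, fun h => ⟨Finset.mem_univ _, h⟩⟩

/-- an element that commutes with the permutations supported in `T` commutes with `anti`. -/
theorem comm_anti_of (s : Perm ι →* E) (T : Finset ι) (x : E)
    (h : ∀ σ : Perm ι, (∀ y, y ∉ T → σ y = y) → x * s σ = s σ * x) :
    x * anti s T = anti s T * x := by
  unfold anti
  rw [Finset.mul_sum, Finset.sum_mul]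
  apply Finset.sum_congr rfl
  intro σ hσ
  rw [mem_permsOn'] at hσ
  rw [mul_smul_comm, smul_mul_assoc, h σ hσ]

/-- `D e u` (constant word) commutes with the antisymmetrizer of the same strands. -/
theorem D_comm_anti {k : ℕ} (e : Fin k ↪ ι) (u : Φ) :
    S.D e (fun _ => u) * anti S.s (univ.map e) = anti S.s (univ.map e) * S.D e (fun _ => u) := by
  apply comm_anti_of
  intro σ hσ
  have hmem : ∀ i, ∃ j, e j = σ (e i) := by
    intro i
    by_contra hc
    push Not at hc
    have h1 : σ (e i) ∉ univ.map e := by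
      intro h2
      obtain ⟨j, _, hj⟩ := Finset.mem_map.1 h2
      exact hc j hj
    have h3 : σ (e i) = e i := σ.injective (hσ _ h1)
    exact hc i h3.symm
  choose π hπ using hmem
  have hinj : Function.Injective π := by
    intro i j hij
    have h1 : σ (e i) = σ (e j) := by rw [← hπ i, ← hπ j, hij]
    exact e.injective (σ.injective h1)
  let π' : Perm (Fin k) := Equiv.ofBijective π (Finite.injective_iff_bijective.1 hinj)
  have h2 : (σ ∘ e : Fin k → ι) = e ∘ π' := by
    funext i
    exact (hπ i).symm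
  have h3 : (fun _ : Fin k => u) = (fun _ : Fin k => u) ∘ π' := rfl
  rw [s_mul_D S e σ, h2]
  congr 1
  conv_rhs => rw [h3]
  exact (D_reindex S e e.injective π' _).symm

/-- `D e w` commutes with the antisymmetrizer of other strands. -/
theorem D_comm_anti' {k : ℕ} (e : Fin k → ι) (T : Finset ι) (hT : ∀ i, e i ∉ T) (w : Fin k → Φ) :
    S.D e w * anti S.s T = anti S.s T * S.D e w := by
  apply comm_anti_of
  intro σ hσ
  have h2 : (σ ∘ e : Fin k → ι) = e := by
    funext i
    exact hσ _ (hT i)
  rw [s_mul_D S e σ, h2]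

/-- a letter commutes with the antisymmetrizer of other strands. -/
theorem rho_comm_anti (z : ι) (T : Finset ι) (hz : z ∉ T) (a : Φ) :
    S.ρ z a * anti S.s T = anti S.s T * S.ρ z a := by
  apply comm_anti_of
  intro σ hσ
  rw [S.conj, hσ z hz]

end Pool.PI34.BA
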