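import Pool.Agent.LibPI34.BA_A2
import Pool.Agent.LibPI34.BA_B1

/-! PI34, block BA, file B2: `D_P(u) ω = D_Q(u) ω` and commutation. -/

set_option autoImplicit false

namespace Pool.PI34.BA

open Equiv Finset

variable {ι Φ E : Type*} [Fintype ι] [DecidableEq ι] [Ring Φ] [Ring E] (S : Str ι Φ E)
variable {k : ℕ} (p q : Fin k ↪ ι) (z : ι)

/-- `D_P(u)` commutes with `ω` -/
theorem D_om (hF : Frame p q z) (u : Φ) :
    S.D p (fun _ => u) * S.om p q = S.om p q * S.D p (fun _ => u) := by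
  have h1 : ∀ i, p i ∉ univ.map q := by
    intro i h
    obtain ⟨j, _, hj⟩ := Finset.mem_map.1 h
    exact hF.pq i j hj.symm
  unfold Str.om
  rw [← mul_assoc, D_comm_anti, mul_assoc, D_comm_anti' S p _ h1, mul_assoc]

/-- `D_Q(u)` commutes with `ω` -/
theorem D_om' (hF : Frame p q z) (u : Φ) :
    S.D q (fun _ => u) * S.om p q = S.om p q * S.D q (fun _ => u) := by
  have h1 : ∀ i, q i ∉ univ.map p := by
    intro i h
    obtain ⟨j, _, hj⟩ := Finset.mem_map.1 h
    exact hF.pq j i hj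
  unfold Str.om
  rw [← mul_assoc, D_comm_anti' S q _ h1, mul_assoc, D_comm_anti, mul_assoc]

theorem rho_om (hF : Frame p q z) (a : Φ) : S.ρ z a * S.om p q = S.om p q * S.ρ z a := by
  have h1 : z ∉ univ.map p := by
    intro h
    obtain ⟨j, _, hj⟩ := Finset.mem_map.1 h
    exact hF.pz j hj
  have h2 : z ∉ univ.map q := by
    intro h
    obtain ⟨j, _, hj⟩ := Finset.mem_map.1 h
    exact hF.qz j hj
  unfold Str.om
  rw [← mul_assoc, rho_comm_anti S z _ h1, mul_assoc, rho_comm_anti S z _ h2, mul_assoc]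

/-- `D_P(u) ω = D_P(u) s(g) ω = s(g) D_Q(u) ω = s(g) ω D_Q(u) = ω D_Q(u) = D_Q(u) ω`,
`g` the block swap. -/
theorem D_swap (hA : Anti S.s k) (hF : Frame p q z) (u : Φ) :
    S.D p (fun _ => u) * S.om p q = S.D q (fun _ => u) * S.om p q := by
  obtain ⟨g, hgp, hgq, hg, hsg⟩ := exists_blockSwap p q hF.pq
  have h1 : S.s g * S.om p q = S.om p q :=
    blockSwap_om S.s k hA p q hF.pq g hgp hgq hg hsg
  have h2 : (g ∘ q : Fin k → ι) = p := funext fun i => hgq i
  have h3 : S.s g * S.D q (fun _ => u) = S.D p (fun _ => u) * S.s g := by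
    rw [s_mul_D, h2]
  calc S.D p (fun _ => u) * S.om p q
      = S.D p (fun _ => u) * (S.s g * S.om p q) := by rw [h1]
    _ = S.s g * (S.D q (fun _ => u) * S.om p q) := by rw [← mul_assoc, ← h3, mul_assoc]
    _ = S.s g * (S.om p q * S.D q (fun _ => u)) := by rw [D_om' S p q z hF]
    _ = S.om p q * S.D q (fun _ => u) := by rw [← mul_assoc, h1]
    _ = S.D q (fun _ => u) * S.om p q := (D_om' S p q z hF u).symm

/-- `D_P(u) D_P(v) ω = D_P(u) D_Q(v) ω = D_Q(v) D_P(u) ω = D_Q(v) ω D_P(u) = D_P(v) ω D_P(u)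
= D_P(v) D_P(u) ω`. -/
theorem D_comm_om (hA : Anti S.s k) (hF : Frame p q z) (u v : Φ) :
    S.D p (fun _ => u) * S.D p (fun _ => v) * S.om p q =
      S.D p (fun _ => v) * S.D p (fun _ => u) * S.om p q := by
  have hc : S.D p (fun _ => u) * S.D q (fun _ => v) = S.D q (fun _ => v) * S.D p (fun _ => u) :=
    D_comm_D S p q hF.pq _ _
  calc S.D p (fun _ => u) * S.D p (fun _ => v) * S.om p q
      = S.D p (fun _ => u) * (S.D p (fun _ => v) * S.om p q) := mul_assoc _ _ _
    _ = S.D p (fun _ => u) * (S.D q (fun _ => v) * S.om p q) := by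
        rw [D_swap S p q z hA hF]
    _ = S.D q (fun _ => v) * (S.D p (fun _ => u) * S.om p q) := by
        rw [← mul_assoc, hc, mul_assoc]
    _ = S.D q (fun _ => v) * (S.om p q * S.D p (fun _ => u)) := by rw [D_om S p q z hF]
    _ = S.D p (fun _ => v) * S.om p q * S.D p (fun _ => u) := by
        rw [← mul_assoc, D_swap S p q z hA hF]
    _ = S.D p (fun _ => v) * (S.D p (fun _ => u) * S.om p q) := by
        rw [mul_assoc, D_om S p q z hF]
    _ = S.D p (fun _ => v) * S.D p (fun _ => u) * S.om p q := (mul_assoc _ _ _).symm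

end Pool.PI34.BA
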