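import Pool.Agent.LibPI34.BA_B1

/-! PI34, block BA, file B3: the polynomial extension `S.poly` of a string system. -/

set_option autoImplicit false

namespace Pool.PI34.BA

open Equiv Finset Polynomial

variable {ι Φ E : Type*} [Fintype ι] [DecidableEq ι] [Ring Φ] [Ring E] (S : Str ι Φ E)

theorem B3_s_apply (σ : Perm ι) : S.poly.s σ = C (S.s σ) := rfl

theorem B3_rho_apply (i : ι) (a : Φ[X]) : S.poly.ρ i a = a.map (S.ρ i) := rfl

theorem poly_anti (T : Finset ι) : anti S.poly.s T = C (anti S.s T) := by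
  unfold anti
  rw [map_sum]
  refine Finset.sum_congr rfl fun σ _ => ?_
  rw [map_zsmul, B3_s_apply]

theorem poly_Anti (k : ℕ) (hA : Anti S.s k) : Anti S.poly.s k := by
  intro T hT
  rw [poly_anti, hA T hT, map_zero]

theorem poly_om {k : ℕ} (p q : Fin k ↪ ι) : S.poly.om p q = C (S.om p q) := by
  unfold Str.om
  rw [poly_anti, poly_anti, map_mul]

theorem poly_D_C {k : ℕ} (e : Fin k → ι) (w : Fin k → Φ) :
    S.poly.D e (fun i => C (w i)) = C (S.D e w) := by
  unfold Str.D
  rw [map_list_prod, List.map_ofFn]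
  congr 1
  congr 1
  funext i
  rw [B3_rho_apply, Polynomial.map_C]
  rfl

/-- evaluation at `0` -/
theorem poly_D_coeff_zero {k : ℕ} (e : Fin k → ι) (w : Fin k → Φ[X]) :
    (S.poly.D e w).coeff 0 = S.D e (fun i => (w i).coeff 0) := by
  unfold Str.D
  have h := map_list_prod (Polynomial.constantCoeff : E[X] →+* E)
    (List.ofFn fun i => S.poly.ρ (e i) (w i))
  rw [List.map_ofFn] at h
  rw [Polynomial.constantCoeff_apply] at h
  rw [h]
  congr 1
  congr 1
  funext i
  simp only [Function.comp_apply, Polynomial.constantCoeff_apply]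
  rw [B3_rho_apply, Polynomial.coeff_map]

theorem B3_list_monic (l : List E[X]) (h : ∀ p ∈ l, p.Monic) : l.prod.Monic := by
  induction l with
  | nil => simp
  | cons a l ih =>
    rw [List.prod_cons]
    exact (h a (by simp)).mul (ih fun p hp => h p (by simp [hp]))

/-- `D e (X + x)` is monic -/
theorem poly_D_monic {k : ℕ} (e : Fin k → ι) (x : Φ) :
    (S.poly.D e (fun _ => X + C x)).Monic := by
  unfold Str.D
  apply B3_list_monic
  intro p hp
  rw [List.mem_ofFn] at hp
  obtain ⟨i, rfl⟩ := hp
  rw [B3_rho_apply, Polynomial.map_add, Polynomial.map_X, Polynomial.map_C]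
  exact Polynomial.monic_X_add_C _

/-- degree bound: each letter has degree at most `d i` -/
theorem poly_D_natDegree {k : ℕ} (e : Fin k → ι) (w : Fin k → Φ[X]) (d : Fin k → ℕ)
    (h : ∀ i, (w i).natDegree ≤ d i) : (S.poly.D e w).natDegree ≤ ∑ i, d i := by
  unfold Str.D
  refine le_trans (Polynomial.natDegree_list_prod_le _) ?_
  rw [List.map_ofFn, List.sum_ofFn]
  refine Finset.sum_le_sum fun i _ => ?_
  simp only [Function.comp_apply]
  rw [B3_rho_apply]
  exact le_trans Polynomial.natDegree_map_le (h i)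

end Pool.PI34.BA
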