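import Pool.Agent.LibPI34.BA_B2
import Pool.Agent.LibPI34.BA_B3

/-! PI34, block BA, file B4: `D_P(1 + xy) ω = D_P(1 + yx) ω`, and the commutative quotient. -/

set_option autoImplicit false

namespace Pool.PI34.BA

open Equiv Finset Polynomial

variable {ι Φ E : Type*} [Fintype ι] [DecidableEq ι] [Ring Φ] [Ring E] (S : Str ι Φ E)
variable {k : ℕ} (p q : Fin k ↪ ι) (z : ι)

theorem B4_D_mul_const (e : Fin k → ι) (he : Function.Injective e) (u v : Φ) :
    S.D e (fun _ => u * v) = S.D e (fun _ => u) * S.D e (fun _ => v) :=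
  D_mul S e he (fun _ => u) (fun _ => v)

/-- PROOF.  In `S.poly` put `x' = X + C x`, `y' = C y`, `a = 1 + x' y'`, `b = 1 + y' x'`; `a x' = x' b`, hence
`D(a) D(x') ω = D(x') D(b) ω = D(b) D(x') ω` (`D_mul`, `D_comm_om` for `S.poly`), so
`(D(a) - D(b)) ω D(x') = 0` with `D(x')` monic (`poly_D_monic`), so `(D(a) - D(b)) ω = 0`; take the
coefficient of `X^0`. -/
theorem D_xy (hA : Anti S.s k) (hF : Frame p q z) (x y : Φ) :
    S.D p (fun _ => 1 + x * y) * S.om p q = S.D p (fun _ => 1 + y * x) * S.om p q := by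
  have hA' := poly_Anti S k hA
  have hax : (1 + (X + C x) * C y) * (X + C x) = (X + C x) * (1 + C y * (X + C x) : Φ[X]) := by
    noncomm_ring
  have h1 : S.poly.D p (fun _ => 1 + (X + C x) * C y) * S.poly.D p (fun _ => X + C x) *
      S.poly.om p q = S.poly.D p (fun _ => 1 + C y * (X + C x)) * S.poly.D p (fun _ => X + C x) *
      S.poly.om p q := by
    rw [← B4_D_mul_const S.poly p p.injective, hax, B4_D_mul_const S.poly p p.injective]
    exact D_comm_om S.poly p q z hA' hF _ _
  have h2 : (S.poly.D p (fun _ => 1 + (X + C x) * C y) * S.poly.om p q -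
      S.poly.D p (fun _ => 1 + C y * (X + C x)) * S.poly.om p q) *
      S.poly.D p (fun _ => X + C x) = 0 := by
    rw [sub_mul, mul_assoc, mul_assoc, ← D_om S.poly p q z hF, ← mul_assoc, ← mul_assoc, h1,
      sub_self]
  rw [(poly_D_monic S p x).mul_left_eq_zero_iff, sub_eq_zero] at h2
  have h3 := congrArg (fun r : E[X] => r.coeff 0) h2
  simp only [poly_om, Polynomial.coeff_mul_C, poly_D_coeff_zero] at h3
  have h4 : (1 + (X + C x) * C y : Φ[X]).coeff 0 = 1 + x * y := by
    simp [Polynomial.coeff_add, Polynomial.coeff_one]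
  have h5 : (1 + C y * (X + C x) : Φ[X]).coeff 0 = 1 + y * x := by
    simp [Polynomial.coeff_add, Polynomial.coeff_one]
  rw [h4, h5] at h3
  exact h3

/-- The relation `a ≈ b :↔ D(a) ω = D(b) ω` is a congruence of the multiplicative monoid `Φ`
(use `D_mul`, `D_om`), the quotient is commutative (`D_comm_om`). -/
theorem exists_quotient {ι Φ E : Type} [Fintype ι] [DecidableEq ι] [Ring Φ] [Ring E]
    (S : Str ι Φ E) {k : ℕ} (p q : Fin k ↪ ι) (z : ι) (hA : Anti S.s k) (hF : Frame p q z) :
    ∃ (M : Type) (_ : CommMonoid M) (π : Φ →* M), (∀ x y, π (1 + x * y) = π (1 + y * x)) ∧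
      ∀ a b, π a = π b → S.D p (fun _ => a) * S.om p q = S.D p (fun _ => b) * S.om p q := by
  let c : Con Φ :=
    { r := fun a b => S.D p (fun _ => a) * S.om p q = S.D p (fun _ => b) * S.om p q
      iseqv := ⟨fun _ => rfl, fun h => h.symm, fun h h' => h.trans h'⟩
      mul' := by
        intro a b a' b' h h'
        show S.D p (fun _ => a * a') * S.om p q = S.D p (fun _ => b * b') * S.om p q
        have h0 : S.D p (fun _ => a) * S.om p q = S.D p (fun _ => b) * S.om p q := h
        have h0' : S.D p (fun _ => a') * S.om p q = S.D p (fun _ => b') * S.om p q := h'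
        rw [B4_D_mul_const S p p.injective, B4_D_mul_const S p p.injective, mul_assoc, h0',
          D_om S p q z hF, ← mul_assoc, h0, mul_assoc, ← D_om S p q z hF, ← mul_assoc] }
  have hc : ∀ a b : Φ, c a b ↔ S.D p (fun _ => a) * S.om p q = S.D p (fun _ => b) * S.om p q :=
    fun a b => Iff.rfl
  refine ⟨c.Quotient, { (inferInstance : Monoid c.Quotient) with mul_comm := ?_ }, c.mk', ?_, ?_⟩
  · intro a b
    induction a using Con.induction_on with
    | _ a =>
    induction b using Con.induction_on with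
    | _ b =>
    show ((a * b : Φ) : c.Quotient) = ((b * a : Φ) : c.Quotient)
    rw [Con.eq, hc, B4_D_mul_const S p p.injective, B4_D_mul_const S p p.injective]
    exact D_comm_om S p q z hA hF a b
  · intro x y
    show ((1 + x * y : Φ) : c.Quotient) = ((1 + y * x : Φ) : c.Quotient)
    rw [Con.eq, hc]
    exact D_xy S p q z hA hF x y
  · intro a b h
    have h' : ((a : Φ) : c.Quotient) = ((b : Φ) : c.Quotient) := h
    rw [Con.eq, hc] at h'
    exact h'

end Pool.PI34.BA
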