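import Pool.Agent.LibPI34.BA_B1

/-! PI34, block BA, file B5: the adjugate. -/

set_option autoImplicit false

namespace Pool.PI34.BA

open Equiv Finset

variable {ι Φ E : Type*} [Fintype ι] [DecidableEq ι] [Ring Φ] [Ring E] (S : Str ι Φ E)
variable {k : ℕ}

/-- `𝒜(u) = Σ_j (z, p j) ∏_{i ≠ j} ρ_{p i}(u) A_P` -/
def Str.adj (S : Str ι Φ E) (p : Fin k ↪ ι) (z : ι) (u : Φ) : E :=
  ∑ j : Fin k, S.s (swap z (p j)) * S.D p (Function.update (fun _ => u) j 1) *
    anti S.s (univ.map p)

/-- a word with a single letter different from `1` -/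
theorem D_update_one {k : ℕ} (e : Fin k → ι) (j : Fin k) (u : Φ) :
    S.D e (Function.update 1 j u) = S.ρ (e j) u := by
  induction k with
  | zero => exact j.elim0
  | succ k ih =>
    unfold Str.D
    rw [List.ofFn_succ, List.prod_cons]
    refine Fin.cases ?_ (fun j => ?_) j
    · have h1 : (List.ofFn fun i : Fin k => S.ρ (e i.succ)
          ((Function.update (1 : Fin (k + 1) → Φ) 0 u) i.succ)).prod = 1 := by
        have h2 := D_one S (fun i : Fin k => e i.succ)
        unfold Str.D at h2
        rw [← h2]
        congr 2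
      rw [h1, Function.update_self, mul_one]
    · have h1 : (Function.update (1 : Fin (k + 1) → Φ) j.succ u) 0 = 1 := by
        rw [Function.update_of_ne (Fin.succ_ne_zero j).symm]
        rfl
      have h2 := ih (fun i : Fin k => e i.succ) j
      unfold Str.D at h2
      rw [h1, map_one, one_mul, ← h2]
      congr 2
      funext i
      congr 1
      by_cases hij : i = j
      · subst hij
        rw [Function.update_self, Function.update_self]
      · rw [Function.update_of_ne hij, Function.update_of_ne (fun h => hij (Fin.succ_injective _ h))]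
        rfl

theorem rho_mul_D_update (p : Fin k ↪ ι) (j : Fin k) (u : Φ) :
    S.ρ (p j) u * S.D p (Function.update (fun _ => u) j 1) = S.D p (fun _ => u) := by
  rw [← D_update_one S p j u, ← D_mul S p p.injective]
  congr 1
  funext i
  by_cases hij : i = j
  · subst hij
    simp
  · simp [Function.update_of_ne hij]

/-- `ρ_z(u) 𝒜(u) = D_P(u) A_P`.  PROOF. `ρ_z(u) s(z, p j) = s(z, p j) ρ_{p j}(u)`,
`ρ_{p j}(u) ∏_{i ≠ j} ρ_{p i}(u) = D_P(u)`, so the left side is `Σ_j s(z, p j) D_P(u) A_P =
Σ_j s(z, p j) A_P D_P(u) = A_P D_P(u)` by `anti_eq_sum`. -/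
theorem rho_mul_adj (hA : Anti S.s k) (p : Fin k ↪ ι) (z : ι) (hz : ∀ i, p i ≠ z) (u : Φ) :
    S.ρ z u * S.adj p z u = S.D p (fun _ => u) * anti S.s (univ.map p) := by
  have hsum : anti S.s (univ.map p) =
      ∑ j : Fin k, S.s (swap z (p j)) * anti S.s (univ.map p) := by
    have h1 := anti_eq_sum S.s k hA (univ.map p) (by simp) z (by
      simp only [mem_map, mem_univ, true_and, not_exists]
      exact hz)
    rw [sum_map] at h1
    exact h1
  unfold Str.adj
  rw [mul_sum]
  have h2 : ∀ j : Fin k, S.ρ z u * (S.s (swap z (p j)) *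
      S.D p (Function.update (fun _ => u) j 1) * anti S.s (univ.map p)) =
      (S.s (swap z (p j)) * anti S.s (univ.map p)) * S.D p (fun _ => u) := by
    intro j
    have h3 : S.ρ z u * S.s (swap z (p j)) = S.s (swap z (p j)) * S.ρ (p j) u := by
      rw [S.conj, swap_apply_right]
    calc S.ρ z u * (S.s (swap z (p j)) *
        S.D p (Function.update (fun _ => u) j 1) * anti S.s (univ.map p))
        = (S.ρ z u * S.s (swap z (p j))) *
          S.D p (Function.update (fun _ => u) j 1) * anti S.s (univ.map p) := by
          simp only [mul_assoc]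
      _ = S.s (swap z (p j)) * (S.ρ (p j) u *
          S.D p (Function.update (fun _ => u) j 1)) * anti S.s (univ.map p) := by
          rw [h3]
          simp only [mul_assoc]
      _ = S.s (swap z (p j)) * (S.D p (fun _ => u) * anti S.s (univ.map p)) := by
          rw [rho_mul_D_update, mul_assoc]
      _ = (S.s (swap z (p j)) * anti S.s (univ.map p)) * S.D p (fun _ => u) := by
          rw [D_comm_anti, mul_assoc]
  rw [sum_congr rfl fun j _ => h2 j, ← sum_mul, ← hsum, D_comm_anti]

end Pool.PI34.BA
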