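import Pool.Agent.LibPI34.BA_Defs

/-! PI34, block BA, file C1: units `1 + t N` for a central nilpotent `t`, Sherman-Morrison. -/

set_option autoImplicit false

namespace Pool.PI34.BA

open Equiv Finset Matrix

variable {A Λ : Type*} [Fintype A] [DecidableEq A] [Ring Λ]

omit [DecidableEq A] in
theorem C1_mul_smul (t : Λ) (ht : ∀ x, t * x = x * t) (N M : Matrix A A Λ) :
    N * (t • M) = t • (N * M) := by
  ext i j
  simp only [Matrix.mul_apply, Matrix.smul_apply, smul_eq_mul, Finset.mul_sum]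
  refine Finset.sum_congr rfl fun k _ => ?_
  rw [← mul_assoc, ← ht (N i k), mul_assoc]

theorem C1_smul_pow (t : Λ) (ht : ∀ x, t * x = x * t) (N : Matrix A A Λ) (m : ℕ) :
    (t • N) ^ m = t ^ m • N ^ m := by
  induction m with
  | zero => simp
  | succ m ih =>
    have h1 : ∀ x, t ^ m * x = x * t ^ m := fun x =>
      (Commute.pow_left (show Commute t x from ht x) m)
    rw [pow_succ', ih, Matrix.smul_mul, C1_mul_smul _ h1, smul_smul, ← pow_succ', ← pow_succ']

/-- `(t N)^m = t^m N^m`, so `1 + t N` is a unit. -/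
theorem isUnit_one_add (t : Λ) (ht : ∀ x, t * x = x * t) (hn : IsNilpotent t)
    (N : Matrix A A Λ) : IsUnit (1 + t • N) := by
  apply IsNilpotent.isUnit_one_add
  obtain ⟨m, hm⟩ := hn
  exact ⟨m, by rw [C1_smul_pow t ht, hm, zero_smul]⟩

theorem isUnit_one_add' (t : Λ) (ht : ∀ x, t * x = x * t) (hn : IsNilpotent t) (h : Λ) :
    IsUnit (1 + t * h) := by
  apply IsNilpotent.isUnit_one_add
  obtain ⟨m, hm⟩ := hn
  exact ⟨m, by rw [(show Commute t h from ht h).mul_pow, hm, zero_mul]⟩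

omit [DecidableEq A] in
theorem C1_mul_vec (M : Matrix A A Λ) (a b : A → Λ) :
    M * vecMulVec a b = vecMulVec (M *ᵥ a) b := by
  ext i j
  simp only [Matrix.mul_apply, Matrix.vecMulVec_apply, Matrix.mulVec, dotProduct, Finset.sum_mul,
    mul_assoc]

omit [DecidableEq A] in
theorem C1_vec_mul (M : Matrix A A Λ) (a b : A → Λ) :
    vecMulVec a b * M = vecMulVec a (b ᵥ* M) := by
  ext i j
  simp only [Matrix.mul_apply, Matrix.vecMulVec_apply, Matrix.vecMul, dotProduct, Finset.mul_sum,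
    mul_assoc]

omit [DecidableEq A] in
theorem C1_vec_vec (c r a b : A → Λ) :
    vecMulVec c r * vecMulVec a b = vecMulVec (fun i => c i * (r ⬝ᵥ a)) b := by
  ext i j
  simp only [Matrix.mul_apply, Matrix.vecMulVec_apply, dotProduct, Finset.mul_sum, Finset.sum_mul,
    mul_assoc]

omit [DecidableEq A] in
theorem C1_mulVec_right (M : Matrix A A Λ) (v : A → Λ) (g : Λ) :
    (M *ᵥ fun a => v a * g) = fun i => (M *ᵥ v) i * g := by
  funext i
  simp only [Matrix.mulVec, dotProduct, Finset.sum_mul, mul_assoc]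

omit [DecidableEq A] in
theorem C1_dot_right (r v : A → Λ) (g : Λ) : (r ⬝ᵥ fun a => v a * g) = (r ⬝ᵥ v) * g := by
  simp only [dotProduct, Finset.sum_mul, mul_assoc]

/-- Sherman-Morrison: with `M = 1 + t N`, `h = r M⁻¹ c`, `γ = (1 + t h)⁻¹`:
`(1 + t (N + c r))⁻¹ = M⁻¹ - t M⁻¹ c γ r M⁻¹`. -/
theorem inverse_add_vecMulVec (t : Λ) (ht : ∀ x, t * x = x * t) (hn : IsNilpotent t)
    (N : Matrix A A Λ) (c r : A → Λ) :
    Ring.inverse (1 + t • (N + vecMulVec c r)) =
      Ring.inverse (1 + t • N) - t • vecMulVec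
        (fun a => (Ring.inverse (1 + t • N) *ᵥ c) a *
          Ring.inverse (1 + t * (r ⬝ᵥ (Ring.inverse (1 + t • N) *ᵥ c))))
        (r ᵥ* Ring.inverse (1 + t • N)) := by
  have hM := isUnit_one_add t ht hn N
  have hM' := isUnit_one_add t ht hn (N + vecMulVec c r)
  have hs : (1 : Matrix A A Λ) + t • (N + vecMulVec c r) = 1 + t • N + t • vecMulVec c r := by
    rw [smul_add, add_assoc]
  have hMW : (1 + t • N) * Ring.inverse (1 + t • N) = 1 := Ring.mul_inverse_cancel _ hM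
  obtain ⟨M, hMd⟩ : ∃ M, M = 1 + t • N := ⟨_, rfl⟩
  obtain ⟨W, hWd⟩ : ∃ W, W = Ring.inverse (1 + t • N) := ⟨_, rfl⟩
  rw [← hWd, ← hMd] at hMW
  rw [← hWd]
  have hh := isUnit_one_add' t ht hn (r ⬝ᵥ (W *ᵥ c))
  have hg : (1 + t * (r ⬝ᵥ (W *ᵥ c))) * Ring.inverse (1 + t * (r ⬝ᵥ (W *ᵥ c))) = 1 :=
    Ring.mul_inverse_cancel _ hh
  obtain ⟨g, hgd⟩ : ∃ g, g = Ring.inverse (1 + t * (r ⬝ᵥ (W *ᵥ c))) := ⟨_, rfl⟩
  rw [← hgd] at hg
  rw [← hgd]
  have key : (1 + t • (N + vecMulVec c r)) *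
      (W - t • vecMulVec (fun a => (W *ᵥ c) a * g) (r ᵥ* W)) = 1 := by
    rw [hs, ← hMd, add_mul, mul_sub, mul_sub, hMW, C1_mul_smul t ht, C1_mul_smul t ht,
      Matrix.smul_mul, Matrix.smul_mul, C1_mul_vec, C1_vec_mul, C1_vec_vec, C1_mulVec_right,
      C1_dot_right, Matrix.mulVec_mulVec, hMW, Matrix.one_mulVec]
    ext i j
    simp only [Matrix.add_apply, Matrix.sub_apply, Matrix.smul_apply, smul_eq_mul,
      Matrix.vecMulVec_apply]
    obtain ⟨h, hhd⟩ : ∃ h, h = r ⬝ᵥ (W *ᵥ c) := ⟨_, rfl⟩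
    obtain ⟨b, hbd⟩ : ∃ b, b = (r ᵥ* W) j := ⟨_, rfl⟩
    rw [← hhd] at hg
    rw [← hhd, ← hbd]
    have e1 : t * (c i * (h * g) * b) = c i * (t * h * g) * b := by
      rw [← mul_assoc, ← mul_assoc t (c i), ht (c i), mul_assoc (c i) t, ← mul_assoc t h g]
    rw [e1]
    have e2 : c i * g * b + c i * (t * h * g) * b = c i * b := by
      rw [← add_mul, ← mul_add]
      have e3 : g + t * h * g = 1 := by rw [← hg, add_mul, one_mul]
      rw [e3, mul_one]
    have e4 : t * (c i * b) = t * (c i * g * b) + t * (c i * (t * h * g) * b) := by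
      rw [← mul_add, e2]
    rw [e4]
    abel
  calc Ring.inverse (1 + t • (N + vecMulVec c r))
      = Ring.inverse (1 + t • (N + vecMulVec c r)) * ((1 + t • (N + vecMulVec c r)) *
        (W - t • vecMulVec (fun a => (W *ᵥ c) a * g) (r ᵥ* W))) := by rw [key, mul_one]
    _ = W - t • vecMulVec (fun a => (W *ᵥ c) a * g) (r ᵥ* W) := by
        rw [← mul_assoc, Ring.inverse_mul_cancel _ hM', one_mul]

/-- a ring homomorphism maps the inverse of a unit to the inverse -/
theorem map_inverse_of_isUnit {R R' : Type*} [Ring R] [Ring R'] (f : R →+* R') (a : R)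
    (ha : IsUnit a) : f (Ring.inverse a) = Ring.inverse (f a) := by
  obtain ⟨u, rfl⟩ := ha
  have h : f ↑u = ↑(Units.map (f : R →* R') u) := rfl
  rw [Ring.inverse_unit, h, Ring.inverse_unit]
  rfl

end Pool.PI34.BA
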