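import Pool.Agent.LibPI34.BA_C1

/-! PI34, block BA, file C2: THE LEMMA (rank one update of the closing determinant). -/

set_option autoImplicit false

namespace Pool.PI34.BA

open Equiv Finset Matrix

set_option linter.unusedSectionVars false

variable {A Λ : Type*} [Fintype A] [DecidableEq A] [Ring Λ] {M : Type*} [CommMonoid M]

/-- the scalar computation -/
theorem C2_core (π : Λ →* M) (hπ : ∀ x y, π (1 + x * y) = π (1 + y * x)) {α β : Λ}
    (hα : IsUnit α) (hβ : IsUnit β) (d p : Λ) :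
    π α * π (β - d * Ring.inverse α * p) = π β * π (α - p * Ring.inverse β * d) := by
  have h1 : β - d * Ring.inverse α * p =
      β * (1 + (-(Ring.inverse β * d * Ring.inverse α)) * p) := by
    have : β * (Ring.inverse β * d * Ring.inverse α * p) = d * Ring.inverse α * p := by
      rw [mul_assoc (Ring.inverse β), mul_assoc (Ring.inverse β), Ring.mul_inverse_cancel_left _ _ hβ]
    rw [mul_add, mul_one, neg_mul, mul_neg, this, sub_eq_add_neg]
  have h2 : α - p * Ring.inverse β * d =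
      (1 + p * (-(Ring.inverse β * d * Ring.inverse α))) * α := by
    have : p * (Ring.inverse β * d * Ring.inverse α) * α = p * Ring.inverse β * d := by
      rw [mul_assoc p, mul_assoc (Ring.inverse β * d), Ring.inverse_mul_cancel _ hα, mul_one,
        ← mul_assoc]
    rw [add_mul, one_mul, mul_neg, neg_mul, this, sub_eq_add_neg]
  rw [h1, h2, map_mul, map_mul, hπ, mul_left_comm, mul_comm (π α)]

theorem C2_bil_smul (t : Λ) (ht : ∀ x, t * x = x * t) (K : Matrix A A Λ) (v w : A → Λ) :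
    v ⬝ᵥ ((t • K) *ᵥ w) = t * (v ⬝ᵥ (K *ᵥ w)) := by
  simp only [dotProduct, mulVec, Matrix.smul_apply, smul_eq_mul, Finset.mul_sum]
  refine Finset.sum_congr rfl fun b _ => Finset.sum_congr rfl fun j _ => ?_
  rw [mul_assoc t, ← mul_assoc (v b), ← ht, mul_assoc]

theorem C2_bil_vec (x y v w : A → Λ) : v ⬝ᵥ (vecMulVec x y *ᵥ w) = (v ⬝ᵥ x) * (y ⬝ᵥ w) := by
  simp only [dotProduct, mulVec, vecMulVec_apply]
  rw [Finset.sum_mul]
  refine Finset.sum_congr rfl fun b _ => ?_
  rw [Finset.mul_sum, Finset.mul_sum]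
  refine Finset.sum_congr rfl fun j _ => ?_
  simp only [mul_assoc]

theorem C2_dot_mul (v x : A → Λ) (g : Λ) : v ⬝ᵥ (fun b => x b * g) = (v ⬝ᵥ x) * g := by
  simp only [dotProduct, Finset.sum_mul, mul_assoc]

theorem C2_dot_mul_left (v x : A → Λ) (g : Λ) : (fun b => g * v b) ⬝ᵥ x = g * (v ⬝ᵥ x) := by
  simp only [dotProduct, Finset.mul_sum, mul_assoc]

theorem C2_mulVec_mul (K : Matrix A A Λ) (x : A → Λ) (g : Λ) :
    K *ᵥ (fun b => x b * g) = fun b => (K *ᵥ x) b * g := by
  funext b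
  simp only [mulVec, dotProduct, Finset.sum_mul, mul_assoc]

/-- the bilinear form of the inverse after a rank one update -/
theorem C2_bil_update (t : Λ) (ht : ∀ x, t * x = x * t) (hn : IsNilpotent t)
    (N : Matrix A A Λ) (c r v w : A → Λ) :
    v ⬝ᵥ (Ring.inverse (1 + t • (N + vecMulVec c r)) *ᵥ w) =
      v ⬝ᵥ (Ring.inverse (1 + t • N) *ᵥ w) -
        t * ((v ⬝ᵥ (Ring.inverse (1 + t • N) *ᵥ c)) *
          Ring.inverse (1 + t * (r ⬝ᵥ (Ring.inverse (1 + t • N) *ᵥ c))) *
          (r ⬝ᵥ (Ring.inverse (1 + t • N) *ᵥ w))) := by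
  rw [inverse_add_vecMulVec t ht hn, Matrix.sub_mulVec, dotProduct_sub, C2_bil_smul t ht,
    C2_bil_vec, C2_dot_mul, ← Matrix.dotProduct_mulVec]

theorem C2_rowsIn_add (N : Matrix A A Λ) (c r : A → Λ) (l : List A) :
    rowsIn (N + vecMulVec c r) l =
      rowsIn N l + vecMulVec (fun b => if b ∈ l then c b else 0) r := by
  ext a b
  simp only [rowsIn, Matrix.of_apply, Matrix.add_apply, vecMulVec_apply]
  split_ifs <;> simp

theorem C2_rowsIn_cons (N : Matrix A A Λ) (a : A) (l : List A) (ha : a ∉ l) :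
    rowsIn N (a :: l) = rowsIn N l + vecMulVec (Pi.single a 1) (N a) := by
  ext i b
  simp only [rowsIn, Matrix.of_apply, Matrix.add_apply, vecMulVec_apply, List.mem_cons]
  by_cases hi : i = a
  · subst hi
    simp [ha]
  · simp [hi]

theorem C2_diag (N K : Matrix A A Λ) (a : A) :
    (N * K) a a = N a ⬝ᵥ (K *ᵥ Pi.single a 1) := by
  rw [Matrix.mul_apply, Matrix.mulVec_single_one]
  rfl

/-- RANK ONE UPDATE.  `Dt(N + c r) = Dt(N) D(1 + t r M⁻¹ c)`, for the part of the rows in `l`.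

PROOF.  Induction on `l`.  Step `a :: l`, `a ∉ l`: put `M = 1 + t N_l` (rows in `l`), `c' = c` on `l` and `0`
elsewhere, `e = e_a`, `N_a` the row `a`, `γ = c a`, `α = 1 + t r M⁻¹ c'`, `β = 1 + t N_a M⁻¹ e`,
`p = t r M⁻¹ e`, `s = t N_a M⁻¹ c'`.  By `inverse_add_vecMulVec`
`(M + t c' r)⁻¹ = M⁻¹ - t M⁻¹ c' α⁻¹ r M⁻¹` and `(M + t e N_a)⁻¹ = M⁻¹ - t M⁻¹ e β⁻¹ N_a M⁻¹`, so
* new factor on the left:  `1 + t (N_a + γ r) (M + t c' r)⁻¹ e = β - (s - γ) α⁻¹ p`,
* second factor on the right: `1 + t r (M + t e N_a)⁻¹ (c' + e γ) = α - p β⁻¹ (s - γ)`,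
and `β - (s - γ) α⁻¹ p = β (1 - x y)`, `α - p β⁻¹ (s - γ) = (1 - y x) α` with
`x = β⁻¹ (s - γ) α⁻¹`, `y = p`.  So both sides are `π(dt N l) π(β) π(1 - x y) π(α)`. -/
theorem dt_rank_one (π : Λ →* M) (hπ : ∀ x y, π (1 + x * y) = π (1 + y * x)) (t : Λ)
    (ht : ∀ x, t * x = x * t) (hn : IsNilpotent t) (N : Matrix A A Λ) (c r : A → Λ)
    (l : List A) (hl : l.Nodup) :
    π (dt t (N + vecMulVec c r) l) = π (dt t N l) *
      π (1 + t * (r ⬝ᵥ (Ring.inverse (1 + t • rowsIn N l) *ᵥ
        (fun b => if b ∈ l then c b else 0)))) := by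
  induction l with
  | nil =>
    have h0 : (fun b : A => if b ∈ ([] : List A) then c b else 0) = 0 := by
      funext b
      simp
    rw [h0, Matrix.mulVec_zero, dotProduct_zero, mul_zero, add_zero, map_one, mul_one]
    rfl
  | cons a l ih =>
    have ha : a ∉ l := (List.nodup_cons.1 hl).1
    have ih := ih (List.nodup_cons.1 hl).2
    set K := Ring.inverse (1 + t • rowsIn N l) with hK
    set c' : A → Λ := fun b => if b ∈ l then c b else 0 with hc'
    set e : A → Λ := Pi.single a 1 with he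
    have hcl : (fun b => if b ∈ a :: l then c b else 0) = c' + fun b => e b * c a := by
      funext b
      simp only [hc', he, List.mem_cons, Pi.add_apply]
      by_cases hb : b = a
      · subst hb
        simp [ha]
      · simp [hb]
    set α : Λ := 1 + t * (r ⬝ᵥ (K *ᵥ c')) with hα
    set β : Λ := 1 + t * (N a ⬝ᵥ (K *ᵥ e)) with hβ
    have hαu : IsUnit α := isUnit_one_add' t ht hn _
    have hβu : IsUnit β := isUnit_one_add' t ht hn _
    set p : Λ := t * (r ⬝ᵥ (K *ᵥ e)) with hp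
    set s : Λ := t * (N a ⬝ᵥ (K *ᵥ c')) with hs
    -- the new factor on the left
    have hL : 1 + t * ((N + vecMulVec c r) *
        Ring.inverse (1 + t • rowsIn (N + vecMulVec c r) l)) a a =
        β - (s - c a) * Ring.inverse α * p := by
      rw [C2_diag, C2_rowsIn_add, C2_bil_update t ht hn]
      have hrow : (N + vecMulVec c r) a = N a + fun b => c a * r b := by
        funext b
        simp [vecMulVec_apply]
      rw [hrow, add_dotProduct, add_dotProduct, C2_dot_mul_left, C2_dot_mul_left, ← hK, ← hc',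
        ← he, ← hα]
      have e1 : t * (c a * (r ⬝ᵥ (K *ᵥ c'))) = c a * (α - 1) := by
        rw [hα, add_sub_cancel_left, ← mul_assoc, ht, mul_assoc]
      have e2 : t * (c a * (r ⬝ᵥ (K *ᵥ e))) = c a * p := by
        rw [hp, ← mul_assoc, ht, mul_assoc]
      have e3 : c a * (α - 1) * Ring.inverse α * p = c a * p - c a * Ring.inverse α * p := by
        rw [mul_sub, mul_one, sub_mul, sub_mul, mul_assoc (c a) α, Ring.mul_inverse_cancel _ hαu,
          mul_one]
      have e4 : t * (t * ((N a ⬝ᵥ (K *ᵥ c') + c a * (r ⬝ᵥ (K *ᵥ c'))) * Ring.inverse α *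
          (r ⬝ᵥ (K *ᵥ e)))) = (s + c a * (α - 1)) * Ring.inverse α * p := by
        rw [← e1, hs, ← mul_add, hp]
        have : ∀ x y : Λ, t * (t * (x * y)) = t * x * (t * y) := by
          intro x y
          rw [mul_assoc t x, ← mul_assoc x, ← ht x, mul_assoc t x]
        rw [this, ← mul_assoc t]
      rw [mul_sub, e4, mul_add, e2, add_mul, add_mul, e3, sub_mul, sub_mul, hβ]
      abel
    -- the second factor on the right
    have hR : 1 + t * (r ⬝ᵥ (Ring.inverse (1 + t • rowsIn N (a :: l)) *ᵥ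
        (fun b => if b ∈ a :: l then c b else 0))) = α - p * Ring.inverse β * (s - c a) := by
      rw [hcl, C2_rowsIn_cons N a l ha, C2_bil_update t ht hn, ← hK, ← he, ← hβ,
        Matrix.mulVec_add, dotProduct_add, dotProduct_add, C2_mulVec_mul, C2_dot_mul, C2_dot_mul]
      have e1 : t * ((N a ⬝ᵥ (K *ᵥ e)) * c a) = (β - 1) * c a := by
        rw [hβ, add_sub_cancel_left, mul_assoc]
      have e2 : t * ((r ⬝ᵥ (K *ᵥ e)) * c a) = p * c a := by
        rw [hp, mul_assoc]
      have e3 : p * Ring.inverse β * ((β - 1) * c a) = p * c a - p * Ring.inverse β * c a := by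
        rw [sub_mul, one_mul, mul_sub, ← mul_assoc (p * Ring.inverse β) β, mul_assoc p,
          Ring.inverse_mul_cancel _ hβu, mul_one]
      have e4 : t * (t * ((r ⬝ᵥ (K *ᵥ e)) * Ring.inverse β *
          (N a ⬝ᵥ (K *ᵥ c') + (N a ⬝ᵥ (K *ᵥ e)) * c a))) =
          p * Ring.inverse β * (s + (β - 1) * c a) := by
        rw [← e1, hs, ← mul_add, hp]
        have : ∀ x y : Λ, t * (t * (x * y)) = t * x * (t * y) := by
          intro x y
          rw [mul_assoc t x, ← mul_assoc x, ← ht x, mul_assoc t x]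
        rw [this, ← mul_assoc t]
      rw [mul_sub, e4, mul_add, e2, mul_add (p * Ring.inverse β), e3, mul_sub (p * Ring.inverse β),
        hα]
      abel
    have hdt : ∀ N' : Matrix A A Λ, dt t N' (a :: l) = dt t N' l *
        (1 + t * (N' * Ring.inverse (1 + t • rowsIn N' l)) a a) := fun N' => rfl
    rw [hR, hdt, hL, map_mul, ih, hdt, C2_diag, ← hK, ← he, ← hβ, map_mul,
      mul_assoc (π (dt t N l)), C2_core π hπ hαu hβu, ← mul_assoc (π (dt t N l))]

end Pool.PI34.BA
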