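import Pool.Agent.LibPI34.BA_C2

/-! PI34, block BA, file C3: independence of the decomposition, conjugation invariance. -/

set_option autoImplicit false

namespace Pool.PI34.BA

open Equiv Finset Matrix

variable {A Λ : Type*} [Fintype A] [DecidableEq A] [Ring Λ] {M : Type*} [CommMonoid M]

/-- the closing determinant of the decomposition `Σ_j c_j r_j` -/
noncomputable def dtDec {J : Type*} (t : Λ) (c r : J → A → Λ) : List J → Λ
  | [] => 1
  | j :: js => dtDec t c r js * (1 + t * (r j ⬝ᵥ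
      (Ring.inverse (1 + t • (js.map fun i => vecMulVec (c i) (r i)).sum) *ᵥ c j)))

/-- the list `l` is complete: `rowsIn N l = N` -/
theorem rowsIn_complete (N : Matrix A A Λ) (l : List A) (hl : ∀ a, a ∈ l) :
    rowsIn N l = N := by
  ext a b
  simp [rowsIn, hl]

theorem C3_dt_zero (t : Λ) (l : List A) : dt t (0 : Matrix A A Λ) l = 1 := by
  induction l with
  | nil => rfl
  | cons a l ih => simp [dt, ih]

/-- from `dt_rank_one`, induction on `js` (`dt t 0 l` has trivial value: all the factors are `1 + t * 0`) -/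
theorem dt_eq_dtDec {J : Type*} (π : Λ →* M) (hπ : ∀ x y, π (1 + x * y) = π (1 + y * x)) (t : Λ)
    (ht : ∀ x, t * x = x * t) (hn : IsNilpotent t) (c r : J → A → Λ) (js : List J)
    (l : List A) (hl : l.Nodup) (hc : ∀ a, a ∈ l) :
    π (dt t (js.map fun i => vecMulVec (c i) (r i)).sum l) = π (dtDec t c r js) := by
  induction js with
  | nil => simp [C3_dt_zero, dtDec]
  | cons j js ih =>
    rw [List.map_cons, List.sum_cons, add_comm, dt_rank_one π hπ t ht hn _ (c j) (r j) l hl, ih,
      rowsIn_complete _ l hc, dtDec, map_mul]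
    simp only [hc, if_true]

theorem C3_inverse_conj {R : Type*} [Ring R] (h h' X : R) (h1 : h * h' = 1) (h2 : h' * h = 1)
    (hX : IsUnit X) : Ring.inverse (h * X * h') = h * Ring.inverse X * h' := by
  obtain ⟨u, rfl⟩ := hX
  have e1 : h * (u : R) * h' * (h * ((u⁻¹ : Rˣ) : R) * h') = 1 := by
    calc h * (u : R) * h' * (h * ((u⁻¹ : Rˣ) : R) * h')
        = h * ((u : R) * (h' * h) * ((u⁻¹ : Rˣ) : R)) * h' := by simp only [mul_assoc]
      _ = 1 := by rw [h2, mul_one, Units.mul_inv, mul_one, h1]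
  have e2 : h * ((u⁻¹ : Rˣ) : R) * h' * (h * (u : R) * h') = 1 := by
    calc h * ((u⁻¹ : Rˣ) : R) * h' * (h * (u : R) * h')
        = h * (((u⁻¹ : Rˣ) : R) * (h' * h) * (u : R)) * h' := by simp only [mul_assoc]
      _ = 1 := by rw [h2, mul_one, Units.inv_mul, mul_one, h1]
  have e3 : Ring.inverse ((⟨_, _, e1, e2⟩ : Rˣ) : R) = _ := Ring.inverse_unit _
  rw [Ring.inverse_unit]
  exact e3

theorem C3_smul_conj (t : Λ) (ht : ∀ x, t * x = x * t) (S h h' : Matrix A A Λ) :
    t • (h * S * h') = h * (t • S) * h' := by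
  have e : ∀ B : Matrix A A Λ, t • (h * B) = h * (t • B) := by
    intro B
    ext i j
    rw [Matrix.smul_apply, Matrix.mul_apply, Matrix.mul_apply, smul_eq_mul, Finset.mul_sum]
    refine Finset.sum_congr rfl fun k _ => ?_
    rw [Matrix.smul_apply, smul_eq_mul]
    rw [← mul_assoc, ht, mul_assoc]
  rw [Matrix.mul_assoc, e, ← smul_mul_assoc, Matrix.mul_assoc]

theorem C3_conj_sum {J : Type*} (c r : J → A → Λ) (h h' : Matrix A A Λ) (js : List J) :
    (js.map fun i => vecMulVec (h *ᵥ c i) (r i ᵥ* h')).sum =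
      h * (js.map fun i => vecMulVec (c i) (r i)).sum * h' := by
  induction js with
  | nil => simp
  | cons j js ih =>
    rw [List.map_cons, List.sum_cons, ih, List.map_cons, List.sum_cons, Matrix.mul_add,
      Matrix.add_mul, Matrix.mul_vecMulVec, Matrix.vecMulVec_mul]

theorem C3_dtDec_conj {J : Type*} (t : Λ) (ht : ∀ x, t * x = x * t) (hn : IsNilpotent t)
    (c r : J → A → Λ) (h h' : Matrix A A Λ) (h1 : h * h' = 1) (h2 : h' * h = 1) (js : List J) :
    dtDec t (fun i => h *ᵥ c i) (fun i => r i ᵥ* h') js = dtDec t c r js := by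
  induction js with
  | nil => rfl
  | cons j js ih =>
    rw [dtDec, dtDec, ih]
    congr 3
    rw [C3_conj_sum]
    set S := (js.map fun i => vecMulVec (c i) (r i)).sum
    have e : (1 : Matrix A A Λ) + t • (h * S * h') = h * (1 + t • S) * h' := by
      rw [C3_smul_conj t ht, Matrix.mul_add, Matrix.add_mul, Matrix.mul_one, h1]
    rw [e, C3_inverse_conj h h' _ h1 h2 (isUnit_one_add t ht hn S), ← dotProduct_mulVec,
      mulVec_mulVec, mulVec_mulVec]
    have e2 : h' * (h * Ring.inverse (1 + t • S) * h') * h = Ring.inverse (1 + t • S) := by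
      calc h' * (h * Ring.inverse (1 + t • S) * h') * h
          = (h' * h) * Ring.inverse (1 + t • S) * (h' * h) := by simp only [Matrix.mul_assoc]
        _ = _ := by rw [h2, Matrix.one_mul, Matrix.mul_one]
    rw [e2]

theorem C3_decomp (N : Matrix A A Λ) (l : List A) (hl : l.Nodup) (hc : ∀ a, a ∈ l) :
    (l.map fun a => vecMulVec (Pi.single a (1 : Λ)) (N a)).sum = N := by
  rw [← List.sum_toFinset _ hl]
  have hu : l.toFinset = univ := by
    ext a
    simp [hc]
  rw [hu]
  ext x y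
  simp [Matrix.sum_apply, vecMulVec_apply, Pi.single_apply]

/-- `Dt(h N h⁻¹) = Dt(N)`.  PROOF.  `N = Σ_a e_a N_a`, `h N h' = Σ_a (h e_a)(N_a h')`; the factors of
`dtDec` are the same for the two decompositions: `N_a h' (1 + t h N_{js} h')⁻¹ h e_a = N_a M⁻¹ e_a`. -/
theorem dt_conj (π : Λ →* M) (hπ : ∀ x y, π (1 + x * y) = π (1 + y * x)) (t : Λ)
    (ht : ∀ x, t * x = x * t) (hn : IsNilpotent t) (N h h' : Matrix A A Λ) (h1 : h * h' = 1)
    (h2 : h' * h = 1) (l : List A) (hl : l.Nodup) (hc : ∀ a, a ∈ l) :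
    π (dt t (h * N * h') l) = π (dt t N l) := by
  have e1 := dt_eq_dtDec π hπ t ht hn (fun a => Pi.single a (1 : Λ)) (fun a => N a) l l hl hc
  have e2 := dt_eq_dtDec π hπ t ht hn (fun a => h *ᵥ Pi.single a (1 : Λ)) (fun a => N a ᵥ* h') l l
    hl hc
  rw [C3_conj_sum, C3_dtDec_conj t ht hn _ _ h h' h1 h2] at e2
  rw [C3_decomp N l hl hc] at e1 e2
  rw [e1, e2]

end Pool.PI34.BA
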