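import Pool.Agent.LibPI34.BA_C1

/-! PI34, block BA, file C4: the open string under conjugation and rank one updates. -/

set_option autoImplicit false

namespace Pool.PI34.BA

open Equiv Finset Matrix

variable {A Λ : Type*} [Fintype A] [DecidableEq A] [Ring Λ]

/-- `qq` with vectors: `q = B_00 - t R M⁻¹ C`, `R = B_0. X`, `C = B_.0`, `M = 1 + t B_A X`. -/
theorem qq_eq (t : Λ) (x : A → Λ) (B : Matrix (Option A) (Option A) Λ) :
    qq t x B = B none none - t * ((fun a => B none (some a) * x a) ⬝ᵥ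
      (Ring.inverse (1 + t • BX x B) *ᵥ fun b => B (some b) none)) := by
  unfold qq
  congr 2
  simp only [dotProduct, mulVec, Finset.mul_sum, mul_assoc]

omit [DecidableEq A] in
theorem C4_sum_option {M : Type*} [AddCommMonoid M] (f : Option A → M) :
    ∑ a, f a = f none + ∑ a, f (some a) := Fintype.sum_option f

theorem C4_some_some (B : Matrix (Option A) (Option A) Λ) (h h' : Matrix A A Λ) (a b : A) :
    (optDiag h * B * optDiag h') (some a) (some b) =
      (h * (Matrix.of fun a b => B (some a) (some b)) * h') a b := by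
  simp only [Matrix.mul_apply, C4_sum_option, optDiag, Matrix.of_apply, mul_zero, zero_mul,
    zero_add]

theorem C4_none_none (B : Matrix (Option A) (Option A) Λ) (h h' : Matrix A A Λ) :
    (optDiag h * B * optDiag h') none none = B none none := by
  simp only [Matrix.mul_apply, C4_sum_option, optDiag, Matrix.of_apply, mul_zero, zero_mul,
    one_mul, mul_one, Finset.sum_const_zero, add_zero]

theorem C4_none_some (B : Matrix (Option A) (Option A) Λ) (h h' : Matrix A A Λ) (a : A) :
    (optDiag h * B * optDiag h') none (some a) = ∑ d, B none (some d) * h' d a := by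
  simp only [Matrix.mul_apply, C4_sum_option, optDiag, Matrix.of_apply, mul_zero, zero_mul,
    one_mul, mul_one, Finset.sum_const_zero, add_zero, zero_add]

theorem C4_some_none (B : Matrix (Option A) (Option A) Λ) (h h' : Matrix A A Λ) (a : A) :
    (optDiag h * B * optDiag h') (some a) none = ∑ c, h a c * B (some c) none := by
  simp only [Matrix.mul_apply, C4_sum_option, optDiag, Matrix.of_apply, mul_zero, zero_mul,
    one_mul, mul_one, Finset.sum_const_zero, add_zero, zero_add]

/-- `(h B h')_A X = h (B_A X) h'` if `h'` commutes with `X` -/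
theorem BX_conj (x : A → Λ) (B : Matrix (Option A) (Option A) Λ) (h h' : Matrix A A Λ)
    (hx : ∀ a b, h' a b * x b = x a * h' a b) :
    BX x (optDiag h * B * optDiag h') = h * BX x B * h' := by
  ext a b
  have e : BX x (optDiag h * B * optDiag h') a b =
      (optDiag h * B * optDiag h') (some a) (some b) * x b := rfl
  rw [e, C4_some_some]
  simp only [Matrix.mul_apply, BX, Matrix.of_apply, Finset.sum_mul]
  refine Finset.sum_congr rfl fun d _ => Finset.sum_congr rfl fun c _ => ?_
  rw [mul_assoc, hx d b, ← mul_assoc, mul_assoc (h a c)]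

/-- `q(h B h⁻¹) = q(B)` -/
theorem qq_conj (t : Λ) (ht : ∀ x, t * x = x * t) (hn : IsNilpotent t) (x : A → Λ)
    (B : Matrix (Option A) (Option A) Λ) (h h' : Matrix A A Λ) (h1 : h * h' = 1) (h2 : h' * h = 1)
    (hx : ∀ a b, h' a b * x b = x a * h' a b) :
    qq t x (optDiag h * B * optDiag h') = qq t x B := by
  obtain ⟨M, hM⟩ : ∃ M, M = 1 + t • BX x B := ⟨_, rfl⟩
  have hu : IsUnit M := hM ▸ isUnit_one_add t ht hn (BX x B)
  have hM' : 1 + t • BX x (optDiag h * B * optDiag h') = h * M * h' := by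
    rw [BX_conj x B h h' hx, hM, mul_add, add_mul, mul_one, h1]
    congr 1
    ext a b
    simp only [Matrix.smul_apply, Matrix.mul_apply, smul_eq_mul, Finset.sum_mul, Finset.mul_sum]
    refine Finset.sum_congr rfl fun d _ => Finset.sum_congr rfl fun c _ => ?_
    rw [← mul_assoc t, ← mul_assoc t, ht (h a c), mul_assoc (h a c) t]
  have hinv : Ring.inverse (h * M * h') = h * Ring.inverse M * h' := by
    have e1 : h * M * h' * (h * Ring.inverse M * h') = 1 := by
      rw [show h * M * h' * (h * Ring.inverse M * h') =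
        h * M * (h' * h) * (Ring.inverse M * h') by simp only [mul_assoc], h2, mul_one,
        show h * M * (Ring.inverse M * h') = h * (M * Ring.inverse M) * h' by
          simp only [mul_assoc], Ring.mul_inverse_cancel _ hu, mul_one, h1]
    have e2 : h * Ring.inverse M * h' * (h * M * h') = 1 := by
      rw [show h * Ring.inverse M * h' * (h * M * h') =
        h * Ring.inverse M * (h' * h) * (M * h') by simp only [mul_assoc], h2, mul_one,
        show h * Ring.inverse M * (M * h') = h * (Ring.inverse M * M) * h' by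
          simp only [mul_assoc], Ring.inverse_mul_cancel _ hu, mul_one, h1]
    exact Ring.inverse_unit (⟨h * M * h', h * Ring.inverse M * h', e1, e2⟩ : (Matrix A A Λ)ˣ)
  rw [qq_eq, qq_eq, C4_none_none, hM', hinv, ← hM]
  congr 2
  have e1 : (fun a => (optDiag h * B * optDiag h') none (some a) * x a) =
      (fun a => B none (some a) * x a) ᵥ* h' := by
    ext a
    rw [C4_none_some, Finset.sum_mul]
    simp only [vecMul, dotProduct]
    refine Finset.sum_congr rfl fun d _ => ?_
    rw [mul_assoc, hx d a, mul_assoc]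
  have e2 : (fun b => (optDiag h * B * optDiag h') (some b) none) =
      h *ᵥ (fun b => B (some b) none) := by
    ext a
    rw [C4_some_none]
    rfl
  rw [e1, e2, mulVec_mulVec, mul_assoc, mul_assoc, h2, mul_one, ← dotProduct_mulVec,
    mulVec_mulVec, ← mul_assoc, h2, one_mul]

theorem BX_add (x : A → Λ) (B : Matrix (Option A) (Option A) Λ) (u v : Option A → Λ) :
    BX x (B + vecMulVec u v) = BX x B +
      vecMulVec (fun a => u (some a)) (fun b => v (some b) * x b) := by
  ext a b
  simp only [BX, Matrix.of_apply, Matrix.add_apply, vecMulVec_apply, add_mul, mul_assoc]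

omit [Fintype A] [DecidableEq A] in
theorem C4_alg (t u v a1 a2 a3 h γ b : Λ) (ht : ∀ x, t * x = x * t) (h1 : (1 + t * h) * γ = 1)
    (h2 : γ * (1 + t * h) = 1) :
    b + u * v - t * (a1 + a2 * v + (u * a3 + u * h * v) -
      t * ((a2 + u * h) * γ * (a3 + h * v))) =
      b - t * a1 + (u - t * a2) * γ * (v - t * a3) := by
  have mv : ∀ a b, a * (t * b) = t * (a * b) := fun a b => by
    rw [← mul_assoc, ← ht a, mul_assoc]
  have g1 : γ = 1 - t * (h * γ) := by
    rw [add_mul, one_mul, mul_assoc] at h1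
    exact eq_sub_of_add_eq h1
  have g2 : γ = 1 - t * (γ * h) := by
    rw [mul_add, mul_one, mv] at h2
    exact eq_sub_of_add_eq h2
  have k1 : u * γ * a3 = u * a3 - t * (u * (h * (γ * a3))) := by
    conv_lhs => rw [g1]
    rw [mul_sub, sub_mul, mul_one, mv, mul_assoc t, mul_assoc u, mul_assoc h]
  have k2 : a2 * γ * v = a2 * v - t * (a2 * (γ * (h * v))) := by
    conv_lhs => rw [g2]
    rw [mul_sub, sub_mul, mul_one, mv, mul_assoc t, mul_assoc a2, mul_assoc γ]
  have k3 : u * γ * v = u * v - t * (u * (h * v)) + t * (t * (u * (h * (γ * (h * v))))) := by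
    have : u * h * γ * v = u * h * v - t * (u * h * (γ * (h * v))) := by
      conv_lhs => rw [g2]
      rw [mul_sub, sub_mul, mul_one, mv, mul_assoc t, mul_assoc (u * h), mul_assoc γ]
    conv_lhs => rw [g1]
    rw [mul_sub, sub_mul, mul_one, mv, mul_assoc t, ← mul_assoc u h γ, this, mul_sub, sub_add]
    simp only [mul_assoc]
  have r1 : (u - t * a2) * γ * (v - t * a3) =
      u * γ * v - t * (u * γ * a3) - t * (a2 * γ * v) + t * (t * (a2 * γ * a3)) := by
    rw [sub_mul, sub_mul, mul_sub, mul_sub, mv, mul_assoc t a2, mul_assoc t (a2 * γ),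
      mul_assoc t (a2 * γ), mv]
    abel
  rw [r1, k1, k2, k3]
  simp only [mul_add, add_mul, mul_sub, mul_assoc]
  abel

/-- rank one update of the open string.  `R = B_0. X`, `C = B_.0`, `M = 1 + t B_A X`, `r = v_A X`, `c = u_A`,
`h = r M⁻¹ c`, `γ = (1 + t h)⁻¹`:  `q(B + u v) = q(B) + (u_0 - t R M⁻¹ c) γ (v_0 - t r M⁻¹ C)`.
(Use `inverse_add_vecMulVec`, and `t h γ = γ t h = 1 - γ`.) -/
theorem qq_add (t : Λ) (ht : ∀ x, t * x = x * t) (hn : IsNilpotent t) (x : A → Λ)
    (B : Matrix (Option A) (Option A) Λ) (u v : Option A → Λ) :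
    qq t x (B + vecMulVec u v) = qq t x B +
      (u none - t * ((fun a => B none (some a) * x a) ⬝ᵥ
        (Ring.inverse (1 + t • BX x B) *ᵥ fun b => u (some b)))) *
      Ring.inverse (1 + t * ((fun b => v (some b) * x b) ⬝ᵥ
        (Ring.inverse (1 + t • BX x B) *ᵥ fun b => u (some b)))) *
      (v none - t * ((fun b => v (some b) * x b) ⬝ᵥ
        (Ring.inverse (1 + t • BX x B) *ᵥ fun b => B (some b) none))) := by
  rw [qq_eq, qq_eq, BX_add, inverse_add_vecMulVec t ht hn]
  obtain ⟨K, hK⟩ : ∃ K, K = Ring.inverse (1 + t • BX x B) := ⟨_, rfl⟩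
  rw [← hK]
  obtain ⟨c, hc⟩ : ∃ c : A → Λ, c = fun a => u (some a) := ⟨_, rfl⟩
  obtain ⟨r, hr⟩ : ∃ r : A → Λ, r = fun b => v (some b) * x b := ⟨_, rfl⟩
  obtain ⟨C, hC⟩ : ∃ C : A → Λ, C = fun b => B (some b) none := ⟨_, rfl⟩
  obtain ⟨R, hR⟩ : ∃ R : A → Λ, R = fun a => B none (some a) * x a := ⟨_, rfl⟩
  have hR' : (fun a => (B + vecMulVec u v) none (some a) * x a) = R + fun a => u none * r a := by
    ext a
    rw [hR, hr]
    simp only [Matrix.add_apply, vecMulVec_apply, Pi.add_apply, add_mul, mul_assoc]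
  have hC' : (fun b => (B + vecMulVec u v) (some b) none) = C + fun a => c a * v none := by
    ext a
    rw [hC, hc]
    simp only [Matrix.add_apply, vecMulVec_apply, Pi.add_apply]
  have h0 : (B + vecMulVec u v) none none = B none none + u none * v none := by
    simp only [Matrix.add_apply, vecMulVec_apply]
  rw [hR', hC', h0, ← hc, ← hr, ← hC, ← hR]
  have hu := isUnit_one_add' t ht hn (r ⬝ᵥ (K *ᵥ c))
  obtain ⟨γ, hγ⟩ : ∃ γ, γ = Ring.inverse (1 + t * (r ⬝ᵥ (K *ᵥ c))) := ⟨_, rfl⟩
  have h1 : (1 + t * (r ⬝ᵥ (K *ᵥ c))) * γ = 1 := hγ ▸ Ring.mul_inverse_cancel _ hu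
  have h2 : γ * (1 + t * (r ⬝ᵥ (K *ᵥ c))) = 1 := hγ ▸ Ring.inverse_mul_cancel _ hu
  rw [← hγ]
  rw [← C4_alg t (u none) (v none) (R ⬝ᵥ (K *ᵥ C)) (R ⬝ᵥ (K *ᵥ c)) (r ⬝ᵥ (K *ᵥ C))
    (r ⬝ᵥ (K *ᵥ c)) γ (B none none) ht h1 h2]
  congr 2
  have l1 : ∀ (a : Λ) (f g : A → Λ), (fun i => a * f i) ⬝ᵥ g = a * (f ⬝ᵥ g) := by
    intro a f g
    simp only [dotProduct, Finset.mul_sum, mul_assoc]
  have l2 : ∀ (a : Λ) (f g : A → Λ), f ⬝ᵥ (fun i => g i * a) = (f ⬝ᵥ g) * a := by
    intro a f g
    simp only [dotProduct, Finset.sum_mul, mul_assoc]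
  have l3 : ∀ (a : Λ) (f : A → Λ), (K *ᵥ fun i => f i * a) = fun i => (K *ᵥ f) i * a := by
    intro a f
    ext i
    simp only [mulVec, dotProduct, Finset.sum_mul, mul_assoc]
  have l4 : ∀ (f : A → Λ), r ᵥ* K ⬝ᵥ f = r ⬝ᵥ (K *ᵥ f) := fun f =>
    (dotProduct_mulVec r K f).symm
  have l5 : ∀ (f g w : A → Λ), (vecMulVec f g) *ᵥ w = fun i => f i * (g ⬝ᵥ w) := by
    intro f g w
    ext i
    simp only [mulVec, dotProduct, vecMulVec_apply, Finset.mul_sum, mul_assoc]
  have l6 : ∀ (f g : A → Λ), f ⬝ᵥ (t • g) = t * (f ⬝ᵥ g) := by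
    intro f g
    simp only [dotProduct, Finset.mul_sum, Pi.smul_apply, smul_eq_mul]
    refine Finset.sum_congr rfl fun i _ => ?_
    rw [← mul_assoc, ← ht, mul_assoc]
  have l7 : (K - t • vecMulVec (fun a => (K *ᵥ c) a * γ) (r ᵥ* K)) *ᵥ
      (C + fun a => c a * v none) = (K *ᵥ C + fun i => (K *ᵥ c) i * v none) -
      t • fun i => (K *ᵥ c) i * (γ * (r ⬝ᵥ (K *ᵥ C) + r ⬝ᵥ (K *ᵥ c) * v none)) := by
    rw [sub_mulVec, mulVec_add, l3, smul_mulVec, l5, dotProduct_add, l2, l4, l4]
    simp only [mul_assoc]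
  rw [l7, dotProduct_sub, l6, l2, add_dotProduct, l1, dotProduct_add, dotProduct_add, l2, l2,
    add_dotProduct, l1]
  simp only [mul_add, mul_assoc, add_mul]

end Pool.PI34.BA
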