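import Pool.Agent.LibPI34.BA_B4
import Pool.Agent.LibPI34.BA_B5
import Pool.Agent.LibPI34.BA_C3
import Pool.Agent.LibPI34.BA_C4

/-! PI34, block BA, file C5: invariance and rank bound of `P(B)`. -/

set_option autoImplicit false

namespace Pool.PI34.BA

open Equiv Finset Matrix Polynomial

variable {ι Φ E A : Type} [Fintype ι] [DecidableEq ι] [Ring Φ] [Ring E] (S : Str ι Φ E)
variable [Fintype A] [DecidableEq A]
variable {k : ℕ} (p q : Fin k ↪ ι) (z : ι)

/-- `D a ρ c ω = D a ω ρ c` -/
theorem c5_move (hF : Frame p q z) (a : E) (c : Φ) :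
    a * S.ρ z c * S.om p q = a * S.om p q * S.ρ z c := by
  rw [mul_assoc, rho_om S p q z hF, ← mul_assoc]

/-- (inv)  `P(h B h⁻¹) = P(B)` for `h ∈ GL_A(Φ)` commuting with `X`.
(`exists_quotient`, `dt_conj`, `BX_conj`, `qq_conj`; the scalars commute with `ω`: `rho_om`, `D_om`.) -/
theorem PP_inv (hA : Anti S.s k) (hF : Frame p q z) (t : Φ) (ht : ∀ x, t * x = x * t)
    (hn : IsNilpotent t) (x : A → Φ) (B : Matrix (Option A) (Option A) Φ) (h h' : Matrix A A Φ)
    (h1 : h * h' = 1) (h2 : h' * h = 1) (hx : ∀ a b, h' a b * x b = x a * h' a b) :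
    S.PP p q z t x (optDiag h * B * optDiag h') = S.PP p q z t x B := by
  obtain ⟨M, _, π, hπ, hπ'⟩ := exists_quotient S p q z hA hF
  unfold Str.PP
  rw [qq_conj t ht hn x B h h' h1 h2 hx, BX_conj x B h h' hx, c5_move S p q z hF,
    c5_move S p q z hF]
  congr 1
  refine hπ' _ _ ?_
  exact dt_conj π hπ t ht hn (BX x B) h h' h1 h2 _ (nodup_toList _)
    (fun a => mem_toList.2 (mem_univ a))

/-- rank one update of `P`:  with `d = dt(B_A X)`, `h = r M⁻¹ c`, `u₁ = 1 + t h`,
`P(B + u v) = D(d) D(u₁) ρ(q(B)) ω + D(d) ρ(u_0 - t α) 𝒜(u₁) ρ(v_0 - t β) A_Q`. -/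
theorem PP_add (hA : Anti S.s k) (hF : Frame p q z) (t : Φ) (ht : ∀ x, t * x = x * t)
    (hn : IsNilpotent t) (x : A → Φ) (B : Matrix (Option A) (Option A) Φ) (u v : Option A → Φ)
    (h : Φ) (hh : h = (fun b => v (some b) * x b) ⬝ᵥ
        (Ring.inverse (1 + t • BX x B) *ᵥ fun b => u (some b))) :
    S.PP p q z t x (B + vecMulVec u v) =
      S.D p (fun _ => dt t (BX x B) (univ : Finset A).toList) *
        (S.D p (fun _ => 1 + t * h) * S.ρ z (qq t x B) * S.om p q +
          S.ρ z (u none - t * ((fun a => B none (some a) * x a) ⬝ᵥ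
            (Ring.inverse (1 + t • BX x B) *ᵥ fun b => u (some b)))) *
          S.adj p z (1 + t * h) *
          S.ρ z (v none - t * ((fun b => v (some b) * x b) ⬝ᵥ
            (Ring.inverse (1 + t • BX x B) *ᵥ fun b => B (some b) none))) *
          anti S.s (univ.map q)) := by
  obtain ⟨M, _, π, hπ, hπ'⟩ := exists_quotient S p q z hA hF
  have hz : ∀ i, p i ≠ z := hF.pz
  have hzP : z ∉ univ.map p := by
    intro hz'
    obtain ⟨i, _, hi⟩ := mem_map.1 hz'
    exact hz i hi
  have hzQ : z ∉ univ.map q := by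
    intro hz'
    obtain ⟨i, _, hi⟩ := mem_map.1 hz'
    exact hF.qz i hi
  have hcompl : ∀ a, a ∈ (univ : Finset A).toList := fun a => mem_toList.2 (mem_univ a)
  set l := (univ : Finset A).toList with hl
  set α := u none - t * ((fun a => B none (some a) * x a) ⬝ᵥ
            (Ring.inverse (1 + t • BX x B) *ᵥ fun b => u (some b))) with hα
  set β := v none - t * ((fun b => v (some b) * x b) ⬝ᵥ
            (Ring.inverse (1 + t • BX x B) *ᵥ fun b => B (some b) none)) with hβ
  have hu : IsUnit (1 + t * h) := isUnit_one_add' t ht hn h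
  set γ := Ring.inverse (1 + t * h) with hγ
  have hγu : γ * (1 + t * h) = 1 := Ring.inverse_mul_cancel _ hu
  -- the determinant
  have e1 : π (dt t (BX x (B + vecMulVec u v)) l) = π (dt t (BX x B) l * (1 + t * h)) := by
    rw [BX_add, dt_rank_one π hπ t ht hn _ _ _ l (nodup_toList _), rowsIn_complete _ l hcompl,
      map_mul]
    have : (fun b => if b ∈ l then (fun a => u (some a)) b else 0) = fun a => u (some a) := by
      funext b
      rw [if_pos (hcompl b)]
    rw [this, ← hh]
  have e2 : S.D p (fun _ => dt t (BX x (B + vecMulVec u v)) l) * S.om p q =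
      S.D p (fun _ => dt t (BX x B) l) * S.D p (fun _ => 1 + t * h) * S.om p q := by
    rw [hπ' _ _ e1, ← D_mul S p p.injective]
    rfl
  -- the open string
  have e3 : qq t x (B + vecMulVec u v) = qq t x B + α * γ * β := by
    rw [qq_add t ht hn x B u v, ← hh]
  -- the adjugate
  have e4 : S.ρ z γ * (S.D p (fun _ => 1 + t * h) * anti S.s (univ.map p)) =
      S.adj p z (1 + t * h) := by
    rw [← rho_mul_adj S hA p z hz, ← mul_assoc, ← map_mul, hγu, map_one, one_mul]
  have cD : ∀ (a : Φ) (w : Φ), S.ρ z a * S.D p (fun _ => w) = S.D p (fun _ => w) * S.ρ z a :=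
    fun a w => rho_comm_D S p z hz a _
  have cP : ∀ a : Φ, S.ρ z a * anti S.s (univ.map p) = anti S.s (univ.map p) * S.ρ z a :=
    fun a => rho_comm_anti S z _ hzP a
  have cQ : ∀ a : Φ, S.ρ z a * anti S.s (univ.map q) = anti S.s (univ.map q) * S.ρ z a :=
    fun a => rho_comm_anti S z _ hzQ a
  unfold Str.PP
  rw [← hl, c5_move S p q z hF, e2, e3, map_add, mul_add, mul_add]
  congr 1
  · rw [c5_move S p q z hF]
    simp only [mul_assoc]
  · rw [map_mul, map_mul, ← e4]
    unfold Str.om
    have c1 : S.D p (fun _ => 1 + t * h) * anti S.s (univ.map p) * S.ρ z α =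
        S.ρ z α * (S.D p (fun _ => 1 + t * h) * anti S.s (univ.map p)) := by
      rw [mul_assoc, ← cP, ← mul_assoc, ← cD, mul_assoc]
    have c2 : S.D p (fun _ => 1 + t * h) * anti S.s (univ.map p) * S.ρ z γ =
        S.ρ z γ * (S.D p (fun _ => 1 + t * h) * anti S.s (univ.map p)) := by
      rw [mul_assoc, ← cP, ← mul_assoc, ← cD, mul_assoc]
    set X := S.D p (fun _ => 1 + t * h) * anti S.s (univ.map p) with hX
    set Y := anti S.s (univ.map q) with hY
    have c3 : S.D p (fun _ => dt t (BX x B) l) * S.D p (fun _ => 1 + t * h) *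
        (anti S.s (univ.map p) * Y) * (S.ρ z α * S.ρ z γ * S.ρ z β) =
        S.D p (fun _ => dt t (BX x B) l) * (X * (Y * S.ρ z α) * S.ρ z γ * S.ρ z β) := by
      rw [hX]
      simp only [mul_assoc]
    rw [c3, ← cQ]
    congr 1
    calc X * (S.ρ z α * Y) * S.ρ z γ * S.ρ z β
        = X * S.ρ z α * (Y * S.ρ z γ) * S.ρ z β := by simp only [mul_assoc]
      _ = S.ρ z α * X * (S.ρ z γ * Y) * S.ρ z β := by rw [c1, ← cQ]
      _ = S.ρ z α * (X * S.ρ z γ) * (Y * S.ρ z β) := by simp only [mul_assoc]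
      _ = S.ρ z α * (S.ρ z γ * X) * (S.ρ z β * Y) := by rw [c2, ← cQ]
      _ = S.ρ z α * (S.ρ z γ * X) * S.ρ z β * Y := by simp only [mul_assoc]

/-! ### The polynomial extension -/

theorem c5_central (t : Φ) (ht : ∀ x, t * x = x * t) (y : Φ[X]) : C t * y = y * C t := by
  ext n
  rw [coeff_C_mul, coeff_mul_C, ht]

omit [Fintype A] [DecidableEq A] in
theorem c5_BX (x : A → Φ) (B : Matrix (Option A) (Option A) Φ) :
    BX (fun a => C (x a)) (B.map C) = (BX x B).map C := by
  ext a b : 2
  simp only [BX, Matrix.of_apply, Matrix.map_apply, map_mul]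

theorem c5_inv (t : Φ) (ht : ∀ x, t * x = x * t) (hn : IsNilpotent t) (N : Matrix A A Φ) :
    Ring.inverse (1 + C t • N.map C) = (Ring.inverse (1 + t • N)).map C := by
  have h := map_inverse_of_isUnit (C : Φ →+* Φ[X]).mapMatrix (1 + t • N)
    (isUnit_one_add t ht hn N)
  have h' : (C : Φ →+* Φ[X]).mapMatrix (1 + t • N) = 1 + C t • N.map C := by
    rw [map_add, map_one]
    congr 1
    ext a b : 2
    simp only [RingHom.mapMatrix_apply, Matrix.map_apply, Matrix.smul_apply, smul_eq_mul, map_mul]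
  rw [← h', ← h]
  rfl

theorem c5_rowsIn (N : Matrix A A Φ) (l : List A) :
    rowsIn (N.map (C : Φ →+* Φ[X])) l = (rowsIn N l).map C := by
  refine Matrix.ext fun a b => ?_
  change (if a ∈ l then (C (N a b) : Φ[X]) else 0) = C (if a ∈ l then N a b else 0)
  split_ifs
  · rfl
  · exact (map_zero (C : Φ →+* Φ[X])).symm

theorem c5_dt (t : Φ) (ht : ∀ x, t * x = x * t) (hn : IsNilpotent t) (N : Matrix A A Φ)
    (l : List A) : dt (C t) (N.map (C : Φ →+* Φ[X])) l = C (dt t N l) := by
  induction l with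
  | nil =>
    change (1 : Φ[X]) = C (1 : Φ)
    rw [map_one]
  | cons a l ih =>
    change dt (C t) (N.map (C : Φ →+* Φ[X])) l * (1 + C t * ((N.map (C : Φ →+* Φ[X])) *
      Ring.inverse (1 + C t • rowsIn (N.map (C : Φ →+* Φ[X])) l)) a a) =
      C (dt t N l * (1 + t * (N * Ring.inverse (1 + t • rowsIn N l)) a a))
    rw [ih, c5_rowsIn, c5_inv t ht hn, map_mul, map_add, map_one, map_mul, ← Matrix.map_mul]
    rfl

omit [DecidableEq A] in
theorem c5_mulVec (N : Matrix A A Φ) (w : A → Φ) (a : A) :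
    (N.map (C : Φ →+* Φ[X]) *ᵥ fun b => C (w b)) a = C ((N *ᵥ w) a) := by
  simp only [mulVec, dotProduct, Matrix.map_apply, map_sum, map_mul]

omit [DecidableEq A] in
theorem c5_dot (v w : A → Φ) :
    (fun a => (C (v a) : Φ[X])) ⬝ᵥ (fun a => C (w a)) = C (v ⬝ᵥ w) := by
  simp only [dotProduct, map_sum, map_mul]

theorem c5_qq (t : Φ) (ht : ∀ x, t * x = x * t) (hn : IsNilpotent t) (x : A → Φ)
    (B : Matrix (Option A) (Option A) Φ) :
    qq (C t) (fun a => C (x a)) (B.map (C : Φ →+* Φ[X])) = C (qq t x B) := by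
  unfold qq
  rw [c5_BX, c5_inv t ht hn]
  simp only [Matrix.map_apply, map_sub, map_mul, map_sum]

omit [DecidableEq A] in
/-- the vector `N (X w)` -/
theorem c5_mulVecX (N : Matrix A A Φ) (w : A → Φ) (a : A) :
    (N.map (C : Φ →+* Φ[X]) *ᵥ fun b => X * C (w b)) a = C ((N *ᵥ w) a) * X := by
  simp only [mulVec, dotProduct, Matrix.map_apply, map_sum, map_mul, Finset.sum_mul]
  refine Finset.sum_congr rfl fun b _ => ?_
  rw [X_mul, mul_assoc]

omit [DecidableEq A] in
theorem c5_dotX (N : Matrix A A Φ) (v w : A → Φ) :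
    (fun a => (C (v a) : Φ[X])) ⬝ᵥ (N.map (C : Φ →+* Φ[X]) *ᵥ fun b => X * C (w b)) =
      C (v ⬝ᵥ (N *ᵥ w)) * X := by
  simp only [dotProduct, map_sum, map_mul, Finset.sum_mul]
  refine Finset.sum_congr rfl fun a _ => ?_
  rw [c5_mulVecX, ← mul_assoc]

theorem c5_deg_CX (a : Φ) : (C a * X : Φ[X]).natDegree ≤ 1 :=
  (natDegree_C_mul_le a X).trans natDegree_X_le

theorem c5_deg_rho (i : ι) (w : Φ[X]) : (S.poly.ρ i w).natDegree ≤ w.natDegree :=
  natDegree_map_le

theorem c5_deg_s (σ : Perm ι) : (S.poly.s σ).natDegree = 0 := by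
  have : S.poly.s σ = C (S.s σ) := rfl
  rw [this, natDegree_C]

/-- (rk)  `P(B + X u v)` has degree at most `k` in the polynomial variable `X`.
(`PP_add` for `S.poly`; all the ingredients except the factor `X` of `u` come from `Φ` by `C`;
`1 + t h` has degree `≤ 1`, so `D(1 + t h)` has degree `≤ k` and `𝒜(1 + t h)` degree `≤ k - 1`.) -/
theorem PP_rank (hA : Anti S.s k) (hF : Frame p q z) (t : Φ) (ht : ∀ x, t * x = x * t)
    (hn : IsNilpotent t) (x : A → Φ) (B : Matrix (Option A) (Option A) Φ) (u v : Option A → Φ) :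
    (S.poly.PP p q z (C t) (fun a => C (x a))
      (B.map C + vecMulVec (fun a => X * C (u a)) (fun a => C (v a)))).natDegree ≤ k := by
  have hA' : Anti S.poly.s k := poly_Anti S k hA
  rw [PP_add S.poly p q z hA' hF (C t) (c5_central t ht) (hn.map C) (fun a => C (x a))
    (B.map C) (fun a => X * C (u a)) (fun a => C (v a)) _ rfl, c5_BX, c5_dt t ht hn,
    c5_qq t ht hn, c5_inv t ht hn]
  set N := Ring.inverse (1 + t • BX x B) with hN
  have h1 : (fun b => (C (v (some b)) * C (x b) : Φ[X])) = fun b => C (v (some b) * x b) := by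
    funext b
    rw [map_mul]
  have h2 : (fun a => ((B.map (C : Φ →+* Φ[X])) none (some a) * C (x a) : Φ[X])) =
      fun a => C (B none (some a) * x a) := by
    funext b
    rw [map_mul]
    rfl
  rw [h1, h2, c5_dotX N (fun b => v (some b) * x b) (fun b => u (some b)),
    c5_dotX N (fun a => B none (some a) * x a) (fun b => u (some b)), poly_D_C, poly_om]
  set h := (fun b => v (some b) * x b) ⬝ᵥ (N *ᵥ fun b => u (some b)) with hh
  set r := (fun a => B none (some a) * x a) ⬝ᵥ (N *ᵥ fun b => u (some b)) with hr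
  have h3 : (fun b => (B.map (C : Φ →+* Φ[X])) (some b) none) = fun b => C (B (some b) none) := rfl
  have h4 : (N.map (C : Φ →+* Φ[X]) *ᵥ fun b => C (B (some b) none)) =
      fun a => C ((N *ᵥ fun b => B (some b) none) a) := by
    funext a
    exact c5_mulVec N _ a
  rw [h3, h4, c5_dot, poly_anti]
  have dC : ∀ y : Φ, (C y : Φ[X]).natDegree = 0 := fun y => natDegree_C y
  have d1 : (1 + C t * (C h * X) : Φ[X]).natDegree ≤ 1 := by
    refine (natDegree_add_le _ _).trans (max_le ?_ ?_)
    · rw [natDegree_one]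
      exact Nat.zero_le _
    · rw [← mul_assoc, ← map_mul]
      exact c5_deg_CX _
  have d2 : (X * C (u none) - C t * (C r * X) : Φ[X]).natDegree ≤ 1 := by
    refine (natDegree_sub_le _ _).trans (max_le ?_ ?_)
    · rw [X_mul]
      exact c5_deg_CX _
    · rw [← mul_assoc, ← map_mul]
      exact c5_deg_CX _
  have d3 : (S.poly.D p (fun _ => 1 + C t * (C h * X))).natDegree ≤ k := by
    refine (poly_D_natDegree S p _ (fun _ => 1) (fun _ => d1)).trans ?_
    simp
  have d4 : (S.poly.ρ z (X * C (u none) - C t * (C r * X)) *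
      S.poly.adj p z (1 + C t * (C h * X))).natDegree ≤ k := by
    unfold Str.adj
    rw [Finset.mul_sum]
    refine natDegree_sum_le_of_forall_le _ _ fun j _ => ?_
    have d5 : (S.poly.D p (Function.update (fun _ => 1 + C t * (C h * X)) j 1)).natDegree ≤
        k - 1 := by
      refine (poly_D_natDegree S p _ (Function.update (fun _ => 1) j 0) (fun i => ?_)).trans ?_
      · by_cases hij : i = j
        · subst hij
          rw [Function.update_self, Function.update_self, natDegree_one]
        · rw [Function.update_of_ne hij, Function.update_of_ne hij]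
          exact d1
      · rw [Finset.sum_update_of_mem (mem_univ j), Nat.zero_add, Finset.sum_const, smul_eq_mul,
          mul_one, ← Finset.compl_eq_univ_sdiff, Finset.card_compl, Finset.card_singleton,
          Fintype.card_fin]
    have hk : 1 ≤ k := by
      have := j.isLt
      omega
    rw [poly_anti]
    refine natDegree_mul_le.trans ?_
    have e1 := c5_deg_rho S z (X * C (u none) - C t * (C r * X))
    have e2 : (S.poly.s (swap z (p j)) *
        S.poly.D p (Function.update (fun _ => 1 + C t * (C h * X)) j 1) *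
        C (anti S.s (univ.map p))).natDegree ≤ k - 1 := by
      refine natDegree_mul_le.trans ?_
      rw [natDegree_C, Nat.add_zero]
      refine natDegree_mul_le.trans ?_
      rw [c5_deg_s, Nat.zero_add]
      exact d5
    omega
  refine natDegree_mul_le.trans ?_
  rw [natDegree_C, Nat.zero_add]
  refine (natDegree_add_le _ _).trans (max_le ?_ ?_)
  · refine natDegree_mul_le.trans ?_
    rw [natDegree_C, Nat.add_zero]
    refine natDegree_mul_le.trans ?_
    have e1 := c5_deg_rho S z (C (qq t x B))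
    rw [natDegree_C] at e1
    omega
  · refine natDegree_mul_le.trans ?_
    rw [natDegree_C, Nat.add_zero]
    refine natDegree_mul_le.trans ?_
    have e1 := c5_deg_rho S z (C (v none) - C t * C ((fun b => v (some b) * x b) ⬝ᵥ
      (N *ᵥ fun b => B (some b) none)))
    have e2 : (C (v none) - C t * C ((fun b => v (some b) * x b) ⬝ᵥ
      (N *ᵥ fun b => B (some b) none)) : Φ[X]).natDegree = 0 := by
      rw [← map_mul, ← map_sub, natDegree_C]
    rw [e2] at e1
    omega

end Pool.PI34.BA
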