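import Pool.Agent.LibPI34.BA_C1

/-! PI34, block BA, file C6: naturality of `P(B)`. -/

set_option autoImplicit false

namespace Pool.PI34.BA

open Equiv Finset Matrix

variable {A Λ Λ' : Type*} [Fintype A] [DecidableEq A] [Ring Λ] [Ring Λ']

theorem C6_map_inv (f : Λ →+* Λ') (t : Λ) (ht : ∀ x, t * x = x * t) (hn : IsNilpotent t)
    (N : Matrix A A Λ) : (Ring.inverse (1 + t • N)).map f = Ring.inverse (1 + f t • N.map f) := by
  have h1 := map_inverse_of_isUnit (f.mapMatrix (m := A)) (1 + t • N) (isUnit_one_add t ht hn N)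
  rw [RingHom.mapMatrix_apply] at h1
  rw [h1, map_add, map_one]
  congr 2
  ext i j
  simp [Matrix.smul_apply]

theorem C6_rowsIn (f : Λ →+* Λ') (N : Matrix A A Λ) (l : List A) :
    (rowsIn N l).map f = rowsIn (N.map f) l := by
  ext i j
  simp only [rowsIn, Matrix.map_apply, Matrix.of_apply]
  split_ifs
  · rfl
  · exact map_zero f

theorem map_dt (f : Λ →+* Λ') (t : Λ) (ht : ∀ x, t * x = x * t) (hn : IsNilpotent t)
    (N : Matrix A A Λ) (l : List A) : f (dt t N l) = dt (f t) (N.map f) l := by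
  induction l with
  | nil => simp [dt]
  | cons a l ih =>
    rw [dt, dt, map_mul, ih, map_add, map_one, map_mul]
    have h1 : f ((N * Ring.inverse (1 + t • rowsIn N l)) a a) =
        (N.map f * Ring.inverse (1 + f t • rowsIn (N.map f) l)) a a := by
      rw [← C6_rowsIn, ← C6_map_inv f t ht hn, ← Matrix.map_mul, Matrix.map_apply]
    rw [h1]

theorem C6_BX (f : Λ →+* Λ') (x : A → Λ) (B : Matrix (Option A) (Option A) Λ) :
    (BX x B).map f = BX (fun a => f (x a)) (B.map f) := by
  ext i j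
  simp [BX, Matrix.map_apply]

theorem map_qq (f : Λ →+* Λ') (t : Λ) (ht : ∀ x, t * x = x * t) (hn : IsNilpotent t)
    (x : A → Λ) (B : Matrix (Option A) (Option A) Λ) :
    f (qq t x B) = qq (f t) (fun a => f (x a)) (B.map f) := by
  unfold qq
  rw [← C6_BX, ← C6_map_inv f t ht hn]
  simp only [map_sub, map_mul, map_sum, Matrix.map_apply]

/-- a morphism of string systems maps `P(B)` to `P(B)` -/
theorem map_PP {ι E E' : Type*} [Fintype ι] [DecidableEq ι] [Ring E] [Ring E']
    (S : Str ι Λ E) (S' : Str ι Λ' E') (f : Λ →+* Λ') (g : E →+* E')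
    (hρ : ∀ i a, g (S.ρ i a) = S'.ρ i (f a)) (hs : ∀ σ, g (S.s σ) = S'.s σ)
    {k : ℕ} (p q : Fin k ↪ ι) (z : ι) (t : Λ) (ht : ∀ x, t * x = x * t) (hn : IsNilpotent t)
    (x : A → Λ) (B : Matrix (Option A) (Option A) Λ) :
    g (S.PP p q z t x B) = S'.PP p q z (f t) (fun a => f (x a)) (B.map f) := by
  have hanti : ∀ T : Finset ι, g (anti S.s T) = anti S'.s T := by
    intro T
    unfold anti
    rw [map_sum]
    refine Finset.sum_congr rfl fun σ _ => ?_
    rw [map_zsmul, hs]
  have hD : ∀ w : Fin k → Λ, g (S.D p w) = S'.D p (fun i => f (w i)) := by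
    intro w
    unfold Str.D
    rw [map_list_prod, List.map_ofFn]
    congr 2
    funext i
    exact hρ _ _
  unfold Str.PP Str.om
  rw [map_mul, map_mul, map_mul, hanti, hanti, hD, hρ, map_qq f t ht hn, map_dt f t ht hn, C6_BX]

end Pool.PI34.BA
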