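import Pool.Agent.LibPI34.BA_C1

/-! PI34, block BA, file C7: the value of `P(B)` at a path. -/

set_option autoImplicit false

namespace Pool.PI34.BA

open Equiv Finset Matrix

variable {X : Type*} [Fintype X] [DecidableEq X]

/-- the tail of the edge `e` of the path `none → (w 0, 0) → (w 1, 1) → ... → (w (n-1), n-1) → none` -/
def tail {n : ℕ} (w : Fin n → X) : Fin (n + 1) → Option (X × Fin n) :=
  Fin.cases none fun i => some (w i, i)

/-- the head of the edge `e` -/
def head {n : ℕ} (w : Fin n → X) : Fin (n + 1) → Option (X × Fin n) :=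
  Fin.lastCases none fun i => some (w i, i)

/-- the path matrix `Σ_e b_e E_{tail e, head e}` -/
def pathMat {Λ : Type*} [Ring Λ] {n : ℕ} (w : Fin n → X) (b : Fin (n + 1) → Λ) :
    Matrix (Option (X × Fin n)) (Option (X × Fin n)) Λ :=
  ∑ e, Matrix.single (tail w e) (head w e) (b e)

variable {Λ : Type*} [Ring Λ]

omit [Fintype X] [DecidableEq X] in
theorem c7_head_lt {n : ℕ} (w : Fin n → X) (e : Fin (n + 1)) (h : (e : ℕ) < n) :
    head w e = some (w ⟨e, h⟩, ⟨e, h⟩) := by
  have h1 : e = Fin.castSucc ⟨e, h⟩ := by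
    ext
    rfl
  conv_lhs => rw [h1]
  exact Fin.lastCases_castSucc ..

omit [Fintype X] [DecidableEq X] in
theorem c7_head_last {n : ℕ} (w : Fin n → X) (e : Fin (n + 1)) (h : (e : ℕ) = n) :
    head w e = none := by
  have h1 : e = Fin.last n := by
    ext
    exact h
  rw [h1]
  exact Fin.lastCases_last ..

theorem c7_apply {n : ℕ} (w : Fin n → X) (b : Fin (n + 1) → Λ) (r c : Option (X × Fin n)) :
    pathMat w b r c = ∑ e, if tail w e = r ∧ head w e = c then b e else 0 := by
  unfold pathMat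
  rw [Matrix.sum_apply]
  refine Finset.sum_congr rfl fun e _ => ?_
  rw [Matrix.single_apply]

theorem c7_some {n : ℕ} (w : Fin n → X) (b : Fin (n + 1) → Λ) (a : X × Fin n)
    (c : Option (X × Fin n)) :
    pathMat w b (some a) c = if w a.2 = a.1 ∧ head w a.2.succ = c then b a.2.succ else 0 := by
  rw [c7_apply, Fin.sum_univ_succ]
  have h0 : tail w 0 = none := rfl
  have hs : ∀ i : Fin n, tail w i.succ = some (w i, i) := fun i => rfl
  rw [h0, if_neg (by simp), zero_add, Finset.sum_eq_single a.2]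
  · rw [hs]
    have : (some (w a.2, a.2) = some a) ↔ w a.2 = a.1 := by
      rw [Option.some_inj, Prod.ext_iff]
      simp
    simp only [this]
  · intro i _ hi
    rw [hs, if_neg]
    rintro ⟨h1, -⟩
    rw [Option.some_inj] at h1
    exact hi (by rw [← h1])
  · intro h
    exact absurd (Finset.mem_univ _) h

theorem c7_none {n : ℕ} (w : Fin n → X) (b : Fin (n + 1) → Λ) (c : Option (X × Fin n)) :
    pathMat w b none c = if head w 0 = c then b 0 else 0 := by
  rw [c7_apply, Fin.sum_univ_succ]
  have h0 : tail w 0 = none := rfl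
  have hs : ∀ i : Fin n, tail w i.succ = some (w i, i) := fun i => rfl
  rw [Finset.sum_eq_zero, add_zero, h0]
  · simp
  · intro i _
    rw [hs, if_neg]
    rintro ⟨h1, -⟩
    exact Option.some_ne_none _ h1

/-- `B_A X` is strictly upper triangular -/
theorem c7_upper {n : ℕ} (w : Fin n → X) (b : Fin (n + 1) → Λ) (x : X → Λ) (a c : X × Fin n)
    (h : ¬ a.2 < c.2) : BX (fun a : X × Fin n => x a.1) (pathMat w b) a c = 0 := by
  show pathMat w b (some a) (some c) * x c.1 = 0
  rw [c7_some, if_neg, zero_mul]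
  rintro ⟨-, h2⟩
  rcases lt_or_ge ((a.2.succ : Fin (n + 1)) : ℕ) n with h3 | h3
  · rw [c7_head_lt w _ h3, Option.some_inj] at h2
    apply h
    rw [← h2, Fin.lt_def]
    simp
  · rw [c7_head_last w _ (by have := a.2.succ.isLt; omega)] at h2
    exact absurd h2 (by simp)

/-- the inverse of `1 + t M`, `M` strictly upper triangular, is upper triangular -/
theorem c7_inv {n : ℕ} (t : Λ) (ht : ∀ x, t * x = x * t) (hn : IsNilpotent t)
    (M : Matrix (X × Fin n) (X × Fin n) Λ) (hM : ∀ a c, ¬ a.2 < c.2 → M a c = 0) :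
    ∀ k : ℕ, ∀ a c : X × Fin n, n - (a.2 : ℕ) ≤ k → c.2 < a.2 →
      Ring.inverse (1 + t • M) a c = 0 := by
  intro k
  induction k with
  | zero =>
    intro a c hk
    have := a.2.isLt
    omega
  | succ k ih =>
    intro a c hk hca
    have h1 := Ring.mul_inverse_cancel _ (isUnit_one_add t ht hn M)
    have h2 := congrFun (congrFun h1 a) c
    rw [add_mul, one_mul, Matrix.add_apply, Matrix.smul_mul, Matrix.smul_apply,
      Matrix.mul_apply, Matrix.one_apply_ne (by rintro rfl; exact lt_irrefl _ hca)] at h2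
    have h3 : ∑ j, M a j * Ring.inverse (1 + t • M) j c = 0 := by
      refine Finset.sum_eq_zero fun j _ => ?_
      by_cases hj : a.2 < j.2
      · rw [ih j c (by rw [Fin.lt_def] at hj; omega) (hca.trans hj), mul_zero]
      · rw [hM a j hj, zero_mul]
    rw [h3, smul_zero, add_zero] at h2
    exact h2

/-- PROOF. `N = B_A X` is strictly upper triangular for the second coordinate: `N a b ≠ 0 → a.2 < b.2`.  The
matrices `Y` with `Y a b ≠ 0 → a.2 ≤ b.2` form a subring which contains `(1 + t N_l)⁻¹ = Σ (-t N_l)^i`, and the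
diagonal entries of `N Y` are `0`. -/
theorem dt_path {n : ℕ} (w : Fin n → X) (b : Fin (n + 1) → Λ) (t : Λ) (ht : ∀ x, t * x = x * t)
    (hn : IsNilpotent t) (x : X → Λ) (l : List (X × Fin n)) :
    dt t (BX (fun a : X × Fin n => x a.1) (pathMat w b)) l = 1 := by
  induction l with
  | nil => rfl
  | cons a l ih =>
    rw [dt, ih, one_mul, Matrix.mul_apply]
    have h0 : ∑ j, BX (fun a : X × Fin n => x a.1) (pathMat w b) a j *
        Ring.inverse (1 + t • rowsIn (BX (fun a : X × Fin n => x a.1) (pathMat w b)) l) j a = 0 := by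
      refine Finset.sum_eq_zero fun j _ => ?_
      by_cases hj : a.2 < j.2
      · rw [c7_inv t ht hn (rowsIn (BX (fun a : X × Fin n => x a.1) (pathMat w b)) l)
          (fun r c hrc => ?_) _ j a le_rfl hj, mul_zero]
        unfold rowsIn
        rw [Matrix.of_apply, c7_upper w b x r c hrc, ite_self]
      · rw [c7_upper w b x a j hj, zero_mul]
    rw [h0, mul_zero, add_zero]

theorem c7_central (l : List Λ) (h : ∀ c ∈ l, ∀ y, c * y = y * c) (y : Λ) :
    l.prod * y = y * l.prod := by
  induction l with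
  | nil => simp
  | cons c l ih =>
    rw [List.prod_cons, mul_assoc, ih fun d hd => h d (List.mem_cons_of_mem _ hd), ← mul_assoc,
      h c List.mem_cons_self, mul_assoc]

/-- PROOF. `n = 0`: `q = b_0`.  `n ≥ 1`: the column `y = M⁻¹ C`, `C = b_n e_{n-1}`, has the entries
`y_{(w j, j)} = (-t)^{n-1-j} (∏_{e > j} b_e) x_{w (j+1)} ⋯ x_{w (n-1)}` (check `M y = C`), and
`R = b_0 x_{w 0} e_0ᵀ`. -/
theorem qq_path {n : ℕ} (w : Fin n → X) (b : Fin (n + 1) → Λ) (hb : ∀ e y, b e * y = y * b e)
    (t : Λ) (ht : ∀ x, t * x = x * t) (hn : IsNilpotent t) (x : X → Λ) :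
    qq t (fun a : X × Fin n => x a.1) (pathMat w b) =
      (-t) ^ n * (List.ofFn b).prod * (List.ofFn fun i => x (w i)).prod := by
  have htn : ∀ (m : ℕ) (y : Λ), (-t) ^ m * y = y * (-t) ^ m := by
    intro m y
    have h1 : Commute (-t) y := by
      show -t * y = y * -t
      rw [neg_mul, mul_neg, ht]
    exact (h1.pow_left m).eq
  set β : ℕ → Λ := fun i => ((List.ofFn b).drop i).prod with hβdef
  set ξ : ℕ → Λ := fun i => ((List.ofFn fun i => x (w i)).drop i).prod with hξdef
  have hβc : ∀ (i : ℕ) (y : Λ), β i * y = y * β i := by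
    intro i y
    refine c7_central _ (fun c hc => ?_) y
    have h1 := List.mem_of_mem_drop hc
    rw [List.mem_ofFn] at h1
    obtain ⟨e, rfl⟩ := h1
    exact hb e
  have hβs : ∀ (i : ℕ) (h : i < n + 1), β i = b ⟨i, h⟩ * β (i + 1) := by
    intro i h
    have hl : i < (List.ofFn b).length := by
      rw [List.length_ofFn]
      exact h
    rw [hβdef]
    dsimp only
    rw [List.drop_eq_getElem_cons hl, List.prod_cons, List.getElem_ofFn]
  have hξs : ∀ (i : ℕ) (h : i < n), ξ i = x (w ⟨i, h⟩) * ξ (i + 1) := by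
    intro i h
    have hl : i < (List.ofFn fun i => x (w i)).length := by
      rw [List.length_ofFn]
      exact h
    rw [hξdef]
    dsimp only
    rw [List.drop_eq_getElem_cons hl, List.prod_cons, List.getElem_ofFn]
  have hβn : β (n + 1) = 1 := by
    rw [hβdef]
    dsimp only
    rw [List.drop_of_length_le (by rw [List.length_ofFn]), List.prod_nil]
  have hξn : ξ n = 1 := by
    rw [hξdef]
    dsimp only
    rw [List.drop_of_length_le (by rw [List.length_ofFn]), List.prod_nil]
  have hβ0 : β 0 = (List.ofFn b).prod := rfl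
  have hξ0 : ξ 0 = (List.ofFn fun i => x (w i)).prod := rfl
  rw [← hβ0, ← hξ0]
  -- the entries of the solution
  set f : ℕ → Λ := fun j => (-t) ^ (n - 1 - j) * β (j + 1) * ξ (j + 1) with hfdef
  have hstep : ∀ (m : ℕ) (c y B' Z : Λ), (∀ u, c * u = u * c) → (∀ u, B' * u = u * B') →
      (-t) ^ (m + 1) * (c * B') * (y * Z) = -t * (c * y * ((-t) ^ m * B' * Z)) := by
    intro m c y B' Z hc hB
    have e1 : c * y * ((-t) ^ m * B' * Z) = (-t) ^ m * (c * B') * (y * Z) := by
      calc c * y * ((-t) ^ m * B' * Z) = c * (y * (-t) ^ m) * B' * Z := by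
            simp only [mul_assoc]
        _ = c * ((-t) ^ m * y) * B' * Z := by rw [htn m y]
        _ = (c * (-t) ^ m) * (y * B') * Z := by simp only [mul_assoc]
        _ = ((-t) ^ m * c) * (B' * y) * Z := by rw [hc, hB]
        _ = (-t) ^ m * (c * B') * (y * Z) := by simp only [mul_assoc]
    rw [e1, pow_succ']
    simp only [mul_assoc]
  have hf1 : ∀ i : Fin n, (i : ℕ) + 1 = n → f i = b i.succ := by
    intro i hi
    have h1 : n - 1 - (i : ℕ) = 0 := by omega
    rw [hfdef]
    dsimp only
    have h2 : β ((i : ℕ) + 1 + 1) = 1 := by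
      rw [hi]
      exact hβn
    have h3 : ξ ((i : ℕ) + 1) = 1 := by
      rw [hi]
      exact hξn
    rw [h1, pow_zero, one_mul, h3, mul_one, hβs ((i : ℕ) + 1) (by omega), h2, mul_one]
    rfl
  have hf2 : ∀ (i : Fin n) (h : (i : ℕ) + 1 < n),
      f i = -t * (b i.succ * x (w ⟨i + 1, h⟩) * f (i + 1)) := by
    intro i h
    obtain ⟨m, hm⟩ : ∃ m, n - 1 - (i : ℕ) = m + 1 := ⟨n - 1 - (i : ℕ) - 1, by omega⟩
    have hm' : n - 1 - ((i : ℕ) + 1) = m := by omega
    rw [hfdef]
    dsimp only
    rw [hm, hm', hβs ((i : ℕ) + 1) (by omega), hξs ((i : ℕ) + 1) h]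
    exact hstep m _ _ _ _ (hb _) (hβc _)
  set N := BX (fun a : X × Fin n => x a.1) (pathMat w b) with hNdef
  set yv : X × Fin n → Λ := fun a => if w a.2 = a.1 then f a.2 else 0 with hydef
  have hsum : ∀ a : X × Fin n, ∑ c, N a c * yv c =
      if h : w a.2 = a.1 ∧ (a.2 : ℕ) + 1 < n then
        b a.2.succ * x (w ⟨a.2 + 1, h.2⟩) * f (a.2 + 1) else 0 := by
    intro a
    have hN : ∀ c, N a c = (if w a.2 = a.1 ∧ head w a.2.succ = some c then b a.2.succ else 0) *
        x c.1 := by
      intro c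
      show pathMat w b (some a) (some c) * x c.1 = _
      rw [c7_some]
    split_ifs with h
    · have hh : head w a.2.succ = some (w ⟨a.2 + 1, h.2⟩, ⟨a.2 + 1, h.2⟩) :=
        c7_head_lt w a.2.succ (by simpa using h.2)
      rw [Finset.sum_eq_single (w ⟨a.2 + 1, h.2⟩, ⟨a.2 + 1, h.2⟩)]
      · rw [hN, if_pos ⟨h.1, hh⟩, hydef]
        dsimp only
        rw [if_pos rfl]
      · intro c _ hc
        rw [hN, if_neg, zero_mul, zero_mul]
        rintro ⟨-, h2⟩
        rw [hh, Option.some_inj] at h2
        exact hc h2.symm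
      · intro h'
        exact absurd (Finset.mem_univ _) h'
    · refine Finset.sum_eq_zero fun c _ => ?_
      rw [hN, if_neg, zero_mul, zero_mul]
      rintro ⟨h1, h2⟩
      apply h
      refine ⟨h1, ?_⟩
      by_contra h3
      rw [c7_head_last w _ (by have := a.2.isLt; simp; omega)] at h2
      exact absurd h2 (by simp)
  have hMy : (1 + t • N) *ᵥ yv = fun c => pathMat w b (some c) none := by
    funext a
    rw [Matrix.add_mulVec, Matrix.one_mulVec]
    have e1 : ((t • N) *ᵥ yv) a = t * ∑ c, N a c * yv c := by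
      rw [Matrix.mulVec, dotProduct, Finset.mul_sum]
      refine Finset.sum_congr rfl fun c _ => ?_
      rw [Matrix.smul_apply, smul_eq_mul, mul_assoc]
    rw [Pi.add_apply, e1, hsum, c7_some]
    by_cases h1 : w a.2 = a.1
    · have hy : yv a = f a.2 := by
        rw [hydef]
        dsimp only
        rw [if_pos h1]
      by_cases h2 : (a.2 : ℕ) + 1 < n
      · rw [dif_pos ⟨h1, h2⟩, hy, hf2 a.2 h2, if_neg]
        · rw [neg_mul, neg_add_cancel]
        · rintro ⟨-, h3⟩
          rw [c7_head_lt w _ (by simpa using h2)] at h3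
          exact absurd h3 (by simp)
      · have h3 : (a.2 : ℕ) + 1 = n := by
          have := a.2.isLt
          omega
        rw [dif_neg (fun h => h2 h.2), hy, hf1 a.2 h3, mul_zero, add_zero, if_pos]
        exact ⟨h1, c7_head_last w _ (by simpa using h3)⟩
    · rw [dif_neg (fun h => h1 h.1), if_neg (fun h => h1 h.1), hydef]
      dsimp only
      rw [if_neg h1, mul_zero, add_zero]
  have hy : yv = Ring.inverse (1 + t • N) *ᵥ fun c => pathMat w b (some c) none := by
    rw [← hMy, Matrix.mulVec_mulVec, Ring.inverse_mul_cancel _ (isUnit_one_add t ht hn N),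
      Matrix.one_mulVec]
  have hq : qq t (fun a : X × Fin n => x a.1) (pathMat w b) =
      pathMat w b none none - t * ∑ a, pathMat w b none (some a) * x a.1 * yv a := by
    unfold qq
    congr 2
    refine Finset.sum_congr rfl fun a _ => ?_
    rw [hy, Matrix.mulVec, dotProduct, Finset.mul_sum]
    refine Finset.sum_congr rfl fun c _ => ?_
    rw [mul_assoc]
  rw [hq]
  rcases Nat.eq_zero_or_pos n with hn0 | hn0
  · subst hn0
    rw [c7_none, if_pos (c7_head_last w 0 rfl), Finset.univ_eq_empty, Finset.sum_empty, mul_zero,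
      sub_zero, pow_zero, one_mul, hξn, mul_one, hβs 0 (by omega), hβn, mul_one]
    rfl
  · have h0 : head w 0 = some (w ⟨0, hn0⟩, ⟨0, hn0⟩) := c7_head_lt w 0 hn0
    rw [c7_none, if_neg (by rw [h0]; simp), zero_sub, Finset.sum_eq_single (w ⟨0, hn0⟩, ⟨0, hn0⟩)]
    · rw [c7_none, if_pos h0, hydef]
      dsimp only
      rw [if_pos rfl, hfdef]
      dsimp only
      obtain ⟨m, hm⟩ : ∃ m, n = m + 1 := ⟨n - 1, by omega⟩
      have e2 := hstep m (b 0) (x (w ⟨0, hn0⟩)) (β 1) (ξ 1) (hb _) (hβc _)
      have e3 : n - 1 - 0 = m := by omega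
      rw [e3, hβs 0 (by omega), hξs 0 hn0]
      rw [← hm] at e2
      rw [← neg_mul]
      exact e2.symm
    · intro c _ hc
      rw [c7_none, if_neg, zero_mul, zero_mul]
      intro h2
      rw [h0, Option.some_inj] at h2
      exact hc h2.symm
    · intro h'
      exact absurd (Finset.mem_univ _) h'

/-- hence `P(path) = ρ_z(q(path)) ω` -/
theorem PP_path {ι E : Type*} [Fintype ι] [DecidableEq ι] [Ring E] (S : Str ι Λ E) {k : ℕ}
    (p q : Fin k ↪ ι) (z : ι) {n : ℕ} (w : Fin n → X) (b : Fin (n + 1) → Λ)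
    (hb : ∀ e y, b e * y = y * b e)
    (t : Λ) (ht : ∀ x, t * x = x * t) (hn : IsNilpotent t) (x : X → Λ) :
    S.PP p q z t (fun a : X × Fin n => x a.1) (pathMat w b) =
      S.ρ z ((-t) ^ n * (List.ofFn b).prod * (List.ofFn fun i => x (w i)).prod) * S.om p q := by
  unfold Str.PP Str.D
  rw [dt_path w b t ht hn x, qq_path w b hb t ht hn x]
  simp only [map_one, List.ofFn_const, List.prod_replicate, one_pow, one_mul]

end Pool.PI34.BA
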