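import Pool.Agent.LibPI34.BA_Defs

/-! PI34, block BA, file D0: base change and the coefficient of `t^n`; definitions. -/

set_option autoImplicit false

namespace Pool.PI34.BA

open Equiv Finset Matrix
open scoped TensorProduct

variable {ι Φ E : Type} [Fintype ι] [DecidableEq ι] [Ring Φ] [Ring E]

/-- base change of a string system to `T ⊗ Φ`, `T ⊗ E` -/
noncomputable def Str.base (S : Str ι Φ E) (T : Type) [CommRing T] :
    Str ι (T ⊗[ℤ] Φ) (T ⊗[ℤ] E) where
  ρ i := (Algebra.TensorProduct.map (AlgHom.id ℤ T) (S.ρ i).toIntAlgHom : T ⊗[ℤ] Φ →ₐ[ℤ] T ⊗[ℤ] E)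
  s := ((Algebra.TensorProduct.includeRight : E →ₐ[ℤ] T ⊗[ℤ] E) : E →* T ⊗[ℤ] E).comp S.s
  comm i j hij a b := by
    induction a using TensorProduct.induction_on with
    | zero => simp
    | add x y hx hy => simp only [map_add, add_mul, mul_add, hx, hy]
    | tmul x y =>
      induction b using TensorProduct.induction_on with
      | zero => simp
      | add u v hu hv => simp only [map_add, add_mul, mul_add, hu, hv]
      | tmul u v => simp [Algebra.TensorProduct.tmul_mul_tmul, S.comm i j hij, mul_comm]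
  conj σ i a := by
    induction a using TensorProduct.induction_on with
    | zero => simp
    | add x y hx hy => simp only [map_add, add_mul, mul_add, hx, hy]
    | tmul x y => simp [Algebra.TensorProduct.tmul_mul_tmul, S.conj]

theorem base_rho_tmul (S : Str ι Φ E) (T : Type) [CommRing T] (i : ι) (a : T) (b : Φ) :
    (S.base T).ρ i (a ⊗ₜ b) = a ⊗ₜ S.ρ i b := by
  simp [Str.base]

theorem base_s (S : Str ι Φ E) (T : Type) [CommRing T] (σ : Perm ι) :
    (S.base T).s σ = (1 : T) ⊗ₜ S.s σ := by
  simp [Str.base]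

/-- truncated polynomials `T[t]/(t^(n+1))` -/
abbrev Trunc (T : Type) [CommRing T] (n : ℕ) : Type :=
  Polynomial T ⧸ Ideal.span {(Polynomial.X : Polynomial T) ^ (n + 1)}

/-- the inclusion of the constants -/
noncomputable def inT (T : Type) [CommRing T] (n : ℕ) : T →+* Trunc T n :=
  (Ideal.Quotient.mk _).comp Polynomial.C

/-- the variable `t` -/
noncomputable def tt (T : Type) [CommRing T] (n : ℕ) : Trunc T n :=
  Ideal.Quotient.mk _ Polynomial.X

/-- the coefficient of `t^n` -/
noncomputable def tcoef (T : Type) [CommRing T] (n : ℕ) : Trunc T n →+ T :=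
  QuotientAddGroup.lift (Ideal.span {(Polynomial.X : Polynomial T) ^ (n + 1)}).toAddSubgroup
    (Polynomial.lcoeff T n).toAddMonoidHom (by
      intro a ha
      have ha' : a ∈ Ideal.span {(Polynomial.X : Polynomial T) ^ (n + 1)} := ha
      rw [Ideal.mem_span_singleton] at ha'
      obtain ⟨b, rfl⟩ := ha'
      simp [Polynomial.coeff_X_pow_mul'])

theorem tcoef_mk (T : Type) [CommRing T] (n : ℕ) (f : Polynomial T) :
    tcoef T n (Ideal.Quotient.mk _ f) = f.coeff n := rfl

variable {X : Type} [Fintype X] [DecidableEq X]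

/-- the coefficient of `t^n` of `P(B)`, an element of `T ⊗ E`, for `B` over `T`; index set
`Option (X × Fin n)`, the letter of `(s, j)` is `x s`. -/
noncomputable def PB (S : Str ι Φ E) {k : ℕ} (p q : Fin k ↪ ι) (z : ι) (x : X → Φ) (n : ℕ)
    (T : Type) [CommRing T] (B : Matrix (Option (X × Fin n)) (Option (X × Fin n)) T) :
    T ⊗[ℤ] E :=
  (tcoef T n).toIntLinearMap.rTensor E
    ((S.base (Trunc T n)).PP p q z (tt T n ⊗ₜ 1) (fun a => 1 ⊗ₜ x a.1)
      (B.map fun b => inT T n b ⊗ₜ 1))

/-- monomials in the entries of `B` -/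
abbrev Mon (X : Type) (n : ℕ) : Type := Option (X × Fin n) × Option (X × Fin n) →₀ ℕ

/-- the value of the monomial `ξ` at `B` -/
def evMon {n : ℕ} {T : Type} [CommRing T] (B : Matrix (Option (X × Fin n)) (Option (X × Fin n)) T)
    (ξ : Mon X n) : T :=
  ξ.prod fun ab e => B ab.1 ab.2 ^ e

/-- evaluation at `B` of a polynomial with coefficients in an abelian group `W` -/
noncomputable def evW {W : Type} [AddCommGroup W] {n : ℕ} (P : Mon X n →₀ W) (T : Type) [CommRing T]
    (B : Matrix (Option (X × Fin n)) (Option (X × Fin n)) T) : T ⊗[ℤ] W :=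
  P.sum fun ξ w => evMon B ξ ⊗ₜ w

/-- the exponents allowed: total degree `n + 1`, degree one in the row `none` and in the column `none` -/
def GoodMon {n : ℕ} (ξ : Mon X n) : Prop :=
  (ξ.sum fun _ e => e) = n + 1 ∧ (∑ b, ξ (none, b)) = 1 ∧ (∑ a, ξ (a, none)) = 1

/-- the properties of the family `P_ξ` -/
structure Pkg (X : Type) [Fintype X] [DecidableEq X] (k n : ℕ) (W : Type) [AddCommGroup W] where
  P : Mon X n →₀ W
  deg : ∀ ξ, P ξ ≠ 0 → GoodMon ξ
  inv : ∀ (T : Type) [CommRing T] [Module.Flat ℤ T]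
    (B : Matrix (Option (X × Fin n)) (Option (X × Fin n)) T)
    (h h' : Matrix (X × Fin n) (X × Fin n) T), h * h' = 1 → h' * h = 1 →
    (∀ a b, a.1 ≠ b.1 → h' a b = 0) →
    evW P T (optDiag h * B * optDiag h') = evW P T B
  rank : ∀ (T : Type) [CommRing T] [Module.Flat ℤ T]
    (B : Matrix (Option (X × Fin n)) (Option (X × Fin n)) T) (u v : Option (X × Fin n) → T)
    (j : ℕ), k < j →
    (Polynomial.lcoeff T j).toAddMonoidHom.toIntLinearMap.rTensor W
      (evW P (Polynomial T) (B.map Polynomial.C +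
        vecMulVec (fun a => Polynomial.X * Polynomial.C (u a)) (fun a => Polynomial.C (v a)))) = 0

end Pool.PI34.BA
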