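import Pool.Agent.LibPI34.BA_D0

/-! PI34, block BA, file D1: elementary facts on base change and truncated polynomials. -/

set_option autoImplicit false

namespace Pool.PI34.BA

open Equiv Finset Matrix
open scoped TensorProduct

variable {ι Φ E : Type} [Fintype ι] [DecidableEq ι] [Ring Φ] [Ring E] (S : Str ι Φ E)
variable (T : Type) [CommRing T]

theorem base_anti (A : Finset ι) : anti (S.base T).s A = (1 : T) ⊗ₜ anti S.s A := by
  unfold anti
  rw [TensorProduct.tmul_sum]
  refine Finset.sum_congr rfl fun σ _ => ?_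
  rw [base_s, TensorProduct.tmul_smul]

theorem base_Anti (k : ℕ) (hA : Anti S.s k) : Anti (S.base T).s k := by
  intro A hc
  rw [base_anti, hA A hc, TensorProduct.tmul_zero]

theorem base_om {k : ℕ} (p q : Fin k ↪ ι) : (S.base T).om p q = (1 : T) ⊗ₜ S.om p q := by
  unfold Str.om
  rw [base_anti, base_anti, Algebra.TensorProduct.tmul_mul_tmul, one_mul]

/-- elements of `T` are central in `T ⊗ R` -/
theorem tmul_one_comm {R : Type} [Ring R] (a : T) (y : T ⊗[ℤ] R) :
    (a ⊗ₜ[ℤ] (1 : R)) * y = y * (a ⊗ₜ 1) := by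
  induction y using TensorProduct.induction_on with
  | zero => rw [mul_zero, zero_mul]
  | add x y hx hy => rw [mul_add, add_mul, hx, hy]
  | tmul x y =>
    rw [Algebra.TensorProduct.tmul_mul_tmul, Algebra.TensorProduct.tmul_mul_tmul, one_mul, mul_one,
      mul_comm a x]

theorem isNilpotent_tt (n : ℕ) : IsNilpotent (tt T n) := by
  refine ⟨n + 1, ?_⟩
  unfold tt
  rw [← map_pow, Ideal.Quotient.eq_zero_iff_mem]
  exact Ideal.mem_span_singleton_self _

theorem isNilpotent_tmul_one {R : Type} [Ring R] (a : T) (ha : IsNilpotent a) :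
    IsNilpotent (a ⊗ₜ[ℤ] (1 : R)) := by
  obtain ⟨m, hm⟩ := ha
  exact ⟨m, by rw [Algebra.TensorProduct.tmul_pow, hm, TensorProduct.zero_tmul]⟩

/-- functoriality of the truncated polynomials -/
noncomputable def truncMap {T T' : Type} [CommRing T] [CommRing T'] (f : T →+* T') (n : ℕ) :
    Trunc T n →+* Trunc T' n :=
  Ideal.quotientMap _ (Polynomial.mapRingHom f) (by
    rw [Ideal.span_singleton_le_iff_mem, Ideal.mem_comap]
    simpa using Ideal.mem_span_singleton_self _)

variable {T} {T' : Type} [CommRing T']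

theorem truncMap_tt (f : T →+* T') (n : ℕ) : truncMap f n (tt T n) = tt T' n := by
  unfold truncMap tt
  rw [Ideal.quotientMap_mk, Polynomial.coe_mapRingHom, Polynomial.map_X]

theorem truncMap_inT (f : T →+* T') (n : ℕ) (a : T) :
    truncMap f n (inT T n a) = inT T' n (f a) := by
  unfold truncMap inT
  rw [RingHom.comp_apply, RingHom.comp_apply, Ideal.quotientMap_mk, Polynomial.coe_mapRingHom,
    Polynomial.map_C]

theorem tcoef_truncMap (f : T →+* T') (n : ℕ) (y : Trunc T n) :
    tcoef T' n (truncMap f n y) = f (tcoef T n y) := by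
  obtain ⟨g, rfl⟩ := Ideal.Quotient.mk_surjective y
  unfold truncMap
  rw [Ideal.quotientMap_mk, tcoef_mk, tcoef_mk, Polynomial.coe_mapRingHom, Polynomial.coeff_map]

theorem tcoef_inT_mul (n : ℕ) (a : T) (y : Trunc T n) :
    tcoef T n (inT T n a * y) = a * tcoef T n y := by
  obtain ⟨g, rfl⟩ := Ideal.Quotient.mk_surjective y
  unfold inT
  rw [RingHom.comp_apply, ← map_mul, tcoef_mk, tcoef_mk, Polynomial.coeff_C_mul]

/-- the map `T ⊗ R → T' ⊗ R` induced by `f` as a ring homomorphism -/
noncomputable def bmap (R : Type) [Ring R] (f : T →+* T') : T ⊗[ℤ] R →+* T' ⊗[ℤ] R :=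
  (Algebra.TensorProduct.map f.toIntAlgHom (AlgHom.id ℤ R) : T ⊗[ℤ] R →ₐ[ℤ] T' ⊗[ℤ] R)

@[simp] theorem bmap_tmul (R : Type) [Ring R] (f : T →+* T') (a : T) (r : R) :
    bmap R f (a ⊗ₜ r) = f a ⊗ₜ r := by
  simp [bmap]

theorem bmap_eq_rTensor (R : Type) [Ring R] (f : T →+* T') (y : T ⊗[ℤ] R) :
    bmap R f y = f.toAddMonoidHom.toIntLinearMap.rTensor R y := by
  induction y using TensorProduct.induction_on with
  | zero => rw [map_zero, map_zero]
  | add x y hx hy => rw [map_add, map_add, hx, hy]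
  | tmul x y =>
    rw [bmap_tmul, LinearMap.rTensor_tmul]
    rfl

/-- `bmap` is a morphism of string systems -/
theorem bmap_rho (f : T →+* T') (i : ι) (a : T ⊗[ℤ] Φ) :
    bmap E f ((S.base T).ρ i a) = (S.base T').ρ i (bmap Φ f a) := by
  induction a using TensorProduct.induction_on with
  | zero => simp only [map_zero]
  | add x y hx hy => simp only [map_add, hx, hy]
  | tmul x y => rw [base_rho_tmul, bmap_tmul, bmap_tmul, base_rho_tmul]

theorem bmap_s (f : T →+* T') (σ : Perm ι) :
    bmap E f ((S.base T).s σ) = (S.base T').s σ := by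
  rw [base_s, base_s, bmap_tmul, map_one]

end Pool.PI34.BA
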