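import Pool.Agent.LibPI34.BA_D1
import Pool.Agent.LibPI34.BA_C5
import Pool.Agent.LibPI34.BA_C6
import Pool.Agent.LibPI34.BA_C7

/-! PI34, block BA, file D2: naturality, invariance and path value of `PB`. -/

set_option autoImplicit false

namespace Pool.PI34.BA

open Equiv Finset Matrix
open scoped TensorProduct

variable {ι Φ E : Type} [Fintype ι] [DecidableEq ι] [Ring Φ] [Ring E] (S : Str ι Φ E)
variable {k : ℕ} (p q : Fin k ↪ ι) (z : ι) {X : Type} [Fintype X] [DecidableEq X]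
variable (x : X → Φ) (n : ℕ)

/-- the scalars of `T` in `T ⊗ R` -/
noncomputable def d2_inc (R : Type) [Ring R] (T : Type) [CommRing T] : T →+* T ⊗[ℤ] R :=
  (Algebra.TensorProduct.includeLeft : T →ₐ[ℤ] T ⊗[ℤ] R)

/-- the scalars of `T` in `T[t]/(t^(n+1)) ⊗ R` -/
noncomputable def d2_phi (R : Type) [Ring R] (T : Type) [CommRing T] (n : ℕ) :=
  (d2_inc R (Trunc T n)).comp (inT T n)

theorem d2_phi_apply (R : Type) [Ring R] (T : Type) [CommRing T] (n : ℕ) (a : T) :
    d2_phi R T n a = inT T n a ⊗ₜ 1 := rfl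

theorem d2_coef {T T' : Type} [CommRing T] [CommRing T'] (f : T →+* T')
    (y : Trunc T n ⊗[ℤ] E) :
    bmap E f ((tcoef T n).toIntLinearMap.rTensor E y) =
      (tcoef T' n).toIntLinearMap.rTensor E (bmap E (truncMap f n) y) := by
  induction y using TensorProduct.induction_on with
  | zero => simp only [map_zero]
  | add u v hu hv => simp only [map_add, hu, hv]
  | tmul u v =>
    rw [bmap_tmul, LinearMap.rTensor_tmul, LinearMap.rTensor_tmul, bmap_tmul]
    congr 1
    exact (tcoef_truncMap f n u).symm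

/-- naturality in `T` (`map_PP` with `bmap (truncMap f)`, then `tcoef_truncMap`) -/
theorem PB_map {T T' : Type} [CommRing T] [CommRing T'] (f : T →+* T')
    (B : Matrix (Option (X × Fin n)) (Option (X × Fin n)) T) :
    bmap E f (PB S p q z x n T B) = PB S p q z x n T' (B.map f) := by
  unfold PB
  rw [d2_coef]
  congr 1
  rw [map_PP (S.base (Trunc T n)) (S.base (Trunc T' n)) (bmap Φ (truncMap f n))
    (bmap E (truncMap f n)) (fun i a => bmap_rho S (truncMap f n) i a)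
    (fun σ => bmap_s S (truncMap f n) σ) p q z _ (fun y => tmul_one_comm (Trunc T n) _ y)
    (isNilpotent_tmul_one (Trunc T n) _ (isNilpotent_tt T n))]
  have e1 : bmap Φ (truncMap f n) (tt T n ⊗ₜ 1) = tt T' n ⊗ₜ 1 := by
    rw [bmap_tmul, truncMap_tt]
  have e2 : (fun a : X × Fin n => bmap Φ (truncMap f n) ((1 : Trunc T n) ⊗ₜ x a.1)) =
      fun a : X × Fin n => (1 : Trunc T' n) ⊗ₜ x a.1 := by
    funext a
    rw [bmap_tmul, map_one]
  have e3 : (B.map fun b => (inT T n b ⊗ₜ[ℤ] (1 : Φ) : Trunc T n ⊗[ℤ] Φ)).map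
      (bmap Φ (truncMap f n)) =
      (B.map f).map fun b => (inT T' n b ⊗ₜ[ℤ] (1 : Φ) : Trunc T' n ⊗[ℤ] Φ) := by
    refine Matrix.ext fun a b => ?_
    rw [Matrix.map_apply, Matrix.map_apply, Matrix.map_apply, Matrix.map_apply, bmap_tmul,
      truncMap_inT]
  rw [e1, e2, e3]

theorem d2_optDiag {A Λ Λ' : Type} [Fintype A] [DecidableEq A] [Ring Λ] [Ring Λ']
    (φ : Λ →+* Λ') (h : Matrix A A Λ) : (optDiag h).map φ = optDiag (h.map φ) := by
  refine Matrix.ext fun a b => ?_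
  rcases a with _ | a <;> rcases b with _ | b
  · exact map_one φ
  · exact map_zero φ
  · exact map_zero φ
  · rfl

/-- invariance (`PP_inv` for `S.base (Trunc T n)`) -/
theorem PB_inv (hA : Anti S.s k) (hF : Frame p q z) (T : Type) [CommRing T]
    (B : Matrix (Option (X × Fin n)) (Option (X × Fin n)) T)
    (h h' : Matrix (X × Fin n) (X × Fin n) T) (h1 : h * h' = 1) (h2 : h' * h = 1)
    (hh : ∀ a b, a.1 ≠ b.1 → h' a b = 0) :
    PB S p q z x n T (optDiag h * B * optDiag h') = PB S p q z x n T B := by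
  set φ := d2_phi Φ T n with hφ
  have e0 : ∀ C : Matrix (Option (X × Fin n)) (Option (X × Fin n)) T,
      (C.map fun b => (inT T n b ⊗ₜ[ℤ] (1 : Φ) : Trunc T n ⊗[ℤ] Φ)) = C.map φ := fun C => rfl
  have e4 : (optDiag h).map φ = optDiag (h.map φ) := d2_optDiag φ h
  have e5 : (optDiag h').map φ = optDiag (h'.map φ) := d2_optDiag φ h'
  unfold PB
  rw [e0, e0, Matrix.map_mul, Matrix.map_mul, e4, e5]
  congr 1
  refine PP_inv (S.base (Trunc T n)) p q z (base_Anti S (Trunc T n) k hA) hF _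
    (fun y => tmul_one_comm (Trunc T n) _ y)
    (isNilpotent_tmul_one (Trunc T n) _ (isNilpotent_tt T n)) _ _ (h.map φ) (h'.map φ) ?_ ?_ ?_
  · rw [← Matrix.map_mul, h1, Matrix.map_one _ (map_zero φ) (map_one φ)]
  · rw [← Matrix.map_mul, h2, Matrix.map_one _ (map_zero φ) (map_one φ)]
  · intro a b
    rw [Matrix.map_apply]
    by_cases hab : a.1 = b.1
    · rw [hφ, d2_phi_apply, Algebra.TensorProduct.tmul_mul_tmul,
        Algebra.TensorProduct.tmul_mul_tmul, one_mul, one_mul, mul_one, mul_one, hab]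
    · rw [hh a b hab, map_zero, zero_mul, mul_zero]

omit [Fintype X] in
theorem d2_pathMat {Λ Λ' : Type} [Ring Λ] [Ring Λ'] (φ : Λ →+* Λ') (w : Fin n → X)
    (b : Fin (n + 1) → Λ) : (pathMat w b).map φ = pathMat w (fun e => φ (b e)) := by
  unfold pathMat
  refine Matrix.ext fun a c => ?_
  rw [Matrix.map_apply, Matrix.sum_apply, Matrix.sum_apply, map_sum]
  refine Finset.sum_congr rfl fun e _ => ?_
  rw [Matrix.single_apply, Matrix.single_apply]
  split_ifs
  · rfl
  · exact map_zero φ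

theorem d2_tcoef (T : Type) [CommRing T] (n : ℕ) (P : T) :
    tcoef T n ((-tt T n) ^ n * inT T n P) = (-1) ^ n * P := by
  have h : (-tt T n) ^ n * inT T n P =
      Ideal.Quotient.mk (Ideal.span {(Polynomial.X : Polynomial T) ^ (n + 1)})
        ((-Polynomial.X) ^ n * Polynomial.C P) := by
    rw [map_mul, map_pow, map_neg]
    rfl
  rw [h, tcoef_mk, Polynomial.coeff_mul_C, neg_pow, ← Polynomial.C_1, ← Polynomial.C_neg,
    ← Polynomial.C_pow, Polynomial.coeff_C_mul_X_pow, if_pos rfl]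

theorem d2_left (T : Type) [CommRing T] (m : ℕ) (b : Fin m → T) :
    (List.ofFn fun e => d2_phi Φ T n (b e)).prod = inT T n (List.ofFn b).prod ⊗ₜ 1 := by
  have h : (List.ofFn fun e => d2_phi Φ T n (b e)) = (List.ofFn b).map (d2_phi Φ T n) := by
    rw [List.map_ofFn]
    rfl
  rw [h]
  exact (map_list_prod (d2_phi Φ T n) (List.ofFn b)).symm

theorem d2_right (T : Type) [CommRing T] (m : ℕ) (c : Fin m → Φ) :
    (List.ofFn fun i => ((1 : Trunc T n) ⊗ₜ[ℤ] c i : Trunc T n ⊗[ℤ] Φ)).prod =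
      1 ⊗ₜ (List.ofFn c).prod := by
  have h : (List.ofFn fun i => ((1 : Trunc T n) ⊗ₜ[ℤ] c i : Trunc T n ⊗[ℤ] Φ)) =
      (List.ofFn c).map
        (Algebra.TensorProduct.includeRight : Φ →ₐ[ℤ] Trunc T n ⊗[ℤ] Φ) := by
    rw [List.map_ofFn]
    rfl
  rw [h]
  exact (map_list_prod (Algebra.TensorProduct.includeRight : Φ →ₐ[ℤ] Trunc T n ⊗[ℤ] Φ)
    (List.ofFn c)).symm

/-- path value (`PP_path`, the coefficient of `t^n` of `(-t)^n`) -/
theorem PB_path (T : Type) [CommRing T] (w : Fin n → X) (b : Fin (n + 1) → T) :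
    PB S p q z x n T (pathMat w b) =
      (-1 : ℤ) ^ n • ((List.ofFn b).prod ⊗ₜ[ℤ]
        (S.ρ z (List.ofFn fun i => x (w i)).prod * S.om p q)) := by
  set φ := d2_phi Φ T n with hφ
  have e0 : ∀ C : Matrix (Option (X × Fin n)) (Option (X × Fin n)) T,
      (C.map fun b => (inT T n b ⊗ₜ[ℤ] (1 : Φ) : Trunc T n ⊗[ℤ] Φ)) = C.map φ := fun C => rfl
  have e4 : (pathMat w b).map φ = pathMat w (fun e => φ (b e)) := d2_pathMat n φ w b
  unfold PB
  rw [e0, e4]
  have h1 := PP_path (S.base (Trunc T n)) p q z w (fun e => φ (b e))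
    (fun e y => tmul_one_comm (Trunc T n) _ y) (tt T n ⊗ₜ 1)
    (fun y => tmul_one_comm (Trunc T n) _ y)
    (isNilpotent_tmul_one (Trunc T n) _ (isNilpotent_tt T n))
    (fun s => (1 : Trunc T n) ⊗ₜ x s)
  rw [h1, d2_left, d2_right, base_om]
  have h2 : (-(tt T n ⊗ₜ[ℤ] (1 : Φ))) ^ n = ((-tt T n) ^ n) ⊗ₜ[ℤ] (1 : Φ) := by
    rw [← TensorProduct.neg_tmul, Algebra.TensorProduct.tmul_pow, one_pow]
  rw [h2, Algebra.TensorProduct.tmul_mul_tmul, Algebra.TensorProduct.tmul_mul_tmul, mul_one,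
    one_mul, base_rho_tmul, Algebra.TensorProduct.tmul_mul_tmul, mul_one,
    LinearMap.rTensor_tmul]
  have h3 : (tcoef T n).toIntLinearMap ((-tt T n) ^ n * inT T n (List.ofFn b).prod) =
      (-1 : ℤ) ^ n • (List.ofFn b).prod := by
    refine (d2_tcoef T n _).trans ?_
    rw [zsmul_eq_mul]
    push_cast
    rfl
  rw [h3, TensorProduct.smul_tmul', one_mul]

end Pool.PI34.BA
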