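import Pool.Agent.LibPI34.BA_D1
import Pool.Agent.LibPI34.BA_C5
import Pool.Agent.LibPI34.BA_C6

/-! PI34, block BA, file D3: rank bound of `PB`. -/

set_option autoImplicit false

namespace Pool.PI34.BA

open Equiv Finset Matrix
open scoped TensorProduct

/-- `T[X] → (T ⊗ R)[X]` -/
noncomputable def polyTensorL (T R : Type) [CommRing T] [Ring R] :
    Polynomial T →ₐ[ℤ] Polynomial (T ⊗[ℤ] R) :=
  { Polynomial.mapRingHom
      ((Algebra.TensorProduct.includeLeft : T →ₐ[ℤ] T ⊗[ℤ] R) : T →+* T ⊗[ℤ] R) with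
    commutes' := by intro r; simp }

/-- `R → (T ⊗ R)[X]` -/
noncomputable def polyTensorR (T R : Type) [CommRing T] [Ring R] :
    R →ₐ[ℤ] Polynomial (T ⊗[ℤ] R) :=
  { (Polynomial.C : T ⊗[ℤ] R →+* Polynomial (T ⊗[ℤ] R)).comp
      ((Algebra.TensorProduct.includeRight : R →ₐ[ℤ] T ⊗[ℤ] R) : R →+* T ⊗[ℤ] R) with
    commutes' := by intro r; simp }

/-- `T[X] ⊗ R → (T ⊗ R)[X]` -/
noncomputable def polyTensor (T R : Type) [CommRing T] [Ring R] :
    Polynomial T ⊗[ℤ] R →+* Polynomial (T ⊗[ℤ] R) :=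
  (Algebra.TensorProduct.lift (polyTensorL T R) (polyTensorR T R)
    (by
      intro f r
      change Polynomial.map _ f * Polynomial.C (1 ⊗ₜ r) = Polynomial.C (1 ⊗ₜ r) * Polynomial.map _ f
      ext m
      simp [Polynomial.coeff_mul_C, Polynomial.coeff_C_mul]) :
    Polynomial T ⊗[ℤ] R →ₐ[ℤ] Polynomial (T ⊗[ℤ] R))

theorem polyTensor_tmul_coeff (T R : Type) [CommRing T] [Ring R] (f : Polynomial T) (r : R)
    (j : ℕ) : (polyTensor T R (f ⊗ₜ r)).coeff j = f.coeff j ⊗ₜ r := by
  have hc : ∀ (f : Polynomial T) (r : R), Commute (polyTensorL T R f) (polyTensorR T R r) := by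
    intro f r
    change Polynomial.map _ f * Polynomial.C (1 ⊗ₜ r) = Polynomial.C (1 ⊗ₜ r) * Polynomial.map _ f
    ext m
    simp [Polynomial.coeff_mul_C, Polynomial.coeff_C_mul]
  have h : polyTensor T R (f ⊗ₜ r) = Polynomial.map
      ((Algebra.TensorProduct.includeLeft : T →ₐ[ℤ] T ⊗[ℤ] R) : T →+* T ⊗[ℤ] R) f *
      Polynomial.C ((1 : T) ⊗ₜ[ℤ] r) :=
    Algebra.TensorProduct.lift_tmul (polyTensorL T R) (polyTensorR T R) hc f r
  rw [h, Polynomial.coeff_mul_C, Polynomial.coeff_map]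
  change (f.coeff j ⊗ₜ[ℤ] (1 : R)) * ((1 : T) ⊗ₜ[ℤ] r) = f.coeff j ⊗ₜ r
  rw [Algebra.TensorProduct.tmul_mul_tmul, mul_one, one_mul]

/-- coefficients commute with `polyTensor` -/
theorem polyTensor_coeff (T R : Type) [CommRing T] [Ring R] (y : Polynomial T ⊗[ℤ] R)
    (j : ℕ) : (polyTensor T R y).coeff j =
      (Polynomial.lcoeff T j).toAddMonoidHom.toIntLinearMap.rTensor R y := by
  induction y using TensorProduct.induction_on with
  | zero => simp
  | add y₁ y₂ h₁ h₂ => rw [map_add, Polynomial.coeff_add, map_add, h₁, h₂]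
  | tmul f r =>
    rw [polyTensor_tmul_coeff, LinearMap.rTensor_tmul]
    rfl

variable {ι Φ E : Type} [Fintype ι] [DecidableEq ι] [Ring Φ] [Ring E] (S : Str ι Φ E)

/-- `polyTensor` is a morphism of string systems `S.base T[X] → (S.base T).poly` -/
theorem polyTensor_rho (T : Type) [CommRing T] (i : ι) (a : Polynomial T ⊗[ℤ] Φ) :
    polyTensor T E ((S.base (Polynomial T)).ρ i a) = (S.base T).poly.ρ i (polyTensor T Φ a) := by
  induction a using TensorProduct.induction_on with
  | zero => simp only [map_zero]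
  | add y₁ y₂ h₁ h₂ => rw [map_add, map_add, map_add, map_add, h₁, h₂]
  | tmul f r =>
    rw [base_rho_tmul]
    ext j
    rw [polyTensor_tmul_coeff]
    change _ = (Polynomial.map ((S.base T).ρ i) (polyTensor T Φ (f ⊗ₜ r))).coeff j
    rw [Polynomial.coeff_map, polyTensor_tmul_coeff, base_rho_tmul]

theorem polyTensor_s (T : Type) [CommRing T] (σ : Perm ι) :
    polyTensor T E ((S.base (Polynomial T)).s σ) = (S.base T).poly.s σ := by
  rw [base_s]
  change _ = Polynomial.C ((S.base T).s σ)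
  rw [base_s]
  ext j
  rw [polyTensor_tmul_coeff, Polynomial.coeff_one, Polynomial.coeff_C]
  split_ifs
  · rfl
  · rw [TensorProduct.zero_tmul]

/-- `T[X][t]/(t^(n+1)) → (T[t]/(t^(n+1)))[X]`, coefficientwise `inT` and `t ↦ C t` -/
noncomputable def truncPoly (T : Type) [CommRing T] (n : ℕ) :
    Trunc (Polynomial T) n →+* Polynomial (Trunc T n) :=
  Ideal.Quotient.lift _ (Polynomial.eval₂RingHom (Polynomial.mapRingHom (inT T n))
    (Polynomial.C (tt T n))) (by
      intro a ha
      rw [Ideal.mem_span_singleton] at ha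
      obtain ⟨b, rfl⟩ := ha
      have h0 : (tt T n) ^ (n + 1) = 0 := by
        rw [tt, ← map_pow, Ideal.Quotient.eq_zero_iff_mem]
        exact Ideal.mem_span_singleton_self _
      rw [map_mul]
      simp [← Polynomial.C_pow, h0])

/-- the two ways to extract the coefficient of `X^j t^n` agree -/
theorem tcoef_truncPoly (T : Type) [CommRing T] (n j : ℕ) (y : Trunc (Polynomial T) n) :
    tcoef T n ((truncPoly T n y).coeff j) = (tcoef (Polynomial T) n y).coeff j := by
  obtain ⟨f, rfl⟩ := Ideal.Quotient.mk_surjective y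
  rw [tcoef_mk]
  have h : truncPoly T n (Ideal.Quotient.mk _ f) =
      Polynomial.eval₂ (Polynomial.mapRingHom (inT T n)) (Polynomial.C (tt T n)) f := rfl
  rw [h]
  clear h
  induction f using Polynomial.induction_on' with
  | add f g hf hg =>
    rw [Polynomial.eval₂_add, Polynomial.coeff_add, map_add, hf, hg, Polynomial.coeff_add,
      Polynomial.coeff_add]
  | monomial i g =>
    rw [Polynomial.eval₂_monomial, ← Polynomial.C_pow, Polynomial.coeff_mul_C,
      Polynomial.coe_mapRingHom, Polynomial.coeff_map]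
    have h1 : inT T n (g.coeff j) * tt T n ^ i =
        Ideal.Quotient.mk _ (Polynomial.C (g.coeff j) * Polynomial.X ^ i) := by
      rw [map_mul, map_pow]
      rfl
    rw [h1, tcoef_mk, Polynomial.coeff_C_mul_X_pow, Polynomial.coeff_monomial]
    by_cases hi : n = i
    · rw [if_pos hi, if_pos hi.symm]
    · rw [if_neg hi, if_neg fun h => hi h.symm, Polynomial.coeff_zero]

theorem truncPoly_inT (T : Type) [CommRing T] (n : ℕ) (f : Polynomial T) :
    truncPoly T n (inT (Polynomial T) n f) = f.map (inT T n) := by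
  change Polynomial.eval₂ (Polynomial.mapRingHom (inT T n)) (Polynomial.C (tt T n))
    (Polynomial.C f) = _
  rw [Polynomial.eval₂_C]
  rfl

theorem truncPoly_tt (T : Type) [CommRing T] (n : ℕ) :
    truncPoly T n (tt (Polynomial T) n) = Polynomial.C (tt T n) := by
  change Polynomial.eval₂ (Polynomial.mapRingHom (inT T n)) (Polynomial.C (tt T n))
    Polynomial.X = _
  rw [Polynomial.eval₂_X]

theorem D3_polyTensor_C (T R : Type) [CommRing T] [Ring R] (a : T) (r : R) :
    polyTensor T R (Polynomial.C a ⊗ₜ r) = Polynomial.C (a ⊗ₜ r) := by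
  ext j
  rw [polyTensor_tmul_coeff, Polynomial.coeff_C, Polynomial.coeff_C]
  split_ifs
  · rfl
  · rw [TensorProduct.zero_tmul]

theorem D3_polyTensor_XC (T R : Type) [CommRing T] [Ring R] (a b : T) :
    polyTensor T R ((Polynomial.X * Polynomial.C a * Polynomial.C b) ⊗ₜ 1) =
      Polynomial.X * Polynomial.C (a ⊗ₜ 1) * Polynomial.C (b ⊗ₜ 1) := by
  rw [mul_assoc, mul_assoc, ← Polynomial.C_mul, ← Polynomial.C_mul,
    Algebra.TensorProduct.tmul_mul_tmul, mul_one]
  ext j
  rw [polyTensor_tmul_coeff]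
  cases j with
  | zero => rw [Polynomial.coeff_X_mul_zero, Polynomial.coeff_X_mul_zero, TensorProduct.zero_tmul]
  | succ j =>
    rw [Polynomial.coeff_X_mul, Polynomial.coeff_X_mul, Polynomial.coeff_C, Polynomial.coeff_C]
    split_ifs
    · rfl
    · rw [TensorProduct.zero_tmul]

/-- the two ways to extract the coefficient of `X^j t^n`, with coefficients in `R` -/
theorem D3_extract (T R : Type) [CommRing T] [Ring R] (n j : ℕ)
    (y : Trunc (Polynomial T) n ⊗[ℤ] R) :
    (Polynomial.lcoeff T j).toAddMonoidHom.toIntLinearMap.rTensor R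
      ((tcoef (Polynomial T) n).toIntLinearMap.rTensor R y) =
    (tcoef T n).toIntLinearMap.rTensor R
      ((polyTensor (Trunc T n) R (bmap R (truncPoly T n) y)).coeff j) := by
  induction y using TensorProduct.induction_on with
  | zero => simp only [map_zero, Polynomial.coeff_zero]
  | add y₁ y₂ h₁ h₂ =>
    rw [map_add, map_add, map_add, map_add, Polynomial.coeff_add, map_add, h₁, h₂]
  | tmul a e =>
    rw [bmap_tmul, polyTensor_tmul_coeff, LinearMap.rTensor_tmul, LinearMap.rTensor_tmul,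
      LinearMap.rTensor_tmul]
    congr 1
    exact (tcoef_truncPoly T n j a).symm

variable {k : ℕ} (p q : Fin k ↪ ι) (z : ι) {X : Type} [Fintype X] [DecidableEq X]
variable (x : X → Φ) (n : ℕ)

/-- (rk)  PROOF.  `y := PP` over `Trunc (T[X]) n`.  `polyTensor (Trunc T n) E (bmap E (truncPoly T n) y)` is
`(S.base (Trunc T n)).poly.PP` of `B.map C + (X u) v` (`map_PP` twice), of degree `≤ k` by `PP_rank`; its
coefficient of `X^j`, followed by `tcoef ⊗ id`, is the left side (`polyTensor_coeff`, `tcoef_truncPoly`;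
two additive maps `Trunc (T[X]) n ⊗ E → T ⊗ E` of the form (functional) `⊗ id`). -/
theorem PB_rank (hA : Anti S.s k) (hF : Frame p q z) (T : Type) [CommRing T]
    (B : Matrix (Option (X × Fin n)) (Option (X × Fin n)) T) (u v : Option (X × Fin n) → T)
    (j : ℕ) (hj : k < j) :
    (Polynomial.lcoeff T j).toAddMonoidHom.toIntLinearMap.rTensor E
      (PB S p q z x n (Polynomial T) (B.map Polynomial.C +
        vecMulVec (fun a => Polynomial.X * Polynomial.C (u a)) (fun a => Polynomial.C (v a)))) =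
      0 := by
  unfold PB
  rw [D3_extract]
  have ht : ∀ y : Trunc (Polynomial T) n ⊗[ℤ] Φ,
      (tt (Polynomial T) n ⊗ₜ[ℤ] (1 : Φ)) * y = y * (tt (Polynomial T) n ⊗ₜ 1) :=
    fun y => tmul_one_comm (Trunc (Polynomial T) n) (tt (Polynomial T) n) y
  have hn : IsNilpotent (tt (Polynomial T) n ⊗ₜ[ℤ] (1 : Φ)) :=
    isNilpotent_tmul_one (Trunc (Polynomial T) n) (tt (Polynomial T) n)
      (isNilpotent_tt (Polynomial T) n)
  have ht1 : ∀ y : Polynomial (Trunc T n) ⊗[ℤ] Φ,
      (bmap (T' := Polynomial (Trunc T n)) Φ (truncPoly T n)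
        (tt (Polynomial T) n ⊗ₜ[ℤ] (1 : Φ))) * y =
      y * (bmap (T' := Polynomial (Trunc T n)) Φ (truncPoly T n)
        (tt (Polynomial T) n ⊗ₜ 1)) := by
    intro y
    rw [bmap_tmul]
    exact tmul_one_comm (Polynomial (Trunc T n)) _ y
  have hn1 : IsNilpotent (bmap (T' := Polynomial (Trunc T n)) Φ (truncPoly T n)
      (tt (Polynomial T) n ⊗ₜ[ℤ] (1 : Φ))) :=
    hn.map _
  rw [map_PP (S.base (Trunc (Polynomial T) n)) (S.base (Polynomial (Trunc T n)))
      (bmap Φ (truncPoly T n)) (bmap E (truncPoly T n)) (bmap_rho S _) (bmap_s S _) p q z _ ht hn,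
    map_PP (S.base (Polynomial (Trunc T n))) (S.base (Trunc T n)).poly
      (polyTensor (Trunc T n) Φ) (polyTensor (Trunc T n) E) (polyTensor_rho S _)
      (polyTensor_s S _) p q z _ ht1 hn1]
  have e1 : polyTensor (Trunc T n) Φ (bmap Φ (truncPoly T n) (tt (Polynomial T) n ⊗ₜ[ℤ] 1)) =
      Polynomial.C (tt T n ⊗ₜ 1) := by
    rw [bmap_tmul, truncPoly_tt, D3_polyTensor_C]
  have e2 : (fun a : X × Fin n => polyTensor (Trunc T n) Φ
      (bmap Φ (truncPoly T n) (1 ⊗ₜ[ℤ] x a.1))) = fun a => Polynomial.C (1 ⊗ₜ x a.1) := by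
    funext a
    rw [bmap_tmul, map_one, ← Polynomial.C_1, D3_polyTensor_C]
  have e3 : ((((B.map Polynomial.C + vecMulVec (fun a => Polynomial.X * Polynomial.C (u a))
      (fun a => Polynomial.C (v a))).map fun b => inT (Polynomial T) n b ⊗ₜ[ℤ] (1 : Φ)).map
      (bmap Φ (truncPoly T n))).map (polyTensor (Trunc T n) Φ)) =
      (B.map fun b => inT T n b ⊗ₜ[ℤ] (1 : Φ)).map Polynomial.C +
        vecMulVec (fun a => Polynomial.X * Polynomial.C (inT T n (u a) ⊗ₜ[ℤ] (1 : Φ)))
          (fun a => Polynomial.C (inT T n (v a) ⊗ₜ[ℤ] (1 : Φ))) := by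
    ext1 a b
    simp only [Matrix.map_apply, Matrix.add_apply, vecMulVec_apply]
    rw [bmap_tmul, truncPoly_inT, Polynomial.map_add, Polynomial.map_C, Polynomial.map_mul,
      Polynomial.map_mul, Polynomial.map_X, Polynomial.map_C, Polynomial.map_C,
      TensorProduct.add_tmul, map_add, D3_polyTensor_C, D3_polyTensor_XC]
  rw [e1, e2, e3]
  have hdeg := PP_rank (S.base (Trunc T n)) p q z (base_Anti S _ k hA) hF (tt T n ⊗ₜ[ℤ] (1 : Φ))
    (fun y => tmul_one_comm (Trunc T n) (tt T n) y)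
    (isNilpotent_tmul_one (Trunc T n) (tt T n) (isNilpotent_tt T n))
    (fun a : X × Fin n => (1 : Trunc T n) ⊗ₜ[ℤ] x a.1) (B.map fun b => inT T n b ⊗ₜ[ℤ] (1 : Φ))
    (fun a => inT T n (u a) ⊗ₜ[ℤ] (1 : Φ)) (fun a => inT T n (v a) ⊗ₜ[ℤ] (1 : Φ))
  rw [Polynomial.coeff_eq_zero_of_natDegree_lt (lt_of_le_of_lt hdeg hj), map_zero]

end Pool.PI34.BA
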