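import Pool.Agent.LibPI34.BA_D1
import Pool.Agent.LibPI34.BA_C6

/-! PI34, block BA, file D4: homogeneity of `PB`. -/

set_option autoImplicit false

namespace Pool.PI34.BA

open Equiv Finset Matrix
open scoped TensorProduct

variable {ι Φ E : Type} [Fintype ι] [DecidableEq ι] [Ring Φ] [Ring E] (S : Str ι Φ E)
variable {k : ℕ} (p q : Fin k ↪ ι) (z : ι) {X : Type} [Fintype X] [DecidableEq X]
variable (x : X → Φ) (n : ℕ)

/-- the endomorphism `t ↦ c t` of `T[t]/(t^(n+1))` -/
noncomputable def truncScale {T : Type} [CommRing T] (c : T) (n : ℕ) : Trunc T n →+* Trunc T n :=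
  Ideal.quotientMap _ (Polynomial.eval₂RingHom Polynomial.C (Polynomial.C c * Polynomial.X)) (by
    rw [Ideal.span_singleton_le_iff_mem, Ideal.mem_comap, Ideal.mem_span_singleton]
    refine ⟨Polynomial.C c ^ (n + 1), ?_⟩
    rw [map_pow, Polynomial.coe_eval₂RingHom, Polynomial.eval₂_X, mul_pow, mul_comm])

theorem tcoef_truncScale {T : Type} [CommRing T] (c : T) (n : ℕ) (y : Trunc T n) :
    tcoef T n (truncScale c n y) = c ^ n * tcoef T n y := by
  obtain ⟨f, rfl⟩ := Ideal.Quotient.mk_surjective y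
  change (f.comp (Polynomial.C c * Polynomial.X)).coeff n = c ^ n * f.coeff n
  rw [Polynomial.comp_C_mul_X_coeff, mul_comm]

section alg

variable {A Λ : Type*} [Fintype A] [DecidableEq A] [Ring Λ]

theorem D4_rowsIn_smul (κ : Λ) (N : Matrix A A Λ) (l : List A) :
    rowsIn (κ • N) l = κ • rowsIn N l := by
  ext a b
  simp only [rowsIn, Matrix.of_apply, Matrix.smul_apply, smul_eq_mul]
  split_ifs
  · rfl
  · rw [mul_zero]

theorem D4_dt_smul (t κ : Λ) (N : Matrix A A Λ) (l : List A) :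
    dt t (κ • N) l = dt (t * κ) N l := by
  induction l with
  | nil => rfl
  | cons a l ih =>
    rw [dt, dt, ih, D4_rowsIn_smul, smul_smul, Matrix.smul_mul, Matrix.smul_apply, smul_eq_mul,
      mul_assoc t κ]

theorem D4_BX_smul (κ : Λ) (x : A → Λ) (B : Matrix (Option A) (Option A) Λ) :
    BX x (κ • B) = κ • BX x B := by
  ext a b
  simp only [BX, Matrix.of_apply, Matrix.smul_apply, smul_eq_mul, mul_assoc]

theorem D4_qq_smul (t κ : Λ) (hκ : ∀ y, κ * y = y * κ) (x : A → Λ)
    (B : Matrix (Option A) (Option A) Λ) : qq t x (κ • B) = κ * qq (t * κ) x B := by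
  unfold qq
  rw [D4_BX_smul, smul_smul, mul_sub]
  have h : ∀ a b, (κ • B) none (some a) * x a * Ring.inverse (1 + (t * κ) • BX x B) a b *
      (κ • B) (some b) none = κ * (κ * (B none (some a) * x a *
        Ring.inverse (1 + (t * κ) • BX x B) a b * B (some b) none)) := by
    intro a b
    simp only [Matrix.smul_apply, smul_eq_mul]
    generalize Ring.inverse (1 + (t * κ) • BX x B) a b = y
    rw [← mul_assoc _ κ, ← hκ]
    simp only [mul_assoc]
  simp only [h, ← Finset.mul_sum]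
  rw [Matrix.smul_apply, smul_eq_mul, ← mul_assoc t κ, ← mul_assoc (t * κ) κ, ← hκ (t * κ),
    mul_assoc κ]

theorem D4_BX_row (κ : Λ) (x : A → Λ) (B : Matrix (Option A) (Option A) Λ) :
    BX x (Matrix.of fun a b => (if a = none then κ else 1) * B a b) = BX x B := by
  ext a b
  simp [BX]

theorem D4_BX_col (κ : Λ) (x : A → Λ) (B : Matrix (Option A) (Option A) Λ) :
    BX x (Matrix.of fun a b => (if b = none then κ else 1) * B a b) = BX x B := by
  ext a b
  simp [BX]

theorem D4_qq_row (t κ : Λ) (hκ : ∀ y, κ * y = y * κ) (x : A → Λ)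
    (B : Matrix (Option A) (Option A) Λ) :
    qq t x (Matrix.of fun a b => (if a = none then κ else 1) * B a b) = κ * qq t x B := by
  unfold qq
  rw [D4_BX_row, mul_sub]
  have h : ∀ a b, (Matrix.of fun a b => (if a = none then κ else 1) * B a b) none (some a) * x a *
      Ring.inverse (1 + t • BX x B) a b *
      (Matrix.of fun a b => (if a = none then κ else 1) * B a b) (some b) none =
      κ * (B none (some a) * x a * Ring.inverse (1 + t • BX x B) a b * B (some b) none) := by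
    intro a b
    generalize Ring.inverse (1 + t • BX x B) a b = y
    simp [mul_assoc]
  simp only [h, ← Finset.mul_sum]
  rw [← mul_assoc t κ, ← hκ t, mul_assoc κ]
  simp

theorem D4_qq_col (t κ : Λ) (hκ : ∀ y, κ * y = y * κ) (x : A → Λ)
    (B : Matrix (Option A) (Option A) Λ) :
    qq t x (Matrix.of fun a b => (if b = none then κ else 1) * B a b) = κ * qq t x B := by
  unfold qq
  rw [D4_BX_col, mul_sub]
  have h : ∀ a b, (Matrix.of fun a b => (if b = none then κ else 1) * B a b) none (some a) * x a *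
      Ring.inverse (1 + t • BX x B) a b *
      (Matrix.of fun a b => (if b = none then κ else 1) * B a b) (some b) none =
      κ * (B none (some a) * x a * Ring.inverse (1 + t • BX x B) a b * B (some b) none) := by
    intro a b
    generalize Ring.inverse (1 + t • BX x B) a b = y
    simp only [Matrix.of_apply, if_true, if_neg (Option.some_ne_none a), one_mul]
    rw [← mul_assoc _ κ, ← hκ]
    simp only [mul_assoc]
  simp only [h, ← Finset.mul_sum]
  rw [← mul_assoc t κ, ← hκ t, mul_assoc κ]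
  simp

end alg

theorem D4_rho_one (T : Type) [CommRing T] (i : ι) (a : T) :
    (S.base T).ρ i (a ⊗ₜ 1) = a ⊗ₜ 1 := by
  rw [base_rho_tmul, map_one]

theorem D4_func_mul {T T' R : Type} [CommRing T] [CommRing T'] [Ring R] (f : T' →+ T) (a : T')
    (c : T) (h : ∀ y, f (a * y) = c * f y) (y : T' ⊗[ℤ] R) :
    f.toIntLinearMap.rTensor R ((a ⊗ₜ 1) * y) = c • f.toIntLinearMap.rTensor R y := by
  induction y using TensorProduct.induction_on with
  | zero => simp
  | add y₁ y₂ h₁ h₂ => rw [mul_add, map_add, map_add, smul_add, h₁, h₂]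
  | tmul b e =>
    rw [Algebra.TensorProduct.tmul_mul_tmul, one_mul, LinearMap.rTensor_tmul,
      LinearMap.rTensor_tmul, TensorProduct.smul_tmul']
    congr 1
    exact h b

theorem D4_tcoef_mul (T : Type) [CommRing T] (c : T) (y : Trunc T n ⊗[ℤ] E) :
    (tcoef T n).toIntLinearMap.rTensor E ((inT T n c ⊗ₜ 1) * y) =
      c • (tcoef T n).toIntLinearMap.rTensor E y :=
  D4_func_mul (tcoef T n) (inT T n c) c (tcoef_inT_mul n c) y

theorem D4_map_row {T T' R I : Type} [CommRing T] [CommRing T'] [Ring R] (β : T →+* T')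
    (c : T) (B : Matrix (Option I) (Option I) T) :
    (Matrix.of fun a b => (if a = none then c else 1) * B a b).map
      (fun b => β b ⊗ₜ[ℤ] (1 : R)) =
      Matrix.of fun a b => (if a = none then β c ⊗ₜ[ℤ] (1 : R) else 1) *
        (B.map (fun b => β b ⊗ₜ[ℤ] (1 : R))) a b := by
  ext a b
  simp only [Matrix.map_apply, Matrix.of_apply]
  split_ifs
  · rw [map_mul, Algebra.TensorProduct.tmul_mul_tmul, one_mul]
  · rw [one_mul, one_mul]

theorem D4_map_col {T T' R I : Type} [CommRing T] [CommRing T'] [Ring R] (β : T →+* T')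
    (c : T) (B : Matrix (Option I) (Option I) T) :
    (Matrix.of fun a b => (if b = none then c else 1) * B a b).map
      (fun b => β b ⊗ₜ[ℤ] (1 : R)) =
      Matrix.of fun a b => (if b = none then β c ⊗ₜ[ℤ] (1 : R) else 1) *
        (B.map (fun b => β b ⊗ₜ[ℤ] (1 : R))) a b := by
  ext a b
  simp only [Matrix.map_apply, Matrix.of_apply]
  split_ifs
  · rw [map_mul, Algebra.TensorProduct.tmul_mul_tmul, one_mul]
  · rw [one_mul, one_mul]

/-- the scalar `κ = inT c ⊗ 1` leaves `PP` -/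
theorem D4_PP_mul (T : Type) [CommRing T] (c : T) (d y : Trunc T n ⊗[ℤ] Φ) :
    (S.base (Trunc T n)).D p (fun _ => d) *
      (S.base (Trunc T n)).ρ z ((inT T n c ⊗ₜ 1) * y) * (S.base (Trunc T n)).om p q =
    (inT T n c ⊗ₜ 1) * ((S.base (Trunc T n)).D p (fun _ => d) *
      (S.base (Trunc T n)).ρ z y * (S.base (Trunc T n)).om p q) := by
  rw [map_mul, D4_rho_one, ← mul_assoc _ (inT T n c ⊗ₜ[ℤ] (1 : E)),
    ← tmul_one_comm (Trunc T n) (inT T n c)]
  simp only [mul_assoc]

/-- PROOF. `P(c B; t) = c P(B; c t)`: `dt t (c N) = dt (c t) N`, `qq t x (c B) = c qq (c t) x B`;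
`P(B; c t)` is the image of `P(B; t)` under `truncScale c n` (`map_PP`), use `tcoef_truncScale`. -/
theorem PB_smul (T : Type) [CommRing T] (c : T)
    (B : Matrix (Option (X × Fin n)) (Option (X × Fin n)) T) :
    PB S p q z x n T (c • B) = c ^ (n + 1) • PB S p q z x n T B := by
  unfold PB
  have hκ : ∀ y : Trunc T n ⊗[ℤ] Φ, (inT T n c ⊗ₜ[ℤ] (1 : Φ)) * y = y * (inT T n c ⊗ₜ 1) :=
    fun y => tmul_one_comm (Trunc T n) (inT T n c) y
  have ht : ∀ y : Trunc T n ⊗[ℤ] Φ, (tt T n ⊗ₜ[ℤ] (1 : Φ)) * y = y * (tt T n ⊗ₜ 1) :=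
    fun y => tmul_one_comm (Trunc T n) (tt T n) y
  have hn : IsNilpotent (tt T n ⊗ₜ[ℤ] (1 : Φ)) :=
    isNilpotent_tmul_one (Trunc T n) (tt T n) (isNilpotent_tt T n)
  have hB : (c • B).map (fun b => inT T n b ⊗ₜ[ℤ] (1 : Φ)) =
      (inT T n c ⊗ₜ[ℤ] (1 : Φ)) • B.map (fun b => inT T n b ⊗ₜ[ℤ] (1 : Φ)) := by
    ext a b
    simp only [Matrix.map_apply, Matrix.smul_apply, smul_eq_mul, map_mul,
      Algebra.TensorProduct.tmul_mul_tmul, one_mul]
  have h1 : (S.base (Trunc T n)).PP p q z (tt T n ⊗ₜ 1) (fun a : X × Fin n => 1 ⊗ₜ x a.1)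
      ((c • B).map fun b => inT T n b ⊗ₜ 1) = (inT T n c ⊗ₜ 1) * bmap E (truncScale c n)
      ((S.base (Trunc T n)).PP p q z (tt T n ⊗ₜ 1) (fun a : X × Fin n => 1 ⊗ₜ x a.1)
      (B.map fun b => inT T n b ⊗ₜ 1)) := by
    rw [map_PP (S.base (Trunc T n)) (S.base (Trunc T n)) (bmap Φ (truncScale c n))
      (bmap E (truncScale c n)) (bmap_rho S _) (bmap_s S _) p q z _ ht hn, hB]
    have e1 : bmap Φ (truncScale c n) (tt T n ⊗ₜ 1) = (tt T n ⊗ₜ 1) * (inT T n c ⊗ₜ 1) := by
      rw [bmap_tmul, Algebra.TensorProduct.tmul_mul_tmul, one_mul, mul_comm]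
      congr 1
      simp [truncScale, tt, inT]
    have e2 : (fun a : X × Fin n => bmap Φ (truncScale c n) (1 ⊗ₜ x a.1)) =
        fun a : X × Fin n => 1 ⊗ₜ x a.1 := by
      funext a
      rw [bmap_tmul, map_one]
    have e3 : (B.map fun b => inT T n b ⊗ₜ[ℤ] (1 : Φ)).map (bmap Φ (truncScale c n)) =
        B.map fun b => inT T n b ⊗ₜ[ℤ] (1 : Φ) := by
      ext a b
      simp only [Matrix.map_apply, bmap_tmul]
      congr 1
      simp [truncScale, inT]
    rw [e1, e2, e3]
    unfold Str.PP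
    rw [D4_BX_smul, D4_dt_smul, D4_qq_smul _ _ hκ, D4_PP_mul]
  rw [h1]
  generalize (S.base (Trunc T n)).PP p q z (tt T n ⊗ₜ 1) (fun a : X × Fin n => 1 ⊗ₜ x a.1)
      (B.map fun b => inT T n b ⊗ₜ 1) = y
  rw [D4_tcoef_mul]
  induction y using TensorProduct.induction_on with
  | zero => simp
  | add y₁ y₂ h₁ h₂ => rw [map_add, map_add, smul_add, map_add, smul_add, h₁, h₂]
  | tmul a e =>
    rw [bmap_tmul, LinearMap.rTensor_tmul, LinearMap.rTensor_tmul, TensorProduct.smul_tmul',
      TensorProduct.smul_tmul']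
    congr 1
    change c * tcoef T n (truncScale c n a) = c ^ (n + 1) * tcoef T n a
    rw [tcoef_truncScale, pow_succ' c n, mul_assoc]

/-- scaling the row `none` (`dt` does not change, `qq` is multiplied by `c`) -/
theorem PB_row (T : Type) [CommRing T] (c : T)
    (B : Matrix (Option (X × Fin n)) (Option (X × Fin n)) T) :
    PB S p q z x n T (Matrix.of fun a b => (if a = none then c else 1) * B a b) =
      c • PB S p q z x n T B := by
  unfold PB
  have hκ : ∀ y : Trunc T n ⊗[ℤ] Φ, (inT T n c ⊗ₜ[ℤ] (1 : Φ)) * y = y * (inT T n c ⊗ₜ 1) :=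
    fun y => tmul_one_comm (Trunc T n) (inT T n c) y
  rw [D4_map_row (inT T n)]
  unfold Str.PP
  rw [D4_BX_row, D4_qq_row _ _ hκ, D4_PP_mul, D4_tcoef_mul]

/-- scaling the column `none` -/
theorem PB_col (T : Type) [CommRing T] (c : T)
    (B : Matrix (Option (X × Fin n)) (Option (X × Fin n)) T) :
    PB S p q z x n T (Matrix.of fun a b => (if b = none then c else 1) * B a b) =
      c • PB S p q z x n T B := by
  unfold PB
  have hκ : ∀ y : Trunc T n ⊗[ℤ] Φ, (inT T n c ⊗ₜ[ℤ] (1 : Φ)) * y = y * (inT T n c ⊗ₜ 1) :=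
    fun y => tmul_one_comm (Trunc T n) (inT T n c) y
  rw [D4_map_col (inT T n)]
  unfold Str.PP
  rw [D4_BX_col, D4_qq_col _ _ hκ, D4_PP_mul, D4_tcoef_mul]

end Pool.PI34.BA
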