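import Pool.Agent.LibPI34.BA_D2

/-! PI34, block BA, file D5: the universal coefficients `P_ξ`. -/

set_option autoImplicit false

namespace Pool.PI34.BA

open Equiv Finset Matrix
open scoped TensorProduct

variable {ι Φ E : Type} [Fintype ι] [DecidableEq ι] [Ring Φ] [Ring E] (S : Str ι Φ E)
variable {k : ℕ} (p q : Fin k ↪ ι) (z : ι) {X : Type} [Fintype X] [DecidableEq X]
variable (x : X → Φ) (n : ℕ)

/-- the universal ring -/
abbrev TU (X : Type) (n : ℕ) : Type :=
  MvPolynomial (Option (X × Fin n) × Option (X × Fin n)) ℤ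

/-- the universal matrix -/
noncomputable def BU (X : Type) (n : ℕ) :
    Matrix (Option (X × Fin n)) (Option (X × Fin n)) (TU X n) :=
  Matrix.of fun a b => MvPolynomial.X (a, b)

open Classical in
/-- `ℤ[X] ⊗ W ≃ (Mon →₀ W)` -/
noncomputable def coeffsW (X : Type) (n : ℕ) (W : Type) [AddCommGroup W] :
    TU X n ⊗[ℤ] W ≃ₗ[ℤ] (Mon X n →₀ W) :=
  TensorProduct.equivFinsuppOfBasisLeft
    (MvPolynomial.basisMonomials (Option (X × Fin n) × Option (X × Fin n)) ℤ)

/-- the coefficients `P_ξ` of the universal `PB` -/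
noncomputable def Pxi : Mon X n →₀ E :=
  coeffsW X n E (PB S p q z x n (TU X n) (BU X n))

omit [Fintype X] [DecidableEq X] in
open Classical in
theorem D5_coe {W : Type} [AddCommGroup W] (y : TU X n ⊗[ℤ] W) :
    (coeffsW X n W y).sum (fun ξ w =>
      (MvPolynomial.basisMonomials (Option (X × Fin n) × Option (X × Fin n)) ℤ) ξ ⊗ₜ[ℤ] w) =
      y := by
  have h := TensorProduct.equivFinsuppOfBasisLeft_symm_apply (N := W)
    (MvPolynomial.basisMonomials (Option (X × Fin n) × Option (X × Fin n)) ℤ) (coeffsW X n W y)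
  exact h.symm.trans (LinearEquiv.symm_apply_apply _ _)

omit [Fintype X] [DecidableEq X] in
theorem D5_ev (T : Type) [CommRing T]
    (B : Matrix (Option (X × Fin n)) (Option (X × Fin n)) T) (ξ : Mon X n) :
    MvPolynomial.eval₂Hom (Int.castRingHom T) (fun ab => B ab.1 ab.2)
      ((MvPolynomial.basisMonomials (Option (X × Fin n) × Option (X × Fin n)) ℤ) ξ) =
      evMon B ξ := by
  rw [MvPolynomial.coe_basisMonomials, MvPolynomial.eval₂Hom_monomial, map_one, one_mul]
  rfl

/-- the coefficients of `y ∈ ℤ[X] ⊗ W` determine all the specializations.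
(both sides are additive in `y`; for `y = monomial ⊗ w` it is a computation.) -/
theorem evW_coeffsW {W : Type} [AddCommGroup W] (y : TU X n ⊗[ℤ] W) (T : Type) [CommRing T]
    (B : Matrix (Option (X × Fin n)) (Option (X × Fin n)) T) :
    evW (coeffsW X n W y) T B =
      (MvPolynomial.eval₂Hom (Int.castRingHom T)
        (fun ab => B ab.1 ab.2)).toAddMonoidHom.toIntLinearMap.rTensor W y := by
  have h1 := congrArg ((MvPolynomial.eval₂Hom (Int.castRingHom T)
    (fun ab => B ab.1 ab.2)).toAddMonoidHom.toIntLinearMap.rTensor W) (D5_coe n y)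
  rw [← h1, Finsupp.sum, map_sum, evW, Finsupp.sum]
  refine Finset.sum_congr rfl fun ξ _ => ?_
  rw [LinearMap.rTensor_tmul]
  congr 1
  exact (D5_ev n T B ξ).symm

/-- `Σ_ξ B^ξ ⊗ P_ξ = PB(B)` (`PB_map` for `eval₂Hom`, `bmap_eq_rTensor`) -/
theorem evW_Pxi (T : Type) [CommRing T]
    (B : Matrix (Option (X × Fin n)) (Option (X × Fin n)) T) :
    evW (Pxi S p q z x n) T B = PB S p q z x n T B := by
  rw [Pxi, evW_coeffsW, ← bmap_eq_rTensor, PB_map]
  congr 1
  ext a b
  change MvPolynomial.eval₂Hom (Int.castRingHom T) (fun ab => B ab.1 ab.2)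
    (MvPolynomial.X (a, b)) = B a b
  rw [MvPolynomial.eval₂Hom_X']

end Pool.PI34.BA
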