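import Pool.Agent.LibPI34.BA_D3
import Pool.Agent.LibPI34.BA_D4
import Pool.Agent.LibPI34.BA_D5

/-! PI34, block BA, file D6: the support of `P_ξ`, the package of a string system. -/

set_option autoImplicit false

namespace Pool.PI34.BA

open Equiv Finset Matrix
open scoped TensorProduct

/-- a graded support lemma: `P : Mon →₀ W`, weights `c : pairs → ℕ`; if scaling the entries by `λ^{c(a,b)}` (`λ` the
variable of `TU[λ]`) multiplies the universal evaluation by `λ^m` then every `ξ` in the support has weight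
`m`.  PROOF: `evMon (λ^c B) ξ = λ^{Σ ξ c} evMon B ξ`; take the coefficient of `λ^j X^ξ`,
a linear functional `TU[λ] → ℤ` tensored with `W`. -/
theorem support_weight {X : Type} [Fintype X] [DecidableEq X] {n : ℕ} {W : Type} [AddCommGroup W]
    (P : Mon X n →₀ W) (c : Option (X × Fin n) → Option (X × Fin n) → ℕ) (m : ℕ)
    (h : ∀ (T : Type) [CommRing T] (l : T)
      (B : Matrix (Option (X × Fin n)) (Option (X × Fin n)) T),
      evW P T (Matrix.of fun a b => l ^ c a b * B a b) = l ^ m • evW P T B)
    (ξ : Mon X n) (hξ : P ξ ≠ 0) : (ξ.sum fun ab e => e * c ab.1 ab.2) = m := by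
  classical
  set j : ℕ := ξ.sum fun ab e => e * c ab.1 ab.2 with hj
  by_contra hjm
  apply hξ
  -- the functional: coefficient of `l ^ j X ^ ξ`
  let φ : Polynomial (TU X n) →ₗ[ℤ] ℤ := AddMonoidHom.toIntLinearMap
    { toFun := fun y => MvPolynomial.coeff ξ (y.coeff j)
      map_zero' := by simp
      map_add' := by intro a b; simp }
  have hφ : ∀ y, φ y = MvPolynomial.coeff ξ (y.coeff j) := fun y => rfl
  let Λ : Polynomial (TU X n) ⊗[ℤ] W →ₗ[ℤ] W :=
    (TensorProduct.lid ℤ W).toLinearMap ∘ₗ LinearMap.rTensor W φ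
  have hΛ : ∀ (y : Polynomial (TU X n)) (w : W), Λ (y ⊗ₜ w) = φ y • w := by
    intro y w
    change TensorProduct.lid ℤ W (LinearMap.rTensor W φ (y ⊗ₜ w)) = _
    rw [LinearMap.rTensor_tmul, TensorProduct.lid_tmul]
  let B₀ : Matrix (Option (X × Fin n)) (Option (X × Fin n)) (Polynomial (TU X n)) :=
    Matrix.of fun a b => Polynomial.C (MvPolynomial.X (a, b))
  have h0 : ∀ η : Mon X n, evMon B₀ η = Polynomial.C (MvPolynomial.monomial η 1) := by
    intro η
    rw [MvPolynomial.monomial_eq, map_one, one_mul]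
    unfold evMon
    rw [Finsupp.prod, Finsupp.prod, map_prod]
    refine Finset.prod_congr rfl fun ab _ => ?_
    rw [map_pow]
    rfl
  have h1 : ∀ η : Mon X n,
      evMon (Matrix.of fun a b => (Polynomial.X : Polynomial (TU X n)) ^ c a b * B₀ a b) η =
        Polynomial.X ^ (η.sum fun ab e => e * c ab.1 ab.2) *
          Polynomial.C (MvPolynomial.monomial η 1) := by
    intro η
    rw [← h0 η]
    unfold evMon
    rw [Finsupp.prod, Finsupp.prod, Finsupp.sum, ← Finset.prod_pow_eq_pow_sum,
      ← Finset.prod_mul_distrib]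
    refine Finset.prod_congr rfl fun ab _ => ?_
    rw [Matrix.of_apply, mul_pow, ← pow_mul, mul_comm (c ab.1 ab.2)]
  have key : ∀ (s : ℕ) (η : Mon X n),
      φ (Polynomial.X ^ s * Polynomial.C (MvPolynomial.monomial η 1)) =
        if s = j ∧ η = ξ then 1 else 0 := by
    intro s η
    rw [hφ, mul_comm, Polynomial.coeff_C_mul, Polynomial.coeff_X_pow]
    by_cases hs : j = s
    · rw [if_pos hs, mul_one, MvPolynomial.coeff_monomial]
      by_cases he : η = ξ
      · rw [if_pos he, if_pos ⟨hs.symm, he⟩]
      · rw [if_neg he, if_neg (fun h => he h.2)]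
    · rw [if_neg hs, mul_zero, MvPolynomial.coeff_zero, if_neg (fun h => hs h.1.symm)]
  have hh := congrArg Λ (h (Polynomial (TU X n)) Polynomial.X B₀)
  have hL : Λ (evW P (Polynomial (TU X n))
      (Matrix.of fun a b => (Polynomial.X : Polynomial (TU X n)) ^ c a b * B₀ a b)) = P ξ := by
    unfold evW
    rw [Finsupp.sum, map_sum, Finset.sum_eq_single ξ]
    · rw [hΛ, h1, key, if_pos ⟨hj.symm, rfl⟩, one_smul]
    · intro η _ hη
      rw [hΛ, h1, key, if_neg (fun h => hη h.2), zero_smul]
    · intro hn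
      rw [Finsupp.notMem_support_iff] at hn
      rw [hn, TensorProduct.tmul_zero, map_zero]
  have hR : Λ ((Polynomial.X : Polynomial (TU X n)) ^ m • evW P (Polynomial (TU X n)) B₀) = 0 := by
    unfold evW
    rw [Finsupp.sum, Finset.smul_sum, map_sum]
    refine Finset.sum_eq_zero fun η _ => ?_
    rw [TensorProduct.smul_tmul', smul_eq_mul, hΛ, h0, key, if_neg (fun h => hjm h.1.symm),
      zero_smul]
  rw [← hL, hh, hR]

variable {ι Φ E : Type} [Fintype ι] [DecidableEq ι] [Ring Φ] [Ring E] (S : Str ι Φ E)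
variable {k : ℕ} (p q : Fin k ↪ ι) (z : ι) {X : Type} [Fintype X] [DecidableEq X]
variable (x : X → Φ) (n : ℕ)

/-- `support_weight` with the weights `1`, `[a = none]`, `[b = none]` and `PB_smul`, `PB_row`, `PB_col` -/
theorem goodMon_of_Pxi (ξ : Mon X n) (hξ : Pxi S p q z x n ξ ≠ 0) : GoodMon ξ := by
  refine ⟨?_, ?_, ?_⟩
  · have h := support_weight (Pxi S p q z x n) (fun _ _ => 1) (n + 1) (by
      intro T _ l B
      rw [evW_Pxi, evW_Pxi, ← PB_smul S p q z x n T l B]
      congr 1
      ext a b
      rw [Matrix.of_apply, pow_one, Matrix.smul_apply, smul_eq_mul]) ξ hξ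
    rw [← h]
    refine Finsupp.sum_congr fun ab _ => ?_
    rw [mul_one]
  · have h := support_weight (Pxi S p q z x n) (fun a _ => if a = none then 1 else 0) 1 (by
      intro T _ l B
      rw [evW_Pxi, evW_Pxi, pow_one, ← PB_row S p q z x n T l B]
      congr 1
      ext a b
      rw [Matrix.of_apply, Matrix.of_apply]
      by_cases ha : a = none
      · rw [if_pos ha, if_pos ha, pow_one]
      · rw [if_neg ha, if_neg ha, pow_zero]) ξ hξ
    rw [← h, Finsupp.sum_fintype _ _ (fun _ => zero_mul _), Fintype.sum_prod_type,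
      Fintype.sum_option (fun a : Option (X × Fin n) => ∑ y : Option (X × Fin n),
        ξ (a, y) * (if a = none then 1 else 0))]
    have h2 : ∑ i : X × Fin n, ∑ y : Option (X × Fin n),
        ξ (some i, y) * (if (some i : Option (X × Fin n)) = none then 1 else 0) = 0 := by
      refine Finset.sum_eq_zero fun i _ => Finset.sum_eq_zero fun y _ => ?_
      rw [if_neg (by simp), mul_zero]
    rw [h2, add_zero]
    refine Finset.sum_congr rfl fun b _ => ?_
    rw [if_pos rfl, mul_one]
  · have h := support_weight (Pxi S p q z x n) (fun _ b => if b = none then 1 else 0) 1 (by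
      intro T _ l B
      rw [evW_Pxi, evW_Pxi, pow_one, ← PB_col S p q z x n T l B]
      congr 1
      ext a b
      rw [Matrix.of_apply, Matrix.of_apply]
      by_cases ha : b = none
      · rw [if_pos ha, if_pos ha, pow_one]
      · rw [if_neg ha, if_neg ha, pow_zero]) ξ hξ
    rw [← h, Finsupp.sum_fintype _ _ (fun _ => zero_mul _), Fintype.sum_prod_type]
    refine Finset.sum_congr rfl fun a _ => ?_
    rw [Fintype.sum_option (fun y : Option (X × Fin n) =>
        ξ (a, y) * (if y = none then 1 else 0))]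
    have h2 : ∑ i : X × Fin n,
        ξ (a, some i) * (if (some i : Option (X × Fin n)) = none then 1 else 0) = 0 := by
      refine Finset.sum_eq_zero fun i _ => ?_
      rw [if_neg (by simp), mul_zero]
    rw [h2, add_zero, if_pos rfl, mul_one]

/-- the package of a string system -/
noncomputable def Str.pkg (hA : Anti S.s k) (hF : Frame p q z) : Pkg X k n E where
  P := Pxi S p q z x n
  deg ξ hξ := goodMon_of_Pxi S p q z x n ξ hξ
  inv T _ _ B h h' h1 h2 hh := by
    rw [evW_Pxi, evW_Pxi, PB_inv S p q z x n hA hF T B h h' h1 h2 hh]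
  rank T _ _ B u v j hj := by
    rw [evW_Pxi, PB_rank S p q z x n hA hF T B u v j hj]

end Pool.PI34.BA
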