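import Pool.Agent.LibPI34.BA_D5

/-! PI34, block BA, file D7: the coefficient of the path monomial. -/

set_option autoImplicit false

namespace Pool.PI34.BA

open Equiv Finset Matrix
open scoped TensorProduct

variable {X : Type} [Fintype X] [DecidableEq X]

set_option linter.unusedSectionVars false

/-- the monomial of the path of the word `w` -/
noncomputable def pathMon {n : ℕ} (w : Fin n → X) : Mon X n :=
  ∑ e : Fin (n + 1), Finsupp.single (tail w e, head w e) 1

theorem D7_tail_injective {n : ℕ} (w : Fin n → X) : Function.Injective (tail w) := by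
  intro e e' h
  refine Fin.cases ?_ (fun i => ?_) e h
  · intro h
    refine Fin.cases (fun _ => rfl) (fun j hj => ?_) e' h
    simp [tail] at hj
  · intro h
    refine Fin.cases (fun hj => ?_) (fun j hj => ?_) e' h
    · simp [tail] at hj
    · simp only [tail, Fin.cases_succ, Option.some.injEq, Prod.mk.injEq] at hj
      rw [hj.2]

theorem D7_edge_injective {n : ℕ} (w : Fin n → X) :
    Function.Injective fun e : Fin (n + 1) => (tail w e, head w e) := by
  intro e e' h
  exact D7_tail_injective w (Prod.mk.inj h).1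

theorem D7_pathMon_edge {n : ℕ} (w : Fin n → X) (e : Fin (n + 1)) :
    pathMon w (tail w e, head w e) = 1 := by
  unfold pathMon
  rw [Finsupp.finsetSum_apply, Finset.sum_eq_single e]
  · simp
  · intro e' _ he'
    rw [Finsupp.single_apply, if_neg]
    intro h
    exact he' (D7_edge_injective w h)
  · intro h
    exact absurd (mem_univ e) h

theorem D7_pathMon_off {n : ℕ} (w : Fin n → X) (ab : Option (X × Fin n) × Option (X × Fin n))
    (h : ∀ e : Fin (n + 1), ab ≠ (tail w e, head w e)) : pathMon w ab = 0 := by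
  unfold pathMon
  rw [Finsupp.finsetSum_apply]
  apply Finset.sum_eq_zero
  intro e _
  rw [Finsupp.single_apply, if_neg]
  intro h'
  exact h e h'.symm

theorem pathMon_injective {n : ℕ} : Function.Injective (pathMon (X := X) (n := n)) := by
  intro w w' h
  funext i
  have h1 := D7_pathMon_edge w i.succ
  rw [h] at h1
  by_contra hne
  have h2 := D7_pathMon_off w' (tail w i.succ, head w i.succ) (by
    intro e he
    have h3 := (Prod.mk.inj he).1
    revert h3
    refine Fin.cases ?_ (fun j => ?_) e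
    · intro h3
      simp [tail] at h3
    · intro h3
      simp only [tail, Fin.cases_succ, Option.some.injEq, Prod.mk.injEq] at h3
      obtain ⟨h4, rfl⟩ := h3
      exact hne h4)
  rw [h2] at h1
  exact zero_ne_one h1

theorem D7_pathMat_edge {n : ℕ} {Λ : Type} [Ring Λ] (w : Fin n → X) (b : Fin (n + 1) → Λ)
    (e : Fin (n + 1)) : pathMat w b (tail w e) (head w e) = b e := by
  unfold pathMat
  rw [Matrix.sum_apply, Finset.sum_eq_single e]
  · simp
  · intro e' _ he'
    rw [Matrix.single_apply, if_neg]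
    rintro ⟨h, _⟩
    exact he' (D7_tail_injective w h)
  · intro h
    exact absurd (mem_univ e) h

theorem D7_pathMat_off {n : ℕ} {Λ : Type} [Ring Λ] (w : Fin n → X) (b : Fin (n + 1) → Λ)
    (ab : Option (X × Fin n) × Option (X × Fin n))
    (h : ∀ e : Fin (n + 1), ab ≠ (tail w e, head w e)) : pathMat w b ab.1 ab.2 = 0 := by
  unfold pathMat
  rw [Matrix.sum_apply]
  apply Finset.sum_eq_zero
  intro e _
  rw [Matrix.single_apply, if_neg]
  rintro ⟨h1, h2⟩
  exact h e (Prod.ext h1.symm h2.symm)

theorem D7_prod_X {m : ℕ} (k : Fin m → ℕ) :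
    ∏ e, (MvPolynomial.X e : MvPolynomial (Fin m) ℤ) ^ k e =
      MvPolynomial.monomial (Finsupp.equivFunOnFinite.symm k) 1 := by
  rw [← MvPolynomial.prod_X_pow_eq_monomial]
  symm
  apply Finset.prod_subset (subset_univ _)
  intro e _ he
  rw [Finsupp.notMem_support_iff] at he
  have : k e = 0 := he
  simp [this]

theorem D7_evMon_on {n : ℕ} (w : Fin n → X) (ξ : Mon X n)
    (h : ∀ ab ∈ ξ.support, ∃ e : Fin (n + 1), ab = (tail w e, head w e)) :
    evMon (pathMat w fun e => (MvPolynomial.X e : MvPolynomial (Fin (n + 1)) ℤ)) ξ =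
      MvPolynomial.monomial (Finsupp.equivFunOnFinite.symm
        fun e => ξ (tail w e, head w e)) 1 := by
  classical
  rw [← D7_prod_X]
  unfold evMon Finsupp.prod
  have h1 : ξ.support ⊆ univ.image fun e : Fin (n + 1) => (tail w e, head w e) := by
    intro ab hab
    obtain ⟨e, rfl⟩ := h ab hab
    exact mem_image_of_mem _ (mem_univ e)
  rw [Finset.prod_subset h1, Finset.prod_image]
  · apply Finset.prod_congr rfl
    intro e _
    simp only [D7_pathMat_edge]
  · intro e _ e' _ hee
    exact D7_edge_injective w hee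
  · intro ab _ hab
    rw [Finsupp.notMem_support_iff] at hab
    rw [hab]
    exact pow_zero _

theorem D7_coeff_evMon {n : ℕ} (w : Fin n → X) (ξ : Mon X n) :
    MvPolynomial.coeff (Finsupp.equivFunOnFinite.symm fun _ : Fin (n + 1) => 1)
      (evMon (pathMat w fun e => (MvPolynomial.X e : MvPolynomial (Fin (n + 1)) ℤ)) ξ) =
      if ξ = pathMon w then 1 else 0 := by
  classical
  by_cases h : ∀ ab ∈ ξ.support, ∃ e : Fin (n + 1), ab = (tail w e, head w e)
  · rw [D7_evMon_on w ξ h, MvPolynomial.coeff_monomial]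
    have h1 : (Finsupp.equivFunOnFinite.symm (fun e : Fin (n + 1) => ξ (tail w e, head w e)) =
        Finsupp.equivFunOnFinite.symm fun _ : Fin (n + 1) => 1) ↔ ξ = pathMon w := by
      rw [Finsupp.equivFunOnFinite.symm.injective.eq_iff]
      constructor
      · intro h2
        ext ab
        by_cases h3 : ∃ e : Fin (n + 1), ab = (tail w e, head w e)
        · obtain ⟨e, rfl⟩ := h3
          rw [D7_pathMon_edge]
          exact congrFun h2 e
        · push Not at h3
          rw [D7_pathMon_off w ab h3]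
          by_contra h4
          obtain ⟨e, he⟩ := h ab (Finsupp.mem_support_iff.2 h4)
          exact h3 e he
      · intro h2
        funext e
        rw [h2, D7_pathMon_edge]
    by_cases h2 : ξ = pathMon w
    · rw [if_pos (h1.2 h2), if_pos h2]
    · rw [if_neg (fun h3 => h2 (h1.1 h3)), if_neg h2]
  · push Not at h
    obtain ⟨ab, hab, h1⟩ := h
    have h2 : evMon (pathMat w fun e => (MvPolynomial.X e : MvPolynomial (Fin (n + 1)) ℤ)) ξ
        = 0 := by
      unfold evMon Finsupp.prod
      apply Finset.prod_eq_zero hab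
      show pathMat w (fun e => (MvPolynomial.X e : MvPolynomial (Fin (n + 1)) ℤ)) ab.1 ab.2 ^ ξ ab
        = 0
      rw [D7_pathMat_off w _ ab h1]
      exact zero_pow (Finsupp.mem_support_iff.1 hab)
    rw [h2, MvPolynomial.coeff_zero, if_neg]
    rintro rfl
    exact Finsupp.mem_support_iff.1 hab (D7_pathMon_off w ab h1)

/-- if the value of `P` at the universal path matrix is `(∏ b_e) ⊗ y`, then `P_{path} = y`.
PROOF: `T = ℤ[b_0, …, b_n]`; `evMon (pathMat w b) ξ = 0` unless `ξ` is supported on the edges of the path, and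
then it is the monomial `∏ b_e^{ξ(e)}` (the edges are distinct pairs).  Apply (coefficient of `∏ b_e`) `⊗ id`. -/
theorem coeff_path {n : ℕ} {W : Type} [AddCommGroup W] (P : Mon X n →₀ W) (w : Fin n → X) (y : W)
    (h : evW P (MvPolynomial (Fin (n + 1)) ℤ) (pathMat w fun e => MvPolynomial.X e) =
      (List.ofFn fun e : Fin (n + 1) => (MvPolynomial.X e : MvPolynomial (Fin (n + 1)) ℤ)).prod
        ⊗ₜ[ℤ] y) :
    P (pathMon w) = y := by
  classical
  let φ : MvPolynomial (Fin (n + 1)) ℤ →ₗ[ℤ] ℤ :=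
    MvPolynomial.lcoeff ℤ (Finsupp.equivFunOnFinite.symm fun _ : Fin (n + 1) => 1)
  have hφ : ∀ f : MvPolynomial (Fin (n + 1)) ℤ, φ f =
      MvPolynomial.coeff (Finsupp.equivFunOnFinite.symm fun _ : Fin (n + 1) => 1) f :=
    fun _ => rfl
  let ψ : MvPolynomial (Fin (n + 1)) ℤ ⊗[ℤ] W →ₗ[ℤ] W :=
    (TensorProduct.lid ℤ W).toLinearMap ∘ₗ φ.rTensor W
  have hψ : ∀ (f : MvPolynomial (Fin (n + 1)) ℤ) (v : W), ψ (f ⊗ₜ v) = φ f • v := by
    intro f v
    show (TensorProduct.lid ℤ W) (φ.rTensor W (f ⊗ₜ v)) = φ f • v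
    rw [LinearMap.rTensor_tmul, TensorProduct.lid_tmul]
  have h1 := congrArg ψ h
  rw [hψ, hφ, List.prod_ofFn] at h1
  have h2 : ∏ e, (MvPolynomial.X e : MvPolynomial (Fin (n + 1)) ℤ) =
      MvPolynomial.monomial (Finsupp.equivFunOnFinite.symm fun _ => 1) 1 := by
    rw [← D7_prod_X]
    simp
  rw [h2, MvPolynomial.coeff_monomial, if_pos rfl, one_smul] at h1
  rw [← h1]
  unfold evW Finsupp.sum
  rw [map_sum]
  have h3 : ∀ ξ ∈ P.support, ψ (evMon (pathMat w fun e => MvPolynomial.X e) ξ ⊗ₜ P ξ) =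
      if ξ = pathMon w then P ξ else 0 := by
    intro ξ _
    rw [hψ, hφ, D7_coeff_evMon]
    split_ifs <;> simp
  rw [Finset.sum_congr rfl h3, Finset.sum_ite_eq']
  split_ifs with h4
  · rfl
  · exact Finsupp.notMem_support_iff.1 h4

variable {ι Φ E : Type} [Fintype ι] [DecidableEq ι] [Ring Φ] [Ring E] (S : Str ι Φ E)
variable {k : ℕ} (p q : Fin k ↪ ι) (z : ι) (x : X → Φ) (n : ℕ)

/-- `P_{path(w)} = (-1)^n ρ_z(x_{w 0} ⋯ x_{w (n-1)}) ω` (`coeff_path`, `evW_Pxi`, `PB_path`) -/
theorem Pxi_path (w : Fin n → X) :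
    Pxi S p q z x n (pathMon w) =
      (-1 : ℤ) ^ n • (S.ρ z (List.ofFn fun i => x (w i)).prod * S.om p q) := by
  apply coeff_path
  rw [evW_Pxi, PB_path, TensorProduct.tmul_smul]

end Pool.PI34.BA
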