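import Pool.Agent.LibPI34.BA_D5
import Pool.Agent.LibPI34.BA_D6

/-! PI34, block BA, file D8: morphisms and products of string systems. -/

set_option autoImplicit false

namespace Pool.PI34.BA

open Equiv Finset Matrix
open scoped TensorProduct

variable {ι Φ E Φ' E' : Type} [Fintype ι] [DecidableEq ι] [Ring Φ] [Ring E] [Ring Φ'] [Ring E']

/-- change of the letters -/
noncomputable def Str.comap (S : Str ι Φ E) (f : Φ' →+* Φ) : Str ι Φ' E where
  ρ i := (S.ρ i).comp f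
  s := S.s
  comm i j hij a b := S.comm i j hij _ _
  conj σ i a := S.conj σ i _

/-- product of two string systems with the same letters -/
noncomputable def Str.prod (S : Str ι Φ E) (S' : Str ι Φ E') : Str ι Φ (E × E') where
  ρ i := (S.ρ i).prod (S'.ρ i)
  s := S.s.prod S'.s
  comm i j hij a b := Prod.ext (S.comm i j hij a b) (S'.comm i j hij a b)
  conj σ i a := Prod.ext (S.conj σ i a) (S'.conj σ i a)

theorem prod_Anti (S : Str ι Φ E) (S' : Str ι Φ E') (k : ℕ) (h : Anti S.s k) (h' : Anti S'.s k) :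
    Anti (S.prod S').s k := by
  intro T hT
  refine Prod.ext ?_ ?_
  · refine Eq.trans ?_ (h T hT)
    change RingHom.fst E E' (anti (S.prod S').s T) = _
    unfold anti
    rw [map_sum]
    rfl
  · refine Eq.trans ?_ (h' T hT)
    change RingHom.snd E E' (anti (S.prod S').s T) = _
    unfold anti
    rw [map_sum]
    rfl

/-- the map `T ⊗ R → T ⊗ R'` induced by `f` as a ring homomorphism -/
noncomputable def D8_lmap (T : Type) [CommRing T] {R R' : Type} [Ring R] [Ring R']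
    (f : R →+* R') : T ⊗[ℤ] R →+* T ⊗[ℤ] R' :=
  (Algebra.TensorProduct.map (AlgHom.id ℤ T) f.toIntAlgHom : T ⊗[ℤ] R →ₐ[ℤ] T ⊗[ℤ] R')

theorem D8_lmap_tmul (T : Type) [CommRing T] {R R' : Type} [Ring R] [Ring R']
    (f : R →+* R') (a : T) (r : R) : D8_lmap T f (a ⊗ₜ r) = a ⊗ₜ f r := by
  simp [D8_lmap]

theorem D8_rho (S : Str ι Φ E) (S' : Str ι Φ' E') (f : Φ →+* Φ') (g : E →+* E')
    (hρ : ∀ i a, g (S.ρ i a) = S'.ρ i (f a)) (T : Type) [CommRing T] (i : ι) (a : T ⊗[ℤ] Φ) :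
    D8_lmap T g ((S.base T).ρ i a) = (S'.base T).ρ i (D8_lmap T f a) := by
  induction a using TensorProduct.induction_on with
  | zero => simp only [map_zero]
  | add y₁ y₂ h₁ h₂ => rw [map_add, map_add, map_add, map_add, h₁, h₂]
  | tmul b r => rw [base_rho_tmul, D8_lmap_tmul, D8_lmap_tmul, base_rho_tmul, hρ]

theorem D8_s (S : Str ι Φ E) (S' : Str ι Φ' E') (g : E →+* E')
    (hs : ∀ σ, g (S.s σ) = S'.s σ) (T : Type) [CommRing T] (σ : Perm ι) :
    D8_lmap T g ((S.base T).s σ) = (S'.base T).s σ := by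
  rw [base_s, D8_lmap_tmul, base_s, hs]

theorem D8_func {T T' R R' : Type} [CommRing T] [CommRing T'] [Ring R] [Ring R'] (c : T →+ T')
    (g : R →+* R') (y : T ⊗[ℤ] R) :
    D8_lmap T' g (c.toIntLinearMap.rTensor R y) =
      c.toIntLinearMap.rTensor R' (D8_lmap T g y) := by
  induction y using TensorProduct.induction_on with
  | zero => simp only [map_zero]
  | add y₁ y₂ h₁ h₂ => rw [map_add, map_add, map_add, map_add, h₁, h₂]
  | tmul b r =>
    rw [D8_lmap_tmul, LinearMap.rTensor_tmul, LinearMap.rTensor_tmul, D8_lmap_tmul]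

open Classical in
theorem D8_coeffs_tmul {X : Type} (n : ℕ) {R : Type} [Ring R]
    (b : TU X n) (r : R) (ξ : Mon X n) : coeffsW X n R (b ⊗ₜ r) ξ =
      (MvPolynomial.basisMonomials (Option (X × Fin n) × Option (X × Fin n)) ℤ).repr b ξ • r :=
  TensorProduct.equivFinsuppOfBasisLeft_apply_tmul_apply
    (MvPolynomial.basisMonomials (Option (X × Fin n) × Option (X × Fin n)) ℤ) b r ξ

theorem D8_coeffsW {X : Type} (n : ℕ) {R R' : Type} [Ring R]
    [Ring R'] (g : R →+* R') (y : TU X n ⊗[ℤ] R) (ξ : Mon X n) :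
    coeffsW X n R' (D8_lmap (TU X n) g y) ξ = g (coeffsW X n R y ξ) := by
  induction y using TensorProduct.induction_on with
  | zero => simp only [map_zero, Finsupp.coe_zero, Pi.zero_apply]
  | add y₁ y₂ h₁ h₂ =>
    rw [map_add, map_add, map_add, Finsupp.add_apply, Finsupp.add_apply, map_add, h₁, h₂]
  | tmul b r =>
    rw [D8_lmap_tmul, D8_coeffs_tmul, D8_coeffs_tmul, map_zsmul]

theorem D8_PB (S : Str ι Φ E) (S' : Str ι Φ' E') (f : Φ →+* Φ') (g : E →+* E')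
    (hρ : ∀ i a, g (S.ρ i a) = S'.ρ i (f a)) (hs : ∀ σ, g (S.s σ) = S'.s σ)
    {k : ℕ} (p q : Fin k ↪ ι) (z : ι) {X : Type} [Fintype X] [DecidableEq X] (x : X → Φ) (n : ℕ)
    (T : Type) [CommRing T] (B : Matrix (Option (X × Fin n)) (Option (X × Fin n)) T) :
    D8_lmap T g (PB S p q z x n T B) = PB S' p q z (fun a => f (x a)) n T B := by
  unfold PB
  rw [D8_func]
  have ht : ∀ y : Trunc T n ⊗[ℤ] Φ, (tt T n ⊗ₜ[ℤ] (1 : Φ)) * y = y * (tt T n ⊗ₜ 1) :=
    fun y => tmul_one_comm (Trunc T n) (tt T n) y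
  have hn : IsNilpotent (tt T n ⊗ₜ[ℤ] (1 : Φ)) :=
    isNilpotent_tmul_one (Trunc T n) (tt T n) (isNilpotent_tt T n)
  rw [map_PP (S.base (Trunc T n)) (S'.base (Trunc T n)) (D8_lmap (Trunc T n) f)
    (D8_lmap (Trunc T n) g) (D8_rho S S' f g hρ (Trunc T n)) (D8_s S S' g hs (Trunc T n))
    p q z _ ht hn]
  have e1 : D8_lmap (Trunc T n) f (tt T n ⊗ₜ[ℤ] 1) = tt T n ⊗ₜ[ℤ] 1 := by
    rw [D8_lmap_tmul, map_one]
  have e2 : (fun a : X × Fin n => D8_lmap (Trunc T n) f (1 ⊗ₜ[ℤ] x a.1)) =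
      fun a => 1 ⊗ₜ[ℤ] f (x a.1) := by
    funext a
    rw [D8_lmap_tmul]
  have e3 : (B.map fun b => inT T n b ⊗ₜ[ℤ] (1 : Φ)).map (D8_lmap (Trunc T n) f) =
      B.map fun b => inT T n b ⊗ₜ[ℤ] (1 : Φ') := by
    ext1 a b
    simp only [Matrix.map_apply]
    rw [D8_lmap_tmul, map_one]
  rw [e1, e2, e3]

/-- `Pxi` is natural for morphisms of string systems (`map_PP` for the base changes, then `tcoef ⊗ id`) -/
theorem map_Pxi (S : Str ι Φ E) (S' : Str ι Φ' E') (f : Φ →+* Φ') (g : E →+* E')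
    (hρ : ∀ i a, g (S.ρ i a) = S'.ρ i (f a)) (hs : ∀ σ, g (S.s σ) = S'.s σ)
    {k : ℕ} (p q : Fin k ↪ ι) (z : ι) {X : Type} [Fintype X] [DecidableEq X] (x : X → Φ) (n : ℕ)
    (ξ : Mon X n) :
    g (Pxi S p q z x n ξ) = Pxi S' p q z (fun a => f (x a)) n ξ := by
  unfold Pxi
  rw [← D8_coeffsW, D8_PB S S' f g hρ hs]

end Pool.PI34.BA
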