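import Mathlib

/-!
PI34, block BA: definitions.

`anti s T` : the antisymmetrizer over the permutations supported in `T`.
`Str ι Φ E` : a string system (strands `ι`, letters `Φ`, operators `E`).
`S.D e w` : the product of the letters `w i` on the strands `e i`.
`dt`, `qq`, `Str.PP` : the closing determinant, the open string, and the vector `P(B)`.
-/

set_option autoImplicit false

namespace Pool.PI34.BA

open Equiv Finset

section anti

variable {ι : Type*} [Fintype ι] [DecidableEq ι] {E : Type*} [Ring E]

/-- the permutations supported in `T` -/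
def permsOn (T : Finset ι) : Finset (Perm ι) :=
  univ.filter fun σ : Perm ι => ∀ x, x ∉ T → σ x = x

/-- signed antisymmetrizer over the permutations supported in `T` -/
def anti (s : Perm ι →* E) (T : Finset ι) : E :=
  ∑ σ ∈ permsOn T, ((Perm.sign σ : ℤˣ) : ℤ) • s σ

/-- the hypothesis: all the antisymmetrizers of rank `k + 1` vanish -/
def Anti (s : Perm ι →* E) (k : ℕ) : Prop :=
  ∀ T : Finset ι, T.card = k + 1 → anti s T = 0

end anti

/-- string systems -/
structure Str (ι Φ E : Type*) [Fintype ι] [DecidableEq ι] [Ring Φ] [Ring E] where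
  ρ : ι → Φ →+* E
  s : Perm ι →* E
  comm : ∀ i j, i ≠ j → ∀ a b, ρ i a * ρ j b = ρ j b * ρ i a
  conj : ∀ σ i a, s σ * ρ i a = ρ (σ i) a * s σ

section str

variable {ι Φ E : Type*} [Fintype ι] [DecidableEq ι] [Ring Φ] [Ring E]

/-- the product of the letters `w i` placed on the strands `e i` -/
def Str.D (S : Str ι Φ E) {k : ℕ} (e : Fin k → ι) (w : Fin k → Φ) : E :=
  (List.ofFn fun i => S.ρ (e i) (w i)).prod

/-- `ω = A_P A_Q` -/
def Str.om (S : Str ι Φ E) {k : ℕ} (p q : Fin k ↪ ι) : E :=
  anti S.s (univ.map p) * anti S.s (univ.map q)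

/-- the three pairwise disjoint groups of strands `z`, `P`, `Q` -/
structure Frame {k : ℕ} (p q : Fin k ↪ ι) (z : ι) : Prop where
  pq : ∀ i j, p i ≠ q j
  pz : ∀ i, p i ≠ z
  qz : ∀ i, q i ≠ z

/-- polynomial extension of a string system -/
noncomputable def Str.poly (S : Str ι Φ E) : Str ι (Polynomial Φ) (Polynomial E) where
  ρ i := Polynomial.mapRingHom (S.ρ i)
  s := (Polynomial.C : E →+* Polynomial E).toMonoidHom.comp S.s
  comm i j hij a b := by
    ext n
    simp only [Polynomial.coe_mapRingHom, Polynomial.coeff_mul, Polynomial.coeff_map]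
    rw [← Finset.Nat.sum_antidiagonal_swap]
    exact Finset.sum_congr rfl fun x _ => S.comm i j hij _ _
  conj σ i a := by
    ext n
    simp [Polynomial.coeff_C_mul, Polynomial.coeff_mul_C, S.conj]

end str

section matrices

variable {A Λ : Type*} [Fintype A] [DecidableEq A] [Ring Λ]

/-- the rows of `N` with index in the list `l`, all the others are `0` -/
def rowsIn (N : Matrix A A Λ) (l : List A) : Matrix A A Λ :=
  Matrix.of fun a b => if a ∈ l then N a b else 0

/-- the closing determinant `∏_a (1 + t N_a M_{<a}⁻¹ e_a)` -/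
noncomputable def dt (t : Λ) (N : Matrix A A Λ) : List A → Λ
  | [] => 1
  | a :: l => dt t N l * (1 + t * (N * Ring.inverse (1 + t • rowsIn N l)) a a)

/-- the matrix `B_A X` -/
def BX (x : A → Λ) (B : Matrix (Option A) (Option A) Λ) : Matrix A A Λ :=
  Matrix.of fun a b => B (some a) (some b) * x b

/-- the open string `B_00 - t B_0. X (1 + t B_A X)⁻¹ B_.0` -/
noncomputable def qq (t : Λ) (x : A → Λ) (B : Matrix (Option A) (Option A) Λ) : Λ :=
  B none none - t * ∑ a, ∑ b, B none (some a) * x a *
    (Ring.inverse (1 + t • BX x B)) a b * B (some b) none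

/-- `1 ⊕ h` -/
def optDiag (h : Matrix A A Λ) : Matrix (Option A) (Option A) Λ :=
  Matrix.of fun a b => match a, b with
    | none, none => 1
    | some a, some b => h a b
    | _, _ => 0

/-- `P(B) = D(dt(B_A X)) ρ_z(q(B)) ω` -/
noncomputable def Str.PP {ι E : Type*} [Fintype ι] [DecidableEq ι] [Ring E] (S : Str ι Λ E) {k : ℕ}
    (p q : Fin k ↪ ι) (z : ι) (t : Λ) (x : A → Λ) (B : Matrix (Option A) (Option A) Λ) : E :=
  S.D p (fun _ => dt t (BX x B) (univ : Finset A).toList) * S.ρ z (qq t x B) * S.om p q

end matrices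

end Pool.PI34.BA
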