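import Pool.Agent.LibPI34.BA_E0

/-! PI34, block BA, file E1: every field is the residue field of a `ℤ`-flat local ring. -/

set_option autoImplicit false

namespace Pool.PI34.BA

/-- PROOF.  `MvPolynomial K ℤ → K` (`eval₂ (Int.castRingHom K) id`) is surjective with prime kernel `P`;
`T := Localization.AtPrime P` is flat over `MvPolynomial K ℤ` (localization), which is free over `ℤ`;
`π := Localization lift`; an element of `T` with nonzero image is a unit. -/
theorem exists_flat_lift (K : Type) [Field K] : ∃ (T : Type) (_ : CommRing T)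
    (_ : Module.Flat ℤ T) (π : T →+* K), Function.Surjective π ∧ ∀ a, IsUnit (π a) → IsUnit a := by
  let φ : MvPolynomial K ℤ →+* K := MvPolynomial.eval₂Hom (Int.castRingHom K) id
  have hφ : Function.Surjective φ := fun k => ⟨MvPolynomial.X k, by simp [φ]⟩
  let P : Ideal (MvPolynomial K ℤ) := RingHom.ker φ
  haveI hP : P.IsPrime := RingHom.ker_isPrime φ
  have hg : ∀ y : P.primeCompl, IsUnit (φ y) := by
    rintro ⟨y, hy⟩
    exact isUnit_iff_ne_zero.2 fun h0 => hy (RingHom.mem_ker.2 h0)
  let π : Localization.AtPrime P →+* K := IsLocalization.lift hg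
  have hπ : ∀ x, π (algebraMap _ _ x) = φ x := fun x => IsLocalization.lift_eq hg x
  haveI h1 : Module.Flat (MvPolynomial K ℤ) (Localization.AtPrime P) :=
    IsLocalization.flat _ P.primeCompl
  have h2 : Module.Flat ℤ (Localization.AtPrime P) :=
    Module.Flat.trans ℤ (MvPolynomial K ℤ) (Localization.AtPrime P)
  refine ⟨Localization.AtPrime P, inferInstance, h2, π, ?_, ?_⟩
  · intro k
    obtain ⟨x, hx⟩ := hφ k
    exact ⟨algebraMap _ _ x, by rw [hπ, hx]⟩
  · intro a ha
    obtain ⟨x, s, rfl⟩ := IsLocalization.exists_mk'_eq P.primeCompl a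
    rw [IsLocalization.AtPrime.isUnit_mk'_iff]
    intro hx
    have h3 : φ x = 0 := RingHom.mem_ker.1 hx
    rw [IsLocalization.lift_mk', h3, zero_mul] at ha
    exact not_isUnit_zero ha

/-- matrices: an invertible matrix over `K`, zero outside of the diagonal blocks, lifts to an invertible
matrix over `T` of the same form, together with the inverse. (lift `h` entrywise with zeros outside the blocks;
its determinant is a unit; its inverse: take the inverse of the lift; it is zero outside of the blocks because
the block diagonal matrices with invertible determinant have block diagonal inverse: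
e.g. a matrix commutes with the idempotents `diag [a.1 = s]` iff it is block diagonal.) -/
theorem exists_lift_pair {X : Type} [Fintype X] [DecidableEq X] {n : ℕ} {K T : Type} [Field K]
    [CommRing T] (π : T →+* K) (hs : Function.Surjective π) (hu : ∀ a, IsUnit (π a) → IsUnit a)
    (h h' : Matrix (X × Fin n) (X × Fin n) K) (h1 : h * h' = 1) (h2 : h' * h = 1)
    (hb : ∀ a b, a.1 ≠ b.1 → h' a b = 0) :
    ∃ g g' : Matrix (X × Fin n) (X × Fin n) T, g * g' = 1 ∧ g' * g = 1 ∧
      (∀ a b, a.1 ≠ b.1 → g' a b = 0) ∧ g.map π = h ∧ g'.map π = h' := by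
  let g' : Matrix (X × Fin n) (X × Fin n) T :=
    Matrix.of fun a b => if a.1 = b.1 then Function.surjInv hs (h' a b) else 0
  have hg' : g'.map π = h' := by
    ext a b
    simp only [g', Matrix.map_apply, Matrix.of_apply]
    split_ifs with hab
    · exact Function.surjInv_eq hs _
    · rw [map_zero, hb a b hab]
  have hdet : IsUnit g'.det := by
    apply hu
    have h3 : π g'.det = h'.det := by
      rw [RingHom.map_det, RingHom.mapMatrix_apply, hg']
    rw [h3]
    exact (Matrix.isUnit_iff_isUnit_det h').1 ⟨⟨h', h, h2, h1⟩, rfl⟩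
  refine ⟨g'⁻¹, g', Matrix.nonsing_inv_mul _ hdet, Matrix.mul_nonsing_inv _ hdet, ?_, ?_, hg'⟩
  · intro a b hab
    simp only [g', Matrix.of_apply, if_neg hab]
  · have h3 : (g'⁻¹).map π * h' = 1 := by
      rw [← hg', ← Matrix.map_mul, Matrix.nonsing_inv_mul _ hdet]
      exact Matrix.map_one π (map_zero π) (map_one π)
    calc (g'⁻¹).map π = (g'⁻¹).map π * (h' * h) := by rw [h2, mul_one]
      _ = ((g'⁻¹).map π * h') * h := by rw [mul_assoc]
      _ = h := by rw [h3, one_mul]

end Pool.PI34.BA
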