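import Pool.Agent.LibPI34.BA_E1

/-! PI34, block BA, file E2: restriction of a package to the span of its values. -/

set_option autoImplicit false

namespace Pool.PI34.BA

open Equiv Finset Matrix
open scoped TensorProduct

variable {X : Type} [Fintype X] [DecidableEq X] {k n : ℕ} {W : Type} [AddCommGroup W]

/-- the subgroup spanned by the values -/
def Pkg.L (P : Pkg X k n W) : Submodule ℤ W := Submodule.span ℤ (Set.range P.P)

/-- the family with values in `L` -/
noncomputable def Pkg.PL (P : Pkg X k n W) : Mon X n →₀ P.L :=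
  Finsupp.onFinset P.P.support (fun ξ => ⟨P.P ξ, Submodule.subset_span ⟨ξ, rfl⟩⟩) (by
    intro ξ h
    rw [Finsupp.mem_support_iff]
    intro h0
    exact h (Subtype.ext h0))

/-- naturality of `evW` in `W` -/
theorem evW_map {W' : Type} [AddCommGroup W'] (f : W →ₗ[ℤ] W') (P : Mon X n →₀ W) (T : Type)
    [CommRing T] (B : Matrix (Option (X × Fin n)) (Option (X × Fin n)) T) :
    evW (Finsupp.mapRange f (map_zero f) P) T B = f.lTensor T (evW P T B) := by
  unfold evW
  rw [Finsupp.sum_mapRange_index (fun a => TensorProduct.tmul_zero _ _)]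
  unfold Finsupp.sum
  rw [map_sum]
  rfl

/-- naturality of `evW` in `T` -/
theorem evW_base {T T' : Type} [CommRing T] [CommRing T'] (f : T →+* T') (P : Mon X n →₀ W)
    (B : Matrix (Option (X × Fin n)) (Option (X × Fin n)) T) :
    evW P T' (B.map f) = f.toAddMonoidHom.toIntLinearMap.rTensor W (evW P T B) := by
  have hm : ∀ ξ : Mon X n, evMon (B.map f) ξ = f (evMon B ξ) := fun ξ => by
    unfold evMon Finsupp.prod
    rw [map_prod]
    exact Finset.prod_congr rfl fun ab _ => (map_pow f (B ab.1 ab.2) (ξ ab)).symm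
  unfold evW Finsupp.sum
  rw [map_sum]
  refine Finset.sum_congr rfl fun ξ _ => ?_
  change evMon (B.map f) ξ ⊗ₜ[ℤ] P ξ = f (evMon B ξ) ⊗ₜ[ℤ] P ξ
  rw [hm]

theorem Pkg.PL_map (P : Pkg X k n W) :
    Finsupp.mapRange P.L.subtype (map_zero P.L.subtype) P.PL = P.P := by
  ext ξ
  rfl

theorem E2_sub (P : Pkg X k n W) (T : Type) [CommRing T]
    (B : Matrix (Option (X × Fin n)) (Option (X × Fin n)) T) :
    P.L.subtype.lTensor T (evW P.PL T B) = evW P.P T B := by
  rw [← evW_map, P.PL_map]

/-- the package restricted to `L`: `T ⊗ L → T ⊗ W` is injective for flat `T`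
(`Module.Flat.lTensor_preserves_injective_linearMap`) -/
theorem Pkg.restrict (P : Pkg X k n W) : ∃ Q : Pkg X k n P.L, Q.P = P.PL := by
  have hinj : ∀ (T : Type) [CommRing T] [Module.Flat ℤ T],
      Function.Injective (P.L.subtype.lTensor T) := fun T _ _ =>
    Module.Flat.lTensor_preserves_injective_linearMap _ P.L.injective_subtype
  refine ⟨⟨P.PL, fun ξ h => P.deg ξ fun h0 => h (Subtype.ext h0),
    fun T _ _ B h h' h1 h2 h3 => ?_, fun T _ _ B u v j hj => ?_⟩, rfl⟩
  · apply hinj T
    rw [E2_sub, E2_sub]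
    exact P.inv T B h h' h1 h2 h3
  · apply hinj T
    rw [map_zero, ← LinearMap.comp_apply, LinearMap.lTensor_comp_rTensor,
      ← LinearMap.rTensor_comp_lTensor, LinearMap.comp_apply, E2_sub]
    exact P.rank T B u v j hj

end Pool.PI34.BA
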