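import Pool.Agent.LibPI34.BA_E2

/-! PI34, block BA, file E3: functionals give elements of `F_k(K)`; dimension bound. -/

set_option autoImplicit false
set_option linter.unusedSectionVars false

namespace Pool.PI34.BA

open Equiv Finset Matrix
open scoped TensorProduct

variable {X : Type} [Fintype X] [DecidableEq X] {k n : ℕ} {W : Type} [AddCommGroup W]

/-- the polynomial `Σ φ(P_ξ) X^ξ` -/
noncomputable def fpoly {K : Type} [Field K] (P : Mon X n →₀ W) (φ : W →ₗ[ℤ] K) :
    MvPolynomial (Option (X × Fin n) × Option (X × Fin n)) K :=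
  P.sum fun ξ w => MvPolynomial.monomial ξ (φ w)

theorem coeff_fpoly {K : Type} [Field K] (P : Mon X n →₀ W) (φ : W →ₗ[ℤ] K) (ξ : Mon X n) :
    (fpoly P φ).coeff ξ = φ (P ξ) := by
  classical
  unfold fpoly Finsupp.sum
  rw [MvPolynomial.coeff_sum]
  simp only [MvPolynomial.coeff_monomial]
  rw [Finset.sum_ite_eq' P.support ξ (fun ξ => φ (P ξ))]
  by_cases h : ξ ∈ P.support
  · rw [if_pos h]
  · rw [if_neg h, Finsupp.notMem_support_iff.1 h, map_zero]

/-- the linear map `R ⊗ W → R`, `r ⊗ w ↦ r φ(w)` -/
noncomputable def contr {K : Type} [Field K] (R : Type) [CommRing R] [Algebra K R] (φ : W →ₗ[ℤ] K) :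
    R ⊗[ℤ] W →ₗ[ℤ] R :=
  TensorProduct.lift ((LinearMap.mul ℤ R).compl₂
    ((algebraMap K R).toAddMonoidHom.toIntLinearMap ∘ₗ φ))

theorem E3_contr_tmul {K : Type} [Field K] (R : Type) [CommRing R] [Algebra K R]
    (φ : W →ₗ[ℤ] K) (r : R) (w : W) : contr R φ (r ⊗ₜ w) = r * algebraMap K R (φ w) := rfl

theorem evF_fpoly {K : Type} [Field K] (R : Type) [CommRing R] [Algebra K R] (P : Mon X n →₀ W)
    (φ : W →ₗ[ℤ] K) (B : Matrix (Option (X × Fin n)) (Option (X × Fin n)) R) :
    evF R (fpoly P φ) B = contr R φ (evW P R B) := by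
  unfold evF fpoly evW Finsupp.sum
  rw [map_sum, map_sum]
  refine Finset.sum_congr rfl fun ξ _ => ?_
  rw [E3_contr_tmul, MvPolynomial.aeval_monomial, mul_comm]
  rfl

theorem E3_optDiag_map {A T K : Type} [Fintype A] [DecidableEq A] [Ring T] [Ring K]
    (π : T →+* K) (h : Matrix A A T) : (optDiag h).map π = optDiag (h.map π) := by
  ext a b
  rcases a with _ | a <;> rcases b with _ | b
  · show π 1 = 1
    exact map_one π
  · show π 0 = 0
    exact map_zero π
  · show π 0 = 0
    exact map_zero π
  · rfl

theorem E3_coeff_contr {K : Type} [Field K] (φ : W →ₗ[ℤ] K) (j : ℕ)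
    (w : Polynomial K ⊗[ℤ] W) : (contr (Polynomial K) φ w).coeff j =
      contr K φ ((Polynomial.lcoeff K j).toAddMonoidHom.toIntLinearMap.rTensor W w) := by
  induction w using TensorProduct.induction_on with
  | zero => simp
  | add x y hx hy => rw [map_add, Polynomial.coeff_add, hx, hy, map_add, map_add]
  | tmul r w =>
    rw [E3_contr_tmul, LinearMap.rTensor_tmul, E3_contr_tmul]
    show (r * Polynomial.C (φ w)).coeff j = r.coeff j * φ w
    rw [Polynomial.coeff_mul_C]

/-- PROOF.  Support: `coeff_fpoly`, `P.deg`.  Invariance: lift `B, h, h'` to the flat local ring `T` of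
`exists_flat_lift` (`exists_lift_pair`), use `P.inv` over `T`, `evW_base` for `π`, `evF_fpoly`.
Rank: lift `B, u, v` to `T`, `P.rank` over `T`, `evW_base` for `T[X] → K[X]`. -/
theorem fpoly_mem {K : Type} [Field K] (P : Pkg X k n W) (φ : W →ₗ[ℤ] K) :
    fpoly P.P φ ∈ FF X k n K := by
  obtain ⟨T, _, _, π, hs, hu⟩ := exists_flat_lift K
  refine ⟨fun ξ hξ => ?_, fun B h h' h1 h2 hb => ?_, fun B u v j hj => ?_⟩
  · rw [coeff_fpoly] at hξ
    exact P.deg ξ fun h0 => hξ (by rw [h0, map_zero])
  · obtain ⟨g, g', hg1, hg2, hgb, hg, hg'⟩ := exists_lift_pair π hs hu h h' h1 h2 hb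
    let B' : Matrix (Option (X × Fin n)) (Option (X × Fin n)) T :=
      Matrix.of fun a b => (hs (B a b)).choose
    have hB' : B'.map π = B := by
      ext a b
      exact (hs (B a b)).choose_spec
    have hinv := P.inv T B' g g' hg1 hg2 hgb
    have e1 := evW_base π P.P (optDiag g * B' * optDiag g')
    have e2 := evW_base π P.P B'
    rw [hinv, ← e2, hB'] at e1
    have e3 : (optDiag g * B' * optDiag g').map π = optDiag h * B * optDiag h' := by
      rw [Matrix.map_mul, Matrix.map_mul, hB', E3_optDiag_map, E3_optDiag_map, hg, hg']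
    rw [e3] at e1
    rw [evF_fpoly, evF_fpoly, e1]
  · let B' : Matrix (Option (X × Fin n)) (Option (X × Fin n)) T :=
      Matrix.of fun a b => (hs (B a b)).choose
    have hB' : ∀ a b, π (B' a b) = B a b := fun a b => (hs (B a b)).choose_spec
    let u' : Option (X × Fin n) → T := fun a => (hs (u a)).choose
    have hu' : ∀ a, π (u' a) = u a := fun a => (hs (u a)).choose_spec
    let v' : Option (X × Fin n) → T := fun a => (hs (v a)).choose
    have hv' : ∀ a, π (v' a) = v a := fun a => (hs (v a)).choose_spec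
    have hr := P.rank T B' u' v' j hj
    set M : Matrix (Option (X × Fin n)) (Option (X × Fin n)) (Polynomial T) :=
      B'.map Polynomial.C + vecMulVec (fun a => Polynomial.X * Polynomial.C (u' a))
        (fun a => Polynomial.C (v' a)) with hM
    have e3 : M.map (Polynomial.mapRingHom π) = B.map Polynomial.C +
        vecMulVec (fun a => Polynomial.X * Polynomial.C (u a))
          (fun a => Polynomial.C (v a)) := by
      ext1 a b
      simp only [hM, Matrix.map_apply, Matrix.add_apply, vecMulVec_apply, Polynomial.map_add,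
        Polynomial.map_mul, Polynomial.coe_mapRingHom, Polynomial.map_C, Polynomial.map_X, hB',
        hu', hv']
    have e1 := evW_base (Polynomial.mapRingHom π) P.P M
    rw [e3] at e1
    rw [evF_fpoly, E3_coeff_contr, e1]
    have e4 : ∀ w : Polynomial T ⊗[ℤ] W,
        (Polynomial.lcoeff K j).toAddMonoidHom.toIntLinearMap.rTensor W
          ((Polynomial.mapRingHom π).toAddMonoidHom.toIntLinearMap.rTensor W w) =
        π.toAddMonoidHom.toIntLinearMap.rTensor W
          ((Polynomial.lcoeff T j).toAddMonoidHom.toIntLinearMap.rTensor W w) := by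
      intro w
      induction w using TensorProduct.induction_on with
      | zero => simp
      | add x y hx hy => simp only [map_add, hx, hy]
      | tmul r w =>
        simp only [LinearMap.rTensor_tmul]
        congr 1
        show (Polynomial.map π r).coeff j = π (r.coeff j)
        rw [Polynomial.coeff_map]
    rw [e4, hr, map_zero, map_zero]

/-- `F_k(K)` is finite dimensional: the exponents satisfy `GoodMon`, a finite set. -/
theorem finite_FF (K : Type) [Field K] : Module.Finite K (FF X k n K) := by
  classical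
  let s : Set (Mon X n) := {ξ | Finsupp.degree ξ ≤ n + 1}
  have hs : s.Finite := Finsupp.finite_of_degree_le (n + 1)
  have : Finite s := hs
  have : Module.Finite K (MvPolynomial.restrictSupport K s) :=
    Module.Finite.of_basis (MvPolynomial.basisRestrictSupport K s)
  have hle : FF X k n K ≤ MvPolynomial.restrictSupport K s := by
    intro f hf
    rw [MvPolynomial.mem_restrictSupport_iff]
    intro ξ hξ
    have h1 : f.coeff ξ ≠ 0 := MvPolynomial.mem_support_iff.1 hξ
    have h2 := (hf.1 ξ h1).1
    show Finsupp.degree ξ ≤ n + 1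
    rw [Finsupp.degree_apply]
    exact le_of_eq h2
  exact Module.Finite.of_injective (Submodule.inclusion hle) (Submodule.inclusion_injective hle)

/-- DIMENSION BOUND: `Hom(L, K) → F_k(K)`, `φ ↦ Σ φ(P_ξ) X^ξ` is injective (`P.restrict`). -/
theorem finrank_hom_le (K : Type) [Field K] (P : Pkg X k n W) :
    Module.finrank K (P.L →ₗ[ℤ] K) ≤ Module.finrank K (FF X k n K) := by
  obtain ⟨Q, hQ⟩ := P.restrict
  have := finite_FF (X := X) (k := k) (n := n) K
  let Θ : (P.L →ₗ[ℤ] K) →ₗ[K] FF X k n K :=
    { toFun := fun φ => ⟨fpoly Q.P φ, fpoly_mem Q φ⟩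
      map_add' := by
        intro φ ψ
        apply Subtype.ext
        show fpoly Q.P (φ + ψ) = fpoly Q.P φ + fpoly Q.P ψ
        ext ξ
        rw [MvPolynomial.coeff_add, coeff_fpoly, coeff_fpoly, coeff_fpoly]
        rfl
      map_smul' := by
        intro c φ
        apply Subtype.ext
        show fpoly Q.P (c • φ) = c • fpoly Q.P φ
        ext ξ
        rw [MvPolynomial.coeff_smul, coeff_fpoly, coeff_fpoly]
        rfl }
  have hinj : Function.Injective Θ := by
    rw [injective_iff_map_eq_zero]
    intro φ h0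
    have h1 : fpoly Q.P φ = 0 := congrArg Subtype.val h0
    have h2 : ∀ ξ, φ (P.PL ξ) = 0 := by
      intro ξ
      rw [← hQ, ← coeff_fpoly, h1, MvPolynomial.coeff_zero]
    apply LinearMap.ext
    rintro ⟨w, hw⟩
    show φ ⟨w, hw⟩ = 0
    have key : ∀ w (hw : w ∈ Submodule.span ℤ (Set.range P.P)), φ ⟨w, hw⟩ = 0 := by
      intro w hw
      induction hw using Submodule.span_induction with
      | mem x hx =>
        obtain ⟨ξ, rfl⟩ := hx
        exact h2 ξ
      | zero => exact map_zero φ
      | add x y hx hy ihx ihy =>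
        have : (⟨x + y, add_mem hx hy⟩ : P.L) = ⟨x, hx⟩ + ⟨y, hy⟩ := rfl
        exact (congrArg φ this).trans (by rw [map_add, ihx, ihy, add_zero])
      | smul c x hx ih =>
        have : (⟨c • x, Submodule.smul_mem _ c hx⟩ : P.L) = c • (⟨x, hx⟩ : P.L) := rfl
        exact (congrArg φ this).trans (by rw [map_smul, ih, smul_zero])
    exact key w hw
  exact LinearMap.finrank_le_finrank_of_injective hinj

end Pool.PI34.BA
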