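import Mathlib

/-! PI34, block BA, file E4: gluing over all the primes (pure algebra). -/

set_option autoImplicit false

namespace Pool.PI34.BA

theorem E4_finite_hom {L : Type} [AddCommGroup L] [Module.Finite ℤ L] (K : Type) [Field K] :
    Module.Finite K (L →ₗ[ℤ] K) := by
  obtain ⟨n, s, hs⟩ := Module.Finite.exists_fin' ℤ L
  let Φ : (L →ₗ[ℤ] K) →ₗ[K] (Fin n → K) :=
    { toFun := fun φ i => φ (s (Pi.single i 1))
      map_add' := fun φ ψ => by ext i; rfl
      map_smul' := fun c φ => by ext i; rfl }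
  refine Module.Finite.of_injective Φ ?_
  intro φ ψ h
  have h1 : φ.comp s = ψ.comp s := by
    refine (Pi.basisFun ℤ (Fin n)).ext fun i => ?_
    have := congrFun h i
    simpa [Φ] using this
  ext x
  obtain ⟨y, rfl⟩ := hs x
  exact congrArg (fun g => g y) h1

/-- PROOF.  `C` is free (finitely generated, torsion free), so `L ≅ ker f × C` and
`Hom(L, K) ≅ Hom(ker f, K) × Hom(C, K)`, `dim Hom(C, K) = finrank C`; so `Hom(ker f, K) = 0` for every
infinite field `K`.  If `ker f ≠ 0` (finitely generated) it has a maximal proper subgroup, the quotient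
is `ℤ/p` for a prime `p`, and it embeds in the infinite field `AlgebraicClosure (ZMod p)`: contradiction. -/
theorem injective_of_finrank {L C : Type} [AddCommGroup L] [AddCommGroup C] [Module.Finite ℤ L]
    [NoZeroSMulDivisors ℤ C] (f : L →ₗ[ℤ] C) (hf : Function.Surjective f)
    (h : ∀ (K : Type) [Field K] [Infinite K],
      Module.finrank K (L →ₗ[ℤ] K) ≤ Module.finrank ℤ C) : Function.Injective f := by
  have : Module.Finite ℤ C := Module.Finite.of_surjective f hf
  have : Module.Free ℤ C := inferInstance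
  obtain ⟨g, hg⟩ := Module.projective_lifting_property f LinearMap.id hf
  have hg' : ∀ c, f (g c) = c := fun c => by
    have := congrArg (fun k => k c) hg
    simpa using this
  rw [← LinearMap.ker_eq_bot]
  by_contra hne
  have : Nontrivial (LinearMap.ker f) := Submodule.nontrivial_iff_ne_bot.2 hne
  have : Module.Finite ℤ (LinearMap.ker f) := inferInstance
  obtain ⟨M, hM⟩ := IsCoatomic.exists_coatom (Submodule ℤ (LinearMap.ker f))
  have hsimple : IsSimpleModule ℤ (LinearMap.ker f ⧸ M) := isSimpleModule_iff_isCoatom.2 hM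
  obtain ⟨I, hI, ⟨e⟩⟩ := isSimpleModule_iff_quot_maximal.1 hsimple
  let : Field (ℤ ⧸ I) := Ideal.Quotient.field I
  let K := AlgebraicClosure (ℤ ⧸ I)
  have : Infinite K := IsAlgClosed.instInfinite
  let φ0 : LinearMap.ker f →ₗ[ℤ] K :=
    (algebraMap (ℤ ⧸ I) K).toAddMonoidHom.toIntLinearMap.comp
      ((e : _ →ₗ[ℤ] _).comp M.mkQ)
  have hφ0 : φ0 ≠ 0 := by
    intro h0
    obtain ⟨y, hy⟩ := e.surjective (1 : ℤ ⧸ I)
    obtain ⟨x, rfl⟩ := M.mkQ_surjective y
    have h1 := congrArg (fun k => k x) h0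
    have h2 : algebraMap (ℤ ⧸ I) K (e (M.mkQ x)) = 0 := h1
    rw [hy, map_one] at h2
    exact one_ne_zero h2
  let pr : L →ₗ[ℤ] LinearMap.ker f :=
    (LinearMap.id - g.comp f).codRestrict (LinearMap.ker f) (fun x => by
      simp [LinearMap.mem_ker, hg'])
  have hpr : ∀ x : LinearMap.ker f, pr x = x := fun x => by
    apply Subtype.ext
    have : f (x : L) = 0 := x.2
    simp [pr, this]
  let Ψ : (C →ₗ[ℤ] K) →ₗ[K] (L →ₗ[ℤ] K) :=
    { toFun := fun ψ => ψ.comp f
      map_add' := fun φ ψ => by ext i; rfl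
      map_smul' := fun c φ => by ext i; rfl }
  have hΨ : Function.Injective Ψ := by
    intro a b hab
    ext c
    obtain ⟨y, rfl⟩ := hf c
    exact congrArg (fun k => k y) hab
  have := E4_finite_hom (L := L) K
  have hnot : φ0.comp pr ∉ LinearMap.range Ψ := by
    rintro ⟨ψ, hψ⟩
    apply hφ0
    ext x
    have h1 : ψ (f (x : L)) = φ0 (pr (x : L)) := congrArg (fun k => k (x : L)) hψ
    rw [hpr] at h1
    have h2 : f (x : L) = 0 := x.2
    rw [h2, map_zero] at h1
    simpa using h1.symm
  have hlt : Module.finrank K (LinearMap.range Ψ) < Module.finrank K (L →ₗ[ℤ] K) :=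
    Submodule.finrank_lt (fun h => hnot (h ▸ Submodule.mem_top))
  rw [LinearMap.finrank_range_of_inj hΨ] at hlt
  have hC : Module.finrank K (C →ₗ[ℤ] K) = Module.finrank ℤ C := by
    let b := Module.Free.chooseBasis ℤ C
    rw [← (b.constr K : _ ≃ₗ[K] (C →ₗ[ℤ] K)).finrank_eq, Module.finrank_fintype_fun_eq_card,
      Module.finrank_eq_card_basis b]
  have := h K
  omega

end Pool.PI34.BA
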