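import Pool.Agent.LibPI34.BA_E3
import Pool.Agent.LibPI34.BA_E4

/-! PI34, block BA, file E5: relations pass from the generic matrices to every package. -/

set_option autoImplicit false

namespace Pool.PI34.BA

open Equiv Finset Matrix
open scoped TensorProduct

/-- GLUING.  `P` a package in `W × W'`, `W'` torsion free, such that the span of the second components has rank
at least `dim F_k(K)` for all infinite fields `K`.  Then every relation between the second components holds for
the first components.  (`L → L'`, `L` = span of the `P_ξ`, `L'` = span of the second components, is surjective;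
`finrank_hom_le`, `injective_of_finrank`.) -/
theorem glue {X : Type} [Fintype X] [DecidableEq X] {k n : ℕ} {W W' : Type} [AddCommGroup W]
    [AddCommGroup W'] [NoZeroSMulDivisors ℤ W'] (P : Pkg X k n (W × W'))
    (hA5 : ∀ (K : Type) [Field K] [Infinite K], Module.finrank K (FF X k n K) ≤
      Module.finrank ℤ (Submodule.span ℤ (Set.range fun ξ => (P.P ξ).2)))
    {J : Type} [Fintype J] (c : J → ℤ) (ξ : J → Mon X n)
    (h : ∑ j, c j • (P.P (ξ j)).2 = 0) : ∑ j, c j • (P.P (ξ j)).1 = 0 := by
  classical
  have hfin : (Set.range P.P).Finite := by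
    refine ((P.P.support.finite_toSet.image P.P).union (Set.finite_singleton 0)).subset ?_
    rintro _ ⟨a, rfl⟩
    by_cases ha : P.P a = 0
    · exact Or.inr ha
    · exact Or.inl ⟨a, Finsupp.mem_support_iff.2 ha, rfl⟩
  have : Module.Finite ℤ P.L := Module.Finite.span_of_finite ℤ hfin
  have hL : P.L.map (LinearMap.snd ℤ W W') =
      Submodule.span ℤ (Set.range fun ξ => (P.P ξ).2) := by
    change (Submodule.span ℤ (Set.range P.P)).map (LinearMap.snd ℤ W W') = _
    rw [Submodule.map_span, ← Set.range_comp]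
    rfl
  have : NoZeroSMulDivisors ℤ (Submodule.span ℤ (Set.range fun ξ => (P.P ξ).2)) := by
    refine ⟨fun {a y} hay => ?_⟩
    have h1 : a • (y : W') = 0 := congrArg Subtype.val hay
    rcases smul_eq_zero.1 h1 with h2 | h2
    · exact Or.inl h2
    · exact Or.inr (Subtype.ext h2)
  have hmem : ∀ x : P.L, (x : W × W').2 ∈
      Submodule.span ℤ (Set.range fun ξ => (P.P ξ).2) := by
    intro x
    have h1 : (LinearMap.snd ℤ W W') (x : W × W') ∈ P.L.map (LinearMap.snd ℤ W W') :=
      Submodule.mem_map_of_mem x.2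
    rw [hL] at h1
    exact h1
  let f : P.L →ₗ[ℤ] Submodule.span ℤ (Set.range fun ξ => (P.P ξ).2) :=
    LinearMap.codRestrict _ ((LinearMap.snd ℤ W W') ∘ₗ P.L.subtype) hmem
  have hf : Function.Surjective f := by
    rintro ⟨y, hy⟩
    have h1 : y ∈ P.L.map (LinearMap.snd ℤ W W') := by
      rw [hL]
      exact hy
    obtain ⟨x, hx, rfl⟩ := h1
    exact ⟨⟨x, hx⟩, rfl⟩
  have hinj : Function.Injective f :=
    injective_of_finrank f hf fun K _ _ => (finrank_hom_le K P).trans (hA5 K)
  have hS : ∑ j, c j • P.P (ξ j) ∈ P.L :=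
    Submodule.sum_mem _ fun j _ => Submodule.smul_mem _ _ (Submodule.subset_span ⟨ξ j, rfl⟩)
  have h0 : (⟨∑ j, c j • P.P (ξ j), hS⟩ : P.L) = 0 := by
    apply hinj
    rw [map_zero]
    apply Subtype.ext
    change (∑ j, c j • P.P (ξ j)).2 = 0
    rw [Prod.snd_sum, ← h]
    rfl
  have h1 : ∑ j, c j • P.P (ξ j) = 0 := congrArg Subtype.val h0
  have h2 := congrArg Prod.fst h1
  rw [Prod.fst_sum] at h2
  exact h2

end Pool.PI34.BA
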