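import Pool.Agent.LibPI34.BA_Defs

/-! PI34, block BA, file F1: the matrix string system. -/

set_option autoImplicit false

namespace Pool.PI34.BA

open Equiv Finset Matrix

variable (k : ℕ) (C ι : Type) [CommRing C] [Fintype ι] [DecidableEq ι]

/-- the matrix `M` acting on the strand `i` of the functions of words `ι → Fin k` -/
def matRho (i : ι) (M : Matrix (Fin k) (Fin k) C) : Module.End C ((ι → Fin k) → C) where
  toFun v f := ∑ c, M (f i) c * v (Function.update f i c)
  map_add' u v := by
    funext f
    simp [mul_add, Finset.sum_add_distrib]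
  map_smul' a v := by
    funext f
    simp [Finset.mul_sum, mul_left_comm]

/-- a permutation of the strands -/
def matS (σ : Perm ι) : Module.End C ((ι → Fin k) → C) where
  toFun v f := v (f ∘ σ)
  map_add' _ _ := rfl
  map_smul' _ _ := rfl

/-- the matrix string system: letters `k × k` matrices over `C` -/
noncomputable def matStr : Str ι (Matrix (Fin k) (Fin k) C) (Module.End C ((ι → Fin k) → C)) where
  ρ i :=
    { toFun := matRho k C ι i
      map_one' := by
        ext v f
        simp [matRho, Matrix.one_apply]
      map_mul' := by
        intro M N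
        ext v f
        simp only [matRho, Module.End.mul_apply, LinearMap.comp_apply, LinearMap.coe_mk,
          AddHom.coe_mk, Matrix.mul_apply, Finset.sum_mul, Finset.mul_sum,
          Function.update_self, Function.update_idem, mul_assoc]
        rw [Finset.sum_comm]
      map_zero' := by
        ext v f
        simp [matRho]
      map_add' := by
        intro M N
        ext v f
        simp [matRho, add_mul, Finset.sum_add_distrib] }
  s :=
    { toFun := matS k C ι
      map_one' := rfl
      map_mul' := fun σ τ => rfl }
  comm i j hij M N := by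
    refine LinearMap.ext fun v => funext fun f => ?_
    change ∑ c, M (f i) c * ∑ d, N (Function.update f i c j) d *
      v (Function.update (Function.update f i c) j d) =
      ∑ d, N (f j) d * ∑ c, M (Function.update f j d i) c *
      v (Function.update (Function.update f j d) i c)
    simp only [Finset.mul_sum]
    rw [Finset.sum_comm]
    refine Finset.sum_congr rfl fun d _ => Finset.sum_congr rfl fun c _ => ?_
    rw [Function.update_of_ne (Ne.symm hij), Function.update_of_ne hij,
      Function.update_comm hij, mul_left_comm]
  conj σ i M := by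
    refine LinearMap.ext fun v => funext fun f => ?_
    change ∑ c, M (f (σ i)) c * v (Function.update (f ∘ σ) i c) =
      ∑ c, M (f (σ i)) c * v ((Function.update f (σ i) c) ∘ σ)
    refine Finset.sum_congr rfl fun c _ => ?_
    rw [Function.update_comp_eq_of_injective f σ.injective]

variable {k C ι}

/-- pigeonhole: `f` is not injective on `T`, `f ∘ (i j) = f`, the terms cancel in pairs -/
theorem matStr_Anti : Anti (matStr k C ι).s k := by
  intro T hT
  refine LinearMap.ext fun v => funext fun f => ?_
  have h1 : anti (matStr k C ι).s T v f =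
      ∑ σ ∈ permsOn T, ((Perm.sign σ : ℤˣ) : ℤ) • v (f ∘ σ) := by
    unfold anti
    rw [LinearMap.sum_apply, Finset.sum_apply]
    rfl
  rw [h1]
  change _ = (0 : C)
  obtain ⟨i, hi, j, hj, hij, hf⟩ : ∃ i ∈ T, ∃ j ∈ T, i ≠ j ∧ f i = f j := by
    refine Finset.exists_ne_map_eq_of_card_lt_of_maps_to (t := (univ : Finset (Fin k))) ?_
      (fun _ _ => Finset.mem_coe.2 (Finset.mem_univ _))
    rw [hT, Finset.card_univ, Fintype.card_fin]
    exact Nat.lt_succ_self k
  have hfs : ∀ x, f (Equiv.swap i j x) = f x := by
    intro x
    by_cases hx : x = i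
    · rw [hx, Equiv.swap_apply_left, hf]
    · by_cases hx' : x = j
      · rw [hx', Equiv.swap_apply_right, hf]
      · rw [Equiv.swap_apply_of_ne_of_ne hx hx']
  refine Finset.sum_involution (fun σ _ => Equiv.swap i j * σ) ?_ ?_ ?_ ?_
  · intro σ _
    have h2 : f ∘ (Equiv.swap i j * σ : Perm ι) = f ∘ σ := funext fun x => hfs (σ x)
    rw [h2, Perm.sign_mul, Perm.sign_swap hij]
    simp
  · intro σ _ _ h3
    have h4 : Equiv.swap i j = 1 := mul_eq_right.1 h3
    exact hij (Equiv.swap_eq_one_iff.1 h4)
  · intro σ hσ
    simp only [permsOn, Finset.mem_filter, Finset.mem_univ, true_and] at hσ ⊢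
    intro x hx
    rw [Perm.mul_apply, hσ x hx]
    refine Equiv.swap_apply_of_ne_of_ne ?_ ?_
    · rintro rfl
      exact hx hi
    · rintro rfl
      exact hx hj
  · intro σ _
    rw [← mul_assoc, Equiv.swap_mul_self, one_mul]

end Pool.PI34.BA
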