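import Pool.Agent.LibPI34.BA_F1
import Pool.Agent.LibPI34.BA_B1

/-! PI34, block BA, file F2: `D(u) ω = det(u) ω` for the matrix string system. -/

set_option autoImplicit false

namespace Pool.PI34.BA

open Equiv Finset Matrix

variable {k : ℕ} {C ι : Type} [CommRing C] [Fintype ι] [DecidableEq ι]

theorem F2_extend_cons {m : ℕ} (e : Fin (m + 1) ↪ ι) (c : Fin k) (g : Fin m → Fin k)
    (f : ι → Fin k) :
    Function.extend (fun i : Fin m => e i.succ) g (Function.update f (e 0) c) =
      Function.extend e (Fin.cons c g : Fin (m + 1) → Fin k) f := by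
  have hinj : Function.Injective (fun i : Fin m => e i.succ) := fun a b hab =>
    Fin.succ_injective m (e.injective hab)
  funext x
  by_cases hx : ∃ i, e i = x
  · obtain ⟨i, rfl⟩ := hx
    rw [e.injective.extend_apply]
    refine Fin.cases ?_ (fun j => ?_) i
    · rw [Function.extend_apply', Function.update_self, Fin.cons_zero]
      rintro ⟨a, ha⟩
      exact (Fin.succ_ne_zero a) (e.injective ha)
    · rw [Fin.cons_succ]
      exact hinj.extend_apply g (Function.update f (e 0) c) j
  · have hx' : ¬ ∃ a : Fin m, (fun i : Fin m => e i.succ) a = x := by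
      rintro ⟨a, ha⟩
      exact hx ⟨a.succ, ha⟩
    rw [Function.extend_apply' _ _ _ hx, Function.extend_apply' _ _ _ hx',
      Function.update_of_ne]
    rintro rfl
    exact hx ⟨0, rfl⟩

theorem F2_rho_apply (i : ι) (M : Matrix (Fin k) (Fin k) C) (v : (ι → Fin k) → C)
    (f : ι → Fin k) :
    (matStr k C ι).ρ i M v f = ∑ c, M (f i) c * v (Function.update f i c) := rfl

/-- the product of letters acts by a multiple sum (induction on the number `m` of letters, `e` injective):
`(D e w v)(f) = Σ_{g : Fin m → Fin k} ∏_i w_i(f (e i), g i) v(f with f (e i) replaced by g i)`. -/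
theorem matStr_D_apply {m : ℕ} (e : Fin m ↪ ι) (w : Fin m → Matrix (Fin k) (Fin k) C)
    (v : (ι → Fin k) → C) (f : ι → Fin k) :
    (matStr k C ι).D e w v f =
      ∑ g : Fin m → Fin k, (∏ i, w i (f (e i)) (g i)) *
        v (Function.extend e g f) := by
  induction m generalizing v f with
  | zero =>
    have h1 : (matStr k C ι).D e w = 1 := by
      simp [Str.D]
    have h2 : ∀ g : Fin 0 → Fin k, Function.extend e g f = f := by
      intro g
      funext x
      rw [Function.extend_apply']
      rintro ⟨a, _⟩
      exact a.elim0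
    rw [h1]
    simp [h2]
  | succ m ih =>
    have h1 : (matStr k C ι).D e w = (matStr k C ι).ρ (e 0) (w 0) *
        (matStr k C ι).D (fun i : Fin m => e i.succ) (fun i : Fin m => w i.succ) := by
      simp only [Str.D, List.ofFn_succ, List.prod_cons]
    have h2 := fun (v : (ι → Fin k) → C) (f : ι → Fin k) =>
      ih ((Fin.succEmb m).trans e) (fun i => w i.succ) v f
    rw [h1, Module.End.mul_apply, F2_rho_apply]
    rw [← (Fin.consEquiv (fun _ : Fin (m + 1) => Fin k)).sum_comp, Fintype.sum_prod_type]
    refine Finset.sum_congr rfl fun c _ => ?_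
    have h3 := h2 v (Function.update f (e 0) c)
    change (matStr k C ι).D (fun i : Fin m => e i.succ) (fun i : Fin m => w i.succ) v
      (Function.update f (e 0) c) = ∑ g : Fin m → Fin k,
        (∏ i : Fin m, w i.succ (Function.update f (e 0) c (e i.succ)) (g i)) *
        v (Function.extend (fun i : Fin m => e i.succ) g (Function.update f (e 0) c)) at h3
    rw [h3, Finset.mul_sum]
    refine Finset.sum_congr rfl fun g _ => ?_
    rw [F2_extend_cons, ← mul_assoc]
    change _ = (∏ i, w i (f (e i)) ((Fin.cons c g : Fin (m + 1) → Fin k) i)) *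
      v (Function.extend e (Fin.cons c g : Fin (m + 1) → Fin k) f)
    rw [Fin.prod_univ_succ]
    simp only [Fin.cons_zero, Fin.cons_succ]
    congr 2
    refine Finset.prod_congr rfl fun i _ => ?_
    rw [Function.update_of_ne]
    intro h
    exact (Fin.succ_ne_zero i) (e.injective h)

/-- `anti` kills on words with two equal letters -/
theorem F2_anti_zero (T : Finset ι) (v : (ι → Fin k) → C) (f : ι → Fin k) (i j : ι)
    (hi : i ∈ T) (hj : j ∈ T) (hij : i ≠ j) (hf : f i = f j) :
    anti (matStr k C ι).s T v f = 0 := by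
  have h1 : anti (matStr k C ι).s T v f =
      ∑ σ ∈ permsOn T, ((Perm.sign σ : ℤˣ) : ℤ) • v (f ∘ σ) := by
    unfold anti
    rw [LinearMap.sum_apply, Finset.sum_apply]
    rfl
  rw [h1]
  have hfs : ∀ x, f (Equiv.swap i j x) = f x := by
    intro x
    by_cases hx : x = i
    · rw [hx, Equiv.swap_apply_left, hf]
    · by_cases hx' : x = j
      · rw [hx', Equiv.swap_apply_right, hf]
      · rw [Equiv.swap_apply_of_ne_of_ne hx hx']
  refine Finset.sum_involution (fun σ _ => Equiv.swap i j * σ) ?_ ?_ ?_ ?_
  · intro σ _
    have h2 : f ∘ (Equiv.swap i j * σ : Perm ι) = f ∘ σ := funext fun x => hfs (σ x)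
    rw [h2, Perm.sign_mul, Perm.sign_swap hij]
    simp
  · intro σ _ _ h3
    have h4 : Equiv.swap i j = 1 := mul_eq_right.1 h3
    exact hij (Equiv.swap_eq_one_iff.1 h4)
  · intro σ hσ
    simp only [permsOn, Finset.mem_filter, Finset.mem_univ, true_and] at hσ ⊢
    intro x hx
    rw [Perm.mul_apply, hσ x hx]
    refine Equiv.swap_apply_of_ne_of_ne ?_ ?_
    · rintro rfl
      exact hx hi
    · rintro rfl
      exact hx hj
  · intro σ _
    rw [← mul_assoc, Equiv.swap_mul_self, one_mul]

theorem F2_anti_perm (T : Finset ι) (v : (ι → Fin k) → C) (f : ι → Fin k) (σ : Perm ι)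
    (hσ : ∀ x, x ∉ T → σ x = x) :
    anti (matStr k C ι).s T v (f ∘ σ) =
      ((Perm.sign σ : ℤˣ) : ℤ) • anti (matStr k C ι).s T v f := by
  have h := congrArg (fun E : Module.End C ((ι → Fin k) → C) => E v f)
    (mul_anti (matStr k C ι).s T σ hσ)
  exact h

/-- the value of an alternating vector on `f` with `f ∘ p` replaced by a permutation -/
theorem F2_extend_perm (p : Fin k ↪ ι) (v : (ι → Fin k) → C) (f : ι → Fin k)
    (π : Perm (Fin k)) :
    anti (matStr k C ι).s (univ.map p) v (Function.extend p π f) =
      ((Perm.sign π : ℤˣ) : ℤ) •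
        anti (matStr k C ι).s (univ.map p) v (Function.extend p id f) := by
  have h1 : Function.extend p π f = Function.extend p id f ∘ (π.viaFintypeEmbedding p) := by
    funext x
    by_cases hx : ∃ i, p i = x
    · obtain ⟨i, rfl⟩ := hx
      rw [p.injective.extend_apply, Function.comp_apply,
        Equiv.Perm.viaFintypeEmbedding_apply_image, p.injective.extend_apply, id]
    · rw [Function.extend_apply' _ _ _ hx, Function.comp_apply,
        Equiv.Perm.viaFintypeEmbedding_apply_notMem_range, Function.extend_apply' _ _ _ hx]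
      exact hx
  have h2 := F2_anti_perm (univ.map p) v (Function.extend p id f) (π.viaFintypeEmbedding p) (by
    intro x hx
    refine Equiv.Perm.viaFintypeEmbedding_apply_notMem_range _ _ ?_
    rintro ⟨i, rfl⟩
    exact hx (Finset.mem_map_of_mem p (Finset.mem_univ i)))
  rw [h1, h2, Equiv.Perm.viaFintypeEmbedding_sign]

/-- PROOF.  `y = ω v` is alternating on `P`: `y (f ∘ σ) = sgn σ y f` for `σ` supported in `P` (`mul_anti`), so
`y f = 0` if `f ∘ p` is not injective.  In `matStr_D_apply` only the bijective `g` survive: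
`(D(u) y)(f) = Σ_g ∏ u(f (p i), g i) sgn(g) y(f with f (p i) = i) = det(rows f ∘ p of u) y(f with f (p i) = i)`
`= det(u) sgn(f ∘ p) y(…) = det(u) y f` (both sides are `0` if `f ∘ p` is not injective: equal rows). -/
theorem matStr_D_om (p q : Fin k ↪ ι) (z : ι) (hF : Frame p q z) (u : Matrix (Fin k) (Fin k) C) :
    (matStr k C ι).D p (fun _ => u) * (matStr k C ι).om p q =
      u.det • (matStr k C ι).om p q := by
  refine LinearMap.ext fun v => funext fun f => ?_
  change (matStr k C ι).D p (fun _ => u)
      (anti (matStr k C ι).s (univ.map p) (anti (matStr k C ι).s (univ.map q) v)) f =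
    u.det * anti (matStr k C ι).s (univ.map p) (anti (matStr k C ι).s (univ.map q) v) f
  generalize anti (matStr k C ι).s (univ.map q) v = y
  rw [matStr_D_apply p (fun _ => u)]
  set Y : (ι → Fin k) → C := anti (matStr k C ι).s (univ.map p) y with hY
  have h1 : ∑ g : Fin k → Fin k, (∏ i, u (f (p i)) (g i)) * Y (Function.extend p g f) =
      ∑ π : Perm (Fin k), (∏ i, u (f (p i)) (π i)) * Y (Function.extend p π f) := by
    have h2 : ∑ π : Perm (Fin k), (∏ i, u (f (p i)) (π i)) * Y (Function.extend p π f) =
        ∑ g ∈ (univ : Finset (Fin k → Fin k)).filter Function.Bijective,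
          (∏ i, u (f (p i)) (g i)) * Y (Function.extend p g f) := by
      refine Finset.sum_bij (fun π _ => (π : Fin k → Fin k)) ?_ ?_ ?_ ?_
      · intro π _
        exact Finset.mem_filter.2 ⟨Finset.mem_univ _, π.bijective⟩
      · intro a _ b _ hab
        exact Equiv.coe_fn_injective hab
      · intro g hg
        exact ⟨Equiv.ofBijective g (Finset.mem_filter.1 hg).2, Finset.mem_univ _, rfl⟩
      · intro _ _
        rfl
    rw [h2]
    refine (Finset.sum_subset (Finset.filter_subset _ _) ?_).symm
    intro g _ hg
    have hg' : ¬ Function.Injective g := fun hi =>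
      hg (Finset.mem_filter.2 ⟨Finset.mem_univ _, Finite.injective_iff_bijective.1 hi⟩)
    simp only [Function.Injective, not_forall] at hg'
    obtain ⟨a, b, hab, hne⟩ := hg'
    have h3 : Y (Function.extend p g f) = 0 := by
      rw [hY]
      refine F2_anti_zero (univ.map p) y _ (p a) (p b)
        (Finset.mem_map_of_mem p (Finset.mem_univ a)) (Finset.mem_map_of_mem p (Finset.mem_univ b))
        (fun h => hne (p.injective h)) ?_
      rw [p.injective.extend_apply, p.injective.extend_apply, hab]
    rw [h3, mul_zero]
  rw [h1]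
  have h4 : ∀ π : Perm (Fin k), Y (Function.extend p π f) =
      ((Perm.sign π : ℤˣ) : ℤ) • Y (Function.extend p id f) := fun π =>
    F2_extend_perm p y f π
  have h5 : ∑ π : Perm (Fin k), (∏ i, u (f (p i)) (π i)) * Y (Function.extend p π f) =
      (u.submatrix (f ∘ p) id).det * Y (Function.extend p id f) := by
    rw [← Matrix.det_transpose, Matrix.det_apply', Finset.sum_mul]
    refine Finset.sum_congr rfl fun π _ => ?_
    rw [h4 π]
    simp only [Matrix.transpose_apply, Matrix.submatrix_apply, Function.comp_apply, id,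
      zsmul_eq_mul]
    ring
  rw [h5]
  by_cases hf : Function.Injective (f ∘ p)
  · have hb : Function.Bijective (f ∘ p) := Finite.injective_iff_bijective.1 hf
    obtain ⟨τ, hτ⟩ : ∃ τ : Perm (Fin k), (τ : Fin k → Fin k) = f ∘ p :=
      ⟨Equiv.ofBijective _ hb, rfl⟩
    have h6 : Function.extend p τ f = f := by
      funext x
      by_cases hx : ∃ i, p i = x
      · obtain ⟨i, rfl⟩ := hx
        rw [p.injective.extend_apply, hτ, Function.comp_apply]
      · rw [Function.extend_apply' _ _ _ hx]
    have h7 := h4 τ
    rw [h6] at h7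
    rw [h7, ← hτ, Matrix.det_permute]
    simp only [zsmul_eq_mul]
    ring
  · simp only [Function.Injective, not_forall] at hf
    obtain ⟨a, b, hab, hne⟩ := hf
    have h8 : Y f = 0 := by
      rw [hY]
      exact F2_anti_zero (univ.map p) y f (p a) (p b)
        (Finset.mem_map_of_mem p (Finset.mem_univ a)) (Finset.mem_map_of_mem p (Finset.mem_univ b))
        (fun h => hne (p.injective h)) hab
    have h9 : (u.submatrix (f ∘ p) id).det = 0 := by
      refine Matrix.det_zero_of_row_eq hne ?_
      funext c
      simp only [Matrix.submatrix_apply]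
      rw [hab]
    rw [h8, h9, zero_mul, mul_zero]

end Pool.PI34.BA
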