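import Pool.Agent.LibPI34.BA_F1
import Pool.Agent.LibPI34.BA_A1

/-! PI34, block BA, file F3: the matrix coefficients of `ρ_z(m) ω`. -/

set_option autoImplicit false

namespace Pool.PI34.BA

open Equiv Finset Matrix

variable {k : ℕ} {C ι : Type} [CommRing C] [Fintype ι] [DecidableEq ι]

/-- a word with the letter `j` at the places `p j` and `q j` -/
noncomputable def baseWord (p q : Fin k ↪ ι) (c : Fin k) : ι → Fin k :=
  Function.extend p id (Function.extend q id fun _ => c)

/-- the matrix coefficients `(i, j) ↦ (e δ_{b[z → j]})(b[z → i])`, `b` the base word (with `c = i`) -/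
noncomputable def coefMat (p q : Fin k ↪ ι) (z : ι) :
    Module.End C ((ι → Fin k) → C) →ₗ[C] Matrix (Fin k) (Fin k) C where
  toFun e := Matrix.of fun i j =>
    e (Pi.single (Function.update (baseWord p q i) z j) 1) (Function.update (baseWord p q i) z i)
  map_add' _ _ := by
    ext i j
    simp
  map_smul' _ _ := by
    ext i j
    simp

theorem F3_anti_apply (T : Finset ι) (v : (ι → Fin k) → C) (f : ι → Fin k) :
    anti (matStr k C ι).s T v f =
      ∑ σ ∈ permsOn T, ((Perm.sign σ : ℤˣ) : ℤ) • v (f ∘ σ) := by
  unfold anti
  rw [LinearMap.sum_apply, Finset.sum_apply]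
  rfl

theorem F3_one_mem (T : Finset ι) : (1 : Perm ι) ∈ permsOn T := by
  simp [permsOn]

/-- only the identity contributes -/
theorem F3_om_single (p q : Fin k ↪ ι) (z : ι) (hF : Frame p q z) (i j c : Fin k) :
    (matStr k C ι).om p q (Pi.single (Function.update (baseWord p q i) z j) 1)
      (Function.update (baseWord p q i) z c) = if c = j then 1 else 0 := by
  have hp : ∀ x d, Function.update (baseWord p q i) z d (p x) = x := by
    intro x d
    rw [Function.update_of_ne (hF.pz x), baseWord, p.injective.extend_apply, id]
  have hq : ∀ x d, Function.update (baseWord p q i) z d (q x) = x := by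
    intro x d
    rw [Function.update_of_ne (hF.qz x), baseWord, Function.extend_apply',
      q.injective.extend_apply, id]
    rintro ⟨a, ha⟩
    exact hF.pq a x ha
  have hz : ∀ d, Function.update (baseWord p q i) z d z = d := fun d => Function.update_self _ _ _
  have hfixT : ∀ (T : Finset ι) (σ : Perm ι), σ ∈ permsOn T → ∀ x, x ∉ T → σ x = x := by
    intro T σ hσ
    exact (Finset.mem_filter.1 hσ).2
  have hmaps : ∀ (T : Finset ι) (σ : Perm ι), σ ∈ permsOn T → ∀ x, x ∈ T → σ x ∈ T := by
    intro T σ hσ x hx
    by_contra h
    have h1 := hfixT T σ hσ (σ x) h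
    have h2 := σ.injective h1
    rw [h2] at h
    exact h hx
  have hpq : ∀ x, p x ∉ univ.map q := by
    intro x hx
    obtain ⟨a, _, ha⟩ := Finset.mem_map.1 hx
    exact hF.pq x a ha.symm
  have hqp : ∀ x, q x ∉ univ.map p := by
    intro x hx
    obtain ⟨a, _, ha⟩ := Finset.mem_map.1 hx
    exact hF.pq a x ha
  have hzp : z ∉ univ.map p := by
    intro hx
    obtain ⟨a, _, ha⟩ := Finset.mem_map.1 hx
    exact hF.pz a ha
  have hzq : z ∉ univ.map q := by
    intro hx
    obtain ⟨a, _, ha⟩ := Finset.mem_map.1 hx
    exact hF.qz a ha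
  change anti (matStr k C ι).s (univ.map p) (anti (matStr k C ι).s (univ.map q)
    (Pi.single (Function.update (baseWord p q i) z j) 1)) _ = _
  rw [F3_anti_apply, Finset.sum_eq_single (1 : Perm ι)]
  · rw [F3_anti_apply, Finset.sum_eq_single (1 : Perm ι)]
    · by_cases hcj : c = j
      · subst hcj
        simp
      · rw [if_neg hcj]
        have : (Function.update (baseWord p q i) z c ∘ (1 : Perm ι)) ∘ (1 : Perm ι) ≠
            Function.update (baseWord p q i) z j := by
          intro h
          have h1 := congrFun h z
          simp only [Function.comp_apply, Perm.one_apply] at h1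
          rw [hz, hz] at h1
          exact hcj h1
        rw [Pi.single_eq_of_ne this]
        simp
    · intro τ hτ hne
      rw [Pi.single_eq_of_ne, smul_zero]
      intro h
      apply hne
      ext x
      by_cases hx : x ∈ univ.map q
      · have h1 := hmaps _ τ hτ x hx
        obtain ⟨a, _, rfl⟩ := Finset.mem_map.1 hx
        obtain ⟨b, _, hb⟩ := Finset.mem_map.1 h1
        have h2 := congrFun h (q a)
        simp only [Function.comp_apply, Perm.one_apply] at h2
        rw [← hb, hq, hq] at h2
        rw [← hb, h2]
        rfl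
      · exact hfixT _ τ hτ x hx
    · intro h
      exact absurd (F3_one_mem _) h
  · intro σ hσ hne
    rw [F3_anti_apply]
    have hzero : ∀ τ ∈ permsOn (univ.map q), ((Perm.sign τ : ℤˣ) : ℤ) •
        (Pi.single (Function.update (baseWord p q i) z j) (1 : C) : (ι → Fin k) → C)
          ((Function.update (baseWord p q i) z c ∘ σ) ∘ τ) = 0 := by
      intro τ hτ
      rw [Pi.single_eq_of_ne, smul_zero]
      intro h
      apply hne
      ext x
      by_cases hx : x ∈ univ.map p
      · have h1 := hmaps _ σ hσ x hx
        obtain ⟨a, _, rfl⟩ := Finset.mem_map.1 hx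
        obtain ⟨b, _, hb⟩ := Finset.mem_map.1 h1
        have h2 := congrFun h (p a)
        simp only [Function.comp_apply] at h2
        rw [hfixT _ τ hτ (p a) (hpq a), ← hb, hp, hp] at h2
        rw [← hb, h2]
        rfl
      · exact hfixT _ σ hσ x hx
    rw [Finset.sum_eq_zero hzero, smul_zero]
  · intro h
    exact absurd (F3_one_mem _) h

/-- PROOF. `(ρ_z(m) ω δ)(b[z → i]) = Σ_c m(i, c) (ω δ)(b[z → c])` and `(ω δ_{b[z → j]})(b[z → c]) = [c = j]`: the word `b`
is injective on `P` and on `Q`, so in the double sum `ω = Σ ± σ τ` only `σ = τ = 1` contributes. -/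
theorem coefMat_rho_om (p q : Fin k ↪ ι) (z : ι) (hF : Frame p q z)
    (m : Matrix (Fin k) (Fin k) C) :
    coefMat p q z ((matStr k C ι).ρ z m * (matStr k C ι).om p q) = m := by
  ext i j
  change ∑ c, m (Function.update (baseWord p q i) z i z) c *
    (matStr k C ι).om p q (Pi.single (Function.update (baseWord p q i) z j) 1)
      (Function.update (Function.update (baseWord p q i) z i) z c) = m i j
  rw [Function.update_self]
  simp only [Function.update_idem]
  simp only [F3_om_single p q z hF i j, mul_ite, mul_one, mul_zero]
  simp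

end Pool.PI34.BA
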