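import Pool.Agent.LibPI34.BA_C1

/-! PI34, block BA, file F4: the closing determinant for matrices is a determinant. -/

set_option autoImplicit false

namespace Pool.PI34.BA

open Equiv Finset Matrix

variable {A R : Type} [Fintype A] [DecidableEq A] [CommRing R] {k : ℕ}

/-- a block matrix `1 + e_a r` has the determinant of `1 + r_a` -/
theorem F4_det_row (a : A) (r : A → Matrix (Fin k) (Fin k) R) :
    (Matrix.comp A A (Fin k) (Fin k) R
      (1 + Matrix.of fun b c => if b = a then r c else 0)).det = (1 + r a).det := by
  have h : Matrix.comp A A (Fin k) (Fin k) R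
      (1 + Matrix.of fun b c => if b = a then r c else 0) =
      1 + (Matrix.of fun (x : A × Fin k) (j : Fin k) => if x.1 = a ∧ x.2 = j then (1 : R) else 0) *
        (Matrix.of fun (j : Fin k) (y : A × Fin k) => r y.1 j y.2) := by
    ext ⟨b, i⟩ ⟨c, j⟩
    rw [Matrix.comp_apply, Matrix.add_apply, Matrix.add_apply, Matrix.add_apply, Matrix.mul_apply]
    congr 1
    · by_cases hbc : b = c
      · subst hbc
        by_cases hij : i = j
        · subst hij
          simp
        · rw [Matrix.one_apply_eq, Matrix.one_apply_ne hij, Matrix.one_apply_ne]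
          intro hh
          exact hij (Prod.ext_iff.1 hh).2
      · rw [Matrix.one_apply_ne hbc, Matrix.zero_apply, Matrix.one_apply_ne]
        intro hh
        exact hbc (Prod.ext_iff.1 hh).1
    · simp only [Matrix.of_apply]
      by_cases hb : b = a
      · subst hb
        simp
      · simp [hb]
  rw [h, Matrix.det_one_add_mul_comm]
  congr 1
  congr 1
  ext i j
  rw [Matrix.mul_apply, Fintype.sum_prod_type, Finset.sum_eq_single a]
  · rw [Finset.sum_eq_single j]
    · simp
    · intro b _ hb
      simp [hb]
    · simp
  · intro b _ hb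
    simp [hb]
  · simp

/-- PROOF. Induction on `l`: with `M = 1 + t N_l` (blocks), `M_{a :: l} = M + t e_a N_a`, and
`det(M + t U V) = det(M) det(1 + t V M⁻¹ U)` (`Matrix.det_one_add_mul_comm`), `U = e_a` (a block column),
`V = N_a` (a block row); `V M⁻¹ U = (N M⁻¹)_{aa}`. -/
theorem det_dt (t : R) (hn : IsNilpotent t) (N : Matrix A A (Matrix (Fin k) (Fin k) R))
    (l : List A) (hl : l.Nodup) :
    (dt (Matrix.scalar (Fin k) t) N l).det =
      (1 + t • Matrix.comp A A (Fin k) (Fin k) R (rowsIn N l)).det := by
  have htc : ∀ x : Matrix (Fin k) (Fin k) R,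
      Matrix.scalar (Fin k) t * x = x * Matrix.scalar (Fin k) t := by
    intro x
    ext i j
    simp [Matrix.scalar_apply, mul_comm]
  have htn : IsNilpotent (Matrix.scalar (Fin k) t) := hn.map (Matrix.scalar (Fin k))
  have key : ∀ P : Matrix A A (Matrix (Fin k) (Fin k) R),
      1 + t • Matrix.comp A A (Fin k) (Fin k) R P =
        Matrix.comp A A (Fin k) (Fin k) R (1 + Matrix.scalar (Fin k) t • P) := by
    intro P
    ext ⟨b, i⟩ ⟨c, j⟩
    rw [Matrix.comp_apply, Matrix.add_apply, Matrix.add_apply, Matrix.add_apply]
    congr 1
    · by_cases hbc : b = c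
      · subst hbc
        by_cases hij : i = j
        · subst hij
          simp
        · rw [Matrix.one_apply_eq, Matrix.one_apply_ne hij, Matrix.one_apply_ne]
          intro hh
          exact hij (Prod.ext_iff.1 hh).2
      · rw [Matrix.one_apply_ne hbc, Matrix.zero_apply, Matrix.one_apply_ne]
        intro hh
        exact hbc (Prod.ext_iff.1 hh).1
    · rw [Matrix.smul_apply, Matrix.comp_apply, Matrix.smul_apply, smul_eq_mul, smul_eq_mul,
        Matrix.scalar_apply, Matrix.diagonal_mul]
  induction l with
  | nil =>
    have h0 : rowsIn N ([] : List A) = 0 := by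
      ext b c
      simp [rowsIn]
    rw [h0, key]
    simp only [dt, smul_zero, add_zero, Matrix.det_one]
    have h1 : Matrix.comp A A (Fin k) (Fin k) R 1 = 1 := by
      have h2 := key 0
      rw [smul_zero, add_zero] at h2
      rw [← h2]
      ext ⟨b, i⟩ ⟨c, j⟩
      simp [Matrix.comp_apply]
    rw [h1, Matrix.det_one]
  | cons a l ih =>
    have hal : a ∉ l := (List.nodup_cons.1 hl).1
    have ih' := ih (List.nodup_cons.1 hl).2
    have hu := isUnit_one_add (Matrix.scalar (Fin k) t) htc htn (rowsIn N l)
    set M := 1 + Matrix.scalar (Fin k) t • rowsIn N l with hM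
    have hMi : Ring.inverse M * M = 1 := Ring.inverse_mul_cancel M hu
    have e1 : 1 + Matrix.scalar (Fin k) t • rowsIn N (a :: l) =
        (1 + Matrix.of fun b c => if b = a then
          (Matrix.scalar (Fin k) t • (N * Ring.inverse M)) a c else 0) * M := by
      have e2 : (Matrix.of fun b c => if b = a then
          (Matrix.scalar (Fin k) t • (N * Ring.inverse M)) a c else 0) =
          (Matrix.of fun b c => if b = a then
            (Matrix.scalar (Fin k) t • N) a c else 0) * Ring.inverse M := by
        ext1 b c
        rw [Matrix.mul_apply]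
        by_cases hb : b = a
        · subst hb
          simp only [Matrix.of_apply, if_true, Matrix.smul_apply, Matrix.mul_apply, smul_eq_mul,
            Finset.mul_sum, mul_assoc]
        · simp [hb]
      rw [e2, add_mul, one_mul, mul_assoc, hMi, mul_one, hM, add_assoc]
      congr 1
      ext1 b c
      by_cases hb : b = a
      · subst hb
        simp [rowsIn, hal]
      · simp [rowsIn, hb]
    have e3 : Matrix.comp A A (Fin k) (Fin k) R
        ((1 + Matrix.of fun b c => if b = a then
          (Matrix.scalar (Fin k) t • (N * Ring.inverse M)) a c else 0) * M) =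
        Matrix.comp A A (Fin k) (Fin k) R
        (1 + Matrix.of fun b c => if b = a then
          (Matrix.scalar (Fin k) t • (N * Ring.inverse M)) a c else 0) *
        Matrix.comp A A (Fin k) (Fin k) R M := by
      exact map_mul (Matrix.compRingEquiv A (Fin k) R) _ _
    rw [key, e1, e3, Matrix.det_mul, F4_det_row, ← key, ← ih', dt, Matrix.det_mul, mul_comm]
    congr 1

end Pool.PI34.BA
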