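import Pool.Agent.LibPI34.BA_F2
import Pool.Agent.LibPI34.BA_F3
import Pool.Agent.LibPI34.BA_F4
import Pool.Agent.LibPI34.BA_D1
import Pool.Agent.LibPI34.BA_C3
import Pool.Agent.LibPI34.BA_C6

/-! PI34, block BA, file F5: `P(B)` for generic matrices. -/

set_option autoImplicit false

namespace Pool.PI34.BA

open Equiv Finset Matrix
open scoped TensorProduct

variable {k : ℕ} {ι : Type} [Fintype ι] [DecidableEq ι]

/-- `P(B) = det(1 + t B_A X) ρ_z(q(B)) ω` for the matrix string system (`matStr_D_om`, `det_dt`, `coefMat_rho_om`) -/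
theorem coefMat_PP {A R : Type} [Fintype A] [DecidableEq A] [CommRing R] (p q : Fin k ↪ ι) (z : ι)
    (hF : Frame p q z) (t : R) (hn : IsNilpotent t) (x : A → Matrix (Fin k) (Fin k) R)
    (B : Matrix (Option A) (Option A) (Matrix (Fin k) (Fin k) R)) :
    coefMat p q z ((matStr k R ι).PP p q z (Matrix.scalar (Fin k) t) x B) =
      (1 + t • Matrix.comp A A (Fin k) (Fin k) R (BX x B)).det •
        qq (Matrix.scalar (Fin k) t) x B := by
  have hz : ∀ i, p i ≠ z := hF.pz
  unfold Str.PP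
  rw [← rho_comm_D (matStr k R ι) p z hz, mul_assoc, matStr_D_om p q z hF, mul_smul_comm,
    map_smul, coefMat_rho_om p q z hF, det_dt t hn _ _ (nodup_toList _),
    rowsIn_complete _ _ (fun a => mem_toList.2 (mem_univ a))]

/-- base change of matrices -/
noncomputable def tensMat (T C : Type) [CommRing T] [CommRing C] (W : Type) [Fintype W]
    [DecidableEq W] : T ⊗[ℤ] Matrix W W C →+* Matrix W W (T ⊗[ℤ] C) :=
  (Algebra.TensorProduct.lift
    ((Algebra.ofId (T ⊗[ℤ] C) (Matrix W W (T ⊗[ℤ] C))).restrictScalars ℤ |>.comp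
      (Algebra.TensorProduct.includeLeft : T →ₐ[ℤ] T ⊗[ℤ] C))
    ((Algebra.TensorProduct.includeRight : C →ₐ[ℤ] T ⊗[ℤ] C).mapMatrix)
    (fun _ _ => Algebra.commutes _ _) : T ⊗[ℤ] Matrix W W C →ₐ[ℤ] Matrix W W (T ⊗[ℤ] C))

theorem tensMat_tmul (T C : Type) [CommRing T] [CommRing C] (W : Type) [Fintype W]
    [DecidableEq W] (a : T) (M : Matrix W W C) (i j : W) :
    tensMat T C W (a ⊗ₜ M) i j = a ⊗ₜ M i j := by
  have h : tensMat T C W (a ⊗ₜ M) = algebraMap (T ⊗[ℤ] C) (Matrix W W (T ⊗[ℤ] C)) (a ⊗ₜ 1) *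
      M.map (fun c => (1 : T) ⊗ₜ[ℤ] c) := rfl
  rw [h, ← Algebra.smul_def, Matrix.smul_apply, Matrix.map_apply, smul_eq_mul,
    Algebra.TensorProduct.tmul_mul_tmul, mul_one, one_mul]

/-- endomorphisms as matrices -/
noncomputable def endToMat (C : Type) [CommRing C] (W : Type) [Fintype W] [DecidableEq W] :
    Module.End C (W → C) →+* Matrix W W C :=
  (LinearMap.toMatrixAlgEquiv' : Module.End C (W → C) ≃ₐ[C] Matrix W W C).toRingEquiv.toRingHom

/-- matrices as endomorphisms -/
noncomputable def matToEnd (C : Type) [CommRing C] (W : Type) [Fintype W] [DecidableEq W] :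
    Matrix W W C →+* Module.End C (W → C) :=
  (LinearMap.toMatrixAlgEquiv' : Module.End C (W → C) ≃ₐ[C] Matrix W W C).symm.toRingEquiv.toRingHom

/-- base change of endomorphisms of `C^W`, first as matrices -/
noncomputable def tensEndMat (T C : Type) [CommRing T] [CommRing C] (W : Type) [Fintype W]
    [DecidableEq W] : T ⊗[ℤ] Module.End C (W → C) →ₐ[ℤ] T ⊗[ℤ] Matrix W W C :=
  Algebra.TensorProduct.map (AlgHom.id ℤ T) (endToMat C W).toIntAlgHom

/-- base change of endomorphisms of `C^W` -/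
noncomputable def tensEnd (T C : Type) [CommRing T] [CommRing C] (W : Type) [Fintype W]
    [DecidableEq W] : T ⊗[ℤ] Module.End C (W → C) →+* Module.End (T ⊗[ℤ] C) (W → T ⊗[ℤ] C) :=
  (matToEnd (T ⊗[ℤ] C) W).comp ((tensMat T C W).comp (tensEndMat T C W).toRingHom)

theorem f5_mat {T C : Type} [CommRing T] [CommRing C] {W : Type} [Fintype W] [DecidableEq W]
    (a : T) (e : Module.End C (W → C)) (w w' : W) :
    tensMat T C W (tensEndMat T C W (a ⊗ₜ e)) w w' = a ⊗ₜ e (Pi.single w' 1) w := by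
  have h : tensEndMat T C W (a ⊗ₜ e) = a ⊗ₜ endToMat C W e := rfl
  rw [h, tensMat_tmul]
  rfl

theorem f5_end_mat {C : Type} [CommRing C] {W : Type} [Fintype W] [DecidableEq W]
    (M : Matrix W W C) : endToMat C W (matToEnd C W M) = M :=
  LinearMap.toMatrixAlgEquiv'.apply_symm_apply M

theorem f5_mat_end {C : Type} [CommRing C] {W : Type} [Fintype W] [DecidableEq W]
    (e : Module.End C (W → C)) : matToEnd C W (endToMat C W e) = e :=
  LinearMap.toMatrixAlgEquiv'.symm_apply_apply e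

theorem f5_apply {T C : Type} [CommRing T] [CommRing C] {W : Type} [Fintype W] [DecidableEq W]
    (a : T) (e : Module.End C (W → C)) (w w' : W) :
    tensEnd T C W (a ⊗ₜ e) (Pi.single w' 1) w = a ⊗ₜ e (Pi.single w' 1) w := by
  have h : endToMat (T ⊗[ℤ] C) W (tensEnd T C W (a ⊗ₜ e)) =
      tensMat T C W (tensEndMat T C W (a ⊗ₜ e)) := f5_end_mat _
  have h2 : tensEnd T C W (a ⊗ₜ e) (Pi.single w' 1) w =
      endToMat (T ⊗[ℤ] C) W (tensEnd T C W (a ⊗ₜ e)) w w' := rfl
  rw [h2, h, f5_mat]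

theorem f5_ext {C : Type} [CommRing C] {W : Type} [Fintype W] [DecidableEq W]
    (e e' : Module.End C (W → C))
    (h : ∀ w w', e (Pi.single w' 1) w = e' (Pi.single w' 1) w) : e = e' := by
  have h1 : endToMat C W e = endToMat C W e' := Matrix.ext fun w w' => h w w'
  rw [← f5_mat_end e, h1, f5_mat_end]

/-- `tensMat`, `tensEnd` are a morphism of string systems `(matStr k C ι).base T → matStr k (T ⊗ C) ι` -/
theorem tensEnd_rho (T C : Type) [CommRing T] [CommRing C] (i : ι)
    (a : T ⊗[ℤ] Matrix (Fin k) (Fin k) C) :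
    tensEnd T C (ι → Fin k) (((matStr k C ι).base T).ρ i a) =
      (matStr k (T ⊗[ℤ] C) ι).ρ i (tensMat T C (Fin k) a) := by
  induction a using TensorProduct.induction_on with
  | zero => simp only [map_zero]
  | add u v hu hv => simp only [map_add, hu, hv]
  | tmul u M =>
    rw [base_rho_tmul]
    refine f5_ext _ _ fun w w' => ?_
    rw [f5_apply]
    change u ⊗ₜ[ℤ] (∑ c, M (w i) c * (Pi.single w' (1 : C) : (ι → Fin k) → C)
        (Function.update w i c)) =
      ∑ c, tensMat T C (Fin k) (u ⊗ₜ M) (w i) c *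
        (Pi.single w' (1 : T ⊗[ℤ] C) : (ι → Fin k) → T ⊗[ℤ] C) (Function.update w i c)
    rw [TensorProduct.tmul_sum]
    refine Finset.sum_congr rfl fun c _ => ?_
    rw [tensMat_tmul]
    by_cases hc : Function.update w i c = w'
    · rw [hc, Pi.single_eq_same, Pi.single_eq_same, mul_one, mul_one]
    · rw [Pi.single_eq_of_ne hc, Pi.single_eq_of_ne hc, mul_zero, mul_zero,
        TensorProduct.tmul_zero]

theorem tensEnd_s (T C : Type) [CommRing T] [CommRing C] (σ : Perm ι) :
    tensEnd T C (ι → Fin k) (((matStr k C ι).base T).s σ) = (matStr k (T ⊗[ℤ] C) ι).s σ := by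
  rw [base_s]
  refine f5_ext _ _ fun w w' => ?_
  rw [f5_apply]
  change (1 : T) ⊗ₜ[ℤ] ((Pi.single w' (1 : C) : (ι → Fin k) → C) (w ∘ σ)) =
    (Pi.single w' (1 : T ⊗[ℤ] C) : (ι → Fin k) → T ⊗[ℤ] C) (w ∘ σ)
  by_cases hc : w ∘ σ = w'
  · rw [hc, Pi.single_eq_same, Pi.single_eq_same]
    rfl
  · rw [Pi.single_eq_of_ne hc, Pi.single_eq_of_ne hc, TensorProduct.tmul_zero]

/-- the matrix coefficients commute with base change -/
theorem coefMat_tensEnd (T C : Type) [CommRing T] [CommRing C] (p q : Fin k ↪ ι) (z : ι)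
    (y : T ⊗[ℤ] Module.End C ((ι → Fin k) → C)) (i j : Fin k) :
    coefMat p q z (tensEnd T C (ι → Fin k) y) i j =
      ((Matrix.entryLinearMap ℤ C i j) ∘ₗ ((coefMat p q z).restrictScalars ℤ)).lTensor T y := by
  induction y using TensorProduct.induction_on with
  | zero => simp only [map_zero, Matrix.zero_apply]
  | add u v hu hv => simp only [map_add, Matrix.add_apply, hu, hv]
  | tmul u e =>
    rw [LinearMap.lTensor_tmul]
    exact f5_apply u e _ _

end Pool.PI34.BA
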