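import Pool.Agent.LibPI34.BA_D7
import Pool.Agent.LibPI34.BA_D8
import Pool.Agent.LibPI34.BA_E5
import Pool.Agent.LibPI34.BA_F1
import Pool.Agent.LibPI34.BA_F3

/-! PI34, block BA, file G1: BA for homogeneous elements, from the rank bound A5. -/

set_option autoImplicit false

namespace Pool.PI34.BA

open Equiv Finset Matrix
open scoped TensorProduct

/-- the coefficient ring of the generic matrices -/
abbrev CG (X : Type) (k : ℕ) : Type := MvPolynomial (X × Fin k × Fin k) ℤ

/-- the generic matrices -/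
noncomputable def gen (X : Type) (k : ℕ) (a : X) : Matrix (Fin k) (Fin k) (CG X k) :=
  Matrix.of fun i j => MvPolynomial.X (a, i, j)

/-- the rank bound A5 for the matrix string system -/
def RankBound (X : Type) [Fintype X] [DecidableEq X] (k n : ℕ) {ι : Type} [Fintype ι]
    [DecidableEq ι] (p q : Fin k ↪ ι) (z : ι) : Prop :=
  ∀ (K : Type) [Field K] [Infinite K], Module.finrank K (FF X k n K) ≤
    Module.finrank ℤ (Submodule.span ℤ (Set.range fun ξ =>
      Pxi (matStr k (CG X k) ι) p q z (gen X k) n ξ))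

theorem sum_path_helper {J A B : Type} [Fintype J] [Ring A] [Ring B] (r : A →+* B) (o : B)
    (n : ℕ) (c : J → ℤ) (y : J → A) :
    ∑ w, c w • ((-1 : ℤ) ^ n • (r (y w) * o)) = (-1 : ℤ) ^ n • (r (∑ w, c w • y w) * o) := by
  rw [map_sum, Finset.sum_mul, Finset.smul_sum]
  refine Finset.sum_congr rfl fun w _ => ?_
  rw [map_zsmul, smul_mul_assoc, smul_comm]

theorem noZeroSMul_end (X : Type) (k : ℕ) (ι : Type) :
    NoZeroSMulDivisors ℤ (Module.End (CG X k) ((ι → Fin k) → CG X k)) := by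
  refine ⟨fun {a f} h => ?_⟩
  by_cases ha : a = 0
  · exact Or.inl ha
  · refine Or.inr ?_
    apply LinearMap.ext
    intro v
    funext g
    have h1 := congrFun (congrArg (fun e : Module.End (CG X k) ((ι → Fin k) → CG X k) => e v) h) g
    have h2 : a • (f v g) = 0 := h1
    rw [zsmul_eq_mul, mul_eq_zero] at h2
    rcases h2 with h2 | h2
    · exact absurd (Int.cast_eq_zero.1 h2) ha
    · exact h2

/-- PROOF.  `S₁ = S.comap (lift x)`, `S₂ = (matStr k (CG X k) ι).comap (lift gen)`, package of `S₁.prod S₂`,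
`map_Pxi` for the two projections, `glue` with the coefficients `c` and the monomials `pathMon w`; `Pxi_path`:
the second components give `± ρ_z(Σ c_w gen_w) ω = 0`, the first ones `± Σ c_w ρ_z(x_w) ω`. -/
theorem BA_word {X : Type} [Fintype X] [DecidableEq X] {ι Φ E : Type} [Fintype ι] [DecidableEq ι]
    [Ring Φ] [Ring E] (S : Str ι Φ E) (k n : ℕ) (hA : Anti S.s k) (p q : Fin k ↪ ι) (z : ι)
    (hF : Frame p q z) (hR : RankBound X k n p q z) (x : X → Φ) (c : (Fin n → X) → ℤ)
    (hc : ∑ w, c w • (List.ofFn fun i => gen X k (w i)).prod = 0) :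
    ∑ w, c w • (S.ρ z (List.ofFn fun i => x (w i)).prod * S.om p q) = 0 := by
  classical
  obtain ⟨f1, hf1⟩ : ∃ f : FreeAlgebra ℤ X →+* Φ, ∀ a, f (FreeAlgebra.ι ℤ a) = x a :=
    ⟨(FreeAlgebra.lift ℤ x : FreeAlgebra ℤ X →ₐ[ℤ] Φ).toRingHom, fun a => by simp⟩
  obtain ⟨f2, hf2⟩ : ∃ f : FreeAlgebra ℤ X →+* Matrix (Fin k) (Fin k) (CG X k),
      ∀ a, f (FreeAlgebra.ι ℤ a) = gen X k a :=
    ⟨(FreeAlgebra.lift ℤ (gen X k) :
      FreeAlgebra ℤ X →ₐ[ℤ] Matrix (Fin k) (Fin k) (CG X k)).toRingHom, fun a => by simp⟩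
  have e1 : (fun a => f1 (FreeAlgebra.ι ℤ a)) = x := funext hf1
  have e2 : (fun a => f2 (FreeAlgebra.ι ℤ a)) = gen X k := funext hf2
  set SP := (S.comap f1).prod ((matStr k (CG X k) ι).comap f2) with hSP
  have hAP : Anti SP.s k := prod_Anti (S.comap f1) ((matStr k (CG X k) ι).comap f2) k hA matStr_Anti
  have P1 : ∀ ξ, (Pxi SP p q z (fun a => FreeAlgebra.ι ℤ a) n ξ).1 = Pxi S p q z x n ξ := by
    intro ξ
    have h := map_Pxi SP S f1 (RingHom.fst E (Module.End (CG X k) ((ι → Fin k) → CG X k)))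
      (fun _ _ => rfl) (fun _ => rfl) p q z (fun a => FreeAlgebra.ι ℤ a) n ξ
    rw [e1] at h
    exact h
  have P2 : ∀ ξ, (Pxi SP p q z (fun a => FreeAlgebra.ι ℤ a) n ξ).2 =
      Pxi (matStr k (CG X k) ι) p q z (gen X k) n ξ := by
    intro ξ
    have h := map_Pxi SP (matStr k (CG X k) ι) f2
      (RingHom.snd E (Module.End (CG X k) ((ι → Fin k) → CG X k)))
      (fun _ _ => rfl) (fun _ => rfl) p q z (fun a => FreeAlgebra.ι ℤ a) n ξ
    rw [e2] at h
    exact h
  haveI := noZeroSMul_end X k ι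
  have hg := glue (Str.pkg SP p q z (fun a => FreeAlgebra.ι ℤ a) n hAP hF) (by
      intro K _ _
      have h := hR K
      have h3 : (fun ξ => ((Str.pkg SP p q z (fun a => FreeAlgebra.ι ℤ a) n hAP hF).P ξ).2) =
          fun ξ => Pxi (matStr k (CG X k) ι) p q z (gen X k) n ξ := funext P2
      rw [h3]
      exact h) c (fun w => pathMon w) (by
      have h4 : ∀ w : Fin n → X, c w •
          ((Str.pkg SP p q z (fun a => FreeAlgebra.ι ℤ a) n hAP hF).P (pathMon w)).2 =
          c w • ((-1 : ℤ) ^ n • ((matStr k (CG X k) ι).ρ z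
            (List.ofFn fun i => gen X k (w i)).prod * (matStr k (CG X k) ι).om p q)) := by
        intro w
        rw [← Pxi_path]
        exact congrArg (fun y => c w • y) (P2 (pathMon w))
      rw [Finset.sum_congr rfl fun w _ => h4 w, sum_path_helper, hc, map_zero, zero_mul, smul_zero])
  have h5 : ∀ w : Fin n → X, c w •
      ((Str.pkg SP p q z (fun a => FreeAlgebra.ι ℤ a) n hAP hF).P (pathMon w)).1 =
      c w • ((-1 : ℤ) ^ n • (S.ρ z (List.ofFn fun i => x (w i)).prod * S.om p q)) := by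
    intro w
    rw [← Pxi_path]
    exact congrArg (fun y => c w • y) (P1 (pathMon w))
  rw [Finset.sum_congr rfl fun w _ => h5 w] at hg
  have h6 : ∑ w, c w • ((-1 : ℤ) ^ n • (S.ρ z (List.ofFn fun i => x (w i)).prod * S.om p q)) =
      (-1 : ℤ) ^ n • ∑ w, c w • (S.ρ z (List.ofFn fun i => x (w i)).prod * S.om p q) := by
    rw [Finset.smul_sum]
    exact Finset.sum_congr rfl fun w _ => smul_comm _ _ _
  rw [h6] at hg
  have h7 := congrArg (fun y => (-1 : ℤ) ^ n • y) hg
  simp only [smul_smul, smul_zero] at h7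
  rw [← mul_pow, neg_mul_neg, one_mul, one_pow, one_smul] at h7
  exact h7

end Pool.PI34.BA
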