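import Pool.Agent.LibPI34.BA_F5
import Pool.Agent.LibPI34.BA_G1

/-! PI34, block BA, file F6: the coefficients `P_ξ` for generic matrices and the determinant
`det (1 + [B_ab (x_{l(b)})_{ij}])`. -/

set_option autoImplicit false

namespace Pool.PI34.BA

open Equiv Finset Matrix
open scoped TensorProduct

/-- the coefficient ring of the generic matrices `x_s`, `s ∈ X`, and `y = x_none` -/
abbrev CO (X : Type) (k : ℕ) : Type := MvPolynomial (Option X × Fin k × Fin k) ℤ

/-- the big matrix `[B_ab (x_{l(b)})_{ij}]` with index set `Option (X × Fin n) × Fin k` -/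
def bigN {X : Type} {k n : ℕ} {R : Type} [CommRing R] (x : Option X → Matrix (Fin k) (Fin k) R)
    (B : Matrix (Option (X × Fin n)) (Option (X × Fin n)) R) :
    Matrix (Option (X × Fin n) × Fin k) (Option (X × Fin n) × Fin k) R :=
  Matrix.of fun a b => B a.1 b.1 * x (b.1.map Prod.fst) a.2 b.2

variable {X : Type} [Fintype X] [DecidableEq X]

/-- multiplication of the rows different from `none` by `t` -/
def rowScale {n : ℕ} {R : Type} [CommRing R] (t : R)
    (B : Matrix (Option (X × Fin n)) (Option (X × Fin n)) R) :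
    Matrix (Option (X × Fin n)) (Option (X × Fin n)) R :=
  Matrix.of fun a b => if a = none then B a b else t * B a b

section F6det

variable {A R : Type} [Fintype A] [DecidableEq A] [CommRing R] {k : ℕ}

/-- a row of matrices as a matrix -/
def F6row (r : A → Matrix (Fin k) (Fin k) R) : Matrix (Fin k) (A × Fin k) R :=
  Matrix.of fun i b => r b.1 i b.2

/-- a column of matrices as a matrix -/
def F6col (c : A → Matrix (Fin k) (Fin k) R) : Matrix (A × Fin k) (Fin k) R :=
  Matrix.of fun a j => c a.1 a.2 j

theorem F6row_mul (r : A → Matrix (Fin k) (Fin k) R) (W : Matrix A A (Matrix (Fin k) (Fin k) R)) :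
    F6row r * Matrix.comp A A (Fin k) (Fin k) R W = F6row fun b => ∑ a, r a * W a b := by
  ext i ⟨b, m⟩
  simp only [F6row, Matrix.mul_apply, Matrix.of_apply, Fintype.sum_prod_type, Matrix.comp_apply,
    Matrix.sum_apply]

theorem F6row_col (r c : A → Matrix (Fin k) (Fin k) R) :
    F6row r * F6col c = ∑ a, r a * c a := by
  ext i j
  simp only [F6row, F6col, Matrix.mul_apply, Matrix.of_apply, Fintype.sum_prod_type,
    Matrix.sum_apply]

/-- reindexing -/
def F6e (A : Type) (k : ℕ) : Fin k ⊕ (A × Fin k) ≃ Option A × Fin k where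
  toFun a := Sum.elim (fun i => (none, i)) (fun b => (some b.1, b.2)) a
  invFun b := match b with
    | (none, i) => Sum.inl i
    | (some a, i) => Sum.inr (a, i)
  left_inv a := by rcases a with i | ⟨a, i⟩ <;> rfl
  right_inv b := by rcases b with ⟨_ | a, i⟩ <;> rfl

theorem F6_scalar (t : R) (M : Matrix (Fin k) (Fin k) R) :
    Matrix.scalar (Fin k) t * M = t • M := by
  rw [Matrix.scalar_apply, ← Matrix.smul_eq_diagonal_mul]

theorem F6_schur (t : R) (hn : IsNilpotent t) (x : A → Matrix (Fin k) (Fin k) R)
    (y : Matrix (Fin k) (Fin k) R) (B : Matrix (Option A) (Option A) R)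
    (M : Matrix (Option A × Fin k) (Option A × Fin k) R)
    (h00 : ∀ i j, M (none, i) (none, j) = (1 : Matrix (Fin k) (Fin k) R) i j +
      B none none * y i j)
    (h01 : ∀ i b j, M (none, i) (some b, j) = B none (some b) * x b i j)
    (h10 : ∀ a i j, M (some a, i) (none, j) = t * B (some a) none * y i j)
    (h11 : ∀ a i b j, M (some a, i) (some b, j) = (if (a, i) = (b, j) then 1 else 0) +
      t * B (some a) (some b) * x b i j) :
    M.det = (1 + t • Matrix.comp _ _ (Fin k) (Fin k) R
        (BX x (B.map (Matrix.scalar (Fin k))))).det *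
      (1 + qq (Matrix.scalar (Fin k) t) x (B.map (Matrix.scalar (Fin k))) * y).det := by
  set T : Matrix (Fin k) (Fin k) R := Matrix.scalar (Fin k) t with hT
  set B' := B.map (Matrix.scalar (Fin k)) with hB'
  have hTc : ∀ z : Matrix (Fin k) (Fin k) R, T * z = z * T := fun z =>
    (Matrix.scalar_commute t (fun r => mul_comm _ _) z).eq
  have hTn : IsNilpotent T := hn.map (Matrix.scalar (Fin k))
  obtain ⟨U, hU⟩ : ∃ U, U = 1 + T • BX x B' := ⟨_, rfl⟩
  have hu : IsUnit U := hU ▸ isUnit_one_add T hTc hTn (BX x B')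
  obtain ⟨W, hW⟩ : ∃ W, W = Ring.inverse U := ⟨_, rfl⟩
  have hUW : U * W = 1 := hW ▸ Ring.mul_inverse_cancel _ hu
  have hWU : W * U = 1 := hW ▸ Ring.inverse_mul_cancel _ hu
  have hmul : ∀ P Q : Matrix A A (Matrix (Fin k) (Fin k) R),
      Matrix.comp A A (Fin k) (Fin k) R P * Matrix.comp A A (Fin k) (Fin k) R Q =
        Matrix.comp A A (Fin k) (Fin k) R (P * Q) := fun P Q =>
    (map_mul (Matrix.compRingEquiv A (Fin k) R) P Q).symm
  have hone : Matrix.comp A A (Fin k) (Fin k) R 1 = 1 := map_one (Matrix.compRingEquiv A (Fin k) R)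
  let D := Matrix.comp A A (Fin k) (Fin k) R U
  let iD : Invertible D := ⟨Matrix.comp A A (Fin k) (Fin k) R W, by
    rw [hmul, hWU, hone], by rw [hmul, hUW, hone]⟩
  have hD : D = 1 + t • Matrix.comp A A (Fin k) (Fin k) R (BX x B') := by
    ext ⟨a, i⟩ ⟨b, j⟩
    simp only [D, hU, Matrix.comp_apply, Matrix.add_apply, Matrix.smul_apply, smul_eq_mul, hT,
      F6_scalar]
    congr 1
    by_cases hab : a = b
    · subst hab
      rw [Matrix.one_apply_eq]
      by_cases hij : i = j
      · subst hij
        rw [Matrix.one_apply_eq, Matrix.one_apply_eq]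
      · rw [Matrix.one_apply_ne hij, Matrix.one_apply_ne]
        intro h
        exact hij (Prod.ext_iff.1 h).2
    · rw [Matrix.one_apply_ne hab, Matrix.one_apply_ne]
      · rfl
      · intro h
        exact hab (Prod.ext_iff.1 h).1
  have hM : M.submatrix (F6e A k) (F6e A k) = Matrix.fromBlocks (1 + B none none • y)
      (F6row fun b => B' none (some b) * x b) (F6col fun a => T * B' (some a) none * y) D := by
    rw [hD]
    ext u v
    rcases u with i | ⟨a, i⟩ <;> rcases v with j | ⟨b, j⟩
    · simp [F6e, h00]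
    · simp [F6e, h01, F6row, hB', F6_scalar]
    · simp [F6e, h10, F6col, hB', hT, F6_scalar, mul_assoc]
    · simp [F6e, h11, hB', hT, F6_scalar, BX, Matrix.one_apply, mul_assoc]
  rw [← Matrix.det_submatrix_equiv_self (F6e A k) M, hM, Matrix.det_fromBlocks₂₂, ← hD]
  congr 2
  have hiD : ⅟D = Matrix.comp A A (Fin k) (Fin k) R W := rfl
  rw [hiD, F6row_mul, F6row_col]
  unfold qq
  rw [← hU, ← hW, sub_mul]
  have h1 : B' none none * y = B none none • y := by
    rw [hB', Matrix.map_apply, F6_scalar]
  rw [h1, mul_assoc T, ← add_sub_assoc]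
  congr 1
  have hT2 : ∀ P Q : Matrix (Fin k) (Fin k) R, P * (T * Q) = T * (P * Q) := fun P Q => by
    rw [← mul_assoc, ← hTc, mul_assoc]
  simp only [mul_assoc, hT2]
  rw [← Finset.mul_sum]
  congr 1
  rw [Finset.sum_comm, Finset.sum_mul]
  refine Finset.sum_congr rfl fun b _ => ?_
  rw [Finset.sum_mul, Finset.sum_mul]
  refine Finset.sum_congr rfl fun a _ => ?_
  simp only [mul_assoc]

end F6det

/-- Schur complement with respect to the block `1 + t N`, `N = B_A X` (`Matrix.det_fromBlocks₂₂` after reindexing
`Option A × Fin k ≃ Fin k ⊕ (A × Fin k)`). -/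
theorem det_bigN {k n : ℕ} {R : Type} [CommRing R] (t : R) (hn : IsNilpotent t)
    (x : Option X → Matrix (Fin k) (Fin k) R)
    (B : Matrix (Option (X × Fin n)) (Option (X × Fin n)) R) :
    (1 + bigN x (rowScale t B)).det =
      (1 + t • Matrix.comp _ _ (Fin k) (Fin k) R
        (BX (fun a : X × Fin n => x (some a.1)) (B.map (Matrix.scalar (Fin k))))).det *
      (1 + qq (Matrix.scalar (Fin k) t) (fun a : X × Fin n => x (some a.1))
        (B.map (Matrix.scalar (Fin k))) * x none).det := by
  refine F6_schur t hn _ (x none) B _ ?_ ?_ ?_ ?_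
  · intro i j
    simp [bigN, rowScale, Matrix.one_apply]
  · intro i b j
    simp [bigN, rowScale, Matrix.one_apply]
  · intro a i j
    simp [bigN, rowScale, Matrix.one_apply]
  · intro a i b j
    simp [bigN, rowScale, Matrix.one_apply]

/-- the determinant as a polynomial in the entries of `B` -/
noncomputable def theta (X : Type) [Fintype X] [DecidableEq X] (k n : ℕ) :
    MvPolynomial (Option (X × Fin n) × Option (X × Fin n)) (CO X k) :=
  (1 + bigN (X := X) (k := k) (n := n)
    (R := MvPolynomial (Option (X × Fin n) × Option (X × Fin n)) (CO X k))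
    (fun s => Matrix.of fun i j => MvPolynomial.C (MvPolynomial.X (s, i, j)))
    (Matrix.of fun a b => MvPolynomial.X (a, b))).det

/-- its coefficients -/
noncomputable def thetaXi (X : Type) [Fintype X] [DecidableEq X] (k n : ℕ) (ξ : Mon X n) : CO X k :=
  (theta X k n).coeff ξ

/-- substitution `y ↦ λ y` -/
noncomputable def ySub (X : Type) (k : ℕ) : CO X k →+* Polynomial (CO X k) :=
  MvPolynomial.eval₂Hom (Int.castRingHom _) fun v =>
    (if v.1 = none then Polynomial.X else 1) * Polynomial.C (MvPolynomial.X v)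

omit [Fintype X] [DecidableEq X] in
theorem F6_bigN_scale {k n : ℕ} {R : Type} [CommRing R] (l : R)
    (x : Option X → Matrix (Fin k) (Fin k) R)
    (B : Matrix (Option (X × Fin n)) (Option (X × Fin n)) R) :
    bigN (fun s => Matrix.of fun i j => (if s = none then l else 1) * x s i j) B =
      bigN x (Matrix.of fun a b => (if b = none then l else 1) * B a b) := by
  refine Matrix.ext fun u v => ?_
  obtain ⟨a, i⟩ := u
  obtain ⟨b, j⟩ := v
  rcases b with _ | b
  · simp only [bigN, Matrix.of_apply, if_true, Option.map_none]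
    ring
  · simp only [bigN, Matrix.of_apply, Option.map_some, reduceCtorEq, if_false, one_mul]

theorem F6_hom {k n : ℕ} {R' : Type} [CommRing R']
    (F : MvPolynomial (Option (X × Fin n) × Option (X × Fin n)) (CO X k) →+* R') :
    F (theta X k n) = (1 + bigN (fun s => Matrix.of fun i j =>
      F (MvPolynomial.C (MvPolynomial.X (s, i, j))))
      (Matrix.of fun a b => F (MvPolynomial.X (a, b)))).det := by
  unfold theta
  rw [RingHom.map_det]
  congr 1
  ext ⟨a, i⟩ ⟨b, j⟩
  simp only [RingHom.mapMatrix_apply, Matrix.map_apply, Matrix.add_apply, map_add, bigN,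
    Matrix.of_apply, map_mul]
  congr 1
  by_cases h : (a, i) = (b, j)
  · rw [h, Matrix.one_apply_eq, Matrix.one_apply_eq, map_one]
  · rw [Matrix.one_apply_ne h, Matrix.one_apply_ne h, map_zero]

theorem F6_scale {V R : Type} [CommRing R] (s : V → R) (P : MvPolynomial V R) (ξ : V →₀ ℕ) :
    MvPolynomial.coeff ξ (MvPolynomial.eval₂Hom MvPolynomial.C
      (fun v => MvPolynomial.C (s v) * MvPolynomial.X v) P) =
      (ξ.prod fun v e => s v ^ e) * MvPolynomial.coeff ξ P := by
  classical
  induction P using MvPolynomial.induction_on' with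
  | monomial u a =>
    have h1 : (u.prod fun v e => (MvPolynomial.C (s v) * MvPolynomial.X v : MvPolynomial V R) ^ e) =
        MvPolynomial.C (u.prod fun v e => s v ^ e) *
          (u.prod fun v e => (MvPolynomial.X v : MvPolynomial V R) ^ e) := by
      unfold Finsupp.prod
      rw [map_prod, ← Finset.prod_mul_distrib]
      refine Finset.prod_congr rfl fun v _ => ?_
      dsimp only
      rw [mul_pow, map_pow]
    rw [MvPolynomial.coe_eval₂Hom, MvPolynomial.eval₂_monomial, h1, mul_left_comm,
      ← MvPolynomial.monomial_eq, MvPolynomial.coeff_C_mul, MvPolynomial.coeff_monomial]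
    split_ifs with hu
    · rw [hu]
    · rw [mul_zero, mul_zero]
  | add p q hp hq => rw [map_add, MvPolynomial.coeff_add, hp, hq, MvPolynomial.coeff_add, mul_add]

/-- the degree of `Θ_ξ` in `y` is the degree of `ξ` in the column `none`:
(substitute `y ↦ λ y` in the determinant: this multiplies the column `none` of `B` by `λ`). -/
theorem ySub_thetaXi (k n : ℕ) (ξ : Mon X n) :
    ySub X k (thetaXi X k n ξ) =
      Polynomial.X ^ (∑ a, ξ (a, none)) * Polynomial.C (thetaXi X k n ξ) := by
  let s : Option (X × Fin n) × Option (X × Fin n) → Polynomial (CO X k) := fun v =>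
    if v.2 = none then Polynomial.X else 1
  let F1 : MvPolynomial (Option (X × Fin n) × Option (X × Fin n)) (CO X k) →+*
    MvPolynomial (Option (X × Fin n) × Option (X × Fin n)) (Polynomial (CO X k)) :=
    MvPolynomial.map (ySub X k)
  let F2 : MvPolynomial (Option (X × Fin n) × Option (X × Fin n)) (CO X k) →+*
    MvPolynomial (Option (X × Fin n) × Option (X × Fin n)) (Polynomial (CO X k)) :=
    (MvPolynomial.eval₂Hom MvPolynomial.C
      (fun v => MvPolynomial.C (s v) * MvPolynomial.X v)).comp (MvPolynomial.map Polynomial.C)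
  have hF1C : ∀ l i j, F1 (MvPolynomial.C (MvPolynomial.X (l, i, j))) =
      (if l = none then MvPolynomial.C Polynomial.X else 1) *
        MvPolynomial.C (Polynomial.C (MvPolynomial.X (l, i, j))) := fun l i j => by
    simp only [F1, MvPolynomial.map_C, ySub, MvPolynomial.coe_eval₂Hom, MvPolynomial.eval₂_X,
      map_mul]
    split_ifs
    · rfl
    · rw [map_one]
  have hF1X : ∀ v, F1 (MvPolynomial.X v) = MvPolynomial.X v := fun v => MvPolynomial.map_X _ _
  have hF2C : ∀ l i j, F2 (MvPolynomial.C (MvPolynomial.X (l, i, j))) =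
      MvPolynomial.C (Polynomial.C (MvPolynomial.X (l, i, j))) := fun l i j => by
    simp only [F2, RingHom.comp_apply, MvPolynomial.map_C, MvPolynomial.coe_eval₂Hom,
      MvPolynomial.eval₂_C]
  have hF2X : ∀ a b, F2 (MvPolynomial.X (a, b)) =
      (if b = none then MvPolynomial.C Polynomial.X else 1) *
        MvPolynomial.X (a, b) := fun a b => by
    simp only [F2, RingHom.comp_apply, MvPolynomial.map_X, MvPolynomial.coe_eval₂Hom,
      MvPolynomial.eval₂_X, s]
    split_ifs
    · rfl
    · rw [map_one]
  have h : F1 (theta X k n) = F2 (theta X k n) := by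
    have e1 := F6_hom (R' := MvPolynomial (Option (X × Fin n) × Option (X × Fin n))
      (Polynomial (CO X k))) F1
    have e2 := F6_hom (R' := MvPolynomial (Option (X × Fin n) × Option (X × Fin n))
      (Polynomial (CO X k))) F2
    simp only [hF1C, hF1X] at e1
    simp only [hF2C, hF2X] at e2
    rw [e1, e2]
    have e3 := F6_bigN_scale (X := X) (k := k) (n := n)
      (R := MvPolynomial (Option (X × Fin n) × Option (X × Fin n)) (Polynomial (CO X k)))
      (MvPolynomial.C Polynomial.X)
      (fun l => Matrix.of fun i j => MvPolynomial.C (Polynomial.C (MvPolynomial.X (l, i, j))))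
      (Matrix.of fun a b => MvPolynomial.X (a, b))
    exact congrArg (fun M => (1 + M).det) e3
  have h1 := congrArg (MvPolynomial.coeff ξ) h
  have h2 : MvPolynomial.coeff ξ (F1 (theta X k n)) = ySub X k (thetaXi X k n ξ) :=
    MvPolynomial.coeff_map _ _ _
  have h3 : MvPolynomial.coeff ξ (F2 (theta X k n)) =
      (ξ.prod fun v e => s v ^ e) * Polynomial.C (thetaXi X k n ξ) := by
    simp only [F2, RingHom.comp_apply]
    rw [F6_scale, MvPolynomial.coeff_map]
    rfl
  rw [← h2, h1, h3]
  congr 1
  rw [Finsupp.prod_fintype _ _ (fun v => pow_zero _), Fintype.prod_prod_type,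
    ← Finset.prod_pow_eq_pow_sum]
  refine Finset.prod_congr rfl fun a _ => ?_
  rw [Fintype.prod_option]
  simp [s]

/-- evaluation of the determinant over a commutative ring `R`: `x : CO X k → R` a ring homomorphism, `B` over `R` -/
theorem eval_theta (k n : ℕ) {R : Type} [CommRing R] (f : CO X k →+* R)
    (B : Matrix (Option (X × Fin n)) (Option (X × Fin n)) R) :
    (1 + bigN (fun s => Matrix.of fun i j => f (MvPolynomial.X (s, i, j))) B).det =
      ∑ ξ ∈ (theta X k n).support, f (thetaXi X k n ξ) * evMon B ξ := by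
  have h := F6_hom (X := X) (k := k) (n := n) (MvPolynomial.eval₂Hom f fun ab => B ab.1 ab.2)
  rw [MvPolynomial.coe_eval₂Hom, MvPolynomial.eval₂_eq] at h
  simp only [MvPolynomial.eval₂_C, MvPolynomial.eval₂_X] at h
  have hB : (Matrix.of fun a b => B a b) = B := rfl
  rw [hB] at h
  rw [← h]
  rfl

variable {k : ℕ} {ι : Type} [Fintype ι] [DecidableEq ι]

/-- the functional `κ(e) = Σ_{ij} y_{ji} (coefMat e)_{ij}` -/
noncomputable def kap (X : Type) (p q : Fin k ↪ ι) (z : ι) :
    Module.End (CG X k) ((ι → Fin k) → CG X k) →+ CO X k where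
  toFun e := ∑ i, ∑ j, MvPolynomial.X (none, j, i) *
    MvPolynomial.rename (fun v : X × Fin k × Fin k => (some v.1, v.2.1, v.2.2))
      (coefMat p q z e i j)
  map_zero' := by simp
  map_add' u v := by simp [mul_add, Finset.sum_add_distrib]

end Pool.PI34.BA
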