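import Pool.Agent.LibPI34.BA_F6

/-! PI34, block BA, file F6b: identification of the `P_ξ` for generic matrices. -/

set_option autoImplicit false

namespace Pool.PI34.BA

open Equiv Finset Matrix
open scoped TensorProduct

variable {X : Type} [Fintype X] [DecidableEq X]
variable {k : ℕ} {ι : Type} [Fintype ι] [DecidableEq ι]

omit [Fintype X] [DecidableEq X] in
theorem F6b_evMon_map {n : ℕ} {R R' : Type} [CommRing R] [CommRing R'] (f : R →+* R')
    (B : Matrix (Option (X × Fin n)) (Option (X × Fin n)) R) (ζ : Mon X n) :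
    evMon (B.map f) ζ = f (evMon B ζ) := by
  unfold evMon Finsupp.prod
  rw [map_prod]
  exact Finset.prod_congr rfl fun ab _ => (map_pow f (B ab.1 ab.2) (ζ ab)).symm

omit [Fintype X] [DecidableEq X] in
theorem F6b_rowScale_map {n : ℕ} {R R' : Type} [CommRing R] [CommRing R'] (f : R →+* R') (t : R)
    (B : Matrix (Option (X × Fin n)) (Option (X × Fin n)) R) :
    rowScale (f t) (B.map f) = (rowScale t B).map f := by
  ext a b
  simp only [rowScale, Matrix.of_apply, Matrix.map_apply]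
  split_ifs
  · rfl
  · rw [map_mul]

/-- the number of rows different from `none` -/
def F6b_r {n : ℕ} (ζ : Mon X n) : ℕ := ∑ a : X × Fin n, ∑ b, ζ (some a, b)

omit [DecidableEq X] in
theorem F6b_evMon_rowScale {n : ℕ} {R : Type} [CommRing R] (t : R)
    (B : Matrix (Option (X × Fin n)) (Option (X × Fin n)) R) (ζ : Mon X n) :
    evMon (rowScale t B) ζ = t ^ F6b_r ζ * evMon B ζ := by
  classical
  unfold evMon
  rw [Finsupp.prod_fintype _ _ (fun v => pow_zero _), Finsupp.prod_fintype _ _ (fun v => pow_zero _),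
    Fintype.prod_prod_type, Fintype.prod_prod_type,
    Fintype.prod_option (fun a => ∏ b, rowScale t B a b ^ ζ (a, b)),
    Fintype.prod_option (fun a => ∏ b, B a b ^ ζ (a, b))]
  have h1 : ∀ a : X × Fin n, (∏ b, rowScale t B (some a) b ^ ζ (some a, b)) =
      t ^ (∑ b, ζ (some a, b)) * ∏ b, B (some a) b ^ ζ (some a, b) := fun a => by
    rw [← Finset.prod_pow_eq_pow_sum, ← Finset.prod_mul_distrib]
    refine Finset.prod_congr rfl fun b _ => ?_
    simp only [rowScale, Matrix.of_apply, reduceCtorEq, if_false, mul_pow]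
  have h2 : (∏ b, rowScale t B none b ^ ζ (none, b)) = ∏ b, B none b ^ ζ (none, b) := by
    refine Finset.prod_congr rfl fun b _ => ?_
    simp only [rowScale, Matrix.of_apply, if_true]
  simp only [h1, h2, F6b_r]
  rw [Finset.prod_mul_distrib, Finset.prod_pow_eq_pow_sum]
  ring

/-- the `λ`-linear part of the determinant -/
theorem F6b_lin {n : ℕ} {R : Type} [CommRing R] (t : R) (hn : IsNilpotent t) (f : CO X k →+* R)
    (B : Matrix (Option (X × Fin n)) (Option (X × Fin n)) R) :
    (1 + t • Matrix.comp _ _ (Fin k) (Fin k) R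
        (BX (fun a : X × Fin n => Matrix.of fun i j => f (MvPolynomial.X (some a.1, i, j)))
          (B.map (Matrix.scalar (Fin k))))).det *
      (qq (Matrix.scalar (Fin k) t)
        (fun a : X × Fin n => Matrix.of fun i j => f (MvPolynomial.X (some a.1, i, j)))
        (B.map (Matrix.scalar (Fin k))) *
          Matrix.of fun i j => f (MvPolynomial.X (none, i, j))).trace =
      ∑ ζ ∈ (theta X k n).support.filter (fun ζ => (∑ a, ζ (a, none)) = 1),
        f (thetaXi X k n ζ) * evMon (rowScale t B) ζ := by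
  let F : CO X k →+* Polynomial R := (Polynomial.mapRingHom f).comp (ySub X k)
  let φ : Matrix (Fin k) (Fin k) R →+* Matrix (Fin k) (Fin k) (Polynomial R) :=
    (Polynomial.C : R →+* _).mapMatrix
  let x : X × Fin n → Matrix (Fin k) (Fin k) R := fun a =>
    Matrix.of fun i j => f (MvPolynomial.X (some a.1, i, j))
  let y : Matrix (Fin k) (Fin k) R := Matrix.of fun i j => f (MvPolynomial.X (none, i, j))
  have hF : ∀ v, F (MvPolynomial.X v) =
      (if v.1 = none then Polynomial.X else 1) * Polynomial.C (f (MvPolynomial.X v)) := fun v => by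
    simp only [F, RingHom.comp_apply, ySub, MvPolynomial.coe_eval₂Hom, MvPolynomial.eval₂_X,
      map_mul, Polynomial.coe_mapRingHom, Polynomial.map_C]
    split_ifs
    · rw [Polynomial.map_X]
    · rw [Polynomial.map_one]
  have hFx : ∀ a : X × Fin n, (Matrix.of fun i j => F (MvPolynomial.X (some a.1, i, j))) =
      φ (x a) := fun a => by
    ext i j : 2
    rw [Matrix.of_apply, hF]
    simp only [reduceCtorEq, if_false, one_mul]
    rfl
  have hFy : (Matrix.of fun i j => F (MvPolynomial.X (none, i, j))) =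
      (Polynomial.X : Polynomial R) • φ y := by
    ext i j : 2
    rw [Matrix.of_apply, hF]
    simp only [if_true]
    rfl
  have hsc : ∀ b : R, φ (Matrix.scalar (Fin k) b) = Matrix.scalar (Fin k) (Polynomial.C b) :=
    fun b => by
    ext i j : 2
    by_cases hij : i = j
    · subst hij
      simp [φ, Matrix.scalar_apply]
    · simp [φ, Matrix.scalar_apply, Matrix.diagonal_apply_ne _ hij]
  have h1 := eval_theta (X := X) k n F (rowScale (Polynomial.C t) (B.map Polynomial.C))
  have h2 := det_bigN (X := X) (k := k) (n := n) (Polynomial.C t) (hn.map Polynomial.C)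
    (fun s => Matrix.of fun i j => F (MvPolynomial.X (s, i, j))) (B.map Polynomial.C)
  rw [h1] at h2
  have hB : (B.map Polynomial.C).map (Matrix.scalar (Fin k)) =
      (B.map (Matrix.scalar (Fin k))).map φ := by
    ext a b : 2
    rw [Matrix.map_apply, Matrix.map_apply, Matrix.map_apply, Matrix.map_apply, hsc]
  have hT : ∀ z, Matrix.scalar (Fin k) t * z = z * Matrix.scalar (Fin k) t := fun z =>
    (Matrix.scalar_commute t (fun r => mul_comm _ _) z).eq
  have hTn : IsNilpotent (Matrix.scalar (Fin k) t) := hn.map (Matrix.scalar (Fin k))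
  have hq : qq (Matrix.scalar (Fin k) (Polynomial.C t)) (fun a : X × Fin n => φ (x a))
      ((B.map Polynomial.C).map (Matrix.scalar (Fin k))) =
      φ (qq (Matrix.scalar (Fin k) t) x (B.map (Matrix.scalar (Fin k)))) := by
    rw [map_qq φ _ hT hTn, hB, hsc]
  have hd : (1 + Polynomial.C t • Matrix.comp _ _ (Fin k) (Fin k) _
        (BX (fun a : X × Fin n => φ (x a))
          ((B.map Polynomial.C).map (Matrix.scalar (Fin k))))).det =
      Polynomial.C (1 + t • Matrix.comp _ _ (Fin k) (Fin k) R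
        (BX x (B.map (Matrix.scalar (Fin k))))).det := by
    rw [RingHom.map_det, hB, ← C6_BX]
    congr 1
    ext ⟨a, i⟩ ⟨b, j⟩ : 2
    simp only [Matrix.add_apply, Matrix.smul_apply, RingHom.mapMatrix_apply, Matrix.map_apply,
      map_add, smul_eq_mul, map_mul, Matrix.comp_apply]
    congr 1
    by_cases h : (a, i) = (b, j)
    · rw [h, Matrix.one_apply_eq, Matrix.one_apply_eq, map_one]
      rfl
    · rw [Matrix.one_apply_ne h, Matrix.one_apply_ne h, map_zero]
      rfl
  simp only [hFx, hFy] at h2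
  rw [hd, hq, mul_smul_comm, ← map_mul] at h2
  have h3 := congrArg (fun P => Polynomial.coeff P 1) h2
  simp only [Polynomial.coeff_C_mul] at h3
  have h4 : (1 + (Polynomial.X : Polynomial R) •
      φ (qq (Matrix.scalar (Fin k) t) x (B.map (Matrix.scalar (Fin k))) * y)).det.coeff 1 =
      (qq (Matrix.scalar (Fin k) t) x (B.map (Matrix.scalar (Fin k))) * y).trace :=
    Matrix.coeff_det_one_add_X_smul_one _
  rw [h4] at h3
  rw [← h3, Polynomial.finsetSum_coeff, Finset.sum_filter]
  refine Finset.sum_congr rfl fun ζ _ => ?_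
  rw [F6b_rowScale_map, F6b_evMon_map]
  have h5 : F (thetaXi X k n ζ) =
      Polynomial.X ^ (∑ a, ζ (a, none)) * Polynomial.C (f (thetaXi X k n ζ)) := by
    simp only [F, RingHom.comp_apply, ySub_thetaXi, map_mul, map_pow, Polynomial.coe_mapRingHom,
      Polynomial.map_X, Polynomial.map_C]
  rw [h5, mul_assoc, ← Polynomial.C_mul, Polynomial.coeff_X_pow_mul']
  by_cases hc : (∑ a, ζ (a, none)) = 1
  · rw [hc, if_pos le_rfl, if_pos rfl, Nat.sub_self, Polynomial.coeff_C_zero]
  · rw [if_neg hc]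
    split_ifs with hle
    · rw [Polynomial.coeff_C, if_neg (by omega)]
    · rfl

/-- `κ` after base change -/
theorem F6b_kap (T : Type) [CommRing T] (p q : Fin k ↪ ι) (z : ι)
    (w : T ⊗[ℤ] Module.End (CG X k) ((ι → Fin k) → CG X k)) :
    (kap X p q z).toIntLinearMap.lTensor T w = ∑ i, ∑ j,
      ((1 : T) ⊗ₜ[ℤ] (MvPolynomial.X (none, j, i) : CO X k)) * D8_lmap T
        (MvPolynomial.rename (fun v : X × Fin k × Fin k => (some v.1, v.2.1, v.2.2)) :
          CG X k →ₐ[ℤ] CO X k).toRingHom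
        (coefMat p q z (tensEnd T (CG X k) (ι → Fin k) w) i j) := by
  simp only [coefMat_tensEnd]
  induction w using TensorProduct.induction_on with
  | zero => simp only [map_zero, mul_zero, Finset.sum_const_zero]
  | add u v hu hv => simp only [map_add, mul_add, Finset.sum_add_distrib, hu, hv]
  | tmul u e =>
    rw [LinearMap.lTensor_tmul]
    have h1 : (kap X p q z).toIntLinearMap e = ∑ i, ∑ j, MvPolynomial.X (none, j, i) *
      MvPolynomial.rename (fun v : X × Fin k × Fin k => (some v.1, v.2.1, v.2.2))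
        (coefMat p q z e i j) := rfl
    rw [h1, TensorProduct.tmul_sum]
    refine Finset.sum_congr rfl fun i _ => ?_
    rw [TensorProduct.tmul_sum]
    refine Finset.sum_congr rfl fun j _ => ?_
    rw [LinearMap.lTensor_tmul, D8_lmap_tmul, Algebra.TensorProduct.tmul_mul_tmul, one_mul]
    rfl

theorem F6b_tensMat_scalar (T C : Type) [CommRing T] [CommRing C] (b : T) :
    tensMat T C (Fin k) (b ⊗ₜ[ℤ] 1) = Matrix.scalar (Fin k) (b ⊗ₜ[ℤ] (1 : C)) := by
  ext i j
  rw [tensMat_tmul]
  by_cases hij : i = j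
  · subst hij
    simp [Matrix.scalar_apply]
  · simp [Matrix.scalar_apply, Matrix.diagonal_apply_ne _ hij, Matrix.one_apply_ne hij]

/-- the value of `κ` at `P(B)` -/
theorem F6b_PP {n : ℕ} (T : Type) [CommRing T] (p q : Fin k ↪ ι) (z : ι) (hF : Frame p q z)
    (t : T) (hn : IsNilpotent t) (B : Matrix (Option (X × Fin n)) (Option (X × Fin n)) T) :
    (kap X p q z).toIntLinearMap.lTensor T (((matStr k (CG X k) ι).base T).PP p q z (t ⊗ₜ 1)
      (fun a : X × Fin n => 1 ⊗ₜ gen X k a.1) (B.map fun b => b ⊗ₜ 1)) =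
      ∑ ζ ∈ (theta X k n).support.filter (fun ζ => (∑ a, ζ (a, none)) = 1),
        (t ^ F6b_r ζ * evMon B ζ) ⊗ₜ[ℤ] thetaXi X k n ζ := by
  let g : T ⊗[ℤ] CG X k →+* T ⊗[ℤ] CO X k := D8_lmap T
    (MvPolynomial.rename (fun v : X × Fin k × Fin k => (some v.1, v.2.1, v.2.2)) :
          CG X k →ₐ[ℤ] CO X k).toRingHom
  let inl : T →+* T ⊗[ℤ] CG X k := Algebra.TensorProduct.includeLeftRingHom
  let inl' : T →+* T ⊗[ℤ] CO X k := Algebra.TensorProduct.includeLeftRingHom
  let inr : CO X k →+* T ⊗[ℤ] CO X k :=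
    (Algebra.TensorProduct.includeRight : CO X k →ₐ[ℤ] T ⊗[ℤ] CO X k).toRingHom
  have e1 := map_PP ((matStr k (CG X k) ι).base T) (matStr k (T ⊗[ℤ] CG X k) ι)
    (tensMat T (CG X k) (Fin k)) (tensEnd T (CG X k) (ι → Fin k))
    (fun i a => tensEnd_rho T (CG X k) i a) (fun σ => tensEnd_s T (CG X k) σ) p q z
    (t ⊗ₜ[ℤ] 1) (fun y => tmul_one_comm T t y) (isNilpotent_tmul_one T t hn)
    (fun a : X × Fin n => 1 ⊗ₜ gen X k a.1) (B.map fun b => b ⊗ₜ 1)
  have hx : (fun a : X × Fin n => tensMat T (CG X k) (Fin k) (1 ⊗ₜ gen X k a.1)) =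
      fun a => Matrix.of fun i j => (1 : T) ⊗ₜ[ℤ] (MvPolynomial.X (a.1, i, j) : CG X k) := by
    funext a
    ext i j
    rw [tensMat_tmul]
    rfl
  have hB : (B.map fun b => b ⊗ₜ[ℤ] (1 : Matrix (Fin k) (Fin k) (CG X k))).map
      (tensMat T (CG X k) (Fin k)) = (B.map inl).map (Matrix.scalar (Fin k)) := by
    ext a b : 2
    rw [Matrix.map_apply, Matrix.map_apply, Matrix.map_apply, Matrix.map_apply,
      F6b_tensMat_scalar]
    rfl
  rw [F6b_tensMat_scalar, hx, hB] at e1
  have hn' : IsNilpotent (t ⊗ₜ[ℤ] (1 : CG X k)) := isNilpotent_tmul_one T t hn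
  have e2 := coefMat_PP p q z hF (t ⊗ₜ[ℤ] (1 : CG X k)) hn'
    (fun a : X × Fin n => Matrix.of fun i j => (1 : T) ⊗ₜ[ℤ] (MvPolynomial.X (a.1, i, j) : CG X k))
    ((B.map inl).map (Matrix.scalar (Fin k)))
  rw [F6b_kap, e1, e2]
  have e3 := F6b_lin (X := X) (k := k) (n := n) (inl' t) (hn.map inl') inr (B.map inl')
  obtain ⟨x0, hx0⟩ : ∃ x0 : X × Fin n → Matrix (Fin k) (Fin k) (T ⊗[ℤ] CG X k), x0 = fun a =>
    Matrix.of fun i j => (1 : T) ⊗ₜ[ℤ] (MvPolynomial.X (a.1, i, j) : CG X k) := ⟨_, rfl⟩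
  rw [← hx0]
  let φ : Matrix (Fin k) (Fin k) (T ⊗[ℤ] CG X k) →+* Matrix (Fin k) (Fin k) (T ⊗[ℤ] CO X k) :=
    g.mapMatrix
  have hg1 : ∀ b : T, g (inl b) = inl' b := fun b => by
    change D8_lmap T _ (b ⊗ₜ[ℤ] (1 : CG X k)) = b ⊗ₜ[ℤ] (1 : CO X k)
    rw [D8_lmap_tmul, map_one]
  have hφs : ∀ r, φ (Matrix.scalar (Fin k) r) = Matrix.scalar (Fin k) (g r) := fun r => by
    refine Matrix.ext fun i j => ?_
    by_cases hij : i = j
    · subst hij
      simp [φ, Matrix.scalar_apply]
    · simp [φ, Matrix.scalar_apply, Matrix.diagonal_apply_ne _ hij]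
  have hφx : ∀ a : X × Fin n, φ (x0 a) =
      Matrix.of fun i j => inr (MvPolynomial.X (some a.1, i, j)) := fun a => by
    refine Matrix.ext fun i j => ?_
    rw [hx0]
    change D8_lmap T _ ((1 : T) ⊗ₜ[ℤ] (MvPolynomial.X (a.1, i, j) : CG X k)) =
      (1 : T) ⊗ₜ[ℤ] (MvPolynomial.X (some a.1, i, j) : CO X k)
    rw [D8_lmap_tmul]
    congr 1
    exact MvPolynomial.rename_X _ _
  have hBm : ((B.map inl).map (Matrix.scalar (Fin k))).map φ =
      (B.map inl').map (Matrix.scalar (Fin k)) := by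
    ext a b : 2
    rw [Matrix.map_apply, Matrix.map_apply, Matrix.map_apply, Matrix.map_apply, Matrix.map_apply,
      hφs, hg1]
  have hTc : ∀ y, Matrix.scalar (Fin k) (inl t) * y = y * Matrix.scalar (Fin k) (inl t) := fun y =>
    (Matrix.scalar_commute (inl t) (fun r => mul_comm _ _) y).eq
  have hTn : IsNilpotent (Matrix.scalar (Fin k) (inl t)) := (hn.map inl).map (Matrix.scalar (Fin k))
  have hQ : φ (qq (Matrix.scalar (Fin k) (inl t)) x0 ((B.map inl).map (Matrix.scalar (Fin k)))) =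
      qq (Matrix.scalar (Fin k) (inl' t))
        (fun a => Matrix.of fun i j => inr (MvPolynomial.X (some a.1, i, j)))
        ((B.map inl').map (Matrix.scalar (Fin k))) := by
    rw [map_qq φ _ hTc hTn, hBm, hφs, hg1]
    simp only [hφx]
  have hd : g (1 + inl t • Matrix.comp _ _ (Fin k) (Fin k) _
        (BX x0 ((B.map inl).map (Matrix.scalar (Fin k))))).det =
      (1 + inl' t • Matrix.comp _ _ (Fin k) (Fin k) _
        (BX (fun a => Matrix.of fun i j => inr (MvPolynomial.X (some a.1, i, j)))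
          ((B.map inl').map (Matrix.scalar (Fin k))))).det := by
    rw [RingHom.map_det, ← hBm]
    simp only [← hφx]
    rw [← C6_BX]
    congr 1
    refine Matrix.ext fun u v => ?_
    obtain ⟨a, i⟩ := u
    obtain ⟨b, j⟩ := v
    simp only [Matrix.add_apply, Matrix.smul_apply, RingHom.mapMatrix_apply, Matrix.map_apply,
      map_add, smul_eq_mul, map_mul, Matrix.comp_apply, hg1]
    congr 1
    by_cases h : (a, i) = (b, j)
    · rw [h, Matrix.one_apply_eq, Matrix.one_apply_eq, map_one]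
    · rw [Matrix.one_apply_ne h, Matrix.one_apply_ne h, map_zero]
  rw [← hd, ← hQ] at e3
  have e4 : ∀ ζ : Mon X n, inr (thetaXi X k n ζ) * evMon (rowScale (inl' t) (B.map inl')) ζ =
      (t ^ F6b_r ζ * evMon B ζ) ⊗ₜ[ℤ] thetaXi X k n ζ := fun ζ => by
    rw [F6b_evMon_rowScale, F6b_evMon_map, ← map_pow, ← map_mul]
    change ((1 : T) ⊗ₜ[ℤ] thetaXi X k n ζ) * ((t ^ F6b_r ζ * evMon B ζ) ⊗ₜ[ℤ] (1 : CO X k)) = _
    rw [Algebra.TensorProduct.tmul_mul_tmul, one_mul, mul_one]
  simp only [e4] at e3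
  rw [← e3]
  simp only [Matrix.smul_apply, smul_eq_mul, map_mul]
  unfold Matrix.trace
  rw [Finset.mul_sum]
  refine Finset.sum_congr rfl fun i _ => ?_
  rw [Matrix.diag_apply, Matrix.mul_apply, Finset.mul_sum]
  refine Finset.sum_congr rfl fun j _ => ?_
  rw [Matrix.of_apply]
  have key : ∀ a d q' : T ⊗[ℤ] CO X k, a * (d * q') = d * (q' * a) := fun a d q' => by ring
  exact key _ _ _

omit [Fintype X] [DecidableEq X] in
open Classical in
theorem F6b_coeffsW_tmul {n : ℕ} {W : Type} [AddCommGroup W] (a : TU X n) (w : W) (ξ : Mon X n) :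
    coeffsW X n W (a ⊗ₜ w) ξ = MvPolynomial.coeff ξ a • w := by
  have h := TensorProduct.equivFinsuppOfBasisLeft_apply_tmul_apply (N := W)
    (MvPolynomial.basisMonomials (Option (X × Fin n) × Option (X × Fin n)) ℤ) a w ξ
  exact h

theorem F6b_coeffsW {n : ℕ} {W W' : Type} [AddCommGroup W] [AddCommGroup W'] (f : W →+ W')
    (y : TU X n ⊗[ℤ] W) (ξ : Mon X n) :
    coeffsW X n W' (f.toIntLinearMap.lTensor (TU X n) y) ξ = f (coeffsW X n W y ξ) := by
  induction y using TensorProduct.induction_on with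
  | zero => simp only [map_zero, Finsupp.coe_zero, Pi.zero_apply]
  | add u v hu hv => simp only [map_add, Finsupp.coe_add, Pi.add_apply, hu, hv]
  | tmul u w =>
    rw [LinearMap.lTensor_tmul, F6b_coeffsW_tmul, F6b_coeffsW_tmul, map_zsmul]
    rfl

theorem F6b_tcoef {T : Type} [CommRing T] (n r : ℕ) (m : T) :
    tcoef T n (tt T n ^ r * inT T n m) = if r = n then m else 0 := by
  have h : tt T n ^ r * inT T n m =
      Ideal.Quotient.mk _ ((Polynomial.X : Polynomial T) ^ r * Polynomial.C m) := by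
    rw [map_mul, map_pow]
    rfl
  rw [h, tcoef_mk, Polynomial.coeff_X_pow_mul']
  by_cases hr : r = n
  · rw [hr, if_pos le_rfl, if_pos rfl, Nat.sub_self, Polynomial.coeff_C_zero]
  · rw [if_neg hr]
    split_ifs with hle
    · rw [Polynomial.coeff_C, if_neg (by omega)]
    · rfl

/-- IDENTIFICATION.  `κ(P_ξ) = Θ_ξ` for good `ξ`.
PROOF.  `T = TU X n`, `B = BU X n`, `T' = Trunc T n`, `R = T' ⊗ CO X k`.  By `coefMat_PP`, `tensEnd_*`, `map_PP`:
`(id ⊗ κ)(PP) = det(1 + tN) tr(q y)` in `R`.  By `det_bigN`: `det(1 + bigN (rowScale t B)) = det(1 + tN) det(1 + q y)`;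
the `λ`-linear part after `y ↦ λ y` is `det(1 + tN) tr(q y)` (`Matrix.coeff_det_one_add_X_smul_one`).
By `eval_theta` the left side is `Σ_ξ t^{#rows ≠ none} B^ξ ⊗ Θ_ξ`, and by `ySub_thetaXi` its `λ`-linear part is the sum
over the `ξ` of degree one in the column `none`.  Compare the coefficients of `t^n B^ξ`. -/
theorem kap_Pxi (p q : Fin k ↪ ι) (z : ι) (hF : Frame p q z) (n : ℕ) (ξ : Mon X n)
    (hξ : GoodMon ξ) :
    kap X p q z (Pxi (matStr k (CG X k) ι) p q z (gen X k) n ξ) = thetaXi X k n ξ := by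
  classical
  unfold Pxi
  rw [← F6b_coeffsW]
  unfold PB
  rw [← LinearMap.comp_apply, LinearMap.lTensor_comp_rTensor, ← LinearMap.rTensor_comp_lTensor,
    LinearMap.comp_apply]
  have hB : ((BU X n).map fun b => inT (TU X n) n b ⊗ₜ[ℤ] (1 : Matrix (Fin k) (Fin k) (CG X k))) =
      ((BU X n).map (inT (TU X n) n)).map fun b => b ⊗ₜ 1 := rfl
  rw [hB, F6b_PP (Trunc (TU X n) n) p q z hF (tt (TU X n) n) (isNilpotent_tt _ n)
    ((BU X n).map (inT (TU X n) n)), map_sum, map_sum, Finsupp.finsetSum_apply]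
  have hc : (∑ a, ξ (a, none)) = 1 := hξ.2.2
  have hr : F6b_r ξ = n := by
    have h1 : (ξ.sum fun _ e => e) = n + 1 := hξ.1
    have h2 : (∑ b, ξ (none, b)) = 1 := hξ.2.1
    rw [Finsupp.sum_fintype _ _ (fun _ => rfl), Fintype.sum_prod_type,
      Fintype.sum_option (fun a => ∑ b, ξ (a, b)), h2] at h1
    unfold F6b_r
    omega
  have hterm : ∀ ζ : Mon X n, coeffsW X n (CO X k)
      ((tcoef (TU X n) n).toIntLinearMap.rTensor (CO X k)
        ((tt (TU X n) n ^ F6b_r ζ * evMon ((BU X n).map (inT (TU X n) n)) ζ) ⊗ₜ[ℤ]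
          thetaXi X k n ζ)) ξ = if ζ = ξ then thetaXi X k n ξ else 0 := fun ζ => by
    rw [LinearMap.rTensor_tmul, F6b_evMon_map, F6b_coeffsW_tmul]
    have h1 : (tcoef (TU X n) n).toIntLinearMap
        (tt (TU X n) n ^ F6b_r ζ * inT (TU X n) n (evMon (BU X n) ζ)) =
        if F6b_r ζ = n then evMon (BU X n) ζ else 0 := F6b_tcoef n _ _
    have h2 : evMon (BU X n) ζ = MvPolynomial.monomial ζ 1 := by
      rw [MvPolynomial.monomial_eq, MvPolynomial.C_1, one_mul]
      rfl
    rw [h1, h2]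
    by_cases h : ζ = ξ
    · subst h
      rw [if_pos hr, if_pos rfl, MvPolynomial.coeff_monomial, if_pos rfl, one_smul]
    · rw [if_neg h]
      split_ifs
      · rw [MvPolynomial.coeff_monomial, if_neg h, zero_smul]
      · rw [MvPolynomial.coeff_zero, zero_smul]
  simp only [hterm]
  rw [Finset.sum_ite_eq' _ ξ (fun _ => thetaXi X k n ξ)]
  split_ifs with hmem
  · rfl
  · symm
    by_contra hne
    apply hmem
    rw [Finset.mem_filter, MvPolynomial.mem_support_iff]
    exact ⟨hne, hc⟩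

end Pool.PI34.BA
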