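import Pool.Agent.LibPI34.BA_Defs

/-! PI34, block BA, file G0: string systems from letters; statement of BA. -/

set_option autoImplicit false

namespace Pool.PI34.BA

open Equiv Finset

variable {ι E : Type*} [Fintype ι] [DecidableEq ι] [Ring E]

/-- a string system over the free algebra from the operators `x j a` of the letters `a` on the strands `j` -/
noncomputable def Str.ofLetters {X : Type*} (x : ι → X → E) (s : Perm ι →* E)
    (hx : ∀ i j, i ≠ j → ∀ a b, x i a * x j b = x j b * x i a)
    (hs : ∀ σ i a, s σ * x i a = x (σ i) a * s σ) : Str ι (FreeAlgebra ℤ X) E where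
  ρ i := (FreeAlgebra.lift ℤ (x i) : FreeAlgebra ℤ X →ₐ[ℤ] E)
  s := s
  comm i j hij a b := by
    induction a using FreeAlgebra.induction with
    | grade0 r => simp [Int.cast_comm]
    | grade1 y =>
      induction b using FreeAlgebra.induction with
      | grade0 r => simp [Int.cast_comm]
      | grade1 w => simpa using hx i j hij y w
      | mul u v hu hv =>
        simp only [map_mul, RingHom.coe_coe, FreeAlgebra.lift_ι_apply] at hu hv ⊢
        rw [← mul_assoc, hu, mul_assoc, hv, mul_assoc]
      | add u v hu hv =>
        simp only [map_add, RingHom.coe_coe, FreeAlgebra.lift_ι_apply] at hu hv ⊢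
        rw [mul_add, add_mul, hu, hv]
    | mul u v hu hv =>
      simp only [map_mul, RingHom.coe_coe] at hu hv ⊢
      rw [mul_assoc, hv, ← mul_assoc, hu, mul_assoc]
    | add u v hu hv =>
      simp only [map_add, RingHom.coe_coe] at hu hv ⊢
      rw [mul_add, add_mul, hu, hv]
  conj σ i a := by
    induction a using FreeAlgebra.induction with
    | grade0 r => simp [Int.cast_comm]
    | grade1 y => simpa using hs σ i y
    | mul u v hu hv =>
      simp only [map_mul, RingHom.coe_coe] at hu hv ⊢
      rw [← mul_assoc, hu, mul_assoc, hv, mul_assoc]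
    | add u v hu hv =>
      simp only [map_add, RingHom.coe_coe] at hu hv ⊢
      rw [mul_add, add_mul, hu, hv]

@[simp] theorem ofLetters_rho_ι {X : Type*} (x : ι → X → E) (s : Perm ι →* E)
    (hx : ∀ i j, i ≠ j → ∀ a b, x i a * x j b = x j b * x i a)
    (hs : ∀ σ i a, s σ * x i a = x (σ i) a * s σ) (i : ι) (a : X) :
    (Str.ofLetters x s hx hs).ρ i (FreeAlgebra.ι ℤ a) = x i a := by
  simp [Str.ofLetters]

@[simp] theorem ofLetters_s {X : Type*} (x : ι → X → E) (s : Perm ι →* E)
    (hx : ∀ i j, i ≠ j → ∀ a b, x i a * x j b = x j b * x i a)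
    (hs : ∀ σ i a, s σ * x i a = x (σ i) a * s σ) : (Str.ofLetters x s hx hs).s = s := rfl

end Pool.PI34.BA
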