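import Pool.Agent.LibPI34.BA_G0
import Pool.Agent.LibPI34.BA_G1

/-! PI34, block BA, file G2: from words to the free algebra. -/

set_option autoImplicit false

namespace Pool.PI34.BA

open Equiv Finset Matrix

/-- the words of length less than `N` with letters in `Y` -/
def G2_W {X : Type} (Y : Finset X) (N : ℕ) : Set (FreeAlgebra ℤ X) :=
  {a | ∃ l : List X, l.length < N ∧ (∀ x ∈ l, x ∈ Y) ∧ a = (l.map (FreeAlgebra.ι ℤ)).prod}

theorem G2_W_mono {X : Type} {Y Y' : Finset X} {N N' : ℕ} (hY : Y ⊆ Y') (hN : N ≤ N') :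
    G2_W Y N ⊆ G2_W Y' N' := by
  rintro a ⟨l, h1, h2, rfl⟩
  exact ⟨l, by omega, fun x hx => hY (h2 x hx), rfl⟩

theorem G2_mul {A : Type} [Ring A] {S T U : Set A} (h : ∀ s ∈ S, ∀ t ∈ T, s * t ∈ U) {a b : A}
    (ha : a ∈ AddSubgroup.closure S) (hb : b ∈ AddSubgroup.closure T) :
    a * b ∈ AddSubgroup.closure U := by
  induction ha using AddSubgroup.closure_induction with
  | mem a ha =>
    induction hb using AddSubgroup.closure_induction with
    | mem b hb => exact AddSubgroup.subset_closure (h a ha b hb)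
    | zero => rw [mul_zero]; exact zero_mem _
    | add x y _ _ hx hy => rw [mul_add]; exact add_mem hx hy
    | neg x _ hx => rw [mul_neg]; exact neg_mem hx
  | zero => rw [zero_mul]; exact zero_mem _
  | add x y _ _ hx hy => rw [add_mul]; exact add_mem hx hy
  | neg x _ hx => rw [neg_mul]; exact neg_mem hx

theorem G2_mem {X : Type} (g : FreeAlgebra ℤ X) :
    ∃ (Y : Finset X) (N : ℕ), g ∈ AddSubgroup.closure (G2_W Y N) := by
  classical
  induction g using FreeAlgebra.induction with
  | grade0 r =>
    refine ⟨∅, 1, ?_⟩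
    rw [eq_intCast (algebraMap ℤ (FreeAlgebra ℤ X)) r, ← zsmul_one]
    have h1 : (1 : FreeAlgebra ℤ X) ∈ G2_W (∅ : Finset X) 1 := ⟨[], by simp, by simp, by simp⟩
    exact zsmul_mem (AddSubgroup.subset_closure h1) r
  | grade1 x =>
    exact ⟨{x}, 2, AddSubgroup.subset_closure ⟨[x], by simp, by simp, by simp⟩⟩
  | mul a b ha hb =>
    obtain ⟨Y, N, ha⟩ := ha
    obtain ⟨Y', N', hb⟩ := hb
    refine ⟨Y ∪ Y', N + N', G2_mul ?_ ha hb⟩
    rintro _ ⟨l, h1, h2, rfl⟩ _ ⟨l', h1', h2', rfl⟩
    refine ⟨l ++ l', by rw [List.length_append]; omega, ?_, ?_⟩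
    · intro x hx
      rcases List.mem_append.1 hx with hx | hx
      · exact Finset.mem_union_left _ (h2 x hx)
      · exact Finset.mem_union_right _ (h2' x hx)
    · rw [List.map_append, List.prod_append]
  | add a b ha hb =>
    obtain ⟨Y, N, ha⟩ := ha
    obtain ⟨Y', N', hb⟩ := hb
    refine ⟨Y ∪ Y', max N N', add_mem ?_ ?_⟩
    · exact AddSubgroup.closure_mono
        (G2_W_mono Finset.subset_union_left (le_max_left _ _)) ha
    · exact AddSubgroup.closure_mono
        (G2_W_mono Finset.subset_union_right (le_max_right _ _)) hb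

/-- every element of the free algebra is a finite combination of words in finitely many letters:
`Y` a finite set of letters, `c n w` the coefficient of the word `w` of length `n < N`. -/
theorem exists_words {X : Type} (g : FreeAlgebra ℤ X) :
    ∃ (Y : Finset X) (N : ℕ) (c : (n : ℕ) → (Fin n → Y) → ℤ),
      g = ∑ n ∈ range N, ∑ w : Fin n → Y,
        c n w • (List.ofFn fun i => FreeAlgebra.ι ℤ (w i : X)).prod := by
  classical
  obtain ⟨Y, N, hg⟩ := G2_mem g
  refine ⟨Y, N, ?_⟩
  induction hg using AddSubgroup.closure_induction with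
  | mem a ha =>
    obtain ⟨l, h1, h2, rfl⟩ := ha
    refine ⟨fun n w => if List.ofFn (fun i => (w i : X)) = l then 1 else 0, ?_⟩
    rw [Finset.sum_eq_single l.length]
    · rw [Finset.sum_eq_single (fun i => (⟨l.get i, h2 _ (l.get_mem i)⟩ : Y))]
      · have h3 : List.ofFn (fun i => l.get i) = l := List.ofFn_get l
        simp only [h3, if_true, one_smul]
        rw [show (fun i => FreeAlgebra.ι ℤ (l.get i)) = (FreeAlgebra.ι ℤ) ∘ l.get from rfl,
          ← List.map_ofFn, h3]
      · intro w _ hw
        dsimp only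
        rw [if_neg, zero_smul]
        intro h
        apply hw
        have h4 : List.ofFn (fun i => (w i : X)) = List.ofFn (fun i => l.get i) :=
          h.trans (List.ofFn_get l).symm
        have h5 := List.ofFn_injective h4
        funext i
        exact Subtype.ext (congrFun h5 i)
      · intro h
        exact absurd (Finset.mem_univ _) h
    · intro n _ hn
      refine Finset.sum_eq_zero fun w _ => ?_
      dsimp only
      rw [if_neg, zero_smul]
      intro h
      apply hn
      rw [← h, List.length_ofFn]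
    · intro h
      exact absurd (Finset.mem_range.2 h1) h
  | zero => exact ⟨fun _ _ => 0, by simp⟩
  | add a b _ _ ha hb =>
    obtain ⟨c, hc⟩ := ha
    obtain ⟨d, hd⟩ := hb
    refine ⟨fun n w => c n w + d n w, ?_⟩
    rw [hc, hd]
    simp only [add_smul, Finset.sum_add_distrib]
  | neg a _ ha =>
    obtain ⟨c, hc⟩ := ha
    refine ⟨fun n w => - c n w, ?_⟩
    rw [hc]
    simp only [neg_smul, Finset.sum_neg_distrib]

theorem G2_prod {k : ℕ} {R : Type} [CommRing R] (l : List (Matrix (Fin k) (Fin k) R)) :
    (l.map fun A => (Polynomial.X : Polynomial R) • (Polynomial.C : R →+* _).mapMatrix A).prod =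
      (Polynomial.X : Polynomial R) ^ l.length • (Polynomial.C : R →+* _).mapMatrix l.prod := by
  induction l with
  | nil => simp
  | cons A l ih =>
    rw [List.map_cons, List.prod_cons, ih, List.prod_cons, map_mul, List.length_cons,
      smul_mul_smul_comm, ← pow_succ']

/-- the homogeneous components of an identity of the matrices vanish on the generic matrices
(substitute `λ · gen`, `λ` a new polynomial variable, and compare coefficients of `λ^n`). -/
theorem homogeneous_of_identity {X : Type} [DecidableEq X] (k : ℕ) (g : FreeAlgebra ℤ X)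
    (hg : ∀ (C : Type) [CommRing C] (m : X → Matrix (Fin k) (Fin k) C),
      FreeAlgebra.lift ℤ m g = 0)
    (Y : Finset X) (N : ℕ) (c : (n : ℕ) → (Fin n → Y) → ℤ)
    (h : g = ∑ n ∈ range N, ∑ w : Fin n → Y,
        c n w • (List.ofFn fun i => FreeAlgebra.ι ℤ (w i : X)).prod)
    (n : ℕ) (hn : n < N) :
    ∑ w, c n w • (List.ofFn fun i => gen Y k (w i)).prod = 0 := by
  classical
  let R := CG Y k
  let φ : Matrix (Fin k) (Fin k) R →+* Matrix (Fin k) (Fin k) (Polynomial R) :=
    (Polynomial.C : R →+* _).mapMatrix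
  let m : X → Matrix (Fin k) (Fin k) (Polynomial R) := fun a =>
    if ha : a ∈ Y then (Polynomial.X : Polynomial R) • φ (gen Y k ⟨a, ha⟩) else 0
  have hm : ∀ y : Y, m (y : X) = (Polynomial.X : Polynomial R) • φ (gen Y k y) := fun y => by
    simp only [m, y.2, dif_pos]
  have h0 := hg (Polynomial R) m
  let A : ℕ → Matrix (Fin k) (Fin k) R := fun n =>
    ∑ w, c n w • (List.ofFn fun i => gen Y k (w i)).prod
  have h1 : ∑ n ∈ range N, (Polynomial.X : Polynomial R) ^ n • φ (A n) = 0 := by
    rw [← h0, h, map_sum]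
    refine Finset.sum_congr rfl fun n _ => ?_
    rw [map_sum, map_sum, Finset.smul_sum]
    refine Finset.sum_congr rfl fun w _ => ?_
    rw [map_zsmul, map_zsmul, smul_comm]
    congr 1
    have h2 : (List.ofFn (⇑(FreeAlgebra.lift ℤ m) ∘ fun i => FreeAlgebra.ι ℤ (w i : X))) =
        (List.ofFn fun i => gen Y k (w i)).map
          (fun A => (Polynomial.X : Polynomial R) • (Polynomial.C : R →+* _).mapMatrix A) := by
      rw [List.map_ofFn]
      congr 1
      funext i
      simp only [Function.comp_apply, FreeAlgebra.lift_ι_apply]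
      exact hm _
    have h3 : (FreeAlgebra.lift ℤ m) (List.ofFn fun i => FreeAlgebra.ι ℤ (w i : X)).prod =
        ((List.ofFn fun i => FreeAlgebra.ι ℤ (w i : X)).map (FreeAlgebra.lift ℤ m)).prod :=
      map_list_prod (FreeAlgebra.lift ℤ m) _
    refine Eq.trans ?_ h3.symm
    rw [List.map_ofFn, h2, G2_prod, List.length_ofFn]
  refine Matrix.ext fun i j => ?_
  have h2 := congrArg (fun M => (M i j).coeff n) h1
  simp only [Matrix.sum_apply, Matrix.smul_apply, Matrix.zero_apply, Polynomial.coeff_zero,
    Polynomial.finsetSum_coeff, smul_eq_mul] at h2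
  rw [Finset.sum_eq_single n] at h2
  · rw [Polynomial.coeff_X_pow_mul'] at h2
    simp only [le_refl, if_true, Nat.sub_self] at h2
    have h3 : (φ (A n) i j).coeff 0 = A n i j := by
      change (Polynomial.C (A n i j)).coeff 0 = _
      rw [Polynomial.coeff_C_zero]
    rw [h3] at h2
    exact h2
  · intro n' _ hn'
    rw [Polynomial.coeff_X_pow_mul']
    split_ifs with hle
    · change (Polynomial.C (A n' i j)).coeff (n - n') = 0
      rw [Polynomial.coeff_C, if_neg (by omega)]
    · rfl
  · intro hnot
    exact absurd (Finset.mem_range.2 hn) hnot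

theorem G2_zero {ι E : Type} [Fintype ι] [DecidableEq ι] [Ring E] (s : Perm ι →* E)
    (hA : Anti s 0) (z : ι) : (1 : E) = 0 := by
  have h := hA {z} (by simp)
  have h1 : permsOn ({z} : Finset ι) = {1} := by
    ext σ
    simp only [permsOn, Finset.mem_filter, Finset.mem_univ, true_and, Finset.mem_singleton]
    constructor
    · intro hσ
      have hne : ∀ x, x ≠ z → σ x = x := hσ
      ext x
      by_cases hx : x = z
      · subst hx
        by_contra hc
        have h2 : σ (σ x) = σ x := hne (σ x) hc
        exact hc (σ.injective h2)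
      · exact hne x hx
    · rintro rfl x _
      rfl
  rw [anti, h1, Finset.sum_singleton] at h
  simpa using h

/-- BA from the rank bounds -/
theorem BA_of_rankBound {X ι E : Type} [Fintype ι] [DecidableEq ι] [Ring E]
    (S : Str ι (FreeAlgebra ℤ X) E) (k : ℕ) (hA : Anti S.s k) (p q : Fin k ↪ ι) (z : ι)
    (hF : Frame p q z)
    (hR : 1 ≤ k → ∀ (Y : Type) [Fintype Y] [DecidableEq Y] (n : ℕ), RankBound Y k n p q z)
    (g : FreeAlgebra ℤ X)
    (hg : ∀ (C : Type) [CommRing C] (m : X → Matrix (Fin k) (Fin k) C),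
      FreeAlgebra.lift ℤ m g = 0) :
    S.ρ z g * (anti S.s (univ.map p) * anti S.s (univ.map q)) = 0 := by
  classical
  rcases Nat.eq_zero_or_pos k with hk | hk
  · subst hk
    have h1 := G2_zero S.s hA z
    calc _ = (1 : E) * (S.ρ z g * (anti S.s (univ.map p) * anti S.s (univ.map q))) :=
          (one_mul _).symm
      _ = 0 := by rw [h1, zero_mul]
  obtain ⟨Y, N, c, h⟩ := exists_words g
  change S.ρ z g * S.om p q = 0
  rw [h, map_sum, Finset.sum_mul]
  refine Finset.sum_eq_zero fun n hn => ?_
  have h1 := BA_word S k n hA p q z hF (hR hk Y n) (fun y : Y => FreeAlgebra.ι ℤ (y : X)) (c n)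
    (homogeneous_of_identity k g hg Y N c h n (Finset.mem_range.1 hn))
  rw [← h1, map_sum, Finset.sum_mul]
  refine Finset.sum_congr rfl fun w _ => ?_
  rw [map_zsmul, smul_mul_assoc]

end Pool.PI34.BA
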