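import Pool.Agent.LibPI34.BA_MainProof
import Pool.Agent.LibPI34.A5_Fin

/-! PI34, block BA: THE INTERFACE. -/

set_option autoImplicit false

namespace Pool.PI34.BA

open Equiv Finset

/-- BLOCK BA (final statement; the proof is the assembly of the rows A - G). -/
theorem BA {X ι E : Type} [Fintype ι] [DecidableEq ι] [Ring E] (S : Str ι (FreeAlgebra ℤ X) E)
    (k : ℕ) (hA : Anti S.s k) (p q : Fin k ↪ ι) (z : ι) (hF : Frame p q z)
    (g : FreeAlgebra ℤ X)
    (hg : ∀ (C : Type) [CommRing C] (m : X → Matrix (Fin k) (Fin k) C),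
      FreeAlgebra.lift ℤ m g = 0) :
    S.ρ z g * (anti S.s (univ.map p) * anti S.s (univ.map q)) = 0 :=
  BA_of_GEN (fun k Y _ _ n _ => Pool.PI34.A5.GEN_all Y k n) S k hA p q z hF g hg

end Pool.PI34.BA
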