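import Pool.Agent.LibPI34.BA_G2
import Pool.Agent.LibPI34.BA_F7

/-! PI34, block BA: BA from (GEN). -/

set_option autoImplicit false

namespace Pool.PI34.BA

open Equiv Finset

/-- BA from the generation statement -/
theorem BA_of_GEN
    (hGEN : ∀ (k : ℕ) (Y : Type) [Fintype Y] [DecidableEq Y] (n : ℕ), 1 ≤ k → GEN Y k n)
    {X ι E : Type} [Fintype ι] [DecidableEq ι] [Ring E] (S : Str ι (FreeAlgebra ℤ X) E)
    (k : ℕ) (hA : Anti S.s k) (p q : Fin k ↪ ι) (z : ι) (hF : Frame p q z)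
    (g : FreeAlgebra ℤ X)
    (hg : ∀ (C : Type) [CommRing C] (m : X → Matrix (Fin k) (Fin k) C),
      FreeAlgebra.lift ℤ m g = 0) :
    S.ρ z g * (anti S.s (univ.map p) * anti S.s (univ.map q)) = 0 :=
  BA_of_rankBound S k hA p q z hF
    (fun hk Y _ _ n => rankBound_of_GEN p q z hF (hGEN k Y n hk)) g hg

end Pool.PI34.BA
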