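import Mathlib

/-!
PI34, block C0: a multilinear identity in characteristic `p` implies a Capelli identity.
Definitions used by all the files of the block.
-/

set_option autoImplicit false

namespace Pool.PI34.C0

open Equiv Finset

/-- the monomial `x_{σ 0} ⋯ x_{σ (n-1)}` -/
def mono {U : Type*} [Monoid U] {n : ℕ} (x : Fin n → U) (σ : Perm (Fin n)) : U :=
  (List.ofFn fun i => x (σ i)).prod

/-- the monomial `v_0 x_{σ 0} v_1 ⋯ x_{σ (n-1)} v_n` -/
def capMono {U : Type*} [Monoid U] {n : ℕ} (v : Fin (n + 1) → U) (x : Fin n → U)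
    (σ : Perm (Fin n)) : U :=
  v 0 * (List.ofFn fun i : Fin n => x (σ i) * v i.succ).prod

/-- `σ` has no decreasing subsequence of length `D` -/
def Good (D : ℕ) {n : ℕ} (σ : Perm (Fin n)) : Prop :=
  ¬ ∃ f : Fin D → Fin n, StrictMono f ∧ StrictAnti (fun i => σ (f i))

/-- lexicographic order of the words `σ 0, σ 1, …` -/
def LexLT {n m : ℕ} (τ σ : Fin n → Fin m) : Prop :=
  ∃ i : Fin n, (∀ j, j < i → τ j = σ j) ∧ τ i < σ i

/-- the rows-by-columns function `e_β` on words `Fin n → Fin r` (product of 0/1 determinants) -/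
def eb {n r b : ℕ} (β : Fin n ≃ Fin r × Fin b) (w : Fin n → Fin r) : ℤ :=
  ∏ c : Fin b, (Matrix.of fun i j : Fin r => if w (β.symm (i, c)) = j then (1 : ℤ) else 0).det

/-- the pure lattice spanned by the `e_β` -/
def latS (n r b : ℕ) : Submodule ℤ ((Fin n → Fin r) → ℤ) where
  carrier := {f | ∃ N : ℤ, N ≠ 0 ∧ N • f ∈ Submodule.span ℤ (Set.range (eb (n := n) (r := r) (b := b)))}
  zero_mem' := ⟨1, one_ne_zero, by simp⟩
  add_mem' := by
    rintro f g ⟨N, hN, hf⟩ ⟨M, hM, hg⟩
    refine ⟨N * M, mul_ne_zero hN hM, ?_⟩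
    have h1 : (N * M) • (f + g) = M • (N • f) + N • (M • g) := by
      rw [smul_add, mul_smul, mul_smul, smul_comm N M f]
    rw [h1]
    exact Submodule.add_mem _ (Submodule.smul_mem _ _ hf) (Submodule.smul_mem _ _ hg)
  smul_mem' := by
    rintro c f ⟨N, hN, hf⟩
    refine ⟨N, hN, ?_⟩
    rw [smul_comm]
    exact Submodule.smul_mem _ _ hf

/-- number of positions `< k` of `w` with letter `j` -/
def cnt {n r : ℕ} (w : Fin n → Fin r) (k : ℕ) (j : Fin r) : ℕ :=
  (univ.filter fun x : Fin n => x.val < k ∧ w x = j).card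

/-- every letter occurs exactly `b` times -/
def Bal {n r : ℕ} (b : ℕ) (w : Fin n → Fin r) : Prop := ∀ j, cnt w n j = b

/-- ballot words -/
def Ballot {n r : ℕ} (w : Fin n → Fin r) : Prop :=
  ∀ k : ℕ, ∀ i j : Fin r, i ≤ j → cnt w k j ≤ cnt w k i

/-- action of permutations of the positions on functions of words -/
def act {n r : ℕ} (σ : Perm (Fin n)) : ((Fin n → Fin r) → ℤ) →ₗ[ℤ] ((Fin n → Fin r) → ℤ) where
  toFun f := fun w => f (w ∘ σ)
  map_add' _ _ := rfl
  map_smul' _ _ := rfl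

/-- reduction modulo `p` of group rings -/
noncomputable def red (p : ℕ) (G : Type*) [Group G] :
    MonoidAlgebra ℤ G →+* MonoidAlgebra (ZMod p) G :=
  MonoidAlgebra.mapRingHom G (Int.castRingHom (ZMod p))

/-- the element `∑ χ(g)⁻¹ g` of the group algebra -/
noncomputable def normEl {K G : Type*} [Semiring K] [Group G] [Fintype G] (χ : G → K) :
    MonoidAlgebra K G :=
  ∑ g : G, MonoidAlgebra.single g (χ g⁻¹)

/-- the mod `p` reduction of a sign character -/
noncomputable def chiP (p : ℕ) {G : Type*} [Group G] (χ : G →* ℤˣ) : G →* ZMod p :=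
  ((Int.castRingHom (ZMod p)).toMonoidHom.comp (Units.coeHom ℤ)).comp χ

end Pool.PI34.C0
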