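import Pool.Agent.LibPI34.C0Defs

set_option autoImplicit false

namespace Pool.PI34.C0

open Equiv Finset

/-- there is a decreasing subsequence of length `k + 1` ending at position `i` -/
def A1_P {n : ℕ} (σ : Perm (Fin n)) (i : Fin n) (k : ℕ) : Prop :=
  ∃ f : Fin (k + 1) → Fin n, StrictMono f ∧ StrictAnti (fun a => σ (f a)) ∧ f (Fin.last k) = i

theorem A1_zero {n : ℕ} (σ : Perm (Fin n)) (i : Fin n) : A1_P σ i 0 := by
  refine ⟨fun _ => i, ?_, ?_, rfl⟩
  · intro a b hab
    exact absurd (Fin.ext (by omega)) hab.ne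
  · intro a b hab
    exact absurd (Fin.ext (by omega)) hab.ne

theorem A1_succ {n : ℕ} (σ : Perm (Fin n)) (i j : Fin n) (k : ℕ) (h : A1_P σ i k)
    (hij : i < j) (hs : σ j < σ i) : A1_P σ j (k + 1) := by
  obtain ⟨f, hm, ha, hl⟩ := h
  refine ⟨Fin.snoc (α := fun _ => Fin n) f j, ?_, ?_, ?_⟩
  · rw [Fin.strictMono_iff_lt_succ]
    intro a
    refine Fin.lastCases ?_ (fun b => ?_) a
    · rw [Fin.snoc_castSucc (α := fun _ => Fin n), Fin.succ_last,
        Fin.snoc_last (α := fun _ => Fin n), hl]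
      exact hij
    · rw [Fin.snoc_castSucc (α := fun _ => Fin n), Fin.succ_castSucc,
        Fin.snoc_castSucc (α := fun _ => Fin n)]
      exact hm (Fin.castSucc_lt_succ)
  · rw [Fin.strictAnti_iff_succ_lt]
    intro a
    refine Fin.lastCases ?_ (fun b => ?_) a
    · show σ (Fin.snoc (α := fun _ => Fin n) f j (Fin.last k).succ) <
        σ (Fin.snoc (α := fun _ => Fin n) f j (Fin.last k).castSucc)
      rw [Fin.snoc_castSucc (α := fun _ => Fin n), Fin.succ_last,
        Fin.snoc_last (α := fun _ => Fin n), hl]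
      exact hs
    · show σ (Fin.snoc (α := fun _ => Fin n) f j (b.castSucc).succ) <
        σ (Fin.snoc (α := fun _ => Fin n) f j (b.castSucc).castSucc)
      rw [Fin.snoc_castSucc (α := fun _ => Fin n), Fin.succ_castSucc,
        Fin.snoc_castSucc (α := fun _ => Fin n)]
      exact ha (Fin.castSucc_lt_succ)
  · exact Fin.snoc_last (α := fun _ => Fin n) _ _

open Classical in
/-- the colour of a position -/
noncomputable def A1_c {n : ℕ} (D : ℕ) (σ : Perm (Fin n)) (i : Fin n) : ℕ :=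
  Nat.findGreatest (A1_P σ i) D

theorem A1_c_spec {n : ℕ} (D : ℕ) (σ : Perm (Fin n)) (i : Fin n) : A1_P σ i (A1_c D σ i) := by
  classical
  exact Nat.findGreatest_spec (P := A1_P σ i) (Nat.zero_le D) (A1_zero σ i)

theorem A1_c_lt {n : ℕ} (D : ℕ) (σ : Perm (Fin n)) (h : Good (D + 1) σ) (i : Fin n) :
    A1_c D σ i < D := by
  classical
  have h1 : A1_c D σ i ≤ D := Nat.findGreatest_le D
  rcases h1.lt_or_eq with h2 | h2
  · exact h2
  · exfalso
    have h3 := A1_c_spec D σ i
    rw [h2] at h3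
    obtain ⟨f, hm, ha, _⟩ := h3
    exact h ⟨f, hm, ha⟩

theorem A1_c_mono {n : ℕ} (D : ℕ) (σ : Perm (Fin n)) (h : Good (D + 1) σ) (i j : Fin n)
    (hij : i < j) (hc : A1_c D σ i = A1_c D σ j) : σ i < σ j := by
  classical
  by_contra hcon
  have hne : σ j ≠ σ i := fun h => hij.ne (σ.injective h).symm
  have hlt : σ j < σ i := lt_of_le_of_ne (not_lt.mp hcon) hne
  have h1 := A1_succ σ i j _ (A1_c_spec D σ i) hij hlt
  have h2 : A1_c D σ i + 1 ≤ A1_c D σ j :=
    Nat.le_findGreatest (P := A1_P σ j) (A1_c_lt D σ h i) h1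
  omega

theorem A1_step {n : ℕ} (D : ℕ) (σ τ : Perm (Fin n)) (hτ : Good (D + 1) τ)
    (hc : ∀ i, A1_c D σ i = A1_c D τ i)
    (hv : ∀ v, A1_c D σ (σ.symm v) = A1_c D τ (τ.symm v)) (i : Fin n)
    (ih : ∀ j, j < i → σ j = τ j) : ¬ σ i < τ i := by
  intro hlt
  have h1 := hv (σ i)
  rw [Equiv.symm_apply_apply] at h1
  set j := τ.symm (σ i) with hj
  have hτj : τ j = σ i := by rw [hj, Equiv.apply_symm_apply]
  rcases lt_trichotomy j i with h2 | h2 | h2
  · have h3 := ih j h2
    rw [hτj] at h3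
    exact h2.ne (σ.injective h3)
  · rw [h2] at hτj
    exact hlt.ne hτj.symm
  · have h3 := A1_c_mono D τ hτ i j h2 (by rw [← hc i, h1])
    rw [hτj] at h3
    exact absurd h3 (not_lt.mpr hlt.le)

/-- row A1 -/
theorem card_good_le (D n : ℕ) :
    Nat.card {σ : Perm (Fin n) // Good (D + 1) σ} ≤ D ^ (2 * n) := by
  let F : {σ : Perm (Fin n) // Good (D + 1) σ} → (Fin n → Fin D) × (Fin n → Fin D) :=
    fun σ => (fun i => ⟨A1_c D σ.1 i, A1_c_lt D σ.1 σ.2 i⟩,
      fun v => ⟨A1_c D σ.1 (σ.1.symm v), A1_c_lt D σ.1 σ.2 _⟩)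
  have hF : Function.Injective F := by
    rintro ⟨σ, hσ⟩ ⟨τ, hτ⟩ h
    have h1 : ∀ i, A1_c D σ i = A1_c D τ i := fun i => by
      have := congrFun (congrArg Prod.fst h) i
      exact congrArg Fin.val this
    have h2 : ∀ v, A1_c D σ (σ.symm v) = A1_c D τ (τ.symm v) := fun v => by
      have := congrFun (congrArg Prod.snd h) v
      exact congrArg Fin.val this
    have h3 : ∀ i, σ i = τ i := by
      intro i
      induction i using WellFoundedLT.induction with
      | _ i ih =>
        have h4 := A1_step D σ τ hτ h1 h2 i ih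
        have h5 := A1_step D τ σ hσ (fun i => (h1 i).symm) (fun v => (h2 v).symm) i
          (fun j hj => (ih j hj).symm)
        exact le_antisymm (not_lt.mp h5) (not_lt.mp h4)
    exact Subtype.ext (Equiv.ext h3)
  refine (Nat.card_le_card_of_injective F hF).trans ?_
  rw [Nat.card_eq_fintype_card, Fintype.card_prod, Fintype.card_fun, Fintype.card_fin,
    Fintype.card_fin, two_mul, pow_add]

end Pool.PI34.C0
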