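import Pool.Agent.LibPI34.C0Defs

set_option autoImplicit false

namespace Pool.PI34.C0

open Equiv Finset

theorem a2_split {α : Type*} (l' : List α) : ∀ l : List α, l' ≠ [] → l'.Sublist l →
    ∃ (w : List α) (bs : List (List α)), l = w ++ bs.flatten ∧
      List.Forall₂ (fun b a => ∃ t, b = a :: t) bs l' := by
  induction l' with
  | nil => intro l h; exact absurd rfl h
  | cons a l'' ih =>
    intro l _ hsub
    rw [List.cons_sublist_iff] at hsub
    obtain ⟨r₁, r₂, rfl, ha, hsub⟩ := hsub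
    obtain ⟨s, t, rfl⟩ := List.append_of_mem ha
    rcases l'' with _ | ⟨b, m⟩
    · refine ⟨s, [a :: (t ++ r₂)], ?_, ?_⟩
      · simp
      · exact List.Forall₂.cons ⟨t ++ r₂, rfl⟩ List.Forall₂.nil
    · obtain ⟨w, bs, hr, hf⟩ := ih r₂ (by simp) hsub
      refine ⟨s, (a :: (t ++ w)) :: bs, ?_, ?_⟩
      · rw [hr]
        simp
      · exact List.Forall₂.cons ⟨t ++ w, rfl⟩ hf

theorem a2_ofFn {β : Type*} (L : List β) (k : ℕ) (h : L.length = k) :
    ∃ y : Fin k → β, L = List.ofFn y := by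
  subst h
  exact ⟨L.get, (List.ofFn_get L).symm⟩

/-- row A2 (words): decomposition of a word with a decreasing subsequence into blocks -/
theorem exists_blocks {α : Type*} [LinearOrder α] (l : List α) (D : ℕ)
    (h : ∃ l' : List α, l'.Sublist l ∧ l'.length = D + 1 ∧ l'.SortedGT) :
    ∃ (w : List α) (y : Fin (D + 1) → List α) (hd : Fin (D + 1) → α),
      l = w ++ (List.ofFn y).flatten ∧ (∀ j, ∃ t, y j = hd j :: t) ∧ StrictAnti hd := by
  obtain ⟨l', hsub, hlen, hsort⟩ := h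
  have hne : l' ≠ [] := by
    intro h0
    rw [h0] at hlen
    simp at hlen
  obtain ⟨w, bs, hl, hf⟩ := a2_split l' l hne hsub
  have hbs : bs.length = D + 1 := by rw [hf.length_eq, hlen]
  obtain ⟨y, rfl⟩ := a2_ofFn bs (D + 1) hbs
  obtain ⟨hd, rfl⟩ := a2_ofFn l' (D + 1) hlen
  refine ⟨w, y, hd, hl, ?_, List.sortedGT_ofFn_iff.1 hsort⟩
  intro j
  rw [List.forall₂_iff_get] at hf
  have h1 := hf.2 j.val (by rw [hbs]; exact j.isLt) (by rw [hlen]; exact j.isLt)
  simp only [List.get_eq_getElem, List.getElem_ofFn, Fin.eta] at h1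
  exact h1

end Pool.PI34.C0
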