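import Pool.Agent.LibPI34.C0Defs

set_option autoImplicit false

namespace Pool.PI34.C0

open Equiv Finset

theorem a3_append {α : Type*} (r : α → α → Prop) (w l₁ l₂ : List α) (h : List.Lex r l₁ l₂) :
    List.Lex r (w ++ l₁) (w ++ l₂) := by
  induction w with
  | nil => simpa using h
  | cons a w ih => exact List.Lex.cons ih

theorem a3_flatten {α : Type*} (r : α → α → Prop) : ∀ (n : ℕ) (y z : Fin n → List α) (j : Fin n)
    (a b : α) (s t : List α), (∀ i, i < j → y i = z i) → y j = a :: s → z j = b :: t → r a b →
    List.Lex r (List.ofFn y).flatten (List.ofFn z).flatten := by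
  intro n
  induction n with
  | zero => intro y z j; exact j.elim0
  | succ n ih =>
    intro y z j a b s t hlt hy hz hab
    rw [List.ofFn_succ, List.ofFn_succ, List.flatten_cons, List.flatten_cons]
    rcases Fin.eq_zero_or_eq_succ j with rfl | ⟨j', rfl⟩
    · rw [hy, hz]
      exact List.Lex.rel hab
    · rw [hlt 0 (Fin.succ_pos _)]
      refine a3_append r _ _ _ ?_
      exact ih (fun i => y i.succ) (fun i => z i.succ) j' a b s t
        (fun i hi => hlt i.succ (Fin.succ_lt_succ_iff.mpr hi)) hy hz hab

/-- row A3 (words): every nontrivial rearrangement of the blocks is lexicographically smaller -/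
theorem blocks_lex {α : Type*} [LinearOrder α] {D : ℕ} (y : Fin (D + 1) → List α)
    (hd : Fin (D + 1) → α) (hy : ∀ j, ∃ t, y j = hd j :: t) (hhd : StrictAnti hd)
    (w : List α) (π : Perm (Fin (D + 1))) (hπ : π ≠ 1) :
    List.Lex (· < ·) (w ++ (List.ofFn fun j => y (π j)).flatten) (w ++ (List.ofFn y).flatten) := by
  refine a3_append _ _ _ _ ?_
  have hne : (univ.filter fun j : Fin (D + 1) => π j ≠ j).Nonempty := by
    by_contra hcon
    rw [Finset.not_nonempty_iff_eq_empty, Finset.filter_eq_empty_iff] at hcon
    refine hπ (Equiv.ext fun j => ?_)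
    have := hcon (mem_univ j)
    rw [not_not] at this
    simpa using this
  obtain ⟨j, hj, hmin⟩ := Finset.exists_min_image _ (fun j => j) hne
  have hj' : π j ≠ j := (Finset.mem_filter.mp hj).2
  have hfix : ∀ i, i < j → π i = i := by
    intro i hi
    by_contra hcon
    exact absurd (hmin i (Finset.mem_filter.mpr ⟨mem_univ i, hcon⟩)) (not_le.mpr hi)
  have hlt : j < π j := by
    rcases lt_trichotomy (π j) j with h | h | h
    · exact absurd (π.injective (hfix _ h)) hj'
    · exact absurd h hj'
    · exact h
  obtain ⟨s, hs⟩ := hy (π j)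
  obtain ⟨t, ht⟩ := hy j
  exact a3_flatten (· < ·) (D + 1) (fun j => y (π j)) y j (hd (π j)) (hd j) s t
    (fun i hi => by show y (π i) = y i; rw [hfix i hi]) hs ht (hhd hlt)

end Pool.PI34.C0
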