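import Pool.Agent.LibPI34.C0_A2
import Pool.Agent.LibPI34.C0_A3

set_option autoImplicit false

namespace Pool.PI34.C0

open Equiv Finset

theorem a4_lex {α : Type*} {r : α → α → Prop} {l₁ l₂ : List α} (h : List.Lex r l₁ l₂) :
    l₁.length = l₂.length → ∃ (i : ℕ) (a b : α), l₁[i]? = some a ∧ l₂[i]? = some b ∧ r a b ∧
      ∀ j < i, l₁[j]? = l₂[j]? := by
  induction h with
  | nil => intro h; simp at h
  | rel h => intro _; exact ⟨0, _, _, rfl, rfl, h, fun j hj => absurd hj (Nat.not_lt_zero j)⟩
  | cons h ih =>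
    intro hl
    obtain ⟨i, a, b, h1, h2, h3, h4⟩ := ih (by simpa using hl)
    refine ⟨i + 1, a, b, by simpa using h1, by simpa using h2, h3, fun j hj => ?_⟩
    cases j with
    | zero => rfl
    | succ j => simpa using h4 j (by omega)

theorem a4_lexLT {n : ℕ} (τ σ : Fin n → Fin n)
    (h : List.Lex (· < ·) (List.ofFn τ) (List.ofFn σ)) : LexLT τ σ := by
  obtain ⟨i, a, b, h1, h2, h3, h4⟩ := a4_lex h (by simp)
  have hi : i < n := by
    by_contra hc
    rw [List.getElem?_eq_none (by simpa using Nat.not_lt.1 hc)] at h1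
    exact absurd h1 (by simp)
  have e : ∀ (f : Fin n → Fin n) (j : ℕ) (hj : j < n), (List.ofFn f)[j]? = some (f ⟨j, hj⟩) := by
    intro f j hj
    rw [List.getElem?_ofFn]
    simp [hj]
  refine ⟨⟨i, hi⟩, fun j hj => ?_, ?_⟩
  · have := h4 j.1 (Fin.lt_def.1 hj)
    rw [e τ j.1 j.2, e σ j.1 j.2] at this
    simpa using this
  · rw [e τ i hi] at h1
    rw [e σ i hi] at h2
    cases h1
    cases h2
    exact h3

theorem a4_perm {n : ℕ} (σ : Perm (Fin n)) (L : List (Fin n)) (hL : L.Perm (List.ofFn σ)) :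
    ∃ τ : Perm (Fin n), List.ofFn τ = L := by
  have hlen : L.length = n := by rw [hL.length_eq, List.length_ofFn]
  have hnd : L.Nodup := hL.nodup_iff.2 (List.nodup_ofFn.2 σ.injective)
  let g : Fin n → Fin n := fun i => L.get (Fin.cast hlen.symm i)
  have hg : Function.Injective g := by
    intro i j hij
    have := (List.nodup_iff_injective_get.1 hnd) hij
    exact Fin.cast_injective _ this
  refine ⟨Equiv.ofBijective g (Finite.injective_iff_bijective.1 hg), ?_⟩
  apply List.ext_get
  · simp [hlen]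
  · intro i h1 h2
    simp [g]

theorem a4_prod_mem {U : Type*} [Ring U] (R : NonUnitalSubring U) {ι : Type*} (x : ι → U)
    (hx : ∀ i, x i ∈ R) : ∀ (t : List ι) (a : ι), ((a :: t).map x).prod ∈ R := by
  intro t
  induction t with
  | nil => intro a; simpa using hx a
  | cons b t ih =>
    intro a
    rw [List.map_cons, List.prod_cons]
    exact R.mul_mem (hx a) (ih b)

/-- row A4: a bad monomial is a combination of lexicographically smaller ones -/
theorem straighten {U : Type*} [Ring U] (R : NonUnitalSubring U) {d : ℕ}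
    (a : Perm (Fin (d + 1)) → ℤ) (ha : a 1 = 1)
    (hPI : ∀ x : Fin (d + 1) → U, (∀ i, x i ∈ R) → ∑ σ, a σ • mono x σ = 0)
    {n : ℕ} (σ : Perm (Fin n)) (hσ : ¬ Good (d + 1) σ) :
    ∃ c : Perm (Fin n) → ℤ, (∀ τ, c τ ≠ 0 → LexLT τ σ) ∧
      ∀ x : Fin n → U, (∀ i, x i ∈ R) → mono x σ = ∑ τ, c τ • mono x τ := by
  classical
  unfold Good at hσ
  rw [not_not] at hσ
  obtain ⟨f, hf, hfσ⟩ := hσ
  -- the blocks
  have hsub : (List.ofFn fun i => σ (f i)).Sublist (List.ofFn σ) := by
    rw [List.sublist_iff_exists_fin_orderEmbedding_get_eq]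
    refine ⟨OrderEmbedding.ofStrictMono
      (fun i => Fin.cast (List.length_ofFn).symm (f (Fin.cast List.length_ofFn i))) ?_, ?_⟩
    · intro i j hij
      exact hf hij
    · intro i
      simp only [List.get_eq_getElem, List.getElem_ofFn]
      rfl
  obtain ⟨w, y, hd, hl, hy, hhd⟩ := exists_blocks (List.ofFn σ) d
    ⟨_, hsub, by simp, List.sortedGT_ofFn_iff.2 hfσ⟩
  -- the rearranged words
  let L : Perm (Fin (d + 1)) → List (Fin n) := fun π => w ++ (List.ofFn fun j => y (π j)).flatten
  have hLperm : ∀ π, (L π).Perm (List.ofFn σ) := by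
    intro π
    rw [hl]
    exact List.Perm.append_left w (List.Perm.flatten (Equiv.Perm.ofFn_comp_perm π y))
  choose τ hτ using fun π => a4_perm σ (L π) (hLperm π)
  have hlex : ∀ π, π ≠ 1 → LexLT (τ π) σ := by
    intro π hπ
    apply a4_lexLT
    rw [hτ π, hl]
    exact blocks_lex y hd hy hhd w π hπ
  have hprod : ∀ (x : Fin n → U) (π : Perm (Fin (d + 1))),
      (w.map x).prod * mono (fun j => ((y j).map x).prod) π = mono x (τ π) := by
    intro x π
    have e1 : mono x (τ π) = ((L π).map x).prod := by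
      rw [← hτ π, List.map_ofFn]
      rfl
    rw [e1]
    simp only [L, List.map_append, List.prod_append, List.map_flatten, List.prod_flatten, mono,
      List.map_ofFn]
    rfl
  have hprod1 : ∀ x : Fin n → U,
      (w.map x).prod * mono (fun j => ((y j).map x).prod) 1 = mono x σ := by
    intro x
    rw [hprod x 1]
    have : List.ofFn (τ 1) = List.ofFn σ := by
      rw [hτ 1, hl]
      rfl
    have h2 : (τ 1 : Fin n → Fin n) = σ := List.ofFn_injective this
    unfold mono
    simp only [h2]
  refine ⟨fun ρ => - ∑ π ∈ univ.erase (1 : Perm (Fin (d + 1))), if τ π = ρ then a π else 0,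
    ?_, ?_⟩
  · intro ρ hρ
    have h1 : ∑ π ∈ univ.erase (1 : Perm (Fin (d + 1))), (if τ π = ρ then a π else 0) ≠ 0 :=
      fun h => hρ (by simp only; rw [h, neg_zero])
    obtain ⟨π, hπ, hne⟩ := Finset.exists_ne_zero_of_sum_ne_zero h1
    have h2 : τ π = ρ := by
      by_contra hc
      exact hne (if_neg hc)
    rw [← h2]
    exact hlex π (Finset.ne_of_mem_erase hπ)
  · intro x hx
    have hz : ∀ j, ((y j).map x).prod ∈ R := by
      intro j
      obtain ⟨t, ht⟩ := hy j
      rw [ht]
      exact a4_prod_mem R x hx t (hd j)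
    have key := hPI (fun j => ((y j).map x).prod) hz
    have key2 : ∑ π, a π • mono x (τ π) = 0 := by
      have h3 := congrArg (fun u => (w.map x).prod * u) key
      simp only [mul_zero, Finset.mul_sum, mul_smul_comm] at h3
      rw [← h3]
      exact Finset.sum_congr rfl fun π _ => by rw [hprod x π]
    rw [← Finset.add_sum_erase _ _ (Finset.mem_univ (1 : Perm (Fin (d + 1)))), ha, one_smul] at key2
    have h4 : mono x (τ 1) = mono x σ := by rw [← hprod x 1, hprod1 x]
    rw [h4] at key2
    have h5 : mono x σ = - ∑ π ∈ univ.erase (1 : Perm (Fin (d + 1))), a π • mono x (τ π) :=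
      eq_neg_of_add_eq_zero_left key2
    rw [h5]
    simp only [neg_smul, Finset.sum_neg_distrib, neg_inj, Finset.sum_smul]
    rw [Finset.sum_comm]
    refine Finset.sum_congr rfl fun π _ => ?_
    simp only [ite_smul, zero_smul]
    rw [Finset.sum_ite_eq]
    simp

end Pool.PI34.C0
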