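import Pool.Agent.LibPI34.C0_A4

set_option autoImplicit false

namespace Pool.PI34.C0

open Equiv Finset

theorem a5_wf (n : ℕ) : WellFounded (fun τ σ : Perm (Fin n) => LexLT (⇑τ) (⇑σ)) := by
  have h1 : ∀ a : Perm (Fin n), ¬ LexLT (⇑a) (⇑a) := by
    rintro a ⟨i, _, h⟩
    exact lt_irrefl _ h
  have h2 : ∀ a b c : Perm (Fin n), LexLT (⇑a) (⇑b) → LexLT (⇑b) (⇑c) → LexLT (⇑a) (⇑c) := by
    rintro a b c ⟨i, hi, hi'⟩ ⟨j, hj, hj'⟩
    rcases lt_trichotomy i j with h | h | h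
    · exact ⟨i, fun k hk => (hi k hk).trans (hj k (hk.trans h)), by rw [← hj i h]; exact hi'⟩
    · subst h
      exact ⟨i, fun k hk => (hi k hk).trans (hj k hk), hi'.trans hj'⟩
    · exact ⟨j, fun k hk => (hi k (hk.trans h)).trans (hj k hk), by rw [hi j h]; exact hj'⟩
  have : Std.Irrefl (fun τ σ : Perm (Fin n) => LexLT (⇑τ) (⇑σ)) := ⟨h1⟩
  have : IsTrans (Perm (Fin n)) (fun τ σ : Perm (Fin n) => LexLT (⇑τ) (⇑σ)) := ⟨h2⟩
  exact Finite.wellFounded_of_trans_of_irrefl _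

theorem a5_one {U : Type*} [Ring U] (R : NonUnitalSubring U) {d : ℕ}
    (a : Perm (Fin (d + 1)) → ℤ) (ha : a 1 = 1)
    (hPI : ∀ x : Fin (d + 1) → U, (∀ i, x i ∈ R) → ∑ σ, a σ • mono x σ = 0)
    {n : ℕ} (σ : Perm (Fin n)) :
    ∃ c' : Perm (Fin n) → ℤ, (∀ τ, c' τ ≠ 0 → Good (d + 1) τ) ∧
      ∀ x : Fin n → U, (∀ i, x i ∈ R) → mono x σ = ∑ τ, c' τ • mono x τ := by
  classical
  induction σ using (a5_wf n).induction with
  | _ σ ih =>
    by_cases hσ : Good (d + 1) σ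
    · refine ⟨fun τ => if τ = σ then 1 else 0, ?_, ?_⟩
      · intro τ hτ
        by_cases h : τ = σ
        · rw [h]; exact hσ
        · simp [h] at hτ
      · intro x _
        simp
    · obtain ⟨c, hc, hcx⟩ := straighten R a ha hPI σ hσ
      have h1 : ∀ τ : Perm (Fin n), ∃ c' : Perm (Fin n) → ℤ,
          (∀ ρ, c' ρ ≠ 0 → Good (d + 1) ρ) ∧ (c τ ≠ 0 →
            ∀ x : Fin n → U, (∀ i, x i ∈ R) → mono x τ = ∑ ρ, c' ρ • mono x ρ) := by
        intro τ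
        by_cases h : c τ = 0
        · exact ⟨0, fun ρ hρ => absurd rfl hρ, fun h' => absurd h h'⟩
        · obtain ⟨c', h2, h3⟩ := ih τ (hc τ h)
          exact ⟨c', h2, fun _ => h3⟩
      choose c' h2 h3 using h1
      refine ⟨fun ρ => ∑ τ, c τ * c' τ ρ, ?_, ?_⟩
      · intro ρ hρ
        obtain ⟨τ, _, hτ⟩ := Finset.exists_ne_zero_of_sum_ne_zero hρ
        exact h2 τ ρ (right_ne_zero_of_mul hτ)
      · intro x hx
        rw [hcx x hx]
        have h4 : ∀ τ ∈ (univ : Finset (Perm (Fin n))),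
            c τ • mono x τ = ∑ ρ, (c τ * c' τ ρ) • mono x ρ := by
          intro τ _
          by_cases h : c τ = 0
          · simp [h]
          · rw [h3 τ h x hx, Finset.smul_sum]
            exact Finset.sum_congr rfl fun ρ _ => by rw [mul_smul]
        rw [Finset.sum_congr rfl h4, Finset.sum_comm]
        exact Finset.sum_congr rfl fun ρ _ => by rw [Finset.sum_smul]

/-- row A5 -/
theorem reduce_good {U : Type*} [Ring U] (R : NonUnitalSubring U) {d : ℕ}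
    (a : Perm (Fin (d + 1)) → ℤ) (ha : a 1 = 1)
    (hPI : ∀ x : Fin (d + 1) → U, (∀ i, x i ∈ R) → ∑ σ, a σ • mono x σ = 0)
    {n : ℕ} (c : Perm (Fin n) → ℤ) :
    ∃ c' : Perm (Fin n) → ℤ, (∀ τ, c' τ ≠ 0 → Good (d + 1) τ) ∧
      ∀ x : Fin n → U, (∀ i, x i ∈ R) → ∑ τ, c τ • mono x τ = ∑ τ, c' τ • mono x τ := by
  choose c' h2 h3 using fun τ : Perm (Fin n) => a5_one R a ha hPI τ
  refine ⟨fun ρ => ∑ τ, c τ * c' τ ρ, ?_, ?_⟩
  · intro ρ hρ
    obtain ⟨τ, _, hτ⟩ := Finset.exists_ne_zero_of_sum_ne_zero hρ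
    exact h2 τ ρ (right_ne_zero_of_mul hτ)
  · intro x hx
    have h4 : ∀ τ ∈ (univ : Finset (Perm (Fin n))),
        c τ • mono x τ = ∑ ρ, (c τ * c' τ ρ) • mono x ρ := by
      intro τ _
      rw [h3 τ x hx, Finset.smul_sum]
      exact Finset.sum_congr rfl fun ρ _ => by rw [mul_smul]
    rw [Finset.sum_congr rfl h4, Finset.sum_comm]
    exact Finset.sum_congr rfl fun ρ _ => by rw [Finset.sum_smul]

end Pool.PI34.C0
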