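import Pool.Agent.LibPI34.C0Defs

set_option autoImplicit false

namespace Pool.PI34.C0

open Equiv Finset

theorem b1_prod {U : Type*} [Monoid U] : ∀ (n m : ℕ) (hm : m = 2 * n + 1) (v : Fin (n + 1) → U)
    (y : Fin n → U) (w : Fin m → U)
    (_ : ∀ (k : ℕ) (hk : k < n + 1), w ⟨2 * k, by omega⟩ = v ⟨k, hk⟩)
    (_ : ∀ (k : ℕ) (hk : k < n), w ⟨2 * k + 1, by omega⟩ = y ⟨k, hk⟩),
    (List.ofFn w).prod = v 0 * (List.ofFn fun i => y i * v i.succ).prod := by
  intro n
  induction n with
  | zero =>
    intro m hm v y w hv hy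
    obtain rfl : m = 1 := by omega
    have h0 : w 0 = v 0 := hv 0 (by omega)
    simp [List.ofFn_succ, h0]
  | succ n ih =>
    intro m hm v y w hv hy
    obtain ⟨m', rfl⟩ : ∃ m', m = m' + 1 + 1 := ⟨2 * n + 1, by omega⟩
    have h0 : w 0 = v 0 := hv 0 (by omega)
    have h1 : w (Fin.succ 0) = y 0 := hy 0 (by omega)
    rw [List.ofFn_succ, List.ofFn_succ, List.prod_cons, List.prod_cons,
      ih m' (by omega) (fun k => v k.succ) (fun k => y k.succ) (fun i => w i.succ.succ)
        (fun k hk => hv (k + 1) (by omega)) (fun k hk => hy (k + 1) (by omega)),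
      List.ofFn_succ (f := fun i => y i * v i.succ), List.prod_cons, h0, h1]
    simp only [mul_assoc]

/-- the positions `0, …, 2n`: the even ones carry the `v`, the odd ones the `x` -/
def b1_equiv (n : ℕ) : Fin (2 * n + 1) ≃ Fin (n + 1) ⊕ Fin n where
  toFun i := if h : i.val % 2 = 1 then Sum.inr ⟨i.val / 2, by have := i.2; omega⟩
    else Sum.inl ⟨i.val / 2, by have := i.2; omega⟩
  invFun s := Sum.elim (fun k => ⟨2 * k.val, by have := k.2; omega⟩)
    (fun k => ⟨2 * k.val + 1, by have := k.2; omega⟩) s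
  left_inv i := by
    by_cases h : i.val % 2 = 1
    · beta_reduce
      rw [dif_pos h]
      apply Fin.ext
      show 2 * (i.val / 2) + 1 = i.val
      omega
    · beta_reduce
      rw [dif_neg h]
      apply Fin.ext
      show 2 * (i.val / 2) = i.val
      omega
  right_inv s := by
    rcases s with k | k
    · show (if h : (2 * k.val) % 2 = 1 then _ else _) = _
      rw [dif_neg (by omega)]
      congr 1
      apply Fin.ext
      show 2 * k.val / 2 = k.val
      omega
    · show (if h : (2 * k.val + 1) % 2 = 1 then _ else _) = _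
      rw [dif_pos (by omega)]
      congr 1
      apply Fin.ext
      show (2 * k.val + 1) / 2 = k.val
      omega

theorem b1_even (n k : ℕ) (hk : k < n + 1) :
    b1_equiv n ⟨2 * k, by omega⟩ = Sum.inl ⟨k, hk⟩ :=
  (b1_equiv n).right_inv (Sum.inl ⟨k, hk⟩)

theorem b1_odd (n k : ℕ) (hk : k < n) :
    b1_equiv n ⟨2 * k + 1, by omega⟩ = Sum.inr ⟨k, hk⟩ :=
  (b1_equiv n).right_inv (Sum.inr ⟨k, hk⟩)

/-- row B1: the interleaved monomials as monomials in `2n+1` letters -/
theorem capMono_eq_mono (n : ℕ) : ∃ ι : Perm (Fin n) → Perm (Fin (2 * n + 1)),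
    Function.Injective ι ∧ ∀ {U : Type} [Monoid U] (v : Fin (n + 1) → U) (x : Fin n → U),
      ∃ z : Fin (2 * n + 1) → U, (∀ i, (∃ j, z i = v j) ∨ (∃ j, z i = x j)) ∧
        ∀ σ, capMono v x σ = mono z (ι σ) := by
  refine ⟨fun σ => ((b1_equiv n).trans (Equiv.sumCongr (Equiv.refl _) σ)).trans
    (b1_equiv n).symm, ?_, ?_⟩
  · intro σ τ h
    refine Equiv.ext fun k => ?_
    have h1 := Equiv.congr_fun h ((b1_equiv n).symm (Sum.inr k))
    simpa using h1
  · intro U _ v x
    refine ⟨fun i => Sum.elim v x (b1_equiv n i), ?_, ?_⟩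
    · intro i
      rcases h : b1_equiv n i with j | j
      · left
        exact ⟨j, by simp only [h, Sum.elim_inl]⟩
      · right
        exact ⟨j, by simp only [h, Sum.elim_inr]⟩
    · intro σ
      unfold capMono mono
      refine (b1_prod n (2 * n + 1) rfl v (fun i => x (σ i)) _ ?_ ?_).symm
      · intro k hk
        simp [b1_even n k hk]
      · intro k hk
        simp [b1_odd n k hk]

end Pool.PI34.C0
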