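import Pool.Agent.LibPI34.C0_A1
import Pool.Agent.LibPI34.C0_A5
import Pool.Agent.LibPI34.C0_B1

set_option autoImplicit false

namespace Pool.PI34.C0

open Equiv Finset

theorem b2_mul_prod {U : Type} [Ring U] (R : NonUnitalSubring U) (l : List U) :
    (∀ u ∈ l, u ∈ R) → ∀ r ∈ R, r * l.prod ∈ R := by
  induction l with
  | nil => intro _ r hr; simpa using hr
  | cons a l ih =>
    intro h r hr
    rw [List.prod_cons, ← mul_assoc]
    exact ih (fun u hu => h u (List.mem_cons_of_mem _ hu)) _ (R.mul_mem hr (h a List.mem_cons_self))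

theorem b2_capMono_mem {U : Type} [Ring U] (R : NonUnitalSubring U) {n : ℕ} (v : Fin (n + 1) → U)
    (x : Fin n → U) (hv : ∀ i, v i ∈ R) (hx : ∀ i, x i ∈ R) (σ : Perm (Fin n)) :
    capMono v x σ ∈ R := by
  unfold capMono
  refine b2_mul_prod R _ ?_ _ (hv 0)
  intro u hu
  obtain ⟨i, rfl⟩ := List.mem_ofFn.1 hu
  exact R.mul_mem (hx _) (hv _)

theorem b2_mono_mem {U : Type} [Ring U] (R : NonUnitalSubring U) {n : ℕ} (z : Fin (n + 1) → U)
    (hz : ∀ i, z i ∈ R) (σ : Perm (Fin (n + 1))) : mono z σ ∈ R := by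
  unfold mono
  rw [List.ofFn_succ, List.prod_cons]
  refine b2_mul_prod R _ ?_ _ (hz _)
  intro u hu
  obtain ⟨i, rfl⟩ := List.mem_ofFn.1 hu
  exact hz _

theorem b2_push {n N : ℕ} (ι : Perm (Fin n) → Perm (Fin N)) (c : Perm (Fin n) → ℤ) :
    ∃ c1 : Perm (Fin N) → ℤ, ∀ {U : Type} [Ring U] (z : Fin N → U),
      ∑ τ, c1 τ • mono z τ = ∑ σ, c σ • mono z (ι σ) := by
  classical
  refine ⟨fun τ => ∑ σ, if ι σ = τ then c σ else 0, ?_⟩
  intro U _ z
  simp_rw [Finset.sum_smul]
  rw [Finset.sum_comm]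
  refine Finset.sum_congr rfl ?_
  intro σ _
  rw [Finset.sum_eq_single (ι σ)]
  · rw [if_pos rfl]
  · intro τ _ hτ
    rw [if_neg (Ne.symm hτ), zero_smul]
  · intro h; exact absurd (Finset.mem_univ _) h

/-- row B2 -/
theorem exists_ideal {U : Type} [Ring U] (R : NonUnitalSubring U) {d : ℕ}
    (a : Perm (Fin (d + 1)) → ℤ) (ha : a 1 = 1)
    (hPI : ∀ x : Fin (d + 1) → U, (∀ i, x i ∈ R) → ∑ σ, a σ • mono x σ = 0)
    (p : ℕ) [Fact p.Prime] (hp : ∀ r ∈ R, (p : ℤ) • r = 0) (n : ℕ) :
    ∃ I : Ideal (MonoidAlgebra (ZMod p) (Perm (Fin n))),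
      Module.finrank (ZMod p) (MonoidAlgebra (ZMod p) (Perm (Fin n)) ⧸ I) ≤
        d ^ (2 * (2 * n + 1)) ∧
      ∀ c : MonoidAlgebra ℤ (Perm (Fin n)), red p _ c ∈ I →
        ∀ (v : Fin (n + 1) → U) (x : Fin n → U), (∀ i, v i ∈ R) → (∀ i, x i ∈ R) →
          ∑ σ, c.coeff σ • capMono v x σ = 0 := by
  classical
  let hmod : Module (ZMod p) R := AddCommGroup.zmodModule (n := p) (by
    intro x
    apply Subtype.ext
    have h := hp x.1 x.2
    rw [natCast_zsmul] at h
    simpa using h)
  -- the evaluation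
  let cm : ((Fin (n + 1) → R) × (Fin n → R)) → Perm (Fin n) → R := fun vx σ =>
    ⟨capMono (fun i => (vx.1 i : U)) (fun i => (vx.2 i : U)) σ,
      b2_capMono_mem R _ _ (fun i => (vx.1 i).2) (fun i => (vx.2 i).2) σ⟩
  let L : MonoidAlgebra (ZMod p) (Perm (Fin n)) →ₗ[ZMod p]
      (((Fin (n + 1) → R) × (Fin n → R)) → R) :=
    { toFun := fun c vx => ∑ σ, c.coeff σ • cm vx σ
      map_add' := by
        intro c c'
        funext vx
        show ∑ σ, (c + c').coeff σ • cm vx σ = ∑ σ, c.coeff σ • cm vx σ + ∑ σ, c'.coeff σ • cm vx σ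
        rw [← Finset.sum_add_distrib]
        refine Finset.sum_congr rfl ?_
        intro σ _
        rw [MonoidAlgebra.coeff_add, Finsupp.add_apply, add_smul]
      map_smul' := by
        intro r c
        funext vx
        show ∑ σ, (r • c).coeff σ • cm vx σ = r • ∑ σ, c.coeff σ • cm vx σ
        rw [Finset.smul_sum]
        refine Finset.sum_congr rfl ?_
        intro σ _
        rw [MonoidAlgebra.coeff_smul_apply, smul_eq_mul, mul_smul] }
  have hLapp : ∀ c vx, L c vx = ∑ σ, c.coeff σ • cm vx σ := fun _ _ => rfl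
  -- left multiplication
  have hLmul : ∀ (g : Perm (Fin n)) (c : MonoidAlgebra (ZMod p) (Perm (Fin n)))
      (vx : (Fin (n + 1) → R) × (Fin n → R)),
      L (MonoidAlgebra.of (ZMod p) _ g * c) vx = L c (vx.1, vx.2 ∘ g) := by
    intro g c vx
    rw [hLapp, hLapp]
    rw [← Equiv.sum_comp (Equiv.mulLeft g)]
    refine Finset.sum_congr rfl ?_
    intro τ _
    have h1 : (MonoidAlgebra.of (ZMod p) _ g * c).coeff (Equiv.mulLeft g τ) = c.coeff τ := by
      rw [MonoidAlgebra.of_apply]
      rw [MonoidAlgebra.coeff_single_mul_eq_mul_coeff τ (by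
        intro m' _
        show g * m' = g * τ ↔ m' = τ
        exact mul_right_inj g), one_mul]
    rw [h1]
    rfl
  have hLker : ∀ (b c : MonoidAlgebra (ZMod p) (Perm (Fin n))), L c = 0 → L (b * c) = 0 := by
    intro b c hc
    induction b using MonoidAlgebra.induction_on with
    | of g =>
      funext vx
      rw [hLmul, hc]
      rfl
    | add x y hx hy => rw [add_mul, map_add, hx, hy, add_zero]
    | smul r x hx => rw [smul_mul_assoc, map_smul, hx, smul_zero]
  let I : Ideal (MonoidAlgebra (ZMod p) (Perm (Fin n))) :=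
    { carrier := {c | L c = 0}
      zero_mem' := map_zero L
      add_mem' := by
        intro x y hx hy
        show L (x + y) = 0
        rw [map_add, hx, hy, add_zero]
      smul_mem' := by
        intro b c hc
        exact hLker b c hc }
  have hI : I.restrictScalars (ZMod p) = LinearMap.ker L := by
    ext c; exact Iff.rfl
  refine ⟨I, ?_, ?_⟩
  · -- the dimension
    obtain ⟨ι, hι, hz⟩ := capMono_eq_mono n
    have hz' : ∀ vx : (Fin (n + 1) → R) × (Fin n → R), ∃ z : Fin (2 * n + 1) → U,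
        (∀ i, z i ∈ R) ∧ ∀ σ, capMono (fun i => (vx.1 i : U)) (fun i => (vx.2 i : U)) σ =
          mono z (ι σ) := by
      intro vx
      obtain ⟨z, h1, h2⟩ := hz (fun i => (vx.1 i : U)) (fun i => (vx.2 i : U))
      refine ⟨z, ?_, h2⟩
      intro i
      rcases h1 i with ⟨j, hj⟩ | ⟨j, hj⟩
      · rw [hj]; exact (vx.1 j).2
      · rw [hj]; exact (vx.2 j).2
    choose z hzR hzm using hz'
    let Mτ : {τ : Perm (Fin (2 * n + 1)) // Good (d + 1) τ} →
        (((Fin (n + 1) → R) × (Fin n → R)) → R) := fun τ vx =>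
      ⟨mono (z vx) τ.1, b2_mono_mem R _ (hzR vx) τ.1⟩
    have hrange : LinearMap.range L ≤ Submodule.span (ZMod p) (Set.range Mτ) := by
      rintro _ ⟨c, rfl⟩
      obtain ⟨c1, hc1⟩ := b2_push ι (fun σ => ((c.coeff σ).val : ℤ))
      obtain ⟨c', hgood, hc'⟩ := reduce_good R a ha hPI c1
      have hLc : L c = ∑ τ : {τ : Perm (Fin (2 * n + 1)) // Good (d + 1) τ},
          ((c' τ.1 : ℤ) : ZMod p) • Mτ τ := by
        funext vx
        apply Subtype.ext
        rw [hLapp]
        have e1 : ((∑ σ, c.coeff σ • cm vx σ : R) : U) =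
            ∑ σ, ((c.coeff σ).val : ℤ) • capMono (fun i => (vx.1 i : U)) (fun i => (vx.2 i : U)) σ := by
          rw [AddSubmonoidClass.coe_finsetSum]
          refine Finset.sum_congr rfl ?_
          intro σ _
          have e2 : c.coeff σ = (((c.coeff σ).val : ℤ) : ZMod p) := by
            rw [Int.cast_natCast, ZMod.natCast_zmod_val]
          rw [e2, Int.cast_smul_eq_zsmul]
          rw [← e2]
          rfl
        have e3 : ∑ σ, ((c.coeff σ).val : ℤ) •
            capMono (fun i => (vx.1 i : U)) (fun i => (vx.2 i : U)) σ =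
            ∑ τ, c' τ • mono (z vx) τ := by
          rw [← hc' (z vx) (hzR vx), hc1]
          refine Finset.sum_congr rfl ?_
          intro σ _
          rw [hzm]
        rw [e1, e3, Finset.sum_apply, AddSubmonoidClass.coe_finsetSum]
        have e4 : ∀ τ : {τ : Perm (Fin (2 * n + 1)) // Good (d + 1) τ},
            (((((c' τ.1 : ℤ) : ZMod p) • Mτ τ) vx : R) : U) = c' τ.1 • mono (z vx) τ.1 := by
          intro τ
          rw [Pi.smul_apply, Int.cast_smul_eq_zsmul]
          rfl
        rw [Finset.sum_congr rfl (fun τ _ => e4 τ)]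
        rw [← Finset.sum_subtype (univ.filter (fun τ => Good (d + 1) τ)) (by simp)
          (fun τ => c' τ • mono (z vx) τ)]
        rw [Finset.sum_filter_of_ne]
        intro τ _ hτ
        refine hgood τ ?_
        intro h0
        apply hτ
        rw [h0, zero_smul]
      rw [hLc]
      exact Submodule.sum_mem _ fun τ _ => Submodule.smul_mem _ _ (Submodule.subset_span ⟨τ, rfl⟩)
    have hfin : Module.Finite (ZMod p) (Submodule.span (ZMod p) (Set.range Mτ)) :=
      FiniteDimensional.span_of_finite _ (Set.finite_range _)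
    have h1 : Module.finrank (ZMod p) (MonoidAlgebra (ZMod p) (Perm (Fin n)) ⧸ I) =
        Module.finrank (ZMod p) (LinearMap.range L) := by
      rw [← LinearEquiv.finrank_eq (Submodule.Quotient.restrictScalarsEquiv (ZMod p) I),
        LinearEquiv.finrank_eq (Submodule.quotEquivOfEq _ _ hI),
        LinearEquiv.finrank_eq L.quotKerEquivRange]
    rw [h1]
    refine le_trans (Submodule.finrank_mono hrange) ?_
    refine le_trans (finrank_range_le_card Mτ) ?_
    have h2 := card_good_le d (2 * n + 1)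
    rw [Nat.card_eq_fintype_card] at h2
    exact h2
  · intro c hc v x hv hx
    have h1 : L (red p _ c) = 0 := hc
    have h2 := congrFun h1 ((fun i => ⟨v i, hv i⟩), (fun i => ⟨x i, hx i⟩))
    rw [hLapp] at h2
    have h3 : ((∑ σ, (red p _ c).coeff σ • cm ((fun i => ⟨v i, hv i⟩), (fun i => ⟨x i, hx i⟩)) σ : R) : U) = 0 := by
      rw [h2]; rfl
    rw [AddSubmonoidClass.coe_finsetSum] at h3
    have h4 : ∀ σ, ((((red p _ c).coeff σ • cm ((fun i => ⟨v i, hv i⟩), (fun i => ⟨x i, hx i⟩)) σ : R)) : U) =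
        c.coeff σ • capMono v x σ := by
      intro σ
      have h5 : (red p _ c).coeff σ = ((c.coeff σ : ℤ) : ZMod p) := by
        unfold red
        rw [MonoidAlgebra.coeff_mapRingHom]
        rfl
      rw [h5, Int.cast_smul_eq_zsmul]
      rfl
    rw [Finset.sum_congr rfl (fun σ _ => h4 σ)] at h3
    exact h3

end Pool.PI34.C0
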