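import Pool.Agent.LibPI34.C0Defs

set_option autoImplicit false

namespace Pool.PI34.C0

open Equiv Finset

variable {p : ℕ} [Fact p.Prime] {G : Type} [Group G] [Fintype G]

theorem c1_coeff {K : Type} [Semiring K] (φ : G → K) (h : G) :
    (∑ g : G, MonoidAlgebra.single g (φ g)).coeff h = φ h := by
  classical
  rw [MonoidAlgebra.coeff_sum, Finsupp.finsetSum_apply]
  simp only [MonoidAlgebra.coeff_single, Finsupp.single_apply]
  rw [Finset.sum_eq_single h]
  · simp
  · intro b _ hb; simp [hb]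
  · intro hh; exact absurd (mem_univ _) hh

theorem c1_idem {M : Type} [Monoid M] [Finite M] (x : M) : ∃ r : ℕ, 1 ≤ r ∧ x ^ r * x ^ r = x ^ r := by
  obtain ⟨i, j, hij, h⟩ := Finite.exists_ne_map_eq_of_infinite (fun n : ℕ => x ^ (n + 1))
  wlog hlt : i < j generalizing i j
  · exact this j i hij.symm h.symm (by omega)
  obtain ⟨c, hc⟩ : ∃ c, j = i + c := ⟨j - i, by omega⟩
  have hc1 : 1 ≤ c := by omega
  have h1 : ∀ k : ℕ, ∀ m : ℕ, i + 1 ≤ m → x ^ (m + c * k) = x ^ m := by
    intro k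
    induction k with
    | zero => intro m _; simp
    | succ k ih =>
      intro m hm
      have e1 : m + c * (k + 1) = (m + c) + c * k := by ring
      rw [e1, ih (m + c) (by omega)]
      obtain ⟨t, ht⟩ : ∃ t, m = (i + 1) + t := ⟨m - (i + 1), by omega⟩
      have e2 : m + c = (j + 1) + t := by omega
      rw [e2, pow_add, ← h, ← pow_add, ht]
  refine ⟨c * (i + 1), Nat.one_le_iff_ne_zero.2 (by positivity), ?_⟩
  rw [← pow_add]
  apply h1
  nlinarith

/-- row C1 -/
theorem exists_idem (χ : G →* ZMod p) (I : Ideal (MonoidAlgebra (ZMod p) G))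
    (hN : normEl (K := ZMod p) χ ∉ I) :
    ∃ e : MonoidAlgebra (ZMod p) G, e * e = e ∧ (∀ a ∈ I, a * e = 0) ∧
      MonoidAlgebra.lift (ZMod p) (ZMod p) G χ e = 1 := by
  classical
  obtain ⟨f, hf1, hf2⟩ := Submodule.exists_le_ker_of_notMem
    (p := Submodule.restrictScalars (ZMod p) I) (v := normEl (K := ZMod p) χ) hN
  obtain ⟨x, hx⟩ : ∃ x : MonoidAlgebra (ZMod p) G,
    x = ∑ g : G, MonoidAlgebra.single g (f (MonoidAlgebra.single g⁻¹ 1)) := ⟨_, rfl⟩
  have hxc : ∀ g, x.coeff g = f (MonoidAlgebra.single g⁻¹ 1) := by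
    intro g; rw [hx, c1_coeff (fun g => f (MonoidAlgebra.single g⁻¹ 1)) g]
  have hsingle : ∀ (g : G) (r : ZMod p),
      f (MonoidAlgebra.single g r) = r * f (MonoidAlgebra.single g 1) := by
    intro g r
    have : (MonoidAlgebra.single g r : MonoidAlgebra (ZMod p) G)
        = r • MonoidAlgebra.single g 1 := by
      rw [MonoidAlgebra.smul_single]; simp
    rw [this, map_smul, smul_eq_mul]
  have hpair : ∀ a : MonoidAlgebra (ZMod p) G, (a * x).coeff 1 = f a := by
    intro a
    induction a using MonoidAlgebra.induction_linear with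
    | zero => simp
    | add a b ha hb => rw [add_mul, MonoidAlgebra.coeff_add, Finsupp.add_apply, ha, hb, map_add]
    | single g r =>
      rw [MonoidAlgebra.coeff_single_mul_apply, hxc, hsingle g r, mul_one, inv_inv]
  have hax : ∀ a ∈ I, a * x = 0 := by
    intro a ha
    ext h
    have h1 : (MonoidAlgebra.single h⁻¹ (1 : ZMod p) * a) ∈ I := I.mul_mem_left _ ha
    have h2 := hpair (MonoidAlgebra.single h⁻¹ (1 : ZMod p) * a)
    rw [mul_assoc, MonoidAlgebra.coeff_single_mul_apply, inv_inv, mul_one, one_mul] at h2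
    rw [h2]
    have h3 : f (MonoidAlgebra.single h⁻¹ (1 : ZMod p) * a) = 0 := LinearMap.mem_ker.1 (hf2 h1)
    rw [h3]; simp
  have hlift : MonoidAlgebra.lift (ZMod p) (ZMod p) G χ x = f (normEl (K := ZMod p) χ) := by
    rw [hx, map_sum]
    unfold normEl
    rw [map_sum]
    rw [← Equiv.sum_comp (Equiv.inv G)]
    apply Finset.sum_congr rfl
    intro g _
    rw [Equiv.inv_apply, MonoidAlgebra.lift_single, inv_inv, hsingle g (χ g⁻¹), smul_eq_mul,
      mul_comm]
  haveI : Finite (MonoidAlgebra (ZMod p) G) := by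
    haveI : NeZero p := ⟨(Fact.out : p.Prime).ne_zero⟩
    haveI : Finite (ZMod p) := inferInstance
    apply Finite.of_injective (fun y : MonoidAlgebra (ZMod p) G => (fun g => y.coeff g : G → ZMod p))
    intro a b hab
    ext g
    exact congrFun hab g
  obtain ⟨r, hr, hidem⟩ := c1_idem x
  refine ⟨x ^ r, hidem, ?_, ?_⟩
  · intro a ha
    obtain ⟨r', rfl⟩ : ∃ r', r = r' + 1 := ⟨r - 1, by omega⟩
    rw [pow_succ', ← mul_assoc, hax a ha, zero_mul]
  · have h0 : MonoidAlgebra.lift (ZMod p) (ZMod p) G χ (x ^ r) ≠ 0 := by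
      rw [map_pow, hlift]
      exact pow_ne_zero _ hf1
    have h1 : MonoidAlgebra.lift (ZMod p) (ZMod p) G χ (x ^ r)
        * MonoidAlgebra.lift (ZMod p) (ZMod p) G χ (x ^ r)
        = MonoidAlgebra.lift (ZMod p) (ZMod p) G χ (x ^ r) := by
      rw [← map_mul, hidem]
    exact mul_left_cancel₀ h0 (by rw [h1, mul_one])

end Pool.PI34.C0
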