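import Pool.Agent.LibPI34.C0Defs

set_option autoImplicit false

namespace Pool.PI34.C0

open Equiv Finset

variable {p : ℕ} [Fact p.Prime] {G : Type} [Group G] [Fintype G]

/-- row C2 -/
theorem finrank_span_le (I : Ideal (MonoidAlgebra (ZMod p) G)) (e : MonoidAlgebra (ZMod p) G)
    (he : e * e = e) (hI : ∀ a ∈ I, a * e = 0) :
    Module.finrank (ZMod p) (Ideal.span {e} : Ideal (MonoidAlgebra (ZMod p) G)) ≤
      Module.finrank (ZMod p) (MonoidAlgebra (ZMod p) G ⧸ I) := by
  have hspan : ∀ a ∈ (Ideal.span {e} : Ideal (MonoidAlgebra (ZMod p) G)), a * e = a := by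
    intro a ha
    obtain ⟨b, hb⟩ := Ideal.mem_span_singleton'.mp ha
    rw [← hb, mul_assoc, he]
  let f : (Ideal.span {e} : Ideal (MonoidAlgebra (ZMod p) G)) →ₗ[ZMod p]
      (MonoidAlgebra (ZMod p) G ⧸ I) :=
    (I.mkQ.comp (Submodule.subtype _)).restrictScalars (ZMod p)
  have hfin : Module.Finite (ZMod p) (MonoidAlgebra (ZMod p) G ⧸ I) := by
    have : Module.Finite (ZMod p) (MonoidAlgebra (ZMod p) G) := inferInstance
    exact Module.Finite.of_surjective (I.mkQ.restrictScalars (ZMod p)) (Submodule.mkQ_surjective I)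
  refine LinearMap.finrank_le_finrank_of_injective (f := f) ?_
  rw [← LinearMap.ker_eq_bot, LinearMap.ker_eq_bot']
  rintro ⟨a, ha⟩ h0
  have h1 : (Submodule.Quotient.mk a : MonoidAlgebra (ZMod p) G ⧸ I) = 0 := h0
  have h2 : a ∈ I := (Submodule.Quotient.mk_eq_zero I).mp h1
  have h3 := hI a h2
  rw [hspan a ha] at h3
  exact Subtype.ext h3

end Pool.PI34.C0
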