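import Pool.Agent.LibPI34.C0Defs

set_option autoImplicit false

namespace Pool.PI34.C0

open Equiv Finset

/-- row D1: Schur averaging -/
theorem averaging {G : Type} [Group G] [Fintype G] {S : Type} [AddCommGroup S]
    [Module.Free ℤ S] [Module.Finite ℤ S] (ρ : G →* (S →ₗ[ℤ] S))
    (hEnd : ∀ T : S →ₗ[ℤ] S, (∀ g, T ∘ₗ ρ g = ρ g ∘ₗ T) → ∃ c : ℤ, ∀ s, T s = c • s)
    (w : S) (φ : S →ₗ[ℤ] ℤ) :
    ∃ c : ℤ, c * (Module.finrank ℤ S : ℤ) = (Fintype.card G : ℤ) * φ w ∧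
      ∀ y, ∑ g : G, φ (ρ g y) • ρ g⁻¹ w = c • y := by
  classical
  set T : S →ₗ[ℤ] S := ∑ g : G, (φ ∘ₗ ρ g).smulRight (ρ g⁻¹ w) with hT
  have hTy : ∀ y, T y = ∑ g : G, φ (ρ g y) • ρ g⁻¹ w := by
    intro y
    simp [hT, LinearMap.sum_apply]
  have hmul : ∀ g h : G, ∀ y : S, ρ (g * h) y = ρ g (ρ h y) := by
    intro g h y
    rw [map_mul]; rfl
  have hcomm : ∀ h : G, T ∘ₗ ρ h = ρ h ∘ₗ T := by
    intro h
    ext y
    rw [LinearMap.comp_apply, LinearMap.comp_apply, hTy, hTy, map_sum]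
    refine Fintype.sum_equiv (Equiv.mulRight h) _ _ ?_
    intro g
    rw [Equiv.coe_mulRight, map_smul, hmul g h y, ← hmul h (g * h)⁻¹ w]
    congr 2
    group
  obtain ⟨c, hc⟩ := hEnd T hcomm
  refine ⟨c, ?_, fun y => by rw [← hTy, hc]⟩
  have h1 : T = c • (LinearMap.id : S →ₗ[ℤ] S) := by
    ext y; simp [hc]
  have h2 : LinearMap.trace ℤ S T = c * (Module.finrank ℤ S : ℤ) := by
    rw [h1, map_smul, LinearMap.trace_id, smul_eq_mul]
  rw [← h2, hT, map_sum]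
  have h3 : ∀ g : G, LinearMap.trace ℤ S ((φ ∘ₗ ρ g).smulRight (ρ g⁻¹ w)) = φ w := by
    intro g
    rw [LinearMap.trace_smulRight, LinearMap.comp_apply, ← hmul, mul_inv_cancel, map_one]
    rfl
  rw [Finset.sum_congr rfl (fun g _ => h3 g)]
  simp

end Pool.PI34.C0
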