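import Pool.Agent.LibPI34.C0Defs

set_option autoImplicit false

namespace Pool.PI34.C0

open Equiv Finset

lemma d2_red_surj (p : ℕ) (G : Type*) [Group G] : Function.Surjective (red p G) := by
  intro a
  obtain ⟨f, hf⟩ : ∃ f : ZMod p → ℤ, ∀ z, ((f z : ℤ) : ZMod p) = z :=
    ⟨fun z => Classical.choose (ZMod.intCast_surjective z),
      fun z => Classical.choose_spec (ZMod.intCast_surjective z)⟩
  classical
  refine ⟨∑ g ∈ a.coeff.support, MonoidAlgebra.single g (f (a.coeff g)), ?_⟩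
  rw [map_sum]
  have h1 : ∀ g ∈ a.coeff.support, red p G (MonoidAlgebra.single g (f (a.coeff g)))
      = MonoidAlgebra.single g (a.coeff g) := by
    intro g _
    unfold red
    simp [hf]
  rw [Finset.sum_congr rfl h1]
  ext g
  rw [MonoidAlgebra.coeff_sum, Finsupp.finsetSum_apply]
  simp only [MonoidAlgebra.coeff_single, Finsupp.single_apply]
  rw [Finset.sum_ite_eq']
  split_ifs with h
  · rfl
  · exact (Finsupp.notMem_support_iff.1 h).symm

lemma d2_ker (p : ℕ) [Fact p.Prime] (G : Type*) [Group G] (c : MonoidAlgebra ℤ G)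
    (hc : red p G c = 0) : ∃ u : MonoidAlgebra ℤ G, c = (p : ℤ) • u := by
  have h1 : ∀ g, (p : ℤ) ∣ c.coeff g := by
    intro g
    have h2 : (red p G c).coeff g = 0 := by rw [hc]; rfl
    rw [red, MonoidAlgebra.coeff_mapRingHom] at h2
    exact (ZMod.intCast_zmod_eq_zero_iff_dvd _ p).1 h2
  refine ⟨MonoidAlgebra.ofCoeff (c.coeff.mapRange (fun z => z / (p : ℤ)) (by simp)), ?_⟩
  ext g
  rw [MonoidAlgebra.coeff_smul_apply]
  simp only [Finsupp.mapRange_apply, smul_eq_mul]
  rw [Int.mul_ediv_cancel' (h1 g)]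

/-- `E - E^2` is a multiple of `(x - x^2)^s` for `E = 1 - (1 - x^s)^s` -/
lemma d2_dvd {R : Type*} [Ring R] (x : R) (s : ℕ) :
    ∃ c : R, (1 - (1 - x ^ s) ^ s) * (1 - (1 - x ^ s) ^ s) - (1 - (1 - x ^ s) ^ s)
      = (x - x ^ 2) ^ s * c := by
  classical
  let X : Polynomial ℤ := Polynomial.X
  let I : Ideal (Polynomial ℤ) := Ideal.span {(X - X ^ 2) ^ s}
  have h1 := isIdempotentElem_one_sub_one_sub_pow_pow (Ideal.Quotient.mk I X) s (by
    rw [← map_pow, ← map_sub, ← map_pow, Ideal.Quotient.eq_zero_iff_mem]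
    exact Ideal.subset_span rfl)
  have h2 : Ideal.Quotient.mk I ((1 - (1 - X ^ s) ^ s) * (1 - (1 - X ^ s) ^ s)
      - (1 - (1 - X ^ s) ^ s)) = 0 := by
    have h3 := h1.eq
    simp only [map_sub, map_mul, map_one, map_pow]
    rw [h3, sub_self]
  rw [Ideal.Quotient.eq_zero_iff_mem, Ideal.mem_span_singleton] at h2
  obtain ⟨c, hc⟩ := h2
  refine ⟨Polynomial.aeval x c, ?_⟩
  have h4 := congrArg (Polynomial.aeval x) hc
  simpa [X] using h4

/-- row D2: the group ring over `ZMod (p^s)` and the size of the left ideal of an idempotent -/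
theorem card_left_ideal {p : ℕ} [Fact p.Prime] {G : Type} [Group G] [Fintype G] (s : ℕ)
    (hs : 1 ≤ s) (e : MonoidAlgebra (ZMod p) G) (he : e * e = e) :
    ∃ E : MonoidAlgebra ℤ G,
      red p G E = e ∧ (∃ u : MonoidAlgebra ℤ G, E * E - E = (p : ℤ) ^ s • u) ∧
      ∃ L : Finset (MonoidAlgebra ℤ G),
        L.card ≤ Module.finrank (ZMod p) (Ideal.span {e} : Ideal (MonoidAlgebra (ZMod p) G)) ∧
        ∀ a : MonoidAlgebra ℤ G, ∃ (m : MonoidAlgebra ℤ G → ℤ) (u : MonoidAlgebra ℤ G),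
          a * E = ∑ l ∈ L, m l • l + (p : ℤ) ^ s • u := by
  classical
  obtain ⟨x, hx⟩ := d2_red_surj p G e
  obtain ⟨y, hy⟩ := d2_ker p G (x - x ^ 2) (by rw [map_sub, map_pow, hx, pow_two, he, sub_self])
  set E : MonoidAlgebra ℤ G := 1 - (1 - x ^ s) ^ s with hE
  have he' : IsIdempotentElem e := he
  have hredE : red p G E = e := by
    obtain ⟨k, rfl⟩ : ∃ k, s = k + 1 := ⟨s - 1, by omega⟩
    rw [hE, map_sub, map_one, map_pow, map_sub, map_one, map_pow, hx, he'.pow_succ_eq,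
      he'.one_sub.pow_succ_eq, sub_sub_cancel]
  obtain ⟨y', hy'⟩ : ∃ u : MonoidAlgebra ℤ G, E * E - E = (p : ℤ) ^ s • u := by
    obtain ⟨c, hc⟩ := d2_dvd x s
    refine ⟨y ^ s * c, ?_⟩
    rw [hE, hc, hy, smul_pow, smul_mul_assoc]
  have hEE : E * E = E + (p : ℤ) ^ s • y' := by rw [← hy']; abel
  refine ⟨E, hredE, ⟨y', hy'⟩, ?_⟩
  -- the basis
  set J : Ideal (MonoidAlgebra (ZMod p) G) := Ideal.span {e} with hJ
  have : Module.Finite (ZMod p) (MonoidAlgebra (ZMod p) G) := by infer_instance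
  have : Module.Finite (ZMod p) J := by
    infer_instance
  let b := Module.finBasis (ZMod p) J
  have hb : ∀ i, ∃ a : MonoidAlgebra ℤ G, red p G (a * E) = (b i : MonoidAlgebra (ZMod p) G) := by
    intro i
    have h1 : ((b i : J) : MonoidAlgebra (ZMod p) G) ∈ Ideal.span {e} := (b i).2
    obtain ⟨c, hc⟩ := Ideal.mem_span_singleton'.1 h1
    obtain ⟨a, ha⟩ := d2_red_surj p G c
    exact ⟨a, by rw [map_mul, ha, hredE, hc]⟩
  choose a0 ha0 using hb
  refine ⟨Finset.univ.image fun i => a0 i * E, ?_, ?_⟩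
  · refine Finset.card_image_le.trans ?_
    rw [Finset.card_univ, Fintype.card_fin]
  set L : Finset (MonoidAlgebra ℤ G) := Finset.univ.image fun i => a0 i * E with hL
  -- elements of the span multiplied by E
  have hspan : ∀ z ∈ Submodule.span ℤ (L : Set (MonoidAlgebra ℤ G)),
      ∃ v : MonoidAlgebra ℤ G, z * E = z + (p : ℤ) ^ s • v := by
    intro z hz
    induction hz using Submodule.span_induction with
    | mem z hz =>
      rw [hL] at hz
      simp only [Finset.coe_image, Finset.coe_univ, Set.image_univ, Set.mem_range] at hz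
      obtain ⟨i, rfl⟩ := hz
      refine ⟨a0 i * y', ?_⟩
      rw [mul_assoc, hEE, mul_add, mul_smul_comm]
    | zero => exact ⟨0, by simp⟩
    | add z1 z2 _ _ h1 h2 =>
      obtain ⟨v1, h1⟩ := h1
      obtain ⟨v2, h2⟩ := h2
      exact ⟨v1 + v2, by rw [add_mul, h1, h2, smul_add]; abel⟩
    | smul c z1 _ h1 =>
      obtain ⟨v1, h1⟩ := h1
      exact ⟨c • v1, by rw [smul_mul_assoc, h1, smul_add, smul_comm]⟩
  -- one step
  have hstep : ∀ a : MonoidAlgebra ℤ G, ∃ z ∈ Submodule.span ℤ (L : Set (MonoidAlgebra ℤ G)),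
      ∃ u v : MonoidAlgebra ℤ G, a * E = z + (p : ℤ) • (u * E) + (p : ℤ) ^ s • v := by
    intro a
    have h1 : red p G a * e ∈ J := Ideal.mul_mem_left _ _ (Ideal.subset_span rfl)
    let j : J := ⟨red p G a * e, h1⟩
    obtain ⟨f, hf⟩ : ∃ f : ZMod p → ℤ, ∀ z, ((f z : ℤ) : ZMod p) = z :=
      ⟨fun z => Classical.choose (ZMod.intCast_surjective z),
        fun z => Classical.choose_spec (ZMod.intCast_surjective z)⟩
    let z : MonoidAlgebra ℤ G := ∑ i, f (b.repr j i) • (a0 i * E)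
    have hz : z ∈ Submodule.span ℤ (L : Set (MonoidAlgebra ℤ G)) := by
      refine Submodule.sum_mem _ fun i _ => Submodule.smul_mem _ _ (Submodule.subset_span ?_)
      rw [hL]; simp
    have hred : red p G z = red p G a * e := by
      have h2 : (∑ i, (b.repr j i) • b i : J) = j := b.sum_repr j
      have h3 := congrArg (Subtype.val) h2
      have h4 : ((∑ i, (b.repr j i) • b i : J) : MonoidAlgebra (ZMod p) G)
          = ∑ i, (b.repr j i) • ((b i : J) : MonoidAlgebra (ZMod p) G) := by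
        rw [Submodule.coe_sum]
        rfl
      rw [map_sum]
      have h5 : ∀ i, red p G (f (b.repr j i) • (a0 i * E))
          = (b.repr j i) • ((b i : J) : MonoidAlgebra (ZMod p) G) := by
        intro i
        rw [map_zsmul, ha0, ← Int.cast_smul_eq_zsmul (ZMod p), hf]
      rw [Finset.sum_congr rfl (fun i _ => h5 i), ← h4]
      exact h3
    obtain ⟨u, hu⟩ := d2_ker p G (a * E - z) (by rw [map_sub, map_mul, hredE, hred, sub_self])
    obtain ⟨v, hv⟩ := hspan z hz
    refine ⟨z, hz, u, v - a * y', ?_⟩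
    have h6 : a * E = z + (p : ℤ) • u := by rw [← hu]; abel
    have h7 : a * E * E = z * E + (p : ℤ) • (u * E) := by
      rw [h6, add_mul, smul_mul_assoc]
    rw [mul_assoc, hEE, mul_add, mul_smul_comm, hv] at h7
    have h8 : a * E = z + (p : ℤ) ^ s • v + (p : ℤ) • (u * E) - (p : ℤ) ^ s • (a * y') := by
      rw [← h7]; abel
    rw [h8, smul_sub]; abel
  have hiter : ∀ k : ℕ, ∀ a : MonoidAlgebra ℤ G,
      ∃ z ∈ Submodule.span ℤ (L : Set (MonoidAlgebra ℤ G)),
      ∃ u v : MonoidAlgebra ℤ G, a * E = z + (p : ℤ) ^ k • (u * E) + (p : ℤ) ^ s • v := by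
    intro k
    induction k with
    | zero => intro a; exact ⟨0, Submodule.zero_mem _, a, 0, by simp⟩
    | succ k ih =>
      intro a
      obtain ⟨z, hz, u, v, h1⟩ := ih a
      obtain ⟨z', hz', u', v', h2⟩ := hstep u
      refine ⟨z + (p : ℤ) ^ k • z', Submodule.add_mem _ hz (Submodule.smul_mem _ _ hz'), u',
        v + (p : ℤ) ^ k • v', ?_⟩
      rw [h1, h2, smul_add, smul_add, smul_smul, ← pow_succ, smul_add, smul_comm ((p : ℤ) ^ k)
        ((p : ℤ) ^ s)]
      abel
  intro a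
  obtain ⟨z, hz, u, v, h1⟩ := hiter s a
  obtain ⟨m, -, hm⟩ := Submodule.mem_span_finset.1 hz
  exact ⟨m, u * E + v, by rw [hm, h1, smul_add]; abel⟩

end Pool.PI34.C0
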