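import Pool.Agent.LibPI34.C0Defs

set_option autoImplicit false

namespace Pool.PI34.C0

open Equiv Finset

theorem d3_zero {p : ℕ} (hp : p.Prime) (z : ℤ) (h : ∀ k : ℕ, (p : ℤ) ^ k ∣ z) : z = 0 := by
  apply Int.eq_zero_of_abs_lt_dvd (h z.natAbs)
  have h1 : z.natAbs < p ^ z.natAbs := Nat.lt_pow_self hp.one_lt
  rw [Int.abs_eq_natAbs]
  exact_mod_cast h1

/-- row D3: a subgroup of rank `f` inside a group generated by `r` elements modulo `p^s` -/
theorem rank_count {p : ℕ} (hp : p.Prime) {S : Type} [AddCommGroup S] [Module.Free ℤ S]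
    [Module.Finite ℤ S] (s t : ℕ) (hst : t < s) (L : Finset S)
    (h : ∀ y : S, ∃ (m : S → ℤ) (u : S), (p : ℤ) ^ t • y = ∑ l ∈ L, m l • l + (p : ℤ) ^ s • u) :
    Module.finrank ℤ S ≤ L.card := by
  have hp0 : (p : ℤ) ≠ 0 := by exact_mod_cast hp.ne_zero
  have key : ∀ φ : S →ₗ[ℤ] ℤ, (∀ l ∈ L, φ l = 0) → ∀ y, φ y = 0 := by
    intro φ hφ
    have hdiv : ∀ k : ℕ, ∀ y, (p : ℤ) ^ k ∣ φ y := by
      intro k
      induction k with
      | zero => intro y; simp
      | succ k ih =>
        intro y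
        obtain ⟨m, u, hu⟩ := h y
        have h1 := congrArg φ hu
        rw [map_smul, map_add, map_sum, map_smul] at h1
        have h2 : ∑ l ∈ L, φ (m l • l) = 0 :=
          Finset.sum_eq_zero (fun l hl => by rw [map_smul, hφ l hl, smul_zero])
        rw [h2, zero_add, smul_eq_mul, smul_eq_mul] at h1
        have h3 : (p : ℤ) ^ s = (p : ℤ) ^ t * (p : ℤ) ^ (s - t) := by
          rw [← pow_add]; congr 1; omega
        rw [h3, mul_assoc] at h1
        have h4 := mul_left_cancel₀ (pow_ne_zero t hp0) h1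
        rw [h4, pow_succ']
        apply mul_dvd_mul _ (ih u)
        exact dvd_pow_self _ (by omega)
    intro y
    exact d3_zero hp _ (fun k => hdiv k y)
  let F : (S →ₗ[ℤ] ℤ) →ₗ[ℤ] (L → ℤ) :=
    { toFun := fun φ l => φ l
      map_add' := fun _ _ => rfl
      map_smul' := fun _ _ => rfl }
  have hF : Function.Injective F := by
    rw [← LinearMap.ker_eq_bot, LinearMap.ker_eq_bot']
    intro φ hφ
    ext y
    apply key φ _ y
    intro l hl
    exact congrFun hφ ⟨l, hl⟩
  have h1 := LinearMap.finrank_le_finrank_of_injective hF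
  rw [Module.finrank_linearMap_self, Module.finrank_fintype_fun_eq_card, Fintype.card_coe] at h1
  exact h1

end Pool.PI34.C0
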