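import Pool.Agent.LibPI34.C0_D1
import Pool.Agent.LibPI34.C0_D2
import Pool.Agent.LibPI34.C0_D3

set_option autoImplicit false

namespace Pool.PI34.C0

open Equiv Finset

/-- the representation as an algebra homomorphism -/
noncomputable def d4_R {G : Type} [Group G] {S : Type} [AddCommGroup S]
    (ρ : G →* (S →ₗ[ℤ] S)) : MonoidAlgebra ℤ G →ₐ[ℤ] Module.End ℤ S :=
  MonoidAlgebra.lift ℤ (Module.End ℤ S) G ρ

theorem d4_R_single {G : Type} [Group G] {S : Type} [AddCommGroup S]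
    (ρ : G →* (S →ₗ[ℤ] S)) (g : G) (a : ℤ) (y : S) :
    d4_R ρ (MonoidAlgebra.single g a) y = a • ρ g y := by
  unfold d4_R
  rw [MonoidAlgebra.lift_single]
  rfl

/-- the augmentation by an integral sign character -/
noncomputable def d4_A {G : Type} [Group G] (χ : G →* ℤˣ) : MonoidAlgebra ℤ G →ₐ[ℤ] ℤ :=
  MonoidAlgebra.lift ℤ ℤ G ((Units.coeHom ℤ).comp χ)

theorem d4_A_single {G : Type} [Group G] (χ : G →* ℤˣ) (g : G) (a : ℤ) :
    d4_A χ (MonoidAlgebra.single g a) = a * ((χ g : ℤˣ) : ℤ) := by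
  unfold d4_A
  rw [MonoidAlgebra.lift_single]
  rfl

theorem d4_red_single {G : Type} [Group G] (p : ℕ) (g : G) (a : ℤ) :
    red p G (MonoidAlgebra.single g a) = MonoidAlgebra.single g (a : ZMod p) := by
  simp [red]

theorem d4_A_red {p : ℕ} [Fact p.Prime] {G : Type} [Group G] (χ : G →* ℤˣ)
    (E : MonoidAlgebra ℤ G) :
    MonoidAlgebra.lift (ZMod p) (ZMod p) G (chiP p χ) (red p G E) = ((d4_A χ E : ℤ) : ZMod p) := by
  induction E using MonoidAlgebra.induction_linear with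
  | zero => simp
  | add f g hf hg => simp only [map_add, hf, hg, Int.cast_add]
  | single g a =>
    rw [d4_red_single, d4_A_single, MonoidAlgebra.lift_single]
    simp [chiP]

theorem d4_R_sub {p : ℕ} {G : Type} [Group G] {S : Type} [AddCommGroup S]
    (ρ : G →* (S →ₗ[ℤ] S)) (χ : G →* ℤˣ) (v : S)
    (hinv : ∀ g, ∃ u : S, ρ g v - ((χ g : ℤˣ) : ℤ) • v = (p : ℤ) • u)
    (E : MonoidAlgebra ℤ G) :
    ∃ u : S, d4_R ρ E v - d4_A χ E • v = (p : ℤ) • u := by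
  induction E using MonoidAlgebra.induction_linear with
  | zero => exact ⟨0, by simp⟩
  | add f g hf hg =>
    obtain ⟨u1, h1⟩ := hf
    obtain ⟨u2, h2⟩ := hg
    refine ⟨u1 + u2, ?_⟩
    rw [smul_add, ← h1, ← h2]
    simp only [map_add, LinearMap.add_apply, add_smul]
    abel
  | single g a =>
    obtain ⟨u, hu⟩ := hinv g
    refine ⟨a • u, ?_⟩
    rw [d4_R_single, d4_A_single, smul_comm (p : ℤ) a u, ← hu, smul_sub, mul_smul]

/-- row D4: assembly of D1, D2, D3 -/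
theorem rank_le_dim {p : ℕ} [Fact p.Prime] {G : Type} [Group G] [Fintype G]
    {S : Type} [AddCommGroup S] [Module.Free ℤ S] [Module.Finite ℤ S]
    (ρ : G →* (S →ₗ[ℤ] S)) (χ : G →* ℤˣ)
    (hEnd : ∀ T : S →ₗ[ℤ] S, (∀ g, T ∘ₗ ρ g = ρ g ∘ₗ T) → ∃ c : ℤ, ∀ s, T s = c • s)
    (v : S) (hv : ∀ u : S, v ≠ (p : ℤ) • u)
    (hinv : ∀ g, ∃ u : S, ρ g v - ((χ g : ℤˣ) : ℤ) • v = (p : ℤ) • u)
    (e : MonoidAlgebra (ZMod p) G) (he : e * e = e)
    (hχ : MonoidAlgebra.lift (ZMod p) (ZMod p) G (chiP p χ) e = 1) :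
    Module.finrank ℤ S ≤
      Module.finrank (ZMod p) (Ideal.span {e} : Ideal (MonoidAlgebra (ZMod p) G)) := by
  classical
  have hp : p.Prime := Fact.out
  set N : ℕ := Fintype.card G with hN
  have hN0 : N ≠ 0 := Fintype.card_ne_zero
  obtain ⟨t, N', hN'p, hNt⟩ := Nat.exists_eq_pow_mul_and_not_dvd hN0 p hp.ne_one
  obtain ⟨E, hredE, ⟨uE, huE⟩, L, hLcard, hL⟩ := card_left_ideal (t + 1) (by omega) e he
  refine le_trans ?_ hLcard
  -- the vector w
  set w : S := d4_R ρ E v with hw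
  have hwv : ∃ u : S, w = v + (p : ℤ) • u := by
    obtain ⟨u, hu⟩ := d4_R_sub (p := p) ρ χ v hinv E
    have h1 : ((d4_A χ E : ℤ) : ZMod p) = ((1 : ℤ) : ZMod p) := by
      rw [← d4_A_red, hredE, hχ]; simp
    have h2 : (p : ℤ) ∣ d4_A χ E - 1 := by
      have h3 := (ZMod.intCast_eq_intCast_iff_dvd_sub _ _ _).mp h1.symm
      exact h3
    obtain ⟨k, hk⟩ := h2
    refine ⟨u + k • v, ?_⟩
    have h4 : d4_A χ E = 1 + (p : ℤ) * k := by linarith
    have h5 : w = d4_A χ E • v + (p : ℤ) • u := by rw [← hu]; abel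
    rw [h5, h4, add_smul, one_smul, mul_smul, smul_add]
    abel
  have hwp : ∀ u : S, w ≠ (p : ℤ) • u := by
    intro u hu
    obtain ⟨u', hu'⟩ := hwv
    refine hv (u - u') ?_
    rw [smul_sub, ← hu, hu']
    abel
  -- a coordinate
  obtain ⟨φ, hφ⟩ : ∃ φ : S →ₗ[ℤ] ℤ, ¬ (p : ℤ) ∣ φ w := by
    by_contra hcon
    push Not at hcon
    let b := Module.Free.chooseBasis ℤ S
    choose k hk using fun i => hcon (b.coord i)
    refine hwp (∑ i, k i • b i) ?_
    rw [Finset.smul_sum]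
    conv_lhs => rw [← b.sum_repr w]
    refine Finset.sum_congr rfl fun i _ => ?_
    rw [smul_smul, ← hk i]
    rfl
  obtain ⟨c, hc, hcy⟩ := averaging ρ hEnd w φ
  -- valuation of c
  have hcN : c ≠ 0 ∧ ¬ (p : ℤ) ^ (t + 1) ∣ c := by
    have h1 : ¬ (p : ℤ) ^ (t + 1) ∣ (N : ℤ) * φ w := by
      intro h
      rw [hNt] at h
      push_cast at h
      rw [pow_succ, mul_assoc] at h
      have h2 := Int.dvd_of_mul_dvd_mul_left (a := (p : ℤ) ^ t)
        (by have := hp.pos; positivity) h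
      rcases Int.Prime.dvd_mul' hp h2 with h3 | h3
      · exact hN'p (by exact_mod_cast h3)
      · exact hφ h3
    constructor
    · rintro rfl
      rw [zero_mul] at hc
      exact h1 (hc ▸ dvd_zero _)
    · intro h
      exact h1 (hc ▸ Dvd.dvd.mul_right h _)
  obtain ⟨hc0, hct⟩ := hcN
  obtain ⟨k, c', hc'p, hck⟩ : ∃ (k : ℕ) (c' : ℤ), ¬ (p : ℤ) ∣ c' ∧ c = (p : ℤ) ^ k * c' := by
    have hfin : FiniteMultiplicity (p : ℤ) c := by
      rw [Int.finiteMultiplicity_iff]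
      refine ⟨?_, hc0⟩
      simpa using hp.ne_one
    obtain ⟨c', h1, h2⟩ := hfin.exists_eq_pow_mul_and_not_dvd
    exact ⟨_, c', h2, h1⟩
  have hkt : k ≤ t := by
    by_contra hcon
    push Not at hcon
    refine hct ?_
    rw [hck]
    exact Dvd.dvd.mul_right (pow_dvd_pow _ hcon) _
  have hcop : IsCoprime c' ((p : ℤ) ^ (t + 1)) := by
    refine IsCoprime.pow_right ?_
    rw [Int.isCoprime_iff_gcd_eq_one, Int.gcd_comm]
    exact (Int.isCoprime_iff_gcd_eq_one.mp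
      ((Int.prime_iff_natAbs_prime.mpr (by simpa using hp)).coprime_iff_not_dvd.mpr hc'p))
  obtain ⟨α, β, hαβ⟩ := hcop
  -- the set of images
  set L' : Finset S := L.image fun l => d4_R ρ l v with hL'
  refine le_trans (rank_count hp (S := S) (t + 1) t (Nat.lt_succ_self t) L' ?_)
    Finset.card_image_le
  intro y
  obtain ⟨m, u, hmu⟩ := hL (∑ g : G, MonoidAlgebra.single g⁻¹ (φ (ρ g y)))
  have h1 : c • y = ∑ l ∈ L, m l • d4_R ρ l v + (p : ℤ) ^ (t + 1) • d4_R ρ u v := by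
    rw [← hcy y]
    have h2 : d4_R ρ ((∑ g : G, MonoidAlgebra.single g⁻¹ (φ (ρ g y))) * E) v
        = ∑ g : G, φ (ρ g y) • ρ g⁻¹ w := by
      rw [map_mul, Module.End.mul_apply, map_sum, LinearMap.sum_apply]
      exact Finset.sum_congr rfl fun g _ => d4_R_single _ _ _ _
    rw [← h2, hmu, map_add, map_sum, LinearMap.add_apply, LinearMap.sum_apply, map_smul,
      LinearMap.smul_apply]
    congr 1
    refine Finset.sum_congr rfl fun l _ => ?_
    rw [map_smul, LinearMap.smul_apply]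
  refine ⟨fun s => ∑ l ∈ L.filter (fun l => d4_R ρ l v = s), (p : ℤ) ^ (t - k) * α * m l,
    (p : ℤ) ^ (t - k) • α • d4_R ρ u v + (p : ℤ) ^ t • β • y, ?_⟩
  have h3 : ∑ s ∈ L', (∑ l ∈ L.filter (fun l => d4_R ρ l v = s), (p : ℤ) ^ (t - k) * α * m l) • s
      = ∑ l ∈ L, ((p : ℤ) ^ (t - k) * α * m l) • d4_R ρ l v := by
    rw [hL', ← Finset.sum_fiberwise_of_maps_to (s := L) (t := L.image fun l => d4_R ρ l v)
      (g := fun l => d4_R ρ l v) (fun l hl => Finset.mem_image_of_mem _ hl)]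
    refine Finset.sum_congr rfl fun s _ => ?_
    rw [Finset.sum_smul]
    refine Finset.sum_congr rfl fun l hl => ?_
    rw [(Finset.mem_filter.mp hl).2]
  rw [h3]
  have h4 : ∑ l ∈ L, ((p : ℤ) ^ (t - k) * α * m l) • d4_R ρ l v
      = ((p : ℤ) ^ (t - k) * α) • (c • y - (p : ℤ) ^ (t + 1) • d4_R ρ u v) := by
    rw [h1, add_sub_cancel_right, Finset.smul_sum]
    refine Finset.sum_congr rfl fun l _ => ?_
    rw [mul_smul ((p : ℤ) ^ (t - k) * α)]
  rw [h4, smul_add, smul_sub, smul_smul _ c y]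
  have h5 : (p : ℤ) ^ t • y = ((p : ℤ) ^ (t - k) * α * c) • y
      + (p : ℤ) ^ (t + 1) • (p : ℤ) ^ t • β • y := by
    rw [smul_smul, smul_smul, ← add_smul]
    congr 1
    have h6 : (p : ℤ) ^ (t - k) * (p : ℤ) ^ k = (p : ℤ) ^ t := by
      rw [← pow_add]; congr 1; omega
    calc (p : ℤ) ^ t = (p : ℤ) ^ t * (α * c' + β * (p : ℤ) ^ (t + 1)) := by rw [hαβ, mul_one]
      _ = ((p : ℤ) ^ (t - k) * (p : ℤ) ^ k) * α * c' + (p : ℤ) ^ t * (β * (p : ℤ) ^ (t + 1)) := by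
          rw [h6]; ring
      _ = (p : ℤ) ^ (t - k) * α * c + (p : ℤ) ^ (t + 1) * (p : ℤ) ^ t * β := by
          rw [hck]; ring
  rw [h5]
  have h7 : ((p : ℤ) ^ (t - k) * α) • (p : ℤ) ^ (t + 1) • d4_R ρ u v
      = (p : ℤ) ^ (t + 1) • (p : ℤ) ^ (t - k) • α • d4_R ρ u v := by
    simp only [smul_smul]
    congr 1
    ring
  rw [h7]
  abel

end Pool.PI34.C0
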