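import Pool.Agent.LibPI34.C0Defs

set_option autoImplicit false

namespace Pool.PI34.C0

open Equiv Finset

variable {n r b : ℕ}

/-- row E1 -/
theorem eb_swap (β : Fin n ≃ Fin r × Fin b) (w : Fin n → Fin r) (x y : Fin n) (hxy : x ≠ y)
    (hc : (β x).2 = (β y).2) : eb β (w ∘ swap x y) = - eb β w := by
  have hi : (β x).1 ≠ (β y).1 := fun h => hxy (β.injective (Prod.ext h hc))
  unfold eb
  rw [← Finset.mul_prod_erase _ _ (Finset.mem_univ (β x).2),
    ← Finset.mul_prod_erase (s := univ) (f := fun c : Fin b =>
      (Matrix.of fun i j : Fin r => if w (β.symm (i, c)) = j then (1 : ℤ) else 0).det)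
      (Finset.mem_univ (β x).2), ← neg_mul]
  congr 1
  · have h1 : (Matrix.of fun i j : Fin r =>
        if (w ∘ swap x y) (β.symm (i, (β x).2)) = j then (1 : ℤ) else 0)
        = (Matrix.of fun i j : Fin r =>
          if w (β.symm (i, (β x).2)) = j then (1 : ℤ) else 0).submatrix
            (swap (β x).1 (β y).1) id := by
      ext a j
      have h2 : swap x y (β.symm (a, (β x).2)) = β.symm (swap (β x).1 (β y).1 a, (β x).2) := by
        by_cases ha : a = (β x).1
        · subst ha
          rw [swap_apply_left]
          have h3 : β.symm ((β x).1, (β x).2) = x := β.symm_apply_apply x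
          have h4 : β.symm ((β y).1, (β x).2) = y := by
            rw [hc]
            exact β.symm_apply_apply y
          rw [h3, h4, swap_apply_left]
        · by_cases hb : a = (β y).1
          · subst hb
            rw [swap_apply_right]
            have h3 : β.symm ((β x).1, (β x).2) = x := β.symm_apply_apply x
            have h4 : β.symm ((β y).1, (β x).2) = y := by
              rw [hc]
              exact β.symm_apply_apply y
            rw [h3, h4, swap_apply_right]
          · rw [swap_apply_of_ne_of_ne ha hb, swap_apply_of_ne_of_ne]
            · intro h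
              apply ha
              rw [← h, β.apply_symm_apply]
            · intro h
              apply hb
              rw [← h, β.apply_symm_apply]
      simp only [Matrix.of_apply, Function.comp_apply, Matrix.submatrix_apply, id_eq, h2]
    rw [h1, Matrix.det_permute, Perm.sign_swap hi]
    simp
  · refine Finset.prod_congr rfl fun c hc' => ?_
    have hcx : c ≠ (β x).2 := Finset.ne_of_mem_erase hc'
    congr 2
    funext i j
    have h2 : swap x y (β.symm (i, c)) = β.symm (i, c) := by
      apply swap_apply_of_ne_of_ne
      · intro h
        apply hcx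
        rw [← h, β.apply_symm_apply]
      · intro h
        apply hcx
        rw [hc, ← h, β.apply_symm_apply]
    rw [Function.comp_apply, h2]

/-- row E1 -/
theorem eb_act (β : Fin n ≃ Fin r × Fin b) (σ : Perm (Fin n)) :
    act σ (eb β) = eb (σ.symm.trans β) := by
  funext w
  rfl

/-- row E1 -/
theorem eb_bal (β : Fin n ≃ Fin r × Fin b) (w : Fin n → Fin r) (h : eb β w ≠ 0) : Bal b w := by
  intro j
  unfold eb at h
  rw [Finset.prod_ne_zero_iff] at h
  have hinj : ∀ c : Fin b, Function.Injective fun i : Fin r => w (β.symm (i, c)) := by
    intro c i i' hii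
    by_contra hne
    apply h c (Finset.mem_univ c)
    apply Matrix.det_zero_of_row_eq hne
    funext a
    simp only [Matrix.of_apply]
    have : w (β.symm (i, c)) = w (β.symm (i', c)) := hii
    rw [this]
  have hbij : ∀ c : Fin b, ∃ i : Fin r, w (β.symm (i, c)) = j ∧
      ∀ i', w (β.symm (i', c)) = j → i' = i := by
    intro c
    obtain ⟨i, hi⟩ := (Finite.injective_iff_surjective.mp (hinj c)) j
    exact ⟨i, hi, fun i' hi' => hinj c (hi'.trans hi.symm)⟩
  choose g hg hg' using hbij
  unfold cnt
  have h1 : (univ.filter fun x : Fin n => x.val < n ∧ w x = j)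
      = univ.image fun c : Fin b => β.symm (g c, c) := by
    ext x
    simp only [mem_filter, mem_univ, true_and, mem_image]
    constructor
    · rintro ⟨_, hx⟩
      refine ⟨(β x).2, ?_⟩
      have h2 : g (β x).2 = (β x).1 := by
        symm
        apply hg'
        rw [show ((β x).1, (β x).2) = β x from rfl, β.symm_apply_apply]
        exact hx
      rw [h2, show ((β x).1, (β x).2) = β x from rfl, β.symm_apply_apply]
    · rintro ⟨c, rfl⟩
      exact ⟨(β.symm (g c, c)).2, hg c⟩
  rw [h1, Finset.card_image_of_injective, Finset.card_univ, Fintype.card_fin]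
  intro c c' hcc
  have := β.symm.injective hcc
  exact congrArg Prod.snd this

end Pool.PI34.C0
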