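import Pool.Agent.LibPI34.C0_E1

set_option autoImplicit false

namespace Pool.PI34.C0

open Equiv Finset

variable {n r b : ℕ}

theorem e2_map_mem (E : Finset (Fin n)) {x y : Fin n} (hx : x ∈ E) (hy : y ∈ E) (u : Fin n) :
    swap x y u ∈ E ↔ u ∈ E := by
  by_cases h1 : u = x
  · subst h1; simp [hx, hy]
  by_cases h2 : u = y
  · subst h2; simp [hx, hy]
  rw [swap_apply_of_ne_of_ne h1 h2]

theorem e2_word (i i' : Fin r) (E Z : Finset (Fin n)) (w : Fin n → Fin r) {x y : Fin n}
    (hx : x ∈ E) (hy : y ∈ E) :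
    (fun u => if u ∈ Z.map (swap x y).toEmbedding then i' else if u ∈ E then i else w u) =
      (fun u => if u ∈ Z then i' else if u ∈ E then i else w u) ∘ swap x y := by
  funext u
  have h1 : u ∈ Z.map (swap x y).toEmbedding ↔ swap x y u ∈ Z := by
    rw [Finset.mem_map]
    constructor
    · rintro ⟨v, hv, rfl⟩
      simpa using hv
    · intro h
      exact ⟨swap x y u, h, by simp⟩
  have h2 := e2_map_mem E hx hy u
  have h3 : u ∉ E → w (swap x y u) = w u := by
    intro hu
    rw [swap_apply_of_ne_of_ne]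
    · rintro rfl; exact hu hx
    · rintro rfl; exact hu hy
  simp only [Function.comp_apply, h1, h2]
  by_cases hZ : swap x y u ∈ Z
  · simp [hZ]
  · by_cases hE : u ∈ E
    · simp [hZ, hE]
    · simp [hZ, hE, h3 hE]

/-- row E2: relation G -/
theorem eb_rel (β : Fin n ≃ Fin r × Fin b) (i i' : Fin r) (E : Finset (Fin n))
    (hE : b < E.card) (a : ℕ) (w : Fin n → Fin r) :
    ∑ Z ∈ E.powersetCard a, eb β (fun x => if x ∈ Z then i' else if x ∈ E then i else w x) = 0 := by
  classical
  obtain ⟨x, hx, y, hy, hxy, hc⟩ : ∃ x ∈ E, ∃ y ∈ E, x ≠ y ∧ (β x).2 = (β y).2 :=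
    Finset.exists_ne_map_eq_of_card_lt_of_maps_to (t := (univ : Finset (Fin b)))
      (by simpa using hE) (fun _ _ => mem_univ _)
  have key : ∑ Z ∈ E.powersetCard a,
        eb β (fun x => if x ∈ Z then i' else if x ∈ E then i else w x) =
      ∑ Z ∈ E.powersetCard a,
        - eb β (fun x => if x ∈ Z then i' else if x ∈ E then i else w x) := by
    refine Finset.sum_nbij' (fun Z => Z.map (swap x y).toEmbedding)
      (fun Z => Z.map (swap x y).toEmbedding) ?_ ?_ ?_ ?_ ?_
    · intro Z hZ
      rw [mem_powersetCard] at hZ ⊢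
      refine ⟨?_, by rw [card_map]; exact hZ.2⟩
      intro u hu
      rw [Finset.mem_map] at hu
      obtain ⟨v, hv, rfl⟩ := hu
      exact (e2_map_mem E hx hy v).2 (hZ.1 hv)
    · intro Z hZ
      rw [mem_powersetCard] at hZ ⊢
      refine ⟨?_, by rw [card_map]; exact hZ.2⟩
      intro u hu
      rw [Finset.mem_map] at hu
      obtain ⟨v, hv, rfl⟩ := hu
      exact (e2_map_mem E hx hy v).2 (hZ.1 hv)
    · intro Z _
      ext u
      simp [Finset.mem_map]
    · intro Z _
      ext u
      simp [Finset.mem_map]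
    · intro Z _
      rw [e2_word i i' E Z w hx hy, eb_swap β _ x y hxy hc, neg_neg]
  rw [Finset.sum_neg_distrib] at key
  omega

end Pool.PI34.C0
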