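import Pool.Agent.LibPI34.C0Defs

set_option autoImplicit false

namespace Pool.PI34.C0

open Equiv Finset

variable {n r b : ℕ}

theorem e3_mono (s : Fin n → Fin r) {k k' : ℕ} (h : k ≤ k') (j : Fin r) :
    cnt s k j ≤ cnt s k' j := by
  unfold cnt
  refine Finset.card_le_card ?_
  intro x hx
  simp only [Finset.mem_filter, Finset.mem_univ, true_and] at hx ⊢
  exact ⟨lt_of_lt_of_le hx.1 h, hx.2⟩

theorem e3_succ_self (s : Fin n → Fin r) (x : Fin n) :
    cnt s (x.val + 1) (s x) = cnt s x.val (s x) + 1 := by
  unfold cnt
  have h : (univ.filter fun y : Fin n => y.val < x.val + 1 ∧ s y = s x) =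
      insert x (univ.filter fun y : Fin n => y.val < x.val ∧ s y = s x) := by
    ext y
    simp only [Finset.mem_filter, Finset.mem_univ, true_and, Finset.mem_insert]
    constructor
    · rintro ⟨h1, h2⟩
      rcases Nat.lt_succ_iff_lt_or_eq.1 h1 with h3 | h3
      · exact Or.inr ⟨h3, h2⟩
      · exact Or.inl (Fin.ext h3)
    · rintro (h1 | ⟨h1, h2⟩)
      · subst h1; exact ⟨Nat.lt_succ_self _, rfl⟩
      · exact ⟨Nat.lt_succ_of_lt h1, h2⟩
  rw [h, Finset.card_insert_of_notMem (by simp)]

theorem e3_succ_ne (s : Fin n → Fin r) (x : Fin n) (j : Fin r) (hj : s x ≠ j) :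
    cnt s (x.val + 1) j = cnt s x.val j := by
  unfold cnt
  congr 1
  ext y
  simp only [Finset.mem_filter, Finset.mem_univ, true_and]
  constructor
  · rintro ⟨h1, h2⟩
    rcases Nat.lt_succ_iff_lt_or_eq.1 h1 with h3 | h3
    · exact ⟨h3, h2⟩
    · exact absurd (by rw [← Fin.ext h3]; exact h2) hj
  · rintro ⟨h1, h2⟩
    exact ⟨Nat.lt_succ_of_lt h1, h2⟩

theorem e3_lt (s : Fin n → Fin r) (hs : Bal b s) (x : Fin n) : cnt s x.val (s x) < b := by
  have h1 := e3_succ_self s x
  have h2 := e3_mono s (k := x.val + 1) (k' := n) x.isLt (s x)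
  have h3 := hs (s x)
  omega

/-- the position map of the word `s` -/
def e3_f (s : Fin n → Fin r) (hs : Bal b s) (x : Fin n) : Fin r × Fin b :=
  (s x, ⟨cnt s x.val (s x), e3_lt s hs x⟩)

theorem e3_inj (s : Fin n → Fin r) (hs : Bal b s) : Function.Injective (e3_f s hs) := by
  have key : ∀ x y : Fin n, e3_f s hs x = e3_f s hs y → ¬ x < y := by
    intro x y hxy hlt
    have h1 : s x = s y := congrArg Prod.fst hxy
    have h2 : cnt s x.val (s x) = cnt s y.val (s y) :=
      congrArg Fin.val (congrArg Prod.snd hxy)
    have h3 := e3_succ_self s x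
    have h4 := e3_mono s (k := x.val + 1) (k' := y.val) hlt (s x)
    rw [← h1] at h2
    omega
  intro x y hxy
  rcases lt_trichotomy x y with h | h | h
  · exact absurd h (key x y hxy)
  · exact h
  · exact absurd h (key y x hxy.symm)

theorem e3_card (s : Fin n → Fin r) (hs : Bal b s) : n = r * b := by
  have h : (univ : Finset (Fin n)).card = ∑ j : Fin r, (univ.filter fun x => s x = j).card :=
    Finset.card_eq_sum_card_fiberwise (fun x _ => Finset.mem_univ (s x))
  have h2 : ∀ j : Fin r, (univ.filter fun x => s x = j).card = b := by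
    intro j
    have := hs j
    unfold cnt at this
    rw [← this]
    congr 1
    ext x
    simp
  rw [Finset.card_univ, Fintype.card_fin, Finset.sum_congr rfl (fun j _ => h2 j)] at h
  simpa using h

theorem e3_bij (s : Fin n → Fin r) (hs : Bal b s) : Function.Bijective (e3_f s hs) := by
  rw [Fintype.bijective_iff_injective_and_card]
  refine ⟨e3_inj s hs, ?_⟩
  rw [Fintype.card_prod, Fintype.card_fin, Fintype.card_fin, Fintype.card_fin]
  exact e3_card s hs

/-- if `e_β(T) ≠ 0` the letters of a column are distinct -/
theorem e3_col (β : Fin n ≃ Fin r × Fin b) (T : Fin n → Fin r) (h : eb β T ≠ 0) (c : Fin b)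
    (i i' : Fin r) (hi : i ≠ i') : T (β.symm (i, c)) ≠ T (β.symm (i', c)) := by
  intro heq
  apply h
  unfold eb
  refine Finset.prod_eq_zero (Finset.mem_univ c) ?_
  refine Matrix.det_zero_of_row_eq hi ?_
  funext j
  simp only [Matrix.of_apply, heq]

/-- row E3: triangularity -/
theorem exists_beta (s : Fin n → Fin r) (hs : Bal b s) (hb : Ballot s) :
    ∃ β : Fin n ≃ Fin r × Fin b, eb β s = 1 ∧ ∀ T : Fin n → Fin r, eb β T ≠ 0 → T = s ∨ LexLT s T := by
  refine ⟨Equiv.ofBijective (e3_f s hs) (e3_bij s hs), ?_, ?_⟩
  · set β := Equiv.ofBijective (e3_f s hs) (e3_bij s hs) with hβ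
    have hfst : ∀ z : Fin r × Fin b, s (β.symm z) = z.1 := by
      intro z
      have h1 : β (β.symm z) = z := β.apply_symm_apply z
      have h2 : (β (β.symm z)).1 = s (β.symm z) := rfl
      rw [← h2, h1]
    unfold eb
    refine Finset.prod_eq_one ?_
    intro c _
    have h1 : (Matrix.of fun i j : Fin r => if s (β.symm (i, c)) = j then (1 : ℤ) else 0) = 1 := by
      ext i j
      rw [Matrix.of_apply, hfst, Matrix.one_apply]
    rw [h1, Matrix.det_one]
  · intro T hT
    set β := Equiv.ofBijective (e3_f s hs) (e3_bij s hs) with hβ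
    by_cases hTs : T = s
    · exact Or.inl hTs
    · right
      have hne : (univ.filter fun x : Fin n => T x ≠ s x).Nonempty := by
        by_contra hcon
        apply hTs
        funext x
        by_contra hx
        exact hcon ⟨x, by simp [hx]⟩
      set x := (univ.filter fun x : Fin n => T x ≠ s x).min' hne with hx
      have hxT : T x ≠ s x := by
        have := Finset.min'_mem _ hne
        rw [← hx] at this
        exact (Finset.mem_filter.1 this).2
      have hmin : ∀ y, y < x → T y = s y := by
        intro y hy
        by_contra hcon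
        have : x ≤ y := Finset.min'_le _ y (by simp [hcon])
        exact absurd hy (not_lt.2 this)
      refine ⟨x, fun j hj => (hmin j hj).symm, ?_⟩
      have hβx : β x = (s x, (β x).2) := rfl
      have hall : ∀ i' : Fin r, i' < s x → T x ≠ i' := by
        intro i' hi'
        set y := β.symm (i', (β x).2) with hy
        have hβy : β y = (i', (β x).2) := β.apply_symm_apply _
        have hsy : s y = i' := congrArg Prod.fst hβy
        have hcy : cnt s y.val (s y) = cnt s x.val (s x) :=
          congrArg Fin.val (congrArg Prod.snd hβy)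
        have hyx : y < x := by
          by_contra hcon
          have hle : x.val ≤ y.val := not_lt.1 hcon
          have h1 := e3_mono s hle i'
          have h2 := hb (x.val + 1) i' (s x) hi'.le
          have h3 := e3_succ_self s x
          have h4 := e3_succ_ne s x i' (ne_of_gt hi')
          rw [hsy] at hcy
          omega
        have h5 : T y = i' := by rw [hmin y hyx, hsy]
        have h6 := e3_col β T hT (β x).2 (s x) i' (ne_of_gt hi')
        rw [← hβx, β.symm_apply_apply, ← hy, h5] at h6
        exact h6
      by_contra hcon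
      rcases lt_or_eq_of_le (not_lt.1 hcon) with h | h
      · exact hall (T x) h rfl
      · exact hxT h

end Pool.PI34.C0
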