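import Pool.Agent.LibPI34.C0Defs

set_option autoImplicit false

namespace Pool.PI34.C0

open Equiv Finset

variable {n r b : ℕ}

theorem e4_cnt_mono (w : Fin n → Fin r) (m : ℕ) (j : Fin r) : cnt w m j ≤ cnt w (m + 1) j := by
  unfold cnt
  apply card_le_card
  intro x hx
  simp only [mem_filter, mem_univ, true_and] at hx ⊢
  exact ⟨by omega, hx.2⟩

theorem e4_cnt_succ_le (w : Fin n → Fin r) (m : ℕ) (j : Fin r) :
    cnt w (m + 1) j ≤ cnt w m j + 1 := by
  unfold cnt
  have h1 : (univ.filter fun x : Fin n => x.val < m + 1 ∧ w x = j) ⊆
      (univ.filter fun x : Fin n => x.val < m ∧ w x = j) ∪ (univ.filter fun x : Fin n => x.val = m) := by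
    intro x hx
    simp only [mem_filter, mem_univ, true_and, mem_union] at hx ⊢
    rcases Nat.lt_or_ge x.val m with h | h
    · exact Or.inl ⟨h, hx.2⟩
    · exact Or.inr (by omega)
  have h2 : (univ.filter fun x : Fin n => x.val = m).card ≤ 1 := by
    rw [card_le_one]
    intro a ha c hc
    simp only [mem_filter, mem_univ, true_and] at ha hc
    exact Fin.ext (ha.trans hc.symm)
  calc _ ≤ _ := card_le_card h1
    _ ≤ _ := card_union_le _ _
    _ ≤ _ := by omega

theorem e4_cnt_le (w : Fin n → Fin r) (k : ℕ) (j : Fin r) : cnt w k j ≤ cnt w n j := by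
  unfold cnt
  apply card_le_card
  intro x hx
  simp only [mem_filter, mem_univ, true_and] at hx ⊢
  exact ⟨x.2, hx.2⟩

theorem e4_anti (w : Fin n → Fin r) (k : ℕ)
    (h : ∀ i i' : Fin r, i'.val = i.val + 1 → cnt w k i' ≤ cnt w k i) :
    ∀ d : ℕ, ∀ i j : Fin r, j.val = i.val + d → cnt w k j ≤ cnt w k i := by
  intro d
  induction d with
  | zero =>
    intro i j hij
    have : j = i := Fin.ext (by omega)
    rw [this]
  | succ d ih =>
    intro i j hij
    have hj := j.2
    have hlt : i.val + d < r := by omega
    have h1 := ih i ⟨i.val + d, hlt⟩ rfl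
    have h2 := h ⟨i.val + d, hlt⟩ j (by simp only; omega)
    exact le_trans h2 h1

/-- the count of a letter in the modified word -/
theorem e4_count (w : Fin n → Fin r) (i i' : Fin r) (hne : i ≠ i') (E Z : Finset (Fin n))
    (hZ : Z ⊆ E) (l : Fin r) :
    cnt (fun x => if x ∈ Z then i' else if x ∈ E then i else w x) n l =
      (univ.filter fun x : Fin n => x ∉ E ∧ w x = l).card + (if l = i' then Z.card else 0) +
        (if l = i then E.card - Z.card else 0) := by
  have h0 : cnt (fun x => if x ∈ Z then i' else if x ∈ E then i else w x) n l =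
      (univ.filter fun x : Fin n =>
        (if x ∈ Z then i' else if x ∈ E then i else w x) = l).card := by
    unfold cnt
    congr 1
    ext x
    simp [x.2]
  have h1 : (univ.filter fun x : Fin n =>
        (if x ∈ Z then i' else if x ∈ E then i else w x) = l) =
      ((univ.filter fun x : Fin n => x ∉ E ∧ w x = l) ∪ (if l = i' then Z else ∅)) ∪
        (if l = i then E \ Z else ∅) := by
    ext x
    simp only [mem_filter, mem_univ, true_and, mem_union]
    by_cases hxZ : x ∈ Z
    · have hxE := hZ hxZ
      simp only [hxZ, if_true, hxE, not_true_eq_false, false_and, false_or]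
      by_cases h1 : l = i'
      · subst h1
        simp [hxZ]
      · have h2 : ¬ i' = l := fun h => h1 h.symm
        simp only [h2, h1, if_false, notMem_empty, false_or, false_iff]
        by_cases h3 : l = i
        · simp [h3, hxZ]
        · simp [h3]
    · by_cases hxE : x ∈ E
      · simp only [hxZ, if_false, hxE, if_true, not_true_eq_false, false_and, false_or]
        by_cases h3 : l = i
        · subst h3
          simp [hxZ, hxE]
        · have h4 : ¬ i = l := fun h => h3 h.symm
          simp only [h4, h3, if_false, notMem_empty, or_false, false_iff]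
          by_cases h1 : l = i'
          · simp [h1, hxZ]
          · simp [h1]
      · simp only [hxZ, if_false, hxE, not_false_eq_true, true_and]
        constructor
        · intro h
          exact Or.inl (Or.inl h)
        · rintro ((h | h) | h)
          · exact h
          · split_ifs at h
            · exact absurd h hxZ
            · exact absurd h (notMem_empty _)
          · split_ifs at h
            · exact absurd (mem_sdiff.mp h).1 hxE
            · exact absurd h (notMem_empty _)
  rw [h0, h1]
  have hd1 : Disjoint (univ.filter fun x : Fin n => x ∉ E ∧ w x = l) (if l = i' then Z else ∅) := by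
    rw [disjoint_left]
    intro x hx hx'
    simp only [mem_filter, mem_univ, true_and] at hx
    split_ifs at hx'
    · exact hx.1 (hZ hx')
    · exact absurd hx' (notMem_empty _)
  have hd2 : Disjoint ((univ.filter fun x : Fin n => x ∉ E ∧ w x = l) ∪ (if l = i' then Z else ∅))
      (if l = i then E \ Z else ∅) := by
    rw [disjoint_left]
    intro x hx hx'
    split_ifs at hx' with h3
    · have h4 := mem_sdiff.mp hx'
      have h5 : ¬ l = i' := fun h => hne (h3.symm.trans h)
      simp only [h5, if_false, mem_union, notMem_empty, or_false, mem_filter, mem_univ,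
        true_and] at hx
      exact hx.1 h4.1
    · exact absurd hx' (notMem_empty _)
  rw [card_union_of_disjoint hd2, card_union_of_disjoint hd1]
  congr 1
  · congr 1
    split_ifs <;> simp
  · split_ifs
    · rw [card_sdiff_of_subset hZ]
    · simp

/-- row E4: straightening of a non ballot word -/
theorem not_ballot (w : Fin n → Fin r) (hw : Bal b w) (hb : ¬ Ballot w) :
    ∃ (i i' : Fin r) (E : Finset (Fin n)) (Z₀ : Finset (Fin n)),
      E.card = b + 1 ∧ Z₀ ⊆ E ∧ 0 < Z₀.card ∧ Z₀.card < b + 1 ∧
      (fun x => if x ∈ Z₀ then i' else if x ∈ E then i else w x) = w ∧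
      ∀ Z ∈ E.powersetCard Z₀.card, Z ≠ Z₀ →
        Bal b (fun x => if x ∈ Z then i' else if x ∈ E then i else w x) ∧
        LexLT (fun x => if x ∈ Z then i' else if x ∈ E then i else w x) w := by
  classical
  have hex : ∃ k : ℕ, ∃ i i' : Fin r, i'.val = i.val + 1 ∧ cnt w k i < cnt w k i' := by
    by_contra hcon
    push Not at hcon
    apply hb
    intro k i j hij
    have hij' : i.val ≤ j.val := hij
    exact e4_anti w k (hcon k) (j.val - i.val) i j (by omega)
  obtain ⟨i, i', hii, hlt⟩ := Nat.find_spec hex
  have hmin := fun {m : ℕ} (hm : m < Nat.find hex) => Nat.find_min hex hm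
  set k := Nat.find hex with hk
  have hk0 : k ≠ 0 := by
    intro h0
    rw [h0] at hlt
    simp [cnt] at hlt
  obtain ⟨m, hm⟩ := Nat.exists_eq_succ_of_ne_zero hk0
  have hm1 : ¬ ∃ i i' : Fin r, i'.val = i.val + 1 ∧ cnt w m i < cnt w m i' :=
    hmin (by omega)
  push Not at hm1
  have h1 := hm1 i i' hii
  have hkm : k = m + 1 := hm
  have h2 := e4_cnt_succ_le w m i'
  have h3 := e4_cnt_mono w m i
  rw [← hkm] at h2 h3
  have hcnt : cnt w k i' = cnt w k i + 1 := by omega
  have hne : i ≠ i' := by
    intro h
    rw [h] at hii
    omega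
  let Z₀ : Finset (Fin n) := univ.filter fun x : Fin n => x.val < k ∧ w x = i'
  let Y : Finset (Fin n) := univ.filter fun x : Fin n => k ≤ x.val ∧ w x = i
  have hZ0 : Z₀.card = cnt w k i' := rfl
  have hdis : Disjoint Z₀ Y := by
    rw [disjoint_left]
    intro x hx hx'
    simp only [Z₀, Y, mem_filter, mem_univ, true_and] at hx hx'
    omega
  have hYc : cnt w k i + Y.card = b := by
    have h4 := hw i
    have h5 : (univ.filter fun x : Fin n => x.val < n ∧ w x = i) =
        (univ.filter fun x : Fin n => x.val < k ∧ w x = i) ∪ Y := by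
      ext x
      simp only [Y, mem_filter, mem_univ, true_and, mem_union]
      constructor
      · rintro ⟨_, h⟩
        rcases Nat.lt_or_ge x.val k with h' | h'
        · exact Or.inl ⟨h', h⟩
        · exact Or.inr ⟨h', h⟩
      · rintro (h | h)
        · exact ⟨x.2, h.2⟩
        · exact ⟨x.2, h.2⟩
    have h6 : Disjoint (univ.filter fun x : Fin n => x.val < k ∧ w x = i) Y := by
      rw [disjoint_left]
      intro x hx hx'
      simp only [Y, mem_filter, mem_univ, true_and] at hx hx'
      omega
    unfold cnt at h4 ⊢
    rw [h5, card_union_of_disjoint h6] at h4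
    exact h4
  have hEc : (Z₀ ∪ Y).card = b + 1 := by
    rw [card_union_of_disjoint hdis, hZ0, hcnt]
    omega
  have hle : cnt w k i' ≤ b := by
    have := e4_cnt_le w k i'
    rw [hw i'] at this
    exact this
  have hw0 : (fun x => if x ∈ Z₀ then i' else if x ∈ Z₀ ∪ Y then i else w x) = w := by
    funext x
    by_cases hx : x ∈ Z₀
    · simp only [hx, if_true]
      simp only [Z₀, mem_filter, mem_univ, true_and] at hx
      exact hx.2.symm
    · simp only [hx, if_false, mem_union, false_or]
      by_cases hy : x ∈ Y
      · simp only [hy, if_true]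
        simp only [Y, mem_filter, mem_univ, true_and] at hy
        exact hy.2.symm
      · simp only [hy, if_false]
  refine ⟨i, i', Z₀ ∪ Y, Z₀, hEc, subset_union_left, ?_, ?_, hw0, ?_⟩
  · rw [hZ0]; omega
  · rw [hZ0]; omega
  · intro Z hZ hne'
    rw [mem_powersetCard] at hZ
    constructor
    · intro l
      have h7 := e4_count w i i' hne (Z₀ ∪ Y) Z hZ.1 l
      have h8 := e4_count w i i' hne (Z₀ ∪ Y) Z₀ subset_union_left l
      rw [hw0, hw l] at h8
      rw [h7, h8, hZ.2]
    · -- the first position of Z₀ \ Z
      have hex2 : (Z₀ \ Z).Nonempty := by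
        rw [nonempty_iff_ne_empty]
        intro h9
        rw [sdiff_eq_empty_iff_subset] at h9
        exact hne' (eq_of_subset_of_card_le h9 (le_of_eq hZ.2)).symm
      refine ⟨(Z₀ \ Z).min' hex2, ?_, ?_⟩
      · intro y hy
        have hx := (Z₀ \ Z).min'_mem hex2
        set x := (Z₀ \ Z).min' hex2 with hxdef
        have hx0 := (mem_sdiff.mp hx).1
        simp only [Z₀, mem_filter, mem_univ, true_and] at hx0
        have hyx : y.val < x.val := hy
        have hyk : y.val < k := by omega
        by_cases hyZ : y ∈ Z₀
        · have hyZ' : y ∈ Z := by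
            by_contra hcon
            have h10 := (Z₀ \ Z).min'_le y (mem_sdiff.mpr ⟨hyZ, hcon⟩)
            rw [← hxdef] at h10
            exact absurd hy (not_lt.mpr h10)
          simp only [hyZ', if_true]
          simp only [Z₀, mem_filter, mem_univ, true_and] at hyZ
          exact hyZ.2.symm
        · have hyY : y ∉ Y := by
            intro h
            simp only [Y, mem_filter, mem_univ, true_and] at h
            omega
          have hyE : y ∉ Z₀ ∪ Y := by
            rw [mem_union]
            push Not
            exact ⟨hyZ, hyY⟩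
          have hyZ' : y ∉ Z := fun h => hyE (hZ.1 h)
          simp only [hyZ', if_false, hyE]
      · have hx := (Z₀ \ Z).min'_mem hex2
        set x := (Z₀ \ Z).min' hex2 with hxdef
        have hx0 := (mem_sdiff.mp hx).1
        have hx1 := (mem_sdiff.mp hx).2
        have hxE : x ∈ Z₀ ∪ Y := mem_union_left _ hx0
        simp only [hx1, if_false, hxE, if_true]
        simp only [Z₀, mem_filter, mem_univ, true_and] at hx0
        rw [hx0.2]
        exact Fin.lt_def.mpr (by omega)

end Pool.PI34.C0
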