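import Pool.Agent.LibPI34.C0_E1
import Pool.Agent.LibPI34.C0_E2
import Pool.Agent.LibPI34.C0_E3
import Pool.Agent.LibPI34.C0_E4

set_option autoImplicit false

namespace Pool.PI34.C0

open Equiv Finset

variable {n r b : ℕ}

theorem e5_lex (τ σ : Fin n → Fin r) : toLex τ < toLex σ ↔ LexLT τ σ := Iff.rfl

theorem e5_exists (A : Finset (Lex (Fin n → Fin r)))
    (hA : ∀ s ∈ A, Bal b (ofLex s) ∧ Ballot (ofLex s)) :
    ∃ f : (Fin n → Fin r) → ℤ,
      f ∈ Submodule.span ℤ (Set.range (eb (n := n) (r := r) (b := b))) ∧
      ∀ s ∈ A, f (ofLex s) = 1 := by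
  classical
  induction A using Finset.induction_on_max with
  | empty => exact ⟨0, Submodule.zero_mem _, by simp⟩
  | insert m A hm ih =>
    obtain ⟨f, hf, hf1⟩ := ih (fun s hs => hA s (mem_insert_of_mem hs))
    obtain ⟨hbal, hbl⟩ := hA m (mem_insert_self _ _)
    obtain ⟨β, hβ1, hβ2⟩ := exists_beta (ofLex m) hbal hbl
    refine ⟨f + (1 - f (ofLex m)) • eb β, ?_, ?_⟩
    · exact Submodule.add_mem _ hf (Submodule.smul_mem _ _ (Submodule.subset_span ⟨β, rfl⟩))
    · intro s hs
      rw [mem_insert] at hs
      rcases hs with rfl | hs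
      · simp [hβ1]
      · have hlt : s < m := hm s hs
        have h0 : eb β (ofLex s) = 0 := by
          by_contra hne
          rcases hβ2 _ hne with h | h
          · have : s = m := by
              have := congrArg toLex h
              simpa using this
            exact absurd hlt (by rw [this]; exact lt_irrefl _)
          · have h' : m < s := h
            exact absurd hlt (not_lt_of_gt h')
        simp [h0, hf1 s hs]

theorem e5_rel (f : (Fin n → Fin r) → ℤ)
    (hf : f ∈ Submodule.span ℤ (Set.range (eb (n := n) (r := r) (b := b))))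
    (i i' : Fin r) (E : Finset (Fin n)) (hE : b < E.card) (a : ℕ) (w : Fin n → Fin r) :
    ∑ Z ∈ E.powersetCard a, f (fun x => if x ∈ Z then i' else if x ∈ E then i else w x) = 0 := by
  induction hf using Submodule.span_induction with
  | mem x hx =>
    obtain ⟨β, rfl⟩ := hx
    exact eb_rel β i i' E hE a w
  | zero => simp
  | add x y _ _ hx hy =>
    simp only [Pi.add_apply, Finset.sum_add_distrib, hx, hy, add_zero]
  | smul c x _ hx =>
    simp only [Pi.smul_apply, smul_eq_mul, ← Finset.mul_sum, hx, mul_zero]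

/-- row E5: the invariant vector modulo `p` -/
theorem exists_invariant (p j : ℕ) (hp : p.Prime) (hb : b + 1 = p ^ j) :
    ∃ f : (Fin n → Fin r) → ℤ,
      f ∈ Submodule.span ℤ (Set.range (eb (n := n) (r := r) (b := b))) ∧
      ∀ w, Bal b w → (p : ℤ) ∣ f w - 1 := by
  classical
  obtain ⟨f, hf, hf1⟩ := e5_exists (n := n) (r := r) (b := b)
    (univ.filter fun s => Bal b (ofLex s) ∧ Ballot (ofLex s)) (by
      intro s hs
      exact (mem_filter.1 hs).2)
  refine ⟨f, hf, ?_⟩
  have main : ∀ s : Lex (Fin n → Fin r), Bal b (ofLex s) → (p : ℤ) ∣ f (ofLex s) - 1 := by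
    intro s
    induction s using WellFoundedLT.induction with
    | ind s ih =>
      intro hbal
      by_cases hbl : Ballot (ofLex s)
      · have h1 : f (ofLex s) = 1 := hf1 s (by simp [hbal, hbl])
        simp [h1]
      · obtain ⟨i, i', E, Z₀, hEc, hZE, hZ0, hZ1, hw, hall⟩ := not_ballot (ofLex s) hbal hbl
        have hrel := e5_rel f hf i i' E (by omega) Z₀.card (ofLex s)
        have hmem : Z₀ ∈ E.powersetCard Z₀.card := mem_powersetCard.2 ⟨hZE, rfl⟩
        rw [← Finset.add_sum_erase _ _ hmem, hw] at hrel
        have hrest : (p : ℤ) ∣ ∑ Z ∈ (E.powersetCard Z₀.card).erase Z₀,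
            (f (fun x => if x ∈ Z then i' else if x ∈ E then i else ofLex s x) - 1) := by
          refine Finset.dvd_sum fun Z hZ => ?_
          rw [mem_erase] at hZ
          obtain ⟨h1, h2⟩ := hall Z hZ.2 hZ.1
          exact ih (toLex (fun x => if x ∈ Z then i' else if x ∈ E then i else ofLex s x)) h2 h1
        rw [Finset.sum_sub_distrib] at hrest
        have hcard : ((E.powersetCard Z₀.card).erase Z₀).card = (p ^ j).choose Z₀.card - 1 := by
          rw [card_erase_of_mem hmem, card_powersetCard, hEc, hb]
        have hch : p ∣ (p ^ j).choose Z₀.card :=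
          hp.dvd_choose_pow (by omega) (by omega)
        have hpos : 0 < (p ^ j).choose Z₀.card := Nat.choose_pos (by omega)
        rw [Finset.sum_const, hcard, nsmul_eq_mul, mul_one, Nat.cast_sub hpos] at hrest
        have hch' : (p : ℤ) ∣ (((p ^ j).choose Z₀.card : ℕ) : ℤ) := by exact_mod_cast hch
        have := dvd_sub (dvd_neg.2 hrest) hch'
        have e : f (ofLex s) - 1 =
          -(∑ Z ∈ (E.powersetCard Z₀.card).erase Z₀,
            f (fun x => if x ∈ Z then i' else if x ∈ E then i else ofLex s x) -
              ((((p ^ j).choose Z₀.card : ℕ) : ℤ) - (1 : ℕ))) -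
            (((p ^ j).choose Z₀.card : ℕ) : ℤ) := by
          push_cast
          linarith [hrel]
        rw [e]
        exact this
  intro w hw
  exact main (toLex w) hw

end Pool.PI34.C0
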