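import Pool.Agent.LibPI34.C0_E1

set_option autoImplicit false

namespace Pool.PI34.C0

open Equiv Finset

variable {n r b : ℕ}

/-- the standard word of `β` -/
def e6_s (β : Fin n ≃ Fin r × Fin b) : Fin n → Fin r := fun x => (β x).1

theorem e6_eb_s (β : Fin n ≃ Fin r × Fin b) : eb β (e6_s β) = 1 := by
  unfold eb e6_s
  refine Finset.prod_eq_one fun c _ => ?_
  have h : (Matrix.of fun i j : Fin r => if (β (β.symm (i, c))).1 = j then (1 : ℤ) else 0) = 1 := by
    ext i j
    simp [Matrix.one_apply]
  rw [h, Matrix.det_one]

theorem e6_col (β : Fin n ≃ Fin r × Fin b) (x y : Fin n) (hc : (β x).2 = (β y).2) (z : Fin n) :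
    (β (swap x y z)).2 = (β z).2 := by
  by_cases h1 : z = x
  · subst h1; rw [swap_apply_left]; exact hc.symm
  · by_cases h2 : z = y
    · subst h2; rw [swap_apply_right]; exact hc
    · rw [swap_apply_of_ne_of_ne h1 h2]

/-- a function which changes sign under all column swaps is a multiple of `eb β` -/
theorem e6_alt (β : Fin n ≃ Fin r × Fin b) (F : (Fin n → Fin r) → ℤ)
    (hF : ∀ (w : Fin n → Fin r) (x y : Fin n), x ≠ y → (β x).2 = (β y).2 →
      F (w ∘ swap x y) = - F w) (w : Fin n → Fin r) :
    F w = F (e6_s β) * eb β w := by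
  classical
  by_cases hw : ∀ x y : Fin n, (β x).2 = (β y).2 → w x = w y → x = y
  · -- induction on the number of mismatches
    induction hk : (univ.filter fun x => w x ≠ e6_s β x).card using Nat.strong_induction_on
      generalizing w with
    | _ k ih =>
      by_cases hmis : ∃ x, w x ≠ e6_s β x
      · obtain ⟨x, hx⟩ := hmis
        -- find y
        have hinj : Function.Injective fun i : Fin r => w (β.symm (i, (β x).2)) := by
          intro i j hij
          have h := hw _ _ (by simp) hij
          simpa using h
        have hsurj := Finite.injective_iff_surjective.mp hinj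
        obtain ⟨i, hi⟩ := hsurj (e6_s β x)
        set y := β.symm (i, (β x).2) with hy
        have hi' : w y = e6_s β x := hi
        have hcol : (β x).2 = (β y).2 := by rw [hy]; simp
        have hxy : x ≠ y := by
          rintro h
          exact hx (by rw [← hi', ← h])
        have hsy : w y ≠ e6_s β y := by
          intro h
          rw [hi'] at h
          apply hxy
          apply β.injective
          exact Prod.ext h hcol
        have hcol' := e6_col β x y hcol
        have h1 : F (w ∘ swap x y) = F (e6_s β) * eb β (w ∘ swap x y) := by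
          refine ih _ ?_ (w ∘ swap x y) ?_ rfl
          · rw [← hk]
            refine Finset.card_lt_card ?_
            refine ⟨?_, ?_⟩
            · intro z hz
              rw [Finset.mem_filter] at hz ⊢
              refine ⟨Finset.mem_univ _, ?_⟩
              by_cases hzx : z = x
              · subst hzx; exact hx
              · by_cases hzy : z = y
                · rw [hzy]; exact hsy
                · have h2 := hz.2
                  rw [Function.comp_apply, swap_apply_of_ne_of_ne hzx hzy] at h2
                  exact h2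
            · intro hsub
              have h2 : x ∈ univ.filter fun z => w z ≠ e6_s β z := by simp [hx]
              have h3 := hsub h2
              rw [Finset.mem_filter] at h3
              apply h3.2
              rw [Function.comp_apply, swap_apply_left, hi']
          · intro u v huv hwuv
            have h2 := hw (swap x y u) (swap x y v) (by rw [hcol' u, hcol' v, huv]) hwuv
            exact (swap x y).injective h2
        rw [hF w x y hxy hcol, eb_swap β w x y hxy hcol] at h1
        linarith
      · push Not at hmis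
        have h2 : w = e6_s β := funext hmis
        rw [h2, e6_eb_s, mul_one]
  · push Not at hw
    obtain ⟨x, y, hcol, hwxy, hxy⟩ := hw
    have h1 : w ∘ swap x y = w := by
      funext z
      rw [Function.comp_apply]
      by_cases h1 : z = x
      · subst h1; rw [swap_apply_left]; exact hwxy.symm
      · by_cases h2 : z = y
        · subst h2; rw [swap_apply_right]; exact hwxy
        · rw [swap_apply_of_ne_of_ne h1 h2]
    have h2 := hF w x y hxy hcol
    have h3 := eb_swap β w x y hxy hcol
    rw [h1] at h2 h3
    have h4 : F w = 0 := by linarith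
    have h5 : eb β w = 0 := by linarith
    rw [h4, h5, mul_zero]

theorem e6_mem (β : Fin n ≃ Fin r × Fin b) : eb β ∈ latS n r b :=
  ⟨1, one_ne_zero, by rw [one_smul]; exact Submodule.subset_span (Set.mem_range_self β)⟩

/-- row E6: only scalars commute with the action -/
theorem end_scalar (T : latS n r b →ₗ[ℤ] latS n r b)
    (hT : ∀ (σ : Perm (Fin n)) (f g : latS n r b), (g : (Fin n → Fin r) → ℤ) = act σ f →
      (T g : (Fin n → Fin r) → ℤ) = act σ (T f)) :
    ∃ c : ℤ, ∀ f, T f = c • f := by
  classical
  -- `T e_β` is a multiple of `e_β`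
  have h1 : ∀ β : Fin n ≃ Fin r × Fin b,
      T ⟨eb β, e6_mem β⟩ = (T ⟨eb β, e6_mem β⟩ : (Fin n → Fin r) → ℤ) (e6_s β) •
        (⟨eb β, e6_mem β⟩ : latS n r b) := by
    intro β
    apply Subtype.ext
    funext w
    have h := e6_alt β (T ⟨eb β, e6_mem β⟩ : (Fin n → Fin r) → ℤ) ?_ w
    · rw [h]; rfl
    · intro w x y hxy hcol
      have h2 := hT (swap x y) ⟨eb β, e6_mem β⟩ (-⟨eb β, e6_mem β⟩) (by
        funext w'
        have := eb_swap β w' x y hxy hcol
        show - eb β w' = eb β (w' ∘ swap x y)
        rw [this])
      have h3 := congrFun h2 w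
      rw [map_neg] at h3
      exact h3.symm
  have h2 : ∀ β β' : Fin n ≃ Fin r × Fin b,
      T ⟨eb β', e6_mem β'⟩ = (T ⟨eb β, e6_mem β⟩ : (Fin n → Fin r) → ℤ) (e6_s β) •
        (⟨eb β', e6_mem β'⟩ : latS n r b) := by
    intro β β'
    set c := (T ⟨eb β, e6_mem β⟩ : (Fin n → Fin r) → ℤ) (e6_s β) with hc
    have h3 : act (β.trans β'.symm) (eb β) = eb β' := by
      rw [eb_act]
      congr 1
      ext x <;> simp
    have h4 := hT (β.trans β'.symm) ⟨eb β, e6_mem β⟩ ⟨eb β', e6_mem β'⟩ h3.symm
    apply Subtype.ext
    rw [h4, h1 β, ← hc]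
    show act (β.trans β'.symm) (c • eb β) = c • eb β'
    rw [map_smul, h3]
  obtain ⟨c, hc⟩ : ∃ c : ℤ, ∀ β : Fin n ≃ Fin r × Fin b,
      T ⟨eb β, e6_mem β⟩ = c • (⟨eb β, e6_mem β⟩ : latS n r b) := by
    by_cases hne : Nonempty (Fin n ≃ Fin r × Fin b)
    · obtain ⟨β⟩ := hne
      exact ⟨_, fun β' => h2 β β'⟩
    · exact ⟨0, fun β => absurd ⟨β⟩ hne⟩
  refine ⟨c, fun f => ?_⟩
  set T' : latS n r b →ₗ[ℤ] latS n r b := T - c • LinearMap.id with hT'
  set K : Submodule ℤ (latS n r b) := LinearMap.ker T' with hK
  have hspan : Submodule.span ℤ (Set.range (eb (n := n) (r := r) (b := b))) ≤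
      K.map (latS n r b).subtype := by
    rw [Submodule.span_le]
    rintro _ ⟨β, rfl⟩
    refine ⟨⟨eb β, e6_mem β⟩, ?_, rfl⟩
    show (⟨eb β, e6_mem β⟩ : latS n r b) ∈ K
    rw [hK, LinearMap.mem_ker, hT', LinearMap.sub_apply, hc β, LinearMap.smul_apply, LinearMap.id_apply,
      sub_self]
  obtain ⟨N, hN, hNf⟩ := f.2
  obtain ⟨k, hk, hkf⟩ := hspan hNf
  have hkN : k = N • f := Subtype.ext hkf
  have h5 : T' (N • f) = 0 := by
    rw [← hkN]; exact LinearMap.mem_ker.mp hk
  rw [map_smul] at h5
  have h6 : T' f = 0 := by
    apply Subtype.ext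
    funext w
    have h7 := congrFun (congrArg Subtype.val h5) w
    have h8 : N * ((T' f : latS n r b) : (Fin n → Fin r) → ℤ) w = 0 := h7
    rcases mul_eq_zero.mp h8 with h9 | h9
    · exact absurd h9 hN
    · exact h9
  rw [hT', LinearMap.sub_apply, sub_eq_zero] at h6
  exact h6

end Pool.PI34.C0
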