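import Pool.Agent.LibPI34.C0_E1
import Pool.Agent.LibPI34.C0_E3

set_option autoImplicit false

namespace Pool.PI34.C0

open Equiv Finset

variable {n r b : ℕ}

/-- all partial sums of counts, starting at `c`, are antitone -/
def e7Valid (c : Fin r → ℕ) (l : List (Fin r)) : Prop :=
  ∀ k : ℕ, ∀ i j : Fin r, i ≤ j → c j + (l.take k).count j ≤ c i + (l.take k).count i

theorem e7_append (c : Fin r → ℕ) (l₁ l₂ : List (Fin r)) (h₁ : e7Valid c l₁)
    (h₂ : e7Valid (fun j => c j + l₁.count j) l₂) : e7Valid c (l₁ ++ l₂) := by
  intro k i j hij
  rw [List.take_append, List.count_append, List.count_append]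
  rcases le_or_gt k l₁.length with hk | hk
  · have h0 : k - l₁.length = 0 := by omega
    rw [h0]
    simpa using h₁ k i j hij
  · have h0 : l₁.take k = l₁ := List.take_of_length_le hk.le
    rw [h0]
    have := h₂ (k - l₁.length) i j hij
    simp only at this
    omega

/-- adding a sorted block -/
theorem e7_sorted (c : Fin r → ℕ) (l : List (Fin r)) (hl : l.Pairwise (· ≤ ·))
    (hc : ∀ i j : Fin r, i ≤ j → c j ≤ c i)
    (hc' : ∀ i j : Fin r, i ≤ j → c j + l.count j ≤ c i + l.count i) : e7Valid c l := by
  intro k i j hij
  rcases eq_or_lt_of_le hij with rfl | hlt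
  · exact le_rfl
  by_cases hj : j ∈ l.take k
  · have hsplit : l.take k ++ l.drop k = l := List.take_append_drop k l
    have hp : (l.take k ++ l.drop k).Pairwise (· ≤ ·) := by rw [hsplit]; exact hl
    have hcross := (List.pairwise_append.mp hp).2.2
    have hi0 : (l.drop k).count i = 0 := by
      rw [List.count_eq_zero]
      intro hi
      exact absurd (hcross j hj i hi) (not_le.mpr hlt)
    have hi : l.count i = (l.take k).count i := by
      conv_lhs => rw [← hsplit]
      rw [List.count_append, hi0, add_zero]
    have hjle : (l.take k).count j ≤ l.count j := by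
      conv_rhs => rw [← hsplit]
      rw [List.count_append]
      omega
    have := hc' i j hij
    omega
  · have : (l.take k).count j = 0 := List.count_eq_zero.mpr hj
    have := hc i j hij
    omega

/-- adding a block without repetitions -/
theorem e7_nodup (c : Fin r → ℕ) (l : List (Fin r)) (hl : l.Nodup)
    (hc : ∀ i j : Fin r, i < j → c j + 1 ≤ c i) : e7Valid c l := by
  intro k i j hij
  rcases eq_or_lt_of_le hij with rfl | hlt
  · exact le_rfl
  have h1 : (l.take k).count j ≤ 1 :=
    List.nodup_iff_count_le_one.mp (hl.sublist (List.take_sublist k l)) j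
  have := hc i j hlt
  omega

theorem e7_count_perm (π : Perm (Fin r)) (j : Fin r) : (List.ofFn π).count j = 1 := by
  apply List.count_eq_one_of_mem
  · exact List.nodup_ofFn.mpr π.injective
  · rw [List.mem_ofFn]
    exact ⟨π.symm j, by simp⟩

/-- adding blocks of permutations -/
theorem e7_perms (L : List (Perm (Fin r))) : ∀ (c : Fin r → ℕ),
    (∀ i j : Fin r, i < j → c j + 1 ≤ c i) →
    e7Valid c (L.map fun π : Perm (Fin r) => List.ofFn π).flatten ∧
      ∀ j, ((L.map fun π : Perm (Fin r) => List.ofFn π).flatten).count j = L.length := by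
  induction L with
  | nil =>
    intro c hc
    refine ⟨?_, by intro j; simp⟩
    intro k i j hij
    rcases eq_or_lt_of_le hij with rfl | hlt
    · exact le_rfl
    · have := hc i j hlt
      simp
      omega
  | cons π L ih =>
    intro c hc
    rw [List.map_cons, List.flatten_cons]
    have hc2 : ∀ i j : Fin r, i < j →
        (fun j => c j + (List.ofFn π).count j) j + 1 ≤ (fun j => c j + (List.ofFn π).count j) i := by
      intro i j hij
      have := hc i j hij
      simp only [e7_count_perm]
      omega
    obtain ⟨h1, h2⟩ := ih _ hc2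
    refine ⟨e7_append c _ _ (e7_nodup c _ (List.nodup_ofFn.mpr π.injective) hc) h1, ?_⟩
    intro j
    rw [List.count_append, e7_count_perm, h2 j, List.length_cons]
    omega

/-- the sorted list with prescribed multiplicities -/
noncomputable def e7srt (d : Fin r → ℕ) : List (Fin r) :=
  (∑ j : Fin r, d j • ({j} : Multiset (Fin r))).sort (· ≤ ·)

theorem e7srt_count (d : Fin r → ℕ) (j : Fin r) : (e7srt d).count j = d j := by
  rw [e7srt, ← Multiset.coe_count, Multiset.sort_eq, Multiset.count_sum']
  simp [Multiset.count_nsmul, Multiset.count_singleton]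

theorem e7srt_pw (d : Fin r → ℕ) : (e7srt d).Pairwise (· ≤ ·) :=
  Multiset.pairwise_sort _ _

/-- the word as a list -/
noncomputable def e7word (M : ℕ) (π : Fin M → Perm (Fin r)) : List (Fin r) :=
  e7srt (fun j : Fin r => r - 1 - j.val) ++
    ((List.ofFn π).map fun π : Perm (Fin r) => List.ofFn π).flatten ++
      e7srt (fun j : Fin r => j.val)

theorem e7word_valid (M : ℕ) (π : Fin M → Perm (Fin r)) : e7Valid (fun _ => 0) (e7word M π) := by
  have hc : ∀ i j : Fin r, i < j →
      (fun j : Fin r => 0 + (e7srt (fun j : Fin r => r - 1 - j.val)).count j) j + 1 ≤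
        (fun j : Fin r => 0 + (e7srt (fun j : Fin r => r - 1 - j.val)).count j) i := by
    intro i j hij
    have h1 := i.2
    have h2 := j.2
    have h3 : i.val < j.val := hij
    simp only [e7srt_count]
    omega
  obtain ⟨p1, p2⟩ := e7_perms (List.ofFn π) _ hc
  have hlen : (List.ofFn π).length = M := List.length_ofFn
  apply e7_append
  · apply e7_append
    · apply e7_sorted _ _ (e7srt_pw _)
      · intro i j _; exact le_rfl
      · intro i j hij
        have h3 : i.val ≤ j.val := hij
        simp only [e7srt_count]
        omega
    · exact p1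
  · apply e7_sorted _ _ (e7srt_pw _)
    · intro i j hij
      have h1 := i.2
      have h2 := j.2
      have h3 : i.val ≤ j.val := hij
      simp only [List.count_append, e7srt_count, p2, hlen]
      omega
    · intro i j hij
      have h1 := i.2
      have h2 := j.2
      have h3 : i.val ≤ j.val := hij
      simp only [List.count_append, e7srt_count, p2, hlen]
      omega

theorem e7word_count (M : ℕ) (π : Fin M → Perm (Fin r)) (j : Fin r) :
    (e7word M π).count j = M + (r - 1) := by
  have hc : ∀ i j : Fin r, i < j →
      (fun j : Fin r => r - j.val) j + 1 ≤ (fun j : Fin r => r - j.val) i := by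
    intro i j hij
    have h1 := i.2
    have h2 := j.2
    have h3 : i.val < j.val := hij
    simp only
    omega
  obtain ⟨_, p2⟩ := e7_perms (List.ofFn π) _ hc
  have hlen : (List.ofFn π).length = M := List.length_ofFn
  have h1 := j.2
  rw [e7word, List.count_append, List.count_append, p2, e7srt_count, e7srt_count, hlen]
  omega

theorem e7_length (l : List (Fin r)) : l.length = ∑ j, l.count j := by
  rw [← Multiset.coe_card, ← Multiset.toFinset_sum_count_eq]
  simp only [Multiset.coe_count]
  apply Finset.sum_subset (Finset.subset_univ _)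
  intro j _ hj
  rw [Multiset.mem_toFinset, Multiset.mem_coe] at hj
  exact List.count_eq_zero.mpr hj

theorem e7word_inj (M : ℕ) : Function.Injective (e7word (r := r) M) := by
  intro π π' h
  unfold e7word at h
  have h1 := List.append_cancel_right h
  have h2 := List.append_cancel_left h1
  have h3 : ((List.ofFn π).map fun π : Perm (Fin r) => List.ofFn π) =
      ((List.ofFn π').map fun π : Perm (Fin r) => List.ofFn π) := by
    rw [List.eq_iff_flatten_eq]
    refine ⟨h2, ?_⟩
    simp [List.map_map, Function.comp_def]
  have h4 : List.ofFn π = List.ofFn π' := by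
    apply List.map_injective_iff.mpr _ h3
    intro a b hab
    exact Equiv.coe_fn_injective (List.ofFn_injective hab)
  exact List.ofFn_injective h4

theorem e7_cnt : ∀ (n : ℕ) (w : Fin n → Fin r) (k : ℕ) (j : Fin r),
    cnt w k j = ((List.ofFn w).take k).count j := by
  intro n
  induction n with
  | zero => intro w k j; simp [cnt]
  | succ n ih =>
    intro w k j
    cases k with
    | zero => simp [cnt]
    | succ k =>
      rw [List.ofFn_succ, List.take_succ_cons, List.count_cons]
      have h := ih (fun i => w i.succ) k j
      rw [← h]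
      unfold cnt
      rw [Fin.card_filter_univ_succ]
      simp only [Fin.val_zero, Nat.zero_lt_succ, true_and, Fin.val_succ, Nat.succ_lt_succ_iff,
        beq_iff_eq]
      split_ifs <;> rfl

theorem e7_exists (l : List (Fin r)) (n : ℕ) (h : l.length = n) :
    ∃ w : Fin n → Fin r, List.ofFn w = l := by
  subst h
  exact ⟨l.get, List.ofFn_get l⟩

/-- the set of ballot balanced words -/
abbrev E7S (n r b : ℕ) := {w : Fin n → Fin r // Bal b w ∧ Ballot w}

theorem e7_card (hn : n = r * b) (hrb : r ≤ b + 1) [Fintype (E7S n r b)] :
    (Nat.factorial r) ^ (b + 1 - r) ≤ Fintype.card (E7S n r b) := by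
  classical
  have hb : ∀ j : Fin r, (b + 1 - r) + (r - 1) = b := by
    intro j
    have := j.2
    omega
  have hlen : ∀ π : Fin (b + 1 - r) → Perm (Fin r), (e7word (b + 1 - r) π).length = n := by
    intro π
    rw [e7_length, hn]
    rw [Finset.sum_congr rfl (fun j _ => (e7word_count (b + 1 - r) π j).trans (hb j))]
    simp
  choose w hw using fun π : Fin (b + 1 - r) → Perm (Fin r) => e7_exists _ n (hlen π)
  have hbal : ∀ π, Bal b (w π) := by
    intro π j
    rw [e7_cnt, hw, List.take_of_length_le (hlen π).le, e7word_count]
    exact hb j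
  have hballot : ∀ π, Ballot (w π) := by
    intro π k i j hij
    rw [e7_cnt, e7_cnt, hw]
    have := e7word_valid (b + 1 - r) π k i j hij
    simpa using this
  have hinj : Function.Injective (fun π => (⟨w π, hbal π, hballot π⟩ : E7S n r b)) := by
    intro π π' h
    have h1 : w π = w π' := congrArg Subtype.val h
    apply e7word_inj
    rw [← hw π, ← hw π', h1]
  have := Fintype.card_le_of_injective _ hinj
  simpa [Fintype.card_perm] using this

/-- row E7: rank -/
theorem rank_latS (hn : n = r * b) (hrb : r ≤ b + 1) :
    (Nat.factorial r) ^ (b + 1 - r) ≤ Module.finrank ℤ (latS n r b) := by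
  classical
  haveI : Fintype (E7S n r b) := Fintype.ofFinite _
  refine le_trans (e7_card hn hrb) ?_
  choose β hβ1 hβ2 using fun s : E7S n r b => exists_beta s.1 s.2.1 s.2.2
  have hmem : ∀ s : E7S n r b, eb (β s) ∈ latS n r b := by
    intro s
    refine ⟨1, one_ne_zero, ?_⟩
    rw [one_smul]
    exact Submodule.subset_span ⟨β s, rfl⟩
  have hli : LinearIndependent ℤ (fun s : E7S n r b => (⟨eb (β s), hmem s⟩ : latS n r b)) := by
    rw [Fintype.linearIndependent_iff]
    intro g hg
    by_contra hne
    push Not at hne
    obtain ⟨s0, hs0⟩ := hne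
    obtain ⟨s, hs, hmin⟩ := (univ.filter (fun s : E7S n r b => g s ≠ 0)).exists_min_image
      (fun s => toLex s.1) ⟨s0, by simpa using hs0⟩
    have h1 := congrArg (fun f : latS n r b => (f : (Fin n → Fin r) → ℤ) s.1) hg
    simp only [Submodule.coe_sum, Submodule.coe_smul, Finset.sum_apply, Pi.smul_apply,
      Submodule.coe_zero, Pi.zero_apply] at h1
    rw [Finset.sum_eq_single s] at h1
    · rw [hβ1 s] at h1
      simp at h1
      simp at hs
      exact hs h1
    · intro t _ hts
      by_cases hgt : g t = 0
      · simp [hgt]
      · by_cases he : eb (β t) s.1 = 0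
        · simp [he]
        · exfalso
          rcases hβ2 t s.1 he with h | h
          · exact hts (Subtype.ext h.symm)
          · have hle := hmin t (by simpa using hgt)
            exact absurd h (not_lt.mpr hle)
    · intro h
      exact absurd (mem_univ s) h
  exact hli.fintype_card_le_finrank

end Pool.PI34.C0
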