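import Pool.Agent.LibPI34.C0Defs

set_option autoImplicit false

namespace Pool.PI34.C0

open Equiv Finset

/-- row E8: numbers -/
theorem exists_numbers (p C : ℕ) (hp : p.Prime) : ∃ r j b : ℕ, 1 ≤ r ∧ 1 ≤ b ∧ b + 1 = p ^ j ∧ r ≤ b + 1 ∧
    C ^ (r * b) < (Nat.factorial r) ^ (b + 1 - r) := by
  -- work with `D = C + 1 ≥ 1`
  obtain ⟨r, hr1, hr⟩ : ∃ r : ℕ, 1 ≤ r ∧ ((C + 1) ^ 2) ^ r < Nat.factorial r := by
    have h := Nat.eventually_mul_pow_lt_factorial_sub 1 ((C + 1) ^ 2) 0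
    obtain ⟨n, hn⟩ := (h.and (Filter.eventually_ge_atTop 1)).exists
    exact ⟨n, hn.2, by simpa using hn.1⟩
  have hp2 : 2 ≤ p := hp.two_le
  -- choose `j` with `p ^ j ≥ 2 * r`
  obtain ⟨j, hj⟩ : ∃ j : ℕ, 2 * r ≤ p ^ j := by
    refine ⟨2 * r, ?_⟩
    calc 2 * r ≤ 2 ^ (2 * r) := (Nat.lt_two_pow_self).le
      _ ≤ p ^ (2 * r) := Nat.pow_le_pow_left hp2 _
  obtain ⟨b, hb⟩ : ∃ b : ℕ, b + 1 = p ^ j := ⟨p ^ j - 1, by omega⟩
  refine ⟨r, j, b, hr1, by omega, hb, by omega, ?_⟩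
  have hbr : b + 1 ≤ 2 * (b + 1 - r) := by omega
  have hf1 : 1 ≤ Nat.factorial r := Nat.factorial_pos r
  have key : (C ^ (r * b)) ^ 2 < ((Nat.factorial r) ^ (b + 1 - r)) ^ 2 := by
    calc (C ^ (r * b)) ^ 2 ≤ ((C + 1) ^ (r * b)) ^ 2 := by gcongr; omega
      _ = (((C + 1) ^ 2) ^ r) ^ b := by rw [← pow_mul, ← pow_mul, ← pow_mul]; ring_nf
      _ ≤ (((C + 1) ^ 2) ^ r) ^ (b + 1) := by
          apply Nat.pow_le_pow_right _ (by omega)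
          positivity
      _ < (Nat.factorial r) ^ (b + 1) := Nat.pow_lt_pow_left hr (by omega)
      _ ≤ (Nat.factorial r) ^ (2 * (b + 1 - r)) := Nat.pow_le_pow_right hf1 hbr
      _ = ((Nat.factorial r) ^ (b + 1 - r)) ^ 2 := by rw [← pow_mul]; ring_nf
  exact lt_of_pow_lt_pow_left₀ 2 (Nat.zero_le _) key

end Pool.PI34.C0
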