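import Pool.Agent.LibPI34.C0_E5
import Pool.Agent.LibPI34.C0_E6
import Pool.Agent.LibPI34.C0_E7
import Pool.Agent.LibPI34.C0_E8

set_option autoImplicit false

namespace Pool.PI34.C0

open Equiv Finset

theorem e9_act_mul {n r : ℕ} (σ τ : Perm (Fin n)) (f : (Fin n → Fin r) → ℤ) :
    act (σ * τ) f = act σ (act τ f) := rfl

theorem e9_act_one {n r : ℕ} (f : (Fin n → Fin r) → ℤ) :
    act (1 : Perm (Fin n)) f = f := rfl

theorem e9_act_span {n r b : ℕ} (σ : Perm (Fin n)) (f : (Fin n → Fin r) → ℤ)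
    (hf : f ∈ Submodule.span ℤ (Set.range (eb (n := n) (r := r) (b := b)))) :
    act σ f ∈ Submodule.span ℤ (Set.range (eb (n := n) (r := r) (b := b))) := by
  induction hf using Submodule.span_induction with
  | mem x hx =>
    obtain ⟨β, rfl⟩ := hx
    rw [eb_act]
    exact Submodule.subset_span ⟨_, rfl⟩
  | zero => rw [map_zero]; exact Submodule.zero_mem _
  | add x y _ _ hx hy => rw [map_add]; exact Submodule.add_mem _ hx hy
  | smul c x _ hx => rw [map_smul]; exact Submodule.smul_mem _ _ hx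

theorem e9_act_lat {n r b : ℕ} (σ : Perm (Fin n)) (f : (Fin n → Fin r) → ℤ)
    (hf : f ∈ latS n r b) : act σ f ∈ latS n r b := by
  obtain ⟨N, hN, h⟩ := hf
  refine ⟨N, hN, ?_⟩
  rw [← map_smul]
  exact e9_act_span σ _ h

theorem e9_pure {n r b : ℕ} (N : ℤ) (hN : N ≠ 0) (f : (Fin n → Fin r) → ℤ)
    (hf : N • f ∈ latS n r b) : f ∈ latS n r b := by
  obtain ⟨M, hM, h⟩ := hf
  refine ⟨M * N, mul_ne_zero hM hN, ?_⟩
  rw [mul_smul]
  exact h

theorem e9_zero {n r b : ℕ} (f : (Fin n → Fin r) → ℤ)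
    (hf : f ∈ Submodule.span ℤ (Set.range (eb (n := n) (r := r) (b := b))))
    (w : Fin n → Fin r) (hw : ¬ Bal b w) : f w = 0 := by
  induction hf using Submodule.span_induction with
  | mem x hx =>
    obtain ⟨β, rfl⟩ := hx
    by_contra h
    exact hw (eb_bal β w h)
  | zero => rfl
  | add x y _ _ hx hy => rw [Pi.add_apply, hx, hy, add_zero]
  | smul c x _ hx => rw [Pi.smul_apply, hx, smul_zero]

theorem e9_bal_comp {n r b : ℕ} (σ : Perm (Fin n)) (w : Fin n → Fin r) (h : Bal b w) :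
    Bal b (w ∘ σ) := by
  intro j
  rw [← h j]
  unfold cnt
  refine Finset.card_bij (fun x _ => σ x) ?_ ?_ ?_
  · intro x hx
    rw [Finset.mem_filter] at hx ⊢
    exact ⟨Finset.mem_univ _, (σ x).isLt, hx.2.2⟩
  · intro x _ y _ hxy
    exact σ.injective hxy
  · intro y hy
    rw [Finset.mem_filter] at hy
    refine ⟨σ.symm y, ?_, σ.apply_symm_apply y⟩
    rw [Finset.mem_filter]
    refine ⟨Finset.mem_univ _, (σ.symm y).isLt, ?_⟩
    show w (σ (σ.symm y)) = j
    rw [σ.apply_symm_apply]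
    exact hy.2.2

theorem e9_bal_comp_iff {n r b : ℕ} (σ : Perm (Fin n)) (w : Fin n → Fin r) :
    Bal b (w ∘ σ) ↔ Bal b w := by
  constructor
  · intro h
    have h2 := e9_bal_comp σ.symm (w ∘ σ) h
    have e : (w ∘ σ) ∘ σ.symm = w := by
      funext x
      show w (σ (σ.symm x)) = w x
      rw [σ.apply_symm_apply]
    rw [e] at h2
    exact h2
  · exact e9_bal_comp σ w

theorem e9_exists_bal (r b : ℕ) : ∃ w : Fin (r * b) → Fin r, Bal b w := by
  obtain ⟨β, hβ⟩ : ∃ β : Fin (r * b) ≃ Fin r × Fin b, β = finProdFinEquiv.symm := ⟨_, rfl⟩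
  refine ⟨fun x => (β x).1, eb_bal β _ ?_⟩
  unfold eb
  rw [Finset.prod_eq_one]
  · exact one_ne_zero
  · intro c _
    have e : (Matrix.of fun i j : Fin r => if (β (β.symm (i, c))).1 = j then (1 : ℤ) else 0) =
        (1 : Matrix (Fin r) (Fin r) ℤ) := by
      ext i j
      rw [Matrix.of_apply, β.apply_symm_apply, Matrix.one_apply]
    rw [e, Matrix.det_one]

/-- the representation on the lattice, twisted by a sign character -/
noncomputable def e9_rho {n r b : ℕ} (χ : Perm (Fin n) →* ℤˣ) (g : Perm (Fin n)) :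
    latS n r b →ₗ[ℤ] latS n r b where
  toFun f := ((χ g : ℤˣ) : ℤ) • ⟨act g f.1, e9_act_lat g f.1 f.2⟩
  map_add' x y := by
    apply Subtype.ext
    show ((χ g : ℤˣ) : ℤ) • act g (x.1 + y.1) =
      ((χ g : ℤˣ) : ℤ) • act g x.1 + ((χ g : ℤˣ) : ℤ) • act g y.1
    rw [map_add, smul_add]
  map_smul' c x := by
    apply Subtype.ext
    show ((χ g : ℤˣ) : ℤ) • act g (c • x.1) = c • (((χ g : ℤˣ) : ℤ) • act g x.1)
    rw [map_smul, smul_comm]

theorem e9_rho_val {n r b : ℕ} (χ : Perm (Fin n) →* ℤˣ) (g : Perm (Fin n)) (f : latS n r b) :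
    (e9_rho χ g f).1 = ((χ g : ℤˣ) : ℤ) • act g f.1 := rfl

theorem e9_sq (u : ℤˣ) : (u : ℤ) * (u : ℤ) = 1 := by
  rcases Int.units_eq_one_or u with h | h
  · rw [h]; norm_num
  · rw [h]; norm_num

/-- row E9: assembly of E -/
theorem exists_lattice (p C : ℕ) [Fact p.Prime] : ∃ n : ℕ, 1 ≤ n ∧ ∀ χ : Perm (Fin n) →* ℤˣ,
    ∃ (S : Type) (_ : AddCommGroup S) (_ : Module.Free ℤ S) (_ : Module.Finite ℤ S)
      (ρ : Perm (Fin n) →* (S →ₗ[ℤ] S)) (v : S),
      C ^ n < Module.finrank ℤ S ∧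
      (∀ T : S →ₗ[ℤ] S, (∀ g, T ∘ₗ ρ g = ρ g ∘ₗ T) → ∃ c : ℤ, ∀ s, T s = c • s) ∧
      (∀ u : S, v ≠ (p : ℤ) • u) ∧
      ∀ g, ∃ u : S, ρ g v - ((χ g : ℤˣ) : ℤ) • v = (p : ℤ) • u := by
  have hp : p.Prime := Fact.out
  have hp0 : (p : ℤ) ≠ 0 := by exact_mod_cast hp.ne_zero
  obtain ⟨r, j, b, hr, hb1, hbj, hrb, hC⟩ := exists_numbers p C hp
  refine ⟨r * b, Nat.mul_pos hr hb1, ?_⟩
  intro χ
  obtain ⟨f, hf, hfw⟩ := exists_invariant (n := r * b) (r := r) p j hp hbj
  have hfl : f ∈ latS (r * b) r b := ⟨1, one_ne_zero, by rw [one_smul]; exact hf⟩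
  obtain ⟨ρ, hρ⟩ : ∃ ρ : Perm (Fin (r * b)) →* (latS (r * b) r b →ₗ[ℤ] latS (r * b) r b),
      ∀ g, ρ g = e9_rho χ g := by
    refine ⟨{ toFun := fun g => e9_rho χ g, map_one' := ?_, map_mul' := ?_ }, fun g => rfl⟩
    · apply LinearMap.ext
      intro x
      apply Subtype.ext
      rw [e9_rho_val, map_one, Units.val_one, one_smul, e9_act_one]
      rfl
    · intro g h
      apply LinearMap.ext
      intro x
      apply Subtype.ext
      show (e9_rho χ (g * h) x).1 = (e9_rho χ g (e9_rho χ h x)).1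
      rw [e9_rho_val, e9_rho_val, e9_rho_val, e9_act_mul, map_smul, map_mul, Units.val_mul,
        mul_smul]
  refine ⟨latS (r * b) r b, inferInstance, inferInstance, inferInstance, ρ, ⟨f, hfl⟩,
    ?_, ?_, ?_, ?_⟩
  · exact lt_of_lt_of_le hC (rank_latS rfl hrb)
  · intro T hT
    refine end_scalar T ?_
    intro σ x y hxy
    have h1 := LinearMap.congr_fun (hT σ) x
    rw [LinearMap.comp_apply, LinearMap.comp_apply, hρ] at h1
    have e : e9_rho χ σ x = ((χ σ : ℤˣ) : ℤ) • y := by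
      apply Subtype.ext
      show ((χ σ : ℤˣ) : ℤ) • act σ x.1 = ((χ σ : ℤˣ) : ℤ) • y.1
      rw [hxy]
    rw [e, map_smul] at h1
    have h2 := congrArg Subtype.val h1
    rw [e9_rho_val] at h2
    have h3 : ((χ σ : ℤˣ) : ℤ) • (T y).1 = ((χ σ : ℤˣ) : ℤ) • act σ (T x).1 := h2
    have h4 := congrArg (fun z => ((χ σ : ℤˣ) : ℤ) • z) h3
    simp only [← mul_smul, e9_sq, one_smul] at h4
    exact h4
  · intro u hu
    obtain ⟨w, hw⟩ := e9_exists_bal r b
    have h1 := hfw w hw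
    have h2 : f = (p : ℤ) • u.1 := congrArg Subtype.val hu
    have h3 : (p : ℤ) ∣ f w := by
      rw [h2, Pi.smul_apply, smul_eq_mul]
      exact dvd_mul_right _ _
    have h4 : (p : ℤ) ∣ 1 := by
      have := dvd_sub h3 h1
      have e : f w - (f w - 1) = 1 := by ring
      rw [e] at this
      exact this
    have h5 : p ∣ 1 := by exact_mod_cast h4
    exact hp.one_lt.ne' (Nat.dvd_one.1 h5)
  · intro g
    have hdiv : ∀ w, (p : ℤ) ∣ (act g f - f) w := by
      intro w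
      have e : (act g f - f) w = f (w ∘ g) - f w := rfl
      rw [e]
      by_cases hw : Bal b w
      · have h1 := hfw w hw
        have h2 := hfw (w ∘ g) (e9_bal_comp g w hw)
        have h3 := dvd_sub h2 h1
        have e2 : f (w ∘ g) - 1 - (f w - 1) = f (w ∘ g) - f w := by ring
        rw [e2] at h3
        exact h3
      · have hw2 : ¬ Bal b (w ∘ g) := fun h => hw ((e9_bal_comp_iff g w).1 h)
        rw [e9_zero f hf w hw, e9_zero f hf _ hw2, sub_zero]
        exact dvd_zero _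
    choose k hk using hdiv
    have hkf : (p : ℤ) • k = act g f - f := by
      funext w
      rw [Pi.smul_apply, smul_eq_mul]
      exact (hk w).symm
    have hkl : k ∈ latS (r * b) r b := by
      apply e9_pure (p : ℤ) hp0
      rw [hkf]
      exact Submodule.sub_mem _ (e9_act_lat g f hfl) hfl
    refine ⟨((χ g : ℤˣ) : ℤ) • ⟨k, hkl⟩, ?_⟩
    rw [hρ]
    apply Subtype.ext
    show ((χ g : ℤˣ) : ℤ) • act g f - ((χ g : ℤˣ) : ℤ) • f = (p : ℤ) • (((χ g : ℤˣ) : ℤ) • k)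
    rw [← smul_sub, ← hkf, smul_comm]

end Pool.PI34.C0
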