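import Pool.Agent.LibPI34.C0_B2
import Pool.Agent.LibPI34.C0_C1
import Pool.Agent.LibPI34.C0_C2
import Pool.Agent.LibPI34.C0_D4
import Pool.Agent.LibPI34.C0_E9

set_option autoImplicit false

namespace Pool.PI34.C0

open Equiv Finset

/-- BLOCK C0.  For `χ = Equiv.Perm.sign` this is the Capelli identity. -/
theorem capelli (p : ℕ) [Fact p.Prime] (d : ℕ) : ∃ n : ℕ, 1 ≤ n ∧
    ∀ (U : Type) [Ring U] (R : NonUnitalSubring U) (a : Perm (Fin (d + 1)) → ℤ), a 1 = 1 →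
      (∀ x : Fin (d + 1) → U, (∀ i, x i ∈ R) → ∑ σ, a σ • mono x σ = 0) →
      (∀ r ∈ R, (p : ℤ) • r = 0) →
      ∀ χ : Perm (Fin n) →* ℤˣ, ∀ (v : Fin (n + 1) → U) (x : Fin n → U),
        (∀ i, v i ∈ R) → (∀ i, x i ∈ R) →
        ∑ σ, ((χ σ : ℤˣ) : ℤ) • capMono v x σ = 0 := by
  obtain ⟨n, hn, hlat⟩ := exists_lattice p ((d + 1) ^ 6)
  refine ⟨n, hn, fun U _ R a ha hPI hp χ v x hv hx => ?_⟩
  obtain ⟨I, hI, hval⟩ := exists_ideal R a ha hPI p hp n
  have hNI : normEl (K := ZMod p) (chiP p χ) ∈ I := by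
    by_contra hcon
    obtain ⟨e, he, hIe, hχe⟩ := exists_idem (chiP p χ) I hcon
    obtain ⟨S, _, _, _, ρ, w, hrank, hEnd, hw, hinv⟩ := hlat χ
    have h1 := rank_le_dim ρ χ hEnd w hw hinv e he hχe
    have h2 := finrank_span_le I e he hIe
    have h3 : d ^ (2 * (2 * n + 1)) ≤ ((d + 1) ^ 6) ^ n := by
      rw [← pow_mul]
      calc d ^ (2 * (2 * n + 1)) ≤ (d + 1) ^ (2 * (2 * n + 1)) := Nat.pow_le_pow_left (by omega) _
        _ ≤ (d + 1) ^ (6 * n) := Nat.pow_le_pow_right (by omega) (by omega)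
    omega
  set c : MonoidAlgebra ℤ (Perm (Fin n)) := ∑ g : Perm (Fin n), MonoidAlgebra.single g ((χ g : ℤˣ) : ℤ) with hc
  have hred : red p _ c = normEl (K := ZMod p) (chiP p χ) := by
    rw [hc, map_sum, normEl]
    refine Finset.sum_congr rfl fun g _ => ?_
    have h1 : (χ g⁻¹ : ℤˣ) = χ g := by
      rw [map_inv, Int.units_inv_eq_self]
    simp [red, chiP, h1]
  have h := hval c (by rw [hred]; exact hNI) v x hv hx
  have hcoeff : ∀ σ, c.coeff σ = ((χ σ : ℤˣ) : ℤ) := by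
    intro σ
    rw [hc, MonoidAlgebra.coeff_sum, Finsupp.finsetSum_apply]
    simp [Finsupp.single_apply]
  simpa [hcoeff] using h

end Pool.PI34.C0
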