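import Pool.Agent.LibPI34.T1_H

/-! PI34, conversion of a polynomial identity with a coefficient `±1` into a multilinear one, file A:
polarization. -/

set_option autoImplicit false

namespace Pool.PI34.CV

open Equiv Finset Pool.PI34.C0 Pool.PI34.T1

/-- nonempty and empty words -/
abbrev Wd : Type := Σ n : ℕ, (Fin n → ℕ)

/-- value of a word -/
def wv {U : Type} [Ring U] (v : ℕ → U) (p : Wd) : U := (List.ofFn fun t => v (p.2 t)).prod

/-- polarizing substitution -/
def vT {U : Type} [Ring U] {d : ℕ} (i : Fin d → ℕ) (y : Fin d → U) (T : Finset (Fin d)) (a : ℕ) : U :=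
  ∑ j : Fin d, if j ∉ T ∧ i j = a then y j else 0

/-- polarization of a word -/
def Gp {U : Type} [Ring U] {d : ℕ} (i : Fin d → ℕ) (y : Fin d → U) (p : Wd) : U :=
  ∑ τ : Fin p.1 → Fin d, if Function.Surjective τ ∧ ∀ t, i (τ t) = p.2 t then
    (List.ofFn fun t => y (τ t)).prod else 0

theorem prod_expand {U : Type} [Ring U] {n d : ℕ} (c : Fin n → Fin d → U) :
    (List.ofFn fun t => ∑ j, c t j).prod = ∑ τ : Fin n → Fin d, (List.ofFn fun t => c t (τ t)).prod := by
  have h := (MultilinearMap.mkPiAlgebraFin ℤ n U).map_sum (fun t j => c t j)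
  simpa only [MultilinearMap.mkPiAlgebraFin_apply] using h

theorem prod_ite {U : Type} [Ring U] {n : ℕ} (P : Fin n → Prop) [DecidablePred P] (c : Fin n → U) :
    (List.ofFn fun t => if P t then c t else 0).prod =
      if ∀ t, P t then (List.ofFn c).prod else 0 := by
  classical
  split_ifs with h
  · congr 2
    funext t
    rw [if_pos (h t)]
  · push Not at h
    obtain ⟨t, ht⟩ := h
    apply List.prod_eq_zero
    rw [List.mem_ofFn]
    exact ⟨t, if_neg ht⟩

theorem sum_sign {d : ℕ} (A : Finset (Fin d)) :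
    (∑ T : Finset (Fin d), if Disjoint T A then ((-1 : ℤ)) ^ T.card else 0) =
      if A = univ then 1 else 0 := by
  classical
  have h := Finset.sum_powerset_neg_one_pow_card (x := Aᶜ)
  have h2 : (∑ T : Finset (Fin d), if Disjoint T A then ((-1 : ℤ)) ^ T.card else 0) =
      ∑ T ∈ (Aᶜ).powerset, (-1 : ℤ) ^ T.card := by
    rw [← Finset.sum_filter]
    refine Finset.sum_congr ?_ fun _ _ => rfl
    ext T
    rw [mem_filter, mem_powerset, Finset.subset_compl_iff_disjoint_right]
    simp
  rw [h2, h]
  simp only [Finset.compl_eq_empty_iff]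

theorem polar_word {U : Type} [Ring U] {d : ℕ} (i : Fin d → ℕ) (y : Fin d → U) (p : Wd) :
    ∑ T : Finset (Fin d), ((-1 : ℤ)) ^ T.card • wv (vT i y T) p = Gp i y p := by
  classical
  obtain ⟨n, w⟩ := p
  have h1 : ∀ T : Finset (Fin d), wv (vT i y T) ⟨n, w⟩ =
      ∑ τ : Fin n → Fin d, if ∀ t, τ t ∉ T ∧ i (τ t) = w t then
        (List.ofFn fun t => y (τ t)).prod else 0 := by
    intro T
    unfold wv vT
    rw [prod_expand]
    refine Finset.sum_congr rfl fun τ _ => ?_
    exact prod_ite (fun t => τ t ∉ T ∧ i (τ t) = w t) (fun t => y (τ t))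
  simp only [h1, Finset.smul_sum]
  rw [Finset.sum_comm]
  unfold Gp
  refine Finset.sum_congr rfl fun τ _ => ?_
  have h2 : ∀ T : Finset (Fin d), ((-1 : ℤ)) ^ T.card • (if ∀ t, τ t ∉ T ∧ i (τ t) = w t then
      (List.ofFn fun t => y (τ t)).prod else 0) =
      (if Disjoint T (univ.image τ) then ((-1 : ℤ)) ^ T.card else 0) •
        (if ∀ t, i (τ t) = w t then (List.ofFn fun t => y (τ t)).prod else 0) := by
    intro T
    by_cases hd : Disjoint T (univ.image τ)
    · rw [if_pos hd]
      congr 1
      refine if_congr ?_ rfl rfl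
      constructor
      · intro h t; exact (h t).2
      · intro h t
        refine ⟨fun ht => ?_, h t⟩
        exact (Finset.disjoint_left.1 hd ht) (mem_image_of_mem _ (mem_univ _))
    · rw [if_neg hd, zero_smul, if_neg, smul_zero]
      intro h
      apply hd
      rw [Finset.disjoint_left]
      intro a ha hb
      rw [mem_image] at hb
      obtain ⟨t, _, rfl⟩ := hb
      exact (h t).1 ha
  rw [Finset.sum_congr rfl fun T _ => h2 T, ← Finset.sum_smul, sum_sign]
  have h3 : univ.image τ = univ ↔ Function.Surjective τ := by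
    rw [Finset.eq_univ_iff_forall]
    refine forall_congr' fun a => ?_
    simp
  by_cases hs : Function.Surjective τ
  · rw [if_pos (h3.2 hs), one_smul]
    refine if_congr ?_ rfl rfl
    simp [hs]
  · rw [if_neg (fun h => hs (h3.1 h)), zero_smul, if_neg (fun h => hs h.1)]

/-- shorter words -/
theorem Gp_lt {U : Type} [Ring U] {d : ℕ} (i : Fin d → ℕ) (y : Fin d → U) (p : Wd) (hp : p.1 < d) :
    Gp i y p = 0 := by
  classical
  unfold Gp
  refine Finset.sum_eq_zero fun τ _ => if_neg ?_
  rintro ⟨hs, _⟩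
  have := Fintype.card_le_of_surjective τ hs
  rw [Fintype.card_fin, Fintype.card_fin] at this
  omega

/-- words of the same length -/
theorem Gp_eq {U : Type} [Ring U] {d : ℕ} (i : Fin d → ℕ) (y : Fin d → U) (w : Fin d → ℕ) :
    Gp i y ⟨d, w⟩ = ∑ σ : Perm (Fin d), if (fun t => i (σ t)) = w then mono y σ else 0 := by
  classical
  unfold Gp
  change (∑ τ : Fin d → Fin d, if Function.Surjective τ ∧ ∀ t, i (τ t) = w t then
    (List.ofFn fun t => y (τ t)).prod else 0) = _
  have h1 : (∑ τ : Fin d → Fin d, if Function.Surjective τ ∧ ∀ t, i (τ t) = w t then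
      (List.ofFn fun t => y (τ t)).prod else 0) =
      ∑ τ ∈ univ.filter (fun τ : Fin d → Fin d => Function.Surjective τ),
        if ∀ t, i (τ t) = w t then (List.ofFn fun t => y (τ t)).prod else 0 := by
    rw [Finset.sum_filter]
    refine Finset.sum_congr rfl fun τ _ => ?_
    by_cases hs : Function.Surjective τ
    · simp [hs]
    · simp [hs]
  rw [h1]
  symm
  refine Finset.sum_bij (fun (σ : Perm (Fin d)) _ => (σ : Fin d → Fin d)) ?_ ?_ ?_ ?_
  · intro σ _
    rw [mem_filter]
    exact ⟨mem_univ _, σ.surjective⟩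
  · intro σ _ τ _ h
    exact Equiv.coe_fn_injective h
  · intro τ hτ
    rw [mem_filter] at hτ
    exact ⟨Equiv.ofBijective τ (Finite.surjective_iff_bijective.1 hτ.2), mem_univ _, rfl⟩
  · intro σ _
    unfold mono
    refine if_congr ?_ rfl rfl
    exact funext_iff

/-- scaling -/
theorem Gp_smul {U : Type} [Ring U] {d : ℕ} (i : Fin d → ℕ) (y : Fin d → U) (s : ℤ) (p : Wd) :
    Gp i (fun j => s • y j) p = s ^ p.1 • Gp i y p := by
  classical
  unfold Gp
  rw [Finset.smul_sum]
  refine Finset.sum_congr rfl fun τ _ => ?_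
  rw [smul_ite, smul_zero]
  refine if_congr Iff.rfl ?_ rfl
  have h := (MultilinearMap.mkPiAlgebraFin ℤ p.1 U).map_smul_univ (fun _ => s) (fun t => y (τ t))
  simpa only [MultilinearMap.mkPiAlgebraFin_apply, Finset.prod_const, Finset.card_univ,
    Fintype.card_fin] using h

end Pool.PI34.CV
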