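import Pool.Agent.LibPI34.CV_A

/-! PI34, conversion of a polynomial identity with a coefficient `±1` into a multilinear one, file B:
homogeneous components, the theorem. -/

set_option autoImplicit false

namespace Pool.PI34.CV

open Equiv Finset Pool.PI34.C0 Pool.PI34.T1

/-- `D ∙ g(N) = 0` for some multilinear `g` with coefficient `1` -/
def ML {U : Type} [Ring U] (N : AddSubgroup U) (D : ℕ) : Prop :=
  ∃ (d : ℕ) (a : Perm (Fin d) → ℤ), 0 < d ∧ a 1 = 1 ∧
    ∀ x : Fin d → U, (∀ i, x i ∈ N) → D • ∑ σ, a σ • mono x σ = 0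

/-- the polynomial with coefficients `c` vanishes on `N` -/
def Van {U : Type} [Ring U] (N : AddSubgroup U) (s : Finset Wd) (c : Wd → ℤ) : Prop :=
  ∀ v : ℕ → U, (∀ a, v a ∈ N) → ∑ p ∈ s, c p • wv v p = 0

theorem vT_mem {U : Type} [Ring U] (N : AddSubgroup U) {d : ℕ} (i : Fin d → ℕ) (y : Fin d → U)
    (hy : ∀ j, y j ∈ N) (T : Finset (Fin d)) (a : ℕ) : vT i y T a ∈ N := by
  unfold vT
  refine AddSubgroup.sum_mem _ fun j _ => ?_
  split_ifs
  · exact hy j
  · exact N.zero_mem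

theorem van_Gp {U : Type} [Ring U] (N : AddSubgroup U) (s : Finset Wd) (c : Wd → ℤ)
    (h : Van N s c) {d : ℕ} (i : Fin d → ℕ) (y : Fin d → U) (hy : ∀ j, y j ∈ N) :
    ∑ p ∈ s, c p • Gp i y p = 0 := by
  classical
  have h1 : ∑ p ∈ s, c p • Gp i y p =
      ∑ T : Finset (Fin d), ((-1 : ℤ)) ^ T.card • ∑ p ∈ s, c p • wv (vT i y T) p := by
    simp only [Finset.smul_sum, ← polar_word]
    rw [Finset.sum_comm]
    refine Finset.sum_congr rfl fun T _ => Finset.sum_congr rfl fun p _ => ?_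
    rw [smul_comm]
  rw [h1]
  refine Finset.sum_eq_zero fun T _ => ?_
  rw [h _ (vT_mem N i y hy T), smul_zero]

/-- the coefficient form of the part of degree `d` -/
theorem sum_deg {U : Type} [Ring U] (s : Finset Wd) (c : Wd → ℤ) (hc : ∀ p, p ∉ s → c p = 0)
    {d : ℕ} (i : Fin d → ℕ) (y : Fin d → U) :
    ∑ p ∈ s.filter (fun p => p.1 = d), c p • Gp i y p =
      ∑ σ : Perm (Fin d), c ⟨d, fun t => i (σ t)⟩ • mono y σ := by
  classical
  have h1 : ∀ p ∈ s.filter (fun p : Wd => p.1 = d), c p • Gp i y p =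
      ∑ σ : Perm (Fin d), if (⟨d, fun t => i (σ t)⟩ : Wd) = p then c p • mono y σ else 0 := by
    rintro ⟨n, w⟩ hp
    rw [mem_filter] at hp
    obtain ⟨_, hn⟩ := hp
    change n = d at hn
    subst hn
    rw [Gp_eq, Finset.smul_sum]
    refine Finset.sum_congr rfl fun σ _ => ?_
    rw [smul_ite, smul_zero]
    refine if_congr ?_ rfl rfl
    constructor
    · intro h; rw [h]
    · intro h
      exact eq_of_heq (Sigma.mk.inj h).2
  rw [Finset.sum_congr rfl h1, Finset.sum_comm]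
  refine Finset.sum_congr rfl fun σ _ => ?_
  by_cases hm : (⟨d, fun t => i (σ t)⟩ : Wd) ∈ s
  · rw [Finset.sum_ite_eq, if_pos]
    rw [mem_filter]
    exact ⟨hm, rfl⟩
  · rw [hc _ hm, zero_smul]
    refine Finset.sum_eq_zero fun p hp => ?_
    rw [if_neg]
    rintro rfl
    exact hm (mem_filter.1 hp).1

/-- homogeneous components: a nonzero multiple vanishes -/
theorem exists_D {U : Type} [Ring U] (N : AddSubgroup U) (s : Finset Wd) (c : Wd → ℤ)
    (hc : ∀ p, p ∉ s → c p = 0) (h : Van N s c) : ∃ D : ℕ, D ≠ 0 ∧ ∀ (d : ℕ) (i : Fin d → ℕ)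
    (y : Fin d → U), (∀ j, y j ∈ N) →
      D • ∑ σ : Perm (Fin d), c ⟨d, fun t => i (σ t)⟩ • mono y σ = 0 := by
  classical
  let M := (s.sup fun p => p.1) + 1
  have hM : ∀ p ∈ s, p.1 < M := fun p hp => by
    have := Finset.le_sup (f := fun p : Wd => p.1) hp
    change p.1 < (s.sup fun p => p.1) + 1
    exact Nat.lt_succ_of_le this
  let V : Matrix (Fin M) (Fin M) ℤ := Matrix.vandermonde fun k : Fin M => (k.val : ℤ)
  have hV : V.det ≠ 0 := by
    rw [Matrix.det_vandermonde_ne_zero_iff]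
    intro a b hab
    have hab' : (a.val : ℤ) = (b.val : ℤ) := hab
    exact Fin.ext (by exact_mod_cast hab')
  refine ⟨V.det.natAbs, Int.natAbs_ne_zero.2 hV, fun d i y hy => ?_⟩
  have key : V.det • ∑ σ : Perm (Fin d), c ⟨d, fun t => i (σ t)⟩ • mono y σ = 0 := by
    by_cases hd : d < M
    · have h1 : ∀ e : Fin M, ∑ k : Fin M, V.adjugate ⟨d, hd⟩ k * V k e =
          if (⟨d, hd⟩ : Fin M) = e then V.det else 0 := by
        intro e
        have h2 := congrFun (congrFun (Matrix.adjugate_mul V) ⟨d, hd⟩) e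
        rw [Matrix.mul_apply] at h2
        rw [h2, Matrix.smul_apply, Matrix.one_apply]
        split_ifs
        · rw [smul_eq_mul, mul_one]
        · rw [smul_zero]
      have h3 : ∀ k : Fin M, ∑ p ∈ s, c p • ((k.val : ℤ) ^ p.1 • Gp i y p) = 0 := by
        intro k
        have h4 := van_Gp N s c h i (fun j => (k.val : ℤ) • y j)
          (fun j => AddSubgroup.zsmul_mem _ (hy j) _)
        simpa only [Gp_smul] using h4
      have h5 : ∑ k : Fin M, V.adjugate ⟨d, hd⟩ k •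
          ∑ p ∈ s, c p • ((k.val : ℤ) ^ p.1 • Gp i y p) = 0 := by
        refine Finset.sum_eq_zero fun k _ => ?_
        rw [h3, smul_zero]
      rw [← sum_deg s c hc i y, Finset.smul_sum, ← h5]
      have h6 : ∀ k : Fin M, V.adjugate ⟨d, hd⟩ k •
          ∑ p ∈ s, c p • ((k.val : ℤ) ^ p.1 • Gp i y p) =
          ∑ p ∈ s, (V.adjugate ⟨d, hd⟩ k * (k.val : ℤ) ^ p.1) • (c p • Gp i y p) := by
        intro k
        rw [Finset.smul_sum]
        refine Finset.sum_congr rfl fun p _ => ?_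
        rw [smul_smul, smul_smul, smul_smul]
        congr 1
        ring
      rw [Finset.sum_congr rfl fun k _ => h6 k, Finset.sum_comm, Finset.sum_filter]
      refine Finset.sum_congr rfl fun p hp => ?_
      rw [← Finset.sum_smul]
      have h7 := h1 ⟨p.1, hM p hp⟩
      have h8 : ∑ k : Fin M, V.adjugate ⟨d, hd⟩ k * (k.val : ℤ) ^ p.1 =
          if (⟨d, hd⟩ : Fin M) = ⟨p.1, hM p hp⟩ then V.det else 0 := h7
      rw [h8]
      by_cases hpd : p.1 = d
      · rw [if_pos hpd, if_pos (Fin.ext hpd.symm)]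
      · rw [if_neg hpd, if_neg, zero_smul]
        intro he
        exact hpd (congrArg Fin.val he).symm
    · have h1 : ∀ σ : Perm (Fin d), c ⟨d, fun t => i (σ t)⟩ • mono y σ = 0 := by
        intro σ
        rw [hc, zero_smul]
        intro hp
        exact hd (hM _ hp)
      rw [Finset.sum_eq_zero fun σ _ => h1 σ, smul_zero]
  rw [← natCast_zsmul]
  rcases Int.natAbs_eq V.det with he | he
  · rw [← he]
    exact key
  · have he' : ((V.det.natAbs : ℕ) : ℤ) = -V.det := by omega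
    rw [he', neg_smul, key, neg_zero]

/-- one prime -/
theorem exists_q {U : Type} [Ring U] (N : AddSubgroup U) (s : Finset Wd) (c : Wd → ℤ)
    (hc : ∀ p, p ∉ s → c p = 0) (h : Van N s c) (hpos : ∀ p ∈ s, 0 < p.1) (w0 : Wd)
    (hw0 : c w0 = 1 ∨ c w0 = -1) (p : ℕ) (hp : p.Prime) :
    ∃ (d : ℕ) (a : Perm (Fin d) → ℤ), 0 < d ∧ a 1 = 1 ∧
      ∀ x : Fin d → U, (∀ i, x i ∈ N) → ∃ u : U, ∑ σ, a σ • mono x σ = p • u := by
  classical
  have hw0s : w0 ∈ s := by
    by_contra hn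
    rw [hc _ hn] at hw0
    omega
  have hne : (s.filter fun w => ¬ (p : ℤ) ∣ c w).Nonempty := by
    refine ⟨w0, ?_⟩
    rw [mem_filter]
    refine ⟨hw0s, fun hd => ?_⟩
    have hd' : (p : ℤ) ∣ 1 := by
      rcases hw0 with h1 | h1
      · rwa [h1] at hd
      · rwa [h1, dvd_neg] at hd
    have := Int.natCast_dvd_natCast.1 (by exact_mod_cast hd' : ((p : ℕ) : ℤ) ∣ ((1 : ℕ) : ℤ))
    exact hp.one_lt.ne' (Nat.dvd_one.1 this)
  obtain ⟨w1, hw1, hmax⟩ := Finset.exists_max_image _ (fun w : Wd => w.1) hne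
  rw [mem_filter] at hw1
  obtain ⟨d, i⟩ := w1
  have hcop : IsCoprime (c ⟨d, i⟩) (p : ℤ) :=
    ((Nat.prime_iff_prime_int.1 hp).irreducible.coprime_iff_not_dvd.2 hw1.2).symm
  obtain ⟨e, m, hem⟩ := hcop
  refine ⟨d, fun σ => e * c ⟨d, fun t => i (σ t)⟩ + (if σ = 1 then m * p else 0),
    hpos _ hw1.1, ?_, fun y hy => ?_⟩
  · change e * c ⟨d, i⟩ + (if (1 : Perm (Fin d)) = 1 then m * (p : ℤ) else 0) = 1
    rw [if_pos rfl]
    exact hem
  · have h0 := van_Gp N s c h i y hy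
    have h1 : ∃ u : U, ∑ w ∈ s, c w • Gp i y w =
        (∑ σ : Perm (Fin d), c ⟨d, fun t => i (σ t)⟩ • mono y σ) + p • u := by
      rw [← sum_deg s c hc i y, ← Finset.sum_filter_add_sum_filter_not s (fun w : Wd => w.1 = d)]
      have h2 : ∀ w ∈ s.filter (fun w : Wd => ¬ w.1 = d), ∃ u : U, c w • Gp i y w = p • u := by
        intro w hw
        rw [mem_filter] at hw
        rcases lt_or_gt_of_ne hw.2 with hlt | hgt
        · exact ⟨0, by rw [Gp_lt i y w hlt, smul_zero, smul_zero]⟩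
        · have hdvd : (p : ℤ) ∣ c w := by
            by_contra hnd
            have := hmax w (mem_filter.2 ⟨hw.1, hnd⟩)
            exact absurd this (not_le.2 hgt)
          obtain ⟨k, hk⟩ := hdvd
          refine ⟨k • Gp i y w, ?_⟩
          rw [hk, mul_smul, natCast_zsmul]
      have h3 : ∃ u : U, ∑ w ∈ s.filter (fun w : Wd => ¬ w.1 = d), c w • Gp i y w = p • u := by
        have h4 : ∀ w : Wd, ∃ u : U, w ∈ s.filter (fun w : Wd => ¬ w.1 = d) →
            c w • Gp i y w = p • u := by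
          intro w
          by_cases hw : w ∈ s.filter (fun w : Wd => ¬ w.1 = d)
          · obtain ⟨u, hu⟩ := h2 w hw
            exact ⟨u, fun _ => hu⟩
          · exact ⟨0, fun h => absurd h hw⟩
        choose u hu using h4
        refine ⟨∑ w ∈ s.filter (fun w : Wd => ¬ w.1 = d), u w, ?_⟩
        rw [Finset.smul_sum]
        exact Finset.sum_congr rfl fun w hw => hu w hw
      obtain ⟨u, hu⟩ := h3
      exact ⟨u, by rw [hu]⟩
    obtain ⟨u, hu⟩ := h1
    rw [h0] at hu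
    have h5 : ∑ σ : Perm (Fin d), c ⟨d, fun t => i (σ t)⟩ • mono y σ = -(p • u) :=
      eq_neg_of_add_eq_zero_left hu.symm
    refine ⟨-(e • u) + m • mono y 1, ?_⟩
    have h6 : ∀ σ : Perm (Fin d), (e * c ⟨d, fun t => i (σ t)⟩ + (if σ = 1 then m * p else 0)) •
        mono y σ = e • (c ⟨d, fun t => i (σ t)⟩ • mono y σ) +
          (if σ = 1 then (m * p) • mono y σ else 0) := by
      intro σ
      rw [add_smul, mul_smul]
      split_ifs
      · rfl
      · rw [zero_smul]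
    rw [Finset.sum_congr rfl fun σ _ => h6 σ, Finset.sum_add_distrib, ← Finset.smul_sum, h5,
      Finset.sum_ite_eq', if_pos (mem_univ _), smul_add, smul_neg, smul_neg, smul_comm e p u,
      mul_comm m (p : ℤ), mul_smul, natCast_zsmul]

/-- products -/
theorem mono_sum_mul {U : Type} [Ring U] {p q : ℕ} (a : Perm (Fin p) → ℤ) (b : Perm (Fin q) → ℤ)
    (ha : a 1 = 1) (hb : b 1 = 1) : ∃ g : Perm (Fin (p + q)) → ℤ, g 1 = 1 ∧
      ∀ x : Fin (p + q) → U, ∑ ρ, g ρ • mono x ρ =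
        (∑ σ, a σ • mono (fun i => x (Fin.castAdd q i)) σ) *
          ∑ τ, b τ • mono (fun i => x (Fin.natAdd p i)) τ :=
  ⟨t1a_cf a b, by rw [t1a_cf_one, ha, hb, one_mul], t1a_sum a b⟩

theorem ML_one {U : Type} [Ring U] (N : AddSubgroup U)
    (hq : ∀ p : ℕ, p.Prime → ∃ (d : ℕ) (a : Perm (Fin d) → ℤ), 0 < d ∧ a 1 = 1 ∧
      ∀ x : Fin d → U, (∀ i, x i ∈ N) → ∃ u : U, ∑ σ, a σ • mono x σ = p • u) (D : ℕ) :
    D ≠ 0 → ML N D → ML N 1 := by
  induction D using Nat.strong_induction_on with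
  | _ D ih =>
    intro hD hML
    by_cases h1 : D = 1
    · rw [← h1]; exact hML
    · obtain ⟨p, hp, hpd⟩ := Nat.exists_prime_and_dvd h1
      obtain ⟨E, rfl⟩ := hpd
      have hE : E ≠ 0 := by
        rintro rfl
        exact hD (mul_zero p)
      refine ih E ?_ hE ?_
      · have := hp.one_lt
        have hE' : 0 < E := Nat.pos_of_ne_zero hE
        nlinarith
      · obtain ⟨d, a, hd, ha, hx⟩ := hML
        obtain ⟨e, b, he, hb, hy⟩ := hq p hp
        obtain ⟨g, hg, hgx⟩ := mono_sum_mul (U := U) b a hb ha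
        refine ⟨e + d, g, by omega, hg, fun x hxN => ?_⟩
        obtain ⟨u, hu⟩ := hy (fun i => x (Fin.castAdd d i)) (fun i => hxN _)
        have hv := hx (fun i => x (Fin.natAdd e i)) (fun i => hxN _)
        rw [hgx, hu, smul_mul_assoc, smul_smul, mul_comm E p, ← mul_smul_comm, hv, mul_zero]

/-- the conversion -/
theorem conv {U : Type} [Ring U] (N : AddSubgroup U) (s : Finset Wd) (c : Wd → ℤ)
    (hc : ∀ p, p ∉ s → c p = 0) (h : Van N s c) (hpos : ∀ p ∈ s, 0 < p.1) (w0 : Wd)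
    (hw0 : c w0 = 1 ∨ c w0 = -1) :
    ∃ (d : ℕ) (a : Perm (Fin (d + 1)) → ℤ), a 1 = 1 ∧
      ∀ x : Fin (d + 1) → U, (∀ i, x i ∈ N) → ∑ σ, a σ • mono x σ = 0 := by
  obtain ⟨D, hD, hx⟩ := exists_D N s c hc h
  have hw0s : w0 ∈ s := by
    by_contra hn
    rw [hc _ hn] at hw0
    omega
  have hML : ML N D := by
    obtain ⟨d, i⟩ := w0
    refine ⟨d, fun σ => c ⟨d, i⟩ * c ⟨d, fun t => i (σ t)⟩, hpos _ hw0s, ?_, fun y hy => ?_⟩
    · change c ⟨d, i⟩ * c ⟨d, i⟩ = 1
      rcases hw0 with h1 | h1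
      · rw [h1]; rfl
      · rw [h1]; rfl
    · have h1 : ∀ σ : Perm (Fin d), (c ⟨d, i⟩ * c ⟨d, fun t => i (σ t)⟩) • mono y σ =
          c ⟨d, i⟩ • (c ⟨d, fun t => i (σ t)⟩ • mono y σ) := fun σ => mul_smul _ _ _
      rw [Finset.sum_congr rfl fun σ _ => h1 σ, ← Finset.smul_sum, smul_comm, hx d i y hy, smul_zero]
  obtain ⟨d, a, hd, ha, hxx⟩ := ML_one N (exists_q N s c hc h hpos w0 hw0) D hD hML
  obtain ⟨e, rfl⟩ : ∃ e, d = e + 1 := ⟨d - 1, by omega⟩
  refine ⟨e, a, ha, fun x hxN => ?_⟩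
  have := hxx x hxN
  rwa [one_smul] at this

end Pool.PI34.CV
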