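import Mathlib

/-!
Free associative rings (without unit), polynomial identities, varieties and relatively free rings.
Rings are associative and need not have a unit; homomorphisms need not preserve a unit.
-/

set_option autoImplicit false

namespace Pool.PI34.CV

/-- The free associative ring `ℤ⟨X⟩` without unit: polynomials without constant term, with integer
coefficients, in the noncommuting variables from `X`; the monomials are the nonempty words in `X`. -/
abbrev Fr (X : Type) : Type := MonoidAlgebra ℤ (FreeSemigroup X)

/-- The value of a polynomial under the substitution `v` of elements of `R` for the variables. -/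
noncomputable def ev {X R : Type} [NonUnitalRing R] (v : X → R) : Fr X →ₙₐ[ℤ] R :=
  MonoidAlgebra.liftMagma ℤ (FreeSemigroup.lift v)

/-- The ring `R` satisfies the polynomial `f`. -/
def Sat {X : Type} (R : Type) [NonUnitalRing R] (f : Fr X) : Prop :=
  ∀ v : X → R, ev v f = 0

/-- PI rings: `R` satisfies some polynomial having at least one coefficient `1` or `-1`. -/
def IsPI (R : Type) [NonUnitalRing R] : Prop :=
  ∃ f : Fr ℕ, (∃ w : FreeSemigroup ℕ, f.coeff w = 1 ∨ f.coeff w = -1) ∧ Sat R f

/-- `R` belongs to the variety of rings defined by the set `E` of polynomial identities (every polynomial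
has finitely many variables, so polynomials in countably many variables suffice). -/
def InVar (E : Set (Fr ℕ)) (R : Type) [NonUnitalRing R] : Prop := ∀ f ∈ E, Sat R f

/-- The ideal `T(V)` of all polynomials in the variables `X` that are satisfied by every ring of the
variety `V` defined by `E`; it is a two-sided ideal of `ℤ⟨X⟩`. -/
noncomputable def TV (E : Set (Fr ℕ)) (X : Type) : TwoSidedIdeal (Fr X) :=
  TwoSidedIdeal.mk' {g : Fr X | ∀ (R : Type) [NonUnitalRing R], InVar E R → Sat R g}
    (fun R _ _ v => map_zero (ev v))
    (fun {f g} hf hg R _ hR v => by rw [map_add, hf R hR v, hg R hR v, add_zero])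
    (fun {f} hf R _ hR v => by rw [map_neg, hf R hR v, neg_zero])
    (fun {f g} hg R _ hR v => by rw [map_mul, hg R hR v, mul_zero])
    (fun {f g} hf R _ hR v => by rw [map_mul, hf R hR v, zero_mul])

/-- The free ring `F_X(V) = ℤ⟨X⟩ / T(V)` of the variety `V` defined by `E`. -/
abbrev FreeVar (E : Set (Fr ℕ)) (X : Type) : Type := (TV E X).ringCon.Quotient

end Pool.PI34.CV
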