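import Pool.Agent.LibPI34.CV_B
import Pool.Agent.LibPI34.CV_Def

/-! PI34, conversion of a polynomial identity with a coefficient `±1` into a multilinear one, file C:
polynomials. -/

set_option autoImplicit false

namespace Pool.PI34.CV

open Equiv Finset Pool.PI34.C0 Pool.PI34.T1

theorem ev_eq {X R : Type} [NonUnitalRing R] (v : X → R) (f : Fr X) :
    ev v f = ∑ w ∈ f.coeff.support, f.coeff w • FreeSemigroup.lift v w := by
  unfold ev
  rw [MonoidAlgebra.liftMagma_apply_apply]
  rfl

theorem ev_single {X R : Type} [NonUnitalRing R] (v : X → R) (w : FreeSemigroup X) (a : ℤ) :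
    ev v (MonoidAlgebra.single w a) = a • FreeSemigroup.lift v w := by
  unfold ev
  rw [MonoidAlgebra.liftMagma_apply_apply]
  simp

theorem ev_of {X R : Type} [NonUnitalRing R] (v : X → R) (x : X) :
    ev v (MonoidAlgebra.single (FreeSemigroup.of x) 1) = v x := by
  rw [ev_single, one_smul, FreeSemigroup.lift_of]

theorem map_lift {X R S F : Type} [NonUnitalRing R] [NonUnitalRing S] [FunLike F R S]
    [NonUnitalRingHomClass F R S] (φ : F) (v : X → R) (w : FreeSemigroup X) :
    φ (FreeSemigroup.lift v w) = FreeSemigroup.lift (fun x => φ (v x)) w := by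
  obtain ⟨x, l⟩ := w
  rw [FreeSemigroup.lift_mk_eq_foldl, FreeSemigroup.lift_mk_eq_foldl]
  have h : ∀ (l : List X) (r : R), φ (l.foldl (fun a b => a * v b) r) =
      l.foldl (fun a b => a * φ (v b)) (φ r) := by
    intro l
    induction l with
    | nil => intro r; rfl
    | cons y l ih =>
      intro r
      rw [List.foldl_cons, List.foldl_cons, ih, map_mul]
  exact h l (v x)

theorem map_ev {X R S F : Type} [NonUnitalRing R] [NonUnitalRing S] [FunLike F R S]
    [NonUnitalRingHomClass F R S] (φ : F) (v : X → R) (f : Fr X) :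
    φ (ev v f) = ev (fun x => φ (v x)) f := by
  rw [ev_eq, ev_eq, map_sum]
  refine Finset.sum_congr rfl fun w _ => ?_
  rw [map_zsmul, map_lift]

/-- word of an element of the free semigroup -/
def tw (w : FreeSemigroup ℕ) : Wd := ⟨(w.head :: w.tail).length, fun t => (w.head :: w.tail).get t⟩

theorem tw_ofFn (w : FreeSemigroup ℕ) : List.ofFn (tw w).2 = w.head :: w.tail :=
  List.ofFn_get _

theorem tw_inj : Function.Injective tw := by
  intro a b h
  have h1 := congrArg (fun p : Wd => List.ofFn p.2) h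
  have h2 : a.head :: a.tail = b.head :: b.tail := by
    rw [← tw_ofFn a, ← tw_ofFn b]
    exact h1
  obtain ⟨h3, h4⟩ := List.cons.inj h2
  exact FreeSemigroup.ext h3 h4

theorem wv_tw {R : Type} [NonUnitalRing R] (v : ℕ → R) (w : FreeSemigroup ℕ) :
    wv (fun a => inU R (v a)) (tw w) = inU R (FreeSemigroup.lift v w) := by
  have h1 : wv (fun a => inU R (v a)) (tw w) =
      ((w.head :: w.tail).map fun a => inU R (v a)).prod := by
    unfold wv
    rw [← tw_ofFn w, List.map_ofFn]
    rfl
  rw [h1]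
  obtain ⟨x, l⟩ := w
  rw [FreeSemigroup.lift_mk_eq_foldl]
  have h2 := inr_foldl R (v x) (l.map v)
  rw [List.foldl_map] at h2
  rw [h2, List.map_cons, List.prod_cons, List.map_map]
  rfl

/-- a polynomial identity with a coefficient `±1` gives a multilinear one with coefficient `1` -/
theorem piid_of_isPI {R : Type} [NonUnitalRing R] (h : IsPI R) : PIid R := by
  classical
  obtain ⟨f, ⟨w0, hw0⟩, hf⟩ := h
  let s : Finset Wd := f.coeff.support.image tw
  let c : Wd → ℤ := fun p => ∑ w ∈ f.coeff.support, if tw w = p then f.coeff w else 0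
  have hctw : ∀ w, c (tw w) = f.coeff w := by
    intro w
    change (∑ w' ∈ f.coeff.support, if tw w' = tw w then f.coeff w' else 0) = f.coeff w
    have h1 : ∀ w' ∈ f.coeff.support, (if tw w' = tw w then f.coeff w' else 0) =
        if w' = w then f.coeff w' else 0 := fun w' _ => if_congr tw_inj.eq_iff rfl rfl
    rw [Finset.sum_congr rfl h1, Finset.sum_ite_eq']
    split_ifs with h2
    · rfl
    · exact (Finsupp.notMem_support_iff.1 h2).symm
  have hc : ∀ p, p ∉ s → c p = 0 := by
    intro p hp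
    refine Finset.sum_eq_zero fun w hw => if_neg ?_
    rintro rfl
    exact hp (mem_image_of_mem _ hw)
  have hpos : ∀ p ∈ s, 0 < p.1 := by
    intro p hp
    obtain ⟨w, _, rfl⟩ := mem_image.1 hp
    exact Nat.succ_pos _
  let N : AddSubgroup (Un R) := (RU R).toAddSubgroup
  have hN : ∀ u : Un R, u ∈ N ↔ u ∈ RU R := fun u => Iff.rfl
  have hvan : Van N s c := by
    intro v hv
    have hv' : ∀ a, ∃ r, inU R r = v a := fun a => (mem_RU R _).1 ((hN _).1 (hv a))
    choose r hr using hv'
    have hvr : v = fun a => inU R (r a) := funext fun a => (hr a).symm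
    rw [Finset.sum_image fun a _ b _ h => tw_inj h, hvr]
    have h1 : ∀ w ∈ f.coeff.support, c (tw w) • wv (fun a => inU R (r a)) (tw w) =
        inU R (f.coeff w • FreeSemigroup.lift r w) := by
      intro w _
      rw [hctw, wv_tw, map_zsmul]
    rw [Finset.sum_congr rfl h1, ← map_sum, ← ev_eq, hf r, map_zero]
  obtain ⟨d, a, ha, hx⟩ := conv N s c hc hvan hpos (tw w0) (by rw [hctw]; exact hw0)
  exact ⟨d, a, ha, (piid_iff R d a).2 fun x hxN => hx x fun i => (hN _).2 (hxN i)⟩

/-- the word `x_{σ 0} ⋯ x_{σ d}` -/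
def wperm {d : ℕ} (σ : Perm (Fin (d + 1))) : FreeSemigroup ℕ :=
  ⟨(σ 0).val, List.ofFn fun i : Fin d => (σ i.succ).val⟩

theorem wperm_inj {d : ℕ} : Function.Injective (wperm (d := d)) := by
  intro σ τ h
  have h1 : (σ 0).val = (τ 0).val := congrArg FreeSemigroup.head h
  have h2 : (List.ofFn fun i : Fin d => (σ i.succ).val) = List.ofFn fun i : Fin d => (τ i.succ).val :=
    congrArg FreeSemigroup.tail h
  have h3 := List.ofFn_injective h2
  refine Equiv.ext fun i => ?_
  refine Fin.cases (Fin.ext h1) (fun j => Fin.ext (congrFun h3 j)) i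

/-- a multilinear identity as a polynomial -/
noncomputable def mlp (d : ℕ) (a : Perm (Fin (d + 1)) → ℤ) : Fr ℕ :=
  ∑ σ : Perm (Fin (d + 1)), MonoidAlgebra.single (wperm σ) (a σ)

theorem mlp_coeff (d : ℕ) (a : Perm (Fin (d + 1)) → ℤ) (τ : Perm (Fin (d + 1))) :
    (mlp d a).coeff (wperm τ) = a τ := by
  classical
  unfold mlp
  rw [MonoidAlgebra.coeff_sum, Finsupp.finsetSum_apply]
  have h1 : ∀ σ : Perm (Fin (d + 1)), (MonoidAlgebra.single (wperm σ) (a σ)).coeff (wperm τ) =
      if σ = τ then a σ else 0 := by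
    intro σ
    rw [MonoidAlgebra.coeff_single, Finsupp.single_apply]
    exact if_congr wperm_inj.eq_iff rfl rfl
  rw [Finset.sum_congr rfl fun σ _ => h1 σ, Finset.sum_ite_eq', if_pos (mem_univ _)]

theorem ev_mlp {R : Type} [NonUnitalRing R] (d : ℕ) (a : Perm (Fin (d + 1)) → ℤ) (v : ℕ → R) :
    ev v (mlp d a) = ∑ σ : Perm (Fin (d + 1)),
      a σ • ((List.ofFn (fun i : Fin d => v (σ i.succ).val)).foldl
        (fun u v => u * v) (v (σ 0).val)) := by
  unfold mlp
  rw [map_sum]
  refine Finset.sum_congr rfl fun σ _ => ?_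
  rw [ev_single]
  congr 1
  unfold wperm
  rw [FreeSemigroup.lift_mk_eq_foldl]
  have h : (List.ofFn fun i : Fin d => v (σ i.succ).val) =
      (List.ofFn fun i : Fin d => (σ i.succ).val).map v := by
    rw [List.map_ofFn]
    rfl
  rw [h, List.foldl_map]

theorem isPI_of_sat {R : Type} [NonUnitalRing R] (d : ℕ) (a : Perm (Fin (d + 1)) → ℤ) (ha : a 1 = 1)
    (h : Sat R (mlp d a)) : IsPI R :=
  ⟨mlp d a, ⟨wperm 1, Or.inl (by rw [mlp_coeff, ha])⟩, h⟩

end Pool.PI34.CV
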