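import Pool.Agent.LibPI34.CV_C

/-! PI34, relatively free rings. -/

set_option autoImplicit false

namespace Pool.PI34.CV

open Equiv Finset Pool.PI34.C0 Pool.PI34.T1

theorem mem_TV (E : Set (Fr ℕ)) (X : Type) (g : Fr X) :
    g ∈ TV E X ↔ ∀ (R : Type) [NonUnitalRing R], InVar E R → Sat R g := by
  unfold TV
  rw [TwoSidedIdeal.mem_mk']
  rfl

/-- the projection -/
noncomputable def mkV (E : Set (Fr ℕ)) (X : Type) : Fr X →ₙ+* FreeVar E X where
  toFun f := RingCon.toQuotient f
  map_mul' _ _ := rfl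
  map_zero' := rfl
  map_add' _ _ := rfl

theorem mkV_surj (E : Set (Fr ℕ)) (X : Type) : Function.Surjective (mkV E X) :=
  Quotient.mk''_surjective

theorem mkV_eq (E : Set (Fr ℕ)) (X : Type) (f g : Fr X) :
    mkV E X f = mkV E X g ↔ f - g ∈ TV E X := by
  rw [← TwoSidedIdeal.rel_iff]
  exact RingCon.eq _

theorem mkV_zero (E : Set (Fr ℕ)) (X : Type) (f : Fr X) : mkV E X f = 0 ↔ f ∈ TV E X := by
  rw [← map_zero (mkV E X), mkV_eq, sub_zero]

/-- substituting the variables for themselves -/
theorem ev_gen {X : Type} (f : Fr X) :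
    ev (fun x : X => (MonoidAlgebra.single (FreeSemigroup.of x) 1 : Fr X)) f = f := by
  have h : ∀ w : FreeSemigroup X,
      FreeSemigroup.lift (fun x : X => (MonoidAlgebra.single (FreeSemigroup.of x) 1 : Fr X)) w =
        MonoidAlgebra.single w 1 := by
    intro w
    have h1 : FreeSemigroup.lift (fun x : X => (MonoidAlgebra.single (FreeSemigroup.of x) 1 : Fr X)) =
        MonoidAlgebra.ofMagma ℤ (FreeSemigroup X) := by
      apply FreeSemigroup.hom_ext
      funext x
      rfl
    rw [h1]
    rfl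
  rw [ev_eq]
  have h2 : ∀ w ∈ f.coeff.support, f.coeff w •
      FreeSemigroup.lift (fun x : X => (MonoidAlgebra.single (FreeSemigroup.of x) 1 : Fr X)) w =
        MonoidAlgebra.single w (f.coeff w) := by
    intro w _
    rw [h, MonoidAlgebra.smul_single, smul_eq_mul, mul_one]
  rw [Finset.sum_congr rfl h2]
  exact MonoidAlgebra.sum_coeff_single f

/-- the value of a polynomial at the classes of the variables -/
theorem ev_mkV (E : Set (Fr ℕ)) (X : Type) (f : Fr X) :
    ev (fun x : X => mkV E X (MonoidAlgebra.single (FreeSemigroup.of x) 1)) f = mkV E X f := by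
  rw [← map_ev (mkV E X), ev_gen]

/-- the free ring of the variety belongs to the variety -/
theorem inVar_freeVar (E : Set (Fr ℕ)) (X : Type) : InVar E (FreeVar E X) := by
  intro f hf v
  choose u hu using fun a => mkV_surj E X (v a)
  have hv : v = fun a => mkV E X (u a) := funext fun a => (hu a).symm
  rw [hv, ← map_ev (mkV E X), mkV_zero, mem_TV]
  intro R _ hR w
  rw [map_ev (ev w)]
  exact hR f hf _

/-- `B → A` when every ring of the second variety (generated free ring) lies in the first one -/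
theorem exists_map (E E' : Set (Fr ℕ)) (X : Type) (h : InVar E' (FreeVar E X)) :
    ∃ φ : FreeVar E' X →ₙ+* FreeVar E X, Function.Surjective φ := by
  have hle : ∀ f g : Fr X, (TV E' X).ringCon f g → mkV E X f = mkV E X g := by
    intro f g hfg
    rw [TwoSidedIdeal.rel_iff, mem_TV] at hfg
    have h1 := hfg (FreeVar E X) h fun x : X => mkV E X (MonoidAlgebra.single (FreeSemigroup.of x) 1)
    rw [ev_mkV, map_sub, sub_eq_zero] at h1
    exact h1
  let φ : FreeVar E' X →ₙ+* FreeVar E X :=
    { toFun := Quotient.lift (fun f : Fr X => mkV E X f) hle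
      map_mul' := by
        rintro ⟨a⟩ ⟨b⟩
        exact map_mul (mkV E X) a b
      map_zero' := map_zero (mkV E X)
      map_add' := by
        rintro ⟨a⟩ ⟨b⟩
        exact map_add (mkV E X) a b }
  refine ⟨φ, fun y => ?_⟩
  obtain ⟨f, rfl⟩ := mkV_surj E X y
  exact ⟨mkV E' X f, rfl⟩

/-- renaming the variables -/
noncomputable def ren {X Y : Type} (ρ : X → Y) : Fr X →ₙₐ[ℤ] Fr Y :=
  ev fun x => MonoidAlgebra.single (FreeSemigroup.of (ρ x)) 1

theorem ev_ren {X Y R : Type} [NonUnitalRing R] (ρ : X → Y) (v : Y → R) (f : Fr X) :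
    ev v (ren ρ f) = ev (fun x => v (ρ x)) f := by
  unfold ren
  rw [map_ev (ev v)]
  simp only [ev_of]

theorem lift_congr {X R : Type} [NonUnitalRing R] (u v : X → R) (w : FreeSemigroup X)
    (h : ∀ x ∈ w.head :: w.tail, u x = v x) : FreeSemigroup.lift u w = FreeSemigroup.lift v w := by
  obtain ⟨x, l⟩ := w
  rw [FreeSemigroup.lift_mk_eq_foldl, FreeSemigroup.lift_mk_eq_foldl]
  have hx : u x = v x := h x (List.mem_cons_self ..)
  have hl : ∀ y ∈ l, u y = v y := fun y hy => h y (List.mem_cons_of_mem _ hy)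
  rw [hx]
  clear h hx
  generalize v x = r
  induction l generalizing r with
  | nil => rfl
  | cons y l ih =>
    rw [List.foldl_cons, List.foldl_cons, hl y (List.mem_cons_self ..)]
    exact ih (fun z hz => hl z (List.mem_cons_of_mem _ hz)) _

/-- finitely many variables -/
theorem exists_ren {X : Type} [Nonempty X] (f : Fr X) :
    ∃ (ρ : X → ℕ) (τ : ℕ → X), ∀ (R : Type) [NonUnitalRing R] (v : X → R),
      ev (fun x => v (τ (ρ x))) f = ev v f := by
  classical
  let V : Finset X := f.coeff.support.biUnion fun w => (w.head :: w.tail).toFinset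
  obtain ⟨ρ, hρ⟩ : ∃ ρ : X → ℕ, Set.InjOn ρ (V : Set X) := by
    let e := V.equivFin
    refine ⟨fun x => if h : x ∈ V then (e ⟨x, h⟩).val else 0, ?_⟩
    intro a ha b hb hab
    have ha' : a ∈ V := ha
    have hb' : b ∈ V := hb
    simp only [dif_pos ha', dif_pos hb'] at hab
    have h1 := e.injective (Fin.ext hab)
    exact congrArg Subtype.val h1
  refine ⟨ρ, Function.invFunOn ρ (V : Set X), fun R _ v => ?_⟩
  rw [ev_eq, ev_eq]
  refine Finset.sum_congr rfl fun w hw => ?_
  congr 1
  refine lift_congr _ _ w fun x hx => ?_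
  have hxV : x ∈ (V : Set X) := by
    rw [mem_coe, mem_biUnion]
    exact ⟨w, hw, List.mem_toFinset.2 hx⟩
  rw [hρ.leftInvOn_invFunOn hxV]

/-- THEOREM: the free rings of the variety generated by a torsion free ring are torsion free -/
theorem freeVar_torsionFree (S : Type) [NonUnitalRing S]
    (hS : ∀ (k : ℕ) (s : S), k ≠ 0 → k • s = 0 → s = 0) (X : Type) [Nonempty X] (k : ℕ)
    (b : FreeVar {f : Fr ℕ | Sat S f} X) (hk : k ≠ 0) (hb : k • b = 0) : b = 0 := by
  obtain ⟨g, rfl⟩ := mkV_surj _ X b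
  rw [← map_nsmul, mkV_zero, mem_TV] at hb
  rw [mkV_zero, mem_TV]
  have hSg : Sat S g := by
    intro v
    have h1 := hb S (fun f hf => hf) v
    rw [map_nsmul] at h1
    exact hS k _ hk h1
  intro R _ hR v
  obtain ⟨ρ, τ, hρτ⟩ := exists_ren g
  have h1 : Sat S (ren ρ g) := by
    intro u
    rw [ev_ren]
    exact hSg _
  have h2 := hR (ren ρ g) h1 fun a => v (τ a)
  rw [ev_ren, hρτ R v] at h2
  exact h2

/-- an identity of `S` holds in every image of `S` -/
theorem sat_of_surj {X S R : Type} [NonUnitalRing S] [NonUnitalRing R] (φ : S →ₙ+* R)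
    (hφ : Function.Surjective φ) (f : Fr X) (hf : Sat S f) : Sat R f := by
  intro v
  choose u hu using fun a => hφ (v a)
  have hv : v = fun a => φ (u a) := funext fun a => (hu a).symm
  rw [hv, ← map_ev φ, hf u, map_zero]

/-- a ring with a multilinear identity -/
theorem sat_mlp {R : Type} [NonUnitalRing R] (d : ℕ) (a : Perm (Fin (d + 1)) → ℤ)
    (h : ∀ x : Fin (d + 1) → R, ∑ σ : Equiv.Perm (Fin (d + 1)),
        a σ • ((List.ofFn (fun i : Fin d => x (σ i.succ))).foldl
          (fun u v => u * v) (x (σ 0))) = 0) : Sat R (mlp d a) := by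
  intro v
  rw [ev_mlp]
  exact h fun i => v i.val

/-- a relatively free PI ring which is an image of a torsion free PI ring is an image of a torsion free
relatively free PI ring -/
theorem of_im (E : Set (Fr ℕ)) (X : Type) (hX : Nonempty X) (H : Im (FreeVar E X)) :
    ∃ (E' : Set (Fr ℕ)) (Y : Type), Nonempty Y ∧ IsPI (FreeVar E' Y) ∧
      (∀ (k : ℕ) (b : FreeVar E' Y), k ≠ 0 → k • b = 0 → b = 0) ∧
      ∃ φ : FreeVar E' Y →ₙ+* FreeVar E X, Function.Surjective φ := by
  obtain ⟨S, _, ⟨d, a, ha, hid⟩, hS, φ, hφ⟩ := H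
  refine ⟨{f : Fr ℕ | Sat S f}, X, hX, ?_, ?_, ?_⟩
  · exact isPI_of_sat d a ha (inVar_freeVar _ X _ (sat_mlp d a hid))
  · exact freeVar_torsionFree S hS X
  · exact exists_map E _ X fun f hf => sat_of_surj φ hφ f hf

/-- the statement for all the relatively free PI rings, from the statement for all PI rings -/
theorem main (H : ∀ (R : Type) [NonUnitalRing R], PIid R → Im R) :
    ∀ (E : Set (Fr ℕ)) (X : Type), Nonempty X → IsPI (FreeVar E X) →
      ∃ (E' : Set (Fr ℕ)) (Y : Type), Nonempty Y ∧ IsPI (FreeVar E' Y) ∧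
        (∀ (k : ℕ) (b : FreeVar E' Y), k ≠ 0 → k • b = 0 → b = 0) ∧
        ∃ φ : FreeVar E' Y →ₙ+* FreeVar E X, Function.Surjective φ :=
  fun E X hX hPI => of_im E X hX (H _ (piid_of_isPI hPI))

end Pool.PI34.CV
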