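import Pool.Agent.LibPI34.EV_Loop

/-!
PI34, block EV (even input of (S_ex)), file Coef: extraction of the coefficient of the loops.
-/

set_option autoImplicit false
set_option linter.unusedSectionVars false

namespace Pool.PI34.EV

open Equiv Finset Matrix
open Pool.PI34.BA
open scoped TensorProduct

/-! ### the ring of the weights -/

/-- the squares of the weights -/
noncomputable def sqI : Ideal (MvPolynomial ℕ ℤ) :=
  Ideal.span (Set.range fun i : ℕ => (MvPolynomial.X i : MvPolynomial ℕ ℤ) ^ 2)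

/-- polynomials in weights of square zero -/
def TW : Type := MvPolynomial ℕ ℤ ⧸ sqI

noncomputable instance : CommRing TW := inferInstanceAs (CommRing (MvPolynomial ℕ ℤ ⧸ sqI))

/-- the projection -/
noncomputable def mkT : MvPolynomial ℕ ℤ →+* TW := Ideal.Quotient.mk sqI

/-- a weight -/
noncomputable def yw (i : ℕ) : TW := mkT (MvPolynomial.X i)

theorem yw_sq (i : ℕ) : yw i * yw i = 0 := by
  unfold yw
  rw [← map_mul, ← pow_two]
  exact Ideal.Quotient.eq_zero_iff_mem.2 (Ideal.subset_span ⟨i, rfl⟩)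

/-- the exponent of a product of different weights -/
noncomputable def ex (U : Finset ℕ) : ℕ →₀ ℕ := ∑ i ∈ U, Finsupp.single i 1

theorem ex_apply (U : Finset ℕ) (i : ℕ) : ex U i = if i ∈ U then 1 else 0 := by
  unfold ex
  rw [Finsupp.finsetSum_apply]
  simp only [Finsupp.single_apply]
  rw [Finset.sum_ite_eq' U i]

theorem ex_inj (U V : Finset ℕ) : ex U = ex V ↔ U = V := by
  constructor
  · intro h
    ext i
    have h1 := DFunLike.congr_fun h i
    rw [ex_apply, ex_apply] at h1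
    by_cases hU : i ∈ U <;> by_cases hV : i ∈ V <;> simp [hU, hV] at h1 ⊢
  · rintro rfl
    rfl

theorem coeff_sqI (U : Finset ℕ) (a : MvPolynomial ℕ ℤ) (ha : a ∈ sqI) :
    ∀ f : MvPolynomial ℕ ℤ, MvPolynomial.coeff (ex U) (f * a) = 0 := by
  unfold sqI at ha
  induction ha using Submodule.span_induction with
  | mem x hx =>
    obtain ⟨i, rfl⟩ := hx
    intro f
    change MvPolynomial.coeff (ex U) (f * (MvPolynomial.X i) ^ 2) = 0
    rw [MvPolynomial.X_pow_eq_monomial, MvPolynomial.coeff_mul_monomial', if_neg]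
    intro h
    have h1 := h i
    rw [Finsupp.single_eq_same, ex_apply] at h1
    split_ifs at h1 <;> omega
  | zero => intro f; simp
  | add x y _ _ hx hy => intro f; rw [mul_add, MvPolynomial.coeff_add, hx, hy, add_zero]
  | smul r x _ hx => intro f; rw [smul_eq_mul, ← mul_assoc]; exact hx _

/-- the coefficient, on the quotient -/
noncomputable def psi0 (U : Finset ℕ) : (MvPolynomial ℕ ℤ ⧸ sqI) →+ ℤ :=
  QuotientAddGroup.lift sqI.toAddSubgroup
    (MvPolynomial.lcoeff ℤ (ex U)).toAddMonoidHom (by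
      intro a ha
      have h := coeff_sqI U a ha 1
      rw [one_mul] at h
      exact h)

/-- the coefficient of a product of different weights -/
noncomputable def psi (U : Finset ℕ) : TW →+ ℤ where
  toFun a := psi0 U a
  map_zero' := map_zero (psi0 U)
  map_add' a b := map_add (psi0 U) a b

theorem psi_mk (U : Finset ℕ) (a : MvPolynomial ℕ ℤ) :
    psi U (mkT a) = MvPolynomial.coeff (ex U) a := rfl

theorem psi_prod (U V : Finset ℕ) : psi U (∏ i ∈ V, yw i) = if V = U then 1 else 0 := by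
  have h : (∏ i ∈ V, yw i) = mkT (MvPolynomial.monomial (ex V) 1) := by
    unfold ex yw
    rw [MvPolynomial.monomial_sum_one, map_prod]
    rfl
  rw [h, psi_mk, MvPolynomial.coeff_monomial]
  simp only [ex_inj]

/-! ### monomials in `t` and the weights -/

section mon

variable {R : Type} [CommRing R] (t : R) (y : ℕ → R)

/-- `(-t)^e ∏ y_i` -/
def mon (e : ℕ) (V : Finset ℕ) : R := (-t) ^ e * ∏ i ∈ V, y i

/-- the coefficient of a loop of length `m` with the weight `i` -/
def cu (m i : ℕ) : R := -((-t) ^ m * y i)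

theorem cu_mul_mon (m i e : ℕ) (V : Finset ℕ) (hi : i ∉ V) :
    cu t y m i * mon t y e V = -mon t y (e + m) (insert i V) := by
  unfold cu mon
  rw [Finset.prod_insert hi, pow_add]
  ring

theorem cu_sq (hy : ∀ i, y i * y i = 0) (m i : ℕ) : cu t y m i * cu t y m i = 0 := by
  unfold cu
  calc _ = (-t) ^ m * (-t) ^ m * (y i * y i) := by ring
    _ = 0 := by rw [hy, mul_zero]

end mon

/-! ### the value of `D` -/

section D

variable {ι Φ E : Type} [Fintype ι] [DecidableEq ι] [Ring Φ] [Ring E] (S : Str ι Φ E)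
variable {k : ℕ} (p : Fin k ↪ ι)

/-- the trace `Σ_i ρ_{p i}(w)` -/
def Tr (w : Φ) : E := ∑ i : Fin k, S.ρ (p i) w

theorem prod_sq {F : Type} [Ring F] {R : Type} [CommRing R] (c : R) (hc : c * c = 0) :
    ∀ (m : ℕ) (a : Fin m → F), (List.ofFn fun i => (1 + c ⊗ₜ[ℤ] a i : R ⊗[ℤ] F)).prod =
      1 + c ⊗ₜ[ℤ] ∑ i, a i := by
  intro m
  induction m with
  | zero => intro a; simp
  | succ m ih =>
    intro a
    rw [List.ofFn_succ, List.prod_cons, ih fun i => a i.succ, Fin.sum_univ_succ, add_mul, mul_add,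
      one_mul, one_mul, mul_add, Algebra.TensorProduct.tmul_mul_tmul, hc, TensorProduct.zero_tmul,
      add_zero, TensorProduct.tmul_add, mul_one]
    abel

theorem D_loop (R : Type) [CommRing R] (c : R) (hc : c * c = 0) (w : Φ) :
    (S.base R).D p (fun _ => 1 + c ⊗ₜ[ℤ] w) = 1 + c ⊗ₜ[ℤ] Tr S p w := by
  unfold Str.D Tr
  rw [← prod_sq c hc k fun i => S.ρ (p i) w]
  congr 1
  refine congrArg List.ofFn (funext fun i => ?_)
  rw [map_add, map_one, base_rho_tmul]

variable {A : Type} (x : A → Φ) (n : ℕ)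
variable {R : Type} [CommRing R] (t : R) (y : ℕ → R)

/-- loop data: the first place, the other places, the number of the weight -/
abbrev LD (A : Type) : Type := A × List A × ℕ

/-- the word of a loop -/
def wd (u : LD A) : Φ := ((u.1 :: u.2.1).map x).prod

/-- the product of the values of the loops, with their weights -/
noncomputable def GG : List (LD A) → R ⊗[ℤ] E
  | [] => 1
  | u :: us => GG us * (1 + cu t y (u.2.1.length + 1) u.2.2 ⊗ₜ[ℤ] Tr S p (wd x u))

/-- the loops over the base change -/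
noncomputable def toLp (u : LD A) : Lp A (R ⊗[ℤ] Φ) := (u.1, u.2.1, y u.2.2 ⊗ₜ 1)

theorem map_one_tmul (l : List A) :
    (l.map fun a => ((1 : R) ⊗ₜ[ℤ] x a : R ⊗[ℤ] Φ)).prod = 1 ⊗ₜ (l.map x).prod := by
  induction l with
  | nil => rfl
  | cons a l ih =>
    rw [List.map_cons, List.prod_cons, ih, Algebra.TensorProduct.tmul_mul_tmul, one_mul,
      List.map_cons, List.prod_cons]

theorem D_Fl (hy : ∀ i, y i * y i = 0) (us : List (LD A)) :
    (S.base R).D p (fun _ => Fl (t ⊗ₜ[ℤ] (1 : Φ))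
      (fun a => (1 : R) ⊗ₜ[ℤ] x a) (us.map (toLp y))) = GG S p x t y us := by
  induction us with
  | nil =>
    change (S.base R).D p (fun _ => 1) = 1
    exact D_one _ _
  | cons u us ih =>
    change (S.base R).D p (fun _ => Fl _ _ (us.map (toLp y)) *
      (1 - (-(t ⊗ₜ[ℤ] (1 : Φ))) ^ (u.2.1.length + 1) *
        ((y u.2.2 ⊗ₜ[ℤ] (1 : Φ)) *
          ((u.1 :: u.2.1).map fun a => (1 : R) ⊗ₜ[ℤ] x a).prod))) = _
    rw [B4_D_mul_const _ _ p.injective, ih, map_one_tmul]
    have h1 : (1 - (-(t ⊗ₜ[ℤ] (1 : Φ))) ^ (u.2.1.length + 1) *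
        ((y u.2.2 ⊗ₜ[ℤ] (1 : Φ)) *
          ((1 : R) ⊗ₜ[ℤ] ((u.1 :: u.2.1).map x).prod))) =
        (1 + cu t y (u.2.1.length + 1) u.2.2 ⊗ₜ[ℤ] wd x u : R ⊗[ℤ] Φ) := by
      rw [← TensorProduct.neg_tmul, Algebra.TensorProduct.tmul_pow, one_pow,
        Algebra.TensorProduct.tmul_mul_tmul, Algebra.TensorProduct.tmul_mul_tmul, mul_one, one_mul,
        one_mul, sub_eq_add_neg, ← TensorProduct.neg_tmul]
      rfl
    rw [h1, D_loop S p _ _ (cu_sq t y hy _ _)]
    rfl

theorem mul_neg_tmul {R F : Type} [CommRing R] [Ring F] (g : R ⊗[ℤ] F) (a : R) (b : F) :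
    g * ((-a) ⊗ₜ[ℤ] b) = -(g * (a ⊗ₜ[ℤ] b)) := by
  apply eq_neg_of_add_eq_zero_left
  rw [← mul_add, ← TensorProduct.add_tmul, neg_add_cancel, TensorProduct.zero_tmul, mul_zero]

variable (th : Finset ℕ → R →+ ℤ)

/-- the functional with values in `E` -/
noncomputable def TE (U : Finset ℕ) : R ⊗[ℤ] E →+ E :=
  ((TensorProduct.lid ℤ E).toLinearMap ∘ₗ (th U).toIntLinearMap.rTensor E).toAddMonoidHom

theorem TE_tmul (U : Finset ℕ) (a : R) (e : E) :
    TE (E := E) th U (a ⊗ₜ e) = th U a • e := by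
  change (TensorProduct.lid ℤ E) ((th U).toIntLinearMap.rTensor E (a ⊗ₜ e)) = _
  rw [LinearMap.rTensor_tmul, TensorProduct.lid_tmul]
  rfl

/-- the numbers of the weights -/
def idx (us : List (LD A)) : List ℕ := us.map fun u => u.2.2

variable (hth : ∀ (e : ℕ) (U V : Finset ℕ), th U (mon t y e V) =
  if e = n ∧ V = U then (-1) ^ n else 0)
include hth

theorem TE_null (U : Finset ℕ) (us : List (LD A)) : ∀ (V : Finset ℕ) (e : ℕ) (W : E),
    (idx us).Nodup → (∀ i ∈ idx us, i ∉ V) → (∃ i ∈ U, i ∉ V ∧ i ∉ idx us) →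
    TE th U (GG S p x t y us * (mon t y e V ⊗ₜ[ℤ] W)) = 0 := by
  induction us with
  | nil =>
    rintro V e W - - ⟨i, hi, hV, -⟩
    change TE th U (1 * (mon t y e V ⊗ₜ[ℤ] W)) = 0
    rw [one_mul, TE_tmul, hth, if_neg, zero_smul]
    rintro ⟨-, rfl⟩
    exact hV hi
  | cons u us ih =>
    rintro V e W hnd hd ⟨i, hi, hV, hu⟩
    change TE th U (GG S p x t y us * (1 + cu t y (u.2.1.length + 1) u.2.2 ⊗ₜ[ℤ]
      Tr S p (wd x u)) * (mon t y e V ⊗ₜ[ℤ] W)) = 0
    have h1 : (idx us).Nodup ∧ u.2.2 ∉ idx us :=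
      ⟨(List.nodup_cons.1 hnd).2, (List.nodup_cons.1 hnd).1⟩
    have h2 : u.2.2 ∉ V := hd _ List.mem_cons_self
    have h3 : i ≠ u.2.2 := fun h => hu (h ▸ List.mem_cons_self)
    have h4 : i ∉ idx us := fun h => hu (List.mem_cons_of_mem _ h)
    rw [mul_assoc, add_mul, one_mul, mul_add, map_add, Algebra.TensorProduct.tmul_mul_tmul,
      cu_mul_mon t y _ _ _ _ h2, mul_neg_tmul, map_neg,
      ih V e W h1.1 (fun j hj => hd j (List.mem_cons_of_mem _ hj)) ⟨i, hi, hV, h4⟩,
      ih (insert u.2.2 V) _ _ h1.1 ?_ ?_, neg_zero, add_zero]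
    · intro j hj hj2
      rw [Finset.mem_insert] at hj2
      rcases hj2 with rfl | hj2
      · exact h1.2 hj
      · exact hd j (List.mem_cons_of_mem _ hj) hj2
    · refine ⟨i, hi, ?_, h4⟩
      rw [Finset.mem_insert]
      tauto

omit hth in
/-- the product of the traces of the loops -/
def RR : List (LD A) → E → E
  | [], W => W
  | u :: us, W => RR us (Tr S p (wd x u) * W)

omit hth in
/-- the number of the places of the loops -/
def len (us : List (LD A)) : ℕ := (us.map fun u => u.2.1.length + 1).sum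

theorem TE_full (U : Finset ℕ) (us : List (LD A)) : ∀ (V : Finset ℕ) (e : ℕ) (W : E),
    (idx us).Nodup → (∀ i ∈ idx us, i ∉ V) → (∀ i, i ∈ U ↔ i ∈ V ∨ i ∈ idx us) →
    e + len us = n → TE th U (GG S p x t y us * (mon t y e V ⊗ₜ[ℤ] W)) =
      ((-1) ^ n * (-1) ^ us.length : ℤ) • RR S p x us W := by
  induction us with
  | nil =>
    rintro V e W - - hU he
    change TE th U (1 * (mon t y e V ⊗ₜ[ℤ] W)) = _
    rw [one_mul, TE_tmul, hth, if_pos]
    · simp only [List.length_nil, pow_zero, mul_one]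
      rfl
    · refine ⟨by simpa [len] using he, ?_⟩
      ext i
      rw [hU i]
      simp [idx]
  | cons u us ih =>
    rintro V e W hnd hd hU he
    change TE th U (GG S p x t y us * (1 + cu t y (u.2.1.length + 1) u.2.2 ⊗ₜ[ℤ]
      Tr S p (wd x u)) * (mon t y e V ⊗ₜ[ℤ] W)) = _
    have h1 : (idx us).Nodup ∧ u.2.2 ∉ idx us :=
      ⟨(List.nodup_cons.1 hnd).2, (List.nodup_cons.1 hnd).1⟩
    have h2 : u.2.2 ∉ V := hd _ List.mem_cons_self
    have h5 : e + (u.2.1.length + 1) + len us = n := by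
      rw [← he]
      change _ = e + ((u.2.1.length + 1) + len us)
      omega
    rw [mul_assoc, add_mul, one_mul, mul_add, map_add, Algebra.TensorProduct.tmul_mul_tmul,
      cu_mul_mon t y _ _ _ _ h2, mul_neg_tmul, map_neg,
      TE_null S p x n t y th hth U us V e W h1.1 (fun j hj => hd j (List.mem_cons_of_mem _ hj))
        ⟨u.2.2, (hU _).2 (Or.inr List.mem_cons_self), h2, h1.2⟩,
      ih (insert u.2.2 V) _ _ h1.1 ?_ ?_ h5, zero_add, List.length_cons, pow_succ, ← neg_smul]
    · congr 1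
      ring
    · intro j hj hj2
      rw [Finset.mem_insert] at hj2
      rcases hj2 with rfl | hj2
      · exact h1.2 hj
      · exact hd j (List.mem_cons_of_mem _ hj) hj2
    · intro i
      rw [hU i, Finset.mem_insert]
      change i ∈ V ∨ i ∈ u.2.2 :: idx us ↔ _
      rw [List.mem_cons]
      tauto

end D

/-! ### the truncated polynomials -/

section trunc

/-- the functional on the truncated polynomials -/
noncomputable def Th (n : ℕ) (U : Finset ℕ) : Trunc TW n →+ ℤ := (psi U).comp (tcoef TW n)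

theorem Th_mon (n e : ℕ) (U V : Finset ℕ) :
    Th n U (mon (tt TW n) (fun i => inT TW n (yw i)) e V) =
      if e = n ∧ V = U then (-1) ^ n else 0 := by
  have h : mon (tt TW n) (fun i => inT TW n (yw i)) e V = Ideal.Quotient.mk
      (Ideal.span {(Polynomial.X : Polynomial TW) ^ (n + 1)})
        ((-Polynomial.X) ^ e * Polynomial.C (∏ i ∈ V, yw i)) := by
    rw [map_mul, map_pow, map_neg]
    unfold mon
    rw [← map_prod (inT TW n)]
    rfl
  unfold Th
  rw [AddMonoidHom.comp_apply, h, tcoef_mk, Polynomial.coeff_mul_C, neg_pow, ← Polynomial.C_1,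
    ← Polynomial.C_neg, ← Polynomial.C_pow, Polynomial.coeff_C_mul_X_pow]
  by_cases he : e = n
  · subst he
    have h1 : ((-1 : TW) ^ e * ∏ i ∈ V, yw i) = ((-1) ^ e : ℤ) • ∏ i ∈ V, yw i := by
      rw [zsmul_eq_mul]
      push_cast
      rfl
    rw [if_pos rfl, h1, map_zsmul, psi_prod]
    by_cases hV : V = U
    · rw [if_pos hV, if_pos ⟨rfl, hV⟩, smul_eq_mul, mul_one]
    · rw [if_neg hV, if_neg (fun h => hV h.2), smul_zero]
  · rw [if_neg (fun h => he h.symm), if_neg (fun h => he h.1), zero_mul, map_zero]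

theorem inT_sq (n i : ℕ) : inT TW n (yw i) * inT TW n (yw i) = 0 := by
  rw [← map_mul, yw_sq, map_zero]

end trunc

end Pool.PI34.EV
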