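import Pool.Agent.LibPI34.EV_Coef

/-!
PI34, block EV (even input of (S_ex)), file Data: every permutation of `Option A` is given by a word and loops.
-/

set_option autoImplicit false
set_option linter.unusedSectionVars false

namespace Pool.PI34.EV

open Equiv Finset

section fp

variable {T : Type} [DecidableEq T]

theorem formPerm_insert (l1 l2 : List T) (a b : T) (hnd : (l1 ++ a :: b :: l2).Nodup) :
    (l1 ++ a :: b :: l2).formPerm = swap a b * (l1 ++ b :: l2).formPerm := by
  have hnd2 : (l1 ++ b :: l2).Nodup := by
    refine hnd.sublist ?_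
    exact (List.Sublist.refl l1).append (List.sublist_cons_self a _)
  rw [List.formPerm_eq_of_isRotated hnd (List.isRotated_append (l := l1) (l' := a :: b :: l2)),
    List.formPerm_eq_of_isRotated hnd2 (List.isRotated_append (l := l1) (l' := b :: l2)),
    List.cons_append, List.cons_append, List.formPerm_cons_cons]

theorem formPerm_snoc (l : List T) (a b : T) (hnd : (b :: l ++ [a]).Nodup) :
    (b :: l ++ [a]).formPerm = swap a b * (b :: l).formPerm := by
  rw [List.formPerm_eq_of_isRotated hnd (List.isRotated_append (l := b :: l) (l' := [a])),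
    List.singleton_append, List.formPerm_cons_cons]

theorem swap_comm_of_fix (F : Perm T) (a b : T) (ha : F a = a) (hb : F b = b) :
    F * swap a b = swap a b * F := by
  rw [mul_swap_eq_swap_mul, ha, hb]

end fp

variable {A : Type} [DecidableEq A]

/-- the places of the loops -/
def plc (us : List (LD A)) : List A := (us.map fun u => u.1 :: u.2.1).flatten

/-- the product of the loops -/
def Cp (us : List (LD A)) : Perm (Option A) :=
  (us.map fun u => ((u.1 :: u.2.1).map some).formPerm).prod

theorem map_formPerm_fix (l : List A) (a : A) (h : a ∉ l) : (l.map some).formPerm (some a) = some a := by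
  refine List.formPerm_apply_of_notMem ?_
  intro h1
  obtain ⟨b, hb, hba⟩ := List.mem_map.1 h1
  exact h (Option.some_injective _ hba ▸ hb)

theorem ins_loop (u : LD A) (a b : A) (hb : b ∈ u.1 :: u.2.1) (hnd : (a :: u.1 :: u.2.1).Nodup) :
    ∃ u' : LD A, u'.2.2 = u.2.2 ∧ (u'.1 :: u'.2.1).Perm (a :: u.1 :: u.2.1) ∧
      ((u'.1 :: u'.2.1).map some).formPerm =
        swap (some a) (some b) * ((u.1 :: u.2.1).map some).formPerm := by
  obtain ⟨l1, l2, hl⟩ := List.append_of_mem hb
  have hp : (l1 ++ a :: b :: l2).Perm (a :: u.1 :: u.2.1) := by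
    rw [hl]
    exact List.perm_middle
  have hnd' : ((l1 ++ a :: b :: l2).map some).Nodup :=
    (hp.nodup_iff.2 hnd).map (Option.some_injective A)
  have key : ((l1 ++ a :: b :: l2).map some).formPerm =
      swap (some a) (some b) * ((u.1 :: u.2.1).map some).formPerm := by
    rw [hl]
    rw [List.map_append, List.map_cons, List.map_cons] at hnd' ⊢
    rw [formPerm_insert _ _ _ _ hnd', List.map_append, List.map_cons]
  cases l1 with
  | nil => exact ⟨(a, b :: l2, u.2.2), rfl, hp, key⟩
  | cons c l1 => exact ⟨(c, l1 ++ a :: b :: l2, u.2.2), rfl, hp, key⟩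

theorem ins_loops (us : List (LD A)) (a b : A) (hb : b ∈ plc us) (hnd : (a :: plc us).Nodup) :
    ∃ us' : List (LD A), idx us' = idx us ∧ (plc us').Perm (a :: plc us) ∧
      Cp us' = swap (some a) (some b) * Cp us := by
  induction us with
  | nil => exact absurd hb (List.not_mem_nil)
  | cons u us ih =>
    have hpl : ∀ (u : LD A) us, plc (u :: us) = (u.1 :: u.2.1) ++ plc us := fun _ _ => rfl
    have hCp : ∀ (u : LD A) us, Cp (u :: us) = ((u.1 :: u.2.1).map some).formPerm * Cp us :=
      fun _ _ => by unfold Cp; rw [List.map_cons, List.prod_cons]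
    have hidx : ∀ (u : LD A) us, idx (u :: us) = u.2.2 :: idx us := fun _ _ => rfl
    rw [hpl] at hb hnd
    by_cases hbu : b ∈ u.1 :: u.2.1
    · obtain ⟨u', h1, h2, h3⟩ := ins_loop u a b hbu (hnd.sublist (by
        rw [← List.cons_append]
        exact List.sublist_append_left _ _))
      refine ⟨u' :: us, ?_, ?_, ?_⟩
      · rw [hidx, hidx, h1]
      · rw [hpl, hpl, ← List.cons_append]
        exact h2.append_right _
      · rw [hCp, hCp, h3, mul_assoc]
    · have hb' : b ∈ plc us := (List.mem_append.1 hb).resolve_left hbu
      have ha : a ∉ u.1 :: u.2.1 ∧ a ∉ plc us := by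
        have h := (List.nodup_cons.1 hnd).1
        rw [List.mem_append, not_or] at h
        exact h
      obtain ⟨us', h1, h2, h3⟩ := ih hb' (List.nodup_cons.2
        ⟨ha.2, (List.nodup_append.1 (List.nodup_cons.1 hnd).2).2.1⟩)
      refine ⟨u :: us', ?_, ?_, ?_⟩
      · rw [hidx, hidx, h1]
      · rw [hpl, hpl]
        exact (h2.append_left _).trans List.perm_middle
      · rw [hCp, hCp, h3, ← mul_assoc, ← mul_assoc,
          swap_comm_of_fix _ _ _ (map_formPerm_fix _ _ ha.1) (map_formPerm_fix _ _ hbu)]

/-- the permutation of a word and loops -/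
def cprod (w : List A) (us : List (LD A)) : Perm (Option A) :=
  (none :: w.map some).formPerm * Cp us

theorem word_fix (w : List A) (a : A) (h : a ∉ w) :
    (none :: w.map some).formPerm (some a) = some a := by
  refine List.formPerm_apply_of_notMem ?_
  rw [List.mem_cons, not_or]
  refine ⟨by simp, ?_⟩
  intro h1
  obtain ⟨b, hb, hba⟩ := List.mem_map.1 h1
  exact h (Option.some_injective _ hba ▸ hb)

theorem nodup_none (w : List A) (hw : w.Nodup) : (none :: w.map some).Nodup :=
  List.nodup_cons.2 ⟨by simp, hw.map (Option.some_injective A)⟩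

theorem ins_data (w : List A) (us : List (LD A)) (a : A) (b : Option A)
    (hb : ∀ b' ∈ b, b' ∈ w ++ plc us) (hnd : (a :: (w ++ plc us)).Nodup) :
    ∃ (w' : List A) (us' : List (LD A)), idx us' = idx us ∧
      (w' ++ plc us').Perm (a :: (w ++ plc us)) ∧ cprod w' us' = swap (some a) b * cprod w us := by
  have hw : (a :: w).Nodup := hnd.sublist (by
    rw [← List.cons_append]
    exact List.sublist_append_left _ _)
  have ha : a ∉ w ∧ a ∉ plc us := by
    have h := (List.nodup_cons.1 hnd).1
    rw [List.mem_append, not_or] at h
    exact h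
  cases b with
  | none =>
    refine ⟨w ++ [a], us, rfl, ?_, ?_⟩
    · rw [List.append_assoc, List.singleton_append]
      exact List.perm_middle
    · have h1 : (w ++ [a]).Nodup := (List.perm_append_singleton a w).nodup_iff.2 hw
      have h2 := nodup_none _ h1
      rw [List.map_append, List.map_singleton, ← List.cons_append] at h2
      unfold cprod
      rw [List.map_append, List.map_singleton, ← List.cons_append, formPerm_snoc _ _ _ h2,
        mul_assoc]
  | some b' =>
    have hb1 := hb b' rfl
    by_cases hbw : b' ∈ w
    · obtain ⟨l1, l2, rfl⟩ := List.append_of_mem hbw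
      refine ⟨l1 ++ a :: b' :: l2, us, rfl, ?_, ?_⟩
      · rw [← List.cons_append]
        exact (List.perm_middle (l₁ := l1)).append_right _
      · have h1 : (l1 ++ a :: b' :: l2).Nodup := (List.perm_middle (l₁ := l1)).nodup_iff.2 hw
        have h2 := nodup_none _ h1
        rw [List.map_append, List.map_cons, List.map_cons, ← List.cons_append] at h2
        unfold cprod
        rw [List.map_append, List.map_cons, List.map_cons, ← List.cons_append,
          formPerm_insert _ _ _ _ h2, mul_assoc, List.map_append, List.map_cons,
          List.cons_append]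
    · have hb2 : b' ∈ plc us := (List.mem_append.1 hb1).resolve_left hbw
      obtain ⟨us', h1, h2, h3⟩ := ins_loops us a b' hb2 (List.nodup_cons.2
        ⟨ha.2, (List.nodup_append.1 (List.nodup_cons.1 hnd).2).2.1⟩)
      refine ⟨w, us', h1, ?_, ?_⟩
      · exact (h2.append_left _).trans List.perm_middle
      · unfold cprod
        rw [h3, ← mul_assoc, ← mul_assoc,
          swap_comm_of_fix _ _ _ (word_fix _ _ ha.1) (word_fix _ _ hbw)]

theorem exists_cprod (B : Finset A) : ∀ σ : Perm (Option A), (∀ a, a ∉ B → σ (some a) = some a) →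
    ∃ (w : List A) (us : List (LD A)), (w ++ plc us).Nodup ∧ (∀ a, a ∈ w ++ plc us ↔ a ∈ B) ∧
      (idx us).Nodup ∧ cprod w us = σ := by
  induction B using Finset.induction_on with
  | empty =>
    intro σ hσ
    refine ⟨[], [], List.nodup_nil, fun a => by simp [plc], List.nodup_nil, ?_⟩
    have h1 : σ = 1 := by
      ext1 x
      cases x with
      | none =>
        rw [Perm.one_apply]
        cases h : σ none with
        | none => rfl
        | some a =>
          have h2 := hσ a (Finset.notMem_empty a)
          exact absurd (σ.injective (h2.trans h.symm)) (by simp)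
      | some a => exact hσ a (Finset.notMem_empty a)
    rw [h1]
    unfold cprod Cp
    simp
  | insert a B ha ih =>
    intro σ hσ
    by_cases hfix : σ (some a) = some a
    · obtain ⟨w, us, h1, h2, h3, h4⟩ := ih σ (fun c hc => by
        by_cases hca : c = a
        · rw [hca, hfix]
        · exact hσ c (fun h => (Finset.mem_insert.1 h).elim hca hc))
      obtain ⟨N, hN⟩ := Infinite.exists_notMem_finset (idx us).toFinset
      have hp : (w ++ plc ((a, [], N) :: us)).Perm (a :: (w ++ plc us)) := List.perm_middle
      refine ⟨w, (a, [], N) :: us, ?_, ?_, ?_, ?_⟩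
      · rw [hp.nodup_iff, List.nodup_cons]
        exact ⟨fun h => ha ((h2 a).1 h), h1⟩
      · intro c
        rw [hp.mem_iff, List.mem_cons, Finset.mem_insert, h2]
      · exact List.nodup_cons.2 ⟨fun h => hN (List.mem_toFinset.2 h), h3⟩
      · rw [← h4]
        unfold cprod Cp
        rw [List.map_cons, List.prod_cons, List.map_singleton, List.formPerm_singleton, one_mul]
    · obtain ⟨σ', hσ'⟩ : ∃ σ', σ' = swap (some a) (σ (some a)) * σ := ⟨_, rfl⟩
      have hσ2 : σ = swap (some a) (σ (some a)) * σ' := by
        rw [hσ', ← mul_assoc, swap_mul_self, one_mul]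
      obtain ⟨w, us, h1, h2, h3, h4⟩ := ih σ' (fun c hc => by
        rw [hσ', Perm.mul_apply]
        by_cases hca : c = a
        · rw [hca, swap_apply_right]
        · have h5 : σ (some c) = some c :=
            hσ c (fun h => (Finset.mem_insert.1 h).elim hca hc)
          rw [h5]
          refine swap_apply_of_ne_of_ne (fun h => hca (Option.some_injective _ h)) ?_
          intro h
          exact hca (Option.some_injective _ (σ.injective (h5.trans h))))
      have hb : ∀ b' ∈ σ (some a), b' ∈ w ++ plc us := by
        intro b' hb'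
        rw [Option.mem_def] at hb'
        rw [h2]
        by_contra hB
        by_cases hba : b' = a
        · exact hfix (hb'.trans (congrArg some hba))
        · have h5 : σ (some b') = some b' :=
            hσ b' (fun h => (Finset.mem_insert.1 h).elim hba hB)
          exact hba (Option.some_injective _ (σ.injective (h5.trans hb'.symm)))
      have hnd : (a :: (w ++ plc us)).Nodup := List.nodup_cons.2 ⟨fun h => ha ((h2 a).1 h), h1⟩
      obtain ⟨w', us', h5, h6, h7⟩ := ins_data w us a (σ (some a)) hb hnd
      refine ⟨w', us', h6.nodup_iff.2 hnd, ?_, ?_, ?_⟩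
      · intro c
        rw [h6.mem_iff, List.mem_cons, Finset.mem_insert, h2]
      · rw [h5]
        exact h3
      · rw [h7, h4, ← hσ2]

end Pool.PI34.EV
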