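import Pool.Agent.LibPI34.H4_Tr

/-!
PI34, p = 2, block PT (owner helper13): partial traces over a block of strands.
-/

set_option autoImplicit false
set_option linter.unusedSectionVars false

namespace Pool.PI34.EV

open Equiv Finset
open Pool.PI34.H4

/-- the swap of the block `β` with its copy `j` inside `α` -/
noncomputable def bsw {α β : Type} [DecidableEq α] [DecidableEq β] [Fintype β] (j : β ↪ α) :
    Perm (α ⊕ β) :=
  (univ.toList.map fun b : β => swap (Sum.inl (j b)) (Sum.inr b)).prod

section ptdef

variable {k : ℕ}

/-- a function of words with a block of new letters -/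
noncomputable def extB {α β : Type} (f : W k α) (v : β → Fin k) : W k (α ⊕ β) := by
  classical
  exact fun u => if (fun b => u (Sum.inr b)) = v then f (fun a => u (Sum.inl a)) else 0

theorem extB_same {α β : Type} (f : W k α) (a : α → Fin k) (b : β → Fin k) :
    extB f b (Sum.elim a b) = f a := by
  unfold extB
  exact if_pos rfl

theorem extB_ne {α β : Type} (f : W k α) (v : β → Fin k) (a : α → Fin k) (b : β → Fin k)
    (h : b ≠ v) : extB f v (Sum.elim a b) = 0 := by
  unfold extB
  exact if_neg h

/-- the two properties of a partial trace over `β` -/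
def PTP (k : ℕ) (α β : Type) [Fintype α] [DecidableEq α] [Fintype β] [DecidableEq β]
    (PT : P (α ⊕ β) →+ P α) : Prop :=
  (∀ (x x' : P α) (y : P (α ⊕ β)),
      PT (emb Function.Embedding.inl x * y * emb Function.Embedding.inl x') = x * PT y * x') ∧
    ∀ (y : P (α ⊕ β)) (f : W k α) (w : α → Fin k),
      act k α (PT y) f w = ∑ v : β → Fin k, act k (α ⊕ β) y (extB f v) (Sum.elim w v)

/-- the equivalence of the induction step -/
def stepE (α : Type) {β γ : Type} (e : γ ≃ Option β) : α ⊕ γ ≃ Option (α ⊕ β) where
  toFun := Sum.elim (fun a => some (Sum.inl a)) (fun c => (e c).map Sum.inr)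
  invFun o := o.elim (Sum.inr (e.symm none))
    (Sum.elim Sum.inl (fun b => Sum.inr (e.symm (some b))))
  left_inv := by
    rintro (a | c)
    · rfl
    · change Option.elim ((e c).map Sum.inr) _ _ = Sum.inr c
      rcases h : e c with _ | b
      · have h1 : e.symm none = c := by rw [← h, Equiv.symm_apply_apply]
        exact congrArg Sum.inr h1
      · have h1 : e.symm (some b) = c := by rw [← h, Equiv.symm_apply_apply]
        exact congrArg Sum.inr h1
  right_inv := by
    rintro (_ | (a | b))
    · simp
    · rfl
    · simp

theorem stepE_inl {α β γ : Type} (e : γ ≃ Option β) :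
    (Function.Embedding.inl : α ↪ α ⊕ γ).trans (stepE α e).toEmbedding =
      (Function.Embedding.inl : α ↪ α ⊕ β).trans Function.Embedding.some := by
  ext a : 1
  rfl

theorem glue_equiv {N : ℕ} {α β : Type} (e : β ≃ α) (v : β → Fin N) (w : α → Fin N) :
    glue e.toEmbedding v w = v ∘ e.symm := by
  funext x
  obtain ⟨z, rfl⟩ := e.surjective x
  have h3 := glue_apply e.toEmbedding v w z
  simp only [Function.comp_apply, Equiv.symm_apply_apply]
  exact h3

theorem act_emb_equiv {N : ℕ} {α β : Type} [Fintype α] [DecidableEq α] [Fintype β] [DecidableEq β]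
    (e : β ≃ α) (y : P β) (f : W N α) (w : α → Fin N) :
    act N α (emb e.toEmbedding y) f w = act N β y (fun v => f (v ∘ e.symm)) (w ∘ e) := by
  rw [act_emb]
  simp only [glue_equiv]
  rfl

theorem PTP_empty (k : ℕ) (α β : Type) [Fintype α] [DecidableEq α] [Fintype β] [DecidableEq β]
    [IsEmpty β] : ∃ PT, PTP k α β PT := by
  let e : α ⊕ β ≃ α := Equiv.sumEmpty α β
  refine ⟨(emb e.toEmbedding : P (α ⊕ β) →+* P α), ?_, ?_⟩
  · intro x x' y
    have h : ∀ x : P α, emb e.toEmbedding (emb Function.Embedding.inl x) = x := by
      intro x
      rw [emb_trans]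
      have : (Function.Embedding.inl : α ↪ α ⊕ β).trans e.toEmbedding =
          Function.Embedding.refl α := by
        ext a : 1
        rfl
      rw [this]
      refine P_induction (p := fun x => emb (Function.Embedding.refl α) x = x) x ?_ ?_ ?_
      · intro σ
        rw [emb_g]
        congr 1
        ext a
        exact Perm.viaEmbedding_apply σ (Function.Embedding.refl α) a
      · intro a b ha hb
        rw [map_add, ha, hb]
      · intro n a ha
        rw [emb_zsmul, ha]
    change emb e.toEmbedding (_ * _ * _) = x * emb e.toEmbedding y * x'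
    rw [map_mul, map_mul, h, h]
  · intro y f w
    change act k α (emb e.toEmbedding y) f w = _
    rw [act_emb_equiv, Fintype.sum_unique]
    have h1 : (fun v : α ⊕ β → Fin k => f (v ∘ e.symm)) = extB f (default : β → Fin k) := by
      funext u
      unfold extB
      rw [if_pos (Subsingleton.elim _ _)]
      rfl
    have h2 : w ∘ e = Sum.elim w (default : β → Fin k) := by
      funext x
      rcases x with a | b
      · rfl
      · exact isEmptyElim b
    rw [h1, h2]

theorem PTP_step (k : ℕ) (α β γ : Type) [Fintype α] [DecidableEq α] [Fintype β] [DecidableEq β]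
    [Fintype γ] [DecidableEq γ] (e : γ ≃ Option β) (h : ∃ PT, PTP k α β PT) :
    ∃ PT, PTP k α γ PT := by
  obtain ⟨PT, hP1, hP2⟩ := h
  refine ⟨(PT.comp (T1 k (α ⊕ β))).comp
    (emb (stepE α e).toEmbedding : P (α ⊕ γ) →+* P (Option (α ⊕ β))).toAddMonoidHom, ?_, ?_⟩
  · intro x x' y
    change PT (T1 k (α ⊕ β) (emb (stepE α e).toEmbedding (_ * _ * _))) =
      x * PT (T1 k (α ⊕ β) (emb (stepE α e).toEmbedding y)) * x'
    have h1 : ∀ x : P α, emb (stepE α e).toEmbedding (emb Function.Embedding.inl x) =
        emb Function.Embedding.some (emb (Function.Embedding.inl : α ↪ α ⊕ β) x) := by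
      intro x
      rw [emb_trans, stepE_inl, ← emb_trans]
    rw [(emb (stepE α e).toEmbedding).map_mul, (emb (stepE α e).toEmbedding).map_mul, h1, h1,
      T1_mul_emb, T1_emb_mul, hP1]
  · intro y f w
    change act k α (PT (T1 k (α ⊕ β) (emb (stepE α e).toEmbedding y))) f w = _
    rw [hP2]
    simp only [act_T1]
    rw [← Finset.sum_product']
    refine Finset.sum_bij' (fun p _ => fun c => (e c).elim p.2 p.1)
      (fun v _ => (fun b => v (e.symm (some b)), v (e.symm none))) ?_ ?_ ?_ ?_ ?_
    · intro p _
      exact mem_univ _
    · intro v _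
      exact mem_univ _
    · intro p _
      ext1
      · funext b
        simp
      · simp
    · intro v _
      funext c
      rcases hc : e c with _ | b
      · have h1 : e.symm none = c := by rw [← hc, Equiv.symm_apply_apply]
        exact congrArg v h1
      · have h1 : e.symm (some b) = c := by rw [← hc, Equiv.symm_apply_apply]
        exact congrArg v h1
    · intro p _
      rw [act_emb_equiv]
      have h1 : (fun v : α ⊕ γ → Fin k => ext1 (extB f p.1) p.2 (v ∘ (stepE α e).symm)) =
          extB f (fun c => (e c).elim p.2 p.1) := by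
        funext u
        unfold ext1 extB
        have h3 : (u ∘ (stepE α e).symm) none = u (Sum.inr (e.symm none)) := rfl
        have h4 : (fun b : β => ((u ∘ (stepE α e).symm) ∘ some) (Sum.inr b)) =
            fun b => u (Sum.inr (e.symm (some b))) := rfl
        have h5 : (fun a : α => ((u ∘ (stepE α e).symm) ∘ some) (Sum.inl a)) =
            fun a => u (Sum.inl a) := rfl
        rw [h3, h4, h5]
        by_cases hh : (fun c => u (Sum.inr c)) = fun c => (e c).elim p.2 p.1
        · have h6 : ∀ c, u (Sum.inr c) = (e c).elim p.2 p.1 := fun c => congrFun hh c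
          rw [if_pos hh, if_pos (by rw [h6]; simp), if_pos (by funext b; rw [h6]; simp)]
        · rw [if_neg hh]
          split_ifs with h7 h8
          · exfalso
            apply hh
            funext c
            rcases hc : e c with _ | b
            · have : e.symm none = c := by rw [← hc, Equiv.symm_apply_apply]
              rw [← this, h7]
              rfl
            · have : e.symm (some b) = c := by rw [← hc, Equiv.symm_apply_apply]
              rw [← this]
              exact congrFun h8 b
          · rfl
          · rfl
      have h2 : cons1 (Sum.elim w p.1) p.2 ∘ stepE α e =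
          Sum.elim w (fun c => (e c).elim p.2 p.1) := by
        funext x
        rcases x with a | c
        · rfl
        · change cons1 (Sum.elim w p.1) p.2 ((e c).map Sum.inr) = (e c).elim p.2 p.1
          rcases e c with _ | b <;> rfl
      rw [h1, h2]

theorem exists_PTP (k : ℕ) (α : Type) [Fintype α] [DecidableEq α] (n : ℕ) :
    ∀ (β : Type) [Fintype β] [DecidableEq β], Fintype.card β = n → ∃ PT, PTP k α β PT := by
  induction n with
  | zero =>
    intro β _ _ h
    have : IsEmpty β := Fintype.card_eq_zero_iff.1 h
    exact PTP_empty k α β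
  | succ n ih =>
    intro β _ _ h
    exact PTP_step k α (Fin n) β ((Fintype.equivFinOfCardEq h).trans (finSuccEquiv n))
      (ih (Fin n) (Fintype.card_fin n))

end ptdef

section bswapp

variable {α β : Type} [DecidableEq α] [DecidableEq β] [Fintype β] (j : β ↪ α)

theorem bsw_list_inr (l : List β) (hl : l.Nodup) (b : β) :
    (l.map fun b : β => swap (Sum.inl (j b) : α ⊕ β) (Sum.inr b)).prod (Sum.inr b) =
      if b ∈ l then Sum.inl (j b) else Sum.inr b := by
  induction l with
  | nil => simp
  | cons c l ih =>
    rw [List.map_cons, List.prod_cons, Perm.mul_apply, ih (List.nodup_cons.1 hl).2]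
    by_cases hb : b ∈ l
    · have hne : b ≠ c := fun h => (List.nodup_cons.1 hl).1 (h ▸ hb)
      rw [if_pos hb, if_pos (List.mem_cons_of_mem _ hb),
        swap_apply_of_ne_of_ne (fun h => hne (j.injective (Sum.inl_injective h)))
          (fun h => by cases h)]
    · rw [if_neg hb]
      by_cases hc : b = c
      · subst hc
        rw [swap_apply_right, if_pos List.mem_cons_self]
      · rw [swap_apply_of_ne_of_ne (fun h => by cases h) (fun h => hc (Sum.inr_injective h)),
          if_neg (fun h => by
            rcases List.mem_cons.1 h with h | h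
            · exact hc h
            · exact hb h)]

theorem bsw_list_inl (l : List β) (hl : l.Nodup) (b : β) :
    (l.map fun b : β => swap (Sum.inl (j b) : α ⊕ β) (Sum.inr b)).prod (Sum.inl (j b)) =
      if b ∈ l then Sum.inr b else Sum.inl (j b) := by
  induction l with
  | nil => simp
  | cons c l ih =>
    rw [List.map_cons, List.prod_cons, Perm.mul_apply, ih (List.nodup_cons.1 hl).2]
    by_cases hb : b ∈ l
    · have hne : b ≠ c := fun h => (List.nodup_cons.1 hl).1 (h ▸ hb)
      rw [if_pos hb, if_pos (List.mem_cons_of_mem _ hb),
        swap_apply_of_ne_of_ne (fun h => by cases h) (fun h => hne (Sum.inr_injective h))]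
    · rw [if_neg hb]
      by_cases hc : b = c
      · subst hc
        rw [swap_apply_left, if_pos List.mem_cons_self]
      · rw [swap_apply_of_ne_of_ne (fun h => hc (j.injective (Sum.inl_injective h)))
          (fun h => by cases h),
          if_neg (fun h => by
            rcases List.mem_cons.1 h with h | h
            · exact hc h
            · exact hb h)]

theorem bsw_list_of_notMem (l : List β) (a : α) (ha : a ∉ Set.range j) :
    (l.map fun b : β => swap (Sum.inl (j b) : α ⊕ β) (Sum.inr b)).prod (Sum.inl a) =
      Sum.inl a := by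
  induction l with
  | nil => simp
  | cons c l ih =>
    rw [List.map_cons, List.prod_cons, Perm.mul_apply, ih,
      swap_apply_of_ne_of_ne (fun h => ha ⟨c, (Sum.inl_injective h).symm⟩) (fun h => by cases h)]

theorem bsw_inr (b : β) : bsw j (Sum.inr b) = Sum.inl (j b) := by
  unfold bsw
  rw [bsw_list_inr j _ (Finset.nodup_toList _), if_pos (Finset.mem_toList.2 (mem_univ _))]

theorem bsw_inl (b : β) : bsw j (Sum.inl (j b)) = Sum.inr b := by
  unfold bsw
  rw [bsw_list_inl j _ (Finset.nodup_toList _), if_pos (Finset.mem_toList.2 (mem_univ _))]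

theorem bsw_inl_of_notMem (a : α) (ha : a ∉ Set.range j) : bsw j (Sum.inl a) = Sum.inl a :=
  bsw_list_of_notMem j _ a ha

theorem bsw_comp {N : ℕ} (u : α ⊕ β → Fin N) :
    u ∘ bsw j = Sum.elim (glue j (fun b => u (Sum.inr b)) (fun a => u (Sum.inl a)))
      (fun b => u (Sum.inl (j b))) := by
  funext x
  rcases x with a | b
  · by_cases ha : a ∈ Set.range j
    · obtain ⟨b, rfl⟩ := ha
      rw [Function.comp_apply, bsw_inl, Sum.elim_inl, glue_apply]
    · rw [Function.comp_apply, bsw_inl_of_notMem j a ha, Sum.elim_inl,
        glue_apply_of_notMem _ _ _ _ ha]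
  · rw [Function.comp_apply, bsw_inr, Sum.elim_inr]

end bswapp

/-- the action of an element on the block `β` -/
theorem act_inr {k : ℕ} {α β : Type} [Fintype α] [DecidableEq α] [Fintype β] [DecidableEq β]
    (y : P β) (F : W k (α ⊕ β)) (w : α → Fin k) (v : β → Fin k) :
    act k _ (emb Function.Embedding.inr y) F (Sum.elim w v) =
      act k _ y (fun v' => F (Sum.elim w v')) v := by
  rw [act_emb]
  have h1 : ∀ v' : β → Fin k, glue (Function.Embedding.inr : β ↪ α ⊕ β) v' (Sum.elim w v) =
      Sum.elim w v' := by
    intro v'
    funext x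
    rcases x with a | b
    · rw [glue_apply_of_notMem]
      · rfl
      · rintro ⟨b, hb⟩
        cases hb
    · exact glue_apply Function.Embedding.inr v' (Sum.elim w v) b
  simp only [h1]
  rfl

/-- PARTIAL TRACE over the block `β`.  (By induction on the cardinal of `β` from `H4.T1`; or
`T1`-free: `PT` of a permutation `σ` of `α ⊕ β` is `k ^ (number of cycles inside β)` times the
induced permutation of `α`.)  All four properties at the level of the action on the words. -/
theorem exists_PT (k : ℕ) (α β : Type) [Fintype α] [DecidableEq α] [Fintype β] [DecidableEq β] :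
    ∃ PT : P (α ⊕ β) →+ P α,
      (∀ x, act k _ x = 0 → act k _ (PT x) = 0) ∧
      (∀ (x x' : P α) (y : P (α ⊕ β)),
        PT (emb Function.Embedding.inl x * y * emb Function.Embedding.inl x') = x * PT y * x') ∧
      (∀ (j : β ↪ α) (y : P β),
        act k _ (PT (emb Function.Embedding.inr y * g (bsw j))) = act k _ (emb j y)) ∧
      (∀ (y : P β) (f : W k α),
        act k _ (PT (emb Function.Embedding.inr y)) f = (tc k y) • f) := by
  classical
  obtain ⟨PT, h1, h2⟩ := exists_PTP k α _ β rfl
  refine ⟨PT, ?_, h1, ?_, ?_⟩
  · intro x hx
    refine LinearMap.ext fun f => ?_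
    funext w
    rw [h2, hx]
    simp
  · intro j y
    refine LinearMap.ext fun f => ?_
    funext w
    rw [h2, act_emb]
    have h3 : ∀ v : β → Fin k,
        act k _ (emb Function.Embedding.inr y * g (bsw j)) (extB f v) (Sum.elim w v) =
          act k _ y (fun v' => extB (fun _ : Empty → Fin k => f (glue j v' w)) v
            (Sum.elim (fun x => isEmptyElim x) (fun b => w (j b)))) v := by
      intro v
      rw [act_mul, act_inr]
      have h4 : (fun v' : β → Fin k => act k (α ⊕ β) (g (bsw j)) (extB f v) (Sum.elim w v')) =
          fun v' => extB (fun _ : Empty → Fin k => f (glue j v' w)) v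
            (Sum.elim (fun x => isEmptyElim x) (fun b => w (j b))) := by
        funext v'
        rw [act_g, bsw_comp]
        by_cases hv : (fun b => w (j b)) = v
        · subst hv
          rw [extB_same]
          exact extB_same _ _ _
        · rw [extB_ne _ _ _ _ hv]
          exact extB_ne _ _ _ _ hv
      rw [h4]
    rw [Finset.sum_congr rfl (fun v _ => h3 v), Finset.sum_eq_single (fun b => w (j b))]
    · simp only [extB_same]
      rfl
    · intro v _ hv
      have : (fun v' : β → Fin k => extB (fun _ : Empty → Fin k => f (glue j v' w)) v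
            (Sum.elim (fun x => isEmptyElim x) (fun b => w (j b)))) = (0 : W k β) := by
        funext v'
        exact extB_ne _ _ _ _ (fun h => hv h.symm)
      rw [this, map_zero]
      rfl
    · intro h
      exact absurd (mem_univ _) h
  · intro y f
    funext w
    rw [h2, Pi.smul_apply, smul_eq_mul]
    unfold tc
    rw [Finset.sum_mul]
    refine Finset.sum_congr rfl fun v _ => ?_
    rw [act_inr]
    have h3 : (fun v' : β → Fin k => extB f v (Sum.elim w v')) =
        f w • (Pi.single v 1 : W k β) := by
      funext v'
      rw [Pi.smul_apply, smul_eq_mul]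
      by_cases hv : v' = v
      · subst hv
        rw [Pi.single_eq_same, mul_one, extB_same]
      · rw [extB_ne _ _ _ _ hv, Pi.single_eq_of_ne hv, mul_zero]
    rw [h3, map_smul, Pi.smul_apply, smul_eq_mul, mul_comm]

end Pool.PI34.EV
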