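import Pool.Agent.LibPI34.H4_Split
import Pool.Agent.LibPI34.X_PT

/-!
PI34, p = 2, block EVEN2: definitions (from the statement file of helper34).
-/

set_option autoImplicit false
set_option linter.unusedSectionVars false

namespace Pool.PI34.EV

open Equiv Finset
open Pool.PI34.H4

/-- the open strand `none`, the letters `some a`, two groups of `k` new strands -/
abbrev Big (A : Type) (k : ℕ) : Type := Option A ⊕ (Fin k ⊕ Fin k)

/-- a permutation of the letters, on `Option A` -/
def oh {A : Type} (h : Perm A) : Perm (Option A) := optionCongr h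

/-- the same on `Big A k` -/
def hh {A : Type} (k : ℕ) (h : Perm A) : Perm (Big A k) := sumCongr (optionCongr h) 1

/-- EVEN1: the invariant functionals which kill the kernel of the action kill the multiples of
`A_P A_Q` whose symmetrisation acts by zero. -/
def Even1 : Prop :=
  ∀ (k : ℕ) (A C : Type) [Fintype A] [DecidableEq A] [DecidableEq C] (c : A → C)
    (v : P (Option A)),
    act k (Option A) (∑ h ∈ univ.filter (fun h : Perm A => c ∘ h = c),
      g (oh h) * v * g (oh h)⁻¹) = 0 →
    ∀ (W : Type) [AddCommGroup W] (lam : P (Big A k) →+ W),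
      (∀ y, act k _ y = 0 → lam y = 0) →
      (∀ h : Perm A, c ∘ h = c → ∀ y, lam (g (hh k h) * y * g (hh k h)⁻¹) = lam y) →
      lam (emb Function.Embedding.inl v *
        (emb (Function.Embedding.inl.trans Function.Embedding.inr) (As (Fin k)) *
          emb (Function.Embedding.inr.trans Function.Embedding.inr) (As (Fin k)))) = 0

/-- V-catalysts: quasi-idempotent (odd factor), a left multiple of the signed sum of `k` of its
strands, trace `≠ 0`. -/
structure VCat (k : ℕ) where
  n : ℕ
  θ : P (Fin n ⊕ Fin k)
  y : P (Fin n ⊕ Fin k)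
  κ : ℤ
  hκ : Odd κ
  sq : act k _ (θ * θ) = κ • act k _ θ
  fac : act k _ θ = act k _ (y * emb Function.Embedding.inr (As (Fin k)))
  tr : tc k θ ≠ 0

variable {k : ℕ} (V : VCat k)

/-- the strands of one catalyst -/
abbrev VCat.B : Type := Fin V.n ⊕ Fin k

/-- the open strand, the letters `A`, two copies of the catalyst -/
abbrev Al (A : Type) : Type := Option (A ⊕ (V.B ⊕ V.B))

/-- the two catalysts -/
noncomputable def VCat.θ2 (A : Type) [Fintype A] [DecidableEq A] : P (Al V A) :=
  emb ((Function.Embedding.inl.trans Function.Embedding.inr).trans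
      (Function.Embedding.some : (A ⊕ (V.B ⊕ V.B)) ↪ Al V A)) V.θ *
    emb ((Function.Embedding.inr.trans Function.Embedding.inr).trans
      (Function.Embedding.some : (A ⊕ (V.B ⊕ V.B)) ↪ Al V A)) V.θ

/-- a permutation of the letters, on `Al V A` -/
def VCat.hA {A : Type} (h : Perm A) : Perm (Al V A) := optionCongr (sumCongr h 1)

/-- Partial traces over the block `β`. -/
def PTr : Prop :=
  ∀ (k : ℕ) (α β : Type) [Fintype α] [DecidableEq α] [Fintype β] [DecidableEq β],
    ∃ PT : P (α ⊕ β) →+ P α,
      (∀ x, act k _ x = 0 → act k _ (PT x) = 0) ∧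
      (∀ (x x' : P α) (y : P (α ⊕ β)),
        PT (emb Function.Embedding.inl x * y * emb Function.Embedding.inl x') = x * PT y * x') ∧
      (∀ (j : β ↪ α) (y : P β),
        act k _ (PT (emb Function.Embedding.inr y * g (bsw j))) = act k _ (emb j y)) ∧
      (∀ (y : P β) (f : W k α),
        act k _ (PT (emb Function.Embedding.inr y)) f = (tc k y) • f)

end Pool.PI34.EV
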