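import Pool.Agent.LibPI34.EV_Rel
import Pool.Agent.LibPI34.X_EvDef

/-!
PI34, block EV (even input of (S_ex)), file Def2: the permutation of a word and loops; interface of EVEN1.
-/

set_option autoImplicit false
set_option linter.unusedSectionVars false

namespace Pool.PI34.EV

open Equiv Finset
open Pool.PI34.H4 Pool.PI34.BA

/-- the permutation of the word `w` and the loops `us`:
inverse of `none → w₁ → w₂ → … → none`, `u₁ → u₂ → … → u₁` -/
def dperm {A : Type} [DecidableEq A] (w : List A) (us : List (LD A)) : Perm (Option A) :=
  ((none :: w.map some).formPerm * (us.map fun u => ((u.1 :: u.2.1).map some).formPerm).prod)⁻¹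

/-- the strands -/
abbrev St (k : ℕ) : Type := Option (Fin k ⊕ Fin k)

/-- the strands `P` -/
def pS (k : ℕ) : Fin k ↪ St k := Function.Embedding.inl.trans Function.Embedding.some

/-- the strands `Q` -/
def qS (k : ℕ) : Fin k ↪ St k := Function.Embedding.inr.trans Function.Embedding.some

/-- PART II (universal string system) -/
def PartII : Prop :=
  ∀ (k : ℕ) (A C : Type) [Fintype A] [DecidableEq A] [DecidableEq C] (c : A → C)
    (W : Type) [AddCommGroup W] (lam : P (Big A k) →+ W), (∀ y, act k _ y = 0 → lam y = 0) →
    (∀ h : Perm A, c ∘ h = c → ∀ y, lam (g (hh k h) * y * g (hh k h)⁻¹) = lam y) →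
    ∃ (E : Type) (_ : Ring E) (S : Str (St k) (FreeAlgebra ℤ C) E) (ev : E →+ W),
      Anti S.s k ∧ ∀ (w : List A) (us : List (LD A)), (w ++ pl us).Nodup → (∀ a, a ∈ w ++ pl us) →
        ev (val S (pS k) (qS k) none (fun a => FreeAlgebra.ι ℤ (c a)) w us) =
          lam (emb Function.Embedding.inl (g (dperm w us)) *
            (emb (Function.Embedding.inl.trans Function.Embedding.inr) (As (Fin k)) *
              emb (Function.Embedding.inr.trans Function.Embedding.inr) (As (Fin k))))

end Pool.PI34.EV
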