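import Pool.Agent.LibPI34.EV_Kill

/-!
PI34, block EV (even input of (S_ex)), file Fin: EVEN1.
-/

set_option autoImplicit false
set_option linter.unusedSectionVars false

namespace Pool.PI34.EV

open Equiv Finset Matrix
open Pool.PI34.BA Pool.PI34.H4 Pool.PI34.SS

theorem matStr_rho_smul {k : ℕ} {C ι : Type} [CommRing C] [Fintype ι] [DecidableEq ι] (i : ι)
    (r : C) (M : Matrix (Fin k) (Fin k) C) :
    (matStr k C ι).ρ i (r • M) = r • (matStr k C ι).ρ i M := by
  refine LinearMap.ext fun v => funext fun f => ?_
  change ∑ c, (r • M) (f i) c * v (Function.update f i c) =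
    r * ∑ c, M (f i) c * v (Function.update f i c)
  rw [Finset.mul_sum]
  refine Finset.sum_congr rfl fun c _ => ?_
  rw [Matrix.smul_apply, smul_eq_mul, mul_assoc]

/-- the data of a permutation -/
structure Dat {A : Type} [DecidableEq A] (π : Perm (Option A)) (w : List A) (us : List (LD A)) :
    Prop where
  nd : (w ++ pl us).Nodup
  all : ∀ a, a ∈ w ++ pl us
  ix : (idx us).Nodup
  eq : dperm w us = π

theorem exists_dat {A : Type} [Fintype A] [DecidableEq A] (π : Perm (Option A)) :
    ∃ (w : List A) (us : List (LD A)), Dat π w us := by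
  obtain ⟨w, us, h1, h2, h3, h4⟩ := exists_cprod (univ : Finset A) π⁻¹
    (fun a ha => absurd (mem_univ a) ha)
  refine ⟨w, us, h1, fun a => (h2 a).2 (mem_univ a), h3, ?_⟩
  have h5 : dperm w us = (cprod w us)⁻¹ := rfl
  rw [h5, h4, inv_inv]

section gen

variable {A X : Type} [Fintype A] [DecidableEq A] {m : ℕ}

/-- the relations for the generic matrices -/
theorem gen_kill (cX : A → X) (v : P (Option A))
    (S : Finset (Perm A)) (hS : ∀ h ∈ S, cX ∘ h = cX) (h1S : (1 : Perm A) ∈ S)
    (hv : act (m + 1) (Option A) (∑ h ∈ S, g (oh h) * v * g (oh h)⁻¹) = 0)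
    (w : Perm (Option A) → List A) (us : Perm (Option A) → List (LD A))
    (hd : ∀ π, Dat π (w π) (us π)) {ι : Type} [Fintype ι] [DecidableEq ι]
    (p q : Fin (m + 1) ↪ ι) (z : ι) (hF : Frame p q z) :
    evP (fun π => val (matStr (m + 1) (CG X (m + 1)) ι) p q z
      (fun a => gen X (m + 1) (cX a)) (w π) (us π)) v = 0 := by
  have h1 : ∀ π, val (matStr (m + 1) (CG X (m + 1)) ι) p q z
      (fun a => gen X (m + 1) (cX a)) (w π) (us π) =
      (matStr (m + 1) (CG X (m + 1)) ι).ρ z
        (((us π).map fun u => (wd (fun a => gen X (m + 1) (cX a)) u).trace).prod •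
          ((w π).map fun a => gen X (m + 1) (cX a)).prod) *
        (matStr (m + 1) (CG X (m + 1)) ι).om p q := by
    intro π
    rw [val_mat p q z hF, matStr_rho_smul, smul_mul_assoc]
  rw [evP_congr h1]
  have h2 := map_evP ((AddMonoidHom.mulRight ((matStr (m + 1) (CG X (m + 1)) ι).om p q)).comp
    ((matStr (m + 1) (CG X (m + 1)) ι).ρ z).toAddMonoidHom)
    (fun π => ((us π).map fun u => (wd (fun a => gen X (m + 1) (cX a)) u).trace).prod •
          ((w π).map fun a => gen X (m + 1) (cX a)).prod) v
  refine h2.symm.trans ?_
  have h3 : evP (fun π => ((us π).map fun u => (wd (fun a => gen X (m + 1) (cX a)) u).trace).prod •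
          ((w π).map fun a => gen X (m + 1) (cX a)).prod) v = 0 := by
    refine Matrix.ext fun i j => ?_
    have h4 := map_evP (Matrix.entryAddMonoidHom (CG X (m + 1)) i j)
      (fun π => ((us π).map fun u => (wd (fun a => gen X (m + 1) (cX a)) u).trace).prod •
          ((w π).map fun a => gen X (m + 1) (cX a)).prod) v
    refine h4.trans ?_
    have h5 : ∀ π, Matrix.entryAddMonoidHom (CG X (m + 1)) i j
        (((us π).map fun u => (wd (fun a => gen X (m + 1) (cX a)) u).trace).prod •
          ((w π).map fun a => gen X (m + 1) (cX a)).prod) =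
        Zs π (NN i j fun a => gen X (m + 1) (cX a)) := by
      intro π
      have h6 := trace_formula (fun a => gen X (m + 1) (cX a)) (w π) (us π) (hd π).nd (hd π).all i j
      rw [(hd π).eq] at h6
      rw [← h6]
      rfl
    rw [evP_congr h5]
    have h7 := Zs_colour (NN i j fun a => gen X (m + 1) (cX a)) (S.image oh) (by
      intro h hh s
      obtain ⟨h', hh', rfl⟩ := Finset.mem_image.1 hh
      cases s with
      | none => rfl
      | some a =>
        change gen X (m + 1) (cX (h' a)) = gen X (m + 1) (cX a)
        exact congrArg (gen X (m + 1)) (congrFun (hS h' hh') a)) v (by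
      rw [Finset.sum_image]
      · exact hv
      · intro a _ b _ hab
        ext1 x
        have := congrFun (congrArg (fun f : Perm (Option A) => (f : Option A → Option A)) hab)
          (some x)
        exact Option.some_injective _ this)
    rw [nsmul_eq_mul, mul_eq_zero] at h7
    rcases h7 with h7 | h7
    · exfalso
      have h8 : (S.image oh).card = 0 := by exact_mod_cast h7
      rw [Finset.card_eq_zero] at h8
      have h9 : oh (1 : Perm A) ∈ S.image oh := Finset.mem_image_of_mem _ h1S
      rw [h8] at h9
      exact absurd h9 (Finset.notMem_empty _)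
    · exact h7
  rw [h3, map_zero]

end gen

/-- the relations for all string systems -/
theorem val_kill {m : ℕ} {A C : Type} [Fintype A] [DecidableEq A] [DecidableEq C] (c : A → C)
    (v : P (Option A))
    (hv : act (m + 1) (Option A) (∑ h ∈ univ.filter (fun h : Perm A => c ∘ h = c),
      g (oh h) * v * g (oh h)⁻¹) = 0)
    (w : Perm (Option A) → List A) (us : Perm (Option A) → List (LD A))
    (hd : ∀ π, Dat π (w π) (us π)) {ι Φ E : Type} [Fintype ι] [DecidableEq ι] [Ring Φ] [Ring E]
    (S : Str ι Φ E) (hA : Anti S.s (m + 1)) (p q : Fin (m + 1) ↪ ι) (z : ι) (hF : Frame p q z)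
    (x : C → Φ) :
    evP (fun π => val S p q z (fun a => x (c a)) (w π) (us π)) v = 0 := by
  classical
  let X : Type := {x : C // x ∈ (univ : Finset A).image c}
  let cX : A → X := fun a => ⟨c a, Finset.mem_image_of_mem c (mem_univ a)⟩
  let n : ℕ := Fintype.card A
  let e : A → X × Fin n := fun a => (cX a, Fintype.equivFin A a)
  have he : Function.Injective e := fun a b hab => (Fintype.equivFin A).injective (Prod.ext_iff.1 hab).2
  have hgen := gen_kill cX v (univ.filter (fun h : Perm A => c ∘ h = c)) (by
    intro h hh
    have h1 := (Finset.mem_filter.1 hh).2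
    funext a
    exact Subtype.ext (congrFun h1 a)) (Finset.mem_filter.2 ⟨mem_univ _, rfl⟩) hv w us hd p q z hF
  have hlen : ∀ π, ((w π).map e).length + len ((us π).map (mpL e)) = n := by
    intro π
    rw [List.length_map, len_mpL, len_eq, ← List.length_append]
    have h1 : (w π ++ pl (us π)).toFinset = univ := by
      ext a
      simp only [List.mem_toFinset, mem_univ, iff_true]
      exact (hd π).all a
    rw [← List.toFinset_card_of_nodup (hd π).nd, h1, Finset.card_univ]
  have hnd : ∀ π, ((w π).map e ++ pl ((us π).map (mpL e))).Nodup := by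
    intro π
    rw [pl_mpL, ← List.map_append]
    exact (hd π).nd.map he
  have h := val_glue S (m + 1) n hA p q z hF (rankBound_of_GEN p q z hF (A5.GEN_all X (m + 1) n))
    (fun y : X => x y.1) (fun π : Perm (Option A) => v.coeff π) (fun π => (w π).map e)
    (fun π => (us π).map (mpL e)) hnd (fun π => by rw [idx_mpL]; exact (hd π).ix) hlen (by
      refine Eq.trans (Finset.sum_congr rfl fun π _ => ?_) hgen
      rw [val_mpL])
  refine Eq.trans (Finset.sum_congr rfl fun π _ => ?_) h
  rw [val_mpL]

/-- PART II (universal string system) implies EVEN1. -/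
theorem even1_of_partII (hII : PartII) : Even1 := by
  intro k A C _ _ _ c v hv W _ lam h1 h2
  cases k with
  | zero =>
    refine h1 _ ?_
    refine LinearMap.ext fun f => funext fun x => ?_
    exact (x (Sum.inl none)).elim0
  | succ m =>
    obtain ⟨E, hE, S, ev, hA, hev⟩ := hII (m + 1) A C c W lam h1 h2
    choose w us hd using fun π : Perm (Option A) => exists_dat π
    have hF : Frame (pS (m + 1)) (qS (m + 1)) (none : St (m + 1)) :=
      ⟨fun i j h => by simp [pS, qS] at h, fun i h => by simp [pS] at h,
        fun i h => by simp [qS] at h⟩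
    have h3 := val_kill c v hv w us hd S hA (pS (m + 1)) (qS (m + 1)) none hF
      (fun a => FreeAlgebra.ι ℤ a)
    have h4 := congrArg ev h3
    rw [map_evP, map_zero] at h4
    have h5 : ∀ π, ev (val S (pS (m + 1)) (qS (m + 1)) none
        (fun a => FreeAlgebra.ι ℤ (c a)) (w π) (us π)) = lam (emb Function.Embedding.inl (g π) *
            (emb (Function.Embedding.inl.trans Function.Embedding.inr) (As (Fin (m + 1))) *
              emb (Function.Embedding.inr.trans Function.Embedding.inr) (As (Fin (m + 1))))) := by
      intro π
      rw [hev (w π) (us π) (hd π).nd (hd π).all, (hd π).eq]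
    rw [evP_congr h5] at h4
    rw [← h4]
    refine P_induction (p := fun v => lam (emb Function.Embedding.inl v *
            (emb (Function.Embedding.inl.trans Function.Embedding.inr) (As (Fin (m + 1))) *
              emb (Function.Embedding.inr.trans Function.Embedding.inr) (As (Fin (m + 1))))) =
        evP (fun π => lam (emb Function.Embedding.inl (g π) *
            (emb (Function.Embedding.inl.trans Function.Embedding.inr) (As (Fin (m + 1))) *
              emb (Function.Embedding.inr.trans Function.Embedding.inr) (As (Fin (m + 1)))))) v) v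
      ?_ ?_ ?_
    · intro σ
      rw [evP_g]
    · intro a b ha hb
      rw [map_add, add_mul, map_add, ha, hb, map_add]
    · intro n a ha
      rw [map_zsmul, smul_mul_assoc, map_zsmul, ha, map_zsmul]

end Pool.PI34.EV
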