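import Pool.Agent.LibPI34.EV_Glue

/-!
PI34, block EV (even input of (S_ex)), file Gen: the values of words and loops for matrices.
-/

set_option autoImplicit false
set_option linter.unusedSectionVars false

namespace Pool.PI34.EV

open Equiv Finset Matrix
open Pool.PI34.BA
open scoped TensorProduct

variable {k : ℕ} {C ι : Type} [CommRing C] [Fintype ι] [DecidableEq ι]

theorem update_swap (p : Fin k ↪ ι) (a b : Fin k) (hab : a ≠ b) (f : ι → Fin k)
    (hf : f (p a) = f (p b)) (c : Fin k) : Function.update f (p b) c =
      Function.update f (p a) c ∘ (Equiv.swap (p a) (p b)) := by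
  have hne : p a ≠ p b := fun h => hab (p.injective h)
  funext x
  rw [Function.comp_apply]
  by_cases hxa : x = p a
  · rw [hxa, Equiv.swap_apply_left, Function.update_of_ne hne, Function.update_of_ne hne.symm, hf]
  · by_cases hxb : x = p b
    · rw [hxb, Equiv.swap_apply_right, Function.update_self, Function.update_self]
    · rw [Equiv.swap_apply_of_ne_of_ne hxa hxb, Function.update_of_ne hxb,
        Function.update_of_ne hxa]

theorem tr_anti_apply (p : Fin k ↪ ι) (M : Matrix (Fin k) (Fin k) C) (v : (ι → Fin k) → C)
    (f : ι → Fin k) :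
    ∑ i, ∑ c, M (f (p i)) c * anti (matStr k C ι).s (univ.map p) v (Function.update f (p i) c) =
      M.trace * anti (matStr k C ι).s (univ.map p) v f := by
  set Y : (ι → Fin k) → C := anti (matStr k C ι).s (univ.map p) v with hY
  have hz : ∀ (g : ι → Fin k) (a b : Fin k), a ≠ b → g (p a) = g (p b) → Y g = 0 := by
    intro g a b hab hg
    exact F2_anti_zero (univ.map p) v g (p a) (p b) (Finset.mem_map_of_mem p (mem_univ a))
      (Finset.mem_map_of_mem p (mem_univ b)) (fun h => hab (p.injective h)) hg
  by_cases hinj : Function.Injective (fun i => f (p i))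
  · have hbij : Function.Bijective (fun i => f (p i)) := Finite.injective_iff_bijective.1 hinj
    have h1 : ∀ i, ∑ c, M (f (p i)) c * Y (Function.update f (p i) c) =
        M (f (p i)) (f (p i)) * Y f := by
      intro i
      rw [Finset.sum_eq_single (f (p i))]
      · rw [Function.update_eq_self]
      · intro c _ hc
        obtain ⟨j, hj⟩ := hbij.2 c
        have hj' : f (p j) = c := hj
        have hij : i ≠ j := by
          rintro rfl
          exact hc hj'.symm
        rw [hz _ i j hij, mul_zero]
        rw [Function.update_self, Function.update_of_ne, hj']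
        intro h
        exact hij (p.injective h).symm
      · intro h
        exact absurd (mem_univ _) h
    rw [Finset.sum_congr rfl fun i _ => h1 i, ← Finset.sum_mul]
    congr 1
    exact hbij.sum_comp fun i => M i i
  · rw [Function.Injective] at hinj
    push Not at hinj
    obtain ⟨a, b, hf, hab⟩ := hinj
    have hne : p a ≠ p b := fun h => hab (p.injective h)
    rw [hz f a b hab hf, mul_zero]
    have hmem : b ∈ (univ : Finset (Fin k)).erase a := Finset.mem_erase.2 ⟨Ne.symm hab, mem_univ _⟩
    rw [← Finset.add_sum_erase univ _ (mem_univ a), ← Finset.add_sum_erase _ _ hmem]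
    have h0 : ∑ i ∈ (univ.erase a).erase b, ∑ c, M (f (p i)) c * Y (Function.update f (p i) c) =
        0 := by
      refine Finset.sum_eq_zero fun i hi => Finset.sum_eq_zero fun c _ => ?_
      rw [Finset.mem_erase, Finset.mem_erase] at hi
      rw [hz _ a b hab, mul_zero]
      rw [Function.update_of_ne (fun h => hi.2.1 (p.injective h).symm),
        Function.update_of_ne (fun h => hi.1 (p.injective h).symm)]
      exact hf
    rw [h0, add_zero]
    have h1 : ∀ c, Y (Function.update f (p b) c) = -Y (Function.update f (p a) c) := by
      intro c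
      have h2 := F2_anti_perm (univ.map p) v (Function.update f (p a) c) (Equiv.swap (p a) (p b))
        (fun x hx => Equiv.swap_apply_of_ne_of_ne
          (fun h => hx (h ▸ Finset.mem_map_of_mem p (mem_univ a)))
          (fun h => hx (h ▸ Finset.mem_map_of_mem p (mem_univ b))))
      rw [update_swap p a b hab f hf c, hY, h2, Perm.sign_swap hne]
      simp
    have hf' : f (p a) = f (p b) := hf
    rw [← hf', ← Finset.sum_add_distrib]
    refine Finset.sum_eq_zero fun c _ => ?_
    rw [h1, mul_neg, add_neg_cancel]

theorem Tr_anti (p : Fin k ↪ ι) (M : Matrix (Fin k) (Fin k) C) :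
    Tr (matStr k C ι) p M * anti (matStr k C ι).s (univ.map p) =
      M.trace • anti (matStr k C ι).s (univ.map p) := by
  refine LinearMap.ext fun v => funext fun f => ?_
  have h := tr_anti_apply p M v f
  have h1 : (Tr (matStr k C ι) p M * anti (matStr k C ι).s (univ.map p)) v f =
      ∑ i, ∑ c, M (f (p i)) c * anti (matStr k C ι).s (univ.map p) v
        (Function.update f (p i) c) := by
    unfold Tr
    rw [Finset.sum_mul, LinearMap.sum_apply, Finset.sum_apply]
    rfl
  rw [h1, h]
  rfl

theorem Tr_om (p q : Fin k ↪ ι) (z : ι) (hF : Frame p q z) (M N : Matrix (Fin k) (Fin k) C) :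
    Tr (matStr k C ι) p M * ((matStr k C ι).ρ z N * (matStr k C ι).om p q) =
      M.trace • ((matStr k C ι).ρ z N * (matStr k C ι).om p q) := by
  have h1 : Tr (matStr k C ι) p M * (matStr k C ι).ρ z N =
      (matStr k C ι).ρ z N * Tr (matStr k C ι) p M := by
    unfold Tr
    rw [Finset.sum_mul, Finset.mul_sum]
    exact Finset.sum_congr rfl fun i _ => (matStr k C ι).comm (p i) z (hF.pz i) M N
  have h2 : Tr (matStr k C ι) p M * (matStr k C ι).om p q = M.trace • (matStr k C ι).om p q := by
    unfold Str.om
    rw [← mul_assoc, Tr_anti, smul_mul_assoc]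
  rw [← mul_assoc, h1, mul_assoc, h2, mul_smul_comm]

theorem RR_om (p q : Fin k ↪ ι) (z : ι) (hF : Frame p q z) {A : Type}
    (x : A → Matrix (Fin k) (Fin k) C) (N : Matrix (Fin k) (Fin k) C) (us : List (LD A)) :
    ∀ r : C, RR (matStr k C ι) p x us
      (r • ((matStr k C ι).ρ z N * (matStr k C ι).om p q)) =
      (r * (us.map fun u => (wd x u).trace).prod) •
        ((matStr k C ι).ρ z N * (matStr k C ι).om p q) := by
  induction us with
  | nil =>
    intro r
    rw [List.map_nil, List.prod_nil, mul_one]
    rfl
  | cons u us ih =>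
    intro r
    change RR (matStr k C ι) p x us (Tr (matStr k C ι) p (wd x u) *
      (r • ((matStr k C ι).ρ z N * (matStr k C ι).om p q))) = _
    rw [mul_smul_comm, Tr_om p q z hF, smul_smul, ih, List.map_cons, List.prod_cons]
    congr 1
    ring

theorem val_mat (p q : Fin k ↪ ι) (z : ι) (hF : Frame p q z) {A : Type}
    (x : A → Matrix (Fin k) (Fin k) C) (w : List A) (us : List (LD A)) :
    val (matStr k C ι) p q z x w us = ((us.map fun u => (wd x u).trace).prod) •
      ((matStr k C ι).ρ z (w.map x).prod * (matStr k C ι).om p q) := by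
  have h := RR_om p q z hF x (w.map x).prod us 1
  rw [one_smul, one_mul] at h
  exact h

end Pool.PI34.EV
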