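import Pool.Agent.LibPI34.EV_Rel

/-!
PI34, block EV (even input of (S_ex)), file Glue: the relations between values of words and loops pass from the
generic matrices to every string system.
-/

set_option autoImplicit false
set_option linter.unusedSectionVars false

namespace Pool.PI34.EV

open Equiv Finset Matrix
open Pool.PI34.BA
open scoped TensorProduct

theorem sum_swap_helper {J K W : Type} [AddCommGroup W] [Fintype J] (s : Finset K) (c : J → ℤ)
    (f : J → K → ℤ) (P : K → W) :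
    ∑ ξ : {ξ // ξ ∈ s}, (∑ j, c j * f j ξ.1) • P ξ.1 = ∑ j, c j • ∑ ξ ∈ s, f j ξ • P ξ := by
  rw [Finset.sum_coe_sort s fun ξ => (∑ j, c j * f j ξ) • P ξ]
  simp only [Finset.sum_smul, Finset.smul_sum, mul_smul]
  rw [Finset.sum_comm]

theorem val_glue {X : Type} [Fintype X] [DecidableEq X] {ι Φ E : Type} [Fintype ι] [DecidableEq ι]
    [Ring Φ] [Ring E] (S : Str ι Φ E) (k n : ℕ) (hA : Anti S.s k) (p q : Fin k ↪ ι) (z : ι)
    (hF : Frame p q z) (hR : RankBound X k n p q z) (x : X → Φ) {J : Type} [Fintype J]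
    (c : J → ℤ) (w : J → List (X × Fin n)) (us : J → List (LD (X × Fin n)))
    (hnd : ∀ j, (w j ++ pl (us j)).Nodup) (hidx : ∀ j, (idx (us j)).Nodup)
    (hlen : ∀ j, (w j).length + len (us j) = n)
    (hc : ∑ j, c j • val (matStr k (CG X k) ι) p q z (fun a : X × Fin n => gen X k a.1) (w j)
      (us j) = 0) :
    ∑ j, c j • val S p q z (fun a : X × Fin n => x a.1) (w j) (us j) = 0 := by
  classical
  obtain ⟨f1, hf1⟩ : ∃ f : FreeAlgebra ℤ X →+* Φ, ∀ a, f (FreeAlgebra.ι ℤ a) = x a :=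
    ⟨(FreeAlgebra.lift ℤ x : FreeAlgebra ℤ X →ₐ[ℤ] Φ).toRingHom, fun a => by simp⟩
  obtain ⟨f2, hf2⟩ : ∃ f : FreeAlgebra ℤ X →+* Matrix (Fin k) (Fin k) (CG X k),
      ∀ a, f (FreeAlgebra.ι ℤ a) = gen X k a :=
    ⟨(FreeAlgebra.lift ℤ (gen X k) :
      FreeAlgebra ℤ X →ₐ[ℤ] Matrix (Fin k) (Fin k) (CG X k)).toRingHom, fun a => by simp⟩
  have e1 : (fun a => f1 (FreeAlgebra.ι ℤ a)) = x := funext hf1
  have e2 : (fun a => f2 (FreeAlgebra.ι ℤ a)) = gen X k := funext hf2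
  set SP := (S.comap f1).prod ((matStr k (CG X k) ι).comap f2) with hSP
  have hAP : Anti SP.s k := prod_Anti (S.comap f1) ((matStr k (CG X k) ι).comap f2) k hA matStr_Anti
  have P1 : ∀ ξ, (Pxi SP p q z (fun a => FreeAlgebra.ι ℤ a) n ξ).1 = Pxi S p q z x n ξ := by
    intro ξ
    have h := map_Pxi SP S f1 (RingHom.fst E (Module.End (CG X k) ((ι → Fin k) → CG X k)))
      (fun _ _ => rfl) (fun _ => rfl) p q z (fun a => FreeAlgebra.ι ℤ a) n ξ
    rw [e1] at h
    exact h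
  have P2 : ∀ ξ, (Pxi SP p q z (fun a => FreeAlgebra.ι ℤ a) n ξ).2 =
      Pxi (matStr k (CG X k) ι) p q z (gen X k) n ξ := by
    intro ξ
    have h := map_Pxi SP (matStr k (CG X k) ι) f2
      (RingHom.snd E (Module.End (CG X k) ((ι → Fin k) → CG X k)))
      (fun _ _ => rfl) (fun _ => rfl) p q z (fun a => FreeAlgebra.ι ℤ a) n ξ
    rw [e2] at h
    exact h
  haveI := noZeroSMul_end X k ι
  set F := (finite_goodMon X n).toFinset with hFs
  have hg := glue (Str.pkg SP p q z (fun a => FreeAlgebra.ι ℤ a) n hAP hF) (by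
      intro K _ _
      have h := hR K
      have h3 : (fun ξ => ((Str.pkg SP p q z (fun a => FreeAlgebra.ι ℤ a) n hAP hF).P ξ).2) =
          fun ξ => Pxi (matStr k (CG X k) ι) p q z (gen X k) n ξ := funext P2
      rw [h3]
      exact h) (J := {ξ // ξ ∈ F}) (fun ξ => ∑ j, c j * cf X n (w j) (us j) ξ.1)
      (fun ξ => ξ.1) (by
      have h4 : ∀ ξ : {ξ // ξ ∈ F}, (∑ j, c j * cf X n (w j) (us j) ξ.1) •
          ((Str.pkg SP p q z (fun a => FreeAlgebra.ι ℤ a) n hAP hF).P ξ.1).2 =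
          (∑ j, c j * cf X n (w j) (us j) ξ.1) • Pxi (matStr k (CG X k) ι) p q z (gen X k) n ξ.1 :=
        fun ξ => congrArg (fun y => (∑ j, c j * cf X n (w j) (us j) ξ.1) • y) (P2 ξ.1)
      rw [Finset.sum_congr rfl fun ξ _ => h4 ξ,
        sum_swap_helper F c (fun j ξ => cf X n (w j) (us j) ξ), ← hc]
      refine Finset.sum_congr rfl fun j _ => ?_
      rw [val_rel X n (matStr k (CG X k) ι) p q z (gen X k) matStr_Anti hF (w j) (us j) (hnd j)
        (hidx j) (hlen j)])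
  have h5 : ∀ ξ : {ξ // ξ ∈ F}, (∑ j, c j * cf X n (w j) (us j) ξ.1) •
      ((Str.pkg SP p q z (fun a => FreeAlgebra.ι ℤ a) n hAP hF).P ξ.1).1 =
      (∑ j, c j * cf X n (w j) (us j) ξ.1) • Pxi S p q z x n ξ.1 :=
    fun ξ => congrArg (fun y => (∑ j, c j * cf X n (w j) (us j) ξ.1) • y) (P1 ξ.1)
  rw [Finset.sum_congr rfl fun ξ _ => h5 ξ,
    sum_swap_helper F c (fun j ξ => cf X n (w j) (us j) ξ)] at hg
  rw [← hg]
  refine Finset.sum_congr rfl fun j _ => ?_
  rw [val_rel X n S p q z x hA hF (w j) (us j) (hnd j) (hidx j) (hlen j)]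

end Pool.PI34.EV
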