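import Mathlib

/-!
PI34, block EV (even input of (S_ex)), file Zs: the sum over the functions of a permutation with matrices is
the product of the traces of its cycles.
-/

set_option autoImplicit false
set_option linter.unusedSectionVars false

namespace Pool.PI34.EV

open Equiv Finset Matrix

section zs

variable {B : Type} [Fintype B] [DecidableEq B] {m : ℕ} {R : Type} [CommRing R]

/-- the sum over all functions -/
def Zs (π : Perm B) (N : B → Matrix (Fin (m + 1)) (Fin (m + 1)) R) : R :=
  ∑ ψ : B → Fin (m + 1), ∏ s, N s (ψ (π s)) (ψ s)

/-- the matrix of an unused label -/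
def E00 (m : ℕ) (R : Type) [CommRing R] : Matrix (Fin (m + 1)) (Fin (m + 1)) R :=
  Matrix.single 0 0 1

theorem E00_apply (x : Fin (m + 1)) : E00 m R x x = if x = 0 then 1 else 0 := by
  unfold E00
  rw [Matrix.single_apply]
  simp [eq_comm]

theorem sum_split (s : B) (F : (B → Fin (m + 1)) → R) :
    ∑ ψ, F ψ = ∑ ψ : B → Fin (m + 1), if ψ s = 0 then ∑ v, F (Function.update ψ s v) else 0 := by
  rw [← Finset.sum_filter, ← Finset.sum_product']
  refine (Finset.sum_bij' (fun x _ => Function.update x.1 s x.2)
    (fun ψ _ => (Function.update ψ s 0, ψ s)) ?_ ?_ ?_ ?_ ?_).symm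
  · intro x _
    exact mem_univ _
  · intro ψ _
    rw [Finset.mem_product, Finset.mem_filter]
    exact ⟨⟨mem_univ _, Function.update_self _ _ _⟩, mem_univ _⟩
  · rintro ⟨ψ, v⟩ hx
    rw [Finset.mem_product, Finset.mem_filter] at hx
    refine Prod.ext ?_ ?_
    · change Function.update (Function.update ψ s v) s 0 = ψ
      rw [Function.update_idem]
      have h : ψ s = 0 := hx.1.2
      rw [← h, Function.update_eq_self]
    · exact Function.update_self _ _ _
  · intro ψ _
    change Function.update (Function.update ψ s 0) s (ψ s) = ψ
    rw [Function.update_idem, Function.update_eq_self]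
  · intro x _
    rfl

theorem Zs_single (π : Perm B) (N : B → Matrix (Fin (m + 1)) (Fin (m + 1)) R) (s : B)
    (hs : π s = s) : Zs π N = (N s).trace * Zs π (Function.update N s (E00 m R)) := by
  have h1 : ∀ r, r ∈ univ.erase s → π r ≠ s := by
    intro r hr h
    have h2 : π r = π s := h.trans hs.symm
    exact (Finset.mem_erase.1 hr).1 (π.injective h2)
  unfold Zs
  rw [sum_split s, Finset.mul_sum]
  refine Finset.sum_congr rfl fun ψ _ => ?_
  rw [← Finset.mul_prod_erase univ _ (mem_univ s), Function.update_self, hs, E00_apply]
  have h2 : ∏ r ∈ univ.erase s, Function.update N s (E00 m R) r (ψ (π r)) (ψ r) =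
      ∏ r ∈ univ.erase s, N r (ψ (π r)) (ψ r) := by
    refine Finset.prod_congr rfl fun r hr => ?_
    rw [Function.update_of_ne (Finset.mem_erase.1 hr).1]
  rw [h2]
  by_cases hψ : ψ s = 0
  · rw [if_pos hψ, if_pos hψ, one_mul]
    have h3 : ∀ v, ∏ r, N r (Function.update ψ s v (π r)) (Function.update ψ s v r) =
        N s v v * ∏ r ∈ univ.erase s, N r (ψ (π r)) (ψ r) := by
      intro v
      rw [← Finset.mul_prod_erase univ _ (mem_univ s), hs, Function.update_self]
      congr 1
      refine Finset.prod_congr rfl fun r hr => ?_
      rw [Function.update_of_ne (Finset.mem_erase.1 hr).1, Function.update_of_ne (h1 r hr)]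
    rw [Finset.sum_congr rfl fun v _ => h3 v, ← Finset.sum_mul]
    rfl
  · rw [if_neg hψ, if_neg hψ, zero_mul, mul_zero]

theorem Zs_merge (π : Perm B) (N : B → Matrix (Fin (m + 1)) (Fin (m + 1)) R) (a b : B)
    (hab : a ≠ b) (h : π a = b) : Zs π N = Zs (π * swap b a)
      (Function.update (Function.update N b (E00 m R)) a (N b * N a)) := by
  have hb : π b ≠ b := fun hb => hab (π.injective (h.trans hb.symm))
  unfold Zs
  rw [sum_split b]
  refine Finset.sum_congr rfl fun ψ _ => ?_
  have hmem : b ∈ (univ : Finset B).erase a := Finset.mem_erase.2 ⟨hab.symm, mem_univ _⟩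
  have e1 : (π * swap b a) a = π b := by rw [Perm.mul_apply, swap_apply_right]
  have e2 : (π * swap b a) b = b := by rw [Perm.mul_apply, swap_apply_left, h]
  rw [← Finset.mul_prod_erase univ _ (mem_univ a), ← Finset.mul_prod_erase _ _ hmem,
    Function.update_self, Function.update_of_ne hab.symm, Function.update_self, e1, e2, E00_apply]
  have h2 : ∏ r ∈ (univ.erase a).erase b, Function.update (Function.update N b (E00 m R)) a
      (N b * N a) r (ψ ((π * swap b a) r)) (ψ r) =
      ∏ r ∈ (univ.erase a).erase b, N r (ψ (π r)) (ψ r) := by
    refine Finset.prod_congr rfl fun r hr => ?_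
    rw [Finset.mem_erase, Finset.mem_erase] at hr
    rw [Function.update_of_ne hr.2.1, Function.update_of_ne hr.1, Perm.mul_apply,
      swap_apply_of_ne_of_ne hr.1 hr.2.1]
  rw [h2]
  by_cases hψ : ψ b = 0
  · rw [if_pos hψ, if_pos hψ, one_mul]
    have h3 : ∀ v, ∏ r, N r (Function.update ψ b v (π r)) (Function.update ψ b v r) =
        N b (ψ (π b)) v * N a v (ψ a) * ∏ r ∈ (univ.erase a).erase b, N r (ψ (π r)) (ψ r) := by
      intro v
      rw [← Finset.mul_prod_erase univ _ (mem_univ a), ← Finset.mul_prod_erase _ _ hmem, h,
        Function.update_self, Function.update_of_ne hab, Function.update_of_ne hb, ← mul_assoc,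
        mul_comm (N a v (ψ a))]
      congr 1
      refine Finset.prod_congr rfl fun r hr => ?_
      rw [Finset.mem_erase, Finset.mem_erase] at hr
      rw [Function.update_of_ne hr.1, Function.update_of_ne]
      intro h4
      exact hr.2.1 (π.injective (h4.trans h.symm))
    rw [Finset.sum_congr rfl fun v _ => h3 v, ← Finset.sum_mul, Matrix.mul_apply]
  · rw [if_neg hψ, if_neg hψ, zero_mul, mul_zero]

theorem prod_formPerm_fix (ls : List (List B)) (s : B) (hs : s ∉ ls.flatten) :
    ((ls.map List.formPerm).prod) s = s := by
  induction ls with
  | nil => rfl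
  | cons l ls ih =>
    rw [List.flatten_cons, List.mem_append, not_or] at hs
    rw [List.map_cons, List.prod_cons, Perm.mul_apply, ih hs.2,
      List.formPerm_apply_of_notMem hs.1]

theorem Zs_eq (ls : List (List B)) : ∀ (N : B → Matrix (Fin (m + 1)) (Fin (m + 1)) R),
    ls.flatten.Nodup → (∀ l ∈ ls, l ≠ []) → (∀ s, s ∉ ls.flatten → N s = E00 m R) →
    Zs ((ls.map List.formPerm).prod)⁻¹ N = (ls.map fun l => ((l.map N).prod).trace).prod := by
  induction ls with
  | nil =>
    intro N _ _ hN
    rw [List.map_nil, List.prod_nil, List.map_nil, List.prod_nil, inv_one]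
    unfold Zs
    rw [Finset.sum_eq_single (fun _ => 0)]
    · refine Finset.prod_eq_one fun s _ => ?_
      rw [hN s (by simp), Perm.one_apply, E00_apply, if_pos rfl]
    · intro ψ _ hψ
      obtain ⟨s, hs⟩ := Function.ne_iff.1 hψ
      refine Finset.prod_eq_zero (mem_univ s) ?_
      rw [hN s (by simp), Perm.one_apply, E00_apply, if_neg hs]
    · intro h
      exact absurd (mem_univ _) h
  | cons l ls ih =>
    induction l with
    | nil => intro N _ hne _; exact absurd rfl (hne [] List.mem_cons_self)
    | cons b l ihl =>
      intro N hnd hne hN
      cases l with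
      | nil =>
        have hnd' : b ∉ ls.flatten ∧ ls.flatten.Nodup := by
          rw [List.flatten_cons, List.singleton_append, List.nodup_cons] at hnd
          exact hnd
        have hfix : ((([b] :: ls).map List.formPerm).prod)⁻¹ b = b := by
          rw [Perm.inv_eq_iff_eq, List.map_cons, List.prod_cons, Perm.mul_apply,
            prod_formPerm_fix ls b hnd'.1, List.formPerm_singleton]
          rfl
        rw [Zs_single _ N b hfix]
        have h1 : (([b] :: ls).map List.formPerm).prod = (ls.map List.formPerm).prod := by
          rw [List.map_cons, List.prod_cons, List.formPerm_singleton, one_mul]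
        rw [h1, ih _ hnd'.2 (fun l hl => hne l (List.mem_cons_of_mem _ hl)), List.map_cons,
          List.prod_cons, List.map_singleton, List.prod_singleton]
        · congr 1
          refine congrArg List.prod (List.map_congr_left fun l hl => ?_)
          refine congrArg (fun L : List (Matrix (Fin (m + 1)) (Fin (m + 1)) R) => L.prod.trace) (List.map_congr_left fun s hs => ?_)
          rw [Function.update_of_ne]
          rintro rfl
          exact hnd'.1 (List.mem_flatten.2 ⟨l, hl, hs⟩)
        · intro s hs
          by_cases hsb : s = b
          · rw [hsb, Function.update_self]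
          · rw [Function.update_of_ne hsb]
            refine hN s ?_
            rw [List.flatten_cons, List.singleton_append, List.mem_cons, not_or]
            exact ⟨hsb, hs⟩
      | cons a l =>
        have hnd1 : b ∉ (a :: l) ++ ls.flatten ∧ ((a :: l) ++ ls.flatten).Nodup := by
          rw [List.flatten_cons, List.cons_append, List.nodup_cons] at hnd
          exact hnd
        have hba : b ≠ a := fun h => hnd1.1 (h ▸ List.mem_cons_self)
        have h1 : (((b :: a :: l) :: ls).map List.formPerm).prod =
            swap b a * (((a :: l) :: ls).map List.formPerm).prod := by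
          rw [List.map_cons, List.prod_cons, List.formPerm_cons_cons, List.map_cons,
            List.prod_cons, mul_assoc]
        have h2 : (((a :: l) :: ls).map List.formPerm).prod b = b := by
          refine prod_formPerm_fix _ b ?_
          rw [List.flatten_cons]
          exact hnd1.1
        have hπ : ((((b :: a :: l) :: ls).map List.formPerm).prod)⁻¹ a = b := by
          rw [Perm.inv_eq_iff_eq, h1, Perm.mul_apply, h2, swap_apply_left]
        rw [Zs_merge _ N a b hba.symm hπ]
        have h3 : ((((b :: a :: l) :: ls).map List.formPerm).prod)⁻¹ * swap b a =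
            ((((a :: l) :: ls).map List.formPerm).prod)⁻¹ := by
          rw [h1, _root_.mul_inv_rev, swap_inv, mul_assoc, Equiv.swap_mul_self, mul_one]
        rw [h3, ihl _ (by rw [List.flatten_cons]; exact hnd1.2)]
        · rw [List.map_cons, List.prod_cons, List.map_cons, List.prod_cons]
          have hl : ∀ s ∈ l, Function.update (Function.update N b (E00 m R)) a (N b * N a) s =
              N s := by
            intro s hs
            have h4 : s ≠ a := by
              rintro rfl
              exact (List.nodup_cons.1 (List.nodup_append.1 hnd1.2).1).1 hs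
            have h5 : s ≠ b := by
              rintro rfl
              exact hnd1.1 (List.mem_append_left _ (List.mem_cons_of_mem _ hs))
            rw [Function.update_of_ne h4, Function.update_of_ne h5]
          congr 1
          · rw [Function.update_self, List.map_congr_left hl]
            change _ = (((b :: a :: l).map N).prod).trace
            rw [List.map_cons, List.prod_cons, List.map_cons, List.prod_cons, mul_assoc]
          · refine congrArg List.prod (List.map_congr_left fun l' hl' => ?_)
            refine congrArg (fun L : List (Matrix (Fin (m + 1)) (Fin (m + 1)) R) => L.prod.trace) (List.map_congr_left fun s hs => ?_)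
            have hs' : s ∈ ls.flatten := List.mem_flatten.2 ⟨l', hl', hs⟩
            have h4 : s ≠ a := by
              rintro rfl
              exact (List.nodup_append.1 hnd1.2).2.2 s List.mem_cons_self s hs' rfl
            have h5 : s ≠ b := by
              rintro rfl
              exact hnd1.1 (List.mem_append_right _ hs')
            rw [Function.update_of_ne h4, Function.update_of_ne h5]
        · intro l' hl'
          rcases List.mem_cons.1 hl' with rfl | hl'
          · exact List.cons_ne_nil _ _
          · exact hne l' (List.mem_cons_of_mem _ hl')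
        · intro s hs
          rw [List.flatten_cons, List.mem_append, not_or] at hs
          have h4 : s ≠ a := by
            rintro rfl
            exact hs.1 List.mem_cons_self
          rw [Function.update_of_ne h4]
          by_cases h5 : s = b
          · rw [h5, Function.update_self]
          · rw [Function.update_of_ne h5]
            refine hN s ?_
            rw [List.flatten_cons, List.mem_append, not_or, List.mem_cons, not_or]
            exact ⟨⟨h5, hs.1⟩, hs.2⟩

end zs

end Pool.PI34.EV
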