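import Pool.Agent.LibPI34.S2_Nat

/-!
PI34, block S2, file 3: the relations of the words kill `ω`.
-/

set_option autoImplicit false
set_option linter.unusedSectionVars false

namespace Pool.PI34.SS

open Equiv Finset
open Pool.PI34.BA

theorem map_evP {T M M' : Type} [Fintype T] [DecidableEq T] [AddCommGroup M] [AddCommGroup M']
    (ψ : M →+ M') (φ : Perm T → M) (x : H4.P T) : ψ (evP φ x) = evP (fun t => ψ (φ t)) x := by
  change ψ (∑ t, x.coeff t • φ t) = ∑ t, x.coeff t • ψ (φ t)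
  rw [map_sum]
  exact Finset.sum_congr rfl (fun t _ => map_zsmul ψ _ _)

theorem evP_congr {T M : Type} [Fintype T] [DecidableEq T] [AddCommGroup M]
    {φ φ' : Perm T → M} (h : ∀ t, φ t = φ' t) (x : H4.P T) : evP φ x = evP φ' x := by
  rw [show φ = φ' from funext h]

/-- The product of the generators in a permuted order. -/
theorem ge_prod_perm {b : ℕ} (σ : Perm (Fin b)) :
    (List.ofFn (fun i => ge (σ i))).prod =
      ((Perm.sign σ : ℤˣ) : ℤ) • (List.ofFn (fun i : Fin b => ge i)).prod := by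
  have h := (ExteriorAlgebra.ιMulti ℤ b (M := Fin b → ℤ)).map_perm
    (fun i => (Pi.single i 1 : Fin b → ℤ)) σ
  rw [ExteriorAlgebra.ιMulti_apply, ExteriorAlgebra.ιMulti_apply] at h
  exact h

theorem phL_prod {b : ℕ} (L : List (Fin b)) (hL : L.Nodup) :
    phL L ((L.map (fun s => (ge s : Lam b))).prod) ≠ 0 := by
  induction L with
  | nil => rw [List.map_nil, List.prod_nil, phL_one, if_pos rfl]; exact one_ne_zero
  | cons s L ih =>
    obtain ⟨ε, hε, h⟩ := phL_mul s (s :: L) hL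
    rw [List.map_cons, List.prod_cons, h, if_pos List.mem_cons_self, List.erase_cons_head]
    exact mul_ne_zero (fun h0 => by rw [h0] at hε; simp at hε) (ih (List.nodup_cons.1 hL).2)

theorem phL_top (b : ℕ) : ∃ ε : ℤ, ε * ε = 1 ∧
    phL (List.finRange b) ((List.ofFn (fun i : Fin b => (ge i : Lam b))).prod) = ε := by
  have key : ∀ (L : List (Fin b)), L.Nodup → ∃ ε : ℤ, ε * ε = 1 ∧
      phL L ((L.map (fun s => (ge s : Lam b))).prod) = ε := by
    intro L
    induction L with
    | nil => intro _; exact ⟨1, one_mul 1, by rw [List.map_nil, List.prod_nil, phL_one, if_pos rfl]⟩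
    | cons s L ih =>
      intro hL
      obtain ⟨ε, hε, h⟩ := phL_mul s (s :: L) hL
      obtain ⟨δ, hδ, h'⟩ := ih (List.nodup_cons.1 hL).2
      refine ⟨ε * δ, by rw [mul_mul_mul_comm, hε, hδ, one_mul], ?_⟩
      rw [List.map_cons, List.prod_cons, h, if_pos List.mem_cons_self, List.erase_cons_head, h']
  obtain ⟨ε, hε, h⟩ := key (List.finRange b) (List.nodup_finRange b)
  refine ⟨ε, hε, ?_⟩
  rw [← h, List.ofFn_eq_map]

section kap

variable {ι Φ U : Type} [Fintype ι] [DecidableEq ι] [Ring Φ] [Ring U] {z : ι}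
variable (S : SupStr ι Φ U z) {b : ℕ} {Y : Type} [DecidableEq Y]

theorem par_elim (u : Y → Φ) (v : Fin b → Φ) (hu : ∀ y, u y ∈ S.ev) (hv : ∀ s, v s ∈ S.od) :
    Par S (Sum.elim u v) (lab Y b) := by
  rintro (y | s)
  · exact ⟨fun _ => hu y, fun s hs => by simp [lab] at hs⟩
  · exact ⟨fun h => by simp [lab] at h, fun t _ => hv s⟩

/-- R0 for arbitrary odd letters. -/
theorem R0' (E : Y → Prop) (c : Fin b → Y) (k : ℕ) (hA : Anti S.f k) (p q : Fin k ↪ ι)
    (hF : Frame p q z) (u : Y → Φ) (v : Fin b → Φ) (hu : ∀ y, u y ∈ S.ev) (hv : ∀ s, v s ∈ S.od)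
    (P : FA Y) (hP : GI k E P) (φ φ' : Lam b →ₗ[ℤ] ℤ) :
    GT.coef U φ' (GT.coef (GT U b) φ (FA.lift (gsub E c
      (S.gx (Sum.elim u v) (lab Y b) z)) P)) *
      (anti S.f (univ.map p) * anti S.f (univ.map q)) = 0 := by
  have h4 := S.ba (Sum.elim u v) (lab Y b) (par_elim S u v hu hv) k hA p q hF (hst E c φ P)
    (fun C _ m => hst_mat E c k P hP φ C m)
  rw [lift_hst] at h4
  rw [← GT.coef_mul_one, h4, map_zero]

/-- The words which kill the `k k` letters give relations. -/
theorem kap (k : ℕ) (hA : Anti S.f k) (p q : Fin k ↪ ι) (hF : Frame p q z)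
    (u : Y → Φ) (v : Fin b → Φ) (hu : ∀ y, u y ∈ S.ev) (hv : ∀ s, v s ∈ S.od)
    (P : FA Y) (d : Fin b → Y) (σ : Perm (Fin b)) (x : H4.P (Fin b))
    (hx : H4.act (k * k) (Fin b) x = 0) :
    evP (fun t : Perm (Fin b) => ((Perm.sign t : ℤˣ) : ℤ) •
      (GG (fun y => S.ρ z (u y)) P (List.ofFn (fun i => (d i, S.ρ z (v (t (σ i)))))) *
        (anti S.f (univ.map p) * anti S.f (univ.map q)))) x = 0 := by
  set om := anti S.f (univ.map p) * anti S.f (univ.map q) with hom
  let h : FA (Y ⊕ Fin b) := evP (fun t : Perm (Fin b) => GG (fun y => FA.of (Sum.inl y)) P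
    (List.ofFn (fun i => (d i, FA.of (Sum.inr (t (σ i))))))) x
  have hlift : ∀ {A : Type} [Ring A] (m : Y ⊕ Fin b → A), FA.lift m h =
      evP (fun t : Perm (Fin b) => GG (fun y => m (Sum.inl y)) P
        (List.ofFn (fun i => (d i, m (Sum.inr (t (σ i))))))) x := by
    intro A _ m
    have e1 := map_evP (FA.lift m).toAddMonoidHom
      (fun t : Perm (Fin b) => GG (fun y => FA.of (Sum.inl y)) P
        (List.ofFn (fun i => (d i, FA.of (Sum.inr (t (σ i))))))) x
    change FA.lift m h = _ at e1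
    rw [e1]
    refine evP_congr (fun t => ?_) x
    change FA.lift m (GG _ P _) = _
    rw [← GG_natural, List.map_ofFn]
    congr 1
    · funext y
      rw [FA.lift_of]
    · congr 1
      funext i
      simp
  have hid : ∀ (C : Type) [CommRing C] (m : Y ⊕ Fin b → Matrix (Fin k) (Fin k) C),
      FA.lift m h = 0 := by
    intro C _ m
    rw [hlift]
    exact evP_multilinear hx ((Matrix.stdBasis C (Fin k) (Fin k)).reindex finProdFinEquiv)
      ((GM C (fun y => m (Sum.inl y)) P d).domDomCongr σ) (fun s => m (Sum.inr s))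
  have h4 := S.ba (Sum.elim u v) (lab Y b) (par_elim S u v hu hv) k hA p q hF h hid
  rw [hlift] at h4
  obtain ⟨ε, hε, hphi⟩ := phL_top b
  have h5 : ∀ t : Perm (Fin b), GG (fun y => S.gx (Sum.elim u v) (lab Y b) z (Sum.inl y)) P
      (List.ofFn (fun i => (d i, S.gx (Sum.elim u v) (lab Y b) z (Sum.inr (t (σ i)))))) =
      ((Perm.sign (t * σ) : ℤˣ) : ℤ) • GT.mk (GG (fun y => S.ρ z (u y)) P
        (List.ofFn (fun i => (d i, S.ρ z (v (t (σ i)))))))
        ((List.ofFn (fun i : Fin b => (ge i : Lam b))).prod) := by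
    intro t
    have e1 := GG_ext (b := b) (fun y => S.ρ z (u y)) P
      (List.ofFn (fun i => (d i, S.ρ z (v (t (σ i))), (ge (t (σ i)) : Lam b))))
    rw [List.map_ofFn, List.map_ofFn, List.map_ofFn] at e1
    have e2 : (fun y => S.gx (Sum.elim u v) (lab Y b) z (Sum.inl y)) =
        fun y => GT.mk (S.ρ z (u y)) (1 : Lam b) := rfl
    have e3 : (fun i => (d i, S.gx (Sum.elim u v) (lab Y b) z (Sum.inr (t (σ i))))) =
        ((fun q : Y × U × Lam b => (q.1, GT.mk q.2.1 q.2.2)) ∘
          fun i => (d i, S.ρ z (v (t (σ i))), (ge (t (σ i)) : Lam b))) := by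
      funext i
      change (d i, GT.mk (S.τ z (v (t (σ i)))) (ge (t (σ i)))) =
        (d i, GT.mk (S.ρ z (v (t (σ i)))) (ge (t (σ i))))
      rw [S.τ_z _ (hv _)]
    rw [e2, e3, e1]
    have e4 : (List.ofFn ((fun q : Y × U × Lam b => q.2.2) ∘
        fun i => (d i, S.ρ z (v (t (σ i))), (ge (t (σ i)) : Lam b)))).prod =
        ((Perm.sign (t * σ) : ℤˣ) : ℤ) • (List.ofFn (fun i : Fin b => (ge i : Lam b))).prod :=
      ge_prod_perm (t * σ)
    rw [e4]
    have e5 : ∀ (n : ℤ) (a : U) (ω : Lam b), GT.mk a (n • ω) = n • GT.mk a ω := by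
      intro n a ω
      let f : Lam b →+ GT U b :=
        { toFun := fun ω => GT.mk a ω
          map_zero' := TensorProduct.tmul_zero _ _
          map_add' := fun x y => TensorProduct.tmul_add _ _ _ }
      exact map_zsmul f n ω
    rw [e5]
    rfl
  rw [evP_congr h5] at h4
  -- take the top coefficient
  have e6 := congrArg (GT.coef U (phL (List.finRange b))) h4
  rw [GT.coef_mul_one, map_zero] at e6
  have e7 := map_evP (GT.coef U (phL (List.finRange b)))
    (fun t : Perm (Fin b) => ((Perm.sign (t * σ) : ℤˣ) : ℤ) •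
      GT.mk (GG (fun y => S.ρ z (u y)) P
        (List.ofFn (fun i => (d i, S.ρ z (v (t (σ i)))))))
        ((List.ofFn (fun i : Fin b => (ge i : Lam b))).prod)) x
  rw [e7] at e6
  have e8 := map_evP (AddMonoidHom.mulRight om)
    (fun t : Perm (Fin b) => GT.coef U (phL (List.finRange b)) (((Perm.sign (t * σ) : ℤˣ) : ℤ) •
      GT.mk (GG (fun y => S.ρ z (u y)) P
        (List.ofFn (fun i => (d i, S.ρ z (v (t (σ i)))))))
        ((List.ofFn (fun i : Fin b => (ge i : Lam b))).prod))) x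
  rw [AddMonoidHom.mulRight_apply, e6] at e8
  have e9 := map_evP (zsmulAddGroupHom (((Perm.sign σ : ℤˣ) : ℤ) * ε))
    (fun t : Perm (Fin b) => AddMonoidHom.mulRight om
      (GT.coef U (phL (List.finRange b)) (((Perm.sign (t * σ) : ℤˣ) : ℤ) •
      GT.mk (GG (fun y => S.ρ z (u y)) P
        (List.ofFn (fun i => (d i, S.ρ z (v (t (σ i)))))))
        ((List.ofFn (fun i : Fin b => (ge i : Lam b))).prod)))) x
  rw [← e8, map_zero] at e9
  rw [e9]
  refine evP_congr (fun t => ?_) x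
  rw [AddMonoidHom.mulRight_apply, map_zsmul, GT.coef_mk, hphi]
  change _ = (((Perm.sign σ : ℤˣ) : ℤ) * ε) • (_ : U)
  rw [smul_mul_assoc, smul_mul_assoc, smul_smul, smul_smul]
  congr 1
  rw [Perm.sign_mul, Units.val_mul]
  have h1 := H4.sign_sq σ
  calc ((Perm.sign t : ℤˣ) : ℤ) = ((Perm.sign t : ℤˣ) : ℤ) *
        (((Perm.sign σ : ℤˣ) : ℤ) * ((Perm.sign σ : ℤˣ) : ℤ)) * (ε * ε) := by
        rw [h1, hε, mul_one, mul_one]
    _ = _ := by ring

end kap

end Pool.PI34.SS
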