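import Pool.Agent.LibPI34.EV_Gen
import Pool.Agent.LibPI34.EV_Zs
import Pool.Agent.LibPI34.EV_Data
import Pool.Agent.LibPI34.EV_Def2
import Pool.Agent.LibPI34.S2_Kap
import Pool.Agent.LibPI34.A5_Fin

/-!
PI34, block EV (even input of (S_ex)), file Kill: the coloured relations hold for the values of words and loops
in every string system.
-/

set_option autoImplicit false
set_option linter.unusedSectionVars false

namespace Pool.PI34.EV

open Equiv Finset Matrix
open Pool.PI34.BA Pool.PI34.H4 Pool.PI34.SS

/-! ### change of the labels -/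

section relabel

variable {A A' : Type} (e : A → A')

/-- change of the labels of a loop -/
def mpL (u : LD A) : LD A' := (e u.1, u.2.1.map e, u.2.2)

theorem wd_mpL {Φ : Type} [Ring Φ] (x : A' → Φ) (u : LD A) :
    wd x (mpL e u) = wd (fun a => x (e a)) u := by
  change (((u.1 :: u.2.1).map e).map x).prod = ((u.1 :: u.2.1).map fun a => x (e a)).prod
  rw [List.map_map]
  rfl

theorem RR_mpL {ι Φ E : Type} [Fintype ι] [DecidableEq ι] [Ring Φ] [Ring E] (S : Str ι Φ E)
    {k : ℕ} (p : Fin k ↪ ι) (x : A' → Φ) (us : List (LD A)) :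
    ∀ W : E, RR S p x (us.map (mpL e)) W = RR S p (fun a => x (e a)) us W := by
  induction us with
  | nil => intro W; rfl
  | cons u us ih =>
    intro W
    change RR S p x (us.map (mpL e)) (Tr S p (wd x (mpL e u)) * W) =
      RR S p (fun a => x (e a)) us (Tr S p (wd (fun a => x (e a)) u) * W)
    rw [ih, wd_mpL]

theorem val_mpL {ι Φ E : Type} [Fintype ι] [DecidableEq ι] [Ring Φ] [Ring E] (S : Str ι Φ E)
    {k : ℕ} (p q : Fin k ↪ ι) (z : ι) (x : A' → Φ) (w : List A) (us : List (LD A)) :
    val S p q z x (w.map e) (us.map (mpL e)) = val S p q z (fun a => x (e a)) w us := by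
  unfold val
  rw [RR_mpL, List.map_map]
  rfl

theorem pl_mpL (us : List (LD A)) : pl (us.map (mpL e)) = (pl us).map e := by
  unfold pl
  rw [List.map_map, List.map_flatten, List.map_map]
  rfl

theorem idx_mpL (us : List (LD A)) : idx (us.map (mpL e)) = idx us := by
  unfold idx
  rw [List.map_map]
  rfl

theorem len_mpL (us : List (LD A)) : len (us.map (mpL e)) = len us := by
  unfold len
  rw [List.map_map]
  congr 1
  refine List.map_congr_left fun u _ => ?_
  change (u.2.1.map e).length + 1 = u.2.1.length + 1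
  rw [List.length_map]

theorem len_eq (us : List (LD A)) : len us = (pl us).length := by
  unfold len pl
  rw [List.length_flatten, List.map_map]
  rfl

end relabel

/-! ### the trace formula -/

section traces

variable {A : Type} [Fintype A] [DecidableEq A] {m : ℕ} {R : Type} [CommRing R]

/-- the matrices of the labels; the open strand gets the matrix unit `e_{ji}` -/
def NN (i j : Fin (m + 1)) (M : A → Matrix (Fin (m + 1)) (Fin (m + 1)) R) :
    Option A → Matrix (Fin (m + 1)) (Fin (m + 1)) R
  | none => Matrix.single j i 1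
  | some a => M a

theorem trace_single_mul' (i j : Fin (m + 1)) (X : Matrix (Fin (m + 1)) (Fin (m + 1)) R) :
    (Matrix.single j i 1 * X).trace = X i j := by
  unfold Matrix.trace
  rw [Finset.sum_eq_single j]
  · rw [Matrix.diag_apply, Matrix.mul_apply, Finset.sum_eq_single i]
    · rw [Matrix.single_apply, if_pos ⟨rfl, rfl⟩, one_mul]
    · intro b _ hb
      rw [Matrix.single_apply, if_neg (fun h => hb h.2.symm), zero_mul]
    · intro h
      exact absurd (mem_univ _) h
  · intro b _ hb
    rw [Matrix.diag_apply, Matrix.mul_apply]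
    refine Finset.sum_eq_zero fun c _ => ?_
    rw [Matrix.single_apply, if_neg (fun h => hb h.1.symm), zero_mul]
  · intro h
    exact absurd (mem_univ _) h

theorem trace_formula (M : A → Matrix (Fin (m + 1)) (Fin (m + 1)) R) (w : List A)
    (us : List (LD A)) (hnd : (w ++ pl us).Nodup) (hall : ∀ a, a ∈ w ++ pl us)
    (i j : Fin (m + 1)) :
    (us.map fun u => (wd M u).trace).prod * (w.map M).prod i j =
      Zs (dperm w us) (NN i j M) := by
  have hfl : ((none :: w.map some) :: us.map fun u => (u.1 :: u.2.1).map some).flatten =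
      none :: (w ++ pl us).map some := by
    unfold pl
    rw [List.flatten_cons, List.cons_append, List.map_append, List.map_flatten, List.map_map]
    rfl
  have h := Zs_eq (R := R) (m := m)
    ((none :: w.map some) :: us.map fun u => (u.1 :: u.2.1).map some) (NN i j M) (by
      rw [hfl, List.nodup_cons]
      exact ⟨by simp, hnd.map (Option.some_injective A)⟩) (by
      intro l hl
      rcases List.mem_cons.1 hl with rfl | hl
      · exact List.cons_ne_nil _ _
      · obtain ⟨u, _, rfl⟩ := List.mem_map.1 hl
        rw [List.map_cons]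
        exact List.cons_ne_nil _ _) (by
      intro s hs
      exfalso
      apply hs
      rw [hfl]
      cases s with
      | none => exact List.mem_cons_self
      | some a => exact List.mem_cons_of_mem _ (List.mem_map_of_mem (hall a)))
  have hd : dperm w us = ((((none :: w.map some) :: us.map fun u => (u.1 :: u.2.1).map some).map
      List.formPerm).prod)⁻¹ := by
    unfold dperm
    rw [List.map_cons, List.prod_cons, List.map_map]
    rfl
  rw [hd, h, List.map_cons, List.prod_cons, List.map_cons, List.prod_cons]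
  have h1 : NN i j M none = Matrix.single j i 1 := rfl
  rw [h1, trace_single_mul', mul_comm, List.map_map, List.map_map]
  have h2 : w.map (NN i j M ∘ some) = w.map M := List.map_congr_left fun _ _ => rfl
  rw [h2]
  congr 2
  refine List.map_congr_left fun u _ => ?_
  change (wd M u).trace = (((u.1 :: u.2.1).map some).map (NN i j M)).prod.trace
  rw [List.map_map]
  rfl

end traces

/-! ### the relations for the generic matrices -/

section rel

variable {T : Type} [Fintype T] [DecidableEq T] {m : ℕ} {R : Type} [CommRing R]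

theorem Zs_kill (N : T → Matrix (Fin (m + 1)) (Fin (m + 1)) R) (y : P T)
    (hy : act (m + 1) T y = 0) : evP (fun π => Zs π N) y = 0 := by
  have h1 : ∀ ψ : T → Fin (m + 1), evP (fun π : Perm T => ∏ s, N s (ψ (π s)) (ψ s)) y = 0 :=
    fun ψ => evP_kill hy (fun ψ1 : T → Fin (m + 1) => ∏ s, N s (ψ1 s) (ψ s)) ψ
  have h2 : evP (fun π => Zs π N) y = ∑ ψ : T → Fin (m + 1),
      evP (fun π : Perm T => ∏ s, N s (ψ (π s)) (ψ s)) y := by
    change ∑ t, y.coeff t • Zs t N = ∑ ψ : T → Fin (m + 1),
      ∑ t : Perm T, y.coeff t • ∏ s, N s (ψ (t s)) (ψ s)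
    rw [Finset.sum_comm]
    refine Finset.sum_congr rfl fun t _ => ?_
    unfold Zs
    rw [Finset.smul_sum]
  rw [h2]
  exact Finset.sum_eq_zero fun ψ _ => h1 ψ

theorem Zs_conj (N : T → Matrix (Fin (m + 1)) (Fin (m + 1)) R) (h σ : Perm T)
    (hN : ∀ s, N (h s) = N s) : Zs (h * σ * h⁻¹) N = Zs σ N := by
  unfold Zs
  refine Fintype.sum_equiv (h.symm.arrowCongr (Equiv.refl (Fin (m + 1)))) _ _ fun ψ => ?_
  refine (Equiv.prod_comp h fun s => N s (ψ ((h * σ * h⁻¹) s)) (ψ s)).symm.trans ?_
  refine Finset.prod_congr rfl fun s _ => ?_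
  have h1 : (h * σ * h⁻¹) (h s) = h (σ s) := by
    rw [Perm.mul_apply, Perm.mul_apply]
    exact congrArg (fun t => h (σ t)) (h.symm_apply_apply s)
  rw [h1, hN]
  rfl

theorem Zs_colour (N : T → Matrix (Fin (m + 1)) (Fin (m + 1)) R) (S : Finset (Perm T))
    (hN : ∀ h ∈ S, ∀ s, N (h s) = N s) (y : P T)
    (hy : act (m + 1) T (∑ h ∈ S, g h * y * g h⁻¹) = 0) :
    S.card • evP (fun π => Zs π N) y = 0 := by
  have h1 := Zs_kill N _ hy
  rw [map_sum] at h1
  have h2 : ∀ h ∈ S, evP (fun π => Zs π N) (g h * y * g h⁻¹) = evP (fun π => Zs π N) y := by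
    intro h hh
    refine P_induction (p := fun y => evP (fun π => Zs π N) (g h * y * g h⁻¹) =
      evP (fun π => Zs π N) y) y ?_ ?_ ?_
    · intro σ
      rw [← g_mul, ← g_mul, evP_g, evP_g, Zs_conj N h σ (hN h hh)]
    · intro a b ha hb
      rw [mul_add, add_mul, map_add, ha, hb, map_add]
    · intro n a ha
      rw [mul_smul_comm, smul_mul_assoc, map_zsmul, ha, map_zsmul]
  rw [Finset.sum_congr rfl h2, Finset.sum_const] at h1
  exact h1

end rel

end Pool.PI34.EV
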