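import Pool.Agent.LibPI34.EV_Walk
import Pool.Agent.LibPI34.BA_D6
import Pool.Agent.LibPI34.BA_G1

/-!
PI34, block EV (even input of (S_ex)), file Loop: `P(B)` for a matrix which consists of a path and loops.
-/

set_option autoImplicit false
set_option linter.unusedSectionVars false

namespace Pool.PI34.EV

open Equiv Finset Matrix
open Pool.PI34.BA
open scoped TensorProduct

section dt

variable {A Λ : Type*} [Fintype A] [DecidableEq A] [Ring Λ] {M : Type*} [CommMonoid M]

theorem dt_indep (π : Λ →* M) (hπ : ∀ x y, π (1 + x * y) = π (1 + y * x)) (t : Λ)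
    (ht : ∀ x, t * x = x * t) (hn : IsNilpotent t) (N : Matrix A A Λ) (l l' : List A)
    (hl : l.Nodup) (hc : ∀ a, a ∈ l) (hl' : l'.Nodup) (hc' : ∀ a, a ∈ l') :
    π (dt t N l) = π (dt t N l') := by
  have e1 := dt_eq_dtDec π hπ t ht hn (fun a => Pi.single a (1 : Λ)) (fun a => N a) l' l hl hc
  have e2 := dt_eq_dtDec π hπ t ht hn (fun a => Pi.single a (1 : Λ)) (fun a => N a) l' l' hl' hc'
  rw [C3_decomp N l' hl' hc'] at e1 e2
  rw [e1, e2]

/-- a loop with a weight: the first place, the other places, the weight -/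
abbrev Lp (A Λ : Type*) : Type _ := A × List A × Λ

/-- the value of the closing determinant -/
def Fl (t : Λ) (x : A → Λ) : List (Lp A Λ) → Λ
  | [] => 1
  | u :: us => Fl t x us * (1 - (-t) ^ (u.2.1.length + 1) * (u.2.2 * ((u.1 :: u.2.1).map x).prod))

/-- the list of the places of the loops, in the order of the closing determinant -/
def places : List (Lp A Λ) → List A
  | [] => []
  | u :: us => (u.1 :: u.2.1).reverse ++ places us

/-- the matrix `N` follows the loop -/
def IsLoop (N : Matrix A A Λ) (x : A → Λ) (u : Lp A Λ) : Prop :=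
  Follows N x (u.1 :: u.2.1) ∧
    N ((u.1 :: u.2.1).getLast (by simp)) = Pi.single u.1 (u.2.2 * x u.1)

theorem dt_loops (t : Λ) (ht : ∀ y, t * y = y * t) (hn : IsNilpotent t) (N : Matrix A A Λ)
    (x : A → Λ) (us : List (Lp A Λ)) (hus : ∀ u ∈ us, IsLoop N x u) (l : List A)
    (hnd : (places us ++ l).Nodup) : dt t N (places us ++ l) = dt t N l * Fl t x us := by
  induction us with
  | nil =>
    change dt t N l = dt t N l * 1
    rw [mul_one]
  | cons u us ih =>
    have h1 : places (u :: us) ++ l = (u.1 :: u.2.1).reverse ++ (places us ++ l) :=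
      List.append_assoc _ _ _
    rw [h1] at hnd ⊢
    have h2 := hus u List.mem_cons_self
    have h3 : ((u.1 :: u.2.1) ++ (places us ++ l)).Nodup := by
      rw [List.nodup_append] at hnd ⊢
      exact ⟨List.nodup_reverse.1 hnd.1, hnd.2.1, fun a ha b hb => hnd.2.2 a
        (List.mem_reverse.2 ha) b hb⟩
    rw [dt_loop t ht hn N x u.1 u.2.1 u.2.2 h2.1 h2.2 _ h3,
      ih (fun v hv => hus v (List.mem_cons_of_mem _ hv)) (List.nodup_append.1 hnd).2.1, mul_assoc]
    rfl

theorem dt_zero_rows (t : Λ) (N : Matrix A A Λ) (l : List A) (h : ∀ a ∈ l, N a = 0) :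
    dt t N l = 1 := by
  induction l with
  | nil => rfl
  | cons a l ih =>
    rw [factor_zero t N a l (h a List.mem_cons_self)]
    exact ih fun b hb => h b (List.mem_cons_of_mem _ hb)

/-- `N` follows the path and its last row is zero -/
def IsPath (N : Matrix A A Λ) (x : A → Λ) (v : List A) : Prop :=
  Follows N x v ∧ ∀ a ∈ v.getLast?, N a = 0

theorem dt_path' (t : Λ) (ht : ∀ y, t * y = y * t) (hn : IsNilpotent t) (N : Matrix A A Λ)
    (x : A → Λ) (v : List A) (hv : IsPath N x v) (l : List A) (hl : ∀ a ∈ l, N a = 0)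
    (hnd : (v ++ l).Nodup) : dt t N (v.reverse ++ l) = 1 := by
  rcases List.eq_nil_or_concat v with rfl | ⟨w, b, rfl⟩
  · exact dt_zero_rows t N l hl
  · rw [List.concat_eq_append] at hv hnd ⊢
    obtain ⟨h1, h2⟩ := hv
    rw [List.reverse_append, List.reverse_singleton, List.singleton_append, List.cons_append,
      factor_zero t N b _ (h2 b (by simp)), dt_open t ht hn N x b w l h1 hnd]
    exact dt_zero_rows t N l hl

theorem rows_of_path (N : Matrix A A Λ) (x : A → Λ) (v : List A) (hv : IsPath N x v) :
    Rows N x v := by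
  obtain ⟨h1, h2⟩ := hv
  induction v with
  | nil => trivial
  | cons a v ih =>
    cases v with
    | nil => exact h2 a (by simp)
    | cons b v =>
      refine ⟨h1.1, ih h1.2 fun c hc => h2 c ?_⟩
      rw [List.getLast?_cons_cons]
      exact hc

/-- the open string of a path -/
theorem qq_path' (t : Λ) (ht : ∀ y, t * y = y * t) (hn : IsNilpotent t) (x : A → Λ)
    (B : Matrix (Option A) (Option A) Λ) (v : List A) (hnd : v.Nodup) (hv : IsPath (BX x B) x v)
    (h0 : B none none = if v = [] then 1 else 0)
    (h1 : ∀ a, B none (some a) = if v.head? = some a then 1 else 0)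
    (h2 : ∀ b, B (some b) none = if v.getLast? = some b then 1 else 0) :
    qq t x B = (-t) ^ v.length * (v.map x).prod := by
  rw [qq_eq, h0]
  cases v with
  | nil =>
    have h3 : (fun a => B none (some a) * x a) = 0 := by
      funext a
      rw [h1]
      simp
    rw [h3]
    simp
  | cons a v =>
    have h3 : (fun c => B none (some c) * x c) = Pi.single a (x a) := by
      funext c
      rw [h1]
      by_cases hc : c = a
      · subst hc
        simp
      · have h5 : ¬ (a = c) := fun h => hc h.symm
        simp [hc, h5]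
    have h4 : (fun b => B (some b) none) =
        (Pi.single ((a :: v).getLast (by simp)) (1 : Λ) : A → Λ) := by
      funext b
      rw [h2, List.getLast?_eq_some_getLast (by simp), Pi.single_apply]
      simp [eq_comm]
    rw [h3, h4, dotProduct_mulVec, walk_inverse t ht hn (BX x B) x a v (x a)
      (rows_of_path _ x _ hv), if_neg (by simp), zero_sub, dotProduct_single, mul_one,
      wv_last t ht x v a (x a) hnd, List.length_cons, List.map_cons, List.prod_cons, pow_succ]
    have h6 : ∀ m : ℕ, ∀ y, (-t) ^ m * y = y * (-t) ^ m := fun m y =>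
      ((show Commute (-t) y from by
        change -t * y = y * -t
        rw [neg_mul, mul_neg, ht]).pow_left m)
    rw [h6 v.length (-t), mul_assoc, neg_mul]

end dt

/-! ### `P(B)` -/

section PP

variable {A : Type} [Fintype A] [DecidableEq A]
variable {ι Φ E : Type} [Fintype ι] [DecidableEq ι] [Ring Φ] [Ring E] (S : Str ι Φ E)
variable {k : ℕ} (p q : Fin k ↪ ι) (z : ι)

theorem PP_loops (hA : Anti S.s k) (hF : Frame p q z) (t : Φ) (ht : ∀ x, t * x = x * t)
    (hn : IsNilpotent t) (x : A → Φ) (B : Matrix (Option A) (Option A) Φ)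
    (us : List (Lp A Φ)) (v : List A) (hus : ∀ u ∈ us, IsLoop (BX x B) x u)
    (hv : IsPath (BX x B) x v) (hnd : (places us ++ v).Nodup)
    (hr : ∀ a, a ∉ places us → a ∉ v → BX x B a = 0) (w : Φ) (hq : qq t x B = w) :
    S.PP p q z t x B = S.D p (fun _ => Fl t x us) * S.ρ z w * S.om p q := by
  classical
  obtain ⟨M, _, π, hπ, hπ'⟩ := exists_quotient S p q z hA hF
  set rest := (univ : Finset A).toList.filter (fun a => a ∉ places us ∧ a ∉ v) with hrest
  have hr1 : rest.Nodup := (nodup_toList _).filter _
  have hr2 : ∀ a, a ∈ rest ↔ a ∉ places us ∧ a ∉ v := by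
    intro a
    rw [hrest, List.mem_filter]
    simp
  have hnd' : (places us ++ (v.reverse ++ rest)).Nodup := by
    rw [List.nodup_append] at hnd ⊢
    refine ⟨hnd.1, ?_, ?_⟩
    · rw [List.nodup_append]
      refine ⟨List.nodup_reverse.2 hnd.2.1, hr1, ?_⟩
      intro a ha b hb hab
      subst hab
      exact ((hr2 a).1 hb).2 (List.mem_reverse.1 ha)
    · intro a ha b hb hab
      subst hab
      rw [List.mem_append] at hb
      rcases hb with hb | hb
      · exact hnd.2.2 a ha a (List.mem_reverse.1 hb) rfl
      · exact ((hr2 a).1 hb).1 ha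
  have hall : ∀ a, a ∈ places us ++ (v.reverse ++ rest) := by
    intro a
    rw [List.mem_append, List.mem_append, List.mem_reverse, hr2]
    tauto
  have h1 : π (dt t (BX x B) (univ : Finset A).toList) = π (Fl t x us) := by
    rw [dt_indep π hπ t ht hn (BX x B) _ (places us ++ (v.reverse ++ rest)) (nodup_toList _)
      (fun a => mem_toList.2 (mem_univ a)) hnd' hall,
      dt_loops t ht hn (BX x B) x us hus _ hnd', dt_path' t ht hn (BX x B) x v hv rest
        (fun a ha => hr a ((hr2 a).1 ha).1 ((hr2 a).1 ha).2) ?_, one_mul]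
    have h3 := (List.nodup_append.1 hnd').2.1
    rw [List.nodup_append] at h3 ⊢
    exact ⟨List.nodup_reverse.1 h3.1, h3.2.1, fun a ha b hb => h3.2.2 a (List.mem_reverse.2 ha) b hb⟩
  unfold Str.PP
  rw [hq, c5_move S p q z hF, c5_move S p q z hF, hπ' _ _ h1]

end PP

end Pool.PI34.EV
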