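import Pool.Agent.LibPI34.EV_Coef

/-!
PI34, block EV (even input of (S_ex)), file Mat: the matrix of a path and loops, the relation to `P_ξ`.
-/

set_option autoImplicit false
set_option linter.unusedSectionVars false

namespace Pool.PI34.EV

open Equiv Finset Matrix
open Pool.PI34.BA
open scoped TensorProduct

section edges

variable {A T : Type} [Fintype A] [DecidableEq A] [CommRing T]

/-- edges: tail, head, weight -/
abbrev Ed (A T : Type) : Type := Option A × Option A × T

/-- the matrix of a list of edges -/
def Bm (L : List (Ed A T)) : Matrix (Option A) (Option A) T :=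
  (L.map fun e => Matrix.single e.1 e.2.1 e.2.2).sum

theorem Bm_row_notMem (L : List (Ed A T)) (a : Option A) (h : a ∉ L.map Prod.fst) :
    Bm L a = 0 := by
  induction L with
  | nil => rfl
  | cons e L ih =>
    rw [List.map_cons, List.mem_cons, not_or] at h
    have h1 : Bm (e :: L) = Matrix.single e.1 e.2.1 e.2.2 + Bm L := rfl
    rw [h1]
    funext b
    have h2 := congrFun (ih h.2) b
    rw [Matrix.add_apply, h2, Matrix.single_apply, if_neg (fun h3 => h.1 h3.1.symm)]
    simp

theorem Bm_row (L : List (Ed A T)) (hnd : (L.map Prod.fst).Nodup) (e : Ed A T) (he : e ∈ L) :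
    Bm L e.1 = Pi.single e.2.1 e.2.2 := by
  induction L with
  | nil => exact absurd he (List.not_mem_nil)
  | cons f L ih =>
    have h1 : Bm (f :: L) = Matrix.single f.1 f.2.1 f.2.2 + Bm L := rfl
    rw [List.map_cons, List.nodup_cons] at hnd
    rw [h1]
    funext b
    rw [Matrix.add_apply, Matrix.single_apply]
    rcases List.mem_cons.1 he with rfl | he
    · rw [Bm_row_notMem L _ hnd.1, Pi.zero_apply, add_zero, Pi.single_apply]
      simp [eq_comm]
    · have h2 : f.1 ≠ e.1 := fun h => hnd.1 (h ▸ List.mem_map_of_mem (f := Prod.fst) he)
      rw [if_neg (fun h => h2 h.1), zero_add, ih hnd.2 he]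

/-- the arcs of a list, with the last arc `→ stop` of weight `w` -/
def arcs (stop : Option A) (w : T) : List A → List (Ed A T)
  | [] => []
  | [a] => [(some a, stop, w)]
  | a :: b :: v => (some a, some b, 1) :: arcs stop w (b :: v)

theorem arcs_fst (stop : Option A) (w : T) (v : List A) :
    (arcs stop w v).map Prod.fst = v.map some := by
  induction v with
  | nil => rfl
  | cons a v ih =>
    cases v with
    | nil => rfl
    | cons b v =>
      rw [arcs, List.map_cons, ih]
      rfl

theorem arcs_last (stop : Option A) (w : T) (a : A) (v : List A) :
    (some ((a :: v).getLast (by simp)), stop, w) ∈ arcs stop w (a :: v) := by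
  induction v generalizing a with
  | nil => exact List.mem_singleton.2 rfl
  | cons b v ih =>
    rw [arcs, List.getLast_cons (by simp)]
    exact List.mem_cons_of_mem _ (ih b)

/-- the arcs of the path -/
def pathE : List A → List (Ed A T)
  | [] => [(none, none, 1)]
  | a :: v => (none, some a, 1) :: arcs none 1 (a :: v)

theorem pathE_fst (v : List A) : (pathE (T := T) v).map Prod.fst = none :: v.map some := by
  cases v with
  | nil => rfl
  | cons a v => rw [pathE, List.map_cons, arcs_fst]

variable (y : ℕ → T)

/-- the arcs of a loop -/
def loopE (u : LD A) : List (Ed A T) := arcs (some u.1) (y u.2.2) (u.1 :: u.2.1)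

theorem loopE_fst (u : LD A) : (loopE y u).map Prod.fst = (u.1 :: u.2.1).map some := arcs_fst _ _ _

/-- all the arcs -/
def allE (v : List A) (us : List (LD A)) : List (Ed A T) := pathE v ++ (us.map (loopE y)).flatten

/-- the places of the loops, in the natural order -/
def pl (us : List (LD A)) : List A := (us.map fun u => u.1 :: u.2.1).flatten

theorem allE_fst (v : List A) (us : List (LD A)) :
    (allE y v us).map Prod.fst = none :: (v ++ pl us).map some := by
  unfold allE pl
  rw [List.map_append, pathE_fst, List.map_append, List.cons_append, List.map_flatten,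
    List.map_flatten, List.map_map, List.map_map]
  congr 2
  refine congrArg List.flatten (List.map_congr_left fun u _ => ?_)
  exact loopE_fst y u

theorem allE_nodup (v : List A) (us : List (LD A)) (h : (v ++ pl us).Nodup) :
    ((allE y v us).map Prod.fst).Nodup := by
  rw [allE_fst, List.nodup_cons]
  refine ⟨by simp, h.map (Option.some_injective A)⟩

end edges

section rows

variable {A T : Type} [Fintype A] [DecidableEq A] [CommRing T]
variable {Λ : Type} [Ring Λ] (φ : T →+* Λ) (x : A → Λ)
variable (L : List (Ed A T)) (hnd : (L.map Prod.fst).Nodup)
include hnd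

theorem BX_row_some (a b : A) (w : T) (h : (some a, some b, w) ∈ L) :
    BX x ((Bm L).map φ) a = Pi.single b (φ w * x b) := by
  funext c
  have h1 := congrFun (Bm_row L hnd _ h) (some c)
  change φ (Bm L (some a) (some c)) * x c = _
  rw [h1, Pi.single_apply, Pi.single_apply]
  by_cases hc : c = b
  · subst hc
    simp
  · rw [if_neg hc, if_neg (fun h => hc (Option.some_injective _ h)), map_zero, zero_mul]

theorem BX_row_none (a : A) (w : T) (h : (some a, none, w) ∈ L) :
    BX x ((Bm L).map φ) a = 0 := by
  funext c
  have h1 := congrFun (Bm_row L hnd _ h) (some c)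
  change φ (Bm L (some a) (some c)) * x c = _
  rw [h1, Pi.single_apply, if_neg (by simp), map_zero, zero_mul]
  rfl

omit hnd in
theorem BX_row_notMem (a : A) (h : some a ∉ L.map Prod.fst) :
    BX x ((Bm L).map φ) a = 0 := by
  funext c
  have h1 := congrFun (Bm_row_notMem L _ h) (some c)
  change φ (Bm L (some a) (some c)) * x c = _
  rw [h1, Pi.zero_apply, map_zero, zero_mul]
  rfl

theorem arcs_follows (stop : Option A) (w : T) (v : List A) (h : ∀ e ∈ arcs stop w v, e ∈ L) :
    Follows (BX x ((Bm L).map φ)) x v := by
  induction v with
  | nil => trivial
  | cons a v ih =>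
    cases v with
    | nil => trivial
    | cons b v =>
      refine ⟨?_, ih fun e he => h e (List.mem_cons_of_mem _ he)⟩
      rw [BX_row_some φ x L hnd a b 1 (h _ List.mem_cons_self), map_one, one_mul]

end rows

section final

variable {A T : Type} [Fintype A] [DecidableEq A] [CommRing T]
variable {Λ : Type} [Ring Λ] (φ : T →+* Λ) (x : A → Λ) (y : ℕ → T)
variable (v : List A) (us : List (LD A)) (hnd : (v ++ pl us).Nodup)
include hnd

theorem isLoop_of (u : LD A) (hu : u ∈ us) :
    IsLoop (BX x ((Bm (allE y v us)).map φ)) x (u.1, u.2.1, φ (y u.2.2)) := by
  have hL : ∀ e ∈ loopE y u, e ∈ allE y v us := by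
    intro e he
    unfold allE
    rw [List.mem_append]
    refine Or.inr ?_
    rw [List.mem_flatten]
    exact ⟨_, List.mem_map_of_mem hu, he⟩
  refine ⟨arcs_follows φ x _ (allE_nodup y v us hnd) _ _ _ hL, ?_⟩
  exact BX_row_some φ x _ (allE_nodup y v us hnd) _ _ _ (hL _ (arcs_last _ _ _ _))

theorem isPath_of : IsPath (BX x ((Bm (allE y v us)).map φ)) x v := by
  cases v with
  | nil => exact ⟨trivial, by simp⟩
  | cons a v =>
    have hL : ∀ e ∈ arcs none 1 (a :: v), e ∈ allE y (a :: v) us := by
      intro e he
      unfold allE
      rw [List.mem_append]
      exact Or.inl (List.mem_cons_of_mem _ he)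
    refine ⟨arcs_follows φ x _ (allE_nodup y _ us hnd) _ _ _ hL, ?_⟩
    intro b hb
    rw [List.getLast?_eq_some_getLast (by simp)] at hb
    obtain rfl := Option.some_injective _ (Option.mem_def.1 hb)
    exact BX_row_none φ x _ (allE_nodup y _ us hnd) _ _ (hL _ (arcs_last _ _ _ _))

theorem row_zero_of (a : A) (h1 : a ∉ v) (h2 : a ∉ pl us) :
    BX x ((Bm (allE y v us)).map φ) a = 0 := by
  apply BX_row_notMem
  rw [allE_fst, List.mem_cons, not_or]
  refine ⟨by simp, ?_⟩
  intro h
  obtain ⟨b, hb, hab⟩ := List.mem_map.1 h
  obtain rfl := Option.some_injective _ hab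
  rw [List.mem_append] at hb
  exact hb.elim h1 h2

theorem none_row : Bm (allE y v us) none = Pi.single v.head? 1 := by
  have hn := allE_nodup y v us hnd
  cases v with
  | nil => exact Bm_row _ hn (none, none, 1) (List.mem_cons_self)
  | cons a v => exact Bm_row _ hn (none, some a, 1) (List.mem_cons_self)

theorem none_col (b : A) : Bm (allE y v us) (some b) none =
    if v.getLast? = some b then 1 else 0 := by
  have hn := allE_nodup y v us hnd
  by_cases hb : some b ∈ (allE y v us).map Prod.fst
  · obtain ⟨e, he, hb'⟩ := List.mem_map.1 hb
    have hrow := Bm_row _ hn e he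
    rw [hb'] at hrow
    rw [hrow, Pi.single_apply]
    unfold allE at he
    rw [List.mem_append] at he
    rcases he with he | he
    · -- the edge is in the path
      cases v with
      | nil =>
        rw [pathE, List.mem_singleton] at he
        subst he
        exact absurd hb' (by simp)
      | cons a v =>
        rw [pathE, List.mem_cons] at he
        rcases he with rfl | he
        · exact absurd hb' (by simp)
        · have hlast : ((a :: v).getLast? = some b) ↔ (a :: v).getLast (by simp) = b := by
            rw [List.getLast?_eq_some_getLast (by simp), Option.some_inj]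
          have key : ∀ (v : List A) (a : A), (a :: v).Nodup → e ∈ arcs (none : Option A) (1 : T) (a :: v) →
              (if none = e.2.1 then e.2.2 else 0) =
                if (a :: v).getLast (by simp) = b then 1 else 0 := by
            intro v
            induction v with
            | nil =>
              intro a _ he
              rw [arcs, List.mem_singleton] at he
              have h3 : a = b := by
                rw [he] at hb'
                exact Option.some_injective _ hb'
              rw [he, h3]
              simp
            | cons c v ih =>
              intro a hnd' he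
              rw [arcs, List.mem_cons] at he
              have h5 : (a :: c :: v).getLast (by simp) = (c :: v).getLast (by simp) :=
                List.getLast_cons (by simp)
              rcases he with he | he
              · have h3 : a = b := by
                  rw [he] at hb'
                  exact Option.some_injective _ hb'
                rw [he, if_neg (by simp), if_neg]
                rw [h5]
                intro h4
                refine (List.nodup_cons.1 hnd').1 ?_
                rw [h3, ← h4]
                exact List.getLast_mem (by simp)
              · rw [ih c (List.nodup_cons.1 hnd').2 he, h5]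
          rw [key v a (List.nodup_append.1 hnd).1 he]
          simp only [hlast]
    · -- the edge is in a loop
      rw [List.mem_flatten] at he
      obtain ⟨l, hl, he⟩ := he
      obtain ⟨u, hu, rfl⟩ := List.mem_map.1 hl
      have h3 : ∀ (v : List A) (a : A) (s : A) (w : T), e ∈ arcs (some s) w (a :: v) →
          e.2.1 ≠ none := by
        intro v
        induction v with
        | nil =>
          intro a s w he
          rw [arcs, List.mem_singleton] at he
          rw [he]
          simp
        | cons c v ih =>
          intro a s w he
          rw [arcs, List.mem_cons] at he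
          rcases he with rfl | he
          · simp
          · exact ih c s w he
      rw [if_neg (fun h => h3 _ _ _ _ he h.symm), if_neg]
      intro h4
      have h5 : b ∈ v := List.mem_of_getLast? h4
      have h6 : b ∈ pl us := by
        unfold pl
        rw [List.mem_flatten]
        refine ⟨_, List.mem_map_of_mem hu, ?_⟩
        have h7 : e.1 ∈ (loopE y u).map Prod.fst := List.mem_map_of_mem he
        rw [loopE_fst, hb'] at h7
        obtain ⟨c, hc, hcb⟩ := List.mem_map.1 h7
        obtain rfl := Option.some_injective _ hcb
        exact hc
      exact (List.nodup_append.1 hnd).2.2 b h5 b h6 rfl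
  · rw [Bm_row_notMem _ _ hb, Pi.zero_apply, if_neg]
    intro h4
    apply hb
    rw [allE_fst, List.mem_cons]
    refine Or.inr (List.mem_map_of_mem ?_)
    exact List.mem_append_left _ (List.mem_of_getLast? h4)

theorem qq_of (t : Λ) (ht : ∀ y, t * y = y * t) (hn : IsNilpotent t) :
    qq t x ((Bm (allE y v us)).map φ) = (-t) ^ v.length * (v.map x).prod := by
  have h1 := none_row y v us hnd
  refine qq_path' t ht hn x _ v (List.nodup_append.1 hnd).1 (isPath_of φ x y v us hnd) ?_ ?_ ?_
  · change φ (Bm (allE y v us) none none) = _
    rw [h1]
    cases v with
    | nil => simp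
    | cons a v => simp
  · intro c
    change φ (Bm (allE y v us) none (some c)) = _
    rw [h1, Pi.single_apply]
    by_cases hc : v.head? = some c
    · rw [if_pos hc.symm, if_pos hc, map_one]
    · rw [if_neg (fun h => hc h.symm), if_neg hc, map_zero]
  · intro b
    change φ (Bm (allE y v us) (some b) none) = _
    rw [none_col y v us hnd b]
    split_ifs
    · exact map_one φ
    · exact map_zero φ

end final

end Pool.PI34.EV
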