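import Pool.Agent.LibPI34.EV_Rel0

/-!
PI34, block EV (even input of (S_ex)), file Rel: products of loops and a word are combinations of the `P_ξ`.
-/

set_option autoImplicit false
set_option linter.unusedSectionVars false

namespace Pool.PI34.EV

open Equiv Finset Matrix
open Pool.PI34.BA
open scoped TensorProduct

section rel

variable (X : Type) [Fintype X] [DecidableEq X] (n : ℕ)

/-- the value of a word and loops -/
noncomputable def val {ι Φ E : Type} [Fintype ι] [DecidableEq ι] [Ring Φ] [Ring E]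
    (S : Str ι Φ E) {k : ℕ} (p q : Fin k ↪ ι) (z : ι) {A : Type} (x : A → Φ) (v : List A)
    (us : List (LD A)) : E :=
  RR S p x us (S.ρ z (v.map x).prod * S.om p q)

/-- the coefficient of `∏_{i ∈ U} y_i`, with values in `E` -/
noncomputable def Ψ (E : Type) [Ring E] (U : Finset ℕ) : TW ⊗[ℤ] E →+ E :=
  ((TensorProduct.lid ℤ E).toLinearMap ∘ₗ (psi U).toIntLinearMap.rTensor E).toAddMonoidHom

theorem Ψ_tmul (E : Type) [Ring E] (U : Finset ℕ) (a : TW) (e : E) :
    Ψ E U (a ⊗ₜ e) = psi U a • e := by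
  change (TensorProduct.lid ℤ E) ((psi U).toIntLinearMap.rTensor E (a ⊗ₜ e)) = _
  rw [LinearMap.rTensor_tmul, TensorProduct.lid_tmul]
  rfl

theorem Ψ_tcoef (E : Type) [Ring E] (U : Finset ℕ) (y : Trunc TW n ⊗[ℤ] E) :
    Ψ E U ((tcoef TW n).toIntLinearMap.rTensor E y) = TE (Th n) U y := by
  induction y using TensorProduct.induction_on with
  | zero => rw [map_zero, map_zero, map_zero]
  | add a b ha hb => rw [map_add, map_add, map_add, ha, hb]
  | tmul a e => rw [LinearMap.rTensor_tmul, Ψ_tmul, TE_tmul]; rfl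

variable {ι Φ E : Type} [Fintype ι] [DecidableEq ι] [Ring Φ] [Ring E]
  (S : Str ι Φ E) {k : ℕ} (p q : Fin k ↪ ι) (z : ι) (x : X → Φ)

theorem Ψ_Pxi (U : Finset ℕ) (B : Matrix (Option (X × Fin n)) (Option (X × Fin n)) TW) :
    Ψ E U (PB S p q z x n TW B) = ∑ ξ ∈ (finite_goodMon X n).toFinset,
      psi U (evMon B ξ) • Pxi S p q z x n ξ := by
  rw [← evW_Pxi]
  unfold evW Finsupp.sum
  rw [map_sum]
  have h2 : (Pxi S p q z x n).support ⊆ (finite_goodMon X n).toFinset := by
    intro ξ hξ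
    rw [Set.Finite.mem_toFinset]
    exact goodMon_of_Pxi S p q z x n ξ (Finsupp.mem_support_iff.1 hξ)
  rw [Finset.sum_congr rfl fun ξ _ => Ψ_tmul E U _ _]
  refine Finset.sum_subset h2 ?_
  intro ξ _ hξ
  rw [Finsupp.notMem_support_iff.1 hξ, smul_zero]

theorem Ψ_val (hA : Anti S.s k) (hF : Frame p q z) (v : List (X × Fin n))
    (us : List (LD (X × Fin n))) (hnd : (v ++ pl us).Nodup)
    (hidx : (idx us).Nodup) (hlen : v.length + len us = n) :
    Ψ E (idx us).toFinset (PB S p q z x n TW (Bm (allE yw v us))) =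
      ((-1) ^ n * (-1) ^ us.length : ℤ) • val S p q z (fun a : X × Fin n => x a.1) v us := by
  unfold PB
  rw [Ψ_tcoef, PP_val S p q z (inT TW n) (tt TW n) yw hA hF (isNilpotent_tt TW n) (inT_sq n)
    (fun a : X × Fin n => x a.1) v us hnd]
  exact TE_full S p (fun a : X × Fin n => x a.1) n (tt TW n) (fun i => inT TW n (yw i)) (Th n)
    (Th_mon n) _ us ∅ v.length _ hidx (fun i _ => Finset.notMem_empty i) (fun i => by simp) hlen

/-- the coefficients of a value on the `P_ξ` -/
noncomputable def cf (v : List (X × Fin n)) (us : List (LD (X × Fin n))) (ξ : Mon X n) : ℤ :=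
  ((-1) ^ n * (-1) ^ us.length) * psi (idx us).toFinset (evMon (Bm (allE yw v us)) ξ)

theorem val_rel (hA : Anti S.s k) (hF : Frame p q z) (v : List (X × Fin n))
    (us : List (LD (X × Fin n))) (hnd : (v ++ pl us).Nodup)
    (hidx : (idx us).Nodup) (hlen : v.length + len us = n) :
    ∑ ξ ∈ (finite_goodMon X n).toFinset, cf X n v us ξ • Pxi S p q z x n ξ =
      val S p q z (fun a : X × Fin n => x a.1) v us := by
  have hε : (((-1 : ℤ) ^ n * (-1) ^ us.length)) * ((-1 : ℤ) ^ n * (-1) ^ us.length) = 1 := by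
    calc _ = ((-1 : ℤ) ^ n * (-1) ^ n) * ((-1) ^ us.length * (-1) ^ us.length) := by ring
      _ = 1 := by rw [neg_one_pow_mul_self, neg_one_pow_mul_self, one_mul]
  calc ∑ ξ ∈ (finite_goodMon X n).toFinset, cf X n v us ξ • Pxi S p q z x n ξ
      = ((-1) ^ n * (-1) ^ us.length : ℤ) • ∑ ξ ∈ (finite_goodMon X n).toFinset,
          psi (idx us).toFinset (evMon (Bm (allE yw v us)) ξ) • Pxi S p q z x n ξ := by
        rw [Finset.smul_sum]
        exact Finset.sum_congr rfl fun ξ _ => mul_smul _ _ _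
    _ = val S p q z (fun a : X × Fin n => x a.1) v us := by
        rw [← Ψ_Pxi, Ψ_val X n S p q z x hA hF v us hnd hidx hlen, smul_smul, hε, one_smul]

end rel

end Pool.PI34.EV
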