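import Pool.Agent.LibPI34.EV_Mat
import Pool.Agent.LibPI34.BA_F7

/-!
PI34, block EV (even input of (S_ex)), file Rel0: the value of `PP` at the matrix of a path and loops.
-/

set_option autoImplicit false
set_option linter.unusedSectionVars false

namespace Pool.PI34.EV

open Equiv Finset Matrix
open Pool.PI34.BA
open scoped TensorProduct

section places

variable {A Λ : Type} (f : LD A → Lp A Λ)

theorem places_perm (hf : ∀ u, (f u).1 = u.1 ∧ (f u).2.1 = u.2.1) (us : List (LD A)) :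
    (places (us.map f)).Perm (pl us) := by
  induction us with
  | nil => exact List.Perm.refl _
  | cons u us ih =>
    have h1 : places ((u :: us).map f) = ((f u).1 :: (f u).2.1).reverse ++ places (us.map f) := rfl
    have h2 : pl (u :: us) = (u.1 :: u.2.1) ++ pl us := rfl
    rw [h1, h2, (hf u).1, (hf u).2]
    exact (List.reverse_perm _).append ih

end places

/-- `-1` to a power acts invertibly -/
theorem neg_one_pow_mul_self (a : ℕ) : ((-1 : ℤ) ^ a) * (-1) ^ a = 1 := by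
  rw [← mul_pow]
  norm_num

section gen

variable {A : Type} [Fintype A] [DecidableEq A]
variable {ι Φ E : Type} [Fintype ι] [DecidableEq ι] [Ring Φ] [Ring E] (S : Str ι Φ E)
variable {k : ℕ} (p q : Fin k ↪ ι) (z : ι)
variable {T R : Type} [CommRing T] [CommRing R] (f : T →+* R) (t : R) (y : ℕ → T)

theorem PP_val (hA : Anti S.s k) (hF : Frame p q z) (hn : IsNilpotent t)
    (hy : ∀ i, f (y i) * f (y i) = 0) (x : A → Φ) (v : List A)
    (us : List (LD A)) (hnd : (v ++ pl us).Nodup) :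
    (S.base R).PP p q z (t ⊗ₜ 1) (fun a => 1 ⊗ₜ x a)
      ((Bm (allE y v us)).map fun b => f b ⊗ₜ 1) =
      GG S p x t (fun i => f (y i)) us *
        (mon t (fun i => f (y i)) v.length ∅ ⊗ₜ (S.ρ z (v.map x).prod * S.om p q)) := by
  classical
  let φ : T →+* R ⊗[ℤ] Φ := (d2_inc Φ R).comp f
  have e0 : ((Bm (allE y v us)).map fun b => (f b ⊗ₜ[ℤ] (1 : Φ) : R ⊗[ℤ] Φ)) =
    (Bm (allE y v us)).map φ := rfl
  rw [e0]
  have ht : ∀ w : R ⊗[ℤ] Φ, (t ⊗ₜ[ℤ] (1 : Φ)) * w = w * (t ⊗ₜ 1) :=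
    fun w => tmul_one_comm R t w
  have hn' : IsNilpotent (t ⊗ₜ[ℤ] (1 : Φ)) := isNilpotent_tmul_one R t hn
  let y' : ℕ → R := fun i => f (y i)
  have hpp : (places (us.map (toLp (Φ := Φ) y'))).Perm (pl us) :=
    places_perm (toLp (Φ := Φ) y') (fun u => ⟨rfl, rfl⟩) us
  have hq : qq (t ⊗ₜ[ℤ] (1 : Φ)) (fun a : A => (1 : R) ⊗ₜ[ℤ] x a)
      ((Bm (allE y v us)).map φ) = (-(t ⊗ₜ[ℤ] (1 : Φ))) ^ v.length *
        (v.map fun a => ((1 : R) ⊗ₜ[ℤ] x a : R ⊗[ℤ] Φ)).prod :=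
    qq_of φ (fun a : A => (1 : R) ⊗ₜ[ℤ] x a) y v us hnd (t ⊗ₜ[ℤ] (1 : Φ)) ht hn'
  have h4 := PP_loops (S.base R) p q z (base_Anti S R k hA) hF
    (t ⊗ₜ[ℤ] (1 : Φ)) ht hn' (fun a : A => (1 : R) ⊗ₜ[ℤ] x a)
    ((Bm (allE y v us)).map φ) (us.map (toLp y')) v ?_ ?_ ?_ ?_ _ hq
  rotate_left
  · intro u hu
    obtain ⟨u', hu', rfl⟩ := List.mem_map.1 hu
    exact isLoop_of φ _ y v us hnd u' hu'
  · exact isPath_of φ _ y v us hnd
  · rw [List.nodup_append] at hnd ⊢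
    exact ⟨hpp.nodup_iff.2 hnd.2.1, hnd.1, fun a ha b hb h => hnd.2.2 b hb a (hpp.mem_iff.1 ha) h.symm⟩
  · intro a ha hv
    exact row_zero_of φ _ y v us hnd a hv (fun h => ha (hpp.mem_iff.2 h))
  have h6 := D_Fl S p x t y' hy us
  have h7 : (-(t ⊗ₜ[ℤ] (1 : Φ))) ^ v.length *
      (v.map fun a => ((1 : R) ⊗ₜ[ℤ] x a : R ⊗[ℤ] Φ)).prod =
      ((-t) ^ v.length) ⊗ₜ[ℤ] (v.map fun a => x a).prod := by
    rw [map_one_tmul x, ← TensorProduct.neg_tmul,
      Algebra.TensorProduct.tmul_pow, one_pow, Algebra.TensorProduct.tmul_mul_tmul, mul_one,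
      one_mul]
  have h8 : (-t) ^ v.length = mon t y' v.length ∅ := by
    unfold mon
    rw [Finset.prod_empty, mul_one]
  rw [h4, h6, h7, base_rho_tmul, base_om, mul_assoc, Algebra.TensorProduct.tmul_mul_tmul, mul_one,
    h8]

end gen

end Pool.PI34.EV
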