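import Pool.Agent.LibPI34.H4_Top

/-!
PI34, block H4, file 6: the eigenvalue of `h` on highest weight vectors.
-/

set_option autoImplicit false
set_option linter.unusedSectionVars false
set_option linter.unusedDecidableInType false
set_option linter.unusedFintypeInType false

namespace Pool.PI34.H4

open Equiv Finset Polynomial

/-! ### The signed sum of one more place -/

/-- The embedding of the places `1, ..., d`. -/
def sE (d : ℕ) : Fin d ↪ Fin (d + 1) := ⟨Fin.succ, Fin.succ_injective d⟩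

/-- The signed coset sum. -/
noncomputable def atl (d : ℕ) : P (Fin (d + 1)) := 1 - ∑ t : Fin d, g (swap 0 t.succ)

theorem decomposeFin_eq {d : ℕ} (p : Fin (d + 1)) (e : Perm (Fin d)) :
    Perm.decomposeFin.symm (p, e) = swap 0 p * e.viaEmbedding (sE d) := by
  ext x
  refine Fin.cases ?_ (fun y => ?_) x
  · rw [Perm.decomposeFin_symm_apply_zero, Perm.mul_apply, Perm.viaEmbedding_apply_of_notMem,
      swap_apply_left]
    rintro ⟨y, hy⟩
    exact Fin.succ_ne_zero y hy
  · rw [Perm.decomposeFin_symm_apply_succ, Perm.mul_apply]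
    have := Perm.viaEmbedding_apply e (sE d) y
    change e.viaEmbedding (sE d) y.succ = (e y).succ at this
    rw [this]

theorem atl_eq (d : ℕ) : atl d = ∑ p : Fin (d + 1), (if p = 0 then (1 : ℤ) else -1) • g (swap 0 p) := by
  rw [Fin.sum_univ_succ, if_pos rfl, one_smul, swap_self]
  have h1 : ∀ t : Fin d, (if t.succ = 0 then (1 : ℤ) else -1) • g (swap 0 t.succ) =
      -g (swap 0 t.succ) := by
    intro t
    rw [if_neg (Fin.succ_ne_zero t), neg_smul, one_smul]
  rw [Finset.sum_congr rfl (fun t _ => h1 t), Finset.sum_neg_distrib]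
  have h2 : g (Equiv.refl (Fin (d + 1))) = 1 := g_one
  rw [h2, atl, sub_eq_add_neg]

theorem As_succ (d : ℕ) : As (Fin (d + 1)) = atl d * emb (sE d) (As (Fin d)) := by
  have h1 : As (Fin (d + 1)) = ∑ q : Fin (d + 1) × Perm (Fin d),
      ((if q.1 = 0 then (1 : ℤ) else -1) * (Perm.sign q.2 : ℤ)) •
        (g (swap 0 q.1) * g (q.2.viaEmbedding (sE d))) := by
    unfold As
    refine Fintype.sum_equiv Perm.decomposeFin _ _ (fun s => ?_)
    obtain ⟨⟨p, e⟩, rfl⟩ := Perm.decomposeFin.symm.surjective s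
    rw [apply_symm_apply, Perm.decomposeFin.symm_sign, decomposeFin_eq, g_mul]
    congr 1
    rw [Units.val_mul]
    split_ifs <;> rfl
  rw [h1, Fintype.sum_prod_type, atl_eq, Finset.sum_mul]
  refine Finset.sum_congr rfl (fun p _ => ?_)
  unfold As
  rw [map_sum, Finset.mul_sum]
  refine Finset.sum_congr rfl (fun e _ => ?_)
  rw [emb_zsmul, emb_g, smul_mul_smul_comm]

theorem As_inv (α : Type) [Fintype α] [DecidableEq α] :
    As α = ∑ s : Perm α, (Perm.sign s : ℤ) • g s⁻¹ := by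
  unfold As
  refine Fintype.sum_equiv (Equiv.inv (Perm α)) _ _ (fun s => ?_)
  rw [Equiv.inv_apply, Perm.sign_inv, inv_inv]

theorem As_succ' (d : ℕ) : As (Fin (d + 1)) = emb (sE d) (As (Fin d)) * atl d := by
  have h1 : As (Fin (d + 1)) = ∑ q : Fin (d + 1) × Perm (Fin d),
      ((if q.1 = 0 then (1 : ℤ) else -1) * (Perm.sign q.2 : ℤ)) •
        (g ((q.2⁻¹).viaEmbedding (sE d)) * g (swap 0 q.1)) := by
    rw [As_inv]
    refine Fintype.sum_equiv Perm.decomposeFin _ _ (fun s => ?_)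
    obtain ⟨⟨p, e⟩, rfl⟩ := Perm.decomposeFin.symm.surjective s
    rw [apply_symm_apply, Perm.decomposeFin.symm_sign, decomposeFin_eq, mul_inv_rev, g_mul,
      swap_inv]
    have h2 : (e.viaEmbedding (sE d))⁻¹ = (e⁻¹).viaEmbedding (sE d) := by
      rw [← Perm.viaEmbeddingHom_apply, ← Perm.viaEmbeddingHom_apply, map_inv]
    rw [h2]
    congr 1
    rw [Units.val_mul]
    split_ifs <;> rfl
  rw [h1, Fintype.sum_prod_type, Finset.sum_comm, As_inv (Fin d), map_sum, Finset.sum_mul]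
  refine Finset.sum_congr rfl (fun e _ => ?_)
  rw [atl_eq, Finset.mul_sum]
  refine Finset.sum_congr rfl (fun p _ => ?_)
  rw [emb_zsmul, emb_g, smul_mul_smul_comm, mul_comm]

section top2

variable {N : ℕ} {X : Type} [Fintype X] [DecidableEq X] {d : ℕ}

variable (X d) in
/-- The signed coset sum on the block. -/
noncomputable def at' : P (X ⊕ Fin (d + 1)) := emb Function.Embedding.inr (atl d)

theorem viaEmbedding_swap {α β : Type} [DecidableEq α] [DecidableEq β] (ι : α ↪ β) (x y : α) :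
    (swap x y).viaEmbedding ι = swap (ι x) (ι y) := by
  ext z
  by_cases hz : z ∈ Set.range ι
  · obtain ⟨u, rfl⟩ := hz
    rw [Perm.viaEmbedding_apply, ι.injective.swap_apply]
  · rw [Perm.viaEmbedding_apply_of_notMem _ _ _ hz, swap_apply_of_ne_of_ne]
    · rintro rfl
      exact hz ⟨x, rfl⟩
    · rintro rfl
      exact hz ⟨y, rfl⟩

theorem at'_eq : at' X d = 1 - sT X (0 : Fin (d + 1)) := by
  unfold at' atl sT
  rw [map_sub, map_one, map_sum]
  congr 1
  have h1 : (univ.erase (0 : Fin (d + 1))) = univ.map (sE d) := by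
    ext x
    rw [Finset.mem_erase, Finset.mem_map]
    refine ⟨fun h => ?_, fun h => ?_⟩
    · obtain ⟨y, hy⟩ := Fin.exists_succ_eq.2 h.1
      exact ⟨y, mem_univ _, hy⟩
    · obtain ⟨y, _, hy⟩ := h
      refine ⟨?_, mem_univ _⟩
      rw [← hy]
      exact Fin.succ_ne_zero y
  rw [h1, Finset.sum_map]
  refine Finset.sum_congr rfl (fun t _ => ?_)
  rw [emb_g, viaEmbedding_swap]
  rfl

/-- Alternating under the block. -/
def Alt (x : W N (X ⊕ Fin (d + 1))) : Prop :=
  ∀ (σ : Perm (Fin (d + 1))) w v, x (Sum.elim w (v ∘ σ)) = ((Perm.sign σ : ℤ) : ℚ) * x (Sum.elim w v)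

variable (N X d) in
/-- The element `h`. -/
noncomputable def hh : P (X ⊕ Fin (d + 1)) := at' X d * (yy N X (0 : Fin (d + 1))) ^ d

/-- The eigenvalue. -/
def PP (Q : ℤ) (s : Fin (d + 1) → Fin N) : ℤ := ∑ k, phi Q s d k

theorem act_at' (x : W N (X ⊕ Fin (d + 1))) (w : X → Fin N) (v : Fin (d + 1) → Fin N) :
    act N _ (at' X d) x (Sum.elim w v) =
      x (Sum.elim w v) - ∑ t ∈ univ.erase (0 : Fin (d + 1)), x (Sum.elim w (v ∘ swap 0 t)) := by
  rw [at'_eq, act_sub, act_one, Pi.sub_apply, act_sT]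

theorem Top.hh {s : ℕ} {x : W N (X ⊕ Fin (d + 1))} (ht : Top s x) (hx : HW x) :
    Top s (act N _ (H4.hh N X d) x) := by
  intro w v hv
  have h1 := (ht.yy_pow hx (0 : Fin (d + 1)) d).1
  rw [H4.hh, act_mul, act_at', h1 _ _ hv, zero_sub, neg_eq_zero]
  refine Finset.sum_eq_zero (fun t _ => ?_)
  exact h1 _ _ (by rw [hgt_comp]; exact hv)

theorem hh_comp {Q : ℤ} {s : Fin (d + 1) → Fin N} (hs : Function.Injective s)
    {x : W N (X ⊕ Fin (d + 1))} (hx : HW x)
    (ht : Top (hgt s) x) (hwt : ∀ w, x (Sum.elim w s) ≠ 0 → ∀ a,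
      (cnt w a : ℤ) = (Q - 1) * ((N : ℤ) - 1 - (a : ℕ)))
    (halt : Alt x) (σ : Perm (Fin (d + 1))) (w : X → Fin N) :
      act N _ (hh N X d) x (Sum.elim w (s ∘ σ)) = (PP Q s : ℚ) * x (Sum.elim w (s ∘ σ)) := by
  have h1 := phi_spec hs hx ht hwt halt (0 : Fin (d + 1)) d
  rw [hh, act_mul, act_at', h1 σ w]
  have h2 : ∀ t ∈ univ.erase (0 : Fin (d + 1)),
      act N _ ((yy N X (0 : Fin (d + 1))) ^ d) x (Sum.elim w ((s ∘ ⇑σ) ∘ ⇑(swap 0 t))) =
        -(((Perm.sign σ : ℤ) : ℚ) * phi Q s d (σ t) * x (Sum.elim w s)) := by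
    intro t ht
    have h3 : (s ∘ ⇑σ) ∘ ⇑(swap 0 t) = s ∘ ⇑(σ * swap 0 t) := rfl
    rw [h3, h1, Perm.sign_mul, Perm.sign_swap (Finset.ne_of_mem_erase ht).symm, Perm.mul_apply,
      swap_apply_left]
    push_cast
    ring
  rw [Finset.sum_congr rfl h2, Finset.sum_neg_distrib, sub_neg_eq_add, Finset.add_sum_erase
    univ (fun t => ((Perm.sign σ : ℤ) : ℚ) * (phi Q s d (σ t) : ℚ) * x (Sum.elim w s)) (mem_univ _),
    Equiv.sum_comp σ (fun t => ((Perm.sign σ : ℤ) : ℚ) * (phi Q s d t : ℚ) * x (Sum.elim w s)),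
    ← Finset.sum_mul, ← Finset.mul_sum, halt σ w s]
  unfold PP
  push_cast
  ring

/-! ### Commutation -/

theorem commute_yy_emb {T : Type} [Fintype T] [DecidableEq T] (l : T) {β : Type} (ι : β ↪ X ⊕ T)
    (h1 : ∀ (σ : Perm β), ∀ z, z ≠ Sum.inr l → σ.viaEmbedding ι z ≠ Sum.inr l)
    (h2 : ∀ (σ : Perm β), σ.viaEmbedding ι (Sum.inr l) = Sum.inr l) (y : P β) :
    Commute (emb ι y) (yy N X l) := by
  have h0 : yy N X l = ∑ z ∈ univ.erase (Sum.inr l : X ⊕ T), g (swap (Sum.inr l) z) +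
      ((N : ℤ) - 1) • 1 := by
    unfold yy sX sT
    congr 1
    have : (univ.erase (Sum.inr l : X ⊕ T)) = (univ : Finset X).disjSum (univ.erase l) := by
      ext z
      rcases z with i | t
      · simp
      · simp [Sum.inr_injective.ne_iff]
    rw [this, Finset.sum_disjSum]
    congr 1
    exact Finset.sum_congr rfl (fun i _ => by rw [swap_comm])
  rw [h0]
  refine commute_of_g ι (fun σ => ?_) y
  refine Commute.add_right ?_ ?_
  · unfold Commute SemiconjBy
    rw [Finset.mul_sum, Finset.sum_mul]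
    refine Finset.sum_bij (fun z _ => σ.viaEmbedding ι z) ?_ ?_ ?_ ?_
    · intro z hz
      rw [Finset.mem_erase] at hz ⊢
      exact ⟨h1 σ z hz.1, mem_univ _⟩
    · intro a _ b _ h
      exact (σ.viaEmbedding ι).injective h
    · intro z hz
      rw [Finset.mem_erase] at hz
      refine ⟨(σ.viaEmbedding ι).symm z, ?_, by simp⟩
      rw [Finset.mem_erase]
      refine ⟨fun h => hz.1 ?_, mem_univ _⟩
      have := congrArg (σ.viaEmbedding ι) h
      rw [apply_symm_apply, h2] at this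
      exact this
    · intro z _
      rw [← g_mul, ← g_mul, mul_swap_eq_swap_mul, h2]
  · exact ((Commute.one_right _).smul_right _)

theorem commute_yy_inl {T : Type} [Fintype T] [DecidableEq T] (l : T) (y : P X) :
    Commute (emb Function.Embedding.inl y) (yy N X l) := by
  refine commute_yy_emb l Function.Embedding.inl (fun σ z hz => ?_) (fun σ => ?_) y
  · rcases z with i | t
    · have := Perm.viaEmbedding_apply σ (Function.Embedding.inl : X ↪ X ⊕ T) i
      rw [Function.Embedding.inl_apply] at this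
      rw [this]
      simp
    · rw [Perm.viaEmbedding_apply_of_notMem]
      · exact hz
      · rintro ⟨i, hi⟩
        cases hi
  · rw [Perm.viaEmbedding_apply_of_notMem]
    rintro ⟨i, hi⟩
    cases hi

/-- The embedding of the smaller block. -/
def sX' (X : Type) (d : ℕ) : X ⊕ Fin d ↪ X ⊕ Fin (d + 1) :=
  ⟨Sum.map id Fin.succ, Function.injective_id.sumMap (Fin.succ_injective d)⟩

theorem commute_yy_succ (y : P (X ⊕ Fin d)) :
    Commute (emb (sX' X d) y) (yy N X (0 : Fin (d + 1))) := by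
  have h0 : ∀ z : X ⊕ Fin (d + 1), z ≠ Sum.inr 0 → z ∈ Set.range (sX' X d) := by
    intro z hz
    rcases z with i | t
    · exact ⟨Sum.inl i, rfl⟩
    · have ht : t ≠ 0 := fun e => hz (by rw [e])
      obtain ⟨u, hu⟩ := Fin.exists_succ_eq.2 ht
      exact ⟨Sum.inr u, by rw [← hu]; rfl⟩
  have h1 : (Sum.inr 0 : X ⊕ Fin (d + 1)) ∉ Set.range (sX' X d) := by
    rintro ⟨z, hz⟩
    rcases z with i | t
    · cases hz
    · exact Fin.succ_ne_zero t (Sum.inr_injective hz)
  refine commute_yy_emb 0 (sX' X d) (fun σ z hz => ?_) (fun σ => ?_) y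
  · obtain ⟨u, rfl⟩ := h0 z hz
    rw [Perm.viaEmbedding_apply]
    intro h
    exact h1 ⟨_, h⟩
  · exact Perm.viaEmbedding_apply_of_notMem _ _ _ h1

theorem commute_at'_inl (y : P X) : Commute (emb Function.Embedding.inl y) (at' X d) :=
  commute_emb_emb _ _ (fun _ _ => by simp) _ _

end top2

end Pool.PI34.H4
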