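import Pool.Agent.LibPI34.EV_Def2
import Pool.Agent.LibPI34.H4_Top2

/-!
PI34, block EV, file U1: cycles and antisymmetrizers of sets of strands.
-/

set_option autoImplicit false
set_option linter.unusedSectionVars false

namespace Pool.PI34.EV

open Equiv Finset
open Pool.PI34.H4 Pool.PI34.BA

/-! ### cycles -/

section fp

variable {α β : Type} [DecidableEq α] [DecidableEq β]

theorem fp_comm (l : List α) (x y : α) (hx : x ∉ l) (hy : y ∉ l) :
    l.formPerm * swap x y = swap x y * l.formPerm := by
  rw [Equiv.mul_swap_eq_swap_mul, List.formPerm_apply_of_notMem hx,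
    List.formPerm_apply_of_notMem hy]

theorem fp_cons (x y : α) (l : List α) (hx : x ∉ l) (hy : y ∉ l) :
    (x :: y :: l).formPerm = (x :: l).formPerm * swap x y := by
  rw [List.formPerm_cons_cons]
  cases l with
  | nil => simp
  | cons b l =>
    rw [List.formPerm_cons_cons, List.formPerm_cons_cons, mul_assoc, fp_comm (b :: l) x y hx hy,
      ← mul_assoc, ← mul_assoc]
    congr 1
    have hxb : x ≠ b := fun e => hx (e ▸ List.mem_cons_self)
    have hyb : y ≠ b := fun e => hy (e ▸ List.mem_cons_self)
    rw [Equiv.mul_swap_eq_swap_mul (swap x y) y b, swap_apply_right,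
      swap_apply_of_ne_of_ne (Ne.symm hxb) (Ne.symm hyb)]

theorem fp_inv_cons (x y : α) (l : List α) (hx : x ∉ l) (hy : y ∉ l) :
    ((x :: y :: l).formPerm)⁻¹ = swap x y * ((x :: l).formPerm)⁻¹ := by
  rw [fp_cons x y l hx hy, mul_inv_rev, swap_inv]

theorem fp_inv_cons' (x y : α) (l : List α) :
    ((x :: y :: l).formPerm)⁻¹ = ((y :: l).formPerm)⁻¹ * swap x y := by
  rw [List.formPerm_cons_cons, mul_inv_rev, swap_inv]

theorem via_one (e : α ↪ β) : (1 : Perm α).viaEmbedding e = 1 := by
  have h := map_one (Perm.viaEmbeddingHom e)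
  rwa [Perm.viaEmbeddingHom_apply] at h

theorem via_mul (e : α ↪ β) (σ τ : Perm α) :
    (σ * τ).viaEmbedding e = σ.viaEmbedding e * τ.viaEmbedding e := by
  have h := map_mul (Perm.viaEmbeddingHom e) σ τ
  rwa [Perm.viaEmbeddingHom_apply, Perm.viaEmbeddingHom_apply, Perm.viaEmbeddingHom_apply] at h

theorem via_inv (e : α ↪ β) (σ : Perm α) :
    (σ⁻¹).viaEmbedding e = (σ.viaEmbedding e)⁻¹ := by
  have h := map_inv (Perm.viaEmbeddingHom e) σ
  rwa [Perm.viaEmbeddingHom_apply, Perm.viaEmbeddingHom_apply] at h

theorem via_formPerm (e : α ↪ β) (l : List α) :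
    (l.formPerm).viaEmbedding e = (l.map e).formPerm := by
  induction l with
  | nil => exact via_one e
  | cons x l ih =>
    cases l with
    | nil => simpa using via_one e
    | cons y l =>
      rw [List.formPerm_cons_cons, via_mul, ih, viaEmbedding_swap]
      rfl

end fp

/-! ### antisymmetrizers -/

section an

variable {κ ι : Type} [Fintype κ] [DecidableEq κ] [Fintype ι] [DecidableEq ι]

theorem sum_permsOn_map {M : Type} [AddCommMonoid M] (e : κ ↪ ι) (f : Perm ι → M) :
    ∑ σ ∈ permsOn (univ.map e), f σ = ∑ τ : Perm κ, f (τ.viaEmbedding e) := by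
  symm
  refine Finset.sum_bij (fun τ _ => τ.viaEmbedding e) ?_ ?_ ?_ ?_
  · intro τ _
    rw [mem_permsOn]
    intro x hx
    refine Perm.viaEmbedding_apply_of_notMem _ _ _ ?_
    rintro ⟨y, rfl⟩
    exact hx (mem_map_of_mem _ (mem_univ y))
  · intro τ _ τ' _ h
    have h1 := Perm.viaEmbeddingHom_injective e
    apply h1
    rwa [Perm.viaEmbeddingHom_apply, Perm.viaEmbeddingHom_apply]
  · intro σ hσ
    rw [mem_permsOn] at hσ
    have h0 : ∀ x : κ, ∃ y : κ, e y = σ (e x) := by
      intro x
      by_contra hne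
      push Not at hne
      have h1 : σ (e x) ∉ univ.map e := by
        rw [mem_map]
        rintro ⟨y, -, hy⟩
        exact hne y hy
      have h2 := hσ _ h1
      have h3 := σ.injective h2
      rw [h3] at h1
      exact h1 (mem_map_of_mem _ (mem_univ x))
    choose t ht using h0
    have hti : Function.Injective t := by
      intro x y hxy
      have h1 : e (t x) = e (t y) := by rw [hxy]
      rw [ht, ht] at h1
      exact e.injective (σ.injective h1)
    refine ⟨Equiv.ofBijective t (Finite.injective_iff_bijective.1 hti), mem_univ _, ?_⟩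
    ext x
    by_cases hx : x ∈ Set.range e
    · obtain ⟨y, rfl⟩ := hx
      rw [Perm.viaEmbedding_apply]
      exact ht y
    · rw [Perm.viaEmbedding_apply_of_notMem _ _ _ hx, hσ]
      rw [mem_map]
      rintro ⟨y, -, hy⟩
      exact hx ⟨y, hy⟩
  · intro τ _
    rfl

theorem sign_via (e : κ ↪ ι) (τ : Perm κ) : Perm.sign (τ.viaEmbedding e) = Perm.sign τ := by
  classical
  induction τ using Perm.swap_induction_on with
  | one => rw [via_one, Perm.sign_one, Perm.sign_one]
  | swap_mul f x y hxy ih =>
    rw [via_mul, Perm.sign_mul, Perm.sign_mul, ih, viaEmbedding_swap, Perm.sign_swap hxy,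
      Perm.sign_swap (fun h => hxy (e.injective h))]

/-- the group homomorphism of the basis elements -/
noncomputable def gh (α : Type) [Fintype α] [DecidableEq α] : Perm α →* P α where
  toFun := g
  map_one' := g_one
  map_mul' := g_mul

theorem anti_map (e : κ ↪ ι) : anti (gh ι) (univ.map e) = emb e (As κ) := by
  unfold anti As
  rw [sum_permsOn_map, map_sum]
  refine Finset.sum_congr rfl fun τ _ => ?_
  rw [map_zsmul, emb_g, sign_via]
  rfl

theorem act_anti {N : ℕ} (T : Finset ι) (hT : N < T.card) : act N ι (anti (gh ι) T) = 0 := by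
  have h1 : univ.map (Function.Embedding.subtype (fun x => x ∈ T)) = T := by
    ext x
    simp
  conv_lhs => rw [← h1]
  rw [anti_map]
  refine act_emb_eq_zero _ _ (act_As ?_)
  rw [Fintype.card_coe]
  exact hT

/-- a trace of transpositions is absorbed by the antisymmetrizer of rank `N` -/
theorem act_tr (N : ℕ) (e : Fin N ↪ ι) (z : ι) (hz : ∀ i, e i ≠ z) :
    act N ι ((∑ i, g (swap (e i) z)) * emb e (As (Fin N))) = act N ι (emb e (As (Fin N))) := by
  have hz' : z ∉ univ.map e := by
    rw [mem_map]
    rintro ⟨i, -, hi⟩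
    exact hz i hi
  have h1 := anti_insert (gh ι) (univ.map e) z hz'
  have h2 : act N ι (anti (gh ι) (insert z (univ.map e))) = 0 := by
    refine act_anti _ ?_
    rw [card_insert_of_notMem hz', card_map, card_univ, Fintype.card_fin]
    exact Nat.lt_succ_self N
  rw [h1, map_sub, sub_eq_zero, anti_map, sum_map] at h2
  rw [h2, Finset.sum_mul]
  congr 1
  refine Finset.sum_congr rfl fun i _ => ?_
  rw [swap_comm]
  rfl

end an

end Pool.PI34.EV
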