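import Pool.Agent.LibPI34.H4_Grp

/-!
PI34, block H4, file 6: the partial trace.
-/

set_option autoImplicit false
set_option linter.unusedSectionVars false
set_option linter.unusedDecidableInType false
set_option linter.unusedFintypeInType false

namespace Pool.PI34.H4

open Equiv Finset

section one

variable {α β : Type}

theorem rn_eq [DecidableEq α] (s : Perm (Option α)) (x : α) :
    some (removeNone s x) = if s (some x) = none then s none else s (some x) := by
  split_ifs with h
  · exact removeNone_none s h
  · exact removeNone_some s (Option.ne_none_iff_exists'.1 h)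

theorem rn_ext [DecidableEq α] (s : Perm (Option α)) (t : Perm α)
    (h : ∀ x, some (t x) = if s (some x) = none then s none else s (some x)) :
    removeNone s = t := by
  ext x
  apply Option.some_injective
  rw [rn_eq, h]

/-- The partial trace over one place. -/
noncomputable def T1 (N : ℕ) (α : Type) [DecidableEq α] : P (Option α) →+ P α :=
  MonoidAlgebra.liftNC (Int.castAddHom (P α))
    (fun s => (if s none = none then (N : ℤ) else 1) • g (removeNone s))

theorem T1_g [DecidableEq α] (N : ℕ) (s : Perm (Option α)) :
    T1 N α (g s) = (if s none = none then (N : ℤ) else 1) • g (removeNone s) := by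
  unfold T1 g
  rw [MonoidAlgebra.of_apply, MonoidAlgebra.liftNC_single]
  simp

theorem T1_zsmul [DecidableEq α] (N : ℕ) (n : ℤ) (y : P (Option α)) :
    T1 N α (n • y) = n • T1 N α y := map_zsmul _ _ _

theorem via_none (σ : Perm α) :
    σ.viaEmbedding (Function.Embedding.some : α ↪ Option α) none = none :=
  Perm.viaEmbedding_apply_of_notMem _ _ _ (by rintro ⟨x, hx⟩; exact Option.some_ne_none _ hx)

theorem via_some (σ : Perm α) (x : α) :
    σ.viaEmbedding (Function.Embedding.some : α ↪ Option α) (some x) = some (σ x) :=
  Perm.viaEmbedding_apply σ (Function.Embedding.some : α ↪ Option α) x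

theorem T1_emb_mul [DecidableEq α] (N : ℕ) (x : P α) (y : P (Option α)) :
    T1 N α (emb Function.Embedding.some x * y) = x * T1 N α y := by
  refine P_induction (p := fun x => T1 N α (emb Function.Embedding.some x * y) = x * T1 N α y) x
    ?_ ?_ ?_
  · intro σ
    refine P_induction (p := fun y => T1 N α (emb Function.Embedding.some (g σ) * y)
      = g σ * T1 N α y) y ?_ ?_ ?_
    · intro s
      rw [emb_g, ← g_mul, T1_g, T1_g]
      have h1 : ((σ.viaEmbedding (Function.Embedding.some : α ↪ Option α) * s) none = none)
          ↔ (s none = none) := by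
        rw [Perm.mul_apply]
        constructor
        · intro h
          exact Equiv.injective _ (h.trans (via_none σ).symm)
        · intro h
          rw [h, via_none]
      have h2 : removeNone (σ.viaEmbedding (Function.Embedding.some : α ↪ Option α) * s)
          = σ * removeNone s := by
        apply rn_ext
        intro x
        simp only [Perm.mul_apply]
        have h3 := rn_eq s x
        rcases hs : s (some x) with _ | y
        · rw [hs, if_pos rfl] at h3
          rw [via_none, if_pos rfl, ← h3, via_some]
        · rw [hs, if_neg (Option.some_ne_none _)] at h3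
          rw [via_some, if_neg (Option.some_ne_none _), Option.some_injective _ h3]
      rw [h2, g_mul, mul_smul_comm]
      simp only [h1]
    · intro a b ha hb
      rw [mul_add, map_add, map_add, mul_add, ha, hb]
    · intro n a ha
      rw [mul_smul_comm, T1_zsmul, T1_zsmul, ha, mul_smul_comm]
  · intro a b ha hb
    rw [map_add, add_mul, map_add, ha, hb, add_mul]
  · intro n a ha
    rw [emb_zsmul, smul_mul_assoc, T1_zsmul, ha, smul_mul_assoc]

theorem T1_mul_emb [DecidableEq α] (N : ℕ) (x : P α) (y : P (Option α)) :
    T1 N α (y * emb Function.Embedding.some x) = T1 N α y * x := by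
  refine P_induction (p := fun x => T1 N α (y * emb Function.Embedding.some x) = T1 N α y * x) x
    ?_ ?_ ?_
  · intro σ
    refine P_induction (p := fun y => T1 N α (y * emb Function.Embedding.some (g σ))
      = T1 N α y * g σ) y ?_ ?_ ?_
    · intro s
      rw [emb_g, ← g_mul, T1_g, T1_g]
      have h1 : ((s * σ.viaEmbedding (Function.Embedding.some : α ↪ Option α)) none = none)
          ↔ (s none = none) := by
        rw [Perm.mul_apply, via_none]
      have h2 : removeNone (s * σ.viaEmbedding (Function.Embedding.some : α ↪ Option α))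
          = removeNone s * σ := by
        apply rn_ext
        intro x
        simp only [Perm.mul_apply]
        rw [via_some, via_none]
        exact rn_eq s (σ x)
      rw [h2, g_mul, smul_mul_assoc]
      simp only [h1]
    · intro a b ha hb
      rw [add_mul, map_add, map_add, add_mul, ha, hb]
    · intro n a ha
      rw [smul_mul_assoc, T1_zsmul, T1_zsmul, ha, smul_mul_assoc]
  · intro a b ha hb
    rw [map_add, mul_add, map_add, ha, hb, mul_add]
  · intro n a ha
    rw [emb_zsmul, mul_smul_comm, T1_zsmul, ha, mul_smul_comm]

theorem T1_nat [DecidableEq α] [DecidableEq β] (N : ℕ) (ι : α ↪ β) (y : P (Option α)) :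
    T1 N β (emb ι.optionMap y) = emb ι (T1 N α y) := by
  refine P_induction (p := fun y => T1 N β (emb ι.optionMap y) = emb ι (T1 N α y)) y ?_ ?_ ?_
  · intro s
    rw [emb_g, T1_g, T1_g, emb_zsmul, emb_g]
    have h0 : s.viaEmbedding ι.optionMap none = ι.optionMap (s none) :=
      Perm.viaEmbedding_apply s ι.optionMap none
    have hm : ∀ o : Option α, ι.optionMap o = none ↔ o = none := by
      intro o
      cases o <;> simp
    have h1 : (s.viaEmbedding ι.optionMap none = none) ↔ (s none = none) := by
      rw [h0, hm]
    have h2 : removeNone (s.viaEmbedding ι.optionMap) = Perm.viaEmbedding (removeNone s) ι := by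
      apply rn_ext
      intro x
      by_cases hx : x ∈ Set.range ι
      · obtain ⟨a, rfl⟩ := hx
        have h3 : s.viaEmbedding ι.optionMap (some (ι a)) = ι.optionMap (s (some a)) :=
          Perm.viaEmbedding_apply s ι.optionMap (some a)
        rw [Perm.viaEmbedding_apply, h3, h0]
        have h4 := rn_eq s a
        simp only [hm]
        have h5 : some (ι (removeNone s a)) = ι.optionMap (some (removeNone s a)) := rfl
        rw [h5, h4]
        split_ifs <;> rfl
      · have h3 : s.viaEmbedding ι.optionMap (some x) = some x := by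
          apply Perm.viaEmbedding_apply_of_notMem
          rintro ⟨o, ho⟩
          cases o with
          | none => simp at ho
          | some a => exact hx ⟨a, by simpa using ho⟩
        rw [Perm.viaEmbedding_apply_of_notMem _ _ _ hx, h3, if_neg (Option.some_ne_none _)]
    rw [h2]
    simp only [h1]
  · intro a b ha hb
    rw [map_add, map_add, map_add, map_add, ha, hb]
  · intro n a ha
    rw [emb_zsmul, T1_zsmul, T1_zsmul, emb_zsmul, ha]

end one

section two

variable {α β : Type} [Fintype α] [DecidableEq α] [Fintype β] [DecidableEq β]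

/-- A function of words with one more letter. -/
def ext1 {N : ℕ} (f : W N α) (a : Fin N) : W N (Option α) :=
  fun v => if v none = a then f (v ∘ some) else 0

/-- A word with one more letter. -/
def cons1 {N : ℕ} (w : α → Fin N) (a : Fin N) : Option α → Fin N := fun o => o.elim a w

theorem act_T1 {N : ℕ} (y : P (Option α)) (f : W N α) (w : α → Fin N) :
    act N α (T1 N α y) f w = ∑ a, act N (Option α) y (ext1 f a) (cons1 w a) := by
  refine P_induction (p := fun y => act N α (T1 N α y) f w
    = ∑ a, act N (Option α) y (ext1 f a) (cons1 w a)) y ?_ ?_ ?_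
  · intro s
    rw [T1_g, act_zsmul, Pi.smul_apply, act_g]
    simp only [act_g]
    rcases hs : s none with _ | x0
    · rw [if_pos rfl]
      have h1 : ∀ a : Fin N, ext1 f a (cons1 w a ∘ s) = f (w ∘ removeNone s) := by
        intro a
        unfold ext1
        have h2 : (cons1 w a ∘ s) none = a := by
          simp only [Function.comp_apply, hs]
          rfl
        rw [if_pos h2]
        congr 1
        funext x
        have h3 := rn_eq s x
        have h4 : s (some x) ≠ none := by
          intro h
          rw [← hs] at h
          exact Option.some_ne_none x (s.injective h)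
        rw [if_neg h4] at h3
        simp only [Function.comp_apply, ← h3]
        rfl
      rw [Finset.sum_congr rfl (fun a _ => h1 a), Finset.sum_const, Finset.card_univ,
        Fintype.card_fin]
      simp
    · rw [if_neg (Option.some_ne_none x0), one_smul, Finset.sum_eq_single (w x0)]
      · unfold ext1
        have h2 : (cons1 w (w x0) ∘ s) none = w x0 := by
          simp only [Function.comp_apply, hs]
          rfl
        rw [if_pos h2]
        congr 1
        funext x
        have h3 := rn_eq s x
        simp only [Function.comp_apply]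
        rcases h4 : s (some x) with _ | y
        · rw [h4, if_pos rfl, hs] at h3
          rw [Option.some_injective _ h3]
          rfl
        · rw [h4, if_neg (Option.some_ne_none _)] at h3
          rw [Option.some_injective _ h3]
          rfl
      · intro a _ ha
        unfold ext1
        rw [if_neg]
        simp only [Function.comp_apply, hs]
        intro h
        exact ha h.symm
      · intro h
        exact absurd (mem_univ _) h
  · intro a b ha hb
    rw [map_add, act_add, Pi.add_apply, ha, hb, ← Finset.sum_add_distrib]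
    exact Finset.sum_congr rfl (fun c _ => by rw [act_add, Pi.add_apply])
  · intro n a ha
    rw [T1_zsmul, act_zsmul, Pi.smul_apply, ha, Finset.smul_sum]
    exact Finset.sum_congr rfl (fun c _ => by rw [act_zsmul, Pi.smul_apply])

theorem act_T1_eq_zero {N : ℕ} (y : P (Option α)) (h : act N (Option α) y = 0) :
    act N α (T1 N α y) = 0 := by
  refine LinearMap.ext (fun f => ?_)
  funext w
  rw [act_T1]
  exact Finset.sum_eq_zero (fun a _ => by rw [h]; rfl)

/-- The trace on the words. -/
noncomputable def tc (N : ℕ) (y : P α) : ℚ := ∑ w, act N α y (Pi.single w 1) w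

theorem ext1_single {N : ℕ} (w : α → Fin N) (a : Fin N) :
    ext1 (Pi.single w (1 : ℚ) : W N α) a = (Pi.single (cons1 w a) 1 : W N (Option α)) := by
  funext v
  unfold ext1
  by_cases hv : v = cons1 w a
  · subst hv
    have e1 : cons1 w a none = a := rfl
    have e2 : cons1 w a ∘ some = w := rfl
    rw [if_pos e1, e2, Pi.single_eq_same, Pi.single_eq_same]
  · rw [Pi.single_eq_of_ne hv]
    split_ifs with h2
    · rw [Pi.single_eq_of_ne]
      intro h3
      apply hv
      funext o
      cases o with
      | none => exact h2
      | some x => exact congrFun h3 x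
    · rfl

theorem tc_T1 {N : ℕ} (y : P (Option α)) : tc N (T1 N α y) = tc N y := by
  unfold tc
  have h1 : ∀ w : α → Fin N, act N α (T1 N α y) (Pi.single w 1) w
      = ∑ a, act N (Option α) y (Pi.single (cons1 w a) 1) (cons1 w a) := by
    intro w
    rw [act_T1]
    refine Finset.sum_congr rfl (fun a _ => ?_)
    rw [ext1_single]
  rw [Finset.sum_congr rfl (fun w _ => h1 w), ← Finset.sum_product']
  refine Finset.sum_bij' (fun p _ => cons1 p.1 p.2) (fun v _ => (v ∘ some, v none)) ?_ ?_ ?_ ?_ ?_
  · intro p _
    exact mem_univ _
  · intro v _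
    exact mem_univ _
  · intro p _
    rfl
  · intro v _
    funext o
    cases o <;> rfl
  · intro p _
    rfl

theorem tc_emb {N : ℕ} (e : β ≃ α) (y : P β) : tc N (emb e.toEmbedding y) = tc N y := by
  unfold tc
  refine Fintype.sum_equiv (Equiv.arrowCongr e.symm (Equiv.refl (Fin N))) _ _ (fun w => ?_)
  have h1 : (Equiv.arrowCongr e.symm (Equiv.refl (Fin N))) w = w ∘ e := by
    funext x
    simp [Equiv.arrowCongr_apply]
  have h6 : (fun v => (Pi.single w 1 : W N α) (glue e.toEmbedding v w))
      = (Pi.single (w ∘ e) 1 : W N β) := by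
    funext v
    have h2 : glue e.toEmbedding v w = v ∘ e.symm := by
      funext x
      obtain ⟨z, rfl⟩ := e.surjective x
      have h3 := glue_apply e.toEmbedding v w z
      simp only [Function.comp_apply, Equiv.symm_apply_apply]
      exact h3
    rw [h2]
    by_cases hv : v = w ∘ e
    · subst hv
      have h4 : (w ∘ e) ∘ e.symm = w := by
        funext x
        simp
      rw [h4, Pi.single_eq_same, Pi.single_eq_same]
    · rw [Pi.single_eq_of_ne hv, Pi.single_eq_of_ne]
      intro h5
      apply hv
      rw [← h5]
      funext x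
      simp
  rw [h1, act_emb, h6]
  rfl

theorem sign_via (ι : α ↪ β) (s : Perm α) : Perm.sign (s.viaEmbedding ι) = Perm.sign s := by
  classical
  unfold Perm.viaEmbedding
  rw [Perm.sign_extendDomain]

theorem swap_via (ι : α ↪ β) (i j : α) :
    (swap i j).viaEmbedding ι = swap (ι i) (ι j) := by
  ext z
  by_cases hz : z ∈ Set.range ι
  · obtain ⟨x, rfl⟩ := hz
    rw [Perm.viaEmbedding_apply]
    rcases eq_or_ne x i with rfl | hi
    · rw [swap_apply_left, swap_apply_left]
    · rcases eq_or_ne x j with rfl | hj
      · rw [swap_apply_right, swap_apply_right]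
      · rw [swap_apply_of_ne_of_ne hi hj,
          swap_apply_of_ne_of_ne (fun h => hi (ι.injective h)) (fun h => hj (ι.injective h))]
  · rw [Perm.viaEmbedding_apply_of_notMem _ _ _ hz, swap_apply_of_ne_of_ne]
    · rintro rfl
      exact hz ⟨i, rfl⟩
    · rintro rfl
      exact hz ⟨j, rfl⟩

theorem emb_one_add_swap (ι : α ↪ β) (i j : α) :
    emb ι (1 + g (swap i j)) = 1 + g (swap (ι i) (ι j)) := by
  rw [map_add, map_one, emb_g, swap_via]

/-- the signed sum of a colouring after an embedding: all colour preserving permutations come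
from below -/
theorem Ac_emb {C D : Type} [DecidableEq C] [DecidableEq D] (ι : α ↪ β) (c : α → C) (d : β → D)
    (h1 : ∀ x y, c x = c y ↔ d (ι x) = d (ι y))
    (h2 : ∀ z, z ∉ Set.range ι → ∀ y, d y = d z → y = z) : Ac d = emb ι (Ac c) := by
  unfold Ac
  rw [map_sum]
  symm
  have hfix : ∀ t : Perm β, d ∘ t = d → ∀ z, z ∉ Set.range ι → t z = z := by
    intro t ht z hz
    exact h2 z hz _ (congrFun ht z)
  have hran : ∀ t : Perm β, d ∘ t = d → ∀ x, t (ι x) ∈ Set.range ι := by
    intro t ht x
    by_contra hno
    have h3 := hfix t ht _ hno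
    have h4 := t.injective h3
    rw [h4] at hno
    exact hno ⟨x, rfl⟩
  refine Finset.sum_bij (fun s _ => s.viaEmbedding ι) ?_ ?_ ?_ ?_
  · intro s hs
    rw [mem_filter] at hs ⊢
    refine ⟨mem_univ _, ?_⟩
    funext z
    simp only [Function.comp_apply]
    by_cases hz : z ∈ Set.range ι
    · obtain ⟨x, rfl⟩ := hz
      rw [Perm.viaEmbedding_apply]
      exact (h1 _ _).1 (congrFun hs.2 x)
    · rw [Perm.viaEmbedding_apply_of_notMem _ _ _ hz]
  · intro s _ t _ hst
    exact Perm.viaEmbeddingHom_injective ι hst
  · intro t ht
    rw [mem_filter] at ht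
    have ht2 := ht.2
    have htinv : d ∘ t.symm = d := by
      funext z
      have h3 := congrFun ht2 (t.symm z)
      simp only [Function.comp_apply, Equiv.apply_symm_apply] at h3
      exact h3.symm
    choose f hf using hran t ht2
    choose f' hf' using hran t.symm htinv
    let s : Perm α :=
      { toFun := f
        invFun := f'
        left_inv := by
          intro x
          apply ι.injective
          rw [hf', hf, Equiv.symm_apply_apply]
        right_inv := by
          intro x
          apply ι.injective
          rw [hf, hf', Equiv.apply_symm_apply] }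
    have hs : s.viaEmbedding ι = t := by
      ext z
      by_cases hz : z ∈ Set.range ι
      · obtain ⟨x, rfl⟩ := hz
        rw [Perm.viaEmbedding_apply]
        exact hf x
      · rw [Perm.viaEmbedding_apply_of_notMem _ _ _ hz, hfix t ht2 z hz]
    refine ⟨s, ?_, hs⟩
    rw [mem_filter]
    refine ⟨mem_univ _, ?_⟩
    funext x
    simp only [Function.comp_apply]
    rw [h1]
    have h3 : ι (s x) = t (ι x) := hf x
    rw [h3]
    exact congrFun ht2 (ι x)
  · intro s _
    rw [emb_zsmul, emb_g, sign_via]

theorem J_map {C D : Type} [DecidableEq C] [DecidableEq D] {N : ℕ} (c : α → C) (d : β → D)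
    (φ : P β →+ P α)
    (h1 : ∀ (i j : β) (a : P β), i ≠ j → d i = d j → φ ((1 + g (swap i j)) * a) ∈ J N c)
    (h2 : ∀ b : P β, φ (b * Ac d) ∈ J N c)
    (h3 : ∀ x : P β, act N β x = 0 → act N α (φ x) = 0) (x : P β) (hx : x ∈ J N d) :
    φ x ∈ J N c := by
  have h4 : J N d ≤ (J N c).comap φ := by
    unfold J
    rw [AddSubgroup.closure_le]
    rintro y ((⟨i, j, a, hij, hc, rfl⟩ | ⟨b, rfl⟩) | hy)
    · exact h1 i j a hij hc
    · exact h2 b
    · exact AddSubgroup.subset_closure (Or.inr (h3 y hy))
  exact h4 hx

theorem J_T1 {C : Type} [DecidableEq C] {N : ℕ} (c : α → C) (x : P (Option α))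
    (hx : x ∈ J N (Option.map c)) : T1 N α x ∈ J N c := by
  refine J_map c (Option.map c) (T1 N α) ?_ ?_ ?_ x hx
  · intro i j a hij hc
    rcases i with _ | i
    · rcases j with _ | j
      · exact absurd rfl hij
      · simp at hc
    · rcases j with _ | j
      · simp at hc
      · have h1 : (1 + g (swap (some i) (some j)) : P (Option α))
            = emb Function.Embedding.some (1 + g (swap i j)) := by
          rw [emb_one_add_swap]
          rfl
        rw [h1, T1_emb_mul]
        apply AddSubgroup.subset_closure
        refine Or.inl (Or.inl ⟨i, j, _, ?_, ?_, rfl⟩)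
        · rintro rfl
          exact hij rfl
        · simpa using hc
  · intro b
    have h1 : Ac (Option.map c) = emb Function.Embedding.some (Ac c) := by
      apply Ac_emb
      · intro x y
        simp
      · intro z hz y hy
        rcases z with _ | z
        · simpa using hy
        · exact absurd ⟨z, rfl⟩ hz
    rw [h1, T1_mul_emb]
    exact AddSubgroup.subset_closure (Or.inl (Or.inr ⟨_, rfl⟩))
  · exact act_T1_eq_zero

theorem J_emb {C D : Type} [DecidableEq C] [DecidableEq D] {N : ℕ} (e : β ≃ α) (c : α → C)
    (d : β → D) (hcd : ∀ x y, d x = d y ↔ c (e x) = c (e y)) (x : P β) (hx : x ∈ J N d) :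
    emb e.toEmbedding x ∈ J N c := by
  refine J_map c d (emb e.toEmbedding).toAddMonoidHom ?_ ?_ ?_ x hx
  · intro i j a hij hc
    have h1 : (emb e.toEmbedding).toAddMonoidHom ((1 + g (swap i j)) * a)
        = (1 + g (swap (e i) (e j))) * emb e.toEmbedding a := by
      have h2 : (emb e.toEmbedding).toAddMonoidHom ((1 + g (swap i j)) * a)
        = emb e.toEmbedding ((1 + g (swap i j)) * a) := rfl
      rw [h2, map_mul, emb_one_add_swap]
      rfl
    rw [h1]
    apply AddSubgroup.subset_closure
    exact Or.inl (Or.inl ⟨e i, e j, _, fun h => hij (e.injective h), (hcd i j).1 hc, rfl⟩)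
  · intro b
    have h1 : Ac c = emb e.toEmbedding (Ac d) := by
      apply Ac_emb
      · intro x y
        exact hcd x y
      · intro z hz
        exact absurd ⟨e.symm z, e.apply_symm_apply z⟩ hz
    have h2 : (emb e.toEmbedding).toAddMonoidHom (b * Ac d) = emb e.toEmbedding b * Ac c := by
      have h3 : (emb e.toEmbedding).toAddMonoidHom (b * Ac d) = emb e.toEmbedding (b * Ac d) := rfl
      rw [h3, map_mul, h1]
    rw [h2]
    exact AddSubgroup.subset_closure (Or.inl (Or.inr ⟨_, rfl⟩))
  · intro y hy
    exact act_emb_eq_zero e.toEmbedding y hy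

end two

section three

/-- Removing the first place. -/
def eo (m : ℕ) (T : Type) : Fin (m + 1) ⊕ T ≃ Option (Fin m ⊕ T) where
  toFun := Sum.elim (fun i => Option.map Sum.inl (finSuccEquiv m i)) (fun t => some (Sum.inr t))
  invFun := fun o => o.elim (Sum.inl 0) (Sum.elim (fun i => Sum.inl i.succ) Sum.inr)
  left_inv := by
    rintro (i | t)
    · refine Fin.cases ?_ (fun i => ?_) i
      · simp
      · simp
    · rfl
  right_inv := by
    rintro (_ | (i | t))
    · simp
    · simp
    · rfl

theorem eo_inl (m : ℕ) (T : Type) (i : Fin (m + 1)) :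
    eo m T (Sum.inl i) = Option.map Sum.inl (finSuccEquiv m i) := rfl

theorem eo_inr (m : ℕ) (T : Type) (t : T) : eo m T (Sum.inr t) = some (Sum.inr t) := rfl

theorem eo_col (m : ℕ) {T C : Type} (c : T → C) (x y : Fin (m + 1) ⊕ T) :
    (Sum.map id c x : Fin (m + 1) ⊕ C) = Sum.map id c y ↔
      Option.map (Sum.map id c : Fin m ⊕ T → Fin m ⊕ C) (eo m T x)
        = Option.map (Sum.map id c : Fin m ⊕ T → Fin m ⊕ C) (eo m T y) := by
  rcases x with i | t
  · rcases y with j | u
    · rw [eo_inl, eo_inl]
      refine Fin.cases ?_ (fun i => ?_) i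
      · refine Fin.cases ?_ (fun j => ?_) j
        · simp
        · simp [(Fin.succ_ne_zero j).symm]
      · refine Fin.cases ?_ (fun j => ?_) j
        · simp [Fin.succ_ne_zero i]
        · simp
    · rw [eo_inl, eo_inr]
      refine Fin.cases ?_ (fun i => ?_) i
      · simp
      · simp
  · rcases y with j | u
    · rw [eo_inl, eo_inr]
      refine Fin.cases ?_ (fun j => ?_) j
      · simp
      · simp
    · rw [eo_inr, eo_inr]
      simp

theorem J_trace' {N : ℕ} {T C : Type} [Fintype T] [DecidableEq T] [DecidableEq C] (c : T → C)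
    (m : ℕ) : ∀ (z : P (Fin m)) (n : ℤ),
      n • emb Function.Embedding.inl z ∈ J N (Sum.map id c : Fin m ⊕ T → Fin m ⊕ C) →
      ∃ d : ℤ, (d : ℚ) = tc N z ∧ (n * d) • (1 : P T) ∈ J N c := by
  induction m with
  | zero =>
    intro z n h
    obtain ⟨d, rfl⟩ : ∃ d : ℤ, z = d • 1 := by
      refine P_induction (p := fun z => ∃ d : ℤ, z = d • 1) z ?_ ?_ ?_
      · intro σ
        exact ⟨1, by rw [one_smul, Subsingleton.elim σ 1, g_one]⟩
      · rintro x y ⟨a, rfl⟩ ⟨b, rfl⟩
        exact ⟨a + b, (add_smul _ _ _).symm⟩
      · rintro k x ⟨a, rfl⟩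
        exact ⟨k * a, smul_smul _ _ _⟩
    refine ⟨d, ?_, ?_⟩
    · unfold tc
      rw [Fintype.sum_unique, act_zsmul, act_one, Pi.smul_apply, Pi.single_eq_same]
      simp
    · have h1 := J_emb (Equiv.emptySum (Fin 0) T) c (Sum.map id c : Fin 0 ⊕ T → Fin 0 ⊕ C)
        (by
          rintro (i | t) (j | u)
          · exact i.elim0
          · exact i.elim0
          · exact j.elim0
          · simp) _ h
      rw [emb_zsmul, emb_zsmul, emb_zsmul, map_one, map_one, smul_smul] at h1
      exact h1
  | succ m ih =>
    intro z n h
    have h1 := J_emb (eo m T) (Option.map (Sum.map id c : Fin m ⊕ T → Fin m ⊕ C))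
      (Sum.map id c : Fin (m + 1) ⊕ T → Fin (m + 1) ⊕ C) (eo_col m c) _ h
    have h2 := J_T1 _ _ h1
    have h3 : emb (eo m T).toEmbedding (emb Function.Embedding.inl z)
        = emb (Function.Embedding.optionMap (Function.Embedding.inl : Fin m ↪ Fin m ⊕ T))
          (emb (finSuccEquiv m).toEmbedding z) := by
      rw [emb_trans, emb_trans]
      rfl
    rw [emb_zsmul, h3, T1_zsmul, T1_nat] at h2
    obtain ⟨d, hd, hd'⟩ := ih _ n h2
    refine ⟨d, ?_, hd'⟩
    rw [hd, tc_T1, tc_emb]

/-- The partial trace over the left places. -/
theorem J_trace {N m : ℕ} {T C : Type} [Fintype T] [DecidableEq T] [DecidableEq C] (c : T → C)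
    (z : P (Fin m)) (n : ℤ)
    (h : n • emb Function.Embedding.inl z ∈ J N (Sum.map id c : Fin m ⊕ T → Fin m ⊕ C)) :
    ∃ d : ℤ, (d : ℚ) = ∑ w, act N (Fin m) z (Pi.single w 1) w ∧
      (n * d) • (1 : P T) ∈ J N c :=
  J_trace' c m z n h

end three

end Pool.PI34.H4
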