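import Pool.Agent.LibPI34.H4_Tel
import Pool.Agent.LibPI34.H4_Tr

/-!
PI34, block H4, file 10: the catalyst lemma.
-/

set_option autoImplicit false
set_option linter.unusedSectionVars false
set_option linter.unusedDecidableInType false
set_option linter.unusedFintypeInType false

namespace Pool.PI34.H4

open Equiv Finset

/-- The columns: `Q - 1` columns of each length below `N`. -/
theorem exists_cols (N Q : ℕ) (hQ : 1 ≤ Q) :
    ∃ (m : ℕ) (col : Fin m → Fin N × Fin (Q - 1)) (row : Fin m → Fin N),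
      Cols col row (fun p => (p.1 : ℕ)) ∧
        ∀ a, (cnt row a : ℤ) = ((Q : ℤ) - 1) * ((N : ℤ) - 1 - (a : ℕ)) := by
  let S := Σ p : Fin N × Fin (Q - 1), Fin (p.1 : ℕ)
  let e : Fin (Fintype.card S) ≃ S := (Fintype.equivFin S).symm
  let col : Fin (Fintype.card S) → Fin N × Fin (Q - 1) := fun x => (e x).1
  let row : Fin (Fintype.card S) → Fin N :=
    fun x => ⟨(e x).2, lt_trans (e x).2.2 (e x).1.1.2⟩
  have hc : Cols col row (fun p => (p.1 : ℕ)) := by
    refine ⟨fun x => (e x).2.2, fun p i hi => ?_, fun x y h1 h2 => ?_⟩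
    · refine ⟨e.symm ⟨p, ⟨i, hi⟩⟩, ?_, ?_⟩
      · exact congrArg (fun s : S => s.1) (e.apply_symm_apply (⟨p, ⟨i, hi⟩⟩ : S))
      · exact congrArg (fun s : S => (s.2 : ℕ)) (e.apply_symm_apply (⟨p, ⟨i, hi⟩⟩ : S))
    · apply e.injective
      have h3 : ((e x).2 : ℕ) = (e y).2 := congrArg Fin.val h2
      have h4 : (e x).1 = (e y).1 := h1
      generalize e x = sx at h3 h4
      generalize e y = sy at h3 h4
      obtain ⟨p, i⟩ := sx
      obtain ⟨q, j⟩ := sy
      simp only at h3 h4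
      subst h4
      rw [Fin.ext h3]
  refine ⟨Fintype.card S, col, row, hc, fun a => ?_⟩
  have h1 : cnt row a = ((Finset.Ioi a) ×ˢ (univ : Finset (Fin (Q - 1)))).card := by
    unfold cnt
    refine Finset.card_bij (fun x _ => col x) ?_ ?_ ?_
    · intro x hx
      rw [mem_filter] at hx
      rw [Finset.mem_product, Finset.mem_Ioi]
      refine ⟨?_, mem_univ _⟩
      have := hc.lt x
      rw [hx.2] at this
      exact this
    · intro x hx y hy hxy
      rw [mem_filter] at hx hy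
      exact hc.inj x y hxy (hx.2.trans hy.2.symm)
    · intro p hp
      rw [Finset.mem_product, Finset.mem_Ioi] at hp
      obtain ⟨x, hx1, hx2⟩ := hc.ex p (a : ℕ) hp.1
      refine ⟨x, ?_, hx1⟩
      rw [mem_filter]
      exact ⟨mem_univ _, Fin.ext hx2⟩
  rw [h1, Finset.card_product, Fin.card_Ioi, Finset.card_univ, Fintype.card_fin]
  have h2 : (a : ℕ) < N := a.2
  rw [Nat.cast_mul, Nat.cast_sub hQ, Nat.cast_sub (by omega), Nat.cast_sub (by omega)]
  push_cast
  ring

/-- **The catalyst lemma.** -/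
theorem CL (N Q : ℕ) (hQ : 1 ≤ Q) : ∃ D : ℤ, 0 < D ∧
    ∀ (T C : Type) [Fintype T] [DecidableEq T] [DecidableEq C] (c : T → C),
      ∃ u : ℤ, IsCoprime u (Q : ℤ) ∧ (u * D) • (1 : P T) ∈ J N c := by
  obtain ⟨m, col, row, hc, hrow⟩ := exists_cols N Q hQ
  obtain ⟨z0, hSA, hne, hz0⟩ := exists_z hc
  let z : P (Fin m) := z0 * z0
  have hz : ZP N (Q : ℤ) z := by
    intro u' h1 h2 w hw a
    have e : act N _ z u' = act N _ z0 (act N _ z0 u') := act_mul N z0 z0 u'
    rw [e] at h1 h2 hw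
    rw [hz0 _ h1 h2 w hw a, hrow]
  have htr := trace_sq_pos hSA row hne
  obtain ⟨d0, hd0, _⟩ := J_trace (N := N) (fun _ : Fin 0 => (0 : ℕ)) z 0
    (by rw [zero_smul]; exact AddSubgroup.zero_mem _)
  have hd0' : 0 < d0 := by
    have : (0 : ℚ) < d0 := by rw [hd0]; exact htr
    exact_mod_cast this
  refine ⟨((N + 1).factorial : ℤ) * d0, by positivity, fun T C _ _ _ c => ?_⟩
  by_cases h : ∀ a, (univ.filter (fun t => c t = a)).card ≤ N
  · obtain ⟨F, hF, hJ⟩ := catalyst hz c h
    obtain ⟨d, hd, hJ'⟩ := J_trace c z _ hJ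
    have hdd : d = d0 := by
      have : (d : ℚ) = d0 := by rw [hd, hd0]
      exact_mod_cast this
    refine ⟨F, hF, ?_⟩
    have e : F * (((N + 1).factorial : ℤ) * d0) = ((N : ℤ) + 1) * ((N.factorial : ℤ) * F * d) := by
      rw [hdd, Nat.factorial_succ]
      push_cast
      ring
    rw [e, mul_smul]
    exact (J N c).zsmul_mem hJ' _
  · push Not at h
    obtain ⟨a, ha⟩ := h
    refine ⟨1, isCoprime_one_left, ?_⟩
    rw [one_mul, mul_comm, mul_smul]
    exact (J N c).zsmul_mem (large_block c a ha) _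

end Pool.PI34.H4
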