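import Pool.Agent.LibPI34.S2_G
import Pool.Agent.LibPI34.H4_CL

/-!
PI34, block S2, file 2: naturality, exterior coefficients, multilinearity of the word automaton.
-/

set_option autoImplicit false

namespace Pool.PI34.SS

open Equiv Finset

section nat

variable {A B : Type*} [Ring A] [Ring B] {X : Type} [DecidableEq X]

theorem GG_natural (ψ : A →+* B) (α : X → A) (P : FA X) (l : List (X × A)) :
    GG (fun y => ψ (α y)) P (l.map (fun q => (q.1, ψ q.2))) = ψ (GG α P l) := by
  have h := theta_rel α (theta (fun y => ψ (α y)))
    (fun F F' => ∀ l : List (X × A), F' (l.map (fun q => (q.1, ψ q.2))) = ψ (F l))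
    (fun r F m h l => by
      rw [Pi.smul_apply, Pi.smul_apply, h, map_zsmul])
    (fun F m F' m' h h' l => by
      rw [Pi.add_apply, Pi.add_apply, h, h', map_add])
    (fun y F m h l => by
      rw [theta_of]
      cases l with
      | nil =>
        simp only [List.map_nil, stp]
        have := h []
        rw [List.map_nil] at this
        rw [this, map_mul]
      | cons q l =>
        simp only [List.map_cons, stp]
        have h1 := h (q :: l)
        rw [List.map_cons] at h1
        rw [h1, h l, map_add, map_mul]
        congr 1
        split_ifs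
        · rw [map_mul]
        · rw [map_zero]) P (F0 X A) (F0 X B)
    (fun l => by
      cases l with
      | nil => simp [F0]
      | cons q l => simp [F0])
  exact h l

theorem GG_ext {b : ℕ} (α : X → A) (P : FA X) (l : List (X × A × Lam b)) :
    GG (fun y => GT.mk (α y) (1 : Lam b)) P (l.map (fun q => (q.1, GT.mk q.2.1 q.2.2))) =
      GT.mk (GG α P (l.map (fun q => (q.1, q.2.1)))) ((l.map (fun q => q.2.2)).prod) := by
  have h := theta_rel α (theta (fun y => GT.mk (α y) (1 : Lam b)))
    (fun F F' => ∀ l : List (X × A × Lam b), F' (l.map (fun q => (q.1, GT.mk q.2.1 q.2.2))) =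
      GT.mk (F (l.map (fun q => (q.1, q.2.1)))) ((l.map (fun q => q.2.2)).prod))
    (fun r F m h l => by
      rw [Pi.smul_apply, Pi.smul_apply, h]
      exact (map_zsmul (GT.mkHom A _) r _).symm)
    (fun F m F' m' h h' l => by
      rw [Pi.add_apply, Pi.add_apply, h, h', GT.mk_add])
    (fun y F m h l => by
      rw [theta_of]
      cases l with
      | nil =>
        simp only [List.map_nil, stp, List.prod_nil]
        have := h []
        rw [List.map_nil, List.map_nil, List.map_nil, List.prod_nil] at this
        rw [this, GT.mk_mul, one_mul]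
      | cons q l =>
        simp only [List.map_cons, stp, List.prod_cons]
        have h1 := h (q :: l)
        rw [List.map_cons, List.map_cons, List.map_cons, List.prod_cons] at h1
        rw [h1, h l, GT.mk_mul, one_mul, GT.mk_add]
        congr 1
        split_ifs
        · rw [GT.mk_mul]
        · rw [GT.mk_zero]) P (F0 X A) (F0 X (GT A b))
    (fun l => by
      cases l with
      | nil => simp [F0]; rfl
      | cons q l => simp [F0, GT.mk_zero])
  exact h l

end nat

section lin

variable {C A : Type*} [CommRing C] [Ring A] [Algebra C A] {X : Type} [DecidableEq X]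

theorem GG_lin (α : X → A) (P : FA X) (l1 : List (X × A)) (d : X) (c : C) (x x' : A)
    (l2 : List (X × A)) :
    GG α P (l1 ++ (d, c • x + x') :: l2) =
      c • GG α P (l1 ++ (d, x) :: l2) + GG α P (l1 ++ (d, x') :: l2) := by
  have h := theta_rel α (theta α)
    (fun F F' => F = F' ∧ ∀ (l1 : List (X × A)) (d : X) (c : C) (x x' : A) (l2 : List (X × A)),
      F (l1 ++ (d, c • x + x') :: l2) = c • F (l1 ++ (d, x) :: l2) + F (l1 ++ (d, x') :: l2))
    (fun r F m h => ⟨by rw [h.1], fun l1 d c x x' l2 => by
      rw [Pi.smul_apply, Pi.smul_apply, Pi.smul_apply, h.2, smul_add, smul_comm r c]⟩)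
    (fun F m F' m' h h' => ⟨by rw [h.1, h'.1], fun l1 d c x x' l2 => by
      rw [Pi.add_apply, Pi.add_apply, Pi.add_apply, h.2, h'.2, smul_add]
      abel⟩)
    (fun y F m h => ⟨by rw [theta_of, h.1], fun l1 d c x x' l2 => by
      cases l1 with
      | nil =>
        simp only [List.nil_append, stp]
        have h1 := h.2 [] d c x x' l2
        simp only [List.nil_append] at h1
        rw [h1]
        split_ifs
        · rw [mul_add, add_mul, smul_add, mul_smul_comm, smul_mul_assoc]
          abel
        · rw [mul_add, mul_smul_comm]
          simp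
      | cons q l1 =>
        simp only [List.cons_append, stp]
        have h1 := h.2 (q :: l1) d c x x' l2
        simp only [List.cons_append] at h1
        rw [h1, h.2]
        split_ifs
        · rw [mul_add, mul_add, smul_add, mul_smul_comm, mul_smul_comm]
          abel
        · rw [mul_add, mul_smul_comm]
          simp⟩) P (F0 X A) (F0 X A)
    ⟨rfl, fun l1 d c x x' l2 => by
      have h0 : ∀ (l1 : List (X × A)) (q : X × A) (l2 : List (X × A)),
          F0 X A (l1 ++ q :: l2) = 0 := by
        intro l1 q l2
        cases l1 <;> rfl
      rw [h0, h0, h0, smul_zero, add_zero]⟩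
  exact h.2 l1 d c x x' l2

theorem ofFn_update {b : ℕ} {γ : Type*} (f : Fin b → γ) (i : Fin b) :
    ∃ l1 l2 : List γ, ∀ x, List.ofFn (Function.update f i x) = l1 ++ x :: l2 := by
  induction b with
  | zero => exact i.elim0
  | succ b ih =>
    refine Fin.cases ?_ (fun j => ?_) i
    · refine ⟨[], List.ofFn (fun j => f j.succ), fun x => ?_⟩
      rw [List.ofFn_succ, Function.update_self, List.nil_append]
      congr 1
    · obtain ⟨l1, l2, h⟩ := ih (fun j => f j.succ) j
      refine ⟨f 0 :: l1, l2, fun x => ?_⟩
      rw [List.ofFn_succ, List.cons_append, ← h x]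
      congr 1
      congr 1
      funext t
      by_cases ht : t = j
      · subst ht
        rw [Function.update_self, Function.update_self]
      · rw [Function.update_of_ne ht, Function.update_of_ne (fun e => ht (Fin.succ_injective _ e))]

/-- The word automaton as a multilinear map. -/
noncomputable def GM (C : Type*) [CommRing C] [Algebra C A] (α : X → A) (P : FA X) {b : ℕ}
    (d : Fin b → X) : MultilinearMap C (fun _ : Fin b => A) A :=
  have key : ∀ (m : Fin b → A) (i : Fin b) (c : C) (x x' : A),
      GG α P (List.ofFn (fun j => (d j, Function.update m i (c • x + x') j))) =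
        c • GG α P (List.ofFn (fun j => (d j, Function.update m i x j))) +
          GG α P (List.ofFn (fun j => (d j, Function.update m i x' j))) := by
    intro m i c x x'
    obtain ⟨l1, l2, h⟩ := ofFn_update (fun j => (d j, m j)) i
    have h1 : ∀ x, List.ofFn (fun j => (d j, Function.update m i x j)) = l1 ++ (d i, x) :: l2 := by
      intro x
      rw [← h (d i, x)]
      congr 1
      funext j
      by_cases hj : j = i
      · subst hj
        rw [Function.update_self, Function.update_self]
      · rw [Function.update_of_ne hj, Function.update_of_ne hj]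
    rw [h1, h1, h1, GG_lin]
  { toFun := fun β => GG α P (List.ofFn (fun i => (d i, β i)))
    map_update_add' := by
      intro inst m i x y
      have hi : inst = instDecidableEqFin b := Subsingleton.elim _ _
      subst hi
      have h := key m i 1 x y
      rw [one_smul, one_smul] at h
      exact h
    map_update_smul' := by
      intro inst m i c x
      have hi : inst = instDecidableEqFin b := Subsingleton.elim _ _
      subst hi
      have h := key m i c x 0
      have h0 := key m i (1 : C) 0 0
      rw [one_smul, one_smul, add_zero] at h0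
      have h1 : GG α P (List.ofFn (fun j => (d j, Function.update m i 0 j))) = 0 := by
        have : GG α P (List.ofFn (fun j => (d j, Function.update m i 0 j))) + 0 =
          GG α P (List.ofFn (fun j => (d j, Function.update m i 0 j))) +
            GG α P (List.ofFn (fun j => (d j, Function.update m i 0 j))) := by rw [add_zero]; exact h0
        exact (add_left_cancel this).symm
      rw [h1, add_zero, add_zero] at h
      exact h }

theorem GM_apply (α : X → A) (P : FA X) {b : ℕ} (d : Fin b → X) (β : Fin b → A) :
    GM C α P d β = GG α P (List.ofFn (fun i => (d i, β i))) := rfl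

end lin

/-! ### Evaluation of elements of the group algebra -/

section ev

open Pool.PI34.H4 (P W act)

variable {T M : Type} [Fintype T] [DecidableEq T] [AddCommGroup M]

/-- The additive map with given values on the permutations. -/
noncomputable def evP (φ : Perm T → M) : P T →+ M where
  toFun x := ∑ t, x.coeff t • φ t
  map_zero' := by simp
  map_add' x y := by
    rw [← Finset.sum_add_distrib]
    refine Finset.sum_congr rfl (fun t _ => ?_)
    rw [MonoidAlgebra.coeff_add, Finsupp.add_apply, add_smul]

theorem evP_g (φ : Perm T → M) (t : Perm T) : evP φ (H4.g t) = φ t := by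
  change ∑ s, (H4.g t).coeff s • φ s = φ t
  rw [Finset.sum_eq_single t]
  · simp [H4.g, MonoidAlgebra.of_apply]
  · intro s _ hs
    simp [H4.g, MonoidAlgebra.of_apply, hs.symm]
  · intro h
    exact absurd (mem_univ _) h

/-- Elements which kill the words kill all functions of the words. -/
theorem evP_kill {N : ℕ} {x : P T} (hx : act N T x = 0) (F : (T → Fin N) → M)
    (w : T → Fin N) : evP (fun t => F (w ∘ t)) x = 0 := by
  have h1 : ∀ w' : T → Fin N, ∑ t, x.coeff t * (if w ∘ t = w' then 1 else 0) = 0 := by
    intro w'
    have h2 : act N T x (Pi.single w' 1) w =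
        evP (fun t : Perm T => (if w ∘ t = w' then (1 : ℚ) else 0)) x := by
      refine H4.P_induction (p := fun x => act N T x (Pi.single w' 1) w =
        evP (fun t : Perm T => (if w ∘ t = w' then (1 : ℚ) else 0)) x) x ?_ ?_ ?_
      · intro σ
        rw [H4.act_g, evP_g, Pi.single_apply]
      · intro a b ha hb
        rw [H4.act_add, Pi.add_apply, map_add, ha, hb]
      · intro n a ha
        rw [H4.act_zsmul, Pi.smul_apply, map_zsmul, ha]
    rw [hx] at h2
    have h3 : (∑ t, x.coeff t • (if w ∘ t = w' then (1 : ℚ) else 0)) = 0 := h2.symm
    have h4 : ((∑ t, x.coeff t * (if w ∘ t = w' then 1 else 0) : ℤ) : ℚ) = 0 := by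
      rw [← h3]
      push_cast
      refine Finset.sum_congr rfl (fun t _ => ?_)
      rw [zsmul_eq_mul]
    exact_mod_cast h4
  change ∑ t, x.coeff t • F (w ∘ t) = 0
  have h5 : ∀ t : Perm T, F (w ∘ t) = ∑ w', (if w ∘ t = w' then (1 : ℤ) else 0) • F w' := by
    intro t
    rw [Finset.sum_eq_single (w ∘ t)]
    · rw [if_pos rfl, one_smul]
    · intro w' _ hw'
      rw [if_neg hw'.symm, zero_smul]
    · intro h
      exact absurd (mem_univ _) h
  rw [Finset.sum_congr rfl (fun t _ => by rw [h5 t, Finset.smul_sum])]
  rw [Finset.sum_comm]
  refine Finset.sum_eq_zero (fun w' _ => ?_)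
  rw [Finset.sum_congr rfl (fun t _ => smul_smul _ _ _), ← Finset.sum_smul, h1, zero_smul]

/-- The same for multilinear functions on a free module of rank `N`. -/
theorem evP_multilinear {N : ℕ} {C V M' : Type} [CommRing C] [AddCommGroup V] [Module C V]
    [AddCommGroup M'] [Module C M'] {x : P T} (hx : act N T x = 0)
    (e : Module.Basis (Fin N) C V) (f : MultilinearMap C (fun _ : T => V) M') (β : T → V) :
    evP (fun t : Perm T => f (β ∘ t)) x = 0 := by
  let G : MultilinearMap C (fun _ : T => V) M' :=
    ∑ t, x.coeff t • f.domDomCongr t
  have hG : ∀ β : T → V, G β = evP (fun t : Perm T => f (β ∘ t)) x := by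
    intro β
    change (∑ t, x.coeff t • f.domDomCongr t) β = ∑ t, x.coeff t • f (β ∘ t)
    rw [MultilinearMap.sum_apply]
    exact Finset.sum_congr rfl (fun t _ => rfl)
  have h0 : G = 0 := by
    refine Module.Basis.ext_multilinear (fun _ => e) (fun w => ?_)
    rw [hG, MultilinearMap.zero_apply]
    exact evP_kill hx (fun w => f (fun i => e (w i))) w
  rw [← hG, h0, MultilinearMap.zero_apply]

end ev

end Pool.PI34.SS
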