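import Pool.Agent.LibPI34.EV_U1
import Pool.Agent.LibPI34.S2_Nat

/-!
PI34, block EV, file U2: the universal string system (functions of the used labels and of a
permutation of the positions).
-/

set_option autoImplicit false
set_option linter.unusedSectionVars false

namespace Pool.PI34.EV

open Equiv Finset
open Pool.PI34.H4 Pool.PI34.BA

section uni

variable {k : ℕ} {A : Type}

/-- the position of a label -/
def lab (k : ℕ) (a : A) : Big A k := Sum.inl (some a)

/-- the positions of the strands -/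
def str (k : ℕ) (A : Type) : St k ↪ Big A k :=
  ⟨fun i => match i with
    | none => Sum.inl none
    | some s => Sum.inr s, by
    rintro (_ | i) (_ | j) h
    · rfl
    · exact absurd h (by simp)
    · exact absurd h (by simp)
    · exact congrArg some (Sum.inr.inj h)⟩

theorem str_none : str k A none = Sum.inl none := rfl

theorem str_some (s : Fin k ⊕ Fin k) : str k A (some s) = Sum.inr s := rfl

theorem str_ne_lab (i : St k) (a : A) : str k A i ≠ lab k a := by
  cases i with
  | none => intro h; exact absurd (Sum.inl.inj h) (by simp)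
  | some s => intro h; exact absurd h (by simp [lab, str_some])

theorem lab_inj : Function.Injective (lab k : A → Big A k) := fun _ _ h =>
  Option.some.inj (Sum.inl.inj h)

theorem hh_lab (h : Perm A) (a : A) : hh k h (lab k a) = lab k (h a) := rfl

theorem hh_str (h : Perm A) (i : St k) : hh k h (str k A i) = str k A i := by
  cases i <;> rfl

variable [DecidableEq A]

theorem hh_swap (a b : A) : hh k (swap a b) = swap (lab k a) (lab k b) := by
  ext x
  rcases x with (_ | x) | x
  · rw [swap_apply_of_ne_of_ne]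
    · rfl
    · exact str_ne_lab none a
    · exact str_ne_lab none b
  · change lab k (swap a b x) = swap (lab k a) (lab k b) (lab k x)
    rw [lab_inj.swap_apply]
  · rw [swap_apply_of_ne_of_ne]
    · rfl
    · exact str_ne_lab (some x) a
    · exact str_ne_lab (some x) b

/-- `σ` fixes the labels which are not in `U` -/
def Sp (U : Finset A) (σ : Perm (Big A k)) : Prop := ∀ a, a ∉ U → σ (lab k a) = lab k a

theorem Sp_one (U : Finset A) : Sp U (1 : Perm (Big A k)) := fun _ _ => rfl

theorem Sp_mul {U : Finset A} {σ τ : Perm (Big A k)} (h : Sp U σ) (h' : Sp U τ) :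
    Sp U (σ * τ) := by
  intro a ha
  rw [Perm.mul_apply, h' a ha, h a ha]

theorem Sp_inv {U : Finset A} {σ : Perm (Big A k)} (h : Sp U σ) : Sp U σ⁻¹ := by
  intro a ha
  rw [Perm.inv_eq_iff_eq]
  exact (h a ha).symm

theorem Sp_mono {U V : Finset A} (hUV : U ⊆ V) {σ : Perm (Big A k)} (h : Sp U σ) : Sp V σ :=
  fun a ha => h a fun h1 => ha (hUV h1)

theorem Sp_mul_right {U : Finset A} {σ τ : Perm (Big A k)} (h' : Sp U τ) :
    Sp U (σ * τ) ↔ Sp U σ := by
  constructor
  · intro h
    have h1 := Sp_mul h (Sp_inv h')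
    rwa [mul_assoc, mul_inv_cancel, mul_one] at h1
  · exact fun h => Sp_mul h h'

theorem Sp_conj (h : Perm A) (U : Finset A) (σ : Perm (Big A k)) :
    Sp (U.map h.toEmbedding) (hh k h * σ * (hh k h)⁻¹) ↔ Sp U σ := by
  have h0 : ∀ a, (hh k h * σ * (hh k h)⁻¹) (lab k (h a)) = hh k h (σ (lab k a)) := by
    intro a
    rw [Perm.mul_apply, Perm.mul_apply]
    congr 2
    rw [Perm.inv_eq_iff_eq]
    rfl
  have h1 : ∀ a, h a ∉ U.map h.toEmbedding ↔ a ∉ U := by
    intro a
    rw [mem_map_equiv, Equiv.symm_apply_apply]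
  constructor
  · intro H a ha
    have h2 := H (h a) ((h1 a).2 ha)
    rw [h0, ← hh_lab] at h2
    exact (hh k h).injective h2
  · intro H a ha
    obtain ⟨b, rfl⟩ := h.surjective a
    rw [h0, H b ((h1 b).1 ha), hh_lab]

theorem Sp_swap (i : St k) (a : A) (U : Finset A) : Sp (insert a U) (swap (str k A i) (lab k a)) := by
  intro b hb
  refine swap_apply_of_ne_of_ne (Ne.symm (str_ne_lab i b)) ?_
  intro h
  exact hb (lab_inj h ▸ mem_insert_self _ _)

/-- the permutations of the strands -/
noncomputable def exS (A : Type) [DecidableEq A] (σ : Perm (St k)) : Perm (Big A k) :=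
  σ.viaEmbedding (str k A)

theorem exS_str (σ : Perm (St k)) (i : St k) : exS A σ (str k A i) = str k A (σ i) :=
  Perm.viaEmbedding_apply _ _ _

theorem exS_lab (σ : Perm (St k)) (a : A) : exS A σ (lab k a) = lab k a := by
  refine Perm.viaEmbedding_apply_of_notMem _ _ _ ?_
  rintro ⟨i, hi⟩
  exact str_ne_lab i a hi

theorem Sp_exS (U : Finset A) (σ : Perm (St k)) : Sp U (exS A σ) := fun a _ => exS_lab σ a

theorem hh_exS (h : Perm A) (σ : Perm (St k)) : hh k h * exS A σ = exS A σ * hh k h := by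
  ext x
  have hx : (∃ i, x = str k A i) ∨ ∃ a, x = lab k a := by
    rcases x with (_ | x) | x
    · exact Or.inl ⟨none, rfl⟩
    · exact Or.inr ⟨x, rfl⟩
    · exact Or.inl ⟨some x, rfl⟩
  rcases hx with ⟨i, rfl⟩ | ⟨a, rfl⟩
  · rw [Perm.mul_apply, Perm.mul_apply, exS_str, hh_str, hh_str, exS_str]
  · rw [Perm.mul_apply, Perm.mul_apply, exS_lab, hh_lab, exS_lab]

/-! ### the module -/

variable [Fintype A] {C : Type} [DecidableEq C] (c : A → C) (W : Type) [AddCommGroup W]

/-- the functions -/
abbrev FF0 (k : ℕ) (A W : Type) : Type := Finset A → Perm (Big A k) → W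

variable {W}

/-- good functions -/
structure Good (F : FF0 k A W) : Prop where
  inv : ∀ h : Perm A, c ∘ h = c → ∀ U σ,
    F (U.map h.toEmbedding) (hh k h * σ * (hh k h)⁻¹) = F U σ
  sup : ∀ U σ, ¬ Sp U σ → F U σ = 0
  ker : ∀ (U : Finset A) (y : P (Big A k)), act k _ y = 0 →
    (∀ σ, ¬ Sp U σ → y.coeff σ = 0) → SS.evP (F U) y = 0

theorem evP_mul_g (f : Perm (Big A k) → W) (y : P (Big A k)) (τ : Perm (Big A k)) :
    SS.evP f (y * g τ) = SS.evP (fun σ => f (σ * τ)) y := by
  refine P_induction (p := fun y => SS.evP f (y * g τ) = SS.evP (fun σ => f (σ * τ)) y) y ?_ ?_ ?_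
  · intro σ
    rw [← g_mul, SS.evP_g, SS.evP_g]
  · intro a b ha hb
    rw [add_mul, map_add, map_add, ha, hb]
  · intro n a ha
    rw [smul_mul_assoc, map_zsmul, map_zsmul, ha]

theorem coeff_mul_g (y : P (Big A k)) (τ σ : Perm (Big A k)) :
    (y * g τ).coeff σ = y.coeff (σ * τ⁻¹) := by
  refine P_induction (p := fun y => (y * g τ).coeff σ = y.coeff (σ * τ⁻¹)) y ?_ ?_ ?_
  · intro ρ
    rw [← g_mul]
    simp only [H4.g, MonoidAlgebra.of_apply, MonoidAlgebra.coeff_single]
    rw [Finsupp.single_apply, Finsupp.single_apply]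
    congr 1
    rw [eq_iff_iff]
    constructor
    · rintro rfl
      rw [mul_assoc, mul_inv_cancel, mul_one]
    · rintro rfl
      rw [mul_assoc, inv_mul_cancel, mul_one]
  · intro a b ha hb
    rw [add_mul, MonoidAlgebra.coeff_add, MonoidAlgebra.coeff_add, Finsupp.add_apply,
      Finsupp.add_apply, ha, hb]
  · intro n a ha
    rw [smul_mul_assoc, MonoidAlgebra.coeff_smul, MonoidAlgebra.coeff_smul, Finsupp.smul_apply,
      Finsupp.smul_apply, ha]

/-- the module of the good functions -/
def MG (k : ℕ) (W : Type) [AddCommGroup W] : AddSubgroup (FF0 k A W) where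
  carrier := {F | Good c F}
  zero_mem' := ⟨fun _ _ _ _ => rfl, fun _ _ _ => rfl, fun U y _ _ => by
    change ∑ t, y.coeff t • (0 : W) = 0
    simp⟩
  add_mem' := by
    intro F G hF hG
    refine ⟨fun h hc U σ => ?_, fun U σ hs => ?_, fun U y hy hs => ?_⟩
    · rw [Pi.add_apply, Pi.add_apply, Pi.add_apply, Pi.add_apply, hF.inv h hc, hG.inv h hc]
    · rw [Pi.add_apply, Pi.add_apply, hF.sup U σ hs, hG.sup U σ hs, add_zero]
    · have h1 : SS.evP ((F + G) U) y = SS.evP (F U) y + SS.evP (G U) y := by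
        change ∑ t, y.coeff t • (F U t + G U t) = _
        simp only [smul_add, Finset.sum_add_distrib]
        rfl
      rw [h1, hF.ker U y hy hs, hG.ker U y hy hs, add_zero]
  neg_mem' := by
    intro F hF
    refine ⟨fun h hc U σ => ?_, fun U σ hs => ?_, fun U y hy hs => ?_⟩
    · rw [Pi.neg_apply, Pi.neg_apply, Pi.neg_apply, Pi.neg_apply, hF.inv h hc]
    · rw [Pi.neg_apply, Pi.neg_apply, hF.sup U σ hs, neg_zero]
    · have h1 : SS.evP ((-F) U) y = -SS.evP (F U) y := by
        change ∑ t, y.coeff t • (-F U t) = _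
        simp only [smul_neg, Finset.sum_neg_distrib]
        rfl
      rw [h1, hF.ker U y hy hs, neg_zero]

/-! ### the permutations of the strands -/

/-- the permutation `σ` of the strands -/
noncomputable def s0 (σ : Perm (St k)) (F : FF0 k A W) : FF0 k A W := fun U τ => F U (τ * exS A σ)

theorem s0_good (σ : Perm (St k)) {F : FF0 k A W} (hF : Good c F) : Good c (s0 σ F) := by
  refine ⟨fun h hc U τ => ?_, fun U τ hs => ?_, fun U y hy hs => ?_⟩
  · unfold s0
    have h1 : hh k h * τ * (hh k h)⁻¹ * exS A σ = hh k h * (τ * exS A σ) * (hh k h)⁻¹ := by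
      have h2 : (hh k h)⁻¹ * exS A σ = exS A σ * (hh k h)⁻¹ := by
        rw [inv_mul_eq_iff_eq_mul, ← mul_assoc, hh_exS, mul_assoc, mul_inv_cancel, mul_one]
      rw [mul_assoc, h2]
      simp only [mul_assoc]
    rw [h1, hF.inv h hc]
  · exact hF.sup U _ fun h => hs ((Sp_mul_right (Sp_exS U σ)).1 h)
  · change SS.evP (fun τ => F U (τ * exS A σ)) y = 0
    rw [← evP_mul_g]
    refine hF.ker U _ (by rw [map_mul, hy, zero_mul]) fun τ hτ => ?_
    rw [coeff_mul_g]
    refine hs _ fun h => hτ ?_
    have h1 := Sp_mul h (Sp_exS U σ)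
    rwa [mul_assoc, inv_mul_cancel, mul_one] at h1

/-- the group action -/
noncomputable def sU : Perm (St k) →* AddMonoid.End (MG c k W) where
  toFun σ :=
    { toFun := fun F => ⟨s0 σ F.1, s0_good c σ F.2⟩
      map_zero' := rfl
      map_add' := fun _ _ => rfl }
  map_one' := by
    refine AddMonoidHom.ext fun F => Subtype.ext ?_
    funext U τ
    change F.1 U (τ * exS A 1) = F.1 U τ
    unfold exS
    rw [via_one, mul_one]
  map_mul' := by
    intro σ σ'
    refine AddMonoidHom.ext fun F => Subtype.ext ?_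
    funext U τ
    change F.1 U (τ * exS A (σ * σ')) = F.1 U (τ * exS A σ * exS A σ')
    unfold exS
    rw [via_mul, mul_assoc]

/-! ### the letters -/

/-- the letter `x` on the strand `i` -/
noncomputable def L0 (i : St k) (x : C) (F : FF0 k A W) : FF0 k A W := by
  classical
  exact fun U σ => if h : (∃ a, a ∉ U ∧ c a = x) ∧ Sp U σ then
    F (insert (Classical.choose h.1) U) (σ * swap (str k A i) (lab k (Classical.choose h.1))) else 0

theorem L0_none (i : St k) (x : C) (F : FF0 k A W) (U : Finset A) (σ : Perm (Big A k))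
    (h : ¬ ∃ a, a ∉ U ∧ c a = x) : L0 c i x F U σ = 0 := by
  unfold L0
  rw [dif_neg fun h1 => h h1.1]

theorem L0_sup (i : St k) (x : C) (F : FF0 k A W) (U : Finset A) (σ : Perm (Big A k))
    (h : ¬ Sp U σ) : L0 c i x F U σ = 0 := by
  unfold L0
  rw [dif_neg fun h1 => h h1.2]

theorem map_insert_swap {a b : A} {U : Finset A} (ha : a ∉ U) (hb : b ∉ U) :
    (insert b U).map (swap a b).toEmbedding = insert a U := by
  ext x
  rw [mem_map_equiv, symm_swap, mem_insert, mem_insert]
  by_cases h1 : x = a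
  · subst h1
    simp
  · by_cases h2 : x = b
    · subst h2
      rw [swap_apply_right]
      constructor
      · rintro (h | h)
        · exact Or.inl h.symm
        · exact absurd h ha
      · rintro (h | h)
        · exact absurd h h1
        · exact absurd h hb
    · rw [swap_apply_of_ne_of_ne h1 h2]
      simp [h1, h2]

theorem L0_eq (i : St k) (x : C) {F : FF0 k A W} (hF : Good c F) (U : Finset A)
    (σ : Perm (Big A k)) (hs : Sp U σ) (a : A) (ha : a ∉ U) (hc : c a = x) :
    L0 c i x F U σ = F (insert a U) (σ * swap (str k A i) (lab k a)) := by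
  have h : (∃ a, a ∉ U ∧ c a = x) ∧ Sp U σ := ⟨⟨a, ha, hc⟩, hs⟩
  unfold L0
  rw [dif_pos h]
  obtain ⟨hb, hcb⟩ := Classical.choose_spec h.1
  set b := Classical.choose h.1 with hbdef
  have h1 : c ∘ swap a b = c := by
    funext y
    rw [Function.comp_apply]
    by_cases e1 : y = a
    · rw [e1, swap_apply_left, hcb, hc]
    · by_cases e2 : y = b
      · rw [e2, swap_apply_right, hcb, hc]
      · rw [swap_apply_of_ne_of_ne e1 e2]
  have h2 := hF.inv (swap a b) h1 (insert b U) (σ * swap (str k A i) (lab k b))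
  rw [map_insert_swap ha hb] at h2
  rw [← h2]
  congr 1
  rw [hh_swap, swap_inv]
  have h3 : swap (lab k a) (lab k b) * σ = σ * swap (lab k a) (lab k b) := by
    rw [Equiv.mul_swap_eq_swap_mul, hs a ha, hs b hb]
  have h4 : swap (lab k a) (lab k b) * swap (str k A i) (lab k b) =
      swap (str k A i) (lab k a) * swap (lab k a) (lab k b) := by
    rw [Equiv.mul_swap_eq_swap_mul, swap_apply_right,
      swap_apply_of_ne_of_ne (str_ne_lab i a) (str_ne_lab i b)]
  rw [← mul_assoc, h3, mul_assoc, mul_assoc, ← mul_assoc (swap (lab k a) (lab k b)), h4, mul_assoc,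
    Equiv.swap_mul_self, mul_one]

theorem L0_good (i : St k) (x : C) {F : FF0 k A W} (hF : Good c F) : Good c (L0 c i x F) := by
  refine ⟨fun h hc U σ => ?_, fun U σ hs => L0_sup c i x F U σ hs, fun U y hy hs => ?_⟩
  · by_cases hs : Sp U σ
    · by_cases ha : ∃ a, a ∉ U ∧ c a = x
      · obtain ⟨a, ha, hx⟩ := ha
        have ha' : h a ∉ U.map h.toEmbedding := by
          rw [mem_map_equiv, Equiv.symm_apply_apply]
          exact ha
        have hx' : c (h a) = x := by rw [← hx]; exact congrFun hc a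
        rw [L0_eq c i x hF U σ hs a ha hx, L0_eq c i x hF _ _ ((Sp_conj h U σ).2 hs) (h a) ha' hx',
          ← hF.inv h hc (insert a U)]
        have e1 : insert (h a) (U.map h.toEmbedding) = (insert a U).map h.toEmbedding := by
          rw [map_insert]
          rfl
        have e2 : hh k h * σ * (hh k h)⁻¹ * swap (str k A i) (lab k (h a)) =
            hh k h * (σ * swap (str k A i) (lab k a)) * (hh k h)⁻¹ := by
          have e3 : swap (str k A i) (lab k (h a)) =
              hh k h * swap (str k A i) (lab k a) * (hh k h)⁻¹ := by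
            rw [Equiv.mul_swap_eq_swap_mul, hh_str, hh_lab, mul_assoc, mul_inv_cancel, mul_one]
          rw [e3]
          simp only [mul_assoc, inv_mul_cancel_left]
        rw [e1, e2]
      · rw [L0_none c i x F U σ ha, L0_none]
        rintro ⟨a, ha1, ha2⟩
        obtain ⟨b, rfl⟩ := h.surjective a
        refine ha ⟨b, ?_, ?_⟩
        · rw [mem_map_equiv, Equiv.symm_apply_apply] at ha1
          exact ha1
        · rw [← ha2]
          exact (congrFun hc b).symm
    · rw [L0_sup c i x F U σ hs, L0_sup]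
      rwa [Sp_conj]
  · by_cases ha : ∃ a, a ∉ U ∧ c a = x
    · obtain ⟨a, ha, hx⟩ := ha
      have h1 : SS.evP (L0 c i x F U) y =
          SS.evP (F (insert a U)) (y * g (swap (str k A i) (lab k a))) := by
        rw [evP_mul_g]
        change ∑ t, y.coeff t • L0 c i x F U t = ∑ t, y.coeff t • F (insert a U) (t * _)
        refine Finset.sum_congr rfl fun t _ => ?_
        by_cases ht : Sp U t
        · rw [L0_eq c i x hF U t ht a ha hx]
        · rw [hs t ht, zero_smul, zero_smul]
      rw [h1]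
      refine hF.ker _ _ (by rw [map_mul, hy, zero_mul]) fun τ hτ => ?_
      rw [coeff_mul_g, swap_inv]
      refine hs _ fun h => hτ ?_
      have h1 := Sp_mul (Sp_mono (subset_insert a U) h) (Sp_swap i a U)
      rwa [mul_assoc, Equiv.swap_mul_self, mul_one] at h1
    · change ∑ t, y.coeff t • L0 c i x F U t = 0
      refine Finset.sum_eq_zero fun t _ => ?_
      rw [L0_none c i x F U t ha, smul_zero]

theorem L0_add (i : St k) (x : C) (F G : FF0 k A W) :
    L0 c i x (F + G) = L0 c i x F + L0 c i x G := by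
  funext U σ
  rw [Pi.add_apply, Pi.add_apply]
  unfold L0
  split_ifs
  · rfl
  · rw [add_zero]

/-- the letters as operators -/
noncomputable def LU (i : St k) (x : C) : AddMonoid.End (MG c k W) where
  toFun F := ⟨L0 c i x F.1, L0_good c i x F.2⟩
  map_zero' := by
    refine Subtype.ext ?_
    have h := L0_add c i x (0 : FF0 k A W) 0
    rw [add_zero] at h
    exact (left_eq_add.1 h)
  map_add' F G := Subtype.ext (L0_add c i x F.1 G.1)

theorem LU_apply (i : St k) (x : C) (F : MG c k W) : (LU c i x F).1 = L0 c i x F.1 := rfl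

theorem sU_apply (σ : Perm (St k)) (F : MG c k W) (U : Finset A) (τ : Perm (Big A k)) :
    (sU c σ F).1 U τ = F.1 U (τ * exS A σ) := rfl

theorem L0_L0 (i j : St k) (x y : C) {F : FF0 k A W} (hF : Good c F) (U : Finset A)
    (σ : Perm (Big A k)) (hs : Sp U σ) (a b : A) (ha : a ∉ U) (hb : b ∉ U) (hab : a ≠ b)
    (hx : c a = x) (hy : c b = y) : L0 c i x (L0 c j y F) U σ =
      F (insert b (insert a U)) (σ * swap (str k A i) (lab k a) * swap (str k A j) (lab k b)) := by
  rw [L0_eq c i x (L0_good c j y hF) U σ hs a ha hx,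
    L0_eq c j y hF _ _ (Sp_mul (Sp_mono (subset_insert a U) hs) (Sp_swap i a U)) b (by
      rw [mem_insert]
      rintro (h | h)
      · exact hab h.symm
      · exact hb h) hy]

theorem L0_L0_zero (i j : St k) (x y : C) {F : FF0 k A W} (hF : Good c F) (U : Finset A)
    (σ : Perm (Big A k)) (hs : Sp U σ)
    (h : ¬ ∃ a b, a ∉ U ∧ b ∉ U ∧ a ≠ b ∧ c a = x ∧ c b = y) :
    L0 c i x (L0 c j y F) U σ = 0 := by
  by_cases ha : ∃ a, a ∉ U ∧ c a = x
  · obtain ⟨a, ha, hx⟩ := ha
    rw [L0_eq c i x (L0_good c j y hF) U σ hs a ha hx, L0_none]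
    rintro ⟨b, hb, hy⟩
    rw [mem_insert, not_or] at hb
    exact h ⟨a, b, ha, hb.2, Ne.symm hb.1, hx, hy⟩
  · exact L0_none c i x _ U σ ha

theorem LU_comm (i j : St k) (hij : i ≠ j) (x y : C) :
    (LU c i x : AddMonoid.End (MG c k W)) * LU c j y = LU c j y * LU c i x := by
  refine AddMonoidHom.ext fun F => Subtype.ext ?_
  funext U σ
  change L0 c i x (L0 c j y F.1) U σ = L0 c j y (L0 c i x F.1) U σ
  by_cases hs : Sp U σ
  · by_cases h : ∃ a b, a ∉ U ∧ b ∉ U ∧ a ≠ b ∧ c a = x ∧ c b = y
    · obtain ⟨a, b, ha, hb, hab, hx, hy⟩ := h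
      rw [L0_L0 c i j x y F.2 U σ hs a b ha hb hab hx hy,
        L0_L0 c j i y x F.2 U σ hs b a hb ha (Ne.symm hab) hy hx, insert_comm]
      rw [mul_assoc, mul_assoc, Equiv.mul_swap_eq_swap_mul (swap (str k A i) (lab k a)) (str k A j) (lab k b),
        swap_apply_of_ne_of_ne (fun e => hij ((str k A).injective e).symm) (str_ne_lab j a),
        swap_apply_of_ne_of_ne (Ne.symm (str_ne_lab i b)) (fun e => hab (lab_inj e).symm)]
    · rw [L0_L0_zero c i j x y F.2 U σ hs h, L0_L0_zero c j i y x F.2 U σ hs]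
      rintro ⟨a, b, ha, hb, hab, hx, hy⟩
      exact h ⟨b, a, hb, ha, Ne.symm hab, hy, hx⟩
  · rw [L0_sup c i x _ U σ hs, L0_sup c j y _ U σ hs]

theorem sU_LU (σ : Perm (St k)) (i : St k) (x : C) :
    (sU c σ : AddMonoid.End (MG c k W)) * LU c i x = LU c (σ i) x * sU c σ := by
  refine AddMonoidHom.ext fun F => Subtype.ext ?_
  funext U τ
  change L0 c i x F.1 U (τ * exS A σ) = L0 c (σ i) x (s0 σ F.1) U τ
  by_cases hs : Sp U τ
  · have hs' : Sp U (τ * exS A σ) := Sp_mul hs (Sp_exS U σ)
    by_cases ha : ∃ a, a ∉ U ∧ c a = x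
    · obtain ⟨a, ha, hx⟩ := ha
      rw [L0_eq c i x F.2 U _ hs' a ha hx, L0_eq c (σ i) x (s0_good c σ F.2) U τ hs a ha hx]
      unfold s0
      rw [mul_assoc, Equiv.mul_swap_eq_swap_mul, exS_str, exS_lab, mul_assoc]
    · rw [L0_none c i x _ U _ ha, L0_none c (σ i) x _ U _ ha]
  · have hs' : ¬ Sp U (τ * exS A σ) := fun h => hs ((Sp_mul_right (Sp_exS U σ)).1 h)
    rw [L0_sup c i x _ U _ hs', L0_sup c (σ i) x _ U _ hs]

variable (W) in
/-- the universal string system -/
noncomputable def SU : Str (St k) (FreeAlgebra ℤ C) (AddMonoid.End (MG (A := A) c k W)) :=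
  Str.ofLetters (fun i x => LU c i x) (sU c) (fun i j hij x y => LU_comm c i j hij x y)
    (fun σ i x => sU_LU c σ i x)

theorem SU_s (σ : Perm (St k)) : (SU c W).s σ = sU c σ := rfl

theorem SU_ρ (i : St k) (x : C) : (SU c W).ρ i (FreeAlgebra.ι ℤ x) = LU c i x :=
  ofLetters_rho_ι _ _ _ _ _ _

end uni

end Pool.PI34.EV
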