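import Pool.Agent.LibPI34.EV_U2

/-!
PI34, block EV, file U3: the values of the universal string system.
-/

set_option autoImplicit false
set_option linter.unusedSectionVars false

namespace Pool.PI34.EV

open Equiv Finset
open Pool.PI34.H4 Pool.PI34.BA

section rep

variable {k : ℕ} {A : Type} [Fintype A] [DecidableEq A] {C : Type} [DecidableEq C]
variable (c : A → C) {W : Type} [AddCommGroup W]

/-- the operator `e` is the right multiplication by `y` and uses the labels `V` -/
def Rep (V : Finset A) (e : AddMonoid.End (MG c k W)) (y : P (Big A k)) : Prop :=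
  ∀ (F : MG c k W) (U : Finset A) (τ : Perm (Big A k)), Disjoint V U → Sp U τ →
    (e F).1 U τ = SS.evP (F.1 (V ∪ U)) (g τ * y)

/-- the elements supported on the labels `V` -/
noncomputable def PV (k : ℕ) (V : Finset A) : AddSubgroup (P (Big A k)) :=
  AddSubgroup.closure {y | ∃ σ, Sp V σ ∧ y = g σ}

theorem g_mem_PV {V : Finset A} {σ : Perm (Big A k)} (h : Sp V σ) : g σ ∈ PV k V :=
  AddSubgroup.subset_closure ⟨σ, h, rfl⟩

theorem Rep_mul {V V' : Finset A} {e e' : AddMonoid.End (MG c k W)} {y y' : P (Big A k)}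
    (h : Rep c V e y) (hy : y ∈ PV k V) (h' : Rep c V' e' y') (hd : Disjoint V V') :
    Rep c (V' ∪ V) (e * e') (y * y') := by
  intro F U τ hU hτ
  rw [disjoint_union_left] at hU
  change (e (e' F)).1 U τ = _
  rw [h (e' F) U τ hU.2 hτ]
  clear h
  unfold PV at hy
  induction hy using AddSubgroup.closure_induction with
  | mem y hy =>
    obtain ⟨σ, hσ, rfl⟩ := hy
    rw [← g_mul, SS.evP_g, h' F (V ∪ U) (τ * σ) (disjoint_union_right.2 ⟨hd.symm, hU.1⟩)
      (Sp_mul (Sp_mono subset_union_right hτ) (Sp_mono subset_union_left hσ)), ← mul_assoc,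
      ← g_mul, union_assoc]
  | zero => rw [mul_zero, zero_mul, mul_zero, map_zero, map_zero]
  | add a b _ _ ha hb => rw [mul_add, map_add, ha, hb, add_mul, mul_add, map_add]
  | neg a _ ha => rw [mul_neg, map_neg, ha, neg_mul, mul_neg, map_neg]

theorem Rep_one : Rep c ∅ (1 : AddMonoid.End (MG c k W)) 1 := by
  intro F U τ _ _
  rw [mul_one, SS.evP_g, empty_union]
  rfl

theorem Rep_s (σ : Perm (St k)) : Rep c ∅ ((SU c W).s σ) (g (exS A σ)) := by
  intro F U τ _ _
  rw [← g_mul, SS.evP_g, empty_union]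
  rfl

theorem Rep_sum {I : Type} (T : Finset I) {V : Finset A} (e : I → AddMonoid.End (MG c k W))
    (y : I → P (Big A k)) (h : ∀ i ∈ T, Rep c V (e i) (y i)) :
    Rep c V (∑ i ∈ T, e i) (∑ i ∈ T, y i) := by
  classical
  induction T using Finset.induction_on with
  | empty =>
    intro F U τ _ _
    rw [sum_empty, sum_empty, mul_zero, map_zero]
    rfl
  | insert a T ha ih =>
    intro F U τ hU hτ
    rw [sum_insert ha, sum_insert ha, mul_add, map_add,
      ← h a (mem_insert_self a T) F U τ hU hτ,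
      ← ih (fun i hi => h i (mem_insert_of_mem hi)) F U τ hU hτ]
    rfl

theorem Rep_zsmul {V : Finset A} (m : ℤ) {e : AddMonoid.End (MG c k W)} {y : P (Big A k)}
    (h : Rep c V e y) : Rep c V (m • e) (m • y) := by
  intro F U τ hU hτ
  rw [mul_smul_comm, map_zsmul, ← h F U τ hU hτ]
  rfl

theorem Rep_anti (e : Fin k ↪ St k) :
    Rep c ∅ (anti (SU c W).s (univ.map e)) (emb (e.trans (str k A)) (As (Fin k))) := by
  rw [← emb_trans, ← anti_map]
  unfold anti
  rw [map_sum]
  refine Rep_sum c _ _ _ fun σ _ => ?_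
  rw [map_zsmul]
  refine Rep_zsmul c _ ?_
  have h1 : emb (str k A) (gh (St k) σ) = g (exS A σ) := emb_g _ _
  rw [h1]
  exact Rep_s c σ

theorem emb_str_mem (y : P (St k)) : emb (str k A) y ∈ PV k ∅ := by
  refine P_induction (p := fun y => emb (str k A) y ∈ PV k ∅) y ?_ ?_ ?_
  · intro σ
    rw [emb_g]
    exact g_mem_PV (Sp_exS ∅ σ)
  · intro a b ha hb
    rw [map_add]
    exact AddSubgroup.add_mem _ ha hb
  · intro n a ha
    rw [map_zsmul]
    exact AddSubgroup.zsmul_mem _ ha n

theorem Rep_LU (i : St k) (a : A) :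
    Rep c {a} (LU c i (c a) : AddMonoid.End (MG c k W)) (g (swap (str k A i) (lab k a))) := by
  intro F U τ hU hτ
  rw [← g_mul, SS.evP_g]
  exact L0_eq c i (c a) F.2 U τ hτ a (disjoint_singleton_left.1 hU) rfl

/-- the cycle of a word on a strand -/
def cyw (k : ℕ) (i : St k) (w : List A) : Perm (Big A k) :=
  ((str k A i :: w.map (lab k)).formPerm)⁻¹

theorem lab_mem_map {w : List A} {a : A} : lab k a ∈ w.map (lab k) ↔ a ∈ w := by
  rw [List.mem_map]
  constructor
  · rintro ⟨b, hb, e⟩
    rwa [← lab_inj e]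
  · exact fun h => ⟨a, h, rfl⟩

theorem str_notMem_map (i : St k) (w : List A) : str k A i ∉ w.map (lab k) := by
  rw [List.mem_map]
  rintro ⟨b, -, e⟩
  exact str_ne_lab i b e.symm

theorem Sp_cyw (i : St k) (w : List A) (V : Finset A) (h : ∀ a ∈ w, a ∈ V) :
    Sp V (cyw k i w) := by
  refine Sp_inv fun a ha => List.formPerm_apply_of_notMem ?_
  rw [List.mem_cons, not_or, lab_mem_map]
  exact ⟨Ne.symm (str_ne_lab i a), fun h1 => ha (h a h1)⟩

theorem Rep_word (i : St k) (w : List A) (hw : w.Nodup) :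
    Rep c w.toFinset ((SU c W).ρ i (w.map fun a => FreeAlgebra.ι ℤ (c a)).prod)
      (g (cyw k i w)) := by
  induction w with
  | nil =>
    rw [List.map_nil, List.prod_nil, map_one]
    unfold cyw
    rw [List.map_nil, List.formPerm_singleton, inv_one, g_one]
    exact Rep_one c
  | cons a w ih =>
    rw [List.nodup_cons] at hw
    have h1 := Rep_mul c (Rep_LU (W := W) c i a) (g_mem_PV (V := {a}) (by
      have h := Sp_swap i a (∅ : Finset A)
      exact h)) (ih hw.2) (by
      rw [disjoint_singleton_left, List.mem_toFinset]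
      exact hw.1)
    rw [List.map_cons, List.prod_cons, map_mul, SU_ρ]
    have h2 : g (cyw k i (a :: w)) = g (swap (str k A i) (lab k a)) * g (cyw k i w) := by
      rw [← g_mul]
      congr 1
      unfold cyw
      rw [List.map_cons]
      exact fp_inv_cons _ _ _ (str_notMem_map i w) (fun h => hw.1 (lab_mem_map.1 h))
    have h3 : (a :: w).toFinset = w.toFinset ∪ {a} := by
      ext b
      simp
    rw [h2, h3]
    exact h1

/-- the trace of a loop -/
noncomputable def TrY (k : ℕ) (u : LD A) : P (Big A k) :=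
  ∑ i : Fin k, g (cyw k (pS k i) (u.1 :: u.2.1))

theorem TrY_mem (u : LD A) : TrY k u ∈ PV k (u.1 :: u.2.1).toFinset := by
  unfold TrY
  refine AddSubgroup.sum_mem _ fun i _ => g_mem_PV (Sp_cyw _ _ _ fun a ha => ?_)
  exact List.mem_toFinset.2 ha

theorem Rep_Tr (u : LD A) (hu : (u.1 :: u.2.1).Nodup) :
    Rep c (u.1 :: u.2.1).toFinset (Tr (SU c W) (pS k)
      (wd (fun a => FreeAlgebra.ι ℤ (c a)) u)) (TrY k u) := by
  unfold Tr TrY
  exact Rep_sum c _ _ _ fun i _ => Rep_word c (pS k i) (u.1 :: u.2.1) hu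

/-- the traces of the loops -/
noncomputable def RY (k : ℕ) : List (LD A) → P (Big A k) → P (Big A k)
  | [], y => y
  | u :: us, y => RY k us (TrY k u * y)

theorem RY_nil (y : P (Big A k)) : RY k [] y = y := rfl

theorem RY_cons (u : LD A) (us : List (LD A)) (y : P (Big A k)) :
    RY k (u :: us) y = RY k us (TrY k u * y) := rfl

theorem pl_cons (u : LD A) (us : List (LD A)) : pl (u :: us) = (u.1 :: u.2.1) ++ pl us := rfl

theorem Rep_RR (us : List (LD A)) : ∀ (V : Finset A) (e : AddMonoid.End (MG c k W))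
    (y : P (Big A k)), Rep c V e y → (pl us).Nodup → (∀ a ∈ pl us, a ∉ V) →
    Rep c ((pl us).toFinset ∪ V) (RR (SU c W) (pS k) (fun a => FreeAlgebra.ι ℤ (c a)) us e)
      (RY k us y) := by
  induction us with
  | nil =>
    intro V e y h _ _
    have h1 : (pl ([] : List (LD A))).toFinset ∪ V = V := by
      change (([] : List A)).toFinset ∪ V = V
      simp
    rw [h1]
    exact h
  | cons u us ih =>
    intro V e y h hnd hV
    rw [pl_cons] at hnd hV
    have h1 := List.nodup_append.1 hnd
    have h2 := Rep_mul c (Rep_Tr c u h1.1) (TrY_mem u) h (by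
      rw [disjoint_left]
      intro a ha
      rw [List.mem_toFinset] at ha
      exact hV a (List.mem_append_left _ ha))
    have h3 := ih _ _ _ h2 h1.2.1 (by
      intro a ha
      rw [mem_union, not_or, List.mem_toFinset]
      exact ⟨hV a (List.mem_append_right _ ha), fun h4 => h1.2.2 a h4 a ha rfl⟩)
    have h4 : (pl (u :: us)).toFinset ∪ V =
        (pl us).toFinset ∪ (V ∪ (u.1 :: u.2.1).toFinset) := by
      rw [pl_cons, List.toFinset_append]
      ext b
      simp only [mem_union]
      tauto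
    rw [h4]
    exact h3

/-! ### evaluation modulo the kernel of the words -/

omit [DecidableEq C] in
theorem RY_act (us : List (LD A)) : ∀ (y y' : P (Big A k)), act k _ y = act k _ y' →
    act k _ (RY k us y) = act k _ (RY k us y') := by
  induction us with
  | nil => exact fun y y' h => h
  | cons u us ih =>
    intro y y' h
    rw [RY_cons, RY_cons]
    exact ih _ _ (by rw [map_mul, map_mul, h])

omit [DecidableEq C] in
theorem TrY_eq (u : LD A) : TrY k u = g (((u.1 :: u.2.1).map (lab k)).formPerm)⁻¹ *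
    ∑ i, g (swap (str k A (pS k i)) (lab k u.1)) := by
  unfold TrY
  rw [Finset.mul_sum]
  refine Finset.sum_congr rfl fun i _ => ?_
  have e1 : cyw k (pS k i) (u.1 :: u.2.1) =
      (((u.1 :: u.2.1).map (lab k)).formPerm)⁻¹ * swap (str k A (pS k i)) (lab k u.1) :=
    fp_inv_cons' _ _ _
  rw [e1, g_mul]

omit [DecidableEq C] in
theorem tr_comm (z : Big A k) (σ : Perm (Big A k))
    (hP : ∀ i, σ (str k A (pS k i)) = str k A (pS k i)) (hz : σ z = z) :
    (∑ i, g (swap (str k A (pS k i)) z)) * g σ = g σ * ∑ i, g (swap (str k A (pS k i)) z) := by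
  rw [Finset.mul_sum, Finset.sum_mul]
  refine Finset.sum_congr rfl fun i _ => ?_
  rw [← g_mul, ← g_mul, Equiv.mul_swap_eq_swap_mul, hP, hz]

omit [DecidableEq C] in
theorem tr_step (a : P (Big A k)) (z : Big A k) (σ : Perm (Big A k)) (Y : P (Big A k))
    (hP : ∀ i, σ (str k A (pS k i)) = str k A (pS k i)) (hz : σ z = z)
    (hz' : ∀ i, str k A (pS k i) ≠ z) :
    act k _ (a * (∑ i, g (swap (str k A (pS k i)) z)) *
      (g σ * (emb ((pS k).trans (str k A)) (As (Fin k)) * Y))) =
    act k _ (a * g σ * (emb ((pS k).trans (str k A)) (As (Fin k)) * Y)) := by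
  have h4 := tr_comm z σ hP hz
  have h5 := act_tr k ((pS k).trans (str k A)) z hz'
  set AP := emb ((pS k).trans (str k A)) (As (Fin k)) with hAP
  set t := ∑ i, g (swap (str k A (pS k i)) z) with ht
  have h6 : act k _ (t * AP) = act k _ AP := h5
  have h7 : a * t * (g σ * (AP * Y)) = a * g σ * ((t * AP) * Y) := by
    rw [mul_assoc a t, ← mul_assoc t, h4]
    simp only [mul_assoc]
  rw [h7, map_mul, map_mul (act k _) (t * AP) Y, h6, ← map_mul, ← map_mul]

/-- the product of the cycles of the loops -/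
def cycs (k : ℕ) (us : List (LD A)) : Perm (Big A k) :=
  (us.map fun u => ((u.1 :: u.2.1).map (lab k)).formPerm).prod

omit [DecidableEq C] [Fintype A] in
theorem cycs_nil : cycs k ([] : List (LD A)) = 1 := rfl

omit [DecidableEq C] [Fintype A] in
theorem cycs_cons (u : LD A) (us : List (LD A)) :
    cycs k (u :: us) = ((u.1 :: u.2.1).map (lab k)).formPerm * cycs k us := by
  unfold cycs
  rw [List.map_cons, List.prod_cons]

omit [DecidableEq C] in
theorem act_RY (us : List (LD A)) : ∀ (σ : Perm (Big A k)) (Y : P (Big A k)),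
    (∀ i, σ (str k A (pS k i)) = str k A (pS k i)) → (∀ a ∈ pl us, σ (lab k a) = lab k a) →
    (pl us).Nodup →
    act k _ (RY k us (g σ * (emb ((pS k).trans (str k A)) (As (Fin k)) * Y))) =
      act k _ (g ((cycs k us)⁻¹ * σ) * (emb ((pS k).trans (str k A)) (As (Fin k)) * Y)) := by
  induction us with
  | nil =>
    intro σ Y _ _ _
    rw [cycs_nil, inv_one, one_mul, RY_nil]
  | cons u us ih =>
    intro σ Y hP hL hnd
    rw [pl_cons] at hL hnd
    have h1 := List.nodup_append.1 hnd
    have hfP : ∀ i, (((u.1 :: u.2.1).map (lab k)).formPerm)⁻¹ (str k A (pS k i)) =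
        str k A (pS k i) := by
      intro i
      rw [Perm.inv_eq_iff_eq]
      exact (List.formPerm_apply_of_notMem (str_notMem_map _ _)).symm
    have hfL : ∀ a ∈ pl us, (((u.1 :: u.2.1).map (lab k)).formPerm)⁻¹ (lab k a) = lab k a := by
      intro a ha
      rw [Perm.inv_eq_iff_eq]
      refine (List.formPerm_apply_of_notMem ?_).symm
      rw [lab_mem_map]
      exact fun h => h1.2.2 a h a ha rfl
    have h2 := ih ((((u.1 :: u.2.1).map (lab k)).formPerm)⁻¹ * σ) Y
      (fun i => by rw [Perm.mul_apply, hP, hfP])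
      (fun a ha => by rw [Perm.mul_apply, hL a (List.mem_append_right _ ha), hfL a ha]) h1.2.1
    have h3 := tr_step (g (((u.1 :: u.2.1).map (lab k)).formPerm)⁻¹) (lab k u.1) σ Y hP
      (hL u.1 (List.mem_append_left _ List.mem_cons_self)) (fun i => str_ne_lab (pS k i) u.1)
    rw [← TrY_eq, ← g_mul] at h3
    have h4 := RY_act us _ _ h3
    rw [h2] at h4
    rw [cycs_cons, mul_inv_rev, mul_assoc, ← h4, RY_cons]

end rep

end Pool.PI34.EV
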