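import Pool.Agent.LibPI34.EV_U3

/-!
PI34, block EV, file Univ: PART II of EVEN1.
-/

set_option autoImplicit false
set_option linter.unusedSectionVars false

namespace Pool.PI34.EV

open Equiv Finset
open Pool.PI34.H4 Pool.PI34.BA

section rep

variable {k : ℕ} {A : Type} [Fintype A] [DecidableEq A] {C : Type} [DecidableEq C]
variable (c : A → C) {W : Type} [AddCommGroup W]

/-! ### the start vector -/

variable (lam : P (Big A k) →+ W)

/-- the start vector -/
noncomputable def F0 : FF0 k A W := fun U σ => if U = univ then lam (g σ) else 0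

theorem evP_lam (y : P (Big A k)) : SS.evP (fun σ => lam (g σ)) y = lam y := by
  refine P_induction (p := fun y => SS.evP (fun σ => lam (g σ)) y = lam y) y ?_ ?_ ?_
  · intro σ
    rw [SS.evP_g]
  · intro a b ha hb
    rw [map_add, map_add, ha, hb]
  · intro n a ha
    rw [map_zsmul, map_zsmul, ha]

theorem F0_good (h1 : ∀ y, act k _ y = 0 → lam y = 0)
    (h2 : ∀ h : Perm A, c ∘ h = c → ∀ y, lam (g (hh k h) * y * g (hh k h)⁻¹) = lam y) :
    Good c (F0 lam) := by
  refine ⟨fun h hc U σ => ?_, fun U σ hs => ?_, fun U y hy hs => ?_⟩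
  · have e : U.map h.toEmbedding = univ ↔ U = univ := by
      constructor
      · intro H
        ext a
        have h3 : h a ∈ U.map h.toEmbedding := by rw [H]; exact mem_univ _
        rw [mem_map_equiv, Equiv.symm_apply_apply] at h3
        exact ⟨fun _ => mem_univ _, fun _ => h3⟩
      · rintro rfl
        ext a
        rw [mem_map_equiv]
        exact ⟨fun _ => mem_univ _, fun _ => mem_univ _⟩
    unfold F0
    rw [g_mul, g_mul, h2 h hc]
    simp only [e]
  · unfold F0
    rw [if_neg]
    rintro rfl
    exact hs fun a ha => absurd (mem_univ a) ha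
  · by_cases hU : U = univ
    · subst hU
      have h3 : F0 lam univ = fun σ => lam (g σ) := by
        funext σ
        exact if_pos rfl
      rw [h3, evP_lam, h1 y hy]
    · have h3 : F0 lam U = fun _ => 0 := by
        funext σ
        exact if_neg hU
      rw [h3]
      change ∑ t, y.coeff t • (0 : W) = 0
      simp

omit [DecidableEq C] [Fintype A] in
theorem coeff_PV {V : Finset A} {y : P (Big A k)} (hy : y ∈ PV k V) (σ : Perm (Big A k))
    (hσ : ¬ Sp V σ) : y.coeff σ = 0 := by
  unfold PV at hy
  induction hy using AddSubgroup.closure_induction with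
  | mem y hy =>
    obtain ⟨τ, hτ, rfl⟩ := hy
    classical
    simp only [H4.g, MonoidAlgebra.of_apply, MonoidAlgebra.coeff_single]
    rw [Finsupp.single_apply, if_neg]
    rintro rfl
    exact hσ hτ
  | zero => rfl
  | add a b _ _ ha hb => rw [MonoidAlgebra.coeff_add, Finsupp.add_apply, ha, hb, add_zero]
  | neg a _ ha => rw [MonoidAlgebra.coeff_neg, Finsupp.neg_apply, ha, neg_zero]

omit [DecidableEq C] in
theorem g_mul_PV {V : Finset A} {τ : Perm (Big A k)} (hτ : Sp V τ) {y : P (Big A k)}
    (hy : y ∈ PV k (∅ : Finset A)) : g τ * y ∈ PV k V := by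
  unfold PV at hy
  induction hy using AddSubgroup.closure_induction with
  | mem y hy =>
    obtain ⟨σ, hσ, rfl⟩ := hy
    rw [← g_mul]
    exact g_mem_PV (Sp_mul hτ (Sp_mono (empty_subset V) hσ))
  | zero => rw [mul_zero]; exact AddSubgroup.zero_mem _
  | add a b _ _ ha hb => rw [mul_add]; exact AddSubgroup.add_mem _ ha hb
  | neg a _ ha => rw [mul_neg]; exact AddSubgroup.neg_mem _ ha

variable (W) in
theorem SU_Anti : Anti (SU (k := k) c W).s k := by
  intro T hT
  have h3 := Rep_sum (W := W) c (permsOn T) (V := ∅)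
    (fun σ => ((Perm.sign σ : ℤˣ) : ℤ) • (SU c W).s σ)
    (fun σ => ((Perm.sign σ : ℤˣ) : ℤ) • g (exS A σ))
    (fun σ _ => Rep_zsmul c _ (Rep_s c σ))
  have h4 : ∑ σ ∈ permsOn T, ((Perm.sign σ : ℤˣ) : ℤ) • g (exS A σ) =
      emb (str k A) (anti (gh (St k)) T) := by
    unfold anti
    rw [map_sum]
    refine Finset.sum_congr rfl fun σ _ => ?_
    rw [map_zsmul]
    have h5 : emb (str k A) (gh (St k) σ) = g (exS A σ) := emb_g _ _
    rw [h5]
  rw [h4] at h3
  refine AddMonoidHom.ext fun F => Subtype.ext ?_
  funext U τ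
  change ((anti (SU c W).s T) F).1 U τ = 0
  by_cases hs : Sp U τ
  · have h6 := h3 F U τ (disjoint_empty_left U) hs
    have h7 : ((anti (SU c W).s T) F).1 U τ = _ := h6
    rw [h7, empty_union]
    refine F.2.ker U _ ?_ ?_
    · rw [map_mul, act_emb_eq_zero _ _ (act_anti T (by omega)), mul_zero]
    · exact fun σ hσ => coeff_PV (g_mul_PV hs (emb_str_mem _)) σ hσ
  · exact ((anti (SU c W).s T) F).2.sup U τ hs

theorem Rep_om : Rep c ∅ ((SU c W).om (pS k) (qS k))
    (emb ((pS k).trans (str k A)) (As (Fin k)) * emb ((qS k).trans (str k A)) (As (Fin k))) := by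
  have h := Rep_mul c (Rep_anti (W := W) c (pS k)) (by
    rw [← emb_trans]
    exact emb_str_mem _) (Rep_anti (W := W) c (qS k)) (disjoint_empty_left _)
  rw [empty_union] at h
  exact h

theorem Rep_val (w : List A) (us : List (LD A)) (hnd : (w ++ pl us).Nodup) :
    Rep c ((pl us).toFinset ∪ w.toFinset)
      (val (SU c W) (pS k) (qS k) none (fun a => FreeAlgebra.ι ℤ (c a)) w us)
      (RY k us (g (cyw k none w) * (emb ((pS k).trans (str k A)) (As (Fin k)) *
        emb ((qS k).trans (str k A)) (As (Fin k))))) := by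
  have h3 := List.nodup_append.1 hnd
  have h1 := Rep_mul (k := k) c (Rep_word (W := W) c none w h3.1)
    (g_mem_PV (Sp_cyw none w w.toFinset fun a ha => List.mem_toFinset.2 ha)) (Rep_om c)
    (disjoint_empty_right _)
  rw [empty_union] at h1
  exact Rep_RR c us _ _ _ h1 h3.2.1 fun a ha h => h3.2.2 a (List.mem_toFinset.1 h) a ha rfl

omit [DecidableEq C] in
theorem dperm_via (w : List A) (us : List (LD A)) :
    (dperm w us).viaEmbedding (Function.Embedding.inl : Option A ↪ Big A k) =
      (cycs k us)⁻¹ * cyw k none w := by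
  unfold dperm
  rw [via_inv, via_mul, via_formPerm, mul_inv_rev]
  have h1 : ((us.map fun u => ((u.1 :: u.2.1).map some).formPerm).prod).viaEmbedding
      (Function.Embedding.inl : Option A ↪ Big A k) = cycs k us := by
    induction us with
    | nil => exact via_one _
    | cons u us ih =>
      rw [List.map_cons, List.prod_cons, via_mul, ih, cycs_cons, via_formPerm, List.map_map]
      rfl
  rw [h1]
  congr 1
  unfold cyw
  rw [List.map_cons, List.map_map]
  rfl

omit [DecidableEq C] in
theorem act_final (w : List A) (us : List (LD A)) (hnd : (w ++ pl us).Nodup) :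
    act k _ (RY k us (g (cyw k none w) * (emb ((pS k).trans (str k A)) (As (Fin k)) *
        emb ((qS k).trans (str k A)) (As (Fin k))))) =
      act k _ (emb Function.Embedding.inl (g (dperm w us)) *
        (emb (Function.Embedding.inl.trans Function.Embedding.inr) (As (Fin k)) *
          emb (Function.Embedding.inr.trans Function.Embedding.inr) (As (Fin k)))) := by
  have h3 := List.nodup_append.1 hnd
  have h1 := act_RY (k := k) us (cyw k none w) (emb ((qS k).trans (str k A)) (As (Fin k))) (fun i => by
      unfold cyw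
      rw [Perm.inv_eq_iff_eq]
      refine (List.formPerm_apply_of_notMem ?_).symm
      rw [List.mem_cons, not_or]
      refine ⟨fun e => ?_, str_notMem_map _ _⟩
      exact absurd ((str k A).injective e) (by simp [pS])) (fun a ha => by
      unfold cyw
      rw [Perm.inv_eq_iff_eq]
      refine (List.formPerm_apply_of_notMem ?_).symm
      rw [List.mem_cons, not_or, lab_mem_map]
      exact ⟨Ne.symm (str_ne_lab none a), fun h => h3.2.2 a h a ha rfl⟩) h3.2.1
  rw [h1, emb_g, dperm_via]
  have e1 : (pS k).trans (str k A) = Function.Embedding.inl.trans Function.Embedding.inr := by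
    ext i
    rfl
  have e2 : (qS k).trans (str k A) = Function.Embedding.inr.trans Function.Embedding.inr := by
    ext i
    rfl
  rw [e1, e2]

end rep

/-- **PART II** -/
theorem partII : PartII := by
  intro k A C _ _ _ c W _ lam h1 h2
  let Z0 : MG c k W := ⟨F0 lam, F0_good c lam h1 h2⟩
  let ev : AddMonoid.End (MG c k W) →+ W :=
    { toFun := fun e => (e Z0).1 ∅ 1
      map_zero' := rfl
      map_add' := fun _ _ => rfl }
  refine ⟨AddMonoid.End (MG c k W), inferInstance, SU c W, ev, SU_Anti c W, ?_⟩
  intro w us hnd hall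
  have h3 := Rep_val (k := k) (W := W) c w us hnd Z0 ∅ 1 (disjoint_empty_right _) (Sp_one ∅)
  have h4 : (pl us).toFinset ∪ w.toFinset ∪ ∅ = univ := by
    ext a
    rw [union_empty, mem_union, List.mem_toFinset, List.mem_toFinset]
    have h5 := hall a
    rw [List.mem_append] at h5
    exact ⟨fun _ => mem_univ _, fun _ => h5.symm⟩
  have h5 : Z0.1 univ = fun σ => lam (g σ) := by
    funext σ
    exact if_pos rfl
  rw [h4, h5, evP_lam, g_one, one_mul] at h3
  have h7 := sub_eq_zero.2 (act_final (k := k) w us hnd)
  rw [← map_sub] at h7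
  have h6 := h1 _ h7
  rw [map_sub, sub_eq_zero] at h6
  rw [← h6]
  exact h3

end Pool.PI34.EV
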