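import Pool.Agent.LibPI34.BA_D2

/-!
PI34, block EV (even input of (S_ex)), file Walk: the closing determinant of loops and of a path.
-/

set_option autoImplicit false
set_option linter.unusedSectionVars false

namespace Pool.PI34.EV

open Equiv Finset Matrix
open Pool.PI34.BA

variable {A Λ : Type*} [Fintype A] [DecidableEq A] [Ring Λ]

/-- the walk with weight `s` along a list -/
def wv (t : Λ) (x : A → Λ) : Λ → List A → A → Λ
  | _, [] => 0
  | s, [a] => Pi.single a s
  | s, a :: b :: v => Pi.single a s + wv t x (-(t * (s * x b))) (b :: v)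

/-- the rows of `R` follow the list -/
def Rows (R : Matrix A A Λ) (x : A → Λ) : List A → Prop
  | [] => True
  | [a] => R a = 0
  | a :: b :: v => R a = Pi.single b (x b) ∧ Rows R x (b :: v)

theorem single_vecMul' (R : Matrix A A Λ) (a : A) (s : Λ) :
    (Pi.single a s : A → Λ) ᵥ* R = fun j => s * R a j := by
  funext j
  simp [Matrix.vecMul, dotProduct, Pi.single_apply]

theorem wv_vecMul (t : Λ) (ht : ∀ y, t * y = y * t) (R : Matrix A A Λ) (x : A → Λ) (v : List A) :
    ∀ (a : A) (s : Λ), Rows R x (a :: v) →
      wv t x s (a :: v) + t • (wv t x s (a :: v) ᵥ* R) = Pi.single a s := by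
  induction v with
  | nil =>
    intro a s h
    have h0 : R a = 0 := h
    change (Pi.single a s : A → Λ) + t • ((Pi.single a s : A → Λ) ᵥ* R) = Pi.single a s
    rw [single_vecMul', h0]
    have h1 : (fun j => s * (0 : A → Λ) j) = 0 := by
      funext j
      simp
    rw [h1, smul_zero, add_zero]
  | cons b v ih =>
    intro a s h
    obtain ⟨h1, h2⟩ := h
    have h3 := ih b (-(t * (s * x b))) h2
    change (Pi.single a s + wv t x (-(t * (s * x b))) (b :: v)) + t • ((Pi.single a s +
      wv t x (-(t * (s * x b))) (b :: v)) ᵥ* R) = Pi.single a s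
    rw [Matrix.add_vecMul, single_vecMul', h1, smul_add]
    have h4 : t • (fun j => s * (Pi.single b (x b) : A → Λ) j) =
        (Pi.single b (t * (s * x b)) : A → Λ) := by
      funext j
      by_cases hj : j = b
      · subst hj
        simp
      · simp [Pi.single_apply, hj]
    rw [h4]
    have h5 : (Pi.single b (-(t * (s * x b))) : A → Λ) = - Pi.single b (t * (s * x b)) := by
      funext j
      by_cases hj : j = b
      · subst hj
        simp
      · simp [Pi.single_apply, hj]
    rw [h5] at h3
    calc _ = (Pi.single a s : A → Λ) + (Pi.single b (t * (s * x b)) +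
        (wv t x (-(t * (s * x b))) (b :: v) +
          t • (wv t x (-(t * (s * x b))) (b :: v) ᵥ* R))) := by abel
      _ = _ := by rw [h3, add_neg_cancel, add_zero]

theorem vecMul_inverse (t : Λ) (ht : ∀ y, t * y = y * t) (hn : IsNilpotent t) (R : Matrix A A Λ)
    (r c : A → Λ) (h : r + t • (r ᵥ* R) = c) : c ᵥ* Ring.inverse (1 + t • R) = r := by
  have hu := isUnit_one_add t ht hn R
  have h1 : r ᵥ* (1 + t • R) = c := by
    rw [← h, Matrix.vecMul_add, Matrix.vecMul_one]
    congr 1
    funext j
    simp only [Matrix.vecMul, dotProduct, Matrix.smul_apply, smul_eq_mul, Pi.smul_apply,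
      Finset.mul_sum]
    refine Finset.sum_congr rfl fun i _ => ?_
    rw [← mul_assoc, ← ht, mul_assoc]
  rw [← h1, Matrix.vecMul_vecMul, Ring.mul_inverse_cancel _ hu, Matrix.vecMul_one]

theorem walk_inverse (t : Λ) (ht : ∀ y, t * y = y * t) (hn : IsNilpotent t) (R : Matrix A A Λ)
    (x : A → Λ) (a : A) (v : List A) (s : Λ) (h : Rows R x (a :: v)) :
    (Pi.single a s : A → Λ) ᵥ* Ring.inverse (1 + t • R) = wv t x s (a :: v) :=
  vecMul_inverse t ht hn R _ _ (wv_vecMul t ht R x v a s h)

theorem wv_notMem (t : Λ) (x : A → Λ) (v : List A) : ∀ (s : Λ) (a : A), a ∉ v →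
    wv t x s v a = 0 := by
  induction v with
  | nil => intro s a _; rfl
  | cons b v ih =>
    intro s a ha
    have h1 : a ≠ b := fun h => ha (h ▸ List.mem_cons_self)
    have h2 : a ∉ v := fun h => ha (List.mem_cons_of_mem _ h)
    cases v with
    | nil =>
      change (Pi.single b s : A → Λ) a = 0
      simp [Pi.single_apply, h1]
    | cons c v =>
      change ((Pi.single b s : A → Λ) + wv t x (-(t * (s * x c))) (c :: v)) a = 0
      rw [Pi.add_apply, ih _ _ h2, add_zero]
      simp [Pi.single_apply, h1]

/-- the value at the end of the walk -/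
theorem wv_last (t : Λ) (ht : ∀ y, t * y = y * t) (x : A → Λ) (v : List A) :
    ∀ (a : A) (s : Λ), (a :: v).Nodup →
      wv t x s (a :: v) ((a :: v).getLast (by simp)) =
        (-t) ^ v.length * (s * (v.map x).prod) := by
  induction v with
  | nil =>
    intro a s _
    change (Pi.single a s : A → Λ) a = _
    simp
  | cons b v ih =>
    intro a s hnd
    have h1 : (b :: v).Nodup := (List.nodup_cons.1 hnd).2
    have h2 : a ∉ b :: v := (List.nodup_cons.1 hnd).1
    have h3 : (a :: b :: v).getLast (by simp) = (b :: v).getLast (by simp) :=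
      List.getLast_cons (by simp)
    rw [h3]
    change ((Pi.single a s : A → Λ) + wv t x (-(t * (s * x b))) (b :: v))
      ((b :: v).getLast (by simp)) = _
    rw [Pi.add_apply, ih b _ h1]
    have h4 : (b :: v).getLast (by simp) ≠ a := fun h => h2 (h ▸ List.getLast_mem (by simp))
    have h5 : (Pi.single a s : A → Λ) ((b :: v).getLast (by simp)) = 0 := by
      rw [Pi.single_apply, if_neg h4]
    rw [h5, zero_add, List.length_cons, List.map_cons, List.prod_cons, pow_succ]
    have h6 : ∀ m : ℕ, ∀ y, (-t) ^ m * y = y * (-t) ^ m := fun m y =>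
      ((show Commute (-t) y from by
        change -t * y = y * -t
        rw [neg_mul, mul_neg, ht]).pow_left m)
    simp only [mul_neg, neg_mul, mul_assoc]

/-! ### The factors -/

theorem factor_eq (t : Λ) (N : Matrix A A Λ) (a : A) (l : List A) :
    (N * Ring.inverse (1 + t • rowsIn N l)) a a =
      ((N a) ᵥ* Ring.inverse (1 + t • rowsIn N l)) a := rfl

theorem rowsIn_mem (N : Matrix A A Λ) {l : List A} {a : A} (h : a ∈ l) : rowsIn N l a = N a := by
  funext b
  simp [rowsIn, h]

theorem rowsIn_notMem (N : Matrix A A Λ) {l : List A} {a : A} (h : a ∉ l) :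
    rowsIn N l a = 0 := by
  funext b
  simp [rowsIn, h]

/-- a row that leaves the list contributes nothing -/
theorem factor_open (t : Λ) (ht : ∀ y, t * y = y * t) (hn : IsNilpotent t) (N : Matrix A A Λ)
    (a b : A) (s : Λ) (l : List A) (hN : N a = Pi.single b s) (hb : b ∉ l) (hab : a ≠ b) :
    dt t N (a :: l) = dt t N l := by
  rw [dt, factor_eq, hN, walk_inverse t ht hn (rowsIn N l) (fun _ => 0) b [] s
    (rowsIn_notMem N hb)]
  change dt t N l * (1 + t * (Pi.single b s : A → Λ) a) = _
  rw [Pi.single_apply, if_neg hab, mul_zero, add_zero, mul_one]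

theorem factor_zero (t : Λ) (N : Matrix A A Λ) (a : A) (l : List A) (hN : N a = 0) :
    dt t N (a :: l) = dt t N l := by
  rw [dt, factor_eq, hN, Matrix.zero_vecMul]
  simp

/-- the rows of `N` follow the list, the last one is arbitrary -/
def Follows (N : Matrix A A Λ) (x : A → Λ) : List A → Prop
  | [] => True
  | [_] => True
  | a :: b :: v => N a = Pi.single b (x b) ∧ Follows N x (b :: v)

/-- a list which follows `N` contributes nothing before its end -/
theorem dt_open (t : Λ) (ht : ∀ y, t * y = y * t) (hn : IsNilpotent t) (N : Matrix A A Λ)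
    (x : A → Λ) (b : A) (v : List A) : ∀ (l : List A), Follows N x (v ++ [b]) →
      ((v ++ [b]) ++ l).Nodup → dt t N (v.reverse ++ l) = dt t N l := by
  induction v using List.reverseRecOn generalizing b with
  | nil => intro l _ _; rfl
  | append_singleton v a ih =>
    intro l hF hnd
    have h1 : Follows N x (v ++ [a]) ∧ N a = Pi.single b (x b) := by
      clear ih hnd
      induction v with
      | nil => exact ⟨trivial, hF.1⟩
      | cons c v ih2 =>
        cases v with
        | nil => exact ⟨⟨hF.1, trivial⟩, hF.2.1⟩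
        | cons d v =>
          obtain ⟨h2, h3⟩ := ih2 hF.2
          exact ⟨⟨hF.1, h2⟩, h3⟩
    have hnd2 : (v ++ ([a] ++ [b] ++ l)).Nodup := by simpa using hnd
    have hnd3 : ((v ++ [a]) ++ l).Nodup := by
      refine List.Nodup.sublist ?_ hnd2
      simp
    have hb : b ∉ v.reverse ++ l := by
      intro hb
      rw [List.mem_append, List.mem_reverse] at hb
      rw [List.nodup_append] at hnd2
      rcases hb with hb | hb
      · exact hnd2.2.2 _ hb b (by simp) rfl
      · have := hnd2.2.1
        simp at this
        exact this.2.1 hb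
    have hab : a ≠ b := by
      have := (List.nodup_append.1 hnd2).2.1
      simp at this
      exact fun h => this.1.1 h
    rw [List.reverse_append, List.reverse_singleton, List.singleton_append, List.cons_append,
      factor_open t ht hn N a b (x b) _ h1.2 hb hab]
    exact ih a l h1.1 hnd3

theorem rows_of_follows (N : Matrix A A Λ) (x : A → Λ) (l : List A) : ∀ (v : List A) (b : A),
    Follows N x (v ++ [b]) → (∀ a ∈ v, a ∈ l) → b ∉ l → Rows (rowsIn N l) x (v ++ [b]) := by
  intro v
  induction v with
  | nil => intro b _ _ hb; exact rowsIn_notMem N hb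
  | cons a v ih =>
    intro b hF hv hb
    have h2 : ∀ a ∈ v, a ∈ l := fun c hc => hv c (List.mem_cons_of_mem _ hc)
    cases v with
    | nil => exact ⟨(rowsIn_mem N (hv a List.mem_cons_self)).trans hF.1, ih b hF.2 h2 hb⟩
    | cons c v => exact ⟨(rowsIn_mem N (hv a List.mem_cons_self)).trans hF.1, ih b hF.2 h2 hb⟩

/-- a loop -/
theorem dt_loop (t : Λ) (ht : ∀ y, t * y = y * t) (hn : IsNilpotent t) (N : Matrix A A Λ)
    (x : A → Λ) (a : A) (v : List A) (y : Λ) (hF : Follows N x (a :: v))
    (hN : N ((a :: v).getLast (by simp)) = Pi.single a (y * x a)) (l : List A)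
    (hnd : ((a :: v) ++ l).Nodup) :
    dt t N ((a :: v).reverse ++ l) =
      dt t N l * (1 - (-t) ^ (a :: v).length * (y * ((a :: v).map x).prod)) := by
  obtain ⟨w, b, hw⟩ : ∃ (w : List A) (b : A), a :: v = w ++ [b] :=
    ⟨(a :: v).dropLast, (a :: v).getLast (by simp), (List.dropLast_append_getLast _).symm⟩
  have hb : (a :: v).getLast (by simp) = b := by
    simp only [hw, List.getLast_append, List.getLast_singleton]
    simp
  rw [hb] at hN
  have hnd2 : (a :: v).Nodup := (List.nodup_append.1 hnd).1
  have hF' := hF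
  rw [hw] at hF' hnd
  have hbl : b ∉ w.reverse ++ l := by
    intro h
    rw [List.mem_append, List.mem_reverse] at h
    have h1 := List.nodup_append.1 hnd
    rcases h with h | h
    · exact (List.nodup_append.1 h1.1).2.2 _ h b (by simp) rfl
    · exact h1.2.2 b (by simp) _ h rfl
  have hR : Rows (rowsIn N (w.reverse ++ l)) x (a :: v) := by
    rw [hw]
    exact rows_of_follows N x _ w b hF' (fun c hc => by simp [hc]) hbl
  have h1 : (a :: v).reverse = b :: w.reverse := by
    rw [hw, List.reverse_append, List.reverse_singleton, List.singleton_append]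
  rw [h1, List.cons_append, dt, dt_open t ht hn N x b w l hF' hnd, factor_eq, hN,
    walk_inverse t ht hn _ x a v _ hR]
  have h2 := wv_last t ht x v a (y * x a) hnd2
  rw [hb] at h2
  rw [h2, List.length_cons, List.map_cons, List.prod_cons, pow_succ, sub_eq_add_neg]
  congr 2
  have h6 : ∀ m : ℕ, ∀ y, (-t) ^ m * y = y * (-t) ^ m := fun m y =>
      ((show Commute (-t) y from by
        change -t * y = y * -t
        rw [neg_mul, mul_neg, ht]).pow_left m)
  rw [mul_assoc y (x a), mul_assoc ((-t) ^ v.length) (-t), neg_mul t, mul_neg, neg_neg, ← mul_assoc t,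
    ← h6 v.length t, mul_assoc]

end Pool.PI34.EV
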