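import Pool.Agent.LibPI34.EX_B1

/-!
PI34, block EX, rows B4, B5, B6, B9: the signed action and the plain action.
-/

set_option autoImplicit false
set_option linter.unusedSectionVars false
set_option linter.unusedDecidableInType false
set_option linter.unusedFintypeInType false

namespace Pool.PI34.EX

open Equiv Finset
open Pool.PI34.Super (Lt odd pv prs)
open Pool.PI34.SK (W comp ins)
open Pool.PI34.H4 (P g emb As AK)

section B2

variable {O : Type} [CommRing O] {k l : ℕ} {ι : Type} [Fintype ι] [LinearOrder ι] {r : O}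


/-- The sign of a permutation as an operator. -/
def b2_epsOp (Q : Finset (ι × ι)) (σ : Perm ι) : EW O k l ι where
  toFun f := fun w => (∏ q ∈ Q, if pv w q.1 && pv w q.2 then (SK.H σ q.1 q.2 : O) else 1) * f w
  map_add' f g := by funext w; simp [mul_add]
  map_smul' c f := by funext w; simp; ring

theorem b2_epsOp_apply (Q : Finset (ι × ι)) (σ : Perm ι) (f : W O k l ι) (w : ι → Lt k l) :
    b2_epsOp Q σ f w =
      (∏ q ∈ Q, if pv w q.1 && pv w q.2 then (SK.H σ q.1 q.2 : O) else 1) * f w := rfl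

theorem b2_sf_g_apply (σ : Perm ι) (f : W O k l ι) (w : ι → Lt k l) :
    sf O k l ι (g σ) f w = SK.eps σ (pv (w ∘ σ)) * f (w ∘ σ) := by
  have h : sf O k l ι (g σ) = SK.rho O k l ι σ := SK.act_of σ
  rw [h]
  rfl

theorem b2_pf_g_apply (σ : Perm ι) (f : W O k l ι) (w : ι → Lt k l) :
    pf O k l ι (g σ) f w = f (w ∘ σ) := pa_g O (Lt k l) σ f w

theorem b2_sf_g (σ : Perm ι) :
    sf O k l ι (g σ) = pf O k l ι (g σ) * b2_epsOp (prs ι) σ := by
  apply LinearMap.ext
  intro f
  funext w
  rw [b2_sf_g_apply, Module.End.mul_apply, b2_pf_g_apply]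
  rfl

theorem b2_ds_empty : (ds r ∅ : EW O k l ι) = 1 := by
  apply LinearMap.ext
  intro f
  funext w
  rw [ds_apply]
  simp

/-- The span of the `δ_S` with at least `j` places. -/
def b2_DJ (O : Type) [CommRing O] (k l : ℕ) (ι : Type) [Fintype ι] [LinearOrder ι] (r : O) (j : ℕ) :
    Submodule O (EW O k l ι) :=
  Submodule.span O {x | ∃ S : Finset ι, j ≤ S.card ∧ x = ds r S}

theorem b2_DJ_mul (T : Finset ι) {j : ℕ} {x : EW O k l ι} (hx : x ∈ b2_DJ O k l ι r j) :
    ds r T * x ∈ b2_DJ O k l ι r j := by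
  unfold b2_DJ at hx ⊢
  induction hx using Submodule.span_induction with
  | mem x hx =>
    obtain ⟨S, hS, rfl⟩ := hx
    rw [ds_mul]
    exact Submodule.smul_mem _ _ (Submodule.subset_span
      ⟨T ∪ S, hS.trans (Finset.card_le_card Finset.subset_union_right), rfl⟩)
  | zero => rw [mul_zero]; exact Submodule.zero_mem _
  | add x y _ _ hx hy => rw [mul_add]; exact Submodule.add_mem _ hx hy
  | smul c x _ hx => rw [mul_smul_comm]; exact Submodule.smul_mem _ _ hx

theorem b2_DJ_mul' (T : Finset ι) {j : ℕ} {x : EW O k l ι} (hx : x ∈ b2_DJ O k l ι r j) :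
    x * ds r T ∈ b2_DJ O k l ι r j := by
  unfold b2_DJ at hx ⊢
  induction hx using Submodule.span_induction with
  | mem x hx =>
    obtain ⟨S, hS, rfl⟩ := hx
    rw [ds_mul]
    exact Submodule.smul_mem _ _ (Submodule.subset_span
      ⟨S ∪ T, hS.trans (Finset.card_le_card Finset.subset_union_left), rfl⟩)
  | zero => rw [zero_mul]; exact Submodule.zero_mem _
  | add x y _ _ hx hy => rw [add_mul]; exact Submodule.add_mem _ hx hy
  | smul c x _ hx => rw [smul_mul_assoc]; exact Submodule.smul_mem _ _ hx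

theorem b2_ds_pair_apply (hr : r * r = 2) {i j : ι} (hij : i ≠ j) (f : W O k l ι) (w : ι → Lt k l) :
    ds r {i, j} f w = (if pv w i && pv w j then (2 : O) else 0) * f w := by
  rw [ds_apply, Finset.prod_pair hij]
  congr 1
  unfold pv
  by_cases h1 : odd (w i) <;> by_cases h2 : odd (w j) <;> simp [h1, h2, hr]

theorem b2_epsOp_insert (hr : r * r = 2) {q : ι × ι} {Q : Finset (ι × ι)} (hq : q ∉ Q)
    (hq' : q.1 ≠ q.2) (σ : Perm ι) :
    (b2_epsOp (insert q Q) σ : EW O k l ι) =
      if (q.1 < q.2 ↔ σ q.1 < σ q.2) then b2_epsOp Q σ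
      else b2_epsOp Q σ - ds r {q.1, q.2} * b2_epsOp Q σ := by
  apply LinearMap.ext
  intro f
  funext w
  rw [b2_epsOp_apply, Finset.prod_insert hq]
  by_cases h : (q.1 < q.2 ↔ σ q.1 < σ q.2)
  · rw [if_pos h, b2_epsOp_apply]
    have h1 : (SK.H σ q.1 q.2 : O) = 1 := by unfold SK.H; rw [if_pos h]
    rw [h1]
    simp
  · rw [if_neg h, LinearMap.sub_apply, Module.End.mul_apply, Pi.sub_apply, b2_ds_pair_apply hr hq',
      b2_epsOp_apply]
    have h1 : (SK.H σ q.1 q.2 : O) = -1 := by unfold SK.H; rw [if_neg h]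
    rw [h1]
    by_cases h2 : (pv w q.1 && pv w q.2) = true
    · rw [if_pos h2, if_pos h2]; ring
    · rw [if_neg h2, if_neg h2]; ring

theorem b2_epsOp_empty (σ : Perm ι) : (b2_epsOp ∅ σ : EW O k l ι) = 1 := by
  apply LinearMap.ext
  intro f
  funext w
  rw [b2_epsOp_apply]
  simp

theorem b2_epsOp_sub_one (hr : r * r = 2) (σ : Perm ι) (Q : Finset (ι × ι)) :
    (∀ q ∈ Q, q.1 ≠ q.2) → (b2_epsOp Q σ - 1 : EW O k l ι) ∈ b2_DJ O k l ι r 2 := by
  classical
  induction Q using Finset.induction_on with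
  | empty => intro _; rw [b2_epsOp_empty, sub_self]; exact Submodule.zero_mem _
  | insert q Q hq ih =>
    intro hQ
    have h1 := ih (fun x hx => hQ x (Finset.mem_insert_of_mem hx))
    have hne : q.1 ≠ q.2 := hQ q (Finset.mem_insert_self _ _)
    rw [b2_epsOp_insert hr hq hne]
    split_ifs with h
    · exact h1
    · have h2 : (b2_epsOp Q σ - ds r {q.1, q.2} * b2_epsOp Q σ - 1 : EW O k l ι) =
          (b2_epsOp Q σ - 1) - (ds r {q.1, q.2} + ds r {q.1, q.2} * (b2_epsOp Q σ - 1)) := by
        rw [mul_sub, mul_one]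
        abel
      rw [h2]
      refine Submodule.sub_mem _ h1 (Submodule.add_mem _ (Submodule.subset_span
        ⟨{q.1, q.2}, ?_, rfl⟩) (b2_DJ_mul _ h1))
      rw [Finset.card_pair hne]

theorem b2_prs_ne {q : ι × ι} (hq : q ∈ prs ι) : q.1 ≠ q.2 := (Super.mem_prs.1 hq).ne

theorem b2_pf_mul_DJ (σ : Perm ι) {j : ℕ} {x : EW O k l ι} (hx : x ∈ b2_DJ O k l ι r j) :
    pf O k l ι (g σ) * x ∈ FR k l ι r j := by
  unfold b2_DJ at hx
  unfold FR
  induction hx using Submodule.span_induction with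
  | mem x hx =>
    obtain ⟨S, hS, rfl⟩ := hx
    exact Submodule.subset_span ⟨σ, S, Or.inl ⟨hS, rfl⟩⟩
  | zero => rw [mul_zero]; exact Submodule.zero_mem _
  | add x y _ _ hx hy => rw [mul_add]; exact Submodule.add_mem _ hx hy
  | smul c x _ hx => rw [mul_smul_comm]; exact Submodule.smul_mem _ _ hx

/-- ROW B4. -/
theorem sf_sub_pf (hr : r * r = 2) (y : P ι) : sf O k l ι y - pf O k l ι y ∈ FR k l ι r 2 := by
  induction y using H4.P_induction with
  | h1 σ =>
    rw [b2_sf_g]
    have h : pf O k l ι (g σ) * b2_epsOp (prs ι) σ - pf O k l ι (g σ) =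
        pf O k l ι (g σ) * (b2_epsOp (prs ι) σ - 1) := by
      rw [mul_sub, mul_one]
    rw [h]
    exact b2_pf_mul_DJ σ (b2_epsOp_sub_one hr σ _ (fun q hq => b2_prs_ne hq))
  | h2 x y hx hy =>
    rw [map_add, map_add, add_sub_add_comm]
    exact Submodule.add_mem _ hx hy
  | h3 n x hx =>
    rw [map_zsmul, map_zsmul]
    have h : n • sf O k l ι x - n • pf O k l ι x = n • (sf O k l ι x - pf O k l ι x) :=
      (zsmul_sub _ _ n).symm
    rw [h]
    exact zsmul_mem hx n

/-- ROW B5. -/
theorem sf_swap_adj (hr : r * r = 2) {p q : ι} (h : p ⋖ q) :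
    sf O k l ι (g (swap p q)) = pf O k l ι (g (swap p q)) * (1 - ds r {p, q}) := by
  classical
  rw [b2_sf_g]
  congr 1
  have hpq : p < q := h.1
  apply LinearMap.ext
  intro f
  funext w
  rw [b2_epsOp_apply, LinearMap.sub_apply, Pi.sub_apply, b2_ds_pair_apply hr hpq.ne, Module.End.one_apply]
  have hmem : ((p, q) : ι × ι) ∈ prs ι := Super.mem_prs.2 hpq
  rw [Finset.prod_eq_single_of_mem (p, q) hmem]
  · have h1 : (SK.H (swap p q) p q : O) = -1 := by
      unfold SK.H
      rw [swap_apply_left, swap_apply_right, if_neg]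
      intro e
      exact lt_asymm hpq (e.1 hpq)
    simp only [h1]
    by_cases h2 : (pv w p && pv w q) = true
    · rw [if_pos h2, if_pos h2]; ring
    · rw [if_neg h2, if_neg h2]; ring
  · rintro ⟨i, j⟩ hij hne
    have hlt : i < j := Super.mem_prs.1 hij
    have h1 : (SK.H (swap p q) i j : O) = 1 := by
      unfold SK.H
      rw [if_pos]
      refine ⟨fun _ => ?_, fun _ => hlt⟩
      by_cases hi : i = p
      · subst hi
        have hjq : j ≠ q := fun e => hne (by rw [e])
        have hji : j ≠ i := hlt.ne'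
        rw [swap_apply_left, swap_apply_of_ne_of_ne hji hjq]
        rcases lt_or_ge q j with h3 | h3
        · exact h3
        · exact absurd (lt_of_le_of_ne h3 hjq) (h.2 hlt)
      · by_cases hi' : i = q
        · subst hi'
          have hjp : j ≠ p := (hpq.trans hlt).ne'
          rw [swap_apply_right, swap_apply_of_ne_of_ne hjp hlt.ne']
          exact hpq.trans hlt
        · rw [swap_apply_of_ne_of_ne hi hi']
          by_cases hj : j = p
          · subst hj
            rw [swap_apply_left]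
            exact hlt.trans hpq
          · by_cases hj' : j = q
            · subst hj'
              rw [swap_apply_right]
              rcases lt_or_ge i p with h3 | h3
              · exact h3
              · exact absurd hlt (h.2 (lt_of_le_of_ne h3 (Ne.symm hi)))
            · rw [swap_apply_of_ne_of_ne hj hj']
              exact hlt
    simp only [h1, ite_self]

/-- ROW B6. -/
theorem sf_ds (σ : Perm ι) (S : Finset ι) :
    sf O k l ι (g σ) * ds r S = ds r (S.map σ.toEmbedding) * sf O k l ι (g σ) := by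
  apply LinearMap.ext
  intro f
  funext w
  rw [Module.End.mul_apply, Module.End.mul_apply, b2_sf_g_apply, ds_apply, ds_apply, b2_sf_g_apply,
    Finset.prod_map]
  simp only [Equiv.coe_toEmbedding, Function.comp_apply]
  ring

theorem b2_epsOp_sq (σ : Perm ι) : (b2_epsOp (prs ι) σ * b2_epsOp (prs ι) σ : EW O k l ι) = 1 := by
  apply LinearMap.ext
  intro f
  funext w
  rw [Module.End.mul_apply, Module.End.one_apply, b2_epsOp_apply, b2_epsOp_apply, ← mul_assoc]
  have h := SK.eps_sq (K := O) σ (pv w)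
  unfold SK.eps at h
  rw [h, one_mul]

theorem b2_pf_g_eq (σ : Perm ι) :
    pf O k l ι (g σ) = sf O k l ι (g σ) * b2_epsOp (prs ι) σ := by
  rw [b2_sf_g, mul_assoc, b2_epsOp_sq, mul_one]

/-- ROW B9. -/
theorem FR_le_sf (hr : r * r = 2) : FR k l ι r 0 ≤ Submodule.span O
    {x | ∃ (σ : Perm ι) (S : Finset ι), x = sf O k l ι (g σ) * ds r S} := by
  have key : ∀ (σ : Perm ι) (x : EW O k l ι), x ∈ b2_DJ O k l ι r 0 →
      sf O k l ι (g σ) * x ∈ Submodule.span O
        {x | ∃ (σ : Perm ι) (S : Finset ι), x = sf O k l ι (g σ) * ds r S} := by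
    intro σ x hx
    unfold b2_DJ at hx
    induction hx using Submodule.span_induction with
    | mem x hx =>
      obtain ⟨S, -, rfl⟩ := hx
      exact Submodule.subset_span ⟨σ, S, rfl⟩
    | zero => rw [mul_zero]; exact Submodule.zero_mem _
    | add x y _ _ hx hy => rw [mul_add]; exact Submodule.add_mem _ hx hy
    | smul c x _ hx => rw [mul_smul_comm]; exact Submodule.smul_mem _ _ hx
  have key2 : ∀ (σ : Perm ι) (S : Finset ι), pf O k l ι (g σ) * ds r S ∈ Submodule.span O
        {x | ∃ (σ : Perm ι) (S : Finset ι), x = sf O k l ι (g σ) * ds r S} := by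
    intro σ S
    rw [b2_pf_g_eq, mul_assoc]
    refine key σ _ (b2_DJ_mul' S ?_)
    have h1 : (b2_epsOp (prs ι) σ - 1 : EW O k l ι) ∈ b2_DJ O k l ι r 0 := by
      have h2 := b2_epsOp_sub_one (O := O) (k := k) (l := l) hr σ (prs ι) (fun q hq => b2_prs_ne hq)
      have h3 : b2_DJ O k l ι r 2 ≤ b2_DJ O k l ι r 0 := by
        unfold b2_DJ
        refine Submodule.span_mono ?_
        rintro x ⟨S, -, rfl⟩
        exact ⟨S, Nat.zero_le _, rfl⟩
      exact h3 h2
    have h4 : (b2_epsOp (prs ι) σ : EW O k l ι) = (b2_epsOp (prs ι) σ - 1) + ds r ∅ := by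
      rw [b2_ds_empty, sub_add_cancel]
    rw [h4]
    exact Submodule.add_mem _ h1 (Submodule.subset_span ⟨∅, Nat.zero_le _, rfl⟩)
  unfold FR
  rw [Submodule.span_le]
  rintro x ⟨σ, S, hx | hx⟩
  · rw [hx.2]; exact key2 σ S
  · rw [hx]; exact Submodule.smul_mem _ _ (key2 σ S)

end B2

end Pool.PI34.EX
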