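import Pool.Agent.LibPI34.EX_RD
import Pool.Agent.LibPI34.EX_B2

/-!
PI34, block EX, group R1: rows R1, A3, R4.
-/

set_option autoImplicit false
set_option linter.unusedSectionVars false
set_option linter.unusedDecidableInType false
set_option linter.unusedFintypeInType false

namespace Pool.PI34.EX

open Equiv Finset
open Pool.PI34.Super (Lt odd pv prs)
open Pool.PI34.SK (W comp ins)
open Pool.PI34.H4 (P g emb As AK)


section R

variable {O : Type} [CommRing O] {k l m : ℕ} {ι : Type} [Fintype ι] [LinearOrder ι] {r : O}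
variable {V : VD (m + 1)} {Wd : WD ((m + 1) ^ (m + 1))}

/-- ROW R1. -/
theorem AS_erase {s : Finset (Fin (JJ m + 1))} {a : Fin (JJ m + 1)} (ha : a ∈ s) :
    (AS s : P (I0 m V Wd)) = emb (D a) (As (Fin (m + 1))) * AS (s.erase a) := by
  have h1 : (s.map Function.Embedding.some : Finset (Option (Fin (JJ m + 1)))) =
      insert (some a) ((s.erase a).map Function.Embedding.some) := by
    rw [← Finset.insert_erase ha, Finset.map_insert, Finset.erase_insert (Finset.notMem_erase a s)]
    rfl
  have h2 : (some a : Option (Fin (JJ m + 1))) ∉ (s.erase a).map Function.Embedding.some := by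
    simp
  unfold AS
  rw [h1, H4.AK_insert _ _ _ h2]
  congr 1
  refine H4.AK_single col (some a) (D a) ?_
  ext x
  simp only [Set.mem_range, Set.mem_ofPred_eq]
  constructor
  · rintro ⟨i, rfl⟩
    rfl
  · intro hx
    rcases x with ⟨y, i⟩ | x
    · rcases y with y | y
      · simp [col] at hx
      · have h3 : y = a := by
          simpa [col] using hx
        subst h3
        exact ⟨i, rfl⟩
    · simp [col] at hx

theorem map_eq_of_fix {β : Type} (σ : Perm β) (S : Finset β) (h : ∀ x ∈ S, σ x = x) :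
    S.map σ.toEmbedding = S := by
  classical
  refine Finset.eq_of_subset_of_card_le ?_ (by rw [Finset.card_map])
  intro y hy
  rw [Finset.mem_map] at hy
  obtain ⟨x, hx, rfl⟩ := hy
  have h1 : σ.toEmbedding x = x := h x hx
  rw [h1]
  exact hx

/-- ROW A3. -/
theorem sf_ds_comm (e : I0 m V Wd ↪ ι) (y : P (I0 m V Wd)) (S : Finset ι) (hS : ∀ x, e x ∉ S) :
    Commute (sf O k l ι (emb e y)) (ds r S) := by
  refine H4.P_induction (p := fun y => Commute (sf O k l ι (emb e y)) (ds r S)) y ?_ ?_ ?_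
  · intro σ
    rw [H4.emb_g]
    unfold Commute SemiconjBy
    rw [sf_ds, map_eq_of_fix]
    intro x hx
    refine Perm.viaEmbedding_apply_of_notMem _ _ _ ?_
    rintro ⟨z, rfl⟩
    exact hS z hx
  · intro a b ha hb
    rw [map_add, map_add]
    exact Commute.add_left ha hb
  · intro n a ha
    rw [H4.emb_zsmul, map_zsmul]
    exact Commute.smul_left ha n


theorem p0_inj {a b : Fin (JJ m + 1)} (h : (p0 a : I0 m V Wd) = p0 b) : a = b := by
  have h1 := congrArg Prod.fst (Sum.inl_injective h)
  exact Sum.inr_injective h1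

theorem bl_g {α : Type} (n : ℕ) (σ : Perm α) : bl n (g σ) = g (blHom n α σ) := by
  simp [bl, g, MonoidAlgebra.of_apply]

theorem ba_g (a : Fin (JJ m)) : (ba a : P (I0 m V Wd)) =
    g ((blHom (m + 1) _ (swap (Sum.inr a.castSucc) (Sum.inr a.succ))).viaEmbedding
      Function.Embedding.inl) := by
  unfold ba bw
  rw [bl_g, H4.emb_g]

theorem ba_p0 (a : Fin (JJ m)) (c : Fin (JJ m + 1)) :
    ((blHom (m + 1) (Wd.Y ⊕ Fin (JJ m + 1))
      (swap (Sum.inr a.castSucc) (Sum.inr a.succ))).viaEmbedding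
      Function.Embedding.inl : Perm (I0 m V Wd)) (p0 c) = p0 (swap a.castSucc a.succ c) := by
  have h0 : (p0 c : I0 m V Wd) = Function.Embedding.inl (Sum.inr c, 0) := rfl
  rw [h0, Perm.viaEmbedding_apply]
  have h1 : (blHom (m + 1) (Wd.Y ⊕ Fin (JJ m + 1))
      (swap (Sum.inr a.castSucc) (Sum.inr a.succ))) (Sum.inr c, (0 : Fin (m + 1))) =
      (swap (Sum.inr a.castSucc) (Sum.inr a.succ) (Sum.inr c), 0) := rfl
  rw [h1]
  have h2 : swap (Sum.inr a.castSucc : Wd.Y ⊕ Fin (JJ m + 1)) (Sum.inr a.succ) (Sum.inr c) =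
      Sum.inr (swap a.castSucc a.succ c) :=
    (Function.Injective.swap_apply Sum.inr_injective a.castSucc a.succ c)
  rw [h2]
  rfl

theorem via_fix_map (e : I0 m V Wd ↪ ι) (σ : Perm (I0 m V Wd)) (s : Finset (Fin (JJ m + 1)))
    (h : ∀ c ∈ s, σ (p0 c) = p0 c) :
    Commute (pf O k l ι (emb e (g σ))) (ds r ((P0 s).map e)) := by
  rw [H4.emb_g]
  unfold Commute SemiconjBy
  rw [pf_ds, map_eq_of_fix]
  intro x hx
  rw [Finset.mem_map] at hx
  obtain ⟨z, hz, rfl⟩ := hx
  rw [Perm.viaEmbedding_apply]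
  unfold P0 at hz
  rw [Finset.mem_map] at hz
  obtain ⟨c, hc, rfl⟩ := hz
  congr 1
  exact h c hc

/-- ROW R4: `f` and `τ` commute with the other `δ`, `τ` commutes with all. -/
theorem tau_ds (e : I0 m V Wd ↪ ι) (a : Fin (JJ m)) (s : Finset (Fin (JJ m + 1))) :
    Commute (pf O k l ι (emb e (tau a))) (ds r ((P0 s).map e)) ∧
      (a.castSucc ∉ s → a.succ ∉ s →
        Commute (pf O k l ι (emb e (fa a))) (ds r ((P0 s).map e))) := by
  constructor
  · have h1 : (tau a : P (I0 m V Wd)) = g (swap (p0 a.castSucc) (p0 a.succ) *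
        (blHom (m + 1) _ (swap (Sum.inr a.castSucc) (Sum.inr a.succ))).viaEmbedding
          Function.Embedding.inl) := by
      unfold tau fa
      rw [ba_g, H4.g_mul]
    rw [h1]
    refine via_fix_map e _ s ?_
    intro c _
    rw [Perm.mul_apply, ba_p0]
    have h2 : Function.Injective (p0 : Fin (JJ m + 1) → I0 m V Wd) := fun x y h => p0_inj h
    rw [h2.swap_apply, swap_apply_self]
  · intro h1 h2
    unfold fa
    refine via_fix_map e _ s ?_
    intro c hc
    rw [swap_apply_of_ne_of_ne]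
    · intro h
      rw [p0_inj h] at hc
      exact h1 hc
    · intro h
      rw [p0_inj h] at hc
      exact h2 hc

end R

end Pool.PI34.EX
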