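import Pool.Agent.LibPI34.EX_C2
import Pool.Agent.LibPI34.EX_R1

set_option autoImplicit false
set_option linter.unusedSectionVars false
set_option linter.unusedDecidableInType false
set_option linter.unusedFintypeInType false

namespace Pool.PI34.EX

open Equiv Finset
open Pool.PI34.Super (Lt odd pv prs)
open Pool.PI34.SK (W comp ins)
open Pool.PI34.H4 (P g emb As AK)


/-! ### A1: absorption of one `δ` -/

section A1

variable {O : Type} [CommRing O] {k l m : ℕ} {ι : Type} [Fintype ι] [LinearOrder ι] {r : O}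
variable {V : VD (m + 1)} {Wd : WD ((m + 1) ^ (m + 1))}

theorem A1_map_swap (S : Finset ι) {x y : ι} (hx : x ∉ S) (hy : y ∉ S) :
    S.map (swap x y).toEmbedding = S := by
  have h : ∀ z ∈ S, swap x y z = z := fun z hz =>
    swap_apply_of_ne_of_ne (fun h => hx (h ▸ hz)) (fun h => hy (h ▸ hz))
  ext z
  rw [Finset.mem_map]
  constructor
  · rintro ⟨w, hw, rfl⟩
    have : (swap x y).toEmbedding w = w := h w hw
    rw [this]
    exact hw
  · intro hz
    exact ⟨z, hz, h z hz⟩

theorem A1_ds_comm (S : Finset ι) {x y : ι} (hx : x ∉ S) (hy : y ∉ S) :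
    (ds r S : EW O k l ι) * pf O k l ι (g (swap x y)) = pf O k l ι (g (swap x y)) * ds r S := by
  rw [pf_ds, A1_map_swap S hx hy]

theorem A1_ds_insert (S : Finset ι) {a : ι} (ha : a ∉ S) :
    (ds r (insert a S) : EW O k l ι) = ds r S * ds r {a} := by
  rw [ds_mul]
  have h1 : S ∩ {a} = ∅ := by
    rw [Finset.inter_singleton_of_notMem ha]
  have h2 : S ∪ {a} = insert a S := by
    ext z
    simp
  rw [h1, h2, Finset.card_empty, pow_zero, one_smul]

/-- a `δ` inside a determinant can be moved to the first place of the determinant -/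
theorem A1_move (D' : Fin (m + 1) ↪ ι) (i : Fin (m + 1)) :
    (ds r {D' i} : EW O k l ι) * pf O k l ι (emb D' (As (Fin (m + 1)))) =
      ((Perm.sign (swap i 0) : ℤˣ) : ℤ) • (pf O k l ι (g (swap (D' i) (D' 0))) *
        (ds r {D' 0} * pf O k l ι (emb D' (As (Fin (m + 1)))))) := by
  have h1 : g (swap (D' i) (D' 0)) * emb D' (As (Fin (m + 1))) =
      ((Perm.sign (swap i 0) : ℤˣ) : ℤ) • emb D' (As (Fin (m + 1))) := by
    rw [← H4.swap_via D' i 0, ← H4.emb_g, ← map_mul, H4.g_mul_As, H4.emb_zsmul]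
  have h2 : pf O k l ι (g (swap (D' i) (D' 0))) * pf O k l ι (emb D' (As (Fin (m + 1)))) =
      ((Perm.sign (swap i 0) : ℤˣ) : ℤ) • pf O k l ι (emb D' (As (Fin (m + 1)))) := by
    rw [← map_mul, h1, map_zsmul]
  have h3 : ({D' 0} : Finset ι).map (swap (D' i) (D' 0)).toEmbedding = {D' i} := by
    rw [Finset.map_singleton]
    congr 1
    exact swap_apply_right _ _
  have h4 : pf O k l ι (g (swap (D' i) (D' 0))) * (ds r {D' 0} : EW O k l ι) =
      ds r {D' i} * pf O k l ι (g (swap (D' i) (D' 0))) := by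
    rw [pf_ds, h3]
  rw [← mul_assoc, h4, mul_assoc, h2, mul_smul_comm, smul_smul]
  have h5 : (((Perm.sign (swap i 0) : ℤˣ) : ℤ)) * ((Perm.sign (swap i 0) : ℤˣ) : ℤ) = 1 := by
    rw [← Units.val_mul, Int.units_mul_self, Units.val_one]
  rw [h5, one_smul]

/-- ROW A1. -/
theorem absorb_one (hm : k + l = m + 1) (e : I0 m V Wd ↪ ι) (a : ι) (ha : ∀ x, e x ≠ a)
    (c : Fin (JJ m + 1)) (S : Finset ι) (haS : a ∉ S) (hcS : ∀ i, e (D c i) ∉ S) :
    ds r (insert a S) * Om O k l e ∈ Submodule.span O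
      {x | ∃ σ : Perm ι, x = pf O k l ι (g σ) * (ds r (insert (e (p0 c)) S) * Om O k l e)} := by
  set D' : Fin (m + 1) ↪ ι := (D (V := V) (Wd := Wd) c).trans e with hD'
  have hDi : ∀ i, D' i = e (D c i) := fun i => rfl
  have hD0 : D' 0 = e (p0 c) := rfl
  have hOm : Om O k l e = pf O k l ι (emb D' (As (Fin (m + 1)))) *
      pf O k l ι (emb e (AS (univ.erase c) * ww * zz)) := by
    unfold Om Om0
    rw [AS_erase (mem_univ c), mul_assoc, mul_assoc, map_mul, H4.emb_trans, map_mul,
      mul_assoc (AS (univ.erase c) : P (I0 m V Wd))]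
  set R : EW O k l ι := pf O k l ι (emb e (AS (univ.erase c) * ww * zz)) with hR
  set Q : EW O k l ι := pf O k l ι (emb D' (As (Fin (m + 1)))) with hQ
  have key : ds r (insert a S) * Om O k l e = ∑ i, ((Perm.sign (swap i 0) : ℤˣ) : ℤ) •
      (pf O k l ι (g (swap a (D' i) * swap (D' i) (D' 0))) *
        (ds r (insert (e (p0 c)) S) * Om O k l e)) := by
    rw [hOm, A1_ds_insert S haS, ← mul_assoc, mul_assoc (ds r S) (ds r {a}) Q, hQ,
      exch_ds hm D' a (fun i => ha _), Finset.mul_sum, Finset.sum_mul]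
    refine Finset.sum_congr rfl fun i _ => ?_
    have hi : D' i ∉ S := hcS i
    have h0 : D' 0 ∉ S := hcS 0
    rw [A1_move, ← hQ, H4.g_mul, map_mul, ← hD0, A1_ds_insert S h0]
    rw [mul_smul_comm, mul_smul_comm, smul_mul_assoc]
    congr 1
    have c1 := A1_ds_comm (O := O) (k := k) (l := l) (r := r) S haS hi
    have c2 := A1_ds_comm (O := O) (k := k) (l := l) (r := r) S hi h0
    calc ds r S * (pf O k l ι (g (swap a (D' i))) * (pf O k l ι (g (swap (D' i) (D' 0))) *
          (ds r {D' 0} * Q))) * R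
        = (ds r S * pf O k l ι (g (swap a (D' i)))) * pf O k l ι (g (swap (D' i) (D' 0))) *
          (ds r {D' 0} * Q) * R := by simp only [mul_assoc]
      _ = pf O k l ι (g (swap a (D' i))) * (ds r S * pf O k l ι (g (swap (D' i) (D' 0)))) *
          (ds r {D' 0} * Q) * R := by rw [c1]; simp only [mul_assoc]
      _ = pf O k l ι (g (swap a (D' i))) * pf O k l ι (g (swap (D' i) (D' 0))) *
          (ds r S * ds r {D' 0} * (Q * R)) := by rw [c2]; simp only [mul_assoc]
  rw [key]
  refine Submodule.sum_mem _ fun i _ => ?_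
  refine zsmul_mem ?_ _
  exact Submodule.subset_span ⟨_, rfl⟩

end A1

end Pool.PI34.EX
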