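import Pool.Agent.LibPI34.EX_A1

set_option autoImplicit false
set_option linter.unusedSectionVars false
set_option linter.unusedDecidableInType false
set_option linter.unusedFintypeInType false

namespace Pool.PI34.EX

open Equiv Finset
open Pool.PI34.Super (Lt odd pv prs)
open Pool.PI34.SK (W comp ins)
open Pool.PI34.H4 (P g emb As AK)

section R

variable {O : Type} [CommRing O] {k l m : ℕ} {ι : Type} [Fintype ι] [LinearOrder ι] {r : O}
variable {V : VD (m + 1)} {Wd : WD ((m + 1) ^ (m + 1))}


/-- ROW A2. -/
theorem absorb (hm : k + l = m + 1) (e : I0 m V Wd ↪ ι) (T S : Finset ι)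
    (v : Finset (Fin (JJ m + 1))) (hT : ∀ x, e x ∉ T) (hS : ∀ x, e x ∉ S) (hTS : Disjoint T S)
    (hc : T.card + v.card ≤ JJ m + 1) :
    ds r (T ∪ S ∪ (P0 v).map e) * Om O k l e ∈ Submodule.span O
      {x | ∃ (σ : Perm ι) (v' : Finset (Fin (JJ m + 1))), v'.card = T.card + v.card ∧
        x = pf O k l ι (g σ) * (ds r (S ∪ (P0 v').map e) * Om O k l e)} := by
  induction T using Finset.induction_on generalizing v with
  | empty =>
    refine Submodule.subset_span ⟨1, v, by simp, ?_⟩
    have h1 : (g (1 : Perm ι) : P ι) = 1 := rfl
    rw [h1, map_one, one_mul, Finset.empty_union]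
  | insert a T ha ih =>
    have haT : ∀ x, e x ≠ a := fun x h => hT x (by rw [h]; exact Finset.mem_insert_self _ _)
    have hT' : ∀ x, e x ∉ T := fun x h => hT x (Finset.mem_insert_of_mem h)
    have haS : a ∉ S := fun h => (Finset.disjoint_left.mp hTS) (Finset.mem_insert_self _ _) h
    have hTS' : Disjoint T S :=
      Finset.disjoint_left.mpr fun x hx hx' =>
        (Finset.disjoint_left.mp hTS) (Finset.mem_insert_of_mem hx) hx'
    rw [Finset.card_insert_of_notMem ha] at hc
    obtain ⟨c, hcv⟩ : ∃ c : Fin (JJ m + 1), c ∉ v := by
      by_contra hcon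
      push Not at hcon
      have h2 : v = Finset.univ := Finset.eq_univ_iff_forall.mpr hcon
      rw [h2, Finset.card_univ, Fintype.card_fin] at hc
      omega
    have key := absorb_one (r := r) (O := O) (k := k) (l := l) hm e a haT c
      (T ∪ S ∪ (P0 v).map e) (by
        intro h
        rcases Finset.mem_union.mp h with h | h
        · rcases Finset.mem_union.mp h with h | h
          · exact ha h
          · exact haS h
        · obtain ⟨x, _, hx⟩ := Finset.mem_map.mp h
          exact haT x hx) (by
        intro i h
        rcases Finset.mem_union.mp h with h | h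
        · rcases Finset.mem_union.mp h with h | h
          · exact hT' _ h
          · exact hS _ h
        · obtain ⟨x, hx, hxe⟩ := Finset.mem_map.mp h
          obtain ⟨c', hc', hcx⟩ := Finset.mem_map.mp hx
          have h3 : x = D c i := e.injective hxe
          have h4 : (p0 c' : I0 m V Wd) = D c i := by rw [← h3]; exact hcx
          have h5 : c' = c := by
            have h6 := Sum.inl_injective h4
            have h7 := congrArg Prod.fst h6
            exact Sum.inr_injective h7
          exact hcv (h5 ▸ hc'))
    have hset : insert a T ∪ S ∪ (P0 v).map e = insert a (T ∪ S ∪ (P0 v).map e) := by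
      rw [Finset.insert_union, Finset.insert_union]
    have hset2 : insert (e (p0 c)) (T ∪ S ∪ (P0 v).map e) = T ∪ S ∪ (P0 (insert c v)).map e := by
      have h8 : (P0 (insert c v) : Finset (I0 m V Wd)) = insert (p0 c) (P0 v) := by
        unfold P0
        rw [Finset.map_insert]
        rfl
      rw [h8, Finset.map_insert, Finset.union_insert]
    rw [hset]
    rw [hset2] at key
    have hcard : (insert c v).card = v.card + 1 := Finset.card_insert_of_notMem hcv
    have ih' := ih (insert c v) hT' hTS' (by rw [hcard]; omega)
    refine (Submodule.span_le.mpr ?_) key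
    rintro x ⟨σ, rfl⟩
    -- multiplication by `pf (g σ)` preserves the span
    have hmul : ∀ y ∈ Submodule.span O
        {x | ∃ (σ : Perm ι) (v' : Finset (Fin (JJ m + 1))), v'.card = T.card + (insert c v).card ∧
          x = pf O k l ι (g σ) * (ds r (S ∪ (P0 v').map e) * Om O k l e)},
        pf O k l ι (g σ) * y ∈ Submodule.span O
        {x | ∃ (σ : Perm ι) (v' : Finset (Fin (JJ m + 1))), v'.card = (insert a T).card + v.card ∧
          x = pf O k l ι (g σ) * (ds r (S ∪ (P0 v').map e) * Om O k l e)} := by
      intro y hy
      induction hy using Submodule.span_induction with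
      | mem y hy =>
        obtain ⟨τ, v', hv', rfl⟩ := hy
        refine Submodule.subset_span ⟨σ * τ, v', ?_, ?_⟩
        · rw [hv', hcard, Finset.card_insert_of_notMem ha]; omega
        · have h9 : (g (σ * τ) : P ι) = g σ * g τ := by
            simp [g, MonoidAlgebra.single_mul_single]
          rw [h9, map_mul, mul_assoc]
      | zero => rw [mul_zero]; exact Submodule.zero_mem _
      | add y z _ _ hy hz => rw [mul_add]; exact Submodule.add_mem _ hy hz
      | smul b y _ hy => rw [mul_smul_comm]; exact Submodule.smul_mem _ _ hy
    exact hmul _ ih'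

end R

end Pool.PI34.EX
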