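import Pool.Agent.LibPI34.EX_C1

/-!
PI34, block EX (p = 2), row C4: the exchange of two determinants of rank `k + l = m + 1` acts trivially.
-/

set_option autoImplicit false
set_option linter.unusedSectionVars false
set_option linter.unusedDecidableInType false
set_option linter.unusedFintypeInType false

namespace Pool.PI34.EX

open Equiv Finset
open Pool.PI34.Super (Lt odd pv prs)
open Pool.PI34.SK (W comp ins)
open Pool.PI34.H4 (P g emb As AK)

section C

variable {O : Type} [CommRing O] {k l m : ℕ} {ι : Type} [Fintype ι] [LinearOrder ι] {r : O}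

/-- The exchange of two blocks. -/
noncomputable def flipB (D D' : Fin (m + 1) ↪ ι) : P ι := ((List.finRange (m + 1)).map fun i => g (swap (D i) (D' i))).prod

theorem c2_list (D D' : Fin (m + 1) ↪ ι) (hd : ∀ i j, D i ≠ D' j) (s : List (Fin (m + 1)))
    (hs : s.Nodup) :
    (∀ j, j ∈ s → (s.map fun i => swap (D i) (D' i)).prod (D j) = D' j ∧
      (s.map fun i => swap (D i) (D' i)).prod (D' j) = D j) ∧
    (∀ j, j ∉ s → (s.map fun i => swap (D i) (D' i)).prod (D j) = D j ∧
      (s.map fun i => swap (D i) (D' i)).prod (D' j) = D' j) ∧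
    (∀ x, (∀ j, x ≠ D j) → (∀ j, x ≠ D' j) →
      (s.map fun i => swap (D i) (D' i)).prod x = x) := by
  induction s with
  | nil =>
    refine ⟨fun j hj => ?_, fun j _ => ⟨rfl, rfl⟩, fun x _ _ => rfl⟩
    simp at hj
  | cons a s ih =>
    rw [List.nodup_cons] at hs
    obtain ⟨ih1, ih2, ih3⟩ := ih hs.2
    rw [List.map_cons, List.prod_cons]
    refine ⟨fun j hj => ?_, fun j hj => ?_, fun x hx hx' => ?_⟩
    · rw [Perm.mul_apply, Perm.mul_apply]
      rcases eq_or_ne j a with rfl | hja
      · rw [(ih2 j hs.1).1, (ih2 j hs.1).2, swap_apply_left, swap_apply_right]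
        exact ⟨rfl, rfl⟩
      · have hjs : j ∈ s := (List.mem_cons.mp hj).resolve_left hja
        rw [(ih1 j hjs).1, (ih1 j hjs).2]
        refine ⟨swap_apply_of_ne_of_ne (hd a j).symm fun h => hja (D'.injective h),
          swap_apply_of_ne_of_ne (fun h => hja (D.injective h)) (hd j a)⟩
    · rw [Perm.mul_apply, Perm.mul_apply]
      have hja : j ≠ a := fun h => hj (List.mem_cons.mpr (Or.inl h))
      have hjs : j ∉ s := fun h => hj (List.mem_cons.mpr (Or.inr h))
      rw [(ih2 j hjs).1, (ih2 j hjs).2]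
      refine ⟨swap_apply_of_ne_of_ne (fun h => hja (D.injective h)) (hd j a),
        swap_apply_of_ne_of_ne (hd a j).symm fun h => hja (D'.injective h)⟩
    · rw [Perm.mul_apply, ih3 x hx hx', swap_apply_of_ne_of_ne (hx a) (hx' a)]

/-- The exchange of two blocks is a permutation. -/
theorem c2_flip (D D' : Fin (m + 1) ↪ ι) (hd : ∀ i j, D i ≠ D' j) :
    ∃ F : Perm ι, flipB D D' = g F ∧ (∀ j, F (D j) = D' j ∧ F (D' j) = D j) ∧
      ∀ x, (∀ j, x ≠ D j) → (∀ j, x ≠ D' j) → F x = x := by
  refine ⟨((List.finRange (m + 1)).map fun i => swap (D i) (D' i)).prod, ?_, ?_, ?_⟩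
  · unfold flipB g
    rw [map_list_prod, List.map_map]
    rfl
  · intro j
    exact (c2_list D D' hd _ (List.nodup_finRange _)).1 j (List.mem_finRange j)
  · exact (c2_list D D' hd _ (List.nodup_finRange _)).2.2

/-- ROW C4: two determinants. -/
theorem two_det (hm : k + l = m + 1) (D D' : Fin (m + 1) ↪ ι) (hd : ∀ i j, D i ≠ D' j) :
    pf O k l ι (flipB D D' * (emb D (As (Fin (m + 1))) * emb D' (As (Fin (m + 1))))) =
      pf O k l ι (emb D (As (Fin (m + 1))) * emb D' (As (Fin (m + 1)))) := by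
  obtain ⟨F, hF, hF1, hF2⟩ := c2_flip D D' hd
  have hcomm : emb D (As (Fin (m + 1))) * emb D' (As (Fin (m + 1))) =
      emb D' (As (Fin (m + 1))) * emb D (As (Fin (m + 1))) :=
    H4.commute_emb_emb D D' hd _ _
  refine LinearMap.ext fun f => ?_
  funext w
  obtain ⟨A, hA⟩ : ∃ A : W O k l ι, A =
      pf O k l ι (emb D (As (Fin (m + 1))) * emb D' (As (Fin (m + 1)))) f := ⟨_, rfl⟩
  have hA1 : A = pf O k l ι (emb D (As (Fin (m + 1)))) (pf O k l ι (emb D' (As (Fin (m + 1)))) f) := by
    rw [hA]; exact c1_pa_mul _ _ _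
  have hA2 : A = pf O k l ι (emb D' (As (Fin (m + 1)))) (pf O k l ι (emb D (As (Fin (m + 1)))) f) := by
    rw [hA, hcomm]; exact c1_pa_mul _ _ _
  have hlhs : pf O k l ι (flipB D D' * (emb D (As (Fin (m + 1))) * emb D' (As (Fin (m + 1))))) f w =
      A (w ∘ F) := by
    rw [hF, c1_pa_mul, ← hA]
    exact pa_g O (Lt k l) _ _ _
  rw [hlhs, ← hA]
  -- zero criteria
  have hz1 : ∀ v : ι → Lt k l, ¬ Function.Injective (v ∘ D) → A v = 0 := by
    intro v hv
    unfold Function.Injective at hv
    push Not at hv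
    obtain ⟨x, y, hxy, hne⟩ := hv
    rw [hA1]
    exact c1_pa_As_zero D _ v hne hxy
  have hz2 : ∀ v : ι → Lt k l, ¬ Function.Injective (v ∘ D') → A v = 0 := by
    intro v hv
    unfold Function.Injective at hv
    push Not at hv
    obtain ⟨x, y, hxy, hne⟩ := hv
    rw [hA2]
    exact c1_pa_As_zero D' _ v hne hxy
  have hFD : (w ∘ F) ∘ D = w ∘ D' := by
    funext j
    change w (F (D j)) = w (D' j)
    rw [(hF1 j).1]
  have hFD' : (w ∘ F) ∘ D' = w ∘ D := by
    funext j
    change w (F (D' j)) = w (D j)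
    rw [(hF1 j).2]
  by_cases h1 : Function.Injective (w ∘ D)
  · by_cases h2 : Function.Injective (w ∘ D')
    · have hc : Fintype.card (Fin (m + 1)) = Fintype.card (Lt k l) := by
        rw [Fintype.card_sum, Fintype.card_fin, Fintype.card_fin, Fintype.card_fin, hm]
      have b1 : Function.Bijective (w ∘ D) :=
        (Fintype.bijective_iff_injective_and_card _).mpr ⟨h1, hc⟩
      have b2 : Function.Bijective (w ∘ D') :=
        (Fintype.bijective_iff_injective_and_card _).mpr ⟨h2, hc⟩
      obtain ⟨π, hπ⟩ : ∃ π : Perm (Fin (m + 1)), ∀ i, w (D (π i)) = w (D' i) := by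
        refine ⟨(Equiv.ofBijective _ b2).trans (Equiv.ofBijective _ b1).symm, fun i => ?_⟩
        exact Equiv.ofBijective_apply_symm_apply (w ∘ D) b1 (w (D' i))
      have hw : w ∘ F = (w ∘ π.viaEmbedding D) ∘ (π⁻¹).viaEmbedding D' := by
        have e1 : ∀ i, D i ∉ Set.range D' := fun i ⟨j, hj⟩ => hd i j hj.symm
        have e2 : ∀ i, D' i ∉ Set.range D := fun i ⟨j, hj⟩ => hd j i hj
        funext x
        change w (F x) = w (π.viaEmbedding D ((π⁻¹).viaEmbedding D' x))
        by_cases hx : x ∈ Set.range D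
        · obtain ⟨i, rfl⟩ := hx
          rw [(hF1 i).1, Perm.viaEmbedding_apply_of_notMem _ _ _ (e1 i), Perm.viaEmbedding_apply,
            hπ i]
        · by_cases hx' : x ∈ Set.range D'
          · obtain ⟨i, rfl⟩ := hx'
            have e3 : π (π⁻¹ i) = i := by
              rw [← Perm.mul_apply, mul_inv_cancel, Perm.one_apply]
            rw [(hF1 i).2, Perm.viaEmbedding_apply, Perm.viaEmbedding_apply_of_notMem _ _ _ (e2 _),
              ← hπ, e3]
          · rw [Perm.viaEmbedding_apply_of_notMem _ _ _ hx', Perm.viaEmbedding_apply_of_notMem _ _ _ hx,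
              hF2 x (fun j h => hx ⟨j, h.symm⟩) (fun j h => hx' ⟨j, h.symm⟩)]
      have s1 : A ((w ∘ π.viaEmbedding D) ∘ (π⁻¹).viaEmbedding D') =
          (Perm.sign π⁻¹ : ℤ) • A (w ∘ π.viaEmbedding D) := by
        rw [hA2]
        exact c1_pa_emb_g_As D' π⁻¹ _ _
      have s2 : A (w ∘ π.viaEmbedding D) = (Perm.sign π : ℤ) • A w := by
        rw [hA1]
        exact c1_pa_emb_g_As D π _ _
      rw [hw, s1, s2, smul_smul, Perm.sign_inv, ← Units.val_mul, Int.units_mul_self, Units.val_one,
        one_smul]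
    · rw [hz2 w h2, hz1 _ (by rw [hFD]; exact h2)]
  · rw [hz1 w h1, hz2 _ (by rw [hFD']; exact h1)]

end C

end Pool.PI34.EX
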