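import Pool.Agent.LibPI34.EX_T2

/-!
PI34, block EX (p = 2), group L: the tower of strands.
-/

set_option autoImplicit false
set_option linter.unusedSectionVars false
set_option linter.unusedDecidableInType false
set_option linter.unusedFintypeInType false

namespace Pool.PI34.EX

open Equiv Finset
open Pool.PI34.Super (Lt odd pv prs)
open Pool.PI34.SK (W comp ins)
open Pool.PI34.H4 (P g emb As AK)


/-! ### L: the tower -/

section tower

variable {O : Type} [CommRing O] {k l m : ℕ} {d : ℕ} {r : O}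
variable {V : VD (m + 1)} {Wd : WD ((m + 1) ^ (m + 1))}

/-- The embedding of the places after adding `n` strands. -/
def en (e : I0 m V Wd ↪ Fin d) : (n : ℕ) → I0 m V Wd ↪ Fin (d + n)
  | 0 => e
  | n + 1 => (en e n).trans (Fin.succEmb (d + n))

/-- `Λ_n (1_n ⊗ F⁰ Y)`. -/
def LL (r : O) (Y : EW O k l (Fin d)) (n : ℕ) : Submodule O (EW O k l (Fin (d + n))) :=
  Submodule.span O {x | ∃ (σ : Perm (Fin (d + n))) (y : EW O k l (Fin d)), y ∈ NF r 0 Y ∧
    x = sf O k l _ (g σ) * upn O k l d n y}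

/-- ROW L1. -/
theorem upn_Om (e : I0 m V Wd ↪ Fin d) (n : ℕ) :
    upn O k l d n (Om O k l e) = Om O k l (en e n) := by
  induction n with
  | zero => rfl
  | succ n ih =>
    change up O k l (d + n) (upn O k l d n (Om O k l e)) = _
    rw [ih]
    unfold Om
    rw [up_pf, H4.emb_trans]
    rfl

/-- The tower of the operators `δ`. -/
theorem upn_ds (e : I0 m V Wd ↪ Fin d) (n : ℕ) (s : Finset (I0 m V Wd)) :
    upn O k l d n (ds r (s.map e)) = ds r (s.map (en e n)) := by
  induction n with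
  | zero => rfl
  | succ n ih =>
    change up O k l (d + n) (upn O k l d n (ds r (s.map e))) = _
    rw [ih, up_ds, Finset.map_map]
    rfl

/-- The tower of the filtration. -/
theorem upn_FR {j : ℕ} {y : EW O k l (Fin d)} (hy : y ∈ FR k l _ r j) (n : ℕ) :
    upn O k l d n y ∈ FR k l _ r j := by
  induction n with
  | zero => exact hy
  | succ n ih => exact up_FR ih

/-- ROW L2. -/
theorem LL_mul {Y : EW O k l (Fin d)} {n : ℕ} {x : EW O k l (Fin (d + n))} (hx : x ∈ LL r Y n)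
    (y : P (Fin (d + n))) : sf O k l _ y * x ∈ LL r Y n := by
  refine H4.P_induction (p := fun y => sf O k l _ y * x ∈ LL r Y n) y ?_ ?_ ?_
  · intro τ
    unfold LL at hx
    refine Submodule.span_induction (p := fun x _ => sf O k l _ (g τ) * x ∈ LL r Y n)
      ?_ ?_ ?_ ?_ hx
    · rintro x ⟨σ, z, hz, rfl⟩
      refine Submodule.subset_span ⟨τ * σ, z, hz, ?_⟩
      rw [← mul_assoc, ← map_mul, ← H4.g_mul]
    · rw [mul_zero]
      exact Submodule.zero_mem _
    · intro a b _ _ ha hb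
      rw [mul_add]
      exact Submodule.add_mem _ ha hb
    · intro c a _ ha
      rw [mul_smul_comm]
      exact Submodule.smul_mem _ _ ha
  · intro a b ha hb
    rw [map_add, add_mul]
    exact Submodule.add_mem _ ha hb
  · intro n a ha
    rw [map_zsmul, smul_mul_assoc]
    exact zsmul_mem ha n

/-- One strand of the tower. -/
theorem Ptr_sf_up (hr : r * r = 2) {D : ℕ} (σ : Perm (Fin (D + 1))) {z b Y : EW O k l (Fin D)}
    (hb : b ∈ FR k l (Fin D) r 0) (hz : z = b * Y) :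
    ∃ (c : O) (τ : Perm (Fin D)) (x : EW O k l (Fin D)), x ∈ FR k l (Fin D) r 0 ∧
      Ptr O k l D (sf O k l (Fin (D + 1)) (g σ) * up O k l D z) =
        c • (sf O k l (Fin D) (g τ) * z) + r • (x * Y) := by
  obtain ⟨c, τ, x', hx', h1⟩ := Ptr_sf (O := O) (k := k) (l := l) (d := D) hr σ
  have h3 : x' * b ∈ FR k l (Fin D) r (0 + 0) := FR_mul hx' hb
  rw [add_zero] at h3
  refine ⟨c, τ, x' * b, h3, ?_⟩
  rw [Ptr_mul_up, h1, add_mul, smul_mul_assoc, smul_mul_assoc]
  congr 2
  rw [hz, mul_assoc]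

/-- One more strand. -/
theorem upn_succ (n : ℕ) (z : EW O k l (Fin d)) :
    upn O k l d (n + 1) z = up O k l (d + n) (upn O k l d n z) := rfl

/-- ROW L3. -/
theorem LL_Ptr (hr : r * r = 2) {Y : EW O k l (Fin d)} {n : ℕ} {x : EW O k l (Fin (d + (n + 1)))}
    (hx : x ∈ LL r Y (n + 1)) :
    ∃ u ∈ LL r Y n, ∃ b ∈ FR k l _ r 0, Ptr O k l (d + n) x = u + r • (b * upn O k l d n Y) := by
  unfold LL at hx
  refine Submodule.span_induction (p := fun x _ => ∃ u ∈ LL r Y n,
    ∃ b ∈ FR k l (Fin (d + n)) r 0,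
    Ptr O k l (d + n) x = u + r • (b * upn O k l d n Y)) ?_ ?_ ?_ ?_ hx
  · rintro x ⟨σ, z, hz, rfl⟩
    have hz' := hz
    unfold NF at hz'
    obtain ⟨b', hb', hb⟩ := Submodule.mem_map.1 hz'
    have hzb : z = b' * Y := hb.symm
    obtain ⟨c, τ, x', hx', h1⟩ := Ptr_sf_up (O := O) (k := k) (l := l) (D := d + n) hr σ
      (z := upn O k l d n z) (b := upn O k l d n b') (Y := upn O k l d n Y) (upn_FR hb' n)
      (by rw [hzb, map_mul])
    refine ⟨c • (sf O k l (Fin (d + n)) (g τ) * upn O k l d n z), ?_, x', hx', h1⟩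
    exact Submodule.smul_mem _ _ (Submodule.subset_span ⟨τ, z, hz, rfl⟩)
  · refine ⟨0, Submodule.zero_mem _, 0, Submodule.zero_mem _, ?_⟩
    rw [map_zero, zero_mul, smul_zero, add_zero]
  · rintro a b _ _ ⟨u, hu, b1, hb1, h1⟩ ⟨u', hu', b2, hb2, h2⟩
    refine ⟨u + u', Submodule.add_mem _ hu hu', b1 + b2, Submodule.add_mem _ hb1 hb2, ?_⟩
    rw [map_add, h1, h2, add_mul, smul_add]
    abel
  · rintro c a _ ⟨u, hu, b1, hb1, h1⟩
    refine ⟨c • u, Submodule.smul_mem _ _ hu, c • b1, Submodule.smul_mem _ _ hb1, ?_⟩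
    rw [map_smul, h1, smul_add, smul_mul_assoc, smul_comm c r]

/-- ROW L4. -/
theorem LL_ds (e : I0 m V Wd ↪ Fin d) (n : ℕ) (s : Finset (Fin (JJ m + 1))) :
    ds r ((P0 s).map (en e n)) * Om O k l (en e n) ∈ LL r (Om O k l e) n := by
  rw [← upn_Om, ← upn_ds, ← map_mul]
  refine Submodule.subset_span ⟨1, ds r ((P0 s).map e) * Om O k l e, ?_, ?_⟩
  · unfold NF
    refine Submodule.mem_map.2 ⟨ds r ((P0 s).map e), FR_mono (Nat.zero_le _) (ds_mem _), rfl⟩
  · rw [H4.g_one, map_one, one_mul]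

end tower

end Pool.PI34.EX
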