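import Pool.Agent.LibPI34.EX_R6
import Pool.Agent.LibPI34.EX_B2

set_option autoImplicit false
set_option linter.unusedSectionVars false
set_option linter.unusedDecidableInType false
set_option linter.unusedFintypeInType false

namespace Pool.PI34.EX

open Equiv Finset
open Pool.PI34.Super (Lt odd pv prs)
open Pool.PI34.SK (W comp ins)
open Pool.PI34.H4 (P g emb As AK)


section R

variable {O : Type} [CommRing O] {k l m : ℕ} {ι : Type} [Fintype ι] [LinearOrder ι] {r : O}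
variable {V : VD (m + 1)} {Wd : WD ((m + 1) ^ (m + 1))}

theorem r10_FR_mul {i j n : ℕ} (h : i + j = n) {x y : EW O k l ι} (hx : x ∈ FR k l ι r i)
    (hy : y ∈ FR k l ι r j) : x * y ∈ FR k l ι r n := by
  subst h
  exact FR_mul hx hy

theorem r10_adj_id {A : Type} [Ring A] (Y a S D : A) :
    (Y + a) * (1 - S * (1 - D)) * (Y + a) - Y * D * Y =
      -((Y * S - Y) * Y) - (Y * S - Y) * a - a * (S * Y - Y) + a * (1 - S) * a +
        (Y * S - Y) * (D * Y) + Y * S * (D * a) + a * S * (D * Y) + a * S * (D * a) := by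
  simp only [mul_add, add_mul, mul_sub, sub_mul, mul_one, mul_assoc]
  abel

theorem r10_conj_id {A : Type} [Ring A] (s s' p p' Z M : A) :
    s * Z * s' - p * M * p' = s * (Z - M) * s' + (s - p) * M * s' + p * M * (s' - p') := by
  simp only [mul_sub, sub_mul, mul_assoc]
  abel

theorem r10_adj_mem {Y a S D x1 x2 : EW O k l ι} (hY : Y ∈ FR k l ι r 0) (ha : a ∈ FR k l ι r 2)
    (hS : S ∈ FR k l ι r 0) (hD : D ∈ FR k l ι r 2) (h1' : (1 : EW O k l ι) ∈ FR k l ι r 0)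
    (hx1 : x1 ∈ FR k l ι r 0) (hx2 : x2 ∈ FR k l ι r 0) (e1 : Y * S - Y = r • x1)
    (e2 : S * Y - Y = r • x2) :
    (Y + a) * (1 - S * (1 - D)) * (Y + a) - Y * D * Y ∈ FR k l ι r 4 := by
  have ha0 : a ∈ FR k l ι r 0 := FR_mono (Nat.zero_le 2) ha
  have hD0 : D ∈ FR k l ι r 0 := FR_mono (Nat.zero_le 2) hD
  rw [r10_adj_id, e1, e2]
  simp only [smul_mul_assoc, mul_smul_comm]
  have m1 : r • (x1 * Y) ∈ FR k l ι r 4 := r_smul_mem (r10_FR_mul (n := 0) rfl hx1 hY) 4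
  have m2 : r • (x1 * a) ∈ FR k l ι r 4 := r_smul_mem (r10_FR_mul (n := 0) rfl hx1 ha0) 4
  have m3 : r • (a * x2) ∈ FR k l ι r 4 := r_smul_mem (r10_FR_mul (n := 0) rfl ha0 hx2) 4
  have m4 : a * (1 - S) * a ∈ FR k l ι r 4 :=
    r10_FR_mul (i := 2) (j := 2) (n := 4) rfl (r10_FR_mul (i := 2) (j := 0) (n := 2) rfl ha (Submodule.sub_mem _ h1' hS)) ha
  have m5 : r • (x1 * (D * Y)) ∈ FR k l ι r 4 := r_smul_mem (r10_FR_mul (n := 0) rfl hx1 (r10_FR_mul (n := 0) rfl hD0 hY)) 4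
  have m6 : Y * S * (D * a) ∈ FR k l ι r 4 :=
    r10_FR_mul (i := 0) (j := 4) (n := 4) rfl (r10_FR_mul (i := 0) (j := 0) (n := 0) rfl hY hS) (r10_FR_mul (i := 2) (j := 2) (n := 4) rfl hD ha)
  have m7 : a * S * (D * Y) ∈ FR k l ι r 4 :=
    r10_FR_mul (i := 2) (j := 2) (n := 4) rfl (r10_FR_mul (i := 2) (j := 0) (n := 2) rfl ha hS) (r10_FR_mul (i := 2) (j := 0) (n := 2) rfl hD hY)
  have m8 : a * S * (D * a) ∈ FR k l ι r 4 :=
    r10_FR_mul (i := 0) (j := 4) (n := 4) rfl (r10_FR_mul (i := 0) (j := 0) (n := 0) rfl ha0 hS) (r10_FR_mul (i := 2) (j := 2) (n := 4) rfl hD ha)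
  exact Submodule.add_mem _ (Submodule.add_mem _ (Submodule.add_mem _ (Submodule.add_mem _
    (Submodule.add_mem _ (Submodule.sub_mem _ (Submodule.sub_mem _ (Submodule.neg_mem _ m1) m2) m3)
      m4) m5) m6) m7) m8

theorem r10_conj_mem {s s' p p' Z M : EW O k l ι} (hp : p ∈ FR k l ι r 0) (hp' : p' ∈ FR k l ι r 0)
    (hc : s - p ∈ FR k l ι r 2) (hc' : s' - p' ∈ FR k l ι r 2) (hM : M ∈ FR k l ι r 2)
    (hz : Z - M ∈ FR k l ι r 4) : s * Z * s' - p * M * p' ∈ FR k l ι r 4 := by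
  have hs : s ∈ FR k l ι r 0 := by
    have h := Submodule.add_mem _ hp (FR_mono (Nat.zero_le 2) hc)
    rwa [add_sub_cancel] at h
  have hs' : s' ∈ FR k l ι r 0 := by
    have h := Submodule.add_mem _ hp' (FR_mono (Nat.zero_le 2) hc')
    rwa [add_sub_cancel] at h
  rw [r10_conj_id]
  refine Submodule.add_mem _ (Submodule.add_mem _ ?_ ?_) ?_
  · exact r10_FR_mul (i := 4) (j := 0) (n := 4) rfl (r10_FR_mul (i := 0) (j := 4) (n := 4) rfl hs hz) hs'
  · exact r10_FR_mul (i := 4) (j := 0) (n := 4) rfl (r10_FR_mul (i := 2) (j := 2) (n := 4) rfl hc hM) hs'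
  · exact r10_FR_mul (i := 2) (j := 2) (n := 4) rfl (r10_FR_mul (i := 0) (j := 2) (n := 2) rfl hp hM) hc'

theorem r10_one_mem : (1 : EW O k l ι) ∈ FR k l ι r 0 := by
  have h := pf_mem (O := O) (k := k) (l := l) (r := r) (1 : P ι)
  rwa [map_one] at h

theorem r10_ds2_mem {p q : ι} (h : p ≠ q) : (ds r {p, q} : EW O k l ι) ∈ FR k l ι r 2 := by
  have h1 := ds_mem (O := O) (k := k) (l := l) (r := r) ({p, q} : Finset ι)
  rwa [Finset.card_pair h] at h1

/-- The case of two adjacent places. -/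
theorem r10_kap_adj (hr : r * r = 2) {p q : ι} (hpq : p ⋖ q) (y : P ι)
    (h1 : ∃ x ∈ FR k l ι r 0, pf O k l ι (y * g (swap p q) - y) = r • x)
    (h2 : ∃ x ∈ FR k l ι r 0, pf O k l ι (g (swap p q) * y - y) = r • x) :
    sf O k l ι (y * (1 - g (swap p q)) * y) - pf O k l ι y * ds r {p, q} * pf O k l ι y ∈
      FR k l ι r 4 := by
  obtain ⟨x1, hx1, e1⟩ := h1
  obtain ⟨x2, hx2, e2⟩ := h2
  rw [map_sub, map_mul] at e1 e2
  have h := r10_adj_mem (pf_mem (O := O) (k := k) (l := l) (r := r) y) (sf_sub_pf hr y)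
    (pf_mem (g (swap p q))) (r10_ds2_mem hpq.ne) r10_one_mem hx1 hx2 e1 e2
  rw [add_sub_cancel] at h
  rw [map_mul, map_mul, map_sub, map_one, sf_swap_adj hr hpq]
  exact h

/-- A permutation with two prescribed values. -/
theorem r10_exists_perm2 {x y p q : ι} (hxy : x ≠ y) (hpq : p ≠ q) :
    ∃ σ : Perm ι, σ x = p ∧ σ y = q := by
  refine ⟨swap (swap x p y) q * swap x p, ?_, ?_⟩
  · rw [Perm.mul_apply, swap_apply_left]
    refine swap_apply_of_ne_of_ne ?_ hpq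
    intro h
    have h1 : swap x p x = swap x p y := by rw [swap_apply_left]; exact h
    exact hxy ((swap x p).injective h1)
  · rw [Perm.mul_apply, swap_apply_left]

theorem r10_gconj1 {σ : Perm ι} {s s0 y : P ι} (hsw : g σ * s0 = s * g σ) :
    g σ⁻¹ * y * g σ * s0 - g σ⁻¹ * y * g σ = g σ⁻¹ * (y * s - y) * g σ := by
  rw [mul_assoc _ (g σ) s0, hsw]
  simp only [mul_sub, sub_mul, mul_assoc]

theorem r10_gconj2 {σ : Perm ι} {s s0 y : P ι} (hsw' : s0 * g σ⁻¹ = g σ⁻¹ * s) :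
    s0 * (g σ⁻¹ * y * g σ) - g σ⁻¹ * y * g σ = g σ⁻¹ * (s * y - y) * g σ := by
  rw [← mul_assoc, ← mul_assoc, hsw']
  simp only [mul_sub, sub_mul, mul_assoc]

theorem r10_gconj3 {A : Type} [Ring A] {a b s s0 y : A} (hab : a * b = 1)
    (hsw : a * s0 = s * a) :
    y * (1 - s) * y = a * (b * y * a * (1 - s0) * (b * y * a)) * b := by
  have h : a * (1 - s0) = (1 - s) * a := by rw [mul_sub, sub_mul, hsw, mul_one, one_mul]
  calc y * (1 - s) * y = (a * b) * y * (1 - s) * (a * b) * y * (a * b) := by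
        rw [hab, one_mul, mul_one, mul_one]
    _ = a * b * y * ((1 - s) * a) * b * y * (a * b) := by simp only [mul_assoc]
    _ = a * b * y * (a * (1 - s0)) * b * y * (a * b) := by rw [h]
    _ = a * (b * y * a * (1 - s0) * (b * y * a)) * b := by simp only [mul_assoc]

theorem r10_gconj4 {A : Type} [Ring A] {a b y D D0 y' : A} (hab : a * b = 1)
    (h1 : a * y' = y * a) (h2 : y' * b = b * y) (h3 : a * D0 = D * a) :
    a * (y' * D0 * y') * b = y * D * y := by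
  calc a * (y' * D0 * y') * b = (a * y') * D0 * (y' * b) := by simp only [mul_assoc]
    _ = y * (a * D0) * (b * y) := by rw [h1, h2]; simp only [mul_assoc]
    _ = y * D * (a * b) * y := by rw [h3]; simp only [mul_assoc]
    _ = y * D * y := by rw [hab, mul_one]

/-- ROW R10. -/
theorem kap_gen (hr : r * r = 2) (hadj : ∃ x y : ι, x ⋖ y) {p q : ι} (hpq : p ≠ q) (y : P ι)
    (h1 : ∃ x ∈ FR k l ι r 0, pf O k l ι (y * g (swap p q) - y) = r • x)
    (h2 : ∃ x ∈ FR k l ι r 0, pf O k l ι (g (swap p q) * y - y) = r • x) :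
    sf O k l ι (y * (1 - g (swap p q)) * y) - pf O k l ι y * ds r {p, q} * pf O k l ι y ∈
      FR k l ι r 4 := by
  obtain ⟨x0, y0, hxy⟩ := hadj
  obtain ⟨σ, hσp, hσq⟩ := r10_exists_perm2 hxy.ne hpq
  obtain ⟨x1, hx1, e1⟩ := h1
  obtain ⟨x2, hx2, e2⟩ := h2
  have hgi : g σ * g σ⁻¹ = (1 : P ι) := by rw [← H4.g_mul, mul_inv_cancel, H4.g_one]
  have hig : g σ⁻¹ * g σ = (1 : P ι) := by rw [← H4.g_mul, inv_mul_cancel, H4.g_one]
  have hsw : g σ * g (swap x0 y0) = g (swap p q) * g σ := by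
    rw [← H4.g_mul, ← H4.g_mul, Equiv.mul_swap_eq_swap_mul, hσp, hσq]
  have hsw' : g (swap x0 y0) * g σ⁻¹ = g σ⁻¹ * g (swap p q) := by
    calc g (swap x0 y0) * g σ⁻¹ = g σ⁻¹ * (g σ * g (swap x0 y0)) * g σ⁻¹ := by
          rw [← mul_assoc, hig, one_mul]
      _ = g σ⁻¹ * g (swap p q) := by
          rw [hsw, mul_assoc, mul_assoc, hgi, mul_one]
  have hA := pf_mem (O := O) (k := k) (l := l) (r := r) (g σ)
  have hB := pf_mem (O := O) (k := k) (l := l) (r := r) (g σ⁻¹)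
  have k1 : ∃ x ∈ FR k l ι r 0, pf O k l ι (g σ⁻¹ * y * g σ * g (swap x0 y0) - g σ⁻¹ * y * g σ) =
      r • x := by
    refine ⟨pf O k l ι (g σ⁻¹) * x1 * pf O k l ι (g σ), r10_FR_mul (n := 0) rfl (r10_FR_mul (n := 0) rfl hB hx1) hA, ?_⟩
    rw [r10_gconj1 hsw, map_mul, map_mul, e1, mul_smul_comm, smul_mul_assoc]
  have k2 : ∃ x ∈ FR k l ι r 0, pf O k l ι (g (swap x0 y0) * (g σ⁻¹ * y * g σ) - g σ⁻¹ * y * g σ) =
      r • x := by
    refine ⟨pf O k l ι (g σ⁻¹) * x2 * pf O k l ι (g σ), r10_FR_mul (n := 0) rfl (r10_FR_mul (n := 0) rfl hB hx2) hA, ?_⟩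
    rw [r10_gconj2 hsw', map_mul, map_mul, e2, mul_smul_comm, smul_mul_assoc]
  have hz := r10_kap_adj hr hxy (g σ⁻¹ * y * g σ) k1 k2
  have hσy : g σ * (g σ⁻¹ * y * g σ) = y * g σ := by
    rw [← mul_assoc, ← mul_assoc, hgi, one_mul]
  have hyσ : g σ⁻¹ * y * g σ * g σ⁻¹ = g σ⁻¹ * y := by
    rw [mul_assoc, hgi, mul_one]
  have hE := r10_gconj3 (y := y) hgi hsw
  generalize hy' : g σ⁻¹ * y * g σ = y' at hz hσy hyσ hE
  have hc := sf_sub_pf (k := k) (l := l) hr (g σ)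
  have hc' := sf_sub_pf (k := k) (l := l) hr (g σ⁻¹)
  have hY' := pf_mem (O := O) (k := k) (l := l) (r := r) y'
  have hM : pf O k l ι y' * ds r {x0, y0} * pf O k l ι y' ∈ FR k l ι r 2 :=
    r10_FR_mul (i := 2) (j := 0) (n := 2) rfl (r10_FR_mul (i := 0) (j := 2) (n := 2) rfl hY' (r10_ds2_mem hxy.ne)) hY'
  have hmap : ({x0, y0} : Finset ι).map σ.toEmbedding = {p, q} := by
    rw [Finset.map_insert, Finset.map_singleton]
    simp [hσp, hσq]
  have hMM : pf O k l ι (g σ) * (pf O k l ι y' * ds r {x0, y0} * pf O k l ι y') *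
      pf O k l ι (g σ⁻¹) = pf O k l ι y * ds r {p, q} * pf O k l ι y := by
    refine r10_gconj4 ?_ ?_ ?_ ?_
    · rw [← map_mul, hgi, map_one]
    · rw [← map_mul, ← map_mul, hσy]
    · rw [← map_mul, ← map_mul, hyσ]
    · rw [pf_ds, hmap]
  rw [hE, map_mul, map_mul, ← hMM]
  exact r10_conj_mem hA hB hc hc' hM hz

/-- ROW R11. -/
theorem kap_spec (hr : r * r = 2) (hm : k + l = m + 1) (hadj : ∃ x y : ι, x ⋖ y)
    (e : I0 m V Wd ↪ ι) (a : Fin (JJ m)) :
    sf O k l ι (emb e (kap a)) - pf O k l ι (emb e (emb (vE a) V.e1)) *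
      ds r ((P0 {a.castSucc, a.succ}).map e) * pf O k l ι (emb e (emb (vE a) V.e1)) ∈
        FR k l ι r 4 := by
  have hne : (p0 a.castSucc : I0 m V Wd) ≠ p0 a.succ := by
    intro h
    have h1 := congrArg Prod.fst (Sum.inl_injective h)
    exact Fin.castSucc_lt_succ.ne (Sum.inr_injective h1)
  have hpq : e (p0 a.castSucc) ≠ e (p0 a.succ) := fun h => hne (e.injective h)
  have hS : (P0 {a.castSucc, a.succ} : Finset (I0 m V Wd)).map e =
      {e (p0 a.castSucc), e (p0 a.succ)} := by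
    unfold P0
    rw [Finset.map_insert, Finset.map_singleton, Finset.map_insert, Finset.map_singleton]
    rfl
  have hsw1 : emb e (g (swap (p0 a.castSucc) (p0 a.succ))) =
      g (swap (e (p0 a.castSucc)) (e (p0 a.succ))) := by
    rw [H4.emb_g]
    congr 1
    ext z
    by_cases hz : z ∈ Set.range e
    · obtain ⟨w, rfl⟩ := hz
      rw [Perm.viaEmbedding_apply]
      exact (e.injective.swap_apply _ _ _).symm
    · rw [Perm.viaEmbedding_apply_of_notMem _ _ _ hz, swap_apply_of_ne_of_ne]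
      · rintro rfl; exact hz ⟨_, rfl⟩
      · rintro rfl; exact hz ⟨_, rfl⟩
  have hsw2 : emb (vE a) (g (swap (Sum.inr 0) (Sum.inr 1))) =
      (g (swap (p0 a.castSucc) (p0 a.succ)) : P (I0 m V Wd)) := by
    rw [H4.emb_g]
    congr 1
    ext z
    by_cases hz : z ∈ Set.range (vE a : V.X ⊕ Fin 2 ↪ I0 m V Wd)
    · obtain ⟨w, rfl⟩ := hz
      rw [Perm.viaEmbedding_apply]
      exact ((vE a : V.X ⊕ Fin 2 ↪ I0 m V Wd).injective.swap_apply (Sum.inr 0) (Sum.inr 1) w).symm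
    · rw [Perm.viaEmbedding_apply_of_notMem _ _ _ hz, swap_apply_of_ne_of_ne]
      · rintro rfl; exact hz ⟨Sum.inr 0, rfl⟩
      · rintro rfl; exact hz ⟨Sum.inr 1, rfl⟩
  have hk : emb e (kap a) = emb e (emb (vE a) V.e1) *
      (1 - g (swap (e (p0 a.castSucc)) (e (p0 a.succ)))) * emb e (emb (vE a) V.e1) := by
    unfold kap
    rw [map_mul, map_mul, map_sub, map_one, hsw1]
  rw [hk, hS]
  refine kap_gen hr hadj hpq _ ?_ ?_
  · have h := pf_K2 (k := k) (l := l) hr hm ((vE a).trans e) V.hef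
    rw [← H4.emb_trans, map_sub, map_mul, hsw2, map_sub, map_mul, hsw1] at h
    exact h
  · have h := pf_K2 (k := k) (l := l) hr hm ((vE a).trans e) V.hfe
    rw [← H4.emb_trans, map_sub, map_mul, hsw2, map_sub, map_mul, hsw1] at h
    exact h

end R

end Pool.PI34.EX
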