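import Pool.Agent.LibPI34.EX_R9
import Pool.Agent.LibPI34.EX_R10

/-!
PI34, block EX (p = 2), rows R12, R13: the reduction.
-/

set_option autoImplicit false
set_option linter.unusedSectionVars false
set_option linter.unusedDecidableInType false
set_option linter.unusedFintypeInType false

namespace Pool.PI34.EX

open Equiv Finset
open Pool.PI34.Super (Lt odd pv prs)
open Pool.PI34.SK (W comp ins)
open Pool.PI34.H4 (P g emb As AK)


section R

variable {O : Type} [CommRing O] {k l m : ℕ} {ι : Type} [Fintype ι] [LinearOrder ι] {r : O}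
variable {V : VD (m + 1)} {Wd : WD ((m + 1) ^ (m + 1))}

theorem sf_mem_zero (hr : r * r = 2) (y : P ι) : sf O k l ι y ∈ FR k l ι r 0 := by
  have h := (FR k l ι r 0).add_mem (FR_mono (Nat.zero_le 2) (sf_sub_pf (O := O) (k := k) (l := l) hr y))
    (pf_mem y)
  rwa [sub_add_cancel] at h

theorem pair_card (a : Fin (JJ m)) : ({a.castSucc, a.succ} : Finset (Fin (JJ m + 1))).card = 2 :=
  Finset.card_pair Fin.castSucc_lt_succ.ne

theorem EDE_mem (e : I0 m V Wd ↪ ι) (a : Fin (JJ m)) :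
    pf O k l ι (emb e (emb (vE a) V.e1)) * ds r ((P0 {a.castSucc, a.succ}).map e) *
      pf O k l ι (emb e (emb (vE a) V.e1)) ∈ FR k l ι r 2 := by
  have hc : ((P0 (V := V) (Wd := Wd) {a.castSucc, a.succ}).map e).card = 2 := by
    rw [Finset.card_map, P0, Finset.card_map, pair_card]
  have h1 := ds_mem (O := O) (k := k) (l := l) (r := r) ((P0 (V := V) (Wd := Wd) {a.castSucc, a.succ}).map e)
  rw [hc] at h1
  have h2 := FR_mul (pf_mem (O := O) (k := k) (l := l) (r := r) (emb e (emb (vE a) V.e1))) h1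
  have h3 := FR_mul h2 (pf_mem (O := O) (k := k) (l := l) (r := r) (emb e (emb (vE a) V.e1)))
  simpa using h3

theorem sf_kap_mem (hr : r * r = 2) (hm : k + l = m + 1) (hadj : ∃ x y : ι, x ⋖ y)
    (e : I0 m V Wd ↪ ι) (a : Fin (JJ m)) : sf O k l ι (emb e (kap a)) ∈ FR k l ι r 2 := by
  have h := (FR k l ι r 2).add_mem
    (FR_mono (show 2 ≤ 4 by norm_num) (kap_spec (O := O) (k := k) (l := l) hr hm hadj e a)) (EDE_mem e a)
  rwa [sub_add_cancel] at h

/-- ROW R13. -/
theorem ta_mem (hr : r * r = 2) (hm : k + l = m + 1) (hadj : ∃ x y : ι, x ⋖ y)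
    (e : I0 m V Wd ↪ ι) (a : Fin (JJ m)) : sf O k l ι (emb e (ta a)) ∈ FR k l ι r 2 := by
  have h : emb e (ta (V := V) (Wd := Wd) a) = emb e (bw (Wd.rho a)) * emb e (kap a) := map_mul _ _ _
  rw [h, map_mul]
  have h1 := FR_mul (sf_mem_zero (O := O) (k := k) (l := l) hr (emb e (bw (V := V) (Wd := Wd) (Wd.rho a))))
    (sf_kap_mem (O := O) hr hm hadj e a)
  simpa using h1

/-- The difference for one pair. -/
theorem ta_sub_mem (hr : r * r = 2) (hm : k + l = m + 1) (hadj : ∃ x y : ι, x ⋖ y)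
    (e : I0 m V Wd ↪ ι) (a : Fin (JJ m)) :
    pf O k l ι (emb e (bw (Wd.rho a))) *
          (pf O k l ι (emb e (emb (vE a) V.e1)) * ds r ((P0 {a.castSucc, a.succ}).map e) *
            pf O k l ι (emb e (emb (vE a) V.e1))) - sf O k l ι (emb e (ta a)) ∈ FR k l ι r 4 := by
  have h : emb e (ta (V := V) (Wd := Wd) a) = emb e (bw (Wd.rho a)) * emb e (kap a) := map_mul _ _ _
  rw [h, map_mul]
  have hk := kap_spec (O := O) (k := k) (l := l) hr hm hadj e a
  have hk2 := sf_kap_mem (O := O) (k := k) (l := l) hr hm hadj e a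
  have hs := sf_sub_pf (O := O) (k := k) (l := l) hr (emb e (bw (V := V) (Wd := Wd) (Wd.rho a)))
  have hp := pf_mem (O := O) (k := k) (l := l) (r := r) (emb e (bw (V := V) (Wd := Wd) (Wd.rho a)))
  generalize pf O k l ι (emb e (bw (V := V) (Wd := Wd) (Wd.rho a))) = p at *
  generalize sf O k l ι (emb e (bw (V := V) (Wd := Wd) (Wd.rho a))) = s at *
  generalize sf O k l ι (emb e (kap (V := V) (Wd := Wd) a)) = κ at *
  generalize pf O k l ι (emb e (emb (vE a) V.e1)) * ds r ((P0 {a.castSucc, a.succ}).map e) *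
            pf O k l ι (emb e (emb (vE a) V.e1)) = X at *
  have h1 := FR_mul hp hk
  have h2 := FR_mul hs hk2
  have h1' : p * (κ - X) ∈ FR k l ι r 4 := by simpa using h1
  have h2' : (s - p) * κ ∈ FR k l ι r 4 := h2
  have h3 := (FR k l ι r 4).neg_mem ((FR k l ι r 4).add_mem h1' h2')
  have h4 : p * X - s * κ = -(p * (κ - X) + (s - p) * κ) := by
    rw [mul_sub, sub_mul]
    abel
  rw [h4]
  exact h3

theorem mem_NF_of {j : ℕ} {Y x : EW O k l ι} (hx : x ∈ FR k l ι r j) : x * Y ∈ NF r j Y :=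
  Submodule.mem_map.2 ⟨x, hx, rfl⟩

/-- ROW R12: **the reduction**. -/
theorem red (hr : r * r = 2) (hm : k + l = m + 1) (hadj : ∃ x y : ι, x ⋖ y) (e : I0 m V Wd ↪ ι) :
    ds r ((P0 univ).map e) * Om O k l e -
        ∑ a, sf O k l ι (emb e (ta a)) *
          (ds r ((P0 (univ \ {a.castSucc, a.succ})).map e) * Om O k l e) ∈
      NF r (JJ m + 2) (Om O k l e) := by
  obtain ⟨b, hb, hbe⟩ := red_sum (O := O) (k := k) (l := l) (V := V) (Wd := Wd) hr hm e
  have key : ∀ a : Fin (JJ m),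
      pf O k l ι (emb e (bw (Wd.rho a))) * (ds r ((P0 univ).map e) * Om O k l e) -
        sf O k l ι (emb e (ta a)) *
          (ds r ((P0 (univ \ {a.castSucc, a.succ})).map e) * Om O k l e) ∈
      NF r (JJ m + 2) (Om O k l e) := by
    intro a
    obtain ⟨c, hc, hce⟩ := red_pair (O := O) (k := k) (l := l) (V := V) (Wd := Wd) hr hm e a
    have h1 := ta_sub_mem (O := O) (k := k) (l := l) (V := V) (Wd := Wd) hr hm hadj e a
    have hcard : ((P0 (V := V) (Wd := Wd) (univ \ {a.castSucc, a.succ})).map e).card = JJ m - 1 := by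
      rw [Finset.card_map, P0, Finset.card_map, Finset.card_sdiff_of_subset (Finset.subset_univ _),
        pair_card, Finset.card_univ, Fintype.card_fin]
      rfl
    have h2 := ds_mem (O := O) (k := k) (l := l) (r := r)
      ((P0 (V := V) (Wd := Wd) (univ \ {a.castSucc, a.succ})).map e)
    rw [hcard] at h2
    have h3 := FR_mul h1 h2
    have hJ : JJ m + 2 ≤ 4 + (JJ m - 1) := by omega
    have h4 := mem_NF_of (Y := Om O k l e) (FR_mono hJ h3)
    have h5 := mem_NF_of (Y := Om O k l e) (r_smul_mem hc (JJ m + 2))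
    rw [smul_mul_assoc, ← hce] at h5
    have h6 := (NF r (JJ m + 2) (Om O k l e)).add_mem h5 h4
    refine (congrArg (· ∈ NF r (JJ m + 2) (Om O k l e)) ?_).mp h6
    rw [mul_assoc _ _ (Om O k l e), sub_mul _ _ (_ * Om O k l e)]
    abel
  have h1 := mem_NF_of (Y := Om O k l e) (r_smul_mem hb (JJ m + 2))
  rw [smul_mul_assoc, ← hbe] at h1
  have h2 := (NF r (JJ m + 2) (Om O k l e)).add_mem h1
    ((NF r (JJ m + 2) (Om O k l e)).sum_mem (t := (univ : Finset (Fin (JJ m)))) fun a _ => key a)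
  refine (congrArg (· ∈ NF r (JJ m + 2) (Om O k l e)) ?_).mp h2
  rw [Finset.sum_sub_distrib]
  abel

end R

end Pool.PI34.EX
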