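import Pool.Agent.LibPI34.EX_B1

/-!
PI34, block EX (p = 2), rows U1-U5: one more strand.
-/

set_option autoImplicit false
set_option linter.unusedSectionVars false
set_option linter.unusedDecidableInType false
set_option linter.unusedFintypeInType false

namespace Pool.PI34.EX

open Equiv Finset
open Pool.PI34.Super (Lt odd pv prs)
open Pool.PI34.SK (W comp ins)
open Pool.PI34.H4 (P g emb As AK)

section UT

variable {O : Type} [CommRing O] {k l : ℕ} {d : ℕ} {r : O}

/-- ROW U1. -/
theorem up_smul (c : O) (y : EW O k l (Fin d)) : up O k l d (c • y) = c • up O k l d y := rfl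

theorem via_succ_zero (σ : Perm (Fin d)) : σ.viaEmbedding (Fin.succEmb d) 0 = 0 := by
  apply Perm.viaEmbedding_apply_of_notMem
  rintro ⟨a, ha⟩
  exact Fin.succ_ne_zero a ha

theorem via_succ_succ (σ : Perm (Fin d)) (i : Fin d) :
    σ.viaEmbedding (Fin.succEmb d) i.succ = (σ i).succ :=
  Perm.viaEmbedding_apply σ (Fin.succEmb d) i

/-- ROW U2. -/
theorem up_pf (y : P (Fin d)) :
    up O k l d (pf O k l _ y) = pf O k l _ (emb (Fin.succEmb d) y) := by
  refine H4.P_induction (p := fun y => up O k l d (pf O k l _ y) =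
    pf O k l _ (emb (Fin.succEmb d) y)) y (fun σ => ?_) (fun x y hx hy => ?_) (fun n x hx => ?_)
  · apply LinearMap.ext
    intro f
    funext w
    rw [H4.emb_g, up_apply, pa_g, pa_g]
    change f _ = f _
    congr 1
    funext x
    rcases Fin.eq_zero_or_eq_succ x with rfl | ⟨y, rfl⟩
    · rw [Fin.cons_zero, Function.comp_apply, via_succ_zero]
    · rw [Fin.cons_succ, Function.comp_apply, Function.comp_apply, via_succ_succ]
      rfl
  · simp only [map_add, hx, hy]
  · simp only [map_zsmul, hx]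

/-- ROW U3. -/
theorem up_ds (S : Finset (Fin d)) :
    up O k l d (ds r S) = ds r (S.map (Fin.succEmb d)) := by
  apply LinearMap.ext
  intro f
  funext w
  rw [up_apply, ds_apply, ds_apply, Finset.prod_map]
  congr 1
  change f (Fin.cons (w 0) (Fin.tail w)) = f w
  rw [Fin.cons_self_tail]

theorem ext_phS (σ : Perm (Fin d)) :
    Pool.PI34.Super.ext (SK.phS d) σ = σ.viaEmbedding (Fin.succEmb d) := rfl

theorem pl_phS (y : P (Fin d)) : SK.pl ℤ (SK.phS d) y = emb (Fin.succEmb d) y := by
  refine H4.P_induction (p := fun y => SK.pl ℤ (SK.phS d) y = emb (Fin.succEmb d) y) y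
    (fun σ => ?_) (fun x y hx hy => ?_) (fun n x hx => ?_)
  · rw [SK.pl_of, H4.emb_g, ext_phS]
  · simp only [map_add, hx, hy]
  · simp only [map_zsmul, hx]

/-- ROW U4. -/
theorem up_sf (y : P (Fin d)) :
    up O k l d (sf O k l _ y) = sf O k l _ (emb (Fin.succEmb d) y) := by
  apply LinearMap.ext
  intro f
  funext w
  rw [up_apply, ← pl_phS]
  change SK.act ℤ O k l _ y (comp (w 0) f) (Fin.tail w) =
    SK.act ℤ O k l _ (SK.pl ℤ (SK.phS d) y) f w
  rw [← SK.comp_plS, SK.comp_apply, Fin.cons_self_tail]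

/-- ROW U5. -/
theorem up_FR {j : ℕ} {y : EW O k l (Fin d)} (hy : y ∈ FR k l _ r j) :
    up O k l d y ∈ FR k l _ r j := by
  have key : ∀ (σ : Perm (Fin d)) (S : Finset (Fin d)),
      up O k l d (pf O k l _ (g σ) * ds r S) =
        pf O k l _ (g (σ.viaEmbedding (Fin.succEmb d))) * ds r (S.map (Fin.succEmb d)) := by
    intro σ S
    rw [map_mul, up_pf, up_ds, H4.emb_g]
  unfold FR at hy
  induction hy using Submodule.span_induction with
  | mem x hx =>
    obtain ⟨σ, S, ⟨h, rfl⟩ | rfl⟩ := hx
    · exact Submodule.subset_span ⟨σ.viaEmbedding (Fin.succEmb d), S.map (Fin.succEmb d),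
        Or.inl ⟨by rw [Finset.card_map]; exact h, key σ S⟩⟩
    · refine Submodule.subset_span ⟨σ.viaEmbedding (Fin.succEmb d), S.map (Fin.succEmb d),
        Or.inr ?_⟩
      rw [up_smul, key]
  | zero => rw [map_zero]; exact Submodule.zero_mem _
  | add a b _ _ ha hb => rw [map_add]; exact Submodule.add_mem _ ha hb
  | smul c a _ ha => rw [up_smul]; exact Submodule.smul_mem _ _ ha

end UT

end Pool.PI34.EX
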