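import Pool.Agent.LibPI34.EX_T1
import Pool.Agent.LibPI34.EX_B2
import Pool.Agent.LibPI34.EX_U
import Pool.Agent.LibPI34.H4_Top2

/-!
PI34, block EX (p = 2), file EX_T2: the super trace of a transposition, the partial trace and the filtration.
-/

set_option autoImplicit false
set_option linter.unusedSectionVars false
set_option linter.unusedDecidableInType false
set_option linter.unusedFintypeInType false

namespace Pool.PI34.EX

open Equiv Finset
open Pool.PI34.Super (Lt odd pv prs)
open Pool.PI34.SK (W comp ins)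
open Pool.PI34.H4 (P g emb As AK)


section UT2

variable {O : Type} [CommRing O] {k l : ℕ} {d : ℕ} {r : O}

theorem sf_g {ι : Type} [Fintype ι] [LinearOrder ι] (σ : Perm ι) :
    sf O k l ι (g σ) = SK.rho O k l ι σ := SK.act_of σ

/-- ROW T4: the super trace of a transposition is `1`. -/
theorem Ptr_sf_swap (hr : r * r = 2) (a : Fin d) :
    Ptr O k l d ((1 - r • ds r {0}) * sf O k l _ (g (swap 0 a.succ))) = 1 := by
  apply LinearMap.ext; intro f; funext w
  rw [Ptr_apply, Module.End.one_apply, sf_g]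
  have h : ∀ c : Lt k l, ((1 - r • ds r {0} : EW O k l (Fin (d + 1))) *
      SK.rho O k l _ (swap 0 a.succ)) (ins c f) (Fin.cons c w) = if w a = c then f w else 0 := by
    intro c
    have h1 : SK.rho O k l _ (swap 0 a.succ) (ins c f) (Fin.cons c w)
        = SK.pm c c * (if w a = c then f w else 0) := by
      have h2 := congrFun (SK.comp_rho_swap (ins c f) a c) w
      rw [SK.comp_apply] at h2
      rw [h2, Finset.sum_apply, Finset.sum_eq_single c]
      · rw [Pi.smul_apply, smul_eq_mul, SK.comp_ins, if_pos rfl, SK.eop_apply, SK.bsg_self, one_mul]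
        congr 1
        split_ifs with h3
        · rw [← h3, Function.update_eq_self]
        · rfl
      · intro b _ hb
        rw [SK.comp_ins, if_neg hb, map_zero, smul_zero, Pi.zero_apply]
      · intro h3; exact absurd (Finset.mem_univ _) h3
    rw [Module.End.mul_apply, LinearMap.sub_apply, Module.End.one_apply, Pi.sub_apply,
      LinearMap.smul_apply, Pi.smul_apply, ds_apply, h1, Finset.prod_singleton, Fin.cons_zero,
      smul_eq_mul]
    unfold SK.pm
    cases odd c
    · simp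
    · simp only [Bool.and_self, if_true]
      linear_combination (if w a = c then f w else 0) * hr
  rw [Finset.sum_congr rfl (fun c _ => h c), Finset.sum_ite_eq, if_pos (Finset.mem_univ _)]

/-- A permutation is a transposition times a permutation of the last places. -/
theorem g_decomp (σ : Perm (Fin (d + 1))) : ∃ (p : Fin (d + 1)) (τ : Perm (Fin d)),
    g σ = g (swap 0 p) * emb (Fin.succEmb d) (g τ) := by
  obtain ⟨⟨p, e⟩, rfl⟩ := Perm.decomposeFin.symm.surjective σ
  refine ⟨p, e, ?_⟩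
  rw [H4.decomposeFin_eq, H4.g_mul, H4.emb_g]
  rfl

/-- `δ_S` with the place `0` split off. -/
theorem ds_split (S : Finset (Fin (d + 1))) : ∃ S' : Finset (Fin d),
    (0 ∉ S ∧ S'.card = S.card ∧ (ds r S : EW O k l _) = up O k l d (ds r S')) ∨
    (0 ∈ S ∧ S'.card + 1 = S.card ∧ (ds r S : EW O k l _) = ds r {0} * up O k l d (ds r S')) := by
  classical
  have hS : ∀ T : Finset (Fin (d + 1)), 0 ∉ T →
      ∃ S' : Finset (Fin d), S'.map (Fin.succEmb d) = T := by
    intro T hT
    refine ⟨univ.filter (fun i => i.succ ∈ T), ?_⟩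
    ext x
    rw [Finset.mem_map]
    constructor
    · rintro ⟨y, hy, rfl⟩
      rw [Finset.mem_filter] at hy
      exact hy.2
    · intro hx
      rcases Fin.eq_zero_or_eq_succ x with rfl | ⟨y, rfl⟩
      · exact absurd hx hT
      · exact ⟨y, by rw [Finset.mem_filter]; exact ⟨Finset.mem_univ _, hx⟩, rfl⟩
  by_cases h0 : 0 ∈ S
  · obtain ⟨S', hS'⟩ := hS (S.erase 0) (Finset.notMem_erase 0 S)
    refine ⟨S', Or.inr ⟨h0, ?_, ?_⟩⟩
    · have h1 : S'.card = (S.erase 0).card := by rw [← hS', Finset.card_map]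
      rw [h1, Finset.card_erase_add_one h0]
    · rw [up_ds, hS', ds_mul]
      have h2 : {0} ∩ S.erase 0 = (∅ : Finset (Fin (d + 1))) := by
        rw [← Finset.disjoint_iff_inter_eq_empty, Finset.disjoint_singleton_left]
        exact Finset.notMem_erase 0 S
      have h3 : {0} ∪ S.erase 0 = S := by
        rw [← Finset.insert_eq, Finset.insert_erase h0]
      rw [h2, h3, Finset.card_empty, pow_zero, one_smul]
  · obtain ⟨S', hS'⟩ := hS S h0
    refine ⟨S', Or.inl ⟨h0, ?_, ?_⟩⟩
    · rw [← hS', Finset.card_map]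
    · rw [up_ds, hS']

/-- The partial trace of a generator. -/
theorem Ptr_gen (σ : Perm (Fin (d + 1))) (S : Finset (Fin (d + 1))) :
    ∃ (c : O) (τ : Perm (Fin d)) (S' : Finset (Fin d)),
      Ptr O k l d (pf O k l _ (g σ) * ds r S) = c • (pf O k l _ (g τ) * ds r S') ∧
      (S.card ≤ S'.card ∨ ∃ c', c = r * c') := by
  classical
  obtain ⟨p, τ, hσ⟩ := g_decomp σ
  obtain ⟨S', hS⟩ := ds_split (O := O) (k := k) (l := l) (r := r) S
  rw [hσ, map_mul (pf O k l (Fin (d + 1))), ← up_pf]
  rcases hS with ⟨h0, h1, h2⟩ | ⟨h0, h1, h2⟩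
  · rw [h2, mul_assoc, ← map_mul (up O k l d), Ptr_mul_up]
    rcases Fin.eq_zero_or_eq_succ p with rfl | ⟨a, rfl⟩
    · refine ⟨((k + l : ℕ) : O), τ, S', ?_, Or.inl h1.ge⟩
      have h3 : g (swap (0 : Fin (d + 1)) 0) = 1 := by
        rw [swap_self]; exact H4.g_one
      rw [h3, map_one, Ptr_one, smul_mul_assoc, one_mul]
    · refine ⟨1, τ, S', ?_, Or.inl h1.ge⟩
      rw [Ptr_swap, one_mul, one_smul]
  · have h3 : up O k l d (pf O k l _ (g τ)) * ds r {0}
        = ds r {0} * up O k l d (pf O k l _ (g τ)) := by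
      rw [up_pf, H4.emb_g, pf_ds]
      congr 2
      rw [Finset.map_singleton]
      congr 1
      change τ.viaEmbedding (Fin.succEmb d) 0 = 0
      rw [Perm.viaEmbedding_apply_of_notMem]
      rintro ⟨y, hy⟩
      exact Fin.succ_ne_zero y hy
    have h4 : pf O k l _ (g (swap 0 p)) * up O k l d (pf O k l _ (g τ)) *
        (ds r {0} * up O k l d (ds r S')) = pf O k l _ (g (swap 0 p)) * ds r {0} *
        up O k l d (pf O k l _ (g τ) * ds r S') := by
      rw [map_mul (up O k l d), mul_assoc, ← mul_assoc (up O k l d (pf O k l _ (g τ))), h3]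
      simp only [mul_assoc]
    rw [h2, h4, Ptr_mul_up]
    rcases Fin.eq_zero_or_eq_succ p with rfl | ⟨a, rfl⟩
    · refine ⟨r * l, τ, S', ?_, Or.inr ⟨l, rfl⟩⟩
      have h5 : g (swap (0 : Fin (d + 1)) 0) = 1 := by
        rw [swap_self]; exact H4.g_one
      rw [h5, map_one, one_mul, Ptr_ds0, smul_mul_assoc, one_mul]
    · rw [Ptr_swap_ds0]
      have h5 : (ds r {a} : EW O k l _) * pf O k l _ (g τ)
          = pf O k l _ (g τ) * ds r {τ.symm a} := by
        rw [pf_ds, Finset.map_singleton]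
        congr 3
        exact (τ.apply_symm_apply a).symm
      have h6 : (ds r {a} : EW O k l _) * (pf O k l _ (g τ) * ds r S')
          = r ^ ({τ.symm a} ∩ S').card • (pf O k l _ (g τ) * ds r ({τ.symm a} ∪ S')) := by
        rw [← mul_assoc, h5, mul_assoc, ds_mul, mul_smul_comm]
      refine ⟨r ^ ({τ.symm a} ∩ S').card, τ, {τ.symm a} ∪ S', h6, ?_⟩
      by_cases hb : τ.symm a ∈ S'
      · right
        refine ⟨1, ?_⟩
        rw [Finset.singleton_inter_of_mem hb, Finset.card_singleton, pow_one, mul_one]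
      · left
        rw [← Finset.insert_eq, Finset.card_insert_of_notMem hb, h1]

/-- ROW T5. -/
theorem Ptr_FR {j : ℕ} {x : EW O k l (Fin (d + 1))} (hx : x ∈ FR k l _ r j) :
    Ptr O k l d x ∈ FR k l _ r j := by
  have h : FR k l _ r j ≤ (FR k l _ r j).comap (Ptr O k l d) := by
    conv_lhs => unfold FR
    refine Submodule.span_le.2 ?_
    rintro y ⟨σ, S, hy⟩
    change Ptr O k l d y ∈ FR k l _ r j
    obtain ⟨c, τ, S', h1, h2⟩ := Ptr_gen (O := O) (k := k) (l := l) (r := r) σ S
    rcases hy with ⟨hc, rfl⟩ | rfl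
    · rw [h1]
      rcases h2 with h2 | ⟨c', rfl⟩
      · exact Submodule.smul_mem _ _ (Submodule.subset_span ⟨τ, S', Or.inl ⟨hc.trans h2, rfl⟩⟩)
      · rw [mul_comm, mul_smul]
        exact Submodule.smul_mem _ _ (Submodule.subset_span ⟨τ, S', Or.inr rfl⟩)
    · rw [map_smul, h1, smul_comm]
      exact Submodule.smul_mem _ _ (Submodule.subset_span ⟨τ, S', Or.inr rfl⟩)
  exact h hx

theorem sf_mem (hr : r * r = 2) {ι : Type} [Fintype ι] [LinearOrder ι] (y : P ι) :
    sf O k l ι y ∈ FR k l ι r 0 := by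
  have h := Submodule.add_mem _ (FR_mono (Nat.zero_le 2) (sf_sub_pf (k := k) (l := l) hr y))
    (pf_mem (O := O) (k := k) (l := l) (r := r) y)
  rwa [sub_add_cancel] at h

/-- ROW T6. -/
theorem Ptr_sf (hr : r * r = 2) (σ : Perm (Fin (d + 1))) :
    ∃ (c : O) (τ : Perm (Fin d)) (x : EW O k l (Fin d)), x ∈ FR k l _ r 0 ∧
      Ptr O k l d (sf O k l _ (g σ)) = c • sf O k l _ (g τ) + r • x := by
  obtain ⟨p, τ, hσ⟩ := g_decomp σ
  rw [hσ, map_mul (sf O k l (Fin (d + 1))), ← up_sf, Ptr_mul_up]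
  rcases Fin.eq_zero_or_eq_succ p with rfl | ⟨a, rfl⟩
  · refine ⟨((k + l : ℕ) : O), τ, 0, Submodule.zero_mem _, ?_⟩
    have h3 : g (swap (0 : Fin (d + 1)) 0) = 1 := by
      rw [swap_self]; exact H4.g_one
    rw [h3, map_one, Ptr_one, smul_mul_assoc, one_mul, smul_zero, add_zero]
  · refine ⟨1, τ, Ptr O k l d (ds r {0} * sf O k l _ (g (swap 0 a.succ))) * sf O k l _ (g τ),
      ?_, ?_⟩
    · have h1 : Ptr O k l d (ds r {0} * sf O k l _ (g (swap 0 a.succ))) ∈ FR k l _ r 0 := by
        refine Ptr_FR ?_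
        have h2 : (ds r {0} : EW O k l (Fin (d + 1))) ∈ FR k l _ r 0 :=
          FR_mono (Nat.zero_le _) (ds_mem {0})
        have h3 : sf O k l (Fin (d + 1)) (g (swap 0 a.succ)) ∈ FR k l _ r 0 := sf_mem hr _
        exact FR_mul (i := 0) (j := 0) h2 h3
      have h3 : sf O k l (Fin d) (g τ) ∈ FR k l _ r 0 := sf_mem hr _
      exact FR_mul (i := 0) (j := 0) h1 h3
    · have h1 := Ptr_sf_swap (O := O) (k := k) (l := l) hr a
      have h2 : (1 - r • ds r {0} : EW O k l (Fin (d + 1))) * sf O k l _ (g (swap 0 a.succ))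
          = sf O k l _ (g (swap 0 a.succ)) - r • (ds r {0} * sf O k l _ (g (swap 0 a.succ))) := by
        rw [sub_mul, one_mul, smul_mul_assoc]
      rw [h2, (Ptr O k l d).map_sub, (Ptr O k l d).map_smul, sub_eq_iff_eq_add] at h1
      rw [h1, add_mul, one_mul, one_smul, smul_mul_assoc]

end UT2

end Pool.PI34.EX
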