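import Pool.Agent.LibPI34.EX_K2
import Pool.Agent.LibPI34.EX_B2
import Pool.Agent.LibPI34.EX_U
import Pool.Agent.LibPI34.EX_T2
import Pool.Agent.LibPI34.EX_C2
import Pool.Agent.LibPI34.EX_R12
import Pool.Agent.LibPI34.EX_A2
import Pool.Agent.LibPI34.EX_L

/-! PI34, block EX (p = 2): all rows. -/
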