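import Pool.Agent.LibPI34.EX_Def2

/-!
PI34, block EX (p = 2), rows B1, B2, B3, B7, B8: the operators `δ`, the filtration.
-/

set_option autoImplicit false
set_option linter.unusedSectionVars false
set_option linter.unusedDecidableInType false
set_option linter.unusedFintypeInType false

namespace Pool.PI34.EX

open Equiv Finset
open Pool.PI34.Super (Lt odd pv prs)
open Pool.PI34.SK (W comp ins)
open Pool.PI34.H4 (P g emb As AK)

section B

variable {O : Type} [CommRing O] {k l : ℕ} {ι : Type} [Fintype ι] [LinearOrder ι] {r : O}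

/-- ROW B1. -/
theorem pf_ds (σ : Perm ι) (S : Finset ι) :
    pf O k l ι (g σ) * ds r S = ds r (S.map σ.toEmbedding) * pf O k l ι (g σ) := by
  apply LinearMap.ext
  intro f
  funext w
  rw [Module.End.mul_apply, Module.End.mul_apply, pa_g, ds_apply, ds_apply, pa_g, Finset.prod_map]
  rfl

/-- ROW B2. -/
theorem ds_mul (S T : Finset ι) :
    (ds r S * ds r T : EW O k l ι) = r ^ (S ∩ T).card • ds r (S ∪ T) := by
  apply LinearMap.ext
  intro f
  funext w
  rw [Module.End.mul_apply, ds_apply, ds_apply, ← mul_assoc, LinearMap.smul_apply, Pi.smul_apply,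
    ds_apply, smul_eq_mul, ← mul_assoc]
  congr 1
  rw [← Finset.prod_union_inter]
  have hsub : S ∩ T ⊆ S ∪ T := Finset.inter_subset_left.trans Finset.subset_union_left
  rw [← Finset.prod_sdiff hsub, mul_assoc, ← Finset.prod_mul_distrib, mul_comm (r ^ _), mul_assoc]
  congr 1
  rw [← Finset.prod_const, ← Finset.prod_mul_distrib]
  refine Finset.prod_congr rfl fun i _ => ?_
  split_ifs
  · rfl
  · rw [mul_zero, zero_mul]

theorem FR_gen_le {j : ℕ} (σ : Perm ι) {S : Finset ι} (h : j ≤ S.card) :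
    pf O k l ι (g σ) * ds r S ∈ FR k l ι r j :=
  Submodule.subset_span ⟨σ, S, Or.inl ⟨h, rfl⟩⟩

theorem FR_gen_r (j : ℕ) (σ : Perm ι) (S : Finset ι) :
    r • (pf O k l ι (g σ) * ds r S) ∈ FR k l ι r j :=
  Submodule.subset_span ⟨σ, S, Or.inr rfl⟩

theorem gen_mul (σ τ : Perm ι) (S T : Finset ι) : ∃ (c : ℕ) (U : Finset ι),
    c + U.card = S.card + T.card ∧
    (pf O k l ι (g σ) * ds r S) * (pf O k l ι (g τ) * ds r T) =
      r ^ c • (pf O k l ι (g (σ * τ)) * ds r U) := by
  have h1 : ds r S * pf O k l ι (g τ) = pf O k l ι (g τ) * ds r (S.map (τ⁻¹).toEmbedding) := by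
    rw [pf_ds, Finset.map_map]
    congr 2
    have h2 : (τ⁻¹).toEmbedding.trans τ.toEmbedding = Function.Embedding.refl ι := by
      ext x
      simp
    rw [h2, Finset.map_refl]
  refine ⟨(S.map (τ⁻¹).toEmbedding ∩ T).card, S.map (τ⁻¹).toEmbedding ∪ T, ?_, ?_⟩
  · have h3 := Finset.card_union_add_card_inter (S.map (τ⁻¹).toEmbedding) T
    rw [Finset.card_map] at h3
    omega
  · calc (pf O k l ι (g σ) * ds r S) * (pf O k l ι (g τ) * ds r T)
        = pf O k l ι (g σ) * (ds r S * pf O k l ι (g τ)) * ds r T := by noncomm_ring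
      _ = (pf O k l ι (g σ) * pf O k l ι (g τ)) * (ds r (S.map (τ⁻¹).toEmbedding) * ds r T) := by
          rw [h1]; noncomm_ring
      _ = _ := by
          rw [ds_mul, ← map_mul, ← H4.g_mul, mul_smul_comm]

/-- ROW B3. -/
theorem FR_mul {i j : ℕ} {x y : EW O k l ι} (hx : x ∈ FR k l ι r i) (hy : y ∈ FR k l ι r j) :
    x * y ∈ FR k l ι r (i + j) := by
  have key : ∀ (c : ℕ) (σ τ : Perm ι) (S T : Finset ι), (i ≤ S.card ∧ j ≤ T.card) ∨ 0 < c →
      r ^ c • ((pf O k l ι (g σ) * ds r S) * (pf O k l ι (g τ) * ds r T)) ∈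
        FR k l ι r (i + j) := by
    intro c σ τ S T h
    obtain ⟨c', U, h1, h2⟩ := gen_mul (O := O) (k := k) (l := l) (r := r) σ τ S T
    rw [h2, smul_smul, ← pow_add]
    rcases Nat.eq_zero_or_pos (c + c') with h3 | h3
    · rw [h3, pow_zero, one_smul]
      apply FR_gen_le
      rcases h with h | h
      · omega
      · omega
    · obtain ⟨c'', h4⟩ : ∃ c'', c + c' = c'' + 1 := ⟨c + c' - 1, by omega⟩
      rw [h4, pow_succ, mul_smul]
      exact Submodule.smul_mem _ _ (FR_gen_r _ _ _)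
  unfold FR at hx
  induction hx using Submodule.span_induction with
  | mem x hx =>
    unfold FR at hy
    induction hy using Submodule.span_induction with
    | mem y hy =>
      obtain ⟨σ, S, hx⟩ := hx
      obtain ⟨τ, T, hy⟩ := hy
      rcases hx with ⟨h1, rfl⟩ | rfl <;> rcases hy with ⟨h2, rfl⟩ | rfl
      · have h3 := key 0 σ τ S T (Or.inl ⟨h1, h2⟩)
        rwa [pow_zero, one_smul] at h3
      · have h3 := key 1 σ τ S T (Or.inr one_pos)
        rwa [pow_one, ← mul_smul_comm] at h3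
      · have h3 := key 1 σ τ S T (Or.inr one_pos)
        rwa [pow_one, ← smul_mul_assoc] at h3
      · have h3 := key 2 σ τ S T (Or.inr two_pos)
        rwa [pow_two, mul_smul, ← mul_smul_comm, ← smul_mul_assoc] at h3
    | zero => rw [mul_zero]; exact Submodule.zero_mem _
    | add a b _ _ ha hb => rw [mul_add]; exact Submodule.add_mem _ ha hb
    | smul c a _ ha => rw [mul_smul_comm]; exact Submodule.smul_mem _ _ ha
  | zero => rw [zero_mul]; exact Submodule.zero_mem _
  | add a b _ _ ha hb => rw [add_mul]; exact Submodule.add_mem _ ha hb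
  | smul c a _ ha => rw [smul_mul_assoc]; exact Submodule.smul_mem _ _ ha

theorem FR_mono {i j : ℕ} (h : i ≤ j) : FR k l ι r j ≤ FR k l ι r i := by
  unfold FR
  refine Submodule.span_mono ?_
  rintro x ⟨σ, S, hx | hx⟩
  · exact ⟨σ, S, Or.inl ⟨h.trans hx.1, hx.2⟩⟩
  · exact ⟨σ, S, Or.inr hx⟩

theorem ds_empty : (ds r ∅ : EW O k l ι) = 1 := by
  apply LinearMap.ext
  intro f
  funext w
  rw [ds_apply, Finset.prod_empty, one_mul]
  rfl

/-- ROW B7a. -/
theorem pf_mem (y : P ι) : pf O k l ι y ∈ FR k l ι r 0 := by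
  refine H4.P_induction (p := fun y => pf O k l ι y ∈ FR k l ι r 0) y (fun σ => ?_)
    (fun x y hx hy => ?_) (fun n x hx => ?_)
  · have h := FR_gen_le (O := O) (k := k) (l := l) (r := r) σ (S := ∅) (Nat.zero_le _)
    rwa [ds_empty, mul_one] at h
  · rw [map_add]; exact Submodule.add_mem _ hx hy
  · rw [map_zsmul]; exact zsmul_mem hx n

/-- ROW B7b. -/
theorem ds_mem (S : Finset ι) : (ds r S : EW O k l ι) ∈ FR k l ι r S.card := by
  have h := FR_gen_le (O := O) (k := k) (l := l) (r := r) 1 (S := S) le_rfl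
  rwa [H4.g_one, map_one, one_mul] at h

/-- ROW B7c. -/
theorem r_smul_mem {x : EW O k l ι} (hx : x ∈ FR k l ι r 0) (j : ℕ) : r • x ∈ FR k l ι r j := by
  unfold FR at hx
  induction hx using Submodule.span_induction with
  | mem x hx =>
    obtain ⟨σ, S, ⟨_, rfl⟩ | rfl⟩ := hx
    · exact FR_gen_r _ _ _
    · exact Submodule.smul_mem _ _ (FR_gen_r _ _ _)
  | zero => rw [smul_zero]; exact Submodule.zero_mem _
  | add a b _ _ ha hb => rw [smul_add]; exact Submodule.add_mem _ ha hb
  | smul c a _ ha => rw [smul_comm]; exact Submodule.smul_mem _ _ ha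

/-- ROW B8: elements of degree larger than the number of places are multiples of `r`. -/
theorem FR_top {j : ℕ} (hj : Fintype.card ι < j) {x : EW O k l ι} (hx : x ∈ FR k l ι r j) :
    ∃ y ∈ FR k l ι r 0, x = r • y := by
  unfold FR at hx
  induction hx using Submodule.span_induction with
  | mem x hx =>
    obtain ⟨σ, S, ⟨h, rfl⟩ | rfl⟩ := hx
    · exact absurd (h.trans (Finset.card_le_univ S)) (by omega)
    · exact ⟨_, FR_gen_le σ (Nat.zero_le _), rfl⟩
  | zero => exact ⟨0, Submodule.zero_mem _, by rw [smul_zero]⟩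
  | add a b _ _ ha hb =>
    obtain ⟨a', ha', rfl⟩ := ha
    obtain ⟨b', hb', rfl⟩ := hb
    exact ⟨a' + b', Submodule.add_mem _ ha' hb', by rw [smul_add]⟩
  | smul c a _ ha =>
    obtain ⟨a', ha', rfl⟩ := ha
    exact ⟨c • a', Submodule.smul_mem _ _ ha', by rw [smul_comm]⟩

end B

end Pool.PI34.EX
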