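import Pool.Agent.LibPI34.EX_Def2

/-!
PI34, block EX (p = 2), rows C1, C2: the exchange relation in rank `k + l = m + 1`.
-/

set_option autoImplicit false
set_option linter.unusedSectionVars false
set_option linter.unusedDecidableInType false
set_option linter.unusedFintypeInType false

namespace Pool.PI34.EX

open Equiv Finset
open Pool.PI34.Super (Lt odd pv prs)
open Pool.PI34.SK (W comp ins)
open Pool.PI34.H4 (P g emb As AK)

section C

/-! ### auxiliary facts (any ring, any letters) -/

section aux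

variable {R L : Type} [CommRing R] {α β : Type} [Fintype α] [DecidableEq α] [DecidableEq β]

theorem c1_pa_mul (x y : P β) (f : (β → L) → R) :
    pa R L β (x * y) f = pa R L β x (pa R L β y f) := by
  rw [map_mul]; rfl

theorem c1_pa_emb_g_As (E : α ↪ β) (σ : Perm α) (f : (β → L) → R) (w : β → L) :
    pa R L β (emb E (As α)) f (w ∘ σ.viaEmbedding E) =
      (Perm.sign σ : ℤ) • pa R L β (emb E (As α)) f w := by
  have h1 : pa R L β (g (σ.viaEmbedding E)) (pa R L β (emb E (As α)) f) w =
      pa R L β (emb E (As α)) f (w ∘ σ.viaEmbedding E) := pa_g R L _ _ _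
  rw [← h1, ← c1_pa_mul, ← H4.emb_g, ← map_mul, H4.g_mul_As, map_zsmul, map_zsmul]
  rfl

theorem c1_swap_via (E : α ↪ β) (x y : α) : (swap x y).viaEmbedding E = swap (E x) (E y) := by
  ext z
  by_cases hz : z ∈ Set.range E
  · obtain ⟨t, rfl⟩ := hz
    rw [Perm.viaEmbedding_apply, swap_apply_def, swap_apply_def]
    simp only [E.apply_eq_iff_eq]
    split_ifs <;> rfl
  · rw [Perm.viaEmbedding_apply_of_notMem _ _ _ hz, swap_apply_of_ne_of_ne]
    · rintro rfl; exact hz ⟨x, rfl⟩
    · rintro rfl; exact hz ⟨y, rfl⟩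

theorem c1_pa_sum (s : Finset (Perm α)) (x : Perm α → P β) (f : (β → L) → R) :
    pa R L β (∑ i ∈ s, x i) f = ∑ i ∈ s, pa R L β (x i) f := by
  rw [map_sum, LinearMap.sum_apply]

/-- The signed sum kills a word with two equal letters. -/
theorem c1_pa_As_zero (E : α ↪ β) (f : (β → L) → R) (w : β → L) {x y : α} (hxy : x ≠ y)
    (hw : w (E x) = w (E y)) : pa R L β (emb E (As α)) f w = 0 := by
  have h0 : w ∘ ⇑(swap (E x) (E y)) = w := by
    funext t
    simp only [Function.comp_apply]
    rcases eq_or_ne t (E x) with rfl | hx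
    · rw [swap_apply_left, hw]
    · rcases eq_or_ne t (E y) with rfl | hy
      · rw [swap_apply_right, hw]
      · rw [swap_apply_of_ne_of_ne hx hy]
  unfold As
  rw [map_sum, c1_pa_sum, Finset.sum_apply]
  refine Finset.sum_involution (fun σ _ => swap x y * σ) ?_ ?_ ?_ ?_
  · intro σ _
    rw [H4.emb_zsmul, H4.emb_zsmul, map_zsmul, map_zsmul, H4.emb_g, H4.emb_g]
    have h1 : pa R L β (g (σ.viaEmbedding E)) f w = f (w ∘ σ.viaEmbedding E) := pa_g R L _ _ _
    have h2 : pa R L β (g ((swap x y * σ).viaEmbedding E)) f w =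
        f (w ∘ (swap x y * σ).viaEmbedding E) := pa_g R L _ _ _
    have h3 : (swap x y * σ).viaEmbedding E = swap (E x) (E y) * σ.viaEmbedding E := by
      rw [← c1_swap_via, ← Perm.viaEmbeddingHom_apply, map_mul]
      rfl
    have h4 : w ∘ ⇑((swap x y * σ).viaEmbedding E) = w ∘ ⇑(σ.viaEmbedding E) := by
      rw [h3, Perm.coe_mul, ← Function.comp_assoc, h0]
    have h5 : (Perm.sign (swap x y * σ) : ℤ) = -(Perm.sign σ : ℤ) := by
      rw [Perm.sign_mul, Perm.sign_swap hxy]
      simp
    rw [LinearMap.smul_apply, LinearMap.smul_apply, Pi.smul_apply, Pi.smul_apply, h1, h2, h4, h5,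
      neg_smul, add_neg_cancel]
  · intro σ _ _ h
    have h1 : swap x y = 1 := by
      have := congrArg (fun τ => τ * σ⁻¹) h
      simpa using this
    exact hxy (swap_eq_one_iff.mp h1)
  · intro σ _
    exact mem_univ _
  · intro σ _
    rw [← mul_assoc, swap_mul_self, one_mul]

end aux

variable {O : Type} [CommRing O] {k l m : ℕ} {ι : Type} [Fintype ι] [LinearOrder ι] {r : O}

/-- ROW C1: exchange. -/
theorem exch (hm : k + l = m + 1) (D : Fin (m + 1) ↪ ι) (a : ι) (ha : ∀ i, D i ≠ a) :
    pf O k l ι (emb D (As (Fin (m + 1)))) =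
      ∑ i, pf O k l ι (g (swap a (D i)) * emb D (As (Fin (m + 1)))) := by
  obtain ⟨E, hE0, hE1⟩ : ∃ E : Fin (m + 2) ↪ ι, E 0 = a ∧ ∀ i, E (Fin.succ i) = D i := by
    refine ⟨⟨Fin.cons a D, ?_⟩, rfl, fun i => rfl⟩
    rw [Fin.cons_injective_iff]
    exact ⟨fun ⟨i, hi⟩ => ha i hi, D.injective⟩
  have hED : (H4.sE (m + 1)).trans E = D := by
    ext i
    exact hE1 i
  have h0 : pf O k l ι (emb E (As (Fin (m + 2)))) = 0 := by
    refine LinearMap.ext fun f => ?_
    funext w
    have hc : Fintype.card (Lt k l) < Fintype.card (Fin (m + 2)) := by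
      rw [Fintype.card_sum, Fintype.card_fin, Fintype.card_fin, Fintype.card_fin]
      omega
    obtain ⟨x, y, hxy, hw⟩ := Fintype.exists_ne_map_eq_of_card_lt (w ∘ E) hc
    exact c1_pa_As_zero E f w hxy hw
  have h1 : emb E (H4.atl (m + 1)) = 1 - ∑ i : Fin (m + 1), g (swap a (D i)) := by
    unfold H4.atl
    rw [map_sub, map_one, map_sum]
    congr 1
    refine Finset.sum_congr rfl fun i _ => ?_
    rw [H4.emb_g, c1_swap_via, hE0, hE1]
  rw [H4.As_succ (m + 1), map_mul, H4.emb_trans, hED, h1, sub_mul, one_mul, map_sub,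
    sub_eq_zero, Finset.sum_mul, map_sum] at h0
  exact h0

/-- ROW C2: a `δ` at a free place goes into a determinant. -/
theorem exch_ds (hm : k + l = m + 1) (D : Fin (m + 1) ↪ ι) (a : ι) (ha : ∀ i, D i ≠ a) :
    ds r {a} * pf O k l ι (emb D (As (Fin (m + 1)))) =
      ∑ i, pf O k l ι (g (swap a (D i))) * (ds r {D i} * pf O k l ι (emb D (As (Fin (m + 1))))) := by
  refine LinearMap.ext fun f => ?_
  funext w
  have h1 : pf O k l ι (emb D (As (Fin (m + 1)))) f w =
      ∑ i, pf O k l ι (emb D (As (Fin (m + 1)))) f (w ∘ swap a (D i)) := by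
    have h2 := congrFun (congrArg (fun φ : EW O k l ι => φ f) (exch (O := O) hm D a ha)) w
    beta_reduce at h2
    rw [h2, LinearMap.sum_apply, Finset.sum_apply]
    refine Finset.sum_congr rfl fun i _ => ?_
    rw [c1_pa_mul]
    exact pa_g O (Lt k l) _ _ _
  have h3 : (∑ i, pf O k l ι (g (swap a (D i))) * (ds r {D i} *
      pf O k l ι (emb D (As (Fin (m + 1))))) : EW O k l ι) f w =
      ∑ i, (if odd (w a) then r else 0) *
        pf O k l ι (emb D (As (Fin (m + 1)))) f (w ∘ swap a (D i)) := by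
    rw [LinearMap.sum_apply, Finset.sum_apply]
    refine Finset.sum_congr rfl fun i _ => ?_
    have h4 : (pf O k l ι (g (swap a (D i))) * (ds r {D i} *
        pf O k l ι (emb D (As (Fin (m + 1))))) : EW O k l ι) f w =
        (ds r {D i} * pf O k l ι (emb D (As (Fin (m + 1)))) : EW O k l ι) f
          (w ∘ swap a (D i)) :=
      pa_g O (Lt k l) _ _ _
    rw [h4]
    change (∏ j ∈ {D i}, if odd ((w ∘ swap a (D i)) j) then r else 0) *
      pf O k l ι (emb D (As (Fin (m + 1)))) f (w ∘ swap a (D i)) = _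
    rw [Finset.prod_singleton, Function.comp_apply, swap_apply_right]
  rw [h3, ← Finset.mul_sum, ← h1]
  change (∏ j ∈ {a}, if odd (w j) then r else 0) * _ = _
  rw [Finset.prod_singleton]

end C

end Pool.PI34.EX
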