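import Pool.Agent.LibPI34.SK5
import Pool.Agent.LibPI34.H4_CL

/-!
PI34, block EX (p = 2), definitions: the plain action on functions on words, the operators `δ`, the filtration by the
number of the `δ`, one more strand, the partial trace, the element `Ω`.
-/

set_option autoImplicit false
set_option linter.unusedSectionVars false
set_option linter.unusedDecidableInType false
set_option linter.unusedFintypeInType false

namespace Pool.PI34.EX

open Equiv Finset
open Pool.PI34.Super (Lt odd pv prs)
open Pool.PI34.SK (W comp ins)
open Pool.PI34.H4 (P g emb As AK)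

/-! ### the plain action -/

section plain

variable (R L : Type) [CommRing R] {α : Type}

/-- The plain action of a permutation of the places. -/
def paFun (σ : Perm α) : ((α → L) → R) →ₗ[R] ((α → L) → R) where
  toFun f := fun w => f (w ∘ σ)
  map_add' _ _ := rfl
  map_smul' _ _ := rfl

variable (α)

/-- The plain action as a homomorphism. -/
def paHom : Perm α →* Module.End R ((α → L) → R) where
  toFun := paFun R L
  map_one' := rfl
  map_mul' _ _ := rfl

/-- The plain action of the integral group algebra on the functions on words with letters in `L`. -/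
noncomputable def pa : P α →+* Module.End R ((α → L) → R) :=
  (MonoidAlgebra.lift ℤ _ _ (paHom R L α)).toRingHom

variable {α}

theorem pa_g (σ : Perm α) (f : (α → L) → R) (w : α → L) : pa R L α (g σ) f w = f (w ∘ σ) := by
  have h : pa R L α (g σ) = paHom R L α σ := by
    simp [pa]
  rw [h]
  rfl

/-- The element acts by zero on the words with letters in `L`. -/
def Kill (y : P α) : Prop := pa ℤ L α y = 0

end plain

/-! ### operators on the words of a superspace -/

section ops

variable (O : Type) [CommRing O] (k l : ℕ) (ι : Type) [Fintype ι] [LinearOrder ι]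

/-- Operators. -/
abbrev EW : Type := Module.End O (W O k l ι)

/-- The plain action. -/
noncomputable abbrev pf : P ι →+* EW O k l ι := pa O (Lt k l) ι

/-- The signed action. -/
noncomputable def sf : P ι →+* EW O k l ι := (SK.act ℤ O k l ι).toRingHom

variable {O k l ι}

/-- The operator `δ_S`: the product of the `δ_i = r ⋅ (the letter at the place i is odd)`. -/
def ds (r : O) (S : Finset ι) : EW O k l ι where
  toFun f := fun w => (∏ i ∈ S, if odd (w i) then r else 0) * f w
  map_add' f g := by funext w; simp [mul_add]
  map_smul' c f := by funext w; simp; ring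

theorem ds_apply (r : O) (S : Finset ι) (f : W O k l ι) (w : ι → Lt k l) :
    ds r S f w = (∏ i ∈ S, if odd (w i) then r else 0) * f w := rfl

variable (k l ι)

/-- `F^j + r F^0`. -/
def FR (r : O) (j : ℕ) : Submodule O (EW O k l ι) :=
  Submodule.span O {x | ∃ (σ : Perm ι) (S : Finset ι),
    (j ≤ S.card ∧ x = pf O k l ι (g σ) * ds r S) ∨ x = r • (pf O k l ι (g σ) * ds r S)}

variable {k l ι}

/-- `F^j Y + r F^0 Y`. -/
def NF (r : O) (j : ℕ) (Y : EW O k l ι) : Submodule O (EW O k l ι) :=
  (FR k l ι r j).map (LinearMap.mulRight O Y)

end ops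

/-! ### one more strand -/

section up

variable {O : Type} [CommRing O] {k l : ℕ} {d : ℕ}

/-- The operator `1 ⊗ y` (the new strand is the place `0`). -/
def upFun (y : EW O k l (Fin d)) : EW O k l (Fin (d + 1)) where
  toFun f := fun w => y (comp (w 0) f) (Fin.tail w)
  map_add' f g := by funext w; simp [map_add]
  map_smul' c f := by funext w; simp [map_smul]

variable (O k l d)

/-- `1 ⊗ y` as a homomorphism of rings. -/
def up : EW O k l (Fin d) →+* EW O k l (Fin (d + 1)) where
  toFun := upFun
  map_one' := by
    apply LinearMap.ext; intro f; funext w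
    change f (Fin.cons (w 0) (Fin.tail w)) = f w
    rw [Fin.cons_self_tail]
  map_mul' y z := by
    apply LinearMap.ext; intro f; funext w
    change y (z (comp (w 0) f)) (Fin.tail w) = y (comp (w 0) (upFun z f)) (Fin.tail w)
    congr 2
  map_zero' := rfl
  map_add' y z := rfl

variable {O k l d}

theorem up_apply (y : EW O k l (Fin d)) (f : W O k l (Fin (d + 1))) (w : Fin (d + 1) → Lt k l) :
    up O k l d y f w = y (comp (w 0) f) (Fin.tail w) := rfl

/-- The (plain) partial trace over the place `0`. -/
def Ptr (O : Type) [CommRing O] (k l d : ℕ) : EW O k l (Fin (d + 1)) →ₗ[O] EW O k l (Fin d) where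
  toFun φ := ∑ c : Lt k l, comp c ∘ₗ φ ∘ₗ ins c
  map_add' φ ψ := by
    rw [← Finset.sum_add_distrib]
    refine Finset.sum_congr rfl fun c _ => ?_
    rw [LinearMap.add_comp, LinearMap.comp_add]
  map_smul' a φ := by
    rw [RingHom.id_apply, Finset.smul_sum]
    refine Finset.sum_congr rfl fun c _ => ?_
    rw [LinearMap.smul_comp, LinearMap.comp_smul]

/-- `n` more strands. -/
def upn (O : Type) [CommRing O] (k l d : ℕ) : (n : ℕ) → EW O k l (Fin d) →+* EW O k l (Fin (d + n))
  | 0 => RingHom.id _
  | n + 1 => (up O k l (d + n)).comp (upn O k l d n)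

end up

end Pool.PI34.EX
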