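import Pool.Agent.LibPI34.EX_Def

/-!
PI34, block EX (p = 2), definitions, part 2: congruences modulo `2` and the kernel, blocks of places, the data of the two
layers, the element `Ω`.
-/

set_option autoImplicit false
set_option linter.unusedSectionVars false
set_option linter.unusedDecidableInType false
set_option linter.unusedFintypeInType false

namespace Pool.PI34.EX

open Equiv Finset
open Pool.PI34.Super (Lt odd pv prs)
open Pool.PI34.SK (W comp ins)
open Pool.PI34.H4 (P g emb As AK)

/-- Zero modulo `2` and the elements which act by zero on the words with letters in `L`. -/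
def K2 (L : Type) {α : Type} (y : P α) : Prop := ∃ y' : P α, Kill L (y - 2 * y')

section block

variable {α : Type} (m : ℕ)

/-- Every place is replaced by a block of `m` places. -/
def blHom (α : Type) : Perm α →* Perm (α × Fin m) where
  toFun σ := σ.prodCongr (Equiv.refl _)
  map_one' := rfl
  map_mul' _ _ := rfl

/-- Every place is replaced by a block of `m` places. -/
noncomputable def bl : P α →+* P (α × Fin m) :=
  MonoidAlgebra.mapDomainRingHom ℤ (blHom m α)

end block

/-- The data of the first layer (rank `m`; all congruences modulo `2`). -/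
structure VD (m : ℕ) where
  X : Type
  [fX : Fintype X]
  [dX : DecidableEq X]
  z : P X
  e1 : P (X ⊕ Fin 2)
  e0 : P (X ⊕ Fin 2)
  th : P (X ⊕ Fin 2)
  hne : ¬ Kill (Fin m) z
  hzz : ∃ c : ℤ, Kill (Fin m) (z * z - (2 * c + 1) • z)
  hsum : K2 (Fin m) (emb Function.Embedding.inl z - e1 - e0)
  hfe : K2 (Fin m) (g (swap (Sum.inr 0) (Sum.inr 1)) * e1 - e1)
  hef : K2 (Fin m) (e1 * g (swap (Sum.inr 0) (Sum.inr 1)) - e1)
  hth : K2 (Fin m) (e0 - th - g (swap (Sum.inr 0) (Sum.inr 1)) * th * g (swap (Sum.inr 0) (Sum.inr 1)))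
  hz1 : K2 (Fin m) (e1 * emb Function.Embedding.inl z - e1)
  hc1 : Commute (emb Function.Embedding.inl z) e1
  hct : Commute (emb Function.Embedding.inl z) th

attribute [instance] VD.fX VD.dX

/-- The data of the second layer (rank `N`; all congruences modulo `2`). -/
structure WD (N : ℕ) where
  Y : Type
  [fY : Fintype Y]
  [dY : DecidableEq Y]
  w : P Y
  rho : Fin N → P (Y ⊕ Fin (N + 1))
  hne : ¬ Kill (Fin N) w
  hww : ∃ c : ℤ, Kill (Fin N) (w * w - (2 * c + 1) • w)
  hsum : K2 (Fin N) (emb Function.Embedding.inl w - ∑ a, rho a)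
  hrs : ∀ a, K2 (Fin N) (rho a * g (swap (Sum.inr a.castSucc) (Sum.inr a.succ)) - rho a)
  hrw : ∀ a, K2 (Fin N) (rho a * emb Function.Embedding.inl w - rho a)

attribute [instance] WD.fY WD.dY

section omega

variable (m : ℕ) (V : VD (m + 1)) (Wd : WD ((m + 1) ^ (m + 1)))

/-- The number of the determinants is `J + 1`. -/
abbrev JJ : ℕ := (m + 1) ^ (m + 1)

/-- The places: `J + 1` determinant blocks, the blocks of the second layer, the first layer. -/
abbrev I0 : Type := ((Wd.Y ⊕ Fin (JJ m + 1)) × Fin (m + 1)) ⊕ V.X

variable {m V Wd}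

/-- The places of the determinant `a`. -/
def D (a : Fin (JJ m + 1)) : Fin (m + 1) ↪ I0 m V Wd :=
  ⟨fun i => Sum.inl (Sum.inr a, i), fun i j h => by
    have h1 := Sum.inl_injective h
    exact congrArg Prod.snd h1⟩

/-- The first place of the determinant `a`. -/
def p0 (a : Fin (JJ m + 1)) : I0 m V Wd := Sum.inl (Sum.inr a, 0)

/-- The colour of a place. -/
def col : I0 m V Wd → Option (Fin (JJ m + 1))
  | Sum.inl (Sum.inr a, _) => some a
  | _ => none

/-- The product of the signed sums of the blocks in a set. -/
noncomputable def AS (s : Finset (Fin (JJ m + 1))) : P (I0 m V Wd) := AK col (s.map Function.Embedding.some)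

/-- An element of the block layer. -/
noncomputable def bw (y : P (Wd.Y ⊕ Fin (JJ m + 1))) : P (I0 m V Wd) :=
  emb Function.Embedding.inl (bl (m + 1) y)

/-- The element `w`. -/
noncomputable def ww : P (I0 m V Wd) := bw (emb Function.Embedding.inl Wd.w)

/-- The element `z`. -/
noncomputable def zz : P (I0 m V Wd) := emb Function.Embedding.inr V.z

variable (m V Wd) in
/-- **The element `Ω`.** -/
noncomputable def Om0 : P (I0 m V Wd) := AS univ * ww * zz

/-- The places of the first layer and the first places of the determinants `a`, `a + 1`. -/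
def vE (a : Fin (JJ m)) : V.X ⊕ Fin 2 ↪ I0 m V Wd :=
  ⟨Sum.elim Sum.inr ![p0 a.castSucc, p0 a.succ], by
    intro x y h
    rcases x with x | x <;> rcases y with y | y
    · exact congrArg Sum.inl (Sum.inr_injective h)
    · fin_cases y <;> simp [p0] at h
    · fin_cases x <;> simp [p0] at h
    · have h0 : a.castSucc ≠ a.succ := Fin.castSucc_lt_succ.ne
      fin_cases x <;> fin_cases y
      · rfl
      · exfalso
        simp only [Sum.elim_inr, p0] at h
        have h1 := congrArg Prod.fst (Sum.inl_injective h)
        exact h0 (Sum.inr_injective h1)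
      · exfalso
        simp only [Sum.elim_inr, p0] at h
        have h1 := congrArg Prod.fst (Sum.inl_injective h)
        exact h0 (Sum.inr_injective h1).symm
      · rfl⟩

/-- `κ_a = e_1 (1 - s) e_1`. -/
noncomputable def kap (a : Fin (JJ m)) : P (I0 m V Wd) :=
  emb (vE a) V.e1 * (1 - g (swap (p0 a.castSucc) (p0 a.succ))) * emb (vE a) V.e1

/-- `t_a = ρ_a κ_a`. -/
noncomputable def ta (a : Fin (JJ m)) : P (I0 m V Wd) := bw (Wd.rho a) * kap a

/-- The first places of the determinants in a set. -/
def P0 (s : Finset (Fin (JJ m + 1))) : Finset (I0 m V Wd) :=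
  s.map ⟨p0, fun a b h => by
    have h1 := congrArg Prod.fst (Sum.inl_injective h)
    exact Sum.inr_injective h1⟩

variable (O : Type) [CommRing O] (k l : ℕ) {ι : Type} [Fintype ι] [LinearOrder ι]

/-- **The operator `Ω`.** -/
noncomputable def Om (e : I0 m V Wd ↪ ι) : EW O k l ι := pf O k l ι (emb e (Om0 m V Wd))

end omega

end Pool.PI34.EX
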