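import Pool.Agent.LibPI34.SG_Out
import Pool.Agent.LibPI34.EX_Def2

/-!
PI34, block SG, file 11: the data of the two layers of block EX.
-/

set_option autoImplicit false
set_option linter.unusedSectionVars false
set_option linter.unusedDecidableInType false
set_option linter.unusedFintypeInType false

namespace Pool.PI34.SG

open Equiv Finset Polynomial
open Pool.PI34.H4

section kill

variable {N : ℕ} {α : Type} [Fintype α] [DecidableEq α]

theorem pa_zsmul (m : ℤ) (x : P α) (f : (α → Fin N) → ℤ) :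
    EX.pa ℤ (Fin N) α (m • x) f = m • EX.pa ℤ (Fin N) α x f := by
  rw [map_zsmul]
  rfl

theorem pa_add (x y : P α) (f : (α → Fin N) → ℤ) :
    EX.pa ℤ (Fin N) α (x + y) f = EX.pa ℤ (Fin N) α x f + EX.pa ℤ (Fin N) α y f := by
  rw [map_add]
  rfl

theorem pa_cast (y : P α) (f : (α → Fin N) → ℤ) (w : α → Fin N) :
    ((EX.pa ℤ (Fin N) α y f w : ℤ) : ℚ) = act N α y (fun w => (f w : ℚ)) w := by
  refine P_induction (p := fun y => ((EX.pa ℤ (Fin N) α y f w : ℤ) : ℚ) =
    act N α y (fun w => (f w : ℚ)) w) y ?_ ?_ ?_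
  · intro σ
    rw [EX.pa_g, act_g]
  · intro a b ha hb
    rw [pa_add, act_add, Pi.add_apply, Pi.add_apply, Int.cast_add, ha, hb]
  · intro m a ha
    rw [pa_zsmul, act_zsmul, Pi.smul_apply, Pi.smul_apply, smul_eq_mul, Int.cast_mul, ha,
      zsmul_eq_mul]

theorem Kill_iff (y : P α) : EX.Kill (Fin N) y ↔ act N α y = 0 := by
  constructor
  · intro h
    refine LinearMap.ext fun f => ?_
    have h1 : ∀ w', act N α y (Pi.single w' 1) = 0 := by
      intro w'
      funext w
      have h2 := pa_cast y (Pi.single w' 1 : (α → Fin N) → ℤ) w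
      have h3 : (fun w => (((Pi.single w' 1 : (α → Fin N) → ℤ) w : ℤ) : ℚ)) = Pi.single w' 1 := by
        funext w
        rw [Pi.single_apply, Pi.single_apply]
        split_ifs <;> simp
      rw [h3] at h2
      rw [← h2]
      unfold EX.Kill at h
      rw [h]
      simp
    have h4 : f = ∑ w, f w • (Pi.single w 1 : W N α) := by
      funext w'
      rw [Finset.sum_apply]
      simp [Pi.single_apply]
    rw [h4, map_sum, LinearMap.zero_apply]
    exact Finset.sum_eq_zero fun w _ => by rw [map_smul, h1, smul_zero]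
  · intro h
    unfold EX.Kill
    refine LinearMap.ext fun f => ?_
    funext w
    have h2 := pa_cast y f w
    rw [h] at h2
    have h3 : ((EX.pa ℤ (Fin N) α y f w : ℤ) : ℚ) = 0 := h2
    exact_mod_cast h3

theorem K2_iff {y : P α} : y ∈ K2 N α ↔ EX.K2 (Fin N) y := by
  rw [mem_K2]
  unfold EX.K2
  constructor
  · rintro ⟨y', h⟩
    exact ⟨y', by rw [Kill_iff, map_sub, h, sub_self]⟩
  · rintro ⟨y', h⟩
    rw [Kill_iff, map_sub, sub_eq_zero] at h
    exact ⟨y', h⟩

end kill

theorem exact_form {n : ℕ} {z : P (Fin n)} {h : ℤ} (ho : Odd h) (hz : z * z = h • z) :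
    ∃ c : ℤ, z * z = (2 * c + 1) • z := by
  obtain ⟨c, rfl⟩ := ho
  exact ⟨c, hz⟩

theorem kill_form {L : Type} {n : ℕ} {z : P (Fin n)} {h : ℤ} (ho : Odd h) (hz : z * z = h • z) :
    ∃ c : ℤ, EX.Kill L (z * z - (2 * c + 1) • z) := by
  obtain ⟨c, hc⟩ := exact_form ho hz
  refine ⟨c, ?_⟩
  rw [hc, sub_self]
  exact map_zero _

theorem exists_VD (m : ℕ) : Nonempty (EX.VD m) := by
  obtain ⟨n, Z, -, hne, -, -⟩ := exists_Cat m
  obtain ⟨E1, E0, T, hc, h1, h2, h3, h4⟩ := Z.ga'
  have hzz : emb Function.Embedding.inl Z.z * emb Function.Embedding.inl Z.z =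
      Z.h • (emb (Function.Embedding.inl : Fin n ↪ Fin n ⊕ Fin 2) Z.z) := Z.zz_emb _
  refine ⟨{
    X := Fin n
    z := Z.z
    e1 := E1 * emb Function.Embedding.inl Z.z
    e0 := E0 * emb Function.Embedding.inl Z.z
    th := T * emb Function.Embedding.inl Z.z
    hne := fun h => hne ((Kill_iff _).1 h)
    hzz := kill_form Z.odd Z.zz
    hsum := K2_iff.1 h1
    hfe := K2_iff.1 h2
    hef := K2_iff.1 h3
    hth := K2_iff.1 h4
    hz1 := K2_iff.1 ?_
    hc1 := (hc _).1.mul_right (Commute.refl _)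
    hct := (hc _).2.2.mul_right (Commute.refl _) }⟩
  rw [mul_assoc, hzz, mul_smul_comm, ← q2_eq, q2_smul_odd Z.odd]

theorem exists_WD (N : ℕ) : Nonempty (EX.WD N) := by
  obtain ⟨n, Z, -, hne, -, -⟩ := exists_Cat N
  obtain ⟨ρ, h1, h2⟩ := Z.be_right
  refine ⟨{
    Y := Fin n
    w := Z.z
    rho := ρ
    hne := fun h => hne ((Kill_iff _).1 h)
    hww := kill_form Z.odd Z.zz
    hsum := K2_iff.1 h1
    hrs := fun a => K2_iff.1 (h2 a).1
    hrw := fun a => K2_iff.1 (h2 a).2.2 }⟩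

end Pool.PI34.SG
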