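import Pool.Agent.LibPI34.EX_Fin
import Pool.Agent.LibPI34.SG_EX

/-!
PI34, block EX (p = 2): the theorem `EXT k l` for all `k`, `l`.
-/

set_option autoImplicit false

namespace Pool.PI34.EX

/-- **(EX)** for all ranks. -/
theorem EXT_all (k l : ℕ) (h : 0 < k + l) : XX.EXT k l := by
  obtain ⟨m, hm⟩ : ∃ m, k + l = m + 1 := ⟨k + l - 1, by omega⟩
  obtain ⟨V⟩ := SG.exists_VD (m + 1)
  obtain ⟨Wd⟩ := SG.exists_WD ((m + 1) ^ (m + 1))
  exact ext_of hm V Wd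

end Pool.PI34.EX
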