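import Pool.Agent.LibPI34.EX_All

/-!
PI34, block EX (p = 2), row NE: the element `Ω` does not act by zero.
-/

set_option autoImplicit false
set_option linter.unusedSectionVars false
set_option linter.unusedDecidableInType false
set_option linter.unusedFintypeInType false

namespace Pool.PI34.EX

open Equiv Finset
open Pool.PI34.Super (Lt odd pv prs)
open Pool.PI34.H4 (P g emb As AK Ac)

theorem g_coeff {α : Type} [DecidableEq α] (σ τ : Perm α) [Fintype α] :
    (g σ).coeff τ = if τ = σ then 1 else 0 := by
  change (MonoidAlgebra.single σ (1 : ℤ)).coeff τ = _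
  rw [MonoidAlgebra.coeff_single, Finsupp.single_apply]
  by_cases h : τ = σ
  · rw [if_pos h, if_pos h.symm]
  · rw [if_neg h, if_neg (fun e => h e.symm)]

theorem kill_zero_of_inj {L : Type} [Fintype L] [DecidableEq L] {α : Type} [Fintype α]
    [DecidableEq α] {R : Type} [CommRing R] [CharZero R] {y : P α} (h : pa R L α y = 0) :
    Kill L y := by
  rw [kill_iff]
  intro w w'
  have h1 : ∀ y : P α, pa R L α y (Pi.single w 1) w' =
      ((∑ σ : Perm α, (if w' ∘ σ = w then y.coeff σ else 0) : ℤ) : R) := by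
    intro y
    refine H4.P_induction (p := fun y => pa R L α y (Pi.single w 1) w' =
      ((∑ σ : Perm α, (if w' ∘ σ = w then y.coeff σ else 0) : ℤ) : R)) y ?_ ?_ ?_
    · intro σ
      rw [pa_g, Pi.single_apply]
      rw [Finset.sum_eq_single σ]
      · rw [g_coeff, if_pos rfl]
        split_ifs <;> simp
      · intro τ _ hne
        rw [g_coeff, if_neg hne, ite_self]
      · intro h; exact absurd (Finset.mem_univ _) h
    · intro x y hx hy
      rw [map_add, LinearMap.add_apply, Pi.add_apply, hx, hy, ← Int.cast_add,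
        ← Finset.sum_add_distrib]
      congr 1
      refine Finset.sum_congr rfl fun σ _ => ?_
      rw [MonoidAlgebra.coeff_add, Finsupp.add_apply]
      split_ifs <;> simp
    · intro n x hx
      rw [map_zsmul, LinearMap.smul_apply, Pi.smul_apply, hx, zsmul_eq_mul, ← Int.cast_mul,
        Finset.mul_sum]
      congr 1
      refine Finset.sum_congr rfl fun σ _ => ?_
      split_ifs
      · rfl
      · rw [mul_zero]
  have h2 := h1 y
  rw [h] at h2
  have h3 : (0 : R) = ((∑ σ : Perm α, (if w' ∘ σ = w then y.coeff σ else 0) : ℤ) : R) := h2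
  exact_mod_cast h3.symm

theorem not_kill_one {L : Type} [Fintype L] [DecidableEq L] : ¬ Kill L (1 : P Empty) := by
  intro h
  unfold Kill at h
  rw [map_one] at h
  have h1 := congrFun (LinearMap.congr_fun h (fun _ => (1 : ℤ))) (fun x => x.elim)
  simp at h1

theorem not_kill_emb {L : Type} [Fintype L] [DecidableEq L] [Nonempty L] {α β : Type} [Fintype α]
    [DecidableEq α] [Fintype β] [DecidableEq β] (e : α ↪ β) {y : P α} (h : ¬ Kill L y) :
    ¬ Kill L (emb e y) := by
  have h1 := kill_mul (L := L) e (⟨fun x : Empty => x.elim, fun x => x.elim⟩ : Empty ↪ β)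
    (fun _ y => y.elim) h not_kill_one
  rwa [map_one, mul_one] at h1

theorem not_kill_Ac {L : Type} [Fintype L] [DecidableEq L] {m q : ℕ}
    (hL : Fintype.card L = m + 1) :
    ¬ Kill L (Ac (Prod.fst : Fin q × Fin (m + 1) → Fin q)) := by
  intro h
  let u : Fin (m + 1) ≃ L := (Fintype.equivFinOfCardEq hL).symm
  rw [kill_iff] at h
  have h1 := h (fun x => u x.2) (fun x => u x.2)
  have hc : ∀ σ : Perm (Fin q × Fin (m + 1)),
      (Ac (Prod.fst : Fin q × Fin (m + 1) → Fin q)).coeff σ =
        if Prod.fst ∘ σ = (Prod.fst : Fin q × Fin (m + 1) → Fin q) then (Perm.sign σ : ℤ)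
          else 0 := by
    intro σ
    unfold H4.Ac
    rw [MonoidAlgebra.coeff_sum, Finset.sum_apply']
    have h2 : ∀ s : Perm (Fin q × Fin (m + 1)), ((Perm.sign s : ℤ) • g s).coeff σ =
        if s = σ then (Perm.sign σ : ℤ) else 0 := by
      intro s
      rw [MonoidAlgebra.coeff_smul_apply, g_coeff]
      by_cases h3 : s = σ
      · rw [if_pos h3, if_pos h3.symm, h3, smul_eq_mul, mul_one]
      · rw [if_neg h3, if_neg (fun e => h3 e.symm), smul_zero]
    rw [Finset.sum_congr rfl fun s _ => h2 s, Finset.sum_ite_eq']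
    simp only [Finset.mem_filter, Finset.mem_univ, true_and]
  rw [Finset.sum_eq_single (1 : Perm (Fin q × Fin (m + 1)))] at h1
  · have h2 : ((fun x : Fin q × Fin (m + 1) => u x.2) ∘ ⇑(1 : Perm (Fin q × Fin (m + 1)))) =
        fun x => u x.2 := rfl
    have h3 : (Prod.fst ∘ ⇑(1 : Perm (Fin q × Fin (m + 1)))) =
        (Prod.fst : Fin q × Fin (m + 1) → Fin q) := rfl
    rw [if_pos h2, hc, if_pos h3, Perm.sign_one] at h1
    exact one_ne_zero h1
  · intro σ _ hne
    rw [hc]
    split_ifs with h2 h3
    · exfalso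
      apply hne
      ext x
      · rw [show ((σ x).1) = x.1 from congrFun h3 x]; rfl
      · have h4 : u (σ x).2 = u x.2 := congrFun h2 x
        rw [show ((σ x).2) = x.2 from u.injective h4]; rfl
    · rfl
    · rfl
  · intro h; exact absurd (Finset.mem_univ _) h

section

variable {m : ℕ} {V : VD (m + 1)} {Wd : WD ((m + 1) ^ (m + 1))}

/-- The determinant places. -/
def iD : Fin (JJ m + 1) × Fin (m + 1) ↪ I0 m V Wd :=
  ⟨fun x => Sum.inl (Sum.inr x.1, x.2), fun x y h => by
    have h1 := Sum.inl_injective h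
    have h2 := congrArg Prod.fst h1
    have h3 := congrArg Prod.snd h1
    exact Prod.ext (Sum.inr_injective h2) h3⟩

/-- The places of the second layer. -/
def iW : Wd.Y × Fin (m + 1) ↪ I0 m V Wd :=
  ⟨fun x => Sum.inl (Sum.inl x.1, x.2), fun x y h => by
    have h1 := Sum.inl_injective h
    have h2 := congrArg Prod.fst h1
    have h3 := congrArg Prod.snd h1
    exact Prod.ext (Sum.inl_injective h2) h3⟩

/-- A colouring in which the other places have their own colours. -/
def col' : I0 m V Wd → I0 m V Wd ⊕ Fin (JJ m + 1)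
  | Sum.inl (Sum.inr a, _) => Sum.inr a
  | x => Sum.inl x

theorem AS_univ : (AS univ : P (I0 m V Wd)) = emb iD (Ac Prod.fst) := by
  have h1 : (AS univ : P (I0 m V Wd)) = Ac col' := by
    unfold AS H4.AK H4.Ac
    congr 1
    ext s
    simp only [Finset.mem_filter, Finset.mem_univ, true_and]
    constructor
    · rintro ⟨h1, h2⟩
      funext x
      have h3 := congrFun h1 x
      simp only [Function.comp_apply] at h3 ⊢
      rcases x with ⟨y | a, i⟩ | x
      · rw [h2 (Sum.inl (Sum.inl y, i)) (by simp [col])]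
      · rcases h4 : s (Sum.inl (Sum.inr a, i)) with ⟨y' | a', i'⟩ | x'
        · rw [h4] at h3
          simp [col] at h3
        · rw [h4] at h3
          simp only [col, Option.some.injEq] at h3
          rw [h3]
          rfl
        · rw [h4] at h3
          simp [col] at h3
      · rw [h2 (Sum.inr x) (by simp [col])]
    · intro h1
      have h2 : ∀ x, (∀ a, col' x ≠ Sum.inr a) → s x = x := by
        intro x hx
        have h3 := congrFun h1 x
        simp only [Function.comp_apply] at h3
        rcases x with ⟨y | a, i⟩ | x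
        · rcases h4 : s (Sum.inl (Sum.inl y, i)) with ⟨y' | a', i'⟩ | x' <;> rw [h4] at h3 <;>
            simp only [col', Sum.inl.injEq, reduceCtorEq] at h3
          · rw [h3]
        · exact absurd rfl (hx a)
        · rcases h4 : s (Sum.inr x) with ⟨y' | a', i'⟩ | x' <;> rw [h4] at h3 <;>
            simp only [col', Sum.inl.injEq, reduceCtorEq] at h3
          · rw [h3]
      refine ⟨?_, fun x hx => h2 x (fun a ha => hx ?_)⟩
      · funext x
        have h3 := congrFun h1 x
        simp only [Function.comp_apply] at h3 ⊢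
        rcases x with ⟨y | a, i⟩ | x
        · rw [h2 _ (by simp [col'])]
        · rcases h4 : s (Sum.inl (Sum.inr a, i)) with ⟨y' | a', i'⟩ | x'
          · rw [h4] at h3
            simp [col'] at h3
          · rw [h4] at h3
            simp only [col', Sum.inr.injEq] at h3
            rw [h3]
            rfl
          · rw [h4] at h3
            simp [col'] at h3
        · rw [h2 _ (by simp [col'])]
      · rcases x with ⟨y | a', i⟩ | x
        · simp [col'] at ha
        · simp [col]
        · simp [col'] at ha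
  rw [h1]
  refine H4.Ac_emb iD Prod.fst col' ?_ ?_
  · rintro ⟨a, i⟩ ⟨b, j⟩
    constructor
    · intro h
      change (Sum.inr a : I0 m V Wd ⊕ Fin (JJ m + 1)) = Sum.inr b
      rw [show a = b from h]
    · intro h
      exact Sum.inr_injective (show (Sum.inr a : I0 m V Wd ⊕ Fin (JJ m + 1)) = Sum.inr b from h)
  · intro z hz y hy
    rcases z with ⟨z | a, i⟩ | z
    · rcases y with ⟨y | b, j⟩ | y
      · exact Sum.inl_injective hy
      · simp [col'] at hy
      · exact Sum.inl_injective hy
    · exact absurd ⟨(a, i), rfl⟩ hz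
    · rcases y with ⟨y | b, j⟩ | y
      · exact Sum.inl_injective hy
      · simp [col'] at hy
      · exact Sum.inl_injective hy

theorem ww_eq : (ww : P (I0 m V Wd)) = emb iW (bl (m + 1) Wd.w) := by
  unfold ww bw
  refine H4.P_induction (p := fun y => emb Function.Embedding.inl
    (bl (m + 1) (emb Function.Embedding.inl y)) = (emb iW (bl (m + 1) y) : P (I0 m V Wd)))
    Wd.w ?_ ?_ ?_
  · intro σ
    rw [H4.emb_g, bl_g, H4.emb_g, bl_g, H4.emb_g]
    congr 1
    ext x
    rcases x with ⟨y | a, i⟩ | x
    · have h1 := Perm.viaEmbedding_apply (blHom (m + 1) (Wd.Y ⊕ Fin (JJ m + 1))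
        (σ.viaEmbedding Function.Embedding.inl))
        (Function.Embedding.inl : _ ↪ I0 m V Wd) (Sum.inl y, i)
      have h2 := Perm.viaEmbedding_apply (blHom (m + 1) Wd.Y σ) (iW : _ ↪ I0 m V Wd) (y, i)
      have h3 := Perm.viaEmbedding_apply σ
        (Function.Embedding.inl : Wd.Y ↪ Wd.Y ⊕ Fin (JJ m + 1)) y
      change _ = Sum.inl (Sum.inl (σ y), i) at h2
      change _ = (Sum.inl (σ.viaEmbedding Function.Embedding.inl (Sum.inl y), i) :
        I0 m V Wd) at h1
      change σ.viaEmbedding Function.Embedding.inl (Sum.inl y) = Sum.inl (σ y) at h3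
      rw [h3] at h1
      exact h1.trans h2.symm
    · have h1 := Perm.viaEmbedding_apply (blHom (m + 1) (Wd.Y ⊕ Fin (JJ m + 1))
        (σ.viaEmbedding Function.Embedding.inl))
        (Function.Embedding.inl : _ ↪ I0 m V Wd) (Sum.inr a, i)
      have h2 := Perm.viaEmbedding_apply_of_notMem (blHom (m + 1) Wd.Y σ)
        (iW : _ ↪ I0 m V Wd) (Sum.inl (Sum.inr a, i)) (by
          rintro ⟨z, hz⟩
          have h4 := congrArg Prod.fst (Sum.inl_injective hz)
          exact Sum.inl_ne_inr h4)
      have h3 := Perm.viaEmbedding_apply_of_notMem σ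
        (Function.Embedding.inl : Wd.Y ↪ Wd.Y ⊕ Fin (JJ m + 1)) (Sum.inr a) (by
          rintro ⟨z, hz⟩
          exact Sum.inl_ne_inr hz)
      change _ = (Sum.inl (σ.viaEmbedding Function.Embedding.inl (Sum.inr a), i) :
        I0 m V Wd) at h1
      rw [h3] at h1
      exact h1.trans h2.symm
    · have h1 := Perm.viaEmbedding_apply_of_notMem (blHom (m + 1) (Wd.Y ⊕ Fin (JJ m + 1))
        (σ.viaEmbedding Function.Embedding.inl))
        (Function.Embedding.inl : _ ↪ I0 m V Wd) (Sum.inr x) (by
          rintro ⟨z, hz⟩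
          exact Sum.inl_ne_inr hz)
      have h2 := Perm.viaEmbedding_apply_of_notMem (blHom (m + 1) Wd.Y σ)
        (iW : _ ↪ I0 m V Wd) (Sum.inr x) (by
          rintro ⟨z, hz⟩
          exact Sum.inl_ne_inr hz)
      exact h1.trans h2.symm
  · intro x y hx hy
    simp only [map_add, hx, hy]
  · intro n x hx
    simp only [map_zsmul, hx]

/-- The first two groups of places. -/
def iDW : (Fin (JJ m + 1) × Fin (m + 1)) ⊕ (Wd.Y × Fin (m + 1)) ↪ I0 m V Wd :=
  ⟨Sum.elim iD iW, by
    intro x y h
    rcases x with x | x <;> rcases y with y | y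
    · exact congrArg Sum.inl (iD.injective h)
    · have h4 := congrArg Prod.fst (Sum.inl_injective h)
      exact absurd h4.symm Sum.inl_ne_inr
    · have h4 := congrArg Prod.fst (Sum.inl_injective h)
      exact absurd h4 Sum.inl_ne_inr
    · exact congrArg Sum.inr (iW.injective h)⟩

end

/-- ROW NE: the element `Ω` does not act by zero. -/
theorem Om0_ne {L : Type} [Fintype L] [DecidableEq L] {m : ℕ} (hL : Fintype.card L = m + 1)
    (V : VD (m + 1)) (Wd : WD ((m + 1) ^ (m + 1))) : ¬ Kill L (Om0 m V Wd) := by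
  have hne : Nonempty L := Fintype.card_pos_iff.1 (by omega)
  have hz : ¬ Kill L V.z := by
    intro h
    exact V.hne (kill_card (by rw [hL, Fintype.card_fin]) h)
  have hw : ¬ Kill L (bl (m + 1) Wd.w) := by
    rw [kill_bl]
    intro h
    refine Wd.hne (kill_card ?_ h)
    rw [Fintype.card_fin, Fintype.card_fun, hL, Fintype.card_fin]
  have h1 := kill_mul (L := L)
    (Function.Embedding.inl : _ ↪ (Fin (JJ m + 1) × Fin (m + 1)) ⊕ (Wd.Y × Fin (m + 1)))
    (Function.Embedding.inr : _ ↪ (Fin (JJ m + 1) × Fin (m + 1)) ⊕ (Wd.Y × Fin (m + 1)))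
    (fun _ _ => Sum.inl_ne_inr) (not_kill_Ac hL) hw
  have h2 := kill_mul (L := L) (iDW : _ ↪ I0 m V Wd) (Function.Embedding.inr : V.X ↪ I0 m V Wd)
    (fun x y => by
      rcases x with x | x
      · exact Sum.inl_ne_inr
      · exact Sum.inl_ne_inr) h1 hz
  unfold Om0 zz
  rw [AS_univ, ww_eq]
  rw [map_mul, H4.emb_trans, H4.emb_trans] at h2
  exact h2

end Pool.PI34.EX
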