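import Pool.Agent.LibPI34.T3_Eng

/-!
PI34, the prime `p = 2`: definitions of the three blocks.

* `EXT k l`: output of the block (EX) (exact delta);
* `ExStr`: exotic string systems; `HExD K D`, `HEx K`: output of the block (S_ex);
* `EXT k l → HEx (k + l) → T2.Engine (T2.cop 2) k l` is the ring side.
-/

set_option autoImplicit false
set_option linter.unusedSectionVars false

namespace Pool.PI34.XX

open Equiv Finset
open Pool.PI34.Super (Lt odd pv Ap plL act bc)
open Pool.PI34.SS (FA)
open Pool.PI34.BA (anti permsOn Frame Anti)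
open Pool.PI34.T1 (PureI MPI)

/-! ### the coefficients -/

/-- the coefficient ring `ℤ_(2)[√2]` -/
abbrev O2 : Type := QuadraticAlgebra (Ap 2) 2 0

/-- the square root of two -/
noncomputable def r2 : O2 := ⟨0, 1⟩

theorem r2_sq : r2 * r2 = 2 := by
  ext
  · rw [QuadraticAlgebra.re_ofNat]
    simp [r2]
  · rw [QuadraticAlgebra.im_ofNat]
    simp [r2]

/-! ### operators on words -/

section words

variable (K : Type) [CommRing K] (k l : ℕ) (ι : Type*) [Fintype ι] [LinearOrder ι]

/-- the plain action of the permutations on the functions on words -/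
def pH : Perm ι →* Module.End K (SK.W K k l ι) where
  toFun σ :=
    { toFun := fun g w => g (w ∘ σ)
      map_add' := fun _ _ => rfl
      map_smul' := fun _ _ => rfl }
  map_one' := rfl
  map_mul' _ _ := rfl

/-- the plain action of the group algebra -/
noncomputable def plain (A : Type) [CommRing A] [Algebra A K] :
    MonoidAlgebra A (Perm ι) →ₐ[A] Module.End K (SK.W K k l ι) :=
  MonoidAlgebra.lift A _ _ (pH K k l ι)

variable {ι}

/-- the operator `∏_{i ∈ T} δ_i`, where `δ_i` is `r` on the words whose letter `i` is odd, and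
zero on the other words -/
def dT (r : K) (T : Finset ι) : Module.End K (SK.W K k l ι) where
  toFun g w := (∏ i ∈ T, if odd (w i) then r else 0) * g w
  map_add' g h := by funext w; simp [mul_add]
  map_smul' c g := by funext w; simp; ring

end words

/-- placement on the strands `1, …, n` (the strand `0` is free) -/
noncomputable def sh (A : Type) [CommRing A] (n : ℕ) :
    MonoidAlgebra A (Perm (Fin n)) →+* MonoidAlgebra A (Perm (Fin (n + 1))) :=
  plL A (Fin.succOrderEmb n)

/-- (EX): the output of the block (A).  `1 ⊗ δ^T Ω` is `dT (T.map succ) * plain (sh Ω)`. -/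
def EXT (k l : ℕ) : Prop :=
  ∃ (N : ℕ) (Ω : MonoidAlgebra (Ap 2) (Perm (Fin N)))
    (lam : Finset (Fin N) → Finset (Fin N) → MonoidAlgebra O2 (Perm (Fin (N + 1)))),
    plain O2 k l (Fin N) (Ap 2) Ω ≠ 0 ∧
    ∀ T : Finset (Fin N),
      dT O2 k l r2 {0} * (dT O2 k l r2 (T.map (Fin.succEmb N)) *
          plain O2 k l (Fin (N + 1)) (Ap 2) (sh _ N Ω))
        = ∑ T' : Finset (Fin N), SK.act O2 O2 k l (Fin (N + 1)) (lam T T') *
            (dT O2 k l r2 (T'.map (Fin.succEmb N)) *
              plain O2 k l (Fin (N + 1)) (Ap 2) (sh _ N Ω))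

/-! ### exotic string systems -/

/-- exotic string systems: `f` are the plain flips, `ρ i a` the letter `a` on the strand `i`
(conjugate by plain flips of the letter on the first strand), `q = √2`, `δ ^ 2 = q δ`,
`d a = δ a + a δ - q δ a δ`; the letters commute up to `d ⊗ d`. -/
structure ExStr (ι Φ U : Type) [Fintype ι] [DecidableEq ι] [Ring Φ] [Ring U] where
  q : Φ
  q_comm : ∀ a, q * a = a * q
  q_sq : q * q = 2
  δ : Φ
  δ_sq : δ * δ = q * δ
  f : Perm ι →* U
  ρ : ι → Φ →+* U
  ρ_q : ∀ i j, ρ i q = ρ j q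
  ρ_qc : ∀ i x, ρ i q * x = x * ρ i q
  f_ρ : ∀ σ i a, f σ * ρ i a = ρ (σ i) a * f σ
  comm : ∀ i j, i ≠ j → ∀ a b, ρ i a * ρ j b = ρ j b * ρ i a +
    ρ i (δ * a + a * δ - q * (δ * a * δ)) * ρ j (δ * b + b * δ - q * (δ * b * δ))

/-- the derivation of an exotic string system -/
def ExStr.d {ι Φ U : Type} [Fintype ι] [DecidableEq ι] [Ring Φ] [Ring U] (S : ExStr ι Φ U)
    (a : Φ) : Φ := S.δ * a + a * S.δ - S.q * (S.δ * a * S.δ)

/-- (S_ex), the special form: the analog of `Super.HProp` for the exotic string systems -/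
def HExD (K D : ℕ) : Prop :=
  ∀ (n : ℕ) (Φ U : Type) [Ring Φ] [Ring U] (S : ExStr (Fin (n + 1)) Φ U),
    Anti S.f K → ∀ e e' : Fin K ↪ Fin (n + 1), Frame e e' 0 → T2.Inv (T2.cop 2) U →
    ∀ (X : Type) (g : FA X), g ∈ SS.QQ K X → ∀ a : X → Φ,
      D • (S.ρ 0 (FA.lift a g) * (anti S.f (univ.map e) * anti S.f (univ.map e'))) = 0

/-- the value of an element of the group algebra of the strands `1, …, n` -/
noncomputable def fval {n : ℕ} {U : Type} [Ring U] (f : Perm (Fin (n + 1)) →* U)
    (Y : MonoidAlgebra ℤ (Perm (Fin n))) : U :=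
  ∑ σ : Perm (Fin n), Y.coeff σ • f (Super.ext (Fin.succOrderEmb n) σ)

/-- (S_ex), the general form: a pure PI ideal `I` and an element `Y` which acts by nonzero on
the words of rank `K` (all the letters of `Lt K 0` are even), such that `g(a) Y = 0` in all the
exotic string systems of rank `K` -/
def HEx (K : ℕ) : Prop :=
  ∃ (I : (X : Type) → Ideal (FreeAlgebra ℤ X)) (n : ℕ) (Y : MonoidAlgebra ℤ (Perm (Fin n))),
    (∀ X, (I X).IsTwoSided ∧ PureI (I X) ∧ MPI (I X)) ∧ act K 0 _ (bc Y) ≠ 0 ∧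
    ∀ (Φ U : Type) [Ring Φ] [Ring U] (S : ExStr (Fin (n + 1)) Φ U),
      Anti S.f K → T2.Inv (T2.cop 2) U →
      ∀ (X : Type) (π : FreeAlgebra ℤ X →+* Φ) (g : FreeAlgebra ℤ X), g ∈ I X →
        S.ρ 0 (π g) * fval S.f Y = 0

/-- the ring side -/
def RingSide : Prop := ∀ k l : ℕ, 0 < k + l → EXT k l → HEx (k + l) → T2.Engine (T2.cop 2) k l

end Pool.PI34.XX
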