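import Pool.Agent.LibPI34.EX_Main
import Pool.Agent.LibPI34.EX_NE
import Pool.Agent.LibPI34.X_Defs

/-!
PI34, block EX (p = 2): the theorem `EXT k l`.
-/

set_option autoImplicit false
set_option linter.unusedSectionVars false
set_option linter.unusedDecidableInType false
set_option linter.unusedFintypeInType false

namespace Pool.PI34.EX

open Equiv Finset
open Pool.PI34.Super (Lt odd pv prs Ap)
open Pool.PI34.SK (W comp ins)
open Pool.PI34.H4 (P g emb As AK)

/-- The square root of two is in the radical. -/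
theorem r2_jac : XX.r2 ∈ Ideal.jacobson (⊥ : Ideal XX.O2) := by
  rw [Ideal.mem_jacobson_bot]
  intro y
  rw [QuadraticAlgebra.isUnit_iff_norm_isUnit]
  have hp : SK.PInt 2 (Ap 2) := inferInstance
  refine hp.unit _ ?_
  have h1 : (XX.r2 * y + 1).norm =
      1 + algebraMap ℤ (Ap 2) 2 * (2 * y.im + 2 * y.im ^ 2 - y.re ^ 2) := by
    have h2 : (1 : XX.O2).re = 1 := rfl
    have h3 : (1 : XX.O2).im = 0 := rfl
    rw [QuadraticAlgebra.norm_def]
    simp only [QuadraticAlgebra.re_add, QuadraticAlgebra.im_add, QuadraticAlgebra.re_mul,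
      QuadraticAlgebra.im_mul, XX.r2, h2, h3, map_ofNat]
    ring
  rw [h1]
  have h2 : Super.rA 2 (1 + algebraMap ℤ (Ap 2) 2 * (2 * y.im + 2 * y.im ^ 2 - y.re ^ 2)) = 1 := by
    rw [map_add, map_one, map_mul, Super.rA_int]
    have h3 : (((2 : ℤ)) : ZMod 2) = 0 := by decide
    rw [h3, zero_mul, add_zero]
  intro h3
  have h4 : Super.rA 2 (1 + algebraMap ℤ (Ap 2) 2 * (2 * y.im + 2 * y.im ^ 2 - y.re ^ 2)) = 0 := h3
  rw [h2] at h4
  exact one_ne_zero h4

instance : CharZero (Ap 2) := by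
  refine ⟨fun a b h => ?_⟩
  have h1 := congrArg (Super.jA 2) h
  rw [map_natCast, map_natCast] at h1
  exact_mod_cast h1

instance : CharZero XX.O2 := by
  refine ⟨fun a b h => ?_⟩
  have h1 := congrArg QuadraticAlgebra.re h
  rw [QuadraticAlgebra.re_natCast, QuadraticAlgebra.re_natCast] at h1
  exact_mod_cast h1

/-- The integral group algebra inside the group algebra over `Ap 2`. -/
noncomputable def toAp {α : Type} : P α →+* MonoidAlgebra (Ap 2) (Perm α) :=
  MonoidAlgebra.mapRingHom (Perm α) (algebraMap ℤ (Ap 2))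

theorem toAp_g {α : Type} (σ : Perm α) : toAp (g σ) = MonoidAlgebra.of (Ap 2) _ σ := by
  change MonoidAlgebra.mapRingHom (Perm α) (algebraMap ℤ (Ap 2)) (MonoidAlgebra.single σ 1) =
    MonoidAlgebra.single σ 1
  rw [MonoidAlgebra.mapRingHom_single, map_one]

theorem plain_toAp {k l n : ℕ} (y : P (Fin n)) :
    XX.plain XX.O2 k l (Fin n) (Ap 2) (toAp y) = pf XX.O2 k l (Fin n) y := by
  refine H4.P_induction (p := fun y => XX.plain XX.O2 k l (Fin n) (Ap 2) (toAp y) =
    pf XX.O2 k l (Fin n) y) y ?_ ?_ ?_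
  · intro σ
    rw [toAp_g]
    apply LinearMap.ext
    intro f
    funext w
    rw [pa_g]
    have h1 : XX.plain XX.O2 k l (Fin n) (Ap 2) (MonoidAlgebra.of (Ap 2) _ σ) =
        XX.pH XX.O2 k l (Fin n) σ := by
      unfold XX.plain
      simp
    rw [h1]
    rfl
  · intro x y hx hy
    rw [map_add, map_add, map_add, hx, hy]
  · intro n x hx
    rw [map_zsmul, map_zsmul, map_zsmul, hx]

theorem sh_toAp {n : ℕ} (y : P (Fin n)) :
    XX.sh (Ap 2) n (toAp y) = toAp (emb (Fin.succEmb n) y) := by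
  refine H4.P_induction (p := fun y => XX.sh (Ap 2) n (toAp y) = toAp (emb (Fin.succEmb n) y))
    y ?_ ?_ ?_
  · intro σ
    rw [toAp_g, H4.emb_g, toAp_g]
    unfold XX.sh
    rw [Super.plL_of]
    rfl
  · intro x y hx hy
    rw [map_add, map_add, map_add, map_add, hx, hy]
  · intro n x hx
    rw [map_zsmul, map_zsmul, map_zsmul, map_zsmul, hx]

theorem card_Lt (k l : ℕ) : Fintype.card (Lt k l) = k + l := by
  simp [Lt]

/-- **(EX)**, from the data of the two layers. -/
theorem ext_of {k l : ℕ} {m : ℕ} (hm : k + l = m + 1) (V : VD (m + 1))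
    (Wd : WD ((m + 1) ^ (m + 1))) : XX.EXT k l := by
  classical
  let e : I0 m V Wd ↪ Fin (Fintype.card (I0 m V Wd)) := (Fintype.equivFin _).toEmbedding
  have h1 := fun T => ext_form (O := XX.O2) (k := k) (l := l) XX.r2_sq r2_jac hm e T
  choose lam hlam using h1
  refine ⟨_, toAp (emb e (Om0 m V Wd)), lam, ?_, fun T => ?_⟩
  · rw [plain_toAp]
    intro h
    have hc : Fintype.card (Lt k l) = m + 1 := by rw [card_Lt, hm]
    have : Nonempty (Lt k l) := Fintype.card_pos_iff.1 (by omega)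
    exact not_kill_emb e (Om0_ne hc V Wd) (kill_zero_of_inj h)
  · have h2 := hlam T
    have h3 : pf XX.O2 k l _ (emb (en e 1) (Om0 m V Wd)) =
        XX.plain XX.O2 k l _ (Ap 2) (XX.sh (Ap 2) _ (toAp (emb e (Om0 m V Wd)))) := by
      rw [sh_toAp, plain_toAp, H4.emb_trans]
      rfl
    unfold Om at h2
    rw [h3] at h2
    exact h2

end Pool.PI34.EX
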