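import Pool.Agent.LibPI34.EX_Def2

/-!
PI34, block EX (p = 2), rows K1a, K1b, K1c, K2: the elements which kill the words, matrix entries.
-/

set_option autoImplicit false
set_option linter.unusedSectionVars false
set_option linter.unusedDecidableInType false
set_option linter.unusedFintypeInType false

namespace Pool.PI34.EX

open Equiv Finset
open Pool.PI34.Super (Lt odd pv prs)
open Pool.PI34.SK (W comp ins)
open Pool.PI34.H4 (P g emb As AK)

section K

variable {L L' : Type} [Fintype L] [DecidableEq L] [Fintype L'] [DecidableEq L']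
variable {α β : Type} [Fintype α] [DecidableEq α] [Fintype β] [DecidableEq β]

/-- The plain action in coordinates. -/
theorem pa_apply {R : Type} [CommRing R] (y : P α) (f : (α → L) → R) (w : α → L) :
    pa R L α y f w = ∑ σ : Perm α, (y.coeff σ : R) * f (w ∘ σ) := by
  induction y using MonoidAlgebra.induction_on with
  | of σ =>
    have h1 : pa R L α (MonoidAlgebra.of ℤ (Perm α) σ) f w = f (w ∘ σ) := pa_g R L σ f w
    rw [h1, Finset.sum_eq_single σ]
    · simp [MonoidAlgebra.of_apply]
    · intro τ _ hτ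
      simp [MonoidAlgebra.of_apply, Ne.symm hτ]
    · intro h
      exact absurd (Finset.mem_univ _) h
  | add x y hx hy =>
    rw [map_add, LinearMap.add_apply, Pi.add_apply, hx, hy, ← Finset.sum_add_distrib]
    refine Finset.sum_congr rfl fun σ _ => ?_
    rw [MonoidAlgebra.coeff_add, Finsupp.add_apply, Int.cast_add, add_mul]
  | smul r x hx =>
    rw [map_zsmul, LinearMap.smul_apply, Pi.smul_apply, hx, Finset.smul_sum]
    refine Finset.sum_congr rfl fun σ _ => ?_
    have h2 : (r • x).coeff σ = r * x.coeff σ := rfl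
    rw [h2, Int.cast_mul, zsmul_eq_mul, mul_assoc]

/-- The matrix entries of the plain action. -/
theorem pa_entries {R : Type} [CommRing R] (y : P α) (f : (α → L) → R) (w' : α → L) :
    pa R L α y f w' = ∑ w : α → L,
      ((∑ σ : Perm α, (if w' ∘ σ = w then y.coeff σ else 0) : ℤ) : R) * f w := by
  rw [pa_apply]
  have h1 : ∀ w : α → L, ((∑ σ : Perm α, (if w' ∘ σ = w then y.coeff σ else 0) : ℤ) : R) * f w =
      ∑ σ : Perm α, if w' ∘ σ = w then (y.coeff σ : R) * f w else 0 := by
    intro w
    rw [Int.cast_sum, Finset.sum_mul]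
    refine Finset.sum_congr rfl fun σ _ => ?_
    split_ifs
    · rfl
    · rw [Int.cast_zero, zero_mul]
  rw [Finset.sum_congr rfl fun w _ => h1 w, Finset.sum_comm]
  refine Finset.sum_congr rfl fun σ _ => ?_
  rw [Finset.sum_ite_eq, if_pos (Finset.mem_univ _)]

/-- One matrix entry. -/
theorem pa_single {R : Type} [CommRing R] (y : P α) (w w' : α → L) :
    pa R L α y (Pi.single w 1) w' =
      ((∑ σ : Perm α, (if w' ∘ σ = w then y.coeff σ else 0) : ℤ) : R) := by
  rw [pa_entries, Finset.sum_eq_single w]
  · rw [Pi.single_eq_same, mul_one]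
  · intro v _ hv
    rw [Pi.single_eq_of_ne hv, mul_zero]
  · intro h
    exact absurd (Finset.mem_univ _) h

/-- ROW K1a. -/
theorem kill_iff (y : P α) : Kill L y ↔ ∀ w w' : α → L,
    ∑ σ : Perm α, (if w' ∘ σ = w then y.coeff σ else 0) = 0 := by
  constructor
  · intro h w w'
    have h1 := pa_single (R := ℤ) y w w'
    rw [show pa ℤ L α y = 0 from h, LinearMap.zero_apply, Pi.zero_apply, Int.cast_id] at h1
    exact h1.symm
  · intro h
    refine LinearMap.ext fun f => funext fun w' => ?_
    rw [pa_entries, LinearMap.zero_apply, Pi.zero_apply]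
    refine Finset.sum_eq_zero fun w _ => ?_
    rw [h, Int.cast_zero, zero_mul]

/-- ROW K1b. -/
theorem pa_zero {R : Type} [CommRing R] {y : P α} (h : Kill L y) : pa R L α y = 0 := by
  refine LinearMap.ext fun f => funext fun w' => ?_
  rw [pa_entries, LinearMap.zero_apply, Pi.zero_apply]
  refine Finset.sum_eq_zero fun w _ => ?_
  rw [(kill_iff y).1 h, Int.cast_zero, zero_mul]

/-- ROW K1c. -/
theorem kill_act {N : ℕ} (y : P α) : Kill (Fin N) y ↔ H4.act N α y = 0 := by
  have h0 : H4.act N α y = pa ℚ (Fin N) α y := rfl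
  rw [h0]
  constructor
  · exact fun h => pa_zero h
  · intro h
    rw [kill_iff]
    intro w w'
    have h1 := pa_single (R := ℚ) y w w'
    rw [h, LinearMap.zero_apply, Pi.zero_apply] at h1
    exact_mod_cast h1.symm

/-- ROW K2. -/
theorem kill_card (h : Fintype.card L ≤ Fintype.card L') {y : P α} (hy : Kill L' y) :
    Kill L y := by
  obtain ⟨e⟩ := Function.Embedding.nonempty_of_card_le h
  rw [kill_iff] at hy ⊢
  intro w w'
  refine (Finset.sum_congr rfl fun σ _ => ?_).trans (hy (e ∘ w) (e ∘ w'))
  have h1 : (w' ∘ σ = w) ↔ ((e ∘ w') ∘ σ = e ∘ w) := by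
    constructor
    · intro h2
      rw [← h2]
      rfl
    · intro h2
      funext x
      exact e.injective (congrFun h2 x)
  by_cases h2 : w' ∘ σ = w
  · rw [if_pos h2, if_pos (h1.1 h2)]
  · rw [if_neg h2, if_neg (fun h3 => h2 (h1.2 h3))]

end K

end Pool.PI34.EX
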