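import Pool.Agent.LibPI34.EX_K1

/-!
PI34, block EX (p = 2), rows K3, K4a, K5: embeddings, blocks, products of elements which do not kill the words.
-/

set_option autoImplicit false
set_option linter.unusedSectionVars false
set_option linter.unusedDecidableInType false
set_option linter.unusedFintypeInType false

namespace Pool.PI34.EX

open Equiv Finset
open Pool.PI34.Super (Lt odd pv prs)
open Pool.PI34.SK (W comp ins)
open Pool.PI34.H4 (P g emb As AK)

section K

variable {L L' : Type} [Fintype L] [DecidableEq L] [Fintype L'] [DecidableEq L']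
variable {α β : Type} [Fintype α] [DecidableEq α] [Fintype β] [DecidableEq β]

/-- The plain action of an embedded element. -/
theorem pa_emb {R : Type} [CommRing R] (e : α ↪ β) (y : P α) (F : (β → L) → R) (u : β → L) :
    pa R L β (emb e y) F u =
      pa R L α y (fun v => F (Function.extend e v u)) (u ∘ e) := by
  induction y using MonoidAlgebra.induction_on with
  | of σ =>
    have h1 : pa R L α (MonoidAlgebra.of ℤ (Perm α) σ) (fun v => F (Function.extend e v u))
        (u ∘ e) = F (Function.extend e ((u ∘ e) ∘ σ) u) := pa_g R L σ _ _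
    have h2 : emb e (MonoidAlgebra.of ℤ (Perm α) σ) = g (σ.viaEmbedding e) := H4.emb_g e σ
    rw [h1, h2, pa_g]
    congr 1
    funext x
    by_cases hx : ∃ a, e a = x
    · obtain ⟨a, rfl⟩ := hx
      rw [e.injective.extend_apply]
      simp [Equiv.Perm.viaEmbedding_apply]
    · rw [Function.extend_apply' _ _ _ hx, Function.comp_apply,
        Equiv.Perm.viaEmbedding_apply_of_notMem]
      rintro ⟨a, ha⟩
      exact hx ⟨a, ha⟩
  | add x y hx hy =>
    rw [map_add, map_add, map_add, LinearMap.add_apply, LinearMap.add_apply, Pi.add_apply,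
      Pi.add_apply, hx, hy]
  | smul r x hx =>
    rw [H4.emb_zsmul, map_zsmul, map_zsmul, LinearMap.smul_apply, LinearMap.smul_apply,
      Pi.smul_apply, Pi.smul_apply, hx]

/-- ROW K3. -/
theorem kill_emb (e : α ↪ β) {y : P α} (hy : Kill L y) : Kill L (emb e y) := by
  refine LinearMap.ext fun F => funext fun u => ?_
  rw [pa_emb, show pa ℤ L α y = 0 from hy]
  rfl

/-- The plain action of a block element. -/
theorem pa_bl {R : Type} [CommRing R] (m : ℕ) (y : P α) (F : (α × Fin m → L) → R)
    (u : α × Fin m → L) :
    pa R L (α × Fin m) (bl m y) F u =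
      pa R (Fin m → L) α y (fun v => F (Function.uncurry v)) (Function.curry u) := by
  induction y using MonoidAlgebra.induction_on with
  | of σ =>
    have h1 : pa R (Fin m → L) α (MonoidAlgebra.of ℤ (Perm α) σ) (fun v => F (Function.uncurry v))
        (Function.curry u) = F (Function.uncurry (Function.curry u ∘ σ)) := pa_g R _ σ _ _
    have h2 : bl m (MonoidAlgebra.of ℤ (Perm α) σ) = g (blHom m α σ) := by
      simp [bl, MonoidAlgebra.of_apply, H4.g]
    rw [h1, h2, pa_g]
    rfl
  | add x y hx hy =>
    rw [map_add, map_add, map_add, LinearMap.add_apply, LinearMap.add_apply, Pi.add_apply,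
      Pi.add_apply, hx, hy]
  | smul r x hx =>
    rw [map_zsmul (bl m), map_zsmul, map_zsmul, LinearMap.smul_apply, LinearMap.smul_apply,
      Pi.smul_apply, Pi.smul_apply, hx]

/-- ROW K4a. -/
theorem kill_bl (m : ℕ) {y : P α} : Kill L (bl m y) ↔ Kill (Fin m → L) y := by
  constructor
  · intro h
    refine LinearMap.ext fun F => funext fun u => ?_
    have h1 := pa_bl (R := ℤ) (L := L) m y (fun w => F (Function.curry w)) (Function.uncurry u)
    rw [show pa ℤ L (α × Fin m) (bl m y) = 0 from h] at h1
    exact h1.symm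
  · intro h
    refine LinearMap.ext fun F => funext fun u => ?_
    rw [pa_bl, show pa ℤ (Fin m → L) α y = 0 from h]
    rfl

/-- An element which does not kill the words is nonzero on some function at some word. -/
theorem exists_of_not_kill {y : P α} (h : ¬ Kill L y) :
    ∃ (f : (α → L) → ℤ) (w : α → L), pa ℤ L α y f w ≠ 0 := by
  by_contra hc
  push Not at hc
  exact h (LinearMap.ext fun f => funext fun w => hc f w)

/-- ROW K5. -/
theorem kill_mul [Nonempty L] {α' : Type} [Fintype α'] [DecidableEq α'] (e : α ↪ β)
    (e' : α' ↪ β) (hd : ∀ x y, e x ≠ e' y) {y : P α} {y' : P α'} (h : ¬ Kill L y)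
    (h' : ¬ Kill L y') :
    ¬ Kill L (emb e y * emb e' y') := by
  obtain ⟨f, w, hf⟩ := exists_of_not_kill h
  obtain ⟨f', w', hf'⟩ := exists_of_not_kill h'
  intro hk
  obtain ⟨c⟩ := ‹Nonempty L›
  have hE : ∀ (v : α' → L) (u : β → L), Function.extend e' v u ∘ e = u ∘ e := by
    intro v u
    funext x
    rw [Function.comp_apply, Function.comp_apply, Function.extend_apply']
    rintro ⟨a, ha⟩
    exact hd x a ha.symm
  have hE' : ∀ (v : α' → L) (u : β → L), Function.extend e' v u ∘ e' = v := by
    intro v u
    funext x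
    rw [Function.comp_apply, e'.injective.extend_apply]
  have hF : ∀ (v : α → L) (u : β → L), Function.extend e v u ∘ e' = u ∘ e' := by
    intro v u
    funext x
    rw [Function.comp_apply, Function.comp_apply, Function.extend_apply']
    rintro ⟨a, ha⟩
    exact hd a x ha
  have hF' : ∀ (v : α → L) (u : β → L), Function.extend e v u ∘ e = v := by
    intro v u
    funext x
    rw [Function.comp_apply, e.injective.extend_apply]
  have h1 : ∀ u : β → L, pa ℤ L β (emb e' y') (fun u => f (u ∘ e) * f' (u ∘ e')) u =
      f (u ∘ e) * pa ℤ L α' y' f' (u ∘ e') := by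
    intro u
    rw [pa_emb]
    have h2 : (fun v : α' → L => f (Function.extend e' v u ∘ e) *
        f' (Function.extend e' v u ∘ e')) = f (u ∘ e) • f' := by
      funext v
      rw [hE, hE']
      rfl
    change pa ℤ L α' y' (fun v : α' → L => f (Function.extend e' v u ∘ e) *
        f' (Function.extend e' v u ∘ e')) (u ∘ e') = _
    rw [h2, map_smul]
    rfl
  have h3 : pa ℤ L β (emb e' y') (fun u => f (u ∘ e) * f' (u ∘ e')) =
      fun u => f (u ∘ e) * pa ℤ L α' y' f' (u ∘ e') := funext h1
  have h4 : ∀ u : β → L, pa ℤ L β (emb e y * emb e' y') (fun u => f (u ∘ e) * f' (u ∘ e')) u =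
      pa ℤ L α y f (u ∘ e) * pa ℤ L α' y' f' (u ∘ e') := by
    intro u
    rw [map_mul]
    change pa ℤ L β (emb e y) (pa ℤ L β (emb e' y') (fun u => f (u ∘ e) * f' (u ∘ e'))) u = _
    rw [h3, pa_emb]
    have h5 : (fun v : α → L => f (Function.extend e v u ∘ e) *
        pa ℤ L α' y' f' (Function.extend e v u ∘ e')) = pa ℤ L α' y' f' (u ∘ e') • f := by
      funext v
      rw [hF, hF']
      exact mul_comm _ _
    change pa ℤ L α y (fun v : α → L => f (Function.extend e v u ∘ e) *
        pa ℤ L α' y' f' (Function.extend e v u ∘ e')) (u ∘ e) = _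
    rw [h5, map_smul]
    exact mul_comm _ _
  have h6 := h4 (Function.extend e w (Function.extend e' w' (fun _ => c)))
  rw [hF', hF, hE', show pa ℤ L β (emb e y * emb e' y') = 0 from hk] at h6
  exact mul_ne_zero hf hf' h6.symm

end K

end Pool.PI34.EX
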