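import Pool.Agent.LibPI34.EX_All

/-!
PI34, block EX (p = 2): the induction on the number of the `δ` and Nakayama's lemma.
-/

set_option autoImplicit false
set_option linter.unusedSectionVars false
set_option linter.unusedDecidableInType false
set_option linter.unusedFintypeInType false

namespace Pool.PI34.EX

open Equiv Finset
open Pool.PI34.Super (Lt odd pv prs)
open Pool.PI34.SK (W comp ins)
open Pool.PI34.H4 (P g emb As AK)

section main

variable {O : Type} [CommRing O] {k l m : ℕ} {d : ℕ} {r : O}
variable {V : VD (m + 1)} {Wd : WD ((m + 1) ^ (m + 1))}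

section NF

variable {ι : Type} [Fintype ι] [LinearOrder ι] {Y : EW O k l ι}

theorem mem_NF {j : ℕ} {x : EW O k l ι} : x ∈ NF r j Y ↔ ∃ b ∈ FR k l ι r j, b * Y = x := by
  unfold NF
  rw [Submodule.mem_map]
  rfl

theorem mul_NF {i j : ℕ} {b x : EW O k l ι} (hb : b ∈ FR k l ι r i) (hx : x ∈ NF r j Y) :
    b * x ∈ NF r (i + j) Y := by
  obtain ⟨c, hc, rfl⟩ := mem_NF.1 hx
  exact mem_NF.2 ⟨b * c, FR_mul hb hc, mul_assoc _ _ _⟩

theorem NF_mono {i j : ℕ} (h : i ≤ j) : NF r j Y ≤ NF r i Y :=
  Submodule.map_mono (FR_mono h)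

theorem NF_of {j : ℕ} {b : EW O k l ι} (hb : b ∈ FR k l ι r j) : b * Y ∈ NF r j Y :=
  mem_NF.2 ⟨b, hb, rfl⟩

end NF

/-- The statement of the induction for `j`. -/
def QQ (r : O) (e : I0 m V Wd ↪ Fin d) (j : ℕ) : Prop :=
  ∀ n, NF r j (Om O k l (en e n)) ≤ LL r (Om O k l e) n ⊔ NF r (j + 1) (Om O k l (en e n))

theorem adj_of (e : I0 m V Wd ↪ Fin d) : ∃ x y : Fin d, x ⋖ y := by
  have h2 : 2 ≤ d := by
    have h1 : Function.Injective (fun b : Fin 2 => e (p0 (if b = 0 then 0 else Fin.last (JJ m)))) := by
      intro a b h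
      have h3 := congrArg Prod.fst (Sum.inl_injective (e.injective h))
      have h4 := Sum.inr_injective h3
      have h5 : (0 : Fin (JJ m + 1)) ≠ Fin.last (JJ m) := by
        intro h6
        have h7 := congrArg Fin.val h6
        have h8 : 0 < JJ m := Nat.pow_pos (Nat.succ_pos m)
        rw [Fin.val_last] at h7
        change 0 = JJ m at h7
        omega
      rcases Fin.exists_fin_two.1 ⟨a, rfl⟩ with rfl | rfl <;>
        rcases Fin.exists_fin_two.1 ⟨b, rfl⟩ with rfl | rfl
      · rfl
      · exact absurd h4 h5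
      · exact absurd h4.symm h5
      · rfl
    have := Fintype.card_le_of_injective _ h1
    simpa using this
  refine ⟨⟨0, by omega⟩, ⟨1, by omega⟩, ?_, ?_⟩
  · rw [Fin.lt_def]; exact Nat.zero_lt_one
  · intro c hc hc'
    rw [Fin.lt_def] at hc hc'
    change 0 < c.val at hc
    change c.val < 1 at hc'
    omega

theorem adj_n (e : I0 m V Wd ↪ Fin d) (n : ℕ) : ∃ x y : Fin (d + n), x ⋖ y := adj_of (en e n)

/-- `pf` and `sf` on the right side of the induction. -/
theorem pf_of_sf (hr : r * r = 2) (e : I0 m V Wd ↪ Fin d) {j n : ℕ} (σ : Perm (Fin (d + n)))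
    {x : EW O k l (Fin (d + n))} (hx : x ∈ NF r j (Om O k l (en e n)))
    (h : x ∈ LL r (Om O k l e) n ⊔ NF r (j + 1) (Om O k l (en e n))) :
    pf O k l _ (g σ) * x ∈ LL r (Om O k l e) n ⊔ NF r (j + 1) (Om O k l (en e n)) := by
  obtain ⟨u, hu, v, hv, huv⟩ := Submodule.mem_sup.1 h
  have h1 : pf O k l _ (g σ) * x = sf O k l _ (g σ) * u + (sf O k l _ (g σ) * v -
      (sf O k l _ (g σ) - pf O k l _ (g σ)) * x) := by
    have h2 : sf O k l _ (g σ) * x = sf O k l _ (g σ) * u + sf O k l _ (g σ) * v := by
      rw [← mul_add, huv]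
    rw [sub_mul, h2]
    abel
  rw [h1]
  refine Submodule.add_mem_sup (LL_mul hu _) (Submodule.sub_mem _ ?_ ?_)
  · have h0 : sf O k l _ (g σ) ∈ FR k l _ r 0 := by
      have h3 := Submodule.add_mem _ (FR_mono (Nat.zero_le 2) (sf_sub_pf hr (g σ)))
        (pf_mem (r := r) (k := k) (l := l) (g σ))
      rwa [sub_add_cancel] at h3
    have h4 := mul_NF h0 hv
    rwa [Nat.zero_add] at h4
  · have h4 := mul_NF (sf_sub_pf hr (g σ)) hx
    exact NF_mono (by omega) h4

theorem P0_card (s : Finset (Fin (JJ m + 1))) : (P0 s : Finset (I0 m V Wd)).card = s.card :=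
  Finset.card_map _

theorem ds_union {ι : Type} [Fintype ι] [LinearOrder ι] {S T : Finset ι} (h : Disjoint S T) :
    (ds r (S ∪ T) : EW O k l ι) = ds r S * ds r T := by
  rw [ds_mul, Finset.disjoint_iff_inter_eq_empty.1 h, Finset.card_empty, pow_zero, one_smul]

/-- The case in which no `δ` is at a place of `Ω`. -/
theorem fresh (hr : r * r = 2) (hm : k + l = m + 1) (e : I0 m V Wd ↪ Fin d) (j n : ℕ)
    (ih : 2 ≤ j → QQ r e (k := k) (l := l) (j - 2)) (S : Finset (Fin (d + n)))
    (hS : ∀ x, en e n x ∉ S) (hj : S.card = j) :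
    ds r S * Om O k l (en e n) ∈ LL r (Om O k l e) n ⊔ NF r (j + 1) (Om O k l (en e n)) := by
  by_cases hle : j ≤ JJ m + 1
  · have h1 := absorb (O := O) (r := r) hm (en e n) S ∅ ∅ hS (fun _ => Finset.notMem_empty _)
      (Finset.disjoint_empty_right _) (by rw [hj, Finset.card_empty]; exact hle)
    have h2 : S ∪ ∅ ∪ (P0 (∅ : Finset (Fin (JJ m + 1)))).map (en e n) = S := by
      rw [P0, Finset.map_empty, Finset.map_empty, Finset.union_empty, Finset.union_empty]
    rw [h2] at h1
    refine Submodule.span_le.2 ?_ h1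
    rintro x ⟨σ, v', hv', rfl⟩
    rw [Finset.card_empty, add_zero, hj] at hv'
    rw [Finset.empty_union]
    refine pf_of_sf hr e σ ?_ ?_
    · have h3 := NF_of (Y := Om O k l (en e n)) (ds_mem (r := r) (k := k) (l := l)
        ((P0 v').map (en e n)))
      rwa [Finset.card_map, P0_card, hv'] at h3
    · exact Submodule.mem_sup_left (LL_ds e n v')
  · push Not at hle
    obtain ⟨T, hT, hTc⟩ := Finset.exists_subset_card_eq (s := S) (n := JJ m + 1) (by omega)
    have hd : Disjoint T (S \ T) := Finset.disjoint_sdiff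
    have hc := Finset.card_sdiff_of_subset hT
    have h1 := absorb (O := O) (r := r) hm (en e n) T (S \ T) ∅ (fun x hx => hS x (hT hx))
      (fun x hx => hS x (Finset.sdiff_subset hx)) hd
      (by rw [hTc, Finset.card_empty])
    have h2 : T ∪ (S \ T) ∪ (P0 (∅ : Finset (Fin (JJ m + 1)))).map (en e n) = S := by
      rw [P0, Finset.map_empty, Finset.map_empty, Finset.union_empty, Finset.union_sdiff_of_subset hT]
    rw [h2] at h1
    refine Submodule.span_le.2 ?_ h1
    rintro x ⟨σ, v', hv', rfl⟩
    have hv : v' = univ := by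
      apply Finset.eq_univ_of_card
      rw [hv', hTc, Finset.card_empty, Fintype.card_fin, add_zero]
    subst hv
    have hdis : ∀ s : Finset (Fin (JJ m + 1)), Disjoint (S \ T) ((P0 s).map (en e n)) := by
      intro s
      rw [Finset.disjoint_left]
      intro x hx hx'
      obtain ⟨y, _, rfl⟩ := Finset.mem_map.1 hx'
      exact hS y (Finset.sdiff_subset hx)
    refine pf_of_sf hr e σ ?_ ?_
    · have h3 := NF_of (Y := Om O k l (en e n)) (ds_mem (r := r) (k := k) (l := l)
        (S \ T ∪ (P0 univ).map (en e n)))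
      rw [Finset.card_union_of_disjoint (hdis _), Finset.card_map, P0_card, Finset.card_univ,
        Fintype.card_fin] at h3
      exact NF_mono (by omega) h3
    · have h3 := red (O := O) hr hm (adj_n e n) (en e n)
      have h4 : ds r (S \ T ∪ (P0 univ).map (en e n)) * Om O k l (en e n) =
          ∑ a, sf O k l _ (emb (en e n) (ta a)) *
            (ds r (S \ T ∪ (P0 (univ \ {a.castSucc, a.succ})).map (en e n)) * Om O k l (en e n)) +
          ds r (S \ T) * (ds r ((P0 univ).map (en e n)) * Om O k l (en e n) -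
            ∑ a, sf O k l _ (emb (en e n) (ta a)) *
              (ds r ((P0 (univ \ {a.castSucc, a.succ})).map (en e n)) * Om O k l (en e n))) := by
        rw [ds_union (hdis _), mul_sub, Finset.mul_sum, mul_assoc, add_sub_left_comm]
        symm
        rw [add_eq_left, sub_eq_zero]
        refine Finset.sum_congr rfl fun a _ => ?_
        have hcm := (sf_ds_comm (O := O) (k := k) (l := l) (r := r) (en e n) (ta a) (S \ T)
          (fun x hx => hS x (Finset.sdiff_subset hx))).eq
        rw [ds_union (hdis _), mul_assoc, ← mul_assoc, hcm, mul_assoc]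
      rw [h4]
      refine Submodule.add_mem _ (Submodule.sum_mem _ fun a _ => ?_) ?_
      · have hJ : 1 ≤ JJ m := Nat.pos_of_ne_zero (fun h => by
          have := a.2
          omega)
        have hca : (univ \ {a.castSucc, a.succ} : Finset (Fin (JJ m + 1))).card = JJ m - 1 := by
          rw [Finset.card_sdiff_of_subset (Finset.subset_univ _), Finset.card_univ,
            Fintype.card_fin, Finset.card_pair Fin.castSucc_lt_succ.ne]
          omega
        have h5 := NF_of (Y := Om O k l (en e n)) (ds_mem (r := r) (k := k) (l := l)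
          (S \ T ∪ (P0 (univ \ {a.castSucc, a.succ})).map (en e n)))
        rw [Finset.card_union_of_disjoint (hdis _), Finset.card_map, P0_card, hca] at h5
        have h6 := ih (by omega) n (NF_mono (by omega) h5)
        obtain ⟨u, hu, v, hv, huv⟩ := Submodule.mem_sup.1 h6
        rw [← huv, mul_add]
        refine Submodule.add_mem_sup (LL_mul hu _) ?_
        have h7 := mul_NF (ta_mem (O := O) hr hm (adj_n e n) (en e n) a) hv
        exact NF_mono (by omega) h7
      · refine Submodule.mem_sup_right ?_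
        have h5 := mul_NF (ds_mem (r := r) (k := k) (l := l) (S \ T)) h3
        exact NF_mono (by omega) h5

/-- The general case: the `δ` at the places of `Ω` are moved to new strands. -/
theorem step (hr : r * r = 2) (hm : k + l = m + 1) (e : I0 m V Wd ↪ Fin d) (j : ℕ)
    (ih : 2 ≤ j → QQ r e (k := k) (l := l) (j - 2)) (i : ℕ) :
    ∀ (n : ℕ) (S : Finset (Fin (d + n))), S.card = j →
      (S.filter (fun x => x ∈ Set.range (en e n))).card = i →
      ds r S * Om O k l (en e n) ∈ LL r (Om O k l e) n ⊔ NF r (j + 1) (Om O k l (en e n)) := by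
  classical
  induction i with
  | zero =>
    intro n S hj hi
    refine fresh hr hm e j n ih S (fun x hx => ?_) hj
    rw [Finset.card_eq_zero] at hi
    have h1 : en e n x ∈ S.filter (fun x => x ∈ Set.range (en e n)) :=
      Finset.mem_filter.2 ⟨hx, x, rfl⟩
    rw [hi] at h1
    exact Finset.notMem_empty _ h1
  | succ i ihi =>
    intro n S hj hi
    obtain ⟨c, hc⟩ : (S.filter (fun x => x ∈ Set.range (en e n))).Nonempty := by
      rw [← Finset.card_pos, hi]
      omega
    rw [Finset.mem_filter] at hc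
    obtain ⟨hcS, hcR⟩ := hc
    set S' : Finset (Fin (d + (n + 1))) := insert 0 ((S.erase c).map (Fin.succEmb (d + n)))
      with hS'
    have h0 : (0 : Fin (d + (n + 1))) ∉ (S.erase c).map (Fin.succEmb (d + n)) := by
      rw [Finset.mem_map]
      rintro ⟨x, _, hx⟩
      exact Fin.succ_ne_zero x hx
    have hS'c : S'.card = j := by
      rw [hS', Finset.card_insert_of_notMem h0, Finset.card_map, Finset.card_erase_of_mem hcS, hj]
      have : 0 < S.card := Finset.card_pos.2 ⟨c, hcS⟩
      omega
    have hS'i : (S'.filter (fun x => x ∈ Set.range (en e (n + 1)))).card = i := by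
      have h1 : S'.filter (fun x => x ∈ Set.range (en e (n + 1))) =
          ((S.filter (fun x => x ∈ Set.range (en e n))).erase c).map (Fin.succEmb (d + n)) := by
        ext x
        rw [Finset.mem_filter, hS', Finset.mem_insert, Finset.mem_map, Finset.mem_map]
        constructor
        · rintro ⟨hx | ⟨y, hy, rfl⟩, z, hz⟩
          · subst hx
            exact absurd hz (Fin.succ_ne_zero _)
          · refine ⟨y, ?_, rfl⟩
            rw [Finset.mem_erase] at hy ⊢
            refine ⟨hy.1, Finset.mem_filter.2 ⟨hy.2, z, ?_⟩⟩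
            exact (Fin.succEmb (d + n)).injective hz
        · rintro ⟨y, hy, rfl⟩
          rw [Finset.mem_erase, Finset.mem_filter] at hy
          obtain ⟨hyc, hyS, z, hz⟩ := hy
          refine ⟨Or.inr ⟨y, Finset.mem_erase.2 ⟨hyc, hyS⟩, rfl⟩, z, ?_⟩
          change Fin.succ (en e n z) = Fin.succ y
          rw [hz]
      rw [h1, Finset.card_map, Finset.card_erase_of_mem (Finset.mem_filter.2 ⟨hcS, hcR⟩), hi]
      rfl
    have hX := ihi (n + 1) S' hS'c hS'i
    have hXN : ds r S' * Om O k l (en e (n + 1)) ∈ NF r j (Om O k l (en e (n + 1))) := by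
      have h3 := NF_of (Y := Om O k l (en e (n + 1))) (ds_mem (r := r) (k := k) (l := l) S')
      rwa [hS'c] at h3
    have hY := pf_of_sf hr e (swap 0 c.succ) hXN hX
    obtain ⟨u, hu, v, hv, huv⟩ := Submodule.mem_sup.1 hY
    obtain ⟨b, hb, rfl⟩ := mem_NF.1 hv
    obtain ⟨u', hu', b', hb', hub⟩ := LL_Ptr hr hu
    have hOm : Om O k l (en e (n + 1)) = up O k l (d + n) (Om O k l (en e n)) := by
      rw [← upn_Om, ← upn_Om]
      rfl
    have hPtr : Ptr O k l (d + n) (pf O k l _ (g (swap 0 c.succ)) *
        (ds r S' * Om O k l (en e (n + 1)))) = ds r S * Om O k l (en e n) := by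
      have h1 : (ds r S' : EW O k l (Fin (d + (n + 1)))) =
          ds r {0} * up O k l (d + n) (ds r (S.erase c)) := by
        rw [hS', up_ds, ← ds_union (Finset.disjoint_singleton_left.2 h0)]
        rfl
      rw [h1, hOm, mul_assoc, ← mul_assoc, ← map_mul, Ptr_mul_up, Ptr_swap_ds0, ← mul_assoc,
        ← ds_union (Finset.disjoint_singleton_left.2 (Finset.notMem_erase c S))]
      congr 2
      change insert c (S.erase c) = S
      exact Finset.insert_erase hcS
    have h9 : ds r S * Om O k l (en e n) = Ptr O k l (d + n) (u + b * Om O k l (en e (n + 1))) := by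
      rw [huv]
      exact hPtr.symm
    have h10 : Ptr O k l (d + n) (b * Om O k l (en e (n + 1))) =
        Ptr O k l (d + n) b * Om O k l (en e n) := by
      rw [hOm]
      exact Ptr_mul_up _ _
    rw [h9, map_add, hub, h10, upn_Om, add_assoc]
    refine Submodule.add_mem_sup hu' (Submodule.add_mem _ ?_ ?_)
    · rw [← smul_mul_assoc]
      exact NF_of (r_smul_mem hb' _)
    · exact NF_of (Ptr_FR hb)

theorem QQ_all (hr : r * r = 2) (hm : k + l = m + 1) (e : I0 m V Wd ↪ Fin d) (j : ℕ) :
    QQ r e (k := k) (l := l) j := by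
  induction j using Nat.strong_induction_on with
  | _ j ih =>
    intro n x hx
    obtain ⟨b, hb, rfl⟩ := mem_NF.1 hx
    unfold FR at hb
    refine Submodule.span_induction (p := fun b _ => b * Om O k l (en e n) ∈
      LL r (Om O k l e) n ⊔ NF r (j + 1) (Om O k l (en e n))) ?_ ?_ ?_ ?_ hb
    · rintro x ⟨σ, S, ⟨hS, rfl⟩ | rfl⟩
      · rw [mul_assoc]
        rcases Nat.lt_or_ge j S.card with h | h
        · refine Submodule.mem_sup_right ?_
          rw [← mul_assoc]
          refine NF_of ?_
          have h1 := FR_mul (pf_mem (r := r) (k := k) (l := l) (g σ)) (ds_mem (r := r) (k := k)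
            (l := l) S)
          exact FR_mono (by omega) h1
        · have hj : S.card = j := le_antisymm h hS
          refine pf_of_sf hr e σ ?_ (step hr hm e j (fun h2 => ih (j - 2) (by omega)) _ n S hj rfl)
          have h3 := NF_of (Y := Om O k l (en e n)) (ds_mem (r := r) (k := k) (l := l) S)
          rwa [hj] at h3
      · refine Submodule.mem_sup_right (NF_of (r_smul_mem ?_ _))
        have h1 := FR_mul (pf_mem (r := r) (k := k) (l := l) (g σ)) (FR_mono (Nat.zero_le _)
          (ds_mem (r := r) (k := k) (l := l) S))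
        exact h1
    · rw [zero_mul]
      exact Submodule.zero_mem _
    · intro a c _ _ ha hc
      rw [add_mul]
      exact Submodule.add_mem _ ha hc
    · intro a c _ hc
      rw [smul_mul_assoc]
      exact Submodule.smul_mem _ a hc

theorem FR_fg {ι : Type} [Fintype ι] [LinearOrder ι] (r : O) (j : ℕ) : (FR k l ι r j).FG := by
  classical
  refine Submodule.fg_span (Set.Finite.subset (s := Set.range
    (fun q : (Perm ι × Finset ι) × Bool => if q.2 then pf O k l ι (g q.1.1) * ds r q.1.2
      else r • (pf O k l ι (g q.1.1) * ds r q.1.2))) (Set.finite_range _) ?_)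
  rintro x ⟨σ, S, ⟨_, rfl⟩ | rfl⟩
  · exact ⟨((σ, S), true), by simp⟩
  · exact ⟨((σ, S), false), by simp⟩

theorem NF_le (hr : r * r = 2) (hm : k + l = m + 1) (e : I0 m V Wd ↪ Fin d) (n j : ℕ) :
    NF r 0 (Om O k l (en e n)) ≤ LL r (Om O k l e) n ⊔ NF r j (Om O k l (en e n)) := by
  induction j with
  | zero => exact le_sup_right
  | succ j ih =>
    refine ih.trans (sup_le le_sup_left (QQ_all hr hm e j n))

/-- **The main theorem of the block (A)**: everything is generated by the strings. -/
theorem main_le (hr : r * r = 2) (hJ : r ∈ Ideal.jacobson (⊥ : Ideal O)) (hm : k + l = m + 1)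
    (e : I0 m V Wd ↪ Fin d) (n : ℕ) :
    NF r 0 (Om O k l (en e n)) ≤ LL r (Om O k l e) n := by
  have h1 := NF_le hr hm e n (d + n + 1)
  have hfg : (NF r 0 (Om O k l (en e n))).FG := (FR_fg r 0).map _
  refine Submodule.le_of_le_smul_of_le_jacobson_bot (I := Ideal.span {r}) hfg
    (Ideal.span_le.2 (Set.singleton_subset_iff.2 hJ)) (h1.trans (sup_le_sup_left ?_ _))
  intro x hx
  obtain ⟨b, hb, rfl⟩ := mem_NF.1 hx
  obtain ⟨y, hy, rfl⟩ := FR_top (by rw [Fintype.card_fin]; exact Nat.lt_succ_self _) hb
  rw [smul_mul_assoc]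
  exact Submodule.smul_mem_smul (Ideal.mem_span_singleton_self r) (NF_of hy)

/-- The form used by the ring side. -/
theorem ext_form (hr : r * r = 2) (hJ : r ∈ Ideal.jacobson (⊥ : Ideal O)) (hm : k + l = m + 1)
    (e : I0 m V Wd ↪ Fin d) (T : Finset (Fin d)) :
    ∃ lam : Finset (Fin d) → MonoidAlgebra O (Perm (Fin (d + 1))),
      ds r {0} * (ds r (T.map (Fin.succEmb d)) * Om O k l (en e 1)) =
        ∑ T' : Finset (Fin d), SK.act O O k l (Fin (d + 1)) (lam T') *
          (ds r (T'.map (Fin.succEmb d)) * Om O k l (en e 1)) := by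
  classical
  let Φ : (Finset (Fin d) → MonoidAlgebra O (Perm (Fin (d + 1)))) →ₗ[O] EW O k l (Fin (d + 1)) :=
    { toFun := fun lam => ∑ T' : Finset (Fin d), SK.act O O k l (Fin (d + 1)) (lam T') *
        (ds r (T'.map (Fin.succEmb d)) * Om O k l (en e 1))
      map_add' := fun a b => by
        rw [← Finset.sum_add_distrib]
        refine Finset.sum_congr rfl fun T' _ => ?_
        rw [Pi.add_apply, map_add, add_mul]
      map_smul' := fun c a => by
        rw [RingHom.id_apply, Finset.smul_sum]
        refine Finset.sum_congr rfl fun T' _ => ?_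
        rw [Pi.smul_apply, map_smul, smul_mul_assoc] }
  have hsing : ∀ (σ : Perm (Fin (d + 1))) (S : Finset (Fin d)),
      sf O k l _ (g σ) * (ds r (S.map (Fin.succEmb d)) * Om O k l (en e 1)) ∈
        LinearMap.range Φ := by
    intro σ S
    refine ⟨fun T' => if T' = S then MonoidAlgebra.of O _ σ else 0, ?_⟩
    change ∑ T' : Finset (Fin d), _ = _
    rw [Finset.sum_eq_single S]
    · beta_reduce
      rw [if_pos rfl, SK.act_of]
      congr 1
      unfold sf
      exact (SK.act_of (A := ℤ) σ).symm
    · intro T' _ hne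
      beta_reduce
      rw [if_neg hne, map_zero, zero_mul]
    · intro h
      exact absurd (Finset.mem_univ _) h
  have hLL : LL r (Om O k l e) 1 ≤ LinearMap.range Φ := by
    unfold LL
    refine Submodule.span_le.2 ?_
    rintro x ⟨σ, y, hy, rfl⟩
    obtain ⟨b, hb, rfl⟩ := mem_NF.1 hy
    have hb' := FR_le_sf hr hb
    change sf O k l _ (g σ) * up O k l d (b * Om O k l e) ∈ LinearMap.range Φ
    refine Submodule.span_induction (p := fun b _ => sf O k l _ (g σ) *
      up O k l d (b * Om O k l e) ∈ LinearMap.range Φ) ?_ ?_ ?_ ?_ hb'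
    · rintro x ⟨τ, S, rfl⟩
      have h1 : up O k l d (Om O k l e) = Om O k l (en e 1) := upn_Om e 1
      have h2 : sf O k l (Fin (d + 1)) (g σ) * up O k l d (sf O k l _ (g τ) * ds r S * Om O k l e) =
          sf O k l _ (g (σ * τ.viaEmbedding (Fin.succEmb d))) *
            (ds r (S.map (Fin.succEmb d)) * Om O k l (en e 1)) := by
        rw [map_mul, map_mul, up_sf, up_ds, h1, H4.emb_g, H4.g_mul, map_mul]
        simp only [mul_assoc]
      rw [h2]
      exact hsing _ _
    · rw [zero_mul, map_zero, mul_zero]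
      exact Submodule.zero_mem _
    · intro a c _ _ ha hc
      rw [add_mul, map_add, mul_add]
      exact Submodule.add_mem _ ha hc
    · intro a c _ hc
      rw [smul_mul_assoc, up_smul, mul_smul_comm]
      exact Submodule.smul_mem _ a hc
  have hmem : ds r {0} * (ds r (T.map (Fin.succEmb d)) * Om O k l (en e 1)) ∈
      LinearMap.range Φ := by
    refine hLL (main_le hr hJ hm e 1 ?_)
    rw [← mul_assoc]
    refine NF_of ?_
    have h1 := FR_mul (FR_mono (Nat.zero_le _) (ds_mem (r := r) (k := k) (l := l) {(0 : Fin (d + 1))}))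
      (FR_mono (Nat.zero_le _) (ds_mem (r := r) (k := k) (l := l) (T.map (Fin.succEmb d))))
    exact h1
  obtain ⟨lam, hlam⟩ := hmem
  exact ⟨lam, hlam.symm⟩

end main

end Pool.PI34.EX
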