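import Pool.Agent.LibPI34.EX_R1
import Pool.Agent.LibPI34.EX_C2

/-!
PI34, block EX, group R2: rows R2, R3.
-/

set_option autoImplicit false
set_option linter.unusedSectionVars false
set_option linter.unusedDecidableInType false
set_option linter.unusedFintypeInType false

namespace Pool.PI34.EX

open Equiv Finset
open Pool.PI34.Super (Lt odd pv prs)
open Pool.PI34.SK (W comp ins)
open Pool.PI34.H4 (P g emb As AK)


section R

variable {O : Type} [CommRing O] {k l m : ℕ} {ι : Type} [Fintype ι] [LinearOrder ι] {r : O}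
variable {V : VD (m + 1)} {Wd : WD ((m + 1) ^ (m + 1))}


section flip

variable {n : ℕ} (D1 D2 : Fin n ↪ ι) (hd : ∀ i j, D1 i ≠ D2 j)

include hd in
theorem flip_left (L : List (Fin n)) (hL : L.Nodup) (j : Fin n) :
    (L.map fun i => swap (D1 i) (D2 i)).prod (D1 j) = if j ∈ L then D2 j else D1 j := by
  induction L with
  | nil => simp
  | cons a L ih =>
    rw [List.nodup_cons] at hL
    rw [List.map_cons, List.prod_cons, Perm.mul_apply, ih hL.2]
    by_cases hj : j ∈ L
    · rw [if_pos hj, if_pos (List.mem_cons_of_mem _ hj)]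
      have hja : j ≠ a := fun h => hL.1 (h ▸ hj)
      rw [swap_apply_of_ne_of_ne]
      · exact fun h => hd a j h.symm
      · exact fun h => hja (D2.injective h)
    · rw [if_neg hj]
      by_cases hja : j = a
      · subst hja
        rw [swap_apply_left, if_pos List.mem_cons_self]
      · rw [if_neg (by rw [List.mem_cons]; tauto), swap_apply_of_ne_of_ne]
        · exact fun h => hja (D1.injective h)
        · exact hd j a

include hd in
theorem flip_right (L : List (Fin n)) (hL : L.Nodup) (j : Fin n) :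
    (L.map fun i => swap (D1 i) (D2 i)).prod (D2 j) = if j ∈ L then D1 j else D2 j := by
  have h1 : (fun i => swap (D1 i) (D2 i)) = fun i => swap (D2 i) (D1 i) := by
    funext i
    exact swap_comm _ _
  rw [h1]
  exact flip_left D2 D1 (fun i j h => hd j i h.symm) L hL j

theorem flip_ne (L : List (Fin n)) (x : ι) (h1 : ∀ i, x ≠ D1 i) (h2 : ∀ i, x ≠ D2 i) :
    (L.map fun i => swap (D1 i) (D2 i)).prod x = x := by
  induction L with
  | nil => simp
  | cons a L ih =>
    rw [List.map_cons, List.prod_cons, Perm.mul_apply, ih, swap_apply_of_ne_of_ne (h1 a) (h2 a)]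

end flip

theorem flipB_g (D1 D2 : Fin (m + 1) ↪ ι) :
    flipB D1 D2 = g ((List.finRange (m + 1)).map fun i => swap (D1 i) (D2 i)).prod := by
  unfold flipB
  have h : ∀ L : List (Fin (m + 1)), (L.map fun i => (g (swap (D1 i) (D2 i)) : P ι)).prod =
      g (L.map fun i => swap (D1 i) (D2 i)).prod := by
    intro L
    induction L with
    | nil =>
      rw [List.map_nil, List.map_nil, List.prod_nil, List.prod_nil]
      exact (map_one (MonoidAlgebra.of ℤ (Perm ι))).symm
    | cons a L ih =>
      rw [List.map_cons, List.map_cons, List.prod_cons, List.prod_cons, ih, H4.g_mul]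
  exact h _

theorem ba_apply (a : Fin (JJ m)) (y : Wd.Y ⊕ Fin (JJ m + 1)) (i : Fin (m + 1)) :
    ((blHom (m + 1) (Wd.Y ⊕ Fin (JJ m + 1))
      (swap (Sum.inr a.castSucc) (Sum.inr a.succ))).viaEmbedding
      Function.Embedding.inl : Perm (I0 m V Wd)) (Sum.inl (y, i)) =
        Sum.inl (swap (Sum.inr a.castSucc) (Sum.inr a.succ) y, i) :=
  Perm.viaEmbedding_apply _ (Function.Embedding.inl : _ ↪ I0 m V Wd) (y, i)

theorem ba_apply_inr (a : Fin (JJ m)) (x : V.X) :
    ((blHom (m + 1) (Wd.Y ⊕ Fin (JJ m + 1))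
      (swap (Sum.inr a.castSucc) (Sum.inr a.succ))).viaEmbedding
      Function.Embedding.inl : Perm (I0 m V Wd)) (Sum.inr x) = Sum.inr x := by
  refine Perm.viaEmbedding_apply_of_notMem _ _ _ ?_
  rintro ⟨z, hz⟩
  cases hz

theorem emb_ba (e : I0 m V Wd ↪ ι) (a : Fin (JJ m)) :
    emb e (ba a) = flipB ((D a.castSucc).trans e) ((D a.succ).trans e) := by
  have hne : a.castSucc ≠ a.succ := Fin.castSucc_lt_succ.ne
  have hDD : ∀ c c' : Fin (JJ m + 1), c ≠ c' → ∀ i j,
      ((D c).trans e : Fin (m + 1) ↪ ι) i ≠ ((D c').trans e) j := by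
    intro c c' hc i j h
    have h1 : (D c i : I0 m V Wd) = D c' j := e.injective h
    have h2 := congrArg Prod.fst (Sum.inl_injective h1)
    exact hc (Sum.inr_injective h2)
  have hd := hDD _ _ hne
  rw [ba_g, H4.emb_g, flipB_g]
  congr 1
  ext x
  by_cases hx : x ∈ Set.range e
  · obtain ⟨z, rfl⟩ := hx
    rw [Perm.viaEmbedding_apply]
    rcases z with ⟨y, i⟩ | z
    · rw [ba_apply]
      rcases y with y | c
      · rw [swap_apply_of_ne_of_ne Sum.inl_ne_inr Sum.inl_ne_inr, flip_ne]
        · intro j h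
          have h1 : (Sum.inl (Sum.inl y, i) : I0 m V Wd) = D a.castSucc j := e.injective h
          have h2 := congrArg Prod.fst (Sum.inl_injective h1)
          exact Sum.inl_ne_inr h2
        · intro j h
          have h1 : (Sum.inl (Sum.inl y, i) : I0 m V Wd) = D a.succ j := e.injective h
          have h2 := congrArg Prod.fst (Sum.inl_injective h1)
          exact Sum.inl_ne_inr h2
      · have h2 : swap (Sum.inr a.castSucc : Wd.Y ⊕ Fin (JJ m + 1)) (Sum.inr a.succ) (Sum.inr c) =
            Sum.inr (swap a.castSucc a.succ c) :=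
          (Function.Injective.swap_apply Sum.inr_injective a.castSucc a.succ c)
        rw [h2]
        by_cases hc : c = a.castSucc
        · subst hc
          rw [swap_apply_left]
          have h3 : e (Sum.inl (Sum.inr a.castSucc, i)) = ((D a.castSucc).trans e) i := rfl
          rw [h3, flip_left _ _ hd _ (List.nodup_finRange _), if_pos (List.mem_finRange i)]
          rfl
        · by_cases hc' : c = a.succ
          · subst hc'
            rw [swap_apply_right]
            have h3 : e (Sum.inl (Sum.inr a.succ, i)) = ((D a.succ).trans e) i := rfl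
            rw [h3, flip_right _ _ hd _ (List.nodup_finRange _), if_pos (List.mem_finRange i)]
            rfl
          · rw [swap_apply_of_ne_of_ne hc hc', flip_ne]
            · exact fun j => hDD c _ hc i j
            · exact fun j => hDD c _ hc' i j
    · rw [ba_apply_inr, flip_ne]
      · intro j h
        have h1 : (Sum.inr z : I0 m V Wd) = D a.castSucc j := e.injective h
        exact Sum.inr_ne_inl h1
      · intro j h
        have h1 : (Sum.inr z : I0 m V Wd) = D a.succ j := e.injective h
        exact Sum.inr_ne_inl h1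
  · rw [Perm.viaEmbedding_apply_of_notMem _ _ _ hx, flip_ne]
    · rintro j rfl
      exact hx ⟨_, rfl⟩
    · rintro j rfl
      exact hx ⟨_, rfl⟩

/-- ROW R2. -/
theorem ba_AS (hm : k + l = m + 1) (e : I0 m V Wd ↪ ι) (a : Fin (JJ m)) :
    pf O k l ι (emb e (ba a * AS univ)) = pf O k l ι (emb e (AS univ)) := by
  have hne : a.castSucc ≠ a.succ := Fin.castSucc_lt_succ.ne
  have h1 : (AS univ : P (I0 m V Wd)) = emb (D a.castSucc) (As (Fin (m + 1))) *
      emb (D a.succ) (As (Fin (m + 1))) * AS ((univ.erase a.castSucc).erase a.succ) := by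
    rw [AS_erase (Finset.mem_univ a.castSucc), AS_erase (s := univ.erase a.castSucc) (a := a.succ)
      (Finset.mem_erase.2 ⟨hne.symm, Finset.mem_univ _⟩), mul_assoc]
  have hd : ∀ i j, ((D a.castSucc).trans e : Fin (m + 1) ↪ ι) i ≠ ((D a.succ).trans e) j := by
    intro i j h
    have h1 : (D a.castSucc i : I0 m V Wd) = D a.succ j := e.injective h
    have h2 := congrArg Prod.fst (Sum.inl_injective h1)
    exact hne (Sum.inr_injective h2)
  have h2 := two_det (O := O) hm _ _ hd
  rw [h1]
  simp only [map_mul] at h2 ⊢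
  rw [H4.emb_trans, H4.emb_trans, emb_ba, ← mul_assoc, h2]

/-- ROW R3. -/
theorem tau_comm (a : Fin (JJ m)) (y : P (V.X ⊕ Fin 2)) :
    Commute (tau a) (emb (vE a) y : P (I0 m V Wd)) ∧ fa a * ba a = (ba a * fa a : P (I0 m V Wd)) ∧
      fa a * fa a = (1 : P (I0 m V Wd)) ∧ ba a * ba a = (1 : P (I0 m V Wd)) := by
  have hpi : Function.Injective (p0 : Fin (JJ m + 1) → I0 m V Wd) := fun x y h => p0_inj h
  refine ⟨?_, ?_, ?_, ?_⟩
  · refine (H4.commute_of_g (vE a) (fun σ => ?_) y).symm
    have h1 : (tau a : P (I0 m V Wd)) = g (swap (p0 a.castSucc) (p0 a.succ) *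
        (blHom (m + 1) _ (swap (Sum.inr a.castSucc) (Sum.inr a.succ))).viaEmbedding
          Function.Embedding.inl) := by
      unfold tau fa
      rw [ba_g, H4.g_mul]
    rw [h1]
    set t : Perm (I0 m V Wd) := swap (p0 a.castSucc) (p0 a.succ) *
        (blHom (m + 1) _ (swap (Sum.inr a.castSucc) (Sum.inr a.succ))).viaEmbedding
          Function.Embedding.inl with ht
    have hfp : ∀ c, t (p0 c) = p0 c := by
      intro c
      rw [ht, Perm.mul_apply, ba_p0, hpi.swap_apply, swap_apply_self]
    have hfix : ∀ z, t (vE a z) = vE a z := by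
      intro z
      rcases z with x | i
      · have h2 : (vE a (Sum.inl x) : I0 m V Wd) = Sum.inr x := rfl
        rw [h2, ht, Perm.mul_apply, ba_apply_inr, swap_apply_of_ne_of_ne]
        · exact Sum.inr_ne_inl
        · exact Sum.inr_ne_inl
      · fin_cases i
        · exact hfp a.castSucc
        · exact hfp a.succ
    clear_value t
    unfold Commute SemiconjBy
    rw [← H4.g_mul, ← H4.g_mul]
    congr 1
    ext z
    rw [Perm.mul_apply, Perm.mul_apply]
    by_cases hz : z ∈ Set.range (vE a : V.X ⊕ Fin 2 ↪ I0 m V Wd)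
    · obtain ⟨x, rfl⟩ := hz
      rw [hfix, Perm.viaEmbedding_apply, hfix]
    · rw [Perm.viaEmbedding_apply_of_notMem _ _ _ hz, Perm.viaEmbedding_apply_of_notMem]
      rintro ⟨x, hx⟩
      apply hz
      refine ⟨x, ?_⟩
      apply t.injective
      rw [hfix, hx]
  · unfold fa
    rw [ba_g, ← H4.g_mul, ← H4.g_mul, Equiv.mul_swap_eq_swap_mul, ba_p0, ba_p0, swap_apply_left,
      swap_apply_right, swap_comm (p0 a.succ)]
  · unfold fa
    rw [← H4.g_mul, swap_mul_self]
    exact map_one (MonoidAlgebra.of ℤ (Perm _))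
  · unfold ba bw
    rw [← map_mul, ← map_mul, ← H4.g_mul, swap_mul_self]
    have h1 : (g (1 : Perm (Wd.Y ⊕ Fin (JJ m + 1)))) = 1 := map_one (MonoidAlgebra.of ℤ (Perm _))
    rw [h1, map_one, map_one]

end R

end Pool.PI34.EX
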