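import Pool.Agent.LibPI34.EX_Def2

set_option autoImplicit false
set_option linter.unusedSectionVars false
set_option linter.unusedSimpArgs false

namespace Pool.PI34.EX

/-- ROW R5: the abstract computation. -/
theorem red_abs {A : Type} [Ring A] (B : Subring A) (S J : AddSubgroup A)
    (hJB : ∀ j ∈ J, ∀ b ∈ B, b * j ∈ J ∧ j * b ∈ J) (h2 : ∀ b ∈ B, b + b ∈ J)
    {ρ f τ E1 E0 T Dd Z : A} (hρ : ρ ∈ B) (hf : f ∈ B) (hτ : τ ∈ B) (hE1 : E1 ∈ B) (hE0 : E0 ∈ B)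
    (hT : T ∈ B) (hD : Dd ∈ B) (hJZ : ∀ j ∈ J, j * Z ∈ S)
    (h1 : f * E1 - E1 ∈ J) (h1' : E1 * f - E1 ∈ J) (h0 : E0 - T - f * T * f ∈ J)
    (hff : f * f = 1) (hfD : f * Dd = Dd * f)
    (hτf : Commute τ f) (hτ1 : Commute τ E1) (hτ0 : Commute τ E0) (hτT : Commute τ T)
    (hτD : Commute τ Dd) (hρτ : ρ * (f * τ) - ρ ∈ J) (hZ : f * Z = τ * Z) :
    ρ * ((E1 + E0) * Dd * (E1 + E0)) * Z - ρ * (E1 * Dd * E1) * Z ∈ S := by
  let M : AddSubgroup A := S.comap (AddMonoidHom.mulRight Z)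
  have hJM : ∀ j ∈ J, j ∈ M := fun j hj => hJZ j hj
  have hfτ : ∀ x, x * f - x * τ ∈ M := by
    intro x
    change (x * f - x * τ) * Z ∈ S
    rw [sub_mul, mul_assoc, mul_assoc, hZ, sub_self]
    exact S.zero_mem
  have J3 : ∀ a ∈ B, ∀ j ∈ J, ∀ b ∈ B, a * j * b ∈ J := fun a ha j hj b hb =>
    (hJB _ ((hJB j hj a ha).1) b hb).2
  have mB : ∀ {a b : A}, a ∈ B → b ∈ B → a * b ∈ B := fun ha hb => B.mul_mem ha hb
  -- commutations, in the form `x * (y * z)`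
  have cfD : ∀ z, Dd * (f * z) = f * (Dd * z) := fun z => by
    rw [← mul_assoc, ← hfD, mul_assoc]
  have cτf : ∀ z, τ * (f * z) = f * (τ * z) := fun z => by
    rw [← mul_assoc, hτf.eq, mul_assoc]
  have cτ1 : ∀ z, E1 * (τ * z) = τ * (E1 * z) := fun z => by
    rw [← mul_assoc, ← hτ1.eq, mul_assoc]
  have cτ0 : ∀ z, E0 * (τ * z) = τ * (E0 * z) := fun z => by
    rw [← mul_assoc, ← hτ0.eq, mul_assoc]
  have cτT : ∀ z, T * (τ * z) = τ * (T * z) := fun z => by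
    rw [← mul_assoc, ← hτT.eq, mul_assoc]
  have cτD : ∀ z, Dd * (τ * z) = τ * (Dd * z) := fun z => by
    rw [← mul_assoc, ← hτD.eq, mul_assoc]
  have cff : ∀ z, f * (f * z) = z := fun z => by
    rw [← mul_assoc, hff, one_mul]
  -- `f E0 = E0 f` modulo `J`
  have hfE0 : f * E0 - E0 * f ∈ J := by
    have e : f * E0 - E0 * f = f * (E0 - T - f * T * f) - (E0 - T - f * T * f) * f := by
      simp only [mul_sub, sub_mul, mul_assoc, cff, hff, mul_one]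
      abel
    rw [e]
    exact J.sub_mem (hJB _ h0 _ hf).1 (hJB _ h0 _ hf).2
  -- term 1
  have t1 : ρ * (E1 * (Dd * E0)) ∈ M := by
    have e : ρ * (E1 * (Dd * E0)) = (ρ * E1 * Dd) * (E0 - T - f * T * f) * 1
        + ((ρ * E1 * Dd * f * T) * f - (ρ * E1 * Dd * f * T) * τ)
        + ρ * (E1 * f - E1) * (Dd * T * τ)
        - (ρ * τ) * (f * E1 - E1) * (Dd * T)
        + 1 * (ρ * (f * τ) - ρ) * (E1 * Dd * T) + (ρ * E1 * Dd * T + ρ * E1 * Dd * T) := by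
      simp only [mul_sub, sub_mul, mul_assoc, mul_one, one_mul, cfD, cτf, cτ1, cτT, cτD, ← hτT.eq]
      abel
    rw [e]
    refine M.add_mem (M.add_mem (M.sub_mem (M.add_mem (M.add_mem ?_ ?_) ?_) ?_) ?_) ?_
    · exact hJM _ (J3 _ (mB (mB hρ hE1) hD) _ h0 _ B.one_mem)
    · exact hfτ _
    · exact hJM _ (J3 _ hρ _ h1' _ (mB (mB hD hT) hτ))
    · exact hJM _ (J3 _ (mB hρ hτ) _ h1 _ (mB hD hT))
    · exact hJM _ (J3 _ B.one_mem _ hρτ _ (mB (mB hE1 hD) hT))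
    · exact hJM _ (h2 _ (mB (mB (mB hρ hE1) hD) hT))
  have t2 : ρ * (E0 * (Dd * E1)) ∈ M := by
    have e : ρ * (E0 * (Dd * E1)) = ρ * (E0 - T - f * T * f) * (Dd * E1)
        + (ρ * f * T * Dd) * (f * E1 - E1) * 1
        - (ρ * f * T * Dd) * (E1 * f - E1) * 1
        + ((ρ * f * T * Dd * E1) * f - (ρ * f * T * Dd * E1) * τ)
        + 1 * (ρ * (f * τ) - ρ) * (T * Dd * E1) + (ρ * T * Dd * E1 + ρ * T * Dd * E1) := by
      simp only [mul_sub, sub_mul, mul_assoc, mul_one, one_mul, cfD, cτf, cτ1, cτT, cτD, ← hτ1.eq]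
      abel
    rw [e]
    refine M.add_mem (M.add_mem (M.add_mem (M.sub_mem (M.add_mem ?_ ?_) ?_) ?_) ?_) ?_
    · exact hJM _ (J3 _ hρ _ h0 _ (mB hD hE1))
    · exact hJM _ (J3 _ (mB (mB (mB hρ hf) hT) hD) _ h1 _ B.one_mem)
    · exact hJM _ (J3 _ (mB (mB (mB hρ hf) hT) hD) _ h1' _ B.one_mem)
    · exact hfτ _
    · exact hJM _ (J3 _ B.one_mem _ hρτ _ (mB (mB hT hD) hE1))
    · exact hJM _ (h2 _ (mB (mB (mB hρ hT) hD) hE1))
  have t3 : ρ * (E0 * (Dd * E0)) ∈ M := by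
    have e : ρ * (E0 * (Dd * E0)) = ρ * (E0 - T - f * T * f) * (Dd * E0)
        + (ρ * f * T * Dd) * (f * E0 - E0 * f) * 1
        + ((ρ * f * T * Dd * E0) * f - (ρ * f * T * Dd * E0) * τ)
        + 1 * (ρ * (f * τ) - ρ) * (T * Dd * E0) + (ρ * T * Dd * E0 + ρ * T * Dd * E0) := by
      simp only [mul_sub, sub_mul, mul_assoc, mul_one, one_mul, cfD, cτf, cτ0, cτT, cτD, ← hτ0.eq]
      abel
    rw [e]
    refine M.add_mem (M.add_mem (M.add_mem (M.add_mem ?_ ?_) ?_) ?_) ?_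
    · exact hJM _ (J3 _ hρ _ h0 _ (mB hD hE0))
    · exact hJM _ (J3 _ (mB (mB (mB hρ hf) hT) hD) _ hfE0 _ B.one_mem)
    · exact hfτ _
    · exact hJM _ (J3 _ B.one_mem _ hρτ _ (mB (mB hT hD) hE0))
    · exact hJM _ (h2 _ (mB (mB (mB hρ hT) hD) hE0))
  have t : ρ * (E1 * (Dd * E0)) + ρ * (E0 * (Dd * E1)) + ρ * (E0 * (Dd * E0)) ∈ M :=
    M.add_mem (M.add_mem t1 t2) t3
  change (ρ * (E1 * (Dd * E0)) + ρ * (E0 * (Dd * E1)) + ρ * (E0 * (Dd * E0))) * Z ∈ S at t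
  have e : ρ * ((E1 + E0) * Dd * (E1 + E0)) * Z - ρ * (E1 * Dd * E1) * Z =
      (ρ * (E1 * (Dd * E0)) + ρ * (E0 * (Dd * E1)) + ρ * (E0 * (Dd * E0))) * Z := by
    simp only [mul_add, add_mul, mul_assoc]
    abel
  rw [e]
  exact t

end Pool.PI34.EX
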