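import Pool.Agent.LibPI34.EX_K2
import Pool.Agent.LibPI34.EX_B1

set_option autoImplicit false
set_option linter.unusedSectionVars false
set_option linter.unusedDecidableInType false
set_option linter.unusedFintypeInType false

namespace Pool.PI34.EX

open Equiv Finset
open Pool.PI34.Super (Lt odd pv prs)
open Pool.PI34.SK (W comp ins)
open Pool.PI34.H4 (P g emb As AK)


section R

variable {O : Type} [CommRing O] {k l m : ℕ} {ι : Type} [Fintype ι] [LinearOrder ι] {r : O}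
variable {V : VD (m + 1)} {Wd : WD ((m + 1) ^ (m + 1))}

theorem pf_kill2 (hr : r * r = 2) (z z' : P ι) (h : Kill (Lt k l) (z - 2 * z')) :
    ∃ x ∈ FR k l ι r 0, pf O k l ι z = r • x := by
  have h1 := pa_zero (R := O) h
  rw [map_sub, map_mul, map_ofNat, sub_eq_zero] at h1
  refine ⟨r • pf O k l ι z', Submodule.smul_mem _ _ (pf_mem z'), ?_⟩
  rw [smul_smul, hr]
  refine h1.trans ?_
  rw [two_mul, two_smul]

/-- ROW R6: congruences modulo `2` become multiples of `r`. -/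
theorem pf_K2 (hr : r * r = 2) (hm : k + l = m + 1) {α : Type} [Fintype α] [DecidableEq α]
    (e : α ↪ ι) {y : P α} (hy : K2 (Fin (m + 1)) y) :
    ∃ x ∈ FR k l ι r 0, pf O k l ι (emb e y) = r • x := by
  obtain ⟨y', hy'⟩ := hy
  have hc : Fintype.card (Lt k l) ≤ Fintype.card (Fin (m + 1)) := by
    simp [hm]
  have h1 : Kill (Lt k l) (emb e (y - 2 * y')) := kill_emb e (kill_card hc hy')
  rw [map_sub, map_mul, map_ofNat] at h1
  exact pf_kill2 hr _ _ h1

/-- ROW R7. -/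
theorem pf_bw_K2 (hr : r * r = 2) (hm : k + l = m + 1) (e : I0 m V Wd ↪ ι)
    {y : P (Wd.Y ⊕ Fin (JJ m + 1))} (hy : K2 (Fin ((m + 1) ^ (m + 1))) y) :
    ∃ x ∈ FR k l ι r 0, pf O k l ι (emb e (bw y)) = r • x := by
  obtain ⟨y', hy'⟩ := hy
  have hc : Fintype.card (Fin (m + 1) → Lt k l) ≤ Fintype.card (Fin ((m + 1) ^ (m + 1))) := by
    simp [hm]
  have h0 : Kill (Lt k l) (bl (m + 1) (y - 2 * y')) := (kill_bl (m + 1)).2 (kill_card hc hy')
  have h1 : Kill (Lt k l) (emb e (emb (Function.Embedding.inl :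
      ((Wd.Y ⊕ Fin (JJ m + 1)) × Fin (m + 1)) ↪ I0 m V Wd) (bl (m + 1) (y - 2 * y')))) :=
    kill_emb e (kill_emb _ h0)
  rw [map_sub, map_mul, map_ofNat, map_sub, map_mul, map_ofNat, map_sub, map_mul, map_ofNat] at h1
  exact pf_kill2 hr _ _ h1

end R

end Pool.PI34.EX
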