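import Pool.Agent.LibPI34.EX_R2
import Pool.Agent.LibPI34.EX_R5
import Pool.Agent.LibPI34.EX_R6

set_option autoImplicit false
set_option linter.unusedSectionVars false
set_option linter.unusedDecidableInType false
set_option linter.unusedFintypeInType false

namespace Pool.PI34.EX

open Equiv Finset
open Pool.PI34.Super (Lt odd pv prs)
open Pool.PI34.SK (W comp ins)
open Pool.PI34.H4 (P g emb As AK)


section R

variable {O : Type} [CommRing O] {k l m : ℕ} {ι : Type} [Fintype ι] [LinearOrder ι] {r : O}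
variable {V : VD (m + 1)} {Wd : WD ((m + 1) ^ (m + 1))}

/-! ### Row R8 -/

theorem FR0_mul {x y : EW O k l ι} (hx : x ∈ FR k l ι r 0) (hy : y ∈ FR k l ι r 0) :
    x * y ∈ FR k l ι r 0 := by
  have h := FR_mul hx hy
  rwa [Nat.add_zero] at h

theorem FR0_one : (1 : EW O k l ι) ∈ FR k l ι r 0 := by
  have h := pf_mem (O := O) (k := k) (l := l) (r := r) (1 : P ι)
  rwa [map_one] at h

/-- `F⁰` as a subring. -/
def FRs (O : Type) [CommRing O] (k l : ℕ) (ι : Type) [Fintype ι] [LinearOrder ι] (r : O) :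
    Subring (EW O k l ι) where
  carrier := {x | x ∈ FR k l ι r 0}
  mul_mem' := fun ha hb => FR0_mul ha hb
  one_mem' := FR0_one
  add_mem' := fun ha hb => Submodule.add_mem (FR k l ι r 0) ha hb
  zero_mem' := Submodule.zero_mem (FR k l ι r 0)
  neg_mem' := fun ha => Submodule.neg_mem (FR k l ι r 0) ha

theorem mem_FRs {x : EW O k l ι} : x ∈ FRs O k l ι r ↔ x ∈ FR k l ι r 0 := by
  unfold FRs
  rfl

/-- `r F⁰ Y`. -/
def Sr (r : O) (Y : EW O k l ι) : AddSubgroup (EW O k l ι) where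
  carrier := {x | ∃ b ∈ FR k l ι r 0, x = r • (b * Y)}
  add_mem' := by
    rintro _ _ ⟨b, hb, rfl⟩ ⟨c, hc, rfl⟩
    exact ⟨b + c, Submodule.add_mem _ hb hc, by rw [add_mul, smul_add]⟩
  zero_mem' := ⟨0, Submodule.zero_mem _, by rw [zero_mul, smul_zero]⟩
  neg_mem' := by
    rintro _ ⟨b, hb, rfl⟩
    exact ⟨-b, Submodule.neg_mem _ hb,
      (smul_neg r (b * Y)).symm.trans (congrArg (fun z => r • z) (neg_mul b Y).symm)⟩

theorem mem_Sr {Y x : EW O k l ι} : x ∈ Sr r Y ↔ ∃ b ∈ FR k l ι r 0, x = r • (b * Y) := Iff.rfl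

theorem Sr_mul {Y x b : EW O k l ι} (hb : b ∈ FR k l ι r 0) (hx : x ∈ Sr r Y) : b * x ∈ Sr r Y := by
  obtain ⟨c, hc, rfl⟩ := hx
  exact ⟨b * c, FR0_mul hb hc, by rw [mul_smul_comm, mul_assoc]⟩

theorem Sr_of {Y x b : EW O k l ι} (hx : x ∈ Sr r (1 : EW O k l ι)) (hb : b ∈ FR k l ι r 0) :
    x * (b * Y) ∈ Sr r Y := by
  obtain ⟨c, hc, rfl⟩ := hx
  exact ⟨c * b, FR0_mul hc hb, by rw [mul_one, smul_mul_assoc, mul_assoc]⟩

theorem comm_fix {α β : Type} (s : Perm β) (κ : α ↪ β) (hs : ∀ x, s (κ x) = κ x) (σ : Perm α) :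
    Commute (g (σ.viaEmbedding κ)) (g s) := by
  unfold Commute SemiconjBy
  rw [← H4.g_mul, ← H4.g_mul]
  congr 1
  ext z
  simp only [Perm.mul_apply]
  by_cases hz : z ∈ Set.range κ
  · obtain ⟨x, rfl⟩ := hz
    rw [hs, Perm.viaEmbedding_apply, hs]
  · have h1 : s z ∉ Set.range κ := by
      rintro ⟨x, hx⟩
      apply hz
      refine ⟨x, ?_⟩
      apply s.injective
      rw [hs, hx]
    rw [Perm.viaEmbedding_apply_of_notMem _ _ _ hz, Perm.viaEmbedding_apply_of_notMem _ _ _ h1]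

theorem zz_comm_AS (s : Finset (Fin (JJ m + 1))) : Commute (zz : P (I0 m V Wd)) (AS s) := by
  unfold zz AS H4.AK
  refine H4.commute_of_g _ (fun σ => ?_) _
  refine Commute.sum_right _ _ _ fun t ht => ?_
  refine Commute.smul_right ?_ _
  refine comm_fix t _ (fun x => ?_) σ
  rw [Finset.mem_filter] at ht
  refine ht.2.2 _ ?_
  rw [Finset.mem_map]
  rintro ⟨b, -, hb⟩
  simp [col] at hb

theorem zz_comm_bw (y : P (Wd.Y ⊕ Fin (JJ m + 1))) : Commute (zz : P (I0 m V Wd)) (bw y) :=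
  H4.commute_emb_emb _ _ (fun x y h => by simp at h) _ _

theorem map_fix {π : Perm ι} {S : Finset ι} (h : ∀ x ∈ S, π x = x) : S.map π.toEmbedding = S := by
  ext x
  rw [Finset.mem_map]
  constructor
  · rintro ⟨y, hy, rfl⟩
    rw [Equiv.coe_toEmbedding, h y hy]
    exact hy
  · intro hx
    exact ⟨x, hx, h x hx⟩

theorem zz_comm_ds (e : I0 m V Wd ↪ ι) (s : Finset (Fin (JJ m + 1))) :
    Commute (pf O k l ι (emb e zz)) (ds r ((P0 s).map e)) := by
  unfold zz
  refine H4.P_induction (p := fun y => Commute (pf O k l ι (emb e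
    (emb (Function.Embedding.inr : V.X ↪ I0 m V Wd) y))) (ds r ((P0 s).map e))) V.z ?_ ?_ ?_
  · intro σ
    rw [H4.emb_g, H4.emb_g]
    unfold Commute SemiconjBy
    rw [pf_ds, map_fix]
    intro x hx
    rw [Finset.mem_map] at hx
    obtain ⟨y, hy, rfl⟩ := hx
    rw [P0, Finset.mem_map] at hy
    obtain ⟨b, -, rfl⟩ := hy
    rw [Perm.viaEmbedding_apply, Perm.viaEmbedding_apply_of_notMem]
    rintro ⟨x, hx⟩
    exact absurd hx (by change (Sum.inr x : I0 m V Wd) ≠ Sum.inl _; simp)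
  · intro a b ha hb
    rw [map_add, map_add, map_add]
    exact Commute.add_left ha hb
  · intro n a ha
    rw [H4.emb_zsmul, H4.emb_zsmul, map_zsmul]
    exact Commute.smul_left ha n

theorem zz_Om (hm : k + l = m + 1) (e : I0 m V Wd ↪ ι) :
    ∃ c : ℤ, pf O k l ι (emb e zz) * Om O k l e = (2 * c + 1) • Om O k l e := by
  obtain ⟨c, hz⟩ := V.hzz
  refine ⟨c, ?_⟩
  have h1 : Kill (Lt k l) (V.z * V.z - (2 * c + 1) • V.z) :=
    kill_card (L' := Fin (m + 1)) (by simp [hm]) hz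
  have h2 := pa_zero (R := O) (kill_emb e (kill_emb (Function.Embedding.inr : V.X ↪ I0 m V Wd) h1))
  have h3 : pf O k l ι (emb e zz) * pf O k l ι (emb e (zz : P (I0 m V Wd))) =
      (2 * c + 1) • pf O k l ι (emb e zz) := by
    rw [map_sub, map_sub, map_sub, map_mul, map_mul, map_mul, H4.emb_zsmul, H4.emb_zsmul, map_zsmul,
      sub_eq_zero] at h2
    exact h2
  have h4 : (zz : P (I0 m V Wd)) * ww = ww * zz := (zz_comm_bw _).eq
  have h5 : (zz : P (I0 m V Wd)) * (AS univ * ww * zz) = AS univ * ww * (zz * zz) := by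
    rw [← mul_assoc, ← mul_assoc, (zz_comm_AS (univ : Finset (Fin (JJ m + 1)))).eq,
      mul_assoc _ zz ww, h4, ← mul_assoc, mul_assoc _ zz zz]
  unfold Om Om0
  rw [← map_mul, ← map_mul, h5, map_mul, map_mul, map_mul (emb e) zz, map_mul (pf O k l ι) (emb e zz),
    h3, mul_smul_comm, ← map_mul, ← map_mul]

theorem emb_fa (a : Fin (JJ m)) :
    (fa a : P (I0 m V Wd)) = emb (vE a) (g (swap (Sum.inr 0) (Sum.inr 1))) := by
  rw [H4.emb_g, fa]
  congr 1
  have h0 : (p0 a.castSucc : I0 m V Wd) = vE a (Sum.inr 0) := rfl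
  have h1 : (p0 a.succ : I0 m V Wd) = vE a (Sum.inr 1) := rfl
  rw [h0, h1]
  ext z
  by_cases hz : z ∈ Set.range (vE a : V.X ⊕ Fin 2 ↪ I0 m V Wd)
  · obtain ⟨x, rfl⟩ := hz
    rw [Perm.viaEmbedding_apply]
    by_cases hx0 : x = Sum.inr 0
    · subst hx0; rw [swap_apply_left, swap_apply_left]
    · by_cases hx1 : x = Sum.inr 1
      · subst hx1; rw [swap_apply_right, swap_apply_right]
      · rw [swap_apply_of_ne_of_ne hx0 hx1, swap_apply_of_ne_of_ne]
        · exact fun h => hx0 ((vE a).injective h)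
        · exact fun h => hx1 ((vE a).injective h)
  · rw [Perm.viaEmbedding_apply_of_notMem _ _ _ hz, swap_apply_of_ne_of_ne]
    · rintro rfl; exact hz ⟨_, rfl⟩
    · rintro rfl; exact hz ⟨_, rfl⟩

theorem r8_ds_split (e : I0 m V Wd ↪ ι) (s : Finset (Fin (JJ m + 1))) :
    (ds r ((P0 univ).map e) : EW O k l ι) =
      ds r ((P0 s).map e) * ds r ((P0 (univ \ s)).map e) := by
  have h1 : (P0 s).map e ∩ (P0 (univ \ s)).map e = ∅ := by
    unfold P0
    rw [← Finset.map_inter, ← Finset.map_inter, Finset.inter_sdiff_self, Finset.map_empty,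
      Finset.map_empty]
  have h2 : (P0 s).map e ∪ (P0 (univ \ s)).map e = (P0 univ).map e := by
    unfold P0
    rw [← Finset.map_union, ← Finset.map_union, Finset.union_sdiff_of_subset (Finset.subset_univ s)]
  rw [ds_mul, h1, h2, Finset.card_empty, pow_zero, one_smul]

theorem ds_mem0 (S : Finset ι) : (ds r S : EW O k l ι) ∈ FR k l ι r 0 :=
  FR_mono (Nat.zero_le _) (ds_mem S)

theorem J_mem {x : EW O k l ι} (h : ∃ b ∈ FR k l ι r 0, x = r • b) : x ∈ Sr r (1 : EW O k l ι) := by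
  obtain ⟨b, hb, rfl⟩ := h
  exact ⟨b, hb, by rw [mul_one]⟩

theorem fa_Dd (e : I0 m V Wd ↪ ι) (a : Fin (JJ m)) :
    pf O k l ι (emb e (fa a)) * ds r ((P0 {a.castSucc, a.succ}).map e) =
      ds r ((P0 {a.castSucc, a.succ}).map e) * pf O k l ι (emb e (fa a)) := by
  have h : emb e (fa a : P (I0 m V Wd)) = g (swap (e (p0 a.castSucc)) (e (p0 a.succ))) := by
    rw [fa, H4.emb_g]
    congr 1
    ext z
    by_cases hz : z ∈ Set.range e
    · obtain ⟨x, rfl⟩ := hz
      rw [Perm.viaEmbedding_apply]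
      by_cases hx0 : x = p0 a.castSucc
      · subst hx0; rw [swap_apply_left, swap_apply_left]
      · by_cases hx1 : x = p0 a.succ
        · subst hx1; rw [swap_apply_right, swap_apply_right]
        · rw [swap_apply_of_ne_of_ne hx0 hx1, swap_apply_of_ne_of_ne]
          · exact fun h => hx0 (e.injective h)
          · exact fun h => hx1 (e.injective h)
    · rw [Perm.viaEmbedding_apply_of_notMem _ _ _ hz, swap_apply_of_ne_of_ne]
      · rintro rfl; exact hz ⟨_, rfl⟩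
      · rintro rfl; exact hz ⟨_, rfl⟩
  rw [h, pf_ds]
  congr 2
  have hP : (P0 {a.castSucc, a.succ} : Finset (I0 m V Wd)).map e
      = {e (p0 a.castSucc), e (p0 a.succ)} := by
    unfold P0
    rw [Finset.map_insert, Finset.map_singleton, Finset.map_insert, Finset.map_singleton]
    rfl
  rw [hP, Finset.map_insert, Finset.map_singleton, Equiv.coe_toEmbedding, swap_apply_left,
    swap_apply_right, Finset.pair_comm]

/-- ROW R8: the case of one pair. -/
theorem red_pair (hr : r * r = 2) (hm : k + l = m + 1) (e : I0 m V Wd ↪ ι) (a : Fin (JJ m)) :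
    ∃ b ∈ FR k l ι r 0,
      pf O k l ι (emb e (bw (Wd.rho a))) * (ds r ((P0 univ).map e) * Om O k l e) -
        pf O k l ι (emb e (bw (Wd.rho a))) *
          (pf O k l ι (emb e (emb (vE a) V.e1)) * ds r ((P0 {a.castSucc, a.succ}).map e) *
            pf O k l ι (emb e (emb (vE a) V.e1))) *
              (ds r ((P0 (univ \ {a.castSucc, a.succ})).map e) * Om O k l e) =
      r • (b * Om O k l e) := by
  rw [← mem_Sr]
  set Y := Om O k l e with hY
  set R' := pf O k l ι (emb e (bw (Wd.rho a))) with hR'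
  set Dd : EW O k l ι := ds r ((P0 {a.castSucc, a.succ}).map e) with hDd
  set D2 : EW O k l ι := ds r ((P0 (univ \ {a.castSucc, a.succ})).map e) with hD2
  set E1 := pf O k l ι (emb e (emb (vE a) V.e1)) with hE1
  set E0 := pf O k l ι (emb e (emb (vE a) V.e0)) with hE0
  set T := pf O k l ι (emb e (emb (vE a) V.th)) with hT
  set F := pf O k l ι (emb e (fa a)) with hF
  set Ta := pf O k l ι (emb e (tau a)) with hTa
  set Q := pf O k l ι (emb e zz) with hQ
  have htc := fun y => tau_comm (V := V) (Wd := Wd) a y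
  have hB0 : ∀ y : P ι, pf O k l ι y ∈ FR k l ι r 0 := fun y => pf_mem y
  have hDdm : Dd ∈ FR k l ι r 0 := ds_mem0 _
  have hD2m : D2 ∈ FR k l ι r 0 := ds_mem0 _
  have K : ∀ y : P (V.X ⊕ Fin 2), K2 (Fin (m + 1)) y →
      pf O k l ι (emb e (emb (vE a) y)) ∈ Sr r (1 : EW O k l ι) := fun y hy => by
    rw [H4.emb_trans]
    exact J_mem (pf_K2 hr hm _ hy)
  have hcomm : ∀ y : P (V.X ⊕ Fin 2), Commute Ta (pf O k l ι (emb e (emb (vE a) y))) := fun y =>
    ((htc y).1.map (emb e)).map (pf O k l ι)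
  have hFe : F = pf O k l ι (emb e (emb (vE a) (g (swap (Sum.inr 0) (Sum.inr 1))))) := by
    rw [hF, emb_fa]
  -- the abstract computation
  have key := red_abs (FRs O k l ι r) (Sr r Y) (Sr r (1 : EW O k l ι))
    (ρ := R') (f := F) (τ := Ta) (E1 := E1) (E0 := E0) (T := T) (Dd := Dd) (Z := D2 * Y)
    (by
      intro j hj b hb
      rw [mem_FRs] at hb
      refine ⟨Sr_mul hb hj, ?_⟩
      obtain ⟨c, hc, rfl⟩ := hj
      exact ⟨c * b, FR0_mul hc hb, by rw [mul_one, mul_one, smul_mul_assoc]⟩)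
    (by
      intro b hb
      rw [mem_FRs] at hb
      refine ⟨r • b, Submodule.smul_mem _ _ hb, ?_⟩
      rw [mul_one, smul_smul, hr, two_smul])
    (mem_FRs.2 (hB0 _)) (mem_FRs.2 (hB0 _)) (mem_FRs.2 (hB0 _)) (mem_FRs.2 (hB0 _))
    (mem_FRs.2 (hB0 _)) (mem_FRs.2 (hB0 _)) (mem_FRs.2 hDdm)
    (fun j hj => Sr_of hj hD2m)
    (by
      have h := K _ V.hfe
      rwa [map_sub, map_mul, map_sub, map_mul, map_sub, map_mul, ← hFe] at h)
    (by
      have h := K _ V.hef
      rwa [map_sub, map_mul, map_sub, map_mul, map_sub, map_mul, ← hFe] at h)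
    (by
      have h := K _ V.hth
      rwa [map_sub, map_sub, map_mul, map_mul, map_sub, map_sub, map_mul, map_mul, map_sub, map_sub,
        map_mul, map_mul, ← hFe] at h)
    (by
      rw [hF, ← map_mul, ← map_mul, (htc 0).2.2.1, map_one, map_one])
    (fa_Dd e a)
    (by
      rw [hFe]
      exact hcomm _)
    (hcomm _) (hcomm _) (hcomm _)
    (tau_ds e a _).1
    (by
      have h1 : F * Ta = pf O k l ι (emb e (ba a)) := by
        rw [hF, hTa, ← map_mul, ← map_mul, tau, ← mul_assoc, (htc 0).2.2.1, one_mul]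
      rw [h1, hR', ← map_mul, ← map_mul, ← map_sub, ← map_sub]
      have h2 : bw (Wd.rho a) * ba a - bw (Wd.rho a) = (bw (Wd.rho a *
          g (swap (Sum.inr a.castSucc) (Sum.inr a.succ)) - Wd.rho a) : P (I0 m V Wd)) := by
        unfold ba bw
        rw [← map_mul, ← map_mul, ← map_sub, ← map_sub]
      rw [h2]
      exact J_mem (pf_bw_K2 hr hm e (Wd.hrs a)))
    (by
      have h1 : F * Y = Ta * Y := by
        have h2 : Y = pf O k l ι (emb e (AS univ)) * pf O k l ι (emb e (ww * zz)) := by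
          rw [hY, Om, Om0, ← map_mul, ← map_mul, mul_assoc]
        have h3 : Ta * pf O k l ι (emb e (AS univ)) = F * pf O k l ι (emb e (AS univ)) := by
          rw [hTa, tau, map_mul, map_mul, mul_assoc, ← map_mul (pf O k l ι) (emb e (ba a)),
            ← map_mul (emb e) (ba a), ba_AS hm]
        rw [h2, ← mul_assoc, ← mul_assoc, h3]
      have h2 := (tau_ds (O := O) (k := k) (l := l) (r := r) e a (univ \ {a.castSucc, a.succ})).1
      have h3 := (tau_ds (O := O) (k := k) (l := l) (r := r) e a (univ \ {a.castSucc, a.succ})).2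
        (by simp) (by simp)
      rw [← mul_assoc, h3.eq, mul_assoc, h1, ← mul_assoc, ← h2.eq, mul_assoc])
  -- the idempotent
  obtain ⟨c, hQY⟩ := zz_Om (O := O) (k := k) (l := l) hm e
  obtain ⟨h, hh⟩ : ∃ h : ℤ, h = 2 * c + 1 := ⟨_, rfl⟩
  rw [← hh] at hQY
  have hQE : Q - (E1 + E0) ∈ Sr r (1 : EW O k l ι) := by
    have h1 := K _ V.hsum
    have h2 : (zz : P (I0 m V Wd)) = emb (vE a) (emb Function.Embedding.inl V.z) := by
      rw [H4.emb_trans]
      rfl
    rw [map_sub, map_sub, map_sub, map_sub, map_sub, map_sub, ← h2, ← hQ, sub_sub] at h1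
    exact h1
  have hQD : Q * Dd = Dd * Q := (zz_comm_ds e _).eq
  have hQD2 : Q * D2 = D2 * Q := (zz_comm_ds e _).eq
  have hQZ : Q * (D2 * Y) = h • (D2 * Y) := by
    rw [← mul_assoc, hQD2, mul_assoc, hQY, mul_smul_comm]
  have hD : (ds r ((P0 univ).map e) : EW O k l ι) * Y = Dd * (D2 * Y) := by
    rw [r8_ds_split e {a.castSucc, a.succ}, mul_assoc]
  rw [hD]
  set j0 := Q - (E1 + E0) with hj0
  have hE : E1 + E0 = Q - j0 := by rw [hj0]; abel
  rw [hE] at key
  have hRm : R' ∈ FR k l ι r 0 := hB0 _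
  have hQm : Q ∈ FR k l ι r 0 := hB0 _
  have hj : ∀ b ∈ FR k l ι r 0, j0 * (b * Y) ∈ Sr r Y := fun b hb => Sr_of hQE hb
  have hRQ : R' * ((Q - j0) * Dd * (Q - j0)) * (D2 * Y) =
      (h * h) • (R' * (Dd * (D2 * Y))) - h • (R' * (j0 * (Dd * (D2 * Y))))
        - R' * (Q * (Dd * (j0 * (D2 * Y)))) + R' * (j0 * (Dd * (j0 * (D2 * Y)))) := by
    have e1 : (Q - j0) * (D2 * Y) = h • (D2 * Y) - j0 * (D2 * Y) := by
      rw [sub_mul, hQZ]
    have e2 : Q * (Dd * (D2 * Y)) = h • (Dd * (D2 * Y)) := by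
      rw [← mul_assoc, hQD, mul_assoc, hQZ, mul_smul_comm]
    rw [mul_assoc, mul_assoc _ (Q - j0), e1, mul_assoc, mul_sub Dd, mul_smul_comm, sub_mul,
      mul_sub Q, mul_smul_comm, e2, smul_smul, mul_sub j0, mul_smul_comm, mul_sub, mul_sub, mul_sub,
      mul_smul_comm, mul_smul_comm]
    abel
  have hodd : ∃ u : ℤ, h * h - 1 = u * 2 := by
    exact ⟨2 * c * (c + 1), by rw [hh]; ring⟩
  obtain ⟨u, hu⟩ := hodd
  have hmain : R' * (Dd * (D2 * Y)) - R' * ((Q - j0) * Dd * (Q - j0)) * (D2 * Y) ∈ Sr r Y := by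
    rw [hRQ]
    have t1 : (h * h - 1) • (R' * (Dd * (D2 * Y))) ∈ Sr r Y := by
      rw [hu, mul_smul]
      refine AddSubgroup.zsmul_mem _ ?_ _
      refine ⟨r • (R' * (Dd * D2)), Submodule.smul_mem _ _ (FR0_mul hRm (FR0_mul hDdm hD2m)), ?_⟩
      rw [smul_mul_assoc, smul_smul, hr]
      rw [mul_assoc, mul_assoc]
      rw [two_smul, two_smul]
    have t2 : R' * (j0 * (Dd * (D2 * Y))) ∈ Sr r Y := by
      refine Sr_mul hRm ?_
      rw [← mul_assoc Dd]
      exact hj _ (FR0_mul hDdm hD2m)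
    have t3 : R' * (Q * (Dd * (j0 * (D2 * Y)))) ∈ Sr r Y :=
      Sr_mul hRm (Sr_mul hQm (Sr_mul hDdm (hj _ hD2m)))
    have t4 : R' * (j0 * (Dd * (j0 * (D2 * Y)))) ∈ Sr r Y := by
      refine Sr_mul hRm ?_
      have h5 := Sr_mul hDdm (hj _ hD2m)
      obtain ⟨c, hc, hc'⟩ := h5
      rw [hc', mul_smul_comm]
      obtain ⟨c', hc1, hc2⟩ := hj c hc
      rw [hc2]
      exact ⟨r • c', Submodule.smul_mem _ _ hc1, by rw [smul_mul_assoc]⟩
    have e3 : R' * (Dd * (D2 * Y)) - ((h * h) • (R' * (Dd * (D2 * Y))) -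
        h • (R' * (j0 * (Dd * (D2 * Y)))) - R' * (Q * (Dd * (j0 * (D2 * Y)))) +
          R' * (j0 * (Dd * (j0 * (D2 * Y))))) =
        -((h * h - 1) • (R' * (Dd * (D2 * Y)))) + h • (R' * (j0 * (Dd * (D2 * Y))))
          + R' * (Q * (Dd * (j0 * (D2 * Y)))) - R' * (j0 * (Dd * (j0 * (D2 * Y)))) := by
      rw [sub_smul, one_smul]
      abel
    rw [e3]
    exact AddSubgroup.sub_mem _ (AddSubgroup.add_mem _ (AddSubgroup.add_mem _
      (AddSubgroup.neg_mem _ t1) (AddSubgroup.zsmul_mem _ t2 _)) t3) t4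
  have hfin := AddSubgroup.add_mem _ hmain key
  have e4 : R' * (Dd * (D2 * Y)) - R' * ((Q - j0) * Dd * (Q - j0)) * (D2 * Y) +
      (R' * ((Q - j0) * Dd * (Q - j0)) * (D2 * Y) - R' * (E1 * Dd * E1) * (D2 * Y)) =
      R' * (Dd * (D2 * Y)) - R' * (E1 * Dd * E1) * (D2 * Y) := by abel
  rw [e4] at hfin
  exact hfin

end R

end Pool.PI34.EX
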