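import Pool.Agent.LibPI34.EX_R8

set_option autoImplicit false
set_option linter.unusedSectionVars false
set_option linter.unusedDecidableInType false
set_option linter.unusedFintypeInType false

namespace Pool.PI34.EX

open Equiv Finset
open Pool.PI34.Super (Lt odd pv prs)
open Pool.PI34.SK (W comp ins)
open Pool.PI34.H4 (P g emb As AK)

section R

variable {O : Type} [CommRing O] {k l m : ℕ} {ι : Type} [Fintype ι] [LinearOrder ι] {r : O}
variable {V : VD (m + 1)} {Wd : WD ((m + 1) ^ (m + 1))}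



/-! ### Row R9 -/

/-- The places of the element `w`. -/
def kw : Wd.Y × Fin (m + 1) ↪ I0 m V Wd :=
  ⟨fun x => Sum.inl (Sum.inl x.1, x.2), fun x y h => by
    have h1 : ((Sum.inl x.1, x.2) : (Wd.Y ⊕ Fin (JJ m + 1)) × Fin (m + 1)) =
        (Sum.inl y.1, y.2) := Sum.inl_injective h
    have h2 : x.1 = y.1 := Sum.inl_injective (Prod.mk.inj h1).1
    have h3 : x.2 = y.2 := (Prod.mk.inj h1).2
    exact Prod.ext h2 h3⟩

theorem kw_ne (x : Wd.Y × Fin (m + 1)) (b : Fin (JJ m + 1)) (i : Fin (m + 1)) :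
    (kw x : I0 m V Wd) ≠ Sum.inl (Sum.inr b, i) := by
  intro h
  have h1 := congrArg Prod.fst (Sum.inl_injective h)
  simp at h1

theorem bw_emb_g (σ : Perm Wd.Y) :
    (bw (emb Function.Embedding.inl (g σ)) : P (I0 m V Wd)) = emb kw (bl (m + 1) (g σ)) := by
  have hb : ∀ {β : Type} (τ : Perm β), (bl (m + 1) (g τ) : P (β × Fin (m + 1))) =
      g (τ.prodCongr (Equiv.refl _)) := by
    intro β τ
    exact bl_g (m + 1) τ
  unfold bw
  rw [H4.emb_g, hb, H4.emb_g, hb, H4.emb_g]
  congr 1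
  ext z
  rcases z with ⟨y | b, i⟩ | x
  · have h1 : (Sum.inl (Sum.inl y, i) : I0 m V Wd) = Function.Embedding.inl (Sum.inl y, i) := rfl
    have h2 : (Sum.inl (Sum.inl y, i) : I0 m V Wd) = kw (y, i) := rfl
    conv_lhs => rw [h1, Perm.viaEmbedding_apply]
    conv_rhs => rw [h2, Perm.viaEmbedding_apply]
    change (Sum.inl ((σ.viaEmbedding Function.Embedding.inl) (Sum.inl y), i) : I0 m V Wd) =
      Sum.inl (Sum.inl (σ y), i)
    have h3 : (σ.viaEmbedding (Function.Embedding.inl : Wd.Y ↪ Wd.Y ⊕ Fin (JJ m + 1)))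
        (Function.Embedding.inl y) = Function.Embedding.inl (σ y) := Perm.viaEmbedding_apply _ _ _
    exact congrArg (fun t => (Sum.inl (t, i) : I0 m V Wd)) h3
  · have h1 : (Sum.inl (Sum.inr b, i) : I0 m V Wd) = Function.Embedding.inl (Sum.inr b, i) := rfl
    conv_lhs => rw [h1, Perm.viaEmbedding_apply]
    have hnot : (Sum.inl (Sum.inr b, i) : I0 m V Wd) ∉
        Set.range (kw : Wd.Y × Fin (m + 1) ↪ I0 m V Wd) := by
      rintro ⟨y, hy⟩
      exact kw_ne y b i hy
    conv_rhs => rw [Perm.viaEmbedding_apply_of_notMem _ _ _ hnot]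
    · have h3 : (σ.viaEmbedding (Function.Embedding.inl : Wd.Y ↪ Wd.Y ⊕ Fin (JJ m + 1)))
          (Sum.inr b) = Sum.inr b := by
        apply Perm.viaEmbedding_apply_of_notMem
        rintro ⟨y, hy⟩
        exact absurd hy (by simp)
      exact congrArg (fun t => (Sum.inl (t, i) : I0 m V Wd)) h3
  · rw [Perm.viaEmbedding_apply_of_notMem, Perm.viaEmbedding_apply_of_notMem]
    · rintro ⟨y, hy⟩
      exact absurd hy (by change (Sum.inl _ : I0 m V Wd) ≠ Sum.inr x; simp)
    · rintro ⟨y, hy⟩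
      exact absurd hy (by change (Sum.inl y : I0 m V Wd) ≠ Sum.inr x; simp)

theorem bw_emb (y : P Wd.Y) :
    (bw (emb Function.Embedding.inl y) : P (I0 m V Wd)) = emb kw (bl (m + 1) y) := by
  refine H4.P_induction (p := fun y => (bw (emb Function.Embedding.inl y) : P (I0 m V Wd)) =
    emb kw (bl (m + 1) y)) y (fun σ => bw_emb_g σ) ?_ ?_
  · intro a b ha hb
    have h1 : (bw (emb Function.Embedding.inl (a + b)) : P (I0 m V Wd)) =
        bw (emb Function.Embedding.inl a) + bw (emb Function.Embedding.inl b) := by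
      unfold bw
      rw [map_add, map_add, map_add]
    rw [h1, ha, hb, map_add, map_add]
  · intro n a ha
    have h1 : (bw (emb Function.Embedding.inl (n • a)) : P (I0 m V Wd)) =
        n • bw (emb Function.Embedding.inl a) := by
      unfold bw
      rw [map_zsmul, map_zsmul, map_zsmul]
    rw [h1, ha, map_zsmul, map_zsmul]

theorem r9_ww_eq : (ww : P (I0 m V Wd)) = emb kw (bl (m + 1) Wd.w) := bw_emb _

theorem comm_fix9 {α β : Type} (s : Perm β) (κ : α ↪ β) (hs : ∀ x, s (κ x) = κ x) (σ : Perm α) :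
    Commute (g (σ.viaEmbedding κ)) (g s) := by
  unfold Commute SemiconjBy
  rw [← H4.g_mul, ← H4.g_mul]
  congr 1
  ext z
  simp only [Perm.mul_apply]
  by_cases hz : z ∈ Set.range κ
  · obtain ⟨x, rfl⟩ := hz
    rw [hs, Perm.viaEmbedding_apply, hs]
  · have h1 : s z ∉ Set.range κ := by
      rintro ⟨x, hx⟩
      apply hz
      refine ⟨x, ?_⟩
      apply s.injective
      rw [hs, hx]
    rw [Perm.viaEmbedding_apply_of_notMem _ _ _ hz, Perm.viaEmbedding_apply_of_notMem _ _ _ h1]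

theorem ww_comm_AS (s : Finset (Fin (JJ m + 1))) : Commute (ww : P (I0 m V Wd)) (AS s) := by
  rw [r9_ww_eq]
  unfold AS H4.AK
  refine H4.commute_of_g _ (fun σ => ?_) _
  refine Commute.sum_right _ _ _ fun t ht => ?_
  refine Commute.smul_right ?_ _
  refine comm_fix9 t _ (fun x => ?_) σ
  rw [Finset.mem_filter] at ht
  refine ht.2.2 _ ?_
  rw [Finset.mem_map]
  rintro ⟨b, -, hb⟩
  simp [col, kw] at hb

theorem map_fix9 {π : Perm ι} {S : Finset ι} (h : ∀ x ∈ S, π x = x) :
    S.map π.toEmbedding = S := by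
  ext x
  rw [Finset.mem_map]
  constructor
  · rintro ⟨y, hy, rfl⟩
    rw [Equiv.coe_toEmbedding, h y hy]
    exact hy
  · intro hx
    exact ⟨x, hx, h x hx⟩

theorem ww_comm_ds (e : I0 m V Wd ↪ ι) (s : Finset (Fin (JJ m + 1))) :
    Commute (pf O k l ι (emb e ww)) (ds r ((P0 s).map e)) := by
  rw [r9_ww_eq]
  refine H4.P_induction (p := fun y => Commute (pf O k l ι (emb e
    (emb (kw : Wd.Y × Fin (m + 1) ↪ I0 m V Wd) y))) (ds r ((P0 s).map e))) (bl (m + 1) Wd.w)
      ?_ ?_ ?_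
  · intro σ
    rw [H4.emb_g, H4.emb_g]
    unfold Commute SemiconjBy
    rw [pf_ds, map_fix9]
    intro x hx
    rw [Finset.mem_map] at hx
    obtain ⟨y, hy, rfl⟩ := hx
    rw [P0, Finset.mem_map] at hy
    obtain ⟨b, -, rfl⟩ := hy
    rw [Perm.viaEmbedding_apply, Perm.viaEmbedding_apply_of_notMem]
    rintro ⟨x, hx⟩
    exact kw_ne x b 0 hx
  · intro a b ha hb
    rw [map_add, map_add, map_add]
    exact Commute.add_left ha hb
  · intro n a ha
    rw [H4.emb_zsmul, H4.emb_zsmul, map_zsmul]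
    exact Commute.smul_left ha n

theorem ww_Om (hm : k + l = m + 1) (e : I0 m V Wd ↪ ι) :
    ∃ c : ℤ, pf O k l ι (emb e ww) * Om O k l e = (2 * c + 1) • Om O k l e := by
  obtain ⟨c, hc⟩ := Wd.hww
  refine ⟨c, ?_⟩
  -- the killed part
  have h0 : pf O k l ι (emb e (emb (kw : Wd.Y × Fin (m + 1) ↪ I0 m V Wd)
      (bl (m + 1) (Wd.w * Wd.w - (2 * c + 1) • Wd.w)))) = 0 := by
    rw [H4.emb_trans]
    apply pa_zero
    apply kill_emb
    rw [kill_bl]
    refine kill_card ?_ hc
    rw [Fintype.card_fin, Fintype.card_fun, Fintype.card_fin, Fintype.card_sum, Fintype.card_fin,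
      Fintype.card_fin, hm]
  have h1 : pf O k l ι (emb e (ww * ww)) = (2 * c + 1) • pf O k l ι (emb e (ww : P (I0 m V Wd))) := by
    rw [map_sub, map_mul, map_zsmul, map_sub, map_mul, map_zsmul, map_sub, map_zsmul, map_sub,
      map_zsmul, ← r9_ww_eq, sub_eq_zero] at h0
    exact h0
  unfold Om Om0
  rw [← map_mul, ← map_mul, ← mul_assoc, ← mul_assoc,
    (ww_comm_AS (univ : Finset (Fin (JJ m + 1)))).eq, mul_assoc (AS univ) ww ww]
  simp only [map_mul] at h1 ⊢
  rw [h1]
  rw [mul_smul_comm, smul_mul_assoc]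

/-- ROW R9: the second layer. -/
theorem red_sum (hr : r * r = 2) (hm : k + l = m + 1) (e : I0 m V Wd ↪ ι) :
    ∃ b ∈ FR k l ι r 0,
      ds r ((P0 univ).map e) * Om O k l e -
        ∑ a, pf O k l ι (emb e (bw (Wd.rho a))) * (ds r ((P0 univ).map e) * Om O k l e) =
      r • (b * Om O k l e) := by
  obtain ⟨c, hc⟩ := ww_Om (O := O) (k := k) (l := l) hm e
  obtain ⟨x, hx, hx'⟩ := pf_bw_K2 (O := O) (k := k) (l := l) hr hm e Wd.hsum
  have h1 : (bw (emb Function.Embedding.inl Wd.w - ∑ a, Wd.rho a) : P (I0 m V Wd)) =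
      ww - ∑ a, bw (Wd.rho a) := by
    unfold ww bw
    rw [map_sub, map_sum, map_sub, map_sum]
  rw [h1, map_sub, map_sum, map_sub, map_sum] at hx'
  have hds : (ds r ((P0 univ).map e) : EW O k l ι) ∈ FR k l ι r 0 :=
    FR_mono (Nat.zero_le _) (ds_mem _)
  refine ⟨x * ds r ((P0 univ).map e) - (c • r) • ds r ((P0 univ).map e), ?_, ?_⟩
  · apply Submodule.sub_mem
    · have h2 := FR_mul hx hds
      rwa [Nat.add_zero] at h2
    · exact Submodule.smul_mem _ _ hds
  · have h3 : ∑ a, pf O k l ι (emb e (bw (Wd.rho a))) * (ds r ((P0 univ).map e) * Om O k l e) =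
        (pf O k l ι (emb e ww) - r • x) * (ds r ((P0 univ).map e) * Om O k l e) := by
      rw [← Finset.sum_mul, ← hx', sub_sub_cancel]
    have h4 : pf O k l ι (emb e ww) * (ds r ((P0 univ).map e) * Om O k l e) =
        (2 * c + 1) • (ds r ((P0 univ).map e) * Om O k l e) := by
      rw [← mul_assoc, (ww_comm_ds e univ).eq, mul_assoc, hc, mul_smul_comm]
    rw [h3, sub_mul, h4, sub_mul, smul_sub]
    have h5 : r • (((c • r) • (ds r ((P0 univ).map e) : EW O k l ι)) * Om O k l e) =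
        (2 * c) • (ds r ((P0 univ).map e) * Om O k l e) := by
      rw [smul_mul_assoc, smul_smul, mul_smul_comm, hr, mul_comm 2 c, mul_smul, two_smul ℤ,
        smul_assoc, two_smul O]
    rw [h5, smul_mul_assoc, mul_assoc, add_smul, one_smul]
    abel

end R

end Pool.PI34.EX
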