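import Pool.Agent.LibPI34.EX_Def2

set_option autoImplicit false
set_option linter.unusedSectionVars false
set_option linter.unusedDecidableInType false
set_option linter.unusedFintypeInType false

namespace Pool.PI34.EX

open Equiv Finset
open Pool.PI34.H4 (P g emb As AK)

section R

variable {m : ℕ}
variable {V : VD (m + 1)} {Wd : WD ((m + 1) ^ (m + 1))}

/-- The transposition of the first places of the determinants `a`, `a + 1`. -/
noncomputable def fa (a : Fin (JJ m)) : P (I0 m V Wd) := g (swap (p0 a.castSucc) (p0 a.succ))

/-- The exchange of the blocks `a`, `a + 1`. -/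
noncomputable def ba (a : Fin (JJ m)) : P (I0 m V Wd) :=
  bw (g (swap (Sum.inr a.castSucc) (Sum.inr a.succ)))

/-- The exchange of the other places of the blocks. -/
noncomputable def tau (a : Fin (JJ m)) : P (I0 m V Wd) := fa a * ba a

end R

end Pool.PI34.EX
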