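import Pool.Agent.LibPI34.EX_Def2

/-!
PI34, block EX, rows T1, T2, T3a-d: the partial trace.
-/

set_option autoImplicit false
set_option linter.unusedSectionVars false
set_option linter.unusedDecidableInType false
set_option linter.unusedFintypeInType false

namespace Pool.PI34.EX

open Equiv Finset
open Pool.PI34.Super (Lt odd pv prs)
open Pool.PI34.SK (W comp ins)
open Pool.PI34.H4 (P g emb As AK)

section UT

variable {O : Type} [CommRing O] {k l : ℕ} {d : ℕ} {r : O}

theorem Ptr_apply (φ : EW O k l (Fin (d + 1))) (f : W O k l (Fin d)) (w : Fin d → Lt k l) :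
    Ptr O k l d φ f w = ∑ c : Lt k l, φ (ins c f) (Fin.cons c w) := by
  have h : Ptr O k l d φ f = ∑ c : Lt k l, comp c (φ (ins c f)) := by
    simp only [Ptr, LinearMap.coe_mk, AddHom.coe_mk, LinearMap.sum_apply, LinearMap.comp_apply]
  rw [h, Finset.sum_apply]
  rfl

theorem Ptr_apply' (φ : EW O k l (Fin (d + 1))) (f : W O k l (Fin d)) :
    Ptr O k l d φ f = ∑ c : Lt k l, comp c (φ (ins c f)) := by
  simp only [Ptr, LinearMap.coe_mk, AddHom.coe_mk, LinearMap.sum_apply, LinearMap.comp_apply]

/-- ROW T1. -/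
theorem Ptr_up_mul (y : EW O k l (Fin d)) (φ : EW O k l (Fin (d + 1))) :
    Ptr O k l d (up O k l d y * φ) = y * Ptr O k l d φ := by
  refine LinearMap.ext fun f => ?_
  rw [Module.End.mul_apply, Ptr_apply', Ptr_apply', map_sum]
  refine Finset.sum_congr rfl fun c _ => ?_
  funext w
  rw [SK.comp_apply, Module.End.mul_apply, up_apply, Fin.cons_zero, Fin.tail_cons]

/-- ROW T2. -/
theorem Ptr_mul_up (y : EW O k l (Fin d)) (φ : EW O k l (Fin (d + 1))) :
    Ptr O k l d (φ * up O k l d y) = Ptr O k l d φ * y := by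
  have h : ∀ (c : Lt k l) (f : W O k l (Fin d)), up O k l d y (ins c f) = ins c (y f) := by
    intro c f
    funext w
    rw [up_apply, SK.comp_ins, SK.ins_apply]
    split_ifs with hc
    · rfl
    · rw [map_zero]; rfl
  refine LinearMap.ext fun f => ?_
  rw [Module.End.mul_apply, Ptr_apply', Ptr_apply']
  refine Finset.sum_congr rfl fun c _ => ?_
  rw [Module.End.mul_apply, h]

theorem ins_cons (c : Lt k l) (f : W O k l (Fin d)) (w : Fin d → Lt k l) :
    ins c f (Fin.cons c w) = f w := by
  rw [SK.ins_apply, Fin.cons_zero, if_pos rfl, Fin.tail_cons]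

/-- ROW T3a. -/
theorem Ptr_one : Ptr O k l d 1 = ((k + l : ℕ) : O) • 1 := by
  refine LinearMap.ext fun f => ?_
  funext w
  rw [Ptr_apply]
  simp only [Module.End.one_apply, ins_cons]
  rw [Finset.sum_const, Finset.card_univ, LinearMap.smul_apply, Module.End.one_apply, Pi.smul_apply,
    nsmul_eq_mul, smul_eq_mul]
  congr 2
  simp [Lt]

/-- ROW T3b. -/
theorem Ptr_ds0 : Ptr O k l d (ds r {0}) = (r * l) • 1 := by
  refine LinearMap.ext fun f => ?_
  funext w
  rw [Ptr_apply]
  simp only [ds_apply, Finset.prod_singleton, Fin.cons_zero, ins_cons]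
  rw [← Finset.sum_mul, LinearMap.smul_apply, Module.End.one_apply, Pi.smul_apply, smul_eq_mul]
  congr 1
  rw [Fintype.sum_sum_type]
  simp [odd, mul_comm]

theorem cons_swap (c : Lt k l) (a : Fin d) (w : Fin d → Lt k l) :
    ((Fin.cons c w : Fin (d + 1) → Lt k l) ∘ (swap 0 a.succ)) = Fin.cons (w a) (Function.update w a c) := by
  funext i
  refine Fin.cases ?_ (fun j => ?_) i
  · simp
  · rw [Function.comp_apply, Fin.cons_succ]
    by_cases hj : j = a
    · subst hj; simp
    · rw [swap_apply_of_ne_of_ne (Fin.succ_ne_zero j) (fun h => hj (Fin.succ_injective _ h)),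
        Fin.cons_succ, Function.update_of_ne hj]

/-- ROW T3d. -/
theorem Ptr_swap_ds0 (a : Fin d) :
    Ptr O k l d (pf O k l _ (g (swap 0 a.succ)) * ds r {0}) = ds r {a} := by
  refine LinearMap.ext fun f => ?_
  funext w
  rw [Ptr_apply]
  simp only [Module.End.mul_apply, pa_g, cons_swap, ds_apply, Finset.prod_singleton, Fin.cons_zero,
    SK.ins_apply, Fin.tail_cons]
  rw [Finset.sum_eq_single (w a)]
  · rw [if_pos rfl, Function.update_eq_self]
  · intro c _ hc
    rw [if_neg (fun h : w a = c => hc h.symm), mul_zero]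
  · intro h; exact absurd (Finset.mem_univ _) h

/-- ROW T3c. -/
theorem Ptr_swap (a : Fin d) : Ptr O k l d (pf O k l _ (g (swap 0 a.succ))) = 1 := by
  refine LinearMap.ext fun f => ?_
  funext w
  rw [Ptr_apply]
  simp only [pa_g, cons_swap, Module.End.one_apply, SK.ins_apply, Fin.tail_cons, Fin.cons_zero]
  rw [Finset.sum_eq_single (w a)]
  · rw [if_pos rfl, Function.update_eq_self]
  · intro c _ hc
    rw [if_neg (fun h => hc h.symm)]
  · intro h; exact absurd (Finset.mem_univ _) h

end UT

end Pool.PI34.EX
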