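import Pool.Agent.LibPI34.T3_All

/-! PI34: the final step (all primes). -/

set_option autoImplicit false

namespace Pool.PI34.Fin669

open Pool.PI34.T1

/-- every PI ring is an image of a torsion-free PI ring, from the engines at the prime 2 -/
theorem im_of_engine2
    (h2 : ∀ k l : ℕ, 0 < k → 0 < l → T2.Engine (T2.cop 2) k l)
    (R : Type) [NonUnitalRing R] (hPI : PIid R) : Im R := by
  refine T2.cover Set.univ (fun p _ hp k l hk hl => ?_) R hPI 0 (fun _ => R)
    (fun _ => NonUnitalRingHom.id R) (fun _ => Function.surjective_id) (fun a ha => ?_)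
    (fun i => Or.inl fun p _ hp => absurd (Set.mem_univ p) hp)
  · by_cases hp2 : p = 2
    · subst hp2
      exact h2 k l hk hl
    · exact T3.engine p hp hp2 k l hk
  · have := ha 0
    simpa using this

end Pool.PI34.Fin669
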