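import Pool.Agent.LibPI34.X_Defs
import Pool.Agent.LibPI34.H4_CL

/-!
PI34, p = 2: the interfaces VAL (helper88), START (helper55), SEX (helper15) and the assembly
`HExD k D`.
-/

set_option autoImplicit false
set_option linter.unusedSectionVars false

namespace Pool.PI34.XH

open Equiv Finset
open Pool.PI34.H4 (P g act)
open Pool.PI34.SS (FA)
open Pool.PI34.BA (anti Frame Anti)
open Pool.PI34.XX (ExStr HExD)

/-- string polynomials with one open strand `none` and `n` labelled letters -/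
abbrev PO (n : ℕ) : Type := P (Option (Fin n))

/-- relabelling of the letters -/
noncomputable def cj {n : ℕ} (σ : Perm (Fin n)) (y : PO n) : PO n :=
  g (optionCongr σ) * y * g (optionCongr σ)⁻¹

/-- the sign of `σ` on the odd places `B` (target) -/
def sgB {n : ℕ} (σ : Perm (Fin n)) (B : Finset (Fin n)) : ℤ :=
  (-1) ^ ((univ.filter fun p : Fin n × Fin n => p.1 < p.2 ∧ σ p.2 < σ p.1 ∧ σ p.1 ∈ B ∧
    σ p.2 ∈ B).card)

/-- typed function of the coordinates `t` (psi-normalisation) -/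
noncomputable def ty {n : ℕ} (t : Finset (Fin n) → PO n) (B : Finset (Fin n)) : PO n :=
  ∑ h ∈ B.powerset, ((2 : ℤ) ^ ((h.card + 1) / 2)) • t h

/-- the colour classes are intervals -/
def Inter {n : ℕ} {C : Type} (c : Fin n → C) : Prop :=
  ∀ i j l : Fin n, i ≤ j → j ≤ l → c i = c l → c j = c i

/-- `κ_h` -/
def kap (n : ℕ) : ℤ := if Even n then 2 else 1

/-- the four swap rules between the functionals `psi` and `psi'` (`psi'` = letters `b ∘ s`) -/
def Rules {n : ℕ} {W : Type} [AddCommGroup W] (i j : Fin n)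
    (psi' psi : Finset (Fin n) → (PO n →+ W)) : Prop :=
  ∀ (h : Finset (Fin n)) (y : PO n), i ∉ h → j ∉ h →
    psi' h (cj (swap i j) y) = psi h y - psi (insert i (insert j h)) y ∧
    psi' (insert i h) (cj (swap i j) y) =
      psi (insert j h) y - kap h.card • psi (insert i (insert j h)) y ∧
    psi' (insert j h) (cj (swap i j) y) =
      psi (insert i h) y - kap h.card • psi (insert i (insert j h)) y ∧
    psi' (insert i (insert j h)) (cj (swap i j) y) = - psi (insert i (insert j h)) y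

/-- the path `none -> .. -> none` through all the letters; the convention of helper88: `none` goes
to the last letter, `some 0` to `none`, `some (k + 1)` to `some k` -/
def pathP : (n : ℕ) → Perm (Option (Fin n))
  | 0 => 1
  | n + 1 => (finSuccEquivLast (n := n + 1)).symm.trans
      ((finRotate (n + 2)).symm.trans (finSuccEquivLast (n := n + 1)))

/-- systems of functionals -/
structure PsiSys (k : ℕ) (Φ U : Type) [Ring Φ] [Ring U] (ρ : Φ →+* U) (om : U) where
  psi : ∀ n : ℕ, (Fin n → Φ) → Finset (Fin n) → (PO n →+ U)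
  ker : ∀ n b h y, act k _ y = 0 → psi n b h y = 0
  rule : ∀ n (b : Fin n → Φ) (i j : Fin n), (j : ℕ) = i + 1 →
    Rules i j (psi n (b ∘ swap i j)) (psi n b)
  path : ∀ n (b : Fin n → Φ), psi n b ∅ (g (pathP n)) = ρ (List.ofFn b).prod * om

/-- VAL (helper88) -/
def Val (k : ℕ) : Prop :=
  ∀ (N : ℕ) (Φ U : Type) [Ring Φ] [Ring U] (S : ExStr (Fin (N + 1)) Φ U), Anti S.f k →
    ∀ e e' : Fin k ↪ Fin (N + 1), Frame e e' 0 →
      Nonempty (PsiSys k Φ U (S.ρ 0) (anti S.f (univ.map e) * anti S.f (univ.map e')))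

/-- the hypothesis of SEX: the typed components vanish -/
def Tor {n : ℕ} (k : ℕ) {C : Type} [DecidableEq C] (c : Fin n → C)
    (t : Finset (Fin n) → PO n) : Prop :=
  ∀ B : Finset (Fin n), act k _ (∑ σ ∈ univ.filter (fun σ : Perm (Fin n) => c ∘ σ = c),
    sgB σ B • cj σ (ty t (B.map (σ⁻¹ : Perm (Fin n)).toEmbedding))) = 0

/-- START (helper55) -/
def Start (k : ℕ) : Prop :=
  ∀ (X : Type) [DecidableEq X] (G : FA X), G ∈ SS.QQ k X →
    ∃ (K : ℕ) (n : Fin K → ℕ) (c : ∀ κ, Fin (n κ) → X)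
      (t : ∀ κ, Finset (Fin (n κ)) → PO (n κ)),
      (∀ κ, Inter (c κ) ∧ Tor k (c κ) (t κ)) ∧
      ∀ (Φ U : Type) [Ring Φ] [Ring U] (ρ : Φ →+* U) (om : U) (S : PsiSys k Φ U ρ om)
        (a : X → Φ), ρ (FA.lift a G) * om = ∑ κ, ∑ h, S.psi (n κ) (a ∘ c κ) h (t κ h)

/-- SEX (helper15) -/
def Sex (k D : ℕ) : Prop :=
  ∀ (n : ℕ) (C : Type) [DecidableEq C] (c : Fin n → C), Inter c →
    ∀ t : Finset (Fin n) → PO n, Tor k c t →
    ∀ (W : Type) [AddCommGroup W] (psi : Finset (Fin n) → (PO n →+ W)),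
      (∀ h y, act k _ y = 0 → psi h y = 0) →
      (∀ i j : Fin n, (j : ℕ) = i + 1 → c i = c j → Rules i j psi psi) →
      ∃ N : ℕ, ¬ 2 ∣ N ∧ N • D • ∑ h, psi h (t h) = 0

/-- ASSEMBLY -/
theorem hexD {k D : ℕ} (hV : Val k) (hS : Start k) (hX : Sex k D) : HExD k D := by
  classical
  intro N Φ U _ _ S hA e e' hF hinv X G hG a
  obtain ⟨V⟩ := hV N Φ U S hA e e' hF
  obtain ⟨K, n, c, t, hct, hval⟩ := hS X G hG
  rw [hval Φ U (S.ρ 0) _ V a, Finset.smul_sum]
  refine Finset.sum_eq_zero fun κ _ => ?_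
  obtain ⟨M, hM, h⟩ := hX (n κ) X (c κ) (hct κ).1 (t κ) (hct κ).2 U (V.psi (n κ) (a ∘ c κ))
    (fun h y hy => V.ker _ _ _ _ hy) (fun i j hij hc => by
      have h1 := V.rule (n κ) (a ∘ c κ) i j hij
      have h2 : (a ∘ c κ) ∘ ⇑(swap i j) = a ∘ c κ := by
        funext x
        simp only [Function.comp_apply]
        congr 1
        by_cases hx : x = i
        · rw [hx, swap_apply_left, hc]
        · by_cases hx' : x = j
          · rw [hx', swap_apply_right, hc]
          · rw [swap_apply_of_ne_of_ne hx hx']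
      rw [h2] at h1
      exact h1)
  obtain ⟨u, hu⟩ := hinv M hM
  have h3 : (M : U) * (D • ∑ h, V.psi (n κ) (a ∘ c κ) h (t κ h)) = 0 := by
    rw [← nsmul_eq_mul]
    exact h
  rw [← hu] at h3
  have h4 := congrArg (fun x => (↑u⁻¹ : U) * x) h3
  simpa using h4

end Pool.PI34.XH
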