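import Pool.Agent.LibPI34.V_Str
import Pool.Agent.LibPI34.X_HEx

/-!
PI34, block VAL, file 7: the values of the elements of the group algebra at exotic letters,
`val : Val k`.
-/

set_option autoImplicit false
set_option linter.unusedSectionVars false

namespace Pool.PI34.VL

open Equiv Finset Matrix
open Pool.PI34.BA
open Pool.PI34.XX (ExStr)
open Pool.PI34.XH (PO cj Rules PsiSys Val pathP)

/-! ### the path -/

theorem sign_pathP (n : ℕ) : ((Perm.sign (pathP n) : ℤˣ) : ℤ) = (-1) ^ n := by
  cases n with
  | zero => simp [pathP]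
  | succ n =>
    have h1 : Perm.sign (pathP (n + 1)) = (-1) ^ (n + 1) := by
      unfold pathP
      have h2 : Perm.sign (((finSuccEquivLast (n := n + 1)).symm.trans
          ((finRotate (n + 2)).symm.trans (finSuccEquivLast (n := n + 1)))) :
          Perm (Option (Fin (n + 1)))) = Perm.sign (finRotate (n + 2)).symm :=
        Perm.sign_symm_trans_trans (finRotate (n + 2)).symm (finSuccEquivLast (n := n + 1))
      rw [h2]
      change Perm.sign (finRotate (n + 2))⁻¹ = _
      rw [Perm.sign_inv, sign_finRotate]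
      rfl
    rw [h1]
    simp

theorem dg_head (n : ℕ) (e : Fin (n + 1)) :
    dg n (finSuccEquivLast e) = head (fun l : Fin n => l) e := by
  refine Fin.lastCases ?_ (fun i => ?_) e
  · rw [finSuccEquivLast_last]
    simp [dg_none, head]
  · rw [finSuccEquivLast_castSucc]
    simp [dg_some, head]

theorem dg_tail (n : ℕ) (e : Fin (n + 1)) :
    dg n (pathP n (finSuccEquivLast e)) = tail (fun l : Fin n => l) e := by
  cases n with
  | zero =>
    have he : e = 0 := Fin.ext (by omega)
    subst he
    rfl
  | succ n =>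
    have h1 : pathP (n + 1) (finSuccEquivLast e) = finSuccEquivLast ((finRotate (n + 2)).symm e) := by
      change finSuccEquivLast ((finRotate (n + 2)).symm (finSuccEquivLast.symm (finSuccEquivLast e)))
        = _
      rw [Equiv.symm_apply_apply]
    rw [h1]
    refine Fin.cases ?_ (fun i => ?_) e
    · have h2 : (finRotate (n + 2)).symm 0 = Fin.last (n + 1) := by
        rw [Equiv.symm_apply_eq, finRotate_last]
      rw [h2, finSuccEquivLast_last]
      simp [dg_none, tail]
    · have h2 : (finRotate (n + 2)).symm i.succ = i.castSucc := by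
        rw [Equiv.symm_apply_eq, finRotate_apply]
        exact (Fin.coeSucc_eq_succ).symm
      rw [h2, finSuccEquivLast_castSucc]
      simp [dg_some, tail]

theorem mm_pathP (n : ℕ) : mm (pathP n) = pathMon (fun l : Fin n => l) := by
  unfold mm mon pathMon
  rw [← Equiv.sum_comp (finSuccEquivLast (n := n)) (fun a => Finsupp.single
    (dg n (pathP n a), dg n a) 1)]
  refine Finset.sum_congr rfl fun e _ => ?_
  rw [dg_head, dg_tail]

/-! ### the functionals -/

section main

variable {ι Φ U : Type} [Fintype ι] [DecidableEq ι] [Ring Φ] [Ring U] (S : ExStr ι Φ U)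
variable {k n : ℕ} (p q : Fin k ↪ ι) (z : ι)

/-- an entry of a matrix -/
def en (f g : IX n) : Matrix (IX n) (IX n) U →+ U where
  toFun M := M f g
  map_zero' := rfl
  map_add' _ _ := rfl

/-- the state of the letters `h` -/
def sth (h : Finset (Fin n)) : IX n := fun l => if l ∈ h then 2 else 1

/-- the matrix of values -/
noncomputable def VM (b : Fin n → Φ) : PO n →+ Matrix (IX n) (IX n) U :=
  vl (PS S z b) p q z (FreeAlgebra.ι ℤ)

/-- the functionals `φ` -/
noncomputable def ph (b : Fin n → Φ) (h : Finset (Fin n)) : PO n →+ U :=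
  (en (sth h) 0).comp (VM S p q z b)

theorem ph_apply (b : Fin n → Φ) (h : Finset (Fin n)) (y : PO n) :
    ph S p q z b h y = VM S p q z b y (sth h) 0 := rfl

/-- **(V1)** -/
theorem ph_kill (hA : Anti S.f k) (hF : Frame p q z) (b : Fin n → Φ) (h : Finset (Fin n))
    (y : PO n) (hy : H4.act k _ y = 0) : ph S p q z b h y = 0 := by
  rw [ph_apply]
  unfold VM
  rw [vl_kill (PS S z b) (Anti_PS S z b hA) p q z hF _ y hy]
  rfl

/-- the conjugation by the flip -/
noncomputable def cjM {i j : Fin n} (h : i ≠ j) :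
    Matrix (IX n) (IX n) U →+* Matrix (IX n) (IX n) U :=
  have h1 : Jm S z n (fl i j) * Jm S z n (fl i j) = 1 := by rw [← map_mul, fl_fl h, map_one]
  { toFun := fun M => Jm S z n (fl i j) * M * Jm S z n (fl i j)
    map_one' := by rw [mul_one, h1]
    map_mul' := fun M N => by
      calc Jm S z n (fl i j) * (M * N) * Jm S z n (fl i j)
          = Jm S z n (fl i j) * M * 1 * N * Jm S z n (fl i j) := by simp only [mul_assoc, one_mul]
        _ = Jm S z n (fl i j) * M * (Jm S z n (fl i j) * Jm S z n (fl i j)) * N *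
            Jm S z n (fl i j) := by rw [h1]
        _ = _ := by simp only [mul_assoc]
    map_zero' := by rw [mul_zero, zero_mul]
    map_add' := fun M N => by rw [mul_add, add_mul] }

theorem cjM_apply {i j : Fin n} (h : i ≠ j) (M : Matrix (IX n) (IX n) U) :
    cjM S z h M = Jm S z n (fl i j) * M * Jm S z n (fl i j) := rfl

theorem cjM_sc {i j : Fin n} (h : i ≠ j) (u : U) : cjM S z h (sc n u) = sc n u := by
  rw [cjM_apply, ← sc_Jm, mul_assoc, ← map_mul, fl_fl h, map_one, mul_one]

theorem cjM_lt {i j : Fin n} (hij : (j : ℕ) = i + 1) (h : i ≠ j) (b : Fin n → Φ) (a : ι)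
    (l : Fin n) : cjM S z h (lt S z b a l) = lt S z (b ∘ swap i j) a (swap i j l) := by
  unfold lt
  have h2 : (b ∘ swap i j) (swap i j l) = b l := by rw [Function.comp_apply, swap_apply_self]
  have h3 : ∀ e e' : GG n, fl i j * e = e' * fl i j → cjM S z h (Jm S z n e) = Jm S z n e' := by
    intro e e' he
    rw [cjM_apply, ← map_mul, ← map_mul, he, mul_assoc, fl_fl h, mul_one]
  rw [map_add, map_mul, map_mul, cjM_sc, cjM_sc, h2, h3 _ _ (fl_opP l), h3 _ _ (fl_opQ hij l)]

/-- the values of the relabelled letters -/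
theorem VM_conj (hA : Anti S.f k) (hF : Frame p q z) {i j : Fin n} (hij : (j : ℕ) = i + 1)
    (h : i ≠ j) (b : Fin n → Φ) (y : PO n) :
    VM S p q z (b ∘ swap i j) (cj (swap i j) y) = cjM S z h (VM S p q z b y) := by
  unfold VM cj
  rw [← vl_sub (PS S z (b ∘ swap i j)) (Anti_PS S z _ hA) p q z hF (FreeAlgebra.ι ℤ) (swap i j) y]
  let F : FreeAlgebra ℤ (Fin n) →+* FreeAlgebra ℤ (Fin n) :=
    (FreeAlgebra.lift ℤ (fun l => FreeAlgebra.ι ℤ (swap i j l)) :
      FreeAlgebra ℤ (Fin n) →ₐ[ℤ] FreeAlgebra ℤ (Fin n)).toRingHom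
  have hF1 : ∀ l, F (FreeAlgebra.ι ℤ l) = FreeAlgebra.ι ℤ (swap i j l) := fun l => by
    change (FreeAlgebra.lift ℤ (fun l => FreeAlgebra.ι ℤ (swap i j l))) (FreeAlgebra.ι ℤ l) = _
    rw [FreeAlgebra.lift_ι_apply]
  have hρ : ∀ (a : ι) (x : FreeAlgebra ℤ (Fin n)),
      cjM S z h ((PS S z b).ρ a x) = (PS S z (b ∘ swap i j)).ρ a (F x) := by
    intro a x
    induction x using FreeAlgebra.induction with
    | grade0 r => simp
    | grade1 l => rw [hF1, PS_ρ, PS_ρ, cjM_lt S z hij h]
    | mul u v hu hv => rw [map_mul, map_mul, hu, hv, map_mul, map_mul]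
    | add u v hu hv => rw [map_add, map_add, hu, hv, map_add, map_add]
  have hs : ∀ σ, cjM S z h ((PS S z b).s σ) = (PS S z (b ∘ swap i j)).s σ := by
    intro σ
    rw [PS_s, PS_s, cjM_sc]
  refine H4.P_induction (p := fun y => vl (PS S z (b ∘ swap i j)) p q z
    (fun l => FreeAlgebra.ι ℤ (swap i j l)) y = cjM S z h (vl (PS S z b) p q z
      (FreeAlgebra.ι ℤ) y)) y ?_ ?_ ?_
  · intro σ
    rw [vl_g, vl_g, map_zsmul, map_Pxi (PS S z b) (PS S z (b ∘ swap i j)) F (cjM S z h) hρ hs]
    simp only [hF1]
  · intro a c ha hc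
    rw [map_add, map_add, map_add, ha, hc]
  · intro m a ha
    rw [map_zsmul, map_zsmul, map_zsmul, ha]

/-- the unified form of the swap rules -/
theorem ph_swap (hA : Anti S.f k) (hF : Frame p q z) {i j : Fin n} (hij : (j : ℕ) = i + 1)
    (b : Fin n → Φ) (h : Finset (Fin n)) (y : PO n) (h' : Finset (Fin n))
    (hf : sth h ∘ swap i j = sth h') :
    ph S p q z (b ∘ swap i j) h (cj (swap i j) y) = ph S p q z b h' y -
      chi S z (wt (sth h i) * wt (sth h j)) * ph S p q z b (insert i (insert j h)) y := by
  have hne : i ≠ j := fun h2 => by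
    have h3 : (i : ℕ) = j := congrArg Fin.val h2
    omega
  rw [ph_apply, VM_conj S p q z hA hF hij hne, cjM_apply, Jm_col S z _ (fl_vac hne),
    Jm_row2 S z (fl i j) (sth h) (sth h') (sth (insert i (insert j h)))
      (wt (sth h i) * wt (sth h j))]
  · rfl
  · intro v
    rw [ap_fl hne, hf]
    congr 3
    funext l
    unfold sth
    by_cases e1 : l = j
    · subst e1
      rw [Function.update_self, if_pos (mem_insert_of_mem (mem_insert_self _ _))]
    · rw [Function.update_of_ne e1]
      by_cases e2 : l = i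
      · subst e2
        rw [Function.update_self, if_pos (mem_insert_self _ _)]
      · rw [Function.update_of_ne e2]
        have e3 : l ∈ insert i (insert j h) ↔ l ∈ h := by
          rw [mem_insert, mem_insert]
          simp [e1, e2]
        simp only [e3]

theorem sth_swap {i j : Fin n} (h h' : Finset (Fin n)) (hh : ∀ l, l ∈ h' ↔ swap i j l ∈ h) :
    sth h ∘ swap i j = sth h' := by
  funext l
  unfold sth
  rw [Function.comp_apply]
  simp only [hh]

/-- the normalised functionals -/
noncomputable def psi (b : Fin n → Φ) (h : Finset (Fin n)) : PO n →+ U :=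
  (AddMonoidHom.mulLeft (chi S z (q2 ^ (h.card % 2)))).comp (ph S p q z b h)

theorem psi_apply (b : Fin n → Φ) (h : Finset (Fin n)) (y : PO n) :
    psi S p q z b h y = chi S z (q2 ^ (h.card % 2)) * ph S p q z b h y := rfl

theorem kap_chi (c : ℕ) (x : U) :
    chi S z (q2 ^ ((c + 1) % 2)) * (chi S z q2 * x) = XH.kap c • (chi S z (q2 ^ (c % 2)) * x) := by
  unfold XH.kap
  rcases Nat.even_or_odd c with h | h
  · have h1 : c % 2 = 0 := Nat.even_iff.1 h
    have h2 : (c + 1) % 2 = 1 := by omega
    rw [if_pos h, h1, h2, pow_one, pow_zero, map_one, one_mul, ← mul_assoc, ← map_mul, q2_sq,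
      map_ofNat, two_mul]
    rw [two_zsmul]
  · have h1 : c % 2 = 1 := Nat.odd_iff.1 h
    have h2 : (c + 1) % 2 = 0 := by omega
    rw [if_neg (Nat.not_even_iff_odd.2 h), h1, h2, pow_one, pow_zero, map_one, one_mul, one_zsmul]

theorem psi_rules (hA : Anti S.f k) (hF : Frame p q z) {i j : Fin n} (hij : (j : ℕ) = i + 1)
    (b : Fin n → Φ) : Rules i j (psi S p q z (b ∘ swap i j)) (psi S p q z b) := by
  have hne : i ≠ j := fun h2 => by
    have h3 : (i : ℕ) = j := congrArg Fin.val h2
    omega
  intro h y hi hj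
  have hji : j ∉ insert i h := by
    rw [mem_insert]
    rintro (e | e)
    · exact hne e.symm
    · exact hj e
  have hij' : i ∉ insert j h := by
    rw [mem_insert]
    rintro (e | e)
    · exact hne e
    · exact hi e
  have c1 : (insert i h).card = h.card + 1 := card_insert_of_notMem hi
  have c2 : (insert j h).card = h.card + 1 := card_insert_of_notMem hj
  have c3 : (insert i (insert j h)).card = h.card + 2 := by
    rw [card_insert_of_notMem hij', c2]
  have c4 : (h.card + 2) % 2 = h.card % 2 := by omega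
  have s0 : ∀ l, l ∈ h ↔ swap i j l ∈ h := by
    intro l
    by_cases e1 : l = i
    · subst e1
      rw [swap_apply_left]
      exact ⟨fun h1 => absurd h1 hi, fun h1 => absurd h1 hj⟩
    · by_cases e2 : l = j
      · subst e2
        rw [swap_apply_right]
        exact ⟨fun h1 => absurd h1 hj, fun h1 => absurd h1 hi⟩
      · rw [swap_apply_of_ne_of_ne e1 e2]
  have s1 : ∀ l, l ∈ insert j h ↔ swap i j l ∈ insert i h := by
    intro l
    rw [mem_insert, mem_insert, ← s0 l]
    have e1 : swap i j l = i ↔ l = j := by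
      rw [Equiv.swap_apply_eq_iff, swap_apply_left]
    rw [e1]
  have s2 : ∀ l, l ∈ insert i h ↔ swap i j l ∈ insert j h := by
    intro l
    rw [mem_insert, mem_insert, ← s0 l]
    have e1 : swap i j l = j ↔ l = i := by
      rw [Equiv.swap_apply_eq_iff, swap_apply_right]
    rw [e1]
  have s3 : ∀ l, l ∈ insert i (insert j h) ↔ swap i j l ∈ insert i (insert j h) := by
    intro l
    rw [mem_insert, mem_insert, mem_insert, mem_insert, ← s0 l]
    have e1 : swap i j l = i ↔ l = j := by
      rw [Equiv.swap_apply_eq_iff, swap_apply_left]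
    have e2 : swap i j l = j ↔ l = i := by
      rw [Equiv.swap_apply_eq_iff, swap_apply_right]
    rw [e1, e2]
    tauto
  have w1 : ∀ (h : Finset (Fin n)) (l : Fin n), l ∉ h → wt (sth h l) = 1 := by
    intro h l hl
    unfold sth
    rw [if_neg hl, wt_one]
  have w2 : ∀ (h : Finset (Fin n)) (l : Fin n), l ∈ h → wt (sth h l) = q2 := by
    intro h l hl
    unfold sth
    rw [if_pos hl, wt_two]
  refine ⟨?_, ?_, ?_, ?_⟩
  · rw [psi_apply, psi_apply, psi_apply, c3, c4, ph_swap S p q z hA hF hij b h y h
      (sth_swap h h s0), w1 h i hi, w1 h j hj, one_mul, map_one, one_mul, mul_sub]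
  · have e1 : insert i (insert j (insert i h)) = insert i (insert j h) := by
      ext l
      simp only [mem_insert]
      tauto
    rw [psi_apply, psi_apply, psi_apply, c1, c2, c3, c4,
      ph_swap S p q z hA hF hij b (insert i h) y (insert j h) (sth_swap _ _ s1),
      w2 _ i (mem_insert_self _ _), w1 _ j hji, mul_one, e1, mul_sub, kap_chi]
  · have e1 : insert i (insert j (insert j h)) = insert i (insert j h) := by
      ext l
      simp only [mem_insert]
      tauto
    rw [psi_apply, psi_apply, psi_apply, c1, c2, c3, c4,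
      ph_swap S p q z hA hF hij b (insert j h) y (insert i h) (sth_swap _ _ s2),
      w1 _ i hij', w2 _ j (mem_insert_self _ _), one_mul, e1, mul_sub, kap_chi]
  · have e1 : insert i (insert j (insert i (insert j h))) = insert i (insert j h) := by
      ext l
      simp only [mem_insert]
      tauto
    rw [psi_apply, psi_apply, c3, c4,
      ph_swap S p q z hA hF hij b (insert i (insert j h)) y (insert i (insert j h))
        (sth_swap _ _ s3),
      w2 _ i (mem_insert_self _ _), w2 _ j (mem_insert_of_mem (mem_insert_self _ _)), q2_sq, e1,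
      map_ofNat, two_mul, mul_sub, mul_add]
    abel

/-! ### the path -/

theorem lt_row (b : Fin n → Φ) (l : Fin n) (M : Matrix (IX n) (IX n) U) (g : IX n) :
    (lt S z b z l * M) (st l) g = S.ρ z (b l) * M (st (l + 1)) g := by
  unfold lt
  rw [add_mul, mul_assoc, mul_assoc, Matrix.add_apply, sc_mul_apply, sc_mul_apply,
    Jm_row1 S z _ _ _ (ap_opP_st l), Jm_row0 S z _ _ (ap_opQ_st l), mul_zero, add_zero]

theorem path_row (b : Fin n → Φ) (m : ℕ) (hm : m ≤ n) :
    ((List.ofFn (lt S z b z)).drop m).prod (st m) 0 =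
      ((List.ofFn fun l => S.ρ z (b l)).drop m).prod := by
  induction hd : n - m generalizing m with
  | zero =>
    have e : m = n := by omega
    subst e
    rw [List.drop_eq_nil_of_le (by simp), List.drop_eq_nil_of_le (by simp), List.prod_nil,
      List.prod_nil]
    have e1 : (st m : IX m) = 0 := by
      funext l
      exact if_pos l.2
    rw [e1, Matrix.one_apply_eq]
  | succ d ih =>
    have hlt : m < n := by omega
    rw [List.drop_eq_getElem_cons (i := m) (by simpa using hlt),
      List.drop_eq_getElem_cons (l := List.ofFn fun l => S.ρ z (b l)) (i := m) (by simpa using hlt),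
      List.prod_cons, List.prod_cons, List.getElem_ofFn, List.getElem_ofFn]
    have h1 := lt_row S z b ⟨m, hlt⟩ ((List.ofFn (lt S z b z)).drop (m + 1)).prod 0
    rw [ih (m + 1) (by omega) (by omega)] at h1
    exact h1

theorem ph_path (b : Fin n → Φ) : ph S p q z b ∅ (H4.g (pathP n)) =
    S.ρ z (List.ofFn b).prod * (anti S.f (univ.map p) * anti S.f (univ.map q)) := by
  rw [ph_apply]
  unfold VM
  rw [vl_g, mm_pathP, Pxi_path, smul_smul, sign_pathP, ← mul_pow, neg_mul_neg, one_mul, one_pow,
    one_smul]
  unfold Str.om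
  rw [anti_PS, anti_PS, ← map_mul, mul_sc_apply, map_list_prod, List.map_ofFn, map_list_prod,
    List.map_ofFn]
  have h1 : (⇑((PS S z b).ρ z) ∘ fun l : Fin n => FreeAlgebra.ι ℤ l) = lt S z b z := by
    funext l
    exact PS_ρ S z b z l
  have h2 : (sth ∅ : IX n) = st 0 := by
    funext l
    unfold sth st
    rw [if_neg (notMem_empty l), if_neg (Nat.not_lt_zero _)]
  rw [h1, h2]
  congr 1
  exact path_row S z b 0 (Nat.zero_le n)

end main

/-- **VAL** -/
theorem val (k : ℕ) : Val k := by
  intro N Φ U _ _ S hA e e' hF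
  exact ⟨{
    psi := fun n b h => psi S e e' 0 b h
    ker := fun n b h y hy => by
      rw [psi_apply, ph_kill S e e' 0 hA hF b h y hy, mul_zero]
    rule := fun n b i j hij => psi_rules S e e' 0 hA hF hij b
    path := fun n b => by
      rw [psi_apply, card_empty, Nat.zero_mod, pow_zero, map_one, one_mul, ph_path] }⟩

end Pool.PI34.VL
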