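import Pool.Agent.LibPI34.XS_Def

/-! PI34, p = 2, block SEX, row E0: basic rules. -/

set_option autoImplicit false
set_option linter.unusedSectionVars false

namespace Pool.PI34.XS

open Equiv Finset
open Pool.PI34.H4 (P g act emb As ZP JR cc AK Ac)
open Pool.PI34.XH (sgB Inter kap)

theorem rr_mul {m n : ℕ} (σ τ : Perm (Fin n)) :
    (rr (σ * τ) : Perm (Fin m ⊕ Fin n)) = rr σ * rr τ := by
  rw [Perm.sumCongr_mul, one_mul]

theorem rr_one {m n : ℕ} : (rr (1 : Perm (Fin n)) : Perm (Fin m ⊕ Fin n)) = 1 :=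
  Perm.sumCongr_one

theorem commute_inl_rr {m n : ℕ} (x : P (Fin m)) (σ : Perm (Fin n)) :
    Commute (emb (Function.Embedding.inl : Fin m ↪ Fin m ⊕ Fin n) x) (g (rr σ)) := by
  refine H4.commute_of_g _ (fun τ => ?_) x
  have h : Perm.viaEmbedding τ (Function.Embedding.inl : Fin m ↪ Fin m ⊕ Fin n) =
      sumCongr τ (1 : Perm (Fin n)) := by
    ext1 z
    rcases z with z | z
    · exact Perm.viaEmbedding_apply τ (Function.Embedding.inl : Fin m ↪ Fin m ⊕ Fin n) z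
    · rw [Perm.viaEmbedding_apply_of_notMem]
      · rfl
      · rintro ⟨y, hy⟩
        exact absurd hy (by simp)
  rw [h]
  change g _ * g _ = g _ * g _
  rw [← H4.g_mul, ← H4.g_mul, Perm.sumCongr_mul, Perm.sumCongr_mul]
  simp

variable {N n m : ℕ} {M : Type} [AddCommGroup M] (S : CS N n m M)

theorem CS.A_mul (p q : P (Fin m ⊕ Fin n)) (x : M) : S.A (p * q) x = S.A p (S.A q x) := by
  rw [map_mul]; rfl

theorem CS.A_one (x : M) : S.A 1 x = x := by
  rw [map_one]; rfl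

theorem CS.A_add (p q : P (Fin m ⊕ Fin n)) (x : M) : S.A (p + q) x = S.A p x + S.A q x := by
  rw [map_add]; rfl

theorem CS.A_zsmul (a : ℤ) (p : P (Fin m ⊕ Fin n)) (x : M) : S.A (a • p) x = a • S.A p x := by
  rw [map_zsmul]; rfl

theorem CS.A_sum {ι : Type} (s : Finset ι) (f : ι → P (Fin m ⊕ Fin n)) (x : M) :
    S.A (∑ i ∈ s, f i) x = ∑ i ∈ s, S.A (f i) x := by
  classical
  induction s using Finset.induction_on with
  | empty => rw [sum_empty, sum_empty, map_zero]; rfl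
  | insert a s ha ih => rw [sum_insert ha, sum_insert ha, S.A_add, ih]

theorem CS.cj_mul (σ τ : Perm (Fin n)) (x : M) : S.cj (σ * τ) x = S.cj σ (S.cj τ x) := by
  unfold CS.cj
  rw [rr_mul, H4.g_mul, S.A_mul]

theorem CS.cj_one (x : M) : S.cj 1 x = x := by
  unfold CS.cj
  rw [rr_one, H4.g_one, S.A_one]

theorem CS.cj_add (σ : Perm (Fin n)) (x y : M) : S.cj σ (x + y) = S.cj σ x + S.cj σ y :=
  map_add _ _ _

theorem CS.cj_sub (σ : Perm (Fin n)) (x y : M) : S.cj σ (x - y) = S.cj σ x - S.cj σ y :=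
  map_sub _ _ _

theorem CS.cj_neg (σ : Perm (Fin n)) (x : M) : S.cj σ (-x) = -S.cj σ x :=
  map_neg _ _

theorem CS.cj_zero (σ : Perm (Fin n)) : S.cj σ 0 = 0 :=
  map_zero _

theorem CS.cj_zsmul (σ : Perm (Fin n)) (a : ℤ) (x : M) : S.cj σ (a • x) = a • S.cj σ x :=
  map_zsmul _ _ _

theorem CS.cj_sum {ι : Type} (s : Finset ι) (σ : Perm (Fin n)) (f : ι → M) :
    S.cj σ (∑ i ∈ s, f i) = ∑ i ∈ s, S.cj σ (f i) :=
  map_sum _ _ _

theorem CS.Z_add (x y : M) : S.Z (x + y) = S.Z x + S.Z y := map_add _ _ _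

theorem CS.Z_sub (x y : M) : S.Z (x - y) = S.Z x - S.Z y := map_sub _ _ _

theorem CS.Z_neg (x : M) : S.Z (-x) = -S.Z x := map_neg _ _

theorem CS.Z_zero : S.Z 0 = 0 := map_zero _

theorem CS.Z_zsmul (a : ℤ) (x : M) : S.Z (a • x) = a • S.Z x := map_zsmul _ _ _

theorem CS.Z_sum {ι : Type} (s : Finset ι) (f : ι → M) :
    S.Z (∑ i ∈ s, f i) = ∑ i ∈ s, S.Z (f i) := map_sum _ _ _

theorem CS.cj_th (σ : Perm (Fin n)) (x : M) : S.cj σ (S.th x) = S.th (S.cj σ x) :=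
  (S.thA _ _).symm

theorem CS.cj_Z (σ : Perm (Fin n)) (x : M) : S.cj σ (S.Z x) = S.Z (S.cj σ x) := by
  unfold CS.cj CS.Z
  rw [← S.A_mul, ← S.A_mul]
  have h := commute_inl_rr (n := n) S.z σ
  rw [h.eq]

theorem CS.ZZ (x : M) : S.Z (S.Z x) = S.h • S.Z x := by
  unfold CS.Z
  rw [← S.A_mul, ← (emb (Function.Embedding.inl : Fin m ↪ Fin m ⊕ Fin n)).map_mul, S.zz,
    H4.emb_zsmul, S.A_zsmul]

theorem CS.Z_th (x : M) : S.Z (S.th x) = S.th (S.Z x) :=
  (S.thA _ _).symm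

theorem dl_add (h : Finset (Fin n)) (x y : M) : dl h (x + y) = dl h x + dl h y :=
  Pi.single_add _ _ _

theorem dl_sub (h : Finset (Fin n)) (x y : M) : dl h (x - y) = dl h x - dl h y :=
  Pi.single_sub _ _ _

theorem dl_neg (h : Finset (Fin n)) (x : M) : dl h (-x) = -dl h x :=
  Pi.single_neg _ _

theorem dl_zero (h : Finset (Fin n)) : dl h (0 : M) = 0 :=
  Pi.single_zero _

/-- `dl h` as a homomorphism -/
noncomputable def dlH (h : Finset (Fin n)) : M →+ (Finset (Fin n) → M) :=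
  AddMonoidHom.mk' (dl h) (dl_add h)

theorem dlH_apply (h : Finset (Fin n)) (x : M) : dlH h x = dl h x := rfl

theorem dl_zsmul (h : Finset (Fin n)) (a : ℤ) (x : M) : dl h (a • x) = a • dl h x :=
  map_zsmul (dlH h) a x

theorem dl_sum {ι : Type} (s : Finset ι) (h : Finset (Fin n)) (f : ι → M) :
    dl h (∑ i ∈ s, f i) = ∑ i ∈ s, dl h (f i) :=
  map_sum (dlH h) f s

end Pool.PI34.XS
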