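import Pool.Agent.LibPI34.XS_Def
import Pool.Agent.LibPI34.H4_CL
import Pool.Agent.LibPI34.XS_E0

/-! PI34, p = 2, block SEX: the abstract chase. -/

set_option autoImplicit false
set_option linter.unusedSectionVars false

namespace Pool.PI34.XS

open Equiv Finset
open Pool.PI34.H4 (P g act emb As ZP JR cc AK Ac)
open Pool.PI34.XH (sgB Inter kap)

variable {N n m : ℕ} {M : Type} [AddCommGroup M] (S : CS N n m M)
variable {C : Type} [DecidableEq C] (c : Fin n → C)

theorem CS.Rel_le_F' (j : ℕ) : S.Rel c ≤ S.F c j := le_sup_right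

theorem CS.gen_mem_F (j : ℕ) (h : Finset (Fin n)) (hj : j ≤ h.card) (w : M) :
    dl h (S.Z (S.th w)) ∈ S.F c j :=
  AddSubgroup.mem_sup_left (AddSubgroup.subset_closure ⟨h, w, hj, rfl⟩)

variable {c}

/-- an adjacent unsorted pair -/
theorem unsorted (hc : Inter c) (h : Finset (Fin n)) (i : Fin n) (hi : i ∉ h) :
    ∀ (d : ℕ) (j : Fin n), (j : ℕ) = i + d → c i = c j → j ∈ h →
      ∃ i' j' : Fin n, (j' : ℕ) = i' + 1 ∧ c i' = c j' ∧ i' ∉ h ∧ j' ∈ h := by
  intro d
  induction d with
  | zero =>
    intro j hj _ hjh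
    have : j = i := Fin.ext (by simpa using hj)
    exact absurd (this ▸ hjh) hi
  | succ d ih =>
    intro j hj hcj hjh
    have hk : (i : ℕ) + d < n := by
      have := j.2
      omega
    set k : Fin n := ⟨i + d, hk⟩ with hkd
    have hik : i ≤ k := by
      rw [Fin.le_def]
      simp [hkd]
    have hkj : k ≤ j := by
      rw [Fin.le_def]
      simp only [hkd]
      omega
    have hck : c k = c i := hc i k j hik hkj hcj
    by_cases hkh : k ∈ h
    · exact ih k rfl hck.symm hkh
    · refine ⟨k, j, ?_, ?_, hkh, hjh⟩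
      · simp only [hkd]
        omega
      · rw [hck, hcj]

variable (c)

/-- E2: sorting. -/
theorem CS.sort_one (hc : Inter c) (h : Finset (Fin n)) (w : M) :
    ∃ (B : Finset (Fin n)) (w' : M), Srt c B ∧ B.card = h.card ∧
      dl h (S.Z (S.th w)) - dl B (S.Z (S.th w')) ∈ S.F c (h.card + 1) := by
  classical
  suffices H : ∀ (s : ℕ) (h : Finset (Fin n)) (w : M), ∑ x ∈ h, (x : ℕ) = s →
      ∃ (B : Finset (Fin n)) (w' : M), Srt c B ∧ B.card = h.card ∧
        dl h (S.Z (S.th w)) - dl B (S.Z (S.th w')) ∈ S.F c (h.card + 1) from H _ h w rfl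
  intro s
  induction s using Nat.strong_induction_on with
  | _ s ih =>
    intro h w hs
    by_cases hS : Srt c h
    · exact ⟨h, w, hS, rfl, by rw [sub_self]; exact AddSubgroup.zero_mem _⟩
    · have h1 : ∃ i j : Fin n, i ≤ j ∧ c i = c j ∧ j ∈ h ∧ i ∉ h := by
        by_contra hne
        apply hS
        intro i j hij hcij hj
        by_contra hi
        exact hne ⟨i, j, hij, hcij, hj, hi⟩
      obtain ⟨i0, j0, hij0, hc0, hj0, hi0⟩ := h1
      obtain ⟨i, j, hij, hcij, hi, hj⟩ := unsorted hc h i0 hi0 ((j0 : ℕ) - i0) j0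
        (by rw [Fin.le_def] at hij0; omega) hc0 hj0
      set h0 := h.erase j with hh0
      have hh : insert j h0 = h := Finset.insert_erase hj
      have hne : i ≠ j := by
        intro he
        rw [he] at hij
        omega
      have hi1 : i ∉ h0 := fun hx => hi (Finset.mem_of_mem_erase hx)
      have hj1 : j ∉ h0 := Finset.notMem_erase _ _
      have hcard : h.card = h0.card + 1 := by
        rw [← hh, Finset.card_insert_of_notMem hj1]
      have hcard' : (insert i h0).card = h.card := by
        rw [Finset.card_insert_of_notMem hi1, hcard]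
      have hcard2 : (insert i (insert j h0)).card = h.card + 1 := by
        rw [hh, Finset.card_insert_of_notMem hi]
      have hsum : ∑ x ∈ insert i h0, (x : ℕ) < s := by
        rw [Finset.sum_insert hi1, ← hs, ← hh, Finset.sum_insert hj1]
        omega
      have hss : S.cj (swap i j) (S.Z (S.th (S.cj (swap i j) w))) = S.Z (S.th w) := by
        rw [S.cj_Z, S.cj_th, ← S.cj_mul, swap_mul_self, S.cj_one]
      have hrel : dl h (S.Z (S.th w)) - dl (insert i h0) (S.Z (S.th (S.cj (swap i j) w))) +
          kap h0.card • dl (insert i (insert j h0)) (S.Z (S.th (S.cj (swap i j) w))) ∈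
            S.Rel c := by
        refine AddSubgroup.subset_closure ⟨i, j, h0, S.Z (S.th (S.cj (swap i j) w)), hij, hcij,
          hi1, hj1, ?_⟩
        right; right; left
        rw [hss, hh]
      have hmem : dl h (S.Z (S.th w)) - dl (insert i h0) (S.Z (S.th (S.cj (swap i j) w))) ∈
          S.F c (h.card + 1) := by
        have h2 := S.Rel_le_F' c (h.card + 1) hrel
        have h3 : kap h0.card • dl (insert i (insert j h0))
            (S.Z (S.th (S.cj (swap i j) w))) ∈ S.F c (h.card + 1) :=
          AddSubgroup.zsmul_mem _ (S.gen_mem_F c _ _ (le_of_eq hcard2.symm) _) _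
        have h4 := AddSubgroup.sub_mem _ h2 h3
        rwa [add_sub_cancel_right] at h4
      obtain ⟨B, w', hB1, hB2, hB3⟩ := ih _ hsum (insert i h0) (S.cj (swap i j) w) rfl
      refine ⟨B, w', hB1, hB2.trans hcard', ?_⟩
      rw [hcard'] at hB3
      have h5 := AddSubgroup.add_mem _ hmem hB3
      rwa [sub_add_sub_cancel] at h5

/-- E2b -/
theorem CS.decomp (hc : Inter c) (j : ℕ) (u : Finset (Fin n) → M) (hu : u ∈ S.F c j) :
    ∃ w : Finset (Fin n) → M, (∀ B, ¬ (Srt c B ∧ B.card = j) → w B = 0) ∧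
      u - ∑ B, dl B (S.Z (S.th (w B))) ∈ S.F c (j + 1) := by
  classical
  have hZ0 : S.Z 0 = 0 := S.Z_zero
  obtain ⟨a, ha, b, hb, rfl⟩ := AddSubgroup.mem_sup.1 hu
  have key : ∃ w : Finset (Fin n) → M, (∀ B, ¬ (Srt c B ∧ B.card = j) → w B = 0) ∧
      a - ∑ B, dl B (S.Z (S.th (w B))) ∈ S.F c (j + 1) := by
    clear hu
    induction ha using AddSubgroup.closure_induction with
    | mem x hx =>
      obtain ⟨h, w, hj, rfl⟩ := hx
      rcases lt_or_eq_of_le hj with hlt | heq
      · refine ⟨0, fun _ _ => rfl, ?_⟩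
        have h1 : ∑ B : Finset (Fin n), dl B (S.Z (S.th ((0 : Finset (Fin n) → M) B))) = 0 := by
          refine Finset.sum_eq_zero fun B _ => ?_
          rw [Pi.zero_apply, map_zero, hZ0, dl_zero]
        rw [h1, sub_zero]
        exact S.gen_mem_F c _ _ hlt _
      · obtain ⟨B, w', hB1, hB2, hB3⟩ := S.sort_one c hc h w
        refine ⟨Pi.single B w', ?_, ?_⟩
        · intro B' hB'
          by_cases hBB : B' = B
          · rw [hBB] at hB'
            exact absurd ⟨hB1, hB2.trans heq.symm⟩ hB'
          · exact Pi.single_eq_of_ne hBB _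
        · have h1 : ∑ B' : Finset (Fin n), dl B' (S.Z (S.th ((Pi.single B w' :
              Finset (Fin n) → M) B'))) = dl B (S.Z (S.th w')) := by
            rw [Finset.sum_eq_single B]
            · rw [Pi.single_eq_same]
            · intro B' _ hB'
              rw [Pi.single_eq_of_ne hB', map_zero, hZ0, dl_zero]
            · intro hx
              exact absurd (Finset.mem_univ _) hx
          rw [h1, heq]
          exact hB3
    | zero =>
      refine ⟨0, fun _ _ => rfl, ?_⟩
      have h1 : ∑ B : Finset (Fin n), dl B (S.Z (S.th ((0 : Finset (Fin n) → M) B))) = 0 := by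
        refine Finset.sum_eq_zero fun B _ => ?_
        rw [Pi.zero_apply, map_zero, hZ0, dl_zero]
      rw [h1, sub_zero]
      exact AddSubgroup.zero_mem _
    | add x y _ _ hx hy =>
      obtain ⟨w1, h1, h2⟩ := hx
      obtain ⟨w2, h3, h4⟩ := hy
      refine ⟨w1 + w2, fun B hB => by rw [Pi.add_apply, h1 B hB, h3 B hB, add_zero], ?_⟩
      have h5 : ∑ B : Finset (Fin n), dl B (S.Z (S.th ((w1 + w2) B))) =
          ∑ B, dl B (S.Z (S.th (w1 B))) + ∑ B, dl B (S.Z (S.th (w2 B))) := by
        rw [← Finset.sum_add_distrib]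
        refine Finset.sum_congr rfl fun B _ => ?_
        rw [Pi.add_apply, map_add, S.Z_add, dl_add]
      rw [h5, add_sub_add_comm]
      exact AddSubgroup.add_mem _ h2 h4
    | neg x _ hx =>
      obtain ⟨w1, h1, h2⟩ := hx
      refine ⟨-w1, fun B hB => by rw [Pi.neg_apply, h1 B hB, neg_zero], ?_⟩
      have h5 : ∑ B : Finset (Fin n), dl B (S.Z (S.th ((-w1) B))) =
          -∑ B, dl B (S.Z (S.th (w1 B))) := by
        rw [← Finset.sum_neg_distrib]
        refine Finset.sum_congr rfl fun B _ => ?_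
        rw [Pi.neg_apply, map_neg, S.Z_neg, dl_neg]
      rw [h5]
      have h6 := AddSubgroup.neg_mem _ h2
      rwa [neg_sub'] at h6
  obtain ⟨w, hw1, hw2⟩ := key
  refine ⟨w, hw1, ?_⟩
  rw [add_sub_right_comm]
  exact AddSubgroup.add_mem _ hw2 (S.Rel_le_F' c _ hb)

end Pool.PI34.XS
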