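import Pool.Agent.LibPI34.XS_E3

/-! PI34, p = 2, block SEX: row E4. -/

set_option autoImplicit false
set_option linter.unusedSectionVars false

namespace Pool.PI34.XS

open Equiv Finset
open Pool.PI34.H4 (P g act emb As ZP JR cc AK Ac)
open Pool.PI34.XH (sgB Inter kap)

variable {N n m : ℕ} {M : Type} [AddCommGroup M] (S : CS N n m M)
variable {C : Type} [DecidableEq C] (c : Fin n → C)

/-- the letters of the catalyst and the odd letters -/
def e4i (m : ℕ) (B : Finset (Fin n)) : Fin m ⊕ {x // x ∈ B} ↪ Fin m ⊕ Fin n :=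
  ⟨Sum.map id Subtype.val, Sum.map_injective.2 ⟨Function.injective_id, Subtype.val_injective⟩⟩

/-- the colouring of the odd letters -/
abbrev e4c (B : Finset (Fin n)) : {x // x ∈ B} → C := fun t => c t.1

/-- the colouring of all the letters -/
def e4d (B : Finset (Fin n)) : Fin n → C ⊕ Fin n := fun x => if x ∈ B then Sum.inl (c x) else Sum.inr x

theorem e4_via_inr (σ : Perm (Fin n)) :
    σ.viaEmbedding (Function.Embedding.inr : Fin n ↪ Fin m ⊕ Fin n) = rr σ := by
  ext x
  rcases x with x | x
  · rw [Perm.viaEmbedding_apply_of_notMem]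
    · rfl
    · rintro ⟨y, hy⟩
      exact Sum.inr_ne_inl hy
  · exact Perm.viaEmbedding_apply σ (Function.Embedding.inr : Fin n ↪ Fin m ⊕ Fin n) x

theorem e4_AS (B : Finset (Fin n)) : AS c m B = emb Function.Embedding.inr (Ac (e4d c B)) := by
  unfold AS Ac
  rw [map_sum]
  have h1 : univ.filter (fun σ : Perm (Fin n) => c ∘ σ = c ∧ ∀ x, x ∉ B → σ x = x) =
      univ.filter (fun σ : Perm (Fin n) => e4d c B ∘ σ = e4d c B) := by
    ext σ
    rw [mem_filter, mem_filter]
    simp only [mem_univ, true_and]
    constructor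
    · rintro ⟨h1, h2⟩
      funext x
      simp only [Function.comp_apply]
      by_cases hx : x ∈ B
      · have hx' : σ x ∈ B := by
          by_contra hno
          have h3 := h2 _ hno
          rw [σ.injective h3] at hno
          exact hno hx
        unfold e4d
        rw [if_pos hx, if_pos hx']
        exact congrArg Sum.inl (congrFun h1 x)
      · rw [h2 x hx]
    · intro h
      have h3 : ∀ x, x ∉ B → σ x = x := by
        intro x hx
        have h4 := congrFun h x
        simp only [Function.comp_apply] at h4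
        unfold e4d at h4
        rw [if_neg hx] at h4
        by_cases hx' : σ x ∈ B
        · rw [if_pos hx'] at h4
          exact absurd h4 Sum.inl_ne_inr
        · rw [if_neg hx'] at h4
          exact Sum.inr_injective h4
      refine ⟨?_, h3⟩
      funext x
      simp only [Function.comp_apply]
      by_cases hx : x ∈ B
      · have h4 := congrFun h x
        simp only [Function.comp_apply] at h4
        unfold e4d at h4
        rw [if_pos hx] at h4
        by_cases hx' : σ x ∈ B
        · rw [if_pos hx'] at h4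
          exact Sum.inl_injective h4
        · rw [if_neg hx'] at h4
          exact absurd h4 Sum.inr_ne_inl
      · rw [h3 x hx]
  rw [h1]
  refine Finset.sum_congr rfl fun σ _ => ?_
  rw [H4.emb_zsmul, H4.emb_g, e4_via_inr]

theorem e4_Ac (B : Finset (Fin n)) :
    emb (e4i m B) (Ac (cc (Fin m) (e4c c B))) = AS c m B := by
  rw [e4_AS]
  have h1 : Ac (Sum.map id (e4d c B) : Fin m ⊕ Fin n → Fin m ⊕ (C ⊕ Fin n)) =
      emb (e4i m B) (Ac (cc (Fin m) (e4c c B))) := by
    apply H4.Ac_emb
    · intro x y
      rcases x with x | x <;> rcases y with y | y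
      · simp [e4i]
      · simp [e4i]
      · simp [e4i]
      · simp only [Sum.map_inr, Sum.inr.injEq, e4i, Function.Embedding.coeFn_mk, e4d]
        rw [if_pos x.2, if_pos y.2]
        exact ⟨fun h => congrArg Sum.inl h, fun h => Sum.inl_injective h⟩
    · intro z hz y hy
      rcases z with z | z
      · exact absurd ⟨Sum.inl z, rfl⟩ hz
      · have hzB : z ∉ B := fun h => hz ⟨Sum.inr ⟨z, h⟩, rfl⟩
        rcases y with y | y
        · rw [Sum.map_inl, Sum.map_inr] at hy
          exact absurd hy Sum.inl_ne_inr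
        · rw [Sum.map_inr, Sum.map_inr] at hy
          have h4 := Sum.inr_injective hy
          unfold e4d at h4
          rw [if_neg hzB] at h4
          by_cases hx' : y ∈ B
          · rw [if_pos hx'] at h4
            exact absurd h4 Sum.inl_ne_inr
          · rw [if_neg hx'] at h4
            exact congrArg Sum.inr (Sum.inr_injective h4)
  have h2 : Ac (Sum.map id (e4d c B) : Fin m ⊕ Fin n → Fin m ⊕ (C ⊕ Fin n)) =
      emb Function.Embedding.inr (Ac (e4d c B)) := by
    apply H4.Ac_emb
    · intro x y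
      simp
    · intro z hz y hy
      rcases z with z | z
      · rcases y with y | y
        · rw [Sum.map_inl, Sum.map_inl] at hy
          exact congrArg Sum.inl (Sum.inl_injective hy)
        · rw [Sum.map_inl, Sum.map_inr] at hy
          exact absurd hy Sum.inr_ne_inl
      · exact absurd ⟨z, rfl⟩ hz
  rw [← h1, h2]

/-- the functional of a set of odd letters kills `JR` -/
theorem e4_JR (hc : Inter c) (B : Finset (Fin n)) (hB : Srt c B) (w : M)
    (u : P (Fin m ⊕ {x // x ∈ B})) (hu : u ∈ JR N (cc (Fin m) (e4c c B))) :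
    dl B (S.A (emb (e4i m B) u) w) ∈ S.Rel c := by
  let Λ : P (Fin m ⊕ {x // x ∈ B}) →+ (Finset (Fin n) → M) :=
    (AddMonoidHom.single (fun _ : Finset (Fin n) => M) B).comp
      ((AddMonoidHom.eval w).comp ((S.A.comp (emb (e4i m B))).toAddMonoidHom))
  have hΛ : ∀ u, Λ u = dl B (S.A (emb (e4i m B) u) w) := fun u => rfl
  have h1 : JR N (cc (Fin m) (e4c c B)) ≤ (S.Rel c).comap Λ := by
    unfold JR
    rw [AddSubgroup.closure_le]
    rintro x (⟨i, j, a, hij, hcc, rfl⟩ | hx)
    · change Λ _ ∈ S.Rel c
      rw [hΛ]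
      rcases i with i | i <;> rcases j with j | j
      · exact absurd (congrArg Sum.inl (Sum.inl_injective hcc)) hij
      · exact absurd hcc Sum.inl_ne_inr
      · exact absurd hcc Sum.inr_ne_inl
      · have hne : i.1 ≠ j.1 := fun h => hij (congrArg Sum.inr (Subtype.ext h))
        have h2 := S.odd_swap c hc B hB i.1 j.1 hne i.2 j.2 (Sum.inr_injective hcc)
          (S.A (emb (e4i m B) a) w)
        have h3 : emb (e4i m B) ((1 + g (swap (Sum.inr i) (Sum.inr j))) * a) =
            emb (e4i m B) a + g (rr (swap i.1 j.1)) * emb (e4i m B) a := by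
          rw [map_mul, map_add, map_one, H4.emb_g, H4.swap_via, add_mul, one_mul]
          congr 3
          rw [← e4_via_inr, H4.swap_via]
          rfl
        have h4 : S.A (emb (e4i m B) ((1 + g (swap (Sum.inr i) (Sum.inr j))) * a)) w =
            S.A (emb (e4i m B) a) w + S.cj (swap i.1 j.1) (S.A (emb (e4i m B) a) w) := by
          rw [h3, map_add, map_mul]
          rfl
        rw [h4]
        have h5 : dl B (S.A (emb (e4i m B) a) w + S.cj (swap i.1 j.1) (S.A (emb (e4i m B) a) w)) =
            dl B (S.cj (swap i.1 j.1) (S.A (emb (e4i m B) a) w)) +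
              dl B (S.A (emb (e4i m B) a) w) := by
          unfold dl
          rw [Pi.single_add, add_comm]
        rw [h5]
        exact h2
    · change Λ _ ∈ S.Rel c
      rw [hΛ]
      have h2 : act N _ (emb (e4i m B) x) = 0 := H4.act_emb_eq_zero _ _ hx
      rw [S.ker _ h2]
      have h3 : dl B ((0 : AddMonoid.End M) w) = 0 := by
        unfold dl
        exact Pi.single_zero _
      rw [h3]
      exact (S.Rel c).zero_mem
  exact h1 hu

theorem e4_dl_sub (B : Finset (Fin n)) (x y : M) : dl B (x - y) = dl B x - dl B y :=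
  Pi.single_sub _ _ _

theorem e4_dl_zsmul (B : Finset (Fin n)) (k : ℤ) (x : M) : dl B (k • x) = k • dl B x :=
  map_zsmul (AddMonoidHom.single (fun _ : Finset (Fin n) => M) B) k x

theorem e4_A_zsmul (k : ℤ) (q : P (Fin m ⊕ Fin n)) (x : M) : S.A (k • q) x = k • S.A q x := by
  rw [map_zsmul]
  rfl

theorem e4_inl (B : Finset (Fin n)) (y : P (Fin m)) :
    emb (e4i m B) (emb Function.Embedding.inl y) = emb Function.Embedding.inl y := by
  rw [H4.emb_trans]
  rfl

/-- E4: telescope (blocks of size at most `N`). -/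
theorem CS.tele (hc : Inter c) (B : Finset (Fin n)) (hB : Srt c B)
    (hN : ∀ a, (B.filter (fun x => c x = a)).card ≤ N) :
    ∃ (q : P (Fin m ⊕ Fin n)) (F : ℤ), Odd F ∧
      (∀ y : P (Fin m), Commute (emb Function.Embedding.inl y) q) ∧
      (∀ σ : Perm (Fin n), (∀ x ∈ B, σ x = x) → Commute (g (rr σ)) q) ∧
      ∀ w : M, (N.factorial : ℤ) • (F • dl B (S.Z w) - dl B (S.A (q * AS c m B) (S.Z w)))
        ∈ S.Rel c := by
  have hN' : ∀ a, (univ.filter (fun t : {x // x ∈ B} => e4c c B t = a)).card ≤ N := by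
    intro a
    refine le_trans (le_of_eq ?_) (hN a)
    rw [← Finset.card_map (Function.Embedding.subtype fun x => x ∈ B)]
    congr 1
    ext x
    rw [mem_map, mem_filter]
    constructor
    · rintro ⟨t, ht, rfl⟩
      rw [mem_filter] at ht
      exact ⟨t.2, ht.2⟩
    · rintro ⟨hx, hxa⟩
      exact ⟨⟨x, hx⟩, mem_filter.2 ⟨mem_univ _, hxa⟩, rfl⟩
  obtain ⟨q, F, hF, hq, -, hJ⟩ := H4.telescope (T := {x // x ∈ B}) S.hz (e4c c B) hN'
    (univ.image (e4c c B))
  rw [← H4.Ac_eq_AK] at hJ
  refine ⟨emb (e4i m B) q, F, ?_, ?_, ?_, ?_⟩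
  · rw [← Int.not_even_iff_odd, even_iff_two_dvd]
    intro h2
    have := hF.isUnit_of_dvd' h2 dvd_rfl
    rw [Int.isUnit_iff] at this
    omega
  · intro y
    rw [← e4_inl (n := n) B y]
    exact (hq y).map _
  · intro σ hσ
    refine (H4.commute_of_g (e4i m B) (fun τ => ?_) q).symm
    unfold Commute SemiconjBy
    rw [← H4.g_mul, ← H4.g_mul]
    congr 1
    ext z
    simp only [Perm.mul_apply]
    by_cases hz : z ∈ Set.range (e4i m B)
    · obtain ⟨x, rfl⟩ := hz
      have h1 : ∀ x, rr σ (e4i m B x) = e4i m B x := by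
        intro x
        rcases x with x | x
        · rfl
        · exact congrArg Sum.inr (hσ x.1 x.2)
      rw [h1, Perm.viaEmbedding_apply, h1]
    · have h1 : ∀ z, z ∉ Set.range (e4i m B) → rr σ z ∉ Set.range (e4i m B) := by
        intro z hz h2
        apply hz
        rcases z with z | z
        · exact ⟨Sum.inl z, rfl⟩
        · obtain ⟨y, hy⟩ := h2
          rcases y with y | y
          · exact absurd hy Sum.inl_ne_inr
          · have h3 : y.1 = σ z := Sum.inr_injective hy
            have h4 : σ z = z := by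
              have h5 := hσ _ y.2
              rw [h3] at h5
              exact σ.injective h5
            exact ⟨Sum.inr y, by rw [h4] at h3; exact congrArg Sum.inr h3⟩
      rw [Perm.viaEmbedding_apply_of_notMem _ _ _ hz, Perm.viaEmbedding_apply_of_notMem _ _ _ (h1 z hz)]
  · intro w
    have h1 := e4_JR S c hc B hB w _ hJ
    rw [H4.emb_zsmul, e4_A_zsmul, e4_dl_zsmul, map_sub, map_mul (emb (e4i m B)),
      map_mul (emb (e4i m B)), H4.emb_zsmul, e4_Ac, e4_inl] at h1
    have h2 : S.A (F • emb Function.Embedding.inl S.z -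
        emb (e4i m B) q * AS c m B * emb Function.Embedding.inl S.z) w =
        F • S.Z w - S.A (emb (e4i m B) q * AS c m B) (S.Z w) := by
      unfold CS.Z
      rw [map_sub, map_mul, map_zsmul]
      rfl
    rw [h2, e4_dl_sub, e4_dl_zsmul] at h1
    exact h1

/-- E4b: a large block. -/
theorem CS.large (hc : Inter c) (B : Finset (Fin n)) (hB : Srt c B) (a : C)
    (hN : N < (B.filter (fun x => c x = a)).card) (w : M) :
    ((N + 1).factorial : ℤ) • dl B w ∈ S.Rel c := by
  obtain ⟨s, hs, hcard⟩ := Finset.exists_subset_card_eq (show N + 1 ≤ _ from hN)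
  obtain ⟨e0, he0⟩ : ∃ e0 : Fin (N + 1) ↪ Fin n, ∀ i, e0 i ∈ s :=
    ⟨(s.orderEmbOfFin hcard).toEmbedding, fun i => Finset.orderEmbOfFin_mem s hcard i⟩
  have heB : ∀ i, e0 i ∈ B := fun i => (mem_filter.1 (hs (he0 i))).1
  have hec : ∀ i, c (e0 i) = a := fun i => (mem_filter.1 (hs (he0 i))).2
  let ι : Fin (N + 1) ↪ Fin m ⊕ {x // x ∈ B} :=
    ⟨fun i => Sum.inr (⟨e0 i, heB i⟩ : {x // x ∈ B}), fun i j h => by
      have h5 : (⟨e0 i, heB i⟩ : {x // x ∈ B}) = ⟨e0 j, heB j⟩ := Sum.inr_injective h
      exact e0.injective (congrArg Subtype.val h5)⟩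
  have h1 := H4.JR_average (N := N) (cc (Fin m) (e4c c B)) ι (fun i j => by
    change Sum.inr (c (e0 i)) = Sum.inr (c (e0 j))
    rw [hec, hec]) 1
  have h2 : emb ι (As (Fin (N + 1))) * 1 ∈ JR N (cc (Fin m) (e4c c B)) := by
    rw [mul_one]
    apply AddSubgroup.subset_closure
    exact Or.inr (H4.act_emb_eq_zero _ _ (H4.act_As (by simp)))
  have h3 := (JR N (cc (Fin m) (e4c c B))).add_mem h1 h2
  rw [sub_add_cancel] at h3
  have h4 := e4_JR S c hc B hB w _ h3
  rw [H4.emb_zsmul, e4_A_zsmul, e4_dl_zsmul, map_one, map_one] at h4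
  exact h4

end Pool.PI34.XS
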