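import Pool.Agent.LibPI34.XS_E0

/-! PI34, p = 2, block SEX, row E5: the even step. -/

set_option autoImplicit false
set_option linter.unusedSectionVars false

namespace Pool.PI34.XS

open Equiv Finset
open Pool.PI34.H4 (P g act emb As ZP JR cc AK Ac)
open Pool.PI34.XH (sgB Inter kap)

variable {N n m : ℕ} {M : Type} [AddCommGroup M] (S : CS N n m M)
variable {C : Type} [DecidableEq C] (c : Fin n → C)

/-! ### invariance of the lowest part -/

section inv

variable {c}

/-- the invariance under `σ` at the place `B` -/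
def CS.Iv (c : Fin n → C) (B : Finset (Fin n)) (σ : Perm (Fin n)) : Prop :=
  ∀ v : M, dl B (S.cj σ (S.Z (S.th v))) - dl B (S.Z (S.th v)) ∈ S.F c (B.card + 1)

theorem CS.Iv_one (B : Finset (Fin n)) : S.Iv c B 1 := by
  intro v
  rw [S.cj_one, sub_self]
  exact AddSubgroup.zero_mem _

theorem CS.Iv_mul (B : Finset (Fin n)) {σ τ : Perm (Fin n)} (hσ : S.Iv c B σ)
    (hτ : S.Iv c B τ) : S.Iv c B (σ * τ) := by
  intro v
  have h1 := hσ (S.cj τ v)
  have h2 := hτ v
  rw [← S.cj_th, ← S.cj_Z] at h1
  rw [S.cj_mul]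
  have h3 := AddSubgroup.add_mem _ h1 h2
  rw [sub_add_sub_cancel] at h3
  exact h3

theorem CS.Iv_adj (B : Finset (Fin n)) (i j : Fin n) (hij : (j : ℕ) = i + 1) (hc : c i = c j)
    (hi : i ∉ B) (hj : j ∉ B) : S.Iv c B (swap i j) := by
  intro v
  have h1 : dl B (S.cj (swap i j) (S.Z (S.th v))) - dl B (S.Z (S.th v))
      + dl (insert i (insert j B)) (S.Z (S.th v)) ∈ S.F c (B.card + 1) := by
    refine AddSubgroup.mem_sup_right (AddSubgroup.subset_closure ?_)
    exact ⟨i, j, B, S.Z (S.th v), hij, hc, hi, hj, Or.inl rfl⟩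
  have h2 : dl (insert i (insert j B)) (S.Z (S.th v)) ∈ S.F c (B.card + 1) := by
    refine AddSubgroup.mem_sup_left (AddSubgroup.subset_closure ?_)
    refine ⟨_, v, ?_, rfl⟩
    have hne : i ≠ j := by
      rintro rfl
      omega
    rw [card_insert_of_notMem, card_insert_of_notMem hj]
    · omega
    · rw [mem_insert, not_or]
      exact ⟨hne, hi⟩
  have h3 := AddSubgroup.sub_mem _ h1 h2
  rw [add_sub_cancel_right] at h3
  exact h3

theorem CS.Iv_swap (hc : Inter c) (B : Finset (Fin n)) (hB : Srt c B) :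
    ∀ (d : ℕ) (a b : Fin n), (b : ℕ) = a + d → c a = c b → a ∉ B → b ∉ B →
      S.Iv c B (swap a b) := by
  intro d
  induction d with
  | zero =>
    intro a b hab _ _ _
    have h : a = b := Fin.ext (by omega)
    rw [h, swap_self]
    exact S.Iv_one B
  | succ d ih =>
    intro a b hab hcab ha hb
    by_cases hd : d = 0
    · exact S.Iv_adj B a b (by omega) hcab ha hb
    · -- the neighbour of `a`
      have hlt : (a : ℕ) + 1 < n := by
        have := b.2
        omega
      let l : Fin n := ⟨a + 1, hlt⟩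
      have hl : (l : ℕ) = a + 1 := rfl
      have hal : a ≤ l := by
        rw [Fin.le_def]; omega
      have hlb : l ≤ b := by
        rw [Fin.le_def]; omega
      have hcl : c l = c a := hc a l b hal hlb hcab
      have hlB : l ∉ B := fun h => ha (hB a l hal hcl.symm h)
      have h1 : S.Iv c B (swap a l) := S.Iv_adj B a l hl hcl.symm ha hlB
      have h2 : S.Iv c B (swap l b) := ih l b (by omega) (hcl.trans hcab) hlB hb
      have hne : a ≠ b := by
        rintro rfl
        omega
      have hne' : l ≠ b := by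
        intro h
        have := congrArg Fin.val h
        omega
      have hne'' : a ≠ l := by
        intro h
        have := congrArg Fin.val h
        omega
      have h3 : swap a b = swap a l * swap l b * swap a l := by
        rw [swap_comm a l, swap_comm l b]
        exact (swap_mul_swap_mul_swap hne'.symm hne.symm).symm
      rw [h3]
      exact S.Iv_mul B (S.Iv_mul B h1 h2) h1

theorem CS.Iv_all (hc : Inter c) (B : Finset (Fin n)) (hB : Srt c B) (σ : Perm (Fin n))
    (hσ : c ∘ σ = c) (hσB : ∀ x ∈ B, σ x = x) : S.Iv c B σ := by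
  induction h : σ.support.card using Nat.strong_induction_on generalizing σ with
  | _ k ih =>
    by_cases h1 : σ = 1
    · rw [h1]
      exact S.Iv_one B
    · obtain ⟨a, ha⟩ : ∃ a, σ a ≠ a := by
        by_contra hne
        push Not at hne
        exact h1 (Equiv.ext hne)
      have haB : a ∉ B := fun h => ha (hσB a h)
      have hbB : σ a ∉ B := fun h => ha (σ.injective (hσB _ h))
      have hcab : c a = c (σ a) := (congrFun hσ a).symm
      have hsw : S.Iv c B (swap a (σ a)) := by
        rcases le_total a (σ a) with hle | hle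
        · exact S.Iv_swap hc B hB ((σ a : ℕ) - a) a (σ a) (by
            have : (a : ℕ) ≤ σ a := hle
            omega) hcab haB hbB
        · rw [swap_comm]
          exact S.Iv_swap hc B hB ((a : ℕ) - σ a) (σ a) a (by
            have : (σ a : ℕ) ≤ a := hle
            omega) hcab.symm hbB haB
      have hlt := Perm.card_support_swap_mul ha
      rw [h] at hlt
      have h2 : S.Iv c B (swap a (σ a) * σ) := by
        refine ih _ hlt (swap a (σ a) * σ) ?_ ?_ rfl
        · funext x
          have h3 : ∀ y, c (swap a (σ a) y) = c y := by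
            intro y
            by_cases hy : y = a
            · rw [hy, swap_apply_left, hcab]
            · by_cases hy' : y = σ a
              · rw [hy', swap_apply_right, hcab]
              · rw [swap_apply_of_ne_of_ne hy hy']
          rw [Function.comp_apply, Perm.mul_apply, h3]
          exact congrFun hσ x
        · intro x hx
          rw [Perm.mul_apply, hσB x hx, swap_apply_of_ne_of_ne]
          · rintro rfl
            exact haB hx
          · rintro rfl
            exact hbB hx
      have h3 := S.Iv_mul B hsw h2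
      rw [← mul_assoc, swap_mul_self, one_mul] at h3
      exact h3

end inv

/-! ### the sign -/

theorem sign_eq_inv (σ : Perm (Fin n)) : ((Perm.sign σ : ℤˣ) : ℤ)
    = (-1) ^ ((univ.filter fun p : Fin n × Fin n => p.1 < p.2 ∧ σ p.2 < σ p.1).card) := by
  rw [Perm.sign_eq_prod_prod_Ioi]
  have h1 : ∀ i : Fin n, (∏ j ∈ Ioi i, if σ i < σ j then (1 : ℤˣ) else -1)
      = ∏ j, if i < j ∧ σ j < σ i then (-1 : ℤˣ) else 1 := by
    intro i
    rw [← Finset.prod_subset (Finset.subset_univ (Ioi i))]
    · refine Finset.prod_congr rfl fun j hj => ?_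
      rw [mem_Ioi] at hj
      by_cases h : σ i < σ j
      · rw [if_pos h, if_neg (fun h' => absurd h'.2 (not_lt.2 h.le))]
      · rw [if_neg h, if_pos ⟨hj, lt_of_le_of_ne (not_lt.1 h)
          (fun e => hj.ne' (σ.injective e))⟩]
    · intro j _ hj
      rw [mem_Ioi] at hj
      rw [if_neg (fun h => hj h.1)]
  simp only [h1]
  rw [← Finset.prod_product', Finset.univ_product_univ, ← Finset.prod_filter,
    Finset.prod_const]
  simp

theorem sgB_eq (hc : Inter c) (B : Finset (Fin n)) (hB : Srt c B) (τ α : Perm (Fin n))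
    (hα : c ∘ α = c) (hαB : ∀ x, x ∉ B → α x = x) (hτ : ∀ x ∈ B, τ x = x) :
    sgB (τ * α) B = ((Perm.sign α : ℤˣ) : ℤ) := by
  rw [sign_eq_inv]
  unfold sgB
  congr 2
  ext p
  simp only [mem_filter, mem_univ, true_and]
  have hmem : ∀ x, x ∈ B → α x ∈ B := by
    intro x hx
    by_contra h
    have h1 := hαB _ h
    have h2 := α.injective h1
    rw [h2] at h
    exact h hx
  have hval : ∀ x, x ∈ B → (τ * α) x = α x := fun x hx => by
    rw [Perm.mul_apply, hτ _ (hmem x hx)]
  have hmem2 : ∀ x, (τ * α) x ∈ B → x ∈ B := by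
    intro x hx
    by_contra h
    rw [Perm.mul_apply, hαB x h] at hx
    have h1 := τ.injective (hτ _ hx)
    rw [h1] at hx
    exact h hx
  constructor
  · rintro ⟨h1, h2, h3, h4⟩
    refine ⟨h1, ?_⟩
    rw [hval _ (hmem2 _ h3), hval _ (hmem2 _ h4)] at h2
    exact h2
  · rintro ⟨h1, h2⟩
    have hp1 : p.1 ∈ B := by
      by_contra h
      have e1 := hαB _ h
      rw [e1] at h2
      have hp2 : p.2 ∈ B := by
        by_contra h'
        rw [hαB _ h'] at h2
        exact absurd h1 (not_lt.2 h2.le)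
      have e2 : c p.1 = c p.2 := by
        have e3 : c (α p.2) = c p.2 := congrFun hα p.2
        rw [← e3]
        exact hc (α p.2) p.1 p.2 h2.le h1.le e3
      exact h (hB p.1 p.2 h1.le e2 hp2)
    have hp2 : p.2 ∈ B := by
      by_contra h
      have e1 := hαB _ h
      rw [e1] at h2
      have e3 : c (α p.1) = c p.1 := congrFun hα p.1
      have e2 : c p.2 = c p.1 := hc p.1 p.2 (α p.1) h1.le h2.le e3.symm
      exact h (hB p.2 (α p.1) h2.le (e2.trans e3.symm) (hmem _ hp1))
    refine ⟨h1, ?_, ?_, ?_⟩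
    · rw [hval _ hp1, hval _ hp2]
      exact h2
    · rw [hval _ hp1]
      exact hmem _ hp1
    · rw [hval _ hp2]
      exact hmem _ hp2

/-! ### the norm of the stabiliser -/

/-- the colouring with the letters of `B` made different -/
def cB (B : Finset (Fin n)) (x : Fin n) : C ⊕ Fin n := if x ∈ B then Sum.inr x else Sum.inl (c x)

theorem cB_iff (B : Finset (Fin n)) (σ : Perm (Fin n)) :
    cB c B ∘ σ = cB c B ↔ c ∘ σ = c ∧ ∀ x ∈ B, σ x = x := by
  constructor
  · intro h
    have h1 : ∀ x ∈ B, σ x = x := by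
      intro x hx
      have h2 := congrFun h x
      unfold cB at h2
      rw [Function.comp_apply, if_pos hx] at h2
      split_ifs at h2 with h3
      exact Sum.inr_injective h2
    refine ⟨?_, h1⟩
    funext x
    rw [Function.comp_apply]
    by_cases hx : x ∈ B
    · rw [h1 x hx]
    · have h2 := congrFun h x
      unfold cB at h2
      rw [Function.comp_apply, if_neg hx] at h2
      split_ifs at h2 with h3
      exact Sum.inl_injective h2
  · rintro ⟨h1, h2⟩
    funext x
    unfold cB
    rw [Function.comp_apply]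
    by_cases hx : x ∈ B
    · rw [h2 x hx]
    · have h3 : σ x ∉ B := by
        intro h
        have h4 := σ.injective (h2 _ h)
        rw [h4] at h
        exact hx h
      rw [if_neg hx, if_neg h3]
      congr 1
      exact congrFun h1 x

theorem CS.A_AS (B : Finset (Fin n)) (y : M) : S.A (AS c m B) y
    = ∑ α ∈ univ.filter (fun σ : Perm (Fin n) => c ∘ σ = c ∧ ∀ x, x ∉ B → σ x = x),
      ((Perm.sign α : ℤˣ) : ℤ) • S.cj α y := by
  unfold AS
  rw [S.A_sum]
  exact Finset.sum_congr rfl fun α _ => S.A_zsmul _ _ _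

theorem CS.NB_eq (hc : Inter c) (B : Finset (Fin n)) (hB : Srt c B) (y : M) :
    S.NB c B y = ∑ τ ∈ univ.filter (fun τ : Perm (Fin n) => cB c B ∘ τ = cB c B),
      S.cj τ (S.A (AS c m B) y) := by
  have h1 : ∀ τ ∈ univ.filter (fun τ : Perm (Fin n) => cB c B ∘ τ = cB c B),
      S.cj τ (S.A (AS c m B) y)
        = ∑ α ∈ univ.filter (fun σ : Perm (Fin n) => c ∘ σ = c ∧ ∀ x, x ∉ B → σ x = x),
          sgB (τ * α) B • S.cj (τ * α) y := by
    intro τ hτ
    rw [mem_filter, cB_iff] at hτ
    rw [S.A_AS, S.cj_sum]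
    refine Finset.sum_congr rfl fun α hα => ?_
    rw [mem_filter] at hα
    rw [S.cj_zsmul, S.cj_mul, sgB_eq c hc B hB τ α hα.2.1 hα.2.2 hτ.2.2]
  rw [Finset.sum_congr rfl h1, ← Finset.sum_product']
  unfold CS.NB
  symm
  refine Finset.sum_bij (fun p _ => p.1 * p.2) ?_ ?_ ?_ ?_
  · rintro ⟨τ, α⟩ hp
    rw [mem_product, mem_filter, mem_filter, cB_iff] at hp
    obtain ⟨⟨_, hτ1, hτ2⟩, ⟨_, hα1, hα2⟩⟩ := hp
    dsimp only at hτ1 hτ2 hα1 hα2 ⊢
    rw [mem_filter]
    refine ⟨mem_univ _, ?_, ?_⟩
    · funext x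
      rw [Function.comp_apply, Perm.mul_apply]
      exact (congrFun hτ1 (α x)).trans (congrFun hα1 x)
    · have hmem : ∀ x, x ∈ B → α x ∈ B := by
        intro x hx
        by_contra h
        have h1 := hα2 _ h
        have h2 := α.injective h1
        rw [h2] at h
        exact h hx
      refine Finset.eq_of_subset_of_card_le ?_ (by rw [card_map])
      intro z hz
      rw [mem_map] at hz
      obtain ⟨x, hx, rfl⟩ := hz
      change (τ * α) x ∈ B
      rw [Perm.mul_apply, hτ2 _ (hmem x hx)]
      exact hmem x hx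
  · rintro ⟨τ, α⟩ hp ⟨τ', α'⟩ hp' he
    rw [mem_product, mem_filter, mem_filter, cB_iff] at hp hp'
    obtain ⟨⟨_, hτ1, hτ2⟩, ⟨_, hα1, hα2⟩⟩ := hp
    obtain ⟨⟨_, hτ1', hτ2'⟩, ⟨_, hα1', hα2'⟩⟩ := hp'
    dsimp only at hτ1 hτ2 hα1 hα2 hτ1' hτ2' hα1' hα2' he
    have hmem : ∀ α : Perm (Fin n), (∀ x, x ∉ B → α x = x) → ∀ x, x ∈ B → α x ∈ B := by
      intro α hα2 x hx
      by_contra h
      have h1 := hα2 _ h
      have h2 := α.injective h1
      rw [h2] at h
      exact h hx
    have h2 : α = α' := by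
      ext1 x
      by_cases hx : x ∈ B
      · have h3 := Equiv.congr_fun he x
        rw [Perm.mul_apply, Perm.mul_apply, hτ2 _ (hmem α hα2 x hx),
          hτ2' _ (hmem α' hα2' x hx)] at h3
        exact h3
      · rw [hα2 x hx, hα2' x hx]
    subst h2
    rw [mul_right_cancel he]
  · intro σ hσ
    rw [mem_filter] at hσ
    obtain ⟨_, hσ1, hσ2⟩ := hσ
    have hiff : ∀ x, x ∈ B ↔ σ x ∈ B := by
      intro x
      constructor
      · intro hx
        rw [← hσ2]
        exact mem_map_of_mem σ.toEmbedding hx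
      · intro hx
        rw [← hσ2, mem_map] at hx
        obtain ⟨y, hy, hxy⟩ := hx
        rw [← σ.injective hxy]
        exact hy
    let α : Perm (Fin n) := Perm.ofSubtype (σ.subtypePerm (fun x => (hiff x).symm))
    have hα1 : ∀ x ∈ B, α x = σ x := by
      intro x hx
      exact Perm.ofSubtype_apply_of_mem _ hx
    have hα2 : ∀ x, x ∉ B → α x = x := by
      intro x hx
      exact Perm.ofSubtype_apply_of_not_mem _ hx
    have hα3 : c ∘ α = c := by
      funext x
      rw [Function.comp_apply]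
      by_cases hx : x ∈ B
      · rw [hα1 x hx]
        exact congrFun hσ1 x
      · rw [hα2 x hx]
    have hinv' : ∀ x, α (α⁻¹ x) = x := fun x => α.apply_symm_apply x
    have hαi : ∀ x, c (α⁻¹ x) = c x := by
      intro x
      have h := congrFun hα3 (α⁻¹ x)
      rw [Function.comp_apply, hinv'] at h
      exact h.symm
    refine ⟨(σ * α⁻¹, α), ?_, ?_⟩
    · rw [mem_product, mem_filter, mem_filter, cB_iff]
      refine ⟨⟨mem_univ _, ?_, ?_⟩, ⟨mem_univ _, hα3, hα2⟩⟩
      · funext x
        change c (σ (α⁻¹ x)) = c x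
        rw [← hαi x]
        exact congrFun hσ1 _
      · intro x hx
        change σ (α⁻¹ x) = x
        have h1 : α⁻¹ x ∈ B := by
          by_contra h
          have h2 := hα2 _ h
          rw [hinv'] at h2
          rw [← h2] at h
          exact h hx
        rw [← hα1 _ h1, hinv']
    · change σ * α⁻¹ * α = σ
      rw [inv_mul_cancel_right]
  · intro p _
    rfl

/-! ### the even step -/

theorem CS.Z_A {q : P (Fin m ⊕ Fin n)} (hq : ∀ y : P (Fin m),
    Commute (emb Function.Embedding.inl y) q) (x : M) : S.Z (S.A q x) = S.A q (S.Z x) := by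
  unfold CS.Z
  rw [← S.A_mul, ← S.A_mul, (hq S.z).eq]

theorem AS_comm (B : Finset (Fin n)) (y : P (Fin m)) :
    Commute (emb Function.Embedding.inl y) (AS c m B) := by
  unfold AS
  refine Commute.sum_right _ _ _ fun σ _ => ?_
  exact Commute.smul_right (commute_inl_rr y σ) _

/-- E5: the even step. -/
theorem CS.even_step (hc : Inter c) (B : Finset (Fin n)) (hB : Srt c B)
    (q : P (Fin m ⊕ Fin n)) (hq : ∀ y : P (Fin m), Commute (emb Function.Embedding.inl y) q)
    (hq2 : ∀ σ : Perm (Fin n), (∀ x ∈ B, σ x = x) → Commute (g (rr σ)) q) (w : M)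
    (hw : S.NB c B (S.Z (S.th w)) = 0) :
    ∃ o : ℤ, Odd o ∧ o • dl B (S.A (q * AS c m B) (S.Z (S.th w))) ∈ S.F c (B.card + 1) := by
  -- the element
  set w' : M := S.A (AS c m B) (S.Z w) with hw'
  have e1 : S.A (AS c m B) (S.Z (S.th w)) = S.th w' := by
    rw [hw', S.Z_th, S.thA]
  have e2 : ∑ σ ∈ univ.filter (fun σ : Perm (Fin n) => cB c B ∘ σ = cB c B),
      S.A (g (rr σ)) (S.th w') = 0 := by
    rw [S.NB_eq c hc B hB, e1] at hw
    exact hw
  -- the functional
  let lam : M →+ ((Finset (Fin n) → M) ⧸ S.F c (B.card + 1)) :=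
    (QuotientAddGroup.mk' (S.F c (B.card + 1))).comp ((dlH B).comp
      ((S.A q).comp ((S.A (emb Function.Embedding.inl S.z)).comp S.th)))
  have hlam : ∀ v, lam v = QuotientAddGroup.mk' (S.F c (B.card + 1))
      (dl B (S.A q (S.Z (S.th v)))) := fun v => rfl
  have hinv : ∀ σ : Perm (Fin n), cB c B ∘ σ = cB c B → ∀ y, lam (S.A (g (rr σ)) y) = lam y := by
    intro σ hσ y
    rw [cB_iff] at hσ
    rw [hlam, hlam, QuotientAddGroup.mk'_apply, QuotientAddGroup.mk'_apply, QuotientAddGroup.eq]
    have e3 : S.A q (S.Z (S.th y)) = S.Z (S.th (S.A q y)) := by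
      rw [← S.Z_A hq, S.thA]
    have e4 : S.A q (S.Z (S.th (S.A (g (rr σ)) y))) = S.cj σ (S.Z (S.th (S.A q y))) := by
      rw [← e3]
      have e5 : S.A (g (rr σ)) y = S.cj σ y := rfl
      rw [e5, ← S.cj_th, ← S.cj_Z]
      unfold CS.cj
      rw [← S.A_mul, ← S.A_mul, (hq2 σ hσ.2).eq]
    rw [e3, e4, neg_add_eq_sub]
    have e6 := S.Iv_all hc B hB σ hσ.1 hσ.2 (S.A q y)
    have e7 := AddSubgroup.neg_mem _ e6
    rw [neg_sub] at e7
    exact e7
  obtain ⟨o, ho, hol⟩ := S.ev (C ⊕ Fin n) (cB c B) w' e2 _ lam hinv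
  refine ⟨o * (S.κ * S.h), ho.mul (S.hκ.mul S.hh), ?_⟩
  have e8 : S.A q (S.Z (S.th (S.th w'))) = (S.κ * S.h) • S.A (q * AS c m B) (S.Z (S.th w)) := by
    rw [S.thth, S.Z_zsmul, map_zsmul, hw', S.thA, ← S.Z_th, S.Z_A (AS_comm c B), S.ZZ,
      map_zsmul, map_zsmul, ← S.A_mul, smul_smul]
  rw [hlam, e8, dl_zsmul, ← map_zsmul, smul_smul] at hol
  exact (QuotientAddGroup.eq_zero_iff _).1 hol

end Pool.PI34.XS

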