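import Pool.Agent.LibPI34.XS_Def
import Pool.Agent.LibPI34.H4_CL
import Pool.Agent.LibPI34.XS_E0
import Pool.Agent.LibPI34.XS_E4
import Pool.Agent.LibPI34.XS_E5

/-! PI34, p = 2, block SEX: the abstract chase. -/

set_option autoImplicit false
set_option linter.unusedSectionVars false

namespace Pool.PI34.XS

open Equiv Finset
open Pool.PI34.H4 (P g act emb As ZP JR cc AK Ac)
open Pool.PI34.XH (sgB Inter kap)

variable {N n m : ℕ} {M : Type} [AddCommGroup M] (S : CS N n m M)
variable {C : Type} [DecidableEq C] (c : Fin n → C)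

/-- E6: the key step. -/
theorem CS.key (hc : Inter c) (B : Finset (Fin n)) (hB : Srt c B) (w : M)
    (hw : S.NB c B (S.Z (S.th w)) = 0) :
    ∃ (o : ℤ) (e : Finset (Fin n) → M), Odd o ∧ ((N + 1).factorial : ℤ) • e ∈ S.Rel c ∧
      o • dl B (S.Z (S.th w)) - e ∈ S.F c (B.card + 1) := by
  classical
  by_cases hN : ∀ a, (B.filter (fun x => c x = a)).card ≤ N
  · obtain ⟨q, F, hF, hq, hq2, ht⟩ := S.tele c hc B hB hN
    obtain ⟨o, ho, hE⟩ := S.even_step c hc B hB q hq hq2 w hw
    refine ⟨o * F, o • (F • dl B (S.Z (S.th w)) - dl B (S.A (q * AS c m B) (S.Z (S.th w)))),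
      ho.mul hF, ?_, ?_⟩
    · have h1 := ht (S.th w)
      have h2 : (((N + 1).factorial : ℕ) : ℤ) = ((N : ℤ) + 1) * (N.factorial : ℤ) := by
        rw [Nat.factorial_succ]; push_cast; ring
      rw [h2, smul_comm, mul_smul]
      exact AddSubgroup.zsmul_mem _ (AddSubgroup.zsmul_mem _ h1 _) _
    · have h3 : (o * F) • dl B (S.Z (S.th w)) -
          o • (F • dl B (S.Z (S.th w)) - dl B (S.A (q * AS c m B) (S.Z (S.th w)))) =
          o • dl B (S.A (q * AS c m B) (S.Z (S.th w))) := by
        rw [smul_sub, mul_smul]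
        abel
      rw [h3]
      exact hE
  · push_neg at hN
    obtain ⟨a, ha⟩ := hN
    refine ⟨1, dl B (S.Z (S.th w)), odd_one, S.large c hc B hB a ha _, ?_⟩
    rw [one_smul, sub_self]
    exact AddSubgroup.zero_mem _

end Pool.PI34.XS
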