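import Pool.Agent.LibPI34.XS_E1
import Pool.Agent.LibPI34.XS_E2
import Pool.Agent.LibPI34.XS_E6

/-! PI34, p = 2, block SEX, row E7: the descending induction. -/

set_option autoImplicit false
set_option linter.unusedSectionVars false

namespace Pool.PI34.XS

open Equiv Finset
open Pool.PI34.H4 (P g act emb As ZP JR cc AK Ac)
open Pool.PI34.XH (sgB Inter kap)

variable {N n m : ℕ} {M : Type} [AddCommGroup M] (S : CS N n m M)
variable {C : Type} [DecidableEq C] (c : Fin n → C)

/-- `tau` as a homomorphism -/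
noncomputable def CS.tauH (B : Finset (Fin n)) : (Finset (Fin n) → M) →+ M :=
  AddMonoidHom.mk' (S.tau c B) (S.tau_add c B)

theorem CS.tauH_apply (B : Finset (Fin n)) (t : Finset (Fin n) → M) :
    S.tauH c B t = S.tau c B t := rfl

theorem CS.F_top (j : ℕ) (hj : n < j) : S.F c j = S.Rel c := by
  have h : {t | ∃ (h : Finset (Fin n)) (w : M), j ≤ h.card ∧ t = dl h (S.Z (S.th w))} = ∅ := by
    rw [Set.eq_empty_iff_forall_notMem]
    rintro t ⟨h, w, hh, -⟩
    have h1 : h.card ≤ n := by
      have := Finset.card_le_univ h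
      rwa [Fintype.card_fin] at this
    omega
  unfold CS.F
  rw [h, AddSubgroup.closure_empty, bot_sup_eq]

theorem CS.Rel_le_F (j : ℕ) : S.Rel c ≤ S.F c j := le_sup_right

theorem CS.tau_F (B : Finset (Fin n)) (j : ℕ) (hj : B.card < j) (f : Finset (Fin n) → M)
    (hf : f ∈ S.F c j) : S.tau c B f = 0 := by
  have h1 : S.F c j ≤ (S.tauH c B).ker := by
    refine sup_le ?_ ?_
    · rw [AddSubgroup.closure_le]
      rintro t ⟨h, w, hh, rfl⟩
      exact S.tau_high c B h (lt_of_lt_of_le hj hh) _
    · intro t ht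
      exact S.tau_rel c B t ht
  exact h1 hf

/-- E7: the descending induction. -/
theorem CS.claim (hc : Inter c) (j : ℕ) (u : Finset (Fin n) → M) (hu : u ∈ S.F c j)
    (ht : ∀ B, S.tau c B u = 0) :
    ∃ o : ℤ, Odd o ∧ (o * ((N + 1).factorial : ℤ)) • u ∈ S.Rel c := by
  classical
  obtain ⟨k, hk⟩ : ∃ k : ℕ, n + 1 ≤ j + k := ⟨n + 1, by omega⟩
  induction k generalizing j u with
  | zero =>
    rw [S.F_top c j (by omega)] at hu
    refine ⟨1, odd_one, ?_⟩
    exact AddSubgroup.zsmul_mem _ hu _
  | succ k ih =>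
    obtain ⟨w, hw, hd⟩ := S.decomp c hc j u hu
    have hN : ∀ B, Srt c B ∧ B.card = j → S.NB c B (S.Z (S.th (w B))) = 0 := by
      intro B hB
      have h1 := S.tau_F c B (j + 1) (by omega) _ hd
      rw [← S.tauH_apply, map_sub, map_sum, S.tauH_apply, ht B, zero_sub, neg_eq_zero,
        Finset.sum_eq_single B] at h1
      · rw [S.tauH_apply, S.tau_dl c B B le_rfl hB.1 hB.1, if_pos rfl] at h1
        exact S.tf _ _ (pow_ne_zero _ two_ne_zero) h1
      · intro B' _ hne
        by_cases hB' : Srt c B' ∧ B'.card = j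
        · rw [S.tauH_apply, S.tau_dl c B B' (by omega) hB.1 hB'.1, if_neg hne]
        · rw [hw B' hB', map_zero, S.Z_zero, dl_zero, map_zero]
      · intro h
        exact absurd (mem_univ _) h
    have hkey : ∀ B : Finset (Fin n), ∃ (o : ℤ) (e : Finset (Fin n) → M), Odd o ∧
        ((N + 1).factorial : ℤ) • e ∈ S.Rel c ∧
        o • dl B (S.Z (S.th (w B))) - e ∈ S.F c (j + 1) := by
      intro B
      by_cases hB : Srt c B ∧ B.card = j
      · have h1 := S.key c hc B hB.1 (w B) (hN B hB)
        rw [hB.2] at h1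
        exact h1
      · refine ⟨1, 0, odd_one, ?_, ?_⟩
        · rw [smul_zero]
          exact AddSubgroup.zero_mem _
        · rw [hw B hB, map_zero, S.Z_zero, dl_zero, smul_zero, sub_zero]
          exact AddSubgroup.zero_mem _
    choose o e ho he hoe using hkey
    set O : ℤ := ∏ B, o B with hO
    have hOdd : Odd O := by
      rw [hO]
      exact Finset.prod_induction o Odd (fun a b ha hb => ha.mul hb) odd_one (fun B _ => ho B)
    have hdiv : ∀ B, ∃ a : ℤ, O = a * o B := by
      intro B
      obtain ⟨a, ha⟩ := Finset.dvd_prod_of_mem o (mem_univ B)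
      exact ⟨a, by rw [hO, ha, mul_comm]⟩
    choose a ha using hdiv
    set E : Finset (Fin n) → M := ∑ B, a B • e B with hE
    have hE1 : ((N + 1).factorial : ℤ) • E ∈ S.Rel c := by
      rw [hE, Finset.smul_sum]
      refine AddSubgroup.sum_mem _ fun B _ => ?_
      rw [smul_comm]
      exact AddSubgroup.zsmul_mem _ (he B) _
    have hf : O • u - E ∈ S.F c (j + 1) := by
      have h1 : O • u - E = O • (u - ∑ B, dl B (S.Z (S.th (w B)))) +
          ∑ B, a B • (o B • dl B (S.Z (S.th (w B))) - e B) := by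
        have h2 : ∑ B, a B • (o B • dl B (S.Z (S.th (w B))) - e B) =
            O • (∑ B, dl B (S.Z (S.th (w B)))) - E := by
          rw [Finset.smul_sum, hE, ← Finset.sum_sub_distrib]
          refine Finset.sum_congr rfl fun B _ => ?_
          rw [smul_sub, ← mul_smul, ← ha B]
        rw [h2, smul_sub]
        abel
      rw [h1]
      refine AddSubgroup.add_mem _ (AddSubgroup.zsmul_mem _ hd _) ?_
      exact AddSubgroup.sum_mem _ fun B _ => AddSubgroup.zsmul_mem _ (hoe B) _
    have hE2 : ∀ B, S.tau c B E = 0 := by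
      intro B
      have h1 := S.tau_rel c B _ hE1
      rw [← S.tauH_apply, map_zsmul] at h1
      exact S.tf _ _ (by exact_mod_cast Nat.factorial_ne_zero _) h1
    obtain ⟨o', ho', h'⟩ := ih (j + 1) (O • u - E) hf (fun B => by
      rw [← S.tauH_apply, map_sub, map_zsmul, S.tauH_apply, S.tauH_apply, ht B, hE2 B,
        smul_zero, sub_zero]) (by omega)
    refine ⟨o' * O, ho'.mul hOdd, ?_⟩
    have h1 : (o' * O * ((N + 1).factorial : ℤ)) • u =
        (o' * ((N + 1).factorial : ℤ)) • (O • u - E) +
          o' • ((N + 1).factorial : ℤ) • E := by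
      rw [smul_sub, ← mul_smul, ← mul_smul]
      have : o' * ((N + 1).factorial : ℤ) * O = o' * O * ((N + 1).factorial : ℤ) := by ring
      rw [this]
      abel
    rw [h1]
    exact AddSubgroup.add_mem _ h' (AddSubgroup.zsmul_mem _ hE1 _)

end Pool.PI34.XS
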