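import Pool.Agent.LibPI34.XS_Def
import Pool.Agent.LibPI34.H4_CL
import Pool.Agent.LibPI34.XS_E7

/-! PI34, p = 2, block SEX: the abstract chase. -/

set_option autoImplicit false
set_option linter.unusedSectionVars false

namespace Pool.PI34.XS

open Equiv Finset
open Pool.PI34.H4 (P g act emb As ZP JR cc AK Ac)
open Pool.PI34.XH (sgB Inter kap)

variable {N n m : ℕ} {M : Type} [AddCommGroup M] (S : CS N n m M)
variable {C : Type} [DecidableEq C] (c : Fin n → C)

/-- E8: THE CHASE. -/
theorem CS.chase (hc : Inter c) (t : Finset (Fin n) → M) (ht : ∀ B, S.tau c B t = 0)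
    (W : Type) [AddCommGroup W] (psi : Finset (Fin n) → (M →+ W))
    (hr : ∀ i j : Fin n, (j : ℕ) = i + 1 → c i = c j → ∀ (h : Finset (Fin n)) (y : M),
      i ∉ h → j ∉ h →
        psi h (S.cj (swap i j) y) = psi h y - psi (insert i (insert j h)) y ∧
        psi (insert i h) (S.cj (swap i j) y) =
          psi (insert j h) y - kap h.card • psi (insert i (insert j h)) y ∧
        psi (insert j h) (S.cj (swap i j) y) =
          psi (insert i h) y - kap h.card • psi (insert i (insert j h)) y ∧
        psi (insert i (insert j h)) (S.cj (swap i j) y) = - psi (insert i (insert j h)) y) :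
    ∃ o : ℤ, Odd o ∧ (o * ((N + 1).factorial : ℤ)) • ∑ h, psi h (S.Z (S.th (t h))) = 0 := by
  classical
  set u : Finset (Fin n) → M := fun h => S.Z (S.th (t h)) with hu
  have husum : ∑ h : Finset (Fin n), dl h (S.Z (S.th (t h))) = u := by
    rw [hu]
    exact Finset.univ_sum_single (fun h => S.Z (S.th (t h)))
  have huF : u ∈ S.F c 0 := by
    rw [← husum]
    refine AddSubgroup.sum_mem _ fun h _ => ?_
    exact AddSubgroup.mem_sup_left (AddSubgroup.subset_closure ⟨h, t h, Nat.zero_le _, rfl⟩)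
  have hZsum : ∀ {ι : Type} (s : Finset ι) (f : ι → M),
      S.Z (∑ x ∈ s, f x) = ∑ x ∈ s, S.Z (f x) := fun s f => map_sum (S.A _) f s
  have hZz : ∀ (a : ℤ) (x : M), S.Z (a • x) = a • S.Z x := fun a x => map_zsmul (S.A _) a x
  have htau : ∀ B, S.tau c B u = 0 := by
    intro B
    have h1 : S.tau c B u = S.Z (S.th (S.tau c B t)) := by
      unfold CS.tau tyM
      rw [map_sum, hZsum]
      refine Finset.sum_congr rfl fun σ _ => ?_
      rw [map_zsmul, hZz, ← S.cj_th, ← S.cj_Z, map_sum, hZsum]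
      congr 2
      refine Finset.sum_congr rfl fun h _ => ?_
      rw [map_zsmul, hZz]
    rw [h1, ht B, map_zero]
    exact map_zero (S.A _)
  obtain ⟨o, ho, hR⟩ := S.claim c hc 0 u huF htau
  refine ⟨o, ho, ?_⟩
  let Ps : (Finset (Fin n) → M) →+ W :=
    ∑ h : Finset (Fin n), (psi h).comp (Pi.evalAddMonoidHom (fun _ => M) h)
  have hPs : ∀ f, Ps f = ∑ h, psi h (f h) := by
    intro f
    simp [Ps]
  have hdl : ∀ (h : Finset (Fin n)) (y : M), Ps (dl h y) = psi h y := by
    intro h y
    rw [hPs, Finset.sum_eq_single h]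
    · simp [dl]
    · intro b _ hb
      rw [dl, Pi.single_eq_of_ne hb, map_zero]
    · intro hh
      exact absurd (Finset.mem_univ h) hh
  have hker : S.Rel c ≤ Ps.ker := by
    rw [CS.Rel, AddSubgroup.closure_le]
    rintro f ⟨i, j, h, y, hij, hcij, hi, hj, hf⟩
    obtain ⟨r1, r2, r3, r4⟩ := hr i j hij hcij h y hi hj
    change Ps f = 0
    rcases hf with hf | hf | hf | hf
    · rw [hf, map_add, map_sub, hdl, hdl, hdl, r1]
      abel
    · rw [hf, map_add, map_sub, map_zsmul, hdl, hdl, hdl, r2]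
      abel
    · rw [hf, map_add, map_sub, map_zsmul, hdl, hdl, hdl, r3]
      abel
    · rw [hf, map_add, hdl, hdl, r4]
      abel
  have h0 : Ps ((o * ((N + 1).factorial : ℤ)) • u) = 0 := hker hR
  rw [map_zsmul, hPs] at h0
  exact h0

end Pool.PI34.XS
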