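import Pool.Agent.LibPI34.X_Even2
import Pool.Agent.LibPI34.X_HEx

/-!
PI34, p = 2, block SEX: the final closing of the catalyst strands.
-/

set_option autoImplicit false
set_option linter.unusedSectionVars false

namespace Pool.PI34.XH

open Equiv Finset
open Pool.PI34.H4
open Pool.PI34.EV

/-! ### traces -/

section traces

variable {α β : Type} [Fintype α] [DecidableEq α] [Fintype β] [DecidableEq β] {N : ℕ}

theorem tc_add (x y : P α) : tc N (x + y) = tc N x + tc N y := by
  unfold tc
  rw [← Finset.sum_add_distrib]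
  exact Finset.sum_congr rfl fun w _ => by rw [act_add, Pi.add_apply]

theorem tc_zsmul (a : ℤ) (x : P α) : tc N (a • x) = a * tc N x := by
  unfold tc
  rw [Finset.mul_sum]
  exact Finset.sum_congr rfl fun w _ => by rw [act_zsmul, Pi.smul_apply, zsmul_eq_mul]

theorem tc_zero : tc N (0 : P α) = 0 := by
  have h := tc_zsmul (N := N) 0 (0 : P α)
  rw [zero_smul] at h
  rw [h]
  simp

theorem tc_sum {ι : Type} (s : Finset ι) (x : ι → P α) :
    tc N (∑ i ∈ s, x i) = ∑ i ∈ s, tc N (x i) := by
  classical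
  induction s using Finset.induction_on with
  | empty => rw [Finset.sum_empty, Finset.sum_empty, tc_zero]
  | insert a s ha ih => rw [Finset.sum_insert ha, Finset.sum_insert ha, tc_add, ih]

theorem tc_g (σ : Perm α) :
    tc N (g σ) = ((univ.filter fun w : α → Fin N => w ∘ σ = w).card : ℚ) := by
  unfold tc
  rw [Finset.card_eq_sum_ones, Nat.cast_sum, Finset.sum_filter]
  refine Finset.sum_congr rfl fun w _ => ?_
  rw [act_g]
  by_cases h : w ∘ σ = w
  · rw [h, if_pos rfl, Pi.single_eq_same]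
    norm_num
  · rw [if_neg h, Pi.single_eq_of_ne h]

theorem tc_int (y : P α) : ∃ d : ℤ, (d : ℚ) = tc N y := by
  refine P_induction (p := fun y => ∃ d : ℤ, (d : ℚ) = tc N y) y ?_ ?_ ?_
  · intro σ
    exact ⟨_, by rw [tc_g]; rfl⟩
  · rintro x y ⟨a, ha⟩ ⟨b, hb⟩
    exact ⟨a + b, by rw [tc_add, ← ha, ← hb]; push_cast; rfl⟩
  · rintro n x ⟨a, ha⟩
    exact ⟨n * a, by rw [tc_zsmul, ← ha]; push_cast; rfl⟩

theorem via_inl_inr (σ : Perm α) (τ : Perm β) :
    σ.viaEmbedding (Function.Embedding.inl : α ↪ α ⊕ β) *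
      τ.viaEmbedding (Function.Embedding.inr : β ↪ α ⊕ β) = sumCongr σ τ := by
  ext x
  rw [Perm.mul_apply]
  rcases x with a | b
  · rw [Perm.viaEmbedding_apply_of_notMem τ]
    · exact Perm.viaEmbedding_apply σ (Function.Embedding.inl : α ↪ α ⊕ β) a
    · rintro ⟨y, hy⟩
      cases hy
  · rw [show (Sum.inr b : α ⊕ β) = (Function.Embedding.inr : β ↪ α ⊕ β) b from rfl,
      Perm.viaEmbedding_apply]
    rw [Perm.viaEmbedding_apply_of_notMem σ]
    · rfl
    · rintro ⟨y, hy⟩
      cases hy

theorem tc_sumCongr (σ : Perm α) (τ : Perm β) :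
    tc N (g (sumCongr σ τ)) = tc N (g σ) * tc N (g τ) := by
  rw [tc_g, tc_g, tc_g, ← Nat.cast_mul, ← Finset.card_product]
  congr 1
  refine Finset.card_bij' (fun w _ => (w ∘ Sum.inl, w ∘ Sum.inr))
    (fun p _ => Sum.elim p.1 p.2) ?_ ?_ ?_ ?_
  · intro w hw
    rw [mem_filter] at hw
    rw [Finset.mem_product, mem_filter, mem_filter]
    refine ⟨⟨mem_univ _, ?_⟩, ⟨mem_univ _, ?_⟩⟩
    · funext a
      exact congrFun hw.2 (Sum.inl a)
    · funext b
      exact congrFun hw.2 (Sum.inr b)
  · rintro ⟨u, v⟩ hp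
    rw [Finset.mem_product, mem_filter, mem_filter] at hp
    rw [mem_filter]
    refine ⟨mem_univ _, ?_⟩
    funext x
    rcases x with a | b
    · exact congrFun hp.1.2 a
    · exact congrFun hp.2.2 b
  · intro w _
    funext x
    rcases x with a | b <;> rfl
  · intro p _
    rfl

theorem tc_mul_disj (x : P α) (y : P β) :
    tc N (emb (Function.Embedding.inl : α ↪ α ⊕ β) x *
      emb (Function.Embedding.inr : β ↪ α ⊕ β) y) = tc N x * tc N y := by
  refine P_induction (p := fun x => tc N (emb (Function.Embedding.inl : α ↪ α ⊕ β) x *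
      emb (Function.Embedding.inr : β ↪ α ⊕ β) y) = tc N x * tc N y) x ?_ ?_ ?_
  · intro σ
    refine P_induction (p := fun y => tc N (emb (Function.Embedding.inl : α ↪ α ⊕ β) (g σ) *
      emb (Function.Embedding.inr : β ↪ α ⊕ β) y) = tc N (g σ) * tc N y) y ?_ ?_ ?_
    · intro τ
      rw [emb_g, emb_g, ← g_mul, via_inl_inr, tc_sumCongr]
    · intro a b ha hb
      rw [map_add, mul_add, tc_add, ha, hb, tc_add, mul_add]
    · intro n a ha
      rw [emb_zsmul, mul_smul_comm, tc_zsmul, ha, tc_zsmul]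
      ring
  · intro a b ha hb
    rw [map_add, add_mul, tc_add, ha, hb, tc_add, add_mul]
  · intro n a ha
    rw [emb_zsmul, smul_mul_assoc, tc_zsmul, ha, tc_zsmul]
    ring

theorem tc_g_inv (σ : Perm α) : tc N (g σ⁻¹) = tc N (g σ) := by
  rw [tc_g, tc_g]
  congr 2
  ext w
  constructor
  · intro h
    rw [mem_filter] at h ⊢
    refine ⟨mem_univ _, ?_⟩
    have h1 := congrArg (fun v : α → Fin N => v ∘ σ) h.2
    simp only [Function.comp_assoc] at h1
    rw [← h1]
    funext x
    simp
  · intro h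
    rw [mem_filter] at h ⊢
    refine ⟨mem_univ _, ?_⟩
    have h1 := congrArg (fun v : α → Fin N => v ∘ (σ⁻¹ : Perm α)) h.2
    simp only [Function.comp_assoc] at h1
    rw [← h1]
    funext x
    simp

theorem tc_kk (k : ℕ) (σ : Perm α) :
    tc (k * k) (g σ) = tc k (g (sumCongr σ⁻¹ σ)) := by
  rw [tc_sumCongr, tc_g_inv, tc_g, tc_g, ← Nat.cast_mul, ← Finset.card_product]
  congr 1
  refine Finset.card_bij' (fun w _ => (fun a => (finProdFinEquiv.symm (w a)).1,
      fun a => (finProdFinEquiv.symm (w a)).2))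
    (fun p _ => fun a => finProdFinEquiv (p.1 a, p.2 a)) ?_ ?_ ?_ ?_
  · intro w hw
    rw [mem_filter] at hw
    rw [Finset.mem_product, mem_filter, mem_filter]
    refine ⟨⟨mem_univ _, ?_⟩, ⟨mem_univ _, ?_⟩⟩
    · funext a
      have := congrFun hw.2 a
      simp only [Function.comp_apply] at this ⊢
      rw [this]
    · funext a
      have := congrFun hw.2 a
      simp only [Function.comp_apply] at this ⊢
      rw [this]
  · rintro ⟨u, v⟩ hp
    rw [Finset.mem_product, mem_filter, mem_filter] at hp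
    rw [mem_filter]
    refine ⟨mem_univ _, ?_⟩
    funext a
    have h1 := congrFun hp.1.2 a
    have h2 := congrFun hp.2.2 a
    simp only [Function.comp_apply] at h1 h2 ⊢
    rw [h1, h2]
  · intro w _
    funext a
    exact finProdFinEquiv.apply_symm_apply (w a)
  · rintro ⟨u, v⟩ _
    simp

end traces

/-! ### the places of the chase -/

/-- the partners, the W-slots, the letters -/
abbrev AX (m n : ℕ) : Type := (Fin m ⊕ Fin m) ⊕ Fin n

variable {k : ℕ} (V : VCat k) (m n : ℕ)

/-- the open strand and the letters -/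
def io : Option (Fin n) ↪ Al V (AX m n) :=
  Function.Embedding.optionMap
    ((Function.Embedding.inr : Fin n ↪ AX m n).trans Function.Embedding.inl)

/-- the exchange of the partners and the W-slots -/
def swX : Perm (Al V (AX m n)) := V.hA (sumCongr (Equiv.sumComm (Fin m) (Fin m)) 1)

variable {m n}

/-- a permutation of the W-slots -/
def sX (s : Perm (Fin m)) : Perm (Al V (AX m n)) := V.hA (sumCongr (sumCongr 1 s) 1)

/-- a permutation of the letters -/
def sL (s : Perm (Fin n)) : Perm (Al V (AX m n)) := V.hA (sumCongr 1 s)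

/-- the action of `z` on the W-slots -/
noncomputable def zst (z : P (Fin m)) (y : P (Al V (AX m n))) : P (Al V (AX m n)) :=
  ∑ s : Perm (Fin m), z.coeff s • (g (sX V s) * y * g (sX V s)⁻¹)

/-- relabelling of the letters -/
noncomputable def cjB (s : Perm (Fin n)) (y : P (Al V (AX m n))) : P (Al V (AX m n)) :=
  g (sL V s) * y * g (sL V s)⁻¹

/-- the swap rules -/
def BRules {W : Type} [AddCommGroup W] (i j : Fin n)
    (psi' psi : Finset (Fin n) → (P (Al V (AX m n)) →+ W)) : Prop :=
  ∀ (h : Finset (Fin n)) (y : P (Al V (AX m n))), i ∉ h → j ∉ h →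
    psi' h (cjB V (swap i j) y) = psi h y - psi (insert i (insert j h)) y ∧
    psi' (insert i h) (cjB V (swap i j) y) =
      psi (insert j h) y - kap h.card • psi (insert i (insert j h)) y ∧
    psi' (insert j h) (cjB V (swap i j) y) =
      psi (insert i h) y - kap h.card • psi (insert i (insert j h)) y ∧
    psi' (insert i (insert j h)) (cjB V (swap i j) y) = - psi (insert i (insert j h)) y

/-- the target of the chase -/
def Big (k D0 : ℕ) : Prop :=
  ∃ (V : VCat k) (m : ℕ) (z : P (Fin m)), tc (k * k) z ≠ 0 ∧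
    ∀ (n : ℕ) (C : Type) [DecidableEq C] (c : Fin n → C), Inter c →
    ∀ t : Finset (Fin n) → PO n, Tor k c t →
    ∀ (W : Type) [AddCommGroup W] (Psi : Finset (Fin n) → (P (Al V (AX m n)) →+ W)),
      (∀ h y, act k _ y = 0 → Psi h y = 0) →
      (∀ i j : Fin n, (j : ℕ) = i + 1 → c i = c j → BRules V i j Psi Psi) →
      ∃ N : ℕ, ¬ 2 ∣ N ∧ N • D0 • ∑ h, Psi h (zst V z (emb (io V m n) (t h) *
        g (swX V m n) * V.θ2 (AX m n))) = 0

variable (m n)

/-- separation of the catalyst strands -/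
def eCL : Al V (AX m n) ≃ Option (Fin n) ⊕ ((Fin m ⊕ Fin m) ⊕ (V.B ⊕ V.B)) where
  toFun
    | none => Sum.inl none
    | some (Sum.inl (Sum.inl x)) => Sum.inr (Sum.inl x)
    | some (Sum.inl (Sum.inr i)) => Sum.inl (some i)
    | some (Sum.inr b) => Sum.inr (Sum.inr b)
  invFun
    | Sum.inl none => none
    | Sum.inr (Sum.inl x) => some (Sum.inl (Sum.inl x))
    | Sum.inl (some i) => some (Sum.inl (Sum.inr i))
    | Sum.inr (Sum.inr b) => some (Sum.inr b)
  left_inv := by rintro (_ | ((x | i) | b)) <;> rfl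
  right_inv := by rintro ((_ | i) | (x | b)) <;> rfl

theorem io_eCL : (io V m n).trans (eCL V m n).toEmbedding = Function.Embedding.inl := by
  ext x : 1
  rcases x with _ | i <;> rfl

theorem sL_eq (s : Perm (Fin n)) : (sL V s : Perm (Al V (AX m n))) =
    Perm.viaEmbedding (optionCongr s) (io V m n) := by
  ext x : 1
  by_cases hx : x ∈ Set.range (io V m n)
  · obtain ⟨y, rfl⟩ := hx
    rw [Perm.viaEmbedding_apply]
    rcases y with _ | i <;> rfl
  · rw [Perm.viaEmbedding_apply_of_notMem _ _ _ hx]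
    rcases x with _ | ((x | i) | b)
    · exact absurd ⟨none, rfl⟩ hx
    · rfl
    · exact absurd ⟨some i, rfl⟩ hx
    · rfl

/-- the embedding of the partners and the W-slots -/
def iX : (Fin m ⊕ Fin m) ↪ Al V (AX m n) :=
  ((Function.Embedding.inl : (Fin m ⊕ Fin m) ↪ AX m n).trans Function.Embedding.inl).trans
    Function.Embedding.some

theorem hA_X (τ : Perm (Fin m ⊕ Fin m)) : (V.hA (sumCongr τ 1) : Perm (Al V (AX m n))) =
    τ.viaEmbedding (iX V m n) := by
  ext x : 1
  by_cases hx : x ∈ Set.range (iX V m n)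
  · obtain ⟨y, rfl⟩ := hx
    rw [Perm.viaEmbedding_apply]
    rfl
  · rw [Perm.viaEmbedding_apply_of_notMem _ _ _ hx]
    rcases x with _ | ((x | i) | b)
    · rfl
    · exact absurd ⟨x, rfl⟩ hx
    · rfl
    · rfl

theorem comm_io_iX (x : P (Option (Fin n))) (y : P (Fin m ⊕ Fin m)) :
    Commute (emb (io V m n) x) (emb (iX V m n) y) :=
  commute_emb_emb _ _ (fun a b h => by rcases a with _ | i <;> cases h) _ _

theorem comm_io_jj (x : P (Option (Fin n))) (y : P (V.B ⊕ V.B)) :
    Commute (emb (io V m n) x) (emb (V.jj (AX m n)) y) :=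
  commute_emb_emb _ _ (fun a b h => by rcases a with _ | i <;> cases h) _ _

theorem comm_iX_jj (x : P (Fin m ⊕ Fin m)) (y : P (V.B ⊕ V.B)) :
    Commute (emb (iX V m n) x) (emb (V.jj (AX m n)) y) :=
  commute_emb_emb _ _ (fun a b h => by cases h) _ _

theorem sum_coeff {α : Type} [Fintype α] [DecidableEq α] (z : P α) :
    z = ∑ s : Perm α, z.coeff s • g s := by
  apply MonoidAlgebra.coeff_injective
  rw [MonoidAlgebra.coeff_sum]
  ext s
  rw [Finsupp.finsetSum_apply, Finset.sum_eq_single s]
  · rw [MonoidAlgebra.coeff_smul, Finsupp.smul_apply]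
    change z.coeff s = z.coeff s • (MonoidAlgebra.single s (1 : ℤ)).coeff s
    rw [MonoidAlgebra.coeff_single, Finsupp.single_eq_same, smul_eq_mul, mul_one]
  · intro t _ ht
    rw [MonoidAlgebra.coeff_smul, Finsupp.smul_apply]
    change z.coeff t • (MonoidAlgebra.single t (1 : ℤ)).coeff s = 0
    rw [MonoidAlgebra.coeff_single, Finsupp.single_eq_of_ne (Ne.symm ht), smul_zero]
  · intro h
    exact absurd (mem_univ _) h

/-- **The closing.** -/
theorem closing (z : P (Fin m)) : ∃ (CL : P (Al V (AX m n)) →+ P (Option (Fin n))) (d : ℤ),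
    (d : ℚ) = tc (k * k) z * (tc k V.θ * tc k V.θ) ∧
    (∀ w, act k _ w = 0 → act k _ (CL w) = 0) ∧
    (∀ x x' w, CL (emb (io V m n) x * w * emb (io V m n) x') = x * CL w * x') ∧
    ∀ t : P (Option (Fin n)), act k _ (CL (zst V z (emb (io V m n) t * g (swX V m n) *
      V.θ2 (AX m n)))) = d • act k _ t := by
  classical
  obtain ⟨PT, p1, p2, -, p4⟩ := exists_PT k (Option (Fin n)) ((Fin m ⊕ Fin m) ⊕ (V.B ⊕ V.B))
  obtain ⟨d1, hd1⟩ := tc_int (N := k * k) z
  obtain ⟨d2, hd2⟩ := tc_int (N := k) V.θ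
  let CL : P (Al V (AX m n)) →+ P (Option (Fin n)) :=
    PT.comp ((emb (eCL V m n).toEmbedding).toAddMonoidHom.comp
      (AddMonoidHom.mulRight (g (swX V m n))))
  have hCL : ∀ w, CL w = PT (emb (eCL V m n).toEmbedding (w * g (swX V m n))) := fun w => rfl
  have hsw : g (swX V m n) = emb (iX V m n) (g (Equiv.sumComm (Fin m) (Fin m))) := by
    rw [emb_g]
    congr 1
    exact hA_X V m n _
  refine ⟨CL, d1 * (d2 * d2), by push_cast; rw [hd1, hd2], ?_, ?_, ?_⟩
  · intro w hw
    rw [hCL]
    refine p1 _ (act_emb_eq_zero _ _ ?_)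
    rw [map_mul, hw, zero_mul]
  · intro x x' w
    rw [hCL, hCL]
    have e1 : emb (io V m n) x * w * emb (io V m n) x' * g (swX V m n) =
        emb (io V m n) x * (w * g (swX V m n)) * emb (io V m n) x' := by
      have h := (comm_io_iX V m n x' (g (Equiv.sumComm (Fin m) (Fin m)))).eq
      rw [← hsw] at h
      rw [mul_assoc, h]
      simp only [mul_assoc]
    rw [e1, map_mul (emb (eCL V m n).toEmbedding), map_mul (emb (eCL V m n).toEmbedding),
      emb_trans, emb_trans, io_eCL, p2]
  · intro t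
    let Y : Perm (Fin m) → P ((Fin m ⊕ Fin m) ⊕ (V.B ⊕ V.B)) := fun s =>
      emb Function.Embedding.inl (g (sumCongr s⁻¹ s)) * emb Function.Embedding.inr (V.tt V.θ)
    have hs : ∀ s : Perm (Fin m), CL (g (sX V s) * (emb (io V m n) t * g (swX V m n) *
        V.θ2 (AX m n)) * g (sX V s)⁻¹) = t * PT (emb Function.Embedding.inr (Y s)) := by
      intro s
      have h1 : g (sX V s : Perm (Al V (AX m n))) = emb (iX V m n) (g (sumCongr 1 s)) := by
        rw [emb_g]
        congr 1
        exact hA_X V m n _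
      have h2 : g (sX V s : Perm (Al V (AX m n)))⁻¹ = emb (iX V m n) (g (sumCongr 1 s⁻¹)) := by
        rw [emb_g]
        congr 1
        rw [← hA_X V m n _]
        ext x : 1
        rcases x with _ | (((x | x) | i) | b) <;> rfl
      rw [hCL, h1, h2, hsw, V.θ2_eq]
      have h3 := fun x y => (comm_io_iX V m n x y).eq
      have h4 := fun x y => (comm_io_jj V m n x y).eq
      have h5 := fun x y => (comm_iX_jj V m n x y).eq
      have h6 : emb (iX V m n) (g (sumCongr 1 s)) * (emb (io V m n) t *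
          emb (iX V m n) (g (sumComm (Fin m) (Fin m))) * emb (V.jj (AX m n)) (V.tt V.θ)) *
          emb (iX V m n) (g (sumCongr 1 s⁻¹)) * emb (iX V m n) (g (sumComm (Fin m) (Fin m))) =
          emb (io V m n) t * (emb (iX V m n) (g (sumCongr s⁻¹ s)) *
            emb (V.jj (AX m n)) (V.tt V.θ)) := by
        have e0 : g (sumCongr 1 s) * g (sumComm (Fin m) (Fin m)) * g (sumCongr 1 s⁻¹) *
            g (sumComm (Fin m) (Fin m)) = g (sumCongr s⁻¹ s) := by
          rw [← g_mul, ← g_mul, ← g_mul]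
          congr 1
          ext x : 1
          rcases x with x | x <;> rfl
        rw [← e0, map_mul, map_mul, map_mul]
        have k1 := h3 t (g (sumCongr 1 s))
        have k2 := h5 (g (sumCongr 1 s⁻¹)) (V.tt V.θ)
        have k3 := h5 (g (sumComm (Fin m) (Fin m))) (V.tt V.θ)
        generalize emb (iX V m n) (g (sumCongr 1 s)) = b1 at k1 ⊢
        generalize emb (iX V m n) (g (sumCongr 1 s⁻¹)) = b3 at k2 ⊢
        generalize emb (iX V m n) (g (sumComm (Fin m) (Fin m))) = b2 at k3 ⊢
        generalize emb (io V m n) t = a at k1 ⊢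
        generalize emb (V.jj (AX m n)) (V.tt V.θ) = c at k2 k3 ⊢
        calc b1 * (a * b2 * c) * b3 * b2 = (b1 * a) * b2 * (c * b3) * b2 := by
              simp only [mul_assoc]
          _ = (a * b1) * b2 * (b3 * c) * b2 := by rw [k1, k2]
          _ = a * b1 * b2 * b3 * (c * b2) := by simp only [mul_assoc]
          _ = a * b1 * b2 * b3 * (b2 * c) := by rw [k3]
          _ = _ := by simp only [mul_assoc]
      rw [h6, map_mul (emb (eCL V m n).toEmbedding), map_mul (emb (eCL V m n).toEmbedding),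
        emb_trans, emb_trans, emb_trans, io_eCL]
      have h7 := p2 t 1 (emb ((iX V m n).trans (eCL V m n).toEmbedding) (g (sumCongr s⁻¹ s)) *
        emb ((V.jj (AX m n)).trans (eCL V m n).toEmbedding) (V.tt V.θ))
      rw [map_one, mul_one, mul_one] at h7
      rw [h7]
      congr 2
      change _ = emb Function.Embedding.inr (emb Function.Embedding.inl (g (sumCongr s⁻¹ s)) *
        emb Function.Embedding.inr (V.tt V.θ))
      rw [map_mul, emb_trans, emb_trans]
      congr 2
    have hz : CL (zst V z (emb (io V m n) t * g (swX V m n) * V.θ2 (AX m n))) =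
        ∑ s : Perm (Fin m), z.coeff s • (t * PT (emb Function.Embedding.inr (Y s))) := by
      unfold zst
      rw [map_sum]
      exact Finset.sum_congr rfl fun s _ => by rw [map_zsmul, hs]
    rw [hz]
    refine LinearMap.ext fun f => ?_
    rw [act_sum]
    have hY : ∀ s, tc k (Y s) = tc (k * k) (g s) * (tc k V.θ * tc k V.θ) := by
      intro s
      change tc k (emb Function.Embedding.inl (g (sumCongr s⁻¹ s)) *
        emb Function.Embedding.inr (V.tt V.θ)) = _
      rw [tc_mul_disj, tc_kk]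
      congr 1
      exact tc_mul_disj _ _
    have h8 : ∀ s ∈ (univ : Finset (Perm (Fin m))),
        act k _ (z.coeff s • (t * PT (emb Function.Embedding.inr (Y s)))) f =
          ((z.coeff s : ℚ) * tc k (Y s)) • act k _ t f := by
      intro s _
      rw [act_zsmul, act_mul, p4, map_smul, mul_smul, Int.cast_smul_eq_zsmul]
    rw [Finset.sum_congr rfl h8, ← Finset.sum_smul]
    have h9 : ∑ s : Perm (Fin m), (z.coeff s : ℚ) * tc k (Y s) = ((d1 * (d2 * d2) : ℤ) : ℚ) := by
      push_cast
      rw [hd1, hd2]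
      nth_rewrite 2 [sum_coeff z]
      rw [tc_sum, Finset.sum_mul]
      refine Finset.sum_congr rfl fun s _ => ?_
      rw [hY, tc_zsmul]
      ring
    rw [h9, LinearMap.smul_apply, Int.cast_smul_eq_zsmul]

variable {m n}

theorem CL_cj {CL : P (Al V (AX m n)) →+ P (Option (Fin n))}
    (h : ∀ x x' w, CL (emb (io V m n) x * w * emb (io V m n) x') = x * CL w * x')
    (s : Perm (Fin n)) (y : P (Al V (AX m n))) : CL (cjB V s y) = cj s (CL y) := by
  unfold cjB cj
  rw [← h]
  congr 2
  · congr 1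
    rw [emb_g, sL_eq]
  · rw [emb_g, sL_eq, viaEmbedding_inv']

theorem sex_of_big {k D0 : ℕ} (h0 : 0 < D0) (hB : Big k D0) : ∃ D, 0 < D ∧ Sex k D := by
  obtain ⟨V, m, z, hz, hbig⟩ := hB
  obtain ⟨-, d, hd, -⟩ := closing V m 0 z
  have hd0 : d ≠ 0 := by
    intro h
    rw [h, Int.cast_zero] at hd
    exact (mul_ne_zero hz (mul_ne_zero V.tr V.tr)) hd.symm
  refine ⟨D0 * d.natAbs, Nat.mul_pos h0 (Int.natAbs_pos.2 hd0), ?_⟩
  intro n C _ c hc t ht W _ psi hker hrule
  obtain ⟨CL, d', hd', c1, c2, c3⟩ := closing V m n z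
  have hdd : d' = d := by
    have : (d' : ℚ) = d := by rw [hd, hd']
    exact_mod_cast this
  subst hdd
  obtain ⟨N, hN, h⟩ := hbig n C c hc t ht W (fun h => (psi h).comp CL)
    (fun h y hy => hker h _ (c1 y hy)) (fun i j hij hcij h y hi hj => by
      have h1 := hrule i j hij hcij h (CL y) hi hj
      simp only [AddMonoidHom.comp_apply, CL_cj V c2]
      exact h1)
  refine ⟨N, hN, ?_⟩
  have h2 : ∀ x : Finset (Fin n), ((psi x).comp CL) (zst V z (emb (io V m n) (t x) *
      g (swX V m n) * V.θ2 (AX m n))) = d' • psi x (t x) := by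
    intro x
    rw [AddMonoidHom.comp_apply, ← map_zsmul, ← sub_eq_zero, ← map_sub]
    refine hker _ _ ?_
    rw [map_sub, c3, map_zsmul, sub_self]
  simp only [h2] at h
  rw [← Finset.smul_sum] at h
  have h3 : (N • D0 • d'.natAbs • ∑ x, psi x (t x) : W) = 0 := by
    rcases Int.natAbs_eq d' with e | e
    · have h4 : (d' • ∑ x, psi x (t x) : W) = d'.natAbs • ∑ x, psi x (t x) := by
        conv_lhs => rw [e]
        rw [natCast_zsmul]
      rw [← h4]
      exact h
    · have h4 : (d' • ∑ x, psi x (t x) : W) = -(d'.natAbs • ∑ x, psi x (t x)) := by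
        conv_lhs => rw [e]
        rw [neg_smul, natCast_zsmul]
      rw [h4, smul_neg, smul_neg, neg_eq_zero] at h
      exact h
  rw [mul_smul]
  exact h3

end Pool.PI34.XH
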