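import Pool.Agent.LibPI34.SG_Pol
import Pool.Agent.LibPI34.H4_CL

/-!
PI34, block SG, file 4: paths of highest weight vectors, the catalyst.
-/

set_option autoImplicit false
set_option linter.unusedSectionVars false
set_option linter.unusedDecidableInType false
set_option linter.unusedFintypeInType false

namespace Pool.PI34.SG

open Equiv Finset Polynomial
open Pool.PI34.H4

variable {N n : ℕ}

theorem smul_cancel {α : Type} {x : W N α} (h0 : x ≠ 0) {a b : ℤ} (h : a • x = b • x) : a = b := by
  have h1 : ((a : ℚ) - b) • x = 0 := by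
    rw [sub_smul, Int.cast_smul_eq_zsmul, Int.cast_smul_eq_zsmul, h, sub_self]
  rcases smul_eq_zero.1 h1 with h2 | h2
  · have : (a : ℚ) = b := by linarith
    exact_mod_cast this
  · exact absurd h2 h0

/-- One step down. -/
theorem step {m : Fin N → ℕ} {x : W N (Fin (n + 1))} (h0 : x ≠ 0) (hx : HW x) (hm : HasWt m x) :
    ∃ (t : Fin N) (m' : Fin N → ℕ), comp x t ≠ 0 ∧ HW (comp x t) ∧ HasWt m' (comp x t) ∧
      Ab t x ∧
      (∀ a, m a = m' a + (if t = a then 1 else 0)) ∧
      (∀ (y : P (Fin n)) (c : ℤ), act N _ (emb Fin.castSuccEmb y) x = c • x →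
        act N _ y (comp x t) = c • comp x t) ∧
      (∀ (q : ℤ[X]) (c : ℤ), act N _ (aeval (Y (Fin.last n)) q) x = c • x →
        q.eval ((m t : ℤ) - 1 - (t : ℕ)) = c) := by
  obtain ⟨t, ht, hA⟩ := exists_top' h0
  obtain ⟨m', hm', hmm⟩ := comp_wt hm ht
  refine ⟨t, m', ht, hA.comp_HW hx, hm', hA, hmm, ?_, ?_⟩
  · intro y c h
    rw [← comp_act_emb, h, comp_zsmul]
  · intro q c h
    have h1 := (hA.comp_aeval q hx hm).2
    rw [h, comp_zsmul] at h1
    exact (smul_cancel ht h1).symm

/-- the potential -/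
def Phi (m : Fin N → ℕ) : ℤ := ∑ t : Fin N, vv (par ((m t : ℤ) + N - 1 - (t : ℕ)))

theorem vv_sq (b : Bool) : vv b * vv b = 1 := by cases b <;> simp [vv]

theorem vv_par_add (a b : ℤ) : vv (par (a + b)) = vv (par a) * vv (par b) := by
  unfold vv par
  rcases Int.even_or_odd a with ha | ha <;> rcases Int.even_or_odd b with hb | hb
  · simp [ha.add hb, ha, hb]
  · simp [ha.add_odd hb, ha, Int.not_even_iff_odd.2 hb, Int.not_even_iff_odd.2 (ha.add_odd hb)]
  · simp [ha.add_even hb, hb, Int.not_even_iff_odd.2 ha, Int.not_even_iff_odd.2 (ha.add_even hb)]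
  · simp [ha.add_odd hb, Int.not_even_iff_odd.2 ha, Int.not_even_iff_odd.2 hb]

theorem vv_par_add_one (a : ℤ) : vv (par (a + 1)) = - vv (par a) := by
  rw [vv_par_add]
  have : vv (par 1) = -1 := by simp [vv, par]
  rw [this]
  ring

theorem Phi_step {m m' : Fin N → ℕ} {t : Fin N} (h : ∀ a, m a = m' a + (if t = a then 1 else 0)) :
    Phi m = Phi m' + 2 * (vv (par N) * vv (par ((m t : ℤ) - 1 - (t : ℕ)))) := by
  unfold Phi
  rw [← Finset.add_sum_erase _ _ (mem_univ t),
    ← Finset.add_sum_erase univ (fun t : Fin N => vv (par ((m' t : ℤ) + N - 1 - (t : ℕ))))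
      (mem_univ t)]
  have h1 : ∑ a ∈ univ.erase t, vv (par ((m a : ℤ) + N - 1 - (a : ℕ))) =
      ∑ a ∈ univ.erase t, vv (par ((m' a : ℤ) + N - 1 - (a : ℕ))) := by
    refine Finset.sum_congr rfl (fun a ha => ?_)
    rw [h a, if_neg (Finset.ne_of_mem_erase ha).symm, add_zero]
  have h2 : (m t : ℤ) = m' t + 1 := by
    rw [h t, if_pos rfl]
    push_cast
    ring
  have h3 : vv (par ((m t : ℤ) + N - 1 - (t : ℕ))) =
      - vv (par ((m' t : ℤ) + N - 1 - (t : ℕ))) := by
    rw [← vv_par_add_one, h2]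
    congr 2
    ring
  have h4 : vv (par N) * vv (par ((m t : ℤ) - 1 - (t : ℕ))) =
      vv (par ((m t : ℤ) + N - 1 - (t : ℕ))) := by
    rw [← vv_par_add]
    congr 2
    ring
  rw [h1, h4, h3]
  ring

/-- the potential along a path (from nothing) -/
theorem path {M : ℕ} (R : Res M) (hM : n + N ≤ M) (ν : Fin n → Bool) :
    ∀ {m : Fin N → ℕ} {x : W N (Fin n)}, x ≠ 0 → HW x → HasWt m x →
      (∀ k, act N _ (aeval (Y k) (R.G (ν k))) x = R.D • x) →
      Phi m = Phi (fun _ : Fin N => 0) + 2 * ∑ k, vv (par N) * vv (ν k) := by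
  induction n with
  | zero =>
    intro m x h0 _ hm _
    obtain ⟨w, hw⟩ := H4.exists_ne h0
    have h1 : m = fun _ => 0 := by
      funext a
      rw [← hm w hw a]
      simp [cnt]
    rw [h1]
    simp
  | succ n ih =>
    intro m x h0 hx hm hk
    obtain ⟨t, m', ht, hx', hm', hA, hmm, h1, h2⟩ := step h0 hx hm
    have h3 := ih (by omega) (fun k => ν k.castSucc) ht hx' hm' (fun k => by
      apply h1
      rw [emb_aeval, emb_Y _ (fun i => rfl)]
      exact hk k.castSucc)
    have h4 := h2 _ _ (hk (Fin.last n))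
    have h5 := R.par_of_eval (content_mem hm h0 (by omega) t) h4
    rw [Phi_step hmm, h3, h5, Fin.sum_univ_castSucc]
    ring

theorem Phi_le (m : Fin N → ℕ) : Phi m ≤ N ∧ -N ≤ Phi m ∧
    (Phi m = N → ∀ t : Fin N, Even ((m t : ℤ) + N - 1 - (t : ℕ))) := by
  have hle : ∀ t : Fin N, vv (par ((m t : ℤ) + N - 1 - (t : ℕ))) ≤ 1 := by
    intro t
    unfold vv
    split_ifs <;> norm_num
  have hge : ∀ t : Fin N, -1 ≤ vv (par ((m t : ℤ) + N - 1 - (t : ℕ))) := by
    intro t
    unfold vv
    split_ifs <;> norm_num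
  have h1 : ∑ _t : Fin N, (1 : ℤ) = N := by simp
  have h2 : ∑ _t : Fin N, (-1 : ℤ) = -N := by simp
  refine ⟨?_, ?_, ?_⟩
  · rw [← h1]
    exact Finset.sum_le_sum fun t _ => hle t
  · rw [← h2]
    exact Finset.sum_le_sum fun t _ => hge t
  · intro h t
    have h3 : ∑ t : Fin N, (1 - vv (par ((m t : ℤ) + N - 1 - (t : ℕ)))) = 0 := by
      rw [Finset.sum_sub_distrib, h1]
      unfold Phi at h
      rw [h, sub_self]
    have h4 := (Finset.sum_eq_zero_iff_of_nonneg (fun t _ => sub_nonneg.2 (hle t))).1 h3 t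
      (mem_univ t)
    by_contra hne
    have h5 : par ((m t : ℤ) + N - 1 - (t : ℕ)) = false := by simp [par, hne]
    rw [h5] at h4
    norm_num [vv] at h4

/-- beta numbers: a dominant weight of the size of the core with all beta numbers even -/
theorem core_unique {m : Fin N → ℕ} (hd : ∀ a b : Fin N, a < b → m b ≤ m a)
    (he : ∀ t : Fin N, Even ((m t : ℤ) + N - 1 - (t : ℕ)))
    (hs : ∑ t, (m t : ℤ) = ∑ t : Fin N, ((N : ℤ) - 1 - (t : ℕ))) :
    ∀ t : Fin N, (m t : ℤ) = (N : ℤ) - 1 - (t : ℕ) := by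
  have hge : ∀ k : ℕ, ∀ t : Fin N, N - 1 - (t : ℕ) = k → (N : ℤ) - 1 - (t : ℕ) ≤ m t := by
    intro k
    induction k with
    | zero =>
      intro t ht
      have := t.2
      have h1 : (N : ℤ) - 1 - (t : ℕ) = 0 := by omega
      rw [h1]
      positivity
    | succ k ih =>
      intro t ht
      have h1 := t.2
      let t' : Fin N := ⟨t + 1, by omega⟩
      have h2 := ih t' (by simp only [t']; omega)
      have h3 := hd t t' (by rw [Fin.lt_def]; simp only [t']; omega)
      have h4 := he t
      have h5 := he t'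
      have h6 : ((t' : ℕ) : ℤ) = (t : ℕ) + 1 := by simp [t']
      rw [h6] at h5 h2
      have h7 : Even (((m t : ℤ) + N - 1 - (t : ℕ)) - ((m t' : ℤ) + N - 1 - ((t : ℕ) + 1))) :=
        h4.sub h5
      have h8 : ((m t : ℤ) + N - 1 - (t : ℕ)) - ((m t' : ℤ) + N - 1 - ((t : ℕ) + 1)) =
          (m t : ℤ) - m t' + 1 := by ring
      rw [h8] at h7
      have h9 : (m t' : ℤ) ≤ m t := by exact_mod_cast h3
      have h10 : (m t : ℤ) ≠ m t' := by
        intro h
        rw [h, sub_self, zero_add] at h7
        exact absurd h7 (by decide)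
      omega
  have h1 : ∑ t : Fin N, ((m t : ℤ) - ((N : ℤ) - 1 - (t : ℕ))) = 0 := by
    rw [Finset.sum_sub_distrib, hs, sub_self]
  intro t
  have h2 := (Finset.sum_eq_zero_iff_of_nonneg
    (fun t _ => sub_nonneg.2 (hge _ t rfl))).1 h1 t (mem_univ t)
  linarith

/-- the exact relations of the residue elements -/
theorem G_sq {M : ℕ} (R : Res M) (hM : 2 * n ≤ M) (b : Bool) (k : Fin n) :
    aeval (Y k) (R.G b) * aeval (Y k) (R.G b) = R.D • aeval (Y k) (R.G b) := by
  have h1 : aeval (Y k) (R.G b) * aeval (Y k) (R.G !b) = 0 := by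
    rw [← map_mul]
    obtain ⟨q, hq⟩ := R.mul_dvd (b := b) (b' := !b) (by cases b <;> simp)
    rw [hq, map_mul, lin_Y hM, zero_mul]
  have h2 : aeval (Y k) (R.G b) + aeval (Y k) (R.G !b) = R.D • (1 : P (Fin n)) := by
    rw [← map_add, R.add', aeval_C, Algebra.algebraMap_eq_smul_one]
  have h3 : aeval (Y k) (R.G b) * (aeval (Y k) (R.G b) + aeval (Y k) (R.G !b)) =
      R.D • aeval (Y k) (R.G b) := by rw [h2, mul_smul_comm, mul_one]
  rw [mul_add, h1, add_zero] at h3
  exact h3

theorem G_add {M : ℕ} (R : Res M) (k : Fin n) :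
    aeval (Y k) (R.G true) + aeval (Y k) (R.G false) = R.D • (1 : P (Fin n)) := by
  rw [← map_add, R.add, aeval_C, Algebra.algebraMap_eq_smul_one]

theorem commute_aeval_aeval {R : Type} [Ring R] {x y : R} (h : Commute x y) (p q : ℤ[X]) :
    Commute (aeval x p) (aeval y q) :=
  Commute.aeval_left (Commute.aeval_left h.symm q).symm p

/-- building the residue element of a vector -/
theorem build {M : ℕ} (R : Res M) (hM : 2 * n ≤ M) {v : W N (Fin n)} (hv : v ≠ 0) (K : ℕ)
    (hK : K ≤ n) : ∃ (z : P (Fin n)) (ν : Fin n → Bool) (h : ℤ), 0 < h ∧ Odd h ∧ (∀ N', SA N' z) ∧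
      (∀ (p : ℤ[X]) (k : Fin n), Commute (aeval (Y k) p) z) ∧ z * z = h • z ∧
      act N _ z v ≠ 0 ∧
      ∀ k : Fin n, (k : ℕ) < K → aeval (Y k) (R.G (ν k)) * z = R.D • z := by
  induction K with
  | zero =>
    refine ⟨1, fun _ => true, 1, one_pos, odd_one, fun _ => SA_one, fun p k => Commute.one_right _,
      by simp, ?_, fun k hk => absurd hk (Nat.not_lt_zero _)⟩
    rw [act_one]
    exact hv
  | succ K ih =>
    obtain ⟨z, ν, h, hh0, hh1, hSA, hcom, hzz, hne, hk⟩ := ih (by omega)
    let k0 : Fin n := ⟨K, hK⟩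
    have h1 : ∃ b, act N _ (aeval (Y k0) (R.G b) * z) v ≠ 0 := by
      by_contra hcon
      push Not at hcon
      have h2 : act N _ (R.D • z) v = 0 := by
        have h3 : R.D • z = aeval (Y k0) (R.G true) * z + aeval (Y k0) (R.G false) * z := by
          rw [← add_mul, G_add, smul_mul_assoc, one_mul]
        rw [h3, act_add, hcon, hcon, add_zero]
      rw [act_zsmul] at h2
      have h4 : R.D • act N _ z v = (0 : ℤ) • act N _ z v := by rw [h2, zero_smul]
      exact R.pos.ne' (smul_cancel hne h4)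
    obtain ⟨b, hb⟩ := h1
    have hc : Commute (aeval (Y k0) (R.G b)) z := hcom _ _
    refine ⟨aeval (Y k0) (R.G b) * z, Function.update ν k0 b, R.D * h, mul_pos R.pos hh0,
      R.odd.mul hh1, fun N' => ((SA_Y k0).aeval _).mul (hSA N') hc, fun p k => ?_, ?_, hb, ?_⟩
    · exact (commute_aeval_aeval (commute_Y k k0) p _).mul_right (hcom p k)
    · calc aeval (Y k0) (R.G b) * z * (aeval (Y k0) (R.G b) * z)
          = aeval (Y k0) (R.G b) * (z * aeval (Y k0) (R.G b)) * z := by simp only [mul_assoc]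
        _ = (aeval (Y k0) (R.G b) * aeval (Y k0) (R.G b)) * (z * z) := by
            rw [← hc.eq]; simp only [mul_assoc]
        _ = _ := by
            rw [G_sq R hM, hzz, smul_mul_assoc, mul_smul_comm, smul_smul]
    · intro k hk'
      rcases eq_or_ne k k0 with rfl | hne'
      · rw [Function.update_self, ← mul_assoc, G_sq R hM, smul_mul_assoc]
      · rw [Function.update_of_ne hne']
        have h5 : (k : ℕ) < K := by
          have : (k : ℕ) ≠ K := fun h => hne' (Fin.ext h)
          omega
        have h6 : aeval (Y k) (R.G (ν k)) * aeval (Y k0) (R.G b) =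
            aeval (Y k0) (R.G b) * aeval (Y k) (R.G (ν k)) :=
          commute_aeval_aeval (commute_Y k k0) _ _
        rw [← mul_assoc, h6, mul_assoc, hk k h5, mul_smul_comm]

/-- restriction to fewer letters -/
def rst {N N' : ℕ} (h : N' ≤ N) {α : Type} (f : W N α) : W N' α := fun w => f (fun x => Fin.castLE h (w x))

theorem rst_act {N N' : ℕ} (h : N' ≤ N) {α : Type} [Fintype α] [DecidableEq α] (y : P α)
    (f : W N α) : rst h (act N α y f) = act N' α y (rst h f) := by
  refine P_induction (p := fun y => rst h (act N α y f) = act N' α y (rst h f)) y ?_ ?_ ?_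
  · intro σ
    funext w
    rw [act_g]
    unfold rst
    rw [act_g]
    rfl
  · intro a b ha hb
    rw [act_add, act_add, ← ha, ← hb]
    rfl
  · intro m a ha
    rw [act_zsmul, act_zsmul, ← ha]
    rfl

open Classical in
/-- extension by zero to more letters -/
noncomputable def ext0 {N N' : ℕ} (h : N' ≤ N) {α : Type} (f : W N' α) : W N α := fun w =>
  if hw : ∃ w' : α → Fin N', (fun x => Fin.castLE h (w' x)) = w then f (Classical.choose hw) else 0

theorem ext0_cast {N N' : ℕ} (h : N' ≤ N) {α : Type} (f : W N' α) (w' : α → Fin N') :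
    ext0 h f (fun x => Fin.castLE h (w' x)) = f w' := by
  unfold ext0
  have hw : ∃ w'' : α → Fin N', (fun x => Fin.castLE h (w'' x)) = (fun x => Fin.castLE h (w' x)) :=
    ⟨w', rfl⟩
  rw [dif_pos hw]
  congr 1
  have h1 := Classical.choose_spec hw
  funext x
  exact Fin.castLE_injective h (congrFun h1 x)

theorem ext0_of_not {N N' : ℕ} (h : N' ≤ N) {α : Type} (f : W N' α) (w : α → Fin N)
    (hw : ¬ ∃ w' : α → Fin N', (fun x => Fin.castLE h (w' x)) = w) : ext0 h f w = 0 := by
  unfold ext0
  rw [dif_neg hw]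

theorem ext0_act {N N' : ℕ} (h : N' ≤ N) {α : Type} [Fintype α] [DecidableEq α] (y : P α)
    (f : W N' α) : ext0 h (act N' α y f) = act N α y (ext0 h f) := by
  refine P_induction (p := fun y => ext0 h (act N' α y f) = act N α y (ext0 h f)) y ?_ ?_ ?_
  · intro σ
    funext w
    rw [act_g]
    by_cases hw : ∃ w' : α → Fin N', (fun x => Fin.castLE h (w' x)) = w
    · obtain ⟨w', rfl⟩ := hw
      rw [ext0_cast, act_g]
      have : ((fun x => Fin.castLE h (w' x)) ∘ ⇑σ) = fun x => Fin.castLE h ((w' ∘ ⇑σ) x) := rfl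
      rw [this, ext0_cast]
    · rw [ext0_of_not h _ _ hw, ext0_of_not]
      rintro ⟨w', hw'⟩
      apply hw
      refine ⟨w' ∘ ⇑σ.symm, ?_⟩
      funext x
      have := congrFun hw' (σ.symm x)
      simpa using this
  · intro a b ha hb
    rw [act_add, act_add, ← ha, ← hb]
    funext w
    by_cases hw : ∃ w' : α → Fin N', (fun x => Fin.castLE h (w' x)) = w
    · obtain ⟨w', rfl⟩ := hw
      simp only [Pi.add_apply, ext0_cast]
    · simp only [Pi.add_apply, ext0_of_not h _ _ hw, add_zero]
  · intro m a ha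
    rw [act_zsmul, act_zsmul, ← ha]
    funext w
    by_cases hw : ∃ w' : α → Fin N', (fun x => Fin.castLE h (w' x)) = w
    · obtain ⟨w', rfl⟩ := hw
      simp only [Pi.smul_apply, ext0_cast]
    · simp only [Pi.smul_apply, ext0_of_not h _ _ hw, smul_zero]

theorem ext0_HW {N N' : ℕ} (h : N' ≤ N) {α : Type} [Fintype α] [DecidableEq α] {f : W N' α}
    (hf : HW f) : HW (ext0 h f) := by
  intro a b hab
  funext w
  rw [EE_apply, Pi.zero_apply]
  by_cases hb : (b : ℕ) < N'
  · by_cases hw : ∃ w' : α → Fin N', (fun x => Fin.castLE h (w' x)) = w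
    · obtain ⟨w', rfl⟩ := hw
      have ha : (a : ℕ) < N' := lt_trans hab hb
      have h1 := congrFun (hf ⟨a, ha⟩ ⟨b, hb⟩ hab) w'
      rw [EE_apply, Pi.zero_apply] at h1
      refine Eq.trans (Finset.sum_congr rfl (fun x _ => ?_)) h1
      have e1 : Fin.castLE h (w' x) = a ↔ w' x = ⟨a, ha⟩ := by
        rw [Fin.ext_iff, Fin.ext_iff]
        rfl
      have e2 : Function.update (fun x => Fin.castLE h (w' x)) x b =
          fun y => Fin.castLE h (Function.update w' x ⟨b, hb⟩ y) := by
        funext y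
        rcases eq_or_ne y x with rfl | hy
        · rw [Function.update_self, Function.update_self]
          rfl
        · rw [Function.update_of_ne hy, Function.update_of_ne hy]
      simp only [e1, e2, ext0_cast]
    · apply Finset.sum_eq_zero
      intro x _
      split_ifs with hx
      · apply ext0_of_not
        rintro ⟨w', hw'⟩
        apply hw
        have ha : (a : ℕ) < N' := lt_trans hab hb
        refine ⟨Function.update w' x ⟨a, ha⟩, ?_⟩
        funext y
        rcases eq_or_ne y x with rfl | hy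
        · rw [Function.update_self, hx]
          rfl
        · rw [Function.update_of_ne hy]
          have := congrFun hw' y
          rw [Function.update_of_ne hy] at this
          exact this
      · rfl
  · apply Finset.sum_eq_zero
    intro x _
    split_ifs with hx
    · apply ext0_of_not
      rintro ⟨w', hw'⟩
      have := congrFun hw' x
      rw [Function.update_self] at this
      apply hb
      rw [← this]
      exact (w' x).2
    · rfl

/-- **The catalyst.** -/
theorem exists_cat (N : ℕ) : ∃ (n : ℕ) (z : P (Fin n)) (h : ℤ), 0 < h ∧ Odd h ∧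
    (∀ N', SA N' z) ∧ z * z = h • z ∧ ZP N 2 z ∧ 0 < tc N z ∧
    (∀ (p : ℤ[X]) (k : Fin n), Commute (aeval (Y k) p) z) ∧
    (∀ N', N' + 1 < N → act N' _ z = 0) ∧ (∀ N', N' + 1 = N → act N' _ z ≠ 0) := by
  obtain ⟨n, col, row, hc, hrow⟩ := exists_cols N 2 (by norm_num)
  have hrow' : ∀ a, (cnt row a : ℤ) = (N : ℤ) - 1 - (a : ℕ) := by
    intro a
    rw [hrow a]
    push_cast
    ring
  obtain ⟨R⟩ := exists_res (2 * n + N)
  have hv0 : v0 col row ≠ 0 := fun h => by
    have := v0_row hc
    rw [h] at this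
    exact zero_ne_one this
  obtain ⟨z, ν, h, hh0, hh1, hSA, hcom, hzz, hne, hk⟩ :=
    build (N := N) R (by omega) hv0 n le_rfl
  have hk' : ∀ k, aeval (Y k) (R.G (ν k)) * z = R.D • z := fun k => hk k k.2
  -- the potential
  have hpot : ∀ (u' : W N (Fin n)) (m : Fin N → ℕ), act N _ z u' ≠ 0 → HW (act N _ z u') →
      HasWt m (act N _ z u') →
      Phi m = Phi (fun _ : Fin N => 0) + 2 * ∑ k, vv (par N) * vv (ν k) := by
    intro u' m h0 h1 h2
    apply path R (by omega) ν h0 h1 h2
    intro k
    rw [← act_mul, hk', act_zsmul]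
  have hwt0 : HasWt (cnt row) (act N _ z (v0 col row)) := HasWt.act v0_wt z
  have hHW0 : HW (act N _ z (v0 col row)) := (v0_HW hc).act z
  have hPhi0 : Phi (cnt row) = N := by
    unfold Phi
    have : ∀ t : Fin N, vv (par ((cnt row t : ℤ) + N - 1 - (t : ℕ))) = 1 := by
      intro t
      rw [hrow']
      have h1 : (N : ℤ) - 1 - (t : ℕ) + N - 1 - (t : ℕ) = 2 * (N - 1 - (t : ℕ)) := by ring
      rw [h1]
      simp [vv, par]
    rw [Finset.sum_congr rfl (fun t _ => this t)]
    simp
  have hcard0 : ∑ t, (cnt row t : ℤ) = n := by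
    have h1 := sum_wt hwt0 hne
    rw [Fintype.card_fin] at h1
    exact_mod_cast h1
  have hZP : ZP N 2 z := by
    intro u' h1 h2 w hw a
    have h0 : act N _ z u' ≠ 0 := fun h => hw (by rw [h]; rfl)
    have hm : HasWt (cnt w) (act N _ z u') := fun w' hw' a => h2 _ _ hw' hw a
    have e1 := hpot u' (cnt w) h0 h1 hm
    have e2 := hpot _ _ hne hHW0 hwt0
    rw [← e2, hPhi0] at e1
    have e3 := (Phi_le (cnt w)).2.2 e1
    have e4 := core_unique (fun a b hab => dominant h1 hm h0 hab) e3 (by
      have h5 := sum_wt hm h0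
      rw [Fintype.card_fin] at h5
      have h6 : ∑ t, (cnt w t : ℤ) = n := by exact_mod_cast h5
      rw [h6, ← hcard0]
      exact Finset.sum_congr rfl (fun t _ => hrow' t))
    rw [e4 a]
    ring
  have htc : 0 < tc N z := by
    obtain ⟨w0, hw0⟩ : ∃ w0, act N _ z (Pi.single w0 1) ≠ 0 := by
      by_contra hcon
      push Not at hcon
      apply hne
      have h1 : v0 col row = ∑ w, v0 col row w • (Pi.single w 1 : W N (Fin n)) := by
        funext w'
        rw [Finset.sum_apply]
        simp [Pi.single_apply]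
      rw [h1, map_sum]
      exact Finset.sum_eq_zero fun w _ => by rw [map_smul, hcon, smul_zero]
    have h1 := trace_sq_pos (hSA N) w0 hw0
    have h2 : ∑ w : Fin n → Fin N, act N _ (z * z) (Pi.single w 1) w = (h : ℚ) * tc N z := by
      unfold tc
      rw [Finset.mul_sum]
      refine Finset.sum_congr rfl (fun w _ => ?_)
      rw [hzz, act_zsmul, Pi.smul_apply, zsmul_eq_mul]
    rw [h2] at h1
    have h3 : (0 : ℚ) < h := by exact_mod_cast hh0
    exact (mul_pos_iff_of_pos_left h3).1 h1
  refine ⟨n, z, h, hh0, hh1, hSA, hzz, hZP, htc, hcom, ?_, ?_⟩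
  · intro N' hN'
    have hle : N' ≤ N := by omega
    apply act_eq_zero_of_SA (hSA N')
    intro v hv hv1
    by_contra hx0
    have e1 := ext0_act hle z v
    have e2 : HW (act N _ z (ext0 hle v)) := by
      rw [← e1]
      exact ext0_HW hle (hv.act z)
    obtain ⟨w, hw⟩ := H4.exists_ne hx0
    have hone : OneW (act N _ z (ext0 hle v)) := by
      rw [← e1]
      have hO := hv1.act z
      intro w1 w2 hw1 hw2 a
      have key : ∀ w1, ext0 hle (act N' _ z v) w1 ≠ 0 → ∃ w' : Fin n → Fin N',
          (fun x => Fin.castLE hle (w' x)) = w1 ∧ act N' _ z v w' ≠ 0 := by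
        intro w1 hw1
        by_cases hc : ∃ w' : Fin n → Fin N', (fun x => Fin.castLE hle (w' x)) = w1
        · obtain ⟨w', rfl⟩ := hc
          rw [ext0_cast] at hw1
          exact ⟨w', rfl, hw1⟩
        · exact absurd (ext0_of_not hle _ _ hc) hw1
      obtain ⟨w1', rfl, h1'⟩ := key w1 hw1
      obtain ⟨w2', rfl, h2'⟩ := key w2 hw2
      have hcnt : ∀ (w' : Fin n → Fin N') (a : Fin N),
          cnt (fun x => Fin.castLE hle (w' x)) a =
            if ha : (a : ℕ) < N' then cnt w' ⟨a, ha⟩ else 0 := by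
        intro w' a
        split_ifs with ha
        · unfold cnt
          congr 1
          ext x
          rw [mem_filter, mem_filter, Fin.ext_iff, Fin.ext_iff]
          rfl
        · unfold cnt
          rw [Finset.card_eq_zero, Finset.filter_eq_empty_iff]
          intro x _ hx
          apply ha
          rw [← hx]
          exact (w' x).2
      rw [hcnt, hcnt]
      split_ifs with ha
      · exact hO _ _ h1' h2' _
      · rfl
    have e3 : act N _ z (ext0 hle v) (fun x => Fin.castLE hle (w x)) ≠ 0 := by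
      rw [← e1, ext0_cast]
      exact hw
    have e4 := hZP _ e2 hone _ e3 ⟨N', by omega⟩
    have e5 : cnt (fun x => Fin.castLE hle (w x)) (⟨N', by omega⟩ : Fin N) = 0 := by
      unfold cnt
      rw [Finset.card_eq_zero, Finset.filter_eq_empty_iff]
      intro x _ hx
      have h1 := congrArg Fin.val hx
      have h2 : ((w x : Fin N') : ℕ) = N' := h1
      exact absurd (w x).2 (by omega)
    rw [e5] at e4
    push_cast at e4
    omega
  · intro N' hN' hz0
    have hle : N' ≤ N := by omega
    have h1 := rst_act hle z (v0 col row)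
    rw [hz0, LinearMap.zero_apply] at h1
    obtain ⟨w, hw⟩ := H4.exists_ne hne
    have h2 : ∀ x, ((w x : Fin N) : ℕ) < N' := by
      intro x
      have h3 := hwt0 w hw ⟨N', by omega⟩
      have h4 := hrow' ⟨N', by omega⟩
      have h5 : cnt row (⟨N', by omega⟩ : Fin N) = 0 := by
        have h6 : (cnt row (⟨N', by omega⟩ : Fin N) : ℤ) = 0 := by
          rw [h4]
          simp only
          omega
        exact_mod_cast h6
      rw [h5] at h3
      unfold cnt at h3
      rw [Finset.card_eq_zero, Finset.filter_eq_empty_iff] at h3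
      have h6 := h3 (mem_univ x)
      have h7 : ((w x : Fin N) : ℕ) ≠ N' := fun h => h6 (Fin.ext h)
      have h8 := (w x).2
      omega
    have h3 := congrFun h1 (fun x => ⟨w x, h2 x⟩)
    apply hw
    exact h3

end Pool.PI34.SG
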