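import Pool.Agent.LibPI34.X_EvDef
import Pool.Agent.LibPI34.X_PT
import Pool.Agent.LibPI34.SG_Cat

/-!
PI34, p = 2, block EVEN2: the quasi-idempotent V-catalysts (owner helper13).
-/

set_option autoImplicit false
set_option linter.unusedSectionVars false

namespace Pool.PI34.EV

open Equiv Finset
open Pool.PI34.H4

section trace

variable {N : ℕ} {α β : Type} [Fintype α] [DecidableEq α] [Fintype β] [DecidableEq β]

theorem tc_eq_trace (y : P α) : tc N y = LinearMap.trace ℚ (W N α) (act N α y) := by
  rw [LinearMap.trace_eq_matrix_trace ℚ (Pi.basisFun ℚ (α → Fin N))]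
  unfold tc Matrix.trace
  refine Finset.sum_congr rfl fun w _ => ?_
  rw [Matrix.diag_apply, LinearMap.toMatrix_apply, Pi.basisFun_apply, Pi.basisFun_repr]

theorem tc_comm (x y : P α) : tc N (x * y) = tc N (y * x) := by
  have h1 : act N α (x * y) = act N α x * act N α y := map_mul _ _ _
  have h2 : act N α (y * x) = act N α y * act N α x := map_mul _ _ _
  rw [tc_eq_trace, tc_eq_trace, h1, h2, LinearMap.trace_mul_comm]

theorem tc_zsmul (n : ℤ) (x : P α) : tc N (n • x) = n * tc N x := by
  rw [tc_eq_trace, tc_eq_trace, map_zsmul, map_zsmul, zsmul_eq_mul]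

theorem tc_congr {x y : P α} (h : act N α x = act N α y) : tc N x = tc N y := by
  rw [tc_eq_trace, tc_eq_trace, h]

theorem tc_prod (z : P α) (a : P β) :
    tc N (emb Function.Embedding.inl z * emb (Function.Embedding.inr : β ↪ α ⊕ β) a) =
      tc N z * tc N a := by
  unfold tc
  rw [Finset.sum_mul_sum, ← Finset.sum_product']
  refine Finset.sum_bij' (fun u _ => (fun i => u (Sum.inl i), fun b => u (Sum.inr b)))
    (fun p _ => Sum.elim p.1 p.2) ?_ ?_ ?_ ?_ ?_
  · intro u _
    exact mem_univ _
  · intro p _
    exact mem_univ _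
  · intro u _
    exact Sum.elim_comp_inl_inr u
  · intro p _
    rfl
  · intro u _
    have hu : u = Sum.elim (fun i => u (Sum.inl i)) (fun b => u (Sum.inr b)) :=
      (Sum.elim_comp_inl_inr u).symm
    generalize (fun i => u (Sum.inl i)) = w at hu
    generalize (fun b => u (Sum.inr b)) = v at hu
    subst hu
    change act N _ (emb Function.Embedding.inl z * emb Function.Embedding.inr a)
      (Pi.single (Sum.elim w v) 1) (Sum.elim w v) =
      act N α z (Pi.single w 1) w * act N β a (Pi.single v 1) v
    rw [act_mul, act_emb_inl]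
    have h1 : (fun w' : α → Fin N => act N (α ⊕ β) (emb Function.Embedding.inr a)
        (Pi.single (Sum.elim w v) 1) (Sum.elim w' v)) =
        (act N β a (Pi.single v 1) v) • (Pi.single w 1 : W N α) := by
      funext w'
      rw [act_inr, Pi.smul_apply, smul_eq_mul]
      by_cases hw : w' = w
      · subst hw
        rw [Pi.single_eq_same, mul_one]
        have h2 : (fun v' : β → Fin N =>
            (Pi.single (Sum.elim w' v) 1 : W N (α ⊕ β)) (Sum.elim w' v')) =
              (Pi.single v 1 : W N β) := by
          funext v'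
          by_cases hv : v' = v
          · subst hv
            rw [Pi.single_eq_same, Pi.single_eq_same]
          · rw [Pi.single_eq_of_ne hv, Pi.single_eq_of_ne]
            intro h
            exact hv (congrArg (fun u : α ⊕ β → Fin N => fun b => u (Sum.inr b)) h)
        rw [h2]
      · rw [Pi.single_eq_of_ne hw, mul_zero]
        have h2 : (fun v' : β → Fin N =>
            (Pi.single (Sum.elim w v) 1 : W N (α ⊕ β)) (Sum.elim w' v')) = 0 := by
          funext v'
          rw [Pi.single_eq_of_ne]
          · rfl
          · intro h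
            exact hw (congrArg (fun u : α ⊕ β → Fin N => fun i => u (Sum.inl i)) h)
        rw [h2, map_zero]
        rfl
    rw [h1, map_smul, Pi.smul_apply, smul_eq_mul, mul_comm]

end trace

theorem As_sq (k : ℕ) : As (Fin k) * As (Fin k) = (k.factorial : ℤ) • As (Fin k) := by
  conv_lhs => rw [show As (Fin k) * As (Fin k) =
    (∑ s : Perm (Fin k), (Perm.sign s : ℤ) • g s) * As (Fin k) from rfl]
  rw [Finset.sum_mul]
  have h : ∀ s : Perm (Fin k), ((Perm.sign s : ℤ) • g s) * As (Fin k) = As (Fin k) := by
    intro s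
    rw [smul_mul_assoc, g_mul_As, smul_smul]
    rw [show ((Perm.sign s : ℤˣ) : ℤ) * (Perm.sign s : ℤˣ) = 1 by
      rw [← Units.val_mul, Int.units_mul_self]; rfl, one_smul]
  rw [Finset.sum_congr rfl (fun s _ => h s), Finset.sum_const, Finset.card_univ,
    Fintype.card_perm, Fintype.card_fin, natCast_zsmul]

theorem tc_As_ne (k : ℕ) : tc k (As (Fin k)) ≠ 0 := by
  have hA : As (Fin k) = Ac (fun _ : Fin k => (0 : ℕ)) := by
    unfold As Ac
    rw [Finset.filter_true_of_mem]
    intro s _
    rfl
  have hSA : SA k (As (Fin k)) := by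
    rw [hA]
    exact SA_Ac _
  have hne : act k (Fin k) (As (Fin k)) (Pi.single (id : Fin k → Fin k) 1) ≠ 0 := by
    intro h
    have h1 := congrFun h id
    unfold As at h1
    rw [act_sum, Finset.sum_apply, Finset.sum_eq_single (1 : Perm (Fin k))] at h1
    · rw [act_zsmul, Pi.smul_apply, act_g] at h1
      simp at h1
    · intro s _ hs
      rw [act_zsmul, Pi.smul_apply, act_g, Pi.single_eq_of_ne, smul_zero]
      intro h2
      apply hs
      ext x : 1
      exact congrFun h2 x
    · intro h2
      exact absurd (mem_univ _) h2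
  have h1 : 0 < tc k (As (Fin k) * As (Fin k)) := trace_sq_pos hSA id hne
  rw [As_sq, tc_zsmul] at h1
  intro h2
  rw [h2, mul_zero] at h1
  exact lt_irrefl _ h1

theorem exists_vcat (k : ℕ) : Nonempty (VCat k) := by
  obtain ⟨n, z, h, hpos, hodd, _, hzz, hZP, htr, _⟩ := SG.exists_cat k
  obtain ⟨e, F, hF, he, hs⟩ := split_all hZP k
  have hFodd : Odd F := by
    by_contra hne
    rw [Int.not_odd_iff_even] at hne
    obtain ⟨m, hm⟩ := hne
    obtain ⟨a, b, hab⟩ := hF
    rw [hm] at hab
    have : 2 * (a * m + b) = 1 := by linarith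
    omega
  set A : P (Fin n ⊕ Fin k) := emb Function.Embedding.inr (As (Fin k)) with hA
  set Z : P (Fin n ⊕ Fin k) := emb Function.Embedding.inl z with hZ
  have hZA : Commute Z A := by
    refine commute_emb_emb _ _ (fun x y h => ?_) z (As (Fin k))
    cases h
  have hZe : Commute Z e := he z
  have hAA : A * A = (k.factorial : ℤ) • A := by
    rw [hA, ← map_mul, As_sq, emb_zsmul]
  have hZZ : Z * Z = h • Z := by
    rw [hZ, ← map_mul, hzz, emb_zsmul]
  have hs' : act k _ (A * e * A * Z) = F • act k _ (A * Z) := hs
  have hFne : (F : ℚ) ≠ 0 := by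
    intro h0
    have h1 : F = 0 := by exact_mod_cast h0
    rw [h1] at hFodd
    exact absurd hFodd (by decide)
  refine ⟨⟨n, e * A * Z, e * Z, h * F, hodd.mul hFodd, ?_, ?_, ?_⟩⟩
  · have h1 : e * A * Z * (e * A * Z) = e * (A * e * A * Z) * Z := by
      calc e * A * Z * (e * A * Z) = e * A * (Z * e) * (A * Z) := by simp only [mul_assoc]
        _ = e * A * (e * Z) * (A * Z) := by rw [hZe.eq]
        _ = e * A * e * (Z * A) * Z := by simp only [mul_assoc]
        _ = e * A * e * (A * Z) * Z := by rw [hZA.eq]
        _ = e * (A * e * A * Z) * Z := by simp only [mul_assoc]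
    rw [h1, map_mul, map_mul, hs', mul_smul_comm, smul_mul_assoc, ← map_mul, ← map_mul]
    have h2 : e * (A * Z) * Z = h • (e * A * Z) := by
      calc e * (A * Z) * Z = e * A * (Z * Z) := by simp only [mul_assoc]
        _ = _ := by rw [hZZ, mul_smul_comm]
    rw [h2, map_zsmul, smul_smul, mul_comm F h]
  · congr 1
    rw [mul_assoc, mul_assoc, hZA.eq]
  · intro h0
    have h1 : (k.factorial : ℚ) * tc k (e * A * Z) = F * (tc k z * tc k (As (Fin k))) := by
      have h2 : tc k (e * A * (A * Z)) = (k.factorial : ℤ) * tc k (e * A * Z) := by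
        rw [← tc_zsmul]
        congr 1
        calc e * A * (A * Z) = e * (A * A) * Z := by simp only [mul_assoc]
          _ = _ := by rw [hAA, mul_smul_comm, smul_mul_assoc]
      have h3 : tc k (e * A * (A * Z)) = tc k (A * e * A * Z) := by
        rw [tc_comm]
        congr 1
        calc A * Z * (e * A) = A * (Z * e) * A := by simp only [mul_assoc]
          _ = A * (e * Z) * A := by rw [hZe.eq]
          _ = A * e * (Z * A) := by simp only [mul_assoc]
          _ = A * e * (A * Z) := by rw [hZA.eq]
          _ = _ := by simp only [mul_assoc]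
      have h4 : tc k (A * e * A * Z) = F * tc k (A * Z) := by
        rw [← tc_zsmul]
        apply tc_congr
        rw [hs', map_zsmul]
      have h5 : tc k (A * Z) = tc k z * tc k (As (Fin k)) := by
        rw [← hZA.eq, hZ, hA]
        exact tc_prod z (As (Fin k))
      rw [← h5, ← h4, ← h3, h2]
      norm_num
    rw [h0, mul_zero] at h1
    exact (mul_ne_zero hFne (mul_ne_zero htr.ne' (tc_As_ne k))) h1.symm

end Pool.PI34.EV
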