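import Pool.Agent.LibPI34.XS_Def
import Pool.Agent.LibPI34.X_Close
import Pool.Agent.LibPI34.X_VCat

/-!
PI34, p = 2, block SEX: the concrete chase settings.
-/

set_option autoImplicit false
set_option linter.unusedSectionVars false

namespace Pool.PI34.XS

open Equiv Finset
open Pool.PI34.H4
open Pool.PI34.EV (VCat Even1 Al)
open Pool.PI34.XH (AX io swX sX sL zst cjB BRules Big PO kap)

/-! ### strings modulo the relations of the words -/

section quot

variable (k : ℕ) (α : Type) [Fintype α] [DecidableEq α]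

/-- the kernel of the action on the words -/
def KA : AddSubgroup (P α) where
  carrier := {y | act k α y = 0}
  zero_mem' := map_zero _
  add_mem' {a b} ha hb := by
    change act k α (a + b) = 0
    rw [map_add, ha, hb, add_zero]
  neg_mem' {a} ha := by
    change act k α (-a) = 0
    rw [map_neg, ha, neg_zero]

/-- strings modulo the relations of the words -/
def MM : Type := P α ⧸ KA k α

noncomputable instance : AddCommGroup (MM k α) := inferInstanceAs (AddCommGroup (P α ⧸ KA k α))

variable {k α}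

/-- the class of a string -/
noncomputable def cl (y : P α) : MM k α := QuotientAddGroup.mk y

theorem cl_eq_zero {y : P α} : (cl y : MM k α) = 0 ↔ act k α y = 0 :=
  QuotientAddGroup.eq_zero_iff y

theorem cl_add (x y : P α) : (cl (x + y) : MM k α) = cl x + cl y := rfl

theorem cl_surj (x : MM k α) : ∃ y : P α, cl y = x := QuotientAddGroup.mk_surjective (s := KA k α) x

/-- the class as a homomorphism -/
noncomputable def clH : P α →+ MM k α := QuotientAddGroup.mk' (KA k α)

theorem clH_apply (y : P α) : (clH y : MM k α) = cl y := rfl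

theorem MM_tf (a : ℤ) (x : MM k α) (ha : a ≠ 0) (h : a • x = 0) : x = 0 := by
  obtain ⟨y, rfl⟩ := cl_surj x
  have h1 : (cl (a • y) : MM k α) = 0 := h
  rw [cl_eq_zero, map_zsmul] at h1
  rw [cl_eq_zero]
  rcases smul_eq_zero.1 h1 with h2 | h2
  · exact absurd h2 ha
  · exact h2

/-- a homomorphism from the classes -/
noncomputable def liftM {W : Type} [AddCommGroup W] (f : P α →+ W) (hf : ∀ y, act k α y = 0 → f y = 0) :
    MM k α →+ W :=
  QuotientAddGroup.lift (KA k α) f (fun y hy => hf y hy)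

theorem liftM_cl {W : Type} [AddCommGroup W] (f : P α →+ W) (hf : ∀ y, act k α y = 0 → f y = 0)
    (y : P α) : liftM f hf (cl y) = f y := rfl

/-- left and right multiplication -/
noncomputable def bim (a b : P α) : MM k α →+ MM k α :=
  liftM (clH.comp ((AddMonoidHom.mulLeft a).comp (AddMonoidHom.mulRight b))) (fun y hy => by
    change (cl (a * (y * b)) : MM k α) = 0
    rw [cl_eq_zero, map_mul, map_mul, hy, zero_mul, mul_zero])

theorem bim_cl (a b y : P α) : bim a b (cl y : MM k α) = cl (a * y * b) := by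
  change (cl (a * (y * b)) : MM k α) = _
  rw [mul_assoc]

variable (k α) in
/-- conjugation -/
noncomputable def conjM {σ : Type} [Fintype σ] [DecidableEq σ] (ι : σ ↪ α) :
    Perm σ →* AddMonoid.End (MM k α) where
  toFun τ := bim (g (τ.viaEmbedding ι)) (g (τ.viaEmbedding ι)⁻¹)
  map_one' := by
    apply AddMonoidHom.ext
    intro x
    obtain ⟨y, rfl⟩ := cl_surj x
    have h1 : (1 : Perm σ).viaEmbedding ι = 1 := by
      have := map_one (Perm.viaEmbeddingHom ι)
      rwa [Perm.viaEmbeddingHom_apply] at this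
    rw [bim_cl, h1, inv_one, g_one, one_mul, mul_one]
    rfl
  map_mul' τ τ' := by
    apply AddMonoidHom.ext
    intro x
    obtain ⟨y, rfl⟩ := cl_surj x
    have h1 : (τ * τ').viaEmbedding ι = τ.viaEmbedding ι * τ'.viaEmbedding ι := by
      have := map_mul (Perm.viaEmbeddingHom ι) τ τ'
      simpa only [Perm.viaEmbeddingHom_apply] using this
    change bim _ _ (cl y) = bim _ _ (bim _ _ (cl y))
    rw [bim_cl, bim_cl, bim_cl, h1, mul_inv_rev, g_mul, g_mul]
    simp only [mul_assoc]

theorem conjM_cl {σ : Type} [Fintype σ] [DecidableEq σ] (ι : σ ↪ α) (τ : Perm σ) (y : P α) :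
    conjM k α ι τ (cl y) = cl (g (τ.viaEmbedding ι) * y * g (τ.viaEmbedding ι)⁻¹) :=
  bim_cl _ _ _

variable (k α) in
/-- the conjugation action of the group algebra -/
noncomputable def conjA {σ : Type} [Fintype σ] [DecidableEq σ] (ι : σ ↪ α) :
    P σ →+* AddMonoid.End (MM k α) :=
  (MonoidAlgebra.lift ℤ (AddMonoid.End (MM k α)) (Perm σ) (conjM k α ι)).toRingHom

theorem conjA_g {σ : Type} [Fintype σ] [DecidableEq σ] (ι : σ ↪ α) (τ : Perm σ) :
    conjA k α ι (g τ) = conjM k α ι τ := by
  simp [conjA]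

/-- the action on the words -/
noncomputable def evM : MM k α →+ Module.End ℚ (W k α) :=
  liftM (act k α).toRingHom.toAddMonoidHom (fun _ hy => hy)

theorem evM_cl (y : P α) : evM (cl y : MM k α) = act k α y := rfl

theorem evM_inj {x : MM k α} (h : evM x = 0) : x = 0 := by
  obtain ⟨y, rfl⟩ := cl_surj x
  rw [evM_cl] at h
  exact cl_eq_zero.2 h

theorem glue_comp {σ : Type} [Fintype σ] [DecidableEq σ] (ι : σ ↪ α) (τ : Perm σ)
    (w : α → Fin k) : glue ι ((w ∘ ι) ∘ τ) w = w ∘ (τ.viaEmbedding ι) := by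
  funext x
  by_cases hx : x ∈ Set.range ι
  · obtain ⟨y, rfl⟩ := hx
    rw [glue_apply, Function.comp_apply (f := w) (g := ⇑(τ.viaEmbedding ι)),
      Perm.viaEmbedding_apply]
    rfl
  · rw [glue_apply_of_notMem _ _ _ _ hx, Function.comp_apply (f := w),
      Perm.viaEmbedding_apply_of_notMem _ _ _ hx]

theorem conjA_ev {σ : Type} [Fintype σ] [DecidableEq σ] (ι : σ ↪ α) (q : P σ) (s : Perm α)
    (f : W k α) (w : α → Fin k) :
    evM (conjA k α ι q (cl (g s))) f w = ∑ w' : α → Fin k, f w' *
      act (k * k) σ q (fun u => if (glue ι (fun x => (finProdFinEquiv.symm (u x)).1) w) ∘ s =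
        glue ι (fun x => (finProdFinEquiv.symm (u x)).2) w' then 1 else 0)
        (fun x => finProdFinEquiv (w (ι x), w' (ι x))) := by
  refine P_induction (p := fun q => evM (conjA k α ι q (cl (g s))) f w =
    ∑ w' : α → Fin k, f w' *
      act (k * k) σ q (fun u => if (glue ι (fun x => (finProdFinEquiv.symm (u x)).1) w) ∘ s =
        glue ι (fun x => (finProdFinEquiv.symm (u x)).2) w' then 1 else 0)
        (fun x => finProdFinEquiv (w (ι x), w' (ι x)))) q ?_ ?_ ?_
  · intro τ
    rw [conjA_g, conjM_cl, evM_cl, ← g_mul, ← g_mul, act_g]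
    have h1 : ∀ w' : α → Fin k, act (k * k) σ (g τ) (fun u =>
        if (glue ι (fun x => (finProdFinEquiv.symm (u x)).1) w) ∘ s =
        glue ι (fun x => (finProdFinEquiv.symm (u x)).2) w' then (1 : ℚ) else 0)
        (fun x => finProdFinEquiv (w (ι x), w' (ι x))) =
        if w' = w ∘ (τ.viaEmbedding ι * s * (τ.viaEmbedding ι)⁻¹) then 1 else 0 := by
      intro w'
      rw [act_g]
      have e1 : (fun x => (finProdFinEquiv.symm
          (((fun x => finProdFinEquiv (w (ι x), w' (ι x))) ∘ τ) x)).1) = (w ∘ ι) ∘ τ := by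
        funext x
        simp only [Function.comp_apply, Equiv.symm_apply_apply]
      have e2 : (fun x => (finProdFinEquiv.symm
          (((fun x => finProdFinEquiv (w (ι x), w' (ι x))) ∘ τ) x)).2) = (w' ∘ ι) ∘ τ := by
        funext x
        simp only [Function.comp_apply, Equiv.symm_apply_apply]
      have p1 : ∀ x, (τ.viaEmbedding ι) ((τ.viaEmbedding ι)⁻¹ x) = x :=
        fun x => Equiv.apply_symm_apply (τ.viaEmbedding ι) x
      have p2 : ∀ x, (τ.viaEmbedding ι)⁻¹ ((τ.viaEmbedding ι) x) = x :=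
        fun x => Equiv.symm_apply_apply (τ.viaEmbedding ι) x
      rw [e1, e2, glue_comp, glue_comp]
      congr 1
      apply propext
      constructor
      · intro h
        funext x
        have h2 := congrFun h ((τ.viaEmbedding ι)⁻¹ x)
        simp only [Function.comp_apply, p1] at h2
        simp only [Function.comp_apply, Perm.mul_apply]
        exact h2.symm
      · intro h
        rw [h]
        funext x
        simp only [Function.comp_apply, Perm.mul_apply, p2]
    rw [Finset.sum_congr rfl (fun w' _ => by rw [h1 w'])]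
    rw [Finset.sum_eq_single (w ∘ (τ.viaEmbedding ι * s * (τ.viaEmbedding ι)⁻¹))]
    · rw [if_pos rfl, mul_one]
    · intro w' _ hw'
      rw [if_neg hw', mul_zero]
    · intro h
      exact absurd (mem_univ _) h
  · intro a b ha hb
    have e : conjA k α ι (a + b) (cl (g s)) = conjA k α ι a (cl (g s)) +
        conjA k α ι b (cl (g s)) := by
      rw [map_add]
      rfl
    rw [e, map_add, LinearMap.add_apply, Pi.add_apply, ha, hb, ← Finset.sum_add_distrib]
    refine Finset.sum_congr rfl fun w' _ => ?_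
    rw [act_add, Pi.add_apply]
    ring
  · intro n a ha
    have e : conjA k α ι (n • a) (cl (g s)) = n • conjA k α ι a (cl (g s)) := by
      rw [map_zsmul]
      rfl
    rw [e, map_zsmul, LinearMap.smul_apply, Pi.smul_apply, ha, Finset.smul_sum]
    refine Finset.sum_congr rfl fun w' _ => ?_
    rw [act_zsmul, Pi.smul_apply, mul_smul_comm]

theorem conjA_ker {σ : Type} [Fintype σ] [DecidableEq σ] (ι : σ ↪ α) (q : P σ)
    (hq : act (k * k) σ q = 0) : conjA k α ι q = 0 := by
  apply AddMonoidHom.ext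
  intro x
  obtain ⟨y, rfl⟩ := cl_surj x
  refine P_induction (p := fun y => conjA k α ι q (cl y) = (0 : AddMonoid.End (MM k α)) (cl y))
    y ?_ ?_ ?_
  · intro s
    refine evM_inj (LinearMap.ext fun f => ?_)
    funext w
    rw [conjA_ev, hq]
    simp
  · intro a b ha hb
    rw [cl_add, map_add, ha, hb]
    rfl
  · intro n a ha
    have e : (cl (n • a) : MM k α) = n • cl a := map_zsmul (clH : P α →+ MM k α) n a
    rw [e, map_zsmul, ha]
    exact smul_zero _

end quot

/-! ### the concrete chase settings -/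

section conc

variable {k : ℕ} (V : VCat k) (m n : ℕ)

/-- the W-slots and the letters -/
def iS : (Fin m ⊕ Fin n) ↪ Al V (AX m n) :=
  ⟨fun x => some (Sum.inl (Sum.map Sum.inr id x)), by
    rintro (x | x) (y | y) h
    · have h1 := Sum.inl_injective (Option.some_injective _ h)
      exact congrArg Sum.inl (Sum.inr_injective (Sum.inl_injective h1))
    · have h1 := Sum.inl_injective (Option.some_injective _ h)
      cases h1
    · have h1 := Sum.inl_injective (Option.some_injective _ h)
      cases h1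
    · have h1 := Sum.inl_injective (Option.some_injective _ h)
      exact congrArg Sum.inr (Sum.inr_injective h1)⟩

theorem via_iS (τ : Perm (Fin m)) (σ : Perm (Fin n)) :
    Perm.viaEmbedding (sumCongr τ σ) (iS V m n) =
      (V.hA (sumCongr (sumCongr 1 τ) σ) : Perm (Al V (AX m n))) := by
  ext x : 1
  by_cases hx : x ∈ Set.range (iS V m n)
  · obtain ⟨y, rfl⟩ := hx
    rw [Perm.viaEmbedding_apply]
    rcases y with y | y <;> rfl
  · rw [Perm.viaEmbedding_apply_of_notMem _ _ _ hx]
    rcases x with _ | (((x | x) | i) | b)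
    · rfl
    · rfl
    · exact absurd ⟨Sum.inl x, rfl⟩ hx
    · exact absurd ⟨Sum.inr i, rfl⟩ hx
    · rfl

theorem comm_iS_jj (x : P (Fin m ⊕ Fin n)) (y : P (V.B ⊕ V.B)) :
    Commute (emb (iS V m n) x) (emb (V.jj (AX m n)) y) :=
  commute_emb_emb _ _ (fun a b h => by rcases a with _ | i <;> cases h) _ _

theorem θ2_sq (A : Type) [Fintype A] [DecidableEq A] :
    act k _ (V.θ2 A * V.θ2 A) = (V.κ * V.κ) • act k _ (V.θ2 A) := by
  rw [V.θ2_eq, ← map_mul, EV.act_congr_emb (V.jj A) (y := (V.κ * V.κ) • V.tt V.θ), map_zsmul,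
    map_zsmul]
  rw [V.tt_sq, map_zsmul]

theorem filter_eq' {A B C : Type} [Fintype A] [DecidableEq A] [Fintype B] [DecidableEq B]
    [DecidableEq C] (c : B → C) (h : Perm (A ⊕ B)) (hc : Sum.map id c ∘ h = Sum.map id c) :
    ∃ h' : Perm B, c ∘ h' = c ∧ h = sumCongr 1 h' := by
  have hr : ∀ a : A, h (Sum.inl a) = Sum.inl a := by
    intro a
    have h1 := congrFun hc (Sum.inl a)
    simp only [Function.comp_apply, Sum.map_inl, id] at h1
    rcases hb : h (Sum.inl a) with a' | b'
    · rw [hb] at h1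
      simp only [Sum.map_inl, id] at h1
      rw [Sum.inl_injective h1]
    · rw [hb] at h1
      cases h1
  have hl : ∀ b : B, ∃ b' : B, h (Sum.inr b) = Sum.inr b' := by
    intro b
    rcases hb : h (Sum.inr b) with a' | b'
    · exfalso
      have h1 : h (Sum.inr b) = h (Sum.inl a') := by rw [hb, hr]
      cases h.injective h1
    · exact ⟨b', rfl⟩
  choose f hf using hl
  have hfi : Function.Injective f := by
    intro a a' e
    have h1 : h (Sum.inr a) = h (Sum.inr a') := by rw [hf, hf, e]
    exact Sum.inr_injective (h.injective h1)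
  refine ⟨Equiv.ofBijective f (Finite.injective_iff_bijective.1 hfi), ?_, ?_⟩
  · funext b
    have h1 := congrFun hc (Sum.inr b)
    simp only [Function.comp_apply, Sum.map_inr, hf] at h1
    exact Sum.inr_injective h1
  · ext x
    rcases x with a | b
    · rw [hr]
      rfl
    · rw [hf]
      rfl

/-- the action of the letters on the classes -/
theorem conjA_rr (σ : Perm (Fin n)) (y : P (Al V (AX m n))) :
    conjA k _ (iS V m n) (g (rr σ)) (cl y) = cl (cjB V σ y) := by
  rw [conjA_g, conjM_cl]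
  have h : (rr σ : Perm (Fin m ⊕ Fin n)).viaEmbedding (iS V m n) = sL V σ := by
    have h1 := via_iS V m n 1 σ
    refine h1.trans ?_
    ext x : 1
    rcases x with _ | (((x | x) | i) | b) <;> rfl
  rw [h]
  rfl

/-- the action of the W-slots on the classes -/
theorem conjA_inl (s : Perm (Fin m)) (y : P (Al V (AX m n))) :
    conjA k _ (iS V m n) (emb Function.Embedding.inl (g s)) (cl y) =
      cl (g (sX V s) * y * g (sX V s)⁻¹) := by
  rw [emb_g, conjA_g, conjM_cl]
  have h0 : s.viaEmbedding (Function.Embedding.inl : Fin m ↪ Fin m ⊕ Fin n) =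
      sumCongr s (1 : Perm (Fin n)) := by
    ext x : 1
    rcases x with x | x
    · exact Perm.viaEmbedding_apply s (Function.Embedding.inl : Fin m ↪ Fin m ⊕ Fin n) x
    · rw [Perm.viaEmbedding_apply_of_notMem]
      · rfl
      · rintro ⟨y, hy⟩
        cases hy
  rw [h0, via_iS]
  rfl

theorem th_conjA (q : P (Fin m ⊕ Fin n)) (x : MM k (Al V (AX m n))) :
    bim 1 (V.θ2 (AX m n)) (conjA k _ (iS V m n) q x) =
      conjA k _ (iS V m n) q (bim 1 (V.θ2 (AX m n)) x) := by
  obtain ⟨y, rfl⟩ := cl_surj x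
  refine P_induction (p := fun q => bim 1 (V.θ2 (AX m n)) (conjA k _ (iS V m n) q (cl y)) =
      conjA k _ (iS V m n) q (bim 1 (V.θ2 (AX m n)) (cl y))) q ?_ ?_ ?_
  · intro τ
    rw [conjA_g, conjM_cl, bim_cl, bim_cl, conjM_cl]
    congr 1
    have h1 : g (τ.viaEmbedding (iS V m n))⁻¹ * V.θ2 (AX m n) =
        V.θ2 (AX m n) * g (τ.viaEmbedding (iS V m n))⁻¹ := by
      have h2 := (comm_iS_jj V m n (g τ⁻¹) (V.tt V.θ)).eq
      rw [← V.θ2_eq, emb_g, EV.viaEmbedding_inv'] at h2
      exact h2
    rw [one_mul, one_mul, mul_assoc, h1]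
    simp only [mul_assoc]
  · intro a b ha hb
    have e : ∀ x : MM k (Al V (AX m n)), conjA k _ (iS V m n) (a + b) x =
        conjA k _ (iS V m n) a x + conjA k _ (iS V m n) b x := by
      intro x
      rw [map_add]
      rfl
    rw [e, e, map_add, ha, hb]
  · intro j a ha
    have e : ∀ x : MM k (Al V (AX m n)), conjA k _ (iS V m n) (j • a) x =
        j • conjA k _ (iS V m n) a x := by
      intro x
      rw [map_zsmul]
      rfl
    rw [e, e, map_zsmul, ha]

/-- **The concrete chase settings.** -/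
noncomputable def csB (hE : Even1) (z : P (Fin m)) (h : ℤ) (hh : Odd h) (zz : z * z = h • z)
    (hz : ZP (k * k) 2 z) : CS (k * k) n m (MM k (Al V (AX m n))) where
  A := conjA k _ (iS V m n)
  tf := MM_tf
  ker q hq := conjA_ker _ q hq
  th := bim 1 (V.θ2 (AX m n))
  thA := th_conjA V m n
  κ := V.κ * V.κ
  hκ := V.hκ.mul V.hκ
  thth x := by
    obtain ⟨y, rfl⟩ := cl_surj x
    rw [bim_cl, bim_cl, one_mul, one_mul]
    have e : (V.κ * V.κ) • (cl (y * V.θ2 (AX m n)) : MM k (Al V (AX m n))) =
        cl ((V.κ * V.κ) • (y * V.θ2 (AX m n))) :=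
      (map_zsmul (clH : P (Al V (AX m n)) →+ MM k (Al V (AX m n))) _ _).symm
    rw [e, ← sub_eq_zero]
    change (cl (y * V.θ2 (AX m n) * V.θ2 (AX m n) - (V.κ * V.κ) • (y * V.θ2 (AX m n))) :
      MM k (Al V (AX m n))) = 0
    rw [cl_eq_zero, map_sub, sub_eq_zero, mul_assoc, map_mul, θ2_sq, map_zsmul, map_mul,
      mul_smul_comm]
  z := z
  h := h
  hh := hh
  zz := zz
  hz := hz
  ev C' _ c' w hw W _ lam hinv := by
    obtain ⟨v, rfl⟩ := cl_surj w
    refine ⟨V.κ * V.κ, V.hκ.mul V.hκ, ?_⟩
    rw [bim_cl, one_mul] at hw ⊢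
    have hkey : ∀ (σ : Perm (Fin n)) (y : P (Al V (AX m n))),
        conjA k _ (iS V m n) (g (rr σ)) (cl y) =
          cl (g (V.hA (sumCongr 1 σ)) * y * g (V.hA (sumCongr 1 σ))⁻¹) :=
      fun σ y => conjA_rr V m n σ y
    refine EV.even2 V EV.exists_PT hE (AX m n) ((Fin m ⊕ Fin m) ⊕ C') (Sum.map id c') v ?_ W
      (lam.comp clH) ?_ ?_
    · rw [← cl_eq_zero, ← hw]
      rw [← clH_apply, map_sum]
      symm
      refine Finset.sum_bij (fun σ _ => sumCongr 1 σ) ?_ ?_ ?_ ?_
      · intro σ hσ
        rw [mem_filter] at hσ ⊢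
        refine ⟨mem_univ _, ?_⟩
        funext x
        rcases x with a | b
        · rfl
        · have := congrFun hσ.2 b
          simp only [Function.comp_apply] at this
          simp [this]
      · intro a _ b _ e
        ext x
        have := congrArg (fun σ : Perm ((Fin m ⊕ Fin m) ⊕ Fin n) => σ (Sum.inr x)) e
        exact congrArg Fin.val (by simpa using this)
      · intro h hh'
        rw [mem_filter] at hh'
        obtain ⟨h', hc', rfl⟩ := filter_eq' c' h hh'.2
        exact ⟨h', by rw [mem_filter]; exact ⟨mem_univ _, hc'⟩, rfl⟩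
      · intro σ _
        exact hkey σ _
    · intro y hy
      change lam (cl y) = 0
      rw [cl_eq_zero.2 hy, map_zero]
    · intro h hc y
      obtain ⟨σ, hσ, rfl⟩ := filter_eq' c' h hc
      change lam (cl _) = lam (cl y)
      rw [← hkey]
      exact hinv σ hσ (cl y)

end conc

/-! ### the chase gives the target -/

/-- the statement of the chase -/
def Chase : Prop :=
  ∀ (N n m : ℕ) (M : Type) [AddCommGroup M] (S : CS N n m M) (C : Type) [DecidableEq C]
    (c : Fin n → C), XH.Inter c → ∀ t : Finset (Fin n) → M, (∀ B, S.tau c B t = 0) →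
    ∀ (W : Type) [AddCommGroup W] (psi : Finset (Fin n) → (M →+ W)),
    (∀ i j : Fin n, (j : ℕ) = i + 1 → c i = c j → ∀ (h : Finset (Fin n)) (y : M),
      i ∉ h → j ∉ h →
        psi h (S.cj (swap i j) y) = psi h y - psi (insert i (insert j h)) y ∧
        psi (insert i h) (S.cj (swap i j) y) =
          psi (insert j h) y - kap h.card • psi (insert i (insert j h)) y ∧
        psi (insert j h) (S.cj (swap i j) y) =
          psi (insert i h) y - kap h.card • psi (insert i (insert j h)) y ∧
        psi (insert i (insert j h)) (S.cj (swap i j) y) = - psi (insert i (insert j h)) y) →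
    ∃ o : ℤ, Odd o ∧ (o * ((N + 1).factorial : ℤ)) • ∑ h, psi h (S.Z (S.th (t h))) = 0

section fin

variable {k : ℕ} (V : VCat k) {m n : ℕ}

theorem cl_zsmul (a : ℤ) (y : P (Al V (AX m n))) :
    (cl (a • y) : MM k (Al V (AX m n))) = a • cl y :=
  map_zsmul (clH : P (Al V (AX m n)) →+ MM k (Al V (AX m n))) a y

theorem cl_sum {ι : Type} (s : Finset ι) (f : ι → P (Al V (AX m n))) :
    (cl (∑ i ∈ s, f i) : MM k (Al V (AX m n))) = ∑ i ∈ s, cl (f i) :=
  map_sum (clH : P (Al V (AX m n)) →+ MM k (Al V (AX m n))) f s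

theorem csB_Z (hE : Even1) (z : P (Fin m)) (h : ℤ) (hh : Odd h) (zz : z * z = h • z)
    (hz : ZP (k * k) 2 z) (y : P (Al V (AX m n))) :
    (csB V m n hE z h hh zz hz).Z (cl y) = cl (zst V z y) := by
  change conjA k _ (iS V m n) (emb Function.Embedding.inl z) (cl y) = _
  have h1 : ∀ z' : P (Fin m), conjA k _ (iS V m n) (emb Function.Embedding.inl z') (cl y) =
      cl (∑ s : Perm (Fin m), z'.coeff s • (g (sX V s) * y * g (sX V s)⁻¹)) := by
    intro z'
    conv_lhs => rw [XH.sum_coeff z']
    rw [map_sum, map_sum, cl_sum]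
    have e : ∀ (s : Finset (Perm (Fin m))) (F : Perm (Fin m) → AddMonoid.End (MM k (Al V (AX m n))))
        (x : MM k (Al V (AX m n))), (∑ i ∈ s, F i) x = ∑ i ∈ s, F i x := by
      intro s F x
      induction s using Finset.induction_on with
      | empty => rfl
      | insert a s ha ih => rw [Finset.sum_insert ha, Finset.sum_insert ha, ← ih]; rfl
    rw [e]
    refine Finset.sum_congr rfl fun s _ => ?_
    rw [map_zsmul, map_zsmul, cl_zsmul, ← conjA_inl]
    rfl
  exact h1 z

theorem tyM_cl (t : Finset (Fin n) → PO n) (B : Finset (Fin n)) :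
    tyM (fun h => (cl (emb (io V m n) (t h) * g (swX V m n)) : MM k (Al V (AX m n)))) B =
      cl (emb (io V m n) (XH.ty t B) * g (swX V m n)) := by
  unfold tyM XH.ty
  rw [map_sum, Finset.sum_mul, cl_sum]
  refine Finset.sum_congr rfl fun h _ => ?_
  rw [map_zsmul, smul_mul_assoc, cl_zsmul]

theorem cjB_io (σ : Perm (Fin n)) (x : PO n) :
    cjB V σ (emb (io V m n) x * g (swX V m n)) =
      emb (io V m n) (XH.cj σ x) * g (swX V m n) := by
  unfold cjB XH.cj
  have h1 : g (sL V σ : Perm (Al V (AX m n))) = emb (io V m n) (g (optionCongr σ)) := by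
    rw [emb_g, XH.sL_eq]
  have h2 : g (sL V σ : Perm (Al V (AX m n)))⁻¹ = emb (io V m n) (g (optionCongr σ)⁻¹) := by
    rw [emb_g, XH.sL_eq, EV.viaEmbedding_inv']
  have h3 := (XH.comm_io_iX V m n (g (optionCongr σ)⁻¹)
    (g (Equiv.sumComm (Fin m) (Fin m)))).eq
  have hsw : g (swX V m n) = emb (XH.iX V m n) (g (Equiv.sumComm (Fin m) (Fin m))) := by
    rw [emb_g]
    congr 1
    exact XH.hA_X V m n _
  rw [h1, h2, map_mul, map_mul, hsw]
  rw [mul_assoc, mul_assoc, mul_assoc, ← h3]
  simp only [mul_assoc]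

theorem big_of_chase (hch : Chase) (hE : Even1) (k : ℕ) : Big k (k * k + 1).factorial := by
  obtain ⟨V⟩ := EV.exists_vcat k
  obtain ⟨m, z, h, -, hh, -, zz, hz, htr, -, -, -⟩ := SG.exists_cat (k * k)
  refine ⟨V, m, z, htr.ne', ?_⟩
  intro n C _ c hc t ht W _ Psi hker hrule
  let S := csB V m n hE z h hh zz hz
  let t' : Finset (Fin n) → MM k (Al V (AX m n)) :=
    fun h => cl (emb (io V m n) (t h) * g (swX V m n))
  have hcj : ∀ (σ : Perm (Fin n)) (y : P (Al V (AX m n))), S.cj σ (cl y) = cl (cjB V σ y) :=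
    fun σ y => conjA_rr V m n σ y
  have h1 : ∀ B, S.tau c B t' = 0 := by
    intro B
    have e1 : S.tau c B t' = cl (emb (io V m n) (∑ σ ∈ univ.filter
        (fun σ : Perm (Fin n) => c ∘ σ = c), XH.sgB σ B • XH.cj σ (XH.ty t
          (B.map (σ⁻¹ : Perm (Fin n)).toEmbedding))) * g (swX V m n)) := by
      unfold CS.tau
      rw [map_sum, Finset.sum_mul, cl_sum]
      refine Finset.sum_congr rfl fun σ _ => ?_
      rw [tyM_cl, hcj, cjB_io, map_zsmul, smul_mul_assoc, cl_zsmul]
    rw [e1, cl_eq_zero, map_mul, act_emb_eq_zero _ _ (ht B), zero_mul]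
  obtain ⟨o, ho, hs⟩ := hch (k * k) n m _ S C c hc t' h1 W
    (fun h => liftM (Psi h) (hker h)) (by
      intro i j hij hcij h y hi hj
      obtain ⟨y, rfl⟩ := cl_surj y
      rw [hcj]
      simp only [liftM_cl]
      exact hrule i j hij hcij h y hi hj)
  have h2 : ∀ h, liftM (Psi h) (hker h) (S.Z (S.th (t' h))) =
      Psi h (zst V z (emb (io V m n) (t h) * g (swX V m n) * V.θ2 (AX m n))) := by
    intro h
    have e1 : S.th (t' h) = cl (emb (io V m n) (t h) * g (swX V m n) * V.θ2 (AX m n)) := by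
      change bim 1 (V.θ2 (AX m n)) (cl _) = _
      rw [bim_cl, one_mul]
    rw [e1, csB_Z, liftM_cl]
  simp only [h2] at hs
  refine ⟨o.natAbs, ?_, ?_⟩
  · rw [← Int.natCast_dvd_natCast, Int.dvd_natAbs]
    intro h3
    exact (Int.not_even_iff_odd.2 ho) (even_iff_two_dvd.2 h3)
  · rw [mul_smul, natCast_zsmul] at hs
    rcases Int.natAbs_eq o with e | e
    · rw [e, natCast_zsmul] at hs
      exact hs
    · rw [e, neg_smul, neg_eq_zero, natCast_zsmul] at hs
      exact hs

/-- SEX from the chase. -/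
theorem sex_of_chase (hch : Chase) (hE : Even1) (k : ℕ) : ∃ D, 0 < D ∧ XH.Sex k D :=
  XH.sex_of_big (Nat.factorial_pos _) (big_of_chase hch hE k)

end fin

end Pool.PI34.XS
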