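import Pool.Agent.LibPI34.X_M3

/-!
PI34, the prime `p = 2`, model side, file M4: the matrix catalyst.
-/

set_option autoImplicit false
set_option linter.unusedSectionVars false

namespace Pool.PI34.XX

open Equiv Finset
open Pool.PI34.Super (W Lt odd act tn ins phL phR phi Cat Ux pl ext Conv Ap jA mj plL bc EE gen)

/-! ### small facts -/

theorem jA_inj : Function.Injective (jA 2) := by
  rw [injective_iff_map_eq_zero]
  intro a ha
  obtain ⟨⟨n, ⟨_, s, hs, rfl⟩⟩, h⟩ := IsLocalization.surj (Super.MpA 2) a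
  have h1 : jA 2 (a * algebraMap ℤ (Ap 2) s) = (n : ℚ) := by
    rw [← Super.jA_int 2 n]
    exact congrArg (jA 2) h
  rw [map_mul, ha, zero_mul] at h1
  have hn : n = 0 := by exact_mod_cast h1.symm
  have hu : IsUnit (algebraMap ℤ (Ap 2) s) :=
    IsLocalization.map_units (Ap 2) (⟨(s : ℤ), s, hs, rfl⟩ : Super.MpA 2)
  have h2 : a * algebraMap ℤ (Ap 2) s = 0 := by
    refine Eq.trans h ?_
    change algebraMap ℤ (Ap 2) n = 0
    rw [hn, map_zero]
  exact (hu.mul_left_eq_zero).1 h2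

section small

variable {k l n : ℕ}

theorem ins_smul (c : Lt k l) (x : ℚ) (f : W k l (Fin n)) :
    ins c (x • f) = x • (ins c f : W k l (Fin (n + 1))) := by
  funext w
  change (if w 0 = c then x * f (Fin.tail w) else 0) = x * (if w 0 = c then f (Fin.tail w) else 0)
  split_ifs
  · rfl
  · rw [mul_zero]

theorem cW_ins (a : Fin 2) (c : Lt k l) (F : SK.W O2 k l (Fin n)) :
    cW a (SK.ins c F) = ins c (cW a F) := by
  funext w
  change jA 2 (cA a (if w 0 = c then F (Fin.tail w) else 0)) =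
    if w 0 = c then jA 2 (cA a (F (Fin.tail w))) else 0
  split_ifs
  · rfl
  · rw [map_zero, map_zero]

theorem up_ins {K : Type} [CommRing K] (X : Module.End K (SK.W K k l (Fin n))) (c : Lt k l)
    (g : SK.W K k l (Fin n)) : up K k l n X (SK.ins c g) = SK.ins c (X g) := by
  refine SK.ext_comp fun d => ?_
  rw [comp_up, SK.comp_ins, SK.comp_ins]
  split_ifs
  · rfl
  · rw [map_zero]

theorem dT0_ins {K : Type} [CommRing K] (r : K) (c : Lt k l) (g : SK.W K k l (Fin n)) :
    dT K k l r {0} (SK.ins c g) = (if odd c then r else 0) • SK.ins c g := by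
  funext w
  change (∏ i ∈ {(0 : Fin (n + 1))}, if odd (w i) then r else 0) *
      (if w 0 = c then g (Fin.tail w) else 0)
    = (if odd c then r else 0) * (if w 0 = c then g (Fin.tail w) else 0)
  rw [Finset.prod_singleton]
  by_cases h : w 0 = c
  · rw [h]
  · rw [if_neg h, mul_zero, mul_zero]

theorem dT0_up {K : Type} [CommRing K] (r : K) (X : Module.End K (SK.W K k l (Fin n)))
    (g : SK.W K k l (Fin (n + 1))) :
    dT K k l r {0} (up K k l n X g) = up K k l n X (dT K k l r {0} g) := by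
  refine SK.ext_comp fun d => ?_
  have h : ∀ g : SK.W K k l (Fin (n + 1)),
      SK.comp d (dT K k l r {0} g) = (if odd d then r else 0) • SK.comp d g := by
    intro g
    funext w
    change (∏ i ∈ {(0 : Fin (n + 1))}, if odd ((Fin.cons d w : Fin (n + 1) → Lt k l) i) then r
      else 0) * g (Fin.cons d w) = (if odd d then r else 0) * g (Fin.cons d w)
    rw [Finset.prod_singleton, Fin.cons_zero]
  rw [h, comp_up, comp_up, h, map_smul]

theorem cW_single (b c : Fin 2) (v : Fin n → Lt k l) :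
    cW b (Pi.single v (bs c) : SK.W O2 k l (Fin n))
      = if b = c then (Pi.single v 1 : W k l (Fin n)) else 0 := by
  funext w
  rw [cW_apply, Pi.single_apply]
  by_cases hw : w = v
  · rw [if_pos hw, cA_bs, hw]
    split_ifs
    · rw [map_one, Pi.single_eq_same]
    · rw [map_zero]; rfl
  · rw [if_neg hw, map_zero, map_zero]
    split_ifs
    · rw [Pi.single_apply, if_neg hw]
    · rfl

theorem sum_cW_single (c : Fin 2) (v : Fin n → Lt k l) {M : Type} [AddCommGroup M] [Module ℚ M]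
    (Y : Fin 2 → W k l (Fin n) →ₗ[ℚ] M) :
    ∑ b, Y b (cW b (Pi.single v (bs c) : SK.W O2 k l (Fin n))) = Y c (Pi.single v 1) := by
  rw [Finset.sum_eq_single c]
  · rw [cW_single, if_pos rfl]
  · intro b _ hb
    rw [cW_single, if_neg hb, map_zero]
  · intro h
    exact absurd (mem_univ _) h

theorem aW_apply {B : Type} [Fintype B] [DecidableEq B] {Λ : Type} [CommRing Λ] (j : Λ →+* ℚ)
    {ι : Type} [Fintype ι] [LinearOrder ι] (Y : Matrix B B (MonoidAlgebra Λ (Perm ι)))
    (x : B → W k l ι) (b : B) :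
    aW j k l Y x b = ∑ b', act k l ι (mj j _ (Y b b')) (x b') := rfl

theorem mj_st {G : Type} [Group G] (y : MonoidAlgebra (Ap 2) G) :
    mj (jA 2) G (st (Ap 2) G y) = st ℚ G (mj (jA 2) G y) := by
  have h1 : ∀ (σ : G) (x : Ap 2), mj (jA 2) G (MonoidAlgebra.single σ x)
      = MonoidAlgebra.single σ (jA 2 x) := by
    intro σ x
    unfold mj
    rw [MonoidAlgebra.mapRingHom_single]
  induction y using MonoidAlgebra.induction_linear with
  | zero => simp only [map_zero]
  | add y z hy hz => rw [map_add, map_add, map_add, map_add, hy, hz]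
  | single σ x => rw [st_single, h1, h1, st_single]

end small

namespace MD

variable {k l : ℕ} (M : MD k l)

/-- the families -/
def Xi : Set (M.B → W k l (Fin (M.N + M.m1))) :=
  {x | ∃ (q : ℚ) (g : SK.W O2 k l (Fin M.N)),
    x = fun p => q • tf M.C M.N (cW p.2 (AO k l M.Ω p.1 g))}

theorem aW_r {ι : Type} [Fintype ι] [LinearOrder ι] (x : M.B → W k l ι) (p : M.B) :
    aW (jA 2) k l (cst (Ap 2) _ M.r) x p = ∑ a, jA 2 (Psi r2 p.2 a) • x (p.1, a) := by
  have h0 : ∀ c : Ap 2, act k l ι (mj (jA 2) _ (algebraMap (Ap 2)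
      (MonoidAlgebra (Ap 2) (Perm ι)) c)) = jA 2 c • (1 : Module.End ℚ (W k l ι)) := by
    intro c
    rw [Algebra.algebraMap_eq_smul_one, Super.mj_smul, map_smul, map_one, map_one]
  have h1 : ∀ q : M.B, act k l ι (mj (jA 2) _ (cst (Ap 2) (Perm ι) M.r p q)) (x q)
      = jA 2 (M.r p q) • x q := by
    intro q
    change act k l ι (mj (jA 2) _ (algebraMap (Ap 2) (MonoidAlgebra (Ap 2) (Perm ι))
      (M.r p q))) (x q) = _
    rw [h0]
    rfl
  rw [aW_apply]
  simp only [h1]
  rw [M.sum_B, Finset.sum_eq_single p.1]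
  · refine Finset.sum_congr rfl fun a _ => ?_
    unfold r
    dsimp only
    rw [if_pos rfl]
  · intro S _ hS
    refine Finset.sum_eq_zero fun a _ => ?_
    unfold r
    dsimp only
    rw [if_neg hS.symm, map_zero, zero_smul]
  · intro h
    exact absurd (mem_univ _) h

/-- the operator `EXT` on a vector -/
theorem hE_vec (S : Finset (Fin M.N)) (G : SK.W O2 k l (Fin (M.N + 1))) (p : Fin 2) :
    ∑ S', ∑ b, act k l _ (mj (jA 2) _ (pj p b _ (M.lam S S')))
        (cW b (up O2 k l M.N (AO k l M.Ω S') G))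
      = cW p (dT O2 k l r2 {0} (up O2 k l M.N (AO k l M.Ω S) G)) := by
  have h1 := congrArg (fun X => cW p (X G)) (M.hE S)
  simp only [LinearMap.sum_apply, Module.End.mul_apply] at h1
  rw [h1, cW_sum]
  refine Finset.sum_congr rfl fun S' _ => ?_
  rw [Ex_act]

theorem hE_vec' (S : Finset (Fin M.N)) (p : Finset (Fin M.N)) (a : Fin 2)
    (F : SK.W O2 k l (Fin (M.N + 1))) :
    ∑ R, ∑ c, jA 2 (Psi (r2 ^ (p.card + R.card)) a c) • up ℚ k l M.N
        (QA k l M.Ω p * QA' k l M.Ω R)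
          (cW c (SK.act O2 O2 k l _ (st _ _ (M.lam S R)) F))
      = cW a (up O2 k l M.N (AO k l M.Ω p) (up O2 k l M.N (AO' k l M.Ω S)
        (dT O2 k l r2 {0} F))) := by
  have h1 := congrArg (fun X => cW a (up O2 k l M.N (AO k l M.Ω p) (X F))) (M.hE' S)
  simp only [LinearMap.sum_apply, Module.End.mul_apply] at h1
  rw [h1, map_sum, cW_sum]
  refine Finset.sum_congr rfl fun R _ => ?_
  have h2 := Ex_up (Ex_OX M.Ω p R) a (SK.act O2 O2 k l _ (st _ _ (M.lam S R)) F)
  rw [map_mul, Module.End.mul_apply] at h2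
  rw [h2]
  rfl

theorem hlam : ∀ x ∈ M.Xi, ∀ c : Lt k l, aW (jA 2) k l M.lamM (fun b => ins c (x b))
    = (if odd c then (1 : ℚ) else 0) • aW (jA 2) k l (cst (Ap 2) _ M.r)
        (fun b => ins c (x b)) := by
  rintro _ ⟨t, g, rfl⟩ c
  funext p
  rw [Pi.smul_apply, aW_r, aW_apply, M.sum_B]
  have h1 : ∀ (S : Finset (Fin M.N)) (b : Fin 2),
      act k l _ (mj (jA 2) _ (M.lamM p (S, b)))
        (ins c (t • tf M.C M.N (cW b (AO k l M.Ω S g))))
      = t • tf' M.C M.N (act k l _ (mj (jA 2) _ (pj p.2 b _ (M.lam p.1 S)))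
        (cW b (up O2 k l M.N (AO k l M.Ω S) (SK.ins c g)))) := by
    intro S b
    unfold lamM
    rw [Super.mj_plL, ins_smul, map_smul, ins_tf, act_aL, up_ins, cW_ins]
  dsimp only
  simp only [h1]
  simp only [← Finset.smul_sum, ← map_sum]
  rw [M.hE_vec, up_ins, dT0_ins, cW_smul]
  simp only [cW_ins, map_sum, map_smul, Finset.smul_sum, ins_smul, ins_tf]
  refine Finset.sum_congr rfl fun a _ => ?_
  split_ifs
  · rw [one_smul, smul_comm]
  · have h2 : Psi (0 : O2) p.2 a = 0 := by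
      unfold Psi
      rw [zero_mul, map_zero]
    rw [h2, map_zero, zero_smul, smul_zero, zero_smul]

/-- the entries of `T` -/
theorem mj_T (p q : M.B) : mj (jA 2) _ (M.T p q)
    = (jA 2 (Psi (r2 ^ (p.1.card + q.1.card)) p.2 q.2) * (M.D : ℚ)) •
      (M.y p.1 q.1 * M.C.Z M.N) := by
  unfold T
  rw [Super.mj_smul, mj_icB, M.ht, smul_smul]

theorem pl_Z : pl (Fin.succOrderEmb (M.N + M.m1)) (M.C.Z M.N) = pl (bR M.N M.m1) M.C.z := by
  unfold Super.Cat.Z
  rw [Super.pl_trans]
  rfl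

/-- the left factor of the entries of `lam * (T ⊗ 1)` -/
noncomputable def L1 (p q : M.B) : MonoidAlgebra ℚ (Perm (Fin (M.N + M.m1 + 1))) :=
  ∑ R, ∑ c, (jA 2 (Psi (r2 ^ (R.card + q.1.card)) c q.2) * (M.D : ℚ)) •
    (pl (aL M.N M.m1) (mj (jA 2) _ (pj p.2 c _ (M.lam p.1 R))) *
      pl (Fin.succOrderEmb (M.N + M.m1)) (M.y R q.1))

/-- the left factor of the entries of `(T ⊗ 1) * lam'` -/
noncomputable def L2 (p q : M.B) : MonoidAlgebra ℚ (Perm (Fin (M.N + M.m1 + 1))) :=
  ∑ R, ∑ c, (jA 2 (Psi (r2 ^ (p.1.card + R.card)) p.2 c) * (M.D : ℚ)) •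
    (pl (Fin.succOrderEmb (M.N + M.m1)) (M.y p.1 R) *
      pl (aL M.N M.m1) (mj (jA 2) _ (pj c q.2 _ (st _ _ (M.lam q.1 R)))))

theorem mj_L1 (p q : M.B) :
    mj (jA 2) _ ((M.lamM * plM (Ap 2) (Fin.succOrderEmb (M.N + M.m1)) M.T) p q)
      = M.L1 p q * pl (bR M.N M.m1) M.C.z := by
  rw [Matrix.mul_apply, map_sum, M.sum_B]
  unfold L1
  rw [Finset.sum_mul]
  refine Finset.sum_congr rfl fun R _ => ?_
  rw [Finset.sum_mul]
  refine Finset.sum_congr rfl fun c _ => ?_
  have h1 : plM (Ap 2) (Fin.succOrderEmb (M.N + M.m1)) M.T (R, c) q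
      = plL (Ap 2) (Fin.succOrderEmb (M.N + M.m1)) (M.T (R, c) q) := rfl
  rw [map_mul, h1, Super.mj_plL, M.mj_T, map_smul, map_mul, M.pl_Z]
  unfold lamM
  rw [Super.mj_plL, mul_smul_comm, smul_mul_assoc, mul_assoc]

theorem mj_L2 (p q : M.B) :
    mj (jA 2) _ ((plM (Ap 2) (Fin.succOrderEmb (M.N + M.m1)) M.T * M.lamM') p q)
      = M.L2 p q * pl (bR M.N M.m1) M.C.z := by
  rw [Matrix.mul_apply, map_sum, M.sum_B]
  unfold L2
  rw [Finset.sum_mul]
  refine Finset.sum_congr rfl fun R _ => ?_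
  rw [Finset.sum_mul]
  refine Finset.sum_congr rfl fun c _ => ?_
  have h1 : plM (Ap 2) (Fin.succOrderEmb (M.N + M.m1)) M.T p (R, c)
      = plL (Ap 2) (Fin.succOrderEmb (M.N + M.m1)) (M.T p (R, c)) := rfl
  rw [map_mul, h1, Super.mj_plL, M.mj_T, map_smul, map_mul, M.pl_Z]
  unfold lamM'
  rw [Super.mj_plL, smul_mul_assoc, smul_mul_assoc, mul_assoc, mul_assoc]
  rw [(Super.pl_comm (aL M.N M.m1) (bR M.N M.m1) (fun a b => aL_ne_bR a b) _ M.C.z).eq]

/-- both operators in terms of typed words -/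
theorem act_L1 (p q : M.B) (v : Fin (M.N + 1) → Lt k l) :
    act k l _ (M.L1 p q) (tf' M.C M.N (Pi.single v 1))
      = (M.D : ℚ) • tf' M.C M.N (cW p.2 (dT O2 k l r2 {0} (up O2 k l M.N (AO k l M.Ω p.1)
          (up O2 k l M.N (AO' k l M.Ω q.1) (Pi.single v (bs q.2)))))) := by
  rw [← M.hE_vec]
  unfold L1
  simp only [map_sum, LinearMap.sum_apply, Finset.smul_sum]
  refine Finset.sum_congr rfl fun R _ => Finset.sum_congr rfl fun c _ => ?_
  have h2 := Ex_up (Ex_OX M.Ω R q.1) c (Pi.single v (bs q.2))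
  rw [map_mul, Module.End.mul_apply] at h2
  rw [h2, sum_cW_single q.2 v (fun b => up ℚ k l M.N
    (jA 2 (Psi (r2 ^ (R.card + q.1.card)) c b) • (QA k l M.Ω R * QA' k l M.Ω q.1)))]
  rw [up_smul, LinearMap.smul_apply, map_smul, map_smul, map_smul, LinearMap.smul_apply,
    map_mul, Module.End.mul_apply, Rep_succ M.C (M.hy R q.1), act_aL, smul_smul, mul_comm]

theorem act_L2 (p q : M.B) (v : Fin (M.N + 1) → Lt k l) :
    act k l _ (M.L2 p q) (tf' M.C M.N (Pi.single v 1))
      = (M.D : ℚ) • tf' M.C M.N (cW p.2 (up O2 k l M.N (AO k l M.Ω p.1)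
          (up O2 k l M.N (AO' k l M.Ω q.1) (dT O2 k l r2 {0} (Pi.single v (bs q.2)))))) := by
  rw [← M.hE_vec']
  unfold L2
  simp only [map_sum, LinearMap.sum_apply, Finset.smul_sum]
  refine Finset.sum_congr rfl fun R _ => Finset.sum_congr rfl fun c _ => ?_
  have h2 := Ex_act (st _ _ (M.lam q.1 R)) c (Pi.single v (bs q.2))
  rw [h2, sum_cW_single q.2 v (fun b => act k l _ (mj (jA 2) _
    (pj c b _ (st _ _ (M.lam q.1 R)))))]
  rw [map_smul, map_smul, LinearMap.smul_apply,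
    map_mul, Module.End.mul_apply, act_aL, Rep_succ M.C (M.hy p.1 R), smul_smul, mul_comm]

theorem hlam' : aW (jA 2) k l (M.lamM * plM (Ap 2) (Fin.succOrderEmb (M.N + M.m1)) M.T)
    = aW (jA 2) k l (plM (Ap 2) (Fin.succOrderEmb (M.N + M.m1)) M.T * M.lamM') := by
  refine LinearMap.ext fun x => funext fun p => ?_
  rw [aW_apply, aW_apply]
  refine Finset.sum_congr rfl fun q _ => ?_
  rw [M.mj_L1, M.mj_L2]
  have h1 : act k l _ ((M.L1 p q - M.L2 p q) * pl (bR M.N M.m1) M.C.z) = 0 := by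
    refine ker_of' M.C _ fun f => ?_
    rw [eq_sum_single f]
    simp only [map_sum, map_smul]
    refine Finset.sum_eq_zero fun v _ => ?_
    rw [map_sub, LinearMap.sub_apply, M.act_L1, M.act_L2, dT0_up, dT0_up, sub_self, smul_zero]
  rw [sub_mul, map_sub, sub_eq_zero] at h1
  rw [h1]

/-! ### the space generated by the families -/

/-- the family given by a column of `T` -/
noncomputable def Hq (q : M.B) :
    W k l (Fin (M.N + M.m1)) →ₗ[ℚ] (M.B → W k l (Fin (M.N + M.m1))) where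
  toFun g p := jA 2 (Psi (r2 ^ (p.1.card + q.1.card)) p.2 q.2) • act k l _ (M.y p.1 q.1) g
  map_add' g h := by
    funext p
    rw [Pi.add_apply, map_add, smul_add]
  map_smul' c g := by
    funext p
    rw [Pi.smul_apply, map_smul, RingHom.id_apply, smul_comm]

theorem Hq_apply (q : M.B) (g : W k l (Fin (M.N + M.m1))) (p : M.B) : M.Hq q g p
    = jA 2 (Psi (r2 ^ (p.1.card + q.1.card)) p.2 q.2) • act k l _ (M.y p.1 q.1) g := rfl

theorem Hq_tf (q : M.B) (v : Fin M.N → Lt k l) : M.Hq q (tn v M.C.ξ)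
    = fun p => (1 : ℚ) • tf M.C M.N (cW p.2 (AO k l M.Ω p.1
        (AO' k l M.Ω q.1 (Pi.single v (bs q.2))))) := by
  funext p
  have h2 := Ex_OX M.Ω p.1 q.1 p.2 (Pi.single v (bs q.2))
  rw [Module.End.mul_apply] at h2
  rw [Hq_apply, one_smul, h2, sum_cW_single q.2 v (fun b =>
    (jA 2 (Psi (r2 ^ (p.1.card + q.1.card)) p.2 b) • (QA k l M.Ω p.1 * QA' k l M.Ω q.1)))]
  rw [LinearMap.smul_apply, map_smul, ← tf_single, M.hy]

theorem Hq_mem (q : M.B) (v : Fin M.N → Lt k l) : M.Hq q (tn v M.C.ξ) ∈ M.Xi :=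
  ⟨1, _, M.Hq_tf q v⟩

theorem Hq_Ux (q : M.B) : ∀ h ∈ Ux M.C.ξ, ∀ v : Fin M.N → Lt k l,
    M.Hq q (tn v h) ∈ UB M.Xi := by
  let Nn : Submodule ℚ (W k l (Fin M.m1)) :=
    { carrier := {f | ∀ v : Fin M.N → Lt k l, M.Hq q (tn v f) ∈ UB M.Xi}
      add_mem' := by
        intro f g hf hg v
        rw [map_add, map_add]
        exact Submodule.add_mem _ (hf v) (hg v)
      zero_mem' := by
        intro v; rw [map_zero, map_zero]
        exact Submodule.zero_mem _
      smul_mem' := by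
        intro c f hf v
        rw [map_smul, map_smul]
        exact Submodule.smul_mem _ _ (hf v) }
  have hN : Ux M.C.ξ ≤ Nn := by
    refine Super.gen_le ?_ ?_
    · rw [Submodule.span_singleton_le_iff_mem]
      intro v
      exact Super.le_gen _ _ (Submodule.subset_span (M.Hq_mem q v))
    · rintro T ⟨a, b, rfl⟩ f hf v
      have h1 := congrArg (M.Hq q) (Super.EE_tn a b v f)
      have h2 : M.Hq q (EE a b (tn v f)) = (EE a b : Module.End ℚ (W k l (Fin (M.N + M.m1)))).compLeft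
          M.B (M.Hq q (tn v f)) := by
        funext p
        change jA 2 _ • act k l _ (M.y p.1 q.1) (EE a b (tn v f)) =
          EE a b (jA 2 _ • act k l _ (M.y p.1 q.1) (tn v f))
        rw [map_smul]
        congr 1
        exact LinearMap.congr_fun (Super.act_EE (M.y p.1 q.1) a b) (tn v f)
      have h3 : M.Hq q (EE a b (tn v f)) ∈ UB M.Xi := by
        rw [h2]
        exact Super.gen_stable (show _ ∈ {F | ∃ a b : Lt k l, F = (EE a b : Module.End ℚ
          (W k l (Fin (M.N + M.m1)))).compLeft M.B} from ⟨a, b, rfl⟩) (hf v)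
      rw [map_add, map_sum, map_smul] at h1
      have h4 : ∑ i, M.Hq q (Super.eop a b (phL M.N M.m1 i) (tn v f)) ∈ UB M.Xi := by
        refine Submodule.sum_mem _ fun i _ => ?_
        obtain ⟨c, v', hc⟩ := Super.eop_tnL (m := M.m1) a b i v f
        rw [hc, map_smul]
        exact Submodule.smul_mem _ _ (hf v')
      have h5 : (∏ i, Super.eta a b (v i)) • M.Hq q (tn v (EE a b f)) ∈ UB M.Xi := by
        have h6 := Submodule.sub_mem _ h3 h4
        rw [h1, add_sub_cancel_left] at h6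
        exact h6
      have h7 : (∏ i, Super.eta a b (v i)) * (∏ i, Super.eta a b (v i)) = (1 : ℚ) := by
        rw [← Finset.prod_mul_distrib]
        exact Finset.prod_eq_one (fun i _ => Super.eta_sq _ _ _)
      have h8 := Submodule.smul_mem (UB M.Xi) (∏ i, Super.eta a b (v i)) h5
      rw [smul_smul, h7, one_smul] at h8
      exact h8
  intro h hh
  exact hN hh

theorem aW_T (f : M.B → W k l (Fin (M.N + M.m1))) :
    aW (jA 2) k l M.T f = ∑ q, (M.D : ℚ) • M.Hq q (act k l _ (M.C.Z M.N) (f q)) := by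
  funext p
  rw [aW_apply, Finset.sum_apply]
  refine Finset.sum_congr rfl fun q _ => ?_
  rw [M.mj_T, map_smul, LinearMap.smul_apply, map_mul, Module.End.mul_apply, Pi.smul_apply,
    Hq_apply, smul_smul, mul_comm]

theorem hT (f : M.B → W k l (Fin (M.N + M.m1))) : aW (jA 2) k l M.T f ∈ UB M.Xi := by
  rw [M.aW_T]
  refine Submodule.sum_mem _ fun q _ => Submodule.smul_mem _ _ ?_
  rw [Super.sum_tn (f q), map_sum, map_sum]
  refine Submodule.sum_mem _ fun v _ => ?_
  unfold Super.Cat.Z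
  rw [Super.act_pl_tn]
  exact M.Hq_Ux q _ (M.C.hz2 _) v

/-! ### the operator is not zero -/

/-- the rational operator -/
noncomputable def P : Module.End ℚ (W k l (Fin M.N)) :=
  plain ℚ k l (Fin M.N) ℚ (mj (jA 2) _ M.Ω)

/-- the transposed rational operator -/
noncomputable def P' : Module.End ℚ (W k l (Fin M.N)) :=
  plain ℚ k l (Fin M.N) ℚ (mj (jA 2) _ (st (Ap 2) _ M.Ω))

theorem adj_P : Adj M.P M.P' := by
  unfold P P'
  rw [mj_st]
  exact Adj_plain _

theorem P_ne : M.P ≠ 0 := by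
  intro h
  apply M.hΩ
  refine LinearMap.ext fun F => funext fun w => ?_
  have h1 : ∀ a, cA a (plain O2 k l (Fin M.N) (Ap 2) M.Ω F w) = 0 := by
    intro a
    apply jA_inj
    rw [map_zero, ← cW_apply, Ex_plain]
    have h2 : ∀ c, (if a = c then plain ℚ k l (Fin M.N) ℚ (mj (jA 2) _ M.Ω) else 0) (cW c F)
        = 0 := by
      intro c
      have h3 : plain ℚ k l (Fin M.N) ℚ (mj (jA 2) _ M.Ω) = 0 := h
      rw [h3, ite_self]
      rfl
    simp only [h2]
    rw [Finset.sum_const_zero]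
    rfl
  ext
  · exact h1 0
  · exact h1 1

theorem PP_ne : M.P * M.P' ≠ 0 := by
  intro h
  apply M.P_ne
  have h1 : ∀ g, M.P' g = 0 := by
    intro g
    have h2 := M.adj_P (M.P' g) g
    have h3 : M.P (M.P' g) = 0 := by
      rw [← Module.End.mul_apply, h]
      rfl
    rw [h3] at h2
    simp only [Pi.zero_apply, zero_mul, Finset.sum_const_zero] at h2
    funext w
    have h4 := (Finset.sum_eq_zero_iff_of_nonneg (fun w _ => mul_self_nonneg (M.P' g w))).1
      h2.symm w (mem_univ w)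
    exact mul_self_eq_zero.1 h4
  have h5 : Adj (0 : Module.End ℚ (W k l (Fin M.N))) 0 := Adj_zero
  have h6 : Adj M.P' M.P := by
    intro f g
    have := M.adj_P g f
    simp only [mul_comm] at this ⊢
    exact this.symm
  have h7 : M.P' = 0 := LinearMap.ext h1
  rw [h7] at h6
  exact h6.unique h5

theorem tf_inj {f : W k l (Fin M.N)} (h : tf M.C M.N f = 0) : f = 0 := by
  obtain ⟨s, hs⟩ := Function.ne_iff.1 M.hξ
  funext v
  have h1 := congrFun h (Fin.append v s)
  rw [tf_apply] at h1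
  have h2 : Fin.append v s ∘ phL M.N M.m1 = v := by
    funext i
    exact Fin.append_left v s i
  have h3 : Fin.append v s ∘ phR M.N M.m1 = s := by
    funext i
    exact Fin.append_right v s i
  rw [h2, h3] at h1
  exact (mul_eq_zero.1 h1).resolve_right hs

theorem hne : ∃ f, aW (jA 2) k l M.T f ∈ M.Xi ∧ aW (jA 2) k l M.T f ≠ 0 := by
  have hv : ∃ v : Fin M.N → Lt k l, (M.P * M.P') (Pi.single v 1) ≠ 0 := by
    by_contra h
    push Not at h
    apply M.PP_ne
    refine LinearMap.ext fun f => ?_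
    rw [eq_sum_single f, map_sum]
    simp only [map_smul, h, smul_zero, Finset.sum_const_zero]
    rfl
  obtain ⟨v, hv⟩ := hv
  have hD : (M.D : ℚ) ≠ 0 := Nat.cast_ne_zero.2 M.hD.ne'
  let q0 : M.B := (∅, 0)
  have h1 : aW (jA 2) k l M.T (fun q => if q = q0 then (M.D : ℚ)⁻¹ • tn v M.C.ξ else 0)
      = M.Hq q0 (tn v M.C.ξ) := by
    rw [M.aW_T, Finset.sum_eq_single q0]
    · rw [if_pos rfl, map_smul, map_smul, smul_smul, mul_inv_cancel₀ hD, one_smul, M.C.act_Z]
    · intro q _ hq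
      rw [if_neg hq, map_zero, map_zero, smul_zero]
    · intro h
      exact absurd (mem_univ _) h
  refine ⟨_, h1 ▸ M.Hq_mem q0 v, ?_⟩
  rw [h1]
  intro h2
  have h3 := congrFun h2 q0
  rw [Hq_apply, ← tf_single, M.hy] at h3
  have h4 : Psi (r2 ^ (q0.1.card + q0.1.card)) q0.2 q0.2 = 1 := by
    change Psi (r2 ^ 0) 0 0 = 1
    rw [pow_zero, Psi_one, if_pos rfl]
  rw [h4, map_one, one_smul] at h3
  have h5 := M.tf_inj h3
  apply hv
  rw [← h5]
  have h6 : QA k l M.Ω q0.1 * QA' k l M.Ω q0.1 = M.P * M.P' := by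
    unfold QA QA'
    change dT ℚ k l 1 ∅ * _ * (_ * dT ℚ k l 1 ∅) = _
    rw [dT_empty, one_mul, mul_one]
    rfl
  rw [h6]

/-- the matrix catalyst -/
noncomputable def cb : CB (jA 2) k l (M.N + M.m1) M.B where
  Xi := M.Xi
  T := M.T
  lam := M.lamM
  lam' := M.lamM'
  r := M.r
  r_sq := M.r_sq
  rT := M.rT
  rlam := M.rlam
  hT := M.hT
  hlam := M.hlam
  hlam' := M.hlam'
  hne := M.hne

end MD

/-- THE MODEL SIDE. -/
theorem modelSide : ModelSide := by
  intro k l h
  obtain ⟨M⟩ := h.md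
  exact ⟨_, _, inferInstance, inferInstance, ⟨M.cb⟩⟩

end Pool.PI34.XX

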