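import Pool.Agent.LibPI34.X_HEx2
import Pool.Agent.LibPI34.X_M4
import Pool.Agent.LibPI34.EX_Done
import Pool.Agent.LibPI34.V_Main
import Pool.Agent.LibPI34.XS_E8
import Pool.Agent.LibPI34.XS_E9
import Pool.Agent.LibPI34.EV_Fin

/-!
PI34, p = 2: the engine from the leaves.
-/

set_option autoImplicit false

namespace Pool.PI34.XX

theorem engine_two (hS : ∀ k, XH.Start k) (hP : EV.PartII) (k l : ℕ) (h : 0 < k + l) :
    T2.Engine (T2.cop 2) k l := by
  obtain ⟨D, hD, hs⟩ := XS.sex_of_chase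
    (fun N n m M _ S C _ c hc t ht W _ psi hr => XS.CS.chase S c hc t ht W psi hr)
    (EV.even1_of_partII hP) (k + l)
  exact ringSide modelSide k l h (EX.EXT_all k l h)
    (hEx_of_D hD (XH.hexD (VL.val _) (hS _) hs))

end Pool.PI34.XX
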