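import Pool.Agent.LibPI34.X_St2

/-!
PI34, p = 2, block START, file 3: `Start k`.
-/

set_option autoImplicit false
set_option linter.unusedSectionVars false

namespace Pool.PI34.XH

open Equiv Finset
open Pool.PI34.H4 (P g act)
open Pool.PI34.SS (FA GT Lam ge phL)

section eval

variable {n k : ℕ} {X : Type} [DecidableEq X]

/-- the letters as matrices -/
noncomputable def TT (B : Finset (Fin n)) (E : Fin n → Matrix (Fin k) (Fin k) ℤ) (l : Fin n) :
    Matrix (Fin k) (Fin k) (GT (MvPolynomial (Fin n) ℤ) n) :=
  Matrix.of fun i j => (E l i j) • th B l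

theorem TT_prod (B : Finset (Fin n)) (E : Fin n → Matrix (Fin k) (Fin k) ℤ) (L : List (Fin n))
    (i j : Fin k) :
    (L.map (TT B E)).prod i j = ((L.map E).prod i j) • (L.map (th B)).prod := by
  induction L generalizing i with
  | nil =>
    rw [List.map_nil, List.map_nil, List.map_nil, List.prod_nil, List.prod_nil, List.prod_nil,
      Matrix.one_apply, Matrix.one_apply]
    split_ifs
    · rw [one_smul]
    · rw [zero_smul]
  | cons l L ih =>
    rw [List.map_cons, List.map_cons, List.map_cons, List.prod_cons, List.prod_cons,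
      List.prod_cons, Matrix.mul_apply, Matrix.mul_apply, Finset.sum_smul]
    refine Finset.sum_congr rfl fun m _ => ?_
    rw [ih]
    change (E l i m • th B l) * _ = _
    rw [smul_mul_smul_comm]

/-- the values of the variables -/
noncomputable def YY (B : Finset (Fin n)) (E : Fin n → Matrix (Fin k) (Fin k) ℤ) (c : Fin n → X)
    (x : X) : Matrix (Fin k) (Fin k) (GT (MvPolynomial (Fin n) ℤ) n) :=
  ∑ l, if c l = x then TT B E l else 0

theorem YY_word (B : Finset (Fin n)) (E : Fin n → Matrix (Fin k) (Fin k) ℤ) (c : Fin n → X)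
    {m : ℕ} (u : Fin m → X) :
    (List.ofFn fun p => YY B E c (u p)).prod =
      ∑ f : Fin m → Fin n, if ∀ p, c (f p) = u p then (List.ofFn fun p => TT B E (f p)).prod
        else 0 := by
  have h1 := (MultilinearMap.mkPiAlgebraFin ℤ m
    (Matrix (Fin k) (Fin k) (GT (MvPolynomial (Fin n) ℤ) n))).map_sum
      (fun (p : Fin m) (l : Fin n) => if c l = u p then TT B E l else 0)
  simp only [MultilinearMap.mkPiAlgebraFin_apply] at h1
  refine h1.trans (Finset.sum_congr rfl fun f _ => ?_)
  by_cases h : ∀ p, c (f p) = u p
  · rw [if_pos h]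
    congr 2
    funext p
    rw [if_pos (h p)]
  · rw [if_neg h]
    push Not at h
    obtain ⟨p, hp⟩ := h
    refine List.prod_eq_zero ?_
    rw [List.mem_ofFn]
    exact ⟨p, if_neg hp⟩

/-- the term of a permutation -/
noncomputable def tm (B : Finset (Fin n)) (E : Fin n → Matrix (Fin k) (Fin k) ℤ) (i j : Fin k)
    (τ : Perm (Fin n)) : ℤ :=
  (List.ofFn fun p => E (τ p)).prod i j * Ps B (List.ofFn fun p => th B (τ p)).prod

theorem Ps_entry (B : Finset (Fin n)) (E : Fin n → Matrix (Fin k) (Fin k) ℤ) (i j : Fin k)
    {m : ℕ} (f : Fin m → Fin n) :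
    Ps B ((List.ofFn fun p => TT B E (f p)).prod i j) =
      (List.ofFn fun p => E (f p)).prod i j * Ps B (List.ofFn fun p => th B (f p)).prod := by
  have h1 : ∀ {α : Type} (F : Fin n → α), (List.ofFn fun p => F (f p)) = (List.ofFn f).map F := by
    intro α F
    rw [List.map_ofFn]
    rfl
  rw [h1, h1, h1, TT_prod, map_zsmul, smul_eq_mul]

theorem Ps_word (B : Finset (Fin n)) (E : Fin n → Matrix (Fin k) (Fin k) ℤ) (c : Fin n → X)
    (i j : Fin k) (w : List X) :
    Ps B ((w.map (YY B E c)).prod i j) =
      ∑ τ : Perm (Fin n), if (List.ofFn fun p => c (τ p)) = w then tm B E i j τ else 0 := by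
  obtain ⟨m, u, rfl⟩ : ∃ (m : ℕ) (u : Fin m → X), w = List.ofFn u :=
    ⟨w.length, w.get, (List.ofFn_get w).symm⟩
  have h1 : (List.ofFn u).map (YY B E c) = List.ofFn fun p => YY B E c (u p) := by
    rw [List.map_ofFn]
    rfl
  rw [h1, YY_word, Matrix.sum_apply, map_sum]
  have h2 : ∀ f : Fin m → Fin n, Ps B ((if ∀ p, c (f p) = u p then
      (List.ofFn fun p => TT B E (f p)).prod else 0) i j) =
      if ∀ p, c (f p) = u p then (List.ofFn fun p => E (f p)).prod i j *
        Ps B (List.ofFn fun p => th B (f p)).prod else 0 := by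
    intro f
    split_ifs
    · exact Ps_entry B E i j f
    · exact map_zero _
  rw [Finset.sum_congr rfl fun f _ => h2 f]
  have h3 : ∀ f : Fin m → Fin n, Ps B (List.ofFn fun p => th B (f p)).prod ≠ 0 →
      (List.ofFn f).Perm (List.finRange n) := by
    intro f hf
    apply Ps_perm B
    have h1 : (List.ofFn f).map (th B) = List.ofFn fun p => th B (f p) := by
      rw [List.map_ofFn]
      rfl
    rw [h1]
    exact hf
  by_cases hm : m = n
  · subst hm
    symm
    refine Finset.sum_of_injOn (fun τ : Perm (Fin m) => (τ : Fin m → Fin m)) ?_ ?_ ?_ ?_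
    · intro τ _ τ' _ h
      exact DFunLike.coe_injective h
    · intro τ _
      simp
    · intro f _ hf
      by_contra hne
      have h4 : Ps B (List.ofFn fun p => th B (f p)).prod ≠ 0 := by
        intro h5
        apply hne
        rw [h5, mul_zero, ite_self]
      have h5 := h3 f h4
      have h6 : Function.Injective f := by
        rw [← List.nodup_ofFn]
        exact h5.nodup_iff.2 (List.nodup_finRange m)
      apply hf
      exact ⟨Equiv.ofBijective f (Finite.injective_iff_bijective.1 h6), by simp, rfl⟩
    · intro τ _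
      have h4 : (List.ofFn fun p => c (τ p)) = List.ofFn u ↔ ∀ p, c (τ p) = u p := by
        rw [List.ofFn_inj]
        exact funext_iff
      by_cases h : ∀ p, c (τ p) = u p
      · rw [if_pos h, if_pos (h4.2 h)]
        rfl
      · rw [if_neg h, if_neg (fun e => h (h4.1 e))]
  · rw [Finset.sum_eq_zero, Finset.sum_eq_zero]
    · intro τ _
      rw [if_neg]
      intro h
      have := congrArg List.length h
      rw [List.length_ofFn, List.length_ofFn] at this
      exact hm this.symm
    · intro f _
      by_contra hne
      have h4 : Ps B (List.ofFn fun p => th B (f p)).prod ≠ 0 := by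
        intro h5
        apply hne
        rw [h5, mul_zero, ite_self]
      have h5 := (h3 f h4).length_eq
      rw [List.length_ofFn, List.length_finRange] at h5
      exact hm h5

/-- the expansion in words -/
noncomputable def wrd (X : Type) : (List X →₀ ℤ) →+ FA X :=
  Finsupp.liftAddHom fun w => (AddMonoidHom.flip (AddMonoidHom.smul) ((w.map FA.of).prod) :
    ℤ →+ FA X)

theorem wrd_single {X : Type} (w : List X) (a : ℤ) :
    wrd X (Finsupp.single w a) = a • (w.map FA.of).prod := by
  unfold wrd
  rw [Finsupp.liftAddHom_apply_single]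
  rfl

theorem wrd_surj {X : Type} (G : FA X) : ∃ γ, wrd X γ = G := by
  have h : G ∈ (wrd X).range := by
    induction G using FA.induction with
    | h0 r =>
      refine ⟨Finsupp.single [] r, ?_⟩
      rw [wrd_single, List.map_nil, List.prod_nil, zsmul_one]
    | h1 y =>
      refine ⟨Finsupp.single [y] 1, ?_⟩
      rw [wrd_single, one_smul, List.map_cons, List.map_nil, List.prod_cons, List.prod_nil,
        mul_one]
    | hm u v hu hv =>
      obtain ⟨γ, rfl⟩ := hu
      obtain ⟨γ', rfl⟩ := hv
      induction γ using Finsupp.induction_linear with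
      | zero => rw [map_zero, zero_mul]; exact zero_mem _
      | add a b ha hb => rw [map_add, add_mul]; exact add_mem ha hb
      | single w a =>
        induction γ' using Finsupp.induction_linear with
        | zero => rw [map_zero, mul_zero]; exact zero_mem _
        | add a b ha hb => rw [map_add, mul_add]; exact add_mem ha hb
        | single w' b =>
          refine ⟨Finsupp.single (w ++ w') (a * b), ?_⟩
          rw [wrd_single, wrd_single, wrd_single, List.map_append, List.prod_append,
            smul_mul_smul_comm]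
    | ha u v hu hv => exact add_mem hu hv
  exact h

theorem lift_wrd {X R : Type} [Ring R] (m : X → R) (γ : List X →₀ ℤ) :
    FA.lift m (wrd X γ) = γ.sum fun w a => a • (w.map m).prod := by
  induction γ using Finsupp.induction_linear with
  | zero => rw [map_zero, map_zero, Finsupp.sum_zero_index]
  | add a b ha hb =>
    rw [map_add, map_add, ha, hb, Finsupp.sum_add_index']
    · intro w; exact zero_smul _ _
    · intro w a b; exact add_smul _ _ _
  | single w a =>
    have h0 : (Finsupp.single w a).sum (fun (w : List X) (a : ℤ) => a • (w.map m).prod) =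
        a • (w.map m).prod := Finsupp.sum_single_index (zero_smul _ _)
    rw [wrd_single, map_zsmul, h0]
    congr 1
    rw [map_list_prod, List.map_map]
    congr 2
    funext y
    exact FA.lift_of m y

theorem QQ_zero_sum (γ : List X →₀ ℤ) (h : wrd X γ ∈ SS.QQ k X) (c : Fin n → X)
    (B : Finset (Fin n)) (E : Fin n → Matrix (Fin k) (Fin k) ℤ) (i j : Fin k) :
    ∑ τ : Perm (Fin n), γ (List.ofFn fun p => c (τ p)) *
      (sgB τ B * (List.ofFn fun p => E (τ p)).prod i j) = 0 := by
  obtain ⟨N, hN, h1⟩ := h
  have h2 := h1 (GT (MvPolynomial (Fin n) ℤ) n) (GT.sc _ n) (YY B E c)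
    (fun y hy => absurd trivial hy)
  have h3 := congrArg (fun M : Matrix (Fin k) (Fin k) (GT (MvPolynomial (Fin n) ℤ) n) =>
    Ps B (M i j)) h2
  simp only [Matrix.smul_apply, map_nsmul, Matrix.zero_apply, map_zero] at h3
  have h4 : Ps B (FA.lift (YY B E c) (wrd X γ) i j) = 0 := by
    rcases smul_eq_zero.1 h3 with h5 | h5
    · exact absurd h5 hN
    · exact h5
  rw [lift_wrd, Finsupp.sum, Matrix.sum_apply, map_sum] at h4
  have h5 : ∀ w ∈ γ.support, Ps B ((γ w • (w.map (YY B E c)).prod) i j) =
      ∑ τ : Perm (Fin n), if (List.ofFn fun p => c (τ p)) = w then γ w * tm B E i j τ else 0 := by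
    intro w _
    rw [Matrix.smul_apply, map_zsmul, Ps_word, smul_eq_mul, Finset.mul_sum]
    refine Finset.sum_congr rfl fun τ _ => ?_
    rw [mul_ite, mul_zero]
  rw [Finset.sum_congr rfl h5, Finset.sum_comm] at h4
  have h6 : ∀ τ : Perm (Fin n), (∑ w ∈ γ.support,
      if (List.ofFn fun p => c (τ p)) = w then γ w * tm B E i j τ else 0) =
      γ (List.ofFn fun p => c (τ p)) * tm B E i j τ := by
    intro τ
    rw [Finset.sum_ite_eq]
    split_ifs with h7
    · rfl
    · rw [Finsupp.notMem_support_iff.1 h7, zero_mul]
  rw [Finset.sum_congr rfl fun τ _ => h6 τ] at h4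
  have h7 : ∀ τ : Perm (Fin n), γ (List.ofFn fun p => c (τ p)) * tm B E i j τ =
      (γ (List.ofFn fun p => c (τ p)) * (sgB τ B * (List.ofFn fun p => E (τ p)).prod i j)) *
        Ps B (List.ofFn (th B)).prod := by
    intro τ
    unfold tm
    rw [th_prod, map_zsmul, smul_eq_mul]
    ring
  rw [Finset.sum_congr rfl fun τ _ => h7 τ, ← Finset.sum_mul] at h4
  rcases mul_eq_zero.1 h4 with h8 | h8
  · exact h8
  · exact absurd h8 (Ps_self B)

theorem act_zero_of_single {k : ℕ} {α : Type} [Fintype α] [DecidableEq α] (y : P α)
    (h : ∀ w w', act k α y (Pi.single w' 1) w = 0) : act k α y = 0 := by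
  apply LinearMap.pi_ext'
  intro w'
  ext w
  simpa using h w w'

theorem QQ_act (γ : List X →₀ ℤ) (h : wrd X γ ∈ SS.QQ k X) (c : Fin n → X)
    (B : Finset (Fin n)) :
    act k _ (∑ τ : Perm (Fin n), (γ (List.ofFn fun p => c (τ p)) * sgB τ B) •
      cj τ (g (pathP n))) = 0 := by
  apply act_zero_of_single
  intro w w'
  rw [H4.act_sum, Finset.sum_apply]
  have h1 := QQ_zero_sum (k := k) γ h c B
    (fun l => Matrix.single (w' (some l)) (w (some l)) (1 : ℤ)) (w none) (w' none)
  have h2 : ∀ τ : Perm (Fin n), act k _ ((γ (List.ofFn fun p => c (τ p)) * sgB τ B) •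
      cj τ (g (pathP n))) (Pi.single w' 1) w =
      ((γ (List.ofFn fun p => c (τ p)) * (sgB τ B * (List.ofFn fun p =>
        Matrix.single (w' (some (τ p))) (w (some (τ p))) (1 : ℤ)).prod (w none) (w' none)) : ℤ) :
          ℚ) := by
    intro τ
    rw [H4.act_zsmul, Pi.smul_apply, act_cj_path, zsmul_eq_mul]
    push_cast
    ring
  rw [Finset.sum_congr rfl fun τ _ => h2 τ, ← Int.cast_sum]
  exact_mod_cast h1

end eval

/-- lists with interval classes -/
theorem exists_inter {X : Type} (M : Multiset X) : ∃ l : List X, (l : Multiset X) = M ∧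
    Inter l.get := by
  classical
  let lo : LinearOrder X := linearOrderOfSTO (WellOrderingRel (α := X))
  refine ⟨M.sort (· ≤ ·), Multiset.sort_eq _ _, ?_⟩
  have h1 : ∀ i j : Fin (M.sort (· ≤ ·)).length, i ≤ j →
      (M.sort (· ≤ ·)).get i ≤ (M.sort (· ≤ ·)).get j := by
    intro i j hij
    rcases hij.lt_or_eq with h | h
    · exact List.pairwise_iff_get.1 (Multiset.pairwise_sort M (· ≤ ·)) i j h
    · rw [h]
  intro i j l hij hjl h
  exact le_antisymm ((h1 j l hjl).trans h.ge) (h1 i j hij)

theorem exists_perm {X : Type} {N : ℕ} (c : Fin N → X) (w : List X)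
    (h : w.Perm (List.ofFn c)) : ∃ π : Perm (Fin N), (List.ofFn fun i => c (π i)) = w := by
  classical
  have hl : w.length = N := by
    rw [h.length_eq, List.length_ofFn]
  subst hl
  have h1 : ∀ x, Fintype.card {i // w.get i = x} = Fintype.card {i // c i = x} := by
    intro x
    have h2 : ∀ f : Fin w.length → X, Fintype.card {i // f i = x} = (List.ofFn f).count x := by
      intro f
      rw [Fintype.card_subtype, ← Multiset.coe_count, ← Fin.univ_val_map, Multiset.count_map]
      simp only [Finset.card_def, Finset.filter_val, eq_comm]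
    rw [h2, h2, List.ofFn_get]
    exact h.count_eq x
  let e : ∀ x, {i // w.get i = x} ≃ {i // c i = x} := fun x => Fintype.equivOfCardEq (h1 x)
  refine ⟨Equiv.ofFiberEquiv e, ?_⟩
  have h3 : (fun i => c (Equiv.ofFiberEquiv e i)) = w.get := by
    funext i
    exact Equiv.ofFiberEquiv_map e i
  rw [h3, List.ofFn_get]

/-- START -/
theorem start (k : ℕ) : Start k := by
  intro X _ G hG
  obtain ⟨γ, rfl⟩ := wrd_surj G
  choose lM hlM hInt using fun M : Multiset X => exists_inter M
  choose T hT1 hT2 using fun (n : ℕ) (π : Perm (Fin n)) => exists_T k π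
  set S : Finset (Multiset X) := γ.support.image (fun w : List X => (w : Multiset X)) with hS
  have hπ : ∀ w : List X, ∃ π : Perm (Fin (lM (w : Multiset X)).length),
      (List.ofFn fun i => (lM (w : Multiset X)).get (π i)) = w := by
    intro w
    apply exists_perm
    rw [List.ofFn_get]
    exact Multiset.coe_eq_coe.1 (hlM w).symm
  choose pw hpw using hπ
  -- the coordinates
  let tt : ∀ M : Multiset X, Finset (Fin (lM M).length) → PO (lM M).length := fun M h =>
    ∑ w ∈ γ.support, if hw : (w : Multiset X) = M then
      γ w • T (lM M).length (hw ▸ pw w) h else 0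
  have key : ∀ M : Multiset X, ∀ w : List X, ∀ hw : (w : Multiset X) = M,
      (List.ofFn fun i => (lM M).get ((hw ▸ pw w : Perm (Fin (lM M).length)) i)) = w := by
    rintro M w rfl
    exact hpw w
  have hTor : ∀ M : Multiset X, Tor k (lM M).get (tt M) := by
    intro M B
    have h1 := QQ_act (k := k) γ hG (lM M).get B
    rw [← h1]
    congr 1
    have h2 : ∀ B', ty (tt M) B' = ∑ w ∈ γ.support, if hw : (w : Multiset X) = M then
        (γ w * sgB (hw ▸ pw w : Perm (Fin (lM M).length)) B') •
          cj (hw ▸ pw w : Perm (Fin (lM M).length)) (g (pathP (lM M).length)) else 0 := by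
      intro B'
      have h3 : ty (tt M) B' = ∑ w ∈ γ.support, ty (fun h => if hw : (w : Multiset X) = M then
          γ w • T (lM M).length (hw ▸ pw w) h else 0) B' := by
        unfold ty
        rw [Finset.sum_comm]
        refine Finset.sum_congr rfl fun h _ => ?_
        rw [← Finset.smul_sum]
      rw [h3]
      refine Finset.sum_congr rfl fun w _ => ?_
      split_ifs with hw
      · have h4 : ty (fun h => γ w • T (lM M).length (hw ▸ pw w) h) B' =
            γ w • ty (T (lM M).length (hw ▸ pw w)) B' := by
          unfold ty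
          rw [Finset.smul_sum]
          exact Finset.sum_congr rfl fun h _ => smul_comm _ _ _
        rw [h4, hT1, smul_smul]
      · unfold ty
        simp
    -- the double sum
    have h3 : ∀ σ : Perm (Fin (lM M).length), sgB σ B • cj σ (ty (tt M)
        (B.map (σ⁻¹ : Perm (Fin (lM M).length)).toEmbedding)) =
        ∑ w ∈ γ.support, if hw : (w : Multiset X) = M then
          (γ w * sgB (σ * (hw ▸ pw w : Perm (Fin (lM M).length))) B) •
            cj (σ * (hw ▸ pw w : Perm (Fin (lM M).length))) (g (pathP (lM M).length)) else 0 := by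
      intro σ
      rw [h2, cj_sum, Finset.smul_sum]
      refine Finset.sum_congr rfl fun w _ => ?_
      split_ifs with hw
      · rw [cj_zsmul, smul_smul, sgB_mul, cj_mul]
        congr 1
        ring
      · have : cj σ (0 : PO (lM M).length) = 0 := (cjH σ).map_zero
        rw [this, smul_zero]
    rw [Finset.sum_congr rfl fun σ _ => h3 σ, Finset.sum_comm]
    -- the right-hand side by words
    have h4 : ∀ τ : Perm (Fin (lM M).length),
        (γ (List.ofFn fun p => (lM M).get (τ p)) * sgB τ B) • cj τ (g (pathP (lM M).length)) =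
        ∑ w ∈ γ.support, if (List.ofFn fun p => (lM M).get (τ p)) = w then
          (γ w * sgB τ B) • cj τ (g (pathP (lM M).length)) else 0 := by
      intro τ
      rw [Finset.sum_ite_eq]
      split_ifs with h7
      · rfl
      · rw [Finsupp.notMem_support_iff.1 h7, zero_mul, zero_smul]
    rw [Finset.sum_congr rfl fun τ _ => h4 τ,
      Finset.sum_comm (s := (univ : Finset (Perm (Fin (lM M).length)))) (t := γ.support)]
    refine Finset.sum_congr rfl fun w _ => ?_
    by_cases hw : (w : Multiset X) = M
    · have hkey := key M w hw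
      simp only [dif_pos hw]
      set π : Perm (Fin (lM M).length) := (hw ▸ pw w : Perm (Fin (lM M).length)) with hπ
      rw [← Finset.sum_filter]
      refine Finset.sum_bij (fun σ _ => σ * π) ?_ ?_ ?_ ?_
      · intro σ hσ
        rw [Finset.mem_filter] at hσ ⊢
        refine ⟨mem_univ _, ?_⟩
        rw [← hkey]
        congr 1
        funext p
        exact congrFun hσ.2 (π p)
      · intro σ _ σ' _ h
        exact mul_right_cancel h
      · intro τ hτ
        rw [Finset.mem_filter] at hτ
        refine ⟨τ * π⁻¹, ?_, by simp⟩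
        rw [Finset.mem_filter]
        refine ⟨mem_univ _, ?_⟩
        have h5 := hτ.2.trans hkey.symm
        rw [List.ofFn_inj] at h5
        funext p
        have h6 := congrFun h5 (π⁻¹ p)
        simp only [Function.comp_apply, Perm.mul_apply]
        rw [h6]
        congr 1
        exact π.apply_symm_apply p
      · intro σ _
        rfl
    · simp only [dif_neg hw, Finset.sum_const_zero]
      symm
      refine Finset.sum_eq_zero fun τ _ => ?_
      rw [if_neg]
      intro h
      apply hw
      rw [← h]
      refine Eq.trans ?_ (hlM M)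
      have h5 := Equiv.Perm.ofFn_comp_perm τ (lM M).get
      rw [List.ofFn_get] at h5
      exact Multiset.coe_eq_coe.2 h5
  refine ⟨S.card, fun κ => (lM (S.equivFin.symm κ)).length, fun κ => (lM (S.equivFin.symm κ)).get,
    fun κ => tt (S.equivFin.symm κ), fun κ => ⟨hInt _, hTor _⟩, ?_⟩
  · intro Φ U _ _ ρ om PS a
    rw [lift_wrd, Finsupp.sum, map_sum, Finset.sum_mul]
    have h1 : ∀ M : Multiset X, ∑ h, PS.psi (lM M).length (a ∘ (lM M).get) h (tt M h) =
        ∑ w ∈ γ.support, if (w : Multiset X) = M then ρ (γ w • (w.map a).prod) * om else 0 := by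
      intro M
      have h2 : ∀ h, PS.psi (lM M).length (a ∘ (lM M).get) h (tt M h) = ∑ w ∈ γ.support,
          if hw : (w : Multiset X) = M then γ w • PS.psi (lM M).length (a ∘ (lM M).get) h
            (T (lM M).length (hw ▸ pw w) h) else 0 := by
        intro h
        rw [map_sum]
        refine Finset.sum_congr rfl fun w _ => ?_
        split_ifs with hw
        · exact map_zsmul _ _ _
        · exact map_zero _
      rw [Finset.sum_congr rfl fun h _ => h2 h, Finset.sum_comm]
      refine Finset.sum_congr rfl fun w _ => ?_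
      by_cases hw : (w : Multiset X) = M
      · simp only [dif_pos hw, if_pos hw]
        rw [← Finset.smul_sum, hT2, PS.path, map_zsmul, smul_mul_assoc]
        congr 4
        have hkey := key M w hw
        conv_rhs => rw [← hkey]
        rw [List.map_ofFn]
        rfl
      · simp only [dif_neg hw, if_neg hw, Finset.sum_const_zero]
    have h2 : ∑ κ : Fin S.card, ∑ h, PS.psi (lM (S.equivFin.symm κ)).length
        (a ∘ (lM (S.equivFin.symm κ)).get) h (tt (S.equivFin.symm κ) h) =
        ∑ M ∈ S, ∑ w ∈ γ.support, if (w : Multiset X) = M then ρ (γ w • (w.map a).prod) * om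
          else 0 := by
      rw [← Finset.sum_coe_sort S, ← Equiv.sum_comp S.equivFin.symm]
      exact Finset.sum_congr rfl fun κ _ => h1 _
    rw [h2, Finset.sum_comm]
    refine Finset.sum_congr rfl fun w hw => ?_
    rw [Finset.sum_ite_eq, if_pos]
    exact Finset.mem_image_of_mem _ hw

end Pool.PI34.XH
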