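import Pool.Agent.LibPI34.Fin_S00669
import Pool.Agent.LibPI34.X_Fin
import Pool.Agent.LibPI34.X_St3
import Pool.Agent.LibPI34.EV_Univ
import Pool.Agent.LibPI34.CV_D

/-! PI34: the full theorem, for arbitrary polynomial identities. -/

set_option autoImplicit false

namespace Pool.PI34.Fin669

open Pool.PI34.T1

/-- every PI ring is an image of a torsion-free PI ring -/
theorem im_all (R : Type) [NonUnitalRing R] (h : PIid R) : Im R :=
  im_of_engine2 (fun k l hk _ => XX.engine_two (fun k => XH.start k) EV.partII k l
    (Nat.add_pos_left hk l)) R h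

/-- a ring with a multilinear identity with coefficient one is a PI ring -/
theorem isPI_of_piid {R : Type} [NonUnitalRing R] (h : PIid R) : CV.IsPI R := by
  obtain ⟨d, a, ha, hid⟩ := h
  exact CV.isPI_of_sat d a ha (CV.sat_mlp d a hid)

end Pool.PI34.Fin669
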