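import Mathlib

/-!
PI34, block A5 (GEN), part D: definitions.

`A` a finite index set with a colour `c : A → S`, `k` copies.  A function `Th` of the partial maps
`ψ : Fin k × A → Option A` is the family of coefficients of the multilinear function
`fT Th B = Σ_ψ Th ψ ∏_{(r,a), ψ (r,a) = some b} (B_r)_ab` of `k` matrices.
-/

set_option autoImplicit false

namespace Pool.PI34.GD

open Equiv Finset Matrix

variable {A S : Type} [Fintype A] [DecidableEq A] [Fintype S] [DecidableEq S] {k : ℕ}

/-- the monomial `m_ψ(B)` -/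
def mm {R : Type} [CommRing R] (ψ : Fin k × A → Option A) (B : Fin k → Matrix A A R) : R :=
  ∏ x : Fin k × A, (ψ x).elim 1 (fun b => B x.1 x.2 b)

/-- the multilinear function with the coefficients `Th` -/
def fT {R : Type} [CommRing R] (Th : (Fin k × A → Option A) → R) (B : Fin k → Matrix A A R) : R :=
  ∑ ψ, Th ψ * mm ψ B

/-- for every `r` it is a combination of minors of `B_r` -/
def AltC {R : Type} [CommRing R] (Th : (Fin k × A → Option A) → R) : Prop :=
  (∀ (ψ : Fin k × A → Option A) (r : Fin k) (a a' : A), a ≠ a' → ψ (r, a) ≠ none →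
    ψ (r, a') ≠ none → Th (ψ ∘ swap (r, a) (r, a')) = - Th ψ) ∧
  (∀ (ψ : Fin k × A → Option A) (r : Fin k) (a a' : A), a ≠ a' → ψ (r, a) ≠ none →
    ψ (r, a) = ψ (r, a') → Th ψ = 0)

/-- invariance `f(B_1 g, …, B_k g) = f(g B_1, …, g B_k)` for all block diagonal `g` -/
def LI (c : A → S) {R : Type} [CommRing R] (Th : (Fin k × A → Option A) → R) : Prop :=
  ∀ g : Matrix A A R, (∀ a b, c a ≠ c b → g a b = 0) → ∀ B : Fin k → Matrix A A R,
    fT Th (fun r => B r * g) = fT Th (fun r => g * B r)

/-- number of rows of `ψ` over `a` -/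
def rowCt (ψ : Fin k × A → Option A) (a : A) : ℕ :=
  (univ.filter fun x : Fin k × A => x.2 = a ∧ ψ x ≠ none).card

/-- number of columns `a` of `ψ` -/
def colCt (ψ : Fin k × A → Option A) (a : A) : ℕ :=
  (univ.filter fun x : Fin k × A => ψ x = some a).card

/-- colour content of the columns of `ψ` -/
def ct (c : A → S) (ψ : Fin k × A → Option A) (s : S) : ℕ :=
  (univ.filter fun x : Fin k × A => (ψ x).map c = some s).card

/-- the part of content `d` -/
def hom (c : A → S) {R : Type} [CommRing R] (d : S → ℕ) (Th : (Fin k × A → Option A) → R) :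
    (Fin k × A → Option A) → R :=
  fun ψ => if ct c ψ = d then Th ψ else 0

/-- the multilinear pattern: `ψ(ρ b, π b) = some b` for `b ∈ D` and `none` elsewhere -/
def psi (D : Finset A) (π : Perm A) (ρ : A → Fin k) : Fin k × A → Option A :=
  fun x => if π.symm x.2 ∈ D ∧ ρ (π.symm x.2) = x.1 then some (π.symm x.2) else none

/-- `m^s_{r t} = #{e ∈ D : c e = s, ρ e = r, ρ (π⁻¹ e) = t}` -/
def mPR (c : A → S) (D : Finset A) (π : Perm A) (ρ : A → Fin k) : S × Fin k × Fin k → ℕ :=
  fun v => (D.filter fun e => c e = v.1 ∧ ρ e = v.2.1 ∧ ρ (π.symm e) = v.2.2).card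

/-- the coefficients of `det (1 + [(B_r)_ab (X_{c b})_{rt}])` -/
def ThX (c : A → S) {R : Type} [CommRing R] (X : S → Matrix (Fin k) (Fin k) R)
    (ψ : Fin k × A → Option A) : R :=
  (Matrix.of fun x y : Fin k × A => (ψ x).elim (if x = y then 1 else 0)
    (fun b => if b = y.2 then X (c b) x.1 y.1 else 0)).det

/-- the matrix `[(B_r)_ab (X_{c b})_{rt}]_{(r,a),(t,b)}` -/
def MX (c : A → S) {R : Type} [CommRing R] (X : S → Matrix (Fin k) (Fin k) R)
    (B : Fin k → Matrix A A R) : Matrix (Fin k × A) (Fin k × A) R :=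
  Matrix.of fun x y => B x.1 x.2 y.2 * X (c y.2) x.1 y.1

/-- the generic matrices over `K` -/
noncomputable def genX (S : Type) (k : ℕ) (K : Type) [Field K] (s : S) :
    Matrix (Fin k) (Fin k) (MvPolynomial (S × Fin k × Fin k) K) :=
  Matrix.of fun r t => MvPolynomial.X (s, r, t)

end Pool.PI34.GD
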