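import Pool.Agent.LibPI34.GD_0

/-! PI34, block A5 (GEN), part D, file 1: linear independence, torus weights, homogeneous parts. -/

set_option autoImplicit false

namespace Pool.PI34.GD

open Equiv Finset Matrix

variable {A S : Type} [Fintype A] [DecidableEq A] [Fintype S] [DecidableEq S] {k : ℕ}

/-- the 0/1 matrices of `ψ0` -/
def zo {R : Type} [CommRing R] (ψ0 : Fin k × A → Option A) : Fin k → Matrix A A R :=
  fun r => Matrix.of fun a b => if ψ0 (r, a) = some b then 1 else 0

/-- `m_ψ(zo ψ0) = 1` if `ψ ≤ ψ0` (i.e. `ψ x = none` or `ψ x = ψ0 x` for all `x`), `0` otherwise -/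
theorem mm_zo {R : Type} [CommRing R] (ψ ψ0 : Fin k × A → Option A) :
    mm ψ (zo (R := R) ψ0) = if ∀ x, ψ x = none ∨ ψ x = ψ0 x then 1 else 0 := by
  unfold mm zo
  split_ifs with h
  · refine Finset.prod_eq_one fun x _ => ?_
    cases hx : ψ x with
    | none => rfl
    | some b =>
      have h1 : ψ0 (x.1, x.2) = some b := by
        rcases h x with h1 | h1
        · rw [hx] at h1
          exact absurd h1 (by simp)
        · rw [← hx, h1]
      simp [h1]
  · push Not at h
    obtain ⟨x, h1, h2⟩ := h
    refine Finset.prod_eq_zero (mem_univ x) ?_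
    cases hx : ψ x with
    | none => exact absurd hx h1
    | some b =>
      have h3 : ¬ ψ0 (x.1, x.2) = some b := by
        intro h4
        exact h2 (hx.trans h4.symm)
      simp [h3]

/-- linear independence of the `m_ψ`: induction on the size of the support of `ψ0`, evaluate at `zo ψ0` -/
theorem fT_ext {R : Type} [CommRing R] (Th Th' : (Fin k × A → Option A) → R)
    (h : ∀ B, fT Th B = fT Th' B) : Th = Th' := by
  have key : ∀ (n : ℕ) (ψ0 : Fin k × A → Option A),
      (univ.filter fun x => ψ0 x ≠ none).card = n → Th ψ0 = Th' ψ0 := by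
    intro n
    induction n using Nat.strong_induction_on with
    | _ n ih =>
      intro ψ0 hn
      have h1 : ∑ ψ, (Th ψ - Th' ψ) * mm ψ (zo (R := R) ψ0) = 0 := by
        have h2 := h (zo ψ0)
        unfold fT at h2
        simp only [sub_mul, Finset.sum_sub_distrib]
        rw [h2, sub_self]
      rw [Finset.sum_eq_single ψ0] at h1
      · rw [mm_zo, if_pos fun x => Or.inr rfl, mul_one] at h1
        exact sub_eq_zero.1 h1
      · intro ψ _ hne
        rw [mm_zo]
        split_ifs with h3
        · have hlt : (univ.filter fun x => ψ x ≠ none).card < n := by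
            rw [← hn]
            refine Finset.card_lt_card ?_
            rw [Finset.ssubset_iff_of_subset]
            · have hex : ∃ x, ψ x ≠ ψ0 x := by
                by_contra hcon
                push Not at hcon
                exact hne (funext hcon)
              obtain ⟨x, hx⟩ := hex
              have hx0 : ψ x = none := (h3 x).resolve_right hx
              refine ⟨x, ?_, ?_⟩
              · simp only [mem_filter, mem_univ, true_and]
                intro h4
                exact hx (hx0.trans h4.symm)
              · simp [hx0]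
            · intro x hx
              simp only [mem_filter, mem_univ, true_and] at hx ⊢
              rw [← (h3 x).resolve_left hx]
              exact hx
          rw [ih _ hlt ψ rfl, sub_self, zero_mul]
        · rw [mul_zero]
      · intro h4
        exact absurd (mem_univ _) h4
  exact funext fun ψ0 => key _ ψ0 rfl

/-- scaling the columns: `m_ψ(B diag t) = (∏_b t_b^{colCt ψ b}) m_ψ(B)` -/
theorem mm_mul_diagonal {R : Type} [CommRing R] (ψ : Fin k × A → Option A)
    (B : Fin k → Matrix A A R) (t : A → R) :
    mm ψ (fun r => B r * Matrix.diagonal t) = (∏ b, t b ^ colCt ψ b) * mm ψ B := by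
  have h1 : ∀ b, t b ^ colCt ψ b = ∏ x : Fin k × A, if ψ x = some b then t b else 1 := by
    intro b
    rw [Finset.prod_ite, Finset.prod_const, Finset.prod_const_one, mul_one]
    rfl
  simp only [h1]
  rw [Finset.prod_comm]
  unfold mm
  rw [← Finset.prod_mul_distrib]
  refine Finset.prod_congr rfl fun x _ => ?_
  cases hx : ψ x with
  | none => simp
  | some b =>
    have h2 : (∏ b' : A, if some b = some b' then t b' else 1) = t b := by
      rw [Finset.prod_eq_single b]
      · simp
      · intro b' _ hb'
        rw [if_neg]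
        intro h3
        exact hb' (Option.some.inj h3).symm
      · intro h3
        exact absurd (mem_univ _) h3
    rw [h2]
    simp only [Option.elim_some, Matrix.mul_diagonal]
    exact mul_comm _ _

/-- scaling the rows: `m_ψ(diag t B) = (∏_a t_a^{rowCt ψ a}) m_ψ(B)` -/
theorem mm_diagonal_mul {R : Type} [CommRing R] (ψ : Fin k × A → Option A)
    (B : Fin k → Matrix A A R) (t : A → R) :
    mm ψ (fun r => Matrix.diagonal t * B r) = (∏ a, t a ^ rowCt ψ a) * mm ψ B := by
  have h1 : ∀ a, t a ^ rowCt ψ a =
      ∏ x : Fin k × A, if x.2 = a ∧ ψ x ≠ none then t a else 1 := by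
    intro a
    rw [Finset.prod_ite, Finset.prod_const, Finset.prod_const_one, mul_one]
    rfl
  simp only [h1]
  rw [Finset.prod_comm]
  unfold mm
  rw [← Finset.prod_mul_distrib]
  refine Finset.prod_congr rfl fun x _ => ?_
  cases hx : ψ x with
  | none => simp
  | some b =>
    have h2 : (∏ a : A, if x.2 = a ∧ some b ≠ none then t a else 1) = t x.2 := by
      rw [Finset.prod_eq_single x.2]
      · simp
      · intro b' _ hb'
        rw [if_neg]
        intro h3
        exact hb' h3.1.symm
      · intro h3
        exact absurd (mem_univ _) h3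
    rw [h2]
    simp only [Option.elim_some, Matrix.diagonal_mul]

variable {K : Type} [Field K] [Infinite K]

/-- PROOF.  `g = diag t` in `LI`, `fT_ext`: `Th ψ ∏ t_b^{colCt} = Th ψ ∏ t_a^{rowCt}` for all `t`; take all `t_b = 1`
except `t_a = τ`: `τ^{colCt ψ a} = τ^{rowCt ψ a}` for all `τ` in the infinite field `K`. -/
theorem balanced (c : A → S) (Th : (Fin k × A → Option A) → K) (h : LI c Th)
    (ψ : Fin k × A → Option A) (hψ : Th ψ ≠ 0) (a : A) : rowCt ψ a = colCt ψ a := by
  have h1 : ∀ t : A → K, Th ψ * ∏ b, t b ^ colCt ψ b = Th ψ * ∏ b, t b ^ rowCt ψ b := by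
    intro t
    have h2 := fT_ext (fun ψ => Th ψ * ∏ b, t b ^ colCt ψ b) (fun ψ => Th ψ * ∏ b, t b ^ rowCt ψ b)
      (by
        intro B
        have h3 := h (Matrix.diagonal t)
          (fun a b hab => Matrix.diagonal_apply_ne _ fun e => hab (by rw [e])) B
        unfold fT at h3 ⊢
        simp only [mm_mul_diagonal, mm_diagonal_mul] at h3
        simp only [mul_assoc]
        exact h3)
    exact congrFun h2 ψ
  have h4 : ∀ τ : K, τ ^ colCt ψ a = τ ^ rowCt ψ a := by
    intro τ
    have h5 := mul_left_cancel₀ hψ (h1 (Function.update (fun _ => 1) a τ))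
    have h6 : ∀ n : A → ℕ, ∏ b, (Function.update (fun _ => (1 : K)) a τ) b ^ n b = τ ^ n a := by
      intro n
      rw [Finset.prod_eq_single a]
      · simp
      · intro b _ hb
        rw [Function.update_of_ne hb, one_pow]
      · intro h7
        exact absurd (mem_univ _) h7
    rw [h6, h6] at h5
    exact h5
  have h8 : (Polynomial.X ^ colCt ψ a : Polynomial K) = Polynomial.X ^ rowCt ψ a := by
    refine Polynomial.funext fun τ => ?_
    simpa using h4 τ
  have h9 := congrArg Polynomial.natDegree h8
  rw [Polynomial.natDegree_X_pow, Polynomial.natDegree_X_pow] at h9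
  exact h9.symm

/-- `ct` and `colCt` -/
theorem ct_eq_sum (c : A → S) (ψ : Fin k × A → Option A) (s : S) :
    ct c ψ s = ∑ b ∈ univ.filter (fun b => c b = s), colCt ψ b := by
  unfold ct colCt
  rw [← Finset.card_biUnion]
  · congr 1
    ext x
    simp only [mem_filter, mem_univ, true_and, mem_biUnion, Option.map_eq_some_iff]
    constructor
    · rintro ⟨b, h1, h2⟩
      exact ⟨b, h2, h1⟩
    · rintro ⟨b, h1, h2⟩
      exact ⟨b, h2, h1⟩
  · intro b _ b' _ hb
    refine Finset.disjoint_left.2 fun x hx hx' => ?_
    simp only [mem_filter, mem_univ, true_and] at hx hx'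
    exact hb (Option.some.inj (hx.symm.trans hx'))

/-- total size of the support -/
theorem sum_ct (c : A → S) (ψ : Fin k × A → Option A) :
    ∑ s, ct c ψ s = (univ.filter fun x : Fin k × A => ψ x ≠ none).card := by
  unfold ct
  rw [← Finset.card_biUnion]
  · congr 1
    ext x
    simp only [mem_filter, mem_univ, true_and, mem_biUnion, Option.map_eq_some_iff]
    constructor
    · rintro ⟨s, b, h1, h2⟩
      rw [h1]
      simp
    · intro h1
      obtain ⟨b, hb⟩ := Option.ne_none_iff_exists'.1 h1
      exact ⟨c b, b, hb, rfl⟩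
  · intro b _ b' _ hb
    refine Finset.disjoint_left.2 fun x hx hx' => ?_
    simp only [mem_filter, mem_univ, true_and] at hx hx'
    exact hb (Option.some.inj (hx.symm.trans hx'))

theorem ct_comp_swap (c : A → S) (ψ : Fin k × A → Option A) (u v : Fin k × A) :
    ct c (ψ ∘ swap u v) = ct c ψ := by
  funext s
  unfold ct
  refine Finset.card_equiv (swap u v) fun x => ?_
  simp [Function.comp]

theorem hom_AltC (c : A → S) (d : S → ℕ) (Th : (Fin k × A → Option A) → K) (h : AltC Th) :
    AltC (hom c d Th) := by
  constructor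
  · intro ψ r a a' h1 h2 h3
    unfold hom
    rw [ct_comp_swap]
    split_ifs
    · exact h.1 ψ r a a' h1 h2 h3
    · simp
  · intro ψ r a a' h1 h2 h3
    unfold hom
    split_ifs
    · exact h.2 ψ r a a' h1 h2 h3
    · rfl

/-- weights: `fT Th (B diag(z_{c b})) = Σ_ψ ... `, as a polynomial in `z` its coefficient at `z^d` is
`fT (hom d Th) B` -/
theorem fT_scale (c : A → S) (Th : (Fin k × A → Option A) → K) (B : Fin k → Matrix A A K)
    (z : S → K) :
    fT Th (fun r => B r * Matrix.diagonal fun b => z (c b)) =
      ∑ ψ, (∏ s, z s ^ ct c ψ s) * (Th ψ * mm ψ B) := by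
  unfold fT
  refine Finset.sum_congr rfl fun ψ _ => ?_
  rw [mm_mul_diagonal]
  have h1 : ∏ s, z s ^ ct c ψ s = ∏ b, z (c b) ^ colCt ψ b := by
    rw [← Finset.prod_fiberwise univ c (fun b => z (c b) ^ colCt ψ b)]
    refine Finset.prod_congr rfl fun s _ => ?_
    rw [ct_eq_sum, ← Finset.prod_pow_eq_pow_sum]
    refine Finset.prod_congr rfl fun b hb => ?_
    rw [(mem_filter.1 hb).2]
  rw [h1]
  ring

/-- comparison of coefficients: two families of weights which agree for all `z` agree in every content -/
theorem coeff_compare (c : A → S) (F G : (Fin k × A → Option A) → K)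
    (h : ∀ z : S → K, ∑ ψ, (∏ s, z s ^ ct c ψ s) * F ψ = ∑ ψ, (∏ s, z s ^ ct c ψ s) * G ψ)
    (d : S → ℕ) :
    ∑ ψ ∈ univ.filter (fun ψ => ct c ψ = d), F ψ = ∑ ψ ∈ univ.filter (fun ψ => ct c ψ = d), G ψ := by
  classical
  let P : ((Fin k × A → Option A) → K) → MvPolynomial S K := fun F =>
    ∑ ψ, MvPolynomial.monomial (Finsupp.equivFunOnFinite.symm (ct c ψ)) (F ψ)
  have hP : ∀ (F : (Fin k × A → Option A) → K) (z : S → K),
      MvPolynomial.eval z (P F) = ∑ ψ, (∏ s, z s ^ ct c ψ s) * F ψ := by
    intro F z
    simp only [P, map_sum, MvPolynomial.eval_monomial]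
    refine Finset.sum_congr rfl fun ψ _ => ?_
    rw [Finsupp.prod_fintype _ _ (fun s => pow_zero _), mul_comm]
    rfl
  have hE : P F = P G := MvPolynomial.funext fun z => by rw [hP, hP, h z]
  have hC : ∀ F : (Fin k × A → Option A) → K,
      (P F).coeff (Finsupp.equivFunOnFinite.symm d) =
        ∑ ψ ∈ univ.filter (fun ψ => ct c ψ = d), F ψ := by
    intro F
    simp only [P, MvPolynomial.coeff_sum, MvPolynomial.coeff_monomial]
    rw [Finset.sum_filter]
    refine Finset.sum_congr rfl fun ψ _ => ?_
    simp only [EmbeddingLike.apply_eq_iff_eq]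
  rw [← hC F, ← hC G, hE]

/-- PROOF.  `LI` for `Th` at `B_r diag(z_c)`; `g` commutes with `diag(z_c)`; `fT_scale` and `coeff_compare`. -/
theorem hom_LI (c : A → S) (d : S → ℕ) (Th : (Fin k × A → Option A) → K) (h : LI c Th) :
    LI c (hom c d Th) := by
  intro g hg B
  have hcomm : ∀ z : S → K, Matrix.diagonal (fun b => z (c b)) * g =
      g * Matrix.diagonal fun b => z (c b) := by
    intro z
    ext a b
    rw [Matrix.diagonal_mul, Matrix.mul_diagonal]
    by_cases hab : c a = c b
    · rw [hab, mul_comm]
    · rw [hg a b hab, mul_zero, zero_mul]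
  have h1 : ∀ z : S → K,
      ∑ ψ, (∏ s, z s ^ ct c ψ s) * (Th ψ * mm ψ (fun r => B r * g)) =
        ∑ ψ, (∏ s, z s ^ ct c ψ s) * (Th ψ * mm ψ (fun r => g * B r)) := by
    intro z
    rw [← fT_scale, ← fT_scale]
    have h2 := h g hg (fun r => B r * Matrix.diagonal fun b => z (c b))
    have e1 : (fun r => B r * g * Matrix.diagonal fun b => z (c b)) =
        fun r => B r * (Matrix.diagonal fun b => z (c b)) * g := by
      funext r
      rw [Matrix.mul_assoc, ← hcomm, Matrix.mul_assoc]
    have e2 : (fun r => g * B r * Matrix.diagonal fun b => z (c b)) =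
        fun r => g * (B r * Matrix.diagonal fun b => z (c b)) := by
      funext r
      rw [Matrix.mul_assoc]
    rw [e1, e2]
    exact h2
  have h3 := coeff_compare c _ _ h1 d
  have h4 : ∀ B' : Fin k → Matrix A A K, fT (hom c d Th) B' =
      ∑ ψ ∈ univ.filter (fun ψ => ct c ψ = d), Th ψ * mm ψ B' := by
    intro B'
    unfold fT hom
    rw [Finset.sum_filter]
    refine Finset.sum_congr rfl fun ψ _ => ?_
    split_ifs
    · rfl
    · rw [zero_mul]
  rw [h4, h4]
  exact h3

end Pool.PI34.GD
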