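import Pool.Agent.LibPI34.GD_1

/-! PI34, block A5 (GEN), part D, file 2: uniqueness. -/

set_option autoImplicit false

namespace Pool.PI34.GD

open Equiv Finset Matrix

variable {A S : Type} [Fintype A] [DecidableEq A] [Fintype S] [DecidableEq S] {k : ℕ}
variable {K : Type} [Field K] [Infinite K]

/-- a pattern of content `d` whose support is the graph `{(r a, a) : a ∈ D}` and which is balanced is a multilinear
pattern `psi D π ρ` (`π b` = the row with value `some b`, `ρ b = r (π b)`). -/
theorem exists_psi (D : Finset A) (r : A → Fin k) (ψ : Fin k × A → Option A)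
    (h1 : ∀ x, ψ x ≠ none ↔ x.2 ∈ D ∧ r x.2 = x.1) (h2 : ∀ a, rowCt ψ a = colCt ψ a) :
    ∃ (π : Perm A) (ρ : A → Fin k), (∀ a, a ∉ D → π a = a) ∧ ψ = psi D π ρ := by
  classical
  -- the values on `D`
  have hval : ∀ a, a ∈ D → ∃ b, ψ (r a, a) = some b := by
    intro a ha
    exact Option.ne_none_iff_exists'.1 ((h1 (r a, a)).2 ⟨ha, rfl⟩)
  have hrow1 : ∀ b, rowCt ψ b ≤ 1 := by
    intro b
    unfold rowCt
    rw [Finset.card_le_one]
    intro x hx y hy
    simp only [mem_filter, mem_univ, true_and] at hx hy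
    have hx2 := (h1 x).1 hx.2
    have hy2 := (h1 y).1 hy.2
    refine Prod.ext ?_ (hx.1.trans hy.1.symm)
    rw [← hx2.2, ← hy2.2, hx.1, hy.1]
  have hrow0 : ∀ b, b ∉ D → rowCt ψ b = 0 := by
    intro b hb
    unfold rowCt
    rw [Finset.card_eq_zero, Finset.filter_eq_empty_iff]
    rintro x - ⟨hx1, hx2⟩
    exact hb (hx1 ▸ ((h1 x).1 hx2).1)
  let β : A → A := fun a => if a ∈ D then (ψ (r a, a)).getD a else a
  have hβD : ∀ a, a ∈ D → ψ (r a, a) = some (β a) := by
    intro a ha
    obtain ⟨b, hb⟩ := hval a ha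
    have e : β a = b := by
      show (if a ∈ D then (ψ (r a, a)).getD a else a) = b
      rw [if_pos ha, hb]
      rfl
    rw [e, hb]
  have hβn : ∀ a, a ∉ D → β a = a := fun a ha => if_neg ha
  have hcol : ∀ a, a ∈ D → (r a, a) ∈ univ.filter fun x : Fin k × A => ψ x = some (β a) := by
    intro a ha
    simp only [mem_filter, mem_univ, true_and]
    exact hβD a ha
  have hβinj : Function.Injective β := by
    intro a a' haa
    by_cases ha : a ∈ D
    · by_cases ha' : a' ∈ D
      · have hc : colCt ψ (β a) ≤ 1 := by rw [← h2]; exact hrow1 _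
        have := Finset.card_le_one.1 hc _ (hcol a ha) _ (by rw [haa]; exact hcol a' ha')
        exact (Prod.ext_iff.1 this).2
      · exfalso
        have e : β a = a' := by rw [haa, hβn a' ha']
        have hc : colCt ψ a' = 0 := by rw [← h2]; exact hrow0 a' ha'
        have := hcol a ha
        rw [e] at this
        rw [Finset.card_eq_zero.1 hc] at this
        exact absurd this (Finset.notMem_empty _)
    · by_cases ha' : a' ∈ D
      · exfalso
        have e : β a' = a := by rw [← haa, hβn a ha]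
        have hc : colCt ψ a = 0 := by rw [← h2]; exact hrow0 a ha
        have := hcol a' ha'
        rw [e] at this
        rw [Finset.card_eq_zero.1 hc] at this
        exact absurd this (Finset.notMem_empty _)
      · rw [hβn a ha, hβn a' ha'] at haa
        exact haa
  have hβbij : Function.Bijective β := Finite.injective_iff_bijective.1 hβinj
  have hβmem : ∀ a, a ∈ D → β a ∈ D := by
    intro a ha
    by_contra hn
    have e : β (β a) = β a := hβn _ hn
    exact hn (by rw [hβinj e]; exact ha)
  let π : Perm A := (Equiv.ofBijective β hβbij).symm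
  have hπs : ∀ a, π.symm a = β a := fun a => rfl
  have hπ : ∀ a, π (β a) = a := fun a => Equiv.ofBijective_symm_apply_apply β hβbij a
  refine ⟨π, fun b => r (π b), fun a ha => ?_, ?_⟩
  · have := hπ a
    rwa [hβn a ha] at this
  · funext x
    obtain ⟨s, a⟩ := x
    unfold psi
    simp only [hπs, hπ]
    by_cases ha : a ∈ D
    · by_cases hs : r a = s
      · rw [if_pos ⟨hβmem a ha, hs⟩, ← hs]
        exact hβD a ha
      · rw [if_neg (fun h => hs h.2)]
        by_contra hne
        exact hs ((h1 (s, a)).1 hne).2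
    · rw [hβn a ha, if_neg (fun h => ha h.1)]
      by_contra hne
      exact ha ((h1 (s, a)).1 hne).1

/-- UNIQUENESS.  PROOF.  Suppose `Th ψ0 ≠ 0`.  By `balanced` and `hd` the support of `ψ0` is
`{(r e, γ e) : e ∈ D}` (a bijection with `D`) with `c (γ e) = c e`; put `ψ0 (r e, γ e) = some (β e)`.  `LI` at
`g = Σ_{e ∈ D} E_{γ e, e}`, `B_r = Σ_{e ∈ D, r e = r} E_{e, β e}`:  `g B = zo ψ0`, so the right side is
`Σ_{ψ ≤ ψ0} Th ψ = Th ψ0` (content `d` forces `ψ = ψ0`).  `(B_r g)_ab = [a ∈ D, r a = r, b ∈ D, β a = γ b]`, so on the left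
only `ψ` with support in `{(r a, a) : a ∈ D}` contribute; content `d` forces equality, such `ψ` is multilinear by
`exists_psi`, so its coefficient is `0`.  (For `k = 0` the hypothesis `h0` is empty if `A` is nonempty, hence `hk`.) -/
theorem unique (c : A → S) (Th : (Fin k × A → Option A) → K) (h : LI c Th) (d : S → ℕ)
    (hd : ∀ ψ, Th ψ ≠ 0 → ct c ψ = d) (D : Finset A)
    (hD : ∀ s, (D.filter fun b => c b = s).card = d s)
    (h0 : ∀ (π : Perm A) (ρ : A → Fin k), (∀ a, a ∉ D → π a = a) → Th (psi D π ρ) = 0)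
    (hk : 0 < k) :
    ∀ ψ, Th ψ = 0 := by
  classical
  intro ψ0
  by_contra hψ0
  -- total size of the support
  have hDcard : D.card = ∑ s, d s := by
    rw [Finset.card_eq_sum_card_fiberwise (f := c) (t := univ) (fun x _ => mem_univ _)]
    exact Finset.sum_congr rfl fun s _ => hD s
  have hsupp : ∀ ψ, Th ψ ≠ 0 → (univ.filter fun x : Fin k × A => ψ x ≠ none).card = D.card := by
    intro ψ hψ
    rw [← sum_ct c ψ, hd ψ hψ, hDcard]
  -- colour content of the rows of `ψ0`
  have hrows : ∀ s, (univ.filter fun x : Fin k × A => ψ0 x ≠ none ∧ c x.2 = s).card = d s := by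
    intro s
    rw [← hd ψ0 hψ0, ct_eq_sum]
    rw [Finset.card_eq_sum_card_fiberwise (f := fun x : Fin k × A => x.2)
      (t := univ.filter fun b => c b = s) (fun x hx => by
        simp only [Finset.coe_filter, Set.mem_ofPred_eq, mem_univ, true_and] at hx ⊢
        exact hx.2)]
    refine Finset.sum_congr rfl fun b hb => ?_
    rw [← balanced c Th h ψ0 hψ0 b]
    unfold rowCt
    congr 1
    ext x
    simp only [mem_filter, mem_univ, true_and] at hb ⊢
    constructor
    · rintro ⟨⟨h3, _⟩, h5⟩
      exact ⟨h5, h3⟩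
    · rintro ⟨h3, h4⟩
      exact ⟨⟨h4, by rw [h3]; exact hb⟩, h3⟩
  -- the bijection
  have hfib : ∀ s : S, Nonempty ({a : {e // e ∈ D} // c a.1 = s} ≃
      {b : {x : Fin k × A // ψ0 x ≠ none} // c b.1.2 = s}) := by
    intro s
    rw [← Fintype.card_eq]
    have e1 : Fintype.card {a : {e // e ∈ D} // c a.1 = s} = d s := by
      rw [← hD s, ← Fintype.card_coe]
      refine Fintype.card_congr ⟨fun a => ⟨a.1.1, by simp [a.1.2, a.2]⟩,
        fun a => ⟨⟨a.1, (mem_filter.1 a.2).1⟩, (mem_filter.1 a.2).2⟩, fun a => rfl, fun a => rfl⟩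
    have e2 : Fintype.card {b : {x : Fin k × A // ψ0 x ≠ none} // c b.1.2 = s} = d s := by
      rw [← hrows s, ← Fintype.card_coe]
      refine Fintype.card_congr ⟨fun a => ⟨a.1.1, by simpa using ⟨a.1.2, a.2⟩⟩,
        fun a => ⟨⟨a.1, (mem_filter.1 a.2).2.1⟩, (mem_filter.1 a.2).2.2⟩, fun a => rfl, fun a => rfl⟩
    rw [e1, e2]
  let E : {e // e ∈ D} ≃ {x : Fin k × A // ψ0 x ≠ none} :=
    Equiv.ofFiberEquiv (f := fun a : {e // e ∈ D} => c a.1)
      (g := fun b : {x : Fin k × A // ψ0 x ≠ none} => c b.1.2) (fun s => (hfib s).some)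
  have hEc : ∀ e, c (E e).1.2 = c e.1 := fun e =>
    Equiv.ofFiberEquiv_map (f := fun a : {e // e ∈ D} => c a.1)
      (g := fun b : {x : Fin k × A // ψ0 x ≠ none} => c b.1.2) (fun s => (hfib s).some) e
  let g : Matrix A A K := Matrix.of fun a b => if hb : b ∈ D then
    (if a = (E ⟨b, hb⟩).1.2 then 1 else 0) else 0
  let B : Fin k → Matrix A A K := fun r => Matrix.of fun a b => if ha : a ∈ D then
    (if (E ⟨a, ha⟩).1.1 = r ∧ ψ0 (E ⟨a, ha⟩).1 = some b then 1 else 0) else 0
  have hg : ∀ a b, c a ≠ c b → g a b = 0 := by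
    intro a b hab
    show (if hb : b ∈ D then (if a = (E ⟨b, hb⟩).1.2 then (1 : K) else 0) else 0) = 0
    split_ifs with h3 h4
    · exfalso
      apply hab
      rw [h4, hEc]
    · rfl
    · rfl
  have key := h g hg B
  -- the right side
  have hgB : (fun r => g * B r) = zo (R := K) ψ0 := by
    funext r
    ext a b
    rw [Matrix.mul_apply]
    show ∑ e, (if hb : e ∈ D then (if a = (E ⟨e, hb⟩).1.2 then (1 : K) else 0) else 0) *
      (if ha : e ∈ D then (if (E ⟨e, ha⟩).1.1 = r ∧ ψ0 (E ⟨e, ha⟩).1 = some b then (1 : K) else 0) else 0) =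
      if ψ0 (r, a) = some b then 1 else 0
    by_cases hab : ψ0 (r, a) = some b
    · rw [if_pos hab]
      set e0 := E.symm ⟨(r, a), by rw [hab]; simp⟩ with he0
      have hE0 : (E e0).1 = (r, a) := by rw [he0, Equiv.apply_symm_apply]
      rw [Finset.sum_eq_single e0.1]
      · rw [dif_pos e0.2, dif_pos e0.2]
        have e3 : (⟨e0.1, e0.2⟩ : {e // e ∈ D}) = e0 := rfl
        rw [e3, hE0, if_pos rfl, if_pos ⟨rfl, hab⟩, one_mul]
      · intro e _ hne
        split_ifs with h3 h4 h5
        · exfalso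
          apply hne
          have e4 : (E ⟨e, h3⟩).1 = (r, a) := Prod.ext h5.1 h4.symm
          have e5 : (⟨e, h3⟩ : {e // e ∈ D}) = e0 := E.injective (Subtype.ext (e4.trans hE0.symm))
          exact congrArg Subtype.val e5
        · rw [mul_zero]
        · rw [zero_mul]
        · rw [zero_mul]
        · rw [zero_mul]
      · intro h3; exact absurd (mem_univ _) h3
    · rw [if_neg hab]
      refine Finset.sum_eq_zero fun e _ => ?_
      split_ifs with h3 h4 h5
      · exfalso
        apply hab
        have e4 : (E ⟨e, h3⟩).1 = (r, a) := Prod.ext h5.1 h4.symm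
        rw [← e4]
        exact h5.2
      · rw [mul_zero]
      · rw [zero_mul]
      · rw [zero_mul]
      · rw [zero_mul]
  have hR : fT Th (fun r => g * B r) = Th ψ0 := by
    rw [hgB]
    unfold fT
    rw [Finset.sum_eq_single ψ0]
    · rw [mm_zo, if_pos (fun x => Or.inr rfl), mul_one]
    · intro ψ _ hne
      rw [mm_zo]
      by_cases hψ : Th ψ = 0
      · rw [hψ, zero_mul]
      rw [if_neg, mul_zero]
      intro hle
      apply hne
      have hsub : (univ.filter fun x : Fin k × A => ψ x ≠ none) ⊆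
          (univ.filter fun x : Fin k × A => ψ0 x ≠ none) := by
        intro x hx
        simp only [mem_filter, mem_univ, true_and] at hx ⊢
        rcases hle x with h3 | h3
        · exact absurd h3 hx
        · rw [← h3]; exact hx
      have heq := Finset.eq_of_subset_of_card_le hsub (by rw [hsupp ψ hψ, hsupp ψ0 hψ0])
      funext x
      rcases hle x with h3 | h3
      · by_contra hne2
        have h4 : ψ0 x ≠ none := fun h5 => hne2 (h3.trans h5.symm)
        have h5 : x ∈ (univ.filter fun x : Fin k × A => ψ x ≠ none) := by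
          rw [heq]; simpa using h4
        simp only [mem_filter, mem_univ, true_and] at h5
        exact h5 h3
      · exact h3
    · intro h3; exact absurd (mem_univ _) h3
  -- the left side
  have hL : fT Th (fun r => B r * g) = 0 := by
    unfold fT
    refine Finset.sum_eq_zero fun ψ _ => ?_
    by_cases hψ : Th ψ = 0
    · rw [hψ, zero_mul]
    by_cases hm : mm ψ (fun r => B r * g) = 0
    · rw [hm, mul_zero]
    exfalso
    apply hψ
    -- the row function
    let r : A → Fin k := fun a => if ha : a ∈ D then (E ⟨a, ha⟩).1.1 else ⟨0, hk⟩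
    have hr : ∀ (a : A) (ha : a ∈ D), r a = (E ⟨a, ha⟩).1.1 := fun a ha => dif_pos ha
    have hgraph : ∀ x, ψ x ≠ none → x.2 ∈ D ∧ r x.2 = x.1 := by
      intro x hx
      obtain ⟨b, hb⟩ := Option.ne_none_iff_exists'.1 hx
      have h3 : (B x.1 * g) x.2 b ≠ 0 := by
        intro h4
        apply hm
        unfold mm
        refine Finset.prod_eq_zero (mem_univ x) ?_
        rw [hb]
        exact h4
      rw [Matrix.mul_apply] at h3
      obtain ⟨y, _, hy⟩ := Finset.exists_ne_zero_of_sum_ne_zero h3
      have h4 : B x.1 x.2 y ≠ 0 := left_ne_zero_of_mul hy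
      have h5 : (if ha : x.2 ∈ D then (if (E ⟨x.2, ha⟩).1.1 = x.1 ∧ ψ0 (E ⟨x.2, ha⟩).1 = some y
        then (1 : K) else 0) else 0) ≠ 0 := h4
      by_cases ha : x.2 ∈ D
      · rw [dif_pos ha] at h5
        by_cases h6 : (E ⟨x.2, ha⟩).1.1 = x.1 ∧ ψ0 (E ⟨x.2, ha⟩).1 = some y
        · exact ⟨ha, by rw [hr _ ha]; exact h6.1⟩
        · rw [if_neg h6] at h5
          exact absurd rfl h5
      · rw [dif_neg ha] at h5
        exact absurd rfl h5
    have hgr : ∀ x, ψ x ≠ none ↔ x.2 ∈ D ∧ r x.2 = x.1 := by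
      intro x
      refine ⟨hgraph x, fun hx => ?_⟩
      -- both sets have `|D|` elements
      have hsub : (univ.filter fun x : Fin k × A => ψ x ≠ none) ⊆
          D.image fun a => (r a, a) := by
        intro y hy
        simp only [mem_filter, mem_univ, true_and] at hy
        obtain ⟨h3, h4⟩ := hgraph y hy
        rw [Finset.mem_image]
        exact ⟨y.2, h3, Prod.ext h4 rfl⟩
      have heq := Finset.eq_of_subset_of_card_le hsub (by
        rw [hsupp ψ hψ]; exact Finset.card_image_le)
      have h5 : x ∈ D.image fun a => (r a, a) := by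
        rw [Finset.mem_image]
        exact ⟨x.2, hx.1, Prod.ext hx.2 rfl⟩
      rw [← heq] at h5
      simpa using h5
    obtain ⟨π, ρ, hπ, hψe⟩ := exists_psi D r ψ hgr (fun a => balanced c Th h ψ hψ a)
    rw [hψe]
    exact h0 π ρ hπ
  rw [hL, hR] at key
  exact hψ0 key.symm

end Pool.PI34.GD
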