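import Pool.Agent.LibPI34.GD_0

/-! PI34, block A5 (GEN), part D, file 3: the determinant. -/

set_option autoImplicit false

namespace Pool.PI34.GD

open Equiv Finset Matrix

variable {A S : Type} [Fintype A] [DecidableEq A] [Fintype S] [DecidableEq S] {k : ℕ}
variable {R : Type} [CommRing R]

/-- the row `x` of the matrix for the option `o` -/
def rowW (c : A → S) (X : S → Matrix (Fin k) (Fin k) R) (x : Fin k × A) (o : Option A) :
    Fin k × A → R :=
  fun y => o.elim (if x = y then 1 else 0) (fun b => if b = y.2 then X (c b) x.1 y.1 else 0)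

/-- multilinearity of the determinant in the rows: the row `x` of `1 + MX` is
`Σ_{o : Option A} (o.elim 1 (B_r)_{a b}) • w_{x,o}` (`MultilinearMap.map_sum`, `Matrix.detRowAlternating`) -/
theorem fT_ThX (c : A → S) (X : S → Matrix (Fin k) (Fin k) R) (B : Fin k → Matrix A A R) :
    fT (ThX c X) B = (1 + MX c X B).det := by
  have hrow : ∀ x : Fin k × A, (1 + MX c X B) x =
      ∑ o : Option A, (o.elim 1 (fun b => B x.1 x.2 b) : R) • rowW c X x o := by
    intro x
    funext y
    rw [Finset.sum_apply, Fintype.sum_option]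
    simp only [Pi.smul_apply, smul_eq_mul, rowW, Option.elim_none, Option.elim_some, one_mul,
      Matrix.add_apply, Matrix.one_apply, MX, Matrix.of_apply]
    congr 1
    simp only [mul_ite, mul_zero]
    rw [Finset.sum_ite_eq' Finset.univ y.2]
    simp
  have h1 : (1 + MX c X B).det = (Matrix.detRowAlternating (R := R) (n := Fin k × A)).toMultilinearMap
      (fun x => ∑ o : Option A, (o.elim 1 (fun b => B x.1 x.2 b) : R) • rowW c X x o) := by
    have : (fun x => ∑ o : Option A, (o.elim 1 (fun b => B x.1 x.2 b) : R) • rowW c X x o) =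
        (1 + MX c X B : Matrix (Fin k × A) (Fin k × A) R) := by
      funext x
      exact (hrow x).symm
    rw [this]
    rfl
  rw [h1, MultilinearMap.map_sum, fT]
  refine Finset.sum_congr rfl fun ψ _ => ?_
  rw [MultilinearMap.map_smul_univ, smul_eq_mul, mul_comm]
  rfl

/-- `MX (B g) = MX B * (g ⊗ 1)`, `MX (g B) = (g ⊗ 1) * MX B` for block diagonal `g`, `det (1 + MN) = det (1 + NM)` -/
theorem ThX_LI (c : A → S) (X : S → Matrix (Fin k) (Fin k) R) : LI c (ThX c X) := by
  intro g hg B
  rw [fT_ThX, fT_ThX]
  have h1 : MX c X (fun r => B r * g) =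
      MX c X B * (Matrix.of fun x y : Fin k × A => if x.1 = y.1 then g x.2 y.2 else 0) := by
    ext ⟨r, a⟩ ⟨t, b⟩
    simp only [MX, Matrix.of_apply, Matrix.mul_apply, Fintype.sum_prod_type, mul_ite, mul_zero]
    rw [Finset.sum_comm, Finset.sum_mul]
    refine Finset.sum_congr rfl fun e _ => ?_
    rw [Finset.sum_ite_eq' Finset.univ t]
    simp only [Finset.mem_univ, if_true]
    by_cases h : c e = c b
    · rw [h]; ring
    · rw [hg e b h]; ring
  have h2 : MX c X (fun r => g * B r) =
      (Matrix.of fun x y : Fin k × A => if x.1 = y.1 then g x.2 y.2 else 0) * MX c X B := by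
    ext ⟨r, a⟩ ⟨t, b⟩
    simp only [MX, Matrix.of_apply, Matrix.mul_apply, Fintype.sum_prod_type, ite_mul, zero_mul]
    rw [Finset.sum_comm, Finset.sum_mul]
    refine Finset.sum_congr rfl fun e _ => ?_
    rw [Finset.sum_ite_eq Finset.univ r]
    simp only [Finset.mem_univ, if_true]
    ring
  rw [h1, h2]
  exact Matrix.det_one_add_mul_comm _ _

theorem psi_none (D : Finset A) (π : Perm A) (ρ : A → Fin k) (x : Fin k × A)
    (h : psi D π ρ x = none) : ¬ (π.symm x.2 ∈ D ∧ ρ (π.symm x.2) = x.1) := by
  intro hc
  rw [psi, if_pos hc] at h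
  exact absurd h (by simp)

theorem psi_some (D : Finset A) (π : Perm A) (ρ : A → Fin k) (x : Fin k × A) (b : A)
    (h : psi D π ρ x = some b) : π.symm x.2 ∈ D ∧ ρ (π.symm x.2) = x.1 ∧ b = π.symm x.2 := by
  rw [psi] at h
  split_ifs at h with hc
  exact ⟨hc.1, hc.2, (Option.some.inj h).symm⟩

/-- the embedding `a ↦ (ρ (π⁻¹ a), a)` -/
def io (π : Perm A) (ρ : A → Fin k) (a : A) : Fin k × A := (ρ (π.symm a), a)

theorem io_inj (π : Perm A) (ρ : A → Fin k) : Function.Injective (io π ρ) := by
  intro a b h
  exact (Prod.ext_iff.1 h).2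

/-- the permutation -/
noncomputable def tau0 (π : Perm A) (ρ : A → Fin k) : Perm (Fin k × A) :=
  (π⁻¹ : Perm A).extendDomain (p := fun y => y ∈ Set.range (io π ρ))
    (Equiv.ofInjective (io π ρ) (io_inj π ρ))

theorem tau0_io (π : Perm A) (ρ : A → Fin k) (a : A) :
    tau0 π ρ (io π ρ a) = io π ρ (π.symm a) := by
  have h := Equiv.Perm.extendDomain_apply_image (p := fun y => y ∈ Set.range (io π ρ)) (π⁻¹ : Perm A)
    (Equiv.ofInjective (io π ρ) (io_inj π ρ)) a
  exact h

theorem tau0_not (π : Perm A) (ρ : A → Fin k) (x : Fin k × A) (h : x ∉ Set.range (io π ρ)) :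
    tau0 π ρ x = x :=
  Equiv.Perm.extendDomain_apply_not_subtype _ _ h

theorem sign_tau0 (π : Perm A) (ρ : A → Fin k) : Perm.sign (tau0 π ρ) = Perm.sign π := by
  rw [tau0, Equiv.Perm.sign_extendDomain, Perm.sign_inv]

theorem tau0_none (D : Finset A) (π : Perm A) (hπ : ∀ a, a ∉ D → π a = a) (ρ : A → Fin k)
    (x : Fin k × A) (h : psi D π ρ x = none) : tau0 π ρ x = x := by
  by_cases hx : x ∈ Set.range (io π ρ)
  · obtain ⟨a, rfl⟩ := hx
    have h' := psi_none D π ρ _ h
    have h2 : π.symm a ∉ D := fun hc => h' ⟨hc, rfl⟩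
    have h3 : π.symm a = a := by
      have := hπ _ h2
      rw [Equiv.apply_symm_apply] at this
      exact this.symm
    rw [tau0_io, h3]
  · exact tau0_not π ρ x hx

theorem tau0_some (D : Finset A) (π : Perm A) (ρ : A → Fin k)
    (x : Fin k × A) (b : A) (h : psi D π ρ x = some b) : tau0 π ρ x = (ρ (π.symm b), b) := by
  obtain ⟨h1, h2, h3⟩ := psi_some D π ρ x b h
  have hx : x = io π ρ x.2 := by
    refine Prod.ext h2.symm rfl
  rw [hx, tau0_io, ← h3]
  rfl

/-- only the permutation `(ρ b, π b) ↦ (ρ (π⁻¹ b), b)` contributes; its sign is `sgn π` -/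
theorem ThX_psi (c : A → S) (X : S → Matrix (Fin k) (Fin k) R) (D : Finset A) (π : Perm A)
    (hπ : ∀ a, a ∉ D → π a = a) (ρ : A → Fin k) :
    ThX c X (psi D π ρ) =
      ((Perm.sign π : ℤˣ) : ℤ) * ∏ b ∈ D, X (c b) (ρ b) (ρ (π.symm b)) := by
  rw [ThX, ← Matrix.det_transpose, Matrix.det_apply', Finset.sum_eq_single (tau0 π ρ)]
  · rw [sign_tau0]
    congr 1
    have hinj : Function.Injective (fun b : A => ((ρ b, π b) : Fin k × A)) := by
      intro a b h
      exact π.injective (Prod.ext_iff.1 h).2
    rw [← Finset.prod_subset (Finset.subset_univ (D.image fun b : A => ((ρ b, π b) : Fin k × A))),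
      Finset.prod_image (fun a _ b _ h => hinj h)]
    · refine Finset.prod_congr rfl fun b hb => ?_
      have hs : psi D π ρ (ρ b, π b) = some b := by
        rw [psi]
        simp [hb]
      rw [Matrix.transpose_apply, Matrix.of_apply, tau0_some D π ρ _ b hs, hs]
      simp
    · intro x _ hx
      have hn : psi D π ρ x = none := by
        rcases hp : psi D π ρ x with _ | b
        · rfl
        · exfalso
          obtain ⟨h1, h2, h3⟩ := psi_some D π ρ x b hp
          apply hx
          rw [Finset.mem_image]
          refine ⟨b, h3 ▸ h1, ?_⟩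
          refine Prod.ext ?_ ?_
          · rw [h3]; exact h2
          · rw [h3]; exact Equiv.apply_symm_apply _ _
      rw [Matrix.transpose_apply, Matrix.of_apply, tau0_none D π hπ ρ x hn, hn]
      simp
  · intro σ _ hσ
    rw [mul_eq_zero_of_right]
    by_contra hne
    have hall : ∀ x, (Matrix.of fun x y : Fin k × A => (psi D π ρ x).elim (if x = y then 1 else 0)
        (fun b => if b = y.2 then X (c b) x.1 y.1 else 0)) x (σ x) ≠ 0 := by
      intro x h0
      exact hne (Finset.prod_eq_zero (Finset.mem_univ x) h0)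
    have hnone : ∀ x, psi D π ρ x = none → σ x = x := by
      intro x hx
      have := hall x
      rw [Matrix.of_apply, hx, Option.elim_none] at this
      by_contra hc
      exact this (if_neg fun h => hc h.symm)
    have hsome : ∀ x b, psi D π ρ x = some b → (σ x).2 = b := by
      intro x b hx
      have := hall x
      rw [Matrix.of_apply, hx, Option.elim_some] at this
      by_contra hc
      exact this (if_neg fun h => hc h.symm)
    apply hσ
    ext1 x
    rcases hp : psi D π ρ x with _ | b
    · rw [hnone x hp, tau0_none D π hπ ρ x hp]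
    · rw [tau0_some D π ρ x b hp]
      have h2 := hsome x b hp
      refine Prod.ext ?_ h2
      rcases hq : psi D π ρ (σ x) with _ | b'
      · exfalso
        have := hnone _ hq
        have h3 : σ x = x := σ.injective this
        rw [h3, hp] at hq
        exact absurd hq (by simp)
      · obtain ⟨_, h4, _⟩ := psi_some D π ρ (σ x) b' hq
        rw [h2] at h4
        exact h4.symm
  · intro h
    exact absurd (Finset.mem_univ _) h

/-- the coefficients of `ThX` for the generic matrices: the degree in `X_s` is the content -/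
theorem ThX_content (c : A → S) (K : Type) [Field K] (ψ : Fin k × A → Option A)
    (m : S × Fin k × Fin k →₀ ℕ) (h : (ThX c (genX S k K) ψ).coeff m ≠ 0) (s : S) :
    ct c ψ s = ∑ r, ∑ t, m (s, r, t) := by
  have hw : MvPolynomial.IsWeightedHomogeneous
      (fun v : S × Fin k × Fin k => if v.1 = s then (1 : ℕ) else 0)
      (ThX c (genX S k K) ψ) (ct c ψ s) := by
    rw [ThX, ← Matrix.det_transpose, Matrix.det_apply]
    refine MvPolynomial.IsWeightedHomogeneous.sum _ _ _ fun σ _ => ?_
    have hp : MvPolynomial.IsWeightedHomogeneous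
        (fun v : S × Fin k × Fin k => if v.1 = s then (1 : ℕ) else 0)
        (∏ x, (Matrix.of fun x y : Fin k × A => (ψ x).elim (if x = y then 1 else 0)
          (fun b => if b = y.2 then genX S k K (c b) x.1 y.1 else 0) :
            Matrix (Fin k × A) (Fin k × A) (MvPolynomial (S × Fin k × Fin k) K)).transpose
            (σ x) x)
        (∑ x : Fin k × A, if (ψ x).map c = some s then 1 else 0) := by
      refine MvPolynomial.IsWeightedHomogeneous.prod _ _ _ fun x _ => ?_
      rw [Matrix.transpose_apply, Matrix.of_apply]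
      rcases hx : ψ x with _ | b
      · simp only [Option.elim_none, Option.map_none, reduceCtorEq, if_false]
        split_ifs
        · exact MvPolynomial.isWeightedHomogeneous_one _ _
        · exact MvPolynomial.isWeightedHomogeneous_zero _ _ _
      · simp only [Option.elim_some, Option.map_some, Option.some.injEq]
        split_ifs with h1 h2
        · have := MvPolynomial.isWeightedHomogeneous_X K
            (fun v : S × Fin k × Fin k => if v.1 = s then (1 : ℕ) else 0) (c b, x.1, (σ x).1)
          simp only [h2, if_true] at this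
          rw [genX, Matrix.of_apply, h2]
          exact this
        · have := MvPolynomial.isWeightedHomogeneous_X K
            (fun v : S × Fin k × Fin k => if v.1 = s then (1 : ℕ) else 0) (c b, x.1, (σ x).1)
          simp only [h2, if_false] at this
          rw [genX, Matrix.of_apply]
          exact this
        · exact MvPolynomial.isWeightedHomogeneous_zero _ _ _
        · exact MvPolynomial.isWeightedHomogeneous_zero _ _ _
    have hct : (∑ x : Fin k × A, if (ψ x).map c = some s then 1 else 0) = ct c ψ s := by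
      rw [ct, Finset.card_filter]
    rw [hct] at hp
    rcases Int.units_eq_one_or (Perm.sign σ) with hs | hs
    · rw [hs, one_smul]; exact hp
    · rw [hs, Units.neg_smul, one_smul]
      intro d hd
      apply hp
      rw [MvPolynomial.coeff_neg] at hd
      exact neg_ne_zero.1 hd
  have h1 := hw h
  rw [← h1, Finsupp.weight_apply, Finsupp.sum_fintype _ _ (by intro i; simp)]
  rw [Fintype.sum_prod_type]
  rw [Finset.sum_eq_single s]
  · rw [Fintype.sum_prod_type]
    simp
  · intro s' _ hs'
    apply Finset.sum_eq_zero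
    intro v _
    simp [hs']
  · intro h
    exact absurd (Finset.mem_univ _) h

/-- the value at a multilinear pattern for the generic matrices: the monomial `mPR` -/
theorem ThX_psi_gen (c : A → S) (K : Type) [Field K] (D : Finset A) (π : Perm A)
    (hπ : ∀ a, a ∉ D → π a = a) (ρ : A → Fin k) :
    ThX c (genX S k K) (psi D π ρ) =
      MvPolynomial.monomial (Finsupp.equivFunOnFinite.symm (mPR c D π ρ))
        (((Perm.sign π : ℤˣ) : ℤ) : K) := by
  rw [ThX_psi c (genX S k K) D π hπ ρ]
  have h1 : ∏ b ∈ D, genX S k K (c b) (ρ b) (ρ (π.symm b)) =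
      MvPolynomial.monomial (∑ b ∈ D, Finsupp.single (c b, ρ b, ρ (π.symm b)) 1) (1 : K) := by
    rw [MvPolynomial.monomial_sum_one]
    refine Finset.prod_congr rfl fun b _ => ?_
    rfl
  have h2 : (∑ b ∈ D, Finsupp.single (c b, ρ b, ρ (π.symm b)) 1) =
      (Finsupp.equivFunOnFinite.symm (mPR c D π ρ) : S × Fin k × Fin k →₀ ℕ) := by
    ext v
    rw [Finsupp.coe_finsetSum, Finset.sum_apply]
    simp only [Finsupp.single_apply, Finsupp.equivFunOnFinite_symm_apply_apply, mPR]
    rw [Finset.card_filter]
    refine Finset.sum_congr rfl fun b _ => ?_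
    congr 1
    simp only [eq_iff_iff]
    constructor
    · rintro rfl; exact ⟨rfl, rfl, rfl⟩
    · rintro ⟨h1, h2, h3⟩
      ext1
      · exact h1
      · ext1
        · exact h2
        · exact h3
  rw [h1, h2]
  rw [show (((((Perm.sign π : ℤˣ) : ℤ)) : MvPolynomial (S × Fin k × Fin k) K)) =
    MvPolynomial.C ((((Perm.sign π : ℤˣ) : ℤ)) : K) from by
      rw [map_intCast]]
  rw [MvPolynomial.C_mul_monomial, mul_one]

end Pool.PI34.GD
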