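import Pool.Agent.LibPI34.GD_1

/-! PI34, block A5 (GEN), part D, file 4: the coefficients depend only on `mPR`. -/

set_option autoImplicit false

namespace Pool.PI34.GD

open Equiv Finset Matrix

variable {A S : Type} [Fintype A] [DecidableEq A] [Fintype S] [DecidableEq S] {k : ℕ}
variable {K : Type} [Field K] [Infinite K]

theorem gd4_mm_right (w : Perm A) (ψ : Fin k × A → Option A) (B : Fin k → Matrix A A K) :
    mm ψ (fun r => B r * Matrix.of fun a b => if w a = b then (1 : K) else 0) =
      mm (fun x => (ψ x).map w.symm) B := by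
  unfold mm
  refine Finset.prod_congr rfl fun x _ => ?_
  simp only
  cases h : ψ x with
  | none => simp
  | some b =>
    simp only [Option.map_some, Option.elim_some]
    rw [Matrix.mul_apply, Finset.sum_eq_single (w.symm b)]
    · rw [Matrix.of_apply, if_pos (w.apply_symm_apply b), mul_one]
    · intro c _ hc
      rw [Matrix.of_apply, if_neg, mul_zero]
      intro e
      apply hc
      rw [← e, w.symm_apply_apply]
    · intro h; exact absurd (Finset.mem_univ _) h

theorem gd4_mm_left (w : Perm A) (ψ : Fin k × A → Option A) (B : Fin k → Matrix A A K) :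
    mm ψ (fun r => (Matrix.of fun a b => if w a = b then (1 : K) else 0) * B r) =
      mm (fun x => ψ (x.1, w.symm x.2)) B := by
  unfold mm
  have h1 : ∀ x : Fin k × A, (ψ x).elim 1 (fun b => ((Matrix.of fun a b =>
      if w a = b then (1 : K) else 0) * B x.1) x.2 b)
      = (ψ x).elim 1 (fun b => B x.1 (w x.2) b) := by
    intro x
    cases h : ψ x with
    | none => rfl
    | some b =>
      rw [Option.elim_some, Option.elim_some, Matrix.mul_apply, Finset.sum_eq_single (w x.2)]
      · rw [Matrix.of_apply, if_pos rfl, one_mul]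
      · intro c _ hc
        rw [Matrix.of_apply, if_neg (fun e => hc e.symm), zero_mul]
      · intro h; exact absurd (Finset.mem_univ _) h
  rw [Finset.prod_congr rfl fun x _ => h1 x]
  have h2 := Equiv.prod_comp ((Equiv.refl (Fin k)).prodCongr w)
    (fun x : Fin k × A => (ψ (x.1, w.symm x.2)).elim (1 : K) (fun b => B x.1 x.2 b))
  rw [← h2]
  refine Finset.prod_congr rfl fun x _ => ?_
  simp

/-- relabelling: `LI` at a permutation matrix `g` (colour preserving `w`): `Th (w ψ) = Th ψ`, where
`(w ψ)(r, w a) = (ψ (r, a)).map w` -/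
theorem Th_relabel (c : A → S) (Th : (Fin k × A → Option A) → K) (h : LI c Th) (w : Perm A)
    (hw : ∀ a, c (w a) = c a) (ψ : Fin k × A → Option A) :
    Th (fun x => (ψ (x.1, w.symm x.2)).map w) = Th ψ := by
  have hg : ∀ a b, c a ≠ c b → (Matrix.of fun a b => if w a = b then (1 : K) else 0) a b = 0 := by
    intro a b hab
    rw [Matrix.of_apply, if_neg]
    intro e
    apply hab
    rw [← e, hw]
  have h0 := h _ hg
  have h1 : ∀ B : Fin k → Matrix A A K, fT (fun φ => Th (fun x => (φ x).map w)) B =
      fT Th (fun r => B r * Matrix.of fun a b => if w a = b then (1 : K) else 0) := by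
    intro B
    unfold fT
    have h2 := Equiv.sum_comp ((Equiv.refl (Fin k × A)).arrowCongr (Equiv.optionCongr w))
      (fun ψ => Th ψ * mm ψ (fun r => B r * Matrix.of fun a b => if w a = b then (1 : K) else 0))
    rw [← h2]
    refine Finset.sum_congr rfl fun φ _ => ?_
    have h3 : ((Equiv.refl (Fin k × A)).arrowCongr (Equiv.optionCongr w)) φ
        = fun x => (φ x).map w := rfl
    rw [h3, gd4_mm_right]
    congr 2
    funext x
    cases φ x with
    | none => rfl
    | some b => simp
  have h2 : ∀ B : Fin k → Matrix A A K, fT (fun φ => Th (fun x => φ (x.1, w x.2))) B =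
      fT Th (fun r => (Matrix.of fun a b => if w a = b then (1 : K) else 0) * B r) := by
    intro B
    unfold fT
    have h2 := Equiv.sum_comp (((Equiv.refl (Fin k)).prodCongr w).symm.arrowCongr
      (Equiv.refl (Option A)))
      (fun ψ => Th ψ * mm ψ (fun r => (Matrix.of fun a b => if w a = b then (1 : K) else 0) * B r))
    rw [← h2]
    refine Finset.sum_congr rfl fun φ _ => ?_
    have h3 : (((Equiv.refl (Fin k)).prodCongr w).symm.arrowCongr (Equiv.refl (Option A))) φ
        = fun x => φ (x.1, w x.2) := rfl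
    rw [h3, gd4_mm_left]
    congr 2
    funext x
    simp
  have h3 := fT_ext _ _ (fun B => (h1 B).trans ((h0 B).trans (h2 B).symm))
  have h4 := congrFun h3 (fun x => ψ (x.1, w.symm x.2))
  simpa using h4

/-- `psi` under relabelling by `w` with `w D = D` -/
theorem psi_relabel (D : Finset A) (π : Perm A) (ρ : A → Fin k) (w : Perm A)
    (hw : ∀ a, a ∈ D ↔ w a ∈ D) :
    (fun x : Fin k × A => (psi D π ρ (x.1, w.symm x.2)).map w) =
      psi D (w * π * w⁻¹) (fun a => ρ (w.symm a)) := by
  funext x
  unfold psi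
  have h1 : (w * π * w⁻¹).symm x.2 = w (π.symm (w.symm x.2)) := by
    rw [Equiv.symm_apply_eq]
    simp
  rw [h1]
  simp only [Equiv.symm_apply_apply]
  by_cases h : π.symm (w.symm x.2) ∈ D ∧ ρ (π.symm (w.symm x.2)) = x.1
  · rw [if_pos h, if_pos ⟨(hw _).1 h.1, h.2⟩]; rfl
  · rw [if_neg h, if_neg (fun h' => h ⟨(hw _).2 h'.1, h'.2⟩)]; rfl

/-- exchange of two columns in the same copy: `AltC` gives a sign -/
theorem Th_swap (Th : (Fin k × A → Option A) → K) (h : AltC Th) (D : Finset A) (π : Perm A)
    (ρ : A → Fin k) (b b' : A) (hb : b ∈ D) (hb' : b' ∈ D) (hne : b ≠ b') (hρ : ρ b = ρ b') :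
    Th (psi D (π * swap b b') ρ) = - Th (psi D π ρ) := by
  have h1 : psi D π ρ (ρ b, π b) = some b := by
    unfold psi
    simp [hb]
  have h2 : psi D π ρ (ρ b, π b') = some b' := by
    unfold psi
    simp [hb', hρ]
  have h3 := h.1 (psi D π ρ) (ρ b) (π b) (π b') (fun e => hne (π.injective e))
    (by rw [h1]; simp) (by rw [h2]; simp)
  rw [← h3]
  congr 1
  funext x
  obtain ⟨r, a⟩ := x
  have h4 : (π * swap b b').symm a = swap b b' (π.symm a) := by
    rw [Equiv.symm_apply_eq]
    simp
  rw [Function.comp_apply]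
  by_cases e1 : a = π b
  · subst e1
    by_cases e2 : r = ρ b
    · subst e2
      rw [swap_apply_left, h2]
      unfold psi
      rw [h4]
      simp [hb', hρ]
    · rw [swap_apply_of_ne_of_ne]
      · unfold psi
        rw [h4]
        simp only [Equiv.symm_apply_apply, swap_apply_left]
        rw [if_neg (fun e => e2 (by rw [hρ]; exact e.2.symm)), if_neg (fun e => e2 e.2.symm)]
      · intro e; exact e2 (congrArg Prod.fst e)
      · intro e; exact e2 (congrArg Prod.fst e)
  · by_cases e3 : a = π b'
    · subst e3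
      by_cases e2 : r = ρ b
      · subst e2
        rw [swap_apply_right, h1]
        unfold psi
        rw [h4]
        simp [hb]
      · rw [swap_apply_of_ne_of_ne]
        · unfold psi
          rw [h4]
          simp only [Equiv.symm_apply_apply, swap_apply_right]
          rw [if_neg (fun e => e2 e.2.symm), if_neg (fun e => e2 (by rw [hρ]; exact e.2.symm))]
        · intro e; exact e2 (congrArg Prod.fst e)
        · intro e; exact e2 (congrArg Prod.fst e)
    · have e5 : π.symm a ≠ b := fun e => e1 (by rw [← e, Equiv.apply_symm_apply])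
      have e6 : π.symm a ≠ b' := fun e => e3 (by rw [← e, Equiv.apply_symm_apply])
      rw [swap_apply_of_ne_of_ne]
      · unfold psi
        rw [h4]
        simp only
        rw [swap_apply_of_ne_of_ne e5 e6]
      · intro e; exact e1 (congrArg Prod.snd e)
      · intro e; exact e3 (congrArg Prod.snd e)

theorem gd4_kappa_aux (Th : (Fin k × A → Option A) → K) (h : AltC Th) (D : Finset A) (π : Perm A)
    (ρ : A → Fin k) (n : ℕ) : ∀ κ : Perm A, κ.support.card = n → (∀ a, a ∉ D → κ a = a) →
    (∀ a ∈ D, ρ (κ a) = ρ a) → (((Perm.sign (π * κ) : ℤˣ) : ℤ) : K) * Th (psi D (π * κ) ρ) =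
      (((Perm.sign π : ℤˣ) : ℤ) : K) * Th (psi D π ρ) := by
  induction n using Nat.strong_induction_on with
  | _ n ih =>
    intro κ hn hκ hρ
    by_cases h1 : κ = 1
    · subst h1; rw [mul_one]
    · obtain ⟨b, hb⟩ : ∃ b, κ b ≠ b := by
        by_contra hcon
        push Not at hcon
        exact h1 (Equiv.ext hcon)
      set c := κ.symm b with hc
      have hcb : κ c = b := κ.apply_symm_apply b
      have hne : b ≠ c := by
        intro e
        rw [← e] at hcb
        exact hb hcb
      have hbD : b ∈ D := by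
        by_contra h2; exact hb (hκ b h2)
      have hcD : c ∈ D := by
        by_contra h2
        have h3 := hκ c h2
        rw [hcb] at h3
        exact hne h3
      have hρbc : ρ b = ρ c := by
        have := hρ c hcD
        rw [hcb] at this
        exact this
      set κ' := κ * swap b c with hκ'
      have hb' : κ' b = b := by
        rw [hκ', Perm.mul_apply, swap_apply_left, hcb]
      have hsub : κ'.support ⊆ κ.support.erase b := by
        intro a ha
        rw [Perm.mem_support] at ha
        rw [Finset.mem_erase, Perm.mem_support]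
        have hab : a ≠ b := fun e => ha (by rw [e]; exact hb')
        refine ⟨hab, fun e => ha ?_⟩
        have hac : a ≠ c := by
          intro e2
          rw [e2, hcb] at e
          exact hne e
        rw [hκ', Perm.mul_apply, swap_apply_of_ne_of_ne hab hac, e]
      have hcard : κ'.support.card < n := by
        have h2 := Finset.card_le_card hsub
        have h3 : b ∈ κ.support := Perm.mem_support.2 hb
        have h4 := Finset.card_erase_lt_of_mem h3
        omega
      have h5 := ih _ hcard κ' rfl (by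
        intro a ha
        have hab : a ≠ b := fun e => ha (by rw [e]; exact hbD)
        have hac : a ≠ c := fun e => ha (by rw [e]; exact hcD)
        rw [hκ', Perm.mul_apply, swap_apply_of_ne_of_ne hab hac, hκ a ha]) (by
        intro a ha
        by_cases hab : a = b
        · rw [hab, hb']
        · by_cases hac : a = c
          · rw [hac, hκ', Perm.mul_apply, swap_apply_right, hρ b hbD, hρbc]
          · rw [hκ', Perm.mul_apply, swap_apply_of_ne_of_ne hab hac, hρ a ha])
      have h6 : κ = κ' * swap b c := by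
        rw [hκ', mul_assoc, Equiv.swap_mul_self, mul_one]
      rw [h6, ← mul_assoc, Th_swap Th h D (π * κ') ρ b c hbD hcD hne hρbc, ← h5,
        Perm.sign_mul, Perm.sign_swap hne]
      push_cast
      ring

/-- hence `sgn(π κ) Th(psi (π κ) ρ) = sgn π Th(psi π ρ)` for all permutations `κ` of `D` with `ρ κ = ρ` on `D`
(`κ` is a product of transpositions of this form) -/
theorem Th_kappa (Th : (Fin k × A → Option A) → K) (h : AltC Th) (D : Finset A) (π κ : Perm A)
    (ρ : A → Fin k) (hκ : ∀ a, a ∉ D → κ a = a) (hρ : ∀ a ∈ D, ρ (κ a) = ρ a) :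
    (((Perm.sign (π * κ) : ℤˣ) : ℤ) : K) * Th (psi D (π * κ) ρ) =
      (((Perm.sign π : ℤˣ) : ℤ) : K) * Th (psi D π ρ) :=
  gd4_kappa_aux Th h D π ρ _ κ rfl hκ hρ

theorem gd4_psi_congr (D : Finset A) (π : Perm A) (ρ ρ' : A → Fin k) (h : ∀ a ∈ D, ρ a = ρ' a) :
    psi D π ρ = psi D π ρ' := by
  funext x
  unfold psi
  by_cases h1 : π.symm x.2 ∈ D
  · rw [h _ h1]
  · rw [if_neg (fun e => h1 e.1), if_neg (fun e => h1 e.1)]

theorem gd4_exists_w {T : Type} [DecidableEq T] (D : Finset A) (f g : A → T)
    (h : ∀ v, (D.filter fun e => f e = v).card = (D.filter fun e => g e = v).card) :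
    ∃ w : Perm A, (∀ a, a ∉ D → w a = a) ∧ (∀ a ∈ D, w a ∈ D ∧ g (w a) = f a) := by
  classical
  have h1 : ∀ v : T, Nonempty ({x : {a // a ∈ D} // f x.1 = v} ≃ {x : {a // a ∈ D} // g x.1 = v}) := by
    intro v
    have e : ∀ q : A → T, Fintype.card {x : {a // a ∈ D} // q x.1 = v}
        = (D.filter fun e => q e = v).card := by
      intro q
      rw [← Fintype.card_coe]
      refine Fintype.card_congr ?_
      exact { toFun := fun x => ⟨x.1.1, Finset.mem_filter.2 ⟨x.1.2, x.2⟩⟩
              invFun := fun x => ⟨⟨x.1, (Finset.mem_filter.1 x.2).1⟩, (Finset.mem_filter.1 x.2).2⟩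
              left_inv := fun x => rfl
              right_inv := fun x => rfl }
    exact ⟨Fintype.equivOfCardEq (by rw [e, e, h v])⟩
  let w0 : Perm {a // a ∈ D} := Equiv.ofFiberEquiv (f := fun x : {a // a ∈ D} => f x.1)
    (g := fun x : {a // a ∈ D} => g x.1) (fun v => (h1 v).some)
  have hw0 : ∀ x : {a // a ∈ D}, g (w0 x).1 = f x.1 := fun x =>
    Equiv.ofFiberEquiv_map (f := fun x : {a // a ∈ D} => f x.1)
      (g := fun x : {a // a ∈ D} => g x.1) (fun v => (h1 v).some) x
  refine ⟨Perm.ofSubtype w0, fun a ha => Perm.ofSubtype_apply_of_not_mem w0 ha, fun a ha => ?_⟩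
  rw [Perm.ofSubtype_apply_of_mem w0 ha]
  exact ⟨(w0 ⟨a, ha⟩).2, hw0 ⟨a, ha⟩⟩

/-- WELL DEFINED.  PROOF.  From `mPR` equal there is a permutation `w` of `D` (identity outside) with `c w = c`,
`ρ' w = ρ`, `ρ' π'⁻¹ w = ρ π⁻¹` on `D` (a bijection between the fibres of the two labellings
`e ↦ (c e, ρ e, ρ (π⁻¹ e))`).  `Th(psi π ρ) = Th(psi (w π w⁻¹) (ρ w⁻¹))` and `ρ w⁻¹ = ρ'` on `D`,
`w π w⁻¹ = π' κ` with `ρ' κ = ρ'` on `D`; `Th_kappa`. -/
theorem well_defined (c : A → S) (Th : (Fin k × A → Option A) → K) (h : LI c Th) (h' : AltC Th)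
    (D : Finset A) (π π' : Perm A) (ρ ρ' : A → Fin k) (hπ : ∀ a, a ∉ D → π a = a)
    (hπ' : ∀ a, a ∉ D → π' a = a) (hm : mPR c D π ρ = mPR c D π' ρ') :
    (((Perm.sign π : ℤˣ) : ℤ) : K) * Th (psi D π ρ) =
      (((Perm.sign π' : ℤˣ) : ℤ) : K) * Th (psi D π' ρ') := by
  obtain ⟨w, hw1, hw2⟩ := gd4_exists_w D (fun e => (c e, ρ e, ρ (π.symm e)))
    (fun e => (c e, ρ' e, ρ' (π'.symm e))) (by
      intro v
      have h1 := congrFun hm v
      unfold mPR at h1
      simpa only [Prod.ext_iff] using h1)
  have hwD : ∀ a, a ∈ D ↔ w a ∈ D := by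
    intro a
    constructor
    · intro ha; exact (hw2 a ha).1
    · intro ha
      by_contra hcon
      rw [hw1 a hcon] at ha
      exact hcon ha
  have hwc : ∀ a, c (w a) = c a := by
    intro a
    by_cases ha : a ∈ D
    · exact congrArg Prod.fst (hw2 a ha).2
    · rw [hw1 a ha]
  have hwr : ∀ a ∈ D, ρ' (w a) = ρ a := fun a ha =>
    congrArg (fun v => v.2.1) (hw2 a ha).2
  have hws : ∀ a ∈ D, ρ' (π'.symm (w a)) = ρ (π.symm a) := fun a ha =>
    congrArg (fun v => v.2.2) (hw2 a ha).2
  have hsymm : ∀ a ∈ D, w.symm a ∈ D := by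
    intro a ha
    rw [hwD, Equiv.apply_symm_apply]; exact ha
  have h1 : Th (psi D π ρ) = Th (psi D (w * π * w⁻¹) ρ') := by
    rw [← Th_relabel c Th h w hwc (psi D π ρ), psi_relabel D π ρ w hwD]
    congr 1
    refine gd4_psi_congr D _ _ _ (fun a ha => ?_)
    have := hwr (w.symm a) (hsymm a ha)
    rw [Equiv.apply_symm_apply] at this
    exact this.symm
  set κ := π'⁻¹ * (w * π * w⁻¹) with hκ
  have h2 : w * π * w⁻¹ = π' * κ := by rw [hκ, mul_inv_cancel_left]
  have hπD : ∀ a ∈ D, π a ∈ D := by
    intro a ha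
    by_contra hcon
    have h3 := hπ _ hcon
    have h4 := π.injective h3
    rw [h4] at hcon
    exact hcon ha
  have h3 := Th_kappa Th h' D π' κ ρ' (by
    intro a ha
    have e1 : w⁻¹ a = a := by
      rw [Perm.inv_eq_iff_eq, hw1 a ha]
    have e2 : π'⁻¹ a = a := by
      rw [Perm.inv_eq_iff_eq, hπ' a ha]
    rw [hκ, Perm.mul_apply, Perm.mul_apply, Perm.mul_apply, e1, hπ a ha, hw1 a ha, e2]) (by
    intro a ha
    have e3 := hws (π (w.symm a)) (hπD _ (hsymm a ha))
    rw [Equiv.symm_apply_apply] at e3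
    have e4 := hwr (w.symm a) (hsymm a ha)
    rw [Equiv.apply_symm_apply] at e4
    rw [e4, ← e3]
    rfl)
  rw [h1, h2, ← h3, ← h2]
  congr 3
  rw [Perm.sign_mul, Perm.sign_mul, Perm.sign_inv]
  rcases Int.units_eq_one_or (Perm.sign w) with e | e <;> rw [e] <;> simp

end Pool.PI34.GD
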