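import Pool.Agent.LibPI34.GD_2
import Pool.Agent.LibPI34.GD_3
import Pool.Agent.LibPI34.GD_4

/-! PI34, block A5 (GEN), part D, file 5: one content. -/

set_option autoImplicit false
set_option linter.unusedSectionVars false

namespace Pool.PI34.GD

open Equiv Finset Matrix

variable {A S : Type} [Fintype A] [DecidableEq A] [Fintype S] [DecidableEq S] {k : ℕ}
variable {K : Type} [Field K] [Infinite K]

omit [Infinite K] in
/-- values at matrices with constant entries -/
theorem mm_mapC (ψ : Fin k × A → Option A) (B : Fin k → Matrix A A K) :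
    mm ψ (fun r => (B r).map (MvPolynomial.C (σ := S × Fin k × Fin k))) =
      MvPolynomial.C (mm ψ B) := by
  unfold mm
  rw [map_prod]
  refine Finset.prod_congr rfl fun x _ => ?_
  cases ψ x <;> simp

omit [Infinite K] in
/-- coefficients of a value -/
theorem coeff_fT (T : (Fin k × A → Option A) → MvPolynomial (S × Fin k × Fin k) K)
    (B : Fin k → Matrix A A K) (m : S × Fin k × Fin k →₀ ℕ) :
    (fT T (fun r => (B r).map (MvPolynomial.C (σ := S × Fin k × Fin k)))).coeff m =
      fT (fun ψ => (T ψ).coeff m) B := by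
  unfold fT
  rw [MvPolynomial.coeff_sum]
  refine Finset.sum_congr rfl fun ψ _ => ?_
  rw [mm_mapC, mul_comm, MvPolynomial.coeff_C_mul, mul_comm]

omit [Infinite K] in
/-- the coefficients of `ThX` satisfy `LI` -/
theorem LI_coeff (c : A → S) (m : S × Fin k × Fin k →₀ ℕ) :
    LI c (fun ψ => (ThX c (genX S k K) ψ).coeff m) := by
  intro g hg B
  have h := ThX_LI c (genX S k K) (g.map (MvPolynomial.C (σ := S × Fin k × Fin k)))
    (fun a b hab => by simp [hg a b hab])
    (fun r => (B r).map (MvPolynomial.C (σ := S × Fin k × Fin k)))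
  have h1 := congrArg (fun p => MvPolynomial.coeff m p) h
  have e1 : (fun r => (B r).map (MvPolynomial.C (σ := S × Fin k × Fin k)) *
      g.map (MvPolynomial.C (σ := S × Fin k × Fin k))) =
      fun r => (B r * g).map (MvPolynomial.C (σ := S × Fin k × Fin k)) := by
    funext r
    rw [Matrix.map_mul]
  have e2 : (fun r => g.map (MvPolynomial.C (σ := S × Fin k × Fin k)) *
      (B r).map (MvPolynomial.C (σ := S × Fin k × Fin k))) =
      fun r => (g * B r).map (MvPolynomial.C (σ := S × Fin k × Fin k)) := by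
    funext r
    rw [Matrix.map_mul]
  rw [e1, e2] at h1
  change MvPolynomial.coeff m _ = MvPolynomial.coeff m _ at h1
  rw [coeff_fT, coeff_fT] at h1
  exact h1

omit [Infinite K] [Fintype S] [DecidableEq S] in
/-- linearity of `fT` in the coefficients -/
theorem fT_sum {ι : Type} (M : Finset ι) (y : ι → K) (T : ι → (Fin k × A → Option A) → K)
    (B : Fin k → Matrix A A K) :
    fT (fun ψ => ∑ m ∈ M, y m * T m ψ) B = ∑ m ∈ M, y m * fT (T m) B := by
  unfold fT
  simp only [Finset.sum_mul, Finset.mul_sum]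
  rw [Finset.sum_comm]
  refine Finset.sum_congr rfl fun m _ => Finset.sum_congr rfl fun ψ _ => ?_
  ring

omit [Infinite K] in
/-- the content of `mPR` -/
theorem sum_mPR (c : A → S) (D : Finset A) (π : Perm A) (ρ : A → Fin k) (s : S) :
    ∑ r, ∑ t, mPR c D π ρ (s, r, t) = (D.filter fun b => c b = s).card := by
  unfold mPR
  simp only
  rw [Finset.card_eq_sum_ones (D.filter fun b => c b = s)]
  simp only [Finset.card_eq_sum_ones, Finset.sum_filter]
  calc ∑ r, ∑ t, ∑ e ∈ D, (if c e = s ∧ ρ e = r ∧ ρ (π.symm e) = t then 1 else 0)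
      = ∑ r, ∑ e ∈ D, ∑ t, (if c e = s ∧ ρ e = r ∧ ρ (π.symm e) = t then 1 else 0) :=
        Finset.sum_congr rfl fun r _ => Finset.sum_comm
    _ = ∑ e ∈ D, ∑ r, ∑ t, (if c e = s ∧ ρ e = r ∧ ρ (π.symm e) = t then 1 else 0) :=
        Finset.sum_comm
    _ = ∑ e ∈ D, (if c e = s then 1 else 0) := by
        refine Finset.sum_congr rfl fun e _ => ?_
        by_cases h : c e = s
        · simp [h, ite_and]
        · simp [h]

/-- PROOF.  `co m := sgn π Th(psi π ρ)` for any `(π, ρ)` (`π` supported in `D`) with `mPR = m`, `0` if there is none (well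
defined: `well_defined`).  `Th' ψ := Σ_m co m * coeff m (ThX gen ψ)` satisfies `LI` (`ThX_LI`), has content `d`
(`ThX_content`; `Σ_{rt} mPR (s, r, t) = #{b ∈ D : c b = s} = d s`), and agrees with `Th` on the `psi D π ρ`
(`ThX_psi_gen`); `unique` for `Th - Th'`; then `fT_ThX`. -/
theorem hom_span (c : A → S) (Th : (Fin k × A → Option A) → K) (h : LI c Th) (h' : AltC Th)
    (d : S → ℕ) (hd : ∀ ψ, Th ψ ≠ 0 → ct c ψ = d) (D : Finset A)
    (hD : ∀ s, (D.filter fun b => c b = s).card = d s) :
    ∃ co : (S × Fin k × Fin k →₀ ℕ) →₀ K, ∀ B : Matrix A A K,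
      fT Th (fun _ => B) = co.sum fun m y =>
        y * ((1 + MX c (genX S k K) (fun _ => B.map MvPolynomial.C)).det).coeff m := by
  classical
  rcases Nat.eq_zero_or_pos k with hk0 | hk
  · subst hk0
    refine ⟨Finsupp.single 0 (Th (fun x => x.1.elim0)), fun B => ?_⟩
    rw [Finsupp.sum_single_index (by simp)]
    haveI : IsEmpty (Fin 0 × A) := ⟨fun x => x.1.elim0⟩
    rw [Matrix.det_isEmpty]
    unfold fT mm
    rw [Fintype.sum_subsingleton _ (fun x => x.1.elim0)]
    simp
  let q : Perm A × (A → Fin k) → (S × Fin k × Fin k →₀ ℕ) :=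
    fun p => Finsupp.equivFunOnFinite.symm (mPR c D p.1 p.2)
  let P : (S × Fin k × Fin k →₀ ℕ) → Prop :=
    fun m => ∃ p : Perm A × (A → Fin k), (∀ a, a ∉ D → p.1 a = a) ∧ q p = m
  let cof : (S × Fin k × Fin k →₀ ℕ) → K :=
    fun m => if hm : P m then
      (((Perm.sign hm.choose.1 : ℤˣ) : ℤ) : K) * Th (psi D hm.choose.1 hm.choose.2) else 0
  have hcof : ∀ (π : Perm A) (ρ : A → Fin k), (∀ a, a ∉ D → π a = a) →
      cof (q (π, ρ)) = (((Perm.sign π : ℤˣ) : ℤ) : K) * Th (psi D π ρ) := by
    intro π ρ hπ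
    have hm : P (q (π, ρ)) := ⟨(π, ρ), hπ, rfl⟩
    have hs := hm.choose_spec
    have hc : cof (q (π, ρ)) =
        (((Perm.sign hm.choose.1 : ℤˣ) : ℤ) : K) * Th (psi D hm.choose.1 hm.choose.2) := by
      simp only [cof]
      rw [dif_pos hm]
    rw [hc]
    refine well_defined c Th h h' D _ _ _ _ hs.1 hπ ?_
    have := hs.2
    simp only [q] at this
    exact Finsupp.equivFunOnFinite.symm.injective this
  let M : Finset (S × Fin k × Fin k →₀ ℕ) := Finset.univ.image q
  have hM : ∀ m, cof m ≠ 0 → m ∈ M := by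
    intro m hm
    by_contra hc
    apply hm
    have : ¬ P m := by
      rintro ⟨p, _, hp⟩
      exact hc (Finset.mem_image.2 ⟨p, Finset.mem_univ _, hp⟩)
    simp only [cof]
    rw [dif_neg this]
  let Th' : (Fin k × A → Option A) → K :=
    fun ψ => ∑ m ∈ M, cof m * (ThX c (genX S k K) ψ).coeff m
  -- fT of Th'
  have hfT : ∀ B : Fin k → Matrix A A K, fT Th' B =
      ∑ m ∈ M, cof m * fT (fun ψ => (ThX c (genX S k K) ψ).coeff m) B := by
    intro B
    exact fT_sum M cof (fun m ψ => (ThX c (genX S k K) ψ).coeff m) B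
  have hLI' : LI c Th' := by
    intro g hg B
    rw [hfT, hfT]
    refine Finset.sum_congr rfl fun m _ => ?_
    rw [LI_coeff c m g hg B]
  have hct' : ∀ ψ, Th' ψ ≠ 0 → ct c ψ = d := by
    intro ψ hψ
    obtain ⟨m, -, hm⟩ := Finset.exists_ne_zero_of_sum_ne_zero hψ
    have h1 : cof m ≠ 0 := left_ne_zero_of_mul hm
    have h2 : (ThX c (genX S k K) ψ).coeff m ≠ 0 := right_ne_zero_of_mul hm
    have hP : P m := by
      by_contra hc
      apply h1
      simp only [cof]
      rw [dif_neg hc]
    obtain ⟨p, -, hp⟩ := hP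
    funext s
    rw [ThX_content c K ψ m h2 s, ← hp, ← hD s, ← sum_mPR c D p.1 p.2 s]
    rfl
  have hpsi : ∀ (π : Perm A) (ρ : A → Fin k), (∀ a, a ∉ D → π a = a) →
      Th' (psi D π ρ) = Th (psi D π ρ) := by
    intro π ρ hπ
    have hmem : q (π, ρ) ∈ M := Finset.mem_image.2 ⟨(π, ρ), Finset.mem_univ _, rfl⟩
    simp only [Th']
    rw [ThX_psi_gen c K D π hπ ρ]
    rw [Finset.sum_eq_single_of_mem (q (π, ρ)) hmem]
    · rw [hcof π ρ hπ, MvPolynomial.coeff_monomial, if_pos rfl]
      have hs : (((Perm.sign π : ℤˣ) : ℤ) : K) * (((Perm.sign π : ℤˣ) : ℤ) : K) = 1 := by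
        rcases Int.units_eq_one_or (Perm.sign π) with hh | hh <;> simp [hh]
      calc (((Perm.sign π : ℤˣ) : ℤ) : K) * Th (psi D π ρ) * (((Perm.sign π : ℤˣ) : ℤ) : K)
          = ((((Perm.sign π : ℤˣ) : ℤ) : K) * (((Perm.sign π : ℤˣ) : ℤ) : K)) *
              Th (psi D π ρ) := by ring
        _ = Th (psi D π ρ) := by rw [hs, one_mul]
    · intro m _ hne
      rw [MvPolynomial.coeff_monomial, if_neg, mul_zero]
      exact fun hh => hne hh.symm
  have hsub : ∀ ψ, (Th - Th') ψ = 0 := by
    refine unique c (Th - Th') ?_ d ?_ D hD ?_ hk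
    · intro g hg B
      have e : ∀ B : Fin k → Matrix A A K, fT (Th - Th') B = fT Th B - fT Th' B := by
        intro B
        unfold fT
        rw [← Finset.sum_sub_distrib]
        refine Finset.sum_congr rfl fun ψ _ => ?_
        simp only [Pi.sub_apply]
        ring
      rw [e, e, h g hg B, hLI' g hg B]
    · intro ψ hψ
      by_cases h1 : Th ψ = 0
      · apply hct'
        intro h2
        apply hψ
        simp [h1, h2]
      · exact hd ψ h1
    · intro π ρ hπ
      simp only [Pi.sub_apply]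
      rw [hpsi π ρ hπ, sub_self]
  have hTh : Th = Th' := by
    funext ψ
    have := hsub ψ
    simp only [Pi.sub_apply] at this
    exact sub_eq_zero.1 this
  refine ⟨Finsupp.onFinset M cof hM, fun B => ?_⟩
  rw [Finsupp.onFinset_sum hM (fun m => by simp)]
  rw [show fT Th (fun _ => B) = fT Th' (fun _ => B) by rw [← hTh], hfT]
  refine Finset.sum_congr rfl fun m _ => ?_
  congr 1
  rw [← coeff_fT, fT_ThX]

end Pool.PI34.GD
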