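import Mathlib

/-!
PI34, block H4, file 1: functions on words, the action of permutations, the operators that turn
letters into letters, highest weight vectors.
-/

set_option autoImplicit false
set_option linter.unusedSectionVars false
set_option linter.unusedDecidableInType false
set_option linter.unusedFintypeInType false

namespace Pool.PI34.H4

open Equiv Finset

/-- Functions on words: the tensor power. -/
abbrev W (N : ℕ) (α : Type) : Type := (α → Fin N) → ℚ

section basic

variable {N : ℕ} {α : Type} [Fintype α] [DecidableEq α]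

/-- The action of a permutation of the places. -/
def rhoFun (σ : Perm α) : W N α →ₗ[ℚ] W N α where
  toFun f := fun w => f (w ∘ σ)
  map_add' _ _ := rfl
  map_smul' _ _ := rfl

variable (N α)

/-- The action of the permutations of the places. -/
def rho : Perm α →* Module.End ℚ (W N α) where
  toFun := rhoFun
  map_one' := rfl
  map_mul' _ _ := rfl

/-- The action of the group algebra. -/
noncomputable def act : MonoidAlgebra ℤ (Perm α) →ₐ[ℤ] Module.End ℚ (W N α) :=
  MonoidAlgebra.lift ℤ _ _ (rho N α)

variable {N α}

theorem rho_apply (σ : Perm α) (f : W N α) (w : α → Fin N) : rho N α σ f w = f (w ∘ σ) := rfl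

theorem act_single (σ : Perm α) (a : ℤ) :
    act N α (MonoidAlgebra.single σ a) = a • rho N α σ := by
  simp [act, MonoidAlgebra.lift_single]

theorem act_of (σ : Perm α) : act N α (MonoidAlgebra.of ℤ _ σ) = rho N α σ := by
  simp [act]

/-- The operator that turns the letter `b` into the letter `a`. -/
def EE (a b : Fin N) : W N α →ₗ[ℚ] W N α where
  toFun f := fun w => ∑ x, if w x = a then f (Function.update w x b) else 0
  map_add' f g := by
    funext w
    simp only [Pi.add_apply]
    rw [← Finset.sum_add_distrib]
    exact Finset.sum_congr rfl (fun x _ => by split_ifs <;> simp)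
  map_smul' c f := by
    funext w
    simp only [Pi.smul_apply, smul_eq_mul, RingHom.id_apply]
    rw [Finset.mul_sum]
    exact Finset.sum_congr rfl (fun x _ => by split_ifs <;> simp)

theorem EE_apply (a b : Fin N) (f : W N α) (w : α → Fin N) :
    EE a b f w = ∑ x, if w x = a then f (Function.update w x b) else 0 := rfl

/-- Number of occurrences of a letter. -/
def cnt (w : α → Fin N) (a : Fin N) : ℕ := (univ.filter (fun x => w x = a)).card

theorem EE_self (a : Fin N) (f : W N α) (w : α → Fin N) : EE a a f w = cnt w a * f w := by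
  rw [EE_apply]
  have h1 : ∀ x, (if w x = a then f (Function.update w x a) else 0) =
      if w x = a then f w else 0 := by
    intro x
    split_ifs with h
    · rw [← h, Function.update_eq_self]
    · rfl
  rw [Finset.sum_congr rfl (fun x _ => h1 x), ← Finset.sum_filter, Finset.sum_const, nsmul_eq_mul]
  rfl

theorem update_comp_perm (w : α → Fin N) (σ : Perm α) (x : α) (b : Fin N) :
    (Function.update w (σ x) b) ∘ σ = Function.update (w ∘ σ) x b := by
  funext y
  simp only [Function.comp_apply]
  by_cases h : y = x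
  · subst h
    simp
  · rw [Function.update_of_ne h, Function.update_of_ne (fun e => h (σ.injective e))]
    rfl

theorem EE_rho (a b : Fin N) (σ : Perm α) (f : W N α) :
    EE a b (rho N α σ f) = rho N α σ (EE a b f) := by
  funext w
  rw [rho_apply, EE_apply, EE_apply]
  refine (Equiv.sum_comp σ _).symm.trans ?_
  refine Finset.sum_congr rfl (fun x _ => ?_)
  rw [rho_apply, update_comp_perm]
  rfl

theorem EE_act (a b : Fin N) (y : MonoidAlgebra ℤ (Perm α)) (f : W N α) :
    EE a b (act N α y f) = act N α y (EE a b f) := by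
  induction y using MonoidAlgebra.induction_on with
  | of σ => rw [act_of]; exact EE_rho a b σ f
  | add x y hx hy => rw [map_add, LinearMap.add_apply, map_add, hx, hy]; rfl
  | smul r x hx =>
    rw [map_smul, LinearMap.smul_apply, map_zsmul, hx]
    rfl

/-- The scalar product. -/
def ip (f g : W N α) : ℚ := ∑ w, f w * g w

theorem ip_comm (f g : W N α) : ip f g = ip g f :=
  Finset.sum_congr rfl (fun _ _ => mul_comm _ _)

theorem ip_add_left (f g h : W N α) : ip (f + g) h = ip f h + ip g h := by
  unfold ip
  rw [← Finset.sum_add_distrib]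
  exact Finset.sum_congr rfl (fun w _ => by simp [add_mul])

theorem ip_smul_left (c : ℚ) (f g : W N α) : ip (c • f) g = c * ip f g := by
  unfold ip
  rw [Finset.mul_sum]
  exact Finset.sum_congr rfl (fun w _ => by simp [mul_assoc])

theorem ip_zsmul_left (c : ℤ) (f g : W N α) : ip (c • f) g = c * ip f g := by
  unfold ip
  rw [Finset.mul_sum]
  exact Finset.sum_congr rfl (fun w _ => by simp [mul_assoc])

theorem ip_zsmul_right (c : ℤ) (f g : W N α) : ip f (c • g) = c * ip f g := by
  rw [ip_comm, ip_zsmul_left, ip_comm]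

theorem ip_add_right (f g h : W N α) : ip f (g + h) = ip f g + ip f h := by
  rw [ip_comm, ip_add_left, ip_comm, ip_comm h]

theorem ip_zero_left (g : W N α) : ip 0 g = 0 := by simp [ip]

theorem ip_zero_right (g : W N α) : ip g 0 = 0 := by simp [ip]

theorem ip_self_nonneg (f : W N α) : 0 ≤ ip f f :=
  Finset.sum_nonneg (fun w _ => mul_self_nonneg (f w))

theorem ip_self_eq_zero {f : W N α} (h : ip f f = 0) : f = 0 := by
  funext w
  have h1 := (Finset.sum_eq_zero_iff_of_nonneg (fun w _ => mul_self_nonneg (f w))).1 h w
    (mem_univ w)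
  exact mul_self_eq_zero.1 h1

theorem ip_EE (a b : Fin N) (f g : W N α) : ip (EE a b f) g = ip f (EE b a g) := by
  unfold ip
  simp only [EE_apply, Finset.sum_mul, Finset.mul_sum]
  rw [Finset.sum_comm, Finset.sum_comm (s := univ) (t := univ)
    (f := fun w x => f w * if w x = b then g (Function.update w x a) else 0)]
  refine Finset.sum_congr rfl (fun x _ => ?_)
  have h1 : ∀ w : α → Fin N, (if w x = a then f (Function.update w x b) else 0) * g w =
      if w x = a then f (Function.update w x b) * g w else 0 := fun w => by split_ifs <;> simp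
  have h2 : ∀ w : α → Fin N, f w * (if w x = b then g (Function.update w x a) else 0) =
      if w x = b then f w * g (Function.update w x a) else 0 := fun w => by split_ifs <;> simp
  rw [Finset.sum_congr rfl (fun w _ => h1 w), Finset.sum_congr rfl (fun w _ => h2 w),
    ← Finset.sum_filter, ← Finset.sum_filter]
  refine Finset.sum_bij' (fun w _ => Function.update w x b) (fun w _ => Function.update w x a)
    ?_ ?_ ?_ ?_ ?_
  · intro w _
    simp
  · intro w _
    simp
  · intro w hw
    rw [mem_filter] at hw
    rw [Function.update_idem, ← hw.2, Function.update_eq_self]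
  · intro w hw
    rw [mem_filter] at hw
    rw [Function.update_idem, ← hw.2, Function.update_eq_self]
  · intro w hw
    rw [mem_filter] at hw
    rw [Function.update_idem, ← hw.2, Function.update_eq_self]

theorem ip_rho (σ : Perm α) (f g : W N α) :
    ip (rho N α σ f) g = ip f (rho N α σ⁻¹ g) := by
  unfold ip
  refine Fintype.sum_equiv (Equiv.arrowCongr σ.symm (Equiv.refl (Fin N))) _ _ (fun w => ?_)
  have h1 : (Equiv.arrowCongr σ.symm (Equiv.refl (Fin N))) w = w ∘ σ := by
    funext x
    simp [Equiv.arrowCongr_apply]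
  rw [h1, rho_apply, rho_apply]
  congr 2
  funext x
  simp

/-! ### Highest weight vectors -/

/-- Highest weight vectors (of any weight). -/
def HW (u : W N α) : Prop := ∀ a b : Fin N, a < b → EE a b u = 0

/-- All words in the support have the same letters. -/
def OneW (u : W N α) : Prop := ∀ w w', u w ≠ 0 → u w' ≠ 0 → ∀ a, cnt w a = cnt w' a

theorem cnt_comp (w : α → Fin N) (σ : Perm α) (a : Fin N) : cnt (w ∘ σ) a = cnt w a := by
  unfold cnt
  refine Finset.card_bij (fun x _ => σ x) ?_ ?_ ?_
  · intro x hx
    rw [mem_filter] at hx ⊢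
    exact ⟨mem_univ _, hx.2⟩
  · intro x _ y _ h
    exact σ.injective h
  · intro x hx
    rw [mem_filter] at hx
    exact ⟨σ.symm x, by rw [mem_filter]; simp [hx.2], by simp⟩

theorem cnt_update (w : α → Fin N) (x : α) (b c : Fin N) :
    cnt (Function.update w x b) c + (if w x = c then 1 else 0) =
      cnt w c + (if b = c then 1 else 0) := by
  unfold cnt
  have h1 : ∀ u : α → Fin N, (univ.filter (fun y => u y = c)).card =
      (if u x = c then 1 else 0) + ((univ.erase x).filter (fun y => u y = c)).card := by
    intro u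
    rw [Finset.card_filter, Finset.card_filter, ← Finset.add_sum_erase _ _ (mem_univ x)]
  rw [h1 w, h1 (Function.update w x b), Function.update_self]
  have h2 : (univ.erase x).filter (fun y => Function.update w x b y = c) =
      (univ.erase x).filter (fun y => w y = c) := by
    apply Finset.filter_congr
    intro y hy
    rw [Function.update_of_ne (Finset.ne_of_mem_erase hy)]
  rw [h2]
  ring

/-- Sum of the letters. -/
def hgt (w : α → Fin N) : ℕ := ∑ x, (w x : ℕ)

theorem hgt_update (w : α → Fin N) (x : α) (b : Fin N) :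
    hgt (Function.update w x b) + (w x : ℕ) = hgt w + b := by
  unfold hgt
  rw [← Finset.add_sum_erase _ _ (mem_univ x),
    ← Finset.add_sum_erase univ (fun y => (w y : ℕ)) (mem_univ x), Function.update_self]
  have h2 : ∑ y ∈ univ.erase x, (Function.update w x b y : ℕ) = ∑ y ∈ univ.erase x, (w y : ℕ) :=
    Finset.sum_congr rfl (fun y hy => by rw [Function.update_of_ne (Finset.ne_of_mem_erase hy)])
  rw [h2]
  ring

theorem hgt_eq_of_cnt {w w' : α → Fin N} (h : ∀ a, cnt w a = cnt w' a) : hgt w = hgt w' := by
  have h1 : ∀ w : α → Fin N, hgt w = ∑ a : Fin N, (a : ℕ) * cnt w a := by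
    intro w
    unfold hgt cnt
    have : ∀ a : Fin N, (a : ℕ) * (univ.filter (fun x => w x = a)).card =
        ∑ x, if w x = a then (a : ℕ) else 0 := by
      intro a
      rw [Finset.card_filter, Finset.mul_sum]
      exact Finset.sum_congr rfl (fun x _ => by split_ifs <;> simp)
    rw [Finset.sum_congr rfl (fun a _ => this a), Finset.sum_comm]
    refine Finset.sum_congr rfl (fun x _ => ?_)
    rw [Finset.sum_ite_eq]
    simp
  rw [h1, h1]
  exact Finset.sum_congr rfl (fun a _ => by rw [h])

theorem EE_supp {a b : Fin N} {u : W N α} {w : α → Fin N} (h : EE a b u w ≠ 0) :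
    ∃ x, w x = a ∧ u (Function.update w x b) ≠ 0 := by
  rw [EE_apply] at h
  obtain ⟨x, _, hx⟩ := Finset.exists_ne_zero_of_sum_ne_zero h
  by_cases h1 : w x = a
  · rw [if_pos h1] at hx
    exact ⟨x, h1, hx⟩
  · rw [if_neg h1] at hx
    exact absurd rfl hx

theorem OneW.EE {u : W N α} (hu : OneW u) (a b : Fin N) : OneW (EE a b u) := by
  intro w w' hw hw' c
  obtain ⟨x, hx1, hx2⟩ := EE_supp hw
  obtain ⟨y, hy1, hy2⟩ := EE_supp hw'
  have h1 := hu _ _ hx2 hy2 c
  have h2 := cnt_update w x b c
  have h3 := cnt_update w' y b c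
  rw [hx1] at h2
  rw [hy1] at h3
  omega

theorem OneW.act {u : W N α} (hu : OneW u) (y : MonoidAlgebra ℤ (Perm α)) :
    OneW (act N α y u) := by
  -- the words of the given weight form a stable support
  by_cases h0 : u = 0
  · subst h0
    intro w w' hw
    exact absurd (by rw [map_zero]; rfl) hw
  · obtain ⟨w0, hw0⟩ : ∃ w, u w ≠ 0 := by
      by_contra hc
      push Not at hc
      exact h0 (funext hc)
    have key : ∀ w, H4.act N α y u w ≠ 0 → ∀ a, cnt w a = cnt w0 a := by
      induction y using MonoidAlgebra.induction_on with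
      | of σ =>
        intro w hw a
        rw [act_of, rho_apply] at hw
        rw [← hu _ _ hw hw0 a, cnt_comp]
      | add x y hx hy =>
        intro w hw a
        rw [map_add, LinearMap.add_apply, Pi.add_apply] at hw
        by_cases h1 : H4.act N α x u w = 0
        · rw [h1, zero_add] at hw
          exact hy w hw a
        · exact hx w h1 a
      | smul r x hx =>
        intro w hw a
        rw [map_smul, LinearMap.smul_apply, Pi.smul_apply] at hw
        exact hx w (fun h => hw (by rw [h, smul_zero])) a
    intro w w' hw hw' a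
    rw [key w hw, key w' hw']

theorem HW.act {u : W N α} (hu : HW u) (y : MonoidAlgebra ℤ (Perm α)) : HW (act N α y u) := by
  intro a b hab
  rw [EE_act, hu a b hab, map_zero]

/-- Stable subspaces contain highest weight vectors. -/
theorem exists_hw (S : Submodule ℚ (W N α)) (hS : ∀ a b f, f ∈ S → EE a b f ∈ S)
    (hne : S ≠ ⊥) : ∃ x ∈ S, x ≠ 0 ∧ HW x ∧ OneW x := by
  classical
  -- vectors of minimal support have one weight
  have h1 : ∃ x ∈ S, x ≠ 0 ∧ OneW x := by
    obtain ⟨x0, hx0, hx0'⟩ := Submodule.exists_mem_ne_zero_of_ne_bot hne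
    let P : ℕ → Prop := fun k => ∃ x ∈ S, x ≠ 0 ∧ (univ.filter (fun w => x w ≠ 0)).card = k
    have hP : ∃ k, P k := ⟨_, x0, hx0, hx0', rfl⟩
    obtain ⟨x, hx, hx', hk⟩ := Nat.find_spec hP
    refine ⟨x, hx, hx', fun w w' hw hw' a => ?_⟩
    by_contra hne'
    let x' := EE a a x - (cnt w a : ℚ) • x
    have e1 : ∀ v, x' v = ((cnt v a : ℚ) - cnt w a) * x v := by
      intro v
      change EE a a x v - (cnt w a : ℚ) * x v = _
      rw [EE_self]
      ring
    have hx'S : x' ∈ S := S.sub_mem (hS a a x hx) (S.smul_mem _ hx)
    have hx'0 : x' ≠ 0 := by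
      intro h
      have h2 := congrFun h w'
      rw [e1] at h2
      rcases mul_eq_zero.1 h2 with h3 | h3
      · apply hne'
        have h4 : (cnt w' a : ℚ) = cnt w a := by linarith
        exact_mod_cast h4.symm
      · exact hw' h3
    have h3 : (univ.filter (fun v => x' v ≠ 0)).card < Nat.find hP := by
      rw [← hk]
      apply Finset.card_lt_card
      refine ⟨fun v hv => ?_, fun hsub => ?_⟩
      · rw [mem_filter] at hv ⊢
        refine ⟨mem_univ _, fun h => hv.2 ?_⟩
        rw [e1, h, mul_zero]
      · have h4 := hsub (mem_filter.2 ⟨mem_univ w, hw⟩)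
        rw [mem_filter] at h4
        exact h4.2 (by rw [e1, sub_self, zero_mul])
    exact Nat.find_min hP h3 ⟨x', hx'S, hx'0, rfl⟩
  obtain ⟨x0, hx0, hx0', hx0''⟩ := h1
  let P : ℕ → Prop := fun k => ∃ x ∈ S, OneW x ∧ ∃ w, x w ≠ 0 ∧ hgt w = k
  have hP : ∃ k, P k := by
    obtain ⟨w, hw⟩ : ∃ w, x0 w ≠ 0 := by
      by_contra hc
      push Not at hc
      exact hx0' (funext hc)
    exact ⟨_, x0, hx0, hx0'', w, hw, rfl⟩
  obtain ⟨x, hx, hx1, w, hw, hk⟩ := Nat.find_spec hP
  refine ⟨x, hx, fun h => hw (by rw [h]; rfl), fun a b hab => ?_, hx1⟩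
  by_contra hne'
  obtain ⟨v, hv⟩ : ∃ v, EE a b x v ≠ 0 := by
    by_contra hc
    push Not at hc
    exact hne' (funext hc)
  obtain ⟨i, hi, hi'⟩ := EE_supp hv
  have h2 := hgt_update v i b
  rw [hi] at h2
  have h3 := hgt_eq_of_cnt (hx1 _ _ hi' hw)
  have h4 : hgt v < Nat.find hP := by
    rw [← hk, ← h3]
    have : (a : ℕ) < b := hab
    omega
  exact Nat.find_min hP h4 ⟨_, hS a b x hx, hx1.EE a b, v, hv, rfl⟩

end basic

end Pool.PI34.H4
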