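import Pool.Agent.LibPI34.H4_Base

/-!
PI34, block H4, file 2: the group algebra, signed sums, the subgroup `J`, embeddings.
-/

set_option autoImplicit false
set_option linter.unusedSectionVars false
set_option linter.unusedDecidableInType false
set_option linter.unusedFintypeInType false

namespace Pool.PI34.H4

open Equiv Finset

/-- The integral group algebra of the permutations of a finite set. -/
abbrev P (α : Type) : Type := MonoidAlgebra ℤ (Perm α)

/-- A permutation as an element of the group algebra. -/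
noncomputable abbrev g {α : Type} (σ : Perm α) : P α := MonoidAlgebra.of ℤ (Perm α) σ

theorem P_induction {α : Type} {p : P α → Prop} (y : P α) (h1 : ∀ σ : Perm α, p (g σ))
    (h2 : ∀ x y, p x → p y → p (x + y)) (h3 : ∀ (n : ℤ) x, p x → p (n • x)) : p y := by
  induction y using MonoidAlgebra.induction_on with
  | of σ => exact h1 σ
  | add x y hx hy => exact h2 x y hx hy
  | smul r x hx => exact h3 r x hx

theorem g_mul {α : Type} (σ τ : Perm α) : g (σ * τ) = g σ * g τ := map_mul _ _ _

theorem g_one {α : Type} : g (1 : Perm α) = 1 := map_one _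

section basic

variable {α : Type} [Fintype α] [DecidableEq α]

/-- The signed sum of all permutations. -/
noncomputable def As (α : Type) [Fintype α] [DecidableEq α] : P α :=
  ∑ s : Perm α, (Perm.sign s : ℤ) • g s

/-- The signed sum of the permutations that respect a colouring. -/
noncomputable def Ac {C : Type} [DecidableEq C] (c : α → C) : P α :=
  ∑ s ∈ univ.filter (fun s : Perm α => c ∘ s = c), (Perm.sign s : ℤ) • g s

/-- The subgroup `J` of a colouring: right multiples of `1 + (i j)` for two places of the same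
colour, left multiples of the signed sum, everything that kills the words. -/
noncomputable def J (N : ℕ) {C : Type} [DecidableEq C] (c : α → C) : AddSubgroup (P α) :=
  AddSubgroup.closure
    ({x | ∃ (i j : α) (a : P α), i ≠ j ∧ c i = c j ∧ x = (1 + g (swap i j)) * a} ∪
      {x | ∃ b : P α, x = b * Ac c} ∪ {x | act N α x = 0})

variable (N : ℕ)

theorem act_g (σ : Perm α) (f : W N α) (w : α → Fin N) : act N α (g σ) f w = f (w ∘ σ) := by
  rw [act_of]; rfl

theorem act_one (f : W N α) : act N α 1 f = f := by rw [map_one]; rfl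

theorem act_mul (x y : P α) (f : W N α) : act N α (x * y) f = act N α x (act N α y f) := by
  rw [map_mul]; rfl

theorem act_zsmul (n : ℤ) (x : P α) (f : W N α) : act N α (n • x) f = n • act N α x f := by
  rw [map_zsmul]; rfl

theorem act_add (x y : P α) (f : W N α) : act N α (x + y) f = act N α x f + act N α y f := by
  rw [map_add]; rfl

theorem act_sub (x y : P α) (f : W N α) : act N α (x - y) f = act N α x f - act N α y f := by
  rw [map_sub]; rfl

theorem act_sum {ι : Type} (s : Finset ι) (x : ι → P α) (f : W N α) :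
    act N α (∑ i ∈ s, x i) f = ∑ i ∈ s, act N α (x i) f := by
  rw [map_sum, LinearMap.sum_apply]

variable {N}

theorem g_mul_As (σ : Perm α) : g σ * As α = (Perm.sign σ : ℤ) • As α := by
  unfold As
  rw [Finset.mul_sum, Finset.smul_sum]
  refine Fintype.sum_equiv (Equiv.mulLeft σ) _ _ (fun s => ?_)
  rw [Equiv.coe_mulLeft, mul_smul_comm, ← g_mul, smul_smul]
  congr 1
  rw [Perm.sign_mul, Units.val_mul, ← mul_assoc]
  rw [show ((Perm.sign σ : ℤˣ) : ℤ) * (Perm.sign σ : ℤˣ) = 1 by
    rw [← Units.val_mul, Int.units_mul_self]; rfl, one_mul]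

theorem As_mul_g (σ : Perm α) : As α * g σ = (Perm.sign σ : ℤ) • As α := by
  unfold As
  rw [Finset.sum_mul, Finset.smul_sum]
  refine Fintype.sum_equiv (Equiv.mulRight σ) _ _ (fun s => ?_)
  rw [Equiv.coe_mulRight, smul_mul_assoc, ← g_mul, smul_smul]
  congr 1
  rw [Perm.sign_mul, Units.val_mul, mul_comm, mul_assoc]
  rw [show ((Perm.sign σ : ℤˣ) : ℤ) * (Perm.sign σ : ℤˣ) = 1 by
    rw [← Units.val_mul, Int.units_mul_self]; rfl, mul_one]

/-- Words with fewer letters than places are killed by the signed sum. -/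
theorem act_As (h : N < Fintype.card α) : act N α (As α) = 0 := by
  refine LinearMap.ext (fun f => ?_)
  funext w
  obtain ⟨x, y, hxy, hw⟩ := Fintype.exists_ne_map_eq_of_card_lt w (by simpa using h)
  have h1 : As α * g (swap x y) = -As α := by
    rw [As_mul_g, Perm.sign_swap hxy]
    simp
  have h2 : g (swap x y) * As α = -As α := by
    rw [g_mul_As, Perm.sign_swap hxy]
    simp
  have h3 : act N α (g (swap x y) * As α) f w = act N α (As α) f w := by
    rw [act_mul, act_g]
    have h0 : w ∘ ⇑(swap x y) = w := by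
      funext t
      simp only [Function.comp_apply]
      rcases eq_or_ne t x with rfl | hx
      · rw [swap_apply_left, hw]
      · rcases eq_or_ne t y with rfl | hy
        · rw [swap_apply_right, hw]
        · rw [swap_apply_of_ne_of_ne hx hy]
    rw [h0]
  rw [h2, map_neg, LinearMap.neg_apply, Pi.neg_apply] at h3
  have h4 : act N α (As α) f w = 0 := by linarith
  exact h4

end basic

/-! ### Embeddings -/

section emb

variable {α β γ : Type}

/-- The ring homomorphism of an embedding of the places. -/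
noncomputable def emb (ι : α ↪ β) : P α →+* P β :=
  MonoidAlgebra.mapDomainRingHom ℤ (Perm.viaEmbeddingHom ι)

theorem emb_g (ι : α ↪ β) (σ : Perm α) : emb ι (g σ) = g (σ.viaEmbedding ι) := by
  simp [emb, MonoidAlgebra.of_apply, Perm.viaEmbeddingHom_apply]

theorem emb_zsmul (ι : α ↪ β) (n : ℤ) (x : P α) : emb ι (n • x) = n • emb ι x :=
  map_zsmul _ _ _

theorem viaEmbedding_trans (ι : α ↪ β) (κ : β ↪ γ) (σ : Perm α) :
    (σ.viaEmbedding ι).viaEmbedding κ = σ.viaEmbedding (ι.trans κ) := by
  ext z
  by_cases hz : z ∈ Set.range κ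
  · obtain ⟨y, rfl⟩ := hz
    rw [Perm.viaEmbedding_apply]
    by_cases hy : y ∈ Set.range ι
    · obtain ⟨x, rfl⟩ := hy
      rw [Perm.viaEmbedding_apply]
      exact (Perm.viaEmbedding_apply σ (ι.trans κ) x).symm
    · rw [Perm.viaEmbedding_apply_of_notMem _ _ _ hy, Perm.viaEmbedding_apply_of_notMem]
      rintro ⟨x, hx⟩
      exact hy ⟨x, κ.injective hx⟩
  · rw [Perm.viaEmbedding_apply_of_notMem _ _ _ hz, Perm.viaEmbedding_apply_of_notMem]
    rintro ⟨x, hx⟩
    exact hz ⟨_, hx⟩

theorem emb_trans (ι : α ↪ β) (κ : β ↪ γ) (x : P α) :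
    emb κ (emb ι x) = emb (ι.trans κ) x := by
  have h : (emb κ).comp (emb ι) = emb (ι.trans κ) := by
    unfold emb
    rw [← MonoidAlgebra.mapDomainRingHom_comp]
    congr 1
    ext1 σ
    exact viaEmbedding_trans ι κ σ
  exact congrArg (fun φ : P α →+* P γ => φ x) h

/-- Commuting elements. -/
theorem commute_of_g {x : P β} (ι : α ↪ β)
    (h : ∀ σ : Perm α, Commute (g (σ.viaEmbedding ι)) x) (y : P α) : Commute (emb ι y) x := by
  refine P_induction (p := fun y => Commute (emb ι y) x) y ?_ ?_ ?_
  · intro σ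
    rw [emb_g]
    exact h σ
  · intro a b ha hb
    rw [map_add]
    exact Commute.add_left ha hb
  · intro n a ha
    rw [emb_zsmul]
    exact Commute.smul_left ha n

theorem commute_emb_emb (ι : α ↪ γ) (κ : β ↪ γ) (h : ∀ x y, ι x ≠ κ y) (x : P α) (y : P β) :
    Commute (emb ι x) (emb κ y) := by
  refine commute_of_g ι (fun σ => ?_) x
  refine (commute_of_g κ (fun τ => ?_) y).symm
  unfold Commute SemiconjBy
  rw [← g_mul, ← g_mul]
  congr 1
  ext z
  simp only [Perm.mul_apply]
  by_cases h1 : z ∈ Set.range ι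
  · obtain ⟨x, rfl⟩ := h1
    have e1 : ∀ x, ι x ∉ Set.range κ := fun x ⟨y, hy⟩ => h x y hy.symm
    rw [Perm.viaEmbedding_apply, Perm.viaEmbedding_apply_of_notMem _ _ _ (e1 _),
      Perm.viaEmbedding_apply_of_notMem _ _ _ (e1 _), Perm.viaEmbedding_apply]
  · by_cases h2 : z ∈ Set.range κ
    · obtain ⟨y, rfl⟩ := h2
      have e1 : ∀ y, κ y ∉ Set.range ι := fun y ⟨x, hx⟩ => h x y hx
      rw [Perm.viaEmbedding_apply, Perm.viaEmbedding_apply_of_notMem _ _ _ (e1 _),
        Perm.viaEmbedding_apply_of_notMem _ _ _ (e1 _), Perm.viaEmbedding_apply]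
    · rw [Perm.viaEmbedding_apply_of_notMem _ _ _ h1, Perm.viaEmbedding_apply_of_notMem _ _ _ h2,
        Perm.viaEmbedding_apply_of_notMem _ _ _ h1]

open Classical in
/-- The word `w` on the places of `α`, the word `w'` elsewhere. -/
noncomputable def glue {N : ℕ} (ι : α ↪ β) (w : α → Fin N) (w' : β → Fin N) : β → Fin N :=
  fun z => if h : z ∈ Set.range ι then w (Classical.choose h) else w' z

theorem glue_apply {N : ℕ} (ι : α ↪ β) (w : α → Fin N) (w' : β → Fin N) (x : α) :
    glue ι w w' (ι x) = w x := by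
  unfold glue
  have h : ι x ∈ Set.range ι := ⟨x, rfl⟩
  rw [dif_pos h]
  congr 1
  exact ι.injective (Classical.choose_spec h)

theorem glue_apply_of_notMem {N : ℕ} (ι : α ↪ β) (w : α → Fin N) (w' : β → Fin N) (z : β)
    (h : z ∉ Set.range ι) : glue ι w w' z = w' z := by
  unfold glue
  rw [dif_neg h]

variable [Fintype α] [DecidableEq α] [Fintype β] [DecidableEq β]

theorem act_emb {N : ℕ} (ι : α ↪ β) (y : P α) (f : W N β) (w' : β → Fin N) :
    act N β (emb ι y) f w' = act N α y (fun w => f (glue ι w w')) (w' ∘ ι) := by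
  refine P_induction (p := fun y => act N β (emb ι y) f w' =
    act N α y (fun w => f (glue ι w w')) (w' ∘ ι)) y ?_ ?_ ?_
  · intro σ
    rw [emb_g, act_g, act_g]
    congr 1
    funext z
    simp only [Function.comp_apply]
    by_cases h : z ∈ Set.range ι
    · obtain ⟨x, rfl⟩ := h
      rw [glue_apply, Perm.viaEmbedding_apply]
      rfl
    · rw [glue_apply_of_notMem _ _ _ _ h, Perm.viaEmbedding_apply_of_notMem _ _ _ h]
  · intro a b ha hb
    rw [map_add, act_add, act_add, Pi.add_apply, Pi.add_apply, ha, hb]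
  · intro n a ha
    rw [emb_zsmul, act_zsmul, act_zsmul, Pi.smul_apply, Pi.smul_apply, ha]

/-- Elements that kill the words kill the words after an embedding. -/
theorem act_emb_eq_zero {N : ℕ} (ι : α ↪ β) (y : P α) (h : act N α y = 0) :
    act N β (emb ι y) = 0 := by
  refine LinearMap.ext (fun f => ?_)
  funext w'
  rw [act_emb, h]
  rfl

end emb

end Pool.PI34.H4
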