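import Pool.Agent.LibPI34.H4_Top3

/-!
PI34, block H4, file 8: the splitting element of one block.
-/

set_option autoImplicit false
set_option linter.unusedSectionVars false
set_option linter.unusedDecidableInType false
set_option linter.unusedFintypeInType false

namespace Pool.PI34.H4

open Equiv Finset Polynomial

section split

variable {N : ℕ} {X : Type} [Fintype X] [DecidableEq X] {d : ℕ}

theorem phi_mod (Q : ℤ) {s : Fin (d + 1) → Fin N} (hs : StrictMono s) (j : ℕ) (hj : j ≤ d) :
    ∀ k : Fin (d + 1), (d - j < (k : ℕ) → Q ∣ phi Q s j k) ∧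
      ((k : ℕ) = d - j → Q ∣ phi Q s j k - (-1) ^ j) := by
  induction j with
  | zero =>
    intro k
    refine ⟨fun h => ?_, fun _ => ?_⟩
    · have := k.2
      omega
    · simp [phi]
  | succ j ih =>
    intro k
    have ih' := ih (by omega)
    have hmem : ∀ b : Fin (d + 1), b ∈ univ.filter (fun b => s k < s b) ↔ k < b := by
      intro b
      rw [mem_filter, hs.lt_iff_lt]
      simp
    refine ⟨fun h => ?_, fun h => ?_⟩
    · rw [phi, mul_assoc]
      refine dvd_sub (Dvd.intro _ rfl) (Finset.dvd_sum (fun b hb => ?_))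
      rw [hmem] at hb
      refine (ih' b).1 ?_
      have : (k : ℕ) < b := hb
      omega
    · rw [phi]
      have hd : (d - j) < d + 1 := by omega
      have h1 : (⟨d - j, hd⟩ : Fin (d + 1)) ∈ univ.filter (fun b => s k < s b) := by
        rw [hmem, Fin.lt_def]
        simp only
        omega
      rw [← Finset.add_sum_erase _ _ h1]
      have h2 : Q ∣ ∑ b ∈ (univ.filter (fun b => s k < s b)).erase ⟨d - j, hd⟩, phi Q s j b := by
        refine Finset.dvd_sum (fun b hb => ?_)
        rw [Finset.mem_erase, hmem] at hb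
        refine (ih' b).1 ?_
        have h3 : (k : ℕ) < b := hb.2
        have h4 : (b : ℕ) ≠ d - j := fun e => hb.1 (Fin.ext e)
        omega
      have h3 := (ih' ⟨d - j, hd⟩).2 rfl
      have h4 : Q * ((N : ℤ) - 1 - (s k : ℕ)) * phi Q s j k -
          (phi Q s j ⟨d - j, hd⟩ + ∑ b ∈ (univ.filter (fun b => s k < s b)).erase ⟨d - j, hd⟩,
            phi Q s j b) - (-1) ^ (j + 1) =
          Q * (((N : ℤ) - 1 - (s k : ℕ)) * phi Q s j k) - (phi Q s j ⟨d - j, hd⟩ - (-1) ^ j) -
            ∑ b ∈ (univ.filter (fun b => s k < s b)).erase ⟨d - j, hd⟩, phi Q s j b := by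
        rw [pow_succ]
        ring
      rw [h4]
      exact dvd_sub (dvd_sub (Dvd.intro _ rfl) h3) h2

theorem PP_mod (Q : ℤ) {s : Fin (d + 1) → Fin N} (hs : StrictMono s) :
    Q ∣ PP Q s - (-1) ^ d := by
  unfold PP
  rw [← Finset.add_sum_erase _ _ (mem_univ (0 : Fin (d + 1)))]
  have h1 := (phi_mod Q hs d le_rfl 0).2 (by simp)
  have h2 : Q ∣ ∑ k ∈ univ.erase (0 : Fin (d + 1)), phi Q s d k := by
    refine Finset.dvd_sum (fun k hk => ?_)
    refine (phi_mod Q hs d le_rfl k).1 ?_
    rw [Nat.sub_self]
    exact Nat.pos_of_ne_zero (fun e => (Finset.ne_of_mem_erase hk) (Fin.ext e))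
  have h3 : phi Q s d 0 + ∑ k ∈ univ.erase (0 : Fin (d + 1)), phi Q s d k - (-1) ^ d =
      (phi Q s d 0 - (-1) ^ d) + ∑ k ∈ univ.erase (0 : Fin (d + 1)), phi Q s d k := by ring
  rw [h3]
  exact dvd_add h1 h2

theorem PP_coprime (Q : ℤ) {s : Fin (d + 1) → Fin N} (hs : StrictMono s) :
    IsCoprime (PP Q s) Q := by
  obtain ⟨m, hm⟩ := PP_mod Q hs
  have h1 : PP Q s = (-1) ^ d + Q * m := by linarith
  rw [h1]
  refine ⟨(-1) ^ d, -((-1) ^ d * m), ?_⟩
  have h2 : ((-1 : ℤ) ^ d) * (-1) ^ d = 1 := by
    rw [← mul_pow]; norm_num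
  linear_combination h2

theorem ff_coprime (Q : ℤ) : IsCoprime ((ff N d Q).coeff 0) Q := by
  rw [Polynomial.coeff_zero_eq_eval_zero, ff, Polynomial.eval_prod]
  refine IsCoprime.prod_left (fun t ht => ?_)
  obtain ⟨s, hs, rfl⟩ := Finset.mem_image.1 ht
  rw [mem_filter] at hs
  rw [eval_sub, eval_X, eval_C, zero_sub]
  exact (PP_coprime Q hs.2).neg_left

theorem commute_atl (y : P (Fin d)) : Commute (emb (sE d) y) (atl d) := by
  refine commute_of_g (sE d) (fun σ => ?_) y
  unfold atl
  refine Commute.sub_right (Commute.one_right _) ?_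
  unfold Commute SemiconjBy
  rw [Finset.mul_sum, Finset.sum_mul]
  refine Fintype.sum_equiv σ _ _ (fun t => ?_)
  rw [← g_mul, ← g_mul, mul_swap_eq_swap_mul]
  have h1 : σ.viaEmbedding (sE d) 0 = 0 := by
    refine Perm.viaEmbedding_apply_of_notMem _ _ _ ?_
    rintro ⟨y, hy⟩
    exact Fin.succ_ne_zero y hy
  have h2 : σ.viaEmbedding (sE d) t.succ = (σ t).succ := Perm.viaEmbedding_apply σ (sE d) t
  rw [h1, h2]

theorem commute_BB_at' : Commute (BB X d) (at' X d) := by
  unfold BB at'
  exact (commute_atl _).map (emb Function.Embedding.inr)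

theorem commute_BB_hh (N : ℕ) : Commute (BB X d) (hh N X d) := by
  unfold hh
  exact commute_BB_at'.mul_right ((commute_yy_BB N).pow_right d)

theorem commute_inl_hh (N : ℕ) (y : P X) :
    Commute (emb Function.Embedding.inl y) (hh N X d) := by
  unfold hh
  exact (commute_at'_inl y).mul_right ((commute_yy_inl _ y).pow_right d)

variable (X d) in
/-- The correction. -/
noncomputable def TTt (N : ℕ) (Q : ℤ) : P (X ⊕ Fin (d + 1)) :=
  (yy N X (0 : Fin (d + 1))) ^ d * aeval (hh N X d) (-(divX (ff N d Q)))

theorem commute_BB_TTt (N : ℕ) (Q : ℤ) : Commute (BB X d) (TTt X d N Q) := by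
  unfold TTt
  exact ((commute_yy_BB N).pow_right d).mul_right
    (Commute.aeval_left (commute_BB_hh N).symm _).symm

theorem commute_inl_TTt (N : ℕ) (Q : ℤ) (y : P X) :
    Commute (emb Function.Embedding.inl y) (TTt X d N Q) := by
  unfold TTt
  exact ((commute_yy_inl _ y).pow_right d).mul_right
    (Commute.aeval_left (commute_inl_hh N y).symm _).symm

theorem at'_mul_TTt (N : ℕ) (Q : ℤ) : at' X d * TTt X d N Q =
    (ff N d Q).coeff 0 • 1 - aeval (hh N X d) (ff N d Q) := by
  unfold TTt
  rw [← mul_assoc]
  change hh N X d * aeval (hh N X d) (-(divX (ff N d Q))) = _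
  have h1 : ff N d Q = divX (ff N d Q) * Polynomial.X + Polynomial.C ((ff N d Q).coeff 0) :=
    (divX_mul_X_add _).symm
  have h2 : hh N X d * aeval (hh N X d) (-(divX (ff N d Q))) =
      aeval (hh N X d) (-(divX (ff N d Q)) * Polynomial.X) := by
    rw [map_mul, aeval_X]
    exact (Commute.aeval_left (Commute.refl _) _).symm
  rw [h2]
  have h3 : -(divX (ff N d Q)) * Polynomial.X =
      Polynomial.C ((ff N d Q).coeff 0) - ff N d Q := by
    conv_rhs => rw [h1]
    simp only [coeff_add, coeff_mul_X_zero, coeff_C_zero, zero_add]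
    ring
  rw [h3, map_sub, aeval_C, Algebra.algebraMap_eq_smul_one]

theorem at'_TTt_act {Q : ℤ} {z : P X} (hz : ZP N Q z) :
    act N _ (at' X d * TTt X d N Q * (AA X d * emb Function.Embedding.inl z)) =
      (ff N d Q).coeff 0 • act N _ (AA X d * emb Function.Embedding.inl z) := by
  rw [at'_mul_TTt, sub_mul, map_sub, ff_kill hz, sub_zero, smul_mul_assoc, one_mul, map_zsmul]

/-- The splitting property of a block of `d` places. -/
def Split (N : ℕ) (Q : ℤ) (z : P X) (d : ℕ) : Prop :=
  ∃ (e : P (X ⊕ Fin d)) (F : ℤ), IsCoprime F Q ∧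
    (∀ y : P X, Commute (emb Function.Embedding.inl y) e) ∧
    act N _ (emb Function.Embedding.inr (As (Fin d)) * e *
      emb Function.Embedding.inr (As (Fin d)) * emb Function.Embedding.inl z) =
      F • act N _ (emb Function.Embedding.inr (As (Fin d)) * emb Function.Embedding.inl z)

theorem As_zero : As (Fin 0) = 1 := by
  unfold As
  rw [Fintype.sum_unique]
  have : (default : Perm (Fin 0)) = 1 := Subsingleton.elim _ _
  rw [this, g_one, Perm.sign_one]
  simp

theorem split_all {Q : ℤ} {z : P X} (hz : ZP N Q z) (d : ℕ) : Split N Q z d := by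
  induction d with
  | zero =>
    refine ⟨1, 1, isCoprime_one_left, fun y => Commute.one_right _, ?_⟩
    rw [As_zero, map_one, one_mul, one_mul, one_mul, one_smul]
  | succ d ih =>
    obtain ⟨e, F, hF, he, hs⟩ := ih
    set E : P (X ⊕ Fin (d + 1)) := emb (sX' X d) e with hE
    set T : P (X ⊕ Fin (d + 1)) := TTt X d N Q with hT
    set zz : P (X ⊕ Fin (d + 1)) := emb Function.Embedding.inl z with hzz
    have hinl : ∀ y : P X, emb (sX' X d) (emb Function.Embedding.inl y) =
        emb Function.Embedding.inl y := by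
      intro y
      rw [emb_trans]
      rfl
    refine ⟨E * T, F * (ff N d Q).coeff 0, hF.mul_left (ff_coprime Q), fun y => ?_, ?_⟩
    · refine Commute.mul_right ?_ (commute_inl_TTt N Q y)
      rw [← hinl, hE]
      exact (he y).map (emb (sX' X d))
    · change act N _ (AA X d * (E * T) * AA X d * zz) = _ • act N _ (AA X d * zz)
      have hBE : act N _ (BB X d * E * BB X d * zz) = F • act N _ (BB X d * zz) := by
        have h1 := act_emb_eq_zero (N := N) (sX' X d)
          (emb Function.Embedding.inr (As (Fin d)) * e *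
            emb Function.Embedding.inr (As (Fin d)) * emb Function.Embedding.inl z -
            F • (emb Function.Embedding.inr (As (Fin d)) * emb Function.Embedding.inl z))
          (by rw [map_sub, hs, map_zsmul, sub_self])
        rw [map_sub, emb_zsmul, map_mul, map_mul, map_mul, map_mul, ← BB_eq, hinl, map_sub,
          map_zsmul, sub_eq_zero] at h1
        exact h1
      have hBT : Commute (BB X d) T := commute_BB_TTt N Q
      have hzT : Commute zz T := commute_inl_TTt N Q z
      have hza : Commute zz (at' X d) := commute_at'_inl z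
      have e1 : AA X d * (E * T) * AA X d * zz =
          at' X d * (BB X d * E * BB X d * zz) * (T * at' X d) := by
        rw [AA_eq]
        nth_rewrite 2 [← AA_eq]
        rw [AA_eq']
        calc at' X d * BB X d * (E * T) * (BB X d * at' X d) * zz
            = at' X d * BB X d * E * (T * BB X d) * (at' X d * zz) := by
              simp only [mul_assoc]
          _ = at' X d * BB X d * E * (BB X d * T) * (zz * at' X d) := by
              rw [hBT.eq, hza.eq]
          _ = at' X d * BB X d * E * BB X d * (T * zz) * at' X d := by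
              simp only [mul_assoc]
          _ = at' X d * BB X d * E * BB X d * (zz * T) * at' X d := by
              rw [hzT.eq]
          _ = _ := by simp only [mul_assoc]
      have e2 : at' X d * (BB X d * zz) * (T * at' X d) = at' X d * T * (AA X d * zz) := by
        rw [AA_eq']
        calc at' X d * (BB X d * zz) * (T * at' X d)
            = at' X d * BB X d * (zz * T) * at' X d := by simp only [mul_assoc]
          _ = at' X d * BB X d * (T * zz) * at' X d := by rw [hzT.eq]
          _ = at' X d * (BB X d * T) * (zz * at' X d) := by simp only [mul_assoc]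
          _ = at' X d * (T * BB X d) * (at' X d * zz) := by rw [hBT.eq, hza.eq]
          _ = _ := by simp only [mul_assoc]
      rw [e1, map_mul, map_mul, hBE, mul_smul_comm, smul_mul_assoc, ← map_mul, ← map_mul, e2,
        at'_TTt_act hz, smul_smul]

end split

end Pool.PI34.H4
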