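import Pool.Agent.LibPI34.H4_Z

/-!
PI34, block H4, file 4: the element `z`.
-/

set_option autoImplicit false
set_option linter.unusedSectionVars false
set_option linter.unusedDecidableInType false
set_option linter.unusedFintypeInType false

namespace Pool.PI34.H4

open Equiv Finset Polynomial

section ac

variable {α : Type} [Fintype α] [DecidableEq α] {C : Type} [DecidableEq C]

theorem comp_mul_eq {c : α → C} {σ : Perm α} (hσ : c ∘ σ = c) (s : Perm α) :
    (c ∘ ⇑(σ * s) = c ↔ c ∘ s = c) ∧ (c ∘ ⇑(s * σ) = c ↔ c ∘ s = c) := by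
  have hσ' : ∀ x, c (σ x) = c x := fun x => congrFun hσ x
  have hσ'' : ∀ x, c (σ.symm x) = c x := fun x => by
    have := hσ' (σ.symm x)
    rw [apply_symm_apply] at this
    exact this.symm
  refine ⟨⟨fun h => ?_, fun h => ?_⟩, ⟨fun h => ?_, fun h => ?_⟩⟩
  · funext x
    have := congrFun h x
    simp only [Function.comp_apply, Perm.mul_apply, hσ'] at this
    exact this
  · funext x
    have := congrFun h x
    simp only [Function.comp_apply, Perm.mul_apply, hσ'] at this ⊢
    exact this
  · funext x
    have := congrFun h (σ.symm x)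
    simp only [Function.comp_apply, Perm.mul_apply, apply_symm_apply, hσ''] at this ⊢
    exact this
  · funext x
    have := congrFun h (σ x)
    simp only [Function.comp_apply, Perm.mul_apply, hσ'] at this ⊢
    exact this

theorem sign_sq (σ : Perm α) : ((Perm.sign σ : ℤˣ) : ℤ) * (Perm.sign σ : ℤˣ) = 1 := by
  rw [← Units.val_mul, Int.units_mul_self]; rfl

theorem g_mul_Ac {c : α → C} {σ : Perm α} (hσ : c ∘ σ = c) :
    g σ * Ac c = (Perm.sign σ : ℤ) • Ac c := by
  unfold Ac
  rw [Finset.mul_sum, Finset.smul_sum]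
  refine Finset.sum_bij (fun s _ => σ * s) ?_ ?_ ?_ ?_
  · intro s hs
    rw [mem_filter] at hs ⊢
    exact ⟨mem_univ _, (comp_mul_eq hσ s).1.2 hs.2⟩
  · intro s _ t _ h
    exact mul_left_cancel h
  · intro s hs
    rw [mem_filter] at hs
    refine ⟨σ⁻¹ * s, ?_, by simp⟩
    rw [mem_filter]
    refine ⟨mem_univ _, ?_⟩
    rw [← (comp_mul_eq hσ (σ⁻¹ * s)).1, mul_inv_cancel_left]
    exact hs.2
  · intro s _
    rw [mul_smul_comm, ← g_mul, smul_smul]
    congr 1
    rw [Perm.sign_mul, Units.val_mul, ← mul_assoc, sign_sq, one_mul]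

theorem Ac_mul_g {c : α → C} {σ : Perm α} (hσ : c ∘ σ = c) :
    Ac c * g σ = (Perm.sign σ : ℤ) • Ac c := by
  unfold Ac
  rw [Finset.sum_mul, Finset.smul_sum]
  refine Finset.sum_bij (fun s _ => s * σ) ?_ ?_ ?_ ?_
  · intro s hs
    rw [mem_filter] at hs ⊢
    exact ⟨mem_univ _, (comp_mul_eq hσ s).2.2 hs.2⟩
  · intro s _ t _ h
    exact mul_right_cancel h
  · intro s hs
    rw [mem_filter] at hs
    refine ⟨s * σ⁻¹, ?_, by simp⟩
    rw [mem_filter]
    refine ⟨mem_univ _, ?_⟩
    rw [← (comp_mul_eq hσ (s * σ⁻¹)).2, inv_mul_cancel_right]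
    exact hs.2
  · intro s _
    rw [smul_mul_assoc, ← g_mul, smul_smul]
    congr 1
    rw [Perm.sign_mul, Units.val_mul, mul_comm ((Perm.sign s : ℤˣ) : ℤ), ← mul_assoc, sign_sq,
      one_mul]

theorem SA_Ac {N : ℕ} (c : α → C) : SA N (Ac c) := by
  intro f h
  unfold Ac
  rw [act_sum, act_sum]
  have e1 : ∀ (s : Finset (Perm α)) (φ : Perm α → W N α) (h : W N α),
      ip (∑ i ∈ s, φ i) h = ∑ i ∈ s, ip (φ i) h := by
    intro s φ h
    induction s using Finset.induction_on with
    | empty => simp [ip_zero_left]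
    | insert a s ha ih => rw [Finset.sum_insert ha, Finset.sum_insert ha, ip_add_left, ih]
  have e2 : ∀ (s : Finset (Perm α)) (φ : Perm α → W N α) (h : W N α),
      ip h (∑ i ∈ s, φ i) = ∑ i ∈ s, ip h (φ i) := by
    intro s φ h
    rw [ip_comm, e1]
    exact Finset.sum_congr rfl (fun i _ => ip_comm _ _)
  rw [e1, e2]
  refine Finset.sum_bij (fun s _ => s⁻¹) ?_ ?_ ?_ ?_
  · intro s hs
    rw [mem_filter] at hs ⊢
    refine ⟨mem_univ _, ?_⟩
    rw [← (comp_mul_eq hs.2 s⁻¹).1, mul_inv_cancel]
    rfl
  · intro s _ t _ h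
    exact inv_injective h
  · intro s hs
    rw [mem_filter] at hs
    refine ⟨s⁻¹, ?_, inv_inv _⟩
    rw [mem_filter]
    refine ⟨mem_univ _, ?_⟩
    rw [← (comp_mul_eq hs.2 s⁻¹).1, mul_inv_cancel]
    rfl
  · intro s _
    rw [act_zsmul, act_zsmul, ip_zsmul_left, ip_zsmul_right, Perm.sign_inv, act_of, act_of, ip_rho]

end ac

section w1

variable {α : Type} [Fintype α] [DecidableEq α] {N : ℕ}

/-- Number of places with the letter `a`. -/
def cntN (w : α → Fin N) (a : ℕ) : ℕ := (univ.filter (fun x => (w x : ℕ) = a)).card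

/-- Number of places with a letter below `r`. -/
def low (w : α → Fin N) (r : ℕ) : ℕ := (univ.filter (fun x => (w x : ℕ) < r)).card

theorem cnt_eq_cntN (w : α → Fin N) (a : Fin N) : cnt w a = cntN w a := by
  unfold cnt cntN
  congr 1
  ext x
  simp [Fin.ext_iff]

theorem low_eq (w : α → Fin N) (r : ℕ) : low w r = ∑ a ∈ range r, cntN w a := by
  induction r with
  | zero => simp [low]
  | succ r ih =>
    rw [Finset.sum_range_succ, ← ih]
    unfold low cntN
    rw [← Finset.card_union_of_disjoint]
    · congr 1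
      ext x
      simp only [mem_filter, mem_univ, true_and, mem_union]
      omega
    · rw [Finset.disjoint_filter]
      intro x _ h
      omega

theorem low_top (w : α → Fin N) : low w N = Fintype.card α := by
  unfold low
  rw [Finset.filter_true_of_mem (fun x _ => (w x).2)]
  rfl

/-- Columns. -/
structure Cols {ι : Type} (col : α → ι) (row : α → Fin N) (len : ι → ℕ) : Prop where
  lt : ∀ x, (row x : ℕ) < len (col x)
  ex : ∀ p, ∀ i < len p, ∃ x, col x = p ∧ (row x : ℕ) = i
  inj : ∀ x y, col x = col y → row x = row y → x = y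

variable {ι : Type} [DecidableEq ι] {col : α → ι} {row : α → Fin N} {len : ι → ℕ}

theorem low_le (hc : Cols col row len) (w : α → Fin N)
    (hw : ∀ x y, col x = col y → w x = w y → x = y) (r : ℕ) : low w r ≤ low row r := by
  unfold low
  have h1 : ∀ v : α → Fin N, (univ.filter (fun x => (v x : ℕ) < r)).card =
      ∑ p ∈ univ.image col,
        ((univ.filter (fun x => (v x : ℕ) < r)).filter (fun x => col x = p)).card := by
    intro v
    exact Finset.card_eq_sum_card_fiberwise (fun x _ => Finset.mem_image_of_mem _ (mem_univ x))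
  rw [h1 w, h1 row]
  refine Finset.sum_le_sum (fun p _ => ?_)
  rcases le_or_gt (len p) r with hr | hr
  · apply Finset.card_le_card
    intro x hx
    rw [mem_filter, mem_filter] at hx ⊢
    refine ⟨⟨mem_univ _, ?_⟩, hx.2⟩
    have := hc.lt x
    rw [hx.2] at this
    omega
  · calc _ ≤ (range r).card := by
          refine Finset.card_le_card_of_injOn (fun x => (w x : ℕ)) ?_ ?_
          · intro x hx
            have hx' := Finset.mem_coe.1 hx
            rw [mem_filter, mem_filter] at hx'
            exact Finset.mem_coe.2 (mem_range.2 hx'.1.2)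
          · intro x hx y hy hxy
            have hx' := Finset.mem_coe.1 hx
            have hy' := Finset.mem_coe.1 hy
            rw [mem_filter] at hx' hy'
            exact hw x y (hx'.2.trans hy'.2.symm) (Fin.ext hxy)
      _ ≤ _ := by
          refine Finset.card_le_card_of_surjOn (fun x => (row x : ℕ)) ?_
          intro i hi
          have hi' := mem_range.1 (Finset.mem_coe.1 hi)
          obtain ⟨x, hx1, hx2⟩ := hc.ex p i (hi'.trans hr)
          refine ⟨x, Finset.mem_coe.2 ?_, hx2⟩
          rw [mem_filter, mem_filter]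
          exact ⟨⟨mem_univ _, by omega⟩, hx1⟩

theorem swap_resp {x y : α} (h : col x = col y) : col ∘ ⇑(swap x y) = col := by
  funext t
  simp only [Function.comp_apply]
  rcases eq_or_ne t x with rfl | hx
  · rw [swap_apply_left, h]
  · rcases eq_or_ne t y with rfl | hy
    · rw [swap_apply_right, h]
    · rw [swap_apply_of_ne_of_ne hx hy]

theorem Ac_supp (f : W N α) (w : α → Fin N) (h : act N α (Ac col) f w ≠ 0) (x y : α)
    (h1 : col x = col y) (h2 : w x = w y) : x = y := by
  by_contra hxy
  apply h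
  have h3 : act N α (g (swap x y) * Ac col) f w = act N α (Ac col) f w := by
    rw [act_mul, act_g]
    have h0 : w ∘ ⇑(swap x y) = w := by
      funext t
      simp only [Function.comp_apply]
      rcases eq_or_ne t x with rfl | hx
      · rw [swap_apply_left, h2]
      · rcases eq_or_ne t y with rfl | hy
        · rw [swap_apply_right, h2]
        · rw [swap_apply_of_ne_of_ne hx hy]
    rw [h0]
  rw [g_mul_Ac (swap_resp h1), Perm.sign_swap hxy, Units.val_neg, Units.val_one, neg_smul,
    one_smul, map_neg, LinearMap.neg_apply, Pi.neg_apply] at h3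
  linarith

theorem Ac_low (hc : Cols col row len) (f : W N α) (w : α → Fin N)
    (h : act N α (Ac col) f w ≠ 0) (r : ℕ) : low w r ≤ low row r :=
  low_le hc w (Ac_supp f w h) r

/-- The starting vector. -/
noncomputable def v0 (col : α → ι) (row : α → Fin N) : W N α :=
  act N α (Ac col) (Pi.single row 1)

theorem v0_apply (w : α → Fin N) : v0 col row w =
    ∑ s ∈ univ.filter (fun s : Perm α => col ∘ s = col),
      ((Perm.sign s : ℤ) : ℚ) * (if w ∘ s = row then 1 else 0) := by
  unfold v0 Ac
  rw [act_sum, Finset.sum_apply]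
  refine Finset.sum_congr rfl (fun s _ => ?_)
  rw [act_zsmul, Pi.smul_apply, zsmul_eq_mul, act_g, Pi.single_apply]

theorem v0_row (hc : Cols col row len) : v0 col row row = 1 := by
  rw [v0_apply, Finset.sum_eq_single 1]
  · simp
  · intro s hs hs1
    rw [mem_filter] at hs
    rw [if_neg, mul_zero]
    intro h
    apply hs1
    ext x
    exact hc.inj _ _ (congrFun hs.2 x) (congrFun h x)
  · intro h
    exact absurd (Finset.mem_filter.2 ⟨Finset.mem_univ (1 : Perm α), (rfl : col ∘ ⇑(1 : Perm α) = col)⟩) h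

theorem v0_wt : HasWt (cnt row) (v0 col row) := by
  intro w hw a
  rw [v0_apply] at hw
  obtain ⟨s, _, hs⟩ := Finset.exists_ne_zero_of_sum_ne_zero hw
  by_cases h : w ∘ s = row
  · rw [← h, cnt_comp]
  · rw [if_neg h, mul_zero] at hs
    exact absurd rfl hs

theorem low_update {w : α → Fin N} {x : α} {b : Fin N} (h : (w x : ℕ) < b) :
    low (Function.update w x b) b + 1 = low w b := by
  unfold low
  have h1 : univ.filter (fun y => (w y : ℕ) < b) =
      insert x (univ.filter (fun y => (Function.update w x b y : ℕ) < b)) := by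
    ext y
    rw [mem_insert, mem_filter, mem_filter]
    rcases eq_or_ne y x with rfl | hy
    · simp [h]
    · simp [hy]
  rw [h1, Finset.card_insert_of_notMem]
  simp

theorem low_of_cnt {w w' : α → Fin N} (h : ∀ a, cnt w a = cnt w' a) (r : ℕ) :
    low w r = low w' r := by
  rw [low_eq, low_eq]
  refine Finset.sum_congr rfl (fun a _ => ?_)
  by_cases ha : a < N
  · have := h ⟨a, ha⟩
    rw [cnt_eq_cntN, cnt_eq_cntN] at this
    exact this
  · have e : ∀ v : α → Fin N, cntN v a = 0 := by
      intro v
      unfold cntN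
      rw [Finset.card_eq_zero, Finset.filter_eq_empty_iff]
      intro x _ hx
      exact ha (hx ▸ (v x).2)
    rw [e, e]

theorem v0_HW (hc : Cols col row len) : HW (v0 col row) := by
  intro a b hab
  by_contra hne
  obtain ⟨w, hw⟩ := exists_ne hne
  obtain ⟨x, hx1, hx2⟩ := EE_supp hw
  have h1 : low w b ≤ low row b := by
    unfold v0 at hw
    rw [EE_act] at hw
    exact Ac_low hc _ w hw b
  have h2 := low_of_cnt (v0_wt _ hx2) b
  have h3 := low_update (w := w) (x := x) (b := b) (by rw [hx1]; exact hab)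
  omega

end w1

/-- Summation by parts. -/
theorem abel (N : ℕ) (n k : ℕ → ℤ) (hn : ∀ a, a + 1 < N → n (a + 1) ≤ n a)
    (hk : ∀ a, a + 1 < N → k (a + 1) ≤ k a)
    (hS : ∀ r, r ≤ N → ∑ a ∈ range r, n a ≤ ∑ a ∈ range r, k a)
    (hN : ∑ a ∈ range N, n a = ∑ a ∈ range N, k a)
    (ht : ∑ a ∈ range N, (n a ^ 2 + ((N : ℤ) - 1 - 2 * a) * n a) =
      ∑ a ∈ range N, (k a ^ 2 + ((N : ℤ) - 1 - 2 * a) * k a)) :
    ∀ a < N, n a = k a := by
  have hd : ∀ r ≤ N, ∑ a ∈ range r, (k a - n a) = ∑ a ∈ range r, k a - ∑ a ∈ range r, n a :=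
    fun r _ => Finset.sum_sub_distrib _ _
  have h1 : ∑ a ∈ range N, (k a + n a + N - 1 - 2 * a) • (k a - n a) = 0 := by
    have : ∑ a ∈ range N, (k a + n a + N - 1 - 2 * a) • (k a - n a) =
        ∑ a ∈ range N, (k a ^ 2 + ((N : ℤ) - 1 - 2 * a) * k a) -
          ∑ a ∈ range N, (n a ^ 2 + ((N : ℤ) - 1 - 2 * a) * n a) := by
      rw [← Finset.sum_sub_distrib]
      refine Finset.sum_congr rfl (fun a _ => ?_)
      rw [smul_eq_mul]
      ring
    rw [this, ht, sub_self]
  rw [Finset.sum_range_by_parts] at h1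
  rw [hd N le_rfl, hN, sub_self, smul_zero, zero_sub, neg_eq_zero] at h1
  have h2 : ∀ i ∈ range (N - 1),
      ((k (i + 1) + n (i + 1) + N - 1 - 2 * ((i + 1 : ℕ) : ℤ)) -
        (k i + n i + N - 1 - 2 * (i : ℤ))) • ∑ a ∈ range (i + 1), (k a - n a) ≤ 0 := by
    intro i hi
    rw [mem_range] at hi
    rw [smul_eq_mul]
    have e1 := hn i (by omega)
    have e2 := hk i (by omega)
    have e3 := hS (i + 1) (by omega)
    rw [hd _ (by omega)]
    apply mul_nonpos_of_nonpos_of_nonneg
    · push_cast
      linarith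
    · linarith
  have h3 := (Finset.sum_eq_zero_iff_of_nonpos h2).1 h1
  have h4 : ∀ r ≤ N, ∑ a ∈ range r, (k a - n a) = 0 := by
    intro r hr
    rcases Nat.eq_zero_or_pos r with rfl | hr0
    · simp
    · rcases hr.lt_or_eq with h | h
      · obtain ⟨i, rfl⟩ : ∃ i, r = i + 1 := ⟨r - 1, by omega⟩
        have h5 := h3 i (mem_range.2 (by omega))
        rw [smul_eq_mul] at h5
        rcases mul_eq_zero.1 h5 with h6 | h6
        · have e1 := hn i (by omega)
          have e2 := hk i (by omega)
          push_cast at h6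
          exfalso
          linarith
        · exact h6
      · rw [h, hd N le_rfl, hN, sub_self]
  intro a ha
  have h5 := h4 (a + 1) (by omega)
  rw [Finset.sum_range_succ, h4 a (by omega)] at h5
  linarith

section z

variable {α : Type} [Fintype α] [DecidableEq α] {N : ℕ}
variable {ι : Type} [DecidableEq ι] {col : α → ι} {row : α → Fin N} {len : ι → ℕ}

theorem TT_eq (w : α → Fin N) :
    TT (cnt w) = ∑ a ∈ range N, ((cntN w a : ℤ) ^ 2 + ((N : ℤ) - 1 - 2 * a) * cntN w a) := by
  unfold TT
  rw [Finset.sum_range]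
  refine Finset.sum_congr rfl (fun a _ => ?_)
  rw [cnt_eq_cntN]

/-- **The element `z`**: its highest weight vectors have the weight of the columns. -/
theorem exists_z (hc : Cols col row len) : ∃ z : P α, SA N z ∧ act N α z (Pi.single row 1) ≠ 0 ∧
    ∀ u', HW (act N α z u') → OneW (act N α z u') →
      ∀ w, act N α z u' w ≠ 0 → ∀ a, cnt w a = cnt row a := by
  classical
  let τ : (α → Fin N) → ℤ := fun w => TT (cnt w) - ((N : ℤ) - 1) * Fintype.card α
  let S : Finset ℤ := (univ.image τ).erase (τ row)
  let q : ℤ[X] := ∏ t ∈ S, (X - C t)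
  let F : P α := aeval (J2 α) q
  have hF : SA N F := SA_J2.aeval q
  have hFb : Commute F (Ac col) := Commute.aeval_left (J2_comm' (Ac col)).symm q
  refine ⟨F * Ac col, hF.mul (SA_Ac col) hFb, ?_, ?_⟩
  · rw [act_mul]
    change act N α F (v0 col row) ≠ 0
    have h1 := aeval_eig (eig (v0_HW hc) (v0_wt (col := col) (row := row))) q
    change act N α F (v0 col row) = _ at h1
    rw [h1]
    intro h2
    have h3 := congrFun h2 row
    rw [Pi.smul_apply, v0_row hc, Pi.zero_apply, zsmul_eq_mul, mul_one] at h3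
    have h4 : q.eval (τ row) = 0 := by exact_mod_cast h3
    rw [Polynomial.eval_prod] at h4
    obtain ⟨t, ht, ht'⟩ := Finset.prod_eq_zero_iff.1 h4
    rw [eval_sub, eval_X, eval_C, sub_eq_zero] at ht'
    exact (Finset.ne_of_mem_erase ht) ht'.symm
  · intro u' hu hu1 w hw
    set u := act N α (F * Ac col) u' with hudef
    have hu0 : u ≠ 0 := fun h => hw (by rw [h]; rfl)
    have hwt : HasWt (cnt w) u := fun w' hw' a => hu1 _ _ hw' hw a
    -- the eigenvalue
    have h1 := eig hu hwt
    have h2 : τ w = τ row := by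
      by_contra hne
      have h3 : act N α F u = 0 := by
        have h4 := aeval_eig h1 q
        change act N α F u = _ at h4
        rw [h4]
        have : q.eval (TT (cnt w) - ((N : ℤ) - 1) * Fintype.card α) = 0 := by
          rw [Polynomial.eval_prod]
          refine Finset.prod_eq_zero (i := τ w) ?_ ?_
          · exact Finset.mem_erase.2 ⟨hne, Finset.mem_image_of_mem _ (mem_univ w)⟩
          · rw [eval_sub, eval_X, eval_C]
            exact sub_self _
        rw [this, zero_smul]
      apply hu0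
      apply ip_self_eq_zero
      have h5 : ip u u = ip u' (act N α (F * Ac col) u) := by
        conv_lhs => rw [hudef]
        exact (hF.mul (SA_Ac col) hFb) u' u
      rw [h5, hFb.eq, act_mul, h3, map_zero, ip_zero_right]
    have h3 : TT (cnt w) = TT (cnt row) := by
      have : TT (cnt w) - ((N : ℤ) - 1) * Fintype.card α =
        TT (cnt row) - ((N : ℤ) - 1) * Fintype.card α := h2
      linarith
    rw [TT_eq, TT_eq] at h3
    have hv0 : v0 col row ≠ 0 := fun h => by
      have := v0_row hc
      rw [h] at this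
      exact zero_ne_one this
    have hlow : ∀ r, low w r ≤ low row r := by
      intro r
      rw [hudef, hFb.eq, act_mul] at hw
      exact Ac_low hc _ w hw r
    have h4 := abel N (fun a => (cntN w a : ℤ)) (fun a => (cntN row a : ℤ))
      (fun a ha => by
        have := dominant hu hwt hu0 (a := ⟨a, by omega⟩) (b := ⟨a + 1, ha⟩)
          (by rw [Fin.lt_def]; exact Nat.lt_succ_self a)
        rw [cnt_eq_cntN, cnt_eq_cntN] at this
        exact_mod_cast this)
      (fun a ha => by
        have := dominant (v0_HW hc) (v0_wt (col := col) (row := row)) hv0 (a := ⟨a, by omega⟩)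
          (b := ⟨a + 1, ha⟩) (by rw [Fin.lt_def]; exact Nat.lt_succ_self a)
        rw [cnt_eq_cntN, cnt_eq_cntN] at this
        exact_mod_cast this)
      (fun r _ => by
        rw [← Nat.cast_sum, ← Nat.cast_sum, ← low_eq, ← low_eq]
        exact_mod_cast hlow r)
      (by
        rw [← Nat.cast_sum, ← Nat.cast_sum, ← low_eq, ← low_eq, low_top, low_top])
      h3
    intro a
    rw [cnt_eq_cntN, cnt_eq_cntN]
    exact_mod_cast h4 a a.2

/-- The trace of the square is positive. -/
theorem trace_sq_pos {z : P α} (hz : SA N z) (w0 : α → Fin N)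
    (h : act N α z (Pi.single w0 1) ≠ 0) :
    0 < ∑ w : α → Fin N, act N α (z * z) (Pi.single w 1) w := by
  have h1 : ∀ w : α → Fin N, act N α (z * z) (Pi.single w 1) w =
      ip (act N α z (Pi.single w 1)) (act N α z (Pi.single w 1)) := by
    intro w
    rw [← hz, ← act_mul, ip_comm]
    unfold ip
    rw [Finset.sum_eq_single w]
    · simp
    · intro v _ hv
      rw [Pi.single_eq_of_ne hv, zero_mul]
    · intro h
      exact absurd (mem_univ _) h
  rw [Finset.sum_congr rfl (fun w _ => h1 w)]
  refine Finset.sum_pos' (fun w _ => ip_self_nonneg _) ⟨w0, mem_univ _, ?_⟩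
  exact lt_of_le_of_ne (ip_self_nonneg _) (fun h' => h (ip_self_eq_zero h'.symm))

end z

end Pool.PI34.H4
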