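import Pool.Agent.LibPI34.H4_Tr
import Pool.Agent.LibPI34.H4_Z2

/-!
PI34, block H4: signed sums of Young subgroups.
-/

set_option autoImplicit false
set_option linter.unusedSectionVars false
set_option linter.unusedDecidableInType false
set_option linter.unusedFintypeInType false

namespace Pool.PI34.H4

open Equiv Finset

section young

variable {β C : Type} [Fintype β] [DecidableEq β] [DecidableEq C]

/-- The signed sum of the permutations that respect a colouring and move only places with a colour
in `K`. -/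
noncomputable def AK (c : β → C) (K : Finset C) : P β :=
  ∑ s ∈ univ.filter (fun s : Perm β => c ∘ s = c ∧ ∀ x, c x ∉ K → s x = x),
    (Perm.sign s : ℤ) • g s

theorem AK_empty (c : β → C) : AK c ∅ = 1 := by
  unfold AK
  rw [Finset.sum_eq_single (1 : Perm β)]
  · rw [Perm.sign_one, g_one]
    simp
  · intro s hs hne
    rw [mem_filter] at hs
    exact absurd (Equiv.ext fun x => hs.2.2 x (notMem_empty _)) hne
  · intro h
    exfalso
    apply h
    rw [mem_filter]
    exact ⟨mem_univ _, rfl, fun x _ => rfl⟩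

theorem AK_insert (c : β → C) (a : C) (K : Finset C) (ha : a ∉ K) :
    AK c (insert a K) = AK c {a} * AK c K := by
  unfold AK
  rw [Finset.sum_mul_sum, ← Finset.sum_product']
  symm
  refine Finset.sum_bij (fun p _ => p.1 * p.2) ?_ ?_ ?_ ?_
  · rintro ⟨s, t⟩ h
    rw [mem_product, mem_filter, mem_filter] at h
    obtain ⟨⟨_, hs, hs'⟩, ⟨_, ht, ht'⟩⟩ := h
    rw [mem_filter]
    refine ⟨mem_univ _, (comp_mul_eq hs t).1.2 ht, fun x hx => ?_⟩
    rw [mem_insert, not_or] at hx
    change s (t x) = x
    rw [ht' x hx.2, hs' x (by rw [mem_singleton]; exact hx.1)]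
  · rintro ⟨s, t⟩ h ⟨s', t'⟩ h' heq
    rw [mem_product, mem_filter, mem_filter] at h h'
    obtain ⟨⟨_, hs, hs'⟩, ⟨_, ht, ht'⟩⟩ := h
    obtain ⟨⟨_, hs2, hs2'⟩, ⟨_, ht2, ht2'⟩⟩ := h'
    have heq : ∀ x, s (t x) = s' (t' x) := fun x => Equiv.congr_fun heq x
    have h1 : t = t' := by
      ext x
      by_cases hx : c x = a
      · have h2 : c x ∉ K := by rw [hx]; exact ha
        rw [ht' x h2, ht2' x h2]
      · have h3 : c (t x) = c x := congrFun ht x
        have h4 : c (t' x) = c x := congrFun ht2 x
        have h5 := heq x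
        rw [hs' _ (by rw [mem_singleton, h3]; exact hx),
          hs2' _ (by rw [mem_singleton, h4]; exact hx)] at h5
        exact h5
    have h2 : s = s' := by
      ext x
      have h3 := heq (t.symm x)
      rw [h1, apply_symm_apply] at h3
      exact h3
    rw [h1, h2]
  · intro u hu
    rw [mem_filter] at hu
    obtain ⟨_, hu1, hu2⟩ := hu
    have hcu : ∀ x, c (u x) = c x := fun x => congrFun hu1 x
    have hp : ∀ x, (c (u x) = a ↔ c x = a) := fun x => by rw [hcu]
    let u' : Perm {x // c x = a} := Perm.subtypePerm (p := fun x => c x = a) u hp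
    set s : Perm β := Perm.ofSubtype u' with hs
    have hs1 : ∀ x, c x = a → s x = u x := by
      intro x hx
      rw [hs, Perm.ofSubtype_apply_of_mem u' hx]
      rfl
    have hs2 : ∀ x, c x ≠ a → s x = x := by
      intro x hx
      rw [hs, Perm.ofSubtype_apply_of_not_mem u' hx]
    have hsc : c ∘ s = c := by
      funext x
      by_cases hx : c x = a
      · rw [Function.comp_apply, hs1 x hx, hcu]
      · rw [Function.comp_apply, hs2 x hx]
    refine ⟨(s, s⁻¹ * u), ?_, mul_inv_cancel_left s u⟩
    rw [mem_product, mem_filter, mem_filter]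
    refine ⟨⟨mem_univ _, hsc, fun x hx => hs2 x (by rwa [mem_singleton] at hx)⟩,
      ⟨mem_univ _, ?_, ?_⟩⟩
    · rw [← (comp_mul_eq hsc (s⁻¹ * u)).1, mul_inv_cancel_left]
      exact hu1
    · intro x hx
      change s⁻¹ (u x) = x
      rw [Perm.inv_eq_iff_eq]
      by_cases hxa : c x = a
      · rw [hs1 x hxa]
      · rw [hs2 x hxa, hu2 x (by rw [mem_insert, not_or]; exact ⟨hxa, hx⟩)]
  · rintro ⟨s, t⟩ _
    rw [g_mul, Perm.sign_mul, Units.val_mul, smul_mul_assoc, mul_smul_comm, smul_smul]

theorem AK_single {d : ℕ} (c : β → C) (a : C) (ι : Fin d ↪ β) (hι : Set.range ι = {x | c x = a}) :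
    AK c {a} = emb ι (As (Fin d)) := by
  have hr : ∀ z, z ∈ Set.range ι ↔ c z = a := fun z => by rw [hι]; rfl
  unfold AK As
  rw [map_sum]
  symm
  refine Finset.sum_bij (fun s _ => s.viaEmbedding ι) ?_ ?_ ?_ ?_
  · intro s _
    rw [mem_filter]
    refine ⟨mem_univ _, ?_, ?_⟩
    · funext z
      simp only [Function.comp_apply]
      by_cases hz : z ∈ Set.range ι
      · obtain ⟨x, rfl⟩ := hz
        rw [Perm.viaEmbedding_apply, (hr _).1 ⟨_, rfl⟩, (hr _).1 ⟨_, rfl⟩]
      · rw [Perm.viaEmbedding_apply_of_notMem _ _ _ hz]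
    · intro z hz
      apply Perm.viaEmbedding_apply_of_notMem
      rw [hr]
      rwa [mem_singleton] at hz
  · intro s _ t _ hst
    exact Perm.viaEmbeddingHom_injective ι hst
  · intro t ht
    rw [mem_filter] at ht
    obtain ⟨_, ht1, ht2⟩ := ht
    have hct : ∀ x, c (t x) = c x := fun x => congrFun ht1 x
    have hct' : ∀ x, c (t.symm x) = c x := fun x => by
      have h := hct (t.symm x)
      rw [apply_symm_apply] at h
      exact h.symm
    have hran : ∀ x, t (ι x) ∈ Set.range ι := fun x => by
      rw [hr, hct]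
      exact (hr _).1 ⟨_, rfl⟩
    have hran' : ∀ x, t.symm (ι x) ∈ Set.range ι := fun x => by
      rw [hr, hct']
      exact (hr _).1 ⟨_, rfl⟩
    choose f hf using hran
    choose f' hf' using hran'
    let s : Perm (Fin d) :=
      { toFun := f
        invFun := f'
        left_inv := by
          intro x
          apply ι.injective
          rw [hf', hf, Equiv.symm_apply_apply]
        right_inv := by
          intro x
          apply ι.injective
          rw [hf, hf', Equiv.apply_symm_apply] }
    refine ⟨s, mem_univ _, ?_⟩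
    ext z
    by_cases hz : z ∈ Set.range ι
    · obtain ⟨x, rfl⟩ := hz
      rw [Perm.viaEmbedding_apply]
      exact hf x
    · rw [Perm.viaEmbedding_apply_of_notMem _ _ _ hz, ht2]
      rw [mem_singleton, ← hr]
      exact hz
  · intro s _
    rw [emb_zsmul, emb_g, sign_via]

theorem Ac_eq_AK {X T : Type} [Fintype X] [DecidableEq X] [Fintype T] [DecidableEq T]
    (c : T → C) : Ac (Sum.map id c : X ⊕ T → X ⊕ C) =
      AK (Sum.map id c : X ⊕ T → X ⊕ C) ((univ.image c).map Function.Embedding.inr) := by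
  unfold Ac AK
  congr 1
  ext s
  rw [mem_filter, mem_filter]
  constructor
  · rintro ⟨_, hs⟩
    refine ⟨mem_univ _, hs, ?_⟩
    rintro (x | t) hx
    · have h1 := congrFun hs (Sum.inl x)
      simp only [Function.comp_apply, Sum.map_inl, id] at h1
      rcases h2 : s (Sum.inl x) with y | u
      · rw [h2, Sum.map_inl] at h1
        have h3 : y = x := Sum.inl_injective h1
        rw [h3]
      · rw [h2, Sum.map_inr] at h1
        exact absurd h1 Sum.inr_ne_inl
    · exfalso
      apply hx
      rw [mem_map]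
      exact ⟨c t, mem_image_of_mem c (mem_univ t), rfl⟩
  · rintro ⟨h0, hs, _⟩
    exact ⟨h0, hs⟩

/-- The part of `J` without the signed sum. -/
noncomputable def JR (N : ℕ) (c : β → C) : AddSubgroup (P β) :=
  AddSubgroup.closure
    ({x | ∃ (i j : β) (a : P β), i ≠ j ∧ c i = c j ∧ x = (1 + g (swap i j)) * a} ∪
      {x | act N β x = 0})

theorem JR_le (N : ℕ) (c : β → C) : JR N c ≤ J N c := by
  unfold JR J
  apply AddSubgroup.closure_mono
  rintro x (h | h)
  · exact Or.inl (Or.inl h)
  · exact Or.inr h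

theorem JR_mul {N : ℕ} {c : β → C} {x : P β} (hx : x ∈ JR N c) (y : P β) : x * y ∈ JR N c := by
  have h1 : JR N c ≤ (JR N c).comap (AddMonoidHom.mulRight y) := by
    conv_lhs => unfold JR
    rw [AddSubgroup.closure_le]
    rintro z (⟨i, j, a, hij, hc, rfl⟩ | hz)
    · exact AddSubgroup.subset_closure (Or.inl ⟨i, j, a * y, hij, hc, mul_assoc _ _ _⟩)
    · refine AddSubgroup.subset_closure (Or.inr ?_)
      change act N β (z * y) = 0
      have hz' : act N β z = 0 := hz
      rw [map_mul, hz', zero_mul]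
  exact h1 hx

theorem JR_perm {N d : ℕ} (c : β → C) (ι : Fin d ↪ β) (hι : ∀ i j, c (ι i) = c (ι j)) (w : P β)
    (s : Perm (Fin d)) :
    w - (Perm.sign s : ℤ) • (g (s.viaEmbedding ι) * w) ∈ JR N c := by
  induction s using Perm.swap_induction_on with
  | one =>
    have h1 : (1 : Perm (Fin d)).viaEmbedding ι = 1 := map_one (Perm.viaEmbeddingHom ι)
    rw [h1, g_one, one_mul, Perm.sign_one, Units.val_one, one_smul, sub_self]
    exact zero_mem _
  | swap_mul s i j hij ih =>
    have h1 : (swap i j * s).viaEmbedding ι = swap (ι i) (ι j) * s.viaEmbedding ι := by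
      have h2 : (swap i j * s).viaEmbedding ι
          = (swap i j).viaEmbedding ι * s.viaEmbedding ι :=
        map_mul (Perm.viaEmbeddingHom ι) _ _
      rw [h2, swap_via]
    have h3 : (1 + g (swap (ι i) (ι j))) * ((Perm.sign s : ℤ) • (g (s.viaEmbedding ι) * w))
        ∈ JR N c :=
      AddSubgroup.subset_closure (Or.inl ⟨ι i, ι j, _, fun h => hij (ι.injective h), hι i j, rfl⟩)
    have h4 := add_mem ih h3
    rw [h1, g_mul, Perm.sign_mul, Perm.sign_swap hij]
    have h5 : w - ((-1 * Perm.sign s : ℤˣ) : ℤ) • (g (swap (ι i) (ι j)) * g (s.viaEmbedding ι) * w)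
        = w - (Perm.sign s : ℤ) • (g (s.viaEmbedding ι) * w) +
          (1 + g (swap (ι i) (ι j))) * ((Perm.sign s : ℤ) • (g (s.viaEmbedding ι) * w)) := by
      rw [Units.val_mul, Units.val_neg, Units.val_one, neg_one_mul, neg_smul, add_mul, one_mul,
        mul_smul_comm, mul_assoc]
      abel
    rw [h5]
    exact h4

theorem JR_average {N d : ℕ} (c : β → C) (ι : Fin d ↪ β) (hι : ∀ i j, c (ι i) = c (ι j))
    (w : P β) : (d.factorial : ℤ) • w - emb ι (As (Fin d)) * w ∈ JR N c := by
  have h1 : (d.factorial : ℤ) • w - emb ι (As (Fin d)) * w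
      = ∑ s : Perm (Fin d), (w - (Perm.sign s : ℤ) • (g (s.viaEmbedding ι) * w)) := by
    rw [Finset.sum_sub_distrib, Finset.sum_const, Finset.card_univ, Fintype.card_perm,
      Fintype.card_fin, natCast_zsmul]
    congr 1
    unfold As
    rw [map_sum, Finset.sum_mul]
    exact Finset.sum_congr rfl fun s _ => by rw [emb_zsmul, emb_g, smul_mul_assoc]
  rw [h1]
  exact sum_mem fun s _ => JR_perm c ι hι w s

end young

end Pool.PI34.H4
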