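import Pool.Agent.LibPI34.H4_Split
import Pool.Agent.LibPI34.H4_Young

/-!
PI34, block H4, file 9: telescoping over the blocks.
-/

set_option autoImplicit false
set_option linter.unusedSectionVars false
set_option linter.unusedDecidableInType false
set_option linter.unusedFintypeInType false

namespace Pool.PI34.H4

open Equiv Finset Polynomial

section tel

variable {N : ℕ} {X T C : Type} [Fintype X] [DecidableEq X] [Fintype T] [DecidableEq T]
  [DecidableEq C]

/-- The places of one colour. -/
theorem exists_block (c : T → C) (a : C) :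
    ∃ ι : Fin (univ.filter (fun t => c t = a)).card ↪ T, Set.range ι = {x | c x = a} := by
  let s := univ.filter (fun t => c t = a)
  refine ⟨s.equivFin.symm.toEmbedding.trans (Function.Embedding.subtype _), ?_⟩
  ext x
  constructor
  · rintro ⟨i, rfl⟩
    have := (s.equivFin.symm i).2
    rw [mem_filter] at this
    exact this.2
  · intro hx
    have h : x ∈ s := by rw [mem_filter]; exact ⟨mem_univ _, hx⟩
    exact ⟨s.equivFin ⟨x, h⟩, by simp⟩

/-- The colouring with single places on the left. -/
abbrev cc (X : Type) {T C : Type} (c : T → C) : X ⊕ T → X ⊕ C := Sum.map id c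

theorem range_inr {c : T → C} {a : C} {d : ℕ} {ι : Fin d ↪ T} (h : Set.range ι = {x | c x = a}) :
    Set.range (ι.trans (Function.Embedding.inr : T ↪ X ⊕ T)) = {x | cc X c x = Sum.inr a} := by
  ext x
  constructor
  · rintro ⟨i, rfl⟩
    have : ι i ∈ Set.range ι := ⟨i, rfl⟩
    rw [h] at this
    change Sum.inr (c (ι i)) = Sum.inr a
    rw [this]
  · intro hx
    rcases x with i | t
    · cases hx
    · have h1 : c t = a := Sum.inr_injective hx
      have : t ∈ Set.range ι := by rw [h]; exact h1
      obtain ⟨i, hi⟩ := this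
      exact ⟨i, by rw [← hi]; rfl⟩

theorem commute_inl_AK1 (c : T → C) (a : C) (y : P X) :
    Commute (emb Function.Embedding.inl y) (AK (cc X c) {Sum.inr a}) := by
  obtain ⟨ι, hι⟩ := exists_block c a
  rw [AK_single (cc X c) (Sum.inr a) (ι.trans Function.Embedding.inr) (range_inr hι)]
  exact commute_emb_emb _ _ (fun _ _ => by simp) _ _

theorem commute_inl_AK (c : T → C) (K : Finset C) (y : P X) :
    Commute (emb Function.Embedding.inl y) (AK (cc X c) (K.map Function.Embedding.inr)) := by
  induction K using Finset.induction_on with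
  | empty => rw [Finset.map_empty, AK_empty]; exact Commute.one_right _
  | insert a K ha ih =>
    rw [Finset.map_insert, AK_insert _ _ _ (by simpa using ha)]
    exact (commute_inl_AK1 c a y).mul_right ih

/-- One block. -/
theorem one_colour {Q : ℤ} {z : P X} (hz : ZP N Q z) (c : T → C) (a : C)
    (ha : (univ.filter (fun t => c t = a)).card ≤ N) :
    ∃ (q : P (X ⊕ T)) (F : ℤ), IsCoprime F Q ∧
      (∀ y : P X, Commute (emb Function.Embedding.inl y) q) ∧
      (∀ b, b ≠ a → Commute q (AK (cc X c) {Sum.inr b})) ∧
      (N.factorial : ℤ) • (F • emb Function.Embedding.inl z -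
        q * AK (cc X c) {Sum.inr a} * emb Function.Embedding.inl z) ∈ JR N (cc X c) := by
  obtain ⟨d, hd⟩ : ∃ d, d = (univ.filter (fun t => c t = a)).card := ⟨_, rfl⟩
  rw [← hd] at ha
  obtain ⟨ι, hι⟩ : ∃ ι : Fin d ↪ T, Set.range ι = {x | c x = a} := by
    rw [hd]
    exact exists_block c a
  obtain ⟨e, F, hF, he, hs⟩ := split_all hz d
  let κ : X ⊕ Fin d ↪ X ⊕ T := ⟨Sum.map id ι, Function.injective_id.sumMap ι.injective⟩
  have hκl : ∀ y : P X, emb κ (emb Function.Embedding.inl y) = emb Function.Embedding.inl y := by
    intro y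
    rw [emb_trans]
    rfl
  have hκr : ∀ y : P (Fin d), emb κ (emb Function.Embedding.inr y) =
      emb (ι.trans Function.Embedding.inr) y := by
    intro y
    rw [emb_trans]
    rfl
  have hA : AK (cc X c) {Sum.inr a} = emb (ι.trans Function.Embedding.inr) (As (Fin d)) :=
    AK_single (cc X c) (Sum.inr a) (ι.trans Function.Embedding.inr) (range_inr hι)
  refine ⟨emb κ e, F, hF, fun y => ?_, fun b hb => ?_, ?_⟩
  · rw [← hκl]
    exact (he y).map (emb κ)
  · obtain ⟨ι', hι'⟩ := exists_block c b
    rw [AK_single (cc X c) (Sum.inr b) (ι'.trans Function.Embedding.inr) (range_inr hι')]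
    refine commute_emb_emb _ _ (fun x y => ?_) _ _
    rcases x with i | i
    · intro h
      cases h
    · intro h
      have h1 : ι i = ι' y := Sum.inr_injective h
      have h2 : c (ι i) = a := by
        have : ι i ∈ Set.range ι := ⟨i, rfl⟩
        rw [hι] at this
        exact this
      have h3 : c (ι' y) = b := by
        have : ι' y ∈ Set.range ι' := ⟨y, rfl⟩
        rw [hι'] at this
        exact this
      exact hb (by rw [← h3, ← h1, h2])
  · set w := F • emb Function.Embedding.inl z -
      emb κ e * AK (cc X c) {Sum.inr a} * emb Function.Embedding.inl z with hw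
    have h1 : act N _ (emb (ι.trans Function.Embedding.inr) (As (Fin d)) * w) = 0 := by
      have h2 := act_emb_eq_zero (N := N) κ
          (emb Function.Embedding.inr (As (Fin d)) * e *
            emb Function.Embedding.inr (As (Fin d)) * emb Function.Embedding.inl z -
            F • (emb Function.Embedding.inr (As (Fin d)) * emb Function.Embedding.inl z))
          (by rw [map_sub, hs, map_zsmul, sub_self])
      rw [map_sub, emb_zsmul, map_mul, map_mul, map_mul, map_mul, hκl, hκr] at h2
      rw [hw, hA]
      have h3 : emb (ι.trans Function.Embedding.inr) (As (Fin d)) *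
          (F • emb Function.Embedding.inl z - emb κ e *
            emb (ι.trans Function.Embedding.inr) (As (Fin d)) * emb Function.Embedding.inl z) =
          -(emb (ι.trans Function.Embedding.inr) (As (Fin d)) * emb κ e *
            emb (ι.trans Function.Embedding.inr) (As (Fin d)) * emb Function.Embedding.inl z -
            F • (emb (ι.trans Function.Embedding.inr) (As (Fin d)) *
              emb Function.Embedding.inl z)) := by
        rw [mul_sub, mul_smul_comm]
        simp only [mul_assoc]
        abel
      rw [h3, map_neg, h2, neg_zero]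
    have h2 : emb (ι.trans Function.Embedding.inr) (As (Fin d)) * w ∈ JR N (cc X c) :=
      AddSubgroup.subset_closure (Or.inr h1)
    have h3 := JR_average (N := N) (cc X c) (ι.trans Function.Embedding.inr)
      (fun i j => by
        have h : ∀ i, cc X c ((ι.trans Function.Embedding.inr) i) = Sum.inr a := by
          intro i
          have : (ι.trans (Function.Embedding.inr : T ↪ X ⊕ T)) i ∈
            Set.range (ι.trans (Function.Embedding.inr : T ↪ X ⊕ T)) := ⟨i, rfl⟩
          rw [range_inr hι] at this
          exact this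
        rw [h i, h j]) w
    have h4 : (d.factorial : ℤ) • w ∈ JR N (cc X c) := by
      have := (JR N (cc X c)).add_mem h3 h2
      rwa [sub_add_cancel] at this
    obtain ⟨m, hm⟩ := Nat.factorial_dvd_factorial ha
    rw [hm, Nat.cast_mul, mul_comm, mul_smul]
    exact (JR N (cc X c)).zsmul_mem h4 _

/-- Telescoping. -/
theorem telescope {Q : ℤ} {z : P X} (hz : ZP N Q z) (c : T → C)
    (hc : ∀ a, (univ.filter (fun t => c t = a)).card ≤ N) (K : Finset C) :
    ∃ (q : P (X ⊕ T)) (F : ℤ), IsCoprime F Q ∧
      (∀ y : P X, Commute (emb Function.Embedding.inl y) q) ∧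
      (∀ b, b ∉ K → Commute q (AK (cc X c) {Sum.inr b})) ∧
      (N.factorial : ℤ) • (F • emb Function.Embedding.inl z -
        q * AK (cc X c) (K.map Function.Embedding.inr) * emb Function.Embedding.inl z) ∈
          JR N (cc X c) := by
  induction K using Finset.induction_on with
  | empty =>
    refine ⟨1, 1, isCoprime_one_left, fun y => Commute.one_right _, fun b _ => Commute.one_left _,
      ?_⟩
    rw [Finset.map_empty, AK_empty, one_mul, one_smul, one_mul, sub_self, smul_zero]
    exact AddSubgroup.zero_mem _
  | insert a K ha ih =>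
    obtain ⟨q, F, hF, hq, hqb, hJ⟩ := ih
    obtain ⟨q', F', hF', hq', hqb', hJ'⟩ := one_colour hz c a (hc a)
    have hins : AK (cc X c) ((insert a K).map Function.Embedding.inr) =
        AK (cc X c) {Sum.inr a} * AK (cc X c) (K.map Function.Embedding.inr) := by
      rw [Finset.map_insert]
      exact AK_insert _ _ _ (by simpa using ha)
    refine ⟨q' * q, F' * F, hF'.mul_left hF, fun y => (hq' y).mul_right (hq y), fun b hb => ?_, ?_⟩
    · rw [Finset.mem_insert, not_or] at hb
      exact (hqb' b hb.1).mul_left (hqb b hb.2)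
    · set zz : P (X ⊕ T) := emb Function.Embedding.inl z with hzz
      set A1 := AK (cc X c) {Sum.inr a} with hA1
      set A2 := AK (cc X c) (K.map Function.Embedding.inr) with hA2
      have hz2 : Commute zz A2 := commute_inl_AK c K z
      have hzq : Commute zz q := hq z
      have hqA : Commute q A1 := hqb a ha
      have e1 : q' * q * (A1 * A2) * zz = q' * A1 * zz * (q * A2) := by
        calc q' * q * (A1 * A2) * zz = q' * (q * A1) * (A2 * zz) := by simp only [mul_assoc]
          _ = q' * (A1 * q) * (zz * A2) := by rw [hqA.eq, hz2.eq]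
          _ = q' * A1 * (q * zz) * A2 := by simp only [mul_assoc]
          _ = q' * A1 * (zz * q) * A2 := by rw [hzq.eq]
          _ = _ := by simp only [mul_assoc]
      have e2 : q * A2 * zz = zz * (q * A2) := by
        rw [mul_assoc, ← hz2.eq, ← mul_assoc, ← hzq.eq, mul_assoc]
      have e3 : (N.factorial : ℤ) • ((F' * F) • zz - q' * q * (A1 * A2) * zz) =
          F' • ((N.factorial : ℤ) • (F • zz - q * A2 * zz)) +
            ((N.factorial : ℤ) • (F' • zz - q' * A1 * zz)) * (q * A2) := by
        rw [e1, e2, smul_mul_assoc, sub_mul, smul_mul_assoc, smul_comm F' (N.factorial : ℤ),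
          ← smul_add]
        congr 1
        rw [smul_sub, smul_smul]
        abel
      rw [hins, e3]
      exact (JR N (cc X c)).add_mem ((JR N (cc X c)).zsmul_mem hJ _) (JR_mul hJ' _)

/-- The catalyst. -/
theorem catalyst {Q : ℤ} {z : P X} (hz : ZP N Q z) (c : T → C)
    (hc : ∀ a, (univ.filter (fun t => c t = a)).card ≤ N) :
    ∃ F : ℤ, IsCoprime F Q ∧
      ((N.factorial : ℤ) * F) • emb Function.Embedding.inl z ∈ J N (cc X c) := by
  obtain ⟨q, F, hF, hq, hqb, hJ⟩ := telescope hz c hc (univ.image c)
  refine ⟨F, hF, ?_⟩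
  have h1 := JR_le N (cc X c) hJ
  have hcomm := commute_inl_AK c (univ.image c) z
  rw [← Ac_eq_AK] at hJ h1 hcomm
  have h2 : (N.factorial : ℤ) • (q * Ac (cc X c) * emb Function.Embedding.inl z) ∈
      J N (cc X c) := by
    refine (J N (cc X c)).zsmul_mem ?_ _
    rw [mul_assoc, ← hcomm.eq, ← mul_assoc]
    exact AddSubgroup.subset_closure (Or.inl (Or.inr ⟨_, rfl⟩))
  have h3 := (J N (cc X c)).add_mem h1 h2
  rw [← smul_add, sub_add_cancel, smul_smul] at h3
  exact h3

/-- Large blocks. -/
theorem large_block (c : T → C) (a : C) (ha : N < (univ.filter (fun t => c t = a)).card) :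
    ((N + 1).factorial : ℤ) • (1 : P T) ∈ J N c := by
  obtain ⟨ι, hι⟩ := exists_block c a
  let ι' : Fin (N + 1) ↪ T := (Fin.castLEEmb ha).trans ι
  have h1 : ∀ i, c (ι' i) = a := by
    intro i
    have : ι' i ∈ Set.range ι := ⟨_, rfl⟩
    rw [hι] at this
    exact this
  have h2 := JR_average (N := N) c ι' (fun i j => by rw [h1, h1]) 1
  have h3 : emb ι' (As (Fin (N + 1))) * 1 ∈ JR N c := by
    rw [mul_one]
    refine AddSubgroup.subset_closure (Or.inr ?_)
    exact act_emb_eq_zero ι' _ (act_As (by simp))
  have h4 := (JR N c).add_mem h2 h3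
  rw [sub_add_cancel] at h4
  exact JR_le N c h4

end tel

end Pool.PI34.H4
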