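import Pool.Agent.LibPI34.H4_Z2

/-!
PI34, block H4, file 5: the components of maximal level of a highest weight vector.
-/

set_option autoImplicit false
set_option linter.unusedSectionVars false
set_option linter.unusedDecidableInType false
set_option linter.unusedFintypeInType false

namespace Pool.PI34.H4

open Equiv Finset Polynomial

section top

variable {N : ℕ} {X T : Type} [Fintype X] [DecidableEq X] [Fintype T] [DecidableEq T]

theorem cnt_elim (w : X → Fin N) (v : T → Fin N) (a : Fin N) :
    cnt (Sum.elim w v) a = cnt w a + cnt v a := by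
  unfold cnt
  rw [Finset.card_filter, Finset.card_filter, Finset.card_filter, Fintype.sum_sum_type]
  rfl

theorem hgt_comp (v : T → Fin N) (σ : Perm T) : hgt (v ∘ σ) = hgt v := by
  unfold hgt
  exact Equiv.sum_comp σ (fun t => (v t : ℕ))

theorem EE_elim (a b : Fin N) (x : W N (X ⊕ T)) (w : X → Fin N) (v : T → Fin N) :
    EE a b x (Sum.elim w v) = EE a b (fun w => x (Sum.elim w v)) w +
      ∑ t, if v t = a then x (Sum.elim w (Function.update v t b)) else 0 := by
  rw [EE_apply, EE_apply, Fintype.sum_sum_type]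
  congr 1
  · refine Finset.sum_congr rfl (fun i _ => ?_)
    rw [Sum.elim_inl, Sum.update_elim_inl]
  · refine Finset.sum_congr rfl (fun t _ => ?_)
    rw [Sum.elim_inr, Sum.update_elim_inr]

/-- No components above a level. -/
def Top (s : ℕ) (x : W N (X ⊕ T)) : Prop := ∀ w v, s < hgt v → x (Sum.elim w v) = 0

theorem Top.comp_HW {s : ℕ} {x : W N (X ⊕ T)} (ht : Top s x) (hx : HW x) {v : T → Fin N}
    (hv : s ≤ hgt v) : HW (fun w => x (Sum.elim w v)) := by
  intro a b hab
  funext w
  have h1 := EE_elim a b x w v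
  rw [hx a b hab] at h1
  have h2 : ∑ t, (if v t = a then x (Sum.elim w (Function.update v t b)) else 0) = 0 := by
    refine Finset.sum_eq_zero (fun t _ => ?_)
    split_ifs with h
    · refine ht _ _ ?_
      have h3 := hgt_update v t b
      rw [h] at h3
      have : (a : ℕ) < b := hab
      omega
    · rfl
  rw [h2, add_zero] at h1
  exact h1.symm

theorem elim_comp_swap_inr (w : X → Fin N) (v : T → Fin N) (t l : T) :
    (Sum.elim w v) ∘ ⇑(swap (Sum.inr t : X ⊕ T) (Sum.inr l)) = Sum.elim w (v ∘ swap t l) := by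
  funext z
  rcases z with i | u
  · simp only [Function.comp_apply]
    rw [swap_apply_of_ne_of_ne (by simp) (by simp)]
    rfl
  · simp only [Function.comp_apply, Sum.elim_inr]
    rcases eq_or_ne u t with rfl | h1
    · rw [swap_apply_left, swap_apply_left]; rfl
    · rcases eq_or_ne u l with rfl | h2
      · rw [swap_apply_right, swap_apply_right]; rfl
      · rw [swap_apply_of_ne_of_ne (fun e => h1 (Sum.inr_injective e))
          (fun e => h2 (Sum.inr_injective e)), swap_apply_of_ne_of_ne h1 h2]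
        rfl

theorem elim_comp_swap (w : X → Fin N) (v : T → Fin N) (i : X) (l : T) :
    (Sum.elim w v) ∘ ⇑(swap (Sum.inl i : X ⊕ T) (Sum.inr l)) =
      Sum.elim (Function.update w i (v l)) (Function.update v l (w i)) := by
  rw [← update_update_swap (Sum.elim w v) (x := Sum.inl i) (y := Sum.inr l) (by simp)]
  rw [Sum.elim_inl, Sum.elim_inr, Sum.update_elim_inl, Sum.update_elim_inr]

variable (X) in
/-- The sum of the transpositions of the place `l` with the places of `X`. -/
noncomputable def sX (l : T) : P (X ⊕ T) := ∑ i : X, g (swap (Sum.inl i) (Sum.inr l))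

variable (X) in
/-- The sum of the transpositions of the place `l` with the other places of `T`. -/
noncomputable def sT (l : T) : P (X ⊕ T) :=
  ∑ t ∈ univ.erase l, g (swap (Sum.inr l) (Sum.inr t))

theorem act_sT (l : T) (x : W N (X ⊕ T)) (w : X → Fin N) (v : T → Fin N) :
    act N _ (sT X l) x (Sum.elim w v) =
      ∑ t ∈ univ.erase l, x (Sum.elim w (v ∘ swap l t)) := by
  unfold sT
  rw [act_sum, Finset.sum_apply]
  refine Finset.sum_congr rfl (fun t _ => ?_)
  rw [act_g, elim_comp_swap_inr]

theorem act_sX {s : ℕ} {x : W N (X ⊕ T)} (ht : Top s x) (hx : HW x) {v : T → Fin N}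
    (hv : s ≤ hgt v) (l : T) (w : X → Fin N) :
    act N _ (sX X l) x (Sum.elim w v) =
      ((cnt w (v l) : ℚ) - (v l : ℕ)) * x (Sum.elim w v) -
        ∑ t ∈ univ.erase l, if v t < v l then x (Sum.elim w (v ∘ swap l t)) else 0 := by
  have h1 : act N _ (sX X l) x (Sum.elim w v) =
      ∑ b : Fin N, EE b (v l) (fun w => x (Sum.elim w (Function.update v l b))) w := by
    unfold sX
    rw [act_sum, Finset.sum_apply]
    simp only [EE_apply]
    rw [Finset.sum_comm]
    refine Finset.sum_congr rfl (fun i _ => ?_)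
    rw [act_g, elim_comp_swap, Finset.sum_ite_eq, if_pos (mem_univ _)]
  have h2 : ∀ b : Fin N, EE b (v l) (fun w => x (Sum.elim w (Function.update v l b))) w =
      (if b = v l then (cnt w (v l) : ℚ) * x (Sum.elim w v) else 0) -
        (if b < v l then x (Sum.elim w v) +
          ∑ t ∈ univ.erase l, (if v t = b then x (Sum.elim w (v ∘ swap l t)) else 0) else 0) := by
    intro b
    rcases lt_trichotomy b (v l) with h | h | h
    · rw [if_neg h.ne, if_pos h]
      have h3 := EE_elim b (v l) x w (Function.update v l b)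
      rw [hx b (v l) h, Pi.zero_apply, ← Finset.add_sum_erase _ _ (mem_univ l),
        Function.update_self, if_pos rfl, Function.update_idem, Function.update_eq_self] at h3
      have h4 : ∑ t ∈ univ.erase l, (if Function.update v l b t = b then
          x (Sum.elim w (Function.update (Function.update v l b) t (v l))) else 0) =
          ∑ t ∈ univ.erase l, (if v t = b then x (Sum.elim w (v ∘ swap l t)) else 0) := by
        refine Finset.sum_congr rfl (fun t ht => ?_)
        have ht' := Finset.ne_of_mem_erase ht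
        rw [Function.update_of_ne ht']
        by_cases hb : v t = b
        · rw [if_pos hb, if_pos hb, ← hb, update_update_swap v ht'.symm]
        · rw [if_neg hb, if_neg hb]
      rw [h4] at h3
      linarith
    · subst h
      rw [if_pos rfl, if_neg (lt_irrefl _), Function.update_eq_self, sub_zero, EE_self]
    · rw [if_neg h.ne', if_neg h.asymm, sub_zero]
      have h3 : (fun w => x (Sum.elim w (Function.update v l b))) = 0 := by
        funext w'
        refine ht _ _ ?_
        have h4 := hgt_update v l b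
        have : (v l : ℕ) < b := h
        omega
      rw [h3, map_zero]
      rfl
  rw [h1, Finset.sum_congr rfl (fun b _ => h2 b), Finset.sum_sub_distrib, Finset.sum_ite_eq',
    if_pos (mem_univ _), ← Finset.sum_filter, Finset.sum_add_distrib, Finset.sum_const,
    nsmul_eq_mul]
  have h3 : (univ.filter (fun b : Fin N => b < v l)).card = (v l : ℕ) := by
    conv_rhs => rw [← Fin.card_Iio (v l)]
    congr 1
    ext b
    simp
  rw [h3]
  have h4 : ∑ b ∈ univ.filter (fun b : Fin N => b < v l),
      ∑ t ∈ univ.erase l, (if v t = b then x (Sum.elim w (v ∘ swap l t)) else 0) =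
      ∑ t ∈ univ.erase l, if v t < v l then x (Sum.elim w (v ∘ swap l t)) else 0 := by
    rw [Finset.sum_comm]
    refine Finset.sum_congr rfl (fun t _ => ?_)
    rw [Finset.sum_ite_eq]
    simp
  rw [h4]
  ring

/-- The element `y`. -/
noncomputable def yy (N : ℕ) (X : Type) [Fintype X] [DecidableEq X] (l : T) : P (X ⊕ T) :=
  sX X l + sT X l + ((N : ℤ) - 1) • 1

theorem act_yy {s : ℕ} {x : W N (X ⊕ T)} (ht : Top s x) (hx : HW x) {v : T → Fin N}
    (hv : s ≤ hgt v) (l : T) (w : X → Fin N) :
    act N _ (yy N X l) x (Sum.elim w v) =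
      ((cnt w (v l) : ℚ) + N - 1 - (v l : ℕ)) * x (Sum.elim w v) +
        ∑ t ∈ univ.erase l, if v l ≤ v t then x (Sum.elim w (v ∘ swap l t)) else 0 := by
  unfold yy
  rw [act_add, act_add, act_zsmul, act_one, Pi.add_apply, Pi.add_apply, act_sX ht hx hv, act_sT,
    Pi.smul_apply, zsmul_eq_mul]
  have h1 : ∑ t ∈ univ.erase l, x (Sum.elim w (v ∘ swap l t)) =
      ∑ t ∈ univ.erase l, (if v t < v l then x (Sum.elim w (v ∘ swap l t)) else 0) +
        ∑ t ∈ univ.erase l, (if v l ≤ v t then x (Sum.elim w (v ∘ swap l t)) else 0) := by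
    rw [← Finset.sum_add_distrib]
    refine Finset.sum_congr rfl (fun t _ => ?_)
    by_cases h : v t < v l
    · rw [if_pos h, if_neg (not_le.2 h), add_zero]
    · rw [if_neg h, if_pos (not_lt.1 h), zero_add]
  rw [h1]
  push_cast
  ring

theorem Top.yy {s : ℕ} {x : W N (X ⊕ T)} (ht : Top s x) (hx : HW x) (l : T) :
    Top s (act N _ (H4.yy N X l) x) := by
  intro w v hv
  rw [act_yy ht hx hv.le, ht _ _ hv, mul_zero, zero_add]
  refine Finset.sum_eq_zero (fun t _ => ?_)
  split_ifs
  · exact ht _ _ (by rw [hgt_comp]; exact hv)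
  · rfl

theorem act_pow_succ (y : P (X ⊕ T)) (j : ℕ) (x : W N (X ⊕ T)) :
    act N _ (y ^ (j + 1)) x = act N _ y (act N _ (y ^ j) x) := by
  rw [pow_succ', act_mul]

theorem Top.yy_pow {s : ℕ} {x : W N (X ⊕ T)} (ht : Top s x) (hx : HW x) (l : T) (j : ℕ) :
    Top s (act N _ ((H4.yy N X l) ^ j) x) ∧ HW (act N _ ((H4.yy N X l) ^ j) x) := by
  induction j with
  | zero => rw [pow_zero, act_one]; exact ⟨ht, hx⟩
  | succ j ih =>
    rw [act_pow_succ]
    exact ⟨ih.1.yy ih.2 l, ih.2.act _⟩

theorem act_emb_inl (z : P X) (x : W N (X ⊕ T)) (w : X → Fin N) (v : T → Fin N) :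
    act N _ (emb Function.Embedding.inl z) x (Sum.elim w v) =
      act N X z (fun w => x (Sum.elim w v)) w := by
  rw [act_emb]
  have h1 : (fun w1 : X → Fin N => x (glue Function.Embedding.inl w1 (Sum.elim w v))) =
      fun w1 => x (Sum.elim w1 v) := by
    funext w1
    congr 1
    funext z
    rcases z with i | t
    · exact glue_apply Function.Embedding.inl w1 (Sum.elim w v) i
    · rw [glue_apply_of_notMem]
      · rfl
      · rintro ⟨i, hi⟩
        cases hi
  rw [h1]
  rfl

/-- The property of `z`: the highest weight vectors have the weight `(q - 1) (N - 1 - a)`. -/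
def ZP (N : ℕ) (Q : ℤ) (z : P X) : Prop :=
  ∀ u' : W N X, HW (act N X z u') → OneW (act N X z u') →
    ∀ w, act N X z u' w ≠ 0 → ∀ a, (cnt w a : ℤ) = (Q - 1) * ((N : ℤ) - 1 - (a : ℕ))

/-- The weight at a component of maximal level. -/
theorem top_wt {Q : ℤ} {z : P X} (hz : ZP N Q z) {x x' : W N (X ⊕ T)}
    (hxz : x = act N _ (emb Function.Embedding.inl z) x') (hx : HW x) (h1 : OneW x)
    {v : T → Fin N} (ht : Top (hgt v) x) {w : X → Fin N} (hw : x (Sum.elim w v) ≠ 0) (a : Fin N) :
    (cnt w a : ℤ) = (Q - 1) * ((N : ℤ) - 1 - (a : ℕ)) := by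
  have h2 : (fun w => x (Sum.elim w v)) = act N X z (fun w => x' (Sum.elim w v)) := by
    funext w
    rw [hxz, act_emb_inl]
  have h3 := ht.comp_HW hx le_rfl
  have h4 : OneW (fun w => x (Sum.elim w v)) := by
    intro w1 w2 hw1 hw2 a
    have := h1 _ _ hw1 hw2 a
    rw [cnt_elim, cnt_elim] at this
    omega
  rw [h2] at h3 h4
  have h5 : act N X z (fun w => x' (Sum.elim w v)) w ≠ 0 := by
    rw [← h2]; exact hw
  exact hz _ h3 h4 w h5 a

/-- The coefficients of the powers of `y`. -/
def phi {N : ℕ} (Q : ℤ) (s : T → Fin N) : ℕ → T → ℤ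
  | 0, _ => 1
  | j + 1, k => Q * ((N : ℤ) - 1 - (s k : ℕ)) * phi Q s j k -
      ∑ b ∈ univ.filter (fun b => s k < s b), phi Q s j b

theorem phi_spec {Q : ℤ} {s : T → Fin N} (hs : Function.Injective s) {x : W N (X ⊕ T)} (hx : HW x)
    (ht : Top (hgt s) x) (hwt : ∀ w, x (Sum.elim w s) ≠ 0 → ∀ a,
      (cnt w a : ℤ) = (Q - 1) * ((N : ℤ) - 1 - (a : ℕ)))
    (halt : ∀ (σ : Perm T) w v, x (Sum.elim w (v ∘ σ)) = ((Perm.sign σ : ℤ) : ℚ) * x (Sum.elim w v))
    (l : T) (j : ℕ) : ∀ (σ : Perm T) (w : X → Fin N),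
      act N _ ((yy N X l) ^ j) x (Sum.elim w (s ∘ σ)) =
        ((Perm.sign σ : ℤ) : ℚ) * phi Q s j (σ l) * x (Sum.elim w s) := by
  induction j with
  | zero =>
    intro σ w
    rw [pow_zero, act_one, halt]
    simp [phi]
  | succ j ih =>
    intro σ w
    rw [act_pow_succ, act_yy (ht.yy_pow hx l j).1 (ht.yy_pow hx l j).2
      (by rw [hgt_comp]), ih σ w]
    have h1 : ∑ t ∈ univ.erase l, (if (s ∘ σ) l ≤ (s ∘ σ) t then
        act N _ ((yy N X l) ^ j) x (Sum.elim w ((s ∘ ⇑σ) ∘ swap l t)) else 0) =
        -(((Perm.sign σ : ℤ) : ℚ) * (∑ b ∈ univ.filter (fun b => s (σ l) < s b),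
          (phi Q s j b : ℚ)) * x (Sum.elim w s)) := by
      have h2 : ∀ t ∈ univ.erase l, (if (s ∘ σ) l ≤ (s ∘ σ) t then
          act N _ ((yy N X l) ^ j) x (Sum.elim w ((s ∘ ⇑σ) ∘ swap l t)) else 0) =
          if s (σ l) < s (σ t) then
            -(((Perm.sign σ : ℤ) : ℚ) * (phi Q s j (σ t) : ℚ) * x (Sum.elim w s)) else 0 := by
        intro t htl
        have htl' := Finset.ne_of_mem_erase htl
        have h3 : ((s ∘ ⇑σ) l ≤ (s ∘ ⇑σ) t) ↔ s (σ l) < s (σ t) := by
          constructor
          · intro h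
            exact lt_of_le_of_ne h (fun e => htl' (σ.injective (hs e)).symm)
          · exact fun h => h.le
        by_cases h4 : s (σ l) < s (σ t)
        · rw [if_pos (h3.2 h4), if_pos h4]
          have h5 : (s ∘ ⇑σ) ∘ ⇑(swap l t) = s ∘ ⇑(σ * swap l t) := rfl
          rw [h5, ih (σ * swap l t) w, Perm.sign_mul, Perm.sign_swap htl'.symm, Perm.mul_apply,
            swap_apply_left]
          push_cast
          ring
        · rw [if_neg (fun h => h4 (h3.1 h)), if_neg h4]
      rw [Finset.sum_congr rfl h2]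
      rw [Finset.sum_erase _ (by rw [if_neg (lt_irrefl _)])]
      rw [Equiv.sum_comp σ (fun b => if s (σ l) < s b then
        -(((Perm.sign σ : ℤ) : ℚ) * (phi Q s j b : ℚ) * x (Sum.elim w s)) else 0)]
      rw [← Finset.sum_filter, Finset.sum_neg_distrib, ← Finset.sum_mul, ← Finset.mul_sum]
    rw [h1]
    by_cases h0 : x (Sum.elim w s) = 0
    · rw [h0]; ring
    · have h2 := hwt w h0 ((s ∘ σ) l)
      have h3 : (cnt w ((s ∘ σ) l) : ℚ) = ((Q : ℚ) - 1) * ((N : ℚ) - 1 - ((s (σ l) : Fin N) : ℕ)) := by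
        exact_mod_cast h2
      rw [h3, phi]
      push_cast
      simp only [Function.comp_apply]
      ring

end top

end Pool.PI34.H4
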