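import Pool.Agent.LibPI34.H4_Top2

/-!
PI34, block H4, file 7: a polynomial of `h` kills the alternating words over `z`.
-/

set_option autoImplicit false
set_option linter.unusedSectionVars false
set_option linter.unusedDecidableInType false
set_option linter.unusedFintypeInType false

namespace Pool.PI34.H4

open Equiv Finset Polynomial

section top3

variable {N : ℕ} {X : Type} [Fintype X] [DecidableEq X] {d : ℕ}

theorem elim_split {T : Type} (w : X ⊕ T → Fin N) : w = Sum.elim (w ∘ Sum.inl) (w ∘ Sum.inr) :=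
  (Sum.elim_comp_inl_inr w).symm

theorem act_g_inr {T : Type} [Fintype T] [DecidableEq T] (σ : Perm T) (x : W N (X ⊕ T))
    (w : X → Fin N) (v : T → Fin N) :
    act N _ (g (σ.viaEmbedding Function.Embedding.inr)) x (Sum.elim w v) =
      x (Sum.elim w (v ∘ σ)) := by
  rw [act_g]
  congr 1
  funext z
  rcases z with i | t
  · rw [Function.comp_apply, Perm.viaEmbedding_apply_of_notMem]
    · rfl
    · rintro ⟨t, ht⟩
      cases ht
  · have := Perm.viaEmbedding_apply σ (Function.Embedding.inr : T ↪ X ⊕ T) t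
    rw [Function.Embedding.inr_apply] at this
    rw [Function.comp_apply, this]
    rfl

theorem Alt_iff (x : W N (X ⊕ Fin (d + 1))) : Alt x ↔ ∀ σ : Perm (Fin (d + 1)),
    act N _ (g (σ.viaEmbedding Function.Embedding.inr)) x = (Perm.sign σ : ℤ) • x := by
  constructor
  · intro h σ
    funext w
    rw [elim_split w, act_g_inr, h σ, Pi.smul_apply, zsmul_eq_mul]
  · intro h σ w v
    rw [← act_g_inr σ x w v, h σ, Pi.smul_apply, zsmul_eq_mul]

variable (X d) in
/-- The signed sum of the block. -/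
noncomputable def AA : P (X ⊕ Fin (d + 1)) := emb Function.Embedding.inr (As (Fin (d + 1)))

variable (X d) in
/-- The signed sum of the smaller block. -/
noncomputable def BB : P (X ⊕ Fin (d + 1)) :=
  emb Function.Embedding.inr (emb (sE d) (As (Fin d)))

theorem AA_eq : AA X d = at' X d * BB X d := by
  unfold AA at' BB
  rw [As_succ, map_mul]

theorem AA_eq' : AA X d = BB X d * at' X d := by
  unfold AA at' BB
  rw [As_succ', map_mul]

theorem BB_eq : BB X d = emb (sX' X d) (emb Function.Embedding.inr (As (Fin d))) := by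
  unfold BB
  rw [emb_trans, emb_trans]
  rfl

theorem Alt_AA (u : W N (X ⊕ Fin (d + 1))) : Alt (act N _ (AA X d) u) := by
  rw [Alt_iff]
  intro σ
  rw [← act_mul, AA, ← emb_g, ← map_mul, g_mul_As, emb_zsmul, act_zsmul]

theorem Alt.smul_iff {x : W N (X ⊕ Fin (d + 1))} {m : ℤ} (hm : m ≠ 0) (h : Alt (m • x)) :
    Alt x := by
  intro σ w v
  have h1 := h σ w v
  rw [Pi.smul_apply, Pi.smul_apply, zsmul_eq_mul, zsmul_eq_mul] at h1
  have hm' : (m : ℚ) ≠ 0 := by exact_mod_cast hm
  apply mul_left_cancel₀ hm'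
  rw [h1]
  ring

theorem Alt.BB {x : W N (X ⊕ Fin (d + 1))} (h : Alt x) :
    act N _ (H4.BB X d) x = (d.factorial : ℤ) • x := by
  rw [Alt_iff] at h
  unfold H4.BB As
  rw [map_sum, map_sum, act_sum]
  have h1 : ∀ e ∈ (univ : Finset (Perm (Fin d))),
      act N _ (emb Function.Embedding.inr (emb (sE d) ((Perm.sign e : ℤ) • g e))) x = x := by
    intro e _
    rw [emb_zsmul, emb_zsmul, emb_g, emb_g, act_zsmul, h, smul_smul]
    have h2 : Perm.sign (e.viaEmbedding (sE d)) = Perm.sign e := by
      have := Perm.decomposeFin.symm_sign (0 : Fin (d + 1)) e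
      rw [decomposeFin_eq, if_pos rfl, one_mul, swap_self] at this
      exact this
    rw [h2, sign_sq, one_smul]
  rw [Finset.sum_congr rfl h1, Finset.sum_const, Finset.card_univ, Fintype.card_perm,
    Fintype.card_fin]
  rw [natCast_zsmul]

theorem Alt.at' {x : W N (X ⊕ Fin (d + 1))} (h : Alt x) :
    act N _ (H4.at' X d) x = ((d : ℤ) + 1) • x := by
  funext w
  rw [elim_split w, act_at']
  have h1 : ∀ t ∈ univ.erase (0 : Fin (d + 1)),
      x (Sum.elim (w ∘ Sum.inl) ((w ∘ Sum.inr) ∘ swap 0 t)) =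
        - x (Sum.elim (w ∘ Sum.inl) (w ∘ Sum.inr)) := by
    intro t ht
    rw [h, Perm.sign_swap (Finset.ne_of_mem_erase ht).symm]
    simp
  rw [Finset.sum_congr rfl h1, Finset.sum_const, Finset.card_erase_of_mem (mem_univ _),
    Finset.card_univ, Fintype.card_fin, Pi.smul_apply, zsmul_eq_mul, nsmul_eq_mul]
  push_cast
  simp
  ring

theorem commute_yy_BB (N : ℕ) : Commute (BB X d) (yy N X (0 : Fin (d + 1))) := by
  rw [BB_eq]
  exact commute_yy_succ _

theorem Alt.hh {x : W N (X ⊕ Fin (d + 1))} (h : Alt x) : Alt (act N _ (H4.hh N X d) x) := by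
  have h1 : (d.factorial : ℤ) • act N _ (H4.hh N X d) x =
      act N _ (H4.AA X d) (act N _ ((yy N X (0 : Fin (d + 1))) ^ d) x) := by
    rw [AA_eq, act_mul, ← act_mul N (H4.BB X d), ((commute_yy_BB N).pow_right d).eq, act_mul,
      h.BB, map_zsmul, map_zsmul, H4.hh, act_mul]
  refine Alt.smul_iff (m := (d.factorial : ℤ)) (by exact_mod_cast d.factorial_ne_zero) ?_
  rw [h1]
  exact Alt_AA _

theorem SA_yy : SA N (yy N X (0 : Fin (d + 1))) := by
  unfold yy sX sT
  exact ((SA.sum _ _ (fun _ _ => SA_swap _ _)).add (SA.sum _ _ (fun _ _ => SA_swap _ _))).add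
    (SA_one.zsmul _)

theorem SA.neg {α : Type} [Fintype α] [DecidableEq α] {x : P α} (hx : SA N x) : SA N (-x) := by
  have := hx.zsmul (-1)
  rwa [neg_smul, one_smul] at this

theorem SA_at' : SA N (at' X d) := by
  rw [at'_eq, sub_eq_add_neg]
  exact SA_one.add (SA.neg (SA.sum _ _ (fun _ _ => SA_swap _ _)))

theorem SA.pow {α : Type} [Fintype α] [DecidableEq α] {x : P α} (hx : SA N x) (n : ℕ) :
    SA N (x ^ n) := by
  induction n with
  | zero => rw [pow_zero]; exact SA_one
  | succ n ih =>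
    rw [pow_succ]
    exact ih.mul hx ((Commute.refl x).pow_left n)

theorem ip_hh {x x' : W N (X ⊕ Fin (d + 1))} (h : Alt x) (h' : Alt x') :
    ip (act N _ (hh N X d) x) x' = ip x (act N _ (hh N X d) x') := by
  rw [hh, act_mul, act_mul, SA_at', h'.at', ← SA_at' x, h.at', ip_zsmul_left, ip_zsmul_right,
    SA_yy.pow d x x']

theorem ip_aeval_hh (q : ℤ[X]) {x : W N (X ⊕ Fin (d + 1))} (h : Alt x) :
    Alt (act N _ (aeval (hh N X d) q) x) ∧ ∀ x', Alt x' →
      ip (act N _ (aeval (hh N X d) q) x) x' = ip x (act N _ (aeval (hh N X d) q) x') := by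
  induction q using Polynomial.induction_on' with
  | add p q hp hq =>
    rw [map_add]
    refine ⟨?_, fun x' hx' => ?_⟩
    · intro σ w v
      rw [act_add, Pi.add_apply, Pi.add_apply, hp.1 σ, hq.1 σ]
      ring
    · rw [act_add, act_add, ip_add_left, ip_add_right, hp.2 x' hx', hq.2 x' hx']
  | monomial n a =>
    have h1 : Alt (act N _ ((hh N X d) ^ n) x) ∧ ∀ x', Alt x' →
        ip (act N _ ((hh N X d) ^ n) x) x' = ip x (act N _ ((hh N X d) ^ n) x') := by
      induction n with
      | zero => rw [pow_zero, act_one]; exact ⟨h, fun x' _ => by rw [act_one]⟩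
      | succ n ih =>
        refine ⟨?_, fun x' hx' => ?_⟩
        · rw [pow_succ', act_mul]
          exact ih.1.hh
        · rw [pow_succ', act_mul, ip_hh ih.1 hx', ih.2 _ hx'.hh, ← act_mul, ← pow_succ,
            pow_succ']
    rw [aeval_monomial, Algebra.algebraMap_eq_smul_one, smul_mul_assoc, one_mul]
    refine ⟨?_, fun x' hx' => ?_⟩
    · intro σ w v
      rw [act_zsmul, Pi.smul_apply, Pi.smul_apply, h1.1 σ, zsmul_eq_mul, zsmul_eq_mul]
      ring
    · rw [act_zsmul, act_zsmul, ip_zsmul_left, ip_zsmul_right, h1.2 x' hx']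

/-- The component of maximal level. -/
theorem exists_top {T : Type} [Fintype T] [DecidableEq T] {x : W N (X ⊕ T)} (h0 : x ≠ 0) :
    ∃ w v, x (Sum.elim w v) ≠ 0 ∧ Top (hgt v) x := by
  classical
  obtain ⟨u, hu⟩ := exists_ne h0
  obtain ⟨u', hu', hmax⟩ := Finset.exists_max_image (univ.filter (fun u => x u ≠ 0))
    (fun u => hgt (u ∘ Sum.inr)) ⟨u, by rw [mem_filter]; exact ⟨mem_univ _, hu⟩⟩
  rw [mem_filter] at hu'
  refine ⟨u' ∘ Sum.inl, u' ∘ Sum.inr, by rw [← elim_split]; exact hu'.2, fun w v hv => ?_⟩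
  by_contra hne
  have h1 := hmax (Sum.elim w v) (by rw [mem_filter]; exact ⟨mem_univ _, hne⟩)
  rw [Sum.elim_comp_inr] at h1
  omega

theorem range_eq_of_cnt {v s : Fin (d + 1) → Fin N} (h : ∀ a, cnt v a = cnt s a) :
    Set.range v = Set.range s := by
  ext a
  have e : ∀ u : Fin (d + 1) → Fin N, a ∈ Set.range u ↔ cnt u a ≠ 0 := by
    intro u
    unfold cnt
    rw [Finset.card_ne_zero]
    constructor
    · rintro ⟨x, hx⟩
      exact ⟨x, by rw [mem_filter]; exact ⟨mem_univ _, hx⟩⟩
    · rintro ⟨x, hx⟩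
      rw [mem_filter] at hx
      exact ⟨x, hx.2⟩
  rw [e, e, h]

theorem inj_of_cnt {v s : Fin (d + 1) → Fin N} (h : ∀ a, cnt v a = cnt s a)
    (hs : Function.Injective s) : Function.Injective v := by
  intro x y hxy
  by_contra hne
  have h1 : 1 < cnt v (v x) := by
    unfold cnt
    rw [Finset.one_lt_card]
    exact ⟨x, by rw [mem_filter]; exact ⟨mem_univ _, rfl⟩, y,
      by rw [mem_filter]; exact ⟨mem_univ _, hxy.symm⟩, hne⟩
  rw [h] at h1
  unfold cnt at h1
  rw [Finset.one_lt_card] at h1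
  obtain ⟨a, ha, b, hb, hab⟩ := h1
  rw [mem_filter] at ha hb
  exact hab (hs (ha.2.trans hb.2.symm))

theorem top_eig {Q : ℤ} {z : P X} (hz : ZP N Q z) {x x' : W N (X ⊕ Fin (d + 1))}
    (hxz : x = act N _ (emb Function.Embedding.inl z) x') (hx : HW x) (h1 : OneW x)
    (halt : Alt x) (h0 : x ≠ 0) :
    ∃ s : Fin (d + 1) → Fin N, StrictMono s ∧ act N _ (hh N X d) x = (PP Q s) • x := by
  obtain ⟨w0, v0, hw0, ht0⟩ := exists_top h0
  have hinj : Function.Injective v0 := by
    intro i j hij
    by_contra hne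
    have h2 := halt (swap i j) w0 v0
    have h3 : v0 ∘ ⇑(swap i j) = v0 := by
      funext t
      simp only [Function.comp_apply]
      rcases eq_or_ne t i with rfl | hx
      · rw [swap_apply_left, hij]
      · rcases eq_or_ne t j with rfl | hy
        · rw [swap_apply_right, hij]
        · rw [swap_apply_of_ne_of_ne hx hy]
    rw [h3, Perm.sign_swap hne] at h2
    apply hw0
    push_cast at h2
    linarith
  set s : Fin (d + 1) → Fin N := v0 ∘ Tuple.sort v0 with hsdef
  have hs : StrictMono s :=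
    (Tuple.monotone_sort v0).strictMono_of_injective (hinj.comp (Tuple.sort v0).injective)
  have hs1 : Function.Injective s := hs.injective
  have ht : Top (hgt s) x := by
    rw [hsdef, hgt_comp]; exact ht0
  have hws : x (Sum.elim w0 s) ≠ 0 := by
    rw [hsdef, halt]
    refine mul_ne_zero ?_ hw0
    have := sign_sq (Tuple.sort v0)
    intro h
    have h2 : ((Perm.sign (Tuple.sort v0) : ℤˣ) : ℤ) = 0 := by exact_mod_cast h
    rw [h2] at this
    simp at this
  have hwt : ∀ w, x (Sum.elim w s) ≠ 0 → ∀ a,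
      (cnt w a : ℤ) = (Q - 1) * ((N : ℤ) - 1 - (a : ℕ)) :=
    fun w hw a => top_wt hz hxz hx h1 ht hw a
  refine ⟨s, hs, ?_⟩
  rw [← sub_eq_zero]
  by_contra hne
  set x1 := act N _ (hh N X d) x - (PP Q s) • x with hx1def
  have hcomm : Commute (emb Function.Embedding.inl z) (hh N X d) := by
    rw [hh]
    exact (commute_at'_inl z).mul_right ((commute_yy_inl _ z).pow_right d)
  have hx1 : x1 = act N _ (hh N X d - (PP Q s) • 1) x := by
    rw [act_sub, act_zsmul, act_one]
  have hx1z : x1 = act N _ (emb Function.Embedding.inl z)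
      (act N _ (hh N X d - (PP Q s) • 1) x') := by
    rw [hx1, ← act_mul]
    have : Commute (emb Function.Embedding.inl z) (hh N X d - (PP Q s) • (1 : P (X ⊕ Fin (d + 1)))) :=
      Commute.sub_right hcomm ((Commute.one_right _).smul_right _)
    rw [this.eq, act_mul, ← hxz]
  have hH : HW x1 := by rw [hx1]; exact hx.act _
  have hO : OneW x1 := by rw [hx1]; exact h1.act _
  obtain ⟨w1, v1, hw1, ht1⟩ := exists_top hne
  -- the words in the support of `x1` have the letters of `x`
  have hc : ∀ a, cnt (Sum.elim w1 v1) a = cnt (Sum.elim w0 s) a := by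
    have h2 : HasWt (cnt (Sum.elim w0 s)) x1 := by
      have h3 : HasWt (cnt (Sum.elim w0 s)) x := fun w hw a => h1 _ _ hw hws a
      intro w hw a
      by_contra hne'
      apply hw
      have h4 : EE a a x1 = ((cnt (Sum.elim w0 s) a : ℕ) : ℚ) • x1 := by
        rw [hx1, EE_act, h3.EE_self, map_smul]
      have h5 := congrFun h4 w
      rw [EE_self, Pi.smul_apply, smul_eq_mul] at h5
      have h6 : ((cnt w a : ℚ) - cnt (Sum.elim w0 s) a) * x1 w = 0 := by
        rw [sub_mul, h5, sub_self]
      rcases mul_eq_zero.1 h6 with h7 | h7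
      · exfalso
        apply hne'
        have : (cnt w a : ℚ) = cnt (Sum.elim w0 s) a := by linarith
        exact_mod_cast this
      · exact h7
    exact h2 _ hw1
  have hcv : ∀ a, cnt v1 a = cnt s a := by
    intro a
    have h2 := top_wt hz hx1z hH hO ht1 hw1 a
    have h3 := hwt w0 hws a
    have h4 := hc a
    rw [cnt_elim, cnt_elim] at h4
    have h5 : cnt w1 a = cnt w0 a := by
      have : (cnt w1 a : ℤ) = cnt w0 a := by rw [h2, h3]
      exact_mod_cast this
    omega
  have hv1 : v1 ∘ Tuple.sort v1 = s := by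
    have h2 : StrictMono (v1 ∘ Tuple.sort v1) :=
      (Tuple.monotone_sort v1).strictMono_of_injective
        ((inj_of_cnt hcv hs1).comp (Tuple.sort v1).injective)
    rw [← StrictMono.range_inj h2 hs, ← range_eq_of_cnt hcv, (Tuple.sort v1).surjective.range_comp]
  apply hw1
  have h2 : v1 = s ∘ ⇑(Tuple.sort v1)⁻¹ := by
    rw [← hv1]
    funext t
    simp
  rw [hx1def, Pi.sub_apply, Pi.smul_apply, h2, hh_comp hs1 hx ht hwt halt, zsmul_eq_mul, sub_self]

variable (N d) in
/-- The polynomial. -/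
noncomputable def ff (Q : ℤ) : ℤ[X] :=
  ∏ t ∈ (univ.filter (fun s : Fin (d + 1) → Fin N => StrictMono s)).image (PP Q), (Polynomial.X - Polynomial.C t)

theorem ff_kill {Q : ℤ} {z : P X} (hz : ZP N Q z) :
    act N _ (aeval (hh N X d) (ff N d Q) * (AA X d * emb Function.Embedding.inl z)) = 0 := by
  classical
  set F : P (X ⊕ Fin (d + 1)) := aeval (hh N X d) (ff N d Q) with hF
  set zz : P (X ⊕ Fin (d + 1)) := emb Function.Embedding.inl z with hzz
  have hcomm : Commute zz (hh N X d) := by
    rw [hh]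
    exact (commute_at'_inl z).mul_right ((commute_yy_inl _ z).pow_right d)
  have hcommF : Commute zz F := (Commute.aeval_left hcomm.symm _).symm
  have hcommA : Commute zz (AA X d) := commute_emb_emb _ _ (fun _ _ => by simp) _ _
  by_contra hne
  let S : Submodule ℚ (W N (X ⊕ Fin (d + 1))) :=
    LinearMap.range (act N _ (F * (AA X d * zz)))
  obtain ⟨x, hxS, hx0, hxH, hxO⟩ := exists_hw S
    (fun a b f hf => by
      obtain ⟨f', rfl⟩ := hf
      exact ⟨EE a b f', (EE_act a b _ f').symm⟩)
    (fun h => hne (LinearMap.range_eq_bot.1 h))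
  obtain ⟨f, hf⟩ := hxS
  have hx1 : x = act N _ F (act N _ (AA X d) (act N _ zz f)) := by
    rw [← hf, act_mul, act_mul]
  have hA0 : Alt (act N _ (AA X d) (act N _ zz f)) := Alt_AA _
  have hA : Alt x := by
    rw [hx1, hF]
    exact (ip_aeval_hh _ hA0).1
  have hxz : x = act N _ zz (act N _ F (act N _ (AA X d) f)) := by
    rw [hx1, ← act_mul, ← act_mul, ← act_mul, ← act_mul, mul_assoc, ← hcommA.eq, ← mul_assoc,
      ← hcommF.eq, mul_assoc]
  obtain ⟨s, hs, hs'⟩ := top_eig hz hxz hxH hxO hA hx0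
  have hFx : act N _ F x = 0 := by
    rw [hF, aeval_eig hs']
    have : (ff N d Q).eval (PP Q s) = 0 := by
      rw [ff, Polynomial.eval_prod]
      refine Finset.prod_eq_zero (i := PP Q s) ?_ ?_
      · exact Finset.mem_image_of_mem _ (by rw [mem_filter]; exact ⟨mem_univ _, hs⟩)
      · rw [eval_sub, eval_X, eval_C, sub_self]
    rw [this, zero_smul]
  apply hx0
  apply ip_self_eq_zero
  have h1 : ip x x = ip (act N _ (AA X d) (act N _ zz f)) (act N _ F x) := by
    conv_lhs => rw [hx1]
    rw [hF]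
    rw [(ip_aeval_hh _ hA0).2 _ (by rw [← hF, ← hx1]; exact hA), ← hF, ← hx1]
  rw [h1, hFx, ip_zero_right]

end top3

end Pool.PI34.H4
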