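import Pool.Agent.LibPI34.H4_Grp

/-!
PI34, block H4, file 3: an element `z` of the group algebra all of whose highest weight vectors
have a prescribed weight.
-/

set_option autoImplicit false
set_option linter.unusedSectionVars false
set_option linter.unusedDecidableInType false
set_option linter.unusedFintypeInType false

namespace Pool.PI34.H4

open Equiv Finset Polynomial

/-! ### Self adjoint elements -/

section sa

variable {α : Type} [Fintype α] [DecidableEq α]

/-- Self adjoint elements of the group algebra. -/
def SA (N : ℕ) (y : P α) : Prop := ∀ f h : W N α, ip (act N α y f) h = ip f (act N α y h)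

variable {N : ℕ}

theorem SA.add {x y : P α} (hx : SA N x) (hy : SA N y) : SA N (x + y) := by
  intro f h
  rw [act_add, act_add, ip_add_left, ip_add_right, hx, hy]

theorem SA.zsmul {x : P α} (hx : SA N x) (n : ℤ) : SA N (n • x) := by
  intro f h
  rw [act_zsmul, act_zsmul, ip_zsmul_left, ip_zsmul_right, hx]

theorem SA.mul {x y : P α} (hx : SA N x) (hy : SA N y) (hxy : Commute x y) : SA N (x * y) := by
  intro f h
  rw [act_mul, hx, hy, ← act_mul, hxy.eq]

theorem SA_one : SA N (1 : P α) := by
  intro f h
  rw [act_one, act_one]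

theorem SA.sum {ι : Type} (s : Finset ι) (x : ι → P α) (h : ∀ i ∈ s, SA N (x i)) :
    SA N (∑ i ∈ s, x i) := by
  classical
  induction s using Finset.induction_on with
  | empty =>
    intro f h
    rw [Finset.sum_empty, map_zero]
    rw [LinearMap.zero_apply, LinearMap.zero_apply, ip_zero_left, ip_zero_right]
  | insert a s ha ih =>
    rw [Finset.sum_insert ha]
    exact (h a (mem_insert_self _ _)).add (ih (fun i hi => h i (mem_insert_of_mem hi)))

theorem SA_swap (x y : α) : SA N (g (swap x y)) := by
  intro f h
  rw [act_of, ip_rho, swap_inv]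

theorem SA.aeval {x : P α} (hx : SA N x) (q : ℤ[X]) : SA N (aeval x q) := by
  induction q using Polynomial.induction_on' with
  | add p q hp hq => rw [map_add]; exact hp.add hq
  | monomial n a =>
    rw [aeval_monomial]
    have h1 : SA N (x ^ n) := by
      induction n with
      | zero => rw [pow_zero]; exact SA_one
      | succ n ih =>
        rw [pow_succ]
        exact ih.mul hx ((Commute.refl x).pow_left n)
    rw [Algebra.algebraMap_eq_smul_one, smul_mul_assoc, one_mul]
    exact h1.zsmul a

/-- A polynomial of an element acts on an eigenvector. -/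
theorem aeval_eig {x : P α} {u : W N α} {m : ℤ} (h : act N α x u = m • u) (q : ℤ[X]) :
    act N α (aeval x q) u = (q.eval m) • u := by
  induction q using Polynomial.induction_on' with
  | add p q hp hq => rw [map_add, act_add, hp, hq, eval_add, add_smul]
  | monomial n a =>
    have h1 : act N α (x ^ n) u = (m ^ n) • u := by
      induction n with
      | zero => rw [pow_zero, act_one, pow_zero, one_smul]
      | succ n ih => rw [pow_succ, act_mul, h, map_zsmul, ih, smul_smul, pow_succ, mul_comm]
    rw [aeval_monomial, Algebra.algebraMap_eq_smul_one, smul_mul_assoc, one_mul, act_zsmul, h1,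
      smul_smul, eval_monomial]

theorem Commute.aeval_left {R : Type} [Ring R] {x y : R} (h : Commute x y) (q : ℤ[X]) :
    Commute (aeval x q) y := by
  induction q using Polynomial.induction_on' with
  | add p q hp hq => rw [map_add]; exact Commute.add_left hp hq
  | monomial n a =>
    rw [aeval_monomial]
    exact Commute.mul_left (Algebra.commutes a y) (h.pow_left n)

end sa

/-! ### Weights -/

section wt

variable {α : Type} [Fintype α] [DecidableEq α] {N : ℕ}

/-- The vector has the given weight. -/
def HasWt (n : Fin N → ℕ) (u : W N α) : Prop := ∀ w, u w ≠ 0 → ∀ a, cnt w a = n a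

theorem exists_ne {u : W N α} (h0 : u ≠ 0) : ∃ w, u w ≠ 0 := by
  by_contra hc
  push Not at hc
  exact h0 (funext hc)

theorem OneW.exists_wt {u : W N α} (h : OneW u) (h0 : u ≠ 0) :
    ∃ w0, u w0 ≠ 0 ∧ HasWt (cnt w0) u := by
  obtain ⟨w, hw⟩ := exists_ne h0
  exact ⟨w, hw, fun w' hw' a => h _ _ hw' hw a⟩

theorem HasWt.EE_self {n : Fin N → ℕ} {u : W N α} (h : HasWt n u) (a : Fin N) :
    EE a a u = (n a : ℚ) • u := by
  funext w
  rw [H4.EE_self, Pi.smul_apply, smul_eq_mul]
  by_cases h1 : u w = 0
  · rw [h1, mul_zero, mul_zero]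
  · rw [h w h1]

/-- The pairs of different places with two given letters. -/
def KK (a b : Fin N) (f : W N α) (w : α → Fin N) : ℚ :=
  ∑ x, ∑ y, if w x = a ∧ w y = b ∧ x ≠ y then f (w ∘ swap x y) else 0

theorem KK_symm (a b : Fin N) (f : W N α) (w : α → Fin N) : KK a b f w = KK b a f w := by
  unfold KK
  rw [Finset.sum_comm]
  refine Finset.sum_congr rfl (fun x _ => Finset.sum_congr rfl (fun y _ => ?_))
  rw [swap_comm]
  have h : (w y = a ∧ w x = b ∧ y ≠ x) ↔ (w x = b ∧ w y = a ∧ x ≠ y) := by
    constructor
    · rintro ⟨h1, h2, h3⟩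
      exact ⟨h2, h1, h3.symm⟩
    · rintro ⟨h1, h2, h3⟩
      exact ⟨h2, h1, h3.symm⟩
  simp only [h]

theorem update_update_swap (w : α → Fin N) {x y : α} (h : x ≠ y) :
    Function.update (Function.update w x (w y)) y (w x) = w ∘ swap x y := by
  funext t
  simp only [Function.comp_apply]
  rcases eq_or_ne t y with rfl | hy
  · rw [Function.update_self, swap_apply_right]
  · rw [Function.update_of_ne hy]
    rcases eq_or_ne t x with rfl | hx
    · rw [Function.update_self, swap_apply_left]
    · rw [Function.update_of_ne hx, swap_apply_of_ne_of_ne hx hy]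

theorem EE_EE (a b : Fin N) (f : W N α) (w : α → Fin N) :
    EE a b (EE b a f) w = cnt w a * f w + KK a b f w := by
  rw [EE_apply]
  have h1 : ∀ x, (if w x = a then EE b a f (Function.update w x b) else 0) =
      (if w x = a then f w else 0) +
        ∑ y, if w x = a ∧ w y = b ∧ x ≠ y then f (w ∘ swap x y) else 0 := by
    intro x
    by_cases hx : w x = a
    · rw [if_pos hx, if_pos hx, EE_apply, ← Finset.add_sum_erase _ _ (mem_univ x),
        Function.update_self, if_pos rfl, Function.update_idem, ← hx, Function.update_eq_self]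
      congr 1
      rw [← Finset.add_sum_erase univ (fun y => if w x = w x ∧ w y = b ∧ x ≠ y then _ else _)
        (mem_univ x)]
      rw [if_neg (by simp), zero_add]
      refine Finset.sum_congr rfl (fun y hy => ?_)
      have hy' := Finset.ne_of_mem_erase hy
      rw [Function.update_of_ne hy']
      by_cases hb : w y = b
      · rw [if_pos hb, if_pos ⟨rfl, hb, hy'.symm⟩, ← update_update_swap w hy'.symm, hb]
      · rw [if_neg hb, if_neg (fun h => hb h.2.1)]
    · rw [if_neg hx, if_neg hx, zero_add]
      exact (Finset.sum_eq_zero (fun y _ => if_neg (fun h => hx h.1))).symm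
  rw [Finset.sum_congr rfl (fun x _ => h1 x), Finset.sum_add_distrib]
  congr 1
  rw [← Finset.sum_filter, Finset.sum_const, nsmul_eq_mul]
  rfl

theorem EE_comm (a b : Fin N) (f : W N α) (w : α → Fin N) :
    EE a b (EE b a f) w = EE b a (EE a b f) w + ((cnt w a : ℚ) - cnt w b) * f w := by
  rw [EE_EE, EE_EE, KK_symm]
  ring

variable (α) in
/-- The sum of all transpositions (the trivial ones included). -/
noncomputable def J2 : P α := ∑ x, ∑ y, g (swap x y)

theorem J2_comm (σ : Perm α) : Commute (g σ) (J2 α) := by
  unfold Commute SemiconjBy J2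
  simp only [Finset.mul_sum, Finset.sum_mul]
  refine Fintype.sum_equiv σ _ _ (fun x => Fintype.sum_equiv σ _ _ (fun y => ?_))
  rw [← g_mul, ← g_mul]
  congr 1
  rw [mul_swap_eq_swap_mul]

theorem J2_comm' (y : P α) : Commute y (J2 α) := by
  refine P_induction (p := fun y => Commute y (J2 α)) y J2_comm ?_ ?_
  · intro a b ha hb
    exact Commute.add_left ha hb
  · intro n a ha
    exact Commute.smul_left ha n

theorem SA_J2 : SA N (J2 α) :=
  SA.sum _ _ (fun _ _ => SA.sum _ _ (fun _ _ => SA_swap _ _))

theorem sum_cnt (w : α → Fin N) : ∑ a, cnt w a = Fintype.card α := by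
  unfold cnt
  simp only [Finset.card_filter]
  rw [Finset.sum_comm]
  have h : ∀ x : α, ∑ a, (if w x = a then 1 else 0) = 1 := by
    intro x
    rw [Finset.sum_ite_eq, if_pos (mem_univ _)]
  rw [Finset.sum_congr rfl (fun x _ => h x)]
  simp

theorem casimir (f : W N α) (w : α → Fin N) :
    ∑ a, ∑ b, EE a b (EE b a f) w =
      act N α (J2 α) f w + ((N : ℚ) - 1) * Fintype.card α * f w := by
  have h1 : ∀ a b, EE a b (EE b a f) w = cnt w a * f w + KK a b f w := fun a b => EE_EE a b f w
  simp only [h1, Finset.sum_add_distrib]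
  have h2 : ∑ a : Fin N, ∑ _b : Fin N, (cnt w a : ℚ) * f w = N * Fintype.card α * f w := by
    simp only [Finset.sum_const, Finset.card_univ, Fintype.card_fin, nsmul_eq_mul]
    rw [← Finset.mul_sum, ← Finset.sum_mul, ← Nat.cast_sum, sum_cnt]
    ring
  have h3 : ∑ a : Fin N, ∑ b : Fin N, KK a b f w =
      act N α (J2 α) f w - Fintype.card α * f w := by
    have h4 : act N α (J2 α) f w = ∑ x, ∑ y, f (w ∘ swap x y) := by
      unfold J2
      rw [act_sum, Finset.sum_apply]
      refine Finset.sum_congr rfl (fun x _ => ?_)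
      rw [act_sum, Finset.sum_apply]
      exact Finset.sum_congr rfl (fun y _ => act_g N _ f w)
    have h5 : ∑ a : Fin N, ∑ b : Fin N, KK a b f w =
        ∑ x, ∑ y, if x ≠ y then f (w ∘ swap x y) else 0 := by
      unfold KK
      rw [Finset.sum_congr rfl (fun a _ => Finset.sum_comm)]
      rw [Finset.sum_comm]
      refine Finset.sum_congr rfl (fun x _ => ?_)
      rw [Finset.sum_congr rfl (fun a _ => Finset.sum_comm)]
      rw [Finset.sum_comm]
      refine Finset.sum_congr rfl (fun y _ => ?_)
      rw [Finset.sum_eq_single (w x), Finset.sum_eq_single (w y)]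
      · simp
      · intro b _ hb
        exact if_neg (fun h => hb h.2.1.symm)
      · intro h
        exact absurd (mem_univ _) h
      · intro a _ ha
        exact Finset.sum_eq_zero (fun b _ => if_neg (fun h => ha h.1.symm))
      · intro h
        exact absurd (mem_univ _) h
    rw [h5, h4]
    have h6 : ∀ x, ∑ y, (if x ≠ y then f (w ∘ swap x y) else 0) =
        ∑ y, f (w ∘ swap x y) - f w := by
      intro x
      rw [← Finset.add_sum_erase _ _ (mem_univ x),
        ← Finset.add_sum_erase univ (fun y => f (w ∘ swap x y)) (mem_univ x)]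
      rw [if_neg (by simp), swap_self]
      have : w ∘ ⇑(Equiv.refl α) = w := rfl
      rw [this]
      rw [Finset.sum_congr rfl (g := fun y => f (w ∘ swap x y))
        (fun y hy => if_pos (Finset.ne_of_mem_erase hy).symm)]
      ring
    rw [Finset.sum_congr rfl (fun x _ => h6 x), Finset.sum_sub_distrib, Finset.sum_const,
      nsmul_eq_mul, Finset.card_univ]
  rw [h2, h3]
  ring

/-- The eigenvalue. -/
def TT (n : Fin N → ℕ) : ℤ := ∑ a : Fin N, ((n a : ℤ) ^ 2 + ((N : ℤ) - 1 - 2 * (a : ℕ)) * n a)

theorem eig {n : Fin N → ℕ} {u : W N α} (hu : HW u) (hn : HasWt n u) :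
    act N α (J2 α) u = (TT n - ((N : ℤ) - 1) * Fintype.card α) • u := by
  funext w
  have h1 := casimir u w
  have h2 : ∀ a b : Fin N, EE a b (EE b a u) w =
      (if a = b then ((n a : ℚ)) ^ 2 else if a < b then ((n a : ℚ) - n b) else 0) * u w := by
    intro a b
    rcases lt_trichotomy a b with h | h | h
    · rw [if_neg h.ne, if_pos h, EE_comm, hu a b h, map_zero]
      by_cases h0 : u w = 0
      · rw [h0]; simp
      · rw [hn w h0, hn w h0]
        simp
    · subst h
      rw [if_pos rfl, hn.EE_self, map_smul, hn.EE_self]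
      simp only [Pi.smul_apply, smul_eq_mul]
      ring
    · rw [if_neg h.ne', if_neg h.asymm, hu b a h, map_zero]
      simp
  have h3 : ∑ a : Fin N, ∑ b : Fin N,
      (if a = b then ((n a : ℚ)) ^ 2 else if a < b then ((n a : ℚ) - n b) else 0) = (TT n : ℚ) := by
    have e1 : ∀ a b : Fin N,
        (if a = b then ((n a : ℚ)) ^ 2 else if a < b then ((n a : ℚ) - n b) else 0) =
        (if a = b then ((n a : ℚ)) ^ 2 else 0) + (if a < b then (n a : ℚ) else 0) -
          (if a < b then (n b : ℚ) else 0) := by
      intro a b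
      rcases lt_trichotomy a b with h | h | h
      · simp [h, h.ne]
      · subst h; simp
      · simp [h.ne', h.asymm]
    simp only [e1, Finset.sum_sub_distrib, Finset.sum_add_distrib]
    have e2 : ∑ a : Fin N, ∑ b : Fin N, (if a = b then ((n a : ℚ)) ^ 2 else 0) =
        ∑ a : Fin N, (n a : ℚ) ^ 2 := by
      refine Finset.sum_congr rfl (fun a _ => ?_)
      rw [Finset.sum_ite_eq, if_pos (mem_univ _)]
    have e3 : ∑ a : Fin N, ∑ b : Fin N, (if a < b then (n a : ℚ) else 0) =
        ∑ a : Fin N, ((N : ℚ) - 1 - (a : ℕ)) * n a := by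
      refine Finset.sum_congr rfl (fun a _ => ?_)
      rw [← Finset.sum_filter, Finset.sum_const, nsmul_eq_mul]
      congr 1
      have : (univ.filter (fun b : Fin N => a < b)).card = N - 1 - (a : ℕ) := by
        rw [← Fin.card_Ioi a]
        congr 1
        ext b
        simp
      rw [this]
      have h4 : (a : ℕ) < N := a.2
      rw [Nat.cast_sub (by omega), Nat.cast_sub (by omega)]
      simp
    have e4 : ∑ a : Fin N, ∑ b : Fin N, (if a < b then (n b : ℚ) else 0) =
        ∑ a : Fin N, ((a : ℕ) : ℚ) * n a := by
      rw [Finset.sum_comm]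
      refine Finset.sum_congr rfl (fun a _ => ?_)
      rw [← Finset.sum_filter, Finset.sum_const, nsmul_eq_mul]
      congr 1
      have : (univ.filter (fun b : Fin N => b < a)).card = (a : ℕ) := by
        conv_rhs => rw [← Fin.card_Iio a]
        congr 1
        ext b
        simp
      rw [this]
    rw [e2, e3, e4]
    unfold TT
    push_cast
    rw [← Finset.sum_add_distrib, ← Finset.sum_sub_distrib]
    refine Finset.sum_congr rfl (fun a _ => ?_)
    ring
  rw [Pi.smul_apply, zsmul_eq_mul]
  push_cast
  rw [Finset.sum_congr rfl (fun a _ => Finset.sum_congr rfl (fun b _ => h2 a b))] at h1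
  have h4 : ∑ a : Fin N, ∑ b : Fin N,
      (if a = b then ((n a : ℚ)) ^ 2 else if a < b then ((n a : ℚ) - n b) else 0) * u w =
      (TT n : ℚ) * u w := by
    rw [← h3, Finset.sum_mul]
    exact Finset.sum_congr rfl (fun a _ => (Finset.sum_mul _ _ _).symm)
  rw [h4] at h1
  linarith

/-- Weights of highest weight vectors decrease. -/
theorem dominant {n : Fin N → ℕ} {u : W N α} (hu : HW u) (hn : HasWt n u) (h0 : u ≠ 0)
    {a b : Fin N} (hab : a < b) : n b ≤ n a := by
  have h1 : ip (EE b a u) (EE b a u) = ((n a : ℚ) - n b) * ip u u := by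
    rw [ip_EE]
    have : EE a b (EE b a u) = ((n a : ℚ) - n b) • u := by
      funext w
      rw [EE_comm, hu a b hab, map_zero]
      by_cases h0 : u w = 0
      · rw [h0]; simp [h0]
      · rw [hn w h0, hn w h0]
        simp
    rw [this, ip_comm, ip_smul_left]
  have h2 := ip_self_nonneg (EE b a u)
  have h3 : 0 < ip u u := lt_of_le_of_ne (ip_self_nonneg u) (fun h => h0 (ip_self_eq_zero h.symm))
  rw [h1] at h2
  have h4 : (0 : ℚ) ≤ (n a : ℚ) - n b := by
    by_contra hc
    push Not at hc
    have := mul_neg_of_neg_of_pos hc h3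
    linarith
  have h5 : (n b : ℚ) ≤ n a := by linarith
  exact_mod_cast h5

end wt

end Pool.PI34.H4
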