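import Pool.Agent.LibPI34.Super9

/-!
PI34, block P, file 1: catalysts with coefficients in a commutative ring `Λ → ℚ`, and their
relations in a ring on which `K(k|l)` acts by zero.
-/

set_option linter.unusedSectionVars false
set_option linter.unusedSimpArgs false

namespace Pool.PI34.Super

open Equiv Finset

section base

variable {Λ : Type} [CommRing Λ]

/-- base change `Λ[G] → ℚ[G]` -/
noncomputable def mj (j : Λ →+* ℚ) (G : Type) [Group G] :
    MonoidAlgebra Λ G →+* MonoidAlgebra ℚ G :=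
  MonoidAlgebra.mapRingHom G j

theorem mj_of (j : Λ →+* ℚ) {G : Type} [Group G] (g : G) :
    mj j G (MonoidAlgebra.of Λ G g) = MonoidAlgebra.of ℚ G g := by
  simp [mj, MonoidAlgebra.of_apply]

theorem mj_smul (j : Λ →+* ℚ) {G : Type} [Group G] (c : Λ) (y : MonoidAlgebra Λ G) :
    mj j G (c • y) = j c • mj j G y := by
  ext g
  simp [mj]

theorem mj_zsmul (j : Λ →+* ℚ) {G : Type} [Group G] (c : ℤ) (y : MonoidAlgebra Λ G) :
    mj j G (c • y) = (c : ℚ) • mj j G y := by
  rw [map_zsmul, Int.cast_smul_eq_zsmul]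

variable (Λ) in
/-- placement with coefficients in `Λ` -/
noncomputable def plL {κ ι : Type} [Fintype κ] [LinearOrder κ] [Fintype ι] [LinearOrder ι]
    (φ : κ ↪o ι) : MonoidAlgebra Λ (Perm κ) →+* MonoidAlgebra Λ (Perm ι) :=
  MonoidAlgebra.mapDomainRingHom Λ (ext φ)

variable {κ ι : Type} [Fintype κ] [LinearOrder κ] [Fintype ι] [LinearOrder ι]

theorem plL_of (φ : κ ↪o ι) (σ : Perm κ) :
    plL Λ φ (MonoidAlgebra.of Λ _ σ) = MonoidAlgebra.of Λ _ (ext φ σ) := by
  simp [plL]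

theorem plL_smul (φ : κ ↪o ι) (c : Λ) (y : MonoidAlgebra Λ (Perm κ)) :
    plL Λ φ (c • y) = c • plL Λ φ y := by
  unfold plL
  exact MonoidAlgebra.mapDomain_smul _ _ _

theorem mj_plL (j : Λ →+* ℚ) (φ : κ ↪o ι) (y : MonoidAlgebra Λ (Perm κ)) :
    mj j _ (plL Λ φ y) = pl φ (mj j _ y) := by
  induction y using MonoidAlgebra.induction_on with
  | of σ => rw [plL_of, mj_of, mj_of, pl_of]
  | add x y hx hy => rw [map_add, map_add, hx, hy, map_add, map_add]
  | smul r x hx => rw [plL_smul, mj_smul, hx, mj_smul, map_smul]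

theorem plL_trans {ι' : Type} [Fintype ι'] [LinearOrder ι'] (φ : κ ↪o ι) (ψ : ι ↪o ι')
    (hext : ∀ σ : Perm κ, ext ψ (ext φ σ) = ext (φ.trans ψ) σ)
    (y : MonoidAlgebra Λ (Perm κ)) :
    plL Λ ψ (plL Λ φ y) = plL Λ (φ.trans ψ) y := by
  induction y using MonoidAlgebra.induction_on with
  | of σ => rw [plL_of, plL_of, plL_of, hext]
  | add x y hx hy => rw [map_add, map_add, map_add, hx, hy]
  | smul r x hx => rw [plL_smul, plL_smul, plL_smul, hx]

theorem plL_conj (φ φ' : κ ↪o ι) (T : Perm ι) (h : ∀ a, T (φ a) = φ' a)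
    (y : MonoidAlgebra Λ (Perm κ)) :
    plL Λ φ' y = MonoidAlgebra.of Λ _ T * plL Λ φ y * MonoidAlgebra.of Λ _ T⁻¹ := by
  induction y using MonoidAlgebra.induction_on with
  | of σ => rw [plL_of, plL_of, ext_conj φ φ' T h, map_mul, map_mul]
  | add x y hx hy => rw [map_add, map_add, hx, hy, mul_add, add_mul]
  | smul r x hx => rw [plL_smul, plL_smul, hx, mul_smul_comm, smul_mul_assoc]

end base

/-- A catalyst with coefficients in `Λ`. -/
structure CatL {Λ : Type} [CommRing Λ] (j : Λ →+* ℚ) (k l m : ℕ) where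
  /-- the rational catalyst -/
  C : CatP k l m
  /-- the idempotent -/
  zL : MonoidAlgebra Λ (Perm (Fin m))
  /-- the colour element -/
  EL : MonoidAlgebra Λ (Perm (Fin (m + 1)))
  hz : mj j _ zL = C.z
  hE : mj j _ EL = C.E

namespace CatL

variable {Λ : Type} [CommRing Λ] {j : Λ →+* ℚ} {k l m : ℕ} (L : CatL j k l m) {n : ℕ}

/-- `1 ⊗ z` -/
noncomputable def Z (n : ℕ) : MonoidAlgebra Λ (Perm (Fin (n + m))) := plL Λ (phR n m) L.zL

/-- the colour element on strand `i` -/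
noncomputable def Ei (n : ℕ) (i : Fin n) : MonoidAlgebra Λ (Perm (Fin (n + m))) :=
  plL Λ (phi n m i) L.EL

/-- a permutation of the strands -/
noncomputable def S (Λ : Type) [CommRing Λ] (n m : ℕ) (σ : Perm (Fin n)) :
    MonoidAlgebra Λ (Perm (Fin (n + m))) :=
  MonoidAlgebra.of Λ _ (ext (phL n m) σ)

/-- the sign operators -/
noncomputable def SG (σ : Perm (Fin n)) : MonoidAlgebra Λ (Perm (Fin (n + m))) :=
  ((prs (Fin n)).toList.map (fun q => if σ q.2 < σ q.1 then
    1 - 2 * (L.Ei n q.1 * L.Ei n q.2) else 1)).prod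

/-- the plain flips -/
noncomputable def fl (σ : Perm (Fin n)) : MonoidAlgebra Λ (Perm (Fin (n + m))) :=
  S Λ n m σ * L.SG σ

theorem mj_Z : mj j _ (L.Z n) = L.C.Z n := by
  unfold Z CatP.Z; rw [mj_plL, L.hz]

theorem mj_Ei (i : Fin n) : mj j _ (L.Ei n i) = L.C.Ei n i := by
  unfold Ei CatP.Ei; rw [mj_plL, L.hE]

theorem mj_S (σ : Perm (Fin n)) : mj j _ (S Λ n m σ) = CatP.S n m σ := by
  unfold S CatP.S; rw [mj_of]

theorem mj_SG (σ : Perm (Fin n)) : mj j _ (L.SG σ) = L.C.SG σ := by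
  unfold SG CatP.SG
  rw [map_list_prod, List.map_map]
  congr 2
  funext q
  simp only [Function.comp_apply]
  split_ifs
  · rw [map_sub, map_one, map_mul, map_mul, mj_Ei, mj_Ei, map_ofNat, two_mul, two_smul]
  · rw [map_one]

theorem mj_fl (σ : Perm (Fin n)) : mj j _ (L.fl σ) = L.C.fl σ := by
  unfold fl CatP.fl; rw [map_mul, mj_S, mj_SG]

/-! ### relations in a ring on which the kernel acts by zero -/

variable {EE : Type} [Ring EE] (a : MonoidAlgebra Λ (Perm (Fin (n + m))) →+* EE)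
  (hK : ∀ y, act k l _ (mj j _ y) = 0 → a y = 0)

include hK

theorem a_Z : a (L.Z n) * a (L.Z n) = a (L.Z n) := by
  rw [← map_mul, ← sub_eq_zero, ← map_sub]
  apply hK
  have h := L.C.Z_idem (n := n)
  rw [map_sub, map_mul, mj_Z]
  rw [sub_mul, one_mul] at h
  exact h

theorem a_Z_Ei (i : Fin n) : a (L.Z n) * a (L.Ei n i) * a (L.Z n) = a (L.Ei n i) * a (L.Z n) := by
  rw [← map_mul, ← map_mul, ← map_mul, ← sub_eq_zero, ← map_sub]
  apply hK
  have h := L.C.Z_Ei (n := n) i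
  rw [map_sub, map_mul, map_mul, map_mul, mj_Z, mj_Ei]
  rw [sub_mul] at h
  exact h

theorem a_Ei_idem (i : Fin n) :
    a (L.Ei n i) * a (L.Ei n i) * a (L.Z n) = a (L.Ei n i) * a (L.Z n) := by
  rw [← map_mul, ← map_mul, ← map_mul, ← sub_eq_zero, ← map_sub]
  apply hK
  have h := L.C.Ei_idem (n := n) i
  rw [map_sub, map_mul, map_mul, map_mul, mj_Z, mj_Ei]
  rw [sub_mul] at h
  exact h

theorem a_Ei_comm (i i' : Fin n) :
    a (L.Ei n i) * a (L.Ei n i') * a (L.Z n) = a (L.Ei n i') * a (L.Ei n i) * a (L.Z n) := by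
  rw [← map_mul, ← map_mul, ← map_mul, ← map_mul, ← sub_eq_zero, ← map_sub]
  apply hK
  have h := L.C.Ei_comm (n := n) i i'
  rw [map_sub, map_mul, map_mul, map_mul, map_mul, mj_Z, mj_Ei, mj_Ei]
  rw [sub_mul] at h
  exact h

theorem a_fl_mul (σ τ : Perm (Fin n)) :
    a (L.fl σ) * a (L.fl τ) * a (L.Z n) = a (L.fl (σ * τ)) * a (L.Z n) := by
  rw [← map_mul, ← map_mul, ← map_mul, ← sub_eq_zero, ← map_sub]
  apply hK
  have h := L.C.fl_mul (n := n) σ τ
  rw [map_sub, map_mul, map_mul, map_mul, mj_Z, mj_fl, mj_fl, mj_fl]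
  rw [sub_mul] at h
  exact h

theorem a_fl_one : a (L.fl (1 : Perm (Fin n))) * a (L.Z n) = a (L.Z n) := by
  rw [← map_mul, ← sub_eq_zero, ← map_sub]
  apply hK
  have h := L.C.fl_one (n := n)
  rw [map_sub, map_mul, mj_Z, mj_fl]
  rw [sub_mul, one_mul] at h
  exact h

theorem a_Z_fl (σ : Perm (Fin n)) :
    a (L.Z n) * a (L.fl σ) * a (L.Z n) = a (L.fl σ) * a (L.Z n) := by
  rw [← map_mul, ← map_mul, ← map_mul, ← sub_eq_zero, ← map_sub]
  apply hK
  have h := L.C.Z_fl (n := n) σ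
  rw [map_sub, map_mul, map_mul, map_mul, mj_Z, mj_fl]
  rw [sub_mul] at h
  exact h

theorem a_alt (T : Finset (Fin n)) (hT : k + l < T.card) :
    (∑ σ ∈ univ.filter (fun σ : Perm (Fin n) => ∀ i, i ∉ T → σ i = i),
      ((Perm.sign σ : ℤˣ) : ℤ) • a (L.fl σ)) * a (L.Z n) = 0 := by
  have h1 : (∑ σ ∈ univ.filter (fun σ : Perm (Fin n) => ∀ i, i ∉ T → σ i = i),
      ((Perm.sign σ : ℤˣ) : ℤ) • a (L.fl σ)) * a (L.Z n)
      = a ((∑ σ ∈ univ.filter (fun σ : Perm (Fin n) => ∀ i, i ∉ T → σ i = i),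
      ((Perm.sign σ : ℤˣ) : ℤ) • (L.fl σ)) * L.Z n) := by
    rw [map_mul, map_sum]
    congr 1
    exact Finset.sum_congr rfl (fun σ _ => (map_zsmul a _ _).symm)
  rw [h1]
  apply hK
  rw [map_mul, map_sum, mj_Z]
  have h2 : ∀ σ : Perm (Fin n), mj j _ (((Perm.sign σ : ℤˣ) : ℤ) • (L.fl σ))
      = ((Perm.sign σ : ℤ) : ℚ) • L.C.fl σ := fun σ => by rw [mj_zsmul, mj_fl]
  rw [Finset.sum_congr rfl (fun σ _ => h2 σ)]
  exact L.C.alt_fl T hT

omit hK

theorem S_mul (σ τ : Perm (Fin n)) : S Λ n m (σ * τ) = S Λ n m σ * S Λ n m τ := by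
  unfold S; rw [map_mul, map_mul]

theorem S_Ei (σ : Perm (Fin n)) (i : Fin n) :
    S Λ n m σ * L.Ei n i = L.Ei n (σ i) * S Λ n m σ := by
  unfold S Ei
  have hT : ∀ a, ext (phL n m) σ (phi n m i a) = phi n m (σ i) a := by
    intro a
    rcases Fin.eq_zero_or_eq_succ a with rfl | ⟨a, rfl⟩
    · exact ext_apply (phL n m) σ i
    · exact ext_apply' _ _ _ (phL_notMem a)
  rw [plL_conj (phi n m i) (phi n m (σ i)) (ext (phL n m) σ) hT, mul_assoc, mul_assoc,
    ← map_mul (MonoidAlgebra.of Λ _), inv_mul_cancel, map_one, mul_one]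

theorem S_Z (σ : Perm (Fin n)) : S Λ n m σ * L.Z n = L.Z n * S Λ n m σ := by
  unfold S Z
  have hT : ∀ a, ext (phL n m) σ (phR n m a) = phR n m a := fun a =>
    ext_apply' _ _ _ (phL_notMem a)
  have h := plL_conj (phR n m) (phR n m) (ext (phL n m) σ) hT L.zL
  conv_rhs => rw [h, mul_assoc, mul_assoc, ← map_mul (MonoidAlgebra.of Λ _), inv_mul_cancel,
    map_one, mul_one]

/-- an adjacent transposition has exactly one inversion -/
theorem adj_inv {n : ℕ} (i : Fin n) (q : Fin (n + 1) × Fin (n + 1)) (hq : q ∈ prs (Fin (n + 1))) :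
    (swap i.castSucc i.succ q.2 < swap i.castSucc i.succ q.1) ↔ q = (i.castSucc, i.succ) := by
  obtain ⟨x, y⟩ := q
  rw [mem_prs] at hq
  simp only at hq ⊢
  have hne : i.castSucc ≠ i.succ := Fin.castSucc_lt_succ.ne
  constructor
  · intro h
    rw [swap_apply_def, swap_apply_def] at h
    rw [Fin.lt_def] at hq h
    split_ifs at h <;>
      (simp only [Prod.mk.injEq, Fin.ext_iff, Fin.val_castSucc, Fin.val_succ] at *; omega)
  · intro h
    simp only [Prod.mk.injEq] at h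
    rw [h.1, h.2, swap_apply_left, swap_apply_right]
    exact Fin.castSucc_lt_succ

theorem SG_adj {n : ℕ} (L : CatL j k l m) (i : Fin n) :
    L.SG (n := n + 1) (swap i.castSucc i.succ)
      = 1 - 2 * (L.Ei (n + 1) i.castSucc * L.Ei (n + 1) i.succ) := by
  classical
  unfold SG
  have h1 : ∀ K : List (Fin (n + 1) × Fin (n + 1)), K.Nodup → (∀ q ∈ K, q ∈ prs (Fin (n + 1))) →
      (K.map (fun q => if swap i.castSucc i.succ q.2 < swap i.castSucc i.succ q.1 then
        1 - 2 * (L.Ei (n + 1) q.1 * L.Ei (n + 1) q.2) else 1)).prod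
      = if (i.castSucc, i.succ) ∈ K then
        1 - 2 * (L.Ei (n + 1) i.castSucc * L.Ei (n + 1) i.succ) else 1 := by
    intro K
    induction K with
    | nil => intro _ _; simp
    | cons q K ih =>
      intro hn hp
      rw [List.map_cons, List.prod_cons, ih (List.nodup_cons.1 hn).2
        (fun q hq => hp q (List.mem_cons_of_mem _ hq))]
      by_cases hq : q = (i.castSucc, i.succ)
      · subst hq
        rw [if_pos ((adj_inv i _ (hp _ List.mem_cons_self)).2 rfl),
          if_neg (List.nodup_cons.1 hn).1, if_pos List.mem_cons_self, mul_one]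
      · rw [if_neg (fun h => hq ((adj_inv i _ (hp _ List.mem_cons_self)).1 h)), one_mul]
        by_cases h2 : (i.castSucc, i.succ) ∈ K
        · rw [if_pos h2, if_pos (List.mem_cons_of_mem _ h2)]
        · rw [if_neg h2, if_neg]
          intro h
          rcases List.mem_cons.1 h with h | h
          · exact hq h.symm
          · exact h2 h
  rw [h1 _ (Finset.nodup_toList _) (fun q hq => Finset.mem_toList.1 hq), if_pos]
  rw [Finset.mem_toList, mem_prs]
  exact Fin.castSucc_lt_succ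

end CatL

end Pool.PI34.Super
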