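import Mathlib

/-!
PI34, block S, file 1: supercommutative rings, the exterior algebra, extension of scalars.
-/

set_option autoImplicit false

namespace Pool.PI34.SS

open Finset

/-- supercommutative rings -/
structure SuperComm (G : Type*) [Ring G] where
  /-- the even part -/
  ev : AddSubgroup G
  /-- the odd part -/
  od : AddSubgroup G
  one_mem : (1 : G) ∈ ev
  ev_ev : ∀ a ∈ ev, ∀ b ∈ ev, a * b ∈ ev
  ev_od : ∀ a ∈ ev, ∀ b ∈ od, a * b ∈ od
  od_od : ∀ a ∈ od, ∀ b ∈ od, a * b ∈ ev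
  comm : ∀ a ∈ ev, ∀ b, a * b = b * a
  anti : ∀ a ∈ od, ∀ b ∈ od, a * b = -(b * a)
  sq : ∀ a ∈ od, a * a = 0
  dec : ∀ g, ∃ a ∈ ev, ∃ b ∈ od, g = a + b

section ext

variable {M : Type*} [AddCommGroup M]

theorem ext_swap (m n : M) : CliffordAlgebra.ι (0 : QuadraticForm ℤ M) m * CliffordAlgebra.ι (0 : QuadraticForm ℤ M) n
    = -(CliffordAlgebra.ι (0 : QuadraticForm ℤ M) n * CliffordAlgebra.ι (0 : QuadraticForm ℤ M) m) :=
  eq_neg_of_add_eq_zero_left (ExteriorAlgebra.ι_add_mul_swap (R := ℤ) m n)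

theorem ext_ev_ι (a : CliffordAlgebra (0 : QuadraticForm ℤ M)) (ha : a ∈ CliffordAlgebra.evenOdd (0 : QuadraticForm ℤ M) 0) (m : M) :
    a * CliffordAlgebra.ι (0 : QuadraticForm ℤ M) m = CliffordAlgebra.ι (0 : QuadraticForm ℤ M) m * a := by
  induction a, ha using CliffordAlgebra.even_induction with
  | algebraMap r => exact Algebra.commutes r _
  | add x y hx hy h1 h2 => rw [add_mul, mul_add, h1, h2]
  | ι_mul_ι_mul m₁ m₂ x hx h =>
    calc CliffordAlgebra.ι (0 : QuadraticForm ℤ M) m₁ * CliffordAlgebra.ι (0 : QuadraticForm ℤ M) m₂ * x * CliffordAlgebra.ι (0 : QuadraticForm ℤ M) m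
        = CliffordAlgebra.ι (0 : QuadraticForm ℤ M) m₁ * (CliffordAlgebra.ι (0 : QuadraticForm ℤ M) m₂ * CliffordAlgebra.ι (0 : QuadraticForm ℤ M) m) * x := by
          simp only [mul_assoc, h]
      _ = -((CliffordAlgebra.ι (0 : QuadraticForm ℤ M) m₁ * CliffordAlgebra.ι (0 : QuadraticForm ℤ M) m) *
            CliffordAlgebra.ι (0 : QuadraticForm ℤ M) m₂ * x) := by
          rw [ext_swap m₂ m]; simp only [mul_neg, neg_mul, mul_assoc]
      _ = CliffordAlgebra.ι (0 : QuadraticForm ℤ M) m *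
            (CliffordAlgebra.ι (0 : QuadraticForm ℤ M) m₁ * CliffordAlgebra.ι (0 : QuadraticForm ℤ M) m₂ * x) := by
          rw [ext_swap m₁ m]; simp only [neg_mul, neg_neg, mul_assoc]

theorem ext_od_ι (a : CliffordAlgebra (0 : QuadraticForm ℤ M)) (ha : a ∈ CliffordAlgebra.evenOdd (0 : QuadraticForm ℤ M) 1) (m : M) :
    a * CliffordAlgebra.ι (0 : QuadraticForm ℤ M) m = -(CliffordAlgebra.ι (0 : QuadraticForm ℤ M) m * a) := by
  induction a, ha using CliffordAlgebra.odd_induction with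
  | ι v => exact ext_swap v m
  | add x y hx hy h1 h2 => rw [add_mul, mul_add, h1, h2, neg_add]
  | ι_mul_ι_mul m₁ m₂ x hx h =>
    have h2 := ext_ev_ι _ (CliffordAlgebra.ι_mul_ι_mem_evenOdd_zero (0 : QuadraticForm ℤ M) m₁ m₂) m
    rw [mul_assoc, h, mul_neg, ← mul_assoc, h2, mul_assoc]

theorem ext_ev_comm (a : CliffordAlgebra (0 : QuadraticForm ℤ M)) (ha : a ∈ CliffordAlgebra.evenOdd (0 : QuadraticForm ℤ M) 0)
    (b : CliffordAlgebra (0 : QuadraticForm ℤ M)) : a * b = b * a := by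
  induction b using CliffordAlgebra.induction with
  | algebraMap r => exact (Algebra.commutes r _).symm
  | ι x => exact ext_ev_ι a ha x
  | mul x y h1 h2 => rw [← mul_assoc, h1, mul_assoc, h2, mul_assoc]
  | add x y h1 h2 => rw [mul_add, add_mul, h1, h2]

theorem ext_od_anti (a : CliffordAlgebra (0 : QuadraticForm ℤ M)) (ha : a ∈ CliffordAlgebra.evenOdd (0 : QuadraticForm ℤ M) 1)
    (b : CliffordAlgebra (0 : QuadraticForm ℤ M)) (hb : b ∈ CliffordAlgebra.evenOdd (0 : QuadraticForm ℤ M) 1) :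
    a * b = -(b * a) := by
  induction b, hb using CliffordAlgebra.odd_induction with
  | ι v => exact ext_od_ι a ha v
  | add x y hx hy h1 h2 => rw [mul_add, add_mul, h1, h2, neg_add]
  | ι_mul_ι_mul m₁ m₂ x hx h =>
    have h2 := ext_ev_comm _ (CliffordAlgebra.ι_mul_ι_mem_evenOdd_zero (0 : QuadraticForm ℤ M) m₁ m₂) a
    rw [← mul_assoc, ← h2, mul_assoc, h, mul_neg, ← mul_assoc]

theorem ext_od_sq (a : CliffordAlgebra (0 : QuadraticForm ℤ M)) (ha : a ∈ CliffordAlgebra.evenOdd (0 : QuadraticForm ℤ M) 1) :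
    a * a = 0 := by
  induction a, ha using CliffordAlgebra.odd_induction with
  | ι v => exact ExteriorAlgebra.ι_sq_zero (R := ℤ) v
  | add x y hx hy h1 h2 =>
    rw [add_mul, mul_add, mul_add, h1, h2, ext_od_anti x hx y hy]; abel
  | ι_mul_ι_mul m₁ m₂ x hx h =>
    have h2 := ext_ev_comm _ (CliffordAlgebra.ι_mul_ι_mem_evenOdd_zero (0 : QuadraticForm ℤ M) m₁ m₂) x
    calc CliffordAlgebra.ι (0 : QuadraticForm ℤ M) m₁ * CliffordAlgebra.ι (0 : QuadraticForm ℤ M) m₂ * x *
          (CliffordAlgebra.ι (0 : QuadraticForm ℤ M) m₁ * CliffordAlgebra.ι (0 : QuadraticForm ℤ M) m₂ * x)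
        = CliffordAlgebra.ι (0 : QuadraticForm ℤ M) m₁ * CliffordAlgebra.ι (0 : QuadraticForm ℤ M) m₂ *
          (x * (CliffordAlgebra.ι (0 : QuadraticForm ℤ M) m₁ * CliffordAlgebra.ι (0 : QuadraticForm ℤ M) m₂)) * x := by
          simp only [mul_assoc]
      _ = CliffordAlgebra.ι (0 : QuadraticForm ℤ M) m₁ * CliffordAlgebra.ι (0 : QuadraticForm ℤ M) m₂ *
          (CliffordAlgebra.ι (0 : QuadraticForm ℤ M) m₁ * CliffordAlgebra.ι (0 : QuadraticForm ℤ M) m₂) * (x * x) := by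
          rw [← h2]; simp only [mul_assoc]
      _ = 0 := by rw [h, mul_zero]

/-- The exterior algebra is supercommutative. -/
noncomputable def extSC (M : Type*) [AddCommGroup M] : SuperComm (ExteriorAlgebra ℤ M) where
  ev := (CliffordAlgebra.evenOdd (0 : QuadraticForm ℤ M) 0).toAddSubgroup
  od := (CliffordAlgebra.evenOdd (0 : QuadraticForm ℤ M) 1).toAddSubgroup
  one_mem := CliffordAlgebra.one_le_evenOdd_zero _ (Submodule.one_le.1 le_rfl)
  ev_ev a ha b hb := by
    have := CliffordAlgebra.evenOdd_mul_le (0 : QuadraticForm ℤ M) 0 0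
      (Submodule.mul_mem_mul ha hb)
    rwa [add_zero] at this
  ev_od a ha b hb := by
    have := CliffordAlgebra.evenOdd_mul_le (0 : QuadraticForm ℤ M) 0 1
      (Submodule.mul_mem_mul ha hb)
    rwa [zero_add] at this
  od_od a ha b hb := by
    have := CliffordAlgebra.evenOdd_mul_le (0 : QuadraticForm ℤ M) 1 1
      (Submodule.mul_mem_mul ha hb)
    have h2 : (1 : ZMod 2) + 1 = 0 := by decide
    rwa [h2] at this
  comm a ha b := ext_ev_comm a ha b
  anti a ha b hb := ext_od_anti a ha b hb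
  sq a ha := ext_od_sq a ha
  dec g := by
    have h := (CliffordAlgebra.evenOdd_isCompl (0 : QuadraticForm ℤ M)).sup_eq_top
    have hg : g ∈ CliffordAlgebra.evenOdd (0 : QuadraticForm ℤ M) 0 ⊔
        CliffordAlgebra.evenOdd (0 : QuadraticForm ℤ M) 1 := by rw [h]; trivial
    obtain ⟨a, ha, b, hb, hab⟩ := Submodule.mem_sup.1 hg
    exact ⟨a, ha, b, hb, hab.symm⟩

theorem ι_mem_od (m : M) : ExteriorAlgebra.ι ℤ m ∈ (extSC M).od :=
  CliffordAlgebra.ι_mem_evenOdd_one _ m

end ext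

section tensor

open TensorProduct

variable {G T : Type*} [Ring G] [CommRing T]

/-- the tensors with right factor in `A` -/
def tsub (T : Type*) [CommRing T] {G : Type*} [Ring G] (A : AddSubgroup G) :
    AddSubgroup (T ⊗[ℤ] G) where
  carrier := (AddSubmonoid.closure {x : T ⊗[ℤ] G | ∃ t : T, ∃ a ∈ A, x = t ⊗ₜ[ℤ] a} : Set _)
  zero_mem' := zero_mem _
  add_mem' := fun h1 h2 => add_mem h1 h2
  neg_mem' := by
    intro x hx
    induction hx using AddSubmonoid.closure_induction with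
    | mem x hx =>
      obtain ⟨t, a, ha, rfl⟩ := hx
      refine AddSubmonoid.subset_closure ⟨-t, a, ha, ?_⟩
      rw [TensorProduct.neg_tmul]
    | zero => rw [neg_zero]; exact zero_mem _
    | add y z _ _ h1 h2 => rw [neg_add]; exact add_mem h1 h2

theorem tmul_mem_tsub {A : AddSubgroup G} (t : T) {a : G} (ha : a ∈ A) :
    t ⊗ₜ[ℤ] a ∈ tsub T A := AddSubmonoid.subset_closure ⟨t, a, ha, rfl⟩

theorem tsub_induction {A : AddSubgroup G} {p : T ⊗[ℤ] G → Prop}
    (h1 : ∀ (t : T), ∀ a ∈ A, p (t ⊗ₜ[ℤ] a)) (h0 : p 0) (h2 : ∀ x y, x ∈ tsub T A → y ∈ tsub T A →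
      p x → p y → p (x + y))
    {x : T ⊗[ℤ] G} (hx : x ∈ tsub T A) : p x := by
  have hx' : x ∈ AddSubmonoid.closure {x : T ⊗[ℤ] G | ∃ t : T, ∃ a ∈ A, x = t ⊗ₜ[ℤ] a} := hx
  clear hx
  induction hx' using AddSubmonoid.closure_induction with
  | mem x hx => obtain ⟨t, a, ha, rfl⟩ := hx; exact h1 t a ha
  | zero => exact h0
  | add y z hy hz h3 h4 => exact h2 y z hy hz h3 h4

theorem tsub_mul {A B C : AddSubgroup G} (h : ∀ a ∈ A, ∀ b ∈ B, a * b ∈ C)
    (x : T ⊗[ℤ] G) (hx : x ∈ tsub T A) (y : T ⊗[ℤ] G) (hy : y ∈ tsub T B) :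
    x * y ∈ tsub T C := by
  refine tsub_induction (p := fun x => x * y ∈ tsub T C) (fun t a ha => ?_) ?_ ?_ hx
  · refine tsub_induction (p := fun y => t ⊗ₜ[ℤ] a * y ∈ tsub T C) (fun u b hb => ?_) ?_ ?_ hy
    · rw [Algebra.TensorProduct.tmul_mul_tmul]
      exact tmul_mem_tsub _ (h a ha b hb)
    · rw [mul_zero]; exact zero_mem _
    · intro y z _ _ h1 h2; rw [mul_add]; exact add_mem h1 h2
  · rw [zero_mul]; exact zero_mem _
  · intro y z _ _ h1 h2; rw [add_mul]; exact add_mem h1 h2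

theorem tsub_anti (h : SuperComm G) (x : T ⊗[ℤ] G) (hx : x ∈ tsub T h.od) (y : T ⊗[ℤ] G)
    (hy : y ∈ tsub T h.od) : x * y = -(y * x) := by
  refine tsub_induction (p := fun x => x * y = -(y * x)) (fun t a ha => ?_) ?_ ?_ hx
  · refine tsub_induction (p := fun y => t ⊗ₜ[ℤ] a * y = -(y * t ⊗ₜ[ℤ] a))
      (fun u b hb => ?_) ?_ ?_ hy
    · rw [Algebra.TensorProduct.tmul_mul_tmul, Algebra.TensorProduct.tmul_mul_tmul, mul_comm,
        h.anti a ha b hb, TensorProduct.tmul_neg]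
    · rw [mul_zero, zero_mul, neg_zero]
    · intro y z _ _ h1 h2; rw [mul_add, add_mul, h1, h2, neg_add]
  · rw [mul_zero, zero_mul, neg_zero]
  · intro y z _ _ h1 h2; rw [add_mul, mul_add, h1, h2, neg_add]

/-- Extension of scalars of a supercommutative ring. -/
def SuperComm.tensor (T : Type*) [CommRing T] {G : Type*} [Ring G] (h : SuperComm G) :
    SuperComm (T ⊗[ℤ] G) where
  ev := tsub T h.ev
  od := tsub T h.od
  one_mem := tmul_mem_tsub 1 h.one_mem
  ev_ev := tsub_mul h.ev_ev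
  ev_od := tsub_mul h.ev_od
  od_od := tsub_mul h.od_od
  comm x hx y := by
    refine tsub_induction (p := fun x => x * y = y * x) (fun t a ha => ?_) ?_ ?_ hx
    · induction y using TensorProduct.induction_on with
      | zero => rw [mul_zero, zero_mul]
      | tmul u b =>
        rw [Algebra.TensorProduct.tmul_mul_tmul, Algebra.TensorProduct.tmul_mul_tmul, mul_comm,
          h.comm a ha b]
      | add y z h1 h2 => rw [mul_add, add_mul, h1, h2]
    · rw [mul_zero, zero_mul]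
    · intro y z _ _ h1 h2; rw [add_mul, mul_add, h1, h2]
  anti := tsub_anti h
  sq x hx := by
    refine tsub_induction (p := fun x => x * x = 0) (fun t a ha => ?_) ?_ ?_ hx
    · rw [Algebra.TensorProduct.tmul_mul_tmul, h.sq a ha, TensorProduct.tmul_zero]
    · rw [mul_zero]
    · intro y z hy hz h1 h2
      rw [add_mul, mul_add, mul_add, h1, h2, tsub_anti h y hy z hz]; abel
  dec x := by
    induction x using TensorProduct.induction_on with
    | zero => exact ⟨0, zero_mem _, 0, zero_mem _, (add_zero 0).symm⟩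
    | tmul t g =>
      obtain ⟨a, ha, b, hb, rfl⟩ := h.dec g
      exact ⟨_, tmul_mem_tsub t ha, _, tmul_mem_tsub t hb, TensorProduct.tmul_add _ _ _⟩
    | add x y h1 h2 =>
      obtain ⟨a, ha, b, hb, rfl⟩ := h1
      obtain ⟨c, hc, d, hd, rfl⟩ := h2
      exact ⟨_, add_mem ha hc, _, add_mem hb hd, by abel⟩

end tensor

end Pool.PI34.SS
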