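import Pool.Agent.LibPI34.BA_Main
import Pool.Agent.LibPI34.S_Comm

/-!
PI34, block S, file 3: super string systems (definition).
-/

set_option autoImplicit false

namespace Pool.PI34.SS

open Equiv Finset
open Pool.PI34.BA

/-- super string systems: `f` are the plain flips, `τ i a` the twisted odd letters
`ζ_{<i} a^{(i)}` (`z` is the smallest strand, so `τ z a = ρ z a`) -/
structure SupStr (ι Φ U : Type) [Fintype ι] [DecidableEq ι] [Ring Φ] [Ring U] (z : ι) where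
  ρ : ι → Φ →+* U
  τ : ι → Φ → U
  f : Perm ι →* U
  ev : AddSubgroup Φ
  od : AddSubgroup Φ
  dec : ∀ a, ∃ b ∈ ev, ∃ c ∈ od, a = b + c
  ev_ev : ∀ i j, i ≠ j → ∀ a ∈ ev, ∀ b ∈ ev, ρ i a * ρ j b = ρ j b * ρ i a
  ev_od : ∀ i j, i ≠ j → ∀ a ∈ ev, ∀ b ∈ od, ρ i a * τ j b = τ j b * ρ i a
  od_od : ∀ i j, i ≠ j → ∀ a ∈ od, ∀ b ∈ od, τ i a * τ j b = -(τ j b * τ i a)
  f_ev : ∀ σ i, ∀ a ∈ ev, f σ * ρ i a = ρ (σ i) a * f σ
  f_od : ∀ σ i, ∀ a ∈ od, f σ * τ i a = τ (σ i) a * f σ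
  τ_z : ∀ a ∈ od, τ z a = ρ z a

theorem fa_ext {Y : Type} {A : Type*} [Ring A] (f g : FreeAlgebra ℤ Y →+* A)
    (h : ∀ y, f (FreeAlgebra.ι ℤ y) = g (FreeAlgebra.ι ℤ y)) (P : FreeAlgebra ℤ Y) :
    f P = g P := by
  induction P using FreeAlgebra.induction with
  | grade0 r => simp
  | grade1 y => exact h y
  | mul u v hu hv => rw [map_mul, map_mul, hu, hv]
  | add u v hu hv => rw [map_add, map_add, hu, hv]

/-- the free ring, as a plain ring -/
def FA (Z : Type) : Type := FreeAlgebra ℤ Z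

noncomputable instance (Z : Type) : Ring (FA Z) := inferInstanceAs (Ring (FreeAlgebra ℤ Z))

/-- the generators -/
noncomputable def FA.of {Z : Type} (w : Z) : FA Z := FreeAlgebra.ι ℤ w

/-- the universal property -/
noncomputable def FA.lift {Z : Type} {A : Type*} [Ring A] (m : Z → A) : FA Z →+* A :=
  ((FreeAlgebra.lift ℤ m : FreeAlgebra ℤ Z →ₐ[ℤ] A) : FreeAlgebra ℤ Z →+* A)

@[simp] theorem FA.lift_of {Z : Type} {A : Type*} [Ring A] (m : Z → A) (w : Z) :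
    FA.lift m (FA.of w) = m w :=
  FreeAlgebra.lift_ι_apply m w

theorem FA.ext {Y : Type} {A : Type*} [Ring A] (f g : FA Y →+* A)
    (h : ∀ y, f (FA.of y) = g (FA.of y)) (P : FA Y) : f P = g P :=
  fa_ext (Y := Y) f g h P

theorem FA.lift_eq {Z : Type} {A : Type*} [Ring A] [Algebra ℤ A] (m : Z → A)
    (P : FreeAlgebra ℤ Z) : FreeAlgebra.lift ℤ m P = FA.lift m (P : FA Z) :=
  fa_ext ((FreeAlgebra.lift ℤ m : FreeAlgebra ℤ Z →ₐ[ℤ] A) : FreeAlgebra ℤ Z →+* A)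
    (FA.lift m) (fun y => by
      change FreeAlgebra.lift ℤ m (FreeAlgebra.ι ℤ y) = FA.lift m (FA.of y)
      rw [FA.lift_of, FreeAlgebra.lift_ι_apply]) P

theorem FA.induction {Y : Type} {p : FA Y → Prop} (h0 : ∀ r : ℤ, p (r : FA Y))
    (h1 : ∀ y, p (FA.of y)) (hm : ∀ u v, p u → p v → p (u * v))
    (ha : ∀ u v, p u → p v → p (u + v)) (P : FA Y) : p P := by
  have h2 : ∀ r : ℤ, p ((algebraMap ℤ (FreeAlgebra ℤ Y)) r) := by
    intro r
    rw [eq_intCast]
    exact h0 r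
  exact FreeAlgebra.induction ℤ Y (motive := p) h2 h1 hm ha P

/-- graded identities (up to a nonzero integer) of the `k × k` matrices over supercommutative
rings; the letters outside `E` are odd -/
def GI (k : ℕ) {Y : Type} (E : Y → Prop) (P : FA Y) : Prop :=
  ∃ N : ℕ, N ≠ 0 ∧ ∀ (G : Type) [Ring G] (h : SuperComm G) (X : Y → Matrix (Fin k) (Fin k) G),
    (∀ y, ¬ E y → ∀ i j, X y i j ∈ h.od) → N • FA.lift X P = 0

/-- the identities of the `k × k` matrices over supercommutative rings (up to torsion) -/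
def QQ (k : ℕ) (Y : Type) : Set (FA Y) := {P | GI k (fun _ => True) P}

end Pool.PI34.SS
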