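import Pool.Agent.LibPI34.P2a
import Pool.Agent.LibPI34.S_Def

/-!
PI34, block P, file 2: the coloured string system of a catalyst.
-/

set_option linter.unusedSectionVars false
set_option linter.unusedSimpArgs false

namespace Pool.PI34.Super

open Equiv Finset
open Pool.PI34.SS (FA)

/-- coloured string systems on the strands `0, …, n` -/
structure ColStr0 (n : ℕ) (Φ U : Type) [Ring Φ] [Ring U] where
  ρ : Fin (n + 1) → Φ →+* U
  el : Φ
  s : Perm (Fin (n + 1)) → U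
  f : Perm (Fin (n + 1)) →* U
  comm : ∀ i i', i ≠ i' → ∀ a b, ρ i a * ρ i' b = ρ i' b * ρ i a
  idem : ∀ i, ρ i el * ρ i el = ρ i el
  s_ρ : ∀ σ i w, s σ * ρ i w = ρ (σ i) w * s σ
  f_swap : ∀ i : Fin n, f (swap i.castSucc i.succ)
    = s (swap i.castSucc i.succ) * (1 - 2 * (ρ i.castSucc el * ρ i.succ el))

namespace CatL

variable {Λ : Type} [CommRing Λ] {j : Λ →+* ℚ} {k l m : ℕ} (L : CatL j k l m) {n : ℕ}

/-- a representation with letters -/
structure Rp (L : CatL j k l m) (n : ℕ) (Φ0 EE : Type) [Ring EE] where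
  a : MonoidAlgebra Λ (Perm (Fin (n + m))) →+* EE
  hK : ∀ y, act k l _ (mj j _ y) = 0 → a y = 0
  ρ : Fin (n + m) → Φ0 → EE
  hcomm : ∀ i i', i ≠ i' → ∀ x y, ρ i x * ρ i' y = ρ i' y * ρ i x
  hconj : ∀ (g : Perm (Fin (n + m))) i x,
    a (MonoidAlgebra.of Λ _ g) * ρ i x = ρ (g i) x * a (MonoidAlgebra.of Λ _ g)
  hscal : ∀ (c : Λ) i x, a (MonoidAlgebra.single 1 c) * ρ i x = ρ i x * a (MonoidAlgebra.single 1 c)

variable {L} {Φ0 EE : Type} [Ring EE] (V : Rp L n Φ0 EE)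

namespace Rp

theorem comm_placed {κ : Type} [Fintype κ] [LinearOrder κ] (φ : κ ↪o Fin (n + m))
    (y : MonoidAlgebra Λ (Perm κ)) (i : Fin (n + m)) (hi : i ∉ Set.range φ) (x : Φ0) :
    V.a (plL Λ φ y) * V.ρ i x = V.ρ i x * V.a (plL Λ φ y) := by
  induction y using MonoidAlgebra.induction_on with
  | of σ => rw [plL_of, V.hconj, ext_apply' _ _ _ hi]
  | add u v hu hv => rw [map_add, map_add, add_mul, mul_add, hu, hv]
  | smul c u hu =>
    have h1 : c • plL Λ φ u = MonoidAlgebra.single 1 c * plL Λ φ u := by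
      rw [Algebra.smul_def]; rfl
    rw [plL_smul, h1, map_mul, mul_assoc, hu, ← mul_assoc, V.hscal, mul_assoc]

/-- the idempotent -/
theorem idem : IsIdempotentElem (V.a (L.Z n)) := L.a_Z V.a V.hK

/-- the corner ring -/
abbrev U : Type := (V.idem).Corner

theorem Z_ρ (i : Fin n) (x : Φ0) :
    V.a (L.Z n) * V.ρ (phL n m i) x = V.ρ (phL n m i) x * V.a (L.Z n) :=
  V.comm_placed (phR n m) L.zL _ (phR_notMem i) x

/-- make an element of the corner -/
def mkU (x : EE) (h : V.a (L.Z n) * x = x ∧ x * V.a (L.Z n) = x) : V.U :=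
  ⟨x, (Subsemigroup.mem_corner_iff V.idem).2 h⟩

theorem U_ext {x y : V.U} (h : x.1 = y.1) : x = y := Subtype.ext h

theorem U_mul (x y : V.U) : (x * y).1 = x.1 * y.1 := rfl

theorem U_one : (1 : V.U).1 = V.a (L.Z n) := rfl

theorem U_add (x y : V.U) : (x + y).1 = x.1 + y.1 := rfl

theorem U_neg (x : V.U) : (-x).1 = -x.1 := rfl

theorem U_sub (x y : V.U) : (x - y).1 = x.1 - y.1 := by
  rw [sub_eq_add_neg, U_add, U_neg, sub_eq_add_neg]

theorem U_left (x : V.U) : V.a (L.Z n) * x.1 = x.1 :=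
  ((Subsemigroup.mem_corner_iff V.idem).1 x.2).1

theorem U_right (x : V.U) : x.1 * V.a (L.Z n) = x.1 :=
  ((Subsemigroup.mem_corner_iff V.idem).1 x.2).2

/-- the inclusion as an additive map -/
def U_val : V.U →+ EE where
  toFun x := x.1
  map_zero' := rfl
  map_add' _ _ := rfl

/-- the letter `x` on the strand `i` -/
noncomputable def lx (i : Fin n) (x : Φ0) : V.U :=
  V.mkU (V.ρ (phL n m i) x * V.a (L.Z n)) ⟨by
    rw [← mul_assoc, V.Z_ρ, mul_assoc, V.idem.eq], by rw [mul_assoc, V.idem.eq]⟩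

/-- the colour on the strand `i` -/
noncomputable def le (i : Fin n) : V.U :=
  V.mkU (V.a (L.Ei n i) * V.a (L.Z n)) ⟨by
    rw [← mul_assoc, L.a_Z_Ei V.a V.hK], by rw [mul_assoc, V.idem.eq]⟩

/-- the original permutation -/
noncomputable def sU (σ : Perm (Fin n)) : V.U :=
  V.mkU (V.a (S Λ n m σ) * V.a (L.Z n)) ⟨by
    rw [← mul_assoc, ← map_mul, ← L.S_Z, map_mul, mul_assoc, V.idem.eq],
    by rw [mul_assoc, V.idem.eq]⟩

/-- the plain flip -/
noncomputable def fU (σ : Perm (Fin n)) : V.U :=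
  V.mkU (V.a (L.fl σ) * V.a (L.Z n)) ⟨by
    rw [← mul_assoc, L.a_Z_fl V.a V.hK], by rw [mul_assoc, V.idem.eq]⟩

/-- the letters -/
noncomputable def lt (i : Fin n) : Option Φ0 → V.U
  | none => V.le i
  | some x => V.lx i x

/-- all the words -/
noncomputable def rU (i : Fin n) : FA (Option Φ0) →+* V.U := FA.lift (V.lt i)

theorem rU_of (i : Fin n) (o : Option Φ0) : V.rU i (FA.of o) = V.lt i o := FA.lift_of _ _

theorem phi_notMem' {i i' : Fin n} (h : i ≠ i') : phL n m i' ∉ Set.range (phi n m i) := by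
  rintro ⟨a, ha⟩
  rcases Fin.eq_zero_or_eq_succ a with rfl | ⟨a, rfl⟩
  · rw [phi_zero] at ha
    exact h ((phL n m).injective ha)
  · rw [phi_succ] at ha
    exact phR_notMem i' ⟨a, ha⟩

theorem Ei_ρ {i i' : Fin n} (h : i ≠ i') (x : Φ0) :
    V.a (L.Ei n i) * V.ρ (phL n m i') x = V.ρ (phL n m i') x * V.a (L.Ei n i) :=
  V.comm_placed (phi n m i) L.EL _ (phi_notMem' h) x

theorem lt_comm {i i' : Fin n} (h : i ≠ i') (o o' : Option Φ0) :
    V.lt i o * V.lt i' o' = V.lt i' o' * V.lt i o := by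
  apply V.U_ext
  have hr : ∀ (x : V.U) (y : EE), x.1 * (y * V.a (L.Z n)) = x.1 * y * V.a (L.Z n) :=
    fun x y => (mul_assoc _ _ _).symm
  rcases o with _ | x <;> rcases o' with _ | y
  · change V.a (L.Ei n i) * V.a (L.Z n) * (V.a (L.Ei n i') * V.a (L.Z n))
      = V.a (L.Ei n i') * V.a (L.Z n) * (V.a (L.Ei n i) * V.a (L.Z n))
    have h1 : ∀ u u' : Fin n, V.a (L.Ei n u) * V.a (L.Z n) * (V.a (L.Ei n u') * V.a (L.Z n))
        = V.a (L.Ei n u) * V.a (L.Ei n u') * V.a (L.Z n) := by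
      intro u u'
      rw [mul_assoc, ← mul_assoc (V.a (L.Z n)), L.a_Z_Ei V.a V.hK, mul_assoc]
    rw [h1, h1, L.a_Ei_comm V.a V.hK]
  · change V.a (L.Ei n i) * V.a (L.Z n) * (V.ρ (phL n m i') y * V.a (L.Z n))
      = V.ρ (phL n m i') y * V.a (L.Z n) * (V.a (L.Ei n i) * V.a (L.Z n))
    have h1 : V.a (L.Ei n i) * V.a (L.Z n) * (V.ρ (phL n m i') y * V.a (L.Z n))
        = V.ρ (phL n m i') y * (V.a (L.Ei n i) * V.a (L.Z n)) := by
      rw [mul_assoc, ← mul_assoc (V.a (L.Z n)), V.Z_ρ, mul_assoc, V.idem.eq, ← mul_assoc,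
        V.Ei_ρ h, mul_assoc]
    have h2 : V.ρ (phL n m i') y * V.a (L.Z n) * (V.a (L.Ei n i) * V.a (L.Z n))
        = V.ρ (phL n m i') y * (V.a (L.Ei n i) * V.a (L.Z n)) := by
      rw [mul_assoc, ← mul_assoc (V.a (L.Z n)), L.a_Z_Ei V.a V.hK]
    rw [h1, h2]
  · change V.ρ (phL n m i) x * V.a (L.Z n) * (V.a (L.Ei n i') * V.a (L.Z n))
      = V.a (L.Ei n i') * V.a (L.Z n) * (V.ρ (phL n m i) x * V.a (L.Z n))
    have h1 : V.a (L.Ei n i') * V.a (L.Z n) * (V.ρ (phL n m i) x * V.a (L.Z n))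
        = V.ρ (phL n m i) x * (V.a (L.Ei n i') * V.a (L.Z n)) := by
      rw [mul_assoc, ← mul_assoc (V.a (L.Z n)), V.Z_ρ, mul_assoc, V.idem.eq, ← mul_assoc,
        V.Ei_ρ h.symm, mul_assoc]
    have h2 : V.ρ (phL n m i) x * V.a (L.Z n) * (V.a (L.Ei n i') * V.a (L.Z n))
        = V.ρ (phL n m i) x * (V.a (L.Ei n i') * V.a (L.Z n)) := by
      rw [mul_assoc, ← mul_assoc (V.a (L.Z n)), L.a_Z_Ei V.a V.hK]
    rw [h1, h2]
  · change V.ρ (phL n m i) x * V.a (L.Z n) * (V.ρ (phL n m i') y * V.a (L.Z n))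
      = V.ρ (phL n m i') y * V.a (L.Z n) * (V.ρ (phL n m i) x * V.a (L.Z n))
    have h1 : ∀ (u u' : Fin n) (x y : Φ0),
        V.ρ (phL n m u) x * V.a (L.Z n) * (V.ρ (phL n m u') y * V.a (L.Z n))
        = V.ρ (phL n m u) x * V.ρ (phL n m u') y * V.a (L.Z n) := by
      intro u u' x y
      rw [mul_assoc, ← mul_assoc (V.a (L.Z n)), V.Z_ρ, mul_assoc, V.idem.eq, mul_assoc]
    rw [h1, h1, V.hcomm _ _ (fun e => h ((phL n m).injective e))]

theorem rU_comm {i i' : Fin n} (h : i ≠ i') (w w' : FA (Option Φ0)) :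
    V.rU i w * V.rU i' w' = V.rU i' w' * V.rU i w := by
  induction w using FA.induction with
  | h0 r => rw [map_intCast]; exact (Int.cast_commute r _).eq
  | h1 o =>
    induction w' using FA.induction with
    | h0 r => rw [map_intCast]; exact (Int.cast_commute r _).eq.symm
    | h1 o' => rw [rU_of, rU_of]; exact V.lt_comm h o o'
    | hm u v hu hv => rw [map_mul, ← mul_assoc, hu, mul_assoc, hv, mul_assoc]
    | ha u v hu hv => rw [map_add, mul_add, add_mul, hu, hv]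
  | hm u v hu hv => rw [map_mul, mul_assoc, hv, ← mul_assoc, hu, mul_assoc]
  | ha u v hu hv => rw [map_add, mul_add, add_mul, hu, hv]

theorem sU_lt (σ : Perm (Fin n)) (i : Fin n) (o : Option Φ0) :
    V.sU σ * V.lt i o = V.lt (σ i) o * V.sU σ := by
  apply V.U_ext
  have hSZ : V.a (L.Z n) * V.a (S Λ n m σ) = V.a (S Λ n m σ) * V.a (L.Z n) := by
    rw [← map_mul, ← map_mul, L.S_Z]
  rcases o with _ | x
  · change V.a (S Λ n m σ) * V.a (L.Z n) * (V.a (L.Ei n i) * V.a (L.Z n))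
      = V.a (L.Ei n (σ i)) * V.a (L.Z n) * (V.a (S Λ n m σ) * V.a (L.Z n))
    rw [mul_assoc, ← mul_assoc (V.a (L.Z n)), L.a_Z_Ei V.a V.hK, ← mul_assoc, ← map_mul,
      L.S_Ei, map_mul, mul_assoc, mul_assoc (V.a (L.Ei n (σ i))), ← mul_assoc (V.a (L.Z n)),
      hSZ, mul_assoc (V.a (S Λ n m σ)), V.idem.eq]
  · change V.a (S Λ n m σ) * V.a (L.Z n) * (V.ρ (phL n m i) x * V.a (L.Z n))
      = V.ρ (phL n m (σ i)) x * V.a (L.Z n) * (V.a (S Λ n m σ) * V.a (L.Z n))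
    have h1 : V.a (S Λ n m σ) * V.ρ (phL n m i) x = V.ρ (phL n m (σ i)) x * V.a (S Λ n m σ) := by
      unfold S
      rw [V.hconj, ext_apply]
    rw [mul_assoc, ← mul_assoc (V.a (L.Z n)), V.Z_ρ, mul_assoc, V.idem.eq, ← mul_assoc, h1,
      mul_assoc, mul_assoc (V.ρ (phL n m (σ i)) x), ← mul_assoc (V.a (L.Z n)), hSZ,
      mul_assoc (V.a (S Λ n m σ)), V.idem.eq]

theorem sU_rU (σ : Perm (Fin n)) (i : Fin n) (w : FA (Option Φ0)) :
    V.sU σ * V.rU i w = V.rU (σ i) w * V.sU σ := by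
  induction w using FA.induction with
  | h0 r => rw [map_intCast, map_intCast]; exact (Int.cast_commute r _).eq.symm
  | h1 o => rw [rU_of, rU_of]; exact V.sU_lt σ i o
  | hm u v hu hv => rw [map_mul, map_mul, ← mul_assoc, hu, mul_assoc, hv, mul_assoc]
  | ha u v hu hv => rw [map_add, map_add, mul_add, add_mul, hu, hv]

/-- the plain flips as a representation -/
noncomputable def fH : Perm (Fin n) →* V.U where
  toFun := V.fU
  map_one' := V.U_ext (L.a_fl_one V.a V.hK)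
  map_mul' σ τ := by
    apply V.U_ext
    change V.a (L.fl (σ * τ)) * V.a (L.Z n)
      = V.a (L.fl σ) * V.a (L.Z n) * (V.a (L.fl τ) * V.a (L.Z n))
    rw [mul_assoc, ← mul_assoc (V.a (L.Z n)), L.a_Z_fl V.a V.hK, ← mul_assoc,
      L.a_fl_mul V.a V.hK]

theorem le_mul (i i' : Fin n) : (V.le i * V.le i').1
    = V.a (L.Ei n i) * V.a (L.Ei n i') * V.a (L.Z n) := by
  change V.a (L.Ei n i) * V.a (L.Z n) * (V.a (L.Ei n i') * V.a (L.Z n)) = _
  rw [mul_assoc, ← mul_assoc (V.a (L.Z n)), L.a_Z_Ei V.a V.hK, mul_assoc]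

end Rp

/-- THE COLOURED STRING SYSTEM. -/
noncomputable def Rp.colStr {L : CatL j k l m} {n : ℕ} {Φ0 EE : Type} [Ring EE]
    (V : Rp L (n + 1) Φ0 EE) : ColStr0 n (FA (Option Φ0)) V.U where
  ρ := V.rU
  el := FA.of none
  s := V.sU
  f := V.fH
  comm i i' h w w' := V.rU_comm h w w'
  idem i := by
    rw [V.rU_of]
    apply V.U_ext
    change (V.le i * V.le i).1 = (V.le i).1
    rw [V.le_mul, L.a_Ei_idem V.a V.hK]
    rfl
  s_ρ := V.sU_rU
  f_swap i := by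
    rw [V.rU_of, V.rU_of]
    apply V.U_ext
    change V.a (L.fl (swap i.castSucc i.succ)) * V.a (L.Z (n + 1))
      = V.a (S Λ (n + 1) m (swap i.castSucc i.succ)) * V.a (L.Z (n + 1)) *
        (1 - 2 * (V.le i.castSucc * V.le i.succ)).1
    have h1 : (1 - 2 * (V.le i.castSucc * V.le i.succ) : V.U).1
        = V.a (1 - 2 * (L.Ei (n + 1) i.castSucc * L.Ei (n + 1) i.succ)) * V.a (L.Z (n + 1)) := by
      rw [V.U_sub, V.U_one, two_mul, V.U_add, V.le_mul, map_sub, map_one, two_mul, map_add,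
        map_mul, sub_mul, one_mul, add_mul]
    have h2 : V.a (L.Z (n + 1)) * (1 - 2 * (V.le i.castSucc * V.le i.succ) : V.U).1
        = (1 - 2 * (V.le i.castSucc * V.le i.succ) : V.U).1 := V.U_left _
    have h3 : V.a (L.fl (swap i.castSucc i.succ)) = V.a (S Λ (n + 1) m (swap i.castSucc i.succ))
        * V.a (L.SG (swap i.castSucc i.succ)) := by unfold fl; rw [map_mul]
    rw [h3, mul_assoc, mul_assoc, h2, h1, L.SG_adj]

theorem Rp.anti_eq {L : CatL j k l m} {n : ℕ} {Φ0 EE : Type} [Ring EE]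
    (V : Rp L n Φ0 EE) (T : Finset (Fin n)) : (BA.anti V.fH T).1
      = V.a (∑ σ ∈ BA.permsOn T, ((Perm.sign σ : ℤˣ) : ℤ) • L.fl σ) * V.a (L.Z n) := by
  have h1 : (BA.anti V.fH T).1 = V.U_val (BA.anti V.fH T) := rfl
  rw [h1]
  unfold BA.anti
  rw [map_sum, map_sum, Finset.sum_mul]
  refine Finset.sum_congr rfl (fun σ _ => ?_)
  rw [map_zsmul, map_zsmul, smul_mul_assoc]
  rfl

theorem Rp.anti_zero {L : CatL j k l m} {n : ℕ} {Φ0 EE : Type} [Ring EE]
    (V : Rp L n Φ0 EE) : BA.Anti V.fH (k + l) := by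
  intro T hT
  apply V.U_ext
  rw [V.anti_eq]
  have h := L.a_alt V.a V.hK T (by omega)
  rw [map_sum]
  change _ = (0 : EE)
  rw [← h]
  congr 1
  refine Finset.sum_congr ?_ (fun σ _ => map_zsmul V.a _ _)
  ext σ
  simp [BA.permsOn]

end CatL

end Pool.PI34.Super
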