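import Pool.Agent.LibPI34.P2b
import Pool.Agent.LibPI34.C0Defs

/-!
PI34, block P, file 3: the module of multilinear functions of a ring.
-/

set_option linter.unusedSectionVars false
set_option linter.unusedSimpArgs false

namespace Pool.PI34.Super

open Equiv Finset
open Pool.PI34.SS (FA)
open Pool.PI34.C0 (capMono)

variable {Λ : Type} [CommRing Λ] {R : Type} [Ring R] [Algebra Λ R] {N : ℕ}

variable (Λ R N) in
/-- the `Λ`-module of functions `(Fin N → R) → R` spanned by the
`r ↦ v_0 r_{σ 0} v_1 ⋯ r_{σ (N-1)} v_N` -/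
def VL : Submodule Λ ((Fin N → R) → R) :=
  Submodule.span Λ {F | ∃ (v : Fin (N + 1) → R) (σ : Perm (Fin N)), F = fun r => capMono v r σ}

/-- a monomial is of the form `A c B` as a function of one variable `c` -/
theorem cap_update (v : Fin (N + 1) → R) (σ : Perm (Fin N)) (r : Fin N → R) (i : Fin N) :
    ∃ A B : R, ∀ c : R, capMono v (Function.update r i c) σ = A * c * B := by
  set j := σ.symm i with hj
  have hji : σ j = i := by rw [hj, Equiv.apply_symm_apply]
  let L : List R := List.ofFn fun l : Fin N => r (σ l) * v l.succ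
  refine ⟨v 0 * (L.take j.val).prod, v j.succ * (L.drop (j.val + 1)).prod, fun c => ?_⟩
  have h1 : (List.ofFn fun l : Fin N => Function.update r i c (σ l) * v l.succ) =
      L.set j.val (c * v j.succ) := by
    apply List.ext_getElem
    · simp [L]
    · intro l h2 h3
      have hl : l < N := by simpa using h2
      rw [List.getElem_set]
      by_cases hlj : j.val = l
      · have h4 : (⟨l, hl⟩ : Fin N) = j := Fin.ext hlj.symm
        rw [if_pos hlj, List.getElem_ofFn, h4, hji, Function.update_self]
      · have h4 : (⟨l, hl⟩ : Fin N) ≠ j := fun h5 => hlj (by rw [← h5])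
        have h5 : σ ⟨l, hl⟩ ≠ i := fun h6 => h4 (σ.injective (h6.trans hji.symm))
        rw [if_neg hlj, List.getElem_ofFn, List.getElem_ofFn, Function.update_of_ne h5]
  have h2 : j.val < L.length := by simp [L]
  rw [capMono, h1, List.prod_set, if_pos h2]
  simp only [mul_assoc]

theorem VL_add (F : (Fin N → R) → R) (hF : F ∈ VL Λ R N) (r : Fin N → R) (i : Fin N)
    (a b : R) : F (Function.update r i (a + b)) =
      F (Function.update r i a) + F (Function.update r i b) := by
  unfold VL at hF
  induction hF using Submodule.span_induction with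
  | mem G hG =>
    obtain ⟨v, σ, rfl⟩ := hG
    obtain ⟨A, B, h⟩ := cap_update v σ r i
    change capMono v _ σ = capMono v _ σ + capMono v _ σ
    rw [h, h, h, mul_add, add_mul]
  | zero => simp
  | add G H _ _ hG hH =>
    change G _ + H _ = (G _ + H _) + (G _ + H _)
    rw [hG, hH]
    abel
  | smul c G _ hG =>
    change c • G _ = c • G _ + c • G _
    rw [hG, smul_add]

theorem VL_zero (F : (Fin N → R) → R) (hF : F ∈ VL Λ R N) (r : Fin N → R) (i : Fin N) :
    F (Function.update r i 0) = 0 := by
  have h := VL_add F hF r i 0 0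
  rw [add_zero] at h
  exact left_eq_add.1 h

theorem VL_right (F : (Fin N → R) → R) (hF : F ∈ VL Λ R N) (i : Fin N) (a : R) :
    (fun r => F (Function.update r i (r i * a))) ∈ VL Λ R N := by
  unfold VL at hF
  induction hF using Submodule.span_induction with
  | mem G hG =>
    obtain ⟨v, σ, rfl⟩ := hG
    refine Submodule.subset_span
      ⟨Function.update v (σ.symm i).succ (a * v (σ.symm i).succ), σ, ?_⟩
    funext r
    change capMono v _ σ = capMono _ r σ
    unfold capMono
    rw [Function.update_of_ne (Fin.succ_ne_zero _).symm]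
    congr 2
    congr 1
    funext l
    by_cases hl : σ l = i
    · subst hl
      rw [Function.update_self, Equiv.symm_apply_apply, Function.update_self, mul_assoc]
    · have h1 : l.succ ≠ (σ.symm i).succ := by
        intro h2
        have h3 := Fin.succ_injective _ h2
        exact hl (by rw [h3, Equiv.apply_symm_apply])
      rw [Function.update_of_ne hl, Function.update_of_ne h1]
  | zero => exact Submodule.zero_mem _
  | add G H _ _ hG hH => exact Submodule.add_mem _ hG hH
  | smul c G _ hG => exact Submodule.smul_mem _ c hG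

theorem VL_perm (F : (Fin N → R) → R) (hF : F ∈ VL Λ R N) (σ : Perm (Fin N)) :
    (fun r => F (r ∘ σ)) ∈ VL Λ R N := by
  unfold VL at hF
  induction hF using Submodule.span_induction with
  | mem G hG =>
    obtain ⟨v, τ, rfl⟩ := hG
    exact Submodule.subset_span ⟨v, σ * τ, rfl⟩
  | zero => exact Submodule.zero_mem _
  | add G H _ _ hG hH => exact Submodule.add_mem _ hG hH
  | smul c G _ hG => exact Submodule.smul_mem _ c hG

/-- the operator `ρ_i(a)` -/
def rhoL (i : Fin N) (a : R) : Module.End Λ (VL Λ R N) where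
  toFun F := ⟨fun r => F.1 (Function.update r i (r i * a)), VL_right F.1 F.2 i a⟩
  map_add' _ _ := rfl
  map_smul' _ _ := rfl

/-- the operator `s(σ)` -/
def sL (σ : Perm (Fin N)) : Module.End Λ (VL Λ R N) where
  toFun F := ⟨fun r => F.1 (r ∘ σ), VL_perm F.1 F.2 σ⟩
  map_add' _ _ := rfl
  map_smul' _ _ := rfl

theorem endL_ext {f g : Module.End Λ (VL Λ R N)}
    (h : ∀ (F : VL Λ R N) (r : Fin N → R), (f F).1 r = (g F).1 r) : f = g :=
  LinearMap.ext fun F => Subtype.ext (funext fun r => h F r)

/-- `ρ_i` as a ring homomorphism -/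
def rhoH (i : Fin N) : R →+* Module.End Λ (VL Λ R N) where
  toFun := rhoL i
  map_one' := by
    refine endL_ext fun F r => ?_
    change F.1 (Function.update r i (r i * 1)) = F.1 r
    rw [mul_one, Function.update_eq_self]
  map_mul' := by
    intro a b
    refine endL_ext fun F r => ?_
    change F.1 (Function.update r i (r i * (a * b))) =
      F.1 (Function.update (Function.update r i (r i * a)) i
        (Function.update r i (r i * a) i * b))
    rw [Function.update_idem, Function.update_self, mul_assoc]
  map_zero' := by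
    refine endL_ext fun F r => ?_
    change F.1 (Function.update r i (r i * 0)) = 0
    rw [mul_zero]
    exact VL_zero F.1 F.2 r i
  map_add' := by
    intro a b
    refine endL_ext fun F r => ?_
    change F.1 (Function.update r i (r i * (a + b))) =
      F.1 (Function.update r i (r i * a)) + F.1 (Function.update r i (r i * b))
    rw [mul_add]
    exact VL_add F.1 F.2 r i _ _

/-- the permutations as a monoid homomorphism -/
def sH : Perm (Fin N) →* Module.End Λ (VL Λ R N) where
  toFun := sL
  map_one' := rfl
  map_mul' := fun _ _ => rfl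

variable (Λ R N) in
/-- the action of the group algebra -/
noncomputable def aL : MonoidAlgebra Λ (Perm (Fin N)) →ₐ[Λ] Module.End Λ (VL Λ R N) :=
  MonoidAlgebra.lift Λ (Module.End Λ (VL Λ R N)) (Perm (Fin N)) sH

theorem aL_of (σ : Perm (Fin N)) : aL Λ R N (MonoidAlgebra.of Λ _ σ) = sL σ := by
  unfold aL
  simp
  rfl

/-- the value `f_y(v, r)` -/
noncomputable def fv (y : MonoidAlgebra Λ (Perm (Fin N))) (v : Fin (N + 1) → R)
    (r : Fin N → R) : R := ∑ σ, y.coeff σ • capMono v r σ

/-- the monomial as an element of `VL` -/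
def monV (v : Fin (N + 1) → R) (τ : Perm (Fin N)) : VL Λ R N :=
  ⟨fun r => capMono v r τ, Submodule.subset_span ⟨v, τ, rfl⟩⟩

theorem aL_monV (y : MonoidAlgebra Λ (Perm (Fin N))) (v : Fin (N + 1) → R)
    (τ : Perm (Fin N)) (r : Fin N → R) :
    (aL Λ R N y (monV v τ)).1 r = ∑ σ, y.coeff σ • capMono v r (σ * τ) := by
  induction y using MonoidAlgebra.induction_on with
  | of g =>
    rw [aL_of, Finset.sum_eq_single g]
    · simp only [MonoidAlgebra.of_apply, MonoidAlgebra.coeff_single, Finsupp.single_eq_same,
        one_smul]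
      rfl
    · intro b _ hb
      simp only [MonoidAlgebra.of_apply, MonoidAlgebra.coeff_single]
      rw [Finsupp.single_eq_of_ne hb, zero_smul]
    · intro h; exact absurd (Finset.mem_univ _) h
  | add x y hx hy =>
    rw [map_add, LinearMap.add_apply]
    change (aL Λ R N x (monV v τ)).1 r + (aL Λ R N y (monV v τ)).1 r = _
    rw [hx, hy, ← Finset.sum_add_distrib]
    refine Finset.sum_congr rfl (fun σ _ => ?_)
    rw [MonoidAlgebra.coeff_add, Finsupp.add_apply, add_smul]
  | smul c x hx =>
    rw [map_smul, LinearMap.smul_apply]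
    change c • (aL Λ R N x (monV v τ)).1 r = _
    rw [hx, Finset.smul_sum]
    refine Finset.sum_congr rfl (fun σ _ => ?_)
    rw [MonoidAlgebra.coeff_smul, Finsupp.smul_apply, smul_smul, smul_eq_mul]

theorem aL_fv (y : MonoidAlgebra Λ (Perm (Fin N))) (v : Fin (N + 1) → R) (r : Fin N → R) :
    (aL Λ R N y (monV v 1)).1 r = fv y v r := by
  rw [aL_monV]
  unfold fv
  exact Finset.sum_congr rfl (fun σ _ => by rw [mul_one])

/-- type `(k|l)` in degree `N` -/
def TypeKL (j : Λ →+* ℚ) (k l N : ℕ) (R : Type) [Ring R] [Algebra Λ R] : Prop :=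
  ∀ y : MonoidAlgebra Λ (Perm (Fin N)), act k l _ (mj j _ y) = 0 →
    ∀ (v : Fin (N + 1) → R) (r : Fin N → R), fv y v r = 0

theorem aL_zero {j : Λ →+* ℚ} {k l : ℕ} (hT : TypeKL j k l N R)
    (y : MonoidAlgebra Λ (Perm (Fin N))) (hy : act k l _ (mj j _ y) = 0) :
    aL Λ R N y = 0 := by
  refine endL_ext fun F r => ?_
  obtain ⟨F, hF⟩ := F
  change (aL Λ R N y ⟨F, hF⟩).1 r = 0
  have key : ∀ F (hF : F ∈ VL Λ R N), ∀ r, (aL Λ R N y ⟨F, hF⟩).1 r = 0 := by
    intro F hF
    have hF' := hF
    unfold VL at hF
    induction hF using Submodule.span_induction with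
    | mem G hG =>
      intro r
      obtain ⟨v, τ, rfl⟩ := hG
      have h1 : (⟨fun r => capMono v r τ, hF'⟩ : VL Λ R N)
          = sL τ (monV v 1) := rfl
      rw [h1, ← aL_of, ← Module.End.mul_apply, ← map_mul, aL_fv]
      apply hT
      rw [map_mul, map_mul, hy, zero_mul]
    | zero =>
      intro r
      have h1 : (⟨0, hF'⟩ : VL Λ R N) = 0 := rfl
      rw [h1, map_zero]; rfl
    | add G H hG1 hH1 hG hH =>
      intro r
      have h1 : (⟨G + H, hF'⟩ : VL Λ R N) = ⟨G, hG1⟩ + ⟨H, hH1⟩ := rfl
      rw [h1, map_add]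
      change (aL Λ R N y ⟨G, hG1⟩).1 r + (aL Λ R N y ⟨H, hH1⟩).1 r = 0
      rw [hG hG1, hH hH1, add_zero]
    | smul c G hG1 hG =>
      intro r
      have h1 : (⟨c • G, hF'⟩ : VL Λ R N) = c • ⟨G, hG1⟩ := rfl
      rw [h1, map_smul]
      change c • (aL Λ R N y ⟨G, hG1⟩).1 r = 0
      rw [hG hG1, smul_zero]
  exact key F hF r

/-- THE REPRESENTATION of a ring of type `(k|l)`. -/
noncomputable def ringRp {j : Λ →+* ℚ} {k l m : ℕ} (L : CatL j k l m) (n : ℕ)
    (hT : TypeKL j k l (n + m) R) :
    CatL.Rp L n R (Module.End Λ (VL Λ R (n + m))) where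
  a := (aL Λ R (n + m)).toRingHom
  hK y hy := aL_zero hT y hy
  ρ := rhoL
  hcomm i i' h x y := by
    refine endL_ext fun F r => ?_
    change F.1 (Function.update (Function.update r i (r i * x)) i'
        (Function.update r i (r i * x) i' * y)) =
      F.1 (Function.update (Function.update r i' (r i' * y)) i
        (Function.update r i' (r i' * y) i * x))
    rw [Function.update_of_ne h.symm, Function.update_of_ne h, Function.update_comm h]
  hconj g i x := by
    change aL Λ R (n + m) _ * _ = _ * aL Λ R (n + m) _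
    rw [aL_of]
    refine endL_ext fun F r => ?_
    change F.1 (Function.update (r ∘ g) i ((r ∘ g) i * x)) =
      F.1 (Function.update r (g i) (r (g i) * x) ∘ g)
    have h0 : Function.update (r ∘ g) i ((r ∘ g) i * x) =
        Function.update r (g i) (r (g i) * x) ∘ g := by
      funext l
      by_cases hl : l = i
      · subst hl
        simp
      · have h1 : g l ≠ g i := fun h2 => hl (g.injective h2)
        rw [Function.update_of_ne hl, Function.comp_apply, Function.comp_apply,
          Function.update_of_ne h1]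
    rw [h0]
  hscal c i x := by
    change aL Λ R (n + m) _ * _ = _ * aL Λ R (n + m) _
    have h1 : (MonoidAlgebra.single 1 c : MonoidAlgebra Λ (Perm (Fin (n + m))))
        = algebraMap Λ _ c := rfl
    rw [h1, AlgHom.commutes]
    exact Algebra.commutes c _

end Pool.PI34.Super
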