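import Pool.Agent.LibPI34.Rg2

/-!
PI34, general rational lemma, file 3: (RL) for every element `Y` which does not act by zero.
-/

set_option linter.unusedSectionVars false
set_option linter.unusedSimpArgs false

namespace Pool.PI34.Super

open Equiv Finset

variable {k l n m d : ℕ}

section layout

variable {n1 : ℕ} {c0 : Lt k l} (e : Fin d × {c : Lt k l // c ≠ c0} ≃ Fin n1)

/-- the positions of the blocks -/
def Pos (x : Fin d × Lt k l) : Fin (n1 + d) :=
  if h : x.2 = c0 then Fin.natAdd n1 x.1 else Fin.castAdd d (e (x.1, ⟨x.2, h⟩))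

/-- the standard word -/
def v00 : Fin (n1 + d) → Lt k l := Fin.append (fun i => ((e.symm i).2 : Lt k l)) (fun _ => c0)

theorem Pos_c0 (i : Fin d) : Pos e (i, c0) = phR n1 d i := by
  unfold Pos; rw [dif_pos rfl]; rfl

theorem Pos_ne (i : Fin d) (c : Lt k l) (h : c ≠ c0) :
    Pos e (i, c) = Fin.castAdd d (e (i, ⟨c, h⟩)) := by
  unfold Pos; rw [dif_neg h]

theorem std_Pos : Std (Pos e) (v00 e) := by
  have hval : ∀ (a : Fin n1) (b : Fin d), Fin.castAdd d a ≠ Fin.natAdd n1 b := by
    intro a b h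
    have := congrArg Fin.val h
    simp only [Fin.val_castAdd, Fin.val_natAdd] at this
    have := a.2
    omega
  refine ⟨?_, ?_, ?_⟩
  · rintro ⟨i, c⟩ ⟨i', c'⟩ h
    by_cases hc : c = c0 <;> by_cases hc' : c' = c0
    · subst hc; subst hc'
      rw [Pos_c0, Pos_c0] at h
      rw [(phR n1 d).injective h]
    · subst hc
      rw [Pos_c0, Pos_ne e _ _ hc'] at h
      exact absurd h.symm (hval _ _)
    · subst hc'
      rw [Pos_c0, Pos_ne e _ _ hc] at h
      exact absurd h (hval _ _)
    · rw [Pos_ne e _ _ hc, Pos_ne e _ _ hc'] at h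
      have h1 := congrArg Fin.val h
      simp only [Fin.val_castAdd] at h1
      have h2 := e.injective (Fin.ext h1)
      simp only [Prod.mk.injEq, Subtype.mk.injEq] at h2
      rw [h2.1, h2.2]
  · intro x
    refine Fin.addCases (fun i => ?_) (fun i => ?_) x
    · refine ⟨((e.symm i).1, (e.symm i).2), ?_⟩
      rw [Pos_ne e _ _ (e.symm i).2.2]
      simp
    · exact ⟨(i, c0), Pos_c0 e i⟩
  · rintro ⟨i, c⟩
    by_cases hc : c = c0
    · subst hc
      rw [Pos_c0]
      exact Fin.append_right _ _ i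
    · rw [Pos_ne e _ _ hc]
      unfold v00
      rw [Fin.append_left]
      simp

theorem slice_Dl (w1 : Fin d → Lt k l) :
    sl (phR n1 d) (v00 e ∘ vb (Pos e) (std_Pos e).inj (fun i => swap c0 (w1 i)))
      (Dl (Pos e) (std_Pos e).inj (v00 e))
      = sgF (fun i => swap c0 (w1 i)) • (Pi.single w1 1 : W k l (Fin d)) := by
  classical
  set h := std_Pos e with hh
  set ρ1 : Fin d → Perm (Lt k l) := fun i => swap c0 (w1 i) with hρ1
  set v := v00 e ∘ vb (Pos e) h.inj ρ1 with hv
  have hvP : ∀ i c, v (Pos e (i, c)) = ρ1 i c := by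
    intro i c
    rw [hv, Function.comp_apply, vb_apply, h.eval]
  funext u
  rw [sl_apply, Pi.smul_apply, smul_eq_mul, Pi.single_apply]
  split_ifs with hu
  · subst hu
    have h1 : Function.extend (phR n1 d) u v = v := by
      funext x
      by_cases hx : ∃ i, phR n1 d i = x
      · obtain ⟨i, rfl⟩ := hx
        rw [(phR n1 d).injective.extend_apply, ← Pos_c0 e i, hvP]
        simp [hρ1]
      · rw [Function.extend_apply' _ _ _ hx]
    rw [h1, mul_one, hv, h.Dl_apply]
  · rw [mul_zero]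
    by_contra hne
    obtain ⟨ρ, hρ⟩ := h.Dl_ne hne
    apply hu
    funext i
    have h1 : ∀ c, c ≠ c0 → ρ i c = ρ1 i c := by
      intro c hc
      have h2 := congrFun hρ (Pos e (i, c))
      rw [Function.comp_apply, vb_apply, h.eval, Function.extend_apply'] at h2
      · rw [hvP] at h2
        exact h2.symm
      · rintro ⟨j, hj⟩
        rw [← Pos_c0 e j] at hj
        have := h.inj hj
        simp only [Prod.mk.injEq] at this
        exact hc this.2.symm
    have h3 : ρ i c0 = u i := by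
      have h2 := congrFun hρ (Pos e (i, c0))
      rw [Function.comp_apply, vb_apply, h.eval, Pos_c0, (phR n1 d).injective.extend_apply] at h2
      exact h2.symm
    rw [← h3]
    have h4 : ρ1 i c0 = w1 i := by simp [hρ1]
    rw [← h4]
    obtain ⟨b, hb⟩ := (ρ i).surjective (ρ1 i c0)
    by_cases hbc : b = c0
    · rw [← hb, hbc]
    · rw [h1 b hbc] at hb
      exact absurd ((ρ1 i).injective hb) hbc

theorem act_Dl_ne {Y : MonoidAlgebra ℚ (Perm (Fin d))} (hY : act k l _ Y ≠ 0) :
    act k l _ (pl (phR n1 d) Y) (Dl (Pos e) (std_Pos e).inj (v00 e)) ≠ 0 := by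
  classical
  have h1 : ∃ w1 : Fin d → Lt k l, act k l _ Y (Pi.single w1 1) ≠ 0 := by
    by_contra hcon
    push Not at hcon
    apply hY
    apply LinearMap.ext
    intro f
    have h1 : f = ∑ v, f v • (Pi.single v 1 : W k l (Fin d)) := by
      funext w
      rw [Finset.sum_apply, Finset.sum_eq_single w]
      · simp
      · intro b _ hb; simp [Pi.single_apply, hb.symm]
      · intro h; exact absurd (Finset.mem_univ _) h
    rw [h1, map_sum, LinearMap.zero_apply]
    exact Finset.sum_eq_zero (fun v _ => by rw [map_smul, hcon, smul_zero])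
  obtain ⟨w1, hw1⟩ := h1
  obtain ⟨w', hw'⟩ := Function.ne_iff.1 hw1
  set v := v00 e ∘ vb (Pos e) (std_Pos e).inj (fun i => swap c0 (w1 i)) with hv
  intro h0
  have h2 := congrFun h0 (Function.extend (phR n1 d) w' v)
  rw [act_pl conv_phR] at h2
  have h3 : sl (phR n1 d) (Function.extend (phR n1 d) w' v) (Dl (Pos e) (std_Pos e).inj (v00 e))
      = sl (phR n1 d) v (Dl (Pos e) (std_Pos e).inj (v00 e)) := by
    funext u
    rw [sl_apply, sl_apply]
    congr 1
    funext x
    by_cases hx : ∃ i, phR n1 d i = x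
    · obtain ⟨i, rfl⟩ := hx
      rw [(phR n1 d).injective.extend_apply, (phR n1 d).injective.extend_apply]
    · rw [Function.extend_apply' _ _ _ hx, Function.extend_apply' _ _ _ hx,
        Function.extend_apply' _ _ _ hx]
  rw [h3, slice_Dl, map_smul, ext_phR_phR, Pi.smul_apply, smul_eq_mul, Pi.zero_apply,
    mul_eq_zero] at h2
  rcases h2 with h2 | h2
  · have := sgF_sq (fun i => swap c0 (w1 i))
    rw [h2, mul_zero] at this
    exact zero_ne_one this
  · exact hw' h2

end layout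

theorem JJ_le {ι : Type} [Fintype ι] [LinearOrder ι] {Z Z' : MonoidAlgebra ℚ (Perm ι)}
    (h : Z' ∈ JJ k l Z) : JJ k l Z' ≤ JJ k l Z := by
  refine sup_le le_sup_left ?_
  rw [Submodule.span_le]
  rintro _ ⟨a, b, rfl⟩
  exact JJ_right b (JJ_left a h)

theorem ext_trans {κ ι ι' : Type} [Fintype κ] [LinearOrder κ] [Fintype ι] [LinearOrder ι]
    [Fintype ι'] [LinearOrder ι'] (φ : κ ↪o ι) (ψ : ι ↪o ι') (σ : Perm κ) :
    ext ψ (ext φ σ) = ext (φ.trans ψ) σ := by
  apply Equiv.ext
  intro x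
  by_cases hx : x ∈ Set.range ψ
  · obtain ⟨y, rfl⟩ := hx
    rw [ext_apply]
    by_cases hy : y ∈ Set.range φ
    · obtain ⟨z, rfl⟩ := hy
      rw [ext_apply]
      exact (ext_apply (φ.trans ψ) σ z).symm
    · rw [ext_apply' φ σ y hy, ext_apply']
      rintro ⟨z, hz⟩
      exact hy ⟨z, ψ.injective hz⟩
  · rw [ext_apply' ψ _ x hx, ext_apply']
    rintro ⟨z, hz⟩
    exact hx ⟨φ z, hz⟩

theorem pl_trans {κ ι ι' : Type} [Fintype κ] [LinearOrder κ] [Fintype ι] [LinearOrder ι]
    [Fintype ι'] [LinearOrder ι'] (φ : κ ↪o ι) (ψ : ι ↪o ι') (y : MonoidAlgebra ℚ (Perm κ)) :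
    pl ψ (pl φ y) = pl (φ.trans ψ) y := by
  induction y using MonoidAlgebra.induction_on with
  | of σ => rw [pl_of, pl_of, pl_of, ext_trans]
  | add x y hx hy => rw [map_add, map_add, map_add, hx, hy]
  | smul r x hx => rw [map_smul, map_smul, map_smul, hx]

theorem isAltF_pl (C : Cat k l m) {n' q : ℕ} {P : Fin d × Lt k l → Fin q}
    (hP : Function.Injective P) {Y : MonoidAlgebra ℚ (Perm (Fin (q + m)))}
    (hY : IsAltF C P hP Y) :
    IsAltF C (fun c => Fin.natAdd n' (P c)) (fun _ _ h => hP (natAdd_inj' n' h))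
      (pl (phq n' q m) Y) := by
  intro v
  have h1 := act_phq C (n' := n') Y (univ : Finset (Fin d → Perm (Lt k l)))
    (fun x => sgF x) (fun x => viaG P hP (bp x)) (fun v => hY v) v
  rw [h1]
  refine Finset.sum_congr rfl (fun ρ _ => ?_)
  have h2 : ext (Fin.natAddOrderEmb n') (viaG P hP (bp ρ))
        = viaG (fun c => Fin.natAdd n' (P c)) (fun _ _ h => hP (natAdd_inj' n' h)) (bp ρ) := by
    apply Equiv.ext
    intro x
    by_cases hx : ∃ c, Fin.natAdd n' (P c) = x
    · obtain ⟨c, rfl⟩ := hx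
      rw [viaG_apply (fun c => Fin.natAdd n' (P c)) (fun _ _ h => hP (natAdd_inj' n' h)) (bp ρ) c]
      have := ext_apply (Fin.natAddOrderEmb n') (viaG P hP (bp ρ)) (P c)
      rw [viaG_apply] at this
      exact this
    · push Not at hx
      rw [viaG_apply' (fun c => Fin.natAdd n' (P c)) (fun _ _ h => hP (natAdd_inj' n' h)) (bp ρ) hx]
      by_cases hx2 : x ∈ Set.range (Fin.natAddOrderEmb n' : Fin q ↪o Fin (n' + q))
      · obtain ⟨y, rfl⟩ := hx2
        rw [ext_apply, viaG_apply' P hP (bp ρ) (fun c e => hx c (by rw [e]; rfl))]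
      · exact ext_apply' _ _ _ hx2
  rw [h2]

theorem RL_gen_aux {n0 n1 : ℕ} {c0 : Lt k l} (e : Fin d × {c : Lt k l // c ≠ c0} ≃ Fin n1)
    {Y : MonoidAlgebra ℚ (Perm (Fin d))} (hY : act k l _ Y ≠ 0)
    (y : MonoidAlgebra ℚ (Perm (Fin (n0 + (n1 + d) + mm k l))))
    (hy : ∀ u : Fin (n0 + (n1 + d) + mm k l) → Lt k l, act k l _ y (Pi.single u 1) ≠ 0 →
      (∀ i : Fin k, l + d ≤ cnt (Sum.inl i) u) ∧ (∀ j : Fin l, k + d ≤ cnt (Sum.inr j) u)) :
    ∃ ψ : Fin d ↪o Fin (n0 + (n1 + d) + mm k l), y ∈ JJ k l (pl ψ Y) := by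
  let C := catalyst k l
  have hC : C.ξ = xi k l := rfl
  obtain ⟨a, b, hab⟩ := (std_Pos e).sandwich C (pl (phR n1 d) Y) (act_Dl_ne e hY)
  refine ⟨((phR n1 d).trans (phL (n1 + d) (mm k l))).trans (phq n0 (n1 + d) (mm k l)), ?_⟩
  have h1 := RLF C hC _ (isAltF_pl C (n' := n0) (std_Pos e).inj hab) y hy
  refine JJ_le ?_ h1
  rw [map_mul, map_mul, pl_trans, pl_trans, ← pl_trans, ← pl_trans]
  rw [pl_trans, pl_trans]
  exact Z_mem_JJ _ _

theorem JJ_conj {N : ℕ} (φ ψ : Fin d ↪o Fin N) (Y : MonoidAlgebra ℚ (Perm (Fin d))) :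
    pl ψ Y ∈ JJ k l (pl φ Y) := by
  obtain ⟨T, hT⟩ := exists_perm_gen (P := φ) (P' := ψ) φ.injective ψ.injective
  rw [pl_conj φ ψ T hT]
  exact Z_mem_JJ _ _

theorem sum_cnt {N : ℕ} (u : Fin N → Lt k l) : ∑ c, cnt c u = N := by
  classical
  have h := Finset.card_eq_sum_card_fiberwise (f := u) (s := univ) (t := univ)
    (fun _ _ => Finset.mem_coe.2 (Finset.mem_univ _))
  rw [Finset.card_univ, Fintype.card_fin] at h
  exact h.symm

/-- (RL), general form: `Y` is any element which does not act by zero in the `(k|l)` sign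
representation. An element killing all the words in which some even letter occurs less than
`l + d` times or some odd letter less than `k + d` times is in the ideal `K(k|l) + (Y)`. -/
theorem RL_gen {N : ℕ} (hkl : 0 < k + l) (φ : Fin d ↪o Fin N)
    {Y : MonoidAlgebra ℚ (Perm (Fin d))} (hY : act k l _ Y ≠ 0)
    (y : MonoidAlgebra ℚ (Perm (Fin N)))
    (hy : ∀ u : Fin N → Lt k l, act k l _ y (Pi.single u 1) ≠ 0 →
      (∀ i : Fin k, l + d ≤ cnt (Sum.inl i) u) ∧ (∀ j : Fin l, k + d ≤ cnt (Sum.inr j) u)) :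
    y ∈ JJ k l (pl φ Y) := by
  classical
  by_cases h0 : act k l _ y = 0
  · exact ker_le_JJ h0
  have h1 : ∃ u : Fin N → Lt k l, act k l _ y (Pi.single u 1) ≠ 0 := by
    by_contra hcon
    push Not at hcon
    apply h0
    apply LinearMap.ext
    intro f
    have h1 : f = ∑ v, f v • (Pi.single v 1 : W k l (Fin N)) := by
      funext w
      rw [Finset.sum_apply, Finset.sum_eq_single w]
      · simp
      · intro b _ hb; simp [Pi.single_apply, hb.symm]
      · intro h; exact absurd (Finset.mem_univ _) h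
    rw [h1, map_sum, LinearMap.zero_apply]
    exact Finset.sum_eq_zero (fun v _ => by rw [map_smul, hcon, smul_zero])
  obtain ⟨u, hu⟩ := h1
  obtain ⟨h2, h3⟩ := hy u hu
  -- a letter
  have hc0 : Nonempty (Lt k l) := by
    rcases Nat.eq_zero_or_pos k with rfl | hk
    · exact ⟨Sum.inr ⟨0, by omega⟩⟩
    · exact ⟨Sum.inl ⟨0, hk⟩⟩
  obtain ⟨c0⟩ := hc0
  set n1 := Fintype.card (Fin d × {c : Lt k l // c ≠ c0}) with hn1
  let e : Fin d × {c : Lt k l // c ≠ c0} ≃ Fin n1 := Fintype.equivFin _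
  have hcard : n1 + d = (k + l) * d := by
    have h4 : Fintype.card {c : Lt k l // c ≠ c0} = k + l - 1 := by
      have := Fintype.card_subtype_compl (fun c : Lt k l => c = c0)
      rw [Fintype.card_subtype_eq] at this
      have h5 : Fintype.card (Lt k l) = k + l := by
        rw [Fintype.card_sum, Fintype.card_fin, Fintype.card_fin]
      rw [h5] at this
      exact this
    rw [hn1, Fintype.card_prod, Fintype.card_fin, h4]
    obtain ⟨q, hq⟩ : ∃ q, k + l = q + 1 := ⟨k + l - 1, by omega⟩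
    rw [hq]
    simp only [Nat.add_sub_cancel]
    ring
  have hN : (n1 + d) + mm k l ≤ N := by
    rw [hcard]
    have h4 := sum_cnt u
    rw [Fintype.sum_sum_type] at h4
    have h5 : k * (l + d) ≤ ∑ i : Fin k, cnt (Sum.inl i : Lt k l) u := by
      calc k * (l + d) = ∑ _i : Fin k, (l + d) := by
            rw [Finset.sum_const, Finset.card_univ, Fintype.card_fin, smul_eq_mul]
        _ ≤ _ := Finset.sum_le_sum (fun i _ => h2 i)
    have h6 : l * (k + d) ≤ ∑ i : Fin l, cnt (Sum.inr i : Lt k l) u := by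
      calc l * (k + d) = ∑ _i : Fin l, (k + d) := by
            rw [Finset.sum_const, Finset.card_univ, Fintype.card_fin, smul_eq_mul]
        _ ≤ _ := Finset.sum_le_sum (fun i _ => h3 i)
    unfold mm
    nlinarith
  obtain ⟨n0, hn0⟩ := Nat.exists_eq_add_of_le' hN
  rw [← add_assoc] at hn0
  subst hn0
  obtain ⟨ψ, hψ⟩ := RL_gen_aux e hY y hy
  exact JJ_le (JJ_conj φ ψ Y) hψ

/-- (RL), general form for blocks: the product of `≥ l+1+d` disjoint blocks of `K(k|l+1)` and
`≥ k+1+d` disjoint blocks of `K(k+1|l)` is in `K(k+1|l+1) + (Y)`. -/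
theorem RL_gen_blocks {N : ℕ} (φ : Fin d ↪o Fin N)
    {Y : MonoidAlgebra ℚ (Perm (Fin d))} (hY : act (k + 1) (l + 1) _ Y ≠ 0)
    (L L' : List (Blk (Fin N)))
    (hL : (L ++ L').Pairwise DisjB) (hlen : l + 1 + d ≤ L.length) (hlen' : k + 1 + d ≤ L'.length)
    (h1 : ∀ B ∈ L, act k (l + 1) _ B.y = 0) (h2 : ∀ B ∈ L', act (k + 1) l _ B.y = 0) :
    prodB (L ++ L') ∈ JJ (k + 1) (l + 1) (pl φ Y) := by
  refine RL_gen (by omega) φ hY _ (fun u hu => ?_)
  have hL1 : L.Pairwise DisjB := (List.pairwise_append.1 hL).1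
  have hL2 : L'.Pairwise DisjB := (List.pairwise_append.1 hL).2.1
  refine ⟨fun i => ?_, fun j => ?_⟩
  · refine le_trans hlen ?_
    refine cnt_blocks L hL1 _ u (fun B hB => ?_)
    by_contra hcon
    push Not at hcon
    apply hu
    refine prodB_kill _ hL (List.mem_append_left _ hB) ?_
    refine act_pl_single B.conv ?_
    exact kill_small (fev_odd i) (h1 B hB) (fun s => fev_range i _ (hcon s))
  · refine le_trans hlen' ?_
    refine cnt_blocks L' hL2 _ u (fun B hB => ?_)
    by_contra hcon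
    push Not at hcon
    apply hu
    refine prodB_kill _ hL (List.mem_append_right _ hB) ?_
    refine act_pl_single B.conv ?_
    exact kill_small (fod_odd j) (h2 B hB) (fun s => fod_range j _ (hcon s))

end Pool.PI34.Super
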