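import Pool.Agent.LibPI34.P3a
import Pool.Agent.LibPI34.Rg3

/-!
PI34, block P, file 4: the element `Y0` and the values `f_{Y0}`.
-/

set_option linter.unusedSectionVars false
set_option linter.unusedSimpArgs false

namespace Pool.PI34.Super

open Equiv Finset
open Pool.PI34.SS (FA)
open Pool.PI34.C0 (capMono)
open Pool.PI34.BA (anti permsOn)

theorem mem_permsOn' {n : ℕ} {T : Finset (Fin n)} {σ : Perm (Fin n)} :
    σ ∈ permsOn T ↔ ∀ x, x ∉ T → σ x = x := by
  simp [permsOn]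

section ext

variable {κ ι : Type} [Fintype κ] [LinearOrder κ] [Fintype ι] [LinearOrder ι]

theorem ext_surj (φ : κ ↪o ι) (g : Perm ι) (h : ∀ x, x ∉ Set.range φ → g x = x) :
    ∃ g' : Perm κ, ext φ g' = g := by
  classical
  have h1 : ∀ c, ∃ d, φ d = g (φ c) := by
    intro c
    by_contra hcon
    have h2 : g (φ c) ∉ Set.range φ := by
      rintro ⟨d, hd⟩
      exact hcon ⟨d, hd⟩
    have h3 := h _ h2
    have h4 := g.injective h3
    exact hcon ⟨c, h4.symm⟩
  choose f hf using h1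
  have hinj : Function.Injective f := by
    intro a b hab
    have := hf a
    rw [hab, hf b] at this
    exact (φ.injective (g.injective this)).symm
  let g' : Perm κ := Equiv.ofBijective f (Finite.injective_iff_bijective.1 hinj)
  refine ⟨g', ?_⟩
  apply Equiv.ext
  intro x
  by_cases hx : x ∈ Set.range φ
  · obtain ⟨c, rfl⟩ := hx
    rw [ext_apply]
    exact hf c
  · rw [ext_apply' _ _ _ hx, h x hx]

end ext

/-- all the strands except the first -/
def ph1 (q m : ℕ) : Fin (q + m) ↪o Fin (q + 1 + m) :=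
  OrderEmbedding.ofStrictMono (fun x => ⟨x.val + 1, by omega⟩) (fun x y h => by
    rw [Fin.lt_def] at *; simp only; omega)

theorem ph1_val (q m : ℕ) (x : Fin (q + m)) : (ph1 q m x).val = x.val + 1 := rfl

theorem ph1_range (q m : ℕ) (x : Fin (q + 1 + m)) (hx : x ∉ Set.range (ph1 q m)) :
    x.val = 0 := by
  by_contra h
  apply hx
  refine ⟨⟨x.val - 1, by omega⟩, Fin.ext ?_⟩
  rw [ph1_val]
  simp only
  omega

theorem conv_ph1 (q m : ℕ) : Conv (ph1 q m) := by
  intro x hx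
  left
  intro a
  rw [Fin.lt_def, ph1_range q m x hx, ph1_val]
  omega

theorem phR_ph1 (q m : ℕ) : (phR q m).trans (ph1 q m) = phR (q + 1) m := by
  apply DFunLike.ext
  intro x
  apply Fin.ext
  change (ph1 q m (phR q m x)).val = _
  rw [ph1_val]
  have h1 : (phR q m x).val = q + x.val := rfl
  have h2 : (phR (q + 1) m x).val = q + 1 + x.val := rfl
  rw [h1, h2]; omega

theorem phi_ph1 (q m : ℕ) (i : Fin q) : (phi q m i).trans (ph1 q m) = phi (q + 1) m i.succ := by
  apply DFunLike.ext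
  intro x
  apply Fin.ext
  change (ph1 q m (phi q m i x)).val = _
  rw [ph1_val]
  rcases Fin.eq_zero_or_eq_succ x with rfl | ⟨x, rfl⟩
  · rfl
  · rw [phi_succ, phi_succ]
    have h1 : (Fin.natAdd q x).val = q + x.val := rfl
    have h2 : (Fin.natAdd (q + 1) x).val = q + 1 + x.val := rfl
    rw [h1, h2]; omega

namespace CatL

variable {Λ : Type} [CommRing Λ] {j : Λ →+* ℚ} {k l m : ℕ} (L : CatL j k l m)

/-- the image of the group algebra of the strands `≠ 0` -/
noncomputable def rg (Λ : Type) [CommRing Λ] (q m : ℕ) :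
    Subring (MonoidAlgebra Λ (Perm (Fin (q + 1 + m)))) := (plL Λ (ph1 q m)).range

theorem rg_Z (q : ℕ) : L.Z (q + 1) ∈ rg Λ q m := by
  refine ⟨L.Z q, ?_⟩
  unfold Z
  rw [plL_trans _ _ (fun σ => ext_trans _ _ σ), phR_ph1]

theorem rg_Ei (q : ℕ) (i : Fin q) : L.Ei (q + 1) i.succ ∈ rg Λ q m := by
  refine ⟨L.Ei q i, ?_⟩
  unfold Ei
  rw [plL_trans _ _ (fun σ => ext_trans _ _ σ), phi_ph1]

theorem rg_of (q : ℕ) (g : Perm (Fin (q + 1 + m))) (h : ∀ x, x.val = 0 → g x = x) :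
    MonoidAlgebra.of Λ _ g ∈ rg Λ q m := by
  obtain ⟨g', rfl⟩ := ext_surj (ph1 q m) g (fun x hx => h x (ph1_range q m x hx))
  exact ⟨MonoidAlgebra.of Λ _ g', plL_of _ _⟩

theorem rg_SG (q : ℕ) (σ : Perm (Fin (q + 1))) (h : σ 0 = 0) :
    L.SG (n := q + 1) σ ∈ rg Λ q m := by
  unfold SG
  apply Subring.list_prod_mem
  intro x hx
  rw [List.mem_map] at hx
  obtain ⟨y, hy, rfl⟩ := hx
  rw [Finset.mem_toList, mem_prs] at hy
  split_ifs with h1
  · have h2 : y.1 ≠ 0 := by
      intro e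
      rw [e, h] at h1
      exact absurd h1 (Fin.not_lt_zero _)
    have h3 : y.2 ≠ 0 := by
      intro e
      rw [e] at hy
      exact absurd hy (Fin.not_lt_zero _)
    obtain ⟨a, ha⟩ := Fin.exists_succ_eq.2 h2
    obtain ⟨b, hb⟩ := Fin.exists_succ_eq.2 h3
    rw [← ha, ← hb, two_mul]
    refine Subring.sub_mem _ (Subring.one_mem _) (Subring.add_mem _ ?_ ?_) <;>
      exact Subring.mul_mem _ (L.rg_Ei q a) (L.rg_Ei q b)
  · exact Subring.one_mem _

theorem rg_fl (q : ℕ) (σ : Perm (Fin (q + 1))) (h : σ 0 = 0) :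
    L.fl (n := q + 1) σ ∈ rg Λ q m := by
  unfold fl
  refine Subring.mul_mem _ ?_ (L.rg_SG q σ h)
  unfold S
  apply rg_of
  intro x hx
  by_cases h2 : x ∈ Set.range (phL (q + 1) m)
  · obtain ⟨y, rfl⟩ := h2
    rw [ext_apply]
    have h3 : (phL (q + 1) m y).val = y.val := rfl
    rw [h3] at hx
    have h4 : y = 0 := Fin.ext hx
    rw [h4, h]
  · exact ext_apply' _ _ _ h2

/-- the antisymmetrizer of the plain flips -/
noncomputable def altL (n : ℕ) (T : Finset (Fin n)) : MonoidAlgebra Λ (Perm (Fin (n + m))) :=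
  ∑ σ ∈ permsOn T, ((Perm.sign σ : ℤˣ) : ℤ) • L.fl σ

theorem rg_altL (q : ℕ) (T : Finset (Fin (q + 1))) (hT : (0 : Fin (q + 1)) ∉ T) :
    L.altL (q + 1) T ∈ rg Λ q m := by
  unfold altL
  refine Subring.sum_mem _ (fun σ hσ => Subring.zsmul_mem _ (L.rg_fl q σ ?_) _)
  exact mem_permsOn'.1 hσ 0 hT

/-- `Y' = A_P A_Q (1 ⊗ z)` -/
noncomputable def Yp (n : ℕ) (P Q : Finset (Fin n)) : MonoidAlgebra Λ (Perm (Fin (n + m))) :=
  L.altL n P * L.altL n Q * L.Z n

theorem exists_Y0 (q : ℕ) (P Q : Finset (Fin (q + 1))) (hP : (0 : Fin (q + 1)) ∉ P)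
    (hQ : (0 : Fin (q + 1)) ∉ Q) :
    ∃ Y0 : MonoidAlgebra Λ (Perm (Fin (q + m))), plL Λ (ph1 q m) Y0 = L.Yp (q + 1) P Q :=
  Subring.mul_mem (rg Λ q m)
    (Subring.mul_mem (rg Λ q m) (L.rg_altL q P hP) (L.rg_altL q Q hQ)) (L.rg_Z q)

theorem act_altL {n : ℕ} {ξ : W k l (Fin m)} (hξ : ξ ∈ L.C.Xi) (T : Finset (Fin n))
    (v : Fin n → Lt k l) : act k l _ (mj j _ (L.altL n T)) (tn v ξ)
      = ∑ σ ∈ permsOn T, ((Perm.sign σ : ℤ) : ℚ) • tn (v ∘ ⇑σ⁻¹) ξ := by
  unfold altL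
  rw [map_sum, map_sum, LinearMap.sum_apply]
  refine Finset.sum_congr rfl (fun σ _ => ?_)
  rw [mj_zsmul, mj_fl, map_smul, LinearMap.smul_apply, CatP.act_fl L.C hξ]

theorem act_Yp {n : ℕ} {ξ : W k l (Fin m)} (hξ : ξ ∈ L.C.Xi) (P Q : Finset (Fin n))
    (v : Fin n → Lt k l) : act k l _ (mj j _ (L.Yp n P Q)) (tn v ξ)
      = ∑ σ' ∈ permsOn Q, ∑ σ ∈ permsOn P,
        (((Perm.sign σ : ℤ) : ℚ) * ((Perm.sign σ' : ℤ) : ℚ)) • tn (v ∘ ⇑(σ * σ')⁻¹) ξ := by
  unfold Yp
  rw [map_mul, map_mul, map_mul, map_mul, mj_Z, Module.End.mul_apply, Module.End.mul_apply,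
    CatP.act_Z L.C hξ, L.act_altL hξ, map_sum]
  refine Finset.sum_congr rfl (fun σ' _ => ?_)
  rw [map_smul, L.act_altL hξ, Finset.smul_sum]
  refine Finset.sum_congr rfl (fun σ _ => ?_)
  rw [smul_smul, mul_comm]
  rfl

theorem Yp_ne {n : ℕ} (P Q : Finset (Fin n)) (hPQ : Disjoint P Q) (v : Fin n → Lt k l)
    (hvP : Set.InjOn v P) (hvQ : Set.InjOn v Q) : act k l _ (mj j _ (L.Yp n P Q)) ≠ 0 := by
  classical
  obtain ⟨ξ, hξ, hξ0⟩ := L.C.hne
  obtain ⟨u0, hu0⟩ := Function.ne_iff.1 hξ0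
  intro h0
  have h1 := congrFun (LinearMap.congr_fun h0 (tn v ξ)) (Fin.append v u0)
  rw [L.act_Yp hξ, LinearMap.zero_apply, Finset.sum_apply] at h1
  have hw1 : Fin.append v u0 ∘ phL n m = v := by
    funext i; exact Fin.append_left v u0 i
  have hw2 : Fin.append v u0 ∘ phR n m = u0 := by
    funext i; exact Fin.append_right v u0 i
  -- a product fixing the word is trivial
  have key : ∀ σ ∈ permsOn P, ∀ σ' ∈ permsOn Q, v = v ∘ ⇑(σ * σ')⁻¹ → σ = 1 ∧ σ' = 1 := by
    intro σ hσ σ' hσ' hv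
    have s1 : ∀ x, x ∉ P → σ x = x := mem_permsOn'.1 hσ
    have s2 : ∀ x, x ∉ Q → σ' x = x := mem_permsOn'.1 hσ'
    have t1 : ∀ x, x ∈ P → σ x ∈ P := by
      intro x hx
      by_contra h
      have := σ.injective (s1 _ h)
      rw [this] at h
      exact h hx
    have t2 : ∀ x, x ∈ Q → σ' x ∈ Q := by
      intro x hx
      by_contra h
      have := σ'.injective (s2 _ h)
      rw [this] at h
      exact h hx
    have hv' : ∀ x, v (σ (σ' x)) = v x := by
      intro x
      have := congrFun hv (σ (σ' x))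
      rw [Function.comp_apply, mul_inv_rev, Perm.mul_apply, inv_app', inv_app'] at this
      exact this
    constructor
    · apply Equiv.ext
      intro x
      by_cases hx : x ∈ P
      · have hxQ : x ∉ Q := fun h => Finset.disjoint_left.1 hPQ hx h
        have h2 := hv' x
        rw [s2 x hxQ] at h2
        exact hvP (t1 x hx) hx h2
      · exact s1 x hx
    · apply Equiv.ext
      intro x
      by_cases hx : x ∈ Q
      · have h3 : σ' x ∉ P := fun h => Finset.disjoint_left.1 hPQ h (t2 x hx)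
        have h2 := hv' x
        rw [s1 _ h3] at h2
        exact hvQ (t2 x hx) hx h2
      · exact s2 x hx
  have hP1 : (1 : Perm (Fin n)) ∈ permsOn P :=
    mem_permsOn'.2 (fun _ _ => rfl)
  have hQ1 : (1 : Perm (Fin n)) ∈ permsOn Q :=
    mem_permsOn'.2 (fun _ _ => rfl)
  rw [Finset.sum_eq_single_of_mem 1 hQ1, Finset.sum_apply, Finset.sum_eq_single_of_mem 1 hP1] at h1
  · rw [Pi.smul_apply, tn_apply, hw1, hw2, if_pos] at h1
    · simp only [Perm.sign_one, Units.val_one, Int.cast_one, mul_one, one_smul,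
        Pi.zero_apply] at h1
      exact hu0 h1
    · funext x; simp
  · intro σ hσ hne
    rw [Pi.smul_apply, tn_apply, hw1, if_neg, smul_zero]
    intro hv
    exact hne (key σ hσ 1 hQ1 hv).1
  · intro σ' hσ' hne
    rw [Finset.sum_apply]
    refine Finset.sum_eq_zero (fun σ hσ => ?_)
    rw [Pi.smul_apply, tn_apply, hw1, if_neg, smul_zero]
    intro hv
    exact hne (key σ hσ σ' hσ' hv).2

/-- if the placed element does not act by zero then the element does not either -/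
theorem act_of_pl {κ ι : Type} [Fintype κ] [LinearOrder κ] [Fintype ι] [LinearOrder ι]
    {φ : κ ↪o ι} (hφ : Conv φ) (y : MonoidAlgebra ℚ (Perm κ))
    (h : act k l _ (pl φ y) ≠ 0) : act k l _ y ≠ 0 := by
  intro h0
  apply h
  apply LinearMap.ext
  intro f
  funext w
  rw [act_pl hφ, h0]
  rfl

end CatL

section values

variable {Λ : Type} [CommRing Λ] {R : Type} [Ring R] [Algebra Λ R]

theorem cap_succ {N N' : ℕ} (hN : N = N' + 1) (φ : Fin N' ↪o Fin N)
    (hφ : ∀ x, (φ x).val = x.val + 1) (σ : Perm (Fin N')) (v : Fin (N + 1) → R)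
    (r : Fin N → R) (h0 : 0 < N) : capMono v r (ext φ σ)
      = v 0 * r ⟨0, h0⟩ * capMono (fun i : Fin (N' + 1) => v ⟨i.val + 1, by omega⟩) (r ∘ φ) σ := by
  subst hN
  have h1 : ∀ x : Fin N', φ x = x.succ := fun x => Fin.ext (hφ x)
  have h2 : ext φ σ 0 = 0 := by
    apply ext_apply'
    rintro ⟨x, hx⟩
    rw [h1] at hx
    exact absurd hx (Fin.succ_ne_zero _)
  unfold capMono
  rw [List.ofFn_succ, List.prod_cons, h2]
  have h3 : (List.ofFn fun i : Fin N' => r (ext φ σ i.succ) * v i.succ.succ)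
      = List.ofFn fun i : Fin N' => (r ∘ φ) (σ i) * v ⟨i.succ.val + 1, by
        have := i.2; simp only [Fin.val_succ]; omega⟩ := by
    congr 1
    funext i
    have e1 : ext φ σ i.succ = φ (σ i) := by rw [← h1 i]; exact ext_apply φ σ i
    change r (ext φ σ i.succ) * _ = r (φ (σ i)) * _
    rw [e1]
    rfl
  rw [h3]
  have h4 : v (Fin.succ (0 : Fin (N' + 1))) = v ⟨((0 : Fin (N' + 1)) : ℕ) + 1, by omega⟩ := rfl
  rw [h4]
  simp only [mul_assoc]
  rfl

theorem fv_pl {q m : ℕ} (y : MonoidAlgebra Λ (Perm (Fin (q + m))))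
    (v : Fin (q + 1 + m + 1) → R) (r : Fin (q + 1 + m) → R) :
    fv (plL Λ (ph1 q m) y) v r = v 0 * r ⟨0, by omega⟩ *
      fv y (fun i : Fin (q + m + 1) => v ⟨i.val + 1, by omega⟩) (r ∘ ph1 q m) := by
  have hof : ∀ {N : ℕ} (σ : Perm (Fin N)) (v : Fin (N + 1) → R) (r : Fin N → R),
      fv (MonoidAlgebra.of Λ _ σ) v r = capMono v r σ := by
    intro N σ v r
    unfold fv
    rw [Finset.sum_eq_single σ]
    · simp only [MonoidAlgebra.of_apply, MonoidAlgebra.coeff_single, Finsupp.single_eq_same,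
        one_smul]
    · intro b _ hb
      simp only [MonoidAlgebra.of_apply, MonoidAlgebra.coeff_single]
      rw [Finsupp.single_eq_of_ne hb, zero_smul]
    · intro h; exact absurd (Finset.mem_univ _) h
  have hadd : ∀ {N : ℕ} (x y : MonoidAlgebra Λ (Perm (Fin N))) (v : Fin (N + 1) → R)
      (r : Fin N → R), fv (x + y) v r = fv x v r + fv y v r := by
    intro N x y v r
    unfold fv
    rw [← Finset.sum_add_distrib]
    refine Finset.sum_congr rfl (fun σ _ => ?_)
    rw [MonoidAlgebra.coeff_add, Finsupp.add_apply, add_smul]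
  have hsm : ∀ {N : ℕ} (c : Λ) (y : MonoidAlgebra Λ (Perm (Fin N))) (v : Fin (N + 1) → R)
      (r : Fin N → R), fv (c • y) v r = c • fv y v r := by
    intro N c y v r
    unfold fv
    rw [Finset.smul_sum]
    refine Finset.sum_congr rfl (fun σ _ => ?_)
    rw [MonoidAlgebra.coeff_smul, Finsupp.smul_apply, smul_smul, smul_eq_mul]
  induction y using MonoidAlgebra.induction_on with
  | of σ =>
    rw [plL_of, hof, hof]
    exact cap_succ (by omega) (ph1 q m) (ph1_val q m) σ v r (by omega)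
  | add x y hx hy => rw [map_add, hadd, hadd, hx, hy, mul_add]
  | smul c y hy => rw [plL_smul, hsm, hsm, hy, mul_smul_comm]

end values

end Pool.PI34.Super
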