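import Pool.Agent.LibPI34.S_Def

/-!
PI34, block S, file 9: coloured string systems give super string systems.
-/

set_option autoImplicit false

namespace Pool.PI34.SS

open Equiv Finset
open Pool.PI34.BA

/-- coloured string systems: `el` is the letter of the odd idempotent, `s` the (signed) flips of
the strands, `f` the plain flips -/
structure ColStr (n : ℕ) (Φ U : Type) [Ring Φ] [Ring U] where
  ρ : Fin (n + 1) → Φ →+* U
  el : Φ
  s : Perm (Fin (n + 1)) → U
  f : Perm (Fin (n + 1)) →* U
  comm : ∀ i j, i ≠ j → ∀ a b, ρ i a * ρ j b = ρ j b * ρ i a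
  idem : ∀ i, ρ i el * ρ i el = ρ i el
  conj : ∀ σ i a, s σ * ρ i a = ρ (σ i) a * s σ
  fs : ∀ i : Fin n, f (swap i.castSucc i.succ) = s (swap i.castSucc i.succ) *
    (1 - 2 * (ρ i.castSucc el * ρ i.succ el))

variable {n : ℕ} {Φ U : Type} [Ring Φ] [Ring U] (S : ColStr n Φ U)

namespace ColStr

/-- the odd idempotent on strand `i` -/
def e (i : Fin (n + 1)) : U := S.ρ i S.el

theorem e_idem (i : Fin (n + 1)) : S.e i * S.e i = S.e i := S.idem i

/-- even letters -/
def ev : AddSubgroup Φ where
  carrier := {a | ∀ i, S.ρ i a * S.e i = S.e i * S.ρ i a}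
  zero_mem' := fun i => by simp
  add_mem' := fun ha hb i => by rw [map_add, add_mul, mul_add, ha i, hb i]
  neg_mem' := fun ha i => by rw [map_neg, neg_mul, mul_neg, ha i]

/-- odd letters -/
def od : AddSubgroup Φ where
  carrier := {a | ∀ i, S.ρ i a * S.e i = (1 - S.e i) * S.ρ i a}
  zero_mem' := fun i => by simp
  add_mem' := fun ha hb i => by rw [map_add, add_mul, mul_add, ha i, hb i]
  neg_mem' := fun ha i => by rw [map_neg, neg_mul, mul_neg, ha i]

theorem mem_ev {a : Φ} (ha : a ∈ S.ev) (i : Fin (n + 1)) : S.ρ i a * S.e i = S.e i * S.ρ i a :=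
  ha i

theorem mem_od {a : Φ} (ha : a ∈ S.od) (i : Fin (n + 1)) :
    S.ρ i a * S.e i = (1 - S.e i) * S.ρ i a := ha i

theorem dec (a : Φ) : ∃ b ∈ S.ev, ∃ c ∈ S.od, a = b + c := by
  refine ⟨S.el * a * S.el + (1 - S.el) * a * (1 - S.el), fun i => ?_,
    S.el * a * (1 - S.el) + (1 - S.el) * a * S.el, fun i => ?_, by noncomm_ring⟩
  · have h := S.idem i
    simp only [e, map_add, map_mul, map_sub, map_one]
    generalize S.ρ i S.el = x at h ⊢
    generalize S.ρ i a = y
    have h1 : (x * y * x + (1 - x) * y * (1 - x)) * x = x * y * x := by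
      have : (x * y * x + (1 - x) * y * (1 - x)) * x
        = x * y * (x * x) + (1 - x) * y * (x - x * x) := by noncomm_ring
      rw [this, h, sub_self, mul_zero, add_zero]
    have h2 : x * (x * y * x + (1 - x) * y * (1 - x)) = x * y * x := by
      have : x * (x * y * x + (1 - x) * y * (1 - x))
        = (x * x) * y * x + (x - x * x) * y * (1 - x) := by noncomm_ring
      rw [this, h, sub_self, zero_mul, zero_mul, add_zero]
    rw [h1, h2]
  · have h := S.idem i
    simp only [e, map_add, map_mul, map_sub, map_one]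
    generalize S.ρ i S.el = x at h ⊢
    generalize S.ρ i a = y
    have h1 : (x * y * (1 - x) + (1 - x) * y * x) * x = (1 - x) * y * x := by
      have : (x * y * (1 - x) + (1 - x) * y * x) * x
        = x * y * (x - x * x) + (1 - x) * y * (x * x) := by noncomm_ring
      rw [this, h, sub_self, mul_zero, zero_add]
    have h2 : (1 - x) * (x * y * (1 - x) + (1 - x) * y * x) = (1 - x) * y * x := by
      have : (1 - x) * (x * y * (1 - x) + (1 - x) * y * x)
        = (x - x * x) * y * (1 - x) + (1 - x - (x - x * x)) * y * x := by noncomm_ring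
      rw [this, h, sub_self, zero_mul, zero_mul, zero_add, sub_zero]
    rw [h1, h2]

/-- `ζ_i = 1 - 2 E_i` -/
def zt (i : Fin (n + 1)) : U := 1 - 2 * S.e i

theorem ρ_zt (i j : Fin (n + 1)) (hij : i ≠ j) (a : Φ) :
    S.ρ i a * S.zt j = S.zt j * S.ρ i a := by
  unfold zt e
  have h := S.comm i j hij a S.el
  rw [mul_sub, sub_mul, mul_one, one_mul, mul_assoc, ← h, two_mul, two_mul, mul_add]

theorem ev_zt {a : Φ} (ha : a ∈ S.ev) (i j : Fin (n + 1)) :
    S.ρ i a * S.zt j = S.zt j * S.ρ i a := by
  by_cases hij : i = j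
  · subst hij
    unfold zt
    rw [mul_sub, sub_mul, mul_one, one_mul, mul_assoc, ← S.mem_ev ha i, two_mul, two_mul, mul_add]
  · exact S.ρ_zt i j hij a

theorem od_zt {a : Φ} (ha : a ∈ S.od) (i : Fin (n + 1)) :
    S.ρ i a * S.zt i = -(S.zt i * S.ρ i a) := by
  unfold zt
  have h := S.mem_od ha i
  have h1 : S.ρ i a * (1 - 2 * S.e i) = S.ρ i a - (S.ρ i a * S.e i + S.ρ i a * S.e i) := by
    noncomm_ring
  rw [h1, h]
  noncomm_ring

theorem zt_sq (i : Fin (n + 1)) : S.zt i * S.zt i = 1 := by
  unfold zt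
  have h := S.e_idem i
  have h1 : (1 - 2 * S.e i) * (1 - 2 * S.e i) = 1 - 4 * S.e i + 4 * (S.e i * S.e i) := by
    noncomm_ring
  rw [h1, h]
  noncomm_ring

theorem zt_comm (i j : Fin (n + 1)) : S.zt i * S.zt j = S.zt j * S.zt i := by
  by_cases hij : i = j
  · rw [hij]
  · have h := S.ρ_zt i j hij (1 - 2 * S.el)
    have h1 : S.ρ i (1 - 2 * S.el) = S.zt i := by
      unfold zt e
      rw [map_sub, map_one, map_mul, map_ofNat]
    rwa [h1] at h

/-- `ζ_0 ... ζ_{i-1}` -/
def zl : ℕ → U
  | 0 => 1
  | m + 1 => zl m * (if h : m < n + 1 then S.zt ⟨m, h⟩ else 1)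

theorem zl_succ (i : Fin n) : S.zl i.succ = S.zl i.castSucc * S.zt i.castSucc := by
  have h : (i : ℕ) < n + 1 := by omega
  change S.zl i * (if h : (i : ℕ) < n + 1 then S.zt ⟨i, h⟩ else 1) = _
  rw [dif_pos h]
  rfl

theorem zl_comm_of (x : U) (m : ℕ) (h : ∀ i : Fin (n + 1), (i : ℕ) < m → x * S.zt i = S.zt i * x) :
    x * S.zl m = S.zl m * x := by
  induction m with
  | zero => simp [zl]
  | succ m ih =>
    have h1 := ih (fun i hi => h i (by omega))
    simp only [zl]
    split_ifs with hm
    · rw [← mul_assoc, h1, mul_assoc, h ⟨m, hm⟩ (by simp), mul_assoc]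
    · rw [mul_one, h1]

theorem ev_zl {a : Φ} (ha : a ∈ S.ev) (i : Fin (n + 1)) (m : ℕ) :
    S.ρ i a * S.zl m = S.zl m * S.ρ i a :=
  S.zl_comm_of _ m (fun j _ => S.ev_zt ha i j)

theorem ρ_zl (a : Φ) (i : Fin (n + 1)) (m : ℕ) (hm : m ≤ i) :
    S.ρ i a * S.zl m = S.zl m * S.ρ i a :=
  S.zl_comm_of _ m (fun j hj => S.ρ_zt i j (fun h => by subst h; omega) a)

theorem od_zl {a : Φ} (ha : a ∈ S.od) (i : Fin (n + 1)) (m : ℕ) (hm : (i : ℕ) < m) :
    S.ρ i a * S.zl m = -(S.zl m * S.ρ i a) := by
  induction m with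
  | zero => omega
  | succ m ih =>
    simp only [zl]
    rcases Nat.lt_or_ge (i : ℕ) m with h | h
    · rw [← mul_assoc, ih h]
      split_ifs with h2
      · rw [neg_mul, mul_assoc, S.ρ_zt i ⟨m, h2⟩ (fun e => by rw [e] at h; simp at h), mul_assoc]
      · rw [mul_one, mul_one]
    · have h3 : (i : ℕ) = m := by omega
      have h2 : m < n + 1 := by omega
      rw [dif_pos h2]
      have h4 : (⟨m, h2⟩ : Fin (n + 1)) = i := Fin.ext h3.symm
      rw [h4, ← mul_assoc, S.ρ_zl a i m h3.ge, mul_assoc, S.od_zt ha i, mul_neg, mul_assoc]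

/-- the twisted letters -/
def τ (i : Fin (n + 1)) (a : Φ) : U := S.zl i * S.ρ i a

theorem zl_zl (i j : ℕ) : S.zl i * S.zl j = S.zl j * S.zl i :=
  S.zl_comm_of _ j (fun l _ => ((S.zl_comm_of (S.zt l) i (fun l' _ => S.zt_comm l l')).symm))

theorem od_od_lt {a b : Φ} (ha : a ∈ S.od) (hb : b ∈ S.od) (i j : Fin (n + 1)) (hij : i < j) :
    S.τ i a * S.τ j b = -(S.τ j b * S.τ i a) := by
  unfold τ
  have h1 : S.ρ i a * S.zl j = -(S.zl j * S.ρ i a) := S.od_zl ha i j hij
  have h2 : S.ρ j b * S.zl i = S.zl i * S.ρ j b := S.ρ_zl b j i (le_of_lt hij)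
  have h3 := S.comm i j hij.ne a b
  calc S.zl i * S.ρ i a * (S.zl j * S.ρ j b)
      = S.zl i * (S.ρ i a * S.zl j) * S.ρ j b := by noncomm_ring
    _ = -((S.zl i * S.zl j) * (S.ρ i a * S.ρ j b)) := by rw [h1]; noncomm_ring
    _ = -((S.zl j * S.zl i) * (S.ρ j b * S.ρ i a)) := by rw [h3, S.zl_zl i j]
    _ = -(S.zl j * (S.zl i * S.ρ j b) * S.ρ i a) := by noncomm_ring
    _ = -(S.zl j * S.ρ j b * (S.zl i * S.ρ i a)) := by rw [← h2]; noncomm_ring

/-! ### conjugation by the flips -/

theorem s_zt (σ : Perm (Fin (n + 1))) (i : Fin (n + 1)) :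
    S.s σ * S.zt i = S.zt (σ i) * S.s σ := by
  have h1 : ∀ i, S.ρ i (1 - 2 * S.el) = S.zt i := fun i => by
    unfold zt e
    rw [map_sub, map_one, map_mul, map_ofNat]
  rw [← h1, ← h1, S.conj]

theorem s_zl (i : Fin n) (m : ℕ) (hm : m ≤ i) :
    S.s (swap i.castSucc i.succ) * S.zl m = S.zl m * S.s (swap i.castSucc i.succ) :=
  S.zl_comm_of _ m (fun j hj => by
    rw [S.s_zt, swap_apply_of_ne_of_ne]
    · intro h; rw [h] at hj; simp at hj; omega
    · intro h; rw [h] at hj; simp at hj; omega)

/-- `1 - 2 E_i E_{i+1}` -/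
def ee (i : Fin n) : U := 1 - 2 * (S.e i.castSucc * S.e i.succ)

theorem f_swap (i : Fin n) : S.f (swap i.castSucc i.succ) = S.s (swap i.castSucc i.succ) * S.ee i :=
  S.fs i

theorem ee_comm (x : U) (i : Fin n) (h1 : x * S.e i.castSucc = S.e i.castSucc * x)
    (h2 : x * S.e i.succ = S.e i.succ * x) : S.ee i * x = x * S.ee i := by
  unfold ee
  have : S.e i.castSucc * S.e i.succ * x = x * (S.e i.castSucc * S.e i.succ) := by
    rw [mul_assoc, ← h2, ← mul_assoc, ← h1, mul_assoc]
  have h3 : (1 - 2 * (S.e i.castSucc * S.e i.succ)) * x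
      = x - 2 * (S.e i.castSucc * S.e i.succ * x) := by noncomm_ring
  rw [h3, this]; noncomm_ring

theorem ρ_e (i j : Fin (n + 1)) (hij : i ≠ j) (a : Φ) : S.ρ i a * S.e j = S.e j * S.ρ i a :=
  S.comm i j hij a S.el

theorem e_comm (i j : Fin (n + 1)) : S.e i * S.e j = S.e j * S.e i := by
  by_cases h : i = j
  · rw [h]
  · exact S.comm i j h S.el S.el

theorem zt_e (i j : Fin (n + 1)) : S.zt i * S.e j = S.e j * S.zt i := by
  unfold zt
  have h := S.e_comm i j
  have h1 : (1 - 2 * S.e i) * S.e j = S.e j - 2 * (S.e i * S.e j) := by noncomm_ring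
  rw [h1, h]; noncomm_ring

theorem ee_zt (i : Fin n) (j : Fin (n + 1)) : S.ee i * S.zt j = S.zt j * S.ee i :=
  S.ee_comm _ i (S.zt_e j _) (S.zt_e j _)

theorem ee_zl (i : Fin n) (m : ℕ) : S.ee i * S.zl m = S.zl m * S.ee i :=
  S.zl_comm_of _ m (fun j _ => S.ee_zt i j)

theorem ee_od_left {a : Φ} (ha : a ∈ S.od) (i : Fin n) :
    S.ee i * S.ρ i.castSucc a = S.ρ i.castSucc a * (S.zt i.succ * S.ee i) := by
  have h1 : S.e i.castSucc * S.ρ i.castSucc a
      = S.ρ i.castSucc a - S.ρ i.castSucc a * S.e i.castSucc := by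
    rw [S.mem_od ha]; noncomm_ring
  have h2 : S.ρ i.castSucc a * S.e i.succ = S.e i.succ * S.ρ i.castSucc a :=
    S.ρ_e _ _ (Fin.castSucc_lt_succ).ne a
  have h3 := S.e_comm i.castSucc i.succ
  have h4 := S.e_idem i.succ
  unfold ee zt
  have h5 : (1 - 2 * (S.e i.castSucc * S.e i.succ)) * S.ρ i.castSucc a
      = S.ρ i.castSucc a - 2 * (S.e i.castSucc * (S.e i.succ * S.ρ i.castSucc a)) := by
    noncomm_ring
  have h6 : S.e i.castSucc * (S.e i.succ * S.ρ i.castSucc a)
      = S.ρ i.castSucc a * (S.e i.succ - S.e i.castSucc * S.e i.succ) := by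
    rw [← h2, ← mul_assoc, h1]; noncomm_ring
  have h7 : (1 - 2 * S.e i.succ) * (1 - 2 * (S.e i.castSucc * S.e i.succ))
      = 1 - 2 * S.e i.succ - 2 * (S.e i.castSucc * S.e i.succ)
        + 4 * (S.e i.castSucc * (S.e i.succ * S.e i.succ)) := by
    have : S.e i.succ * (S.e i.castSucc * S.e i.succ)
        = S.e i.castSucc * (S.e i.succ * S.e i.succ) := by
      rw [← mul_assoc, ← h3, mul_assoc]
    have h8 : (1 - 2 * S.e i.succ) * (1 - 2 * (S.e i.castSucc * S.e i.succ))
      = 1 - 2 * S.e i.succ - 2 * (S.e i.castSucc * S.e i.succ)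
        + 4 * (S.e i.succ * (S.e i.castSucc * S.e i.succ)) := by noncomm_ring
    rw [h8, this]
  rw [h5, h6, h7, h4]
  noncomm_ring

theorem ee_od_right {a : Φ} (ha : a ∈ S.od) (i : Fin n) :
    S.ee i * S.ρ i.succ a = S.ρ i.succ a * (S.zt i.castSucc * S.ee i) := by
  have h1 : S.e i.succ * S.ρ i.succ a = S.ρ i.succ a - S.ρ i.succ a * S.e i.succ := by
    rw [S.mem_od ha]; noncomm_ring
  have h2 : S.ρ i.succ a * S.e i.castSucc = S.e i.castSucc * S.ρ i.succ a :=
    S.ρ_e _ _ (Fin.castSucc_lt_succ).ne' a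
  have h3 := S.e_comm i.castSucc i.succ
  have h4 := S.e_idem i.castSucc
  unfold ee zt
  have h5 : (1 - 2 * (S.e i.castSucc * S.e i.succ)) * S.ρ i.succ a
      = S.ρ i.succ a - 2 * (S.e i.castSucc * (S.e i.succ * S.ρ i.succ a)) := by
    noncomm_ring
  have h6 : S.e i.castSucc * (S.e i.succ * S.ρ i.succ a)
      = S.ρ i.succ a * (S.e i.castSucc - S.e i.castSucc * S.e i.succ) := by
    rw [h1, mul_sub, ← mul_assoc, ← h2]; noncomm_ring
  have h7 : (1 - 2 * S.e i.castSucc) * (1 - 2 * (S.e i.castSucc * S.e i.succ))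
      = 1 - 2 * S.e i.castSucc - 2 * (S.e i.castSucc * S.e i.succ)
        + 4 * ((S.e i.castSucc * S.e i.castSucc) * S.e i.succ) := by noncomm_ring
  rw [h5, h6, h7, h4]
  noncomm_ring

/-- the commutation property of one permutation -/
def Good (σ : Perm (Fin (n + 1))) : Prop :=
  (∀ i, ∀ a ∈ S.ev, S.f σ * S.ρ i a = S.ρ (σ i) a * S.f σ) ∧
  (∀ i, ∀ a ∈ S.od, S.f σ * S.τ i a = S.τ (σ i) a * S.f σ)

theorem good_one : S.Good 1 :=
  ⟨fun i a _ => by simp, fun i a _ => by simp⟩

theorem good_mul {σ σ' : Perm (Fin (n + 1))} (h : S.Good σ) (h' : S.Good σ') :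
    S.Good (σ * σ') :=
  ⟨fun i a ha => by
    rw [map_mul, mul_assoc, h'.1 i a ha, ← mul_assoc, h.1 _ a ha, mul_assoc]; rfl,
   fun i a ha => by
    rw [map_mul, mul_assoc, h'.2 i a ha, ← mul_assoc, h.2 _ a ha, mul_assoc]; rfl⟩

theorem good_swap (i : Fin n) : S.Good (swap i.castSucc i.succ) := by
  refine ⟨fun j a ha => ?_, fun j a ha => ?_⟩
  · rw [S.f_swap, mul_assoc, S.ee_comm (S.ρ j a) i ?_ ?_, ← mul_assoc, S.conj, mul_assoc]
    · by_cases h : j = i.castSucc
      · rw [h]; exact S.mem_ev ha _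
      · exact S.ρ_e _ _ h a
    · by_cases h : j = i.succ
      · rw [h]; exact S.mem_ev ha _
      · exact S.ρ_e _ _ h a
  · have hlt : i.castSucc < i.succ := Fin.castSucc_lt_succ
    by_cases h1 : j = i.castSucc
    · subst h1
      rw [swap_apply_left]
      unfold τ
      rw [S.f_swap, S.zl_succ]
      calc S.s (swap i.castSucc i.succ) * S.ee i * (S.zl i.castSucc * S.ρ i.castSucc a)
          = S.s (swap i.castSucc i.succ) * (S.ee i * S.zl i.castSucc) * S.ρ i.castSucc a := by
            noncomm_ring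
        _ = (S.s (swap i.castSucc i.succ) * S.zl i.castSucc) * (S.ee i * S.ρ i.castSucc a) := by
            rw [S.ee_zl]; noncomm_ring
        _ = S.zl i.castSucc * (S.s (swap i.castSucc i.succ) * S.ρ i.castSucc a) *
              (S.zt i.succ * S.ee i) := by
            rw [S.s_zl i _ (by simp), S.ee_od_left ha]; noncomm_ring
        _ = S.zl i.castSucc * S.ρ i.succ a * (S.s (swap i.castSucc i.succ) * S.zt i.succ) *
              S.ee i := by
            rw [S.conj, swap_apply_left]; noncomm_ring
        _ = S.zl i.castSucc * (S.ρ i.succ a * S.zt i.castSucc) *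
              (S.s (swap i.castSucc i.succ) * S.ee i) := by
            rw [S.s_zt, swap_apply_right]; noncomm_ring
        _ = S.zl i.castSucc * S.zt i.castSucc * S.ρ i.succ a *
              (S.s (swap i.castSucc i.succ) * S.ee i) := by
            rw [S.ρ_zt _ _ hlt.ne' a]; noncomm_ring
    · by_cases h2 : j = i.succ
      · subst h2
        rw [swap_apply_right]
        unfold τ
        rw [S.f_swap, S.zl_succ]
        calc S.s (swap i.castSucc i.succ) * S.ee i * (S.zl i.castSucc * S.zt i.castSucc *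
              S.ρ i.succ a)
            = S.s (swap i.castSucc i.succ) * (S.ee i * S.zl i.castSucc) * S.zt i.castSucc *
              S.ρ i.succ a := by noncomm_ring
          _ = (S.s (swap i.castSucc i.succ) * S.zl i.castSucc) * (S.ee i * S.zt i.castSucc) *
              S.ρ i.succ a := by rw [S.ee_zl]; noncomm_ring
          _ = (S.zl i.castSucc * S.s (swap i.castSucc i.succ)) * S.zt i.castSucc *
              (S.ee i * S.ρ i.succ a) := by
              rw [S.s_zl i _ (by simp), S.ee_zt]; noncomm_ring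
          _ = S.zl i.castSucc * S.s (swap i.castSucc i.succ) *
              (S.zt i.castSucc * S.ρ i.succ a) * (S.zt i.castSucc * S.ee i) := by
              rw [S.ee_od_right ha]; noncomm_ring
          _ = S.zl i.castSucc * (S.s (swap i.castSucc i.succ) * S.ρ i.succ a) *
              (S.zt i.castSucc * S.zt i.castSucc) * S.ee i := by
              rw [← S.ρ_zt i.succ i.castSucc hlt.ne' a]; noncomm_ring
          _ = S.zl i.castSucc * S.ρ i.castSucc a *
              (S.s (swap i.castSucc i.succ) * S.ee i) := by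
              rw [S.conj, swap_apply_right, S.zt_sq]; noncomm_ring
      · have h3 : swap i.castSucc i.succ j = j := swap_apply_of_ne_of_ne h1 h2
        have h4 : S.ee i * S.ρ j a = S.ρ j a * S.ee i :=
          S.ee_comm _ i (S.ρ_e _ _ h1 a) (S.ρ_e _ _ h2 a)
        have h5 : S.s (swap i.castSucc i.succ) * S.zl j
            = S.zl j * S.s (swap i.castSucc i.succ) := by
          rcases Nat.lt_or_ge (i : ℕ) j with h | h
          · -- `j > i + 1`
            have h6 : (i : ℕ) + 1 < j := by
              rcases Nat.lt_or_ge ((i : ℕ) + 1) j with h' | h'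
              · exact h'
              · exact absurd (Fin.ext (by simp; omega)) h2
            clear h4 h3 h1 h2
            have key : ∀ m : ℕ, (i : ℕ) + 1 < m → m ≤ n + 1 →
                S.s (swap i.castSucc i.succ) * S.zl m = S.zl m * S.s (swap i.castSucc i.succ) := by
              intro m hm hmn
              induction m with
              | zero => omega
              | succ m ih =>
                have hm2 : m < n + 1 := by omega
                rcases Nat.lt_or_ge ((i : ℕ) + 1) m with h' | h'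
                · simp only [zl]
                  rw [dif_pos hm2, ← mul_assoc, ih h' (by omega), mul_assoc, S.s_zt,
                    swap_apply_of_ne_of_ne, mul_assoc]
                  · intro e; rw [Fin.ext_iff] at e; simp at e; omega
                  · intro e; rw [Fin.ext_iff] at e; simp at e; omega
                · have hm3 : m = (i : ℕ) + 1 := by omega
                  subst hm3
                  simp only [zl]
                  rw [dif_pos hm2, dif_pos (by omega : (i : ℕ) < n + 1)]
                  have e1 : (⟨(i : ℕ), by omega⟩ : Fin (n + 1)) = i.castSucc := rfl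
                  have e2 : (⟨(i : ℕ) + 1, hm2⟩ : Fin (n + 1)) = i.succ := rfl
                  rw [e1, e2]
                  calc S.s (swap i.castSucc i.succ) * (S.zl i * S.zt i.castSucc * S.zt i.succ)
                      = (S.s (swap i.castSucc i.succ) * S.zl i) * S.zt i.castSucc *
                        S.zt i.succ := by noncomm_ring
                    _ = S.zl i * (S.s (swap i.castSucc i.succ) * S.zt i.castSucc) *
                        S.zt i.succ := by rw [S.s_zl i i le_rfl]; noncomm_ring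
                    _ = S.zl i * S.zt i.succ * (S.s (swap i.castSucc i.succ) * S.zt i.succ) := by
                        rw [S.s_zt, swap_apply_left]; noncomm_ring
                    _ = S.zl i * (S.zt i.succ * S.zt i.castSucc) *
                        S.s (swap i.castSucc i.succ) := by
                        rw [S.s_zt, swap_apply_right]; noncomm_ring
                    _ = S.zl i * S.zt i.castSucc * S.zt i.succ *
                        S.s (swap i.castSucc i.succ) := by
                        rw [S.zt_comm i.succ i.castSucc]; noncomm_ring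
            exact key j h6 (by omega)
          · exact S.s_zl i j h
        rw [h3]
        unfold τ
        rw [S.f_swap]
        calc S.s (swap i.castSucc i.succ) * S.ee i * (S.zl j * S.ρ j a)
            = S.s (swap i.castSucc i.succ) * (S.ee i * S.zl j) * S.ρ j a := by noncomm_ring
          _ = (S.s (swap i.castSucc i.succ) * S.zl j) * (S.ee i * S.ρ j a) := by
              rw [S.ee_zl]; noncomm_ring
          _ = S.zl j * (S.s (swap i.castSucc i.succ) * S.ρ j a) * S.ee i := by
              rw [h5, h4]; noncomm_ring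
          _ = S.zl j * S.ρ j a * (S.s (swap i.castSucc i.succ) * S.ee i) := by
              rw [S.conj, h3]; noncomm_ring

theorem good (σ : Perm (Fin (n + 1))) : S.Good σ := by
  have h : σ ∈ Submonoid.closure (Set.range fun i : Fin n => swap i.castSucc i.succ) := by
    rw [Equiv.Perm.mclosure_swap_castSucc_succ]; trivial
  induction h using Submonoid.closure_induction with
  | mem x hx => obtain ⟨i, rfl⟩ := hx; exact S.good_swap i
  | one => exact S.good_one
  | mul x y _ _ h1 h2 => exact S.good_mul h1 h2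

/-- coloured string systems are super string systems -/
def toSup : SupStr (Fin (n + 1)) Φ U 0 where
  ρ := S.ρ
  τ := S.τ
  f := S.f
  ev := S.ev
  od := S.od
  dec := S.dec
  ev_ev i j hij a _ b _ := S.comm i j hij a b
  ev_od i j hij a ha b _ := by
    unfold τ
    rw [← mul_assoc, S.ev_zl ha i j, mul_assoc, S.comm i j hij a b, mul_assoc]
  od_od i j hij a ha b hb := by
    rcases lt_or_gt_of_ne hij with h | h
    · exact S.od_od_lt ha hb i j h
    · rw [S.od_od_lt hb ha j i h, neg_neg]
  f_ev σ i a ha := (S.good σ).1 i a ha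
  f_od σ i a ha := (S.good σ).2 i a ha
  τ_z a _ := by
    unfold τ
    change (1 : U) * _ = _
    rw [one_mul]

end ColStr

end Pool.PI34.SS
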