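import Pool.Agent.LibPI34.S_Comm

/-!
PI34, block S, file 2: in matrices over a supercommutative ring a product with more than `m * m`
occurrences of an odd matrix vanishes.
-/

set_option autoImplicit false

namespace Pool.PI34.SS

open Finset

/-- `u₁ y u₂ y ... u_n y` -/
def sand {A : Type*} [Ring A] (y : A) : List A → A
  | [] => 1
  | u :: L => u * y * sand y L

theorem sum_pow_zero {S κ : Type*} [Semiring S] (a : κ → S) (s : Finset κ)
    (hc : ∀ i j, a i * a j = a j * a i) (hs : ∀ i, a i * a i = 0) :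
    (∑ i ∈ s, a i) ^ (s.card + 1) = 0 := by
  classical
  induction s using Finset.induction_on with
  | empty => simp
  | insert x s hx ih =>
    rw [Finset.sum_insert hx, Finset.card_insert_of_notMem hx]
    have hcom : Commute (a x) (∑ i ∈ s, a i) := Commute.sum_right _ _ _ (fun i _ => hc x i)
    rw [hcom.add_pow]
    refine Finset.sum_eq_zero (fun k hk => ?_)
    rw [Finset.mem_range] at hk
    by_cases h2 : 2 ≤ k
    · obtain ⟨j, rfl⟩ := Nat.exists_eq_add_of_le h2
      rw [pow_add, pow_two, hs, zero_mul, zero_mul, zero_mul]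
    · have : s.card + 1 ≤ s.card + 1 + 1 - k := by omega
      obtain ⟨j, hj⟩ := Nat.exists_eq_add_of_le this
      rw [hj, pow_add, ih, zero_mul, mul_zero, zero_mul]

variable {G : Type*} [Ring G]

theorem le_sum_sub {κ : Type*} (a : κ → Submodule ℤ G) (s : Finset κ) (i : κ) (hi : i ∈ s) :
    a i ≤ ∑ j ∈ s, a j := by
  classical
  rw [← Finset.add_sum_erase _ _ hi, Submodule.add_eq_sup]
  exact le_sup_left

theorem odd_move (h : SuperComm G) {y : G} (hy : y ∈ h.od) (g : G) : ∃ g', y * g = g' * y := by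
  obtain ⟨a, ha, b, hb, rfl⟩ := h.dec g
  refine ⟨a - b, ?_⟩
  rw [mul_add, sub_mul, ← h.comm a ha y, h.anti y hy b hb, sub_eq_add_neg]

theorem odd_sandwich (h : SuperComm G) {y : G} (hy : y ∈ h.od) (g : G) : y * g * y = 0 := by
  obtain ⟨g', hg⟩ := odd_move h hy g
  rw [hg, mul_assoc, h.sq y hy, mul_zero]

/-- the left ideal generated by `y`, as an additive group -/
def lid (y : G) : Submodule ℤ G := Submodule.span ℤ {x | ∃ g, x = g * y}

theorem mem_lid (g y : G) : g * y ∈ lid y := Submodule.subset_span ⟨g, rfl⟩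

theorem lid_sq (h : SuperComm G) {y : G} (hy : y ∈ h.od) : lid y * lid y = 0 := by
  unfold lid
  rw [Submodule.span_mul_span, Submodule.zero_eq_bot, Submodule.span_eq_bot]
  rintro x ⟨_, ⟨g, rfl⟩, _, ⟨g', rfl⟩, rfl⟩
  simp only
  rw [mul_assoc, ← mul_assoc y, odd_sandwich h hy, mul_zero]

theorem lid_comm_le (h : SuperComm G) {y z : G} (hy : y ∈ h.od) (hz : z ∈ h.od) :
    lid y * lid z ≤ lid z * lid y := by
  unfold lid
  rw [Submodule.span_mul_span, Submodule.span_mul_span]
  refine Submodule.span_mono ?_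
  rintro x ⟨_, ⟨g, rfl⟩, _, ⟨g', rfl⟩, rfl⟩
  obtain ⟨g'', hg⟩ := odd_move h hy g'
  refine ⟨-(g * g'') * z, ⟨_, rfl⟩, 1 * y, ⟨_, rfl⟩, ?_⟩
  simp only
  calc -(g * g'') * z * (1 * y) = (g * g'') * (-(z * y)) := by noncomm_ring
    _ = (g * g'') * (y * z) := by rw [h.anti y hy z hz]
    _ = g * (g'' * y) * z := by noncomm_ring
    _ = g * y * (g' * z) := by rw [← hg]; noncomm_ring

theorem lid_pow (h : SuperComm G) {κ : Type*} [Fintype κ] (y : κ → G) (hy : ∀ c, y c ∈ h.od) :
    (∑ c, lid (y c)) ^ (Fintype.card κ + 1) = 0 :=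
  sum_pow_zero _ _ (fun i j => le_antisymm (lid_comm_le h (hy i) (hy j))
    (lid_comm_le h (hy j) (hy i))) (fun i => lid_sq h (hy i))

theorem sand_mem {m : ℕ} (Y : Matrix (Fin m) (Fin m) G) (J : Submodule ℤ G)
    (hJ : ∀ l k, lid (Y l k) ≤ J) (L : List (Matrix (Fin m) (Fin m) G)) :
    ∀ i j, sand Y L i j ∈ J ^ L.length ∨ L.length = 0 := by
  induction L with
  | nil => intro i j; right; rfl
  | cons u L ih =>
    intro i j
    left
    have h2 : ∀ i k, (u * Y) i k ∈ J := by
      intro i k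
      rw [Matrix.mul_apply]
      exact Submodule.sum_mem _ (fun l _ => hJ l k (mem_lid _ _))
    rcases Nat.eq_zero_or_pos L.length with h0 | h0
    · rw [List.length_eq_zero_iff] at h0
      subst h0
      simpa [sand] using h2 i j
    · simp only [sand, List.length_cons]
      rw [Matrix.mul_apply, pow_succ']
      refine Submodule.sum_mem _ (fun k _ => ?_)
      refine Submodule.mul_mem_mul (h2 i k) ?_
      rcases ih k j with h3 | h3
      · exact h3
      · omega

/-- The pigeonhole lemma. -/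
theorem sand_eq_zero (h : SuperComm G) {m : ℕ} (Y : Matrix (Fin m) (Fin m) G)
    (hY : ∀ i j, Y i j ∈ h.od) (L : List (Matrix (Fin m) (Fin m) G)) (hL : m * m < L.length) :
    sand Y L = 0 := by
  obtain ⟨J, hJ⟩ : ∃ J : Submodule ℤ G, J = ∑ c : Fin m × Fin m, lid (Y c.1 c.2) := ⟨_, rfl⟩
  have h0 : ∀ l k, lid (Y l k) ≤ J := fun l k => by
    rw [hJ]
    exact le_sum_sub (fun c : Fin m × Fin m => lid (Y c.1 c.2)) Finset.univ (l, k)
      (Finset.mem_univ _)
  have h2 : J ^ (m * m + 1) = 0 := by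
    have := lid_pow h (fun c : Fin m × Fin m => Y c.1 c.2) (fun c => hY c.1 c.2)
    rw [Fintype.card_prod, Fintype.card_fin] at this
    rw [hJ]; exact this
  clear hJ
  ext i j
  have h3 := (sand_mem Y J h0 L i j).resolve_right (by omega)
  obtain ⟨n, hn⟩ := Nat.exists_eq_add_of_le (show m * m + 1 ≤ L.length from hL)
  rw [hn, pow_add, h2, zero_mul] at h3
  exact (Submodule.mem_bot ℤ).1 h3

end Pool.PI34.SS
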