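import Pool.Agent.LibPI34.S_Gam
import Pool.Agent.LibPI34.S_Nil

/-!
PI34, block S, file 8: THEOREM S.
-/

set_option autoImplicit false

namespace Pool.PI34.SS

open Equiv Finset
open Pool.PI34.BA

theorem map_sand {A B : Type*} [Ring A] [Ring B] (f : A →+* B) (y : A) (L : List A) :
    f (sand y L) = sand (f y) (L.map f) := by
  induction L with
  | nil => simp [sand]
  | cons u L ih => simp only [sand, List.map_cons, map_mul, ih]

theorem sand_append {A : Type*} [Ring A] (y : A) (L L' : List A) :
    sand y (L ++ L') = sand y L * sand y L' := by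
  induction L with
  | nil => simp [sand]
  | cons u L ih => simp only [sand, List.cons_append, ih, mul_assoc]

theorem fac_cancel {Y : Type} [DecidableEq Y] {U : Type*} [AddCommGroup U] (n : ℕ)
    (hn : ∀ x : U, n.factorial • x = 0 → x = 0) (M : Multiset Y) (hM : ∀ y, M.count y ≤ n)
    (x : U) (hx : fac M • x = 0) : x = 0 := by
  have h1 : ∀ T : Finset Y, (∏ y ∈ T, (M.count y).factorial) • x = 0 → x = 0 := by
    intro T
    induction T using Finset.induction_on with
    | empty => intro h; simpa using h
    | insert y T hy ih =>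
      intro h
      rw [Finset.prod_insert hy, mul_smul] at h
      apply ih
      obtain ⟨d, hd⟩ := Nat.factorial_dvd_factorial (hM y)
      apply hn
      rw [hd, mul_comm, mul_smul, h, smul_zero]
  exact h1 _ hx

section

variable {ι Φ U : Type} [Fintype ι] [DecidableEq ι] [Ring Φ] [Ring U] {z : ι}
variable (S : SupStr ι Φ U z)

/-- `ω = A_P A_Q` for the plain flips -/
def SupStr.om {k : ℕ} (p q : Fin k ↪ ι) : U := anti S.f (univ.map p) * anti S.f (univ.map q)

theorem anti_comm (T : Finset ι) (hz : z ∉ T) (a : Φ) :
    S.ρ z a * anti S.f T = anti S.f T * S.ρ z a := by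
  have h1 : ∀ σ ∈ permsOn T, S.f σ * S.ρ z a = S.ρ z a * S.f σ := by
    intro σ hσ
    have hσz : σ z = z := (Finset.mem_filter.1 hσ).2 z hz
    obtain ⟨b, hb, c, hc, rfl⟩ := S.dec a
    rw [map_add, mul_add, add_mul, S.f_ev σ z b hb, hσz, ← S.τ_z c hc, S.f_od σ z c hc, hσz]
  unfold anti
  rw [Finset.mul_sum, Finset.sum_mul]
  refine Finset.sum_congr rfl (fun σ hσ => ?_)
  rw [mul_smul_comm, smul_mul_assoc, h1 σ hσ]

theorem om_comm {k : ℕ} (p q : Fin k ↪ ι) (hF : Frame p q z) (a : Φ) :
    S.ρ z a * S.om p q = S.om p q * S.ρ z a := by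
  have h1 : z ∉ univ.map p := by
    intro h
    obtain ⟨i, _, hi⟩ := Finset.mem_map.1 h
    exact hF.pz i hi
  have h2 : z ∉ univ.map q := by
    intro h
    obtain ⟨i, _, hi⟩ := Finset.mem_map.1 h
    exact hF.qz i hi
  unfold SupStr.om
  rw [← mul_assoc, anti_comm S _ h1, mul_assoc, anti_comm S _ h2, mul_assoc]

/-! ### words with many occurrences of an odd letter -/

theorem GI_sand (k n : ℕ) (hn : k * k < n) :
    GI k (fun y : Option (Fin n) => y ≠ none)
      (sand (FA.of none) ((List.finRange n).map (fun i => FA.of (some i)))) := by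
  refine ⟨1, one_ne_zero, fun G _ h X hX => ?_⟩
  rw [one_smul, map_sand]
  refine sand_eq_zero h _ (fun i j => ?_) _ (by simpa using hn)
  rw [FA.lift_of]
  exact hX none (by simp) i j

theorem GI_mono {k : ℕ} {Y : Type} {E E' : Y → Prop} {P : FA Y} (h : ∀ y, E' y → E y)
    (hP : GI k E P) : GI k E' P := by
  obtain ⟨N, hN, h1⟩ := hP
  exact ⟨N, hN, fun G _ hG X hX => h1 G hG X (fun y hy => hX y (fun h2 => hy (h y h2)))⟩

open Classical in
theorem HD_hom (k : ℕ) (hA : Anti S.f k) (p q : Fin k ↪ ι) (hF : Frame p q z) (n : ℕ)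
    (hn : k * k < n) (hinv : ∀ x : U, n.factorial • x = 0 → x = 0)
    (y : Φ) (hy : y ∈ S.od) (w : Fin n → Φ) (hw : ∀ i, w i ∈ S.ev ∨ w i ∈ S.od) :
    S.ρ z (sand y ((List.finRange n).map w)) * S.om p q = 0 := by
  let E : Option (Fin n) → Prop := fun o => match o with
    | none => False
    | some i => w i ∈ S.ev
  let u : Option (Fin n) → Φ := fun o => match o with
    | none => 0
    | some i => if w i ∈ S.ev then w i else 0
  let v : Option (Fin n) → Φ := fun o => match o with
    | none => y
    | some i => if w i ∈ S.ev then 0 else w i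
  let m : Fin n → Multiset (Option (Fin n)) := fun i => if w i ∈ S.ev then 0 else {some i}
  have hu : ∀ o, u o ∈ S.ev := by
    rintro (_ | i)
    · exact zero_mem _
    · change (if w i ∈ S.ev then w i else 0) ∈ S.ev
      split_ifs with h
      · exact h
      · exact zero_mem _
  have hv : ∀ o, v o ∈ S.od := by
    rintro (_ | i)
    · exact hy
    · change (if w i ∈ S.ev then 0 else w i) ∈ S.od
      split_ifs with h
      · exact zero_mem _
      · exact (hw i).resolve_left h
  have hE : ∀ o, ¬ E o → u o = 0 := by
    rintro (_ | i) h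
    · rfl
    · exact if_neg h
  have h0 : ∀ L : List (Fin n), Gam (fun o => S.ρ z (u o)) (fun o => S.ρ z (v o))
      (sand (FA.of none) (L.map (fun i => FA.of (some i))))
      = AddMonoidAlgebra.single ((L.map (fun i => m i + {none})).sum)
        (S.ρ z (sand y (L.map w))) := by
    intro L
    induction L with
    | nil =>
      simp only [sand, List.map_nil, map_one, List.sum_nil]
      rfl
    | cons i L ih =>
      simp only [sand, List.map_cons, List.sum_cons]
      rw [RingHom.map_mul, RingHom.map_mul, ih]
      have h1 : Gam (fun o => S.ρ z (u o)) (fun o => S.ρ z (v o)) (FA.of none)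
          = AddMonoidAlgebra.single {none} (S.ρ z y) := by
        unfold Gam
        rw [FA.lift_of]
        change AddMonoidAlgebra.single (0 : Multiset (Option (Fin n))) (S.ρ z 0) +
          AddMonoidAlgebra.single ({none} : Multiset (Option (Fin n))) (S.ρ z y) = _
        rw [map_zero, AddMonoidAlgebra.single_zero, zero_add]
      have h2 : Gam (fun o => S.ρ z (u o)) (fun o => S.ρ z (v o)) (FA.of (some i))
          = AddMonoidAlgebra.single (m i) (S.ρ z (w i)) := by
        unfold Gam
        rw [FA.lift_of]
        change AddMonoidAlgebra.single 0 (S.ρ z (if w i ∈ S.ev then w i else 0)) +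
          AddMonoidAlgebra.single {some i} (S.ρ z (if w i ∈ S.ev then 0 else w i)) =
          AddMonoidAlgebra.single (if w i ∈ S.ev then 0 else {some i}) (S.ρ z (w i))
        split_ifs with h
        · rw [map_zero, AddMonoidAlgebra.single_zero, add_zero]
        · rw [map_zero, AddMonoidAlgebra.single_zero, zero_add]
      rw [h1, h2, AddMonoidAlgebra.single_mul_single, AddMonoidAlgebra.single_mul_single,
        ← map_mul, ← map_mul]
  have hc : ∀ L : List (Fin n), ∀ o, ((L.map (fun i => m i + {none})).sum).count o
      ≤ L.length := by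
    intro L o
    induction L with
    | nil => simp
    | cons i L ih =>
      rw [List.map_cons, List.sum_cons, Multiset.count_add, List.length_cons]
      have : (m i + {none}).count o ≤ 1 := by
        rw [Multiset.count_add]
        change (if w i ∈ S.ev then (0 : Multiset (Option (Fin n))) else {some i}).count o + _ ≤ 1
        rcases o with _ | j
        · split_ifs <;> simp
        · split_ifs
          · simp
          · rw [Multiset.count_singleton, Multiset.count_singleton]
            split_ifs <;> simp_all
      omega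
  have hGI : GI k E (sand (FA.of none) ((List.finRange n).map (fun i => FA.of (some i)))) :=
    GI_mono (fun o ho => by rcases o with _ | i; exact ho.elim; simp) (GI_sand k n hn)
  have h1 := R1 S k hA p q hF E u v hu hv hE _ hGI
    (((List.finRange n).map (fun i => m i + {none})).sum)
  rw [h0, smul_mul_assoc] at h1
  have h2 := fac_cancel n hinv _ (fun o => by simpa using hc (List.finRange n) o) _ h1
  rw [AddMonoidAlgebra.coeff_single, Finsupp.single_eq_same] at h2
  exact h2

theorem HD (k : ℕ) (hA : Anti S.f k) (p q : Fin k ↪ ι) (hF : Frame p q z) (n : ℕ)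
    (hn : k * k < n) (hinv : ∀ x : U, n.factorial • x = 0 → x = 0)
    (y : Φ) (hy : y ∈ S.od) (L : List Φ) (hL : L.length = n) :
    S.ρ z (sand y L) * S.om p q = 0 := by
  have h1 : ∀ (L2 L1 : List Φ), (∀ a ∈ L1, a ∈ S.ev ∨ a ∈ S.od) → (L1 ++ L2).length = n →
      S.ρ z (sand y (L1 ++ L2)) * S.om p q = 0 := by
    intro L2
    induction L2 with
    | nil =>
      intro L1 h1 h2
      rw [List.append_nil] at h2 ⊢
      subst h2
      have h3 : (List.finRange L1.length).map (fun i => L1.get i) = L1 := by simp
      have h4 := HD_hom S k hA p q hF L1.length hn hinv y hy (fun i => L1.get i)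
        (fun i => h1 _ (List.get_mem _ _))
      rwa [h3] at h4
    | cons a L2 ih =>
      intro L1 h1 h2
      obtain ⟨b, hb, c, hc, rfl⟩ := S.dec a
      have h3 := ih (L1 ++ [b]) (fun x hx => by
        rcases List.mem_append.1 hx with h | h
        · exact h1 x h
        · rw [List.mem_singleton] at h; subst h; exact Or.inl hb) (by simpa using h2)
      have h4 := ih (L1 ++ [c]) (fun x hx => by
        rcases List.mem_append.1 hx with h | h
        · exact h1 x h
        · rw [List.mem_singleton] at h; subst h; exact Or.inr hc) (by simpa using h2)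
      have h5 : sand y (L1 ++ (b + c) :: L2) = sand y (L1 ++ [b] ++ L2)
          + sand y (L1 ++ [c] ++ L2) := by
        simp only [sand_append, sand, mul_one]
        noncomm_ring
      rw [h5, map_add, add_mul, h3, h4, add_zero]
  exact h1 L [] (by simp) (by simpa using hL)

theorem HD' (k : ℕ) (hA : Anti S.f k) (p q : Fin k ↪ ι) (hF : Frame p q z) (n : ℕ)
    (hn : k * k < n) (hinv : ∀ x : U, n.factorial • x = 0 → x = 0)
    (y : Φ) (hy : y ∈ S.od) (L : List Φ) (hL : n ≤ L.length) (t : Φ) :
    S.ρ z (sand y L * t) * S.om p q = 0 := by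
  have h1 : L = L.take n ++ L.drop n := (List.take_append_drop n L).symm
  rw [h1, sand_append, mul_assoc, map_mul, mul_assoc, om_comm S p q hF, ← mul_assoc,
    HD S k hA p q hF n hn hinv y hy (L.take n) (by simp [hL]), zero_mul]

/-- the additive group generated by the elements with `j` occurrences of `y` -/
def HY (y : Φ) (j : ℕ) : AddSubgroup U :=
  AddSubgroup.closure {x | ∃ L : List Φ, ∃ t : Φ, L.length = j ∧ x = S.ρ z (sand y L * t)}

theorem mem_HY (y : Φ) (L : List Φ) (t : Φ) : S.ρ z (sand y L * t) ∈ HY S y L.length :=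
  AddSubgroup.subset_closure ⟨L, t, rfl, rfl⟩

theorem HY_mul (y : Φ) (i j : ℕ) (a b : U) (ha : a ∈ HY S y i) (hb : b ∈ HY S y j) :
    a * b ∈ HY S y (i + j) := by
  induction ha using AddSubgroup.closure_induction with
  | mem x hx =>
    obtain ⟨L, t, hL, rfl⟩ := hx
    induction hb using AddSubgroup.closure_induction with
    | mem x' hx' =>
      obtain ⟨L', t', hL', rfl⟩ := hx'
      rw [← map_mul]
      rcases L' with _ | ⟨c, L'⟩
      · have : sand y L * t * (sand y [] * t') = sand y L * (t * t') := by
          simp only [sand]; noncomm_ring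
        rw [this, ← hL, ← hL', List.length_nil, add_zero]
        exact mem_HY S y L _
      · have : sand y L * t * (sand y (c :: L') * t') = sand y (L ++ (t * c) :: L') * t' := by
          simp only [sand_append, sand]; noncomm_ring
        rw [this]
        have h2 : i + j = (L ++ (t * c) :: L').length := by
          rw [← hL, ← hL']; simp
        rw [h2]
        exact mem_HY S y _ _
    | zero => rw [mul_zero]; exact zero_mem _
    | add c d _ _ h1 h2 => rw [mul_add]; exact add_mem h1 h2
    | neg c _ h1 => rw [mul_neg]; exact neg_mem h1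
  | zero => rw [zero_mul]; exact zero_mem _
  | add c d _ _ h1 h2 => rw [add_mul]; exact add_mem h1 h2
  | neg c _ h1 => rw [neg_mul]; exact neg_mem h1

theorem HY_om (k : ℕ) (hA : Anti S.f k) (p q : Fin k ↪ ι) (hF : Frame p q z) (n : ℕ)
    (hn : k * k < n) (hinv : ∀ x : U, n.factorial • x = 0 → x = 0)
    (y : Φ) (hy : y ∈ S.od) (j : ℕ) (hj : n ≤ j) (a : U) (ha : a ∈ HY S y j) :
    a * S.om p q = 0 := by
  induction ha using AddSubgroup.closure_induction with
  | mem x hx =>
    obtain ⟨L, t, hL, rfl⟩ := hx
    exact HD' S k hA p q hF n hn hinv y hy L (by omega) t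
  | zero => rw [zero_mul]
  | add c d _ _ h1 h2 => rw [add_mul, h1, h2, add_zero]
  | neg c _ h1 => rw [neg_mul, h1, neg_zero]

open Classical in
theorem coeff_mem_HY {Y : Type} (u v : Y → Φ) (y : Y) (P : FA Y) :
    ∀ M, (Gam (fun o => S.ρ z (u o)) (fun o => S.ρ z (v o)) P).coeff M
      ∈ HY S (v y) (M.count y) := by
  have hnil : ∀ t : Φ, S.ρ z t ∈ HY S (v y) 0 := by
    intro t
    have := mem_HY S (v y) [] t
    simpa [sand] using this
  induction P using FA.induction with
  | h0 r =>
    intro M
    rw [map_intCast]
    have : ((r : ℤ) : AddMonoidAlgebra U (Multiset Y)) = AddMonoidAlgebra.single 0 (r : U) := by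
      rw [AddMonoidAlgebra.intCast_def]
    rw [this, AddMonoidAlgebra.coeff_single, Finsupp.single_apply]
    split_ifs with h
    · subst h
      rw [Multiset.count_zero]
      have := hnil (r : Φ)
      rwa [map_intCast] at this
    · exact zero_mem _
  | h1 x =>
    intro M
    unfold Gam
    rw [FA.lift_of, AddMonoidAlgebra.coeff_add, Finsupp.add_apply, AddMonoidAlgebra.coeff_single,
      AddMonoidAlgebra.coeff_single, Finsupp.single_apply, Finsupp.single_apply]
    refine add_mem ?_ ?_
    · split_ifs with h
      · subst h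
        rw [Multiset.count_zero]
        exact hnil _
      · exact zero_mem _
    · split_ifs with h
      · subst h
        rw [Multiset.count_singleton]
        split_ifs with h2
        · subst h2
          have := mem_HY S (v y) [1] 1
          simpa [sand] using this
        · exact hnil _
      · exact zero_mem _
  | hm a b ha hb =>
    intro M
    rw [map_mul, AddMonoidAlgebra.coeff_mul]
    rw [Finsupp.sum]
    refine sum_mem (fun M1 _ => ?_)
    rw [Finsupp.sum]
    refine sum_mem (fun M2 _ => ?_)
    split_ifs with h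
    · subst h
      rw [Multiset.count_add]
      exact HY_mul S _ _ _ _ _ (ha M1) (hb M2)
    · exact zero_mem _
  | ha a b ha hb =>
    intro M
    rw [map_add, AddMonoidAlgebra.coeff_add, Finsupp.add_apply]
    exact add_mem (ha M) (hb M)

/-- the sum of the coefficients -/
noncomputable def aug (U Y : Type) [Ring U] : AddMonoidAlgebra U (Multiset Y) →+* U :=
  AddMonoidAlgebra.liftNCRingHom (RingHom.id U) (1 : Multiplicative (Multiset Y) →* U)
    (fun x _ => by rw [MonoidHom.one_apply]; exact Commute.one_right _)

theorem aug_mul_eq_zero {Y : Type} (F : AddMonoidAlgebra U (Multiset Y)) (w : U)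
    (h : ∀ M, F.coeff M * w = 0) : aug U Y F * w = 0 := by
  have h1 : aug U Y F = F.coeff.sum (fun _ r => r) := by
    conv_lhs => rw [← AddMonoidAlgebra.sum_coeff_single F]
    rw [map_finsuppSum]
    refine Finsupp.sum_congr (fun M _ => ?_)
    unfold aug
    rw [AddMonoidAlgebra.liftNCRingHom_single]
    simp
  rw [h1, Finsupp.sum, Finset.sum_mul]
  exact Finset.sum_eq_zero (fun M _ => h M)

open Classical in
/-- THEOREM S: the identities of the `k × k` matrices over supercommutative rings kill
`ω = A_P A_Q`. -/
theorem main (k : ℕ) (hA : Anti S.f k) (p q : Fin k ↪ ι) (hF : Frame p q z)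
    (hinv : ∀ x : U, (k * k + 1).factorial • x = 0 → x = 0)
    {X : Type} (g : FA X) (hg : g ∈ QQ k X) (r : X → Φ) :
    S.ρ z (FA.lift r g) * (anti S.f (univ.map p) * anti S.f (univ.map q)) = 0 := by
  choose u hu v hv huv using fun x => S.dec (r x)
  have h1 : S.ρ z (FA.lift r g)
      = aug U X (Gam (fun o => S.ρ z (u o)) (fun o => S.ρ z (v o)) g) := by
    refine FA.ext ((S.ρ z).comp (FA.lift r)) ((aug U X).comp
      (Gam (fun o => S.ρ z (u o)) (fun o => S.ρ z (v o)))) (fun x => ?_) g
    rw [RingHom.comp_apply, FA.lift_of, RingHom.comp_apply]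
    unfold Gam aug
    rw [FA.lift_of, map_add, AddMonoidAlgebra.liftNCRingHom_single,
      AddMonoidAlgebra.liftNCRingHom_single, huv x]
    simp
  rw [h1]
  refine aug_mul_eq_zero _ _ (fun M => ?_)
  by_cases hM : ∀ x, M.count x ≤ k * k + 1
  · have h2 := R1 S k hA p q hF (fun _ => True) u v hu hv (fun y hy => (hy trivial).elim) g hg M
    rw [smul_mul_assoc] at h2
    exact fac_cancel (k * k + 1) hinv M hM _ h2
  · push_neg at hM
    obtain ⟨x, hx⟩ := hM
    exact HY_om S k hA p q hF (k * k + 1) (by omega) hinv (v x) (hv x) (M.count x) hx.le _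
      (coeff_mem_HY S u v x g M)

end

end Pool.PI34.SS
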