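import Pool.Agent.LibPI34.P3b
import Pool.Agent.LibPI34.S_Col
import Pool.Agent.LibPI34.S_Main

/-!
PI34, block P, file 5: THEOREM P3.
-/

set_option linter.unusedSectionVars false
set_option linter.unusedSimpArgs false

namespace Pool.PI34.Super

open Equiv Finset
open Pool.PI34.SS (FA)
open Pool.PI34.C0 (capMono)
open Pool.PI34.BA (anti permsOn Frame)

/-- the strands `1, ..., K` -/
def eP (K : ℕ) : Fin K ↪ Fin (2 * K + 1) where
  toFun i := ⟨1 + i.val, by omega⟩
  inj' x y h := by
    have := congrArg Fin.val h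
    simp only at this
    exact Fin.ext (by omega)

/-- the strands `K + 1, ..., 2 K` -/
def eQ (K : ℕ) : Fin K ↪ Fin (2 * K + 1) where
  toFun i := ⟨1 + K + i.val, by omega⟩
  inj' x y h := by
    have := congrArg Fin.val h
    simp only at this
    exact Fin.ext (by omega)

theorem frame_eP (K : ℕ) : Frame (eP K) (eQ K) (0 : Fin (2 * K + 1)) where
  pq i i' h := by
    have h1 : 1 + i.val = 1 + K + i'.val := congrArg Fin.val h
    omega
  pz i h := by
    have h1 : 1 + i.val = 0 := congrArg Fin.val h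
    omega
  qz i h := by
    have h1 : 1 + K + i.val = 0 := congrArg Fin.val h
    omega

theorem zero_eP (K : ℕ) : (0 : Fin (2 * K + 1)) ∉ univ.map (eP K) := by
  intro h
  obtain ⟨i, _, hi⟩ := Finset.mem_map.1 h
  exact (frame_eP K).pz i hi

theorem zero_eQ (K : ℕ) : (0 : Fin (2 * K + 1)) ∉ univ.map (eQ K) := by
  intro h
  obtain ⟨i, _, hi⟩ := Finset.mem_map.1 h
  exact (frame_eP K).qz i hi

theorem disj_ePQ (K : ℕ) : Disjoint (univ.map (eP K)) (univ.map (eQ K)) := by
  rw [Finset.disjoint_left]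
  intro x h1 h2
  obtain ⟨i, _, rfl⟩ := Finset.mem_map.1 h1
  obtain ⟨i', _, hi⟩ := Finset.mem_map.1 h2
  exact (frame_eP K).pq i i' hi.symm

namespace CatL

variable {Λ : Type} [CommRing Λ] {j : Λ →+* ℚ} {k l m : ℕ}

/-- the coloured string system of a representation -/
noncomputable def Rp.cS {L : CatL j k l m} {n : ℕ} {Φ0 EE : Type} [Ring EE]
    (V : Rp L (n + 1) Φ0 EE) : SS.ColStr n (FA (Option Φ0)) V.U where
  ρ := V.colStr.ρ
  el := V.colStr.el
  s := V.colStr.s
  f := V.colStr.f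
  comm := V.colStr.comm
  idem := V.colStr.idem
  conj := V.colStr.s_ρ
  fs := V.colStr.f_swap

variable {L : CatL j k l m}

theorem Rp.ring_rU {n : ℕ} {R EE : Type} [Ring R] [Ring EE] (V : Rp L n R EE) (i : Fin n)
    (ρH : R →+* EE) (hρ : ∀ x, V.ρ (phL n m i) x = ρH x) {X : Type} (a : X → R) (g : FA X) :
    (V.rU i (FA.lift (fun x => FA.of (some (a x))) g)).1
      = V.ρ (phL n m i) (FA.lift a g) * V.a (L.Z n) := by
  let ψ : R →+* V.U :=
    { toFun := V.lx i
      map_one' := by
        apply V.U_ext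
        change V.ρ (phL n m i) 1 * V.a (L.Z n) = V.a (L.Z n)
        rw [hρ, map_one, one_mul]
      map_mul' := fun x y => by
        apply V.U_ext
        have h1 : V.a (L.Z n) * (V.ρ (phL n m i) y * V.a (L.Z n))
            = V.ρ (phL n m i) y * V.a (L.Z n) := V.U_left (V.lx i y)
        change V.ρ (phL n m i) (x * y) * V.a (L.Z n) =
          V.ρ (phL n m i) x * V.a (L.Z n) * (V.ρ (phL n m i) y * V.a (L.Z n))
        rw [mul_assoc, h1, hρ, hρ, hρ, map_mul, mul_assoc]
      map_zero' := by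
        apply V.U_ext
        change V.ρ (phL n m i) 0 * V.a (L.Z n) = 0
        rw [hρ, map_zero, zero_mul]
      map_add' := fun x y => by
        apply V.U_ext
        change V.ρ (phL n m i) (x + y) * V.a (L.Z n) =
          V.ρ (phL n m i) x * V.a (L.Z n) + V.ρ (phL n m i) y * V.a (L.Z n)
        rw [hρ, hρ, hρ, map_add, add_mul] }
  have h := SS.FA.ext (A := V.U) ((V.rU i).comp (FA.lift (fun x => FA.of (some (a x)))))
    (ψ.comp (FA.lift a)) (fun x => by
      rw [RingHom.comp_apply, RingHom.comp_apply, SS.FA.lift_of, SS.FA.lift_of, V.rU_of]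
      rfl) g
  rw [RingHom.comp_apply, RingHom.comp_apply] at h
  rw [h]
  rfl

/-- the value on the first strand -/
theorem Rp.core {R EE : Type} [Ring R] [Ring EE] (V : Rp L (2 * (k + l) + 1) R EE)
    (ρH : R →+* EE) (hρ : ∀ x, V.ρ (phL (2 * (k + l) + 1) m 0) x = ρH x)
    (hinv : ∀ x : EE, ((k + l) * (k + l) + 1).factorial • x = 0 → x = 0)
    {X : Type} (g : FA X) (hg : g ∈ SS.QQ (k + l) X) (a : X → R) :
    V.ρ (phL (2 * (k + l) + 1) m 0) (FA.lift a g) *
      V.a (L.Yp (2 * (k + l) + 1) (univ.map (eP (k + l))) (univ.map (eQ (k + l)))) = 0 := by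
  have hU : ∀ x : V.U, ((k + l) * (k + l) + 1).factorial • x = 0 → x = 0 := by
    intro x hx
    apply V.U_ext
    apply hinv
    have h2 : V.U_val (((k + l) * (k + l) + 1).factorial • x) = V.U_val 0 := by rw [hx]
    rw [map_nsmul, map_zero] at h2
    exact h2
  have h := SS.main V.cS.toSup (k + l) V.anti_zero (eP (k + l)) (eQ (k + l))
    (frame_eP (k + l)) hU g hg (fun x => FA.of (some (a x)))
  have h2 : (V.rU 0 (FA.lift (fun x => FA.of (some (a x))) g) *
      (anti V.fH (univ.map (eP (k + l))) * anti V.fH (univ.map (eQ (k + l)))) : V.U).1 = 0 :=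
    congrArg (fun x : V.U => x.1) h
  rw [V.U_mul, V.U_mul, V.ring_rU 0 ρH hρ, V.anti_eq (univ.map (eP (k + l)))] at h2
  have h3 : V.a (L.Z (2 * (k + l) + 1)) * (anti V.fH (univ.map (eQ (k + l)))).1
      = (anti V.fH (univ.map (eQ (k + l)))).1 := V.U_left _
  have h4 : V.a (L.Z (2 * (k + l) + 1)) * (anti V.fH (univ.map (eP (k + l)))).1
      = (anti V.fH (univ.map (eP (k + l)))).1 := V.U_left _
  rw [V.anti_eq] at h3 h4 h2
  unfold Yp
  rw [map_mul, map_mul]
  unfold altL
  generalize V.a (∑ σ ∈ permsOn (univ.map (eP (k + l))), ((Perm.sign σ : ℤˣ) : ℤ) • L.fl σ) = A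
    at h2 h3 h4 ⊢
  generalize V.a (∑ σ ∈ permsOn (univ.map (eQ (k + l))), ((Perm.sign σ : ℤˣ) : ℤ) • L.fl σ) = B
    at h2 h3 h4 ⊢
  generalize V.a (L.Z (2 * (k + l) + 1)) = Z at h2 h3 h4 ⊢
  generalize V.ρ (phL (2 * (k + l) + 1) m 0) (FA.lift a g) = x at h2 ⊢
  calc x * (A * B * Z) = x * (A * (B * Z)) := by rw [mul_assoc A]
    _ = x * (A * (Z * (B * Z))) := by rw [h3]
    _ = x * (A * Z * (B * Z)) := by rw [mul_assoc A]
    _ = x * (Z * (A * Z) * (B * Z)) := by rw [h4]
    _ = x * Z * (A * Z * (B * Z)) := by simp only [mul_assoc]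
    _ = 0 := h2

/-- THEOREM P3 -/
theorem P3 (L : CatL j k l m) (hkl : 0 < k + l) :
    ∃ Y0 : MonoidAlgebra Λ (Perm (Fin (2 * (k + l) + m))), act k l _ (mj j _ Y0) ≠ 0 ∧
      ∀ (R : Type) [Ring R] [Algebra Λ R], TypeKL j k l (2 * (k + l) + 1 + m) R →
        (∀ x : R, ((k + l) * (k + l) + 1).factorial • x = 0 → x = 0) →
        ∀ {X : Type} (g : FA X), g ∈ SS.QQ (k + l) X → ∀ (a : X → R)
          (τ : Perm (Fin (2 * (k + l) + m)))
          (v : Fin (2 * (k + l) + m + 1) → R) (r : Fin (2 * (k + l) + m) → R),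
          FA.lift a g * fv (Y0 * MonoidAlgebra.of Λ _ τ) v r = 0 := by
  obtain ⟨Y0, hY0⟩ := L.exists_Y0 (2 * (k + l)) (univ.map (eP (k + l))) (univ.map (eQ (k + l)))
    (zero_eP _) (zero_eQ _)
  refine ⟨Y0, ?_, ?_⟩
  · apply act_of_pl (conv_ph1 (2 * (k + l)) m)
    rw [← mj_plL, hY0]
    let v : Fin (2 * (k + l) + 1) → Lt k l := fun i =>
      finSumFinEquiv.symm ⟨(i.val + (k + l) - 1) % (k + l), Nat.mod_lt _ hkl⟩
    apply L.Yp_ne _ _ (disj_ePQ _) v
    · intro x hx y hy hxy
      rw [Finset.coe_map, Set.mem_image] at hx hy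
      obtain ⟨x, _, rfl⟩ := hx
      obtain ⟨y, _, rfl⟩ := hy
      have h1 : (1 + x.val + (k + l) - 1) % (k + l) = (1 + y.val + (k + l) - 1) % (k + l) :=
        congrArg Fin.val (finSumFinEquiv.symm.injective hxy)
      have h2 : (1 + x.val + (k + l) - 1) % (k + l) = x.val := by
        rw [show 1 + x.val + (k + l) - 1 = x.val + (k + l) by omega, Nat.add_mod_right,
          Nat.mod_eq_of_lt x.2]
      have h3 : (1 + y.val + (k + l) - 1) % (k + l) = y.val := by
        rw [show 1 + y.val + (k + l) - 1 = y.val + (k + l) by omega, Nat.add_mod_right,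
          Nat.mod_eq_of_lt y.2]
      rw [h2, h3] at h1
      rw [Fin.ext h1]
    · intro x hx y hy hxy
      rw [Finset.coe_map, Set.mem_image] at hx hy
      obtain ⟨x, _, rfl⟩ := hx
      obtain ⟨y, _, rfl⟩ := hy
      have h1 : (1 + (k + l) + x.val + (k + l) - 1) % (k + l)
          = (1 + (k + l) + y.val + (k + l) - 1) % (k + l) :=
        congrArg Fin.val (finSumFinEquiv.symm.injective hxy)
      have h2 : (1 + (k + l) + x.val + (k + l) - 1) % (k + l) = x.val := by
        rw [show 1 + (k + l) + x.val + (k + l) - 1 = x.val + (k + l) + (k + l) by omega,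
          Nat.add_mod_right, Nat.add_mod_right, Nat.mod_eq_of_lt x.2]
      have h3 : (1 + (k + l) + y.val + (k + l) - 1) % (k + l) = y.val := by
        rw [show 1 + (k + l) + y.val + (k + l) - 1 = y.val + (k + l) + (k + l) by omega,
          Nat.add_mod_right, Nat.add_mod_right, Nat.mod_eq_of_lt y.2]
      rw [h2, h3] at h1
      rw [Fin.ext h1]
  · intro R _ _ hT hinv X g hg a τ v r
    let V := ringRp L (2 * (k + l) + 1) hT
    have hEE : ∀ x : Module.End Λ (VL Λ R (2 * (k + l) + 1 + m)),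
        ((k + l) * (k + l) + 1).factorial • x = 0 → x = 0 := by
      intro x h1
      refine endL_ext fun F r => ?_
      apply hinv
      exact congrFun (congrArg Subtype.val (LinearMap.congr_fun h1 F)) r
    have h := V.core (rhoH (phL (2 * (k + l) + 1) m 0)) (fun _ => rfl) hEE g hg a
    have hτ : V.ρ (phL (2 * (k + l) + 1) m 0) (FA.lift a g) *
        aL Λ R (2 * (k + l) + 1 + m) (plL Λ (ph1 (2 * (k + l)) m)
          (Y0 * MonoidAlgebra.of Λ _ τ)) = 0 := by
      rw [map_mul, map_mul, hY0, ← mul_assoc]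
      have h' : V.ρ (phL (2 * (k + l) + 1) m 0) (FA.lift a g) *
        aL Λ R (2 * (k + l) + 1 + m) (L.Yp (2 * (k + l) + 1) (univ.map (eP (k + l)))
          (univ.map (eQ (k + l)))) = 0 := h
      rw [h', zero_mul]
    clear h
    rename' hτ => h
    let v' : Fin (2 * (k + l) + 1 + m + 1) → R := fun i =>
      if h : i.val = 0 then 1 else v ⟨i.val - 1, by omega⟩
    let r' : Fin (2 * (k + l) + 1 + m) → R := fun i =>
      if h : i.val = 0 then 1 else r ⟨i.val - 1, by omega⟩
    have h1 : (aL Λ R (2 * (k + l) + 1 + m) (plL Λ (ph1 (2 * (k + l)) m)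
        (Y0 * MonoidAlgebra.of Λ _ τ)) (monV v' 1)).1
        (Function.update r' (phL (2 * (k + l) + 1) m 0)
          (r' (phL (2 * (k + l) + 1) m 0) * FA.lift a g)) = 0 :=
      congrFun (congrArg Subtype.val (LinearMap.congr_fun h (monV v' 1))) r'
    rw [aL_fv, fv_pl] at h1
    have e1 : v' 0 = 1 := dif_pos rfl
    have e2 : (phL (2 * (k + l) + 1) m 0) = (⟨0, by omega⟩ : Fin (2 * (k + l) + 1 + m)) := rfl
    have e3 : r' ⟨0, by omega⟩ = 1 := dif_pos rfl
    rw [e2, Function.update_self, e1, e3, one_mul, one_mul] at h1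
    have e4 : (fun i : Fin (2 * (k + l) + m + 1) => v' ⟨i.val + 1, by omega⟩) = v := by
      funext i
      change (if h : i.val + 1 = 0 then 1 else v ⟨i.val + 1 - 1, by omega⟩) = _
      rw [dif_neg (by omega)]
      rfl
    have e5 : Function.update r' ⟨0, by omega⟩ (FA.lift a g) ∘ ph1 (2 * (k + l)) m = r := by
      funext i
      have h2 : ph1 (2 * (k + l)) m i ≠ ⟨0, by omega⟩ := by
        intro h3
        have := congrArg Fin.val h3
        rw [ph1_val] at this
        simp at this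
      rw [Function.comp_apply, Function.update_of_ne h2]
      change (if h : (ph1 (2 * (k + l)) m i).val = 0 then 1 else
        r ⟨(ph1 (2 * (k + l)) m i).val - 1, by omega⟩) = _
      rw [dif_neg (by rw [ph1_val]; omega)]
      rfl
    rw [e4, e5] at h1
    exact h1

end CatL

end Pool.PI34.Super
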