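import Pool.Agent.LibPI34.St4

/-!
PI34, START, file 5: the START theorem.
-/

set_option linter.unusedSectionVars false
set_option linter.unusedSimpArgs false

namespace Pool.PI34.Super

open Equiv Finset

section integral

variable {G : Type} [Group G]

/-- base change `ℤ[G] → ℚ[G]` -/
noncomputable def bc : MonoidAlgebra ℤ G →+* MonoidAlgebra ℚ G :=
  MonoidAlgebra.mapRingHom G (Int.castRingHom ℚ)

theorem bc_inj : Function.Injective (bc (G := G)) := by
  intro a b h
  ext g
  have := congrArg (fun x => x.coeff g) h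
  simp only [bc, MonoidAlgebra.coeff_mapRingHom, eq_intCast] at this
  exact_mod_cast this

theorem bc_of (g : G) : bc (MonoidAlgebra.of ℤ G g) = MonoidAlgebra.of ℚ G g := by
  simp [bc, MonoidAlgebra.of_apply]

theorem bc_smul (n : ℤ) (a : MonoidAlgebra ℤ G) : bc (n • a) = (n : ℚ) • bc a := by
  rw [map_zsmul, Int.cast_smul_eq_zsmul]

/-- integral multiples -/
theorem exists_int (u : MonoidAlgebra ℚ G) : ∃ D : ℕ, 0 < D ∧ ∃ u' : MonoidAlgebra ℤ G,
    bc u' = (D : ℚ) • u := by
  induction u using MonoidAlgebra.induction_on with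
  | of g => exact ⟨1, one_pos, MonoidAlgebra.of ℤ G g, by rw [bc_of, Nat.cast_one, one_smul]⟩
  | add x y hx hy =>
    obtain ⟨D, hD, x', hx'⟩ := hx
    obtain ⟨E, hE, y', hy'⟩ := hy
    refine ⟨D * E, Nat.mul_pos hD hE, (E : ℤ) • x' + (D : ℤ) • y', ?_⟩
    rw [map_add, bc_smul, bc_smul, hx', hy', smul_smul, smul_smul, smul_add]
    push_cast
    rw [mul_comm (E : ℚ) D]
  | smul r x hx =>
    obtain ⟨D, hD, x', hx'⟩ := hx
    refine ⟨r.den * D, Nat.mul_pos r.pos hD, r.num • x', ?_⟩
    rw [bc_smul, hx', smul_smul, smul_smul]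
    congr 1
    push_cast
    have h := Rat.mul_den_eq_num r
    calc (r.num : ℚ) * D = (r * r.den) * D := by rw [h]
      _ = _ := by ring

theorem exists_int_fam {I : Type} [Fintype I] (u : I → MonoidAlgebra ℚ G) :
    ∃ D : ℕ, 0 < D ∧ ∃ u' : I → MonoidAlgebra ℤ G, ∀ i, bc (u' i) = (D : ℚ) • u i := by
  classical
  choose D hD u' hu' using fun i => exists_int (u i)
  refine ⟨∏ i, D i, Finset.prod_pos (fun i _ => hD i),
    fun i => ((∏ j ∈ univ.erase i, D j : ℕ) : ℤ) • u' i, fun i => ?_⟩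
  rw [bc_smul, hu', smul_smul]
  congr 1
  rw [← Finset.prod_erase_mul _ _ (Finset.mem_univ i)]
  push_cast
  rfl

/-- the two-sided ideal of `ℤ[G]` generated by `Z'`, as an additive subgroup -/
noncomputable def IZZ (Z' : MonoidAlgebra ℤ G) : AddSubgroup (MonoidAlgebra ℤ G) :=
  AddSubgroup.closure {x | ∃ a b, x = a * Z' * b}

theorem IZ_int {Z : MonoidAlgebra ℚ G} {Z' : MonoidAlgebra ℤ G} {D : ℕ} (hD : 0 < D)
    (hZ : bc Z' = (D : ℚ) • Z) {u : MonoidAlgebra ℚ G} (hu : u ∈ IZ Z) :
    ∃ E : ℕ, 0 < E ∧ ∃ u' ∈ IZZ Z', bc u' = (E : ℚ) • u := by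
  unfold IZ at hu
  induction hu using Submodule.span_induction with
  | mem u hu =>
    obtain ⟨a, b, rfl⟩ := hu
    obtain ⟨A, hA, a', ha'⟩ := exists_int a
    obtain ⟨B, hB, b', hb'⟩ := exists_int b
    refine ⟨A * D * B, Nat.mul_pos (Nat.mul_pos hA hD) hB, a' * Z' * b',
      AddSubgroup.subset_closure ⟨a', b', rfl⟩, ?_⟩
    rw [map_mul, map_mul, ha', hb', hZ]
    simp only [smul_mul_assoc, mul_smul_comm, smul_smul]
    congr 1
    push_cast; ring
  | zero => exact ⟨1, one_pos, 0, AddSubgroup.zero_mem _, by rw [map_zero, smul_zero]⟩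
  | add x y _ _ hx hy =>
    obtain ⟨A, hA, x', hx1, hx2⟩ := hx
    obtain ⟨B, hB, y', hy1, hy2⟩ := hy
    refine ⟨A * B, Nat.mul_pos hA hB, (B : ℤ) • x' + (A : ℤ) • y',
      AddSubgroup.add_mem _ (AddSubgroup.zsmul_mem _ hx1 _) (AddSubgroup.zsmul_mem _ hy1 _), ?_⟩
    rw [map_add, bc_smul, bc_smul, hx2, hy2, smul_smul, smul_smul, smul_add]
    push_cast
    rw [mul_comm (B : ℚ) A]
  | smul r x _ hx =>
    obtain ⟨A, hA, x', hx1, hx2⟩ := hx
    refine ⟨r.den * A, Nat.mul_pos r.pos hA, r.num • x', AddSubgroup.zsmul_mem _ hx1 _, ?_⟩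
    rw [bc_smul, hx2, smul_smul, smul_smul]
    congr 1
    push_cast
    have h := Rat.mul_den_eq_num r
    calc (r.num : ℚ) * A = (r * r.den) * A := by rw [h]
      _ = _ := by ring

end integral

section good

variable {G : Type} [Group G] {P : Type*} [AddCommGroup P]

/-- GOOD LEMMA. -/
theorem good_lemma (R : MonoidAlgebra ℤ G →+* AddMonoid.End P)
    {I : Type} [Fintype I] [DecidableEq I] {z' : MonoidAlgebra ℤ G} {c' : I → MonoidAlgebra ℤ G}
    {b : I → MonoidAlgebra ℤ G} {E D F : ℕ}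
    (hrel : ∀ i j, z' * c' i * b j * z' = if i = j then E • z' else 0)
    (hE : ∀ x : P, E • x = 0 → x = 0) (hD : ∀ x : P, D • x = 0 → x = 0)
    (hF : F < Fintype.card I) (f : Fin F → P)
    (hf : ∀ x : P, ∃ j : ℕ, D ^ j • x ∈ AddSubgroup.closure (Set.range f)) (x : P) :
    R z' x = 0 := by
  classical
  have hDj : ∀ (j : ℕ) (x : P), D ^ j • x = 0 → x = 0 := by
    intro j
    induction j with
    | zero => intro x hx; rwa [pow_zero, one_smul] at hx
    | succ j ih =>
      intro x hx
      rw [pow_succ, mul_smul] at hx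
      exact hD x (ih _ hx)
  set x' := R z' x with hx'
  choose j hj using fun i => hf (R (b i) x')
  set J := ∑ i, j i with hJ
  have hmem : ∀ i, D ^ J • R (b i) x' ∈ AddSubgroup.closure (Set.range f) := by
    intro i
    have h1 : j i ≤ J := Finset.single_le_sum (f := j) (fun _ _ => Nat.zero_le _)
      (Finset.mem_univ i)
    obtain ⟨t, ht⟩ := Nat.exists_eq_add_of_le h1
    rw [ht, add_comm, pow_add, mul_smul]
    exact AddSubgroup.nsmul_mem _ (hj i) _
  have hexp : ∀ i, ∃ m : Fin F → ℤ, D ^ J • R (b i) x' = ∑ g, m g • f g := by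
    intro i
    have h1 := hmem i
    rw [← Submodule.span_int_eq_addSubgroupClosure, Submodule.mem_toAddSubgroup,
      Submodule.mem_span_range_iff_exists_fun] at h1
    obtain ⟨m, hm⟩ := h1
    exact ⟨m, hm.symm⟩
  choose m hm using hexp
  -- a relation
  let φ : (I → ℤ) →ₗ[ℤ] (Fin F → ℤ) :=
    { toFun := fun v g => ∑ i, v i * m i g
      map_add' := fun v w => by
        funext g; simp only [Pi.add_apply, add_mul, Finset.sum_add_distrib]
      map_smul' := fun r v => by
        funext g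
        simp only [Pi.smul_apply, smul_eq_mul, RingHom.id_apply, Finset.mul_sum, mul_assoc] }
  have hφ : ¬ Function.Injective φ := by
    intro h
    have := card_le_of_injective ℤ φ h
    rw [Fintype.card_fin] at this
    omega
  rw [injective_iff_map_eq_zero] at hφ
  push Not at hφ
  obtain ⟨v, hv, hv0⟩ := hφ
  obtain ⟨i0, hi0⟩ := Function.ne_iff.1 hv0
  have hne : (univ : Finset I).Nonempty := ⟨i0, Finset.mem_univ _⟩
  obtain ⟨u, hu, hgcd⟩ := Finset.extract_gcd v hne
  have hg0 : (univ : Finset I).gcd v ≠ 0 := by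
    intro h
    rw [Finset.gcd_eq_zero_iff] at h
    exact hi0 (h i0 (Finset.mem_univ _))
  have hu0 : ∀ g, ∑ i, u i * m i g = 0 := by
    intro g
    have h1 := congrFun hv g
    change ∑ i, v i * m i g = 0 at h1
    have h2 : ∑ i, v i * m i g = (univ : Finset I).gcd v * ∑ i, u i * m i g := by
      rw [Finset.mul_sum]
      refine Finset.sum_congr rfl (fun i _ => ?_)
      rw [← mul_assoc, ← hu i (Finset.mem_univ _)]
    rw [h2] at h1
    exact (mul_eq_zero.1 h1).resolve_left hg0
  -- the relation in `P`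
  have hrelP : ∑ i, u i • R (b i) x' = 0 := by
    apply hDj J
    rw [Finset.smul_sum]
    have h1 : ∀ i, D ^ J • u i • R (b i) x' = ∑ g, (u i * m i g) • f g := by
      intro i
      rw [smul_comm, hm i, Finset.smul_sum]
      exact Finset.sum_congr rfl (fun g _ => by rw [mul_smul])
    rw [Finset.sum_congr rfl (fun i _ => h1 i), Finset.sum_comm]
    refine Finset.sum_eq_zero (fun g _ => ?_)
    rw [← Finset.sum_smul, hu0 g, zero_smul]
  have hui : ∀ i, u i • x' = 0 := by
    intro i
    have h1 := congrArg (R (z' * c' i)) hrelP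
    rw [map_zero, map_sum] at h1
    have h2 : ∀ j, R (z' * c' i) (u j • R (b j) x') = if i = j then E • (u i • x') else 0 := by
      intro j
      rw [map_zsmul, hx']
      have h3 : R (z' * c' i) (R (b j) (R z' x)) = R (z' * c' i * b j * z') x := by
        rw [map_mul R (z' * c' i * b j), map_mul R (z' * c' i)]; rfl
      rw [h3, hrel]
      split_ifs with hij
      · rw [hij, map_nsmul]
        change u j • (E • R z' x) = _
        rw [smul_comm]
      · rw [map_zero]; exact smul_zero _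
    rw [Finset.sum_congr rfl (fun j _ => h2 j), Finset.sum_ite_eq, if_pos (Finset.mem_univ _)]
      at h1
    exact hE _ h1
  have h1 : ∀ i ∈ (univ : Finset I), (addOrderOf x' : ℤ) ∣ u i := fun i _ =>
    addOrderOf_dvd_iff_zsmul_eq_zero.2 (hui i)
  have h2 := Finset.dvd_gcd h1
  rw [hgcd] at h2
  have h3 : addOrderOf x' = 1 := by
    have := Int.eq_one_of_dvd_one (by positivity) h2
    exact_mod_cast this
  exact AddMonoid.addOrderOf_eq_one_iff.1 h3

end good

end Pool.PI34.Super
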