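import Pool.Agent.LibPI34.P3c
import Pool.Agent.LibPI34.St5

/-!
PI34, file Q1: THEOREM P3 with integral elements.
-/

set_option linter.unusedSectionVars false
set_option linter.unusedSimpArgs false

namespace Pool.PI34.Super

open Equiv Finset
open Pool.PI34.SS (FA)
open Pool.PI34.C0 (capMono)

theorem DD_word {n r : ℕ} {k l : ℕ} {ι : Type} [Fintype ι] [LinearOrder ι]
    {pos : Fin r × Fin n → ι} {lam : Fin n → Lt k l} (hlam : Function.Injective lam)
    (w : ι → Lt k l) (hw : ∀ q, w (pos q) = lam q.2) : DD pos lam w = 1 := by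
  unfold DD
  refine Finset.prod_eq_one (fun j _ => ?_)
  have h1 : MM pos lam w j = 1 := by
    ext i a
    change (if w (pos (j, i)) = lam a then (1 : ℚ) else 0) = _
    rw [hw, Matrix.one_apply]
    by_cases h : i = a
    · rw [if_pos (by rw [h]), if_pos h]
    · rw [if_neg (fun e => h (hlam e)), if_neg h]
  rw [h1, Matrix.det_one]

theorem xi_ne (k l : ℕ) : xi k l ≠ 0 := by
  let w : Fin (mm k l) → Lt k l := fun s =>
    Sum.elim (fun q : Fin l × Fin k => (Sum.inl q.2 : Lt k l))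
      (fun q : Fin k × Fin l => (Sum.inr q.2 : Lt k l)) ((catEquiv k l).symm s)
  intro h
  have h1 := congrFun h w
  unfold xi at h1
  rw [DD_word Sum.inl_injective w (fun q => by
      change Sum.elim _ _ ((catEquiv k l).symm (catEquiv k l (Sum.inl q))) = _
      rw [Equiv.symm_apply_apply]; rfl),
    DD_word Sum.inr_injective w (fun q => by
      change Sum.elim _ _ ((catEquiv k l).symm (catEquiv k l (Sum.inr q))) = _
      rw [Equiv.symm_apply_apply]; rfl)] at h1
  norm_num at h1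

section loc

/-- `ℤ[1/D]` -/
def Lam (D : ℕ) : Type := Localization.Away (D : ℤ)

noncomputable instance (D : ℕ) : CommRing (Lam D) :=
  inferInstanceAs (CommRing (Localization.Away (D : ℤ)))

instance (D : ℕ) : IsLocalization.Away (D : ℤ) (Lam D) := by
  have h : IsLocalization.Away (D : ℤ) (Localization.Away (D : ℤ)) := inferInstance
  convert! h
  exact Subsingleton.elim (α := Algebra ℤ (Lam D)) _ _

variable {D : ℕ}

/-- the embedding in `ℚ` -/
noncomputable def jL (hD : 0 < D) : Lam D →+* ℚ :=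
  IsLocalization.Away.lift (D : ℤ) (g := Int.castRingHom ℚ) (by
    rw [eq_intCast, Int.cast_natCast]
    exact (Nat.cast_ne_zero.2 hD.ne').isUnit)

theorem jL_int (hD : 0 < D) (n : ℤ) : jL hD (algebraMap ℤ (Lam D) n) = n := by
  unfold jL
  rw [IsLocalization.Away.lift_eq]
  rfl

variable {G : Type} [Group G]

/-- base change to `Λ[G]` -/
noncomputable def ic (D : ℕ) (G : Type) [Group G] : MonoidAlgebra ℤ G →+* MonoidAlgebra (Lam D) G :=
  MonoidAlgebra.mapRingHom G (algebraMap ℤ (Lam D))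

theorem ic_of (g : G) : ic D G (MonoidAlgebra.of ℤ G g) = MonoidAlgebra.of (Lam D) G g := by
  simp [ic, MonoidAlgebra.of_apply]

theorem ic_coeff (y : MonoidAlgebra ℤ G) (g : G) :
    (ic D G y).coeff g = algebraMap ℤ (Lam D) (y.coeff g) := by
  unfold ic
  rw [MonoidAlgebra.coeff_mapRingHom]

theorem ic_smul (n : ℤ) (y : MonoidAlgebra ℤ G) :
    ic D G (n • y) = (algebraMap ℤ (Lam D) n) • ic D G y := by
  rw [map_zsmul, eq_intCast, Int.cast_smul_eq_zsmul]

theorem mj_ic (hD : 0 < D) (y : MonoidAlgebra ℤ G) : mj (jL hD) G (ic D G y) = bc y := by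
  ext g
  unfold mj bc
  rw [MonoidAlgebra.coeff_mapRingHom, ic_coeff, MonoidAlgebra.coeff_mapRingHom, jL_int]
  rfl

theorem clr (y : MonoidAlgebra (Lam D) G) : ∃ (e : ℕ) (y' : MonoidAlgebra ℤ G),
    ic D G y' = ((algebraMap ℤ (Lam D) D) ^ e) • y := by
  induction y using MonoidAlgebra.induction_on with
  | of g => exact ⟨0, MonoidAlgebra.of ℤ G g, by rw [ic_of, pow_zero, one_smul]⟩
  | add x y hx hy =>
    obtain ⟨a, x', hx'⟩ := hx
    obtain ⟨b, y', hy'⟩ := hy
    refine ⟨a + b, ((D : ℤ) ^ b) • x' + ((D : ℤ) ^ a) • y', ?_⟩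
    rw [map_add, ic_smul, ic_smul, hx', hy', smul_smul, smul_smul, smul_add, map_pow, map_pow,
      ← pow_add, ← pow_add, add_comm b a]
  | smul r x hx =>
    obtain ⟨a, x', hx'⟩ := hx
    obtain ⟨n, c, hc⟩ := IsLocalization.Away.surj (D : ℤ) r
    refine ⟨n + a, c • x', ?_⟩
    rw [ic_smul, hx', smul_smul, smul_smul, ← hc]
    congr 1
    ring

/-- a multiple of a lift is a lift -/
theorem lift_of_int (hD : 0 < D) (z : MonoidAlgebra ℚ G) (z' : MonoidAlgebra ℤ G) (a : ℕ)
    (ha : a ∣ D) (hz : bc z' = (a : ℚ) • z) : ∃ zL : MonoidAlgebra (Lam D) G,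
    mj (jL hD) G zL = z := by
  obtain ⟨b, hb⟩ := ha
  refine ⟨(IsLocalization.Away.invSelf (D : ℤ) * algebraMap ℤ (Lam D) b) • ic D G z', ?_⟩
  rw [mj_smul, mj_ic, hz, smul_smul]
  have h1 : jL hD (IsLocalization.Away.invSelf (D : ℤ)) * (D : ℚ) = 1 := by
    have h2 := congrArg (jL hD) (IsLocalization.Away.mul_invSelf (S := Lam D) (D : ℤ))
    rw [map_mul, map_one, jL_int, mul_comm] at h2
    exact_mod_cast h2
  have h3 : jL hD (IsLocalization.Away.invSelf (D : ℤ) * algebraMap ℤ (Lam D) b) * (a : ℚ)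
      = 1 := by
    rw [map_mul, jL_int]
    have h4 : (D : ℚ) = a * b := by exact_mod_cast congrArg (Nat.cast (R := ℚ)) hb
    rw [h4] at h1
    rw [← h1]
    push_cast
    ring
  rw [h3, one_smul]

end loc

section alg

variable {D : ℕ} {U : Type} [Ring U]

/-- the algebra structure -/
noncomputable def fL (hU : IsUnit (D : U)) : Lam D →+* Subring.center U :=
  IsLocalization.Away.lift (D : ℤ) (g := Int.castRingHom (Subring.center U)) (by
    obtain ⟨u, hu⟩ := hU
    have h1 : (u : U) ∈ Set.center U := by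
      rw [hu]
      exact Set.natCast_mem_center U D
    refine IsUnit.of_mul_eq_one (⟨(u⁻¹ : Uˣ), Set.units_inv_mem_center h1⟩ : Subring.center U) ?_
    apply Subtype.ext
    rw [eq_intCast, Int.cast_natCast]
    change ((D : Subring.center U) : U) * ((u⁻¹ : Uˣ) : U) = 1
    have h2 : ((D : Subring.center U) : U) = (D : U) := by push_cast; rfl
    rw [h2, ← hu, Units.mul_inv])

/-- the algebra structure -/
@[instance_reducible] noncomputable def algU (hU : IsUnit (D : U)) : Algebra (Lam D) U :=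
  RingHom.toAlgebra' ((Subring.center U).subtype.comp (fL hU)) (fun c x => by
    have := (fL hU c).2
    rw [Subring.mem_center_iff] at this
    exact (this x).symm)

end alg

section p3

variable {U : Type} [Ring U]

theorem fv_zsmul {N : ℕ} (c : ℤ) (y : MonoidAlgebra ℤ (Perm (Fin N))) (v : Fin (N + 1) → U)
    (r : Fin N → U) : fv (c • y) v r = c • fv y v r := by
  unfold fv
  rw [Finset.smul_sum]
  refine Finset.sum_congr rfl (fun σ _ => ?_)
  rw [MonoidAlgebra.coeff_smul, Finsupp.smul_apply, smul_smul, smul_eq_mul]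

theorem fv_lsmul {Λ : Type} [CommRing Λ] [Algebra Λ U] {N : ℕ} (c : Λ)
    (y : MonoidAlgebra Λ (Perm (Fin N))) (v : Fin (N + 1) → U)
    (r : Fin N → U) : fv (c • y) v r = c • fv y v r := by
  unfold fv
  rw [Finset.smul_sum]
  refine Finset.sum_congr rfl (fun σ _ => ?_)
  rw [MonoidAlgebra.coeff_smul, Finsupp.smul_apply, smul_smul, smul_eq_mul]

theorem fv_ic {D N : ℕ} [Algebra (Lam D) U] (y : MonoidAlgebra ℤ (Perm (Fin N)))
    (v : Fin (N + 1) → U) (r : Fin N → U) : fv (ic D _ y) v r = fv y v r := by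
  unfold fv
  refine Finset.sum_congr rfl (fun σ _ => ?_)
  rw [ic_coeff, eq_intCast, Int.cast_smul_eq_zsmul]

/-- integral type `(k|l)` in degree `n` up to the factor `N` -/
def KN (N k l n : ℕ) (U : Type) [Ring U] : Prop :=
  ∀ y : MonoidAlgebra ℤ (Perm (Fin n)), act k l _ (bc y) = 0 →
    ∀ (v : Fin (n + 1) → U) (r : Fin n → U), N • fv y v r = 0

theorem typeKL_of {D : ℕ} (hD : 0 < D) (hU : IsUnit (D : U)) {k l n : ℕ} (h : KN 1 k l n U) :
    @TypeKL (Lam D) _ (jL hD) k l n U _ (algU hU) := by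
  let _ := algU hU
  intro y hy v r
  obtain ⟨e, y', hy'⟩ := clr y
  have h1 : act k l _ (bc y') = 0 := by
    rw [← mj_ic hD, hy', mj_smul, map_smul, hy, smul_zero]
  have h2 := h y' h1 v r
  rw [one_smul, ← fv_ic (D := D), hy', fv_lsmul] at h2
  have h3 : IsUnit ((algebraMap ℤ (Lam D) D) ^ e) :=
    (IsUnit.pow e (IsLocalization.Away.algebraMap_isUnit (D : ℤ)))
  obtain ⟨u, hu⟩ := h3
  rw [← hu] at h2
  have h4 := congrArg (fun x => ((u⁻¹ : (Lam D)ˣ) : Lam D) • x) h2
  simp only [smul_smul, Units.inv_mul, one_smul, smul_zero] at h4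
  exact h4

/-- P3 over the integers -/
theorem P3Z (k l : ℕ) (hkl : 0 < k + l) : ∃ (D : ℕ)
    (y0 : MonoidAlgebra ℤ (Perm (Fin (2 * (k + l) + mm k l)))), 0 < D ∧
      act k l _ (bc y0) ≠ 0 ∧ ∀ (U : Type) [Ring U], IsUnit (D : U) →
        KN 1 k l (2 * (k + l) + 1 + mm k l) U →
        ∀ {X : Type} (g : FA X), g ∈ SS.QQ (k + l) X → ∀ (a : X → U)
          (τ : Perm (Fin (2 * (k + l) + mm k l)))
          (v : Fin (2 * (k + l) + mm k l + 1) → U) (r : Fin (2 * (k + l) + mm k l) → U),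
          FA.lift a g * fv (y0 * MonoidAlgebra.of ℤ _ τ) v r = 0 := by
  set C := (catalyst k l).toCatP (xi_ne k l) with hC
  obtain ⟨a1, ha1, z', hz'⟩ := exists_int C.z
  obtain ⟨a2, ha2, E', hE'⟩ := exists_int C.E
  set D := a1 * a2 * ((k + l) * (k + l) + 1).factorial with hDef
  have hD : 0 < D := Nat.mul_pos (Nat.mul_pos ha1 ha2) (Nat.factorial_pos _)
  obtain ⟨zL, hzL⟩ := lift_of_int hD C.z z' a1 ⟨a2 * ((k + l) * (k + l) + 1).factorial, by
    rw [hDef, mul_assoc]⟩ hz'
  obtain ⟨EL, hEL⟩ := lift_of_int hD C.E E' a2 ⟨a1 * ((k + l) * (k + l) + 1).factorial, by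
    rw [hDef]; ring⟩ hE'
  let L : CatL (jL hD) k l (mm k l) := ⟨C, zL, EL, hzL, hEL⟩
  obtain ⟨Y0, hY0, h⟩ := L.P3 hkl
  obtain ⟨e, y0, hy0⟩ := clr Y0
  refine ⟨D, y0, hD, ?_, ?_⟩
  · rw [← mj_ic hD, hy0, mj_smul, map_smul]
    intro h1
    rcases smul_eq_zero.1 h1 with h2 | h2
    · rw [map_pow, jL_int] at h2
      have : ((D : ℤ) : ℚ) ≠ 0 := by exact_mod_cast hD.ne'
      exact this (eq_zero_of_pow_eq_zero h2)
    · exact hY0 h2
  · intro U _ hU hT X g hg a τ v r
    let _ := algU hU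
    have hinv : ∀ x : U, ((k + l) * (k + l) + 1).factorial • x = 0 → x = 0 := by
      intro x hx
      obtain ⟨u, hu⟩ := hU
      have h1 : (D : U) * x = 0 := by
        rw [hDef, Nat.cast_mul, mul_assoc, ← nsmul_eq_mul (((k + l) * (k + l) + 1).factorial) x,
          hx, mul_zero]
      rw [← hu] at h1
      have h2 := congrArg (fun y => ((u⁻¹ : Uˣ) : U) * y) h1
      simpa [← mul_assoc] using h2
    have h1 := h U (typeKL_of hD hU hT) hinv g hg a τ v r
    have h2 : ic D _ (y0 * MonoidAlgebra.of ℤ _ τ)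
        = ((algebraMap ℤ (Lam D) D) ^ e) • (Y0 * MonoidAlgebra.of (Lam D) _ τ) := by
      rw [map_mul, hy0, ic_of, smul_mul_assoc]
    rw [← fv_ic (D := D), h2, fv_lsmul, mul_smul_comm, h1, smul_zero]

end p3

end Pool.PI34.Super
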