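import Pool.Agent.LibPI34.Q1
import Pool.Agent.LibPI34.C0_A4

/-!
PI34, file Q2: restriction of multilinear functions to some of the variables.
-/

set_option linter.unusedSectionVars false
set_option linter.unusedSimpArgs false

namespace Pool.PI34.Super

open Equiv Finset
open Pool.PI34.C0 (capMono)

section lists

variable {R : Type} [Ring R] {m n : ℕ}

theorem mon_list (l : List (Fin m ⊕ R)) : ∀ (n : ℕ) (c : Fin n → Fin m),
    List.ofFn c = l.filterMap Sum.getLeft? → ∃ v : Fin (n + 1) → R, ∀ x : Fin m → R,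
      (l.map (Sum.elim x id)).prod = v 0 * (List.ofFn fun i : Fin n => x (c i) * v i.succ).prod := by
  induction l with
  | nil =>
    intro n c h
    cases n with
    | zero => exact ⟨fun _ => 1, fun x => by simp⟩
    | succ n => rw [List.ofFn_succ] at h; simp at h
  | cons e l ih =>
    intro n c h
    rcases e with i | a
    · rw [List.filterMap_cons_some (f := Sum.getLeft?) (a := Sum.inl i) (b := i) rfl] at h
      cases n with
      | zero => rw [List.ofFn_zero] at h; simp at h
      | succ n =>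
        rw [List.ofFn_succ, List.cons.injEq] at h
        obtain ⟨h0, h1⟩ := h
        obtain ⟨v, hv⟩ := ih n _ h1
        refine ⟨Fin.cons 1 v, fun x => ?_⟩
        rw [List.map_cons, List.prod_cons, hv x, List.ofFn_succ, List.prod_cons, h0]
        simp only [Sum.elim_inl, Fin.cons_zero, Fin.cons_succ, one_mul, mul_assoc]
    · rw [List.filterMap_cons_none rfl] at h
      obtain ⟨v, hv⟩ := ih n c h
      refine ⟨Fin.cons (a * v 0) (fun i => v i.succ), fun x => ?_⟩
      rw [List.map_cons, List.prod_cons, hv x]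
      simp only [Sum.elim_inr, Fin.cons_zero, Fin.cons_succ, id, mul_assoc]

open Classical in
/-- overwrite the variables in the range of `φ` -/
noncomputable def ov (φ : Fin m ↪o Fin n) (x : Fin m → R) (r : Fin n → R) : Fin n → R := fun i =>
  if h : ∃ a, φ a = i then x h.choose else r i

theorem ov_in (φ : Fin m ↪o Fin n) (x : Fin m → R) (r : Fin n → R) (a : Fin m) :
    ov φ x r (φ a) = x a := by
  have h : ∃ b, φ b = φ a := ⟨a, rfl⟩
  unfold ov
  rw [dif_pos h, φ.injective h.choose_spec]

theorem ov_out (φ : Fin m ↪o Fin n) (x : Fin m → R) (r : Fin n → R) (i : Fin n)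
    (h : i ∉ Set.range φ) : ov φ x r i = r i := by
  exact dif_neg (fun h2 => h h2)

open Classical in
theorem mon_res (v : Fin (n + 1) → R) (τ : Perm (Fin n)) (φ : Fin m ↪o Fin n) (r : Fin n → R) :
    ∃ (v' : Fin (m + 1) → R) (τ' : Perm (Fin m)), ∀ x : Fin m → R,
      capMono v (ov φ x r) τ = capMono v' x τ' := by
  let e : Fin n → Fin m ⊕ R := fun i =>
    if h : ∃ a, φ a = i then Sum.inl h.choose else Sum.inr (r i)
  have he : ∀ x i, Sum.elim x id (e i) = ov φ x r i := by
    intro x i
    unfold ov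
    simp only [e]
    split_ifs <;> rfl
  let l : List (Fin m ⊕ R) := Sum.inr (v 0) ::
    (List.ofFn fun i => [e (τ i), Sum.inr (v i.succ)]).flatten
  set s := l.filterMap Sum.getLeft? with hs
  have hs1 : s = (List.ofFn τ).filterMap (fun i => (e i).getLeft?) := by
    rw [hs]
    simp only [l]
    rw [List.filterMap_cons_none rfl, List.filterMap_flatten, List.map_ofFn]
    have h1 : (List.filterMap Sum.getLeft? ∘ fun i => [e (τ i), Sum.inr (v i.succ)])
        = fun i : Fin n => ((e (τ i)).getLeft?).toList := by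
      funext i
      rw [Function.comp_apply]
      rcases h : e (τ i) with a | a <;> simp [h]
    rw [h1, List.filterMap_eq_flatMap_toList, List.flatMap_def, List.map_ofFn]
    rfl
  have hge : ∀ i a, (e i).getLeft? = some a → i = φ a := by
    intro i a h
    simp only [e] at h
    split_ifs at h with h2
    · rw [Sum.getLeft?_inl, Option.some.injEq] at h
      rw [← h, h2.choose_spec]
    · simp at h
  have hge2 : ∀ a, (e (φ a)).getLeft? = some a := by
    intro a
    have h : ∃ b, φ b = φ a := ⟨a, rfl⟩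
    simp only [e]
    rw [dif_pos h, Sum.getLeft?_inl, φ.injective h.choose_spec]
  have hnd : s.Nodup := by
    rw [hs1]
    refine List.Nodup.filterMap (fun i i' a h h' => ?_) ?_
    · rw [hge i a h, hge i' a h']
    · rw [List.nodup_ofFn]
      exact τ.injective
  have hmem : ∀ a, a ∈ s := by
    intro a
    rw [hs1, List.mem_filterMap]
    exact ⟨φ a, (List.mem_ofFn' _ _).2 ⟨τ.symm (φ a), τ.apply_symm_apply _⟩, hge2 a⟩
  have hperm : s.Perm (List.ofFn (1 : Perm (Fin m))) := by
    rw [List.perm_ext_iff_of_nodup hnd (List.nodup_ofFn.2 (Equiv.injective _))]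
    intro a
    exact ⟨fun _ => (List.mem_ofFn' _ _).2 ⟨a, rfl⟩, fun _ => hmem a⟩
  obtain ⟨τ', hτ'⟩ := C0.a4_perm 1 s hperm
  obtain ⟨v', hv'⟩ := mon_list l m τ' hτ'
  refine ⟨v', τ', fun x => ?_⟩
  unfold capMono
  rw [← hv' x]
  simp only [l]
  rw [List.map_cons, List.prod_cons, Sum.elim_inr, id, List.map_flatten, List.map_ofFn,
    List.prod_flatten, List.map_ofFn]
  congr 3
  funext i
  simp only [Function.comp_apply, List.map_cons, List.map_nil, List.prod_cons, List.prod_nil,
    mul_one, Sum.elim_inr, id]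
  rw [he]

end lists

section res

variable {Λ : Type} [CommRing Λ] {R : Type} [Ring R] [Algebra Λ R] {m n : ℕ}

theorem VL_res (F : (Fin n → R) → R) (hF : F ∈ VL Λ R n) (φ : Fin m ↪o Fin n) (r : Fin n → R) :
    (fun x => F (ov φ x r)) ∈ VL Λ R m := by
  unfold VL at hF
  induction hF using Submodule.span_induction with
  | mem G hG =>
    obtain ⟨v, τ, rfl⟩ := hG
    obtain ⟨v', τ', h⟩ := mon_res v τ φ r
    exact Submodule.subset_span ⟨v', τ', funext h⟩
  | zero => exact Submodule.zero_mem _
  | add G H _ _ hG hH => exact Submodule.add_mem _ hG hH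
  | smul c G _ hG => exact Submodule.smul_mem _ c hG

theorem aL_pl_apply (φ : Fin m ↪o Fin n) (y : MonoidAlgebra Λ (Perm (Fin m)))
    (F : VL Λ R n) (r : Fin n → R) :
    (aL Λ R n (plL Λ φ y) F).1 r
      = (aL Λ R m y ⟨fun x => F.1 (ov φ x r), VL_res F.1 F.2 φ r⟩).1 (r ∘ φ) := by
  induction y using MonoidAlgebra.induction_on with
  | of σ =>
    rw [plL_of, aL_of, aL_of]
    change F.1 (r ∘ ext φ σ) = F.1 (ov φ ((r ∘ φ) ∘ σ) r)
    have h1 : r ∘ ext φ σ = ov φ ((r ∘ φ) ∘ σ) r := ?_
    · rw [h1]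
    funext i
    by_cases hi : i ∈ Set.range φ
    · obtain ⟨a, rfl⟩ := hi
      rw [ov_in, Function.comp_apply, ext_apply]
      rfl
    · rw [ov_out _ _ _ _ hi, Function.comp_apply, ext_apply' _ _ _ hi]
  | add x y hx hy =>
    rw [map_add, map_add, map_add, LinearMap.add_apply, LinearMap.add_apply]
    change (aL Λ R n (plL Λ φ x) F).1 r + (aL Λ R n (plL Λ φ y) F).1 r = _
    rw [hx, hy]
    rfl
  | smul c x hx =>
    rw [plL_smul, map_smul, map_smul, LinearMap.smul_apply, LinearMap.smul_apply]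
    change c • (aL Λ R n (plL Λ φ x) F).1 r = _
    rw [hx]
    rfl

theorem aL_pl (φ : Fin m ↪o Fin n) (y : MonoidAlgebra Λ (Perm (Fin m)))
    (hy : aL Λ R m y = 0) : aL Λ R n (plL Λ φ y) = 0 := by
  refine endL_ext fun F r => ?_
  rw [aL_pl_apply, hy]
  rfl

theorem aL_eq_zero (y : MonoidAlgebra Λ (Perm (Fin n)))
    (h : ∀ (τ : Perm (Fin n)) (v : Fin (n + 1) → R) (r : Fin n → R),
      fv (y * MonoidAlgebra.of Λ _ τ) v r = 0) : aL Λ R n y = 0 := by
  refine endL_ext fun F r => ?_
  obtain ⟨F, hF⟩ := F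
  change (aL Λ R n y ⟨F, hF⟩).1 r = 0
  have key : ∀ F (hF : F ∈ VL Λ R n), ∀ r, (aL Λ R n y ⟨F, hF⟩).1 r = 0 := by
    intro F hF
    have hF' := hF
    unfold VL at hF
    induction hF using Submodule.span_induction with
    | mem G hG =>
      intro r
      obtain ⟨v, τ, rfl⟩ := hG
      have h1 : (⟨fun r => capMono v r τ, hF'⟩ : VL Λ R n)
          = sL τ (monV v 1) := rfl
      rw [h1, ← aL_of, ← Module.End.mul_apply, ← map_mul, aL_fv]
      exact h τ v r
    | zero =>
      intro r
      have h1 : (⟨0, hF'⟩ : VL Λ R n) = 0 := rfl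
      rw [h1, map_zero]; rfl
    | add G H hG1 hH1 hG hH =>
      intro r
      have h1 : (⟨G + H, hF'⟩ : VL Λ R n) = ⟨G, hG1⟩ + ⟨H, hH1⟩ := rfl
      rw [h1, map_add]
      change (aL Λ R n y ⟨G, hG1⟩).1 r + (aL Λ R n y ⟨H, hH1⟩).1 r = 0
      rw [hG hG1, hH hH1, add_zero]
    | smul c G hG1 hG =>
      intro r
      have h1 : (⟨c • G, hF'⟩ : VL Λ R n) = c • ⟨G, hG1⟩ := rfl
      rw [h1, map_smul]
      change c • (aL Λ R n y ⟨G, hG1⟩).1 r = 0
      rw [hG hG1, smul_zero]
  exact key F hF r

theorem fv_mul (c y : MonoidAlgebra Λ (Perm (Fin n))) (v : Fin (n + 1) → R) (r : Fin n → R) :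
    fv (c * y) v r = ∑ σ, c.coeff σ • fv y v (r ∘ σ) := by
  rw [← aL_fv, map_mul, Module.End.mul_apply]
  have h : ∀ (c : MonoidAlgebra Λ (Perm (Fin n))) (F : VL Λ R n), (aL Λ R n c F).1 r
      = ∑ σ, c.coeff σ • F.1 (r ∘ σ) := by
    intro c F
    induction c using MonoidAlgebra.induction_on with
    | of g =>
      rw [aL_of, Finset.sum_eq_single g]
      · simp only [MonoidAlgebra.of_apply, MonoidAlgebra.coeff_single, Finsupp.single_eq_same,
          one_smul]
        rfl
      · intro b _ hb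
        simp only [MonoidAlgebra.of_apply, MonoidAlgebra.coeff_single]
        rw [Finsupp.single_eq_of_ne hb, zero_smul]
      · intro h; exact absurd (Finset.mem_univ _) h
    | add x y hx hy =>
      rw [map_add, LinearMap.add_apply]
      change (aL Λ R n x F).1 r + (aL Λ R n y F).1 r = _
      rw [hx, hy, ← Finset.sum_add_distrib]
      refine Finset.sum_congr rfl (fun σ _ => ?_)
      rw [MonoidAlgebra.coeff_add, Finsupp.add_apply, add_smul]
    | smul c x hx =>
      rw [map_smul, LinearMap.smul_apply]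
      change c • (aL Λ R n x F).1 r = _
      rw [hx, Finset.smul_sum]
      refine Finset.sum_congr rfl (fun σ _ => ?_)
      rw [MonoidAlgebra.coeff_smul, Finsupp.smul_apply, smul_smul, smul_eq_mul]
  rw [h]
  exact Finset.sum_congr rfl (fun σ _ => by rw [aL_fv])

end res

end Pool.PI34.Super
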