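import Pool.Agent.LibPI34.St5

/-!
PI34, START, file 6: the START theorem.
-/

set_option linter.unusedSectionVars false
set_option linter.unusedSimpArgs false

namespace Pool.PI34.Super

open Equiv Finset

universe u

/-- the identity of the kernel -/
theorem ker_split (k N : ℕ) : ∃ e e' : MonoidAlgebra ℚ (Perm (Fin N)), e + e' = 1 ∧
    act k k (Fin N) e = 0 ∧ ∀ a, act k k (Fin N) a = 0 → a * e' = 0 := by
  obtain ⟨e, e', hee, he, h0⟩ := left_split (LinearMap.ker (act k k (Fin N)).toLinearMap)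
    (fun c a ha => by
      rw [LinearMap.mem_ker] at ha ⊢
      have ha' : act k k _ a = 0 := ha
      change act k k _ (c * a) = 0
      rw [map_mul, ha', mul_zero])
  exact ⟨e, e', hee, LinearMap.mem_ker.1 he, fun a ha => h0 a (LinearMap.mem_ker.2 ha)⟩

theorem start_core' {k N F : ℕ} {I : Type} [Fintype I] [DecidableEq I]
    (hF : F < Fintype.card I) {Z : MonoidAlgebra ℚ (Perm (Fin N))}
    {Cc : I → MonoidAlgebra ℚ (Perm (Fin N))} {gg : I → Perm (Fin N)}
    (hc : ∀ i j, Z * Cc i * MonoidAlgebra.of ℚ _ (gg j) * Z = if i = j then Z else 0)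
    (hgen : ∀ e, act k k (Fin N) e = 0 → e ∈ IZ Z) :
    ∃ D : ℕ, 0 < D ∧ ∀ D' : ℕ, D ∣ D' → ∀ (P : Type u) [AddCommGroup P]
      (R : MonoidAlgebra ℤ (Perm (Fin N)) →+* AddMonoid.End P),
      (∀ x : P, D' • x = 0 → x = 0) → ∀ f : Fin F → P,
      (∀ x : P, ∃ j : ℕ, D' ^ j • x ∈ AddSubgroup.closure (Set.range f)) →
      ∀ y : MonoidAlgebra ℤ (Perm (Fin N)),
        act k k _ (bc y) = 0 → ∀ x : P, R y x = 0 := by
  classical
  -- integral lifts
  obtain ⟨D1, hD1, z', hz'⟩ := exists_int Z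
  obtain ⟨D2, hD2, c', hc'⟩ := exists_int_fam Cc
  obtain ⟨e, e', hee, he, h0⟩ := ker_split k N
  obtain ⟨D3, hD3, E, hE1, hE2⟩ := IZ_int hD1 hz' (hgen e he)
  refine ⟨D1 * D2 * D3, Nat.mul_pos (Nat.mul_pos hD1 hD2) hD3, ?_⟩
  intro D' hDD P _ R hreg f hf y hy x
  have hregd : ∀ d : ℕ, d ∣ D' → ∀ x : P, d • x = 0 → x = 0 := by
    rintro d ⟨e, he⟩ x hx
    apply hreg
    rw [he, mul_comm, mul_smul, hx, smul_zero]
  have hZ : ∀ x, R z' x = 0 := by
    refine good_lemma R (I := I) (c' := c')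
      (b := fun g => MonoidAlgebra.of ℤ _ (gg g)) (E := D1 * D2) (D := D') ?_
      (hregd _ (dvd_trans (Dvd.intro _ rfl) hDD)) hreg hF f hf
    intro i j
    apply bc_inj
    rw [map_mul, map_mul, map_mul, hz', hc', bc_of]
    simp only [smul_mul_assoc, mul_smul_comm, smul_smul]
    rw [hc]
    split_ifs
    · rw [map_nsmul, hz', ← Nat.cast_smul_eq_nsmul ℚ, smul_smul]
      congr 1
      push_cast; ring
    · rw [map_zero, smul_zero]
  -- the ideal kills
  have hI : ∀ u ∈ IZZ z', ∀ x, R u x = 0 := by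
    intro u hu
    unfold IZZ at hu
    induction hu using AddSubgroup.closure_induction with
    | mem u hu =>
      obtain ⟨a, b, rfl⟩ := hu
      intro x
      rw [map_mul, map_mul]
      change R a (R z' (R b x)) = 0
      rw [hZ, map_zero]
    | zero => intro x; rw [map_zero]; rfl
    | add a b _ _ ha hb => intro x; rw [map_add]; change R a x + R b x = 0; rw [ha, hb, add_zero]
    | neg a _ ha => intro x; rw [map_neg]; change -(R a x) = 0; rw [ha, neg_zero]
  have h3 : y * E = D3 • y := by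
    apply bc_inj
    rw [map_mul, hE2, map_nsmul, ← Nat.cast_smul_eq_nsmul ℚ, mul_smul_comm]
    congr 1
    have h4 : bc y * e' = 0 := h0 _ hy
    have h5 : bc y * (e + e') = bc y := by rw [hee, mul_one]
    rw [mul_add, h4, add_zero] at h5
    exact h5
  apply hregd D3 (dvd_trans (Dvd.intro_left _ rfl) hDD)
  have h4 : R (y * E) x = 0 := by
    rw [map_mul]
    change R y (R E x) = 0
    rw [hI E hE1, map_zero]
  rw [h3, map_nsmul] at h4
  exact h4

theorem start_core {k n F : ℕ} (hF : F < Fintype.card (AG (k + 1))) :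
    ∃ D : ℕ, 0 < D ∧ ∀ D' : ℕ, D ∣ D' → ∀ (P : Type u) [AddCommGroup P]
      (R : MonoidAlgebra ℤ (Perm (Fin (n + (k + 1) * (k + 1)))) →+* AddMonoid.End P),
      (∀ x : P, D' • x = 0 → x = 0) → ∀ f : Fin F → P,
      (∀ x : P, ∃ j : ℕ, D' ^ j • x ∈ AddSubgroup.closure (Set.range f)) →
      ∀ y : MonoidAlgebra ℤ (Perm (Fin (n + (k + 1) * (k + 1)))),
        act k k _ (bc y) = 0 → ∀ x : P, R y x = 0 := by
  classical
  obtain ⟨z, hz, hz2⟩ := exists_rect (k + 1) (k + 1)
  obtain ⟨c, hc⟩ := hz2 (AG (k + 1)) (fun g => pg g.1) (AG_lin (k + 1))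
  refine start_core' (Z := pl (phR n ((k + 1) * (k + 1))) z)
    (Cc := fun i => pl (phR n ((k + 1) * (k + 1))) (c i))
    (gg := fun i => ext (phR n ((k + 1) * (k + 1))) (pg i.1)) hF (fun i j => ?_)
    (fun e he => hook_gen hz he)
  rw [← pl_of, ← map_mul, ← map_mul, ← map_mul, hc i j]
  split_ifs
  · rfl
  · exact map_zero _

/-- the ring map given by a representation -/
noncomputable def repR {G : Type} [Group G] {P : Type u} [AddCommGroup P]
    (ρ : G →* AddMonoid.End P) : MonoidAlgebra ℤ G →+* AddMonoid.End P :=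
  (MonoidAlgebra.lift ℤ (AddMonoid.End P) G ρ).toRingHom

theorem repR_of {G : Type} [Group G] {P : Type u} [AddCommGroup P]
    (ρ : G →* AddMonoid.End P) (g : G) : repR ρ (MonoidAlgebra.of ℤ G g) = ρ g := by
  simp [repR]

/-- START: for all `C, K` there are arbitrarily large `k` such that for all `M` between
`(k+1)^2` and `K (k+1)^2` there is `D > 0` such that for every multiple `D'` of `D` and every
representation of `S_M` on an abelian group `P` without `D'`-torsion which is generated up to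
powers of `D'` by at most `C ^ M` elements, all the elements of `ℤ[S_M]` which vanish in the
`(k|k)` sign representation kill `P`. -/
theorem START (C K k1 : ℕ) : ∃ k ≥ k1, ∀ M : ℕ, (k + 1) * (k + 1) ≤ M →
    M ≤ K * ((k + 1) * (k + 1)) → ∃ D : ℕ, 0 < D ∧ ∀ D' : ℕ, D ∣ D' →
    ∀ (P : Type u) [AddCommGroup P] (ρ : Perm (Fin M) →* AddMonoid.End P),
      (∀ x : P, D' • x = 0 → x = 0) → ∀ F : ℕ, F ≤ C ^ M → ∀ f : Fin F → P,
      (∀ x : P, ∃ j : ℕ, D' ^ j • x ∈ AddSubgroup.closure (Set.range f)) →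
      ∀ y : MonoidAlgebra ℤ (Perm (Fin M)),
        act k k (Fin M) (MonoidAlgebra.mapRingHom _ (Int.castRingHom ℚ) y) = 0 →
        ∀ x : P, MonoidAlgebra.lift ℤ (AddMonoid.End P) (Perm (Fin M)) ρ y x = 0 := by
  classical
  obtain ⟨b0, hb0⟩ := size_cond (C + 1) K
  set b := max b0 (k1 + 1) with hb
  have hbb : k1 + 1 ≤ b := le_max_right _ _
  refine ⟨2 * b - 1, by omega, ?_⟩
  have hk : 2 * b - 1 + 1 = 2 * b := by omega
  have hsz := hb0 b (le_max_left _ _)
  rw [← hk] at hsz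
  generalize 2 * b - 1 = k at *
  intro M hM1 hM2
  obtain ⟨n, rfl⟩ := Nat.exists_eq_add_of_le' hM1
  set M := n + (k + 1) * (k + 1) with hM
  -- one D for all F
  have hCF : ∀ F ≤ C ^ M, F < Fintype.card (AG (k + 1)) := by
    intro F hF
    refine lt_of_le_of_lt ?_ hsz
    calc F ≤ C ^ M := hF
      _ ≤ (C + 1) ^ M := Nat.pow_le_pow_left (Nat.le_succ _) _
      _ ≤ (C + 1) ^ (K * ((k + 1) * (k + 1))) := Nat.pow_le_pow_right (Nat.succ_pos _) hM2
  obtain ⟨D, hD, h⟩ := start_core.{u} (k := k) (n := n) (hCF (C ^ M) le_rfl)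
  refine ⟨D, hD, ?_⟩
  intro D' hDD P _ ρ hreg F hF f hf y hy x
  -- pad the family
  let f' : Fin (C ^ M) → P := fun i => if h : i.val < F then f ⟨i.val, h⟩ else 0
  refine h D' hDD P (repR ρ) hreg f' (fun x => ?_) y hy x
  obtain ⟨j, hj⟩ := hf x
  refine ⟨j, AddSubgroup.closure_mono ?_ hj⟩
  rintro _ ⟨i, rfl⟩
  refine ⟨⟨i.val, lt_of_lt_of_le i.2 hF⟩, ?_⟩
  simp only [f', i.2, dif_pos]

end Pool.PI34.Super
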