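import Pool.Agent.LibPI34.Q2
import Pool.Agent.LibPI34.St6
import Pool.Agent.LibPI34.C0_B2

/-!
PI34, file Q3: a ring with a polynomial identity is rationally of type `(k|k)` for large `k`.
-/

set_option linter.unusedSectionVars false
set_option linter.unusedSimpArgs false

namespace Pool.PI34.Super

open Equiv Finset
open Pool.PI34.C0 (capMono mono)

section ideal

variable (R : Type) [Ring R] (M : ℕ)

/-- the elements of `ℤ[S_M]` which vanish on `R` up to torsion -/
def IR : Ideal (MonoidAlgebra ℤ (Perm (Fin M))) where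
  carrier := {y | ∃ N : ℕ, 0 < N ∧ ∀ (v : Fin (M + 1) → R) (x : Fin M → R), N • fv y v x = 0}
  zero_mem' := ⟨1, one_pos, fun v x => by simp [fv]⟩
  add_mem' := by
    rintro a b ⟨N, hN, ha⟩ ⟨N', hN', hb⟩
    refine ⟨N * N', Nat.mul_pos hN hN', fun v x => ?_⟩
    have h1 : fv (a + b) v x = fv a v x + fv b v x := by
      unfold fv
      rw [← Finset.sum_add_distrib]
      refine Finset.sum_congr rfl (fun σ _ => ?_)
      rw [MonoidAlgebra.coeff_add, Finsupp.add_apply, add_smul]
    rw [h1, smul_add, mul_comm N N', mul_smul, ha, smul_zero, zero_add, mul_comm N' N, mul_smul,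
      hb, smul_zero]
  smul_mem' := by
    rintro c y ⟨N, hN, hy⟩
    refine ⟨N, hN, fun v x => ?_⟩
    rw [smul_eq_mul, fv_mul, Finset.smul_sum]
    refine Finset.sum_eq_zero (fun σ _ => ?_)
    rw [smul_comm, hy, smul_zero]

theorem mem_IR (y : MonoidAlgebra ℤ (Perm (Fin M))) : y ∈ IR R M ↔
    ∃ N : ℕ, 0 < N ∧ ∀ (v : Fin (M + 1) → R) (x : Fin M → R), N • fv y v x = 0 := Iff.rfl

/-- the quotient -/
abbrev QR : Type := MonoidAlgebra ℤ (Perm (Fin M)) ⧸ IR R M

theorem QR_tf (n : ℤ) (hn : n ≠ 0) (q : QR R M) (hq : n • q = 0) : q = 0 := by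
  obtain ⟨y, rfl⟩ := Submodule.Quotient.mk_surjective _ q
  rw [← Submodule.Quotient.mk_smul, Submodule.Quotient.mk_eq_zero] at hq
  rw [Submodule.Quotient.mk_eq_zero]
  obtain ⟨N, hN, h⟩ := hq
  refine ⟨N * n.natAbs, Nat.mul_pos hN (Int.natAbs_pos.2 hn), fun v x => ?_⟩
  have h1 := h v x
  rw [fv_zsmul] at h1
  have h2 : ((N * n.natAbs : ℕ) : ℤ) = n.sign * (N * n) := by
    push_cast
    rcases lt_or_gt_of_ne hn with h3 | h3
    · rw [Int.sign_eq_neg_one_of_neg h3, abs_of_neg h3]; ring
    · rw [Int.sign_eq_one_of_pos h3, abs_of_pos h3]; ring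
  rw [← natCast_zsmul, h2, mul_smul, mul_smul, natCast_zsmul, h1, smul_zero]

theorem QR_fin : Module.Finite ℤ (QR R M) := by
  classical
  have h1 : Module.Finite ℤ (MonoidAlgebra ℤ (Perm (Fin M))) := by
    refine ⟨⟨univ.image (fun g => MonoidAlgebra.of ℤ (Perm (Fin M)) g), ?_⟩⟩
    rw [eq_top_iff]
    intro y _
    induction y using MonoidAlgebra.induction_on with
    | of g => exact Submodule.subset_span (by simp)
    | add x y hx hy => exact Submodule.add_mem _ (hx trivial) (hy trivial)
    | smul r x hx => exact Submodule.smul_mem _ _ (hx trivial)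
  let f : MonoidAlgebra ℤ (Perm (Fin M)) →ₗ[ℤ] QR R M :=
    (Submodule.mkQ (IR R M)).toAddMonoidHom.toIntLinearMap
  exact Module.Finite.of_surjective f (Submodule.Quotient.mk_surjective _)

/-- the function of the monomials -/
def Psi (ι : Perm (Fin M) → Perm (Fin (2 * M + 1))) :
    MonoidAlgebra ℤ (Perm (Fin M)) →ₗ[ℤ] ((Fin (2 * M + 1) → R) → R) where
  toFun c := fun z => ∑ σ, c.coeff σ • mono z (ι σ)
  map_add' a b := by
    funext z
    rw [Pi.add_apply, ← Finset.sum_add_distrib]
    refine Finset.sum_congr rfl (fun σ _ => ?_)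
    rw [MonoidAlgebra.coeff_add, Finsupp.add_apply, add_smul]
  map_smul' n a := by
    funext z
    rw [Pi.smul_apply, RingHom.id_apply, Finset.smul_sum]
    refine Finset.sum_congr rfl (fun σ _ => ?_)
    rw [MonoidAlgebra.coeff_smul, Finsupp.smul_apply, smul_smul, smul_eq_mul]

theorem QR_gen (d : ℕ) (a : Perm (Fin (d + 1)) → ℤ) (ha : a 1 = 1)
    (hPI : ∀ x : Fin (d + 1) → R, ∑ σ, a σ • mono x σ = 0) :
    ∃ F ≤ d ^ (2 * (2 * M + 1)), ∃ f : Fin F → QR R M,
      AddSubgroup.closure (Set.range f) = ⊤ := by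
  classical
  have := QR_fin R M
  have htf : Module.IsTorsionFree ℤ (QR R M) := by
    refine Module.isTorsionFree_iff_smul_eq_zero.2 (fun n q h => ?_)
    by_cases hn : n = 0
    · exact Or.inl hn
    · exact Or.inr (QR_tf R M n hn q h)
  have hfree : Module.Free ℤ (QR R M) := inferInstance
  let b := Module.finBasis ℤ (QR R M)
  refine ⟨Module.finrank ℤ (QR R M), ?_, b, ?_⟩
  · obtain ⟨ι, hι, hcap⟩ := C0.capMono_eq_mono M
    choose c hc using fun i => Submodule.Quotient.mk_surjective (IR R M) (b i)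
    let Ψ := Psi R M ι
    have hlin : LinearIndependent ℤ (fun i => Ψ (c i)) := by
      rw [Fintype.linearIndependent_iff]
      intro g hg
      have h1 : Ψ (∑ i, g i • c i) = 0 := by
        rw [map_sum, ← hg]
        exact Finset.sum_congr rfl (fun i _ => map_zsmul Ψ _ _)
      have h2 : (∑ i, g i • c i) ∈ IR R M := by
        refine ⟨1, one_pos, fun v x => ?_⟩
        obtain ⟨z, _, hz⟩ := hcap v x
        rw [one_smul]
        have h3 := congrFun h1 z
        change ∑ σ, (∑ i, g i • c i).coeff σ • mono z (ι σ) = 0 at h3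
        unfold fv
        rw [← h3]
        exact Finset.sum_congr rfl (fun σ _ => by rw [hz])
      have h3 : ∑ i, g i • b i = 0 := by
        rw [← (Submodule.Quotient.mk_eq_zero _).2 h2]
        have h4 : (Submodule.Quotient.mk (∑ i, g i • c i) : QR R M)
            = ∑ i, g i • (Submodule.Quotient.mk (c i) : QR R M) := by
          change (Submodule.mkQ (IR R M)).toAddMonoidHom (∑ i, g i • c i) = _
          rw [map_sum]
          exact Finset.sum_congr rfl (fun i _ => map_zsmul _ _ _)
        rw [h4]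
        exact Finset.sum_congr rfl (fun i _ => by rw [hc])
      exact (Fintype.linearIndependent_iff.1 b.linearIndependent) g h3
    let w : Set ((Fin (2 * M + 1) → R) → R) :=
      Set.range (fun τ : {σ : Perm (Fin (2 * M + 1)) // C0.Good (d + 1) σ} =>
        (fun z => mono z τ.1 : (Fin (2 * M + 1) → R) → R))
    have hw : Set.range (fun i => Ψ (c i)) ≤ (Submodule.span ℤ w : Set _) := by
      rintro _ ⟨i, rfl⟩
      obtain ⟨c1, hc1⟩ := C0.b2_push ι (fun σ => (c i).coeff σ)
      obtain ⟨c', hc', hred⟩ := C0.reduce_good (⊤ : NonUnitalSubring R) a ha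
        (fun x _ => hPI x) c1
      have h1 : Ψ (c i) = ∑ τ, c' τ • (fun z => mono z τ : (Fin (2 * M + 1) → R) → R) := by
        funext z
        rw [Finset.sum_apply]
        change ∑ σ, (c i).coeff σ • mono z (ι σ) = ∑ τ, c' τ • mono z τ
        rw [← hred z (fun _ => trivial), hc1]
      change Ψ (c i) ∈ Submodule.span ℤ w
      rw [h1]
      refine Submodule.sum_mem _ (fun τ _ => ?_)
      by_cases h2 : c' τ = 0
      · rw [h2, zero_smul]; exact Submodule.zero_mem _
      · exact Submodule.smul_mem _ _ (Submodule.subset_span ⟨⟨τ, hc' τ h2⟩, rfl⟩)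
    have h1 := linearIndependent_le_span' _ hlin w hw
    rw [Cardinal.mk_fintype, Fintype.card_fin, Nat.cast_le] at h1
    refine h1.trans ?_
    have h2 : Fintype.card w ≤ Fintype.card {σ : Perm (Fin (2 * M + 1)) // C0.Good (d + 1) σ} :=
      Fintype.card_range_le _
    refine h2.trans ?_
    have h3 := C0.card_good_le d (2 * M + 1)
    rw [Nat.card_eq_fintype_card] at h3
    exact h3
  · rw [eq_top_iff]
    intro q _
    rw [← b.sum_repr q]
    exact AddSubgroup.sum_mem _ (fun i _ => AddSubgroup.zsmul_mem _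
      (AddSubgroup.subset_closure (Set.mem_range_self i)) _)

end ideal

end Pool.PI34.Super
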