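import Pool.Agent.LibPI34.Q3

/-!
PI34, file Q4: THE START over the rationals.
-/

set_option linter.unusedSectionVars false
set_option linter.unusedSimpArgs false

namespace Pool.PI34.Super

open Equiv Finset
open Pool.PI34.C0 (capMono mono)

theorem bc_plL {κ ι : Type} [Fintype κ] [LinearOrder κ] [Fintype ι] [LinearOrder ι]
    (φ : κ ↪o ι) (y : MonoidAlgebra ℤ (Perm κ)) : bc (plL ℤ φ y) = pl φ (bc y) :=
  mj_plL (Int.castRingHom ℚ) φ y

section down

variable {N k l : ℕ} {U : Type} [Ring U]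

theorem KN_pred {n : ℕ} (h : KN N k l (n + 1) U) : KN N k l n U := by
  intro y hy v r
  have h1 : act k l _ (bc (plL ℤ (ph1 n 0) y)) = 0 := by
    rw [bc_plL]
    apply LinearMap.ext
    intro f
    funext w
    rw [act_pl (conv_ph1 n 0)]
    have hy' : act k l (Fin (n + 0)) (bc y) = 0 := hy
    rw [hy']
    rfl
  have h2 := h (plL ℤ (ph1 n 0) y) h1 (Fin.cons 1 v) (Fin.cons 1 r)
  have h3 := fv_pl (q := n) (m := 0) y (Fin.cons 1 v : Fin (n + 1 + 1) → U)
    (Fin.cons 1 r : Fin (n + 1) → U)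
  rw [h3] at h2
  have e1 : (Fin.cons 1 v : Fin (n + 1 + 1) → U) 0 = 1 := rfl
  have e2 : (Fin.cons 1 r : Fin (n + 1) → U) ⟨0, by omega⟩ = 1 := rfl
  rw [e1, e2, one_mul, one_mul] at h2
  exact h2

theorem KN_le {n n' : ℕ} (hn : n ≤ n') (h : KN N k l n' U) : KN N k l n U := by
  induction n' with
  | zero => rw [Nat.le_zero.1 hn]; exact h
  | succ n' ih =>
    rcases Nat.lt_or_ge n (n' + 1) with h1 | h1
    · exact ih (by omega) (KN_pred h)
    · have : n = n' + 1 := le_antisymm hn h1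
      rw [this]; exact h

theorem KN_mul {n N' : ℕ} (h : KN N k l n U) : KN (N' * N) k l n U := by
  intro y hy v r
  rw [mul_smul, h y hy v r, smul_zero]

end down

section start

variable {R : Type} [Ring R]

theorem fv_eq_aL {n : ℕ} (c : ℕ) (y : MonoidAlgebra ℤ (Perm (Fin n))) (v : Fin (n + 1) → R)
    (r : Fin n → R) (h : c • aL ℤ R n y = 0) : c • fv y v r = 0 := by
  rw [← aL_fv]
  have h1 := congrFun (congrArg Subtype.val (LinearMap.congr_fun h (monV v 1))) r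
  exact h1

theorem up {k M : ℕ} {z : MonoidAlgebra ℚ (Perm (Fin ((k + 1) * (k + 1))))}
    (hz : RectZ (k + 1) (k + 1) z) {z' : MonoidAlgebra ℤ (Perm (Fin ((k + 1) * (k + 1))))}
    {D1 : ℕ} (hD1 : 0 < D1) (hz' : bc z' = (D1 : ℚ) • z) {N1 : ℕ} (hN1 : 0 < N1)
    (hk : aL ℤ R ((k + 1) * (k + 1)) (N1 • z') = 0) (n' : ℕ) :
    ∃ N, 0 < N ∧ KN N k k (n' + (k + 1) * (k + 1)) R := by
  obtain ⟨e, e', hee, he, h0⟩ := ker_split k (n' + (k + 1) * (k + 1))
  have hZ : bc (plL ℤ (phR n' ((k + 1) * (k + 1))) z')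
      = (D1 : ℚ) • pl (phR n' ((k + 1) * (k + 1))) z := by
    rw [bc_plL, hz', map_smul]
  obtain ⟨E, hE, E', hE1, hE2⟩ := IZ_int hD1 hZ (hook_gen hz he)
  have h1 := aL_pl (phR n' ((k + 1) * (k + 1))) (N1 • z') hk
  rw [map_nsmul, map_nsmul] at h1
  have h2 : N1 • aL ℤ R (n' + (k + 1) * (k + 1)) E' = 0 := by
    unfold IZZ at hE1
    clear hE2
    induction hE1 using AddSubgroup.closure_induction with
    | mem u hu =>
      obtain ⟨a, b, rfl⟩ := hu
      rw [map_mul, map_mul, ← smul_mul_assoc, ← mul_smul_comm, h1, mul_zero, zero_mul]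
    | zero => rw [map_zero, smul_zero]
    | add a b _ _ ha hb => rw [map_add, smul_add, ha, hb, add_zero]
    | neg a _ ha =>
      rw [map_neg, smul_neg, ha]
      exact neg_zero (G := Module.End ℤ (VL ℤ R (n' + (k + 1) * (k + 1))))
  refine ⟨N1 * E, Nat.mul_pos hN1 hE, fun y hy v r => ?_⟩
  have h3 : y * E' = E • y := by
    apply bc_inj
    rw [map_mul, hE2, map_nsmul, ← Nat.cast_smul_eq_nsmul ℚ, mul_smul_comm]
    congr 1
    have h4 : bc y * e' = 0 := h0 _ hy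
    calc bc y * e = bc y * e + bc y * e' := by rw [h4, add_zero]
      _ = bc y * (e + e') := (mul_add _ _ _).symm
      _ = bc y := by rw [hee, mul_one]
  apply fv_eq_aL
  rw [mul_smul, ← map_nsmul (aL ℤ R (n' + (k + 1) * (k + 1))) E y, ← h3, map_mul,
    ← mul_smul_comm, h2, mul_zero]

end start

/-- THE START: a ring with an identity of degree `d + 1` is rationally of type `(k|k)` in every
degree. -/
theorem start_Q (d : ℕ) : ∃ k : ℕ, 0 < k ∧ ∀ (R : Type) [Ring R] (a : Perm (Fin (d + 1)) → ℤ),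
    a 1 = 1 → (∀ x : Fin (d + 1) → R, ∑ σ, a σ • mono x σ = 0) →
    ∀ q : ℕ, ∃ N : ℕ, 0 < N ∧ ∀ n ≤ q, KN N k k n R := by
  classical
  obtain ⟨b0, hb0⟩ := size_cond ((d + 1) ^ 6) 1
  set b := max b0 1 with hb
  have hbb : 1 ≤ b := le_max_right _ _
  refine ⟨2 * b - 1, by omega, ?_⟩
  have hk : 2 * b - 1 + 1 = 2 * b := by omega
  have hsz := hb0 b (le_max_left _ _)
  rw [← hk] at hsz
  generalize 2 * b - 1 = k at *
  intro R _ a ha hPI q
  obtain ⟨z, hz, hz2⟩ := exists_rect (k + 1) (k + 1)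
  obtain ⟨c, hc⟩ := hz2 (AG (k + 1)) (fun g => pg g.1) (AG_lin (k + 1))
  obtain ⟨D1, hD1, z', hz'⟩ := exists_int z
  obtain ⟨D2, hD2, c', hc'⟩ := exists_int_fam c
  obtain ⟨F, hF, f, hf⟩ := QR_gen R ((k + 1) * (k + 1)) d a ha hPI
  have hM : 1 ≤ (k + 1) * (k + 1) := Nat.mul_pos (Nat.succ_pos _) (Nat.succ_pos _)
  have hF2 : F < Fintype.card (AG (k + 1)) := by
    refine lt_of_le_of_lt hF (lt_of_le_of_lt ?_ hsz)
    calc d ^ (2 * (2 * ((k + 1) * (k + 1)) + 1))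
        ≤ (d + 1) ^ (2 * (2 * ((k + 1) * (k + 1)) + 1)) := Nat.pow_le_pow_left (by omega) _
      _ ≤ (d + 1) ^ (6 * (1 * ((k + 1) * (k + 1)))) :=
          Nat.pow_le_pow_right (by omega) (by omega)
      _ = ((d + 1) ^ 6) ^ (1 * ((k + 1) * (k + 1))) := by rw [pow_mul]
  have hrel : ∀ i j : AG (k + 1), z' * c' i * MonoidAlgebra.of ℤ _ (pg j.1) * z'
      = if i = j then (D1 * D2) • z' else 0 := by
    intro i j
    apply bc_inj
    rw [map_mul, map_mul, map_mul, hz', hc', bc_of]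
    simp only [smul_mul_assoc, mul_smul_comm, smul_smul]
    rw [hc]
    split_ifs
    · rw [map_nsmul, hz', ← Nat.cast_smul_eq_nsmul ℚ, smul_smul]
      congr 1
      push_cast; ring
    · rw [map_zero, smul_zero]
  have hnt : ∀ E : ℕ, 0 < E → ∀ x : QR R ((k + 1) * (k + 1)), E • x = 0 → x = 0 := by
    intro E hE x hx
    refine QR_tf R _ (E : ℤ) (by exact_mod_cast hE.ne') x ?_
    rw [natCast_zsmul]; exact hx
  have hkill : ∀ x : QR R ((k + 1) * (k + 1)), z' • x = 0 := by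
    intro x
    exact good_lemma (Module.toAddMonoidEnd (MonoidAlgebra ℤ (Perm (Fin ((k + 1) * (k + 1)))))
      (QR R ((k + 1) * (k + 1)))) (I := AG (k + 1)) (c' := c')
      (b := fun g => MonoidAlgebra.of ℤ _ (pg g.1)) (E := D1 * D2) (D := 1) hrel
      (hnt _ (Nat.mul_pos hD1 hD2)) (hnt 1 one_pos) hF2 f
      (fun x => ⟨0, by rw [hf]; trivial⟩) x
  have hN : ∀ τ : Perm (Fin ((k + 1) * (k + 1))), ∃ N : ℕ, 0 < N ∧
      ∀ (v : Fin ((k + 1) * (k + 1) + 1) → R) (x : Fin ((k + 1) * (k + 1)) → R),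
        N • fv (z' * MonoidAlgebra.of ℤ _ τ) v x = 0 := by
    intro τ
    have h1 := hkill (Submodule.Quotient.mk (MonoidAlgebra.of ℤ _ τ))
    rw [← Submodule.Quotient.mk_smul, Submodule.Quotient.mk_eq_zero] at h1
    exact h1
  choose Nt hNt hNt2 using hN
  have hk : aL ℤ R ((k + 1) * (k + 1)) ((∏ τ, Nt τ) • z') = 0 := by
    apply aL_eq_zero
    intro τ v r
    have h1 : (∏ τ, Nt τ) • z' * MonoidAlgebra.of ℤ _ τ
        = ((∏ τ' ∈ univ.erase τ, Nt τ' : ℕ) : ℤ) • ((Nt τ : ℤ) • (z' * MonoidAlgebra.of ℤ _ τ)) := by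
      rw [smul_smul, smul_mul_assoc, ← natCast_zsmul]
      congr 1
      rw [← Finset.prod_erase_mul _ _ (Finset.mem_univ τ)]
      push_cast
      rfl
    rw [h1, fv_zsmul, fv_zsmul, natCast_zsmul (fv _ v r), hNt2, smul_zero]
  obtain ⟨N, hN, h⟩ := up (M := 0) hz hD1 hz' (Finset.prod_pos (fun τ _ => hNt τ)) hk q
  exact ⟨N, hN, fun n hn => KN_le (by omega) h⟩

end Pool.PI34.Super
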