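import Pool.Agent.LibPI34.Rl8

/-!
PI34, general rational lemma, file 1: `d` full alphabets.
-/

set_option linter.unusedSectionVars false
set_option linter.unusedSimpArgs false

namespace Pool.PI34.Super

open Equiv Finset

variable {k l n m : ℕ}

/-- A permutation of `α` transported along an embedding. -/
noncomputable def viaG {α : Type} (P : α → Fin n) (hP : Function.Injective P) (ρ : Perm α) :
    Perm (Fin n) := by
  classical
  exact Perm.viaEmbedding ρ ⟨P, hP⟩

theorem viaG_apply {α : Type} (P : α → Fin n) (hP : Function.Injective P) (ρ : Perm α)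
    (c : α) : viaG P hP ρ (P c) = P (ρ c) :=
  Perm.viaEmbedding_apply ρ ⟨P, hP⟩ c

theorem viaG_apply' {α : Type} (P : α → Fin n) (hP : Function.Injective P) (ρ : Perm α)
    {x : Fin n} (hx : ∀ c, P c ≠ x) : viaG P hP ρ x = x :=
  Perm.viaEmbedding_apply_of_notMem ρ ⟨P, hP⟩ x (by rintro ⟨c, hc⟩; exact hx c hc)

theorem viaG_conj {α : Type} (P P' : α → Fin n) (hP : Function.Injective P)
    (hP' : Function.Injective P')
    (τ : Perm (Fin n)) (h : ∀ c, τ (P c) = P' c) (ρ : Perm α) :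
    τ * viaG P hP ρ * τ⁻¹ = viaG P' hP' ρ := by
  apply Equiv.ext
  intro x
  rw [Perm.mul_apply, Perm.mul_apply]
  by_cases hx : ∃ c, P' c = x
  · obtain ⟨c, rfl⟩ := hx
    have h1 : τ⁻¹ (P' c) = P c := by rw [← h c]; exact inv_app' τ _
    rw [h1, viaG_apply, viaG_apply, h]
  · push Not at hx
    have h1 : ∀ c, P c ≠ τ⁻¹ x := by
      intro c e
      apply hx c
      rw [← h c, e]; exact app_inv' τ _
    rw [viaG_apply' P hP ρ h1, viaG_apply' P' hP' ρ hx]
    exact app_inv' τ _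

theorem viaG_mul {α : Type} (P : α → Fin n) (hP : Function.Injective P) (ρ ρ' : Perm α) :
    viaG P hP (ρ * ρ') = viaG P hP ρ * viaG P hP ρ' := by
  apply Equiv.ext
  intro x
  rw [Perm.mul_apply]
  by_cases hx : ∃ c, P c = x
  · obtain ⟨c, rfl⟩ := hx
    rw [viaG_apply, viaG_apply, viaG_apply]; rfl
  · push Not at hx
    rw [viaG_apply' P hP _ hx, viaG_apply' P hP _ hx, viaG_apply' P hP _ hx]

/-- the block permutation of `Fin d × α` -/
def bp {d : ℕ} {α : Type} (ρ : Fin d → Perm α) : Perm (Fin d × α) := Equiv.prodCongrRight ρ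

/-- the sign of a family -/
def sgF {d : ℕ} (ρ : Fin d → Perm (Lt k l)) : ℚ := ∏ i, ((Perm.sign (ρ i) : ℤ) : ℚ)

/-- `Y` acts on the vectors `e_v ⊗ ξ` as the plain antisymmetrizer of `d` full alphabets. -/
def IsAltF (C : Cat k l m) {d : ℕ} (P : Fin d × Lt k l → Fin n) (hP : Function.Injective P)
    (Y : MonoidAlgebra ℚ (Perm (Fin (n + m)))) : Prop :=
  ∀ v : Fin n → Lt k l, act k l _ Y (tn v C.ξ)
    = ∑ ρ : Fin d → Perm (Lt k l), sgF ρ • tn (v ∘ ⇑(viaG P hP (bp ρ))) C.ξ

theorem exists_perm_gen {α : Type} {P P' : α → Fin n} (hP : Function.Injective P)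
    (hP' : Function.Injective P') : ∃ τ : Perm (Fin n), ∀ c, τ (P c) = P' c := by
  classical
  let e : {x // x ∈ Set.range P} ≃ {x // x ∈ Set.range P'} :=
    (Equiv.ofInjective _ hP).symm.trans (Equiv.ofInjective _ hP')
  refine ⟨e.extendSubtype, fun s => ?_⟩
  have := e.extendSubtype_apply_of_mem (P s) ⟨s, rfl⟩
  rw [this]
  change ((Equiv.ofInjective _ hP') ((Equiv.ofInjective _ hP).symm
    ⟨P s, ⟨s, rfl⟩⟩) : Fin n) = P' s
  have h2 : (Equiv.ofInjective _ hP).symm ⟨P s, ⟨s, rfl⟩⟩ = s := by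
    rw [Equiv.symm_apply_eq]; rfl
  rw [h2]; rfl

/-- The contraction with `d` full determinants. -/
noncomputable def DF {d : ℕ} (P : Fin d × Lt k l → Fin n) (g : W k l (Fin n)) : W k l (Fin n) :=
  fun w => ∑ ρ : Fin d → Perm (Lt k l), sgF ρ * g (Function.extend P (fun x => ρ x.1 x.2) w)

theorem Drows_ne {q : ℕ} {lam : Fin q → Lt k l} {r : ℕ} {p : Fin r → Fin q → Fin n}
    (hp : Function.Injective (fun x : Fin r × Fin q => p x.1 x.2)) {y : W k l (Fin n)}
    {w : Fin n → Lt k l} (h : Drows lam r p y w ≠ 0) :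
    ∃ w', y w' ≠ 0 ∧ (∀ i j, ∃ c, w' (p i j) = lam c) ∧ (∀ x, (∀ i j, p i j ≠ x) → w' x = w x) := by
  rw [Drows_apply lam r p hp] at h
  obtain ⟨π, _, hπ⟩ := Finset.exists_ne_zero_of_sum_ne_zero h
  refine ⟨_, right_ne_zero_of_mul hπ, fun i j => ⟨π i j, ?_⟩, fun x hx => ?_⟩
  · have := hp.extend_apply (fun x : Fin r × Fin q => lam (π x.1 x.2)) w (i, j)
    exact this
  · rw [Function.extend_apply']
    rintro ⟨i, hi⟩; exact hx i.1 i.2 hi

/-- `d` full determinant contractions of a suitable vector do not vanish. -/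
theorem exists_DF {d : ℕ} {g : W k l (Fin n)} {O : Fin n → Bool} (hg : QQ univ g d d)
    (hO : ∀ v, g v ≠ 0 → pv v = O) :
    ∃ P : Fin d × Lt k l → Fin n, Function.Injective P ∧ DF P g ≠ 0 := by
  classical
  obtain ⟨p, hp1, hp2, hp3⟩ := rows_ev d univ g 0 d (by rw [zero_add]; exact hg)
  obtain ⟨p', hp'1, hp'2, hp'3⟩ := rows_od d _ _ 0 0 (by rw [zero_add]; exact hp3)
  have hdis : ∀ (x : Fin d × Fin k) (x' : Fin d × Fin l), p x.1 x.2 ≠ p' x'.1 x'.2 := by
    intro x x' e
    have := hp'2 x'.1 x'.2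
    rw [Finset.mem_sdiff, Finset.mem_image] at this
    exact this.2 ⟨x, Finset.mem_univ _, e⟩
  let P : Fin d × Lt k l → Fin n := fun x => Sum.elim (p x.1) (p' x.1) x.2
  have hP : Function.Injective P := by
    rintro ⟨i, a | a⟩ ⟨j, b | b⟩ h
    · have := @hp1 (i, a) (j, b) h
      simp only [Prod.mk.injEq] at this
      rw [this.1, this.2]
    · exact absurd h (hdis (i, a) (j, b))
    · exact absurd h.symm (hdis (j, b) (i, a))
    · have := @hp'1 (i, a) (j, b) h
      simp only [Prod.mk.injEq] at this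
      rw [this.1, this.2]
  refine ⟨P, hP, ?_⟩
  obtain ⟨w, hw⟩ := Function.ne_iff.1 hp'3.ne
  have hw' : Drows (Sum.inr : Fin l → Lt k l) d p' (Drows (Sum.inl : Fin k → Lt k l) d p g) w
    ≠ 0 := hw
  -- parity of the positions
  obtain ⟨w1, hw1, e1, f1⟩ := Drows_ne hp'1 hw'
  obtain ⟨w2, hw2, e2, f2⟩ := Drows_ne hp1 hw1
  have hO2 := hO w2 hw2
  have cs : ∀ i j, O (p i j) = false := by
    intro i j
    rw [← hO2]
    obtain ⟨c, hc⟩ := e2 i j
    unfold pv; rw [hc]; rfl
  have cs' : ∀ i j, O (p' i j) = true := by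
    intro i j
    rw [← hO2]
    obtain ⟨c, hc⟩ := e1 i j
    unfold pv
    rw [f2 _ (fun a b => hdis (a, b) (i, j)), hc]; rfl
  intro h0
  apply hw'
  have h1 := congrFun h0 w
  unfold DF at h1
  rw [Pi.zero_apply] at h1
  rw [← h1, Drows_apply _ _ _ hp'1]
  simp only [Drows_apply _ _ _ hp1]
  have hword : ∀ (π : Fin d → Perm (Fin k)) (π' : Fin d → Perm (Fin l)),
      Function.extend (fun x : Fin d × Fin k => p x.1 x.2)
        (fun x => (Sum.inl (π x.1 x.2) : Lt k l))
        (Function.extend (fun x : Fin d × Fin l => p' x.1 x.2)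
          (fun x => (Sum.inr (π' x.1 x.2) : Lt k l)) w)
      = Function.extend P (fun x => (Perm.sumCongr (π x.1) (π' x.1) : Perm (Fin k ⊕ Fin l)) x.2)
        w := by
    intro π π'
    funext t
    by_cases h1 : ∃ a : Fin d × Fin k, p a.1 a.2 = t
    · obtain ⟨a, rfl⟩ := h1
      have e1 := hp1.extend_apply (fun x : Fin d × Fin k => (Sum.inl (π x.1 x.2) : Lt k l))
        (Function.extend (fun x : Fin d × Fin l => p' x.1 x.2)
          (fun x => (Sum.inr (π' x.1 x.2) : Lt k l)) w) a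
      rw [e1]
      have e2 := hP.extend_apply (fun x : Fin d × Lt k l =>
        (Perm.sumCongr (π x.1) (π' x.1) : Perm (Fin k ⊕ Fin l)) x.2) w (a.1, Sum.inl a.2)
      have e3 : P (a.1, Sum.inl a.2) = p a.1 a.2 := rfl
      rw [e3] at e2
      rw [e2]; simp
    · rw [Function.extend_apply' _ _ _ h1]
      by_cases h2 : ∃ a : Fin d × Fin l, p' a.1 a.2 = t
      · obtain ⟨a, rfl⟩ := h2
        have e1 := hp'1.extend_apply (fun x : Fin d × Fin l => (Sum.inr (π' x.1 x.2) : Lt k l))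
          w a
        rw [e1]
        have e2 := hP.extend_apply (fun x : Fin d × Lt k l =>
          (Perm.sumCongr (π x.1) (π' x.1) : Perm (Fin k ⊕ Fin l)) x.2) w (a.1, Sum.inr a.2)
        have e3 : P (a.1, Sum.inr a.2) = p' a.1 a.2 := rfl
        rw [e3] at e2
        rw [e2]; simp
      · rw [Function.extend_apply' _ _ _ h2, Function.extend_apply']
        rintro ⟨⟨i, c | c⟩, hs⟩
        · exact h1 ⟨(i, c), hs⟩
        · exact h2 ⟨(i, c), hs⟩
  have h3 : (∑ π' : Fin d → Perm (Fin l), (∏ j, ((Perm.sign (π' j) : ℤ) : ℚ)) *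
      ∑ π : Fin d → Perm (Fin k), (∏ j, ((Perm.sign (π j) : ℤ) : ℚ)) *
        g (Function.extend (fun x : Fin d × Fin k => p x.1 x.2)
        (fun x => (Sum.inl (π x.1 x.2) : Lt k l))
        (Function.extend (fun x : Fin d × Fin l => p' x.1 x.2)
          (fun x => (Sum.inr (π' x.1 x.2) : Lt k l)) w)))
      = ∑ x : (Fin d → Perm (Fin k)) × (Fin d → Perm (Fin l)),
        (fun ρ : Fin d → Perm (Lt k l) => sgF ρ *
          g (Function.extend P (fun x => ρ x.1 x.2) w)) (fun i => Perm.sumCongr (x.1 i) (x.2 i)) := by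
    rw [Fintype.sum_prod_type]
    simp only [Finset.mul_sum]
    rw [Finset.sum_comm]
    refine Finset.sum_congr rfl (fun π _ => Finset.sum_congr rfl (fun π' _ => ?_))
    rw [hword]
    unfold sgF
    simp only [Perm.sign_sumCongr, Units.val_mul, Int.cast_mul, Finset.prod_mul_distrib]
    ring
  refine h3.trans ?_
  refine Finset.sum_bij_ne_zero (fun x _ _ => fun i => Perm.sumCongr (x.1 i) (x.2 i))
    (fun _ _ _ => Finset.mem_univ _) ?_ ?_ (fun _ _ _ => rfl)
  · rintro ⟨a, b⟩ _ _ ⟨a', b'⟩ _ _ h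
    have h4 : ∀ i, (a i, b i) = (a' i, b' i) := fun i =>
      Perm.sumCongrHom_injective (α := Fin k) (β := Fin l) (a₁ := (a i, b i))
        (a₂ := (a' i, b' i)) (congrFun h i)
    simp only [Prod.mk.injEq] at h4
    rw [Prod.mk.injEq]
    exact ⟨funext fun i => (h4 i).1, funext fun i => (h4 i).2⟩
  · intro ρ _ hρ
    have h4 := hO _ (right_ne_zero_of_mul hρ)
    have h5 : ∀ i, ∃ x : Perm (Fin k) × Perm (Fin l), Perm.sumCongr x.1 x.2 = ρ i := by
      intro i
      have h6 : Set.MapsTo (ρ i) (Set.range (Sum.inl : Fin k → Fin k ⊕ Fin l))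
          (Set.range (Sum.inl : Fin k → Fin k ⊕ Fin l)) := by
        rintro _ ⟨c, rfl⟩
        have h7 := congrFun h4 (P (i, Sum.inl c))
        unfold pv at h7
        rw [hP.extend_apply] at h7
        have h8 : P (i, Sum.inl c) = p i c := rfl
        rw [h8, cs] at h7
        rcases hρi : ρ i (Sum.inl c) with e | e
        · exact ⟨e, rfl⟩
        · rw [hρi] at h7; simp at h7
      obtain ⟨x, hx⟩ := Perm.mem_sumCongrHom_range_of_perm_mapsTo_inl h6
      exact ⟨x, hx⟩
    choose x hx using h5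
    refine ⟨(fun i => (x i).1, fun i => (x i).2), Finset.mem_univ _, ?_, funext hx⟩
    have h6 : (fun i => Perm.sumCongr (x i).1 (x i).2) = ρ := funext hx
    change (fun ρ : Fin d → Perm (Lt k l) => sgF ρ *
          g (Function.extend P (fun x => ρ x.1 x.2) w)) (fun i => Perm.sumCongr (x i).1 (x i).2) ≠ 0
    rw [h6]
    exact hρ

/-- (RL') for `d` full alphabets. -/
theorem RLF {n d : ℕ} (C : Cat k l (mm k l)) (hC : C.ξ = xi k l)
    {P : Fin d × Lt k l → Fin n} (hP : Function.Injective P)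
    {Y : MonoidAlgebra ℚ (Perm (Fin (n + mm k l)))}
    (hY : IsAltF C P hP Y) (y : MonoidAlgebra ℚ (Perm (Fin (n + mm k l))))
    (hy : ∀ u : Fin (n + mm k l) → Lt k l, act k l _ y (Pi.single u 1) ≠ 0 →
      (∀ i : Fin k, l + d ≤ cnt (Sum.inl i) u) ∧ (∀ j : Fin l, k + d ≤ cnt (Sum.inr j) u)) :
    y ∈ JJ k l Y := by
  classical
  by_contra hcon
  have h1 : ∃ t : W k l (Fin (n + mm k l)), (∀ a ∈ JJ k l Y, act k l _ a t = 0) ∧
      act k l _ y t ≠ 0 := by
    by_contra h
    push Not at h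
    exact hcon (JJ_of_kill h)
  obtain ⟨t, ht, hyt⟩ := h1
  let T : Submodule ℚ (W k l (Fin (n + mm k l))) :=
    { carrier := {t | ∀ a ∈ JJ k l Y, act k l _ a t = 0}
      add_mem' := fun {x y} hx hy a ha => by rw [map_add, hx a ha, hy a ha, add_zero]
      zero_mem' := fun a _ => map_zero _
      smul_mem' := fun c x hx a ha => by rw [map_smul, hx a ha, smul_zero] }
  have hTE : ∀ a b : Lt k l, ∀ t ∈ T, EE a b t ∈ T := by
    intro a b t ht c hc
    have h := LinearMap.congr_fun (act_EE c a b) t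
    simp only [Module.End.mul_apply] at h
    rw [h, ht c hc, map_zero]
  have hTA : ∀ a : MonoidAlgebra ℚ (Perm (Fin (n + mm k l))), ∀ t ∈ T, act k l _ a t ∈ T := by
    intro a t ht c hc
    rw [← Module.End.mul_apply, ← map_mul]
    exact ht _ (JJ_right _ hc)
  let N : Submodule ℚ (W k l (Fin (n + mm k l))) := T.map (act k l _ y)
  have hNE : ∀ a b : Lt k l, ∀ v ∈ N, EE a b v ∈ N := by
    rintro a b _ ⟨t, ht, rfl⟩
    have h := LinearMap.congr_fun (act_EE y a b) t
    simp only [Module.End.mul_apply] at h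
    rw [← h]
    exact ⟨_, hTE a b t ht, rfl⟩
  obtain ⟨x, hxN, hx0, hxr⟩ := exists_hw N hNE (univ.sup Pool.PI34.Super.ht) (act k l _ y t)
    ⟨t, ht, rfl⟩ hyt (fun w _ => Finset.le_sup (Finset.mem_univ w))
  obtain ⟨t', ht', rfl⟩ := hxN
  have hsupp : ∀ w, act k l _ y t' w ≠ 0 → (∀ i : Fin k, l + d ≤ cnt (Sum.inl i) w) ∧
      (∀ j : Fin l, k + d ≤ cnt (Sum.inr j) w) := by
    intro w hw
    have h2 : t' = ∑ u, t' u • (Pi.single u 1 : W k l (Fin (n + mm k l))) := by
      funext w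
      rw [Finset.sum_apply, Finset.sum_eq_single w]
      · simp
      · intro b _ hb; simp [Pi.single_apply, hb.symm]
      · intro h; exact absurd (Finset.mem_univ _) h
    rw [h2, map_sum, Finset.sum_apply] at hw
    obtain ⟨u, _, hu⟩ := Finset.exists_ne_zero_of_sum_ne_zero hw
    rw [map_smul, Pi.smul_apply, smul_eq_mul] at hu
    have h3 := right_ne_zero_of_mul hu
    have h4 : act k l _ y (Pi.single u 1) ≠ 0 := fun e => h3 (by rw [e]; rfl)
    obtain ⟨h5, h6⟩ := hy u h4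
    refine ⟨fun i => ?_, fun j => ?_⟩
    · rw [act_single_cnt y u w h3]; exact h5 i
    · rw [act_single_cnt y u w h3]; exact h6 j
  have hQ0 : QQ univ (act k l _ y t') (d + l) (d + k) := by
    refine ⟨fun a b _ hlt => hxr a b hlt, hx0, fun w hw i => ?_, fun w hw j => ?_⟩
    · rw [add_comm]; exact (hsupp w hw).1 i
    · rw [add_comm]; exact (hsupp w hw).2 j
  obtain ⟨σ, v0, hσ⟩ := exists_pair hQ0
  -- move the contracted strands to the end
  set x := act k l _ y t' with hx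
  have hxT : x ∈ T := hTA y t' ht'
  set s := rho k l _ σ⁻¹ x with hs
  have hsT : s ∈ T := by
    have := hTA (MonoidAlgebra.of ℚ _ σ⁻¹) x hxT
    rwa [act_of] at this
  have hsr : ∀ a b : Lt k l, odd a = odd b → idx a < idx b → EE a b s = 0 := by
    intro a b _ hlt
    have h := LinearMap.congr_fun (rho_EE (k := k) (l := l) σ⁻¹ a b) x
    simp only [Module.End.mul_apply] at h
    rw [hs, ← h, hxr a b hlt, map_zero]
  have hscnt : ∀ w, s w ≠ 0 → (∀ i : Fin k, l + d ≤ cnt (Sum.inl i) w) ∧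
      (∀ j : Fin l, k + d ≤ cnt (Sum.inr j) w) := by
    intro w hw
    rw [hs, rho_apply] at hw
    have h2 := hsupp _ (right_ne_zero_of_mul hw)
    have h3 : ∀ a : Lt k l, cnt a (w ∘ ⇑σ⁻¹) = cnt a w := by
      intro a
      unfold cnt
      refine Finset.card_bij' (fun i _ => σ⁻¹ i) (fun i _ => σ i) ?_ ?_ ?_ ?_
      · intro i hi; simpa using hi
      · intro i hi
        rw [Finset.mem_filter] at hi ⊢
        refine ⟨Finset.mem_univ _, ?_⟩
        rw [Function.comp_apply, inv_app']; exact hi.2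
      · intro i _; exact app_inv' σ i
      · intro i _; exact inv_app' σ i
    refine ⟨fun i => ?_, fun j => ?_⟩
    · rw [← h3]; exact h2.1 i
    · rw [← h3]; exact h2.2 j
  -- the contraction
  set g := cbar (xi k l) s with hg
  have hg0 : g v0 ≠ 0 := by
    rw [hg, cbar_apply, hs, rho_adj, inv_inv]
    exact hσ
  have hgPR : PR univ g := cbar_PR (fun a b h hne => xi_g0_ne a b h hne) hsr
  have hgc1 : ∀ v, g v ≠ 0 → ∀ i : Fin k, d ≤ cntR univ (Sum.inl i) v := by
    intro v hv i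
    obtain ⟨u, hu1, hu2⟩ := cbar_supp hv
    have h2 := (hscnt _ hu2).1 i
    rw [cnt_append, xi_cnt_inl i hu1] at h2
    have h3 : cntR univ (Sum.inl i) v = cnt (Sum.inl i) v := rfl
    omega
  have hgc2 : ∀ v, g v ≠ 0 → ∀ j : Fin l, d ≤ cntR univ (Sum.inr j) v := by
    intro v hv j
    obtain ⟨u, hu1, hu2⟩ := cbar_supp hv
    have h2 := (hscnt _ hu2).2 j
    rw [cnt_append, xi_cnt_inr j hu1] at h2
    have h3 : cntR univ (Sum.inr j) v = cnt (Sum.inr j) v := rfl
    omega
  set O := pv v0 with hO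
  have hQO : QQ univ (prO O g) d d := prO_QQ hgPR hgc1 hgc2 ⟨v0, hg0, rfl⟩
  obtain ⟨P', hP', hD⟩ := exists_DF (O := O) hQO (fun v hv => by
    unfold prO at hv
    split_ifs at hv with h
    · exact h
    · exact absurd rfl hv)
  -- the projected vector comes from `T`
  set sO := act k l _ (st (parE C O)) s with hsO
  have hsOT : sO ∈ T := hTA _ s hsT
  have hcO : ∀ v, ip sO (tn v (xi k l)) = prO O g v := by
    intro v
    rw [hsO, act_adj, st_st, ← hC, act_parE, hC, ip_smul_right]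
    unfold prO
    rw [hg, cbar_apply]
    split_ifs
    · rw [one_mul]
    · rw [zero_mul]
  -- move `Y`
  obtain ⟨τ, hτ⟩ := exists_perm_gen hP hP'
  set Y' := C.fl τ * Y * C.fl τ⁻¹ with hY'
  have hY'J : Y' ∈ JJ k l Y := Z_mem_JJ _ _
  obtain ⟨w, hw⟩ := Function.ne_iff.1 hD
  apply hw
  change DF P' (prO O g) w = 0
  set v1 : Fin n → Lt k l := Function.extend P' Prod.snd w with hv1
  have hact : act k l _ Y' (tn v1 C.ξ) = ∑ ρ : Fin d → Perm (Lt k l),
      sgF ρ • tn (v1 ∘ ⇑(viaG P' hP' (bp ρ))) C.ξ := by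
    rw [hY', map_mul, map_mul, Module.End.mul_apply, Module.End.mul_apply, C.act_fl, hY,
      map_sum]
    refine Finset.sum_congr rfl (fun ρ _ => ?_)
    rw [map_smul, C.act_fl]
    have h6 : ((v1 ∘ ⇑τ⁻¹⁻¹) ∘ ⇑(viaG P hP (bp ρ))) ∘ ⇑τ⁻¹
        = v1 ∘ ⇑(viaG P' hP' (bp ρ)) := by
      rw [← viaG_conj P P' hP hP' τ hτ]
      funext i
      simp only [Function.comp_apply, Perm.mul_apply, inv_inv]
    rw [h6]
  have h0 : ip sO (act k l _ Y' (tn v1 C.ξ)) = 0 := by
    rw [← st_st Y', ← act_adj]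
    have : act k l _ (st Y') sO = 0 := hsOT _ (JJ_st hY'J)
    rw [this]
    unfold ip
    exact Finset.sum_eq_zero (fun w _ => by simp)
  rw [hact, ip_sum_right] at h0
  rw [← h0]
  unfold DF
  refine Finset.sum_congr rfl (fun ρ _ => ?_)
  have h5 : v1 ∘ ⇑(viaG P' hP' (bp ρ)) = Function.extend P' (fun x => ρ x.1 x.2) w := by
    funext z
    rw [Function.comp_apply]
    by_cases h1 : ∃ c, P' c = z
    · obtain ⟨c, rfl⟩ := h1
      rw [viaG_apply, hP'.extend_apply, hv1, hP'.extend_apply]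
      rfl
    · push Not at h1
      rw [viaG_apply' P' hP' _ h1, hv1,
        Function.extend_apply' _ _ _ (by push Not; exact h1),
        Function.extend_apply' _ _ _ (by push Not; exact h1)]
  rw [ip_smul_right, hC, hcO, h5]

end Pool.PI34.Super
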