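import Pool.Agent.LibPI34.Rg1

/-!
PI34, general rational lemma, file 2: the plain antisymmetrizer of `d` full alphabets has rank
one.
-/

set_option linter.unusedSectionVars false
set_option linter.unusedSimpArgs false

namespace Pool.PI34.Super

open Equiv Finset

variable {k l n m d : ℕ}

theorem bp_mul {α : Type} (ρ ρ' : Fin d → Perm α) : bp (ρ * ρ') = bp ρ * bp ρ' := by
  apply Equiv.ext
  intro x
  rfl

theorem sgF_mul (ρ ρ' : Fin d → Perm (Lt k l)) : sgF (ρ * ρ') = sgF ρ * sgF ρ' := by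
  unfold sgF
  rw [← Finset.prod_mul_distrib]
  refine Finset.prod_congr rfl (fun j _ => ?_)
  rw [Pi.mul_apply, Perm.sign_mul]; push_cast; rfl

theorem sgF_sq (ρ : Fin d → Perm (Lt k l)) : sgF ρ * sgF ρ = 1 := by
  unfold sgF
  rw [← Finset.prod_mul_distrib]
  refine Finset.prod_eq_one (fun j _ => ?_)
  rcases Int.units_eq_one_or (Perm.sign (ρ j)) with h | h <;> rw [h] <;> norm_num

theorem sgF_inv (ρ : Fin d → Perm (Lt k l)) : sgF ρ⁻¹ = sgF ρ := by
  unfold sgF
  refine Finset.prod_congr rfl (fun j _ => ?_)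
  rw [Pi.inv_apply, Perm.sign_inv]

/-- the block permutation of the strands -/
noncomputable def vb (P : Fin d × Lt k l → Fin n) (hP : Function.Injective P)
    (ρ : Fin d → Perm (Lt k l)) : Perm (Fin n) := viaG P hP (bp ρ)

theorem vb_mul (P : Fin d × Lt k l → Fin n) (hP : Function.Injective P)
    (ρ ρ' : Fin d → Perm (Lt k l)) : vb P hP (ρ * ρ') = vb P hP ρ * vb P hP ρ' := by
  unfold vb; rw [bp_mul, viaG_mul]

theorem vb_one (P : Fin d × Lt k l → Fin n) (hP : Function.Injective P) :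
    vb P hP 1 = 1 := by
  have h := vb_mul P hP 1 1
  rw [mul_one] at h
  exact (mul_eq_left.1 h.symm)

theorem vb_inv (P : Fin d × Lt k l → Fin n) (hP : Function.Injective P)
    (ρ : Fin d → Perm (Lt k l)) : vb P hP ρ⁻¹ = (vb P hP ρ)⁻¹ := by
  rw [eq_inv_iff_mul_eq_one, ← vb_mul, inv_mul_cancel, vb_one]

theorem vb_apply (P : Fin d × Lt k l → Fin n) (hP : Function.Injective P)
    (ρ : Fin d → Perm (Lt k l)) (i : Fin d) (c : Lt k l) :
    vb P hP ρ (P (i, c)) = P (i, ρ i c) := by
  unfold vb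
  rw [viaG_apply]
  rfl

/-- blockwise alternating functions -/
def BAF (P : Fin d × Lt k l → Fin n) (hP : Function.Injective P)
    (F : (Fin n → Lt k l) → ℚ) : Prop :=
  ∀ (ρ : Fin d → Perm (Lt k l)) (v : Fin n → Lt k l), F (v ∘ vb P hP ρ) = sgF ρ * F v

/-- `P` is a bijection, `v0` is the word with the letter `c` at `P (i, c)` -/
structure Std (P : Fin d × Lt k l → Fin n) (v0 : Fin n → Lt k l) : Prop where
  inj : Function.Injective P
  surj : ∀ x, ∃ y, P y = x
  eval : ∀ x, v0 (P x) = x.2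

/-- the vector `Δ` -/
noncomputable def Dl (P : Fin d × Lt k l → Fin n) (hP : Function.Injective P)
    (v0 : Fin n → Lt k l) : W k l (Fin n) := by
  classical
  exact fun v => ∑ ρ : Fin d → Perm (Lt k l), if v = v0 ∘ vb P hP ρ then sgF ρ else 0

theorem comp_vb_iff (P : Fin d × Lt k l → Fin n) (hP : Function.Injective P)
    (ρ : Fin d → Perm (Lt k l)) (v w : Fin n → Lt k l) :
    v ∘ vb P hP ρ = w ↔ v = w ∘ vb P hP ρ⁻¹ := by
  rw [vb_inv]
  constructor
  · rintro rfl
    funext x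
    simp only [Function.comp_apply, app_inv']
  · rintro rfl
    funext x
    simp only [Function.comp_apply, inv_app']

theorem Dl_BAF (P : Fin d × Lt k l → Fin n) (hP : Function.Injective P)
    (v0 : Fin n → Lt k l) : BAF P hP (Dl P hP v0) := by
  classical
  intro π v
  unfold Dl
  rw [Finset.mul_sum, ← Equiv.sum_comp (Equiv.mulRight π)
    (fun ρ => if v ∘ vb P hP π = v0 ∘ vb P hP ρ then sgF ρ else 0)]
  refine Finset.sum_congr rfl (fun ρ _ => ?_)
  have h1 : (Equiv.mulRight π) ρ = ρ * π := rfl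
  rw [h1, sgF_mul, vb_mul]
  have h2 : (v ∘ vb P hP π = v0 ∘ ⇑(vb P hP ρ * vb P hP π)) ↔ (v = v0 ∘ vb P hP ρ) := by
    constructor
    · intro h
      funext x
      have := congrFun h ((vb P hP π)⁻¹ x)
      simp only [Function.comp_apply, Perm.mul_apply, app_inv'] at this
      exact this
    · rintro rfl
      rfl
  by_cases h : v = v0 ∘ vb P hP ρ
  · rw [if_pos (h2.2 h), if_pos h, mul_comm]
  · rw [if_neg (fun h' => h (h2.1 h')), if_neg h, mul_zero]

theorem Std.vb_eq {P : Fin d × Lt k l → Fin n} {v0 : Fin n → Lt k l} (h : Std P v0)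
    {ρ ρ' : Fin d → Perm (Lt k l)} (he : v0 ∘ vb P h.inj ρ = v0 ∘ vb P h.inj ρ') : ρ = ρ' := by
  funext i
  apply Equiv.ext
  intro c
  have := congrFun he (P (i, c))
  simp only [Function.comp_apply, vb_apply, h.eval] at this
  exact this

theorem Std.Dl_apply {P : Fin d × Lt k l → Fin n} {v0 : Fin n → Lt k l} (h : Std P v0)
    (ρ : Fin d → Perm (Lt k l)) : Dl P h.inj v0 (v0 ∘ vb P h.inj ρ) = sgF ρ := by
  classical
  unfold Dl
  rw [Finset.sum_eq_single ρ]
  · rw [if_pos rfl]
  · intro ρ' _ hne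
    rw [if_neg]
    intro he
    exact hne (h.vb_eq he).symm
  · intro h; exact absurd (Finset.mem_univ _) h

theorem Std.Dl_v0 {P : Fin d × Lt k l → Fin n} {v0 : Fin n → Lt k l} (h : Std P v0) :
    Dl P h.inj v0 v0 = 1 := by
  have h1 := h.Dl_apply 1
  have h2 : v0 ∘ vb P h.inj 1 = v0 := by rw [vb_one]; rfl
  rw [h2] at h1
  rw [h1]
  unfold sgF
  exact Finset.prod_eq_one (fun i _ => by simp)

theorem Std.Dl_ne {P : Fin d × Lt k l → Fin n} {v0 : Fin n → Lt k l} (h : Std P v0)
    {v : Fin n → Lt k l} (hv : Dl P h.inj v0 v ≠ 0) : ∃ ρ, v = v0 ∘ vb P h.inj ρ := by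
  classical
  unfold Dl at hv
  obtain ⟨ρ, _, hρ⟩ := Finset.exists_ne_zero_of_sum_ne_zero hv
  refine ⟨ρ, ?_⟩
  by_contra h
  rw [if_neg h] at hρ
  exact hρ rfl

theorem Std.unique {P : Fin d × Lt k l → Fin n} {v0 : Fin n → Lt k l} (h : Std P v0)
    {F : (Fin n → Lt k l) → ℚ} (hF : BAF P h.inj F) (v : Fin n → Lt k l) :
    F v = Dl P h.inj v0 v * F v0 := by
  classical
  by_cases hinj : ∀ i : Fin d, Function.Injective (fun c : Lt k l => v (P (i, c)))
  · let ρ : Fin d → Perm (Lt k l) := fun i =>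
      Equiv.ofBijective _ (Finite.injective_iff_bijective.1 (hinj i))
    have h1 : v = v0 ∘ vb P h.inj ρ := by
      funext x
      obtain ⟨⟨i, c⟩, rfl⟩ := h.surj x
      rw [Function.comp_apply, vb_apply, h.eval]
      rfl
    rw [h1, h.Dl_apply, hF]
  · push Not at hinj
    obtain ⟨i, hi⟩ := hinj
    rw [Function.not_injective_iff] at hi
    obtain ⟨c, c', hcc, hne⟩ := hi
    have key : ∀ F : (Fin n → Lt k l) → ℚ, BAF P h.inj F → F v = 0 := by
      intro F hF
      let ρ : Fin d → Perm (Lt k l) := Function.update 1 i (swap c c')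
      have h3 : v ∘ vb P h.inj ρ = v := by
        funext x
        obtain ⟨⟨j, e⟩, rfl⟩ := h.surj x
        rw [Function.comp_apply, vb_apply]
        by_cases hj : j = i
        · subst hj
          simp only [ρ, Function.update_self]
          by_cases hx : e = c
          · rw [hx, swap_apply_left]; exact hcc.symm
          · by_cases hx' : e = c'
            · rw [hx', swap_apply_right]; exact hcc
            · rw [swap_apply_of_ne_of_ne hx hx']
        · simp only [ρ, Function.update_of_ne hj]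
          rfl
      have h4 : sgF ρ = -1 := by
        unfold sgF
        rw [Finset.prod_eq_single i]
        · simp only [ρ, Function.update_self, Perm.sign_swap hne]
          norm_num
        · intro j' _ hj'
          simp only [ρ, Function.update_of_ne hj']
          simp
        · intro h; exact absurd (Finset.mem_univ _) h
      have h5 := hF ρ v
      rw [h3, h4] at h5
      linarith
    rw [key F hF, key _ (Dl_BAF P h.inj v0), zero_mul]

/-- `f ⊗ ξ` -/
def tnf (ξ : W k l (Fin m)) : W k l (Fin n) →ₗ[ℚ] W k l (Fin (n + m)) where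
  toFun f := fun w => f (w ∘ phL n m) * ξ (w ∘ phR n m)
  map_add' f g := by funext w; simp [add_mul]
  map_smul' c f := by funext w; simp [mul_assoc]

theorem tnf_apply (ξ : W k l (Fin m)) (f : W k l (Fin n)) (w : Fin (n + m) → Lt k l) :
    tnf ξ f w = f (w ∘ phL n m) * ξ (w ∘ phR n m) := rfl

theorem tnf_single (ξ : W k l (Fin m)) (v : Fin n → Lt k l) :
    tnf ξ (Pi.single v 1) = tn v ξ := by
  funext w
  rw [tnf_apply, tn_apply, Pi.single_apply]
  split_ifs
  · rw [one_mul]
  · rw [zero_mul]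

theorem act_phL_tnf (ξ : W k l (Fin m)) (y : MonoidAlgebra ℚ (Perm (Fin n)))
    (f : W k l (Fin n)) :
    act k l _ (pl (phL n m) y) (tnf ξ f) = tnf ξ (act k l _ y f) := by
  funext w
  rw [act_pl conv_phL, tnf_apply]
  have h : sl (phL n m) w (tnf ξ f) = ξ (w ∘ phR n m) • f := by
    funext u
    rw [sl_apply, tnf_apply, ext_phL_phL, ext_phL_phR, Pi.smul_apply, smul_eq_mul, mul_comm]
  rw [h, map_smul, Pi.smul_apply, smul_eq_mul, mul_comm]

/-- the plain antisymmetrizer of the blocks -/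
noncomputable def Cat.AF (C : Cat k l m) (P : Fin d × Lt k l → Fin n)
    (hP : Function.Injective P) : MonoidAlgebra ℚ (Perm (Fin (n + m))) :=
  ∑ ρ : Fin d → Perm (Lt k l), sgF ρ • C.fl (vb P hP ρ)⁻¹

theorem Cat.act_AF (C : Cat k l m) (P : Fin d × Lt k l → Fin n)
    (hP : Function.Injective P) : IsAltF C P hP (C.AF P hP) := by
  intro v
  unfold Cat.AF
  rw [map_sum, LinearMap.sum_apply]
  refine Finset.sum_congr rfl (fun ρ _ => ?_)
  rw [map_smul, LinearMap.smul_apply, C.act_fl, inv_inv]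
  rfl

theorem Std.act_alt {P : Fin d × Lt k l → Fin n} {v0 : Fin n → Lt k l} (h : Std P v0)
    (C : Cat k l m) {Y : MonoidAlgebra ℚ (Perm (Fin (n + m)))} (hY : IsAltF C P h.inj Y)
    (v : Fin n → Lt k l) : act k l _ Y (tn v C.ξ)
      = Dl P h.inj v0 v • tnf C.ξ (Dl P h.inj v0) := by
  classical
  rw [hY]
  have h1 : ∑ ρ : Fin d → Perm (Lt k l), sgF ρ • tn (v ∘ ⇑(viaG P h.inj (bp ρ))) C.ξ
      = tnf C.ξ (∑ ρ : Fin d → Perm (Lt k l), sgF ρ •
        (Pi.single (v ∘ vb P h.inj ρ) 1 : W k l (Fin n))) := by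
    rw [map_sum]
    refine Finset.sum_congr rfl (fun ρ _ => ?_)
    rw [map_smul, tnf_single]
    rfl
  rw [h1, ← map_smul]
  congr 1
  funext w
  set a : (Fin n → Lt k l) → ℚ := ∑ ρ : Fin d → Perm (Lt k l), sgF ρ •
        (Pi.single (v ∘ vb P h.inj ρ) 1 : W k l (Fin n)) with ha
  have hap : ∀ w, a w = ∑ ρ : Fin d → Perm (Lt k l),
      if w = v ∘ vb P h.inj ρ then sgF ρ else 0 := by
    intro w
    rw [ha, Finset.sum_apply]
    refine Finset.sum_congr rfl (fun ρ _ => ?_)
    rw [Pi.smul_apply, Pi.single_apply, smul_eq_mul]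
    split_ifs
    · rw [mul_one]
    · rw [mul_zero]
  have hBA : BAF P h.inj a := by
    have h2 := Dl_BAF P h.inj v
    intro ρ w
    have h3 := h2 ρ w
    rw [hap, hap]
    exact h3
  have h4 : a v0 = Dl P h.inj v0 v := by
    rw [hap]
    unfold Dl
    rw [← Equiv.sum_comp (Equiv.inv (Fin d → Perm (Lt k l)))]
    refine Finset.sum_congr rfl (fun ρ _ => ?_)
    rw [Equiv.inv_apply, sgF_inv]
    have h5 : (v0 = v ∘ vb P h.inj ρ⁻¹) ↔ (v = v0 ∘ vb P h.inj ρ) := by
      rw [← comp_vb_iff]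
      exact ⟨fun e => e.symm, fun e => e.symm⟩
    by_cases h6 : v = v0 ∘ vb P h.inj ρ
    · rw [if_pos (h5.2 h6), if_pos h6]
    · rw [if_neg (fun e => h6 (h5.1 e)), if_neg h6]
  rw [h.unique hBA w, h4, Pi.smul_apply, smul_eq_mul, mul_comm]

theorem Std.act_alt' {P : Fin d × Lt k l → Fin n} {v0 : Fin n → Lt k l} (h : Std P v0)
    (C : Cat k l m) {Y : MonoidAlgebra ℚ (Perm (Fin (n + m)))} (hY : IsAltF C P h.inj Y)
    (f : W k l (Fin n)) : act k l _ Y (tnf C.ξ f)
      = ip f (Dl P h.inj v0) • tnf C.ξ (Dl P h.inj v0) := by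
  classical
  have h1 : f = ∑ v, f v • (Pi.single v 1 : W k l (Fin n)) := by
    funext w
    rw [Finset.sum_apply, Finset.sum_eq_single w]
    · simp
    · intro b _ hb; simp [Pi.single_apply, hb.symm]
    · intro h; exact absurd (Finset.mem_univ _) h
  conv_lhs => rw [h1]
  rw [map_sum, map_sum]
  unfold ip
  rw [Finset.sum_smul]
  refine Finset.sum_congr rfl (fun v _ => ?_)
  rw [map_smul, map_smul, tnf_single, h.act_alt C hY, smul_smul]

theorem st_pl {κ ι : Type} [Fintype κ] [LinearOrder κ] [Fintype ι] [LinearOrder ι]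
    (φ : κ ↪o ι) (y : MonoidAlgebra ℚ (Perm κ)) : st (pl φ y) = pl φ (st y) := by
  induction y using MonoidAlgebra.induction_on with
  | of σ => rw [pl_of, st_of, st_of, pl_of, map_inv (ext φ)]
  | add x y hx hy => rw [map_add, st_add, st_add, map_add, hx, hy]
  | smul r x hx => rw [map_smul, st_smul, st_smul, map_smul, hx]

/-- Any element `X` of the group algebra of the first strands, sandwiched between two
antisymmetrizers. -/
theorem Std.sandwich {P : Fin d × Lt k l → Fin n} {v0 : Fin n → Lt k l} (h : Std P v0)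
    (C : Cat k l m) (y : MonoidAlgebra ℚ (Perm (Fin n)))
    (hy : act k l _ y (Dl P h.inj v0) ≠ 0) :
    ∃ a b : MonoidAlgebra ℚ (Perm (Fin (n + m))),
      IsAltF C P h.inj (a * pl (phL n m) y * b) := by
  set Δ := Dl P h.inj v0 with hΔ
  set c := ip (act k l _ y Δ) (act k l _ y Δ) with hc
  have hc0 : c ≠ 0 := ip_self_ne hy
  refine ⟨c⁻¹ • (C.AF P h.inj * pl (phL n m) (st y)), C.AF P h.inj, fun v => ?_⟩
  have h1 : c⁻¹ • (C.AF P h.inj * pl (phL n m) (st y)) * pl (phL n m) y * C.AF P h.inj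
      = c⁻¹ • (C.AF P h.inj * pl (phL n m) (st y * y) * C.AF P h.inj) := by
    rw [map_mul]
    simp only [smul_mul_assoc, mul_assoc]
  have h2 : ip (act k l _ (st y * y) Δ) Δ = c := by
    rw [map_mul, Module.End.mul_apply, act_adj, st_st]
  have h3 := (C.act_AF P h.inj v).symm.trans (h.act_alt C (C.act_AF P h.inj) v)
  rw [h3, h1, map_smul, LinearMap.smul_apply, map_mul, map_mul, Module.End.mul_apply,
    Module.End.mul_apply, h.act_alt C (C.act_AF P h.inj), map_smul, map_smul, act_phL_tnf,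
    h.act_alt' C (C.act_AF P h.inj), ← hΔ, h2, smul_smul, smul_smul]
  congr 1
  field_simp

end Pool.PI34.Super
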