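import Pool.Agent.LibPI34.Super8

/-!
PI34, rational lemma, file 1: contraction of highest weight vectors with determinants.
-/

set_option linter.unusedSectionVars false
set_option linter.unusedSimpArgs false

namespace Pool.PI34.Super

open Equiv Finset

variable {k l : ℕ} {ι : Type} [Fintype ι] [LinearOrder ι]

/-- Killed by the raising operators between letters of the same parity, over the positions
in `R`. -/
def PR (R : Finset ι) (y : W k l ι) : Prop :=
  ∀ a b : Lt k l, odd a = odd b → idx a < idx b → EB R a b y = 0

theorem EB_plain (R : Finset ι) (a b : Lt k l) (h : odd a = odd b) (y : W k l ι)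
    (w : ι → Lt k l) :
    EB R a b y w = ∑ s ∈ R, if w s = a then y (Function.update w s b) else 0 := by
  unfold EB
  rw [LinearMap.sum_apply, Finset.sum_apply]
  refine Finset.sum_congr rfl (fun s _ => ?_)
  rw [eop_apply, bsg_even a b h, one_mul]

/-- Contraction with the determinant in the letters `lam` at the positions `s`. -/
noncomputable def Dop {q : ℕ} (lam : Fin q → Lt k l) (s : Fin q → ι) (y : W k l ι) : W k l ι := fun w =>
  ∑ π : Perm (Fin q), ((Perm.sign π : ℤ) : ℚ) * y (Function.extend s (lam ∘ π) w)

/-- A decomposition of the permutations of `Fin (q+1)`. -/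
def decE (q : ℕ) : Fin (q + 1) × Perm (Fin q) ≃ Perm (Fin (q + 1)) :=
  (Equiv.prodCongr (Equiv.refl _) (Equiv.inv _)).trans
    (Perm.decomposeFin.symm.trans (Equiv.inv _))

theorem decE_apply {q : ℕ} (p : Fin (q + 1)) (e : Perm (Fin q)) :
    decE q (p, e) = (Perm.decomposeFin.symm (p, e⁻¹))⁻¹ := rfl

theorem decE_p {q : ℕ} (p : Fin (q + 1)) (e : Perm (Fin q)) : decE q (p, e) p = 0 := by
  rw [decE_apply, Perm.inv_eq_iff_eq, Perm.decomposeFin_symm_apply_zero]

theorem decE_succ {q : ℕ} (p : Fin (q + 1)) (e : Perm (Fin q)) (i : Fin q) :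
    decE q (p, e) (swap 0 p i.succ) = (e i).succ := by
  rw [decE_apply, Perm.inv_eq_iff_eq, Perm.decomposeFin_symm_apply_succ]
  simp

theorem decE_sign {q : ℕ} (p : Fin (q + 1)) (e : Perm (Fin q)) :
    Perm.sign (decE q (p, e)) = (if p = 0 then 1 else -1) * Perm.sign e := by
  rw [decE_apply, Perm.sign_inv, Perm.decomposeFin.symm_sign, Perm.sign_inv]

theorem extend_cons {q : ℕ} {s0 : ι} {s : Fin q → ι} (hs : Function.Injective s)
    (h0 : ∀ i, s i ≠ s0) (u0 : Lt k l) (u : Fin q → Lt k l) (w : ι → Lt k l) :
    Function.extend (Fin.cons s0 s : Fin (q + 1) → ι) (Fin.cons u0 u : Fin (q + 1) → Lt k l) w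
      = Function.update (Function.extend s u w) s0 u0 := by
  have hinj : Function.Injective (Fin.cons s0 s : Fin (q + 1) → ι) := by
    rw [Fin.cons_injective_iff]
    exact ⟨fun ⟨i, hi⟩ => h0 i hi, hs⟩
  funext x
  by_cases hx : x = s0
  · subst hx
    have h1 := hinj.extend_apply (Fin.cons u0 u : Fin (q + 1) → Lt k l) w 0
    rw [Fin.cons_zero, Fin.cons_zero] at h1
    rw [h1, Function.update_self]
  · rw [Function.update_of_ne hx]
    by_cases hx2 : ∃ i, s i = x
    · obtain ⟨i, rfl⟩ := hx2
      have h1 := hinj.extend_apply (Fin.cons u0 u : Fin (q + 1) → Lt k l) w i.succ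
      rw [Fin.cons_succ, Fin.cons_succ] at h1
      rw [h1, hs.extend_apply]
    · rw [Function.extend_apply' _ _ _ hx2, Function.extend_apply']
      rintro ⟨i, hi⟩
      rcases Fin.eq_zero_or_eq_succ i with rfl | ⟨i, rfl⟩
      · rw [Fin.cons_zero] at hi; exact hx hi.symm
      · rw [Fin.cons_succ] at hi; exact hx2 ⟨i, hi⟩

theorem F_formula : ∀ (q : ℕ) (lam : Fin q → Lt k l), (∀ i j, i < j → idx (lam i) < idx (lam j)) →
    (∀ i j, odd (lam i) = odd (lam j)) → ∀ (R : Finset ι) (y : W k l ι), PR R y →
    ∀ w : ι → Lt k l, (∀ i, ∃ s ∈ R, w s = lam i) → ∃ c : ℚ, 0 < c ∧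
      ∑ s : Fin q → ι, (if ∀ i, s i ∈ R ∧ w (s i) = lam i then Dop lam s y w else 0)
        = c * y w := by
  classical
  intro q
  induction q with
  | zero =>
    intro lam _ _ R y _ w _
    refine ⟨1, one_pos, ?_⟩
    rw [Fintype.sum_unique, if_pos (fun i => i.elim0)]
    unfold Dop
    rw [Fintype.sum_unique]
    have : Function.extend (default : Fin 0 → ι) (lam ∘ (default : Perm (Fin 0))) w = w := by
      funext x
      rw [Function.extend_apply']
      rintro ⟨i, _⟩; exact i.elim0
    rw [this]
    have h1 : (default : Perm (Fin 0)) = 1 := Subsingleton.elim _ _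
    rw [h1]; simp
  | succ q ih =>
    intro lam hlt hpar R y hy w hex
    have hlt' : ∀ i j, i < j → idx (Fin.tail lam i) < idx (Fin.tail lam j) :=
      fun i j h => hlt _ _ (Fin.succ_lt_succ_iff.2 h)
    have hpar' : ∀ i j, odd (Fin.tail lam i) = odd (Fin.tail lam j) := fun i j => hpar _ _
    obtain ⟨c, hc, hF⟩ := ih (Fin.tail lam) hlt' hpar' R y hy w (fun i => hex i.succ)
    set B := R.filter (fun s => w s = lam 0) with hB
    have hlam0 : ∀ i : Fin q, lam 0 ≠ Fin.tail lam i := by
      intro i e
      have := hlt 0 i.succ (Fin.succ_pos i)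
      rw [e] at this
      exact lt_irrefl _ this
    refine ⟨((B.card : ℚ) + q) * c, ?_, ?_⟩
    · have hBc : 0 < B.card := by
        rw [Finset.card_pos]
        obtain ⟨s, hs1, hs2⟩ := hex 0
        exact ⟨s, by rw [hB, Finset.mem_filter]; exact ⟨hs1, hs2⟩⟩
      have : (0 : ℚ) < B.card := by exact_mod_cast hBc
      positivity
    rw [← (Fin.consEquiv (fun _ : Fin (q + 1) => ι)).sum_comp, Fintype.sum_prod_type,
      Finset.sum_comm]
    rw [mul_assoc, ← hF, Finset.mul_sum]
    refine Finset.sum_congr rfl (fun s _ => ?_)
    by_cases hs : ∀ i, s i ∈ R ∧ w (s i) = Fin.tail lam i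
    swap
    · rw [if_neg hs, mul_zero]
      refine Finset.sum_eq_zero (fun s0 _ => ?_)
      rw [if_neg]
      intro h
      apply hs
      intro i
      have := h i.succ
      exact this
    rw [if_pos hs]
    have hinj : Function.Injective s := by
      intro i j hij
      by_contra hne
      have h1 := (hs i).2
      have h2 := (hs j).2
      rw [hij, h2] at h1
      rcases lt_or_gt_of_ne hne with h | h
      · have := hlt' i j h; rw [h1] at this; exact lt_irrefl _ this
      · have := hlt' j i h; rw [h1] at this; exact lt_irrefl _ this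
    -- the words
    set ww : Perm (Fin q) → (ι → Lt k l) := fun e => Function.extend s (Fin.tail lam ∘ e) w
      with hww
    have hwws : ∀ e i, ww e (s i) = Fin.tail lam (e i) := by
      intro e i
      rw [hww]
      simp only
      rw [hinj.extend_apply]; rfl
    have hwwn : ∀ e x, (∀ i, s i ≠ x) → ww e x = w x := by
      intro e x hx
      rw [hww]
      simp only
      rw [Function.extend_apply']
      rintro ⟨i, hi⟩; exact hx i hi
    have hs0 : ∀ s0 ∈ B, ∀ i, s i ≠ s0 := by
      intro s0 h0 i e
      rw [hB, Finset.mem_filter] at h0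
      have := (hs i).2
      rw [e, h0.2] at this
      exact hlam0 i this
    have hD : ∀ s0 ∈ B, Dop lam (Fin.cons s0 s : Fin (q + 1) → ι) y w
        = ∑ e : Perm (Fin q), ((Perm.sign e : ℤ) : ℚ) * y (ww e)
          + ∑ j : Fin q, ∑ e : Perm (Fin q), (-((Perm.sign e : ℤ) : ℚ)) *
            y (Function.update (Function.update (ww e) (s j) (lam 0)) s0
              (Fin.tail lam (e j))) := by
      intro s0 h0
      have h0' : w s0 = lam 0 := by rw [hB, Finset.mem_filter] at h0; exact h0.2
      unfold Dop
      rw [← (decE q).sum_comp, Fintype.sum_prod_type, Fin.sum_univ_succ]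
      congr 1
      · refine Finset.sum_congr rfl (fun e _ => ?_)
        rw [decE_sign, if_pos rfl, one_mul]
        congr 2
        have h1 : lam ∘ decE q (0, e) = (Fin.cons (lam 0) (Fin.tail lam ∘ e) :
            Fin (q + 1) → Lt k l) := by
          funext i
          rcases Fin.eq_zero_or_eq_succ i with rfl | ⟨i, rfl⟩
          · rw [Function.comp_apply, decE_p, Fin.cons_zero]
          · have := decE_succ 0 e i
            rw [swap_self, Equiv.refl_apply] at this
            rw [Function.comp_apply, this, Fin.cons_succ]; rfl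
        rw [h1, extend_cons hinj (hs0 s0 h0)]
        rw [← h0', ← hwwn e s0 (hs0 s0 h0)]
        exact Function.update_eq_self s0 (ww e)
      · refine Finset.sum_congr rfl (fun j _ => ?_)
        refine Finset.sum_congr rfl (fun e _ => ?_)
        rw [decE_sign, if_neg (Fin.succ_ne_zero j)]
        have h1 : lam ∘ decE q (j.succ, e) = (Fin.cons (Fin.tail lam (e j))
            (Function.update (Fin.tail lam ∘ e) j (lam 0)) : Fin (q + 1) → Lt k l) := by
          funext i
          rcases Fin.eq_zero_or_eq_succ i with rfl | ⟨i, rfl⟩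
          · have := decE_succ j.succ e j
            rw [swap_apply_right] at this
            rw [Function.comp_apply, this, Fin.cons_zero]; rfl
          · by_cases hij : i = j
            · subst hij
              rw [Function.comp_apply, decE_p, Fin.cons_succ, Function.update_self]
            · have := decE_succ j.succ e i
              rw [swap_apply_of_ne_of_ne (Fin.succ_ne_zero i)
                (fun e => hij (Fin.succ_injective _ e))] at this
              rw [Function.comp_apply, this, Fin.cons_succ, Function.update_of_ne hij]; rfl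
        rw [h1, extend_cons hinj (hs0 s0 h0)]
        have h2 : Function.extend s (Function.update (Fin.tail lam ∘ e) j (lam 0)) w
            = Function.update (ww e) (s j) (lam 0) := by
          funext x
          by_cases hx : ∃ i, s i = x
          · obtain ⟨i, rfl⟩ := hx
            rw [hinj.extend_apply]
            by_cases hij : i = j
            · subst hij; rw [Function.update_self, Function.update_self]
            · rw [Function.update_of_ne hij, Function.update_of_ne (fun e => hij (hinj e)),
                hwws]; rfl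
          · rw [Function.extend_apply' _ _ _ hx, Function.update_of_ne, hwwn e x]
            · intro i hi; exact hx ⟨i, hi⟩
            · intro e; exact hx ⟨j, e.symm⟩
        rw [h2]
        push_cast
        ring
    have hrel : ∀ e : Perm (Fin q), ∀ j : Fin q, ∑ s0 ∈ B,
        y (Function.update (Function.update (ww e) (s j) (lam 0)) s0 (Fin.tail lam (e j)))
        = - y (ww e) := by
      intro e j
      set ws := Function.update (ww e) (s j) (lam 0) with hws
      have h1 := congrFun (hy (lam 0) (Fin.tail lam (e j)) (hpar _ _)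
        (hlt 0 (e j).succ (Fin.succ_pos _))) ws
      rw [EB_plain R (lam 0) (Fin.tail lam (e j)) (hpar 0 (e j).succ), ← Finset.sum_filter] at h1
      have h2 : R.filter (fun x => ws x = lam 0) = insert (s j) B := by
        ext x
        rw [Finset.mem_filter, Finset.mem_insert, hB, Finset.mem_filter]
        by_cases hx : x = s j
        · subst hx
          simp only [true_or, iff_true]
          refine ⟨(hs j).1, ?_⟩
          rw [hws, Function.update_self]
        · rw [hws, Function.update_of_ne hx]
          by_cases hx2 : ∃ i, s i = x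
          · obtain ⟨i, rfl⟩ := hx2
            rw [hwws, (hs i).2]
            constructor
            · rintro ⟨_, h3⟩; exact absurd h3.symm (hlam0 _)
            · rintro (h3 | h3)
              · exact absurd h3 hx
              · exact absurd h3.2.symm (hlam0 _)
          · rw [hwwn e x (fun i hi => hx2 ⟨i, hi⟩)]
            constructor
            · intro h3; exact Or.inr h3
            · rintro (h3 | h3)
              · exact absurd h3 hx
              · exact h3
      have h3 : s j ∉ B := fun h => hs0 _ h j rfl
      rw [h2, Finset.sum_insert h3] at h1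
      have h4 : Function.update ws (s j) (Fin.tail lam (e j)) = ww e := by
        rw [hws, Function.update_idem, ← hwws e j, Function.update_eq_self]
      rw [h4] at h1
      have h5 : (0 : W k l ι) ws = 0 := rfl
      rw [h5] at h1
      linarith
    have h6 : ∀ s0, (if ∀ i, (Fin.cons s0 s : Fin (q + 1) → ι) i ∈ R ∧
        w ((Fin.cons s0 s : Fin (q + 1) → ι) i) = lam i then
        Dop lam (Fin.cons s0 s : Fin (q + 1) → ι) y w else 0)
        = if s0 ∈ B then Dop lam (Fin.cons s0 s : Fin (q + 1) → ι) y w else 0 := by
      intro s0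
      have : (∀ i, (Fin.cons s0 s : Fin (q + 1) → ι) i ∈ R ∧
        w ((Fin.cons s0 s : Fin (q + 1) → ι) i) = lam i) ↔ s0 ∈ B := by
        rw [Fin.forall_fin_succ, hB, Finset.mem_filter]
        simp only [Fin.cons_zero, Fin.cons_succ]
        exact ⟨fun h => h.1, fun h => ⟨h, hs⟩⟩
      by_cases h7 : s0 ∈ B
      · rw [if_pos h7, if_pos (this.2 h7)]
      · rw [if_neg h7, if_neg (fun h8 => h7 (this.1 h8))]
    have h7 : ∑ s0 : ι, (if ∀ i, ((Fin.consEquiv (fun _ : Fin (q + 1) => ι)) (s0, s)) i ∈ R ∧
        w (((Fin.consEquiv (fun _ : Fin (q + 1) => ι)) (s0, s)) i) = lam i then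
        Dop lam ((Fin.consEquiv (fun _ : Fin (q + 1) => ι)) (s0, s)) y w else 0)
        = ∑ s0 ∈ B, Dop lam (Fin.cons s0 s : Fin (q + 1) → ι) y w := by
      refine (Finset.sum_congr rfl (fun s0 _ => h6 s0)).trans ?_
      rw [← Finset.sum_filter, Finset.filter_mem_eq_inter, Finset.univ_inter]
    rw [h7, Finset.sum_congr rfl hD, Finset.sum_add_distrib, Finset.sum_const, nsmul_eq_mul]
    have h8 : ∑ s0 ∈ B, ∑ j : Fin q, ∑ e : Perm (Fin q), (-((Perm.sign e : ℤ) : ℚ)) *
            y (Function.update (Function.update (ww e) (s j) (lam 0)) s0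
              (Fin.tail lam (e j))) = (q : ℚ) * ∑ e : Perm (Fin q), ((Perm.sign e : ℤ) : ℚ) *
              y (ww e) := by
      rw [Finset.sum_comm]
      have h9 : ∀ j ∈ (univ : Finset (Fin q)), ∑ s0 ∈ B, ∑ e : Perm (Fin q),
          (-((Perm.sign e : ℤ) : ℚ)) * y (Function.update (Function.update (ww e) (s j) (lam 0))
          s0 (Fin.tail lam (e j))) = ∑ e : Perm (Fin q), ((Perm.sign e : ℤ) : ℚ) *
              y (ww e) := by
        intro j _
        rw [Finset.sum_comm]
        refine Finset.sum_congr rfl (fun e _ => ?_)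
        rw [← Finset.mul_sum, hrel e j]
        ring
      rw [Finset.sum_congr rfl h9, Finset.sum_const, Finset.card_univ, Fintype.card_fin,
        nsmul_eq_mul]
    rw [h8]
    unfold Dop
    ring

end Pool.PI34.Super
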