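import Pool.Agent.LibPI34.Rl1

/-!
PI34, rational lemma, file 2: iterated contractions.
-/

set_option linter.unusedSectionVars false
set_option linter.unusedSimpArgs false

namespace Pool.PI34.Super

open Equiv Finset

variable {k l : ℕ} {ι : Type} [Fintype ι] [LinearOrder ι]

/-- The number of occurrences of `a` in `R`. -/
def cntR (R : Finset ι) (a : Lt k l) (w : ι → Lt k l) : ℕ := (R.filter (fun s => w s = a)).card

theorem exists_Dop {q : ℕ} {lam : Fin q → Lt k l} (hlt : ∀ i j, i < j → idx (lam i) < idx (lam j))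
    (hpar : ∀ i j, odd (lam i) = odd (lam j)) {R : Finset ι} {y : W k l ι} (hy : PR R y)
    {w : ι → Lt k l} (hw : y w ≠ 0) (hex : ∀ i, ∃ s ∈ R, w s = lam i) :
    ∃ s : Fin q → ι, Function.Injective s ∧ (∀ i, s i ∈ R) ∧ Dop lam s y w ≠ 0 := by
  classical
  obtain ⟨c, hc, hF⟩ := F_formula q lam hlt hpar R y hy w hex
  have h1 : ∑ s : Fin q → ι, (if ∀ i, s i ∈ R ∧ w (s i) = lam i then Dop lam s y w else 0) ≠ 0 := by
    rw [hF]; exact mul_ne_zero hc.ne' hw
  obtain ⟨s, _, hs⟩ := Finset.exists_ne_zero_of_sum_ne_zero h1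
  split_ifs at hs with h2
  · refine ⟨s, ?_, fun i => (h2 i).1, hs⟩
    intro i j hij
    by_contra hne
    have h3 := (h2 i).2
    have h4 := (h2 j).2
    rw [hij, h4] at h3
    rcases lt_or_gt_of_ne hne with h | h
    · have := hlt i j h; rw [h3] at this; exact lt_irrefl _ this
    · have := hlt j i h; rw [h3] at this; exact lt_irrefl _ this
  · exact absurd rfl hs

theorem extend_update {q : ℕ} {s : Fin q → ι} {t : ι} (ht : ∀ i, s i ≠ t)
    (u : Fin q → Lt k l) (w : ι → Lt k l) (b : Lt k l) :
    Function.extend s u (Function.update w t b) = Function.update (Function.extend s u w) t b := by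
  funext x
  by_cases hx : ∃ i, s i = x
  · obtain ⟨i, rfl⟩ := hx
    rw [Function.update_of_ne (ht i)]
    by_cases h : ∃ a, s a = s i
    · rw [Function.extend_def, Function.extend_def, dif_pos h, dif_pos h]
    · exact absurd ⟨i, rfl⟩ h
  · rw [Function.extend_apply' _ _ _ hx]
    by_cases hxt : x = t
    · subst hxt; rw [Function.update_self, Function.update_self]
    · rw [Function.update_of_ne hxt, Function.update_of_ne hxt, Function.extend_apply' _ _ _ hx]

theorem Dop_PR' {q : ℕ} {lam : Fin q → Lt k l} (hinjl : Function.Injective lam)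
    (hcl : ∀ a b : Lt k l, odd a = odd b → idx a < idx b → (∃ i, lam i = a) → ∃ i, lam i = b)
    {s : Fin q → ι} (hs : Function.Injective s) {R : Finset ι} (hsR : ∀ i, s i ∈ R)
    {y : W k l ι} (hy : PR R y) : PR (R \ univ.image s) (Dop lam s y) := by
  classical
  intro a b hab hlt
  funext w
  have hne : a ≠ b := fun e => by rw [e] at hlt; exact lt_irrefl _ hlt
  rw [EB_plain _ a b hab]
  have h1 : ∀ t ∈ R \ univ.image s, (if w t = a then Dop lam s y (Function.update w t b) else 0)
      = ∑ π : Perm (Fin q), ((Perm.sign π : ℤ) : ℚ) *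
        (if (Function.extend s (lam ∘ π) w) t = a then
          y (Function.update (Function.extend s (lam ∘ π) w) t b) else 0) := by
    intro t ht
    rw [Finset.mem_sdiff, Finset.mem_image] at ht
    have ht' : ∀ i, s i ≠ t := fun i e => ht.2 ⟨i, Finset.mem_univ _, e⟩
    have h2 : ∀ π : Perm (Fin q), (Function.extend s (lam ∘ π) w) t = w t := by
      intro π
      rw [Function.extend_apply']
      rintro ⟨i, hi⟩; exact ht' i hi
    simp only [h2]
    by_cases hw : w t = a
    · simp only [hw, if_true]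
      unfold Dop
      refine Finset.sum_congr rfl (fun π _ => ?_)
      rw [extend_update ht']
    · simp [hw]
  rw [Finset.sum_congr rfl h1, Finset.sum_comm]
  have h3 : ∀ π : Perm (Fin q), ∑ t ∈ R \ univ.image s, ((Perm.sign π : ℤ) : ℚ) *
        (if (Function.extend s (lam ∘ π) w) t = a then
          y (Function.update (Function.extend s (lam ∘ π) w) t b) else 0)
      = - ∑ i : Fin q, ((Perm.sign π : ℤ) : ℚ) * (if lam (π i) = a then
          y (Function.update (Function.extend s (lam ∘ π) w) (s i) b) else 0) := by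
    intro π
    rw [← Finset.mul_sum, ← Finset.mul_sum]
    have h4 := congrFun (hy a b hab hlt) (Function.extend s (lam ∘ π) w)
    rw [EB_plain _ a b hab] at h4
    have hsub : univ.image s ⊆ R := by
      intro t ht
      rw [Finset.mem_image] at ht
      obtain ⟨i, _, rfl⟩ := ht
      exact hsR i
    rw [← Finset.sum_sdiff hsub, Finset.sum_image (fun i _ j _ h => hs h)] at h4
    have h5 : ∀ i ∈ (univ : Finset (Fin q)), (if (Function.extend s (lam ∘ π) w) (s i) = a then
        y (Function.update (Function.extend s (lam ∘ π) w) (s i) b) else 0)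
        = (if lam (π i) = a then
          y (Function.update (Function.extend s (lam ∘ π) w) (s i) b) else 0) := by
      intro i _
      rw [hs.extend_apply]; rfl
    rw [Finset.sum_congr rfl h5] at h4
    have h6 : (0 : W k l ι) (Function.extend s (lam ∘ π) w) = 0 := rfl
    rw [h6] at h4
    rw [eq_neg_of_add_eq_zero_left h4]
    ring
  rw [Finset.sum_congr rfl (fun π _ => h3 π), Finset.sum_neg_distrib]
  have h7 : (0 : W k l ι) w = 0 := rfl
  rw [h7, neg_eq_zero]
  by_cases ha : ∃ i, lam i = a
  swap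
  · refine Finset.sum_eq_zero (fun π _ => Finset.sum_eq_zero (fun i _ => ?_))
    rw [if_neg, mul_zero]
    intro h; exact ha ⟨_, h⟩
  obtain ⟨d, hd⟩ := hcl a b hab hlt ha
  obtain ⟨c, hc⟩ := ha
  have hcd : c ≠ d := fun e => hne (by rw [← hc, ← hd, e])
  have h8 : ∀ π : Perm (Fin q), ∑ i : Fin q, ((Perm.sign π : ℤ) : ℚ) * (if lam (π i) = a then
          y (Function.update (Function.extend s (lam ∘ π) w) (s i) b) else 0)
      = ((Perm.sign π : ℤ) : ℚ) *
          y (Function.extend s (Function.update (lam ∘ π) (π.symm c) b) w) := by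
    intro π
    rw [Finset.sum_eq_single (π.symm c)]
    · rw [if_pos (by rw [Equiv.apply_symm_apply, hc])]
      congr 2
      funext x
      by_cases hx : ∃ i, s i = x
      · obtain ⟨i, rfl⟩ := hx
        rw [hs.extend_apply]
        by_cases hi : i = π.symm c
        · subst hi; rw [Function.update_self, Function.update_self]
        · rw [Function.update_of_ne hi, Function.update_of_ne (fun e => hi (hs e)),
            hs.extend_apply]
      · rw [Function.extend_apply' _ _ _ hx, Function.update_of_ne,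
          Function.extend_apply' _ _ _ hx]
        rintro rfl; exact hx ⟨_, rfl⟩
    · intro i _ hi
      rw [if_neg, mul_zero]
      intro h
      apply hi
      rw [← hc] at h
      rw [← hinjl h, Equiv.symm_apply_apply]
    · intro h; exact absurd (Finset.mem_univ _) h
  rw [Finset.sum_congr rfl (fun π _ => h8 π)]
  refine Finset.sum_involution (fun π _ => swap c d * π) ?_ ?_ ?_ ?_
  · intro π _
    rw [Perm.sign_mul, Perm.sign_swap hcd]
    have h9 : Function.update (lam ∘ ⇑(swap c d * π)) ((swap c d * π).symm c) b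
        = Function.update (lam ∘ π) (π.symm c) b := by
      have e1 : (swap c d * π).symm c = π.symm d := by
        rw [Equiv.symm_apply_eq, Perm.mul_apply, Equiv.apply_symm_apply, swap_apply_right]
      rw [e1]
      funext i
      by_cases hi : i = π.symm d
      · subst hi
        rw [Function.update_self]
        by_cases hi2 : π.symm d = π.symm c
        · exact absurd (π.symm.injective hi2).symm hcd
        · rw [Function.update_of_ne hi2, Function.comp_apply, Equiv.apply_symm_apply, hd]
      · rw [Function.update_of_ne hi]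
        by_cases hi2 : i = π.symm c
        · subst hi2
          rw [Function.update_self, Function.comp_apply, Perm.mul_apply,
            Equiv.apply_symm_apply, swap_apply_left, hd]
        · rw [Function.update_of_ne hi2, Function.comp_apply, Function.comp_apply,
            Perm.mul_apply, swap_apply_of_ne_of_ne]
          · intro e; apply hi2; rw [← e, Equiv.symm_apply_apply]
          · intro e; apply hi; rw [← e, Equiv.symm_apply_apply]
    rw [h9]
    push_cast
    ring
  · intro π _ _ h
    have : swap c d = 1 := by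
      have := congrArg (fun x => x * π⁻¹) h
      simpa [mul_assoc] using this
    exact hcd (swap_eq_one_iff.1 this)
  · intro π _; exact Finset.mem_univ _
  · intro π _
    rw [← mul_assoc, swap_mul_self, one_mul]

theorem Dop_PR {q : ℕ} {lam : Fin q → Lt k l} (hinjl : Function.Injective lam)
    (hcl : ∀ a b : Lt k l, odd a = odd b → (∃ i, lam i = a) → ∃ i, lam i = b)
    {s : Fin q → ι} (hs : Function.Injective s) {R : Finset ι} (hsR : ∀ i, s i ∈ R)
    {y : W k l ι} (hy : PR R y) : PR (R \ univ.image s) (Dop lam s y) :=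
  Dop_PR' hinjl (fun a b h _ => hcl a b h) hs hsR hy

theorem Dop_cnt {q : ℕ} {lam : Fin q → Lt k l} (hinjl : Function.Injective lam)
    {s : Fin q → ι} (hs : Function.Injective s) {R : Finset ι} (hsR : ∀ i, s i ∈ R)
    {y : W k l ι} {a : Lt k l} {c : ℕ} (hc : ∀ w, y w ≠ 0 → c ≤ cntR R a w)
    {w : ι → Lt k l} (hw : Dop lam s y w ≠ 0) :
    ((∃ i, lam i = a) → c ≤ cntR (R \ univ.image s) a w + 1) ∧
    ((¬ ∃ i, lam i = a) → c ≤ cntR (R \ univ.image s) a w) := by
  classical
  unfold Dop at hw
  obtain ⟨π, _, hπ⟩ := Finset.exists_ne_zero_of_sum_ne_zero hw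
  have h1 := hc _ (right_ne_zero_of_mul hπ)
  have hsub : univ.image s ⊆ R := by
    intro t ht
    rw [Finset.mem_image] at ht
    obtain ⟨i, _, rfl⟩ := ht
    exact hsR i
  have h2 : cntR R a (Function.extend s (lam ∘ π) w)
      = cntR (R \ univ.image s) a w + (univ.filter (fun i : Fin q => lam (π i) = a)).card := by
    unfold cntR
    have h3 : R.filter (fun t => Function.extend s (lam ∘ π) w t = a)
        = (R \ univ.image s).filter (fun t => w t = a) ∪
          (univ.filter (fun i : Fin q => lam (π i) = a)).image s := by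
      ext t
      simp only [Finset.mem_filter, Finset.mem_union, Finset.mem_sdiff, Finset.mem_image,
        Finset.mem_univ, true_and]
      by_cases ht : ∃ i, s i = t
      · obtain ⟨i, rfl⟩ := ht
        rw [hs.extend_apply]
        constructor
        · rintro ⟨_, h⟩; exact Or.inr ⟨i, h, rfl⟩
        · rintro (⟨⟨_, h⟩, _⟩ | ⟨j, h, he⟩)
          · exact absurd ⟨i, rfl⟩ h
          · rw [← hs he]; exact ⟨hsR _, h⟩
      · rw [Function.extend_apply' _ _ _ ht]
        constructor
        · rintro ⟨h, h'⟩; exact Or.inl ⟨⟨h, ht⟩, h'⟩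
        · rintro (⟨⟨h, _⟩, h'⟩ | ⟨j, _, he⟩)
          · exact ⟨h, h'⟩
          · exact absurd ⟨j, he⟩ ht
    rw [h3, Finset.card_union_of_disjoint, Finset.card_image_of_injective _ hs]
    rw [Finset.disjoint_left]
    intro t ht ht'
    rw [Finset.mem_filter, Finset.mem_sdiff, Finset.mem_image] at ht
    rw [Finset.mem_image] at ht'
    obtain ⟨i, _, hi⟩ := ht'
    exact ht.1.2 ⟨i, Finset.mem_univ _, hi⟩
  rw [h2] at h1
  constructor
  · intro _
    have h4 : (univ.filter (fun i : Fin q => lam (π i) = a)).card ≤ 1 := by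
      rw [Finset.card_le_one]
      intro i hi j hj
      rw [Finset.mem_filter] at hi hj
      exact π.injective (hinjl (hi.2.trans hj.2.symm))
    omega
  · intro h
    have h4 : (univ.filter (fun i : Fin q => lam (π i) = a)).card = 0 := by
      rw [Finset.card_eq_zero, Finset.filter_eq_empty_iff]
      intro i _ e
      exact h ⟨_, e⟩
    omega

/-- The state of the induction. -/
structure QQ (R : Finset ι) (y : W k l ι) (α β : ℕ) : Prop where
  pr : PR R y
  ne : y ≠ 0
  ev : ∀ w, y w ≠ 0 → ∀ i : Fin k, α ≤ cntR R (Sum.inl i) w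
  od : ∀ w, y w ≠ 0 → ∀ j : Fin l, β ≤ cntR R (Sum.inr j) w

/-- Iterated contraction. -/
noncomputable def Drows {q : ℕ} (lam : Fin q → Lt k l) : (r : ℕ) → (Fin r → Fin q → ι) →
    W k l ι → W k l ι
  | 0, _, y => y
  | r + 1, p, y => Drows lam r (Fin.tail p) (Dop lam (p 0) y)

theorem cntR_pos {R : Finset ι} {a : Lt k l} {w : ι → Lt k l} {c : ℕ}
    (h : c + 1 ≤ cntR R a w) : ∃ s ∈ R, w s = a := by
  have : (R.filter (fun s => w s = a)).Nonempty := by
    rw [← Finset.card_pos]; unfold cntR at h; omega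
  obtain ⟨s, hs⟩ := this
  rw [Finset.mem_filter] at hs
  exact ⟨s, hs⟩

theorem step_ev {R : Finset ι} {y : W k l ι} {α β : ℕ} (h : QQ R y (α + 1) β) :
    ∃ s : Fin k → ι, Function.Injective s ∧ (∀ i, s i ∈ R) ∧
      QQ (R \ univ.image s) (Dop (Sum.inl : Fin k → Lt k l) s y) α β := by
  classical
  obtain ⟨w, hw⟩ := Function.ne_iff.1 h.ne
  have hlt : ∀ i j : Fin k, i < j → idx (Sum.inl i : Lt k l) < idx (Sum.inl j : Lt k l) :=
    fun i j hij => hij
  obtain ⟨s, hs1, hs2, hs3⟩ := exists_Dop (lam := (Sum.inl : Fin k → Lt k l)) hlt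
    (fun _ _ => rfl) h.pr hw (fun i => cntR_pos (h.ev w hw i))
  refine ⟨s, hs1, hs2, ?_, ?_, ?_, ?_⟩
  · refine Dop_PR Sum.inl_injective ?_ hs1 hs2 h.pr
    rintro a b hab ⟨i, rfl⟩
    rcases b with b | b
    · exact ⟨b, rfl⟩
    · simp at hab
  · intro e; apply hs3; rw [e]; rfl
  · intro w' hw' i
    have := (Dop_cnt Sum.inl_injective hs1 hs2 (fun w h' => h.ev w h' i) hw').1 ⟨i, rfl⟩
    omega
  · intro w' hw' j
    exact (Dop_cnt Sum.inl_injective hs1 hs2 (fun w h' => h.od w h' j) hw').2
      (by rintro ⟨i, hi⟩; simp at hi)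

theorem step_od {R : Finset ι} {y : W k l ι} {α β : ℕ} (h : QQ R y α (β + 1)) :
    ∃ s : Fin l → ι, Function.Injective s ∧ (∀ i, s i ∈ R) ∧
      QQ (R \ univ.image s) (Dop (Sum.inr : Fin l → Lt k l) s y) α β := by
  classical
  obtain ⟨w, hw⟩ := Function.ne_iff.1 h.ne
  have hlt : ∀ i j : Fin l, i < j → idx (Sum.inr i : Lt k l) < idx (Sum.inr j : Lt k l) := by
    intro i j hij
    simp only [idx, Sum.elim_inr]
    rw [Fin.lt_def] at hij
    omega
  obtain ⟨s, hs1, hs2, hs3⟩ := exists_Dop (lam := (Sum.inr : Fin l → Lt k l)) hlt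
    (fun _ _ => rfl) h.pr hw (fun i => cntR_pos (h.od w hw i))
  refine ⟨s, hs1, hs2, ?_, ?_, ?_, ?_⟩
  · refine Dop_PR Sum.inr_injective ?_ hs1 hs2 h.pr
    rintro a b hab ⟨i, rfl⟩
    rcases b with b | b
    · simp at hab
    · exact ⟨b, rfl⟩
  · intro e; apply hs3; rw [e]; rfl
  · intro w' hw' i
    exact (Dop_cnt Sum.inr_injective hs1 hs2 (fun w h' => h.ev w h' i) hw').2
      (by rintro ⟨i, hi⟩; simp at hi)
  · intro w' hw' j
    have := (Dop_cnt Sum.inr_injective hs1 hs2 (fun w h' => h.od w h' j) hw').1 ⟨j, rfl⟩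
    omega

theorem rows_ev : ∀ (r : ℕ) (R : Finset ι) (y : W k l ι) (α β : ℕ), QQ R y (α + r) β →
    ∃ p : Fin r → Fin k → ι, Function.Injective (fun x : Fin r × Fin k => p x.1 x.2) ∧
      (∀ i j, p i j ∈ R) ∧
      QQ (R \ univ.image (fun x : Fin r × Fin k => p x.1 x.2))
        (Drows (Sum.inl : Fin k → Lt k l) r p y) α β := by
  classical
  intro r
  induction r with
  | zero =>
    intro R y α β h
    refine ⟨Fin.elim0, fun x => x.1.elim0, fun i => i.elim0, ?_⟩
    have : (univ : Finset (Fin 0 × Fin k)) = ∅ := Finset.univ_eq_empty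
    rw [this, Finset.image_empty, Finset.sdiff_empty]
    exact h
  | succ r ih =>
    intro R y α β h
    obtain ⟨s, hs1, hs2, hs3⟩ := step_ev (α := α + r) h
    obtain ⟨p, hp1, hp2, hp3⟩ := ih _ _ _ _ hs3
    refine ⟨Fin.cons s p, ?_, ?_, ?_⟩
    · rintro ⟨i, j⟩ ⟨i', j'⟩ hij
      simp only at hij
      rcases Fin.eq_zero_or_eq_succ i with rfl | ⟨i, rfl⟩ <;>
        rcases Fin.eq_zero_or_eq_succ i' with rfl | ⟨i', rfl⟩
      · rw [Fin.cons_zero] at hij; rw [hs1 hij]
      · rw [Fin.cons_zero, Fin.cons_succ] at hij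
        have := hp2 i' j'
        rw [← hij, Finset.mem_sdiff] at this
        exact absurd (Finset.mem_image.2 ⟨j, Finset.mem_univ _, rfl⟩) this.2
      · rw [Fin.cons_zero, Fin.cons_succ] at hij
        have := hp2 i j
        rw [hij, Finset.mem_sdiff] at this
        exact absurd (Finset.mem_image.2 ⟨j', Finset.mem_univ _, rfl⟩) this.2
      · rw [Fin.cons_succ, Fin.cons_succ] at hij
        have := @hp1 (i, j) (i', j') hij
        simp only [Prod.mk.injEq] at this
        rw [this.1, this.2]
    · intro i j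
      rcases Fin.eq_zero_or_eq_succ i with rfl | ⟨i, rfl⟩
      · rw [Fin.cons_zero]; exact hs2 j
      · rw [Fin.cons_succ]; exact (Finset.mem_sdiff.1 (hp2 i j)).1
    · have h1 : R \ univ.image (fun x : Fin (r + 1) × Fin k => (Fin.cons s p :
          Fin (r + 1) → Fin k → ι) x.1 x.2)
          = (R \ univ.image s) \ univ.image (fun x : Fin r × Fin k => p x.1 x.2) := by
        ext t
        simp only [Finset.mem_sdiff, Finset.mem_image, Finset.mem_univ, true_and,
          Prod.exists, Fin.exists_fin_succ, Fin.cons_zero, Fin.cons_succ]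
        rw [not_or, and_assoc]
      rw [h1]
      exact hp3

theorem rows_od : ∀ (r : ℕ) (R : Finset ι) (y : W k l ι) (α β : ℕ), QQ R y α (β + r) →
    ∃ p : Fin r → Fin l → ι, Function.Injective (fun x : Fin r × Fin l => p x.1 x.2) ∧
      (∀ i j, p i j ∈ R) ∧
      QQ (R \ univ.image (fun x : Fin r × Fin l => p x.1 x.2))
        (Drows (Sum.inr : Fin l → Lt k l) r p y) α β := by
  classical
  intro r
  induction r with
  | zero =>
    intro R y α β h
    refine ⟨Fin.elim0, fun x => x.1.elim0, fun i => i.elim0, ?_⟩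
    have : (univ : Finset (Fin 0 × Fin l)) = ∅ := Finset.univ_eq_empty
    rw [this, Finset.image_empty, Finset.sdiff_empty]
    exact h
  | succ r ih =>
    intro R y α β h
    obtain ⟨s, hs1, hs2, hs3⟩ := step_od (β := β + r) h
    obtain ⟨p, hp1, hp2, hp3⟩ := ih _ _ _ _ hs3
    refine ⟨Fin.cons s p, ?_, ?_, ?_⟩
    · rintro ⟨i, j⟩ ⟨i', j'⟩ hij
      simp only at hij
      rcases Fin.eq_zero_or_eq_succ i with rfl | ⟨i, rfl⟩ <;>
        rcases Fin.eq_zero_or_eq_succ i' with rfl | ⟨i', rfl⟩
      · rw [Fin.cons_zero] at hij; rw [hs1 hij]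
      · rw [Fin.cons_zero, Fin.cons_succ] at hij
        have := hp2 i' j'
        rw [← hij, Finset.mem_sdiff] at this
        exact absurd (Finset.mem_image.2 ⟨j, Finset.mem_univ _, rfl⟩) this.2
      · rw [Fin.cons_zero, Fin.cons_succ] at hij
        have := hp2 i j
        rw [hij, Finset.mem_sdiff] at this
        exact absurd (Finset.mem_image.2 ⟨j', Finset.mem_univ _, rfl⟩) this.2
      · rw [Fin.cons_succ, Fin.cons_succ] at hij
        have := @hp1 (i, j) (i', j') hij
        simp only [Prod.mk.injEq] at this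
        rw [this.1, this.2]
    · intro i j
      rcases Fin.eq_zero_or_eq_succ i with rfl | ⟨i, rfl⟩
      · rw [Fin.cons_zero]; exact hs2 j
      · rw [Fin.cons_succ]; exact (Finset.mem_sdiff.1 (hp2 i j)).1
    · have h1 : R \ univ.image (fun x : Fin (r + 1) × Fin l => (Fin.cons s p :
          Fin (r + 1) → Fin l → ι) x.1 x.2)
          = (R \ univ.image s) \ univ.image (fun x : Fin r × Fin l => p x.1 x.2) := by
        ext t
        simp only [Finset.mem_sdiff, Finset.mem_image, Finset.mem_univ, true_and,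
          Prod.exists, Fin.exists_fin_succ, Fin.cons_zero, Fin.cons_succ]
        rw [not_or, and_assoc]
      rw [h1]
      exact hp3

end Pool.PI34.Super
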