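import Pool.Agent.LibPI34.Rl2

/-!
PI34, rational lemma, file 3: a highest weight vector with large weights pairs with
some `σ (e_v ⊗ ξ)`.
-/

set_option linter.unusedSectionVars false
set_option linter.unusedSimpArgs false

namespace Pool.PI34.Super

open Equiv Finset

variable {k l : ℕ} {ι : Type} [Fintype ι] [LinearOrder ι]

theorem Drows_apply {q : ℕ} (lam : Fin q → Lt k l) : ∀ (r : ℕ) (p : Fin r → Fin q → ι)
    (_ : Function.Injective (fun x : Fin r × Fin q => p x.1 x.2)) (y : W k l ι)
    (w : ι → Lt k l),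
    Drows lam r p y w = ∑ π : Fin r → Perm (Fin q), (∏ j, ((Perm.sign (π j) : ℤ) : ℚ)) *
      y (Function.extend (fun x : Fin r × Fin q => p x.1 x.2) (fun x => lam (π x.1 x.2)) w) := by
  classical
  intro r
  induction r with
  | zero =>
    intro p _ y w
    rw [Fintype.sum_unique]
    have : ∀ u : Fin 0 × Fin q → Lt k l,
        Function.extend (fun x : Fin 0 × Fin q => p x.1 x.2) u w = w := by
      intro u
      funext x
      rw [Function.extend_apply']
      rintro ⟨⟨i, _⟩, _⟩; exact i.elim0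
    rw [this]
    simp [Drows]
  | succ r ih =>
    intro p hp y w
    have hp' : Function.Injective (fun x : Fin r × Fin q => Fin.tail p x.1 x.2) := by
      rintro ⟨i, j⟩ ⟨i', j'⟩ h
      have := @hp (i.succ, j) (i'.succ, j') h
      simp only [Prod.mk.injEq, Fin.succ_inj] at this
      rw [this.1, this.2]
    have h0 : Function.Injective (p 0) := by
      intro j j' h
      have := @hp (0, j) (0, j') h
      simp only [Prod.mk.injEq] at this
      exact this.2
    unfold Drows
    rw [ih (Fin.tail p) hp', ← (Fin.consEquiv (fun _ : Fin (r + 1) => Perm (Fin q))).sum_comp,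
      Fintype.sum_prod_type, Finset.sum_comm]
    refine Finset.sum_congr rfl (fun π _ => ?_)
    unfold Dop
    rw [Finset.mul_sum]
    refine Finset.sum_congr rfl (fun π0 _ => ?_)
    have h1 : (Fin.consEquiv (fun _ : Fin (r + 1) => Perm (Fin q))) (π0, π)
        = (Fin.cons π0 π : Fin (r + 1) → Perm (Fin q)) := rfl
    rw [h1, Fin.prod_univ_succ, Fin.cons_zero]
    simp only [Fin.cons_succ]
    have h2 : Function.extend (p 0) (lam ∘ π0) (Function.extend (fun x : Fin r × Fin q =>
        Fin.tail p x.1 x.2) (fun x => lam (π x.1 x.2)) w)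
        = Function.extend (fun x : Fin (r + 1) × Fin q => p x.1 x.2)
          (fun x => lam ((Fin.cons π0 π : Fin (r + 1) → Perm (Fin q)) x.1 x.2)) w := by
      funext x
      by_cases hx : ∃ j, p 0 j = x
      · obtain ⟨j, rfl⟩ := hx
        rw [h0.extend_apply]
        have := hp.extend_apply (fun x : Fin (r + 1) × Fin q =>
          lam ((Fin.cons π0 π : Fin (r + 1) → Perm (Fin q)) x.1 x.2)) w (0, j)
        simp only [Fin.cons_zero] at this
        rw [this]; rfl
      · rw [Function.extend_apply' _ _ _ hx]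
        by_cases hx2 : ∃ a : Fin r × Fin q, Fin.tail p a.1 a.2 = x
        · obtain ⟨a, rfl⟩ := hx2
          have e1 := hp'.extend_apply (fun x : Fin r × Fin q => lam (π x.1 x.2)) w a
          have e2 := hp.extend_apply (fun x : Fin (r + 1) × Fin q =>
            lam ((Fin.cons π0 π : Fin (r + 1) → Perm (Fin q)) x.1 x.2)) w (a.1.succ, a.2)
          simp only [Fin.cons_succ] at e2
          rw [e1]
          exact e2.symm
        · rw [Function.extend_apply' _ _ _ hx2, Function.extend_apply']
          rintro ⟨⟨i, j⟩, hi⟩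
          rcases Fin.eq_zero_or_eq_succ i with rfl | ⟨i, rfl⟩
          · exact hx ⟨j, hi⟩
          · exact hx2 ⟨(i, j), hi⟩
    rw [h2]
    ring

/-- The word given by two families of permutations. -/
def UU (π : Fin l → Perm (Fin k)) (π' : Fin k → Perm (Fin l)) : Fin (mm k l) → Lt k l :=
  fun s => Sum.elim (fun x : Fin l × Fin k => (Sum.inl (π x.1 x.2) : Lt k l))
    (fun x : Fin k × Fin l => (Sum.inr (π' x.1 x.2) : Lt k l)) ((catEquiv k l).symm s)

theorem UU_pos1 (π : Fin l → Perm (Fin k)) (π' : Fin k → Perm (Fin l)) (x : Fin l × Fin k) :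
    UU π π' (pos1 k l x) = Sum.inl (π x.1 x.2) := by
  unfold UU pos1; rw [Equiv.symm_apply_apply]; rfl

theorem UU_pos2 (π : Fin l → Perm (Fin k)) (π' : Fin k → Perm (Fin l)) (x : Fin k × Fin l) :
    UU π π' (pos2 k l x) = Sum.inr (π' x.1 x.2) := by
  unfold UU pos2; rw [Equiv.symm_apply_apply]; rfl

theorem DD_expand {ι : Type} [DecidableEq ι] {r n : ℕ} (pos : Fin r × Fin n → ι)
    (lam : Fin n → Lt k l) (w : ι → Lt k l) :
    DD pos lam w = ∑ π : Fin r → Perm (Fin n), (∏ j, ((Perm.sign (π j) : ℤ) : ℚ)) *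
      (if ∀ x : Fin r × Fin n, w (pos x) = lam (π x.1 x.2) then 1 else 0) := by
  classical
  unfold DD
  have h1 : ∀ j, (MM pos lam w j).det = ∑ π : Perm (Fin n), ((Perm.sign π : ℤ) : ℚ) *
      (if ∀ i, w (pos (j, i)) = lam (π i) then 1 else 0) := by
    intro j
    rw [← Matrix.det_transpose, Matrix.det_apply']
    refine Finset.sum_congr rfl (fun π _ => ?_)
    congr 1
    simp only [Matrix.transpose_apply, MM_apply]
    by_cases h : ∀ i, w (pos (j, i)) = lam (π i)
    · rw [if_pos h]
      exact Finset.prod_eq_one (fun i _ => by rw [if_pos (h i)])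
    · rw [if_neg h]
      push Not at h
      obtain ⟨i, hi⟩ := h
      exact Finset.prod_eq_zero (Finset.mem_univ i) (by rw [if_neg hi])
  rw [Finset.prod_congr rfl (fun j _ => h1 j), Finset.prod_univ_sum, Fintype.piFinset_univ]
  refine Finset.sum_congr rfl (fun π _ => ?_)
  rw [Finset.prod_mul_distrib]
  congr 1
  by_cases h : ∀ x : Fin r × Fin n, w (pos x) = lam (π x.1 x.2)
  · rw [if_pos h]
    exact Finset.prod_eq_one (fun j _ => by rw [if_pos (fun i => h (j, i))])
  · rw [if_neg h]
    push Not at h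
    obtain ⟨⟨j, i⟩, hi⟩ := h
    refine Finset.prod_eq_zero (Finset.mem_univ j) ?_
    rw [if_neg]
    intro h; exact hi (h i)

theorem xi_expand (u : Fin (mm k l) → Lt k l) :
    xi k l u = ∑ π : Fin l → Perm (Fin k), ∑ π' : Fin k → Perm (Fin l),
      (∏ j, ((Perm.sign (π j) : ℤ) : ℚ)) * (∏ j, ((Perm.sign (π' j) : ℤ) : ℚ)) *
      (if u = UU π π' then 1 else 0) := by
  classical
  unfold xi
  rw [DD_expand, DD_expand, Finset.sum_mul_sum]
  refine Finset.sum_congr rfl (fun π _ => Finset.sum_congr rfl (fun π' _ => ?_))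
  have h : (u = UU π π') ↔ ((∀ x : Fin l × Fin k, u (pos1 k l x) = Sum.inl (π x.1 x.2)) ∧
      (∀ x : Fin k × Fin l, u (pos2 k l x) = Sum.inr (π' x.1 x.2))) := by
    constructor
    · rintro rfl
      exact ⟨fun x => UU_pos1 π π' x, fun x => UU_pos2 π π' x⟩
    · rintro ⟨h1, h2⟩
      funext s
      obtain ⟨x, rfl⟩ := (catEquiv k l).surjective s
      rcases x with x | x
      · exact (h1 x).trans (UU_pos1 π π' x).symm
      · exact (h2 x).trans (UU_pos2 π π' x).symm
  by_cases h1 : ∀ x : Fin l × Fin k, u (pos1 k l x) = Sum.inl (π x.1 x.2)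
  · by_cases h2 : ∀ x : Fin k × Fin l, u (pos2 k l x) = Sum.inr (π' x.1 x.2)
    · rw [if_pos h1, if_pos h2, if_pos (h.2 ⟨h1, h2⟩)]; ring
    · rw [if_neg h2, if_neg (fun h3 => h2 (h.1 h3).2)]; ring
  · rw [if_neg h1, if_neg (fun h3 => h1 (h.1 h3).1)]; ring

theorem xi_sum (g : (Fin (mm k l) → Lt k l) → ℚ) :
    ∑ u, xi k l u * g u = ∑ π : Fin l → Perm (Fin k), ∑ π' : Fin k → Perm (Fin l),
      (∏ j, ((Perm.sign (π j) : ℤ) : ℚ)) * (∏ j, ((Perm.sign (π' j) : ℤ) : ℚ)) *
      g (UU π π') := by
  classical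
  simp only [xi_expand, Finset.sum_mul]
  rw [Finset.sum_comm]
  refine Finset.sum_congr rfl (fun π _ => ?_)
  rw [Finset.sum_comm]
  refine Finset.sum_congr rfl (fun π' _ => ?_)
  rw [Finset.sum_eq_single (UU π π')]
  · rw [if_pos rfl]; ring
  · intro u _ hu
    rw [if_neg hu]; ring
  · intro h; exact absurd (Finset.mem_univ _) h

theorem xi_parity {u : Fin (mm k l) → Lt k l} (hu : xi k l u ≠ 0) :
    pv u = fun s => ((catEquiv k l).symm s).isRight := by
  classical
  rw [xi_expand] at hu
  obtain ⟨π, _, h1⟩ := Finset.exists_ne_zero_of_sum_ne_zero hu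
  obtain ⟨π', _, h2⟩ := Finset.exists_ne_zero_of_sum_ne_zero h1
  have h3 : u = UU π π' := by
    by_contra h
    rw [if_neg h, mul_zero] at h2
    exact h2 rfl
  rw [h3]
  funext s
  obtain ⟨x, rfl⟩ := (catEquiv k l).surjective s
  unfold pv UU
  rw [Equiv.symm_apply_apply]
  rcases x with x | x <;> rfl

theorem inv_app' {α : Type*} (σ : Perm α) (x : α) : σ⁻¹ (σ x) = x := σ.symm_apply_apply x

theorem app_inv' {α : Type*} (σ : Perm α) (x : α) : σ (σ⁻¹ x) = x := σ.apply_symm_apply x

theorem exists_perm_extending {n m : ℕ} (P : Fin m → Fin (n + m)) (hP : Function.Injective P) :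
    ∃ σ : Perm (Fin (n + m)), ∀ s, σ (phR n m s) = P s := by
  classical
  let e : {x // x ∈ Set.range (phR n m)} ≃ {x // x ∈ Set.range P} :=
    (Equiv.ofInjective _ (phR n m).injective).symm.trans (Equiv.ofInjective _ hP)
  refine ⟨e.extendSubtype, fun s => ?_⟩
  have := e.extendSubtype_apply_of_mem (phR n m s) ⟨s, rfl⟩
  rw [this]
  change ((Equiv.ofInjective _ hP) ((Equiv.ofInjective _ (phR n m).injective).symm
    ⟨phR n m s, ⟨s, rfl⟩⟩) : Fin (n + m)) = P s
  have h2 : (Equiv.ofInjective _ (phR n m).injective).symm ⟨phR n m s, ⟨s, rfl⟩⟩ = s := by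
    rw [Equiv.symm_apply_eq]; rfl
  rw [h2]; rfl

/-- The pairing statement. -/
theorem exists_pair {n : ℕ} {x : W k l (Fin (n + mm k l))} {α β : ℕ}
    (hx : QQ univ x (α + l) (β + k)) :
    ∃ (σ : Perm (Fin (n + mm k l))) (v : Fin n → Lt k l),
      ip x (rho k l _ σ (tn v (xi k l))) ≠ 0 := by
  classical
  obtain ⟨p, hp1, hp2, hp3⟩ := rows_ev l univ x α (β + k) hx
  obtain ⟨p', hp'1, hp'2, hp'3⟩ := rows_od k _ _ α β hp3
  obtain ⟨w, hw⟩ := Function.ne_iff.1 hp'3.ne
  have hw' : Drows (Sum.inr : Fin l → Lt k l) k p' (Drows (Sum.inl : Fin k → Lt k l) l p x) w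
    ≠ 0 := hw
  rw [Drows_apply _ _ _ hp'1] at hw'
  simp only [Drows_apply _ _ _ hp1] at hw'
  -- the positions
  let P : Fin (mm k l) → Fin (n + mm k l) := fun s =>
    Sum.elim (fun x : Fin l × Fin k => p x.1 x.2) (fun x : Fin k × Fin l => p' x.1 x.2)
      ((catEquiv k l).symm s)
  have hP1 : ∀ x, P (pos1 k l x) = p x.1 x.2 := by
    intro x; simp only [P, pos1, Equiv.symm_apply_apply]; rfl
  have hP2 : ∀ x, P (pos2 k l x) = p' x.1 x.2 := by
    intro x; simp only [P, pos2, Equiv.symm_apply_apply]; rfl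
  have hdis : ∀ (x : Fin l × Fin k) (x' : Fin k × Fin l), p x.1 x.2 ≠ p' x'.1 x'.2 := by
    intro x x' e
    have := hp'2 x'.1 x'.2
    rw [Finset.mem_sdiff, Finset.mem_image] at this
    exact this.2 ⟨x, Finset.mem_univ _, e⟩
  have hPinj : Function.Injective P := by
    intro s t hst
    obtain ⟨a, rfl⟩ := (catEquiv k l).surjective s
    obtain ⟨b, rfl⟩ := (catEquiv k l).surjective t
    simp only [P, Equiv.symm_apply_apply] at hst
    rcases a with a | a <;> rcases b with b | b
    · simp only [Sum.elim_inl] at hst; rw [hp1 hst]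
    · simp only [Sum.elim_inl, Sum.elim_inr] at hst; exact absurd hst (hdis a b)
    · simp only [Sum.elim_inl, Sum.elim_inr] at hst; exact absurd hst.symm (hdis b a)
    · simp only [Sum.elim_inr] at hst; rw [hp'1 hst]
  have hword : ∀ (π : Fin l → Perm (Fin k)) (π' : Fin k → Perm (Fin l)),
      Function.extend (fun x : Fin l × Fin k => p x.1 x.2)
        (fun x => (Sum.inl (π x.1 x.2) : Lt k l))
        (Function.extend (fun x : Fin k × Fin l => p' x.1 x.2)
          (fun x => (Sum.inr (π' x.1 x.2) : Lt k l)) w)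
      = Function.extend P (UU π π') w := by
    intro π π'
    funext t
    by_cases h1 : ∃ a : Fin l × Fin k, p a.1 a.2 = t
    · obtain ⟨a, rfl⟩ := h1
      have e1 := hp1.extend_apply (fun x : Fin l × Fin k => (Sum.inl (π x.1 x.2) : Lt k l))
        (Function.extend (fun x : Fin k × Fin l => p' x.1 x.2)
          (fun x => (Sum.inr (π' x.1 x.2) : Lt k l)) w) a
      rw [e1, ← hP1 a, hPinj.extend_apply, UU_pos1]
    · rw [Function.extend_apply' _ _ _ h1]
      by_cases h2 : ∃ a : Fin k × Fin l, p' a.1 a.2 = t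
      · obtain ⟨a, rfl⟩ := h2
        have e1 := hp'1.extend_apply (fun x : Fin k × Fin l => (Sum.inr (π' x.1 x.2) : Lt k l))
          w a
        rw [e1, ← hP2 a, hPinj.extend_apply, UU_pos2]
      · rw [Function.extend_apply' _ _ _ h2, Function.extend_apply']
        rintro ⟨s, hs⟩
        obtain ⟨a, rfl⟩ := (catEquiv k l).surjective s
        rcases a with a | a
        · exact h1 ⟨a, by rw [← hP1 a]; exact hs⟩
        · exact h2 ⟨a, by rw [← hP2 a]; exact hs⟩
  have hsum : ∑ u, xi k l u * x (Function.extend P u w) ≠ 0 := by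
    rw [xi_sum]
    rw [Finset.sum_comm]
    refine ne_of_eq_of_ne ?_ hw'
    refine Finset.sum_congr rfl (fun π' _ => ?_)
    rw [Finset.mul_sum]
    refine Finset.sum_congr rfl (fun π _ => ?_)
    rw [hword]
    ring
  obtain ⟨σ, hσ⟩ := exists_perm_extending P hPinj
  refine ⟨σ, (w ∘ σ) ∘ phL n (mm k l), ?_⟩
  set v := (w ∘ σ) ∘ phL n (mm k l) with hv
  have h1 : ip x (rho k l _ σ (tn v (xi k l)))
      = ∑ u : Fin (mm k l) → Lt k l, x (Function.extend P u w) *
        (eps σ (pv (Fin.append v u)) * xi k l u) := by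
    unfold ip
    have h2 : ∀ w', x w' * rho k l _ σ (tn v (xi k l)) w'
        = (fun w'' : Fin (n + mm k l) → Lt k l => x (w'' ∘ ⇑σ⁻¹) *
          (eps σ (pv w'') * tn v (xi k l) w'')) (w' ∘ σ) := by
      intro w'
      simp only [rho_apply]
      congr 2
      funext t; simp
    rw [Finset.sum_congr rfl (fun w' _ => h2 w')]
    refine ((Equiv.arrowCongr σ.symm (Equiv.refl (Lt k l))).sum_comp
      (fun w'' : Fin (n + mm k l) → Lt k l => x (w'' ∘ ⇑σ⁻¹) *
          (eps σ (pv w'') * tn v (xi k l) w''))).trans ?_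
    rw [← (Fin.appendEquiv n (mm k l)).sum_comp, Fintype.sum_prod_type,
      Finset.sum_eq_single v]
    · refine Finset.sum_congr rfl (fun u _ => ?_)
      have h3 : Fin.appendEquiv n (mm k l) (v, u) = Fin.append v u := rfl
      rw [h3, tn_apply]
      have h4 : Fin.append v u ∘ phL n (mm k l) = v := by
        funext i; exact Fin.append_left v u i
      have h5 : Fin.append v u ∘ phR n (mm k l) = u := by
        funext i; exact Fin.append_right v u i
      rw [h4, h5, if_pos rfl]
      congr 2
      funext t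
      by_cases ht : ∃ s, P s = t
      · obtain ⟨s, rfl⟩ := ht
        rw [hPinj.extend_apply, Function.comp_apply, ← hσ s]
        rw [inv_app']
        exact Fin.append_right v u s
      · rw [Function.extend_apply' _ _ _ ht, Function.comp_apply]
        have h6 : ∀ s, σ⁻¹ t ≠ phR n (mm k l) s := by
          intro s e
          apply ht
          refine ⟨s, ?_⟩
          rw [← hσ s, ← e, app_inv']
        obtain ⟨i, hi⟩ : ∃ i, σ⁻¹ t = phL n (mm k l) i := by
          refine Fin.addCases (motive := fun y => y = σ⁻¹ t → _) (fun i hi => ⟨i, hi.symm⟩)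
            (fun i hi => absurd hi.symm (h6 i)) (σ⁻¹ t) rfl
        rw [hi]
        have h7 : Fin.append v u (phL n (mm k l) i) = v i := Fin.append_left v u i
        rw [h7, hv, Function.comp_apply, Function.comp_apply, ← hi, app_inv']
    · intro v' _ hv'
      refine Finset.sum_eq_zero (fun u _ => ?_)
      have h3 : Fin.appendEquiv n (mm k l) (v', u) = Fin.append v' u := rfl
      rw [h3, tn_apply]
      have h4 : Fin.append v' u ∘ phL n (mm k l) = v' := by
        funext i; exact Fin.append_left v' u i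
      rw [h4, if_neg hv', mul_zero, mul_zero]
    · intro h; exact absurd (Finset.mem_univ _) h
  rw [h1]
  let χ : Fin (n + mm k l) → Bool := Fin.append (pv v)
    (fun s => ((catEquiv k l).symm s).isRight)
  have h2 : ∀ u : Fin (mm k l) → Lt k l, x (Function.extend P u w) *
        (eps σ (pv (Fin.append v u)) * xi k l u)
      = eps σ χ * (xi k l u * x (Function.extend P u w)) := by
    intro u
    by_cases hu : xi k l u = 0
    · rw [hu]; ring
    · have h3 : pv (Fin.append v u) = χ := by
        funext t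
        refine Fin.addCases (fun i => ?_) (fun i => ?_) t
        · simp only [χ, pv, Fin.append_left]
        · have := congrFun (xi_parity hu) i
          simp only [χ, pv, Fin.append_right] at *
          exact this
      rw [h3]; ring
  rw [Finset.sum_congr rfl (fun u _ => h2 u), ← Finset.mul_sum]
  refine mul_ne_zero ?_ hsum
  intro h
  have := eps_sq σ χ
  rw [h, mul_zero] at this
  exact zero_ne_one this

end Pool.PI34.Super
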