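import Pool.Agent.LibPI34.Rl3

/-!
PI34, rational lemma, file 4: the ideal generated by the catalyst.
-/

set_option linter.unusedSectionVars false
set_option linter.unusedSimpArgs false

namespace Pool.PI34.Super

open Equiv Finset

variable {k l : ℕ} {ι : Type} [Fintype ι] [LinearOrder ι]

/-- The anti-involution `σ ↦ σ⁻¹` as an algebra map to the opposite algebra. -/
noncomputable def stHom (G : Type) [Group G] :
    MonoidAlgebra ℚ G →ₐ[ℚ] (MonoidAlgebra ℚ G)ᵐᵒᵖ :=
  MonoidAlgebra.lift ℚ _ _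
    { toFun := fun g => MulOpposite.op (MonoidAlgebra.of ℚ G g⁻¹)
      map_one' := by rw [inv_one, map_one]; rfl
      map_mul' := fun a b => by rw [mul_inv_rev, map_mul, MulOpposite.op_mul] }

/-- The anti-involution. -/
noncomputable def st {G : Type} [Group G] (a : MonoidAlgebra ℚ G) : MonoidAlgebra ℚ G :=
  (stHom G a).unop

theorem st_of {G : Type} [Group G] (g : G) :
    st (MonoidAlgebra.of ℚ G g) = MonoidAlgebra.of ℚ G g⁻¹ := by
  simp [st, stHom]

theorem st_mul {G : Type} [Group G] (a b : MonoidAlgebra ℚ G) : st (a * b) = st b * st a := by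
  unfold st; rw [map_mul, MulOpposite.unop_mul]

theorem st_add {G : Type} [Group G] (a b : MonoidAlgebra ℚ G) : st (a + b) = st a + st b := by
  unfold st; rw [map_add, MulOpposite.unop_add]

theorem st_smul {G : Type} [Group G] (c : ℚ) (a : MonoidAlgebra ℚ G) :
    st (c • a) = c • st a := by
  unfold st; rw [map_smul, MulOpposite.unop_smul]

theorem st_st {G : Type} [Group G] (a : MonoidAlgebra ℚ G) : st (st a) = a := by
  induction a using MonoidAlgebra.induction_on with
  | of g => rw [st_of, st_of, inv_inv]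
  | add x y hx hy => rw [st_add, st_add, hx, hy]
  | smul r x hx => rw [st_smul, st_smul, hx]

theorem ip_add_left (f g h : W k l ι) : ip (f + g) h = ip f h + ip g h := by
  unfold ip; rw [← Finset.sum_add_distrib]
  exact Finset.sum_congr rfl (fun w _ => by rw [Pi.add_apply]; ring)

theorem ip_smul_left (c : ℚ) (f g : W k l ι) : ip (c • f) g = c * ip f g := by
  unfold ip; rw [Finset.mul_sum]
  exact Finset.sum_congr rfl (fun w _ => by rw [Pi.smul_apply, smul_eq_mul]; ring)

theorem eps_inv (σ : Perm ι) (p : ι → Bool) :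
    eps σ⁻¹ (fun i => p (σ.symm i)) = eps σ p := by
  have h := eps_mul σ⁻¹ σ p
  rw [inv_mul_cancel, eps_one] at h
  have h2 := eps_sq σ p
  calc eps σ⁻¹ (fun i => p (σ.symm i))
      = eps σ⁻¹ (fun i => p (σ.symm i)) * (eps σ p * eps σ p) := by rw [h2, mul_one]
    _ = (eps σ⁻¹ (fun i => p (σ.symm i)) * eps σ p) * eps σ p := by ring
    _ = _ := by rw [← h, one_mul]

theorem rho_adj (σ : Perm ι) (f g : W k l ι) :
    ip (rho k l ι σ f) g = ip f (rho k l ι σ⁻¹ g) := by
  unfold ip
  refine Fintype.sum_equiv (Equiv.arrowCongr σ.symm (Equiv.refl (Lt k l))) _ _ (fun w => ?_)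
  have h1 : (Equiv.arrowCongr σ.symm (Equiv.refl (Lt k l))) w = w ∘ σ := rfl
  rw [h1, rho_apply, rho_apply]
  have h2 : (w ∘ σ) ∘ ⇑σ⁻¹ = w := by funext x; simp
  rw [h2]
  have h3 := eps_inv σ (pv (w ∘ σ))
  have h4 : (fun i => pv (w ∘ σ) (σ.symm i)) = pv w := by
    funext i; simp [pv]
  rw [h4] at h3
  rw [h3]; ring

theorem act_adj (y : MonoidAlgebra ℚ (Perm ι)) (f g : W k l ι) :
    ip (act k l ι y f) g = ip f (act k l ι (st y) g) := by
  induction y using MonoidAlgebra.induction_on with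
  | of σ => rw [st_of, act_of, act_of]; exact rho_adj σ f g
  | add x y hx hy =>
    rw [map_add, LinearMap.add_apply, ip_add_left, hx, hy, st_add, map_add, LinearMap.add_apply,
      ip_add_right]
  | smul r x hx =>
    rw [map_smul, LinearMap.smul_apply, ip_smul_left, hx, st_smul, map_smul,
      LinearMap.smul_apply, ip_smul_right]

/-- The ideal generated by `K(k|l)` and `Z`. -/
noncomputable def JJ (k l : ℕ) (Z : MonoidAlgebra ℚ (Perm ι)) :
    Submodule ℚ (MonoidAlgebra ℚ (Perm ι)) :=
  LinearMap.ker (act k l ι).toLinearMap ⊔ Submodule.span ℚ {x | ∃ a b, x = a * Z * b}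

variable {Z : MonoidAlgebra ℚ (Perm ι)}

theorem ker_le_JJ {a : MonoidAlgebra ℚ (Perm ι)} (h : act k l ι a = 0) : a ∈ JJ k l Z :=
  Submodule.mem_sup_left (by rw [LinearMap.mem_ker]; exact h)

theorem Z_mem_JJ (a b : MonoidAlgebra ℚ (Perm ι)) : a * Z * b ∈ JJ k l Z :=
  Submodule.mem_sup_right (Submodule.subset_span ⟨a, b, rfl⟩)

theorem JJ_left (c : MonoidAlgebra ℚ (Perm ι)) {a : MonoidAlgebra ℚ (Perm ι)}
    (ha : a ∈ JJ k l Z) : c * a ∈ JJ k l Z := by
  obtain ⟨x, hx, y, hy, rfl⟩ := Submodule.mem_sup.1 ha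
  rw [mul_add]
  refine Submodule.add_mem _ (ker_le_JJ ?_) ?_
  · rw [LinearMap.mem_ker] at hx
    have hx' : act k l ι x = 0 := hx
    rw [map_mul, hx', mul_zero]
  · induction hy using Submodule.span_induction with
    | mem y hy =>
      obtain ⟨a, b, rfl⟩ := hy
      have := Z_mem_JJ (k := k) (l := l) (Z := Z) (c * a) b
      simpa [mul_assoc] using this
    | zero => rw [mul_zero]; exact Submodule.zero_mem _
    | add y z _ _ hy hz =>
      rw [mul_add]
      refine Submodule.add_mem _ (hy ?_) (hz ?_)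
      · exact Submodule.add_mem _ (Submodule.mem_sup_left hx) (Submodule.mem_sup_right ‹_›)
      · exact Submodule.add_mem _ (Submodule.mem_sup_left hx) (Submodule.mem_sup_right ‹_›)
    | smul r y hy' hy =>
      rw [mul_smul_comm]
      refine Submodule.smul_mem _ _ (hy ?_)
      exact Submodule.add_mem _ (Submodule.mem_sup_left hx) (Submodule.mem_sup_right hy')

theorem JJ_right (c : MonoidAlgebra ℚ (Perm ι)) {a : MonoidAlgebra ℚ (Perm ι)}
    (ha : a ∈ JJ k l Z) : a * c ∈ JJ k l Z := by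
  obtain ⟨x, hx, y, hy, rfl⟩ := Submodule.mem_sup.1 ha
  rw [add_mul]
  refine Submodule.add_mem _ (ker_le_JJ ?_) ?_
  · rw [LinearMap.mem_ker] at hx
    have hx' : act k l ι x = 0 := hx
    rw [map_mul, hx', zero_mul]
  · induction hy using Submodule.span_induction with
    | mem y hy =>
      obtain ⟨a, b, rfl⟩ := hy
      have := Z_mem_JJ (k := k) (l := l) (Z := Z) a (b * c)
      simpa [mul_assoc] using this
    | zero => rw [zero_mul]; exact Submodule.zero_mem _
    | add y z _ _ hy hz =>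
      rw [add_mul]
      refine Submodule.add_mem _ (hy ?_) (hz ?_)
      · exact Submodule.add_mem _ (Submodule.mem_sup_left hx) (Submodule.mem_sup_right ‹_›)
      · exact Submodule.add_mem _ (Submodule.mem_sup_left hx) (Submodule.mem_sup_right ‹_›)
    | smul r y hy' hy =>
      rw [smul_mul_assoc]
      refine Submodule.smul_mem _ _ (hy ?_)
      exact Submodule.add_mem _ (Submodule.mem_sup_left hx) (Submodule.mem_sup_right hy')

/-- A complementary idempotent. -/
theorem JJ_split (k l : ℕ) (Z : MonoidAlgebra ℚ (Perm ι)) :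
    ∃ e e' : MonoidAlgebra ℚ (Perm ι), e + e' = 1 ∧ e ∈ JJ k l Z ∧
      ∀ a ∈ JJ k l Z, a * e' = 0 := by
  let A := MonoidAlgebra ℚ (Perm ι)
  let J : Submodule A A :=
    { carrier := {a | a ∈ JJ k l Z}
      add_mem' := fun {a b} ha hb => by
        change a + b ∈ JJ k l Z
        exact Submodule.add_mem _ ha hb
      zero_mem' := by
        change (0 : A) ∈ JJ k l Z
        exact Submodule.zero_mem _
      smul_mem' := fun c a ha => JJ_left c ha }
  obtain ⟨J', hJ⟩ := MonoidAlgebra.Submodule.exists_isCompl J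
  have h1 : (1 : A) ∈ J ⊔ J' := by rw [hJ.sup_eq_top]; exact Submodule.mem_top
  obtain ⟨e, he, e', he', hee⟩ := Submodule.mem_sup.1 h1
  refine ⟨e, e', hee, he, fun a ha => ?_⟩
  have h3 : a * e' ∈ J' := J'.smul_mem a he'
  have h4 : a * e' ∈ J := by
    have h5 : a * e' = a - a * e := by
      have h6 : a * (e + e') = a := by rw [hee, mul_one]
      rw [mul_add] at h6
      exact eq_sub_of_add_eq' h6
    rw [h5]
    exact J.sub_mem ha (J.smul_mem a he)
  have := hJ.disjoint
  rw [Submodule.disjoint_def] at this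
  exact this _ h4 h3

/-- The ideal is stable under the anti-involution. -/
theorem JJ_st {a : MonoidAlgebra ℚ (Perm ι)} (ha : a ∈ JJ k l Z) : st a ∈ JJ k l Z := by
  obtain ⟨e, e', hee, he, h0⟩ := JJ_split k l Z
  have h1 : st a = st a * e + st a * e' := by rw [← mul_add, hee, mul_one]
  have hb : act k l ι (st a * e') = 0 := by
    apply LinearMap.ext; intro f
    rw [LinearMap.zero_apply]
    by_contra hne
    apply ip_self_ne hne
    rw [act_adj, ← Module.End.mul_apply, ← map_mul, st_mul, st_st]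
    have h2 : st e' * a * (st a * e') = st e' * ((a * st a) * e') := by
      simp only [mul_assoc]
    rw [h2, h0 _ (JJ_right _ ha), mul_zero, map_zero, LinearMap.zero_apply, ip_zero_right]
  rw [h1]
  exact Submodule.add_mem _ (JJ_left _ he) (ker_le_JJ hb)

/-- The ideal is an annihilator. -/
theorem JJ_of_kill {y : MonoidAlgebra ℚ (Perm ι)}
    (hy : ∀ t : W k l ι, (∀ a ∈ JJ k l Z, act k l ι a t = 0) → act k l ι y t = 0) :
    y ∈ JJ k l Z := by
  obtain ⟨e, e', hee, he, h0⟩ := JJ_split k l Z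
  have h1 : y = y * e + y * e' := by rw [← mul_add, hee, mul_one]
  have hb : act k l ι (y * e') = 0 := by
    apply LinearMap.ext; intro f
    rw [map_mul, Module.End.mul_apply, LinearMap.zero_apply]
    apply hy
    intro a ha
    rw [← Module.End.mul_apply, ← map_mul, h0 a ha, map_zero, LinearMap.zero_apply]
  rw [h1]
  exact Submodule.add_mem _ (JJ_left _ he) (ker_le_JJ hb)

theorem EE_single (a : Lt k l) (u : ι → Lt k l) :
    EE a a (Pi.single u 1 : W k l ι) = (cnt a u : ℚ) • (Pi.single u 1 : W k l ι) := by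
  funext w
  rw [EE_diag, Pi.smul_apply, smul_eq_mul]
  by_cases h : w = u
  · rw [h]
  · rw [Pi.single_eq_of_ne h, mul_zero, mul_zero]

theorem act_single_cnt (y : MonoidAlgebra ℚ (Perm ι)) (u w : ι → Lt k l)
    (h : act k l ι y (Pi.single u 1) w ≠ 0) (a : Lt k l) : cnt a w = cnt a u := by
  have h1 := LinearMap.congr_fun (act_EE y a a) (Pi.single u 1 : W k l ι)
  simp only [Module.End.mul_apply, EE_single, map_smul] at h1
  have h2 := congrFun h1 w
  rw [EE_diag, Pi.smul_apply, smul_eq_mul] at h2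
  have h3 := mul_right_cancel₀ h h2
  exact_mod_cast h3.symm

/-- RATIONAL LEMMA: an element which kills all words in which some even letter occurs less
than `l` times or some odd letter less than `k` times lies in the ideal generated by
`K(k|l)` and the catalyst. -/
theorem rational_lemma {n : ℕ} (C : Cat k l (mm k l)) (hC : C.ξ = xi k l)
    (y : MonoidAlgebra ℚ (Perm (Fin (n + mm k l))))
    (hy : ∀ u : Fin (n + mm k l) → Lt k l, act k l _ y (Pi.single u 1) ≠ 0 →
      (∀ i : Fin k, l ≤ cnt (Sum.inl i) u) ∧ (∀ j : Fin l, k ≤ cnt (Sum.inr j) u)) :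
    y ∈ JJ k l (C.Z n) := by
  classical
  by_contra hcon
  have h1 : ∃ t : W k l (Fin (n + mm k l)), (∀ a ∈ JJ k l (C.Z n), act k l _ a t = 0) ∧
      act k l _ y t ≠ 0 := by
    by_contra h
    push Not at h
    exact hcon (JJ_of_kill h)
  obtain ⟨t, ht, hyt⟩ := h1
  let T : Submodule ℚ (W k l (Fin (n + mm k l))) :=
    { carrier := {t | ∀ a ∈ JJ k l (C.Z n), act k l _ a t = 0}
      add_mem' := fun {x y} hx hy a ha => by rw [map_add, hx a ha, hy a ha, add_zero]
      zero_mem' := fun a _ => map_zero _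
      smul_mem' := fun c x hx a ha => by rw [map_smul, hx a ha, smul_zero] }
  have hTE : ∀ a b : Lt k l, ∀ t ∈ T, EE a b t ∈ T := by
    intro a b t ht c hc
    have h := LinearMap.congr_fun (act_EE c a b) t
    simp only [Module.End.mul_apply] at h
    rw [h, ht c hc, map_zero]
  let N : Submodule ℚ (W k l (Fin (n + mm k l))) := T.map (act k l _ y)
  have hNE : ∀ a b : Lt k l, ∀ v ∈ N, EE a b v ∈ N := by
    rintro a b _ ⟨t, ht, rfl⟩
    have h := LinearMap.congr_fun (act_EE y a b) t
    simp only [Module.End.mul_apply] at h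
    rw [← h]
    exact ⟨_, hTE a b t ht, rfl⟩
  obtain ⟨x, hxN, hx0, hxr⟩ := exists_hw N hNE (univ.sup Pool.PI34.Super.ht) (act k l _ y t) ⟨t, ht, rfl⟩ hyt
    (fun w _ => Finset.le_sup (Finset.mem_univ w))
  obtain ⟨t', ht', rfl⟩ := hxN
  have hsupp : ∀ w, act k l _ y t' w ≠ 0 → (∀ i : Fin k, l ≤ cnt (Sum.inl i) w) ∧
      (∀ j : Fin l, k ≤ cnt (Sum.inr j) w) := by
    intro w hw
    have h2 : t' = ∑ u, t' u • (Pi.single u 1 : W k l (Fin (n + mm k l))) := by
      funext w
      rw [Finset.sum_apply, Finset.sum_eq_single w]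
      · simp
      · intro b _ hb; simp [Pi.single_apply, hb.symm]
      · intro h; exact absurd (Finset.mem_univ _) h
    rw [h2, map_sum, Finset.sum_apply] at hw
    obtain ⟨u, _, hu⟩ := Finset.exists_ne_zero_of_sum_ne_zero hw
    rw [map_smul, Pi.smul_apply, smul_eq_mul] at hu
    have h3 := right_ne_zero_of_mul hu
    have h4 : act k l _ y (Pi.single u 1) ≠ 0 := fun e => h3 (by rw [e]; rfl)
    obtain ⟨h5, h6⟩ := hy u h4
    refine ⟨fun i => ?_, fun j => ?_⟩
    · rw [act_single_cnt y u w h3]; exact h5 i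
    · rw [act_single_cnt y u w h3]; exact h6 j
  have hQ : QQ univ (act k l _ y t') (0 + l) (0 + k) := by
    refine ⟨fun a b _ hlt => hxr a b hlt, hx0, fun w hw i => ?_, fun w hw j => ?_⟩
    · rw [zero_add]; exact (hsupp w hw).1 i
    · rw [zero_add]; exact (hsupp w hw).2 j
  obtain ⟨σ, v, hσ⟩ := exists_pair hQ
  apply hσ
  have h7 : rho k l _ σ (tn v (xi k l))
      = act k l _ (MonoidAlgebra.of ℚ _ σ * C.Z n) (tn v (xi k l)) := by
    rw [map_mul, Module.End.mul_apply, ← hC, C.act_Z, act_of]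
  rw [h7, ← st_st (MonoidAlgebra.of ℚ _ σ * C.Z n), ← act_adj, ← Module.End.mul_apply,
    ← map_mul]
  have h8 : st (MonoidAlgebra.of ℚ _ σ * C.Z n) * y ∈ JJ k l (C.Z n) := by
    refine JJ_right _ (JJ_st ?_)
    have := Z_mem_JJ (k := k) (l := l) (Z := C.Z n) (MonoidAlgebra.of ℚ _ σ) 1
    rwa [mul_one] at this
  rw [ht' _ h8]
  unfold ip
  exact Finset.sum_eq_zero (fun w _ => by simp)

end Pool.PI34.Super
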