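import Pool.Agent.LibPI34.Rl4

/-!
PI34, rational lemma, file 5: products of elements of `K(k-1|l)` and `K(k|l-1)`.
-/

set_option linter.unusedSectionVars false
set_option linter.unusedSimpArgs false

namespace Pool.PI34.Super

open Equiv Finset

variable {k l k' l' : ℕ}

section pull

variable {ι : Type} [Fintype ι] [LinearOrder ι]

/-- Restriction to a smaller alphabet. -/
def pull (f : Lt k' l' → Lt k l) : W k l ι →ₗ[ℚ] W k' l' ι where
  toFun g := fun w => g (f ∘ w)
  map_add' _ _ := rfl
  map_smul' _ _ := rfl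

theorem pull_rho {f : Lt k' l' → Lt k l} (hf : ∀ c, odd (f c) = odd c) (σ : Perm ι)
    (g : W k l ι) : pull f (rho k l ι σ g) = rho k' l' ι σ (pull f g) := by
  funext w
  rw [rho_apply]
  change rho k l ι σ g (f ∘ w) = _
  rw [rho_apply]
  have h : pv ((f ∘ w) ∘ σ) = pv (w ∘ σ) := by
    funext i; exact hf _
  rw [h]; rfl

theorem pull_act {f : Lt k' l' → Lt k l} (hf : ∀ c, odd (f c) = odd c)
    (y : MonoidAlgebra ℚ (Perm ι)) (g : W k l ι) :
    pull f (act k l ι y g) = act k' l' ι y (pull f g) := by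
  induction y using MonoidAlgebra.induction_on with
  | of σ => rw [act_of, act_of]; exact pull_rho hf σ g
  | add x y hx hy =>
    rw [map_add, LinearMap.add_apply, map_add, hx, hy, map_add, LinearMap.add_apply]
  | smul r x hx =>
    rw [map_smul, LinearMap.smul_apply, map_smul, hx, map_smul, LinearMap.smul_apply]

theorem cnt_pos_iff {a : Lt k l} {w : ι → Lt k l} : 0 < cnt a w ↔ ∃ s, w s = a := by
  unfold cnt
  rw [Finset.card_pos]
  constructor
  · rintro ⟨s, hs⟩
    rw [Finset.mem_filter] at hs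
    exact ⟨s, hs.2⟩
  · rintro ⟨s, hs⟩
    exact ⟨s, by rw [Finset.mem_filter]; exact ⟨Finset.mem_univ _, hs⟩⟩

/-- Elements of `K(k'|l')` kill words with letters in the smaller alphabet. -/
theorem kill_small {f : Lt k' l' → Lt k l} (hf : ∀ c, odd (f c) = odd c)
    {y : MonoidAlgebra ℚ (Perm ι)} (hy : act k' l' ι y = 0) {u : ι → Lt k l}
    (hu : ∀ s, ∃ c, f c = u s) : act k l ι y (Pi.single u 1) = 0 := by
  classical
  by_contra hne
  obtain ⟨w, hw⟩ := Function.ne_iff.1 hne
  have hw' : act k l ι y (Pi.single u 1) w ≠ 0 := hw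
  have h1 := act_single_cnt y u w hw'
  have h2 : ∀ s, ∃ c, f c = w s := by
    intro s
    have h3 : 0 < cnt (w s) w := cnt_pos_iff.2 ⟨s, rfl⟩
    rw [h1] at h3
    obtain ⟨t, ht⟩ := cnt_pos_iff.1 h3
    obtain ⟨c, hc⟩ := hu t
    exact ⟨c, hc.trans ht⟩
  choose w' hw'' using h2
  have h4 : f ∘ w' = w := by funext s; exact hw'' s
  apply hw'
  have h5 := congrFun (pull_act hf y (Pi.single u 1 : W k l ι)) w'
  rw [hy, LinearMap.zero_apply] at h5
  change act k l ι y (Pi.single u 1) (f ∘ w') = 0 at h5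
  rw [h4] at h5
  exact h5

/-- The embedding of alphabets omitting the even letter `i`. -/
def fev (i : Fin (k + 1)) : Lt k l → Lt (k + 1) l :=
  Sum.map (Fin.succAbove i) id

/-- The embedding of alphabets omitting the odd letter `j`. -/
def fod (j : Fin (l + 1)) : Lt k l → Lt k (l + 1) :=
  Sum.map id (Fin.succAbove j)

theorem fev_odd (i : Fin (k + 1)) (c : Lt k l) : odd (fev i c) = odd c := by
  rcases c with c | c <;> rfl

theorem fod_odd (j : Fin (l + 1)) (c : Lt k l) : odd (fod j c) = odd c := by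
  rcases c with c | c <;> rfl

theorem fev_range (i : Fin (k + 1)) (a : Lt (k + 1) l) (h : a ≠ Sum.inl i) :
    ∃ c, fev i c = a := by
  rcases a with a | a
  · have : a ≠ i := fun e => h (by rw [e])
    obtain ⟨c, hc⟩ := Fin.exists_succAbove_eq this
    exact ⟨Sum.inl c, by simp [fev, hc]⟩
  · exact ⟨Sum.inr a, rfl⟩

theorem fod_range (j : Fin (l + 1)) (a : Lt k (l + 1)) (h : a ≠ Sum.inr j) :
    ∃ c, fod j c = a := by
  rcases a with a | a
  · exact ⟨Sum.inl a, rfl⟩
  · have : a ≠ j := fun e => h (by rw [e])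
    obtain ⟨c, hc⟩ := Fin.exists_succAbove_eq this
    exact ⟨Sum.inr c, by simp [fod, hc]⟩

end pull

section blocks

variable {κ ι : Type} [Fintype κ] [LinearOrder κ] [Fintype ι] [LinearOrder ι]

theorem act_pl_single {φ : κ ↪o ι} (hφ : Conv φ) {y : MonoidAlgebra ℚ (Perm κ)}
    {u : ι → Lt k l} (h : act k l κ y (Pi.single (u ∘ φ) 1) = 0) :
    act k l ι (pl φ y) (Pi.single u 1) = 0 := by
  classical
  funext w
  rw [act_pl hφ]
  have h1 : sl φ w (Pi.single u 1 : W k l ι)
      = (if (∀ x, x ∉ Set.range φ → w x = u x) then (1 : ℚ) else 0) •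
        (Pi.single (u ∘ φ) 1 : W k l κ) := by
    funext v
    rw [sl_apply, Pi.smul_apply, smul_eq_mul]
    by_cases h2 : ∀ x, x ∉ Set.range φ → w x = u x
    · rw [if_pos h2, one_mul]
      by_cases h3 : v = u ∘ φ
      · have : Function.extend φ v w = u := by
          funext x
          by_cases hx : x ∈ Set.range φ
          · obtain ⟨a, rfl⟩ := hx
            rw [φ.injective.extend_apply, h3]; rfl
          · rw [Function.extend_apply' _ _ _ hx, h2 x hx]
        rw [this, h3, Pi.single_eq_same, Pi.single_eq_same]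
      · rw [Pi.single_eq_of_ne h3, Pi.single_eq_of_ne]
        intro e
        apply h3
        rw [← e]
        funext a
        rw [Function.comp_apply, φ.injective.extend_apply]
    · rw [if_neg h2, zero_mul, Pi.single_eq_of_ne]
      intro e
      apply h2
      intro x hx
      rw [← e, Function.extend_apply' _ _ _ hx]
  rw [h1, map_smul, h, smul_zero]
  rfl

theorem ext_comm {κ' : Type} [Fintype κ'] [LinearOrder κ'] (φ : κ ↪o ι) (ψ : κ' ↪o ι)
    (hd : ∀ a b, φ a ≠ ψ b) (σ : Perm κ) (τ : Perm κ') :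
    ext φ σ * ext ψ τ = ext ψ τ * ext φ σ := by
  apply Equiv.ext
  intro x
  rw [Perm.mul_apply, Perm.mul_apply]
  by_cases h1 : x ∈ Set.range φ
  · obtain ⟨a, rfl⟩ := h1
    rw [ext_apply, ext_apply' ψ τ (φ a) (by rintro ⟨b, hb⟩; exact hd _ _ hb.symm),
      ext_apply' ψ τ (φ (σ a)) (by rintro ⟨b, hb⟩; exact hd _ _ hb.symm), ext_apply]
  · rw [ext_apply' φ σ x h1]
    by_cases h2 : x ∈ Set.range ψ
    · obtain ⟨b, rfl⟩ := h2
      rw [ext_apply, ext_apply' φ σ (ψ (τ b)) (by rintro ⟨a, ha⟩; exact hd _ _ ha)]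
    · rw [ext_apply' ψ τ x h2, ext_apply' φ σ x h1]

theorem pl_comm {κ' : Type} [Fintype κ'] [LinearOrder κ'] (φ : κ ↪o ι) (ψ : κ' ↪o ι)
    (hd : ∀ a b, φ a ≠ ψ b) (x : MonoidAlgebra ℚ (Perm κ)) (y : MonoidAlgebra ℚ (Perm κ')) :
    Commute (pl φ x) (pl ψ y) := by
  induction x using MonoidAlgebra.induction_on with
  | of σ =>
    induction y using MonoidAlgebra.induction_on with
    | of τ =>
      rw [pl_of, pl_of]
      change _ * _ = _ * _
      rw [← map_mul, ← map_mul, ext_comm φ ψ hd]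
    | add x y hx hy => rw [map_add]; exact hx.add_right hy
    | smul r x hx => rw [map_smul]; exact hx.smul_right r
  | add x y hx hy => rw [map_add]; exact hx.add_left hy
  | smul r x hx => rw [map_smul]; exact hx.smul_left r

/-- A block: an interval embedding with an element of the group algebra. -/
structure Blk (ι : Type) [Fintype ι] [LinearOrder ι] where
  /-- size -/
  sz : ℕ
  /-- position -/
  φ : Fin sz ↪o ι
  conv : Conv φ
  /-- element -/
  y : MonoidAlgebra ℚ (Perm (Fin sz))

/-- The product of the blocks. -/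
noncomputable def prodB (L : List (Blk ι)) : MonoidAlgebra ℚ (Perm ι) :=
  (L.map (fun B => pl B.φ B.y)).prod

/-- Disjoint blocks. -/
def DisjB (B B' : Blk ι) : Prop := ∀ a b, B.φ a ≠ B'.φ b

theorem prodB_kill (L : List (Blk ι)) (hL : L.Pairwise DisjB) {B : Blk ι} (hB : B ∈ L)
    {f : W k l ι} (hf : act k l ι (pl B.φ B.y) f = 0) : act k l ι (prodB L) f = 0 := by
  induction L with
  | nil => simp at hB
  | cons A L ih =>
    rw [List.pairwise_cons] at hL
    have h1 : prodB (A :: L) = pl A.φ A.y * prodB L := by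
      unfold prodB; rw [List.map_cons, List.prod_cons]
    rw [h1]
    rcases List.mem_cons.1 hB with e | e
    · subst e
      have h2 : Commute (pl B.φ B.y) (prodB L) := by
        unfold prodB
        refine Commute.list_prod_right _ _ (fun z hz => ?_)
        obtain ⟨B', hB', rfl⟩ := List.mem_map.1 hz
        exact pl_comm _ _ (hL.1 B' hB') _ _
      rw [h2.eq, map_mul, Module.End.mul_apply, hf, map_zero]
    · rw [map_mul, Module.End.mul_apply, ih hL.2 e, map_zero]

theorem cnt_blocks (L : List (Blk ι)) (hL : L.Pairwise DisjB) (a : Lt k l) (u : ι → Lt k l)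
    (h : ∀ B ∈ L, ∃ s, u (B.φ s) = a) : L.length ≤ cnt a u := by
  classical
  have h1 : ∀ L : List (Blk ι), L.Pairwise DisjB → (∀ B ∈ L, ∃ s, u (B.φ s) = a) →
      ∃ S : Finset ι, S.card = L.length ∧ (∀ x ∈ S, u x = a) ∧
        (∀ x ∈ S, ∃ B ∈ L, ∃ s, B.φ s = x) := by
    intro L
    induction L with
    | nil => intro _ _; exact ⟨∅, by simp⟩
    | cons A L ih =>
      intro hL h
      rw [List.pairwise_cons] at hL
      obtain ⟨S, hS1, hS2, hS3⟩ := ih hL.2 (fun B hB => h B (List.mem_cons_of_mem _ hB))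
      obtain ⟨s, hs⟩ := h A List.mem_cons_self
      have h2 : A.φ s ∉ S := by
        intro hx
        obtain ⟨B, hB, t, ht⟩ := hS3 _ hx
        exact hL.1 B hB s t ht.symm
      refine ⟨insert (A.φ s) S, ?_, ?_, ?_⟩
      · rw [Finset.card_insert_of_notMem h2, hS1, List.length_cons]
      · intro x hx
        rcases Finset.mem_insert.1 hx with rfl | hx
        · exact hs
        · exact hS2 x hx
      · intro x hx
        rcases Finset.mem_insert.1 hx with rfl | hx
        · exact ⟨A, List.mem_cons_self, s, rfl⟩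
        · obtain ⟨B, hB, t, ht⟩ := hS3 x hx
          exact ⟨B, List.mem_cons_of_mem _ hB, t, ht⟩
  obtain ⟨S, hS1, hS2, _⟩ := h1 L hL h
  rw [← hS1]
  unfold cnt
  refine Finset.card_le_card (fun x hx => ?_)
  rw [Finset.mem_filter]
  exact ⟨Finset.mem_univ _, hS2 x hx⟩

end blocks

/-- RATIONAL LEMMA, final form: `K(k|l+1)^{⊗ (l+1)} ⊗ K(k+1|l)^{⊗ (k+1)}` is contained in the
ideal generated by `K(k+1|l+1)` and the catalyst. -/
theorem RL {k l n : ℕ} (C : Cat (k + 1) (l + 1) (mm (k + 1) (l + 1)))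
    (hC : C.ξ = xi (k + 1) (l + 1))
    (L L' : List (Blk (Fin (n + mm (k + 1) (l + 1)))))
    (hL : (L ++ L').Pairwise DisjB) (hlen : L.length = l + 1) (hlen' : L'.length = k + 1)
    (h1 : ∀ B ∈ L, act k (l + 1) _ B.y = 0) (h2 : ∀ B ∈ L', act (k + 1) l _ B.y = 0) :
    prodB (L ++ L') ∈ JJ (k + 1) (l + 1) (C.Z n) := by
  refine rational_lemma C hC _ (fun u hu => ?_)
  have hL1 : L.Pairwise DisjB := (List.pairwise_append.1 hL).1
  have hL2 : L'.Pairwise DisjB := (List.pairwise_append.1 hL).2.1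
  refine ⟨fun i => ?_, fun j => ?_⟩
  · refine le_trans (le_of_eq hlen.symm) ?_
    refine cnt_blocks L hL1 _ u (fun B hB => ?_)
    by_contra hcon
    push Not at hcon
    apply hu
    refine prodB_kill _ hL (List.mem_append_left _ hB) ?_
    refine act_pl_single B.conv ?_
    exact kill_small (fev_odd i) (h1 B hB) (fun s => fev_range i _ (hcon s))
  · refine le_trans (le_of_eq hlen'.symm) ?_
    refine cnt_blocks L' hL2 _ u (fun B hB => ?_)
    by_contra hcon
    push Not at hcon
    apply hu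
    refine prodB_kill _ hL (List.mem_append_right _ hB) ?_
    refine act_pl_single B.conv ?_
    exact kill_small (fod_odd j) (h2 B hB) (fun s => fod_range j _ (hcon s))

end Pool.PI34.Super
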