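import Pool.Agent.LibPI34.Rl5

/-!
PI34, rational lemma, file 6: the form (RL') with the catalyst `A_P A_Q (1 ⊗ z)`.
-/

set_option linter.unusedSectionVars false
set_option linter.unusedSimpArgs false

namespace Pool.PI34.Super

open Equiv Finset

variable {k l n m : ℕ}

/-- Contraction of the catalyst strands with `ξ`. -/
def cbar (ξ : W k l (Fin m)) : W k l (Fin (n + m)) →ₗ[ℚ] W k l (Fin n) where
  toFun t := fun v => ip t (tn v ξ)
  map_add' s t := by funext v; exact ip_add_left s t _
  map_smul' c t := by funext v; exact ip_smul_left c t _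

theorem cbar_apply (ξ : W k l (Fin m)) (t : W k l (Fin (n + m))) (v : Fin n → Lt k l) :
    cbar ξ t v = ip t (tn v ξ) := rfl

theorem ip_sum_right {ι : Type} [Fintype ι] [LinearOrder ι] {α : Type*} (s : Finset α)
    (f : W k l ι) (g : α → W k l ι) : ip f (∑ a ∈ s, g a) = ∑ a ∈ s, ip f (g a) := by
  unfold ip
  rw [Finset.sum_comm]
  refine Finset.sum_congr rfl (fun w _ => ?_)
  rw [Finset.sum_apply, Finset.mul_sum]

theorem eop_tnL_same (a b : Lt k l) (hab : odd a = odd b) (i : Fin n) (v : Fin n → Lt k l)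
    (f : W k l (Fin m)) :
    eop a b (phL n m i) (tn v f) = if v i = b then tn (Function.update v i a) f else 0 := by
  classical
  funext w
  rw [eop_apply, bsg_even a b hab, one_mul, tn_apply]
  have h1 : Function.update w (phL n m i) b ∘ phL n m = Function.update (w ∘ phL n m) i b := by
    funext j
    by_cases hj : j = i
    · subst hj; simp
    · rw [Function.comp_apply, Function.update_of_ne hj,
        Function.update_of_ne (fun e => hj ((phL n m).injective e))]; rfl
  have h2 : Function.update w (phL n m i) b ∘ phR n m = w ∘ phR n m := by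
    funext j
    rw [Function.comp_apply, Function.update_of_ne]
    · rfl
    · intro e; exact phR_notMem i ⟨j, e⟩
  rw [h1, h2]
  have h3 : (w (phL n m i) = a ∧ Function.update (w ∘ phL n m) i b = v) ↔
      (v i = b ∧ w ∘ phL n m = Function.update v i a) := by
    constructor
    · rintro ⟨h4, h5⟩
      refine ⟨by rw [← h5, Function.update_self], ?_⟩
      rw [← h5, Function.update_idem, ← h4]
      exact (Function.update_eq_self i (w ∘ phL n m)).symm
    · rintro ⟨hv, h4⟩
      refine ⟨?_, ?_⟩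
      · have := congrFun h4 i
        rw [Function.update_self] at this
        exact this
      · rw [h4, Function.update_idem, ← hv, Function.update_eq_self]
  by_cases hv : v i = b
  · rw [if_pos hv, tn_apply]
    by_cases h4 : w ∘ phL n m = Function.update v i a
    · have h5 := h3.2 ⟨hv, h4⟩
      rw [if_pos h5.1, if_pos h5.2, if_pos h4]
    · rw [if_neg h4]
      by_cases h5 : w (phL n m i) = a
      · rw [if_pos h5, if_neg (fun h6 => h4 (h3.1 ⟨h5, h6⟩).2)]
      · rw [if_neg h5]
  · rw [if_neg hv]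
    by_cases h5 : w (phL n m i) = a
    · rw [if_pos h5, if_neg (fun h6 => hv (h3.1 ⟨h5, h6⟩).1)]; rfl
    · rw [if_neg h5]; rfl

theorem EE_tn_same (a b : Lt k l) (hab : odd a = odd b) (v : Fin n → Lt k l)
    {ξ : W k l (Fin m)} (hξ : EE a b ξ = 0) :
    EE a b (tn v ξ) = ∑ i, if v i = b then tn (Function.update v i a) ξ else 0 := by
  rw [EE_tn, hξ, map_zero, smul_zero, add_zero]
  exact Finset.sum_congr rfl (fun i _ => eop_tnL_same a b hab i v ξ)

/-- The contraction of a vector killed by raising operators is killed by raising operators. -/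
theorem cbar_PR {ξ : W k l (Fin m)} (hξ : ∀ a b : Lt k l, odd a = odd b → a ≠ b → EE a b ξ = 0)
    {t : W k l (Fin (n + m))}
    (ht : ∀ a b : Lt k l, odd a = odd b → idx a < idx b → EE a b t = 0) :
    PR univ (cbar ξ t) := by
  intro a b hab hlt
  funext v
  rw [EB_plain _ a b hab]
  have hne : b ≠ a := fun e => by rw [e] at hlt; exact lt_irrefl _ hlt
  have h1 : ip (EE a b t) (tn v ξ) = 0 := by
    rw [ht a b hab hlt]; unfold ip; exact Finset.sum_eq_zero (fun w _ => by simp)
  unfold EE at h1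
  rw [EB_adj] at h1
  have h2 := EE_tn_same b a hab.symm v (hξ b a hab.symm hne)
  unfold EE at h2
  rw [h2, ip_sum_right] at h1
  refine Eq.trans ?_ h1
  refine Finset.sum_congr rfl (fun i _ => ?_)
  split_ifs
  · rfl
  · rw [ip_zero_right]

theorem xi_g0_ne (a b : Lt k l) (h : odd a = odd b) (hne : a ≠ b) : EE a b (xi k l) = 0 := by
  have h1 : EE a b (xi k l) = EB (B1 k l) a b (xi k l) + EB (B2 k l) a b (xi k l) := by
    unfold EE
    rw [← B12_union, EB_add (B12_disj k l), LinearMap.add_apply]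
  rw [h1]
  rcases a with a | a <;> rcases b with b | b
  · rw [EB1_inl, EB2_inl, add_zero, if_neg (fun e => hne (by rw [e]))]
  · simp at h
  · simp at h
  · rw [EB1_inr, EB2_inr, zero_add, if_neg (fun e => hne (by rw [e]))]

theorem xi_cnt_inl (i : Fin k) {u : Fin (mm k l) → Lt k l} (hu : xi k l u ≠ 0) :
    cnt (Sum.inl i) u = l := by
  have h1 : EE (Sum.inl i) (Sum.inl i) (xi k l) = (l : ℚ) • xi k l := by
    unfold EE
    rw [← B12_union, EB_add (B12_disj k l), LinearMap.add_apply, EB1_inl, EB2_inl, if_pos rfl,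
      add_zero]
  have h2 := congrFun h1 u
  rw [EE_diag, Pi.smul_apply, smul_eq_mul] at h2
  exact_mod_cast mul_right_cancel₀ hu h2

theorem xi_cnt_inr (i : Fin l) {u : Fin (mm k l) → Lt k l} (hu : xi k l u ≠ 0) :
    cnt (Sum.inr i) u = k := by
  have h1 : EE (Sum.inr i) (Sum.inr i) (xi k l) = (k : ℚ) • xi k l := by
    unfold EE
    rw [← B12_union, EB_add (B12_disj k l), LinearMap.add_apply, EB1_inr, EB2_inr, if_pos rfl,
      zero_add]
  have h2 := congrFun h1 u
  rw [EE_diag, Pi.smul_apply, smul_eq_mul] at h2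
  exact_mod_cast mul_right_cancel₀ hu h2

theorem cnt_append (a : Lt k l) (v : Fin n → Lt k l) (u : Fin m → Lt k l) :
    cnt a (Fin.append v u) = cnt a v + cnt a u := by
  classical
  unfold cnt
  rw [Finset.card_filter, Finset.card_filter, Finset.card_filter, Fin.sum_univ_add]
  simp

theorem cbar_supp {ξ : W k l (Fin m)} {t : W k l (Fin (n + m))} {v : Fin n → Lt k l}
    (h : cbar ξ t v ≠ 0) : ∃ u, ξ u ≠ 0 ∧ t (Fin.append v u) ≠ 0 := by
  classical
  rw [cbar_apply] at h
  unfold ip at h
  obtain ⟨w, _, hw⟩ := Finset.exists_ne_zero_of_sum_ne_zero h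
  have h1 := right_ne_zero_of_mul hw
  rw [tn_apply] at h1
  by_cases h2 : w ∘ phL n m = v
  · rw [if_pos h2] at h1
    refine ⟨w ∘ phR n m, h1, ?_⟩
    have h3 : Fin.append v (w ∘ phR n m) = w := by
      rw [← h2]
      funext x
      refine Fin.addCases (fun i => ?_) (fun i => ?_) x
      · rw [Fin.append_left]; rfl
      · rw [Fin.append_right]; rfl
    rw [h3]
    exact left_ne_zero_of_mul hw
  · rw [if_neg h2] at h1; exact absurd rfl h1

/-- The full (plain) determinant contraction. -/
noncomputable def Dfull (P : Lt k l → Fin n) (g : W k l (Fin n)) : W k l (Fin n) := fun w =>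
  ∑ ρ : Perm (Lt k l), ((Perm.sign ρ : ℤ) : ℚ) * g (Function.extend P ρ w)

theorem Dfull_split {P : Lt k l → Fin n} (hP : Function.Injective P) {g : W k l (Fin n)}
    {O : Fin n → Bool} (hO : ∀ w, g w ≠ 0 → ∀ c, odd (w (P c)) = O (P c))
    (hcons : ∀ c, O (P c) = odd c) :
    Dfull P g = Dop (Sum.inr : Fin l → Lt k l) (fun j => P (Sum.inr j))
      (Dop (Sum.inl : Fin k → Lt k l) (fun i => P (Sum.inl i)) g) := by
  classical
  funext w
  unfold Dfull Dop
  have hword : ∀ (π0 : Perm (Fin k)) (π1 : Perm (Fin l)),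
      Function.extend (fun i => P (Sum.inl i)) ((Sum.inl : Fin k → Lt k l) ∘ π0)
        (Function.extend (fun j => P (Sum.inr j)) ((Sum.inr : Fin l → Lt k l) ∘ π1) w)
      = Function.extend P (Perm.sumCongr π0 π1 : Perm (Fin k ⊕ Fin l)) w := by
    intro π0 π1
    have i1 : Function.Injective (fun i => P (Sum.inl i)) := fun a b h => Sum.inl_injective (hP h)
    have i2 : Function.Injective (fun i => P (Sum.inr i)) := fun a b h => Sum.inr_injective (hP h)
    funext x
    by_cases h1 : ∃ i, P (Sum.inl i) = x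
    · obtain ⟨i, rfl⟩ := h1
      have e1 := i1.extend_apply ((Sum.inl : Fin k → Lt k l) ∘ π0)
        (Function.extend (fun j => P (Sum.inr j)) ((Sum.inr : Fin l → Lt k l) ∘ π1) w) i
      rw [e1, hP.extend_apply]
      simp
    · rw [Function.extend_apply' _ _ _ h1]
      by_cases h2 : ∃ j, P (Sum.inr j) = x
      · obtain ⟨j, rfl⟩ := h2
        have e1 := i2.extend_apply ((Sum.inr : Fin l → Lt k l) ∘ π1) w j
        rw [e1, hP.extend_apply]
        simp
      · rw [Function.extend_apply' _ _ _ h2, Function.extend_apply']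
        rintro ⟨c, hc⟩
        rcases c with c | c
        · exact h1 ⟨c, hc⟩
        · exact h2 ⟨c, hc⟩
  have h1 : ∑ π1 : Perm (Fin l), ((Perm.sign π1 : ℤ) : ℚ) * ∑ π0 : Perm (Fin k),
      ((Perm.sign π0 : ℤ) : ℚ) * g (Function.extend (fun i => P (Sum.inl i))
        ((Sum.inl : Fin k → Lt k l) ∘ π0) (Function.extend (fun j => P (Sum.inr j))
          ((Sum.inr : Fin l → Lt k l) ∘ π1) w))
      = ∑ x : Perm (Fin k) × Perm (Fin l), (fun ρ : Perm (Fin k ⊕ Fin l) =>
        ((Perm.sign ρ : ℤ) : ℚ) * g (Function.extend P ρ w)) (Perm.sumCongr x.1 x.2) := by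
    rw [Fintype.sum_prod_type, Finset.sum_comm]
    refine Finset.sum_congr rfl (fun π1 _ => ?_)
    rw [Finset.mul_sum]
    refine Finset.sum_congr rfl (fun π0 _ => ?_)
    rw [hword]
    simp only [Perm.sign_sumCongr]
    push_cast
    ring
  rw [h1]
  symm
  refine Finset.sum_bij_ne_zero (fun x _ _ => Perm.sumCongr x.1 x.2) (fun _ _ _ => Finset.mem_univ _)
    ?_ ?_ (fun _ _ _ => rfl)
  · rintro ⟨a, b⟩ _ _ ⟨a', b'⟩ _ _ h
    have := Perm.sumCongrHom_injective (α := Fin k) (β := Fin l) (a₁ := (a, b)) (a₂ := (a', b')) h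
    exact this
  · intro ρ _ hρ
    have h2 := hO _ (right_ne_zero_of_mul hρ)
    have h3 : Set.MapsTo ρ (Set.range (Sum.inl : Fin k → Fin k ⊕ Fin l))
        (Set.range (Sum.inl : Fin k → Fin k ⊕ Fin l)) := by
      rintro _ ⟨i, rfl⟩
      have h4 := h2 (Sum.inl i)
      rw [hP.extend_apply, hcons] at h4
      rcases hρi : ρ (Sum.inl i) with c | c
      · exact ⟨c, rfl⟩
      · rw [hρi] at h4; simp at h4
    obtain ⟨⟨a, b⟩, hab⟩ := Perm.mem_sumCongrHom_range_of_perm_mapsTo_inl h3
    refine ⟨(a, b), Finset.mem_univ _, ?_, hab⟩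
    have h5 : Perm.sumCongr a b = ρ := hab
    change (fun ρ : Perm (Fin k ⊕ Fin l) =>
        ((Perm.sign ρ : ℤ) : ℚ) * g (Function.extend P ρ w)) (Perm.sumCongr a b) ≠ 0
    rw [h5]
    exact hρ

end Pool.PI34.Super
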