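import Pool.Agent.LibPI34.Rl6

/-!
PI34, rational lemma, file 7: proof of (RL').
-/

set_option linter.unusedSectionVars false
set_option linter.unusedSimpArgs false

namespace Pool.PI34.Super

open Equiv Finset

variable {k l n m : ℕ}

/-- Projection to the words with parity pattern `O`. -/
def prO (O : Fin n → Bool) (g : W k l (Fin n)) : W k l (Fin n) :=
  fun v => if pv v = O then g v else 0

theorem prO_QQ {O : Fin n → Bool} {g : W k l (Fin n)} {α β : ℕ} (hg : PR univ g)
    (hc1 : ∀ v, g v ≠ 0 → ∀ i : Fin k, α ≤ cntR univ (Sum.inl i) v)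
    (hc2 : ∀ v, g v ≠ 0 → ∀ j : Fin l, β ≤ cntR univ (Sum.inr j) v)
    (hne : ∃ v, g v ≠ 0 ∧ pv v = O) : QQ univ (prO O g) α β := by
  classical
  have hsup : ∀ v, prO O g v ≠ 0 → g v ≠ 0 := by
    intro v hv
    unfold prO at hv
    split_ifs at hv with h
    · exact hv
    · exact absurd rfl hv
  refine ⟨?_, ?_, fun v hv => hc1 v (hsup v hv), fun v hv => hc2 v (hsup v hv)⟩
  · intro a b hab hlt
    funext v
    have h1 := congrFun (hg a b hab hlt) v
    rw [EB_plain _ a b hab] at h1 ⊢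
    have h2 : ∀ s : Fin n, v s = a → pv (Function.update v s b) = pv v := by
      intro s hs
      funext x
      unfold pv
      by_cases hx : x = s
      · subst hx; rw [Function.update_self, hs]; exact hab.symm
      · rw [Function.update_of_ne hx]
    have h0 : (0 : W k l (Fin n)) v = 0 := rfl
    rw [h0] at h1 ⊢
    by_cases hv : pv v = O
    · refine Eq.trans ?_ h1
      refine Finset.sum_congr rfl (fun s _ => ?_)
      by_cases hs : v s = a
      · rw [if_pos hs, if_pos hs]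
        unfold prO
        rw [h2 s hs, if_pos hv]
      · rw [if_neg hs, if_neg hs]
    · refine Finset.sum_eq_zero (fun s _ => ?_)
      by_cases hs : v s = a
      · rw [if_pos hs]
        unfold prO
        rw [h2 s hs, if_neg hv]
      · rw [if_neg hs]
  · obtain ⟨v, hv1, hv2⟩ := hne
    intro h
    apply hv1
    have := congrFun h v
    unfold prO at this
    rw [if_pos hv2] at this
    exact this

theorem Dop_ne {q : ℕ} {lam : Fin q → Lt k l} {s : Fin q → Fin n} (hs : Function.Injective s)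
    {y : W k l (Fin n)} {w : Fin n → Lt k l} (h : Dop lam s y w ≠ 0) :
    ∃ w', y w' ≠ 0 ∧ (∀ i, ∃ j, w' (s i) = lam j) ∧ (∀ x, (∀ i, s i ≠ x) → w' x = w x) := by
  unfold Dop at h
  obtain ⟨π, _, hπ⟩ := Finset.exists_ne_zero_of_sum_ne_zero h
  refine ⟨_, right_ne_zero_of_mul hπ, fun i => ⟨π i, ?_⟩, fun x hx => ?_⟩
  · rw [hs.extend_apply]; rfl
  · rw [Function.extend_apply']
    rintro ⟨i, hi⟩; exact hx i hi

/-- Two full determinant contractions of a suitable vector do not vanish. -/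
theorem exists_two_Dfull {g : W k l (Fin n)} {O : Fin n → Bool} (hg : QQ univ g 2 2)
    (hO : ∀ v, g v ≠ 0 → pv v = O) :
    ∃ P Q : Lt k l → Fin n, Function.Injective P ∧ Function.Injective Q ∧
      (∀ c d, P c ≠ Q d) ∧ Dfull Q (Dfull P g) ≠ 0 := by
  classical
  obtain ⟨s, hs, hsR, h1⟩ := step_ev (α := 1) hg
  obtain ⟨s', hs', hs'R, h2⟩ := step_od (β := 1) h1
  obtain ⟨q, hq, hqR, h3⟩ := step_ev (α := 0) h2
  obtain ⟨q', hq', hq'R, h4⟩ := step_od (β := 0) h3
  let P : Lt k l → Fin n := Sum.elim s s'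
  let Q : Lt k l → Fin n := Sum.elim q q'
  have d1 : ∀ i j, s i ≠ s' j := by
    intro i j e
    have := hs'R j
    rw [← e, Finset.mem_sdiff, Finset.mem_image] at this
    exact this.2 ⟨i, Finset.mem_univ _, rfl⟩
  have d2 : ∀ i j, s i ≠ q j := by
    intro i j e
    have := hqR j
    rw [← e, Finset.mem_sdiff, Finset.mem_sdiff, Finset.mem_image] at this
    exact this.1.2 ⟨i, Finset.mem_univ _, rfl⟩
  have d3 : ∀ i j, s' i ≠ q j := by
    intro i j e
    have := hqR j
    rw [← e, Finset.mem_sdiff, Finset.mem_image] at this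
    exact this.2 ⟨i, Finset.mem_univ _, rfl⟩
  have d4 : ∀ i j, s i ≠ q' j := by
    intro i j e
    have := hq'R j
    rw [← e, Finset.mem_sdiff, Finset.mem_sdiff, Finset.mem_sdiff, Finset.mem_image] at this
    exact this.1.1.2 ⟨i, Finset.mem_univ _, rfl⟩
  have d5 : ∀ i j, s' i ≠ q' j := by
    intro i j e
    have := hq'R j
    rw [← e, Finset.mem_sdiff, Finset.mem_sdiff, Finset.mem_image, Finset.mem_image] at this
    exact this.1.2 ⟨i, Finset.mem_univ _, rfl⟩
  have d6 : ∀ i j, q i ≠ q' j := by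
    intro i j e
    have := hq'R j
    rw [← e, Finset.mem_sdiff, Finset.mem_image] at this
    exact this.2 ⟨i, Finset.mem_univ _, rfl⟩
  have hP : Function.Injective P := by
    rintro (a | a) (b | b) h
    · rw [hs h]
    · exact absurd h (d1 a b)
    · exact absurd h.symm (d1 b a)
    · rw [hs' h]
  have hQ : Function.Injective Q := by
    rintro (a | a) (b | b) h
    · rw [hq h]
    · exact absurd h (d6 a b)
    · exact absurd h.symm (d6 b a)
    · rw [hq' h]
  have hPQ : ∀ c d, P c ≠ Q d := by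
    rintro (a | a) (b | b)
    · exact d2 a b
    · exact d4 a b
    · exact d3 a b
    · exact d5 a b
  refine ⟨P, Q, hP, hQ, hPQ, ?_⟩
  -- consistency
  obtain ⟨w0, hw0⟩ := Function.ne_iff.1 h4.ne
  obtain ⟨w1, hw1, e1, f1⟩ := Dop_ne hq' (show Dop _ _ _ w0 ≠ 0 from hw0)
  obtain ⟨w2, hw2, e2, f2⟩ := Dop_ne hq hw1
  obtain ⟨w3, hw3, e3, f3⟩ := Dop_ne hs' hw2
  obtain ⟨w4, hw4, e4, f4⟩ := Dop_ne hs hw3
  have hO4 := hO w4 hw4
  have cs : ∀ i, O (s i) = false := by
    intro i
    rw [← hO4]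
    obtain ⟨j, hj⟩ := e4 i
    unfold pv; rw [hj]; rfl
  have cs' : ∀ i, O (s' i) = true := by
    intro i
    rw [← hO4]
    obtain ⟨j, hj⟩ := e3 i
    unfold pv; rw [f4 _ (fun a => d1 a i), hj]; rfl
  have cq : ∀ i, O (q i) = false := by
    intro i
    rw [← hO4]
    obtain ⟨j, hj⟩ := e2 i
    unfold pv; rw [f4 _ (fun a => d2 a i), f3 _ (fun a => d3 a i), hj]; rfl
  have cq' : ∀ i, O (q' i) = true := by
    intro i
    rw [← hO4]
    obtain ⟨j, hj⟩ := e1 i
    unfold pv
    rw [f4 _ (fun a => d4 a i), f3 _ (fun a => d5 a i), f2 _ (fun a => d6 a i), hj]; rfl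
  have hD1 : Dfull P g = Dop (Sum.inr : Fin l → Lt k l) s' (Dop (Sum.inl : Fin k → Lt k l) s g) := by
    refine Dfull_split hP (O := O) (fun w hw c => ?_) ?_
    · rw [← hO w hw]; rfl
    · rintro (c | c)
      · exact cs c
      · exact cs' c
  have hD2 : Dfull Q (Dfull P g) = Dop (Sum.inr : Fin l → Lt k l) q'
      (Dop (Sum.inl : Fin k → Lt k l) q (Dfull P g)) := by
    refine Dfull_split hQ (O := O) (fun w hw c => ?_) ?_
    · rw [hD1] at hw
      obtain ⟨w', hw', _, g1⟩ := Dop_ne hs' hw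
      obtain ⟨w'', hw'', _, g2⟩ := Dop_ne hs hw'
      have h5 := congrFun (hO w'' hw'') (Q c)
      unfold pv at h5
      rw [g2 _ (fun a e => hPQ (Sum.inl a) c e), g1 _ (fun a e => hPQ (Sum.inr a) c e)] at h5
      exact h5
    · rintro (c | c)
      · exact cq c
      · exact cq' c
  rw [hD2, hD1]
  exact h4.ne

/-- The permutation of `Fin n` given by a permutation of the letters and an embedding. -/
noncomputable def via (P : Lt k l → Fin n) (hP : Function.Injective P) (ρ : Perm (Lt k l)) :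
    Perm (Fin n) := Perm.viaEmbedding ρ ⟨P, hP⟩

theorem via_apply (P : Lt k l → Fin n) (hP : Function.Injective P) (ρ : Perm (Lt k l))
    (c : Lt k l) : via P hP ρ (P c) = P (ρ c) :=
  Perm.viaEmbedding_apply ρ ⟨P, hP⟩ c

theorem via_apply' (P : Lt k l → Fin n) (hP : Function.Injective P) (ρ : Perm (Lt k l))
    {x : Fin n} (hx : ∀ c, P c ≠ x) : via P hP ρ x = x :=
  Perm.viaEmbedding_apply_of_notMem ρ ⟨P, hP⟩ x (by rintro ⟨c, hc⟩; exact hx c hc)

theorem via_conj (P P' : Lt k l → Fin n) (hP : Function.Injective P) (hP' : Function.Injective P')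
    (τ : Perm (Fin n)) (h : ∀ c, τ (P c) = P' c) (ρ : Perm (Lt k l)) :
    τ * via P hP ρ * τ⁻¹ = via P' hP' ρ := by
  apply Equiv.ext
  intro x
  rw [Perm.mul_apply, Perm.mul_apply]
  by_cases hx : ∃ c, P' c = x
  · obtain ⟨c, rfl⟩ := hx
    have h1 : τ⁻¹ (P' c) = P c := by rw [← h c]; exact inv_app' τ _
    rw [h1, via_apply, via_apply, h]
  · push Not at hx
    have h1 : ∀ c, P c ≠ τ⁻¹ x := by
      intro c e
      apply hx c
      rw [← h c, e]; exact app_inv' τ _
    rw [via_apply' P hP ρ h1, via_apply' P' hP' ρ hx]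
    exact app_inv' τ _

/-- `Y` acts on the vectors `e_v ⊗ ξ` as the product of two plain antisymmetrizers. -/
def IsAlt (C : Cat k l m) (P Q : Lt k l → Fin n) (hP : Function.Injective P)
    (hQ : Function.Injective Q) (Y : MonoidAlgebra ℚ (Perm (Fin (n + m)))) : Prop :=
  ∀ v : Fin n → Lt k l, act k l _ Y (tn v C.ξ)
    = ∑ ρ : Perm (Lt k l), ∑ ρ' : Perm (Lt k l),
      (((Perm.sign ρ : ℤ) : ℚ) * ((Perm.sign ρ' : ℤ) : ℚ)) •
        tn (v ∘ ⇑(via P hP ρ * via Q hQ ρ')) C.ξ

theorem exists_perm_two {P Q P' Q' : Lt k l → Fin n} (hP : Function.Injective P)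
    (hQ : Function.Injective Q) (hPQ : ∀ c d, P c ≠ Q d) (hP' : Function.Injective P')
    (hQ' : Function.Injective Q') (hPQ' : ∀ c d, P' c ≠ Q' d) :
    ∃ τ : Perm (Fin n), (∀ c, τ (P c) = P' c) ∧ (∀ c, τ (Q c) = Q' c) := by
  classical
  let F : Lt k l ⊕ Lt k l → Fin n := Sum.elim P Q
  let F' : Lt k l ⊕ Lt k l → Fin n := Sum.elim P' Q'
  have hF : Function.Injective F := by
    rintro (a | a) (b | b) h
    · rw [hP h]
    · exact absurd h (hPQ a b)
    · exact absurd h.symm (hPQ b a)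
    · rw [hQ h]
  have hF' : Function.Injective F' := by
    rintro (a | a) (b | b) h
    · rw [hP' h]
    · exact absurd h (hPQ' a b)
    · exact absurd h.symm (hPQ' b a)
    · rw [hQ' h]
  let e : {x // x ∈ Set.range F} ≃ {x // x ∈ Set.range F'} :=
    (Equiv.ofInjective _ hF).symm.trans (Equiv.ofInjective _ hF')
  have key : ∀ s, e.extendSubtype (F s) = F' s := by
    intro s
    have := e.extendSubtype_apply_of_mem (F s) ⟨s, rfl⟩
    rw [this]
    change ((Equiv.ofInjective _ hF') ((Equiv.ofInjective _ hF).symm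
      ⟨F s, ⟨s, rfl⟩⟩) : Fin n) = F' s
    have h2 : (Equiv.ofInjective _ hF).symm ⟨F s, ⟨s, rfl⟩⟩ = s := by
      rw [Equiv.symm_apply_eq]; rfl
    rw [h2]; rfl
  exact ⟨e.extendSubtype, fun c => key (Sum.inl c), fun c => key (Sum.inr c)⟩

/-- The element of the group algebra projecting on the parity pattern `O`. -/
noncomputable def parE (C : Cat k l m) (O : Fin n → Bool) :
    MonoidAlgebra ℚ (Perm (Fin (n + m))) :=
  ((List.finRange n).map (fun i => if O i then C.Ei n i else 1 - C.Ei n i)).prod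

theorem act_parE (C : Cat k l m) (O : Fin n → Bool) (v : Fin n → Lt k l) :
    act k l _ (parE C O) (tn v C.ξ) = (if pv v = O then (1 : ℚ) else 0) • tn v C.ξ := by
  have h1 : ∀ L : List (Fin n), act k l _ ((L.map (fun i => if O i then C.Ei n i
      else 1 - C.Ei n i)).prod) (tn v C.ξ)
      = (if ∀ i ∈ L, pv v i = O i then (1 : ℚ) else 0) • tn v C.ξ := by
    intro L
    induction L with
    | nil => simp
    | cons i L ih =>
      rw [List.map_cons, List.prod_cons, map_mul, Module.End.mul_apply, ih, map_smul]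
      have h2 : act k l _ (if O i then C.Ei n i else 1 - C.Ei n i) (tn v C.ξ)
          = (if pv v i = O i then (1 : ℚ) else 0) • tn v C.ξ := by
        cases hO : O i
        · simp only [Bool.false_eq_true, if_false]
          rw [map_sub, map_one, LinearMap.sub_apply, C.act_Ei, Module.End.one_apply]
          unfold pv
          cases odd (v i) <;> simp
        · simp only [if_true]
          rw [C.act_Ei]
          unfold pv
          rfl
      rw [h2, smul_smul]
      congr 1
      simp only [List.forall_mem_cons]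
      by_cases h3 : pv v i = O i
      · by_cases h4 : ∀ j ∈ L, pv v j = O j
        · rw [if_pos h3, if_pos h4, if_pos ⟨h3, h4⟩, one_mul]
        · rw [if_neg h4, if_neg (show ¬ (pv v i = O i ∧ ∀ j ∈ L, pv v j = O j) from
            fun h => h4 h.2), zero_mul]
      · rw [if_neg h3, if_neg (show ¬ (pv v i = O i ∧ ∀ j ∈ L, pv v j = O j) from
            fun h => h3 h.1), mul_zero]
  unfold parE
  rw [h1]
  congr 1
  have h2 : (∀ i ∈ List.finRange n, pv v i = O i) ↔ pv v = O := by
    constructor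
    · intro h; funext i; exact h i (List.mem_finRange i)
    · intro h i _; rw [h]
  simp only [h2]

/-- (RL'): the rational lemma for the catalyst `A_P A_Q (1 ⊗ z)`. -/
theorem RL' {n : ℕ} (C : Cat k l (mm k l)) (hC : C.ξ = xi k l)
    {P Q : Lt k l → Fin n} (hP : Function.Injective P) (hQ : Function.Injective Q)
    (hPQ : ∀ c d, P c ≠ Q d) {Y : MonoidAlgebra ℚ (Perm (Fin (n + mm k l)))}
    (hY : IsAlt C P Q hP hQ Y) (y : MonoidAlgebra ℚ (Perm (Fin (n + mm k l))))
    (hy : ∀ u : Fin (n + mm k l) → Lt k l, act k l _ y (Pi.single u 1) ≠ 0 →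
      (∀ i : Fin k, l + 2 ≤ cnt (Sum.inl i) u) ∧ (∀ j : Fin l, k + 2 ≤ cnt (Sum.inr j) u)) :
    y ∈ JJ k l Y := by
  classical
  by_contra hcon
  have h1 : ∃ t : W k l (Fin (n + mm k l)), (∀ a ∈ JJ k l Y, act k l _ a t = 0) ∧
      act k l _ y t ≠ 0 := by
    by_contra h
    push Not at h
    exact hcon (JJ_of_kill h)
  obtain ⟨t, ht, hyt⟩ := h1
  let T : Submodule ℚ (W k l (Fin (n + mm k l))) :=
    { carrier := {t | ∀ a ∈ JJ k l Y, act k l _ a t = 0}
      add_mem' := fun {x y} hx hy a ha => by rw [map_add, hx a ha, hy a ha, add_zero]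
      zero_mem' := fun a _ => map_zero _
      smul_mem' := fun c x hx a ha => by rw [map_smul, hx a ha, smul_zero] }
  have hTE : ∀ a b : Lt k l, ∀ t ∈ T, EE a b t ∈ T := by
    intro a b t ht c hc
    have h := LinearMap.congr_fun (act_EE c a b) t
    simp only [Module.End.mul_apply] at h
    rw [h, ht c hc, map_zero]
  have hTA : ∀ a : MonoidAlgebra ℚ (Perm (Fin (n + mm k l))), ∀ t ∈ T, act k l _ a t ∈ T := by
    intro a t ht c hc
    rw [← Module.End.mul_apply, ← map_mul]
    exact ht _ (JJ_right _ hc)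
  let N : Submodule ℚ (W k l (Fin (n + mm k l))) := T.map (act k l _ y)
  have hNE : ∀ a b : Lt k l, ∀ v ∈ N, EE a b v ∈ N := by
    rintro a b _ ⟨t, ht, rfl⟩
    have h := LinearMap.congr_fun (act_EE y a b) t
    simp only [Module.End.mul_apply] at h
    rw [← h]
    exact ⟨_, hTE a b t ht, rfl⟩
  obtain ⟨x, hxN, hx0, hxr⟩ := exists_hw N hNE (univ.sup Pool.PI34.Super.ht) (act k l _ y t)
    ⟨t, ht, rfl⟩ hyt (fun w _ => Finset.le_sup (Finset.mem_univ w))
  obtain ⟨t', ht', rfl⟩ := hxN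
  have hsupp : ∀ w, act k l _ y t' w ≠ 0 → (∀ i : Fin k, l + 2 ≤ cnt (Sum.inl i) w) ∧
      (∀ j : Fin l, k + 2 ≤ cnt (Sum.inr j) w) := by
    intro w hw
    have h2 : t' = ∑ u, t' u • (Pi.single u 1 : W k l (Fin (n + mm k l))) := by
      funext w
      rw [Finset.sum_apply, Finset.sum_eq_single w]
      · simp
      · intro b _ hb; simp [Pi.single_apply, hb.symm]
      · intro h; exact absurd (Finset.mem_univ _) h
    rw [h2, map_sum, Finset.sum_apply] at hw
    obtain ⟨u, _, hu⟩ := Finset.exists_ne_zero_of_sum_ne_zero hw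
    rw [map_smul, Pi.smul_apply, smul_eq_mul] at hu
    have h3 := right_ne_zero_of_mul hu
    have h4 : act k l _ y (Pi.single u 1) ≠ 0 := fun e => h3 (by rw [e]; rfl)
    obtain ⟨h5, h6⟩ := hy u h4
    refine ⟨fun i => ?_, fun j => ?_⟩
    · rw [act_single_cnt y u w h3]; exact h5 i
    · rw [act_single_cnt y u w h3]; exact h6 j
  have hQ0 : QQ univ (act k l _ y t') (2 + l) (2 + k) := by
    refine ⟨fun a b _ hlt => hxr a b hlt, hx0, fun w hw i => ?_, fun w hw j => ?_⟩
    · rw [add_comm]; exact (hsupp w hw).1 i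
    · rw [add_comm]; exact (hsupp w hw).2 j
  obtain ⟨σ, v0, hσ⟩ := exists_pair hQ0
  -- move the contracted strands to the end
  set x := act k l _ y t' with hx
  have hxT : x ∈ T := hTA y t' ht'
  set s := rho k l _ σ⁻¹ x with hs
  have hsT : s ∈ T := by
    have := hTA (MonoidAlgebra.of ℚ _ σ⁻¹) x hxT
    rwa [act_of] at this
  have hsr : ∀ a b : Lt k l, odd a = odd b → idx a < idx b → EE a b s = 0 := by
    intro a b _ hlt
    have h := LinearMap.congr_fun (rho_EE (k := k) (l := l) σ⁻¹ a b) x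
    simp only [Module.End.mul_apply] at h
    rw [hs, ← h, hxr a b hlt, map_zero]
  have hscnt : ∀ w, s w ≠ 0 → (∀ i : Fin k, l + 2 ≤ cnt (Sum.inl i) w) ∧
      (∀ j : Fin l, k + 2 ≤ cnt (Sum.inr j) w) := by
    intro w hw
    rw [hs, rho_apply] at hw
    have h2 := hsupp _ (right_ne_zero_of_mul hw)
    have h3 : ∀ a : Lt k l, cnt a (w ∘ ⇑σ⁻¹) = cnt a w := by
      intro a
      unfold cnt
      refine Finset.card_bij' (fun i _ => σ⁻¹ i) (fun i _ => σ i) ?_ ?_ ?_ ?_
      · intro i hi; simpa using hi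
      · intro i hi
        rw [Finset.mem_filter] at hi ⊢
        refine ⟨Finset.mem_univ _, ?_⟩
        rw [Function.comp_apply, inv_app']; exact hi.2
      · intro i _; exact app_inv' σ i
      · intro i _; exact inv_app' σ i
    refine ⟨fun i => ?_, fun j => ?_⟩
    · rw [← h3]; exact h2.1 i
    · rw [← h3]; exact h2.2 j
  -- the contraction
  set g := cbar (xi k l) s with hg
  have hg0 : g v0 ≠ 0 := by
    rw [hg, cbar_apply, hs, rho_adj, inv_inv]
    exact hσ
  have hgPR : PR univ g := cbar_PR (fun a b h hne => xi_g0_ne a b h hne) hsr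
  have hgc1 : ∀ v, g v ≠ 0 → ∀ i : Fin k, 2 ≤ cntR univ (Sum.inl i) v := by
    intro v hv i
    obtain ⟨u, hu1, hu2⟩ := cbar_supp hv
    have h2 := (hscnt _ hu2).1 i
    rw [cnt_append, xi_cnt_inl i hu1] at h2
    have h3 : cntR univ (Sum.inl i) v = cnt (Sum.inl i) v := rfl
    omega
  have hgc2 : ∀ v, g v ≠ 0 → ∀ j : Fin l, 2 ≤ cntR univ (Sum.inr j) v := by
    intro v hv j
    obtain ⟨u, hu1, hu2⟩ := cbar_supp hv
    have h2 := (hscnt _ hu2).2 j
    rw [cnt_append, xi_cnt_inr j hu1] at h2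
    have h3 : cntR univ (Sum.inr j) v = cnt (Sum.inr j) v := rfl
    omega
  set O := pv v0 with hO
  have hQO : QQ univ (prO O g) 2 2 := prO_QQ hgPR hgc1 hgc2 ⟨v0, hg0, rfl⟩
  obtain ⟨P', Q', hP', hQ', hPQ', hD⟩ := exists_two_Dfull (O := O) hQO (fun v hv => by
    unfold prO at hv
    split_ifs at hv with h
    · exact h
    · exact absurd rfl hv)
  -- the projected vector comes from `T`
  set sO := act k l _ (st (parE C O)) s with hsO
  have hsOT : sO ∈ T := hTA _ s hsT
  have hcO : ∀ v, ip sO (tn v (xi k l)) = prO O g v := by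
    intro v
    rw [hsO, act_adj, st_st, ← hC, act_parE, hC, ip_smul_right]
    unfold prO
    rw [hg, cbar_apply]
    split_ifs
    · rw [one_mul]
    · rw [zero_mul]
  -- move `Y`
  obtain ⟨τ, hτ1, hτ2⟩ := exists_perm_two hP hQ hPQ hP' hQ' hPQ'
  set Y' := C.fl τ * Y * C.fl τ⁻¹ with hY'
  have hY'J : Y' ∈ JJ k l Y := Z_mem_JJ _ _
  obtain ⟨w, hw⟩ := Function.ne_iff.1 hD
  apply hw
  change Dfull Q' (Dfull P' (prO O g)) w = 0
  set v1 : Fin n → Lt k l := Function.extend P' id (Function.extend Q' id w) with hv1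
  have hact : act k l _ Y' (tn v1 C.ξ) = ∑ ρ : Perm (Lt k l), ∑ ρ' : Perm (Lt k l),
      (((Perm.sign ρ : ℤ) : ℚ) * ((Perm.sign ρ' : ℤ) : ℚ)) •
        tn (v1 ∘ ⇑(via P' hP' ρ * via Q' hQ' ρ')) C.ξ := by
    rw [hY', map_mul, map_mul, Module.End.mul_apply, Module.End.mul_apply, C.act_fl, hY,
      map_sum]
    refine Finset.sum_congr rfl (fun ρ _ => ?_)
    rw [map_sum]
    refine Finset.sum_congr rfl (fun ρ' _ => ?_)
    rw [map_smul, C.act_fl]
    have h6 : ((v1 ∘ ⇑τ⁻¹⁻¹) ∘ ⇑(via P hP ρ * via Q hQ ρ')) ∘ ⇑τ⁻¹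
        = v1 ∘ ⇑(via P' hP' ρ * via Q' hQ' ρ') := by
      rw [← via_conj P P' hP hP' τ hτ1 ρ, ← via_conj Q Q' hQ hQ' τ hτ2 ρ']
      funext i
      simp only [Function.comp_apply, Perm.mul_apply, inv_inv, inv_app']
    rw [h6]
  have h0 : ip sO (act k l _ Y' (tn v1 C.ξ)) = 0 := by
    rw [← st_st Y', ← act_adj]
    have : act k l _ (st Y') sO = 0 := hsOT _ (JJ_st hY'J)
    rw [this]
    unfold ip
    exact Finset.sum_eq_zero (fun w _ => by simp)
  rw [hact, ip_sum_right] at h0
  rw [← h0]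
  unfold Dfull
  have h5 : ∀ ρ ρ' : Perm (Lt k l), v1 ∘ ⇑(via P' hP' ρ * via Q' hQ' ρ')
      = Function.extend P' ρ (Function.extend Q' ρ' w) := by
    intro ρ ρ'
    funext z
    rw [Function.comp_apply, Perm.mul_apply]
    by_cases h1 : ∃ c, P' c = z
    · obtain ⟨c, rfl⟩ := h1
      rw [via_apply' Q' hQ' ρ' (fun d e => hPQ' c d e.symm), via_apply, hP'.extend_apply, hv1,
        hP'.extend_apply]
      rfl
    · by_cases h2 : ∃ c, Q' c = z
      · obtain ⟨c, rfl⟩ := h2
        have h3 : ¬ ∃ d, P' d = Q' (ρ' c) := fun ⟨d, e⟩ => hPQ' _ _ e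
        have h4 : ¬ ∃ d, P' d = Q' c := fun ⟨d, e⟩ => hPQ' _ _ e
        rw [via_apply, via_apply' P' hP' ρ (fun d e => hPQ' _ _ e), hv1,
          Function.extend_apply' _ _ _ h3, hQ'.extend_apply,
          Function.extend_apply' _ _ _ h4, hQ'.extend_apply]
        rfl
      · push Not at h1 h2
        rw [via_apply' Q' hQ' ρ' h2, via_apply' P' hP' ρ h1, hv1,
          Function.extend_apply' _ _ _ (by push Not; exact h1),
          Function.extend_apply' _ _ _ (by push Not; exact h2),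
          Function.extend_apply' _ _ _ (by push Not; exact h1),
          Function.extend_apply' _ _ _ (by push Not; exact h2)]
  rw [Finset.sum_congr rfl (fun ρ' _ => Finset.mul_sum _ _ _), Finset.sum_comm]
  refine Finset.sum_congr rfl (fun ρ _ => ?_)
  rw [ip_sum_right]
  refine Finset.sum_congr rfl (fun ρ' _ => ?_)
  rw [ip_smul_right, hC, hcO, h5]
  ring

end Pool.PI34.Super
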