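import Pool.Agent.LibPI34.Rl7

/-!
PI34, rational lemma, file 8: the elements `A_P A_Q (1 ⊗ z)`.
-/

set_option linter.unusedSectionVars false
set_option linter.unusedSimpArgs false

namespace Pool.PI34.Super

open Equiv Finset

variable {k l n m : ℕ}

theorem via_inv (P : Lt k l → Fin n) (hP : Function.Injective P) (ρ : Perm (Lt k l)) :
    via P hP ρ⁻¹ = (via P hP ρ)⁻¹ := by
  have : ∀ ρ : Perm (Lt k l), via P hP ρ = Perm.viaEmbeddingHom ⟨P, hP⟩ ρ := fun ρ => rfl
  rw [this, this, map_inv]

theorem via_sign (P : Lt k l → Fin n) (hP : Function.Injective P) (ρ : Perm (Lt k l)) :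
    Perm.sign (via P hP ρ) = Perm.sign ρ := by
  have h : ∀ (inst : DecidablePred (· ∈ Set.range P)),
      Perm.sign (@Perm.extendDomain _ _ ρ (· ∈ Set.range P) inst (ofInjective P hP)) =
        Perm.sign ρ := fun inst => Perm.sign_extendDomain ρ (ofInjective P hP)
  exact h _

theorem via_inj (P : Lt k l → Fin n) (hP : Function.Injective P) :
    Function.Injective (via P hP) := by
  intro a b h
  apply Equiv.ext
  intro c
  have := Equiv.ext_iff.1 h (P c)
  rw [via_apply, via_apply] at this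
  exact hP this

theorem via_surj (P : Lt k l → Fin n) (hP : Function.Injective P) (σ : Perm (Fin n))
    (hσ : ∀ i, i ∉ univ.image P → σ i = i) : ∃ ρ, via P hP ρ = σ := by
  classical
  have h1 : ∀ c, ∃ d, P d = σ (P c) := by
    intro c
    by_contra hcon
    have h2 : σ (P c) ∉ univ.image P := by
      rw [Finset.mem_image]
      rintro ⟨d, _, hd⟩
      exact hcon ⟨d, hd⟩
    have h3 := hσ _ h2
    have h4 := σ.injective h3
    exact hcon ⟨c, h4.symm⟩
  choose f hf using h1
  have hinj : Function.Injective f := by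
    intro a b hab
    have := hf a
    rw [hab, hf b] at this
    exact (hP (σ.injective this)).symm
  let ρ : Perm (Lt k l) := Equiv.ofBijective f (Finite.injective_iff_bijective.1 hinj)
  refine ⟨ρ, ?_⟩
  apply Equiv.ext
  intro x
  by_cases hx : ∃ c, P c = x
  · obtain ⟨c, rfl⟩ := hx
    rw [via_apply]
    exact hf c
  · push Not at hx
    rw [via_apply' P hP ρ hx, hσ]
    rw [Finset.mem_image]
    rintro ⟨c, _, hc⟩
    exact hx c hc

theorem sum_supp {V : Type*} [AddCommMonoid V] (P : Lt k l → Fin n) (hP : Function.Injective P)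
    (F : Perm (Fin n) → V) :
    ∑ σ ∈ univ.filter (fun σ : Perm (Fin n) => ∀ i, i ∉ univ.image P → σ i = i), F σ
      = ∑ ρ : Perm (Lt k l), F (via P hP ρ) := by
  classical
  symm
  refine Finset.sum_bij (fun ρ _ => via P hP ρ) ?_ ?_ ?_ (fun _ _ => rfl)
  · intro ρ _
    rw [Finset.mem_filter]
    refine ⟨Finset.mem_univ _, fun i hi => via_apply' P hP ρ (fun c hc => hi ?_)⟩
    rw [Finset.mem_image]; exact ⟨c, Finset.mem_univ _, hc⟩
  · intro a _ b _ h; exact via_inj P hP h
  · intro σ hσ
    rw [Finset.mem_filter] at hσ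
    obtain ⟨ρ, hρ⟩ := via_surj P hP σ hσ.2
    exact ⟨ρ, Finset.mem_univ _, hρ⟩

/-- The antisymmetrizer of the plain flips over `T`. -/
noncomputable def Cat.alt (C : Cat k l m) (T : Finset (Fin n)) :
    MonoidAlgebra ℚ (Perm (Fin (n + m))) :=
  ∑ σ ∈ univ.filter (fun σ : Perm (Fin n) => ∀ i, i ∉ T → σ i = i),
      ((Perm.sign σ : ℤ) : ℚ) • C.fl σ

theorem Cat.act_alt (C : Cat k l m) (P : Lt k l → Fin n) (hP : Function.Injective P)
    (v : Fin n → Lt k l) : act k l _ (C.alt (univ.image P)) (tn v C.ξ)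
      = ∑ ρ : Perm (Lt k l), ((Perm.sign ρ : ℤ) : ℚ) • tn (v ∘ ⇑(via P hP ρ)) C.ξ := by
  unfold Cat.alt
  rw [map_sum, LinearMap.sum_apply]
  simp only [map_smul, LinearMap.smul_apply, C.act_fl]
  rw [sum_supp P hP (fun σ => ((Perm.sign σ : ℤ) : ℚ) • tn (v ∘ ⇑σ⁻¹) C.ξ)]
  rw [← Equiv.sum_comp (Equiv.inv (Perm (Lt k l)))]
  refine Finset.sum_congr rfl (fun ρ _ => ?_)
  rw [Equiv.inv_apply, via_inv, inv_inv, Perm.sign_inv, via_sign]

/-- `A_P A_Q (1 ⊗ z)` acts as the product of two plain antisymmetrizers. -/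
theorem isAlt_alt (C : Cat k l m) {P Q : Lt k l → Fin n} (hP : Function.Injective P)
    (hQ : Function.Injective Q) (hPQ : ∀ c d, P c ≠ Q d) :
    IsAlt C P Q hP hQ (C.alt (univ.image P) * C.alt (univ.image Q) * C.Z n) := by
  intro v
  rw [map_mul, map_mul, Module.End.mul_apply, Module.End.mul_apply, C.act_Z, C.act_alt Q hQ,
    map_sum, Finset.sum_comm]
  refine Finset.sum_congr rfl (fun ρ' _ => ?_)
  rw [map_smul, C.act_alt P hP, Finset.smul_sum]
  refine Finset.sum_congr rfl (fun ρ _ => ?_)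
  rw [smul_smul, mul_comm]
  have : (v ∘ ⇑(via Q hQ ρ')) ∘ ⇑(via P hP ρ) = v ∘ ⇑(via P hP ρ * via Q hQ ρ') := by
    funext x
    simp only [Function.comp_apply, Perm.mul_apply]
    congr 1
    by_cases h1 : ∃ c, P c = x
    · obtain ⟨c, rfl⟩ := h1
      rw [via_apply, via_apply' Q hQ ρ' (fun d e => hPQ _ _ e.symm),
        via_apply' Q hQ ρ' (fun d e => hPQ _ _ e.symm), via_apply]
    · push Not at h1
      rw [via_apply' P hP ρ h1]
      by_cases h2 : ∃ c, Q c = x
      · obtain ⟨c, rfl⟩ := h2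
        rw [via_apply, via_apply' P hP ρ (fun d e => hPQ _ _ e)]
      · push Not at h2
        rw [via_apply' Q hQ ρ' h2, via_apply' P hP ρ h1]
  rw [this]

/-- The last `q` strands and the catalyst. -/
def phq (n' q m : ℕ) : Fin (q + m) ↪o Fin (n' + q + m) :=
  (Fin.natAddOrderEmb n').trans (Fin.castOrderIso (add_assoc n' q m).symm).toOrderEmbedding

theorem phq_val (n' q m : ℕ) (x : Fin (q + m)) : (phq n' q m x).val = n' + x.val := rfl

theorem conv_phq (n' q m : ℕ) : Conv (phq n' q m) := by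
  intro x hx
  left
  intro a
  rw [Fin.lt_def, phq_val]
  by_contra h
  apply hx
  have hx1 : x.val - n' < q + m := by have := x.2; omega
  refine ⟨⟨x.val - n', hx1⟩, Fin.ext ?_⟩
  rw [phq_val]
  simp only
  omega

theorem act_phq (C : Cat k l m) {n' q : ℕ} (y : MonoidAlgebra ℚ (Perm (Fin (q + m))))
    {α : Type} (I : Finset α) (c : α → ℚ) (τ : α → Perm (Fin q))
    (hy : ∀ v : Fin q → Lt k l, act k l _ y (tn v C.ξ) = ∑ i ∈ I, c i • tn (v ∘ ⇑(τ i)) C.ξ)
    (v : Fin (n' + q) → Lt k l) :
    act k l _ (pl (phq n' q m) y) (tn v C.ξ)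
      = ∑ i ∈ I, c i • tn (v ∘ ⇑(ext (Fin.natAddOrderEmb n') (τ i))) C.ξ := by
  classical
  have hL : ∀ w : Fin (n' + q + m) → Lt k l, ∀ i : Fin q,
      (w ∘ phq n' q m) (Fin.castAdd m i) = w (phL (n' + q) m (Fin.natAdd n' i)) := by
    intro w i
    rw [Function.comp_apply]
    congr 1
  have hR : ∀ w : Fin (n' + q + m) → Lt k l, (w ∘ phq n' q m) ∘ phR q m
      = w ∘ phR (n' + q) m := by
    intro w
    funext i
    simp only [Function.comp_apply]
    congr 1
    apply Fin.ext
    rw [phq_val]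
    have h1 : (phR q m i).val = q + i.val := rfl
    have h2 : (phR (n' + q) m i).val = n' + q + i.val := rfl
    rw [h1, h2]; omega
  funext w
  rw [act_pl (conv_phq n' q m)]
  have hout : ∀ i : Fin n', phL (n' + q) m (Fin.castAdd q i) ∉ Set.range (phq n' q m) := by
    rintro i ⟨x, hx⟩
    have h1 := congrArg Fin.val hx
    rw [phq_val] at h1
    have h2 : (phL (n' + q) m (Fin.castAdd q i)).val = i.val := rfl
    have := i.2; omega
  have h : sl (phq n' q m) w (tn v C.ξ)
      = if (∀ i : Fin n', w (phL (n' + q) m (Fin.castAdd q i)) = v (Fin.castAdd q i))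
        then tn (fun i => v (Fin.natAdd n' i)) C.ξ else 0 := by
    funext u
    rw [sl_apply, tn_apply]
    have h2 : Function.extend (phq n' q m) u w ∘ phR (n' + q) m = u ∘ phR q m := by
      rw [← hR]
      funext i
      simp only [Function.comp_apply]
      rw [(phq n' q m).injective.extend_apply]
    rw [h2]
    have h3 : (Function.extend (phq n' q m) u w ∘ phL (n' + q) m = v) ↔
        ((∀ i : Fin n', w (phL (n' + q) m (Fin.castAdd q i)) = v (Fin.castAdd q i)) ∧
          u ∘ phL q m = fun i => v (Fin.natAdd n' i)) := by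
      constructor
      · intro h4
        refine ⟨fun i => ?_, ?_⟩
        · have := congrFun h4 (Fin.castAdd q i)
          rw [Function.comp_apply, Function.extend_apply' _ _ _ (hout i)] at this
          exact this
        · funext i
          have := congrFun h4 (Fin.natAdd n' i)
          have h5 : phL (n' + q) m (Fin.natAdd n' i) = phq n' q m (phL q m i) := rfl
          rw [Function.comp_apply, h5, (phq n' q m).injective.extend_apply] at this
          exact this
      · rintro ⟨h4, h5⟩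
        funext x
        refine Fin.addCases (fun i => ?_) (fun i => ?_) x
        · rw [Function.comp_apply, Function.extend_apply' _ _ _ (hout i)]; exact h4 i
        · have h6 : phL (n' + q) m (Fin.natAdd n' i) = phq n' q m (phL q m i) := rfl
          rw [Function.comp_apply, h6, (phq n' q m).injective.extend_apply]
          exact congrFun h5 i
    by_cases h4 : (∀ i : Fin n', w (phL (n' + q) m (Fin.castAdd q i)) = v (Fin.castAdd q i))
    · rw [if_pos h4, tn_apply]
      by_cases h5 : u ∘ phL q m = fun i => v (Fin.natAdd n' i)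
      · rw [if_pos (h3.2 ⟨h4, h5⟩), if_pos h5]
      · rw [if_neg (fun h6 => h5 (h3.1 h6).2), if_neg h5]
    · rw [if_neg h4, if_neg (fun h6 => h4 (h3.1 h6).1)]; rfl
  rw [h, Finset.sum_apply]
  have hτL : ∀ (τ : Perm (Fin q)) (i : Fin n'),
      ext (Fin.natAddOrderEmb n') τ (Fin.castAdd q i) = Fin.castAdd q i := by
    intro τ i
    refine ext_apply' _ _ _ ?_
    rintro ⟨x, hx⟩
    have h1 := congrArg Fin.val hx
    have h2 : (Fin.natAddOrderEmb n' x : Fin (n' + q)).val = n' + x.val := rfl
    have h3 : (Fin.castAdd q i).val = i.val := rfl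
    have := i.2; omega
  have hτR : ∀ (τ : Perm (Fin q)) (i : Fin q),
      ext (Fin.natAddOrderEmb n') τ (Fin.natAdd n' i) = Fin.natAdd n' (τ i) := by
    intro τ i
    exact ext_apply (Fin.natAddOrderEmb n') τ i
  have h7 : ∀ τ : Perm (Fin q), (w ∘ phL (n' + q) m = v ∘ ⇑(ext (Fin.natAddOrderEmb n') τ)) ↔
      ((∀ i : Fin n', w (phL (n' + q) m (Fin.castAdd q i)) = v (Fin.castAdd q i)) ∧
        (w ∘ phq n' q m) ∘ phL q m = (fun i => v (Fin.natAdd n' i)) ∘ ⇑τ) := by
    intro τ
    constructor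
    · intro h4
      refine ⟨fun i => ?_, ?_⟩
      · have := congrFun h4 (Fin.castAdd q i)
        rw [Function.comp_apply, Function.comp_apply, hτL] at this
        exact this
      · funext i
        have := congrFun h4 (Fin.natAdd n' i)
        rw [Function.comp_apply, Function.comp_apply, hτR] at this
        exact this
    · rintro ⟨h4, h5⟩
      funext x
      refine Fin.addCases (fun i => ?_) (fun i => ?_) x
      · rw [Function.comp_apply, Function.comp_apply, hτL]; exact h4 i
      · rw [Function.comp_apply, Function.comp_apply, hτR]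
        exact congrFun h5 i
  by_cases h4 : (∀ i : Fin n', w (phL (n' + q) m (Fin.castAdd q i)) = v (Fin.castAdd q i))
  · rw [if_pos h4, hy, Finset.sum_apply]
    refine Finset.sum_congr rfl (fun i _ => ?_)
    rw [Pi.smul_apply, Pi.smul_apply, tn_apply, tn_apply, hR]
    by_cases h5 : (w ∘ phq n' q m) ∘ phL q m = (fun i => v (Fin.natAdd n' i)) ∘ ⇑(τ i)
    · rw [if_pos h5, if_pos ((h7 _).2 ⟨h4, h5⟩)]
    · rw [if_neg h5, if_neg (fun h6 => h5 ((h7 _).1 h6).2)]
  · rw [if_neg h4, map_zero]
    symm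
    refine Finset.sum_eq_zero (fun i _ => ?_)
    rw [Pi.smul_apply, tn_apply, if_neg (fun h6 => h4 ((h7 _).1 h6).1), smul_zero]

theorem natAdd_inj' (n' : ℕ) {q : ℕ} {a b : Fin q} (h : Fin.natAdd n' a = Fin.natAdd n' b) :
    a = b := by
  have := congrArg Fin.val h
  simp only [Fin.val_natAdd] at this
  exact Fin.ext (by omega)

theorem natP_inj (n' : ℕ) {q : ℕ} {P : Lt k l → Fin q} (hP : Function.Injective P) :
    Function.Injective (fun c => Fin.natAdd n' (P c)) := fun _ _ h => hP (natAdd_inj' n' h)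

/-- Placement of `A_P A_Q (1 ⊗ z)` on the last strands. -/
theorem isAlt_pl (C : Cat k l m) {n' q : ℕ} {P Q : Lt k l → Fin q} (hP : Function.Injective P)
    (hQ : Function.Injective Q) {Y : MonoidAlgebra ℚ (Perm (Fin (q + m)))}
    (hY : IsAlt C P Q hP hQ Y) :
    IsAlt C (fun c => Fin.natAdd n' (P c)) (fun c => Fin.natAdd n' (Q c))
      (natP_inj n' hP) (natP_inj n' hQ) (pl (phq n' q m) Y) := by
  intro v
  have h1 := act_phq C (n' := n') Y (univ : Finset (Perm (Lt k l) × Perm (Lt k l)))
    (fun x => ((Perm.sign x.1 : ℤ) : ℚ) * ((Perm.sign x.2 : ℤ) : ℚ))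
    (fun x => via P hP x.1 * via Q hQ x.2) (fun v => by
      rw [hY, Fintype.sum_prod_type]) v
  rw [h1, Fintype.sum_prod_type]
  refine Finset.sum_congr rfl (fun ρ _ => Finset.sum_congr rfl (fun ρ' _ => ?_))
  have h2 : ∀ (P : Lt k l → Fin q) (hP : Function.Injective P) (ρ : Perm (Lt k l)),
      ext (Fin.natAddOrderEmb n') (via P hP ρ)
        = via (fun c => Fin.natAdd n' (P c)) (natP_inj n' hP) ρ := by
    intro P hP ρ
    apply Equiv.ext
    intro x
    by_cases hx : ∃ c, Fin.natAdd n' (P c) = x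
    · obtain ⟨c, rfl⟩ := hx
      rw [via_apply (fun c => Fin.natAdd n' (P c)) (natP_inj n' hP) ρ c]
      have := ext_apply (Fin.natAddOrderEmb n') (via P hP ρ) (P c)
      rw [via_apply] at this
      exact this
    · push Not at hx
      rw [via_apply' (fun c => Fin.natAdd n' (P c)) (natP_inj n' hP) ρ hx]
      by_cases hx2 : x ∈ Set.range (Fin.natAddOrderEmb n' : Fin q ↪o Fin (n' + q))
      · obtain ⟨y, rfl⟩ := hx2
        rw [ext_apply, via_apply' P hP ρ (fun c e => hx c (by rw [e]; rfl))]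
      · exact ext_apply' _ _ _ hx2
  rw [map_mul, h2, h2]

end Pool.PI34.Super
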