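import Pool.Agent.LibPI34.S2_G

/-!
PI34, block S2, file 2: the expansions of the double coefficient and of the homogeneous components.
-/

set_option autoImplicit false

namespace Pool.PI34.SS

open Equiv Finset

section comb

theorem permsum {B A : Type*} [DecidableEq B] [AddCommMonoid A] (L : List B)
    (H : List B → A) (K : B → List B → A) (h0 : H [] = 0) (h1 : ∀ y l, H (y :: l) = K y l) :
    ∑ l ∈ L.permutations.toFinset, H l
      = ∑ y ∈ L.toFinset, ∑ l ∈ (L.erase y).permutations.toFinset, K y l := by
  rw [Finset.sum_sigma']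
  by_cases hL : L = []
  · subst hL
    rw [List.permutations_nil, List.toFinset_nil]
    have e : ((∅ : Finset B).sigma fun y => (([] : List B).erase y).permutations.toFinset) = ∅ :=
      Finset.eq_empty_of_forall_notMem fun x hx => by
        rw [Finset.mem_sigma] at hx
        exact Finset.notMem_empty _ hx.1
    rw [e, Finset.sum_empty]
    simp [h0]
  · symm
    refine Finset.sum_bij (fun p _ => p.1 :: p.2) ?_ ?_ ?_ ?_
    · rintro ⟨y, l⟩ hp
      rw [Finset.mem_sigma, List.mem_toFinset, List.mem_toFinset, List.mem_permutations] at hp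
      rw [List.mem_toFinset, List.mem_permutations]
      exact List.cons_perm_iff_perm_erase.2 hp
    · rintro ⟨y, l⟩ _ ⟨y', l'⟩ _ h
      rw [List.cons.injEq] at h
      obtain ⟨rfl, rfl⟩ := h
      rfl
    · intro l hl
      rw [List.mem_toFinset, List.mem_permutations] at hl
      rcases l with _ | ⟨y, l⟩
      · exact absurd (List.nil_perm.1 hl) hL
      · refine ⟨⟨y, l⟩, ?_, rfl⟩
        rw [Finset.mem_sigma, List.mem_toFinset, List.mem_toFinset, List.mem_permutations]
        exact List.cons_perm_iff_perm_erase.1 hl
    · rintro ⟨y, l⟩ _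
      exact (h1 y l).symm

theorem ofFn_cast {B : Type*} (l : List B) {b : ℕ} (h : l.length = b) :
    List.ofFn (fun i : Fin b => l.get (Fin.cast h.symm i)) = l := by
  subst h
  exact List.ofFn_get l

theorem exists_perm {Y : Type} [DecidableEq Y] {b : ℕ} (c d : Fin b → Y)
    (h : (List.ofFn d).Perm (List.ofFn c)) : ∃ τ : Perm (Fin b), c ∘ τ = d := by
  have hcard : ∀ y, Fintype.card {i // d i = y} = Fintype.card {i // c i = y} := by
    intro y
    have h1 := count_map d (List.finRange b) (List.nodup_finRange b) y
    have h2 := count_map c (List.finRange b) (List.nodup_finRange b) y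
    rw [← List.ofFn_eq_map] at h1 h2
    have h3 : ((List.ofFn d : List Y) : Multiset Y) = (List.ofFn c : List Y) :=
      Multiset.coe_eq_coe.2 h
    rw [h3, h2] at h1
    simp only [List.mem_finRange, and_true] at h1
    rw [Fintype.card_subtype, Fintype.card_subtype]
    exact h1.symm
  let e : Fin b ≃ Fin b := (Equiv.sigmaFiberEquiv d).symm.trans
    ((Equiv.sigmaCongrRight fun y => Fintype.equivOfCardEq (hcard y)).trans
      (Equiv.sigmaFiberEquiv c))
  refine ⟨e, ?_⟩
  funext i
  exact (Fintype.equivOfCardEq (hcard (d i)) ⟨i, rfl⟩).2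

theorem permsum_finRange {A : Type*} [AddCommMonoid A] {b : ℕ} (F : List (Fin b) → A) :
    ∑ l ∈ (List.finRange b).permutations.toFinset, F l
      = ∑ τ : Perm (Fin b), F (List.ofFn τ) := by
  symm
  refine Finset.sum_bij (fun τ _ => List.ofFn τ) ?_ ?_ ?_ ?_
  · intro τ _
    rw [List.mem_toFinset, List.mem_permutations]
    have h := Equiv.Perm.ofFn_comp_perm τ (id : Fin b → Fin b)
    rw [List.ofFn_id] at h
    exact h
  · intro τ _ τ' _ h
    have h1 := List.ofFn_injective h
    exact DFunLike.coe_injective h1
  · intro l hl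
    rw [List.mem_toFinset, List.mem_permutations] at hl
    have hlen : l.length = b := by rw [hl.length_eq, List.length_finRange]
    have hnd : l.Nodup := hl.nodup_iff.2 (List.nodup_finRange b)
    have hinj : Function.Injective (fun i : Fin b => l.get (Fin.cast hlen.symm i)) :=
      hnd.injective_get.comp (Fin.cast_injective _)
    refine ⟨Equiv.ofBijective _ (Finite.injective_iff_bijective.1 hinj), Finset.mem_univ _, ?_⟩
    exact ofFn_cast l hlen
  · intro τ _
    rfl

theorem permsum_ofFn {A : Type*} [AddCommMonoid A] {Y : Type} [DecidableEq Y] {b : ℕ}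
    (c : Fin b → Y) (F : List Y → A) :
    ∑ l ∈ (List.ofFn c).permutations.toFinset, F l
      = ∑ d ∈ univ.image (fun τ : Perm (Fin b) => c ∘ τ), F (List.ofFn d) := by
  symm
  refine Finset.sum_bij (fun d _ => List.ofFn d) ?_ ?_ ?_ ?_
  · intro d hd
    rw [Finset.mem_image] at hd
    obtain ⟨τ, _, rfl⟩ := hd
    rw [List.mem_toFinset, List.mem_permutations]
    exact Equiv.Perm.ofFn_comp_perm τ c
  · intro d _ d' _ h
    exact List.ofFn_injective h
  · intro l hl
    rw [List.mem_toFinset, List.mem_permutations] at hl
    have hlen : l.length = b := by rw [hl.length_eq, List.length_ofFn]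
    refine ⟨fun i : Fin b => l.get (Fin.cast hlen.symm i), ?_, ofFn_cast l hlen⟩
    rw [Finset.mem_image]
    obtain ⟨τ, hτ⟩ := exists_perm c (fun i : Fin b => l.get (Fin.cast hlen.symm i)) (by
      rw [ofFn_cast l hlen]
      exact hl)
    exact ⟨τ, Finset.mem_univ _, hτ⟩
  · intro d _
    rfl

end comb

section exp

variable {U : Type*} [Ring U] {Y : Type} [DecidableEq Y]

/-- left multiplication through the free ring -/
noncomputable def lmul {M : Type*} [Ring M] (m : Y → M) : FA Y →+* AddMonoid.End M :=
  (Module.toAddMonoidEnd M M).comp (FA.lift m)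

theorem lmul_apply {M : Type*} [Ring M] (m : Y → M) (P : FA Y) (x : M) :
    lmul m P x = FA.lift m P * x := rfl

/-- the expansion of one letter -/
theorem stp_map {B : Type} (α : Y → U) (y : Y) (F : List (Y × U) → U) (f : B → Y × U)
    (l : List B) : stp α y F (l.map f) = α y * F (l.map f) +
      (match l with
        | [] => 0
        | s :: l' => if (f s).1 = y then (f s).2 * F (l'.map f) else 0) := by
  cases l with
  | nil => simp [stp]
  | cons s l => rfl

theorem stp_sum {B : Type} [DecidableEq B] (α : Y → U) (y : Y) (F : List (Y × U) → U)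
    (f : B → Y × U) (L : List B) :
    ∑ l ∈ L.permutations.toFinset, stp α y F (l.map f)
      = α y * ∑ l ∈ L.permutations.toFinset, F (l.map f)
        + ∑ s ∈ L.toFinset, ∑ l ∈ (L.erase s).permutations.toFinset,
          if (f s).1 = y then (f s).2 * F (l.map f) else 0 := by
  rw [Finset.sum_congr rfl (fun l _ => stp_map α y F f l), Finset.sum_add_distrib,
    ← Finset.mul_sum]
  congr 1
  exact permsum L _ (fun s l => if (f s).1 = y then (f s).2 * F (l.map f) else 0) rfl
    (fun _ _ => rfl)

theorem start_sum {B : Type} [DecidableEq B] (f : B → Y × U) (L : List B) :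
    ∑ l ∈ L.permutations.toFinset, F0 Y U (l.map f) = if L = [] then 1 else 0 := by
  by_cases hL : L = []
  · subst hL
    rw [if_pos rfl]
    simp [F0]
  · rw [if_neg hL]
    refine Finset.sum_eq_zero (fun l hl => ?_)
    rw [List.mem_toFinset, List.mem_permutations] at hl
    rcases l with _ | ⟨s, l⟩
    · exact absurd (List.nil_perm.1 hl) hL
    · rfl

theorem CL_GG {b : ℕ} (c : Fin b → Y) (α : Y → U) (β : Fin b → U) (P : FA Y) :
    CL U (List.finRange b) (FA.lift (fun y => GT.mk (GT.mk (α y) 1) 1 +
      ∑ s, if c s = y then GT.mk (GT.mk (β s) (ge s)) (ge s) else 0) P)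
      = ∑ τ : Perm (Fin b), GG α P (List.ofFn (fun i => (c (τ i), β (τ i)))) := by
  let m : Y → GT (GT U b) b := fun y => GT.mk (GT.mk (α y) 1) 1 +
      ∑ s, if c s = y then GT.mk (GT.mk (β s) (ge s)) (ge s) else 0
  let f : Fin b → Y × U := fun s => (c s, β s)
  have h1 := theta_rel α (lmul m)
    (fun F x => ∀ L : List (Fin b), L.Nodup →
      CL U L x = ∑ l ∈ L.permutations.toFinset, F (l.map f))
    (fun r F x h L hL => by
      rw [map_zsmul, h L hL, Finset.smul_sum]
      rfl)
    (fun F x F' x' h h' L hL => by
      rw [map_add, h L hL, h' L hL, ← Finset.sum_add_distrib]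
      rfl)
    (fun y F x h L hL => by
      rw [lmul_apply, FA.lift_of, stp_sum]
      change CL U L ((GT.mk (GT.mk (α y) 1) 1 +
        ∑ s, if c s = y then GT.mk (GT.mk (β s) (ge s)) (ge s) else 0) * x) = _
      rw [add_mul, map_add, CL_ev, h L hL, Finset.sum_mul, map_sum]
      congr 1
      have h3 : ∀ s : Fin b, CL U L ((if c s = y then GT.mk (GT.mk (β s) (ge s)) (ge s) else 0)
          * x) = if s ∈ L.toFinset then ∑ l ∈ (L.erase s).permutations.toFinset,
            (if (f s).1 = y then (f s).2 * F (l.map f) else 0) else 0 := by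
        intro s
        by_cases h1 : c s = y
        · rw [if_pos h1, CL_od L hL]
          by_cases h2 : s ∈ L
          · rw [if_pos h2, if_pos (List.mem_toFinset.2 h2), h _ (hL.erase s), Finset.mul_sum]
            exact Finset.sum_congr rfl (fun l _ => (if_pos h1).symm)
          · rw [if_neg h2, if_neg (fun e => h2 (List.mem_toFinset.1 e))]
        · rw [if_neg h1, zero_mul, map_zero]
          have e : ∑ l ∈ (L.erase s).permutations.toFinset,
              (if (f s).1 = y then (f s).2 * F (l.map f) else 0) = 0 :=
            Finset.sum_eq_zero (fun l _ => if_neg h1)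
          rw [e, ite_self]
      rw [Finset.sum_congr rfl (fun s _ => h3 s), Finset.sum_ite_mem, Finset.univ_inter])
    P (F0 Y U) 1 (fun L _ => by rw [CL_one, start_sum]) (List.finRange b) (List.nodup_finRange b)
  rw [lmul_apply, mul_one, permsum_finRange (fun l => theta α P (F0 Y U) (l.map f))] at h1
  refine h1.trans (Finset.sum_congr rfl (fun τ _ => ?_))
  unfold GG
  rw [List.map_ofFn]
  rfl

theorem Gam_GG (α β : Y → U) (P : FA Y) {b : ℕ} (c : Fin b → Y) :
    (Gam α β P).coeff ((List.ofFn c : List Y) : Multiset Y)
      = ∑ d ∈ univ.image (fun τ : Perm (Fin b) => c ∘ τ),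
        GG α P (List.ofFn (fun i => (d i, β (d i)))) := by
  let m : Y → AddMonoidAlgebra U (Multiset Y) :=
    fun y => AddMonoidAlgebra.single 0 (α y) + AddMonoidAlgebra.single {y} (β y)
  let f : Y → Y × U := fun y => (y, β y)
  have h1 := theta_rel α (lmul m)
    (fun F x => ∀ L : List Y,
      x.coeff (L : Multiset Y) = ∑ l ∈ L.permutations.toFinset, F (l.map f))
    (fun r F x h L => by
      rw [AddMonoidAlgebra.coeff_smul_apply, h L, Finset.smul_sum]
      rfl)
    (fun F x F' x' h h' L => by
      rw [AddMonoidAlgebra.coeff_add, Finsupp.add_apply, h L, h' L, ← Finset.sum_add_distrib]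
      rfl)
    (fun y F x h L => by
      rw [lmul_apply, FA.lift_of, stp_sum]
      change ((AddMonoidAlgebra.single 0 (α y) + AddMonoidAlgebra.single {y} (β y)) * x).coeff _ = _
      rw [add_mul, AddMonoidAlgebra.coeff_add, Finsupp.add_apply, coeff_single_zero_mul,
        coeff_single_mul_multiset, h L]
      congr 1
      have h3 : ∀ s ∈ L.toFinset, ∑ l ∈ (L.erase s).permutations.toFinset,
            (if (f s).1 = y then (f s).2 * F (l.map f) else 0)
          = if s = y then β y * ∑ l ∈ (L.erase y).permutations.toFinset, F (l.map f) else 0 := by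
        intro s _
        by_cases h1 : s = y
        · subst h1
          rw [if_pos rfl, Finset.mul_sum]
          exact Finset.sum_congr rfl (fun l _ => if_pos rfl)
        · rw [if_neg h1]
          exact Finset.sum_eq_zero (fun l _ => if_neg h1)
      rw [Finset.sum_congr rfl h3, Finset.sum_ite_eq', Multiset.coe_erase, h (L.erase y)]
      simp only [Multiset.mem_coe, List.mem_toFinset])
    P (F0 Y U) 1 (fun L => by
      rw [start_sum, AddMonoidAlgebra.one_def, AddMonoidAlgebra.coeff_single,
        Finsupp.single_apply]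
      by_cases hL : L = []
      · subst hL
        rw [if_pos rfl, if_pos (Multiset.coe_nil.symm)]
      · rw [if_neg hL, if_neg]
        intro h2
        rw [eq_comm, Multiset.coe_eq_zero] at h2
        exact hL h2) (List.ofFn c)
  rw [lmul_apply, mul_one, permsum_ofFn c (fun l => theta α P (F0 Y U) (l.map f))] at h1
  refine h1.trans (Finset.sum_congr rfl (fun d _ => ?_))
  unfold GG
  rw [List.map_ofFn]
  rfl

end exp

end Pool.PI34.SS
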