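import Pool.Agent.LibPI34.S_Main

/-!
PI34, block S2 (use of the catalyst lemma H4 in theorem S), file 1: the word automaton.
-/

set_option autoImplicit false

namespace Pool.PI34.SS

open Equiv Finset

section auto

variable {A : Type*} [Ring A] {X : Type} [DecidableEq X]

/-- One letter of the word automaton. -/
def stp (α : X → A) (y : X) (F : List (X × A) → A) : List (X × A) → A
  | [] => α y * F []
  | q :: l => α y * F (q :: l) + (if q.1 = y then q.2 * F l else 0)

/-- One letter, as an additive endomorphism. -/
def stpHom (α : X → A) (y : X) : AddMonoid.End (List (X × A) → A) where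
  toFun := stp α y
  map_zero' := by
    funext l
    cases l <;> simp [stp]
  map_add' F G := by
    funext l
    cases l with
    | nil => simp [stp, mul_add]
    | cons q l =>
      simp only [stp, Pi.add_apply, mul_add]
      split_ifs
      · abel
      · simp

/-- The action of the free ring. -/
noncomputable def theta (α : X → A) : FA X →+* AddMonoid.End (List (X × A) → A) :=
  FA.lift (stpHom α)

/-- The start. -/
def F0 (X A : Type*) [Ring A] : List (X × A) → A
  | [] => 1
  | _ :: _ => 0

/-- The sum of the products of the words with marked letters. -/
noncomputable def GG (α : X → A) (P : FA X) (l : List (X × A)) : A := theta α P (F0 X A) l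

theorem theta_of (α : X → A) (y : X) (F : List (X × A) → A) :
    theta α (FA.of y) F = stp α y F := by
  unfold theta
  rw [FA.lift_of]
  rfl

theorem theta_mul (α : X → A) (P P' : FA X) (F : List (X × A) → A) :
    theta α (P * P') F = theta α P (theta α P' F) := by
  rw [map_mul]; rfl

theorem theta_add (α : X → A) (P P' : FA X) (F : List (X × A) → A) :
    theta α (P + P') F = theta α P F + theta α P' F := by
  rw [map_add]; rfl

theorem theta_int (α : X → A) (r : ℤ) (F : List (X × A) → A) :
    theta α (r : FA X) F = r • F := by
  rw [map_intCast]
  have : ((r : ℤ) : AddMonoid.End (List (X × A) → A)) = r • 1 := by simp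
  rw [this]
  rfl

/-- Induction for relations between functions on lists and elements of another module. -/
theorem theta_rel {M : Type*} [AddCommGroup M] (α : X → A) (φ : FA X →+* AddMonoid.End M)
    (R : (List (X × A) → A) → M → Prop)
    (hz : ∀ (r : ℤ) F m, R F m → R (r • F) (r • m))
    (ha : ∀ F m F' m', R F m → R F' m' → R (F + F') (m + m'))
    (hs : ∀ y F m, R F m → R (stp α y F) (φ (FA.of y) m)) (P : FA X) :
    ∀ F m, R F m → R (theta α P F) (φ P m) := by
  induction P using FA.induction with
  | h0 r =>
    intro F m h
    rw [theta_int, map_intCast]
    have : ((r : ℤ) : AddMonoid.End M) = r • 1 := by simp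
    rw [this]
    exact hz r F m h
  | h1 y => intro F m h; rw [theta_of]; exact hs y F m h
  | hm u v hu hv =>
    intro F m h
    rw [theta_mul, map_mul]
    exact hu _ _ (hv _ _ h)
  | ha u v hu hv =>
    intro F m h
    rw [theta_add, map_add]
    exact ha _ _ _ _ (hu _ _ h) (hv _ _ h)

end auto

end Pool.PI34.SS
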