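import Pool.Agent.LibPI34.S2_Kap
import Pool.Agent.LibPI34.S2_Exp

/-!
PI34, block S2, file 4: THEOREM S up to a constant which depends only on `k` and `Q`, for rings
without torsion prime to `Q`.
-/

set_option autoImplicit false
set_option linter.unusedSectionVars false

namespace Pool.PI34.SS

open Equiv Finset
open Pool.PI34.BA

section fin

variable {ι Φ U : Type} [Fintype ι] [DecidableEq ι] [Ring Φ] [Ring U] {z : ι}
variable (S : SupStr ι Φ U z) {b : ℕ} {Y : Type} [DecidableEq Y]

/-- The full multilinear component kills `ω`. -/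
theorem full (k : ℕ) (hA : Anti S.f k) (p q : Fin k ↪ ι) (hF : Frame p q z) (c : Fin b → Y)
    (u : Y → Φ) (v : Fin b → Φ) (hu : ∀ y, u y ∈ S.ev) (hv : ∀ s, v s ∈ S.od)
    (P : FA Y) (hP : P ∈ QQ k Y) :
    (∑ τ : Perm (Fin b), GG (fun y => S.ρ z (u y)) P
      (List.ofFn (fun i => (c (τ i), S.ρ z (v (τ i)))))) *
        (anti S.f (univ.map p) * anti S.f (univ.map q)) = 0 := by
  have h1 := R0' S (fun _ => True) c k hA p q hF u v hu hv P hP (phL (List.finRange b))
    (phL (List.finRange b))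
  have h2 := CL_GG c (fun y => S.ρ z (u y)) (fun s => S.ρ z (v s)) P
  rw [← h2]
  have h3 : (fun y => GT.mk (GT.mk (S.ρ z (u y)) (1 : Lam b)) (1 : Lam b) +
      ∑ s, if c s = y then GT.mk (GT.mk (S.ρ z (v s)) (ge s)) (ge s) else 0) =
      gsub (fun _ => True) c (S.gx (Sum.elim u v) (lab Y b) z) := by
    funext y
    unfold gsub
    rw [if_pos trivial]
    congr 1
    refine Finset.sum_congr rfl (fun s _ => ?_)
    split_ifs
    · change _ = GT.mk (GT.mk (S.τ z (v s)) (ge s)) (ge s)
      rw [S.τ_z _ (hv s)]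
    · rfl
  rw [h3]
  exact h1

/-- The components kill `ω`, up to an integer of the catalyst lemma. -/
theorem comp_main (k N : ℕ) (hN : N = k * k) (hA : Anti S.f k) (p q : Fin k ↪ ι)
    (hF : Frame p q z) (c : Fin b → Y) (u v : Y → Φ) (hu : ∀ y, u y ∈ S.ev)
    (hv : ∀ s, v s ∈ S.od) (P : FA Y) (hP : P ∈ QQ k Y) (n : ℤ)
    (hn : n • (1 : H4.P (Fin b)) ∈ H4.J N c) :
    n • ((Gam (fun y => S.ρ z (u y)) (fun y => S.ρ z (v y)) P).coeff
      ((List.ofFn c : List Y) : Multiset Y) *
        (anti S.f (univ.map p) * anti S.f (univ.map q))) = 0 := by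
  classical
  set om := anti S.f (univ.map p) * anti S.f (univ.map q) with hom
  let al : Y → U := fun y => S.ρ z (u y)
  let D : Finset (Fin b → Y) := univ.image (fun τ : Perm (Fin b) => c ∘ τ)
  let sg : (Fin b → Y) → Perm (Fin b) := fun d => if h : ∃ τ : Perm (Fin b), c ∘ τ = d
    then h.choose else 1
  have hsg : ∀ d ∈ D, c ∘ ⇑(sg d) = d := by
    intro d hd
    obtain ⟨τ, _, hτ⟩ := Finset.mem_image.1 hd
    have h : ∃ τ : Perm (Fin b), c ∘ τ = d := ⟨τ, hτ⟩
    simp only [sg, dif_pos h]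
    exact h.choose_spec
  let φ : Perm (Fin b) → U := fun t => ((Perm.sign t : ℤˣ) : ℤ) •
    ∑ d ∈ D, (GG al P (List.ofFn (fun i => (d i, S.ρ z (v (c (t (sg d i))))))) * om)
  -- restitution
  have hb0 : evP φ (1 : H4.P (Fin b)) = (Gam (fun y => S.ρ z (u y)) (fun y => S.ρ z (v y)) P).coeff
      ((List.ofFn c : List Y) : Multiset Y) * om := by
    rw [← H4.g_one, evP_g, Gam_GG]
    simp only [φ, Perm.sign_one, Units.val_one, one_smul]
    rw [Finset.sum_mul]
    refine Finset.sum_congr rfl (fun d hd => ?_)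
    congr 2
    congr 1
    funext i
    have := congrFun (hsg d hd) i
    simp only [Function.comp_apply] at this
    rw [Perm.one_apply, this]
  -- equal letters
  have hb1 : ∀ (i j : Fin b), i ≠ j → c i = c j → ∀ t : Perm (Fin b),
      φ t + φ (swap i j * t) = 0 := by
    intro i j hij hc t
    simp only [φ]
    have h1 : ∀ x, c ((swap i j * t) x) = c (t x) := by
      intro x
      rw [Perm.mul_apply]
      have := congrFun (H4.swap_resp (col := c) hc) (t x)
      exact this
    simp only [h1]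
    rw [Perm.sign_mul, Perm.sign_swap hij]
    rw [neg_one_mul, Units.val_neg, neg_smul, add_neg_cancel]
  -- the signed sum
  have hb2 : ∀ t : Perm (Fin b), evP φ (H4.g t * H4.Ac c) = 0 := by
    intro t
    unfold H4.Ac
    rw [Finset.mul_sum, map_sum]
    have h1 : ∀ s ∈ univ.filter (fun s : Perm (Fin b) => c ∘ s = c),
        evP φ (H4.g t * ((Perm.sign s : ℤˣ) : ℤ) • H4.g s) = ((Perm.sign t : ℤˣ) : ℤ) •
          ∑ d ∈ D, (GG al P (List.ofFn (fun i => (c ((s * sg d) i),
            S.ρ z (v (c (t ((s * sg d) i))))))) * om) := by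
      intro s hs
      rw [mul_smul_comm, map_zsmul, ← H4.g_mul, evP_g]
      simp only [φ]
      rw [smul_smul, Perm.sign_mul, Units.val_mul]
      have h2 : ((Perm.sign s : ℤˣ) : ℤ) * (((Perm.sign t : ℤˣ) : ℤ) * ((Perm.sign s : ℤˣ) : ℤ)) =
          ((Perm.sign t : ℤˣ) : ℤ) := by
        have := H4.sign_sq s
        calc _ = ((Perm.sign t : ℤˣ) : ℤ) * (((Perm.sign s : ℤˣ) : ℤ) *
              ((Perm.sign s : ℤˣ) : ℤ)) := by ring
          _ = _ := by rw [this, mul_one]
      rw [h2]
      congr 1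
      refine Finset.sum_congr rfl (fun d hd => ?_)
      congr 2
      congr 1
      funext i
      have h3 := congrFun (hsg d hd) i
      have h4 := congrFun (Finset.mem_filter.1 hs).2 (sg d i)
      simp only [Function.comp_apply] at h3 h4
      have h5 : c ((s * sg d) i) = d i := by
        rw [Perm.mul_apply]
        exact h4.trans h3
      rw [h5]
      rfl
    rw [Finset.sum_congr rfl h1, ← Finset.smul_sum]
    have h2 : ∑ s ∈ univ.filter (fun s : Perm (Fin b) => c ∘ s = c), ∑ d ∈ D,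
        (GG al P (List.ofFn (fun i => (c ((s * sg d) i), S.ρ z (v (c (t ((s * sg d) i))))))) * om) =
        ∑ τ : Perm (Fin b), (GG al P (List.ofFn (fun i => (c (τ i),
          S.ρ z (v (c (t (τ i))))))) * om) := by
      rw [← Finset.sum_product']
      refine Finset.sum_bij (fun x _ => x.1 * sg x.2) ?_ ?_ ?_ ?_
      · intro x _
        exact mem_univ _
      · intro x hx y hy hxy
        rw [Finset.mem_product, Finset.mem_filter] at hx hy
        have h3 : ∀ x : Perm (Fin b) × (Fin b → Y), c ∘ ⇑x.1 = c → x.2 ∈ D →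
            c ∘ ⇑(x.1 * sg x.2) = x.2 := by
          intro x hx1 hx2
          have h4 : c ∘ ⇑(x.1 * sg x.2) = (c ∘ ⇑x.1) ∘ ⇑(sg x.2) := rfl
          rw [h4, hx1, hsg _ hx2]
        have h5 : x.2 = y.2 := by
          rw [← h3 x hx.1.2 hx.2, ← h3 y hy.1.2 hy.2, hxy]
        have h6 : x.1 = y.1 := by
          rw [h5] at hxy
          exact mul_right_cancel hxy
        exact Prod.ext h6 h5
      · intro τ _
        have hd : c ∘ ⇑τ ∈ D := Finset.mem_image_of_mem _ (mem_univ τ)
        refine ⟨(τ * (sg (c ∘ τ))⁻¹, c ∘ τ), ?_, by simp⟩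
        rw [Finset.mem_product, Finset.mem_filter]
        refine ⟨⟨mem_univ _, ?_⟩, hd⟩
        funext x
        have h3 := congrFun (hsg _ hd) ((sg (c ∘ ⇑τ))⁻¹ x)
        simp only [Function.comp_apply] at h3
        have h4 : sg (c ∘ ⇑τ) ((sg (c ∘ ⇑τ))⁻¹ x) = x := Equiv.apply_symm_apply _ x
        rw [Function.comp_apply, Perm.mul_apply, ← h3, h4]
      · intro x _
        rfl
    rw [h2]
    have h3 := full S k hA p q hF c u (fun s => v (c (t s))) hu (fun s => hv _) P hP
    rw [Finset.sum_mul] at h3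
    rw [h3, smul_zero]
  -- the relations
  have hb3 : ∀ x : H4.P (Fin b), H4.act N (Fin b) x = 0 → evP φ x = 0 := by
    intro x hx
    have h1 : evP φ x = ∑ d ∈ D, evP (fun t : Perm (Fin b) => ((Perm.sign t : ℤˣ) : ℤ) •
      (GG al P (List.ofFn (fun i => (d i, S.ρ z (v (c (t (sg d i))))))) * om)) x := by
      change ∑ t, x.coeff t • φ t = ∑ d ∈ D, ∑ t, x.coeff t • _
      rw [Finset.sum_comm]
      refine Finset.sum_congr rfl (fun t _ => ?_)
      simp only [φ]
      rw [← Finset.smul_sum, ← Finset.smul_sum]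
    rw [h1]
    refine Finset.sum_eq_zero (fun d _ => ?_)
    rw [hN] at hx
    exact kap S k hA p q hF u (fun s => v (c s)) hu (fun s => hv _) P d (sg d) x hx
  have hJ : H4.J N c ≤ (evP φ).ker := by
    unfold H4.J
    rw [AddSubgroup.closure_le]
    rintro x ((⟨i, j, a, hij, hc, rfl⟩ | ⟨a, rfl⟩) | hx)
    · change evP φ ((1 + H4.g (swap i j)) * a) = 0
      refine H4.P_induction (p := fun a => evP φ ((1 + H4.g (swap i j)) * a) = 0) a ?_ ?_ ?_
      · intro t
        rw [add_mul, one_mul, ← H4.g_mul, map_add, evP_g, evP_g]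
        exact hb1 i j hij hc t
      · intro a a' h h'
        rw [mul_add, map_add, h, h', add_zero]
      · intro m a h
        rw [mul_smul_comm, map_zsmul, h, smul_zero]
    · change evP φ (a * H4.Ac c) = 0
      refine H4.P_induction (p := fun a => evP φ (a * H4.Ac c) = 0) a hb2 ?_ ?_
      · intro a a' h h'
        rw [add_mul, map_add, h, h', add_zero]
      · intro m a h
        rw [smul_mul_assoc, map_zsmul, h, smul_zero]
    · exact hb3 x hx
  have h0 := hJ hn
  rw [AddMonoidHom.mem_ker, map_zsmul, hb0] at h0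
  exact h0

theorem aug_smul_eq_zero {Y : Type} (F : AddMonoidAlgebra U (Multiset Y)) (w : U) (n : ℤ)
    (h : ∀ M, n • (F.coeff M * w) = 0) : n • (aug U Y F * w) = 0 := by
  have h1 : n • (aug U Y F * w) = aug U Y (n • F) * w := by
    rw [map_zsmul, smul_mul_assoc]
  rw [h1]
  refine aug_mul_eq_zero _ _ (fun M => ?_)
  rw [AddMonoidAlgebra.coeff_smul_apply, smul_mul_assoc]
  exact h M

end fin

/-- **THEOREM S with a constant**: the identities of the `k × k` matrices over supercommutative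
rings kill `D A_P A_Q` in the rings without torsion prime to `Q`. -/
theorem main' (k Q : ℕ) (hQ : 1 ≤ Q) : ∃ D : ℕ, 0 < D ∧
    ∀ {ι Φ U : Type} [Fintype ι] [DecidableEq ι] [Ring Φ] [Ring U] {z : ι} (S : SupStr ι Φ U z),
      Anti S.f k → ∀ (p q : Fin k ↪ ι), Frame p q z →
      (∀ n : ℕ, Nat.Coprime n Q → ∀ x : U, n • x = 0 → x = 0) →
      ∀ {X : Type} (g : FA X), g ∈ QQ k X → ∀ (r : X → Φ),
        D • (S.ρ z (FA.lift r g) * (anti S.f (univ.map p) * anti S.f (univ.map q))) = 0 := by
  classical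
  obtain ⟨D, hD, hCL⟩ := H4.CL (k * k) Q hQ
  refine ⟨D.toNat, by omega, ?_⟩
  intro ι Φ U _ _ _ _ z S hA p q hF hinv X g hg r
  choose u hu v hv huv using fun x => S.dec (r x)
  have h1 : S.ρ z (FA.lift r g)
      = aug U X (Gam (fun o => S.ρ z (u o)) (fun o => S.ρ z (v o)) g) := by
    refine FA.ext ((S.ρ z).comp (FA.lift r)) ((aug U X).comp
      (Gam (fun o => S.ρ z (u o)) (fun o => S.ρ z (v o)))) (fun x => ?_) g
    rw [RingHom.comp_apply, FA.lift_of, RingHom.comp_apply]
    unfold Gam aug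
    rw [FA.lift_of, map_add, AddMonoidAlgebra.liftNCRingHom_single,
      AddMonoidAlgebra.liftNCRingHom_single, huv x]
    simp
  rw [h1, ← natCast_zsmul, Int.toNat_of_nonneg hD.le]
  refine aug_smul_eq_zero _ _ _ (fun M => ?_)
  obtain ⟨l, rfl⟩ := Quot.exists_rep M
  let c : Fin l.length → X := fun s => l.get s
  obtain ⟨w, hw, hJ⟩ := hCL (Fin l.length) X c
  have h2 := comp_main S k (k * k) rfl hA p q hF c u v hu hv g hg (w * D) hJ
  have h3 : ((List.ofFn c : List X) : Multiset X) = Quot.mk _ l := by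
    have : List.ofFn c = l := List.ofFn_get l
    rw [this]
    rfl
  rw [h3, mul_smul] at h2
  have h4 : Nat.Coprime w.natAbs Q := by
    have := Int.isCoprime_iff_gcd_eq_one.1 hw
    rw [Int.gcd_eq_natAbs, Int.natAbs_natCast] at this
    exact this
  refine hinv w.natAbs h4 _ ?_
  rcases Int.natAbs_eq w with h5 | h5
  · rw [h5, natCast_zsmul] at h2
    exact h2
  · rw [h5, neg_smul, natCast_zsmul, neg_eq_zero] at h2
    exact h2

end Pool.PI34.SS
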