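import Mathlib

/-!
PI34, block SG, file 5: the degenerate affine Hecke algebra in characteristic two (words of residues).
-/

set_option autoImplicit false

namespace Pool.PI34.SG

section frob

variable {H : Type} [Ring H]

theorem two_mul_zero (h2 : (2 : H) = 0) (a : H) : a + a = 0 := by
  rw [← two_mul, h2, zero_mul]

theorem eq_of_add_zero (h2 : (2 : H) = 0) {a b : H} (h : a + b = 0) : a = b := by
  have h1 : a + b + b = b := by rw [h, zero_add]
  rw [add_assoc, two_mul_zero h2, add_zero] at h1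
  exact h1

theorem frob (h2 : (2 : H) = 0) {a b : H} (hab : Commute a b) (r : ℕ) :
    (a + b) ^ (2 ^ r) = a ^ (2 ^ r) + b ^ (2 ^ r) := by
  induction r with
  | zero => simp
  | succ r ih =>
    have hc : Commute (a ^ (2 ^ r)) (b ^ (2 ^ r)) := hab.pow_pow _ _
    rw [pow_succ, pow_mul, ih, pow_mul, pow_mul, sq, sq, sq, mul_add, add_mul, add_mul, hc.eq]
    have := two_mul_zero h2 (b ^ 2 ^ r * a ^ 2 ^ r)
    calc _ = a ^ 2 ^ r * a ^ 2 ^ r + (b ^ 2 ^ r * a ^ 2 ^ r + b ^ 2 ^ r * a ^ 2 ^ r) +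
          b ^ 2 ^ r * b ^ 2 ^ r := by abel
      _ = _ := by rw [this, add_zero]

theorem frob1 (h2 : (2 : H) = 0) (b : H) (r : ℕ) : (1 + b) ^ (2 ^ r) = 1 + b ^ (2 ^ r) := by
  rw [frob h2 (Commute.one_left b), one_pow]

end frob

/-- the relations -/
structure Aff {H : Type} [Ring H] (e r : ℕ) (y s : ℕ → H) : Prop where
  two : (2 : H) = 0
  yy : ∀ a b, Commute (y a) (y b)
  sy : ∀ a, a + 1 < e → s a * y a = y (a + 1) * s a + 1
  sy' : ∀ a, a + 1 < e → s a * y (a + 1) = y a * s a + 1
  sc : ∀ a b, a + 1 < e → b < e → b ≠ a → b ≠ a + 1 → Commute (s a) (y b)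
  hn : ∀ a < e, (y a * (1 + y a)) ^ (2 ^ r) = 0

section words

variable {H : Type} [Ring H] {e r : ℕ} {y s : ℕ → H}

/-- the words `0 .. 0 1` -/
def Ew (r : ℕ) (y : ℕ → H) (a : ℕ) (w : H) : Prop :=
  (∀ b < a, y b ^ (2 ^ r) * w = 0) ∧ (1 + y a) ^ (2 ^ r) * w = 0

theorem Ew.mul {a : ℕ} {w x : H} (hw : Ew r y a w) (hx : ∀ b, Commute (y b) x) :
    Ew r y a (x * w) := by
  refine ⟨fun b hb => ?_, ?_⟩
  · rw [← mul_assoc, ((hx b).pow_left _).eq, mul_assoc, hw.1 b hb, mul_zero]
  · have : Commute ((1 + y a) ^ (2 ^ r)) x := ((Commute.one_left x).add_left (hx a)).pow_left _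
    rw [← mul_assoc, this.eq, mul_assoc, hw.2, mul_zero]

theorem Ew.add {a : ℕ} {w x : H} (hw : Ew r y a w) (hx : Ew r y a x) : Ew r y a (w + x) := by
  refine ⟨fun b hb => ?_, ?_⟩
  · rw [mul_add, hw.1 b hb, hx.1 b hb, add_zero]
  · rw [mul_add, hw.2, hx.2, add_zero]

namespace Aff

variable (A : Aff e r y s)
include A

theorem sum_comm {a : ℕ} (ha : a + 1 < e) : Commute (s a) (y a + y (a + 1)) := by
  unfold Commute SemiconjBy
  rw [mul_add, A.sy a ha, A.sy' a ha, add_mul]
  have := two_mul_zero A.two (1 : H)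
  calc _ = y a * s a + y (a + 1) * s a + (1 + 1) := by abel
    _ = _ := by rw [this, add_zero]

theorem prod_comm {a : ℕ} (ha : a + 1 < e) : Commute (s a) (y a * y (a + 1)) := by
  unfold Commute SemiconjBy
  rw [← mul_assoc, A.sy a ha, add_mul, one_mul, mul_assoc, A.sy' a ha, mul_add, mul_one, ← mul_assoc,
    (A.yy (a + 1) a).eq, add_assoc, two_mul_zero A.two, add_zero]

theorem P_comm {a : ℕ} (ha : a + 1 < e) : Commute (s a) ((1 + y a) * (1 + y (a + 1))) := by
  have : (1 + y a) * (1 + y (a + 1)) = 1 + (y a + y (a + 1)) + y a * y (a + 1) := by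
    rw [mul_add, add_mul, add_mul]
    simp only [one_mul, mul_one]
    abel
  rw [this]
  exact ((Commute.one_right _).add_right (A.sum_comm ha)).add_right (A.prod_comm ha)

theorem y1y (a b : ℕ) : Commute (y a) (1 + y b) := (Commute.one_right _).add_right (A.yy a b)

theorem y1y1 (a b : ℕ) : Commute (1 + y a) (1 + y b) :=
  (Commute.one_left _).add_left (A.y1y a b)

theorem hn' {a : ℕ} (ha : a < e) : y a ^ (2 ^ r) * (1 + y a) ^ (2 ^ r) = 0 := by
  rw [← (A.y1y a a).mul_pow]
  exact A.hn a ha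

/-- pairs of nilpotent words are stable under the transposition -/
theorem pair {a : ℕ} (ha : a + 1 < e) {w : H} (h0 : y a ^ (2 ^ r) * w = 0)
    (h1 : y (a + 1) ^ (2 ^ r) * w = 0) :
    y a ^ (2 ^ r) * (s a * w) = 0 ∧ y (a + 1) ^ (2 ^ r) * (s a * w) = 0 := by
  set p : H := ((1 + y a) * (1 + y (a + 1))) ^ (2 ^ r) with hp
  have hpw : p * w = w := by
    rw [hp, (A.y1y1 a (a + 1)).mul_pow, mul_assoc, frob1 A.two (y (a + 1)), add_mul, one_mul, h1,
      add_zero, frob1 A.two, add_mul, one_mul, h0, add_zero]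
  have hsp : Commute (s a) p := (A.P_comm ha).pow_right _
  have h2 : s a * w = p * (s a * w) := by
    rw [← mul_assoc, ← hsp.eq, mul_assoc, hpw]
  have hp1 : y a ^ (2 ^ r) * p = 0 := by
    rw [hp, (A.y1y1 a (a + 1)).mul_pow, ← mul_assoc, A.hn' (by omega), zero_mul]
  have hp2 : y (a + 1) ^ (2 ^ r) * p = 0 := by
    rw [hp, (A.y1y1 a (a + 1)).eq, (A.y1y1 (a + 1) a).mul_pow, ← mul_assoc, A.hn' ha, zero_mul]
  constructor
  · rw [h2, ← mul_assoc, hp1, zero_mul]
  · rw [h2, ← mul_assoc, hp2, zero_mul]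

/-- **the words `0 .. 0 1`** -/
theorem claimC (R : AddSubgroup H) (hs : ∀ a, a + 1 < e → ∀ u, u + s a * u ∈ R)
    (h2 : 1 < e → ∀ u, y 1 ^ (2 ^ r) * u ∈ R) :
    ∀ a, a + 1 < e → ∀ w, Ew r y (a + 1) w → w ∈ R := by
  intro a
  induction a with
  | zero =>
    intro ha w hw
    have h1 := hw.2
    rw [zero_add, frob1 A.two, add_mul, one_mul] at h1
    rw [eq_of_add_zero A.two h1]
    exact h2 ha w
  | succ a ih =>
    intro ha
    have ih' := ih (by omega)
    -- the intertwiner
    obtain ⟨φ, hφ⟩ : ∃ φ : H, φ = s (a + 1) * (y (a + 1) + y (a + 2)) + 1 := ⟨_, rfl⟩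
    have hφ1 : φ * y (a + 2) = y (a + 1) * φ := by
      rw [hφ, add_mul, one_mul, mul_assoc,
        (((A.yy (a + 1) (a + 2)).add_left (Commute.refl _))).eq, ← mul_assoc,
        A.sy' (a + 1) ha, add_mul, one_mul, mul_add (y (a + 1)), mul_one, mul_assoc]
      have := two_mul_zero A.two (y (a + 2))
      calc _ = y (a + 1) * (s (a + 1) * (y (a + 1) + y (a + 2))) + y (a + 1) +
            (y (a + 2) + y (a + 2)) := by abel
        _ = _ := by rw [this, add_zero]
    have hφ2 : ∀ b, b < a + 1 → Commute φ (y b) := by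
      intro b hb
      rw [hφ]
      exact ((A.sc (a + 1) b ha (by omega) (by omega) (by omega)).mul_left
        ((A.yy _ _).add_left (A.yy _ _))).add_left (Commute.one_left _)
    have hφE : ∀ w, Ew r y (a + 2) w → φ * w ∈ R := by
      intro w hw
      apply ih'
      refine ⟨fun b hb => ?_, ?_⟩
      · rw [← mul_assoc, ((hφ2 b hb).symm.pow_left _).eq, mul_assoc, hw.1 b (by omega), mul_zero]
      · have h3 : SemiconjBy φ (1 + y (a + 2)) (1 + y (a + 1)) := by
          unfold SemiconjBy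
          rw [mul_add, add_mul, hφ1, mul_one, one_mul]
        have h4 := (h3.pow_right (2 ^ r)).eq
        rw [← mul_assoc, ← h4, mul_assoc, hw.2, mul_zero]
    have hstar : ∀ w, Ew r y (a + 2) w → (y (a + 1) + y (a + 2)) * w + w ∈ R := by
      intro w hw
      have h3 := R.add_mem (hφE w hw) (hs (a + 1) ha ((y (a + 1) + y (a + 2)) * w))
      rw [hφ, add_mul, one_mul, mul_assoc] at h3
      have h4 := two_mul_zero A.two (s (a + 1) * ((y (a + 1) + y (a + 2)) * w))
      have h5 : s (a + 1) * ((y (a + 1) + y (a + 2)) * w) + w +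
          ((y (a + 1) + y (a + 2)) * w + s (a + 1) * ((y (a + 1) + y (a + 2)) * w)) =
          (y (a + 1) + y (a + 2)) * w + w + (s (a + 1) * ((y (a + 1) + y (a + 2)) * w) +
            s (a + 1) * ((y (a + 1) + y (a + 2)) * w)) := by abel
      rw [h5, h4, add_zero] at h3
      exact h3
    have ha' : a + 1 < e := by omega
    have hsE : ∀ w, Ew r y (a + 2) w → Ew r y (a + 2) (s a * w) := by
      intro w hw
      have h3 := A.pair ha' (hw.1 a (by omega)) (hw.1 (a + 1) (by omega))
      refine ⟨fun b hb => ?_, ?_⟩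
      · rcases eq_or_ne b a with rfl | hb1
        · exact h3.1
        · rcases eq_or_ne b (a + 1) with rfl | hb2
          · exact h3.2
          · rw [← mul_assoc, ((A.sc a b ha' (by omega) hb1 hb2).symm.pow_left _).eq, mul_assoc,
              hw.1 b hb, mul_zero]
      · have h4 : Commute ((1 + y (a + 2)) ^ (2 ^ r)) (s a) :=
          ((Commute.one_left _).add_left
            (A.sc a (a + 2) ha' ha (by omega) (by omega)).symm).pow_left _
        rw [← mul_assoc, h4.eq, mul_assoc, hw.2, mul_zero]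
    have hstar2 : ∀ w, Ew r y (a + 2) w → (1 + (y (a + 1) + y a)) * w ∈ R := by
      intro w hw
      have h3 := hstar _ (hw.add (hsE w hw))
      -- y (a+2) (1 + s) w
      have h4 : y (a + 2) * (w + s a * w) ∈ R := by
        have h5 := hs a ha' (y (a + 2) * w)
        rw [← mul_assoc, (A.sc a (a + 2) ha' ha (by omega) (by omega)).eq, mul_assoc,
          ← mul_add] at h5
        exact h5
      have h5 := hs a ha' w
      have h6 := hs a ha' (y a * w)
      rw [← mul_assoc, A.sy a ha', add_mul, one_mul, mul_assoc] at h6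
      have h7 := R.add_mem (R.add_mem (R.add_mem h3 h4) h5) h6
      have e1 := two_mul_zero A.two (y (a + 2) * (w + s a * w))
      have e2 := two_mul_zero A.two (w + s a * w)
      have e3 := two_mul_zero A.two (y (a + 1) * (s a * w))
      have h8 : (y (a + 1) + y (a + 2)) * (w + s a * w) + (w + s a * w) +
          y (a + 2) * (w + s a * w) + (w + s a * w) +
          (y a * w + (y (a + 1) * (s a * w) + w)) =
          (1 + (y (a + 1) + y a)) * w + (y (a + 2) * (w + s a * w) + y (a + 2) * (w + s a * w)) +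
            ((w + s a * w) + (w + s a * w)) +
            (y (a + 1) * (s a * w) + y (a + 1) * (s a * w)) := by
        simp only [add_mul, mul_add, one_mul]
        abel
      rw [h8, e1, e2, e3, add_zero, add_zero, add_zero] at h7
      exact h7
    intro w hw
    have hν : ∀ b, Commute (y b) (1 + (y (a + 1) + y a)) := fun b =>
      (Commute.one_right _).add_right ((A.yy _ _).add_right (A.yy _ _))
    have h3 : w = (1 + (y (a + 1) + y a)) ^ (2 ^ r) * w := by
      rw [frob1 A.two, frob A.two (A.yy _ _), add_mul, add_mul, one_mul, hw.1 (a + 1) (by omega),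
        hw.1 a (by omega), add_zero, add_zero]
    have h4 : 2 ^ r = (2 ^ r - 1) + 1 := by
      have := Nat.two_pow_pos r
      omega
    rw [h4, pow_succ', mul_assoc] at h3
    rw [h3]
    exact hstar2 _ (hw.mul fun b => (hν b).pow_right _)

omit A in
/-- the nilpotent words -/
def Ek (r : ℕ) (y : ℕ → H) : ℕ → H
  | 0 => 1
  | k + 1 => (1 + y k) ^ (2 ^ r) * Ek r y k

theorem commute_Ek (k b : ℕ) : Commute (y b) (Ek r y k) := by
  induction k with
  | zero => exact Commute.one_right _
  | succ k ih => exact ((A.y1y b k).pow_right _).mul_right ih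

theorem y_mul_Ek {k b : ℕ} (hk : k ≤ e) (hb : b < k) : y b ^ (2 ^ r) * Ek r y k = 0 := by
  induction k with
  | zero => omega
  | succ k ih =>
    unfold Ek
    rcases eq_or_ne b k with rfl | hne
    · rw [← mul_assoc, A.hn' hk, zero_mul]
    · rw [← mul_assoc, ((A.y1y b k).pow_pow _ _).eq, mul_assoc, ih (by omega) (by omega), mul_zero]

/-- **reduction to the nilpotent words** -/
theorem claimD (R : AddSubgroup H) (hs : ∀ a, a + 1 < e → ∀ u, u + s a * u ∈ R)
    (h1 : 0 < e → ∀ u, y 0 ^ (2 ^ r) * u ∈ R) (h2 : 1 < e → ∀ u, y 1 ^ (2 ^ r) * u ∈ R) (k : ℕ)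
    (hk : k ≤ e) (u : H) : u + Ek r y k * u ∈ R := by
  induction k with
  | zero =>
    unfold Ek
    rw [one_mul, two_mul_zero A.two]
    exact R.zero_mem
  | succ k ih =>
    have h3 := ih (by omega)
    have h4 : y k ^ (2 ^ r) * (Ek r y k * u) ∈ R := by
      rcases k with _ | k
      · exact h1 hk _
      · apply A.claimC R hs h2 k hk
        refine ⟨fun b hb => ?_, ?_⟩
        · rw [← mul_assoc, ← mul_assoc, ((A.yy b (k + 1)).pow_pow _ _).eq, mul_assoc (y (k + 1) ^ _),
            A.y_mul_Ek (by omega) hb, mul_zero, zero_mul]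
        · rw [← mul_assoc, (((A.y1y (k + 1) (k + 1)).pow_pow _ _)).symm.eq, A.hn' hk, zero_mul]
    have h5 := R.add_mem h3 h4
    have h6 : u + Ek r y k * u + y k ^ 2 ^ r * (Ek r y k * u) = u + Ek r y (k + 1) * u := by
      change _ = u + (1 + y k) ^ (2 ^ r) * Ek r y k * u
      rw [frob1 A.two, add_mul, add_mul, one_mul, mul_assoc (y k ^ 2 ^ r)]
      abel
    rw [h6] at h5
    exact h5

end Aff

end words

end Pool.PI34.SG
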