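import Pool.Agent.LibPI34.SG_Abs

/-!
PI34, block SG, file 6: the two formal consequences.
-/

set_option autoImplicit false

namespace Pool.PI34.SG

open Finset

variable {H : Type} [Ring H] {e r : ℕ} {y s : ℕ → H}

namespace Aff

/-- the opposite ring -/
theorem op (A : Aff e r y s) :
    Aff e r (fun a => MulOpposite.op (y a)) (fun a => MulOpposite.op (s a)) where
  two := by
    apply MulOpposite.unop_injective
    exact A.two
  yy a b := by
    apply MulOpposite.unop_injective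
    exact (A.yy b a).eq
  sy a ha := by
    apply MulOpposite.unop_injective
    change y a * s a = s a * y (a + 1) + 1
    rw [A.sy' a ha, add_assoc, two_mul_zero A.two, add_zero]
  sy' a ha := by
    apply MulOpposite.unop_injective
    change y (a + 1) * s a = s a * y a + 1
    rw [A.sy a ha, add_assoc, two_mul_zero A.two, add_zero]
  sc a b ha hb h1 h2 := by
    apply MulOpposite.unop_injective
    exact (A.sc a b ha hb h1 h2).symm.eq
  hn a ha := by
    apply MulOpposite.unop_injective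
    change ((1 + y a) * y a) ^ (2 ^ r) = 0
    rw [((A.y1y a a).eq).symm]
    exact A.hn a ha

/-- **SG1, formal version.** -/
theorem be (A : Aff e r y s) {θ : H} (he : 0 < e) (hθ : θ * θ = θ)
    (hθy : ∀ a < e, Commute θ (y a)) (hθs : ∀ a, a + 1 < e → Commute θ (s a))
    (hss : ∀ a, a + 1 < e → s a * s a = 1) (h0 : y 0 ^ (2 ^ r) * θ = 0)
    (h1 : 1 < e → s 0 * (y 1 ^ (2 ^ r) * θ) = y 1 ^ (2 ^ r) * θ) (hE : Ek r y e * θ = 0) :
    ∃ ρ : ℕ → H, (∀ a, a + 1 < e → s a * ρ a = ρ a) ∧ θ = ∑ a ∈ range (e - 1), ρ a ∧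
      (∀ a, θ * ρ a = ρ a) ∧ (∀ a, ρ a * θ = ρ a) := by
  let R : AddSubgroup H :=
    { carrier := {w | ∃ ρ : ℕ → H, (∀ a, a + 1 < e → s a * ρ a = ρ a) ∧
        θ * w = ∑ a ∈ range (e - 1), ρ a}
      zero_mem' := ⟨fun _ => 0, fun _ _ => mul_zero _, by simp⟩
      add_mem' := by
        rintro x x' ⟨ρ, hρ, hx⟩ ⟨ρ', hρ', hx'⟩
        refine ⟨fun a => ρ a + ρ' a, fun a ha => ?_, ?_⟩
        · rw [mul_add, hρ a ha, hρ' a ha]
        · rw [mul_add, hx, hx', Finset.sum_add_distrib]
      neg_mem' := by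
        rintro x ⟨ρ, hρ, hx⟩
        refine ⟨fun a => -ρ a, fun a ha => ?_, ?_⟩
        · rw [mul_neg, hρ a ha]
        · rw [mul_neg, hx, Finset.sum_neg_distrib] }
  have hone : ∀ (a : ℕ) (x : H), a + 1 < e → s a * (θ * x) = θ * x → x ∈ R := by
    intro a x ha hx
    refine ⟨fun b => if b = a then θ * x else 0, fun b hb => ?_, ?_⟩
    · by_cases hba : b = a
      · simp only [hba, if_true]
        exact hx
      · simp only [hba, if_false, mul_zero]
    · rw [Finset.sum_ite_eq', if_pos (mem_range.2 (by omega))]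
  have hzero : ∀ x : H, θ * x = 0 → x ∈ R := by
    intro x hx
    exact ⟨fun _ => 0, fun _ _ => mul_zero _, by rw [hx]; simp⟩
  have hyθ : ∀ a < e, y a ^ (2 ^ r) * θ = θ * y a ^ (2 ^ r) := fun a ha =>
    ((hθy a ha).pow_right _).symm.eq
  have hs : ∀ a, a + 1 < e → ∀ u, u + s a * u ∈ R := by
    intro a ha u
    apply hone a _ ha
    have h2 : s a * (θ * (u + s a * u)) = θ * (s a * u + (s a * s a) * u) := by
      rw [← mul_assoc, ← (hθs a ha).eq, mul_assoc, mul_add, mul_assoc]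
    rw [h2, hss a ha, one_mul, add_comm]
  have h1' : 0 < e → ∀ u, y 0 ^ (2 ^ r) * u ∈ R := by
    intro _ u
    apply hzero
    rw [← mul_assoc, ← hyθ 0 he, h0, zero_mul]
  have h2' : 1 < e → ∀ u, y 1 ^ (2 ^ r) * u ∈ R := by
    intro he1 u
    apply hone 0 _ he1
    rw [← mul_assoc θ, ← hyθ 1 he1, ← mul_assoc, h1 he1]
  obtain ⟨ρ, hρ, hsum⟩ := A.claimD R hs h1' h2' e le_rfl 1
  have hEθ : θ * Ek r y e = 0 := by
    have : Commute θ (Ek r y e) := by
      have key : ∀ k ≤ e, Commute θ (Ek r y k) := by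
        intro k
        induction k with
        | zero => intro _; exact Commute.one_right _
        | succ k ih =>
          intro hk
          exact (((Commute.one_right _).add_right (hθy k hk)).pow_right _).mul_right
            (ih (by omega))
      exact key e le_rfl
    rw [this.eq, hE]
  rw [mul_one, mul_add, mul_one, hEθ, add_zero] at hsum
  refine ⟨fun a => θ * ρ a * θ, fun a ha => ?_, ?_, fun a => ?_, fun a => ?_⟩
  · change s a * (θ * ρ a * θ) = θ * ρ a * θ
    rw [← mul_assoc, ← mul_assoc, ← (hθs a ha).eq, mul_assoc θ, hρ a ha]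
  · rw [← Finset.sum_mul, ← Finset.mul_sum, ← hsum, hθ, hθ]
  · change θ * (θ * ρ a * θ) = θ * ρ a * θ
    rw [← mul_assoc, ← mul_assoc, hθ]
  · change θ * ρ a * θ * θ = θ * ρ a * θ
    rw [mul_assoc, hθ]

/-- **SG1, formal version, on the other side.** -/
theorem be' (A : Aff e r y s) {θ : H} (he : 0 < e) (hθ : θ * θ = θ)
    (hθy : ∀ a < e, Commute θ (y a)) (hθs : ∀ a, a + 1 < e → Commute θ (s a))
    (hss : ∀ a, a + 1 < e → s a * s a = 1) (h0 : y 0 ^ (2 ^ r) * θ = 0)
    (h1 : 1 < e → (y 1 ^ (2 ^ r) * θ) * s 0 = y 1 ^ (2 ^ r) * θ) (hE : Ek r y e * θ = 0) :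
    ∃ ρ : ℕ → H, (∀ a, a + 1 < e → ρ a * s a = ρ a) ∧ θ = ∑ a ∈ range (e - 1), ρ a ∧
      (∀ a, θ * ρ a = ρ a) ∧ (∀ a, ρ a * θ = ρ a) := by
  have hyθ : ∀ a < e, y a ^ (2 ^ r) * θ = θ * y a ^ (2 ^ r) := fun a ha =>
    ((hθy a ha).pow_right _).symm.eq
  have hEk : ∀ k ≤ e, Ek r (fun a => MulOpposite.op (y a)) k = MulOpposite.op (Ek r y k) := by
    intro k
    induction k with
    | zero => intro _; rfl
    | succ k ih =>
      intro hk
      have h2 : Ek r (fun a => MulOpposite.op (y a)) (k + 1) =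
        (1 + MulOpposite.op (y k)) ^ (2 ^ r) * Ek r (fun a => MulOpposite.op (y a)) k := rfl
      rw [h2, ih (by omega)]
      apply MulOpposite.unop_injective
      change Ek r y k * (1 + y k) ^ (2 ^ r) = (1 + y k) ^ (2 ^ r) * Ek r y k
      exact (((Commute.one_left _).add_left (A.commute_Ek k k)).pow_left _).symm.eq
  have hθE : Commute θ (Ek r y e) := by
    have key : ∀ k ≤ e, Commute θ (Ek r y k) := by
      intro k
      induction k with
      | zero => intro _; exact Commute.one_right _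
      | succ k ih =>
        intro hk
        exact (((Commute.one_right _).add_right (hθy k hk)).pow_right _).mul_right
          (ih (by omega))
    exact key e le_rfl
  obtain ⟨ρ, h2, h3, h4, h5⟩ := A.op.be (θ := MulOpposite.op θ) he
    (by apply MulOpposite.unop_injective; exact hθ)
    (fun a ha => by apply MulOpposite.unop_injective; exact (hθy a ha).symm.eq)
    (fun a ha => by apply MulOpposite.unop_injective; exact (hθs a ha).symm.eq)
    (fun a ha => by apply MulOpposite.unop_injective; exact hss a ha)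
    (by
      apply MulOpposite.unop_injective
      change θ * y 0 ^ (2 ^ r) = 0
      rw [← hyθ 0 he, h0])
    (fun he1 => by
      apply MulOpposite.unop_injective
      change (θ * y 1 ^ (2 ^ r)) * s 0 = θ * y 1 ^ (2 ^ r)
      rw [← hyθ 1 he1]
      exact h1 he1)
    (by
      rw [hEk e le_rfl]
      apply MulOpposite.unop_injective
      change θ * Ek r y e = 0
      rw [hθE.eq, hE])
  refine ⟨fun a => (ρ a).unop, fun a ha => ?_, ?_, fun a => ?_, fun a => ?_⟩
  · have := congrArg MulOpposite.unop (h2 a ha)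
    exact this
  · have := congrArg MulOpposite.unop h3
    rw [MulOpposite.unop_op] at this
    rw [this]
    exact map_sum (MulOpposite.opAddEquiv (α := H)).symm _ _
  · have := congrArg MulOpposite.unop (h5 a)
    exact this
  · have := congrArg MulOpposite.unop (h4 a)
    exact this

/-- **SG2, formal version.** -/
theorem ga (A : Aff 2 r y s) {ε : H} (hss : s 0 * s 0 = 1) (hε : Commute (s 0) ε)
    (h0 : y 0 ^ (2 ^ r) * ε = 0) (h1 : y 1 ^ (2 ^ r) * ε = 0) {τ : H}
    (hτ : τ = y 0 * s 0 * (1 + (y 0 + y 1) * s 0) ^ (2 ^ (r + 1) - 1) * ε) :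
    ε = τ + s 0 * τ * s 0 := by
  obtain ⟨u, hu⟩ : ∃ u : H, u = 1 + (y 0 + y 1) * s 0 := ⟨_, rfl⟩
  have hνs : Commute (s 0) (y 0 + y 1) := A.sum_comm (by norm_num)
  have hus : Commute (s 0) u := by
    rw [hu]
    exact (Commute.one_right _).add_right (hνs.mul_right (Commute.refl _))
  have hW : Commute (s 0) (u ^ (2 ^ (r + 1) - 1)) := hus.pow_right _
  have hsy : y 0 * s 0 + s 0 * y 0 = u := by
    rw [A.sy 0 (by norm_num), hu, zero_add, add_mul]
    abel
  rw [← hu] at hτ
  have h2 : s 0 * τ * s 0 = s 0 * y 0 * (u ^ (2 ^ (r + 1) - 1)) * ε := by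
    calc s 0 * τ * s 0 = s 0 * (y 0 * (s 0 * u ^ (2 ^ (r + 1) - 1))) * (ε * s 0) := by
          rw [hτ]; simp only [mul_assoc]
      _ = s 0 * (y 0 * (u ^ (2 ^ (r + 1) - 1) * s 0)) * (s 0 * ε) := by rw [hW.eq, hε.eq]
      _ = s 0 * y 0 * (u ^ (2 ^ (r + 1) - 1)) * (s 0 * s 0) * ε := by simp only [mul_assoc]
      _ = _ := by rw [hss, mul_one]
  have h3 : τ + s 0 * τ * s 0 = u ^ (2 ^ (r + 1)) * ε := by
    rw [h2, hτ, ← add_mul, ← add_mul, hsy]
    congr 1
    have h4 : 2 ^ (r + 1) = (2 ^ (r + 1) - 1) + 1 := by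
      have := Nat.two_pow_pos (r + 1)
      omega
    conv_rhs => rw [h4, pow_succ']
  have h5 : ((y 0 + y 1) * s 0) ^ (2 ^ (r + 1)) * ε = 0 := by
    have h6 : (s 0 ^ 2) = 1 := by rw [sq, hss]
    have h7 : s 0 ^ (2 ^ (r + 1)) = 1 := by rw [pow_succ', pow_mul, h6, one_pow]
    rw [hνs.symm.mul_pow, h7, mul_one, pow_succ, pow_mul, frob A.two (A.yy 0 1), sq, mul_assoc,
      add_mul (y 0 ^ 2 ^ r) (y 1 ^ 2 ^ r) ε, h0, h1, add_zero, mul_zero]
  rw [h3, hu, frob1 A.two, add_mul, one_mul, h5, add_zero]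

end Aff

end Pool.PI34.SG
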