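import Pool.Agent.LibPI34.SG_JM

/-!
PI34, block SG, file 2: components of highest weight vectors at the last place.
-/

set_option autoImplicit false
set_option linter.unusedSectionVars false
set_option linter.unusedDecidableInType false
set_option linter.unusedFintypeInType false

namespace Pool.PI34.SG

open Equiv Finset Polynomial
open Pool.PI34.H4

variable {N n : ℕ}

/-- The component at the last place. -/
def comp (x : W N (Fin (n + 1))) (t : Fin N) : W N (Fin n) := fun w => x (Fin.snoc w t)

theorem comp_apply (x : W N (Fin (n + 1))) (t : Fin N) (w : Fin n → Fin N) :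
    comp x t w = x (Fin.snoc w t) := rfl

theorem comp_add (x y : W N (Fin (n + 1))) (t : Fin N) : comp (x + y) t = comp x t + comp y t := rfl

theorem comp_sub (x y : W N (Fin (n + 1))) (t : Fin N) : comp (x - y) t = comp x t - comp y t := rfl

theorem comp_zsmul (m : ℤ) (x : W N (Fin (n + 1))) (t : Fin N) :
    comp (m • x) t = m • comp x t := rfl

theorem comp_zero (t : Fin N) : comp (0 : W N (Fin (n + 1))) t = 0 := rfl

theorem comp_ext {x y : W N (Fin (n + 1))} (h : ∀ t, comp x t = comp y t) : x = y := by
  funext w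
  have h1 := congrFun (h (w (Fin.last n))) (fun i => w i.castSucc)
  have h2 : (Fin.snoc (fun i => w i.castSucc) (w (Fin.last n)) : Fin (n + 1) → Fin N) = w := by
    funext i
    refine Fin.lastCases ?_ (fun i => ?_) i
    · simp
    · simp
  rw [comp_apply, comp_apply, h2] at h1
  exact h1

/-- the operators at the components -/
theorem comp_EE (a b : Fin N) (x : W N (Fin (n + 1))) (t : Fin N) :
    comp (EE a b x) t = EE a b (comp x t) + (if t = a then comp x b else 0) := by
  funext w
  rw [comp_apply, EE_apply, Fin.sum_univ_castSucc, Pi.add_apply, EE_apply]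
  congr 1
  · refine Finset.sum_congr rfl (fun i _ => ?_)
    have h1 : (Fin.snoc w t : Fin (n + 1) → Fin N) i.castSucc = w i := by simp
    rw [h1]
    split_ifs
    · rw [comp_apply]
      congr 1
      funext j
      refine Fin.lastCases ?_ (fun j => ?_) j
      · rw [Function.update_of_ne (Fin.castSucc_lt_last i).ne']
        simp
      · rcases eq_or_ne j i with rfl | hj
        · simp
        · rw [Function.update_of_ne (fun h => hj (Fin.castSucc_injective n h))]
          simp [Function.update_of_ne hj]
    · rfl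
  · have h1 : (Fin.snoc w t : Fin (n + 1) → Fin N) (Fin.last n) = t := by simp
    rw [h1]
    split_ifs
    · rw [comp_apply]
      congr 1
      funext j
      refine Fin.lastCases ?_ (fun j => ?_) j
      · simp
      · rw [Function.update_of_ne (Fin.castSucc_lt_last j).ne]
        simp
    · rfl

theorem snoc_comp_via (w : Fin n → Fin N) (t : Fin N) (σ : Perm (Fin n)) :
    (Fin.snoc w t : Fin (n + 1) → Fin N) ∘ ⇑(σ.viaEmbedding Fin.castSuccEmb) =
      Fin.snoc (w ∘ σ) t := by
  funext j
  rw [Function.comp_apply]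
  refine Fin.lastCases ?_ (fun j => ?_) j
  · rw [Perm.viaEmbedding_apply_of_notMem]
    · simp
    · rintro ⟨i, hi⟩
      exact (Fin.castSucc_lt_last i).ne hi
  · have h1 : j.castSucc = Fin.castSuccEmb j := rfl
    rw [h1, Perm.viaEmbedding_apply]
    simp

/-- elements of the first places act on the components -/
theorem comp_act_emb (y : P (Fin n)) (x : W N (Fin (n + 1))) (t : Fin N) :
    comp (act N _ (emb Fin.castSuccEmb y) x) t = act N _ y (comp x t) := by
  refine P_induction (p := fun y => comp (act N _ (emb Fin.castSuccEmb y) x) t =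
    act N _ y (comp x t)) y ?_ ?_ ?_
  · intro σ
    funext w
    rw [comp_apply, emb_g, act_g, act_g, comp_apply, snoc_comp_via]
  · intro a b ha hb
    rw [map_add, act_add, act_add, comp_add, ha, hb]
  · intro m a ha
    rw [emb_zsmul, act_zsmul, act_zsmul, comp_zsmul, ha]

/-- the last Jucys-Murphy element at the components -/
theorem comp_Y (x : W N (Fin (n + 1))) (t : Fin N) :
    comp (act N _ (Y (Fin.last n)) x) t = ∑ a, EE a t (comp x a) := by
  funext w
  rw [comp_apply]
  unfold Y
  rw [act_sum, Finset.sum_apply, Finset.sum_apply]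
  have h0 : univ.filter (fun i => i < Fin.last n) = univ.map Fin.castSuccEmb := by
    ext i
    rw [mem_filter, mem_map]
    constructor
    · rintro ⟨_, hi⟩
      exact ⟨i.castLT hi, mem_univ _, Fin.castSucc_castLT i hi⟩
    · rintro ⟨j, _, rfl⟩
      exact ⟨mem_univ _, Fin.castSucc_lt_last j⟩
  rw [h0, Finset.sum_map]
  simp only [EE_apply]
  rw [Finset.sum_comm]
  refine Finset.sum_congr rfl (fun i _ => ?_)
  rw [Finset.sum_ite_eq, if_pos (mem_univ _), act_g, comp_apply]
  congr 1
  funext j
  rw [Function.comp_apply]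
  have hi : Fin.castSuccEmb i = i.castSucc := rfl
  rw [hi]
  refine Fin.lastCases ?_ (fun j => ?_) j
  · rw [swap_apply_right]
    simp
  · rcases eq_or_ne j i with rfl | hj
    · rw [swap_apply_left]
      simp
    · rw [swap_apply_of_ne_of_ne (fun h => hj (Fin.castSucc_injective n h))
        (Fin.castSucc_lt_last j).ne]
      simp [Function.update_of_ne hj]

theorem cnt_snoc (w : Fin n → Fin N) (t a : Fin N) :
    cnt (Fin.snoc w t : Fin (n + 1) → Fin N) a = cnt w a + (if t = a then 1 else 0) := by
  unfold cnt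
  rw [Finset.card_filter, Finset.card_filter, Fin.sum_univ_castSucc]
  congr 1
  · refine Finset.sum_congr rfl (fun i _ => ?_)
    simp
  · simp

/-- all the components above `t` vanish -/
def Ab (t : Fin N) (x : W N (Fin (n + 1))) : Prop := ∀ b, t < b → comp x b = 0

theorem exists_top' {x : W N (Fin (n + 1))} (h0 : x ≠ 0) : ∃ t, comp x t ≠ 0 ∧ Ab t x := by
  have hne : (univ.filter (fun t : Fin N => comp x t ≠ 0)).Nonempty := by
    by_contra h
    rw [Finset.not_nonempty_iff_eq_empty] at h
    apply h0
    apply comp_ext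
    intro t
    rw [comp_zero]
    by_contra ht
    have : t ∈ univ.filter (fun t : Fin N => comp x t ≠ 0) := mem_filter.2 ⟨mem_univ _, ht⟩
    rw [h] at this
    exact absurd this (Finset.notMem_empty _)
  obtain ⟨t, ht, hmax⟩ := Finset.exists_max_image _ id hne
  refine ⟨t, (mem_filter.1 ht).2, fun b hb => ?_⟩
  by_contra h
  exact absurd (hmax b (mem_filter.2 ⟨mem_univ _, h⟩)) (not_le.2 hb)

theorem Ab.comp_HW {t : Fin N} {x : W N (Fin (n + 1))} (ht : Ab t x) (hx : HW x) :
    HW (comp x t) := by
  intro a b hab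
  have h1 := congrArg (fun y => comp y t) (hx a b hab)
  simp only [comp_EE, comp_zero] at h1
  by_cases h : t = a
  · rw [if_pos h, ht b (by rw [h]; exact hab), add_zero] at h1
    exact h1
  · rw [if_neg h, add_zero] at h1
    exact h1

/-- the value of the last Jucys-Murphy element at the top component -/
theorem Ab.comp_Y_top {t : Fin N} {x : W N (Fin (n + 1))} (ht : Ab t x) (hx : HW x)
    {m : Fin N → ℕ} (hm : HasWt m x) :
    comp (act N _ (Y (Fin.last n)) x) t = ((m t : ℤ) - 1 - (t : ℕ)) • comp x t := by
  rw [comp_Y]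
  have h1 : ∀ a, EE a t (comp x a) = (if a < t then -comp x t else 0) +
      (if a = t then EE t t (comp x t) else 0) := by
    intro a
    rcases lt_trichotomy a t with h | h | h
    · rw [if_pos h, if_neg h.ne, add_zero]
      have h2 : comp (EE a t x) a = comp 0 a := by rw [hx a t h]
      rw [comp_EE, comp_zero, if_pos rfl] at h2
      exact eq_neg_of_add_eq_zero_left h2
    · rw [h, if_neg (lt_irrefl _), if_pos rfl, zero_add]
    · rw [if_neg h.asymm, if_neg h.ne', ht a h, map_zero, add_zero]
  rw [Finset.sum_congr rfl (fun a _ => h1 a), Finset.sum_add_distrib, Finset.sum_ite_eq',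
    if_pos (mem_univ _), ← Finset.sum_filter, Finset.sum_const]
  have h3 : (univ.filter (fun a : Fin N => a < t)).card = (t : ℕ) := by
    rw [← Fin.card_Iio t]
    congr 1
    ext a
    simp
  rw [h3]
  funext w
  rw [Pi.add_apply, H4.EE_self]
  by_cases h0 : comp x t w = 0
  · simp [h0]
  · have h4 := hm _ h0 t
    rw [cnt_snoc, if_pos rfl] at h4
    simp only [Pi.smul_apply, nsmul_eq_mul, Pi.neg_apply, zsmul_eq_mul]
    rw [← h4]
    push_cast
    ring

theorem Ab.comp_Y_above {t : Fin N} {x : W N (Fin (n + 1))} (ht : Ab t x) (hx : HW x) :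
    Ab t (act N _ (Y (Fin.last n)) x) := by
  intro b hb
  rw [comp_Y]
  apply Finset.sum_eq_zero
  intro a _
  rcases le_or_gt a t with h | h
  · have h2 := congrArg (fun y => comp y a) (hx a b (h.trans_lt hb))
    rw [comp_EE, comp_zero, if_pos rfl, ht b hb, add_zero] at h2
    exact h2
  · rw [ht a h, map_zero]

theorem HasWt.act {α : Type} [Fintype α] [DecidableEq α] {m : Fin N → ℕ} {u : W N α}
    (hu : HasWt m u) (y : P α) : HasWt m (act N α y u) := by
  refine P_induction (p := fun y => HasWt m (H4.act N α y u)) y ?_ ?_ ?_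
  · intro σ w hw a
    rw [act_g] at hw
    rw [← hu _ hw a, cnt_comp]
  · intro x y hx hy w hw a
    rw [act_add, Pi.add_apply] at hw
    by_cases h : H4.act N α x u w = 0
    · rw [h, zero_add] at hw
      exact hy w hw a
    · exact hx w h a
  · intro k x hx w hw a
    rw [act_zsmul, Pi.smul_apply] at hw
    exact hx w (fun h => hw (by rw [h, smul_zero])) a

/-- polynomials of the last Jucys-Murphy element at the top component -/
theorem Ab.comp_aeval {t : Fin N} {m : Fin N → ℕ} (q : ℤ[X]) {x : W N (Fin (n + 1))}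
    (ht : Ab t x) (hx : HW x) (hm : HasWt m x) :
    Ab t (act N _ (aeval (Y (Fin.last n)) q) x) ∧
      comp (act N _ (aeval (Y (Fin.last n)) q) x) t = (q.eval ((m t : ℤ) - 1 - (t : ℕ))) •
        comp x t := by
  induction q using Polynomial.induction_on' with
  | add p q hp hq =>
    rw [map_add, act_add, eval_add, add_smul]
    refine ⟨fun b hb => ?_, ?_⟩
    · rw [comp_add, hp.1 b hb, hq.1 b hb, add_zero]
    · rw [comp_add, hp.2, hq.2]
  | monomial k a =>
    have h1 : Ab t (act N _ ((Y (Fin.last n)) ^ k) x) ∧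
        comp (act N _ ((Y (Fin.last n)) ^ k) x) t =
          ((m t : ℤ) - 1 - (t : ℕ)) ^ k • comp x t := by
      induction k with
      | zero => rw [pow_zero, act_one, pow_zero, one_smul]; exact ⟨ht, rfl⟩
      | succ k ih =>
        have hx' : HW (act N _ ((Y (Fin.last n)) ^ k) x) := hx.act _
        have hm' : HasWt m (act N _ ((Y (Fin.last n)) ^ k) x) := HasWt.act hm _
        rw [pow_succ', act_mul]
        refine ⟨ih.1.comp_Y_above hx', ?_⟩
        rw [ih.1.comp_Y_top hx' hm', ih.2, smul_smul, pow_succ']
    rw [aeval_monomial, Algebra.algebraMap_eq_smul_one, smul_mul_assoc, one_mul, act_zsmul,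
      eval_monomial]
    refine ⟨fun b hb => ?_, ?_⟩
    · rw [comp_zsmul, h1.1 b hb, smul_zero]
    · rw [comp_zsmul, h1.2, smul_smul]

theorem comp_wt {t : Fin N} {m : Fin N → ℕ} {x : W N (Fin (n + 1))} (hm : HasWt m x)
    (h0 : comp x t ≠ 0) :
    ∃ m' : Fin N → ℕ, HasWt m' (comp x t) ∧ ∀ a, m a = m' a + (if t = a then 1 else 0) := by
  obtain ⟨w0, hw0⟩ := H4.exists_ne h0
  refine ⟨cnt w0, ?_, fun a => ?_⟩
  · intro w hw a
    have h1 := hm _ hw a
    have h2 := hm _ hw0 a
    rw [cnt_snoc] at h1 h2
    omega
  · rw [← hm _ hw0 a, cnt_snoc]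

/-- A criterion for the vanishing of the action. -/
theorem act_eq_zero {α : Type} [Fintype α] [DecidableEq α] {F F' : P α}
    (hadj : ∀ f h : W N α, ip (act N α F f) h = ip f (act N α F' h))
    (hk : ∀ v : W N α, HW v → OneW v → act N α F' v = 0) : act N α F = 0 := by
  by_contra hne
  have hne' : LinearMap.range (act N α F) ≠ ⊥ := by
    intro h
    exact hne (LinearMap.range_eq_bot.1 h)
  obtain ⟨v, hv, hv0, hv1, hv2⟩ := exists_hw (LinearMap.range (act N α F)) (by
    rintro a b _ ⟨f, rfl⟩
    exact ⟨EE a b f, (EE_act a b F f).symm⟩) hne'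
  obtain ⟨u, rfl⟩ := hv
  apply hv0
  apply ip_self_eq_zero
  rw [hadj, hk _ hv1 hv2, ip_zero_right]

theorem act_eq_zero_of_SA {α : Type} [Fintype α] [DecidableEq α] {F : P α} (hF : SA N F)
    (hk : ∀ v : W N α, HW v → OneW v → act N α F v = 0) : act N α F = 0 :=
  act_eq_zero hF hk

end Pool.PI34.SG
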