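import Pool.Agent.LibPI34.SG_Rel

/-!
PI34, block SG, file 9: the two results.
-/

set_option autoImplicit false
set_option linter.unusedSectionVars false
set_option linter.unusedDecidableInType false
set_option linter.unusedFintypeInType false

namespace Pool.PI34.SG

open Equiv Finset Polynomial
open Pool.PI34.H4

section gen

variable {α β : Type}

theorem commute_emb_swap [DecidableEq β] (ι : α ↪ β) {x y : β} (hx : x ∉ Set.range ι)
    (hy : y ∉ Set.range ι) (z : P α) : Commute (emb ι z) (g (swap x y)) := by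
  refine commute_of_g _ (fun σ => ?_) _
  unfold Commute SemiconjBy
  rw [← g_mul, ← g_mul]
  congr 1
  rw [mul_swap_eq_swap_mul, Perm.viaEmbedding_apply_of_notMem _ _ _ hx,
    Perm.viaEmbedding_apply_of_notMem _ _ _ hy]

theorem commute_Ek' {H : Type} [Ring H] {r : ℕ} {y : ℕ → H} {x : H} (k : ℕ)
    (h : ∀ a < k, Commute (y a) x) : Commute x (Aff.Ek r y k) := by
  induction k with
  | zero => exact Commute.one_right _
  | succ k ih =>
    exact (((Commute.one_right _).add_right (h k (Nat.lt_succ_self k)).symm).pow_right _).mul_right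
      (ih fun a ha => h a (by omega))

theorem SA_sub_one {N : ℕ} [Fintype α] [DecidableEq α] {s : P α} (hs : SA N s) : SA N (s - 1) := by
  intro f h
  rw [act_sub, act_sub, act_one, act_one, sub_eq_add_neg, sub_eq_add_neg,
    ← neg_one_zsmul f, ← neg_one_zsmul h, ip_add_left, ip_add_right, hs, ip_zsmul_left,
    ip_zsmul_right]

end gen

section pl

variable (N n e : ℕ)

/-- the generators -/
noncomputable def yP (a : ℕ) : P (Fin (n + e)) :=
  if h : a < e then Y (Fin.natAdd n ⟨a, h⟩) - ((N : ℤ) - 1) • (1 : P _) else 0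

/-- the generators -/
noncomputable def sP (a : ℕ) : P (Fin (n + e)) :=
  if h : a + 1 < e then g (swap (Fin.natAdd n ⟨a, by omega⟩) (Fin.natAdd n ⟨a + 1, h⟩)) else 0

variable {N n e}

theorem yP_of {a : ℕ} (h : a < e) : yP N n e a = Y (Fin.natAdd n ⟨a, h⟩) - ((N : ℤ) - 1) • (1 : P _) := by
  unfold yP
  rw [dif_pos h]

theorem sP_of {a : ℕ} (h : a + 1 < e) :
    sP n e a = g (swap (Fin.natAdd n ⟨a, by omega⟩) (Fin.natAdd n ⟨a + 1, h⟩)) := by
  unfold sP
  rw [dif_pos h]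

theorem commute_yP_of {x : P (Fin (n + e))} (h : ∀ a : Fin e, Commute (Y (Fin.natAdd n a)) x) (a : ℕ) :
    Commute (yP N n e a) x := by
  unfold yP
  split_ifs with ha
  · exact (h _).sub_left ((Commute.one_left _).smul_left _)
  · exact Commute.zero_left _

theorem yP_comm (a b : ℕ) : Commute (yP N n e a) (yP N n e b) :=
  commute_yP_of (fun _ => (commute_yP_of (fun _ => commute_Y _ _) b).symm) a

theorem natAdd_notMem (a : Fin e) : Fin.natAdd n a ∉ Set.range (Fin.castAddEmb e : Fin n ↪ Fin (n + e)) := by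
  rintro ⟨i, hi⟩
  have h1 := congrArg Fin.val hi
  have h2 : ((Fin.castAddEmb e i : Fin (n + e)) : ℕ) = i := rfl
  have h3 : ((Fin.natAdd n a : Fin (n + e)) : ℕ) = n + a := rfl
  omega

theorem commute_emb_natAdd (a : Fin e) (z : P (Fin n)) :
    Commute (emb (Fin.castAddEmb e) z) (Y (Fin.natAdd n a)) :=
  commute_emb_Y _ _ (fun i => by
    rw [Fin.lt_def]
    have h2 : ((Fin.castAddEmb e i : Fin (n + e)) : ℕ) = i := rfl
    have h3 : ((Fin.natAdd n a : Fin (n + e)) : ℕ) = n + a := rfl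
    omega) z

theorem commute_emb_yP (a : ℕ) (z : P (Fin n)) : Commute (emb (Fin.castAddEmb e) z) (yP N n e a) :=
  (commute_yP_of (fun b => (commute_emb_natAdd b z).symm) a).symm

theorem commute_emb_sP (a : ℕ) (z : P (Fin n)) : Commute (emb (Fin.castAddEmb e) z) (sP n e a) := by
  unfold sP
  split_ifs with h
  · exact commute_emb_swap _ (natAdd_notMem _) (natAdd_notMem _) _
  · exact Commute.zero_right _

/-- the facts about one place -/
theorem place {M : ℕ} (R : Res M) (hM : 2 * (n + e) ≤ M) {q : ℕ} (hq : (rg M).card ≤ q) (k : Fin (n + e)) :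
    (q2 N _ (Y k - ((N : ℤ) - 1) • (1 : P _))) ^ q *
        q2 N _ (aeval (Y k) (R.G (par ((N : ℤ) - 1)))) = 0 ∧
      (1 + q2 N _ (Y k - ((N : ℤ) - 1) • (1 : P _))) ^ q *
        q2 N _ (aeval (Y k) (R.G (!par ((N : ℤ) - 1)))) = 0 ∧
      q2 N _ (aeval (Y k) (R.G (par ((N : ℤ) - 1)))) +
        q2 N _ (aeval (Y k) (R.G (!par ((N : ℤ) - 1)))) = 1 := by
  refine ⟨q2_nil R (lin_Y hM k) hq, ?_, q2_G_add R _ _⟩
  have h1 : (!par ((N : ℤ) - 1)) = par ((N : ℤ) - 1 - 1) := by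
    unfold par
    by_cases h : Even ((N : ℤ) - 1)
    · have h2 : ¬ Even ((N : ℤ) - 1 - 1) := by
        rw [Int.not_even_iff_odd]
        exact h.sub_odd odd_one
      simp [h, h2]
    · have h2 : Even ((N : ℤ) - 1 - 1) := (Int.not_even_iff_odd.1 h).sub_odd odd_one
      simp [h, h2]
  have h2 : 1 + q2 N _ (Y k - ((N : ℤ) - 1) • (1 : P _)) =
      q2 N _ (Y k - ((N : ℤ) - 1 - 1) • (1 : P _)) := by
    have h3 : Y k - ((N : ℤ) - 1 - 1) • (1 : P _) = 1 + (Y k - ((N : ℤ) - 1) • (1 : P _)) := by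
      rw [sub_smul ((N : ℤ) - 1) 1, one_smul]
      abel
    rw [h3, map_add (q2 N _) 1, map_one]
  rw [h1, h2]
  exact q2_nil R (lin_Y hM k) hq

theorem aff {M : ℕ} (R : Res M) (hM : 2 * (n + e) ≤ M) {r : ℕ} (hr : (rg M).card ≤ 2 ^ r) :
    Aff e r (fun a => q2 N _ (yP N n e a)) (fun a => q2 N _ (sP n e a)) where
  two := two_HH
  yy a b := (yP_comm a b).map _
  sy a ha := by
    change q2 N _ (sP n e a) * q2 N _ (yP N n e a) = q2 N _ (yP N n e (a + 1)) * q2 N _ (sP n e a) + 1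
    have h1 : sP n e a * yP N n e a = yP N n e (a + 1) * sP n e a + -1 := by
      rw [sP_of ha, yP_of (by omega), yP_of ha, mul_sub, s_mul_Y _ _ (by simp; omega), sub_mul,
        mul_smul_comm, smul_mul_assoc, mul_one, one_mul]
      abel
    rw [← map_mul, h1, map_add, map_mul, q2_neg, map_one]
  sy' a ha := by
    change q2 N _ (sP n e a) * q2 N _ (yP N n e (a + 1)) = q2 N _ (yP N n e a) * q2 N _ (sP n e a) + 1
    have h1 : sP n e a * yP N n e (a + 1) = yP N n e a * sP n e a + 1 := by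
      rw [sP_of ha, yP_of (by omega), yP_of (by omega), mul_sub, s_mul_Y' _ _ (by simp; omega), sub_mul,
        mul_smul_comm, smul_mul_assoc, mul_one, one_mul]
      abel
    rw [← map_mul, h1, map_add, map_mul, map_one]
  sc a b ha hb h1 h2 := by
    change Commute (q2 N _ (sP n e a)) (q2 N _ (yP N n e b))
    apply Commute.map
    rw [sP_of ha, yP_of hb]
    refine Commute.sub_right ?_ ((Commute.one_right _).smul_right _)
    apply commute_s_Y
    · simp; omega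
    · intro h
      have := congrArg Fin.val h
      simp at this
      omega
    · intro h
      have := congrArg Fin.val h
      simp at this
      omega
  hn a ha := by
    change (q2 N _ (yP N n e a) * (1 + q2 N _ (yP N n e a))) ^ 2 ^ r = 0
    rw [yP_of ha]
    obtain ⟨h0, h1, h2⟩ := place (N := N) R hM hr (Fin.natAdd n ⟨a, ha⟩)
    set y := q2 N _ (Y (Fin.natAdd n (⟨a, ha⟩ : Fin e)) - ((N : ℤ) - 1) • (1 : P _)) with hy
    have hc : Commute y (1 + y) := (Commute.one_right _).add_right (Commute.refl _)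
    have h3 := congrArg (fun x => (1 + y) ^ 2 ^ r * x) h2
    simp only [mul_add, mul_one] at h3
    rw [h1, add_zero] at h3
    rw [hc.mul_pow, ← h3, ← mul_assoc, (hc.pow_pow _ _).eq, mul_assoc, h0, mul_zero]

variable (Z : Cat N n)
include Z

theorem Cat.rel1 {M : ℕ} (R : Res M) (hM : 2 * (n + 1) + N ≤ M) (he : 0 < e) :
    act N _ (aeval (Y (Fin.natAdd n (⟨0, he⟩ : Fin e))) (R.G (!par ((N : ℤ) - 1))) *
      emb (Fin.castAddEmb e) Z.z) = 0 := by
  have h1 := Z.rel1_last R hM (b := !par ((N : ℤ) - 1)) (by cases par ((N : ℤ) - 1) <;> simp)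
  have h2 := act_emb_eq_zero (Fin.castLEEmb (by omega : n + 1 ≤ n + e)) _ h1
  rw [map_mul, emb_aeval, emb_Y _ (fun i => rfl), emb_trans] at h2
  exact h2

theorem Cat.rel2 {M : ℕ} (R : Res M) (hM : 2 * (n + 2) + N ≤ M) (he : 1 < e) :
    act N _ ((sP n e 0 - 1) *
      (aeval (Y (Fin.natAdd n (⟨1, he⟩ : Fin e))) (R.G (!par ((N : ℤ) - 1))) *
      emb (Fin.castAddEmb e) Z.z)) = 0 := by
  have h1 := Z.rel2_last R hM (b := !par ((N : ℤ) - 1)) (by cases par ((N : ℤ) - 1) <;> simp)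
  have h2 := act_emb_eq_zero (Fin.castLEEmb (by omega : n + 1 + 1 ≤ n + e)) _ h1
  rw [map_mul (emb _), map_mul (emb _), map_sub (emb _), map_one (emb _), emb_aeval,
    emb_Y _ (fun i => rfl), emb_trans, emb_trans, emb_g, swap_via] at h2
  rw [sP_of (show 0 + 1 < e from he)]
  exact h2

theorem Cat.rel2' {M : ℕ} (R : Res M) (hM : 2 * (n + 2) + N ≤ M) (he : 1 < e) :
    act N _ (aeval (Y (Fin.natAdd n (⟨1, he⟩ : Fin e))) (R.G (!par ((N : ℤ) - 1))) *
      emb (Fin.castAddEmb e) Z.z * (sP n e 0 - 1)) = 0 := by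
  refine act_adj (fun f h => ?_) (Z.rel2 R hM he)
  have h1 : SA N (sP n e 0) := by
    rw [sP_of (show 0 + 1 < e from he)]
    exact SA_swap _ _
  have h2 : SA N (aeval (Y (Fin.natAdd n (⟨1, he⟩ : Fin e))) (R.G (!par ((N : ℤ) - 1)))) :=
    (SA_Y _).aeval _
  have h3 : Commute (aeval (Y (Fin.natAdd n (⟨1, he⟩ : Fin e))) (R.G (!par ((N : ℤ) - 1))))
      (emb (Fin.castAddEmb e) Z.z) := Commute.aeval_left (commute_emb_natAdd _ _).symm _
  rw [h3.eq, act_mul, SA_sub_one h1, ← h3.eq, act_mul, h2, Z.SA_emb, ← act_mul, ← act_mul, h3.eq]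

/-- the product of the residue elements -/
noncomputable def PG {M : ℕ} (R : Res M) (b : Bool) (n e : ℕ) : ℕ → P (Fin (n + e))
  | 0 => 1
  | k + 1 => (if h : k < e then aeval (Y (Fin.natAdd n ⟨k, h⟩)) (R.G b) else 1) * PG R b n e k

theorem PG_spec {M : ℕ} (R : Res M) (hM : 2 * (n + e) ≤ M) (b : Bool) (k : ℕ) :
    (∀ (p : ℤ[X]) (j : Fin (n + e)), Commute (aeval (Y j) p) (PG R b n e k)) ∧
    (∀ z : P (Fin n), Commute (emb (Fin.castAddEmb e) z) (PG R b n e k)) ∧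
    SA N (PG R b n e k) ∧
    ∀ (a : ℕ) (ha : a < e), a < k → aeval (Y (Fin.natAdd n ⟨a, ha⟩)) (R.G b) * PG R b n e k =
      R.D • PG R b n e k := by
  induction k with
  | zero =>
    refine ⟨fun _ _ => Commute.one_right _, fun _ => Commute.one_right _, SA_one, fun a _ h => ?_⟩
    omega
  | succ k ih =>
    obtain ⟨h1, h2, h3, h4⟩ := ih
    unfold PG
    split_ifs with hk
    · refine ⟨fun p j => (commute_aeval_aeval (commute_Y _ _) _ _).mul_right (h1 p j),
        fun z => (Commute.aeval_left (commute_emb_natAdd _ _).symm _).symm.mul_right (h2 z),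
        ((SA_Y _).aeval _).mul h3 (h1 _ _), fun a ha hak => ?_⟩
      rcases eq_or_ne a k with rfl | hne
      · rw [← mul_assoc, G_sq R hM, smul_mul_assoc]
      · have h5 : Commute (aeval (Y (Fin.natAdd n (⟨a, ha⟩ : Fin e))) (R.G b))
            (aeval (Y (Fin.natAdd n (⟨k, hk⟩ : Fin e))) (R.G b)) :=
          commute_aeval_aeval (commute_Y _ _) _ _
        rw [← mul_assoc, h5.eq, mul_assoc, h4 a ha (by omega), mul_smul_comm]
    · rw [one_mul]
      exact ⟨h1, h2, h3, fun a ha _ => h4 a ha (by omega)⟩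

theorem Cat.PG_zero {M : ℕ} (R : Res M) (hM : 2 * (n + e) + N ≤ M) (he : N < e) :
    act N _ (PG R (par ((N : ℤ) - 1)) n e e * emb (Fin.castAddEmb e) Z.z) = 0 := by
  obtain ⟨h1, h2, h3, h4⟩ := PG_spec (N := N) Z R (by omega) (par ((N : ℤ) - 1)) e (n := n) (e := e)
  apply act_eq_zero_of_SA (h3.mul (Z.SA_emb _ _) (h2 _).symm)
  intro v hv hv1
  by_contra h0
  obtain ⟨w0, hw0, hm⟩ := (hv1.act (PG R (par ((N : ℤ) - 1)) n e e *
    emb (Fin.castAddEmb e) Z.z)).exists_wt h0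
  have h5 := Z.path R e (by omega) h0 (hv.act _) hm (fun a => by
    rw [← act_mul, ← mul_assoc, h4 a a.2 a.2, smul_mul_assoc, act_zsmul]) (by
    rw [← act_mul, ← mul_assoc, (h2 _).eq, mul_assoc, Z.zz_emb, mul_smul_comm, act_zsmul])
  have h6 := (Phi_le (cnt w0)).2.1
  omega

theorem Cat.Ek_zero {M : ℕ} (R : Res M) (hM : 2 * (n + e) + N ≤ M) (he : N < e) {r : ℕ}
    (hr : (rg M).card ≤ 2 ^ r) :
    Aff.Ek r (fun a => q2 N _ (yP N n e a)) e * q2 N _ (emb (Fin.castAddEmb e) Z.z) = 0 := by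
  have key : ∀ k ≤ e, Aff.Ek r (fun a => q2 N _ (yP N n e a)) k =
      Aff.Ek r (fun a => q2 N _ (yP N n e a)) k * q2 N _ (PG R (par ((N : ℤ) - 1)) n e k) := by
    intro k
    induction k with
    | zero =>
      intro _
      unfold Aff.Ek PG
      rw [map_one, mul_one]
    | succ k ih =>
      intro hk
      obtain ⟨g0, g1, g2⟩ := place (N := N) R (by omega) hr (Fin.natAdd n (⟨k, hk⟩ : Fin e))
      have h1 : Aff.Ek r (fun a => q2 N _ (yP N n e a)) (k + 1) =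
        (1 + q2 N _ (yP N n e k)) ^ 2 ^ r * Aff.Ek r (fun a => q2 N _ (yP N n e a)) k := rfl
      have h2 : PG R (par ((N : ℤ) - 1)) n e (k + 1) =
          aeval (Y (Fin.natAdd n (⟨k, hk⟩ : Fin e))) (R.G (par ((N : ℤ) - 1))) *
            PG R (par ((N : ℤ) - 1)) n e k := by
        change (if h : k < e then aeval (Y (Fin.natAdd n ⟨k, h⟩)) (R.G (par ((N : ℤ) - 1))) else 1) *
          PG R (par ((N : ℤ) - 1)) n e k = _
        rw [dif_pos (show k < e from hk)]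
      rw [← yP_of hk] at g1
      set y := q2 N _ (yP N n e k) with hy
      set G0 := q2 N _ (aeval (Y (Fin.natAdd n (⟨k, hk⟩ : Fin e))) (R.G (par ((N : ℤ) - 1)))) with hG0
      have h3 : (1 + y) ^ 2 ^ r = (1 + y) ^ 2 ^ r * G0 := by
        have h4 := congrArg (fun x => (1 + y) ^ 2 ^ r * x) g2
        simp only [mul_add, mul_one] at h4
        rw [g1, add_zero] at h4
        exact h4.symm
      have h5 : Commute G0 (Aff.Ek r (fun a => q2 N _ (yP N n e a)) k) := by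
        apply commute_Ek'
        intro a _
        apply Commute.map
        exact commute_yP_of (fun _ => (Commute.aeval_left (commute_Y _ _) _).symm) a
      rw [h1, h2, map_mul]
      calc (1 + y) ^ 2 ^ r * Aff.Ek r (fun a => q2 N _ (yP N n e a)) k
          = (1 + y) ^ 2 ^ r * G0 * (Aff.Ek r (fun a => q2 N _ (yP N n e a)) k *
              q2 N _ (PG R (par ((N : ℤ) - 1)) n e k)) := by rw [← ih (by omega), ← h3]
        _ = (1 + y) ^ 2 ^ r * (G0 * Aff.Ek r (fun a => q2 N _ (yP N n e a)) k) *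
              q2 N _ (PG R (par ((N : ℤ) - 1)) n e k) := by simp only [mul_assoc]
        _ = _ := by rw [h5.eq]; simp only [mul_assoc]; rfl
  rw [key e le_rfl, mul_assoc, ← map_mul, q2_eq_zero.2 (mem_of_act (Z.PG_zero R hM he)), mul_zero]

/-- **SG1 (be), both sides.** -/
theorem Cat.sg1 (he : N < e) :
    (∃ ρ : ℕ → P (Fin (n + e)),
      emb (Fin.castAddEmb e) Z.z - ∑ a ∈ range (e - 1), ρ a ∈ K2 N _ ∧
      ∀ a, (a + 1 < e → sP n e a * ρ a - ρ a ∈ K2 N _) ∧
        emb (Fin.castAddEmb e) Z.z * ρ a - ρ a ∈ K2 N _ ∧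
        ρ a * emb (Fin.castAddEmb e) Z.z - ρ a ∈ K2 N _) ∧
    (∃ ρ : ℕ → P (Fin (n + e)),
      emb (Fin.castAddEmb e) Z.z - ∑ a ∈ range (e - 1), ρ a ∈ K2 N _ ∧
      ∀ a, (a + 1 < e → ρ a * sP n e a - ρ a ∈ K2 N _) ∧
        emb (Fin.castAddEmb e) Z.z * ρ a - ρ a ∈ K2 N _ ∧
        ρ a * emb (Fin.castAddEmb e) Z.z - ρ a ∈ K2 N _) := by
  obtain ⟨R⟩ := exists_res (2 * (n + e) + N + 2)
  obtain ⟨r, hr⟩ : ∃ r, (rg (2 * (n + e) + N + 2)).card ≤ 2 ^ r := ⟨_, Nat.lt_two_pow_self.le⟩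
  have A := aff (N := N) (n := n) (e := e) R (by omega) hr
  have he0 : 0 < e := by omega
  set θ := q2 N _ (emb (Fin.castAddEmb e) Z.z) with hθ
  have hθθ : θ * θ = θ := by
    rw [hθ, ← map_mul, Z.zz_emb, q2_smul_odd Z.odd]
  have hθy : ∀ a < e, Commute θ (q2 N _ (yP N n e a)) := fun a _ => (commute_emb_yP a _).map _
  have hθs : ∀ a, a + 1 < e → Commute θ (q2 N _ (sP n e a)) := fun a _ => (commute_emb_sP a _).map _
  have hss : ∀ a, a + 1 < e → q2 N _ (sP n e a) * q2 N _ (sP n e a) = 1 := by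
    intro a ha
    rw [← map_mul, sP_of ha, g_swap_sq, map_one]
  have h0 : q2 N _ (yP N n e 0) ^ 2 ^ r * θ = 0 := by
    obtain ⟨g0, -, g2⟩ := place (N := N) R (by omega) hr (Fin.natAdd n (⟨0, he0⟩ : Fin e))
    rw [← yP_of he0] at g0
    have h1 := q2_eq_zero.2 (mem_of_act (Z.rel1 R (by omega) he0))
    rw [map_mul] at h1
    rw [← one_mul θ, ← g2, add_mul, h1, add_zero, ← mul_assoc, g0, zero_mul]
  have hG1 : ∀ he1 : 1 < e, q2 N _ (yP N n e 1) ^ 2 ^ r * θ = q2 N _ (yP N n e 1) ^ 2 ^ r *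
      q2 N _ (aeval (Y (Fin.natAdd n (⟨1, he1⟩ : Fin e))) (R.G (!par ((N : ℤ) - 1))) *
        emb (Fin.castAddEmb e) Z.z) := by
    intro he1
    obtain ⟨g0, -, g2⟩ := place (N := N) R (by omega) hr (Fin.natAdd n (⟨1, he1⟩ : Fin e))
    rw [← yP_of he1] at g0
    rw [map_mul]
    conv_lhs => rw [← one_mul θ, ← g2, add_mul, mul_add, ← mul_assoc, g0, zero_mul, zero_add]
  have hcom : ∀ he1 : 1 < e, Commute (q2 N _ (yP N n e 1) ^ 2 ^ r)
      (q2 N _ (aeval (Y (Fin.natAdd n (⟨1, he1⟩ : Fin e))) (R.G (!par ((N : ℤ) - 1))) *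
        emb (Fin.castAddEmb e) Z.z)) := by
    intro he1
    apply Commute.pow_left
    apply Commute.map
    exact (commute_yP_of (fun _ => (Commute.aeval_left (commute_Y _ _) _).symm) 1).mul_right
      (commute_emb_yP _ _).symm
  have h1 : 1 < e → q2 N _ (sP n e 0) * (q2 N _ (yP N n e 1) ^ 2 ^ r * θ) =
      q2 N _ (yP N n e 1) ^ 2 ^ r * θ := by
    intro he1
    have h2 := q2_eq_zero.2 (mem_of_act (Z.rel2 R (by omega) he1))
    rw [map_mul, map_sub, map_one, sub_mul, one_mul, sub_eq_zero] at h2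
    rw [hG1 he1, (hcom he1).eq, ← mul_assoc, h2]
  have h1' : 1 < e → (q2 N _ (yP N n e 1) ^ 2 ^ r * θ) * q2 N _ (sP n e 0) =
      q2 N _ (yP N n e 1) ^ 2 ^ r * θ := by
    intro he1
    have h2 := q2_eq_zero.2 (mem_of_act (Z.rel2' R (by omega) he1))
    rw [map_mul (q2 N _) _ (sP n e 0 - 1), map_sub, map_one, mul_sub, mul_one, sub_eq_zero] at h2
    rw [hG1 he1, mul_assoc, h2]
  have hE := Z.Ek_zero R (by omega) he hr
  constructor
  · obtain ⟨ρ, r1, r2, r3, r4⟩ := A.be he0 hθθ hθy hθs hss h0 h1 hE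
    choose ρ' hρ' using fun a => Ideal.Quotient.mk_surjective (I := K2 N (Fin (n + e))) (ρ a)
    refine ⟨ρ', ?_, fun a => ⟨fun ha => ?_, ?_, ?_⟩⟩
    · rw [← q2_eq, map_sum, ← hθ, r2]
      exact Finset.sum_congr rfl fun a _ => (hρ' a).symm
    · rw [← q2_eq, map_mul, hρ' a]
      exact r1 a ha
    · rw [← q2_eq, map_mul, hρ' a]
      exact r3 a
    · rw [← q2_eq, map_mul, hρ' a]
      exact r4 a
  · obtain ⟨ρ, r1, r2, r3, r4⟩ := A.be' he0 hθθ hθy hθs hss h0 h1' hE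
    choose ρ' hρ' using fun a => Ideal.Quotient.mk_surjective (I := K2 N (Fin (n + e))) (ρ a)
    refine ⟨ρ', ?_, fun a => ⟨fun ha => ?_, ?_, ?_⟩⟩
    · rw [← q2_eq, map_sum, ← hθ, r2]
      exact Finset.sum_congr rfl fun a _ => (hρ' a).symm
    · rw [← q2_eq, map_mul, hρ' a]
      exact r1 a ha
    · rw [← q2_eq, map_mul, hρ' a]
      exact r3 a
    · rw [← q2_eq, map_mul, hρ' a]
      exact r4 a

/-- **SG2 (ga).** -/
theorem Cat.sg2 :
    ∃ E1 E0 T : P (Fin (n + 2)),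
      (∀ z : P (Fin n), Commute (emb (Fin.castAddEmb 2) z) E1 ∧
        Commute (emb (Fin.castAddEmb 2) z) E0 ∧ Commute (emb (Fin.castAddEmb 2) z) T) ∧
      emb (Fin.castAddEmb 2) Z.z - E1 * emb (Fin.castAddEmb 2) Z.z -
        E0 * emb (Fin.castAddEmb 2) Z.z ∈ K2 N _ ∧
      sP n 2 0 * (E1 * emb (Fin.castAddEmb 2) Z.z) - E1 * emb (Fin.castAddEmb 2) Z.z ∈ K2 N _ ∧
      (E1 * emb (Fin.castAddEmb 2) Z.z) * sP n 2 0 - E1 * emb (Fin.castAddEmb 2) Z.z ∈ K2 N _ ∧
      E0 * emb (Fin.castAddEmb 2) Z.z - T * emb (Fin.castAddEmb 2) Z.z -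
        sP n 2 0 * (T * emb (Fin.castAddEmb 2) Z.z) * sP n 2 0 ∈ K2 N _ := by
  obtain ⟨R⟩ := exists_res (2 * (n + 2) + N + 2)
  obtain ⟨r, hr⟩ : ∃ r, (rg (2 * (n + 2) + N + 2)).card ≤ 2 ^ r := ⟨_, Nat.lt_two_pow_self.le⟩
  have A := aff (N := N) (n := n) (e := 2) R (by omega) hr
  set E1 : P (Fin (n + 2)) := aeval (Y (Fin.natAdd n (1 : Fin 2))) (R.G (!par ((N : ℤ) - 1))) with hE1
  set E0 : P (Fin (n + 2)) := aeval (Y (Fin.natAdd n (1 : Fin 2))) (R.G (par ((N : ℤ) - 1))) with hE0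
  set ζ : P (Fin (n + 2)) := emb (Fin.castAddEmb 2) Z.z with hζ
  set T : P (Fin (n + 2)) := yP N n 2 0 * sP n 2 0 *
    (1 + (yP N n 2 0 + yP N n 2 1) * sP n 2 0) ^ (2 ^ (r + 1) - 1) * E0 with hT
  have hc1 : ∀ z, Commute (emb (Fin.castAddEmb 2) z) E1 := fun z =>
    (Commute.aeval_left (commute_emb_natAdd _ _).symm _).symm
  have hc0 : ∀ z, Commute (emb (Fin.castAddEmb 2) z) E0 := fun z =>
    (Commute.aeval_left (commute_emb_natAdd _ _).symm _).symm
  have hss : q2 N _ (sP n 2 0) * q2 N _ (sP n 2 0) = 1 := by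
    rw [← map_mul, sP_of (by norm_num), g_swap_sq, map_one]
  have hsum : q2 N _ (E1 * ζ) + q2 N _ (E0 * ζ) = q2 N _ ζ := by
    have h2 := q2_G_add (N := N) R (Y (Fin.natAdd n (1 : Fin 2))) (par ((N : ℤ) - 1))
    have h3 : q2 N _ E1 + q2 N _ E0 = 1 := by rw [add_comm (q2 N _ E1)]; exact h2
    rw [map_mul, map_mul, ← add_mul, h3, one_mul]
  have hl : q2 N _ (sP n 2 0) * q2 N _ (E1 * ζ) = q2 N _ (E1 * ζ) := by
    have h2 := q2_eq_zero.2 (mem_of_act (Z.rel2 (e := 2) R (by omega) (by norm_num)))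
    rw [map_mul, map_sub, map_one, sub_mul, one_mul, sub_eq_zero] at h2
    exact h2
  have hrr : q2 N _ (E1 * ζ) * q2 N _ (sP n 2 0) = q2 N _ (E1 * ζ) := by
    have h2 := q2_eq_zero.2 (mem_of_act (Z.rel2' (e := 2) R (by omega) (by norm_num)))
    rw [map_mul (q2 N _) _ (sP n 2 0 - 1), map_sub, map_one, mul_sub, mul_one, sub_eq_zero] at h2
    exact h2
  have hε : Commute (q2 N _ (sP n 2 0)) (q2 N _ (E0 * ζ)) := by
    have h3 : q2 N _ (E0 * ζ) = q2 N _ ζ - q2 N _ (E1 * ζ) := by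
      rw [← hsum]
      abel
    rw [h3]
    refine Commute.sub_right ((commute_emb_sP 0 _).symm.map _) ?_
    exact hl.trans hrr.symm
  have h0 : q2 N _ (yP N n 2 0) ^ 2 ^ r * q2 N _ (E0 * ζ) = 0 := by
    obtain ⟨g0, -, g2⟩ := place (N := N) R (by omega) hr (Fin.natAdd n (0 : Fin 2))
    have e1 : yP N n 2 0 = Y (Fin.natAdd n (0 : Fin 2)) - ((N : ℤ) - 1) • (1 : P _) :=
      yP_of (by norm_num)
    rw [← e1] at g0
    have h1 := q2_eq_zero.2 (mem_of_act (Z.rel1 (e := 2) R (by omega) (by norm_num)))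
    rw [map_mul] at h1
    have h2 : q2 N _ (yP N n 2 0) ^ 2 ^ r * q2 N _ ζ = 0 := by
      rw [← one_mul (q2 N _ ζ), ← g2, add_mul]
      have h3 : q2 N _ (aeval (Y (Fin.natAdd n (0 : Fin 2))) (R.G (!par ((N : ℤ) - 1)))) *
        q2 N _ ζ = 0 := h1
      rw [h3, add_zero, ← mul_assoc, g0, zero_mul]
    rw [← (hc0 Z.z).eq, map_mul, ← mul_assoc, h2, zero_mul]
  have h1 : q2 N _ (yP N n 2 1) ^ 2 ^ r * q2 N _ (E0 * ζ) = 0 := by
    obtain ⟨g0, -, g2⟩ := place (N := N) R (by omega) hr (Fin.natAdd n (1 : Fin 2))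
    have e1 : yP N n 2 1 = Y (Fin.natAdd n (1 : Fin 2)) - ((N : ℤ) - 1) • (1 : P _) :=
      yP_of (by norm_num)
    rw [← e1, ← hE0] at g0
    rw [map_mul, ← mul_assoc, g0, zero_mul]
  have hga := A.ga hss hε h0 h1 rfl
  refine ⟨E1, E0, T, fun z => ⟨hc1 z, hc0 z, ?_⟩, ?_, ?_, ?_, ?_⟩
  · refine (((commute_emb_yP _ _).mul_right (commute_emb_sP _ _)).mul_right
      (Commute.pow_right ?_ _)).mul_right (hc0 z)
    exact (Commute.one_right _).add_right
      (((commute_emb_yP _ _).add_right (commute_emb_yP _ _)).mul_right (commute_emb_sP _ _))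
  · rw [sub_sub, ← q2_eq, map_add, hsum]
  · rw [← q2_eq, map_mul]
    exact hl
  · rw [← q2_eq, map_mul]
    exact hrr
  · rw [sub_sub, ← q2_eq, map_add]
    refine hga.trans ?_
    have h2 : q2 N _ (T * ζ) = q2 N _ (yP N n 2 0) * q2 N _ (sP n 2 0) *
        (1 + (q2 N _ (yP N n 2 0) + q2 N _ (yP N n 2 1)) * q2 N _ (sP n 2 0)) ^ (2 ^ (r + 1) - 1) *
          q2 N _ (E0 * ζ) := by
      rw [hT]
      simp only [map_mul, map_pow, map_add, map_one, mul_assoc]
    rw [map_mul (q2 N _) (sP n 2 0 * (T * ζ)), map_mul (q2 N _) (sP n 2 0), h2]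

end pl

end Pool.PI34.SG
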