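import Pool.Agent.LibPI34.H4_Top3
import Pool.Agent.LibPI34.H4_Tr

/-!
PI34, block SG, file 1: Jucys-Murphy elements.
-/

set_option autoImplicit false
set_option linter.unusedSectionVars false
set_option linter.unusedDecidableInType false
set_option linter.unusedFintypeInType false

namespace Pool.PI34.SG

open Equiv Finset Polynomial
open Pool.PI34.H4

/-- The Jucys-Murphy element of the place `k`. -/
noncomputable def Y {n : ℕ} (k : Fin n) : P (Fin n) :=
  ∑ i ∈ univ.filter (fun i => i < k), g (swap i k)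

theorem commute_g_Y {n : ℕ} (k : Fin n) (σ : Perm (Fin n)) (hk : σ k = k)
    (h : ∀ i, i < k → σ i < k) : Commute (g σ) (Y k) := by
  unfold Commute SemiconjBy Y
  rw [Finset.mul_sum, Finset.sum_mul]
  refine Finset.sum_bij (fun i _ => σ i) ?_ ?_ ?_ ?_
  · intro i hi
    rw [mem_filter] at hi ⊢
    exact ⟨mem_univ _, h i hi.2⟩
  · intro i _ j _ hij
    exact σ.injective hij
  · intro j hj
    have hinj : Set.InjOn σ (univ.filter (fun i => i < k) : Finset (Fin n)) :=
      fun _ _ _ _ h => σ.injective h
    have hmap : Set.MapsTo σ (univ.filter (fun i => i < k) : Finset (Fin n))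
        (univ.filter (fun i => i < k) : Finset (Fin n)) := by
      intro i hi
      have hi' := Finset.mem_coe.1 hi
      rw [mem_filter] at hi'
      exact Finset.mem_coe.2 (mem_filter.2 ⟨mem_univ _, h i hi'.2⟩)
    obtain ⟨i, hi, hij⟩ := Finset.surjOn_of_injOn_of_card_le _ hmap hinj le_rfl
      (Finset.mem_coe.2 hj)
    exact ⟨i, Finset.mem_coe.1 hi, hij⟩
  · intro i _
    rw [← g_mul, ← g_mul, mul_swap_eq_swap_mul, hk]

theorem commute_Y {n : ℕ} (j k : Fin n) : Commute (Y j) (Y k) := by
  have key : ∀ j k : Fin n, j < k → Commute (Y j) (Y k) := by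
    intro j k hjk
    unfold Y
    refine Commute.sum_left _ _ _ (fun i hi => ?_)
    rw [mem_filter] at hi
    apply commute_g_Y
    · exact swap_apply_of_ne_of_ne (hi.2.trans hjk).ne' hjk.ne'
    · intro l hl
      rcases eq_or_ne l i with rfl | h1
      · rw [swap_apply_left]; exact hjk
      · rcases eq_or_ne l j with rfl | h2
        · rw [swap_apply_right]; exact hi.2.trans hjk
        · rw [swap_apply_of_ne_of_ne h1 h2]; exact hl
  rcases lt_trichotomy j k with h | h | h
  · exact key j k h
  · rw [h]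
  · exact (key k j h).symm

theorem SA_Y {N n : ℕ} (k : Fin n) : SA N (Y k) :=
  SA.sum _ _ (fun _ _ => SA_swap _ _)

/-- the transposition of two adjacent places commutes with the other elements -/
theorem commute_s_Y {n : ℕ} (k k' j : Fin n) (hk : (k' : ℕ) = k + 1) (h1 : j ≠ k) (h2 : j ≠ k') :
    Commute (g (swap k k')) (Y j) := by
  apply commute_g_Y
  · exact swap_apply_of_ne_of_ne h1 h2
  · intro i hi
    have h1' : (j : ℕ) ≠ k := fun h => h1 (Fin.ext h)
    have h2' : (j : ℕ) ≠ k' := fun h => h2 (Fin.ext h)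
    rcases eq_or_ne i k with rfl | h3
    · rw [swap_apply_left, Fin.lt_def]
      rw [Fin.lt_def] at hi
      omega
    · rcases eq_or_ne i k' with rfl | h4
      · rw [swap_apply_right, Fin.lt_def]
        rw [Fin.lt_def] at hi
        omega
      · rw [swap_apply_of_ne_of_ne h3 h4]; exact hi

theorem g_swap_sq {n : ℕ} (i j : Fin n) : g (swap i j) * g (swap i j) = (1 : P (Fin n)) := by
  rw [← g_mul, swap_mul_self, g_one]

/-- the main relation -/
theorem s_mul_Y {n : ℕ} (k k' : Fin n) (hk : (k' : ℕ) = k + 1) :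
    g (swap k k') * Y k = Y k' * g (swap k k') - 1 := by
  have h1 : Y k' = (∑ i ∈ univ.filter (fun i => i < k), g (swap i k')) + g (swap k k') := by
    unfold Y
    have : univ.filter (fun i => i < k') = insert k (univ.filter (fun i => i < k)) := by
      ext i
      rw [mem_insert, mem_filter, mem_filter, Fin.lt_def, Fin.lt_def, Fin.ext_iff]
      simp only [mem_univ, true_and]
      omega
    rw [this, Finset.sum_insert (by simp), add_comm]
  rw [h1, add_mul, g_swap_sq, add_sub_cancel_right, Y, Finset.mul_sum, Finset.sum_mul]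
  apply Finset.sum_congr rfl
  intro i hi
  rw [mem_filter, Fin.lt_def] at hi
  rw [← g_mul, ← g_mul, mul_swap_eq_swap_mul, swap_apply_left,
    swap_apply_of_ne_of_ne (fun h => by rw [h] at hi; omega)
      (fun h => by rw [h] at hi; omega)]

theorem s_mul_Y' {n : ℕ} (k k' : Fin n) (hk : (k' : ℕ) = k + 1) :
    g (swap k k') * Y k' = Y k * g (swap k k') + 1 := by
  have h1 := s_mul_Y k k' hk
  have h2 : Y k * g (swap k k') = g (swap k k') * (g (swap k k') * Y k) * g (swap k k') := by
    rw [← mul_assoc, g_swap_sq, one_mul]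
  rw [h2, h1]
  have h3 : g (swap k k') * (Y k' * g (swap k k') - 1) * g (swap k k') =
      g (swap k k') * Y k' * (g (swap k k') * g (swap k k')) -
        g (swap k k') * g (swap k k') := by
    simp only [mul_sub, sub_mul, mul_assoc, mul_one]
  rw [h3, g_swap_sq, mul_one]
  abel

/-- elements of the first places commute with the later elements -/
theorem commute_emb_Y {n n' : ℕ} (ι : Fin n ↪ Fin n') (k : Fin n')
    (h : ∀ i, ι i < k) (y : P (Fin n)) : Commute (emb ι y) (Y k) := by
  refine commute_of_g ι (fun σ => ?_) y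
  apply commute_g_Y
  · apply Perm.viaEmbedding_apply_of_notMem
    rintro ⟨i, hi⟩
    exact (h i).ne hi
  · intro i hi
    by_cases hr : i ∈ Set.range ι
    · obtain ⟨j, rfl⟩ := hr
      rw [Perm.viaEmbedding_apply]
      exact h _
    · rw [Perm.viaEmbedding_apply_of_notMem _ _ _ hr]
      exact hi

theorem emb_Y {n n' : ℕ} (ι : Fin n ↪ Fin n') (hι : ∀ i, ((ι i : Fin n') : ℕ) = i) (k : Fin n) :
    emb ι (Y k) = Y (ι k) := by
  unfold Y
  rw [map_sum]
  refine Finset.sum_bij (fun i _ => ι i) ?_ ?_ ?_ ?_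
  · intro i hi
    rw [mem_filter, Fin.lt_def] at hi ⊢
    rw [hι, hι]
    exact ⟨mem_univ _, hi.2⟩
  · intro i _ j _ h
    exact ι.injective h
  · intro j hj
    rw [mem_filter, Fin.lt_def, hι] at hj
    refine ⟨⟨j, hj.2.trans k.2⟩, ?_, ?_⟩
    · rw [mem_filter, Fin.lt_def]
      exact ⟨mem_univ _, hj.2⟩
    · apply Fin.ext
      rw [hι]
  · intro i _
    rw [emb_g, swap_via]

end Pool.PI34.SG
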