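import Pool.Agent.LibPI34.SG_Cat
import Pool.Agent.LibPI34.SG_Abs2

/-!
PI34, block SG, file 7: the quotient modulo two and the kernel of the words.
-/

set_option autoImplicit false
set_option linter.unusedSectionVars false
set_option linter.unusedDecidableInType false
set_option linter.unusedFintypeInType false

namespace Pool.PI34.SG

open Equiv Finset Polynomial
open Pool.PI34.H4

/-- The elements which are zero modulo `2` and modulo the elements which kill the words. -/
def K2 (N : ℕ) (α : Type) [Fintype α] [DecidableEq α] : Ideal (P α) where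
  carrier := {x | ∃ y : P α, act N α x = act N α (2 * y)}
  zero_mem' := ⟨0, by rw [mul_zero]⟩
  add_mem' := by
    rintro x x' ⟨y, hy⟩ ⟨y', hy'⟩
    exact ⟨y + y', by rw [map_add, hy, hy', mul_add, map_add]⟩
  smul_mem' := by
    rintro c x ⟨y, hy⟩
    refine ⟨c * y, ?_⟩
    rw [smul_eq_mul, map_mul, hy, map_mul, map_mul, map_mul, ← mul_assoc, ← mul_assoc]
    congr 1
    rw [← map_mul, ← map_mul, mul_two, two_mul]

section

variable {N : ℕ} {α β : Type} [Fintype α] [DecidableEq α] [Fintype β] [DecidableEq β]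

theorem mem_K2 {x : P α} : x ∈ K2 N α ↔ ∃ y : P α, act N α x = act N α (2 * y) := Iff.rfl

instance : (K2 N α).IsTwoSided := ⟨by
  rintro x b ⟨y, hy⟩
  exact ⟨y * b, by rw [map_mul, hy, ← map_mul, mul_assoc]⟩⟩

theorem mem_of_act {x : P α} (h : act N α x = 0) : x ∈ K2 N α := ⟨0, by rw [h, mul_zero, map_zero]⟩

theorem two_mem : (2 : P α) ∈ K2 N α := ⟨1, by rw [mul_one]⟩

theorem emb_mem (ι : α ↪ β) {x : P α} (hx : x ∈ K2 N α) : emb ι x ∈ K2 N β := by
  obtain ⟨y, hy⟩ := hx
  refine ⟨emb ι y, ?_⟩
  have h1 : act N α (x - 2 * y) = 0 := by rw [map_sub, hy, sub_self]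
  have h2 := act_emb_eq_zero ι _ h1
  rw [map_sub, map_mul, map_ofNat, map_sub, sub_eq_zero] at h2
  exact h2

variable (N α) in
/-- the quotient -/
abbrev HH : Type := P α ⧸ K2 N α

variable (N α) in
/-- the quotient map -/
noncomputable abbrev q2 : P α →+* HH N α := Ideal.Quotient.mk (K2 N α)

theorem q2_eq_zero {x : P α} : q2 N α x = 0 ↔ x ∈ K2 N α := Ideal.Quotient.eq_zero_iff_mem

theorem q2_eq {x y : P α} : q2 N α x = q2 N α y ↔ x - y ∈ K2 N α := by
  rw [← q2_eq_zero, map_sub, sub_eq_zero]

theorem two_HH : (2 : HH N α) = 0 := by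
  have := q2_eq_zero.2 (two_mem (N := N) (α := α))
  rwa [map_ofNat] at this

theorem q2_smul_even {c : ℤ} (hc : Even c) (x : P α) : q2 N α (c • x) = 0 := by
  obtain ⟨d, rfl⟩ := hc
  rw [map_zsmul, add_smul, ← two_mul, two_HH, zero_mul]

theorem q2_smul_odd {c : ℤ} (hc : Odd c) (x : P α) : q2 N α (c • x) = q2 N α x := by
  obtain ⟨d, rfl⟩ := hc
  rw [add_smul, one_smul, map_add, q2_smul_even (even_two_mul d), zero_add]

theorem q2_neg (x : P α) : q2 N α (-x) = q2 N α x := by
  have h1 := two_mul_zero (two_HH (N := N) (α := α)) (q2 N α x)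
  rw [map_neg]
  exact (eq_neg_of_add_eq_zero_left h1).symm

theorem par_eq {a b : ℤ} : par a = par b ↔ Even (a - b) := by
  unfold par
  rw [Int.even_sub]
  by_cases ha : Even a <;> by_cases hb : Even b <;> simp [ha, hb]

/-- products of linear factors of one parity -/
theorem q2_lin (y : P α) {c0 : ℤ} (S : Finset ℤ) (hS : ∀ c ∈ S, par c = par c0) :
    q2 N α (aeval y (lin S)) = (q2 N α (y - c0 • (1 : P α))) ^ S.card := by
  classical
  induction S using Finset.induction_on with
  | empty => simp [lin]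
  | insert c S hc ih =>
    have h4 : lin (insert c S) = (X - C c) * lin S := Finset.prod_insert hc
    have h5 : q2 N α (y - c • (1 : P α)) = q2 N α (y - c0 • (1 : P α)) := by
      rw [q2_eq]
      have h6 : y - c • (1 : P α) - (y - c0 • (1 : P α)) = -((c - c0) • (1 : P α)) := by
        rw [sub_smul]; abel
      rw [h6, ← q2_eq_zero, q2_neg]
      exact q2_smul_even (par_eq.1 (hS c (mem_insert_self _ _))) _
    rw [h4, map_mul, map_mul, ih (fun c hc => hS c (mem_insert_of_mem hc)),
      Finset.card_insert_of_notMem hc, pow_succ', map_sub, aeval_X, aeval_C,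
      Algebra.algebraMap_eq_smul_one, h5]

/-- the two halves -/
theorem lin_split (M : ℕ) {b b' : Bool} (h : b ≠ b') :
    lin (rg M) = lin ((rg M).filter (fun c => par c ≠ b)) *
      lin ((rg M).filter (fun c => par c ≠ b')) := by
  unfold lin
  rw [← Finset.prod_union]
  · congr 1
    ext c
    rw [mem_union, mem_filter, mem_filter]
    constructor
    · intro hc
      by_cases h1 : par c = b
      · exact Or.inr ⟨hc, by rw [h1]; exact h⟩
      · exact Or.inl ⟨hc, h1⟩
    · rintro (hc | hc)
      · exact hc.1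
      · exact hc.1
  · rw [Finset.disjoint_left]
    intro c hc hc'
    rw [mem_filter] at hc hc'
    have h2 := hc.2
    have h3 := hc'.2
    revert h h2 h3
    cases b <;> cases b' <;> cases par c <;> simp

/-- nilpotence on a residue space -/
theorem q2_nil {M : ℕ} (R : Res M) {y : P α} (hy : aeval y (lin (rg M)) = 0) {c0 : ℤ} {q : ℕ}
    (hq : (rg M).card ≤ q) :
    (q2 N α (y - c0 • (1 : P α))) ^ q * q2 N α (aeval y (R.G (par c0))) = 0 := by
  have hne : (!par c0) ≠ par c0 := by cases par c0 <;> simp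
  have h1 : aeval y (lin ((rg M).filter (fun c => par c ≠ !par c0))) * aeval y (R.G (par c0)) = 0 := by
    obtain ⟨p, hp⟩ := R.dvd (par c0)
    rw [← map_mul, hp, ← mul_assoc, ← lin_split M hne, map_mul, hy, zero_mul]
  have h2 := congrArg (q2 N α) h1
  rw [map_mul, map_zero, q2_lin (c0 := c0)] at h2
  · have h3 : ((rg M).filter (fun c => par c ≠ !par c0)).card ≤ q :=
      (Finset.card_filter_le _ _).trans hq
    rw [← Nat.sub_add_cancel h3, pow_add, mul_assoc, h2, mul_zero]
  · intro c hc
    rw [mem_filter] at hc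
    have h3 := hc.2
    revert h3
    cases par c <;> cases par c0 <;> simp

theorem q2_G_add {M : ℕ} (R : Res M) (y : P α) (b : Bool) :
    q2 N α (aeval y (R.G b)) + q2 N α (aeval y (R.G (!b))) = 1 := by
  rw [← map_add, ← map_add, R.add', aeval_C, Algebra.algebraMap_eq_smul_one, q2_smul_odd R.odd,
    map_one]

/-- the adjoint criterion -/
theorem act_adj {F F' : P α} (hadj : ∀ f h : W N α, ip (act N α F f) h = ip f (act N α F' h))
    (h : act N α F = 0) : act N α F' = 0 := by
  refine LinearMap.ext fun f => ?_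
  rw [LinearMap.zero_apply]
  apply ip_self_eq_zero
  rw [← hadj, h, LinearMap.zero_apply, ip_zero_left]

end

end Pool.PI34.SG
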