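import Pool.Agent.LibPI34.SG_Fin

/-!
PI34, block SG, file 10: the results on sums of sets of places.
-/

set_option autoImplicit false
set_option linter.unusedSectionVars false
set_option linter.unusedDecidableInType false
set_option linter.unusedFintypeInType false

namespace Pool.PI34.SG

open Equiv Finset Polynomial
open Pool.PI34.H4

theorem act_ne_of_tc {N : ℕ} {α : Type} [Fintype α] [DecidableEq α] {z : P α} (h : 0 < tc N z) :
    act N α z ≠ 0 := by
  intro h0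
  have : tc N z = 0 := by
    unfold tc
    rw [h0]
    simp
  rw [this] at h
  exact lt_irrefl _ h

/-- the catalyst in the form of a structure -/
theorem exists_Cat (N : ℕ) : ∃ (n : ℕ) (Z : Cat N n), 0 < tc N Z.z ∧ act N _ Z.z ≠ 0 ∧
    (∀ N', N' + 1 < N → act N' _ Z.z = 0) ∧ (∀ N', N' + 1 = N → act N' _ Z.z ≠ 0) := by
  obtain ⟨n, z, h, h1, h2, h3, h4, h5, h6, h7, h8, h9⟩ := exists_cat N
  exact ⟨n, ⟨z, h, h1, h2, h3, h4, h5, h7⟩, h6, act_ne_of_tc h6, h8, h9⟩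

/-- the identification of the places -/
def ee (n e : ℕ) : Fin (n + e) ↪ Fin n ⊕ Fin e := finSumFinEquiv.symm.toEmbedding

theorem ee_castAdd (n e : ℕ) : (Fin.castAddEmb e).trans (ee n e) = Function.Embedding.inl := by
  ext1 i
  exact finSumFinEquiv_symm_apply_castAdd i

theorem ee_natAdd {n e : ℕ} (a : Fin e) : ee n e (Fin.natAdd n a) = Sum.inr a :=
  finSumFinEquiv_symm_apply_natAdd a

variable {N n : ℕ} (Z : Cat N n)

theorem emb_ee_z {e : ℕ} (z : P (Fin n)) :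
    emb (ee n e) (emb (Fin.castAddEmb e) z) = emb Function.Embedding.inl z := by
  rw [emb_trans, ee_castAdd]

theorem emb_ee_s {e a : ℕ} (h : a + 1 < e) :
    emb (ee n e) (sP n e a) =
      g (swap (Sum.inr (⟨a, by omega⟩ : Fin e)) (Sum.inr (⟨a + 1, h⟩ : Fin e))) := by
  rw [sP_of h, emb_g, swap_via, ee_natAdd, ee_natAdd]

include Z in
/-- **SG1 (be)**, the transpositions on the left. -/
theorem Cat.be_left : ∃ ρ : Fin N → P (Fin n ⊕ Fin (N + 1)),
    emb Function.Embedding.inl Z.z - ∑ a, ρ a ∈ K2 N _ ∧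
    ∀ a, g (swap (Sum.inr a.castSucc) (Sum.inr a.succ)) * ρ a - ρ a ∈ K2 N _ ∧
      emb Function.Embedding.inl Z.z * ρ a - ρ a ∈ K2 N _ ∧
      ρ a * emb Function.Embedding.inl Z.z - ρ a ∈ K2 N _ := by
  obtain ⟨⟨ρ, h1, h2⟩, -⟩ := Z.sg1 (e := N + 1) (Nat.lt_succ_self N)
  refine ⟨fun a => emb (ee n (N + 1)) (ρ a), ?_, fun a => ⟨?_, ?_, ?_⟩⟩
  · have h3 := emb_mem (ee n (N + 1)) h1
    rw [map_sub, emb_ee_z, map_sum, Nat.add_sub_cancel] at h3
    rw [Fin.sum_univ_eq_sum_range (fun a => emb (ee n (N + 1)) (ρ a)) N]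
    exact h3
  · have h3 := emb_mem (ee n (N + 1)) ((h2 a).1 (by omega))
    rw [map_sub, map_mul, emb_ee_s (by omega)] at h3
    exact h3
  · have h3 := emb_mem (ee n (N + 1)) (h2 a).2.1
    rw [map_sub, map_mul, emb_ee_z] at h3
    exact h3
  · have h3 := emb_mem (ee n (N + 1)) (h2 a).2.2
    rw [map_sub, map_mul, emb_ee_z] at h3
    exact h3

include Z in
/-- **SG1 (be)**, the transpositions on the right. -/
theorem Cat.be_right : ∃ ρ : Fin N → P (Fin n ⊕ Fin (N + 1)),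
    emb Function.Embedding.inl Z.z - ∑ a, ρ a ∈ K2 N _ ∧
    ∀ a, ρ a * g (swap (Sum.inr a.castSucc) (Sum.inr a.succ)) - ρ a ∈ K2 N _ ∧
      emb Function.Embedding.inl Z.z * ρ a - ρ a ∈ K2 N _ ∧
      ρ a * emb Function.Embedding.inl Z.z - ρ a ∈ K2 N _ := by
  obtain ⟨-, ρ, h1, h2⟩ := Z.sg1 (e := N + 1) (Nat.lt_succ_self N)
  refine ⟨fun a => emb (ee n (N + 1)) (ρ a), ?_, fun a => ⟨?_, ?_, ?_⟩⟩
  · have h3 := emb_mem (ee n (N + 1)) h1
    rw [map_sub, emb_ee_z, map_sum, Nat.add_sub_cancel] at h3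
    rw [Fin.sum_univ_eq_sum_range (fun a => emb (ee n (N + 1)) (ρ a)) N]
    exact h3
  · have h3 := emb_mem (ee n (N + 1)) ((h2 a).1 (by omega))
    rw [map_sub, map_mul, emb_ee_s (by omega)] at h3
    exact h3
  · have h3 := emb_mem (ee n (N + 1)) (h2 a).2.1
    rw [map_sub, map_mul, emb_ee_z] at h3
    exact h3
  · have h3 := emb_mem (ee n (N + 1)) (h2 a).2.2
    rw [map_sub, map_mul, emb_ee_z] at h3
    exact h3

include Z in
/-- **SG2 (ga)**. -/
theorem Cat.ga' : ∃ E1 E0 T : P (Fin n ⊕ Fin 2),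
    (∀ z : P (Fin n), Commute (emb Function.Embedding.inl z) E1 ∧
      Commute (emb Function.Embedding.inl z) E0 ∧ Commute (emb Function.Embedding.inl z) T) ∧
    emb Function.Embedding.inl Z.z - E1 * emb Function.Embedding.inl Z.z -
      E0 * emb Function.Embedding.inl Z.z ∈ K2 N _ ∧
    g (swap (Sum.inr 0) (Sum.inr 1)) * (E1 * emb Function.Embedding.inl Z.z) -
      E1 * emb Function.Embedding.inl Z.z ∈ K2 N _ ∧
    (E1 * emb Function.Embedding.inl Z.z) * g (swap (Sum.inr 0) (Sum.inr 1)) -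
      E1 * emb Function.Embedding.inl Z.z ∈ K2 N _ ∧
    E0 * emb Function.Embedding.inl Z.z - T * emb Function.Embedding.inl Z.z -
      g (swap (Sum.inr 0) (Sum.inr 1)) * (T * emb Function.Embedding.inl Z.z) *
        g (swap (Sum.inr 0) (Sum.inr 1)) ∈ K2 N _ := by
  obtain ⟨E1, E0, T, h1, h2, h3, h4, h5⟩ := Z.sg2
  have hs : emb (ee n 2) (sP n 2 0) = g (swap (Sum.inr (0 : Fin 2)) (Sum.inr (1 : Fin 2))) :=
    emb_ee_s (by norm_num)
  refine ⟨emb (ee n 2) E1, emb (ee n 2) E0, emb (ee n 2) T, fun z => ⟨?_, ?_, ?_⟩, ?_, ?_, ?_, ?_⟩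
  · rw [← emb_ee_z]
    exact (h1 z).1.map _
  · rw [← emb_ee_z]
    exact (h1 z).2.1.map _
  · rw [← emb_ee_z]
    exact (h1 z).2.2.map _
  · have h6 := emb_mem (ee n 2) h2
    rw [map_sub, map_sub, map_mul, map_mul, emb_ee_z] at h6
    exact h6
  · have h6 := emb_mem (ee n 2) h3
    rw [map_sub, map_mul, map_mul, hs, emb_ee_z] at h6
    exact h6
  · have h6 := emb_mem (ee n 2) h4
    rw [map_sub, map_mul, map_mul, hs, emb_ee_z] at h6
    exact h6
  · have h6 := emb_mem (ee n 2) h5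
    rw [map_sub, map_sub, map_mul (emb _) _ (sP n 2 0), map_mul (emb _) (sP n 2 0), map_mul,
      map_mul, hs, emb_ee_z] at h6
    exact h6

end Pool.PI34.SG
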