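import Pool.Agent.LibPI34.SG_Desc

/-!
PI34, block SG, file 3: the spectrum of the Jucys-Murphy elements, residue polynomials.
-/

set_option autoImplicit false
set_option linter.unusedSectionVars false
set_option linter.unusedDecidableInType false
set_option linter.unusedFintypeInType false

namespace Pool.PI34.SG

open Equiv Finset Polynomial
open Pool.PI34.H4

/-- parity -/
def par (c : ℤ) : Bool := decide (Even c)

/-- the sign of a parity -/
def vv (b : Bool) : ℤ := if b then 1 else -1

theorem par_iff (c : ℤ) : par c = true ↔ Even c := by simp [par]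

/-- product of the linear factors of a finite set -/
noncomputable def lin (S : Finset ℤ) : ℤ[X] := ∏ c ∈ S, (X - C c)

theorem lin_eval (S : Finset ℤ) (c : ℤ) : (lin S).eval c = ∏ d ∈ S, (c - d) := by
  unfold lin
  rw [eval_prod]
  simp

theorem lin_dvd {S T : Finset ℤ} (h : S ⊆ T) : lin S ∣ lin T := Finset.prod_dvd_prod_of_subset _ _ _ h

/-- Bezout up to an odd integer -/
theorem bez (S T : Finset ℤ) (hS : ∀ c ∈ S, Even c) (hT : ∀ c ∈ T, ¬ Even c) :
    ∃ (a b : ℤ[X]) (D : ℤ), Odd D ∧ a * lin S + b * lin T = C D := by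
  classical
  induction S using Finset.induction_on with
  | empty => exact ⟨1, 0, 1, odd_one, by simp [lin]⟩
  | insert c S hc ih =>
    obtain ⟨a, b, D, hD, h⟩ := ih (fun c hc => hS c (mem_insert_of_mem hc))
    have h1 : Odd ((lin T).eval c) := by
      rw [lin_eval]
      refine Finset.prod_induction (fun d => c - d) Odd (fun _ _ => Odd.mul) odd_one ?_
      intro d hd
      have h2 := hS c (mem_insert_self _ _)
      have h3 := Int.not_even_iff_odd.1 (hT d hd)
      exact h2.sub_odd h3
    obtain ⟨q, hq⟩ : (X - C c) ∣ lin T - C ((lin T).eval c) := by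
      rw [dvd_iff_isRoot]
      simp
    refine ⟨-a * q, b * C ((lin T).eval c) + a * lin S, D * (lin T).eval c, hD.mul h1, ?_⟩
    have h4 : lin (insert c S) = (X - C c) * lin S := Finset.prod_insert hc
    rw [h4, C_mul, ← h]
    linear_combination (a * lin S) * hq

/-- the interval of the contents -/
noncomputable def rg (M : ℕ) : Finset ℤ := Finset.Icc (-(M : ℤ)) M

theorem exists_G (M : ℕ) : ∃ (D : ℤ) (G : Bool → ℤ[X]), 0 < D ∧ Odd D ∧
    G true + G false = C D ∧ ∀ b, lin ((rg M).filter (fun c => par c ≠ b)) ∣ G b := by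
  obtain ⟨a, b, D, hD, h⟩ := bez ((rg M).filter (fun c => par c ≠ false))
    ((rg M).filter (fun c => par c ≠ true)) (fun c hc => by
      rw [mem_filter] at hc
      have := hc.2
      rw [Bool.ne_false_iff, par_iff] at this
      exact this) (fun c hc => by
      rw [mem_filter] at hc
      have := hc.2
      rw [ne_eq, par_iff] at this
      exact this)
  rcases lt_or_gt_of_ne (show D ≠ 0 by rintro rfl; exact absurd hD (by decide)) with h0 | h0
  · refine ⟨-D, fun c => if c then -(b * lin ((rg M).filter (fun c => par c ≠ true))) else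
      -(a * lin ((rg M).filter (fun c => par c ≠ false))), by omega, hD.neg, ?_, ?_⟩
    · simp only [if_true, Bool.false_eq_true, if_false]
      rw [C_neg, ← h]
      ring
    · intro c
      cases c
      · simp only [Bool.false_eq_true, if_false]
        exact (dvd_mul_left _ _).neg_right
      · simp only [if_true]
        exact (dvd_mul_left _ _).neg_right
  · refine ⟨D, fun c => if c then (b * lin ((rg M).filter (fun c => par c ≠ true))) else
      (a * lin ((rg M).filter (fun c => par c ≠ false))), h0, hD, ?_, ?_⟩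
    · simp only [if_true, Bool.false_eq_true, if_false]
      rw [← h]
      ring
    · intro c
      cases c
      · simp only [Bool.false_eq_true, if_false]
        exact dvd_mul_left _ _
      · simp only [if_true]
        exact dvd_mul_left _ _

/-- the data of the residue polynomials -/
structure Res (M : ℕ) where
  /-- the odd integer -/
  D : ℤ
  /-- the polynomials -/
  G : Bool → ℤ[X]
  pos : 0 < D
  odd : Odd D
  add : G true + G false = C D
  dvd : ∀ b, lin ((rg M).filter (fun c => par c ≠ b)) ∣ G b

theorem exists_res (M : ℕ) : Nonempty (Res M) := by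
  obtain ⟨D, G, h1, h2, h3, h4⟩ := exists_G M
  exact ⟨⟨D, G, h1, h2, h3, h4⟩⟩

namespace Res

variable {M : ℕ} (R : Res M)

theorem add' (b : Bool) : R.G b + R.G (!b) = C R.D := by
  cases b
  · rw [Bool.not_false, add_comm]; exact R.add
  · exact R.add

theorem eval_ne {b : Bool} {c : ℤ} (hc : c ∈ rg M) (h : par c ≠ b) : (R.G b).eval c = 0 := by
  obtain ⟨q, hq⟩ := R.dvd b
  rw [hq, eval_mul, lin_eval, Finset.prod_eq_zero (i := c)]
  · rw [zero_mul]
  · rw [mem_filter]
    exact ⟨hc, h⟩
  · exact sub_self _

theorem eval_eq {c : ℤ} (hc : c ∈ rg M) : (R.G (par c)).eval c = R.D := by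
  have h1 := R.add' (par c)
  have h2 := congrArg (fun p => eval c p) h1
  simp only [eval_add, eval_C] at h2
  rw [R.eval_ne (b := !par c) hc (by cases par c <;> simp), add_zero] at h2
  exact h2

theorem par_of_eval {b : Bool} {c : ℤ} (hc : c ∈ rg M) (h : (R.G b).eval c = R.D) : par c = b := by
  by_contra hne
  rw [R.eval_ne hc hne] at h
  exact R.pos.ne h

theorem mul_dvd {b b' : Bool} (h : b ≠ b') : lin (rg M) ∣ R.G b * R.G b' := by
  have h1 : lin (rg M) = lin ((rg M).filter (fun c => par c ≠ b)) *
      lin ((rg M).filter (fun c => par c ≠ b')) := by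
    unfold lin
    rw [← Finset.prod_union]
    · congr 1
      ext c
      rw [mem_union, mem_filter, mem_filter]
      constructor
      · intro hc
        by_cases h1 : par c = b
        · exact Or.inr ⟨hc, by rw [h1]; exact h⟩
        · exact Or.inl ⟨hc, h1⟩
      · rintro (hc | hc)
        · exact hc.1
        · exact hc.1
    · rw [Finset.disjoint_left]
      intro c hc hc'
      rw [mem_filter] at hc hc'
      have h2 := hc.2
      have h3 := hc'.2
      revert h h2 h3
      cases b <;> cases b' <;> cases par c <;> simp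
  rw [h1]
  exact mul_dvd_mul (R.dvd b) (R.dvd b')

end Res

variable {N n : ℕ}

/-- products over the letters -/
theorem prod_letters {m : Fin N → ℕ} (t0 : ℕ) (ht0 : t0 ≤ N) : ∀ {x : W N (Fin (n + 1))},
    HW x → HasWt m x → (∀ b : Fin N, t0 ≤ (b : ℕ) → comp x b = 0) →
    act N _ (aeval (Y (Fin.last n)) (∏ t ∈ univ.filter (fun t : Fin N => (t : ℕ) < t0),
      (X - C ((m t : ℤ) - 1 - (t : ℕ))))) x = 0 := by
  induction t0 with
  | zero =>
    intro x _ _ h
    have : x = 0 := comp_ext fun t => by rw [h t (Nat.zero_le _), comp_zero]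
    rw [this, map_zero]
  | succ t0 ih =>
    intro x hx hm h
    let t : Fin N := ⟨t0, ht0⟩
    have hs : univ.filter (fun t : Fin N => (t : ℕ) < t0 + 1) =
        insert t (univ.filter (fun t : Fin N => (t : ℕ) < t0)) := by
      ext b
      rw [mem_insert, mem_filter, mem_filter, Fin.ext_iff]
      simp only [mem_univ, true_and]
      change _ ↔ (b : ℕ) = t0 ∨ _
      omega
    rw [hs, Finset.prod_insert (by simp [t]), mul_comm, map_mul, act_mul]
    have hA : Ab t x := fun b hb => h b (by
      have : t0 < (b : ℕ) := hb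
      omega)
    apply ih (by omega)
    · exact hx.act _
    · exact HasWt.act hm _
    · intro b hb
      rcases hb.lt_or_eq with hb | hb
      · exact (hA.comp_aeval _ hx hm).1 b hb
      · have hbt : b = t := Fin.ext hb.symm
        rw [hbt, (hA.comp_aeval _ hx hm).2]
        simp

theorem sum_wt {α : Type} [Fintype α] [DecidableEq α] {m : Fin N → ℕ} {x : W N α}
    (hm : HasWt m x) (h0 : x ≠ 0) : ∑ t, m t = Fintype.card α := by
  obtain ⟨w, hw⟩ := H4.exists_ne h0
  rw [← sum_cnt w]
  exact Finset.sum_congr rfl (fun t _ => (hm w hw t).symm)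

theorem content_mem {m : Fin N → ℕ} {x : W N (Fin (n + 1))} (hm : HasWt m x) (h0 : x ≠ 0)
    {M : ℕ} (hM : n + 1 + N ≤ M) (t : Fin N) : ((m t : ℤ) - 1 - (t : ℕ)) ∈ rg M := by
  have h1 := sum_wt hm h0
  rw [Fintype.card_fin] at h1
  have h2 : m t ≤ ∑ t, m t := Finset.single_le_sum (fun _ _ => Nat.zero_le _) (mem_univ t)
  have h3 := t.2
  unfold rg
  rw [Finset.mem_Icc]
  constructor <;> omega

theorem act_lin_last {M : ℕ} (hM : n + 1 + N ≤ M) :
    act N _ (aeval (Y (Fin.last n)) (lin (rg M))) = 0 := by
  apply act_eq_zero_of_SA ((SA_Y _).aeval _)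
  intro x hx h1
  by_cases h0 : x = 0
  · rw [h0, map_zero]
  · obtain ⟨w0, hw0, hm⟩ := h1.exists_wt h0
    set m := cnt w0 with hmdef
    have hinj : Function.Injective (fun t : Fin N => ((m t : ℤ) - 1 - (t : ℕ))) := by
      have key : ∀ a b : Fin N, a < b → ((m b : ℤ) - 1 - (b : ℕ)) < ((m a : ℤ) - 1 - (a : ℕ)) := by
        intro a b hab
        have h2 := dominant hx hm h0 hab
        have h3 : (a : ℕ) < b := hab
        have h4 : (m b : ℤ) ≤ m a := by exact_mod_cast h2
        have h5 : ((a : ℕ) : ℤ) < (b : ℕ) := by exact_mod_cast h3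
        linarith
      intro a b hab
      rcases lt_trichotomy a b with h | h | h
      · exact absurd hab (key a b h).ne'
      · exact h
      · exact absurd hab (key b a h).ne
    have h2 := prod_letters (m := m) N le_rfl hx hm (fun b hb => absurd b.2 (not_lt.2 hb))
    have h3 : (∏ t ∈ univ.filter (fun t : Fin N => (t : ℕ) < N),
        (X - C ((m t : ℤ) - 1 - (t : ℕ)))) ∣ lin (rg M) := by
      have h4 : univ.filter (fun t : Fin N => (t : ℕ) < N) = univ :=
        Finset.filter_true_of_mem fun t _ => t.2
      rw [h4]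
      have h5 : ∏ t : Fin N, (X - C ((m t : ℤ) - 1 - (t : ℕ))) =
          lin (univ.image (fun t : Fin N => ((m t : ℤ) - 1 - (t : ℕ)))) := by
        unfold lin
        rw [Finset.prod_image (fun a _ b _ h => hinj h)]
      rw [h5]
      apply lin_dvd
      intro c hc
      obtain ⟨t, _, rfl⟩ := Finset.mem_image.1 hc
      exact content_mem hm h0 hM t
    obtain ⟨q, hq⟩ := h3
    rw [hq, mul_comm, map_mul, act_mul, h2, map_zero]

theorem emb_aeval {α β : Type} (ι : α ↪ β) (y : P α) (q : ℤ[X]) :
    emb ι (aeval y q) = aeval (emb ι y) q := by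
  induction q using Polynomial.induction_on' with
  | add p q hp hq => rw [map_add, map_add, map_add, hp, hq]
  | monomial k a =>
    rw [aeval_monomial, aeval_monomial, map_mul, map_pow]
    congr 1
    rw [Algebra.algebraMap_eq_smul_one, Algebra.algebraMap_eq_smul_one, emb_zsmul, map_one]

theorem act_lin {M : ℕ} (hM : n + N ≤ M) (k : Fin n) :
    act N _ (aeval (Y k) (lin (rg M))) = 0 := by
  have hk : (k : ℕ) + 1 ≤ n := k.2
  have h1 := act_lin_last (N := N) (n := k) (M := M) (by omega)
  have h2 := act_emb_eq_zero (N := N) (Fin.castLEEmb hk) _ h1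
  rw [emb_aeval, emb_Y _ (fun i => rfl)] at h2
  have h3 : (Fin.castLEEmb hk) (Fin.last (k : ℕ)) = k := Fin.ext rfl
  rw [h3] at h2
  exact h2

/-- the action is faithful when there are enough letters -/
theorem act_faithful (n : ℕ) (y : P (Fin n)) (h : act n (Fin n) y = 0) : y = 0 := by
  have key : ∀ (y : P (Fin n)) (τ : Perm (Fin n)),
      act n (Fin n) y (Pi.single id 1) (⇑τ) = ((y.coeff τ⁻¹ : ℤ) : ℚ) := by
    intro y τ
    refine P_induction (p := fun y => act n (Fin n) y (Pi.single id 1) (⇑τ) =
      ((y.coeff τ⁻¹ : ℤ) : ℚ)) y ?_ ?_ ?_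
    · intro σ
      rw [act_g, Pi.single_apply]
      have h1 : ((⇑τ ∘ ⇑σ : Fin n → Fin n) = id) ↔ σ = τ⁻¹ := by
        constructor
        · intro h
          apply eq_inv_of_mul_eq_one_right
          ext i
          exact congrArg Fin.val (congrFun h i)
        · intro h
          rw [h]
          funext i
          simp
      simp only [h1]
      simp [g, MonoidAlgebra.of_apply, MonoidAlgebra.coeff_single, Finsupp.single_apply, eq_comm]
    · intro a b ha hb
      rw [act_add, Pi.add_apply, ha, hb]
      simp
    · intro m a ha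
      rw [act_zsmul, Pi.smul_apply, ha, MonoidAlgebra.coeff_smul, Finsupp.smul_apply]
      simp
  ext τ
  have h1 := key y τ⁻¹
  rw [h] at h1
  simp only [LinearMap.zero_apply, Pi.zero_apply, inv_inv] at h1
  have h2 : y.coeff τ = 0 := by exact_mod_cast h1.symm
  simpa using h2

/-- the minimal polynomial, exactly -/
theorem lin_Y {M : ℕ} (hM : 2 * n ≤ M) (k : Fin n) : aeval (Y k) (lin (rg M)) = 0 :=
  act_faithful n _ (act_lin (by omega) k)

end Pool.PI34.SG
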