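import Pool.Agent.LibPI34.SG_K2

/-!
PI34, block SG, file 8: the relations of the places after a catalyst.
-/

set_option autoImplicit false
set_option linter.unusedSectionVars false
set_option linter.unusedDecidableInType false
set_option linter.unusedFintypeInType false

namespace Pool.PI34.SG

open Equiv Finset Polynomial
open Pool.PI34.H4

section ST

/-- the inversion -/
noncomputable def ST (α : Type) : P α →+ P α :=
  MonoidAlgebra.liftNC (Int.castAddHom (P α)) (fun s => g s⁻¹)

variable {α β : Type}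

theorem ST_g (s : Perm α) : ST α (g s) = g s⁻¹ := by
  unfold ST g
  rw [MonoidAlgebra.of_apply, MonoidAlgebra.liftNC_single]
  simp

theorem ST_zsmul (n : ℤ) (y : P α) : ST α (n • y) = n • ST α y := map_zsmul _ _ _

theorem ip_ST {N : ℕ} [Fintype α] [DecidableEq α] (y : P α) (f h : W N α) :
    ip (act N α y f) h = ip f (act N α (ST α y) h) := by
  refine P_induction (p := fun y => ip (act N α y f) h = ip f (act N α (ST α y) h)) y ?_ ?_ ?_
  · intro σ
    rw [ST_g, act_of, ip_rho, act_of]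
  · intro a b ha hb
    rw [act_add, ip_add_left, ha, hb, map_add, act_add, ip_add_right]
  · intro m a ha
    rw [act_zsmul, ip_zsmul_left, ha, ST_zsmul, act_zsmul, ip_zsmul_right]

theorem ST_emb (ι : α ↪ β) (y : P α) : ST β (emb ι y) = emb ι (ST α y) := by
  refine P_induction (p := fun y => ST β (emb ι y) = emb ι (ST α y)) y ?_ ?_ ?_
  · intro σ
    rw [emb_g, ST_g, ST_g, emb_g]
    rfl
  · intro a b ha hb
    rw [map_add, map_add, map_add, map_add, ha, hb]
  · intro m a ha
    rw [emb_zsmul, ST_zsmul, ST_zsmul, emb_zsmul, ha]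

theorem ST_of_SA {n : ℕ} {y : P (Fin n)} (h : SA n y) : ST _ y = y := by
  have h1 : act n (Fin n) (ST _ y - y) = 0 := by
    refine LinearMap.ext fun f => ?_
    rw [LinearMap.zero_apply]
    apply ip_self_eq_zero
    have h2 : ∀ f' : W n (Fin n), ip f' (act n (Fin n) (ST _ y) f) = ip f' (act n (Fin n) y f) := by
      intro f'
      rw [← ip_ST, h]
    set u := act n (Fin n) (ST _ y - y) f with hu
    have h3 : act n (Fin n) (ST _ y) f = act n (Fin n) y f + u := by
      rw [hu, act_sub, add_sub_cancel]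
    have h4 := h2 u
    rw [h3, ip_add_right] at h4
    linarith
  exact sub_eq_zero.1 (act_faithful n _ h1)

theorem SA_of_ST {N : ℕ} [Fintype α] [DecidableEq α] {y : P α} (h : ST _ y = y) : SA N y := by
  intro f f'
  rw [ip_ST, h]

end ST

/-- the catalysts -/
structure Cat (N n : ℕ) where
  /-- the element -/
  z : P (Fin n)
  /-- the integer -/
  h : ℤ
  pos : 0 < h
  odd : Odd h
  sa : ∀ N', SA N' z
  zz : z * z = h • z
  zp : ZP N 2 z
  com : ∀ (p : ℤ[X]) (k : Fin n), Commute (aeval (Y k) p) z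

section

variable {N n : ℕ}

theorem HasWt.oneW {α : Type} [Fintype α] [DecidableEq α] {m : Fin N → ℕ} {x : W N α}
    (h : HasWt m x) : OneW x := fun w w' hw hw' a => by rw [h w hw a, h w' hw' a]

/-- the weight of the catalyst -/
theorem Cat.wt (Z : Cat N n) {m : Fin N → ℕ} {x : W N (Fin n)} (h0 : x ≠ 0) (hx : HW x)
    (hm : HasWt m x) (hz : act N _ Z.z x = Z.h • x) (a : Fin N) :
    (m a : ℤ) = (N : ℤ) - 1 - (a : ℕ) := by
  obtain ⟨w, hw⟩ := H4.exists_ne h0
  have h1 : act N _ Z.z x w ≠ 0 := by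
    rw [hz, Pi.smul_apply]
    exact smul_ne_zero Z.pos.ne' hw
  have h2 := Z.zp x (hx.act _) (OneW.act (HasWt.oneW hm) _) w h1 a
  rw [← hm w hw a, h2]
  ring

theorem Cat.SA_emb {α : Type} [Fintype α] [DecidableEq α] (Z : Cat N n) (ι : Fin n ↪ α) (N' : ℕ) :
    SA N' (emb ι Z.z) := by
  apply SA_of_ST
  rw [ST_emb, ST_of_SA (Z.sa n)]

theorem Cat.zz_emb {α : Type} (Z : Cat N n) (ι : Fin n ↪ α) :
    emb ι Z.z * emb ι Z.z = Z.h • emb ι Z.z := by
  rw [← map_mul, Z.zz, emb_zsmul]

theorem par_content (t : ℕ) : par ((N : ℤ) - 1 - (t : ℕ) + 1 - 1 - (t : ℕ)) = par ((N : ℤ) - 1) := by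
  rw [par_eq]
  exact ⟨-(t : ℤ), by ring⟩

/-- the place after the catalyst has one parity -/
theorem Cat.rel1_last (Z : Cat N n) {M : ℕ} (R : Res M) (hM : 2 * (n + 1) + N ≤ M) {b : Bool}
    (hb : b ≠ par ((N : ℤ) - 1)) :
    act N _ (aeval (Y (Fin.last n)) (R.G b) * emb Fin.castSuccEmb Z.z) = 0 := by
  have hc : Commute (aeval (Y (Fin.last n)) (R.G b)) (emb Fin.castSuccEmb Z.z) :=
    Commute.aeval_left (commute_emb_Y Fin.castSuccEmb _ (fun i => Fin.castSucc_lt_last i) _).symm _
  apply act_eq_zero_of_SA (((SA_Y _).aeval _).mul (Z.SA_emb _ _) hc)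
  intro v hv hv1
  by_contra h0
  obtain ⟨w0, hw0, hm⟩ := (hv1.act (aeval (Y (Fin.last n)) (R.G b) *
    emb Fin.castSuccEmb Z.z)).exists_wt h0
  obtain ⟨t, m', ht, hx', hm', hA, hmm, h1, h2⟩ := step h0 (hv.act _) hm
  have h3 := h1 Z.z Z.h (by
    rw [← act_mul, ← mul_assoc, ← hc.eq, mul_assoc, Z.zz_emb, mul_smul_comm, act_zsmul])
  have h4 := h2 (R.G b) R.D (by
    rw [← act_mul, ← mul_assoc, G_sq R (by omega), smul_mul_assoc, act_zsmul])
  have h5 := R.par_of_eval (content_mem hm h0 (by omega) t) h4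
  have h6 := Z.wt ht hx' hm' h3 t
  have h7 := hmm t
  rw [if_pos rfl] at h7
  apply hb
  rw [← h5, ← par_content (N := N) (t : ℕ), h7]
  congr 1
  push_cast
  rw [h6]

/-- the transposition of the two places after the catalyst -/
theorem Cat.rel2_last (Z : Cat N n) {M : ℕ} (R : Res M) (hM : 2 * (n + 2) + N ≤ M) {b : Bool}
    (hb : b ≠ par ((N : ℤ) - 1)) :
    act N _ ((g (swap (Fin.last n).castSucc (Fin.last (n + 1))) - 1) *
      (aeval (Y (Fin.last (n + 1))) (R.G b) *
        emb Fin.castSuccEmb (emb Fin.castSuccEmb Z.z))) = 0 := by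
  set s : P (Fin (n + 1 + 1)) := g (swap (Fin.last n).castSucc (Fin.last (n + 1))) with hs
  set G : P (Fin (n + 1 + 1)) := aeval (Y (Fin.last (n + 1))) (R.G b) with hG
  set ζ : P (Fin (n + 1 + 1)) := emb Fin.castSuccEmb (emb Fin.castSuccEmb Z.z) with hζ
  have hζ' : ζ = emb (Fin.castSuccEmb.trans Fin.castSuccEmb) Z.z := by rw [hζ, emb_trans]
  have hc : Commute G ζ := by
    rw [hζ']
    exact Commute.aeval_left (commute_emb_Y _ _ (fun i => Fin.castSucc_lt_last _) _).symm _
  have hcs : Commute ζ s := by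
    rw [hζ']
    refine commute_of_g _ (fun σ => ?_) _
    unfold Commute SemiconjBy
    rw [hs, ← g_mul, ← g_mul]
    congr 1
    rw [mul_swap_eq_swap_mul]
    have h1 : ∀ z : Fin (n + 1 + 1), n ≤ (z : ℕ) →
        (σ.viaEmbedding ((Fin.castSuccEmb : Fin n ↪ Fin (n + 1)).trans Fin.castSuccEmb)) z = z := by
      intro z hz
      apply Perm.viaEmbedding_apply_of_notMem
      rintro ⟨i, rfl⟩
      have : (((Fin.castSuccEmb.trans Fin.castSuccEmb) i : Fin (n + 1 + 1)) : ℕ) = i := rfl
      omega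
    rw [h1 _ (by simp), h1 _ (by simp)]
  have hss : s * s = 1 := g_swap_sq _ _
  have hSs : SA N s := SA_swap _ _
  have hSG : SA N G := (SA_Y _).aeval _
  have hSζ : SA N ζ := by rw [hζ']; exact Z.SA_emb _ _
  have hζζ : ζ * ζ = Z.h • ζ := by rw [hζ', Z.zz_emb]
  have hS1 : SA N (s - 1) := by
    intro f h
    rw [act_sub, act_sub, act_one, act_one, sub_eq_add_neg, sub_eq_add_neg,
      ← neg_one_zsmul f, ← neg_one_zsmul h, ip_add_left, ip_add_right, hSs, ip_zsmul_left,
      ip_zsmul_right]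
  refine act_eq_zero (F' := G * (ζ * (s - 1))) (fun f h => ?_) (fun v hv hv1 => ?_)
  · rw [act_mul, act_mul, hS1, hSG, hSζ, ← act_mul, ← act_mul, ← mul_assoc, hc.eq]
  · rw [act_mul]
    set v1 := act N _ (ζ * (s - 1)) v with hv1def
    by_contra hx0
    have hv10 : v1 ≠ 0 := by
      intro h
      rw [h, map_zero] at hx0
      exact hx0 rfl
    have hHW1 : HW v1 := hv.act _
    obtain ⟨w0, hw0, hm⟩ := (hv1.act (ζ * (s - 1))).exists_wt hv10
    set m := cnt w0 with hmdef
    have hmx : HasWt m (act N _ G v1) := HasWt.act hm _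
    have hHWx : HW (act N _ G v1) := hHW1.act _
    have hsv : act N _ s v1 = -v1 := by
      rw [hv1def, ← act_mul, ← mul_assoc, ← hcs.eq, mul_assoc, mul_sub, hss, mul_one, ← neg_sub,
        mul_neg, map_neg]
      rfl
    have hζv : act N _ ζ v1 = Z.h • v1 := by
      rw [hv1def, ← act_mul, ← mul_assoc, hζζ, smul_mul_assoc, act_zsmul]
    have hζx : act N _ ζ (act N _ G v1) = Z.h • act N _ G v1 := by
      rw [← act_mul, ← hc.eq, act_mul, hζv, map_zsmul]
    -- the two top places of `v1`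
    obtain ⟨t, m1, ht, hHW2, hm1, -, hmm1, h1, -⟩ := step hv10 hHW1 hm
    obtain ⟨t', m2, ht', hHW3, hm2, -, hmm2, h1', -⟩ := step ht hHW2 hm1
    have hκ := Z.wt ht' hHW3 hm2 (h1' _ _ (h1 _ _ hζv))
    have hne : t ≠ t' := by
      intro htt
      apply ht'
      funext w
      rw [← htt, comp_apply, comp_apply, Pi.zero_apply]
      have h2 := congrFun hsv (Fin.snoc (Fin.snoc w t : Fin (n + 1) → Fin N) t)
      rw [hs, act_g, Pi.neg_apply] at h2
      have h3 : ((Fin.snoc (Fin.snoc w t : Fin (n + 1) → Fin N) t : Fin (n + 1 + 1) → Fin N) ∘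
          ⇑(swap (Fin.last n).castSucc (Fin.last (n + 1)))) =
          Fin.snoc (Fin.snoc w t : Fin (n + 1) → Fin N) t := by
        funext j
        rw [Function.comp_apply]
        rcases eq_or_ne j (Fin.last n).castSucc with rfl | hj1
        · rw [swap_apply_left]
          simp
        · rcases eq_or_ne j (Fin.last (n + 1)) with rfl | hj2
          · rw [swap_apply_right]
            simp
          · rw [swap_apply_of_ne_of_ne hj1 hj2]
      rw [h3] at h2
      linarith
    -- the two top places of `x`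
    obtain ⟨t3, m3, ht3, hHW4, hm3, -, hmm3, h3, h3'⟩ := step hx0 hHWx hmx
    obtain ⟨t4, m4, ht4, hHW5, hm4, -, hmm4, h4, -⟩ := step ht3 hHW4 hm3
    have hκ' := Z.wt ht4 hHW5 hm4 (h4 _ _ (h3 _ _ hζx))
    have h5 := h3' (R.G b) R.D (by
      rw [← act_mul, G_sq R (by omega), act_zsmul])
    have h6 := R.par_of_eval (content_mem hmx hx0 (by omega) t3) h5
    have e1 := hmm1 t3
    have e2 := hmm2 t3
    have e3 := hmm3 t3
    have e4 := hmm4 t3
    have e5 := hκ t3
    have e6 := hκ' t3
    rw [if_pos rfl] at e3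
    have e7 : (if t = t3 then 1 else 0) + (if t' = t3 then 1 else 0) ≤ 1 := by
      split_ifs with h7 h8
      · exact absurd (h7.trans h8.symm) hne
      · norm_num
      · norm_num
      · norm_num
    have e8 : (m t3 : ℤ) = (N : ℤ) - 1 - (t3 : ℕ) + 1 := by omega
    apply hb
    rw [← h6, e8, par_content]

/-- the potential after the catalyst -/
theorem Cat.path (Z : Cat N n) {M : ℕ} (R : Res M) : ∀ (e : ℕ), n + e + N ≤ M →
    ∀ {m : Fin N → ℕ} {x : W N (Fin (n + e))}, x ≠ 0 → HW x → HasWt m x →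
      (∀ a : Fin e, act N _ (aeval (Y (Fin.natAdd n a)) (R.G (par ((N : ℤ) - 1)))) x = R.D • x) →
      act N _ (emb (Fin.castAddEmb e) Z.z) x = Z.h • x → Phi m = N - 2 * e := by
  intro e
  induction e with
  | zero =>
    intro _ m x h0 hx hm _ hz
    have h1 : emb (Fin.castAddEmb 0) Z.z = Z.z := by
      have h2 : ∀ y : P (Fin n), emb (Function.Embedding.refl (Fin n)) y = y := by
        intro y
        refine P_induction (p := fun y => emb (Function.Embedding.refl (Fin n)) y = y) y ?_ ?_ ?_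
        · intro σ
          rw [emb_g]
          congr 1
          ext z
          exact congrArg Fin.val (Perm.viaEmbedding_apply σ (Function.Embedding.refl (Fin n)) z)
        · intro a b ha hb
          rw [map_add, ha, hb]
        · intro k a ha
          rw [emb_zsmul, ha]
      exact h2 Z.z
    rw [h1] at hz
    have h2 := Z.wt h0 hx hm hz
    unfold Phi
    have : ∀ t : Fin N, vv (par ((m t : ℤ) + N - 1 - (t : ℕ))) = 1 := by
      intro t
      rw [h2]
      have h1 : (N : ℤ) - 1 - (t : ℕ) + N - 1 - (t : ℕ) = 2 * (N - 1 - (t : ℕ)) := by ring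
      rw [h1]
      simp [vv, par]
    rw [Finset.sum_congr rfl (fun t _ => this t)]
    simp
  | succ e ih =>
    intro hM m x h0 hx hm hG hz
    obtain ⟨t, m', ht, hx', hm', -, hmm, h1, h2⟩ := step (n := n + e) h0 hx hm
    have h3 := ih (by omega) ht hx' hm' (fun a => by
      apply h1
      rw [emb_aeval, emb_Y _ (fun i => rfl)]
      exact hG a.castSucc) (by
      apply h1
      rw [emb_trans]
      exact hz)
    have h4 := h2 _ _ (hG (Fin.last e))
    have h5 := R.par_of_eval (content_mem (n := n + e) hm h0 (by omega) t) h4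
    rw [Phi_step hmm, h3, h5]
    have h6 : vv (par (N : ℤ)) * vv (par ((N : ℤ) - 1)) = -1 := by
      rw [← vv_par_add]
      have h7 : par ((N : ℤ) + (N - 1)) = false := by
        have : ¬ Even ((N : ℤ) + (N - 1)) := by
          rw [Int.not_even_iff_odd]
          exact ⟨N - 1, by ring⟩
        simp [par, this]
      rw [h7]
      rfl
    rw [h6]
    push_cast
    ring

end

end Pool.PI34.SG
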