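import Pool.Agent.LibPI34.Super6

/-!
PI34, E-block for odd primes, file SK1: general coefficients: signs and the signed action.
`A` is the coefficient ring of the group algebra, `K` (an `A`-algebra) the coefficient ring of the
functions on words.
-/

set_option linter.unusedSectionVars false
set_option linter.unusedSimpArgs false

namespace Pool.PI34.SK

open Equiv Finset
open Pool.PI34.Super (Lt odd prs mem_prs prod_prs_perm pv)

section signs

variable {K : Type} [CommRing K] {ι : Type*} [Fintype ι] [LinearOrder ι]

/-- `H σ i j = 1` if `σ` keeps the order of `i, j`, and `-1` otherwise. -/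
def H (σ : Perm ι) (i j : ι) : K := if (i < j ↔ σ i < σ j) then 1 else -1

theorem H_symm (σ : Perm ι) (i j : ι) : (H σ i j : K) = H σ j i := by
  rcases lt_trichotomy i j with h | h | h
  · have h1 : σ i ≠ σ j := fun e => h.ne (σ.injective e)
    rcases lt_or_gt_of_ne h1 with h2 | h2
    · simp [H, h, h.le, h2, h2.le, not_lt.2 h.le, not_lt.2 h2.le]
    · simp [H, h, h.le, h2, h2.le, not_lt.2 h.le, not_lt.2 h2.le]
  · rw [h]
  · have h1 : σ i ≠ σ j := fun e => h.ne' (σ.injective e)
    rcases lt_or_gt_of_ne h1 with h2 | h2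
    · simp [H, h, h.le, h2, h2.le, not_lt.2 h.le, not_lt.2 h2.le]
    · simp [H, h, h.le, h2, h2.le, not_lt.2 h.le, not_lt.2 h2.le]

theorem H_mul (σ τ : Perm ι) (i j : ι) : (H (σ * τ) i j : K) = H σ (τ i) (τ j) * H τ i j := by
  unfold H
  simp only [Perm.mul_apply]
  by_cases h1 : i < j <;> by_cases h2 : τ i < τ j <;> by_cases h3 : σ (τ i) < σ (τ j) <;>
    simp [h1, h2, h3]

theorem H_one (i j : ι) : (H (1 : Perm ι) i j : K) = 1 := by simp [H]

/-- The sign of `σ` on the odd positions (with parity vector `p`). -/
def eps (σ : Perm ι) (p : ι → Bool) : K :=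
  ∏ q ∈ prs ι, if p q.1 && p q.2 then H σ q.1 q.2 else 1

theorem eps_mul (σ τ : Perm ι) (p : ι → Bool) :
    (eps (σ * τ) p : K) = eps σ (fun i => p (τ.symm i)) * eps τ p := by
  have h := prod_prs_perm (fun i j => if p (τ.symm i) && p (τ.symm j) then (H σ i j : K) else 1)
    (fun i j => by rw [H_symm, Bool.and_comm]) τ
  unfold eps
  rw [← h, ← Finset.prod_mul_distrib]
  refine Finset.prod_congr rfl (fun q _ => ?_)
  simp only [Equiv.symm_apply_apply]
  by_cases hq : (p q.1 && p q.2) = true
  · simp only [hq, if_true, H_mul]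
  · simp [hq]

theorem eps_one (p : ι → Bool) : (eps (1 : Perm ι) p : K) = 1 := by
  unfold eps
  exact Finset.prod_eq_one (fun q _ => by simp [H_one])

theorem H_sq (σ : Perm ι) (i j : ι) : (H σ i j * H σ i j : K) = 1 := by
  unfold H; split_ifs <;> simp

theorem eps_sq (σ : Perm ι) (p : ι → Bool) : (eps σ p * eps σ p : K) = 1 := by
  unfold eps
  rw [← Finset.prod_mul_distrib]
  refine Finset.prod_eq_one (fun q _ => ?_)
  split_ifs
  · exact H_sq _ _ _
  · simp

end signs

section action

variable (A K : Type) [CommRing A] [CommRing K] [Algebra A K]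
variable (k l : ℕ) (ι : Type*) [Fintype ι] [LinearOrder ι]

/-- The tensor power as functions on words. -/
abbrev W := (ι → Lt k l) → K

variable {K k l ι}

/-- The signed action of a permutation. -/
def rhoFun (σ : Perm ι) : W K k l ι →ₗ[K] W K k l ι where
  toFun f := fun w => eps σ (pv (w ∘ σ)) * f (w ∘ σ)
  map_add' f g := by funext w; simp [mul_add]
  map_smul' c f := by funext w; simp; ring

theorem rhoFun_apply (σ : Perm ι) (f : W K k l ι) (w : ι → Lt k l) :
    rhoFun σ f w = eps σ (pv (w ∘ σ)) * f (w ∘ σ) := rfl

variable (K k l ι)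

/-- The signed action as a representation. -/
def rho : Perm ι →* Module.End K (W K k l ι) where
  toFun := rhoFun
  map_one' := by
    apply LinearMap.ext; intro f; funext w
    simp [rhoFun_apply, eps_one]
  map_mul' σ τ := by
    apply LinearMap.ext; intro f; funext w
    simp only [Module.End.mul_apply, rhoFun_apply]
    have h1 : w ∘ ⇑(σ * τ) = (w ∘ σ) ∘ τ := by funext i; simp
    rw [h1, eps_mul]
    have h2 : (fun i => pv ((w ∘ σ) ∘ τ) (τ.symm i)) = pv (w ∘ σ) := by
      funext i; simp [pv]
    rw [h2]; ring

/-- The action of the group algebra. -/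
noncomputable def act : MonoidAlgebra A (Perm ι) →ₐ[A] Module.End K (W K k l ι) :=
  MonoidAlgebra.lift A _ _ (rho K k l ι)

variable {A K k l ι}

theorem rho_apply (σ : Perm ι) (f : W K k l ι) (w : ι → Lt k l) :
    rho K k l ι σ f w = eps σ (pv (w ∘ σ)) * f (w ∘ σ) := rfl

theorem act_single (σ : Perm ι) (a : A) :
    act A K k l ι (MonoidAlgebra.single σ a) = a • rho K k l ι σ := by
  simp [act, MonoidAlgebra.lift_single]

theorem act_of (σ : Perm ι) :
    act A K k l ι (MonoidAlgebra.of A _ σ) = rho K k l ι σ := by
  simp [act]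

theorem act_smul_apply (a : A) (y : MonoidAlgebra A (Perm ι)) (f : W K k l ι) :
    act A K k l ι (a • y) f = algebraMap A K a • act A K k l ι y f := by
  rw [map_smul, LinearMap.smul_apply, algebraMap_smul]

theorem act_eq_super (y : MonoidAlgebra ℚ (Perm ι)) :
    act ℚ ℚ k l ι y = Pool.PI34.Super.act k l ι y := rfl

/-- Change of the coefficient ring of the group algebra. -/
theorem act_map (y : MonoidAlgebra A (Perm ι)) :
    act K K k l ι (MonoidAlgebra.mapRingHom (Perm ι) (algebraMap A K) y)
      = act A K k l ι y := by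
  induction y using MonoidAlgebra.induction_on with
  | of σ =>
    rw [act_of, MonoidAlgebra.of_apply, MonoidAlgebra.mapRingHom_single, map_one,
      act_single, one_smul]
  | add x y hx hy => rw [map_add, map_add, map_add, hx, hy]
  | smul r x hx =>
    have h1 : MonoidAlgebra.mapRingHom (Perm ι) (algebraMap A K) (r • x)
        = algebraMap A K r • MonoidAlgebra.mapRingHom (Perm ι) (algebraMap A K) x := by
      ext g
      simp [Algebra.smul_def]
    rw [h1, map_smul, map_smul, hx, algebraMap_smul]

/-- Change of the coefficient ring of the words. -/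
def bc (A K : Type) [CommRing A] [CommRing K] [Algebra A K] {k l : ℕ} {ι : Type*}
    (f : W A k l ι) : W K k l ι := fun w => algebraMap A K (f w)

theorem bc_H (σ : Perm ι) (i j : ι) : algebraMap A K (H σ i j) = H σ i j := by
  unfold H; split_ifs <;> simp

theorem bc_eps (σ : Perm ι) (p : ι → Bool) : algebraMap A K (eps σ p) = eps σ p := by
  unfold eps
  rw [map_prod]
  refine Finset.prod_congr rfl (fun q _ => ?_)
  split_ifs
  · exact bc_H _ _ _
  · simp

theorem act_bc (y : MonoidAlgebra A (Perm ι)) (f : W A k l ι) :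
    act A K k l ι y (bc A K f) = bc A K (act A A k l ι y f) := by
  induction y using MonoidAlgebra.induction_on with
  | of σ =>
    rw [act_of, act_of]
    funext w
    simp only [rho_apply, bc, map_mul, bc_eps]
  | add x y hx hy =>
    rw [map_add, map_add, LinearMap.add_apply, LinearMap.add_apply, hx, hy]
    funext w
    simp [bc]
  | smul r x hx =>
    rw [act_smul_apply, act_smul_apply, hx]
    funext w
    simp [bc]

end action

end Pool.PI34.SK
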