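import Pool.Agent.LibPI34.SK3

/-!
PI34, E-block for odd primes, file SK4 (general coefficients): generated subspaces, counts,
weight components, highest weight vectors with respect to an order of the letters.
-/

set_option linter.unusedSectionVars false
set_option linter.unusedSimpArgs false
set_option linter.unusedVariables false

namespace Pool.PI34.SK

open Equiv Finset
open Pool.PI34.Super (Lt odd prs mem_prs pv cnt)

section gen

variable {K : Type} [CommRing K] {V : Type*} [AddCommGroup V] [Module K V]

/-- The smallest subspace containing `X` and stable under the operators in `S`. -/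
def gen (S : Set (Module.End K V)) (X : Submodule K V) : Submodule K V :=
  sInf {N | X ≤ N ∧ ∀ T ∈ S, ∀ v ∈ N, T v ∈ N}

theorem gen_le {S : Set (Module.End K V)} {X N : Submodule K V} (h1 : X ≤ N)
    (h2 : ∀ T ∈ S, ∀ v ∈ N, T v ∈ N) : gen S X ≤ N := sInf_le ⟨h1, h2⟩

theorem le_gen (S : Set (Module.End K V)) (X : Submodule K V) : X ≤ gen S X :=
  le_sInf (fun _ h => h.1)

theorem gen_stable {S : Set (Module.End K V)} {X : Submodule K V} {T : Module.End K V}
    (hT : T ∈ S) {v : V} (hv : v ∈ gen S X) : T v ∈ gen S X := by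
  unfold gen at *
  rw [Submodule.mem_sInf] at *
  intro N hN
  exact hN.2 T hT v (hv N hN)

theorem gen_mono {S S' : Set (Module.End K V)} (h : S ⊆ S') (X : Submodule K V) :
    gen S X ≤ gen S' X :=
  gen_le (le_gen _ _) (fun T hT v hv => gen_stable (h hT) hv)

end gen

variable {K : Type} [CommRing K] {k l m : ℕ}

theorem EE_comm_apply {ι : Type*} [Fintype ι] [LinearOrder ι] (a b c d : Lt k l)
    (v : W K k l ι) :
    EE a b (EE c d v) = (dd a b c d : K) • EE c d (EE a b v)
      + (if b = c then EE a d v else 0) - (dd a b c d : K) • (if d = a then EE c b v else 0) := by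
  have h := LinearMap.congr_fun (EB_comm (univ : Finset ι) a b c d) v
  simp only [Module.End.mul_apply, LinearMap.add_apply, LinearMap.sub_apply,
    LinearMap.smul_apply] at h
  unfold EE
  rw [h]
  split_ifs <;> simp

section counts

variable {ι : Type*} [Fintype ι] [LinearOrder ι]

theorem EE_diag (c : Lt k l) (f : W K k l ι) (w : ι → Lt k l) :
    EE c c f w = (cnt c w : K) * f w := by
  unfold EE EB
  rw [LinearMap.sum_apply, Finset.sum_apply]
  have h : ∀ i ∈ (univ : Finset ι), eop c c i f w = if w i = c then f w else 0 := by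
    intro i _
    rw [eop_apply, bsg_self]
    split_ifs with h
    · rw [← h, Function.update_eq_self, one_mul]
    · rfl
  rw [Finset.sum_congr rfl h, ← Finset.sum_filter, Finset.sum_const, nsmul_eq_mul]
  rfl

/-- the counts of a word -/
def cts (w : ι → Lt k l) : Lt k l → ℕ := fun c => cnt c w

/-- the counts after the replacement of an `a` by a `b` -/
theorem cts_update (w : ι → Lt k l) (s : ι) (a b : Lt k l) (hs : w s = a) (hab : a ≠ b) :
    cts (Function.update w s b) + Pi.single a 1 = cts w + Pi.single b 1 := by
  classical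
  funext c
  have h1 : cnt c (Function.update w s b) + (if c = a then 1 else 0)
      = cnt c w + (if c = b then 1 else 0) := by
    unfold cnt
    by_cases hca : c = a
    · subst hca
      rw [if_pos rfl, if_neg hab]
      have e : univ.filter (fun t => Function.update w s b t = c)
          = (univ.filter (fun t => w t = c)).erase s := by
        ext t
        by_cases ht : t = s
        · subst ht
          simp [Ne.symm hab]
        · simp [Function.update_of_ne ht, ht]
      rw [e, Finset.card_erase_of_mem (by simp [hs])]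
      have : 0 < (univ.filter (fun t => w t = c)).card :=
        Finset.card_pos.2 ⟨s, by simp [hs]⟩
      omega
    · rw [if_neg hca]
      by_cases hcb : c = b
      · subst hcb
        rw [if_pos rfl]
        have e : univ.filter (fun t => Function.update w s c t = c)
            = insert s (univ.filter (fun t => w t = c)) := by
          ext t
          by_cases ht : t = s
          · subst ht; simp
          · simp [Function.update_of_ne ht, ht]
        rw [e, Finset.card_insert_of_notMem (by simp [hs, hab])]
      · rw [if_neg hcb]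
        have e : univ.filter (fun t => Function.update w s b t = c)
            = univ.filter (fun t => w t = c) := by
          ext t
          by_cases ht : t = s
          · subst ht
            simp [hs, Ne.symm hcb, Ne.symm hca]
          · simp [Function.update_of_ne ht]
        rw [e]
  simp only [Pi.add_apply, Pi.single_apply, cts]
  exact h1

theorem cts_perm (σ : Perm ι) (w : ι → Lt k l) : cts (w ∘ σ) = cts w := by
  funext c
  unfold cts cnt
  refine Finset.card_bij' (fun s _ => σ s) (fun s _ => σ.symm s) ?_ ?_ ?_ ?_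
  · intro s hs; simpa using hs
  · intro s hs; simpa using hs
  · intro s hs; simp
  · intro s hs; simp

/-- `u` is supported on the words with counts `n`. -/
def On (n : Lt k l → ℕ) (u : W K k l ι) : Prop := ∀ w, u w ≠ 0 → cts w = n

open Classical in
/-- The weight component. -/
noncomputable def wproj (n : Lt k l → ℕ) : W K k l ι →ₗ[K] W K k l ι where
  toFun u := fun w => if cts w = n then u w else 0
  map_add' f g := by funext w; simp only [Pi.add_apply]; split_ifs <;> simp
  map_smul' c f := by funext w; simp only [Pi.smul_apply, RingHom.id_apply]; split_ifs <;> simp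

open Classical in
theorem wproj_apply (n : Lt k l → ℕ) (u : W K k l ι) (w : ι → Lt k l) :
    wproj n u w = if cts w = n then u w else 0 := rfl

theorem wproj_on (n : Lt k l → ℕ) (u : W K k l ι) : On n (wproj n u) := by
  classical
  intro w hw
  rw [wproj_apply] at hw
  by_contra h
  rw [if_neg h] at hw
  exact hw rfl

theorem act_wproj {A : Type} [CommRing A] [Algebra A K] (y : MonoidAlgebra A (Perm ι))
    (n : Lt k l → ℕ) (u : W K k l ι) :
    act A K k l ι y (wproj n u) = wproj n (act A K k l ι y u) := by
  classical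
  induction y using MonoidAlgebra.induction_on with
  | of σ =>
    rw [act_of]
    funext w
    rw [rho_apply, wproj_apply, wproj_apply, rho_apply, cts_perm]
    split_ifs <;> simp
  | add x y hx hy => rw [map_add, LinearMap.add_apply, LinearMap.add_apply, map_add, hx, hy]
  | smul r x hx => rw [act_smul_apply, act_smul_apply, hx, map_smul]

theorem act_on {A : Type} [CommRing A] [Algebra A K] (y : MonoidAlgebra A (Perm ι))
    {n : Lt k l → ℕ} {u : W K k l ι} (hu : On n u) : On n (act A K k l ι y u) := by
  classical
  have h : wproj n u = u := by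
    funext w
    rw [wproj_apply]
    split_ifs with h
    · rfl
    · by_contra h2
      exact h (hu w (Ne.symm h2))
  rw [← h, act_wproj]
  exact wproj_on _ _

/-- Highest weight vectors with respect to the order `ω` of the letters. -/
def HW (ω : Lt k l → ℕ) (u : W K k l ι) : Prop := ∀ a b, ω a < ω b → EE a b u = 0

theorem EE_apply (a b : Lt k l) (u : W K k l ι) (w : ι → Lt k l) :
    EE a b u w = ∑ s, if w s = a then bsg a b w s * u (Function.update w s b) else 0 := by
  unfold EE EB
  rw [LinearMap.sum_apply, Finset.sum_apply]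
  exact Finset.sum_congr rfl (fun s _ => eop_apply a b s u w)

theorem EE_wproj_zero {a b : Lt k l} (hab : a ≠ b) {u : W K k l ι} (hu : EE a b u = 0)
    (n : Lt k l → ℕ) : EE a b (wproj n u) = 0 := by
  classical
  funext w
  rw [EE_apply]
  by_cases h : cts w + Pi.single b 1 = n + Pi.single a 1
  · have h0 := congrFun hu w
    rw [EE_apply] at h0
    refine Eq.trans (Finset.sum_congr rfl (fun s _ => ?_)) h0
    by_cases hs : w s = a
    · rw [if_pos hs, if_pos hs, wproj_apply, if_pos]
      have h1 := cts_update w s a b hs hab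
      rw [h] at h1
      exact add_right_cancel h1
    · rw [if_neg hs, if_neg hs]
  · refine Finset.sum_eq_zero (fun s _ => ?_)
    by_cases hs : w s = a
    · rw [if_pos hs, wproj_apply, if_neg, mul_zero]
      intro h2
      apply h
      rw [← cts_update w s a b hs hab, h2]
    · rw [if_neg hs]

theorem HW_wproj {ω : Lt k l → ℕ} {u : W K k l ι} (hu : HW ω u) (n : Lt k l → ℕ) :
    HW ω (wproj n u) := fun a b hab =>
  EE_wproj_zero (fun e => by rw [e] at hab; exact lt_irrefl _ hab) (hu a b hab) n

theorem act_HW {A : Type} [CommRing A] [Algebra A K] (y : MonoidAlgebra A (Perm ι))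
    {ω : Lt k l → ℕ} {u : W K k l ι} (hu : HW ω u) : HW ω (act A K k l ι y u) := by
  intro a b hab
  have h := LinearMap.congr_fun (act_EE y a b) u
  simp only [Module.End.mul_apply] at h
  rw [← h, hu a b hab, map_zero]

/-- A graded subspace. -/
def Graded (N : Submodule K (W K k l ι)) : Prop := ∀ n, ∀ u ∈ N, wproj n u ∈ N

/-- The height of a word. -/
def hgt (ω : Lt k l → ℕ) (w : ι → Lt k l) : ℕ := ∑ s, ω (w s)

theorem hgt_update_lt (ω : Lt k l → ℕ) (w : ι → Lt k l) (s : ι)
    (b : Lt k l) (h : ω (w s) < ω b) : hgt ω w < hgt ω (Function.update w s b) := by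
  unfold hgt
  refine Finset.sum_lt_sum (fun x _ => ?_)
    ⟨s, Finset.mem_univ s, by rw [Function.update_self]; exact h⟩
  by_cases hx : x = s
  · subst hx; rw [Function.update_self]; exact h.le
  · rw [Function.update_of_ne hx]

theorem exists_HW_aux (ω : Lt k l → ℕ) (N : Submodule K (W K k l ι))
    (hst : ∀ a b : Lt k l, ω a < ω b → ∀ v ∈ N, EE a b v ∈ N) (n : ℕ) :
    ∀ u ∈ N, u ≠ 0 → (∀ w, u w ≠ 0 → hgt ω w ≤ n) → ∃ v ∈ N, v ≠ 0 ∧ HW ω v := by
  classical
  have key : ∀ (a b : Lt k l) (u : W K k l ι) (w : ι → Lt k l) (q : ℕ), ω a < ω b →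
      (∀ w, u w ≠ 0 → hgt ω w ≤ q) → q ≤ hgt ω w → EE a b u w = 0 := by
    intro a b u w q hab hh hw
    rw [EE_apply]
    refine Finset.sum_eq_zero (fun s _ => ?_)
    split_ifs with h
    · have h1 : u (Function.update w s b) = 0 := by
        by_contra h2
        have h3 := hh _ h2
        have h4 := hgt_update_lt ω w s b (by rw [h]; exact hab)
        omega
      rw [h1, mul_zero]
    · rfl
  induction n with
  | zero =>
    intro u hu hne hh
    refine ⟨u, hu, hne, fun a b hab => ?_⟩
    funext w
    exact key a b u w 0 hab hh (Nat.zero_le _)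
  | succ n ih =>
    intro u hu hne hh
    by_cases hall : HW ω u
    · exact ⟨u, hu, hne, hall⟩
    · unfold HW at hall
      push Not at hall
      obtain ⟨a, b, hab, h1⟩ := hall
      refine ih (EE a b u) (hst a b hab u hu) h1 (fun w hw => ?_)
      by_contra hlt
      exact hw (key a b u w (n + 1) hab hh (by omega))

/-- Existence of highest weight vectors of one weight. -/
theorem exists_HW (ω : Lt k l → ℕ) {N : Submodule K (W K k l ι)} (hg : Graded N)
    (hst : ∀ a b : Lt k l, ω a < ω b → ∀ v ∈ N, EE a b v ∈ N) (hN : N ≠ ⊥) :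
    ∃ v ∈ N, v ≠ 0 ∧ HW ω v ∧ ∃ n, On n v := by
  classical
  obtain ⟨u, hu, hne⟩ := Submodule.exists_mem_ne_zero_of_ne_bot hN
  obtain ⟨v, hv, hv0, hvω⟩ := exists_HW_aux ω N hst (univ.sup (hgt ω)) u hu hne
    (fun w _ => Finset.le_sup (Finset.mem_univ w))
  obtain ⟨w, hw⟩ : ∃ w, v w ≠ 0 := by
    by_contra h
    push Not at h
    exact hv0 (funext h)
  refine ⟨wproj (cts w) v, hg _ v hv, ?_, HW_wproj hvω _, cts w, wproj_on _ _⟩
  intro h
  have := congrFun h w
  rw [wproj_apply, if_pos rfl] at this
  exact hw this

end counts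

section form

variable {ι : Type*} [Fintype ι] [LinearOrder ι]

theorem ip_comm (f g : W K k l ι) : ip f g = ip g f := by
  unfold ip; exact Finset.sum_congr rfl (fun w _ => mul_comm _ _)

theorem ip_add_right (f g h : W K k l ι) : ip f (g + h) = ip f g + ip f h := by
  unfold ip; rw [← Finset.sum_add_distrib]
  exact Finset.sum_congr rfl (fun w _ => by rw [Pi.add_apply]; ring)

theorem ip_smul_right (c : K) (f g : W K k l ι) : ip f (c • g) = c * ip f g := by
  unfold ip; rw [Finset.mul_sum]
  exact Finset.sum_congr rfl (fun w _ => by rw [Pi.smul_apply, smul_eq_mul]; ring)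

theorem ip_zero_right (f : W K k l ι) : ip f 0 = 0 := by
  unfold ip; exact Finset.sum_eq_zero (fun w _ => by simp)

theorem ip_add_left (f g h : W K k l ι) : ip (f + g) h = ip f h + ip g h := by
  rw [ip_comm, ip_add_right, ip_comm h f, ip_comm h g]

theorem ip_smul_left (c : K) (f g : W K k l ι) : ip (c • f) g = c * ip f g := by
  rw [ip_comm, ip_smul_right, ip_comm]

theorem ip_zero_left (f : W K k l ι) : ip 0 f = 0 := by rw [ip_comm, ip_zero_right]

theorem ip_single (f : W K k l ι) (w : ι → Lt k l) : ip f (Pi.single w 1) = f w := by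
  classical
  unfold ip
  rw [Finset.sum_eq_single w]
  · simp
  · intro b _ hb; simp [Pi.single_apply, hb]
  · intro h; exact absurd (Finset.mem_univ _) h

theorem EE_adj (a b : Lt k l) (f g : W K k l ι) : ip (EE a b f) g = ip f (EE b a g) :=
  EB_adj _ a b f g

/-- A self adjoint element of the group algebra. -/
def SelfAdj (A K : Type) [CommRing A] [CommRing K] [Algebra A K] (k l : ℕ) {ι : Type*}
    [Fintype ι] [LinearOrder ι] (y : MonoidAlgebra A (Perm ι)) : Prop :=
  ∀ f g : W K k l ι, ip (act A K k l ι y f) g = ip f (act A K k l ι y g)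

theorem eps_inv (σ : Perm ι) (p : ι → Bool) :
    (eps σ⁻¹ (fun i => p (σ.symm i)) : K) = eps σ p := by
  have h := eps_mul (K := K) σ⁻¹ σ p
  rw [inv_mul_cancel, eps_one] at h
  have h2 := eps_sq (K := K) σ p
  have h3 : (eps σ⁻¹ (fun i => p (σ.symm i)) : K)
      = eps σ⁻¹ (fun i => p (σ.symm i)) * (eps σ p * eps σ p) := by rw [h2, mul_one]
  rw [h3, ← mul_assoc, ← h, one_mul]

theorem rho_adj (σ : Perm ι) (f g : W K k l ι) :
    ip (rho K k l ι σ f) g = ip f (rho K k l ι σ⁻¹ g) := by
  unfold ip
  have h1 := Equiv.sum_comp (Equiv.arrowCongr σ (Equiv.refl (Lt k l)))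
    (fun w => rho K k l ι σ f w * g w)
  rw [← h1]
  refine Finset.sum_congr rfl (fun w _ => ?_)
  have h2 : (Equiv.arrowCongr σ (Equiv.refl (Lt k l))) w = w ∘ ⇑σ⁻¹ := by
    funext i; rfl
  rw [h2, rho_apply, rho_apply]
  have h3 : (w ∘ ⇑σ⁻¹) ∘ ⇑σ = w := by funext i; simp
  rw [h3]
  have h4 := eps_inv (K := K) σ (pv w)
  have h5 : (fun i => pv w (σ.symm i)) = pv (w ∘ ⇑σ⁻¹) := by funext i; rfl
  rw [h5] at h4
  rw [h4]
  ring

theorem selfAdj_swap {A : Type} [CommRing A] [Algebra A K] (i j : ι) :
    SelfAdj A K k l (MonoidAlgebra.of A (Perm ι) (swap i j)) := by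
  intro f g
  rw [act_of, rho_adj, swap_inv]

theorem selfAdj_zero {A : Type} [CommRing A] [Algebra A K] :
    SelfAdj A K k l (0 : MonoidAlgebra A (Perm ι)) := by
  intro f g
  rw [map_zero, LinearMap.zero_apply, LinearMap.zero_apply, ip_zero_left, ip_zero_right]

theorem selfAdj_one {A : Type} [CommRing A] [Algebra A K] :
    SelfAdj A K k l (1 : MonoidAlgebra A (Perm ι)) := by
  intro f g
  rw [map_one]; rfl

theorem SelfAdj.add {A : Type} [CommRing A] [Algebra A K] {x y : MonoidAlgebra A (Perm ι)}
    (hx : SelfAdj A K k l x) (hy : SelfAdj A K k l y) : SelfAdj A K k l (x + y) := by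
  intro f g
  rw [map_add, LinearMap.add_apply, LinearMap.add_apply, ip_add_left, ip_add_right, hx, hy]

theorem SelfAdj.smul {A : Type} [CommRing A] [Algebra A K] {x : MonoidAlgebra A (Perm ι)}
    (hx : SelfAdj A K k l x) (c : A) : SelfAdj A K k l (c • x) := by
  intro f g
  rw [act_smul_apply, act_smul_apply, ip_smul_left, ip_smul_right, hx]

theorem SelfAdj.sum {A : Type} [CommRing A] [Algebra A K] {α : Type*} (s : Finset α)
    {x : α → MonoidAlgebra A (Perm ι)} (hx : ∀ i ∈ s, SelfAdj A K k l (x i)) :
    SelfAdj A K k l (∑ i ∈ s, x i) := by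
  classical
  induction s using Finset.induction_on with
  | empty => rw [Finset.sum_empty]; exact selfAdj_zero
  | insert a s ha ih =>
    rw [Finset.sum_insert ha]
    exact (hx a (Finset.mem_insert_self _ _)).add
      (ih (fun i hi => hx i (Finset.mem_insert_of_mem hi)))

theorem SelfAdj.mul {A : Type} [CommRing A] [Algebra A K] {x y : MonoidAlgebra A (Perm ι)}
    (hx : SelfAdj A K k l x) (hy : SelfAdj A K k l y) (hxy : x * y = y * x) :
    SelfAdj A K k l (x * y) := by
  intro f g
  rw [map_mul, Module.End.mul_apply, hx, hy]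
  conv_rhs => rw [← map_mul, hxy, map_mul]
  rfl

theorem SelfAdj.pow {A : Type} [CommRing A] [Algebra A K] {x : MonoidAlgebra A (Perm ι)}
    (hx : SelfAdj A K k l x) (q : ℕ) : SelfAdj A K k l (x ^ q) := by
  induction q with
  | zero => rw [pow_zero]; exact selfAdj_one
  | succ q ih => rw [pow_succ]; exact ih.mul hx (by rw [← pow_succ, ← pow_succ'])

theorem SelfAdj.aeval {A : Type} [CommRing A] [Algebra A K] {x : MonoidAlgebra A (Perm ι)}
    (hx : SelfAdj A K k l x) (P : Polynomial A) : SelfAdj A K k l (Polynomial.aeval x P) := by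
  induction P using Polynomial.induction_on' with
  | add P Q hP hQ => rw [map_add]; exact hP.add hQ
  | monomial q a =>
    rw [Polynomial.aeval_monomial, ← Algebra.smul_def]
    exact (hx.pow q).smul a

theorem selfAdj_XB {A : Type} [CommRing A] [Algebra A K] {m : ℕ} (B : Finset (Fin m)) :
    SelfAdj A K k l (XB A B) := by
  unfold XB
  exact SelfAdj.sum B (fun s _ => selfAdj_swap _ _)

end form

end Pool.PI34.SK
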