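import Pool.Agent.LibPI34.Super6

/-!
PI34, E-block, file 7: placements, the principle, the colour idempotent.
-/

set_option linter.unusedSectionVars false
set_option linter.unusedSimpArgs false

namespace Pool.PI34.Super

open Equiv Finset

variable {k l : ℕ}

section place

variable {κ ι : Type} [Fintype κ] [LinearOrder κ] [Fintype ι] [LinearOrder ι]

/-- Extension of a permutation by the identity. -/
noncomputable def ext (φ : κ ↪o ι) : Perm κ →* Perm ι := Perm.viaEmbeddingHom φ.toEmbedding

theorem ext_apply (φ : κ ↪o ι) (σ : Perm κ) (a : κ) : ext φ σ (φ a) = φ (σ a) :=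
  Perm.viaEmbedding_apply σ φ.toEmbedding a

theorem ext_apply' (φ : κ ↪o ι) (σ : Perm κ) (x : ι) (hx : x ∉ Set.range φ) :
    ext φ σ x = x :=
  Perm.viaEmbedding_apply_of_notMem σ φ.toEmbedding x hx

/-- The range is an interval. -/
def Conv (φ : κ ↪o ι) : Prop := ∀ x, x ∉ Set.range φ → (∀ a, x < φ a) ∨ (∀ a, φ a < x)

theorem eps_ext {φ : κ ↪o ι} (hφ : Conv φ) (σ : Perm κ) (p : ι → Bool) :
    eps (ext φ σ) p = eps σ (p ∘ φ) := by
  classical
  unfold eps
  let e : κ × κ ↪ ι × ι := φ.toEmbedding.prodMap φ.toEmbedding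
  have h1 : ∏ q ∈ prs κ, (if (p ∘ φ) q.1 && (p ∘ φ) q.2 then H σ q.1 q.2 else 1)
      = ∏ q ∈ (prs κ).map e, (if p q.1 && p q.2 then H (ext φ σ) q.1 q.2 else 1) := by
    rw [Finset.prod_map]
    refine Finset.prod_congr rfl (fun q _ => ?_)
    have h2 : H (ext φ σ) (φ q.1) (φ q.2) = H σ q.1 q.2 := by
      unfold H
      simp only [ext_apply, φ.lt_iff_lt]
    change _ = if p (φ q.1) && p (φ q.2) then H (ext φ σ) (φ q.1) (φ q.2) else 1
    rw [h2]
    rfl
  rw [h1]
  symm
  refine Finset.prod_subset ?_ ?_
  · intro q hq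
    rw [Finset.mem_map] at hq
    obtain ⟨q', hq', rfl⟩ := hq
    rw [mem_prs] at *
    exact φ.lt_iff_lt.2 hq'
  · intro q hq hq'
    rw [mem_prs] at hq
    have hH : H (ext φ σ) q.1 q.2 = 1 := by
      by_cases hx : q.1 ∈ Set.range φ
      · obtain ⟨a, ha⟩ := hx
        have hy : q.2 ∉ Set.range φ := by
          rintro ⟨b, hb⟩
          apply hq'
          rw [Finset.mem_map]
          refine ⟨(a, b), ?_, Prod.ext ha hb⟩
          rw [mem_prs]
          rw [← ha, ← hb, φ.lt_iff_lt] at hq
          exact hq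
        unfold H
        rw [ext_apply' φ σ _ hy, ← ha, ext_apply]
        rcases hφ _ hy with h | h
        · rw [← ha] at hq
          exact absurd hq (not_lt.2 (h a).le)
        · simp [h a, h (σ a)]
      · unfold H
        rw [ext_apply' φ σ _ hx]
        by_cases hy : q.2 ∈ Set.range φ
        · obtain ⟨b, hb⟩ := hy
          rw [← hb, ext_apply]
          rcases hφ _ hx with h | h
          · simp [h b, h (σ b)]
          · rw [← hb] at hq
            exact absurd hq (not_lt.2 (h b).le)
        · rw [ext_apply' φ σ _ hy]; simp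
    rw [hH, ite_self]

/-- The slice of `g` at `w`. -/
noncomputable def sl (φ : κ ↪o ι) (w : ι → Lt k l) : W k l ι →ₗ[ℚ] W k l κ where
  toFun g := fun u => g (Function.extend φ u w)
  map_add' _ _ := rfl
  map_smul' _ _ := rfl

theorem sl_apply (φ : κ ↪o ι) (w : ι → Lt k l) (g : W k l ι) (u : κ → Lt k l) :
    sl φ w g u = g (Function.extend φ u w) := rfl

theorem rho_ext {φ : κ ↪o ι} (hφ : Conv φ) (σ : Perm κ) (g : W k l ι) (w : ι → Lt k l) :
    rho k l ι (ext φ σ) g w = rho k l κ σ (sl φ w g) (w ∘ φ) := by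
  rw [rho_apply, rho_apply, eps_ext hφ, sl_apply]
  have h1 : w ∘ ext φ σ = Function.extend φ ((w ∘ φ) ∘ σ) w := by
    funext x
    by_cases hx : x ∈ Set.range φ
    · obtain ⟨a, rfl⟩ := hx
      rw [φ.injective.extend_apply, Function.comp_apply, ext_apply]
      rfl
    · rw [Function.extend_apply' _ _ _ hx, Function.comp_apply, ext_apply' φ σ x hx]
  have h2 : pv (w ∘ ext φ σ) ∘ φ = pv ((w ∘ φ) ∘ σ) := by
    funext a
    simp only [pv, Function.comp_apply, ext_apply]
  rw [h2, h1]

/-- Placement of an element of the group algebra. -/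
noncomputable def pl (φ : κ ↪o ι) :
    MonoidAlgebra ℚ (Perm κ) →ₐ[ℚ] MonoidAlgebra ℚ (Perm ι) :=
  MonoidAlgebra.mapDomainAlgHom ℚ ℚ (ext φ)

theorem pl_of (φ : κ ↪o ι) (σ : Perm κ) :
    pl φ (MonoidAlgebra.of ℚ _ σ) = MonoidAlgebra.of ℚ _ (ext φ σ) := by
  simp [pl]

theorem act_pl {φ : κ ↪o ι} (hφ : Conv φ) (y : MonoidAlgebra ℚ (Perm κ)) (g : W k l ι)
    (w : ι → Lt k l) : act k l ι (pl φ y) g w = act k l κ y (sl φ w g) (w ∘ φ) := by
  induction y using MonoidAlgebra.induction_on with
  | of σ => rw [pl_of, act_of, act_of]; exact rho_ext hφ σ g w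
  | add x y hx hy =>
    rw [map_add, map_add, map_add, LinearMap.add_apply, LinearMap.add_apply, Pi.add_apply,
      Pi.add_apply, hx, hy]
  | smul r x hx =>
    rw [map_smul, map_smul, map_smul, LinearMap.smul_apply, LinearMap.smul_apply, Pi.smul_apply,
      Pi.smul_apply, hx]

end place

section tensor

variable {n m : ℕ}

theorem cast_lt_nat (i : Fin n) (j : Fin m) : Fin.castAdd m i < Fin.natAdd n j := by
  rw [Fin.lt_def]
  simp only [Fin.val_natAdd, Fin.val_castAdd]
  have := i.2; omega

/-- The strands. -/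
def phL (n m : ℕ) : Fin n ↪o Fin (n + m) := Fin.castAddOrderEmb m

/-- The catalyst. -/
def phR (n m : ℕ) : Fin m ↪o Fin (n + m) := Fin.natAddOrderEmb n

/-- Strand `i` and the catalyst. -/
def phi (n m : ℕ) (i : Fin n) : Fin (m + 1) ↪o Fin (n + m) :=
  OrderEmbedding.ofStrictMono (Fin.cons (Fin.castAdd m i) (Fin.natAdd n)) (by
    intro a b hab
    rcases Fin.eq_zero_or_eq_succ a with rfl | ⟨a, rfl⟩ <;>
      rcases Fin.eq_zero_or_eq_succ b with rfl | ⟨b, rfl⟩
    · exact absurd hab (lt_irrefl _)
    · rw [Fin.cons_zero, Fin.cons_succ]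
      exact cast_lt_nat _ _
    · exact absurd hab (Fin.not_lt_zero _)
    · rw [Fin.cons_succ, Fin.cons_succ]
      have : a < b := Fin.succ_lt_succ_iff.1 hab
      rw [Fin.lt_def] at *
      simp only [Fin.val_natAdd]
      omega)

theorem phi_zero (i : Fin n) : phi n m i 0 = Fin.castAdd m i := rfl
theorem phi_succ (i : Fin n) (s : Fin m) : phi n m i s.succ = Fin.natAdd n s := rfl

theorem conv_phL : Conv (phL n m) := by
  intro x hx
  right
  intro a
  rw [Fin.lt_def]
  by_contra h
  apply hx
  have hx1 : x.val < n := by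
    have : (phL n m a).val = a.val := rfl
    have := a.2; omega
  exact ⟨⟨x.val, hx1⟩, Fin.ext rfl⟩

theorem conv_phR : Conv (phR n m) := by
  intro x hx
  left
  intro a
  rw [Fin.lt_def]
  by_contra h
  apply hx
  have h0 : (phR n m a).val = n + a.val := rfl
  have hx1 : x.val - n < m := by have := x.2; omega
  refine ⟨⟨x.val - n, hx1⟩, Fin.ext ?_⟩
  change n + (x.val - n) = x.val
  omega

theorem conv_phi (i : Fin n) (hi : i.val + 1 = n) : Conv (phi n m i) := by
  intro x hx
  left
  intro a
  have hx2 : x.val < i.val := by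
    by_contra h
    apply hx
    by_cases h1 : x.val = i.val
    · exact ⟨0, Fin.ext (by rw [phi_zero]; simp [h1])⟩
    · have hx1 : x.val - n < m := by have := x.2; omega
      refine ⟨(⟨x.val - n, hx1⟩ : Fin m).succ, Fin.ext ?_⟩
      rw [phi_succ]
      simp only [Fin.val_natAdd]
      omega
  rw [Fin.lt_def]
  rcases Fin.eq_zero_or_eq_succ a with rfl | ⟨a, rfl⟩
  · rw [phi_zero]; simpa using hx2
  · rw [phi_succ]; simp only [Fin.val_natAdd]; omega

/-- `e_v ⊗ f`. -/
def tn (v : Fin n → Lt k l) : W k l (Fin m) →ₗ[ℚ] W k l (Fin (n + m)) where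
  toFun f := fun w => if w ∘ phL n m = v then f (w ∘ phR n m) else 0
  map_add' f g := by funext w; simp only [Pi.add_apply]; split_ifs <;> simp
  map_smul' c f := by funext w; simp only [Pi.smul_apply, RingHom.id_apply]; split_ifs <;> simp

theorem tn_apply (v : Fin n → Lt k l) (f : W k l (Fin m)) (w : Fin (n + m) → Lt k l) :
    tn v f w = if w ∘ phL n m = v then f (w ∘ phR n m) else 0 := rfl

theorem phR_notMem (i : Fin n) : phL n m i ∉ Set.range (phR n m) := by
  rintro ⟨s, hs⟩
  have h1 := congrArg Fin.val hs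
  have h2 : (phR n m s).val = n + s.val := rfl
  have h3 : (phL n m i).val = i.val := rfl
  have := i.2; omega

theorem phL_notMem (s : Fin m) : phR n m s ∉ Set.range (phL n m) := by
  rintro ⟨i, hs⟩
  have h1 := congrArg Fin.val hs
  have h2 : (phR n m s).val = n + s.val := rfl
  have h3 : (phL n m i).val = i.val := rfl
  have := i.2; omega

theorem ext_phR_phL (u : Fin m → Lt k l) (w : Fin (n + m) → Lt k l) :
    Function.extend (phR n m) u w ∘ phL n m = w ∘ phL n m := by
  funext i
  rw [Function.comp_apply, Function.extend_apply' _ _ _ (phR_notMem i)]; rfl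

theorem ext_phR_phR (u : Fin m → Lt k l) (w : Fin (n + m) → Lt k l) :
    Function.extend (phR n m) u w ∘ phR n m = u := by
  funext i
  rw [Function.comp_apply, (phR n m).injective.extend_apply]

theorem ext_phL_phR (u : Fin n → Lt k l) (w : Fin (n + m) → Lt k l) :
    Function.extend (phL n m) u w ∘ phR n m = w ∘ phR n m := by
  funext i
  rw [Function.comp_apply, Function.extend_apply' _ _ _ (phL_notMem i)]; rfl

theorem ext_phL_phL (u : Fin n → Lt k l) (w : Fin (n + m) → Lt k l) :
    Function.extend (phL n m) u w ∘ phL n m = u := by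
  funext i
  rw [Function.comp_apply, (phL n m).injective.extend_apply]

theorem act_pl_tn (y : MonoidAlgebra ℚ (Perm (Fin m))) (v : Fin n → Lt k l)
    (f : W k l (Fin m)) : act k l _ (pl (phR n m) y) (tn v f) = tn v (act k l _ y f) := by
  funext w
  rw [act_pl conv_phR, tn_apply]
  have h : sl (phR n m) w (tn v f) = if w ∘ phL n m = v then f else 0 := by
    funext u
    rw [sl_apply, tn_apply, ext_phR_phL, ext_phR_phR]
    split_ifs <;> rfl
  rw [h]
  split_ifs
  · rfl
  · rw [map_zero]; rfl

theorem rho_tn (σ : Perm (Fin n)) (v : Fin n → Lt k l) (f : W k l (Fin m)) :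
    rho k l _ (ext (phL n m) σ) (tn v f) = eps σ (pv v) • tn (v ∘ ⇑σ⁻¹) f := by
  funext w
  rw [rho_ext conv_phL, rho_apply, sl_apply, tn_apply, ext_phL_phL, ext_phL_phR,
    Pi.smul_apply, tn_apply, smul_eq_mul]
  by_cases h : (w ∘ phL n m) ∘ σ = v
  · rw [if_pos h, h, if_pos]
    rw [← h]; funext i; simp
  · rw [if_neg h, if_neg, mul_zero, mul_zero]
    intro h'
    apply h
    rw [h']; funext i; simp

/-- Decomposition into elementary tensors. -/
theorem sum_tn (g : W k l (Fin (n + m))) :
    g = ∑ v : Fin n → Lt k l, tn v (fun u => g (Fin.append v u)) := by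
  classical
  funext w
  rw [Finset.sum_apply, Finset.sum_eq_single (w ∘ phL n m)]
  · rw [tn_apply, if_pos rfl]
    congr 1
    funext x
    refine Fin.addCases (fun i => ?_) (fun i => ?_) x
    · rw [Fin.append_left]; rfl
    · rw [Fin.append_right]; rfl
  · intro v _ hv
    rw [tn_apply, if_neg (fun e => hv e.symm)]
  · intro h; exact absurd (Finset.mem_univ _) h

theorem eop_tnL (a b : Lt k l) (i : Fin n) (v : Fin n → Lt k l) (f : W k l (Fin m)) :
    ∃ (c : ℚ) (v' : Fin n → Lt k l), eop a b (phL n m i) (tn v f) = c • tn v' f := by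
  classical
  by_cases hv : v i = b
  · refine ⟨bsg a b v i, Function.update v i a, ?_⟩
    funext w
    rw [eop_apply, tn_apply, Pi.smul_apply, smul_eq_mul, tn_apply]
    have h1 : Function.update w (phL n m i) b ∘ phL n m = Function.update (w ∘ phL n m) i b := by
      funext j
      by_cases hj : j = i
      · subst hj; simp
      · rw [Function.comp_apply, Function.update_of_ne hj,
          Function.update_of_ne (fun e => hj ((phL n m).injective e))]; rfl
    have h2 : Function.update w (phL n m i) b ∘ phR n m = w ∘ phR n m := by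
      funext j
      rw [Function.comp_apply, Function.update_of_ne]
      · rfl
      · intro e; exact phR_notMem i ⟨j, e⟩
    rw [h1, h2]
    have h3 : (w (phL n m i) = a ∧ Function.update (w ∘ phL n m) i b = v) ↔
        w ∘ phL n m = Function.update v i a := by
      constructor
      · rintro ⟨h4, h5⟩
        rw [← h5, Function.update_idem, ← h4]
        exact (Function.update_eq_self i (w ∘ phL n m)).symm
      · intro h4
        refine ⟨?_, ?_⟩
        · have := congrFun h4 i
          rw [Function.update_self] at this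
          exact this
        · rw [h4, Function.update_idem, ← hv, Function.update_eq_self]
    have h6 : w ∘ phL n m = Function.update v i a → bsg a b w (phL n m i) = bsg a b v i := by
      intro h4
      rw [← bsg_update_same a b a v i, ← h4]
      unfold bsg
      rw [Finset.prod_filter, Finset.prod_filter, Fin.prod_univ_add]
      have h7 : ∏ j : Fin m, (if Fin.natAdd n j < phL n m i then eta a b (w (Fin.natAdd n j))
          else 1) = 1 := by
        refine Finset.prod_eq_one (fun j _ => ?_)
        rw [if_neg]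
        rw [Fin.lt_def]
        have h2 : (phL n m i).val = i.val := rfl
        simp only [Fin.val_natAdd]
        have := i.2; omega
      rw [h7, mul_one]
      refine Finset.prod_congr rfl (fun j _ => ?_)
      rfl
    by_cases h4 : w ∘ phL n m = Function.update v i a
    · have h5 := h3.2 h4
      rw [if_pos h5.1, if_pos h5.2, if_pos h4, h6 h4]
    · rw [if_neg h4, mul_zero]
      by_cases h5 : w (phL n m i) = a
      · rw [if_pos h5, if_neg (fun h6 => h4 (h3.1 ⟨h5, h6⟩)), mul_zero]
      · rw [if_neg h5]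
  · refine ⟨0, v, ?_⟩
    funext w
    rw [eop_apply, tn_apply, zero_smul]
    split_ifs with h1 h2
    · exfalso
      apply hv
      rw [← h2, Function.comp_apply, Function.update_self]
    · rw [mul_zero]; rfl
    · rfl

theorem eop_tnR (a b : Lt k l) (j : Fin m) (v : Fin n → Lt k l) (f : W k l (Fin m)) :
    eop a b (phR n m j) (tn v f) = (∏ i, eta a b (v i)) • tn v (eop a b j f) := by
  classical
  funext w
  rw [eop_apply, tn_apply, Pi.smul_apply, smul_eq_mul, tn_apply, eop_apply]
  have h1 : Function.update w (phR n m j) b ∘ phR n m = Function.update (w ∘ phR n m) j b := by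
    funext i
    by_cases hj : i = j
    · subst hj; simp
    · rw [Function.comp_apply, Function.update_of_ne hj,
        Function.update_of_ne (fun e => hj ((phR n m).injective e))]; rfl
  have h2 : Function.update w (phR n m j) b ∘ phL n m = w ∘ phL n m := by
    funext i
    rw [Function.comp_apply, Function.update_of_ne]
    · rfl
    · intro e; exact phL_notMem j ⟨i, e⟩
  rw [h1, h2]
  by_cases hw : w ∘ phL n m = v
  · rw [if_pos hw, if_pos hw]
    have h3 : bsg a b w (phR n m j) = (∏ i, eta a b (v i)) * bsg a b (w ∘ phR n m) j := by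
      unfold bsg
      rw [Finset.prod_filter, Finset.prod_filter, Fin.prod_univ_add]
      congr 1
      · refine Finset.prod_congr rfl (fun i _ => ?_)
        rw [if_pos, ← hw]
        · rfl
        · exact cast_lt_nat _ _
      · refine Finset.prod_congr rfl (fun i _ => ?_)
        have : Fin.natAdd n i < phR n m j ↔ i < j := (phR n m).lt_iff_lt
        by_cases hij : i < j
        · rw [if_pos hij, if_pos (this.2 hij)]; rfl
        · rw [if_neg hij, if_neg (fun h => hij (this.1 h))]
    rw [h3, Function.comp_apply]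
    split_ifs <;> ring
  · rw [if_neg hw, if_neg hw]
    simp

theorem EE_tn (a b : Lt k l) (v : Fin n → Lt k l) (f : W k l (Fin m)) :
    EE a b (tn v f) = ∑ i, eop a b (phL n m i) (tn v f)
      + (∏ i, eta a b (v i)) • tn v (EE a b f) := by
  unfold EE EB
  rw [LinearMap.sum_apply, LinearMap.sum_apply, map_sum, Finset.smul_sum, Fin.sum_univ_add]
  congr 1
  exact Finset.sum_congr rfl (fun j _ => eop_tnR a b j v f)

/-- The principle, vector form. -/
theorem principle_vec {ξ : W k l (Fin m)} (y : MonoidAlgebra ℚ (Perm (Fin (n + m))))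
    (hy : ∀ v : Fin n → Lt k l, act k l _ y (tn v ξ) = 0) :
    ∀ f ∈ Ux ξ, ∀ v : Fin n → Lt k l, act k l _ y (tn v f) = 0 := by
  let N : Submodule ℚ (W k l (Fin m)) :=
    { carrier := {f | ∀ v : Fin n → Lt k l, act k l _ y (tn v f) = 0}
      add_mem' := by
        intro f g hf hg v
        rw [map_add, map_add, hf v, hg v, add_zero]
      zero_mem' := by
        intro v; rw [map_zero, map_zero]
      smul_mem' := by
        intro c f hf v
        rw [map_smul, map_smul, hf v, smul_zero] }
  have hN : Ux ξ ≤ N := by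
    refine gen_le ?_ ?_
    · rw [Submodule.span_singleton_le_iff_mem]; exact hy
    · rintro T ⟨a, b, rfl⟩ f hf v
      have h1 := congrArg (act k l _ y) (EE_tn a b v f)
      have h2 := LinearMap.congr_fun (act_EE y a b) (tn v f)
      simp only [Module.End.mul_apply] at h2
      rw [h2, hf v, map_zero, map_add, map_sum, map_smul] at h1
      have h3 : ∑ i, act k l _ y (eop a b (phL n m i) (tn v f)) = 0 := by
        refine Finset.sum_eq_zero (fun i _ => ?_)
        obtain ⟨c, v', hc⟩ := eop_tnL (m := m) a b i v f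
        rw [hc, map_smul, hf v', smul_zero]
      rw [h3, zero_add] at h1
      have h4 : (∏ i, eta a b (v i)) * (∏ i, eta a b (v i)) = 1 := by
        rw [← Finset.prod_mul_distrib]
        exact Finset.prod_eq_one (fun i _ => eta_sq _ _ _)
      have h5 := congrArg (fun x => (∏ i, eta a b (v i)) • x) h1
      simp only [smul_smul, h4, one_smul, smul_zero] at h5
      exact h5.symm
  intro f hf
  exact hN hf

/-- The principle. -/
theorem principle {ξ : W k l (Fin m)} {z : MonoidAlgebra ℚ (Perm (Fin m))}
    (hz : ∀ f, act k l _ z f ∈ Ux ξ) (y : MonoidAlgebra ℚ (Perm (Fin (n + m))))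
    (hy : ∀ v : Fin n → Lt k l, act k l _ y (tn v ξ) = 0) :
    act k l _ (y * pl (phR n m) z) = 0 := by
  apply LinearMap.ext; intro g
  rw [map_mul, Module.End.mul_apply, sum_tn g, map_sum, map_sum, LinearMap.zero_apply]
  refine Finset.sum_eq_zero (fun v _ => ?_)
  rw [act_pl_tn]
  exact principle_vec y hy _ (hz _) v

theorem ext_conj {κ ι : Type} [Fintype κ] [LinearOrder κ] [Fintype ι] [LinearOrder ι]
    (φ φ' : κ ↪o ι) (T : Perm ι) (h : ∀ a, T (φ a) = φ' a) (σ : Perm κ) :
    ext φ' σ = T * ext φ σ * T⁻¹ := by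
  apply Equiv.ext
  intro x
  by_cases hx : x ∈ Set.range φ'
  · obtain ⟨a, rfl⟩ := hx
    have h1 : T⁻¹ (φ' a) = φ a := by rw [← h a]; simp
    rw [Perm.mul_apply, Perm.mul_apply, h1, ext_apply, ext_apply, h]
  · have h1 : T⁻¹ x ∉ Set.range φ := by
      rintro ⟨a, ha⟩
      apply hx
      refine ⟨a, ?_⟩
      rw [← h a, ha]; simp
    rw [Perm.mul_apply, Perm.mul_apply, ext_apply' φ' σ x hx, ext_apply' φ σ _ h1]
    simp

theorem pl_conj {κ ι : Type} [Fintype κ] [LinearOrder κ] [Fintype ι] [LinearOrder ι]
    (φ φ' : κ ↪o ι) (T : Perm ι) (h : ∀ a, T (φ a) = φ' a) (y : MonoidAlgebra ℚ (Perm κ)) :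
    pl φ' y = MonoidAlgebra.of ℚ _ T * pl φ y * MonoidAlgebra.of ℚ _ T⁻¹ := by
  induction y using MonoidAlgebra.induction_on with
  | of σ => rw [pl_of, pl_of, ext_conj φ φ' T h σ, map_mul, map_mul]
  | add x y hx hy => rw [map_add, map_add, hx, hy, mul_add, add_mul]
  | smul r x hx => rw [map_smul, map_smul, hx, mul_smul_comm, smul_mul_assoc]

/-- Evaluation of the placed colour element at the last strand. -/
theorem act_phi_last {ξ : W k l (Fin m)} {E : MonoidAlgebra ℚ (Perm (Fin (m + 1)))}
    {e : Lt k l → ℚ} (hE : ∀ c, act k l _ E (ins c ξ) = e c • ins c ξ) (i : Fin n)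
    (hi : i.val + 1 = n) (v : Fin n → Lt k l) :
    act k l _ (pl (phi n m i) E) (tn v ξ) = e (v i) • tn v ξ := by
  funext w
  rw [act_pl (conv_phi i hi)]
  have hne : ∀ j : Fin n, j ≠ i → phL n m j ∉ Set.range (phi n m i) := by
    rintro j hj ⟨x, hx⟩
    rcases Fin.eq_zero_or_eq_succ x with rfl | ⟨x, rfl⟩
    · rw [phi_zero] at hx
      exact hj ((phL n m).injective hx).symm
    · rw [phi_succ] at hx
      exact phR_notMem j ⟨x, hx⟩
  have h : sl (phi n m i) w (tn v ξ)
      = if (∀ j, j ≠ i → w (phL n m j) = v j) then ins (v i) ξ else 0 := by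
    funext u
    rw [sl_apply, tn_apply]
    have h1 : Function.extend (phi n m i) u w ∘ phR n m = Fin.tail u := by
      funext s
      have : phR n m s = phi n m i s.succ := rfl
      rw [Function.comp_apply, this, (phi n m i).injective.extend_apply]; rfl
    have h2 : Function.extend (phi n m i) u w ∘ phL n m = v ↔
        ((∀ j, j ≠ i → w (phL n m j) = v j) ∧ u 0 = v i) := by
      constructor
      · intro h3
        refine ⟨fun j hj => ?_, ?_⟩
        · have := congrFun h3 j
          rw [Function.comp_apply, Function.extend_apply' _ _ _ (hne j hj)] at this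
          exact this
        · have := congrFun h3 i
          have h4 : phL n m i = phi n m i 0 := rfl
          rw [Function.comp_apply, h4, (phi n m i).injective.extend_apply] at this
          exact this
      · rintro ⟨h3, h4⟩
        funext j
        by_cases hj : j = i
        · subst hj
          have h5 : phL n m j = phi n m j 0 := rfl
          rw [Function.comp_apply, h5, (phi n m j).injective.extend_apply, h4]
        · rw [Function.comp_apply, Function.extend_apply' _ _ _ (hne j hj), h3 j hj]
    rw [h1]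
    by_cases h3 : (∀ j, j ≠ i → w (phL n m j) = v j)
    · rw [if_pos h3]
      unfold ins
      by_cases h4 : u 0 = v i
      · rw [if_pos (h2.2 ⟨h3, h4⟩), if_pos h4]
      · rw [if_neg (fun h5 => h4 (h2.1 h5).2), if_neg h4]
    · rw [if_neg h3, if_neg (fun h5 => h3 (h2.1 h5).1)]; rfl
  rw [h, Pi.smul_apply, tn_apply]
  have h6 : (w ∘ phL n m = v) ↔
      ((∀ j, j ≠ i → w (phL n m j) = v j) ∧ w (phL n m i) = v i) := by
    constructor
    · intro h; rw [← h]; exact ⟨fun _ _ => rfl, rfl⟩
    · rintro ⟨h1, h2⟩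
      funext j
      by_cases hj : j = i
      · subst hj; exact h2
      · exact h1 j hj
  by_cases h3 : (∀ j, j ≠ i → w (phL n m j) = v j)
  · rw [if_pos h3, hE, Pi.smul_apply]
    unfold ins
    have h7 : (w ∘ phi n m i) 0 = w (phL n m i) := rfl
    have h8 : Fin.tail (w ∘ phi n m i) = w ∘ phR n m := rfl
    rw [h7, h8]
    by_cases h4 : w (phL n m i) = v i
    · rw [if_pos h4, if_pos (h6.2 ⟨h3, h4⟩)]
    · rw [if_neg h4, if_neg (fun h5 => h4 (h6.1 h5).2)]
  · rw [if_neg h3, if_neg (fun h5 => h3 (h6.1 h5).1), map_zero, smul_zero]; rfl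

/-- Evaluation of the placed colour element at an arbitrary strand. -/
theorem act_phi {ξ : W k l (Fin m)} {E : MonoidAlgebra ℚ (Perm (Fin (m + 1)))}
    {e : Lt k l → ℚ} (hE : ∀ c, act k l _ E (ins c ξ) = e c • ins c ξ) (i : Fin n)
    (v : Fin n → Lt k l) :
    act k l _ (pl (phi n m i) E) (tn v ξ) = e (v i) • tn v ξ := by
  have hn : 0 < n := by have := i.2; omega
  let i0 : Fin n := ⟨n - 1, by omega⟩
  have hi0 : i0.val + 1 = n := by change n - 1 + 1 = n; omega
  let τ : Perm (Fin n) := swap i i0
  let T : Perm (Fin (n + m)) := ext (phL n m) τ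
  have hT : ∀ a, T (phi n m i0 a) = phi n m i a := by
    intro a
    rcases Fin.eq_zero_or_eq_succ a with rfl | ⟨a, rfl⟩
    · have h1 : phi n m i0 0 = phL n m i0 := rfl
      have h2 : phi n m i 0 = phL n m i := rfl
      rw [h1, h2]
      change ext (phL n m) τ (phL n m i0) = _
      rw [ext_apply]
      congr 1
      exact swap_apply_right i i0
    · rw [phi_succ, phi_succ]
      exact ext_apply' _ _ _ (phL_notMem a)
  rw [pl_conj _ _ T hT, map_mul, map_mul, act_of, act_of, Module.End.mul_apply,
    Module.End.mul_apply]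
  have hTi : T⁻¹ = ext (phL n m) τ⁻¹ := by change (ext (phL n m) τ)⁻¹ = _; rw [map_inv]
  have h1 : rho k l _ T⁻¹ (tn v ξ) = eps τ⁻¹ (pv v) • tn (v ∘ τ) ξ := by
    rw [hTi, rho_tn, inv_inv]
  rw [h1, map_smul, act_phi_last hE i0 hi0, smul_comm, map_smul, ← h1]
  have h2 : (v ∘ τ) i0 = v i := by
    change v (swap i i0 i0) = v i
    rw [swap_apply_right]
  rw [h2]
  congr 1
  have h3 : rho k l _ T * rho k l _ T⁻¹ = (1 : Module.End ℚ (W k l (Fin (n + m)))) := by
    rw [← map_mul, mul_inv_cancel, map_one]
  exact LinearMap.congr_fun h3 _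

end tensor

end Pool.PI34.Super
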