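import Pool.Agent.LibPI34.SK4
import Pool.Agent.LibPI34.Super7

/-!
PI34, E-block for odd primes, file SK5 (general coefficients): placements, tensor products,
operators on blocks of strands.
-/

set_option linter.unusedSectionVars false
set_option linter.unusedSimpArgs false
set_option linter.unusedVariables false

namespace Pool.PI34.SK

open Equiv Finset
open Pool.PI34.Super (Lt odd prs mem_prs pv cnt ext ext_apply ext_apply' Conv)

variable {K : Type} [CommRing K] {k l : ℕ}

section place

variable {κ ι : Type} [Fintype κ] [LinearOrder κ] [Fintype ι] [LinearOrder ι]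

theorem eps_ext {φ : κ ↪o ι} (hφ : Conv φ) (σ : Perm κ) (p : ι → Bool) :
    (eps (ext φ σ) p : K) = eps σ (p ∘ φ) := by
  classical
  unfold eps
  let e : κ × κ ↪ ι × ι := φ.toEmbedding.prodMap φ.toEmbedding
  have h1 : ∏ q ∈ prs κ, (if (p ∘ φ) q.1 && (p ∘ φ) q.2 then (H σ q.1 q.2 : K) else 1)
      = ∏ q ∈ (prs κ).map e, (if p q.1 && p q.2 then H (ext φ σ) q.1 q.2 else 1) := by
    rw [Finset.prod_map]
    refine Finset.prod_congr rfl (fun q _ => ?_)
    have h2 : (H (ext φ σ) (φ q.1) (φ q.2) : K) = H σ q.1 q.2 := by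
      unfold H
      simp only [ext_apply, φ.lt_iff_lt]
    change _ = if p (φ q.1) && p (φ q.2) then (H (ext φ σ) (φ q.1) (φ q.2) : K) else 1
    rw [h2]
    rfl
  rw [h1]
  symm
  refine Finset.prod_subset ?_ ?_
  · intro q hq
    rw [Finset.mem_map] at hq
    obtain ⟨q', hq', rfl⟩ := hq
    rw [mem_prs] at *
    exact φ.lt_iff_lt.2 hq'
  · intro q hq hq'
    rw [mem_prs] at hq
    have hH : (H (ext φ σ) q.1 q.2 : K) = 1 := by
      by_cases hx : q.1 ∈ Set.range φ
      · obtain ⟨a, ha⟩ := hx
        have hy : q.2 ∉ Set.range φ := by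
          rintro ⟨b, hb⟩
          apply hq'
          rw [Finset.mem_map]
          refine ⟨(a, b), ?_, Prod.ext ha hb⟩
          rw [mem_prs]
          rw [← ha, ← hb, φ.lt_iff_lt] at hq
          exact hq
        unfold H
        rw [ext_apply' φ σ _ hy, ← ha, ext_apply]
        rcases hφ _ hy with h | h
        · rw [← ha] at hq
          exact absurd hq (not_lt.2 (h a).le)
        · simp [h a, h (σ a)]
      · unfold H
        rw [ext_apply' φ σ _ hx]
        by_cases hy : q.2 ∈ Set.range φ
        · obtain ⟨b, hb⟩ := hy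
          rw [← hb, ext_apply]
          rcases hφ _ hx with h | h
          · simp [h b, h (σ b)]
          · rw [← hb] at hq
            exact absurd hq (not_lt.2 (h b).le)
        · rw [ext_apply' φ σ _ hy]; simp
    rw [hH, ite_self]

/-- The slice of `g` at `w`. -/
noncomputable def sl (φ : κ ↪o ι) (w : ι → Lt k l) : W K k l ι →ₗ[K] W K k l κ where
  toFun g := fun u => g (Function.extend φ u w)
  map_add' _ _ := rfl
  map_smul' _ _ := rfl

theorem sl_apply (φ : κ ↪o ι) (w : ι → Lt k l) (g : W K k l ι) (u : κ → Lt k l) :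
    sl φ w g u = g (Function.extend φ u w) := rfl

theorem rho_ext {φ : κ ↪o ι} (hφ : Conv φ) (σ : Perm κ) (g : W K k l ι) (w : ι → Lt k l) :
    rho K k l ι (ext φ σ) g w = rho K k l κ σ (sl φ w g) (w ∘ φ) := by
  rw [rho_apply, rho_apply, eps_ext hφ, sl_apply]
  have h1 : w ∘ ext φ σ = Function.extend φ ((w ∘ φ) ∘ σ) w := by
    funext x
    by_cases hx : x ∈ Set.range φ
    · obtain ⟨a, rfl⟩ := hx
      rw [φ.injective.extend_apply, Function.comp_apply, ext_apply]
      rfl
    · rw [Function.extend_apply' _ _ _ hx, Function.comp_apply, ext_apply' φ σ x hx]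
  have h2 : pv (w ∘ ext φ σ) ∘ φ = pv ((w ∘ φ) ∘ σ) := by
    funext a
    simp only [pv, Function.comp_apply, ext_apply]
  rw [h2, h1]

/-- Placement of an element of the group algebra. -/
noncomputable def pl (A : Type) [CommRing A] (φ : κ ↪o ι) :
    MonoidAlgebra A (Perm κ) →ₐ[A] MonoidAlgebra A (Perm ι) :=
  MonoidAlgebra.mapDomainAlgHom A A (ext φ)

theorem pl_of {A : Type} [CommRing A] (φ : κ ↪o ι) (σ : Perm κ) :
    pl A φ (MonoidAlgebra.of A _ σ) = MonoidAlgebra.of A _ (ext φ σ) := by
  simp [pl]

theorem pl_single {A : Type} [CommRing A] (φ : κ ↪o ι) (σ : Perm κ) (a : A) :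
    pl A φ (MonoidAlgebra.single σ a) = MonoidAlgebra.single (ext φ σ) a := by
  simp [pl]

theorem act_pl {A : Type} [CommRing A] [Algebra A K] {φ : κ ↪o ι} (hφ : Conv φ)
    (y : MonoidAlgebra A (Perm κ)) (g : W K k l ι) (w : ι → Lt k l) :
    act A K k l ι (pl A φ y) g w = act A K k l κ y (sl φ w g) (w ∘ φ) := by
  induction y using MonoidAlgebra.induction_on with
  | of σ => rw [pl_of, act_of, act_of]; exact rho_ext hφ σ g w
  | add x y hx hy =>
    rw [map_add, map_add, map_add, LinearMap.add_apply, LinearMap.add_apply, Pi.add_apply,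
      Pi.add_apply, hx, hy]
  | smul r x hx =>
    rw [map_smul, act_smul_apply, act_smul_apply, Pi.smul_apply, Pi.smul_apply, hx]

theorem selfAdj_pl {A : Type} [CommRing A] [Algebra A K] {φ : κ ↪o ι} (hφ : Conv φ)
    {y : MonoidAlgebra A (Perm κ)} (hy : SelfAdj A K k l y) : SelfAdj A K k l (pl A φ y) := by
  classical
  intro f g
  -- the words agreeing outside the range of `φ`
  have key : ∀ (y : MonoidAlgebra A (Perm κ)) (f g : W K k l ι),
      (Fintype.card (κ → Lt k l) : K) * 0 = 0 := fun _ _ _ => mul_zero _
  unfold ip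
  have h1 : ∀ (y : MonoidAlgebra A (Perm κ)) (f : W K k l ι) (w : ι → Lt k l),
      act A K k l ι (pl A φ y) f w = act A K k l κ y (sl φ w f) (w ∘ φ) :=
    fun y f w => act_pl hφ y f w
  -- decompose the words
  let e : (ι → Lt k l) ≃ (κ → Lt k l) × ({x : ι // x ∉ Set.range φ} → Lt k l) :=
    { toFun := fun w => (w ∘ φ, fun x => w x.1)
      invFun := fun p => fun x => if h : x ∈ Set.range φ then p.1 h.choose else p.2 ⟨x, h⟩
      left_inv := by
        intro w
        funext x
        by_cases h : x ∈ Set.range φ
        · simp only [h, dif_pos, Function.comp_apply]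
          rw [h.choose_spec]
        · simp only [h, dif_neg, not_false_iff]
      right_inv := by
        rintro ⟨p, q⟩
        refine Prod.ext (funext fun a => ?_) (funext fun x => ?_)
        · have h : φ a ∈ Set.range φ := ⟨a, rfl⟩
          simp only [Function.comp_apply, h, dif_pos]
          congr 1
          exact φ.injective h.choose_spec
        · simp only [x.2, dif_neg, not_false_iff] }
  have h2 : ∀ F : (ι → Lt k l) → K, ∑ w, F w = ∑ q : ({x : ι // x ∉ Set.range φ} → Lt k l),
      ∑ p : κ → Lt k l, F (e.symm (p, q)) := by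
    intro F
    rw [← Equiv.sum_comp e.symm F, Fintype.sum_prod_type, Finset.sum_comm]
  rw [h2, h2]
  refine Finset.sum_congr rfl (fun q _ => ?_)
  have h3 : ∀ p : κ → Lt k l, (e.symm (p, q)) ∘ φ = p := by
    intro p
    have := congrArg Prod.fst (e.apply_symm_apply (p, q))
    exact this
  have h4 : ∀ (f : W K k l ι) (p : κ → Lt k l), sl φ (e.symm (p, q)) f
      = fun u => f (e.symm (u, q)) := by
    intro f p
    funext u
    rw [sl_apply]
    congr 1
    funext x
    by_cases h : x ∈ Set.range φ
    · obtain ⟨a, rfl⟩ := h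
      rw [φ.injective.extend_apply]
      exact (congrFun (h3 u) a).symm
    · rw [Function.extend_apply' _ _ _ h]
      change (if h : x ∈ Set.range φ then p h.choose else q ⟨x, h⟩)
        = if h : x ∈ Set.range φ then u h.choose else q ⟨x, h⟩
      rw [dif_neg h, dif_neg h]
  have h5 := hy (fun u => f (e.symm (u, q))) (fun u => g (e.symm (u, q)))
  unfold ip at h5
  refine Eq.trans (Finset.sum_congr rfl (fun p _ => ?_)) (h5.trans
    (Finset.sum_congr rfl (fun p _ => ?_)))
  · rw [h1, h3, h4]
  · rw [h1, h3, h4]

end place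

section tensor

variable {m m' : ℕ}

/-- The embedding of the strands `1, …, m`. -/
def phS (m : ℕ) : Fin m ↪o Fin (m + 1) := Fin.succOrderEmb m

theorem conv_phS : Conv (phS m) := by
  intro x hx
  left
  intro a
  rcases Fin.eq_zero_or_eq_succ x with rfl | ⟨y, rfl⟩
  · exact Fin.succ_pos a
  · exact absurd ⟨y, rfl⟩ hx

/-- An element placed on the strands `1, …, m` acts on the components. -/
theorem comp_plS {A : Type} [CommRing A] [Algebra A K] (y : MonoidAlgebra A (Perm (Fin m)))
    (u : W K k l (Fin (m + 1))) (c : Lt k l) :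
    comp c (act A K k l _ (pl A (phS m) y) u) = act A K k l _ y (comp c u) := by
  funext w
  rw [comp_apply, act_pl conv_phS]
  have h1 : sl (phS m) (Fin.cons c w : Fin (m + 1) → Lt k l) u = comp c u := by
    funext v
    rw [sl_apply, comp_apply]
    congr 1
    funext x
    rcases Fin.eq_zero_or_eq_succ x with rfl | ⟨y, rfl⟩
    · rw [Function.extend_apply', Fin.cons_zero, Fin.cons_zero]
      rintro ⟨a, ha⟩
      exact Fin.succ_ne_zero a ha
    · have : y.succ = phS m y := rfl
      rw [this, (phS m).injective.extend_apply]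
      change v y = (Fin.cons c v : Fin (m + 1) → Lt k l) y.succ
      rw [Fin.cons_succ]
  rw [h1]
  rfl

/-- Tensor product of functions on words. -/
def tens (f : W K k l (Fin m)) (g : W K k l (Fin m')) : W K k l (Fin (m + m')) :=
  fun w => f (w ∘ Fin.castAdd m') * g (w ∘ Fin.natAdd m)

theorem tens_apply (f : W K k l (Fin m)) (g : W K k l (Fin m')) (w : Fin (m + m') → Lt k l) :
    tens f g w = f (w ∘ Fin.castAdd m') * g (w ∘ Fin.natAdd m) := rfl

theorem tens_add_left (f f' : W K k l (Fin m)) (g : W K k l (Fin m')) :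
    tens (f + f') g = tens f g + tens f' g := by
  funext w; simp only [tens_apply, Pi.add_apply]; ring

theorem tens_add_right (f : W K k l (Fin m)) (g g' : W K k l (Fin m')) :
    tens f (g + g') = tens f g + tens f g' := by
  funext w; simp only [tens_apply, Pi.add_apply]; ring

theorem tens_smul_left (c : K) (f : W K k l (Fin m)) (g : W K k l (Fin m')) :
    tens (c • f) g = c • tens f g := by
  funext w; simp only [tens_apply, Pi.smul_apply, smul_eq_mul]; ring

theorem tens_smul_right (c : K) (f : W K k l (Fin m)) (g : W K k l (Fin m')) :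
    tens f (c • g) = c • tens f g := by
  funext w; simp only [tens_apply, Pi.smul_apply, smul_eq_mul]; ring

theorem tens_zero_left (g : W K k l (Fin m')) : tens (0 : W K k l (Fin m)) g = 0 := by
  funext w; simp [tens_apply]

theorem tens_zero_right (f : W K k l (Fin m)) : tens f (0 : W K k l (Fin m')) = 0 := by
  funext w; simp [tens_apply]

/-- The strands of the first block. -/
def Bl (m m' : ℕ) : Finset (Fin (m + m')) := univ.image (Fin.castAdd m')

/-- The strands of the second block. -/
def Br (m m' : ℕ) : Finset (Fin (m + m')) := univ.image (Fin.natAdd m)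

theorem Blr_disj (m m' : ℕ) : Disjoint (Bl m m') (Br m m') := by
  rw [Finset.disjoint_left]
  intro s h1 h2
  unfold Bl at h1
  unfold Br at h2
  rw [Finset.mem_image] at h1 h2
  obtain ⟨i, _, rfl⟩ := h1
  obtain ⟨j, _, hj⟩ := h2
  have := congrArg Fin.val hj
  simp at this
  have := i.2; omega

theorem Blr_union (m m' : ℕ) : Bl m m' ∪ Br m m' = univ := by
  ext s
  simp only [Finset.mem_union, Finset.mem_univ, iff_true]
  refine Fin.addCases (fun i => ?_) (fun i => ?_) s
  · left; exact Finset.mem_image.2 ⟨i, Finset.mem_univ _, rfl⟩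
  · right; exact Finset.mem_image.2 ⟨i, Finset.mem_univ _, rfl⟩

theorem EB_union {ι : Type*} [Fintype ι] [LinearOrder ι] {B B' : Finset ι} (h : Disjoint B B')
    (a b : Lt k l) : (EB (B ∪ B') a b : Module.End K (W K k l ι)) = EB B a b + EB B' a b := by
  unfold EB
  rw [Finset.sum_union h]

/-- The sign of `E_ab` passing the strands of `f`. -/
def sg (a b : Lt k l) : W K k l (Fin m) →ₗ[K] W K k l (Fin m) where
  toFun f := fun w => (∏ i, eta a b (w i)) * f w
  map_add' f g := by funext w; simp only [Pi.add_apply]; ring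
  map_smul' c f := by funext w; simp only [Pi.smul_apply, smul_eq_mul, RingHom.id_apply]; ring

theorem sg_apply (a b : Lt k l) (f : W K k l (Fin m)) (w : Fin m → Lt k l) :
    sg a b f w = (∏ i, eta a b (w i)) * f w := rfl

theorem sg_sg (a b : Lt k l) (f : W K k l (Fin m)) : sg a b (sg a b f) = f := by
  funext w
  rw [sg_apply, sg_apply, ← mul_assoc, ← Finset.prod_mul_distrib]
  rw [Finset.prod_congr rfl (fun i _ => eta_sq (K := K) a b (w i))]
  simp

theorem sg_same (a b : Lt k l) (h : odd a = odd b) (f : W K k l (Fin m)) : sg a b f = f := by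
  funext w
  rw [sg_apply, Finset.prod_eq_one, one_mul]
  intro i _
  unfold eta
  rw [h]; simp

theorem sg_comm (a b : Lt k l) (f : W K k l (Fin m)) : sg a b f = sg b a f := by
  funext w
  rw [sg_apply, sg_apply]
  congr 1
  exact Finset.prod_congr rfl (fun i _ => eta_comm a b (w i))

theorem sg_mul (a b d : Lt k l) (f : W K k l (Fin m)) : sg a b (sg b d f) = sg a d f := by
  funext w
  rw [sg_apply, sg_apply, sg_apply, ← mul_assoc, ← Finset.prod_mul_distrib]
  congr 1
  exact Finset.prod_congr rfl (fun i _ => eta_mul a b d (w i))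

theorem EB_Bl (a b : Lt k l) (f : W K k l (Fin m)) (g : W K k l (Fin m')) :
    EB (Bl m m') a b (tens f g) = tens (EE a b f) g := by
  classical
  funext w
  unfold EB Bl
  rw [LinearMap.sum_apply, Finset.sum_apply,
    Finset.sum_image (fun x _ y _ h => Fin.castAdd_injective m m' h), tens_apply, EE_apply,
    Finset.sum_mul]
  refine Finset.sum_congr rfl (fun s _ => ?_)
  rw [eop_apply, Function.comp_apply]
  by_cases hs : w (Fin.castAdd m' s) = a
  swap
  · rw [if_neg hs, if_neg hs, zero_mul]
  rw [if_pos hs, if_pos hs, tens_apply]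
  have h1 : Function.update w (Fin.castAdd m' s) b ∘ Fin.castAdd m'
      = Function.update (w ∘ Fin.castAdd m') s b := by
    funext x
    by_cases hx : x = s
    · subst hx; simp
    · rw [Function.comp_apply, Function.update_of_ne hx,
        Function.update_of_ne (fun e => hx (Fin.castAdd_injective m m' e))]; rfl
  have h2 : Function.update w (Fin.castAdd m' s) b ∘ Fin.natAdd m = w ∘ Fin.natAdd m := by
    funext x
    rw [Function.comp_apply, Function.update_of_ne]
    · rfl
    · intro e
      have := congrArg Fin.val e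
      simp at this
      have := s.2; omega
  have h3 : (bsg a b w (Fin.castAdd m' s) : K) = bsg a b (w ∘ Fin.castAdd m') s := by
    unfold bsg
    rw [Finset.prod_filter, Finset.prod_filter, Fin.prod_univ_add]
    have h4 : ∏ j : Fin m', (if Fin.natAdd m j < Fin.castAdd m' s then
        (eta a b (w (Fin.natAdd m j)) : K) else 1) = 1 := by
      refine Finset.prod_eq_one (fun j _ => ?_)
      rw [if_neg]
      rw [Fin.lt_def]
      simp only [Fin.val_natAdd, Fin.val_castAdd]
      have := s.2; omega
    rw [h4, mul_one]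
    refine Finset.prod_congr rfl (fun j _ => ?_)
    rfl
  rw [h1, h2, h3]
  ring

theorem EB_Br (a b : Lt k l) (f : W K k l (Fin m)) (g : W K k l (Fin m')) :
    EB (Br m m') a b (tens f g) = tens (sg a b f) (EE a b g) := by
  classical
  funext w
  unfold EB Br
  rw [LinearMap.sum_apply, Finset.sum_apply,
    Finset.sum_image (fun x _ y _ h => Fin.natAdd_injective m' m h), tens_apply, EE_apply,
    Finset.mul_sum]
  refine Finset.sum_congr rfl (fun s _ => ?_)
  rw [eop_apply, Function.comp_apply, sg_apply]
  by_cases hs : w (Fin.natAdd m s) = a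
  swap
  · rw [if_neg hs, if_neg hs, mul_zero]
  rw [if_pos hs, if_pos hs, tens_apply]
  have h1 : Function.update w (Fin.natAdd m s) b ∘ Fin.natAdd m
      = Function.update (w ∘ Fin.natAdd m) s b := by
    funext x
    by_cases hx : x = s
    · subst hx; simp
    · rw [Function.comp_apply, Function.update_of_ne hx,
        Function.update_of_ne (fun e => hx (Fin.natAdd_injective m' m e))]; rfl
  have h2 : Function.update w (Fin.natAdd m s) b ∘ Fin.castAdd m' = w ∘ Fin.castAdd m' := by
    funext x
    rw [Function.comp_apply, Function.update_of_ne]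
    · rfl
    · intro e
      have := congrArg Fin.val e
      simp at this
      have := x.2; omega
  have h3 : (bsg a b w (Fin.natAdd m s) : K)
      = (∏ i, eta a b ((w ∘ Fin.castAdd m') i)) * bsg a b (w ∘ Fin.natAdd m) s := by
    unfold bsg
    rw [Finset.prod_filter, Finset.prod_filter, Fin.prod_univ_add]
    congr 1
    · refine Finset.prod_congr rfl (fun i _ => ?_)
      rw [if_pos]
      · rfl
      · rw [Fin.lt_def]
        simp only [Fin.val_natAdd, Fin.val_castAdd]
        have := i.2; omega
    · refine Finset.prod_congr rfl (fun i _ => ?_)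
      have : Fin.natAdd m i < Fin.natAdd m s ↔ i < s := by
        rw [Fin.lt_def, Fin.lt_def]; simp
      by_cases hij : i < s
      · rw [if_pos hij, if_pos (this.2 hij)]; rfl
      · rw [if_neg hij, if_neg (fun h => hij (this.1 h))]
  rw [h1, h2, h3]
  ring

/-- `E_ab` on a tensor product. -/
theorem EE_tens (a b : Lt k l) (f : W K k l (Fin m)) (g : W K k l (Fin m')) :
    EE a b (tens f g) = tens (EE a b f) g + tens (sg a b f) (EE a b g) := by
  have h : (EE a b : Module.End K (W K k l (Fin (m + m'))))
      = EB (Bl m m') a b + EB (Br m m') a b := by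
    unfold EE
    rw [← Blr_union m m', EB_union (Blr_disj m m')]
  rw [h, LinearMap.add_apply, EB_Bl, EB_Br]

/-- `v_c ⊗ f`. -/
def ins (c : Lt k l) : W K k l (Fin m) →ₗ[K] W K k l (Fin (m + 1)) where
  toFun f := fun w => if w 0 = c then f (Fin.tail w) else 0
  map_add' f g := by funext w; simp only [Pi.add_apply]; split_ifs <;> simp
  map_smul' a f := by funext w; simp only [Pi.smul_apply, RingHom.id_apply]; split_ifs <;> simp

theorem ins_apply (c : Lt k l) (f : W K k l (Fin m)) (w : Fin (m + 1) → Lt k l) :
    ins c f w = if w 0 = c then f (Fin.tail w) else 0 := rfl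

theorem comp_ins (a c : Lt k l) (f : W K k l (Fin m)) :
    comp c (ins a f) = if c = a then f else 0 := by
  funext w
  rw [comp_apply, ins_apply, Fin.cons_zero, Fin.tail_cons]
  split_ifs <;> rfl

theorem sum_ins (u : W K k l (Fin (m + 1))) : u = ∑ c, ins c (comp c u) := by
  classical
  refine ext_comp (fun c => ?_)
  rw [map_sum]
  simp only [comp_ins]
  rw [Finset.sum_ite_eq univ c, if_pos (Finset.mem_univ c)]

theorem EE_ins (a b c : Lt k l) (f : W K k l (Fin m)) :
    EE a b (ins c f) = (if b = c then ins a f else 0) + (eta a b c : K) • ins c (EE a b f) := by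
  refine ext_comp (fun d => ?_)
  rw [comp_EE, map_add, map_smul, comp_ins, comp_ins, comp_ins]
  congr 1
  · by_cases h1 : b = c
    · rw [if_pos h1, if_pos h1, comp_ins]
    · rw [if_neg h1, if_neg h1, map_zero, ite_self]
  · by_cases h1 : d = c
    · rw [if_pos h1, if_pos h1, h1]
    · rw [if_neg h1, if_neg h1, map_zero, smul_zero, smul_zero]

/-- Strand 0 and the first block. -/
theorem XBl_ins {A : Type} [CommRing A] [Algebra A K] (c : Lt k l) (f : W K k l (Fin m))
    (g : W K k l (Fin m')) :
    act A K k l _ (XB A (Bl m m')) (ins c (tens f g))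
      = ∑ d, (pm c d : K) • ins d (tens (EE c d f) g) := by
  classical
  refine ext_comp (fun d => ?_)
  rw [comp_XB, map_sum]
  simp only [map_smul, comp_ins]
  rw [Finset.sum_eq_single c, if_pos rfl, EB_Bl]
  · rw [Finset.sum_eq_single d, if_pos rfl]
    · intro b _ hb; rw [if_neg (fun e => hb e.symm), smul_zero]
    · intro h; exact absurd (Finset.mem_univ _) h
  · intro b _ hb; rw [if_neg hb, map_zero, smul_zero]
  · intro h; exact absurd (Finset.mem_univ _) h

/-- Strand 0 and the second block. -/
theorem XBr_ins {A : Type} [CommRing A] [Algebra A K] (c : Lt k l) (f : W K k l (Fin m))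
    (g : W K k l (Fin m')) :
    act A K k l _ (XB A (Br m m')) (ins c (tens f g))
      = ∑ d, (pm c d : K) • ins d (tens (sg c d f) (EE c d g)) := by
  classical
  refine ext_comp (fun d => ?_)
  rw [comp_XB, map_sum]
  simp only [map_smul, comp_ins]
  rw [Finset.sum_eq_single c, if_pos rfl, EB_Br]
  · rw [Finset.sum_eq_single d, if_pos rfl]
    · intro b _ hb; rw [if_neg (fun e => hb e.symm), smul_zero]
    · intro h; exact absurd (Finset.mem_univ _) h
  · intro b _ hb; rw [if_neg hb, map_zero, smul_zero]
  · intro h; exact absurd (Finset.mem_univ _) h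

/-- Strand 0 and the whole catalyst. -/
theorem X_ins {A : Type} [CommRing A] [Algebra A K] (c : Lt k l) (f : W K k l (Fin m)) :
    act A K k l _ (XB A univ) (ins c f) = ∑ d, (pm c d : K) • ins d (EE c d f) := by
  classical
  refine ext_comp (fun d => ?_)
  rw [comp_XB, map_sum]
  simp only [map_smul, comp_ins]
  rw [Finset.sum_eq_single c, if_pos rfl]
  · rw [Finset.sum_eq_single d, if_pos rfl]
    · rfl
    · intro b _ hb; rw [if_neg (fun e => hb e.symm), smul_zero]
    · intro h; exact absurd (Finset.mem_univ _) h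
  · intro b _ hb; rw [if_neg hb, map_zero, smul_zero]
  · intro h; exact absurd (Finset.mem_univ _) h

end tensor

end Pool.PI34.SK
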