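import Pool.Agent.LibPI34.SK5

/-!
PI34, E-block for odd primes, file SK6: definitions.
`A` is the ring of `p`-integral rational numbers (class `PInt`), `K` is `ℚ` or `ZMod p`
(structure `Good`).
-/

set_option linter.unusedSectionVars false
set_option linter.unusedVariables false

namespace Pool.PI34.SK

open Equiv Finset Polynomial
open Pool.PI34.Super (Lt odd)

variable {k l : ℕ}

/-- `A` is (isomorphic to) the ring of the rational numbers with denominator prime to `p`. -/
class PInt (p : ℕ) (A : Type) [CommRing A] [Algebra A ℚ] [Algebra A (ZMod p)] : Prop where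
  inj : Function.Injective (algebraMap A ℚ)
  unit : ∀ a : A, algebraMap A (ZMod p) a ≠ 0 → IsUnit a

/-- number of odd letters minus number of even letters smaller than `c` -/
def hgtc (ω : Lt k l → ℕ) (c : Lt k l) : ℤ :=
  ∑ b, if ω b < ω c then (if odd b then 1 else -1) else 0

/-- the content of the box that is added to the counts `n` with the letter `c` -/
def gam (ω : Lt k l → ℕ) (n : Lt k l → ℕ) (c : Lt k l) : ℤ :=
  (if odd c then -(n c : ℤ) else (n c : ℤ)) + hgtc ω c

/-- the order with the even letters first -/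
def std : Lt k l → ℕ := Sum.elim (fun i => i.val) (fun j => k + j.val)

/-- the order with the odd letters first -/
def opp : Lt k l → ℕ := Sum.elim (fun i => l + i.val) (fun j => j.val)

section poly

variable (A : Type) [CommRing A] (p N e : ℕ) (r : ZMod p)

/-- `∏ (t - γ)^e` over the integers `γ ∈ [-N, N]` -/
noncomputable def PP : A[X] := ∏ γ ∈ Finset.Icc (-(N : ℤ)) N, (X - C (γ : A)) ^ e

/-- the factors with `γ = r` in `ZMod p` -/
noncomputable def FF : A[X] :=
  ∏ γ ∈ (Finset.Icc (-(N : ℤ)) N).filter (fun γ => ((γ : ℤ) : ZMod p) = r), (X - C (γ : A)) ^ e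

/-- the factors with `γ ≠ r` in `ZMod p` -/
noncomputable def GG : A[X] :=
  ∏ γ ∈ (Finset.Icc (-(N : ℤ)) N).filter (fun γ => ¬ ((γ : ℤ) : ZMod p) = r), (X - C (γ : A)) ^ e

open Classical in
/-- the projection polynomial: `v * G` where `u * F + v * G = 1` -/
noncomputable def gpol : A[X] :=
  if h : IsCoprime (FF A p N e r) (GG A p N e r) then h.choose_spec.choose * GG A p N e r else 0

end poly

section defs

variable (A : Type) [CommRing A] (p : ℕ) (k l : ℕ)

/-- the projection polynomial for `V ⊗ V^{⊗ m}` -/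
noncomputable def gp (m : ℕ) (r : ZMod p) : A[X] := gpol A p (m + k + l) (k + l) r

/-- the product of the residue projections of the Jucys-Murphy elements -/
noncomputable def zr : (m : ℕ) → (Fin m → ZMod p) → MonoidAlgebra A (Perm (Fin m))
  | 0, _ => 1
  | m + 1, r => aeval (XB A (univ : Finset (Fin m))) (gp A p k l m (r 0)) *
      pl A (phS m) (zr m (Fin.tail r))

variable (K : Type) [CommRing K] [Algebra A K]

/-- what we need of the field `K` (`ℚ` or `ZMod p`) -/
structure Good : Prop where
  hK : ∀ z : ℤ, (z : K) = 0 → (z : ZMod p) = 0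
  hP : ∀ m : ℕ, aeval (act A K k l (Fin (m + 1)) (XB A univ)) (PP A (m + k + l) (k + l)) = 0

variable {p k l} {m : ℕ}

/-- the lattice `M_r` (over `K`) -/
noncomputable def MM (r : Fin m → ZMod p) : Submodule K (W K k l (Fin m)) :=
  LinearMap.range (act A K k l (Fin m) (zr A p k l m r))

/-- `L⁺`: the vectors of `M_r` killed by the operators odd → even -/
noncomputable def Lp (r : Fin m → ZMod p) : Submodule K (W K k l (Fin m)) :=
  MM A K r ⊓ ⨅ (i : Fin k) (j : Fin l), LinearMap.ker (EE (Sum.inl i) (Sum.inr j))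

/-- `L⁻`: the vectors of `M_r` killed by the operators even → odd -/
noncomputable def Lm (r : Fin m → ZMod p) : Submodule K (W K k l (Fin m)) :=
  MM A K r ⊓ ⨅ (i : Fin k) (j : Fin l), LinearMap.ker (EE (Sum.inr j) (Sum.inl i))

end defs

section sets

variable {K : Type} [CommRing K] {m : ℕ}

/-- all `E_ab` -/
def Sall : Set (Module.End K (W K k l (Fin m))) := {T | ∃ a b, T = EE a b}

/-- the `E_ab` with `a, b` of the same parity -/
def S0 : Set (Module.End K (W K k l (Fin m))) := {T | ∃ a b : Lt k l, odd a = odd b ∧ T = EE a b}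

/-- odd → even -/
def Sup : Set (Module.End K (W K k l (Fin m))) :=
  {T | ∃ (i : Fin k) (j : Fin l), T = EE (Sum.inl i) (Sum.inr j)}

/-- even → odd -/
def Sdn : Set (Module.End K (W K k l (Fin m))) :=
  {T | ∃ (i : Fin k) (j : Fin l), T = EE (Sum.inr j) (Sum.inl i)}

end sets

section del

variable (p : ℕ)

/-- the difference function -/
def Del (ω : Lt k l → ℕ) (n : Lt k l → ℕ) (s : ZMod p) : ℤ :=
  ∑ c, if odd c then -(if ((gam ω n c + 1 : ℤ) : ZMod p) = s then 1 else 0)
    else (if ((gam ω n c : ℤ) : ZMod p) = s then 1 else 0)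

/-- the contribution of a residue sequence -/
def Res {m : ℕ} (r : Fin m → ZMod p) (s : ZMod p) : ℤ :=
  ∑ t, ((if r t + 1 = s then 1 else 0) - (if r t = s then 1 else 0))

/-- the residue of the addable even boxes -/
def ra (p k l : ℕ) : ZMod p := (l : ZMod p) - k + 1

/-- the residue of the addable odd boxes -/
def rb (p k l : ℕ) : ZMod p := (l : ZMod p) - k - 1

/-- the weight: a `k × l` rectangle with arms and legs -/
def n0 (p k l : ℕ) : Lt k l → ℕ :=
  Sum.elim (fun i => l + (p - 1) * (k - 1 - i.val)) (fun j => (p - 1) * (l - 1 - j.val))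

/-- the residue property of `M_r` over `K` -/
def HH (A K : Type) [CommRing A] [CommRing K] [Algebra A K] {p : ℕ} (k l : ℕ) {m : ℕ}
    (r : Fin m → ZMod p) : Prop :=
  ∀ u : W K k l (Fin m), act A K k l (Fin m) (zr A p k l m r) u = u →
    ∀ ω : Lt k l → ℕ, (ω = std ∨ ω = opp) → HW ω u → ∀ w, u w ≠ 0 → ∀ c,
      ((gam ω (cts w) c : ℤ) : ZMod p) = if odd c then rb p k l else ra p k l

end del

section cat

/-- A catalyst with several vectors (over `ℚ`). -/
structure CatP (k l m : ℕ) where
  /-- the vectors -/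
  Ξ : Set (W ℚ k l (Fin m))
  /-- the idempotent -/
  z : MonoidAlgebra ℚ (Perm (Fin m))
  /-- the colour element -/
  E : MonoidAlgebra ℚ (Perm (Fin (m + 1)))
  hne : ∃ ξ ∈ Ξ, ξ ≠ 0
  hz1 : ∀ ξ ∈ Ξ, act ℚ ℚ k l _ z ξ = ξ
  hz2 : ∀ f, act ℚ ℚ k l _ z f ∈ gen Sall (Submodule.span ℚ Ξ)
  hE : ∀ ξ ∈ Ξ, ∀ c : Lt k l,
    act ℚ ℚ k l _ E (ins c ξ) = (if odd c then (1 : ℚ) else 0) • ins c ξ

end cat

end Pool.PI34.SK
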