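import Pool.Agent.LibPI34.SK6

/-!
PI34, E-block for odd primes, row SKA: the projection polynomials.
-/

set_option linter.unusedVariables false

namespace Pool.PI34.SK

open Equiv Finset Polynomial

variable {A : Type} [CommRing A] {p N e : ℕ} {r : ZMod p}

/-- `Finset.prod_filter_mul_prod_filter_not` -/
theorem FF_mul_GG : FF A p N e r * GG A p N e r = PP A N e := by
  unfold FF GG PP
  exact Finset.prod_filter_mul_prod_filter_not _ _ _

/-- a nonzero integer in `ZMod p` is a unit in `A` -/
theorem isUnit_intCast_sub [Algebra A ℚ] [Algebra A (ZMod p)] [PInt p A] {γ γ' : ℤ}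
    (h : ((γ : ℤ) : ZMod p) ≠ ((γ' : ℤ) : ZMod p)) : IsUnit ((γ : A) - (γ' : A)) := by
  apply PInt.unit (p := p)
  rw [map_sub, map_intCast, map_intCast]
  exact sub_ne_zero.2 h

/-- two linear factors are coprime -/
theorem isCoprime_lin [Algebra A ℚ] [Algebra A (ZMod p)] [PInt p A] {γ γ' : ℤ}
    (h : ((γ : ℤ) : ZMod p) ≠ ((γ' : ℤ) : ZMod p)) :
    IsCoprime (X - C (γ : A)) (X - C (γ' : A)) :=
  Polynomial.isCoprime_X_sub_C_of_isUnit_sub (isUnit_intCast_sub h)

/-- For integers `γ ≠ γ'` in `ZMod p` the polynomials `X - γ`, `X - γ'` are coprime, because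
`(X - γ') - (X - γ) = γ - γ'` is a unit of `A` (`PInt.unit`; `map_intCast`).  Then
`IsCoprime.prod_left`, `IsCoprime.prod_right`, `IsCoprime.pow`. -/
theorem FG_coprime [Algebra A ℚ] [Algebra A (ZMod p)] [PInt p A] (N e : ℕ) (r : ZMod p) :
    IsCoprime (FF A p N e r) (GG A p N e r) := by
  unfold FF GG
  refine IsCoprime.prod_left fun γ hγ => IsCoprime.prod_right fun γ' hγ' => IsCoprime.pow ?_
  rw [Finset.mem_filter] at hγ hγ'
  apply isCoprime_lin (p := p)
  intro h
  exact hγ'.2 (h ▸ hγ.2)

theorem gpol_spec [Algebra A ℚ] [Algebra A (ZMod p)] [PInt p A] (N e : ℕ) (r : ZMod p) :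
    ∃ u v : A[X], u * FF A p N e r + v * GG A p N e r = 1 ∧
      gpol A p N e r = v * GG A p N e r := by
  classical
  have h := FG_coprime (A := A) (p := p) N e r
  refine ⟨h.choose, h.choose_spec.choose, h.choose_spec.choose_spec, ?_⟩
  unfold gpol
  rw [dif_pos h]

/-- If `γ = r` then `F(γ) = 0` (`e > 0`), so `v G(γ) = 1`; if `γ ≠ r` then `G(γ) = 0`. -/
theorem gpol_eval [Algebra A ℚ] [Algebra A (ZMod p)] [PInt p A] {K : Type} [CommRing K]
    [Algebra A K] (he : 0 < e) (r : ZMod p) (γ : ℤ) (hγ : |γ| ≤ N) :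
    aeval (γ : K) (gpol A p N e r) = if (γ : ZMod p) = r then 1 else 0 := by
  obtain ⟨u, v, huv, hg⟩ := gpol_spec (A := A) (p := p) N e r
  have hmem : γ ∈ Finset.Icc (-(N : ℤ)) N := Finset.mem_Icc.2 (abs_le.1 hγ)
  rw [hg]
  split_ifs with h
  · have hF : aeval (γ : K) (FF A p N e r) = 0 := by
      unfold FF
      rw [map_prod]
      refine Finset.prod_eq_zero (i := γ) (Finset.mem_filter.2 ⟨hmem, h⟩) ?_
      simp [he.ne']
    have := congrArg (aeval (γ : K)) huv
    rw [map_add, map_mul, hF, mul_zero, zero_add, map_one] at this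
    exact this
  · have hG : aeval (γ : K) (GG A p N e r) = 0 := by
      unfold GG
      rw [map_prod]
      refine Finset.prod_eq_zero (i := γ) (Finset.mem_filter.2 ⟨hmem, h⟩) ?_
      simp [he.ne']
    rw [map_mul, hG, mul_zero]

/-- `g² - g = v G (v G - 1) = - v G u F = 0` -/
theorem gpol_idem [Algebra A ℚ] [Algebra A (ZMod p)] [PInt p A] {B : Type*} [Ring B]
    [Algebra A B] (x : B) (hx : aeval x (PP A N e) = 0) (r : ZMod p) :
    aeval x (gpol A p N e r) * aeval x (gpol A p N e r) = aeval x (gpol A p N e r) := by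
  obtain ⟨u, v, huv, hg⟩ := gpol_spec (A := A) (p := p) N e r
  rw [← FF_mul_GG (r := r)] at hx
  have h1 : gpol A p N e r * gpol A p N e r
      = gpol A p N e r - (u * v) * (FF A p N e r * GG A p N e r) := by
    rw [hg]
    have : v * GG A p N e r = 1 - u * FF A p N e r := by rw [← huv]; ring
    calc v * GG A p N e r * (v * GG A p N e r)
        = v * GG A p N e r * (1 - u * FF A p N e r) := by rw [← this]
      _ = _ := by ring
  rw [← map_mul, h1, map_sub, map_mul (aeval x) (u * v), hx, mul_zero, sub_zero]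

/-- For every `r`: `y = (u_r F_r + v_r G_r)(x) y = (u_r F_r)(x) y`, so `y = ∏_r (u_r F_r)(x) y`
and `∏_r F_r = PP` (`Finset.prod_fiberwise`). -/
theorem gpol_total [Fact p.Prime] [Algebra A ℚ] [Algebra A (ZMod p)] [PInt p A] {B : Type*}
    [Ring B] [Algebra A B] {V : Type*} [AddCommGroup V] [Module B V] (x : B)
    (hx : aeval x (PP A N e) = 0) (y : V) (h : ∀ r, aeval x (gpol A p N e r) • y = 0) :
    y = 0 := by
  classical
  choose u v huv hg using fun r => gpol_spec (A := A) (p := p) N e r
  have hr : ∀ r, aeval x (u r * FF A p N e r) • y = y := by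
    intro r
    have h1 := congrArg (fun q => aeval x q • y) (huv r)
    simp only [map_add, map_one, add_smul, one_smul] at h1
    rw [← hg, h r, add_zero] at h1
    exact h1
  have hs : ∀ s : Finset (ZMod p), aeval x (∏ r ∈ s, (u r * FF A p N e r)) • y = y := by
    intro s
    induction s using Finset.induction_on with
    | empty => simp
    | insert a s ha ih => rw [Finset.prod_insert ha, map_mul, mul_smul, ih, hr]
  have hprod : ∏ r : ZMod p, FF A p N e r = PP A N e := by
    unfold FF PP
    exact Finset.prod_fiberwise _ _ _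
  rw [← hs univ, Finset.prod_mul_distrib, hprod, map_mul, hx, mul_zero, zero_smul]

end Pool.PI34.SK
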