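import Pool.Agent.LibPI34.SK6

/-!
PI34, E-block for odd primes, row SKB: top letters of highest weight vectors
(general coefficients; compare the proof of `Super4.tt_inj`).
-/

set_option linter.unusedVariables false

namespace Pool.PI34.SK

open Equiv Finset Polynomial
open Pool.PI34.Super (Lt odd)

variable {K : Type} [CommRing K] {k l m : ℕ}

theorem exists_top (ω : Lt k l → ℕ) {u : W K k l (Fin (m + 1))} (hu : u ≠ 0) :
    ∃ c, comp c u ≠ 0 ∧ ∀ c', ω c < ω c' → comp c' u = 0 := by
  classical
  have h1 : ∃ c, comp c u ≠ 0 := by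
    by_contra hcon
    push Not at hcon
    apply hu
    apply ext_comp
    intro c
    rw [hcon c, map_zero]
  obtain ⟨c0, hc0⟩ := h1
  obtain ⟨c, hc, hmax⟩ := Finset.exists_max_image (univ.filter fun c => comp c u ≠ 0) ω
    ⟨c0, by rw [Finset.mem_filter]; exact ⟨Finset.mem_univ _, hc0⟩⟩
  rw [Finset.mem_filter] at hc
  refine ⟨c, hc.2, fun c' hc' => ?_⟩
  by_contra h2
  have := hmax c' (by rw [Finset.mem_filter]; exact ⟨Finset.mem_univ _, h2⟩)
  omega

/-- `comp_EE` and `hc`; multiply with `eta a b c` (`eta_sq`). -/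
theorem top_HW {ω : Lt k l → ℕ} (hω : Function.Injective ω) {u : W K k l (Fin (m + 1))}
    (hu : HW ω u) (c : Lt k l) (hc : ∀ c', ω c < ω c' → comp c' u = 0) : HW ω (comp c u) := by
  intro a b hab
  have h1 := comp_EE a b c u
  rw [hu a b hab, map_zero] at h1
  have h2 : (if c = a then comp b u else 0 : W K k l (Fin m)) = 0 := by
    split_ifs with h
    · rw [← h] at hab
      exact hc b hab
    · rfl
  rw [h2, zero_add] at h1
  have h3 := congrArg (fun f => (eta a b c : K) • f) h1
  simp only [smul_zero, smul_smul, eta_sq, one_smul] at h3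
  exact h3.symm

/-- `comp_XB`: `comp c' (X u) = ∑ b, pm b c' • EE b c' (comp b u)`; for `ω b > ω c` the term is zero
(`hc`), for `ω b ≤ ω c < ω c'` it is zero because
`0 = comp b (EE b c' u) = comp c' u + eta b c' b • EE b c' (comp b u)` (`comp_EE`, `hu`, `hc`). -/
theorem top_X_above {A : Type} [CommRing A] [Algebra A K] {ω : Lt k l → ℕ}
    (hω : Function.Injective ω) {u : W K k l (Fin (m + 1))}
    (hu : HW ω u) (c : Lt k l) (hc : ∀ c', ω c < ω c' → comp c' u = 0) :
    ∀ c', ω c < ω c' → comp c' (act A K k l _ (XB A univ) u) = 0 := by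
  intro c' hc'
  rw [comp_XB]
  refine Finset.sum_eq_zero fun b _ => ?_
  rcases Nat.lt_or_ge (ω c) (ω b) with h | h
  · rw [hc b h, map_zero, smul_zero]
  · have h1 := comp_EE b c' b u
    rw [hu b c' (by omega), map_zero, if_pos rfl, hc c' hc', zero_add] at h1
    have h3 := congrArg (fun f => (eta b c' b : K) • f) h1
    simp only [smul_zero, smul_smul, eta_sq, one_smul] at h3
    change (pm b c' : K) • EE b c' (comp b u) = 0
    rw [← h3, smul_zero]

/-- `comp c (X u) = ∑ b, pm b c • EE b c (comp b u)`: `b = c` gives `pm c c * n c` (`EE_diag`, `hn`);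
`ω b < ω c`: `0 = comp b (EE b c u) = comp c u + eta b c b • EE b c (comp b u)` and
`pm b c * eta b c b = if odd b then -1 else 1`, so the term is `± comp c u`; `ω c < ω b`: zero. -/
theorem top_X {A : Type} [CommRing A] [Algebra A K] {ω : Lt k l → ℕ}
    (hω : Function.Injective ω) {u : W K k l (Fin (m + 1))}
    (hu : HW ω u) (c : Lt k l) (hc : ∀ c', ω c < ω c' → comp c' u = 0) {n : Lt k l → ℕ}
    (hn : On n (comp c u)) :
    comp c (act A K k l _ (XB A univ) u) = ((gam ω n c : ℤ) : K) • comp c u := by
  classical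
  rw [comp_XB]
  have key : ∀ b ∈ (univ : Finset (Lt k l)), (pm b c : K) • EB univ b c (comp b u) =
      ((((if b = c then (if odd c then -(n c : ℤ) else (n c : ℤ)) else 0) +
        (if ω b < ω c then (if odd b then 1 else -1) else 0) : ℤ)) : K) • comp c u := by
    intro b _
    change (pm b c : K) • EE b c (comp b u) = _
    rcases lt_trichotomy (ω b) (ω c) with h | h | h
    · have hbc : b ≠ c := by
        rintro rfl
        exact lt_irrefl _ h
      rw [if_neg hbc, if_pos h, zero_add]
      have h1 := comp_EE b c b u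
      rw [hu b c h, map_zero, if_pos rfl] at h1
      have h2 : EE b c (comp b u) = -(eta b c b : K) • comp c u := by
        have h3 : comp c u = -((eta b c b : K) • EE b c (comp b u)) :=
          eq_neg_of_add_eq_zero_left h1.symm
        rw [h3, neg_smul, smul_neg, neg_neg, smul_smul, eta_sq, one_smul]
      rw [h2, smul_smul]
      congr 1
      unfold pm eta
      cases odd b <;> cases odd c <;> simp
    · have hbc := hω h
      subst hbc
      rw [if_pos rfl, if_neg (lt_irrefl _), add_zero]
      have h1 : EE b b (comp b u) = (n b : K) • comp b u := by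
        funext w
        rw [EE_diag, Pi.smul_apply, smul_eq_mul]
        by_cases hw : comp b u w = 0
        · rw [hw, mul_zero, mul_zero]
        · have := hn w hw
          rw [← this]
          rfl
      rw [h1, smul_smul]
      congr 1
      unfold pm
      cases odd b <;> simp
    · have hbc : b ≠ c := by
        rintro rfl
        exact lt_irrefl _ h
      rw [if_neg hbc, if_neg (by omega), hc b h, map_zero, smul_zero, add_zero, Int.cast_zero,
        zero_smul]
  rw [Finset.sum_congr rfl key, ← Finset.sum_smul, ← Int.cast_sum, Finset.sum_add_distrib,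
    Finset.sum_ite_eq' univ c, if_pos (Finset.mem_univ c)]
  rfl

/-- Induction on `P` (`Polynomial.induction_on'`, powers of `X` with `top_X_above`, `act_HW`). -/
theorem top_poly {A : Type} [CommRing A] [Algebra A K] {ω : Lt k l → ℕ}
    (hω : Function.Injective ω) {u : W K k l (Fin (m + 1))}
    (hu : HW ω u) (c : Lt k l) (hc : ∀ c', ω c < ω c' → comp c' u = 0) {n : Lt k l → ℕ}
    (hn : On n (comp c u)) (P : A[X]) :
    (∀ c', ω c < ω c' → comp c' (act A K k l _ (aeval (XB A univ) P) u) = 0) ∧
    comp c (act A K k l _ (aeval (XB A univ) P) u)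
      = aeval ((gam ω n c : ℤ) : K) P • comp c u := by
  have hpow : ∀ q : ℕ,
      (∀ c', ω c < ω c' → comp c' (act A K k l _ ((XB A univ) ^ q) u) = 0) ∧
      comp c (act A K k l _ ((XB A univ) ^ q) u) = ((gam ω n c : ℤ) : K) ^ q • comp c u := by
    intro q
    induction q with
    | zero =>
      refine ⟨fun c' hc' => ?_, ?_⟩
      · rw [pow_zero, map_one]
        exact hc c' hc'
      · rw [pow_zero, map_one, pow_zero, one_smul]
        rfl
    | succ q ih =>
      obtain ⟨ih1, ih2⟩ := ih
      have hHW : HW ω (act A K k l _ ((XB A univ) ^ q) u) := act_HW _ hu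
      have e1 : act A K k l _ ((XB A (univ : Finset (Fin m))) ^ (q + 1)) u =
          act A K k l _ (XB A univ) (act A K k l _ ((XB A univ) ^ q) u) := by
        rw [pow_succ', map_mul]
        rfl
      have hon : On n (comp c (act A K k l _ ((XB A univ) ^ q) u)) := by
        rw [ih2]
        intro w hw
        apply hn w
        intro h0
        apply hw
        rw [Pi.smul_apply, h0, smul_zero]
      rw [e1]
      refine ⟨top_X_above hω hHW c ih1, ?_⟩
      rw [top_X hω hHW c ih1 hon, ih2, smul_smul, pow_succ']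
  induction P using Polynomial.induction_on' with
  | add P Q hP hQ =>
    refine ⟨fun c' hc' => ?_, ?_⟩
    · rw [map_add, map_add, LinearMap.add_apply, map_add, hP.1 c' hc', hQ.1 c' hc', add_zero]
    · rw [map_add, map_add, LinearMap.add_apply, map_add, hP.2, hQ.2, map_add, add_smul]
  | monomial q a =>
    have e1 : act A K k l _ (aeval (XB A (univ : Finset (Fin m))) (monomial q a)) u =
        algebraMap A K a • act A K k l _ ((XB A univ) ^ q) u := by
      rw [aeval_monomial, ← Algebra.smul_def, act_smul_apply]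
    obtain ⟨h1, h2⟩ := hpow q
    rw [e1]
    refine ⟨fun c' hc' => ?_, ?_⟩
    · rw [map_smul, h1 c' hc', smul_zero]
    · rw [map_smul, h2, aeval_monomial, smul_smul]

/-- `|gam| ≤ m + k + l` for a word with `m` letters -/
theorem gam_abs (ω : Lt k l → ℕ) (w : Fin m → Lt k l) (c : Lt k l) :
    |gam ω (cts w) c| ≤ ((m + k + l : ℕ) : ℤ) := by
  have h1 : ((cts w c : ℕ) : ℤ) ≤ m := by
    have : cts w c ≤ m := by
      unfold cts Pool.PI34.Super.cnt
      exact (Finset.card_filter_le _ _).trans (by simp)
    exact_mod_cast this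
  have h2 : |hgtc ω c| ≤ ((k + l : ℕ) : ℤ) := by
    unfold hgtc
    refine (Finset.abs_sum_le_sum_abs _ _).trans ?_
    have : ∀ b ∈ (univ : Finset (Lt k l)),
        |(if ω b < ω c then (if odd b then (1 : ℤ) else -1) else 0)| ≤ 1 := by
      intro b _
      split_ifs <;> simp
    refine (Finset.sum_le_sum this).trans ?_
    rw [Finset.sum_const, Finset.card_univ, nsmul_eq_mul, mul_one]
    have : Fintype.card (Lt k l) = k + l := by
      simp [Lt]
    rw [this]
  unfold gam
  have h3 : |(if odd c then -((cts w c : ℕ) : ℤ) else ((cts w c : ℕ) : ℤ))| ≤ m := by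
    split_ifs
    · rw [abs_neg, abs_of_nonneg (by positivity)]
      exact h1
    · rw [abs_of_nonneg (by positivity)]
      exact h1
  refine (abs_add_le _ _).trans ?_
  push_cast at h2 ⊢
  linarith

/-- the counts of `cons c w` -/
theorem cts_cons (c : Lt k l) (w : Fin m → Lt k l) :
    cts (Fin.cons c w : Fin (m + 1) → Lt k l) = cts w + Pi.single c 1 := by
  classical
  funext d
  have h1 : cts (Fin.cons c w : Fin (m + 1) → Lt k l) d = ∑ i, if
      (Fin.cons c w : Fin (m + 1) → Lt k l) i = d then 1 else 0 := by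
    unfold cts Pool.PI34.Super.cnt
    rw [Finset.card_filter]
  have h2 : cts w d = ∑ i, if w i = d then 1 else 0 := by
    unfold cts Pool.PI34.Super.cnt
    rw [Finset.card_filter]
  rw [h1, Fin.sum_univ_succ, Pi.add_apply, h2, Pi.single_apply, add_comm]
  congr 1
  rw [Fin.cons_zero]
  by_cases h : c = d
  · rw [if_pos h, if_pos h.symm]
  · rw [if_neg h, if_neg (Ne.symm h)]

/-- if `u` is on `n` then `comp c u` is on `n - e_c`: for `comp c u ≠ 0` there is `n'` with
`n = n' + e_c` -/
theorem comp_on {u : W K k l (Fin (m + 1))} {n : Lt k l → ℕ} (hu : On n u) (c : Lt k l)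
    (hc : comp c u ≠ 0) : ∃ n', n = n' + Pi.single c 1 ∧ On n' (comp c u) := by
  obtain ⟨w, hw⟩ : ∃ w, comp c u w ≠ 0 := by
    by_contra hcon
    push Not at hcon
    exact hc (funext hcon)
  have h1 := hu _ hw
  rw [cts_cons] at h1
  refine ⟨cts w, h1.symm, fun w' hw' => ?_⟩
  have h2 := hu _ hw'
  rw [cts_cons, ← h1] at h2
  exact add_right_cancel h2

end Pool.PI34.SK
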