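import Pool.Agent.LibPI34.SKA
import Pool.Agent.LibPI34.SKB

/-!
PI34, E-block for odd primes, row SKC: `PP(X) = 0` over `ℚ` and over `ZMod p`.
-/

set_option linter.unusedVariables false

namespace Pool.PI34.SK

open Equiv Finset Polynomial
open Pool.PI34.Super (Lt odd)

variable {k l : ℕ}

theorem std_inj : Function.Injective (std : Lt k l → ℕ) := by
  rintro (i | i) (j | j) h
  · simp only [std, Sum.elim_inl] at h
    rw [Fin.ext h]
  · simp only [std, Sum.elim_inl, Sum.elim_inr] at h
    have := i.2
    omega
  · simp only [std, Sum.elim_inl, Sum.elim_inr] at h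
    have := j.2
    omega
  · simp only [std, Sum.elim_inr] at h
    rw [Fin.ext (show i.val = j.val by omega)]

theorem opp_inj : Function.Injective (opp : Lt k l → ℕ) := by
  rintro (i | i) (j | j) h
  · simp only [opp, Sum.elim_inl] at h
    rw [Fin.ext (show i.val = j.val by omega)]
  · simp only [opp, Sum.elim_inl, Sum.elim_inr] at h
    have := j.2
    omega
  · simp only [opp, Sum.elim_inl, Sum.elim_inr] at h
    have := i.2
    omega
  · simp only [opp, Sum.elim_inr] at h
    rw [Fin.ext h]

theorem std_lt (c : Lt k l) : std c < k + l := by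
  rcases c with i | i
  · have := i.2
    simp only [std, Sum.elim_inl]
    omega
  · have := i.2
    simp only [std, Sum.elim_inr]
    omega

theorem PP_succ (A : Type) [CommRing A] (N q : ℕ) : PP A N (q + 1) = PP A N 1 * PP A N q := by
  unfold PP
  rw [← Finset.prod_mul_distrib]
  refine Finset.prod_congr rfl fun γ _ => ?_
  rw [pow_one, pow_succ']

theorem PX_step {K : Type} [CommRing K] {A : Type} [CommRing A] [Algebra A K] {m : ℕ}
    (N : ℕ) (hN : m + k + l ≤ N) (q : ℕ) : ∀ {u : W K k l (Fin (m + 1))}, HW std u →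
    ∀ {n : Lt k l → ℕ}, On n u → (∀ c : Lt k l, q ≤ std c → comp c u = 0) →
    act A K k l (Fin (m + 1)) (aeval (XB A univ) (PP A N q)) u = 0 := by
  induction q with
  | zero =>
    intro u hu n hn h
    have : u = 0 := ext_comp fun c => by rw [h c (Nat.zero_le _), map_zero]
    rw [this, map_zero]
  | succ q ih =>
    intro u hu n hn h
    by_cases hc : ∀ c : Lt k l, q ≤ std c → comp c u = 0
    · rw [PP_succ, map_mul, map_mul, Module.End.mul_apply, ih hu hn hc, map_zero]
    · push Not at hc
      obtain ⟨c, hc1, hc2⟩ := hc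
      have hcq : std c = q := by
        rcases Nat.lt_or_ge q (std c) with h1 | h1
        · exact absurd (h c h1) hc2
        · exact le_antisymm h1 hc1
      have habove : ∀ c', std c < std c' → comp c' u = 0 := fun c' hc' =>
        h c' (by omega)
      obtain ⟨n', _, hn'⟩ := comp_on hn c hc2
      obtain ⟨w, hw⟩ : ∃ w, comp c u w ≠ 0 := by
        by_contra hcon
        push Not at hcon
        exact hc2 (funext hcon)
      have hγ : |gam std n' c| ≤ ((m + k + l : ℕ) : ℤ) := by
        rw [← hn' w hw]
        exact gam_abs std w c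
      set γ : ℤ := gam std n' c with hγdef
      have hmem : γ ∈ Finset.Icc (-(N : ℤ)) N := by
        rw [Finset.mem_Icc]
        have hNN : ((m + k + l : ℕ) : ℤ) ≤ (N : ℤ) := by exact_mod_cast hN
        exact abs_le.1 (hγ.trans hNN)
      have hP1 : PP A N 1 = (∏ γ' ∈ (Finset.Icc (-(N : ℤ)) N).erase γ, (X - C (γ' : A)) ^ 1) *
          (X - C (γ : A)) := by
        unfold PP
        rw [mul_comm, ← Finset.mul_prod_erase _ _ hmem, pow_one]
      set v := act A K k l (Fin (m + 1)) (aeval (XB A univ) (X - C (γ : A))) u with hv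
      have htop := top_poly (A := A) std_inj hu c habove hn' (X - C (γ : A))
      have hvz : ∀ c' : Lt k l, q ≤ std c' → comp c' v = 0 := by
        intro c' hc'
        rcases Nat.lt_or_ge (std c) (std c') with h1 | h1
        · exact htop.1 c' h1
        · have : c' = c := std_inj (by omega)
          rw [this, hv, htop.2]
          simp [hγdef]
      have hvv := ih (act_HW _ hu) (act_on _ hn) hvz
      rw [PP_succ, hP1]
      rw [show (∏ γ' ∈ (Finset.Icc (-(N : ℤ)) N).erase γ, (X - C (γ' : A)) ^ 1) *
          (X - C (γ : A)) * PP A N q = (∏ γ' ∈ (Finset.Icc (-(N : ℤ)) N).erase γ,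
            (X - C (γ' : A)) ^ 1) * (PP A N q * (X - C (γ : A))) by ring]
      rw [map_mul, map_mul, Module.End.mul_apply, map_mul, map_mul, Module.End.mul_apply]
      rw [← hv, hvv, map_zero]

/-- A highest weight vector `u` of one weight is killed by `PP(X)`.  PROOF.  Claim: if
`comp c u = 0` for all `c` with `std c ≥ q`, then `u` is killed by `PP A N q` evaluated at `X`
(`N = m + k + l`), by induction on `q`.  `q = 0`: `u = 0` (`ext_comp`).  Step `q → q + 1`: let `c` be the
letter with `std c = q` (if `comp c u = 0` use the induction hypothesis and `PP A N (q+1) =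
PP A N 1 * PP A N q`), `γ = gam std n' c` (`comp_on`), `|γ| ≤ N` (`gam_abs`, a word in the support of
`comp c u`); `(X - γ) u` is a highest weight vector of the same weight (`act_HW`, `act_on`) with
`comp c ((X - γ) u) = 0` (`top_X`) and zero components above (`top_X_above`); and
`PP A N (q + 1) = PP A N q * (∏_{γ' ≠ γ} (X - γ')) * (X - γ)`.  The letters have `std c < k + l`. -/
theorem PX_HW {K : Type} [CommRing K] {A : Type} [CommRing A] [Algebra A K] {m : ℕ}
    {u : W K k l (Fin (m + 1))} (hu : HW std u) {n : Lt k l → ℕ} (hn : On n u) :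
    aeval (act A K k l (Fin (m + 1)) (XB A univ)) (PP A (m + k + l) (k + l)) u = 0 := by
  rw [Polynomial.aeval_algHom_apply]
  exact PX_step (m + k + l) le_rfl (k + l) hu hn fun c hc => absurd (std_lt c) (not_lt.2 hc)

/-- Let `T := PP(X)`, an element `act y` (`y := aeval (XB A univ) PP`, `Polynomial.aeval_algHom_apply`),
`N := range T`: graded (`act_wproj`), stable under all `EE` (`act_EE`).  If `N ≠ ⊥` take `v` from
`exists_HW std`, `T v = 0` by `PX_HW`, `v = T x`, and `ip v v = ip (T x) v = ip x (T v) = 0`
(`SelfAdj.aeval`, `selfAdj_XB`), so `v = 0` (sum of squares over `ℚ`).  Contradiction. -/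
theorem PX_rat (A : Type) [CommRing A] [Algebra A ℚ] (k l m : ℕ) :
    aeval (act A ℚ k l (Fin (m + 1)) (XB A univ)) (PP A (m + k + l) (k + l)) = 0 := by
  rw [Polynomial.aeval_algHom_apply]
  set y := aeval (XB A (univ : Finset (Fin m))) (PP A (m + k + l) (k + l)) with hy
  set T := act A ℚ k l (Fin (m + 1)) y with hT
  rw [← LinearMap.range_eq_bot]
  by_contra hne
  have hg : Graded (LinearMap.range T) := by
    rintro n _ ⟨x, rfl⟩
    exact ⟨wproj n x, act_wproj y n x⟩
  have hst : ∀ a b : Lt k l, std a < std b → ∀ v ∈ LinearMap.range T,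
      EE a b v ∈ LinearMap.range T := by
    rintro a b _ _ ⟨x, rfl⟩
    refine ⟨EE a b x, ?_⟩
    have h := LinearMap.congr_fun (act_EE y a b) x
    simpa only [Module.End.mul_apply] using h
  obtain ⟨v, ⟨x, hx⟩, hv0, hvHW, n, hn⟩ := exists_HW std hg hst hne
  have hTv : T v = 0 := by
    have h := PX_HW (A := A) hvHW hn
    rw [Polynomial.aeval_algHom_apply] at h
    exact h
  have hsa : SelfAdj A ℚ k l y := (selfAdj_XB univ).aeval _
  have h1 : ip v v = 0 := by
    have h2 := hsa x v
    rw [← hT, hx, hTv, ip_zero_right] at h2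
    exact h2
  apply hv0
  funext w
  have h3 := (Finset.sum_eq_zero_iff_of_nonneg (fun w _ => mul_self_nonneg (v w))).1 h1 w
    (Finset.mem_univ w)
  exact mul_self_eq_zero.1 h3

/-- `act_bc`: over `A` the element acts by zero, because `A → ℚ` is injective; every function with values
in `ZMod p` is the image of a function with values in `A` (`ZMod p` consists of images of natural
numbers). -/
theorem PX_mod (p : ℕ) [Fact p.Prime] (A : Type) [CommRing A] [Algebra A ℚ] [Algebra A (ZMod p)]
    [PInt p A] (k l m : ℕ) :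
    aeval (act A (ZMod p) k l (Fin (m + 1)) (XB A univ)) (PP A (m + k + l) (k + l)) = 0 := by
  have hQ := PX_rat A k l m
  rw [Polynomial.aeval_algHom_apply] at hQ ⊢
  set y := aeval (XB A (univ : Finset (Fin m))) (PP A (m + k + l) (k + l)) with hy
  have hA : ∀ f : W A k l (Fin (m + 1)), act A A k l (Fin (m + 1)) y f = 0 := by
    intro f
    have h1 := act_bc (K := ℚ) y f
    rw [hQ, LinearMap.zero_apply] at h1
    funext w
    apply PInt.inj (p := p) (A := A)
    have h2 := congrFun h1 w
    change algebraMap A ℚ (act A A k l (Fin (m + 1)) y f w) = algebraMap A ℚ 0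
    rw [map_zero]
    exact h2.symm
  apply LinearMap.ext
  intro f
  have hf : bc A (ZMod p) (fun w => (((f w).val : ℕ) : A)) = f := by
    funext w
    change algebraMap A (ZMod p) (((f w).val : ℕ) : A) = f w
    rw [map_natCast, ZMod.natCast_zmod_val]
  rw [← hf, act_bc, hA]
  funext w
  change algebraMap A (ZMod p) 0 = 0
  rw [map_zero]

theorem good_rat (p : ℕ) [Fact p.Prime] (A : Type) [CommRing A] [Algebra A ℚ] (k l : ℕ) :
    Good A p k l ℚ :=
  ⟨fun z hz => by
    have : z = 0 := by exact_mod_cast hz
    rw [this, Int.cast_zero], PX_rat A k l⟩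

theorem good_mod (p : ℕ) [Fact p.Prime] (A : Type) [CommRing A] [Algebra A ℚ]
    [Algebra A (ZMod p)] [PInt p A] (k l : ℕ) : Good A p k l (ZMod p) :=
  ⟨fun z hz => hz, PX_mod p A k l⟩

end Pool.PI34.SK
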