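import Pool.Agent.LibPI34.SKC

/-!
PI34, E-block for odd primes, row SKD: the elements `zr` and the spaces `MM`.
-/

set_option linter.unusedVariables false

namespace Pool.PI34.SK

open Equiv Finset Polynomial
open Pool.PI34.Super (Lt odd ext ext_apply ext_apply')

variable {k l : ℕ}

/-- Conjugation by a permutation of the strands `1, …, m` permutes the transpositions `(0 s)`. -/
theorem plS_comm_X {A : Type} [CommRing A] {m : ℕ} (y : MonoidAlgebra A (Perm (Fin m))) :
    pl A (phS m) y * XB A univ = XB A univ * pl A (phS m) y := by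
  induction y using MonoidAlgebra.induction_on with
  | of σ =>
    rw [pl_of]
    unfold XB
    rw [Finset.mul_sum, Finset.sum_mul]
    have h0 : ext (phS m) σ 0 = 0 := ext_apply' (phS m) σ 0 (by
      rintro ⟨a, ha⟩
      exact Fin.succ_ne_zero a ha)
    have h1 : ∀ s : Fin m, MonoidAlgebra.of A _ (ext (phS m) σ) *
        MonoidAlgebra.of A _ (swap (0 : Fin (m + 1)) s.succ) =
        MonoidAlgebra.of A _ (swap (0 : Fin (m + 1)) (σ s).succ) *
          MonoidAlgebra.of A _ (ext (phS m) σ) := by
      intro s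
      rw [← map_mul, ← map_mul, Equiv.mul_swap_eq_swap_mul, h0]
      have h2 : ext (phS m) σ s.succ = (σ s).succ := ext_apply (phS m) σ s
      rw [h2]
    rw [Finset.sum_congr rfl fun s _ => h1 s]
    exact Equiv.sum_comp σ (fun s => MonoidAlgebra.of A _ (swap (0 : Fin (m + 1)) s.succ) *
      MonoidAlgebra.of A _ (ext (phS m) σ))
  | add x y hx hy => rw [map_add, add_mul, mul_add, hx, hy]
  | smul r x hx => rw [map_smul, smul_mul_assoc, hx, mul_smul_comm]

theorem plS_comm_aeval {A : Type} [CommRing A] {m : ℕ} (y : MonoidAlgebra A (Perm (Fin m)))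
    (P : A[X]) :
    pl A (phS m) y * aeval (XB A (univ : Finset (Fin m))) P
      = aeval (XB A univ) P * pl A (phS m) y := by
  induction P using Polynomial.induction_on' with
  | add P Q hP hQ => rw [map_add, mul_add, add_mul, hP, hQ]
  | monomial n a =>
    rw [Polynomial.aeval_monomial, ← Algebra.smul_def, mul_smul_comm, smul_mul_assoc]
    have h : Commute (pl A (phS m) y) (XB A univ) := plS_comm_X y
    rw [(h.pow_right n).eq]

section

variable {A K : Type} [CommRing A] [CommRing K] [Algebra A K] {p : ℕ} {m : ℕ}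

theorem zr_succ' (r : Fin (m + 1) → ZMod p) : zr A p k l (m + 1) r =
    aeval (XB A (univ : Finset (Fin m))) (gp A p k l m (r 0)) *
      pl A (phS m) (zr A p k l m (Fin.tail r)) := rfl

theorem zr_succ'' (r : Fin (m + 1) → ZMod p) : zr A p k l (m + 1) r =
    pl A (phS m) (zr A p k l m (Fin.tail r)) *
      aeval (XB A (univ : Finset (Fin m))) (gp A p k l m (r 0)) := by
  rw [zr_succ', plS_comm_aeval]

/-- `selfAdj_XB`, `SelfAdj.aeval`, `selfAdj_pl conv_phS`, `SelfAdj.mul` with `plS_comm_aeval`. -/
theorem zr_selfAdj (r : Fin m → ZMod p) : SelfAdj A K k l (zr A p k l m r) := by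
  induction m with
  | zero => exact selfAdj_one
  | succ m ih =>
    rw [zr_succ']
    exact ((selfAdj_XB univ).aeval _).mul (selfAdj_pl conv_phS (ih _))
      (plS_comm_aeval _ _).symm

theorem gX_idem [Algebra A ℚ] [Algebra A (ZMod p)] [PInt p A] (hg : Good A p k l K)
    (r : ZMod p) (u : W K k l (Fin (m + 1))) :
    act A K k l _ (aeval (XB A univ) (gp A p k l m r))
      (act A K k l _ (aeval (XB A univ) (gp A p k l m r)) u) =
      act A K k l _ (aeval (XB A univ) (gp A p k l m r)) u := by
  have h := gpol_idem (act A K k l (Fin (m + 1)) (XB A univ)) (hg.hP m) r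
  rw [Polynomial.aeval_algHom_apply] at h
  exact LinearMap.congr_fun h u

/-- Induction on `m`: `gpol_idem` for `B = Module.End K _` (`Polynomial.aeval_algHom_apply`), `comp_plS`,
`plS_comm_aeval`. -/
theorem zr_idem [Algebra A ℚ] [Algebra A (ZMod p)] [PInt p A] (hg : Good A p k l K)
    (r : Fin m → ZMod p) (u : W K k l (Fin m)) :
    act A K k l _ (zr A p k l m r) (act A K k l _ (zr A p k l m r) u)
      = act A K k l _ (zr A p k l m r) u := by
  induction m with
  | zero =>
    have h1 : zr A p k l 0 r = 1 := rfl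
    rw [h1, map_one]
    rfl
  | succ m ih =>
    have hP : ∀ u, act A K k l _ (pl A (phS m) (zr A p k l m (Fin.tail r)))
        (act A K k l _ (pl A (phS m) (zr A p k l m (Fin.tail r))) u) =
        act A K k l _ (pl A (phS m) (zr A p k l m (Fin.tail r))) u := by
      intro u
      refine ext_comp fun c => ?_
      rw [comp_plS, comp_plS, ih]
    have h1 : ∀ v, act A K k l _ (zr A p k l (m + 1) r) v =
        act A K k l _ (aeval (XB A univ) (gp A p k l m (r 0)))
          (act A K k l _ (pl A (phS m) (zr A p k l m (Fin.tail r))) v) := by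
      intro v
      rw [zr_succ', map_mul, Module.End.mul_apply]
    have h2 : ∀ v, act A K k l _ (zr A p k l (m + 1) r) v =
        act A K k l _ (pl A (phS m) (zr A p k l m (Fin.tail r)))
          (act A K k l _ (aeval (XB A univ) (gp A p k l m (r 0))) v) := by
      intro v
      rw [zr_succ'', map_mul, Module.End.mul_apply]
    rw [h2, h1 u, gX_idem hg, ← h1 u, h2 u, hP]

theorem mem_MM [Algebra A ℚ] [Algebra A (ZMod p)] [PInt p A] (hg : Good A p k l K)
    (r : Fin m → ZMod p) (u : W K k l (Fin m)) :
    u ∈ MM A K r ↔ act A K k l _ (zr A p k l m r) u = u := by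
  constructor
  · rintro ⟨x, rfl⟩
    exact zr_idem hg r x
  · intro h
    exact ⟨u, h⟩

/-- `act_EE` -/
theorem MM_EE (r : Fin m → ZMod p) (a b : Lt k l) {u : W K k l (Fin m)} (hu : u ∈ MM A K r) :
    EE a b u ∈ MM A K r := by
  obtain ⟨x, rfl⟩ := hu
  refine ⟨EE a b x, ?_⟩
  have h := LinearMap.congr_fun (act_EE (zr A p k l m r) a b) x
  simpa only [Module.End.mul_apply] using h

/-- `act_wproj` -/
theorem MM_graded (r : Fin m → ZMod p) : Graded (MM (k := k) (l := l) A K r) := by
  rintro n _ ⟨x, rfl⟩
  exact ⟨wproj n x, act_wproj _ n x⟩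

/-- `act y` commutes with `sg a b`, because a permutation does not change the number of odd letters. -/
theorem act_sg (y : MonoidAlgebra A (Perm (Fin m))) (a b : Lt k l) (u : W K k l (Fin m)) :
    act A K k l _ y (sg a b u) = sg a b (act A K k l _ y u) := by
  induction y using MonoidAlgebra.induction_on with
  | of σ =>
    rw [act_of]
    funext w
    rw [rho_apply, sg_apply, sg_apply, rho_apply]
    have h := Equiv.prod_comp σ (fun i => (eta a b (w i) : K))
    have h2 : ∏ i, (eta a b ((w ∘ σ) i) : K) = ∏ i, eta a b (w i) := h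
    rw [h2]
    ring
  | add x y hx hy =>
    rw [map_add, LinearMap.add_apply, LinearMap.add_apply, map_add, hx, hy]
  | smul r x hx =>
    rw [act_smul_apply, act_smul_apply, map_smul, hx]

theorem MM_sg (r : Fin m → ZMod p) (a b : Lt k l) {u : W K k l (Fin m)} (hu : u ∈ MM A K r) :
    sg a b u ∈ MM A K r := by
  obtain ⟨x, rfl⟩ := hu
  exact ⟨sg a b x, act_sg _ a b x⟩

/-- `zr (m+1) r = g(X) * plS (zr m (tail r))`, the factors are commuting idempotents on `W`. -/
theorem zr_succ_mem [Algebra A ℚ] [Algebra A (ZMod p)] [PInt p A] (hg : Good A p k l K)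
    (r : Fin (m + 1) → ZMod p) {u : W K k l (Fin (m + 1))} (hu : u ∈ MM A K r) :
    act A K k l _ (aeval (XB A univ) (gp A p k l m (r 0))) u = u ∧
      ∀ c, comp c u ∈ MM A K (Fin.tail r) := by
  have h := (mem_MM hg r u).1 hu
  constructor
  · rw [zr_succ', map_mul, Module.End.mul_apply] at h
    rw [← h, gX_idem hg]
  · intro c
    rw [mem_MM hg]
    rw [zr_succ'', map_mul, Module.End.mul_apply] at h
    rw [← h, comp_plS, zr_idem hg]

end

/-- Every nonzero `u` has a nonzero projection for some residue sequence.  Induction on `m`: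
`gpol_total` gives `r0` with `u' := g_{r0}(X) u ≠ 0`, some `comp c u' ≠ 0` (`ext_comp`), the induction
hypothesis gives `r'` with `zr r' (comp c u') ≠ 0`; `comp_plS` and `plS_comm_aeval`:
`comp c (zr (cons r0 r') u) = zr r' (comp c u')`. -/
theorem exists_res {A K : Type} [CommRing A] [CommRing K] [Algebra A K] {p : ℕ} [Fact p.Prime]
    [Algebra A ℚ] [Algebra A (ZMod p)] [PInt p A] (hg : Good A p k l K) {m : ℕ}
    {u : W K k l (Fin m)} (hu : u ≠ 0) :
    ∃ r : Fin m → ZMod p, act A K k l _ (zr A p k l m r) u ≠ 0 := by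
  induction m with
  | zero =>
    refine ⟨Fin.elim0, ?_⟩
    have h1 : zr A p k l 0 Fin.elim0 = 1 := rfl
    rw [h1, map_one]
    exact hu
  | succ m ih =>
    have h0 : ∃ r0 : ZMod p, act A K k l _ (aeval (XB A univ) (gp A p k l m r0)) u ≠ 0 := by
      by_contra hcon
      push Not at hcon
      apply hu
      refine gpol_total (p := p) (act A K k l (Fin (m + 1)) (XB A univ)) (hg.hP m) u
        fun r => ?_
      rw [Polynomial.aeval_algHom_apply]
      exact hcon r
    obtain ⟨r0, h1⟩ := h0
    obtain ⟨c, hc⟩ : ∃ c, comp c (act A K k l _ (aeval (XB A univ) (gp A p k l m r0)) u) ≠ 0 := by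
      by_contra hcon
      push Not at hcon
      exact h1 (ext_comp fun c => by rw [hcon c, map_zero])
    obtain ⟨r', hr'⟩ := ih hc
    refine ⟨Fin.cons r0 r', fun h => hr' ?_⟩
    have h2 : zr A p k l (m + 1) (Fin.cons r0 r') = pl A (phS m) (zr A p k l m r') *
        aeval (XB A (univ : Finset (Fin m))) (gp A p k l m r0) := by
      rw [zr_succ'', Fin.tail_cons, Fin.cons_zero]
    rw [h2, map_mul, Module.End.mul_apply] at h
    rw [← comp_plS, h, map_zero]

end Pool.PI34.SK
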