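import Pool.Agent.LibPI34.SKD

/-!
PI34, E-block for odd primes, row SKE: the difference function (integer combinatorics).
-/

set_option linter.unusedVariables false

namespace Pool.PI34.SK

open Equiv Finset
open Pool.PI34.Super (Lt odd)

variable {p k l : ℕ}

/-- `gam` changes only at `c`, by `+1` (`c` even) or `-1` (`c` odd). -/
theorem Del_add (ω n : Lt k l → ℕ) (c : Lt k l) (s : ZMod p) :
    Del p ω (n + Pi.single c 1) s = Del p ω n s +
      ((if ((gam ω n c : ℤ) : ZMod p) + 1 = s then 1 else 0)
        - (if ((gam ω n c : ℤ) : ZMod p) = s then 1 else 0)) := by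
  classical
  have hg : ∀ d, d ≠ c → gam ω (n + Pi.single c 1) d = gam ω n d := by
    intro d hd
    unfold gam
    rw [Pi.add_apply, Pi.single_eq_of_ne hd, add_zero]
  have hc : gam ω (n + Pi.single c 1) c = gam ω n c + (if odd c then -1 else 1) := by
    unfold gam
    rw [Pi.add_apply, Pi.single_eq_same]
    split_ifs <;> push_cast <;> ring
  unfold Del
  rw [← Finset.add_sum_erase _ _ (Finset.mem_univ c), ← Finset.add_sum_erase (f := fun c =>
    if odd c then -(if ((gam ω n c + 1 : ℤ) : ZMod p) = s then 1 else 0)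
      else (if ((gam ω n c : ℤ) : ZMod p) = s then 1 else 0)) _ (Finset.mem_univ c)]
  have h1 : ∀ d ∈ univ.erase c,
      (if odd d then -(if ((gam ω (n + Pi.single c 1) d + 1 : ℤ) : ZMod p) = s then (1 : ℤ) else 0)
        else (if ((gam ω (n + Pi.single c 1) d : ℤ) : ZMod p) = s then 1 else 0))
      = (if odd d then -(if ((gam ω n d + 1 : ℤ) : ZMod p) = s then 1 else 0)
        else (if ((gam ω n d : ℤ) : ZMod p) = s then 1 else 0)) := by
    intro d hd
    rw [hg d (Finset.ne_of_mem_erase hd)]
  rw [Finset.sum_congr rfl h1, hc]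
  by_cases ho : odd c = true
  · simp only [ho, if_true]
    have e1 : gam ω n c + -1 + 1 = gam ω n c := by ring
    rw [e1]
    push_cast
    ring
  · simp only [ho, if_false, Bool.false_eq_true]
    push_cast
    ring

theorem exists_prim (f : ℤ → ℤ) : ∃ g : ℤ → ℤ, ∀ h, g (h + 1) - g h = f h := by
  refine ⟨fun h => ∑ t ∈ Finset.Ico 0 h, f t - ∑ t ∈ Finset.Ico h 0, f t, fun h => ?_⟩
  rcases le_or_gt 0 h with h0 | h0
  · have e1 : Finset.Ico 0 (h + 1) = insert h (Finset.Ico 0 h) := by
      ext x; simp only [Finset.mem_Ico, Finset.mem_insert]; omega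
    have e2 : Finset.Ico (h + 1) 0 = ∅ := Finset.Ico_eq_empty (by omega)
    have e3 : Finset.Ico h 0 = ∅ := Finset.Ico_eq_empty (by omega)
    simp only [e1, e2, e3]
    rw [Finset.sum_insert (by simp)]
    simp
  · have e1 : Finset.Ico h 0 = insert h (Finset.Ico (h + 1) 0) := by
      ext x; simp only [Finset.mem_Ico, Finset.mem_insert]; omega
    have e2 : Finset.Ico 0 (h + 1) = ∅ := Finset.Ico_eq_empty (by omega)
    have e3 : Finset.Ico 0 h = ∅ := Finset.Ico_eq_empty (by omega)
    simp only [e1, e2, e3]
    rw [Finset.sum_insert (by simp)]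
    simp

/-- the signs of the letters -/
def sgl (c : Lt k l) : ℤ := if odd c then 1 else -1

theorem gam_zero (ω : Lt k l → ℕ) (c : Lt k l) :
    gam ω 0 c = ∑ b ∈ univ.filter (fun b => ω b < ω c), sgl b := by
  unfold gam hgtc
  rw [Finset.sum_filter]
  simp only [Pi.zero_apply, Nat.cast_zero, neg_zero, ite_self, zero_add]
  rfl

theorem Del_zero_aux {ω : Lt k l → ℕ} (hω : Function.Injective ω) (s : ZMod p) (g : ℤ → ℤ)
    (hg : ∀ h : ℤ, g (h + 1) - g h = -(if ((h + 1 : ℤ) : ZMod p) = s then 1 else 0)) (q : ℕ) :
    ∑ c ∈ univ.filter (fun c => ω c < q),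
      (if odd c then -(if ((gam ω 0 c + 1 : ℤ) : ZMod p) = s then (1 : ℤ) else 0)
        else (if ((gam ω 0 c : ℤ) : ZMod p) = s then 1 else 0))
      = g (∑ c ∈ univ.filter (fun c => ω c < q), sgl c) - g 0 := by
  classical
  induction q with
  | zero => simp
  | succ q ih =>
    by_cases h : ∃ c, ω c = q
    · obtain ⟨c, hc⟩ := h
      have e : univ.filter (fun c => ω c < q + 1) = insert c (univ.filter (fun c => ω c < q)) := by
        ext d
        simp only [Finset.mem_filter, Finset.mem_univ, true_and, Finset.mem_insert]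
        constructor
        · intro hd
          rcases Nat.lt_succ_iff_lt_or_eq.1 hd with h1 | h1
          · exact Or.inr h1
          · exact Or.inl (hω (h1.trans hc.symm))
        · rintro (rfl | h1)
          · omega
          · omega
      have hni : c ∉ univ.filter (fun c => ω c < q) := by simp [hc]
      rw [e, Finset.sum_insert hni, Finset.sum_insert hni, ih]
      have hD : gam ω 0 c = ∑ b ∈ univ.filter (fun b => ω b < q), sgl b := by
        rw [gam_zero, hc]
      rw [← hD]
      by_cases ho : odd c = true
      · have h1 := hg (gam ω 0 c)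
        have h2 : sgl c = 1 := by unfold sgl; rw [if_pos ho]
        rw [if_pos ho, h2, add_comm (1 : ℤ)]
        linarith
      · have h1 := hg (gam ω 0 c - 1)
        have h2 : sgl c = -1 := by unfold sgl; rw [if_neg ho]
        rw [sub_add_cancel] at h1
        have h3 : -1 + gam ω 0 c = gam ω 0 c - 1 := by ring
        rw [if_neg ho, h2, h3]
        linarith
    · have e : univ.filter (fun c => ω c < q + 1) = univ.filter (fun c => ω c < q) := by
        ext d
        simp only [Finset.mem_filter, Finset.mem_univ, true_and]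
        constructor
        · intro hd
          rcases Nat.lt_succ_iff_lt_or_eq.1 hd with h1 | h1
          · exact h1
          · exact absurd ⟨d, h1⟩ h
        · intro hd; omega
      rw [e, ih]

theorem Del_zero_eq {ω : Lt k l → ℕ} (hω : Function.Injective ω) (s : ZMod p) (g : ℤ → ℤ)
    (hg : ∀ h : ℤ, g (h + 1) - g h = -(if ((h + 1 : ℤ) : ZMod p) = s then 1 else 0)) :
    Del p ω 0 s = g (∑ c : Lt k l, sgl c) - g 0 := by
  have h := Del_zero_aux hω s g hg (univ.sup ω + 1)
  have e : univ.filter (fun c => ω c < univ.sup ω + 1) = univ := by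
    ext d
    simp only [Finset.mem_filter, Finset.mem_univ, true_and, iff_true]
    exact Nat.lt_succ_of_le (Finset.le_sup (Finset.mem_univ d))
  rw [e] at h
  exact h

/-- `Del ω 0` does not depend on the order.  PROOF.  `gam ω 0 c = hgtc ω c`.  Let `g : ℤ → ℤ` be a function with
`g h - g (h - 1) = - (if (h : ZMod p) = s then 1 else 0)` for all `h`, `g 0 = 0` (for example
`g h = - #{t ∈ (0, h], t = s}` for `h ≥ 0` and `g h = #{t ∈ (h, 0], t = s}` for `h < 0`).
For `q : ℕ` let `S_q = {c | ω c < q}`; by induction on `q`: `∑_{c ∈ S_q} (term of c) = g (o - e)` where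
`o`, `e` are the numbers of odd and even letters in `S_q`: if `ω c = q` for a (unique) `c` then
`hgtc ω c = o - e`; an even `c` contributes `[o - e = s] = g (o - e - 1) - g (o - e)`, an odd `c`
contributes `- [o - e + 1 = s] = g (o - e + 1) - g (o - e)`.  For large `q`: `Del ω 0 s = g (l - k)`. -/
theorem Del_zero {ω ω' : Lt k l → ℕ} (hω : Function.Injective ω) (hω' : Function.Injective ω')
    (s : ZMod p) : Del p ω 0 s = Del p ω' 0 s := by
  obtain ⟨g, hg⟩ := exists_prim (fun h => -(if ((h + 1 : ℤ) : ZMod p) = s then 1 else 0))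
  rw [Del_zero_eq hω s g hg, Del_zero_eq hω' s g hg]

/-- `gam std n0 c`: for `c = inl i`: `l + (p-1)(k-1-i) - i = l - k + 1`; for `c = inr j`:
`-(p-1)(l-1-j) - k + j = l - k - 1` in `ZMod p` (`i < k`, `j < l`). -/
theorem gam_n0 (hp : 0 < p) (c : Lt k l) :
    ((gam std (n0 p k l) c : ℤ) : ZMod p) = if odd c then rb p k l else ra p k l := by
  have hp1 : ((p - 1 : ℕ) : ZMod p) = -1 := by
    rw [Nat.cast_sub hp, ZMod.natCast_self, Nat.cast_one, zero_sub]
  rcases c with i | j
  · have hh : hgtc (std : Lt k l → ℕ) (Sum.inl i) = -(i.val : ℤ) := by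
      unfold hgtc
      rw [Fintype.sum_sum_type]
      have e2 : ∑ x : Fin l, (if std (Sum.inr x : Lt k l) < std (Sum.inl i : Lt k l) then
          (if odd (Sum.inr x : Lt k l) then (1 : ℤ) else -1) else 0) = 0 := by
        refine Finset.sum_eq_zero (fun x _ => ?_)
        rw [if_neg]
        simp only [std, Sum.elim_inl, Sum.elim_inr]
        have := i.2
        omega
      rw [e2, add_zero]
      have e1 : ∀ x ∈ (univ : Finset (Fin k)), (if std (Sum.inl x : Lt k l) < std (Sum.inl i : Lt k l) then
          (if odd (Sum.inl x : Lt k l) then (1 : ℤ) else -1) else 0) = if x < i then -1 else 0 := by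
        intro x _
        simp only [std, Sum.elim_inl, Fin.lt_def]
        rfl
      rw [Finset.sum_congr rfl e1, ← Finset.sum_filter, Finset.sum_const, Finset.filter_gt_eq_Iio, Fin.card_Iio,
        nsmul_eq_mul]
      ring
    unfold gam
    rw [hh]
    simp only [n0, Sum.elim_inl]
    have ho : odd (Sum.inl i : Lt k l) = false := rfl
    rw [ho]
    simp only [Bool.false_eq_true, if_false]
    push_cast
    rw [hp1, Nat.cast_sub (by have := i.2; omega), Nat.cast_sub (by have := i.2; omega)]
    unfold ra
    push_cast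
    ring
  · have hh : hgtc (std : Lt k l → ℕ) (Sum.inr j) = (j.val : ℤ) - k := by
      unfold hgtc
      rw [Fintype.sum_sum_type]
      have e2 : ∑ x : Fin k, (if std (Sum.inl x : Lt k l) < std (Sum.inr j : Lt k l) then
          (if odd (Sum.inl x : Lt k l) then (1 : ℤ) else -1) else 0) = -(k : ℤ) := by
        have e3 : ∀ x ∈ (univ : Finset (Fin k)), (if std (Sum.inl x : Lt k l) <
            std (Sum.inr j : Lt k l) then
            (if odd (Sum.inl x : Lt k l) then (1 : ℤ) else -1) else 0) = -1 := by
          intro x _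
          rw [if_pos]
          · rfl
          · simp only [std, Sum.elim_inl, Sum.elim_inr]
            have := x.2
            omega
        rw [Finset.sum_congr rfl e3, Finset.sum_const, Finset.card_univ, Fintype.card_fin,
          nsmul_eq_mul]
        ring
      rw [e2]
      have e1 : ∀ x ∈ (univ : Finset (Fin l)), (if std (Sum.inr x : Lt k l) < std (Sum.inr j : Lt k l) then
          (if odd (Sum.inr x : Lt k l) then (1 : ℤ) else -1) else 0) = if x < j then 1 else 0 := by
        intro x _
        simp only [std, Sum.elim_inr, Fin.lt_def, add_lt_add_iff_left]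
        rfl
      rw [Finset.sum_congr rfl e1, ← Finset.sum_filter, Finset.sum_const, Finset.filter_gt_eq_Iio, Fin.card_Iio,
        nsmul_eq_mul]
      ring
    unfold gam
    rw [hh]
    simp only [n0, Sum.elim_inr]
    have ho : odd (Sum.inr j : Lt k l) = true := rfl
    rw [ho]
    simp only [if_true]
    push_cast
    rw [hp1, Nat.cast_sub (by have := j.2; omega), Nat.cast_sub (by have := j.2; omega)]
    unfold rb
    push_cast
    ring

/-- `a ≠ b` and `a ≠ b + 1` because `a - b = 2`, `a - b - 1 = 1` -/
theorem ra_ne_rb [Fact p.Prime] (hp : p ≠ 2) : ra p k l ≠ rb p k l ∧ ra p k l ≠ rb p k l + 1 := by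
  constructor
  · intro h
    have h2 : (2 : ZMod p) = 0 := by
      have h3 : ra p k l - rb p k l = 0 := by rw [h, sub_self]
      unfold ra rb at h3
      linear_combination h3
    have h4 : ((2 : ℕ) : ZMod p) = 0 := by exact_mod_cast h2
    rw [ZMod.natCast_eq_zero_iff] at h4
    exact hp ((Nat.prime_dvd_prime_iff_eq Fact.out Nat.prime_two).1 h4)
  · intro h
    have h2 : (1 : ZMod p) = 0 := by
      have h3 : ra p k l - (rb p k l + 1) = 0 := by rw [h, sub_self]
      unfold ra rb at h3
      linear_combination h3
    exact one_ne_zero h2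

/-- PROOF.  By `gam_n0`, `Del std n0 s = k [a = s] - l [b + 1 = s]`.  Evaluate the hypothesis at `s = a`
(`a ≠ b + 1`): `#{c even, gam = a} - #{c odd, gam + 1 = a} = k`, so all even letters have `gam = a`;
at `s = b + 1`: `#{c even, gam = b+1} - #{c odd, gam = b} = -l`, the first number is `0`, so all odd
letters have `gam = b`. -/
theorem residues_of_Del [Fact p.Prime] (hp : p ≠ 2) (ω n : Lt k l → ℕ)
    (h : ∀ s : ZMod p, Del p ω n s = Del p std (n0 p k l) s) (c : Lt k l) :
    ((gam ω n c : ℤ) : ZMod p) = if odd c then rb p k l else ra p k l := by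
  have hp0 : 0 < p := (Fact.out : p.Prime).pos
  obtain ⟨hab, hab1⟩ := ra_ne_rb (k := k) (l := l) hp
  have hD : ∀ s : ZMod p, Del p std (n0 p k l) s = ∑ c : Lt k l,
      if odd c then -(if rb p k l + 1 = s then (1 : ℤ) else 0)
        else (if ra p k l = s then 1 else 0) := by
    intro s
    unfold Del
    refine Finset.sum_congr rfl (fun c _ => ?_)
    have h1 := gam_n0 (k := k) (l := l) hp0 c
    by_cases ho : odd c = true
    · rw [if_pos ho] at h1
      rw [if_pos ho, if_pos ho]
      push_cast
      rw [h1]
    · rw [if_neg ho] at h1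
      rw [if_neg ho, if_neg ho, h1]
  by_cases ho : odd c = true
  · rw [if_pos ho]
    have h1 := h (rb p k l + 1)
    rw [hD] at h1
    unfold Del at h1
    have h2 := (Finset.sum_eq_sum_iff_of_le (s := (univ : Finset (Lt k l)))
      (f := fun c => if odd c then -(if rb p k l + 1 = rb p k l + 1 then (1 : ℤ) else 0)
        else (if ra p k l = rb p k l + 1 then 1 else 0))
      (g := fun c => if odd c then
        -(if ((gam ω n c + 1 : ℤ) : ZMod p) = rb p k l + 1 then (1 : ℤ) else 0)
        else (if ((gam ω n c : ℤ) : ZMod p) = rb p k l + 1 then 1 else 0)) (by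
          intro d _
          by_cases hd : odd d = true
          · simp only [hd, if_true]
            split_ifs <;> simp
          · simp only [hd, hab1, if_false, Bool.false_eq_true]
            split_ifs <;> simp)).1 h1.symm c (Finset.mem_univ c)
    simp only [ho, if_true] at h2
    by_contra h3
    rw [if_neg] at h2
    · simp at h2
    · push_cast
      intro h4
      exact h3 (add_right_cancel h4)
  · rw [if_neg ho]
    have h1 := h (ra p k l)
    rw [hD] at h1
    unfold Del at h1
    have h2 := (Finset.sum_eq_sum_iff_of_le (s := (univ : Finset (Lt k l)))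
      (g := fun c => if odd c then -(if rb p k l + 1 = ra p k l then (1 : ℤ) else 0)
        else (if ra p k l = ra p k l then 1 else 0))
      (f := fun c => if odd c then
        -(if ((gam ω n c + 1 : ℤ) : ZMod p) = ra p k l then (1 : ℤ) else 0)
        else (if ((gam ω n c : ℤ) : ZMod p) = ra p k l then 1 else 0)) (by
          intro d _
          by_cases hd : odd d = true
          · simp only [hd, if_true, Ne.symm hab1, if_false]
            split_ifs <;> simp
          · simp only [hd, if_true, if_false, Bool.false_eq_true]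
            split_ifs <;> simp)).1 h1 c (Finset.mem_univ c)
    simp only [ho, if_true, if_false, Bool.false_eq_true] at h2
    by_contra h3
    rw [if_neg h3] at h2
    simp at h2

section

variable {A K : Type} [CommRing A] [Field K] [Algebra A K]

/-- Induction on `m`.  Replace `u` by its component of weight `cts w` (`wproj`, `act_wproj`,
`HW_wproj`).  Top letter `c` (`exists_top`), `comp_on` : `cts w = n' + e_c`, `comp c u` on `n'`;
`zr_succ_mem`: `comp c u ∈ MM (tail r)` and `g_{r 0}(X) u = u`; by `top_poly` and `gpol_eval`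
(`gam_abs`) `comp c u = (if gam = r 0 then 1 else 0) • comp c u`, so `gam ω n' c = r 0` in `ZMod p`;
induction hypothesis for `comp c u`, `Del_add`, `Fin.sum_univ_succ`. -/
theorem Del_of_mem [Algebra A ℚ] [Algebra A (ZMod p)] [PInt p A] (hk : 0 < k + l)
    (hg : Good A p k l K) {ω : Lt k l → ℕ} (hω : Function.Injective ω) {m : ℕ}
    (r : Fin m → ZMod p) {u : W K k l (Fin m)}
    (hu : act A K k l _ (zr A p k l m r) u = u) (hw : HW ω u) (w : Fin m → Lt k l)
    (huw : u w ≠ 0) (s : ZMod p) : Del p ω (cts w) s = Del p ω 0 s + Res p r s := by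
  classical
  induction m with
  | zero =>
    have h1 : cts w = 0 := by
      funext c
      simp [cts, Pool.PI34.Super.cnt]
    rw [h1]
    simp [Res]
  | succ m ih =>
    set n := cts w with hn
    set u' := wproj n u with hu'
    have hne : u' ≠ 0 := by
      intro h
      have h1 := congrFun h w
      rw [hu', wproj_apply, if_pos rfl] at h1
      exact huw h1
    have hon : On n u' := wproj_on _ _
    have hw' : HW ω u' := HW_wproj hw n
    have hz : act A K k l _ (zr A p k l (m + 1) r) u' = u' := by
      rw [hu', act_wproj, hu]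
    obtain ⟨c, hc0, hc⟩ := exists_top ω hne
    obtain ⟨n', hn', hon'⟩ := comp_on hon c hc0
    obtain ⟨hX, hM⟩ := zr_succ_mem hg r ((mem_MM hg r u').2 hz)
    have hHW := top_HW hω hw' c hc
    obtain ⟨w', hw'0⟩ : ∃ w', comp c u' w' ≠ 0 := by
      by_contra hcon
      push Not at hcon
      exact hc0 (funext hcon)
    have hctw : cts w' = n' := hon' w' hw'0
    have h2 := ih (Fin.tail r) ((mem_MM hg _ _).1 (hM c)) hHW w' hw'0
    have h3 := (top_poly hω hw' c hc hon' (gp A p k l m (r 0))).2
    rw [hX] at h3
    unfold gp at h3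
    rw [gpol_eval hk (r 0) (gam ω n' c) (by rw [← hctw]; exact gam_abs ω w' c)] at h3
    have h4 : ((gam ω n' c : ℤ) : ZMod p) = r 0 := by
      by_contra hcon
      rw [if_neg hcon, zero_smul] at h3
      exact hc0 h3
    rw [hn', Del_add, h4, ← hctw, h2]
    unfold Res
    rw [Fin.sum_univ_succ]
    simp only [Fin.tail]
    ring_nf

/-- The residue property follows from the existence of a highest weight vector of weight `n0` in
`M_r` over `ℚ`: `Del_of_mem` over `ℚ` for `std`, and over `K` for `ω`, `Del_zero`,
`residues_of_Del`. -/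
theorem HH_of [Fact p.Prime] (hp : p ≠ 2) [Algebra A ℚ] [Algebra A (ZMod p)] [PInt p A]
    (hk : 0 < k + l) (hg : Good A p k l K) {m : ℕ} (r : Fin m → ZMod p)
    {ξ : W ℚ k l (Fin m)} (h0 : ξ ≠ 0) (h1 : act A ℚ k l _ (zr A p k l m r) ξ = ξ)
    (h2 : HW std ξ) (h3 : On (n0 p k l) ξ) : HH A K k l r := by
  intro u hu ω hω hw w huw c
  have hinj : Function.Injective ω := by
    rcases hω with rfl | rfl
    · exact std_inj
    · exact opp_inj
  refine residues_of_Del hp ω (cts w) (fun s => ?_) c
  rw [Del_of_mem hk hg hinj r hu hw w huw s]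
  obtain ⟨w0, hw0⟩ : ∃ w0, ξ w0 ≠ 0 := by
    by_contra hcon
    push Not at hcon
    exact h0 (funext hcon)
  have h4 := Del_of_mem hk (good_rat p A k l) std_inj r h1 h2 w0 hw0 s
  rw [h3 w0 hw0] at h4
  rw [h4, Del_zero hinj std_inj]

end

end Pool.PI34.SK
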