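import Pool.Agent.LibPI34.SKE

/-!
PI34, E-block for odd primes, row SKF: odd reflections (one step and chains).
-/

set_option linter.unusedVariables false

namespace Pool.PI34.SK

open Equiv Finset
open Pool.PI34.Super (Lt odd)

/-- supported on the words with counts `n` (integers) -/
def OnZ {K : Type} [CommRing K] {k l m : ℕ} (n : Lt k l → ℤ) (u : W K k l (Fin m)) : Prop :=
  ∀ w, u w ≠ 0 → ∀ c, (cts w c : ℤ) = n c

/-- `gam` for integer counts -/
def gamZ {k l : ℕ} (ω : Lt k l → ℕ) (n : Lt k l → ℤ) (c : Lt k l) : ℤ :=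
  (if odd c then -(n c) else n c) + hgtc ω c

/-- the factor of the pair `q = (x, y)` -/
def fac {k l : ℕ} (ω : Lt k l → ℕ) (n : Lt k l → ℤ) (q : Lt k l × Lt k l) : ℤ :=
  (if odd q.1 then gamZ ω n q.2 - gamZ ω n q.1 else gamZ ω n q.1 - gamZ ω n q.2) - 1

/-- `x, y` are neighbours of different parity in the order `ω`, and `ω'` is the order after their exchange -/
structure StepOK {k l : ℕ} (ω : Lt k l → ℕ) (q : Lt k l × Lt k l) (ω' : Lt k l → ℕ) : Prop where
  par : odd q.1 ≠ odd q.2
  lt : ω q.1 < ω q.2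
  adj : ∀ c, c ≠ q.1 → c ≠ q.2 → ω c < ω q.1 ∨ ω q.2 < ω c
  new : ∀ a b, ω' a < ω' b ↔ (a = q.2 ∧ b = q.1) ∨ (ω a < ω b ∧ ¬ (a = q.1 ∧ b = q.2))

/-- a chain of exchanges -/
def Valid {k l : ℕ} : (Lt k l → ℕ) → List (Lt k l × Lt k l) → (Lt k l → ℕ) → Prop
  | ω, [], ω' => ∀ a b, ω' a < ω' b → ω a < ω b
  | ω, q :: L, ω' => ∃ ω1, StepOK ω q ω1 ∧ Valid ω1 L ω'

variable {k l m : ℕ}

/-- apply `EE y x` for the pairs `(x, y)` of the list, the first pair acts first -/
def dn {K : Type} [CommRing K] : List (Lt k l × Lt k l) → Module.End K (W K k l (Fin m))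
  | [] => 1
  | q :: L => dn L * EE q.2 q.1

/-- apply `EE x y` for the pairs `(x, y)` of the list, the first pair acts last -/
def up {K : Type} [CommRing K] : List (Lt k l × Lt k l) → Module.End K (W K k l (Fin m))
  | [] => 1
  | q :: L => EE q.1 q.2 * up L

/-- the pairs (even `i`, odd `j`), `j = 0, …, l-1`, for every `j` the `i = k-1, …, 0` -/
def Lstd (k l : ℕ) : List (Lt k l × Lt k l) :=
  (List.finRange l).flatMap fun j => (List.finRange k).reverse.map fun i => (Sum.inl i, Sum.inr j)

/-- the pairs (odd `j`, even `i`), `i = 0, …, k-1`, for every `i` the `j = l-1, …, 0` -/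
def Lopp (k l : ℕ) : List (Lt k l × Lt k l) :=
  (List.finRange k).flatMap fun i => (List.finRange l).reverse.map fun j => (Sum.inr j, Sum.inl i)

theorem up_adj {K : Type} [CommRing K] (L : List (Lt k l × Lt k l)) (f g : W K k l (Fin m)) :
    ip (up L f) g = ip f (dn L g) := by
  induction L generalizing f g with
  | nil => rfl
  | cons q L ih =>
    change ip (EE q.1 q.2 (up L f)) g = ip f (dn L (EE q.2 q.1 g))
    rw [← ih f (EE q.2 q.1 g)]
    exact EB_adj univ q.1 q.2 (up L f) g

/-- the counts change by `a - b` (`cts_update`) -/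
theorem EE_onZ {K : Type} [CommRing K] {n : Lt k l → ℤ} {u : W K k l (Fin m)} (hu : OnZ n u)
    (a b : Lt k l) : OnZ (n + Pi.single a 1 - Pi.single b 1) (EE a b u) := by
  classical
  intro w hw c
  rw [EE_apply] at hw
  obtain ⟨i, _, hi⟩ := Finset.exists_ne_zero_of_sum_ne_zero hw
  by_cases h1 : w i = a
  swap
  · rw [if_neg h1] at hi
    exact absurd rfl hi
  rw [if_pos h1] at hi
  have h2 : u (Function.update w i b) ≠ 0 := fun h => hi (by rw [h, mul_zero])
  have h3 := hu _ h2 c
  by_cases hab : a = b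
  · subst hab
    rw [← h1, Function.update_eq_self] at h3
    simp [h3]
  · have h4 := congrFun (cts_update w i a b h1 hab) c
    simp only [Pi.add_apply, Pi.sub_apply, Pi.single_apply] at h4 ⊢
    rw [← h3]
    split_ifs at h4 ⊢ <;> omega

section step

variable {K : Type} [Field K]

/-- `EE_comm_apply` with `a = c`, `b = d`: `T² = - T²`. -/
theorem EE_sq (h2 : (2 : K) ≠ 0) {a b : Lt k l} (hab : odd a ≠ odd b) (u : W K k l (Fin m)) :
    EE a b (EE a b u) = 0 := by
  have hne : b ≠ a := fun h => hab (by rw [h])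
  have h := EE_comm_apply (K := K) a b a b u
  have hd : (dd a b a b : K) = -1 := by
    unfold dd
    rw [if_pos]
    simpa using hab
  rw [hd, if_neg hne, smul_zero, add_zero, sub_zero, neg_smul, one_smul] at h
  have h3 : (2 : K) • EE a b (EE a b u) = 0 := by
    rw [two_smul]
    nth_rw 1 [h]
    exact neg_add_cancel _
  exact (smul_eq_zero.1 h3).resolve_left h2

/-- `EE_comm_apply x y y x`, `dd x y y x = -1`, `EE_diag`. -/
theorem step_back {ω : Lt k l → ℕ} {q : Lt k l × Lt k l} (hpar : odd q.1 ≠ odd q.2)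
    (hlt : ω q.1 < ω q.2) {u : W K k l (Fin m)} (hu : HW ω u) {n : Lt k l → ℤ} (hn : OnZ n u) :
    EE q.1 q.2 (EE q.2 q.1 u) = ((n q.1 + n q.2 : ℤ) : K) • u := by
  have h := EE_comm_apply (K := K) q.1 q.2 q.2 q.1 u
  have hd : (dd q.1 q.2 q.2 q.1 : K) = -1 := by
    unfold dd
    rw [if_pos]
    have h1 : (odd q.2 ≠ odd q.1) := fun e => hpar e.symm
    simpa using ⟨hpar, h1⟩
  rw [hd, hu q.1 q.2 hlt, if_pos rfl, if_pos rfl, map_zero, smul_zero, zero_add, neg_smul,
    one_smul, sub_neg_eq_add] at h
  rw [h]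
  funext w
  rw [Pi.add_apply, EE_diag, EE_diag, Pi.smul_apply, smul_eq_mul]
  by_cases hw : u w = 0
  · rw [hw]
    simp
  · have h1 : ((Pool.PI34.Super.cnt q.1 w : ℕ) : ℤ) = n q.1 := hn w hw q.1
    have h2 : ((Pool.PI34.Super.cnt q.2 w : ℕ) : ℤ) = n q.2 := hn w hw q.2
    rw [← h1, ← h2]
    push_cast
    ring

/-- For `ω' a < ω' b`: if `(a, b) = (y, x)` use `EE_sq`; otherwise `EE_comm_apply a b y x`: `EE a b u = 0`; if `b = y`
then `ω a < ω x` (`adj`), `EE a x u = 0`; if `a = x` then `ω y < ω b`, `EE y b u = 0`. -/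
theorem step_HW (h2 : (2 : K) ≠ 0) {ω ω' : Lt k l → ℕ} {q : Lt k l × Lt k l}
    (h : StepOK ω q ω') {u : W K k l (Fin m)} (hu : HW ω u) : HW ω' (EE q.2 q.1 u) := by
  intro a b hab
  rw [h.new] at hab
  rcases hab with ⟨ha, hb⟩ | ⟨hlt, hn⟩
  · rw [ha, hb]
    exact EE_sq h2 (fun e => h.par e.symm) u
  · rw [EE_comm_apply, hu a b hlt, map_zero, smul_zero, zero_add]
    have e1 : (if b = q.2 then EE a q.1 u else 0) = 0 := by
      split_ifs with hb
      · have hax : a ≠ q.1 := fun e => hn ⟨e, hb⟩
        have hay : a ≠ q.2 := fun e => by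
          rw [hb, e] at hlt
          exact lt_irrefl _ hlt
        rcases h.adj a hax hay with h3 | h3
        · exact hu _ _ h3
        · rw [hb] at hlt
          exact absurd hlt (not_lt.2 h3.le)
      · rfl
    have e2 : (if q.1 = a then EE q.2 b u else 0) = 0 := by
      split_ifs with ha
      · have hby : b ≠ q.2 := fun e => hn ⟨ha.symm, e⟩
        have hbx : b ≠ q.1 := fun e => by
          rw [← ha, e] at hlt
          exact lt_irrefl _ hlt
        rcases h.adj b hbx hby with h3 | h3
        · rw [← ha] at hlt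
          exact absurd hlt (not_lt.2 h3.le)
        · exact hu _ _ h3
      · rfl
    rw [e1, e2, smul_zero, sub_zero]

end step

/-- the sign of a letter in `hgtc` -/
private def sglF (c : Lt k l) : ℤ := if odd c then 1 else -1

private theorem hgtc_step {ω ω' : Lt k l → ℕ} {q : Lt k l × Lt k l} (h : StepOK ω q ω') :
    hgtc ω q.2 = hgtc ω q.1 + sglF q.1 := by
  have e : hgtc ω q.2 - hgtc ω q.1 = ∑ b, if b = q.1 then sglF b else 0 := by
    unfold hgtc
    rw [← Finset.sum_sub_distrib]
    refine Finset.sum_congr rfl fun b _ => ?_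
    by_cases h1 : b = q.1
    · rw [if_pos h1, h1, if_pos h.lt, if_neg (lt_irrefl _), sub_zero]
      rfl
    · rw [if_neg h1]
      by_cases h2 : b = q.2
      · rw [h2, if_neg (lt_irrefl _), if_neg (not_lt.2 h.lt.le), sub_zero]
      · rcases h.adj b h1 h2 with h3 | h3
        · rw [if_pos (h3.trans h.lt), if_pos h3, sub_self]
        · rw [if_neg (not_lt.2 h3.le), if_neg (not_lt.2 (h.lt.trans h3).le), sub_zero]
  rw [Finset.sum_ite_eq' univ q.1, if_pos (Finset.mem_univ _)] at e
  omega

private theorem hgtc_new {ω ω' : Lt k l → ℕ} {q : Lt k l × Lt k l} (h : StepOK ω q ω')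
    (c : Lt k l) : hgtc ω' c = hgtc ω c + (if c = q.1 then sglF q.2 else 0) -
      (if c = q.2 then sglF q.1 else 0) := by
  have hxy : q.1 ≠ q.2 := fun e => h.par (by rw [e])
  have e : hgtc ω' c - hgtc ω c = ∑ b, ((if b = q.2 then (if c = q.1 then sglF b else 0) else 0) -
      (if b = q.1 then (if c = q.2 then sglF b else 0) else 0)) := by
    unfold hgtc
    rw [← Finset.sum_sub_distrib]
    refine Finset.sum_congr rfl fun b _ => ?_
    have hb := h.new b c
    have hl := h.lt
    by_cases h1 : b = q.2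
    · have hb1 : ¬ b = q.1 := fun e => hxy (e.symm.trans h1)
      by_cases h2 : c = q.1
      · have h3 : ω' b < ω' c := hb.2 (Or.inl ⟨h1, h2⟩)
        have h4 : ¬ ω b < ω c := by rw [h1, h2]; exact not_lt.2 hl.le
        rw [if_pos h3, if_neg h4, if_pos h1, if_pos h2, if_neg hb1,
          sub_zero, sub_zero]
        rfl
      · have h3 : ω' b < ω' c ↔ ω b < ω c := by
          rw [hb]
          constructor
          · rintro (⟨_, h5⟩ | ⟨h5, _⟩)
            · exact absurd h5 h2
            · exact h5
          · exact fun h5 => Or.inr ⟨h5, fun h6 => hxy (h6.1.symm.trans h1)⟩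
        rw [if_pos h1, if_neg h2, if_neg hb1]
        by_cases h4 : ω b < ω c
        · rw [if_pos h4, if_pos (h3.2 h4), sub_self, sub_zero]
        · rw [if_neg h4, if_neg (fun h5 => h4 (h3.1 h5))]
    · rw [if_neg h1]
      by_cases h2 : b = q.1
      · rw [if_pos h2]
        by_cases h5 : c = q.2
        · have h3 : ¬ ω' b < ω' c := by
            rw [hb]
            rintro (⟨h6, _⟩ | ⟨_, h6⟩)
            · exact h1 h6
            · exact h6 ⟨h2, h5⟩
          have h4 : ω b < ω c := by rw [h2, h5]; exact hl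
          rw [if_neg h3, if_pos h4, if_pos h5]
          rfl
        · rw [if_neg h5]
          have h3 : ω' b < ω' c ↔ ω b < ω c := by
            rw [hb]
            constructor
            · rintro (⟨h6, _⟩ | ⟨h6, _⟩)
              · exact absurd h6 h1
              · exact h6
            · exact fun h6 => Or.inr ⟨h6, fun h7 => h5 h7.2⟩
          by_cases h4 : ω b < ω c
          · rw [if_pos h4, if_pos (h3.2 h4), sub_self, sub_zero]
          · rw [if_neg h4, if_neg (fun h6 => h4 (h3.1 h6))]
      · rw [if_neg h2]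
        have h3 : ω' b < ω' c ↔ ω b < ω c := by
          rw [hb]
          constructor
          · rintro (⟨h6, _⟩ | ⟨h6, _⟩)
            · exact absurd h6 h1
            · exact h6
          · exact fun h6 => Or.inr ⟨h6, fun h7 => h2 h7.1⟩
        by_cases h4 : ω b < ω c
        · rw [if_pos h4, if_pos (h3.2 h4), sub_self, sub_zero]
        · rw [if_neg h4, if_neg (fun h6 => h4 (h3.1 h6))]
  rw [Finset.sum_sub_distrib, Finset.sum_ite_eq' univ q.2, Finset.sum_ite_eq' univ q.1,
    if_pos (Finset.mem_univ _), if_pos (Finset.mem_univ _)] at e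
  omega

/-- `n x + n y = fac`: the numbers `hgtc` of the neighbours `x, y` differ by `∓ 1`. -/
theorem fac_eq {ω ω' : Lt k l → ℕ} {q : Lt k l × Lt k l} (h : StepOK ω q ω') (n : Lt k l → ℤ) :
    n q.1 + n q.2 = fac ω n q := by
  have h1 := hgtc_step h
  have h2 := h.par
  unfold fac gamZ
  rw [h1]
  unfold sglF
  rcases Bool.eq_false_or_eq_true (odd q.1) with ho | ho
  · have ho2 : odd q.2 = false := by
      rcases Bool.eq_false_or_eq_true (odd q.2) with h3 | h3
      · exact absurd (ho.trans h3.symm) h2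
      · exact h3
    rw [ho, ho2]
    simp only [if_true, Bool.false_eq_true, if_false]
    ring
  · have ho2 : odd q.2 = true := by
      rcases Bool.eq_false_or_eq_true (odd q.2) with h3 | h3
      · exact h3
      · exact absurd (ho.trans h3.symm) h2
    rw [ho, ho2]
    simp only [if_true, Bool.false_eq_true, if_false]
    ring

/-- `gamZ` does not change in a step: for `c ≠ x, y` the set of smaller letters of `c` is unchanged; for `x` and `y` the
changes of `n` and of `hgtc` cancel. -/
theorem gamZ_step {ω ω' : Lt k l → ℕ} {q : Lt k l × Lt k l} (h : StepOK ω q ω')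
    (n : Lt k l → ℤ) (c : Lt k l) :
    gamZ ω' (n + Pi.single q.2 1 - Pi.single q.1 1) c = gamZ ω n c := by
  have hxy : q.1 ≠ q.2 := fun e => h.par (by rw [e])
  have h2 := h.par
  unfold gamZ
  rw [hgtc_new h c]
  simp only [Pi.add_apply, Pi.sub_apply, Pi.single_apply]
  unfold sglF
  by_cases h1 : c = q.1
  · have h3 : ¬ c = q.2 := fun e => hxy (h1.symm.trans e)
    rw [if_pos h1, if_neg h3, if_neg h3, if_pos h1, h1]
    rcases Bool.eq_false_or_eq_true (odd q.1) with ho | ho
    · have ho2 : odd q.2 = false := by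
        rcases Bool.eq_false_or_eq_true (odd q.2) with h3 | h3
        · exact absurd (ho.trans h3.symm) h2
        · exact h3
      rw [ho, ho2]
      simp only [if_true, Bool.false_eq_true, if_false]
      ring
    · have ho2 : odd q.2 = true := by
        rcases Bool.eq_false_or_eq_true (odd q.2) with h3 | h3
        · exact h3
        · exact absurd (ho.trans h3.symm) h2
      rw [ho, ho2]
      simp only [if_true, Bool.false_eq_true, if_false]
      ring
  · by_cases h3 : c = q.2
    · rw [if_neg h1, if_pos h3, if_pos h3, if_neg h1, h3]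
      rcases Bool.eq_false_or_eq_true (odd q.1) with ho | ho
      · have ho2 : odd q.2 = false := by
          rcases Bool.eq_false_or_eq_true (odd q.2) with h3 | h3
          · exact absurd (ho.trans h3.symm) h2
          · exact h3
        rw [ho, ho2]
        simp only [if_true, Bool.false_eq_true, if_false]
        ring
      · have ho2 : odd q.2 = true := by
          rcases Bool.eq_false_or_eq_true (odd q.2) with h3 | h3
          · exact h3
          · exact absurd (ho.trans h3.symm) h2
        rw [ho, ho2]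
        simp only [if_true, Bool.false_eq_true, if_false]
        ring
    · rw [if_neg h1, if_neg h3, if_neg h3, if_neg h1]
      simp only [add_zero, sub_zero]

/-- Induction on `L`: `step_back`, `fac_eq`, `EE_onZ`, `step_HW`, `gamZ_step`. -/
theorem up_dn {K : Type} [Field K] (h2 : (2 : K) ≠ 0) (L : List (Lt k l × Lt k l))
    {ω ω' : Lt k l → ℕ} (hL : Valid ω L ω') {u : W K k l (Fin m)} (hu : HW ω u)
    {n : Lt k l → ℤ} (hn : OnZ n u) :
    up L (dn L u) = (((L.map (fac ω n)).prod : ℤ) : K) • u ∧ HW ω' (dn L u) := by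
  induction L generalizing ω u n with
  | nil =>
    refine ⟨?_, fun a b hab => hu a b (hL a b hab)⟩
    rw [List.map_nil, List.prod_nil, Int.cast_one, one_smul]
    rfl
  | cons q L ih =>
    obtain ⟨ω1, hst, hv⟩ := hL
    have h1 := step_HW h2 hst hu
    have h3 := EE_onZ hn q.2 q.1
    obtain ⟨ih1, ih2⟩ := ih hv h1 h3
    refine ⟨?_, ih2⟩
    change EE q.1 q.2 (up L (dn L (EE q.2 q.1 u))) = _
    have hf : fac ω1 (n + Pi.single q.2 1 - Pi.single q.1 1) = fac ω n := by
      funext q'
      unfold fac
      rw [gamZ_step hst, gamZ_step hst]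
    rw [ih1, map_smul, step_back hst.par hst.lt hu hn, hf, smul_smul, List.map_cons,
      List.prod_cons, ← fac_eq hst n]
    congr 1
    push_cast
    ring

end Pool.PI34.SK
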