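import Pool.Agent.LibPI34.SKF

/-!
PI34, E-block for odd primes, row SKF2: the chains `Lstd` and `Lopp` are valid.
-/

set_option linter.unusedVariables false

namespace Pool.PI34.SK

open Equiv Finset
open Pool.PI34.Super (Lt odd)

variable {k l m : ℕ}

/-- the stages for `Lstd` -/
def om (k l i j : ℕ) : Lt k l → ℕ :=
  Sum.elim (fun x => if x.val < i then j + x.val else j + 1 + x.val)
    (fun y => if y.val < j then y.val else if y.val = j then j + i else k + y.val)

/-- the stages for `Lopp` -/
def om' (k l j i : ℕ) : Lt k l → ℕ :=
  Sum.elim (fun x => if x.val < i then x.val else if x.val = i then i + j else l + x.val)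
    (fun y => if y.val < j then i + y.val else i + 1 + y.val)

/-- chains with an exact end -/
def Ch {k l : ℕ} : (Lt k l → ℕ) → List (Lt k l × Lt k l) → (Lt k l → ℕ) → Prop
  | ω, [], ω' => ω = ω'
  | ω, q :: L, ω' => ∃ ω1, StepOK ω q ω1 ∧ Ch ω1 L ω'

theorem Ch.valid {L : List (Lt k l × Lt k l)} : ∀ {ω ω' : Lt k l → ℕ}, Ch ω L ω' →
    Valid ω L ω' := by
  induction L with
  | nil => intro ω ω' h a b hab; rw [show ω = ω' from h]; exact hab
  | cons q L ih =>
    rintro ω ω' ⟨ω1, h1, h2⟩
    exact ⟨ω1, h1, ih h2⟩

theorem Ch.append {L L' : List (Lt k l × Lt k l)} : ∀ {ω ω1 ω2 : Lt k l → ℕ}, Ch ω L ω1 →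
    Ch ω1 L' ω2 → Ch ω (L ++ L') ω2 := by
  induction L with
  | nil => intro ω ω1 ω2 h h'; rw [List.nil_append, show ω = ω1 from h]; exact h'
  | cons q L ih =>
    rintro ω ω1 ω2 ⟨ω3, h1, h2⟩ h'
    exact ⟨ω3, h1, ih h2 h'⟩

theorem step_om (i : Fin k) (j : Fin l) :
    StepOK (om k l (i.val + 1) j.val) (Sum.inl i, Sum.inr j) (om k l i.val j.val) where
  par := by simp [odd]
  lt := by simp [om]
  adj := by
    rintro (x | y) h1 h2
    · have hx : x.val ≠ i.val := fun e => h1 (congrArg Sum.inl (Fin.ext e))
      simp only [om, Sum.elim_inl, Sum.elim_inr]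
      have := x.2
      split_ifs <;> omega
    · have hy : y.val ≠ j.val := fun e => h2 (congrArg Sum.inr (Fin.ext e))
      simp only [om, Sum.elim_inl, Sum.elim_inr]
      have := i.2
      split_ifs <;> omega
  new := by
    rintro (x | y) (x' | y')
    · simp only [om, Sum.elim_inl, Sum.elim_inr, reduceCtorEq, false_and, false_or, and_false,
        not_false_eq_true, and_true]
      split_ifs <;> omega
    · simp only [om, Sum.elim_inl, Sum.elim_inr, reduceCtorEq, false_and, false_or,
        Sum.inl.injEq, Sum.inr.injEq, Fin.ext_iff]
      have := x.2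
      split_ifs <;> omega
    · simp only [om, Sum.elim_inl, Sum.elim_inr, reduceCtorEq, false_and, not_false_eq_true,
        and_true, Sum.inl.injEq, Sum.inr.injEq, Fin.ext_iff]
      have := x'.2
      split_ifs <;> omega
    · simp only [om, Sum.elim_inl, Sum.elim_inr, reduceCtorEq, false_and, false_or, and_false,
        not_false_eq_true, and_true]
      have := i.2
      split_ifs <;> omega

theorem step_om' (i : Fin k) (j : Fin l) :
    StepOK (om' k l (j.val + 1) i.val) (Sum.inr j, Sum.inl i) (om' k l j.val i.val) where
  par := by simp [odd]
  lt := by simp [om']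
  adj := by
    rintro (x | y) h1 h2
    · have hx : x.val ≠ i.val := fun e => h2 (congrArg Sum.inl (Fin.ext e))
      simp only [om', Sum.elim_inl, Sum.elim_inr]
      have := j.2
      split_ifs <;> omega
    · have hy : y.val ≠ j.val := fun e => h1 (congrArg Sum.inr (Fin.ext e))
      simp only [om', Sum.elim_inl, Sum.elim_inr]
      have := y.2
      split_ifs <;> omega
  new := by
    rintro (x | y) (x' | y')
    · simp only [om', Sum.elim_inl, Sum.elim_inr, reduceCtorEq, false_and, false_or, and_false,
        not_false_eq_true, and_true]
      have := j.2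
      split_ifs <;> omega
    · simp only [om', Sum.elim_inl, Sum.elim_inr, reduceCtorEq, false_and, not_false_eq_true,
        and_true, Sum.inl.injEq, Sum.inr.injEq, Fin.ext_iff]
      have := y'.2
      split_ifs <;> omega
    · simp only [om', Sum.elim_inl, Sum.elim_inr, reduceCtorEq, false_and, false_or,
        Sum.inl.injEq, Sum.inr.injEq, Fin.ext_iff]
      have := y.2
      split_ifs <;> omega
    · simp only [om', Sum.elim_inl, Sum.elim_inr, reduceCtorEq, false_and, false_or, and_false,
        not_false_eq_true, and_true]
      split_ifs <;> omega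

theorem ch_inner (j : Fin l) : ∀ (i : ℕ) (hi : i ≤ k),
    Ch (om k l i j.val) (((List.finRange i).map (Fin.castLE hi)).reverse.map
      fun x => ((Sum.inl x, Sum.inr j) : Lt k l × Lt k l)) (om k l 0 j.val) := by
  intro i
  induction i with
  | zero => intro hi; exact rfl
  | succ i ih =>
    intro hi
    rw [List.finRange_succ_last, List.map_append, List.reverse_append, List.map_append,
      List.map_singleton, List.reverse_singleton, List.map_singleton, List.singleton_append,
      List.map_map]
    exact ⟨om k l i j.val, step_om (Fin.castLE hi (Fin.last i)) j, ih (by omega)⟩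

theorem ch_inner' (i : Fin k) : ∀ (j : ℕ) (hj : j ≤ l),
    Ch (om' k l j i.val) (((List.finRange j).map (Fin.castLE hj)).reverse.map
      fun y => ((Sum.inr y, Sum.inl i) : Lt k l × Lt k l)) (om' k l 0 i.val) := by
  intro j
  induction j with
  | zero => intro hj; exact rfl
  | succ j ih =>
    intro hj
    rw [List.finRange_succ_last, List.map_append, List.reverse_append, List.map_append,
      List.map_singleton, List.reverse_singleton, List.map_singleton, List.singleton_append,
      List.map_map]
    exact ⟨om' k l j i.val, step_om' i (Fin.castLE hj (Fin.last j)), ih (by omega)⟩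

theorem om_next (k l j : ℕ) : om k l 0 j = om k l k (j + 1) := by
  funext c
  rcases c with x | y
  · simp only [om, Sum.elim_inl]
    have := x.2
    split_ifs <;> omega
  · simp only [om, Sum.elim_inr]
    split_ifs <;> omega

theorem om'_next (k l i : ℕ) : om' k l 0 i = om' k l l (i + 1) := by
  funext c
  rcases c with x | y
  · simp only [om', Sum.elim_inl]
    split_ifs <;> omega
  · simp only [om', Sum.elim_inr]
    have := y.2
    split_ifs <;> omega

theorem map_castLE_self (n : ℕ) (h : n ≤ n) :
    (List.finRange n).map (Fin.castLE h) = List.finRange n := by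
  conv_rhs => rw [← List.map_id (List.finRange n)]
  rfl

theorem ch_outer (k l : ℕ) : ∀ (j : ℕ) (hj : j ≤ l),
    Ch (om k l k 0) (((List.finRange j).map (Fin.castLE hj)).flatMap fun y =>
      (List.finRange k).reverse.map fun x => ((Sum.inl x, Sum.inr y) : Lt k l × Lt k l))
      (om k l k j) := by
  intro j
  induction j with
  | zero => intro hj; exact rfl
  | succ j ih =>
    intro hj
    rw [List.finRange_succ_last, List.map_append, List.flatMap_append, List.map_map,
      List.map_singleton, List.flatMap_singleton]
    have h := ch_inner (k := k) (Fin.castLE hj (Fin.last j)) k le_rfl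
    rw [map_castLE_self] at h
    refine Ch.append (ih (by omega)) ?_
    rw [← om_next]
    exact h

theorem ch_outer' (k l : ℕ) : ∀ (i : ℕ) (hi : i ≤ k),
    Ch (om' k l l 0) (((List.finRange i).map (Fin.castLE hi)).flatMap fun x =>
      (List.finRange l).reverse.map fun y => ((Sum.inr y, Sum.inl x) : Lt k l × Lt k l))
      (om' k l l i) := by
  intro i
  induction i with
  | zero => intro hi; exact rfl
  | succ i ih =>
    intro hi
    rw [List.finRange_succ_last, List.map_append, List.flatMap_append, List.map_map,
      List.map_singleton, List.flatMap_singleton]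
    have h := ch_inner' (l := l) (Fin.castLE hi (Fin.last i)) l le_rfl
    rw [map_castLE_self] at h
    refine Ch.append (ih (by omega)) ?_
    rw [← om'_next]
    exact h

/-- The stages: `om i j` = odd letters `< j`, then the even letters `< i`, the odd letter `j`, the even letters `≥ i`, the odd
letters `> j`:  even `x ↦ if x < i then j + x else j + 1 + x`, odd `y ↦ if y < j then y else if y = j then j + i
else k + y`.  `StepOK (om (i+1) j) (inl i, inr j) (om i j)`; `om k 0` has the order of `std`, `om 0 j` the order
of `om k (j+1)`, `om 0 (l-1)` the order of `opp`.  (Prove by induction over suffixes of the lists.) -/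
theorem valid_std (k l : ℕ) : Valid (std : Lt k l → ℕ) (Lstd k l) opp := by
  have h := (ch_outer k l l le_rfl).valid
  rw [map_castLE_self] at h
  have h1 : om k l k 0 = std := by
    funext c
    rcases c with x | y
    · simp only [om, std, Sum.elim_inl]
      have := x.2
      split_ifs
      omega
    · simp only [om, std, Sum.elim_inr]
      split_ifs <;> omega
  have h2 : om k l k l = opp := by
    funext c
    rcases c with x | y
    · simp only [om, opp, Sum.elim_inl]
      have := x.2
      split_ifs
      omega
    · simp only [om, opp, Sum.elim_inr]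
      have := y.2
      split_ifs
      omega
  rw [h1, h2] at h
  exact h

/-- the same with the roles of even and odd letters exchanged -/
theorem valid_opp (k l : ℕ) : Valid (opp : Lt k l → ℕ) (Lopp k l) std := by
  have h := (ch_outer' k l k le_rfl).valid
  rw [map_castLE_self] at h
  have h1 : om' k l l 0 = opp := by
    funext c
    rcases c with x | y
    · simp only [om', opp, Sum.elim_inl]
      split_ifs <;> omega
    · simp only [om', opp, Sum.elim_inr]
      have := y.2
      split_ifs
      omega
  have h2 : om' k l l k = std := by
    funext c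
    rcases c with x | y
    · simp only [om', std, Sum.elim_inl]
      have := x.2
      split_ifs
      omega
    · simp only [om', std, Sum.elim_inr]
      have := y.2
      split_ifs
      omega
  rw [h1, h2] at h
  exact h

end Pool.PI34.SK
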