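import Pool.Agent.LibPI34.SKF

/-!
PI34, E-block for odd primes, row SKF3: properties of the products of all odd operators.
-/

set_option linter.unusedVariables false

namespace Pool.PI34.SK

open Equiv Finset
open Pool.PI34.Super (Lt odd)

variable {k l m : ℕ}

section aux

theorem F3_up_append {K : Type} [CommRing K] (L M : List (Lt k l × Lt k l)) :
    (up (L ++ M) : Module.End K (W K k l (Fin m))) = up L * up M := by
  induction L with
  | nil => simp [up]
  | cons q L ih => rw [List.cons_append, up, up, ih, mul_assoc]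

theorem F3_dn_eq {K : Type} [CommRing K] (L : List (Lt k l × Lt k l)) :
    (dn L : Module.End K (W K k l (Fin m))) = up (L.map Prod.swap).reverse := by
  induction L with
  | nil => simp [up, dn]
  | cons q L ih =>
    rw [dn, ih, List.map_cons, List.reverse_cons, F3_up_append]
    simp [up]

variable {K : Type} [Field K]

/-- two odd operators of the same type anticommute -/
theorem F3_anti {s : Bool} {a b c d : Lt k l} (ha : odd a = s) (hb : odd b = !s)
    (hc : odd c = s) (hd : odd d = !s) (v : W K k l (Fin m)) :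
    EE a b (EE c d v) = - EE c d (EE a b v) := by
  have h1 : b ≠ c := by
    intro e; rw [e, hc] at hb; cases s <;> simp at hb
  have h2 : d ≠ a := by
    intro e; rw [e, ha] at hd; cases s <;> simp at hd
  rw [EE_comm_apply, if_neg h1, if_neg h2]
  have h3 : (dd a b c d : K) = -1 := by
    unfold dd
    rw [ha, hb, hc, hd]
    cases s <;> simp
  rw [h3]
  simp

theorem F3_kill (h2 : (2 : K) ≠ 0) {s : Bool} (L : List (Lt k l × Lt k l))
    (hL : ∀ q ∈ L, odd q.1 = s ∧ odd q.2 = !s) {a b : Lt k l} (hab : (a, b) ∈ L)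
    (u : W K k l (Fin m)) : EE a b (up L u) = 0 := by
  induction L with
  | nil => simp at hab
  | cons q L ih =>
    have hq := hL q (by simp)
    have hL' : ∀ q ∈ L, odd q.1 = s ∧ odd q.2 = !s := fun p hp => hL p (by simp [hp])
    have hab1 := hL _ hab
    simp only at hab1
    show EE a b (EE q.1 q.2 (up L u)) = 0
    rcases List.mem_cons.1 hab with h | h
    · subst h
      apply EE_sq h2
      rw [hab1.1, hab1.2]
      cases s <;> simp
    · rw [F3_anti hab1.1 hab1.2 hq.1 hq.2, ih hL' h]
      simp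

theorem F3_sgn {s : Bool} (L : List (Lt k l × Lt k l))
    (hL : ∀ q ∈ L, odd q.1 = s ∧ odd q.2 = !s) {a b : Lt k l} (ha : odd a = s) (hb : odd b = !s) :
    ∃ ε : K, ∀ v : W K k l (Fin m), up L (EE a b v) = ε • EE a b (up L v) := by
  induction L with
  | nil => exact ⟨1, fun v => by simp [up]⟩
  | cons q L ih =>
    have hq := hL q (by simp)
    have hL' : ∀ q ∈ L, odd q.1 = s ∧ odd q.2 = !s := fun p hp => hL p (by simp [hp])
    obtain ⟨ε, hε⟩ := ih hL'
    refine ⟨-ε, fun v => ?_⟩
    show EE q.1 q.2 (up L (EE a b v)) = -ε • EE a b (EE q.1 q.2 (up L v))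
    rw [hε, map_smul, F3_anti hq.1 hq.2 ha hb]
    simp

theorem F3_kill' (h2 : (2 : K) ≠ 0) {s : Bool} (L : List (Lt k l × Lt k l))
    (hL : ∀ q ∈ L, odd q.1 = s ∧ odd q.2 = !s) {a b : Lt k l} (hab : (a, b) ∈ L)
    (u : W K k l (Fin m)) : up L (EE a b u) = 0 := by
  obtain ⟨ε, hε⟩ := F3_sgn (K := K) (m := m) L hL (hL _ hab).1 (hL _ hab).2
  rw [hε, F3_kill h2 L hL hab, smul_zero]

theorem F3_corr (h2 : (2 : K) ≠ 0) {s : Bool} (L1 L2 : List (Lt k l × Lt k l))
    (hL : ∀ q ∈ L1 ++ L2, odd q.1 = s ∧ odd q.2 = !s) {a b : Lt k l} (hab : (a, b) ∈ L1 ++ L2)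
    (u : W K k l (Fin m)) : up L1 (EE a b (up L2 u)) = 0 := by
  rcases List.mem_append.1 hab with h | h
  · exact F3_kill' h2 L1 (fun q hq => hL q (List.mem_append_left _ hq)) h _
  · rw [F3_kill h2 L2 (fun q hq => hL q (List.mem_append_right _ hq)) h, map_zero]

theorem F3_comm (h2 : (2 : K) ≠ 0) {s : Bool} {L : List (Lt k l × Lt k l)}
    (hL : ∀ q, q ∈ L ↔ (odd q.1 = s ∧ odd q.2 = !s)) {a b : Lt k l} (hab : odd a = odd b)
    (hne : a ≠ b) (u : W K k l (Fin m)) (L2 : List (Lt k l × Lt k l)) :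
    ∀ L1, L = L1 ++ L2 → up L1 (EE a b (up L2 u)) = up L (EE a b u) := by
  induction L2 with
  | nil =>
    intro L1 h
    rw [List.append_nil] at h
    subst h
    simp [up]
  | cons q L2 ih =>
    intro L1 h
    have hsub : ∀ p ∈ L1 ++ L2, odd p.1 = s ∧ odd p.2 = !s := by
      intro p hp
      rw [← hL, h]
      rcases List.mem_append.1 hp with hp | hp
      · exact List.mem_append_left _ hp
      · exact List.mem_append_right _ (List.mem_cons_of_mem _ hp)
    have hmem : ∀ p : Lt k l × Lt k l, p ≠ q → odd p.1 = s → odd p.2 = (!s) → p ∈ L1 ++ L2 := by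
      intro p hp h3 h4
      have h5 : p ∈ L := (hL p).2 ⟨h3, h4⟩
      rw [h] at h5
      rcases List.mem_append.1 h5 with h5 | h5
      · exact List.mem_append_left _ h5
      · rcases List.mem_cons.1 h5 with h5 | h5
        · exact absurd h5 hp
        · exact List.mem_append_right _ h5
    have hq : odd q.1 = s ∧ odd q.2 = !s := (hL q).1 (by rw [h]; simp)
    have h6 := ih (L1 ++ [q]) (by rw [h]; simp)
    rw [F3_up_append] at h6
    have h7 : up L1 (EE q.1 q.2 (EE a b (up L2 u))) = up L (EE a b u) := by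
      rw [← h6]; simp [up]
    show up L1 (EE a b (EE q.1 q.2 (up L2 u))) = up L (EE a b u)
    have hdd : (dd a b q.1 q.2 : K) = 1 := by
      unfold dd; rw [hab]; simp
    rw [EE_comm_apply, hdd, one_smul, one_smul, map_sub, map_add, h7]
    have e1 : up L1 (if b = q.1 then EE a q.2 (up L2 u) else 0) = 0 := by
      split_ifs with hb
      · apply F3_corr h2 L1 L2 hsub
        apply hmem
        · intro e
          apply hne
          have : a = q.1 := congrArg Prod.fst e
          rw [this, hb]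
        · show odd a = s
          rw [hab, hb]; exact hq.1
        · exact hq.2
      · exact map_zero _
    have e2 : up L1 (if q.2 = a then EE q.1 b (up L2 u) else 0) = 0 := by
      split_ifs with hb
      · apply F3_corr h2 L1 L2 hsub
        apply hmem
        · intro e
          apply hne
          have : b = q.2 := congrArg Prod.snd e
          rw [this, hb]
        · exact hq.1
        · show odd b = !s
          rw [← hab, ← hb]; exact hq.2
      · exact map_zero _
    rw [e1, e2, add_zero, sub_zero]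

theorem F3_mem_std (q : Lt k l × Lt k l) :
    q ∈ Lstd k l ↔ (odd q.1 = false ∧ odd q.2 = !false) := by
  obtain ⟨a, b⟩ := q
  unfold Lstd
  rcases a with i | j <;> rcases b with i' | j' <;> simp [odd]

theorem F3_mem_opp (q : Lt k l × Lt k l) :
    q ∈ Lopp k l ↔ (odd q.1 = true ∧ odd q.2 = !true) := by
  obtain ⟨a, b⟩ := q
  unfold Lopp
  rcases a with i | j <;> rcases b with i' | j' <;> simp [odd]

theorem F3_mem_dn (q : Lt k l × Lt k l) :
    q ∈ ((Lstd k l).map Prod.swap).reverse ↔ (odd q.1 = true ∧ odd q.2 = !true) := by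
  rw [List.mem_reverse, List.mem_map]
  constructor
  · rintro ⟨p, hp, rfl⟩
    have := (F3_mem_std p).1 hp
    exact ⟨this.2, this.1⟩
  · intro h
    exact ⟨q.swap, (F3_mem_std _).2 ⟨h.2, h.1⟩, Prod.swap_swap q⟩

end aux

section kill

variable {K : Type} [Field K]

/-- the operators `EE (inl _) (inr _)` anticommute and have square `0` (`EE_comm_apply`, `EE_sq`) -/
theorem up_std_kill (h2 : (2 : K) ≠ 0) (i : Fin k) (j : Fin l) (u : W K k l (Fin m)) :
    EE (Sum.inl i) (Sum.inr j) (up (Lstd k l) u) = 0 :=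
  F3_kill h2 _ (fun q hq => (F3_mem_std q).1 hq) ((F3_mem_std _).2 ⟨rfl, rfl⟩) u

theorem up_opp_kill (h2 : (2 : K) ≠ 0) (i : Fin k) (j : Fin l) (u : W K k l (Fin m)) :
    EE (Sum.inr j) (Sum.inl i) (up (Lopp k l) u) = 0 :=
  F3_kill h2 _ (fun q hq => (F3_mem_opp q).1 hq) ((F3_mem_opp _).2 ⟨rfl, rfl⟩) u

/-- `dn Lstd` is the product of all `EE (inr j) (inl i)` -/
theorem dn_std_kill (h2 : (2 : K) ≠ 0) (i : Fin k) (j : Fin l) (u : W K k l (Fin m)) :
    EE (Sum.inr j) (Sum.inl i) (dn (Lstd k l) u) = 0 := by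
  rw [F3_dn_eq]
  exact F3_kill h2 _ (fun q hq => (F3_mem_dn q).1 hq) ((F3_mem_dn _).2 ⟨rfl, rfl⟩) u

/-- `EE a b` with `a ≠ b` of the same parity commutes with `up Lstd` and with `dn Lstd`: the commutator with one factor is a
factor that occurs already (and factors anticommute with square zero). -/
theorem up_std_comm (h2 : (2 : K) ≠ 0) {a b : Lt k l} (hab : odd a = odd b) (hne : a ≠ b)
    (u : W K k l (Fin m)) : EE a b (up (Lstd k l) u) = up (Lstd k l) (EE a b u) := by
  have h := F3_comm h2 (F3_mem_std (k := k) (l := l)) hab hne u (Lstd k l) [] rfl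
  rw [← h]
  simp [up]

theorem dn_std_comm (h2 : (2 : K) ≠ 0) {a b : Lt k l} (hab : odd a = odd b) (hne : a ≠ b)
    (u : W K k l (Fin m)) : EE a b (dn (Lstd k l) u) = dn (Lstd k l) (EE a b u) := by
  rw [F3_dn_eq]
  have h := F3_comm h2 (F3_mem_dn (k := k) (l := l)) hab hne u
    (((Lstd k l).map Prod.swap).reverse) [] rfl
  rw [← h]
  simp [up]

end kill

theorem up_act {A K : Type} [CommRing A] [CommRing K] [Algebra A K]
    (y : MonoidAlgebra A (Perm (Fin m))) (L : List (Lt k l × Lt k l)) (u : W K k l (Fin m)) :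
    act A K k l _ y (up L u) = up L (act A K k l _ y u) := by
  induction L with
  | nil => simp [up]
  | cons q L ih =>
    show act A K k l _ y (EE q.1 q.2 (up L u)) = EE q.1 q.2 (up L (act A K k l _ y u))
    rw [← ih]
    exact LinearMap.congr_fun (act_EE y q.1 q.2) (up L u)

theorem dn_act {A K : Type} [CommRing A] [CommRing K] [Algebra A K]
    (y : MonoidAlgebra A (Perm (Fin m))) (L : List (Lt k l × Lt k l)) (u : W K k l (Fin m)) :
    act A K k l _ y (dn L u) = dn L (act A K k l _ y u) := by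
  rw [F3_dn_eq]
  exact up_act y _ u

theorem F3_onZ_up {K : Type} [CommRing K] (L : List (Lt k l × Lt k l)) {n : Lt k l → ℤ}
    {u : W K k l (Fin m)} (hu : OnZ n u) :
    OnZ (n + (L.map fun q => Pi.single q.1 (1 : ℤ) - Pi.single q.2 1).sum) (up L u) := by
  induction L with
  | nil => simpa [up] using hu
  | cons q L ih =>
    have h := EE_onZ ih q.1 q.2
    rw [List.map_cons, List.sum_cons]
    have e : n + (Pi.single q.1 (1 : ℤ) - Pi.single q.2 1 +
        (L.map fun q => Pi.single q.1 (1 : ℤ) - Pi.single q.2 1).sum)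
        = n + (L.map fun q => Pi.single q.1 (1 : ℤ) - Pi.single q.2 1).sum
          + Pi.single q.1 1 - Pi.single q.2 1 := by abel
    rw [e]
    exact h

theorem F3_sum_std :
    ((Lstd k l).map fun q => (Pi.single q.1 (1 : ℤ) - Pi.single q.2 1 : Lt k l → ℤ)).sum
      = Sum.elim (fun _ => (l : ℤ)) (fun _ => -(k : ℤ)) := by
  unfold Lstd
  rw [List.map_flatMap, List.flatMap_def, List.sum_flatten, List.map_map]
  have e1 : ∀ j : Fin l, (List.sum ∘ fun j : Fin l => List.map
      (fun q => (Pi.single q.1 (1 : ℤ) - Pi.single q.2 1 : Lt k l → ℤ))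
      (List.map (fun i => ((Sum.inl i : Lt k l), (Sum.inr j : Lt k l)))
        (List.finRange k).reverse)) j
      = ∑ i : Fin k, (Pi.single (Sum.inl i) (1 : ℤ) - Pi.single (Sum.inr j) 1 : Lt k l → ℤ) := by
    intro j
    rw [Fin.sum_univ_def]
    simp only [Function.comp, List.map_map, List.map_reverse, List.sum_reverse]
    rfl
  rw [List.map_congr_left (fun j _ => e1 j), ← Fin.sum_univ_def]
  funext c
  rcases c with i | j
  · simp [Finset.sum_apply, Pi.single_apply]
  · simp [Finset.sum_apply, Pi.single_apply]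

/-- the counts after `dn Lstd` and after `up Lstd` -/
theorem onZ_dn_std {K : Type} [CommRing K] {n : Lt k l → ℤ} {u : W K k l (Fin m)}
    (hu : OnZ n u) : OnZ (n + Sum.elim (fun _ => -(l : ℤ)) (fun _ => (k : ℤ))) (dn (Lstd k l) u) := by
  have h := F3_onZ_up ((Lstd k l).map Prod.swap).reverse hu
  rw [List.map_reverse, List.sum_reverse, List.map_map] at h
  have e : ((Lstd k l).map ((fun q => (Pi.single q.1 (1 : ℤ) - Pi.single q.2 1 : Lt k l → ℤ))
      ∘ Prod.swap)).sum = Sum.elim (fun _ => -(l : ℤ)) (fun _ => (k : ℤ)) := by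
    have e2 : ∀ q : Lt k l × Lt k l, ((fun q => (Pi.single q.1 (1 : ℤ) - Pi.single q.2 1 :
        Lt k l → ℤ)) ∘ Prod.swap) q = - (Pi.single q.1 (1 : ℤ) - Pi.single q.2 1) := by
      intro q
      show (Pi.single q.2 (1 : ℤ) - Pi.single q.1 1 : Lt k l → ℤ) = _
      rw [neg_sub]
    rw [List.map_congr_left (fun q _ => e2 q)]
    have e3 : ∀ L : List (Lt k l × Lt k l),
        (L.map fun q => -(Pi.single q.1 (1 : ℤ) - Pi.single q.2 1 : Lt k l → ℤ)).sum
        = - (L.map fun q => (Pi.single q.1 (1 : ℤ) - Pi.single q.2 1 : Lt k l → ℤ)).sum := by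
      intro L
      induction L with
      | nil => simp
      | cons q L ih => rw [List.map_cons, List.sum_cons, List.map_cons, List.sum_cons, ih]; abel
    rw [e3, F3_sum_std]
    funext c
    rcases c with i | j <;> simp
  rw [e] at h
  rw [F3_dn_eq]
  exact h

theorem onZ_up_std {K : Type} [CommRing K] {n : Lt k l → ℤ} {u : W K k l (Fin m)}
    (hu : OnZ n u) : OnZ (n + Sum.elim (fun _ => (l : ℤ)) (fun _ => -(k : ℤ))) (up (Lstd k l) u) := by
  have h := F3_onZ_up (Lstd k l) hu
  rw [F3_sum_std] at h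
  exact h

end Pool.PI34.SK
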