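import Pool.Agent.LibPI34.SKF2
import Pool.Agent.LibPI34.SKF3

/-!
PI34, E-block for odd primes, row SKG: `M_r` is generated by `L⁺` and by `L⁻`.
-/

set_option linter.unusedVariables false

namespace Pool.PI34.SK

open Equiv Finset
open Pool.PI34.Super (Lt odd)

variable {k l m : ℕ}

section general

variable {K : Type} [CommRing K]

/-- for `a ≠ b`: if `n + e_b = n' + e_a` then `wproj n (EE a b v) = EE a b (wproj n' v)` (`cts_update`) -/
theorem wproj_EE {a b : Lt k l} (hab : a ≠ b) (n n' : Lt k l → ℕ)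
    (h : n + Pi.single b 1 = n' + Pi.single a 1) (v : W K k l (Fin m)) :
    wproj n (EE a b v) = EE a b (wproj n' v) := by
  classical
  funext w
  rw [wproj_apply, EE_apply, EE_apply]
  by_cases h1 : cts w = n
  · rw [if_pos h1]
    refine Finset.sum_congr rfl (fun s _ => ?_)
    by_cases hs : w s = a
    · rw [if_pos hs, if_pos hs, wproj_apply, if_pos]
      have h2 := cts_update w s a b hs hab
      rw [h1, h] at h2
      exact add_right_cancel h2
    · rw [if_neg hs, if_neg hs]
  · rw [if_neg h1]
    symm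
    refine Finset.sum_eq_zero (fun s _ => ?_)
    by_cases hs : w s = a
    · rw [if_pos hs, wproj_apply, if_neg, mul_zero]
      intro h2
      apply h1
      have h3 := cts_update w s a b hs hab
      rw [h2, ← h] at h3
      exact (add_right_cancel h3).symm
    · rw [if_neg hs]

/-- the projections commute with the diagonal operators -/
theorem wproj_EE_diag (a : Lt k l) (n : Lt k l → ℕ) (v : W K k l (Fin m)) :
    wproj n (EE a a v) = EE a a (wproj n v) := by
  classical
  funext w
  rw [wproj_apply, EE_diag, EE_diag, wproj_apply]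
  split_ifs <;> simp

/-- if `n a = 0` and `a ≠ b` then `wproj n (EE a b v) = 0` -/
theorem wproj_EE_zero {a b : Lt k l} (n : Lt k l → ℕ) (h : n a = 0) (v : W K k l (Fin m)) :
    wproj n (EE a b v) = 0 := by
  classical
  funext w
  rw [wproj_apply, EE_apply]
  by_cases h1 : cts w = n
  · rw [if_pos h1]
    refine Finset.sum_eq_zero (fun s _ => ?_)
    by_cases hs : w s = a
    · exfalso
      have h2 : cts w a = 0 := by rw [h1, h]
      unfold cts Pool.PI34.Super.cnt at h2
      rw [Finset.card_eq_zero] at h2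
      have h3 : s ∈ univ.filter (fun t => w t = a) := by simp [hs]
      rw [h2] at h3
      exact absurd h3 (Finset.notMem_empty s)
    · rw [if_neg hs]
  · rw [if_neg h1]; rfl

/-- `wproj_EE_mem` without the hypothesis that `N` is graded -/
theorem wproj_EE_mem' {N : Submodule K (W K k l (Fin m))} (a b : Lt k l)
    (hst : ∀ v ∈ N, EE a b v ∈ N) (n : Lt k l → ℕ) {v : W K k l (Fin m)}
    (hv : ∀ n, wproj n v ∈ N) : wproj n (EE a b v) ∈ N := by
  by_cases hab : a = b
  · subst hab
    rw [wproj_EE_diag]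
    exact hst _ (hv n)
  · by_cases hn : n a = 0
    · rw [wproj_EE_zero n hn]
      exact N.zero_mem
    · have h : n + Pi.single b 1 = (n + Pi.single b 1 - Pi.single a 1) + Pi.single a 1 := by
        funext c
        simp only [Pi.add_apply, Pi.sub_apply, Pi.single_apply]
        by_cases hca : c = a
        · subst hca
          simp only [if_true]
          omega
        · simp only [hca, if_false]
          omega
      rw [wproj_EE hab n _ h]
      exact hst _ (hv _)

/-- if there is no such `n'` (that is `n a = 0`) then `wproj n (EE a b v) = 0`;  for `a = b` the operators commute -/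
theorem wproj_EE_mem {N : Submodule K (W K k l (Fin m))} (hg : Graded N) (a b : Lt k l)
    (hst : ∀ v ∈ N, EE a b v ∈ N) (n : Lt k l → ℕ) {v : W K k l (Fin m)}
    (hv : ∀ n, wproj n v ∈ N) : wproj n (EE a b v) ∈ N :=
  wproj_EE_mem' a b hst n hv

/-- `{v | v ∈ gen S X ∧ ∀ n, wproj n v ∈ gen S X}` contains `X` and is stable. -/
theorem gen_graded {S : Set (Module.End K (W K k l (Fin m)))}
    (hS : ∀ T ∈ S, ∃ a b, T = EE a b) {X : Submodule K (W K k l (Fin m))} (hX : Graded X) :
    Graded (gen S X) := by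
  let N : Submodule K (W K k l (Fin m)) :=
    gen S X ⊓ ⨅ n : Lt k l → ℕ, (gen S X).comap (wproj n)
  have hmem : ∀ v, v ∈ N ↔ v ∈ gen S X ∧ ∀ n, wproj n v ∈ gen S X := by
    intro v
    simp only [N, Submodule.mem_inf, Submodule.mem_iInf, Submodule.mem_comap]
  have h1 : gen S X ≤ N := by
    refine gen_le ?_ ?_
    · intro v hv
      rw [hmem]
      exact ⟨le_gen _ _ hv, fun n => le_gen _ _ (hX n v hv)⟩
    · intro T hT v hv
      rw [hmem] at hv ⊢
      refine ⟨gen_stable hT hv.1, fun n => ?_⟩
      obtain ⟨a, b, rfl⟩ := hS T hT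
      exact wproj_EE_mem' a b (fun u hu => gen_stable hT hu) n hv.2
  intro n u hu
  exact ((hmem u).1 (h1 hu)).2 n

end general

section field

variable {A K : Type} [CommRing A] [Field K] [Algebra A K] {p : ℕ} [Fact p.Prime]
  [Algebra A ℚ] [Algebra A (ZMod p)] [PInt p A]

theorem mem_Lp {A K : Type} [CommRing A] [CommRing K] [Algebra A K] {p : ℕ}
    (r : Fin m → ZMod p) (u : W K k l (Fin m)) :
    u ∈ Lp A K r ↔ u ∈ MM A K r ∧ ∀ (i : Fin k) (j : Fin l), EE (Sum.inl i) (Sum.inr j) u = 0 := by
  simp only [Lp, Submodule.mem_inf, Submodule.mem_iInf, LinearMap.mem_ker]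

theorem mem_Lm {A K : Type} [CommRing A] [CommRing K] [Algebra A K] {p : ℕ}
    (r : Fin m → ZMod p) (u : W K k l (Fin m)) :
    u ∈ Lm A K r ↔ u ∈ MM A K r ∧ ∀ (i : Fin k) (j : Fin l), EE (Sum.inr j) (Sum.inl i) u = 0 := by
  simp only [Lm, Submodule.mem_inf, Submodule.mem_iInf, LinearMap.mem_ker]

theorem Lp_graded (r : Fin m → ZMod p) : Graded (Lp (k := k) (l := l) A K r) := by
  intro n u hu
  rw [mem_Lp] at hu ⊢
  exact ⟨MM_graded r n u hu.1, fun i j => EE_wproj_zero Sum.inl_ne_inr (hu.2 i j) n⟩

theorem Lm_graded (r : Fin m → ZMod p) : Graded (Lm (k := k) (l := l) A K r) := by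
  intro n u hu
  rw [mem_Lm] at hu ⊢
  exact ⟨MM_graded r n u hu.1, fun i j => EE_wproj_zero Sum.inr_ne_inl (hu.2 i j) n⟩

/-- `EE_comm_apply`: for `odd a = odd b` the commutator of `EE a b` with an operator of `Sup` is in the span of `Sup`. -/
theorem Lp_g0 (r : Fin m → ZMod p) {a b : Lt k l} (hab : odd a = odd b) {u : W K k l (Fin m)}
    (hu : u ∈ Lp A K r) : EE a b u ∈ Lp A K r := by
  rw [mem_Lp] at hu ⊢
  refine ⟨MM_EE r a b hu.1, fun i j => ?_⟩
  rw [EE_comm_apply, hu.2 i j, map_zero, smul_zero, zero_add]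
  have h1 : (if Sum.inr j = a then EE (Sum.inl i) b u else 0) = 0 := by
    split_ifs with h
    · subst h
      rcases b with b | b
      · simp [odd] at hab
      · exact hu.2 i b
    · rfl
  have h2 : (if b = Sum.inl i then EE a (Sum.inr j) u else 0) = 0 := by
    split_ifs with h
    · subst h
      rcases a with a | a
      · exact hu.2 a j
      · simp [odd] at hab
    · rfl
  rw [h1, h2, smul_zero, sub_zero]

theorem Lm_g0 (r : Fin m → ZMod p) {a b : Lt k l} (hab : odd a = odd b) {u : W K k l (Fin m)}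
    (hu : u ∈ Lm A K r) : EE a b u ∈ Lm A K r := by
  rw [mem_Lm] at hu ⊢
  refine ⟨MM_EE r a b hu.1, fun i j => ?_⟩
  rw [EE_comm_apply, hu.2 i j, map_zero, smul_zero, zero_add]
  have h1 : (if Sum.inl i = a then EE (Sum.inr j) b u else 0) = 0 := by
    split_ifs with h
    · subst h
      rcases b with b | b
      · exact hu.2 b j
      · simp [odd] at hab
    · rfl
  have h2 : (if b = Sum.inr j then EE a (Sum.inl i) u else 0) = 0 := by
    split_ifs with h
    · subst h
      rcases a with a | a
      · simp [odd] at hab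
      · exact hu.2 i a
    · rfl
  rw [h1, h2, smul_zero, sub_zero]

/-- `2 ≠ 0` in `K`, by `hK` and `p ≠ 2` -/
theorem two_ne (hp : p ≠ 2) (hg : Good A p k l K) : (2 : K) ≠ 0 := by
  intro h
  have h1 : ((2 : ℤ) : ZMod p) = 0 := hg.hK 2 (by exact_mod_cast h)
  rw [ZMod.intCast_zmod_eq_zero_iff_dvd] at h1
  have h2 : p ∣ 2 := by exact_mod_cast h1
  have hpp : p.Prime := Fact.out
  exact hp ((Nat.prime_dvd_prime_iff_eq hpp Nat.prime_two).1 h2)

end field

end Pool.PI34.SK
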