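import Pool.Agent.LibPI34.SKG

/-!
PI34, E-block for odd primes, row SKG2: `M_r` is generated by `L⁺` and by `L⁻` (main statements).
-/

set_option linter.unusedVariables false
set_option linter.unusedSectionVars false

namespace Pool.PI34.SK

open Equiv Finset
open Pool.PI34.Super (Lt odd)

variable {k l m : ℕ}

section aux

variable {K : Type} [CommRing K]

theorem G2_wproj_adj (n : Lt k l → ℕ) (f g : W K k l (Fin m)) :
    ip (wproj n f) g = ip f (wproj n g) := by
  classical
  unfold ip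
  refine Finset.sum_congr rfl (fun w _ => ?_)
  rw [wproj_apply, wproj_apply]
  split_ifs <;> simp

theorem G2_stable (s : Bool) {X : Submodule K (W K k l (Fin m))}
    (hX : ∀ x ∈ X, ∀ a b : Lt k l, odd a = s → odd b = (!s) → EE a b x = 0)
    {S : Set (Module.End K (W K k l (Fin m)))}
    (hS : ∀ T, T ∈ S ↔ ∃ a b : Lt k l, (odd a = odd b ∨ (odd a = (!s) ∧ odd b = s)) ∧ T = EE a b) :
    ∀ v ∈ gen S X, ∀ a b : Lt k l, EE a b v ∈ gen S X := by
  classical
  let N : Submodule K (W K k l (Fin m)) :=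
    { carrier := {v | v ∈ gen S X ∧ ∀ a b : Lt k l, odd a = s → odd b = (!s) → EE a b v ∈ gen S X}
      add_mem' := by
        rintro x y ⟨hx1, hx2⟩ ⟨hy1, hy2⟩
        refine ⟨add_mem hx1 hy1, fun a b ha hb => ?_⟩
        rw [map_add]
        exact add_mem (hx2 a b ha hb) (hy2 a b ha hb)
      zero_mem' := ⟨zero_mem _, fun a b _ _ => by rw [map_zero]; exact zero_mem _⟩
      smul_mem' := by
        rintro c x ⟨hx1, hx2⟩
        refine ⟨Submodule.smul_mem _ _ hx1, fun a b ha hb => ?_⟩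
        rw [map_smul]
        exact Submodule.smul_mem _ _ (hx2 a b ha hb) }
  have hst : ∀ (c d : Lt k l) (v : W K k l (Fin m)),
      (odd c = odd d ∨ (odd c = (!s) ∧ odd d = s)) → v ∈ gen S X → EE c d v ∈ gen S X :=
    fun c d v h hv => gen_stable ((hS _).2 ⟨c, d, h, rfl⟩) hv
  have hN : gen S X ≤ N := by
    refine gen_le (fun x hx => ⟨le_gen _ _ hx, fun a b ha hb => ?_⟩) ?_
    · rw [hX x hx a b ha hb]; exact zero_mem _
    · intro T hT v hv
      obtain ⟨c, d, hcd, rfl⟩ := (hS T).1 hT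
      refine ⟨hst c d v hcd hv.1, fun a b ha hb => ?_⟩
      rw [EE_comm_apply]
      refine sub_mem (add_mem (Submodule.smul_mem _ _ (hst c d _ hcd (hv.2 a b ha hb))) ?_)
        (Submodule.smul_mem _ _ ?_)
      · split_ifs with h
        · rcases hcd with h1 | ⟨h1, h2⟩
          · refine hv.2 a d ha ?_
            rw [← h1, ← h]; exact hb
          · refine hst a d v (Or.inl ?_) hv.1
            rw [ha, h2]
        · exact zero_mem _
      · split_ifs with h
        · rcases hcd with h1 | ⟨h1, h2⟩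
          · refine hv.2 c b ?_ hb
            rw [h1, h]; exact ha
          · refine hst c b v (Or.inl ?_) hv.1
            rw [h1, hb]
        · exact zero_mem _
  intro v hv a b
  by_cases h : odd a = s ∧ odd b = !s
  · exact (hN hv).2 a b h.1 h.2
  · refine hst a b v ?_ hv
    cases ha : odd a <;> cases hb : odd b <;> cases s <;> simp_all

end aux

section field

variable {A K : Type} [CommRing A] [Field K] [Algebra A K] {p : ℕ} [Fact p.Prime]
  [Algebra A ℚ] [Algebra A (ZMod p)] [PInt p A]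

/-- nondegeneracy: a vector of `M_r` orthogonal to `M_r` is zero (`ip_single`, `zr_selfAdj`, `mem_MM`) -/
theorem MM_nondeg (hg : Good A p k l K) (r : Fin m → ZMod p) {u : W K k l (Fin m)}
    (hu : u ∈ MM A K r) (h : ∀ v ∈ MM A K r, ip u v = 0) : u = 0 := by
  classical
  funext w
  have h1 := h (act A K k l _ (zr A p k l m r) (Pi.single w 1)) ⟨_, rfl⟩
  rw [← zr_selfAdj r, (mem_MM hg r u).1 hu, ip_single] at h1
  exact h1

/-- If `N ≤ M_r` and `N ≠ M_r` there is `v ≠ 0` in `M_r` orthogonal to `N`.  PROOF.  A linear functional `φ` on `W` with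
`φ = 0` on `N` and `φ x ≠ 0` for some `x ∈ M_r` (`Submodule.exists_le_ker_of_notMem` or similar); `φ = ip g ·`
with `g w = φ (Pi.single w 1)`; `v := act (zr) g`. -/
theorem exists_orth (hg : Good A p k l K) (r : Fin m → ZMod p)
    {N : Submodule K (W K k l (Fin m))} (hN : N ≤ MM A K r) (hne : ¬ MM A K r ≤ N) :
    ∃ v ∈ MM A K r, v ≠ 0 ∧ ∀ x ∈ N, ip v x = 0 := by
  classical
  obtain ⟨x, hx, hxN⟩ := SetLike.not_le_iff_exists.1 hne
  obtain ⟨φ, hφx, hφ⟩ := Submodule.exists_le_ker_of_notMem hxN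
  let g : W K k l (Fin m) := fun w => φ (Pi.single w 1)
  have hgφ : ∀ v, ip g v = φ v := by
    intro v
    have h1 : v = ∑ w, v w • (Pi.single w (1 : K) : W K k l (Fin m)) := by
      funext w'
      rw [Finset.sum_apply]
      rw [Finset.sum_eq_single w']
      · simp
      · intro b _ hb
        simp [Ne.symm hb]
      · intro h; exact absurd (Finset.mem_univ _) h
    conv_rhs => rw [h1]
    rw [map_sum]
    unfold ip
    refine Finset.sum_congr rfl (fun w _ => ?_)
    rw [map_smul, smul_eq_mul, mul_comm]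
  refine ⟨act A K k l _ (zr A p k l m r) g, ⟨g, rfl⟩, ?_, ?_⟩
  · intro h0
    apply hφx
    rw [← hgφ, ← (mem_MM hg r x).1 hx, ← zr_selfAdj, h0, ip_zero_left]
  · intro y hy
    rw [zr_selfAdj, (mem_MM hg r y).1 (hN hy), hgφ]
    exact hφ hy

/-- In `M_r` the product of the factors of a chain is `≠ 0` in `K`: with `HH` every factor is `a - b - 1 = 1` in `ZMod p`
(`gamZ ω n = gam ω (cts w)`), and `hK`. -/
theorem fac_ne (hp : p ≠ 2) (hg : Good A p k l K) {ω : Lt k l → ℕ} {n : Lt k l → ℤ}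
    (h : ∀ c, ((gamZ ω n c : ℤ) : ZMod p) = if odd c then rb p k l else ra p k l)
    (L : List (Lt k l × Lt k l)) (hL : ∀ q ∈ L, odd q.1 ≠ odd q.2) :
    (((L.map (fac ω n)).prod : ℤ) : K) ≠ 0 := by
  intro h0
  have h1 := hg.hK _ h0
  have h2 : ∀ L : List (Lt k l × Lt k l), (∀ q ∈ L, odd q.1 ≠ odd q.2) →
      (((L.map (fac ω n)).prod : ℤ) : ZMod p) = 1 := by
    intro L hL
    induction L with
    | nil => simp
    | cons q L ih =>
      rw [List.map_cons, List.prod_cons, Int.cast_mul, ih (fun q hq => hL q (by simp [hq])),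
        mul_one]
      have hq := hL q (by simp)
      unfold fac
      rw [Int.cast_sub, Int.cast_one]
      cases h3 : odd q.1 with
      | false =>
        have h4 : odd q.2 = true := by
          cases h5 : odd q.2 with
          | false => rw [h3, h5] at hq; exact absurd rfl hq
          | true => rfl
        rw [if_neg (by simp), Int.cast_sub, h, h, h3, h4]
        simp only [ra, rb]
        simp
      | true =>
        have h4 : odd q.2 = false := by
          cases h5 : odd q.2 with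
          | true => rw [h3, h5] at hq; exact absurd rfl hq
          | false => rfl
        rw [if_pos rfl, Int.cast_sub, h, h, h3, h4]
        simp only [ra, rb]
        simp
  rw [h2 L hL] at h1
  exact one_ne_zero h1

theorem G2_gen (hp : p ≠ 2) (hg : Good A p k l K) (r : Fin m → ZMod p)
    (hH : HH A K k l r) {ω ω' : Lt k l → ℕ} (hω : ω = std ∨ ω = opp)
    {L : List (Lt k l × Lt k l)} (hL : Valid ω L ω') (hpar : ∀ q ∈ L, odd q.1 ≠ odd q.2)
    {X : Submodule K (W K k l (Fin m))} (hXM : X ≤ MM A K r) (hXg : Graded X)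
    (hX : ∀ x ∈ MM A K r, up L (dn L x) ∈ X) : MM A K r ≤ gen Sall X := by
  classical
  by_contra hne
  have hNM : gen Sall X ≤ MM A K r := by
    refine gen_le hXM ?_
    rintro T ⟨a, b, rfl⟩ v hv
    exact MM_EE r a b hv
  have hNg : Graded (gen Sall X) := gen_graded (fun T hT => hT) hXg
  let Q : Submodule K (W K k l (Fin m)) :=
    { carrier := {v | v ∈ MM A K r ∧ ∀ x ∈ gen Sall X, ip v x = 0}
      add_mem' := by
        rintro x y ⟨hx1, hx2⟩ ⟨hy1, hy2⟩
        refine ⟨add_mem hx1 hy1, fun z hz => ?_⟩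
        rw [ip_add_left, hx2 z hz, hy2 z hz, add_zero]
      zero_mem' := ⟨zero_mem _, fun z _ => ip_zero_left z⟩
      smul_mem' := by
        rintro c x ⟨hx1, hx2⟩
        refine ⟨Submodule.smul_mem _ _ hx1, fun z hz => ?_⟩
        rw [ip_smul_left, hx2 z hz, mul_zero] }
  have hQg : Graded Q := by
    intro n u hu
    refine ⟨MM_graded r n u hu.1, fun x hx => ?_⟩
    rw [G2_wproj_adj]
    exact hu.2 _ (hNg n x hx)
  have hQst : ∀ a b : Lt k l, ω a < ω b → ∀ v ∈ Q, EE a b v ∈ Q := by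
    intro a b _ v hv
    refine ⟨MM_EE r a b hv.1, fun x hx => ?_⟩
    rw [EE_adj]
    exact hv.2 _ (gen_stable (T := EE b a) (show EE b a ∈ Sall from ⟨b, a, rfl⟩) hx)
  have hQne : Q ≠ ⊥ := by
    obtain ⟨v, hv, hv0, hvx⟩ := exists_orth hg r hNM hne
    intro hb
    have : v ∈ Q := ⟨hv, hvx⟩
    rw [hb] at this
    exact hv0 this
  obtain ⟨v, hvQ, hv0, hvHW, n, hn⟩ := exists_HW ω hQg hQst hQne
  obtain ⟨w, hw⟩ : ∃ w, v w ≠ 0 := by
    by_contra h
    push Not at h
    exact hv0 (funext h)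
  have hnZ : OnZ (fun c => (n c : ℤ)) v := by
    intro w hw c
    rw [hn w hw]
  have hc : ∀ c, ((gamZ ω (fun c => (n c : ℤ)) c : ℤ) : ZMod p)
      = if odd c then rb p k l else ra p k l := by
    intro c
    have h1 := hH v ((mem_MM hg r v).1 hvQ.1) ω hω hvHW w hw c
    rw [hn w hw] at h1
    exact h1
  have hf := fac_ne hp hg hc L hpar
  have hud := (up_dn (two_ne hp hg) L hL hvHW hnZ).1
  apply hv0
  refine MM_nondeg hg r hvQ.1 (fun x hx => ?_)
  have h1 : ip (up L (dn L v)) x = 0 := by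
    rw [up_adj, ip_comm, ← up_adj, ip_comm]
    exact hvQ.2 _ (le_gen _ _ (hX x hx))
  rw [hud, ip_smul_left] at h1
  exact (mul_eq_zero.1 h1).resolve_left hf

/-- PROOF.  Otherwise (`exists_orth`) `Q := {v ∈ M_r | ∀ x ∈ gen Sall L⁺, ip v x = 0} ≠ ⊥`; `Q` is graded (`gen_graded`) and stable
under all `EE` (`EE_adj`).  `exists_HW std`: `v ∈ Q`, on `n`.  `up_dn` (`valid_std`), `fac_ne`: `up L (dn L v) = c • v`, `c ≠ 0`.
For `x ∈ M_r`: `c * ip v x = ip (up L (dn L v)) x = ip (dn L v) (dn L x) = ip v (up L (dn L x)) = 0`, because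
`up L (dn L x) ∈ L⁺` (`up_std_kill`).  `MM_nondeg`: `v = 0`. -/
theorem gen_Lp (hp : p ≠ 2) (hg : Good A p k l K) (r : Fin m → ZMod p)
    (hH : HH A K k l r) : MM A K r ≤ gen Sall (Lp (k := k) (l := l) A K r) := by
  refine G2_gen hp hg r hH (Or.inl rfl) (valid_std k l) ?_ inf_le_left (Lp_graded r) ?_
  · intro q hq
    have h := (F3_mem_std q).1 hq
    rw [h.1, h.2]; simp
  · intro x hx
    refine ⟨?_, ?_⟩
    · show _ ∈ MM A K r
      rw [mem_MM hg, up_act, dn_act, (mem_MM hg r x).1 hx]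
    · show _ ∈ (⨅ (i : Fin k) (j : Fin l), LinearMap.ker (EE (Sum.inl i) (Sum.inr j)) :
        Submodule K (W K k l (Fin m)))
      simp only [Submodule.mem_iInf, LinearMap.mem_ker]
      intro i j
      exact up_std_kill (two_ne hp hg) i j _

/-- the same with `opp`, `Lopp` -/
theorem gen_Lm (hp : p ≠ 2) (hg : Good A p k l K) (r : Fin m → ZMod p)
    (hH : HH A K k l r) : MM A K r ≤ gen Sall (Lm (k := k) (l := l) A K r) := by
  refine G2_gen hp hg r hH (Or.inr rfl) (valid_opp k l) ?_ inf_le_left (Lm_graded r) ?_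
  · intro q hq
    have h := (F3_mem_opp q).1 hq
    rw [h.1, h.2]; simp
  · intro x hx
    refine ⟨?_, ?_⟩
    · show _ ∈ MM A K r
      rw [mem_MM hg, up_act, dn_act, (mem_MM hg r x).1 hx]
    · show _ ∈ (⨅ (i : Fin k) (j : Fin l), LinearMap.ker (EE (Sum.inr j) (Sum.inl i)) :
        Submodule K (W K k l (Fin m)))
      simp only [Submodule.mem_iInf, LinearMap.mem_ker]
      intro i j
      exact up_opp_kill (two_ne hp hg) i j _

/-- `gen (S0 ∪ Sdn) L⁺` is stable under `Sup`: `{v | ∀ T ∈ Sup, T v ∈ gen (S0 ∪ Sdn) L⁺}` contains `L⁺` and is stable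
under `S0 ∪ Sdn` (`EE_comm_apply`; compare `Super4.Qp_g1`). -/
theorem gen_Lp' (hp : p ≠ 2) (hg : Good A p k l K) (r : Fin m → ZMod p)
    (hH : HH A K k l r) : MM A K r ≤ gen (S0 ∪ Sdn) (Lp (k := k) (l := l) A K r) := by
  refine (gen_Lp hp hg r hH).trans (gen_le (le_gen _ _) ?_)
  rintro T ⟨a, b, rfl⟩ v hv
  refine G2_stable false ?_ ?_ v hv a b
  · rintro x hx (i | j) (i' | j') h1 h2
    · simp [odd] at h2
    · have h3 := hx.2
      simp only [Submodule.mem_iInf, LinearMap.mem_ker, SetLike.mem_coe] at h3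
      exact h3 i j'
    · simp [odd] at h1
    · simp [odd] at h1
  · intro T
    constructor
    · rintro (⟨a, b, h, rfl⟩ | ⟨i, j, rfl⟩)
      · exact ⟨a, b, Or.inl h, rfl⟩
      · exact ⟨_, _, Or.inr ⟨rfl, rfl⟩, rfl⟩
    · rintro ⟨a, b, h, rfl⟩
      rcases h with h | ⟨h1, h2⟩
      · exact Or.inl ⟨a, b, h, rfl⟩
      · rcases a with i | j
        · simp [odd] at h1
        · rcases b with i' | j'
          · exact Or.inr ⟨i', j, rfl⟩
          · simp [odd] at h2

theorem gen_Lm' (hp : p ≠ 2) (hg : Good A p k l K) (r : Fin m → ZMod p)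
    (hH : HH A K k l r) : MM A K r ≤ gen (S0 ∪ Sup) (Lm (k := k) (l := l) A K r) := by
  refine (gen_Lm hp hg r hH).trans (gen_le (le_gen _ _) ?_)
  rintro T ⟨a, b, rfl⟩ v hv
  refine G2_stable true ?_ ?_ v hv a b
  · rintro x hx (i | j) (i' | j') h1 h2
    · simp [odd] at h1
    · simp [odd] at h1
    · have h3 := hx.2
      simp only [Submodule.mem_iInf, LinearMap.mem_ker, SetLike.mem_coe] at h3
      exact h3 i' j
    · simp [odd] at h2
  · intro T
    constructor
    · rintro (⟨a, b, h, rfl⟩ | ⟨i, j, rfl⟩)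
      · exact ⟨a, b, Or.inl h, rfl⟩
      · exact ⟨_, _, Or.inr ⟨rfl, rfl⟩, rfl⟩
    · rintro ⟨a, b, h, rfl⟩
      rcases h with h | ⟨h1, h2⟩
      · exact Or.inl ⟨a, b, h, rfl⟩
      · rcases a with i | j
        · rcases b with i' | j'
          · simp [odd] at h2
          · exact Or.inr ⟨i, j', rfl⟩
        · simp [odd] at h1

end field

end Pool.PI34.SK
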