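import Pool.Agent.LibPI34.SKG2

/-!
PI34, E-block for odd primes, row SKH: the projection `G` on `V ⊗ M_r`.
-/

set_option linter.unusedVariables false
set_option linter.unusedSectionVars false

namespace Pool.PI34.SK

open Equiv Finset Polynomial
open Pool.PI34.Super (Lt odd)

section general

variable {K : Type} [CommRing K] {k l m : ℕ}

theorem skh_poly_ind {A : Type} [CommRing A] [Algebra A K]
    {Q : W K k l (Fin (m + 1)) → Prop}
    (hadd : ∀ u v, Q u → Q v → Q (u + v)) (hsmul : ∀ (c : K) (u), Q u → Q (c • u))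
    (hX : ∀ u, Q u → Q (act A K k l _ (XB A (univ : Finset (Fin m))) u)) (P : A[X])
    {u : W K k l (Fin (m + 1))} (hu : Q u) :
    Q (act A K k l _ (aeval (XB A (univ : Finset (Fin m))) P) u) := by
  induction P using Polynomial.induction_on' with
  | add p q hp hq =>
    rw [map_add, map_add, LinearMap.add_apply]
    exact hadd _ _ hp hq
  | monomial n a =>
    rw [aeval_monomial, ← Algebra.smul_def, act_smul_apply]
    refine hsmul _ _ ?_
    induction n with
    | zero => rw [pow_zero, map_one]; exact hu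
    | succ n ih => rw [pow_succ', map_mul, Module.End.mul_apply]; exact hX _ ih

/-- the component of a weight component -/
theorem skh_comp_wproj (n : Lt k l → ℕ) (c : Lt k l) :
    (∃ n' : Lt k l → ℕ, n = n' + Pi.single c 1 ∧
      ∀ u : W K k l (Fin (m + 1)), comp c (wproj n u) = wproj n' (comp c u)) ∨
    ∀ u : W K k l (Fin (m + 1)), comp c (wproj n u) = 0 := by
  classical
  by_cases h : ∃ n' : Lt k l → ℕ, n = n' + Pi.single c 1
  · left
    obtain ⟨n', hn'⟩ := h
    refine ⟨n', hn', fun u => ?_⟩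
    funext w
    rw [comp_apply, wproj_apply, wproj_apply, comp_apply, cts_cons, hn']
    by_cases h1 : cts w = n'
    · rw [if_pos (by rw [h1]), if_pos h1]
    · rw [if_neg (fun e => h1 (add_right_cancel e)), if_neg h1]
  · right
    intro u
    funext w
    rw [comp_apply, wproj_apply, if_neg]
    · rfl
    · intro e
      rw [cts_cons] at e
      exact h ⟨_, e.symm⟩

/-- a graded family of subspaces: components -/
theorem skh_comp_wproj_mem {N : Submodule K (W K k l (Fin m))} (hN : Graded N) (n : Lt k l → ℕ)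
    (c : Lt k l) {u : W K k l (Fin (m + 1))} (hu : comp c u ∈ N) : comp c (wproj n u) ∈ N := by
  rcases skh_comp_wproj (K := K) (m := m) n c with ⟨n', _, h⟩ | h
  · rw [h]; exact hN _ _ hu
  · rw [h]; exact N.zero_mem

theorem skh_comp_wproj_zero (n : Lt k l → ℕ)
    (c : Lt k l) {u : W K k l (Fin (m + 1))} (hu : comp c u = 0) : comp c (wproj n u) = 0 := by
  rcases skh_comp_wproj (K := K) (m := m) n c with ⟨n', _, h⟩ | h
  · rw [h, hu, map_zero]
  · exact h u

end general

variable {k l m : ℕ} {A K : Type} [CommRing A] [Field K] [Algebra A K] {p : ℕ} [Fact p.Prime]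
  [Algebra A ℚ] [Algebra A (ZMod p)] [PInt p A]

/-- the polynomial of the residue `a` evaluated at `X` -/
noncomputable def Gel (A : Type) [CommRing A] (p k l m : ℕ) :
    MonoidAlgebra A (Perm (Fin (m + 1))) :=
  aeval (XB A (univ : Finset (Fin m))) (gp A p k l m (ra p k l))

/-- `gpol_idem` -/
theorem Gel_idem (hg : Good A p k l K) (u : W K k l (Fin (m + 1))) :
    act A K k l _ (Gel A p k l m) (act A K k l _ (Gel A p k l m) u)
      = act A K k l _ (Gel A p k l m) u := by
  have h1 : act A K k l _ (Gel A p k l m)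
      = aeval (act A K k l _ (XB A (univ : Finset (Fin m)))) (gp A p k l m (ra p k l)) :=
    (Polynomial.aeval_algHom_apply _ _ _).symm
  have h2 := gpol_idem (A := A) (p := p) _ (hg.hP m) (ra p k l)
  rw [h1]
  exact LinearMap.congr_fun h2 u

/-- `X`, hence every polynomial in `X`, maps `V ⊗ M_r` into itself (`comp_XB`, `MM_EE`) -/
theorem comp_poly_MM (r : Fin m → ZMod p) {u : W K k l (Fin (m + 1))}
    (hu : ∀ c, comp c u ∈ MM A K r) (P : A[X]) (c : Lt k l) :
    comp c (act A K k l _ (aeval (XB A (univ : Finset (Fin m))) P) u) ∈ MM A K r := by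
  refine skh_poly_ind (Q := fun u : W K k l (Fin (m + 1)) => ∀ c, comp c u ∈ MM A K r)
    ?_ ?_ ?_ P hu c
  · intro u v hu hv c
    rw [map_add]
    exact (MM A K r).add_mem (hu c) (hv c)
  · intro a u hu c
    rw [map_smul]
    exact (MM A K r).smul_mem _ (hu c)
  · intro u hu c
    rw [comp_XB]
    exact (MM A K r).sum_mem (fun b _ => (MM A K r).smul_mem _ (MM_EE r b c (hu b)))

theorem skh_Lp_kill {r : Fin m → ZMod p} {a b : Lt k l} (ha : odd a = false) (hb : odd b = true)
    {u : W K k l (Fin m)} (hu : u ∈ Lp A K r) : EE a b u = 0 := by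
  unfold Lp at hu
  simp only [Submodule.mem_inf, Submodule.mem_iInf, LinearMap.mem_ker] at hu
  rcases a with i | i <;> rcases b with j | j
  · exact absurd hb (by simp [odd])
  · exact hu.2 i j
  · exact absurd ha (by simp [odd])
  · exact absurd ha (by simp [odd])

theorem skh_Lm_kill {r : Fin m → ZMod p} {a b : Lt k l} (ha : odd a = true) (hb : odd b = false)
    {u : W K k l (Fin m)} (hu : u ∈ Lm A K r) : EE a b u = 0 := by
  unfold Lm at hu
  simp only [Submodule.mem_inf, Submodule.mem_iInf, LinearMap.mem_ker] at hu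
  rcases a with i | i <;> rcases b with j | j
  · exact absurd ha (by simp [odd])
  · exact absurd ha (by simp [odd])
  · exact hu.2 j i
  · exact absurd hb (by simp [odd])

/-- `V₀ ⊗ L⁺` is stable under `X` (`comp_XB`: `EE b c` with `b` even, `c` odd kills `L⁺`; `Lp_g0`) -/
theorem V0Lp_poly (r : Fin m → ZMod p) {u : W K k l (Fin (m + 1))}
    (hu : ∀ c, comp c u ∈ Lp A K r ∧ (odd c = true → comp c u = 0)) (P : A[X]) (c : Lt k l) :
    comp c (act A K k l _ (aeval (XB A (univ : Finset (Fin m))) P) u) ∈ Lp A K r ∧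
      (odd c = true → comp c (act A K k l _ (aeval (XB A (univ : Finset (Fin m))) P) u) = 0) := by
  refine skh_poly_ind (Q := fun u : W K k l (Fin (m + 1)) =>
    ∀ c, comp c u ∈ Lp A K r ∧ (odd c = true → comp c u = 0)) ?_ ?_ ?_ P hu c
  · intro u v hu hv c
    rw [map_add]
    exact ⟨(Lp A K r).add_mem (hu c).1 (hv c).1, fun h => by rw [(hu c).2 h, (hv c).2 h, add_zero]⟩
  · intro a u hu c
    rw [map_smul]
    exact ⟨(Lp A K r).smul_mem _ (hu c).1, fun h => by rw [(hu c).2 h, smul_zero]⟩
  · intro u hu c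
    rw [comp_XB]
    by_cases hc : odd c = true
    · have h0 : ∑ b, (pm b c : K) • EB (univ : Finset (Fin m)) b c (comp b u) = 0 := by
        refine Finset.sum_eq_zero (fun b _ => ?_)
        by_cases hb : odd b = true
        · rw [(hu b).2 hb, map_zero, smul_zero]
        · have h1 : EE b c (comp b u) = 0 := skh_Lp_kill (by simpa using hb) hc (hu b).1
          unfold EE at h1
          rw [h1, smul_zero]
      exact ⟨by rw [h0]; exact (Lp A K r).zero_mem, fun _ => h0⟩
    · refine ⟨(Lp A K r).sum_mem (fun b _ => (Lp A K r).smul_mem _ ?_), fun h => absurd h hc⟩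
      by_cases hb : odd b = true
      · rw [(hu b).2 hb, map_zero]
        exact (Lp A K r).zero_mem
      · have h1 : EE b c (comp b u) ∈ Lp A K r :=
          Lp_g0 r (by rw [Bool.not_eq_true] at hb hc; rw [hb, hc]) (hu b).1
        exact h1

theorem V1Lm_poly (r : Fin m → ZMod p) {u : W K k l (Fin (m + 1))}
    (hu : ∀ c, comp c u ∈ Lm A K r ∧ (odd c = false → comp c u = 0)) (P : A[X]) (c : Lt k l) :
    comp c (act A K k l _ (aeval (XB A (univ : Finset (Fin m))) P) u) ∈ Lm A K r ∧
      (odd c = false → comp c (act A K k l _ (aeval (XB A (univ : Finset (Fin m))) P) u) = 0) := by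
  refine skh_poly_ind (Q := fun u : W K k l (Fin (m + 1)) =>
    ∀ c, comp c u ∈ Lm A K r ∧ (odd c = false → comp c u = 0)) ?_ ?_ ?_ P hu c
  · intro u v hu hv c
    rw [map_add]
    exact ⟨(Lm A K r).add_mem (hu c).1 (hv c).1, fun h => by rw [(hu c).2 h, (hv c).2 h, add_zero]⟩
  · intro a u hu c
    rw [map_smul]
    exact ⟨(Lm A K r).smul_mem _ (hu c).1, fun h => by rw [(hu c).2 h, smul_zero]⟩
  · intro u hu c
    rw [comp_XB]
    by_cases hc : odd c = false
    · have h0 : ∑ b, (pm b c : K) • EB (univ : Finset (Fin m)) b c (comp b u) = 0 := by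
        refine Finset.sum_eq_zero (fun b _ => ?_)
        by_cases hb : odd b = false
        · rw [(hu b).2 hb, map_zero, smul_zero]
        · have h1 : EE b c (comp b u) = 0 := skh_Lm_kill (by simpa using hb) hc (hu b).1
          unfold EE at h1
          rw [h1, smul_zero]
      exact ⟨by rw [h0]; exact (Lm A K r).zero_mem, fun _ => h0⟩
    · refine ⟨(Lm A K r).sum_mem (fun b _ => (Lm A K r).smul_mem _ ?_), fun h => absurd h hc⟩
      by_cases hb : odd b = false
      · rw [(hu b).2 hb, map_zero]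
        exact (Lm A K r).zero_mem
      · have h1 : EE b c (comp b u) ∈ Lm A K r :=
          Lm_g0 r (by rw [Bool.not_eq_false] at hb hc; rw [hb, hc]) (hu b).1
        exact h1

/-- `V₀ ⊗ L⁺` as a subspace -/
noncomputable def skhP (A K : Type) [CommRing A] [Field K] [Algebra A K]
    (r : Fin m → ZMod p) : Submodule K (W K k l (Fin (m + 1))) where
  carrier := {u | ∀ c, comp c u ∈ Lp A K r ∧ (odd c = true → comp c u = 0)}
  add_mem' := by
    intro u v hu hv c
    rw [map_add]
    exact ⟨(Lp A K r).add_mem (hu c).1 (hv c).1, fun h => by rw [(hu c).2 h, (hv c).2 h, add_zero]⟩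
  zero_mem' := by
    intro c
    rw [map_zero]
    exact ⟨(Lp A K r).zero_mem, fun _ => rfl⟩
  smul_mem' := by
    intro a u hu c
    rw [map_smul]
    exact ⟨(Lp A K r).smul_mem _ (hu c).1, fun h => by rw [(hu c).2 h, smul_zero]⟩

theorem mem_skhP {r : Fin m → ZMod p} {u : W K k l (Fin (m + 1))} :
    u ∈ skhP A K r ↔ ∀ c, comp c u ∈ Lp A K r ∧ (odd c = true → comp c u = 0) := Iff.rfl

/-- `V₁ ⊗ L⁻` as a subspace -/
noncomputable def skhM (A K : Type) [CommRing A] [Field K] [Algebra A K]
    (r : Fin m → ZMod p) : Submodule K (W K k l (Fin (m + 1))) where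
  carrier := {u | ∀ c, comp c u ∈ Lm A K r ∧ (odd c = false → comp c u = 0)}
  add_mem' := by
    intro u v hu hv c
    rw [map_add]
    exact ⟨(Lm A K r).add_mem (hu c).1 (hv c).1, fun h => by rw [(hu c).2 h, (hv c).2 h, add_zero]⟩
  zero_mem' := by
    intro c
    rw [map_zero]
    exact ⟨(Lm A K r).zero_mem, fun _ => rfl⟩
  smul_mem' := by
    intro a u hu c
    rw [map_smul]
    exact ⟨(Lm A K r).smul_mem _ (hu c).1, fun h => by rw [(hu c).2 h, smul_zero]⟩

theorem mem_skhM {r : Fin m → ZMod p} {u : W K k l (Fin (m + 1))} :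
    u ∈ skhM A K r ↔ ∀ c, comp c u ∈ Lm A K r ∧ (odd c = false → comp c u = 0) := Iff.rfl

theorem skhP_graded (r : Fin m → ZMod p) : Graded (skhP (k := k) (l := l) A K r) := by
  intro n u hu c
  exact ⟨skh_comp_wproj_mem (Lp_graded r) n c (hu c).1,
    fun h => skh_comp_wproj_zero n c ((hu c).2 h)⟩

theorem skhM_graded (r : Fin m → ZMod p) : Graded (skhM (k := k) (l := l) A K r) := by
  intro n u hu c
  exact ⟨skh_comp_wproj_mem (Lm_graded r) n c (hu c).1,
    fun h => skh_comp_wproj_zero n c ((hu c).2 h)⟩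

theorem skhP_EE (r : Fin m → ZMod p) {a b : Lt k l} (hab : std a < std b)
    {u : W K k l (Fin (m + 1))} (hu : u ∈ skhP A K r) : EE a b u ∈ skhP A K r := by
  rw [mem_skhP] at hu ⊢
  intro c
  rw [comp_EE]
  by_cases hpar : odd a = odd b
  · refine ⟨(Lp A K r).add_mem ?_ ((Lp A K r).smul_mem _ (Lp_g0 r hpar (hu c).1)), fun h => ?_⟩
    · split_ifs
      · exact (hu b).1
      · exact (Lp A K r).zero_mem
    · rw [(hu c).2 h, map_zero, smul_zero, add_zero]
      split_ifs with hc
      · exact (hu b).2 (by rw [← hpar, ← hc]; exact h)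
      · rfl
  · have h1 : odd a = false ∧ odd b = true := by
      rcases a with i | i <;> rcases b with j | j
      · exact absurd rfl hpar
      · exact ⟨rfl, rfl⟩
      · exfalso
        have h2 : k + i.val < j.val := hab
        omega
      · exact absurd rfl hpar
    have h2 : (if c = a then comp b u else 0) = 0 := by
      split_ifs
      · exact (hu b).2 h1.2
      · rfl
    rw [h2, skh_Lp_kill h1.1 h1.2 (hu c).1, smul_zero, add_zero]
    exact ⟨(Lp A K r).zero_mem, fun _ => rfl⟩

theorem skhM_EE (r : Fin m → ZMod p) {a b : Lt k l} (hab : opp a < opp b)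
    {u : W K k l (Fin (m + 1))} (hu : u ∈ skhM A K r) : EE a b u ∈ skhM A K r := by
  rw [mem_skhM] at hu ⊢
  intro c
  rw [comp_EE]
  by_cases hpar : odd a = odd b
  · refine ⟨(Lm A K r).add_mem ?_ ((Lm A K r).smul_mem _ (Lm_g0 r hpar (hu c).1)), fun h => ?_⟩
    · split_ifs
      · exact (hu b).1
      · exact (Lm A K r).zero_mem
    · rw [(hu c).2 h, map_zero, smul_zero, add_zero]
      split_ifs with hc
      · exact (hu b).2 (by rw [← hpar, ← hc]; exact h)
      · rfl
  · have h1 : odd a = true ∧ odd b = false := by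
      rcases a with i | i <;> rcases b with j | j
      · exact absurd rfl hpar
      · exfalso
        have h2 : l + i.val < j.val := hab
        omega
      · exact ⟨rfl, rfl⟩
      · exact absurd rfl hpar
    have h2 : (if c = a then comp b u else 0) = 0 := by
      split_ifs
      · exact (hu b).2 h1.2
      · rfl
    rw [h2, skh_Lm_kill h1.1 h1.2 (hu c).1, smul_zero, add_zero]
    exact ⟨(Lm A K r).zero_mem, fun _ => rfl⟩

/-- the top component of a highest weight vector and `G` -/
theorem skh_top (hk : 0 < k + l) (hg : Good A p k l K) (r : Fin m → ZMod p)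
    (hH : HH A K k l r) {ω : Lt k l → ℕ} (hω : Function.Injective ω) (hω' : ω = std ∨ ω = opp)
    {v : W K k l (Fin (m + 1))} (hv : HW ω v) {n : Lt k l → ℕ} (hn : On n v) (c : Lt k l)
    (hc0 : comp c v ≠ 0) (hc : ∀ c', ω c < ω c' → comp c' v = 0) (hM : comp c v ∈ MM A K r) :
    comp c (act A K k l _ (Gel A p k l m) v)
      = (if (if odd c then rb p k l else ra p k l) = ra p k l then (1 : K) else 0) • comp c v := by
  obtain ⟨n', hn', hon⟩ := comp_on hn c hc0
  obtain ⟨w, hw⟩ : ∃ w, comp c v w ≠ 0 := by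
    by_contra h
    push Not at h
    exact hc0 (funext h)
  have hcts : cts w = n' := hon w hw
  have h1 := hH (comp c v) ((mem_MM hg r _).1 hM) ω hω' (top_HW hω hv c hc) w hw c
  rw [hcts] at h1
  have h2 := (top_poly (A := A) hω hv c hc hon (gp A p k l m (ra p k l))).2
  have h3 : |gam ω n' c| ≤ ((m + k + l : ℕ) : ℤ) := by
    rw [← hcts]; exact gam_abs ω w c
  have h4 := gpol_eval (A := A) (p := p) (K := K) hk (ra p k l) (gam ω n' c) h3
  unfold Gel
  rw [h2]
  congr 1
  unfold gp
  rw [h4, h1]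

/-- `G = 1` on `V₀ ⊗ L⁺`.  PROOF.  `Q := {(1 - G) u | u ∈ V₀ ⊗ L⁺}` is contained in `V₀ ⊗ L⁺`, graded, stable under
`EE a b` for
`std a < std b` (same parity: `comp_EE`, `Lp_g0`; `a` even, `b` odd: it kills `V₀ ⊗ L⁺`).  If `Q ≠ ⊥`: `exists_HW std` gives
`u ∈ Q` on `n`, `G u = 0` (`Gel_idem`).  Top letter `c` (`exists_top`), `c` even, `comp c u ∈ L⁺ ⊂ M_r` is `HW std`
(`top_HW`), on `n'` (`comp_on`), `gam std n' c = a` by `HH` (a word of the support), and `comp c (G u) = 1 • comp c u ≠ 0` by
`top_poly`, `gpol_eval`, `gam_abs`.  Contradiction. -/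
theorem G_Lp (hp : p ≠ 2) (hk : 0 < k + l) (hg : Good A p k l K) (r : Fin m → ZMod p)
    (hH : HH A K k l r) {u : W K k l (Fin (m + 1))}
    (hu : ∀ c, comp c u ∈ Lp A K r ∧ (odd c = true → comp c u = 0)) :
    act A K k l _ (Gel A p k l m) u = u := by
  classical
  set G := act A K k l (Fin (m + 1)) (Gel A p k l m) with hG
  set Q : Submodule K (W K k l (Fin (m + 1))) := skhP A K r ⊓ LinearMap.ker G with hQ
  have hQbot : Q = ⊥ := by
    by_contra hne
    have hgr : Graded Q := by
      intro n v hv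
      refine ⟨skhP_graded r n v hv.1, ?_⟩
      have h1 : G v = 0 := hv.2
      change G (wproj n v) = 0
      rw [hG, act_wproj, ← hG, h1, map_zero]
    have hst : ∀ a b : Lt k l, std a < std b → ∀ v ∈ Q, EE a b v ∈ Q := by
      intro a b hab v hv
      refine ⟨skhP_EE r hab hv.1, ?_⟩
      have h1 : G v = 0 := hv.2
      change G (EE a b v) = 0
      have h2 := LinearMap.congr_fun (act_EE (K := K) (Gel A p k l m) a b) v
      simp only [Module.End.mul_apply] at h2
      rw [← hG, h1, map_zero] at h2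
      exact h2
    obtain ⟨v, hvQ, hv0, hHW, n, hn⟩ := exists_HW std hgr hst hne
    obtain ⟨c, hc0, hc⟩ := exists_top std hv0
    have hvP := mem_skhP.1 hvQ.1
    have hceven : odd c = false := by
      by_contra h
      rw [Bool.not_eq_false] at h
      exact hc0 ((hvP c).2 h)
    have hM : comp c v ∈ MM A K r := (hvP c).1.1
    have h1 := skh_top hk hg r hH std_inj (Or.inl rfl) hHW hn c hc0 hc hM
    rw [hceven] at h1
    simp only [Bool.false_eq_true, if_false, if_true, one_smul] at h1
    have h2 : G v = 0 := hvQ.2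
    rw [← hG, h2, map_zero] at h1
    exact hc0 h1.symm
  have hmem : u - G u ∈ Q := by
    refine ⟨(skhP A K r).sub_mem (mem_skhP.2 hu) (mem_skhP.2 (V0Lp_poly r hu _)), ?_⟩
    change G (u - G u) = 0
    rw [map_sub, hG, Gel_idem hg, sub_self]
  rw [hQbot, Submodule.mem_bot, sub_eq_zero] at hmem
  exact hmem.symm

/-- `G = 0` on `V₁ ⊗ L⁻`: the same with `opp`: `Q := {G u | u ∈ V₁ ⊗ L⁻}`, `u ∈ Q`, `G u = u`, top letter `c` odd, `gam opp n' c = b ≠ a`,
`comp c (G u) = 0`. -/
theorem G_Lm (hp : p ≠ 2) (hk : 0 < k + l) (hg : Good A p k l K) (r : Fin m → ZMod p)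
    (hH : HH A K k l r) {u : W K k l (Fin (m + 1))}
    (hu : ∀ c, comp c u ∈ Lm A K r ∧ (odd c = false → comp c u = 0)) :
    act A K k l _ (Gel A p k l m) u = 0 := by
  classical
  set G := act A K k l (Fin (m + 1)) (Gel A p k l m) with hG
  set Q : Submodule K (W K k l (Fin (m + 1))) := skhM A K r ⊓ LinearMap.ker (G - 1) with hQ
  have hker : ∀ v, v ∈ LinearMap.ker (G - 1) ↔ G v = v := by
    intro v
    rw [LinearMap.mem_ker, LinearMap.sub_apply, Module.End.one_apply, sub_eq_zero]
  have hQbot : Q = ⊥ := by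
    by_contra hne
    have hgr : Graded Q := by
      intro n v hv
      refine ⟨skhM_graded r n v hv.1, ?_⟩
      have h1 : G v = v := (hker v).1 hv.2
      refine (hker _).2 ?_
      rw [hG, act_wproj, ← hG, h1]
    have hst : ∀ a b : Lt k l, opp a < opp b → ∀ v ∈ Q, EE a b v ∈ Q := by
      intro a b hab v hv
      refine ⟨skhM_EE r hab hv.1, ?_⟩
      have h1 : G v = v := (hker v).1 hv.2
      refine (hker _).2 ?_
      have h2 := LinearMap.congr_fun (act_EE (K := K) (Gel A p k l m) a b) v
      simp only [Module.End.mul_apply] at h2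
      rw [← hG, h1] at h2
      exact h2
    obtain ⟨v, hvQ, hv0, hHW, n, hn⟩ := exists_HW opp hgr hst hne
    obtain ⟨c, hc0, hc⟩ := exists_top opp hv0
    have hvP := mem_skhM.1 hvQ.1
    have hcodd : odd c = true := by
      by_contra h
      rw [Bool.not_eq_true] at h
      exact hc0 ((hvP c).2 h)
    have hM : comp c v ∈ MM A K r := (hvP c).1.1
    have h1 := skh_top hk hg r hH opp_inj (Or.inr rfl) hHW hn c hc0 hc hM
    rw [hcodd] at h1
    simp only [if_true] at h1
    rw [if_neg (ra_ne_rb hp).1.symm, zero_smul, ← hG, (hker v).1 hvQ.2] at h1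
    exact hc0 h1
  have hmem : G u ∈ Q := by
    refine ⟨mem_skhM.2 (V1Lm_poly r hu _), ?_⟩
    refine (hker _).2 ?_
    rw [hG, Gel_idem hg]
  rw [hQbot, Submodule.mem_bot] at hmem
  exact hmem

end Pool.PI34.SK
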