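import Pool.Agent.LibPI34.SK6

/-!
PI34, E-block for odd primes, row SKI: placements on the blocks.
-/

set_option linter.unusedVariables false

namespace Pool.PI34.SK

open Equiv Finset Polynomial
open Pool.PI34.Super (Lt odd Conv)

section blocks

variable {K : Type} [CommRing K] {k l m m' : ℕ} {A : Type} [CommRing A] [Algebra A K]

/-- the embedding of the first block -/
def phL (m m' : ℕ) : Fin m ↪o Fin (m + m') := Fin.castAddOrderEmb m'

/-- the embedding of the second block -/
def phR (m m' : ℕ) : Fin m' ↪o Fin (m + m') := Fin.natAddOrderEmb m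

theorem conv_phL : Conv (phL m m') := by
  intro x hx
  right
  intro a
  rw [Fin.lt_def]
  by_contra h
  apply hx
  have hx1 : x.val < m := by
    have : (phL m m' a).val = a.val := rfl
    have := a.2; omega
  exact ⟨⟨x.val, hx1⟩, Fin.ext rfl⟩

theorem conv_phR : Conv (phR m m') := by
  intro x hx
  left
  intro a
  rw [Fin.lt_def]
  by_contra h
  apply hx
  have h0 : (phR m m' a).val = m + a.val := rfl
  have hx1 : x.val - m < m' := by have := x.2; omega
  refine ⟨⟨x.val - m, hx1⟩, Fin.ext ?_⟩
  change m + (x.val - m) = x.val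
  omega

theorem cast_notMem_phR (i : Fin m) : Fin.castAdd m' i ∉ Set.range (phR m m') := by
  rintro ⟨s, hs⟩
  have h1 := congrArg Fin.val hs
  have h2 : (phR m m' s).val = m + s.val := rfl
  rw [h2, Fin.val_castAdd] at h1
  have := i.2; omega

theorem nat_notMem_phL (s : Fin m') : Fin.natAdd m s ∉ Set.range (phL m m') := by
  rintro ⟨i, hs⟩
  have h1 := congrArg Fin.val hs
  have h3 : (phL m m' i).val = i.val := rfl
  rw [h3, Fin.val_natAdd] at h1
  have := i.2; omega

theorem ext_phR_cast (u : Fin m' → Lt k l) (w : Fin (m + m') → Lt k l) :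
    Function.extend (phR m m') u w ∘ Fin.castAdd m' = w ∘ Fin.castAdd m' := by
  funext i
  rw [Function.comp_apply, Function.extend_apply' _ _ _ (cast_notMem_phR i)]; rfl

theorem ext_phR_nat (u : Fin m' → Lt k l) (w : Fin (m + m') → Lt k l) :
    Function.extend (phR m m') u w ∘ Fin.natAdd m = u := by
  funext i
  have h : Fin.natAdd m i = phR m m' i := rfl
  rw [Function.comp_apply, h, (phR m m').injective.extend_apply]

theorem ext_phL_nat (u : Fin m → Lt k l) (w : Fin (m + m') → Lt k l) :
    Function.extend (phL m m') u w ∘ Fin.natAdd m = w ∘ Fin.natAdd m := by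
  funext i
  rw [Function.comp_apply, Function.extend_apply' _ _ _ (nat_notMem_phL i)]; rfl

theorem ext_phL_cast (u : Fin m → Lt k l) (w : Fin (m + m') → Lt k l) :
    Function.extend (phL m m') u w ∘ Fin.castAdd m' = u := by
  funext i
  have h : Fin.castAdd m' i = phL m m' i := rfl
  rw [Function.comp_apply, h, (phL m m').injective.extend_apply]

/-- `act_pl`: `sl (phL) w (tens f g) = g (w ∘ natAdd) • f` -/
theorem act_plL (y : MonoidAlgebra A (Perm (Fin m))) (f : W K k l (Fin m)) (g : W K k l (Fin m')) :
    act A K k l _ (pl A (phL m m') y) (tens f g) = tens (act A K k l _ y f) g := by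
  funext w
  have h : sl (phL m m') w (tens f g) = g (w ∘ Fin.natAdd m) • f := by
    funext u
    rw [sl_apply, tens_apply, ext_phL_cast, ext_phL_nat, Pi.smul_apply, smul_eq_mul, mul_comm]
  rw [act_pl conv_phL, tens_apply, h, map_smul, Pi.smul_apply, smul_eq_mul, mul_comm]
  rfl

theorem act_plR (y : MonoidAlgebra A (Perm (Fin m'))) (f : W K k l (Fin m))
    (g : W K k l (Fin m')) :
    act A K k l _ (pl A (phR m m') y) (tens f g) = tens f (act A K k l _ y g) := by
  funext w
  have h : sl (phR m m') w (tens f g) = f (w ∘ Fin.castAdd m') • g := by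
    funext u
    rw [sl_apply, tens_apply, ext_phR_cast, ext_phR_nat, Pi.smul_apply, smul_eq_mul]
  rw [act_pl conv_phR, tens_apply, h, map_smul, Pi.smul_apply, smul_eq_mul]
  rfl

/-- every function is a combination of tensor products (of `Pi.single`s) -/
theorem tens_span (u : W K k l (Fin (m + m'))) :
    u ∈ Submodule.span K {x | ∃ (f : W K k l (Fin m)) (g : W K k l (Fin m')), x = tens f g} := by
  classical
  have h1 : u = ∑ w, u w • tens (Pi.single (w ∘ Fin.castAdd m') (1 : K) : W K k l (Fin m))
      (Pi.single (w ∘ Fin.natAdd m) (1 : K) : W K k l (Fin m')) := by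
    funext v
    rw [Finset.sum_apply, Finset.sum_eq_single v]
    · rw [Pi.smul_apply, tens_apply, Pi.single_eq_same, Pi.single_eq_same, mul_one, smul_eq_mul,
        mul_one]
    · intro w _ hw
      rw [Pi.smul_apply, tens_apply]
      by_cases h2 : v ∘ Fin.castAdd m' = w ∘ Fin.castAdd m'
      · by_cases h3 : v ∘ Fin.natAdd m = w ∘ Fin.natAdd m
        · exfalso
          apply hw
          funext x
          refine Fin.addCases (fun i => ?_) (fun i => ?_) x
          · exact (congrFun h2 i).symm
          · exact (congrFun h3 i).symm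
        · rw [Pi.single_eq_of_ne h3, mul_zero, smul_zero]
      · rw [Pi.single_eq_of_ne h2, zero_mul, smul_zero]
    · intro h; exact absurd (Finset.mem_univ _) h
  rw [h1]
  refine Submodule.sum_mem _ (fun w _ => Submodule.smul_mem _ _ (Submodule.subset_span ?_))
  exact ⟨_, _, rfl⟩

/-- `x ↦ (first strand of x) ⊗ (rest of x) ⊗ g` -/
def TT (g : W K k l (Fin m')) : W K k l (Fin (m + 1)) →ₗ[K] W K k l (Fin (m + m' + 1)) where
  toFun x := ∑ c, ins c (tens (comp c x) g)
  map_add' x y := by
    rw [← Finset.sum_add_distrib]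
    exact Finset.sum_congr rfl (fun c _ => by rw [map_add, tens_add_left, map_add])
  map_smul' a x := by
    rw [RingHom.id_apply, Finset.smul_sum]
    exact Finset.sum_congr rfl (fun c _ => by rw [map_smul, tens_smul_left, map_smul])

/-- the parity operator if `c` is odd -/
def sgc (c : Lt k l) : W K k l (Fin m) →ₗ[K] W K k l (Fin m) where
  toFun f := fun w => (∏ i, if odd c && odd (w i) then (-1 : K) else 1) * f w
  map_add' f g := by funext w; simp only [Pi.add_apply]; ring
  map_smul' a f := by funext w; simp only [Pi.smul_apply, smul_eq_mul, RingHom.id_apply]; ring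

theorem sgc_apply (c : Lt k l) (f : W K k l (Fin m)) (w : Fin m → Lt k l) :
    sgc c f w = (∏ i, if odd c && odd (w i) then (-1 : K) else 1) * f w := rfl

/-- `x ↦ (first strand of x) ⊗ f ⊗ (rest of x)` with the sign of the exchange -/
def TT' (f : W K k l (Fin m)) : W K k l (Fin (m' + 1)) →ₗ[K] W K k l (Fin (m + m' + 1)) where
  toFun x := ∑ c, ins c (tens (sgc c f) (comp c x))
  map_add' x y := by
    rw [← Finset.sum_add_distrib]
    exact Finset.sum_congr rfl (fun c _ => by rw [map_add, tens_add_right, map_add])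
  map_smul' a x := by
    rw [RingHom.id_apply, Finset.smul_sum]
    exact Finset.sum_congr rfl (fun c _ => by rw [map_smul, tens_smul_right, map_smul])

theorem TT_ins (g : W K k l (Fin m')) (c : Lt k l) (f : W K k l (Fin m)) :
    TT g (ins c f) = ins c (tens f g) := by
  classical
  change ∑ d, ins d (tens (comp d (ins c f)) g) = _
  rw [Finset.sum_eq_single c]
  · rw [comp_ins, if_pos rfl]
  · intro d _ hd
    rw [comp_ins, if_neg hd, tens_zero_left, map_zero]
  · intro h; exact absurd (Finset.mem_univ _) h

theorem sgc_sgc (c : Lt k l) (f : W K k l (Fin m)) : sgc c (sgc c f) = f := by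
  funext w
  rw [sgc_apply, sgc_apply, ← mul_assoc, ← Finset.prod_mul_distrib, Finset.prod_eq_one, one_mul]
  intro i _
  split_ifs <;> simp

theorem sg_sgc (c d : Lt k l) (f : W K k l (Fin m)) : sg c d (sgc c f) = sgc d f := by
  funext w
  rw [sg_apply, sgc_apply, sgc_apply, ← mul_assoc, ← Finset.prod_mul_distrib]
  congr 1
  refine Finset.prod_congr rfl (fun i _ => ?_)
  unfold eta
  cases odd c <;> cases odd d <;> cases odd (w i) <;> simp

theorem TT'_ins (f : W K k l (Fin m)) (c : Lt k l) (g : W K k l (Fin m')) :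
    TT' f (ins c g) = ins c (tens (sgc c f) g) := by
  classical
  change ∑ d, ins d (tens (sgc d f) (comp d (ins c g))) = _
  rw [Finset.sum_eq_single c]
  · rw [comp_ins, if_pos rfl]
  · intro d _ hd
    rw [comp_ins, if_neg hd, tens_zero_right, map_zero]
  · intro h; exact absurd (Finset.mem_univ _) h

/-- Two linear maps that agree on all `ins c f` are equal. -/
theorem lin_ext_ins {V : Type*} [AddCommGroup V] [Module K V] {φ ψ : W K k l (Fin (m + 1)) →ₗ[K] V}
    (h : ∀ c (f : W K k l (Fin m)), φ (ins c f) = ψ (ins c f)) (x : W K k l (Fin (m + 1))) :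
    φ x = ψ x := by
  rw [sum_ins x, map_sum, map_sum]
  exact Finset.sum_congr rfl (fun c _ => h c _)

/-- `x = ∑ ins c (comp c x)` (`sum_ins`), `X_ins`, `XBl_ins`, `TT_ins` -/
theorem TT_X (g : W K k l (Fin m')) (x : W K k l (Fin (m + 1))) :
    act A K k l _ (XB A (Bl m m')) (TT g x) = TT g (act A K k l _ (XB A univ) x) := by
  refine lin_ext_ins (φ := (act A K k l _ (XB A (Bl m m'))).comp (TT g))
    (ψ := (TT g).comp (act A K k l _ (XB A univ))) (fun c f => ?_) x
  rw [LinearMap.comp_apply, LinearMap.comp_apply, TT_ins, XBl_ins, X_ins, map_sum]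
  exact Finset.sum_congr rfl (fun d _ => by rw [map_smul, TT_ins])

/-- `X_ins`, `XBr_ins`, `TT'_ins`, `sg_sgc` -/
theorem TT'_X (f : W K k l (Fin m)) (x : W K k l (Fin (m' + 1))) :
    act A K k l _ (XB A (Br m m')) (TT' f x) = TT' f (act A K k l _ (XB A univ) x) := by
  refine lin_ext_ins (φ := (act A K k l _ (XB A (Br m m'))).comp (TT' f))
    (ψ := (TT' f).comp (act A K k l _ (XB A univ))) (fun c g => ?_) x
  rw [LinearMap.comp_apply, LinearMap.comp_apply, TT'_ins, XBr_ins, X_ins, map_sum]
  exact Finset.sum_congr rfl (fun d _ => by rw [map_smul, TT'_ins, sg_sgc])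

/-- Intertwining with polynomials. -/
theorem act_aeval_inter {n n' : ℕ} {y : MonoidAlgebra A (Perm (Fin n))}
    {y' : MonoidAlgebra A (Perm (Fin n'))} {φ : W K k l (Fin n) →ₗ[K] W K k l (Fin n')}
    (h : ∀ x, act A K k l _ y' (φ x) = φ (act A K k l _ y x)) (P : A[X])
    (x : W K k l (Fin n)) :
    act A K k l _ (aeval y' P) (φ x) = φ (act A K k l _ (aeval y P) x) := by
  induction P using Polynomial.induction_on generalizing x with
  | C a =>
    rw [aeval_C, aeval_C, Algebra.algebraMap_eq_smul_one, Algebra.algebraMap_eq_smul_one,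
      act_smul_apply, act_smul_apply, map_one, map_one, Module.End.one_apply,
      Module.End.one_apply, map_smul]
  | add P Q hP hQ =>
    rw [map_add, map_add, map_add, map_add, LinearMap.add_apply, LinearMap.add_apply, map_add,
      hP, hQ]
  | monomial n a hP =>
    rw [pow_succ, ← mul_assoc, map_mul (aeval y') (C a * X ^ n) X,
      map_mul (aeval y) (C a * X ^ n) X, aeval_X, aeval_X, map_mul (act A K k l _) _ y',
      map_mul (act A K k l _) _ y, Module.End.mul_apply, Module.End.mul_apply, h, hP]

theorem TT_poly (g : W K k l (Fin m')) (P : A[X]) (x : W K k l (Fin (m + 1))) :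
    act A K k l _ (aeval (XB A (Bl m m')) P) (TT g x)
      = TT g (act A K k l _ (aeval (XB A (univ : Finset (Fin m))) P) x) :=
  act_aeval_inter (fun x => TT_X g x) P x

theorem TT'_poly (f : W K k l (Fin m)) (P : A[X]) (x : W K k l (Fin (m' + 1))) :
    act A K k l _ (aeval (XB A (Br m m')) P) (TT' f x)
      = TT' f (act A K k l _ (aeval (XB A (univ : Finset (Fin m'))) P) x) :=
  act_aeval_inter (fun x => TT'_X f x) P x

end blocks

end Pool.PI34.SK
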