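import Pool.Agent.LibPI34.SKI
import Pool.Agent.LibPI34.SKG2

/-!
PI34, E-block for odd primes, row SKI2: the tensor square `M ⊗ M`.
-/

set_option linter.unusedVariables false
set_option linter.unusedSectionVars false

namespace Pool.PI34.SK

open Equiv Finset Polynomial
open Pool.PI34.Super (Lt odd Conv)

section square

variable {k l m : ℕ} {A K : Type} [CommRing A] [Field K] [Algebra A K] {p : ℕ} [Fact p.Prime]
  [Algebra A ℚ] [Algebra A (ZMod p)] [PInt p A]

/-- the projection on `M ⊗ M` -/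
noncomputable def z2 (A : Type) [CommRing A] {p : ℕ} (k l : ℕ) {m : ℕ} (r : Fin m → ZMod p) :
    MonoidAlgebra A (Perm (Fin (m + m))) :=
  pl A (phL m m) (zr A p k l m r) * pl A (phR m m) (zr A p k l m r)

/-- `M ⊗ M` -/
noncomputable def M2 (A K : Type) [CommRing A] [CommRing K] [Algebra A K] {p k l m : ℕ}
    (r : Fin m → ZMod p) : Submodule K (W K k l (Fin (m + m))) :=
  LinearMap.range (act A K k l (Fin (m + m)) (z2 A k l r))

theorem z2_tens (r : Fin m → ZMod p) (f g : W K k l (Fin m)) :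
    act A K k l _ (z2 A k l r) (tens f g)
      = tens (act A K k l _ (zr A p k l m r) f) (act A K k l _ (zr A p k l m r) g) := by
  unfold z2
  rw [map_mul, Module.End.mul_apply, act_plR, act_plL]

/-- `tens_span`, `z2_tens`, `zr_idem` -/
theorem z2_idem (hg : Good A p k l K) (r : Fin m → ZMod p) (u : W K k l (Fin (m + m))) :
    act A K k l _ (z2 A k l r) (act A K k l _ (z2 A k l r) u) = act A K k l _ (z2 A k l r) u := by
  induction tens_span u using Submodule.span_induction with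
  | mem x hx =>
    obtain ⟨f, g, rfl⟩ := hx
    rw [z2_tens, z2_tens, zr_idem hg, zr_idem hg]
  | zero => simp only [map_zero]
  | add x y _ _ hx hy => rw [map_add, map_add, hx, hy]
  | smul a x _ hx => rw [map_smul, map_smul, hx]

theorem mem_M2 (hg : Good A p k l K) (r : Fin m → ZMod p) (u : W K k l (Fin (m + m))) :
    u ∈ M2 A K r ↔ act A K k l _ (z2 A k l r) u = u := by
  constructor
  · rintro ⟨x, rfl⟩
    exact z2_idem hg r x
  · intro h
    exact ⟨u, h⟩

theorem tens_mem_M2 (hg : Good A p k l K) (r : Fin m → ZMod p) {f g : W K k l (Fin m)}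
    (hf : f ∈ MM A K r) (hg' : g ∈ MM A K r) : tens f g ∈ M2 A K r := by
  rw [mem_M2 hg, z2_tens, (mem_MM hg r f).1 hf, (mem_MM hg r g).1 hg']

theorem M2_EE (r : Fin m → ZMod p) (a b : Lt k l) {u : W K k l (Fin (m + m))}
    (hu : u ∈ M2 A K r) : EE a b u ∈ M2 A K r := by
  obtain ⟨x, rfl⟩ := hu
  exact ⟨EE a b x, LinearMap.congr_fun (act_EE (z2 A k l r) a b) x⟩

/-- `tens_span`, `z2_tens` -/
theorem M2_le_span (r : Fin m → ZMod p) :
    M2 A K r ≤ Submodule.span K {x | ∃ f ∈ MM (k := k) (l := l) A K r,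
      ∃ g ∈ MM (k := k) (l := l) A K r, x = tens f g} := by
  rintro _ ⟨u, rfl⟩
  induction tens_span u using Submodule.span_induction with
  | mem x hx =>
    obtain ⟨f, g, rfl⟩ := hx
    rw [z2_tens]
    exact Submodule.subset_span ⟨_, ⟨f, rfl⟩, _, ⟨g, rfl⟩, rfl⟩
  | zero => rw [map_zero]; exact Submodule.zero_mem _
  | add x y _ _ hx hy => rw [map_add]; exact Submodule.add_mem _ hx hy
  | smul a x _ hx => rw [map_smul]; exact Submodule.smul_mem _ a hx

/-- the set of the `f ⊗ g` with `f ∈ L⁺`, `g ∈ L⁻` -/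
def Xpm (A K : Type) [CommRing A] [CommRing K] [Algebra A K] {p k l m : ℕ} (r : Fin m → ZMod p) :
    Set (W K k l (Fin (m + m))) :=
  {x | ∃ f ∈ Lp (k := k) (l := l) A K r, ∃ g ∈ Lm (k := k) (l := l) A K r, x = tens f g}

/-- the set of the `f ⊗ g` with `f ∈ L⁻`, `g ∈ L⁺` -/
def Xmp (A K : Type) [CommRing A] [CommRing K] [Algebra A K] {p k l m : ℕ} (r : Fin m → ZMod p) :
    Set (W K k l (Fin (m + m))) :=
  {x | ∃ f ∈ Lm (k := k) (l := l) A K r, ∃ g ∈ Lp (k := k) (l := l) A K r, x = tens f g}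

/-- the common part of `M2_le_pm` and `M2_le_mp` -/
theorem M2_le_gen (r : Fin m → ZMod p) (La Lb : Submodule K (W K k l (Fin m)))
    (S1 : Set (Module.End K (W K k l (Fin m))))
    (h1 : MM A K r ≤ gen (S0 ∪ S1) La) (h2 : MM A K r ≤ gen Sall Lb)
    (h3 : ∀ a b, odd a = odd b → ∀ g ∈ Lb, EE a b g ∈ Lb)
    (h4 : ∀ T ∈ S1, ∃ a b, T = EE a b ∧ ∀ g ∈ Lb, EE a b g = 0) :
    M2 A K r ≤ gen Sall (Submodule.span K {x | ∃ f ∈ La, ∃ g ∈ Lb, x = tens f g}) := by
  generalize hX : Submodule.span K {x : W K k l (Fin (m + m)) | ∃ f ∈ La, ∃ g ∈ Lb,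
    x = tens f g} = X
  have hX' : ∀ f ∈ La, ∀ g ∈ Lb, tens f g ∈ X := fun f hf g hg => by
    rw [← hX]
    exact Submodule.subset_span ⟨f, hf, g, hg, rfl⟩
  have hNs : ∀ a b : Lt k l, ∀ v ∈ gen Sall X, EE a b v ∈ gen Sall X := by
    intro a b v hv
    have hS : (EE a b : Module.End K (W K k l (Fin (m + m)))) ∈
        (Sall : Set (Module.End K (W K k l (Fin (m + m))))) := ⟨a, b, rfl⟩
    exact gen_stable hS hv
  have hXN : X ≤ gen Sall X := le_gen _ _
  generalize gen Sall X = N at hNs hXN ⊢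
  let P1 : Submodule K (W K k l (Fin m)) :=
    { carrier := {u | ∀ g ∈ Lb, tens u g ∈ N}
      add_mem' := fun {x y} hx hy g hg => by
        rw [tens_add_left]; exact N.add_mem (hx g hg) (hy g hg)
      zero_mem' := fun g hg => by rw [tens_zero_left]; exact N.zero_mem
      smul_mem' := fun a x hx g hg => by
        rw [tens_smul_left]; exact N.smul_mem a (hx g hg) }
  have hP1 : MM A K r ≤ P1 := by
    refine h1.trans (gen_le ?_ ?_)
    · intro f hf g hg
      exact hXN (hX' f hf g hg)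
    · rintro T (⟨a, b, hab, rfl⟩ | hT) v hv g hg
      · have h := EE_tens a b v g
        rw [sg_same a b hab] at h
        have h' : tens (EE a b v) g = EE a b (tens v g) - tens v (EE a b g) := by
          rw [h, add_sub_cancel_right]
        rw [h']
        exact N.sub_mem (hNs a b _ (hv g hg)) (hv _ (h3 a b hab g hg))
      · obtain ⟨a, b, rfl, h0⟩ := h4 T hT
        have h := EE_tens a b v g
        rw [h0 g hg, tens_zero_right, add_zero] at h
        rw [← h]
        exact hNs a b _ (hv g hg)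
  let P2 : Submodule K (W K k l (Fin m)) :=
    { carrier := {t | ∀ u ∈ MM (k := k) (l := l) A K r, tens u t ∈ N}
      add_mem' := fun {x y} hx hy g hg => by
        rw [tens_add_right]; exact N.add_mem (hx g hg) (hy g hg)
      zero_mem' := fun g hg => by rw [tens_zero_right]; exact N.zero_mem
      smul_mem' := fun a x hx g hg => by
        rw [tens_smul_right]; exact N.smul_mem a (hx g hg) }
  have hP2 : MM A K r ≤ P2 := by
    refine h2.trans (gen_le ?_ ?_)
    · intro g hg u hu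
      exact hP1 hu g hg
    · rintro T ⟨a, b, rfl⟩ t ht u hu
      have h := EE_tens a b (sg a b u) t
      rw [sg_sg] at h
      have h' : tens u (EE a b t) = EE a b (tens (sg a b u) t) - tens (EE a b (sg a b u)) t := by
        rw [h, add_sub_cancel_left]
      have hu' := MM_sg r a b hu
      rw [h']
      exact N.sub_mem (hNs a b _ (ht _ hu')) (ht _ (MM_EE r a b hu'))
  refine (M2_le_span r).trans (Submodule.span_le.2 ?_)
  rintro _ ⟨f, hf, g, hg, rfl⟩
  exact hP2 hg f hf

theorem mem_Lp_EE (r : Fin m → ZMod p) {g : W K k l (Fin m)} (hg : g ∈ Lp A K r) (i : Fin k)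
    (j : Fin l) : EE (Sum.inl i) (Sum.inr j) g = 0 := by
  have h := (Submodule.mem_inf.1 hg).2
  rw [Submodule.mem_iInf] at h
  have h' := h i
  rw [Submodule.mem_iInf] at h'
  exact h' j

theorem mem_Lm_EE (r : Fin m → ZMod p) {g : W K k l (Fin m)} (hg : g ∈ Lm A K r) (i : Fin k)
    (j : Fin l) : EE (Sum.inr j) (Sum.inl i) g = 0 := by
  have h := (Submodule.mem_inf.1 hg).2
  rw [Submodule.mem_iInf] at h
  have h' := h i
  rw [Submodule.mem_iInf] at h'
  exact h' j

/-- PROOF.  Let `N` be the right side.  (1) `{u | ∀ g ∈ L⁻, tens u g ∈ N}` contains `L⁺` and is stable under `S0 ∪ Sdn`: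
`tens (EE a b u) g = EE a b (tens u g) - tens (sg a b u) (EE a b g)` (`EE_tens`); for `odd a = odd b`: `sg_same`, `Lm_g0`;
for `Sdn`: `EE a b g = 0` by the definition of `L⁻`.  So it contains `M` (`gen_Lp'`, `gen_le`).  (2) `{t | ∀ u ∈ M, tens u t ∈ N}`
contains `L⁻` by (1) and is stable under all `EE a b`: `tens u (EE a b t) = EE a b (tens u' t) - tens (EE a b u') t` with
`u' = sg a b u ∈ M` (`sg_sg`, `MM_sg`, `MM_EE`).  So it contains `M` (`gen_Lm`).  `M2_le_span`. -/
theorem M2_le_pm (hp : p ≠ 2) (hg : Good A p k l K) (r : Fin m → ZMod p) (hH : HH A K k l r) :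
    M2 A K r ≤ gen Sall (Submodule.span K (Xpm (k := k) (l := l) A K r)) := by
  refine M2_le_gen r (Lp A K r) (Lm A K r) Sdn (gen_Lp' hp hg r hH) (gen_Lm hp hg r hH)
    (fun a b hab g hg => Lm_g0 r hab hg) ?_
  rintro T ⟨i, j, rfl⟩
  exact ⟨_, _, rfl, fun g hg => mem_Lm_EE r hg i j⟩

/-- The same with the roles of `L⁺`, `L⁻` exchanged (`gen_Lm'`, `Lp_g0`, `Sup`, `gen_Lp`). -/
theorem M2_le_mp (hp : p ≠ 2) (hg : Good A p k l K) (r : Fin m → ZMod p) (hH : HH A K k l r) :
    M2 A K r ≤ gen Sall (Submodule.span K (Xmp (k := k) (l := l) A K r)) := by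
  refine M2_le_gen r (Lm A K r) (Lp A K r) Sup (gen_Lm' hp hg r hH) (gen_Lp hp hg r hH)
    (fun a b hab g hg => Lp_g0 r hab hg) ?_
  rintro T ⟨i, j, rfl⟩
  exact ⟨_, _, rfl, fun g hg => mem_Lp_EE r hg i j⟩

/-- `V ⊗ M ⊗ M` -/
def VM (A K : Type) [CommRing A] [CommRing K] [Algebra A K] {p k l m : ℕ} (r : Fin m → ZMod p) :
    Submodule K (W K k l (Fin (m + m + 1))) where
  carrier := {u | ∀ c, comp c u ∈ M2 A K r}
  add_mem' {x y} hx hy c := by rw [map_add]; exact add_mem (hx c) (hy c)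
  zero_mem' c := by rw [map_zero]; exact zero_mem _
  smul_mem' a x hx c := by rw [map_smul]; exact Submodule.smul_mem _ _ (hx c)

/-- `comp_EE`, `M2_EE` -/
theorem VM_EE (r : Fin m → ZMod p) (a b : Lt k l) {u : W K k l (Fin (m + m + 1))}
    (hu : u ∈ VM A K r) : EE a b u ∈ VM A K r := by
  intro c
  rw [comp_EE]
  refine add_mem ?_ (Submodule.smul_mem _ _ (M2_EE r a b (hu c)))
  split_ifs
  · exact hu b
  · exact zero_mem _

/-- Let `N` be stable under all `EE a b`, `X` a set with `M ⊗ M ≤ gen Sall (span X)` and `ins c x ∈ N` for all `c`, `x ∈ X`.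
Then `VM ≤ N`: the subspace `{x | ∀ c, ins c x ∈ N}` contains `X` and is stable under `EE a b` (`EE_ins`, multiply with
`eta a b c`); `sum_ins`. -/
theorem VM_le (r : Fin m → ZMod p) {X : Set (W K k l (Fin (m + m)))}
    (hX : M2 A K r ≤ gen Sall (Submodule.span K X)) {N : Submodule K (W K k l (Fin (m + m + 1)))}
    (hN : ∀ a b, ∀ v ∈ N, EE a b v ∈ N) (h : ∀ x ∈ X, ∀ c, ins c x ∈ N) : VM A K r ≤ N := by
  let P : Submodule K (W K k l (Fin (m + m))) :=
    { carrier := {x | ∀ c, ins c x ∈ N}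
      add_mem' := fun {x y} hx hy c => by rw [map_add]; exact N.add_mem (hx c) (hy c)
      zero_mem' := fun c => by rw [map_zero]; exact N.zero_mem
      smul_mem' := fun a x hx c => by rw [map_smul]; exact N.smul_mem a (hx c) }
  have hP : M2 A K r ≤ P := by
    refine hX.trans (gen_le (Submodule.span_le.2 fun x hx => h x hx) ?_)
    rintro T ⟨a, b, rfl⟩ x hx c
    have h1 := EE_ins a b c x
    have h2 : ins c (EE a b x) = (eta a b c : K) •
        (EE a b (ins c x) - (if b = c then ins a x else 0)) := by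
      rw [h1, add_sub_cancel_left, smul_smul, eta_sq, one_smul]
    rw [h2]
    refine N.smul_mem _ (N.sub_mem (hN a b _ (hx c)) ?_)
    split_ifs
    · exact hx a
    · exact N.zero_mem
  intro u hu
  rw [sum_ins u]
  exact N.sum_mem fun c _ => hP (hu c) c

end square

end Pool.PI34.SK
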