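import Pool.Agent.LibPI34.SKI2
import Pool.Agent.LibPI34.SKH

/-!
PI34, E-block for odd primes, row SKI3: the operator `G₁ + G₂ - 1` on `V ⊗ M ⊗ M`.
-/

set_option linter.unusedVariables false

namespace Pool.PI34.SK

open Equiv Finset Polynomial
open Pool.PI34.Super (Lt odd Conv)

section square

variable {k l m : ℕ} {A K : Type} [CommRing A] [Field K] [Algebra A K] {p : ℕ} [Fact p.Prime]
  [Algebra A ℚ] [Algebra A (ZMod p)] [PInt p A]

/-- `G₁` -/
noncomputable def G1 (A : Type) [CommRing A] (p k l m : ℕ) :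
    MonoidAlgebra A (Perm (Fin (m + m + 1))) :=
  aeval (XB A (Bl m m)) (gp A p k l m (ra p k l))

/-- `G₂` -/
noncomputable def G2 (A : Type) [CommRing A] (p k l m : ℕ) :
    MonoidAlgebra A (Perm (Fin (m + m + 1))) :=
  aeval (XB A (Br m m)) (gp A p k l m (ra p k l))

theorem SKI3_comp_ins {N : Submodule K (W K k l (Fin m))} {f : W K k l (Fin m)} (hf : f ∈ N)
    (c d : Lt k l) : comp d (ins c f) ∈ N := by
  rw [comp_ins]
  split_ifs
  · exact hf
  · exact zero_mem _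

theorem SKI3_even (hp : p ≠ 2) (hk : 0 < k + l) (hg : Good A p k l K) (r : Fin m → ZMod p)
    (hH : HH A K k l r) {f : W K k l (Fin m)} (hf : f ∈ Lp A K r) {c : Lt k l}
    (hc : odd c = false) : act A K k l _ (Gel A p k l m) (ins c f) = ins c f := by
  refine G_Lp hp hk hg r hH fun d => ⟨SKI3_comp_ins hf c d, fun hd => ?_⟩
  rw [comp_ins, if_neg]
  rintro rfl
  rw [hc] at hd
  exact absurd hd (by simp)

theorem SKI3_odd (hp : p ≠ 2) (hk : 0 < k + l) (hg : Good A p k l K) (r : Fin m → ZMod p)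
    (hH : HH A K k l r) {f : W K k l (Fin m)} (hf : f ∈ Lm A K r) {c : Lt k l}
    (hc : odd c = true) : act A K k l _ (Gel A p k l m) (ins c f) = 0 := by
  refine G_Lm hp hk hg r hH fun d => ⟨SKI3_comp_ins hf c d, fun hd => ?_⟩
  rw [comp_ins, if_neg]
  rintro rfl
  rw [hc] at hd
  exact absurd hd (by simp)

theorem SKI3_G1 (f g : W K k l (Fin m)) (c : Lt k l) :
    act A K k l _ (G1 A p k l m) (ins c (tens f g)) =
      TT g (act A K k l _ (Gel A p k l m) (ins c f)) := by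
  rw [← TT_ins]
  exact TT_poly g _ _

theorem SKI3_G2 (f g : W K k l (Fin m)) (c : Lt k l) :
    act A K k l _ (G2 A p k l m) (ins c (tens f g)) =
      TT' (sgc c f) (act A K k l _ (Gel A p k l m) (ins c g)) := by
  have h : ins c (tens f g) = TT' (sgc c f) (ins c g) := by rw [TT'_ins, sgc_sgc]
  rw [h]
  exact TT'_poly (sgc c f) _ _

theorem G1_even (hp : p ≠ 2) (hk : 0 < k + l) (hg : Good A p k l K) (r : Fin m → ZMod p)
    (hH : HH A K k l r) {f : W K k l (Fin m)} (hf : f ∈ Lp A K r) (g : W K k l (Fin m))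
    {c : Lt k l} (hc : odd c = false) :
    act A K k l _ (G1 A p k l m) (ins c (tens f g)) = ins c (tens f g) := by
  rw [SKI3_G1, SKI3_even hp hk hg r hH hf hc, TT_ins]

theorem G1_odd (hp : p ≠ 2) (hk : 0 < k + l) (hg : Good A p k l K) (r : Fin m → ZMod p)
    (hH : HH A K k l r) {f : W K k l (Fin m)} (hf : f ∈ Lm A K r) (g : W K k l (Fin m))
    {c : Lt k l} (hc : odd c = true) :
    act A K k l _ (G1 A p k l m) (ins c (tens f g)) = 0 := by
  rw [SKI3_G1, SKI3_odd hp hk hg r hH hf hc, map_zero]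

/-- `ins c (tens f g) = TT' (sgc c f) (ins c g)` -/
theorem G2_even (hp : p ≠ 2) (hk : 0 < k + l) (hg : Good A p k l K) (r : Fin m → ZMod p)
    (hH : HH A K k l r) (f : W K k l (Fin m)) {g : W K k l (Fin m)} (hg' : g ∈ Lp A K r)
    {c : Lt k l} (hc : odd c = false) :
    act A K k l _ (G2 A p k l m) (ins c (tens f g)) = ins c (tens f g) := by
  rw [SKI3_G2, SKI3_even hp hk hg r hH hg' hc, TT'_ins, sgc_sgc]

theorem G2_odd (hp : p ≠ 2) (hk : 0 < k + l) (hg : Good A p k l K) (r : Fin m → ZMod p)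
    (hH : HH A K k l r) (f : W K k l (Fin m)) {g : W K k l (Fin m)} (hg' : g ∈ Lm A K r)
    {c : Lt k l} (hc : odd c = true) :
    act A K k l _ (G2 A p k l m) (ins c (tens f g)) = 0 := by
  rw [SKI3_G2, SKI3_odd hp hk hg r hH hg' hc, map_zero]

/-- stability of `(VM ⊓ ker S) ⊔ (VM ⊓ ker T)` -/
theorem SKI3_stab (r : Fin m → ZMod p) {S T : Module.End K (W K k l (Fin (m + m + 1)))}
    (hS : ∀ a b v, S (EE a b v) = EE a b (S v)) (hT : ∀ a b v, T (EE a b v) = EE a b (T v)) :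
    ∀ a b, ∀ v ∈ (VM A K r ⊓ LinearMap.ker S) ⊔ (VM A K r ⊓ LinearMap.ker T),
      EE a b v ∈ (VM A K r ⊓ LinearMap.ker S) ⊔ (VM A K r ⊓ LinearMap.ker T) := by
  intro a b v hv
  obtain ⟨x, hx, y, hy, rfl⟩ := Submodule.mem_sup.1 hv
  rw [map_add]
  refine add_mem (Submodule.mem_sup_left ⟨VM_EE r a b hx.1, ?_⟩)
    (Submodule.mem_sup_right ⟨VM_EE r a b hy.1, ?_⟩)
  · have h1 : S x = 0 := hx.2
    change S (EE a b x) = 0
    rw [hS, h1, map_zero]
  · have h1 : T y = 0 := hy.2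
    change T (EE a b y) = 0
    rw [hT, h1, map_zero]

theorem SKI3_act (y : MonoidAlgebra A (Perm (Fin (m + m + 1)))) (a b : Lt k l)
    (v : W K k l (Fin (m + m + 1))) :
    act A K k l _ y (EE a b v) = EE a b (act A K k l _ y v) :=
  LinearMap.congr_fun (act_EE y a b) v

theorem SKI3_act1 (y : MonoidAlgebra A (Perm (Fin (m + m + 1)))) (a b : Lt k l)
    (v : W K k l (Fin (m + m + 1))) :
    (act A K k l _ y - 1) (EE a b v) = EE a b ((act A K k l _ y - 1) v) := by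
  rw [LinearMap.sub_apply, LinearMap.sub_apply, map_sub, SKI3_act]
  rfl

theorem SKI3_ins_VM (hg : Good A p k l K) (r : Fin m → ZMod p) {f g : W K k l (Fin m)}
    (hf : f ∈ MM A K r) (hg' : g ∈ MM A K r) (c : Lt k l) : ins c (tens f g) ∈ VM A K r := by
  intro d
  rw [comp_ins]
  split_ifs
  · exact tens_mem_M2 hg r hf hg'
  · exact zero_mem _

/-- `VM_le` with `X = Xpm`, `N = (VM ⊓ ker (G₁ - 1)) ⊔ (VM ⊓ ker G₂)` (`act_EE`). -/
theorem split_pm (hp : p ≠ 2) (hk : 0 < k + l) (hg : Good A p k l K) (r : Fin m → ZMod p)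
    (hH : HH A K k l r) {u : W K k l (Fin (m + m + 1))} (hu : u ∈ VM A K r) :
    ∃ s ∈ VM A K r, ∃ s' ∈ VM A K r, u = s + s' ∧ act A K k l _ (G1 A p k l m) s = s ∧
      act A K k l _ (G2 A p k l m) s' = 0 := by
  have h1 := VM_le (N := (VM A K r ⊓ LinearMap.ker (act A K k l _ (G1 A p k l m) - 1)) ⊔
    (VM A K r ⊓ LinearMap.ker (act A K k l _ (G2 A p k l m)))) r (M2_le_pm hp hg r hH)
    (SKI3_stab r (SKI3_act1 _) (SKI3_act _)) (by
      rintro x ⟨f, hf, g, hg', rfl⟩ c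
      have hv := SKI3_ins_VM hg r hf.1 hg'.1 c
      cases hc : odd c with
      | false =>
        refine Submodule.mem_sup_left ⟨hv, ?_⟩
        change act A K k l _ (G1 A p k l m) (ins c (tens f g)) - ins c (tens f g) = 0
        rw [G1_even hp hk hg r hH hf g hc, sub_self]
      | true =>
        exact Submodule.mem_sup_right ⟨hv, G2_odd hp hk hg r hH f hg' hc⟩) hu
  obtain ⟨s, hs, s', hs', rfl⟩ := Submodule.mem_sup.1 h1
  refine ⟨s, hs.1, s', hs'.1, rfl, ?_, hs'.2⟩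
  have h2 : act A K k l _ (G1 A p k l m) s - s = 0 := hs.2
  exact sub_eq_zero.1 h2

/-- `VM_le` with `X = Xmp`, `N = (VM ⊓ ker G₁) ⊔ (VM ⊓ ker (G₂ - 1))`. -/
theorem split_mp (hp : p ≠ 2) (hk : 0 < k + l) (hg : Good A p k l K) (r : Fin m → ZMod p)
    (hH : HH A K k l r) {u : W K k l (Fin (m + m + 1))} (hu : u ∈ VM A K r) :
    ∃ s ∈ VM A K r, ∃ s' ∈ VM A K r, u = s + s' ∧ act A K k l _ (G1 A p k l m) s = 0 ∧
      act A K k l _ (G2 A p k l m) s' = s' := by
  have h1 := VM_le (N := (VM A K r ⊓ LinearMap.ker (act A K k l _ (G1 A p k l m))) ⊔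
    (VM A K r ⊓ LinearMap.ker (act A K k l _ (G2 A p k l m) - 1))) r (M2_le_mp hp hg r hH)
    (SKI3_stab r (SKI3_act _) (SKI3_act1 _)) (by
      rintro x ⟨f, hf, g, hg', rfl⟩ c
      have hv := SKI3_ins_VM hg r hf.1 hg'.1 c
      cases hc : odd c with
      | true =>
        exact Submodule.mem_sup_left ⟨hv, G1_odd hp hk hg r hH hf g hc⟩
      | false =>
        refine Submodule.mem_sup_right ⟨hv, ?_⟩
        change act A K k l _ (G2 A p k l m) (ins c (tens f g)) - ins c (tens f g) = 0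
        rw [G2_even hp hk hg r hH f hg' hc, sub_self]) hu
  obtain ⟨s, hs, s', hs', rfl⟩ := Submodule.mem_sup.1 h1
  refine ⟨s, hs.1, s', hs'.1, rfl, hs.2, ?_⟩
  have h2 : act A K k l _ (G2 A p k l m) s' - s' = 0 := hs'.2
  exact sub_eq_zero.1 h2

/-- `D = G₁ + G₂ - 1` is surjective on `VM`.  PROOF.  For `y ∈ VM`, `y = r + r'` by `split_mp`: `D r' = G₁ y`,
`D (-r) = (1 - G₂) y`.  So `G₁ y` and `(1 - G₂) y` are in `D VM` for all `y ∈ VM`.  `u = s + s'` by `split_pm`: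
`s = G₁ s`, `s' = (1 - G₂) s'`. -/
theorem D_surj (hp : p ≠ 2) (hk : 0 < k + l) (hg : Good A p k l K) (r : Fin m → ZMod p)
    (hH : HH A K k l r) {u : W K k l (Fin (m + m + 1))} (hu : u ∈ VM A K r) :
    ∃ x ∈ VM A K r, act A K k l _ (G1 A p k l m + G2 A p k l m - 1) x = u := by
  have hD : ∀ x, act A K k l _ (G1 A p k l m + G2 A p k l m - 1) x =
      act A K k l _ (G1 A p k l m) x + act A K k l _ (G2 A p k l m) x - x := by
    intro x
    rw [map_sub, map_add, map_one]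
    rfl
  obtain ⟨s, hs, s', hs', rfl, h1, h2⟩ := split_pm hp hk hg r hH hu
  obtain ⟨a, ha, a', ha', e, h3, h4⟩ := split_mp hp hk hg r hH hs
  obtain ⟨b, hb, b', hb', e', h5, h6⟩ := split_mp hp hk hg r hH hs'
  refine ⟨a' - b, sub_mem ha' hb, ?_⟩
  rw [map_sub, hD, hD, h4, h5]
  have h7 : act A K k l _ (G1 A p k l m) a' = s := by
    have h8 := h1
    rw [e, map_add, h3, zero_add] at h8
    rw [h8, e]
  have h9 : act A K k l _ (G2 A p k l m) b = - b' := by
    have h10 := h2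
    rw [e', map_add, h6] at h10
    exact eq_neg_of_add_eq_zero_left h10
  rw [h7, h9, e']
  abel

end square

end Pool.PI34.SK
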