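import Pool.Agent.LibPI34.SK6

/-!
PI34, E-block for odd primes, row SKJ: lifting of inverses.
-/

set_option linter.unusedVariables false

namespace Pool.PI34.SK

open Equiv Finset Polynomial
open Pool.PI34.Super (Lt odd)

section lift

variable {A : Type} [CommRing A] {k l n : ℕ}

/-- the matrix of the action over `A` -/
noncomputable def Mat (k l : ℕ) (d : MonoidAlgebra A (Perm (Fin n))) :
    Matrix (Fin n → Lt k l) (Fin n → Lt k l) A :=
  Matrix.of fun w w' => act A A k l _ d (Pi.single w' 1) w

/-- `act_bc`, `Pi.single` -/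
theorem act_eq_mulVec {K : Type} [CommRing K] [Algebra A K] (d : MonoidAlgebra A (Perm (Fin n)))
    (u : W K k l (Fin n)) :
    act A K k l _ d u = Matrix.mulVec ((Mat k l d).map (algebraMap A K)) u := by
  classical
  have h1 : ∀ w' : Fin n → Lt k l, (Pi.single w' (1 : K) : W K k l (Fin n))
      = bc A K (Pi.single w' (1 : A)) := by
    intro w'
    funext w
    unfold bc
    by_cases h : w = w'
    · subst h; simp
    · rw [Pi.single_eq_of_ne h, Pi.single_eq_of_ne h, map_zero]
  have h2 : u = ∑ w', u w' • (Pi.single w' (1 : K) : W K k l (Fin n)) := by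
    funext w
    rw [Finset.sum_apply, Finset.sum_eq_single w]
    · simp
    · intro b _ hb
      rw [Pi.smul_apply, Pi.single_eq_of_ne (Ne.symm hb), smul_zero]
    · intro h; exact absurd (Finset.mem_univ _) h
  conv_lhs => rw [h2]
  funext w
  rw [map_sum, Finset.sum_apply]
  unfold Matrix.mulVec dotProduct
  refine Finset.sum_congr rfl (fun w' _ => ?_)
  rw [map_smul, Pi.smul_apply, h1, act_bc, smul_eq_mul, mul_comm]
  rfl

/-- The matrix of the action is multiplicative. -/
noncomputable def matHom (A : Type) [CommRing A] (k l n : ℕ) :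
    MonoidAlgebra A (Perm (Fin n)) →ₐ[A] Matrix (Fin n → Lt k l) (Fin n → Lt k l) A :=
  (LinearMap.toMatrixAlgEquiv' (R := A) (n := Fin n → Lt k l)).toAlgHom.comp
    (act A A k l (Fin n))

theorem matHom_apply (d : MonoidAlgebra A (Perm (Fin n))) : matHom A k l n d = Mat k l d := by
  classical
  ext w w'
  change LinearMap.toMatrixAlgEquiv' (act A A k l (Fin n) d) w w' = _
  rw [LinearMap.toMatrixAlgEquiv'_apply]
  rfl

/-- If `d` acts surjectively over `ZMod p` then it has an inverse which is a polynomial in `d`.  PROOF.  `T := Mat k l d`.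
Over `ZMod p` the map `mulVec (T.map _)` is surjective, so bijective, so `det (T.map _) ≠ 0`, and this is the image of
`det T`; `PInt.unit`: `det T` is a unit.  `χ := T.charpoly`, `χ.coeff 0 = ± det T` is a unit `c`, `χ(T) = 0`
(`Matrix.aeval_self_charpoly`), `χ = divX χ * X + C c`, so for `q := - c⁻¹ • divX χ`: `q(T) * T = 1`.  The matrix of
`aeval d q` is `aeval T q` (`Mat` is multiplicative), so over `ℚ` (`act_eq_mulVec`) `aeval d q` is a left inverse. -/
theorem lift_inv {p : ℕ} [Fact p.Prime] [Algebra A ℚ] [Algebra A (ZMod p)] [PInt p A]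
    (d : MonoidAlgebra A (Perm (Fin n)))
    (hs : Function.Surjective (act A (ZMod p) k l (Fin n) d)) :
    ∃ q : A[X], ∀ u : W ℚ k l (Fin n),
      act A ℚ k l _ (aeval d q) (act A ℚ k l _ d u) = u := by
  classical
  set T : Matrix (Fin n → Lt k l) (Fin n → Lt k l) A := Mat k l d with hT
  -- the determinant is a unit
  have h1 : Function.Surjective (Matrix.mulVec (T.map (algebraMap A (ZMod p)))) := by
    intro v
    obtain ⟨u, hu⟩ := hs v
    exact ⟨u, by rw [← hu, act_eq_mulVec]⟩
  have h2 : IsUnit (T.map (algebraMap A (ZMod p))) := Matrix.mulVec_surjective_iff_isUnit.1 h1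
  have h3 : IsUnit ((T.map (algebraMap A (ZMod p))).det) := (Matrix.isUnit_iff_isUnit_det _).1 h2
  have h4 : (T.map (algebraMap A (ZMod p))).det = algebraMap A (ZMod p) T.det := by
    rw [RingHom.map_det]; rfl
  rw [h4] at h3
  have h5 : IsUnit T.det := PInt.unit (p := p) _ h3.ne_zero
  have h6 : IsUnit (T.charpoly.coeff 0) := by
    have h7 := Matrix.det_eq_sign_charpoly_coeff T
    rw [h7] at h5
    exact isUnit_of_mul_isUnit_right h5
  obtain ⟨c, hc⟩ := h6
  refine ⟨C (-(↑c⁻¹ : A)) * divX T.charpoly, fun u => ?_⟩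
  have h8 : aeval T (divX T.charpoly) * T + algebraMap A _ (c : A) = 0 := by
    have h9 := Matrix.aeval_self_charpoly T
    rw [← Polynomial.divX_mul_X_add T.charpoly, map_add, map_mul, aeval_X, aeval_C, ← hc] at h9
    exact h9
  have h10 : aeval T (C (-(↑c⁻¹ : A)) * divX T.charpoly) * T = 1 := by
    rw [map_mul, aeval_C, mul_assoc, eq_neg_of_add_eq_zero_left h8, mul_neg, ← map_mul, ← map_neg, neg_mul, neg_neg, Units.inv_mul, map_one]
  have h11 : Mat k l (aeval d (C (-(↑c⁻¹ : A)) * divX T.charpoly) * d) = 1 := by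
    rw [← matHom_apply, map_mul, ← Polynomial.aeval_algHom_apply, matHom_apply]
    exact h10
  rw [← Module.End.mul_apply, ← map_mul, act_eq_mulVec, h11]
  simp

end lift

end Pool.PI34.SK
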