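import Pool.Agent.LibPI34.SKI3
import Pool.Agent.LibPI34.SKJ

/-!
PI34, E-block for odd primes, row SKJ2: the catalyst.
-/

set_option linter.unusedVariables false

namespace Pool.PI34.SK

open Equiv Finset Polynomial
open Pool.PI34.Super (Lt odd)

section cat

variable {k l m : ℕ} {A : Type} [CommRing A] {p : ℕ} [Fact p.Prime]
  [Algebra A ℚ] [Algebra A (ZMod p)] [PInt p A]

/-- `Z` on the strands of the catalyst -/
noncomputable def ZZ (A : Type) [CommRing A] {p : ℕ} (k l : ℕ) {m : ℕ} (r : Fin m → ZMod p) :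
    MonoidAlgebra A (Perm (Fin (m + m + 1))) := pl A (phS (m + m)) (z2 A k l r)

/-- `d = (G₁ + G₂ - 1) Z + (1 - Z)` -/
noncomputable def dE (A : Type) [CommRing A] {p : ℕ} (k l : ℕ) {m : ℕ} (r : Fin m → ZMod p) :
    MonoidAlgebra A (Perm (Fin (m + m + 1))) :=
  (G1 A p k l m + G2 A p k l m - 1) * ZZ A k l r + (1 - ZZ A k l r)

/-- `comp_plS`, `mem_M2` -/
theorem ZZ_VM {K : Type} [Field K] [Algebra A K] (hg : Good A p k l K) (r : Fin m → ZMod p)
    (u : W K k l (Fin (m + m + 1))) : u ∈ VM A K r ↔ act A K k l _ (ZZ A k l r) u = u := by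
  unfold ZZ
  constructor
  · intro hu
    refine ext_comp (fun c => ?_)
    rw [comp_plS]
    exact (mem_M2 hg r _).1 (hu c)
  · intro hu c
    rw [mem_M2 hg, ← comp_plS, hu]

theorem J2_ZZ_mem {K : Type} [Field K] [Algebra A K] (hg : Good A p k l K) (r : Fin m → ZMod p)
    (u : W K k l (Fin (m + m + 1))) : act A K k l _ (ZZ A k l r) u ∈ VM A K r := by
  rw [ZZ_VM hg]
  unfold ZZ
  refine ext_comp (fun c => ?_)
  rw [comp_plS, comp_plS, z2_idem hg]

theorem J2_dE {K : Type} [Field K] [Algebra A K] (hg : Good A p k l K) (r : Fin m → ZMod p)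
    {u : W K k l (Fin (m + m + 1))} (hu : u ∈ VM A K r) :
    act A K k l _ (dE A k l r) u = act A K k l _ (G1 A p k l m + G2 A p k l m - 1) u := by
  have h := (ZZ_VM hg r u).1 hu
  unfold dE
  rw [map_add, map_mul, LinearMap.add_apply, Module.End.mul_apply, h, map_sub (act A K k l _) 1,
    map_one, LinearMap.sub_apply, h, Module.End.one_apply, sub_self, add_zero]

/-- `y = Z y + (1 - Z) y`; `Z y = D x` with `x ∈ VM` (`D_surj`), `d (x + (1 - Z) y) = y`. -/
theorem dE_surj {K : Type} [Field K] [Algebra A K] (hp : p ≠ 2) (hk : 0 < k + l)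
    (hg : Good A p k l K) (r : Fin m → ZMod p) (hH : HH A K k l r) :
    Function.Surjective (act A K k l (Fin (m + m + 1)) (dE A k l r)) := by
  intro y
  obtain ⟨x, hx, hxy⟩ := D_surj hp hk hg r hH (J2_ZZ_mem hg r y)
  refine ⟨x + (y - act A K k l _ (ZZ A k l r) y), ?_⟩
  have h1 : act A K k l _ (ZZ A k l r) (y - act A K k l _ (ZZ A k l r) y) = 0 := by
    rw [map_sub, (ZZ_VM hg r _).1 (J2_ZZ_mem hg r y), sub_self]
  rw [map_add, J2_dE hg r hx, hxy]
  unfold dE
  rw [map_add, map_mul, LinearMap.add_apply, Module.End.mul_apply, h1, map_zero,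
    map_sub (act A K k l _) 1, map_one, LinearMap.sub_apply, h1, Module.End.one_apply]
  simp

/-- the colour element -/
noncomputable def EA (A : Type) [CommRing A] {p : ℕ} (k l : ℕ) {m : ℕ} (r : Fin m → ZMod p)
    (q : A[X]) : MonoidAlgebra A (Perm (Fin (m + m + 1))) :=
  1 - aeval (dE A k l r) q * aeval (dE A k l r) q * (G1 A p k l m * G2 A p k l m)

/-- Over `ℚ`.  Odd letter: `G₂ = 0` on `ins c (f ⊗ g)`.  -/
theorem EA_odd (hp : p ≠ 2) (hk : 0 < k + l) (r : Fin m → ZMod p) (hH : HH A ℚ k l r)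
    {f g : W ℚ k l (Fin m)} (hf : f ∈ Lp A ℚ r) (hg : g ∈ Lm A ℚ r) {c : Lt k l}
    (hc : odd c = true) (q : A[X]) :
    act A ℚ k l _ (EA A k l r q) (ins c (tens f g)) = ins c (tens f g) := by
  have h := G2_odd hp hk (good_rat p A k l) r hH f hg hc
  unfold EA
  rw [map_sub, map_one, map_mul, map_mul (act A ℚ k l _) (G1 A p k l m), LinearMap.sub_apply,
    Module.End.mul_apply, Module.End.mul_apply, h, map_zero, map_zero, sub_zero,
    Module.End.one_apply]

theorem J2_sgc_even {K : Type} [Field K] {c : Lt k l} (hc : odd c = false)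
    (f : W K k l (Fin m)) : sgc c f = f := by
  funext w
  rw [sgc_apply, hc]
  simp

/-- Over `ℚ`.  Even letter: `x := ins c (f ⊗ g) ∈ VM`, `G₁ x = x`, `G₂ x ∈ VM` (`G₂ x = TT' f (G (ins c g))`, `comp_poly_MM`),
`G₂ G₂ x = G₂ x` (`Gel_idem`).  `d x = D x = G₂ x`, `d (G₂ x) = D G₂ x = G₁ G₂ x`, so `q(d) q(d) G₁ G₂ x = q(d) G₂ x = x`. -/
theorem EA_even (hp : p ≠ 2) (hk : 0 < k + l) (r : Fin m → ZMod p) (hH : HH A ℚ k l r)
    {f g : W ℚ k l (Fin m)} (hf : f ∈ Lp A ℚ r) (hg : g ∈ Lm A ℚ r) {c : Lt k l}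
    (hc : odd c = false) (q : A[X])
    (hq : ∀ u : W ℚ k l (Fin (m + m + 1)),
      act A ℚ k l _ (aeval (dE A k l r) q) (act A ℚ k l _ (dE A k l r) u) = u) :
    act A ℚ k l _ (EA A k l r q) (ins c (tens f g)) = 0 := by
  have hG := good_rat p A k l
  have h1 := G1_even hp hk hG r hH hf g hc
  set x : W ℚ k l (Fin (m + m + 1)) := ins c (tens f g) with hx
  have hxT : x = TT' f (ins c g) := by
    rw [TT'_ins, J2_sgc_even hc]
  have hy : act A ℚ k l _ (G2 A p k l m) x = TT' f (act A ℚ k l _ (Gel A p k l m) (ins c g)) := by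
    rw [hxT]
    exact TT'_poly f _ _
  have hyy : act A ℚ k l _ (G2 A p k l m) (act A ℚ k l _ (G2 A p k l m) x)
      = act A ℚ k l _ (G2 A p k l m) x := by
    rw [hy]
    refine (TT'_poly f _ _).trans ?_
    exact congrArg (TT' f) (Gel_idem hG (ins c g))
  have hxV : x ∈ VM A ℚ r := by
    intro c'
    rw [hx, comp_ins]
    split_ifs
    · exact tens_mem_M2 hG r hf.1 hg.1
    · exact zero_mem _
  have hyV : act A ℚ k l _ (G2 A p k l m) x ∈ VM A ℚ r := by
    intro c'
    have h2 : comp c' (act A ℚ k l _ (G2 A p k l m) x)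
        = tens (sgc c' f) (comp c' (act A ℚ k l _ (Gel A p k l m) (ins c g))) := by
      rw [hy]
      show comp c' (∑ c'', ins c'' (tens (sgc c'' f) (comp c'' (act A ℚ k l _ (Gel A p k l m)
        (ins c g))))) = _
      rw [map_sum, Finset.sum_eq_single c']
      · rw [comp_ins, if_pos rfl]
      · intro b _ hb
        rw [comp_ins, if_neg]
        first
          | exact hb
          | exact Ne.symm hb
      · intro h; exact absurd (Finset.mem_univ _) h
    rw [h2]
    refine tens_mem_M2 hG r ?_ ?_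
    · have h3 : sgc c' f = sg c c' f := by
        rw [← sg_sgc c c' f, J2_sgc_even hc]
      rw [h3]
      exact MM_sg r c c' hf.1
    · refine comp_poly_MM r (fun c'' => ?_) _ c'
      rw [comp_ins]
      split_ifs
      · exact hg.1
      · exact zero_mem _
  have hdx : act A ℚ k l _ (dE A k l r) x = act A ℚ k l _ (G2 A p k l m) x := by
    rw [J2_dE hG r hxV, map_sub, map_add, map_one, LinearMap.sub_apply, LinearMap.add_apply, h1,
      Module.End.one_apply]
    abel
  have hdy : act A ℚ k l _ (dE A k l r) (act A ℚ k l _ (G2 A p k l m) x)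
      = act A ℚ k l _ (G1 A p k l m) (act A ℚ k l _ (G2 A p k l m) x) := by
    rw [J2_dE hG r hyV, map_sub, map_add, map_one, LinearMap.sub_apply, LinearMap.add_apply, hyy,
      Module.End.one_apply]
    abel
  unfold EA
  rw [map_sub, map_one, map_mul, map_mul, map_mul, LinearMap.sub_apply,
    Module.End.mul_apply, Module.End.mul_apply, Module.End.mul_apply, ← hdy, ← hdx, hq, hq,
    Module.End.one_apply, sub_self]

/-- If `M_r ≠ 0` over `ℚ` then `L⁺ ≠ 0` and `L⁻ ≠ 0` (`gen_Lp`, `gen_Lm`: `gen Sall ⊥ = ⊥`), so `Xpm` has a nonzero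
element. -/
theorem Xpm_ne (hp : p ≠ 2) (r : Fin m → ZMod p) (hH : HH A ℚ k l r)
    {ξ : W ℚ k l (Fin m)} (h0 : ξ ≠ 0) (h1 : ξ ∈ MM A ℚ r) :
    ∃ x ∈ Xpm (k := k) (l := l) A ℚ r, x ≠ 0 := by
  have hG := good_rat p A k l
  have key : ∀ X : Submodule ℚ (W ℚ k l (Fin m)), MM A ℚ r ≤ gen Sall X → ∃ f ∈ X, f ≠ 0 := by
    intro X hX
    by_contra hne
    push Not at hne
    apply h0
    have h2 : gen Sall X ≤ ⊥ := by
      refine gen_le (fun x hx => ?_) ?_
      · rw [hne x hx]; exact zero_mem _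
      · intro T _ v hv
        rw [(Submodule.mem_bot ℚ).1 hv, map_zero]
        exact zero_mem _
    exact (Submodule.mem_bot ℚ).1 (h2 (hX h1))
  obtain ⟨f, hf, hf0⟩ := key _ (gen_Lp hp hG r hH)
  obtain ⟨g, hg, hg0⟩ := key _ (gen_Lm hp hG r hH)
  refine ⟨tens f g, ⟨f, hf, g, hg, rfl⟩, ?_⟩
  obtain ⟨w, hw⟩ : ∃ w, f w ≠ 0 := by
    by_contra h
    push Not at h
    exact hf0 (funext h)
  obtain ⟨w', hw'⟩ : ∃ w, g w ≠ 0 := by
    by_contra h
    push Not at h
    exact hg0 (funext h)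
  intro h
  have h3 := congrFun h (Fin.append w w')
  rw [tens_apply] at h3
  have e1 : (Fin.append w w') ∘ Fin.castAdd m = w := by
    funext i; simp
  have e2 : (Fin.append w w') ∘ Fin.natAdd m = w' := by
    funext i
    exact Fin.append_right w w' i
  simp only [Function.comp_def] at e1 e2 h3
  rw [e1, e2] at h3
  exact mul_ne_zero hw hw' h3

/-- The catalyst.  `Ξ = Xpm`, `z = z2`, `E = EA q` with `q` from `lift_inv` and `dE_surj` over `ZMod p`. -/
theorem catP_of (hp : p ≠ 2) (hk : 0 < k + l) (r : Fin m → ZMod p)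
    (hH : HH A ℚ k l r) (hH' : HH A (ZMod p) k l r)
    {ξ : W ℚ k l (Fin m)} (h0 : ξ ≠ 0) (h1 : ξ ∈ MM A ℚ r) :
    ∃ (C : CatP k l (m + m)) (z : MonoidAlgebra A (Perm (Fin (m + m))))
      (E : MonoidAlgebra A (Perm (Fin (m + m + 1)))),
      C.z = MonoidAlgebra.mapRingHom _ (algebraMap A ℚ) z ∧
      C.E = MonoidAlgebra.mapRingHom _ (algebraMap A ℚ) E := by
  obtain ⟨q, hq⟩ := lift_inv (p := p) (dE A k l r)
    (dE_surj hp hk (good_mod p A k l) r hH')
  refine ⟨⟨Xpm (k := k) (l := l) A ℚ r, MonoidAlgebra.mapRingHom _ (algebraMap A ℚ) (z2 A k l r),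
    MonoidAlgebra.mapRingHom _ (algebraMap A ℚ) (EA A k l r q), Xpm_ne hp r hH h0 h1, ?_, ?_, ?_⟩,
    _, _, rfl, rfl⟩
  · rintro x ⟨f, hf, g, hg, rfl⟩
    rw [act_map]
    exact (mem_M2 (good_rat p A k l) r _).1 (tens_mem_M2 (good_rat p A k l) r hf.1 hg.1)
  · intro f
    rw [act_map]
    exact M2_le_pm hp (good_rat p A k l) r hH ⟨f, rfl⟩
  · rintro x ⟨f, hf, g, hg, rfl⟩ c
    rw [act_map]
    by_cases hc : odd c = true
    · rw [if_pos hc, one_smul]
      exact EA_odd hp hk r hH hf hg hc q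
    · rw [if_neg hc, zero_smul]
      exact EA_even hp hk r hH hf hg (by simpa using hc) q hq

end cat

end Pool.PI34.SK
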