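import Pool.Agent.LibPI34.SK6

/-!
PI34, E-block for odd primes, row SKK: vectors over `ℚ` killed by the `E_ab` with `a < b` of the same parity.
-/

set_option linter.unusedVariables false

namespace Pool.PI34.SK

open Equiv Finset
open Pool.PI34.Super (Lt odd)

variable {k l : ℕ}

/-- killed by the `E_ab` with `a < b` of the same parity -/
def HW0 {m : ℕ} (u : W ℚ k l (Fin m)) : Prop :=
  ∀ a b : Lt k l, odd a = odd b → std a < std b → EE a b u = 0

/-- there is a nonzero vector of weight `n` of this kind -/
def HWex (n : Lt k l → ℕ) : Prop := ∃ (m : ℕ) (u : W ℚ k l (Fin m)), u ≠ 0 ∧ On n u ∧ HW0 u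

/-- `m = 0`, `u = 1` -/
theorem HWex_zero : HWex (0 : Lt k l → ℕ) := by
  refine ⟨0, fun _ => 1, ?_, ?_, ?_⟩
  · intro h
    have := congrFun h (fun i => i.elim0)
    simp at this
  · intro w _
    funext c
    simp [cts, Pool.PI34.Super.cnt]
  · intro a b _ _
    funext w
    rw [EE_apply]
    simp

theorem cts_append {m m' : ℕ} (w : Fin (m + m') → Lt k l) :
    cts w = cts (w ∘ Fin.castAdd m') + cts (w ∘ Fin.natAdd m) := by
  funext c
  simp only [cts, Pool.PI34.Super.cnt, Pi.add_apply, Finset.card_filter, Function.comp_apply]
  rw [Fin.sum_univ_add]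

/-- `tens`, `EE_tens`, `sg_same` -/
theorem HWex_add {n n' : Lt k l → ℕ} (h : HWex n) (h' : HWex n') : HWex (n + n') := by
  obtain ⟨m, u, hu, hon, hw⟩ := h
  obtain ⟨m', u', hu', hon', hw'⟩ := h'
  refine ⟨m + m', tens u u', ?_, ?_, ?_⟩
  · intro h0
    obtain ⟨w, hw1⟩ := Function.ne_iff.1 hu
    obtain ⟨w', hw2⟩ := Function.ne_iff.1 hu'
    have h1 := congrFun h0 (Fin.append w w')
    rw [tens_apply] at h1
    have e1 : (Fin.append w w') ∘ Fin.castAdd m' = w := by
      funext i; simp [Fin.append_left]
    have e2 : (Fin.append w w') ∘ Fin.natAdd m = w' := by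
      funext i; simp [Fin.append_right]
    rw [e1, e2] at h1
    rcases mul_eq_zero.1 h1 with h2 | h2
    · exact hw1 h2
    · exact hw2 h2
  · intro w hne
    rw [tens_apply] at hne
    rw [cts_append w, hon _ (left_ne_zero_of_mul hne), hon' _ (right_ne_zero_of_mul hne)]
  · intro a b hab hlt
    rw [EE_tens, hw a b hab hlt, sg_same a b hab, hw' a b hab hlt, tens_zero_left,
      tens_zero_right, add_zero]

theorem HWex_nsmul {n : Lt k l → ℕ} (h : HWex n) (q : ℕ) : HWex (q • n) := by
  induction q with
  | zero => rw [zero_smul]; exact HWex_zero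
  | succ q ih => rw [succ_nsmul]; exact HWex_add ih h

theorem HWex_sum {α : Type*} (s : Finset α) {n : α → Lt k l → ℕ} (h : ∀ i ∈ s, HWex (n i)) :
    HWex (∑ i ∈ s, n i) := by
  classical
  induction s using Finset.induction_on with
  | empty => rw [Finset.sum_empty]; exact HWex_zero
  | insert a s ha ih =>
    rw [Finset.sum_insert ha]
    exact HWex_add (h a (Finset.mem_insert_self _ _))
      (ih (fun i hi => h i (Finset.mem_insert_of_mem hi)))

/-- Let `L : Fin h → Lt k l` be injective, of one parity, and such that every letter `a` with `std a < std (L j)` and the parity of the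
`L j` is an `L i`.  `u w := det (fun i j => if w i = L j then 1 else 0)`.  PROOF.  `u L = 1`.  If `u w ≠ 0` some
permutation product is `≠ 0`, so `w ∘ σ = L` (`cts_perm`), and `cts L` is the indicator.  `EE a b u w = ∑_{s, w s = a}
u (update w s b)` (`eta = 1` for the same parity).  If `b` is not an `L j` the updated matrix has a zero row.  If `b = L jb`
and `std a < std b` then `a = L ja`, `ja ≠ jb`; the updated matrix is `updateRow s (Pi.single jb 1)`, whose determinant
is `adjugate jb s` (`Matrix.adjugate_apply`), the sum is `cramer M v jb` with `v s = if w s = a then 1 else 0` = column `ja`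
of `M` (`Matrix.cramer_eq_adjugate_mulVec`, `Matrix.cramer_apply`), a determinant with two equal columns. -/
theorem HWex_det {h : ℕ} (L : Fin h → Lt k l) (hL : Function.Injective L)
    (hpar : ∀ i j, odd (L i) = odd (L j))
    (hini : ∀ (j : Fin h) (a : Lt k l), odd a = odd (L j) → std a < std (L j) → ∃ i, L i = a) :
    HWex (fun c => if ∃ j, L j = c then 1 else 0 : Lt k l → ℕ) := by
  classical
  set M : (Fin h → Lt k l) → Matrix (Fin h) (Fin h) ℚ :=
    fun w => Matrix.of fun i j => if w i = L j then 1 else 0 with hM
  refine ⟨h, fun w => (M w).det, ?_, ?_, ?_⟩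
  · intro h0
    have h1 := congrFun h0 L
    have h2 : M L = 1 := by
      ext i j
      simp only [hM, Matrix.of_apply, Matrix.one_apply, hL.eq_iff]
    simp only [h2, Matrix.det_one, Pi.zero_apply] at h1
    exact one_ne_zero h1
  · intro w hw
    have hw' : (M w).det ≠ 0 := hw
    rw [Matrix.det_apply'] at hw'
    obtain ⟨σ, _, hσ⟩ := Finset.exists_ne_zero_of_sum_ne_zero hw'
    have hσ1 := right_ne_zero_of_mul hσ
    have hσ2 : w ∘ σ = L := by
      funext i
      have h3 := (Finset.prod_ne_zero_iff.1 hσ1) i (Finset.mem_univ i)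
      simp only [hM, Matrix.of_apply, ne_eq, ite_eq_right_iff, one_ne_zero, imp_false,
        not_not] at h3
      exact h3
    rw [← cts_perm σ w, hσ2]
    funext c
    simp only [cts, Pool.PI34.Super.cnt]
    split_ifs with hc
    · obtain ⟨j, rfl⟩ := hc
      rw [Finset.card_eq_one]
      refine ⟨j, ?_⟩
      ext i
      simp [hL.eq_iff]
    · rw [Finset.card_eq_zero, Finset.filter_eq_empty_iff]
      intro i _ hi
      exact hc ⟨i, hi⟩
  · intro a b hab hlt
    funext w
    rw [EE_apply, Pi.zero_apply]
    have hne : a ≠ b := fun e => by rw [e] at hlt; exact lt_irrefl _ hlt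
    have hb1 : ∀ s, (bsg a b w s : ℚ) = 1 := by
      intro s
      unfold bsg
      refine Finset.prod_eq_one fun j _ => ?_
      unfold eta
      simp [hab]
    by_cases hb : ∃ jb, L jb = b
    · obtain ⟨jb, hjb⟩ := hb
      obtain ⟨ja, hja⟩ := hini jb a (by rw [hjb]; exact hab) (by rw [hjb]; exact hlt)
      have hj : ja ≠ jb := fun e => hne (by rw [← hja, ← hjb, e])
      have h1 : ∀ s, (M (Function.update w s b)).det = (M w).adjugate jb s := by
        intro s
        rw [Matrix.adjugate_apply]
        congr 1
        ext i j
        rw [Matrix.updateRow_apply]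
        by_cases hi : i = s
        · subst hi
          rw [if_pos rfl]
          simp only [hM, Matrix.of_apply, Function.update_self]
          rw [← hjb, Pi.single_apply]
          by_cases hjj : j = jb
          · rw [hjj]; simp
          · rw [if_neg (fun e => hjj (hL e).symm), if_neg hjj]
        · rw [if_neg hi]
          simp only [hM, Matrix.of_apply, Function.update_of_ne hi]
      have h2 : ∑ s, (if w s = a then (bsg a b w s : ℚ) * (M (Function.update w s b)).det else 0)
          = ((M w).adjugate.mulVec (fun s => M w s ja)) jb := by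
        simp only [Matrix.mulVec, dotProduct]
        refine Finset.sum_congr rfl fun s _ => ?_
        rw [hb1, one_mul, h1]
        simp only [hM, Matrix.of_apply, hja]
        by_cases hs : w s = a
        · rw [if_pos hs, if_pos hs, mul_one]
        · rw [if_neg hs, if_neg hs, mul_zero]
      refine h2.trans ?_
      rw [← Matrix.cramer_eq_adjugate_mulVec, Matrix.cramer_apply]
      exact Matrix.det_updateCol_eq_zero hj
    · refine Finset.sum_eq_zero fun s _ => ?_
      split_ifs with hs
      · have : (M (Function.update w s b)).det = 0 := by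
          refine Matrix.det_eq_zero_of_row_eq_zero s fun j => ?_
          simp only [hM, Matrix.of_apply, Function.update_self]
          rw [if_neg]
          intro e
          exact hb ⟨j, e.symm⟩
        show (bsg a b w s : ℚ) * (M (Function.update w s b)).det = 0
        rw [this, mul_zero]
      · rfl

/-- the first part of the weight: `l` copies of all even letters (`HWex_det` with all even letters, `HWex_nsmul`) -/
theorem HWex_first : HWex (Sum.elim (fun _ => l) (fun _ => 0) : Lt k l → ℕ) := by
  classical
  have h := HWex_nsmul (HWex_det (k := k) (l := l) (h := k) (fun i => Sum.inl i)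
    (fun i j e => Sum.inl.inj e) (fun i j => rfl) (fun j a ha _ => by
      rcases a with a | a
      · exact ⟨a, rfl⟩
      · simp [odd] at ha)) l
  convert h using 1
  funext c
  rcases c with c | c <;> simp

theorem count_lt (N x : ℕ) : ∑ h ∈ Finset.range N, (if x < h then 1 else 0) = N - 1 - x := by
  rw [← Finset.card_filter]
  have : (Finset.range N).filter (fun h => x < h) = Finset.Ioo x N := by
    ext h
    simp only [Finset.mem_filter, Finset.mem_range, Finset.mem_Ioo]
    tauto
  rw [this, Nat.card_Ioo]
  omega

theorem HWex_even {h : ℕ} (hh : h ≤ k) :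
    HWex (Sum.elim (fun i : Fin k => if i.val < h then 1 else 0) (fun _ => 0) : Lt k l → ℕ) := by
  classical
  have h1 := HWex_det (k := k) (l := l) (h := h) (fun i => Sum.inl (Fin.castLE hh i))
    (fun i j e => Fin.castLE_injective hh (Sum.inl.inj e)) (fun i j => rfl)
    (fun j a ha hlt => by
      rcases a with a | a
      · have h3 : a.val < j.val := by simpa [std] using hlt
        exact ⟨⟨a.val, h3.trans j.2⟩, by simp⟩
      · simp [odd] at ha)
  convert h1 using 1
  funext c
  rcases c with c | c
  · simp only [Sum.elim_inl, Sum.inl.injEq]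
    by_cases hc : c.val < h
    · rw [if_pos hc, if_pos ⟨⟨c.val, hc⟩, by simp⟩]
    · rw [if_neg hc, if_neg]
      rintro ⟨j, rfl⟩
      exact hc (by simp)
  · simp

theorem HWex_odd {h : ℕ} (hh : h ≤ l) :
    HWex (Sum.elim (fun _ => 0) (fun i : Fin l => if i.val < h then 1 else 0) : Lt k l → ℕ) := by
  classical
  have h1 := HWex_det (k := k) (l := l) (h := h) (fun i => Sum.inr (Fin.castLE hh i))
    (fun i j e => Fin.castLE_injective hh (Sum.inr.inj e)) (fun i j => rfl)
    (fun j a ha hlt => by
      rcases a with a | a
      · simp [odd] at ha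
      · have h3 : a.val < j.val := by simpa [std] using hlt
        exact ⟨⟨a.val, h3.trans j.2⟩, by simp⟩)
  convert h1 using 1
  funext c
  rcases c with c | c
  · simp
  · simp only [Sum.elim_inr, Sum.inr.injEq]
    by_cases hc : c.val < h
    · rw [if_pos hc, if_pos ⟨⟨c.val, hc⟩, by simp⟩]
    · rw [if_neg hc, if_neg]
      rintro ⟨j, rfl⟩
      exact hc (by simp)

/-- the second part: `(p - 1)` copies of the even letters `< h`, `h = 1, …, k - 1`, and of the odd letters `< h`,
`h = 1, …, l - 1` -/
theorem HWex_second (p : ℕ) :
    HWex (Sum.elim (fun i => (p - 1) * (k - 1 - i.val)) (fun j => (p - 1) * (l - 1 - j.val)) :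
      Lt k l → ℕ) := by
  classical
  have h1 := HWex_nsmul (HWex_add
    (HWex_sum (k := k) (l := l) (Finset.range k)
      (n := fun h => Sum.elim (fun i : Fin k => if i.val < h then 1 else 0) (fun _ => 0))
      (fun h hh => HWex_even (Finset.mem_range.1 hh).le))
    (HWex_sum (k := k) (l := l) (Finset.range l)
      (n := fun h => Sum.elim (fun _ => 0) (fun i : Fin l => if i.val < h then 1 else 0))
      (fun h hh => HWex_odd (Finset.mem_range.1 hh).le))) (p - 1)
  convert h1 using 1
  funext c
  rcases c with c | c
  · simp only [Sum.elim_inl, Pi.smul_apply, Pi.add_apply, Finset.sum_apply, smul_eq_mul,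
      Finset.sum_const_zero, add_zero, count_lt]
  · simp only [Sum.elim_inr, Pi.smul_apply, Pi.add_apply, Finset.sum_apply, smul_eq_mul,
      Finset.sum_const_zero, zero_add, count_lt]

end Pool.PI34.SK
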