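import Pool.Agent.LibPI34.SKK
import Pool.Agent.LibPI34.SKF2
import Pool.Agent.LibPI34.SKF3

/-!
PI34, E-block for odd primes, row SKK2: a vector `ζ` over `ℚ` of weight `n0`, killed by the `E_ab` with `a < b` of the same
parity, such that the product of all odd operators even → odd does not kill it; the residue sequence.
-/

set_option linter.unusedVariables false

namespace Pool.PI34.SK

open Equiv Finset
open Pool.PI34.Super (Lt odd)

variable {k l : ℕ}

section first

variable {m m' : ℕ}

/-- the number of even letters in the first block -/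
def evb (w : Fin (m + m') → Lt k l) : ℕ :=
  (univ.filter fun i : Fin m => odd (w (Fin.castAdd m' i)) = false).card

/-- replacing one letter raises the number of even letters by at most one -/
theorem K2_card_update {α β : Type*} [Fintype α] [Fintype β] [DecidableEq α] (φ : β → α)
    (hφ : Function.Injective φ) (w : α → Lt k l) (s : α) (b : Lt k l) :
    (univ.filter fun i : β => odd (Function.update w s b (φ i)) = false).card
      ≤ (univ.filter fun i : β => odd (w (φ i)) = false).card + 1 := by
  classical
  by_cases hs : ∃ i0, φ i0 = s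
  · obtain ⟨i0, hi0⟩ := hs
    have hsub : (univ.filter fun i : β => odd (Function.update w s b (φ i)) = false)
        ⊆ insert i0 (univ.filter fun i : β => odd (w (φ i)) = false) := by
      intro i hi
      rw [Finset.mem_filter] at hi
      rw [Finset.mem_insert, Finset.mem_filter]
      by_cases h : i = i0
      · exact Or.inl h
      · right
        have hne : φ i ≠ s := fun e => h (hφ (e.trans hi0.symm))
        rw [Function.update_of_ne hne] at hi
        exact hi
    exact (Finset.card_le_card hsub).trans (Finset.card_insert_le _ _)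
  · have hsub : (univ.filter fun i : β => odd (Function.update w s b (φ i)) = false)
        = (univ.filter fun i : β => odd (w (φ i)) = false) := by
      refine Finset.filter_congr (fun i _ => ?_)
      have hne : φ i ≠ s := fun e => hs ⟨i, e⟩
      rw [Function.update_of_ne hne]
    rw [hsub]
    exact Nat.le_succ _

/-- One operator `EE (odd) (even)` lowers the number of even letters in the first block by at most one (`EE_apply`). -/
theorem dn_evb (L : List (Lt k l × Lt k l))
    (hL : ∀ q ∈ L, odd q.1 = false ∧ odd q.2 = true) {e : ℕ} {u : W ℚ k l (Fin (m + m'))}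
    (hu : ∀ w, u w ≠ 0 → e ≤ evb w) : ∀ w, dn L u w ≠ 0 → e ≤ evb w + L.length := by
  induction L generalizing e u with
  | nil =>
    intro w hw
    exact hu w hw
  | cons q L ih =>
    intro w hw
    have h1 : ∀ w, (EE q.2 q.1 u) w ≠ 0 → e - 1 ≤ evb w := by
      intro w hw
      rw [EE_apply] at hw
      obtain ⟨s, _, hs⟩ := Finset.exists_ne_zero_of_sum_ne_zero hw
      by_cases hws : w s = q.2
      · rw [if_pos hws] at hs
        have h2 := hu _ (right_ne_zero_of_mul hs)
        have h3 := K2_card_update (Fin.castAdd m') (Fin.castAdd_injective m m') w s q.1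
        unfold evb at h2 ⊢
        omega
      · rw [if_neg hws] at hs
        exact absurd rfl hs
    have h2 := ih (fun q' hq' => hL q' (List.mem_cons_of_mem _ hq')) h1 w hw
    rw [List.length_cons]
    omega

/-- Induction on `L`: `EE y x (tens f g) = tens (EE y x f) g + tens (sg y x f) (EE y x g)`; the second term does not
contribute (`dn_evb`). -/
theorem dn_tens (L : List (Lt k l × Lt k l))
    (hL : ∀ q ∈ L, odd q.1 = false ∧ odd q.2 = true) {e : ℕ} {f : W ℚ k l (Fin m)}
    (hf : ∀ w, f w ≠ 0 → e ≤ (univ.filter fun i => odd (w i) = false).card)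
    (g : W ℚ k l (Fin m')) (w : Fin (m + m') → Lt k l) (hw : evb w + L.length = e) :
    dn L (tens f g) w = dn L f (w ∘ Fin.castAdd m') * g (w ∘ Fin.natAdd m) := by
  induction L generalizing e f with
  | nil => rfl
  | cons q L ih =>
    have hL' : ∀ q' ∈ L, odd q'.1 = false ∧ odd q'.2 = true :=
      fun q' hq' => hL q' (List.mem_cons_of_mem _ hq')
    rw [List.length_cons] at hw
    have h1 : ∀ w, (EE q.2 q.1 f) w ≠ 0 →
        e - 1 ≤ (univ.filter fun i => odd (w i) = false).card := by
      intro w hw
      rw [EE_apply] at hw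
      obtain ⟨s, _, hs⟩ := Finset.exists_ne_zero_of_sum_ne_zero hw
      by_cases hws : w s = q.2
      · rw [if_pos hws] at hs
        have h2 := hf _ (right_ne_zero_of_mul hs)
        have h3 := K2_card_update (fun i : Fin m => i) (fun _ _ h => h) w s q.1
        omega
      · rw [if_neg hws] at hs
        exact absurd rfl hs
    have h2 := ih hL' h1 (by omega)
    have h3 : dn L (tens (sg q.2 q.1 f) (EE q.2 q.1 g)) w = 0 := by
      by_contra hne
      have h4 : ∀ w : Fin (m + m') → Lt k l, (tens (sg q.2 q.1 f) (EE q.2 q.1 g)) w ≠ 0 →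
          e ≤ evb w := by
        intro w hw
        rw [tens_apply, sg_apply] at hw
        exact hf _ (right_ne_zero_of_mul (left_ne_zero_of_mul hw))
      have h5 := dn_evb L hL' h4 w hne
      omega
    change dn L (EE q.2 q.1 (tens f g)) w = dn L (EE q.2 q.1 f) (w ∘ Fin.castAdd m') *
      g (w ∘ Fin.natAdd m)
    rw [EE_tens, map_add, Pi.add_apply, h2, h3, add_zero]

end first

theorem K2_cts_split {m m' : ℕ} (w : Fin (m + m') → Lt k l) :
    cts w = cts (w ∘ Fin.castAdd m') + cts (w ∘ Fin.natAdd m) := by
  classical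
  funext c
  simp only [cts, Pi.add_apply, Pool.PI34.Super.cnt, Finset.card_filter]
  rw [Fin.sum_univ_add]
  rfl

theorem K2_even_card {m : ℕ} (w : Fin m → Lt k l) :
    (univ.filter fun i => odd (w i) = false).card = ∑ i : Fin k, cts w (Sum.inl i) := by
  classical
  simp only [cts, Pool.PI34.Super.cnt, Finset.card_filter]
  rw [Finset.sum_comm]
  refine Finset.sum_congr rfl (fun s _ => ?_)
  rcases hws : w s with x | y
  · simp
  · simp

theorem K2_card_lt {n : ℕ} (i : Fin n) : (univ.filter (fun x : Fin n => x < i)).card = i.val := by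
  have h : univ.filter (fun x : Fin n => x < i) = Finset.Iio i := by
    ext x; simp
  rw [h, Fin.card_Iio]

theorem K2_hgtc_inl (i : Fin k) : hgtc (std : Lt k l → ℕ) (Sum.inl i) = -(i.val : ℤ) := by
  unfold hgtc
  rw [Fintype.sum_sum_type]
  have h1 : ∀ x : Fin k, (if (std (Sum.inl x : Lt k l)) < std (Sum.inl i : Lt k l) then
      (if odd (Sum.inl x : Lt k l) then (1 : ℤ) else -1) else 0)
      = if x < i then -1 else 0 := by
    intro x
    simp only [std, Sum.elim_inl, Sum.isRight_inl, Fin.lt_def]
    simp
  have h2 : ∀ y : Fin l, (if (std (Sum.inr y : Lt k l)) < std (Sum.inl i : Lt k l) then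
      (if odd (Sum.inr y : Lt k l) then (1 : ℤ) else -1) else 0) = 0 := by
    intro y
    simp only [std, Sum.elim_inl, Sum.elim_inr]
    rw [if_neg]
    have := i.2; omega
  rw [Finset.sum_congr rfl (fun x _ => h1 x), Finset.sum_congr rfl (fun y _ => h2 y)]
  rw [← Finset.sum_filter, Finset.sum_const, Finset.sum_const_zero, add_zero, K2_card_lt]
  simp

theorem K2_hgtc_inr (j : Fin l) :
    hgtc (std : Lt k l → ℕ) (Sum.inr j) = -(k : ℤ) + (j.val : ℤ) := by
  unfold hgtc
  rw [Fintype.sum_sum_type]
  have h1 : ∀ x : Fin k, (if (std (Sum.inl x : Lt k l)) < std (Sum.inr j : Lt k l) then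
      (if odd (Sum.inl x : Lt k l) then (1 : ℤ) else -1) else 0) = -1 := by
    intro x
    simp only [std, Sum.elim_inl, Sum.elim_inr, Sum.isRight_inl]
    rw [if_pos]
    · simp
    · have := x.2; omega
  have h2 : ∀ y : Fin l, (if (std (Sum.inr y : Lt k l)) < std (Sum.inr j : Lt k l) then
      (if odd (Sum.inr y : Lt k l) then (1 : ℤ) else -1) else 0) = if y < j then 1 else 0 := by
    intro y
    simp only [std, Sum.elim_inr, Sum.isRight_inr, Fin.lt_def]
    simp
  rw [Finset.sum_congr rfl (fun x _ => h1 x), Finset.sum_congr rfl (fun y _ => h2 y)]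
  rw [← Finset.sum_filter, Finset.sum_const, Finset.sum_const, K2_card_lt]
  simp

/-- `ζ = f ⊗ g` with `f` from `HWex_first`, `g` from `HWex_second`.  `HW std f` (`f` has no odd letters), so
`up (dn f) = c • f` with `c = ∏ (n_i + n_j + k-1-i-j) ≠ 0`: every factor `fac std n (inl i, inr j) = l + k - 1 - i - j > 0`
for `n = (l, …, l | 0, …, 0)`.  So `dn f ≠ 0`; it has weight `(0, …, 0 | k, …, k)` (`onZ_dn_std`); take `w1` with
`dn f w1 ≠ 0` (all letters odd), `w2` with `g w2 ≠ 0`; `dn_tens` with `e = k * l = length Lstd`. -/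
theorem exists_zeta (p : ℕ) (hp : 0 < p) :
    ∃ (m : ℕ) (ζ : W ℚ k l (Fin m)), On (n0 p k l) ζ ∧ HW0 ζ ∧ dn (Lstd k l) ζ ≠ 0 := by
  classical
  obtain ⟨m, f, hf, hfn, hf0⟩ := HWex_first (k := k) (l := l)
  obtain ⟨m', g, hg, hgn, hg0⟩ := HWex_second (k := k) (l := l) p
  refine ⟨m + m', tens f g, ?_, ?_, ?_⟩
  · intro w hw
    rw [tens_apply] at hw
    rw [K2_cts_split, hfn _ (left_ne_zero_of_mul hw), hgn _ (right_ne_zero_of_mul hw)]
    funext c
    rcases c with i | j <;> simp [n0]
  · intro a b hab hlt
    rw [EE_tens, hf0 a b hab hlt, hg0 a b hab hlt, tens_zero_left, tens_zero_right, add_zero]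
  · -- `HW std f`
    have hHW : HW std f := by
      intro a b hab
      by_cases hpar : odd a = odd b
      · exact hf0 a b hpar hab
      · rcases a with i | j <;> rcases b with i' | j'
        · exact absurd rfl hpar
        · funext w
          rw [EE_apply]
          refine Finset.sum_eq_zero (fun s _ => ?_)
          split_ifs with h
          · have hz : f (Function.update w s (Sum.inr j')) = 0 := by
              by_contra hne
              have h1 := congrFun (hfn _ hne) (Sum.inr j')
              simp only [Sum.elim_inr, cts, Pool.PI34.Super.cnt] at h1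
              rw [Finset.card_eq_zero, Finset.filter_eq_empty_iff] at h1
              exact h1 (Finset.mem_univ s) (Function.update_self _ _ _)
            rw [hz, mul_zero]
          · rfl
        · exfalso
          simp only [std, Sum.elim_inl, Sum.elim_inr] at hab
          have := i'.2; omega
        · exact absurd rfl hpar
    set n : Lt k l → ℤ := Sum.elim (fun _ => (l : ℤ)) (fun _ => 0) with hn
    have hnf : OnZ n f := by
      intro w hw c
      rw [hfn w hw]
      rcases c with i | j <;> simp [hn]
    have hud := up_dn (K := ℚ) two_ne_zero (Lstd k l) (valid_std k l) hHW hnf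
    have hprod : (((Lstd k l).map (fac std n)).prod : ℤ) ≠ 0 := by
      apply List.prod_ne_zero
      intro h0
      rw [List.mem_map] at h0
      obtain ⟨q, hq, hq0⟩ := h0
      unfold Lstd at hq
      rw [List.mem_flatMap] at hq
      obtain ⟨j, _, hq⟩ := hq
      rw [List.mem_map] at hq
      obtain ⟨i, _, rfl⟩ := hq
      have e1 : fac std n ((Sum.inl i : Lt k l), (Sum.inr j : Lt k l))
          = (l : ℤ) - i.val - (-(0 : ℤ) + (-(k : ℤ) + j.val)) - 1 := by
        simp only [fac, gamZ, K2_hgtc_inl, K2_hgtc_inr, hn, Sum.elim_inl, Sum.elim_inr,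
          Sum.isRight_inl, Sum.isRight_inr]
        simp
        ring
      rw [e1] at hq0
      have := i.2
      have := j.2
      omega
    have hdf : dn (Lstd k l) f ≠ 0 := by
      intro h0
      have h1 := hud.1
      rw [h0, map_zero] at h1
      rcases smul_eq_zero.1 h1.symm with h2 | h2
      · exact hprod (by exact_mod_cast h2)
      · exact hf h2
    obtain ⟨w1, hw1⟩ := Function.ne_iff.1 hdf
    obtain ⟨w2, hw2⟩ := Function.ne_iff.1 hg
    rw [Pi.zero_apply] at hw1 hw2
    have hz1 := onZ_dn_std hnf w1 hw1
    have hev : (univ.filter fun i => odd (w1 i) = false).card = 0 := by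
      rw [K2_even_card]
      refine Finset.sum_eq_zero (fun i _ => ?_)
      have := hz1 (Sum.inl i)
      simp only [hn, Pi.add_apply, Sum.elim_inl] at this
      omega
    have hlen : (Lstd k l).length = l * k := by
      unfold Lstd
      rw [List.length_flatMap]
      simp
    have hL : ∀ q ∈ Lstd k l, odd q.1 = false ∧ odd q.2 = true := by
      intro q hq
      unfold Lstd at hq
      rw [List.mem_flatMap] at hq
      obtain ⟨j, _, hq⟩ := hq
      rw [List.mem_map] at hq
      obtain ⟨i, _, rfl⟩ := hq
      exact ⟨rfl, rfl⟩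
    have hfe : ∀ w, f w ≠ 0 → l * k ≤ (univ.filter fun i => odd (w i) = false).card := by
      intro w hw
      rw [K2_even_card, hfn w hw]
      simp [mul_comm]
    have happ1 : (Fin.append w1 w2) ∘ Fin.castAdd m' = w1 := by
      funext i; simp
    have happ2 : (Fin.append w1 w2) ∘ Fin.natAdd m = w2 := by
      funext i; simp
    have hkey := dn_tens (Lstd k l) hL hfe g (Fin.append w1 w2) (by
      have : evb (Fin.append w1 w2) = 0 := by
        unfold evb
        rw [← hev]
        simp
      rw [this, hlen, zero_add])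
    rw [happ1, happ2] at hkey
    intro h0
    rw [h0, Pi.zero_apply] at hkey
    exact mul_ne_zero hw1 hw2 hkey.symm

theorem K2_act_onZ {A K : Type} [CommRing A] [CommRing K] [Algebra A K] {m : ℕ}
    (y : MonoidAlgebra A (Perm (Fin m))) {n : Lt k l → ℤ} {u : W K k l (Fin m)}
    (hu : OnZ n u) : OnZ n (act A K k l _ y u) := by
  by_cases h0 : u = 0
  · subst h0
    intro w hw
    rw [map_zero] at hw
    exact absurd rfl hw
  · obtain ⟨w0, hw0⟩ := Function.ne_iff.1 h0
    have h1 : On (cts w0) u := by
      intro w hw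
      funext c
      have e1 := hu w hw c
      have e2 := hu w0 hw0 c
      omega
    have h2 := act_on y h1
    intro w hw c
    rw [h2 w hw]
    exact hu w0 hw0 c

/-- PROOF.  `exists_res` for `dn L ζ` gives `r`; `ξ := up L (zr r (dn L ζ)) = zr r (up L (dn L ζ))` (`up_act`).
`HW std ξ`: `up_std_kill` for `a` even, `b` odd; same parity: `up_std_comm`, `act_EE`, `dn_std_comm`, `HW0 ζ`.
`On n0 ξ`: `onZ_dn_std`, `onZ_up_std`, `act_on`.  `ip ξ ζ = ip (zr r (dn L ζ)) (dn L ζ) = ip v v` with `v = zr r (dn L ζ) ≠ 0`
(`up_adj`, `zr_idem`, `zr_selfAdj`), a positive number. -/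
theorem exists_r {p : ℕ} [Fact p.Prime] (A : Type) [CommRing A] [Algebra A ℚ]
    [Algebra A (ZMod p)] [PInt p A] (k l : ℕ) :
    ∃ (m : ℕ) (r : Fin m → ZMod p) (ξ : W ℚ k l (Fin m)), ξ ≠ 0 ∧
      act A ℚ k l _ (zr A p k l m r) ξ = ξ ∧ HW std ξ ∧ On (n0 p k l) ξ := by
  obtain ⟨m, ζ, hOn, hH, hne⟩ := exists_zeta (k := k) (l := l) p (Fact.out : p.Prime).pos
  have hg : Good A p k l ℚ := good_rat p A k l
  obtain ⟨r, hr⟩ := exists_res hg hne
  set v := act A ℚ k l _ (zr A p k l m r) (dn (Lstd k l) ζ) with hv
  have h2 : (2 : ℚ) ≠ 0 := two_ne_zero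
  have hvz : act A ℚ k l _ (zr A p k l m r) v = v := by
    rw [hv]; exact zr_idem hg r _
  refine ⟨m, r, up (Lstd k l) v, ?_, ?_, ?_, ?_⟩
  · intro h0
    have h1 : ip (up (Lstd k l) v) ζ = ip v v := by
      rw [up_adj]
      have e := zr_selfAdj (A := A) (K := ℚ) r (dn (Lstd k l) ζ) v
      rw [← hv, hvz] at e
      rw [e, ip_comm]
    rw [h0, ip_zero_left] at h1
    apply hr
    funext w
    have h3 : ∀ w ∈ (univ : Finset (Fin m → Lt k l)), 0 ≤ v w * v w :=
      fun w _ => mul_self_nonneg _
    have h4 := (Finset.sum_eq_zero_iff_of_nonneg h3).1 h1.symm w (Finset.mem_univ w)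
    exact mul_self_eq_zero.1 h4
  · rw [up_act, hvz]
  · intro a b hab
    by_cases hpar : odd a = odd b
    · have hne' : a ≠ b := fun e => by rw [e] at hab; exact lt_irrefl _ hab
      rw [up_std_comm h2 hpar hne']
      have e1 : EE a b v = 0 := by
        rw [hv]
        have e2 := LinearMap.congr_fun (act_EE (K := ℚ) (zr A p k l m r) a b)
          (dn (Lstd k l) ζ)
        rw [Module.End.mul_apply, Module.End.mul_apply] at e2
        rw [← e2, dn_std_comm h2 hpar hne', hH a b hpar hab, map_zero, map_zero]
      rw [e1, map_zero]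
    · rcases a with i | j <;> rcases b with i' | j'
      · exact absurd rfl hpar
      · exact up_std_kill h2 i j' v
      · exfalso
        simp only [std, Sum.elim_inl, Sum.elim_inr] at hab
        have := i'.2; omega
      · exact absurd rfl hpar
  · have h1 : OnZ (fun c => ((n0 p k l c : ℕ) : ℤ)) ζ := by
      intro w hw c
      rw [hOn w hw]
    have h3 := onZ_up_std (K2_act_onZ (zr A p k l m r) (onZ_dn_std h1))
    intro w hw
    funext c
    have h4 := h3 w hw c
    rcases c with i | j
    · simp only [Pi.add_apply, Sum.elim_inl] at h4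
      omega
    · simp only [Pi.add_apply, Sum.elim_inr] at h4
      omega

end Pool.PI34.SK
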