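import Pool.Agent.LibPI34.Super8

/-!
PI34, E-block, file 9: catalysts with a set of vectors.
-/

set_option linter.unusedSectionVars false
set_option linter.unusedSimpArgs false

namespace Pool.PI34.Super

open Equiv Finset

variable {k l : ℕ} {m n : ℕ}

/-- The data of a catalyst with a set of vectors. -/
structure CatP (k l m : ℕ) where
  /-- the vectors -/
  Xi : Set (W k l (Fin m))
  /-- the idempotent -/
  z : MonoidAlgebra ℚ (Perm (Fin m))
  /-- the colour element -/
  E : MonoidAlgebra ℚ (Perm (Fin (m + 1)))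
  hz1 : ∀ ξ ∈ Xi, act k l _ z ξ = ξ
  hz2 : ∀ f, act k l _ z f ∈ ⨆ ξ ∈ Xi, Ux ξ
  hE : ∀ ξ ∈ Xi, ∀ c : Lt k l,
    act k l _ E (ins c ξ) = (if odd c then (1 : ℚ) else 0) • ins c ξ
  hne : ∃ ξ ∈ Xi, ξ ≠ 0

/-- A catalyst with one nonzero vector. -/
noncomputable def Cat.toCatP (C : Cat k l m) (h : C.ξ ≠ 0) : CatP k l m :=
  { Xi := {C.ξ}
    z := C.z
    E := C.E
    hz1 := by rintro _ rfl; exact C.hz1
    hz2 := by
      intro f
      have h1 := C.hz2 f
      have h2 : Ux C.ξ ≤ ⨆ ξ ∈ ({C.ξ} : Set (W k l (Fin m))), Ux ξ :=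
        le_iSup₂_of_le C.ξ rfl le_rfl
      exact h2 h1
    hE := by rintro _ rfl; exact C.hE
    hne := ⟨C.ξ, rfl, h⟩ }

namespace CatP

variable (C : CatP k l m)

/-- `1 ⊗ z`. -/
noncomputable def Z (n : ℕ) : MonoidAlgebra ℚ (Perm (Fin (n + m))) := pl (phR n m) C.z

/-- The colour element on strand `i`. -/
noncomputable def Ei (n : ℕ) (i : Fin n) : MonoidAlgebra ℚ (Perm (Fin (n + m))) :=
  pl (phi n m i) C.E

theorem act_Z {ξ : W k l (Fin m)} (hξ : ξ ∈ C.Xi) (v : Fin n → Lt k l) :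
    act k l _ (C.Z n) (tn v ξ) = tn v ξ := by
  unfold Z; rw [act_pl_tn, C.hz1 ξ hξ]

theorem act_Ei {ξ : W k l (Fin m)} (hξ : ξ ∈ C.Xi) (i : Fin n) (v : Fin n → Lt k l) :
    act k l _ (C.Ei n i) (tn v ξ) = (if odd (v i) then (1 : ℚ) else 0) • tn v ξ :=
  act_phi (e := fun c => if odd c then (1 : ℚ) else 0) (C.hE ξ hξ) i v

/-- The principle: an element killing all `e_v ⊗ ξ` is in `K(k|l)` after multiplication
with `1 ⊗ z`. -/
theorem ker_of (y : MonoidAlgebra ℚ (Perm (Fin (n + m))))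
    (hy : ∀ ξ ∈ C.Xi, ∀ v : Fin n → Lt k l, act k l _ y (tn v ξ) = 0) :
    act k l _ (y * C.Z n) = 0 := by
  apply LinearMap.ext; intro g
  rw [map_mul, Module.End.mul_apply, LinearMap.zero_apply]
  unfold Z
  conv_lhs => rw [sum_tn g]
  rw [map_sum, map_sum]
  refine Finset.sum_eq_zero (fun v _ => ?_)
  rw [act_pl_tn]
  let T : Submodule ℚ (W k l (Fin m)) :=
    { carrier := {f | ∀ v : Fin n → Lt k l, act k l _ y (tn v f) = 0}
      add_mem' := fun {a b} ha hb v => by rw [map_add, map_add, ha, hb, add_zero]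
      zero_mem' := fun v => by rw [map_zero, map_zero]
      smul_mem' := fun c a ha v => by rw [map_smul, map_smul, ha, smul_zero] }
  have hT : (⨆ ξ ∈ C.Xi, Ux ξ) ≤ T := by
    refine iSup₂_le (fun ξ hξ f hf => ?_)
    exact principle_vec y (hy ξ hξ) f hf
  exact hT (C.hz2 _) v

theorem Z_idem : act k l _ ((C.Z n - 1) * C.Z n) = 0 := by
  refine C.ker_of _ (fun ξ hξ v => ?_)
  rw [map_sub, map_one, LinearMap.sub_apply, act_Z C hξ, Module.End.one_apply, sub_self]

theorem Z_Ei (i : Fin n) : act k l _ ((C.Z n * C.Ei n i - C.Ei n i) * C.Z n) = 0 := by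
  refine C.ker_of _ (fun ξ hξ v => ?_)
  rw [map_sub, map_mul, LinearMap.sub_apply, Module.End.mul_apply, act_Ei C hξ, map_smul, act_Z C hξ,
    sub_self]

theorem Ei_idem (i : Fin n) : act k l _ ((C.Ei n i * C.Ei n i - C.Ei n i) * C.Z n) = 0 := by
  refine C.ker_of _ (fun ξ hξ v => ?_)
  rw [map_sub, map_mul, LinearMap.sub_apply, Module.End.mul_apply, act_Ei C hξ, map_smul, act_Ei C hξ,
    smul_smul, ← sub_smul]
  split_ifs <;> simp

theorem Ei_comm (i j : Fin n) :
    act k l _ ((C.Ei n i * C.Ei n j - C.Ei n j * C.Ei n i) * C.Z n) = 0 := by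
  refine C.ker_of _ (fun ξ hξ v => ?_)
  rw [map_sub, map_mul, map_mul, LinearMap.sub_apply, Module.End.mul_apply,
    Module.End.mul_apply, act_Ei C hξ, act_Ei C hξ, map_smul, map_smul, act_Ei C hξ, act_Ei C hξ, smul_comm, sub_self]

/-- A permutation of the strands. -/
noncomputable def S (n m : ℕ) (σ : Perm (Fin n)) : MonoidAlgebra ℚ (Perm (Fin (n + m))) :=
  MonoidAlgebra.of ℚ _ (ext (phL n m) σ)

theorem S_mul (σ τ : Perm (Fin n)) : S n m (σ * τ) = S n m σ * S n m τ := by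
  unfold S; rw [map_mul, map_mul]

theorem S_one : S n m (1 : Perm (Fin n)) = 1 := by
  unfold S; rw [map_one, map_one]

/-- Conjugation moves the colour element, exactly. -/
theorem S_Ei (σ : Perm (Fin n)) (i : Fin n) : S n m σ * C.Ei n i = C.Ei n (σ i) * S n m σ := by
  unfold S Ei
  have hT : ∀ a, ext (phL n m) σ (phi n m i a) = phi n m (σ i) a := by
    intro a
    rcases Fin.eq_zero_or_eq_succ a with rfl | ⟨a, rfl⟩
    · exact ext_apply (phL n m) σ i
    · exact ext_apply' _ _ _ (phL_notMem a)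
  rw [pl_conj (phi n m i) (phi n m (σ i)) (ext (phL n m) σ) hT, mul_assoc, mul_assoc,
    ← map_mul (MonoidAlgebra.of ℚ _), inv_mul_cancel, map_one, mul_one]

/-- Strand permutations commute with `1 ⊗ z`, exactly. -/
theorem S_Z (σ : Perm (Fin n)) : S n m σ * C.Z n = C.Z n * S n m σ := by
  unfold S Z
  have hT : ∀ a, ext (phL n m) σ (phR n m a) = phR n m a := fun a =>
    ext_apply' _ _ _ (phL_notMem a)
  have h := pl_conj (phR n m) (phR n m) (ext (phL n m) σ) hT C.z
  conv_rhs => rw [h, mul_assoc, mul_assoc, ← map_mul (MonoidAlgebra.of ℚ _), inv_mul_cancel,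
    map_one, mul_one]

theorem act_S (σ : Perm (Fin n)) (v : Fin n → Lt k l) (f : W k l (Fin m)) :
    act k l _ (S n m σ) (tn v f) = eps σ (pv v) • tn (v ∘ ⇑σ⁻¹) f := by
  unfold S; rw [act_of, rho_tn]

/-- The sign operators. -/
noncomputable def SG (σ : Perm (Fin n)) : MonoidAlgebra ℚ (Perm (Fin (n + m))) :=
  ((prs (Fin n)).toList.map (fun q => if σ q.2 < σ q.1 then
    1 - (2 : ℚ) • (C.Ei n q.1 * C.Ei n q.2) else 1)).prod

theorem act_SG {ξ : W k l (Fin m)} (hξ : ξ ∈ C.Xi) (σ : Perm (Fin n)) (v : Fin n → Lt k l) :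
    act k l _ (C.SG σ) (tn v ξ) = eps σ (pv v) • tn v ξ := by
  have h1 : ∀ L : List (Fin n × Fin n), act k l _ ((L.map (fun q => if σ q.2 < σ q.1 then
      1 - (2 : ℚ) • (C.Ei n q.1 * C.Ei n q.2) else 1)).prod) (tn v ξ)
      = ((L.map (fun q => if σ q.2 < σ q.1 then (if pv v q.1 && pv v q.2 then (-1 : ℚ) else 1)
        else 1)).prod) • tn v ξ := by
    intro L
    induction L with
    | nil => simp
    | cons q L ih =>
      rw [List.map_cons, List.prod_cons, List.map_cons, List.prod_cons, map_mul,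
        Module.End.mul_apply, ih, map_smul, mul_comm, mul_smul]
      congr 1
      by_cases hq : σ q.2 < σ q.1
      · rw [if_pos hq, if_pos hq, map_sub, map_one, map_smul, map_mul, LinearMap.sub_apply,
          LinearMap.smul_apply, Module.End.mul_apply, act_Ei C hξ, map_smul, act_Ei C hξ,
          Module.End.one_apply, smul_smul, smul_smul]
        nth_rewrite 1 [← one_smul ℚ (tn v ξ)]
        rw [← sub_smul]
        congr 1
        unfold pv
        cases odd (v q.1) <;> cases odd (v q.2) <;> simp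
        norm_num
      · rw [if_neg hq, if_neg hq, map_one, one_smul]; rfl
  unfold SG
  rw [h1, Finset.prod_map_toList]
  congr 1
  unfold eps
  refine Finset.prod_congr rfl (fun q hq => ?_)
  rw [mem_prs] at hq
  unfold H
  by_cases h2 : σ q.2 < σ q.1
  · have h3 : ¬ σ q.1 < σ q.2 := not_lt.2 h2.le
    simp [h2, h3, hq]
  · have h3 : σ q.1 < σ q.2 := lt_of_le_of_ne (not_lt.1 h2) (fun e => hq.ne (σ.injective e))
    simp [h2, h3, hq]

/-- The plain flips. -/
noncomputable def fl (σ : Perm (Fin n)) : MonoidAlgebra ℚ (Perm (Fin (n + m))) :=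
  S n m σ * C.SG σ

theorem act_fl {ξ : W k l (Fin m)} (hξ : ξ ∈ C.Xi) (σ : Perm (Fin n)) (v : Fin n → Lt k l) :
    act k l _ (C.fl σ) (tn v ξ) = tn (v ∘ ⇑σ⁻¹) ξ := by
  unfold fl
  rw [map_mul, Module.End.mul_apply, act_SG C hξ, map_smul, act_S, smul_smul, eps_sq, one_smul]

theorem fl_mul (σ τ : Perm (Fin n)) :
    act k l _ ((C.fl σ * C.fl τ - C.fl (σ * τ)) * C.Z n) = 0 := by
  refine C.ker_of _ (fun ξ hξ v => ?_)
  rw [map_sub, map_mul, LinearMap.sub_apply, Module.End.mul_apply, act_fl C hξ, act_fl C hξ, act_fl C hξ,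
    sub_eq_zero]
  congr 1

theorem fl_one : act k l _ ((C.fl (1 : Perm (Fin n)) - 1) * C.Z n) = 0 := by
  refine C.ker_of _ (fun ξ hξ v => ?_)
  rw [map_sub, map_one, LinearMap.sub_apply, act_fl C hξ, Module.End.one_apply, sub_eq_zero]
  congr 1

theorem fl_Ei (σ : Perm (Fin n)) (i : Fin n) :
    act k l _ ((C.fl σ * C.Ei n i - C.Ei n (σ i) * C.fl σ) * C.Z n) = 0 := by
  refine C.ker_of _ (fun ξ hξ v => ?_)
  rw [map_sub, map_mul, map_mul, LinearMap.sub_apply, Module.End.mul_apply,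
    Module.End.mul_apply, act_fl C hξ, act_Ei C hξ, map_smul, act_fl C hξ, act_Ei C hξ, sub_eq_zero]
  congr 2
  simp

theorem Z_fl (σ : Perm (Fin n)) :
    act k l _ ((C.Z n * C.fl σ - C.fl σ) * C.Z n) = 0 := by
  refine C.ker_of _ (fun ξ hξ v => ?_)
  rw [map_sub, map_mul, LinearMap.sub_apply, Module.End.mul_apply, act_fl C hξ, act_Z C hξ, sub_self]

/-- The antisymmetrizer of the plain flips on more than `k + l` strands is zero. -/
theorem alt_fl (T : Finset (Fin n)) (hT : k + l < T.card) :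
    act k l _ ((∑ σ ∈ univ.filter (fun σ : Perm (Fin n) => ∀ i, i ∉ T → σ i = i),
      ((Perm.sign σ : ℤ) : ℚ) • C.fl σ) * C.Z n) = 0 := by
  classical
  refine C.ker_of _ (fun ξ hξ v => ?_)
  rw [map_sum, LinearMap.sum_apply]
  simp only [map_smul, LinearMap.smul_apply, act_fl C hξ]
  -- two positions with the same letter
  have hcard : (univ : Finset (Lt k l)).card < T.card := by
    rw [Finset.card_univ, Fintype.card_sum, Fintype.card_fin, Fintype.card_fin]; exact hT
  obtain ⟨i, hi, j, hj, hij, hv⟩ := Finset.exists_ne_map_eq_of_card_lt_of_maps_to hcard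
    (fun i _ => Finset.mem_univ (v i))
  refine Finset.sum_involution (fun σ _ => σ * swap i j) ?_ ?_ ?_ ?_
  · intro σ _
    rw [Perm.sign_mul, Perm.sign_swap hij]
    have h1 : v ∘ ⇑(σ * swap i j)⁻¹ = v ∘ ⇑σ⁻¹ := by
      funext x
      rw [mul_inv_rev, swap_inv]
      simp only [Function.comp_apply, Perm.mul_apply]
      by_cases h2 : σ⁻¹ x = i
      · rw [h2, swap_apply_left, hv]
      · by_cases h3 : σ⁻¹ x = j
        · rw [h3, swap_apply_right, hv]
        · rw [swap_apply_of_ne_of_ne h2 h3]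
    rw [h1, ← add_smul]
    simp
  · intro σ _ _ h
    have : swap i j = 1 := by
      have := congrArg (fun x => σ⁻¹ * x) h
      simpa using this
    exact hij (swap_eq_one_iff.1 this)
  · intro σ hσ
    rw [Finset.mem_filter] at *
    refine ⟨Finset.mem_univ _, fun x hx => ?_⟩
    rw [Perm.mul_apply, swap_apply_of_ne_of_ne, hσ.2 x hx]
    · rintro rfl; exact hx hi
    · rintro rfl; exact hx hj
  · intro σ _
    rw [mul_assoc, swap_mul_self, mul_one]

end CatP

end Pool.PI34.Super
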