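import Pool.Agent.LibPI34.SKJ2
import Pool.Agent.LibPI34.SKK2
import Pool.Agent.LibPI34.Super9

/-!
PI34, E-block for odd primes, file SKL: assembly: for every odd prime `p` there is a catalyst with coefficients in the ring `A`
of the `p`-integral rational numbers.
-/

set_option linter.unusedVariables false

namespace Pool.PI34.SK

open Equiv Finset
open Pool.PI34.Super (Lt odd)

variable {k l : ℕ}

/-- the supremum of the `Ux ξ` is stable -/
theorem iSup_Ux_stable {m : ℕ} (Xi : Set (W ℚ k l (Fin m))) (a b : Lt k l)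
    {v : W ℚ k l (Fin m)} (hv : v ∈ ⨆ ξ ∈ Xi, Pool.PI34.Super.Ux ξ) :
    EE a b v ∈ ⨆ ξ ∈ Xi, Pool.PI34.Super.Ux ξ := by
  have h : (⨆ ξ ∈ Xi, Pool.PI34.Super.Ux (k := k) (l := l) ξ)
      ≤ (⨆ ξ ∈ Xi, Pool.PI34.Super.Ux (k := k) (l := l) ξ).comap (EE a b) := by
    refine iSup₂_le (fun ξ hξ w hw => ?_)
    rw [Submodule.mem_comap]
    have h2 : Pool.PI34.Super.Ux (k := k) (l := l) ξ ≤ ⨆ ξ ∈ Xi, Pool.PI34.Super.Ux ξ :=
      le_iSup₂_of_le ξ hξ le_rfl
    exact h2 (Pool.PI34.Super.Ux_stable hw a b)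
  exact h hv

/-- translation to the structure of `Super9` -/
noncomputable def toSuper {m : ℕ} (C : CatP k l m) : Pool.PI34.Super.CatP k l m :=
  { Xi := C.Ξ
    z := C.z
    E := C.E
    hz1 := C.hz1
    hz2 := by
      intro f
      have h1 := C.hz2 f
      have h2 : gen Sall (Submodule.span ℚ C.Ξ)
          ≤ ⨆ ξ ∈ C.Ξ, Pool.PI34.Super.Ux (k := k) (l := l) ξ := by
        refine gen_le ?_ ?_
        · refine Submodule.span_le.2 (fun ξ hξ => ?_)
          have h3 : Pool.PI34.Super.Ux (k := k) (l := l) ξ ≤ ⨆ ξ ∈ C.Ξ, Pool.PI34.Super.Ux ξ :=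
            le_iSup₂_of_le ξ hξ le_rfl
          exact h3 (Pool.PI34.Super.mem_Ux ξ)
        · rintro T ⟨a, b, rfl⟩ v hv
          exact iSup_Ux_stable C.Ξ a b hv
      exact h2 h1
    hE := by
      intro ξ hξ c
      have h := C.hE ξ hξ c
      have e : Pool.PI34.Super.ins c ξ = ins c ξ := by
        funext w
        rfl
      rw [e]
      exact h
    hne := C.hne }

/-- the case without letters -/
theorem catP_triv (hk : k + l = 0) (A : Type) [CommRing A] [Algebra A ℚ] :
    ∃ (m : ℕ) (C : Pool.PI34.Super.CatP k l m) (z : MonoidAlgebra A (Perm (Fin m)))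
      (E : MonoidAlgebra A (Perm (Fin (m + 1)))),
      C.z = MonoidAlgebra.mapRingHom _ (algebraMap A ℚ) z ∧
      C.E = MonoidAlgebra.mapRingHom _ (algebraMap A ℚ) E := by
  have he : IsEmpty (Lt k l) := by
    constructor
    rintro (i | i)
    · have := i.2; omega
    · have := i.2; omega
  refine ⟨0, ⟨{fun _ => 1}, 1, 1, ?_, ?_, ?_, ⟨fun _ => 1, rfl, ?_⟩⟩, 1, 1, ?_, ?_⟩
  · intro ξ _
    rw [map_one]
    rfl
  · intro f
    rw [map_one, Module.End.one_apply]
    have h : f = f (fun i => i.elim0) • (fun _ => 1 : Pool.PI34.Super.W k l (Fin 0)) := by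
      funext w
      rw [Pi.smul_apply, smul_eq_mul, mul_one]
      congr 1
      funext i
      exact i.elim0
    rw [h]
    refine Submodule.smul_mem _ _ ?_
    have h3 : Pool.PI34.Super.Ux (k := k) (l := l) (m := 0) (fun _ => 1)
        ≤ ⨆ ξ ∈ ({fun _ => 1} : Set (Pool.PI34.Super.W k l (Fin 0))), Pool.PI34.Super.Ux ξ :=
      le_iSup₂_of_le _ rfl le_rfl
    exact h3 (Pool.PI34.Super.mem_Ux _)
  · intro ξ _ c
    exact he.elim c
  · intro h
    have := congrFun h (fun i => i.elim0)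
    simp at this
  · exact (map_one _).symm
  · exact (map_one _).symm

/-- THE CATALYST for an odd prime `p`, with coefficients in the ring of the `p`-integral rationals. -/
theorem exists_catP {p : ℕ} [Fact p.Prime] (hp : p ≠ 2) (A : Type) [CommRing A] [Algebra A ℚ]
    [Algebra A (ZMod p)] [PInt p A] (k l : ℕ) :
    ∃ (m : ℕ) (C : Pool.PI34.Super.CatP k l m) (z : MonoidAlgebra A (Perm (Fin m)))
      (E : MonoidAlgebra A (Perm (Fin (m + 1)))),
      C.z = MonoidAlgebra.mapRingHom _ (algebraMap A ℚ) z ∧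
      C.E = MonoidAlgebra.mapRingHom _ (algebraMap A ℚ) E := by
  rcases Nat.eq_zero_or_pos (k + l) with hk | hk
  · exact catP_triv hk A
  obtain ⟨m, r, ξ, h0, h1, h2, h3⟩ := exists_r (p := p) A k l
  have hH : HH A ℚ k l r := HH_of hp hk (good_rat p A k l) r h0 h1 h2 h3
  have hH' : HH A (ZMod p) k l r := HH_of hp hk (good_mod p A k l) r h0 h1 h2 h3
  obtain ⟨C, z, E, hz, hE⟩ := catP_of hp hk r hH hH' h0 ⟨ξ, h1⟩
  exact ⟨m + m, toSuper C, z, E, hz, hE⟩

/-- the ring of the `p`-integral rational numbers -/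
def Zp (p : ℕ) [Fact p.Prime] : Subring ℚ where
  carrier := {q | ¬ p ∣ q.den}
  mul_mem' := by
    intro a b ha hb h
    have h1 : p ∣ a.den * b.den := h.trans (Rat.mul_den_dvd a b)
    rcases (Nat.Prime.dvd_mul (Fact.out : p.Prime)).1 h1 with h2 | h2
    · exact ha h2
    · exact hb h2
  one_mem' := by
    intro h
    exact (Fact.out : p.Prime).one_lt.ne' (Nat.dvd_one.1 h)
  add_mem' := by
    intro a b ha hb h
    have h1 : p ∣ a.den * b.den := h.trans (Rat.add_den_dvd a b)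
    rcases (Nat.Prime.dvd_mul (Fact.out : p.Prime)).1 h1 with h2 | h2
    · exact ha h2
    · exact hb h2
  zero_mem' := by
    intro h
    exact (Fact.out : p.Prime).one_lt.ne' (Nat.dvd_one.1 h)
  neg_mem' := by
    intro a ha h
    rw [Rat.neg_den] at h
    exact ha h

theorem Zp_den {p : ℕ} [Fact p.Prime] (q : Zp p) : ((q.1.den : ℕ) : ZMod p) ≠ 0 := by
  intro h
  exact q.2 ((ZMod.natCast_eq_zero_iff _ _).1 h)

/-- the reduction mod `p` -/
noncomputable def Zp_red (p : ℕ) [Fact p.Prime] : Zp p →+* ZMod p where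
  toFun q := ((q.1 : ℚ) : ZMod p)
  map_one' := by
    change ((1 : ℚ) : ZMod p) = 1
    exact Rat.cast_one
  map_zero' := by
    change ((0 : ℚ) : ZMod p) = 0
    exact Rat.cast_zero
  map_mul' a b := Rat.cast_mul_of_ne_zero (Zp_den a) (Zp_den b)
  map_add' a b := Rat.cast_add_of_ne_zero (Zp_den a) (Zp_den b)

noncomputable instance (p : ℕ) [Fact p.Prime] : Algebra (Zp p) (ZMod p) := (Zp_red p).toAlgebra

theorem Zp_alg (p : ℕ) [Fact p.Prime] (q : Zp p) :
    algebraMap (Zp p) (ZMod p) q = ((q.1 : ℚ) : ZMod p) := rfl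

instance (p : ℕ) [Fact p.Prime] : PInt p (Zp p) where
  inj := Subtype.val_injective
  unit := by
    intro a ha
    rw [Zp_alg] at ha
    have hn : ¬ (p : ℤ) ∣ a.1.num := by
      intro h
      apply ha
      rw [Rat.cast_def, (ZMod.intCast_zmod_eq_zero_iff_dvd _ _).2 h, zero_div]
    have h0 : a.1 ≠ 0 := by
      intro h
      apply hn
      rw [h]
      simp
    have hm : a.1⁻¹ ∈ Zp p := by
      change ¬ p ∣ (a.1⁻¹).den
      rw [Rat.den_inv_of_ne_zero h0]
      intro h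
      exact hn (Int.natCast_dvd.2 h)
    refine IsUnit.of_mul_eq_one ⟨a.1⁻¹, hm⟩ ?_
    exact Subtype.ext (mul_inv_cancel₀ h0)

/-- THE CATALYST for an odd prime `p`, with coefficients in `Zp p`. -/
theorem exists_catP_Zp (p : ℕ) [Fact p.Prime] (hp : p ≠ 2) (k l : ℕ) :
    ∃ (m : ℕ) (C : Pool.PI34.Super.CatP k l m) (z : MonoidAlgebra (Zp p) (Perm (Fin m)))
      (E : MonoidAlgebra (Zp p) (Perm (Fin (m + 1)))),
      C.z = MonoidAlgebra.mapRingHom _ (algebraMap (Zp p) ℚ) z ∧
      C.E = MonoidAlgebra.mapRingHom _ (algebraMap (Zp p) ℚ) E :=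
  exists_catP hp (Zp p) k l

end Pool.PI34.SK
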