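import Pool.Agent.LibPI34.S_Gr

/-!
PI34, block S, file 6: computation of the coefficients of the double Grassmann substitution.
-/

set_option autoImplicit false

namespace Pool.PI34.SS

open Equiv Finset

/-! ### the functionals -/

section phi

variable {b : ℕ}

/-- the functional `coefficient of the product of the list` (up to sign) -/
noncomputable def phL : List (Fin b) → (Lam b →ₗ[ℤ] ℤ)
  | [] => (ExteriorAlgebra.algebraMapInv (R := ℤ) (M := Fin b → ℤ)).toLinearMap
  | s :: L => (phL L).comp (CliffordAlgebra.contractLeft (Q := (0 : QuadraticForm ℤ (Fin b → ℤ)))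
      (LinearMap.proj s))

theorem contract_ge (s t : Fin b) (ω : Lam b) :
    CliffordAlgebra.contractLeft (Q := (0 : QuadraticForm ℤ (Fin b → ℤ))) (LinearMap.proj s)
      (ge t * ω) = (if s = t then 1 else 0 : ℤ) • ω - ge t *
      CliffordAlgebra.contractLeft (Q := (0 : QuadraticForm ℤ (Fin b → ℤ))) (LinearMap.proj s)
        ω := by
  have h := CliffordAlgebra.contractLeft_ι_mul (Q := (0 : QuadraticForm ℤ (Fin b → ℤ)))
    (d := LinearMap.proj s) (Pi.single t 1) ω
  have h2 : (LinearMap.proj s : (Fin b → ℤ) →ₗ[ℤ] ℤ) (Pi.single t 1)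
      = (if s = t then 1 else 0 : ℤ) := by
    rw [LinearMap.proj_apply, Pi.single_apply]
  rw [h2] at h
  exact h

theorem phL_one (L : List (Fin b)) : phL L 1 = if L = [] then 1 else 0 := by
  cases L with
  | nil => simp [phL]
  | cons s L =>
    rw [if_neg (by simp)]
    simp only [phL, LinearMap.comp_apply]
    rw [CliffordAlgebra.contractLeft_one, map_zero]

theorem phL_mul (t : Fin b) (L : List (Fin b)) (hL : L.Nodup) :
    ∃ ε : ℤ, ε * ε = 1 ∧ ∀ ω : Lam b, phL L (ge t * ω)
      = if t ∈ L then ε * phL (L.erase t) ω else 0 := by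
  induction L with
  | nil =>
    refine ⟨1, by norm_num, fun ω => ?_⟩
    simp only [phL, List.not_mem_nil, if_false, AlgHom.toLinearMap_apply]
    have : (ExteriorAlgebra.algebraMapInv (R := ℤ) (M := Fin b → ℤ)) (ge t) = 0 := by
      unfold ge ExteriorAlgebra.algebraMapInv
      rw [ExteriorAlgebra.lift_ι_apply]; rfl
    rw [map_mul, this, zero_mul]
  | cons s L ih =>
    obtain ⟨ε, hε, h⟩ := ih (List.nodup_cons.1 hL).2
    by_cases hst : s = t
    · subst hst
      refine ⟨1, by norm_num, fun ω => ?_⟩
      rw [if_pos List.mem_cons_self, List.erase_cons_head, one_mul]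
      simp only [phL, LinearMap.comp_apply]
      rw [contract_ge, if_pos rfl, one_smul, map_sub, h, if_neg (List.nodup_cons.1 hL).1, sub_zero]
    · refine ⟨-ε, by rw [neg_mul_neg]; exact hε, fun ω => ?_⟩
      simp only [phL, LinearMap.comp_apply]
      rw [contract_ge, if_neg hst, zero_smul, zero_sub, map_neg, h]
      by_cases ht : t ∈ L
      · rw [if_pos ht, if_pos (List.mem_cons_of_mem _ ht),
          List.erase_cons_tail (by simpa using hst)]
        simp only [phL, LinearMap.comp_apply]
        ring
      · have : t ∉ s :: L := by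
          simp only [List.mem_cons, not_or]
          exact ⟨fun e => hst e.symm, ht⟩
        rw [if_neg ht, if_neg this, neg_zero]

variable {U : Type*} [Ring U]

/-- the double coefficient -/
noncomputable def CL (U : Type*) [Ring U] (L : List (Fin b)) : GT (GT U b) b →+ U :=
  (GT.coef U (phL L)).comp (GT.coef (GT U b) (phL L))

theorem CL_mk (L : List (Fin b)) (a : U) (ω η : Lam b) :
    CL U L (GT.mk (GT.mk a ω) η) = (phL L η * phL L ω) • a := by
  unfold CL
  rw [AddMonoidHom.comp_apply, GT.coef_mk, map_zsmul, GT.coef_mk, smul_smul]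

theorem GT2_induction {p : GT (GT U b) b → Prop} (h0 : p 0)
    (h1 : ∀ a ω η, p (GT.mk (GT.mk a ω) η)) (h2 : ∀ x y, p x → p y → p (x + y))
    (x : GT (GT U b) b) : p x := by
  induction x using GT.induction with
  | h0 => exact h0
  | h1 a η =>
    induction a using GT.induction with
    | h0 => rw [GT.mk_zero]; exact h0
    | h1 a ω => exact h1 a ω η
    | h2 x y hx hy => rw [GT.mk_add]; exact h2 _ _ hx hy
  | h2 x y hx hy => exact h2 _ _ hx hy

theorem CL_ev (L : List (Fin b)) (a : U) (x : GT (GT U b) b) :
    CL U L (GT.mk (GT.mk a 1) 1 * x) = a * CL U L x := by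
  induction x using GT2_induction with
  | h0 => simp
  | h1 c ω η => rw [GT.mk_mul, GT.mk_mul, CL_mk, CL_mk, one_mul, one_mul, mul_smul_comm]
  | h2 x y hx hy => rw [mul_add, map_add, hx, hy, map_add, mul_add]

theorem CL_od (L : List (Fin b)) (hL : L.Nodup) (t : Fin b) (a : U) (x : GT (GT U b) b) :
    CL U L (GT.mk (GT.mk a (ge t)) (ge t) * x)
      = if t ∈ L then a * CL U (L.erase t) x else 0 := by
  obtain ⟨ε, hε, h⟩ := phL_mul t L hL
  induction x using GT2_induction with
  | h0 => simp
  | h1 c ω η =>
    rw [GT.mk_mul, GT.mk_mul, CL_mk, h, h]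
    split_ifs
    · rw [CL_mk, mul_smul_comm]
      congr 1
      calc ε * phL (L.erase t) η * (ε * phL (L.erase t) ω)
          = (ε * ε) * (phL (L.erase t) η * phL (L.erase t) ω) := by ring
        _ = _ := by rw [hε, one_mul]
    · rw [mul_zero, zero_smul]
  | h2 x y hx hy =>
    rw [mul_add, map_add, hx, hy, map_add]
    split_ifs
    · rw [mul_add]
    · rw [add_zero]

theorem CL_one (L : List (Fin b)) : CL U L 1 = if L = [] then 1 else 0 := by
  have : (1 : GT (GT U b) b) = GT.mk (GT.mk 1 1) 1 := rfl
  rw [this, CL_mk, phL_one]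
  split_ifs <;> simp

end phi

/-! ### factorials of multisets -/

section fac

variable {Y : Type} [DecidableEq Y]

/-- the product of the factorials of the multiplicities -/
def fac (M : Multiset Y) : ℕ := ∏ y ∈ M.toFinset, (M.count y).factorial

theorem fac_eq (M : Multiset Y) (T : Finset Y) (h : M.toFinset ⊆ T) :
    fac M = ∏ y ∈ T, (M.count y).factorial := by
  unfold fac
  refine Finset.prod_subset h (fun y _ hy => ?_)
  rw [Multiset.mem_toFinset] at hy
  rw [Multiset.count_eq_zero_of_notMem hy, Nat.factorial_zero]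

theorem fac_erase (M : Multiset Y) (y : Y) (hy : y ∈ M) :
    fac M = M.count y * fac (M.erase y) := by
  have h1 : (M.erase y).toFinset ⊆ M.toFinset :=
    fun x hx => by
      rw [Multiset.mem_toFinset] at *
      exact Multiset.mem_of_mem_erase hx
  rw [fac_eq (M.erase y) M.toFinset h1, fac]
  have h2 : y ∈ M.toFinset := Multiset.mem_toFinset.2 hy
  rw [← Finset.mul_prod_erase _ _ h2, ← Finset.mul_prod_erase _ _ h2, ← mul_assoc]
  congr 1
  · rw [Multiset.count_erase_self]
    have : 0 < M.count y := Multiset.count_pos.2 hy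
    obtain ⟨n, hn⟩ := Nat.exists_eq_succ_of_ne_zero this.ne'
    rw [hn, Nat.succ_sub_one, Nat.factorial_succ]
  · refine Finset.prod_congr rfl (fun x hx => ?_)
    rw [Multiset.count_erase_of_ne (Finset.ne_of_mem_erase hx)]

end fac

end Pool.PI34.SS
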