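import Pool.Agent.LibPI34.S_Comb

/-!
PI34, block S, file 7: multidegrees, R1.
-/

set_option autoImplicit false

namespace Pool.PI34.SS

open Equiv Finset
open Pool.PI34.BA

section gam

variable {U : Type*} [Ring U] {Y : Type}

/-- `y ↦ α y + T_y β y`, graded by multisets -/
noncomputable def Gam (α β : Y → U) : FA Y →+* AddMonoidAlgebra U (Multiset Y) :=
  FA.lift (fun y => AddMonoidAlgebra.single 0 (α y) + AddMonoidAlgebra.single {y} (β y))

/-- the double Grassmann substitution -/
noncomputable def dsub {b : ℕ} [DecidableEq Y] (c : Fin b → Y) (α β : Y → U) (y : Y) :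
    GT (GT U b) b :=
  GT.mk (GT.mk (α y) 1) 1 + ∑ s, if c s = y then GT.mk (GT.mk (β y) (ge s)) (ge s) else 0

variable [DecidableEq Y]

theorem coeff_single_mul_multiset (y : Y) (r : U) (x : AddMonoidAlgebra U (Multiset Y))
    (M : Multiset Y) : (AddMonoidAlgebra.single {y} r * x).coeff M
      = if y ∈ M then r * x.coeff (M.erase y) else 0 := by
  split_ifs with h
  · refine AddMonoidAlgebra.coeff_single_mul_eq_mul_coeff (M.erase y) (fun m' _ => ?_)
    constructor
    · rintro rfl
      rw [Multiset.singleton_add, Multiset.erase_cons_head]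
    · rintro rfl
      rw [Multiset.singleton_add, Multiset.cons_erase h]
  · refine AddMonoidAlgebra.coeff_single_mul_of_forall_add_ne _ _ (fun d hd => h ?_)
    rw [← hd]; simp

omit [DecidableEq Y] in
theorem coeff_single_zero_mul (r : U) (x : AddMonoidAlgebra U (Multiset Y))
    (M : Multiset Y) : (AddMonoidAlgebra.single 0 r * x).coeff M = r * x.coeff M :=
  AddMonoidAlgebra.coeff_single_mul_eq_mul_coeff M (fun m' _ => by rw [zero_add])

theorem erase_map {b : ℕ} (c : Fin b → Y) (L : List (Fin b)) (s : Fin b) (hs : s ∈ L) :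
    (((L.erase s).map c : List Y) : Multiset Y) = ((L.map c : List Y) : Multiset Y).erase (c s) := by
  have h1 : (L : Multiset (Fin b)) = s ::ₘ ((L.erase s : List (Fin b)) : Multiset (Fin b)) := by
    rw [Multiset.cons_coe, Multiset.coe_eq_coe]
    exact List.perm_cons_erase hs
  have h2 : ((L.map c : List Y) : Multiset Y) = (c s) ::ₘ (((L.erase s).map c : List Y) : Multiset Y) := by
    rw [← Multiset.map_coe, h1, Multiset.map_cons, Multiset.map_coe]
  rw [h2, Multiset.erase_cons_head]

theorem count_map {b : ℕ} (c : Fin b → Y) (L : List (Fin b)) (hL : L.Nodup) (y : Y) :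
    ((L.map c : List Y) : Multiset Y).count y
      = (univ.filter (fun s => c s = y ∧ s ∈ L)).card := by
  rw [Multiset.coe_count, List.count_eq_countP, List.countP_map, List.countP_eq_length_filter]
  have h1 : (univ.filter (fun s => c s = y ∧ s ∈ L)) = (L.filter (fun s => decide (c s = y))).toFinset := by
    ext s
    simp [and_comm]
  rw [h1, List.toFinset_card_of_nodup (hL.filter _)]
  congr 1

theorem comb {b : ℕ} (c : Fin b → Y) (α β : Y → U) (P : FA Y) :
    ∀ P' : FA Y, (∀ L : List (Fin b), L.Nodup → CL U L (FA.lift (dsub c α β) P')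
      = fac ((L.map c : List Y) : Multiset Y) • (Gam α β P').coeff ((L.map c : List Y))) →
    (∀ L : List (Fin b), L.Nodup → CL U L (FA.lift (dsub c α β) (P * P'))
      = fac ((L.map c : List Y) : Multiset Y) • (Gam α β (P * P')).coeff ((L.map c : List Y))) := by
  induction P using FA.induction with
  | h0 r =>
    intro P' h L hL
    rw [← zsmul_eq_mul, map_zsmul (FA.lift (dsub c α β)), map_zsmul (Gam α β),
      map_zsmul (CL U L), h L hL, AddMonoidAlgebra.coeff_smul_apply, smul_comm]
  | h1 y =>
    intro P' h L hL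
    have e1 : FA.lift (dsub c α β) (FA.of y * P')
        = (GT.mk (GT.mk (α y) 1) 1 + ∑ s, if c s = y then GT.mk (GT.mk (β y) (ge s)) (ge s)
          else 0) * FA.lift (dsub c α β) P' := by
      rw [RingHom.map_mul, FA.lift_of]; rfl
    have e2 : Gam α β (FA.of y * P')
        = (AddMonoidAlgebra.single 0 (α y) + AddMonoidAlgebra.single {y} (β y)) * Gam α β P' := by
      unfold Gam
      rw [RingHom.map_mul, FA.lift_of]
    rw [e1, e2, add_mul, add_mul, AddMonoidAlgebra.coeff_add, Finsupp.add_apply,
      coeff_single_zero_mul, coeff_single_mul_multiset, map_add, CL_ev, Finset.sum_mul, map_sum]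
    have h3 : ∀ s : Fin b, CL U L ((if c s = y then GT.mk (GT.mk (β y) (ge s)) (ge s) else 0) *
        FA.lift (dsub c α β) P')
        = if c s = y ∧ s ∈ L then β y * (fac ((((L.map c : List Y) : Multiset Y)).erase y) •
          (Gam α β P').coeff ((((L.map c : List Y) : Multiset Y)).erase y)) else 0 := by
      intro s
      by_cases h1 : c s = y
      · rw [if_pos h1, CL_od L hL]
        by_cases h2 : s ∈ L
        · rw [if_pos h2, if_pos ⟨h1, h2⟩, h _ (hL.erase s), erase_map c L s h2, h1]
        · rw [if_neg h2, if_neg (fun e => h2 e.2)]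
      · rw [if_neg h1, if_neg (fun e => h1 e.1), zero_mul, map_zero]
    rw [Finset.sum_congr rfl (fun s _ => h3 s), ← Finset.sum_filter, Finset.sum_const,
      ← count_map c L hL y, h L hL, smul_add]
    congr 1
    · rw [mul_smul_comm]
    · split_ifs with hy
      · rw [fac_erase _ _ hy, mul_smul, mul_smul_comm]
      · rw [Multiset.count_eq_zero_of_notMem hy, zero_smul, smul_zero]
  | hm u v hu hv =>
    intro P' h L hL
    rw [mul_assoc]
    exact hu _ (hv _ h) L hL
  | ha u v hu hv =>
    intro P' h L hL
    rw [add_mul, map_add (FA.lift (dsub c α β)), map_add (CL U L), hu _ h L hL, hv _ h L hL,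
      map_add (Gam α β), AddMonoidAlgebra.coeff_add, Finsupp.add_apply, smul_add]

theorem comb' {b : ℕ} (c : Fin b → Y) (α β : Y → U) (P : FA Y) (L : List (Fin b))
    (hL : L.Nodup) : CL U L (FA.lift (dsub c α β) P)
      = fac ((L.map c : List Y) : Multiset Y) • (Gam α β P).coeff ((L.map c : List Y)) := by
  have h := comb c α β P 1 (fun L _ => by
    rw [map_one (FA.lift (dsub c α β)), map_one (Gam α β), CL_one]
    by_cases h : L = []
    · subst h
      simp [fac]
    · rw [if_neg h]
      have : (1 : AddMonoidAlgebra U (Multiset Y)).coeff ((L.map c : List Y) : Multiset Y) = 0 := by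
        rw [AddMonoidAlgebra.one_def, AddMonoidAlgebra.coeff_single, Finsupp.single_apply, if_neg]
        intro h2
        rw [eq_comm, Multiset.coe_eq_zero, List.map_eq_nil_iff] at h2
        exact h h2
      rw [this, smul_zero]) L hL
  rwa [mul_one] at h

end gam

section R1

variable {ι Φ U : Type} [Fintype ι] [DecidableEq ι] [Ring Φ] [Ring U] {z : ι}
variable (S : SupStr ι Φ U z) {Y : Type} [DecidableEq Y]

/-- R1: the components of a graded identity, up to factorials, kill `om`. -/
theorem R1 (k : ℕ) (hA : Anti S.f k) (p q : Fin k ↪ ι) (hF : Frame p q z) (E : Y → Prop)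
    (u v : Y → Φ) (hu : ∀ y, u y ∈ S.ev) (hv : ∀ y, v y ∈ S.od) (hE : ∀ y, ¬ E y → u y = 0)
    (P : FA Y) (hP : GI k E P) (M : Multiset Y) :
    (fac M • (Gam (fun y => S.ρ z (u y)) (fun y => S.ρ z (v y)) P).coeff M) *
      (anti S.f (univ.map p) * anti S.f (univ.map q)) = 0 := by
  classical
  obtain ⟨l, rfl⟩ := Quot.exists_rep M
  let c : Fin l.length → Y := fun s => l.get s
  have h1 := R0 S E c k hA p q hF u v hu hv P hP (phL (List.finRange l.length))
    (phL (List.finRange l.length))
  have h2 : FA.lift (gsub E c (S.gx (Sum.elim u (fun s => v (c s))) (lab Y l.length) z)) P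
      = FA.lift (dsub c (fun y => S.ρ z (u y)) (fun y => S.ρ z (v y))) P := by
    have : gsub E c (S.gx (Sum.elim u (fun s => v (c s))) (lab Y l.length) z)
        = dsub c (fun y => S.ρ z (u y)) (fun y => S.ρ z (v y)) := by
      funext y
      unfold gsub dsub
      congr 1
      · split_ifs with hy
        · rfl
        · simp only [hE y hy, map_zero, GT.mk_zero]
      · refine Finset.sum_congr rfl (fun s _ => ?_)
        split_ifs with hs
        · change GT.mk (GT.mk (S.τ z (v (c s))) (ge s)) (ge s) = _
          rw [S.τ_z _ (hv _), hs]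
        · rfl
    rw [this]
  rw [h2] at h1
  have h3 := comb' c (fun y => S.ρ z (u y)) (fun y => S.ρ z (v y)) P
    (List.finRange l.length) (List.nodup_finRange _)
  have h4 : (List.finRange l.length).map c = l := by
    simp [c]
  rw [h4] at h3
  have h5 : CL U (List.finRange l.length) (FA.lift (dsub c (fun y => S.ρ z (u y))
      (fun y => S.ρ z (v y))) P) * (anti S.f (univ.map p) * anti S.f (univ.map q)) = 0 := h1
  rw [h3] at h5
  exact h5

end R1

end Pool.PI34.SS
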