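import Pool.Agent.LibPI34.S_Sys

/-!
PI34, block S, file 5: a coefficient of the Grassmann substitution is an identity of matrices over
commutative rings; the double Grassmann substitution.
-/

set_option autoImplicit false

namespace Pool.PI34.SS

open Equiv Finset TensorProduct
open Pool.PI34.BA

section mat

variable {b k : ℕ} {C : Type} [CommRing C]

theorem scal_comm (M : Matrix (Fin k) (Fin k) C) (ω : Lam b) :
    (Algebra.TensorProduct.includeLeft : C →ₐ[ℤ] C ⊗[ℤ] Lam b).mapMatrix M *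
      (Matrix.scalar (Fin k) ((1 : C) ⊗ₜ[ℤ] ω)) =
    (Matrix.scalar (Fin k) ((1 : C) ⊗ₜ[ℤ] ω)) *
      (Algebra.TensorProduct.includeLeft : C →ₐ[ℤ] C ⊗[ℤ] Lam b).mapMatrix M := by
  ext i j
  simp [Matrix.scalar_apply, Matrix.mul_diagonal, Matrix.diagonal_mul,
    Algebra.TensorProduct.tmul_mul_tmul]

/-- scalar matrices -/
noncomputable def gsc : Lam b →ₐ[ℤ] Matrix (Fin k) (Fin k) (C ⊗[ℤ] Lam b) :=
  ((Matrix.scalar (Fin k) : (C ⊗[ℤ] Lam b) →+* Matrix (Fin k) (Fin k) (C ⊗[ℤ] Lam b)).comp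
      ((Algebra.TensorProduct.includeRight : Lam b →ₐ[ℤ] C ⊗[ℤ] Lam b) :
        Lam b →+* C ⊗[ℤ] Lam b)).toIntAlgHom

theorem gsc_apply (ω : Lam b) :
    (gsc ω : Matrix (Fin k) (Fin k) (C ⊗[ℤ] Lam b)) = Matrix.scalar (Fin k) ((1 : C) ⊗ₜ[ℤ] ω) :=
  rfl

/-- matrices over `C` tensored with the exterior algebra -/
noncomputable def toMat0 : Matrix (Fin k) (Fin k) C ⊗[ℤ] Lam b →ₐ[ℤ]
    Matrix (Fin k) (Fin k) (C ⊗[ℤ] Lam b) :=
  Algebra.TensorProduct.lift
    ((Algebra.TensorProduct.includeLeft : C →ₐ[ℤ] C ⊗[ℤ] Lam b).mapMatrix)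
    gsc (fun M ω => by rw [gsc_apply]; exact scal_comm M ω)

theorem toMat0_tmul (M : Matrix (Fin k) (Fin k) C) (ω : Lam b) (i j : Fin k) :
    toMat0 (M ⊗ₜ[ℤ] ω) i j = M i j ⊗ₜ[ℤ] ω := by
  unfold toMat0
  rw [Algebra.TensorProduct.lift_tmul, gsc_apply]
  simp [Matrix.scalar_apply, Matrix.mul_diagonal, Algebra.TensorProduct.tmul_mul_tmul]

theorem toMat0_exists : ∃ F : GT (Matrix (Fin k) (Fin k) C) b →+*
    Matrix (Fin k) (Fin k) (GT C b), ∀ M ω i j, F (GT.mk M ω) i j = GT.mk (M i j) ω :=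
  ⟨((toMat0 : Matrix (Fin k) (Fin k) C ⊗[ℤ] Lam b →ₐ[ℤ]
    Matrix (Fin k) (Fin k) (C ⊗[ℤ] Lam b)) : Matrix (Fin k) (Fin k) C ⊗[ℤ] Lam b →+*
    Matrix (Fin k) (Fin k) (C ⊗[ℤ] Lam b)), fun M ω i j => toMat0_tmul M ω i j⟩

/-- matrices over `C` with exterior coefficients -/
noncomputable def toMat : GT (Matrix (Fin k) (Fin k) C) b →+* Matrix (Fin k) (Fin k) (GT C b) :=
  toMat0_exists.choose

theorem toMat_mk (M : Matrix (Fin k) (Fin k) C) (ω : Lam b) (i j : Fin k) :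
    toMat (GT.mk M ω) i j = GT.mk (M i j) ω := toMat0_exists.choose_spec M ω i j

theorem coef_toMat (φ : Lam b →ₗ[ℤ] ℤ) (x : GT (Matrix (Fin k) (Fin k) C) b)
    (i j : Fin k) : GT.coef C φ (toMat x i j) = GT.coef _ φ x i j := by
  induction x using GT.induction with
  | h0 => simp
  | h1 M ω => rw [toMat_mk, GT.coef_mk, GT.coef_mk]; rfl
  | h2 x y hx hy => rw [map_add, Matrix.add_apply, map_add, hx, hy, map_add, Matrix.add_apply]

end mat

section main

variable {b : ℕ} {Y : Type} (E : Y → Prop) (c : Fin b → Y)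

open Classical in
/-- the Grassmann substitution, general values -/
noncomputable def gsub {A : Type*} [Ring A] (m : Y ⊕ Fin b → A) (y : Y) : GT A b :=
  (if E y then GT.mk (m (Sum.inl y)) (1 : Lam b) else 0)
    + ∑ s, if c s = y then GT.mk (m (Sum.inr s)) (ge s) else 0

theorem tmap_gsub {A B : Type*} [Ring A] [Ring B] (ψ : A →+* B) (m : Y ⊕ Fin b → A) (y : Y) :
    GT.tmap ψ b (gsub E c m y) = gsub E c (fun w => ψ (m w)) y := by
  unfold gsub
  rw [map_add, map_sum]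
  congr 1
  · split_ifs
    · exact GT.tmap_mk _ _ _
    · exact map_zero _
  · refine Finset.sum_congr rfl (fun s _ => ?_)
    split_ifs
    · exact GT.tmap_mk _ _ _
    · exact map_zero _

theorem tmap_lift {A B : Type*} [Ring A] [Ring B] (ψ : A →+* B) (m : Y ⊕ Fin b → A)
    (P : FA Y) :
    GT.tmap ψ b (FA.lift (gsub E c m) P) = FA.lift (gsub E c (fun w => ψ (m w))) P :=
  FA.ext ((GT.tmap ψ b).comp (FA.lift (gsub E c m))) (FA.lift (gsub E c (fun w => ψ (m w))))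
    (fun y => by
      rw [RingHom.comp_apply, FA.lift_of, FA.lift_of]
      exact tmap_gsub E c ψ m y) P

/-- the coefficient of the Grassmann substitution -/
noncomputable def hst (φ : Lam b →ₗ[ℤ] ℤ) (P : FA Y) : FA (Y ⊕ Fin b) :=
  GT.coef _ φ (FA.lift (gsub E c (fun w => FA.of w)) P)

theorem lift_hst {A : Type*} [Ring A] (φ : Lam b →ₗ[ℤ] ℤ) (P : FA Y) (m : Y ⊕ Fin b → A) :
    FA.lift m (hst E c φ P) = GT.coef _ φ (FA.lift (gsub E c m) P) := by
  unfold hst
  rw [← GT.coef_map, tmap_lift]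
  simp only [FA.lift_of]

theorem hst_mat0 (k : ℕ) (P : FA Y) (hP : GI k E P) (φ : Lam b →ₗ[ℤ] ℤ)
    (C : Type) [CommRing C] [IsDomain C] [CharZero C]
    (m : Y ⊕ Fin b → Matrix (Fin k) (Fin k) C) :
    FA.lift m (hst E c φ P) = 0 := by
  obtain ⟨N, hN, h⟩ := hP
  have h1 := h (GT C b) (GT.sc C b)
    (fun y => toMat (gsub E c m y)) (fun y hy i j => by
      unfold gsub
      rw [if_neg hy, zero_add, map_sum]
      rw [Matrix.sum_apply]
      refine sum_mem (fun s _ => ?_)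
      split_ifs
      · rw [toMat_mk]
        exact GT.mk_ge_od _ _
      · rw [map_zero]; exact zero_mem _)
  have h0 : FA.lift (fun y => toMat (gsub E c m y)) P
      = toMat (FA.lift (gsub E c m) P) :=
    FA.ext (FA.lift (fun y => toMat (gsub E c m y))) (toMat.comp (FA.lift (gsub E c m)))
      (fun y => by rw [RingHom.comp_apply, FA.lift_of, FA.lift_of]) P
  rw [h0] at h1
  rw [lift_hst]
  ext i j
  have h2 := congrArg (fun M : Matrix (Fin k) (Fin k) (GT C b) => GT.coef C φ (M i j)) h1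
  simp only [Matrix.smul_apply, map_nsmul, coef_toMat, Matrix.zero_apply, map_zero] at h2
  rcases smul_eq_zero.1 h2 with h3 | h3
  · exact absurd h3 hN
  · exact h3

theorem hst_mat (k : ℕ) (P : FA Y) (hP : GI k E P) (φ : Lam b →ₗ[ℤ] ℤ)
    (C : Type) [CommRing C] (m : Y ⊕ Fin b → Matrix (Fin k) (Fin k) C) :
    FA.lift m (hst E c φ P) = 0 := by
  let m0 : Y ⊕ Fin b → Matrix (Fin k) (Fin k)
      (MvPolynomial ((Y ⊕ Fin b) × Fin k × Fin k) ℤ) :=
    fun w => Matrix.of fun i j => MvPolynomial.X (w, i, j)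
  let ev : MvPolynomial ((Y ⊕ Fin b) × Fin k × Fin k) ℤ →+* C :=
    ((MvPolynomial.aeval (fun x => m x.1 x.2.1 x.2.2) :
      MvPolynomial ((Y ⊕ Fin b) × Fin k × Fin k) ℤ →ₐ[ℤ] C) : _ →+* C)
  have h1 := hst_mat0 E c k P hP φ _ m0
  have h2 := FA.ext (FA.lift m) ((ev.mapMatrix (m := Fin k)).comp (FA.lift m0))
    (fun y => by
      rw [RingHom.comp_apply, FA.lift_of, FA.lift_of]
      ext i j
      simp [m0, ev]) (hst E c φ P)
  rw [h2, RingHom.comp_apply, h1, map_zero]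

end main

/-! ### the double Grassmann substitution -/

section string

variable {ι Φ U : Type} [Fintype ι] [DecidableEq ι] [Ring Φ] [Ring U] {z : ι}
variable (S : SupStr ι Φ U z) {b : ℕ} {Y : Type} (E : Y → Prop) (c : Fin b → Y)

/-- labels of the big letters -/
def lab (Y : Type) (b : ℕ) : Y ⊕ Fin b → Option (Fin b) := Sum.elim (fun _ => none) some

/-- R0: the double coefficients of the double Grassmann substitution kill `om`. -/
theorem R0 (k : ℕ) (hA : Anti S.f k) (p q : Fin k ↪ ι) (hF : Frame p q z)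
    (u v : Y → Φ) (hu : ∀ y, u y ∈ S.ev) (hv : ∀ y, v y ∈ S.od)
    (P : FA Y) (hP : GI k E P) (φ φ' : Lam b →ₗ[ℤ] ℤ) :
    GT.coef U φ' (GT.coef (GT U b) φ (FA.lift (gsub E c
      (S.gx (Sum.elim u (fun s => v (c s))) (lab Y b) z)) P)) *
      (anti S.f (univ.map p) * anti S.f (univ.map q)) = 0 := by
  have hpar : Par S (Sum.elim u (fun s => v (c s))) (lab Y b) := by
    rintro (y | s)
    · exact ⟨fun _ => hu y, fun s hs => by simp [lab] at hs⟩
    · exact ⟨fun h => by simp [lab] at h, fun t _ => hv (c s)⟩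
  have h4 := S.ba (Sum.elim u (fun s => v (c s))) (lab Y b) hpar k hA p q hF (hst E c φ P)
    (fun C _ m => hst_mat E c k P hP φ C m)
  rw [lift_hst] at h4
  rw [← GT.coef_mul_one, h4, map_zero]

end string

end Pool.PI34.SS
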