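import Pool.Agent.LibPI34.S_Std

/-!
PI34, block S, file 11: multilinearization.
-/

set_option autoImplicit false

namespace Pool.PI34.SS

open Equiv Finset
open Pool.PI34.C0

/-- block permutations -/
noncomputable def blk {p q : ℕ} (x : Perm (Fin p) × Perm (Fin q)) : Perm (Fin (p + q)) :=
  finSumFinEquiv.permCongr (Equiv.Perm.sumCongr x.1 x.2)

theorem blk_left {p q : ℕ} (x : Perm (Fin p) × Perm (Fin q)) (i : Fin p) :
    blk x (Fin.castAdd q i) = Fin.castAdd q (x.1 i) := by
  unfold blk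
  rw [Equiv.permCongr_apply, finSumFinEquiv_symm_apply_castAdd, Equiv.Perm.sumCongr_apply,
    Sum.map_inl, finSumFinEquiv_apply_left]

theorem blk_right {p q : ℕ} (x : Perm (Fin p) × Perm (Fin q)) (i : Fin q) :
    blk x (Fin.natAdd p i) = Fin.natAdd p (x.2 i) := by
  unfold blk
  rw [Equiv.permCongr_apply, finSumFinEquiv_symm_apply_natAdd, Equiv.Perm.sumCongr_apply,
    Sum.map_inr, finSumFinEquiv_apply_right]

theorem mono_blk {U : Type*} [Monoid U] {p q : ℕ} (x : Fin (p + q) → U)
    (s : Perm (Fin p) × Perm (Fin q)) :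
    mono x (blk s) = mono (fun i => x (Fin.castAdd q i)) s.1 *
      mono (fun i => x (Fin.natAdd p i)) s.2 := by
  unfold mono
  rw [List.ofFn_add, List.prod_append]
  congr 2
  · congr 1
    funext i
    have := blk_left s i
    exact congrArg x this
  · congr 1
    funext i
    have := blk_right s i
    exact congrArg x this

/-- the coefficients of the product -/
noncomputable def cf {p q : ℕ} (a : Perm (Fin p) → ℤ) (b : Perm (Fin q) → ℤ)
    (ρ : Perm (Fin (p + q))) : ℤ :=
  ∑ s : Perm (Fin p) × Perm (Fin q), if blk s = ρ then a s.1 * b s.2 else 0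

theorem cf_sum {U : Type*} [Ring U] {p q : ℕ} (a : Perm (Fin p) → ℤ) (b : Perm (Fin q) → ℤ)
    (x : Fin (p + q) → U) : ∑ ρ, cf a b ρ • mono x ρ =
      (∑ σ, a σ • mono (fun i => x (Fin.castAdd q i)) σ) *
        ∑ τ, b τ • mono (fun i => x (Fin.natAdd p i)) τ := by
  have h1 : ∀ ρ : Perm (Fin (p + q)), cf a b ρ • mono x ρ =
      ∑ s : Perm (Fin p) × Perm (Fin q), if blk s = ρ then (a s.1 * b s.2) • mono x ρ
        else 0 := by
    intro ρ
    unfold cf
    rw [Finset.sum_smul]
    refine Finset.sum_congr rfl fun s _ => ?_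
    split_ifs
    · rfl
    · rw [zero_smul]
  rw [Finset.sum_congr rfl fun ρ _ => h1 ρ, Finset.sum_comm]
  have h2 : ∀ s : Perm (Fin p) × Perm (Fin q),
      (∑ ρ, if blk s = ρ then (a s.1 * b s.2) • mono x ρ else 0) =
        (a s.1 • mono (fun i => x (Fin.castAdd q i)) s.1) *
          (b s.2 • mono (fun i => x (Fin.natAdd p i)) s.2) := by
    intro s
    rw [Finset.sum_ite_eq, if_pos (Finset.mem_univ _), mono_blk, smul_mul_smul_comm]
  rw [Finset.sum_congr rfl fun s _ => h2 s, ← Finset.univ_product_univ, Finset.sum_product,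
    Finset.sum_mul_sum]

/-- the powers of the standard polynomial as symmetrized multilinear forms -/
theorem pow_form (q K : ℕ) : ∃ (d : ℕ) (b : Perm (Fin d) → ℤ) (c : Fin d → Fin q),
    q * K ≤ d ∧
    ∀ (A : Type) [Ring A] (z : Fin q → A), ∑ τ, b τ • mono (z ∘ c) τ = stdP z ^ K := by
  induction K with
  | zero =>
    refine ⟨0, fun _ => 1, fun i => i.elim0, le_rfl, fun A _ z => ?_⟩
    rw [pow_zero]
    simp [mono]
  | succ K ih =>
    obtain ⟨d, b, c, hd, h⟩ := ih
    refine ⟨d + q, cf b (fun σ => ((Perm.sign σ : ℤˣ) : ℤ)), Fin.append c id, by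
      rw [mul_add, mul_one]; omega, fun A _ z => ?_⟩
    rw [cf_sum, pow_succ, ← h A z]
    congr 1
    · refine Finset.sum_congr rfl (fun σ _ => ?_)
      congr 2
      funext i
      simp
    · unfold stdP
      refine Finset.sum_congr rfl (fun σ _ => ?_)
      congr 2
      funext i
      simp

theorem incl_excl {d : ℕ} (v : Fin d → Fin d) :
    (∑ S : Finset (Fin d), (-1 : ℤ) ^ S.card * (if ∀ i, v i ∈ S then 1 else 0))
      = if Function.Surjective v then (-1) ^ d else 0 := by
  classical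
  have h := Finset.prod_add (fun _ : Fin d => (-1 : ℤ))
    (fun j => if ∃ i, v i = j then (0 : ℤ) else 1) Finset.univ
  rw [Finset.powerset_univ] at h
  have h1 : ∀ S : Finset (Fin d), (∏ _i ∈ S, (-1 : ℤ)) *
      ∏ i ∈ univ \ S, (if ∃ l, v l = i then (0 : ℤ) else 1)
      = (-1 : ℤ) ^ S.card * (if ∀ i, v i ∈ S then 1 else 0) := by
    intro S
    rw [Finset.prod_const]
    congr 1
    split_ifs with h2
    · refine Finset.prod_eq_one (fun i hi => ?_)
      rw [if_neg]
      rintro ⟨l, rfl⟩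
      exact (Finset.mem_sdiff.1 hi).2 (h2 l)
    · push Not at h2
      obtain ⟨l, hl⟩ := h2
      exact Finset.prod_eq_zero (Finset.mem_sdiff.2 ⟨Finset.mem_univ _, hl⟩) (if_pos ⟨l, rfl⟩)
  rw [Finset.sum_congr rfl (fun S _ => h1 S)] at h
  rw [← h]
  split_ifs with h2
  · have : ∀ j ∈ (univ : Finset (Fin d)), (-1 + if ∃ i, v i = j then (0 : ℤ) else 1) = -1 := by
      intro j _
      rw [if_pos (h2 j), add_zero]
    rw [Finset.prod_congr rfl this, Finset.prod_const, Finset.card_univ, Fintype.card_fin]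
  · unfold Function.Surjective at h2
    push Not at h2
    obtain ⟨j, hj⟩ := h2
    refine Finset.prod_eq_zero (Finset.mem_univ j) ?_
    rw [if_neg (by rintro ⟨i, hi⟩; exact hj i hi)]
    norm_num

/-- polarization -/
theorem polar {A : Type} [Ring A] {d q : ℕ} (b : Perm (Fin d) → ℤ) (c : Fin d → Fin q)
    (I : AddSubgroup A) (h : ∀ z : Fin q → A, ∑ τ, b τ • mono (z ∘ c) τ ∈ I)
    (x : Fin d → A) :
    ∑ v ∈ univ.filter (fun v : Perm (Fin d) => c ∘ v = c), ∑ τ, b τ • mono (x ∘ v) τ ∈ I := by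
  classical
  -- the multilinear form
  let f : MultilinearMap ℤ (fun _ : Fin d => A) A :=
    ∑ τ : Perm (Fin d), b τ • (MultilinearMap.mkPiAlgebraFin ℤ d A).domDomCongr τ
  have hf : ∀ y : Fin d → A, f y = ∑ τ, b τ • mono y τ := by
    intro y
    simp only [f, _root_.sum_apply]
    refine Finset.sum_congr rfl (fun τ _ => ?_)
    rw [_root_.smul_apply, MultilinearMap.domDomCongr_apply,
      MultilinearMap.mkPiAlgebraFin_apply]
    rfl
  have h1 : ∀ S : Finset (Fin d), f (fun i => ∑ j ∈ S.filter (fun j => c j = c i), x j) ∈ I := by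
    intro S
    rw [hf]
    exact h (fun t => ∑ j ∈ S.filter (fun j => c j = t), x j)
  have h2 : ∀ S : Finset (Fin d), f (fun i => ∑ j ∈ S.filter (fun j => c j = c i), x j)
      = ∑ v : Fin d → Fin d, if (∀ i, v i ∈ S) ∧ (∀ i, c (v i) = c i) then f (x ∘ v) else 0 := by
    intro S
    rw [MultilinearMap.map_sum_finset f (fun _ j => x j)
      (fun i => S.filter (fun j => c j = c i)), ← Finset.sum_filter]
    refine Finset.sum_congr ?_ (fun v _ => rfl)
    ext v
    simp only [Fintype.mem_piFinset, Finset.mem_filter, Finset.mem_univ, true_and]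
    exact ⟨fun h => ⟨fun i => (h i).1, fun i => (h i).2⟩, fun h i => ⟨h.1 i, h.2 i⟩⟩
  have h3 : ∑ S : Finset (Fin d), (-1 : ℤ) ^ S.card •
      f (fun i => ∑ j ∈ S.filter (fun j => c j = c i), x j) ∈ I :=
    sum_mem (fun S _ => zsmul_mem (h1 S) _)
  have h4 : ∑ S : Finset (Fin d), (-1 : ℤ) ^ S.card •
      f (fun i => ∑ j ∈ S.filter (fun j => c j = c i), x j)
      = (-1 : ℤ) ^ d • ∑ v ∈ univ.filter (fun v : Perm (Fin d) => c ∘ v = c), f (x ∘ v) := by
    have e1 : ∀ S : Finset (Fin d), (-1 : ℤ) ^ S.card •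
        f (fun i => ∑ j ∈ S.filter (fun j => c j = c i), x j)
        = ∑ v : Fin d → Fin d, ((-1 : ℤ) ^ S.card * (if ∀ i, v i ∈ S then 1 else 0)) •
          (if ∀ i, c (v i) = c i then f (x ∘ v) else 0) := by
      intro S
      rw [h2, Finset.smul_sum]
      refine Finset.sum_congr rfl (fun v _ => ?_)
      by_cases h5 : ∀ i, v i ∈ S <;> by_cases h6 : ∀ i, c (v i) = c i <;> simp [h5, h6]
    rw [Finset.sum_congr rfl (fun S _ => e1 S), Finset.sum_comm]
    have e2 : ∀ v : Fin d → Fin d, (∑ S : Finset (Fin d),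
        ((-1 : ℤ) ^ S.card * (if ∀ i, v i ∈ S then 1 else 0)) •
          (if ∀ i, c (v i) = c i then f (x ∘ v) else 0))
        = (-1 : ℤ) ^ d • (if Function.Surjective v ∧ ∀ i, c (v i) = c i then f (x ∘ v) else 0) := by
      intro v
      rw [← Finset.sum_smul, incl_excl]
      by_cases h5 : Function.Surjective v <;> simp [h5]
    rw [Finset.sum_congr rfl (fun v _ => e2 v), ← Finset.smul_sum]
    congr 1
    rw [← Finset.sum_filter]
    refine (Finset.sum_bij (fun (v : Perm (Fin d)) _ => (v : Fin d → Fin d)) ?_ ?_ ?_ ?_).symm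
    · intro v hv
      rw [Finset.mem_filter] at hv ⊢
      exact ⟨Finset.mem_univ _, v.surjective, fun i => congrFun hv.2 i⟩
    · intro v _ w _ hvw
      exact Equiv.ext (congrFun hvw)
    · intro v hv
      rw [Finset.mem_filter] at hv
      refine ⟨Equiv.ofBijective v ⟨Finite.injective_iff_surjective.2 hv.2.1, hv.2.1⟩, ?_, rfl⟩
      rw [Finset.mem_filter]
      exact ⟨Finset.mem_univ _, funext hv.2.2⟩
    · intro v _; rfl
  rw [h4] at h3
  have h5 : (-1 : ℤ) ^ d • ((-1 : ℤ) ^ d •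
      ∑ v ∈ univ.filter (fun v : Perm (Fin d) => c ∘ v = c), f (x ∘ v)) ∈ I := zsmul_mem h3 _
  rw [smul_smul, ← pow_add, ← two_mul, pow_mul] at h5
  simp only [even_two, Even.neg_pow, one_pow, one_smul] at h5
  refine (?_ : ∑ v ∈ univ.filter (fun v : Perm (Fin d) => c ∘ v = c), ∑ τ, b τ • mono (x ∘ v) τ = _) ▸ h5
  exact Finset.sum_congr rfl (fun v _ => (hf _).symm)

end Pool.PI34.SS
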