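import Pool.Agent.LibPI34.S_Pol

/-!
PI34, block S, file 12: the ideal `QQ` is a pure two-sided ideal which contains the values of a
multilinear polynomial.
-/

set_option autoImplicit false

namespace Pool.PI34.SS

open Equiv Finset
open Pool.PI34.C0

section ideal

variable (k : ℕ) (X : Type)

theorem QQ_zero : (0 : FA X) ∈ QQ k X := ⟨1, one_ne_zero, fun G _ _ Y _ => by simp⟩

theorem QQ_add {g h : FA X} (hg : g ∈ QQ k X) (hh : h ∈ QQ k X) : g + h ∈ QQ k X := by
  obtain ⟨N, hN, h1⟩ := hg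
  obtain ⟨M, hM, h2⟩ := hh
  refine ⟨N * M, mul_ne_zero hN hM, fun G _ hG Y hY => ?_⟩
  rw [map_add, smul_add, mul_comm, mul_smul, h1 G hG Y hY, smul_zero, zero_add, mul_comm,
    mul_smul, h2 G hG Y hY, smul_zero]

theorem QQ_left (f : FA X) {g : FA X} (hg : g ∈ QQ k X) : f * g ∈ QQ k X := by
  obtain ⟨N, hN, h1⟩ := hg
  refine ⟨N, hN, fun G _ hG Y hY => ?_⟩
  rw [map_mul, ← mul_smul_comm, h1 G hG Y hY, mul_zero]

theorem QQ_right (f : FA X) {g : FA X} (hg : g ∈ QQ k X) : g * f ∈ QQ k X := by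
  obtain ⟨N, hN, h1⟩ := hg
  refine ⟨N, hN, fun G _ hG Y hY => ?_⟩
  rw [map_mul, ← smul_mul_assoc, h1 G hG Y hY, zero_mul]

/-- `QQ` as a (two-sided) ideal -/
def QI : Ideal (FA X) where
  carrier := QQ k X
  zero_mem' := QQ_zero k X
  add_mem' := fun hg hh => QQ_add k X hg hh
  smul_mem' := fun f _ hg => QQ_left k X f hg

instance : (QI k X).IsTwoSided := ⟨fun {_} f hg => QQ_right k X f hg⟩

theorem mem_QI (g : FA X) : g ∈ QI k X ↔ g ∈ QQ k X := Iff.rfl

theorem QQ_pure (m : ℕ) (g : FA X) (hm : m ≠ 0) (h : (m : FA X) * g ∈ QQ k X) :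
    g ∈ QQ k X := by
  obtain ⟨N, hN, h1⟩ := h
  refine ⟨N * m, mul_ne_zero hN hm, fun G _ hG Y hY => ?_⟩
  have h2 := h1 G hG Y hY
  rw [map_mul, map_natCast, ← nsmul_eq_mul, smul_smul] at h2
  exact h2

/-- substitutions -/
theorem QQ_subst {X' : Type} (x : X → FA X') {g : FA X} (hg : g ∈ QQ k X) :
    FA.lift x g ∈ QQ k X' := by
  obtain ⟨N, hN, h1⟩ := hg
  refine ⟨N, hN, fun G _ hG Y _ => ?_⟩
  have h2 := FA.ext ((FA.lift Y).comp (FA.lift x)) (FA.lift (fun y => FA.lift Y (x y)))
    (fun y => by rw [RingHom.comp_apply, FA.lift_of, FA.lift_of]) g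
  rw [RingHom.comp_apply] at h2
  rw [h2]
  exact h1 G hG _ (fun y hy => (hy trivial).elim)

end ideal

/-! ### non-vanishing of the standard polynomial of the generators -/

theorem stdP_ne_zero (q : ℕ) : stdP (fun i : Fin q => (FA.of i : FA (Fin q))) ≠ 0 := by
  intro h
  let Y : Fin q → Matrix (Fin (q + 1)) (Fin (q + 1)) ℤ := fun i =>
    Matrix.single i.castSucc i.succ 1
  have h1 : stdP Y = 0 := by
    have h2 := congrArg (FA.lift Y) h
    rw [map_stdP, map_zero] at h2
    simpa only [FA.lift_of] using h2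
  have h3 : ∀ (n : ℕ) (hn : n ≤ q) (w : Fin n → Fin q) (j : Fin (q + 1)),
      ((List.ofFn fun i => Y (w i)).prod) 0 j ≠ 0 → (∀ i : Fin n, (w i : ℕ) = i) ∧ (j : ℕ) = n := by
    intro n
    induction n with
    | zero =>
      intro _ w j hj
      refine ⟨fun i => i.elim0, ?_⟩
      by_contra hne
      apply hj
      simp only [List.ofFn_zero, List.prod_nil]
      exact Matrix.one_apply_ne (fun e => hne (by rw [← e]; rfl))
    | succ n ih =>
      intro hn w j hj
      rw [List.ofFn_succ', List.prod_concat, Matrix.mul_apply] at hj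
      obtain ⟨l, _, hl⟩ := Finset.exists_ne_zero_of_sum_ne_zero hj
      have h4 : ((List.ofFn fun i : Fin n => Y (w i.castSucc)).prod) 0 l ≠ 0 :=
        left_ne_zero_of_mul hl
      have h5 : Y (w (Fin.last n)) l j ≠ 0 := right_ne_zero_of_mul hl
      obtain ⟨h6, h7⟩ := ih (by omega) _ l h4
      have h8 : (w (Fin.last n)).castSucc = l ∧ (w (Fin.last n)).succ = j := by
        by_contra hne
        exact h5 (Matrix.single_apply_of_ne _ _ _ _ _ (by tauto))
      have h9 : (w (Fin.last n) : ℕ) = n := by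
        have e := congrArg Fin.val h8.1
        rw [Fin.val_castSucc] at e
        omega
      refine ⟨fun i => ?_, by rw [← h8.2]; simp [h9]⟩
      rcases Fin.eq_castSucc_or_eq_last i with ⟨i, rfl⟩ | rfl
      · rw [h6 i]; rfl
      · rw [h9]; rfl
  have h4 : (stdP Y) 0 (Fin.last q) = 1 := by
    unfold stdP
    rw [Matrix.sum_apply, Finset.sum_eq_single (1 : Perm (Fin q))]
    · rw [Perm.sign_one]
      simp only [Units.val_one, one_smul]
      unfold mono
      have h5 : ∀ (n : ℕ) (hn : n ≤ q), ((List.ofFn fun i : Fin n =>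
          Y (Fin.castLE hn i)).prod) 0 (Fin.castLE (by omega : n + 1 ≤ q + 1) (Fin.last n)) = 1 := by
        intro n
        induction n with
        | zero => intro hn; simp
        | succ n ih =>
          intro hn
          rw [List.ofFn_succ', List.prod_concat, Matrix.mul_apply,
            Finset.sum_eq_single (Fin.castLE (by omega : n + 1 ≤ q + 1) (Fin.last n))]
          · have := ih (by omega)
            have e : (fun i : Fin n => Y (Fin.castLE hn i.castSucc))
              = fun i : Fin n => Y (Fin.castLE (by omega : n ≤ q) i) := rfl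
            rw [e, this, one_mul]
            have e2 : (Fin.castLE hn (Fin.last n)).castSucc
              = Fin.castLE (by omega : n + 1 ≤ q + 1) (Fin.last n) := rfl
            have e3 : (Fin.castLE hn (Fin.last n)).succ
              = Fin.castLE (by omega : n + 1 + 1 ≤ q + 1) (Fin.last (n + 1)) := rfl
            change Matrix.single (Fin.castLE hn (Fin.last n)).castSucc
              (Fin.castLE hn (Fin.last n)).succ (1 : ℤ) _ _ = 1
            rw [e2, e3, Matrix.single_apply_same]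
          · intro l _ hl
            have : Y (Fin.castLE hn (Fin.last n)) l
                (Fin.castLE (by omega : n + 1 + 1 ≤ q + 1) (Fin.last (n + 1))) = 0 := by
              refine Matrix.single_apply_of_ne _ _ _ _ _ (fun hh => hl ?_)
              rw [← hh.1]; rfl
            rw [this, mul_zero]
          · intro h; exact absurd (Finset.mem_univ _) h
      exact h5 q le_rfl
    · intro σ _ hσ
      rw [Matrix.smul_apply]
      by_contra hne
      have h5 : (mono Y σ) 0 (Fin.last q) ≠ 0 := fun e => hne (by rw [e, smul_zero])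
      have h6 := (h3 q le_rfl (fun i => σ i) (Fin.last q) h5).1
      exact hσ (Equiv.ext fun i => Fin.ext (h6 i))
    · intro h; exact absurd (Finset.mem_univ _) h
  rw [h1] at h4
  exact zero_ne_one h4

instance (X : Type) : IsDomain (FA X) := inferInstanceAs (IsDomain (FreeAlgebra ℤ X))

instance (X : Type) : CharZero (FA X) := inferInstanceAs (CharZero (FreeAlgebra ℤ X))

/-- a non-zero symmetrized multilinear form in `QQ` -/
theorem exists_form (k : ℕ) : ∃ (d : ℕ) (a : Perm (Fin d) → ℤ), d ≠ 0 ∧ a ≠ 0 ∧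
    ∀ (X : Type) (x : Fin d → FA X), ∑ ρ, a ρ • mono x ρ ∈ QQ k X := by
  obtain ⟨d, b, c, hd, h⟩ := pow_form (k * k + 1)
    (Fintype.card (Fin (k * k + 1) × Fin k × Fin k) + 1)
  let a : Perm (Fin d) → ℤ := fun ρ =>
    ∑ v ∈ univ.filter (fun v : Perm (Fin d) => c ∘ v = c), b (v⁻¹ * ρ)
  have ha : ∀ (A : Type) [Ring A] (x : Fin d → A), ∑ ρ, a ρ • mono x ρ
      = ∑ v ∈ univ.filter (fun v : Perm (Fin d) => c ∘ v = c), ∑ τ, b τ • mono (x ∘ v) τ := by
    intro A _ x
    simp only [a, Finset.sum_smul]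
    rw [Finset.sum_comm]
    refine Finset.sum_congr rfl (fun v _ => ?_)
    refine Fintype.sum_equiv (Equiv.mulLeft v⁻¹) _ _ (fun ρ => ?_)
    simp only [Equiv.coe_mulLeft]
    congr 1
    unfold mono
    congr 2
    funext i
    simp
  refine ⟨d, a, fun e => by subst e; simp at hd, fun h0 => ?_, fun X x => ?_⟩
  · have h1 := ha (FA (Fin (k * k + 1))) ((fun i => FA.of i) ∘ c)
    have h2 : ∀ v ∈ univ.filter (fun v : Perm (Fin d) => c ∘ v = c),
        ∑ τ, b τ • mono (((fun i : Fin (k * k + 1) => (FA.of i : FA (Fin (k * k + 1)))) ∘ c) ∘ v) τ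
        = stdP (fun i : Fin (k * k + 1) => (FA.of i : FA (Fin (k * k + 1)))) ^
          (Fintype.card (Fin (k * k + 1) × Fin k × Fin k) + 1) := by
      intro v hv
      rw [Function.comp_assoc, (Finset.mem_filter.1 hv).2]
      exact h _ _
    rw [Finset.sum_congr rfl h2, Finset.sum_const, h0] at h1
    simp only [Pi.zero_apply, zero_smul, Finset.sum_const_zero] at h1
    rcases smul_eq_zero.1 h1.symm with h3 | h3
    · rw [Finset.card_eq_zero, Finset.filter_eq_empty_iff] at h3
      exact h3 (Finset.mem_univ (1 : Perm (Fin d))) (by ext i; simp)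
    · exact stdP_ne_zero _ (pow_eq_zero_iff (by omega) |>.1 h3)
  · rw [ha]
    let I : AddSubgroup (FA X) := (QI k X).toAddSubgroup
    refine polar b c I (fun z => ?_) x
    rw [h]
    exact stdP_mem_QQ k z

/-- `QQ` contains the values of a multilinear polynomial with a coefficient `1`. -/
theorem QQ_MPI (k : ℕ) : ∃ (d : ℕ) (a : Perm (Fin (d + 1)) → ℤ), a 1 = 1 ∧
    ∀ (X : Type) (x : Fin (d + 1) → FA X), ∑ σ, a σ • mono x σ ∈ QQ k X := by
  obtain ⟨d, a, hd, ha, h⟩ := exists_form k
  -- the ideal generated by the coefficients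
  obtain ⟨g, hg⟩ : ∃ g : ℤ, Ideal.span (Set.range a) = Ideal.span {g} :=
    ⟨_, (Ideal.span_singleton_generator _).symm⟩
  have hg0 : g ≠ 0 := by
    rintro rfl
    apply ha
    funext ρ
    have : a ρ ∈ Ideal.span (Set.range a) := Ideal.subset_span ⟨ρ, rfl⟩
    rw [hg, Ideal.mem_span_singleton] at this
    exact zero_dvd_iff.1 this
  have h1 : ∀ ρ, ∃ c : ℤ, a ρ = g * c := fun ρ => by
    have : a ρ ∈ Ideal.span (Set.range a) := Ideal.subset_span ⟨ρ, rfl⟩
    rw [hg, Ideal.mem_span_singleton] at this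
    exact this
  choose a' ha' using h1
  obtain ⟨b, hb⟩ : ∃ b : Perm (Fin d) → ℤ, ∑ τ, b τ * a' τ = 1 := by
    have h2 : g ∈ Ideal.span (Set.range a) := by rw [hg]; exact Ideal.mem_span_singleton_self g
    obtain ⟨b, hb⟩ := Ideal.mem_span_range_iff_exists_fun.1 h2
    refine ⟨b, ?_⟩
    have h3 : g * (∑ τ, b τ * a' τ) = g * 1 := by
      rw [Finset.mul_sum, mul_one]
      calc ∑ τ, g * (b τ * a' τ) = ∑ τ, b τ * a τ :=
            Finset.sum_congr rfl (fun τ _ => by rw [ha' τ]; ring)
        _ = g := hb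
    exact mul_left_cancel₀ hg0 h3
  have h4 : ∀ (X : Type) (x : Fin d → FA X), ∑ ρ, a' ρ • mono x ρ ∈ QQ k X := by
    intro X x
    have h5 := h X x
    have h6 : ∑ ρ, a ρ • mono x ρ = g • ∑ ρ, a' ρ • mono x ρ := by
      rw [Finset.smul_sum]
      exact Finset.sum_congr rfl (fun ρ _ => by rw [ha' ρ, mul_smul])
    rw [h6] at h5
    obtain ⟨N, hN, h7⟩ := h5
    refine ⟨N * g.natAbs, mul_ne_zero hN (Int.natAbs_ne_zero.2 hg0), fun G _ hG Y hY => ?_⟩
    have h8 := h7 G hG Y hY
    rw [map_zsmul] at h8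
    rcases Int.natAbs_eq g with h9 | h9
    · rw [h9, natCast_zsmul, smul_smul] at h8
      exact h8
    · rw [h9, neg_smul, natCast_zsmul, smul_neg, neg_eq_zero, smul_smul] at h8
      exact h8
  -- the symmetrized combination
  obtain ⟨d', rfl⟩ := Nat.exists_eq_succ_of_ne_zero hd
  refine ⟨d', fun σ => ∑ τ, b τ * a' (τ * σ), by simpa using hb, fun X x => ?_⟩
  have h6 : ∑ σ, (∑ τ, b τ * a' (τ * σ)) • mono x σ
      = ∑ τ, b τ • ∑ ρ, a' ρ • mono (fun i => x (τ⁻¹ i)) ρ := by
    simp only [Finset.sum_smul, Finset.smul_sum]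
    rw [Finset.sum_comm]
    refine Finset.sum_congr rfl (fun τ _ => ?_)
    refine Fintype.sum_equiv (Equiv.mulLeft τ) _ _ (fun σ => ?_)
    simp only [Equiv.coe_mulLeft]
    rw [mul_smul]
    congr 2
    unfold mono
    congr 2
    funext i
    simp
  rw [h6]
  change _ ∈ QI k X
  exact Ideal.sum_mem _ (fun τ _ => zsmul_mem (show _ ∈ QI k X from h4 X _) _)

end Pool.PI34.SS
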