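import Pool.Agent.LibPI34.S_Nil
import Pool.Agent.LibPI34.S_Def
import Pool.Agent.LibPI34.C0Defs

/-!
PI34, block S, file 10: a power of the standard polynomial vanishes on matrices over
supercommutative rings.
-/

set_option autoImplicit false

namespace Pool.PI34.SS

open Equiv Finset
open Pool.PI34.C0

/-- the standard polynomial -/
def stdP {A : Type*} [Ring A] {q : ℕ} (x : Fin q → A) : A :=
  ∑ σ : Perm (Fin q), ((Perm.sign σ : ℤˣ) : ℤ) • mono x σ

theorem stdP_matrix (k : ℕ) (C : Type*) [CommRing C] (x : Fin (k * k + 1) → Matrix (Fin k) (Fin k) C) :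
    stdP x = 0 := by
  let f : (Matrix (Fin k) (Fin k) C) [⋀^Fin (k * k + 1)]→ₗ[C] (Matrix (Fin k) (Fin k) C) :=
    MultilinearMap.alternatization
      (MultilinearMap.mkPiAlgebraFin C (k * k + 1) (Matrix (Fin k) (Fin k) C))
  have hf : f = 0 := by
    refine Module.Basis.ext_alternating (Matrix.stdBasis C (Fin k) (Fin k)) (fun v hv => ?_)
    exfalso
    have h1 := Fintype.card_le_of_injective v hv
    rw [Fintype.card_fin, Fintype.card_prod, Fintype.card_fin] at h1
    omega
  have h2 : f x = stdP x := by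
    change MultilinearMap.alternatization
      (MultilinearMap.mkPiAlgebraFin C (k * k + 1) (Matrix (Fin k) (Fin k) C)) x = _
    rw [MultilinearMap.alternatization_apply]
    refine Finset.sum_congr rfl fun σ _ => ?_
    rw [MultilinearMap.domDomCongr_apply, MultilinearMap.mkPiAlgebraFin_apply]
    rfl
  rw [← h2, hf]
  rfl

theorem map_mono {A B : Type*} [Ring A] [Ring B] (φ : A →+* B) {n : ℕ} (x : Fin n → A)
    (σ : Perm (Fin n)) : φ (mono x σ) = mono (fun i => φ (x i)) σ := by
  unfold mono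
  rw [map_list_prod, List.map_ofFn]
  rfl

theorem map_stdP {A B : Type*} [Ring A] [Ring B] (φ : A →+* B) {n : ℕ} (x : Fin n → A) :
    φ (stdP x) = stdP (fun i => φ (x i)) := by
  unfold stdP
  rw [map_sum]
  exact Finset.sum_congr rfl (fun σ _ => by rw [map_zsmul, map_mono])

section sc

variable {G : Type*} [Ring G] (h : SuperComm G)

/-- the even part as a ring -/
def evR : Subring G where
  carrier := h.ev
  mul_mem' := fun ha hb => h.ev_ev _ ha _ hb
  one_mem' := h.one_mem
  add_mem' := fun ha hb => add_mem ha hb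
  zero_mem' := zero_mem h.ev
  neg_mem' := fun ha => neg_mem ha

theorem stdP_even (k : ℕ) (a : Fin (k * k + 1) → Matrix (Fin k) (Fin k) G)
    (ha : ∀ t i j, a t i j ∈ h.ev) : stdP a = 0 := by
  letI : CommRing (evR h) :=
    { (inferInstance : Ring (evR h)) with
      mul_comm := fun x y => Subtype.ext (h.comm x x.2 y) }
  let a' : Fin (k * k + 1) → Matrix (Fin k) (Fin k) (evR h) := fun t =>
    Matrix.of fun i j => ⟨a t i j, ha t i j⟩
  let φ : Matrix (Fin k) (Fin k) (evR h) →+* Matrix (Fin k) (Fin k) G :=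
    (evR h).subtype.mapMatrix
  have h1 : a = fun t => φ (a' t) := by
    funext t; ext i j; rfl
  rw [h1, ← map_stdP, stdP_matrix k _ a', map_zero]

/-- matrices with entries in a submodule -/
def MJ (k : ℕ) (J : Submodule ℤ G) : AddSubgroup (Matrix (Fin k) (Fin k) G) where
  carrier := {M | ∀ i j, M i j ∈ J}
  zero_mem' := fun _ _ => zero_mem J
  add_mem' := fun ha hb i j => add_mem (ha i j) (hb i j)
  neg_mem' := fun ha i j => neg_mem (ha i j)

theorem MJ_mul {k : ℕ} {J J' : Submodule ℤ G} {M N : Matrix (Fin k) (Fin k) G}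
    (hM : M ∈ MJ k J) (hN : N ∈ MJ k J') : M * N ∈ MJ k (J * J') := fun i j => by
  rw [Matrix.mul_apply]
  exact Submodule.sum_mem _ (fun l _ => Submodule.mul_mem_mul (hM i l) (hN l j))

theorem MJ_left {k : ℕ} {J : Submodule ℤ G} (hJ : ∀ g, ∀ x ∈ J, g * x ∈ J)
    (M : Matrix (Fin k) (Fin k) G) {N : Matrix (Fin k) (Fin k) G} (hN : N ∈ MJ k J) :
    M * N ∈ MJ k J := fun i j => by
  rw [Matrix.mul_apply]
  exact Submodule.sum_mem _ (fun l _ => hJ _ _ (hN l j))

theorem MJ_right {k : ℕ} {J : Submodule ℤ G} (hJ : ∀ g, ∀ x ∈ J, x * g ∈ J)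
    {M : Matrix (Fin k) (Fin k) G} (N : Matrix (Fin k) (Fin k) G) (hM : M ∈ MJ k J) :
    M * N ∈ MJ k J := fun i j => by
  rw [Matrix.mul_apply]
  exact Submodule.sum_mem _ (fun l _ => hJ _ _ (hM i l))

theorem prod_sub_mem {A : Type*} [Ring A] (I : AddSubgroup A) (hl : ∀ g, ∀ x ∈ I, g * x ∈ I)
    (hr : ∀ g, ∀ x ∈ I, x * g ∈ I) {n : ℕ} (x a : Fin n → A) (h : ∀ i, x i - a i ∈ I) :
    (List.ofFn x).prod - (List.ofFn a).prod ∈ I := by
  induction n with
  | zero => simp
  | succ n ih =>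
    rw [List.ofFn_succ, List.ofFn_succ, List.prod_cons, List.prod_cons]
    have h1 := ih (fun i => x i.succ) (fun i => a i.succ) (fun i => h i.succ)
    have h2 : x 0 * (List.ofFn fun i => x i.succ).prod - a 0 * (List.ofFn fun i => a i.succ).prod
        = (x 0 - a 0) * (List.ofFn fun i => x i.succ).prod
        + a 0 * ((List.ofFn fun i => x i.succ).prod - (List.ofFn fun i => a i.succ).prod) := by
      noncomm_ring
    rw [h2]
    exact add_mem (hr _ _ (h 0)) (hl _ _ h1)

theorem stdP_sub_mem {A : Type*} [Ring A] (I : AddSubgroup A) (hl : ∀ g, ∀ x ∈ I, g * x ∈ I)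
    (hr : ∀ g, ∀ x ∈ I, x * g ∈ I) {n : ℕ} (x a : Fin n → A) (h : ∀ i, x i - a i ∈ I) :
    stdP x - stdP a ∈ I := by
  unfold stdP
  rw [← Finset.sum_sub_distrib]
  refine sum_mem (fun σ _ => ?_)
  rw [← smul_sub]
  refine zsmul_mem ?_ _
  exact prod_sub_mem I hl hr _ _ (fun i => h (σ i))

theorem lid_left (y : G) (g : G) (x : G) (hx : x ∈ lid y) : g * x ∈ lid y := by
  unfold lid at hx ⊢
  induction hx using Submodule.span_induction with
  | mem x hx => obtain ⟨a, rfl⟩ := hx; exact Submodule.subset_span ⟨g * a, by rw [mul_assoc]⟩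
  | zero => rw [mul_zero]; exact zero_mem _
  | add x y _ _ h1 h2 => rw [mul_add]; exact add_mem h1 h2
  | smul n x _ h1 => rw [mul_smul_comm]; exact Submodule.smul_mem _ _ h1

include h in
theorem lid_right {y : G} (hy : y ∈ h.od) (g : G) (x : G) (hx : x ∈ lid y) : x * g ∈ lid y := by
  unfold lid at hx ⊢
  induction hx using Submodule.span_induction with
  | mem x hx =>
    obtain ⟨a, rfl⟩ := hx
    obtain ⟨g', hg⟩ := odd_move h hy g
    exact Submodule.subset_span ⟨a * g', by rw [mul_assoc, hg, mul_assoc]⟩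
  | zero => rw [zero_mul]; exact zero_mem _
  | add x y _ _ h1 h2 => rw [add_mul]; exact add_mem h1 h2
  | smul n x _ h1 => rw [smul_mul_assoc]; exact Submodule.smul_mem _ _ h1

theorem sum_sub_left {κ : Type*} (a : κ → Submodule ℤ G) (s : Finset κ)
    (P : G → G → G) (hP : ∀ x, (∀ y z, P x (y + z) = P x y + P x z) ∧ P x 0 = 0)
    (hl : ∀ i ∈ s, ∀ g, ∀ x ∈ a i, P g x ∈ a i) (g x : G) (hx : x ∈ ∑ i ∈ s, a i) :
    P g x ∈ ∑ i ∈ s, a i := by
  classical
  induction s using Finset.induction_on generalizing x with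
  | empty =>
    rw [Finset.sum_empty] at hx ⊢
    have : x = 0 := (Submodule.mem_bot ℤ).1 hx
    rw [this, (hP g).2]; exact zero_mem _
  | insert i s hi ih =>
    rw [Finset.sum_insert hi, Submodule.add_eq_sup] at hx ⊢
    obtain ⟨y, hy, z, hz, rfl⟩ := Submodule.mem_sup.1 hx
    rw [(hP g).1]
    exact Submodule.add_mem_sup (hl i (Finset.mem_insert_self _ _) g y hy)
      (ih (fun j hj => hl j (Finset.mem_insert_of_mem hj)) z hz)

include h in
/-- the power of the standard polynomial -/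
theorem stdP_pow (k : ℕ) (x : Fin (k * k + 1) → Matrix (Fin k) (Fin k) G) :
    stdP x ^ (Fintype.card (Fin (k * k + 1) × Fin k × Fin k) + 1) = 0 := by
  choose a ha b hb hab using fun (t : Fin (k * k + 1)) i j => h.dec (x t i j)
  obtain ⟨J, hJ⟩ : ∃ J : Submodule ℤ G, J = ∑ c : Fin (k * k + 1) × Fin k × Fin k,
    lid (b c.1 c.2.1 c.2.2) := ⟨_, rfl⟩
  have hl : ∀ g, ∀ x ∈ J, g * x ∈ J := fun g x hx => by
    rw [hJ] at hx ⊢
    exact sum_sub_left _ _ (fun g x => g * x) (fun x => ⟨mul_add x, mul_zero x⟩)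
      (fun i _ g x hx => lid_left _ g x hx) g x hx
  have hr : ∀ g, ∀ x ∈ J, x * g ∈ J := fun g x hx => by
    rw [hJ] at hx ⊢
    exact sum_sub_left _ _ (fun g x => x * g) (fun x => ⟨fun y z => add_mul y z x, zero_mul x⟩)
      (fun i _ g x hx => lid_right h (hb _ _ _) g x hx) g x hx
  have h1 : stdP x ∈ MJ k J := by
    have h2 := stdP_sub_mem (MJ k J) (fun g x hx => MJ_left hl g hx)
      (fun g x hx => MJ_right hr g hx) x (fun t => Matrix.of fun i j => a t i j)
      (fun t i j => by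
        rw [Matrix.sub_apply, Matrix.of_apply, hab t i j, add_sub_cancel_left]
        have h3 : lid (b t i j) ≤ J := by
          rw [hJ]
          exact le_sum_sub (fun c : Fin (k * k + 1) × Fin k × Fin k =>
            lid (b c.1 c.2.1 c.2.2)) Finset.univ (t, i, j) (Finset.mem_univ _)
        have h4 := mem_lid (1 : G) (b t i j)
        rw [one_mul] at h4
        exact h3 h4)
    have h5 : stdP (fun t => Matrix.of fun i j => a t i j) = 0 :=
      stdP_even h k (fun t => Matrix.of fun i j => a t i j) (fun t i j => ha t i j)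
    rw [h5, sub_zero] at h2
    exact h2
  have h2 : ∀ n : ℕ, stdP x ^ (n + 1) ∈ MJ k (J ^ (n + 1)) := by
    intro n
    induction n with
    | zero => rw [zero_add, pow_one, pow_one]; exact h1
    | succ n ih =>
      rw [pow_succ, pow_succ J]
      exact MJ_mul ih h1
  have h3 := h2 (Fintype.card (Fin (k * k + 1) × Fin k × Fin k))
  have h4 : J ^ (Fintype.card (Fin (k * k + 1) × Fin k × Fin k) + 1) = 0 := by
    rw [hJ]
    exact lid_pow h (fun c : Fin (k * k + 1) × Fin k × Fin k => b c.1 c.2.1 c.2.2)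
      (fun c => hb _ _ _)
  rw [h4] at h3
  ext i j
  exact (Submodule.mem_bot ℤ).1 (h3 i j)

end sc

theorem stdP_mem_QQ (k : ℕ) {X : Type} (x : Fin (k * k + 1) → FA X) :
    stdP x ^ (Fintype.card (Fin (k * k + 1) × Fin k × Fin k) + 1) ∈ QQ k X := by
  refine ⟨1, one_ne_zero, fun G _ h Y _ => ?_⟩
  rw [one_smul, map_pow, map_stdP, stdP_pow h]

end Pool.PI34.SS
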