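import Pool.Agent.LibPI34.S_Def

/-!
PI34, block S, file 4: rings with exterior coefficients; the Grassmann string system.
-/

set_option autoImplicit false

namespace Pool.PI34.SS

open Equiv Finset TensorProduct
open Pool.PI34.BA

/-- the exterior algebra on `b` generators -/
abbrev Lam (b : ℕ) := ExteriorAlgebra ℤ (Fin b → ℤ)

/-- the generators -/
noncomputable def ge {b : ℕ} (s : Fin b) : Lam b := ExteriorAlgebra.ι ℤ (Pi.single s 1)

theorem ge_swap {b : ℕ} (s t : Fin b) : ge s * ge t = -(ge t * ge s) :=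
  eq_neg_of_add_eq_zero_left (ExteriorAlgebra.ι_add_mul_swap (R := ℤ) _ _)

/-- `A ⊗ Λ_b`, as a plain ring -/
def GT (A : Type*) [Ring A] (b : ℕ) : Type _ := A ⊗[ℤ] Lam b

namespace GT

variable {A B : Type*} [Ring A] [Ring B] {b : ℕ}

noncomputable instance : Ring (GT A b) := inferInstanceAs (Ring (A ⊗[ℤ] Lam b))

/-- pure tensors -/
noncomputable def mk (a : A) (ω : Lam b) : GT A b := a ⊗ₜ[ℤ] ω

theorem mk_mul (a c : A) (ω η : Lam b) : mk a ω * mk c η = mk (a * c) (ω * η) :=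
  Algebra.TensorProduct.tmul_mul_tmul a c ω η

theorem mk_one : (mk 1 1 : GT A b) = 1 := rfl

theorem mk_add (a c : A) (ω : Lam b) : mk (a + c) ω = mk a ω + mk c ω :=
  TensorProduct.add_tmul a c ω

theorem mk_zero (ω : Lam b) : mk (0 : A) ω = 0 := TensorProduct.zero_tmul _ _

theorem mk_neg (a : A) (ω : Lam b) : mk (-a) ω = - mk a ω := TensorProduct.neg_tmul _ _

theorem mk_neg_right (a : A) (ω : Lam b) : mk a (-ω) = - mk a ω := TensorProduct.tmul_neg _ _

theorem induction {p : GT A b → Prop} (h0 : p 0) (h1 : ∀ a ω, p (mk a ω))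
    (h2 : ∀ x y, p x → p y → p (x + y)) (x : GT A b) : p x :=
  TensorProduct.induction_on (motive := p) x h0 h1 h2

/-- additive in the left argument -/
noncomputable def mkHom (A : Type*) [Ring A] {b : ℕ} (ω : Lam b) : A →+ GT A b where
  toFun a := mk a ω
  map_zero' := mk_zero ω
  map_add' a c := mk_add a c ω

/-- the inclusion -/
noncomputable def inc (A : Type*) [Ring A] (b : ℕ) : A →+* GT A b where
  toFun a := mk a 1
  map_one' := rfl
  map_mul' a c := by rw [mk_mul, one_mul]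
  map_zero' := mk_zero 1
  map_add' a c := mk_add a c 1

/-- coefficient functional -/
noncomputable def coef (A : Type*) [Ring A] (φ : Lam b →ₗ[ℤ] ℤ) : GT A b →+ A :=
  ((TensorProduct.rid ℤ A).toLinearMap.toAddMonoidHom).comp
    ((LinearMap.lTensor A φ).toAddMonoidHom)

@[simp] theorem coef_mk (φ : Lam b →ₗ[ℤ] ℤ) (a : A) (ω : Lam b) :
    coef A φ (mk a ω) = φ ω • a := by
  change (TensorProduct.rid ℤ A) (LinearMap.lTensor A φ (a ⊗ₜ[ℤ] ω)) = _
  rw [LinearMap.lTensor_tmul, TensorProduct.rid_tmul]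

/-- change of the left factor -/
noncomputable def tmap (ψ : A →+* B) (b : ℕ) : GT A b →+* GT B b :=
  ((Algebra.TensorProduct.map ψ.toIntAlgHom (AlgHom.id ℤ (Lam b)) :
    A ⊗[ℤ] Lam b →ₐ[ℤ] B ⊗[ℤ] Lam b) : A ⊗[ℤ] Lam b →+* B ⊗[ℤ] Lam b)

theorem tmap_mk (ψ : A →+* B) (a : A) (ω : Lam b) : tmap ψ b (mk a ω) = mk (ψ a) ω :=
  Algebra.TensorProduct.map_tmul _ _ _ _

theorem coef_map (ψ : A →+* B) (φ : Lam b →ₗ[ℤ] ℤ) (x : GT A b) :
    coef B φ (tmap ψ b x) = ψ (coef A φ x) := by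
  induction x using GT.induction with
  | h0 => simp
  | h1 a ω => rw [tmap_mk, coef_mk, coef_mk, map_zsmul]
  | h2 x y hx hy => rw [map_add, map_add, hx, hy, map_add, map_add]

theorem coef_mul_one (φ : Lam b →ₗ[ℤ] ℤ) (x : GT A b) (a : A) :
    coef A φ (x * mk a 1) = coef A φ x * a := by
  induction x using GT.induction with
  | h0 => simp
  | h1 c ω => rw [mk_mul, coef_mk, coef_mk, mul_one, smul_mul_assoc]
  | h2 x y hx hy => rw [add_mul, map_add, hx, hy, map_add, add_mul]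

/-- supercommutativity -/
noncomputable def sc (C : Type*) [CommRing C] (b : ℕ) : SuperComm (GT C b) :=
  (extSC (Fin b → ℤ)).tensor C

theorem mk_ge_od {C : Type*} [CommRing C] (a : C) (s : Fin b) : mk a (ge s) ∈ (sc C b).od :=
  tmul_mem_tsub _ (ι_mem_od _)

end GT

variable {ι Φ U : Type} [Fintype ι] [DecidableEq ι] [Ring Φ] [Ring U] {z : ι}
variable (S : SupStr ι Φ U z)

/-- the operators of the big letters: even letters `none`, odd letters `some s` -/
noncomputable def SupStr.gx {b : ℕ} {Z : Type} (u : Z → Φ) (o : Z → Option (Fin b)) (i : ι)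
    (w : Z) : GT U b :=
  match o w with
  | none => GT.mk (S.ρ i (u w)) 1
  | some s => GT.mk (S.τ i (u w)) (ge s)

/-- parity condition -/
def Par (S : SupStr ι Φ U z) {b : ℕ} {Z : Type} (u : Z → Φ) (o : Z → Option (Fin b)) : Prop :=
  ∀ w, (o w = none → u w ∈ S.ev) ∧ (∀ s, o w = some s → u w ∈ S.od)

theorem SupStr.gx_comm {b : ℕ} {Z : Type} (u : Z → Φ) (o : Z → Option (Fin b))
    (h : Par S u o) (i j : ι) (hij : i ≠ j) (v w : Z) :
    S.gx u o i v * S.gx u o j w = S.gx u o j w * S.gx u o i v := by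
  unfold SupStr.gx
  rcases hv : o v with _ | s <;> rcases hw : o w with _ | t
  · simp only
    rw [GT.mk_mul, GT.mk_mul, S.ev_ev i j hij _ ((h v).1 hv) _ ((h w).1 hw)]
  · simp only
    rw [GT.mk_mul, GT.mk_mul, S.ev_od i j hij _ ((h v).1 hv) _ ((h w).2 t hw), one_mul, mul_one]
  · simp only
    rw [GT.mk_mul, GT.mk_mul, S.ev_od j i hij.symm _ ((h w).1 hw) _ ((h v).2 s hv), one_mul,
      mul_one]
  · simp only
    rw [GT.mk_mul, GT.mk_mul, S.od_od i j hij _ ((h v).2 s hv) _ ((h w).2 t hw), ge_swap s t,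
      GT.mk_neg_right, GT.mk_neg, neg_neg]

theorem SupStr.gx_conj {b : ℕ} {Z : Type} (u : Z → Φ) (o : Z → Option (Fin b))
    (h : Par S u o) (σ : Perm ι) (i : ι) (w : Z) :
    GT.mk (S.f σ) (1 : Lam b) * S.gx u o i w = S.gx u o (σ i) w * GT.mk (S.f σ) 1 := by
  unfold SupStr.gx
  rcases hw : o w with _ | t
  · simp only
    rw [GT.mk_mul, GT.mk_mul, S.f_ev σ i _ ((h w).1 hw)]
  · simp only
    rw [GT.mk_mul, GT.mk_mul, S.f_od σ i _ ((h w).2 t hw), one_mul, mul_one]

/-- the flips -/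
noncomputable def SupStr.gs (b : ℕ) : Perm ι →* GT U b :=
  (GT.inc U b).toMonoidHom.comp S.f

theorem SupStr.gs_apply (b : ℕ) (σ : Perm ι) : S.gs b σ = GT.mk (S.f σ) (1 : Lam b) := rfl

/-- the Grassmann string system -/
noncomputable def SupStr.gsys {b : ℕ} {Z : Type} (u : Z → Φ) (o : Z → Option (Fin b))
    (h : Par S u o) : Str ι (FreeAlgebra ℤ Z) (GT U b) :=
  Str.ofLetters (S.gx u o) (S.gs b) (fun i j hij v w => S.gx_comm u o h i j hij v w)
    (fun σ i w => by rw [S.gs_apply]; exact S.gx_conj u o h σ i w)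

theorem anti_gs (b : ℕ) (T : Finset ι) :
    anti (S.gs b) T = GT.mk (anti S.f T) (1 : Lam b) := by
  unfold anti
  change _ = GT.inc U b _
  rw [map_sum]
  refine Finset.sum_congr rfl (fun σ _ => ?_)
  rw [map_zsmul]
  rfl

/-- BLOCK BA for super string systems. -/
theorem SupStr.ba {b : ℕ} {Z : Type} (u : Z → Φ) (o : Z → Option (Fin b)) (h : Par S u o)
    (k : ℕ) (hA : Anti S.f k) (p q : Fin k ↪ ι) (hF : Frame p q z) (g : FA Z)
    (hg : ∀ (C : Type) [CommRing C] (m : Z → Matrix (Fin k) (Fin k) C), FA.lift m g = 0) :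
    FA.lift (S.gx u o z) g *
      GT.mk (anti S.f (univ.map p) * anti S.f (univ.map q)) (1 : Lam b) = 0 := by
  have hA' : Anti (S.gsys u o h).s k := by
    intro T hT
    change anti (S.gs b) T = 0
    rw [anti_gs, hA T hT, GT.mk_zero]
  have h1 := BA (S.gsys u o h) k hA' p q z hF g
    (fun C _ m => (FA.lift_eq m g).trans (hg C m))
  have h2 : anti (S.gsys u o h).s (univ.map p) * anti (S.gsys u o h).s (univ.map q)
      = GT.mk (anti S.f (univ.map p) * anti S.f (univ.map q)) (1 : Lam b) := by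
    change anti (S.gs b) _ * anti (S.gs b) _ = _
    rw [anti_gs, anti_gs, GT.mk_mul, one_mul]
  rw [h2] at h1
  have h3 : (S.gsys u o h).ρ z g = FA.lift (S.gx u o z) g := FA.lift_eq (S.gx u o z) g
  rw [h3] at h1
  exact h1

end Pool.PI34.SS
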