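import Pool.Agent.LibPI34.Rl8

/-!
PI34, START, file 1: highest weight vectors of a module all whose words contain every even
letter, and their pairing with the rectangular vector.
-/

set_option linter.unusedSectionVars false
set_option linter.unusedSimpArgs false

namespace Pool.PI34.Super

open Equiv Finset

section hom

variable {k l : ℕ} {ι : Type} [Fintype ι] [LinearOrder ι]

/-- highest weight vectors -/
def HW (v : W k l ι) : Prop := ∀ a b : Lt k l, idx a < idx b → EE a b v = 0

theorem HW_diag {v : W k l ι} (hv : HW v) (c : Lt k l) (r : ℚ) : HW (EE c c v - r • v) := by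
  intro a b hab
  rw [map_sub, map_smul, hv a b hab, smul_zero, sub_zero, EE_comm_apply, hv a b hab, map_zero,
    smul_zero, zero_add]
  have h1 : (if b = c then EE a c v else 0) = 0 := by
    split_ifs with h
    · rw [← h]; exact hv a b hab
    · rfl
  have h2 : (if c = a then EE c b v else 0) = 0 := by
    split_ifs with h
    · rw [h]; exact hv a b hab
    · rfl
  rw [h1, h2, smul_zero, sub_zero]

theorem exists_hom (N : Submodule ℚ (W k l ι))
    (hst : ∀ a b : Lt k l, ∀ v ∈ N, EE a b v ∈ N) (n : ℕ) :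
    ∀ v ∈ N, v ≠ 0 → HW v → (univ.filter (fun w => v w ≠ 0)).card ≤ n →
      ∃ v' ∈ N, v' ≠ 0 ∧ HW v' ∧ ∀ w w', v' w ≠ 0 → v' w' ≠ 0 → ∀ c, cnt c w = cnt c w' := by
  classical
  induction n with
  | zero =>
    intro v _ hne _ hc
    exfalso
    apply hne
    funext w
    by_contra h
    have : w ∈ univ.filter (fun w => v w ≠ 0) := by
      rw [Finset.mem_filter]; exact ⟨Finset.mem_univ _, h⟩
    rw [Finset.card_eq_zero.1 (Nat.le_zero.1 hc)] at this
    exact absurd this (Finset.notMem_empty _)
  | succ n ih =>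
    intro v hv hne hhw hc
    by_cases hall : ∀ w w', v w ≠ 0 → v w' ≠ 0 → ∀ c, cnt c w = cnt c w'
    · exact ⟨v, hv, hne, hhw, hall⟩
    · push Not at hall
      obtain ⟨w, w', hw, hw', c, hcne⟩ := hall
      refine ih (EE c c v - (cnt c w : ℚ) • v)
        (N.sub_mem (hst c c v hv) (N.smul_mem _ hv)) ?_ (HW_diag hhw c _) ?_
      · intro h
        have h1 := congrFun h w'
        rw [Pi.sub_apply, Pi.smul_apply, EE_diag, smul_eq_mul, ← sub_mul, Pi.zero_apply,
          mul_eq_zero] at h1
        rcases h1 with h1 | h1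
        · rw [sub_eq_zero] at h1
          exact hcne (by exact_mod_cast h1.symm)
        · exact hw' h1
      · have hss : univ.filter (fun u => (EE c c v - (cnt c w : ℚ) • v) u ≠ 0) ⊂
            univ.filter (fun u => v u ≠ 0) := by
          rw [Finset.ssubset_iff_of_subset]
          · refine ⟨w, ?_, ?_⟩
            · rw [Finset.mem_filter]; exact ⟨Finset.mem_univ _, hw⟩
            · rw [Finset.mem_filter]
              rintro ⟨_, h⟩
              apply h
              rw [Pi.sub_apply, Pi.smul_apply, EE_diag, smul_eq_mul, sub_self]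
          · intro u hu
            rw [Finset.mem_filter] at hu ⊢
            refine ⟨hu.1, fun h => hu.2 ?_⟩
            rw [Pi.sub_apply, Pi.smul_apply, EE_diag, smul_eq_mul, h, mul_zero, mul_zero,
              sub_zero]
        have := Finset.card_lt_card hss
        omega

/-- The state in the lowering argument. -/
def LS (i : Fin k) (s : ℕ) (x : W k l ι) : Prop :=
  (∀ t : Fin l, s ≤ t.val → EE (Sum.inl i) (Sum.inr t) x = 0) ∧
  (∀ t : Fin l, s ≤ t.val → ∀ t' : Fin l, t' < t → EE (Sum.inr t') (Sum.inr t) x = 0)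

theorem LS_step {i : Fin k} {s : Fin l} {x : W k l ι} (h : LS i s.val x) :
    LS i (s.val + 1) (EE (Sum.inr s) (Sum.inl i) x) := by
  constructor
  · intro t ht
    rw [EE_comm_apply, h.1 t (by omega), map_zero, smul_zero, zero_add]
    have h1 : ¬ (Sum.inr t : Lt k l) = Sum.inr s := by
      intro e; have := Sum.inr_injective e; rw [this] at ht; omega
    rw [if_neg h1, if_pos rfl, h.2 t (by omega) s (by rw [Fin.lt_def]; omega), smul_zero,
      sub_zero]
  · intro t ht t' ht'
    rw [EE_comm_apply, h.2 t (by omega) t' ht', map_zero, smul_zero, zero_add]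
    have h1 : ¬ (Sum.inr t : Lt k l) = Sum.inr s := by
      intro e; have := Sum.inr_injective e; rw [this] at ht; omega
    rw [if_neg h1, if_neg (by simp), smul_zero, sub_zero]

theorem hom_step {μ : Lt k l → ℚ} {x : W k l ι} (h : ∀ c, EE c c x = μ c • x) (a b : Lt k l)
    (c : Lt k l) : EE c c (EE a b x)
      = (μ c + (if c = a then 1 else 0) - (if c = b then 1 else 0)) • EE a b x := by
  rw [EE_comm_apply, h c, map_smul]
  have h1 : dd c c a b = 1 := by unfold dd; simp
  rw [h1, one_smul, one_smul]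
  have h2 : (if c = a then EE c b x else 0) = (if c = a then (1 : ℚ) else 0) • EE a b x := by
    split_ifs with e
    · rw [e, one_smul]
    · rw [zero_smul]
  have h3 : (if b = c then EE a c x else 0) = (if c = b then (1 : ℚ) else 0) • EE a b x := by
    by_cases e : c = b
    · rw [if_pos e, if_pos e.symm, e, one_smul]
    · rw [if_neg e, if_neg (fun e' => e e'.symm), zero_smul]
  rw [h2, h3, sub_smul, add_smul]

theorem lower (N : Submodule ℚ (W k l ι))
    (hst : ∀ a b : Lt k l, ∀ v ∈ N, EE a b v ∈ N) (i : Fin k)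
    (hN : ∀ x ∈ N, ∀ w, x w ≠ 0 → 1 ≤ cnt (Sum.inl i) w) : ∀ (d s : ℕ), s + d = l →
    ∀ x ∈ N, x ≠ 0 → LS i s x → ∀ μ : Lt k l → ℚ, (∀ c, EE c c x = μ c • x) →
      (d : ℚ) + 1 ≤ μ (Sum.inl i) := by
  classical
  intro d
  induction d with
  | zero =>
    intro s _ x hx hne _ μ hμ
    obtain ⟨w, hw⟩ := Function.ne_iff.1 hne
    have h1 := congrFun (hμ (Sum.inl i)) w
    rw [EE_diag, Pi.smul_apply, smul_eq_mul] at h1
    have h2 := mul_right_cancel₀ hw h1
    have h3 := hN x hx w hw
    rw [← h2]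
    push_cast
    rw [zero_add]
    exact_mod_cast h3
  | succ d ih =>
    intro s hs x hx hne hLS μ hμ
    have hsl : s < l := by omega
    set t : Fin l := ⟨s, hsl⟩ with ht
    set x' := EE (Sum.inr t) (Sum.inl i) x with hx'
    obtain ⟨w, hw⟩ := Function.ne_iff.1 hne
    have hμc : ∀ c, μ c = (cnt c w : ℚ) := by
      intro c
      have h1 := congrFun (hμ c) w
      rw [EE_diag, Pi.smul_apply, smul_eq_mul] at h1
      exact (mul_right_cancel₀ hw h1).symm
    have h1 : EE (Sum.inl i) (Sum.inr t) x' = (μ (Sum.inl i) + μ (Sum.inr t)) • x := by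
      rw [hx', EE_comm_apply, hLS.1 t (by rw [ht]), map_zero, smul_zero, zero_add, if_pos rfl,
        if_pos rfl, hμ, hμ]
      have h2 : dd (Sum.inl i) (Sum.inr t) (Sum.inr t) (Sum.inl i) = (-1 : ℚ) := by
        unfold dd; simp
      rw [h2, neg_smul, one_smul, sub_neg_eq_add, add_smul]
    have hne' : x' ≠ 0 := by
      intro h
      rw [h, map_zero] at h1
      have h2 : μ (Sum.inl i) + μ (Sum.inr t) = 0 := by
        rcases smul_eq_zero.1 h1.symm with h3 | h3
        · exact h3
        · exact absurd h3 hne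
      rw [hμc, hμc] at h2
      have h3 := hN x hx w hw
      have h4 : (1 : ℚ) ≤ (cnt (Sum.inl i) w : ℚ) := by exact_mod_cast h3
      have h5 : (0 : ℚ) ≤ (cnt (Sum.inr t : Lt k l) w : ℚ) := by positivity
      linarith
    have h2 := ih (s + 1) (by omega) x' (hst _ _ x hx) hne' (LS_step (s := t) hLS)
      _ (hom_step hμ (Sum.inr t) (Sum.inl i))
    rw [if_neg (by simp), if_pos rfl] at h2
    push_cast
    linarith

/-- the counts of a homogeneous highest weight vector -/
theorem hw_counts (N : Submodule ℚ (W k l ι))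
    (hst : ∀ a b : Lt k l, ∀ v ∈ N, EE a b v ∈ N)
    (hN : ∀ x ∈ N, ∀ w, x w ≠ 0 → ∀ i : Fin k, 1 ≤ cnt (Sum.inl i) w) (hne : N ≠ ⊥) :
    ∃ x ∈ N, x ≠ 0 ∧ HW x ∧ ∀ w, x w ≠ 0 → ∀ i : Fin k, l + 1 ≤ cnt (Sum.inl i) w := by
  classical
  obtain ⟨u, huN, hu0⟩ := (Submodule.ne_bot_iff N).1 hne
  obtain ⟨v, hvN, hv0, hvr⟩ := exists_hw N hst (univ.sup Pool.PI34.Super.ht) u huN hu0
    (fun w _ => Finset.le_sup (Finset.mem_univ w))
  obtain ⟨x, hxN, hx0, hxr, hxh⟩ := exists_hom N hst _ v hvN hv0 hvr le_rfl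
  refine ⟨x, hxN, hx0, hxr, fun w hw i => ?_⟩
  have h1 : ∀ c, EE c c x = (cnt c w : ℚ) • x := by
    intro c
    funext w'
    rw [EE_diag, Pi.smul_apply, smul_eq_mul]
    by_cases h : x w' = 0
    · rw [h, mul_zero, mul_zero]
    · rw [hxh w' w h hw c]
  have h2 := lower N hst i (fun x hx w hw => hN x hx w hw i) l 0 (by omega) x hxN hx0
    ⟨fun t _ => hxr _ _ (by simp [idx]; omega), fun t _ t' ht' => hxr _ _ (by
      simp only [idx, Sum.elim_inr]; rw [Fin.lt_def] at ht'; omega)⟩ _ h1
  exact_mod_cast h2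

end hom

section rows

variable {k l : ℕ} {ι : Type} [Fintype ι] [LinearOrder ι]

theorem rows_gen {q : ℕ} {lam : Fin q → Lt k l}
    (hlt : ∀ i j, i < j → idx (lam i) < idx (lam j)) (hpar : ∀ i j, odd (lam i) = odd (lam j))
    (hcl : ∀ a b : Lt k l, odd a = odd b → idx a < idx b → (∃ i, lam i = a) → ∃ i, lam i = b) :
    ∀ (r : ℕ) (R : Finset ι) (y : W k l ι), PR R y → y ≠ 0 →
      (∀ w, y w ≠ 0 → ∀ i, r ≤ cntR R (lam i) w) →
    ∃ p : Fin r → Fin q → ι, Function.Injective (fun x : Fin r × Fin q => p x.1 x.2) ∧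
      (∀ i j, p i j ∈ R) ∧ Drows lam r p y ≠ 0 := by
  classical
  have hinj : Function.Injective lam := by
    intro i j hij
    by_contra hne
    rcases lt_or_gt_of_ne hne with h | h
    · have := hlt i j h; rw [hij] at this; exact lt_irrefl _ this
    · have := hlt j i h; rw [hij] at this; exact lt_irrefl _ this
  intro r
  induction r with
  | zero =>
    intro R y _ hne _
    exact ⟨Fin.elim0, fun x => x.1.elim0, fun i => i.elim0, hne⟩
  | succ r ih =>
    intro R y hy hne hc
    obtain ⟨w, hw⟩ := Function.ne_iff.1 hne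
    obtain ⟨s, hs1, hs2, hs3⟩ := exists_Dop hlt hpar hy hw (fun i => cntR_pos (hc w hw i))
    have hne' : Dop lam s y ≠ 0 := fun e => hs3 (by rw [e]; rfl)
    obtain ⟨p, hp1, hp2, hp3⟩ := ih (R \ univ.image s) (Dop lam s y)
      (Dop_PR' hinj hcl hs1 hs2 hy) hne' (fun w' hw' i => by
        have := (Dop_cnt hinj hs1 hs2 (fun w h' => hc w h' i) hw').1 ⟨i, rfl⟩
        omega)
    refine ⟨Fin.cons s p, ?_, ?_, ?_⟩
    · rintro ⟨i, j⟩ ⟨i', j'⟩ hij
      simp only at hij
      rcases Fin.eq_zero_or_eq_succ i with rfl | ⟨i, rfl⟩ <;>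
        rcases Fin.eq_zero_or_eq_succ i' with rfl | ⟨i', rfl⟩
      · rw [Fin.cons_zero] at hij; rw [hs1 hij]
      · rw [Fin.cons_zero, Fin.cons_succ] at hij
        have := hp2 i' j'
        rw [← hij, Finset.mem_sdiff] at this
        exact absurd (Finset.mem_image.2 ⟨j, Finset.mem_univ _, rfl⟩) this.2
      · rw [Fin.cons_zero, Fin.cons_succ] at hij
        have := hp2 i j
        rw [hij, Finset.mem_sdiff] at this
        exact absurd (Finset.mem_image.2 ⟨j', Finset.mem_univ _, rfl⟩) this.2
      · rw [Fin.cons_succ, Fin.cons_succ] at hij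
        have := @hp1 (i, j) (i', j') hij
        simp only [Prod.mk.injEq] at this
        rw [this.1, this.2]
    · intro i j
      rcases Fin.eq_zero_or_eq_succ i with rfl | ⟨i, rfl⟩
      · rw [Fin.cons_zero]; exact hs2 j
      · rw [Fin.cons_succ]; exact (Finset.mem_sdiff.1 (hp2 i j)).1
    · exact hp3

end rows

section pairing

variable {k l : ℕ}

/-- Pairing with `σ (e_v ⊗ η)`. -/
theorem pair_of_sum {n m : ℕ} {x : W k l (Fin (n + m))} {η : W k l (Fin m)} {par : Fin m → Bool}
    (hpar : ∀ u, η u ≠ 0 → pv u = par) {P : Fin m → Fin (n + m)} (hPinj : Function.Injective P)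
    {w : Fin (n + m) → Lt k l} (hsum : ∑ u, η u * x (Function.extend P u w) ≠ 0) :
    ∃ (σ : Perm (Fin (n + m))) (v : Fin n → Lt k l), ip x (rho k l _ σ (tn v η)) ≠ 0 := by
  classical
  obtain ⟨σ, hσ⟩ := exists_perm_extending P hPinj
  refine ⟨σ, (w ∘ σ) ∘ phL n m, ?_⟩
  set v := (w ∘ σ) ∘ phL n m with hv
  have h1 : ip x (rho k l _ σ (tn v η))
      = ∑ u : Fin m → Lt k l, x (Function.extend P u w) *
        (eps σ (pv (Fin.append v u)) * η u) := by
    unfold ip
    have h2 : ∀ w', x w' * rho k l _ σ (tn v η) w'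
        = (fun w'' : Fin (n + m) → Lt k l => x (w'' ∘ ⇑σ⁻¹) *
          (eps σ (pv w'') * tn v η w'')) (w' ∘ σ) := by
      intro w'
      simp only [rho_apply]
      congr 2
      funext t; simp
    rw [Finset.sum_congr rfl (fun w' _ => h2 w')]
    refine ((Equiv.arrowCongr σ.symm (Equiv.refl (Lt k l))).sum_comp
      (fun w'' : Fin (n + m) → Lt k l => x (w'' ∘ ⇑σ⁻¹) *
          (eps σ (pv w'') * tn v η w''))).trans ?_
    rw [← (Fin.appendEquiv n m).sum_comp, Fintype.sum_prod_type,
      Finset.sum_eq_single v]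
    · refine Finset.sum_congr rfl (fun u _ => ?_)
      have h3 : Fin.appendEquiv n m (v, u) = Fin.append v u := rfl
      rw [h3, tn_apply]
      have h4 : Fin.append v u ∘ phL n m = v := by
        funext i; exact Fin.append_left v u i
      have h5 : Fin.append v u ∘ phR n m = u := by
        funext i; exact Fin.append_right v u i
      rw [h4, h5, if_pos rfl]
      congr 2
      funext t
      by_cases ht : ∃ s, P s = t
      · obtain ⟨s, rfl⟩ := ht
        rw [hPinj.extend_apply, Function.comp_apply, ← hσ s]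
        rw [inv_app']
        exact Fin.append_right v u s
      · rw [Function.extend_apply' _ _ _ ht, Function.comp_apply]
        have h6 : ∀ s, σ⁻¹ t ≠ phR n m s := by
          intro s e
          apply ht
          refine ⟨s, ?_⟩
          rw [← hσ s, ← e, app_inv']
        obtain ⟨i, hi⟩ : ∃ i, σ⁻¹ t = phL n m i := by
          refine Fin.addCases (motive := fun y => y = σ⁻¹ t → _) (fun i hi => ⟨i, hi.symm⟩)
            (fun i hi => absurd hi.symm (h6 i)) (σ⁻¹ t) rfl
        rw [hi]
        have h7 : Fin.append v u (phL n m i) = v i := Fin.append_left v u i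
        rw [h7, hv, Function.comp_apply, Function.comp_apply, ← hi, app_inv']
    · intro v' _ hv'
      refine Finset.sum_eq_zero (fun u _ => ?_)
      have h3 : Fin.appendEquiv n m (v', u) = Fin.append v' u := rfl
      rw [h3, tn_apply]
      have h4 : Fin.append v' u ∘ phL n m = v' := by
        funext i; exact Fin.append_left v' u i
      rw [h4, if_neg hv', mul_zero, mul_zero]
    · intro h; exact absurd (Finset.mem_univ _) h
  rw [h1]
  let χ : Fin (n + m) → Bool := Fin.append (pv v) par
  have h2 : ∀ u : Fin m → Lt k l, x (Function.extend P u w) *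
        (eps σ (pv (Fin.append v u)) * η u)
      = eps σ χ * (η u * x (Function.extend P u w)) := by
    intro u
    by_cases hu : η u = 0
    · rw [hu]; ring
    · have h3 : pv (Fin.append v u) = χ := by
        funext t
        refine Fin.addCases (fun i => ?_) (fun i => ?_) t
        · simp only [χ, pv, Fin.append_left]
        · have := congrFun (hpar u hu) i
          simp only [χ, pv, Fin.append_right] at *
          exact this
      rw [h3]; ring
  rw [Finset.sum_congr rfl (fun u _ => h2 u), ← Finset.mul_sum]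
  refine mul_ne_zero ?_ hsum
  intro h
  have := eps_sq σ χ
  rw [h, mul_zero] at this
  exact zero_ne_one this

/-- The rectangular vector: `r` blocks of size `q`. -/
def rv {q : ℕ} (r : ℕ) (lam : Fin q → Lt k l) : W k l (Fin (r * q)) :=
  DD (fun x : Fin r × Fin q => finProdFinEquiv x) lam

theorem rv_parity {q r : ℕ} {lam : Fin q → Lt k l} (hev : ∀ i, odd (lam i) = false)
    (u : Fin (r * q) → Lt k l) (hu : rv r lam u ≠ 0) : pv u = fun _ => false := by
  classical
  unfold rv at hu
  rw [DD_expand] at hu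
  obtain ⟨π, _, h1⟩ := Finset.exists_ne_zero_of_sum_ne_zero hu
  have h3 : ∀ x : Fin r × Fin q, u (finProdFinEquiv x) = lam (π x.1 x.2) := by
    by_contra h
    rw [if_neg h, mul_zero] at h1
    exact h1 rfl
  funext s
  obtain ⟨x, rfl⟩ := finProdFinEquiv.surjective s
  unfold pv
  rw [h3, hev]

theorem rv_sum {q r : ℕ} {lam : Fin q → Lt k l} (g : (Fin (r * q) → Lt k l) → ℚ) :
    ∑ u, rv r lam u * g u = ∑ π : Fin r → Perm (Fin q), (∏ j, ((Perm.sign (π j) : ℤ) : ℚ)) *
      g (fun s => lam (π (finProdFinEquiv.symm s).1 (finProdFinEquiv.symm s).2)) := by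
  classical
  unfold rv
  simp only [DD_expand, Finset.sum_mul]
  rw [Finset.sum_comm]
  refine Finset.sum_congr rfl (fun π _ => ?_)
  have hiff : ∀ u : Fin (r * q) → Lt k l, (∀ x : Fin r × Fin q, u (finProdFinEquiv x)
      = lam (π x.1 x.2)) ↔
      u = (fun s => lam (π (finProdFinEquiv.symm s).1 (finProdFinEquiv.symm s).2)) := by
    intro u
    constructor
    · intro h
      funext s
      obtain ⟨x, rfl⟩ := finProdFinEquiv.surjective s
      rw [h, Equiv.symm_apply_apply]
    · rintro rfl x
      simp only [Equiv.symm_apply_apply]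
  rw [Finset.sum_eq_single
    (fun s => lam (π (finProdFinEquiv.symm s).1 (finProdFinEquiv.symm s).2))]
  · rw [if_pos ((hiff _).2 rfl), mul_one]
  · intro u _ hu
    rw [if_neg (fun h => hu ((hiff u).1 h))]; ring
  · intro h; exact absurd (Finset.mem_univ _) h

theorem exists_pair_rv {n q r : ℕ} {lam : Fin q → Lt k l}
    (hlt : ∀ i j, i < j → idx (lam i) < idx (lam j)) (hev : ∀ i, odd (lam i) = false)
    (hcl : ∀ a b : Lt k l, odd a = odd b → idx a < idx b → (∃ i, lam i = a) → ∃ i, lam i = b)
    {x : W k l (Fin (n + r * q))} (hx : HW x) (hne : x ≠ 0)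
    (hc : ∀ w, x w ≠ 0 → ∀ i, r ≤ cnt (lam i) w) :
    ∃ (σ : Perm (Fin (n + r * q))) (v : Fin n → Lt k l),
      ip x (rho k l _ σ (tn v (rv r lam))) ≠ 0 := by
  classical
  obtain ⟨p, hp1, _, hp3⟩ := rows_gen hlt (fun i j => by rw [hev, hev]) hcl r univ x
    (fun a b _ hab => hx a b hab) hne (fun w hw i => hc w hw i)
  obtain ⟨w, hw⟩ := Function.ne_iff.1 hp3
  have hw' : Drows lam r p x w ≠ 0 := hw
  rw [Drows_apply _ _ _ hp1] at hw'
  let P : Fin (r * q) → Fin (n + r * q) := fun s =>
    p (finProdFinEquiv.symm s).1 (finProdFinEquiv.symm s).2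
  have hPinj : Function.Injective P := by
    intro s t hst
    have := @hp1 (finProdFinEquiv.symm s) (finProdFinEquiv.symm t) hst
    exact finProdFinEquiv.symm.injective this
  refine pair_of_sum (rv_parity hev) hPinj (w := w) ?_
  rw [rv_sum]
  refine ne_of_eq_of_ne ?_ hw'
  refine Finset.sum_congr rfl (fun π _ => ?_)
  congr 2
  funext t
  by_cases h1 : ∃ a : Fin r × Fin q, p a.1 a.2 = t
  · obtain ⟨a, rfl⟩ := h1
    have e1 := hp1.extend_apply (fun x : Fin r × Fin q => lam (π x.1 x.2)) w a
    rw [e1]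
    have e2 : p a.1 a.2 = P (finProdFinEquiv a) := by
      simp only [P, Equiv.symm_apply_apply]
    rw [e2, hPinj.extend_apply, Equiv.symm_apply_apply]
  · rw [Function.extend_apply' _ _ _ h1, Function.extend_apply']
    rintro ⟨s, hs⟩
    exact h1 ⟨finProdFinEquiv.symm s, hs⟩

end pairing

end Pool.PI34.Super
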