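import Pool.Agent.LibPI34.St1

/-!
PI34, START, file 2: the ideal `K(k|l)` is generated by the placed rectangular element.
-/

set_option linter.unusedSectionVars false
set_option linter.unusedSimpArgs false

namespace Pool.PI34.Super

open Equiv Finset

/-- The defining property of the rectangular element. -/
def RectZ (q r : ℕ) (z : MonoidAlgebra ℚ (Perm (Fin (r * q)))) : Prop :=
  ∀ (k l : ℕ) (lam : Fin q → Lt k l), Function.Injective lam → (∀ i, odd (lam i) = false) →
      act k l _ z (rv r lam) = rv r lam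

theorem estep {k l q r n : ℕ} (hq : q ≤ k + 1) (hr : r ≤ l + 1)
    {z : MonoidAlgebra ℚ (Perm (Fin (r * q)))} (hz : RectZ q r z)
    {y : MonoidAlgebra ℚ (Perm (Fin (n + r * q)))} (hy : act k l _ y = 0) :
    y ∈ JJ (k + 1) l (pl (phR n (r * q)) z) := by
  classical
  set Z := pl (phR n (r * q)) z with hZ
  let lam : Fin q → Lt (k + 1) l := fun c => Sum.inl ⟨k + 1 - q + c.val, by omega⟩
  have hlt : ∀ i j, i < j → idx (lam i) < idx (lam j) := by
    intro i j hij
    simp only [lam, idx, Sum.elim_inl]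
    rw [Fin.lt_def] at hij
    omega
  have hinj : Function.Injective lam := by
    intro i j hij
    have h1 := Sum.inl_injective hij
    rw [Fin.mk.injEq] at h1
    exact Fin.ext (by omega)
  have hev : ∀ i, odd (lam i) = false := fun i => rfl
  have hcl : ∀ a b : Lt (k + 1) l, odd a = odd b → idx a < idx b → (∃ i, lam i = a) →
      ∃ i, lam i = b := by
    rintro a b hab hlt' ⟨i, rfl⟩
    rcases b with b | b
    · simp only [lam, idx, Sum.elim_inl] at hlt'
      refine ⟨⟨b.val - (k + 1 - q), by omega⟩, ?_⟩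
      simp only [lam]
      congr 1
      exact Fin.ext (by simp only; omega)
    · simp [lam] at hab
  by_contra hcon
  have h1 : ∃ t : W (k + 1) l (Fin (n + r * q)), (∀ a ∈ JJ (k + 1) l Z, act (k + 1) l _ a t = 0) ∧
      act (k + 1) l _ y t ≠ 0 := by
    by_contra h
    push Not at h
    exact hcon (JJ_of_kill h)
  obtain ⟨t, ht, hyt⟩ := h1
  let T : Submodule ℚ (W (k + 1) l (Fin (n + r * q))) :=
    { carrier := {t | ∀ a ∈ JJ (k + 1) l Z, act (k + 1) l _ a t = 0}
      add_mem' := fun {x y} hx hy a ha => by rw [map_add, hx a ha, hy a ha, add_zero]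
      zero_mem' := fun a _ => map_zero _
      smul_mem' := fun c x hx a ha => by rw [map_smul, hx a ha, smul_zero] }
  have hTE : ∀ a b : Lt (k + 1) l, ∀ t ∈ T, EE a b t ∈ T := by
    intro a b t ht c hc
    have h := LinearMap.congr_fun (act_EE c a b) t
    simp only [Module.End.mul_apply] at h
    rw [h, ht c hc, map_zero]
  let N : Submodule ℚ (W (k + 1) l (Fin (n + r * q))) := T.map (act (k + 1) l _ y)
  have hNE : ∀ a b : Lt (k + 1) l, ∀ v ∈ N, EE a b v ∈ N := by
    rintro a b _ ⟨t, ht, rfl⟩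
    have h := LinearMap.congr_fun (act_EE y a b) t
    simp only [Module.End.mul_apply] at h
    rw [← h]
    exact ⟨_, hTE a b t ht, rfl⟩
  have hsupp : ∀ x ∈ N, ∀ w, x w ≠ 0 → ∀ i : Fin (k + 1), 1 ≤ cnt (Sum.inl i) w := by
    rintro _ ⟨t', ht', rfl⟩ w hw i
    have h2 : t' = ∑ u, t' u • (Pi.single u 1 : W (k + 1) l (Fin (n + r * q))) := by
      funext w
      rw [Finset.sum_apply, Finset.sum_eq_single w]
      · simp
      · intro b _ hb; simp [Pi.single_apply, hb.symm]
      · intro h; exact absurd (Finset.mem_univ _) h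
    rw [h2, map_sum, Finset.sum_apply] at hw
    obtain ⟨u, _, hu⟩ := Finset.exists_ne_zero_of_sum_ne_zero hw
    rw [map_smul, Pi.smul_apply, smul_eq_mul] at hu
    have h3 := right_ne_zero_of_mul hu
    rw [act_single_cnt y u w h3]
    by_contra h4
    apply h3
    have h5 : ∀ s, u s ≠ Sum.inl i := by
      intro s hs
      exact h4 (cnt_pos_iff.2 ⟨s, hs⟩)
    rw [kill_small (fev_odd i) hy (fun s => fev_range i (u s) (h5 s))]
    rfl
  have hNne : N ≠ ⊥ := (Submodule.ne_bot_iff N).2 ⟨_, ⟨t, ht, rfl⟩, hyt⟩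
  obtain ⟨x, hxN, hx0, hxr, hxc⟩ := hw_counts N hNE hsupp hNne
  obtain ⟨σ, v, hσ⟩ := exists_pair_rv (r := r) hlt hev hcl hxr hx0 (fun w hw i =>
    le_trans hr (hxc w hw _))
  obtain ⟨t', ht', rfl⟩ := hxN
  apply hσ
  have h7 : rho (k + 1) l _ σ (tn v (rv r lam))
      = act (k + 1) l _ (MonoidAlgebra.of ℚ _ σ * Z) (tn v (rv r lam)) := by
    rw [map_mul, Module.End.mul_apply, hZ, act_pl_tn, hz _ _ lam hinj hev, act_of]
  rw [h7, ← st_st (MonoidAlgebra.of ℚ _ σ * Z), ← act_adj, ← Module.End.mul_apply,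
    ← map_mul]
  have h8 : st (MonoidAlgebra.of ℚ _ σ * Z) * y ∈ JJ (k + 1) l Z := by
    refine JJ_right _ (JJ_st ?_)
    have := Z_mem_JJ (k := k + 1) (l := l) (Z := Z) (MonoidAlgebra.of ℚ _ σ) 1
    rwa [mul_one] at this
  rw [ht' _ h8]
  unfold ip
  exact Finset.sum_eq_zero (fun w _ => by simp)

/-- With at least `N` even letters the action is faithful. -/
theorem faithful {N l : ℕ} {y : MonoidAlgebra ℚ (Perm (Fin N))} (hy : act N l _ y = 0) :
    y = 0 := by
  classical
  let w0 : Fin N → Lt N l := Sum.inl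
  have h1 : ∀ (y : MonoidAlgebra ℚ (Perm (Fin N))) (τ : Perm (Fin N)),
      act N l _ y (Pi.single w0 1) (w0 ∘ ⇑τ⁻¹) = y.coeff τ := by
    intro y τ
    induction y using MonoidAlgebra.induction_on with
    | of σ =>
      rw [act_of, rho_apply]
      have h2 : eps σ (pv ((w0 ∘ ⇑τ⁻¹) ∘ ⇑σ)) = 1 := by
        unfold eps
        exact Finset.prod_eq_one (fun q _ => by simp [pv, w0])
      rw [h2, one_mul]
      by_cases h : σ = τ
      · subst h
        have h3 : (w0 ∘ ⇑σ⁻¹) ∘ ⇑σ = w0 := by funext i; simp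
        rw [h3, Pi.single_eq_same]
        simp
      · have h3 : (w0 ∘ ⇑τ⁻¹) ∘ ⇑σ ≠ w0 := by
          intro e
          apply h
          ext i
          have h4 := congrFun e i
          have h5 : τ⁻¹ (σ i) = i := Sum.inl_injective h4
          rw [Perm.inv_eq_iff_eq] at h5
          rw [h5]
        rw [Pi.single_eq_of_ne h3]
        simp [h]
    | add x y hx hy => rw [map_add, LinearMap.add_apply, Pi.add_apply, hx, hy]; rfl
    | smul r x hx => rw [map_smul, LinearMap.smul_apply, Pi.smul_apply, hx]; rfl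
  ext τ
  rw [← h1 y τ, hy]
  simp

/-- The two-sided ideal generated by `Z`, as a subspace. -/
noncomputable def IZ {G : Type} [Group G] (Z : MonoidAlgebra ℚ G) :
    Submodule ℚ (MonoidAlgebra ℚ G) :=
  Submodule.span ℚ {x | ∃ a b, x = a * Z * b}

theorem hook_aux {l q r n : ℕ} (hr : r ≤ l + 1)
    {z : MonoidAlgebra ℚ (Perm (Fin (r * q)))} (hz : RectZ q r z) : ∀ (d k : ℕ),
    n + r * q = k + d → q ≤ k + 1 → ∀ y : MonoidAlgebra ℚ (Perm (Fin (n + r * q))),
    act k l _ y = 0 → y ∈ IZ (pl (phR n (r * q)) z) := by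
  intro d
  induction d with
  | zero =>
    intro k hk _ y hy
    rw [add_zero] at hk
    subst hk
    rw [faithful hy]
    exact Submodule.zero_mem _
  | succ d ih =>
    intro k hk hq y hy
    have h1 := estep hq hr hz hy
    obtain ⟨y1, hy1, y2, hy2, rfl⟩ := Submodule.mem_sup.1 h1
    exact Submodule.add_mem _ (ih (k + 1) (by omega) (by omega) y1 (LinearMap.mem_ker.1 hy1)) hy2

/-- HOOK THEOREM: `K(k|l)` is the ideal generated by the `(k+1) × (l+1)` rectangle. -/
theorem hook_gen {k l n : ℕ} {z : MonoidAlgebra ℚ (Perm (Fin ((l + 1) * (k + 1))))}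
    (hz : RectZ (k + 1) (l + 1) z)
    {y : MonoidAlgebra ℚ (Perm (Fin (n + (l + 1) * (k + 1))))} (hy : act k l _ y = 0) :
    y ∈ IZ (pl (phR n ((l + 1) * (k + 1))) z) := by
  refine hook_aux le_rfl hz (n + (l + 1) * (k + 1) - k) k ?_ le_rfl y hy
  have : k ≤ (l + 1) * (k + 1) := by nlinarith
  omega

end Pool.PI34.Super
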