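import Pool.Agent.LibPI34.St2

/-!
PI34, START, file 3: the rectangular element and its matrix units.
-/

set_option linter.unusedSectionVars false
set_option linter.unusedSimpArgs false

namespace Pool.PI34.Super

open Equiv Finset

variable {q r : ℕ}

/-- the block permutation -/
def blk (π : Fin r → Perm (Fin q)) : Perm (Fin (r * q)) :=
  finProdFinEquiv.permCongr (Equiv.prodCongrRight π)

theorem blk_apply (π : Fin r → Perm (Fin q)) (x : Fin r × Fin q) :
    blk π (finProdFinEquiv x) = finProdFinEquiv (x.1, π x.1 x.2) := by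
  simp only [blk, Equiv.permCongr_apply, Equiv.symm_apply_apply]
  rfl

theorem blk_mul (π π' : Fin r → Perm (Fin q)) : blk (π * π') = blk π * blk π' := by
  ext s
  obtain ⟨x, rfl⟩ := finProdFinEquiv.surjective s
  rw [Perm.mul_apply, blk_apply, blk_apply, blk_apply]
  rfl

/-- signs of a family -/
def sg (π : Fin r → Perm (Fin q)) : ℚ := ∏ j, ((Perm.sign (π j) : ℤ) : ℚ)

theorem sg_mul (π π' : Fin r → Perm (Fin q)) : sg (π * π') = sg π * sg π' := by
  unfold sg
  rw [← Finset.prod_mul_distrib]
  refine Finset.prod_congr rfl (fun j _ => ?_)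
  rw [Pi.mul_apply, Perm.sign_mul]; push_cast; rfl

theorem sg_sq (π : Fin r → Perm (Fin q)) : sg π * sg π = 1 := by
  unfold sg
  rw [← Finset.prod_mul_distrib]
  refine Finset.prod_eq_one (fun j _ => ?_)
  rcases Int.units_eq_one_or (Perm.sign (π j)) with h | h <;> rw [h] <;> norm_num

/-- the column antisymmetrizer -/
noncomputable def AA (q r : ℕ) : MonoidAlgebra ℚ (Perm (Fin (r * q))) :=
  ∑ π : Fin r → Perm (Fin q), sg π • MonoidAlgebra.of ℚ _ (blk π)

/-- the basic vector -/
def rv0 (q r : ℕ) : W q 0 (Fin (r * q)) := rv r (Sum.inl : Fin q → Lt q 0)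

/-- the basic word -/
def w0 (q r : ℕ) : Fin (r * q) → Lt q 0 := fun s => Sum.inl (finProdFinEquiv.symm s).2

theorem eps_false {ι : Type} [Fintype ι] [LinearOrder ι] (σ : Perm ι) (p : ι → Bool)
    (hp : ∀ i, p i = false) : eps σ p = 1 := by
  unfold eps
  exact Finset.prod_eq_one (fun x _ => by simp [hp])

theorem rho_zero {ι : Type} [Fintype ι] [LinearOrder ι] (σ : Perm ι) (f : W q 0 ι)
    (w : ι → Lt q 0) : rho q 0 ι σ f w = f (w ∘ σ) := by
  rw [rho_apply, eps_false, one_mul]
  intro i
  unfold pv
  rcases (w ∘ σ) i with c | c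
  · rfl
  · exact c.elim0

/-- blockwise alternating functions -/
def BAlt (F : (Fin (r * q) → Lt q 0) → ℚ) : Prop :=
  ∀ (π : Fin r → Perm (Fin q)) (w : Fin (r * q) → Lt q 0), F (w ∘ blk π) = sg π * F w

theorem BAlt_AA (v : W q 0 (Fin (r * q))) : BAlt (act q 0 _ (AA q r) v) := by
  classical
  intro π w
  have h1 : ∀ w : Fin (r * q) → Lt q 0, act q 0 _ (AA q r) v w
      = ∑ π' : Fin r → Perm (Fin q), sg π' * v (w ∘ blk π') := by
    intro w
    unfold AA
    rw [map_sum, LinearMap.sum_apply, Finset.sum_apply]
    refine Finset.sum_congr rfl (fun π' _ => ?_)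
    rw [map_smul, act_of, LinearMap.smul_apply, Pi.smul_apply, smul_eq_mul, rho_zero]
  rw [h1, h1, Finset.mul_sum, ← Equiv.sum_comp (Equiv.mulLeft π) (fun π' => sg π * (sg π' *
    v (w ∘ blk π')))]
  refine Finset.sum_congr rfl (fun π' _ => ?_)
  have h2 : (Equiv.mulLeft π) π' = π * π' := rfl
  rw [h2, sg_mul, blk_mul]
  have h3 : w ∘ ⇑(blk π * blk π') = (w ∘ blk π) ∘ blk π' := by funext s; rfl
  rw [h3]
  have h4 := sg_sq π
  calc sg π' * v ((w ∘ blk π) ∘ blk π')
      = (sg π * sg π) * (sg π' * v ((w ∘ blk π) ∘ blk π')) := by rw [h4, one_mul]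
    _ = _ := by ring

theorem BAlt_rv0 : BAlt (rv0 q r) := by
  classical
  intro π w
  unfold rv0 rv DD sg
  rw [← Finset.prod_mul_distrib]
  refine Finset.prod_congr rfl (fun j _ => ?_)
  rw [← Matrix.det_permute]
  congr 1
  funext i c
  rw [MM_apply, Matrix.submatrix_apply, MM_apply, Function.comp_apply, blk_apply]
  rfl

theorem rv0_w0 : rv0 q r (w0 q r) = 1 := by
  unfold rv0 rv DD
  refine Finset.prod_eq_one (fun j _ => ?_)
  have h : MM (fun x : Fin r × Fin q => finProdFinEquiv x) (Sum.inl : Fin q → Lt q 0)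
      (w0 q r) j = 1 := by
    funext i c
    rw [MM_apply, Matrix.one_apply]
    unfold w0
    rw [Equiv.symm_apply_apply]
    simp only [Sum.inl.injEq]
  rw [h, Matrix.det_one]

theorem BAlt_unique {F : (Fin (r * q) → Lt q 0) → ℚ} (hF : BAlt F)
    (w : Fin (r * q) → Lt q 0) : F w = rv0 q r w * F (w0 q r) := by
  classical
  by_cases h : ∀ j : Fin r, Function.Injective (fun i : Fin q => w (finProdFinEquiv (j, i)))
  · -- all blocks are bijective
    have h1 : ∀ (j : Fin r) (i : Fin q), ∃ c : Fin q, w (finProdFinEquiv (j, i)) = Sum.inl c := by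
      intro j i
      rcases w (finProdFinEquiv (j, i)) with c | c
      · exact ⟨c, rfl⟩
      · exact c.elim0
    choose f hf using h1
    have h2 : ∀ j, Function.Injective (f j) := by
      intro j i i' hii
      apply h j
      simp only
      rw [hf, hf, hii]
    let π : Fin r → Perm (Fin q) := fun j =>
      Equiv.ofBijective (f j) (Finite.injective_iff_bijective.1 (h2 j))
    have h3 : w = w0 q r ∘ blk π := by
      funext s
      obtain ⟨⟨j, i⟩, rfl⟩ := finProdFinEquiv.surjective s
      rw [Function.comp_apply, blk_apply, hf]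
      unfold w0
      rw [Equiv.symm_apply_apply]
      rfl
    rw [h3, hF, BAlt_rv0, rv0_w0, mul_one]
  · push Not at h
    obtain ⟨j, hj⟩ := h
    rw [Function.not_injective_iff] at hj
    obtain ⟨i, i', hii, hne⟩ := hj
    have key : ∀ F : (Fin (r * q) → Lt q 0) → ℚ, BAlt F → F w = 0 := by
      intro F hF
      let π : Fin r → Perm (Fin q) := Function.update 1 j (swap i i')
      have h3 : w ∘ blk π = w := by
        funext s
        obtain ⟨⟨j', x⟩, rfl⟩ := finProdFinEquiv.surjective s
        rw [Function.comp_apply, blk_apply]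
        by_cases hj : j' = j
        · subst hj
          simp only [π, Function.update_self]
          by_cases hx : x = i
          · rw [hx, swap_apply_left]; exact hii.symm
          · by_cases hx' : x = i'
            · rw [hx', swap_apply_right]; exact hii
            · rw [swap_apply_of_ne_of_ne hx hx']
        · simp only [π, Function.update_of_ne hj]
          rfl
      have h4 : sg π = -1 := by
        unfold sg
        rw [Finset.prod_eq_single j]
        · simp only [π, Function.update_self, Perm.sign_swap hne]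
          norm_num
        · intro j' _ hj'
          simp only [π, Function.update_of_ne hj']
          simp
        · intro h; exact absurd (Finset.mem_univ _) h
      have h5 := hF π w
      rw [h3, h4] at h5
      linarith
    rw [key F hF, key _ BAlt_rv0, zero_mul]

theorem AA_apply (v : W q 0 (Fin (r * q))) :
    act q 0 _ (AA q r) v = ip v (rv0 q r) • rv0 q r := by
  classical
  funext w
  rw [BAlt_unique (BAlt_AA v) w, Pi.smul_apply, smul_eq_mul, mul_comm]
  congr 1
  unfold AA ip
  rw [map_sum, LinearMap.sum_apply, Finset.sum_apply]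
  have h1 : ∑ u, v u * rv0 q r u = ∑ u, rv r (Sum.inl : Fin q → Lt q 0) u * v u :=
    Finset.sum_congr rfl (fun u _ => mul_comm _ _)
  rw [h1, rv_sum]
  refine Finset.sum_congr rfl (fun π _ => ?_)
  rw [map_smul, act_of, LinearMap.smul_apply, Pi.smul_apply, smul_eq_mul, rho_zero]
  unfold sg
  congr 2
  funext s
  obtain ⟨x, rfl⟩ := finProdFinEquiv.surjective s
  rw [Function.comp_apply, blk_apply]
  unfold w0
  rw [Equiv.symm_apply_apply, Equiv.symm_apply_apply]

theorem ip_comm {k l : ℕ} {ι : Type} [Fintype ι] [LinearOrder ι] (f g : W k l ι) :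
    ip f g = ip g f := by
  unfold ip
  exact Finset.sum_congr rfl (fun _ _ => mul_comm _ _)

/-- splitting of left ideals -/
theorem left_split {G : Type} [Group G] [Finite G] (J : Submodule ℚ (MonoidAlgebra ℚ G))
    (hJ : ∀ c, ∀ a ∈ J, c * a ∈ J) :
    ∃ e e' : MonoidAlgebra ℚ G, e + e' = 1 ∧ e ∈ J ∧ ∀ a ∈ J, a * e' = 0 := by
  classical
  let A := MonoidAlgebra ℚ G
  let J1 : Submodule A A :=
    { carrier := {a | a ∈ J}
      add_mem' := fun {a b} ha hb => by
        change a + b ∈ J
        exact Submodule.add_mem _ ha hb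
      zero_mem' := by
        change (0 : A) ∈ J
        exact Submodule.zero_mem _
      smul_mem' := fun c a ha => hJ c a ha }
  have : Fintype G := Fintype.ofFinite G
  obtain ⟨J', hJ'⟩ := MonoidAlgebra.Submodule.exists_isCompl J1
  have h1 : (1 : A) ∈ J1 ⊔ J' := by rw [hJ'.sup_eq_top]; exact Submodule.mem_top
  obtain ⟨e, he, e', he', hee⟩ := Submodule.mem_sup.1 h1
  refine ⟨e, e', hee, he, fun a ha => ?_⟩
  have h3 : a * e' ∈ J' := J'.smul_mem a he'
  have h4 : a * e' ∈ J1 := by
    have h5 : a * e' = a - a * e := by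
      have h6 : a * (e + e') = a := by rw [hee, mul_one]
      rw [mul_add] at h6
      exact eq_sub_of_add_eq' h6
    rw [h5]
    exact J1.sub_mem ha (J1.smul_mem a he)
  have := hJ'.disjoint
  rw [Submodule.disjoint_def] at this
  exact this _ h4 h3

/-- the annihilator of the module generated by `rv0` -/
def AnnR (q r : ℕ) : Submodule ℚ (MonoidAlgebra ℚ (Perm (Fin (r * q)))) where
  carrier := {p | ∀ s, act q 0 _ (p * s) (rv0 q r) = 0}
  add_mem' := fun {a b} ha hb s => by
    rw [add_mul, map_add, LinearMap.add_apply, ha, hb, add_zero]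
  zero_mem' := fun s => by rw [zero_mul, map_zero, LinearMap.zero_apply]
  smul_mem' := fun c a ha s => by
    rw [smul_mul_assoc, map_smul, LinearMap.smul_apply, ha, smul_zero]

theorem transfer {k l : ℕ} {lam : Fin q → Lt k l} (hinj : Function.Injective lam)
    (hev : ∀ i, odd (lam i) = false) {p : MonoidAlgebra ℚ (Perm (Fin (r * q)))}
    (hp : act q 0 _ p (rv0 q r) = 0) : act k l _ p (rv r lam) = 0 := by
  classical
  let f : Lt q 0 → Lt k l := Sum.elim lam (fun j => j.elim0)
  have hf : ∀ c, odd (f c) = odd c := by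
    rintro (c | c)
    · exact hev c
    · exact c.elim0
  funext w
  by_cases hw : ∃ w' : Fin (r * q) → Lt q 0, f ∘ w' = w
  · obtain ⟨w', rfl⟩ := hw
    have h1 := congrFun (pull_act hf p (rv r lam)) w'
    have h2 : pull f (rv r lam) = rv0 q r := by
      funext w
      change rv r lam (f ∘ w) = rv r Sum.inl w
      unfold rv DD
      refine Finset.prod_congr rfl (fun j _ => ?_)
      congr 1
      funext i c
      rw [MM_apply, MM_apply, Function.comp_apply]
      rcases w (finProdFinEquiv (j, i)) with d | d
      · simp only [f, Sum.elim_inl, Sum.inl.injEq, hinj.eq_iff]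
      · exact d.elim0
    rw [h2, hp] at h1
    exact h1
  · have h1 : ∀ (p : MonoidAlgebra ℚ (Perm (Fin (r * q)))),
        act k l _ p (rv r lam) w = 0 := by
      intro p
      induction p using MonoidAlgebra.induction_on with
      | of σ =>
        rw [act_of, rho_apply]
        by_contra h
        apply hw
        have h2 : rv r lam (w ∘ σ) ≠ 0 := right_ne_zero_of_mul h
        unfold rv at h2
        rw [DD_expand] at h2
        obtain ⟨π, _, h3⟩ := Finset.exists_ne_zero_of_sum_ne_zero h2
        have h4 : ∀ x : Fin r × Fin q, (w ∘ σ) (finProdFinEquiv x) = lam (π x.1 x.2) := by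
          by_contra h
          rw [if_neg h, mul_zero] at h3
          exact h3 rfl
        refine ⟨fun s => Sum.inl (π (finProdFinEquiv.symm (σ⁻¹ s)).1
          (finProdFinEquiv.symm (σ⁻¹ s)).2), ?_⟩
        funext s
        have h5 := h4 (finProdFinEquiv.symm (σ⁻¹ s))
        rw [Equiv.apply_symm_apply, Function.comp_apply, app_inv'] at h5
        rw [h5]; rfl
      | add x y hx hy => rw [map_add, LinearMap.add_apply, Pi.add_apply, hx, hy, add_zero]
      | smul c x hx => rw [map_smul, LinearMap.smul_apply, Pi.smul_apply, hx, smul_zero]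
    exact h1 p

theorem rv0_ne : rv0 q r ≠ 0 := by
  intro h
  have := rv0_w0 (q := q) (r := r)
  rw [h] at this
  exact zero_ne_one this

/-- THE RECTANGULAR ELEMENT and its matrix units. -/
theorem exists_rect (q r : ℕ) : ∃ z : MonoidAlgebra ℚ (Perm (Fin (r * q))), RectZ q r z ∧
    ∀ (I : Type) [Fintype I] [DecidableEq I] (g : I → Perm (Fin (r * q))),
      LinearIndependent ℚ (fun i => rho q 0 _ (g i) (rv0 q r)) →
      ∃ c : I → MonoidAlgebra ℚ (Perm (Fin (r * q))), ∀ i j,
        z * c i * MonoidAlgebra.of ℚ _ (g j) * z = if i = j then z else 0 := by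
  classical
  obtain ⟨e, e', hee, he, h0⟩ := left_split (AnnR q r) (fun c a ha s => by
    rw [mul_assoc, map_mul, Module.End.mul_apply, ha s, map_zero])
  set Nn : ℚ := ip (rv0 q r) (rv0 q r) with hNn
  have hN0 : Nn ≠ 0 := ip_self_ne rv0_ne
  set z := Nn⁻¹ • (AA q r * e') with hz
  -- e' acts as the identity
  have he1 : ∀ s, act q 0 _ (e' * s) (rv0 q r) = act q 0 _ s (rv0 q r) := by
    intro s
    have h1 : e' * s = s - e * s := by
      rw [← sub_eq_of_eq_add' hee.symm, sub_mul, one_mul]
    rw [h1, map_sub, LinearMap.sub_apply, he s, sub_zero]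
  have hzs : ∀ s, act q 0 _ (z * s) (rv0 q r)
      = (Nn⁻¹ * ip (act q 0 _ s (rv0 q r)) (rv0 q r)) • rv0 q r := by
    intro s
    rw [hz, smul_mul_assoc, map_smul, LinearMap.smul_apply, mul_assoc, map_mul,
      Module.End.mul_apply, he1, AA_apply, smul_smul]
  have hz1 : act q 0 _ z (rv0 q r) = rv0 q r := by
    have h1 := hzs 1
    rw [mul_one, map_one, Module.End.one_apply, ← hNn, inv_mul_cancel₀ hN0, one_smul] at h1
    exact h1
  have hze : z * e' = z := by
    have h1 : e' * e' = e' := by
      have h2 : e' * e' = e' - e * e' := by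
        conv_lhs => rw [← sub_eq_of_eq_add' hee.symm, sub_mul, one_mul]
        rw [sub_eq_of_eq_add' hee.symm]
      rw [h2, h0 e he, sub_zero]
    rw [hz, smul_mul_assoc, mul_assoc, h1]
  refine ⟨z, ?_, ?_⟩
  · intro k l lam hinj hev
    have h1 : act q 0 _ (z - 1) (rv0 q r) = 0 := by
      rw [map_sub, map_one, LinearMap.sub_apply, Module.End.one_apply, hz1, sub_self]
    have h2 := transfer (k := k) (l := l) hinj hev h1
    rw [map_sub, map_one, LinearMap.sub_apply, Module.End.one_apply, sub_eq_zero] at h2
    exact h2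
  · intro I _ _ g hlin
    -- the Gram matrix
    set v : I → W q 0 (Fin (r * q)) := fun i => rho q 0 _ (g i) (rv0 q r) with hv
    let G : Matrix I I ℚ := fun i j => ip (v j) (v i)
    have hG : IsUnit G := by
      rw [← Matrix.mulVec_injective_iff_isUnit]
      intro c c' hcc
      have h1 : G.mulVec (c - c') = 0 := by rw [Matrix.mulVec_sub, hcc, sub_self]
      set d := c - c' with hd
      have h2 : ∀ i, ip (∑ j, d j • v j) (v i) = 0 := by
        intro i
        rw [ip_comm, ip_sum_right]
        have h3 := congrFun h1 i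
        rw [Pi.zero_apply] at h3
        rw [← h3]
        unfold Matrix.mulVec dotProduct
        refine Finset.sum_congr rfl (fun j _ => ?_)
        rw [ip_smul_right, ip_comm]
        exact mul_comm _ _
      have h3 : (∑ j, d j • v j) = 0 := by
        by_contra hne
        apply ip_self_ne hne
        conv_lhs => rw [ip_sum_right]
        refine Finset.sum_eq_zero (fun i _ => ?_)
        rw [ip_smul_right, h2 i, mul_zero]
      rw [Fintype.linearIndependent_iff] at hlin
      have h4 := hlin d h3
      funext i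
      have := h4 i
      rw [hd, Pi.sub_apply, sub_eq_zero] at this
      exact this
    let H := G⁻¹
    have hHG : H * G = 1 := by
      apply Matrix.nonsing_inv_mul
      exact (Matrix.isUnit_iff_isUnit_det G).1 hG
    refine ⟨fun i => ∑ k, H i k • (AA q r * MonoidAlgebra.of ℚ _ (g k)⁻¹), fun i j => ?_⟩
    set c := ∑ k, H i k • (AA q r * MonoidAlgebra.of ℚ _ (g k)⁻¹) with hc
    have hcj : act q 0 _ (c * MonoidAlgebra.of ℚ _ (g j)) (rv0 q r)
        = (if i = j then (1 : ℚ) else 0) • rv0 q r := by
      rw [map_mul, Module.End.mul_apply, act_of, hc, map_sum, LinearMap.sum_apply]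
      have h1 : ∀ k, act q 0 _ (H i k • (AA q r * MonoidAlgebra.of ℚ _ (g k)⁻¹))
          (rho q 0 _ (g j) (rv0 q r)) = (H i k * G k j) • rv0 q r := by
        intro k
        rw [map_smul, LinearMap.smul_apply, map_mul, Module.End.mul_apply, act_of, AA_apply,
          rho_adj, inv_inv, smul_smul]
      rw [Finset.sum_congr rfl (fun k _ => h1 k), ← Finset.sum_smul]
      have h2 : ∑ k, H i k * G k j = (1 : Matrix I I ℚ) i j := by
        rw [← hHG, Matrix.mul_apply]
      rw [h2, Matrix.one_apply]
    have hmem : z * c * MonoidAlgebra.of ℚ _ (g j) * z - (if i = j then z else 0) ∈ AnnR q r := by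
      intro s
      rw [sub_mul, map_sub, LinearMap.sub_apply, sub_eq_zero]
      have h1 : z * c * MonoidAlgebra.of ℚ _ (g j) * z * s
          = (z * (c * MonoidAlgebra.of ℚ _ (g j))) * (z * s) := by
        simp only [mul_assoc]
      rw [h1, map_mul, Module.End.mul_apply, hzs s, map_smul, map_mul, Module.End.mul_apply,
        hcj, map_smul, hz1]
      split_ifs with hij
      · rw [one_smul, hzs s]
      · rw [zero_smul, smul_zero, zero_mul, map_zero, LinearMap.zero_apply]
    have h1 := h0 _ hmem
    rw [sub_mul, mul_assoc, hze, sub_eq_zero] at h1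
    rw [h1]
    split_ifs
    · exact hze
    · exact zero_mul _

end Pool.PI34.Super
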