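import Pool.Agent.LibPI34.St3

/-!
PI34, START, file 4: the square has many independent vectors.
-/

set_option linter.unusedSectionVars false
set_option linter.unusedSimpArgs false

namespace Pool.PI34.Super

open Equiv Finset

/-- the antidiagonal index -/
def adg (a : ℕ) (x : Fin a × Fin a) : Fin (2 * a) := ⟨x.1.val + x.2.val, by omega⟩

/-- permutations of the square preserving the antidiagonals -/
abbrev AG (a : ℕ) := {g : Perm (Fin a × Fin a) // adg a ∘ g = adg a}

theorem inj_le_id {a : ℕ} {f : Fin a → Fin a} (hf : Function.Injective f)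
    (hle : ∀ i, f i ≤ i) : ∀ (n : ℕ) (i : Fin a), i.val = n → f i = i := by
  intro n
  induction n using Nat.strong_induction_on with
  | _ n ih =>
    intro i hi
    by_contra hne
    have h1 : f i < i := lt_of_le_of_ne (hle i) hne
    have h2 := ih (f i).val (by rw [← hi]; exact h1) (f i) rfl
    have h3 := hf h2
    exact hne h3

/-- the placed permutation -/
def pg {a : ℕ} (g : Perm (Fin a × Fin a)) : Perm (Fin (a * a)) := finProdFinEquiv.permCongr g

theorem pg_apply {a : ℕ} (g : Perm (Fin a × Fin a)) (x : Fin a × Fin a) :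
    pg g (finProdFinEquiv x) = finProdFinEquiv (g x) := by
  simp [pg, Equiv.permCongr_apply]

theorem pg_mul {a : ℕ} (g h : Perm (Fin a × Fin a)) : pg (g * h) = pg g * pg h := by
  ext s
  obtain ⟨x, rfl⟩ := finProdFinEquiv.surjective s
  rw [Perm.mul_apply, pg_apply, pg_apply, pg_apply]
  rfl

theorem pg_one {a : ℕ} : pg (1 : Perm (Fin a × Fin a)) = 1 := by
  ext s
  obtain ⟨x, rfl⟩ := finProdFinEquiv.surjective s
  rw [pg_apply]; rfl

theorem rv0_pg {a : ℕ} {g : Perm (Fin a × Fin a)} (hg : adg a ∘ g = adg a)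
    (hne : rv0 a a (w0 a a ∘ pg g) ≠ 0) : g = 1 := by
  classical
  have h1 : ∀ j : Fin a, Function.Injective (fun i : Fin a => (g (j, i)).2) := by
    intro j
    rw [Finite.injective_iff_surjective]
    intro c
    have h2 : DD (fun x : Fin a × Fin a => finProdFinEquiv x) (Sum.inl : Fin a → Lt a 0)
      (w0 a a ∘ pg g) ≠ 0 := hne
    obtain ⟨i, hi⟩ := DD_supp h2 j c
    refine ⟨i, ?_⟩
    rw [Function.comp_apply, pg_apply] at hi
    unfold w0 at hi
    rw [Equiv.symm_apply_apply] at hi
    exact Sum.inl_injective hi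
  have h2 : ∀ x, (g x).1.val + (g x).2.val = x.1.val + x.2.val := by
    intro x
    have := congrFun hg x
    simp only [adg, Function.comp_apply, Fin.mk.injEq] at this
    exact this
  have h3 : ∀ (n : ℕ) (j : Fin a), j.val = n → ∀ i, g (j, i) = (j, i) := by
    intro n
    induction n using Nat.strong_induction_on with
    | _ n ih =>
      intro j hj
      have h4 : ∀ i, j.val ≤ (g (j, i)).1.val := by
        intro i
        by_contra hlt
        push Not at hlt
        have h5 := ih (g (j, i)).1.val (by rw [← hj]; exact hlt) (g (j, i)).1 rfl (g (j, i)).2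
        have h6 : g (j, i) = (j, i) := g.injective h5
        rw [h6] at hlt
        exact lt_irrefl _ hlt
      have h5 : ∀ i, (g (j, i)).2 ≤ i := by
        intro i
        have := h2 (j, i)
        have := h4 i
        rw [Fin.le_def]
        simp only at *
        omega
      intro i
      have h6 := inj_le_id (h1 j) h5 i.val i rfl
      have h7 := h2 (j, i)
      refine Prod.ext (Fin.ext ?_) h6
      simp only at h6 h7 ⊢
      rw [h6] at h7
      omega
  ext x : 1
  exact h3 x.1.val x.1 rfl x.2

theorem AG_lin (a : ℕ) :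
    LinearIndependent ℚ (fun g : AG a => rho a 0 _ (pg g.1) (rv0 a a)) := by
  classical
  rw [Fintype.linearIndependent_iff]
  intro c hc h
  have h1 := congrFun hc (w0 a a ∘ pg h.1⁻¹)
  rw [Finset.sum_apply, Finset.sum_eq_single h] at h1
  · rw [Pi.smul_apply, rho_zero] at h1
    have h2 : (w0 a a ∘ pg h.1⁻¹) ∘ pg h.1 = w0 a a := by
      have : pg h.1⁻¹ * pg h.1 = 1 := by rw [← pg_mul, inv_mul_cancel, pg_one]
      funext s
      exact congrArg (w0 a a) (congrArg (fun f : Perm (Fin (a * a)) => f s) this)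
    rw [h2, rv0_w0, smul_eq_mul, mul_one] at h1
    exact h1
  · intro g _ hgh
    rw [Pi.smul_apply, rho_zero]
    have h2 : (w0 a a ∘ pg h.1⁻¹) ∘ pg g.1 = w0 a a ∘ pg (h.1⁻¹ * g.1) := by
      rw [pg_mul]; rfl
    rw [h2]
    have h3 : rv0 a a (w0 a a ∘ pg (h.1⁻¹ * g.1)) = 0 := by
      by_contra hne
      have hpres : adg a ∘ (h.1⁻¹ * g.1 : Perm (Fin a × Fin a)) = adg a := by
        funext x
        have e1 := congrFun g.2 x
        have e2 := congrFun h.2 (h.1⁻¹ (g.1 x))
        rw [Function.comp_apply] at e1 e2 ⊢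
        rw [app_inv'] at e2
        rw [Perm.mul_apply, ← e2, e1]
      have := rv0_pg hpres hne
      rw [inv_mul_eq_one] at this
      exact hgh (Subtype.ext this.symm)
    rw [h3, smul_zero]
  · intro h; exact absurd (Finset.mem_univ _) h

theorem fiber_card {b : ℕ} (t : Fin (2 * (2 * b))) (h1 : b ≤ t.val) (h2 : t.val < 3 * b) :
    b ≤ Fintype.card {x : Fin (2 * b) × Fin (2 * b) // adg (2 * b) x = t} := by
  classical
  conv_lhs => rw [← Fintype.card_fin b]
  let f : Fin b → {x : Fin (2 * b) × Fin (2 * b) // adg (2 * b) x = t} := fun c =>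
    if h : t.val ≤ 2 * b - 1 then
      ⟨(⟨c.val, by omega⟩, ⟨t.val - c.val, by omega⟩), by
        apply Fin.ext; simp only [adg]; omega⟩
    else
      ⟨(⟨t.val - (2 * b - 1) + c.val, by omega⟩, ⟨2 * b - 1 - c.val, by omega⟩), by
        apply Fin.ext; simp only [adg]; omega⟩
  refine Fintype.card_le_of_injective f (fun c d hcd => ?_)
  simp only [f] at hcd
  split_ifs at hcd with h
  · have := congrArg (fun x => x.1.1.val) hcd
    exact Fin.ext this
  · have := congrArg (fun x => x.1.1.val) hcd
    simp only at this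
    exact Fin.ext (by omega)

theorem AG_card (b : ℕ) : (Nat.factorial b) ^ (2 * b) ≤ Fintype.card (AG (2 * b)) := by
  classical
  rw [DomMulAct.stabilizer_card (adg (2 * b))]
  have h1 : (Nat.factorial b) ^ (2 * b)
      = ∏ t ∈ univ.filter (fun t : Fin (2 * (2 * b)) => b ≤ t.val ∧ t.val < 3 * b),
        Nat.factorial b := by
    rw [Finset.prod_const]
    congr 1
    symm
    have h2 : (univ.filter (fun t : Fin (2 * (2 * b)) => b ≤ t.val ∧ t.val < 3 * b)).card
        = (univ : Finset (Fin (2 * b))).card := by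
      refine Finset.card_bij' (fun t ht => ⟨t.val - b, by
          rw [Finset.mem_filter] at ht; omega⟩) (fun t _ => ⟨t.val + b, by omega⟩) ?_ ?_ ?_ ?_
      · intro t _; exact Finset.mem_univ _
      · intro t _
        rw [Finset.mem_filter]
        refine ⟨Finset.mem_univ _, ?_, ?_⟩ <;> simp only <;> omega
      · intro t ht
        rw [Finset.mem_filter] at ht
        apply Fin.ext; simp only; omega
      · intro t _
        apply Fin.ext; simp only; omega
    rw [h2, Finset.card_univ, Fintype.card_fin]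
  rw [h1]
  refine le_trans (Finset.prod_le_prod' (fun t ht => ?_))
    (Finset.prod_le_prod_of_subset_of_one_le' (Finset.filter_subset _ _)
      (fun t _ _ => Nat.factorial_pos _))
  rw [Finset.mem_filter] at ht
  exact Nat.factorial_le (fiber_card t ht.2.1 ht.2.2)

/-- the size condition -/
theorem size_cond (C K : ℕ) : ∃ b0 : ℕ, ∀ b ≥ b0,
    C ^ (K * ((2 * b) * (2 * b))) < Fintype.card (AG (2 * b)) := by
  have h1 := FloorSemiring.tendsto_pow_div_factorial_atTop ((C : ℝ) ^ (2 * K))
  have h2 := (tendsto_order.1 h1).2 1 zero_lt_one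
  rw [Filter.eventually_atTop] at h2
  obtain ⟨b0, hb0⟩ := h2
  refine ⟨max b0 1, fun b hb => ?_⟩
  have h3 := hb0 b (le_trans (le_max_left _ _) hb)
  have hb1 : 1 ≤ b := le_trans (le_max_right _ _) hb
  have hpos : (0 : ℝ) < (Nat.factorial b : ℝ) := by exact_mod_cast Nat.factorial_pos b
  rw [div_lt_one hpos] at h3
  have h4 : (C ^ (2 * K)) ^ b < Nat.factorial b := by exact_mod_cast h3
  have h5 : ((C ^ (2 * K)) ^ b) ^ (2 * b) < (Nat.factorial b) ^ (2 * b) :=
    Nat.pow_lt_pow_left h4 (by omega)
  refine lt_of_lt_of_le ?_ (AG_card b)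
  refine lt_of_eq_of_lt ?_ h5
  rw [← pow_mul, ← pow_mul]
  congr 1
  ring

end Pool.PI34.Super
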