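import Mathlib

/-!
PI34, E-block, file 1: signs and the signed action of `Perm ι` on functions on words.
-/

set_option linter.unusedSectionVars false
set_option linter.unusedSimpArgs false

namespace Pool.PI34.Super

open Equiv Finset

/-- Letters: `k` even letters and `l` odd letters. -/
abbrev Lt (k l : ℕ) := Fin k ⊕ Fin l

/-- Parity of a letter (`true` = odd). -/
abbrev odd {k l : ℕ} (c : Lt k l) : Bool := c.isRight

/-- Pairs of positions in increasing order. -/
def prs (ι : Type*) [Fintype ι] [LinearOrder ι] : Finset (ι × ι) :=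
  univ.filter (fun p => p.1 < p.2)

section signs

variable {ι : Type*} [Fintype ι] [LinearOrder ι]

theorem mem_prs {p : ι × ι} : p ∈ prs ι ↔ p.1 < p.2 := by simp [prs]

theorem prod_prs_perm {M : Type*} [CommMonoid M] (F : ι → ι → M)
    (hF : ∀ i j, F i j = F j i) (τ : Perm ι) :
    ∏ p ∈ prs ι, F (τ p.1) (τ p.2) = ∏ p ∈ prs ι, F p.1 p.2 := by
  classical
  refine Finset.prod_bij'
    (fun p _ => if τ p.1 < τ p.2 then (τ p.1, τ p.2) else (τ p.2, τ p.1))
    (fun p _ => if τ.symm p.1 < τ.symm p.2 then (τ.symm p.1, τ.symm p.2)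
      else (τ.symm p.2, τ.symm p.1)) ?_ ?_ ?_ ?_ ?_
  · intro p hp
    rw [mem_prs] at hp
    by_cases h : τ p.1 < τ p.2
    · simp only [h, if_true, mem_prs]
    · simp only [h, if_false, mem_prs]
      exact lt_of_le_of_ne (not_lt.1 h) (fun e => hp.ne' (τ.injective e))
  · intro p hp
    rw [mem_prs] at hp
    by_cases h : τ.symm p.1 < τ.symm p.2
    · simp only [h, if_true, mem_prs]
    · simp only [h, if_false, mem_prs]
      exact lt_of_le_of_ne (not_lt.1 h) (fun e => hp.ne' (τ.symm.injective e))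
  · intro p hp
    rw [mem_prs] at hp
    by_cases h : τ p.1 < τ p.2
    · simp [h, hp]
    · have : ¬ p.2 < p.1 := not_lt.2 hp.le
      simp [h, this]
  · intro p hp
    rw [mem_prs] at hp
    by_cases h : τ.symm p.1 < τ.symm p.2
    · simp [h, hp]
    · have : ¬ p.2 < p.1 := not_lt.2 hp.le
      simp [h, this]
  · intro p hp
    by_cases h : τ p.1 < τ p.2
    · simp [h]
    · simp only [h, if_false]
      exact hF _ _

/-- `H σ i j = 1` if `σ` keeps the order of `i, j`, and `-1` otherwise. -/
def H (σ : Perm ι) (i j : ι) : ℚ := if (i < j ↔ σ i < σ j) then 1 else -1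

theorem H_symm (σ : Perm ι) (i j : ι) : H σ i j = H σ j i := by
  rcases lt_trichotomy i j with h | h | h
  · have h1 : σ i ≠ σ j := fun e => h.ne (σ.injective e)
    rcases lt_or_gt_of_ne h1 with h2 | h2
    · simp [H, h, h.le, h2, h2.le, not_lt.2 h.le, not_lt.2 h2.le]
    · simp [H, h, h.le, h2, h2.le, not_lt.2 h.le, not_lt.2 h2.le]
  · rw [h]
  · have h1 : σ i ≠ σ j := fun e => h.ne' (σ.injective e)
    rcases lt_or_gt_of_ne h1 with h2 | h2
    · simp [H, h, h.le, h2, h2.le, not_lt.2 h.le, not_lt.2 h2.le]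
    · simp [H, h, h.le, h2, h2.le, not_lt.2 h.le, not_lt.2 h2.le]

theorem H_mul (σ τ : Perm ι) (i j : ι) : H (σ * τ) i j = H σ (τ i) (τ j) * H τ i j := by
  unfold H
  simp only [Perm.mul_apply]
  by_cases h1 : i < j <;> by_cases h2 : τ i < τ j <;> by_cases h3 : σ (τ i) < σ (τ j) <;>
    simp [h1, h2, h3]

theorem H_one (i j : ι) : H (1 : Perm ι) i j = 1 := by simp [H]

/-- The sign of `σ` on the odd positions (with parity vector `p`). -/
def eps (σ : Perm ι) (p : ι → Bool) : ℚ :=
  ∏ q ∈ prs ι, if p q.1 && p q.2 then H σ q.1 q.2 else 1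

theorem eps_mul (σ τ : Perm ι) (p : ι → Bool) :
    eps (σ * τ) p = eps σ (fun i => p (τ.symm i)) * eps τ p := by
  have h := prod_prs_perm (fun i j => if p (τ.symm i) && p (τ.symm j) then H σ i j else 1)
    (fun i j => by rw [H_symm, Bool.and_comm]) τ
  unfold eps
  rw [← h, ← Finset.prod_mul_distrib]
  refine Finset.prod_congr rfl (fun q _ => ?_)
  simp only [Equiv.symm_apply_apply]
  by_cases hq : (p q.1 && p q.2) = true
  · simp only [hq, if_true, H_mul]
  · simp [hq]

theorem eps_one (p : ι → Bool) : eps (1 : Perm ι) p = 1 := by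
  unfold eps
  exact Finset.prod_eq_one (fun q _ => by simp [H_one])

theorem H_sq (σ : Perm ι) (i j : ι) : H σ i j * H σ i j = 1 := by
  unfold H; split_ifs <;> norm_num

theorem eps_sq (σ : Perm ι) (p : ι → Bool) : eps σ p * eps σ p = 1 := by
  unfold eps
  rw [← Finset.prod_mul_distrib]
  refine Finset.prod_eq_one (fun q _ => ?_)
  split_ifs
  · exact H_sq _ _ _
  · norm_num

end signs

section action

variable (k l : ℕ) (ι : Type*) [Fintype ι] [LinearOrder ι]

/-- The tensor power as functions on words. -/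
abbrev W := (ι → Lt k l) → ℚ

variable {k l ι}

/-- Parity vector of a word. -/
def pv (w : ι → Lt k l) : ι → Bool := fun i => odd (w i)

/-- The signed action of a permutation. -/
def rhoFun (σ : Perm ι) : W k l ι →ₗ[ℚ] W k l ι where
  toFun f := fun w => eps σ (pv (w ∘ σ)) * f (w ∘ σ)
  map_add' f g := by funext w; simp [mul_add]
  map_smul' c f := by funext w; simp; ring

theorem rhoFun_apply (σ : Perm ι) (f : W k l ι) (w : ι → Lt k l) :
    rhoFun σ f w = eps σ (pv (w ∘ σ)) * f (w ∘ σ) := rfl

variable (k l ι)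

/-- The signed action as a representation. -/
def rho : Perm ι →* Module.End ℚ (W k l ι) where
  toFun := rhoFun
  map_one' := by
    apply LinearMap.ext; intro f; funext w
    simp [rhoFun_apply, eps_one]
  map_mul' σ τ := by
    apply LinearMap.ext; intro f; funext w
    simp only [Module.End.mul_apply, rhoFun_apply]
    have h1 : w ∘ ⇑(σ * τ) = (w ∘ σ) ∘ τ := by funext i; simp
    rw [h1, eps_mul]
    have h2 : (fun i => pv ((w ∘ σ) ∘ τ) (τ.symm i)) = pv (w ∘ σ) := by
      funext i; simp [pv]
    rw [h2]; ring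

/-- The action of the group algebra. -/
noncomputable def act : MonoidAlgebra ℚ (Perm ι) →ₐ[ℚ] Module.End ℚ (W k l ι) :=
  MonoidAlgebra.lift ℚ _ _ (rho k l ι)

/-- The ideal `K(k|l)`: elements of the group algebra acting by zero. -/
noncomputable def K : Set (MonoidAlgebra ℚ (Perm ι)) := {y | act k l ι y = 0}

variable {k l ι}

theorem rho_apply (σ : Perm ι) (f : W k l ι) (w : ι → Lt k l) :
    rho k l ι σ f w = eps σ (pv (w ∘ σ)) * f (w ∘ σ) := rfl

theorem act_single (σ : Perm ι) (a : ℚ) :
    act k l ι (MonoidAlgebra.single σ a) = a • rho k l ι σ := by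
  simp [act, MonoidAlgebra.lift_single]

theorem act_of (σ : Perm ι) :
    act k l ι (MonoidAlgebra.of ℚ _ σ) = rho k l ι σ := by
  simp [act]

end action

end Pool.PI34.Super
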