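import Pool.Agent.LibPI34.Super1

/-!
PI34, E-block, file 2: the operators `E_ab` on words, their relations, adjointness.
-/

set_option linter.unusedSectionVars false
set_option linter.unusedSimpArgs false

namespace Pool.PI34.Super

open Equiv Finset

variable {k l : ℕ}

/-- The sign which `E_ab` picks up when it passes the letter `c`. -/
def eta (a b c : Lt k l) : ℚ := if (odd a != odd b) && odd c then -1 else 1

theorem eta_sq (a b c : Lt k l) : eta a b c * eta a b c = 1 := by
  unfold eta; split_ifs <;> norm_num

theorem eta_comm (a b c : Lt k l) : eta a b c = eta b a c := by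
  unfold eta
  cases odd a <;> cases odd b <;> cases odd c <;> simp

theorem eta_mul (a b d c : Lt k l) : eta a b c * eta b d c = eta a d c := by
  unfold eta
  cases odd a <;> cases odd b <;> cases odd d <;> cases odd c <;> simp

theorem eta_self (a c : Lt k l) : eta a a c = 1 := by
  unfold eta; simp

/-- The sign for exchanging `E_ab` and `E_cd`. -/
def dd (a b c d : Lt k l) : ℚ := if (odd a != odd b) && (odd c != odd d) then -1 else 1

theorem dd_sq (a b c d : Lt k l) : dd a b c d * dd a b c d = 1 := by
  unfold dd; split_ifs <;> norm_num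

theorem dd_symm (a b c d : Lt k l) : dd a b c d = dd c d a b := by
  unfold dd; rw [Bool.and_comm]

theorem eta_eta (a b c d : Lt k l) : eta a b c * eta a b d = dd a b c d := by
  unfold eta dd
  cases odd a <;> cases odd b <;> cases odd d <;> cases odd c <;> simp

variable {ι : Type*} [Fintype ι] [LinearOrder ι]

/-- The sign of `E_ab` acting at position `i`. -/
def bsg (a b : Lt k l) (w : ι → Lt k l) (i : ι) : ℚ :=
  ∏ j ∈ univ.filter (· < i), eta a b (w j)

theorem bsg_sq (a b : Lt k l) (w : ι → Lt k l) (i : ι) : bsg a b w i * bsg a b w i = 1 := by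
  unfold bsg
  rw [← Finset.prod_mul_distrib]
  exact Finset.prod_eq_one (fun j _ => eta_sq a b (w j))

theorem bsg_comm (a b : Lt k l) (w : ι → Lt k l) (i : ι) : bsg a b w i = bsg b a w i := by
  unfold bsg
  exact Finset.prod_congr rfl (fun j _ => eta_comm a b (w j))

theorem bsg_mul (a b d : Lt k l) (w : ι → Lt k l) (i : ι) :
    bsg a b w i * bsg b d w i = bsg a d w i := by
  unfold bsg
  rw [← Finset.prod_mul_distrib]
  exact Finset.prod_congr rfl (fun j _ => eta_mul a b d (w j))

theorem bsg_self (a : Lt k l) (w : ι → Lt k l) (i : ι) : bsg a a w i = 1 := by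
  unfold bsg
  exact Finset.prod_eq_one (fun j _ => eta_self a (w j))

theorem bsg_update_same (a b c : Lt k l) (w : ι → Lt k l) (i : ι) :
    bsg a b (Function.update w i c) i = bsg a b w i := by
  unfold bsg
  refine Finset.prod_congr rfl (fun j hj => ?_)
  rw [Finset.mem_filter] at hj
  rw [Function.update_of_ne hj.2.ne]

theorem bsg_update_lt (a b c : Lt k l) (w : ι → Lt k l) {i j : ι} (h : i < j) :
    bsg a b (Function.update w i c) j = bsg a b w j * (eta a b (w i) * eta a b c) := by
  unfold bsg
  have hi : i ∈ univ.filter (· < j) := by simp [h]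
  rw [← Finset.mul_prod_erase _ _ hi, ← Finset.mul_prod_erase _ _ hi]
  rw [Function.update_self]
  have : ∏ x ∈ (univ.filter (· < j)).erase i, eta a b (Function.update w i c x)
      = ∏ x ∈ (univ.filter (· < j)).erase i, eta a b (w x) := by
    refine Finset.prod_congr rfl (fun x hx => ?_)
    rw [Function.update_of_ne (Finset.ne_of_mem_erase hx)]
  rw [this]
  linear_combination (-(eta a b c) * ∏ x ∈ (univ.filter (· < j)).erase i, eta a b (w x)) *
    eta_sq a b (w i)

theorem bsg_update_gt (a b c : Lt k l) (w : ι → Lt k l) {i j : ι} (h : j < i) :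
    bsg a b (Function.update w i c) j = bsg a b w j := by
  unfold bsg
  refine Finset.prod_congr rfl (fun x hx => ?_)
  rw [Finset.mem_filter] at hx
  rw [Function.update_of_ne (hx.2.trans h).ne]

/-- `E_ab` at position `i`. -/
def eop (a b : Lt k l) (i : ι) : Module.End ℚ (W k l ι) where
  toFun f := fun w => if w i = a then bsg a b w i * f (Function.update w i b) else 0
  map_add' f g := by funext w; simp only [Pi.add_apply]; split_ifs <;> ring
  map_smul' c f := by
    funext w; simp only [Pi.smul_apply, smul_eq_mul, RingHom.id_apply]; split_ifs <;> ring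

theorem eop_apply (a b : Lt k l) (i : ι) (f : W k l ι) (w : ι → Lt k l) :
    eop a b i f w = if w i = a then bsg a b w i * f (Function.update w i b) else 0 := rfl

theorem eop_comm (a b c d : Lt k l) {i j : ι} (hij : i ≠ j) :
    eop a b i * eop c d j = dd a b c d • (eop c d j * eop a b i) := by
  apply LinearMap.ext; intro f; funext w
  simp only [Module.End.mul_apply, LinearMap.smul_apply, Pi.smul_apply, smul_eq_mul, eop_apply]
  rw [Function.update_of_ne hij.symm, Function.update_of_ne hij]
  by_cases h1 : w i = a
  · by_cases h2 : w j = c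
    · simp only [h1, h2, if_true]
      rw [Function.update_comm hij.symm]
      rcases lt_or_gt_of_ne hij with h | h
      · rw [bsg_update_lt c d b w h, bsg_update_gt a b d w h, h1, eta_eta c d a b, dd_symm]
        ring
      · rw [bsg_update_gt c d b w h, bsg_update_lt a b d w h, h2, eta_eta a b c d]
        linear_combination (-(bsg a b w i * bsg c d w j *
          f (Function.update (Function.update w i b) j d))) * dd_sq a b c d
    · simp [h2]
  · simp [h1]

theorem eop_mul (a b d : Lt k l) (i : ι) :
    eop a b i * eop b d i = (eop a d i : Module.End ℚ (W k l ι)) := by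
  apply LinearMap.ext; intro f; funext w
  simp only [Module.End.mul_apply, eop_apply]
  rw [Function.update_self, if_pos rfl, bsg_update_same, Function.update_idem]
  by_cases h1 : w i = a
  · simp only [h1, if_true]
    rw [← bsg_mul a b d w i]; ring
  · simp [h1]

theorem eop_mul_ne (a b c d : Lt k l) (i : ι) (h : b ≠ c) :
    eop a b i * eop c d i = (0 : Module.End ℚ (W k l ι)) := by
  apply LinearMap.ext; intro f; funext w
  simp only [Module.End.mul_apply, eop_apply]
  rw [Function.update_self, if_neg h]
  simp

theorem eop_mul' (a b c d : Lt k l) (i : ι) :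
    eop a b i * eop c d i = (if b = c then eop a d i else 0 : Module.End ℚ (W k l ι)) := by
  split_ifs with h
  · subst h; exact eop_mul a b d i
  · exact eop_mul_ne a b c d i h

/-- The sum of `E_ab` over the positions in `B`. -/
def EB (B : Finset ι) (a b : Lt k l) : Module.End ℚ (W k l ι) := ∑ i ∈ B, eop a b i

/-- The operator `E_ab`. -/
def EE (a b : Lt k l) : Module.End ℚ (W k l ι) := EB univ a b

theorem EB_comm (B : Finset ι) (a b c d : Lt k l) :
    EB B a b * EB B c d = dd a b c d • (EB B c d * EB B a b)
      + (if b = c then EB B a d else 0) - dd a b c d • (if d = a then EB B c b else 0) := by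
  classical
  have h1 : EB B a b * EB B c d = ∑ i ∈ B, ∑ j ∈ B, eop a b i * eop c d j := by
    unfold EB; rw [Finset.sum_mul_sum]
  have h2 : EB B c d * EB B a b = ∑ i ∈ B, ∑ j ∈ B, eop c d j * eop a b i := by
    unfold EB; rw [Finset.sum_mul_sum, Finset.sum_comm]
  have h3 : ∀ i ∈ B, ∀ j ∈ B, eop a b i * eop c d j = dd a b c d • (eop c d j * eop a b i)
      + (if i = j then ((if b = c then eop a d i else 0)
        - dd a b c d • (if d = a then eop c b i else 0)) else 0) := by
    intro i _ j _
    by_cases hij : i = j
    · subst hij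
      rw [if_pos rfl, eop_mul', eop_mul']
      abel
    · rw [if_neg hij, eop_comm a b c d hij, add_zero]
  rw [h1, h2, Finset.sum_congr rfl (fun i hi => Finset.sum_congr rfl (fun j hj => h3 i hi j hj))]
  simp only [Finset.sum_add_distrib, Finset.smul_sum, Finset.sum_ite_eq]
  rw [Finset.sum_congr rfl (fun i hi => if_pos hi)]
  rw [Finset.sum_sub_distrib, add_sub_assoc]
  congr 2
  · unfold EB; split_ifs <;> simp
  · unfold EB; split_ifs <;> simp [Finset.smul_sum]

/-- The standard inner product. -/
def ip (f g : W k l ι) : ℚ := ∑ w, f w * g w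

theorem eop_adj (a b : Lt k l) (i : ι) (f g : W k l ι) :
    ip (eop a b i f) g = ip f (eop b a i g) := by
  classical
  unfold ip
  have h1 : ∀ w, eop a b i f w * g w = if w i = a then
      bsg a b w i * f (Function.update w i b) * g w else 0 := by
    intro w; rw [eop_apply]; split_ifs <;> ring
  have h2 : ∀ w, f w * eop b a i g w = if w i = b then
      bsg b a w i * f w * g (Function.update w i a) else 0 := by
    intro w; rw [eop_apply]; split_ifs <;> ring
  simp only [h1, h2]
  rw [← Finset.sum_filter, ← Finset.sum_filter]
  refine Finset.sum_bij' (fun w _ => Function.update w i b) (fun w _ => Function.update w i a)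
    ?_ ?_ ?_ ?_ ?_
  · intro w hw; simp
  · intro w hw; simp
  · intro w hw
    rw [Finset.mem_filter] at hw
    rw [Function.update_idem, ← hw.2, Function.update_eq_self]
  · intro w hw
    rw [Finset.mem_filter] at hw
    rw [Function.update_idem, ← hw.2, Function.update_eq_self]
  · intro w hw
    rw [Finset.mem_filter] at hw
    rw [Function.update_idem, bsg_update_same, bsg_comm b a]
    congr 1
    rw [← hw.2, Function.update_eq_self]

theorem EB_adj (B : Finset ι) (a b : Lt k l) (f g : W k l ι) :
    ip (EB B a b f) g = ip f (EB B b a g) := by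
  have h1 : ip (EB B a b f) g = ∑ i ∈ B, ip (eop a b i f) g := by
    unfold ip EB
    rw [Finset.sum_comm]
    refine Finset.sum_congr rfl (fun w _ => ?_)
    rw [LinearMap.sum_apply, Finset.sum_apply, Finset.sum_mul]
  have h2 : ip f (EB B b a g) = ∑ i ∈ B, ip f (eop b a i g) := by
    unfold ip EB
    rw [Finset.sum_comm]
    refine Finset.sum_congr rfl (fun w _ => ?_)
    rw [LinearMap.sum_apply, Finset.sum_apply, Finset.mul_sum]
  rw [h1, h2]
  exact Finset.sum_congr rfl (fun i _ => eop_adj a b i f g)

theorem ip_self_ne {f : W k l ι} (hf : f ≠ 0) : ip f f ≠ 0 := by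
  intro h
  apply hf
  unfold ip at h
  rw [Finset.sum_eq_zero_iff_of_nonneg (fun w _ => mul_self_nonneg _)] at h
  funext w
  exact mul_self_eq_zero.1 (h w (mem_univ w))

section conj

theorem prod_prs_single {M : Type*} [CommMonoid M] (i : ι) (F : ι → ι → M)
    (hF : ∀ x y, F x y = F y x) (h1 : ∀ x y, x ≠ i → y ≠ i → F x y = 1) :
    ∏ q ∈ prs ι, F q.1 q.2 = ∏ j ∈ univ.erase i, F i j := by
  classical
  have h2 : ∏ q ∈ prs ι, F q.1 q.2 = ∏ q ∈ (prs ι).filter (fun q => q.1 = i ∨ q.2 = i),
      F q.1 q.2 := by
    rw [Finset.prod_filter]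
    refine Finset.prod_congr rfl (fun q _ => ?_)
    split_ifs with h
    · rfl
    · push Not at h
      exact h1 _ _ h.1 h.2
  rw [h2]
  refine Finset.prod_bij' (fun q _ => if q.1 = i then q.2 else q.1)
    (fun j _ => if i < j then (i, j) else (j, i)) ?_ ?_ ?_ ?_ ?_
  · intro q hq
    rw [Finset.mem_filter, mem_prs] at hq
    simp only [Finset.mem_erase, Finset.mem_univ, and_true]
    split_ifs with h
    · rw [← h]; exact hq.1.ne'
    · exact h
  · intro j hj
    rw [Finset.mem_erase] at hj
    rw [Finset.mem_filter, mem_prs]
    split_ifs with h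
    · exact ⟨h, Or.inl rfl⟩
    · exact ⟨lt_of_le_of_ne (not_lt.1 h) hj.1, Or.inr rfl⟩
  · intro q hq
    rw [Finset.mem_filter, mem_prs] at hq
    by_cases h : q.1 = i
    · simp only [h, if_true]
      have : i < q.2 := by rw [← h]; exact hq.1
      rw [if_pos this]
      exact Prod.ext h.symm rfl
    · simp only [h, if_false]
      have h3 : q.2 = i := by tauto
      have : ¬ i < q.1 := by rw [← h3]; exact not_lt.2 hq.1.le
      rw [if_neg this]
      exact Prod.ext rfl h3.symm
  · intro j hj
    rw [Finset.mem_erase] at hj
    by_cases h : i < j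
    · simp [h]
    · simp only [h, if_false]
      rw [if_neg hj.1]
  · intro q hq
    rw [Finset.mem_filter, mem_prs] at hq
    by_cases h : q.1 = i
    · simp [h]
    · have h3 : q.2 = i := by tauto
      simp only [h, if_false]
      rw [h3, hF]

theorem rho_eop (σ : Perm ι) (a b : Lt k l) (i : ι) :
    rho k l ι σ * eop a b i = eop a b (σ i) * rho k l ι σ := by
  classical
  apply LinearMap.ext; intro f; funext w
  simp only [Module.End.mul_apply, rho_apply, eop_apply, Function.comp_apply]
  by_cases h1 : w (σ i) = a
  swap
  · simp [h1]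
  simp only [h1, if_true]
  have h2 : Function.update w (σ i) b ∘ σ = Function.update (w ∘ σ) i b := by
    funext j
    by_cases hj : j = i
    · subst hj; simp
    · simp [Function.update_of_ne hj, Function.update_of_ne (fun e => hj (σ.injective e))]
  rw [h2]
  set u := w ∘ σ with hu
  have hui : u i = a := by rw [hu]; exact h1
  set P : ℚ := ∏ j ∈ univ.erase i, if (odd a != odd b) && odd (u j) then H σ i j else 1 with hP
  have e1 : eps σ (pv u) * eps σ (pv (Function.update u i b)) = P := by
    unfold eps
    rw [← Finset.prod_mul_distrib]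
    rw [prod_prs_single i (fun x y => (if pv u x && pv u y then H σ x y else 1) *
      (if pv (Function.update u i b) x && pv (Function.update u i b) y then H σ x y else 1))]
    · rw [hP]
      refine Finset.prod_congr rfl (fun j hj => ?_)
      rw [Finset.mem_erase] at hj
      simp only [pv, Function.update_self, Function.update_of_ne hj.1, hui]
      have := H_sq σ i j
      cases odd a <;> cases odd b <;> cases odd (u j) <;> simp [this]
    · intro x y
      rw [H_symm, Bool.and_comm, Bool.and_comm (pv (Function.update u i b) x)]
    · intro x y hx hy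
      have e5 : pv (Function.update u i b) x = pv u x := by
        simp only [pv, Function.update_of_ne hx]
      have e6 : pv (Function.update u i b) y = pv u y := by
        simp only [pv, Function.update_of_ne hy]
      rw [e5, e6]
      have := H_sq σ x y
      by_cases hc : (pv u x && pv u y) = true
      · rw [if_pos hc, this]
      · rw [if_neg hc, one_mul]
  have e2 : bsg a b u i * bsg a b w (σ i) = P := by
    unfold bsg
    have e3 : ∏ j ∈ univ.filter (· < σ i), eta a b (w j)
        = ∏ j ∈ univ.filter (fun j => σ j < σ i), eta a b (u j) := by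
      refine Finset.prod_bij' (fun j _ => σ.symm j) (fun j _ => σ j) ?_ ?_ ?_ ?_ ?_
      · intro j hj; simpa using hj
      · intro j hj; simpa using hj
      · intro j hj; simp
      · intro j hj; simp
      · intro j hj; simp [hu]
    rw [e3, Finset.prod_filter, Finset.prod_filter, ← Finset.prod_mul_distrib, hP]
    rw [← Finset.mul_prod_erase univ _ (Finset.mem_univ i)]
    simp only [lt_irrefl, if_false, one_mul]
    refine Finset.prod_congr rfl (fun j hj => ?_)
    rw [Finset.mem_erase] at hj
    have hs := eta_sq a b (u j)
    have hne : σ j ≠ σ i := fun e => hj.1 (σ.injective e)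
    unfold H
    rcases lt_or_gt_of_ne hj.1 with h3 | h3 <;> rcases lt_or_gt_of_ne hne with h4 | h4
    · simp only [h3, h4, not_lt.2 h3.le, not_lt.2 h4.le, if_true, hs]; simp
    · simp only [h3, h4, not_lt.2 h3.le, not_lt.2 h4.le, if_true, if_false, mul_one]
      unfold eta; simp
    · simp only [h3, h4, not_lt.2 h3.le, not_lt.2 h4.le, if_true, if_false, one_mul]
      unfold eta; simp
    · simp only [h3, h4, not_lt.2 h3.le, not_lt.2 h4.le, if_false, mul_one]; simp
  have s1 := eps_sq σ (pv u)
  have s2 := eps_sq σ (pv (Function.update u i b))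
  have s3 := bsg_sq a b u i
  have s4 := bsg_sq a b w (σ i)
  have key : eps σ (pv u) * bsg a b u i
      = bsg a b w (σ i) * eps σ (pv (Function.update u i b)) := by
    calc eps σ (pv u) * bsg a b u i
        = eps σ (pv u) * bsg a b u i *
          (eps σ (pv (Function.update u i b)) * eps σ (pv (Function.update u i b))) := by
          rw [s2, mul_one]
      _ = (eps σ (pv u) * eps σ (pv (Function.update u i b))) * bsg a b u i *
          eps σ (pv (Function.update u i b)) := by ring
      _ = (bsg a b u i * bsg a b w (σ i)) * bsg a b u i *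
          eps σ (pv (Function.update u i b)) := by rw [e1, e2]
      _ = (bsg a b u i * bsg a b u i) * (bsg a b w (σ i) *
          eps σ (pv (Function.update u i b))) := by ring
      _ = _ := by rw [s3, one_mul]
  rw [← mul_assoc, ← mul_assoc, key]

theorem rho_EE (σ : Perm ι) (a b : Lt k l) :
    rho k l ι σ * EE a b = EE a b * rho k l ι σ := by
  unfold EE EB
  rw [Finset.mul_sum, Finset.sum_mul]
  rw [Finset.sum_congr rfl (fun i _ => rho_eop σ a b i)]
  exact Equiv.sum_comp σ (fun i => eop a b i * rho k l ι σ)

theorem act_EE (y : MonoidAlgebra ℚ (Perm ι)) (a b : Lt k l) :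
    act k l ι y * EE a b = EE a b * act k l ι y := by
  induction y using MonoidAlgebra.induction_on with
  | of g => rw [act_of]; exact rho_EE g a b
  | add x y hx hy => rw [map_add, add_mul, mul_add, hx, hy]
  | smul r x hx => rw [map_smul, smul_mul_assoc, hx, mul_smul_comm]

end conj

end Pool.PI34.Super
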