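import Pool.Agent.LibPI34.Super2

/-!
PI34, E-block, file 3: components with respect to the first strand, the formula for the
transpositions `(0 s)`.
-/

set_option linter.unusedSectionVars false
set_option linter.unusedSimpArgs false

namespace Pool.PI34.Super

open Equiv Finset

variable {k l : ℕ} {m : ℕ}

/-- The component of `u` with first letter `c`. -/
def comp (c : Lt k l) : W k l (Fin (m + 1)) →ₗ[ℚ] W k l (Fin m) where
  toFun u := fun w => u (Fin.cons c w)
  map_add' f g := rfl
  map_smul' c f := rfl

theorem comp_apply (c : Lt k l) (u : W k l (Fin (m + 1))) (w : Fin m → Lt k l) :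
    comp c u w = u (Fin.cons c w) := rfl

theorem ext_comp {u v : W k l (Fin (m + 1))} (h : ∀ c, comp c u = comp c v) : u = v := by
  funext w
  have h1 := congrFun (h (w 0)) (Fin.tail w)
  simpa [comp_apply, Fin.cons_self_tail] using h1

theorem prod_prs_succ {M : Type*} [CommMonoid M] (F : Fin (m + 1) × Fin (m + 1) → M) :
    ∏ q ∈ prs (Fin (m + 1)), F q
      = (∏ j : Fin m, F (0, j.succ)) * ∏ q ∈ prs (Fin m), F (q.1.succ, q.2.succ) := by
  unfold prs
  rw [Finset.prod_filter, Finset.prod_filter]
  rw [← Finset.univ_product_univ, ← Finset.univ_product_univ, Finset.prod_product,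
    Finset.prod_product, Fin.prod_univ_succ]
  congr 1
  · rw [Fin.prod_univ_succ]
    simp [Fin.succ_pos]
  · refine Finset.prod_congr rfl (fun i _ => ?_)
    rw [Fin.prod_univ_succ]
    simp [Fin.succ_lt_succ_iff]

/-- `(-1)^{|b||c|}`. -/
def pm (b c : Lt k l) : ℚ := if odd b && odd c then -1 else 1

theorem H_swap_zero (s j : Fin m) :
    H (swap (0 : Fin (m + 1)) s.succ) 0 j.succ = if j ≤ s then -1 else 1 := by
  unfold H
  rw [swap_apply_left]
  by_cases h : j = s
  · subst h; simp [Fin.succ_pos]
  · have h1 : swap (0 : Fin (m + 1)) s.succ j.succ = j.succ :=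
      swap_apply_of_ne_of_ne (Fin.succ_ne_zero j) (fun e => h (Fin.succ_injective _ e))
    rw [h1]
    by_cases h2 : j ≤ s
    · have : ¬ s < j := not_lt.2 h2
      simp [Fin.succ_pos, Fin.succ_lt_succ_iff, h2, this]
    · have : s < j := not_le.1 h2
      simp [Fin.succ_pos, Fin.succ_lt_succ_iff, h2, this]

theorem H_swap_succ (s i j : Fin m) (hij : i < j) :
    H (swap (0 : Fin (m + 1)) s.succ) i.succ j.succ = if j = s then -1 else 1 := by
  unfold H
  by_cases h : j = s
  · subst h
    have h1 : swap (0 : Fin (m + 1)) j.succ i.succ = i.succ :=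
      swap_apply_of_ne_of_ne (Fin.succ_ne_zero i) (fun e => hij.ne (Fin.succ_injective _ e))
    rw [h1, swap_apply_right]
    simp [Fin.succ_lt_succ_iff, hij]
  · have h1 : swap (0 : Fin (m + 1)) s.succ j.succ = j.succ :=
      swap_apply_of_ne_of_ne (Fin.succ_ne_zero j) (fun e => h (Fin.succ_injective _ e))
    rw [h1, if_neg h]
    by_cases h2 : i = s
    · subst h2
      rw [swap_apply_right]
      simp [Fin.succ_lt_succ_iff, hij, Fin.succ_pos]
    · have h3 : swap (0 : Fin (m + 1)) s.succ i.succ = i.succ :=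
        swap_apply_of_ne_of_ne (Fin.succ_ne_zero i) (fun e => h2 (Fin.succ_injective _ e))
      rw [h3]
      simp

theorem cons_comp_swap (c : Lt k l) (w : Fin m → Lt k l) (s : Fin m) :
    (Fin.cons c w : Fin (m + 1) → Lt k l) ∘ swap (0 : Fin (m + 1)) s.succ
      = (Fin.cons (w s) (Function.update w s c) : Fin (m + 1) → Lt k l) := by
  funext j
  refine Fin.cases ?_ (fun j => ?_) j
  · simp
  · by_cases h : j = s
    · subst h; simp
    · have h1 : swap (0 : Fin (m + 1)) s.succ j.succ = j.succ :=
        swap_apply_of_ne_of_ne (Fin.succ_ne_zero j) (fun e => h (Fin.succ_injective _ e))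
      simp [h1, Function.update_of_ne h]

theorem eps_swap_zero (w : Fin m → Lt k l) (s : Fin m) (c : Lt k l) :
    eps (swap (0 : Fin (m + 1)) s.succ)
      (pv (Fin.cons (w s) (Function.update w s c) : Fin (m + 1) → Lt k l))
      = pm (w s) c * bsg (w s) c w s := by
  classical
  unfold eps
  rw [prod_prs_succ]
  have h1 : ∏ j : Fin m, (if pv (Fin.cons (w s) (Function.update w s c) :
      Fin (m + 1) → Lt k l) (0 : Fin (m + 1)) && pv (Fin.cons (w s) (Function.update w s c) :
      Fin (m + 1) → Lt k l) j.succ then H (swap (0 : Fin (m + 1)) s.succ) 0 j.succ else 1)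
      = pm (w s) c * ∏ j ∈ univ.filter (· < s), pm (w s) (w j) := by
    have hs : s ∈ (univ : Finset (Fin m)) := Finset.mem_univ s
    rw [← Finset.mul_prod_erase univ _ hs]
    congr 1
    · rw [H_swap_zero]
      simp [pv, pm]
    · rw [Finset.prod_filter]
      rw [← Finset.mul_prod_erase univ _ hs]
      rw [if_neg (lt_irrefl s), one_mul]
      refine Finset.prod_congr rfl (fun j hj => ?_)
      rw [Finset.mem_erase] at hj
      rw [H_swap_zero]
      simp only [pv, Fin.cons_zero, Fin.cons_succ, Function.update_of_ne hj.1]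
      by_cases h2 : j < s
      · simp [h2, h2.le, pm]
      · have h3 : ¬ j ≤ s := fun h => h2 (lt_of_le_of_ne h hj.1)
        simp [h2, h3]
  have h2 : ∏ q ∈ prs (Fin m), (if pv (Fin.cons (w s) (Function.update w s c) :
      Fin (m + 1) → Lt k l) q.1.succ && pv (Fin.cons (w s) (Function.update w s c) :
      Fin (m + 1) → Lt k l) q.2.succ then H (swap (0 : Fin (m + 1)) s.succ) q.1.succ q.2.succ
      else 1) = ∏ j ∈ univ.filter (· < s), pm c (w j) := by
    have h3 : ∀ q ∈ prs (Fin m), (if pv (Fin.cons (w s) (Function.update w s c) :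
      Fin (m + 1) → Lt k l) q.1.succ && pv (Fin.cons (w s) (Function.update w s c) :
      Fin (m + 1) → Lt k l) q.2.succ then H (swap (0 : Fin (m + 1)) s.succ) q.1.succ q.2.succ
      else 1) = if q.2 = s then pm c (w q.1) else 1 := by
      intro q hq
      rw [mem_prs] at hq
      rw [H_swap_succ s q.1 q.2 hq]
      by_cases h4 : q.2 = s
      · have h5 : q.1 ≠ s := by rw [← h4]; exact hq.ne
        simp [pv, h4, pm, Function.update_of_ne h5, Bool.and_comm]
      · simp [h4]
    rw [Finset.prod_congr rfl h3, ← Finset.prod_filter]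
    refine Finset.prod_bij' (fun q _ => q.1) (fun j _ => (j, s)) ?_ ?_ ?_ ?_ ?_
    · intro q hq
      rw [Finset.mem_filter, mem_prs] at hq
      rw [Finset.mem_filter]
      exact ⟨Finset.mem_univ _, by rw [← hq.2]; exact hq.1⟩
    · intro j hj
      rw [Finset.mem_filter] at hj
      rw [Finset.mem_filter, mem_prs]
      exact ⟨hj.2, rfl⟩
    · intro q hq
      rw [Finset.mem_filter] at hq
      exact Prod.ext rfl hq.2.symm
    · intro j hj; rfl
    · intro q hq; rfl
  rw [h1, h2, mul_assoc, ← Finset.prod_mul_distrib]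
  congr 1
  unfold bsg
  refine Finset.prod_congr rfl (fun j _ => ?_)
  unfold pm eta
  cases odd (w s) <;> cases odd c <;> cases odd (w j) <;> simp

theorem comp_rho_swap (u : W k l (Fin (m + 1))) (s : Fin m) (c : Lt k l) :
    comp c (rho k l _ (swap (0 : Fin (m + 1)) s.succ) u)
      = ∑ b, pm b c • eop b c s (comp b u) := by
  classical
  funext w
  rw [comp_apply, rho_apply, cons_comp_swap, eps_swap_zero]
  rw [Finset.sum_apply, Finset.sum_eq_single (w s)]
  · simp only [Pi.smul_apply, smul_eq_mul, eop_apply, if_true, comp_apply]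
    ring
  · intro b _ hb
    simp only [Pi.smul_apply, smul_eq_mul, eop_apply]
    rw [if_neg (fun e => hb e.symm), mul_zero]
  · intro h; exact absurd (Finset.mem_univ _) h

/-- The sum of the transpositions `(0 s)`, `s ∈ B`. -/
noncomputable def XB (B : Finset (Fin m)) : MonoidAlgebra ℚ (Perm (Fin (m + 1))) :=
  ∑ s ∈ B, MonoidAlgebra.of ℚ _ (swap (0 : Fin (m + 1)) s.succ)

theorem comp_XB (B : Finset (Fin m)) (u : W k l (Fin (m + 1))) (c : Lt k l) :
    comp c (act k l _ (XB B) u) = ∑ b, pm b c • EB B b c (comp b u) := by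
  unfold XB
  rw [map_sum, LinearMap.sum_apply, map_sum]
  simp only [act_of, comp_rho_swap]
  rw [Finset.sum_comm]
  refine Finset.sum_congr rfl (fun b _ => ?_)
  unfold EB
  rw [LinearMap.sum_apply, Finset.smul_sum]

theorem comp_EE (a b c : Lt k l) (u : W k l (Fin (m + 1))) :
    comp c (EE a b u) = (if c = a then comp b u else 0) + eta a b c • EE a b (comp c u) := by
  unfold EE EB
  rw [LinearMap.sum_apply, Fin.sum_univ_succ, map_add]
  congr 1
  · funext w
    rw [comp_apply, eop_apply]
    have h1 : bsg a b (Fin.cons c w : Fin (m + 1) → Lt k l) 0 = 1 := by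
      unfold bsg
      refine Finset.prod_eq_one (fun j hj => ?_)
      rw [Finset.mem_filter] at hj
      exact absurd hj.2 (Fin.not_lt_zero j)
    rw [h1, Fin.cons_zero, one_mul]
    split_ifs
    · rw [comp_apply, Fin.update_cons_zero]
    · rfl
  · rw [map_sum, LinearMap.sum_apply, Finset.smul_sum]
    refine Finset.sum_congr rfl (fun s _ => ?_)
    funext w
    rw [comp_apply, Pi.smul_apply, smul_eq_mul, eop_apply, eop_apply, Fin.cons_succ]
    have h1 : bsg a b (Fin.cons c w : Fin (m + 1) → Lt k l) s.succ = eta a b c * bsg a b w s := by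
      unfold bsg
      rw [Finset.prod_filter, Finset.prod_filter, Fin.prod_univ_succ]
      simp [Fin.succ_lt_succ_iff, Fin.succ_pos]
    rw [h1, ← Fin.cons_update, comp_apply]
    split_ifs <;> ring

end Pool.PI34.Super
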