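import Pool.Agent.LibPI34.Super3

/-!
PI34, E-block, file 4: `X + k - l` is injective on `V ⊗ U ξ`.
-/

set_option linter.unusedSectionVars false
set_option linter.unusedSimpArgs false

namespace Pool.PI34.Super

open Equiv Finset

section gen

variable {V : Type*} [AddCommGroup V] [Module ℚ V]

/-- The smallest subspace containing `X` and stable under the operators in `S`. -/
def gen (S : Set (Module.End ℚ V)) (X : Submodule ℚ V) : Submodule ℚ V :=
  sInf {N | X ≤ N ∧ ∀ T ∈ S, ∀ v ∈ N, T v ∈ N}

theorem gen_le {S : Set (Module.End ℚ V)} {X N : Submodule ℚ V} (h1 : X ≤ N)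
    (h2 : ∀ T ∈ S, ∀ v ∈ N, T v ∈ N) : gen S X ≤ N := sInf_le ⟨h1, h2⟩

theorem le_gen (S : Set (Module.End ℚ V)) (X : Submodule ℚ V) : X ≤ gen S X :=
  le_sInf (fun _ h => h.1)

theorem gen_stable {S : Set (Module.End ℚ V)} {X : Submodule ℚ V} {T : Module.End ℚ V}
    (hT : T ∈ S) {v : V} (hv : v ∈ gen S X) : T v ∈ gen S X := by
  unfold gen at *
  rw [Submodule.mem_sInf] at *
  intro N hN
  exact hN.2 T hT v (hv N hN)

end gen

variable {k l m : ℕ}

/-- All operators `E_ab`. -/
def Sall (k l m : ℕ) : Set (Module.End ℚ (W k l (Fin m))) :=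
  {T | ∃ a b, T = EE a b}

/-- The operators replacing an odd letter by an even one. -/
def Sup (k l m : ℕ) : Set (Module.End ℚ (W k l (Fin m))) :=
  {T | ∃ (i : Fin k) (j : Fin l), T = EE (Sum.inl i) (Sum.inr j)}

/-- The operators replacing an even letter by an odd one. -/
def Sdn (k l m : ℕ) : Set (Module.End ℚ (W k l (Fin m))) :=
  {T | ∃ (i : Fin k) (j : Fin l), T = EE (Sum.inr j) (Sum.inl i)}

/-- `U ξ`. -/
def Ux (ξ : W k l (Fin m)) : Submodule ℚ (W k l (Fin m)) := gen (Sall k l m) (ℚ ∙ ξ)

/-- `U⁺ ξ`. -/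
def Mp (ξ : W k l (Fin m)) : Submodule ℚ (W k l (Fin m)) := gen (Sup k l m) (ℚ ∙ ξ)

/-- `U⁻ U⁺ ξ`. -/
def Qp (ξ : W k l (Fin m)) : Submodule ℚ (W k l (Fin m)) := gen (Sdn k l m) (Mp ξ)

theorem mem_Ux (ξ : W k l (Fin m)) : ξ ∈ Ux ξ :=
  le_gen _ _ (Submodule.mem_span_singleton_self ξ)

theorem Ux_stable {ξ v : W k l (Fin m)} (hv : v ∈ Ux ξ) (a b : Lt k l) : EE a b v ∈ Ux ξ :=
  gen_stable (S := Sall k l m) (T := EE a b) ⟨a, b, rfl⟩ hv

theorem Mp_up {ξ v : W k l (Fin m)} (hv : v ∈ Mp ξ) (i : Fin k) (j : Fin l) :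
    EE (Sum.inl i) (Sum.inr j) v ∈ Mp ξ :=
  gen_stable (S := Sup k l m) (T := EE (Sum.inl i) (Sum.inr j)) ⟨i, j, rfl⟩ hv

theorem Qp_dn {ξ v : W k l (Fin m)} (hv : v ∈ Qp ξ) (i : Fin k) (j : Fin l) :
    EE (Sum.inr j) (Sum.inl i) v ∈ Qp ξ :=
  gen_stable (S := Sdn k l m) (T := EE (Sum.inr j) (Sum.inl i)) ⟨i, j, rfl⟩ hv

theorem EE_comm_apply {ι : Type*} [Fintype ι] [LinearOrder ι] (a b c d : Lt k l)
    (v : W k l ι) :
    EE a b (EE c d v) = dd a b c d • EE c d (EE a b v)
      + (if b = c then EE a d v else 0) - dd a b c d • (if d = a then EE c b v else 0) := by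
  have h := LinearMap.congr_fun (EB_comm (univ : Finset ι) a b c d) v
  simp only [Module.End.mul_apply, LinearMap.add_apply, LinearMap.sub_apply,
    LinearMap.smul_apply] at h
  unfold EE
  rw [h]
  split_ifs <;> simp

theorem Mp_g0 {ξ : W k l (Fin m)} (h0 : ∀ a b : Lt k l, odd a = odd b → EE a b ξ ∈ (ℚ ∙ ξ))
    {v : W k l (Fin m)} (hv : v ∈ Mp ξ) (a b : Lt k l) (hab : odd a = odd b) :
    EE a b v ∈ Mp ξ := by
  let N : Submodule ℚ (W k l (Fin m)) :=
    { carrier := {v | v ∈ Mp ξ ∧ ∀ a b : Lt k l, odd a = odd b → EE a b v ∈ Mp ξ}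
      add_mem' := by
        rintro x y ⟨hx1, hx2⟩ ⟨hy1, hy2⟩
        exact ⟨Submodule.add_mem _ hx1 hy1, fun a b h => by
          rw [map_add]; exact Submodule.add_mem _ (hx2 a b h) (hy2 a b h)⟩
      zero_mem' := ⟨Submodule.zero_mem _, fun a b _ => by rw [map_zero]; exact Submodule.zero_mem _⟩
      smul_mem' := by
        rintro c x ⟨hx1, hx2⟩
        exact ⟨Submodule.smul_mem _ c hx1, fun a b h => by
          rw [map_smul]; exact Submodule.smul_mem _ c (hx2 a b h)⟩ }
  have hN : Mp ξ ≤ N := by
    refine gen_le ?_ ?_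
    · rw [Submodule.span_singleton_le_iff_mem]
      exact ⟨le_gen _ _ (Submodule.mem_span_singleton_self ξ),
        fun a b h => le_gen _ _ (h0 a b h)⟩
    · rintro T ⟨i, j, rfl⟩ v ⟨hv1, hv2⟩
      refine ⟨Mp_up hv1 i j, fun a b h => ?_⟩
      rw [EE_comm_apply]
      refine Submodule.sub_mem _ (Submodule.add_mem _ (Submodule.smul_mem _ _ ?_) ?_)
        (Submodule.smul_mem _ _ ?_)
      · exact Mp_up (hv2 a b h) i j
      · split_ifs with h2
        · subst h2
          rcases a with a | a
          · exact Mp_up hv1 a j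
          · simp at h
        · exact Submodule.zero_mem _
      · split_ifs with h2
        · subst h2
          rcases b with b | b
          · simp at h
          · exact Mp_up hv1 i b
        · exact Submodule.zero_mem _
  exact (hN hv).2 a b hab

theorem Qp_g0 {ξ : W k l (Fin m)} (h0 : ∀ a b : Lt k l, odd a = odd b → EE a b ξ ∈ (ℚ ∙ ξ))
    {v : W k l (Fin m)} (hv : v ∈ Qp ξ) (a b : Lt k l) (hab : odd a = odd b) :
    EE a b v ∈ Qp ξ := by
  let N : Submodule ℚ (W k l (Fin m)) :=
    { carrier := {v | v ∈ Qp ξ ∧ ∀ a b : Lt k l, odd a = odd b → EE a b v ∈ Qp ξ}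
      add_mem' := by
        rintro x y ⟨hx1, hx2⟩ ⟨hy1, hy2⟩
        exact ⟨Submodule.add_mem _ hx1 hy1, fun a b h => by
          rw [map_add]; exact Submodule.add_mem _ (hx2 a b h) (hy2 a b h)⟩
      zero_mem' := ⟨Submodule.zero_mem _, fun a b _ => by rw [map_zero]; exact Submodule.zero_mem _⟩
      smul_mem' := by
        rintro c x ⟨hx1, hx2⟩
        exact ⟨Submodule.smul_mem _ c hx1, fun a b h => by
          rw [map_smul]; exact Submodule.smul_mem _ c (hx2 a b h)⟩ }
  have hN : Qp ξ ≤ N := by
    refine gen_le ?_ ?_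
    · intro v hv
      exact ⟨le_gen _ _ hv, fun a b h => le_gen _ _ (Mp_g0 h0 hv a b h)⟩
    · rintro T ⟨i, j, rfl⟩ v ⟨hv1, hv2⟩
      refine ⟨Qp_dn hv1 i j, fun a b h => ?_⟩
      rw [EE_comm_apply]
      refine Submodule.sub_mem _ (Submodule.add_mem _ (Submodule.smul_mem _ _ ?_) ?_)
        (Submodule.smul_mem _ _ ?_)
      · exact Qp_dn (hv2 a b h) i j
      · split_ifs with h2
        · subst h2
          rcases a with a | a
          · simp at h
          · exact Qp_dn hv1 i a
        · exact Submodule.zero_mem _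
      · split_ifs with h2
        · subst h2
          rcases b with b | b
          · exact Qp_dn hv1 b j
          · simp at h
        · exact Submodule.zero_mem _
  exact (hN hv).2 a b hab

theorem Qp_g1 {ξ : W k l (Fin m)} (h0 : ∀ a b : Lt k l, odd a = odd b → EE a b ξ ∈ (ℚ ∙ ξ))
    {v : W k l (Fin m)} (hv : v ∈ Qp ξ) (i : Fin k) (j : Fin l) :
    EE (Sum.inl i) (Sum.inr j) v ∈ Qp ξ := by
  let N : Submodule ℚ (W k l (Fin m)) :=
    { carrier := {v | v ∈ Qp ξ ∧ ∀ (i : Fin k) (j : Fin l), EE (Sum.inl i) (Sum.inr j) v ∈ Qp ξ}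
      add_mem' := by
        rintro x y ⟨hx1, hx2⟩ ⟨hy1, hy2⟩
        exact ⟨Submodule.add_mem _ hx1 hy1, fun a b => by
          rw [map_add]; exact Submodule.add_mem _ (hx2 a b) (hy2 a b)⟩
      zero_mem' := ⟨Submodule.zero_mem _, fun a b => by rw [map_zero]; exact Submodule.zero_mem _⟩
      smul_mem' := by
        rintro c x ⟨hx1, hx2⟩
        exact ⟨Submodule.smul_mem _ c hx1, fun a b => by
          rw [map_smul]; exact Submodule.smul_mem _ c (hx2 a b)⟩ }
  have hN : Qp ξ ≤ N := by
    refine gen_le ?_ ?_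
    · intro v hv
      exact ⟨le_gen _ _ hv, fun a b => le_gen _ _ (Mp_up hv a b)⟩
    · rintro T ⟨i, j, rfl⟩ v ⟨hv1, hv2⟩
      refine ⟨Qp_dn hv1 i j, fun a b => ?_⟩
      rw [EE_comm_apply]
      refine Submodule.sub_mem _ (Submodule.add_mem _ (Submodule.smul_mem _ _ ?_) ?_)
        (Submodule.smul_mem _ _ ?_)
      · exact Qp_dn (hv2 a b) i j
      · split_ifs with h2
        · exact Qp_g0 h0 hv1 _ _ rfl
        · exact Submodule.zero_mem _
      · split_ifs with h2
        · exact Qp_g0 h0 hv1 _ _ rfl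
        · exact Submodule.zero_mem _
  exact (hN hv).2 i j

theorem Ux_le_Qp {ξ : W k l (Fin m)} (h0 : ∀ a b : Lt k l, odd a = odd b → EE a b ξ ∈ (ℚ ∙ ξ)) :
    Ux ξ ≤ Qp ξ := by
  refine gen_le ?_ ?_
  · exact (le_gen _ _).trans (le_gen _ _)
  · rintro T ⟨a, b, rfl⟩ v hv
    rcases a with a | a <;> rcases b with b | b
    · exact Qp_g0 h0 hv _ _ rfl
    · exact Qp_g1 h0 hv _ _
    · exact Qp_dn hv b a
    · exact Qp_g0 h0 hv _ _ rfl

/-- The number of occurrences of the letter `c`. -/
def cnt {ι : Type*} [Fintype ι] (c : Lt k l) (w : ι → Lt k l) : ℕ :=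
  (univ.filter (fun s => w s = c)).card

theorem EE_diag {ι : Type*} [Fintype ι] [LinearOrder ι] (c : Lt k l) (f : W k l ι)
    (w : ι → Lt k l) : EE c c f w = (cnt c w : ℚ) * f w := by
  unfold EE EB
  rw [LinearMap.sum_apply, Finset.sum_apply]
  have h : ∀ i ∈ (univ : Finset ι), eop c c i f w = if w i = c then f w else 0 := by
    intro i _
    rw [eop_apply, bsg_self]
    split_ifs with h
    · rw [← h, Function.update_eq_self, one_mul]
    · rfl
  rw [Finset.sum_congr rfl h, ← Finset.sum_filter, Finset.sum_const, nsmul_eq_mul]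
  rfl

theorem cnt_update_le {ι : Type*} [Fintype ι] [DecidableEq ι] (w : ι → Lt k l) (s : ι)
    (c b : Lt k l) (h : b ≠ c) : cnt c (Function.update w s b) ≤ cnt c w := by
  unfold cnt
  refine Finset.card_le_card (fun x hx => ?_)
  rw [Finset.mem_filter] at *
  refine ⟨hx.1, ?_⟩
  by_cases hxs : x = s
  · subst hxs; rw [Function.update_self] at hx; exact absurd hx.2 h
  · rw [Function.update_of_ne hxs] at hx; exact hx.2

/-- Words containing every even letter at least `l` times. -/
def Pl {k l m : ℕ} (w : Fin m → Lt k l) : Prop := ∀ i : Fin k, l ≤ cnt (Sum.inl i) w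

theorem Mp_supp {ξ : W k l (Fin m)} (hs : ∀ w, ξ w ≠ 0 → Pl w) {v : W k l (Fin m)}
    (hv : v ∈ Mp ξ) (w : Fin m → Lt k l) (hw : v w ≠ 0) : Pl w := by
  let N : Submodule ℚ (W k l (Fin m)) :=
    { carrier := {v | ∀ w, ¬ Pl w → v w = 0}
      add_mem' := by
        intro x y hx hy w hw
        rw [Pi.add_apply, hx w hw, hy w hw, add_zero]
      zero_mem' := fun w _ => rfl
      smul_mem' := by
        intro c x hx w hw
        rw [Pi.smul_apply, hx w hw, smul_zero] }
  have hN : Mp ξ ≤ N := by
    refine gen_le ?_ ?_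
    · rw [Submodule.span_singleton_le_iff_mem]
      intro w hw
      by_contra h
      exact hw (hs w h)
    · rintro T ⟨i, j, rfl⟩ v hv w hw
      unfold EE EB
      rw [LinearMap.sum_apply, Finset.sum_apply]
      refine Finset.sum_eq_zero (fun s _ => ?_)
      rw [eop_apply]
      split_ifs with h
      · rw [hv, mul_zero]
        intro hP
        exact hw (fun i' => (hP i').trans (cnt_update_le w s _ _ (by simp)))
      · rfl
  by_contra h
  exact hw (hN hv w h)

theorem ip_add_right {ι : Type*} [Fintype ι] [LinearOrder ι] (f g h : W k l ι) :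
    ip f (g + h) = ip f g + ip f h := by
  unfold ip; rw [← Finset.sum_add_distrib]
  exact Finset.sum_congr rfl (fun w _ => by rw [Pi.add_apply]; ring)

theorem ip_smul_right {ι : Type*} [Fintype ι] [LinearOrder ι] (c : ℚ) (f g : W k l ι) :
    ip f (c • g) = c * ip f g := by
  unfold ip; rw [Finset.mul_sum]
  exact Finset.sum_congr rfl (fun w _ => by rw [Pi.smul_apply, smul_eq_mul]; ring)

theorem ip_zero_right {ι : Type*} [Fintype ι] [LinearOrder ι] (f : W k l ι) :
    ip f 0 = 0 := by
  unfold ip; exact Finset.sum_eq_zero (fun w _ => by simp)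

theorem exists_supp {ξ : W k l (Fin m)}
    (h0 : ∀ a b : Lt k l, odd a = odd b → EE a b ξ ∈ (ℚ ∙ ξ))
    (hs : ∀ w, ξ w ≠ 0 → Pl w) {u : W k l (Fin m)} (hu : u ∈ Ux ξ) (hne : u ≠ 0)
    (hk : ∀ (i : Fin k) (j : Fin l), EE (Sum.inl i) (Sum.inr j) u = 0) :
    ∃ w, u w ≠ 0 ∧ Pl w := by
  by_contra hcon
  push Not at hcon
  let N : Submodule ℚ (W k l (Fin m)) :=
    { carrier := {v | ip u v = 0}
      add_mem' := by
        intro x y hx hy
        simp only [Set.mem_ofPred_eq] at *
        rw [ip_add_right, hx, hy, add_zero]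
      zero_mem' := ip_zero_right u
      smul_mem' := by
        intro c x hx
        simp only [Set.mem_ofPred_eq] at *
        rw [ip_smul_right, hx, mul_zero] }
  have hN : Qp ξ ≤ N := by
    refine gen_le ?_ ?_
    · intro v hv
      change ip u v = 0
      unfold ip
      refine Finset.sum_eq_zero (fun w _ => ?_)
      by_cases hw : v w = 0
      · rw [hw, mul_zero]
      · have h1 : Pl w := Mp_supp hs hv w hw
        have h2 : u w = 0 := by
          by_contra h3
          exact hcon w h3 h1
        rw [h2, zero_mul]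
    · rintro T ⟨i, j, rfl⟩ v hv
      change ip u (EE (Sum.inr j) (Sum.inl i) v) = 0
      unfold EE
      rw [← EB_adj]
      have := hk i j
      unfold EE at this
      rw [this]
      unfold ip
      exact Finset.sum_eq_zero (fun w _ => by simp)
  exact ip_self_ne hne (hN (Ux_le_Qp h0 hu))

/-- The order of the letters. -/
def idx (c : Lt k l) : ℕ := Sum.elim (fun i => i.val) (fun j => k + j.val) c

theorem idx_inj {a b : Lt k l} (h : idx a = idx b) : a = b := by
  rcases a with a | a <;> rcases b with b | b <;> simp only [idx, Sum.elim_inl, Sum.elim_inr] at h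
  · rw [Fin.ext h]
  · have := a.2; omega
  · have := b.2; omega
  · have : a.val = b.val := by omega
    rw [Fin.ext this]

/-- The height of a word. -/
def ht {ι : Type*} [Fintype ι] (w : ι → Lt k l) : ℕ := ∑ s, idx (w s)

theorem ht_update_lt {ι : Type*} [Fintype ι] [DecidableEq ι] (w : ι → Lt k l) (s : ι)
    (b : Lt k l) (h : idx (w s) < idx b) : ht w < ht (Function.update w s b) := by
  unfold ht
  refine Finset.sum_lt_sum (fun x _ => ?_) ⟨s, Finset.mem_univ s, by rw [Function.update_self]; exact h⟩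
  by_cases hx : x = s
  · subst hx; rw [Function.update_self]; exact h.le
  · rw [Function.update_of_ne hx]

theorem exists_hw {ι : Type*} [Fintype ι] [LinearOrder ι] (N : Submodule ℚ (W k l ι))
    (hst : ∀ a b : Lt k l, ∀ v ∈ N, EE a b v ∈ N) (n : ℕ) :
    ∀ u ∈ N, u ≠ 0 → (∀ w, u w ≠ 0 → ht w ≤ n) →
      ∃ v ∈ N, v ≠ 0 ∧ ∀ a b : Lt k l, idx a < idx b → EE a b v = 0 := by
  classical
  induction n with
  | zero =>
    intro u hu hne hh
    refine ⟨u, hu, hne, fun a b hab => ?_⟩
    funext w
    unfold EE EB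
    rw [LinearMap.sum_apply, Finset.sum_apply]
    refine Finset.sum_eq_zero (fun s _ => ?_)
    rw [eop_apply]
    split_ifs with h
    · have h1 : u (Function.update w s b) = 0 := by
        by_contra h2
        have h3 := hh _ h2
        have h4 := ht_update_lt w s b (by rw [h]; exact hab)
        omega
      rw [h1, mul_zero]
    · rfl
  | succ n ih =>
    intro u hu hne hh
    by_cases hall : ∀ a b : Lt k l, idx a < idx b → EE a b u = 0
    · exact ⟨u, hu, hne, hall⟩
    · push Not at hall
      obtain ⟨a, b, hab, h1⟩ := hall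
      refine ih (EE a b u) (hst a b u hu) h1 (fun w hw => ?_)
      by_contra hlt
      apply hw
      unfold EE EB
      rw [LinearMap.sum_apply, Finset.sum_apply]
      refine Finset.sum_eq_zero (fun s _ => ?_)
      rw [eop_apply]
      split_ifs with h
      · have h1 : u (Function.update w s b) = 0 := by
          by_contra h2
          have h3 := hh _ h2
          have h4 := ht_update_lt w s b (by rw [h]; exact hab)
          omega
        rw [h1, mul_zero]
      · rfl

/-- `t = X + k - l`. -/
noncomputable def tt (k l m : ℕ) : MonoidAlgebra ℚ (Perm (Fin (m + 1))) :=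
  XB univ + ((k : ℚ) - (l : ℚ)) • 1

/-- The subspace `V ⊗ U ξ`. -/
def Lx (ξ : W k l (Fin m)) : Submodule ℚ (W k l (Fin (m + 1))) where
  carrier := {u | ∀ c, comp c u ∈ Ux ξ}
  add_mem' := by
    intro x y hx hy c
    rw [map_add]; exact Submodule.add_mem _ (hx c) (hy c)
  zero_mem' := by
    intro c; rw [map_zero]; exact Submodule.zero_mem _
  smul_mem' := by
    intro a x hx c
    rw [map_smul]; exact Submodule.smul_mem _ a (hx c)

theorem Lx_EE {ξ : W k l (Fin m)} {u : W k l (Fin (m + 1))} (hu : u ∈ Lx ξ) (a b : Lt k l) :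
    EE a b u ∈ Lx ξ := by
  intro c
  rw [comp_EE]
  refine Submodule.add_mem _ ?_ (Submodule.smul_mem _ _ (Ux_stable (hu c) a b))
  split_ifs
  · exact hu b
  · exact Submodule.zero_mem _

theorem Lx_X {ξ : W k l (Fin m)} {u : W k l (Fin (m + 1))} (hu : u ∈ Lx ξ) :
    act k l _ (XB univ) u ∈ Lx ξ := by
  intro c
  rw [comp_XB]
  exact Submodule.sum_mem _ (fun b _ => Submodule.smul_mem _ _ (Ux_stable (hu b) b c))

theorem act_tt (u : W k l (Fin (m + 1))) :
    act k l _ (tt k l m) u = act k l _ (XB univ) u + ((k : ℚ) - (l : ℚ)) • u := by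
  unfold tt
  rw [map_add, map_smul, map_one]
  rfl

theorem Lx_tt {ξ : W k l (Fin m)} {u : W k l (Fin (m + 1))} (hu : u ∈ Lx ξ) :
    act k l _ (tt k l m) u ∈ Lx ξ := by
  rw [act_tt]
  exact Submodule.add_mem _ (Lx_X hu) (Submodule.smul_mem _ _ hu)

theorem pm_eta {b c : Lt k l} (h : idx b < idx c) :
    pm b c * eta b c b = if odd b then -1 else 1 := by
  rcases b with b | b <;> rcases c with c | c
  · simp [pm, eta]
  · simp [pm, eta]
  · exfalso
    simp only [idx, Sum.elim_inl, Sum.elim_inr] at h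
    have := c.2; omega
  · simp [pm, eta]

theorem tt_inj {ξ : W k l (Fin m)}
    (h0 : ∀ a b : Lt k l, odd a = odd b → EE a b ξ ∈ (ℚ ∙ ξ))
    (hs : ∀ w, ξ w ≠ 0 → Pl w) {u : W k l (Fin (m + 1))} (hu : u ∈ Lx ξ)
    (ht0 : act k l _ (tt k l m) u = 0) : u = 0 := by
  classical
  by_contra hne
  let N : Submodule ℚ (W k l (Fin (m + 1))) := Lx ξ ⊓ LinearMap.ker (act k l _ (tt k l m))
  have hst : ∀ a b : Lt k l, ∀ v ∈ N, EE a b v ∈ N := by
    rintro a b v ⟨hv1, hv2⟩
    refine ⟨Lx_EE hv1 a b, ?_⟩
    rw [SetLike.mem_coe, LinearMap.mem_ker] at *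
    have h := LinearMap.congr_fun (act_EE (tt k l m) a b) v
    simp only [Module.End.mul_apply] at h
    rw [h, hv2, map_zero]
  obtain ⟨v, hvN, hv0, hvr⟩ := exists_hw N hst (univ.sup ht) u
    ⟨hu, by rw [SetLike.mem_coe, LinearMap.mem_ker]; exact ht0⟩ hne
    (fun w _ => Finset.le_sup (Finset.mem_univ w))
  have hv1 : v ∈ Lx ξ := hvN.1
  have hv2 : act k l _ (tt k l m) v = 0 := by
    have := hvN.2; rw [SetLike.mem_coe, LinearMap.mem_ker] at this; exact this
  -- the maximal letter
  have hex : (univ.filter (fun c : Lt k l => comp c v ≠ 0)).Nonempty := by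
    by_contra h
    rw [Finset.not_nonempty_iff_eq_empty] at h
    apply hv0
    refine ext_comp (fun c => ?_)
    rw [map_zero]
    by_contra h2
    have : c ∈ univ.filter (fun c : Lt k l => comp c v ≠ 0) := by
      rw [Finset.mem_filter]; exact ⟨Finset.mem_univ _, h2⟩
    rw [h] at this
    exact absurd this (Finset.notMem_empty c)
  obtain ⟨c, hc1, hc2⟩ := Finset.exists_max_image _ idx hex
  rw [Finset.mem_filter] at hc1
  have hc : comp c v ≠ 0 := hc1.2
  have hbig : ∀ b, idx c < idx b → comp b v = 0 := by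
    intro b hb
    by_contra h
    have := hc2 b (by rw [Finset.mem_filter]; exact ⟨Finset.mem_univ _, h⟩)
    omega
  have heta : ∀ a b d : Lt k l, ∀ x : W k l (Fin m), eta a b d • x = 0 → x = 0 := by
    intro a b d x hx
    have := congrArg (fun y => eta a b d • y) hx
    simp only [smul_smul, eta_sq, one_smul, smul_zero] at this
    exact this
  have hr : ∀ a b, idx a < idx b → EE a b (comp c v) = 0 := by
    intro a b hab
    have h := comp_EE a b c v
    rw [hvr a b hab, map_zero] at h
    have h2 : (if c = a then comp b v else 0) = 0 := by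
      split_ifs with h3
      · exact hbig b (by rw [h3]; exact hab)
      · rfl
    rw [h2, zero_add] at h
    exact heta _ _ _ _ h.symm
  have hl : ∀ b, idx b < idx c → EE b c (comp b v) = -(eta b c b • comp c v) := by
    intro b hb
    have h := comp_EE b c b v
    rw [hvr b c hb, map_zero, if_pos rfl] at h
    have h2 := congrArg (fun y => eta b c b • y) h
    simp only [smul_add, smul_smul, eta_sq, one_smul, smul_zero] at h2
    exact (neg_eq_of_add_eq_zero_right h2.symm).symm
  have hX : comp c (act k l _ (XB univ) v) = ((l : ℚ) - (k : ℚ)) • comp c v := by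
    rw [act_tt] at hv2
    have := congrArg (comp c) hv2
    rw [map_add, map_smul, map_zero] at this
    rw [eq_neg_of_add_eq_zero_left this, ← neg_smul]
    congr 1; ring
  rw [comp_XB] at hX
  have hsum : ∀ b ∈ (univ : Finset (Lt k l)), pm b c • EB univ b c (comp b v)
      = (if idx b < idx c then (if odd b then (1 : ℚ) else -1) else 0) • comp c v
        + (if b = c then pm c c • EE c c (comp c v) else 0) := by
    intro b _
    have e : EB univ b c (comp b v) = EE b c (comp b v) := rfl
    rw [e]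
    rcases lt_trichotomy (idx b) (idx c) with h | h | h
    · have hbc : ¬ b = c := fun e => by rw [e] at h; exact lt_irrefl _ h
      rw [if_pos h, hl b h, if_neg hbc, add_zero,
        smul_neg, smul_smul, pm_eta h, ← neg_smul]
      congr 1
      split_ifs <;> norm_num
    · have := idx_inj h
      subst this
      rw [if_neg (lt_irrefl _), if_pos rfl, zero_smul, zero_add]
    · have hbc : ¬ b = c := fun e => by rw [e] at h; exact lt_irrefl _ h
      rw [if_neg (not_lt.2 h.le), if_neg hbc,
        hbig b h, map_zero, smul_zero, zero_smul, add_zero]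
  rw [Finset.sum_congr rfl hsum, Finset.sum_add_distrib, Finset.sum_ite_eq' univ c,
    if_pos (Finset.mem_univ c), ← Finset.sum_smul] at hX
  -- evaluate
  have heval : ∀ w, comp c v w ≠ 0 →
      (∑ b : Lt k l, if idx b < idx c then (if odd b then (1 : ℚ) else -1) else 0)
        + pm c c * (cnt c w : ℚ) = (l : ℚ) - (k : ℚ) := by
    intro w hw
    have h := congrFun hX w
    rw [Pi.add_apply, Pi.smul_apply, Pi.smul_apply, Pi.smul_apply, EE_diag] at h
    simp only [smul_eq_mul] at h
    refine mul_right_cancel₀ hw ?_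
    linear_combination h
  obtain ⟨w, hw1, hw2⟩ := exists_supp h0 hs (hv1 c) hc (fun i j => hr _ _ (by
    simp only [idx, Sum.elim_inl, Sum.elim_inr]
    have := i.2; omega))
  have hfin := heval w hw1
  rcases c with i | j
  · have h1 : (∑ b : Lt k l, if idx b < idx (Sum.inl i : Lt k l) then
        (if odd b then (1 : ℚ) else -1) else 0) = -(i.val : ℚ) := by
      rw [Fintype.sum_sum_type]
      have h2 : ∀ x : Fin l, (if idx (Sum.inr x : Lt k l) < idx (Sum.inl i : Lt k l) then
          (if odd (Sum.inr x : Lt k l) then (1 : ℚ) else -1) else 0) = 0 := by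
        intro x
        rw [if_neg]
        simp only [idx, Sum.elim_inl, Sum.elim_inr]
        have := i.2; omega
      rw [Finset.sum_eq_zero (fun x _ => h2 x), add_zero]
      have h3 : ∀ x : Fin k, (if idx (Sum.inl x : Lt k l) < idx (Sum.inl i : Lt k l) then
          (if odd (Sum.inl x : Lt k l) then (1 : ℚ) else -1) else 0)
          = if x < i then (-1 : ℚ) else 0 := by
        intro x
        simp only [idx, Sum.elim_inl, Fin.lt_def]
        simp
      rw [Finset.sum_congr rfl (fun x _ => h3 x), ← Finset.sum_filter, Finset.sum_const,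
        nsmul_eq_mul]
      have h4 : (univ.filter (fun x : Fin k => x < i)).card = i.val := by
        have : univ.filter (fun x : Fin k => x < i) = Finset.Iio i := by
          ext x; simp
        rw [this, Fin.card_Iio]
      rw [h4]; ring
    rw [h1] at hfin
    have h5 : pm (Sum.inl i : Lt k l) (Sum.inl i) = 1 := by simp [pm]
    rw [h5, one_mul] at hfin
    have h6 : (l : ℚ) ≤ (cnt (Sum.inl i : Lt k l) w : ℚ) := by exact_mod_cast hw2 i
    have h7 : ((i.val : ℕ) : ℚ) < (k : ℚ) := by exact_mod_cast i.2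
    linarith
  · have h1 : (∑ b : Lt k l, if idx b < idx (Sum.inr j : Lt k l) then
        (if odd b then (1 : ℚ) else -1) else 0) = -(k : ℚ) + (j.val : ℚ) := by
      rw [Fintype.sum_sum_type]
      congr 1
      · have h2 : ∀ x : Fin k, (if idx (Sum.inl x : Lt k l) < idx (Sum.inr j : Lt k l) then
            (if odd (Sum.inl x : Lt k l) then (1 : ℚ) else -1) else 0) = -1 := by
          intro x
          rw [if_pos]
          · simp
          · simp only [idx, Sum.elim_inl, Sum.elim_inr]
            have := x.2; omega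
        rw [Finset.sum_congr rfl (fun x _ => h2 x)]
        simp
      · have h3 : ∀ x : Fin l, (if idx (Sum.inr x : Lt k l) < idx (Sum.inr j : Lt k l) then
            (if odd (Sum.inr x : Lt k l) then (1 : ℚ) else -1) else 0)
            = if x < j then (1 : ℚ) else 0 := by
          intro x
          simp only [idx, Sum.elim_inr, Fin.lt_def]
          simp
        rw [Finset.sum_congr rfl (fun x _ => h3 x), ← Finset.sum_filter, Finset.sum_const,
          nsmul_eq_mul]
        have h4 : (univ.filter (fun x : Fin l => x < j)).card = j.val := by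
          have : univ.filter (fun x : Fin l => x < j) = Finset.Iio j := by
            ext x; simp
          rw [this, Fin.card_Iio]
        rw [h4]; ring
    rw [h1] at hfin
    have h5 : pm (Sum.inr j : Lt k l) (Sum.inr j) = -1 := by simp [pm]
    rw [h5] at hfin
    have h6 : (0 : ℚ) ≤ (cnt (Sum.inr j : Lt k l) w : ℚ) := by positivity
    have h7 : ((j.val : ℕ) : ℚ) < (l : ℚ) := by exact_mod_cast j.2
    linarith

end Pool.PI34.Super
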