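import Pool.Agent.LibPI34.Super4

/-!
PI34, E-block, file 5: the vector `ξ = det_0^{⊗ l} ⊗ det_1^{⊗ k}`.
-/

set_option linter.unusedSectionVars false
set_option linter.unusedSimpArgs false

namespace Pool.PI34.Super

open Equiv Finset

variable {k l : ℕ}

section dets

variable {ι : Type*} [DecidableEq ι] {r n : ℕ}

/-- The indicator matrix of row `j`. -/
def MM (pos : Fin r × Fin n → ι) (lam : Fin n → Lt k l) (w : ι → Lt k l) (j : Fin r) :
    Matrix (Fin n) (Fin n) ℚ :=
  fun i c => if w (pos (j, i)) = lam c then 1 else 0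

theorem MM_apply (pos : Fin r × Fin n → ι) (lam : Fin n → Lt k l) (w : ι → Lt k l) (j : Fin r)
    (i c : Fin n) : MM pos lam w j i c = if w (pos (j, i)) = lam c then 1 else 0 := rfl

/-- The product of determinants. -/
def DD (pos : Fin r × Fin n → ι) (lam : Fin n → Lt k l) (w : ι → Lt k l) : ℚ :=
  ∏ j, (MM pos lam w j).det

theorem MM_update {pos : Fin r × Fin n → ι} (hpos : Function.Injective pos)
    {lam : Fin n → Lt k l} (hlam : Function.Injective lam) (w : ι → Lt k l) (j : Fin r)
    (i : Fin n) (b : Fin n) :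
    MM pos lam (Function.update w (pos (j, i)) (lam b)) j
      = (MM pos lam w j).updateRow i (Pi.single b 1) := by
  ext i' c
  by_cases h : i' = i
  · subst h
    rw [Matrix.updateRow_self, MM_apply, Function.update_self, Pi.single_apply]
    by_cases h2 : b = c
    · subst h2; simp
    · rw [if_neg (fun e => h2 (hlam e)), if_neg (fun e => h2 e.symm)]
  · have h1 : pos (j, i') ≠ pos (j, i) := fun e => h (by simpa using hpos e)
    rw [Matrix.updateRow_ne h, MM_apply, MM_apply, Function.update_of_ne h1]

theorem MM_update_ne {pos : Fin r × Fin n → ι} {lam : Fin n → Lt k l} (w : ι → Lt k l)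
    (j : Fin r) (s : ι) (hs : ∀ i, pos (j, i) ≠ s) (c : Lt k l) :
    MM pos lam (Function.update w s c) j = MM pos lam w j := by
  ext i' c
  unfold MM
  rw [Function.update_of_ne (hs i')]

theorem sum_adj (M : Matrix (Fin n) (Fin n) ℚ) (a b : Fin n) :
    ∑ i, M i a * (M.updateRow i (Pi.single b 1)).det = if a = b then M.det else 0 := by
  have h := congrFun (congrFun (Matrix.adjugate_mul M) b) a
  rw [Matrix.mul_apply] at h
  simp only [Matrix.adjugate_apply, Matrix.smul_apply, Matrix.one_apply, smul_eq_mul] at h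
  rw [← Finset.sum_congr rfl (fun i _ => mul_comm _ _), h]
  by_cases hab : a = b
  · subst hab; simp
  · rw [if_neg hab, if_neg (fun e => hab e.symm), mul_zero]

theorem DD_deriv {pos : Fin r × Fin n → ι} (hpos : Function.Injective pos)
    {lam : Fin n → Lt k l} (hlam : Function.Injective lam) (w : ι → Lt k l) (a b : Fin n) :
    ∑ q : Fin r × Fin n, (if w (pos q) = lam a then
        DD pos lam (Function.update w (pos q) (lam b)) else 0)
      = if a = b then (r : ℚ) * DD pos lam w else 0 := by
  classical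
  rw [← Finset.univ_product_univ, Finset.sum_product]
  have h1 : ∀ j : Fin r, ∑ i : Fin n, (if w (pos (j, i)) = lam a then
        DD pos lam (Function.update w (pos (j, i)) (lam b)) else 0)
      = if a = b then DD pos lam w else 0 := by
    intro j
    have h2 : ∀ i : Fin n, (if w (pos (j, i)) = lam a then
        DD pos lam (Function.update w (pos (j, i)) (lam b)) else 0)
        = (MM pos lam w j i a * ((MM pos lam w j).updateRow i (Pi.single b 1)).det)
          * ∏ j' ∈ univ.erase j, (MM pos lam w j').det := by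
      intro i
      unfold DD
      rw [← Finset.mul_prod_erase univ _ (Finset.mem_univ j), MM_update hpos hlam]
      have h3 : ∏ x ∈ univ.erase j, (MM pos lam (Function.update w (pos (j, i)) (lam b)) x).det
          = ∏ j' ∈ univ.erase j, (MM pos lam w j').det := by
        refine Finset.prod_congr rfl (fun j' hj' => ?_)
        rw [Finset.mem_erase] at hj'
        rw [MM_update_ne]
        intro i' e
        have := hpos e
        simp only [Prod.mk.injEq] at this
        exact hj'.1 this.1
      rw [h3]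
      have h4 : MM pos lam w j i a = if w (pos (j, i)) = lam a then 1 else 0 := rfl
      rw [h4]
      split_ifs <;> ring
    rw [Finset.sum_congr rfl (fun i _ => h2 i), ← Finset.sum_mul, sum_adj]
    split_ifs
    · unfold DD
      rw [← Finset.mul_prod_erase univ _ (Finset.mem_univ j)]
    · rw [zero_mul]
  rw [Finset.sum_congr rfl (fun j _ => h1 j)]
  rw [Finset.sum_const, Finset.card_univ, Fintype.card_fin, nsmul_eq_mul]
  split_ifs <;> simp

theorem DD_update_ne {pos : Fin r × Fin n → ι} {lam : Fin n → Lt k l} (w : ι → Lt k l)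
    (s : ι) (hs : ∀ q, pos q ≠ s) (c : Lt k l) :
    DD pos lam (Function.update w s c) = DD pos lam w := by
  unfold DD
  exact Finset.prod_congr rfl (fun j _ => by rw [MM_update_ne w j s (fun i => hs (j, i)) c])

theorem DD_update_bad {pos : Fin r × Fin n → ι} {lam : Fin n → Lt k l} (w : ι → Lt k l)
    (q : Fin r × Fin n) (c : Lt k l) (hc : ∀ x, lam x ≠ c) :
    DD pos lam (Function.update w (pos q) c) = 0 := by
  unfold DD
  refine Finset.prod_eq_zero (Finset.mem_univ q.1) ?_
  refine Matrix.det_eq_zero_of_row_eq_zero q.2 (fun x => ?_)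
  unfold MM
  rw [show (q.1, q.2) = q from rfl, Function.update_self, if_neg (fun e => hc x e.symm)]

theorem DD_supp {pos : Fin r × Fin n → ι} {lam : Fin n → Lt k l} {w : ι → Lt k l}
    (h : DD pos lam w ≠ 0) (j : Fin r) (c : Fin n) : ∃ i, w (pos (j, i)) = lam c := by
  by_contra hcon
  push Not at hcon
  apply h
  unfold DD
  refine Finset.prod_eq_zero (Finset.mem_univ j) ?_
  refine Matrix.det_eq_zero_of_column_eq_zero c (fun x => ?_)
  unfold MM
  rw [if_neg (hcon x)]

end dets

/-- The number of catalyst strands. -/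
def mm (k l : ℕ) : ℕ := l * k + k * l

/-- Enumeration of the catalyst strands. -/
def catEquiv (k l : ℕ) : (Fin l × Fin k) ⊕ (Fin k × Fin l) ≃ Fin (mm k l) :=
  (Equiv.sumCongr finProdFinEquiv finProdFinEquiv).trans finSumFinEquiv

/-- Positions of block 1. -/
def pos1 (k l : ℕ) (q : Fin l × Fin k) : Fin (mm k l) := catEquiv k l (Sum.inl q)

/-- Positions of block 2. -/
def pos2 (k l : ℕ) (q : Fin k × Fin l) : Fin (mm k l) := catEquiv k l (Sum.inr q)

theorem pos1_inj (k l : ℕ) : Function.Injective (pos1 k l) := fun a b h => by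
  have := (catEquiv k l).injective h
  exact Sum.inl_injective this

theorem pos2_inj (k l : ℕ) : Function.Injective (pos2 k l) := fun a b h => by
  have := (catEquiv k l).injective h
  exact Sum.inr_injective this

theorem pos12_ne (k l : ℕ) (q : Fin l × Fin k) (q' : Fin k × Fin l) :
    pos1 k l q ≠ pos2 k l q' := fun h => by
  have := (catEquiv k l).injective h
  simp at this

/-- Block 1. -/
def B1 (k l : ℕ) : Finset (Fin (mm k l)) := univ.image (pos1 k l)

/-- Block 2. -/
def B2 (k l : ℕ) : Finset (Fin (mm k l)) := univ.image (pos2 k l)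

theorem B12_disj (k l : ℕ) : Disjoint (B1 k l) (B2 k l) := by
  rw [Finset.disjoint_left]
  intro s h1 h2
  unfold B1 at h1
  unfold B2 at h2
  rw [Finset.mem_image] at h1 h2
  obtain ⟨q, _, hq⟩ := h1
  obtain ⟨q', _, hq'⟩ := h2
  exact pos12_ne k l q q' (hq.trans hq'.symm)

theorem B12_union (k l : ℕ) : (B1 k l) ∪ (B2 k l) = univ := by
  ext s
  simp only [Finset.mem_union, Finset.mem_univ, iff_true]
  obtain ⟨x, hx⟩ := (catEquiv k l).surjective s
  rcases x with q | q
  · left; exact Finset.mem_image.2 ⟨q, Finset.mem_univ _, hx⟩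
  · right; exact Finset.mem_image.2 ⟨q, Finset.mem_univ _, hx⟩

/-- The vector `ξ`. -/
def xi (k l : ℕ) : W k l (Fin (mm k l)) := fun w =>
  DD (pos1 k l) (Sum.inl : Fin k → Lt k l) w * DD (pos2 k l) (Sum.inr : Fin l → Lt k l) w

theorem EB_add {ι : Type*} [Fintype ι] [LinearOrder ι] {A B : Finset ι} (h : Disjoint A B)
    (a b : Lt k l) : (EB (A ∪ B) a b : Module.End ℚ (W k l ι)) = EB A a b + EB B a b := by
  unfold EB
  rw [Finset.sum_union h]

theorem xi_bad1 (w : Fin (mm k l) → Lt k l) (q : Fin l × Fin k) (c : Fin l) :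
    xi k l (Function.update w (pos1 k l q) (Sum.inr c)) = 0 := by
  unfold xi
  rw [DD_update_bad w q _ (fun x => by simp), zero_mul]

theorem xi_bad2 (w : Fin (mm k l) → Lt k l) (q : Fin k × Fin l) (c : Fin k) :
    xi k l (Function.update w (pos2 k l q) (Sum.inl c)) = 0 := by
  unfold xi
  rw [DD_update_bad w q (Sum.inl c) (fun x => by simp), mul_zero]

theorem EB1_inr (a : Lt k l) (c : Fin l) : EB (B1 k l) a (Sum.inr c) (xi k l) = 0 := by
  funext w
  unfold EB B1
  rw [LinearMap.sum_apply, Finset.sum_apply, Finset.sum_image (fun x _ y _ h => pos1_inj k l h)]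
  refine Finset.sum_eq_zero (fun q _ => ?_)
  rw [eop_apply, xi_bad1, mul_zero, ite_self]

theorem EB2_inl (a : Lt k l) (c : Fin k) : EB (B2 k l) a (Sum.inl c) (xi k l) = 0 := by
  funext w
  unfold EB B2
  rw [LinearMap.sum_apply, Finset.sum_apply, Finset.sum_image (fun x _ y _ h => pos2_inj k l h)]
  refine Finset.sum_eq_zero (fun q _ => ?_)
  rw [eop_apply, xi_bad2, mul_zero, ite_self]

theorem bsg_even {ι : Type*} [Fintype ι] [LinearOrder ι] (a b : Lt k l) (h : odd a = odd b)
    (w : ι → Lt k l) (i : ι) : bsg a b w i = 1 := by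
  unfold bsg
  refine Finset.prod_eq_one (fun j _ => ?_)
  unfold eta; rw [h]; simp

theorem EB1_inl (a c : Fin k) :
    EB (B1 k l) (Sum.inl a) (Sum.inl c) (xi k l) = if a = c then (l : ℚ) • xi k l else 0 := by
  funext w
  unfold EB B1
  rw [LinearMap.sum_apply, Finset.sum_apply, Finset.sum_image (fun x _ y _ h => pos1_inj k l h)]
  have h := DD_deriv (pos1_inj k l) (lam := (Sum.inl : Fin k → Lt k l)) Sum.inl_injective w a c
  have h2 : ∀ q ∈ (univ : Finset (Fin l × Fin k)),
      eop (Sum.inl a) (Sum.inl c) (pos1 k l q) (xi k l) w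
      = (if w (pos1 k l q) = Sum.inl a then
        DD (pos1 k l) (Sum.inl : Fin k → Lt k l) (Function.update w (pos1 k l q) (Sum.inl c))
        else 0) * DD (pos2 k l) (Sum.inr : Fin l → Lt k l) w := by
    intro q _
    rw [eop_apply, bsg_even (Sum.inl a) (Sum.inl c) rfl]
    split_ifs
    · rw [one_mul]
      unfold xi
      rw [DD_update_ne (pos := pos2 k l) w _ (fun q' e => pos12_ne k l q q' e.symm)]
    · rw [zero_mul]
  rw [Finset.sum_congr rfl h2, ← Finset.sum_mul, h]
  split_ifs
  · rw [Pi.smul_apply, smul_eq_mul]; unfold xi; ring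
  · rw [zero_mul]; rfl

theorem EB2_inr (a c : Fin l) :
    EB (B2 k l) (Sum.inr a) (Sum.inr c) (xi k l) = if a = c then (k : ℚ) • xi k l else 0 := by
  funext w
  unfold EB B2
  rw [LinearMap.sum_apply, Finset.sum_apply, Finset.sum_image (fun x _ y _ h => pos2_inj k l h)]
  have h := DD_deriv (pos2_inj k l) (lam := (Sum.inr : Fin l → Lt k l)) Sum.inr_injective w a c
  have h2 : ∀ q ∈ (univ : Finset (Fin k × Fin l)),
      eop (Sum.inr a) (Sum.inr c) (pos2 k l q) (xi k l) w
      = (if w (pos2 k l q) = Sum.inr a then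
        DD (pos2 k l) (Sum.inr : Fin l → Lt k l) (Function.update w (pos2 k l q) (Sum.inr c))
        else 0) * DD (pos1 k l) (Sum.inl : Fin k → Lt k l) w := by
    intro q _
    rw [eop_apply, bsg_even (Sum.inr a) (Sum.inr c) rfl]
    split_ifs
    · rw [one_mul]
      unfold xi
      rw [DD_update_ne (pos := pos1 k l) w _ (fun q' e => pos12_ne k l q' q e)]
      ring
    · rw [zero_mul]
  rw [Finset.sum_congr rfl h2, ← Finset.sum_mul, h]
  split_ifs
  · rw [Pi.smul_apply, smul_eq_mul]; unfold xi; ring
  · rw [zero_mul]; rfl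

theorem xi_g0 (a b : Lt k l) (h : odd a = odd b) : EE a b (xi k l) ∈ (ℚ ∙ xi k l) := by
  have h1 : EE a b (xi k l) = EB (B1 k l) a b (xi k l) + EB (B2 k l) a b (xi k l) := by
    unfold EE
    rw [← B12_union, EB_add (B12_disj k l), LinearMap.add_apply]
  rw [h1]
  rcases a with a | a <;> rcases b with b | b
  · rw [EB1_inl, EB2_inl, add_zero]
    split_ifs
    · exact Submodule.smul_mem _ _ (Submodule.mem_span_singleton_self _)
    · exact Submodule.zero_mem _
  · simp at h
  · simp at h
  · rw [EB1_inr, EB2_inr, zero_add]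
    split_ifs
    · exact Submodule.smul_mem _ _ (Submodule.mem_span_singleton_self _)
    · exact Submodule.zero_mem _

theorem xi_supp (w : Fin (mm k l) → Lt k l) (hw : xi k l w ≠ 0) : Pl w := by
  classical
  intro i
  have h1 : DD (pos1 k l) (Sum.inl : Fin k → Lt k l) w ≠ 0 := by
    unfold xi at hw
    exact left_ne_zero_of_mul hw
  have h2 : ∀ j : Fin l, ∃ i', w (pos1 k l (j, i')) = Sum.inl i := fun j => DD_supp h1 j i
  choose f hf using h2
  unfold cnt
  calc l = (univ : Finset (Fin l)).card := by simp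
    _ ≤ _ := by
      refine Finset.card_le_card_of_injOn (fun j => pos1 k l (j, f j)) (fun j _ => ?_) ?_
      · simp [hf j]
      · intro j _ j' _ e
        have := pos1_inj k l e
        simp only [Prod.mk.injEq] at this
        exact this.1

/-- `v_a ⊗ f`. -/
def ins {m : ℕ} (a : Lt k l) (f : W k l (Fin m)) : W k l (Fin (m + 1)) :=
  fun w => if w 0 = a then f (Fin.tail w) else 0

theorem comp_ins {m : ℕ} (a c : Lt k l) (f : W k l (Fin m)) :
    comp c (ins a f) = if c = a then f else 0 := by
  funext w
  rw [comp_apply]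
  unfold ins
  rw [Fin.cons_zero, Fin.tail_cons]
  split_ifs <;> rfl

theorem X1_ins (a : Fin k) :
    act k l _ (XB (B1 k l)) (ins (Sum.inl a) (xi k l)) = (l : ℚ) • ins (Sum.inl a) (xi k l) := by
  refine ext_comp (fun c => ?_)
  rw [comp_XB, Finset.sum_eq_single (Sum.inl a), map_smul, comp_ins, comp_ins, if_pos rfl]
  · rcases c with c | c
    · rw [EB1_inl]
      by_cases h : a = c
      · subst h; simp [pm]
      · rw [if_neg h, if_neg (fun e => h (Sum.inl_injective e).symm), smul_zero, smul_zero]
    · rw [EB1_inr, if_neg (by simp), smul_zero, smul_zero]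
  · intro b _ hb
    rw [comp_ins, if_neg hb, map_zero, smul_zero]
  · intro h; exact absurd (Finset.mem_univ _) h

theorem X2_ins (a : Fin l) :
    act k l _ (XB (B2 k l)) (ins (Sum.inr a) (xi k l))
      = (-(k : ℚ)) • ins (Sum.inr a) (xi k l) := by
  refine ext_comp (fun c => ?_)
  rw [comp_XB, Finset.sum_eq_single (Sum.inr a), map_smul, comp_ins, comp_ins, if_pos rfl]
  · rcases c with c | c
    · rw [EB2_inl, if_neg (by simp), smul_zero, smul_zero]
    · rw [EB2_inr]
      by_cases h : a = c
      · subst h; simp [pm]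
      · rw [if_neg h, if_neg (fun e => h (Sum.inr_injective e).symm), smul_zero, smul_zero]
  · intro b _ hb
    rw [comp_ins, if_neg hb, map_zero, smul_zero]
  · intro h; exact absurd (Finset.mem_univ _) h

theorem ins_mem_Lx (a : Lt k l) : ins a (xi k l) ∈ Lx (xi k l) := by
  intro c
  rw [comp_ins]
  split_ifs
  · exact mem_Ux _
  · exact Submodule.zero_mem _

theorem XB_univ (k l : ℕ) : XB (univ : Finset (Fin (mm k l))) = XB (B1 k l) + XB (B2 k l) := by
  unfold XB
  rw [← B12_union, Finset.sum_union (B12_disj k l)]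

end Pool.PI34.Super
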