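import Pool.Agent.LibPI34.Super5

/-!
PI34, E-block, file 6: averages of operators lie in the algebra generated by the `E_ab`
(first fundamental theorem); the element `z`.
-/

set_option linter.unusedSectionVars false
set_option linter.unusedSimpArgs false

namespace Pool.PI34.Super

open Equiv Finset

variable {k l m : ℕ}

/-- Products of position operators. -/
def PL (L : List (Lt k l × Lt k l × Fin m)) : Module.End ℚ (W k l (Fin m)) :=
  (L.map (fun x => eop x.1 x.2.1 x.2.2)).prod

theorem PL_nil : PL ([] : List (Lt k l × Lt k l × Fin m)) = 1 := rfl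

theorem PL_cons (x : Lt k l × Lt k l × Fin m) (L : List (Lt k l × Lt k l × Fin m)) :
    PL (x :: L) = eop x.1 x.2.1 x.2.2 * PL L := by
  unfold PL; rw [List.map_cons, List.prod_cons]

/-- The (non normalised) average over the symmetric group. -/
def Avg : Module.End ℚ (W k l (Fin m)) →ₗ[ℚ] Module.End ℚ (W k l (Fin m)) where
  toFun T := ∑ σ : Perm (Fin m), rho k l _ σ * T * rho k l _ σ⁻¹
  map_add' S T := by
    rw [← Finset.sum_add_distrib]
    exact Finset.sum_congr rfl (fun σ _ => by rw [mul_add, add_mul])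
  map_smul' c T := by
    rw [RingHom.id_apply, Finset.smul_sum]
    exact Finset.sum_congr rfl (fun σ _ => by rw [mul_smul_comm, smul_mul_assoc])

theorem Avg_apply (T : Module.End ℚ (W k l (Fin m))) :
    Avg T = ∑ σ : Perm (Fin m), rho k l _ σ * T * rho k l _ σ⁻¹ := rfl

/-- The algebra generated by the `E_ab`. -/
def UA (k l m : ℕ) : Subalgebra ℚ (Module.End ℚ (W k l (Fin m))) :=
  Algebra.adjoin ℚ (Sall k l m)

theorem EE_mem_UA (a b : Lt k l) : (EE a b : Module.End ℚ (W k l (Fin m))) ∈ UA k l m :=
  Algebra.subset_adjoin ⟨a, b, rfl⟩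

theorem merge (L : List (Lt k l × Lt k l × Fin m)) (x : Lt k l × Lt k l × Fin m)
    (h : ∃ y ∈ L, y.2.2 = x.2.2) :
    ∃ (c : ℚ) (L' : List (Lt k l × Lt k l × Fin m)), L'.length = L.length ∧
      PL (x :: L) = c • PL L' := by
  induction L with
  | nil => obtain ⟨y, hy, _⟩ := h; simp at hy
  | cons y L ih =>
    by_cases hy : y.2.2 = x.2.2
    · refine ⟨if x.2.1 = y.1 then 1 else 0, (x.1, y.2.1, x.2.2) :: L, by simp, ?_⟩
      rw [PL_cons, PL_cons, PL_cons, ← mul_assoc, hy, eop_mul']
      split_ifs
      · rw [one_smul]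
      · rw [zero_smul, zero_mul]
    · have h' : ∃ y ∈ L, y.2.2 = x.2.2 := by
        obtain ⟨y', hy', he⟩ := h
        rcases List.mem_cons.1 hy' with e | e
        · subst e; exact absurd he hy
        · exact ⟨y', e, he⟩
      obtain ⟨c, L', hL', he⟩ := ih h'
      refine ⟨dd x.1 x.2.1 y.1 y.2.1 * c, y :: L', by simp [hL'], ?_⟩
      rw [PL_cons, PL_cons, ← mul_assoc, eop_comm _ _ _ _ (fun e => hy e.symm), smul_mul_assoc,
        mul_assoc, ← PL_cons x L, he, PL_cons, mul_smul_comm, smul_smul]

theorem rho_inv_mul (τ : Perm (Fin m)) : rho k l _ τ⁻¹ * rho k l _ τ = 1 := by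
  rw [← map_mul, inv_mul_cancel, map_one]

theorem rho_mul_inv (τ : Perm (Fin m)) : rho k l _ τ * rho k l _ τ⁻¹ = 1 := by
  rw [← map_mul, mul_inv_cancel, map_one]

theorem PL_conj (τ : Perm (Fin m)) (L : List (Lt k l × Lt k l × Fin m)) :
    rho k l _ τ * PL L * rho k l _ τ⁻¹ = PL (L.map (fun x => (x.1, x.2.1, τ x.2.2))) := by
  induction L with
  | nil => rw [List.map_nil, PL_nil, mul_one, rho_mul_inv]
  | cons x L ih =>
    rw [List.map_cons, PL_cons, PL_cons, ← ih, ← mul_assoc, rho_eop]
    simp only [mul_assoc]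

theorem Avg_conj (τ : Perm (Fin m)) (T : Module.End ℚ (W k l (Fin m))) :
    Avg (rho k l _ τ * T * rho k l _ τ⁻¹) = Avg T := by
  rw [Avg_apply, Avg_apply]
  refine Fintype.sum_equiv (Equiv.mulRight τ) _ _ (fun σ => ?_)
  rw [Equiv.coe_mulRight, mul_inv_rev, map_mul, map_mul]
  simp only [mul_assoc]

theorem EE_Avg (a b : Lt k l) (T : Module.End ℚ (W k l (Fin m))) :
    EE a b * Avg T = Avg (EE a b * T) := by
  rw [Avg_apply, Avg_apply, Finset.mul_sum]
  refine Finset.sum_congr rfl (fun σ _ => ?_)
  rw [← mul_assoc, ← mul_assoc, ← mul_assoc, rho_EE]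

theorem Avg_PL_mem (q : ℕ) : ∀ L : List (Lt k l × Lt k l × Fin m), L.length = q →
    Avg (PL L) ∈ UA k l m := by
  classical
  induction q with
  | zero =>
    intro L hL
    rw [List.length_eq_zero_iff] at hL
    subst hL
    rw [PL_nil, Avg_apply]
    refine Subalgebra.sum_mem _ (fun σ _ => ?_)
    rw [mul_one, rho_mul_inv]
    exact Subalgebra.one_mem _
  | succ q ih =>
    intro L hL
    rcases L with _ | ⟨x, L⟩
    · simp at hL
    · have hL' : L.length = q := by simpa using hL
      by_cases hx : ∃ y ∈ L, y.2.2 = x.2.2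
      · obtain ⟨c, L', h1, h2⟩ := merge L x hx
        rw [h2, map_smul]
        exact Subalgebra.smul_mem _ (ih L' (h1.trans hL')) c
      · push Not at hx
        obtain ⟨a, b, i⟩ := x
        simp only at hx
        have h1 : ∑ j : Fin m, Avg (PL ((a, b, j) :: L)) ∈ UA k l m := by
          have : ∑ j : Fin m, Avg (PL ((a, b, j) :: L)) = EE a b * Avg (PL L) := by
            rw [EE_Avg]
            unfold EE EB
            rw [Finset.sum_mul, map_sum]
            exact Finset.sum_congr rfl (fun j _ => by rw [PL_cons])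
          rw [this]
          exact Subalgebra.mul_mem _ (EE_mem_UA a b) (ih L hL')
        set S : Finset (Fin m) := (L.map (fun y => y.2.2)).toFinset with hS
        have hmem : ∀ j, j ∈ S ↔ ∃ y ∈ L, y.2.2 = j := by
          intro j
          rw [hS, List.mem_toFinset, List.mem_map]
        have h2 : ∀ j ∈ S, Avg (PL ((a, b, j) :: L)) ∈ UA k l m := by
          intro j hj
          obtain ⟨c, L', h3, h4⟩ := merge L (a, b, j) ((hmem j).1 hj)
          rw [h4, map_smul]
          exact Subalgebra.smul_mem _ (ih L' (h3.trans hL')) c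
        have h3 : ∀ j ∈ Sᶜ, Avg (PL ((a, b, j) :: L)) = Avg (PL ((a, b, i) :: L)) := by
          intro j hj
          rw [Finset.mem_compl, hmem] at hj
          push Not at hj
          rw [← Avg_conj (swap i j) (PL ((a, b, i) :: L)), PL_conj, List.map_cons]
          congr 3
          · simp
          · symm
            refine (List.map_congr_left (g := id) (fun y hy => ?_)).trans (List.map_id _)
            have e1 : swap i j y.2.2 = y.2.2 :=
              swap_apply_of_ne_of_ne (hx y hy) (hj y hy)
            simp only [e1, id]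
        rw [← Finset.sum_add_sum_compl S] at h1
        have h4 : ∑ j ∈ Sᶜ, Avg (PL ((a, b, j) :: L)) ∈ UA k l m := by
          have := Subalgebra.sub_mem _ h1 (Subalgebra.sum_mem _ h2)
          rwa [add_sub_cancel_left] at this
        rw [Finset.sum_congr rfl h3, Finset.sum_const] at h4
        have h5 : (Sᶜ).card ≠ 0 := by
          rw [Finset.card_ne_zero]
          refine ⟨i, ?_⟩
          rw [Finset.mem_compl, hmem]
          push Not
          exact hx
        have h6 := Subalgebra.smul_mem _ h4 (((Sᶜ).card : ℚ)⁻¹)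
        rwa [← Nat.cast_smul_eq_nsmul ℚ, smul_smul, inv_mul_cancel₀ (by exact_mod_cast h5),
          one_smul] at h6

/-- Successive updates. -/
def upd (L : List (Lt k l × Lt k l × Fin m)) (w : Fin m → Lt k l) : Fin m → Lt k l :=
  match L with
  | [] => w
  | x :: L => upd L (Function.update w x.2.2 x.2.1)

theorem upd_notMem (L : List (Lt k l × Lt k l × Fin m)) (w : Fin m → Lt k l) (i : Fin m)
    (h : ∀ x ∈ L, x.2.2 ≠ i) : upd L w i = w i := by
  induction L generalizing w with
  | nil => rfl
  | cons x L ih =>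
    unfold upd
    rw [ih _ (fun y hy => h y (List.mem_cons_of_mem _ hy)),
      Function.update_of_ne (h x List.mem_cons_self).symm]

theorem upd_mem (L : List (Lt k l × Lt k l × Fin m)) (w : Fin m → Lt k l)
    (hn : (L.map (fun x => x.2.2)).Nodup) (x : Lt k l × Lt k l × Fin m) (hx : x ∈ L) :
    upd L w x.2.2 = x.2.1 := by
  induction L generalizing w with
  | nil => simp at hx
  | cons y L ih =>
    rw [List.map_cons, List.nodup_cons] at hn
    unfold upd
    rcases List.mem_cons.1 hx with e | e
    · subst e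
      rw [upd_notMem, Function.update_self]
      intro z hz e
      exact hn.1 (List.mem_map.2 ⟨z, hz, e⟩)
    · exact ih _ hn.2 e

theorem PL_eval (L : List (Lt k l × Lt k l × Fin m))
    (hn : (L.map (fun x => x.2.2)).Nodup) (w : Fin m → Lt k l) :
    ∃ c : ℚ, c * c = 1 ∧ ∀ f : W k l (Fin m),
      PL L f w = if (∀ x ∈ L, w x.2.2 = x.1) then c * f (upd L w) else 0 := by
  classical
  induction L generalizing w with
  | nil => exact ⟨1, by norm_num, fun f => by simp [PL_nil, upd]⟩
  | cons x L ih =>
    rw [List.map_cons, List.nodup_cons] at hn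
    obtain ⟨c, hc, hf⟩ := ih hn.2 (Function.update w x.2.2 x.2.1)
    refine ⟨bsg x.1 x.2.1 w x.2.2 * c, ?_, fun f => ?_⟩
    · linear_combination (c * c) * bsg_sq x.1 x.2.1 w x.2.2 + hc
    · rw [PL_cons, Module.End.mul_apply, eop_apply, hf]
      have h1 : (∀ y ∈ L, Function.update w x.2.2 x.2.1 y.2.2 = y.1) ↔
          (∀ y ∈ L, w y.2.2 = y.1) := by
        refine forall₂_congr (fun y hy => ?_)
        rw [Function.update_of_ne]
        intro e
        exact hn.1 (List.mem_map.2 ⟨y, hy, e⟩)
      simp only [List.forall_mem_cons, h1]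
      by_cases h2 : w x.2.2 = x.1
      · by_cases h3 : ∀ y ∈ L, w y.2.2 = y.1
        · rw [if_pos h2, if_pos h3, if_pos ⟨h2, h3⟩]
          show _ = _ * f (upd L _)
          ring
        · rw [if_pos h2, if_neg h3, if_neg (fun h => h3 h.2), mul_zero]
      · rw [if_neg h2, if_neg (fun h => h2 h.1)]

theorem span_PL : Submodule.span ℚ (Set.range (PL (k := k) (l := l) (m := m))) = ⊤ := by
  classical
  rw [eq_top_iff]
  intro T _
  let LL : (Fin m → Lt k l) → (Fin m → Lt k l) → List (Lt k l × Lt k l × Fin m) :=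
    fun u w => (List.finRange m).map (fun i => (u i, w i, i))
  have hnd : ∀ u w, ((LL u w).map (fun x => x.2.2)).Nodup := by
    intro u w
    have : (LL u w).map (fun x => x.2.2) = List.finRange m := by
      simp only [LL, List.map_map]
      exact List.map_id _
    rw [this]
    exact List.nodup_finRange m
  have hupd : ∀ u w, upd (LL u w) u = w := by
    intro u w
    funext i
    exact upd_mem (LL u w) u (hnd u w) (u i, w i, i)
      (List.mem_map.2 ⟨i, List.mem_finRange i, rfl⟩)
  have hiff : ∀ u w w', (∀ x ∈ LL u w, w' x.2.2 = x.1) ↔ w' = u := by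
    intro u w w'
    constructor
    · intro h
      funext i
      exact h (u i, w i, i) (List.mem_map.2 ⟨i, List.mem_finRange i, rfl⟩)
    · rintro rfl x hx
      obtain ⟨i, _, rfl⟩ := List.mem_map.1 hx
      rfl
  have h1 : ∀ u w, ∃ c : ℚ, c * c = 1 ∧ ∀ f w', PL (LL u w) f w' = if w' = u then c * f w
      else 0 := by
    intro u w
    obtain ⟨c, hc, hf⟩ := PL_eval (LL u w) (hnd u w) u
    refine ⟨c, hc, fun f w' => ?_⟩
    by_cases h : w' = u
    · subst h
      rw [hf, if_pos rfl, if_pos ((hiff _ _ _).2 rfl), hupd]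
    · obtain ⟨c', _, hf'⟩ := PL_eval (LL u w) (hnd u w) w'
      rw [hf', if_neg h, if_neg (fun h' => h ((hiff _ _ _).1 h'))]
  choose c hc hf using h1
  have h2 : T = ∑ u, ∑ w, (T (Pi.single w 1) u * c u w) • PL (LL u w) := by
    apply LinearMap.ext; intro f; funext w'
    rw [LinearMap.sum_apply, Finset.sum_apply]
    simp only [LinearMap.sum_apply, Finset.sum_apply, LinearMap.smul_apply, Pi.smul_apply,
      smul_eq_mul, hf]
    rw [Finset.sum_eq_single w']
    · simp only [if_true]
      have h3 : f = ∑ w, f w • (Pi.single w 1 : W k l (Fin m)) := by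
        funext w
        rw [Finset.sum_apply, Finset.sum_eq_single w]
        · simp
        · intro b _ hb; simp [Pi.single_apply, hb.symm]
        · intro h; exact absurd (Finset.mem_univ _) h
      conv_lhs => rw [h3]
      rw [map_sum, Finset.sum_apply]
      refine Finset.sum_congr rfl (fun w _ => ?_)
      rw [map_smul, Pi.smul_apply, smul_eq_mul]
      linear_combination (-(T (Pi.single w 1) w' * f w)) * hc w' w
    · intro u _ hu
      refine Finset.sum_eq_zero (fun w _ => ?_)
      rw [if_neg (fun e => hu e.symm), mul_zero]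
    · intro h; exact absurd (Finset.mem_univ _) h
  rw [h2]
  exact Submodule.sum_mem _ (fun u _ => Submodule.sum_mem _ (fun w _ =>
    Submodule.smul_mem _ _ (Submodule.subset_span ⟨_, rfl⟩)))

theorem Avg_mem (T : Module.End ℚ (W k l (Fin m))) : Avg T ∈ UA k l m := by
  have h : (⊤ : Submodule ℚ (Module.End ℚ (W k l (Fin m)))) ≤
      (Subalgebra.toSubmodule (UA k l m)).comap Avg := by
    rw [← span_PL, Submodule.span_le]
    rintro _ ⟨L, rfl⟩
    exact Avg_PL_mem _ L rfl
  exact h (Submodule.mem_top : T ∈ ⊤)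

theorem UA_Ux {ξ : W k l (Fin m)} {T : Module.End ℚ (W k l (Fin m))} (hT : T ∈ UA k l m) :
    ∀ v ∈ Ux ξ, T v ∈ Ux ξ := by
  induction hT using Algebra.adjoin_induction with
  | mem x hx => obtain ⟨a, b, rfl⟩ := hx; exact fun v hv => Ux_stable hv a b
  | algebraMap r => 
    intro v hv
    rw [Algebra.algebraMap_eq_smul_one, LinearMap.smul_apply, Module.End.one_apply]
    exact Submodule.smul_mem _ _ hv
  | add x y _ _ hx hy => intro v hv; exact Submodule.add_mem _ (hx v hv) (hy v hv)
  | mul x y _ _ hx hy => intro v hv; exact hx _ (hy v hv)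

theorem exists_z (ξ : W k l (Fin m)) :
    ∃ z : MonoidAlgebra ℚ (Perm (Fin m)), act k l _ z ξ = ξ ∧ ∀ f, act k l _ z f ∈ Ux ξ := by
  classical
  let A := MonoidAlgebra ℚ (Perm (Fin m))
  let J : Submodule A A :=
    { carrier := {a | act k l _ a ξ = 0}
      add_mem' := by
        intro a b ha hb
        change act k l _ (a + b) ξ = 0
        change act k l _ a ξ = 0 at ha
        change act k l _ b ξ = 0 at hb
        rw [map_add, LinearMap.add_apply, ha, hb, add_zero]
      zero_mem' := by
        change act k l _ 0 ξ = 0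
        rw [map_zero]; rfl
      smul_mem' := by
        intro c a ha
        change act k l _ (c * a) ξ = 0
        change act k l _ a ξ = 0 at ha
        rw [map_mul, Module.End.mul_apply, ha, map_zero] }
  obtain ⟨J', hJ⟩ := MonoidAlgebra.Submodule.exists_isCompl J
  have h1 : (1 : A) ∈ J ⊔ J' := by rw [hJ.sup_eq_top]; exact Submodule.mem_top
  obtain ⟨e, he, z, hz, hez⟩ := Submodule.mem_sup.1 h1
  have he' : act k l _ e ξ = 0 := he
  refine ⟨z, ?_, fun f => ?_⟩
  · have := congrArg (fun a => act k l _ a ξ) hez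
    simp only [map_add, map_one, LinearMap.add_apply, Module.End.one_apply, he', zero_add] at this
    exact this
  · -- a ∈ J → a * z = 0
    have h2 : ∀ a : A, act k l _ a ξ = 0 → a * z = 0 := by
      intro a ha
      have h3 : a * z ∈ J' := J'.smul_mem a hz
      have h4 : a * z ∈ J := by
        have h5 : a * z = a - a * e := by
          have h6 : a * (e + z) = a := by rw [hez, mul_one]
          rw [mul_add] at h6
          exact eq_sub_of_add_eq' h6
        rw [h5]
        exact J.sub_mem ha (J.smul_mem a he)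
      have := hJ.disjoint
      rw [Submodule.disjoint_def] at this
      exact this _ h4 h3
    let α : A →ₗ[ℚ] W k l (Fin m) :=
      { toFun := fun a => act k l _ a ξ
        map_add' := fun a b => by rw [map_add, LinearMap.add_apply]
        map_smul' := fun c a => by rw [map_smul, LinearMap.smul_apply, RingHom.id_apply] }
    let β : A →ₗ[ℚ] W k l (Fin m) :=
      { toFun := fun a => act k l _ (a * z) f
        map_add' := fun a b => by rw [add_mul, map_add, LinearMap.add_apply]
        map_smul' := fun c a => by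
          rw [smul_mul_assoc, map_smul, LinearMap.smul_apply, RingHom.id_apply] }
    have hker : LinearMap.ker α ≤ LinearMap.ker β := by
      intro a ha
      rw [LinearMap.mem_ker] at *
      change act k l _ (a * z) f = 0
      rw [h2 a ha, map_zero]; rfl
    obtain ⟨φ, hφ⟩ : ∃ φ : Module.End ℚ (W k l (Fin m)), φ ∘ₗ α = β := by
      obtain ⟨g, hg⟩ := LinearMap.exists_extend
        (((LinearMap.ker α).liftQ β hker) ∘ₗ α.quotKerEquivRange.symm.toLinearMap)
      refine ⟨g, LinearMap.ext (fun a => ?_)⟩
      have h3 := LinearMap.congr_fun hg ⟨α a, LinearMap.mem_range_self α a⟩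
      simp only [LinearMap.comp_apply, Submodule.subtype_apply] at h3
      rw [LinearMap.comp_apply, h3]
      have h4 : α.quotKerEquivRange.symm ⟨α a, LinearMap.mem_range_self α a⟩
          = (LinearMap.ker α).mkQ a := by
        rw [LinearEquiv.symm_apply_eq]
        rfl
      erw [h4]
      rw [Submodule.mkQ_apply, Submodule.liftQ_apply]
    have h3 : Avg φ ξ = (Fintype.card (Perm (Fin m)) : ℚ) • act k l _ z f := by
      rw [Avg_apply, LinearMap.sum_apply]
      have h4 : ∀ σ ∈ (univ : Finset (Perm (Fin m))),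
          (rho k l _ σ * φ * rho k l _ σ⁻¹) ξ = act k l _ z f := by
        intro σ _
        rw [Module.End.mul_apply, Module.End.mul_apply]
        have h5 : rho k l _ σ⁻¹ ξ = α (MonoidAlgebra.of ℚ _ σ⁻¹) := by
          change _ = act k l _ (MonoidAlgebra.of ℚ _ σ⁻¹) ξ
          rw [act_of]
        rw [h5]
        have h6 : φ (α (MonoidAlgebra.of ℚ _ σ⁻¹)) = β (MonoidAlgebra.of ℚ _ σ⁻¹) :=
          LinearMap.congr_fun hφ _
        rw [h6]
        change rho k l _ σ (act k l _ (MonoidAlgebra.of ℚ _ σ⁻¹ * z) f) = _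
        rw [map_mul, act_of, Module.End.mul_apply, ← Module.End.mul_apply, rho_mul_inv,
          Module.End.one_apply]
      rw [Finset.sum_congr rfl h4, Finset.sum_const, Finset.card_univ, Nat.cast_smul_eq_nsmul]
    have h4 : act k l _ z f = (Fintype.card (Perm (Fin m)) : ℚ)⁻¹ • Avg φ ξ := by
      rw [h3, smul_smul, inv_mul_cancel₀ (by exact_mod_cast Fintype.card_ne_zero), one_smul]
    rw [h4]
    exact Submodule.smul_mem _ _ (UA_Ux (Avg_mem φ) ξ (mem_Ux ξ))

end Pool.PI34.Super
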