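import Pool.Agent.LibPI34.Super7

/-!
PI34, E-block, file 8: the colour element, main theorem and the relations.
-/

set_option linter.unusedSectionVars false
set_option linter.unusedSimpArgs false

namespace Pool.PI34.Super

open Equiv Finset

theorem exists_poly_inv {V : Type*} [AddCommGroup V] [Module ℚ V] [FiniteDimensional ℚ V]
    (T : Module.End ℚ V) (N : Submodule ℚ V) (hN : ∀ v ∈ N, T v ∈ N)
    (hinj : ∀ v ∈ N, T v = 0 → v = 0) :
    ∃ q : Polynomial ℚ, ∀ v ∈ N, Polynomial.aeval T q (T v) = v := by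
  let T' : Module.End ℚ N := T.restrict hN
  have hres : ∀ p : Polynomial ℚ, ∀ v : N, ((Polynomial.aeval T' p v : N) : V)
      = Polynomial.aeval T p (v : V) := by
    intro p
    induction p using Polynomial.induction_on' with
    | add p q hp hq =>
      intro v
      rw [map_add, map_add, LinearMap.add_apply, LinearMap.add_apply, Submodule.coe_add, hp, hq]
    | monomial n a =>
      intro v
      rw [Polynomial.aeval_monomial, Polynomial.aeval_monomial]
      have h1 : ∀ n : ℕ, ∀ v : N, (((T' ^ n) v : N) : V) = (T ^ n) (v : V) := by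
        intro n
        induction n with
        | zero => intro v; rfl
        | succ n ih =>
          intro v
          rw [pow_succ, pow_succ, Module.End.mul_apply, Module.End.mul_apply, ih]
          rfl
      rw [Module.End.mul_apply, Module.End.mul_apply, Module.algebraMap_end_apply,
        Module.algebraMap_end_apply, Submodule.coe_smul, h1]
  have hker : LinearMap.ker T' = ⊥ := by
    rw [LinearMap.ker_eq_bot']
    intro v hv
    apply Subtype.ext
    exact hinj v v.2 (congrArg Subtype.val hv)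
  have hdet : LinearMap.det T' ≠ 0 := by
    intro h
    have := LinearMap.bot_lt_ker_of_det_eq_zero h
    rw [hker] at this
    exact lt_irrefl _ this
  rw [LinearMap.det_eq_sign_charpoly_coeff] at hdet
  have hc : T'.charpoly.coeff 0 ≠ 0 := right_ne_zero_of_mul hdet
  refine ⟨Polynomial.C (-(T'.charpoly.coeff 0)⁻¹) * T'.charpoly.divX, fun v hv => ?_⟩
  have h1 := LinearMap.aeval_self_charpoly T'
  rw [← Polynomial.divX_mul_X_add T'.charpoly, map_add, map_mul, Polynomial.aeval_X,
    Polynomial.aeval_C] at h1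
  have h2 := LinearMap.congr_fun h1 ⟨v, hv⟩
  rw [LinearMap.add_apply, Module.End.mul_apply, Module.algebraMap_end_apply,
    LinearMap.zero_apply] at h2
  have h3 := congrArg Subtype.val h2
  rw [Submodule.coe_add, hres, Submodule.coe_smul, Submodule.coe_zero] at h3
  have h4 : ((T' ⟨v, hv⟩ : N) : V) = T v := rfl
  rw [h4] at h3
  change Polynomial.aeval T T'.charpoly.divX (T v) + T'.charpoly.coeff 0 • v = 0 at h3
  rw [map_mul, Polynomial.aeval_C, Module.End.mul_apply, Module.algebraMap_end_apply,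
    eq_neg_of_add_eq_zero_left h3, smul_neg, neg_smul, neg_neg, smul_smul, inv_mul_cancel₀ hc,
    one_smul]

variable {k l : ℕ}

/-- The colour element: it projects on the odd colour of the additional strand. -/
theorem exists_E (k l : ℕ) : ∃ E : MonoidAlgebra ℚ (Perm (Fin (mm k l + 1))),
    ∀ c : Lt k l, act k l _ E (ins c (xi k l))
      = (if odd c then (1 : ℚ) else 0) • ins c (xi k l) := by
  obtain ⟨q, hq⟩ := exists_poly_inv (act k l _ (tt k l (mm k l))) (Lx (xi k l))
    (fun v hv => Lx_tt hv) (fun v hv h => tt_inj xi_g0 xi_supp hv h)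
  refine ⟨1 - Polynomial.aeval (tt k l (mm k l)) q * (XB (B2 k l) + (k : ℚ) • 1), fun c => ?_⟩
  have h1 : act k l _ (Polynomial.aeval (tt k l (mm k l)) q)
      = Polynomial.aeval (act k l _ (tt k l (mm k l))) q :=
    (Polynomial.aeval_algHom_apply _ _ _).symm
  have h2 : ∀ u, act k l _ (XB (B2 k l) + (k : ℚ) • 1) u
      = act k l _ (XB (B2 k l)) u + (k : ℚ) • u := by
    intro u
    rw [map_add, map_smul, map_one]; rfl
  rw [map_sub, map_one, map_mul, LinearMap.sub_apply, Module.End.one_apply,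
    Module.End.mul_apply, h2, h1]
  rcases c with a | a
  · have h3 : act k l _ (XB (B2 k l)) (ins (Sum.inl a) (xi k l))
        + (k : ℚ) • ins (Sum.inl a) (xi k l)
        = act k l _ (tt k l (mm k l)) (ins (Sum.inl a) (xi k l)) := by
      rw [act_tt, XB_univ, map_add, LinearMap.add_apply, X1_ins]
      rw [sub_smul]
      abel
    rw [h3, hq _ (ins_mem_Lx _), sub_self]
    simp
  · rw [X2_ins]
    have h3 : (-(k : ℚ)) • ins (Sum.inr a : Lt k l) (xi k l)
        + (k : ℚ) • ins (Sum.inr a) (xi k l) = 0 := by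
      rw [neg_smul, neg_add_cancel]
    rw [h3, map_zero, sub_zero]
    simp

/-- MAIN THEOREM of the E-block. -/
theorem main (k l : ℕ) :
    ∃ (z : MonoidAlgebra ℚ (Perm (Fin (mm k l))))
      (E : MonoidAlgebra ℚ (Perm (Fin (mm k l + 1)))),
      act k l _ z (xi k l) = xi k l ∧ (∀ f, act k l _ z f ∈ Ux (xi k l)) ∧
      (∀ (n : ℕ) (y : MonoidAlgebra ℚ (Perm (Fin (n + mm k l)))),
        (∀ v : Fin n → Lt k l, act k l _ y (tn v (xi k l)) = 0) →
        act k l _ (y * pl (phR n (mm k l)) z) = 0) ∧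
      (∀ (n : ℕ) (i : Fin n) (v : Fin n → Lt k l),
        act k l _ (pl (phi n (mm k l) i) E) (tn v (xi k l))
          = (if odd (v i) then (1 : ℚ) else 0) • tn v (xi k l)) := by
  obtain ⟨z, hz1, hz2⟩ := exists_z (xi k l)
  obtain ⟨E, hE⟩ := exists_E k l
  exact ⟨z, E, hz1, hz2, fun n y hy => principle hz2 y hy,
    fun n i v => act_phi (e := fun c => if odd c then (1 : ℚ) else 0) hE i v⟩

/-! ### Relations -/

section rel

variable {m n : ℕ}

/-- The data of a catalyst. -/
structure Cat (k l m : ℕ) where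
  /-- the vector -/
  ξ : W k l (Fin m)
  /-- the idempotent -/
  z : MonoidAlgebra ℚ (Perm (Fin m))
  /-- the colour element -/
  E : MonoidAlgebra ℚ (Perm (Fin (m + 1)))
  hz1 : act k l _ z ξ = ξ
  hz2 : ∀ f, act k l _ z f ∈ Ux ξ
  hE : ∀ c : Lt k l, act k l _ E (ins c ξ) = (if odd c then (1 : ℚ) else 0) • ins c ξ

/-- The determinant catalyst. -/
noncomputable def catalyst (k l : ℕ) : Cat k l (mm k l) :=
  { ξ := xi k l
    z := (exists_z (xi k l)).choose
    E := (exists_E k l).choose
    hz1 := (exists_z (xi k l)).choose_spec.1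
    hz2 := (exists_z (xi k l)).choose_spec.2
    hE := (exists_E k l).choose_spec }

namespace Cat

variable (C : Cat k l m)

/-- `1 ⊗ z`. -/
noncomputable def Z (n : ℕ) : MonoidAlgebra ℚ (Perm (Fin (n + m))) := pl (phR n m) C.z

/-- The colour element on strand `i`. -/
noncomputable def Ei (n : ℕ) (i : Fin n) : MonoidAlgebra ℚ (Perm (Fin (n + m))) :=
  pl (phi n m i) C.E

theorem act_Z (v : Fin n → Lt k l) : act k l _ (C.Z n) (tn v C.ξ) = tn v C.ξ := by
  unfold Z; rw [act_pl_tn, C.hz1]

theorem act_Ei (i : Fin n) (v : Fin n → Lt k l) :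
    act k l _ (C.Ei n i) (tn v C.ξ) = (if odd (v i) then (1 : ℚ) else 0) • tn v C.ξ :=
  act_phi (e := fun c => if odd c then (1 : ℚ) else 0) C.hE i v

/-- The principle: an element killing all `e_v ⊗ ξ` is in `K(k|l)` after multiplication
with `1 ⊗ z`. -/
theorem ker_of (y : MonoidAlgebra ℚ (Perm (Fin (n + m))))
    (hy : ∀ v : Fin n → Lt k l, act k l _ y (tn v C.ξ) = 0) :
    act k l _ (y * C.Z n) = 0 :=
  principle C.hz2 y hy

theorem Z_idem : act k l _ ((C.Z n - 1) * C.Z n) = 0 := by
  refine C.ker_of _ (fun v => ?_)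
  rw [map_sub, map_one, LinearMap.sub_apply, act_Z, Module.End.one_apply, sub_self]

theorem Z_Ei (i : Fin n) : act k l _ ((C.Z n * C.Ei n i - C.Ei n i) * C.Z n) = 0 := by
  refine C.ker_of _ (fun v => ?_)
  rw [map_sub, map_mul, LinearMap.sub_apply, Module.End.mul_apply, act_Ei, map_smul, act_Z,
    sub_self]

theorem Ei_idem (i : Fin n) : act k l _ ((C.Ei n i * C.Ei n i - C.Ei n i) * C.Z n) = 0 := by
  refine C.ker_of _ (fun v => ?_)
  rw [map_sub, map_mul, LinearMap.sub_apply, Module.End.mul_apply, act_Ei, map_smul, act_Ei,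
    smul_smul, ← sub_smul]
  split_ifs <;> simp

theorem Ei_comm (i j : Fin n) :
    act k l _ ((C.Ei n i * C.Ei n j - C.Ei n j * C.Ei n i) * C.Z n) = 0 := by
  refine C.ker_of _ (fun v => ?_)
  rw [map_sub, map_mul, map_mul, LinearMap.sub_apply, Module.End.mul_apply,
    Module.End.mul_apply, act_Ei, act_Ei, map_smul, map_smul, act_Ei, act_Ei, smul_comm, sub_self]

/-- A permutation of the strands. -/
noncomputable def S (n m : ℕ) (σ : Perm (Fin n)) : MonoidAlgebra ℚ (Perm (Fin (n + m))) :=
  MonoidAlgebra.of ℚ _ (ext (phL n m) σ)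

theorem S_mul (σ τ : Perm (Fin n)) : S n m (σ * τ) = S n m σ * S n m τ := by
  unfold S; rw [map_mul, map_mul]

theorem S_one : S n m (1 : Perm (Fin n)) = 1 := by
  unfold S; rw [map_one, map_one]

/-- Conjugation moves the colour element, exactly. -/
theorem S_Ei (σ : Perm (Fin n)) (i : Fin n) : S n m σ * C.Ei n i = C.Ei n (σ i) * S n m σ := by
  unfold S Ei
  have hT : ∀ a, ext (phL n m) σ (phi n m i a) = phi n m (σ i) a := by
    intro a
    rcases Fin.eq_zero_or_eq_succ a with rfl | ⟨a, rfl⟩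
    · exact ext_apply (phL n m) σ i
    · exact ext_apply' _ _ _ (phL_notMem a)
  rw [pl_conj (phi n m i) (phi n m (σ i)) (ext (phL n m) σ) hT, mul_assoc, mul_assoc,
    ← map_mul (MonoidAlgebra.of ℚ _), inv_mul_cancel, map_one, mul_one]

/-- Strand permutations commute with `1 ⊗ z`, exactly. -/
theorem S_Z (σ : Perm (Fin n)) : S n m σ * C.Z n = C.Z n * S n m σ := by
  unfold S Z
  have hT : ∀ a, ext (phL n m) σ (phR n m a) = phR n m a := fun a =>
    ext_apply' _ _ _ (phL_notMem a)
  have h := pl_conj (phR n m) (phR n m) (ext (phL n m) σ) hT C.z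
  conv_rhs => rw [h, mul_assoc, mul_assoc, ← map_mul (MonoidAlgebra.of ℚ _), inv_mul_cancel,
    map_one, mul_one]

theorem act_S (σ : Perm (Fin n)) (v : Fin n → Lt k l) (f : W k l (Fin m)) :
    act k l _ (S n m σ) (tn v f) = eps σ (pv v) • tn (v ∘ ⇑σ⁻¹) f := by
  unfold S; rw [act_of, rho_tn]

/-- The sign operators. -/
noncomputable def SG (σ : Perm (Fin n)) : MonoidAlgebra ℚ (Perm (Fin (n + m))) :=
  ((prs (Fin n)).toList.map (fun q => if σ q.2 < σ q.1 then
    1 - (2 : ℚ) • (C.Ei n q.1 * C.Ei n q.2) else 1)).prod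

theorem act_SG (σ : Perm (Fin n)) (v : Fin n → Lt k l) :
    act k l _ (C.SG σ) (tn v C.ξ) = eps σ (pv v) • tn v C.ξ := by
  have h1 : ∀ L : List (Fin n × Fin n), act k l _ ((L.map (fun q => if σ q.2 < σ q.1 then
      1 - (2 : ℚ) • (C.Ei n q.1 * C.Ei n q.2) else 1)).prod) (tn v C.ξ)
      = ((L.map (fun q => if σ q.2 < σ q.1 then (if pv v q.1 && pv v q.2 then (-1 : ℚ) else 1)
        else 1)).prod) • tn v C.ξ := by
    intro L
    induction L with
    | nil => simp
    | cons q L ih =>
      rw [List.map_cons, List.prod_cons, List.map_cons, List.prod_cons, map_mul,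
        Module.End.mul_apply, ih, map_smul, mul_comm, mul_smul]
      congr 1
      by_cases hq : σ q.2 < σ q.1
      · rw [if_pos hq, if_pos hq, map_sub, map_one, map_smul, map_mul, LinearMap.sub_apply,
          LinearMap.smul_apply, Module.End.mul_apply, act_Ei, map_smul, act_Ei,
          Module.End.one_apply, smul_smul, smul_smul]
        nth_rewrite 1 [← one_smul ℚ (tn v C.ξ)]
        rw [← sub_smul]
        congr 1
        unfold pv
        cases odd (v q.1) <;> cases odd (v q.2) <;> simp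
        norm_num
      · rw [if_neg hq, if_neg hq, map_one, one_smul]; rfl
  unfold SG
  rw [h1, Finset.prod_map_toList]
  congr 1
  unfold eps
  refine Finset.prod_congr rfl (fun q hq => ?_)
  rw [mem_prs] at hq
  unfold H
  by_cases h2 : σ q.2 < σ q.1
  · have h3 : ¬ σ q.1 < σ q.2 := not_lt.2 h2.le
    simp [h2, h3, hq]
  · have h3 : σ q.1 < σ q.2 := lt_of_le_of_ne (not_lt.1 h2) (fun e => hq.ne (σ.injective e))
    simp [h2, h3, hq]

/-- The plain flips. -/
noncomputable def fl (σ : Perm (Fin n)) : MonoidAlgebra ℚ (Perm (Fin (n + m))) :=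
  S n m σ * C.SG σ

theorem act_fl (σ : Perm (Fin n)) (v : Fin n → Lt k l) :
    act k l _ (C.fl σ) (tn v C.ξ) = tn (v ∘ ⇑σ⁻¹) C.ξ := by
  unfold fl
  rw [map_mul, Module.End.mul_apply, act_SG, map_smul, act_S, smul_smul, eps_sq, one_smul]

theorem fl_mul (σ τ : Perm (Fin n)) :
    act k l _ ((C.fl σ * C.fl τ - C.fl (σ * τ)) * C.Z n) = 0 := by
  refine C.ker_of _ (fun v => ?_)
  rw [map_sub, map_mul, LinearMap.sub_apply, Module.End.mul_apply, act_fl, act_fl, act_fl,
    sub_eq_zero]
  congr 1

theorem fl_one : act k l _ ((C.fl (1 : Perm (Fin n)) - 1) * C.Z n) = 0 := by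
  refine C.ker_of _ (fun v => ?_)
  rw [map_sub, map_one, LinearMap.sub_apply, act_fl, Module.End.one_apply, sub_eq_zero]
  congr 1

theorem fl_Ei (σ : Perm (Fin n)) (i : Fin n) :
    act k l _ ((C.fl σ * C.Ei n i - C.Ei n (σ i) * C.fl σ) * C.Z n) = 0 := by
  refine C.ker_of _ (fun v => ?_)
  rw [map_sub, map_mul, map_mul, LinearMap.sub_apply, Module.End.mul_apply,
    Module.End.mul_apply, act_fl, act_Ei, map_smul, act_fl, act_Ei, sub_eq_zero]
  congr 2
  simp

theorem Z_fl (σ : Perm (Fin n)) :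
    act k l _ ((C.Z n * C.fl σ - C.fl σ) * C.Z n) = 0 := by
  refine C.ker_of _ (fun v => ?_)
  rw [map_sub, map_mul, LinearMap.sub_apply, Module.End.mul_apply, act_fl, act_Z, sub_self]

/-- The antisymmetrizer of the plain flips on more than `k + l` strands is zero. -/
theorem alt_fl (T : Finset (Fin n)) (hT : k + l < T.card) :
    act k l _ ((∑ σ ∈ univ.filter (fun σ : Perm (Fin n) => ∀ i, i ∉ T → σ i = i),
      ((Perm.sign σ : ℤ) : ℚ) • C.fl σ) * C.Z n) = 0 := by
  classical
  refine C.ker_of _ (fun v => ?_)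
  rw [map_sum, LinearMap.sum_apply]
  simp only [map_smul, LinearMap.smul_apply, act_fl]
  -- two positions with the same letter
  have hcard : (univ : Finset (Lt k l)).card < T.card := by
    rw [Finset.card_univ, Fintype.card_sum, Fintype.card_fin, Fintype.card_fin]; exact hT
  obtain ⟨i, hi, j, hj, hij, hv⟩ := Finset.exists_ne_map_eq_of_card_lt_of_maps_to hcard
    (fun i _ => Finset.mem_univ (v i))
  refine Finset.sum_involution (fun σ _ => σ * swap i j) ?_ ?_ ?_ ?_
  · intro σ _
    rw [Perm.sign_mul, Perm.sign_swap hij]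
    have h1 : v ∘ ⇑(σ * swap i j)⁻¹ = v ∘ ⇑σ⁻¹ := by
      funext x
      rw [mul_inv_rev, swap_inv]
      simp only [Function.comp_apply, Perm.mul_apply]
      by_cases h2 : σ⁻¹ x = i
      · rw [h2, swap_apply_left, hv]
      · by_cases h3 : σ⁻¹ x = j
        · rw [h3, swap_apply_right, hv]
        · rw [swap_apply_of_ne_of_ne h2 h3]
    rw [h1, ← add_smul]
    simp
  · intro σ _ _ h
    have : swap i j = 1 := by
      have := congrArg (fun x => σ⁻¹ * x) h
      simpa using this
    exact hij (swap_eq_one_iff.1 this)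
  · intro σ hσ
    rw [Finset.mem_filter] at *
    refine ⟨Finset.mem_univ _, fun x hx => ?_⟩
    rw [Perm.mul_apply, swap_apply_of_ne_of_ne, hσ.2 x hx]
    · rintro rfl; exact hx hi
    · rintro rfl; exact hx hj
  · intro σ _
    rw [mul_assoc, swap_mul_self, mul_one]

end Cat

end rel

end Pool.PI34.Super
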