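import Pool.Agent.LibPI34.T1_Defs

/-! PI34, theorem T1, file A: products of identities; identities of matrices. -/

set_option autoImplicit false

namespace Pool.PI34.T1

open Equiv Finset Pool.PI34.C0 Pool.PI34.BA

/-- block permutations -/
noncomputable def t1a_blk {p q : ℕ} (x : Perm (Fin p) × Perm (Fin q)) : Perm (Fin (p + q)) :=
  finSumFinEquiv.permCongr (Equiv.Perm.sumCongr x.1 x.2)

theorem t1a_blk_left {p q : ℕ} (x : Perm (Fin p) × Perm (Fin q)) (i : Fin p) :
    t1a_blk x (Fin.castAdd q i) = Fin.castAdd q (x.1 i) := by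
  unfold t1a_blk
  rw [Equiv.permCongr_apply, finSumFinEquiv_symm_apply_castAdd, Equiv.Perm.sumCongr_apply,
    Sum.map_inl, finSumFinEquiv_apply_left]

theorem t1a_blk_right {p q : ℕ} (x : Perm (Fin p) × Perm (Fin q)) (i : Fin q) :
    t1a_blk x (Fin.natAdd p i) = Fin.natAdd p (x.2 i) := by
  unfold t1a_blk
  rw [Equiv.permCongr_apply, finSumFinEquiv_symm_apply_natAdd, Equiv.Perm.sumCongr_apply,
    Sum.map_inr, finSumFinEquiv_apply_right]

theorem t1a_blk_inj {p q : ℕ} : Function.Injective (t1a_blk (p := p) (q := q)) := by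
  rintro ⟨σ, τ⟩ ⟨σ', τ'⟩ h
  refine Prod.ext (Equiv.ext fun i => ?_) (Equiv.ext fun i => ?_)
  · have h1 := congrArg (fun e : Perm (Fin (p + q)) => e (Fin.castAdd q i)) h
    simp only [t1a_blk_left] at h1
    exact Fin.castAdd_injective p q h1
  · have h1 := congrArg (fun e : Perm (Fin (p + q)) => e (Fin.natAdd p i)) h
    simp only [t1a_blk_right] at h1
    exact Fin.natAdd_injective q p h1

theorem t1a_blk_one {p q : ℕ} : t1a_blk (p := p) (q := q) (1, 1) = 1 := by
  refine Equiv.ext fun i => ?_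
  refine Fin.addCases (fun i => ?_) (fun i => ?_) i
  · rw [t1a_blk_left]; rfl
  · rw [t1a_blk_right]; rfl

theorem t1a_mono_blk {U : Type} [Monoid U] {p q : ℕ} (x : Fin (p + q) → U)
    (s : Perm (Fin p) × Perm (Fin q)) :
    mono x (t1a_blk s) = mono (fun i => x (Fin.castAdd q i)) s.1 *
      mono (fun i => x (Fin.natAdd p i)) s.2 := by
  unfold mono
  rw [List.ofFn_add, List.prod_append]
  congr 2
  · congr 1
    funext i
    have := t1a_blk_left s i
    exact congrArg x this
  · congr 1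
    funext i
    have := t1a_blk_right s i
    exact congrArg x this

/-- the coefficients of the product -/
noncomputable def t1a_cf {p q : ℕ} (a : Perm (Fin p) → ℤ) (b : Perm (Fin q) → ℤ)
    (ρ : Perm (Fin (p + q))) : ℤ :=
  ∑ s : Perm (Fin p) × Perm (Fin q), if t1a_blk s = ρ then a s.1 * b s.2 else 0

theorem t1a_cf_one {p q : ℕ} (a : Perm (Fin p) → ℤ) (b : Perm (Fin q) → ℤ) :
    t1a_cf a b 1 = a 1 * b 1 := by
  unfold t1a_cf
  rw [Finset.sum_eq_single ((1, 1) : Perm (Fin p) × Perm (Fin q))]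
  · rw [if_pos t1a_blk_one]
  · intro s _ hs
    rw [if_neg]
    intro h
    exact hs (t1a_blk_inj (h.trans t1a_blk_one.symm))
  · intro h; exact absurd (Finset.mem_univ _) h

theorem t1a_sum {U : Type} [Ring U] {p q : ℕ} (a : Perm (Fin p) → ℤ) (b : Perm (Fin q) → ℤ)
    (x : Fin (p + q) → U) : ∑ ρ, t1a_cf a b ρ • mono x ρ =
      (∑ σ, a σ • mono (fun i => x (Fin.castAdd q i)) σ) *
        ∑ τ, b τ • mono (fun i => x (Fin.natAdd p i)) τ := by
  have h1 : ∀ ρ : Perm (Fin (p + q)), t1a_cf a b ρ • mono x ρ =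
      ∑ s : Perm (Fin p) × Perm (Fin q), if t1a_blk s = ρ then (a s.1 * b s.2) • mono x ρ
        else 0 := by
    intro ρ
    unfold t1a_cf
    rw [Finset.sum_smul]
    refine Finset.sum_congr rfl fun s _ => ?_
    split_ifs
    · rfl
    · rw [zero_smul]
  rw [Finset.sum_congr rfl fun ρ _ => h1 ρ, Finset.sum_comm]
  have h2 : ∀ s : Perm (Fin p) × Perm (Fin q),
      (∑ ρ, if t1a_blk s = ρ then (a s.1 * b s.2) • mono x ρ else 0) =
        (a s.1 • mono (fun i => x (Fin.castAdd q i)) s.1) *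
          (b s.2 • mono (fun i => x (Fin.natAdd p i)) s.2) := by
    intro s
    rw [Finset.sum_ite_eq, if_pos (Finset.mem_univ _), t1a_mono_blk, smul_mul_smul_comm]
  rw [Finset.sum_congr rfl fun s _ => h2 s, ← Finset.univ_product_univ, Finset.sum_product,
    Finset.sum_mul_sum]

/-- PROOF.  Multiply `Σ a_σ x_σ` (variables `0 … d`) and `Σ b_τ x_τ` (variables `d+1 … d+e+1`): the multilinear
polynomial with coefficients `a_σ b_τ` at the block permutation `(σ, τ)` and `0` elsewhere
(`finSumFinEquiv`, `Equiv.Perm.sumCongr`, `Finset.sum_subset` / `Finset.sum_image`). -/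
theorem MPI_mul {U : Type} [Ring U] (I J : Ideal U) [I.IsTwoSided] [J.IsTwoSided] (hI : MPI I)
    (hJ : MPI J) : MPI (I * J) := by
  obtain ⟨d, a, ha, hI⟩ := hI
  obtain ⟨e, b, hb, hJ⟩ := hJ
  refine ⟨d + 1 + e, t1a_cf (p := d + 1) (q := e + 1) a b, ?_, fun x => ?_⟩
  · exact (t1a_cf_one a b).trans (by rw [ha, hb, one_mul])
  · have h := t1a_sum (p := d + 1) (q := e + 1) a b x
    have h2 : (∑ σ, a σ • mono (fun i => x (Fin.castAdd (e + 1) i)) σ) *
        (∑ τ, b τ • mono (fun i => x (Fin.natAdd (d + 1) i)) τ) ∈ I * J :=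
      Ideal.mul_mem_mul (hI _) (hJ _)
    rw [← h] at h2
    exact h2

theorem MPI_mono {U : Type} [Ring U] (I J : Ideal U) (h : I ≤ J) (hI : MPI I) : MPI J := by
  obtain ⟨d, a, ha, hI⟩ := hI
  exact ⟨d, a, ha, fun x => h (hI x)⟩

/-- the standard polynomial of degree `k² + 1` vanishes on `k × k` matrices over a commutative ring
(alternating multilinear, expand in the matrix units, pigeonhole). -/
theorem MPI_matrix (k : ℕ) (C : Type) [CommRing C] :
    ∀ x : Fin (k ^ 2 + 1) → Matrix (Fin k) (Fin k) C,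
      ∑ σ : Perm (Fin (k ^ 2 + 1)), ((Perm.sign σ : ℤˣ) : ℤ) • mono x σ = 0 := by
  intro x
  let f : (Matrix (Fin k) (Fin k) C) [⋀^Fin (k ^ 2 + 1)]→ₗ[C] (Matrix (Fin k) (Fin k) C) :=
    MultilinearMap.alternatization
      (MultilinearMap.mkPiAlgebraFin C (k ^ 2 + 1) (Matrix (Fin k) (Fin k) C))
  have hf : f = 0 := by
    refine Module.Basis.ext_alternating (Matrix.stdBasis C (Fin k) (Fin k)) (fun v hv => ?_)
    exfalso
    have h1 := Fintype.card_le_of_injective v hv
    rw [Fintype.card_fin, Fintype.card_prod, Fintype.card_fin] at h1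
    nlinarith
  have h2 : f x = ∑ σ : Perm (Fin (k ^ 2 + 1)), ((Perm.sign σ : ℤˣ) : ℤ) • mono x σ := by
    change MultilinearMap.alternatization
      (MultilinearMap.mkPiAlgebraFin C (k ^ 2 + 1) (Matrix (Fin k) (Fin k) C)) x = _
    rw [MultilinearMap.alternatization_apply]
    refine Finset.sum_congr rfl fun σ _ => ?_
    rw [MultilinearMap.domDomCongr_apply, MultilinearMap.mkPiAlgebraFin_apply]
    rfl
  rw [← h2, hf]
  rfl

instance (X : Type) (k : ℕ) : (IdM X k).IsTwoSided := by
  unfold IdM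
  infer_instance

theorem t1a_map_mono {U W : Type} [Ring U] [Ring W] (φ : U →+* W) {n : ℕ} (x : Fin n → U)
    (σ : Perm (Fin n)) : φ (mono x σ) = mono (fun i => φ (x i)) σ := by
  unfold mono
  rw [map_list_prod, List.map_ofFn]
  rfl

theorem MPI_IdM (X : Type) (k : ℕ) : MPI (IdM X k) := by
  refine ⟨k ^ 2, fun σ => ((Perm.sign σ : ℤˣ) : ℤ), by simp, fun x => ?_⟩
  unfold IdM
  rw [RingHom.mem_ker, map_sum]
  have h := MPI_matrix k (CG X k) (fun i => (FreeAlgebra.lift ℤ (gen X k)).toRingHom (x i))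
  rw [← h]
  refine Finset.sum_congr rfl fun σ _ => ?_
  rw [map_zsmul, t1a_map_mono]

/-- specialization: an element of `IdM X k` vanishes on all `k × k` matrices over all commutative rings -/
theorem IdM_spec (X : Type) (k : ℕ) (g : FreeAlgebra ℤ X) (hg : g ∈ IdM X k) (C : Type)
    [CommRing C] (m : X → Matrix (Fin k) (Fin k) C) : FreeAlgebra.lift ℤ m g = 0 := by
  unfold IdM at hg
  rw [RingHom.mem_ker] at hg
  have hg' : FreeAlgebra.lift ℤ (gen X k) g = 0 := hg
  let φ : CG X k →ₐ[ℤ] C := MvPolynomial.aeval (fun y : X × Fin k × Fin k => m y.1 y.2.1 y.2.2)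
  have h1 : (φ.mapMatrix (m := Fin k)).comp (FreeAlgebra.lift ℤ (gen X k)) =
      FreeAlgebra.lift ℤ m := by
    refine FreeAlgebra.hom_ext ?_
    funext a
    simp only [Function.comp_apply, AlgHom.comp_apply, FreeAlgebra.lift_ι_apply]
    ext i j
    rw [AlgHom.mapMatrix_apply, Matrix.map_apply]
    change MvPolynomial.aeval (fun y : X × Fin k × Fin k => m y.1 y.2.1 y.2.2)
      (MvPolynomial.X (a, i, j)) = m a i j
    rw [MvPolynomial.aeval_X]
  rw [← h1, AlgHom.comp_apply, hg', map_zero]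

/-- `Mat_k(ℤ[x])` is torsion free -/
theorem PureI_IdM (X : Type) (k : ℕ) : PureI (IdM X k) := by
  intro m g hm hg
  unfold IdM at hg ⊢
  rw [RingHom.mem_ker] at hg ⊢
  rw [map_mul, map_natCast] at hg
  funext i j
  have h1 := congrFun (congrFun hg i) j
  have h2 : ((m : Matrix (Fin k) (Fin k) (CG X k)) *
      (FreeAlgebra.lift ℤ (gen X k)).toRingHom g) i j =
      (m : CG X k) * ((FreeAlgebra.lift ℤ (gen X k)).toRingHom g) i j := by
    rw [← nsmul_eq_mul, Matrix.smul_apply, nsmul_eq_mul]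
  rw [h2, Matrix.zero_apply] at h1
  have h3 : (m : CG X k) ≠ 0 := by exact_mod_cast hm
  exact (mul_eq_zero.1 h1).resolve_left h3

instance (X : Type) (l : List ℕ) : (prodI X l).IsTwoSided := by
  induction l with
  | nil => unfold prodI; infer_instance
  | cons k l ih => unfold prodI; infer_instance

theorem MPI_prodI (X : Type) (l : List ℕ) : MPI (prodI X l) := by
  induction l with
  | nil =>
    unfold prodI
    exact ⟨0, fun _ => 1, rfl, fun x => Submodule.mem_top⟩
  | cons k l ih =>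
    unfold prodI
    exact MPI_mul _ _ (MPI_IdM X k) ih

theorem prodI_append (X : Type) (l l' : List ℕ) : prodI X (l ++ l') = prodI X l * prodI X l' := by
  induction l with
  | nil =>
    change prodI X l' = ⊤ * prodI X l'
    exact (Submodule.top_smul (prodI X l')).symm
  | cons k l ih =>
    change IdM X k * prodI X (l ++ l') = (IdM X k * prodI X l) * prodI X l'
    rw [ih]
    exact (Submodule.mul_smul (IdM X k) (prodI X l) (prodI X l')).symm

end Pool.PI34.T1
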