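import Pool.Agent.LibPI34.T1_A

/-! PI34, theorem T1, file B: Lewin purity: if `F/I` and `F/J` are torsion free then so is `F/IJ`. -/

set_option autoImplicit false

namespace Pool.PI34.T1

open scoped TensorProduct

section

variable {X A B : Type} [DecidableEq X] [Ring A] [Ring B]

/-- the Fox derivative with respect to the letter `x`, as a ring homomorphism to the matrices
`[[f ⊗ 1, ∂_x f], [0, 1 ⊗ f]]` over `A ⊗ B`; `a : X → A`, `b : X → B` the images of the letters. -/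
noncomputable def fox (a : X → A) (b : X → B) (x : X) :
    FreeAlgebra ℤ X →ₐ[ℤ] Matrix (Fin 2) (Fin 2) (A ⊗[ℤ] B) :=
  FreeAlgebra.lift ℤ fun y => !![a y ⊗ₜ 1, if y = x then 1 else 0; 0, 1 ⊗ₜ b y]

/-- the Fox derivative `∂_x f ∈ A ⊗ B` -/
noncomputable def dx (a : X → A) (b : X → B) (x : X) (f : FreeAlgebra ℤ X) : A ⊗[ℤ] B :=
  fox a b x f 0 1

theorem lewin_fox_alg (a : X → A) (b : X → B) (x : X) (r : ℤ) :
    fox a b x (algebraMap ℤ _ r) 0 0 = algebraMap ℤ A r ⊗ₜ 1 ∧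
    fox a b x (algebraMap ℤ _ r) 0 1 = 0 ∧
    fox a b x (algebraMap ℤ _ r) 1 0 = 0 ∧
    fox a b x (algebraMap ℤ _ r) 1 1 = 1 ⊗ₜ algebraMap ℤ B r := by
  rw [AlgHom.commutes]
  refine ⟨?_, ?_, ?_, ?_⟩
  · rw [Matrix.algebraMap_matrix_apply, if_pos rfl, Algebra.TensorProduct.algebraMap_apply]
  · rw [Matrix.algebraMap_matrix_apply, if_neg (by decide)]
  · rw [Matrix.algebraMap_matrix_apply, if_neg (by decide)]
  · rw [Matrix.algebraMap_matrix_apply, if_pos rfl, Algebra.TensorProduct.algebraMap_apply']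

theorem lewin_fox_entries (a : X → A) (b : X → B) (x : X) (f : FreeAlgebra ℤ X) :
    fox a b x f 0 0 = FreeAlgebra.lift ℤ a f ⊗ₜ 1 ∧ fox a b x f 1 0 = 0 ∧
      fox a b x f 1 1 = 1 ⊗ₜ FreeAlgebra.lift ℤ b f := by
  refine FreeAlgebra.induction ℤ X (motive := fun f => fox a b x f 0 0 =
    FreeAlgebra.lift ℤ a f ⊗ₜ 1 ∧ fox a b x f 1 0 = 0 ∧
      fox a b x f 1 1 = 1 ⊗ₜ FreeAlgebra.lift ℤ b f) ?_ ?_ ?_ ?_ f
  · intro r
    obtain ⟨h1, -, h3, h4⟩ := lewin_fox_alg a b x r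
    rw [h1, h3, h4, AlgHom.commutes, AlgHom.commutes]
    exact ⟨rfl, rfl, rfl⟩
  · intro y
    simp [fox]
  · rintro f g ⟨h1, h2, h3⟩ ⟨k1, k2, k3⟩
    rw [map_mul, map_mul, map_mul]
    refine ⟨?_, ?_, ?_⟩
    · rw [Matrix.mul_apply, Fin.sum_univ_two, h1, k1, k2, mul_zero, add_zero,
        Algebra.TensorProduct.tmul_mul_tmul, one_mul]
    · rw [Matrix.mul_apply, Fin.sum_univ_two, h2, k2, mul_zero, zero_mul, add_zero]
    · rw [Matrix.mul_apply, Fin.sum_univ_two, h2, h3, k3, zero_mul, zero_add,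
        Algebra.TensorProduct.tmul_mul_tmul, one_mul]
  · rintro f g ⟨h1, h2, h3⟩ ⟨k1, k2, k3⟩
    rw [map_add, map_add, map_add]
    refine ⟨?_, ?_, ?_⟩
    · rw [Matrix.add_apply, h1, k1, TensorProduct.add_tmul]
    · rw [Matrix.add_apply, h2, k2, add_zero]
    · rw [Matrix.add_apply, h3, k3, TensorProduct.tmul_add]

theorem fox_eq (a : X → A) (b : X → B) (x : X) (f : FreeAlgebra ℤ X) :
    fox a b x f = !![FreeAlgebra.lift ℤ a f ⊗ₜ 1, dx a b x f; 0,
      1 ⊗ₜ FreeAlgebra.lift ℤ b f] := by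
  obtain ⟨h1, h2, h3⟩ := lewin_fox_entries a b x f
  ext i j
  fin_cases i <;> fin_cases j
  · exact h1
  · rfl
  · exact h2
  · exact h3

theorem dx_mul (a : X → A) (b : X → B) (x : X) (f g : FreeAlgebra ℤ X) :
    dx a b x (f * g) = (FreeAlgebra.lift ℤ a f ⊗ₜ 1) * dx a b x g +
      dx a b x f * (1 ⊗ₜ FreeAlgebra.lift ℤ b g) := by
  obtain ⟨h1, h2, h3⟩ := lewin_fox_entries a b x f
  obtain ⟨k1, k2, k3⟩ := lewin_fox_entries a b x g
  unfold dx
  rw [map_mul, Matrix.mul_apply, Fin.sum_univ_two, h1, k3]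

theorem dx_add (a : X → A) (b : X → B) (x : X) (f g : FreeAlgebra ℤ X) :
    dx a b x (f + g) = dx a b x f + dx a b x g := by
  unfold dx
  rw [map_add, Matrix.add_apply]

theorem dx_alg (a : X → A) (b : X → B) (x : X) (r : ℤ) :
    dx a b x (algebraMap ℤ _ r) = 0 := (lewin_fox_alg a b x r).2.1

theorem dx_ι (a : X → A) (b : X → B) (x y : X) :
    dx a b x (FreeAlgebra.ι ℤ y) = if y = x then 1 else 0 := by
  simp [dx, fox]

/-- naturality -/
theorem dx_map {A' B' : Type} [Ring A'] [Ring B'] (f : A →+* A') (g : B →+* B') (a : X → A)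
    (b : X → B) (x : X) (u : FreeAlgebra ℤ X) :
    Algebra.TensorProduct.map f.toIntAlgHom g.toIntAlgHom (dx a b x u) =
      dx (fun y => f (a y)) (fun y => g (b y)) x u := by
  have h : ((Algebra.TensorProduct.map f.toIntAlgHom g.toIntAlgHom).mapMatrix).comp (fox a b x) =
      fox (fun y => f (a y)) (fun y => g (b y)) x := by
    apply FreeAlgebra.hom_ext
    funext y
    ext i j
    fin_cases i <;> fin_cases j
    · simp [fox]
    · by_cases hy : y = x
      · simp [fox, hy]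
      · simp [fox, hy]
    · simp [fox]
    · simp [fox]
  have h2 := congrArg (fun φ => φ u 0 1) h
  exact h2

omit [DecidableEq X] in
theorem lewin_rl (a : X → A) (b : X → B) (x : X) (c : A) (d : B) (w : A ⊗[ℤ] B) :
    (LinearMap.mulRight ℤ (a x)).rTensor B ((c ⊗ₜ 1) * w) =
      (c ⊗ₜ 1) * (LinearMap.mulRight ℤ (a x)).rTensor B w ∧
    (LinearMap.mulRight ℤ (a x)).rTensor B (w * (1 ⊗ₜ d)) =
      (LinearMap.mulRight ℤ (a x)).rTensor B w * (1 ⊗ₜ d) ∧
    (LinearMap.mulLeft ℤ (b x)).lTensor A ((c ⊗ₜ 1) * w) =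
      (c ⊗ₜ 1) * (LinearMap.mulLeft ℤ (b x)).lTensor A w ∧
    (LinearMap.mulLeft ℤ (b x)).lTensor A (w * (1 ⊗ₜ d)) =
      (LinearMap.mulLeft ℤ (b x)).lTensor A w * (1 ⊗ₜ d) := by
  induction w using TensorProduct.induction_on with
  | zero => simp
  | tmul e f => simp [mul_assoc]
  | add u v hu hv =>
    obtain ⟨h1, h2, h3, h4⟩ := hu
    obtain ⟨k1, k2, k3, k4⟩ := hv
    refine ⟨?_, ?_, ?_, ?_⟩
    · rw [mul_add, map_add, h1, k1, map_add, mul_add]
    · rw [add_mul, map_add, h2, k2, map_add, add_mul]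
    · rw [mul_add, map_add, h3, k3, map_add, mul_add]
    · rw [add_mul, map_add, h4, k4, map_add, add_mul]

/-- `f ⊗ 1 - 1 ⊗ f = Σ_x ( (∂_x f) · (x ⊗ 1) - (1 ⊗ x) · (∂_x f) )`, where `·` means: multiply the `A`-factor on the
right by `x`, the `B`-factor on the left by `x`.  (induction on `f`) -/
theorem dx_fundamental (a : X → A) (b : X → B) (f : FreeAlgebra ℤ X) :
    ∃ Y : Finset X, ∀ Z : Finset X, Y ⊆ Z →
      (FreeAlgebra.lift ℤ a f) ⊗ₜ[ℤ] (1 : B) - (1 : A) ⊗ₜ[ℤ] (FreeAlgebra.lift ℤ b f) =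
        ∑ x ∈ Z, ((LinearMap.mulRight ℤ (a x)).rTensor B (dx a b x f) -
          (LinearMap.mulLeft ℤ (b x)).lTensor A (dx a b x f)) := by
  refine FreeAlgebra.induction ℤ X (motive := fun f => ∃ Y : Finset X, ∀ Z : Finset X, Y ⊆ Z →
      (FreeAlgebra.lift ℤ a f) ⊗ₜ[ℤ] (1 : B) - (1 : A) ⊗ₜ[ℤ] (FreeAlgebra.lift ℤ b f) =
        ∑ x ∈ Z, ((LinearMap.mulRight ℤ (a x)).rTensor B (dx a b x f) -
          (LinearMap.mulLeft ℤ (b x)).lTensor A (dx a b x f))) ?_ ?_ ?_ ?_ f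
  · intro r
    refine ⟨∅, fun Z _ => ?_⟩
    rw [Finset.sum_eq_zero fun x _ => by rw [dx_alg, map_zero, map_zero, sub_zero],
      AlgHom.commutes, AlgHom.commutes, sub_eq_zero, ← Algebra.TensorProduct.algebraMap_apply,
      Algebra.TensorProduct.algebraMap_apply']
  · intro y
    refine ⟨{y}, fun Z hZ => ?_⟩
    rw [Finset.sum_eq_single_of_mem y (hZ (Finset.mem_singleton_self y))]
    · rw [dx_ι, if_pos rfl, Algebra.TensorProduct.one_def]
      simp
    · intro x _ hx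
      rw [dx_ι, if_neg fun h => hx h.symm, map_zero, map_zero, sub_zero]
  · rintro f g ⟨Y, hY⟩ ⟨Y', hY'⟩
    refine ⟨Y ∪ Y', fun Z hZ => ?_⟩
    have h1 := hY Z (Finset.union_subset_left hZ)
    have h2 := hY' Z (Finset.union_subset_right hZ)
    have h3 : (FreeAlgebra.lift ℤ a (f * g)) ⊗ₜ[ℤ] (1 : B) -
        (1 : A) ⊗ₜ[ℤ] (FreeAlgebra.lift ℤ b (f * g)) =
        (FreeAlgebra.lift ℤ a f ⊗ₜ 1) * ((FreeAlgebra.lift ℤ a g) ⊗ₜ[ℤ] (1 : B) -
          (1 : A) ⊗ₜ[ℤ] (FreeAlgebra.lift ℤ b g)) +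
        ((FreeAlgebra.lift ℤ a f) ⊗ₜ[ℤ] (1 : B) - (1 : A) ⊗ₜ[ℤ] (FreeAlgebra.lift ℤ b f)) *
          (1 ⊗ₜ FreeAlgebra.lift ℤ b g) := by
      rw [mul_sub, sub_mul, map_mul, map_mul]
      simp only [Algebra.TensorProduct.tmul_mul_tmul, one_mul, mul_one]
      abel
    rw [h3, h1, h2, Finset.mul_sum, Finset.sum_mul, ← Finset.sum_add_distrib]
    refine Finset.sum_congr rfl fun x _ => ?_
    obtain ⟨e1, -, e3, -⟩ := lewin_rl a b x (FreeAlgebra.lift ℤ a f) (FreeAlgebra.lift ℤ b g)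
      (dx a b x g)
    obtain ⟨-, e2, -, e4⟩ := lewin_rl a b x (FreeAlgebra.lift ℤ a f) (FreeAlgebra.lift ℤ b g)
      (dx a b x f)
    rw [dx_mul, map_add, map_add, e1, e2, e3, e4, mul_sub, sub_mul]
    abel
  · rintro f g ⟨Y, hY⟩ ⟨Y', hY'⟩
    refine ⟨Y ∪ Y', fun Z hZ => ?_⟩
    have h1 := hY Z (Finset.union_subset_left hZ)
    have h2 := hY' Z (Finset.union_subset_right hZ)
    have h3 : (FreeAlgebra.lift ℤ a (f + g)) ⊗ₜ[ℤ] (1 : B) -
        (1 : A) ⊗ₜ[ℤ] (FreeAlgebra.lift ℤ b (f + g)) =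
        ((FreeAlgebra.lift ℤ a f) ⊗ₜ[ℤ] (1 : B) - (1 : A) ⊗ₜ[ℤ] (FreeAlgebra.lift ℤ b f)) +
        ((FreeAlgebra.lift ℤ a g) ⊗ₜ[ℤ] (1 : B) - (1 : A) ⊗ₜ[ℤ] (FreeAlgebra.lift ℤ b g)) := by
      rw [map_add, map_add, TensorProduct.add_tmul, TensorProduct.tmul_add]
      abel
    rw [h3, h1, h2, ← Finset.sum_add_distrib]
    refine Finset.sum_congr rfl fun x _ => ?_
    rw [dx_add, map_add, map_add]
    abel

end


theorem lewin_lift {X K : Type} [Ring K] (l : FreeAlgebra ℤ X →+* K) (g : FreeAlgebra ℤ X) :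
    FreeAlgebra.lift ℤ (fun y => l (FreeAlgebra.ι ℤ y)) g = l g := by
  have h : FreeAlgebra.lift ℤ (fun y => l (FreeAlgebra.ι ℤ y)) = l.toIntAlgHom := by
    apply FreeAlgebra.hom_ext
    funext y
    rw [Function.comp_apply, FreeAlgebra.lift_ι_apply, Function.comp_apply]
    rfl
  rw [h]
  rfl

/-- torsion free rings are flat over `ℤ` -/
theorem lewin_flat {A : Type} [Ring A] (hA : ∀ (m : ℕ) (y : A), m ≠ 0 → (m : A) * y = 0 → y = 0) :
    Module.Flat ℤ A := by
  rw [Module.Flat.flat_iff_torsion_eq_bot_of_isBezout, ← Submodule.isTorsionFree_iff_torsion_eq_bot]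
  have h1 : ∀ (z : ℤ) (y : A), z ≠ 0 → z • y = 0 → y = 0 := by
    intro z y hz hy
    refine hA z.natAbs y (by simpa using hz) ?_
    rcases Int.natAbs_eq z with h | h
    · rw [h, zsmul_eq_mul, Int.cast_natCast] at hy
      exact hy
    · rw [h, zsmul_eq_mul, Int.cast_neg, Int.cast_natCast, neg_mul, neg_eq_zero] at hy
      exact hy
  refine Module.IsTorsionFree.of_smul_eq_zero fun r m h => ?_
  by_cases hr : r = 0
  · exact Or.inl hr
  · exact Or.inr (h1 r m hr h)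

/-- tensor products of torsion free rings are torsion free -/
theorem lewin_tensor_tf {A C : Type} [Ring A] [Ring C]
    (hA : ∀ (m : ℕ) (y : A), m ≠ 0 → (m : A) * y = 0 → y = 0)
    (hC : ∀ (m : ℕ) (y : C), m ≠ 0 → (m : C) * y = 0 → y = 0) (m : ℕ) (hm : m ≠ 0)
    (u : A ⊗[ℤ] C) (hu : m • u = 0) : u = 0 := by
  have hflat := lewin_flat hA
  have h0 : Function.Injective (LinearMap.lsmul ℤ C (m : ℤ)) := by
    rw [injective_iff_map_eq_zero]
    intro y hy
    rw [LinearMap.lsmul_apply, zsmul_eq_mul, Int.cast_natCast] at hy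
    exact hC m y hm hy
  have hinj := Module.Flat.lTensor_preserves_injective_linearMap (M := A) _ h0
  have h3 : ∀ u : A ⊗[ℤ] C, (LinearMap.lsmul ℤ C (m : ℤ)).lTensor A u = m • u := by
    intro u
    induction u using TensorProduct.induction_on with
    | zero => rw [map_zero, smul_zero]
    | tmul e j =>
      rw [LinearMap.lTensor_tmul, LinearMap.lsmul_apply, TensorProduct.tmul_smul,
        natCast_zsmul]
    | add u v hu hv => rw [map_add, hu, hv, smul_add]
  apply hinj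
  rw [h3, h3, hu, smul_zero]

theorem lewin_Phi {A B C D : Type} [Ring A] [Ring B] [Ring C] [AddCommGroup D] (p : B →+* A)
    (q : B →+* C) (hp : Function.Surjective p) (r : B →+ D)
    (hr : ∀ i j, p i = 0 → q j = 0 → r (i * j) = 0) :
    ∃ Φ : A ⊗[ℤ] (LinearMap.ker q.toIntAlgHom.toLinearMap) →+ D,
      ∀ (a : B) (j : LinearMap.ker q.toIntAlgHom.toLinearMap), Φ (p a ⊗ₜ j) = r (a * j) := by
  have hs : ∀ a, p (Function.surjInv hp a) = a := Function.surjInv_eq hp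
  have hr2 : ∀ (a b : B) (j : LinearMap.ker q.toIntAlgHom.toLinearMap), p a = p b →
      r (a * (j : B)) = r (b * j) := by
    intro a b j hab
    have h1 := hr (a - b) j (by rw [map_sub, hab, sub_self]) j.2
    rw [sub_mul, map_sub, sub_eq_zero] at h1
    exact h1
  let G : A →+ ((LinearMap.ker q.toIntAlgHom.toLinearMap) →+ D) :=
    { toFun := fun a =>
        { toFun := fun j => r (Function.surjInv hp a * (j : B))
          map_zero' := by rw [Submodule.coe_zero, mul_zero, map_zero]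
          map_add' := fun j k => by rw [Submodule.coe_add, mul_add, map_add] }
      map_zero' := by
        ext j
        show r (Function.surjInv hp 0 * (j : B)) = 0
        rw [hr2 _ 0 j (by rw [hs, map_zero]), zero_mul, map_zero]
      map_add' := fun a b => by
        ext j
        show r (Function.surjInv hp (a + b) * (j : B)) =
          r (Function.surjInv hp a * (j : B)) + r (Function.surjInv hp b * (j : B))
        rw [hr2 _ (Function.surjInv hp a + Function.surjInv hp b) j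
          (by rw [hs, map_add, hs, hs]), add_mul, map_add] }
  refine ⟨TensorProduct.liftAddHom G ?_, fun a j => ?_⟩
  · intro z a j
    rw [map_zsmul, map_zsmul]
    rfl
  · rw [TensorProduct.liftAddHom_tmul]
    exact hr2 _ _ j (hs _)

theorem lewin_key {X A B C D : Type} [DecidableEq X] [Ring A] [Ring B] [Ring C] [AddCommGroup D]
    (l : FreeAlgebra ℤ X →+* B) (p : B →+* A)
    (q : B →+* C) (hp : Function.Surjective p) (hq : Function.Surjective q) (r : B →+ D)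
    (hr : ∀ i j, p i = 0 → q j = 0 → r (i * j) = 0)
    (hA : ∀ (m : ℕ) (y : A), m ≠ 0 → (m : A) * y = 0 → y = 0)
    (f : FreeAlgebra ℤ X) (hpf : p (l f) = 0) (hqf : q (l f) = 0)
    (hx : ∀ x, dx (fun y => p (l (FreeAlgebra.ι ℤ y))) (fun y => q (l (FreeAlgebra.ι ℤ y))) x f = 0) :
    r (l f) = 0 := by
  have hflat := lewin_flat hA
  obtain ⟨Φ, hΦ⟩ := lewin_Phi p q hp r hr
  obtain ⟨Y, hY⟩ := dx_fundamental (fun y => p (l (FreeAlgebra.ι ℤ y)))
    (fun y => l (FreeAlgebra.ι ℤ y)) f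
  have h1 := hY Y (Finset.Subset.refl Y)
  have hla := lewin_lift (p.comp l) f
  have hlb := lewin_lift l f
  change FreeAlgebra.lift ℤ (fun y => p (l (FreeAlgebra.ι ℤ y))) f = p (l f) at hla
  rw [hla, hlb, hpf, TensorProduct.zero_tmul, zero_sub] at h1
  let J : Submodule ℤ B := LinearMap.ker q.toIntAlgHom.toLinearMap
  have hex : Function.Exact J.subtype q.toIntAlgHom.toLinearMap :=
    LinearMap.exact_subtype_ker_map _
  have hex2 := lTensor_exact A hex hq
  have hw : ∀ x, ∃ w : A ⊗[ℤ] J, J.subtype.lTensor A w =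
      dx (fun y => p (l (FreeAlgebra.ι ℤ y))) (fun y => l (FreeAlgebra.ι ℤ y)) x f := by
    intro x
    apply (hex2 _).1
    have h3 := dx_map (RingHom.id A) q (fun y => p (l (FreeAlgebra.ι ℤ y)))
      (fun y => l (FreeAlgebra.ι ℤ y)) x f
    exact h3.trans (hx x)
  choose w hw using hw
  let L : X → (J →ₗ[ℤ] J) := fun x =>
    (LinearMap.mulLeft ℤ (l (FreeAlgebra.ι ℤ x))).restrict (p := J) (q := J) (by
      intro j hj
      have hj' : q j = 0 := hj
      show q (l (FreeAlgebra.ι ℤ x) * j) = 0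
      rw [map_mul, hj', mul_zero])
  have hinj := Module.Flat.lTensor_preserves_injective_linearMap (M := A) J.subtype
    J.injective_subtype
  have hR : ∀ x (u : A ⊗[ℤ] J),
      (LinearMap.mulRight ℤ (p (l (FreeAlgebra.ι ℤ x)))).rTensor B (J.subtype.lTensor A u) =
        J.subtype.lTensor A ((LinearMap.mulRight ℤ (p (l (FreeAlgebra.ι ℤ x)))).rTensor J u) := by
    intro x u
    rw [← LinearMap.comp_apply, ← LinearMap.comp_apply, LinearMap.rTensor_comp_lTensor,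
      LinearMap.lTensor_comp_rTensor]
  have hL : ∀ x (u : A ⊗[ℤ] J),
      (LinearMap.mulLeft ℤ (l (FreeAlgebra.ι ℤ x))).lTensor A (J.subtype.lTensor A u) =
        J.subtype.lTensor A ((L x).lTensor A u) := by
    intro x u
    rw [← LinearMap.comp_apply, ← LinearMap.comp_apply, ← LinearMap.lTensor_comp,
      ← LinearMap.lTensor_comp]
    rfl
  have hΦ2 : ∀ x (u : A ⊗[ℤ] J),
      Φ ((LinearMap.mulRight ℤ (p (l (FreeAlgebra.ι ℤ x)))).rTensor J u) =
        Φ ((L x).lTensor A u) := by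
    intro x u
    induction u using TensorProduct.induction_on with
    | zero => simp only [map_zero]
    | tmul e j =>
      obtain ⟨g, rfl⟩ := hp e
      rw [LinearMap.rTensor_tmul, LinearMap.lTensor_tmul, LinearMap.mulRight_apply, ← map_mul]
      refine (hΦ _ _).trans (Eq.trans ?_ (hΦ _ _).symm)
      show r (g * l (FreeAlgebra.ι ℤ x) * j) = r (g * (l (FreeAlgebra.ι ℤ x) * j))
      rw [mul_assoc]
    | add u v hu hv => rw [map_add, map_add, hu, hv, map_add, map_add]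
  have h5 : J.subtype.lTensor A
      (∑ x ∈ Y, ((LinearMap.mulRight ℤ (p (l (FreeAlgebra.ι ℤ x)))).rTensor J (w x) -
        (L x).lTensor A (w x))) =
      J.subtype.lTensor A (-((1 : A) ⊗ₜ[ℤ] (⟨l f, hqf⟩ : J))) := by
    rw [map_sum]
    have h6 : ∀ x ∈ Y, J.subtype.lTensor A
        ((LinearMap.mulRight ℤ (p (l (FreeAlgebra.ι ℤ x)))).rTensor J (w x) -
          (L x).lTensor A (w x)) =
        (LinearMap.mulRight ℤ (p (l (FreeAlgebra.ι ℤ x)))).rTensor B
          (dx (fun y => p (l (FreeAlgebra.ι ℤ y))) (fun y => l (FreeAlgebra.ι ℤ y)) x f) -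
          (LinearMap.mulLeft ℤ (l (FreeAlgebra.ι ℤ x))).lTensor A
          (dx (fun y => p (l (FreeAlgebra.ι ℤ y))) (fun y => l (FreeAlgebra.ι ℤ y)) x f) := by
      intro x _
      rw [map_sub, ← hR, ← hL, hw]
    rw [Finset.sum_congr rfl h6, ← h1, map_neg, LinearMap.lTensor_tmul]
    rfl
  have h7 := congrArg Φ (hinj h5)
  rw [map_sum, Finset.sum_eq_zero fun x _ => by rw [map_sub, hΦ2, sub_self], map_neg,
    ← map_one p] at h7
  have h8 := hΦ 1 (⟨l f, hqf⟩ : J)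
  have h9 : Φ (p 1 ⊗ₜ[ℤ] (⟨l f, hqf⟩ : J)) = 0 := by
    rw [← neg_eq_zero]
    exact h7.symm
  rw [h9, one_mul] at h8
  exact h8.symm



theorem lewin_tf {U : Type} [Ring U] (I : Ideal U) [I.IsTwoSided] (hI : PureI I) (m : ℕ)
    (y : U ⧸ I) (hm : m ≠ 0) (hy : (m : U ⧸ I) * y = 0) : y = 0 := by
  obtain ⟨g, rfl⟩ := Ideal.Quotient.mk_surjective y
  rw [← map_natCast (Ideal.Quotient.mk I), ← map_mul, Ideal.Quotient.eq_zero_iff_mem] at hy
  exact Ideal.Quotient.eq_zero_iff_mem.2 (hI m g hm hy)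

/-- KEY LEMMA.  `f ∈ I ∩ J` and `∂_x f = 0` in `F/I ⊗ F/J` for all `x` imply `f ∈ IJ` if `F/I` is torsion free. -/
theorem mem_mul_of_dx {X : Type} [DecidableEq X] (I J : Ideal (FreeAlgebra ℤ X)) [I.IsTwoSided]
    [J.IsTwoSided] (hI : PureI I) (f : FreeAlgebra ℤ X) (hf : f ∈ I) (hf' : f ∈ J)
    (h : ∀ x, dx (fun y => Ideal.Quotient.mk I (FreeAlgebra.ι ℤ y))
      (fun y => Ideal.Quotient.mk J (FreeAlgebra.ι ℤ y)) x f = 0) : f ∈ I * J := by
  have h1 := lewin_key (RingHom.id (FreeAlgebra ℤ X)) (Ideal.Quotient.mk I) (Ideal.Quotient.mk J)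
    Ideal.Quotient.mk_surjective Ideal.Quotient.mk_surjective
    (QuotientAddGroup.mk' (I * J).toAddSubgroup)
    (fun i j hi hj => (QuotientAddGroup.eq_zero_iff _).2
      (Ideal.mul_mem_mul (Ideal.Quotient.eq_zero_iff_mem.1 hi)
        (Ideal.Quotient.eq_zero_iff_mem.1 hj))) (lewin_tf I hI) f
    (Ideal.Quotient.eq_zero_iff_mem.2 hf) (Ideal.Quotient.eq_zero_iff_mem.2 hf') h
  exact (QuotientAddGroup.eq_zero_iff _).1 h1

/-- `∂_x` vanishes on `IJ` -/
theorem dx_mul_eq_zero {X : Type} [DecidableEq X] (I J : Ideal (FreeAlgebra ℤ X)) [I.IsTwoSided]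
    [J.IsTwoSided] (f : FreeAlgebra ℤ X) (hf : f ∈ I * J) (x : X) :
    dx (fun y => Ideal.Quotient.mk I (FreeAlgebra.ι ℤ y))
      (fun y => Ideal.Quotient.mk J (FreeAlgebra.ι ℤ y)) x f = 0 := by
  refine Submodule.mul_induction_on' (C := fun f _ =>
    dx (fun y => Ideal.Quotient.mk I (FreeAlgebra.ι ℤ y))
      (fun y => Ideal.Quotient.mk J (FreeAlgebra.ι ℤ y)) x f = 0) ?_ ?_ hf
  · intro i hi j hj
    rw [dx_mul, lewin_lift, lewin_lift, Ideal.Quotient.eq_zero_iff_mem.2 hi,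
      Ideal.Quotient.eq_zero_iff_mem.2 hj,
      TensorProduct.zero_tmul, TensorProduct.tmul_zero, zero_mul, mul_zero, add_zero]
  · intro u _ v _ hu hv
    rw [dx_add, hu, hv, add_zero]

theorem dx_nsmul {X A B : Type} [DecidableEq X] [Ring A] [Ring B] (a : X → A) (b : X → B) (x : X)
    (f : FreeAlgebra ℤ X) (n : ℕ) : dx a b x ((n : FreeAlgebra ℤ X) * f) = n • dx a b x f := by
  rw [← nsmul_eq_mul]
  induction n with
  | zero =>
    rw [zero_smul, zero_smul]
    have := dx_alg a b x 0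
    rwa [map_zero] at this
  | succ n ih => rw [succ_nsmul, succ_nsmul, dx_add, ih]

/-- LEWIN PURITY.  If `m f ∈ IJ` then `f ∈ I`, `f ∈ J`, `m ∂_x f = 0` in the torsion free group
`F/I ⊗ F/J`. -/
theorem PureI_mul {X : Type} (I J : Ideal (FreeAlgebra ℤ X)) [I.IsTwoSided]
    [J.IsTwoSided] (hI : PureI I) (hJ : PureI J) : PureI (I * J) := by
  classical
  intro m f hm hf
  refine mem_mul_of_dx I J hI f (hI m f hm (Ideal.mul_le_left hf))
    (hJ m f hm (Ideal.mul_le_right hf)) ?_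
  intro x
  have h1 := dx_mul_eq_zero I J _ hf x
  rw [dx_nsmul] at h1
  exact lewin_tensor_tf (lewin_tf I hI) (lewin_tf J hJ) m hm _ h1

theorem PureI_prodI (X : Type) (l : List ℕ) : PureI (prodI X l) := by
  induction l with
  | nil =>
    intro m g _ _
    exact Submodule.mem_top
  | cons k l ih =>
    unfold prodI
    exact PureI_mul (IdM X k) (prodI X l) (PureI_IdM X k) ih

end Pool.PI34.T1
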