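import Pool.Agent.LibPI34.T1_Defs

/-! PI34, theorem T1, file C: the string system of a ring. -/

set_option autoImplicit false

namespace Pool.PI34.T1

open Equiv Finset Pool.PI34.C0 Pool.PI34.BA

variable {U : Type} [Ring U] {m : ℕ}

/-- the group of functions `(Fin m → U) → U` generated by the `r ↦ v_0 r_{σ 0} v_1 ⋯ r_{σ (m-1)} v_m` -/
def VV (U : Type) [Ring U] (m : ℕ) : AddSubgroup ((Fin m → U) → U) :=
  AddSubgroup.closure {F | ∃ (v : Fin (m + 1) → U) (σ : Perm (Fin m)), F = fun r => capMono v r σ}

/-- a monomial is of the form `A c B` as a function of one variable `c` -/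
theorem capMono_update (v : Fin (m + 1) → U) (σ : Perm (Fin m)) (r : Fin m → U) (i : Fin m) :
    ∃ A B : U, ∀ c : U, capMono v (Function.update r i c) σ = A * c * B := by
  set j := σ.symm i with hj
  have hji : σ j = i := by rw [hj, Equiv.apply_symm_apply]
  let L : List U := List.ofFn fun l : Fin m => r (σ l) * v l.succ
  refine ⟨v 0 * (L.take j.val).prod, v j.succ * (L.drop (j.val + 1)).prod, fun c => ?_⟩
  have h1 : (List.ofFn fun l : Fin m => Function.update r i c (σ l) * v l.succ) =
      L.set j.val (c * v j.succ) := by
    apply List.ext_getElem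
    · simp [L]
    · intro l h2 h3
      have hl : l < m := by simpa using h2
      rw [List.getElem_set]
      by_cases hlj : j.val = l
      · have h4 : (⟨l, hl⟩ : Fin m) = j := Fin.ext hlj.symm
        rw [if_pos hlj, List.getElem_ofFn, h4, hji, Function.update_self]
      · have h4 : (⟨l, hl⟩ : Fin m) ≠ j := fun h5 => hlj (by rw [← h5])
        have h5 : σ ⟨l, hl⟩ ≠ i := fun h6 => h4 (σ.injective (h6.trans hji.symm))
        rw [if_neg hlj, List.getElem_ofFn, List.getElem_ofFn, Function.update_of_ne h5]
  have h2 : j.val < L.length := by simp [L]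
  rw [capMono, h1, List.prod_set, if_pos h2]
  simp only [mul_assoc]

/-- the elements of `VV` are additive in each variable -/
theorem VV_update_add (F : (Fin m → U) → U) (hF : F ∈ VV U m) (r : Fin m → U) (i : Fin m)
    (a b : U) : F (Function.update r i (a + b)) =
      F (Function.update r i a) + F (Function.update r i b) := by
  unfold VV at hF
  induction hF using AddSubgroup.closure_induction with
  | mem G hG =>
    obtain ⟨v, σ, rfl⟩ := hG
    obtain ⟨A, B, h⟩ := capMono_update v σ r i
    change capMono v _ σ = capMono v _ σ + capMono v _ σ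
    rw [h, h, h, mul_add, add_mul]
  | zero => simp
  | add G H _ _ hG hH =>
    change G _ + H _ = (G _ + H _) + (G _ + H _)
    rw [hG, hH]
    abel
  | neg G _ hG =>
    change -G _ = -G _ + -G _
    rw [hG]
    abel

theorem VV_update_zero (F : (Fin m → U) → U) (hF : F ∈ VV U m) (r : Fin m → U) (i : Fin m) :
    F (Function.update r i 0) = 0 := by
  have h := VV_update_add F hF r i 0 0
  rw [add_zero] at h
  exact left_eq_add.1 h

/-- right multiplication of the variable `i` by `a` preserves `VV` -/
theorem VV_right (F : (Fin m → U) → U) (hF : F ∈ VV U m) (i : Fin m) (a : U) :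
    (fun r => F (Function.update r i (r i * a))) ∈ VV U m := by
  unfold VV at hF
  induction hF using AddSubgroup.closure_induction with
  | mem G hG =>
    obtain ⟨v, σ, rfl⟩ := hG
    refine AddSubgroup.subset_closure
      ⟨Function.update v (σ.symm i).succ (a * v (σ.symm i).succ), σ, ?_⟩
    funext r
    change capMono v _ σ = capMono _ r σ
    unfold capMono
    rw [Function.update_of_ne (Fin.succ_ne_zero _).symm]
    congr 2
    congr 1
    funext l
    by_cases hl : σ l = i
    · subst hl
      rw [Function.update_self, Equiv.symm_apply_apply, Function.update_self, mul_assoc]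
    · have h1 : l.succ ≠ (σ.symm i).succ := by
        intro h2
        have h3 := Fin.succ_injective _ h2
        exact hl (by rw [h3, Equiv.apply_symm_apply])
      rw [Function.update_of_ne hl, Function.update_of_ne h1]
  | zero => exact AddSubgroup.zero_mem _
  | add G H _ _ hG hH => exact AddSubgroup.add_mem _ hG hH
  | neg G _ hG => exact AddSubgroup.neg_mem _ hG

theorem VV_perm (F : (Fin m → U) → U) (hF : F ∈ VV U m) (σ : Perm (Fin m)) :
    (fun r => F (r ∘ σ)) ∈ VV U m := by
  unfold VV at hF
  induction hF using AddSubgroup.closure_induction with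
  | mem G hG =>
    obtain ⟨v, τ, rfl⟩ := hG
    exact AddSubgroup.subset_closure ⟨v, σ * τ, rfl⟩
  | zero => exact AddSubgroup.zero_mem _
  | add G H _ _ hG hH => exact AddSubgroup.add_mem _ hG hH
  | neg G _ hG => exact AddSubgroup.neg_mem _ hG

/-- the operator `ρ_i(a)` -/
def rhoV (i : Fin m) (a : U) : AddMonoid.End (VV U m) where
  toFun F := ⟨fun r => F.1 (Function.update r i (r i * a)), VV_right F.1 F.2 i a⟩
  map_zero' := rfl
  map_add' _ _ := rfl

/-- the operator `s(σ)` -/
def sV (σ : Perm (Fin m)) : AddMonoid.End (VV U m) where
  toFun F := ⟨fun r => F.1 (r ∘ σ), VV_perm F.1 F.2 σ⟩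
  map_zero' := rfl
  map_add' _ _ := rfl

theorem endV_ext {f g : AddMonoid.End (VV U m)}
    (h : ∀ (F : VV U m) (r : Fin m → U), (f F).1 r = (g F).1 r) : f = g :=
  AddMonoidHom.ext fun F => Subtype.ext (funext fun r => h F r)

/-- the string system of the ring `U`, `m` strands: letters = elements of `U` -/
def strV (U : Type) [Ring U] (m : ℕ) : Str (Fin m) U (AddMonoid.End (VV U m)) where
  ρ i :=
    { toFun := rhoV i
      map_one' := by
        refine endV_ext fun F r => ?_
        change F.1 (Function.update r i (r i * 1)) = F.1 r
        rw [mul_one, Function.update_eq_self]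
      map_mul' := by
        intro a b
        refine endV_ext fun F r => ?_
        change F.1 (Function.update r i (r i * (a * b))) =
          F.1 (Function.update (Function.update r i (r i * a)) i
            (Function.update r i (r i * a) i * b))
        rw [Function.update_idem, Function.update_self, mul_assoc]
      map_zero' := by
        refine endV_ext fun F r => ?_
        change F.1 (Function.update r i (r i * 0)) = 0
        rw [mul_zero]
        exact VV_update_zero F.1 F.2 r i
      map_add' := by
        intro a b
        refine endV_ext fun F r => ?_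
        change F.1 (Function.update r i (r i * (a + b))) =
          F.1 (Function.update r i (r i * a)) + F.1 (Function.update r i (r i * b))
        rw [mul_add]
        exact VV_update_add F.1 F.2 r i _ _ }
  s :=
    { toFun := sV
      map_one' := rfl
      map_mul' := fun _ _ => rfl }
  comm i j hij a b := by
    refine endV_ext fun F r => ?_
    change F.1 (Function.update (Function.update r i (r i * a)) j
        (Function.update r i (r i * a) j * b)) =
      F.1 (Function.update (Function.update r j (r j * b)) i
        (Function.update r j (r j * b) i * a))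
    rw [Function.update_of_ne hij.symm, Function.update_of_ne hij, Function.update_comm hij]
  conj σ i a := by
    refine endV_ext fun F r => ?_
    change F.1 (Function.update (r ∘ σ) i ((r ∘ σ) i * a)) =
      F.1 (Function.update r (σ i) (r (σ i) * a) ∘ σ)
    have h0 : Function.update (r ∘ σ) i ((r ∘ σ) i * a) =
        Function.update r (σ i) (r (σ i) * a) ∘ σ := by
      funext l
      by_cases hl : l = i
      · subst hl
        simp
      · have h1 : σ l ≠ σ i := fun h2 => hl (σ.injective h2)
        rw [Function.update_of_ne hl, Function.comp_apply, Function.comp_apply,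
          Function.update_of_ne h1]
    rw [h0]

/-- splitting of a word at the marked positions -/
theorem exists_split : ∀ (n : ℕ) (c : U) (v : Fin n → U) (S : Finset (Fin n)) (z0 : Fin n → U),
    ∃ (k : ℕ) (p : Fin k → Fin n) (w0 : U) (w : Fin k → U), Function.Injective p ∧
      (∀ i, i ∈ S ↔ ∃ j, p j = i) ∧ ∀ z : Fin n → U, (∀ i, i ∉ S → z i = z0 i) →
        c * (List.ofFn fun i => z i * v i).prod =
          w0 * (List.ofFn fun j => z (p j) * w j).prod := by
  intro n
  induction n with
  | zero =>
    intro c v S z0
    exact ⟨0, Fin.elim0, c, Fin.elim0, fun i => i.elim0, fun i => i.elim0, fun z _ => by simp⟩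
  | succ n ih =>
    intro c v S z0
    have hS' : ∀ i : Fin n, i ∈ (univ.filter fun i : Fin n => i.succ ∈ S) ↔ i.succ ∈ S := by
      intro i
      simp
    by_cases h0 : (0 : Fin (n + 1)) ∈ S
    · obtain ⟨k, p, w0, w, hp, hpS, hz⟩ := ih (v 0) (fun i => v i.succ)
        (univ.filter fun i : Fin n => i.succ ∈ S) (fun i => z0 i.succ)
      refine ⟨k + 1, Fin.cons 0 (fun j => (p j).succ), c, Fin.cons w0 w, ?_, ?_, ?_⟩
      · intro a b hab
        refine Fin.cases ?_ (fun a' => ?_) a b hab
        · intro b hb
          refine Fin.cases (fun _ => rfl) (fun b' hb' => ?_) b hb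
          simp only [Fin.cons_zero, Fin.cons_succ] at hb'
          exact absurd hb'.symm (Fin.succ_ne_zero _)
        · intro b hb
          refine Fin.cases (fun hb' => ?_) (fun b' hb' => ?_) b hb
          · simp only [Fin.cons_zero, Fin.cons_succ] at hb'
            exact absurd hb' (Fin.succ_ne_zero _)
          · simp only [Fin.cons_succ] at hb'
            rw [hp (Fin.succ_injective _ hb')]
      · intro i
        refine Fin.cases ?_ (fun i' => ?_) i
        · exact ⟨fun _ => ⟨0, rfl⟩, fun _ => h0⟩
        · rw [← hS', hpS]
          constructor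
          · rintro ⟨j, hj⟩
            exact ⟨j.succ, by rw [Fin.cons_succ, hj]⟩
          · rintro ⟨j, hj⟩
            revert hj
            refine Fin.cases (fun hj => ?_) (fun j' hj => ?_) j
            · rw [Fin.cons_zero] at hj
              exact absurd hj.symm (Fin.succ_ne_zero _)
            · rw [Fin.cons_succ] at hj
              exact ⟨j', Fin.succ_injective _ hj⟩
      · intro z hz0
        have h1 := hz (fun i => z i.succ) (fun i hi => hz0 i.succ (by rwa [hS'] at hi))
        rw [List.ofFn_succ, List.prod_cons, List.ofFn_succ, List.prod_cons]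
        simp only [Fin.cons_zero, Fin.cons_succ]
        rw [mul_assoc (z 0) (v 0), h1, mul_assoc (z 0) w0]
    · obtain ⟨k, p, w0, w, hp, hpS, hz⟩ := ih (c * (z0 0 * v 0)) (fun i => v i.succ)
        (univ.filter fun i : Fin n => i.succ ∈ S) (fun i => z0 i.succ)
      refine ⟨k, fun j => (p j).succ, w0, w, ?_, ?_, ?_⟩
      · intro a b hab
        exact hp (Fin.succ_injective _ hab)
      · intro i
        refine Fin.cases ?_ (fun i' => ?_) i
        · constructor
          · intro h
            exact absurd h h0
          · rintro ⟨j, hj⟩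
            exact absurd hj (Fin.succ_ne_zero _)
        · rw [← hS', hpS]
          constructor
          · rintro ⟨j, hj⟩
            exact ⟨j, congrArg Fin.succ hj⟩
          · rintro ⟨j, hj⟩
            exact ⟨j, Fin.succ_injective _ hj⟩
      · intro z hz0
        have h1 := hz (fun i => z i.succ) (fun i hi => hz0 i.succ (by rwa [hS'] at hi))
        rw [List.ofFn_succ, List.prod_cons, ← h1, hz0 0 h0]
        simp only [mul_assoc]

/-- the sum over the permutations supported in `T`, transported to `Fin k` -/
theorem sum_permsOn {M : Type} [AddCommGroup M] {k : ℕ} (T : Finset (Fin m))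
    (e : Fin k ≃ {x // x ∈ T}) (f : Perm (Fin m) → M) :
    ∑ σ ∈ permsOn T, f σ = ∑ τ : Perm (Fin k), f (τ.extendDomain e) := by
  symm
  refine Finset.sum_bij (fun τ _ => τ.extendDomain e) ?_ ?_ ?_ ?_
  · intro τ _
    simp only [permsOn, mem_filter, mem_univ, true_and]
    intro x hx
    exact Equiv.Perm.extendDomain_apply_not_subtype _ _ hx
  · intro τ _ τ' _ h
    ext j
    have h1 := congrArg (fun σ : Perm (Fin m) => σ (e j)) h
    simp only [Equiv.Perm.extendDomain_apply_image] at h1
    rw [e.injective (Subtype.ext h1)]
  · intro σ hσ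
    simp only [permsOn, mem_filter, mem_univ, true_and] at hσ
    have hT : ∀ x, σ x ∈ T ↔ x ∈ T := by
      intro x
      constructor
      · intro h
        by_contra hx
        rw [hσ x hx] at h
        exact hx h
      · intro h
        by_contra hx
        have h1 := hσ _ hx
        exact hx (by rw [σ.injective h1]; exact h)
    refine ⟨(e.trans (σ.subtypePerm hT)).trans e.symm, mem_univ _, ?_⟩
    ext x
    by_cases hx : x ∈ T
    · have h1 : x = e (e.symm ⟨x, hx⟩) := by simp
      rw [h1, Equiv.Perm.extendDomain_apply_image]
      simp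
    · rw [Equiv.Perm.extendDomain_apply_not_subtype _ _ hx, hσ x hx]
  · intro τ _
    rfl

/-- the Capelli identity of rank `k + 1` kills the antisymmetrizers of rank `k + 1`:
`Σ_{σ ∈ Sym T} sgn σ F(r ∘ σ)` is, for a monomial `F`, plus or minus a value of the Capelli polynomial (the variables
outside `T` are absorbed in the `v`'s, `U` has a unit). -/
theorem strV_Anti (k : ℕ) (h : Cap U (k + 1)) (m : ℕ) : Anti (strV U m).s k := by
  intro T hT
  -- the statement for monomials
  have key : ∀ (v : Fin (m + 1) → U) (τ : Perm (Fin m)) (r : Fin m → U),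
      ∑ σ ∈ permsOn T, ((Perm.sign σ : ℤˣ) : ℤ) • capMono v (r ∘ σ) τ = 0 := by
    intro v τ r
    obtain ⟨k', p, w0, w, hp, hpS, hz⟩ := exists_split m (v 0) (fun i => v i.succ)
      (univ.filter fun i : Fin m => τ i ∈ T) (fun i => r (τ i))
    have hpT : ∀ j, τ (p j) ∈ T := by
      intro j
      have h1 := (hpS (p j)).2 ⟨j, rfl⟩
      simpa using h1
    have hbij : Function.Bijective (fun j : Fin k' => (⟨τ (p j), hpT j⟩ : {x // x ∈ T})) := by
      constructor
      · intro a b hab
        exact hp (τ.injective (congrArg Subtype.val hab))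
      · rintro ⟨x, hx⟩
        have h1 : τ.symm x ∈ univ.filter fun i : Fin m => τ i ∈ T := by simpa using hx
        obtain ⟨j, hj⟩ := (hpS _).1 h1
        exact ⟨j, Subtype.ext (by simp [hj])⟩
    let e : Fin k' ≃ {x // x ∈ T} := Equiv.ofBijective _ hbij
    have he : ∀ j, ((e j : {x // x ∈ T}) : Fin m) = τ (p j) := fun j => rfl
    have hk : k' = k + 1 := by
      have h1 := Fintype.card_congr e
      rw [Fintype.card_fin, Fintype.card_coe, hT] at h1
      exact h1
    subst hk
    rw [sum_permsOn T e]
    have h2 := h (Fin.cons w0 w) (fun j => r (τ (p j)))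
    rw [← h2]
    refine Finset.sum_congr rfl fun σ' _ => ?_
    rw [Equiv.Perm.sign_extendDomain]
    congr 1
    unfold capMono
    rw [hz (fun i => (r ∘ (σ'.extendDomain e)) (τ i))]
    · simp only [Fin.cons_zero, Fin.cons_succ]
      congr 2
      congr 1
      funext j
      rw [Function.comp_apply, ← he j, Equiv.Perm.extendDomain_apply_image, he]
    · intro i hi
      have hi' : τ i ∉ T := by simpa using hi
      rw [Function.comp_apply, Equiv.Perm.extendDomain_apply_not_subtype _ _ hi']
  have key2 : ∀ F ∈ VV U m, ∀ r : Fin m → U,
      ∑ σ ∈ permsOn T, ((Perm.sign σ : ℤˣ) : ℤ) • F (r ∘ σ) = 0 := by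
    intro F hF
    unfold VV at hF
    induction hF using AddSubgroup.closure_induction with
    | mem G hG =>
      obtain ⟨v, τ, rfl⟩ := hG
      exact key v τ
    | zero => intro r; simp
    | add G H _ _ hG hH =>
      intro r
      simp only [Pi.add_apply, smul_add, Finset.sum_add_distrib, hG r, hH r, add_zero]
    | neg G _ hG =>
      intro r
      simp only [Pi.neg_apply, smul_neg, Finset.sum_neg_distrib, hG r, neg_zero]
  refine endV_ext fun F r => ?_
  let ev : AddMonoid.End (VV U m) →+ U :=
    { toFun := fun f => (f F).1 r
      map_zero' := rfl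
      map_add' := fun _ _ => rfl }
  have h3 : ((anti (strV U m).s T) F).1 r =
      ∑ σ ∈ permsOn T, ((Perm.sign σ : ℤˣ) : ℤ) • F.1 (r ∘ σ) := by
    change ev (anti (strV U m).s T) = _
    unfold anti
    rw [map_sum]
    refine Finset.sum_congr rfl fun σ _ => ?_
    rw [map_zsmul]
    rfl
  rw [h3, key2 F.1 F.2 r]
  rfl

end Pool.PI34.T1
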