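import Pool.Agent.LibPI34.T1_C
import Pool.Agent.LibPI34.T1_A
import Pool.Agent.LibPI34.BA_Main

/-! PI34, theorem T1, file D: Capelli identities and the chain of ideals. -/

set_option autoImplicit false

namespace Pool.PI34.T1

open Equiv Finset Pool.PI34.C0 Pool.PI34.BA

variable {U : Type} [Ring U]

/-- the Capelli value -/
def capV {U : Type} [Ring U] {n : ℕ} (v : Fin (n + 1) → U) (x : Fin n → U) : U :=
  ∑ σ : Perm (Fin n), ((Perm.sign σ : ℤˣ) : ℤ) • capMono v x σ

theorem capMono_left {n : ℕ} (c : U) (v : Fin (n + 1) → U) (x : Fin n → U) (σ : Perm (Fin n)) :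
    capMono (Function.update v 0 (c * v 0)) x σ = c * capMono v x σ := by
  unfold capMono
  rw [Function.update_self, mul_assoc]
  have h : (fun i : Fin n => x (σ i) * Function.update v 0 (c * v 0) i.succ) =
      fun i : Fin n => x (σ i) * v i.succ := by
    funext i
    rw [Function.update_of_ne (Fin.succ_ne_zero i)]
  rw [h]

theorem capMono_right {n : ℕ} (c : U) (v : Fin (n + 1) → U) (x : Fin n → U) (σ : Perm (Fin n)) :
    capMono (Function.update v (Fin.last n) (v (Fin.last n) * c)) x σ = capMono v x σ * c := by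
  unfold capMono
  cases n with
  | zero =>
    simp
  | succ m =>
    have h0 : (0 : Fin (m + 1 + 1)) ≠ Fin.last (m + 1) := by
      intro h
      have := congrArg Fin.val h
      simp at this
    rw [Function.update_of_ne h0, List.ofFn_succ', List.ofFn_succ', List.concat_eq_append,
      List.concat_eq_append, List.prod_append, List.prod_append]
    have h : (fun i : Fin m => x (σ i.castSucc) *
        Function.update v (Fin.last (m + 1)) (v (Fin.last (m + 1)) * c) i.castSucc.succ) =
        fun i : Fin m => x (σ i.castSucc) * v i.castSucc.succ := by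
      funext i
      rw [Function.update_of_ne]
      intro h
      have := congrArg Fin.val h
      simp at this
      omega
    rw [h]
    simp [mul_assoc]

theorem capV_left {n : ℕ} (c : U) (v : Fin (n + 1) → U) (x : Fin n → U) :
    capV (Function.update v 0 (c * v 0)) x = c * capV v x := by
  unfold capV
  rw [Finset.mul_sum]
  refine Finset.sum_congr rfl fun σ _ => ?_
  rw [capMono_left, mul_smul_comm]

theorem capV_right {n : ℕ} (c : U) (v : Fin (n + 1) → U) (x : Fin n → U) :
    capV (Function.update v (Fin.last n) (v (Fin.last n) * c)) x = capV v x * c := by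
  unfold capV
  rw [Finset.sum_mul]
  refine Finset.sum_congr rfl fun σ _ => ?_
  rw [capMono_right, smul_mul_assoc]

theorem capV_mem {n : ℕ} (v : Fin (n + 1) → U) (x : Fin n → U) : capV v x ∈ capI U n :=
  Ideal.subset_span ⟨v, x, rfl⟩

/-- induction principle for the Capelli ideal -/
theorem capI_induction {n : ℕ} {P : U → Prop} (h0 : P 0) (hadd : ∀ a b, P a → P b → P (a + b))
    (hv : ∀ (v : Fin (n + 1) → U) (x : Fin n → U), P (capV v x)) (a : U) (ha : a ∈ capI U n) :
    P a := by
  have key : ∀ c : U, P (c * a) := by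
    unfold capI at ha
    induction ha using Submodule.span_induction with
    | mem y hy =>
      obtain ⟨v, x, rfl⟩ := hy
      intro c
      have h1 := hv (Function.update v 0 (c * v 0)) x
      rw [capV_left] at h1
      exact h1
    | zero => intro c; rw [mul_zero]; exact h0
    | add y z _ _ hy hz => intro c; rw [mul_add]; exact hadd _ _ (hy c) (hz c)
    | smul d y _ hy =>
      intro c
      rw [smul_eq_mul, ← mul_assoc]
      exact hy (c * d)
  have := key 1
  rwa [one_mul] at this

instance (n : ℕ) : (capI U n).IsTwoSided := by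
  refine ⟨fun {a} b ha => ?_⟩
  refine capI_induction (n := n) (P := fun a => a * b ∈ capI U n) ?_ ?_ ?_ a ha
  · rw [zero_mul]; exact Ideal.zero_mem _
  · intro x y hx hy
    rw [add_mul]
    exact Ideal.add_mem _ hx hy
  · intro v x
    rw [← capV_right]
    exact capV_mem _ _

/-- the permutations supported in the range of `p` -/
theorem TD_sum_permsOn {ι : Type} [Fintype ι] [DecidableEq ι] {k : ℕ} (p : Fin k ↪ ι) {A : Type}
    [AddCommMonoid A] (f : Perm ι → A) :
    ∑ σ ∈ permsOn (univ.map p), f σ = ∑ σ : Perm (Fin k), f (σ.viaFintypeEmbedding p) := by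
  have hmem : ∀ x : ι, x ∉ univ.map p ↔ x ∉ Set.range p := by
    intro x
    simp
  symm
  refine Finset.sum_bij (fun σ _ => σ.viaFintypeEmbedding p) ?_ ?_ ?_ ?_
  · intro σ _
    rw [permsOn, mem_filter]
    refine ⟨mem_univ _, fun x hx => ?_⟩
    exact Equiv.Perm.viaFintypeEmbedding_apply_notMem_range _ _ ((hmem x).1 hx)
  · intro σ _ τ _ h
    ext i
    have h1 := Equiv.Perm.viaFintypeEmbedding_apply_image σ p i
    have h2 := Equiv.Perm.viaFintypeEmbedding_apply_image τ p i
    change σ.viaFintypeEmbedding p = τ.viaFintypeEmbedding p at h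
    rw [h] at h1
    rw [h1] at h2
    exact congrArg Fin.val (p.injective h2)
  · intro σ hσ
    rw [permsOn, mem_filter] at hσ
    have h1 : ∀ i, ∃ j, σ (p i) = p j := by
      intro i
      by_contra hcon
      have h2 : σ (p i) ∉ univ.map p := by
        rw [hmem]
        rintro ⟨j, hj⟩
        exact hcon ⟨j, hj.symm⟩
      have h3 := hσ.2 _ h2
      have h4 : σ (p i) = p i := σ.injective h3
      exact hcon ⟨i, h4⟩
    choose g hg using h1
    have hgi : Function.Injective g := by
      intro i j hij
      have h2 : σ (p i) = σ (p j) := by rw [hg, hg, hij]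
      exact p.injective (σ.injective h2)
    refine ⟨Equiv.ofBijective g (Finite.injective_iff_bijective.1 hgi), mem_univ _, ?_⟩
    ext x
    by_cases hx : x ∈ Set.range p
    · obtain ⟨i, rfl⟩ := hx
      rw [Equiv.Perm.viaFintypeEmbedding_apply_image, hg]
      rfl
    · rw [Equiv.Perm.viaFintypeEmbedding_apply_notMem_range _ _ hx, hσ.2 x ((hmem x).2 hx)]
  · intro σ _
    rfl

/-- evaluation of the operators -/
def evE {m : ℕ} (F : VV U m) (r : Fin m → U) : AddMonoid.End (VV U m) →+ U where
  toFun e := (e F).1 r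
  map_zero' := rfl
  map_add' _ _ := rfl

/-- the strands of the block `P` -/
def pE (k : ℕ) : Fin k ↪ Fin (k + k + 1) :=
  ⟨fun i => (Fin.castAdd k i).succ, fun _ _ h => Fin.castAdd_injective k k (Fin.succ_injective _ h)⟩

/-- the strands of the block `Q` -/
def qE (k : ℕ) : Fin k ↪ Fin (k + k + 1) :=
  ⟨fun i => (Fin.natAdd k i).succ, fun _ _ h => Fin.natAdd_injective k k (Fin.succ_injective _ h)⟩

theorem pq_ne (k : ℕ) (i j : Fin k) : pE k i ≠ qE k j := by
  intro h
  have h1 : Fin.castAdd k i = Fin.natAdd k j := Fin.succ_injective _ h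
  have h2 := congrArg Fin.val h1
  simp at h2
  omega

theorem frameE (k : ℕ) : Frame (pE k) (qE k) (0 : Fin (k + k + 1)) :=
  ⟨pq_ne k, fun i => Fin.succ_ne_zero (Fin.castAdd k i), fun i => Fin.succ_ne_zero (Fin.natAdd k i)⟩

theorem ofFn_split {k : ℕ} (f : Fin (k + k) → U) :
    (List.ofFn f).prod = (List.ofFn fun i => f (Fin.castAdd k i)).prod *
      (List.ofFn fun i => f (Fin.natAdd k i)).prod := by
  rw [List.ofFn_add, List.prod_append]
  rfl

theorem word_value (k : ℕ) (c : U) (v w : Fin (k + 1) → U) (x y : Fin k → U) (hw : w 0 = 1)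
    (σ τ : Perm (Fin k)) :
    capMono (Fin.cons 1 (Fin.cons (v 0) (Fin.append (fun i : Fin k => v i.succ)
        (fun j : Fin k => w j.succ))) : Fin (k + k + 1 + 1) → U)
      (((Fin.cons c (Fin.append x y) : Fin (k + k + 1) → U) ∘ σ.viaFintypeEmbedding (pE k)) ∘
        τ.viaFintypeEmbedding (qE k)) 1 = c * capMono v x σ * capMono w y τ := by
  have h0 : ∀ (s : Perm (Fin k)) , s.viaFintypeEmbedding (pE k) 0 = 0 := by
    intro s
    refine Equiv.Perm.viaFintypeEmbedding_apply_notMem_range _ _ ?_
    rintro ⟨i, hi⟩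
    exact (frameE k).pz i hi
  have h0' : ∀ (s : Perm (Fin k)) , s.viaFintypeEmbedding (qE k) 0 = 0 := by
    intro s
    refine Equiv.Perm.viaFintypeEmbedding_apply_notMem_range _ _ ?_
    rintro ⟨i, hi⟩
    exact (frameE k).qz i hi
  have h1 : ∀ i : Fin k, τ.viaFintypeEmbedding (qE k) (Fin.castAdd k i).succ =
      (Fin.castAdd k i).succ := by
    intro i
    refine Equiv.Perm.viaFintypeEmbedding_apply_notMem_range _ _ ?_
    rintro ⟨j, hj⟩
    exact pq_ne k i j hj.symm
  have h2 : ∀ i : Fin k, σ.viaFintypeEmbedding (pE k) (Fin.castAdd k i).succ =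
      (Fin.castAdd k (σ i)).succ := fun i => Equiv.Perm.viaFintypeEmbedding_apply_image σ (pE k) i
  have h3 : ∀ i : Fin k, τ.viaFintypeEmbedding (qE k) (Fin.natAdd k i).succ =
      (Fin.natAdd k (τ i)).succ := fun i => Equiv.Perm.viaFintypeEmbedding_apply_image τ (qE k) i
  have h4 : ∀ i : Fin k, σ.viaFintypeEmbedding (pE k) (Fin.natAdd k i).succ =
      (Fin.natAdd k i).succ := by
    intro i
    refine Equiv.Perm.viaFintypeEmbedding_apply_notMem_range _ _ ?_
    rintro ⟨j, hj⟩
    exact pq_ne k j i hj
  unfold capMono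
  rw [List.ofFn_succ, List.prod_cons, ofFn_split, hw]
  simp only [Function.comp_apply, Perm.coe_one, id_eq, h0, h0', h1, h2, h3, h4, Fin.cons_zero,
    Fin.cons_succ, Fin.append_left, Fin.append_right, one_mul]
  simp only [mul_assoc]

theorem zsmul_helper {E : Type} [Ring E] (a b : ℤ) (r x y : E) :
    r * ((a • x) * (b • y)) = (a * b) • (r * (x * y)) := by
  rw [smul_mul_smul_comm, mul_smul_comm]

/-- the value of `ρ_0(c) A_P A_Q` at a monomial -/
theorem value_eq (k : ℕ) (c : U) (v w : Fin (k + 1) → U) (x y : Fin k → U) (hw : w 0 = 1)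
    (hm : (fun r => capMono (Fin.cons 1 (Fin.cons (v 0) (Fin.append (fun i : Fin k => v i.succ)
        (fun j : Fin k => w j.succ))) : Fin (k + k + 1 + 1) → U) r 1) ∈ VV U (k + k + 1)) :
    evE ⟨_, hm⟩ (Fin.cons 1 (Fin.append x y))
      ((strV U (k + k + 1)).ρ 0 c * (anti (strV U (k + k + 1)).s (univ.map (pE k)) *
        anti (strV U (k + k + 1)).s (univ.map (qE k)))) = c * capV v x * capV w y := by
  unfold anti
  rw [Finset.sum_mul_sum, Finset.mul_sum, map_sum, TD_sum_permsOn]
  rw [show capV v x = ∑ σ : Perm (Fin k), ((Perm.sign σ : ℤˣ) : ℤ) • capMono v x σ from rfl,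
    Finset.mul_sum, Finset.sum_mul]
  refine Finset.sum_congr rfl fun σ _ => ?_
  rw [Finset.mul_sum, map_sum, TD_sum_permsOn]
  rw [show capV w y = ∑ σ : Perm (Fin k), ((Perm.sign σ : ℤˣ) : ℤ) • capMono w y σ from rfl,
    Finset.mul_sum]
  refine Finset.sum_congr rfl fun τ _ => ?_
  rw [zsmul_helper, map_zsmul, Perm.viaFintypeEmbedding_sign,
    Perm.viaFintypeEmbedding_sign, mul_smul_comm, mul_smul_comm, smul_mul_assoc, smul_smul]
  rw [mul_comm ((Perm.sign τ : ℤˣ) : ℤ)]
  congr 1
  rw [← word_value k c v w x y hw σ τ]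
  have h1 : (Fin.cons c (Fin.append x y) : Fin (k + k + 1) → U) =
      Function.update (Fin.cons 1 (Fin.append x y) : Fin (k + k + 1) → U) 0
        ((Fin.cons 1 (Fin.append x y) : Fin (k + k + 1) → U) 0 * c) := by
    rw [Fin.cons_zero, one_mul, Fin.update_cons_zero]
  rw [h1]
  rfl

/-- the case of Capelli values -/
theorem mul_capV (k : ℕ) (h : Cap U (k + 1)) {X : Type} (π : FreeAlgebra ℤ X →+* U)
    (g : FreeAlgebra ℤ X) (hg : g ∈ IdM X k) (v w : Fin (k + 1) → U) (x y : Fin k → U) :
    π g * capV v x * capV w y = 0 := by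
  have h1 : ∀ (v w : Fin (k + 1) → U) (x y : Fin k → U), w 0 = 1 →
      π g * capV v x * capV w y = 0 := by
    intro v w x y hw
    have hm : (fun r => capMono (Fin.cons 1 (Fin.cons (v 0)
        (Fin.append (fun i : Fin k => v i.succ) (fun j : Fin k => w j.succ))) :
          Fin (k + k + 1 + 1) → U) r 1) ∈ VV U (k + k + 1) :=
      AddSubgroup.subset_closure ⟨_, 1, rfl⟩
    rw [← value_eq k (π g) v w x y hw hm]
    have hBA := BA ((strV U (k + k + 1)).comap π) k (strV_Anti k h (k + k + 1)) (pE k) (qE k) 0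
      (frameE k) g (fun C _ m => IdM_spec X k g hg C m)
    have hBA' : (strV U (k + k + 1)).ρ 0 (π g) * (anti (strV U (k + k + 1)).s (univ.map (pE k)) *
        anti (strV U (k + k + 1)).s (univ.map (qE k))) = 0 := hBA
    rw [hBA', map_zero]
  have h2 : π g * capV v x * capV w y =
      π g * capV (Function.update v (Fin.last k) (v (Fin.last k) * w 0)) x *
        capV (Function.update w 0 1) y := by
    have h3 : capV w y = w 0 * capV (Function.update w 0 1) y := by
      rw [← capV_left, Function.update_self, mul_one, Function.update_idem,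
        Function.update_eq_self]
    rw [capV_right, h3]
    simp only [mul_assoc]
  rw [h2]
  exact h1 _ _ _ _ (Function.update_self _ _ _)

/-- `BA` for the string system `strV U (2k+1)` (strand `0`, `P = 1..k`, `Q = k+1..2k`), applied to the monomial
`v_0 r_0 v_1 r_1 ⋯ r_{2k} v_{2k+1}` and evaluated at `r_0 = 1`:
`π(g) · (Capelli value) · (Capelli value) = 0`. -/
theorem mul_capI (k : ℕ) (h : Cap U (k + 1)) {X : Type} (π : FreeAlgebra ℤ X →+* U)
    (g : FreeAlgebra ℤ X) (hg : g ∈ IdM X k) (a b : U) (ha : a ∈ capI U k) (hb : b ∈ capI U k) :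
    π g * a * b = 0 := by
  refine capI_induction (n := k) (P := fun a => π g * a * b = 0) ?_ ?_ ?_ a ha
  · rw [mul_zero, zero_mul]
  · intro a a' h1 h2
    rw [mul_add, add_mul, h1, h2, add_zero]
  · intro v x
    refine capI_induction (n := k) (P := fun b => π g * capV v x * b = 0) ?_ ?_ ?_ b hb
    · rw [mul_zero]
    · intro b b' h1 h2
      rw [mul_add, h1, h2, add_zero]
    · intro w y
      exact mul_capV k h π g hg v w x y

/-- the Capelli identity passes to the quotient by the Capelli ideal -/
theorem cap_quotient (n : ℕ) : Cap (U ⧸ capI U n) n := by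
  intro v x
  choose v' hv' using fun i => Ideal.Quotient.mk_surjective (I := capI U n) (v i)
  choose x' hx' using fun i => Ideal.Quotient.mk_surjective (I := capI U n) (x i)
  have h1 : ∑ σ : Perm (Fin n), ((Perm.sign σ : ℤˣ) : ℤ) • capMono v x σ =
      Ideal.Quotient.mk (capI U n) (capV v' x') := by
    unfold capV
    rw [map_sum]
    refine Finset.sum_congr rfl fun σ _ => ?_
    rw [map_zsmul]
    congr 1
    unfold capMono
    rw [map_mul, map_list_prod, hv', List.map_ofFn]
    congr 2
    refine congrArg List.ofFn (funext fun i => ?_)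
    rw [Function.comp_apply, map_mul, hx', hv']
  rw [h1, Ideal.Quotient.eq_zero_iff_mem]
  exact capV_mem _ _

/-- CHAIN.  Induction on `k`: `k = 0`: `U` is trivial.  Step: `U/capI U (k+1)` satisfies the Capelli identity of rank
`k + 1`, so `π(prodI (lst k)) ⊆ capI U (k+1)`; `mul_capI`. -/
theorem chain (k : ℕ) : ∀ (U : Type) [Ring U], Cap U (k + 1) → ∀ (X : Type)
    (π : FreeAlgebra ℤ X →+* U) (g : FreeAlgebra ℤ X), g ∈ prodI X (lst k) → π g = 0 := by
  induction k with
  | zero =>
    intro U _ hU X π g _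
    have h1 := hU (fun _ => 1) (fun _ => 1)
    have h2 : (1 : U) = 0 := by
      rw [← h1]
      simp [capMono]
    have h3 : Subsingleton U := subsingleton_of_zero_eq_one h2.symm
    exact Subsingleton.elim _ _
  | succ k ih =>
    intro U _ hU X π g hg
    have h1 : ∀ g' ∈ prodI X (lst k), π g' ∈ capI U (k + 1) := by
      intro g' hg'
      have h2 := ih (U ⧸ capI U (k + 1)) (cap_quotient (k + 1)) X
        ((Ideal.Quotient.mk (capI U (k + 1))).comp π) g' hg'
      exact Ideal.Quotient.eq_zero_iff_mem.1 h2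
    have h2 : prodI X (lst (k + 1)) = IdM X (k + 1) * (prodI X (lst k) * prodI X (lst k)) := by
      rw [← prodI_append]
      rfl
    rw [h2] at hg
    have h3 : IdM X (k + 1) * (prodI X (lst k) * prodI X (lst k)) ≤ RingHom.ker π := by
      rw [Ideal.mul_le]
      intro g0 hg0 u hu
      have h4 : prodI X (lst k) * prodI X (lst k) ≤
          { carrier := {u | ∀ g0 ∈ IdM X (k + 1), π (g0 * u) = 0}
            add_mem' := by
              intro a b ha hb g0 hg0
              rw [mul_add, map_add, ha g0 hg0, hb g0 hg0, add_zero]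
            zero_mem' := by
              intro g0 _
              rw [mul_zero, map_zero]
            smul_mem' := by
              intro c a ha g0 hg0
              rw [smul_eq_mul, ← mul_assoc]
              exact ha _ (Ideal.mul_mem_right c _ hg0) } := by
        rw [Ideal.mul_le]
        intro g1 hg1 g2 hg2 g0 hg0
        rw [map_mul, map_mul, ← mul_assoc]
        exact mul_capI (k + 1) hU π g0 hg0 _ _ (h1 g1 hg1) (h1 g2 hg2)
      exact h4 hu g0 hg0
    exact h3 hg

end Pool.PI34.T1
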