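import Pool.Agent.LibPI34.C0Defs
import Pool.Agent.LibPI34.BA_G2

/-! PI34, theorem T1: definitions. -/

set_option autoImplicit false

namespace Pool.PI34.T1

open Equiv Finset Pool.PI34.C0 Pool.PI34.BA

/-- the ideal `I` contains the values of a multilinear polynomial with coefficient `1` on the identity monomial -/
def MPI {U : Type} [Ring U] (I : Ideal U) : Prop :=
  ∃ (d : ℕ) (a : Perm (Fin (d + 1)) → ℤ), a 1 = 1 ∧
    ∀ x : Fin (d + 1) → U, ∑ σ, a σ • mono x σ ∈ I

/-- `U/I` is torsion free -/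
def PureI {U : Type} [Ring U] (I : Ideal U) : Prop :=
  ∀ (m : ℕ) (g : U), m ≠ 0 → (m : U) * g ∈ I → g ∈ I

/-- `π` kills a two-sided ideal `I` such that `F/I` is a torsion free PI ring -/
def Kills {F U : Type} [Ring F] [Ring U] (π : F →+* U) : Prop :=
  ∃ I : Ideal F, I.IsTwoSided ∧ PureI I ∧ MPI I ∧ ∀ g ∈ I, π g = 0

/-- the Capelli identity of rank `n` -/
def Cap (U : Type) [Ring U] (n : ℕ) : Prop :=
  ∀ (v : Fin (n + 1) → U) (x : Fin n → U),
    ∑ σ : Perm (Fin n), ((Perm.sign σ : ℤˣ) : ℤ) • capMono v x σ = 0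

/-- the (left) ideal generated by the Capelli values of rank `n` (it is two-sided) -/
def capI (U : Type) [Ring U] (n : ℕ) : Ideal U :=
  Ideal.span {y | ∃ (v : Fin (n + 1) → U) (x : Fin n → U),
    y = ∑ σ : Perm (Fin n), ((Perm.sign σ : ℤˣ) : ℤ) • capMono v x σ}

/-- the identities of the `k × k` matrices over commutative rings -/
noncomputable def IdM (X : Type) (k : ℕ) : Ideal (FreeAlgebra ℤ X) :=
  RingHom.ker (FreeAlgebra.lift ℤ (gen X k)).toRingHom

/-- products of the ideals `IdM X k` -/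
noncomputable def prodI (X : Type) : List ℕ → Ideal (FreeAlgebra ℤ X)
  | [] => ⊤
  | k :: l => IdM X k * prodI X l

/-- the list of ranks for the Capelli identity of rank `k + 1` -/
def lst : ℕ → List ℕ
  | 0 => []
  | k + 1 => (k + 1) :: (lst k ++ lst k)

end Pool.PI34.T1
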