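import Pool.Agent.LibPI34.T1_B
import Pool.Agent.LibPI34.T1_D

/-! PI34, theorem T1, file E: the class of the rings killed by a pure PI ideal. -/

set_option autoImplicit false

namespace Pool.PI34.T1

open Equiv Finset Pool.PI34.C0 Pool.PI34.BA

/-- closure: `ker q₁ · ker q₂ = 0` -/
theorem kills_of_mul {X U U₁ U₂ : Type} [Ring U] [Ring U₁] [Ring U₂]
    (π : FreeAlgebra ℤ X →+* U) (q₁ : U →+* U₁) (q₂ : U →+* U₂)
    (h : ∀ a b, q₁ a = 0 → q₂ b = 0 → a * b = 0) (h₁ : Kills (q₁.comp π))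
    (h₂ : Kills (q₂.comp π)) : Kills π := by
  obtain ⟨I, hI, pI, mI, kI⟩ := h₁
  obtain ⟨J, hJ, pJ, mJ, kJ⟩ := h₂
  refine ⟨I * J, inferInstance, PureI_mul I J pI pJ, MPI_mul I J mI mJ, fun g hg => ?_⟩
  refine Submodule.smul_induction_on (p := fun g => π g = 0) hg ?_ ?_
  · intro a ha b hb
    rw [smul_eq_mul, map_mul]
    exact h _ _ (kI a ha) (kJ b hb)
  · intro a b ha hb
    rw [map_add, ha, hb, add_zero]

/-- rings with a Capelli identity -/
theorem kills_of_cap {X U : Type} [Ring U] (π : FreeAlgebra ℤ X →+* U) (n : ℕ) (h : Cap U n) :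
    Kills π := by
  cases n with
  | zero =>
    have h0 : ∀ u : U, u = 0 := by
      intro u
      have h1 := h (fun _ => u) Fin.elim0
      simpa [capMono] using h1
    refine ⟨⊤, inferInstance, fun _ _ _ _ => Submodule.mem_top, ⟨0, fun _ => 1, rfl,
      fun _ => Submodule.mem_top⟩, fun g _ => h0 _⟩
  | succ k =>
    exact ⟨prodI X (lst k), inferInstance, PureI_prodI X (lst k), MPI_prodI X (lst k),
      fun g hg => chain k U h X π g hg⟩

/-- torsion free PI rings (`I = ker π`) -/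
theorem kills_of_torsionFree {X U : Type} [Ring U] (π : FreeAlgebra ℤ X →+* U)
    (h : ∀ (m : ℕ) (u : U), m ≠ 0 → (m : U) * u = 0 → u = 0) (hPI : MPI (⊥ : Ideal U)) :
    Kills π := by
  refine ⟨RingHom.ker π, inferInstance, ?_, ?_, fun g hg => hg⟩
  · intro m g hm hg
    rw [RingHom.mem_ker, map_mul, map_natCast] at hg
    exact h m _ hm hg
  · obtain ⟨d, a, ha, hx⟩ := hPI
    refine ⟨d, a, ha, fun x => ?_⟩
    have h1 := hx (fun i => π (x i))
    rw [Submodule.mem_bot] at h1
    rw [RingHom.mem_ker, map_sum, ← h1]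
    refine Finset.sum_congr rfl fun σ _ => ?_
    rw [map_zsmul]
    congr 1
    unfold mono
    rw [map_list_prod, List.map_ofFn]
    rfl

end Pool.PI34.T1
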