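import Pool.Agent.LibPI34.T1_Defs

/-! PI34, theorem T1, file F: from a ring without unit to the ring with unit adjoined. -/

set_option autoImplicit false

namespace Pool.PI34.T1

open Equiv Finset Pool.PI34.C0 Pool.PI34.BA

variable {U : Type} [Ring U] (R : NonUnitalSubring U)

/-- the Capelli identity with all the variables in `R` -/
def CapIn (R : NonUnitalSubring U) (n : ℕ) : Prop :=
  ∀ (v : Fin (n + 1) → U) (x : Fin n → U), (∀ i, v i ∈ R) → (∀ i, x i ∈ R) →
    ∑ σ : Perm (Fin n), ((Perm.sign σ : ℤˣ) : ℤ) • capMono v x σ = 0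

/-! ### sums over cosets -/

theorem sum_cosetL {G H M : Type*} [Group G] [Fintype G] [DecidableEq G] [Group H] [Fintype H]
    [AddCommMonoid M] (φ : H →* G) (hφ : Function.Injective φ) (F : G → M)
    (h : ∀ g, ∑ k : H, F (g * φ k) = 0) : ∑ g, F g = 0 := by
  classical
  rw [← Finset.sum_fiberwise (s := univ) (g := fun g : G => (QuotientGroup.mk g : G ⧸ φ.range))]
  apply Finset.sum_eq_zero
  intro q _
  obtain ⟨g0, rfl⟩ := QuotientGroup.mk_surjective q
  have h1 : (univ.filter fun g : G => (QuotientGroup.mk g : G ⧸ φ.range) = QuotientGroup.mk g0) =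
      univ.image (fun k : H => g0 * φ k) := by
    ext g
    simp only [mem_filter, mem_univ, true_and, mem_image]
    constructor
    · intro hg
      have h2 := QuotientGroup.eq.1 hg.symm
      obtain ⟨k, hk⟩ := h2
      exact ⟨k, by rw [hk]; group⟩
    · rintro ⟨k, rfl⟩
      refine (QuotientGroup.eq.2 ?_).symm
      exact ⟨k, by group⟩
  rw [h1, Finset.sum_image]
  · exact h g0
  · intro a _ b _ hab
    exact hφ (mul_left_cancel hab)

theorem sum_cosetR {G H M : Type*} [Group G] [Fintype G] [DecidableEq G] [Group H] [Fintype H]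
    [AddCommMonoid M] (φ : H →* G) (hφ : Function.Injective φ) (F : G → M)
    (h : ∀ g, ∑ k : H, F (φ k * g) = 0) : ∑ g, F g = 0 := by
  rw [← Equiv.sum_comp (Equiv.inv G)]
  refine sum_cosetL φ hφ (fun g => F ((Equiv.inv G) g)) fun g => ?_
  rw [← h g⁻¹, ← Equiv.sum_comp (Equiv.inv H)]
  refine Finset.sum_congr rfl fun k _ => ?_
  simp [Equiv.inv_apply, mul_inv_rev]

/-! ### regrouping of words -/

theorem regroup_nat (n : ℕ) (v w : ℕ → U) :
    v 0 * (List.ofFn fun i : Fin (2 * n + 1) => w i * v (i + 1)).prod =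
      (v 0 * w 0 * v 1) * (List.ofFn fun i : Fin n => w (2 * i + 1) *
        (v (2 * (i + 1)) * w (2 * (i + 1)) * v (2 * (i + 1) + 1))).prod := by
  induction n with
  | zero => simp [mul_assoc]
  | succ n ih =>
    have e1 : 2 * (n + 1) + 1 = (2 * n + 1) + 1 + 1 := by ring
    rw [List.ofFn_congr e1, List.ofFn_succ', List.ofFn_succ']
    rw [List.ofFn_succ' (n := n)]
    simp only [List.concat_eq_append, List.prod_append, List.prod_singleton, Fin.val_cast,
      Fin.val_castSucc, Fin.val_last]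
    have e2 : 2 * (n + 1) = 2 * n + 1 + 1 := by ring
    rw [e2]
    simp only [← mul_assoc] at ih ⊢
    rw [ih]

/-- merging the letter at the position `p` into the coefficients -/
theorem merge (m : ℕ) : ∀ (p : Fin (m + 1)) (v : Fin (m + 2) → U) (a : U),
    ∃ v' : Fin (m + 1) → U, ∀ w : Fin (m + 1) → U, w p = a →
      v 0 * (List.ofFn fun k => w k * v k.succ).prod =
      v' 0 * (List.ofFn fun j : Fin m => w (p.succAbove j) * v' j.succ).prod := by
  induction m with
  | zero =>
    intro p v a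
    refine ⟨fun _ => v 0 * a * v 1, fun w hw => ?_⟩
    have hp : p = 0 := Fin.fin_one_eq_zero p
    subst hp
    simp [← hw, mul_assoc]
  | succ m ih =>
    intro p v a
    refine Fin.cases ?_ (fun q => ?_) p
    · refine ⟨Fin.cons (v 0 * a * v 1) fun j => v j.succ.succ, fun w hw => ?_⟩
      rw [List.ofFn_succ, List.prod_cons]
      simp only [Fin.cons_zero, Fin.cons_succ, Fin.succAbove_zero, ← hw, mul_assoc,
        Fin.succ_zero_eq_one]
    · obtain ⟨v'', hv''⟩ := ih q (fun j => v j.succ) a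
      refine ⟨Fin.cons (v 0) v'', fun w hw => ?_⟩
      conv_lhs => rw [List.ofFn_succ, List.prod_cons]
      conv_rhs => rw [List.ofFn_succ, List.prod_cons]
      have := hv'' (fun j => w j.succ) hw
      simp only [Fin.cons_zero, Fin.cons_succ, Fin.succ_succAbove_succ, Fin.succ_succAbove_zero] at this ⊢
      simp only [mul_assoc] at this ⊢
      rw [this]

/-! ### step 1 -/

/-- the embedding of the positions `1, 3, …, 2n-1` -/
def oddE (n : ℕ) : Fin n ↪ Fin (2 * n + 1) where
  toFun i := ⟨2 * i + 1, by omega⟩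
  inj' a b h := by
    simp only [Fin.mk.injEq] at h
    exact Fin.ext (by omega)

/-- the group homomorphism extending permutations along an embedding -/
def viaHom {n m : ℕ} (f : Fin n ↪ Fin m) : Perm (Fin n) →* Perm (Fin m) :=
  Equiv.Perm.extendDomainHom f.toEquivRange

theorem viaHom_inj {n m : ℕ} (f : Fin n ↪ Fin m) : Function.Injective (viaHom f) :=
  Equiv.Perm.extendDomainHom_injective _

theorem viaHom_eq {n m : ℕ} (f : Fin n ↪ Fin m) (e : Perm (Fin n)) :
    viaHom f e = e.viaFintypeEmbedding f := rfl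

theorem viaHom_apply {n m : ℕ} (f : Fin n ↪ Fin m) (e : Perm (Fin n)) (i : Fin n) :
    viaHom f e (f i) = f (e i) := by
  rw [viaHom_eq, Equiv.Perm.viaFintypeEmbedding_apply_image]

theorem viaHom_apply' {n m : ℕ} (f : Fin n ↪ Fin m) (e : Perm (Fin n)) (i : Fin m)
    (hi : i ∉ Set.range f) : viaHom f e i = i := by
  rw [viaHom_eq, Equiv.Perm.viaFintypeEmbedding_apply_notMem_range _ _ hi]

theorem viaHom_sign {n m : ℕ} (f : Fin n ↪ Fin m) (e : Perm (Fin n)) :
    Perm.sign (viaHom f e) = Perm.sign e := by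
  rw [viaHom_eq, Equiv.Perm.viaFintypeEmbedding_sign]

theorem regroup_fin (n : ℕ) (v : Fin (2 * n + 2) → U) (w : Fin (2 * n + 1) → U) :
    v 0 * (List.ofFn fun i : Fin (2 * n + 1) => w i * v i.succ).prod =
      (v ⟨0, by omega⟩ * w ⟨0, by omega⟩ * v ⟨1, by omega⟩) *
        (List.ofFn fun i : Fin n => w (oddE n i) *
        (v ⟨2 * (i + 1), by omega⟩ * w ⟨2 * (i + 1), by omega⟩ * v ⟨2 * (i + 1) + 1, by omega⟩)).prod := by
  have h := regroup_nat n (fun j => if h : j < 2 * n + 2 then v ⟨j, h⟩ else 0)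
    (fun j => if h : j < 2 * n + 1 then w ⟨j, h⟩ else 0)
  have e1 : (List.ofFn fun i : Fin (2 * n + 1) =>
      (if h : (i : ℕ) < 2 * n + 1 then w ⟨i, h⟩ else 0) *
        (if h : (i : ℕ) + 1 < 2 * n + 2 then v ⟨(i : ℕ) + 1, h⟩ else 0)) =
      List.ofFn fun i : Fin (2 * n + 1) => w i * v i.succ := by
    congr 1
    funext i
    rw [dif_pos i.2, dif_pos (by omega)]
    rfl
  have e2 : (List.ofFn fun i : Fin n =>
      (if h : 2 * (i : ℕ) + 1 < 2 * n + 1 then w ⟨2 * i + 1, h⟩ else 0) *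
        ((if h : 2 * ((i : ℕ) + 1) < 2 * n + 2 then v ⟨2 * (i + 1), h⟩ else 0) *
        (if h : 2 * ((i : ℕ) + 1) < 2 * n + 1 then w ⟨2 * (i + 1), h⟩ else 0) *
        (if h : 2 * ((i : ℕ) + 1) + 1 < 2 * n + 2 then v ⟨2 * (i + 1) + 1, h⟩ else 0))) =
      List.ofFn fun i : Fin n => w (oddE n i) *
        (v ⟨2 * (i + 1), by omega⟩ * w ⟨2 * (i + 1), by omega⟩ * v ⟨2 * (i + 1) + 1, by omega⟩) := by
    congr 1
    funext i
    have := i.2
    rw [dif_pos (by omega), dif_pos (by omega), dif_pos (by omega), dif_pos (by omega)]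
    rfl
  simp only [e1, e2] at h
  rw [dif_pos (by omega), dif_pos (by omega), dif_pos (by omega)] at h
  exact h

/-- STEP 1: `CapIn R n` implies the Capelli identity of rank `2n + 1` with `x` in `R` and `v` in `U`.
In `v_0 x_{σ 0} v_1 ⋯ x_{σ 2n} v_{2n+1}` use the variables at the odd positions `1, 3, …` as alternating variables and
`v_0 x_{σ 0} v_1`, `v_2 x_{σ 2} v_3`, … (in `R`) as the coefficients: sum first over the permutations of the variables
at the positions `1, 3, …, 2n-1`. -/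
theorem cap_step1 (hR : ∀ u r, r ∈ R → u * r ∈ R) (hR' : ∀ u r, r ∈ R → r * u ∈ R) (n : ℕ)
    (h : CapIn R n) (v : Fin (2 * n + 2) → U) (x : Fin (2 * n + 1) → U) (hx : ∀ i, x i ∈ R) :
    ∑ σ : Perm (Fin (2 * n + 1)), ((Perm.sign σ : ℤˣ) : ℤ) • capMono v x σ = 0 := by
  classical
  refine sum_cosetL (viaHom (oddE n)) (viaHom_inj _) _ fun g => ?_
  have hev : ∀ (k : Perm (Fin n)) (i : Fin (2 * n + 1)), Even (i : ℕ) → viaHom (oddE n) k i = i := by
    intro k i hi
    apply viaHom_apply'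
    rintro ⟨j, hj⟩
    have : (i : ℕ) = 2 * j + 1 := by rw [← hj]; rfl
    rw [this] at hi
    exact (Nat.not_even_iff_odd.2 ⟨j, rfl⟩) hi
  have key := h (Fin.cons (v ⟨0, by omega⟩ * x (g ⟨0, by omega⟩) * v ⟨1, by omega⟩)
      (fun i => v ⟨2 * (i + 1), by omega⟩ * x (g ⟨2 * (i + 1), by omega⟩) * v ⟨2 * (i + 1) + 1, by omega⟩))
    (fun i => x (g (oddE n i)))
    (fun i => by
      refine Fin.cases ?_ (fun j => ?_) i
      · exact hR' _ _ (hR _ _ (hx _))
      · exact hR' _ _ (hR _ _ (hx _)))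
    (fun i => hx _)
  have hk : ∀ k : Perm (Fin n), ((Perm.sign (g * viaHom (oddE n) k) : ℤˣ) : ℤ) •
      capMono v x (g * viaHom (oddE n) k) = ((Perm.sign g : ℤˣ) : ℤ) • (((Perm.sign k : ℤˣ) : ℤ) •
      capMono (Fin.cons (v ⟨0, by omega⟩ * x (g ⟨0, by omega⟩) * v ⟨1, by omega⟩)
      (fun i => v ⟨2 * (i + 1), by omega⟩ * x (g ⟨2 * (i + 1), by omega⟩) * v ⟨2 * (i + 1) + 1, by omega⟩))
    (fun i => x (g (oddE n i))) k) := by
    intro k
    rw [Perm.sign_mul, viaHom_sign, Units.val_mul, mul_smul]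
    congr 2
    unfold capMono
    rw [regroup_fin n v (fun i => x ((g * viaHom (oddE n) k) i))]
    simp only [Fin.cons_zero, Fin.cons_succ, Perm.mul_apply, viaHom_apply]
    rw [hev k ⟨0, by omega⟩ (by simp)]
    congr 3
    funext i
    rw [hev k ⟨2 * (i + 1), by omega⟩ (by simp)]
  rw [Finset.sum_congr rfl fun k _ => hk k, ← Finset.smul_sum, key, smul_zero]

/-! ### step 2 -/

/-- at most one argument outside `R` -/
theorem cap_one (m : ℕ)
    (hm : ∀ (v : Fin (m + 1) → U) (x : Fin m → U), (∀ i, x i ∈ R) →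
      ∑ σ : Perm (Fin m), ((Perm.sign σ : ℤˣ) : ℤ) • capMono v x σ = 0)
    (v : Fin (m + 2) → U) (x : Fin (m + 1) → U) (i : Fin (m + 1)) (hx : ∀ j, j ≠ i → x j ∈ R) :
    ∑ σ : Perm (Fin (m + 1)), ((Perm.sign σ : ℤˣ) : ℤ) • capMono v x σ = 0 := by
  classical
  refine sum_cosetR (viaHom (Fin.succAboveEmb i)) (viaHom_inj _) _ fun g => ?_
  obtain ⟨v', hv'⟩ := merge m (g.symm i) v (x i)
  -- the permutation `τ`
  have hex : ∀ j : Fin m, ∃ t : Fin m, i.succAbove t = g ((g.symm i).succAbove j) := by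
    intro j
    apply Fin.exists_succAbove_eq
    intro h
    have h2 : (g.symm i).succAbove j = g.symm i := (Equiv.eq_symm_apply g).2 h
    exact Fin.succAbove_ne _ _ h2
  choose t ht using hex
  have tinj : Function.Injective t := by
    intro a b hab
    have h1 := ht a
    rw [hab, ht b] at h1
    exact (Fin.succAbove_right_injective (g.injective h1)).symm
  have tbij : Function.Bijective t := Finite.injective_iff_bijective.1 tinj
  set τ : Perm (Fin m) := Equiv.ofBijective t tbij with hτ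
  have key := hm v' (fun j => x (i.succAbove j)) (fun j => hx _ (Fin.succAbove_ne _ _))
  have hk : ∀ k : Perm (Fin m), ((Perm.sign (viaHom (Fin.succAboveEmb i) k * g) : ℤˣ) : ℤ) •
      capMono v x (viaHom (Fin.succAboveEmb i) k * g) =
      (((Perm.sign g : ℤˣ) : ℤ) * ((Perm.sign τ : ℤˣ) : ℤ)) • (((Perm.sign (k * τ) : ℤˣ) : ℤ) •
        capMono v' (fun j => x (i.succAbove j)) (k * τ)) := by
    intro k
    have hsgn : ((Perm.sign (viaHom (Fin.succAboveEmb i) k * g) : ℤˣ) : ℤ) =
        (((Perm.sign g : ℤˣ) : ℤ) * ((Perm.sign τ : ℤˣ) : ℤ)) * ((Perm.sign (k * τ) : ℤˣ) : ℤ) := by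
      rw [Perm.sign_mul, viaHom_sign, Perm.sign_mul, Units.val_mul, Units.val_mul]
      have h2 : ((Perm.sign τ : ℤˣ) : ℤ) * ((Perm.sign τ : ℤˣ) : ℤ) = 1 := by
        rw [← Units.val_mul, Int.units_mul_self, Units.val_one]
      linear_combination (-(((Perm.sign g : ℤˣ) : ℤ) * ((Perm.sign k : ℤˣ) : ℤ))) * h2
    rw [hsgn, mul_smul]
    congr 2
    unfold capMono
    rw [hv' (fun j => x ((viaHom (Fin.succAboveEmb i) k * g) j)) ?_]
    · congr 3
      funext j
      congr 2
      rw [Perm.mul_apply, ← ht j, Perm.mul_apply]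
      exact viaHom_apply (Fin.succAboveEmb i) k (t j)
    · simp only [Perm.mul_apply, Equiv.apply_symm_apply]
      congr 1
      apply viaHom_apply'
      rintro ⟨j, hj⟩
      exact Fin.succAbove_ne _ _ hj
  rw [Finset.sum_congr rfl fun k _ => hk k, ← Finset.smul_sum]
  rw [Fintype.sum_equiv (Equiv.mulRight τ) (fun k : Perm (Fin m) => ((Perm.sign (k * τ) : ℤˣ) : ℤ) •
        capMono v' (fun j => x (i.succAbove j)) (k * τ)) (fun k : Perm (Fin m) => ((Perm.sign k : ℤˣ) : ℤ) •
        capMono v' (fun j => x (i.succAbove j)) k) (fun k => rfl)]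
  rw [key, smul_zero]

/-- the Capelli polynomial as an alternating map -/
noncomputable def capAlt {m : ℕ} (v : Fin (m + 1) → U) : U [⋀^Fin m]→ₗ[ℤ] U :=
  MultilinearMap.alternatization
    ((LinearMap.mulLeft ℤ (v 0)).compMultilinearMap
      ((MultilinearMap.mkPiAlgebraFin ℤ m U).compLinearMap fun i => LinearMap.mulRight ℤ (v i.succ)))

theorem capAlt_apply {m : ℕ} (v : Fin (m + 1) → U) (x : Fin m → U) :
    capAlt v x = ∑ σ : Perm (Fin m), ((Perm.sign σ : ℤˣ) : ℤ) • capMono v x σ := by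
  unfold capAlt
  rw [MultilinearMap.alternatization_apply]
  refine Finset.sum_congr rfl fun σ _ => ?_
  rfl

theorem alt_step1 {m : ℕ} (f : U [⋀^Fin m]→ₗ[ℤ] U)
    (hU : ∀ u : U, ∃ (c : ℤ) (r : U), r ∈ R ∧ u = c + r)
    (h0 : ∀ (x : Fin m → U) (i : Fin m), (∀ j, j ≠ i → x j ∈ R) → f x = 0) (i : Fin m)
    (B : Finset (Fin m)) : ∀ x : Fin m → U, x i = 1 → i ∉ B → (∀ j, j ≠ i → j ∉ B → x j ∈ R) → f x = 0 := by
  induction B using Finset.induction_on with
  | empty =>
    intro x _ _ hx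
    exact h0 x i fun j hj => hx j hj (by simp)
  | insert b B hb ih =>
    intro x hxi hi hx
    have hbi : i ≠ b := fun h => hi (h ▸ Finset.mem_insert_self _ _)
    obtain ⟨c, r, hr, hcr⟩ := hU (x b)
    have e1 : x = Function.update x b (c • (1 : U) + r) := by
      rw [show c • (1 : U) + r = x b by rw [hcr]; simp, Function.update_eq_self]
    rw [e1, AlternatingMap.map_update_add, AlternatingMap.map_update_smul]
    have h1 : f (Function.update x b 1) = 0 := by
      apply f.map_eq_zero_of_eq _ _ hbi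
      rw [Function.update_of_ne hbi, Function.update_self, hxi]
    rw [h1, smul_zero, zero_add]
    apply ih
    · rw [Function.update_of_ne hbi, hxi]
    · exact fun h => hi (Finset.mem_insert_of_mem h)
    · intro j hj hjB
      by_cases hjb : j = b
      · subst hjb
        rw [Function.update_self]
        exact hr
      · rw [Function.update_of_ne hjb]
        exact hx j hj (by simp [hjb, hjB])

theorem alt_step2 {m : ℕ} (f : U [⋀^Fin m]→ₗ[ℤ] U) (hm : 0 < m)
    (hU : ∀ u : U, ∃ (c : ℤ) (r : U), r ∈ R ∧ u = c + r)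
    (h0 : ∀ (x : Fin m → U) (i : Fin m), (∀ j, j ≠ i → x j ∈ R) → f x = 0)
    (B : Finset (Fin m)) : ∀ x : Fin m → U, (∀ j, j ∉ B → x j ∈ R) → f x = 0 := by
  induction B using Finset.induction_on with
  | empty =>
    intro x hx
    exact h0 x ⟨0, hm⟩ fun j hj => hx j (by simp)
  | insert b B hb ih =>
    intro x hx
    obtain ⟨c, r, hr, hcr⟩ := hU (x b)
    have e1 : x = Function.update x b (c • (1 : U) + r) := by
      rw [show c • (1 : U) + r = x b by rw [hcr]; simp, Function.update_eq_self]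
    rw [e1, AlternatingMap.map_update_add, AlternatingMap.map_update_smul]
    have h1 : f (Function.update x b 1) = 0 := by
      refine alt_step1 R f hU h0 b B _ (Function.update_self _ _ _) hb ?_
      intro j hj hjB
      rw [Function.update_of_ne hj]
      exact hx j (by simp [hj, hjB])
    rw [h1, smul_zero, zero_add]
    apply ih
    intro j hjB
    by_cases hjb : j = b
    · subst hjb
      rw [Function.update_self]
      exact hr
    · rw [Function.update_of_ne hjb]
      exact hx j (by simp [hjb, hjB])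

/-- STEP 2: if moreover `U = ℤ + R`, then `U` satisfies the Capelli identity of rank `2n + 2`.
Write `x_i = c_i + r_i`; two equal arguments give `0`, so at most one `x_i` is `1`; the sum over its position is a
signed sum of Capelli values of rank `2n + 1` with arguments in `R` (likewise if no `x_i` is `1`: expand with respect to
the position of the last variable). -/
theorem cap_step2 (hR : ∀ u r, r ∈ R → u * r ∈ R) (hR' : ∀ u r, r ∈ R → r * u ∈ R)
    (hU : ∀ u : U, ∃ (c : ℤ) (r : U), r ∈ R ∧ u = c + r) (n : ℕ) (h : CapIn R n) :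
    Cap U (2 * n + 2) := by
  intro v x
  rw [← capAlt_apply]
  refine alt_step2 R (capAlt v) (by omega) hU ?_ univ x (by simp)
  intro x i hx
  rw [capAlt_apply]
  exact cap_one R (2 * n + 1) (fun v x hx => cap_step1 R hR hR' n h v x hx) v x i hx

/-! ### the unitization of an identity -/

/-- the pair of the pair number `i` at the place `j` -/
def pr (d : ℕ) : Fin (d + 1) × Fin 2 ≃ Fin ((d + 1) * 2) := finProdFinEquiv

/-- the permutation `(i, j) ↦ (τ i, j + r i)` -/
def shp (d : ℕ) (τ : Perm (Fin (d + 1))) (r : Fin (d + 1) → Fin 2) : Perm (Fin ((d + 1) * 2)) :=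
  (pr d).symm.trans ((Equiv.prodShear τ (fun i => if r i = 0 then 1 else Equiv.swap 0 1)).trans (pr d))

theorem shp_pr (d : ℕ) (τ : Perm (Fin (d + 1))) (r : Fin (d + 1) → Fin 2) (i : Fin (d + 1)) (j : Fin 2) :
    shp d τ r (pr d (i, j)) = pr d (τ i, (if r i = 0 then (1 : Perm (Fin 2)) else Equiv.swap 0 1) j) := by
  simp [shp, Equiv.prodShear]

theorem shp_one (d : ℕ) (τ : Perm (Fin (d + 1))) (r : Fin (d + 1) → Fin 2) (h : shp d τ r = 1) :
    τ = 1 ∧ r = 0 := by
  have h1 : ∀ i j, (τ i, (if r i = 0 then (1 : Perm (Fin 2)) else Equiv.swap 0 1) j) = (i, j) := by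
    intro i j
    apply (pr d).injective
    rw [← shp_pr, h]
    rfl
  refine ⟨Equiv.ext fun i => (Prod.ext_iff.1 (h1 i 0)).1, funext fun i => ?_⟩
  by_contra hr
  have hr' : ¬ r i = 0 := hr
  have h2 := (Prod.ext_iff.1 (h1 i 0)).2
  rw [if_neg hr'] at h2
  simp at h2

theorem shp_one' (d : ℕ) : shp d 1 0 = 1 := by
  ext k
  obtain ⟨⟨i, j⟩, rfl⟩ := (pr d).surjective k
  rw [shp_pr]
  simp

theorem mono_pair {U : Type} [Ring U] (d : ℕ) (X : Fin ((d + 1) * 2) → U) :
    (List.ofFn fun k => X k).prod =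
      (List.ofFn fun i : Fin (d + 1) => X (pr d (i, 0)) * X (pr d (i, 1))).prod := by
  rw [List.ofFn_mul, List.prod_flatten, List.map_ofFn]
  congr 2
  funext i
  simp only [Function.comp, List.ofFn_succ, List.ofFn_zero, List.prod_cons, List.prod_nil, mul_one]
  congr 2
  · apply Fin.ext
    simp [pr, finProdFinEquiv]
    ring
  · apply Fin.ext
    simp [pr, finProdFinEquiv]
    ring

theorem mono_shp {U : Type} [Ring U] (d : ℕ) (X : Fin ((d + 1) * 2) → U) (τ : Perm (Fin (d + 1)))
    (r : Fin (d + 1) → Fin 2) :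
    mono X (shp d τ r) = (List.ofFn fun i : Fin (d + 1) => X (pr d (τ i, r i)) *
      X (pr d (τ i, (r i).rev))).prod := by
  unfold mono
  rw [mono_pair d (fun k => X (shp d τ r k))]
  congr 2
  funext i
  rw [shp_pr, shp_pr]
  generalize r i = c
  fin_cases c <;> simp [Fin.rev]

theorem mono_comm {U : Type} [Ring U] (d : ℕ) (X : Fin ((d + 1) * 2) → U) (τ : Perm (Fin (d + 1))) :
    mono (fun i : Fin (d + 1) => X (pr d (i, 0)) * X (pr d (i, 1)) - X (pr d (i, 1)) * X (pr d (i, 0))) τ =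
      ∑ r : Fin (d + 1) → Fin 2, (∏ i, (if r i = 0 then (1 : ℤ) else -1)) • mono X (shp d τ r) := by
  have e1 : (fun i : Fin (d + 1) => X (pr d (τ i, 0)) * X (pr d (τ i, 1)) -
      X (pr d (τ i, 1)) * X (pr d (τ i, 0))) =
      fun i => ∑ j : Fin 2, (if j = 0 then (1 : ℤ) else -1) • (X (pr d (τ i, j)) * X (pr d (τ i, j.rev))) := by
    funext i
    rw [Fin.sum_univ_two]
    simp [Fin.rev, sub_eq_add_neg]
  have e2 : mono (fun i : Fin (d + 1) => X (pr d (i, 0)) * X (pr d (i, 1)) -
      X (pr d (i, 1)) * X (pr d (i, 0))) τ = MultilinearMap.mkPiAlgebraFin ℤ (d + 1) U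
      (fun i : Fin (d + 1) => X (pr d (τ i, 0)) * X (pr d (τ i, 1)) -
      X (pr d (τ i, 1)) * X (pr d (τ i, 0))) := by
    rw [MultilinearMap.mkPiAlgebraFin_apply]
    rfl
  rw [e2, e1, MultilinearMap.map_sum]
  refine Finset.sum_congr rfl fun r _ => ?_
  rw [MultilinearMap.map_smul_univ, MultilinearMap.mkPiAlgebraFin_apply, mono_shp]

/-- a multilinear identity of `R` gives one of `U` (substitute commutators `[y_i, z_i] ∈ R`) -/
theorem mpi_of_sub (hU : ∀ u : U, ∃ (c : ℤ) (r : U), r ∈ R ∧ u = c + r)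
    (hR : ∀ u r, r ∈ R → u * r ∈ R) (hR' : ∀ u r, r ∈ R → r * u ∈ R) (d : ℕ)
    (a : Perm (Fin (d + 1)) → ℤ) (ha : a 1 = 1)
    (h : ∀ x : Fin (d + 1) → U, (∀ i, x i ∈ R) → ∑ σ, a σ • mono x σ = 0) :
    MPI (⊥ : Ideal U) := by
  classical
  have hcomm : ∀ y z : U, y * z - z * y ∈ R := by
    intro y z
    obtain ⟨c, r, hr, rfl⟩ := hU y
    obtain ⟨c', r', hr', rfl⟩ := hU z
    have e : ((c : U) + r) * ((c' : U) + r') - ((c' : U) + r') * ((c : U) + r) = r * r' - r' * r := by
      have h1 := Int.cast_commute c r'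
      have h2 := Int.cast_commute c' r
      have h3 := Int.cast_commute c (c' : U)
      simp only [Commute, SemiconjBy] at h1 h2 h3
      simp only [add_mul, mul_add, h1, h2, h3]
      abel
    rw [e]
    exact sub_mem (hR _ _ hr') (hR _ _ hr)
  refine ⟨(d + 1) * 1 + d, fun σ => ∑ τ : Perm (Fin (d + 1)), ∑ r : Fin (d + 1) → Fin 2,
    if shp d τ r = σ then a τ * (∏ i, (if r i = 0 then (1 : ℤ) else -1)) else 0, ?_, ?_⟩
  · have h1 : ∀ (τ : Perm (Fin (d + 1))) (r : Fin (d + 1) → Fin 2), (τ, r) ≠ (1, 0) →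
        (if shp d τ r = 1 then a τ * (∏ i, (if r i = 0 then (1 : ℤ) else -1)) else 0) = 0 := by
      intro τ r hne
      rw [if_neg]
      intro h2
      obtain ⟨h3, h4⟩ := shp_one d τ r h2
      exact hne (by rw [h3, h4])
    show (∑ τ : Perm (Fin (d + 1)), ∑ r : Fin (d + 1) → Fin 2,
      if shp d τ r = 1 then a τ * (∏ i, (if r i = 0 then (1 : ℤ) else -1)) else 0) = 1
    rw [Finset.sum_eq_single (1 : Perm (Fin (d + 1))), Finset.sum_eq_single (0 : Fin (d + 1) → Fin 2)]
    · rw [if_pos (shp_one' d), ha]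
      simp
    · intro r _ hr
      exact h1 _ _ (by simpa using hr)
    · intro h; exact absurd (mem_univ _) h
    · intro τ _ hτ
      exact Finset.sum_eq_zero fun r _ => h1 _ _ (by simp [hτ])
    · intro h; exact absurd (mem_univ _) h
  · intro X
    rw [Submodule.mem_bot]
    show ∑ σ : Perm (Fin ((d + 1) * 2)), (∑ τ : Perm (Fin (d + 1)), ∑ r : Fin (d + 1) → Fin 2,
      if shp d τ r = σ then a τ * (∏ i, (if r i = 0 then (1 : ℤ) else -1)) else 0) • mono X σ = 0
    have h2 := h (fun i : Fin (d + 1) => X (pr d (i, 0)) * X (pr d (i, 1)) -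
      X (pr d (i, 1)) * X (pr d (i, 0))) (fun i => hcomm _ _)
    rw [← h2]
    simp only [Finset.sum_smul]
    rw [Finset.sum_comm]
    refine Finset.sum_congr rfl fun τ _ => ?_
    rw [Finset.sum_comm, mono_comm, Finset.smul_sum]
    refine Finset.sum_congr rfl fun r _ => ?_
    simp only [ite_smul, zero_smul]
    rw [Finset.sum_ite_eq]
    simp [mul_smul]

end Pool.PI34.T1
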