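import Pool.Agent.LibPI34.T1_E
import Pool.Agent.LibPI34.T1_F
import Pool.Agent.LibPI34.C0_Final

/-! PI34, theorem T1, file G: rings of positive characteristic. -/

set_option autoImplicit false

namespace Pool.PI34.T1

open Equiv Finset Pool.PI34.C0 Pool.PI34.BA

/-- `R` is an ideal of `U` and `U = ℤ + R` -/
structure Aug {U : Type} [Ring U] (R : NonUnitalSubring U) : Prop where
  left : ∀ u r, r ∈ R → u * r ∈ R
  right : ∀ u r, r ∈ R → r * u ∈ R
  top : ∀ u : U, ∃ (c : ℤ) (r : U), r ∈ R ∧ u = c + r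

/-- rings with a Capelli identity (`cap_step2`, `kills_of_cap`) -/
theorem kills_of_capIn {X U : Type} [Ring U] (R : NonUnitalSubring U) (hR : Aug R)
    (π : FreeAlgebra ℤ X →+* U) (n : ℕ) (h : CapIn R n) : Kills π :=
  kills_of_cap π (2 * n + 2) (cap_step2 R hR.left hR.right hR.top n h)

/-- torsion free PI rings -/
theorem kills_of_tf {X U : Type} [Ring U] (R : NonUnitalSubring U) (hR : Aug R)
    (π : FreeAlgebra ℤ X →+* U) (htf : ∀ (m : ℕ) (u : U), m ≠ 0 → (m : U) * u = 0 → u = 0)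
    (d : ℕ) (a : Perm (Fin (d + 1)) → ℤ) (ha : a 1 = 1)
    (h : ∀ x : Fin (d + 1) → U, (∀ i, x i ∈ R) → ∑ σ, a σ • mono x σ = 0) : Kills π :=
  kills_of_torsionFree π htf (mpi_of_sub R hR.top hR.left hR.right d a ha h)

/-- the ideal `c R` -/
def G_mulI {U : Type} [Ring U] (R : NonUnitalSubring U) (hR : Aug R) (c : ℕ) : Ideal U where
  carrier := {u | ∃ r ∈ R, u = (c : U) * r}
  zero_mem' := ⟨0, R.zero_mem, by simp⟩
  add_mem' := by
    rintro _ _ ⟨r, hr, rfl⟩ ⟨s, hs, rfl⟩
    exact ⟨r + s, R.add_mem hr hs, by rw [mul_add]⟩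
  smul_mem' := by
    rintro u _ ⟨r, hr, rfl⟩
    exact ⟨u * r, hR.left u r hr, by
      rw [smul_eq_mul, ← mul_assoc, ← mul_assoc, (Nat.cast_commute c u).eq]⟩

theorem G_mem_mulI {U : Type} [Ring U] (R : NonUnitalSubring U) (hR : Aug R) (c : ℕ) (u : U) :
    u ∈ G_mulI R hR c ↔ ∃ r ∈ R, u = (c : U) * r := Iff.rfl

theorem G_twoSided {U : Type} [Ring U] (R : NonUnitalSubring U) (hR : Aug R) (c : ℕ) :
    (G_mulI R hR c).IsTwoSided := by
  constructor
  rintro _ b ⟨r, hr, rfl⟩
  exact ⟨r * b, hR.right b r hr, by rw [mul_assoc]⟩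

theorem G_aug_map {U U₁ : Type} [Ring U] [Ring U₁] (R : NonUnitalSubring U) (hR : Aug R)
    (q : U →+* U₁) (hq : Function.Surjective q) : Aug (R.map q) := by
  constructor
  · intro u r hr
    obtain ⟨s, hs, rfl⟩ := NonUnitalSubring.mem_map.1 hr
    obtain ⟨w, rfl⟩ := hq u
    exact NonUnitalSubring.mem_map.2 ⟨w * s, hR.left w s hs, map_mul q w s⟩
  · intro u r hr
    obtain ⟨s, hs, rfl⟩ := NonUnitalSubring.mem_map.1 hr
    obtain ⟨w, rfl⟩ := hq u
    exact NonUnitalSubring.mem_map.2 ⟨s * w, hR.right w s hs, map_mul q s w⟩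
  · intro u
    obtain ⟨w, rfl⟩ := hq u
    obtain ⟨c, r, hr, rfl⟩ := hR.top w
    exact ⟨c, q r, NonUnitalSubring.mem_map.2 ⟨r, hr, rfl⟩, by rw [map_add, map_intCast]⟩

theorem G_mono_map {U U₁ : Type} [Ring U] [Ring U₁] (q : U →+* U₁) {n : ℕ} (x : Fin n → U)
    (σ : Perm (Fin n)) : q (mono x σ) = mono (fun i => q (x i)) σ := by
  unfold mono
  rw [map_list_prod, List.map_ofFn]
  rfl

theorem G_pi_map {U U₁ : Type} [Ring U] [Ring U₁] (R : NonUnitalSubring U) (q : U →+* U₁)
    (d : ℕ) (a : Perm (Fin (d + 1)) → ℤ)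
    (h : ∀ x : Fin (d + 1) → U, (∀ i, x i ∈ R) → ∑ σ, a σ • mono x σ = 0) :
    ∀ x : Fin (d + 1) → U₁, (∀ i, x i ∈ R.map q) → ∑ σ, a σ • mono x σ = 0 := by
  intro x hx
  choose y hy hyx using fun i => NonUnitalSubring.mem_map.1 (hx i)
  have h1 := congrArg q (h y hy)
  rw [map_sum, map_zero] at h1
  have h2 : (fun i => q (y i)) = x := funext hyx
  rw [← h1]
  refine Finset.sum_congr rfl fun σ _ => ?_
  rw [map_zsmul, G_mono_map, h2]

/-- PI rings of positive characteristic.  Induction on `N` (all `U`, `R`, `X`, `π` at the same time).  `N = 1`: `R = 0`, `U`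
is commutative: `Cap U 2`.  `N = p N'`, `p` prime: `q₁ : U → U/pR`, `q₂ : U → U/N'R`, `pR · N'R = 0` (`kills_of_mul`); in
`U/pR` the image of `R` is killed by `p`, so it satisfies a Capelli identity by `C0.capelli` (`kills_of_capIn`);
in `U/N'R` the image of `R` is killed by `N'`: induction. -/
theorem kills_of_char (N : ℕ) (hN : 1 ≤ N) : ∀ {X U : Type} [Ring U] (R : NonUnitalSubring U),
    Aug R → ∀ (π : FreeAlgebra ℤ X →+* U) (d : ℕ) (a : Perm (Fin (d + 1)) → ℤ), a 1 = 1 →
    (∀ x : Fin (d + 1) → U, (∀ i, x i ∈ R) → ∑ σ, a σ • mono x σ = 0) →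
    (∀ r ∈ R, (N : U) * r = 0) → Kills π := by
  induction N using Nat.strong_induction_on with
  | _ N ih =>
    intro X U _ R hR π d a ha h hkill
    rcases Nat.eq_or_lt_of_le hN with hN1 | hN1
    · subst hN1
      have h0 : ∀ r ∈ R, r = 0 := fun r hr => by
        have := hkill r hr
        rwa [Nat.cast_one, one_mul] at this
      apply kills_of_capIn R hR π 1
      intro v x hv hx
      apply Finset.sum_eq_zero
      intro σ _
      have h1 : capMono v x σ = 0 := by
        unfold capMono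
        rw [h0 _ (hv 0), zero_mul]
      rw [h1, smul_zero]
    · obtain ⟨p, hp, N', rfl⟩ := Nat.exists_prime_and_dvd hN1.ne'
      haveI : Fact p.Prime := ⟨hp⟩
      have hN' : 1 ≤ N' := by
        rcases Nat.eq_zero_or_pos N' with h0 | h0
        · rw [h0] at hN1
          omega
        · exact h0
      have hlt : N' < p * N' := by
        have := hp.two_le
        nlinarith
      haveI : (G_mulI R hR p).IsTwoSided := G_twoSided R hR p
      haveI : (G_mulI R hR N').IsTwoSided := G_twoSided R hR N'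
      have hs₁ : Function.Surjective (Ideal.Quotient.mk (G_mulI R hR p)) :=
        Ideal.Quotient.mk_surjective
      have hs₂ : Function.Surjective (Ideal.Quotient.mk (G_mulI R hR N')) :=
        Ideal.Quotient.mk_surjective
      refine kills_of_mul π (Ideal.Quotient.mk (G_mulI R hR p))
        (Ideal.Quotient.mk (G_mulI R hR N')) ?_ ?_ ?_
      · intro u w hu hw
        rw [Ideal.Quotient.eq_zero_iff_mem, G_mem_mulI] at hu hw
        obtain ⟨r, hr, rfl⟩ := hu
        obtain ⟨s, hs, rfl⟩ := hw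
        have h1 := hkill (r * s) (R.mul_mem hr hs)
        rw [← h1, Nat.cast_mul]
        have h2 : r * (N' : U) = (N' : U) * r := (Nat.cast_commute N' r).eq.symm
        calc (p : U) * r * ((N' : U) * s) = (p : U) * (r * (N' : U)) * s := by
              simp only [mul_assoc]
          _ = (p : U) * ((N' : U) * r) * s := by rw [h2]
          _ = (p : U) * (N' : U) * (r * s) := by simp only [mul_assoc]
      · obtain ⟨n, _, hcap⟩ := C0.capelli p d
        apply kills_of_capIn (R.map (Ideal.Quotient.mk (G_mulI R hR p))) (G_aug_map R hR _ hs₁) _ n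
        intro v x hv hx
        refine hcap _ (R.map (Ideal.Quotient.mk (G_mulI R hR p))) a ha (G_pi_map R _ d a h) ?_
          Perm.sign v x hv hx
        intro r hr
        obtain ⟨s, hs, rfl⟩ := NonUnitalSubring.mem_map.1 hr
        have h3 : (p : ℤ) • (Ideal.Quotient.mk (G_mulI R hR p)) s =
            (Ideal.Quotient.mk (G_mulI R hR p)) ((p : U) * s) := by
          rw [zsmul_eq_mul, map_mul, map_natCast]
          simp
        have h4 : (Ideal.Quotient.mk (G_mulI R hR p)) ((p : U) * s) = 0 :=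
          Ideal.Quotient.eq_zero_iff_mem.2 ⟨s, hs, rfl⟩
        exact h3.trans h4
      · refine ih N' hlt hN' (R.map (Ideal.Quotient.mk (G_mulI R hR N'))) (G_aug_map R hR _ hs₂) _
          d a ha (G_pi_map R _ d a h) ?_
        intro r hr
        obtain ⟨s, hs, rfl⟩ := NonUnitalSubring.mem_map.1 hr
        have h4 : (Ideal.Quotient.mk (G_mulI R hR N')) ((N' : U) * s) = 0 :=
          Ideal.Quotient.eq_zero_iff_mem.2 ⟨s, hs, rfl⟩
        have h5 : ((N' : ℕ) : U ⧸ G_mulI R hR N') * (Ideal.Quotient.mk (G_mulI R hR N')) s =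
            (Ideal.Quotient.mk (G_mulI R hR N')) ((N' : U) * s) := by
          rw [map_mul, map_natCast]
        exact h5.trans h4

end Pool.PI34.T1
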