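import Pool.Agent.LibPI34.T1_G

/-! PI34, theorem T1, file H: THEOREM T1. -/

set_option autoImplicit false

namespace Pool.PI34.T1

open Equiv Finset Pool.PI34.C0 Pool.PI34.BA

/-- PI rings (the form of the frozen statement) -/
def PIid (R : Type) [NonUnitalRing R] : Prop :=
  ∃ (d : ℕ) (a : Equiv.Perm (Fin (d + 1)) → ℤ), a 1 = 1 ∧
    ∀ x : Fin (d + 1) → R,
      ∑ σ : Equiv.Perm (Fin (d + 1)),
        a σ • ((List.ofFn (fun i : Fin d => x (σ i.succ))).foldl
          (fun u v => u * v) (x (σ 0))) = 0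

/-- Capelli identity `∑ sgn(σ) v_0 x_{σ 0} v_1 ⋯ x_{σ (n-1)} v_n = 0` -/
def CapN (R : Type) [NonUnitalRing R] : Prop :=
  ∃ n : ℕ, ∀ (v : Fin (n + 1) → R) (x : Fin n → R),
    ∑ σ : Equiv.Perm (Fin n), ((Equiv.Perm.sign σ : ℤˣ) : ℤ) •
      ((List.ofFn (fun i : Fin n => x (σ i) * v i.succ)).foldl (fun u v => u * v) (v 0)) = 0

/-- `R` is an image of a torsion free PI ring -/
def Im (R : Type) [NonUnitalRing R] : Prop :=
  ∃ (S : Type) (_ : NonUnitalRing S), PIid S ∧
    (∀ (k : ℕ) (s : S), k ≠ 0 → k • s = 0 → s = 0) ∧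
    ∃ φ : S →ₙ+* R, Function.Surjective φ

/-- the ring with unit adjoined -/
def Un (R : Type) [NonUnitalRing R] : Type := Unitization ℤ R

noncomputable instance (R : Type) [NonUnitalRing R] : Ring (Un R) :=
  inferInstanceAs (Ring (Unitization ℤ R))

/-- `R → Un R` -/
def inU (R : Type) [NonUnitalRing R] : R →ₙ+* Un R where
  toFun r := (Unitization.inr r : Unitization ℤ R)
  map_mul' a b := Unitization.inr_mul ℤ a b
  map_zero' := Unitization.inr_zero ℤ
  map_add' a b := Unitization.inr_add ℤ a b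

/-- `Un R → ℤ` -/
def fstU (R : Type) [NonUnitalRing R] : Un R →+* ℤ where
  toFun u := (show Unitization ℤ R from u).fst
  map_one' := Unitization.fst_one
  map_mul' a b := Unitization.fst_mul (show Unitization ℤ R from a) (show Unitization ℤ R from b)
  map_zero' := Unitization.fst_zero
  map_add' a b := Unitization.fst_add (show Unitization ℤ R from a) (show Unitization ℤ R from b)

/-- `R` inside `Un R` -/
def RU (R : Type) [NonUnitalRing R] : NonUnitalSubring (Un R) where
  carrier := {u | fstU R u = 0}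
  zero_mem' := map_zero _
  add_mem' := by
    intro a b ha hb
    have h1 : fstU R a = 0 := ha
    have h2 : fstU R b = 0 := hb
    change fstU R (a + b) = 0
    rw [map_add, h1, h2, add_zero]
  neg_mem' := by
    intro a ha
    have h1 : fstU R a = 0 := ha
    change fstU R (-a) = 0
    rw [map_neg, h1, neg_zero]
  mul_mem' := by
    intro a b ha _
    have h1 : fstU R a = 0 := ha
    change fstU R (a * b) = 0
    rw [map_mul, h1, zero_mul]

theorem mem_RU' (R : Type) [NonUnitalRing R] (u : Un R) : u ∈ RU R ↔ fstU R u = 0 := Iff.rfl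

theorem mem_RU (R : Type) [NonUnitalRing R] (u : Un R) : u ∈ RU R ↔ ∃ r, inU R r = u := by
  constructor
  · intro h
    have h1 : (show Unitization ℤ R from u).fst = 0 := h
    refine ⟨(show Unitization ℤ R from u).snd, ?_⟩
    refine Unitization.ext ?_ ?_
    · exact h1.symm
    · rfl
  · rintro ⟨r, rfl⟩
    exact Unitization.fst_inr ℤ r

theorem inU_injective (R : Type) [NonUnitalRing R] : Function.Injective (inU R) :=
  fun _ _ h => Unitization.inr_injective h

theorem aug_RU (R : Type) [NonUnitalRing R] : Aug (RU R) := by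
  refine ⟨?_, ?_, ?_⟩
  · intro u r hr
    rw [mem_RU'] at hr ⊢
    rw [map_mul, hr, mul_zero]
  · intro u r hr
    rw [mem_RU'] at hr ⊢
    rw [map_mul, hr, zero_mul]
  · intro u
    refine ⟨fstU R u, u - ((fstU R u : ℤ) : Un R), ?_, ?_⟩
    · rw [mem_RU', map_sub, map_intCast]
      simp
    · rw [add_sub_cancel]

/-- the canonical map from the free ring on `R` -/
noncomputable def canon (R : Type) [NonUnitalRing R] : FreeAlgebra ℤ R →+* Un R :=
  (FreeAlgebra.lift ℤ (fun r : R => inU R r) : FreeAlgebra ℤ R →ₐ[ℤ] Un R)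

theorem canon_ι (R : Type) [NonUnitalRing R] (r : R) :
    canon R (FreeAlgebra.ι ℤ r) = inU R r := by
  simp [canon]

/-- `(x_0 x_1 ⋯ x_d) ∈ R` as an element of `Un R` -/
theorem inr_foldl (R : Type) [NonUnitalRing R] (x : R) (l : List R) :
    inU R (l.foldl (fun u v => u * v) x) = inU R x * (l.map fun y => inU R y).prod := by
  induction l generalizing x with
  | nil => simp
  | cons y l ih =>
    rw [List.foldl_cons, ih (x * y), map_mul, List.map_cons, List.prod_cons, mul_assoc]

theorem inU_mono (R : Type) [NonUnitalRing R] (d : ℕ) (x : Fin (d + 1) → R)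
    (σ : Equiv.Perm (Fin (d + 1))) :
    inU R ((List.ofFn (fun i : Fin d => x (σ i.succ))).foldl (fun u v => u * v) (x (σ 0))) =
      mono (fun i => inU R (x i)) σ := by
  rw [inr_foldl, List.map_ofFn, mono, List.ofFn_succ, List.prod_cons]
  rfl

theorem inU_sum (R : Type) [NonUnitalRing R] (d : ℕ) (a : Equiv.Perm (Fin (d + 1)) → ℤ)
    (x : Fin (d + 1) → R) :
    inU R (∑ σ : Equiv.Perm (Fin (d + 1)),
        a σ • ((List.ofFn (fun i : Fin d => x (σ i.succ))).foldl
          (fun u v => u * v) (x (σ 0)))) =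
      ∑ σ, a σ • mono (fun i => inU R (x i)) σ := by
  rw [map_sum]
  refine Finset.sum_congr rfl fun σ _ => ?_
  rw [map_zsmul, inU_mono]

theorem inU_cap (R : Type) [NonUnitalRing R] (n : ℕ) (v : Fin (n + 1) → R) (x : Fin n → R)
    (σ : Equiv.Perm (Fin n)) :
    inU R ((List.ofFn (fun i : Fin n => x (σ i) * v i.succ)).foldl (fun u v => u * v) (v 0)) =
      capMono (fun i => inU R (v i)) (fun i => inU R (x i)) σ := by
  rw [inr_foldl, List.map_ofFn, capMono]
  congr 2
  refine congrArg List.ofFn ?_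
  funext i
  exact map_mul (inU R) _ _

/-- translation of the identity of `R` -/
theorem piid_iff (R : Type) [NonUnitalRing R] (d : ℕ) (a : Equiv.Perm (Fin (d + 1)) → ℤ) :
    (∀ x : Fin (d + 1) → R, ∑ σ : Equiv.Perm (Fin (d + 1)),
        a σ • ((List.ofFn (fun i : Fin d => x (σ i.succ))).foldl
          (fun u v => u * v) (x (σ 0))) = 0) ↔
      ∀ x : Fin (d + 1) → Un R, (∀ i, x i ∈ RU R) → ∑ σ, a σ • mono x σ = 0 := by
  constructor
  · intro h x hx
    have hx' : ∀ i, ∃ r, inU R r = x i := fun i => (mem_RU R _).1 (hx i)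
    choose y hy using hx'
    have h1 := congrArg (inU R) (h y)
    rw [inU_sum, map_zero] at h1
    have h2 : (fun i => inU R (y i)) = x := funext hy
    rw [h2] at h1
    exact h1
  · intro h x
    apply inU_injective R
    rw [inU_sum, map_zero]
    exact h _ fun i => (mem_RU R _).2 ⟨_, rfl⟩

theorem capN_iff (R : Type) [NonUnitalRing R] : CapN R ↔ ∃ n, CapIn (RU R) n := by
  unfold CapN
  refine exists_congr fun n => ?_
  have key : ∀ (v : Fin (n + 1) → R) (x : Fin n → R),
      inU R (∑ σ : Equiv.Perm (Fin n), ((Equiv.Perm.sign σ : ℤˣ) : ℤ) •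
      ((List.ofFn (fun i : Fin n => x (σ i) * v i.succ)).foldl (fun u v => u * v) (v 0))) =
      ∑ σ : Equiv.Perm (Fin n), ((Equiv.Perm.sign σ : ℤˣ) : ℤ) •
        capMono (fun i => inU R (v i)) (fun i => inU R (x i)) σ := by
    intro v x
    rw [map_sum]
    refine Finset.sum_congr rfl fun σ _ => ?_
    rw [map_zsmul, inU_cap]
  constructor
  · intro h v x hv hx
    have hv' : ∀ i, ∃ r, inU R r = v i := fun i => (mem_RU R _).1 (hv i)
    have hx' : ∀ i, ∃ r, inU R r = x i := fun i => (mem_RU R _).1 (hx i)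
    choose v' hv' using hv'
    choose x' hx' using hx'
    have h1 := congrArg (inU R) (h v' x')
    rw [key, map_zero] at h1
    have h2 : (fun i => inU R (v' i)) = v := funext hv'
    have h3 : (fun i => inU R (x' i)) = x := funext hx'
    rw [h2, h3] at h1
    exact h1
  · intro h v x
    apply inU_injective R
    rw [key, map_zero]
    exact h _ _ (fun i => (mem_RU R _).2 ⟨_, rfl⟩) (fun i => (mem_RU R _).2 ⟨_, rfl⟩)

/-- PROOF. `S` = the preimage of `R` under `F/I → Un R`, a nonunital subring of the torsion free PI ring `F/I`;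
it maps onto `R` because `canon` hits every `inr r`.  The identity of `F/I` with unit restricts to `S`
(`mono` = the `foldl` product). -/
theorem im_of_kills (R : Type) [NonUnitalRing R] (h : Kills (canon R)) : Im R := by
  obtain ⟨I, hI2, hpure, ⟨d, a, ha, hid⟩, hkill⟩ := h
  let q : (FreeAlgebra ℤ R ⧸ I) →+* Un R := Ideal.Quotient.lift I (canon R) hkill
  let S : NonUnitalSubring (FreeAlgebra ℤ R ⧸ I) :=
    NonUnitalSubring.comap (q : (FreeAlgebra ℤ R ⧸ I) →ₙ+* Un R) (RU R)
  have hS : ∀ s : S, q s.1 ∈ RU R := fun s => s.2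
  have hval : ∀ (x : S) (l : List S), ((l.foldl (fun u v => u * v) x : S) :
      FreeAlgebra ℤ R ⧸ I) = x.1 * (l.map fun y => y.1).prod := by
    intro x l
    induction l generalizing x with
    | nil => simp
    | cons y l ih =>
      rw [List.foldl_cons, ih (x * y), List.map_cons, List.prod_cons, ← mul_assoc]
      rfl
  refine ⟨S, inferInstance, ⟨d, a, ha, ?_⟩, ?_, ?_⟩
  · intro x
    have hx : ∀ i, ∃ g : FreeAlgebra ℤ R, Ideal.Quotient.mk I g = (x i).1 :=
      fun i => Ideal.Quotient.mk_surjective _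
    choose g hg using hx
    have h1 := (Ideal.Quotient.eq_zero_iff_mem).2 (hid g)
    rw [map_sum] at h1
    apply Subtype.ext
    have h2 : ((∑ σ : Equiv.Perm (Fin (d + 1)),
        a σ • ((List.ofFn (fun i : Fin d => x (σ i.succ))).foldl
          (fun u v => u * v) (x (σ 0))) : S) : FreeAlgebra ℤ R ⧸ I) =
        ∑ σ : Equiv.Perm (Fin (d + 1)), Ideal.Quotient.mk I (a σ • mono g σ) := by
      have h3 : ∀ s : S, (s : FreeAlgebra ℤ R ⧸ I) = S.subtype s := fun s => rfl
      rw [h3, map_sum]
      refine Finset.sum_congr rfl fun σ _ => ?_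
      rw [map_zsmul, map_zsmul, ← h3, hval, List.map_ofFn, mono, List.ofFn_succ, List.prod_cons,
        map_mul, hg, map_list_prod, List.map_ofFn]
      congr 3
      refine congrArg List.ofFn ?_
      funext i
      exact (hg _).symm
    rw [h2, h1]
    rfl
  · intro k s hk hks
    apply Subtype.ext
    obtain ⟨g, hg⟩ := Ideal.Quotient.mk_surjective (s : FreeAlgebra ℤ R ⧸ I)
    have h1 : (k : FreeAlgebra ℤ R ⧸ I) * s.1 = 0 := by
      have h2 := congrArg Subtype.val hks
      have h3 : ((k • s : S) : FreeAlgebra ℤ R ⧸ I) = k • s.1 := rfl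
      rw [h3, nsmul_eq_mul] at h2
      exact h2
    rw [← hg, ← map_natCast (Ideal.Quotient.mk I) k, ← map_mul,
      Ideal.Quotient.eq_zero_iff_mem] at h1
    rw [← hg]
    exact (Ideal.Quotient.eq_zero_iff_mem).2 (hpure k g hk h1)
  · have hex : ∀ s : S, ∃ r, inU R r = q s.1 := fun s => (mem_RU R _).1 (hS s)
    choose φ hφ using hex
    refine ⟨⟨⟨φ, ?_⟩, ?_, ?_⟩, ?_⟩
    · intro s t
      apply inU_injective R
      rw [map_mul, hφ, hφ, hφ]
      exact map_mul q s.1 t.1
    · apply inU_injective R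
      change inU R (φ 0) = inU R 0
      rw [hφ, map_zero]
      exact map_zero q
    · intro s t
      apply inU_injective R
      change inU R (φ (s + t)) = inU R (φ s + φ t)
      rw [map_add, hφ, hφ, hφ]
      exact map_add q s.1 t.1
    · intro r
      have hr : q (Ideal.Quotient.mk I (FreeAlgebra.ι ℤ r)) = inU R r := by
        rw [Ideal.Quotient.lift_mk, canon_ι]
      refine ⟨⟨Ideal.Quotient.mk I (FreeAlgebra.ι ℤ r), ?_⟩, ?_⟩
      · change q (Ideal.Quotient.mk I (FreeAlgebra.ι ℤ r)) ∈ RU R
        rw [hr]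
        exact (mem_RU R _).2 ⟨r, rfl⟩
      · apply inU_injective R
        exact (hφ _).trans hr

/-- functoriality of `Un` -/
def unMap {R Q : Type} [NonUnitalRing R] [NonUnitalRing Q] (f : R →ₙ+* Q) : Un R →+* Un Q where
  toFun u := (Unitization.inl (show Unitization ℤ R from u).fst +
    Unitization.inr (f (show Unitization ℤ R from u).snd) : Unitization ℤ Q)
  map_one' := by
    refine Unitization.ext ?_ ?_
    · change ((1 : Unitization ℤ R).fst : ℤ) + 0 = 1
      simp
    · change (0 : Q) + f (1 : Unitization ℤ R).snd = 0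
      simp
  map_zero' := by
    refine Unitization.ext ?_ ?_
    · change ((0 : Unitization ℤ R).fst : ℤ) + 0 = 0
      simp
    · change (0 : Q) + f (0 : Unitization ℤ R).snd = 0
      simp
  map_add' u v := by
    refine Unitization.ext ?_ ?_
    · change ((show Unitization ℤ R from u) + (show Unitization ℤ R from v)).fst + 0 =
        ((show Unitization ℤ R from u).fst + 0) + ((show Unitization ℤ R from v).fst + 0)
      rw [Unitization.fst_add]
      ring
    · change (0 : Q) + f ((show Unitization ℤ R from u) + (show Unitization ℤ R from v)).snd =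
        (0 + f (show Unitization ℤ R from u).snd) + (0 + f (show Unitization ℤ R from v).snd)
      rw [Unitization.snd_add, map_add, zero_add, zero_add, zero_add]
  map_mul' u v := by
    refine Unitization.ext ?_ ?_
    · change ((show Unitization ℤ R from u) * (show Unitization ℤ R from v)).fst + 0 =
        ((show Unitization ℤ R from u).fst + 0) * ((show Unitization ℤ R from v).fst + 0)
      rw [Unitization.fst_mul]
      ring
    · change (0 : Q) + f ((show Unitization ℤ R from u) * (show Unitization ℤ R from v)).snd =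
        ((show Unitization ℤ R from u).fst + 0) • (0 + f (show Unitization ℤ R from v).snd) +
        ((show Unitization ℤ R from v).fst + 0) • (0 + f (show Unitization ℤ R from u).snd) +
        (0 + f (show Unitization ℤ R from u).snd) * (0 + f (show Unitization ℤ R from v).snd)
      rw [Unitization.snd_mul, map_add, map_add, map_zsmul, map_zsmul, map_mul]
      simp only [zero_add, add_zero]

theorem unMap_inU {R Q : Type} [NonUnitalRing R] [NonUnitalRing Q] (f : R →ₙ+* Q) (r : R) :
    unMap f (inU R r) = inU Q (f r) := by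
  refine Unitization.ext ?_ ?_
  · change ((Unitization.inr r : Unitization ℤ R).fst : ℤ) + 0 = 0
    simp
  · change (0 : Q) + f (Unitization.inr r : Unitization ℤ R).snd = f r
    simp

/-- the kernel of `unMap f` is the kernel of `f` -/
theorem unMap_eq_zero {R Q : Type} [NonUnitalRing R] [NonUnitalRing Q] (f : R →ₙ+* Q) (u : Un R)
    (h : unMap f u = 0) : ∃ r, f r = 0 ∧ u = inU R r := by
  have h1 : (show Unitization ℤ R from u).fst + 0 = 0 :=
    congrArg (fun w : Unitization ℤ Q => w.fst) h
  have h2 : (0 : Q) + f (show Unitization ℤ R from u).snd = 0 :=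
    congrArg (fun w : Unitization ℤ Q => w.snd) h
  rw [add_zero] at h1
  rw [zero_add] at h2
  refine ⟨(show Unitization ℤ R from u).snd, h2, ?_⟩
  refine Unitization.ext ?_ ?_
  · exact h1
  · rfl

/-- products of finitely many pure PI ideals -/
theorem exists_prod_ideal (X : Type) (c : ℕ) : ∀ (I : Fin (c + 1) → Ideal (FreeAlgebra ℤ X)),
    (∀ i, (I i).IsTwoSided) → (∀ i, PureI (I i)) → (∀ i, MPI (I i)) →
    ∃ J : Ideal (FreeAlgebra ℤ X), J.IsTwoSided ∧ PureI J ∧ MPI J ∧
      ∀ g ∈ J, g ∈ AddSubgroup.closure {y : FreeAlgebra ℤ X | ∃ h : Fin (c + 1) → FreeAlgebra ℤ X,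
        (∀ i, h i ∈ I i) ∧ y = (List.ofFn h).prod} := by
  induction c with
  | zero =>
    intro I h2 hp hm
    refine ⟨I 0, h2 0, hp 0, hm 0, fun g hg => AddSubgroup.subset_closure ⟨fun _ => g, ?_, ?_⟩⟩
    · intro i
      rw [Fin.eq_zero i]
      exact hg
    · simp
  | succ c ih =>
    intro I h2 hp hm
    obtain ⟨J, hJ2, hJp, hJm, hJ⟩ := ih (fun i => I i.succ) (fun i => h2 _) (fun i => hp _)
      (fun i => hm _)
    have := h2 0
    have := hJ2
    refine ⟨I 0 * J, inferInstance, PureI_mul _ _ (hp 0) hJp, MPI_mul _ _ (hm 0) hJm, ?_⟩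
    intro g hg
    have hg' : g ∈ (I 0 : Ideal (FreeAlgebra ℤ X)) • (J : Submodule (FreeAlgebra ℤ X)
      (FreeAlgebra ℤ X)) := hg
    refine Submodule.smul_induction_on hg' ?_ ?_
    · intro r hr y hy
      have hy' := hJ y hy
      refine AddSubgroup.closure_induction (p := fun y _ => r • y ∈ AddSubgroup.closure
        {y : FreeAlgebra ℤ X | ∃ h : Fin (c + 1 + 1) → FreeAlgebra ℤ X,
        (∀ i, h i ∈ I i) ∧ y = (List.ofFn h).prod}) ?_ ?_ ?_ ?_ hy'
      · rintro z ⟨h, hh, rfl⟩
        refine AddSubgroup.subset_closure ⟨Fin.cons r h, ?_, ?_⟩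
        · intro i
          refine Fin.cases ?_ ?_ i
          · exact hr
          · intro j
            exact hh j
        · rw [List.ofFn_succ (f := (Fin.cons r h : Fin (c + 1 + 1) → FreeAlgebra ℤ X)),
            List.prod_cons]
          rfl
      · rw [smul_zero]
        exact AddSubgroup.zero_mem _
      · intro x y _ _ hx hy
        rw [smul_add]
        exact AddSubgroup.add_mem _ hx hy
      · intro x _ hx
        rw [smul_neg]
        exact AddSubgroup.neg_mem _ hx
    · intro x y hx hy
      exact AddSubgroup.add_mem _ hx hy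

/-- `Kills` for a finite family of homomorphisms with product of kernels zero: induction on the number of factors;
`I = I_0 ⋯ I_c`. -/
theorem kills_family (R : Type) [NonUnitalRing R] (c : ℕ) (Q : Fin (c + 1) → Type)
    [∀ i, NonUnitalRing (Q i)] (f : ∀ i, R →ₙ+* Q i)
    (hprod : ∀ a : Fin (c + 1) → R, (∀ i, f i (a i) = 0) →
      (List.ofFn fun i : Fin c => a i.succ).foldl (fun u v => u * v) (a 0) = 0)
    (h : ∀ i, Kills ((unMap (f i)).comp (canon R))) : Kills (canon R) := by
  choose I h2 hp hm hk using h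
  obtain ⟨J, hJ2, hJp, hJm, hJ⟩ := exists_prod_ideal R c I h2 hp hm
  refine ⟨J, hJ2, hJp, hJm, ?_⟩
  intro g hg
  have hcl : AddSubgroup.closure {y : FreeAlgebra ℤ R | ∃ h : Fin (c + 1) → FreeAlgebra ℤ R,
      (∀ i, h i ∈ I i) ∧ y = (List.ofFn h).prod} ≤ (canon R).toAddMonoidHom.ker := by
    rw [AddSubgroup.closure_le]
    rintro y ⟨h, hh, rfl⟩
    change canon R (List.ofFn h).prod = 0
    have h1 : ∀ i, ∃ r, f i r = 0 ∧ canon R (h i) = inU R r :=
      fun i => unMap_eq_zero (f i) _ (hk i _ (hh i))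
    choose a ha0 ha using h1
    rw [map_list_prod, List.map_ofFn, List.ofFn_succ, List.prod_cons]
    have h3 := inr_foldl R (a 0) (List.ofFn fun i : Fin c => a i.succ)
    rw [hprod a ha0, map_zero, List.map_ofFn] at h3
    rw [h3]
    congr 1
    · exact ha 0
    · congr 1
      refine congrArg List.ofFn ?_
      funext i
      exact ha _
  exact hcl (hJ g hg)

/-- THEOREM T1.  Let `R` be a PI ring with ideals `J_0, …, J_c`, `J_0 J_1 ⋯ J_c = 0`, such that every `R/J_i` is torsion
free, or of positive characteristic, or satisfies a Capelli identity.  Then `R` is an image of a torsion free PI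
ring. -/
theorem theoremT1 (R : Type) [NonUnitalRing R] (hPI : PIid R) (c : ℕ) (Q : Fin (c + 1) → Type)
    [∀ i, NonUnitalRing (Q i)] (f : ∀ i, R →ₙ+* Q i) (hf : ∀ i, Function.Surjective (f i))
    (hprod : ∀ a : Fin (c + 1) → R, (∀ i, f i (a i) = 0) →
      (List.ofFn fun i : Fin c => a i.succ).foldl (fun u v => u * v) (a 0) = 0)
    (hQ : ∀ i, (∀ (m : ℕ) (y : Q i), m ≠ 0 → m • y = 0 → y = 0) ∨
      (∃ N : ℕ, N ≠ 0 ∧ ∀ y : Q i, N • y = 0) ∨ CapN (Q i)) : Im R := by
  apply im_of_kills
  apply kills_family R c Q f hprod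
  intro i
  obtain ⟨d, a, ha, hid⟩ := hPI
  have hidU := (piid_iff R d a).1 hid
  have hidQ : ∀ x : Fin (d + 1) → Un (Q i), (∀ j, x j ∈ RU (Q i)) →
      ∑ σ, a σ • mono x σ = 0 := by
    intro y hy
    have h1 : ∀ j, ∃ r, inU (Q i) r = y j := fun j => (mem_RU (Q i) _).1 (hy j)
    choose r hr using h1
    have h2 : ∀ j, ∃ s, f i s = r j := fun j => hf i (r j)
    choose s hs using h2
    have h3 := congrArg (unMap (f i)) (hidU (fun j => inU R (s j))
      (fun j => (mem_RU R _).2 ⟨_, rfl⟩))
    rw [map_sum, map_zero] at h3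
    rw [← h3]
    refine Finset.sum_congr rfl fun σ _ => ?_
    rw [map_zsmul, mono, mono, map_list_prod, List.map_ofFn]
    refine congrArg (fun w => a σ • (List.ofFn w).prod) ?_
    funext j
    change y (σ j) = unMap (f i) (inU R (s (σ j)))
    rw [unMap_inU, hs, hr]
  rcases hQ i with htf | ⟨N, hN, hchar⟩ | hcap
  · refine kills_of_tf (RU (Q i)) (aug_RU (Q i)) _ ?_ d a ha hidQ
    intro m u hm hu
    have h1 : fstU (Q i) u = 0 := by
      have h2 := congrArg (fstU (Q i)) hu
      rw [map_mul, map_natCast, map_zero] at h2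
      rcases mul_eq_zero.1 h2 with h3 | h3
      · exact absurd (by exact_mod_cast h3) hm
      · exact h3
    obtain ⟨r, rfl⟩ := (mem_RU (Q i) u).1 h1
    rw [← nsmul_eq_mul, ← map_nsmul] at hu
    have h4 : m • r = 0 := inU_injective (Q i) (hu.trans (map_zero _).symm)
    rw [htf m r hm h4, map_zero]
  · refine kills_of_char N (Nat.one_le_iff_ne_zero.2 hN) (RU (Q i)) (aug_RU (Q i)) _ d a ha hidQ ?_
    intro u hu
    obtain ⟨r, rfl⟩ := (mem_RU (Q i) u).1 hu
    rw [← nsmul_eq_mul, ← map_nsmul, hchar, map_zero]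
  · obtain ⟨n, hn⟩ := (capN_iff (Q i)).1 hcap
    exact kills_of_capIn (RU (Q i)) (aug_RU (Q i)) _ n hn

end Pool.PI34.T1
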