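import Pool.Agent.LibPI34.T2_Defs

/-! PI34, theorem T2, file A: the values `fv y v r`, the ideal of values, quotients. -/

set_option autoImplicit false

namespace Pool.PI34.T2

open Equiv Finset
open Pool.PI34.C0 Pool.PI34.T1
open Pool.PI34.Super (act bc fv KN mm plL ext ext_apply ext_apply' plL_of fv_zsmul)

variable {U V : Type} [Ring U] [Ring V] {n : ℕ}

theorem fv_def (y : MonoidAlgebra ℤ (Perm (Fin n))) (v : Fin (n + 1) → U) (r : Fin n → U) :
    fv y v r = ∑ σ, (y.coeff σ : ℤ) • capMono v r σ := by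
  unfold fv
  refine Finset.sum_congr rfl fun σ _ => ?_
  rfl

theorem fv_add (y z : MonoidAlgebra ℤ (Perm (Fin n))) (v : Fin (n + 1) → U) (r : Fin n → U) :
    fv (y + z) v r = fv y v r + fv z v r := by
  rw [fv_def, fv_def, fv_def, ← Finset.sum_add_distrib]
  refine Finset.sum_congr rfl fun σ _ => ?_
  rw [MonoidAlgebra.coeff_add, Finsupp.add_apply, add_smul]

theorem fv_zero (v : Fin (n + 1) → U) (r : Fin n → U) :
    fv (0 : MonoidAlgebra ℤ (Perm (Fin n))) v r = 0 := by
  rw [fv_def]
  refine Finset.sum_eq_zero fun σ _ => ?_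
  rw [MonoidAlgebra.coeff_zero, Finsupp.zero_apply, zero_smul]

theorem fv_of (σ : Perm (Fin n)) (v : Fin (n + 1) → U) (r : Fin n → U) :
    fv (MonoidAlgebra.of ℤ _ σ) v r = capMono v r σ := by
  rw [fv_def, Finset.sum_eq_single σ]
  · rw [MonoidAlgebra.of_apply, MonoidAlgebra.coeff_single, Finsupp.single_eq_same, one_smul]
  · intro b _ hb
    rw [MonoidAlgebra.of_apply, MonoidAlgebra.coeff_single, Finsupp.single_eq_of_ne hb, zero_smul]
  · intro h; exact absurd (Finset.mem_univ _) h

/-- the values as an additive map in `y` -/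
noncomputable def fvH (v : Fin (n + 1) → U) (r : Fin n → U) :
    MonoidAlgebra ℤ (Perm (Fin n)) →+ U where
  toFun y := fv y v r
  map_zero' := fv_zero v r
  map_add' y z := fv_add y z v r

theorem fvH_apply (y : MonoidAlgebra ℤ (Perm (Fin n))) (v : Fin (n + 1) → U) (r : Fin n → U) :
    fvH v r y = fv y v r := rfl

theorem fv_of_mul (σ : Perm (Fin n)) (y : MonoidAlgebra ℤ (Perm (Fin n)))
    (v : Fin (n + 1) → U) (r : Fin n → U) :
    fv (MonoidAlgebra.of ℤ _ σ * y) v r = fv y v (r ∘ σ) := by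
  induction y using MonoidAlgebra.induction_on with
  | of τ =>
    rw [← map_mul, fv_of, fv_of]
    rfl
  | add x y hx hy => rw [mul_add, fv_add, fv_add, hx, hy]
  | smul c x hx => rw [mul_smul_comm, fv_zsmul, fv_zsmul, hx]

theorem map_fvA (f : U →+* V) (y : MonoidAlgebra ℤ (Perm (Fin n)))
    (v : Fin (n + 1) → U) (r : Fin n → U) :
    f (fv y v r) = fv y (fun i => f (v i)) (fun i => f (r i)) := by
  induction y using MonoidAlgebra.induction_on with
  | of τ =>
    rw [fv_of, fv_of]
    unfold capMono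
    rw [map_mul, map_list_prod, List.map_ofFn]
    congr 2
    congr 1
    funext i
    rw [Function.comp_apply, map_mul]
  | add x y hx hy => rw [fv_add, fv_add, map_add, hx, hy]
  | smul c x hx => rw [fv_zsmul, fv_zsmul, map_zsmul, hx]

theorem fv_left (c : U) (y : MonoidAlgebra ℤ (Perm (Fin n))) (v : Fin (n + 1) → U)
    (r : Fin n → U) : fv y (Function.update v 0 (c * v 0)) r = c * fv y v r := by
  rw [fv_def, fv_def, Finset.mul_sum]
  refine Finset.sum_congr rfl fun σ _ => ?_
  rw [capMono_left, mul_smul_comm]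

theorem fv_right (c : U) (y : MonoidAlgebra ℤ (Perm (Fin n))) (v : Fin (n + 1) → U)
    (r : Fin n → U) :
    fv y (Function.update v (Fin.last n) (v (Fin.last n) * c)) r = fv y v r * c := by
  rw [fv_def, fv_def, Finset.sum_mul]
  refine Finset.sum_congr rfl fun σ _ => ?_
  rw [capMono_right, smul_mul_assoc]

/-! ### surjective images -/

theorem KN_of_surj {N k l : ℕ} (f : U →+* V) (hf : Function.Surjective f) (h : KN N k l n U) :
    KN N k l n V := by
  intro y hy v r
  choose v' hv' using fun i => hf (v i)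
  choose r' hr' using fun i => hf (r i)
  have h1 := congrArg f (h y hy v' r')
  rw [map_nsmul, map_fvA, map_zero] at h1
  have e1 : (fun i => f (v' i)) = v := funext hv'
  have e2 : (fun i => f (r' i)) = r := funext hr'
  rw [e1, e2] at h1
  exact h1

theorem Typ_of_surj {k l q : ℕ} (f : U →+* V) (hf : Function.Surjective f) (h : Typ k l q U) :
    Typ k l q V := fun n hn => KN_of_surj f hf (h n hn)

theorem QTyp_of_surj {k l q : ℕ} (f : U →+* V) (hf : Function.Surjective f)
    (h : QTyp k l q U) : QTyp k l q V := by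
  obtain ⟨N, hN, h⟩ := h
  exact ⟨N, hN, fun n hn => KN_of_surj f hf (h n hn)⟩

theorem Typ_mono {k l q q' : ℕ} (hq : q' ≤ q) (h : Typ k l q U) : Typ k l q' U :=
  fun n hn => h n (hn.trans hq)

theorem QTyp_mono {k l q q' : ℕ} (hq : q' ≤ q) (h : QTyp k l q U) : QTyp k l q' U := by
  obtain ⟨N, hN, h⟩ := h
  exact ⟨N, hN, fun n hn => h n (hn.trans hq)⟩

theorem QTyp_of_Typ {k l q : ℕ} (h : Typ k l q U) : QTyp k l q U := ⟨1, one_pos, h⟩

theorem Inv_of_hom {S : Set ℕ} (f : U →+* V) (h : Inv S U) : Inv S V := by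
  intro s hs
  have h1 := (h s hs).map f
  rwa [map_natCast] at h1

theorem PIU_of_surj (f : U →+* V) (hf : Function.Surjective f) (h : PIU U) : PIU V := by
  obtain ⟨d, a, ha, h⟩ := h
  refine ⟨d, a, ha, fun x => ?_⟩
  choose x' hx' using fun i => hf (x i)
  have h1 := congrArg f (h x')
  rw [map_sum, map_zero] at h1
  rw [← h1]
  refine Finset.sum_congr rfl fun σ _ => ?_
  rw [map_zsmul, G_mono_map]
  have e : (fun i => f (x' i)) = x := funext hx'
  rw [e]

/-! ### the ideal of values -/

/-- the group generated by the values of a family of elements -/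
def valG (U : Type) [Ring U] (Y : (n : ℕ) → Set (MonoidAlgebra ℤ (Perm (Fin n)))) :
    AddSubgroup U :=
  AddSubgroup.closure {x : U | ∃ (n : ℕ) (y : MonoidAlgebra ℤ (Perm (Fin n)))
    (v : Fin (n + 1) → U) (r : Fin n → U), y ∈ Y n ∧ x = fv y v r}

/-- the ideal generated by the values of a family of elements -/
def valI (U : Type) [Ring U] (Y : (n : ℕ) → Set (MonoidAlgebra ℤ (Perm (Fin n)))) : Ideal U where
  carrier := (valG U Y : Set U)
  zero_mem' := AddSubgroup.zero_mem (valG U Y)
  add_mem' ha hb := AddSubgroup.add_mem (valG U Y) ha hb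
  smul_mem' := by
    intro c x hx
    change c * x ∈ valG U Y
    change x ∈ valG U Y at hx
    unfold valG at hx ⊢
    induction hx using AddSubgroup.closure_induction with
    | mem x hx =>
      obtain ⟨n, y, v, r, hy, rfl⟩ := hx
      exact AddSubgroup.subset_closure ⟨n, y, _, r, hy, (fv_left c y v r).symm⟩
    | zero => rw [mul_zero]; exact AddSubgroup.zero_mem _
    | add a b _ _ ha hb => rw [mul_add]; exact AddSubgroup.add_mem _ ha hb
    | neg a _ ha => rw [mul_neg]; exact AddSubgroup.neg_mem _ ha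

variable (Y : (n : ℕ) → Set (MonoidAlgebra ℤ (Perm (Fin n))))

theorem mem_valI {u : U} : u ∈ valI U Y ↔ u ∈ AddSubgroup.closure {x : U | ∃ (n : ℕ)
    (y : MonoidAlgebra ℤ (Perm (Fin n))) (v : Fin (n + 1) → U) (r : Fin n → U),
      y ∈ Y n ∧ x = fv y v r} := by
  change u ∈ valG U Y ↔ _
  unfold valG
  exact Iff.rfl

theorem fv_mem_valI {y : MonoidAlgebra ℤ (Perm (Fin n))} (hy : y ∈ Y n) (v : Fin (n + 1) → U)
    (r : Fin n → U) : fv y v r ∈ valI U Y :=
  (mem_valI Y).2 (AddSubgroup.subset_closure ⟨n, y, v, r, hy, rfl⟩)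

instance valI_twoSided : (valI U Y).IsTwoSided := by
  refine ⟨fun {x} c hx => ?_⟩
  rw [mem_valI] at hx ⊢
  induction hx using AddSubgroup.closure_induction with
  | mem x hx =>
    obtain ⟨n, y, v, r, hy, rfl⟩ := hx
    exact AddSubgroup.subset_closure ⟨n, y, _, r, hy, (fv_right c y v r).symm⟩
  | zero => rw [zero_mul]; exact AddSubgroup.zero_mem _
  | add a b _ _ ha hb => rw [add_mul]; exact AddSubgroup.add_mem _ ha hb
  | neg a _ ha => rw [neg_mul]; exact AddSubgroup.neg_mem _ ha

/-- the values vanish in the quotient -/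
theorem fv_quot {y : MonoidAlgebra ℤ (Perm (Fin n))} (hy : y ∈ Y n)
    (v : Fin (n + 1) → U ⧸ valI U Y) (r : Fin n → U ⧸ valI U Y) : fv y v r = 0 := by
  choose v' hv' using fun i => Ideal.Quotient.mk_surjective (I := valI U Y) (v i)
  choose r' hr' using fun i => Ideal.Quotient.mk_surjective (I := valI U Y) (r i)
  have h1 : Ideal.Quotient.mk (valI U Y) (fv y v' r') = 0 :=
    Ideal.Quotient.eq_zero_iff_mem.2 (fv_mem_valI Y hy v' r')
  rw [map_fvA] at h1
  have e1 : (fun i => Ideal.Quotient.mk (valI U Y) (v' i)) = v := funext hv'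
  have e2 : (fun i => Ideal.Quotient.mk (valI U Y) (r' i)) = r := funext hr'
  rw [e1, e2] at h1
  exact h1

/-- the left annihilator of an ideal -/
def lann (J : Ideal U) : Ideal U where
  carrier := {u | ∀ x ∈ J, u * x = 0}
  zero_mem' := fun x _ => zero_mul x
  add_mem' := fun {a b} ha hb x hx => by rw [add_mul, ha x hx, hb x hx, add_zero]
  smul_mem' := fun c a ha x hx => by rw [smul_eq_mul, mul_assoc, ha x hx, mul_zero]

theorem mem_lann {J : Ideal U} {u : U} : u ∈ lann J ↔ ∀ x ∈ J, u * x = 0 := Iff.rfl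

instance lann_twoSided (J : Ideal U) : (lann J).IsTwoSided := by
  refine ⟨fun {a} c ha => ?_⟩
  intro x hx
  rw [mul_assoc]
  exact ha _ (J.mul_mem_left c hx)

/-- the elements which annihilate all the values annihilate the ideal of values -/
theorem mem_lann_valI {u : U} (h : ∀ (n : ℕ) (y : MonoidAlgebra ℤ (Perm (Fin n))), y ∈ Y n →
    ∀ (v : Fin (n + 1) → U) (r : Fin n → U), u * fv y v r = 0) : u ∈ lann (valI U Y) := by
  intro x hx
  rw [mem_valI] at hx
  induction hx using AddSubgroup.closure_induction with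
  | mem x hx =>
    obtain ⟨n, y, v, r, hy, rfl⟩ := hx
    exact h n y hy v r
  | zero => rw [mul_zero]
  | add a b _ _ ha hb => rw [mul_add, ha, hb, add_zero]
  | neg a _ ha => rw [mul_neg, ha, neg_zero]

end Pool.PI34.T2
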