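import Pool.Agent.LibPI34.T2_A
import Pool.Agent.LibPI34.T1_C

/-! PI34, theorem T2, file B: values of placed elements. -/

set_option autoImplicit false

namespace Pool.PI34.T2

open Equiv Finset
open Pool.PI34.C0 Pool.PI34.T1
open Pool.PI34.Super (act bc fv KN mm plL ext ext_apply ext_apply' plL_of plL_smul fv_zsmul)

variable {U : Type} [Ring U] {d N : ℕ}

/-- the letters outside the range of `φ` are absorbed in the coefficients -/
theorem cap_place (φ : Fin d ↪o Fin N) (τ : Perm (Fin N)) (v : Fin (N + 1) → U)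
    (r : Fin N → U) : ∃ (π : Perm (Fin d)) (v' : Fin (d + 1) → U), ∀ ρ : Perm (Fin d),
      capMono v r (ext φ ρ * τ) = capMono v' (r ∘ φ) (ρ * π) := by
  classical
  obtain ⟨k', p, w0, w, hp, hpS, hz⟩ := exists_split N (v 0) (fun i => v i.succ)
    (univ.filter fun i : Fin N => τ i ∈ Set.range φ) (fun i => r (τ i))
  have hpT : ∀ j, ∃ a, φ a = τ (p j) := by
    intro j
    have h1 := (hpS (p j)).2 ⟨j, rfl⟩
    simpa using h1
  choose π hπ using hpT
  have hbij : Function.Bijective π := by
    constructor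
    · intro a b hab
      apply hp
      apply τ.injective
      rw [← hπ a, ← hπ b, hab]
    · intro x
      have h1 : τ.symm (φ x) ∈ univ.filter fun i : Fin N => τ i ∈ Set.range φ := by
        simp
      obtain ⟨j, hj⟩ := (hpS _).1 h1
      refine ⟨j, φ.injective ?_⟩
      rw [hπ, hj, Equiv.apply_symm_apply]
  have hk : k' = d := by
    have h1 := Fintype.card_congr (Equiv.ofBijective π hbij)
    rwa [Fintype.card_fin, Fintype.card_fin] at h1
  subst hk
  refine ⟨Equiv.ofBijective π hbij, Fin.cons w0 w, fun ρ => ?_⟩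
  unfold capMono
  rw [hz (fun i => r ((ext φ ρ * τ) i))]
  · simp only [Fin.cons_zero, Fin.cons_succ]
    congr 2
    congr 1
    funext j
    rw [Perm.mul_apply, ← hπ j, ext_apply]
    rfl
  · intro i hi
    have hi' : τ i ∉ Set.range φ := by simpa using hi
    change r ((ext φ ρ * τ) i) = _
    rw [Perm.mul_apply, ext_apply' φ ρ (τ i) hi']

theorem fv_place (φ : Fin d ↪o Fin N) (τ : Perm (Fin N)) (v : Fin (N + 1) → U)
    (r : Fin N → U) : ∃ (π : Perm (Fin d)) (v' : Fin (d + 1) → U),
      ∀ y : MonoidAlgebra ℤ (Perm (Fin d)), fv (plL ℤ φ y * MonoidAlgebra.of ℤ _ τ) v r =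
        fv (y * MonoidAlgebra.of ℤ _ π) v' (r ∘ φ) := by
  obtain ⟨π, v', h⟩ := cap_place φ τ v r
  refine ⟨π, v', fun y => ?_⟩
  induction y using MonoidAlgebra.induction_on with
  | of ρ => rw [plL_of, ← map_mul, ← map_mul, fv_of, fv_of, h]
  | add x y hx hy => rw [map_add, add_mul, add_mul, fv_add, fv_add, hx, hy]
  | smul c x hx =>
    rw [plL_smul, smul_mul_assoc, smul_mul_assoc, fv_zsmul, fv_zsmul, hx]

/-- if the values of all the `y0 * τ` vanish then the values of the two-sided ideal generated by a placed `y0` vanish -/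
theorem place (y0 : MonoidAlgebra ℤ (Perm (Fin d)))
    (h : ∀ (τ : Perm (Fin d)) (v : Fin (d + 1) → U) (r : Fin d → U),
      fv (y0 * MonoidAlgebra.of ℤ _ τ) v r = 0) (φ : Fin d ↪o Fin N)
    (a b : MonoidAlgebra ℤ (Perm (Fin N))) (v : Fin (N + 1) → U) (r : Fin N → U) :
    fv (a * plL ℤ φ y0 * b) v r = 0 := by
  have h1 : ∀ (τ : Perm (Fin N)) (v : Fin (N + 1) → U) (r : Fin N → U),
      fv (plL ℤ φ y0 * MonoidAlgebra.of ℤ _ τ) v r = 0 := by
    intro τ v r
    obtain ⟨π, v', h2⟩ := fv_place φ τ v r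
    rw [h2]
    exact h _ _ _
  have h2 : ∀ (b : MonoidAlgebra ℤ (Perm (Fin N))) (v : Fin (N + 1) → U) (r : Fin N → U),
      fv (plL ℤ φ y0 * b) v r = 0 := by
    intro b v r
    induction b using MonoidAlgebra.induction_on with
    | of τ => exact h1 τ v r
    | add x y hx hy => rw [mul_add, fv_add, hx, hy, add_zero]
    | smul c x hx => rw [mul_smul_comm, fv_zsmul, hx, smul_zero]
  induction a using MonoidAlgebra.induction_on with
  | of σ => rw [mul_assoc, fv_of_mul]; exact h2 b _ _
  | add x y hx hy => rw [add_mul, add_mul, fv_add, hx, hy, add_zero]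
  | smul c x hx => rw [smul_mul_assoc, smul_mul_assoc, fv_zsmul, hx, smul_zero]

end Pool.PI34.T2
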