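import Pool.Agent.LibPI34.T2_A
import Pool.Agent.LibPI34.Rg3

/-! PI34, theorem T2, file C: products of values, blocks. -/

set_option autoImplicit false

namespace Pool.PI34.T2

open Equiv Finset
open Pool.PI34.C0 Pool.PI34.T1
open Pool.PI34.Super (act bc fv KN mm plL pl pl_of pl_trans ext ext_apply ext_apply' plL_of plL_smul fv_zsmul
  phL phR phR_notMem phL_notMem Blk DisjB prodB Conv mj_plL conv_phL conv_phR)

variable {U : Type} [Ring U] {p q : ℕ}

theorem bc_plL {d N : ℕ} (φ : Fin d ↪o Fin N) (y : MonoidAlgebra ℤ (Perm (Fin d))) :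
    bc (plL ℤ φ y) = pl φ (bc y) := mj_plL (Int.castRingHom ℚ) φ y

theorem blk_left (σ : Perm (Fin p)) (τ : Perm (Fin q)) (i : Fin p) :
    (ext (phL p q) σ * ext (phR p q) τ) (Fin.castAdd q i) = Fin.castAdd q (σ i) := by
  rw [Perm.mul_apply, ext_apply' (phR p q) τ (Fin.castAdd q i) (phR_notMem i)]
  exact ext_apply (phL p q) σ i

theorem blk_right (σ : Perm (Fin p)) (τ : Perm (Fin q)) (i : Fin q) :
    (ext (phL p q) σ * ext (phR p q) τ) (Fin.natAdd p i) = Fin.natAdd p (τ i) := by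
  have h1 : ext (phR p q) τ (Fin.natAdd p i) = Fin.natAdd p (τ i) := ext_apply (phR p q) τ i
  rw [Perm.mul_apply, h1]
  exact ext_apply' (phL p q) σ _ (phL_notMem (τ i))

theorem capMono_append (v1 : Fin (p + 1) → U) (r1 : Fin p → U) (v2 : Fin (q + 1) → U)
    (r2 : Fin q → U) (h : v2 0 = 1) (σ : Perm (Fin p)) (τ : Perm (Fin q)) :
    capMono v1 r1 σ * capMono v2 r2 τ =
      capMono (Fin.cons (v1 0) (Fin.append (fun i => v1 i.succ) (fun i => v2 i.succ)))
        (Fin.append r1 r2) (ext (phL p q) σ * ext (phR p q) τ) := by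
  unfold capMono
  rw [h, one_mul, Fin.cons_zero, mul_assoc, List.ofFn_add, List.prod_append]
  congr 3
  · congr 1
    funext i
    have h1 := blk_left σ τ i
    have h2 : (Fin.castLE (Nat.le_add_right p q) i) = Fin.castAdd q i := rfl
    simp only [Fin.cons_succ]
    rw [h2, h1, Fin.append_left, Fin.append_left]
  · congr 1
    funext i
    simp only [Fin.cons_succ]
    rw [blk_right, Fin.append_right, Fin.append_right]

theorem fv_append (y1 : MonoidAlgebra ℤ (Perm (Fin p))) (v1 : Fin (p + 1) → U) (r1 : Fin p → U)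
    (y2 : MonoidAlgebra ℤ (Perm (Fin q))) (v2 : Fin (q + 1) → U) (r2 : Fin q → U)
    (h : v2 0 = 1) :
    fv y1 v1 r1 * fv y2 v2 r2 = fv (plL ℤ (phL p q) y1 * plL ℤ (phR p q) y2)
      (Fin.cons (v1 0) (Fin.append (fun i => v1 i.succ) (fun i => v2 i.succ)))
        (Fin.append r1 r2) := by
  induction y1 using MonoidAlgebra.induction_on with
  | of σ =>
    induction y2 using MonoidAlgebra.induction_on with
    | of τ => rw [plL_of, plL_of, ← map_mul, fv_of, fv_of, fv_of, capMono_append v1 r1 v2 r2 h]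
    | add x y hx hy => rw [map_add, mul_add, fv_add, fv_add, mul_add, hx, hy]
    | smul c x hx =>
      rw [plL_smul, mul_smul_comm, fv_zsmul, fv_zsmul, mul_smul_comm, hx]
  | add x y hx hy => rw [map_add, add_mul, fv_add, fv_add, add_mul, hx, hy]
  | smul c x hx =>
    rw [plL_smul, smul_mul_assoc, fv_zsmul, fv_zsmul, smul_mul_assoc, hx]

theorem fv_mul (y1 : MonoidAlgebra ℤ (Perm (Fin p))) (v1 : Fin (p + 1) → U) (r1 : Fin p → U)
    (y2 : MonoidAlgebra ℤ (Perm (Fin q))) (v2 : Fin (q + 1) → U) (r2 : Fin q → U) :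
    ∃ (v : Fin (p + q + 1) → U) (r : Fin (p + q) → U),
      fv y1 v1 r1 * fv y2 v2 r2 = fv (plL ℤ (phL p q) y1 * plL ℤ (phR p q) y2) v r := by
  have h0 : fv y2 v2 r2 = v2 0 * fv y2 (Function.update v2 0 1) r2 := by
    rw [← fv_left, Function.update_self, mul_one, Function.update_idem, Function.update_eq_self]
  rw [h0, ← mul_assoc, ← fv_right]
  exact ⟨_, _, fv_append y1 _ r1 y2 _ r2 (Function.update_self _ _ _)⟩

/-! ### blocks -/

/-- a block shifted to the right -/
def shB (p : ℕ) (B : Blk (Fin q)) : Blk (Fin (p + q)) where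
  sz := B.sz
  φ := B.φ.trans (phR p q)
  conv := by
    intro x hx
    by_cases h : x ∈ Set.range (phR p q)
    · obtain ⟨z, rfl⟩ := h
      have hz : z ∉ Set.range B.φ := by
        rintro ⟨a, rfl⟩
        exact hx ⟨a, rfl⟩
      rcases B.conv z hz with h1 | h1
      · left
        intro a
        exact (phR p q).lt_iff_lt.2 (h1 a)
      · right
        intro a
        exact (phR p q).lt_iff_lt.2 (h1 a)
    · left
      intro a
      have h1 : ∀ b, x < phR p q b ∨ ¬ (x < phR p q b) := fun b => em _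
      rcases h1 (B.φ a) with h2 | h2
      · exact h2
      · exfalso
        apply h
        have h3 : p ≤ x.val := by
          have h4 : (phR p q (B.φ a)).val = p + (B.φ a).val := rfl
          have h5 : (phR p q (B.φ a)).val ≤ x.val := not_lt.1 h2
          omega
        refine ⟨⟨x.val - p, by omega⟩, Fin.ext ?_⟩
        change p + (x.val - p) = x.val
        omega
  y := B.y

theorem prodB_shB (L : List (Blk (Fin q))) :
    prodB (L.map (shB p)) = pl (phR p q) (prodB L) := by
  unfold prodB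
  rw [map_list_prod, List.map_map, List.map_map]
  congr 2
  funext B
  simp only [Function.comp_apply]
  rw [pl_trans]
  rfl

theorem prodB_append (L L' : List (Blk (Fin q))) : prodB (L ++ L') = prodB L * prodB L' := by
  unfold prodB
  rw [List.map_append, List.prod_append]

theorem pairwise_shB (L : List (Blk (Fin q))) (h : L.Pairwise DisjB) :
    (L.map (shB p)).Pairwise DisjB := by
  rw [List.pairwise_map]
  refine h.imp ?_
  intro B B' hB a b h1
  exact hB a b ((phR p q).injective h1)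

/-- the first block -/
noncomputable def firstB (p q : ℕ) (y : MonoidAlgebra ℤ (Perm (Fin p))) : Blk (Fin (p + q)) where
  sz := p
  φ := phL p q
  conv := conv_phL
  y := bc y

theorem disj_first (y : MonoidAlgebra ℤ (Perm (Fin p))) (B : Blk (Fin q)) :
    DisjB (firstB p q y) (shB p B) := by
  intro a b h
  exact phR_notMem (n := p) (m := q) a ⟨B.φ b, h.symm⟩

/-- `c` blocks of `K(k|l+1)` and `c'` blocks of `K(k+1|l)` -/
def Good (k l c c' N : ℕ) (z : MonoidAlgebra ℤ (Perm (Fin N))) : Prop :=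
  ∃ L L' : List (Blk (Fin N)), bc z = prodB (L ++ L') ∧ (L ++ L').Pairwise DisjB ∧
    L.length = c ∧ L'.length = c' ∧ (∀ B ∈ L, act k (l + 1) _ B.y = 0) ∧
    (∀ B ∈ L', act (k + 1) l _ B.y = 0)

theorem good_one (k l N : ℕ) : Good k l 0 0 N 1 :=
  ⟨[], [], by rw [map_one]; rfl, List.Pairwise.nil, rfl, rfl, fun _ h => absurd h (by simp),
    fun _ h => absurd h (by simp)⟩

theorem good_consR {k l c' : ℕ} {y : MonoidAlgebra ℤ (Perm (Fin p))}
    (hy : act (k + 1) l _ (bc y) = 0) {z : MonoidAlgebra ℤ (Perm (Fin q))}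
    (h : Good k l 0 c' q z) :
    Good k l 0 (c' + 1) (p + q) (plL ℤ (phL p q) y * plL ℤ (phR p q) z) := by
  obtain ⟨L, L', h1, h2, h3, h4, h5, h6⟩ := h
  have hL : L = [] := List.length_eq_zero_iff.1 h3
  subst hL
  rw [List.nil_append] at h1 h2
  refine ⟨[], firstB p q y :: L'.map (shB p), ?_, ?_, rfl, ?_, fun _ h => absurd h (by simp), ?_⟩
  · rw [map_mul, bc_plL, bc_plL, h1, ← prodB_shB, List.nil_append]
    rfl
  · rw [List.nil_append, List.pairwise_cons]
    refine ⟨?_, pairwise_shB L' h2⟩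
    intro B hB
    obtain ⟨B', _, rfl⟩ := List.mem_map.1 hB
    exact disj_first y B'
  · rw [List.length_cons, List.length_map, h4]
  · intro B hB
    rcases List.mem_cons.1 hB with rfl | hB
    · exact hy
    · obtain ⟨B', hB', rfl⟩ := List.mem_map.1 hB
      exact h6 B' hB'

theorem good_consL {k l c c' : ℕ} {y : MonoidAlgebra ℤ (Perm (Fin p))}
    (hy : act k (l + 1) _ (bc y) = 0) {z : MonoidAlgebra ℤ (Perm (Fin q))}
    (h : Good k l c c' q z) :
    Good k l (c + 1) c' (p + q) (plL ℤ (phL p q) y * plL ℤ (phR p q) z) := by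
  obtain ⟨L, L', h1, h2, h3, h4, h5, h6⟩ := h
  refine ⟨firstB p q y :: L.map (shB p), L'.map (shB p), ?_, ?_, ?_, ?_, ?_, ?_⟩
  · rw [map_mul, bc_plL, bc_plL, h1, ← prodB_shB, List.map_append]
    rfl
  · rw [List.cons_append, ← List.map_append, List.pairwise_cons]
    refine ⟨?_, pairwise_shB _ h2⟩
    intro B hB
    obtain ⟨B', _, rfl⟩ := List.mem_map.1 hB
    exact disj_first y B'
  · rw [List.length_cons, List.length_map, h3]
  · rw [List.length_map, h4]
  · intro B hB
    rcases List.mem_cons.1 hB with rfl | hB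
    · exact hy
    · obtain ⟨B', hB', rfl⟩ := List.mem_map.1 hB
      exact h5 B' hB'
  · intro B hB
    obtain ⟨B', hB', rfl⟩ := List.mem_map.1 hB
    exact h6 B' hB'

/-- the group of the values of the products of blocks -/
def PG (U : Type) [Ring U] (k l m q' c c' : ℕ) : AddSubgroup U :=
  AddSubgroup.closure {x : U | ∃ (N : ℕ) (z : MonoidAlgebra ℤ (Perm (Fin N)))
    (v : Fin (N + 1) → U) (r : Fin N → U), m ≤ N ∧ N ≤ m + (c + c') * q' ∧
      Good k l c c' N z ∧ x = fv z v r}

theorem one_mem_PG (k l m q' : ℕ) : (1 : U) ∈ PG U k l m q' 0 0 := by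
  refine AddSubgroup.subset_closure ⟨m, 1, fun _ => 1, fun _ => 1, le_rfl, by simp,
    good_one k l m, ?_⟩
  have h1 : (1 : MonoidAlgebra ℤ (Perm (Fin m))) = MonoidAlgebra.of ℤ _ 1 := (map_one _).symm
  rw [h1, fv_of]
  unfold capMono
  simp

/-- `K(k|l)_n`, `n ≤ q'` -/
def YK (k l q' : ℕ) (n : ℕ) : Set (MonoidAlgebra ℤ (Perm (Fin n))) :=
  {y | n ≤ q' ∧ act k l _ (bc y) = 0}

theorem closure_mul_mem {A B : Set U} {C : AddSubgroup U}
    (h : ∀ a ∈ A, ∀ b ∈ B, a * b ∈ C) {a b : U} (ha : a ∈ AddSubgroup.closure A)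
    (hb : b ∈ AddSubgroup.closure B) : a * b ∈ C := by
  induction ha using AddSubgroup.closure_induction with
  | mem a ha =>
    induction hb using AddSubgroup.closure_induction with
    | mem b hb => exact h a ha b hb
    | zero => rw [mul_zero]; exact C.zero_mem
    | add x y _ _ hx hy => rw [mul_add]; exact C.add_mem hx hy
    | neg x _ hx => rw [mul_neg]; exact C.neg_mem hx
  | zero => rw [zero_mul]; exact C.zero_mem
  | add x y _ _ hx hy => rw [add_mul]; exact C.add_mem hx hy
  | neg x _ hx => rw [neg_mul]; exact C.neg_mem hx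

theorem mul_PG_R {k l m q' c' : ℕ} {a b : U} (ha : a ∈ valI U (YK (k + 1) l q'))
    (hb : b ∈ PG U k l m q' 0 c') : a * b ∈ PG U k l m q' 0 (c' + 1) := by
  rw [mem_valI] at ha
  refine closure_mul_mem ?_ ha hb
  rintro _ ⟨n, y, v, r, ⟨hn, hy⟩, rfl⟩ _ ⟨N, z, v', r', h1, h2, h3, rfl⟩
  obtain ⟨v'', r'', h4⟩ := fv_mul y v r z v' r'
  rw [h4]
  refine AddSubgroup.subset_closure ⟨n + N, _, v'', r'', by omega, ?_, good_consR hy h3, rfl⟩
  have : (0 + (c' + 1)) * q' = (0 + c') * q' + q' := by ring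
  omega

theorem mul_PG_L {k l m q' c c' : ℕ} {a b : U} (ha : a ∈ valI U (YK k (l + 1) q'))
    (hb : b ∈ PG U k l m q' c c') : a * b ∈ PG U k l m q' (c + 1) c' := by
  rw [mem_valI] at ha
  refine closure_mul_mem ?_ ha hb
  rintro _ ⟨n, y, v, r, ⟨hn, hy⟩, rfl⟩ _ ⟨N, z, v', r', h1, h2, h3, rfl⟩
  obtain ⟨v'', r'', h4⟩ := fv_mul y v r z v' r'
  rw [h4]
  refine AddSubgroup.subset_closure ⟨n + N, _, v'', r'', by omega, ?_, good_consL hy h3, rfl⟩
  have : (c + 1 + c') * q' = (c + c') * q' + q' := by ring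
  omega

end Pool.PI34.T2
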