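import Pool.Agent.LibPI34.T2_B
import Pool.Agent.LibPI34.T2_C

/-! PI34, theorem T2, file D: clearing denominators. -/

set_option autoImplicit false

namespace Pool.PI34.T2

open Equiv Finset
open Pool.PI34.C0 Pool.PI34.T1
open Pool.PI34.Super (act bc fv KN mm plL pl fv_zsmul JJ bc_inj bc_smul exists_int IZ IZZ IZ_int
  Blk DisjB prodB RL_gen_blocks)

variable {U : Type} [Ring U] {m N : ℕ}

/-- one element -/
theorem clear_one {k l : ℕ} (φ : Fin m ↪o Fin N) (y0 : MonoidAlgebra ℤ (Perm (Fin m)))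
    (z : MonoidAlgebra ℤ (Perm (Fin N))) (hz : bc z ∈ JJ k l (pl φ (bc y0))) :
    ∃ D : ℕ, 0 < D ∧ ∃ x' u' : MonoidAlgebra ℤ (Perm (Fin N)), act k l _ (bc x') = 0 ∧
      u' ∈ IZZ (plL ℤ φ y0) ∧ (D : ℤ) • z = x' + u' := by
  unfold JJ at hz
  obtain ⟨x, hx, u, hu, hxu⟩ := Submodule.mem_sup.1 hz
  have hx0 : act k l _ x = 0 := hx
  obtain ⟨D1, hD1, x', hx'⟩ := exists_int x
  have hu' : u ∈ IZ (pl φ (bc y0)) := hu
  obtain ⟨E, hE, u', hu1, hu2⟩ := IZ_int (Z' := plL ℤ φ y0) (D := 1) one_pos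
    (by rw [bc_plL, Nat.cast_one, one_smul]) hu'
  refine ⟨D1 * E, Nat.mul_pos hD1 hE, (E : ℤ) • x', (D1 : ℤ) • u', ?_,
    AddSubgroup.zsmul_mem _ hu1 _, ?_⟩
  · rw [bc_smul, map_smul, hx', map_smul, hx0, smul_zero, smul_zero]
  · apply bc_inj
    rw [bc_smul, map_add, bc_smul, bc_smul, hx', hu2, ← hxu, smul_smul, smul_smul, smul_add]
    push_cast
    rw [mul_comm (E : ℚ) D1]

theorem fv_IZZ (φ : Fin m ↪o Fin N) (y0 : MonoidAlgebra ℤ (Perm (Fin m)))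
    (h : ∀ (τ : Perm (Fin m)) (v : Fin (m + 1) → U) (r : Fin m → U),
      fv (y0 * MonoidAlgebra.of ℤ _ τ) v r = 0) (u : MonoidAlgebra ℤ (Perm (Fin N)))
    (hu : u ∈ IZZ (plL ℤ φ y0)) (v : Fin (N + 1) → U) (r : Fin N → U) : fv u v r = 0 := by
  unfold IZZ at hu
  induction hu using AddSubgroup.closure_induction with
  | mem x hx =>
    obtain ⟨a, b, rfl⟩ := hx
    exact place y0 h φ a b v r
  | zero => exact fv_zero v r
  | add x y _ _ hx hy => rw [fv_add, hx, hy, add_zero]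
  | neg x _ hx =>
    have h1 : -x = (-1 : ℤ) • x := by rw [neg_smul, one_smul]
    rw [h1, fv_zsmul, hx, smul_zero]

/-- the integral elements of the ideal, as a submodule -/
noncomputable def JZ (k l : ℕ) (φ : Fin m ↪o Fin N) (y0 : MonoidAlgebra ℤ (Perm (Fin m))) :
    Submodule ℤ (MonoidAlgebra ℤ (Perm (Fin N))) where
  carrier := {z | bc z ∈ JJ k l (pl φ (bc y0))}
  zero_mem' := by
    change bc 0 ∈ JJ k l (pl φ (bc y0))
    rw [map_zero]; exact Submodule.zero_mem _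
  add_mem' := by
    intro a b ha hb
    change bc (a + b) ∈ JJ k l (pl φ (bc y0))
    rw [map_add]; exact Submodule.add_mem _ ha hb
  smul_mem' := by
    intro c a ha
    change bc (c • a) ∈ JJ k l (pl φ (bc y0))
    rw [bc_smul]; exact Submodule.smul_mem _ _ ha

instance : Module.Finite ℤ (MonoidAlgebra ℤ (Perm (Fin N))) := inferInstance

/-- a uniform denominator -/
theorem clear_all (k l : ℕ) (φ : Fin m ↪o Fin N) (y0 : MonoidAlgebra ℤ (Perm (Fin m))) :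
    ∃ D : ℕ, 0 < D ∧ ∀ (U : Type) [Ring U], KN 1 k l N U →
      (∀ (τ : Perm (Fin m)) (v : Fin (m + 1) → U) (r : Fin m → U),
        fv (y0 * MonoidAlgebra.of ℤ _ τ) v r = 0) →
      ∀ z, bc z ∈ JJ k l (pl φ (bc y0)) → ∀ (v : Fin (N + 1) → U) (r : Fin N → U),
        D • fv z v r = 0 := by
  obtain ⟨s, hs⟩ := (IsNoetherian.noetherian (JZ k l φ y0))
  have hs1 : ∀ z : s, bc z.1 ∈ JJ k l (pl φ (bc y0)) := by
    intro z
    have h1 : z.1 ∈ JZ k l φ y0 := by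
      rw [← hs]
      exact Submodule.subset_span z.2
    exact h1
  choose D hD x' u' hx' hu' hxu using fun z : s => clear_one φ y0 z.1 (hs1 z)
  refine ⟨∏ z : s, D z, Finset.prod_pos (fun z _ => hD z), ?_⟩
  intro U _ hT h0 z hz v r
  have hz' : z ∈ JZ k l φ y0 := hz
  rw [← hs] at hz'
  clear hz
  induction hz' using Submodule.span_induction with
  | mem z hz =>
    have h1 : (D ⟨z, hz⟩ : ℤ) • fv z v r = 0 := by
      rw [← fv_zsmul, hxu ⟨z, hz⟩, fv_add, fv_IZZ φ y0 h0 _ (hu' ⟨z, hz⟩), add_zero]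
      have h2 := hT _ (hx' ⟨z, hz⟩) v r
      rwa [one_smul] at h2
    obtain ⟨E, hE⟩ := Finset.dvd_prod_of_mem D (Finset.mem_univ (⟨z, hz⟩ : s))
    rw [hE, mul_comm, mul_smul]
    have h3 : D ⟨z, hz⟩ • fv z v r = 0 := by
      rw [← h1, natCast_zsmul]
    rw [h3, smul_zero]
  | zero => rw [fv_zero, smul_zero]
  | add a b _ _ ha hb => rw [fv_add, smul_add, ha, hb, add_zero]
  | smul c a _ ha => rw [fv_zsmul, smul_comm, ha, smul_zero]

/-- uniform in the degree -/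
theorem clear_le (k l : ℕ) (y0 : MonoidAlgebra ℤ (Perm (Fin m))) (Q : ℕ) :
    ∃ D : ℕ, 0 < D ∧ ∀ (N : ℕ), m ≤ N → N ≤ Q → ∃ φ : Fin m ↪o Fin N,
      ∀ (U : Type) [Ring U], Typ k l Q U →
      (∀ (τ : Perm (Fin m)) (v : Fin (m + 1) → U) (r : Fin m → U),
        fv (y0 * MonoidAlgebra.of ℤ _ τ) v r = 0) →
      ∀ z, bc z ∈ JJ k l (pl φ (bc y0)) → ∀ (v : Fin (N + 1) → U) (r : Fin N → U),
        D • fv z v r = 0 := by
  have key : ∀ N : ℕ, ∃ D : ℕ, 0 < D ∧ (m ≤ N → N ≤ Q → ∃ φ : Fin m ↪o Fin N,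
      ∀ (U : Type) [Ring U], Typ k l Q U →
      (∀ (τ : Perm (Fin m)) (v : Fin (m + 1) → U) (r : Fin m → U),
        fv (y0 * MonoidAlgebra.of ℤ _ τ) v r = 0) →
      ∀ z, bc z ∈ JJ k l (pl φ (bc y0)) → ∀ (v : Fin (N + 1) → U) (r : Fin N → U),
        D • fv z v r = 0) := by
    intro N
    by_cases hN : m ≤ N
    · obtain ⟨D, hD, h⟩ := clear_all k l (Fin.castLEOrderEmb hN) y0
      exact ⟨D, hD, fun _ hQ => ⟨Fin.castLEOrderEmb hN, fun U _ hT h0 => h U (hT N hQ) h0⟩⟩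
    · exact ⟨1, one_pos, fun h => absurd h hN⟩
  choose D hD h using key
  refine ⟨∏ N ∈ range (Q + 1), D N, Finset.prod_pos (fun N _ => hD N), fun N h1 h2 => ?_⟩
  obtain ⟨φ, hφ⟩ := h N h1 h2
  refine ⟨φ, fun U _ hT h0 z hz v r => ?_⟩
  obtain ⟨E, hE⟩ := Finset.dvd_prod_of_mem D (Finset.mem_range.2 (by omega : N < Q + 1))
  rw [hE, mul_comm, mul_smul, hφ U hT h0 z hz v r, smul_zero]

/-- the products of blocks are killed by an integer -/
theorem clear_blocks (k l : ℕ) (y0 : MonoidAlgebra ℤ (Perm (Fin m)))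
    (hy0 : act (k + 1) (l + 1) _ (bc y0) ≠ 0) (q' : ℕ) :
    ∃ D Q : ℕ, 0 < D ∧ ∀ (U : Type) [Ring U], Typ (k + 1) (l + 1) Q U →
      (∀ (τ : Perm (Fin m)) (v : Fin (m + 1) → U) (r : Fin m → U),
        fv (y0 * MonoidAlgebra.of ℤ _ τ) v r = 0) →
      ∀ u ∈ PG U k l m q' (l + 1 + m) (k + 1 + m), D • u = 0 := by
  obtain ⟨D, hD, h⟩ := clear_le (k + 1) (l + 1) y0 (m + ((l + 1 + m) + (k + 1 + m)) * q')
  refine ⟨D, m + ((l + 1 + m) + (k + 1 + m)) * q', hD, fun U _ hT h0 u hu => ?_⟩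
  unfold PG at hu
  induction hu using AddSubgroup.closure_induction with
  | mem x hx =>
    obtain ⟨N, z, v, r, h1, h2, ⟨L, L', g1, g2, g3, g4, g5, g6⟩, rfl⟩ := hx
    obtain ⟨φ, hφ⟩ := h N h1 h2
    refine hφ U hT h0 z ?_ v r
    rw [g1]
    exact RL_gen_blocks φ hy0 L L' g2 g3.ge g4.ge g5 g6
  | zero => rw [smul_zero]
  | add a b _ _ ha hb => rw [smul_add, ha, hb, add_zero]
  | neg a _ ha => rw [smul_neg, ha, neg_zero]

end Pool.PI34.T2
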