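import Pool.Agent.LibPI34.T1_H
import Pool.Agent.LibPI34.Q1

/-!
PI34, theorem T2: definitions (helper34's design: engines, types up to an integer factor).
-/

set_option autoImplicit false

namespace Pool.PI34.T2

open Equiv Finset
open Pool.PI34.C0 Pool.PI34.T1
open Pool.PI34.Super (act bc fv KN mm)

/-- the integers of `S` are invertible in `U` -/
def Inv (S : Set ℕ) (U : Type) [Ring U] : Prop := ∀ s ∈ S, IsUnit ((s : ℕ) : U)

/-- a multilinear identity with coefficient one -/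
def PIU (U : Type) [Ring U] : Prop :=
  ∃ (d : ℕ) (a : Perm (Fin (d + 1)) → ℤ), a 1 = 1 ∧
    ∀ x : Fin (d + 1) → U, ∑ σ, a σ • mono x σ = 0

/-- type `(k|l)` up to degree `q` -/
def Typ (k l q : ℕ) (U : Type) [Ring U] : Prop := ∀ n ≤ q, KN 1 k l n U

/-- type `(k|l)` up to degree `q` and up to an integer factor -/
def QTyp (k l q : ℕ) (U : Type) [Ring U] : Prop := ∃ N : ℕ, 0 < N ∧ ∀ n ≤ q, KN N k l n U

/-- the engine for the rings in which the integers of `S` are invertible: a pure PI ideal which annihilates the values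
of an element `y0` not in `K(k|l)` -/
def Engine (S : Set ℕ) (k l : ℕ) : Prop :=
  ∃ (I : (X : Type) → Ideal (FreeAlgebra ℤ X)) (q m : ℕ) (y0 : MonoidAlgebra ℤ (Perm (Fin m))),
    (∀ X, (I X).IsTwoSided ∧ PureI (I X) ∧ MPI (I X)) ∧ act k l _ (bc y0) ≠ 0 ∧
    ∀ (U : Type) [Ring U], Inv S U → Typ k l q U →
      ∀ (X : Type) (π : FreeAlgebra ℤ X →+* U) (g : FreeAlgebra ℤ X), g ∈ I X →
      ∀ (τ : Perm (Fin m)) (v : Fin (m + 1) → U) (r : Fin m → U),
        π g * fv (y0 * MonoidAlgebra.of ℤ _ τ) v r = 0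

/-- the claim of the induction -/
def Claim (S : Set ℕ) (k l : ℕ) : Prop :=
  ∃ q : ℕ, ∀ (U : Type) [Ring U], Inv S U → PIU U → QTyp k l q U →
    ∀ (X : Type) (π : FreeAlgebra ℤ X →+* U), Kills π

end Pool.PI34.T2
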