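import Pool.Agent.LibPI34.T2_E0
import Pool.Agent.LibPI34.T2_D

/-! PI34, theorem T2, file E: THE INDUCTION. -/

set_option autoImplicit false

namespace Pool.PI34.T2

open Equiv Finset
open Pool.PI34.C0 Pool.PI34.T1
open Pool.PI34.Super (act bc fv KN)

variable {U : Type} [Ring U] {X : Type}

/-! ### the ideals `Ann N` and `N U` -/

/-- the annihilator of the integer `N` -/
def annN (U : Type) [Ring U] (N : ℕ) : Ideal U where
  carrier := {u | (N : U) * u = 0}
  zero_mem' := mul_zero _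
  add_mem' {a b} ha hb := by
    change (N : U) * (a + b) = 0
    have h1 : (N : U) * a = 0 := ha
    have h2 : (N : U) * b = 0 := hb
    rw [mul_add, h1, h2, add_zero]
  smul_mem' c a ha := by
    change (N : U) * (c * a) = 0
    have h1 : (N : U) * a = 0 := ha
    rw [← mul_assoc, (Nat.cast_commute N c).eq, mul_assoc, h1, mul_zero]

theorem mem_annN {N : ℕ} {u : U} : u ∈ annN U N ↔ (N : U) * u = 0 := Iff.rfl

instance (N : ℕ) : (annN U N).IsTwoSided := by
  refine ⟨fun {a} b ha => ?_⟩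
  rw [mem_annN] at ha ⊢
  rw [← mul_assoc, ha, zero_mul]

/-- the ideal `N U` -/
def mulN (U : Type) [Ring U] (N : ℕ) : Ideal U where
  carrier := {u | ∃ w : U, u = (N : U) * w}
  zero_mem' := ⟨0, by rw [mul_zero]⟩
  add_mem' {a b} ha hb := by
    obtain ⟨x, rfl⟩ := ha
    obtain ⟨y, rfl⟩ := hb
    exact ⟨x + y, by rw [mul_add]⟩
  smul_mem' c a ha := by
    obtain ⟨x, rfl⟩ := ha
    exact ⟨c * x, by rw [smul_eq_mul, ← mul_assoc, ← (Nat.cast_commute N c).eq, mul_assoc]⟩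

theorem mem_mulN {N : ℕ} {u : U} : u ∈ mulN U N ↔ ∃ w : U, u = (N : U) * w := Iff.rfl

instance (N : ℕ) : (mulN U N).IsTwoSided := by
  refine ⟨fun {a} b ha => ?_⟩
  obtain ⟨x, rfl⟩ := ha
  exact ⟨x * b, by rw [mul_assoc]⟩

/-- unital PI rings of positive characteristic -/
theorem kills_charU (N : ℕ) (hN : 0 < N) (h : (N : U) = 0) (hPI : PIU U)
    (π : FreeAlgebra ℤ X →+* U) : Kills π := by
  obtain ⟨d, a, ha, hx⟩ := hPI
  have hA : Aug (⊤ : NonUnitalSubring U) := by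
    refine ⟨fun _ _ _ => NonUnitalSubring.mem_top _, fun _ _ _ => NonUnitalSubring.mem_top _,
      fun u => ⟨0, u, NonUnitalSubring.mem_top _, ?_⟩⟩
    rw [Int.cast_zero, zero_add]
  exact kills_of_char N hN ⊤ hA π d a ha (fun x _ => hx x) (fun r _ => by rw [h, zero_mul])

/-- THE ANNIHILATOR TRICK. -/
theorem claim_of_Typ (S : Set ℕ) (k l q : ℕ) (h : ∀ (U : Type) [Ring U], Inv S U → PIU U →
    Typ k l q U → ∀ (X : Type) (π : FreeAlgebra ℤ X →+* U), Kills π) : Claim S k l := by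
  refine ⟨q, fun U _ hI hPI hQ X π => ?_⟩
  obtain ⟨N, hN, hQ⟩ := hQ
  refine kills_of_mul π (Ideal.Quotient.mk (annN U N)) (Ideal.Quotient.mk (mulN U N)) ?_ ?_ ?_
  · intro a b ha hb
    rw [Ideal.Quotient.eq_zero_iff_mem] at ha hb
    rw [mem_annN] at ha
    obtain ⟨w, rfl⟩ := hb
    rw [← mul_assoc, ← (Nat.cast_commute N a).eq, ha, zero_mul]
  · refine h _ (Inv_of_hom (Ideal.Quotient.mk (annN U N)) hI)
      (PIU_of_surj _ Ideal.Quotient.mk_surjective hPI) ?_ X _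
    intro n hn y hy v r
    rw [one_smul]
    choose v' hv' using fun i => Ideal.Quotient.mk_surjective (I := annN U N) (v i)
    choose r' hr' using fun i => Ideal.Quotient.mk_surjective (I := annN U N) (r i)
    have h1 : Ideal.Quotient.mk (annN U N) (fv y v' r') = 0 := by
      rw [Ideal.Quotient.eq_zero_iff_mem, mem_annN, ← nsmul_eq_mul]
      exact hQ n hn y hy v' r'
    rw [map_fvA] at h1
    have e1 : (fun i => Ideal.Quotient.mk (annN U N) (v' i)) = v := funext hv'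
    have e2 : (fun i => Ideal.Quotient.mk (annN U N) (r' i)) = r := funext hr'
    rw [e1, e2] at h1
    exact h1
  · refine kills_charU N hN ?_ (PIU_of_surj (Ideal.Quotient.mk (mulN U N))
      Ideal.Quotient.mk_surjective hPI) _
    have h1 : Ideal.Quotient.mk (mulN U N) (N : U) = 0 := by
      rw [Ideal.Quotient.eq_zero_iff_mem]
      exact ⟨1, by rw [mul_one]⟩
    rw [map_natCast] at h1
    exact h1

/-! ### ideals mapped into a subgroup -/

/-- a pure PI ideal is mapped into the group `A` -/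
def KIn (π : FreeAlgebra ℤ X →+* U) (A : AddSubgroup U) : Prop :=
  ∃ J : Ideal (FreeAlgebra ℤ X), J.IsTwoSided ∧ PureI J ∧ MPI J ∧ ∀ g ∈ J, π g ∈ A

theorem KIn.mul {π : FreeAlgebra ℤ X →+* U} {A B C : AddSubgroup U} (hA : KIn π A)
    (hB : KIn π B) (h : ∀ a ∈ A, ∀ b ∈ B, a * b ∈ C) : KIn π C := by
  obtain ⟨I, hI, pI, mI, kI⟩ := hA
  obtain ⟨J, hJ, pJ, mJ, kJ⟩ := hB
  refine ⟨I * J, inferInstance, PureI_mul I J pI pJ, MPI_mul I J mI mJ, fun g hg => ?_⟩
  refine Submodule.smul_induction_on (p := fun g => π g ∈ C) hg ?_ ?_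
  · intro a ha b hb
    rw [smul_eq_mul, map_mul]
    exact h _ (kI a ha) _ (kJ b hb)
  · intro a b ha hb
    rw [map_add]
    exact C.add_mem ha hb

theorem KIn_of_all {π : FreeAlgebra ℤ X →+* U} {A : AddSubgroup U} (h : ∀ u, u ∈ A) :
    KIn π A :=
  ⟨⊤, inferInstance, fun _ _ _ _ => Submodule.mem_top, ⟨0, fun _ => 1, rfl,
    fun _ => Submodule.mem_top⟩, fun _ _ => h _⟩

theorem KIn_of_quot {π : FreeAlgebra ℤ X →+* U} (J : Ideal U) [J.IsTwoSided]
    (h : Kills ((Ideal.Quotient.mk J).comp π)) : KIn π J.toAddSubgroup := by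
  obtain ⟨I, hI, pI, mI, kI⟩ := h
  refine ⟨I, hI, pI, mI, fun g hg => ?_⟩
  have h1 := kI g hg
  rw [RingHom.comp_apply, Ideal.Quotient.eq_zero_iff_mem] at h1
  exact h1

theorem all_mem_PG (k l m q' : ℕ) (u : U) : u ∈ PG U k l m q' 0 0 := by
  refine AddSubgroup.subset_closure ⟨m, 1, Function.update (fun _ => 1) 0 (u * 1), fun _ => 1,
    le_rfl, by simp, good_one k l m, ?_⟩
  have h1 : (1 : MonoidAlgebra ℤ (Perm (Fin m))) = MonoidAlgebra.of ℤ _ 1 := (map_one _).symm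
  have h2 := fv_left u (1 : MonoidAlgebra ℤ (Perm (Fin m))) (fun _ : Fin (m + 1) => (1 : U))
    (fun _ => 1)
  rw [h2, h1, fv_of]
  unfold capMono
  simp

/-- the values of `K(k|l)` in the quotient by the ideal of values -/
theorem QTyp_quot (k l q' : ℕ) : QTyp k l q' (U ⧸ valI U (YK k l q')) := by
  refine ⟨1, one_pos, fun n hn y hy v r => ?_⟩
  rw [one_smul]
  exact fv_quot (YK k l q') ⟨hn, hy⟩ v r

theorem KIn_val (S : Set ℕ) {k l q' : ℕ} (hI : Inv S U) (hPI : PIU U)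
    (hC : ∀ (U : Type) [Ring U], Inv S U → PIU U → QTyp k l q' U →
      ∀ (X : Type) (π : FreeAlgebra ℤ X →+* U), Kills π) (π : FreeAlgebra ℤ X →+* U) :
    KIn π (valI U (YK k l q')).toAddSubgroup :=
  KIn_of_quot _ (hC _ (Inv_of_hom (Ideal.Quotient.mk _) hI)
    (PIU_of_surj (Ideal.Quotient.mk _) Ideal.Quotient.mk_surjective hPI) (QTyp_quot k l q') X _)

theorem KIn_PG {k l m q' : ℕ} (π : FreeAlgebra ℤ X →+* U)
    (h1 : KIn π (valI U (YK k (l + 1) q')).toAddSubgroup)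
    (h2 : KIn π (valI U (YK (k + 1) l q')).toAddSubgroup) (c c' : ℕ) :
    KIn π (PG U k l m q' c c') := by
  have h3 : ∀ c', KIn π (PG U k l m q' 0 c') := by
    intro c'
    induction c' with
    | zero => exact KIn_of_all (all_mem_PG k l m q')
    | succ c' ih => exact h2.mul ih fun a ha b hb => mul_PG_R ha hb
  induction c with
  | zero => exact h3 c'
  | succ c ih => exact h1.mul ih fun a ha b hb => mul_PG_L ha hb

/-! ### the induction step -/

theorem step (S : Set ℕ) (k l : ℕ) (hE : Engine S (k + 1) (l + 1)) (h1 : Claim S k (l + 1))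
    (h2 : Claim S (k + 1) l) : Claim S (k + 1) (l + 1) := by
  obtain ⟨q1, h1⟩ := h1
  obtain ⟨q2, h2⟩ := h2
  obtain ⟨I, qE, m, y0, hI, hy0, hE⟩ := hE
  have h1' : ∀ (U : Type) [Ring U], Inv S U → PIU U → QTyp k (l + 1) (max q1 q2) U →
      ∀ (X : Type) (π : FreeAlgebra ℤ X →+* U), Kills π :=
    fun U _ a b c => h1 U a b (QTyp_mono (le_max_left _ _) c)
  have h2' : ∀ (U : Type) [Ring U], Inv S U → PIU U → QTyp (k + 1) l (max q1 q2) U →
      ∀ (X : Type) (π : FreeAlgebra ℤ X →+* U), Kills π :=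
    fun U _ a b c => h2 U a b (QTyp_mono (le_max_right _ _) c)
  obtain ⟨D, Q, hD, hcl⟩ := clear_blocks k l y0 hy0 (max q1 q2)
  refine claim_of_Typ S (k + 1) (l + 1) (max qE Q) ?_
  intro U _ hInv hPI hT X π
  -- the values of `y0`
  let Y : (n : ℕ) → Set (MonoidAlgebra ℤ (Perm (Fin n))) := fun n =>
    {y | ∃ τ : Perm (Fin m), (⟨n, y⟩ : Σ n : ℕ, MonoidAlgebra ℤ (Perm (Fin n))) =
      ⟨m, y0 * MonoidAlgebra.of ℤ _ τ⟩}
  have hY : ∀ τ, y0 * MonoidAlgebra.of ℤ _ τ ∈ Y m := fun τ => ⟨τ, rfl⟩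
  refine kills_of_mul π (Ideal.Quotient.mk (lann (valI U Y))) (Ideal.Quotient.mk (valI U Y))
    ?_ ?_ ?_
  · intro a b ha hb
    rw [Ideal.Quotient.eq_zero_iff_mem] at ha hb
    exact ha b hb
  · obtain ⟨t, p, mp⟩ := hI X
    refine ⟨I X, t, p, mp, fun g hg => ?_⟩
    rw [RingHom.comp_apply, Ideal.Quotient.eq_zero_iff_mem]
    refine mem_lann_valI Y ?_
    rintro n y ⟨τ, hτ⟩ v r
    obtain ⟨rfl, h3⟩ := Sigma.mk.inj hτ
    rw [eq_of_heq h3]
    exact hE U hInv (Typ_mono (le_max_left _ _) hT) X π g hg τ v r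
  · -- the quotient by the values of `y0`
    have hs : Function.Surjective (Ideal.Quotient.mk (valI U Y)) := Ideal.Quotient.mk_surjective
    generalize hπ : (Ideal.Quotient.mk (valI U Y)).comp π = π₁
    have hInv₁ : Inv S (U ⧸ valI U Y) := Inv_of_hom (Ideal.Quotient.mk _) hInv
    have hPI₁ : PIU (U ⧸ valI U Y) := PIU_of_surj _ hs hPI
    have hT₁ : Typ (k + 1) (l + 1) Q (U ⧸ valI U Y) :=
      Typ_of_surj _ hs (Typ_mono (le_max_right _ _) hT)
    have h0 : ∀ (τ : Perm (Fin m)) (v : Fin (m + 1) → U ⧸ valI U Y) (r : Fin m → U ⧸ valI U Y),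
        fv (y0 * MonoidAlgebra.of ℤ _ τ) v r = 0 := fun τ v r => fv_quot Y (hY τ) v r
    have hk := KIn_PG (m := m) π₁ (KIn_val S hInv₁ hPI₁ h1' π₁) (KIn_val S hInv₁ hPI₁ h2' π₁)
      (l + 1 + m) (k + 1 + m)
    have hd : KIn π₁ (mulN (U ⧸ valI U Y) D).toAddSubgroup := by
      apply KIn_of_quot
      refine kills_charU D hD ?_ (PIU_of_surj (Ideal.Quotient.mk _)
        Ideal.Quotient.mk_surjective hPI₁) _
      have h3 : Ideal.Quotient.mk (mulN (U ⧸ valI U Y) D) (D : U ⧸ valI U Y) = 0 := by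
        rw [Ideal.Quotient.eq_zero_iff_mem]
        exact ⟨1, by rw [mul_one]⟩
      rw [map_natCast] at h3
      exact h3
    have hfin : KIn π₁ (⊥ : AddSubgroup (U ⧸ valI U Y)) := by
      refine hd.mul hk ?_
      intro a ha b hb
      obtain ⟨w, rfl⟩ := ha
      have h3 := hcl _ hT₁ h0 b hb
      rw [AddSubgroup.mem_bot, (Nat.cast_commute D w).eq, mul_assoc, ← nsmul_eq_mul, h3,
        mul_zero]
    obtain ⟨J, hJ, pJ, mJ, kJ⟩ := hfin
    exact ⟨J, hJ, pJ, mJ, fun g hg => by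
      have := kJ g hg
      rwa [AddSubgroup.mem_bot] at this⟩

/-- THE INDUCTION. -/
theorem claim_of_engine (S : Set ℕ) (k : ℕ) : ∀ l : ℕ,
    (∀ k' l', 0 < k' → k' ≤ k → 0 < l' → l' ≤ l → Engine S k' l') → Claim S k l := by
  induction k with
  | zero =>
    intro l _
    refine claim_of_Typ S 0 l (l + 1) ?_
    intro U _ _ hPI hT X π
    exact kills_charU _ (Nat.factorial_pos (l + 1)) (char_of_Typ le_rfl hT) hPI π
  | succ k ihk =>
    intro l
    induction l with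
    | zero =>
      intro _
      refine claim_of_Typ S (k + 1) 0 (k + 1 + 1) ?_
      intro U _ _ _ hT X π
      exact kills_of_cap π (k + 1 + 1) (cap_of_Typ le_rfl hT)
    | succ l ihl =>
      intro hE
      refine step S k l (hE _ _ (Nat.succ_pos k) le_rfl (Nat.succ_pos l) le_rfl) ?_ ?_
      · exact ihk (l + 1) fun k' l' a b c d => hE k' l' a (Nat.le_succ_of_le b) c d
      · exact ihl fun k' l' a b c d => hE k' l' a b c (Nat.le_succ_of_le d)

end Pool.PI34.T2
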