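import Pool.Agent.LibPI34.T2_A
import Pool.Agent.LibPI34.Super3

/-! PI34, theorem T2, file E0: the types `(0|l)` and `(k|0)`. -/

set_option autoImplicit false

namespace Pool.PI34.T2

open Equiv Finset
open Pool.PI34.C0 Pool.PI34.T1
open Pool.PI34.Super (act bc bc_of bc_smul fv KN eps eps_mul eps_sq pv W Lt rho rho_apply act_of
  eps_swap_zero pm bsg_self fv_zsmul)

/-- all the letters odd: the sign -/
def chi {n : ℕ} (σ : Perm (Fin n)) : ℚ := eps σ (fun _ => true)

theorem chi_mul {n : ℕ} (σ τ : Perm (Fin n)) : chi (σ * τ) = chi σ * chi τ := eps_mul σ τ _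

theorem chi_sq {n : ℕ} (σ : Perm (Fin n)) : chi σ * chi σ = 1 := eps_sq σ _

theorem chi_swap_zero {n : ℕ} (s : Fin n) : chi (swap (0 : Fin (n + 1)) s.succ) = -1 := by
  have h := eps_swap_zero (k := 0) (l := 1) (fun _ : Fin n => Sum.inr 0) s (Sum.inr 0)
  have h1 : pv (Fin.cons ((fun _ : Fin n => (Sum.inr 0 : Lt 0 1)) s)
      (Function.update (fun _ : Fin n => (Sum.inr 0 : Lt 0 1)) s (Sum.inr 0)) :
        Fin (n + 1) → Lt 0 1) = fun _ => true := by
    funext i
    unfold pv
    refine Fin.cases ?_ (fun i => ?_) i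
    · simp
    · simp [Function.update_apply]
  rw [h1, bsg_self] at h
  unfold chi
  rw [h]
  simp [pm]

theorem chi_swap {n : ℕ} (i j : Fin n) (hij : i ≠ j) : chi (swap i j) = -1 := by
  obtain ⟨n, rfl⟩ : ∃ m, n = m + 1 := ⟨n - 1, by have := i.2; omega⟩
  rcases Fin.eq_zero_or_eq_succ i with rfl | ⟨i', rfl⟩
  · rcases Fin.eq_zero_or_eq_succ j with rfl | ⟨j', rfl⟩
    · exact absurd rfl hij
    · exact chi_swap_zero j'
  · rcases Fin.eq_zero_or_eq_succ j with rfl | ⟨j', rfl⟩
    · rw [swap_comm]; exact chi_swap_zero i'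
    · have h1 : swap i'.succ j'.succ = swap (0 : Fin (n + 1)) i'.succ * swap 0 j'.succ *
          swap 0 i'.succ := by
        have h2 := Equiv.swap_mul_swap_mul_swap (x := j'.succ) (y := (0 : Fin (n + 1)))
          (z := i'.succ) (Fin.succ_ne_zero _) (fun e => hij e.symm)
        rw [swap_comm j'.succ 0] at h2
        exact h2.symm
      rw [h1, chi_mul, chi_mul, chi_swap_zero, chi_swap_zero]
      norm_num

theorem sum_anti {n : ℕ} {G : Perm (Fin n) → ℚ} (i j : Fin n)
    (h : ∀ σ, G (swap i j * σ) = -G σ) : ∑ σ, G σ = 0 := by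
  have h1 : ∑ σ, G σ = ∑ σ, G (swap i j * σ) :=
    (Equiv.sum_comp (Equiv.mulLeft (swap i j)) G).symm
  have h2 : ∑ σ, G (swap i j * σ) = -∑ σ, G σ := by
    rw [← Finset.sum_neg_distrib]
    exact Finset.sum_congr rfl fun σ _ => h σ
  linarith [h1.trans h2]

/-- the symmetrizer -/
noncomputable def symE (n : ℕ) : MonoidAlgebra ℤ (Perm (Fin n)) :=
  ∑ σ : Perm (Fin n), MonoidAlgebra.of ℤ _ σ

/-- the antisymmetrizer -/
noncomputable def antE (n : ℕ) : MonoidAlgebra ℤ (Perm (Fin n)) :=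
  ∑ σ : Perm (Fin n), ((Perm.sign σ : ℤˣ) : ℤ) • MonoidAlgebra.of ℤ _ σ

theorem act_symE (l : ℕ) : act 0 l (Fin (l + 1)) (bc (symE (l + 1))) = 0 := by
  apply LinearMap.ext
  intro f
  funext w
  have h1 : act 0 l (Fin (l + 1)) (bc (symE (l + 1))) f w =
      ∑ σ : Perm (Fin (l + 1)), chi σ * f (w ∘ σ) := by
    unfold symE
    rw [map_sum, map_sum, LinearMap.sum_apply, Finset.sum_apply]
    refine Finset.sum_congr rfl fun σ _ => ?_
    rw [bc_of, act_of, rho_apply]
    congr 1
    unfold chi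
    congr 1
    funext i
    unfold pv
    rcases (w ∘ σ) i with c | c
    · exact c.elim0
    · rfl
  rw [h1]
  obtain ⟨i, j, hij, hw⟩ := Fintype.exists_ne_map_eq_of_card_lt w (by
    rw [Fintype.card_sum, Fintype.card_fin, Fintype.card_fin, Fintype.card_fin]; omega)
  refine sum_anti i j fun σ => ?_
  rw [chi_mul, chi_swap i j hij]
  have h2 : w ∘ ⇑(swap i j * σ) = w ∘ σ := by
    funext x
    rw [Function.comp_apply, Perm.mul_apply, Function.comp_apply]
    by_cases h3 : σ x = i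
    · rw [h3, swap_apply_left, hw]
    · by_cases h4 : σ x = j
      · rw [h4, swap_apply_right, hw]
      · rw [swap_apply_of_ne_of_ne h3 h4]
  rw [h2]
  ring

theorem act_antE (k : ℕ) : act k 0 (Fin (k + 1)) (bc (antE (k + 1))) = 0 := by
  apply LinearMap.ext
  intro f
  funext w
  have h1 : act k 0 (Fin (k + 1)) (bc (antE (k + 1))) f w =
      ∑ σ : Perm (Fin (k + 1)), (((Perm.sign σ : ℤˣ) : ℤ) : ℚ) * f (w ∘ σ) := by
    unfold antE
    rw [map_sum, map_sum, LinearMap.sum_apply, Finset.sum_apply]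
    refine Finset.sum_congr rfl fun σ _ => ?_
    rw [bc_smul, map_smul, bc_of, act_of, LinearMap.smul_apply, Pi.smul_apply, rho_apply,
      smul_eq_mul]
    congr 1
    have h2 : eps σ (pv (w ∘ σ)) = 1 := by
      unfold eps
      refine Finset.prod_eq_one fun q _ => ?_
      have h3 : ∀ i, pv (w ∘ σ) i = false := by
        intro i
        unfold pv
        rcases (w ∘ σ) i with c | c
        · rfl
        · exact c.elim0
      simp [h3]
    rw [h2, one_mul]
  rw [h1]
  obtain ⟨i, j, hij, hw⟩ := Fintype.exists_ne_map_eq_of_card_lt w (by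
    rw [Fintype.card_sum, Fintype.card_fin, Fintype.card_fin, Fintype.card_fin]; omega)
  refine sum_anti i j fun σ => ?_
  have h2 : w ∘ ⇑(swap i j * σ) = w ∘ σ := by
    funext x
    rw [Function.comp_apply, Perm.mul_apply, Function.comp_apply]
    by_cases h3 : σ x = i
    · rw [h3, swap_apply_left, hw]
    · by_cases h4 : σ x = j
      · rw [h4, swap_apply_right, hw]
      · rw [swap_apply_of_ne_of_ne h3 h4]
  rw [h2, Perm.sign_mul, Perm.sign_swap hij]
  push_cast
  ring

variable {U : Type} [Ring U]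

theorem fv_sum {n : ℕ} {ι : Type} (s : Finset ι) (y : ι → MonoidAlgebra ℤ (Perm (Fin n)))
    (v : Fin (n + 1) → U) (r : Fin n → U) :
    fv (∑ i ∈ s, y i) v r = ∑ i ∈ s, fv (y i) v r := by
  rw [← fvH_apply, map_sum]
  rfl

/-- type `(0|l)`: positive characteristic -/
theorem char_of_Typ {l q : ℕ} (hq : l + 1 ≤ q) (h : Typ 0 l q U) :
    (((l + 1).factorial : ℕ) : U) = 0 := by
  have h1 := h (l + 1) hq (symE (l + 1)) (act_symE l) (fun _ => 1) (fun _ => 1)
  rw [one_smul] at h1
  unfold symE at h1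
  rw [fv_sum] at h1
  rw [← h1]
  have h2 : ∀ σ : Perm (Fin (l + 1)), fv (MonoidAlgebra.of ℤ _ σ) (fun _ : Fin (l + 1 + 1) => (1 : U))
      (fun _ => 1) = 1 := by
    intro σ
    rw [fv_of]
    unfold capMono
    simp
  rw [Finset.sum_congr rfl fun σ _ => h2 σ, Finset.sum_const, Finset.card_univ,
    Fintype.card_perm, Fintype.card_fin, nsmul_eq_mul, mul_one]

/-- type `(k|0)`: Capelli identity -/
theorem cap_of_Typ {k q : ℕ} (hq : k + 1 ≤ q) (h : Typ k 0 q U) : Cap U (k + 1) := by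
  intro v x
  have h1 := h (k + 1) hq (antE (k + 1)) (act_antE k) v x
  rw [one_smul] at h1
  unfold antE at h1
  rw [fv_sum] at h1
  rw [← h1]
  refine Finset.sum_congr rfl fun σ _ => ?_
  rw [fv_zsmul, fv_of]

end Pool.PI34.T2
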