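import Pool.Agent.LibPI34.T2_Defs

/-!
PI34, theorem T2, file F: localisation at a set of natural numbers.
-/

set_option autoImplicit false

namespace Pool.PI34.T2

open Equiv Finset
open Pool.PI34.C0 Pool.PI34.T1
open Pool.PI34.Super (act bc fv KN mm)

section hom

variable {U V : Type} [Ring U] [Ring V] (f : U →+* V)

theorem map_mono' {n : ℕ} (x : Fin n → U) (σ : Perm (Fin n)) :
    f (mono x σ) = mono (fun i => f (x i)) σ := by
  unfold mono
  rw [map_list_prod, List.map_ofFn]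
  rfl

theorem map_capMono {n : ℕ} (v : Fin (n + 1) → U) (x : Fin n → U) (σ : Perm (Fin n)) :
    f (capMono v x σ) = capMono (fun i => f (v i)) (fun i => f (x i)) σ := by
  unfold capMono
  rw [map_mul, map_list_prod, List.map_ofFn]
  congr 3
  funext i
  rw [Function.comp_apply, map_mul]

theorem map_fv {n : ℕ} (y : MonoidAlgebra ℤ (Perm (Fin n))) (v : Fin (n + 1) → U)
    (x : Fin n → U) : f (fv y v x) = fv y (fun i => f (v i)) (fun i => f (x i)) := by
  unfold fv
  rw [map_sum]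
  exact Finset.sum_congr rfl (fun σ _ => by rw [map_zsmul, map_capMono])

theorem prod_smul (s : ℕ) {n : ℕ} (a : Fin n → U) :
    (List.ofFn fun i => s • a i).prod = s ^ n • (List.ofFn a).prod := by
  induction n with
  | zero => simp
  | succ n ih =>
    rw [List.ofFn_succ, List.ofFn_succ, List.prod_cons, List.prod_cons, ih, smul_mul_smul_comm,
      pow_succ']

theorem mono_smul (s : ℕ) {n : ℕ} (x : Fin n → U) (σ : Perm (Fin n)) :
    mono (fun i => s • x i) σ = s ^ n • mono x σ := by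
  unfold mono
  exact prod_smul s (fun i => x (σ i))

theorem capMono_smul (s : ℕ) {n : ℕ} (v : Fin (n + 1) → U) (x : Fin n → U) (σ : Perm (Fin n)) :
    capMono (fun i => s • v i) (fun i => s • x i) σ = (s * (s * s) ^ n) • capMono v x σ := by
  unfold capMono
  have h : (fun i : Fin n => (s • x (σ i)) * (s • v i.succ))
      = fun i => (s * s) • (x (σ i) * v i.succ) := by
    funext i
    rw [smul_mul_smul_comm]
  rw [h, prod_smul, smul_mul_smul_comm]

theorem fv_smul' (s : ℕ) {n : ℕ} (y : MonoidAlgebra ℤ (Perm (Fin n))) (v : Fin (n + 1) → U)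
    (x : Fin n → U) : fv y (fun i => s • v i) (fun i => s • x i)
      = (s * (s * s) ^ n) • fv y v x := by
  unfold fv
  rw [Finset.smul_sum]
  refine Finset.sum_congr rfl (fun σ _ => ?_)
  rw [capMono_smul, smul_comm]

end hom

section frac

/-- `f : U → V` is a localisation at `S` -/
structure IsFr (S : Set ℕ) {U V : Type} [Ring U] [Ring V] (f : U →+* V) : Prop where
  inv : Inv S V
  ker : ∀ u, f u = 0 → ∃ s ∈ S, s • u = 0
  surj : ∀ v, ∃ s ∈ S, ∃ u, s • v = f u

variable {S : Set ℕ} {U V : Type} [Ring U] [Ring V] {f : U →+* V}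

theorem Inv.cancel (h : Inv S V) {s : ℕ} (hs : s ∈ S) {x : V} (hx : s • x = 0) : x = 0 := by
  obtain ⟨u, hu⟩ := h s hs
  rw [nsmul_eq_mul, ← hu] at hx
  have h2 := congrArg (fun y => ((u⁻¹ : Vˣ) : V) * y) hx
  simpa [← mul_assoc] using h2

theorem IsFr.common (h : IsFr S f) (h1 : 1 ∈ S) (hm : ∀ a ∈ S, ∀ b ∈ S, a * b ∈ S)
    {ι : Type} [Fintype ι] (v : ι → V) : ∃ s ∈ S, ∃ u : ι → U, ∀ i, s • v i = f (u i) := by
  classical
  choose s hs u hu using h.surj
  refine ⟨∏ i, s (v i), ?_, fun i => (∏ j ∈ univ.erase i, s (v j)) • u (v i), fun i => ?_⟩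
  · exact Finset.prod_induction _ (· ∈ S) (fun a b ha hb => hm a ha b hb) h1 (fun i _ => hs _)
  · rw [map_nsmul, ← hu, smul_smul, Finset.prod_erase_mul _ _ (Finset.mem_univ i)]

theorem pow_mem' (h1 : 1 ∈ S) (hm : ∀ a ∈ S, ∀ b ∈ S, a * b ∈ S) {s : ℕ} (hs : s ∈ S) (n : ℕ) :
    s ^ n ∈ S := by
  induction n with
  | zero => simpa using h1
  | succ n ih => rw [pow_succ]; exact hm _ ih _ hs

theorem IsFr.piu (h : IsFr S f) (h1 : 1 ∈ S) (hm : ∀ a ∈ S, ∀ b ∈ S, a * b ∈ S)
    (hU : PIU U) : PIU V := by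
  obtain ⟨d, a, ha, hPI⟩ := hU
  refine ⟨d, a, ha, fun x => ?_⟩
  obtain ⟨s, hs, u, hu⟩ := h.common h1 hm x
  apply h.inv.cancel (pow_mem' h1 hm hs (d + 1))
  rw [Finset.smul_sum]
  have h2 := congrArg f (hPI u)
  rw [map_sum, map_zero] at h2
  rw [← h2]
  refine Finset.sum_congr rfl (fun σ _ => ?_)
  rw [map_zsmul, map_mono', smul_comm, ← mono_smul]
  congr 2
  funext i
  exact hu i

theorem IsFr.kn (h : IsFr S f) (h1 : 1 ∈ S) (hm : ∀ a ∈ S, ∀ b ∈ S, a * b ∈ S)
    {N k l n : ℕ} (hU : KN N k l n U) : KN N k l n V := by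
  intro y hy v r
  obtain ⟨s, hs, u, hu⟩ := h.common h1 hm (Sum.elim v r)
  have ht : s * (s * s) ^ n ∈ S := hm _ hs _ (pow_mem' h1 hm (hm _ hs _ hs) n)
  apply h.inv.cancel ht
  have h2 := congrArg f (hU y hy (fun i => u (Sum.inl i)) (fun i => u (Sum.inr i)))
  rw [map_nsmul, map_fv, map_zero] at h2
  rw [smul_comm, ← fv_smul', ← h2]
  congr 2
  · funext i
    exact hu (Sum.inl i)
  · funext i
    exact hu (Sum.inr i)

theorem IsFr.qtyp (h : IsFr S f) (h1 : 1 ∈ S) (hm : ∀ a ∈ S, ∀ b ∈ S, a * b ∈ S)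
    {k l q : ℕ} (hU : QTyp k l q U) : QTyp k l q V := by
  obtain ⟨N, hN, hh⟩ := hU
  exact ⟨N, hN, fun n hn => h.kn h1 hm (hh n hn)⟩

/-- the submonoid of `ℤ` -/
def smon (S : Set ℕ) (h1 : 1 ∈ S) (hm : ∀ a ∈ S, ∀ b ∈ S, a * b ∈ S) : Submonoid ℤ where
  carrier := {z | ∃ s ∈ S, z = (s : ℤ)}
  one_mem' := ⟨1, h1, rfl⟩
  mul_mem' := by
    rintro _ _ ⟨s, hs, rfl⟩ ⟨t, ht, rfl⟩
    exact ⟨s * t, hm s hs t ht, by push_cast; rfl⟩

/-- the localisation exists -/
theorem exists_frac (S : Set ℕ) (h1 : 1 ∈ S) (hm : ∀ a ∈ S, ∀ b ∈ S, a * b ∈ S)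
    (U : Type) [Ring U] : ∃ (V : Type) (_ : Ring V) (f : U →+* V), IsFr S f := by
  let M := smon S h1 hm
  have hone : LocalizedModule.mk (1 : U) (1 : M) = 1 := by simp [OreLocalization.one_def]
  let f : U →+* LocalizedModule M U :=
    { toFun := fun u => LocalizedModule.mk u 1
      map_one' := hone
      map_mul' := fun a b => by rw [LocalizedModule.mk_mul_mk, one_mul]
      map_zero' := LocalizedModule.zero_mk 1
      map_add' := fun a b => by
        rw [LocalizedModule.mk_add_mk]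
        simp only [one_smul, mul_one] }
  have hf : ∀ u, f u = LocalizedModule.mk u (1 : M) := fun u => rfl
  have hmk : ∀ (s : ℕ) (u : U) (c : M), (c : ℤ) = s →
      LocalizedModule.mk ((s : U) * u) c = LocalizedModule.mk u (1 : M) := by
    intro s u c hc
    rw [LocalizedModule.mk_eq]
    refine ⟨1, ?_⟩
    rw [one_smul, one_smul, one_smul]
    have h2 : c • u = (c : ℤ) • u := rfl
    rw [h2, hc, natCast_zsmul, nsmul_eq_mul]
  refine ⟨LocalizedModule M U, inferInstance, f, ⟨?_, ?_, ?_⟩⟩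
  · intro s hs
    let s' : M := ⟨(s : ℤ), s, hs, rfl⟩
    have h2 : ((s : ℕ) : LocalizedModule M U) = LocalizedModule.mk ((s : ℕ) : U) (1 : M) := by
      rw [← hf, map_natCast f s]
    have h3 : (LocalizedModule.mk ((s : ℕ) : U) (1 : M)) * (LocalizedModule.mk (1 : U) s') = 1 := by
      rw [LocalizedModule.mk_mul_mk, one_mul, hmk s 1 s' rfl, hone]
    have h4 : (LocalizedModule.mk (1 : U) s') * (LocalizedModule.mk ((s : ℕ) : U) (1 : M)) = 1 := by
      rw [← h3, LocalizedModule.mk_mul_mk, LocalizedModule.mk_mul_mk, mul_one, one_mul, mul_one,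
        one_mul]
    rw [h2]
    exact ⟨⟨_, _, h3, h4⟩, rfl⟩
  · intro u hu
    have h2 : LocalizedModule.mk u (1 : M) = LocalizedModule.mk 0 1 := by
      rw [LocalizedModule.zero_mk]; exact hu
    rw [LocalizedModule.mk_eq] at h2
    obtain ⟨c, hc⟩ := h2
    obtain ⟨s, hs, hcs⟩ := c.2
    refine ⟨s, hs, ?_⟩
    rw [one_smul, one_smul, smul_zero] at hc
    have h3 : (c : ℤ) • u = 0 := hc
    rw [hcs, natCast_zsmul] at h3
    exact h3
  · intro v
    induction v using LocalizedModule.induction_on with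
    | h u c =>
      obtain ⟨s, hs, hcs⟩ := c.2
      refine ⟨s, hs, u, ?_⟩
      rw [nsmul_eq_mul, hf, ← hmk s u c hcs, ← map_natCast f s, hf, LocalizedModule.mk_mul_mk,
        one_mul]

end frac

end Pool.PI34.T2
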