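import Pool.Agent.LibPI34.T2_F
import Pool.Agent.LibPI34.Q4

/-!
PI34, theorem T2, file G: the final theorem.
-/

set_option autoImplicit false

namespace Pool.PI34.T2

open Equiv Finset
open Pool.PI34.C0 Pool.PI34.T1
open Pool.PI34.Super (act bc fv KN mm)

theorem Engine_mono {S S' : Set ℕ} {k l : ℕ} (h : ∀ (U : Type) [Ring U], Inv S' U → Inv S U)
    (hE : Engine S k l) : Engine S' k l := by
  obtain ⟨I, q, m, y0, h1, h2, h3⟩ := hE
  exact ⟨I, q, m, y0, h1, h2, fun U _ hU => h3 U (h U hU)⟩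

section surj

variable {U V : Type} [Ring U] [Ring V] (f : U →+* V) (hf : Function.Surjective f)

include hf

theorem KN_surj {N k l n : ℕ} (h : KN N k l n U) : KN N k l n V := by
  intro y hy v r
  choose v' hv' using fun i => hf (v i)
  choose r' hr' using fun i => hf (r i)
  have h1 := congrArg f (h y hy v' r')
  rw [map_nsmul, map_fv, map_zero] at h1
  rw [← h1]
  congr 2
  · exact funext (fun i => (hv' i).symm)
  · exact funext (fun i => (hr' i).symm)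

theorem QTyp_surj {k l q : ℕ} (h : QTyp k l q U) : QTyp k l q V := by
  obtain ⟨N, hN, h1⟩ := h
  exact ⟨N, hN, fun n hn => KN_surj f hf (h1 n hn)⟩

theorem PIU_surj (h : PIU U) : PIU V := by
  obtain ⟨d, a, ha, hPI⟩ := h
  refine ⟨d, a, ha, fun x => ?_⟩
  choose x' hx' using fun i => hf (x i)
  have h1 := congrArg f (hPI x')
  rw [map_sum, map_zero] at h1
  rw [← h1]
  refine Finset.sum_congr rfl (fun σ _ => ?_)
  rw [map_zsmul, map_mono']
  congr 2
  exact funext (fun i => (hx' i).symm)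

end surj

/-- the annihilator of the integer `c` -/
def AnnI (U : Type) [Ring U] (c : ℕ) : Ideal U where
  carrier := {u | c • u = 0}
  zero_mem' := smul_zero c
  add_mem' := fun {a b} ha hb => by
    have ha' : c • a = 0 := ha
    have hb' : c • b = 0 := hb
    change c • (a + b) = 0
    rw [smul_add, ha', hb', add_zero]
  smul_mem' := fun r a ha => by
    have ha' : c • a = 0 := ha
    change c • (r * a) = 0
    rw [← mul_smul_comm, ha', mul_zero]

theorem mem_AnnI (U : Type) [Ring U] (c : ℕ) (u : U) : u ∈ AnnI U c ↔ c • u = 0 := Iff.rfl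

instance (U : Type) [Ring U] (c : ℕ) : (AnnI U c).IsTwoSided := ⟨fun {a} b ha => by
  have ha' : c • a = 0 := ha
  change c • (a * b) = 0
  rw [← smul_mul_assoc, ha', zero_mul]⟩

section mult

/-- the powers of `N` -/
def pw (N : ℕ) : Set ℕ := {s | ∃ e, s = N ^ e}

theorem pw_one (N : ℕ) : 1 ∈ pw N := ⟨0, by simp⟩

theorem pw_mul (N : ℕ) : ∀ a ∈ pw N, ∀ b ∈ pw N, a * b ∈ pw N := by
  rintro _ ⟨e, rfl⟩ _ ⟨f, rfl⟩
  exact ⟨e + f, by rw [pow_add]⟩

/-- the integers prime to `p` -/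
def cop (p : ℕ) : Set ℕ := {s | ¬ p ∣ s}

theorem cop_one {p : ℕ} (hp : p.Prime) : 1 ∈ cop p := fun h => hp.one_lt.ne' (Nat.dvd_one.1 h)

theorem cop_mul {p : ℕ} (hp : p.Prime) : ∀ a ∈ cop p, ∀ b ∈ cop p, a * b ∈ cop p := by
  intro a ha b hb h
  rcases hp.dvd_mul.1 h with h1 | h1
  · exact ha h1
  · exact hb h1

end mult

/-- one localisation -/
theorem kills_at {S : Set ℕ} (h1 : 1 ∈ S) (hm : ∀ a ∈ S, ∀ b ∈ S, a * b ∈ S) {k : ℕ}
    (hC : Claim S k k) {U : Type} [Ring U] (hPI : PIU U) (hQ : ∀ q, QTyp k k q U) {X : Type}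
    (π : FreeAlgebra ℤ X →+* U) : ∃ I : Ideal (FreeAlgebra ℤ X), I.IsTwoSided ∧ PureI I ∧
      MPI I ∧ ∀ g ∈ I, ∃ s ∈ S, s • π g = 0 := by
  obtain ⟨q, hq⟩ := hC
  obtain ⟨V, _, f, hf⟩ := exists_frac S h1 hm U
  obtain ⟨I, hI1, hI2, hI3, hI4⟩ := hq V hf.inv (hf.piu h1 hm hPI) (hf.qtyp h1 hm (hQ q)) X
    (f.comp π)
  exact ⟨I, hI1, hI2, hI3, fun g hg => hf.ker _ (hI4 g hg)⟩

theorem kills_T {N0 k : ℕ} (hC0 : Claim (pw N0) k k) (T : Finset ℕ)
    (hT : ∀ p ∈ T, p.Prime ∧ Claim (cop p) k k) {U : Type} [Ring U] (hPI : PIU U)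
    (hQ : ∀ q, QTyp k k q U) {X : Type} (π : FreeAlgebra ℤ X →+* U) :
    ∃ I : Ideal (FreeAlgebra ℤ X), I.IsTwoSided ∧ PureI I ∧ MPI I ∧
      ∀ g ∈ I, (∃ m, N0 ^ m • π g = 0) ∧ ∀ p ∈ T, ∃ s, ¬ p ∣ s ∧ s • π g = 0 := by
  classical
  induction T using Finset.induction_on with
  | empty =>
    obtain ⟨I, h1, h2, h3, h4⟩ := kills_at (pw_one N0) (pw_mul N0) hC0 hPI hQ π
    refine ⟨I, h1, h2, h3, fun g hg => ⟨?_, fun p hp => absurd hp (Finset.notMem_empty p)⟩⟩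
    obtain ⟨s, ⟨e, rfl⟩, hs⟩ := h4 g hg
    exact ⟨e, hs⟩
  | insert p T hp ih =>
    obtain ⟨I, h1, h2, h3, h4⟩ := ih (fun p hp => hT p (Finset.mem_insert_of_mem hp))
    obtain ⟨hpp, hCp⟩ := hT p (Finset.mem_insert_self p T)
    obtain ⟨J, j1, j2, j3, j4⟩ := kills_at (cop_one hpp) (cop_mul hpp) hCp hPI hQ π
    have := h1
    have := j1
    refine ⟨I * J, inferInstance, PureI_mul _ _ h2 j2, MPI_mul _ _ h3 j3, fun g hg => ?_⟩
    have hgI : g ∈ I := Ideal.mul_le_left (I := I) (J := J) hg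
    have hgJ : g ∈ J := Ideal.mul_le_right (I := I) (J := J) hg
    obtain ⟨a1, a2⟩ := h4 g hgI
    refine ⟨a1, fun p' hp' => ?_⟩
    rcases Finset.mem_insert.1 hp' with rfl | h5
    · exact j4 g hgJ
    · exact a2 p' h5

/-- the separation argument -/
theorem sep {N0 : ℕ} (hN0 : 0 < N0) (P : Set ℕ) {U : Type} [Ring U]
    (hbad : ∀ p, p.Prime → p ∣ N0 → p ∉ P → ∀ u : U, p • u = 0 → u = 0) (u : U) (m : ℕ)
    (hm : N0 ^ m • u = 0) (hP : ∀ p, p.Prime → p ∣ N0 → p ∈ P → ∃ s, ¬ p ∣ s ∧ s • u = 0) :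
    u = 0 := by
  have h1 : addOrderOf u ∣ N0 ^ m := addOrderOf_dvd_iff_nsmul_eq_zero.2 hm
  have h2 : addOrderOf u ≠ 0 := fun h => by
    rw [h] at h1
    exact (pow_pos hN0 m).ne' (zero_dvd_iff.1 h1)
  by_contra hu
  have h3 : addOrderOf u ≠ 1 := fun h => hu (AddMonoid.addOrderOf_eq_one_iff.1 h)
  obtain ⟨p, hp, hpn⟩ := Nat.exists_prime_and_dvd h3
  have hpN : p ∣ N0 := hp.dvd_of_dvd_pow (hpn.trans h1)
  by_cases hpP : p ∈ P
  · obtain ⟨s, hs, hs2⟩ := hP p hp hpN hpP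
    exact hs (hpn.trans (addOrderOf_dvd_iff_nsmul_eq_zero.2 hs2))
  · obtain ⟨c, hc⟩ := hpn
    have h4 : p • (c • u) = 0 := by
      rw [smul_smul, ← hc, addOrderOf_nsmul_eq_zero]
    have h5 := hbad p hp hpN hpP _ h4
    have h6 : addOrderOf u ∣ c := addOrderOf_dvd_iff_nsmul_eq_zero.2 h5
    have hc0 : 0 < c := Nat.pos_of_ne_zero (fun h => by rw [h, mul_zero] at hc; exact h2 hc)
    have h7 := Nat.le_of_dvd hc0 h6
    rw [hc] at h7
    have := hp.two_le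
    nlinarith

/-- rings without bad torsion -/
theorem kills_good {N0 k : ℕ} (hN0 : 0 < N0) (hC0 : Claim (pw N0) k k) (P : Set ℕ)
    (hP : ∀ p ∈ P, p.Prime → p ∣ N0 → Claim (cop p) k k) {U : Type} [Ring U] (hPI : PIU U)
    (hQ : ∀ q, QTyp k k q U)
    (hbad : ∀ p, p.Prime → p ∣ N0 → p ∉ P → ∀ u : U, p • u = 0 → u = 0) {X : Type}
    (π : FreeAlgebra ℤ X →+* U) : Kills π := by
  classical
  obtain ⟨I, h1, h2, h3, h4⟩ := kills_T hC0 (N0.primeFactors.filter (· ∈ P)) (fun p hp => by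
    rw [Finset.mem_filter, Nat.mem_primeFactors] at hp
    exact ⟨hp.1.1, hP p hp.2 hp.1.1 hp.1.2.1⟩) hPI hQ π
  refine ⟨I, h1, h2, h3, fun g hg => ?_⟩
  obtain ⟨⟨m, hm⟩, h5⟩ := h4 g hg
  exact sep hN0 P hbad _ m hm (fun p hp hpN hpP => h5 p (by
    rw [Finset.mem_filter, Nat.mem_primeFactors]
    exact ⟨⟨hp, hpN, hN0.ne'⟩, hpP⟩))

/-- bounded torsion for finitely many primes -/
theorem bounded {R : Type} [AddCommGroup R] (B : Finset ℕ) (e : ℕ → ℕ)
    (he : ∀ p ∈ B, ∀ (r : R) (m : ℕ), p ^ m • r = 0 → p ^ (e p) • r = 0) (m : ℕ) :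
    ∀ r : R, (∏ p ∈ B, p ^ m) • r = 0 → (∏ p ∈ B, p ^ (e p)) • r = 0 := by
  classical
  induction B using Finset.induction_on with
  | empty => intro r hr; simpa using hr
  | insert p B hp ih =>
    intro r hr
    rw [Finset.prod_insert hp, mul_smul] at hr ⊢
    have h1 := he p (Finset.mem_insert_self p B) _ m hr
    rw [smul_comm] at h1
    have h2 := ih (fun p' hp' => he p' (Finset.mem_insert_of_mem hp')) _ h1
    rw [smul_comm] at h2
    exact h2

/-- `mpi_of_sub` with the degree -/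
theorem mpi_sub' {U : Type} [Ring U] (R : NonUnitalSubring U) (hR : Aug R) (d : ℕ)
    (a : Perm (Fin (d + 1)) → ℤ) (ha : a 1 = 1)
    (h : ∀ x : Fin (d + 1) → U, (∀ i, x i ∈ R) → ∑ σ, a σ • mono x σ = 0) :
    ∃ a' : Perm (Fin ((d + 1) * 1 + d + 1)) → ℤ, a' 1 = 1 ∧
      ∀ x : Fin ((d + 1) * 1 + d + 1) → U, ∑ σ, a' σ • mono x σ = 0 := by
  classical
  have hcomm : ∀ y z : U, y * z - z * y ∈ R := by
    intro y z
    obtain ⟨c, r, hr, rfl⟩ := hR.top y
    obtain ⟨c', r', hr', rfl⟩ := hR.top z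
    have e : ((c : U) + r) * ((c' : U) + r') - ((c' : U) + r') * ((c : U) + r) = r * r' - r' * r := by
      have h1 := Int.cast_commute c r'
      have h2 := Int.cast_commute c' r
      have h3 := Int.cast_commute c (c' : U)
      simp only [Commute, SemiconjBy] at h1 h2 h3
      simp only [add_mul, mul_add, h1, h2, h3]
      abel
    rw [e]
    exact sub_mem (hR.left _ _ hr') (hR.left _ _ hr)
  refine ⟨fun σ => ∑ τ : Perm (Fin (d + 1)), ∑ r : Fin (d + 1) → Fin 2,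
    if shp d τ r = σ then a τ * (∏ i, (if r i = 0 then (1 : ℤ) else -1)) else 0, ?_, ?_⟩
  · have h1 : ∀ (τ : Perm (Fin (d + 1))) (r : Fin (d + 1) → Fin 2), (τ, r) ≠ (1, 0) →
        (if shp d τ r = 1 then a τ * (∏ i, (if r i = 0 then (1 : ℤ) else -1)) else 0) = 0 := by
      intro τ r hne
      rw [if_neg]
      intro h2
      obtain ⟨h3, h4⟩ := shp_one d τ r h2
      exact hne (by rw [h3, h4])
    show (∑ τ : Perm (Fin (d + 1)), ∑ r : Fin (d + 1) → Fin 2,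
      if shp d τ r = 1 then a τ * (∏ i, (if r i = 0 then (1 : ℤ) else -1)) else 0) = 1
    rw [Finset.sum_eq_single (1 : Perm (Fin (d + 1))), Finset.sum_eq_single (0 : Fin (d + 1) → Fin 2)]
    · rw [if_pos (shp_one' d), ha]
      simp
    · intro r _ hr
      exact h1 _ _ (by simpa using hr)
    · intro h; exact absurd (mem_univ _) h
    · intro τ _ hτ
      exact Finset.sum_eq_zero fun r _ => h1 _ _ (by simp [hτ])
    · intro h; exact absurd (mem_univ _) h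
  · intro X
    show ∑ σ : Perm (Fin ((d + 1) * 2)), (∑ τ : Perm (Fin (d + 1)), ∑ r : Fin (d + 1) → Fin 2,
      if shp d τ r = σ then a τ * (∏ i, (if r i = 0 then (1 : ℤ) else -1)) else 0) • mono X σ = 0
    have h2 := h (fun i : Fin (d + 1) => X (pr d (i, 0)) * X (pr d (i, 1)) -
      X (pr d (i, 1)) * X (pr d (i, 0))) (fun i => hcomm _ _)
    rw [← h2]
    simp only [Finset.sum_smul]
    rw [Finset.sum_comm]
    refine Finset.sum_congr rfl fun τ _ => ?_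
    rw [Finset.sum_comm, mono_comm, Finset.smul_sum]
    refine Finset.sum_congr rfl fun r _ => ?_
    simp only [ite_smul, zero_smul]
    rw [Finset.sum_ite_eq]
    simp [mul_smul]

theorem isUnit_dvd {U : Type} [Ring U] {a b : ℕ} (h : a ∣ b) (hb : IsUnit (b : U)) :
    IsUnit (a : U) := by
  obtain ⟨c, rfl⟩ := h
  rw [Nat.cast_mul] at hb
  exact ((Nat.cast_commute a (c : U)).isUnit_mul_iff.1 hb).1

/-- THE FINAL THEOREM -/
theorem final
    (hcl : ∀ (S : Set ℕ) (k l : ℕ), (∀ k' l', 0 < k' → k' ≤ k → 0 < l' → l' ≤ l →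
      Engine S k' l') → Claim S k l)
    (hP3 : ∀ k l : ℕ, 0 < k → 0 < l → ∃ D : ℕ, 0 < D ∧ Engine {D} k l) (d : ℕ) :
    ∃ N0 : ℕ, 0 < N0 ∧ ∀ P : Set ℕ,
      (∀ p ∈ P, p.Prime → ∀ k l, 0 < k → 0 < l → Engine (cop p) k l) →
      ∀ (R : Type) [NonUnitalRing R] (a : Perm (Fin (d + 1)) → ℤ), a 1 = 1 →
      (∀ x : Fin (d + 1) → R, ∑ σ : Perm (Fin (d + 1)),
        a σ • ((List.ofFn (fun i : Fin d => x (σ i.succ))).foldl
          (fun u v => u * v) (x (σ 0))) = 0) →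
      (∀ p : ℕ, p.Prime → p ∣ N0 → p ∉ P → ∃ e : ℕ, ∀ (r : R) (m : ℕ),
        p ^ m • r = 0 → p ^ e • r = 0) → Im R := by
  classical
  obtain ⟨k, hk, hstart⟩ := Super.start_Q ((d + 1) * 1 + d)
  choose D hD hE using fun i j : ℕ => hP3 (i + 1) (j + 1) (Nat.succ_pos _) (Nat.succ_pos _)
  set N0 := ∏ i ∈ range k, ∏ j ∈ range k, D i j with hN0def
  have hN0 : 0 < N0 := Finset.prod_pos (fun i _ => Finset.prod_pos (fun j _ => hD i j))
  have hdvd : ∀ i < k, ∀ j < k, D i j ∣ N0 := by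
    intro i hi j hj
    exact (Finset.dvd_prod_of_mem (fun j => D i j) (Finset.mem_range.2 hj)).trans
      (Finset.dvd_prod_of_mem (fun i => ∏ j ∈ range k, D i j) (Finset.mem_range.2 hi))
  have hC0 : Claim (pw N0) k k := by
    apply hcl
    intro k' l' hk1 hk2 hl1 hl2
    obtain ⟨i, rfl⟩ := Nat.exists_eq_succ_of_ne_zero hk1.ne'
    obtain ⟨j, rfl⟩ := Nat.exists_eq_succ_of_ne_zero hl1.ne'
    refine Engine_mono (fun U _ hU s hs => ?_) (hE i j)
    rw [Set.mem_singleton_iff.1 hs]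
    exact isUnit_dvd (hdvd i (by omega) j (by omega)) (hU N0 ⟨1, (pow_one N0).symm⟩)
  refine ⟨N0, hN0, fun P hP R _ a ha hid htor => ?_⟩
  have hid' := (piid_iff R d a).1 hid
  obtain ⟨a', ha', hPI'⟩ := mpi_sub' (RU R) (aug_RU R) d a ha hid'
  have hPIU : PIU (Un R) := ⟨_, a', ha', hPI'⟩
  have hQ : ∀ q, QTyp k k q (Un R) := fun q => hstart (Un R) a' ha' hPI' q
  have htor' : ∀ p : ℕ, ∃ e : ℕ, p.Prime → p ∣ N0 → p ∉ P → ∀ (r : R) (m : ℕ),
      p ^ m • r = 0 → p ^ e • r = 0 := by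
    intro p
    by_cases h1 : p.Prime ∧ p ∣ N0 ∧ p ∉ P
    · obtain ⟨e, he⟩ := htor p h1.1 h1.2.1 h1.2.2
      exact ⟨e, fun _ _ _ => he⟩
    · exact ⟨0, fun h2 h3 h4 => absurd ⟨h2, h3, h4⟩ h1⟩
  choose e he using htor'
  set B := N0.primeFactors.filter (· ∉ P) with hB
  have hBm : ∀ p, p ∈ B ↔ p.Prime ∧ p ∣ N0 ∧ p ∉ P := by
    intro p
    rw [hB, Finset.mem_filter, Nat.mem_primeFactors]
    exact ⟨fun h => ⟨h.1.1, h.1.2.1, h.2⟩, fun h => ⟨⟨h.1, h.2.1, hN0.ne'⟩, h.2.2⟩⟩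
  set N := ∏ p ∈ B, p ^ (e p) with hN
  have hNpos : 0 < N := Finset.prod_pos (fun p hp => pow_pos ((hBm p).1 hp).1.pos _)
  have hNR : ∀ p ∈ B, ∀ r : R, N • p • r = 0 → N • r = 0 := by
    intro p hp r hr
    refine bounded B e (fun p hp => he p ((hBm p).1 hp).1 ((hBm p).1 hp).2.1 ((hBm p).1 hp).2.2)
      ((∑ p ∈ B, e p) + 1) r ?_
    have h1 : N * p ∣ ∏ p ∈ B, p ^ ((∑ p ∈ B, e p) + 1) := by
      have h2 : N * p = ∏ p' ∈ B, (p' ^ (e p') * if p' = p then p else 1) := by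
        rw [Finset.prod_mul_distrib, Finset.prod_ite_eq' B p, if_pos hp]
      rw [h2]
      refine Finset.prod_dvd_prod_of_dvd _ _ (fun p' hp' => ?_)
      have h3 : e p' ≤ ∑ p ∈ B, e p := Finset.single_le_sum (fun _ _ => Nat.zero_le _) hp'
      rw [pow_succ]
      refine mul_dvd_mul (pow_dvd_pow _ h3) ?_
      split_ifs with h4
      · rw [h4]
      · exact one_dvd _
    obtain ⟨c, hc⟩ := h1
    rw [hc, mul_comm, mul_smul, mul_smul, hr, smul_zero]
  apply im_of_kills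
  have h2s : (G_mulI (RU R) (aug_RU R) N).IsTwoSided := G_twoSided (RU R) (aug_RU R) N
  refine kills_of_mul (canon R) (Ideal.Quotient.mk (AnnI (Un R) N))
    (Ideal.Quotient.mk (G_mulI (RU R) (aug_RU R) N)) ?_ ?_ ?_
  · intro x y hx hy
    rw [Ideal.Quotient.eq_zero_iff_mem] at hx hy
    rw [mem_AnnI] at hx
    obtain ⟨r, _, rfl⟩ := (G_mem_mulI (RU R) (aug_RU R) N y).1 hy
    rw [← mul_assoc, ← (Nat.cast_commute N x).eq, ← nsmul_eq_mul, hx, zero_mul]
  · have hsurj : Function.Surjective (Ideal.Quotient.mk (AnnI (Un R) N)) :=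
      Ideal.Quotient.mk_surjective
    refine kills_good hN0 hC0 P (fun p hp hpp _ => hcl _ k k (fun k' l' h1 _ h2 _ =>
      hP p hp hpp k' l' h1 h2)) (PIU_surj _ hsurj hPIU) (fun q => QTyp_surj _ hsurj (hQ q)) ?_ _
    intro p hp hpN hpP u hu
    obtain ⟨w, rfl⟩ := hsurj u
    rw [← map_nsmul, Ideal.Quotient.eq_zero_iff_mem, mem_AnnI] at hu
    rw [Ideal.Quotient.eq_zero_iff_mem, mem_AnnI]
    have h1 : fstU R w = 0 := by
      have h2 := congrArg (fstU R) hu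
      rw [map_nsmul, map_nsmul, map_zero, smul_smul, nsmul_eq_mul] at h2
      rcases mul_eq_zero.1 h2 with h3 | h3
      · have : N * p ≠ 0 := (Nat.mul_pos hNpos hp.pos).ne'
        exact absurd (by exact_mod_cast h3) this
      · exact h3
    obtain ⟨r, rfl⟩ := (mem_RU R w).1 h1
    rw [← map_nsmul, ← map_nsmul] at hu
    have h4 : N • p • r = 0 := inU_injective R (hu.trans (map_zero _).symm)
    rw [← map_nsmul, hNR p ((hBm p).2 ⟨hp, hpN, hpP⟩) r h4, map_zero]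
  · have hsurj : Function.Surjective (Ideal.Quotient.mk (G_mulI (RU R) (aug_RU R) N)) :=
      Ideal.Quotient.mk_surjective
    refine kills_of_char N hNpos ((RU R).map (Ideal.Quotient.mk (G_mulI (RU R) (aug_RU R) N)))
      (G_aug_map (RU R) (aug_RU R) _ hsurj) _ d a ha (G_pi_map (RU R) _ d a hid') ?_
    rintro _ ⟨r, hr, rfl⟩
    change (N : Un R ⧸ G_mulI (RU R) (aug_RU R) N) *
      Ideal.Quotient.mk (G_mulI (RU R) (aug_RU R) N) r = 0
    rw [← map_natCast (Ideal.Quotient.mk (G_mulI (RU R) (aug_RU R) N)) N, ← map_mul,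
      Ideal.Quotient.eq_zero_iff_mem]
    exact ⟨r, hr, rfl⟩

end Pool.PI34.T2
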