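import Pool.Agent.LibPI34.T2_Defs
import Pool.Agent.LibPI34.S_QQ

/-!
PI34, theorem T2, file P: the engines from (P3).
-/

set_option autoImplicit false

namespace Pool.PI34.T2

open Equiv Finset
open Pool.PI34.C0 Pool.PI34.T1
open Pool.PI34.Super (act bc fv KN mm)

/-- the engine of the determinant catalyst -/
theorem engine_P3 (k l : ℕ) (hkl : 0 < k + l) : ∃ D : ℕ, 0 < D ∧ Engine {D} k l := by
  obtain ⟨D, y0, hD, hy0, h⟩ := Super.P3Z k l hkl
  refine ⟨D, hD, fun X => (SS.QI (k + l) X : Ideal (SS.FA X)), 2 * (k + l) + 1 + mm k l, _, y0,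
    ?_, hy0, ?_⟩
  · intro X
    refine ⟨(inferInstance : (SS.QI (k + l) X).IsTwoSided), ?_, ?_⟩
    · intro m g hm hg
      exact SS.QQ_pure (k + l) X m g hm hg
    · obtain ⟨d, a, ha, h1⟩ := SS.QQ_MPI (k + l)
      exact ⟨d, a, ha, fun x => h1 X x⟩
  · intro U _ hU hT X π g hg τ v r
    have h1 := SS.FA.ext (A := U) π (SS.FA.lift (fun x => π (FreeAlgebra.ι ℤ x)))
      (fun x => by rw [SS.FA.lift_of]; rfl) g
    have h2 := h U (hU D rfl) (hT _ le_rfl) g hg (fun x => π (FreeAlgebra.ι ℤ x)) τ v r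
    exact (congrArg (fun t : U => t * fv (y0 * MonoidAlgebra.of ℤ _ τ) v r) h1).trans h2

end Pool.PI34.T2
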