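import Pool.Agent.LibPI34.T2_F
import Pool.Agent.LibPI34.T2_G
import Pool.Agent.LibPI34.S_QQ
import Pool.Agent.LibPI34.SK6

/-!
PI34, theorem T3: the engine for an odd prime, from the catalyst and (H4).
-/

set_option linter.unusedSectionVars false
set_option linter.unusedSimpArgs false

namespace Pool.PI34.Super

open Equiv Finset
open Pool.PI34.SS (FA)
open Pool.PI34.C0 (capMono)
open Pool.PI34.BA (anti permsOn Frame Anti)

/-- the property of the super string systems which is proved by (H4) -/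
def HProp (p K D : ℕ) : Prop :=
  ∀ (n : ℕ) (Φ U : Type) [Ring Φ] [Ring U] (S : SS.SupStr (Fin (n + 1)) Φ U 0),
    Anti S.f K → ∀ e e' : Fin K ↪ Fin (n + 1), Frame e e' 0 →
    (∀ s : ℕ, ¬ p ∣ s → ∀ x : U, s • x = 0 → x = 0) →
    ∀ (X : Type) (g : FA X), g ∈ SS.QQ K X → ∀ r : X → Φ,
      D • (S.ρ 0 (FA.lift r g) * (anti S.f (univ.map e) * anti S.f (univ.map e'))) = 0

/-- (H4) for the prime `p` and the rank `K` -/
def HMain (p K : ℕ) : Prop := ∃ D : ℕ, 0 < D ∧ HProp p K D

namespace CatL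

variable {Λ : Type} [CommRing Λ] {j : Λ →+* ℚ} {k l m : ℕ} {L : CatL j k l m}

theorem Rp.coreD {p D : ℕ} {R EE : Type} [Ring R] [Ring EE] (V : Rp L (2 * (k + l) + 1) R EE)
    (hH : HProp p (k + l) D)
    (ρH : R →+* EE) (hρ : ∀ x, V.ρ (phL (2 * (k + l) + 1) m 0) x = ρH x)
    (hinv : ∀ s : ℕ, ¬ p ∣ s → ∀ x : EE, s • x = 0 → x = 0)
    {X : Type} (g : FA X) (hg : g ∈ SS.QQ (k + l) X) (a : X → R) :
    D • (V.ρ (phL (2 * (k + l) + 1) m 0) (FA.lift a g) *
      V.a (L.Yp (2 * (k + l) + 1) (univ.map (eP (k + l))) (univ.map (eQ (k + l))))) = 0 := by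
  have hval : ∀ (s : ℕ) (x : V.U), V.U_val (s • x) = s • x.1 := by
    intro s x
    rw [map_nsmul]; rfl
  have hU : ∀ s : ℕ, ¬ p ∣ s → ∀ x : V.U, s • x = 0 → x = 0 := by
    intro s hs x hx
    apply V.U_ext
    apply hinv s hs
    rw [← hval, hx]
    rfl
  have h := hH _ _ _ V.cS.toSup V.anti_zero (eP (k + l)) (eQ (k + l))
    (frame_eP (k + l)) hU X g hg (fun x => FA.of (some (a x)))
  have h2 : D • (V.rU 0 (FA.lift (fun x => FA.of (some (a x))) g) *
      (anti V.fH (univ.map (eP (k + l))) * anti V.fH (univ.map (eQ (k + l)))) : V.U).1 = 0 := by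
    rw [← hval]
    have h' : V.U_val (D • (V.rU 0 (FA.lift (fun x => FA.of (some (a x))) g) *
      (anti V.fH (univ.map (eP (k + l))) * anti V.fH (univ.map (eQ (k + l)))) : V.U)) =
      V.U_val 0 := congrArg V.U_val h
    rw [h', map_zero]
  rw [V.U_mul, V.U_mul, V.ring_rU 0 ρH hρ, V.anti_eq (univ.map (eP (k + l)))] at h2
  have h3 : V.a (L.Z (2 * (k + l) + 1)) * (anti V.fH (univ.map (eQ (k + l)))).1
      = (anti V.fH (univ.map (eQ (k + l)))).1 := V.U_left _
  have h4 : V.a (L.Z (2 * (k + l) + 1)) * (anti V.fH (univ.map (eP (k + l)))).1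
      = (anti V.fH (univ.map (eP (k + l)))).1 := V.U_left _
  rw [V.anti_eq] at h3 h4 h2
  unfold Yp
  rw [map_mul, map_mul]
  unfold altL
  generalize V.a (∑ σ ∈ permsOn (univ.map (eP (k + l))), ((Perm.sign σ : ℤˣ) : ℤ) • L.fl σ) = A
    at h2 h3 h4 ⊢
  generalize V.a (∑ σ ∈ permsOn (univ.map (eQ (k + l))), ((Perm.sign σ : ℤˣ) : ℤ) • L.fl σ) = B
    at h2 h3 h4 ⊢
  generalize V.a (L.Z (2 * (k + l) + 1)) = Z at h2 h3 h4 ⊢
  generalize V.ρ (phL (2 * (k + l) + 1) m 0) (FA.lift a g) = x at h2 ⊢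
  calc D • (x * (A * B * Z)) = D • (x * (A * (B * Z))) := by rw [mul_assoc A]
    _ = D • (x * (A * (Z * (B * Z)))) := by rw [h3]
    _ = D • (x * (A * Z * (B * Z))) := by rw [mul_assoc A]
    _ = D • (x * (Z * (A * Z) * (B * Z))) := by rw [h4]
    _ = D • (x * Z * (A * Z * (B * Z))) := by simp only [mul_assoc]
    _ = 0 := h2

/-- THEOREM P3 with the factor `D` -/
theorem P3D {p D : ℕ} (L : CatL j k l m) (hH : HProp p (k + l) D) (hkl : 0 < k + l) :
    ∃ Y0 : MonoidAlgebra Λ (Perm (Fin (2 * (k + l) + m))), act k l _ (mj j _ Y0) ≠ 0 ∧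
      ∀ (R : Type) [Ring R] [Algebra Λ R], TypeKL j k l (2 * (k + l) + 1 + m) R →
        (∀ s : ℕ, ¬ p ∣ s → ∀ x : R, s • x = 0 → x = 0) →
        ∀ {X : Type} (g : FA X), g ∈ SS.QQ (k + l) X → ∀ (a : X → R)
          (τ : Perm (Fin (2 * (k + l) + m)))
          (v : Fin (2 * (k + l) + m + 1) → R) (r : Fin (2 * (k + l) + m) → R),
          D • (FA.lift a g * fv (Y0 * MonoidAlgebra.of Λ _ τ) v r) = 0 := by
  obtain ⟨Y0, hY0⟩ := L.exists_Y0 (2 * (k + l)) (univ.map (eP (k + l))) (univ.map (eQ (k + l)))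
    (zero_eP _) (zero_eQ _)
  refine ⟨Y0, ?_, ?_⟩
  · apply act_of_pl (conv_ph1 (2 * (k + l)) m)
    rw [← mj_plL, hY0]
    let v : Fin (2 * (k + l) + 1) → Lt k l := fun i =>
      finSumFinEquiv.symm ⟨(i.val + (k + l) - 1) % (k + l), Nat.mod_lt _ hkl⟩
    apply L.Yp_ne _ _ (disj_ePQ _) v
    · intro x hx y hy hxy
      rw [Finset.coe_map, Set.mem_image] at hx hy
      obtain ⟨x, _, rfl⟩ := hx
      obtain ⟨y, _, rfl⟩ := hy
      have h1 : (1 + x.val + (k + l) - 1) % (k + l) = (1 + y.val + (k + l) - 1) % (k + l) :=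
        congrArg Fin.val (finSumFinEquiv.symm.injective hxy)
      have h2 : (1 + x.val + (k + l) - 1) % (k + l) = x.val := by
        rw [show 1 + x.val + (k + l) - 1 = x.val + (k + l) by omega, Nat.add_mod_right,
          Nat.mod_eq_of_lt x.2]
      have h3 : (1 + y.val + (k + l) - 1) % (k + l) = y.val := by
        rw [show 1 + y.val + (k + l) - 1 = y.val + (k + l) by omega, Nat.add_mod_right,
          Nat.mod_eq_of_lt y.2]
      rw [h2, h3] at h1
      rw [Fin.ext h1]
    · intro x hx y hy hxy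
      rw [Finset.coe_map, Set.mem_image] at hx hy
      obtain ⟨x, _, rfl⟩ := hx
      obtain ⟨y, _, rfl⟩ := hy
      have h1 : (1 + (k + l) + x.val + (k + l) - 1) % (k + l)
          = (1 + (k + l) + y.val + (k + l) - 1) % (k + l) :=
        congrArg Fin.val (finSumFinEquiv.symm.injective hxy)
      have h2 : (1 + (k + l) + x.val + (k + l) - 1) % (k + l) = x.val := by
        rw [show 1 + (k + l) + x.val + (k + l) - 1 = x.val + (k + l) + (k + l) by omega,
          Nat.add_mod_right, Nat.add_mod_right, Nat.mod_eq_of_lt x.2]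
      have h3 : (1 + (k + l) + y.val + (k + l) - 1) % (k + l) = y.val := by
        rw [show 1 + (k + l) + y.val + (k + l) - 1 = y.val + (k + l) + (k + l) by omega,
          Nat.add_mod_right, Nat.add_mod_right, Nat.mod_eq_of_lt y.2]
      rw [h2, h3] at h1
      rw [Fin.ext h1]
  · intro R _ _ hT hinv X g hg a τ v r
    let V := ringRp L (2 * (k + l) + 1) hT
    have hEE : ∀ s : ℕ, ¬ p ∣ s → ∀ x : Module.End Λ (VL Λ R (2 * (k + l) + 1 + m)),
        s • x = 0 → x = 0 := by
      intro s hs x h1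
      refine endL_ext fun F r => ?_
      apply hinv s hs
      exact congrFun (congrArg Subtype.val (LinearMap.congr_fun h1 F)) r
    have h := V.coreD hH (rhoH (phL (2 * (k + l) + 1) m 0)) (fun _ => rfl) hEE g hg a
    have hτ : D • (V.ρ (phL (2 * (k + l) + 1) m 0) (FA.lift a g) *
        aL Λ R (2 * (k + l) + 1 + m) (plL Λ (ph1 (2 * (k + l)) m)
          (Y0 * MonoidAlgebra.of Λ _ τ))) = 0 := by
      rw [map_mul, map_mul, hY0, ← mul_assoc, ← smul_mul_assoc]
      have h' : D • (V.ρ (phL (2 * (k + l) + 1) m 0) (FA.lift a g) *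
        aL Λ R (2 * (k + l) + 1 + m) (L.Yp (2 * (k + l) + 1) (univ.map (eP (k + l)))
          (univ.map (eQ (k + l))))) = 0 := h
      rw [h', zero_mul]
    clear h
    rename' hτ => h
    let v' : Fin (2 * (k + l) + 1 + m + 1) → R := fun i =>
      if h : i.val = 0 then 1 else v ⟨i.val - 1, by omega⟩
    let r' : Fin (2 * (k + l) + 1 + m) → R := fun i =>
      if h : i.val = 0 then 1 else r ⟨i.val - 1, by omega⟩
    have h1 : D • (aL Λ R (2 * (k + l) + 1 + m) (plL Λ (ph1 (2 * (k + l)) m)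
        (Y0 * MonoidAlgebra.of Λ _ τ)) (monV v' 1)).1
        (Function.update r' (phL (2 * (k + l) + 1) m 0)
          (r' (phL (2 * (k + l) + 1) m 0) * FA.lift a g)) = 0 :=
      congrFun (congrArg Subtype.val (LinearMap.congr_fun h (monV v' 1))) r'
    rw [aL_fv, fv_pl] at h1
    have e1 : v' 0 = 1 := dif_pos rfl
    have e2 : (phL (2 * (k + l) + 1) m 0) = (⟨0, by omega⟩ : Fin (2 * (k + l) + 1 + m)) := rfl
    have e3 : r' ⟨0, by omega⟩ = 1 := dif_pos rfl
    rw [e2, Function.update_self, e1, e3, one_mul, one_mul] at h1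
    have e4 : (fun i : Fin (2 * (k + l) + m + 1) => v' ⟨i.val + 1, by omega⟩) = v := by
      funext i
      change (if h : i.val + 1 = 0 then 1 else v ⟨i.val + 1 - 1, by omega⟩) = _
      rw [dif_neg (by omega)]
      rfl
    have e5 : Function.update r' ⟨0, by omega⟩ (FA.lift a g) ∘ ph1 (2 * (k + l)) m = r := by
      funext i
      have h2 : ph1 (2 * (k + l)) m i ≠ ⟨0, by omega⟩ := by
        intro h3
        have := congrArg Fin.val h3
        rw [ph1_val] at this
        simp at this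
      rw [Function.comp_apply, Function.update_of_ne h2]
      change (if h : (ph1 (2 * (k + l)) m i).val = 0 then 1 else
        r ⟨(ph1 (2 * (k + l)) m i).val - 1, by omega⟩) = _
      rw [dif_neg (by rw [ph1_val]; omega)]
      rfl
    rw [e4, e5] at h1
    exact h1

end CatL

/-! ### the localisation of `ℤ` at a prime -/

section ap

open Pool.PI34.T2 (cop smon cop_one cop_mul Inv)

variable (p : ℕ) [hp : Fact p.Prime]

/-- the denominators -/
def MpA : Submonoid ℤ := smon (cop p) (cop_one hp.out) (cop_mul hp.out)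

/-- `ℤ` localised at the prime `p` -/
def Ap : Type := Localization (MpA p)

noncomputable instance : CommRing (Ap p) := inferInstanceAs (CommRing (Localization (MpA p)))

instance : IsLocalization (MpA p) (Ap p) := by
  have h : IsLocalization (MpA p) (Localization (MpA p)) := inferInstance
  convert! h
  exact Subsingleton.elim (α := Algebra ℤ (Ap p)) _ _

theorem cop_ne {s : ℕ} (hs : s ∈ cop p) : s ≠ 0 := by
  rintro rfl
  exact hs (dvd_zero p)

/-- the embedding in `ℚ` -/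
noncomputable def jA : Ap p →+* ℚ :=
  IsLocalization.lift (M := MpA p) (g := Int.castRingHom ℚ) (by
    rintro ⟨_, s, hs, rfl⟩
    rw [eq_intCast, Int.cast_natCast]
    exact (Nat.cast_ne_zero.2 (cop_ne p hs)).isUnit)

theorem jA_int (n : ℤ) : jA p (algebraMap ℤ (Ap p) n) = n := by
  unfold jA
  rw [IsLocalization.lift_eq]
  rfl

/-- the reduction -/
noncomputable def rA : Ap p →+* ZMod p :=
  IsLocalization.lift (M := MpA p) (g := Int.castRingHom (ZMod p)) (by
    rintro ⟨_, s, hs, rfl⟩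
    rw [eq_intCast, Int.cast_natCast]
    have h : ((s : ℕ) : ZMod p) ≠ 0 := fun h => hs ((ZMod.natCast_eq_zero_iff _ _).1 h)
    exact h.isUnit)

theorem rA_int (n : ℤ) : rA p (algebraMap ℤ (Ap p) n) = n := by
  unfold rA
  rw [IsLocalization.lift_eq]
  rfl

noncomputable instance : Algebra (Ap p) ℚ := (jA p).toAlgebra

noncomputable instance : Algebra (Ap p) (ZMod p) := (rA p).toAlgebra

/-- every element is a fraction -/
theorem Ap_frac (a : Ap p) : ∃ s ∈ cop p, ∃ n : ℤ, a * algebraMap ℤ (Ap p) s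
    = algebraMap ℤ (Ap p) n := by
  obtain ⟨⟨n, ⟨_, s, hs, rfl⟩⟩, h⟩ := IsLocalization.surj (MpA p) a
  exact ⟨s, hs, n, h⟩

theorem Ap_unit {s : ℕ} (hs : s ∈ cop p) : IsUnit (algebraMap ℤ (Ap p) s) :=
  IsLocalization.map_units (Ap p) (⟨(s : ℤ), s, hs, rfl⟩ : MpA p)

instance : SK.PInt p (Ap p) where
  inj := by
    rw [injective_iff_map_eq_zero]
    intro a ha
    obtain ⟨s, hs, n, h⟩ := Ap_frac p a
    have h1 : jA p (a * algebraMap ℤ (Ap p) s) = (n : ℚ) := by rw [h, jA_int]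
    have ha' : jA p a = 0 := ha
    rw [map_mul, ha', zero_mul] at h1
    have hn : n = 0 := by exact_mod_cast h1.symm
    rw [hn, map_zero] at h
    exact ((Ap_unit p hs).mul_left_eq_zero).1 h
  unit := by
    intro a ha
    obtain ⟨s, hs, n, h⟩ := Ap_frac p a
    have ha' : rA p a ≠ 0 := ha
    have h1 : rA p a * (s : ZMod p) = (n : ZMod p) := by
      have h2 := congrArg (rA p) h
      rw [map_mul, rA_int, rA_int] at h2
      rw [← h2]
      push_cast
      rfl
    have hs' : (s : ZMod p) ≠ 0 := fun h => hs ((ZMod.natCast_eq_zero_iff _ _).1 h)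
    have hn : (n : ZMod p) ≠ 0 := by
      rw [← h1]
      exact mul_ne_zero ha' hs'
    have hn2 : n.natAbs ∈ cop p := by
      intro h2
      apply hn
      rw [ZMod.intCast_zmod_eq_zero_iff_dvd]
      exact Int.natCast_dvd.2 h2
    have hn3 : IsUnit (algebraMap ℤ (Ap p) n) := by
      rcases Int.natAbs_eq n with h2 | h2
      · rw [h2]
        exact Ap_unit p hn2
      · rw [h2, map_neg]
        exact (Ap_unit p hn2).neg
    rw [← h] at hn3
    exact isUnit_of_mul_isUnit_left hn3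

variable {p}
variable {G : Type} [Group G]

/-- base change to `A[G]` -/
noncomputable def icA (p : ℕ) [Fact p.Prime] (G : Type) [Group G] :
    MonoidAlgebra ℤ G →+* MonoidAlgebra (Ap p) G :=
  MonoidAlgebra.mapRingHom G (algebraMap ℤ (Ap p))

theorem icA_of (g : G) : icA p G (MonoidAlgebra.of ℤ G g) = MonoidAlgebra.of (Ap p) G g := by
  simp [icA, MonoidAlgebra.of_apply]

theorem icA_coeff (y : MonoidAlgebra ℤ G) (g : G) :
    (icA p G y).coeff g = algebraMap ℤ (Ap p) (y.coeff g) := by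
  unfold icA
  rw [MonoidAlgebra.coeff_mapRingHom]

theorem icA_smul (n : ℤ) (y : MonoidAlgebra ℤ G) :
    icA p G (n • y) = (algebraMap ℤ (Ap p) n) • icA p G y := by
  rw [map_zsmul, eq_intCast, Int.cast_smul_eq_zsmul]

theorem mj_icA (y : MonoidAlgebra ℤ G) : mj (jA p) G (icA p G y) = bc y := by
  ext g
  unfold mj bc
  rw [MonoidAlgebra.coeff_mapRingHom, icA_coeff, MonoidAlgebra.coeff_mapRingHom, jA_int]
  rfl

theorem clrA (y : MonoidAlgebra (Ap p) G) : ∃ s ∈ cop p, ∃ y' : MonoidAlgebra ℤ G,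
    icA p G y' = (algebraMap ℤ (Ap p) s) • y := by
  induction y using MonoidAlgebra.induction_on with
  | of g => exact ⟨1, cop_one hp.out, MonoidAlgebra.of ℤ G g, by
      rw [icA_of, Nat.cast_one, map_one, one_smul]⟩
  | add x y hx hy =>
    obtain ⟨a, ha, x', hx'⟩ := hx
    obtain ⟨b, hb, y', hy'⟩ := hy
    refine ⟨a * b, cop_mul hp.out a ha b hb, (b : ℤ) • x' + (a : ℤ) • y', ?_⟩
    rw [map_add, icA_smul, icA_smul, hx', hy', smul_smul, smul_smul, smul_add, Nat.cast_mul,
      map_mul, mul_comm (algebraMap ℤ (Ap p) b)]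
  | smul r x hx =>
    obtain ⟨a, ha, x', hx'⟩ := hx
    obtain ⟨s, hs, c, hc⟩ := Ap_frac p r
    refine ⟨s * a, cop_mul hp.out s hs a ha, c • x', ?_⟩
    rw [icA_smul, hx', smul_smul, smul_smul, ← hc, Nat.cast_mul, map_mul]
    congr 1
    ring

variable {U : Type} [Ring U]

/-- the algebra structure -/
noncomputable def fA (hU : Inv (cop p) U) : Ap p →+* Subring.center U :=
  IsLocalization.lift (M := MpA p) (g := Int.castRingHom (Subring.center U)) (by
    rintro ⟨_, s, hs, rfl⟩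
    obtain ⟨u, hu⟩ := hU s hs
    have h1 : (u : U) ∈ Set.center U := by
      rw [hu]
      exact Set.natCast_mem_center U s
    refine IsUnit.of_mul_eq_one (⟨(u⁻¹ : Uˣ), Set.units_inv_mem_center h1⟩ : Subring.center U) ?_
    apply Subtype.ext
    rw [eq_intCast, Int.cast_natCast]
    change ((s : Subring.center U) : U) * ((u⁻¹ : Uˣ) : U) = 1
    have h2 : ((s : Subring.center U) : U) = (s : U) := by push_cast; rfl
    rw [h2, ← hu, Units.mul_inv])

/-- the algebra structure -/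
@[instance_reducible] noncomputable def algA (hU : Inv (cop p) U) : Algebra (Ap p) U :=
  RingHom.toAlgebra' ((Subring.center U).subtype.comp (fA hU)) (fun c x => by
    have := (fA hU c).2
    rw [Subring.mem_center_iff] at this
    exact (this x).symm)

theorem fv_icA {N : ℕ} [Algebra (Ap p) U] (y : MonoidAlgebra ℤ (Perm (Fin N)))
    (v : Fin (N + 1) → U) (r : Fin N → U) : fv (icA p _ y) v r = fv y v r := by
  unfold fv
  refine Finset.sum_congr rfl (fun σ _ => ?_)
  rw [icA_coeff, eq_intCast, Int.cast_smul_eq_zsmul]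

theorem typeA_of (hU : Inv (cop p) U) {k l n : ℕ} (h : KN 1 k l n U) :
    @TypeKL (Ap p) _ (jA p) k l n U _ (algA hU) := by
  let _ := algA hU
  intro y hy v r
  obtain ⟨s, hs, y', hy'⟩ := clrA y
  have h1 : act k l _ (bc y') = 0 := by
    rw [← mj_icA (p := p), hy', mj_smul, map_smul, hy, smul_zero]
  have h2 := h y' h1 v r
  rw [one_smul, ← fv_icA (p := p), hy', fv_lsmul] at h2
  obtain ⟨u, hu⟩ := Ap_unit p hs
  rw [← hu] at h2
  have h4 := congrArg (fun x => ((u⁻¹ : (Ap p)ˣ) : Ap p) • x) h2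
  simp only [smul_smul, Units.inv_mul, one_smul, smul_zero] at h4
  exact h4

/-- catalysts for the prime `p` -/
def HasCat (p : ℕ) [Fact p.Prime] (k l : ℕ) : Prop :=
  ∃ (m : ℕ) (C : CatP k l m) (z : MonoidAlgebra (Ap p) (Perm (Fin m)))
      (E : MonoidAlgebra (Ap p) (Perm (Fin (m + 1)))),
      C.z = MonoidAlgebra.mapRingHom _ (algebraMap (Ap p) ℚ) z ∧
      C.E = MonoidAlgebra.mapRingHom _ (algebraMap (Ap p) ℚ) E

/-- THE ENGINE at the prime `p`. -/
theorem engine_p {k l : ℕ} (hkl : 0 < k + l) (hcat : HasCat p k l) (hH : HMain p (k + l)) :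
    T2.Engine (cop p) k l := by
  obtain ⟨m, C, zL, EL, hz, hE⟩ := hcat
  obtain ⟨D, hD, hHD⟩ := hH
  let L : CatL (jA p) k l m := ⟨C, zL, EL, hz.symm, hE.symm⟩
  obtain ⟨Y0, hY0, h⟩ := L.P3D hHD hkl
  obtain ⟨s, hs, y0, hy0⟩ := clrA Y0
  refine ⟨fun X => (SS.QI (k + l) X : Ideal (FA X)), 2 * (k + l) + 1 + m, _, D • y0,
    ?_, ?_, ?_⟩
  · intro X
    refine ⟨(inferInstance : (SS.QI (k + l) X).IsTwoSided), ?_, ?_⟩
    · intro m g hm hg
      exact SS.QQ_pure (k + l) X m g hm hg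
    · obtain ⟨d, a, ha, h1⟩ := SS.QQ_MPI (k + l)
      exact ⟨d, a, ha, fun x => h1 X x⟩
  · rw [map_nsmul, map_nsmul, ← mj_icA (p := p), hy0, mj_smul, map_smul, jA_int,
      ← Nat.cast_smul_eq_nsmul ℚ, smul_smul]
    intro h1
    rcases smul_eq_zero.1 h1 with h2 | h2
    · have h3 : (D : ℚ) ≠ 0 := by exact_mod_cast hD.ne'
      have h4 : (((s : ℕ) : ℤ) : ℚ) ≠ 0 := by exact_mod_cast cop_ne p hs
      exact (mul_ne_zero h3 h4) h2
    · exact hY0 h2
  · intro U _ hU hT X π g hg τ v r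
    let _ := algA hU
    have hinv : ∀ s : ℕ, ¬ p ∣ s → ∀ x : U, s • x = 0 → x = 0 := fun s hs x hx =>
      T2.Inv.cancel hU hs hx
    have h1 := SS.FA.ext (A := U) π (SS.FA.lift (fun x => π (FreeAlgebra.ι ℤ x)))
      (fun x => by rw [SS.FA.lift_of]; rfl) g
    have h2 := h U (typeA_of hU (hT _ le_rfl)) hinv g hg (fun x => π (FreeAlgebra.ι ℤ x)) τ v r
    have h3 : icA p _ (D • y0 * MonoidAlgebra.of ℤ _ τ)
        = ((algebraMap ℤ (Ap p) s) * (D : Ap p)) • (Y0 * MonoidAlgebra.of (Ap p) _ τ) := by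
      rw [map_mul, map_nsmul, hy0, icA_of, smul_mul_assoc, smul_mul_assoc,
        ← Nat.cast_smul_eq_nsmul (Ap p), smul_smul, mul_comm (D : Ap p)]
    have h4 : SS.FA.lift (fun x => π (FreeAlgebra.ι ℤ x)) g *
        fv (D • y0 * MonoidAlgebra.of ℤ _ τ) v r = 0 := by
      rw [← fv_icA (p := p), h3, fv_lsmul, mul_smul_comm, mul_smul, Nat.cast_smul_eq_nsmul, h2,
        smul_zero]
    exact (congrArg (fun t : U => t * fv (D • y0 * MonoidAlgebra.of ℤ _ τ) v r) h1).trans h4

end ap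

end Pool.PI34.Super
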