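import Pool.Agent.LibPI34.T3_K
import Pool.Agent.LibPI34.T3_Eng
import Pool.Agent.LibPI34.S2_Main
import Pool.Agent.LibPI34.SKL

/-!
PI34, THEOREM T3, in the form with chains of ideals: all the odd primes have engines.
-/

set_option autoImplicit false

namespace Pool.PI34.T3

open Pool.PI34.T1

/-- (H4) -/
theorem hmain (p : ℕ) (hp : p.Prime) (K : ℕ) : Super.HMain p K := by
  obtain ⟨D, hD, h⟩ := SS.main' K p hp.one_lt.le
  refine ⟨D, hD, ?_⟩
  intro n Φ U _ _ S hA e e' hF hinv X g hg r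
  refine h S hA e e' hF (fun m hm x hx => hinv m (fun hpm => ?_) x hx) g hg r
  exact hp.one_lt.ne' (Nat.dvd_one.1 ((Nat.Coprime.dvd_of_dvd_mul_left
    (n := 1) hm.symm (by simpa using hpm))))

/-- the engines at the odd primes -/
theorem engine (p : ℕ) (hp : p.Prime) (hp2 : p ≠ 2) (k l : ℕ) (hk : 0 < k) :
    T2.Engine (T2.cop p) k l := by
  have : Fact p.Prime := ⟨hp⟩
  exact Super.engine_p (by omega) (SK.exists_catP hp2 (Super.Ap p) k l) (hmain p hp (k + l))

/-- THEOREM T3 (form with a chain of ideals) -/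
theorem cover2 (R : Type) [NonUnitalRing R] (hPI : PIid R) (c : ℕ) (Q : Fin (c + 1) → Type)
    [∀ i, NonUnitalRing (Q i)] (f : ∀ i, R →ₙ+* Q i) (hf : ∀ i, Function.Surjective (f i))
    (hprod : ∀ a : Fin (c + 1) → R, (∀ i, f i (a i) = 0) →
      (List.ofFn fun i : Fin c => a i.succ).foldl (fun u v => u * v) (a 0) = 0)
    (hQ : ∀ i, (∃ e : ℕ, ∀ (y : Q i) (m : ℕ), 2 ^ m • y = 0 → 2 ^ e • y = 0) ∨ CapN (Q i)) :
    Im R := by
  refine T2.cover {p | p ≠ 2} (fun p hp hpp k l hk _ => engine p hpp hp k l hk) R hPI c Q f hf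
    hprod (fun i => ?_)
  rcases hQ i with h | h
  · refine Or.inl fun p _ hp => ?_
    have hp2 : p = 2 := by
      by_contra h2
      exact hp h2
    subst hp2
    exact h
  · exact Or.inr h

end Pool.PI34.T3
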