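import Pool.Agent.LibPI34.T2_G
import Pool.Agent.LibPI34.T2_P
import Pool.Agent.LibPI34.T2_E

/-!
PI34, theorem T3, file K: the final theorem for all the maps of free rings to `Un R`, and the version for chains of ideals.
-/

set_option autoImplicit false

namespace Pool.PI34.T2

open Equiv Finset
open Pool.PI34.C0 Pool.PI34.T1
open Pool.PI34.Super (act bc fv KN mm)

/-- THE FINAL THEOREM -/
theorem finalK
    (hcl : ∀ (S : Set ℕ) (k l : ℕ), (∀ k' l', 0 < k' → k' ≤ k → 0 < l' → l' ≤ l →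
      Engine S k' l') → Claim S k l)
    (hP3 : ∀ k l : ℕ, 0 < k → 0 < l → ∃ D : ℕ, 0 < D ∧ Engine {D} k l) (d : ℕ) :
    ∃ N0 : ℕ, 0 < N0 ∧ ∀ P : Set ℕ,
      (∀ p ∈ P, p.Prime → ∀ k l, 0 < k → 0 < l → Engine (cop p) k l) →
      ∀ (R : Type) [NonUnitalRing R] (a : Perm (Fin (d + 1)) → ℤ), a 1 = 1 →
      (∀ x : Fin (d + 1) → R, ∑ σ : Perm (Fin (d + 1)),
        a σ • ((List.ofFn (fun i : Fin d => x (σ i.succ))).foldl
          (fun u v => u * v) (x (σ 0))) = 0) →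
      (∀ p : ℕ, p.Prime → p ∣ N0 → p ∉ P → ∃ e : ℕ, ∀ (r : R) (m : ℕ),
        p ^ m • r = 0 → p ^ e • r = 0) →
      ∀ (X : Type) (π : FreeAlgebra ℤ X →+* Un R), Kills π := by
  classical
  obtain ⟨k, hk, hstart⟩ := Super.start_Q ((d + 1) * 1 + d)
  choose D hD hE using fun i j : ℕ => hP3 (i + 1) (j + 1) (Nat.succ_pos _) (Nat.succ_pos _)
  set N0 := ∏ i ∈ range k, ∏ j ∈ range k, D i j with hN0def
  have hN0 : 0 < N0 := Finset.prod_pos (fun i _ => Finset.prod_pos (fun j _ => hD i j))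
  have hdvd : ∀ i < k, ∀ j < k, D i j ∣ N0 := by
    intro i hi j hj
    exact (Finset.dvd_prod_of_mem (fun j => D i j) (Finset.mem_range.2 hj)).trans
      (Finset.dvd_prod_of_mem (fun i => ∏ j ∈ range k, D i j) (Finset.mem_range.2 hi))
  have hC0 : Claim (pw N0) k k := by
    apply hcl
    intro k' l' hk1 hk2 hl1 hl2
    obtain ⟨i, rfl⟩ := Nat.exists_eq_succ_of_ne_zero hk1.ne'
    obtain ⟨j, rfl⟩ := Nat.exists_eq_succ_of_ne_zero hl1.ne'
    refine Engine_mono (fun U _ hU s hs => ?_) (hE i j)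
    rw [Set.mem_singleton_iff.1 hs]
    exact isUnit_dvd (hdvd i (by omega) j (by omega)) (hU N0 ⟨1, (pow_one N0).symm⟩)
  refine ⟨N0, hN0, fun P hP R _ a ha hid htor => ?_⟩
  have hid' := (piid_iff R d a).1 hid
  obtain ⟨a', ha', hPI'⟩ := mpi_sub' (RU R) (aug_RU R) d a ha hid'
  have hPIU : PIU (Un R) := ⟨_, a', ha', hPI'⟩
  have hQ : ∀ q, QTyp k k q (Un R) := fun q => hstart (Un R) a' ha' hPI' q
  have htor' : ∀ p : ℕ, ∃ e : ℕ, p.Prime → p ∣ N0 → p ∉ P → ∀ (r : R) (m : ℕ),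
      p ^ m • r = 0 → p ^ e • r = 0 := by
    intro p
    by_cases h1 : p.Prime ∧ p ∣ N0 ∧ p ∉ P
    · obtain ⟨e, he⟩ := htor p h1.1 h1.2.1 h1.2.2
      exact ⟨e, fun _ _ _ => he⟩
    · exact ⟨0, fun h2 h3 h4 => absurd ⟨h2, h3, h4⟩ h1⟩
  choose e he using htor'
  set B := N0.primeFactors.filter (· ∉ P) with hB
  have hBm : ∀ p, p ∈ B ↔ p.Prime ∧ p ∣ N0 ∧ p ∉ P := by
    intro p
    rw [hB, Finset.mem_filter, Nat.mem_primeFactors]
    exact ⟨fun h => ⟨h.1.1, h.1.2.1, h.2⟩, fun h => ⟨⟨h.1, h.2.1, hN0.ne'⟩, h.2.2⟩⟩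
  set N := ∏ p ∈ B, p ^ (e p) with hN
  have hNpos : 0 < N := Finset.prod_pos (fun p hp => pow_pos ((hBm p).1 hp).1.pos _)
  have hNR : ∀ p ∈ B, ∀ r : R, N • p • r = 0 → N • r = 0 := by
    intro p hp r hr
    refine bounded B e (fun p hp => he p ((hBm p).1 hp).1 ((hBm p).1 hp).2.1 ((hBm p).1 hp).2.2)
      ((∑ p ∈ B, e p) + 1) r ?_
    have h1 : N * p ∣ ∏ p ∈ B, p ^ ((∑ p ∈ B, e p) + 1) := by
      have h2 : N * p = ∏ p' ∈ B, (p' ^ (e p') * if p' = p then p else 1) := by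
        rw [Finset.prod_mul_distrib, Finset.prod_ite_eq' B p, if_pos hp]
      rw [h2]
      refine Finset.prod_dvd_prod_of_dvd _ _ (fun p' hp' => ?_)
      have h3 : e p' ≤ ∑ p ∈ B, e p := Finset.single_le_sum (fun _ _ => Nat.zero_le _) hp'
      rw [pow_succ]
      refine mul_dvd_mul (pow_dvd_pow _ h3) ?_
      split_ifs with h4
      · rw [h4]
      · exact one_dvd _
    obtain ⟨c, hc⟩ := h1
    rw [hc, mul_comm, mul_smul, mul_smul, hr, smul_zero]
  intro X π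
  have h2s : (G_mulI (RU R) (aug_RU R) N).IsTwoSided := G_twoSided (RU R) (aug_RU R) N
  refine kills_of_mul π (Ideal.Quotient.mk (AnnI (Un R) N))
    (Ideal.Quotient.mk (G_mulI (RU R) (aug_RU R) N)) ?_ ?_ ?_
  · intro x y hx hy
    rw [Ideal.Quotient.eq_zero_iff_mem] at hx hy
    rw [mem_AnnI] at hx
    obtain ⟨r, _, rfl⟩ := (G_mem_mulI (RU R) (aug_RU R) N y).1 hy
    rw [← mul_assoc, ← (Nat.cast_commute N x).eq, ← nsmul_eq_mul, hx, zero_mul]
  · have hsurj : Function.Surjective (Ideal.Quotient.mk (AnnI (Un R) N)) :=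
      Ideal.Quotient.mk_surjective
    refine kills_good hN0 hC0 P (fun p hp hpp _ => hcl _ k k (fun k' l' h1 _ h2 _ =>
      hP p hp hpp k' l' h1 h2)) (PIU_surj _ hsurj hPIU) (fun q => QTyp_surj _ hsurj (hQ q)) ?_ _
    intro p hp hpN hpP u hu
    obtain ⟨w, rfl⟩ := hsurj u
    rw [← map_nsmul, Ideal.Quotient.eq_zero_iff_mem, mem_AnnI] at hu
    rw [Ideal.Quotient.eq_zero_iff_mem, mem_AnnI]
    have h1 : fstU R w = 0 := by
      have h2 := congrArg (fstU R) hu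
      rw [map_nsmul, map_nsmul, map_zero, smul_smul, nsmul_eq_mul] at h2
      rcases mul_eq_zero.1 h2 with h3 | h3
      · have : N * p ≠ 0 := (Nat.mul_pos hNpos hp.pos).ne'
        exact absurd (by exact_mod_cast h3) this
      · exact h3
    obtain ⟨r, rfl⟩ := (mem_RU R w).1 h1
    rw [← map_nsmul, ← map_nsmul] at hu
    have h4 : N • p • r = 0 := inU_injective R (hu.trans (map_zero _).symm)
    rw [← map_nsmul, hNR p ((hBm p).2 ⟨hp, hpN, hpP⟩) r h4, map_zero]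
  · have hsurj : Function.Surjective (Ideal.Quotient.mk (G_mulI (RU R) (aug_RU R) N)) :=
      Ideal.Quotient.mk_surjective
    refine kills_of_char N hNpos ((RU R).map (Ideal.Quotient.mk (G_mulI (RU R) (aug_RU R) N)))
      (G_aug_map (RU R) (aug_RU R) _ hsurj) _ d a ha (G_pi_map (RU R) _ d a hid') ?_
    rintro _ ⟨r, hr, rfl⟩
    change (N : Un R ⧸ G_mulI (RU R) (aug_RU R) N) *
      Ideal.Quotient.mk (G_mulI (RU R) (aug_RU R) N) r = 0
    rw [← map_natCast (Ideal.Quotient.mk (G_mulI (RU R) (aug_RU R) N)) N, ← map_mul,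
      Ideal.Quotient.eq_zero_iff_mem]
    exact ⟨r, hr, rfl⟩


/-- THE COVER THEOREM.  `P` = a set of primes with engines.  Let `R` be a PI ring with ideals `J_0, …, J_c` with product
zero such that every `R/J_i` satisfies a Capelli identity or has bounded `p`-primary torsion for all primes `p ∉ P`.
Then `R` is an image of a torsion free PI ring. -/
theorem cover (P : Set ℕ)
    (hP : ∀ p ∈ P, p.Prime → ∀ k l, 0 < k → 0 < l → Engine (cop p) k l)
    (R : Type) [NonUnitalRing R] (hPI : PIid R) (c : ℕ) (Q : Fin (c + 1) → Type)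
    [∀ i, NonUnitalRing (Q i)] (f : ∀ i, R →ₙ+* Q i) (hf : ∀ i, Function.Surjective (f i))
    (hprod : ∀ a : Fin (c + 1) → R, (∀ i, f i (a i) = 0) →
      (List.ofFn fun i : Fin c => a i.succ).foldl (fun u v => u * v) (a 0) = 0)
    (hQ : ∀ i, (∀ p : ℕ, p.Prime → p ∉ P → ∃ e : ℕ, ∀ (y : Q i) (m : ℕ),
      p ^ m • y = 0 → p ^ e • y = 0) ∨ CapN (Q i)) : Im R := by
  apply im_of_kills
  apply kills_family R c Q f hprod
  intro i
  obtain ⟨d, a, ha, hid⟩ := hPI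
  have hidU := (piid_iff R d a).1 hid
  have hidQ : ∀ x : Fin (d + 1) → Un (Q i), (∀ j, x j ∈ RU (Q i)) →
      ∑ σ, a σ • mono x σ = 0 := by
    intro y hy
    have h1 : ∀ j, ∃ r, inU (Q i) r = y j := fun j => (mem_RU (Q i) _).1 (hy j)
    choose r hr using h1
    have h2 : ∀ j, ∃ s, f i s = r j := fun j => hf i (r j)
    choose s hs using h2
    have h3 := congrArg (unMap (f i)) (hidU (fun j => inU R (s j))
      (fun j => (mem_RU R _).2 ⟨_, rfl⟩))
    rw [map_sum, map_zero] at h3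
    rw [← h3]
    refine Finset.sum_congr rfl fun σ _ => ?_
    rw [map_zsmul, mono, mono, map_list_prod, List.map_ofFn]
    refine congrArg (fun w => a σ • (List.ofFn w).prod) ?_
    funext j
    change y (σ j) = unMap (f i) (inU R (s (σ j)))
    rw [unMap_inU, hs, hr]
  rcases hQ i with htor | hcap
  · obtain ⟨N0, _, h⟩ := finalK claim_of_engine (fun k l hk _ => engine_P3 k l (by omega)) d
    exact h P hP (Q i) a ha ((piid_iff (Q i) d a).2 hidQ) (fun p hp _ hpP => htor p hp hpP) _ _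
  · obtain ⟨n, hn⟩ := (capN_iff (Q i)).1 hcap
    exact kills_of_capIn (RU (Q i)) (aug_RU (Q i)) _ n hn

end Pool.PI34.T2
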