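import Pool.Agent.LibPI34.V_Jw

/-!
PI34, block VAL, file 5: the exotic flip of two neighbouring places.
-/

set_option autoImplicit false
set_option linter.unusedSectionVars false

namespace Pool.PI34.VL

open Equiv Finset Matrix
open Pool.PI34.BA

section flip

variable {n : ℕ}

/-! ### the action of the operators -/

theorem ap_mul (e e' : GG n) (v : (Fin n → Fin 3) → C2) : ap (e * e') v = ap e (ap e' v) := rfl

theorem ap_one (v : (Fin n → Fin 3) → C2) : ap (1 : GG n) v = v := rfl

theorem ap_zero (v : (Fin n → Fin 3) → C2) : ap (0 : GG n) v = 0 := rfl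

theorem ap_sub (e e' : GG n) (v : (Fin n → Fin 3) → C2) : ap (e - e') v = ap e v - ap e' v := rfl

theorem ap_add (e e' : GG n) (v : (Fin n → Fin 3) → C2) : ap (e + e') v = ap e v + ap e' v := rfl

theorem ap_pl (l : Fin n) (M : Matrix (Fin 3) (Fin 3) C2) (v : (Fin n → Fin 3) → C2)
    (f : Fin n → Fin 3) : ap (pl l M) v f = ∑ d, M (f l) d * v (Function.update f l d) := rfl

theorem ap_pm (σ : Perm (Fin n)) (v : (Fin n → Fin 3) → C2) (f : Fin n → Fin 3) :
    ap (pm σ) v f = v (f ∘ σ) := rfl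

/-! ### the flip -/

/-- `δ_i δ_j` commutes with all `P_l` -/
theorem dd_Te (i j l : Fin n) :
    pl i Dl * pl j Dl * pl l Te = pl l Te * (pl i Dl * pl j Dl) := by
  have h : ∀ i : Fin n, pl i Dl * pl l Te = pl l Te * pl i Dl := by
    intro i
    by_cases h : i = l
    · rw [h, ← map_mul, ← map_mul, Dl_Te, Te_Dl]
    · exact pl_comm h _ _
  rw [mul_assoc, h j, ← mul_assoc, h i, mul_assoc]

/-- the flip of the places `i` and `j` -/
noncomputable def fl (i j : Fin n) : GG n := pm (swap i j) * (1 - pl i Dl * pl j Dl)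

theorem pm_one : (pm (1 : Perm (Fin n)) : GG n) = 1 := rfl

theorem pm_mul (σ τ : Perm (Fin n)) : (pm (σ * τ) : GG n) = pm σ * pm τ := rfl

theorem pm_dd {i j : Fin n} (h : i ≠ j) :
    pm (swap i j) * (pl i Dl * pl j Dl) = pl i Dl * pl j Dl * pm (swap i j) := by
  rw [← mul_assoc, pm_pl, swap_apply_left, mul_assoc, pm_pl, swap_apply_right, ← mul_assoc,
    pl_comm (Ne.symm h)]

theorem pm_one_sub {i j : Fin n} (h : i ≠ j) :
    pm (swap i j) * (1 - pl i Dl * pl j Dl) = (1 - pl i Dl * pl j Dl) * pm (swap i j) := by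
  rw [mul_sub, sub_mul, mul_one, one_mul, pm_dd h]

theorem dd_dd {i j : Fin n} (h : i ≠ j) :
    (pl i Dl * pl j Dl : GG n) * (pl i Dl * pl j Dl) = q2 • (q2 • (pl i Dl * pl j Dl)) := by
  rw [mul_assoc, ← mul_assoc (pl j Dl), pl_comm (Ne.symm h), mul_assoc (pl i Dl), ← map_mul,
    ← mul_assoc, ← map_mul, Dl_Dl, pl_smul, pl_smul, smul_mul_smul_comm, smul_smul]

theorem fl_fl {i j : Fin n} (h : i ≠ j) : (fl i j : GG n) * fl i j = 1 := by
  unfold fl
  have h1 : pm (swap i j) * (pm (swap i j) : GG n) = 1 := by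
    rw [← pm_mul, Equiv.swap_mul_self, pm_one]
  calc pm (swap i j) * (1 - pl i Dl * pl j Dl) * (pm (swap i j) * (1 - pl i Dl * pl j Dl))
      = pm (swap i j) * ((1 - pl i Dl * pl j Dl) * pm (swap i j)) *
          (1 - pl i Dl * pl j Dl) := by simp only [mul_assoc]
    _ = pm (swap i j) * pm (swap i j) * ((1 - pl i Dl * pl j Dl) * (1 - pl i Dl * pl j Dl)) := by
        rw [← pm_one_sub h]
        simp only [mul_assoc]
    _ = 1 := by
        rw [h1, one_mul, mul_sub, mul_one, sub_mul, one_mul, dd_dd h, q2_q2]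
        abel

theorem fl_opP {i j : Fin n} (l : Fin n) : fl i j * opP l = opP (swap i j l) * fl i j := by
  unfold fl opP
  rw [mul_assoc, sub_mul, one_mul, dd_Te]
  have h1 : pl l Te - pl l Te * (pl i Dl * pl j Dl) = pl l Te * (1 - pl i Dl * pl j Dl) := by
    rw [mul_sub, mul_one]
  rw [h1, ← mul_assoc, pm_pl, mul_assoc]

theorem dl_zt (i : Fin n) (m : ℕ) : pl i Dl * zt m = zt m * pl i Dl := by
  rw [zt_eq, mul_sub, sub_mul, mul_one, one_mul, mul_smul_comm, smul_mul_assoc]
  congr 2
  unfold dl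
  split_ifs with h
  · by_cases e : i = ⟨m, h⟩
    · rw [← e]
    · exact pl_comm e _ _
  · rw [mul_zero, zero_mul]

theorem dl_ZZ (i : Fin n) (m : ℕ) : pl i Dl * ZZ m = ZZ m * pl i Dl := by
  induction m with
  | zero => rw [ZZ, one_mul, mul_one]
  | succ m ih => rw [ZZ, ← mul_assoc, ih, mul_assoc, dl_zt, ← mul_assoc]

theorem dd_ZZ (i j : Fin n) (m : ℕ) :
    (1 - pl i Dl * pl j Dl) * ZZ m = ZZ m * (1 - pl i Dl * pl j Dl) := by
  rw [sub_mul, mul_sub, one_mul, mul_one, mul_assoc, dl_ZZ, ← mul_assoc, dl_ZZ, mul_assoc]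

theorem pm_zt_ne (σ : Perm (Fin n)) (m : ℕ) (h : ∀ (h1 : m < n), σ ⟨m, h1⟩ = ⟨m, h1⟩) :
    pm σ * zt m = zt m * pm σ := by
  unfold zt
  split_ifs with h1
  · rw [pm_pl, h h1]
  · rw [mul_one, one_mul]

theorem pm_ZZ_le {i j : Fin n} (hij : (j : ℕ) = i + 1) (m : ℕ) (h : m ≤ i) :
    pm (swap i j) * ZZ m = ZZ m * pm (swap i j) := by
  induction m with
  | zero => rw [ZZ, one_mul, mul_one]
  | succ m ih =>
    have h2 : pm (swap i j) * zt m = zt m * pm (swap i j) := by
      refine pm_zt_ne _ _ fun h1 => swap_apply_of_ne_of_ne ?_ ?_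
      · intro e
        have e1 : m = (i : ℕ) := congrArg Fin.val e
        omega
      · intro e
        have e1 : m = (j : ℕ) := congrArg Fin.val e
        omega
    rw [ZZ, ← mul_assoc, ih (by omega), mul_assoc, h2, ← mul_assoc]

theorem pm_ZZ_gt {i j : Fin n} (hij : (j : ℕ) = i + 1) (m : ℕ) (h : (j : ℕ) < m) :
    pm (swap i j) * ZZ m = ZZ m * pm (swap i j) := by
  induction m with
  | zero => exact absurd h (Nat.not_lt_zero _)
  | succ m ih =>
    by_cases e : (j : ℕ) = m
    · have e2 : m = (i : ℕ) + 1 := by omega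
      subst e2
      have hne : i ≠ j := fun h2 => by
        have h3 : (i : ℕ) = j := congrArg Fin.val h2
        omega
      have h3 : (zt ((i : ℕ) + 1) : GG n) = pl j Zt := by rw [← hij, zt_self]
      rw [ZZ, ZZ, h3, zt_self]
      calc pm (swap i j) * (ZZ (i : ℕ) * pl i Zt * pl j Zt)
          = (pm (swap i j) * ZZ (i : ℕ)) * (pl i Zt * pl j Zt) := by simp only [mul_assoc]
        _ = ZZ (i : ℕ) * ((pm (swap i j) * pl i Zt) * pl j Zt) := by
            rw [pm_ZZ_le hij _ le_rfl]
            simp only [mul_assoc]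
        _ = ZZ (i : ℕ) * (pl j Zt * (pm (swap i j) * pl j Zt)) := by
            rw [pm_pl, swap_apply_left]
            simp only [mul_assoc]
        _ = ZZ (i : ℕ) * (pl j Zt * pl i Zt * pm (swap i j)) := by
            rw [pm_pl, swap_apply_right]
            simp only [mul_assoc]
        _ = ZZ (i : ℕ) * pl i Zt * pl j Zt * pm (swap i j) := by
            rw [pl_comm (Ne.symm hne)]
            simp only [mul_assoc]
    · have h2 : pm (swap i j) * zt m = zt m * pm (swap i j) := by
        refine pm_zt_ne _ _ fun h1 => swap_apply_of_ne_of_ne ?_ ?_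
        · intro e
          have e1 : m = (i : ℕ) := congrArg Fin.val e
          omega
        · intro e3
          have e1 : m = (j : ℕ) := congrArg Fin.val e3
          omega
      rw [ZZ, ← mul_assoc, ih (by omega), mul_assoc, h2, ← mul_assoc]

theorem dd_pl_ne {i j l : Fin n} (h : i ≠ l) (h' : j ≠ l) (M : Matrix (Fin 3) (Fin 3) C2) :
    (1 - pl i Dl * pl j Dl) * pl l M = pl l M * (1 - pl i Dl * pl j Dl) := by
  rw [sub_mul, mul_sub, one_mul, mul_one, mul_assoc, pl_comm h', ← mul_assoc, pl_comm h,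
    mul_assoc]

/-- the middle case -/
theorem fl_opO_left {i j : Fin n} (hij : (j : ℕ) = i + 1) :
    fl i j * opO i = opO j * fl i j := by
  have hne : i ≠ j := fun h2 => by
    have h3 : (i : ℕ) = j := congrArg Fin.val h2
    omega
  have hZ : (ZZ (j : ℕ) : GG n) = ZZ (i : ℕ) * pl i Zt := by
    rw [hij, ZZ, zt_self]
  unfold fl opO
  rw [hZ]
  have h1 : (1 - pl i Dl * pl j Dl : GG n) * pl i To = pl i To * pl j Zt := by
    rw [sub_mul, one_mul, mul_assoc, pl_comm (Ne.symm hne), ← mul_assoc, ← map_mul, Dl_To,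
      pl_smul, smul_mul_assoc, Zt_eq, map_sub, map_one, pl_smul, mul_sub, mul_one, mul_smul_comm]
  have h2 : pl j To * (1 - pl i Dl * pl j Dl : GG n) = pl j To := by
    rw [mul_sub, mul_one, pl_comm hne, ← mul_assoc, ← map_mul, To_Dl, map_zero, zero_mul, sub_zero]
  calc pm (swap i j) * (1 - pl i Dl * pl j Dl) * (ZZ (i : ℕ) * pl i To)
      = pm (swap i j) * ((1 - pl i Dl * pl j Dl) * ZZ (i : ℕ)) * pl i To := by
        simp only [mul_assoc]
    _ = pm (swap i j) * ZZ (i : ℕ) * ((1 - pl i Dl * pl j Dl) * pl i To) := by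
        rw [dd_ZZ]
        simp only [mul_assoc]
    _ = ZZ (i : ℕ) * (pm (swap i j) * pl i To * pl j Zt) := by
        rw [h1, pm_ZZ_le hij _ le_rfl]
        simp only [mul_assoc]
    _ = ZZ (i : ℕ) * (pl j To * pl i Zt * pm (swap i j)) := by
        rw [pm_pl, swap_apply_left, mul_assoc, pm_pl, swap_apply_right]
        simp only [mul_assoc]
    _ = ZZ (i : ℕ) * pl i Zt * (pl j To * (1 - pl i Dl * pl j Dl)) * pm (swap i j) := by
        rw [h2, pl_comm (Ne.symm hne)]
        simp only [mul_assoc]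
    _ = ZZ (i : ℕ) * pl i Zt * pl j To * (pm (swap i j) * (1 - pl i Dl * pl j Dl)) := by
        rw [pm_one_sub hne]
        simp only [mul_assoc]

theorem fl_opO_far {i j : Fin n} (hij : (j : ℕ) = i + 1) (l : Fin n) (h1 : i ≠ l) (h2 : j ≠ l) :
    fl i j * opO l = opO l * fl i j := by
  have hne : i ≠ j := fun h2 => by
    have h3 : (i : ℕ) = j := congrArg Fin.val h2
    omega
  have hz : pm (swap i j) * ZZ (l : ℕ) = (ZZ (l : ℕ) : GG n) * pm (swap i j) := by
    by_cases h : (l : ℕ) ≤ i
    · exact pm_ZZ_le hij _ h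
    · refine pm_ZZ_gt hij _ ?_
      have h3 : (j : ℕ) ≠ l := fun e => h2 (Fin.ext e)
      omega
  have hl : swap i j l = l := swap_apply_of_ne_of_ne (Ne.symm h1) (Ne.symm h2)
  unfold fl opO
  calc pm (swap i j) * (1 - pl i Dl * pl j Dl) * (ZZ (l : ℕ) * pl l To)
      = pm (swap i j) * ((1 - pl i Dl * pl j Dl) * ZZ (l : ℕ)) * pl l To := by
        simp only [mul_assoc]
    _ = (pm (swap i j) * ZZ (l : ℕ)) * ((1 - pl i Dl * pl j Dl) * pl l To) := by
        rw [dd_ZZ]
        simp only [mul_assoc]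
    _ = ZZ (l : ℕ) * ((pm (swap i j) * pl l To) * (1 - pl i Dl * pl j Dl)) := by
        rw [hz, dd_pl_ne h1 h2]
        simp only [mul_assoc]
    _ = ZZ (l : ℕ) * pl l To * (pm (swap i j) * (1 - pl i Dl * pl j Dl)) := by
        rw [pm_pl, hl]
        simp only [mul_assoc]

theorem fl_opO {i j : Fin n} (hij : (j : ℕ) = i + 1) (l : Fin n) :
    fl i j * opO l = opO (swap i j l) * fl i j := by
  have hne : i ≠ j := fun h2 => by
    have h3 : (i : ℕ) = j := congrArg Fin.val h2
    omega
  by_cases h1 : i = l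
  · subst h1
    rw [swap_apply_left]
    exact fl_opO_left hij
  by_cases h2 : j = l
  · subst h2
    rw [swap_apply_right]
    have h3 := fl_opO_left (n := n) hij
    calc fl i j * opO j = fl i j * (opO j * fl i j) * fl i j := by
          rw [mul_assoc, mul_assoc, fl_fl hne, mul_one]
      _ = fl i j * (fl i j * opO i) * fl i j := by rw [h3]
      _ = opO i * fl i j := by rw [← mul_assoc, fl_fl hne, one_mul]
  · rw [swap_apply_of_ne_of_ne (Ne.symm h1) (Ne.symm h2)]
    exact fl_opO_far hij l h1 h2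

theorem fl_opQ {i j : Fin n} (hij : (j : ℕ) = i + 1) (l : Fin n) :
    fl i j * opQ l = opQ (swap i j l) * fl i j := by
  have h1 := fl_opO hij l
  rw [opO_eq, opO_eq, mul_add, add_mul, fl_opP, mul_smul_comm, smul_mul_assoc] at h1
  have h2 := add_left_cancel h1
  have h3 := cancelG (fl i j * opQ l - opQ (swap i j l) * fl i j) (by rw [smul_sub, h2, sub_self])
  exact sub_eq_zero.1 h3

/-! ### rows -/

/-- `w 0 = 0`, `w 1 = 1`, `w 2 = q` -/
def wt (a : Fin 3) : C2 := Dl a 2

theorem wt_one : wt 1 = 1 := by simp [wt, Dl]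

theorem wt_two : wt 2 = q2 := by simp [wt, Dl]

theorem wt_zero : wt 0 = 0 := by simp [wt, Dl]

theorem ap_Dl (l : Fin n) (v : (Fin n → Fin 3) → C2) (f : Fin n → Fin 3) :
    ap (pl l Dl) v f = wt (f l) * v (Function.update f l 2) := by
  rw [ap_pl, Fin.sum_univ_three]
  have h0 : ∀ a : Fin 3, Dl a 0 = 0 := by
    intro a
    fin_cases a <;> simp [Dl]
  have h1 : ∀ a : Fin 3, Dl a 1 = 0 := by
    intro a
    fin_cases a <;> simp [Dl]
  rw [h0, h1, zero_mul, zero_mul, zero_add, zero_add]
  rfl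

/-- the row of the flip -/
theorem ap_fl {i j : Fin n} (h : i ≠ j) (v : (Fin n → Fin 3) → C2) (f : Fin n → Fin 3) :
    ap (fl i j) v f = v (f ∘ swap i j) -
      wt (f i) * wt (f j) * v (Function.update (Function.update f i 2) j 2) := by
  unfold fl
  rw [ap_mul, ap_pm, ap_sub, ap_one, ap_mul, Pi.sub_apply, ap_Dl, ap_Dl]
  have h1 : (f ∘ swap i j) i = f j := by simp
  have h2 : Function.update (f ∘ swap i j) i 2 j = f i := by
    rw [Function.update_of_ne (Ne.symm h)]
    simp
  have h3 : Function.update (Function.update (f ∘ swap i j) i 2) j 2 =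
      Function.update (Function.update f i 2) j 2 := by
    funext l
    by_cases e1 : l = j
    · subst e1
      simp
    · rw [Function.update_of_ne e1, Function.update_of_ne e1]
      by_cases e2 : l = i
      · subst e2
        simp
      · rw [Function.update_of_ne e2, Function.update_of_ne e2, Function.comp_apply,
          swap_apply_of_ne_of_ne e2 e1]
  rw [h1, h2, h3]
  ring

/-- the vacuum is invariant under the flip -/
theorem fl_vac {i j : Fin n} (h : i ≠ j) :
    ap (fl i j) (Pi.single 0 1) = Pi.single 0 1 := by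
  funext f
  rw [ap_fl h]
  have h1 : Function.update (Function.update f i 2) j 2 ≠ 0 := by
    intro e
    have e2 := congrFun e j
    rw [Function.update_self, Pi.zero_apply] at e2
    exact absurd e2 (by decide)
  rw [Pi.single_eq_of_ne h1, mul_zero, sub_zero]
  by_cases hf : f = 0
  · subst hf
    rw [Pi.single_eq_same]
    exact Pi.single_eq_same (M := fun _ => C2) (0 : Fin n → Fin 3) 1
  · rw [Pi.single_eq_of_ne hf, Pi.single_eq_of_ne]
    intro e
    apply hf
    funext l
    have e2 := congrFun e (swap i j l)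
    rw [Function.comp_apply, swap_apply_self] at e2
    exact e2

/-- the state with the places `< l` unused and the other ones in the state `1` -/
def st (l : ℕ) : Fin n → Fin 3 := fun m => if (m : ℕ) < l then 0 else 1

theorem ap_opP_st (l : Fin n) (v : (Fin n → Fin 3) → C2) :
    ap (opP l) v (st l) = v (st (l + 1)) := by
  unfold opP
  have h1 : (st (l : ℕ) : Fin n → Fin 3) l = 1 := if_neg (lt_irrefl _)
  have h2 : Function.update (st (l : ℕ) : Fin n → Fin 3) l 0 = st (l + 1) := by
    funext m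
    by_cases e : m = l
    · subst e
      rw [Function.update_self]
      exact (if_pos (Nat.lt_succ_self _)).symm
    · rw [Function.update_of_ne e]
      have e1 : (m : ℕ) ≠ l := fun h => e (Fin.ext h)
      unfold st
      by_cases h3 : (m : ℕ) < l
      · rw [if_pos h3, if_pos (by omega)]
      · rw [if_neg h3, if_neg (by omega)]
  rw [ap_pl, h1, Fin.sum_univ_three, h2]
  simp [Te]

theorem ap_Zt_zero {m : Fin n} {f : Fin n → Fin 3} (h : f m = 0) (v : (Fin n → Fin 3) → C2) :
    ap (pl m Zt) v f = v f := by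
  rw [ap_pl, h, Fin.sum_univ_three]
  have h2 : Function.update f m 0 = f := by
    rw [← h, Function.update_eq_self]
  rw [h2]
  simp [Zt]

theorem ap_ZZ_zero (m : ℕ) {f : Fin n → Fin 3} (h : ∀ l : Fin n, (l : ℕ) < m → f l = 0)
    (v : (Fin n → Fin 3) → C2) : ap (ZZ m) v f = v f := by
  induction m generalizing v with
  | zero => rfl
  | succ m ih =>
    rw [ZZ, ap_mul, ih (fun l hl => h l (by omega))]
    unfold zt
    split_ifs with h1
    · exact ap_Zt_zero (h _ (Nat.lt_succ_self m)) v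
    · rfl

theorem ap_DD_zero (m : ℕ) {f : Fin n → Fin 3} (h : ∀ l : Fin n, (l : ℕ) < m → f l = 0)
    (v : (Fin n → Fin 3) → C2) : ap (DD m) v f = 0 := by
  induction m with
  | zero => rfl
  | succ m ih =>
    rw [DD, ap_add, Pi.add_apply, ih (fun l hl => h l (by omega)), zero_add, ap_mul,
      ap_ZZ_zero m (fun l hl => h l (by omega))]
    unfold dl
    split_ifs with h1
    · rw [ap_Dl, h _ (Nat.lt_succ_self m), wt_zero, zero_mul]
    · rfl

theorem ap_opQ_st (l : Fin n) (v : (Fin n → Fin 3) → C2) :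
    ap (opQ l) v (st l) = 0 := by
  unfold opQ
  have h1 : (st (l : ℕ) : Fin n → Fin 3) l = 1 := if_neg (lt_irrefl _)
  rw [ap_sub, Pi.sub_apply, ap_mul,
    ap_DD_zero (f := st (l : ℕ)) (l : ℕ) (fun m hm => if_pos hm), sub_zero, ap_pl, h1,
    Fin.sum_univ_three]
  simp [T1]

end flip

end Pool.PI34.VL
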