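import Pool.Agent.LibPI34.V_Rel

/-!
PI34, block VAL, file 4: the integral Jordan-Wigner operators.

One place has the states `0` (unused), `1` (the vector `v`), `2` (the vector `η v`), over
`ℤ[√2]`; `Te` : `0 ↦ 1`, `T1` : `0 ↦ 2`, `To = Te + q T1`, `Dl` : `2 ↦ q 2 + 1`, `Zt = 1 - q Dl`.
-/

set_option autoImplicit false
set_option linter.unusedSectionVars false

namespace Pool.PI34.VL

open Equiv Finset Matrix
open Pool.PI34.BA

/-- the coefficients `ℤ[√2]` -/
abbrev C2 : Type := QuadraticAlgebra ℤ 2 0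

/-- the square root of two -/
def q2 : C2 := ⟨0, 1⟩

theorem q2_sq : q2 * q2 = 2 := by
  ext
  · rw [QuadraticAlgebra.re_ofNat]
    simp [q2]
  · rw [QuadraticAlgebra.im_ofNat]
    simp [q2]

theorem q2_cancel (x : C2) (h : q2 * x = 0) : x = 0 := by
  have h1 := congrArg QuadraticAlgebra.re h
  have h2 := congrArg QuadraticAlgebra.im h
  simp [q2] at h1 h2
  ext
  · simpa using h2
  · simpa using h1

/-! ### one place -/

/-- `0 ↦ 1` -/
def Te : Matrix (Fin 3) (Fin 3) C2 := !![0, 0, 0; 1, 0, 0; 0, 0, 0]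

/-- `0 ↦ 2` -/
def T1 : Matrix (Fin 3) (Fin 3) C2 := !![0, 0, 0; 0, 0, 0; 1, 0, 0]

/-- the odd creation operator -/
def To : Matrix (Fin 3) (Fin 3) C2 := !![0, 0, 0; 1, 0, 0; q2, 0, 0]

/-- `δ` -/
def Dl : Matrix (Fin 3) (Fin 3) C2 := !![0, 0, 0; 0, 0, 1; 0, 0, q2]

/-- `1 - q δ` -/
def Zt : Matrix (Fin 3) (Fin 3) C2 := !![1, 0, 0; 0, 1, -q2; 0, 0, -1]

theorem To_eq : To = Te + q2 • T1 := by
  ext1 i j
  fin_cases i <;> fin_cases j <;> simp [To, Te, T1]

theorem Zt_eq : Zt = 1 - q2 • Dl := by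
  ext1 i j
  fin_cases i <;> fin_cases j <;> simp [Zt, Dl, q2_sq]
  norm_num

theorem Te_Te : Te * Te = 0 := by
  ext1 i j
  fin_cases i <;> fin_cases j <;> simp [Te, Matrix.mul_apply, Fin.sum_univ_three]

theorem Te_T1 : Te * T1 = 0 := by
  ext1 i j
  fin_cases i <;> fin_cases j <;> simp [Te, T1, Matrix.mul_apply, Fin.sum_univ_three]

theorem T1_Te : T1 * Te = 0 := by
  ext1 i j
  fin_cases i <;> fin_cases j <;> simp [Te, T1, Matrix.mul_apply, Fin.sum_univ_three]

theorem Te_To : Te * To = 0 := by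
  ext1 i j
  fin_cases i <;> fin_cases j <;> simp [Te, To, Matrix.mul_apply, Fin.sum_univ_three]

theorem To_Te : To * Te = 0 := by
  ext1 i j
  fin_cases i <;> fin_cases j <;> simp [Te, To, Matrix.mul_apply, Fin.sum_univ_three]

theorem To_To : To * To = 0 := by
  ext1 i j
  fin_cases i <;> fin_cases j <;> simp [To, Matrix.mul_apply, Fin.sum_univ_three]

theorem Dl_Te : Dl * Te = 0 := by
  ext1 i j
  fin_cases i <;> fin_cases j <;> simp [Te, Dl, Matrix.mul_apply, Fin.sum_univ_three]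

theorem Te_Dl : Te * Dl = 0 := by
  ext1 i j
  fin_cases i <;> fin_cases j <;> simp [Te, Dl, Matrix.mul_apply, Fin.sum_univ_three]

theorem To_Dl : To * Dl = 0 := by
  ext1 i j
  fin_cases i <;> fin_cases j <;> simp [To, Dl, Matrix.mul_apply, Fin.sum_univ_three]

theorem Dl_To : Dl * To = q2 • To := by
  ext1 i j
  fin_cases i <;> fin_cases j <;> simp [To, Dl, Matrix.mul_apply, Fin.sum_univ_three]

theorem Dl_Dl : Dl * Dl = q2 • Dl := by
  ext1 i j
  fin_cases i <;> fin_cases j <;> simp [Dl, Matrix.mul_apply, Fin.sum_univ_three]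

theorem Zt_Te : Zt * Te = Te := by
  rw [Zt_eq, sub_mul, one_mul, smul_mul_assoc, Dl_Te, smul_zero, sub_zero]

theorem Te_Zt : Te * Zt = Te := by
  rw [Zt_eq, mul_sub, mul_one, mul_smul_comm, Te_Dl, smul_zero, sub_zero]

theorem To_Zt : To * Zt = To := by
  rw [Zt_eq, mul_sub, mul_one, mul_smul_comm, To_Dl, smul_zero, sub_zero]

theorem Zt_To : Zt * To = -To := by
  rw [Zt_eq, sub_mul, one_mul, smul_mul_assoc, Dl_To, smul_smul, q2_sq, ofNat_smul_eq_nsmul,
    two_nsmul]
  abel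

theorem Zt_Zt : Zt * Zt = 1 := by
  ext1 i j
  fin_cases i <;> fin_cases j <;> simp [Zt, Matrix.mul_apply, Fin.sum_univ_three]

/-! ### `n` places -/

section places

variable (n : ℕ)

/-- the operators on `n` places -/
def GG : Type := Module.End C2 ((Fin n → Fin 3) → C2)

noncomputable instance : Ring (GG n) :=
  inferInstanceAs (Ring (Module.End C2 ((Fin n → Fin 3) → C2)))

noncomputable instance : Algebra C2 (GG n) :=
  inferInstanceAs (Algebra C2 (Module.End C2 ((Fin n → Fin 3) → C2)))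

variable {n}

/-- an element as an operator -/
def toE (e : GG n) : Module.End C2 ((Fin n → Fin 3) → C2) := e

/-- the action on the vectors -/
def ap (e : GG n) (v : (Fin n → Fin 3) → C2) : (Fin n → Fin 3) → C2 := toE e v

theorem ap_ext {e e' : GG n} (h : ∀ v f, ap e v f = ap e' v f) : e = e' := by
  have h1 : toE e = toE e' := LinearMap.ext fun v => funext fun f => h v f
  exact h1

/-- the operator `M` at the place `l` -/
noncomputable def pl (l : Fin n) : Matrix (Fin 3) (Fin 3) C2 →+* GG n := (matStr 3 C2 (Fin n)).ρ l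

theorem pl_smul (l : Fin n) (c : C2) (M : Matrix (Fin 3) (Fin 3) C2) :
    pl l (c • M) = c • pl l M := by
  refine ap_ext fun v f => ?_
  change ∑ d, (c • M) (f l) d * v (Function.update f l d) =
    c • ∑ d, M (f l) d * v (Function.update f l d)
  rw [Finset.smul_sum]
  refine Finset.sum_congr rfl fun d _ => ?_
  rw [Matrix.smul_apply, smul_eq_mul, smul_eq_mul, mul_assoc]

theorem pl_comm {l l' : Fin n} (h : l ≠ l') (M N : Matrix (Fin 3) (Fin 3) C2) :
    pl l M * pl l' N = pl l' N * pl l M := (matStr 3 C2 (Fin n)).comm l l' h M N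

/-- the permutation of the places -/
noncomputable def pm (σ : Perm (Fin n)) : GG n := (matStr 3 C2 (Fin n)).s σ

theorem pm_pl (σ : Perm (Fin n)) (l : Fin n) (M : Matrix (Fin 3) (Fin 3) C2) :
    pm σ * pl l M = pl (σ l) M * pm σ := (matStr 3 C2 (Fin n)).conj σ l M

theorem cancelG (x : GG n) (h : q2 • x = 0) : x = 0 := by
  refine ap_ext fun v f => ?_
  have h1 := congrFun (congrArg (fun e : GG n => ap e v) h) f
  exact q2_cancel _ h1

/-- `ζ_m` -/
noncomputable def zt (m : ℕ) : GG n := if h : m < n then pl ⟨m, h⟩ Zt else 1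

/-- `δ_m` -/
noncomputable def dl (m : ℕ) : GG n := if h : m < n then pl ⟨m, h⟩ Dl else 0

theorem zt_eq (m : ℕ) : (zt m : GG n) = 1 - q2 • dl m := by
  unfold zt dl
  split_ifs with h
  · rw [Zt_eq, map_sub, map_one, pl_smul]
  · rw [smul_zero, sub_zero]

/-- `ζ_0 ⋯ ζ_{m-1}` -/
noncomputable def ZZ : ℕ → GG n
  | 0 => 1
  | m + 1 => ZZ m * zt m

/-- `(1 - ζ_0 ⋯ ζ_{m-1}) / q` -/
noncomputable def DD : ℕ → GG n
  | 0 => 0
  | m + 1 => DD m + ZZ m * dl m

theorem ZZ_eq (m : ℕ) : (ZZ m : GG n) = 1 - q2 • DD m := by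
  induction m with
  | zero => simp [ZZ, DD]
  | succ m ih =>
    rw [ZZ, DD, zt_eq, mul_sub, mul_one, mul_smul_comm, smul_add, ← sub_sub, ← ih]

/-- `P_l` -/
noncomputable def opP (l : Fin n) : GG n := pl l Te

/-- `Q_l` -/
noncomputable def opQ (l : Fin n) : GG n := pl l T1 - DD l * pl l To

/-- `O_l = P_l + q Q_l` -/
noncomputable def opO (l : Fin n) : GG n := ZZ l * pl l To

theorem opO_eq (l : Fin n) : opO l = opP l + q2 • opQ l := by
  unfold opO opP opQ
  rw [ZZ_eq, sub_mul, one_mul, smul_sub, smul_mul_assoc, To_eq, map_add, pl_smul]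
  abel

/-! commutation with the signs -/

theorem zt_zt (m m' : ℕ) : (zt m : GG n) * zt m' = zt m' * zt m := by
  unfold zt
  by_cases h : m < n
  · by_cases h' : m' < n
    · rw [dif_pos h, dif_pos h']
      by_cases e : m = m'
      · subst e
        rfl
      · exact pl_comm (fun h2 => e (Fin.mk.inj h2)) _ _
    · rw [dif_neg h', mul_one, one_mul]
  · rw [dif_neg h, mul_one, one_mul]

theorem ZZ_zt (m m' : ℕ) : (ZZ m : GG n) * zt m' = zt m' * ZZ m := by
  induction m with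
  | zero => rw [ZZ, one_mul, mul_one]
  | succ m ih => rw [ZZ, mul_assoc, zt_zt, ← mul_assoc, ih, mul_assoc]

theorem ZZ_ZZ (m m' : ℕ) : (ZZ m : GG n) * ZZ m' = ZZ m' * ZZ m := by
  induction m' with
  | zero => rw [ZZ, one_mul, mul_one]
  | succ m' ih => rw [ZZ, ← mul_assoc, ih, mul_assoc, ZZ_zt, ← mul_assoc]

theorem zt_pl_ne {m : ℕ} {l : Fin n} (h : m ≠ l) (M : Matrix (Fin 3) (Fin 3) C2) :
    zt m * pl l M = pl l M * zt m := by
  unfold zt
  split_ifs with h1
  · exact pl_comm (fun h2 => h (congrArg Fin.val h2)) _ _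
  · rw [one_mul, mul_one]

theorem zt_self (l : Fin n) : (zt (l : ℕ) : GG n) = pl l Zt := by
  unfold zt
  rw [dif_pos l.2]

theorem dl_self (l : Fin n) : (dl (l : ℕ) : GG n) = pl l Dl := by
  unfold dl
  rw [dif_pos l.2]

theorem zt_Te (m : ℕ) (l : Fin n) : zt m * pl l Te = pl l Te * zt m := by
  by_cases h : m = l
  · rw [h, zt_self, ← map_mul, ← map_mul, Zt_Te, Te_Zt]
  · exact zt_pl_ne h _

theorem ZZ_Te (m : ℕ) (l : Fin n) : ZZ m * pl l Te = pl l Te * ZZ m := by
  induction m with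
  | zero => rw [ZZ, one_mul, mul_one]
  | succ m ih => rw [ZZ, mul_assoc, zt_Te, ← mul_assoc, ih, mul_assoc]

theorem ZZ_pl_le {m : ℕ} {l : Fin n} (h : m ≤ l) (M : Matrix (Fin 3) (Fin 3) C2) :
    ZZ m * pl l M = pl l M * ZZ m := by
  induction m with
  | zero => rw [ZZ, one_mul, mul_one]
  | succ m ih =>
    rw [ZZ, mul_assoc, zt_pl_ne (by omega), ← mul_assoc, ih (by omega), mul_assoc]

theorem ZZ_To_lt {m : ℕ} {l : Fin n} (h : (l : ℕ) < m) :
    ZZ m * pl l To = -(pl l To * ZZ m) := by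
  induction m with
  | zero => exact absurd h (Nat.not_lt_zero _)
  | succ m ih =>
    by_cases hl : (l : ℕ) = m
    · subst hl
      rw [ZZ, mul_assoc, zt_self, ← map_mul, Zt_To, map_neg, mul_neg, ZZ_pl_le le_rfl,
        ← mul_assoc, ← ZZ_pl_le le_rfl To, mul_assoc, ← map_mul, To_Zt, ZZ_pl_le le_rfl]
    · rw [ZZ, mul_assoc, zt_pl_ne (Ne.symm hl), ← mul_assoc, ih (by omega), neg_mul, mul_assoc]

/-! the relations -/

theorem opP_opP (l l' : Fin n) : opP l * opP l' = opP l' * opP l := by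
  by_cases h : l = l'
  · rw [h]
  · exact pl_comm h _ _

theorem opP_opO (l l' : Fin n) : opP l * opO l' = opO l' * opP l := by
  unfold opP opO
  rw [← mul_assoc, ← ZZ_Te, mul_assoc, mul_assoc]
  congr 1
  by_cases h : l = l'
  · rw [h, ← map_mul, ← map_mul, Te_To, To_Te]
  · exact pl_comm h _ _

theorem opP_opQ (l l' : Fin n) : opP l * opQ l' = opQ l' * opP l := by
  have h1 := opP_opO l l'
  rw [opO_eq, mul_add, add_mul, opP_opP, mul_smul_comm, smul_mul_assoc] at h1
  have h2 := add_left_cancel h1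
  have h3 := cancelG (opP l * opQ l' - opQ l' * opP l) (by rw [smul_sub, h2, sub_self])
  exact sub_eq_zero.1 h3

theorem opO_lt {l l' : Fin n} (h : l < l') : opO l * opO l' = -(opO l' * opO l) := by
  unfold opO
  have h0 : l ≠ l' := ne_of_lt h
  have h1 : (l : ℕ) < l' := h
  calc ZZ (l : ℕ) * pl l To * (ZZ (l' : ℕ) * pl l' To)
      = ZZ (l : ℕ) * (pl l To * ZZ (l' : ℕ)) * pl l' To := by simp only [mul_assoc]
    _ = -(ZZ (l : ℕ) * ZZ (l' : ℕ) * (pl l To * pl l' To)) := by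
        have h2 : pl l To * ZZ (l' : ℕ) = -(ZZ (l' : ℕ) * pl l To) := by
          rw [ZZ_To_lt h1, neg_neg]
        rw [h2]
        simp only [mul_neg, neg_mul, mul_assoc]
    _ = -(ZZ (l' : ℕ) * pl l' To * (ZZ (l : ℕ) * pl l To)) := by
        rw [ZZ_ZZ, pl_comm h0]
        have h3 : pl l' To * ZZ (l : ℕ) = ZZ (l : ℕ) * pl l' To := (ZZ_pl_le (le_of_lt h1) To).symm
        congr 1
        calc ZZ (l' : ℕ) * ZZ (l : ℕ) * (pl l' To * pl l To)
            = ZZ (l' : ℕ) * (ZZ (l : ℕ) * pl l' To) * pl l To := by simp only [mul_assoc]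
          _ = ZZ (l' : ℕ) * pl l' To * (ZZ (l : ℕ) * pl l To) := by
              rw [← h3]
              simp only [mul_assoc]

theorem opO_opO (l l' : Fin n) : opO l * opO l' = -(opO l' * opO l) := by
  rcases lt_trichotomy l l' with h | h | h
  · exact opO_lt h
  · subst h
    have h1 : (opO l * opO l : GG n) = 0 := by
      unfold opO
      rw [mul_assoc, ← mul_assoc (pl l To), ← ZZ_pl_le le_rfl, mul_assoc (ZZ (l : ℕ)), ← map_mul,
        To_To, map_zero, mul_zero, mul_zero]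
    rw [h1, neg_zero]
  · rw [opO_lt h, neg_neg]

theorem q2_q2 (x : GG n) : q2 • (q2 • x) = x + x := by
  rw [smul_smul, q2_sq, ofNat_smul_eq_nsmul, two_nsmul]

theorem opQ_opQ (l l' : Fin n) : opQ l * opQ l' =
    -(opP l' * opP l) - q2 • (opP l' * opQ l) - q2 • (opQ l' * opP l) - opQ l' * opQ l := by
  have h1 := opO_opO l l'
  simp only [opO_eq, add_mul, mul_add, smul_mul_assoc, mul_smul_comm, smul_add, q2_q2] at h1
  rw [opP_opP l l', opP_opQ l l', ← opP_opQ l' l] at h1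
  have h2 : q2 • (q2 • (opQ l * opQ l' + opP l' * opP l + q2 • (opP l' * opQ l) +
      q2 • (opQ l' * opP l) + opQ l' * opQ l)) = 0 := by
    simp only [smul_add, q2_q2]
    rw [← sub_eq_zero] at h1
    rw [← h1]
    abel
  have h4 := cancelG _ (cancelG _ h2)
  rw [← sub_eq_zero, ← h4]
  abel

end places

end Pool.PI34.VL
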