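import Pool.Agent.LibPI34.V_Theta
import Pool.Agent.LibPI34.BA_Main
import Pool.Agent.LibPI34.S2_Nat

/-!
PI34, block VAL, file 2: the multilinear coefficients `P_σ` of a string system kill the elements of
the group algebra which act by zero on the words of rank `k`.
-/

set_option autoImplicit false
set_option linter.unusedSectionVars false

namespace Pool.PI34.VL

open Equiv Finset Matrix
open Pool.PI34.BA
open scoped TensorProduct

section map

variable {X : Type} [Fintype X] [DecidableEq X] {k n : ℕ}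
variable {W W' : Type} [AddCommGroup W] [AddCommGroup W']

omit [Fintype X] in
theorem evW_map (P : Mon X n →₀ W) (f : W →ₗ[ℤ] W') (T : Type) [CommRing T]
    (B : Matrix (Option (X × Fin n)) (Option (X × Fin n)) T) :
    evW (P.mapRange f (map_zero f)) T B = f.lTensor T (evW P T B) := by
  unfold evW
  rw [Finsupp.sum_mapRange_index (fun ξ => TensorProduct.tmul_zero _ _)]
  unfold Finsupp.sum
  rw [map_sum]
  exact Finset.sum_congr rfl fun ξ _ => (LinearMap.lTensor_tmul _ _ _ _).symm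

/-- the image of a package -/
noncomputable def mapW (P : Pkg X k n W) (f : W →ₗ[ℤ] W') : Pkg X k n W' where
  P := P.P.mapRange f (map_zero f)
  deg ξ hξ := P.deg ξ fun h => hξ (by rw [Finsupp.mapRange_apply, h, map_zero])
  inv T _ _ B h h' h1 h2 hh := by
    rw [evW_map, evW_map, P.inv T B h h' h1 h2 hh]
  rank T _ _ B u v j hj := by
    rw [evW_map, ← LinearMap.comp_apply, LinearMap.rTensor_comp_lTensor,
      ← LinearMap.lTensor_comp_rTensor, LinearMap.comp_apply, P.rank T B u v j hj, map_zero]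

end map

section kap

variable {X : Type} [Fintype X] [DecidableEq X] {k n : ℕ} {ι : Type} [Fintype ι] [DecidableEq ι]

/-- the rank bound for the images of the `P_ξ` under `κ` -/
theorem rank_kap (p q : Fin k ↪ ι) (z : ι) (hF : Frame p q z) (K : Type) [Field K] [Infinite K] :
    Module.finrank K (FF X k n K) ≤ Module.finrank ℤ (Submodule.span ℤ (Set.range fun ξ =>
      kap X p q z (Pxi (matStr k (CG X k) ι) p q z (gen X k) n ξ))) := by
  classical
  have h : GEN X k n := A5.GEN_all X k n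
  have hfin : Fintype {ξ : Mon X n // GoodMon ξ} := (finite_goodMon X n).fintype
  set Ξ := {ξ : Mon X n // GoodMon ξ} with hΞ
  set Hf : Finset (Option X × Fin k × Fin k →₀ ℕ) :=
    (univ : Finset Ξ).biUnion fun ξ => (thetaXi X k n ξ.1).support with hHf
  set v : Ξ → Hf → ℤ := fun ξ η => (thetaXi X k n ξ.1).coeff η.1 with hv
  let R : MvPolynomial (Option (X × Fin n) × Option (X × Fin n)) K →ₗ[K] (Ξ → K) :=
    LinearMap.pi fun ξ => MvPolynomial.lcoeff K ξ.1
  have hR : ∀ f ξ, R f ξ = f.coeff ξ.1 := fun f ξ => rfl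
  have hth : ∀ η (ξ : Ξ), R (thetaK X k n K η) ξ = (((thetaXi X k n ξ.1).coeff η : ℤ) : K) := by
    intro η ξ
    rw [hR]
    unfold thetaK
    rw [MvPolynomial.coeff_sum]
    simp only [MvPolynomial.coeff_monomial]
    rw [Finset.sum_ite_eq' (theta X k n).support ξ.1]
    split_ifs with h1
    · rfl
    · have h2 : thetaXi X k n ξ.1 = 0 := by
        rw [MvPolynomial.notMem_support_iff] at h1
        exact h1
      rw [h2, MvPolynomial.coeff_zero, Int.cast_zero]
  have h1 : Module.finrank K (FF X k n K) ≤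
      Module.finrank K (Submodule.span K
        (Set.range fun (η : Hf) (ξ : Ξ) => ((v ξ η : ℤ) : K))) := by
    have h2 : (FF X k n K).map R ≤ Submodule.span K
        (Set.range fun (η : Hf) (ξ : Ξ) => ((v ξ η : ℤ) : K)) := by
      refine le_trans (Submodule.map_mono (h K)) ?_
      rw [Submodule.map_span, Submodule.span_le]
      rintro _ ⟨_, ⟨η, rfl⟩, rfl⟩
      by_cases hη : η ∈ Hf
      · refine Submodule.subset_span ⟨⟨η, hη⟩, ?_⟩
        funext ξ
        rw [hth]
      · have h3 : R (thetaK X k n K η) = 0 := by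
          funext ξ
          rw [hth]
          have h4 : (thetaXi X k n ξ.1).coeff η = 0 := by
            rw [← MvPolynomial.notMem_support_iff]
            intro h5
            apply hη
            rw [hHf, Finset.mem_biUnion]
            exact ⟨ξ, mem_univ _, h5⟩
          rw [h4, Int.cast_zero]
          rfl
        rw [h3]
        exact Submodule.zero_mem _
    have hinj : Function.Injective (R.domRestrict (FF X k n K)) := by
      rw [injective_iff_map_eq_zero]
      rintro ⟨f, hf⟩ h0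
      have h3 : ∀ ξ : Ξ, f.coeff ξ.1 = 0 := fun ξ => congrFun h0 ξ
      apply Subtype.ext
      show f = 0
      ext ξ
      rw [MvPolynomial.coeff_zero]
      by_contra hne
      exact hne (h3 ⟨ξ, hf.1 ξ hne⟩)
    have h4 : Module.finrank K (FF X k n K) = Module.finrank K ((FF X k n K).map R) := by
      have h5 := LinearMap.finrank_range_of_inj hinj
      rw [← h5, LinearMap.range_domRestrict]
    rw [h4]
    exact Submodule.finrank_mono h2
  refine le_trans h1 (le_trans (finrank_columns_le v K) ?_)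
  let Lam : CO X k →ₗ[ℤ] (Hf → ℤ) :=
    LinearMap.pi fun η => (MvPolynomial.lcoeff ℤ η.1 : CO X k →ₗ[ℤ] ℤ)
  have hLam : ∀ (ξ : Ξ), Lam (kap X p q z (Pxi (matStr k (CG X k) ι) p q z (gen X k) n ξ.1))
      = v ξ := by
    intro ξ
    funext η
    show (kap X p q z (Pxi (matStr k (CG X k) ι) p q z (gen X k) n ξ.1)).coeff η.1 = v ξ η
    rw [kap_Pxi p q z hF n ξ.1 ξ.2]
  have h6 : Submodule.span ℤ (Set.range v) ≤ (Submodule.span ℤ (Set.range fun ξ =>
      kap X p q z (Pxi (matStr k (CG X k) ι) p q z (gen X k) n ξ))).map Lam := by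
    rw [Submodule.span_le]
    rintro _ ⟨ξ, rfl⟩
    exact ⟨_, Submodule.subset_span ⟨ξ.1, rfl⟩, hLam ξ⟩
  have hfr : (Set.range fun ξ =>
      kap X p q z (Pxi (matStr k (CG X k) ι) p q z (gen X k) n ξ)).Finite := by
    have h7 : (Set.range fun ξ =>
      kap X p q z (Pxi (matStr k (CG X k) ι) p q z (gen X k) n ξ)) =
        kap X p q z '' Set.range (fun ξ => Pxi (matStr k (CG X k) ι) p q z (gen X k) n ξ) := by
      rw [← Set.range_comp]
      rfl
    rw [h7]
    exact (Finsupp.finite_range _).image _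
  have hfg : Module.Finite ℤ (Submodule.span ℤ (Set.range fun ξ =>
      kap X p q z (Pxi (matStr k (CG X k) ι) p q z (gen X k) n ξ))) :=
    Module.Finite.iff_fg.2 (Submodule.fg_span hfr)
  exact le_trans (Submodule.finrank_mono h6) (Submodule.finrank_map_le _ _)

end kap

section ml

variable {n : ℕ}

/-- the diagonal indices -/
def dg (n : ℕ) : Option (Fin n) ↪ Option (Fin n × Fin n) :=
  Function.Embedding.optionMap ⟨fun l => (l, l), fun _ _ h => (Prod.mk.inj h).1⟩

/-- the multilinear monomial of `σ` -/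
noncomputable def mm (σ : Perm (Option (Fin n))) : Mon (Fin n) n := mon (dg n) σ

theorem dg_none : dg n none = none := rfl

theorem dg_some (l : Fin n) : dg n (some l) = some (l, l) := rfl

theorem dg_fst (a : Option (Fin n)) : (dg n a).map Prod.fst = a := by
  cases a <;> rfl

theorem mon_sum_fst {A A0 : Type} [Fintype A] [DecidableEq A] [Fintype A0] [DecidableEq A0]
    (d : A0 ↪ A) (σ : Perm A0) (a : A0) : ∑ b, mon d σ (d a, b) = 1 := by
  rw [Finset.sum_eq_single (d (σ.symm a))]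
  · rw [mon_apply, if_pos ⟨σ.symm a, by rw [Equiv.apply_symm_apply]⟩]
  · intro b _ hb
    rw [mon_apply, if_neg]
    rintro ⟨c, hc⟩
    obtain ⟨h1, h2⟩ := Prod.mk.inj hc
    have h3 := d.injective h1
    rw [h3, Equiv.symm_apply_apply] at hb
    exact hb h2
  · intro h
    exact absurd (mem_univ _) h

theorem mon_sum_snd {A A0 : Type} [Fintype A] [DecidableEq A] [Fintype A0] [DecidableEq A0]
    (d : A0 ↪ A) (σ : Perm A0) (a : A0) : ∑ b, mon d σ (b, d a) = 1 := by
  rw [Finset.sum_eq_single (d (σ a))]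
  · rw [mon_apply, if_pos ⟨a, rfl⟩]
  · intro b _ hb
    rw [mon_apply, if_neg]
    rintro ⟨c, hc⟩
    obtain ⟨h1, h2⟩ := Prod.mk.inj hc
    rw [d.injective h2] at hb
    exact hb h1
  · intro h
    exact absurd (mem_univ _) h

theorem good_mm (σ : Perm (Option (Fin n))) : GoodMon (mm σ) := by
  refine ⟨?_, mon_sum_fst (dg n) σ none, mon_sum_snd (dg n) σ none⟩
  unfold mm mon
  rw [Finsupp.sum_fintype _ _ (fun _ => rfl)]
  simp only [Finsupp.finsetSum_apply]
  rw [Finset.sum_comm]
  have h1 : ∀ a : Option (Fin n), ∑ v : Option (Fin n × Fin n) × Option (Fin n × Fin n),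
      (Finsupp.single (dg n (σ a), dg n a) 1 : _ →₀ ℕ) v = 1 := by
    intro a
    rw [Finset.sum_eq_single (dg n (σ a), dg n a)]
    · exact Finsupp.single_eq_same
    · intro v _ hv
      exact Finsupp.single_eq_of_ne hv
    · intro h
      exact absurd (mem_univ _) h
  rw [Finset.sum_congr rfl fun a _ => h1 a]
  simp

theorem thetaXi_mm (k : ℕ) (σ : Perm (Option (Fin n))) :
    thetaXi (Fin n) k n (mm σ) = ((Perm.sign σ : ℤˣ) : ℤ) •
      ∑ w : Option (Fin n) → Fin k, ∏ a, MvPolynomial.X (a, w (σ a), w a) := by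
  have h := coeff_det (R := CO (Fin n) k) (k := k)
    (fun b i j => MvPolynomial.X (b.map Prod.fst, i, j)) (dg n) σ
  simp only [dg_fst] at h
  exact h

variable {k : ℕ} {ι Φ E : Type} [Fintype ι] [DecidableEq ι] [Ring Φ] [Ring E]

/-- **(V1)** the multilinear coefficients, as an additive map on the group algebra -/
noncomputable def vl (S : Str ι Φ E) (p q : Fin k ↪ ι) (z : ι) (x : Fin n → Φ) :
    H4.P (Option (Fin n)) →+ E :=
  SS.evP fun σ => ((Perm.sign σ : ℤˣ) : ℤ) • Pxi S p q z x n (mm σ)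

theorem vl_g (S : Str ι Φ E) (p q : Fin k ↪ ι) (z : ι) (x : Fin n → Φ)
    (σ : Perm (Option (Fin n))) :
    vl S p q z x (H4.g σ) = ((Perm.sign σ : ℤˣ) : ℤ) • Pxi S p q z x n (mm σ) :=
  SS.evP_g _ _

theorem vl_kill (S : Str ι Φ E) (hA : Anti S.s k) (p q : Fin k ↪ ι) (z : ι) (hF : Frame p q z)
    (x : Fin n → Φ) (y : H4.P (Option (Fin n))) (hy : H4.act k _ y = 0) :
    vl S p q z x y = 0 := by
  classical
  obtain ⟨f1, hf1⟩ : ∃ f : FreeAlgebra ℤ (Fin n) →+* Φ, ∀ a, f (FreeAlgebra.ι ℤ a) = x a :=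
    ⟨(FreeAlgebra.lift ℤ x : FreeAlgebra ℤ (Fin n) →ₐ[ℤ] Φ).toRingHom, fun a => by simp⟩
  obtain ⟨f2, hf2⟩ : ∃ f : FreeAlgebra ℤ (Fin n) →+* Matrix (Fin k) (Fin k) (CG (Fin n) k),
      ∀ a, f (FreeAlgebra.ι ℤ a) = gen (Fin n) k a :=
    ⟨(FreeAlgebra.lift ℤ (gen (Fin n) k) :
      FreeAlgebra ℤ (Fin n) →ₐ[ℤ] Matrix (Fin k) (Fin k) (CG (Fin n) k)).toRingHom,
      fun a => by simp⟩
  have e1 : (fun a => f1 (FreeAlgebra.ι ℤ a)) = x := funext hf1
  have e2 : (fun a => f2 (FreeAlgebra.ι ℤ a)) = gen (Fin n) k := funext hf2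
  set SP := (S.comap f1).prod ((matStr k (CG (Fin n) k) ι).comap f2) with hSP
  have hAP : Anti SP.s k :=
    prod_Anti (S.comap f1) ((matStr k (CG (Fin n) k) ι).comap f2) k hA matStr_Anti
  have P1 : ∀ ξ, (Pxi SP p q z (fun a => FreeAlgebra.ι ℤ a) n ξ).1 = Pxi S p q z x n ξ := by
    intro ξ
    have h := map_Pxi SP S f1 (RingHom.fst E (Module.End (CG (Fin n) k)
      ((ι → Fin k) → CG (Fin n) k)))
      (fun _ _ => rfl) (fun _ => rfl) p q z (fun a => FreeAlgebra.ι ℤ a) n ξ
    rw [e1] at h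
    exact h
  have P2 : ∀ ξ, (Pxi SP p q z (fun a => FreeAlgebra.ι ℤ a) n ξ).2 =
      Pxi (matStr k (CG (Fin n) k) ι) p q z (gen (Fin n) k) n ξ := by
    intro ξ
    have h := map_Pxi SP (matStr k (CG (Fin n) k) ι) f2
      (RingHom.snd E (Module.End (CG (Fin n) k) ((ι → Fin k) → CG (Fin n) k)))
      (fun _ _ => rfl) (fun _ => rfl) p q z (fun a => FreeAlgebra.ι ℤ a) n ξ
    rw [e2] at h
    exact h
  let PK : Pkg (Fin n) k n (E × CO (Fin n) k) :=
    mapW (Str.pkg SP p q z (fun a => FreeAlgebra.ι ℤ a) n hAP hF)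
      (LinearMap.prodMap LinearMap.id (kap (Fin n) p q z).toIntLinearMap)
  have Q1 : ∀ ξ, (PK.P ξ).1 = Pxi S p q z x n ξ := fun ξ => P1 ξ
  have Q2 : ∀ ξ, (PK.P ξ).2 =
      kap (Fin n) p q z (Pxi (matStr k (CG (Fin n) k) ι) p q z (gen (Fin n) k) n ξ) := by
    intro ξ
    rw [← P2]
    rfl
  have hg := glue PK (by
      intro K _ _
      have h3 : (fun ξ => (PK.P ξ).2) = fun ξ =>
          kap (Fin n) p q z (Pxi (matStr k (CG (Fin n) k) ι) p q z (gen (Fin n) k) n ξ) :=
        funext Q2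
      rw [h3]
      exact rank_kap p q z hF K)
    (fun σ : Perm (Option (Fin n)) => y.coeff σ * ((Perm.sign σ : ℤˣ) : ℤ)) mm (by
      have h4 : ∀ σ : Perm (Option (Fin n)), (y.coeff σ * ((Perm.sign σ : ℤˣ) : ℤ)) •
          (PK.P (mm σ)).2 = y.coeff σ • ∑ w : Option (Fin n) → Fin k,
            ∏ a, MvPolynomial.X (a, w (σ a), w a) := by
        intro σ
        rw [Q2, kap_Pxi p q z hF n _ (good_mm σ), thetaXi_mm, smul_smul, mul_assoc,
          H4.sign_sq, mul_one]
      rw [Finset.sum_congr rfl fun σ _ => h4 σ]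
      have h5 : ∀ w : Option (Fin n) → Fin k, ∑ σ : Perm (Option (Fin n)), y.coeff σ •
          (∏ a, MvPolynomial.X (a, w (σ a), w a) : CO (Fin n) k) = 0 := fun w =>
        SS.evP_kill hy (fun u => (∏ a, MvPolynomial.X (a, u a, w a) : CO (Fin n) k)) w
      simp only [Finset.smul_sum]
      rw [Finset.sum_comm]
      exact Finset.sum_eq_zero fun w _ => h5 w)
  change ∑ σ, y.coeff σ • (((Perm.sign σ : ℤˣ) : ℤ) • Pxi S p q z x n (mm σ)) = 0
  rw [← hg]
  refine Finset.sum_congr rfl fun σ _ => ?_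
  rw [smul_smul, Q1]

end ml

end Pool.PI34.VL
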