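import Pool.Agent.LibPI34.V_Pkg

/-!
PI34, block VAL, file 3: the coefficients `P_ξ` under a permutation of the labels.
-/

set_option autoImplicit false
set_option linter.unusedSectionVars false

namespace Pool.PI34.VL

open Equiv Finset Matrix
open Pool.PI34.BA
open scoped TensorProduct

section pp

variable {ι Φ E : Type} [Fintype ι] [DecidableEq ι] [Ring Φ] [Ring E] (S : Str ι Φ E)
variable {k : ℕ} (p q : Fin k ↪ ι) (z : ι) {A : Type} [Fintype A] [DecidableEq A]

theorem inv_submatrix (t : Φ) (ht : ∀ x, t * x = x * t) (hn : IsNilpotent t) (N : Matrix A A Φ)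
    (e : A ≃ A) : Ring.inverse (1 + t • N.submatrix e e) =
      (Ring.inverse (1 + t • N)).submatrix e e := by
  have h := map_inverse_of_isUnit (Matrix.reindexRingEquiv Φ e.symm).toRingHom (1 + t • N)
    (isUnit_one_add t ht hn N)
  have h1 : (Matrix.reindexRingEquiv Φ e.symm).toRingHom (1 + t • N) =
      1 + t • N.submatrix e e := by
    rw [map_add, map_one]
    rfl
  rw [h1] at h
  rw [← h]
  rfl

theorem qq_sub (t : Φ) (ht : ∀ x, t * x = x * t) (hn : IsNilpotent t) (x : A → Φ)
    (B : Matrix (Option A) (Option A) Φ) (e : A ≃ A) :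
    qq t (fun a => x (e a)) (B.submatrix (optionCongr e) (optionCongr e)) = qq t x B := by
  unfold qq
  have h0 : BX (fun a => x (e a)) (B.submatrix (optionCongr e) (optionCongr e)) =
      (BX x B).submatrix e e := rfl
  rw [h0, inv_submatrix t ht hn]
  congr 2
  let F : A → A → Φ := fun a b => B none (some a) * x a *
    (Ring.inverse (1 + t • BX x B)) a b * B (some b) none
  change ∑ a, ∑ b, F (e a) (e b) = ∑ a, ∑ b, F a b
  rw [Equiv.sum_comp e (fun a => ∑ b, F a (e b))]
  exact Finset.sum_congr rfl fun a _ => Equiv.sum_comp e (F a)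

/-- the permutation matrix conjugation -/
theorem submatrix_conj (N : Matrix A A Φ) (e : A ≃ A) :
    N.submatrix e e = (1 : Matrix A A Φ).submatrix e id * N * (1 : Matrix A A Φ).submatrix id e := by
  ext a b
  simp only [Matrix.mul_apply, Matrix.submatrix_apply, Matrix.one_apply, id_eq]
  simp

theorem PP_sub (hA : Anti S.s k) (hF : Frame p q z) (t : Φ) (ht : ∀ x, t * x = x * t)
    (hn : IsNilpotent t) (x : A → Φ) (B : Matrix (Option A) (Option A) Φ) (e : A ≃ A) :
    S.PP p q z t (fun a => x (e a)) (B.submatrix (optionCongr e) (optionCongr e)) =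
      S.PP p q z t x B := by
  obtain ⟨M, _, π, hπ, hπ'⟩ := exists_quotient S p q z hA hF
  unfold Str.PP
  have h0 : BX (fun a => x (e a)) (B.submatrix (optionCongr e) (optionCongr e)) =
      (BX x B).submatrix e e := rfl
  rw [qq_sub t ht hn x B e, h0, c5_move S p q z hF, c5_move S p q z hF]
  congr 1
  refine hπ' _ _ ?_
  rw [submatrix_conj]
  refine dt_conj π hπ t ht hn (BX x B) _ _ ?_ ?_ _ (nodup_toList _)
    (fun a => mem_toList.2 (mem_univ a))
  · ext a b
    simp [Matrix.mul_apply, Matrix.one_apply]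
  · ext a b
    rw [Matrix.mul_apply]
    simp only [Matrix.submatrix_apply, Matrix.one_apply, id_eq]
    rw [Finset.sum_eq_single (e.symm a)]
    · rw [Equiv.apply_symm_apply, if_pos rfl, one_mul]
    · intro c _ hc
      rw [if_neg, zero_mul]
      rintro rfl
      exact hc (e.symm_apply_apply c).symm
    · intro h
      exact absurd (mem_univ _) h

variable {X : Type} [Fintype X] [DecidableEq X] (x : X → Φ) (n : ℕ)

theorem PB_sub (hA : Anti S.s k) (hF : Frame p q z) (T : Type) [CommRing T]
    (B : Matrix (Option (X × Fin n)) (Option (X × Fin n)) T) (s : X → X)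
    (e : X × Fin n ≃ X × Fin n) (he : ∀ a, (e a).1 = s a.1) :
    PB S p q z (fun a => x (s a)) n T (B.submatrix (optionCongr e) (optionCongr e)) =
      PB S p q z x n T B := by
  unfold PB
  have h := PP_sub (S.base (Trunc T n)) p q z (base_Anti S (Trunc T n) k hA) hF (tt T n ⊗ₜ 1)
    (fun y => tmul_one_comm (Trunc T n) _ y)
    (isNilpotent_tmul_one (Trunc T n) _ (isNilpotent_tt T n))
    (fun a : X × Fin n => (1 : Trunc T n) ⊗ₜ[ℤ] x a.1)
    (B.map fun b => (inT T n b ⊗ₜ[ℤ] (1 : Φ) : Trunc T n ⊗[ℤ] Φ)) e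
  rw [← h]
  simp only [he]
  rfl

/-- the permutation of the monomials -/
noncomputable def mvM (e : X × Fin n ≃ X × Fin n) (ξ : Mon X n) : Mon X n :=
  ξ.mapDomain fun v => (optionCongr e v.1, optionCongr e v.2)

theorem Pxi_sub (hA : Anti S.s k) (hF : Frame p q z) (s : X → X)
    (e : X × Fin n ≃ X × Fin n) (he : ∀ a, (e a).1 = s a.1) (ξ : Mon X n) :
    Pxi S p q z (fun a => x (s a)) n ξ = Pxi S p q z x n (mvM n e ξ) := by
  let r : Option (X × Fin n) × Option (X × Fin n) → Option (X × Fin n) × Option (X × Fin n) :=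
    fun v => ((optionCongr e).symm v.1, (optionCongr e).symm v.2)
  have hr : Function.Injective r := by
    rintro ⟨a, b⟩ ⟨c, d⟩ h
    obtain ⟨h1, h2⟩ := Prod.mk.inj h
    exact Prod.ext ((optionCongr e).symm.injective h1) ((optionCongr e).symm.injective h2)
  let f : TU X n →+* TU X n := (MvPolynomial.rename r : TU X n →ₐ[ℤ] TU X n).toRingHom
  have h1 : (BU X n) = ((BU X n).map f).submatrix (optionCongr e) (optionCongr e) := by
    refine Matrix.ext fun a b => ?_
    change MvPolynomial.X (a, b) = MvPolynomial.rename r (MvPolynomial.X (optionCongr e a,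
      optionCongr e b))
    rw [MvPolynomial.rename_X]
    change _ = MvPolynomial.X ((optionCongr e).symm (optionCongr e a),
      (optionCongr e).symm (optionCongr e b))
    rw [Equiv.symm_apply_apply, Equiv.symm_apply_apply]
  have h2 : PB S p q z (fun a => x (s a)) n (TU X n) (BU X n) =
      bmap E f (PB S p q z x n (TU X n) (BU X n)) := by
    rw [PB_map]
    conv_lhs => rw [h1]
    exact PB_sub S p q z x n hA hF (TU X n) _ s e he
  unfold Pxi
  rw [h2]
  have h3 : ∀ y : TU X n ⊗[ℤ] E, coeffsW X n E (bmap E f y) ξ =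
      coeffsW X n E y (mvM n e ξ) := by
    intro y
    induction y using TensorProduct.induction_on with
    | zero => simp only [map_zero, Finsupp.coe_zero, Pi.zero_apply]
    | add u v hu hv => simp only [map_add, Finsupp.coe_add, Pi.add_apply, hu, hv]
    | tmul u w =>
      rw [bmap_tmul, F6b_coeffsW_tmul, F6b_coeffsW_tmul]
      congr 1
      change MvPolynomial.coeff ξ (MvPolynomial.rename r u) = _
      have h4 : ξ = (mvM n e ξ).mapDomain r := by
        unfold mvM
        rw [← Finsupp.mapDomain_comp]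
        have h5 : (r ∘ fun v : Option (X × Fin n) × Option (X × Fin n) =>
            (optionCongr e v.1, optionCongr e v.2)) = id := by
          funext v
          change ((optionCongr e).symm (optionCongr e v.1),
            (optionCongr e).symm (optionCongr e v.2)) = v
          rw [Equiv.symm_apply_apply, Equiv.symm_apply_apply]
        rw [h5, Finsupp.mapDomain_id]
      conv_lhs => rw [h4]
      exact MvPolynomial.coeff_rename_mapDomain r hr u _
  exact h3 _

end pp

section ml

variable {k n : ℕ} {ι Φ E : Type} [Fintype ι] [DecidableEq ι] [Ring Φ] [Ring E]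

theorem mvM_mm (s : Perm (Fin n)) (σ : Perm (Option (Fin n))) :
    mvM n (prodCongr s s) (mm σ) = mm (optionCongr s * σ * (optionCongr s)⁻¹) := by
  unfold mvM mm mon
  rw [Finsupp.mapDomain_finsetSum]
  simp only [Finsupp.mapDomain_single]
  rw [← Equiv.sum_comp (optionCongr s) (fun a => Finsupp.single
    (dg n ((optionCongr s * σ * (optionCongr s)⁻¹) a), dg n a) 1)]
  refine Finset.sum_congr rfl fun a _ => ?_
  have h1 : ∀ b : Option (Fin n), optionCongr (prodCongr s s) (dg n b) = dg n (optionCongr s b) := by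
    intro b
    cases b <;> rfl
  have h2 : (optionCongr s * σ * (optionCongr s)⁻¹) (optionCongr s a) = optionCongr s (σ a) := by
    rw [Perm.mul_apply, Perm.mul_apply]
    congr 2
    exact (optionCongr s).symm_apply_apply a
  rw [h1, h1, h2]

/-- relabelling -/
theorem vl_sub (S : Str ι Φ E) (hA : Anti S.s k) (p q : Fin k ↪ ι) (z : ι) (hF : Frame p q z)
    (x : Fin n → Φ) (s : Perm (Fin n)) (y : H4.P (Option (Fin n))) :
    vl S p q z (fun a => x (s a)) y =
      vl S p q z x (H4.g (optionCongr s) * y * H4.g (optionCongr s)⁻¹) := by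
  refine H4.P_induction (p := fun y => vl S p q z (fun a => x (s a)) y =
      vl S p q z x (H4.g (optionCongr s) * y * H4.g (optionCongr s)⁻¹)) y ?_ ?_ ?_
  · intro σ
    rw [← H4.g_mul, ← H4.g_mul, vl_g, vl_g]
    have h1 := Pxi_sub S p q z x n hA hF s (prodCongr s s) (fun _ => rfl) (mm σ)
    rw [h1, mvM_mm]
    congr 2
    rw [Perm.sign_mul, Perm.sign_mul, Perm.sign_inv]
    rw [mul_comm (Perm.sign (optionCongr s)) (Perm.sign σ), mul_assoc, Int.units_mul_self, mul_one]
  · intro a b ha hb
    rw [map_add, ha, hb, mul_add, add_mul, map_add]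
  · intro m a ha
    rw [map_zsmul, ha, mul_smul_comm, smul_mul_assoc, map_zsmul]

end ml

end Pool.PI34.VL
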