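import Pool.Agent.LibPI34.V_Flip
import Pool.Agent.LibPI34.BA_G0
import Pool.Agent.LibPI34.X_Defs

/-!
PI34, block VAL, file 6: the plain string system of an exotic one, with the letters
`x i l = ρ_i (b_l) P_l + ρ_i (d b_l) Q_l`.
-/

set_option autoImplicit false
set_option linter.unusedSectionVars false

namespace Pool.PI34.VL

open Equiv Finset Matrix
open Pool.PI34.BA
open Pool.PI34.XX (ExStr)

section hom

variable {ι Φ U : Type} [Fintype ι] [DecidableEq ι] [Ring Φ] [Ring U] (S : ExStr ι Φ U) (z : ι)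

/-- the coefficients in `U` -/
noncomputable def chi : C2 →+* U :=
  (QuadraticAlgebra.lift (R := ℤ) (a := 2) (b := 0) (A := U) ⟨S.ρ z S.q, by
    rw [← map_mul, S.q_sq, map_ofNat, zero_smul, add_zero, zsmul_one]
    norm_cast⟩ : C2 →ₐ[ℤ] U).toRingHom

theorem chi_q2 : chi S z q2 = S.ρ z S.q := by
  change (q2.re : ℤ) • (1 : U) + (q2.im : ℤ) • S.ρ z S.q = S.ρ z S.q
  simp [q2]

theorem chi_comm (c : C2) (x : U) : chi S z c * x = x * chi S z c := by
  change ((c.re : ℤ) • (1 : U) + (c.im : ℤ) • S.ρ z S.q) * x =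
    x * ((c.re : ℤ) • (1 : U) + (c.im : ℤ) • S.ρ z S.q)
  rw [add_mul, mul_add, smul_mul_assoc, mul_smul_comm, one_mul, mul_one, smul_mul_assoc,
    mul_smul_comm, S.ρ_qc]

variable (n : ℕ)

/-- the index set of the matrices -/
abbrev IX : Type := Fin n → Fin 3

/-- the operators as matrices over `U` -/
noncomputable def Jm : GG n →+* Matrix (IX n) (IX n) U :=
  (RingHom.mapMatrix (chi S z)).comp
    (((LinearMap.toMatrixAlgEquiv' : ((IX n → C2) →ₗ[C2] IX n → C2) ≃ₐ[C2] Matrix (IX n) (IX n) C2) :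
      ((IX n → C2) →ₗ[C2] IX n → C2) →+* Matrix (IX n) (IX n) C2))

variable {n}

theorem Jm_apply (e : GG n) (f g : IX n) :
    Jm S z n e f g = chi S z (ap e (Pi.single g 1) f) := by
  change chi S z (LinearMap.toMatrixAlgEquiv' (toE e) f g) = _
  rw [LinearMap.toMatrixAlgEquiv'_apply]
  rfl

/-- the scalar matrices -/
def sc (n : ℕ) : U →+* Matrix (IX n) (IX n) U := Matrix.scalar (IX n)

theorem sc_mul_apply (u : U) (M : Matrix (IX n) (IX n) U) (f g : IX n) :
    (sc n u * M) f g = u * M f g := by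
  change ((Matrix.diagonal (fun _ => u) : Matrix (IX n) (IX n) U) * M) f g = _
  rw [Matrix.diagonal_mul]

theorem mul_sc_apply (u : U) (M : Matrix (IX n) (IX n) U) (f g : IX n) :
    (M * sc n u) f g = M f g * u := by
  change (M * (Matrix.diagonal (fun _ => u) : Matrix (IX n) (IX n) U)) f g = _
  rw [Matrix.mul_diagonal]

theorem sc_Jm (u : U) (e : GG n) : sc n u * Jm S z n e = Jm S z n e * sc n u := by
  refine Matrix.ext fun f g => ?_
  rw [sc_mul_apply, mul_sc_apply, Jm_apply, chi_comm]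

theorem Jm_smul (c : C2) (e : GG n) : Jm S z n (c • e) = sc n (chi S z c) * Jm S z n e := by
  refine Matrix.ext fun f g => ?_
  rw [sc_mul_apply, Jm_apply, Jm_apply, ← map_mul]
  rfl

theorem Jm_q2 (e : GG n) : Jm S z n (q2 • e) = sc n (S.ρ z S.q) * Jm S z n e := by
  rw [Jm_smul, chi_q2]

/-- a row with one entry -/
theorem Jm_row1 (e : GG n) (f f1 : IX n) (h : ∀ v, ap e v f = v f1)
    (M : Matrix (IX n) (IX n) U) (g : IX n) : (Jm S z n e * M) f g = M f1 g := by
  rw [Matrix.mul_apply, Finset.sum_eq_single f1]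
  · rw [Jm_apply, h, Pi.single_eq_same, map_one, one_mul]
  · intro b _ hb
    rw [Jm_apply, h, Pi.single_eq_of_ne (Ne.symm hb), map_zero, zero_mul]
  · intro h
    exact absurd (mem_univ _) h

/-- a zero row -/
theorem Jm_row0 (e : GG n) (f : IX n) (h : ∀ v, ap e v f = 0)
    (M : Matrix (IX n) (IX n) U) (g : IX n) : (Jm S z n e * M) f g = 0 := by
  rw [Matrix.mul_apply]
  refine Finset.sum_eq_zero fun b _ => ?_
  rw [Jm_apply, h, map_zero, zero_mul]

/-- a row with two entries -/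
theorem Jm_row2 (e : GG n) (f f1 f2 : IX n) (c : C2) (h : ∀ v, ap e v f = v f1 - c * v f2)
    (M : Matrix (IX n) (IX n) U) (g : IX n) :
    (Jm S z n e * M) f g = M f1 g - chi S z c * M f2 g := by
  rw [Matrix.mul_apply]
  have h1 : ∀ b, Jm S z n e f b * M b g = (if f1 = b then M b g else 0) -
      (if f2 = b then chi S z c * M b g else 0) := by
    intro b
    rw [Jm_apply, h, map_sub, map_mul, sub_mul]
    congr 1
    · by_cases e1 : f1 = b
      · rw [if_pos e1, ← e1, Pi.single_eq_same, map_one, one_mul]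
      · rw [if_neg e1, Pi.single_eq_of_ne e1, map_zero, zero_mul]
    · by_cases e1 : f2 = b
      · rw [if_pos e1, ← e1, Pi.single_eq_same, map_one, mul_one]
      · rw [if_neg e1, Pi.single_eq_of_ne e1, map_zero, mul_zero, zero_mul]
  rw [Finset.sum_congr rfl fun b _ => h1 b, Finset.sum_sub_distrib, Finset.sum_ite_eq,
    Finset.sum_ite_eq, if_pos (mem_univ _), if_pos (mem_univ _)]

/-- the vacuum column -/
theorem Jm_col (e : GG n) (h : ap e (Pi.single 0 1) = Pi.single 0 1)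
    (M : Matrix (IX n) (IX n) U) (f : IX n) : (M * Jm S z n e) f 0 = M f 0 := by
  rw [Matrix.mul_apply, Finset.sum_eq_single 0]
  · rw [Jm_apply, h, Pi.single_eq_same, map_one, mul_one]
  · intro b _ hb
    rw [Jm_apply, h, Pi.single_eq_of_ne hb, map_zero, mul_zero]
  · intro h
    exact absurd (mem_univ _) h

end hom

section ex

variable {ι Φ U : Type} [Fintype ι] [DecidableEq ι] [Ring Φ] [Ring U] (S : ExStr ι Φ U)

theorem two_eq (x : Φ) : S.q * (S.q * x) = x + x := by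
  rw [← mul_assoc, S.q_sq, two_mul]

theorem δ_d (a : Φ) : S.δ * S.d a = S.q * (S.δ * a) - S.δ * a * S.δ := by
  unfold ExStr.d
  have h1 : S.δ * (S.δ * a) = S.q * (S.δ * a) := by rw [← mul_assoc, S.δ_sq, mul_assoc]
  have h2 : S.δ * (S.q * (S.δ * a * S.δ)) = S.δ * a * S.δ + S.δ * a * S.δ := by
    rw [← mul_assoc, ← S.q_comm, mul_assoc, ← mul_assoc, ← mul_assoc, ← mul_assoc]
    rw [mul_assoc S.q S.δ S.δ, S.δ_sq]
    rw [← two_eq S (S.δ * a * S.δ)]
    simp only [mul_assoc]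
  have h3 : S.δ * (a * S.δ) = S.δ * a * S.δ := (mul_assoc _ _ _).symm
  rw [mul_sub, mul_add, h1, h2, h3]
  abel

theorem d_δ (a : Φ) : S.d a * S.δ = S.q * (a * S.δ) - S.δ * a * S.δ := by
  unfold ExStr.d
  have h1 : a * S.δ * S.δ = S.q * (a * S.δ) := by
    rw [mul_assoc, S.δ_sq, ← mul_assoc, ← S.q_comm, mul_assoc]
  have h2 : S.q * (S.δ * a * S.δ) * S.δ = S.δ * a * S.δ + S.δ * a * S.δ := by
    rw [mul_assoc, mul_assoc, S.δ_sq, ← two_eq S (S.δ * a * S.δ)]
    congr 1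
    rw [← mul_assoc, ← S.q_comm, mul_assoc]
  rw [sub_mul, add_mul, h1, h2]
  abel

/-- `d (d a) = q (d a)` -/
theorem d_d (a : Φ) : S.d (S.d a) = S.q * S.d a := by
  have h1 := δ_d S a
  have h2 := d_δ S a
  have h3 : S.δ * S.d a * S.δ = 0 := by
    have e : S.δ * a * S.δ * S.δ = S.q * (S.δ * a * S.δ) := by
      rw [mul_assoc (S.δ * a), S.δ_sq, ← mul_assoc, ← S.q_comm, mul_assoc]
    rw [h1, sub_mul, e, mul_assoc S.q, sub_self]
  change S.δ * S.d a + S.d a * S.δ - S.q * (S.δ * S.d a * S.δ) = _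
  rw [h3, mul_zero, sub_zero, h1, h2]
  unfold ExStr.d
  rw [mul_sub, mul_add, two_eq]
  abel

variable {i j : ι} (hij : i ≠ j) (a b : Φ)

include hij

theorem cm : S.ρ i a * S.ρ j b = S.ρ j b * S.ρ i a + S.ρ i (S.d a) * S.ρ j (S.d b) :=
  S.comm i j hij a b

theorem cm_d : S.ρ i a * S.ρ j (S.d b) = S.ρ j (S.d b) * S.ρ i a +
    S.ρ i S.q * (S.ρ i (S.d a) * S.ρ j (S.d b)) := by
  rw [cm S hij, d_d, map_mul, ← mul_assoc, ← S.ρ_qc j, mul_assoc, S.ρ_q j i]

theorem d_cm : S.ρ i (S.d a) * S.ρ j b = S.ρ j b * S.ρ i (S.d a) +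
    S.ρ i S.q * (S.ρ i (S.d a) * S.ρ j (S.d b)) := by
  rw [cm S hij, d_d, map_mul, mul_assoc]

theorem d_cm_d : S.ρ i (S.d a) * S.ρ j (S.d b) = -(S.ρ j (S.d b) * S.ρ i (S.d a)) := by
  have h1 := cm_d S hij (S.d a) b
  rw [d_d, map_mul, mul_assoc, ← mul_assoc (S.ρ i S.q) (S.ρ i S.q), ← map_mul, S.q_sq,
    map_ofNat, two_mul] at h1
  have h2 : S.ρ j (S.d b) * S.ρ i (S.d a) + S.ρ i (S.d a) * S.ρ j (S.d b) = 0 := by
    have h3 := sub_eq_zero.2 h1
    rw [← neg_eq_zero, ← h3]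
    abel
  rw [add_comm] at h2
  exact eq_neg_of_add_eq_zero_left h2

end ex

section str

variable {ι Φ U : Type} [Fintype ι] [DecidableEq ι] [Ring Φ] [Ring U] (S : ExStr ι Φ U) (z : ι)
variable {n : ℕ}

/-- the letters -/
noncomputable def lt (b : Fin n → Φ) (i : ι) (l : Fin n) : Matrix (IX n) (IX n) U :=
  sc n (S.ρ i (b l)) * Jm S z n (opP l) + sc n (S.ρ i (S.d (b l))) * Jm S z n (opQ l)

theorem sc_J_mul (u v : U) (e e' : GG n) : sc n u * Jm S z n e * (sc n v * Jm S z n e') =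
    sc n (u * v) * Jm S z n (e * e') := by
  rw [map_mul, map_mul, mul_assoc, ← mul_assoc (Jm S z n e), ← sc_Jm, mul_assoc, mul_assoc]

theorem lt_comm (b : Fin n → Φ) (i j : ι) (hij : i ≠ j) (l l' : Fin n) :
    lt S z b i l * lt S z b j l' = lt S z b j l' * lt S z b i l := by
  unfold lt
  simp only [mul_add, add_mul, sc_J_mul]
  set A := S.ρ i (b l)
  set dA := S.ρ i (S.d (b l))
  set B := S.ρ j (b l')
  set dB := S.ρ j (S.d (b l'))
  set q := S.ρ i S.q
  have hq : q = S.ρ z S.q := S.ρ_q i z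
  have e1 : A * B = B * A + dA * dB := cm S hij _ _
  have e2 : A * dB = dB * A + q * (dA * dB) := cm_d S hij _ _
  have e3 : dA * B = B * dA + q * (dA * dB) := d_cm S hij _ _
  have e4 : dB * dA = -(dA * dB) := by rw [d_cm_d S hij, neg_neg]
  have e5 : ∀ e : GG n, sc n (q * (dA * dB)) * Jm S z n e =
      sc n (dA * dB) * Jm S z n (q2 • e) := by
    intro e
    rw [Jm_q2, ← hq, S.ρ_qc i (dA * dB), map_mul (sc n) (dA * dB) q, mul_assoc]
  rw [e1, e2, e3, e4, map_add, map_add, map_add, map_neg, add_mul, add_mul, add_mul, neg_mul, e5,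
    e5, opP_opP l' l, ← opP_opQ l l', ← opP_opQ l' l]
  have h := opQ_opQ l l'
  rw [h, map_sub, map_sub, map_sub, map_neg]
  rw [opP_opP l' l, ← opP_opQ l l']
  simp only [mul_sub, mul_neg]
  abel

/-- the plain string system -/
noncomputable def PS (b : Fin n → Φ) : Str ι (FreeAlgebra ℤ (Fin n)) (Matrix (IX n) (IX n) U) :=
  Str.ofLetters (lt S z b) ((sc n : U →+* Matrix (IX n) (IX n) U).toMonoidHom.comp S.f)
    (fun i j hij l l' => lt_comm S z b i j hij l l')
    (fun σ i l => by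
      change sc n (S.f σ) * lt S z b i l = lt S z b (σ i) l * sc n (S.f σ)
      unfold lt
      rw [mul_add, add_mul, ← mul_assoc, ← mul_assoc, ← map_mul, ← map_mul, S.f_ρ, S.f_ρ, map_mul,
        map_mul, mul_assoc, mul_assoc, mul_assoc, mul_assoc, sc_Jm, sc_Jm])

theorem PS_s (b : Fin n → Φ) (σ : Perm ι) : (PS S z b).s σ = sc n (S.f σ) := rfl

theorem PS_ρ (b : Fin n → Φ) (i : ι) (l : Fin n) :
    (PS S z b).ρ i (FreeAlgebra.ι ℤ l) = lt S z b i l := ofLetters_rho_ι _ _ _ _ _ _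

theorem anti_PS (b : Fin n → Φ) (T : Finset ι) :
    anti (PS S z b).s T = sc n (anti S.f T) := by
  unfold anti
  rw [map_sum]
  refine Finset.sum_congr rfl fun σ _ => ?_
  rw [map_zsmul, PS_s]

theorem Anti_PS (b : Fin n → Φ) {m : ℕ} (hA : Anti S.f m) : Anti (PS S z b).s m := by
  intro T hT
  rw [anti_PS, hA T hT, map_zero]

end str

end Pool.PI34.VL
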