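import Pool.Agent.LibPI34.BA_F7
import Pool.Agent.LibPI34.H4_Tr

/-!
PI34, block VAL, file 1: the coefficient of a multilinear monomial in the generic determinant.
-/

set_option autoImplicit false
set_option linter.unusedSectionVars false

namespace Pool.PI34.VL

open Equiv Finset Matrix

section det

variable {R A A0 : Type} [CommRing R] [Fintype A] [DecidableEq A] [Fintype A0] [DecidableEq A0]
variable {k : ℕ}

/-- the multilinear monomial of the permutation `σ` -/
noncomputable def mon (d : A0 ↪ A) (σ : Perm A0) : A × A →₀ ℕ :=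
  ∑ a, Finsupp.single (d (σ a), d a) 1

/-- the graph of the word `w` -/
def gr (d : A0 ↪ A) (w : A0 → Fin k) : A0 ↪ A × Fin k :=
  ⟨fun a => (d a, w a), fun _ _ h => d.injective (Prod.mk.inj h).1⟩

theorem mon_apply (d : A0 ↪ A) (σ : Perm A0) (v : A × A) :
    mon d σ v = if ∃ a, v = (d (σ a), d a) then 1 else 0 := by
  unfold mon
  rw [Finsupp.finsetSum_apply]
  split_ifs with h
  · obtain ⟨a, rfl⟩ := h
    rw [Finset.sum_eq_single a]
    · rw [Finsupp.single_eq_same]
    · intro b _ hb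
      rw [Finsupp.single_apply, if_neg]
      intro h2
      exact hb (d.injective (Prod.mk.inj h2).2)
    · intro h2
      exact absurd (mem_univ a) h2
  · refine Finset.sum_eq_zero fun a _ => ?_
    rw [Finsupp.single_apply, if_neg]
    intro h2
    exact h ⟨a, h2.symm⟩

/-- the sets of columns which give the monomial of `σ` -/
theorem graph_of_sum (d : A0 ↪ A) (σ : Perm A0) (τ : Perm (A × Fin k)) (S : Finset (A × Fin k))
    (hτ : ∀ u, u ∉ S → τ u = u)
    (hS : ∑ u ∈ S, Finsupp.single ((τ u).1, u.1) 1 = mon d σ) :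
    ∃ w : A0 → Fin k, S = univ.map (gr d w) ∧ τ = σ.viaEmbedding (gr d w) := by
  classical
  -- each column of `S` lies over `A0`
  have h1 : ∀ u ∈ S, ∃ a, ((τ u).1, u.1) = (d (σ a), d a) := by
    intro u hu
    by_contra hne
    have h2 := DFunLike.congr_fun hS ((τ u).1, u.1)
    rw [mon_apply, if_neg hne, Finsupp.finsetSum_apply] at h2
    have h3 := (Finset.sum_eq_zero_iff.1 h2) u hu
    rw [Finsupp.single_eq_same] at h3
    exact one_ne_zero h3
  -- exactly one column over each element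
  have h4 : ∀ a, ∃ u ∈ S, u.1 = d a ∧ (τ u).1 = d (σ a) := by
    intro a
    by_contra hne
    push Not at hne
    have h2 := DFunLike.congr_fun hS (d (σ a), d a)
    rw [mon_apply, if_pos ⟨a, rfl⟩, Finsupp.finsetSum_apply] at h2
    have h3 : ∑ u ∈ S, (Finsupp.single ((τ u).1, u.1) 1 : A × A →₀ ℕ) (d (σ a), d a) = 0 := by
      refine Finset.sum_eq_zero fun u hu => ?_
      rw [Finsupp.single_apply, if_neg]
      intro h5
      exact hne u hu (Prod.mk.inj h5).2 (Prod.mk.inj h5).1
    rw [h3] at h2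
    exact zero_ne_one h2
  have h6 : ∀ u ∈ S, ∀ v ∈ S, u.1 = v.1 → u = v := by
    intro u hu v hv huv
    by_contra hne
    obtain ⟨a, ha⟩ := h1 u hu
    obtain ⟨b, hb⟩ := h1 v hv
    have hab : a = b := d.injective (by
      have e1 := (Prod.mk.inj ha).2
      have e2 := (Prod.mk.inj hb).2
      rw [← e1, ← e2, huv])
    subst hab
    have h2 := DFunLike.congr_fun hS (d (σ a), d a)
    rw [mon_apply, if_pos ⟨a, rfl⟩, Finsupp.finsetSum_apply] at h2
    have h3 : ∑ x ∈ ({u, v} : Finset (A × Fin k)),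
        (Finsupp.single ((τ x).1, x.1) 1 : A × A →₀ ℕ) (d (σ a), d a) ≤
        ∑ x ∈ S, (Finsupp.single ((τ x).1, x.1) 1 : A × A →₀ ℕ) (d (σ a), d a) := by
      refine Finset.sum_le_sum_of_subset ?_
      intro x hx
      rw [Finset.mem_insert, Finset.mem_singleton] at hx
      rcases hx with rfl | rfl
      · exact hu
      · exact hv
    rw [Finset.sum_pair hne, ha, hb, Finsupp.single_eq_same, h2] at h3
    omega
  choose u hu hu1 hu2 using h4
  have hw : ∀ a, u a = gr d (fun a => (u a).2) a := fun a => Prod.ext (hu1 a) rfl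
  have hS' : S = univ.map (gr d fun a => (u a).2) := by
    ext v
    rw [Finset.mem_map]
    constructor
    · intro hv
      obtain ⟨a, ha⟩ := h1 v hv
      refine ⟨a, mem_univ a, ?_⟩
      rw [← hw]
      exact h6 _ (hu a) _ hv ((hu1 a).trans (Prod.mk.inj ha).2.symm)
    · rintro ⟨a, _, rfl⟩
      rw [← hw]
      exact hu a
  refine ⟨fun a => (u a).2, hS', ?_⟩
  ext1 v
  by_cases hv : v ∈ S
  · have hv' := hv
    rw [hS', Finset.mem_map] at hv'
    obtain ⟨a, _, rfl⟩ := hv'
    rw [Perm.viaEmbedding_apply, ← hw, ← hw]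
    -- `τ (u a) ∈ S`
    have h7 : τ (u a) ∈ S := by
      by_contra h8
      have h9 : u a = τ (u a) := τ.injective (hτ _ h8).symm
      rw [← h9] at h8
      exact h8 (hu a)
    exact h6 _ h7 _ (hu _) ((hu2 a).trans (hu1 _).symm)
  · rw [hτ v hv, Perm.viaEmbedding_apply_of_notMem]
    rintro ⟨a, rfl⟩
    exact hv (hS' ▸ Finset.mem_map_of_mem _ (mem_univ a))

theorem gr_injective (d : A0 ↪ A) {w w' : A0 → Fin k} (h : univ.map (gr d w) = univ.map (gr d w')) :
    w = w' := by
  funext a
  have h1 : gr d w a ∈ univ.map (gr d w') := h ▸ Finset.mem_map_of_mem _ (mem_univ a)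
  rw [Finset.mem_map] at h1
  obtain ⟨b, _, hb⟩ := h1
  have h2 := Prod.mk.inj hb
  have h3 : b = a := d.injective h2.1
  subst h3
  exact h2.2.symm

/-- the coefficient of a multilinear monomial in `det (1 + [X_ab x_b(i,j)])` -/
theorem coeff_det (x : A → Fin k → Fin k → R) (d : A0 ↪ A) (σ : Perm A0) :
    MvPolynomial.coeff (mon d σ) ((1 + Matrix.of fun (u v : A × Fin k) =>
      (MvPolynomial.X (u.1, v.1) * MvPolynomial.C (x v.1 u.2 v.2) :
        MvPolynomial (A × A) R)).det) =
      ((Perm.sign σ : ℤˣ) : ℤ) • ∑ w : A0 → Fin k, ∏ a, x (d a) (w (σ a)) (w a) := by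
  classical
  rw [Matrix.det_apply, MvPolynomial.coeff_sum]
  have h1 : ∀ τ : Perm (A × Fin k), MvPolynomial.coeff (mon d σ)
      (Perm.sign τ • ∏ u, (1 + Matrix.of fun (u v : A × Fin k) =>
        (MvPolynomial.X (u.1, v.1) * MvPolynomial.C (x v.1 u.2 v.2) :
          MvPolynomial (A × A) R)) (τ u) u) =
      ∑ S : Finset (A × Fin k), if (∀ u, u ∉ S → τ u = u) ∧
        ∑ u ∈ S, Finsupp.single ((τ u).1, u.1) 1 = mon d σ then
          ((Perm.sign τ : ℤˣ) : ℤ) • ∏ u ∈ S, x u.1 (τ u).2 u.2 else 0 := by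
    intro τ
    have e1 : ∀ u, (1 + Matrix.of fun (u v : A × Fin k) =>
        (MvPolynomial.X (u.1, v.1) * MvPolynomial.C (x v.1 u.2 v.2) :
          MvPolynomial (A × A) R)) (τ u) u =
        MvPolynomial.monomial (Finsupp.single ((τ u).1, u.1) 1) (x u.1 (τ u).2 u.2) +
          (if τ u = u then 1 else 0) := by
      intro u
      rw [Matrix.add_apply, add_comm, Matrix.of_apply, Matrix.one_apply]
      congr 1
      rw [mul_comm, MvPolynomial.C_mul_X_eq_monomial]
    rw [Finset.prod_congr rfl fun u _ => e1 u, Finset.prod_add, Units.smul_def, Finset.smul_sum,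
      MvPolynomial.coeff_sum, Finset.powerset_univ]
    refine Finset.sum_congr rfl fun S _ => ?_
    have e2 : (∏ u ∈ S, (MvPolynomial.monomial (Finsupp.single ((τ u).1, u.1) 1)
        (x u.1 (τ u).2 u.2) : MvPolynomial (A × A) R)) =
        MvPolynomial.monomial (∑ u ∈ S, Finsupp.single ((τ u).1, u.1) 1)
          (∏ u ∈ S, x u.1 (τ u).2 u.2) :=
      (MvPolynomial.monomial_sum_prod S _ _).symm
    rw [e2]
    by_cases hS : ∀ u, u ∉ S → τ u = u
    · have e3 : (∏ u ∈ univ \ S, (if τ u = u then 1 else 0 : MvPolynomial (A × A) R)) = 1 := by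
        refine Finset.prod_eq_one fun u hu => ?_
        rw [if_pos (hS u (Finset.mem_sdiff.1 hu).2)]
      rw [e3, mul_one, MvPolynomial.coeff_smul, MvPolynomial.coeff_monomial]
      by_cases hm : ∑ u ∈ S, Finsupp.single ((τ u).1, u.1) 1 = mon d σ
      · rw [if_pos hm, if_pos ⟨hS, hm⟩]
      · rw [if_neg hm, if_neg (fun h => hm h.2), smul_zero]
    · have e3 : (∏ u ∈ univ \ S, (if τ u = u then 1 else 0 : MvPolynomial (A × A) R)) = 0 := by
        push Not at hS
        obtain ⟨u, hu, hu'⟩ := hS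
        exact Finset.prod_eq_zero (Finset.mem_sdiff.2 ⟨mem_univ u, hu⟩) (if_neg hu')
      rw [e3, mul_zero, smul_zero, MvPolynomial.coeff_zero, if_neg (fun h => hS h.1)]
  rw [Finset.sum_congr rfl fun τ _ => h1 τ, ← Finset.sum_product', Finset.smul_sum,
    ← Finset.sum_filter]
  symm
  refine Finset.sum_bij (fun w _ => (σ.viaEmbedding (gr d w), univ.map (gr d w))) ?_ ?_ ?_ ?_
  · intro w _
    rw [Finset.mem_filter]
    refine ⟨Finset.mem_product.2 ⟨mem_univ _, mem_univ _⟩, fun u hu => ?_, ?_⟩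
    · apply Perm.viaEmbedding_apply_of_notMem
      rintro ⟨a, rfl⟩
      exact hu (Finset.mem_map_of_mem _ (mem_univ a))
    · rw [Finset.sum_map]
      unfold mon
      refine Finset.sum_congr rfl fun a _ => ?_
      rw [Perm.viaEmbedding_apply]
      rfl
  · intro w _ w' _ h
    exact gr_injective d (Prod.mk.inj h).2
  · intro y hy
    rw [Finset.mem_filter] at hy
    obtain ⟨w, h2, h3⟩ := graph_of_sum d σ y.1 y.2 hy.2.1 hy.2.2
    exact ⟨w, mem_univ w, Prod.ext h3.symm h2.symm⟩
  · intro w _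
    rw [Finset.prod_map]
    have e4 : Perm.sign (σ.viaEmbedding (gr d w)) = Perm.sign σ :=
      H4.sign_via (gr d w) σ
    rw [e4]
    congr 1
    refine Finset.prod_congr rfl fun a _ => ?_
    rw [Perm.viaEmbedding_apply]
    rfl

end det

end Pool.PI34.VL
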