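import Pool.Agent.LibPI34.X_HEx

/-!
PI34, p = 2, block SEX: the abstract chase, definitions.

`M` = strings modulo the relations of the words (torsion free), `A` = the conjugation action of
the group algebra of the permutations of the letters (`Fin m` = letters of the W-catalyst,
`Fin n` = letters of the polynomial), `th` = right multiplication by the two V-catalysts.
-/

set_option autoImplicit false
set_option linter.unusedSectionVars false

namespace Pool.PI34.XS

open Equiv Finset
open Pool.PI34.H4 (P g act emb As ZP JR cc AK Ac)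
open Pool.PI34.XH (sgB Inter kap)

/-- a permutation of the letters `Fin n` -/
abbrev rr {m n : ℕ} (σ : Perm (Fin n)) : Perm (Fin m ⊕ Fin n) := sumCongr 1 σ

/-- chase settings -/
structure CS (N n m : ℕ) (M : Type) [AddCommGroup M] where
  /-- conjugation action -/
  A : P (Fin m ⊕ Fin n) →+* AddMonoid.End M
  tf : ∀ (a : ℤ) (x : M), a ≠ 0 → a • x = 0 → x = 0
  ker : ∀ q, act N _ q = 0 → A q = 0
  /-- the V-catalysts -/
  th : M →+ M
  thA : ∀ q x, th (A q x) = A q (th x)
  κ : ℤ
  hκ : Odd κ
  thth : ∀ x, th (th x) = κ • th x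
  /-- the W-catalyst -/
  z : P (Fin m)
  h : ℤ
  hh : Odd h
  zz : z * z = h • z
  hz : ZP N 2 z
  /-- the even step -/
  ev : ∀ (C' : Type) [DecidableEq C'] (c' : Fin n → C') (w : M),
    ∑ σ ∈ univ.filter (fun σ : Perm (Fin n) => c' ∘ σ = c'), A (g (rr σ)) (th w) = 0 →
    ∀ (W : Type) [AddCommGroup W] (lam : M →+ W),
      (∀ σ : Perm (Fin n), c' ∘ σ = c' → ∀ y, lam (A (g (rr σ)) y) = lam y) →
      ∃ o : ℤ, Odd o ∧ o • lam (th w) = 0

variable {N n m : ℕ} {M : Type} [AddCommGroup M] (S : CS N n m M)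
variable {C : Type} [DecidableEq C] (c : Fin n → C)

/-- the action of the permutations of the letters -/
noncomputable def CS.cj (σ : Perm (Fin n)) (x : M) : M := S.A (g (rr σ)) x

/-- the action of the W-catalyst -/
noncomputable def CS.Z (x : M) : M := S.A (emb Function.Embedding.inl S.z) x

/-- `x` at the place `h` (the letters in `h` are exotic `xi`, the others `x`) -/
def dl (h : Finset (Fin n)) (x : M) : Finset (Fin n) → M := Pi.single h x

/-- the exotic relations -/
noncomputable def CS.Rel : AddSubgroup (Finset (Fin n) → M) :=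
  AddSubgroup.closure {t | ∃ (i j : Fin n) (h : Finset (Fin n)) (y : M), (j : ℕ) = i + 1 ∧
    c i = c j ∧ i ∉ h ∧ j ∉ h ∧
    (t = dl h (S.cj (swap i j) y) - dl h y + dl (insert i (insert j h)) y ∨
     t = dl (insert i h) (S.cj (swap i j) y) - dl (insert j h) y
        + kap h.card • dl (insert i (insert j h)) y ∨
     t = dl (insert j h) (S.cj (swap i j) y) - dl (insert i h) y
        + kap h.card • dl (insert i (insert j h)) y ∨
     t = dl (insert i (insert j h)) (S.cj (swap i j) y) + dl (insert i (insert j h)) y)}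

/-- the filtration -/
noncomputable def CS.F (j : ℕ) : AddSubgroup (Finset (Fin n) → M) :=
  AddSubgroup.closure {t | ∃ (h : Finset (Fin n)) (w : M), j ≤ h.card ∧
    t = dl h (S.Z (S.th w))} ⊔ S.Rel c

/-- typed functions -/
def tyM (t : Finset (Fin n) → M) (B : Finset (Fin n)) : M :=
  ∑ h ∈ B.powerset, ((2 : ℤ) ^ ((h.card + 1) / 2)) • t h

/-- the signed typed component -/
noncomputable def CS.tau (B : Finset (Fin n)) (t : Finset (Fin n) → M) : M :=
  ∑ σ ∈ univ.filter (fun σ : Perm (Fin n) => c ∘ σ = c),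
    sgB σ B • S.cj σ (tyM t (B.map (σ⁻¹ : Perm (Fin n)).toEmbedding))

/-- sorted sets: initial in every colour class -/
def Srt (B : Finset (Fin n)) : Prop := ∀ i j : Fin n, i ≤ j → c i = c j → j ∈ B → i ∈ B

/-- the signed norm of the stabiliser of `B` -/
noncomputable def CS.NB (B : Finset (Fin n)) (y : M) : M :=
  ∑ σ ∈ univ.filter (fun σ : Perm (Fin n) => c ∘ σ = c ∧ B.map σ.toEmbedding = B),
    sgB σ B • S.cj σ y

/-- the signed sum over the odd letters -/
noncomputable def AS (m : ℕ) (B : Finset (Fin n)) : P (Fin m ⊕ Fin n) :=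
  ∑ σ ∈ univ.filter (fun σ : Perm (Fin n) => c ∘ σ = c ∧ ∀ x, x ∉ B → σ x = x),
    ((Perm.sign σ : ℤˣ) : ℤ) • g (rr σ)

end Pool.PI34.XS
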