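import Pool.Agent.LibPI34.XS_Def

/-! PI34, p = 2, block SEX, row E1: the typed components of the exotic relations vanish. -/

set_option autoImplicit false
set_option linter.unusedSectionVars false

namespace Pool.PI34.XS

open Equiv Finset
open Pool.PI34.H4 (P g act emb As ZP JR cc AK Ac)
open Pool.PI34.XH (sgB Inter kap)

variable {N n m : ℕ} {M : Type} [AddCommGroup M] (S : CS N n m M)
variable {C : Type} [DecidableEq C] (c : Fin n → C)

theorem e1_swap_lt {i j x y : Fin n} (hij : (j : ℕ) = i + 1) (hxy : x < y)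
    (hne : (x, y) ≠ (i, j)) : swap i j x < swap i j y := by
  have hne' : ¬ (x = i ∧ y = j) := fun h => hne (by rw [h.1, h.2])
  rw [Fin.lt_def] at hxy ⊢
  simp only [swap_apply_def]
  split_ifs with h1 h2 h3 h4 h5 h6 h7 h8 <;> subst_vars <;>
    omega

/-- the sign after an adjacent transposition -/
theorem e1_sg_swap (σ : Perm (Fin n)) (B : Finset (Fin n)) {i j : Fin n} (hij : (j : ℕ) = i + 1) :
    sgB (σ * swap i j) B = (if σ i ∈ B ∧ σ j ∈ B then -1 else 1) * sgB σ B := by
  classical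
  have hlt : i < j := by rw [Fin.lt_def]; omega
  have hne : i ≠ j := ne_of_lt hlt
  set A : Perm (Fin n) → Finset (Fin n × Fin n) := fun τ =>
    univ.filter fun p : Fin n × Fin n => p.1 < p.2 ∧ τ p.2 < τ p.1 ∧ τ p.1 ∈ B ∧ τ p.2 ∈ B with hA
  have hsg : ∀ τ : Perm (Fin n), sgB τ B = (-1) ^ (A τ).card := fun τ => rfl
  have hmem : ∀ (τ : Perm (Fin n)) (p : Fin n × Fin n), p ∈ A τ ↔
      p.1 < p.2 ∧ τ p.2 < τ p.1 ∧ τ p.1 ∈ B ∧ τ p.2 ∈ B := by
    intro τ p; simp [hA]
  have hcard : ((A (σ * swap i j)).erase (i, j)).card = ((A σ).erase (i, j)).card := by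
    refine Finset.card_bij (fun p _ => (swap i j p.1, swap i j p.2)) ?_ ?_ ?_
    · intro p hp
      obtain ⟨h1, h2⟩ := mem_erase.1 hp
      obtain ⟨h3, h4, h5, h6⟩ := (hmem _ _).1 h2
      have h7 : swap i j p.1 < swap i j p.2 := e1_swap_lt hij h3 (by rwa [Prod.mk.eta])
      refine mem_erase.2 ⟨?_, (hmem _ _).2 ⟨h7, h4, h5, h6⟩⟩
      intro h8
      have h9 : swap i j p.1 = i := congrArg Prod.fst h8
      have h10 : swap i j p.2 = j := congrArg Prod.snd h8
      have h11 : p.1 = j := (swap i j).injective (h9.trans (swap_apply_right i j).symm)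
      have h12 : p.2 = i := (swap i j).injective (h10.trans (swap_apply_left i j).symm)
      rw [h11, h12] at h3
      exact absurd h3 (not_lt.2 hlt.le)
    · intro p hp q hq h
      have h1 : swap i j p.1 = swap i j q.1 := congrArg Prod.fst h
      have h2 : swap i j p.2 = swap i j q.2 := congrArg Prod.snd h
      exact Prod.ext ((swap i j).injective h1) ((swap i j).injective h2)
    · intro q hq
      obtain ⟨h1, h2⟩ := mem_erase.1 hq
      obtain ⟨h3, h4, h5, h6⟩ := (hmem _ _).1 h2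
      have h7 : swap i j q.1 < swap i j q.2 := e1_swap_lt hij h3 (by rwa [Prod.mk.eta])
      refine ⟨(swap i j q.1, swap i j q.2), mem_erase.2 ⟨?_, (hmem _ _).2 ⟨h7, ?_, ?_, ?_⟩⟩, ?_⟩
      · intro h8
        have h9 : swap i j q.1 = i := congrArg Prod.fst h8
        have h10 : swap i j q.2 = j := congrArg Prod.snd h8
        have h11 : q.1 = j := (swap i j).injective (h9.trans (swap_apply_right i j).symm)
        have h12 : q.2 = i := (swap i j).injective (h10.trans (swap_apply_left i j).symm)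
        rw [h11, h12] at h3
        exact absurd h3 (not_lt.2 hlt.le)
      · simp only [Perm.mul_apply, swap_apply_self]; exact h4
      · simp only [Perm.mul_apply, swap_apply_self]; exact h5
      · simp only [Perm.mul_apply, swap_apply_self]; exact h6
      · simp only [swap_apply_self]
  have hm1 : (i, j) ∈ A (σ * swap i j) ↔ σ i < σ j ∧ σ j ∈ B ∧ σ i ∈ B := by
    rw [hmem]
    simp only [Perm.mul_apply, swap_apply_left, swap_apply_right]
    constructor
    · rintro ⟨_, h2, h3, h4⟩; exact ⟨h2, h3, h4⟩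
    · rintro ⟨h2, h3, h4⟩; exact ⟨hlt, h2, h3, h4⟩
  have hm2 : (i, j) ∈ A σ ↔ σ j < σ i ∧ σ i ∈ B ∧ σ j ∈ B := by
    rw [hmem]
    constructor
    · rintro ⟨_, h2, h3, h4⟩; exact ⟨h2, h3, h4⟩
    · rintro ⟨h2, h3, h4⟩; exact ⟨hlt, h2, h3, h4⟩
  have hne2 : σ i ≠ σ j := fun h => hne (σ.injective h)
  rw [hsg, hsg]
  by_cases hB : σ i ∈ B ∧ σ j ∈ B
  · rw [if_pos hB]
    rcases lt_or_gt_of_ne hne2 with h | h
    · have h1 : (i, j) ∈ A (σ * swap i j) := hm1.2 ⟨h, hB.2, hB.1⟩
      have h2 : (i, j) ∉ A σ := fun h' => absurd (hm2.1 h').1 (not_lt.2 h.le)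
      have h3 := Finset.card_erase_add_one h1
      rw [Finset.erase_eq_of_notMem h2] at hcard
      rw [← h3, hcard, pow_succ]; ring
    · have h1 : (i, j) ∈ A σ := hm2.2 ⟨h, hB.1, hB.2⟩
      have h2 : (i, j) ∉ A (σ * swap i j) := fun h' => absurd (hm1.1 h').1 (not_lt.2 h.le)
      have h3 := Finset.card_erase_add_one h1
      rw [Finset.erase_eq_of_notMem h2] at hcard
      rw [← h3, hcard, pow_succ]; ring
  · rw [if_neg hB, one_mul]
    have h1 : (i, j) ∉ A (σ * swap i j) := fun h' => hB ⟨(hm1.1 h').2.2, (hm1.1 h').2.1⟩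
    have h2 : (i, j) ∉ A σ := fun h' => hB (hm2.1 h').2
    rw [Finset.erase_eq_of_notMem h1, Finset.erase_eq_of_notMem h2] at hcard
    rw [hcard]

theorem e1_cj_mul (σ τ : Perm (Fin n)) (x : M) : S.cj (σ * τ) x = S.cj σ (S.cj τ x) := by
  unfold CS.cj
  have h1 : (rr (m := m) (σ * τ)) = rr σ * rr τ := by
    ext x
    rcases x with x | x <;> simp [rr]
  rw [h1, H4.g_mul, map_mul]
  rfl

theorem e1_cj_one (x : M) : S.cj 1 x = x := by
  unfold CS.cj
  have h1 : (rr (m := m) (1 : Perm (Fin n))) = 1 := by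
    ext x
    rcases x with x | x <;> simp [rr]
  rw [h1, H4.g_one, map_one]
  rfl

theorem e1_cj_swap_swap (i j : Fin n) (x : M) : S.cj (swap i j) (S.cj (swap i j) x) = x := by
  rw [← e1_cj_mul, swap_mul_self, e1_cj_one]

theorem e1_cj_add (σ : Perm (Fin n)) (x y : M) : S.cj σ (x + y) = S.cj σ x + S.cj σ y :=
  map_add _ _ _

theorem e1_cj_zero (σ : Perm (Fin n)) : S.cj σ 0 = 0 := map_zero _

theorem e1_cj_neg (σ : Perm (Fin n)) (x : M) : S.cj σ (-x) = -S.cj σ x := map_neg _ _

theorem e1_cj_sub (σ : Perm (Fin n)) (x y : M) : S.cj σ (x - y) = S.cj σ x - S.cj σ y :=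
  map_sub _ _ _

theorem e1_cj_zsmul (σ : Perm (Fin n)) (a : ℤ) (x : M) : S.cj σ (a • x) = a • S.cj σ x :=
  map_zsmul _ _ _

theorem e1_ty_add (t u : Finset (Fin n) → M) (B : Finset (Fin n)) :
    tyM (t + u) B = tyM t B + tyM u B := by
  unfold tyM
  rw [← Finset.sum_add_distrib]
  refine Finset.sum_congr rfl fun h _ => ?_
  rw [Pi.add_apply, smul_add]

theorem e1_ty_neg (t : Finset (Fin n) → M) (B : Finset (Fin n)) :
    tyM (-t) B = -tyM t B := by
  unfold tyM
  rw [← Finset.sum_neg_distrib]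
  refine Finset.sum_congr rfl fun h _ => ?_
  rw [Pi.neg_apply, smul_neg]

theorem e1_ty_zero (B : Finset (Fin n)) : tyM (0 : Finset (Fin n) → M) B = 0 := by
  unfold tyM
  refine Finset.sum_eq_zero fun h _ => ?_
  rw [Pi.zero_apply, smul_zero]

theorem e1_ty_sub (t u : Finset (Fin n) → M) (B : Finset (Fin n)) :
    tyM (t - u) B = tyM t B - tyM u B := by
  rw [sub_eq_add_neg, e1_ty_add, e1_ty_neg, ← sub_eq_add_neg]

theorem e1_ty_zsmul (a : ℤ) (t : Finset (Fin n) → M) (B : Finset (Fin n)) :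
    tyM (a • t) B = a • tyM t B := by
  unfold tyM
  rw [Finset.smul_sum]
  refine Finset.sum_congr rfl fun h _ => ?_
  rw [Pi.smul_apply, smul_comm]

theorem e1_ty_dl (h : Finset (Fin n)) (x : M) (B : Finset (Fin n)) :
    tyM (dl h x) B = if h ⊆ B then ((2 : ℤ) ^ ((h.card + 1) / 2)) • x else 0 := by
  unfold tyM dl
  by_cases hB : h ⊆ B
  · rw [if_pos hB, Finset.sum_eq_single h]
    · rw [Pi.single_eq_same]
    · intro k _ hk
      rw [Pi.single_eq_of_ne hk, smul_zero]
    · intro hk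
      exact absurd (mem_powerset.2 hB) hk
  · rw [if_neg hB]
    refine Finset.sum_eq_zero fun k hk => ?_
    have : k ≠ h := by
      rintro rfl
      exact hB (mem_powerset.1 hk)
    rw [Pi.single_eq_of_ne this, smul_zero]

theorem CS.tau_add (B : Finset (Fin n)) (t u : Finset (Fin n) → M) :
    S.tau c B (t + u) = S.tau c B t + S.tau c B u := by
  unfold CS.tau
  rw [← Finset.sum_add_distrib]
  refine Finset.sum_congr rfl fun σ _ => ?_
  rw [e1_ty_add, e1_cj_add, smul_add]

theorem e1_tau_neg (B : Finset (Fin n)) (t : Finset (Fin n) → M) :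
    S.tau c B (-t) = - S.tau c B t := by
  unfold CS.tau
  rw [← Finset.sum_neg_distrib]
  refine Finset.sum_congr rfl fun σ _ => ?_
  rw [e1_ty_neg, e1_cj_neg, smul_neg]

theorem e1_tau_zero (B : Finset (Fin n)) : S.tau c B (0 : Finset (Fin n) → M) = 0 := by
  unfold CS.tau
  refine Finset.sum_eq_zero fun σ _ => ?_
  rw [e1_ty_zero, e1_cj_zero, smul_zero]

theorem e1_mem_map (σ : Perm (Fin n)) (B : Finset (Fin n)) (x : Fin n) :
    x ∈ B.map (σ⁻¹ : Perm (Fin n)).toEmbedding ↔ σ x ∈ B := by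
  rw [Finset.mem_map]
  constructor
  · rintro ⟨y, hy, rfl⟩
    simpa using hy
  · intro h
    exact ⟨σ x, h, by simp⟩

/-- the involution argument -/
theorem e1_tau_zero_of (B : Finset (Fin n)) {i j : Fin n} (hij : (j : ℕ) = i + 1)
    (hc : c i = c j) (t : Finset (Fin n) → M)
    (ht : ∀ B' : Finset (Fin n), ∀ B'' : Finset (Fin n),
      (∀ x, x ∈ B'' ↔ swap i j x ∈ B') →
      tyM t B' + (if i ∈ B' ∧ j ∈ B' then (-1 : ℤ) else 1) • S.cj (swap i j) (tyM t B'') = 0) :
    S.tau c B t = 0 := by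
  classical
  have hne : i ≠ j := by
    intro h; rw [h] at hij; omega
  have hcs : ∀ σ : Perm (Fin n), c ∘ σ = c → c ∘ (σ * swap i j : Perm (Fin n)) = c := by
    intro σ hσ
    funext x
    have h1 : c ((σ * swap i j : Perm (Fin n)) x) = c (swap i j x) := congrFun hσ (swap i j x)
    simp only [Function.comp_apply]
    rw [h1]
    by_cases hx : x = i
    · rw [hx, swap_apply_left, hc]
    · by_cases hx' : x = j
      · rw [hx', swap_apply_right, hc]
      · rw [swap_apply_of_ne_of_ne hx hx']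
  unfold CS.tau
  refine Finset.sum_involution (fun σ _ => σ * swap i j) ?_ ?_ ?_ ?_
  · intro σ _
    have h1 := ht (B.map (σ⁻¹ : Perm (Fin n)).toEmbedding)
      (B.map ((σ * swap i j)⁻¹ : Perm (Fin n)).toEmbedding) (by
        intro x
        rw [e1_mem_map, e1_mem_map]; rfl)
    simp only [e1_mem_map] at h1
    rw [e1_sg_swap σ B hij, e1_cj_mul]
    have h2 : (((if σ i ∈ B ∧ σ j ∈ B then (-1 : ℤ) else 1) * sgB σ B) •
        S.cj σ (S.cj (swap i j) (tyM t (B.map ((σ * swap i j)⁻¹ : Perm (Fin n)).toEmbedding)))) =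
        sgB σ B • S.cj σ ((if σ i ∈ B ∧ σ j ∈ B then (-1 : ℤ) else 1) •
          S.cj (swap i j) (tyM t (B.map ((σ * swap i j)⁻¹ : Perm (Fin n)).toEmbedding))) := by
      rw [e1_cj_zsmul, smul_smul, mul_comm]
    rw [h2, ← smul_add, ← e1_cj_add, h1, e1_cj_zero, smul_zero]
  · intro σ _ _ h
    have h1 : swap i j = 1 := by
      have := congrArg (fun τ => σ⁻¹ * τ) h
      simpa using this
    exact hne (by simpa using congrArg (fun τ : Perm (Fin n) => τ j) h1)
  · intro σ hσ
    rw [mem_filter] at hσ ⊢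
    exact ⟨mem_univ _, hcs σ hσ.2⟩
  · intro σ _
    rw [mul_assoc, swap_mul_self, mul_one]

theorem e1_sub_iff {i j : Fin n} (h B' B'' : Finset (Fin n)) (hi : i ∉ h) (hj : j ∉ h)
    (hB : ∀ x, x ∈ B'' ↔ swap i j x ∈ B') : h ⊆ B'' ↔ h ⊆ B' := by
  have key : ∀ x ∈ h, swap i j x = x := fun x hx =>
    swap_apply_of_ne_of_ne (fun e => hi (e ▸ hx)) (fun e => hj (e ▸ hx))
  constructor
  · intro h1 x hx
    have := (hB x).1 (h1 hx)
    rwa [key x hx] at this
  · intro h1 x hx
    rw [hB x, key x hx]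
    exact h1 hx

theorem e1_pow1 (h : Finset (Fin n)) {i : Fin n} (hi : i ∉ h) :
    (2 : ℤ) ^ (((insert i h).card + 1) / 2) = kap h.card * 2 ^ ((h.card + 1) / 2) := by
  rw [card_insert_of_notMem hi]
  unfold kap
  rcases Nat.even_or_odd h.card with h1 | h1
  · rw [if_pos h1]
    obtain ⟨k, hk⟩ := h1
    rw [hk]
    have e1 : (k + k + 1 + 1) / 2 = k + 1 := by omega
    have e2 : (k + k + 1) / 2 = k := by omega
    rw [e1, e2, pow_succ]; ring
  · rw [if_neg (Nat.not_even_iff_odd.2 h1)]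
    obtain ⟨k, hk⟩ := h1
    rw [hk]
    have e1 : (2 * k + 1 + 1 + 1) / 2 = k + 1 := by omega
    have e2 : (2 * k + 1 + 1) / 2 = k + 1 := by omega
    rw [e1, e2]; ring

theorem e1_pow2 (h : Finset (Fin n)) {i j : Fin n} (hi : i ∉ h) (hj : j ∉ h) (hij : i ≠ j) :
    (2 : ℤ) ^ (((insert i (insert j h)).card + 1) / 2) = 2 * 2 ^ ((h.card + 1) / 2) := by
  have h1 : i ∉ insert j h := by
    rw [mem_insert]; rintro (e | e)
    · exact hij e
    · exact hi e
  rw [card_insert_of_notMem h1, card_insert_of_notMem hj]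
  have e1 : (h.card + 1 + 1 + 1) / 2 = (h.card + 1) / 2 + 1 := by omega
  rw [e1, pow_succ]; ring

theorem e1_kap (k : ℕ) (h : Finset (Fin n)) (hk : k = h.card) :
    kap k * (2 * (2 : ℤ) ^ ((h.card + 1) / 2)) = 2 * (kap h.card * 2 ^ ((h.card + 1) / 2)) := by
  rw [hk]; ring

/-- E1: the typed components of the relations vanish. -/
theorem CS.tau_rel (B : Finset (Fin n)) (t : Finset (Fin n) → M) (ht : t ∈ S.Rel c) :
    S.tau c B t = 0 := by
  classical
  unfold CS.Rel at ht
  induction ht using AddSubgroup.closure_induction with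
  | zero => exact e1_tau_zero S c B
  | add x y _ _ hx hy => rw [CS.tau_add, hx, hy, add_zero]
  | neg x _ hx => rw [e1_tau_neg, hx, neg_zero]
  | mem x hx =>
    obtain ⟨i, j, h, y, hij, hc, hi, hj, hx⟩ := hx
    have hne : i ≠ j := by
      intro e; rw [e] at hij; omega
    refine e1_tau_zero_of S c B hij hc x ?_
    intro B' B'' hB
    have hsub := e1_sub_iff h B' B'' hi hj hB
    have hBi : i ∈ B'' ↔ j ∈ B' := by rw [hB i, swap_apply_left]
    have hBj : j ∈ B'' ↔ i ∈ B' := by rw [hB j, swap_apply_right]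
    have p1 := e1_pow1 h hi
    have p1' := e1_pow1 h hj
    have p2 := e1_pow2 h hi hj hne
    set e : ℤ := 2 ^ ((h.card + 1) / 2) with he
    rcases hx with hx | hx | hx | hx <;> subst hx <;>
      simp only [e1_ty_add, e1_ty_sub, e1_ty_zsmul, e1_ty_dl, insert_subset_iff, hsub, hBi, hBj,
        p1, p1', p2] <;>
      by_cases hh : h ⊆ B' <;> by_cases h1 : i ∈ B' <;> by_cases h2 : j ∈ B' <;>
      simp only [hh, h1, h2, and_true, and_false, and_self, if_true, if_false,
        smul_zero, add_zero, sub_zero, zero_sub, e1_cj_zero, e1_cj_add, e1_cj_sub,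
        e1_cj_neg, e1_cj_zsmul, e1_cj_swap_swap] <;>
      module

theorem e1_tau_dl_sum (B h : Finset (Fin n)) (hB : B.card ≤ h.card) (y : M) :
    S.tau c B (dl h y) = ∑ σ ∈ univ.filter (fun σ : Perm (Fin n) => c ∘ σ = c),
      if h.map σ.toEmbedding = B then ((2 : ℤ) ^ ((h.card + 1) / 2)) • (sgB σ B • S.cj σ y)
        else 0 := by
  classical
  unfold CS.tau
  refine Finset.sum_congr rfl fun σ _ => ?_
  rw [e1_ty_dl]
  have hiff : h ⊆ B.map (σ⁻¹ : Perm (Fin n)).toEmbedding ↔ h.map σ.toEmbedding = B := by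
    constructor
    · intro h1
      refine Finset.eq_of_subset_of_card_le ?_ (by rw [card_map]; exact hB)
      intro x hx
      obtain ⟨z, hz, rfl⟩ := Finset.mem_map.1 hx
      exact (e1_mem_map σ B z).1 (h1 hz)
    · intro h1 x hx
      rw [e1_mem_map, ← h1]
      exact Finset.mem_map.2 ⟨x, hx, rfl⟩
  by_cases h1 : h.map σ.toEmbedding = B
  · rw [if_pos h1, if_pos (hiff.2 h1), e1_cj_zsmul, smul_comm]
  · rw [if_neg h1, if_neg (fun h2 => h1 (hiff.1 h2)), e1_cj_zero, smul_zero]

theorem e1_srt_eq (B h : Finset (Fin n)) (hs : Srt c B) (hh : Srt c h) (σ : Perm (Fin n))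
    (hσ : c ∘ σ = c) (hm : h.map σ.toEmbedding = B) : h = B := by
  classical
  have hcard : h.card = B.card := by rw [← hm, card_map]
  refine Finset.eq_of_subset_of_card_le ?_ hcard.ge
  intro x hx
  by_contra hxB
  have h1 : ((B.filter (fun z => c z = c x))).card = (h.filter (fun z => c z = c x)).card := by
    rw [← hm]
    symm
    refine Finset.card_bij (fun z _ => σ z) ?_ ?_ ?_
    · intro z hz
      rw [mem_filter] at hz ⊢
      refine ⟨Finset.mem_map.2 ⟨z, hz.1, rfl⟩, ?_⟩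
      rw [← hz.2]; exact congrFun hσ z
    · intro z _ w _ e; exact σ.injective e
    · intro w hw
      rw [mem_filter] at hw
      obtain ⟨z, hz, hzw⟩ := Finset.mem_map.1 hw.1
      refine ⟨z, mem_filter.2 ⟨hz, ?_⟩, hzw⟩
      have h2 : c (σ z) = c z := congrFun hσ z
      have h3 : σ z = w := hzw
      rw [← h2, h3]; exact hw.2
  have h2 : insert x (B.filter (fun z => c z = c x)) ⊆ h.filter (fun z => c z = c x) := by
    intro z hz
    rw [mem_insert] at hz
    rcases hz with rfl | hz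
    · exact mem_filter.2 ⟨hx, rfl⟩
    · rw [mem_filter] at hz ⊢
      refine ⟨?_, hz.2⟩
      rcases le_or_gt x z with h3 | h3
      · exact absurd (hs x z h3 hz.2.symm hz.1) hxB
      · exact hh z x h3.le hz.2 hx
  have h3 := Finset.card_le_card h2
  rw [card_insert_of_notMem (by rw [mem_filter]; exact fun h4 => hxB h4.1), h1] at h3
  omega

/-- E1b: leading components. -/
theorem CS.tau_dl (B h : Finset (Fin n)) (hB : B.card ≤ h.card) (hs : Srt c B) (hh : Srt c h)
    (y : M) : S.tau c B (dl h y) =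
      if h = B then ((2 : ℤ) ^ ((B.card + 1) / 2)) • S.NB c B y else 0 := by
  classical
  rw [e1_tau_dl_sum S c B h hB y]
  by_cases hhB : h = B
  · subst hhB
    rw [if_pos rfl]
    unfold CS.NB
    rw [← Finset.sum_filter, Finset.filter_filter, Finset.smul_sum]
  · rw [if_neg hhB]
    refine Finset.sum_eq_zero fun σ hσ => ?_
    rw [if_neg]
    intro h1
    exact hhB (e1_srt_eq c B h hs hh σ (mem_filter.1 hσ).2 h1)

theorem CS.tau_high (B h : Finset (Fin n)) (hB : B.card < h.card) (y : M) :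
    S.tau c B (dl h y) = 0 := by
  classical
  rw [e1_tau_dl_sum S c B h hB.le y]
  refine Finset.sum_eq_zero fun σ _ => ?_
  rw [if_neg]
  intro h1
  rw [← h1, card_map] at hB
  exact lt_irrefl _ hB

end Pool.PI34.XS
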