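import Pool.Agent.LibPI34.XS_Def

/-! PI34, p = 2, block SEX: row E3. -/

set_option autoImplicit false
set_option linter.unusedSectionVars false

namespace Pool.PI34.XS

open Equiv Finset
open Pool.PI34.H4 (P g act emb As ZP JR cc AK Ac)
open Pool.PI34.XH (sgB Inter kap)

variable {N n m : ℕ} {M : Type} [AddCommGroup M] (S : CS N n m M)
variable {C : Type} [DecidableEq C] (c : Fin n → C)

theorem e3_cj_mul (σ τ : Perm (Fin n)) (x : M) : S.cj (σ * τ) x = S.cj σ (S.cj τ x) := by
  unfold CS.cj
  have h1 : (rr (σ * τ) : Perm (Fin m ⊕ Fin n)) = rr σ * rr τ := by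
    ext x
    rcases x with x | x <;> rfl
  rw [h1, H4.g_mul, map_mul]
  rfl

theorem e3_adj (B : Finset (Fin n)) (i j : Fin n) (hij : (j : ℕ) = i + 1) (hi : i ∈ B)
    (hj : j ∈ B) (hcij : c i = c j) (y : M) :
    dl B (S.cj (swap i j) y) + dl B y ∈ S.Rel c := by
  have hne : i ≠ j := by
    rintro rfl
    omega
  have hB : insert i (insert j ((B.erase i).erase j)) = B := by
    rw [Finset.insert_erase, Finset.insert_erase hi]
    exact Finset.mem_erase.2 ⟨hne.symm, hj⟩
  apply AddSubgroup.subset_closure
  refine ⟨i, j, (B.erase i).erase j, y, hij, hcij, ?_, ?_, ?_⟩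
  · simp
  · simp
  · rw [hB]
    exact Or.inr (Or.inr (Or.inr rfl))

/-- E3: the odd letters of one colour, all transpositions. -/
theorem CS.odd_swap (hc : Inter c) (B : Finset (Fin n)) (hB : Srt c B) (i j : Fin n)
    (hij : i ≠ j) (hi : i ∈ B) (hj : j ∈ B) (hcij : c i = c j) (y : M) :
    dl B (S.cj (swap i j) y) + dl B y ∈ S.Rel c := by
  have key : ∀ (d : ℕ) (i j : Fin n), (j : ℕ) = i + (d + 1) → i ∈ B → j ∈ B → c i = c j →
      ∀ y : M, dl B (S.cj (swap i j) y) + dl B y ∈ S.Rel c := by
    intro d
    induction d with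
    | zero =>
      intro i j h1 h2 h3 h4 y
      exact e3_adj S c B i j (by omega) h2 h3 h4 y
    | succ d ih =>
      intro i j h1 h2 h3 h4 y
      have hj0 : (j : ℕ) < n := j.2
      let j' : Fin n := ⟨i + (d + 1), by omega⟩
      have hj' : (j' : ℕ) = i + (d + 1) := rfl
      have hij' : i ≤ j' := by rw [Fin.le_def]; omega
      have hjj' : j' ≤ j := by rw [Fin.le_def]; omega
      have hcj' : c j' = c i := hc i j' j hij' hjj' h4
      have hBj' : j' ∈ B := hB j' j hjj' (hcj'.trans h4) h3
      have hsw : swap i j = swap j' j * swap i j' * swap j' j := by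
        have hne1 : i ≠ j' := by
          intro h
          have := congrArg Fin.val h
          omega
        have hne2 : i ≠ j := by
          intro h
          have := congrArg Fin.val h
          omega
        rw [swap_mul_swap_mul_swap hne1 hne2, swap_comm]
      rw [hsw, e3_cj_mul, e3_cj_mul]
      have e1 := e3_adj S c B j' j (by omega) hBj' h3 (hcj'.trans h4)
        (S.cj (swap i j') (S.cj (swap j' j) y))
      have e2 := ih i j' hj' h2 hBj' hcj'.symm (S.cj (swap j' j) y)
      have e3 := e3_adj S c B j' j (by omega) hBj' h3 (hcj'.trans h4) y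
      have e4 := (S.Rel c).add_mem ((S.Rel c).sub_mem e1 e2) e3
      have e5 : dl B (S.cj (swap j' j) (S.cj (swap i j') (S.cj (swap j' j) y))) + dl B y =
          dl B (S.cj (swap j' j) (S.cj (swap i j') (S.cj (swap j' j) y))) +
              dl B (S.cj (swap i j') (S.cj (swap j' j) y)) -
            (dl B (S.cj (swap i j') (S.cj (swap j' j) y)) + dl B (S.cj (swap j' j) y)) +
          (dl B (S.cj (swap j' j) y) + dl B y) := by abel
      rw [e5]
      exact e4
  rcases lt_or_gt_of_ne hij with h | h
  · rw [Fin.lt_def] at h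
    exact key ((j : ℕ) - i - 1) i j (by omega) hi hj hcij y
  · rw [Fin.lt_def] at h
    rw [swap_comm]
    exact key ((i : ℕ) - j - 1) j i (by omega) hj hi hcij.symm y

end Pool.PI34.XS
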