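import Pool.Agent.LibPI34.X_EvDef

/-!
PI34, p = 2, block EVEN2: the even step is exact on the multiples of the two catalysts.
-/

set_option autoImplicit false
set_option linter.unusedSectionVars false

namespace Pool.PI34.EV

open Equiv Finset
open Pool.PI34.H4

variable {k : ℕ} (V : VCat k)

/-- an equality of the actions -/
theorem act_congr_emb {α β : Type} [Fintype α] [DecidableEq α] [Fintype β] [DecidableEq β]
    {N : ℕ} (ι : α ↪ β) {x y : P α} (h : act N α x = act N α y) :
    act N β (emb ι x) = act N β (emb ι y) := by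
  have h1 := act_emb_eq_zero (N := N) ι (x - y) (by rw [map_sub, h, sub_self])
  rw [map_sub, map_sub, sub_eq_zero] at h1
  exact h1

/-- the two copies `θ ⊗ θ` -/
noncomputable def VCat.tt (x : P V.B) : P (V.B ⊕ V.B) :=
  emb Function.Embedding.inl x * emb Function.Embedding.inr x

theorem VCat.inl_inr_comm (x y : P V.B) :
    Commute (emb (Function.Embedding.inl : V.B ↪ V.B ⊕ V.B) x)
      (emb (Function.Embedding.inr : V.B ↪ V.B ⊕ V.B) y) :=
  commute_emb_emb _ _ (fun a b h => by cases h) x y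

theorem VCat.tt_mul (x y : P V.B) : V.tt (x * y) = V.tt x * V.tt y := by
  unfold VCat.tt
  rw [map_mul, map_mul]
  have h := (V.inl_inr_comm y x).eq
  calc emb Function.Embedding.inl x * emb Function.Embedding.inl y *
        (emb Function.Embedding.inr x * emb Function.Embedding.inr y)
      = emb Function.Embedding.inl x * (emb Function.Embedding.inl y *
        emb Function.Embedding.inr x) * emb Function.Embedding.inr y := by
          simp only [mul_assoc]
    _ = _ := by
          rw [h]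
          simp only [mul_assoc]

theorem VCat.tt_congr {x y : P V.B} (h : act k _ x = act k _ y) :
    act k _ (V.tt x) = act k _ (V.tt y) := by
  unfold VCat.tt
  rw [map_mul, map_mul, act_congr_emb _ h, act_congr_emb _ h]

theorem VCat.tt_sq : act k _ (V.tt V.θ * V.tt V.θ) = (V.κ * V.κ) • act k _ (V.tt V.θ) := by
  rw [← V.tt_mul]
  have h1 : act k _ (V.θ * V.θ) = act k _ (V.κ • V.θ) := by
    rw [V.sq, map_zsmul]
  rw [V.tt_congr h1]
  have h2 : V.tt (V.κ • V.θ) = (V.κ * V.κ) • V.tt V.θ := by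
    unfold VCat.tt
    rw [map_zsmul, map_zsmul, smul_mul_assoc, mul_smul_comm, smul_smul]
  rw [h2, map_zsmul]

/-- the embedding of the catalyst strands -/
def VCat.jj (A : Type) : (V.B ⊕ V.B) ↪ Al V A :=
  (Function.Embedding.inr : (V.B ⊕ V.B) ↪ A ⊕ (V.B ⊕ V.B)).trans Function.Embedding.some

theorem VCat.θ2_eq (A : Type) [Fintype A] [DecidableEq A] :
    V.θ2 A = emb (V.jj A) (V.tt V.θ) := by
  unfold VCat.θ2 VCat.tt
  rw [map_mul, emb_trans, emb_trans]
  rfl

/-- the new strands as places of the second pair of catalysts -/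
def VCat.io (A : Type) : Big (A ⊕ (V.B ⊕ V.B)) k ↪ (Al V A) ⊕ (V.B ⊕ V.B) :=
  ⟨Sum.map id (Sum.map Sum.inr Sum.inr), by
    rintro (a | a | a) (b | b | b) h
    · exact congrArg Sum.inl (Sum.inl_injective h)
    · cases h
    · cases h
    · cases h
    · have h1 := Sum.inl_injective (Sum.inr_injective h)
      rw [Sum.inr_injective h1]
    · cases h
    · cases h
    · cases h
    · have h1 := Sum.inr_injective (Sum.inr_injective h)
      rw [Sum.inr_injective h1]⟩

theorem VCat.io_inl (A : Type) : (Function.Embedding.inl : Al V A ↪ Big (A ⊕ (V.B ⊕ V.B)) k).trans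
    (V.io A) = Function.Embedding.inl := rfl

theorem filter_eq {A B C : Type} [Fintype A] [DecidableEq A] [Fintype B] [DecidableEq B]
    [DecidableEq C] (c : A → C) (h : Perm (A ⊕ B)) (hc : Sum.map c id ∘ h = Sum.map c id) :
    ∃ h' : Perm A, c ∘ h' = c ∧ h = sumCongr h' 1 := by
  have hr : ∀ b : B, h (Sum.inr b) = Sum.inr b := by
    intro b
    have h1 := congrFun hc (Sum.inr b)
    simp only [Function.comp_apply, Sum.map_inr, id] at h1
    rcases hb : h (Sum.inr b) with a | b'
    · rw [hb] at h1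
      cases h1
    · rw [hb] at h1
      simp only [Sum.map_inr, id] at h1
      rw [Sum.inr_injective h1]
  have hl : ∀ a : A, ∃ a' : A, h (Sum.inl a) = Sum.inl a' := by
    intro a
    rcases ha : h (Sum.inl a) with a' | b'
    · exact ⟨a', rfl⟩
    · exfalso
      have h1 : h (Sum.inl a) = h (Sum.inr b') := by rw [ha, hr]
      cases h.injective h1
  choose f hf using hl
  have hfi : Function.Injective f := by
    intro a a' e
    have h1 : h (Sum.inl a) = h (Sum.inl a') := by rw [hf, hf, e]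
    exact Sum.inl_injective (h.injective h1)
  refine ⟨Equiv.ofBijective f (Finite.injective_iff_bijective.1 hfi), ?_, ?_⟩
  · funext a
    have h1 := congrFun hc (Sum.inl a)
    simp only [Function.comp_apply, Sum.map_inl, hf] at h1
    exact Sum.inl_injective h1
  · ext x
    rcases x with a | b
    · rw [hf]
      rfl
    · rw [hr]
      rfl

theorem bsw_comm {α β : Type} [DecidableEq α] [DecidableEq β] [Fintype β] (j : β ↪ α)
    (σ : Perm (α ⊕ β)) (h1 : ∀ b, σ (Sum.inl (j b)) = Sum.inl (j b))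
    (h2 : ∀ b, σ (Sum.inr b) = Sum.inr b) : Commute σ (bsw j) := by
  unfold bsw
  refine Commute.list_prod_right _ _ (fun τ hτ => ?_)
  rw [List.mem_map] at hτ
  obtain ⟨b, -, rfl⟩ := hτ
  unfold Commute SemiconjBy
  rw [mul_swap_eq_swap_mul, h1, h2]

theorem hh_eq {A : Type} (k : ℕ) (h : Perm A) :
    hh k h = (oh h).viaEmbedding (Function.Embedding.inl : Option A ↪ Big A k) := by
  ext x
  rcases x with x | x
  · rw [show (Sum.inl x : Big A k) = (Function.Embedding.inl : Option A ↪ Big A k) x from rfl,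
      Perm.viaEmbedding_apply]
    rfl
  · rw [Perm.viaEmbedding_apply_of_notMem]
    · rfl
    · rintro ⟨y, hy⟩
      cases hy

theorem viaEmbedding_inv' {α β : Type} (ι : α ↪ β) (σ : Perm α) :
    (σ⁻¹).viaEmbedding ι = (σ.viaEmbedding ι)⁻¹ := by
  have h := map_inv (Perm.viaEmbeddingHom ι) σ
  rw [Perm.viaEmbeddingHom_apply, Perm.viaEmbeddingHom_apply] at h
  exact h

theorem VCat.io_hh (A : Type) (h' : Perm A) :
    emb (V.io A) (g (hh k (sumCongr h' 1))) = emb Function.Embedding.inl (g (V.hA h')) := by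
  rw [emb_g, emb_g, hh_eq, viaEmbedding_trans, V.io_inl]
  rfl

theorem VCat.io_hh_inv (A : Type) (h' : Perm A) :
    emb (V.io A) (g (hh k (sumCongr h' 1))⁻¹) = emb Function.Embedding.inl (g (V.hA h')⁻¹) := by
  have h := V.io_hh A h'
  rw [emb_g, emb_g] at h
  have h1 := MonoidAlgebra.of_injective (R := ℤ) h
  rw [emb_g, emb_g, viaEmbedding_inv', viaEmbedding_inv', h1]

theorem VCat.hA_sw (A : Type) [DecidableEq A] (h' : Perm A) :
    Commute (emb (Function.Embedding.inl : Al V A ↪ Al V A ⊕ (V.B ⊕ V.B)) (g (V.hA h')))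
      (g (bsw (V.jj A))) := by
  rw [emb_g]
  unfold Commute SemiconjBy
  rw [← g_mul, ← g_mul]
  congr 1
  refine bsw_comm _ _ (fun b => ?_) (fun b => ?_)
  · have e := Perm.viaEmbedding_apply (V.hA h')
      (Function.Embedding.inl : Al V A ↪ Al V A ⊕ (V.B ⊕ V.B)) (V.jj A b)
    rw [show (Function.Embedding.inl : Al V A ↪ Al V A ⊕ (V.B ⊕ V.B)) (V.jj A b) =
      Sum.inl (V.jj A b) from rfl] at e
    rw [e]
    rfl
  · rw [Perm.viaEmbedding_apply_of_notMem]
    rintro ⟨y, hy⟩
    cases hy

theorem VCat.hA_inv (A : Type) (h' : Perm A) : (V.hA h')⁻¹ = V.hA h'⁻¹ := by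
  ext x
  rcases x with _ | (a | b) <;> rfl

theorem even2 (hPT : PTr) (hE : Even1) (A C : Type) [Fintype A] [DecidableEq A] [DecidableEq C]
    (c : A → C) (v : P (Al V A))
    (hv : act k (Al V A) (∑ h ∈ univ.filter (fun h : Perm A => c ∘ h = c),
      g (V.hA h) * (v * V.θ2 A) * g (V.hA h)⁻¹) = 0)
    (W : Type) [AddCommGroup W] (lam : P (Al V A) →+ W)
    (h1 : ∀ y, act k _ y = 0 → lam y = 0)
    (h2 : ∀ h : Perm A, c ∘ h = c → ∀ y, lam (g (V.hA h) * y * g (V.hA h)⁻¹) = lam y) :
    (V.κ * V.κ) • lam (v * V.θ2 A) = 0 := by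
  classical
  obtain ⟨PT, p1, p2, p3, -⟩ := hPT k (Al V A) (V.B ⊕ V.B)
  -- the functional
  let yy : P ((Al V A) ⊕ (V.B ⊕ V.B)) := emb Function.Embedding.inr (V.tt V.y)
  let sw : P ((Al V A) ⊕ (V.B ⊕ V.B)) := g (bsw (V.jj A))
  let lam1 : P (Big (A ⊕ (V.B ⊕ V.B)) k) →+ W :=
    lam.comp (PT.comp ((AddMonoidHom.mulRight sw).comp ((AddMonoidHom.mulLeft yy).comp
      (emb (V.io A)).toAddMonoidHom)))
  have hlam1 : ∀ x, lam1 x = lam (PT (yy * emb (V.io A) x * sw)) := fun x => rfl
  have q1 : ∀ y, act k _ y = 0 → lam1 y = 0 := by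
    intro y hy
    rw [hlam1]
    refine h1 _ (p1 _ ?_)
    rw [map_mul, map_mul, act_emb_eq_zero _ _ hy, mul_zero, zero_mul]
  have hyc : ∀ x : P (Al V A), Commute (emb Function.Embedding.inl x) yy := fun x =>
    commute_emb_emb _ _ (fun a b h => by cases h) _ _
  have q2 : ∀ h : Perm (A ⊕ (V.B ⊕ V.B)), (Sum.map c id : A ⊕ (V.B ⊕ V.B) → C ⊕ (V.B ⊕ V.B)) ∘ h
      = Sum.map c id → ∀ y, lam1 (g (hh k h) * y * g (hh k h)⁻¹) = lam1 y := by
    intro h hc y
    obtain ⟨h', hc', rfl⟩ := filter_eq c h hc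
    rw [hlam1, hlam1, map_mul (emb (V.io A)), map_mul (emb (V.io A)), V.io_hh, V.io_hh_inv]
    set Y := emb (V.io A) y with hY
    have e1 : yy * (emb Function.Embedding.inl (g (V.hA h')) * Y *
        emb Function.Embedding.inl (g (V.hA h')⁻¹)) * sw =
        emb Function.Embedding.inl (g (V.hA h')) * (yy * Y * sw) *
          emb Function.Embedding.inl (g (V.hA h')⁻¹) := by
      have e2 : emb Function.Embedding.inl (g (V.hA h')⁻¹) * sw =
          sw * emb Function.Embedding.inl (g (V.hA h')⁻¹) := by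
        rw [V.hA_inv]
        exact (V.hA_sw A h'⁻¹).eq
      calc _ = (yy * emb Function.Embedding.inl (g (V.hA h'))) * Y *
            (emb Function.Embedding.inl (g (V.hA h')⁻¹) * sw) := by simp only [mul_assoc]
        _ = _ := by
          rw [e2, ← (hyc (g (V.hA h'))).eq]
          simp only [mul_assoc]
    rw [e1, p2, h2 h' hc']
  have q3 : act k (Option (A ⊕ (V.B ⊕ V.B))) (∑ h ∈ univ.filter
      (fun h : Perm (A ⊕ (V.B ⊕ V.B)) =>
        (Sum.map c id : A ⊕ (V.B ⊕ V.B) → C ⊕ (V.B ⊕ V.B)) ∘ h = Sum.map c id),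
      g (oh h) * (v * V.θ2 A) * g (oh h)⁻¹) = 0 := by
    rw [← hv]
    congr 1
    symm
    refine Finset.sum_bij (fun h' _ => sumCongr h' 1) ?_ ?_ ?_ ?_
    · intro h' hh'
      rw [mem_filter] at hh' ⊢
      refine ⟨mem_univ _, ?_⟩
      funext x
      rcases x with a | b
      · have := congrFun hh'.2 a
        simp only [Function.comp_apply] at this
        simp [this]
      · rfl
    · intro a _ b _ e
      ext x
      have := congrArg (fun σ : Perm (A ⊕ (V.B ⊕ V.B)) => σ (Sum.inl x)) e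
      simpa using this
    · intro h hh'
      rw [mem_filter] at hh'
      obtain ⟨h', hc', rfl⟩ := filter_eq c h hh'.2
      exact ⟨h', by rw [mem_filter]; exact ⟨mem_univ _, hc'⟩, rfl⟩
    · intro h' _
      rfl
  have q4 := hE k (A ⊕ (V.B ⊕ V.B)) (C ⊕ (V.B ⊕ V.B)) (Sum.map c id) (v * V.θ2 A) q3 W lam1 q1 q2
  rw [hlam1, map_mul (emb (V.io A)), map_mul (emb (V.io A)), emb_trans, emb_trans, emb_trans,
    V.io_inl] at q4
  set AA : P V.B := emb Function.Embedding.inr (As (Fin k)) with hAA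
  have e3 : emb ((Function.Embedding.inl.trans Function.Embedding.inr).trans (V.io A))
      (As (Fin k)) * emb ((Function.Embedding.inr.trans Function.Embedding.inr).trans (V.io A))
      (As (Fin k)) = emb Function.Embedding.inr (V.tt AA) := by
    unfold VCat.tt
    rw [hAA, map_mul, emb_trans, emb_trans, emb_trans, emb_trans]
    rfl
  rw [e3] at q4
  have e4 : yy * (emb Function.Embedding.inl (v * V.θ2 A) * emb Function.Embedding.inr (V.tt AA)) *
      sw = emb Function.Embedding.inl (v * V.θ2 A) *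
        (emb Function.Embedding.inr (V.tt (V.y * AA)) * sw) * emb Function.Embedding.inl 1 := by
    have hyy : emb Function.Embedding.inr (V.tt (V.y * AA)) =
        yy * emb Function.Embedding.inr (V.tt AA) := by
      rw [V.tt_mul, map_mul]
    rw [hyy, map_one, mul_one]
    have h3 := (hyc (v * V.θ2 A)).eq
    generalize emb Function.Embedding.inl (v * V.θ2 A) = E0 at h3 ⊢
    rw [← mul_assoc yy E0, ← h3]
    simp only [mul_assoc]
  rw [e4, p2, mul_one] at q4
  have e5 : act k _ (PT (emb Function.Embedding.inr (V.tt (V.y * AA)) * sw)) =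
      act k _ (V.θ2 A) := by
    have e6 : act k _ (PT (emb Function.Embedding.inr (V.tt (V.y * AA)) * sw)) =
        act k _ (PT (emb Function.Embedding.inr (V.tt V.θ) * sw)) := by
      rw [← sub_eq_zero, ← map_sub, ← map_sub]
      refine p1 _ ?_
      rw [← sub_mul, ← map_sub, map_mul]
      rw [act_emb_eq_zero, zero_mul]
      rw [map_sub, sub_eq_zero]
      exact (V.tt_congr V.fac).symm
    rw [e6, p3, V.θ2_eq]
  have e7 : act k _ ((v * V.θ2 A) * PT (emb Function.Embedding.inr (V.tt (V.y * AA)) * sw)) =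
      act k _ ((V.κ * V.κ) • (v * V.θ2 A)) := by
    have e8 : act k _ (V.θ2 A * V.θ2 A) = (V.κ * V.κ) • act k _ (V.θ2 A) := by
      rw [V.θ2_eq, ← map_mul, act_congr_emb (V.jj A) (y := (V.κ * V.κ) • V.tt V.θ), map_zsmul,
        map_zsmul]
      rw [V.tt_sq, map_zsmul]
    rw [map_mul, e5, ← map_mul, mul_assoc, map_mul, e8, map_zsmul, map_mul, mul_smul_comm]
  have e9 : lam ((v * V.θ2 A) * PT (emb Function.Embedding.inr (V.tt (V.y * AA)) * sw)) =
      lam ((V.κ * V.κ) • (v * V.θ2 A)) := by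
    rw [← sub_eq_zero, ← map_sub]
    refine h1 _ ?_
    rw [map_sub, e7, sub_self]
  rw [e9, map_zsmul] at q4
  exact q4

end Pool.PI34.EV
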