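import Pool.Agent.LibPI34.X_R2

/-!
PI34, the prime `p = 2`, model side, file M1: the components of `ℤ_(2)[√2]`, operators over
`ℤ_(2)[√2]` as matrices of rational operators, adjoint operators.
-/

set_option autoImplicit false
set_option linter.unusedSectionVars false

namespace Pool.PI34.XX

open Equiv Finset
open Pool.PI34.Super (Lt odd pv prs Ap jA mj plL)

/-! ### the components -/

/-- the components -/
noncomputable def cA (a : Fin 2) : O2 →ₗ[Ap 2] Ap 2 where
  toFun x := if a = 0 then x.re else x.im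
  map_add' x y := by
    split_ifs
    · exact QuadraticAlgebra.re_add x y
    · exact QuadraticAlgebra.im_add x y
  map_smul' c x := by
    rw [RingHom.id_apply, smul_eq_mul]
    split_ifs
    · exact QuadraticAlgebra.re_smul c x
    · exact QuadraticAlgebra.im_smul c x

theorem cA_zero (x : O2) : cA 0 x = x.re := rfl

theorem cA_one (x : O2) : cA 1 x = x.im := rfl

/-- the basis -/
noncomputable def bs (b : Fin 2) : O2 := if b = 0 then 1 else r2

theorem bs_zero : bs 0 = 1 := rfl

theorem bs_one : bs 1 = r2 := rfl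

theorem cA_bs (a b : Fin 2) : cA a (bs b) = if a = b then 1 else 0 := by
  fin_cases a <;> fin_cases b
  · change (1 : O2).re = _
    rw [QuadraticAlgebra.re_one]
    rfl
  · change r2.re = _
    simp [r2]
  · change (1 : O2).im = _
    rw [QuadraticAlgebra.im_one]
    rfl
  · change r2.im = _
    simp [r2]

theorem cA_mul (a : Fin 2) (x y : O2) : cA a (x * y) = ∑ c, cA a (x * bs c) * cA c y := by
  rw [Fin.sum_univ_two, bs_zero, bs_one, cA_zero, cA_one, mul_one]
  fin_cases a
  · change (x * y).re = x.re * y.re + (x * r2).re * y.im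
    rw [QuadraticAlgebra.re_mul, QuadraticAlgebra.re_mul]
    simp [r2]
  · change (x * y).im = x.im * y.re + (x * r2).im * y.im
    rw [QuadraticAlgebra.im_mul, QuadraticAlgebra.im_mul]
    simp [r2]
    ring

/-- the matrix of the multiplication -/
noncomputable def Psi (x : O2) (a b : Fin 2) : Ap 2 := cA a (x * bs b)

theorem cA_mul' (a : Fin 2) (x y : O2) : cA a (x * y) = ∑ c, Psi x a c * cA c y := cA_mul a x y

theorem Psi_mul (x y : O2) (a b : Fin 2) : Psi (x * y) a b = ∑ c, Psi x a c * Psi y c b := by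
  unfold Psi
  rw [mul_assoc, cA_mul]

theorem Psi_one (a b : Fin 2) : Psi 1 a b = if a = b then 1 else 0 := by
  unfold Psi
  rw [one_mul, cA_bs]

theorem Psi_smul (c : Ap 2) (x : O2) (a b : Fin 2) : Psi (c • x) a b = c * Psi x a b := by
  unfold Psi
  rw [smul_mul_assoc, map_smul, smul_eq_mul]

theorem Psi_add (x y : O2) (a b : Fin 2) : Psi (x + y) a b = Psi x a b + Psi y a b := by
  unfold Psi
  rw [add_mul, map_add]

theorem Psi_comm (x y : O2) (a b : Fin 2) :
    ∑ c, Psi x a c * Psi y c b = ∑ c, Psi y a c * Psi x c b := by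
  rw [← Psi_mul, ← Psi_mul, mul_comm]

/-! ### the components of the words -/

section words

variable {k l : ℕ} {ι : Type} [Fintype ι] [LinearOrder ι]

/-- the components of a word -/
noncomputable def cW (a : Fin 2) (F : SK.W O2 k l ι) : Super.W k l ι := fun w => jA 2 (cA a (F w))

theorem cW_apply (a : Fin 2) (F : SK.W O2 k l ι) (w : ι → Lt k l) :
    cW a F w = jA 2 (cA a (F w)) := rfl

theorem cW_add (a : Fin 2) (F G : SK.W O2 k l ι) : cW a (F + G) = cW a F + cW a G := by
  funext w
  rw [Pi.add_apply, cW_apply, cW_apply, cW_apply, Pi.add_apply, map_add, map_add]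

theorem cW_zero (a : Fin 2) : cW a (0 : SK.W O2 k l ι) = 0 := by
  funext w
  rw [cW_apply, Pi.zero_apply, map_zero, map_zero, Pi.zero_apply]

theorem cW_sum {κ : Type*} (s : Finset κ) (a : Fin 2) (F : κ → SK.W O2 k l ι) :
    cW a (∑ i ∈ s, F i) = ∑ i ∈ s, cW a (F i) := by
  classical
  induction s using Finset.induction_on with
  | empty => rw [Finset.sum_empty, Finset.sum_empty, cW_zero]
  | insert i s hi ih => rw [Finset.sum_insert hi, Finset.sum_insert hi, cW_add, ih]

theorem cW_smul (a : Fin 2) (x : O2) (F : SK.W O2 k l ι) :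
    cW a (x • F) = ∑ c, jA 2 (Psi x a c) • cW c F := by
  funext w
  rw [cW_apply, Pi.smul_apply, smul_eq_mul, cA_mul', map_sum, Finset.sum_apply]
  exact Finset.sum_congr rfl fun c _ => by rw [map_mul, Pi.smul_apply, smul_eq_mul, cW_apply]

/-- the matrix of rational operators of an operator over `ℤ_(2)[√2]` -/
def Ex (X : Module.End O2 (SK.W O2 k l ι)) (M : Fin 2 → Fin 2 → Module.End ℚ (Super.W k l ι)) :
    Prop := ∀ a F, cW a (X F) = ∑ c, M a c (cW c F)

theorem Ex.mul {X Y : Module.End O2 (SK.W O2 k l ι)}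
    {M N : Fin 2 → Fin 2 → Module.End ℚ (Super.W k l ι)} (hX : Ex X M) (hY : Ex Y N) :
    Ex (X * Y) (fun a b => ∑ c, M a c * N c b) := by
  intro a F
  rw [Module.End.mul_apply, hX]
  have h : ∀ c, M a c (cW c (Y F)) = ∑ b, M a c (N c b (cW b F)) := fun c => by
    rw [hY, map_sum]
  simp only [h, LinearMap.sum_apply, Module.End.mul_apply]
  rw [Finset.sum_comm]

theorem Ex.congr {X : Module.End O2 (SK.W O2 k l ι)}
    {M N : Fin 2 → Fin 2 → Module.End ℚ (Super.W k l ι)} (hX : Ex X M)
    (h : ∀ a b, M a b = N a b) : Ex X N := by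
  intro a F
  rw [hX]
  exact Finset.sum_congr rfl fun c _ => by rw [h]

/-- the expansion of the elements of the group algebra -/
noncomputable def pj (a b : Fin 2) (G : Type) [Group G] :
    MonoidAlgebra O2 G →+ MonoidAlgebra (Ap 2) G where
  toFun := MonoidAlgebra.map ((cA a).toAddMonoidHom.comp (AddMonoidHom.mulRight (bs b)))
  map_zero' := MonoidAlgebra.map_zero _
  map_add' := MonoidAlgebra.map_add _

theorem pj_single (a b : Fin 2) {G : Type} [Group G] (σ : G) (x : O2) :
    pj a b G (MonoidAlgebra.single σ x) = MonoidAlgebra.single σ (Psi x a b) :=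
  MonoidAlgebra.map_single _ _ _

theorem pj_mul (x : O2) (a b : Fin 2) {G : Type} [Group G] (y : MonoidAlgebra O2 G) :
    ∑ c, Psi x a c • pj c b G y = pj a b G (x • y) := by
  induction y using MonoidAlgebra.induction_linear with
  | zero => simp
  | add y z hy hz =>
    rw [smul_add, map_add, ← hy, ← hz, ← Finset.sum_add_distrib]
    exact Finset.sum_congr rfl fun c _ => by rw [map_add, smul_add]
  | single σ z =>
    rw [MonoidAlgebra.smul_single, pj_single, smul_eq_mul, Psi_mul]
    simp only [pj_single, MonoidAlgebra.smul_single, smul_eq_mul]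
    exact (map_sum (MonoidAlgebra.singleAddHom σ) _ _).symm

theorem pj_mul' (x : O2) (a b : Fin 2) {G : Type} [Group G] (y : MonoidAlgebra O2 G) :
    ∑ c, Psi x c b • pj a c G y = pj a b G (x • y) := by
  induction y using MonoidAlgebra.induction_linear with
  | zero => simp
  | add y z hy hz =>
    rw [smul_add, map_add, ← hy, ← hz, ← Finset.sum_add_distrib]
    exact Finset.sum_congr rfl fun c _ => by rw [map_add, smul_add]
  | single σ z =>
    rw [MonoidAlgebra.smul_single, pj_single, smul_eq_mul, mul_comm x z, Psi_mul]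
    simp only [pj_single, MonoidAlgebra.smul_single, smul_eq_mul]
    refine Eq.trans ?_ (map_sum (MonoidAlgebra.singleAddHom σ) _ _).symm
    exact Finset.sum_congr rfl fun c _ => by rw [mul_comm]; rfl

theorem map_eps {A K : Type} [CommRing A] [CommRing K] (φ : A →+* K) (σ : Perm ι)
    (p : ι → Bool) : φ (SK.eps σ p) = SK.eps σ p := by
  unfold SK.eps
  rw [map_prod]
  refine Finset.prod_congr rfl fun q _ => ?_
  split_ifs
  · unfold SK.H
    split_ifs <;> simp
  · simp

theorem Ex_act (y : MonoidAlgebra O2 (Perm ι)) :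
    Ex (SK.act O2 O2 k l ι y) (fun a b => Super.act k l ι (mj (jA 2) (Perm ι) (pj a b _ y))) := by
  intro a F
  induction y using MonoidAlgebra.induction_linear with
  | zero => simp [cW_zero]
  | add y z hy hz =>
    rw [map_add, LinearMap.add_apply, cW_add, hy, hz, ← Finset.sum_add_distrib]
    refine Finset.sum_congr rfl fun c _ => ?_
    change _ = Super.act k l ι (mj (jA 2) (Perm ι) (pj a c _ (y + z))) (cW c F)
    rw [map_add, map_add, map_add, LinearMap.add_apply]
  | single σ x =>
    funext w
    rw [SK.act_single, cW_apply, LinearMap.smul_apply, Pi.smul_apply, smul_eq_mul, SK.rho_apply,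
      ← SK.bc_eps (A := Ap 2) (K := O2), ← Algebra.smul_def, mul_smul_comm, map_smul, smul_eq_mul,
      map_mul, map_eps, cA_mul', map_sum, Finset.sum_apply, Finset.mul_sum]
    refine Finset.sum_congr rfl fun c _ => ?_
    have h1 : mj (jA 2) (Perm ι) (MonoidAlgebra.single σ (Psi x a c))
        = MonoidAlgebra.single σ (jA 2 (Psi x a c)) := by
      unfold mj
      rw [MonoidAlgebra.mapRingHom_single]
    change _ = Super.act k l ι (mj (jA 2) (Perm ι) (pj a c _ (MonoidAlgebra.single σ x))) (cW c F) w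
    rw [pj_single, h1, Super.act_single, LinearMap.smul_apply, Pi.smul_apply, smul_eq_mul,
      Super.rho_apply, cW_apply, map_mul]
    have h2 : (SK.eps σ (pv (w ∘ σ)) : ℚ) = Super.eps σ (pv (w ∘ σ)) := rfl
    rw [h2]
    ring

theorem Ex_dT (S : Finset ι) :
    Ex (dT O2 k l r2 S : Module.End O2 (SK.W O2 k l ι))
      (fun a b => jA 2 (Psi (r2 ^ S.card) a b) • dT ℚ k l 1 S) := by
  intro a F
  funext w
  rw [cW_apply, Finset.sum_apply]
  change jA 2 (cA a ((∏ i ∈ S, if odd (w i) then r2 else 0) * F w)) =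
    ∑ c, jA 2 (Psi (r2 ^ S.card) a c) * ((∏ i ∈ S, if odd (w i) then (1 : ℚ) else 0) * cW c F w)
  by_cases h : ∀ i ∈ S, odd (w i) = true
  · have h1 : (∏ i ∈ S, if odd (w i) then r2 else 0) = r2 ^ S.card := by
      rw [Finset.prod_congr rfl (fun i hi => if_pos (h i hi)), Finset.prod_const]
    have h2 : (∏ i ∈ S, if odd (w i) then (1 : ℚ) else 0) = 1 :=
      Finset.prod_eq_one fun i hi => if_pos (h i hi)
    rw [h1, h2, cA_mul', map_sum]
    exact Finset.sum_congr rfl fun c _ => by rw [map_mul, one_mul, cW_apply]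
  · push Not at h
    obtain ⟨i, hi, hi'⟩ := h
    rw [Finset.prod_eq_zero hi (if_neg hi'), Finset.prod_eq_zero hi (if_neg hi'), zero_mul,
      map_zero, map_zero]
    simp

theorem plain_single {K A : Type} [CommRing K] [CommRing A] [Algebra A K] (σ : Perm ι) (x : A)
    (F : SK.W K k l ι) (w : ι → Lt k l) :
    plain K k l ι A (MonoidAlgebra.single σ x) F w = algebraMap A K x * F (w ∘ σ) := by
  unfold plain
  rw [MonoidAlgebra.lift_single, ← algebraMap_smul K x, LinearMap.smul_apply, Pi.smul_apply,
    smul_eq_mul]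
  rfl

theorem Ex_plain (y : MonoidAlgebra (Ap 2) (Perm ι)) :
    Ex (plain O2 k l ι (Ap 2) y)
      (fun a b => if a = b then plain ℚ k l ι ℚ (mj (jA 2) (Perm ι) y) else 0) := by
  intro a F
  have h0 : ∀ Z : Module.End ℚ (Super.W k l ι),
      ∑ c, (if a = c then Z else 0) (cW c F) = Z (cW a F) := by
    intro Z
    rw [Finset.sum_eq_single a]
    · rw [if_pos rfl]
    · intro b _ hb
      rw [if_neg hb.symm, LinearMap.zero_apply]
    · intro h
      exact absurd (mem_univ _) h
  rw [h0]
  induction y using MonoidAlgebra.induction_linear with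
  | zero => simp [cW_zero]
  | add y z hy hz =>
    rw [map_add, LinearMap.add_apply, cW_add, hy, hz, map_add, map_add, LinearMap.add_apply]
  | single σ x =>
    funext w
    have h1 : mj (jA 2) (Perm ι) (MonoidAlgebra.single σ x)
        = MonoidAlgebra.single σ (jA 2 x) := by
      unfold mj
      rw [MonoidAlgebra.mapRingHom_single]
    rw [cW_apply, plain_single, h1, plain_single, ← Algebra.smul_def, map_smul, smul_eq_mul,
      map_mul]
    rfl

end words

/-! ### adjoint operators -/

section adj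

variable {R α : Type} [CommRing R] [Fintype α]

/-- adjoint operators -/
def Adj (X X' : Module.End R (α → R)) : Prop := ∀ f g : α → R, ∑ w, X f w * g w = ∑ w, f w * X' g w

theorem Adj.mul {X X' Y Y' : Module.End R (α → R)} (hX : Adj X X') (hY : Adj Y Y') :
    Adj (X * Y) (Y' * X') := by
  intro f g
  rw [Module.End.mul_apply, Module.End.mul_apply, hX, hY]

theorem Adj.sum {κ : Type*} (s : Finset κ) {X X' : κ → Module.End R (α → R)}
    (h : ∀ i ∈ s, Adj (X i) (X' i)) : Adj (∑ i ∈ s, X i) (∑ i ∈ s, X' i) := by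
  intro f g
  simp only [LinearMap.sum_apply, Finset.sum_apply, Finset.sum_mul, Finset.mul_sum]
  rw [Finset.sum_comm, Finset.sum_comm (s := univ)]
  exact Finset.sum_congr rfl fun i hi => h i hi f g

theorem Adj.add {X X' Y Y' : Module.End R (α → R)} (hX : Adj X X') (hY : Adj Y Y') :
    Adj (X + Y) (X' + Y') := by
  intro f g
  simp only [LinearMap.add_apply, Pi.add_apply, add_mul, mul_add, Finset.sum_add_distrib]
  rw [hX, hY]

theorem Adj.smul {X X' : Module.End R (α → R)} (c : R) (hX : Adj X X') :
    Adj (c • X) (c • X') := by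
  intro f g
  simp only [LinearMap.smul_apply, Pi.smul_apply, smul_eq_mul]
  have h := congrArg (fun x => c * x) (hX f g)
  simp only [Finset.mul_sum] at h
  rw [Finset.sum_congr rfl fun w _ => mul_assoc c (X f w) (g w), h]
  exact Finset.sum_congr rfl fun w _ => by ring

theorem Adj.unique {X X' X'' : Module.End R (α → R)} (h : Adj X X') (h' : Adj X X'') :
    X' = X'' := by
  classical
  refine LinearMap.ext fun g => funext fun w => ?_
  have h1 := (h (Pi.single w 1) g).symm.trans (h' (Pi.single w 1) g)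
  simpa [Pi.single_apply] using h1

theorem Adj_zero : Adj (0 : Module.End R (α → R)) 0 := by
  intro f g
  simp

end adj

section adj2

variable {K : Type} [CommRing K] {k l : ℕ} {ι : Type} [Fintype ι] [LinearOrder ι]

theorem Adj_dT (r : K) (S : Finset ι) : Adj (dT K k l r S : Module.End K (SK.W K k l ι))
    (dT K k l r S) := by
  intro f g
  refine Finset.sum_congr rfl fun w _ => ?_
  change ((∏ i ∈ S, if odd (w i) then r else 0) * f w) * g w =
    f w * ((∏ i ∈ S, if odd (w i) then r else 0) * g w)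
  ring

/-- the inversion of the permutations -/
noncomputable def st (A : Type) [CommRing A] (G : Type) [Group G] :
    MonoidAlgebra A G →+ MonoidAlgebra A G where
  toFun := MonoidAlgebra.mapDomain (fun σ : G => σ⁻¹)
  map_zero' := MonoidAlgebra.mapDomain_zero _
  map_add' := MonoidAlgebra.mapDomain_add _

theorem st_single {A : Type} [CommRing A] {G : Type} [Group G] (σ : G) (x : A) :
    st A G (MonoidAlgebra.single σ x) = MonoidAlgebra.single σ⁻¹ x := MonoidAlgebra.mapDomain_single ..

theorem Adj_rho (σ : Perm ι) : Adj (SK.rho K k l ι σ) (SK.rho K k l ι σ⁻¹) := by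
  intro f g
  rw [← Equiv.sum_comp (Equiv.arrowCongr σ (Equiv.refl (Lt k l)))]
  refine Finset.sum_congr rfl fun w => ?_
  intro _
  have h1 : (Equiv.arrowCongr σ (Equiv.refl (Lt k l)) w) = w ∘ ⇑σ⁻¹ := rfl
  rw [h1, SK.rho_apply, SK.rho_apply]
  have h2 : (w ∘ ⇑σ⁻¹) ∘ ⇑σ = w := by
    funext i; simp
  rw [h2]
  have h3 := SK.eps_mul (K := K) σ⁻¹ σ (pv w)
  have h4 : (fun i => pv w (σ.symm i)) = pv (w ∘ ⇑σ⁻¹) := rfl
  rw [inv_mul_cancel, SK.eps_one, h4] at h3
  have h5 := SK.eps_sq (K := K) σ (pv w)
  have h6 : (SK.eps σ (pv w) : K) = SK.eps σ⁻¹ (pv (w ∘ ⇑σ⁻¹)) := by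
    calc (SK.eps σ (pv w) : K) = 1 * SK.eps σ (pv w) := by rw [one_mul]
      _ = SK.eps σ⁻¹ (pv (w ∘ ⇑σ⁻¹)) * (SK.eps σ (pv w) * SK.eps σ (pv w)) := by rw [h3]; ring
      _ = _ := by rw [h5, mul_one]
  rw [h6]
  ring

theorem Adj_act (y : MonoidAlgebra K (Perm ι)) :
    Adj (SK.act K K k l ι y) (SK.act K K k l ι (st K _ y)) := by
  induction y using MonoidAlgebra.induction_linear with
  | zero => rw [map_zero, map_zero, map_zero]; exact Adj_zero
  | add y z hy hz => rw [map_add, map_add, map_add]; exact hy.add hz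
  | single σ x =>
    rw [st_single, SK.act_single, SK.act_single]
    exact (Adj_rho σ).smul x

theorem Adj_pH (σ : Perm ι) : Adj (pH K k l ι σ) (pH K k l ι σ⁻¹) := by
  intro f g
  rw [← Equiv.sum_comp (Equiv.arrowCongr σ (Equiv.refl (Lt k l)))]
  refine Finset.sum_congr rfl fun w _ => ?_
  have h1 : (Equiv.arrowCongr σ (Equiv.refl (Lt k l)) w) = w ∘ ⇑σ⁻¹ := rfl
  rw [h1]
  change f ((w ∘ ⇑σ⁻¹) ∘ ⇑σ) * g (w ∘ ⇑σ⁻¹) = f w * g (w ∘ ⇑σ⁻¹)
  have h2 : (w ∘ ⇑σ⁻¹) ∘ ⇑σ = w := by
    funext i; simp
  rw [h2]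

theorem Adj_plain {A : Type} [CommRing A] [Algebra A K] (y : MonoidAlgebra A (Perm ι)) :
    Adj (plain K k l ι A y) (plain K k l ι A (st A _ y)) := by
  induction y using MonoidAlgebra.induction_linear with
  | zero => rw [map_zero, map_zero, map_zero]; exact Adj_zero
  | add y z hy hz => rw [map_add, map_add, map_add]; exact hy.add hz
  | single σ x =>
    rw [st_single]
    unfold plain
    rw [MonoidAlgebra.lift_single, MonoidAlgebra.lift_single, ← algebraMap_smul K x,
      ← algebraMap_smul K x]
    exact (Adj_pH σ).smul _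

end adj2

/-! ### one more strand -/

section up

variable (K : Type) [CommRing K] (k l n : ℕ)

/-- the operator `1 ⊗ X` -/
def up : Module.End K (SK.W K k l (Fin n)) →+* Module.End K (SK.W K k l (Fin (n + 1))) where
  toFun X :=
    { toFun := fun f w => X (SK.comp (w 0) f) (Fin.tail w)
      map_add' := fun f g => by funext w; rw [map_add, map_add]; rfl
      map_smul' := fun c f => by funext w; rw [map_smul, map_smul]; rfl }
  map_one' := by
    refine LinearMap.ext fun f => funext fun w => ?_
    change f (Fin.cons (w 0) (Fin.tail w)) = f w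
    rw [Fin.cons_self_tail]
  map_mul' y z := by
    refine LinearMap.ext fun f => funext fun w => ?_
    rfl
  map_zero' := rfl
  map_add' _ _ := rfl

variable {K k l n}

theorem up_apply (X : Module.End K (SK.W K k l (Fin n))) (f : SK.W K k l (Fin (n + 1)))
    (w : Fin (n + 1) → Lt k l) : up K k l n X f w = X (SK.comp (w 0) f) (Fin.tail w) := rfl

theorem up_smul (c : K) (X : Module.End K (SK.W K k l (Fin n))) :
    up K k l n (c • X) = c • up K k l n X := rfl

theorem comp_up (X : Module.End K (SK.W K k l (Fin n))) (f : SK.W K k l (Fin (n + 1)))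
    (c : Lt k l) : SK.comp c (up K k l n X f) = X (SK.comp c f) := by
  funext w
  rw [SK.comp_apply, up_apply, Fin.cons_zero, Fin.tail_cons]

theorem up_dT (r : K) (S : Finset (Fin n)) :
    up K k l n (dT K k l r S) = dT K k l r (S.map (Fin.succEmb n)) := by
  refine LinearMap.ext fun f => funext fun w => ?_
  rw [up_apply]
  change (∏ i ∈ S, if odd (Fin.tail w i) then r else 0) * f (Fin.cons (w 0) (Fin.tail w)) =
    (∏ i ∈ S.map (Fin.succEmb n), if odd (w i) then r else 0) * f w
  rw [Fin.cons_self_tail, Finset.prod_map]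
  rfl

theorem succ_comp_ext (σ : Perm (Fin n)) (w : Fin (n + 1) → Lt k l) :
    w ∘ ⇑(Super.ext (Fin.succOrderEmb n) σ) = Fin.cons (w 0) (Fin.tail w ∘ σ) := by
  funext i
  refine Fin.cases ?_ (fun i => ?_) i
  · rw [Fin.cons_zero, Function.comp_apply, Super.ext_apply']
    rintro ⟨a, ha⟩
    exact absurd ha (Fin.succ_ne_zero a)
  · rw [Fin.cons_succ, Function.comp_apply]
    have h := Super.ext_apply (Fin.succOrderEmb n) σ i
    have h2 : (Fin.succOrderEmb n) i = i.succ := rfl
    rw [h2] at h
    rw [h]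
    rfl

theorem up_plain {A : Type} [CommRing A] [Algebra A K] (y : MonoidAlgebra A (Perm (Fin n))) :
    up K k l n (plain K k l (Fin n) A y) = plain K k l (Fin (n + 1)) A (sh A n y) := by
  induction y using MonoidAlgebra.induction_linear with
  | zero => rw [map_zero, map_zero, map_zero, map_zero]
  | add y z hy hz => rw [map_add, map_add, map_add, map_add, hy, hz]
  | single σ x =>
    refine LinearMap.ext fun f => funext fun w => ?_
    have h1 : sh A n (MonoidAlgebra.single σ x)
        = MonoidAlgebra.single (Super.ext (Fin.succOrderEmb n) σ) x := by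
      unfold sh plL
      exact MonoidAlgebra.mapDomain_single ..
    rw [up_apply, plain_single, h1, plain_single, SK.comp_apply, succ_comp_ext]

theorem sum_cons {M : Type*} [AddCommMonoid M] (g : (Fin (n + 1) → Lt k l) → M) :
    ∑ w, g w = ∑ c : Lt k l, ∑ u : Fin n → Lt k l, g (Fin.cons c u) := by
  rw [← Fintype.sum_prod_type' (fun c u => g (Fin.cons c u))]
  exact (Equiv.sum_comp (Fin.consEquiv (fun _ => Lt k l)) g).symm

theorem Adj_up {X X' : Module.End K (SK.W K k l (Fin n))} (h : Adj X X') :
    Adj (up K k l n X) (up K k l n X') := by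
  intro f g
  rw [sum_cons, sum_cons]
  refine Finset.sum_congr rfl fun c _ => ?_
  have h1 := h (SK.comp c f) (SK.comp c g)
  simp only [up_apply, Fin.cons_zero, Fin.tail_cons]
  exact h1

theorem cW_comp (a : Fin 2) (c : Lt k l) (F : SK.W O2 k l (Fin (n + 1))) :
    SK.comp c (cW a F) = cW a (SK.comp c F) := rfl

theorem Ex_up {X : Module.End O2 (SK.W O2 k l (Fin n))}
    {M : Fin 2 → Fin 2 → Module.End ℚ (Super.W k l (Fin n))} (h : Ex X M) :
    Ex (up O2 k l n X) (fun a b => up ℚ k l n (M a b)) := by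
  intro a F
  funext w
  rw [cW_apply, up_apply, ← cW_apply, h, Finset.sum_apply, Finset.sum_apply]
  exact Finset.sum_congr rfl fun c _ => by rw [up_apply, cW_comp]

end up

end Pool.PI34.XX
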