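import Pool.Agent.LibPI34.X_M1
import Pool.Agent.LibPI34.Rg3
import Pool.Agent.LibPI34.Rl5

/-!
PI34, the prime `p = 2`, model side, file M2: operators represented by the catalyst, one more
strand.
-/

set_option autoImplicit false
set_option linter.unusedSectionVars false

namespace Pool.PI34.XX

open Equiv Finset
open Pool.PI34.Super (W Lt odd act tn ins phL phR phi Cat Ux pl ext Conv)

section rep

variable {k l m1 n : ℕ} (C : Cat k l m1)

/-- `f ⊗ ξ` -/
def tf (n : ℕ) : W k l (Fin n) →ₗ[ℚ] W k l (Fin (n + m1)) where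
  toFun f := fun w => f (w ∘ phL n m1) * C.ξ (w ∘ phR n m1)
  map_add' f g := by funext w; simp only [Pi.add_apply, add_mul]
  map_smul' c f := by funext w; simp only [Pi.smul_apply, smul_eq_mul, RingHom.id_apply, mul_assoc]

theorem tf_apply (f : W k l (Fin n)) (w : Fin (n + m1) → Lt k l) :
    tf C n f w = f (w ∘ phL n m1) * C.ξ (w ∘ phR n m1) := rfl

theorem tf_single (v : Fin n → Lt k l) : tf C n (Pi.single v 1) = tn v C.ξ := by
  funext w
  rw [tf_apply, Super.tn_apply, Pi.single_apply]
  split_ifs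
  · rw [one_mul]
  · rw [zero_mul]

theorem eq_sum_single {α : Type} [Fintype α] [DecidableEq α] (f : α → ℚ) :
    f = ∑ v, f v • (Pi.single v 1 : α → ℚ) := by
  funext u
  rw [Finset.sum_apply, Finset.sum_eq_single u]
  · rw [Pi.smul_apply, Pi.single_eq_same, smul_eq_mul, mul_one]
  · intro b _ hb
    rw [Pi.smul_apply, Pi.single_apply, if_neg hb.symm, smul_zero]
  · intro h
    exact absurd (mem_univ _) h

/-- the element `y` acts on the words `f ⊗ ξ` as `X ⊗ 1` -/
def Rep (X : Module.End ℚ (W k l (Fin n))) (y : MonoidAlgebra ℚ (Perm (Fin (n + m1)))) : Prop :=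
  ∀ f, act k l _ y (tf C n f) = tf C n (X f)

theorem Rep_of {X : Module.End ℚ (W k l (Fin n))} {y : MonoidAlgebra ℚ (Perm (Fin (n + m1)))}
    (h : ∀ v, act k l _ y (tn v C.ξ) = tf C n (X (Pi.single v 1))) : Rep C X y := by
  intro f
  rw [eq_sum_single f]
  simp only [map_sum, map_smul]
  exact Finset.sum_congr rfl fun v _ => by rw [tf_single, h]

variable {C}

theorem Rep.mul {X Y : Module.End ℚ (W k l (Fin n))} {x y : MonoidAlgebra ℚ (Perm (Fin (n + m1)))}
    (hX : Rep C X x) (hY : Rep C Y y) : Rep C (X * Y) (x * y) := by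
  intro f
  rw [map_mul, Module.End.mul_apply, hY, hX, Module.End.mul_apply]

theorem Rep.add {X Y : Module.End ℚ (W k l (Fin n))} {x y : MonoidAlgebra ℚ (Perm (Fin (n + m1)))}
    (hX : Rep C X x) (hY : Rep C Y y) : Rep C (X + Y) (x + y) := by
  intro f
  rw [map_add, LinearMap.add_apply, hY, hX, LinearMap.add_apply, map_add]

theorem Rep.smul {X : Module.End ℚ (W k l (Fin n))} {x : MonoidAlgebra ℚ (Perm (Fin (n + m1)))}
    (c : ℚ) (hX : Rep C X x) : Rep C (c • X) (c • x) := by
  intro f
  rw [map_smul, LinearMap.smul_apply, hX, LinearMap.smul_apply, map_smul]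

theorem Rep_zero : Rep C (0 : Module.End ℚ (W k l (Fin n))) 0 := by
  intro f
  rw [map_zero, LinearMap.zero_apply, LinearMap.zero_apply, map_zero]

theorem Rep_one : Rep C (1 : Module.End ℚ (W k l (Fin n))) 1 := by
  intro f
  rw [map_one]
  rfl

variable (C)

theorem plain_single_single (σ : Perm (Fin n)) (x : ℚ) (v : Fin n → Lt k l) :
    plain ℚ k l (Fin n) ℚ (MonoidAlgebra.single σ x) (Pi.single v 1)
      = x • (Pi.single (v ∘ ⇑σ⁻¹) 1 : W k l (Fin n)) := by
  funext w
  rw [plain_single, Pi.smul_apply, smul_eq_mul, Pi.single_apply, Pi.single_apply]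
  have h : w ∘ ⇑σ = v ↔ w = v ∘ ⇑σ⁻¹ := by
    constructor
    · rintro rfl
      funext i; simp
    · rintro rfl
      funext i; simp
  simp only [h]
  rfl

theorem exists_Rep_plain (y : MonoidAlgebra ℚ (Perm (Fin n))) :
    ∃ x, Rep C (plain ℚ k l (Fin n) ℚ y) x := by
  induction y using MonoidAlgebra.induction_linear with
  | zero => exact ⟨0, by rw [map_zero]; exact Rep_zero⟩
  | add y z hy hz =>
    obtain ⟨x, hx⟩ := hy
    obtain ⟨x', hx'⟩ := hz
    exact ⟨x + x', by rw [map_add]; exact hx.add hx'⟩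
  | single σ c =>
    refine ⟨c • C.fl σ, Rep_of C fun v => ?_⟩
    rw [plain_single_single, map_smul, LinearMap.smul_apply, C.act_fl, map_smul, tf_single]

theorem dT_insert {K : Type} [CommRing K] {ι : Type} [Fintype ι] [LinearOrder ι] (r : K) {i : ι}
    {S : Finset ι} (h : i ∉ S) : dT K k l r (insert i S) = dT K k l r {i} * dT K k l r S := by
  refine LinearMap.ext fun f => funext fun w => ?_
  change (∏ j ∈ insert i S, if odd (w j) then r else 0) * f w =
    (∏ j ∈ {i}, if odd (w j) then r else 0) * ((∏ j ∈ S, if odd (w j) then r else 0) * f w)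
  rw [Finset.prod_insert h, Finset.prod_singleton, mul_assoc]

theorem dT_empty {K : Type} [CommRing K] {ι : Type} [Fintype ι] [LinearOrder ι] (r : K) :
    dT K k l r (∅ : Finset ι) = 1 := by
  refine LinearMap.ext fun f => funext fun w => ?_
  change (∏ j ∈ (∅ : Finset ι), if odd (w j) then r else 0) * f w = f w
  rw [Finset.prod_empty, one_mul]

theorem exists_Rep_dT (S : Finset (Fin n)) : ∃ x, Rep C (dT ℚ k l 1 S) x := by
  induction S using Finset.induction_on with
  | empty => exact ⟨1, by rw [dT_empty]; exact Rep_one⟩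
  | insert i S hi ih =>
    obtain ⟨x, hx⟩ := ih
    refine ⟨C.Ei n i * x, ?_⟩
    rw [dT_insert 1 hi]
    refine Rep.mul (Rep_of C fun v => ?_) hx
    rw [C.act_Ei, ← tf_single, ← map_smul]
    congr 1
    funext w
    change (if odd (v i) then (1 : ℚ) else 0) * (Pi.single v 1 : W k l (Fin n)) w =
      (∏ j ∈ {i}, if odd (w j) then (1 : ℚ) else 0) * (Pi.single v 1 : W k l (Fin n)) w
    rw [Finset.prod_singleton, Pi.single_apply]
    by_cases hw : w = v
    · rw [hw]
    · rw [if_neg hw, mul_zero, mul_zero]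

/-! ### one more strand -/

/-- the embedding of the first `n + 1` strands -/
def aL (n m1 : ℕ) : Fin (n + 1) ↪o Fin (n + m1 + 1) :=
  Fin.castLEOrderEmb (by omega)

/-- the embedding of the last `m1` strands -/
def bR (n m1 : ℕ) : Fin m1 ↪o Fin (n + m1 + 1) :=
  (phR n m1).trans (Fin.succOrderEmb (n + m1))

theorem aL_zero : aL n m1 0 = 0 := rfl

theorem aL_succ (i : Fin n) : aL n m1 i.succ = (phL n m1 i).succ := rfl

theorem bR_apply (s : Fin m1) : bR n m1 s = (phR n m1 s).succ := rfl

theorem aL_ne_bR (i : Fin (n + 1)) (s : Fin m1) : aL n m1 i ≠ bR n m1 s := by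
  intro h
  have h1 := congrArg Fin.val h
  have h2 : (aL n m1 i).val = i.val := rfl
  have h3 : (bR n m1 s).val = n + s.val + 1 := rfl
  rw [h2, h3] at h1
  have := i.2
  omega

theorem conv_aL : Conv (aL n m1) := by
  intro x hx
  right
  intro a
  by_contra h
  apply hx
  have h1 : x.val < n + 1 := by
    have h2 := not_lt.1 h
    have h3 : x.val ≤ (aL n m1 a).val := h2
    have h4 : (aL n m1 a).val = a.val := rfl
    have := a.2
    omega
  exact ⟨⟨x.val, h1⟩, Fin.ext rfl⟩

theorem conv_succ (n : ℕ) : Conv (Fin.succOrderEmb n) := by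
  intro x hx
  left
  intro a
  have h : x = 0 := by
    by_contra h
    obtain ⟨y, rfl⟩ := Fin.exists_succ_eq.2 h
    exact hx ⟨y, rfl⟩
  rw [h]
  exact Fin.succ_pos a

/-- `f ⊗ ξ`, with the free strand -/
def tf' (n : ℕ) : W k l (Fin (n + 1)) →ₗ[ℚ] W k l (Fin (n + m1 + 1)) where
  toFun f := fun w => f (w ∘ aL n m1) * C.ξ (w ∘ bR n m1)
  map_add' f g := by funext w; simp only [Pi.add_apply, add_mul]
  map_smul' c f := by funext w; simp only [Pi.smul_apply, smul_eq_mul, RingHom.id_apply, mul_assoc]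

theorem tf'_apply (f : W k l (Fin (n + 1))) (w : Fin (n + m1 + 1) → Lt k l) :
    tf' C n f w = f (w ∘ aL n m1) * C.ξ (w ∘ bR n m1) := rfl

theorem cons_comp_aL (c : Lt k l) (u : Fin (n + m1) → Lt k l) :
    (Fin.cons c u : Fin (n + m1 + 1) → Lt k l) ∘ aL n m1 = Fin.cons c (u ∘ phL n m1) := by
  funext i
  refine Fin.cases rfl (fun i => ?_) i
  rw [Function.comp_apply, aL_succ, Fin.cons_succ, Fin.cons_succ, Function.comp_apply]

theorem cons_comp_bR (c : Lt k l) (u : Fin (n + m1) → Lt k l) :
    (Fin.cons c u : Fin (n + m1 + 1) → Lt k l) ∘ bR n m1 = u ∘ phR n m1 := by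
  funext i
  rw [Function.comp_apply, bR_apply, Fin.cons_succ, Function.comp_apply]

theorem comp_tf' (c : Lt k l) (f : W k l (Fin (n + 1))) :
    Super.comp c (tf' C n f) = tf C n (Super.comp c f) := by
  funext u
  rw [Super.comp_apply, tf'_apply, tf_apply, Super.comp_apply, cons_comp_aL, cons_comp_bR]

theorem ins_tf (c : Lt k l) (f : W k l (Fin n)) :
    ins c (tf C n f) = tf' C n (ins c f) := by
  refine Super.ext_comp fun d => ?_
  rw [Super.comp_ins, comp_tf', Super.comp_ins]
  split_ifs
  · rfl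
  · rw [map_zero]

theorem extend_aL (u : Fin (n + 1) → Lt k l) (w : Fin (n + m1 + 1) → Lt k l) :
    Function.extend (aL n m1) u w ∘ aL n m1 = u := by
  funext i
  exact (aL n m1).injective.extend_apply _ _ _

theorem extend_bR (u : Fin (n + 1) → Lt k l) (w : Fin (n + m1 + 1) → Lt k l) :
    Function.extend (aL n m1) u w ∘ bR n m1 = w ∘ bR n m1 := by
  funext i
  rw [Function.comp_apply, Function.comp_apply, Function.extend_apply']
  rintro ⟨a, ha⟩
  exact aL_ne_bR a i ha

theorem act_aL (y : MonoidAlgebra ℚ (Perm (Fin (n + 1)))) (f : W k l (Fin (n + 1))) :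
    act k l _ (pl (aL n m1) y) (tf' C n f) = tf' C n (act k l _ y f) := by
  funext w
  rw [Super.act_pl conv_aL, tf'_apply]
  have h : Super.sl (aL n m1) w (tf' C n f) = C.ξ (w ∘ bR n m1) • f := by
    funext u
    rw [Super.sl_apply, tf'_apply, extend_aL, extend_bR, Pi.smul_apply, smul_eq_mul, mul_comm]
  rw [h, map_smul, Pi.smul_apply, smul_eq_mul, mul_comm]

theorem comp_act_succ (y : MonoidAlgebra ℚ (Perm (Fin n))) (f : W k l (Fin (n + 1)))
    (c : Lt k l) : Super.comp c (act k l _ (pl (Fin.succOrderEmb n) y) f)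
      = act k l _ y (Super.comp c f) := by
  funext u
  rw [Super.comp_apply, Super.act_pl (conv_succ n)]
  have h1 : (Fin.cons c u : Fin (n + 1) → Lt k l) ∘ (Fin.succOrderEmb n) = u := by
    funext i
    rfl
  have h2 : Super.sl (Fin.succOrderEmb n) (Fin.cons c u) f = Super.comp c f := by
    funext v
    rw [Super.sl_apply, Super.comp_apply]
    congr 1
    funext i
    refine Fin.cases ?_ (fun i => ?_) i
    · rw [Function.extend_apply', Fin.cons_zero, Fin.cons_zero]
      rintro ⟨a, ha⟩
      exact absurd ha (Fin.succ_ne_zero a)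
    · rw [Fin.cons_succ]
      exact (Fin.succOrderEmb n).injective.extend_apply _ _ _
  rw [h1, h2]

theorem Rep_succ {X : Module.End ℚ (W k l (Fin n))} {y : MonoidAlgebra ℚ (Perm (Fin (n + m1)))}
    (h : Rep C X y) (f : W k l (Fin (n + 1))) :
    act k l _ (pl (Fin.succOrderEmb (n + m1)) y) (tf' C n f) = tf' C n (up ℚ k l n X f) := by
  refine Super.ext_comp fun c => ?_
  rw [comp_act_succ, comp_tf', comp_tf', h]
  congr 1

/-! ### the kernel -/

/-- the order isomorphism -/
def ce (n m1 : ℕ) : Fin (n + 1 + m1) ≃o Fin (n + m1 + 1) := Fin.castOrderIso (by omega)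

theorem phL_ce : (phL (n + 1) m1).trans (ce n m1).toOrderEmbedding = aL n m1 := by
  ext i
  rfl

theorem phR_ce : (phR (n + 1) m1).trans (ce n m1).toOrderEmbedding = bR n m1 := by
  ext i
  change n + 1 + i.val = n + i.val + 1
  omega

theorem pl_ce (y : MonoidAlgebra ℚ (Perm (Fin (n + m1 + 1)))) :
    pl (ce n m1).toOrderEmbedding (pl (ce n m1).symm.toOrderEmbedding y) = y := by
  rw [Super.pl_trans]
  have h : (ce n m1).symm.toOrderEmbedding.trans (ce n m1).toOrderEmbedding
      = (OrderIso.refl _).toOrderEmbedding := by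
    ext i
    rfl
  rw [h]
  induction y using MonoidAlgebra.induction_on with
  | of σ =>
    rw [Super.pl_of]
    congr 1
    ext i
    exact congrArg Fin.val (Super.ext_apply ((OrderIso.refl _).toOrderEmbedding) σ i)
  | add x y hx hy => rw [map_add, hx, hy]
  | smul r x hx => rw [map_smul, hx]

theorem act_ce (y : MonoidAlgebra ℚ (Perm (Fin (n + 1 + m1)))) (g : W k l (Fin (n + m1 + 1)))
    (w : Fin (n + m1 + 1) → Lt k l) :
    act k l _ (pl (ce n m1).toOrderEmbedding y) g w
      = act k l _ y (fun u => g (u ∘ (ce n m1).symm)) (w ∘ ce n m1) := by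
  rw [Super.act_pl]
  · have h : Super.sl (ce n m1).toOrderEmbedding w g = fun u => g (u ∘ (ce n m1).symm) := by
      funext u
      rw [Super.sl_apply]
      congr 1
      funext i
      obtain ⟨j, rfl⟩ := (ce n m1).surjective i
      rw [Function.comp_apply, OrderIso.symm_apply_apply]
      exact (ce n m1).toOrderEmbedding.injective.extend_apply _ _ _
    rw [h]
    rfl
  · intro x hx
    exact absurd ⟨(ce n m1).symm x, (ce n m1).apply_symm_apply x⟩ hx

theorem ker_of' (y : MonoidAlgebra ℚ (Perm (Fin (n + m1 + 1))))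
    (hy : ∀ f, act k l _ y (tf' C n f) = 0) : act k l _ (y * pl (bR n m1) C.z) = 0 := by
  have h1 : ∀ v : Fin (n + 1) → Lt k l,
      act k l _ (pl (ce n m1).symm.toOrderEmbedding y) (tn v C.ξ) = 0 := by
    intro v
    funext u
    have h2 := congrFun (hy (Pi.single v 1)) (u ∘ (ce n m1).symm)
    rw [← pl_ce y, act_ce] at h2
    have h3 : (u ∘ (ce n m1).symm) ∘ (ce n m1) = u := by
      funext i
      simp
    have h4 : (fun u => tf' C n (Pi.single v 1) (u ∘ (ce n m1).symm)) = tn v C.ξ := by
      funext u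
      rw [tf'_apply, Super.tn_apply, Pi.single_apply]
      have h5 : (u ∘ (ce n m1).symm) ∘ aL n m1 = u ∘ phL (n + 1) m1 := by
        funext i
        rfl
      have h6 : (u ∘ (ce n m1).symm) ∘ bR n m1 = u ∘ phR (n + 1) m1 := by
        funext i
        rw [← phR_ce]
        simp
      rw [h5, h6]
      split_ifs
      · rw [one_mul]
      · rw [zero_mul]
    rw [h3, h4] at h2
    exact h2
  have h2 := C.ker_of _ h1
  have h3 : y * pl (bR n m1) C.z = pl (ce n m1).toOrderEmbedding
      (pl (ce n m1).symm.toOrderEmbedding y * C.Z (n + 1)) := by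
    rw [map_mul, pl_ce]
    unfold Super.Cat.Z
    rw [Super.pl_trans, phR_ce]
  refine LinearMap.ext fun g => funext fun w => ?_
  rw [h3, act_ce, h2]
  rfl

end rep

end Pool.PI34.XX
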