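import Pool.Agent.LibPI34.X_M2
import Pool.Agent.LibPI34.Q1

/-!
PI34, the prime `p = 2`, model side, file M3: the data of the matrix catalyst.
-/

set_option autoImplicit false
set_option linter.unusedSectionVars false

namespace Pool.PI34.XX

open Equiv Finset
open Pool.PI34.Super (W Lt odd act tn ins phL phR phi Cat Ux pl ext Conv Ap jA mj plL bc)

section typed

variable (k l : ℕ) {N : ℕ} (Ω : MonoidAlgebra (Ap 2) (Perm (Fin N)))

/-- `δ^S Ω` -/
noncomputable def AO (S : Finset (Fin N)) : Module.End O2 (SK.W O2 k l (Fin N)) :=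
  dT O2 k l r2 S * plain O2 k l (Fin N) (Ap 2) Ω

/-- `Ωᵗ δ^S` -/
noncomputable def AO' (S : Finset (Fin N)) : Module.End O2 (SK.W O2 k l (Fin N)) :=
  plain O2 k l (Fin N) (Ap 2) (st (Ap 2) _ Ω) * dT O2 k l r2 S

/-- the rational operator of `δ^S Ω` -/
noncomputable def QA (S : Finset (Fin N)) : Module.End ℚ (W k l (Fin N)) :=
  dT ℚ k l 1 S * plain ℚ k l (Fin N) ℚ (mj (jA 2) _ Ω)

/-- the rational operator of `Ωᵗ δ^S` -/
noncomputable def QA' (S : Finset (Fin N)) : Module.End ℚ (W k l (Fin N)) :=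
  plain ℚ k l (Fin N) ℚ (mj (jA 2) _ (st (Ap 2) _ Ω)) * dT ℚ k l 1 S

variable {k l}

theorem Adj_AO (S : Finset (Fin N)) : Adj (AO k l Ω S) (AO' k l Ω S) :=
  (Adj_dT r2 S).mul (Adj_plain Ω)

theorem Ex_AO (S : Finset (Fin N)) :
    Ex (AO k l Ω S) (fun a b => jA 2 (Psi (r2 ^ S.card) a b) • QA k l Ω S) := by
  refine ((Ex_dT S).mul (Ex_plain Ω)).congr fun a b => ?_
  rw [Finset.sum_eq_single b]
  · rw [if_pos rfl, smul_mul_assoc]
    rfl
  · intro c _ hc
    rw [if_neg hc, mul_zero]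
  · intro h
    exact absurd (mem_univ _) h

theorem Ex_AO' (S : Finset (Fin N)) :
    Ex (AO' k l Ω S) (fun a b => jA 2 (Psi (r2 ^ S.card) a b) • QA' k l Ω S) := by
  refine ((Ex_plain (st (Ap 2) _ Ω)).mul (Ex_dT S)).congr fun a b => ?_
  rw [Finset.sum_eq_single a]
  · rw [if_pos rfl, mul_smul_comm]
    rfl
  · intro c _ hc
    rw [if_neg hc.symm, zero_mul]
  · intro h
    exact absurd (mem_univ _) h

theorem Ex_OX (S S' : Finset (Fin N)) :
    Ex (AO k l Ω S * AO' k l Ω S')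
      (fun a b => jA 2 (Psi (r2 ^ (S.card + S'.card)) a b) • (QA k l Ω S * QA' k l Ω S')) := by
  refine ((Ex_AO Ω S).mul (Ex_AO' Ω S')).congr fun a b => ?_
  rw [pow_add, Psi_mul, map_sum, Finset.sum_smul]
  refine Finset.sum_congr rfl fun c _ => ?_
  rw [smul_mul_assoc, mul_smul_comm, smul_smul, map_mul]

end typed

/-- the data -/
structure MD (k l : ℕ) where
  N : ℕ
  Ω : MonoidAlgebra (Ap 2) (Perm (Fin N))
  lam : Finset (Fin N) → Finset (Fin N) → MonoidAlgebra O2 (Perm (Fin (N + 1)))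
  hΩ : plain O2 k l (Fin N) (Ap 2) Ω ≠ 0
  hE : ∀ S, dT O2 k l r2 {0} * up O2 k l N (AO k l Ω S)
    = ∑ S', SK.act O2 O2 k l _ (lam S S') * up O2 k l N (AO k l Ω S')
  m1 : ℕ
  C : Cat k l m1
  hξ : C.ξ ≠ 0
  y : Finset (Fin N) → Finset (Fin N) → MonoidAlgebra ℚ (Perm (Fin (N + m1)))
  hy : ∀ S S', Rep C (QA k l Ω S * QA' k l Ω S') (y S S')
  D : ℕ
  hD : 0 < D
  t : Finset (Fin N) → Finset (Fin N) → MonoidAlgebra ℤ (Perm (Fin (N + m1)))
  ht : ∀ S S', bc (t S S') = (D : ℚ) • (y S S' * C.Z N)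

theorem EXT.md {k l : ℕ} (h : EXT k l) : Nonempty (MD k l) := by
  obtain ⟨N, Ω, lam, hΩ, hE⟩ := h
  set C := Super.catalyst k l with hC
  have h1 : ∀ S S', ∃ y, Rep C (QA k l Ω S * QA' k l Ω S') y := by
    intro S S'
    obtain ⟨x1, h1⟩ := exists_Rep_dT C S
    obtain ⟨x2, h2⟩ := exists_Rep_plain C (mj (jA 2) _ Ω)
    obtain ⟨x3, h3⟩ := exists_Rep_plain C (mj (jA 2) _ (st (Ap 2) _ Ω))
    obtain ⟨x4, h4⟩ := exists_Rep_dT C S'
    exact ⟨x1 * x2 * (x3 * x4), (h1.mul h2).mul (h3.mul h4)⟩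
  choose y hy using h1
  obtain ⟨D, hD, t, ht⟩ := Super.exists_int_fam
    (fun p : Finset (Fin N) × Finset (Fin N) => y p.1 p.2 * C.Z N)
  refine ⟨{ N := N, Ω := Ω, lam := lam, hΩ := hΩ, hE := fun S => ?_, m1 := _, C := C,
            hξ := Super.xi_ne k l, y := y, hy := hy, D := D, hD := hD,
            t := fun S S' => t (S, S'), ht := fun S S' => ht (S, S') }⟩
  have h2 : ∀ S, up O2 k l N (AO k l Ω S) = dT O2 k l r2 (S.map (Fin.succEmb N)) *
      plain O2 k l (Fin (N + 1)) (Ap 2) (sh _ N Ω) := fun S => by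
    unfold AO
    rw [map_mul, up_dT, up_plain]
  simp only [h2]
  exact hE S

/-- base change `ℤ[G] → ℤ_(2)[G]` -/
noncomputable def icB (G : Type) [Group G] : MonoidAlgebra ℤ G →+* MonoidAlgebra (Ap 2) G :=
  MonoidAlgebra.mapRingHom G (algebraMap ℤ (Ap 2))

theorem mj_icB {G : Type} [Group G] (y : MonoidAlgebra ℤ G) : mj (jA 2) G (icB G y) = bc y := by
  ext g
  unfold mj bc icB
  rw [MonoidAlgebra.coeff_mapRingHom, MonoidAlgebra.coeff_mapRingHom,
    MonoidAlgebra.coeff_mapRingHom, Super.jA_int]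
  rfl

namespace MD

variable {k l : ℕ} (M : MD k l)

/-- the index set -/
abbrev B : Type := Finset (Fin M.N) × Fin 2

/-- the projection -/
noncomputable def T : Matrix M.B M.B (MonoidAlgebra (Ap 2) (Perm (Fin (M.N + M.m1)))) :=
  fun p q => Psi (r2 ^ (p.1.card + q.1.card)) p.2 q.2 • icB _ (M.t p.1 q.1)

/-- the square root of two -/
noncomputable def r : Matrix M.B M.B (Ap 2) :=
  fun p q => if p.1 = q.1 then Psi r2 p.2 q.2 else 0

/-- delta on the left -/
noncomputable def lamM : Matrix M.B M.B (MonoidAlgebra (Ap 2) (Perm (Fin (M.N + M.m1 + 1)))) :=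
  fun p q => plL (Ap 2) (aL M.N M.m1) (pj p.2 q.2 _ (M.lam p.1 q.1))

/-- delta on the right -/
noncomputable def lamM' : Matrix M.B M.B (MonoidAlgebra (Ap 2) (Perm (Fin (M.N + M.m1 + 1)))) :=
  fun p q => plL (Ap 2) (aL M.N M.m1) (pj p.2 q.2 _ (st _ _ (M.lam q.1 p.1)))

theorem hE' (S : Finset (Fin M.N)) : up O2 k l M.N (AO' k l M.Ω S) * dT O2 k l r2 {0}
    = ∑ S', up O2 k l M.N (AO' k l M.Ω S') * SK.act O2 O2 k l _ (st _ _ (M.lam S S')) := by
  have h1 : Adj (dT O2 k l r2 {0} * up O2 k l M.N (AO k l M.Ω S))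
      (up O2 k l M.N (AO' k l M.Ω S) * dT O2 k l r2 {0}) :=
    (Adj_dT r2 {0}).mul (Adj_up (Adj_AO M.Ω S))
  have h2 : Adj (∑ S', SK.act O2 O2 k l _ (M.lam S S') * up O2 k l M.N (AO k l M.Ω S'))
      (∑ S', up O2 k l M.N (AO' k l M.Ω S') * SK.act O2 O2 k l _ (st _ _ (M.lam S S'))) :=
    Adj.sum _ fun S' _ => (Adj_act _).mul (Adj_up (Adj_AO M.Ω S'))
  rw [← M.hE S] at h2
  exact h1.unique h2

theorem sum_B {A : Type*} [AddCommMonoid A] (f : M.B → A) :
    ∑ p, f p = ∑ S, ∑ a, f (S, a) := Fintype.sum_prod_type f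

theorem Psi_two (a b : Fin 2) : Psi 2 a b = if a = b then 2 else 0 := by
  have h : (2 : O2) = 1 + 1 := by norm_num
  rw [h, Psi_add, Psi_one]
  split_ifs <;> norm_num

theorem r_sq : M.r * M.r = 2 := by
  ext p q
  rw [Matrix.mul_apply, M.sum_B]
  have h1 : ∀ S a, M.r p (S, a) * M.r (S, a) q
      = if p.1 = S then (if p.1 = q.1 then Psi r2 p.2 a * Psi r2 a q.2 else 0) else 0 := by
    intro S a
    unfold r
    dsimp only
    by_cases h : p.1 = S
    · rw [if_pos h, if_pos h, ← h]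
      split_ifs <;> simp
    · rw [if_neg h, if_neg h, zero_mul]
  simp only [h1]
  rw [Finset.sum_eq_single p.1]
  · simp only [if_true]
    have h3 : (2 : Matrix M.B M.B (Ap 2)) p q = if p = q then 2 else 0 := by
      have h4 : (2 : Matrix M.B M.B (Ap 2)) = 1 + 1 := by norm_num
      rw [h4, Matrix.add_apply, Matrix.one_apply]
      split_ifs <;> norm_num
    rw [h3]
    by_cases h : p.1 = q.1
    · simp only [if_pos h]
      rw [← Psi_mul, r2_sq, Psi_two]
      by_cases h' : p.2 = q.2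
      · rw [if_pos h', if_pos (Prod.ext h h')]
      · rw [if_neg h', if_neg (fun e => h' (congrArg Prod.snd e))]
    · simp only [if_neg h]
      rw [Finset.sum_const_zero, if_neg (fun e => h (congrArg Prod.fst e))]
  · intro S _ hS
    simp only [if_neg hS.symm]
    exact Finset.sum_const_zero
  · intro h
    exact absurd (mem_univ _) h

theorem cst_r_mul {G : Type} [Group G] (X : Matrix M.B M.B (MonoidAlgebra (Ap 2) G)) (p q : M.B) :
    (cst (Ap 2) G M.r * X) p q = ∑ a, Psi r2 p.2 a • X (p.1, a) q := by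
  rw [Matrix.mul_apply, M.sum_B, Finset.sum_eq_single p.1]
  · refine Finset.sum_congr rfl fun a _ => ?_
    change algebraMap (Ap 2) (MonoidAlgebra (Ap 2) G) (M.r p (p.1, a)) * _ = _
    unfold r
    dsimp only
    rw [if_pos rfl, Algebra.smul_def]
  · intro S _ hS
    refine Finset.sum_eq_zero fun a _ => ?_
    change algebraMap (Ap 2) (MonoidAlgebra (Ap 2) G) (M.r p (S, a)) * _ = _
    unfold r
    dsimp only
    rw [if_neg hS.symm, map_zero, zero_mul]
  · intro h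
    exact absurd (mem_univ _) h

theorem mul_cst_r {G : Type} [Group G] (X : Matrix M.B M.B (MonoidAlgebra (Ap 2) G)) (p q : M.B) :
    (X * cst (Ap 2) G M.r) p q = ∑ a, Psi r2 a q.2 • X p (q.1, a) := by
  rw [Matrix.mul_apply, M.sum_B, Finset.sum_eq_single q.1]
  · refine Finset.sum_congr rfl fun a _ => ?_
    change _ * algebraMap (Ap 2) (MonoidAlgebra (Ap 2) G) (M.r (q.1, a) q) = _
    unfold r
    dsimp only
    rw [if_pos rfl, ← Algebra.commutes, Algebra.smul_def]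
  · intro S _ hS
    refine Finset.sum_eq_zero fun a _ => ?_
    change _ * algebraMap (Ap 2) (MonoidAlgebra (Ap 2) G) (M.r (S, a) q) = _
    unfold r
    dsimp only
    rw [if_neg hS, map_zero, mul_zero]
  · intro h
    exact absurd (mem_univ _) h

theorem rT : cst (Ap 2) _ M.r * M.T = M.T * cst (Ap 2) _ M.r := by
  ext1 p q
  rw [cst_r_mul, mul_cst_r]
  unfold T
  dsimp only
  simp only [smul_smul]
  rw [← Finset.sum_smul, ← Finset.sum_smul, Psi_comm]
  congr 1
  exact Finset.sum_congr rfl fun a _ => mul_comm _ _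

theorem rlam : cst (Ap 2) _ M.r * M.lamM = M.lamM * cst (Ap 2) _ M.r := by
  ext1 p q
  rw [cst_r_mul, mul_cst_r]
  unfold lamM
  dsimp only
  simp only [← Super.plL_smul]
  rw [← map_sum, ← map_sum, pj_mul, pj_mul']

end MD

end Pool.PI34.XX
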