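import Pool.Agent.LibPI34.X_Defs

/-!
PI34, the prime `p = 2`, ring side, file R2: matrices over the group algebra and matrix
catalysts (definitions).
-/

set_option autoImplicit false
set_option linter.unusedSectionVars false

namespace Pool.PI34.XX

open Equiv Finset
open Pool.PI34.Super (W Lt odd act mj tn ins EE gen plL phL phR phi)

section mat

variable {B : Type} [Fintype B] [DecidableEq B]

/-- the action of the matrices over a ring of operators on the families -/
def mE {S M A : Type} [CommRing S] [AddCommGroup M] [Module S M] [Ring A]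
    (φ : A →+* Module.End S M) : Matrix B B A →+* Module.End S (B → M) where
  toFun Y :=
    { toFun := fun x b => ∑ b', φ (Y b b') (x b')
      map_add' := fun x y => by
        funext b
        simp only [Pi.add_apply, map_add, Finset.sum_add_distrib]
      map_smul' := fun c x => by
        funext b
        simp only [Pi.smul_apply, map_smul, RingHom.id_apply, Finset.smul_sum] }
  map_one' := by
    refine LinearMap.ext fun x => funext fun b => ?_
    change ∑ b', φ ((1 : Matrix B B A) b b') (x b') = x b
    rw [Finset.sum_eq_single b]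
    · rw [Matrix.one_apply_eq, map_one]
      rfl
    · intro b' _ hb
      rw [Matrix.one_apply_ne hb.symm, map_zero]
      rfl
    · intro h; exact absurd (mem_univ _) h
  map_mul' Y Z := by
    refine LinearMap.ext fun x => funext fun b => ?_
    change ∑ b', φ ((Y * Z) b b') (x b') = ∑ c, φ (Y b c) (∑ b', φ (Z c b') (x b'))
    simp only [map_sum]
    rw [Finset.sum_comm]
    refine Finset.sum_congr rfl fun b' _ => ?_
    rw [Matrix.mul_apply, map_sum, LinearMap.sum_apply]
    exact Finset.sum_congr rfl fun c _ => by rw [map_mul]; rfl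
  map_zero' := by
    refine LinearMap.ext fun x => funext fun b => ?_
    change ∑ b', φ ((0 : Matrix B B A) b b') (x b') = 0
    exact Finset.sum_eq_zero fun b' _ => by rw [Matrix.zero_apply, map_zero]; rfl
  map_add' Y Z := by
    refine LinearMap.ext fun x => funext fun b => ?_
    change ∑ b', φ ((Y + Z) b b') (x b') = ∑ b', φ (Y b b') (x b') + ∑ b', φ (Z b b') (x b')
    rw [← Finset.sum_add_distrib]
    exact Finset.sum_congr rfl fun b' _ => by rw [Matrix.add_apply, map_add]; rfl

theorem mE_apply {S M A : Type} [CommRing S] [AddCommGroup M] [Module S M] [Ring A]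
    (φ : A →+* Module.End S M) (Y : Matrix B B A) (x : B → M) (b : B) :
    mE φ Y x b = ∑ b', φ (Y b b') (x b') := rfl

variable {Λ : Type} [CommRing Λ] (j : Λ →+* ℚ) (k l : ℕ)

/-- the signed action of the matrices over the group algebra on the families of functions on
words -/
noncomputable def aW {ι : Type} [Fintype ι] [LinearOrder ι] :
    Matrix B B (MonoidAlgebra Λ (Perm ι)) →+* Module.End ℚ (B → W k l ι) :=
  mE ((act k l ι).toRingHom.comp (mj j (Perm ι)))

/-- the scalar matrices as matrices over the group algebra -/
noncomputable def cst (Λ : Type) [CommRing Λ] (G : Type) [Group G] :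
    Matrix B B Λ →+* Matrix B B (MonoidAlgebra Λ G) :=
  (algebraMap Λ (MonoidAlgebra Λ G)).mapMatrix

/-- placement of the matrices over the group algebra -/
noncomputable def plM (Λ : Type) [CommRing Λ] {κ ι : Type} [Fintype κ] [LinearOrder κ]
    [Fintype ι] [LinearOrder ι] (φ : κ ↪o ι) :
    Matrix B B (MonoidAlgebra Λ (Perm κ)) →+* Matrix B B (MonoidAlgebra Λ (Perm ι)) :=
  (plL Λ φ).mapMatrix

end mat

/-- the space of families generated by a set of families under the operators `E_ab` -/
def UB {k l m : ℕ} {B : Type} (Xi : Set (B → W k l (Fin m))) :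
    Submodule ℚ (B → W k l (Fin m)) :=
  gen {F | ∃ a b : Lt k l, F = (EE a b : Module.End ℚ (W k l (Fin m))).compLeft B}
    (Submodule.span ℚ Xi)

/-- MATRIX CATALYSTS with coefficients in `Λ`.  The free strand is the strand `0` of
`Fin (m + 1)`. -/
structure CB {Λ : Type} [CommRing Λ] (j : Λ →+* ℚ) (k l m : ℕ) (B : Type) [Fintype B]
    [DecidableEq B] where
  /-- the families -/
  Xi : Set (B → W k l (Fin m))
  /-- the projection -/
  T : Matrix B B (MonoidAlgebra Λ (Perm (Fin m)))
  /-- delta on the left -/
  lam : Matrix B B (MonoidAlgebra Λ (Perm (Fin (m + 1))))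
  /-- delta on the right -/
  lam' : Matrix B B (MonoidAlgebra Λ (Perm (Fin (m + 1))))
  /-- the square root of two -/
  r : Matrix B B Λ
  r_sq : r * r = 2
  rT : cst Λ _ r * T = T * cst Λ _ r
  rlam : cst Λ _ r * lam = lam * cst Λ _ r
  hT : ∀ f, aW j k l T f ∈ UB Xi
  hlam : ∀ x ∈ Xi, ∀ c : Lt k l, aW j k l lam (fun b => ins c (x b))
    = (if odd c then (1 : ℚ) else 0) • aW j k l (cst Λ _ r) (fun b => ins c (x b))
  hlam' : aW j k l (lam * plM Λ (Fin.succOrderEmb m) T)
    = aW j k l (plM Λ (Fin.succOrderEmb m) T * lam')
  hne : ∃ f, aW j k l T f ∈ Xi ∧ aW j k l T f ≠ 0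

/-- the target of the model part -/
def ModelSide : Prop := ∀ k l : ℕ, EXT k l →
  ∃ (m : ℕ) (B : Type) (_ : Fintype B) (_ : DecidableEq B),
    Nonempty (CB (Super.jA 2) k l m B)

end Pool.PI34.XX
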