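import Pool.Agent.LibPI34.X_R1
import Pool.Agent.LibPI34.X_R2

/-!
PI34, the prime `p = 2`, ring side, file R3: the relations of a matrix catalyst on words.
-/

set_option autoImplicit false
set_option linter.unusedSectionVars false
set_option linter.unusedSimpArgs false

namespace Pool.PI34.XX

open Equiv Finset
open Pool.PI34.Super (W Lt odd act mj tn ins EE gen plL phL phR phi pl sl ext eop EB prs mem_prs
  eps pv)
open Pool.PI34.BA (anti permsOn)

variable {k l : ℕ}

/-! ### families of vectors -/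

section fam

variable {n m : ℕ}

/-- evaluation of placed elements at the last strand, for sums -/
theorem act_phi_last_sum {τ : Type} [Fintype τ] {x : τ → W k l (Fin m)} {y : W k l (Fin m)}
    {E : τ → MonoidAlgebra ℚ (Perm (Fin (m + 1)))} {e : Lt k l → ℚ}
    (hE : ∀ c, ∑ t, act k l _ (E t) (ins c (x t)) = e c • ins c y) (i : Fin n)
    (hi : i.val + 1 = n) (v : Fin n → Lt k l) :
    ∑ t, act k l _ (pl (phi n m i) (E t)) (tn v (x t)) = e (v i) • tn v y := by
  funext w
  rw [Finset.sum_apply]
  have h0 : ∀ t, act k l _ (pl (phi n m i) (E t)) (tn v (x t)) w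
      = act k l _ (E t) (sl (phi n m i) w (tn v (x t))) (w ∘ phi n m i) := fun t =>
    Super.act_pl (Super.conv_phi i hi) _ _ _
  rw [Finset.sum_congr rfl fun t _ => h0 t]
  have hne : ∀ j : Fin n, j ≠ i → phL n m j ∉ Set.range (phi n m i) := by
    rintro j hj ⟨x, hx⟩
    rcases Fin.eq_zero_or_eq_succ x with rfl | ⟨x, rfl⟩
    · rw [Super.phi_zero] at hx
      exact hj ((phL n m).injective hx).symm
    · rw [Super.phi_succ] at hx
      exact Super.phR_notMem j ⟨x, hx⟩
  have h : ∀ ξ : W k l (Fin m), sl (phi n m i) w (tn v ξ)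
      = if (∀ j, j ≠ i → w (phL n m j) = v j) then ins (v i) ξ else 0 := by
    intro ξ
    funext u
    rw [Super.sl_apply, Super.tn_apply]
    have h1 : Function.extend (phi n m i) u w ∘ phR n m = Fin.tail u := by
      funext s
      have : phR n m s = phi n m i s.succ := rfl
      rw [Function.comp_apply, this, (phi n m i).injective.extend_apply]; rfl
    have h2 : Function.extend (phi n m i) u w ∘ phL n m = v ↔
        ((∀ j, j ≠ i → w (phL n m j) = v j) ∧ u 0 = v i) := by
      constructor
      · intro h3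
        refine ⟨fun j hj => ?_, ?_⟩
        · have := congrFun h3 j
          rw [Function.comp_apply, Function.extend_apply' _ _ _ (hne j hj)] at this
          exact this
        · have := congrFun h3 i
          have h4 : phL n m i = phi n m i 0 := rfl
          rw [Function.comp_apply, h4, (phi n m i).injective.extend_apply] at this
          exact this
      · rintro ⟨h3, h4⟩
        funext j
        by_cases hj : j = i
        · subst hj
          have h5 : phL n m j = phi n m j 0 := rfl
          rw [Function.comp_apply, h5, (phi n m j).injective.extend_apply, h4]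
        · rw [Function.comp_apply, Function.extend_apply' _ _ _ (hne j hj), h3 j hj]
    rw [h1]
    by_cases h3 : (∀ j, j ≠ i → w (phL n m j) = v j)
    · rw [if_pos h3]
      unfold ins
      by_cases h4 : u 0 = v i
      · rw [if_pos (h2.2 ⟨h3, h4⟩), if_pos h4]
      · rw [if_neg (fun h5 => h4 (h2.1 h5).2), if_neg h4]
    · rw [if_neg h3, if_neg (fun h5 => h3 (h2.1 h5).1)]; rfl
  rw [Pi.smul_apply, Super.tn_apply]
  have h6 : (w ∘ phL n m = v) ↔
      ((∀ j, j ≠ i → w (phL n m j) = v j) ∧ w (phL n m i) = v i) := by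
    constructor
    · intro h; rw [← h]; exact ⟨fun _ _ => rfl, rfl⟩
    · rintro ⟨h1, h2⟩
      funext j
      by_cases hj : j = i
      · subst hj; exact h2
      · exact h1 j hj
  by_cases h3 : (∀ j, j ≠ i → w (phL n m j) = v j)
  · have h8 : ∑ t, act k l _ (E t) (sl (phi n m i) w (tn v (x t))) (w ∘ phi n m i)
        = (∑ t, act k l _ (E t) (ins (v i) (x t))) (w ∘ phi n m i) := by
      rw [Finset.sum_apply]
      exact Finset.sum_congr rfl fun t _ => by rw [h, if_pos h3]
    rw [h8, hE, Pi.smul_apply]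
    unfold ins
    have h7 : (w ∘ phi n m i) 0 = w (phL n m i) := rfl
    have h8 : Fin.tail (w ∘ phi n m i) = w ∘ phR n m := rfl
    rw [h7, h8]
    by_cases h4 : w (phL n m i) = v i
    · rw [if_pos h4, if_pos (h6.2 ⟨h3, h4⟩)]
    · rw [if_neg h4, if_neg (fun h5 => h4 (h6.1 h5).2)]
  · rw [if_neg (fun h5 => h3 (h6.1 h5).1), smul_zero]
    refine Finset.sum_eq_zero fun t _ => ?_
    rw [h, if_neg h3, map_zero]
    rfl

/-- evaluation of placed elements at an arbitrary strand, for sums -/
theorem act_phi_sum {τ : Type} [Fintype τ] {x : τ → W k l (Fin m)} {y : W k l (Fin m)}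
    {E : τ → MonoidAlgebra ℚ (Perm (Fin (m + 1)))} {e : Lt k l → ℚ}
    (hE : ∀ c, ∑ t, act k l _ (E t) (ins c (x t)) = e c • ins c y) (i : Fin n)
    (v : Fin n → Lt k l) :
    ∑ t, act k l _ (pl (phi n m i) (E t)) (tn v (x t)) = e (v i) • tn v y := by
  have hn : 0 < n := by have := i.2; omega
  let i0 : Fin n := ⟨n - 1, by omega⟩
  have hi0 : i0.val + 1 = n := by change n - 1 + 1 = n; omega
  let τ' : Perm (Fin n) := swap i i0
  let T : Perm (Fin (n + m)) := ext (phL n m) τ'
  have hT : ∀ a, T (phi n m i0 a) = phi n m i a := by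
    intro a
    rcases Fin.eq_zero_or_eq_succ a with rfl | ⟨a, rfl⟩
    · have h1 : phi n m i0 0 = phL n m i0 := rfl
      have h2 : phi n m i 0 = phL n m i := rfl
      rw [h1, h2]
      change ext (phL n m) τ' (phL n m i0) = _
      rw [Super.ext_apply]
      congr 1
      exact swap_apply_right i i0
    · rw [Super.phi_succ, Super.phi_succ]
      exact Super.ext_apply' _ _ _ (Super.phL_notMem a)
  have hTi : T⁻¹ = ext (phL n m) τ'⁻¹ := by change (ext (phL n m) τ')⁻¹ = _; rw [map_inv]
  have h1 : ∀ ξ : W k l (Fin m), Super.rho k l _ T⁻¹ (tn v ξ)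
      = eps τ'⁻¹ (pv v) • tn (v ∘ τ') ξ := by
    intro ξ
    rw [hTi, Super.rho_tn, inv_inv]
  have h2 : (v ∘ τ') i0 = v i := by
    change v (swap i i0 i0) = v i
    rw [swap_apply_right]
  have h3 : Super.rho k l _ T * Super.rho k l _ T⁻¹ = (1 : Module.End ℚ (W k l (Fin (n + m)))) := by
    rw [← map_mul, mul_inv_cancel, map_one]
  have h4 : ∀ t, act k l _ (pl (phi n m i) (E t)) (tn v (x t))
      = eps τ'⁻¹ (pv v) • Super.rho k l _ T
        (act k l _ (pl (phi n m i0) (E t)) (tn (v ∘ τ') (x t))) := by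
    intro t
    rw [Super.pl_conj _ _ T hT, map_mul, map_mul, Super.act_of, Super.act_of,
      Module.End.mul_apply, Module.End.mul_apply, h1, map_smul, map_smul]
  rw [Finset.sum_congr rfl fun t _ => h4 t, ← Finset.smul_sum, ← map_sum,
    act_phi_last_sum hE i0 hi0, h2, map_smul, smul_comm, ← map_smul, ← h1]
  congr 1
  exact LinearMap.congr_fun h3 _

/-- `eop_tnL` with uniform data -/
theorem eop_tnLu (a b : Lt k l) (i : Fin n) (v : Fin n → Lt k l) :
    ∃ (c : ℚ) (v' : Fin n → Lt k l), ∀ f : W k l (Fin m),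
      eop a b (phL n m i) (tn v f) = c • tn v' f := by
  classical
  by_cases hv : v i = b
  · refine ⟨Super.bsg a b v i, Function.update v i a, fun f => ?_⟩
    funext w
    rw [Super.eop_apply, Super.tn_apply, Pi.smul_apply, smul_eq_mul, Super.tn_apply]
    have h1 : Function.update w (phL n m i) b ∘ phL n m = Function.update (w ∘ phL n m) i b := by
      funext j
      by_cases hj : j = i
      · subst hj; simp
      · rw [Function.comp_apply, Function.update_of_ne hj,
          Function.update_of_ne (fun e => hj ((phL n m).injective e))]; rfl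
    have h2 : Function.update w (phL n m i) b ∘ phR n m = w ∘ phR n m := by
      funext j
      rw [Function.comp_apply, Function.update_of_ne]
      · rfl
      · intro e; exact Super.phR_notMem i ⟨j, e⟩
    rw [h1, h2]
    have h3 : (w (phL n m i) = a ∧ Function.update (w ∘ phL n m) i b = v) ↔
        w ∘ phL n m = Function.update v i a := by
      constructor
      · rintro ⟨h4, h5⟩
        rw [← h5, Function.update_idem, ← h4]
        exact (Function.update_eq_self i (w ∘ phL n m)).symm
      · intro h4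
        refine ⟨?_, ?_⟩
        · have := congrFun h4 i
          rw [Function.update_self] at this
          exact this
        · rw [h4, Function.update_idem, ← hv, Function.update_eq_self]
    have h6 : w ∘ phL n m = Function.update v i a →
        Super.bsg a b w (phL n m i) = Super.bsg a b v i := by
      intro h4
      rw [← Super.bsg_update_same a b a v i, ← h4]
      unfold Super.bsg
      rw [Finset.prod_filter, Finset.prod_filter, Fin.prod_univ_add]
      have h7 : ∏ j : Fin m, (if Fin.natAdd n j < phL n m i then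
          Super.eta a b (w (Fin.natAdd n j)) else 1) = 1 := by
        refine Finset.prod_eq_one (fun j _ => ?_)
        rw [if_neg]
        rw [Fin.lt_def]
        have h2 : (phL n m i).val = i.val := rfl
        simp only [Fin.val_natAdd]
        have := i.2; omega
      rw [h7, mul_one]
      refine Finset.prod_congr rfl (fun j _ => ?_)
      rfl
    by_cases h4 : w ∘ phL n m = Function.update v i a
    · have h5 := h3.2 h4
      rw [if_pos h5.1, if_pos h5.2, if_pos h4, h6 h4]
    · rw [if_neg h4, mul_zero]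
      by_cases h5 : w (phL n m i) = a
      · rw [if_pos h5, if_neg (fun h6 => h4 (h3.1 ⟨h5, h6⟩)), mul_zero]
      · rw [if_neg h5]
  · refine ⟨0, v, fun f => ?_⟩
    funext w
    rw [Super.eop_apply, Super.tn_apply, zero_smul]
    split_ifs with h1 h2
    · exfalso
      apply hv
      rw [← h2, Function.comp_apply, Function.update_self]
    · rw [mul_zero]; rfl
    · rfl

/-- `e_v ⊗ f` for families -/
def tB (B : Type) (v : Fin n → Lt k l) :
    (B → W k l (Fin m)) →ₗ[ℚ] (B → W k l (Fin (n + m))) := (tn v).compLeft B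

theorem tB_apply {B : Type} (v : Fin n → Lt k l) (x : B → W k l (Fin m)) (b : B) :
    tB B v x b = tn v (x b) := rfl

end fam

/-! ### the relations -/

namespace CB

variable {Λ : Type} [CommRing Λ] {j : Λ →+* ℚ} {m : ℕ} {B : Type} [Fintype B] [DecidableEq B]

section basic

variable {ι : Type} [Fintype ι] [LinearOrder ι]

theorem aW_apply (Y : Matrix B B (MonoidAlgebra Λ (Perm ι))) (x : B → W k l ι) (b : B) :
    aW j k l Y x b = ∑ b', act k l ι (mj j _ (Y b b')) (x b') := rfl

theorem aW_zero {Y : Matrix B B (MonoidAlgebra Λ (Perm ι))} (h : aW j k l Y = 0) (b b' : B) :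
    act k l ι (mj j _ (Y b b')) = 0 := by
  refine LinearMap.ext fun f => ?_
  have h1 := congrFun (LinearMap.congr_fun h (Pi.single b' f)) b
  rw [aW_apply, Finset.sum_eq_single b'] at h1
  · rw [Pi.single_eq_same] at h1
    exact h1
  · intro c _ hc
    rw [Pi.single_eq_of_ne hc, map_zero]
  · intro h; exact absurd (mem_univ _) h

theorem aW_of_zero {Y : Matrix B B (MonoidAlgebra Λ (Perm ι))}
    (h : ∀ b b', act k l ι (mj j _ (Y b b')) = 0) : aW j k l Y = 0 := by
  refine LinearMap.ext fun x => funext fun b => ?_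
  rw [aW_apply]
  exact Finset.sum_eq_zero fun b' _ => by rw [h]; rfl

theorem mj_single (c : Λ) (g : Perm ι) :
    mj j _ (MonoidAlgebra.single g c) = MonoidAlgebra.single g (j c) := by
  ext h
  simp [mj]

theorem aW_cst (r : Matrix B B Λ) (x : B → W k l ι) (b : B) :
    aW j k l (cst Λ _ r) x b = ∑ b', j (r b b') • x b' := by
  rw [aW_apply]
  refine Finset.sum_congr rfl fun b' _ => ?_
  have h1 : (cst Λ (Perm ι) r) b b' = MonoidAlgebra.single 1 (r b b') := rfl
  rw [h1, mj_single, Super.act_single, map_one]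
  rfl

end basic

variable (L : CB j k l m B) {n : ℕ}

/-- `1 ⊗ T` -/
noncomputable def TT (n : ℕ) : Matrix B B (MonoidAlgebra Λ (Perm (Fin (n + m)))) :=
  plM Λ (phR n m) L.T

/-- delta on the strand `i` -/
noncomputable def lm (n : ℕ) (i : Fin n) : Matrix B B (MonoidAlgebra Λ (Perm (Fin (n + m)))) :=
  plM Λ (phi n m i) L.lam

/-- delta on the strand `i`, from the right -/
noncomputable def lm' (n : ℕ) (i : Fin n) : Matrix B B (MonoidAlgebra Λ (Perm (Fin (n + m)))) :=
  plM Λ (phi n m i) L.lam'

/-- the square root of two -/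
noncomputable def rr (n : ℕ) : Matrix B B (MonoidAlgebra Λ (Perm (Fin (n + m)))) :=
  cst Λ _ L.r

/-- a permutation of the strands -/
noncomputable def sS (Λ : Type) [CommRing Λ] (B : Type) [Fintype B] [DecidableEq B] (n m : ℕ)
    (σ : Perm (Fin n)) : Matrix B B (MonoidAlgebra Λ (Perm (Fin (n + m)))) :=
  Matrix.scalar B (MonoidAlgebra.of Λ _ (ext (phL n m) σ))

/-- the plain flip -/
noncomputable def fl (σ : Perm (Fin n)) : Matrix B B (MonoidAlgebra Λ (Perm (Fin (n + m)))) :=
  sS Λ B n m σ * sgO (L.lm n) σ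

theorem plM_cst {κ ι : Type} [Fintype κ] [LinearOrder κ] [Fintype ι] [LinearOrder ι]
    (φ : κ ↪o ι) (r : Matrix B B Λ) : plM Λ φ (cst Λ _ r) = cst Λ _ r := by
  refine Matrix.ext fun b b' => ?_
  have h1 : plM Λ φ (cst Λ (Perm κ) r) b b' = plL Λ φ (MonoidAlgebra.single 1 (r b b')) := rfl
  have h2 : (cst Λ (Perm ι) r) b b' = MonoidAlgebra.single 1 (r b b') := rfl
  rw [h1, h2]
  unfold plL
  simp

theorem rr_lm (i : Fin n) : L.rr n * L.lm n i = L.lm n i * L.rr n := by
  unfold rr lm
  rw [← plM_cst (phi n m i) L.r, ← map_mul, ← map_mul, L.rlam]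

theorem rr_TT : L.rr n * L.TT n = L.TT n * L.rr n := by
  unfold rr TT
  rw [← plM_cst (phR n m) L.r, ← map_mul, ← map_mul, L.rT]

theorem rr_sq : L.rr n * L.rr n = 2 := by
  unfold rr
  rw [← map_mul, L.r_sq, map_ofNat]

theorem sS_apply (σ : Perm (Fin n)) (b b' : B) : sS Λ B n m σ b b'
    = if b = b' then MonoidAlgebra.of Λ _ (ext (phL n m) σ) else 0 := by
  unfold sS
  rw [Matrix.scalar_apply, Matrix.diagonal_apply]

theorem sS_mul (σ : Perm (Fin n)) (Y : Matrix B B (MonoidAlgebra Λ (Perm (Fin (n + m)))))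
    (b b' : B) : (sS Λ B n m σ * Y) b b' = MonoidAlgebra.of Λ _ (ext (phL n m) σ) * Y b b' := by
  unfold sS
  rw [Matrix.scalar_apply, Matrix.diagonal_mul]

theorem mul_sS (σ : Perm (Fin n)) (Y : Matrix B B (MonoidAlgebra Λ (Perm (Fin (n + m)))))
    (b b' : B) : (Y * sS Λ B n m σ) b b' = Y b b' * MonoidAlgebra.of Λ _ (ext (phL n m) σ) := by
  unfold sS
  rw [Matrix.scalar_apply, Matrix.mul_diagonal]

theorem sS_hom (σ τ : Perm (Fin n)) : sS Λ B n m (σ * τ) = sS Λ B n m σ * sS Λ B n m τ := by
  unfold sS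
  rw [← map_mul, map_mul (ext (phL n m)), map_mul (MonoidAlgebra.of Λ _)]

theorem sS_one : sS Λ B n m (1 : Perm (Fin n)) = 1 := by
  unfold sS
  rw [map_one, map_one, map_one]

theorem sS_plM {κ : Type} [Fintype κ] [LinearOrder κ] (φ φ' : κ ↪o Fin (n + m))
    (σ : Perm (Fin n)) (hT : ∀ a, ext (phL n m) σ (φ a) = φ' a)
    (Y : Matrix B B (MonoidAlgebra Λ (Perm κ))) :
    sS Λ B n m σ * plM Λ φ Y = plM Λ φ' Y * sS Λ B n m σ := by
  refine Matrix.ext fun b b' => ?_
  rw [sS_mul, mul_sS]
  change _ * plL Λ φ (Y b b') = plL Λ φ' (Y b b') * _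
  rw [Super.plL_conj φ φ' (ext (phL n m) σ) hT, mul_assoc, mul_assoc,
    ← map_mul (MonoidAlgebra.of Λ _), inv_mul_cancel, map_one, mul_one]

theorem sS_lm (σ : Perm (Fin n)) (i : Fin n) :
    sS Λ B n m σ * L.lm n i = L.lm n (σ i) * sS Λ B n m σ := by
  refine sS_plM (phi n m i) (phi n m (σ i)) σ ?_ L.lam
  intro a
  rcases Fin.eq_zero_or_eq_succ a with rfl | ⟨a, rfl⟩
  · exact Super.ext_apply (phL n m) σ i
  · exact Super.ext_apply' _ _ _ (Super.phL_notMem a)

theorem sS_TT (σ : Perm (Fin n)) : sS Λ B n m σ * L.TT n = L.TT n * sS Λ B n m σ :=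
  sS_plM (phR n m) (phR n m) σ
    (fun a => Super.ext_apply' _ _ _ (Super.phL_notMem a)) L.T

theorem sS_rr (σ : Perm (Fin n)) : sS Λ B n m σ * L.rr n = L.rr n * sS Λ B n m σ := by
  refine Matrix.ext fun b b' => ?_
  rw [sS_mul, mul_sS]
  have h : (L.rr n) b b' = algebraMap Λ _ (L.r b b') := rfl
  rw [h, Algebra.commutes]

/-! #### values on the elementary tensors -/

theorem aW_rr (v : Fin n → Lt k l) (x : B → W k l (Fin m)) :
    aW j k l (L.rr n) (tB B v x) = tB B v (aW j k l (cst Λ _ L.r) x) := by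
  funext b
  unfold rr
  rw [aW_cst, tB_apply, aW_cst, map_sum]
  exact Finset.sum_congr rfl fun b' _ => by rw [map_smul]; rfl

theorem aW_TT (v : Fin n → Lt k l) (x : B → W k l (Fin m)) :
    aW j k l (L.TT n) (tB B v x) = tB B v (aW j k l L.T x) := by
  funext b
  rw [aW_apply, tB_apply, aW_apply, map_sum]
  refine Finset.sum_congr rfl fun b' _ => ?_
  have h1 : L.TT n b b' = plL Λ (phR n m) (L.T b b') := rfl
  rw [h1, Super.mj_plL, tB_apply, Super.act_pl_tn]

theorem aW_lm {x : B → W k l (Fin m)} (hx : x ∈ L.Xi) (i : Fin n) (v : Fin n → Lt k l) :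
    aW j k l (L.lm n i) (tB B v x)
      = (if odd (v i) then (1 : ℚ) else 0) • aW j k l (L.rr n) (tB B v x) := by
  funext b
  rw [aW_rr, aW_apply, Pi.smul_apply, tB_apply]
  have h1 : ∀ b', act k l _ (mj j _ (L.lm n i b b')) (tB B v x b')
      = act k l _ (pl (phi n m i) (mj j _ (L.lam b b'))) (tn v (x b')) := by
    intro b'
    have h2 : L.lm n i b b' = plL Λ (phi n m i) (L.lam b b') := rfl
    rw [h2, Super.mj_plL]
    rfl
  rw [Finset.sum_congr rfl fun b' _ => h1 b']
  refine act_phi_sum (e := fun c => if odd c then (1 : ℚ) else 0) (fun c => ?_) i v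
  have h3 := congrFun (L.hlam x hx c) b
  rw [aW_apply, Pi.smul_apply, aW_cst] at h3
  rw [h3, aW_cst]
  congr 1
  funext w
  unfold ins
  simp only [Finset.sum_apply, Pi.smul_apply, smul_eq_mul]
  split_ifs
  · rfl
  · simp

theorem aW_sS (σ : Perm (Fin n)) (v : Fin n → Lt k l) (x : B → W k l (Fin m)) :
    aW j k l (sS Λ B n m σ) (tB B v x) = eps σ (pv v) • tB B (v ∘ ⇑σ⁻¹) x := by
  funext b
  rw [aW_apply, Finset.sum_eq_single b]
  · rw [sS_apply, if_pos rfl, Super.mj_of, Super.act_of, tB_apply, Super.rho_tn]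
    rfl
  · intro b' _ hb
    rw [sS_apply, if_neg hb.symm, map_zero, map_zero]
    rfl
  · intro h; exact absurd (mem_univ _) h

/-- THE PRINCIPLE for families -/
theorem ker_of (Y : Matrix B B (MonoidAlgebra Λ (Perm (Fin (n + m)))))
    (hY : ∀ x ∈ L.Xi, ∀ v : Fin n → Lt k l, aW j k l Y (tB B v x) = 0) :
    aW j k l (Y * L.TT n) = 0 := by
  have key : ∀ g ∈ UB L.Xi, ∀ v : Fin n → Lt k l, aW j k l Y (tB B v g) = 0 := by
    let N : Submodule ℚ (B → W k l (Fin m)) :=
      { carrier := {f | ∀ v : Fin n → Lt k l, aW j k l Y (tB B v f) = 0}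
        add_mem' := fun {a b} ha hb v => by rw [map_add, map_add, ha, hb, add_zero]
        zero_mem' := fun v => by rw [map_zero, map_zero]
        smul_mem' := fun c a ha v => by rw [map_smul, map_smul, ha, smul_zero] }
    have hN : UB L.Xi ≤ N := by
      refine Super.gen_le (Submodule.span_le.2 hY) ?_
      rintro F ⟨a, b, rfl⟩ f hf v
      -- the operators commute with the matrices
      have hc : ∀ g : B → W k l (Fin (n + m)),
          aW j k l Y ((EE a b : Module.End ℚ (W k l (Fin (n + m)))).compLeft B g)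
            = (EE a b : Module.End ℚ (W k l (Fin (n + m)))).compLeft B (aW j k l Y g) := by
        intro g
        funext c
        rw [aW_apply]
        change _ = EE a b (aW j k l Y g c)
        rw [aW_apply, map_sum]
        refine Finset.sum_congr rfl fun b' _ => ?_
        have h2 := LinearMap.congr_fun (Super.act_EE (mj j _ (Y c b')) a b) (g b')
        simp only [Module.End.mul_apply] at h2
        exact h2
      choose c v' hcv using fun i : Fin n => eop_tnLu (m := m) a b i v
      have h1 : (EE a b : Module.End ℚ (W k l (Fin (n + m)))).compLeft B (tB B v f)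
          = ∑ i, c i • tB B (v' i) f + (∏ i, Super.eta a b (v i)) •
            tB B v ((EE a b : Module.End ℚ (W k l (Fin m))).compLeft B f) := by
        funext b'
        change EE a b (tn v (f b')) = _
        rw [Super.EE_tn, Pi.add_apply, Finset.sum_apply]
        congr 1
        exact Finset.sum_congr rfl fun i _ => hcv i (f b')
      have h2 := congrArg (aW j k l Y) h1
      rw [hc, hf v, map_zero, map_add, map_sum, map_smul] at h2
      have h3 : ∑ i, aW j k l Y (c i • tB B (v' i) f) = 0 :=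
        Finset.sum_eq_zero fun i _ => by rw [map_smul, hf (v' i), smul_zero]
      rw [h3, zero_add] at h2
      have h4 : (∏ i, Super.eta a b (v i)) * (∏ i, Super.eta a b (v i)) = (1 : ℚ) := by
        rw [← Finset.prod_mul_distrib]
        exact Finset.prod_eq_one (fun i _ => Super.eta_sq _ _ _)
      have h5 := congrArg (fun x => (∏ i, Super.eta a b (v i)) • x) h2
      simp only [smul_smul, h4, one_smul, smul_zero] at h5
      exact h5.symm
    intro g hg
    exact hN hg
  refine LinearMap.ext fun g => ?_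
  rw [map_mul, Module.End.mul_apply, LinearMap.zero_apply]
  have hg : g = ∑ v : Fin n → Lt k l, tB B v (fun b u => g b (Fin.append v u)) := by
    funext b
    rw [Finset.sum_apply]
    exact Super.sum_tn (g b)
  rw [hg, map_sum, map_sum]
  refine Finset.sum_eq_zero fun v _ => ?_
  rw [aW_TT]
  exact key _ (L.hT _) v

/-! #### the relations modulo `1 ⊗ T` -/

theorem rel (Y Z : Matrix B B (MonoidAlgebra Λ (Perm (Fin (n + m)))))
    (h : ∀ x ∈ L.Xi, ∀ v : Fin n → Lt k l, aW j k l Y (tB B v x) = aW j k l Z (tB B v x)) :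
    aW j k l (Y * L.TT n - Z * L.TT n) = 0 := by
  rw [← sub_mul]
  refine L.ker_of _ fun x hx v => ?_
  rw [map_sub, LinearMap.sub_apply, h x hx v, sub_self]

theorem lm_lm {x : B → W k l (Fin m)} (hx : x ∈ L.Xi) (i i' : Fin n) (v : Fin n → Lt k l) :
    aW j k l (L.lm n i * L.lm n i') (tB B v x)
      = (if odd (v i) ∧ odd (v i') then (2 : ℚ) else 0) • tB B v x := by
  have h2 : ∀ y : B → W k l (Fin (n + m)),
      aW j k l (L.rr n) (aW j k l (L.rr n) y) = (2 : ℚ) • y := by
    intro y
    rw [← Module.End.mul_apply, ← map_mul, L.rr_sq, map_ofNat]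
    change (OfNat.ofNat 2 : Module.End ℚ (B → W k l (Fin (n + m)))) y = _
    rw [← one_add_one_eq_two, LinearMap.add_apply, Module.End.one_apply, ← one_add_one_eq_two,
      add_smul, one_smul]
  rw [map_mul, Module.End.mul_apply, L.aW_lm hx, map_smul, ← Module.End.mul_apply, ← map_mul,
    ← L.rr_lm, map_mul, Module.End.mul_apply, L.aW_lm hx, map_smul, h2, smul_smul, smul_smul]
  congr 1
  by_cases h3 : odd (v i) = true <;> by_cases h4 : odd (v i') = true <;> simp [h3, h4]

theorem rel_sq (i : Fin n) :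
    aW j k l (L.lm n i * L.lm n i * L.TT n - L.rr n * L.lm n i * L.TT n) = 0 := by
  refine L.rel _ _ fun x hx v => ?_
  have h2 : ∀ y : B → W k l (Fin (n + m)),
      aW j k l (L.rr n) (aW j k l (L.rr n) y) = (2 : ℚ) • y := by
    intro y
    rw [← Module.End.mul_apply, ← map_mul, L.rr_sq, map_ofNat]
    change (OfNat.ofNat 2 : Module.End ℚ (B → W k l (Fin (n + m)))) y = _
    rw [← one_add_one_eq_two, LinearMap.add_apply, Module.End.one_apply, ← one_add_one_eq_two,
      add_smul, one_smul]
  rw [L.lm_lm hx, map_mul, Module.End.mul_apply, L.aW_lm hx, map_smul, h2, smul_smul]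
  congr 1
  by_cases h3 : odd (v i) = true <;> simp [h3]

theorem rel_comm (i i' : Fin n) :
    aW j k l (L.lm n i * L.lm n i' * L.TT n - L.lm n i' * L.lm n i * L.TT n) = 0 := by
  refine L.rel _ _ fun x hx v => ?_
  rw [L.lm_lm hx, L.lm_lm hx]
  congr 1
  by_cases h3 : odd (v i) = true <;> by_cases h4 : odd (v i') = true <;> simp [h3, h4]

theorem aW_sg {x : B → W k l (Fin m)} (hx : x ∈ L.Xi) (σ : Perm (Fin n)) (v : Fin n → Lt k l) :
    aW j k l (sgO (L.lm n) σ) (tB B v x) = eps σ (pv v) • tB B v x := by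
  have h1 : ∀ K : List (Fin n × Fin n), aW j k l ((K.map (fun q => if σ q.2 < σ q.1 then
      1 - L.lm n q.1 * L.lm n q.2 else 1)).prod) (tB B v x)
      = ((K.map (fun q => if σ q.2 < σ q.1 then (if pv v q.1 && pv v q.2 then (-1 : ℚ) else 1)
        else 1)).prod) • tB B v x := by
    intro K
    induction K with
    | nil =>
      rw [List.map_nil, List.map_nil, List.prod_nil, List.prod_nil, map_one, one_smul]
      rfl
    | cons q K ih =>
      rw [List.map_cons, List.prod_cons, List.map_cons, List.prod_cons, map_mul,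
        Module.End.mul_apply, ih, map_smul, mul_comm, mul_smul]
      congr 1
      by_cases hq : σ q.2 < σ q.1
      · rw [if_pos hq, if_pos hq, map_sub, map_one, LinearMap.sub_apply, L.lm_lm hx,
          Module.End.one_apply]
        nth_rewrite 1 [← one_smul ℚ (tB B v x)]
        rw [← sub_smul]
        congr 1
        unfold pv
        by_cases h3 : odd (v q.1) = true <;> by_cases h4 : odd (v q.2) = true <;>
          simp [h3, h4]
        norm_num
      · rw [if_neg hq, if_neg hq, map_one, one_smul]; rfl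
  unfold sgO
  rw [h1, Finset.prod_map_toList]
  congr 1
  unfold eps
  refine Finset.prod_congr rfl (fun q hq => ?_)
  rw [mem_prs] at hq
  unfold Super.H
  by_cases h2 : σ q.2 < σ q.1
  · have h3 : ¬ σ q.1 < σ q.2 := not_lt.2 h2.le
    simp [h2, h3, hq]
  · have h3 : σ q.1 < σ q.2 := lt_of_le_of_ne (not_lt.1 h2) (fun e => hq.ne (σ.injective e))
    simp [h2, h3, hq]

theorem aW_fl {x : B → W k l (Fin m)} (hx : x ∈ L.Xi) (σ : Perm (Fin n)) (v : Fin n → Lt k l) :
    aW j k l (L.fl σ) (tB B v x) = tB B (v ∘ ⇑σ⁻¹) x := by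
  unfold fl
  rw [map_mul, Module.End.mul_apply, L.aW_sg hx, map_smul, aW_sS, smul_smul, Super.eps_sq,
    one_smul]

theorem rel_fl (σ τ : Perm (Fin n)) :
    aW j k l (L.fl σ * L.fl τ * L.TT n - L.fl (σ * τ) * L.TT n) = 0 := by
  refine L.rel _ _ fun x hx v => ?_
  rw [map_mul, Module.End.mul_apply, L.aW_fl hx, L.aW_fl hx, L.aW_fl hx]
  congr 1

theorem fl_one : L.fl (1 : Perm (Fin n)) = 1 := by
  unfold fl sgO
  rw [sS_one, one_mul]
  refine List.prod_eq_one fun x hx => ?_
  rw [List.mem_map] at hx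
  obtain ⟨q, hq, rfl⟩ := hx
  rw [Finset.mem_toList, mem_prs] at hq
  rw [if_neg]
  exact not_lt.2 hq.le

theorem rel_anti (T : Finset (Fin n)) (hT : k + l < T.card) :
    aW j k l ((∑ σ ∈ permsOn T, ((Perm.sign σ : ℤˣ) : ℤ) • L.fl σ) * L.TT n) = 0 := by
  classical
  refine L.ker_of _ (fun x hx v => ?_)
  rw [map_sum, LinearMap.sum_apply]
  have h0 : ∀ σ : Perm (Fin n), aW j k l (((Perm.sign σ : ℤˣ) : ℤ) • L.fl σ) (tB B v x)
      = ((Perm.sign σ : ℤˣ) : ℤ) • tB B (v ∘ ⇑σ⁻¹) x := by
    intro σ
    rw [map_zsmul, LinearMap.smul_apply, L.aW_fl hx]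
  rw [Finset.sum_congr rfl fun σ _ => h0 σ]
  -- two positions with the same letter
  have hcard : (univ : Finset (Lt k l)).card < T.card := by
    rw [Finset.card_univ, Fintype.card_sum, Fintype.card_fin, Fintype.card_fin]; exact hT
  obtain ⟨i, hi, i', hi', hij, hv⟩ := Finset.exists_ne_map_eq_of_card_lt_of_maps_to hcard
    (fun i _ => Finset.mem_univ (v i))
  refine Finset.sum_involution (fun σ _ => σ * swap i i') ?_ ?_ ?_ ?_
  · intro σ _
    rw [Perm.sign_mul, Perm.sign_swap hij]
    have h1 : v ∘ ⇑(σ * swap i i')⁻¹ = v ∘ ⇑σ⁻¹ := by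
      funext x
      rw [mul_inv_rev, swap_inv]
      simp only [Function.comp_apply, Perm.mul_apply]
      by_cases h2 : σ⁻¹ x = i
      · rw [h2, swap_apply_left, hv]
      · by_cases h3 : σ⁻¹ x = i'
        · rw [h3, swap_apply_right, hv]
        · rw [swap_apply_of_ne_of_ne h2 h3]
    rw [h1, ← add_smul]
    simp
  · intro σ _ _ h
    have : swap i i' = 1 := by
      have := congrArg (fun x => σ⁻¹ * x) h
      simpa using this
    exact hij (swap_eq_one_iff.1 this)
  · intro σ hσ
    simp only [permsOn, Finset.mem_filter] at *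
    refine ⟨Finset.mem_univ _, fun x hx => ?_⟩
    rw [Perm.mul_apply, swap_apply_of_ne_of_ne, hσ.2 x hx]
    · rintro rfl; exact hx hi
    · rintro rfl; exact hx hi'
  · intro σ _
    rw [mul_assoc, swap_mul_self, mul_one]

/-- an element of `K(k|l)` placed on a strand and the catalyst -/
theorem pl_zero {Y : Matrix B B (MonoidAlgebra Λ (Perm (Fin (m + 1))))}
    (hY : aW j k l Y = 0) (i : Fin n) : aW j k l (plM Λ (phi n m i) Y) = 0 := by
  have hn : 0 < n := by have := i.2; omega
  let i0 : Fin n := ⟨n - 1, by omega⟩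
  have hi0 : i0.val + 1 = n := by change n - 1 + 1 = n; omega
  have h1 : aW j k l (plM Λ (phi n m i0) Y) = 0 := by
    refine aW_of_zero fun b b' => ?_
    change act k l _ (mj j _ (plL Λ (phi n m i0) (Y b b'))) = 0
    rw [Super.mj_plL]
    refine LinearMap.ext fun f => funext fun w => ?_
    rw [Super.act_pl (Super.conv_phi i0 hi0), aW_zero hY]
    rfl
  have h2 := sS_plM (B := B) (phi n m i0) (phi n m i) (swap i i0) (fun a => by
    rcases Fin.eq_zero_or_eq_succ a with rfl | ⟨a, rfl⟩
    · have h3 : phi n m i0 0 = phL n m i0 := rfl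
      have h4 : phi n m i 0 = phL n m i := rfl
      rw [h3, h4, Super.ext_apply, swap_apply_right]
    · rw [Super.phi_succ, Super.phi_succ]
      exact Super.ext_apply' _ _ _ (Super.phL_notMem a)) Y
  have h3 : plM Λ (phi n m i) Y
      = sS Λ B n m (swap i i0) * plM Λ (phi n m i0) Y * sS Λ B n m (swap i i0) := by
    rw [h2, mul_assoc, ← sS_hom, swap_mul_self, sS_one, mul_one]
  rw [h3, map_mul, map_mul, h1, mul_zero, zero_mul]

theorem plM_sh (i : Fin n) (Y : Matrix B B (MonoidAlgebra Λ (Perm (Fin m)))) :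
    plM Λ (phi n m i) (plM Λ (Fin.succOrderEmb m) Y) = plM Λ (phR n m) Y := by
  refine Matrix.ext fun b b' => ?_
  change plL Λ (phi n m i) (plL Λ (Fin.succOrderEmb m) (Y b b')) = plL Λ (phR n m) (Y b b')
  rw [Super.plL_trans _ _ (fun σ => Super.ext_trans _ _ σ)]
  congr 1

theorem rel_lm' (i : Fin n) :
    aW j k l (L.lm n i * L.TT n - L.TT n * L.lm' n i) = 0 := by
  unfold lm lm' TT
  rw [← plM_sh i, ← map_mul, ← map_mul, ← map_sub]
  apply pl_zero
  rw [map_sub, L.hlam', sub_self]

end CB

end Pool.PI34.XX
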