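import Pool.Agent.LibPI34.X_R3

/-!
PI34, the prime `p = 2`, ring side, file R4: the naive exotic system of a ring of type `(k|l)`.
-/

set_option autoImplicit false
set_option linter.unusedSectionVars false
set_option linter.unusedSimpArgs false

namespace Pool.PI34.XX

open Equiv Finset
open Pool.PI34.Super (W Lt odd act mj tn ins EE gen plL phL phR phi pl sl ext eop EB prs mem_prs
  eps pv VL rhoL sL aL rhoH TypeKL)
open Pool.PI34.BA (anti permsOn Anti)

/-! ### restrictions -/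

section restr

variable {Λ M : Type} [CommRing Λ] [AddCommGroup M] [Module Λ M]

/-- the operators which preserve `J` and commute with `q` -/
def PS (J : Submodule Λ M) (q : Module.End Λ M) : Subring (Module.End Λ M) where
  carrier := {X | (∀ x ∈ J, X x ∈ J) ∧ X * q = q * X}
  mul_mem' {X Y} hX hY := ⟨fun x hx => hX.1 _ (hY.1 x hx), by
    rw [mul_assoc, hY.2, ← mul_assoc, hX.2, mul_assoc]⟩
  one_mem' := ⟨fun x hx => hx, by rw [one_mul, mul_one]⟩
  add_mem' {X Y} hX hY := ⟨fun x hx => J.add_mem (hX.1 x hx) (hY.1 x hx), by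
    rw [add_mul, mul_add, hX.2, hY.2]⟩
  zero_mem' := ⟨fun x _ => J.zero_mem, by rw [zero_mul, mul_zero]⟩
  neg_mem' {X} hX := ⟨fun x hx => J.neg_mem (hX.1 x hx), by
    rw [neg_mul, mul_neg, hX.2]⟩

variable (J : Submodule Λ M) (q : Module.End Λ M) (hq : ∀ x ∈ J, q x ∈ J)

/-- the endomorphisms of `J` which commute with `q` -/
abbrev UJ : Type := Subring.centralizer ({q.restrict hq} : Set (Module.End Λ J))

/-- the restriction -/
def resJ : PS J q →+* UJ J q hq where
  toFun X := ⟨X.1.restrict X.2.1, by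
    rw [Subring.mem_centralizer_iff]
    rintro _ rfl
    refine LinearMap.ext fun x => Subtype.ext ?_
    exact (LinearMap.congr_fun X.2.2 x.1).symm⟩
  map_one' := rfl
  map_mul' _ _ := rfl
  map_zero' := rfl
  map_add' _ _ := rfl

variable {J q}

theorem resJ_val (X : PS J q) (x : J) : (((resJ J q hq X).1 x : J) : M) = X.1 x.1 := rfl

theorem resJ_eq {X Y : PS J q} (h : ∀ x ∈ J, X.1 x = Y.1 x) :
    resJ J q hq X = resJ J q hq Y :=
  Subtype.ext (LinearMap.ext fun x => Subtype.ext (h x.1 x.2))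

theorem of_resJ_eq {X Y : PS J q} (h : resJ J q hq X = resJ J q hq Y) (x : M) (hx : x ∈ J) :
    X.1 x = Y.1 x := by
  have h1 := LinearMap.congr_fun (congrArg Subtype.val h) ⟨x, hx⟩
  exact congrArg Subtype.val h1

theorem inv_UJ {S : Set ℕ} (h : T2.Inv S Λ) : T2.Inv S (UJ J q hq) := by
  intro s hs
  obtain ⟨u, hu⟩ := h s hs
  let c : UJ J q hq := ⟨((u⁻¹ : Λˣ) : Λ) • (1 : Module.End Λ J), by
    rw [Subring.mem_centralizer_iff]
    rintro _ rfl
    rw [smul_one_mul, mul_smul_one]⟩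
  have h1 : ∀ x : J, (((s : ℕ) : UJ J q hq).1 : Module.End Λ J) x = ((s : ℕ) : Λ) • x := by
    intro x
    rw [Subring.coe_natCast, Module.End.natCast_apply, Nat.cast_smul_eq_nsmul]
  refine ⟨⟨(s : ℕ), c, ?_, ?_⟩, rfl⟩
  · apply Subtype.ext
    refine LinearMap.ext fun x => ?_
    change (((s : ℕ) : UJ J q hq).1 : Module.End Λ J) (((u⁻¹ : Λˣ) : Λ) • x) = x
    rw [h1, smul_smul, ← hu, Units.mul_inv, one_smul]
  · apply Subtype.ext
    refine LinearMap.ext fun x => ?_
    change ((u⁻¹ : Λˣ) : Λ) • ((((s : ℕ) : UJ J q hq).1 : Module.End Λ J) x) = x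
    rw [h1, smul_smul, ← hu, Units.inv_mul, one_smul]

end restr

/-! ### representations -/

theorem sgO_map {n : ℕ} {U V : Type} [Ring U] [Ring V] (φ : U →+* V) (d : Fin n → U)
    (σ : Perm (Fin n)) : φ (sgO d σ) = sgO (fun i => φ (d i)) σ := by
  unfold sgO
  rw [map_list_prod, List.map_map]
  congr 2
  funext q
  simp only [Function.comp_apply]
  split_ifs
  · rw [map_sub, map_one, map_mul]
  · rw [map_one]

namespace CB

variable {k l : ℕ} {Λ : Type} [CommRing Λ] {j : Λ →+* ℚ} {m : ℕ} {B : Type} [Fintype B]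
  [DecidableEq B]

/-- representations with letters -/
structure RB (L : CB j k l m B) (n : ℕ) (R M : Type) [AddCommGroup M] [Module Λ M] where
  a : Matrix B B (MonoidAlgebra Λ (Perm (Fin (n + m)))) →+* Module.End Λ M
  hK : ∀ Y, aW j k l Y = 0 → a Y = 0
  ρ : Fin n → R → Module.End Λ M
  ρ_comm : ∀ i i', i ≠ i' → ∀ x y, ρ i x * ρ i' y = ρ i' y * ρ i x
  ρ_T : ∀ i x, a (L.TT n) * ρ i x = ρ i x * a (L.TT n)
  ρ_rr : ∀ i x, a (L.rr n) * ρ i x = ρ i x * a (L.rr n)
  ρ_lm : ∀ i i', i ≠ i' → ∀ x, a (L.lm n i') * ρ i x = ρ i x * a (L.lm n i')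
  ρ_s : ∀ σ i x, a (sS Λ B n m σ) * ρ i x = ρ (σ i) x * a (sS Λ B n m σ)

namespace RB

variable {L : CB j k l m B} {n : ℕ} {R M : Type} [AddCommGroup M] [Module Λ M] (V : RB L n R M)

/-- the module -/
noncomputable def J : Submodule Λ M := LinearMap.range (V.a (L.TT n))

/-- the square root of two -/
noncomputable def q : Module.End Λ M := V.a (L.rr n)

theorem eq_on {X Y : Module.End Λ M} (h : X * V.a (L.TT n) = Y * V.a (L.TT n)) :
    ∀ x ∈ V.J, X x = Y x := by
  rintro _ ⟨y, rfl⟩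
  exact LinearMap.congr_fun h y

theorem of_eq_on {X Y : Module.End Λ M} (h : ∀ x ∈ V.J, X x = Y x) :
    X * V.a (L.TT n) = Y * V.a (L.TT n) :=
  LinearMap.ext fun y => h _ ⟨y, rfl⟩

theorem pres {X X' : Module.End Λ M} (h : X * V.a (L.TT n) = V.a (L.TT n) * X') :
    ∀ x ∈ V.J, X x ∈ V.J := by
  rintro _ ⟨y, rfl⟩
  exact ⟨X' y, (LinearMap.congr_fun h y).symm⟩

theorem rel {Y Z : Matrix B B (MonoidAlgebra Λ (Perm (Fin (n + m))))}
    (h : aW j k l (Y * L.TT n - Z * L.TT n) = 0) :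
    V.a Y * V.a (L.TT n) = V.a Z * V.a (L.TT n) := by
  have h1 := V.hK _ h
  rw [map_sub, sub_eq_zero, map_mul, map_mul] at h1
  exact h1

theorem q_mem : ∀ x ∈ V.J, V.q x ∈ V.J :=
  V.pres (X' := V.a (L.rr n)) (by
    change V.a (L.rr n) * V.a (L.TT n) = _
    rw [← map_mul, ← map_mul, L.rr_TT])

/-- the ring -/
abbrev UU : Type := UJ V.J V.q V.q_mem

/-- the preserving operators -/
noncomputable abbrev PP : Subring (Module.End Λ M) := PS V.J V.q

/-- the restriction -/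
noncomputable abbrev rs : V.PP →+* V.UU := resJ V.J V.q V.q_mem

/-- the square root of two -/
noncomputable def qP : V.PP := ⟨V.q, V.q_mem, rfl⟩

/-- the naive flips -/
noncomputable def sP (σ : Perm (Fin n)) : V.PP := ⟨V.a (sS Λ B n m σ),
  V.pres (X' := V.a (sS Λ B n m σ)) (by rw [← map_mul, ← map_mul, L.sS_TT]), by
    change _ * V.a (L.rr n) = V.a (L.rr n) * _
    rw [← map_mul, ← map_mul, L.sS_rr]⟩

/-- the letters -/
noncomputable def pP (i : Fin n) (x : R) : V.PP := ⟨V.ρ i x, V.pres (X' := V.ρ i x) (V.ρ_T i x).symm,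
  (V.ρ_rr i x).symm⟩

/-- delta -/
noncomputable def dP (i : Fin n) : V.PP := ⟨V.a (L.lm n i),
  V.pres (X' := V.a (L.lm' n i)) (by
    have h := V.hK _ (L.rel_lm' i)
    rw [map_sub, sub_eq_zero] at h
    rw [← map_mul, ← map_mul, h]), by
    change _ * V.a (L.rr n) = V.a (L.rr n) * _
    rw [← map_mul, ← map_mul, L.rr_lm]⟩

/-- the plain flips -/
noncomputable def fP (σ : Perm (Fin n)) : V.PP := V.sP σ * sgO V.dP σ

theorem fP_val (σ : Perm (Fin n)) : (V.fP σ).1 = V.a (L.fl σ) := by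
  have h1 := sgO_map V.PP.subtype V.dP σ
  have h2 := sgO_map V.a (L.lm n) σ
  unfold fP fl
  rw [map_mul, h2]
  change V.a (sS Λ B n m σ) * (sgO V.dP σ : V.PP).1 = _
  congr 1

theorem fP_mul (σ τ : Perm (Fin n)) : V.rs (V.fP (σ * τ)) = V.rs (V.fP σ) * V.rs (V.fP τ) := by
  rw [← map_mul]
  refine resJ_eq _ (V.eq_on ?_)
  have h1 := V.rel (L.rel_fl σ τ)
  rw [map_mul] at h1
  change (V.fP (σ * τ)).1 * _ = (V.fP σ).1 * (V.fP τ).1 * _
  rw [fP_val, fP_val, fP_val]
  exact h1.symm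

/-- THE NAIVE EXOTIC SYSTEM -/
noncomputable def nex {n : ℕ} (V : RB L (n + 1) R M) : NEx n R V.UU where
  r := V.rs V.qP
  rc x := by
    have h := Subring.mem_centralizer_iff.1 x.2 _ rfl
    exact Subtype.ext h
  r_sq := by
    rw [← map_mul, ← map_ofNat V.rs 2]
    congr 1
    apply Subtype.ext
    change V.a (L.rr (n + 1)) * V.a (L.rr (n + 1)) = _
    rw [← map_mul, L.rr_sq, map_ofNat]
    rfl
  d i := V.rs (V.dP i)
  d_sq i := by
    rw [← map_mul, ← map_mul]
    refine resJ_eq _ (V.eq_on ?_)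
    have h1 := V.rel (L.rel_sq i)
    simp only [map_mul] at h1
    exact h1
  dc i i' := by
    rw [← map_mul, ← map_mul]
    refine resJ_eq _ (V.eq_on ?_)
    have h1 := V.rel (L.rel_comm i i')
    simp only [map_mul] at h1
    exact h1
  s :=
    { toFun := fun σ => V.rs (V.sP σ)
      map_one' := by
        rw [← map_one V.rs]
        congr 1
        apply Subtype.ext
        change V.a (sS Λ B (n + 1) m 1) = 1
        rw [sS_one, map_one]
      map_mul' := fun σ τ => by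
        rw [← map_mul]
        congr 1
        apply Subtype.ext
        change V.a (sS Λ B (n + 1) m (σ * τ))
          = V.a (sS Λ B (n + 1) m σ) * V.a (sS Λ B (n + 1) m τ)
        rw [sS_hom, map_mul] }
  sd σ i := by
    change V.rs (V.sP σ) * V.rs (V.dP i) = V.rs (V.dP (σ i)) * V.rs (V.sP σ)
    rw [← map_mul, ← map_mul]
    congr 1
    apply Subtype.ext
    change V.a (sS Λ B (n + 1) m σ) * V.a (L.lm (n + 1) i)
      = V.a (L.lm (n + 1) (σ i)) * V.a (sS Λ B (n + 1) m σ)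
    rw [← map_mul, ← map_mul, L.sS_lm]
  p i a := V.rs (V.pP i a)
  sp σ i a := by
    change V.rs (V.sP σ) * V.rs (V.pP i a) = V.rs (V.pP (σ i) a) * V.rs (V.sP σ)
    rw [← map_mul, ← map_mul]
    congr 1
    apply Subtype.ext
    exact V.ρ_s σ i a
  pp i i' h a b := by
    rw [← map_mul, ← map_mul]
    congr 1
    apply Subtype.ext
    exact V.ρ_comm i i' h a b
  pd i i' h a := by
    rw [← map_mul, ← map_mul]
    congr 1
    apply Subtype.ext
    exact (V.ρ_lm i i' h a).symm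
  f :=
    { toFun := fun σ => V.rs (V.fP σ)
      map_one' := by
        rw [← map_one V.rs]
        congr 1
        apply Subtype.ext
        rw [fP_val, fl_one, map_one]
        rfl
      map_mul' := fun σ τ => V.fP_mul σ τ }
  f_eq σ := by
    change V.rs (V.sP σ * sgO V.dP σ) = V.rs (V.sP σ) * sgO (fun i => V.rs (V.dP i)) σ
    rw [map_mul]
    exact congrArg (fun t => V.rs (V.sP σ) * t) (sgO_map V.rs V.dP σ)

theorem nex_f {n : ℕ} (V : RB L (n + 1) R M) (σ : Perm (Fin (n + 1))) :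
    V.nex.f σ = V.rs (V.fP σ) := rfl

theorem nex_p {n : ℕ} (V : RB L (n + 1) R M) (i : Fin (n + 1)) (a : R) :
    V.nex.p i a = V.rs (V.pP i a) := rfl

theorem nex_anti {n : ℕ} (V : RB L (n + 1) R M) : Anti V.nex.f (k + l) := by
  intro T hc
  unfold anti
  have h0 : ∀ σ : Perm (Fin (n + 1)), ((Perm.sign σ : ℤˣ) : ℤ) • V.nex.f σ
      = V.rs (((Perm.sign σ : ℤˣ) : ℤ) • V.fP σ) := by
    intro σ
    rw [map_zsmul]
    rfl
  rw [Finset.sum_congr rfl fun σ _ => h0 σ, ← map_sum, ← map_zero V.rs]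
  refine resJ_eq _ (V.eq_on ?_)
  have h1 := V.hK _ (L.rel_anti T (by omega))
  rw [map_mul, map_sum] at h1
  change (∑ σ ∈ permsOn T, ((Perm.sign σ : ℤˣ) : ℤ) • V.fP σ : V.PP).1 * _
    = (0 : V.PP).1 * _
  have h2 : (∑ σ ∈ permsOn T, ((Perm.sign σ : ℤˣ) : ℤ) • V.fP σ : V.PP).1
      = ∑ σ ∈ permsOn T, V.a (((Perm.sign σ : ℤˣ) : ℤ) • L.fl σ) := by
    have h3 : ∀ x : V.PP, x.1 = V.PP.subtype x := fun _ => rfl
    rw [h3, map_sum]
    refine Finset.sum_congr rfl fun σ _ => ?_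
    rw [map_zsmul, map_zsmul, ← h3, V.fP_val]
  rw [h2, h1]
  change (0 : Module.End Λ M) = 0 * _
  rw [zero_mul]

end RB

end CB

end Pool.PI34.XX
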