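import Pool.Agent.LibPI34.X_R4

/-!
PI34, the prime `p = 2`, ring side, file R5: the representation of a ring of type `(k|l)`.
-/

set_option autoImplicit false
set_option linter.unusedSectionVars false
set_option linter.unusedSimpArgs false

namespace Pool.PI34.XX

open Equiv Finset
open Pool.PI34.Super (W Lt odd act mj tn ins EE gen plL phL phR phi pl sl ext eop EB prs mem_prs
  eps pv VL rhoL sL aL rhoH TypeKL)
open Pool.PI34.BA (anti permsOn Anti)

namespace CB

variable {k l : ℕ} {Λ : Type} [CommRing Λ] {j : Λ →+* ℚ} {m : ℕ} {B : Type} [Fintype B]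
  [DecidableEq B] {R : Type} [Ring R] [Algebra Λ R]

/-- the action of the matrices -/
noncomputable def aR (Λ : Type) [CommRing Λ] (B : Type) [Fintype B] [DecidableEq B]
    (R : Type) [Ring R] [Algebra Λ R] (N : ℕ) :
    Matrix B B (MonoidAlgebra Λ (Perm (Fin N))) →+* Module.End Λ (B → VL Λ R N) :=
  mE (aL Λ R N).toRingHom

theorem aR_apply {N : ℕ} (Y : Matrix B B (MonoidAlgebra Λ (Perm (Fin N)))) (x : B → VL Λ R N)
    (b : B) : aR Λ B R N Y x b = ∑ b', aL Λ R N (Y b b') (x b') := rfl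

theorem aR_zero {N : ℕ} (hT : TypeKL j k l N R)
    {Y : Matrix B B (MonoidAlgebra Λ (Perm (Fin N)))} (hY : aW j k l Y = 0) :
    aR Λ B R N Y = 0 := by
  refine LinearMap.ext fun x => funext fun b => ?_
  rw [aR_apply]
  exact Finset.sum_eq_zero fun b' _ => by rw [Super.aL_zero hT _ (aW_zero hY b b')]; rfl

/-- the letters -/
def rB (Λ : Type) [CommRing Λ] (B : Type) {R : Type} [Ring R] [Algebra Λ R] {N : ℕ} (i : Fin N)
    (a : R) : Module.End Λ (B → VL Λ R N) := (rhoL (Λ := Λ) i a).compLeft B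

theorem rB_apply {N : ℕ} (i : Fin N) (a : R) (x : B → VL Λ R N) (b : B) :
    rB Λ B i a x b = rhoL i a (x b) := rfl

theorem rho_comm {N : ℕ} (i i' : Fin N) (h : i ≠ i') (x y : R) :
    (rhoL (Λ := Λ) i x) * rhoL i' y = rhoL i' y * rhoL i x := by
  refine Super.endL_ext fun F r => ?_
  change F.1 (Function.update (Function.update r i (r i * x)) i'
      (Function.update r i (r i * x) i' * y)) =
    F.1 (Function.update (Function.update r i' (r i' * y)) i
      (Function.update r i' (r i' * y) i * x))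
  rw [Function.update_of_ne h.symm, Function.update_of_ne h, Function.update_comm h]

theorem rho_conj {N : ℕ} (g : Perm (Fin N)) (i : Fin N) (x : R) :
    aL Λ R N (MonoidAlgebra.of Λ _ g) * rhoL i x
      = rhoL (g i) x * aL Λ R N (MonoidAlgebra.of Λ _ g) := by
  rw [Super.aL_of]
  refine Super.endL_ext fun F r => ?_
  change F.1 (Function.update (r ∘ g) i ((r ∘ g) i * x)) =
    F.1 (Function.update r (g i) (r (g i) * x) ∘ g)
  have h0 : Function.update (r ∘ g) i ((r ∘ g) i * x) =
      Function.update r (g i) (r (g i) * x) ∘ g := by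
    funext l
    by_cases hl : l = i
    · subst hl
      simp
    · have h1 : g l ≠ g i := fun h2 => hl (g.injective h2)
      rw [Function.update_of_ne hl, Function.comp_apply, Function.comp_apply,
        Function.update_of_ne h1]
  rw [h0]

theorem rho_placed {N : ℕ} {κ : Type} [Fintype κ] [LinearOrder κ] (φ : κ ↪o Fin N)
    (y : MonoidAlgebra Λ (Perm κ)) (i : Fin N) (hi : i ∉ Set.range φ) (x : R) :
    aL Λ R N (plL Λ φ y) * rhoL i x = rhoL i x * aL Λ R N (plL Λ φ y) := by
  induction y using MonoidAlgebra.induction_on with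
  | of σ => rw [Super.plL_of, rho_conj, Super.ext_apply' _ _ _ hi]
  | add u v hu hv => rw [map_add, map_add, add_mul, mul_add, hu, hv]
  | smul c u hu => rw [Super.plL_smul, map_smul, smul_mul_assoc, mul_smul_comm, hu]

theorem rB_comm {N : ℕ} (i i' : Fin N) (h : i ≠ i') (x y : R) :
    rB Λ B i x * rB Λ B i' y = rB Λ B i' y * rB Λ B i x := by
  refine LinearMap.ext fun f => funext fun b => ?_
  exact LinearMap.congr_fun (rho_comm i i' h x y) (f b)

theorem rB_placed {N : ℕ} {κ : Type} [Fintype κ] [LinearOrder κ] (φ : κ ↪o Fin N)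
    (Y : Matrix B B (MonoidAlgebra Λ (Perm κ))) (i : Fin N) (hi : i ∉ Set.range φ) (x : R) :
    aR Λ B R N (plM Λ φ Y) * rB Λ B i x = rB Λ B i x * aR Λ B R N (plM Λ φ Y) := by
  refine LinearMap.ext fun f => funext fun b => ?_
  change ∑ b', aL Λ R N (plL Λ φ (Y b b')) (rhoL i x (f b'))
    = rhoL i x (∑ b', aL Λ R N (plL Λ φ (Y b b')) (f b'))
  rw [map_sum]
  exact Finset.sum_congr rfl fun b' _ =>
    LinearMap.congr_fun (rho_placed φ (Y b b') i hi x) (f b')

variable (L : CB j k l m B)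

theorem rB_rr {n : ℕ} (i : Fin (n + m)) (x : R) :
    aR Λ B R (n + m) (L.rr n) * rB Λ B i x = rB Λ B i x * aR Λ B R (n + m) (L.rr n) := by
  refine LinearMap.ext fun f => funext fun b => ?_
  change ∑ b', aL Λ R _ (algebraMap Λ _ (L.r b b')) (rhoL i x (f b'))
    = rhoL i x (∑ b', aL Λ R _ (algebraMap Λ _ (L.r b b')) (f b'))
  rw [map_sum]
  refine Finset.sum_congr rfl fun b' _ => ?_
  rw [AlgHom.commutes, Module.algebraMap_end_apply, Module.algebraMap_end_apply, map_smul]

theorem rB_sS {n : ℕ} (σ : Perm (Fin n)) (i : Fin n) (x : R) :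
    aR Λ B R (n + m) (sS Λ B n m σ) * rB Λ B (phL n m i) x
      = rB Λ B (phL n m (σ i)) x * aR Λ B R (n + m) (sS Λ B n m σ) := by
  refine LinearMap.ext fun f => funext fun b => ?_
  change ∑ b', aL Λ R _ (sS Λ B n m σ b b') (rhoL _ x (f b'))
    = rhoL _ x (∑ b', aL Λ R _ (sS Λ B n m σ b b') (f b'))
  have h1 : ∀ g : B → VL Λ R (n + m), ∑ b', aL Λ R _ (sS Λ B n m σ b b') (g b')
      = aL Λ R _ (MonoidAlgebra.of Λ _ (ext (phL n m) σ)) (g b) := by
    intro g
    rw [Finset.sum_eq_single b]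
    · rw [sS_apply, if_pos rfl]
    · intro b' _ hb
      rw [sS_apply, if_neg hb.symm, map_zero]
      rfl
    · intro h; exact absurd (mem_univ _) h
  rw [h1, h1]
  have h2 := LinearMap.congr_fun (rho_conj (Λ := Λ) (ext (phL n m) σ) (phL n m i) x) (f b)
  rw [Super.ext_apply] at h2
  exact h2

/-- THE REPRESENTATION of a ring of type `(k|l)` -/
noncomputable def ringRB {n : ℕ} (hT : TypeKL j k l (n + m) R) :
    RB L n R (B → VL Λ R (n + m)) where
  a := aR Λ B R (n + m)
  hK _ hY := aR_zero hT hY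
  ρ i x := rB Λ B (phL n m i) x
  ρ_comm i i' h x y := rB_comm _ _ (fun e => h ((phL n m).injective e)) x y
  ρ_T i x := rB_placed (phR n m) L.T _ (Super.phR_notMem i) x
  ρ_rr i x := L.rB_rr _ x
  ρ_lm i i' h x := by
    refine rB_placed (phi n m i') L.lam _ ?_ x
    rintro ⟨c, hc⟩
    rcases Fin.eq_zero_or_eq_succ c with rfl | ⟨c, rfl⟩
    · rw [Super.phi_zero] at hc
      exact h ((phL n m).injective hc).symm
    · rw [Super.phi_succ] at hc
      exact Super.phR_notMem i ⟨c, hc⟩
  ρ_s σ i x := rB_sS σ i x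

end CB

end Pool.PI34.XX
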