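import Pool.Agent.LibPI34.X_R5

/-!
PI34, the prime `p = 2`, ring side, file R6: THE RING SIDE.
-/

set_option autoImplicit false
set_option linter.unusedSectionVars false
set_option linter.unusedSimpArgs false

namespace Pool.PI34.XX

open Equiv Finset
open Pool.PI34.Super (W Lt odd act mj bc tn ins EE gen plL phL phR phi pl sl ext eop EB prs mem_prs
  eps pv VL rhoL sL aL rhoH TypeKL ph1 fv monV)
open Pool.PI34.Super.CatL (rg)
open Pool.PI34.C0 (capMono)
open Pool.PI34.BA (anti permsOn Anti)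
open Pool.PI34.T1 (PureI MPI)

/-- the signed action on words without odd letters -/
theorem act_even {K n : ℕ} (Y : MonoidAlgebra ℤ (Perm (Fin n))) (g : W K 0 (Fin n))
    (w : Fin n → Lt K 0) : act K 0 _ (bc Y) g w = ∑ σ, (Y.coeff σ : ℚ) * g (w ∘ σ) := by
  have he : ∀ (σ : Perm (Fin n)) (u : Fin n → Lt K 0), eps σ (pv u) = 1 := by
    intro σ u
    unfold eps
    refine Finset.prod_eq_one fun q _ => ?_
    rw [if_neg]
    unfold pv
    rcases u q.1 with a | a
    · simp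
    · exact a.elim0
  have hbc : ∀ y : MonoidAlgebra ℤ (Perm (Fin n)), act K 0 _ (bc y) g w
      = ∑ σ, (y.coeff σ : ℚ) * g (w ∘ σ) := by
    intro y
    induction y using MonoidAlgebra.induction_on with
    | of τ =>
      have h1 : bc (MonoidAlgebra.of ℤ _ τ) = MonoidAlgebra.of ℚ _ τ := by
        simp [bc, MonoidAlgebra.of_apply]
      rw [h1, Super.act_of, Super.rho_apply, he, one_mul, Finset.sum_eq_single τ]
      · simp [MonoidAlgebra.of_apply]
      · intro σ _ hσ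
        simp only [MonoidAlgebra.of_apply, MonoidAlgebra.coeff_single]
        rw [Finsupp.single_eq_of_ne hσ]
        simp
      · intro h; exact absurd (mem_univ _) h
    | add x y hx hy =>
      rw [map_add, map_add, LinearMap.add_apply, Pi.add_apply, hx, hy, ← Finset.sum_add_distrib]
      refine Finset.sum_congr rfl fun σ _ => ?_
      rw [MonoidAlgebra.coeff_add, Finsupp.add_apply]
      push_cast
      ring
    | smul c x hx =>
      rw [map_zsmul, map_zsmul, LinearMap.smul_apply, Pi.smul_apply, hx, Finset.smul_sum]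
      refine Finset.sum_congr rfl fun σ _ => ?_
      rw [MonoidAlgebra.coeff_smul, Finsupp.smul_apply]
      simp only [smul_eq_mul, zsmul_eq_mul]
      push_cast
      ring
  exact hbc Y

namespace CB

variable {k l : ℕ} {Λ : Type} [CommRing Λ] {j : Λ →+* ℚ} {m : ℕ} {B : Type} [Fintype B]
  [DecidableEq B] (L : CB j k l m B)

/-- the value of `Y` at the plain flips -/
noncomputable def YY {n : ℕ} (Y : MonoidAlgebra ℤ (Perm (Fin n))) :
    Matrix B B (MonoidAlgebra Λ (Perm (Fin (n + 1 + m)))) :=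
  ∑ σ : Perm (Fin n), Y.coeff σ • L.fl (ext (Fin.succOrderEmb n) σ)

/-! ### the core -/

theorem RB.core {n : ℕ} {R M : Type} [Ring R] [AddCommGroup M] [Module Λ M]
    (V : RB L (n + 1) R M) (ρH : R →+* Module.End Λ M) (hρ : ∀ x, V.ρ 0 x = ρH x)
    (hinv : T2.Inv (T2.cop 2) Λ) (Y : MonoidAlgebra ℤ (Perm (Fin n)))
    {X : Type} (g : FreeAlgebra ℤ X)
    (hX : ∀ (Φ U : Type) [Ring Φ] [Ring U] (S : ExStr (Fin (n + 1)) Φ U),
      Anti S.f (k + l) → T2.Inv (T2.cop 2) U →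
      ∀ π : FreeAlgebra ℤ X →+* Φ, S.ρ 0 (π g) * fval S.f Y = 0)
    (π : FreeAlgebra ℤ X →+* R) :
    ρH (π g) * V.a (L.YY Y * L.TT (n + 1)) = 0 := by
  -- the letters
  let pP0 : R →+* V.PP := ρH.codRestrict V.PP (fun x => by rw [← hρ]; exact (V.pP 0 x).2)
  have hpP : ∀ x, pP0 x = V.pP 0 x := fun x => Subtype.ext (hρ x).symm
  let pU : R →+* V.UU := V.rs.comp pP0
  have hpU : ∀ x, pU x = V.nex.p 0 x := by
    intro x
    rw [RB.nex_p]
    change V.rs (pP0 x) = _
    rw [hpP]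
  let pPh : R →+* V.nex.Ph := pU.codRestrict V.nex.Ph
    (fun x => by rw [hpU]; exact V.nex.p_mem x)
  have h := hX _ _ V.nex.toEx V.nex_anti (inv_UJ _ hinv) (pPh.comp π)
  have h1 : V.nex.toEx.ρ 0 ((pPh.comp π) g) = V.rs (pP0 (π g)) := by
    change V.nex.rh 0 (pPh (π g)) = _
    rw [NEx.rh_zero]
    rfl
  have h2 : fval V.nex.toEx.f Y
      = V.rs (∑ σ : Perm (Fin n), Y.coeff σ • V.fP (ext (Fin.succOrderEmb n) σ)) := by
    unfold fval
    rw [map_sum]
    refine Finset.sum_congr rfl fun σ _ => ?_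
    rw [map_zsmul]
    rfl
  rw [h1, h2, ← map_mul, ← map_zero V.rs] at h
  have h3 := V.of_eq_on (of_resJ_eq _ h)
  have h4 : (∑ σ : Perm (Fin n), Y.coeff σ • V.fP (ext (Fin.succOrderEmb n) σ) : V.PP).1
      = V.a (L.YY Y) := by
    have h5 : ∀ x : V.PP, x.1 = V.PP.subtype x := fun _ => rfl
    rw [h5, map_sum]
    unfold YY
    rw [map_sum]
    refine Finset.sum_congr rfl fun σ _ => ?_
    rw [map_zsmul, map_zsmul, ← h5, V.fP_val]
  have h6 : (pP0 (π g) * ∑ σ : Perm (Fin n), Y.coeff σ • V.fP (ext (Fin.succOrderEmb n) σ) :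
      V.PP).1 = ρH (π g) * V.a (L.YY Y) := by
    rw [← h4]
    rfl
  rw [h6] at h3
  rw [map_mul, ← mul_assoc, h3]
  change (0 : Module.End Λ M) * _ = 0
  rw [zero_mul]

/-! ### the entries -/

/-- the matrices with entries in the group algebra of the strands `≠ 0` -/
def EM {n : ℕ} (Y : Matrix B B (MonoidAlgebra Λ (Perm (Fin (n + 1 + m))))) : Prop :=
  ∀ b b', Y b b' ∈ rg Λ n m

theorem EM_mul {n : ℕ} {Y Z : Matrix B B (MonoidAlgebra Λ (Perm (Fin (n + 1 + m))))}
    (hY : EM Y) (hZ : EM Z) : EM (Y * Z) := fun b b' => by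
  rw [Matrix.mul_apply]
  exact Subring.sum_mem _ fun c _ => Subring.mul_mem _ (hY b c) (hZ c b')

theorem EM_one {n : ℕ} : EM (1 : Matrix B B (MonoidAlgebra Λ (Perm (Fin (n + 1 + m))))) :=
  fun b b' => by
    rw [Matrix.one_apply]
    split_ifs
    · exact Subring.one_mem _
    · exact Subring.zero_mem _

theorem EM_sub {n : ℕ} {Y Z : Matrix B B (MonoidAlgebra Λ (Perm (Fin (n + 1 + m))))}
    (hY : EM Y) (hZ : EM Z) : EM (Y - Z) := fun b b' => Subring.sub_mem _ (hY b b') (hZ b b')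

theorem EM_lm {n : ℕ} (i : Fin n) : EM (L.lm (n + 1) i.succ) := by
  intro b b'
  refine ⟨plL Λ (phi n m i) (L.lam b b'), ?_⟩
  rw [Super.plL_trans _ _ (fun σ => Super.ext_trans _ _ σ), Super.phi_ph1]
  rfl

theorem EM_TT {n : ℕ} : EM (L.TT (n + 1)) := by
  intro b b'
  refine ⟨plL Λ (phR n m) (L.T b b'), ?_⟩
  rw [Super.plL_trans _ _ (fun σ => Super.ext_trans _ _ σ), Super.phR_ph1]
  rfl

theorem EM_sS {n : ℕ} (σ : Perm (Fin (n + 1))) (h : σ 0 = 0) : EM (sS Λ B (n + 1) m σ) := by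
  intro b b'
  rw [sS_apply]
  split_ifs
  · apply Super.CatL.rg_of
    intro x hx
    by_cases h2 : x ∈ Set.range (phL (n + 1) m)
    · obtain ⟨y, rfl⟩ := h2
      rw [Super.ext_apply]
      have h3 : (phL (n + 1) m y).val = y.val := rfl
      rw [h3] at hx
      have h4 : y = 0 := Fin.ext hx
      rw [h4, h]
    · exact Super.ext_apply' _ _ _ h2
  · exact Subring.zero_mem _

theorem EM_sg {n : ℕ} (σ : Perm (Fin (n + 1))) (h : σ 0 = 0) :
    EM (sgO (L.lm (n + 1)) σ) := by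
  unfold sgO
  have key : ∀ K : List (Fin (n + 1) × Fin (n + 1)), (∀ q ∈ K, q ∈ prs (Fin (n + 1))) →
      EM ((K.map (fun q => if σ q.2 < σ q.1 then 1 - L.lm (n + 1) q.1 * L.lm (n + 1) q.2
        else 1)).prod) := by
    intro K
    induction K with
    | nil => intro _; rw [List.map_nil, List.prod_nil]; exact EM_one
    | cons q K ih =>
      intro hK
      rw [List.map_cons, List.prod_cons]
      refine EM_mul ?_ (ih fun q hq => hK q (List.mem_cons_of_mem _ hq))
      have hy := hK q List.mem_cons_self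
      rw [mem_prs] at hy
      split_ifs with h1
      · have h2 : q.1 ≠ 0 := by
          intro e
          rw [e, h] at h1
          exact absurd h1 (Fin.not_lt_zero _)
        have h3 : q.2 ≠ 0 := by
          intro e
          rw [e] at hy
          exact absurd hy (Fin.not_lt_zero _)
        obtain ⟨a, ha⟩ := Fin.exists_succ_eq.2 h2
        obtain ⟨b, hb⟩ := Fin.exists_succ_eq.2 h3
        rw [← ha, ← hb]
        exact EM_sub EM_one (EM_mul (L.EM_lm a) (L.EM_lm b))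
      · exact EM_one
  exact key _ (fun q hq => Finset.mem_toList.1 hq)

theorem ext_succ_zero {n : ℕ} (σ : Perm (Fin n)) : ext (Fin.succOrderEmb n) σ 0 = 0 := by
  apply Super.ext_apply'
  rintro ⟨x, hx⟩
  exact absurd hx (Fin.succ_ne_zero _)

theorem EM_YY {n : ℕ} (Y : MonoidAlgebra ℤ (Perm (Fin n))) : EM (L.YY Y * L.TT (n + 1)) := by
  refine EM_mul (fun b b' => ?_) L.EM_TT
  unfold YY
  rw [Matrix.sum_apply]
  refine Subring.sum_mem _ fun σ _ => ?_
  rw [Matrix.smul_apply]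
  refine Subring.zsmul_mem _ ?_ _
  unfold fl
  exact EM_mul (EM_sS _ (ext_succ_zero σ)) (L.EM_sg _ (ext_succ_zero σ)) b b'

/-! ### the nonvanishing -/

theorem aW_YY {n : ℕ} {x : B → W k l (Fin m)} (hx : x ∈ L.Xi)
    (Y : MonoidAlgebra ℤ (Perm (Fin n))) (v : Fin (n + 1) → Lt k l) :
    aW j k l (L.YY Y) (tB B v x)
      = ∑ σ : Perm (Fin n), (Y.coeff σ : ℚ) •
        tB B (v ∘ ⇑(ext (Fin.succOrderEmb n) σ)⁻¹) x := by
  unfold YY
  rw [map_sum, LinearMap.sum_apply]
  refine Finset.sum_congr rfl fun σ _ => ?_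
  rw [map_zsmul, LinearMap.smul_apply, L.aW_fl hx, Int.cast_smul_eq_zsmul]

theorem YY_ne {n : ℕ} (hkl : 0 < k + l) (Y : MonoidAlgebra ℤ (Perm (Fin n)))
    (hY : act (k + l) 0 _ (bc Y) ≠ 0) :
    ∃ b b', act k l _ (mj j _ ((L.YY Y * L.TT (n + 1)) b b')) ≠ 0 := by
  classical
  by_contra hcon
  push Not at hcon
  have h0 := aW_of_zero hcon
  obtain ⟨f, hf1, hf2⟩ := L.hne
  obtain ⟨b0, hb0⟩ := Function.ne_iff.1 hf2
  obtain ⟨u0, hu0⟩ := Function.ne_iff.1 hb0
  obtain ⟨g, hg⟩ : ∃ g, act (k + l) 0 _ (bc Y) g ≠ 0 := by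
    by_contra h
    push Not at h
    exact hY (LinearMap.ext h)
  obtain ⟨w0, hw0⟩ := Function.ne_iff.1 hg
  have e : Lt (k + l) 0 ≃ Lt k l := Fintype.equivOfCardEq (by simp)
  let c0 : Lt k l := e (Sum.inl ⟨0, hkl⟩)
  let F : B → W k l (Fin (n + 1 + m)) :=
    ∑ u : Fin n → Lt k l, g (e.symm ∘ u) • tB B (Fin.cons c0 u : Fin (n + 1) → Lt k l) f
  have h1 := LinearMap.congr_fun h0 F
  rw [map_mul, Module.End.mul_apply] at h1
  have h2 : aW j k l (L.TT (n + 1)) F
      = ∑ u : Fin n → Lt k l, g (e.symm ∘ u) •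
        tB B (Fin.cons c0 u : Fin (n + 1) → Lt k l) (aW j k l L.T f) := by
    rw [map_sum]
    exact Finset.sum_congr rfl fun u _ => by rw [map_smul, L.aW_TT]
  rw [h2, map_sum] at h1
  have h3 := congrFun (congrFun h1 b0) (Fin.append (Fin.cons c0 (e ∘ w0) : Fin (n + 1) → Lt k l) u0)
  rw [LinearMap.zero_apply, Finset.sum_apply, Finset.sum_apply] at h3
  have hw1 : Fin.append (Fin.cons c0 (e ∘ w0) : Fin (n + 1) → Lt k l) u0 ∘ phL (n + 1) m
      = Fin.cons c0 (e ∘ w0) := by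
    funext i; exact Fin.append_left _ u0 i
  have hw2 : Fin.append (Fin.cons c0 (e ∘ w0) : Fin (n + 1) → Lt k l) u0 ∘ phR (n + 1) m = u0 := by
    funext i; exact Fin.append_right _ u0 i
  have h4 : ∀ (σ : Perm (Fin n)) (u : Fin n → Lt k l),
      ((Fin.cons c0 (e ∘ w0) : Fin (n + 1) → Lt k l)
        = (Fin.cons c0 u : Fin (n + 1) → Lt k l) ∘ ⇑(ext (Fin.succOrderEmb n) σ)⁻¹)
      ↔ u = e ∘ w0 ∘ σ := by
    intro σ u
    have hs : ∀ i : Fin n, (ext (Fin.succOrderEmb n) σ) i.succ = (σ i).succ := fun i =>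
      Super.ext_apply (Fin.succOrderEmb n) σ i
    constructor
    · intro h
      funext i
      have h5 := congrFun h ((ext (Fin.succOrderEmb n) σ) i.succ)
      rw [Function.comp_apply, ← Perm.mul_apply, inv_mul_cancel, Perm.one_apply, hs,
        Fin.cons_succ, Fin.cons_succ] at h5
      exact h5.symm
    · intro h
      subst h
      funext i
      obtain ⟨i', rfl⟩ := (ext (Fin.succOrderEmb n) σ).surjective i
      rw [Function.comp_apply, ← Perm.mul_apply, inv_mul_cancel, Perm.one_apply]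
      rcases Fin.eq_zero_or_eq_succ i' with rfl | ⟨i', rfl⟩
      · rw [ext_succ_zero, Fin.cons_zero, Fin.cons_zero]
      · rw [hs, Fin.cons_succ, Fin.cons_succ]
        rfl
  have h5 : ∀ u : Fin n → Lt k l, aW j k l (L.YY Y) (g (e.symm ∘ u) •
      tB B (Fin.cons c0 u : Fin (n + 1) → Lt k l) (aW j k l L.T f)) b0
      (Fin.append (Fin.cons c0 (e ∘ w0) : Fin (n + 1) → Lt k l) u0)
      = ∑ σ : Perm (Fin n), (if u = e ∘ w0 ∘ σ then g (e.symm ∘ u) * (Y.coeff σ : ℚ) *
        aW j k l L.T f b0 u0 else 0) := by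
    intro u
    rw [map_smul, L.aW_YY hf1, Pi.smul_apply, Pi.smul_apply, Finset.sum_apply,
      Finset.sum_apply, smul_eq_mul, Finset.mul_sum]
    refine Finset.sum_congr rfl fun σ _ => ?_
    rw [Pi.smul_apply, Pi.smul_apply, tB_apply, Super.tn_apply, hw1, hw2, smul_eq_mul]
    by_cases h6 : u = e ∘ w0 ∘ σ
    · rw [if_pos ((h4 σ u).2 h6), if_pos h6]
      ring
    · rw [if_neg (fun h7 => h6 ((h4 σ u).1 h7)), if_neg h6, mul_zero, mul_zero]
  rw [Finset.sum_congr rfl fun u _ => h5 u, Finset.sum_comm] at h3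
  have h6 : ∀ σ : Perm (Fin n), ∑ u : Fin n → Lt k l, (if u = e ∘ w0 ∘ σ then
      g (e.symm ∘ u) * (Y.coeff σ : ℚ) * aW j k l L.T f b0 u0 else 0)
      = ((Y.coeff σ : ℚ) * g (w0 ∘ σ)) * aW j k l L.T f b0 u0 := by
    intro σ
    rw [Finset.sum_ite_eq' univ (e ∘ w0 ∘ σ), if_pos (mem_univ _)]
    have h7 : e.symm ∘ (e ∘ w0 ∘ σ) = w0 ∘ σ := by
      funext i
      simp
    rw [h7]
    ring
  rw [Finset.sum_congr rfl fun σ _ => h6 σ, ← Finset.sum_mul, ← act_even] at h3
  rcases mul_eq_zero.1 h3 with h7 | h7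
  · exact hw0 h7
  · exact hu0 h7

/-! ### rings -/

include L in
theorem P3X {n : ℕ} (hkl : 0 < k + l) (hinv : T2.Inv (T2.cop 2) Λ)
    (Y : MonoidAlgebra ℤ (Perm (Fin n))) (hY : act (k + l) 0 _ (bc Y) ≠ 0)
    (I : (X : Type) → Ideal (FreeAlgebra ℤ X))
    (hX : ∀ (Φ U : Type) [Ring Φ] [Ring U] (S : ExStr (Fin (n + 1)) Φ U),
      Anti S.f (k + l) → T2.Inv (T2.cop 2) U →
      ∀ (X : Type) (π : FreeAlgebra ℤ X →+* Φ) (g : FreeAlgebra ℤ X), g ∈ I X →
        S.ρ 0 (π g) * fval S.f Y = 0) :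
    ∃ Y0 : MonoidAlgebra Λ (Perm (Fin (n + m))), act k l _ (mj j _ Y0) ≠ 0 ∧
      ∀ (R : Type) [Ring R] [Algebra Λ R], TypeKL j k l (n + 1 + m) R →
        ∀ (X : Type) (π : FreeAlgebra ℤ X →+* R) (g : FreeAlgebra ℤ X), g ∈ I X →
          ∀ (τ : Perm (Fin (n + m))) (v : Fin (n + m + 1) → R) (r : Fin (n + m) → R),
          π g * fv (Y0 * MonoidAlgebra.of Λ _ τ) v r = 0 := by
  obtain ⟨b, b', hb⟩ := L.YY_ne hkl Y hY
  obtain ⟨Y0, hY0⟩ := L.EM_YY Y b b'
  refine ⟨Y0, ?_, ?_⟩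
  · apply Super.CatL.act_of_pl (Super.conv_ph1 n m)
    rw [← Super.mj_plL, hY0]
    exact hb
  · intro R _ _ hT X π g hg τ v r
    have hcore := RB.core L (L.ringRB hT)
      (⟨⟨⟨fun a => rB Λ B (phL (n + 1) m 0) a, ?_⟩, ?_⟩, ?_, ?_⟩) (fun _ => rfl) hinv Y g
      (fun Φ U _ _ S h1 h2 π => hX Φ U S h1 h2 X π g hg) π
    rotate_left
    · refine LinearMap.ext fun f => funext fun b => ?_
      exact LinearMap.congr_fun ((rhoH (Λ := Λ) (phL (n + 1) m 0)).map_one) (f b)
    · intro x y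
      refine LinearMap.ext fun f => funext fun b => ?_
      exact LinearMap.congr_fun ((rhoH (Λ := Λ) (phL (n + 1) m 0)).map_mul x y) (f b)
    · refine LinearMap.ext fun f => funext fun b => ?_
      exact LinearMap.congr_fun ((rhoH (Λ := Λ) (phL (n + 1) m 0)).map_zero) (f b)
    · intro x y
      refine LinearMap.ext fun f => funext fun b => ?_
      exact LinearMap.congr_fun ((rhoH (Λ := Λ) (phL (n + 1) m 0)).map_add x y) (f b)
    have hent : rhoL (phL (n + 1) m 0) (π g) *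
        aL Λ R (n + 1 + m) (plL Λ (ph1 n m) Y0) = 0 := by
      refine LinearMap.ext fun f => ?_
      have h1 := congrFun (LinearMap.congr_fun hcore (Pi.single b' f)) b
      change rhoL (phL (n + 1) m 0) (π g)
        (∑ c, aL Λ R (n + 1 + m) ((L.YY Y * L.TT (n + 1)) b c)
          ((Pi.single b' f : B → VL Λ R (n + 1 + m)) c)) = 0 at h1
      rw [Finset.sum_eq_single b'] at h1
      · rw [Pi.single_eq_same] at h1
        rw [hY0]
        exact h1
      · intro c _ hc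
        rw [Pi.single_eq_of_ne hc, map_zero]
      · intro h; exact absurd (mem_univ _) h
    have h : rhoL (phL (n + 1) m 0) (π g) * aL Λ R (n + 1 + m) (plL Λ (ph1 n m)
        (Y0 * MonoidAlgebra.of Λ _ τ)) = 0 := by
      rw [map_mul, map_mul, ← mul_assoc, hent, zero_mul]
    let v' : Fin (n + 1 + m + 1) → R := fun i =>
      if h : i.val = 0 then 1 else v ⟨i.val - 1, by omega⟩
    let r' : Fin (n + 1 + m) → R := fun i =>
      if h : i.val = 0 then 1 else r ⟨i.val - 1, by omega⟩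
    have h1 : (aL Λ R (n + 1 + m) (plL Λ (ph1 n m)
        (Y0 * MonoidAlgebra.of Λ _ τ)) (monV v' 1)).1
        (Function.update r' (phL (n + 1) m 0) (r' (phL (n + 1) m 0) * π g)) = 0 :=
      congrFun (congrArg Subtype.val (LinearMap.congr_fun h (monV v' 1))) r'
    rw [Super.aL_fv, Super.fv_pl] at h1
    have e1 : v' 0 = 1 := dif_pos rfl
    have e2 : (phL (n + 1) m 0) = (⟨0, by omega⟩ : Fin (n + 1 + m)) := rfl
    have e3 : r' ⟨0, by omega⟩ = 1 := dif_pos rfl
    rw [e2, Function.update_self, e1, e3, one_mul, one_mul] at h1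
    have e4 : (fun i : Fin (n + m + 1) => v' ⟨i.val + 1, by omega⟩) = v := by
      funext i
      change (if h : i.val + 1 = 0 then 1 else v ⟨i.val + 1 - 1, by omega⟩) = _
      rw [dif_neg (by omega)]
      rfl
    have e5 : Function.update r' ⟨0, by omega⟩ (π g) ∘ ph1 n m = r := by
      funext i
      have h2 : ph1 n m i ≠ ⟨0, by omega⟩ := by
        intro h3
        have := congrArg Fin.val h3
        rw [Super.ph1_val] at this
        simp at this
      rw [Function.comp_apply, Function.update_of_ne h2]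
      change (if h : (ph1 n m i).val = 0 then 1 else
        r ⟨(ph1 n m i).val - 1, by omega⟩) = _
      rw [dif_neg (by rw [Super.ph1_val]; omega)]
      rfl
    rw [e4, e5] at h1
    exact h1

end CB

/-- THE RING SIDE, from the model side -/
theorem ringSide (hM : ModelSide) : RingSide := by
  intro k l hkl hE hH
  obtain ⟨m, B, _, _, ⟨L⟩⟩ := hM k l hE
  obtain ⟨I, n, Y, hI, hY, hX⟩ := hH
  have hinvA : T2.Inv (T2.cop 2) (Super.Ap 2) := by
    intro s hs
    have h := Super.Ap_unit 2 hs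
    rw [eq_intCast, Int.cast_natCast] at h
    exact h
  obtain ⟨Y0, hY0, h⟩ := L.P3X hkl hinvA Y hY I (fun Φ U _ _ S h1 h2 => hX Φ U S h1 h2)
  obtain ⟨s, hs, y0, hy0⟩ := Super.clrA Y0
  refine ⟨I, n + 1 + m, n + m, y0, hI, ?_, ?_⟩
  · have h1 : act k l _ (bc y0) = ((s : ℕ) : ℚ) • act k l _ (mj (Super.jA 2) _ Y0) := by
      rw [← Super.mj_icA (p := 2), hy0, Super.mj_smul, map_smul, Super.jA_int]
      rfl
    rw [h1]
    intro h2
    rcases smul_eq_zero.1 h2 with h3 | h3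
    · exact Super.cop_ne 2 hs (by exact_mod_cast h3)
    · exact hY0 h3
  · intro U _ hU hT X π g hg τ v r
    let _ := Super.algA hU
    have h2 := h U (Super.typeA_of hU (hT _ le_rfl)) X π g hg τ v r
    have h3 : Super.icA 2 _ (y0 * MonoidAlgebra.of ℤ _ τ)
        = (algebraMap ℤ (Super.Ap 2) s) • (Y0 * MonoidAlgebra.of (Super.Ap 2) _ τ) := by
      rw [map_mul, hy0, Super.icA_of, smul_mul_assoc]
    rw [← Super.fv_icA (p := 2), h3, Super.fv_lsmul, mul_smul_comm, h2, smul_zero]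

end Pool.PI34.XX
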