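import Pool.Agent.LibPI34.X_HEx

/-!
PI34, p = 2, block START, file 1: the star action of the adjacent transpositions on the coordinates.
-/

set_option autoImplicit false
set_option linter.unusedSectionVars false

namespace Pool.PI34.XH

open Equiv Finset
open Pool.PI34.H4 (P g act)

section sgB

variable {n : ℕ}

/-- the sign of an adjacent transposition -/
def e2 (i j : Fin n) (B : Finset (Fin n)) : ℤ := if i ∈ B ∧ j ∈ B then -1 else 1

theorem sgB_prod (σ : Perm (Fin n)) (B : Finset (Fin n)) :
    sgB σ B = ∏ p : Fin n × Fin n,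
      if p.1 < p.2 ∧ σ p.2 < σ p.1 ∧ σ p.1 ∈ B ∧ σ p.2 ∈ B then (-1 : ℤ) else 1 := by
  unfold sgB
  rw [← Finset.prod_const, Finset.prod_filter]

theorem sgB_one (B : Finset (Fin n)) : sgB 1 B = 1 := by
  rw [sgB_prod]
  refine Finset.prod_eq_one fun p _ => ?_
  rw [if_neg]
  rintro ⟨h1, h2, _⟩
  simp only [Perm.one_apply] at h2
  exact absurd h1 (not_lt.2 h2.le)

theorem mem_map_swap (i j u : Fin n) (B : Finset (Fin n)) :
    u ∈ B.map (swap i j).toEmbedding ↔ swap i j u ∈ B := by
  rw [Finset.mem_map]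
  constructor
  · rintro ⟨v, hv, rfl⟩
    simpa using hv
  · intro h
    exact ⟨swap i j u, h, by simp⟩

theorem map_swap_of_notMem {i j : Fin n} {h : Finset (Fin n)} (hi : i ∉ h) (hj : j ∉ h) :
    h.map (swap i j).toEmbedding = h := by
  ext u
  rw [mem_map_swap]
  by_cases h1 : u = i
  · subst h1
    rw [swap_apply_left]
    exact ⟨fun h => absurd h hj, fun h => absurd h hi⟩
  · by_cases h2 : u = j
    · subst h2
      rw [swap_apply_right]
      exact ⟨fun h => absurd h hi, fun h => absurd h hj⟩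
    · rw [swap_apply_of_ne_of_ne h1 h2]

theorem map_swap_of_mem {i j : Fin n} {h : Finset (Fin n)} (hi : i ∈ h) (hj : j ∈ h) :
    h.map (swap i j).toEmbedding = h := by
  ext u
  rw [mem_map_swap]
  by_cases h1 : u = i
  · subst h1
    rw [swap_apply_left]
    exact ⟨fun _ => hi, fun _ => hj⟩
  · by_cases h2 : u = j
    · subst h2
      rw [swap_apply_right]
      exact ⟨fun _ => hj, fun _ => hi⟩
    · rw [swap_apply_of_ne_of_ne h1 h2]

theorem sgB_swap_mul (i j : Fin n) (hij : (j : ℕ) = i + 1) (π : Perm (Fin n))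
    (B : Finset (Fin n)) :
    sgB (swap i j * π) B = e2 i j B * sgB π (B.map (swap i j).toEmbedding) := by
  classical
  have hne : i ≠ j := fun h => by rw [h] at hij; omega
  have hlt' : i < j := by rw [Fin.lt_def]; omega
  obtain ⟨q, hq1, hq2⟩ : ∃ q : Fin n × Fin n, q.1 < q.2 ∧
      ((π q.1 = i ∧ π q.2 = j) ∨ (π q.1 = j ∧ π q.2 = i)) := by
    rcases lt_or_gt_of_ne (show π⁻¹ i ≠ π⁻¹ j from fun h => hne (π⁻¹.injective h)) with h | h
    · exact ⟨(π⁻¹ i, π⁻¹ j), h, Or.inl ⟨by simp, by simp⟩⟩
    · exact ⟨(π⁻¹ j, π⁻¹ i), h, Or.inr ⟨by simp, by simp⟩⟩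
  have hord : ∀ u v : Fin n, u ≠ v → ¬ ((u = i ∧ v = j) ∨ (u = j ∧ v = i)) →
      (swap i j v < swap i j u ↔ v < u) := by
    intro u v huv hno
    have hv : ∀ x : Fin n, ((swap i j x : Fin n) : ℕ) =
        if (x : ℕ) = i then (j : ℕ) else if (x : ℕ) = j then (i : ℕ) else x := by
      intro x
      rw [swap_apply_def]
      simp only [← Fin.ext_iff]
      split_ifs <;> rfl
    rw [Fin.lt_def, Fin.lt_def, hv, hv]
    have h1 : (u : ℕ) ≠ v := fun e => huv (Fin.ext e)
    have h2 : ¬ (((u : ℕ) = i ∧ (v : ℕ) = j) ∨ ((u : ℕ) = j ∧ (v : ℕ) = i)) := by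
      intro h
      apply hno
      rcases h with ⟨a, b⟩ | ⟨a, b⟩
      · exact Or.inl ⟨Fin.ext a, Fin.ext b⟩
      · exact Or.inr ⟨Fin.ext a, Fin.ext b⟩
    split_ifs <;> omega
  have key : ∀ p : Fin n × Fin n,
      (if p.1 < p.2 ∧ (swap i j * π) p.2 < (swap i j * π) p.1 ∧ (swap i j * π) p.1 ∈ B ∧
        (swap i j * π) p.2 ∈ B then (-1 : ℤ) else 1) =
      (if p.1 < p.2 ∧ π p.2 < π p.1 ∧ π p.1 ∈ B.map (swap i j).toEmbedding ∧
        π p.2 ∈ B.map (swap i j).toEmbedding then (-1 : ℤ) else 1) *
        (if p = q then (if i ∈ B ∧ j ∈ B then -1 else 1) else 1) := by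
    intro p
    have F1 : p ≠ q → ((p.1 < p.2 ∧ (swap i j * π) p.2 < (swap i j * π) p.1 ∧
        (swap i j * π) p.1 ∈ B ∧ (swap i j * π) p.2 ∈ B) ↔
        (p.1 < p.2 ∧ π p.2 < π p.1 ∧ π p.1 ∈ B.map (swap i j).toEmbedding ∧
        π p.2 ∈ B.map (swap i j).toEmbedding)) := by
      intro hp
      rw [mem_map_swap, mem_map_swap]
      by_cases hlt : p.1 < p.2
      · have huv : π p.1 ≠ π p.2 := fun h => hlt.ne (π.injective h)
        have hno : ¬ ((π p.1 = i ∧ π p.2 = j) ∨ (π p.1 = j ∧ π p.2 = i)) := by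
          intro h
          apply hp
          rcases hq2 with ⟨a1, a2⟩ | ⟨a1, a2⟩ <;> rcases h with ⟨b1, b2⟩ | ⟨b1, b2⟩
          · exact Prod.ext (π.injective (b1.trans a1.symm)) (π.injective (b2.trans a2.symm))
          · have e1 : p.1 = q.2 := π.injective (b1.trans a2.symm)
            have e2 : p.2 = q.1 := π.injective (b2.trans a1.symm)
            rw [e1, e2] at hlt
            exact absurd hlt (not_lt.2 hq1.le)
          · have e1 : p.1 = q.2 := π.injective (b1.trans a2.symm)
            have e2 : p.2 = q.1 := π.injective (b2.trans a1.symm)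
            rw [e1, e2] at hlt
            exact absurd hlt (not_lt.2 hq1.le)
          · exact Prod.ext (π.injective (b1.trans a1.symm)) (π.injective (b2.trans a2.symm))
        have h3 := hord _ _ huv hno
        constructor
        · rintro ⟨a, b, c, d⟩
          exact ⟨a, h3.1 b, c, d⟩
        · rintro ⟨a, b, c, d⟩
          exact ⟨a, h3.2 b, c, d⟩
      · exact ⟨fun h => absurd h.1 hlt, fun h => absurd h.1 hlt⟩
    have h3 : ¬ (j < i) := not_lt.2 hlt'.le
    have F2 : p = q → (i ∈ B ∧ j ∈ B) → ((p.1 < p.2 ∧ (swap i j * π) p.2 < (swap i j * π) p.1 ∧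
        (swap i j * π) p.1 ∈ B ∧ (swap i j * π) p.2 ∈ B) ↔
        ¬ (p.1 < p.2 ∧ π p.2 < π p.1 ∧ π p.1 ∈ B.map (swap i j).toEmbedding ∧
        π p.2 ∈ B.map (swap i j).toEmbedding)) := by
      intro hp hB
      subst hp
      simp only [mem_map_swap, Perm.mul_apply]
      rcases hq2 with ⟨h1, h2⟩ | ⟨h1, h2⟩
      · simp only [h1, h2, swap_apply_left, swap_apply_right]
        tauto
      · simp only [h1, h2, swap_apply_left, swap_apply_right]
        tauto
    have F3 : p = q → ¬ (i ∈ B ∧ j ∈ B) → ¬ (p.1 < p.2 ∧ (swap i j * π) p.2 < (swap i j * π) p.1 ∧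
        (swap i j * π) p.1 ∈ B ∧ (swap i j * π) p.2 ∈ B) ∧
        ¬ (p.1 < p.2 ∧ π p.2 < π p.1 ∧ π p.1 ∈ B.map (swap i j).toEmbedding ∧
        π p.2 ∈ B.map (swap i j).toEmbedding) := by
      intro hp hB
      subst hp
      simp only [mem_map_swap, Perm.mul_apply]
      rcases hq2 with ⟨h1, h2⟩ | ⟨h1, h2⟩
      · simp only [h1, h2, swap_apply_left, swap_apply_right]
        tauto
      · simp only [h1, h2, swap_apply_left, swap_apply_right]
        tauto
    by_cases hp : p = q
    · rw [if_pos hp]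
      by_cases hB : i ∈ B ∧ j ∈ B
      · rw [if_pos hB]
        have h4 := F2 hp hB
        split_ifs with a b b
        · exact absurd b (h4.1 a)
        · norm_num
        · norm_num
        · exact absurd (h4.2 b) a
      · rw [if_neg hB, if_neg (F3 hp hB).1, if_neg (F3 hp hB).2, one_mul]
    · rw [if_neg hp, mul_one]
      have h4 := F1 hp
      split_ifs with a b b
      · rfl
      · exact absurd (h4.1 a) b
      · exact absurd (h4.2 b) a
      · rfl
  unfold e2
  rw [sgB_prod, sgB_prod, Finset.prod_congr rfl (fun p _ => key p), Finset.prod_mul_distrib,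
    Finset.prod_ite_eq' univ q, if_pos (mem_univ q), mul_comm]

/-- induction over products of adjacent transpositions -/
theorem adj_induction {p : Perm (Fin n) → Prop} (h1 : p 1)
    (hs : ∀ (i j : Fin n) (π : Perm (Fin n)), (j : ℕ) = i + 1 → p π → p (swap i j * π))
    (π : Perm (Fin n)) : p π := by
  cases n with
  | zero => rw [Subsingleton.elim π 1]; exact h1
  | succ n =>
    have hπ : π ∈ Submonoid.closure (Set.range fun i : Fin n => swap i.castSucc i.succ) := by
      rw [Equiv.Perm.mclosure_swap_castSucc_succ]; exact Submonoid.mem_top _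
    induction hπ using Submonoid.closure_induction_left with
    | one => exact h1
    | mul_left x hx y hy ih =>
      obtain ⟨i, rfl⟩ := hx
      exact hs _ _ _ (by simp) ih

/-- induction over products of adjacent transpositions, from the right -/
theorem adj_induction' {p : Perm (Fin n) → Prop} (h1 : p 1)
    (hs : ∀ (i j : Fin n) (π : Perm (Fin n)), (j : ℕ) = i + 1 → p π → p (π * swap i j))
    (π : Perm (Fin n)) : p π := by
  have h := adj_induction (p := fun π => p π⁻¹) (by simpa using h1) (fun i j π hij h => by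
    have h2 := hs i j _ hij h
    rw [mul_inv_rev, swap_inv]
    exact h2) π⁻¹
  simpa using h

theorem sgB_mul (σ π : Perm (Fin n)) (B : Finset (Fin n)) :
    sgB (σ * π) B = sgB σ B * sgB π (B.map (σ⁻¹ : Perm (Fin n)).toEmbedding) := by
  revert B
  refine adj_induction (p := fun σ => ∀ B, sgB (σ * π) B =
    sgB σ B * sgB π (B.map (σ⁻¹ : Perm (Fin n)).toEmbedding)) ?_ ?_ σ
  · intro B
    rw [one_mul, sgB_one, one_mul]
    congr 1
    ext u
    rw [Finset.mem_map]
    constructor
    · intro hu
      exact ⟨u, hu, rfl⟩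
    · rintro ⟨v, hv, rfl⟩
      exact hv
  · intro i j σ hij ih B
    rw [mul_assoc, sgB_swap_mul i j hij, ih, sgB_swap_mul i j hij, mul_assoc, Finset.map_map]
    congr 3

theorem sgB_swap (i j : Fin n) (hij : (j : ℕ) = i + 1) (B : Finset (Fin n)) :
    sgB (swap i j) B = e2 i j B := by
  have h := sgB_swap_mul i j hij 1 B
  rw [mul_one, sgB_one, mul_one] at h
  exact h

end sgB

section cj

variable {n : ℕ}

/-- `cj` as an additive map -/
noncomputable def cjH (σ : Perm (Fin n)) : PO n →+ PO n where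
  toFun := cj σ
  map_zero' := by unfold cj; simp
  map_add' x y := by unfold cj; rw [mul_add, add_mul]

theorem cj_add (σ : Perm (Fin n)) (x y : PO n) : cj σ (x + y) = cj σ x + cj σ y :=
  (cjH σ).map_add x y

theorem cj_neg (σ : Perm (Fin n)) (x : PO n) : cj σ (-x) = -cj σ x := (cjH σ).map_neg x

theorem cj_zsmul (σ : Perm (Fin n)) (m : ℤ) (x : PO n) : cj σ (m • x) = m • cj σ x :=
  (cjH σ).map_zsmul m x

theorem cj_sum {ι : Type} (s : Finset ι) (σ : Perm (Fin n)) (f : ι → PO n) :
    cj σ (∑ i ∈ s, f i) = ∑ i ∈ s, cj σ (f i) := map_sum (cjH σ) f s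

theorem oc_mul (σ τ : Perm (Fin n)) : optionCongr (σ * τ) = optionCongr σ * optionCongr τ := by
  ext x : 1
  cases x <;> rfl

theorem oc_one : optionCongr (1 : Perm (Fin n)) = 1 := by
  ext x : 1
  cases x <;> rfl

theorem oc_inv (σ : Perm (Fin n)) : (optionCongr σ)⁻¹ = optionCongr σ⁻¹ := by
  ext x : 1
  cases x <;> rfl

theorem cj_one (y : PO n) : cj 1 y = y := by
  unfold cj
  rw [oc_one, inv_one, H4.g_one, one_mul, mul_one]

theorem cj_mul (σ τ : Perm (Fin n)) (y : PO n) : cj (σ * τ) y = cj σ (cj τ y) := by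
  unfold cj
  rw [oc_mul, mul_inv_rev, H4.g_mul, H4.g_mul]
  simp only [mul_assoc]

end cj

section star

variable {n : ℕ}

/-- the star action of an adjacent transposition -/
noncomputable def star (i j : Fin n) (t : Finset (Fin n) → PO n) (h : Finset (Fin n)) : PO n :=
  if i ∈ h ∧ j ∈ h then
    - cj (swap i j) (t h + t ((h.erase i).erase j) + kap ((h.erase i).erase j).card •
      (t (h.erase j) + t (h.erase i)))
  else cj (swap i j) (t (h.map (swap i j).toEmbedding))

theorem sum_four {M : Type} [AddCommMonoid M] {i j : Fin n} (hne : i ≠ j) {B : Finset (Fin n)}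
    (hi : i ∈ B) (hj : j ∈ B) (F : Finset (Fin n) → M) :
    ∑ h ∈ B.powerset, F h = ∑ h ∈ ((B.erase i).erase j).powerset,
      (F h + F (insert i h) + F (insert j h) + F (insert i (insert j h))) := by
  have h1 : B = insert i (insert j ((B.erase i).erase j)) := by
    rw [Finset.insert_erase (Finset.mem_erase.2 ⟨hne.symm, hj⟩), Finset.insert_erase hi]
  have h2 : j ∉ (B.erase i).erase j := Finset.notMem_erase _ _
  have h3 : i ∉ insert j ((B.erase i).erase j) := by
    simp [hne]
  have h4 : ∑ h ∈ B.powerset, F h = ∑ h ∈ (insert i (insert j ((B.erase i).erase j))).powerset, F h := by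
    rw [← h1]
  rw [h4, Finset.sum_powerset_insert h3, Finset.sum_powerset_insert h2,
    Finset.sum_powerset_insert h2, ← Finset.sum_add_distrib, ← Finset.sum_add_distrib,
    ← Finset.sum_add_distrib]
  refine Finset.sum_congr rfl fun h _ => ?_
  abel

variable (i j : Fin n) (hne : i ≠ j) (t : Finset (Fin n) → PO n) {h : Finset (Fin n)}
  (hi : i ∉ h) (hj : j ∉ h)

include hi hj hne

theorem star_0 : star i j t h = cj (swap i j) (t h) := by
  unfold star
  rw [if_neg (fun e => hi e.1), map_swap_of_notMem hi hj]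

theorem star_i : star i j t (insert i h) = cj (swap i j) (t (insert j h)) := by
  unfold star
  rw [if_neg, Finset.map_insert, map_swap_of_notMem hi hj]
  · congr 3
    simp
  · rintro ⟨_, e⟩
    rcases Finset.mem_insert.1 e with e | e
    · exact hne e.symm
    · exact hj e

theorem star_j : star i j t (insert j h) = cj (swap i j) (t (insert i h)) := by
  unfold star
  rw [if_neg, Finset.map_insert, map_swap_of_notMem hi hj]
  · congr 3
    simp
  · rintro ⟨e, _⟩
    rcases Finset.mem_insert.1 e with e | e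
    · exact hne e
    · exact hi e

theorem star_ij : star i j t (insert i (insert j h)) =
    - cj (swap i j) (t (insert i (insert j h)) + t h + kap h.card • (t (insert i h) +
      t (insert j h))) := by
  unfold star
  have h1 : (insert i (insert j h)).erase i = insert j h := by
    rw [Finset.erase_insert]
    simp [hne, hi]
  have h2 : (insert i (insert j h)).erase j = insert i h := by
    rw [Finset.insert_comm, Finset.erase_insert]
    simp [hne.symm, hj]
  rw [if_pos ⟨by simp, by simp⟩, h1, h2, Finset.erase_insert hj]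

end star

section star2

variable {n : ℕ} {i j : Fin n}

theorem star_sum (hne : i ≠ j) {W : Type} [AddCommGroup W]
    (psi' psi : Finset (Fin n) → (PO n →+ W)) (hR : Rules i j psi' psi)
    (t : Finset (Fin n) → PO n) : ∑ h, psi' h (star i j t h) = ∑ h, psi h (t h) := by
  rw [← Finset.powerset_univ, sum_four hne (mem_univ i) (mem_univ j),
    sum_four hne (mem_univ i) (mem_univ j)]
  refine Finset.sum_congr rfl fun h hh => ?_
  rw [Finset.mem_powerset] at hh
  have hi : i ∉ h := fun e => by
    have := hh e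
    simp at this
  have hj : j ∉ h := fun e => by
    have := hh e
    simp at this
  rw [star_0 i j hne t hi hj, star_i i j hne t hi hj, star_j i j hne t hi hj,
    star_ij i j hne t hi hj, map_neg, (hR h _ hi hj).1, (hR h _ hi hj).2.1, (hR h _ hi hj).2.2.1,
    (hR h _ hi hj).2.2.2]
  simp only [map_add, map_zsmul, smul_add]
  abel

theorem kap_two (a : ℕ) : (2 : ℤ) ^ ((a + 1) / 2) - 2 ^ ((a + 2 + 1) / 2) = - 2 ^ ((a + 1) / 2) ∧
    (2 : ℤ) ^ ((a + 1 + 1) / 2) - 2 ^ ((a + 2 + 1) / 2) * kap a = - 2 ^ ((a + 1 + 1) / 2) := by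
  have h1 : (a + 2 + 1) / 2 = (a + 1) / 2 + 1 := by omega
  refine ⟨by rw [h1, pow_succ]; ring, ?_⟩
  unfold kap
  rcases Nat.even_or_odd a with he | ho
  · rw [if_pos he]
    obtain ⟨u, rfl⟩ := he
    have e1 : (u + u + 1 + 1) / 2 = u + 1 := by omega
    have e2 : (u + u + 2 + 1) / 2 = u + 1 := by omega
    rw [e1, e2]; ring
  · rw [if_neg (Nat.not_even_iff_odd.2 ho)]
    obtain ⟨u, rfl⟩ := ho
    have e1 : (2 * u + 1 + 1 + 1) / 2 = u + 1 := by omega
    have e2 : (2 * u + 1 + 2 + 1) / 2 = u + 2 := by omega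
    rw [e1, e2]; ring

theorem ty_star (hne : i ≠ j) (t : Finset (Fin n) → PO n) (B : Finset (Fin n)) :
    ty (star i j t) B = e2 i j B • cj (swap i j) (ty t (B.map (swap i j).toEmbedding)) := by
  by_cases hB : i ∈ B ∧ j ∈ B
  · unfold e2
    rw [if_pos hB, map_swap_of_mem hB.1 hB.2]
    unfold ty
    rw [sum_four hne hB.1 hB.2, sum_four hne hB.1 hB.2, cj_sum, Finset.smul_sum]
    refine Finset.sum_congr rfl fun h hh => ?_
    rw [Finset.mem_powerset] at hh
    have hi : i ∉ h := fun e => by
      have := hh e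
      simp at this
    have hj : j ∉ h := fun e => by
      have := hh e
      simp at this
    have hi' : i ∉ insert j h := by simp [hne, hi]
    rw [star_0 i j hne t hi hj, star_i i j hne t hi hj, star_j i j hne t hi hj,
      star_ij i j hne t hi hj, Finset.card_insert_of_notMem hi, Finset.card_insert_of_notMem hj,
      Finset.card_insert_of_notMem hi', Finset.card_insert_of_notMem hj]
    obtain ⟨k1, k2⟩ := kap_two h.card
    simp only [cj_add, cj_zsmul, smul_add, smul_neg, smul_smul, neg_mul, one_mul, neg_smul]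
    have e1 : ∀ (x : PO n), (2 : ℤ) ^ ((h.card + 1) / 2) • x - (2 : ℤ) ^ ((h.card + 2 + 1) / 2) • x
        = - ((2 : ℤ) ^ ((h.card + 1) / 2) • x) := by
      intro x
      rw [← sub_smul, k1, neg_smul]
    have e2 : ∀ (x : PO n), (2 : ℤ) ^ ((h.card + 1 + 1) / 2) • x -
        ((2 : ℤ) ^ ((h.card + 2 + 1) / 2) * kap h.card) • x
        = - ((2 : ℤ) ^ ((h.card + 1 + 1) / 2) • x) := by
      intro x
      rw [← sub_smul, k2, neg_smul]
    refine (show _ = ((2 : ℤ) ^ ((h.card + 1) / 2) • cj (swap i j) (t h) -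
        (2 : ℤ) ^ ((h.card + 2 + 1) / 2) • cj (swap i j) (t h)) +
        ((2 : ℤ) ^ ((h.card + 1 + 1) / 2) • cj (swap i j) (t (insert j h)) -
          ((2 : ℤ) ^ ((h.card + 2 + 1) / 2) * kap h.card) • cj (swap i j) (t (insert j h))) +
        ((2 : ℤ) ^ ((h.card + 1 + 1) / 2) • cj (swap i j) (t (insert i h)) -
          ((2 : ℤ) ^ ((h.card + 2 + 1) / 2) * kap h.card) • cj (swap i j) (t (insert i h))) -
        (2 : ℤ) ^ ((h.card + 2 + 1) / 2) • cj (swap i j) (t (insert i (insert j h))) from
          by abel).trans ?_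
    rw [e1, e2, e2]
    abel
  · unfold e2
    rw [if_neg hB, one_smul]
    unfold ty
    rw [cj_sum]
    refine Finset.sum_bij (fun h _ => h.map (swap i j).toEmbedding) ?_ ?_ ?_ ?_
    · intro h hh
      rw [Finset.mem_powerset] at hh ⊢
      exact Finset.map_subset_map.2 hh
    · intro h _ h' _ e
      exact Finset.map_injective _ e
    · intro h hh
      rw [Finset.mem_powerset] at hh
      refine ⟨h.map (swap i j).toEmbedding, ?_, ?_⟩
      · rw [Finset.mem_powerset]
        intro u hu
        rw [mem_map_swap] at hu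
        have := hh hu
        rw [mem_map_swap, swap_apply_self] at this
        exact this
      · ext u
        simp only [mem_map_swap, swap_apply_self]
    · intro h hh
      rw [Finset.mem_powerset] at hh
      have h1 : star i j t h = cj (swap i j) (t (h.map (swap i j).toEmbedding)) := by
        unfold star
        rw [if_neg (fun e => hB ⟨hh e.1, hh e.2⟩)]
      rw [h1, cj_zsmul, Finset.card_map]

end star2

/-- the coordinates of a relabelled path -/
theorem exists_T {n : ℕ} (k : ℕ) (π : Perm (Fin n)) : ∃ T : Finset (Fin n) → PO n,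
    (∀ B, ty T B = sgB π B • cj π (g (pathP n))) ∧
    ∀ (Φ U : Type) [Ring Φ] [Ring U] (ρ : Φ →+* U) (om : U) (S : PsiSys k Φ U ρ om)
      (b : Fin n → Φ), ∑ h, S.psi n b h (T h) = S.psi n (b ∘ π) ∅ (g (pathP n)) := by
  refine adj_induction (p := fun π => ∃ T : Finset (Fin n) → PO n,
    (∀ B, ty T B = sgB π B • cj π (g (pathP n))) ∧
    ∀ (Φ U : Type) [Ring Φ] [Ring U] (ρ : Φ →+* U) (om : U) (S : PsiSys k Φ U ρ om)
      (b : Fin n → Φ), ∑ h, S.psi n b h (T h) = S.psi n (b ∘ π) ∅ (g (pathP n))) ?_ ?_ π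
  · refine ⟨fun h => if h = ∅ then g (pathP n) else 0, fun B => ?_, ?_⟩
    · unfold ty
      rw [sgB_one, one_smul, cj_one, Finset.sum_eq_single ∅]
      · simp
      · intro h _ hh
        simp only [if_neg hh, smul_zero]
      · intro h
        exact absurd (Finset.empty_mem_powerset B) h
    · intro Φ U _ _ ρ om S b
      rw [Finset.sum_eq_single ∅]
      · change (S.psi n b ∅) (if (∅ : Finset (Fin n)) = ∅ then g (pathP n) else 0) = _
        rw [if_pos rfl]
        rfl
      · intro h _ hh
        simp only [if_neg hh, map_zero]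
      · intro h
        exact absurd (mem_univ _) h
  · intro i j π hij ⟨T, hT1, hT2⟩
    have hne : i ≠ j := fun h => by rw [h] at hij; omega
    refine ⟨star i j T, fun B => ?_, ?_⟩
    · rw [ty_star hne, hT1, cj_zsmul, smul_smul, sgB_swap_mul i j hij, cj_mul]
    · intro Φ U _ _ ρ om S b
      have h1 := S.rule n (b ∘ swap i j) i j hij
      have h2 : (b ∘ ⇑(swap i j)) ∘ ⇑(swap i j) = b := by
        funext x
        simp
      rw [h2] at h1
      rw [star_sum hne _ _ h1, hT2]
      rfl

end Pool.PI34.XH
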