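import Pool.Agent.LibPI34.X_St1
import Pool.Agent.LibPI34.S_Comb

/-!
PI34, p = 2, block START, file 2: the typed components of a super identity vanish.
-/

set_option autoImplicit false
set_option linter.unusedSectionVars false

namespace Pool.PI34.XH

open Equiv Finset
open Pool.PI34.H4 (P g act)
open Pool.PI34.SS (FA GT Lam ge phL)

/-! ### the coefficients of a relabelled path -/

/-- chains of pairs of letters -/
def chn {A : Type} : A → List (A × A) → A → Prop
  | a, [], b => a = b
  | a, x :: l, b => a = x.1 ∧ chn x.2 l b

theorem chn_ofFn {A : Type} (m : ℕ) (f : Fin (m + 1) → A × A) (a b : A) :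
    chn a (List.ofFn f) b ↔ a = (f 0).1 ∧ (∀ l : Fin m, (f l.castSucc).2 = (f l.succ).1) ∧
      (f (Fin.last m)).2 = b := by
  induction m generalizing a with
  | zero =>
    rw [List.ofFn_succ, List.ofFn_zero]
    simp [chn]
  | succ m ih =>
    rw [List.ofFn_succ]
    change a = (f 0).1 ∧ chn (f 0).2 (List.ofFn fun i => f i.succ) b ↔ _
    rw [ih, Fin.forall_fin_succ]
    constructor
    · rintro ⟨h1, h2, h3, h4⟩
      exact ⟨h1, ⟨h2, fun i => h3 i⟩, h4⟩
    · rintro ⟨h1, ⟨h2, h3⟩, h4⟩
      exact ⟨h1, h2, fun i => h3 i, h4⟩

open Classical in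
theorem prod_single {k : ℕ} (l : List (Fin k × Fin k)) (a b : Fin k) :
    (l.map fun x => Matrix.single x.1 x.2 (1 : ℤ)).prod a b = if chn a l b then 1 else 0 := by
  induction l generalizing a with
  | nil =>
    rw [List.map_nil, List.prod_nil, Matrix.one_apply]
    by_cases h : a = b
    · rw [if_pos h, if_pos (show chn a [] b from h)]
    · rw [if_neg h, if_neg (show ¬ chn a [] b from h)]
  | cons x l ih =>
    rw [List.map_cons, List.prod_cons]
    by_cases h : a = x.1
    · subst h
      rw [Matrix.single_mul_apply_same, one_mul, ih]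
      by_cases h : chn x.2 l b
      · rw [if_pos h, if_pos (show chn x.1 (x :: l) b from ⟨rfl, h⟩)]
      · rw [if_neg h, if_neg (fun e => h e.2)]
    · rw [Matrix.single_mul_apply_of_ne (h := h), if_neg (fun e => h e.1)]

theorem pathP_none (m : ℕ) : pathP (m + 1) none = some (Fin.last m) := by
  change finSuccEquivLast ((finRotate (m + 2)).symm (finSuccEquivLast.symm none)) = _
  rw [← finSuccEquivLast.symm.apply_eq_iff_eq, Equiv.symm_apply_apply, Equiv.symm_apply_eq,
    finSuccEquivLast_symm_none, finSuccEquivLast_symm_some, finRotate_apply]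
  ext
  simp

theorem pathP_zero (m : ℕ) : pathP (m + 1) (some 0) = none := by
  change finSuccEquivLast ((finRotate (m + 2)).symm (finSuccEquivLast.symm (some 0))) = _
  rw [← finSuccEquivLast.symm.apply_eq_iff_eq, Equiv.symm_apply_apply, Equiv.symm_apply_eq,
    finSuccEquivLast_symm_none, finSuccEquivLast_symm_some, finRotate_apply]
  simp

theorem pathP_succ (m : ℕ) (l : Fin m) :
    pathP (m + 1) (some l.succ) = some l.castSucc := by
  change finSuccEquivLast ((finRotate (m + 2)).symm (finSuccEquivLast.symm (some l.succ))) = _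
  rw [← finSuccEquivLast.symm.apply_eq_iff_eq, Equiv.symm_apply_apply, Equiv.symm_apply_eq,
    finSuccEquivLast_symm_some, finSuccEquivLast_symm_some, finRotate_apply]
  ext
  rw [Fin.val_add_one]
  split_ifs with h
  · exfalso
    have := congrArg Fin.val h
    simp at this
    omega
  · simp

theorem path_iff {n : ℕ} {A : Type} (v v' : Option (Fin n) → A) :
    v ∘ pathP n = v' ↔
      chn (v none) (List.ofFn fun l => (v' (some l), v (some l))) (v' none) := by
  cases n with
  | zero =>
    rw [List.ofFn_zero]
    change _ ↔ v none = v' none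
    constructor
    · intro h
      rw [← h]
      rfl
    · intro h
      funext x
      rcases x with _ | x
      · exact h
      · exact x.elim0
  | succ m =>
    rw [chn_ofFn]
    constructor
    · intro h
      refine ⟨?_, fun l => ?_, ?_⟩
      · rw [← h]
        simp only [Function.comp_apply, pathP_zero]
      · rw [← h]
        simp only [Function.comp_apply, pathP_succ]
      · rw [← h]
        simp only [Function.comp_apply, pathP_none]
    · rintro ⟨h1, h2, h3⟩
      funext x
      rw [Function.comp_apply]
      rcases x with _ | x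
      · rw [pathP_none]
        exact h3
      · refine Fin.cases ?_ (fun l => ?_) x
        · rw [pathP_zero]
          exact h1
        · rw [pathP_succ]
          exact h2 l

theorem act_cj_path {k n : ℕ} (τ : Perm (Fin n)) (w w' : Option (Fin n) → Fin k) :
    act k _ (cj τ (g (pathP n))) (Pi.single w' 1) w =
      (((List.ofFn fun l => Matrix.single (w' (some (τ l))) (w (some (τ l))) (1 : ℤ)).prod
        (w none) (w' none) : ℤ) : ℚ) := by
  classical
  have h1 : (List.ofFn fun l => Matrix.single (w' (some (τ l))) (w (some (τ l))) (1 : ℤ)) =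
      (List.ofFn fun l => (w' (some (τ l)), w (some (τ l)))).map
        fun x => Matrix.single x.1 x.2 (1 : ℤ) := by
    rw [List.map_ofFn]
    rfl
  rw [h1, prod_single]
  unfold cj
  rw [← H4.g_mul, ← H4.g_mul, H4.act_g, Pi.single_apply]
  have h2 : w ∘ ⇑(optionCongr τ * pathP n * (optionCongr τ)⁻¹) = w' ↔
      (w ∘ optionCongr τ) ∘ pathP n = w' ∘ optionCongr τ := by
    constructor
    · intro h
      rw [← h]
      funext x
      change _ = w (optionCongr τ (pathP n ((optionCongr τ).symm (optionCongr τ x))))
      rw [Equiv.symm_apply_apply]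
      rfl
    · intro h
      funext x
      have h3 := congrFun h ((optionCongr τ).symm x)
      change w (optionCongr τ (pathP n ((optionCongr τ).symm x))) =
        w' (optionCongr τ ((optionCongr τ).symm x)) at h3
      rw [Equiv.apply_symm_apply] at h3
      exact h3
  have h3 := path_iff (w ∘ optionCongr τ) (w' ∘ optionCongr τ)
  by_cases h : w ∘ ⇑(optionCongr τ * pathP n * (optionCongr τ)⁻¹) = w'
  · rw [if_pos h, if_pos]
    · simp
    · exact h3.1 (h2.1 h)
  · rw [if_neg h, if_neg]
    · simp
    · intro e
      exact h (h2.2 (h3.2 e))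

/-! ### the sign of a rearrangement in a supercommutative ring -/

theorem ofFn_swap_prod {R : Type} [Ring R] : ∀ {n : ℕ} (a : Fin n → R) (i j : Fin n),
    (j : ℕ) = i + 1 → ∀ ε : ℤ, a j * a i = ε • (a i * a j) →
    (List.ofFn fun p => a (swap i j p)).prod = ε • (List.ofFn a).prod := by
  intro n
  induction n with
  | zero => intro a i; exact i.elim0
  | succ n ih =>
    intro a i j hij ε h
    rcases Fin.eq_zero_or_eq_succ i with rfl | ⟨i', rfl⟩
    · cases n with
      | zero =>
        have := j.2
        simp at hij
      | succ m =>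
        have hj : j = 1 := by
          ext
          rw [hij]
          simp
        subst hj
        rw [List.ofFn_succ, List.ofFn_succ, List.ofFn_succ (f := a),
          List.ofFn_succ (f := fun i => a i.succ)]
        simp only [List.prod_cons, Fin.succ_zero_eq_one, swap_apply_left, swap_apply_right]
        have h3 : (fun i : Fin m => a (swap 0 1 i.succ.succ)) = fun i : Fin m => a i.succ.succ := by
          funext i
          rw [swap_apply_of_ne_of_ne (Fin.succ_ne_zero _)]
          intro e
          have := congrArg Fin.val e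
          simp at this
        rw [h3, ← mul_assoc, h, smul_mul_assoc, mul_assoc]
    · rcases Fin.eq_zero_or_eq_succ j with rfl | ⟨j', rfl⟩
      · simp at hij
      · rw [List.ofFn_succ, List.ofFn_succ (f := a), List.prod_cons, List.prod_cons]
        have h1 : swap i'.succ j'.succ 0 = 0 :=
          swap_apply_of_ne_of_ne (Fin.succ_ne_zero _).symm (Fin.succ_ne_zero _).symm
        have h2 : (fun p : Fin n => a (swap i'.succ j'.succ p.succ)) =
            fun p : Fin n => (fun q : Fin n => a q.succ) (swap i' j' p) := by
          funext p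
          congr 1
          rw [swap_apply_def, swap_apply_def]
          simp only [Fin.succ_inj]
          split_ifs <;> rfl
        rw [h1, h2, ih (fun q => a q.succ) i' j' (by simpa using hij) ε h, mul_smul_comm]

section theta

variable {n : ℕ}

/-- the letters: odd for the indices in `B`, even for the others -/
noncomputable def th (B : Finset (Fin n)) (l : Fin n) : GT (MvPolynomial (Fin n) ℤ) n :=
  if l ∈ B then GT.mk 1 (ge l) else GT.mk (MvPolynomial.X l) 1

theorem th_swap (B : Finset (Fin n)) (l l' : Fin n) :
    th B l' * th B l = (if l ∈ B ∧ l' ∈ B then (-1 : ℤ) else 1) • (th B l * th B l') := by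
  unfold th
  by_cases h : l ∈ B <;> by_cases h' : l' ∈ B
  · rw [if_pos h, if_pos h', if_pos ⟨h, h'⟩, GT.mk_mul, GT.mk_mul, SS.ge_swap l' l,
      GT.mk_neg_right, neg_smul, one_smul]
  · rw [if_pos h, if_neg h', if_neg (fun e => h' e.2), GT.mk_mul, GT.mk_mul, one_smul]
    simp
  · rw [if_neg h, if_pos h', if_neg (fun e => h e.1), GT.mk_mul, GT.mk_mul, one_smul]
    simp
  · rw [if_neg h, if_neg h', if_neg (fun e => h e.1), GT.mk_mul, GT.mk_mul, one_smul, mul_comm]

theorem th_prod (B : Finset (Fin n)) (π : Perm (Fin n)) :
    (List.ofFn fun p => th B (π p)).prod = sgB π B • (List.ofFn (th B)).prod := by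
  refine adj_induction' (p := fun π => (List.ofFn fun p => th B (π p)).prod =
    sgB π B • (List.ofFn (th B)).prod) ?_ ?_ π
  · rw [sgB_one, one_smul]
    rfl
  · intro i j π hij ih
    have h1 := ofFn_swap_prod (fun p => th B (π p)) i j hij _ (th_swap B (π i) (π j))
    change (List.ofFn fun p => (fun q => th B (π q)) (swap i j p)).prod = _
    rw [h1, ih, smul_smul, sgB_mul, sgB_swap i j hij, mul_comm]
    congr 2
    unfold e2
    have h2 : ∀ u : Fin n, u ∈ B.map (π⁻¹ : Perm (Fin n)).toEmbedding ↔ π u ∈ B := by
      intro u
      rw [Finset.mem_map]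
      constructor
      · rintro ⟨v, hv, rfl⟩
        simpa using hv
      · intro h
        exact ⟨π u, h, by simp⟩
    simp only [h2]

/-- the odd letters, in order -/
def LB (B : Finset (Fin n)) : List (Fin n) := (List.finRange n).filter (· ∈ B)

/-- the multilinear monomial of the even letters -/
noncomputable def mB (B : Finset (Fin n)) : Fin n →₀ ℕ :=
  Multiset.toFinsupp (((List.finRange n).filter (fun l => ¬ l ∈ B) : List (Fin n)) :
    Multiset (Fin n))

/-- the coefficient functional -/
noncomputable def Ps (B : Finset (Fin n)) : GT (MvPolynomial (Fin n) ℤ) n →+ ℤ :=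
  (MvPolynomial.coeffAddMonoidHom (mB B)).comp (GT.coef (MvPolynomial (Fin n) ℤ)
    (phL (LB B)))

theorem th_list (B : Finset (Fin n)) (L : List (Fin n)) :
    (L.map (th B)).prod = GT.mk (MvPolynomial.monomial (Multiset.toFinsupp
      ((L.filter (fun l => ¬ l ∈ B) : List (Fin n)) : Multiset (Fin n))) 1)
      (((L.filter (· ∈ B)).map ge).prod) := by
  induction L with
  | nil =>
    simp only [List.map_nil, List.prod_nil, List.filter_nil]
    rw [Multiset.coe_nil, map_zero]
    rfl
  | cons l L ih =>
    rw [List.map_cons, List.prod_cons, ih]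
    unfold th
    by_cases h : l ∈ B
    · have e1 : (l :: L).filter (· ∈ B) = l :: L.filter (· ∈ B) :=
        List.filter_cons_of_pos (by simpa using h)
      have e2 : (l :: L).filter (fun l => ¬ l ∈ B) = L.filter (fun l => ¬ l ∈ B) :=
        List.filter_cons_of_neg (by simpa using h)
      rw [if_pos h, GT.mk_mul, one_mul, e1, e2, List.map_cons, List.prod_cons]
    · have e1 : (l :: L).filter (· ∈ B) = L.filter (· ∈ B) :=
        List.filter_cons_of_neg (by simpa using h)
      have e2 : (l :: L).filter (fun l => ¬ l ∈ B) = l :: L.filter (fun l => ¬ l ∈ B) :=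
        List.filter_cons_of_pos (by simpa using h)
      rw [if_neg h, GT.mk_mul, one_mul, e1, e2, ← Multiset.cons_coe, ← Multiset.singleton_add,
        map_add, Multiset.toFinsupp_singleton]
      congr 1
      rw [MvPolynomial.X, MvPolynomial.monomial_mul, one_mul]

theorem phL_perm {b : ℕ} (L' : List (Fin b)) : ∀ L : List (Fin b), L.Nodup →
    phL L ((L'.map (fun s => (ge s : Lam b))).prod) ≠ 0 → L'.Perm L := by
  induction L' with
  | nil =>
    intro L _ h
    rw [List.map_nil, List.prod_nil, SS.phL_one] at h
    by_cases hL : L = []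
    · rw [hL]
    · rw [if_neg hL] at h
      exact absurd rfl h
  | cons s L' ih =>
    intro L hL h
    obtain ⟨ε, hε, h1⟩ := SS.phL_mul s L hL
    rw [List.map_cons, List.prod_cons, h1] at h
    by_cases hs : s ∈ L
    · rw [if_pos hs] at h
      have h2 := ih (L.erase s) (hL.erase s) (fun e => h (by rw [e, mul_zero]))
      exact (h2.cons s).trans (List.perm_cons_erase hs).symm
    · rw [if_neg hs] at h
      exact absurd rfl h

theorem phL_self {b : ℕ} (L : List (Fin b)) (hL : L.Nodup) :
    phL L ((L.map (fun s => (ge s : Lam b))).prod) ≠ 0 := by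
  induction L with
  | nil => rw [List.map_nil, List.prod_nil, SS.phL_one, if_pos rfl]; exact one_ne_zero
  | cons s L ih =>
    obtain ⟨ε, hε, h⟩ := SS.phL_mul s (s :: L) hL
    rw [List.map_cons, List.prod_cons, h, if_pos List.mem_cons_self, List.erase_cons_head]
    exact mul_ne_zero (fun h0 => by rw [h0] at hε; simp at hε) (ih (List.nodup_cons.1 hL).2)

theorem Ps_list (B : Finset (Fin n)) (L : List (Fin n)) :
    Ps B (L.map (th B)).prod = phL (LB B) (((L.filter (· ∈ B)).map ge).prod) *
      (if Multiset.toFinsupp ((L.filter (fun l => ¬ l ∈ B) : List (Fin n)) :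
        Multiset (Fin n)) = mB B then 1 else 0) := by
  rw [th_list]
  unfold Ps
  rw [AddMonoidHom.comp_apply, GT.coef_mk, map_zsmul, smul_eq_mul]
  congr 1
  exact MvPolynomial.coeff_monomial _ _ _

theorem Ps_perm (B : Finset (Fin n)) (L : List (Fin n)) (h : Ps B (L.map (th B)).prod ≠ 0) :
    L.Perm (List.finRange n) := by
  rw [Ps_list] at h
  have h1 : phL (LB B) (((L.filter (· ∈ B)).map ge).prod) ≠ 0 := fun e => h (by rw [e, zero_mul])
  have h2 : Multiset.toFinsupp ((L.filter (fun l => ¬ l ∈ B) : List (Fin n)) :
        Multiset (Fin n)) = mB B := by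
    by_contra hc
    rw [if_neg hc, mul_zero] at h
    exact h rfl
  have h3 : (L.filter (· ∈ B)).Perm ((List.finRange n).filter (· ∈ B)) :=
    phL_perm _ _ ((List.nodup_finRange n).filter _) h1
  have h4 : (L.filter (fun l => ¬ l ∈ B)).Perm ((List.finRange n).filter (fun l => ¬ l ∈ B)) := by
    have h5 := Multiset.toFinsupp.injective h2
    exact Multiset.coe_eq_coe.1 h5
  have h5 := List.filter_append_perm (fun l => decide (l ∈ B)) L
  have h6 := List.filter_append_perm (fun l => decide (l ∈ B)) (List.finRange n)
  have h7 : ∀ M : List (Fin n), M.filter (fun l => !decide (l ∈ B)) =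
      M.filter (fun l => decide (¬ l ∈ B)) := by
    intro M
    congr 1
    funext l
    simp
  rw [h7] at h5 h6
  exact h5.symm.trans ((h3.append h4).trans h6)

theorem Ps_self (B : Finset (Fin n)) : Ps B (List.ofFn (th B)).prod ≠ 0 := by
  have h1 : List.ofFn (th B) = (List.finRange n).map (th B) := List.ofFn_eq_map
  rw [h1, Ps_list]
  have h2 : Multiset.toFinsupp (((List.finRange n).filter (fun l => ¬ l ∈ B) : List (Fin n)) :
        Multiset (Fin n)) = mB B := rfl
  rw [if_pos h2, mul_one]
  exact phL_self _ ((List.nodup_finRange n).filter _)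

end theta

end Pool.PI34.XH
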